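import Mathlib
import Pool.Agent.Lib.MP_f58a57_nt.Defs

namespace Pool.Agent.MSD
end Pool.Agent.MSD
namespace Pool.Agent.MSK
end Pool.Agent.MSK
namespace Pool.Agent.MSP
end Pool.Agent.MSP

section

/-!
# MP_f58a57_nt, cubic points: abstract kernels

A kernel is a bilinear form `B` on `M[X_1, X_2] × M[s_1, s_2]`, `M` a field with derivations and automorphisms, which behaves like
`B(P, q) = P(∂_u) q(∂_s) K(t; u, s)` at `u = s = 0` for `K = exp(u^T e s) Θ(t + ∑ u_i D_i + ∑ s_j Z_j)`, as a function of `t`.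
-/

open MvPolynomial

noncomputable section

namespace Pool.Agent.MSU

/-- polynomials in two variables -/
abbrev Po (M : Type) [CommSemiring M] : Type := MvPolynomial (Fin 2) M

/-- the forms of degree `n` -/
abbrev Hs (M : Type) [CommSemiring M] (n : ℕ) : Submodule M (Po M) := homogeneousSubmodule (Fin 2) M n

variable {M : Type} [Field M] [Algebra ℂ M]

/-- a derivation applied to the coefficients -/
def cD (δ : Derivation ℂ M M) (P : Po M) : Po M := ∑ m ∈ P.support, monomial m (δ (P.coeff m))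

/-- a complex constant in `M[X_1, X_2]` -/
def cst (a : ℂ) : Po M := C (algebraMap ℂ M a)

/-- Taylor shift by a constant vector -/
def sh (v : Fin 2 → ℂ) (P : Po M) : Po M := aeval (fun i => (X i : Po M) + cst (v i)) P

/-- complex polynomials in `M[X_1, X_2]` -/
def ofC (g : Po ℂ) : Po M := map (algebraMap ℂ M) g

/-- abstract kernels -/
structure Ker (M : Type) [Field M] [Algebra ℂ M] (Λ : Type) where
  D : Fin 2 → Derivation ℂ M M
  Z : Fin 2 → Derivation ℂ M M
  T : Λ → M →+* M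
  Tsurj : ∀ w, Function.Surjective (T w)
  TC : ∀ w (a : ℂ), T w (algebraMap ℂ M a) = algebraMap ℂ M a
  e : Fin 2 → Fin 2 → ℂ
  lam : Λ → Fin 2 → ℂ
  chi : Λ → Fin 2 → ℂ
  c : Λ → M
  c0 : ∀ w, c w ≠ 0
  B : Po M →ₗ[M] Po M →ₗ[M] M
  B1 : B 1 1 ≠ 0
  hD : ∀ i P q, D i (B P q) = B (cD (D i) P + X i * P) q + B P (cD (D i) q - ∑ j, cst (e i j) * pderiv j q)
  hZ : ∀ j P q, Z j (B P q) = B (cD (Z j) P - ∑ i, cst (e i j) * pderiv i P) q + B P (cD (Z j) q + X j * q)
  hT : ∀ w P q, T w (B P q) = c w * B (sh (lam w) (map (T w) P)) (sh (chi w) (map (T w) q))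
  rigD : ∀ (f : M) (κ c : Fin 2 → ℂ), (∀ i, D i f = algebraMap ℂ M (κ i)) →
    (∀ w, T w f = f + algebraMap ℂ M (∑ j, c j * chi w j)) → c = 0 ∧ ∃ a : ℂ, f = algebraMap ℂ M a
  rigZ : ∀ (f : M) (κ c : Fin 2 → ℂ), (∀ i, Z i f = algebraMap ℂ M (κ i)) →
    (∀ w, T w f = f + algebraMap ℂ M (∑ j, c j * lam w j)) → c = 0 ∧ ∃ a : ℂ, f = algebraMap ℂ M a

variable {Λ : Type}

/-- the polynomials orthogonal to all polynomials of degree `< n` -/
def Rn (K : Ker M Λ) (n : ℕ) : Submodule M (Po M) where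
  carrier := {P | ∀ q : Po M, q.totalDegree < n → K.B P q = 0}
  add_mem' := by
    intro a b ha hb q hq
    rw [map_add, LinearMap.add_apply, ha q hq, hb q hq, add_zero]
  zero_mem' := by
    intro q _
    rw [map_zero, LinearMap.zero_apply]
  smul_mem' := by
    intro c x hx q hq
    rw [map_smul, LinearMap.smul_apply, hx q hq, smul_zero]

/-- the leading forms of degree `k` of the elements of `Rn K n` -/
def J (K : Ker M Λ) (n k : ℕ) : Submodule M (Po M) :=
  (Rn K n ⊓ restrictTotalDegree (Fin 2) M k).map (homogeneousComponent k)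

/-- the codimension of `J K n k` in the space of forms of degree `k` -/
def aa (K : Ker M Λ) (n k : ℕ) : ℕ := k + 1 - Module.finrank M (J K n k)

end Pool.Agent.MSU
end

end

section

/-! # U/Z4_OneVar: subspaces of polynomials with slow growth -/

open Polynomial

noncomputable section

namespace Pool.Agent.MSU

lemma ZA04_inj {F : Type} [Field F] {h : F[X]} (hh : h ≠ 0) :
    Function.Injective (LinearMap.mulLeft F h) := by
  intro a b hab
  simp only [LinearMap.mulLeft_apply] at hab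
  exact mul_left_cancel₀ hh hab

lemma ZA04_finrank_map {F : Type} [Field F] {h : F[X]} (hh : h ≠ 0) (A : Submodule F F[X]) :
    Module.finrank F (A.map (LinearMap.mulLeft F h)) = Module.finrank F A :=
  (LinearEquiv.finrank_eq (Submodule.equivMapOfInjective _ (ZA04_inj hh) A)).symm

lemma ZA04_finrank_degreeLT {F : Type} [Field F] (n : ℕ) :
    Module.finrank F (degreeLT F n) = n := by
  rw [LinearEquiv.finrank_eq (degreeLTEquiv F n)]
  simp

lemma ZA04_fd {F : Type} [Field F] (n : ℕ) : FiniteDimensional F (degreeLT F n) :=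
  Module.Finite.equiv (degreeLTEquiv F n).symm

lemma ZA04_bdd {F : Type} [Field F] (A : Submodule F F[X]) [FiniteDimensional F A] :
    ∃ n : ℕ, ∀ f ∈ A, f.natDegree ≤ n := by
  have hfg : A.FG := (Submodule.fg_iff_finiteDimensional A).mpr inferInstance
  obtain ⟨s, hs⟩ := hfg
  obtain ⟨n, hn⟩ := Polynomial.span_le_degreeLE_of_finite (R := F) s.finite_toSet
  refine ⟨n, fun f hf => ?_⟩
  have : f ∈ degreeLE F n := hn (by rw [hs]; exact hf)
  rw [mem_degreeLE] at this
  exact natDegree_le_of_degree_le this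

/-- Z4a. a subspace `A ≠ 0` of finite dimension is properly contained in `A + X A`. PROOF. An element of maximal degree of `A` (finite dimension) times `X` is not in `A`. -/
theorem one_var_lt {F : Type} [Field F] (A : Submodule F F[X]) [FiniteDimensional F A] (h1 : 1 ≤ Module.finrank F A) :
    Module.finrank F A + 1 ≤ Module.finrank F (A ⊔ A.map (LinearMap.mulLeft F (X : F[X])) : Submodule F F[X]) := by
  by_contra hcon
  have hle : A ≤ A ⊔ A.map (LinearMap.mulLeft F (X : F[X])) := le_sup_left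
  have heq : A = A ⊔ A.map (LinearMap.mulLeft F (X : F[X])) := by
    apply Submodule.eq_of_le_of_finrank_le hle
    omega
  have hX : ∀ f ∈ A, X * f ∈ A := by
    intro f hf
    have : X * f ∈ A ⊔ A.map (LinearMap.mulLeft F (X : F[X])) :=
      Submodule.mem_sup_right ⟨f, hf, rfl⟩
    rw [← heq] at this
    exact this
  have hXn : ∀ f ∈ A, ∀ n : ℕ, X ^ n * f ∈ A := by
    intro f hf n
    induction n with
    | zero => simpa using hf
    | succ n ih =>
      have := hX _ ih
      rwa [← mul_assoc, ← pow_succ'] at this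
  obtain ⟨n, hn⟩ := ZA04_bdd A
  have hne : A ≠ ⊥ := by
    rintro rfl
    simp at h1
  obtain ⟨f, hf, hf0⟩ := Submodule.exists_mem_ne_zero_of_ne_bot hne
  have h2 := hn _ (hXn f hf (n + 1))
  rw [natDegree_X_pow_mul _ hf0] at h2
  omega

lemma ZA04_aux {F : Type} [Field F] (a : ℕ) : ∀ (A : Submodule F F[X]) [FiniteDimensional F A],
    Module.finrank F A = a + 1 →
    Module.finrank F (A ⊔ A.map (LinearMap.mulLeft F (X : F[X])) : Submodule F F[X]) ≤ a + 1 + 1 →
    ∃ h : F[X], h ≠ 0 ∧ A = (degreeLT F (a + 1)).map (LinearMap.mulLeft F h) := by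
  induction a with
  | zero =>
    intro A _ hA _
    have hne : A ≠ ⊥ := by
      rintro rfl
      simp at hA
    obtain ⟨h, hh, h0⟩ := Submodule.exists_mem_ne_zero_of_ne_bot hne
    refine ⟨h, h0, ?_⟩
    symm
    apply Submodule.eq_of_le_of_finrank_eq
    · rintro _ ⟨p, hp, rfl⟩
      have hp1 : p.degree < ((0 + 1 : ℕ) : WithBot ℕ) := mem_degreeLT.mp hp
      have hp2 : p.degree ≤ 0 := by
        by_cases hp0 : p = 0
        · rw [hp0, degree_zero]; exact bot_le
        · rw [degree_eq_natDegree hp0] at hp1 ⊢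
          have : p.natDegree < 0 + 1 := by exact_mod_cast hp1
          exact_mod_cast (by omega : p.natDegree ≤ 0)
      rw [eq_C_of_degree_le_zero hp2]
      have : (LinearMap.mulLeft F h) (C (p.coeff 0)) = (p.coeff 0) • h := by
        rw [LinearMap.mulLeft_apply, mul_comm, smul_eq_C_mul]
      rw [this]
      exact A.smul_mem _ hh
    · rw [ZA04_finrank_map h0, ZA04_finrank_degreeLT, hA]
  | succ a ih =>
    intro A _ hA h2
    have hinj := ZA04_inj (F := F) (h := X) X_ne_zero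
    let A1 : Submodule F F[X] := A ⊓ A.comap (LinearMap.mulLeft F (X : F[X]))
    have hA1le : A1 ≤ A := inf_le_left
    have : FiniteDimensional F A1 := Submodule.finiteDimensional_of_le hA1le
    have hmap : A ⊓ A.map (LinearMap.mulLeft F (X : F[X])) =
        A1.map (LinearMap.mulLeft F (X : F[X])) := by
      ext f
      constructor
      · rintro ⟨hf, g, hg, rfl⟩
        exact ⟨g, ⟨hg, hf⟩, rfl⟩
      · rintro ⟨g, ⟨hg, hg2⟩, rfl⟩
        exact ⟨hg2, g, hg, rfl⟩
    have hdim := Submodule.finrank_sup_add_finrank_inf_eq A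
      (A.map (LinearMap.mulLeft F (X : F[X])))
    rw [hmap, ZA04_finrank_map X_ne_zero, ZA04_finrank_map X_ne_zero, hA] at hdim
    have hA1 : a + 1 ≤ Module.finrank F A1 := by omega
    have hlt := one_var_lt A1 (by omega)
    have hle2 : A1 ⊔ A1.map (LinearMap.mulLeft F (X : F[X])) ≤ A := by
      apply sup_le hA1le
      rintro _ ⟨g, ⟨hg, hg2⟩, rfl⟩
      exact hg2
    have hfr := Submodule.finrank_mono hle2
    rw [hA] at hfr
    have hA1' : Module.finrank F A1 = a + 1 := by omega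
    have heq : A1 ⊔ A1.map (LinearMap.mulLeft F (X : F[X])) = A := by
      apply Submodule.eq_of_le_of_finrank_le hle2
      omega
    obtain ⟨h, h0, hh⟩ := ih A1 hA1' (by omega)
    refine ⟨h, h0, ?_⟩
    have : FiniteDimensional F (degreeLT F (a + 1 + 1)) := ZA04_fd _
    apply Submodule.eq_of_le_of_finrank_eq
    · rw [← heq]
      apply sup_le
      · rw [hh]
        exact Submodule.map_mono (degreeLT_mono (by omega))
      · rw [hh]
        rintro _ ⟨_, ⟨p, hp, rfl⟩, rfl⟩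
        refine ⟨X * p, ?_, ?_⟩
        · have hp1 : p.degree < ((a + 1 : ℕ) : WithBot ℕ) := mem_degreeLT.mp hp
          show X * p ∈ degreeLT F (a + 1 + 1)
          rw [mem_degreeLT]
          by_cases hp0 : p = 0
          · rw [hp0, mul_zero, degree_zero]
            exact WithBot.bot_lt_coe _
          · rw [degree_eq_natDegree (mul_ne_zero X_ne_zero hp0), natDegree_X_mul hp0]
            rw [degree_eq_natDegree hp0] at hp1
            have : p.natDegree < a + 1 := by exact_mod_cast hp1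
            exact_mod_cast (by omega : p.natDegree + 1 < a + 1 + 1)
        · simp only [LinearMap.mulLeft_apply]
          ring
    · rw [ZA04_finrank_map h0, ZA04_finrank_degreeLT, hA]

/-- Z4b. PROOF. Induction on `a = finrank A`. `a = 1`: `A` is spanned by `h`. `a ≥ 2`: let `A1 = {f ∈ A : X f ∈ A}`. As multiplication by `X` is injective, `A ∩ X A = X A1` and `dim (A + X A) = 2a - dim A1` (`Submodule.finrank_sup_add_finrank_inf_eq`), so `dim A1 ≥ a - 1`, and `dim A1 ≤ a - 1` since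
`A1 + X A1 ⊆ A` and `one_var_lt` (`dim A1 ≥ 1`). Also `dim (A1 + X A1) ≤ a = dim A1 + 1`. By induction `A1 = h · degreeLT (a-1)`. Then `A ⊇ A1 + X A1 = h · degreeLT a` which has dimension `a`, so equality. -/
theorem one_var {F : Type} [Field F] (A : Submodule F F[X]) [FiniteDimensional F A] (h1 : 1 ≤ Module.finrank F A)
    (h2 : Module.finrank F (A ⊔ A.map (LinearMap.mulLeft F (X : F[X])) : Submodule F F[X]) ≤ Module.finrank F A + 1) :
    ∃ h : F[X], h ≠ 0 ∧ A = (degreeLT F (Module.finrank F A)).map (LinearMap.mulLeft F h) := by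
  obtain ⟨a, ha⟩ : ∃ a, Module.finrank F A = a + 1 := ⟨Module.finrank F A - 1, by omega⟩
  rw [ha] at h2 ⊢
  exact ZA04_aux a A ha h2

end Pool.Agent.MSU
end

end

section

/-!
# MP_f58a57_nt, pairs of special points: definitions

Flat functions of one curve with period ratio `τ`: the theta function `th τ`, the numerators `N0, N1, N2`,
`ph = th'/th` and `wp = -ph' - s` (the Weierstrass function of `ℤ + ℤτ` if `s = (π²/3) E₂(τ)`).
-/

open Complex

noncomputable section

namespace Pool.Agent.MSP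

/-- `e^{2πix}` -/
def ee (x : ℂ) : ℂ := cexp (2 * Real.pi * I * x)

/-- the product part of the theta function -/
def thp (τ t : ℂ) : ℂ := ∏' n : ℕ, ((1 - ee ((n + 1) * τ + t)) * (1 - ee ((n + 1) * τ - t)))

/-- `sin(πt) ∏_{n ≥ 1} (1 - pⁿ e^{2πit})(1 - pⁿ e^{-2πit})`, `p = e^{2πiτ}` -/
def th (τ t : ℂ) : ℂ := Complex.sin (Real.pi * t) * thp τ t

/-- the numerators -/
def N0 (τ t : ℂ) : ℂ := th τ t

def N1 (τ t : ℂ) : ℂ := deriv (th τ) t

def N2 (τ s t : ℂ) : ℂ := deriv (th τ) t ^ 2 - th τ t * deriv (deriv (th τ)) t - s * th τ t ^ 2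

/-- `th'/th` -/
def ph (τ t : ℂ) : ℂ := N1 τ t / N0 τ t

/-- `- (th'/th)' - s` -/
def wp (τ s t : ℂ) : ℂ := N2 τ s t / N0 τ t ^ 2

/-- the automorphy factor of `th` for the translation by `m + nτ` -/
def au (τ : ℂ) (m n : ℤ) (t : ℂ) : ℂ :=
  (-1 : ℂ) ^ (m + n) * cexp (-(Real.pi * I * (n : ℂ) ^ 2 * τ) - 2 * Real.pi * I * n * t)

/-- the value of `s` for which `wp` is the Weierstrass function -/
def sE (τ : ℂ) : ℂ := (Real.pi : ℂ) ^ 2 / 3 * MSD.e2 τ

/-- one curve (flat) -/
structure Cv where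
  τ : ℂ
  s : ℂ
  im : 0 < τ.im

/-- parameters of the auxiliary function: degree `L` in the two Weierstrass functions, degrees `d₁, d₂, d₃` in the three
linear coordinates `x₁, x₂, x₃` -/
structure Pr where
  L : ℕ
  d₁ : ℕ
  d₂ : ℕ
  d₃ : ℕ
  a₁ : ℤ
  a₂ : ℤ
  b₁ : ℤ
  b₂ : ℤ

namespace Pr

/-- total degree in the linear coordinates -/
def l (P : Pr) : ℕ := P.d₁ + P.d₂ + P.d₃

/-- the power of the theta functions that clears the denominators -/
def M (P : Pr) : ℕ := 2 * P.L + P.l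

/-- size of the coefficients of the linear coordinates -/
def A (P : Pr) : ℝ := 2 + |(P.a₁ : ℝ)| + |(P.a₂ : ℝ)| + |(P.b₁ : ℝ)| + |(P.b₂ : ℝ)|

/-- index set of the monomials: `(a, b, κ₁, κ₂, κ₃)` -/
def box (P : Pr) : Finset (ℕ × ℕ × ℕ × ℕ × ℕ) :=
  Finset.range (P.L + 1) ×ˢ Finset.range (P.L + 1) ×ˢ Finset.range (P.d₁ + 1) ×ˢ Finset.range (P.d₂ + 1) ×ˢ
    Finset.range (P.d₃ + 1)

/-- standing assumptions -/
structure Good (P : Pr) : Prop where
  det : P.a₁ * P.b₁ + P.a₂ * P.b₂ = 1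
  hL : 1 ≤ P.L
  hl : P.l ≤ P.L
  hA : P.A ^ P.l ≤ Real.exp P.L

end Pr

/-- `y₁ = -ph₁(t)/(2πi)` times `th₁(t) th₂(w)` -/
def Z1 (c₁ c₂ : Cv) (t w : ℂ) : ℂ := -(N1 c₁.τ t * N0 c₂.τ w) / (2 * Real.pi * I)

/-- `y₂ = -ph₂(w)/(2πi)` times `th₁(t) th₂(w)` -/
def Z2 (c₁ c₂ : Cv) (t w : ℂ) : ℂ := -(N0 c₁.τ t * N1 c₂.τ w) / (2 * Real.pi * I)

/-- `y₃ = (w - t) - τ₂ y₂ + τ₁ y₁` times `th₁(t) th₂(w)` -/
def Z3 (c₁ c₂ : Cv) (t w : ℂ) : ℂ :=
  (w - t) * (N0 c₁.τ t * N0 c₂.τ w) - c₂.τ * Z2 c₁ c₂ t w + c₁.τ * Z1 c₁ c₂ t w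

/-- the monomial with index `ν`, with the linear coordinates shifted by `k`, times `(th₁(t) th₂(w))^M` -/
def Gmon (c₁ c₂ : Cv) (P : Pr) (k : Fin 3 → ℂ) (ν : ℕ × ℕ × ℕ × ℕ × ℕ) (t w : ℂ) : ℂ :=
  N2 c₁.τ c₁.s t ^ ν.1 * N0 c₁.τ t ^ (2 * (P.L - ν.1)) *
  (N2 c₂.τ c₂.s w ^ ν.2.1 * N0 c₂.τ w ^ (2 * (P.L - ν.2.1))) *
  ((Z3 c₁ c₂ t w + k 0 * (N0 c₁.τ t * N0 c₂.τ w)) ^ ν.2.2.1 *
   (P.b₂ * Z1 c₁ c₂ t w - P.b₁ * Z2 c₁ c₂ t w + k 1 * (N0 c₁.τ t * N0 c₂.τ w)) ^ ν.2.2.2.1 *
   (P.a₁ * Z1 c₁ c₂ t w + P.a₂ * Z2 c₁ c₂ t w + k 2 * (N0 c₁.τ t * N0 c₂.τ w)) ^ ν.2.2.2.2) *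
  (N0 c₁.τ t * N0 c₂.τ w) ^ (P.l - (ν.2.2.1 + ν.2.2.2.1 + ν.2.2.2.2))

/-- the entire function `(th₁ th₂)^M F`, with shift `k` -/
def Gs (c₁ c₂ : Cv) (P : Pr) (k : Fin 3 → ℂ) (coef : ℕ × ℕ × ℕ × ℕ × ℕ → ℂ) (t w : ℂ) : ℂ :=
  ∑ ν ∈ P.box, coef ν * Gmon c₁ c₂ P k ν t w

/-- the entire function `(th₁ th₂)^M F` -/
def GG (c₁ c₂ : Cv) (P : Pr) (coef : ℕ × ℕ × ℕ × ℕ × ℕ → ℂ) (t w : ℂ) : ℂ := Gs c₁ c₂ P 0 coef t w

/-- the linear coordinates -/
def xx (c₁ c₂ : Cv) (P : Pr) (i : Fin 3) (t w : ℂ) : ℂ :=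
  ![(w - t) + c₂.τ * (ph c₂.τ w / (2 * Real.pi * I)) - c₁.τ * (ph c₁.τ t / (2 * Real.pi * I)),
    -(P.b₂ * (ph c₁.τ t / (2 * Real.pi * I))) + P.b₁ * (ph c₂.τ w / (2 * Real.pi * I)),
    -(P.a₁ * (ph c₁.τ t / (2 * Real.pi * I))) - P.a₂ * (ph c₂.τ w / (2 * Real.pi * I))] i

/-- the auxiliary function -/
def FF (c₁ c₂ : Cv) (P : Pr) (coef : ℕ × ℕ × ℕ × ℕ × ℕ → ℂ) (t w : ℂ) : ℂ :=
  ∑ ν ∈ P.box, coef ν * (wp c₁.τ c₁.s t ^ ν.1 * wp c₂.τ c₂.s w ^ ν.2.1 *
    (xx c₁ c₂ P 0 t w ^ ν.2.2.1 * xx c₁ c₂ P 1 t w ^ ν.2.2.2.1 * xx c₁ c₂ P 2 t w ^ ν.2.2.2.2))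

/-- mixed partial derivatives -/
def dd (r s : ℕ) (G : ℂ → ℂ → ℂ) (t w : ℂ) : ℂ :=
  iteratedDeriv r (fun t' => iteratedDeriv s (G t') w) t

/-- joint analyticity at a point -/
def An2 (G : ℂ → ℂ → ℂ) (t w : ℂ) : Prop := AnalyticAt ℂ (fun p : ℂ × ℂ => G p.1 p.2) (t, w)

/-- Taylor coefficients along the diagonal: `G(t, t + z) = ∑ gm G m t z^m` -/
def gm (G : ℂ → ℂ → ℂ) (m : ℕ) (t : ℂ) : ℂ := iteratedDeriv m (G t) t / (m.factorial : ℂ)

/-- the length of an integer polynomial -/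
def len (p : Polynomial ℤ) : ℝ := ∑ i ∈ p.support, |((p.coeff i : ℤ) : ℝ)|

/-- the length of an integer polynomial in several variables -/
def mlen {σ : Type*} (p : MvPolynomial σ ℤ) : ℝ := ∑ m ∈ p.support, |((p.coeff m : ℤ) : ℝ)|

/-- bounds for the two partial degrees and the length -/
structure Bd {r s : ℕ} (D l : ℕ) (H : ℝ) (p : MvPolynomial (Fin r ⊕ Fin s) ℤ) : Prop where
  dA : ∀ m ∈ p.support, ∑ i, m (Sum.inl i) ≤ D
  dB : ∀ m ∈ p.support, ∑ j, m (Sum.inr j) ≤ l
  h : mlen p ≤ H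

end Pool.Agent.MSP
end

end

section

/-! # U/Z1_CD: derivations on coefficients -/

open MvPolynomial

noncomputable section

namespace Pool.Agent.MSU

variable {M : Type} [Field M] [Algebra ℂ M]

/-- Z1a. PROOF. `coeff_sum`, `coeff_monomial`, `Finset.sum_ite_eq`; outside the support `coeff = 0` and `δ 0 = 0`. -/
theorem coeff_cD (δ : Derivation ℂ M M) (P : Po M) (m : Fin 2 →₀ ℕ) : (cD δ P).coeff m = δ (P.coeff m) := by
  classical
  unfold cD
  rw [coeff_sum]
  simp only [coeff_monomial]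
  rw [Finset.sum_ite_eq']
  split_ifs with h
  · rfl
  · rw [notMem_support_iff.1 h, map_zero]

/-- Z1b. PROOF. `coeff_cD`, `ext`. -/
theorem cD_add (δ : Derivation ℂ M M) (P Q : Po M) : cD δ (P + Q) = cD δ P + cD δ Q := by
  ext m
  rw [coeff_add, coeff_cD, coeff_cD, coeff_cD, coeff_add, map_add]

theorem cD_sub (δ : Derivation ℂ M M) (P Q : Po M) : cD δ (P - Q) = cD δ P - cD δ Q := by
  ext m
  rw [coeff_sub, coeff_cD, coeff_cD, coeff_cD, coeff_sub, map_sub]

theorem cD_zero (δ : Derivation ℂ M M) : cD δ (0 : Po M) = 0 := by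
  ext m
  rw [coeff_cD, coeff_zero, map_zero]

/-- Z1c. Leibniz with a complex polynomial. PROOF. `coeff_mul` (sum over the antidiagonal), `δ (a * algebraMap b) = δ a * algebraMap b` (`Derivation.leibniz`, `Derivation.map_algebraMap`). -/
theorem cD_mul_ofC (δ : Derivation ℂ M M) (P : Po M) (g : Po ℂ) : cD δ (P * ofC g) = cD δ P * ofC g := by
  classical
  ext m
  rw [coeff_cD, coeff_mul, coeff_mul, map_sum]
  apply Finset.sum_congr rfl
  intro x _
  rw [coeff_cD]
  unfold ofC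
  rw [coeff_map, Derivation.leibniz, Derivation.map_algebraMap, smul_zero, zero_add, smul_eq_mul,
    mul_comm]

/-- Z1d. -/
theorem cD_ofC (δ : Derivation ℂ M M) (g : Po ℂ) : cD δ (ofC g) = 0 := by
  ext m
  rw [coeff_cD, coeff_zero]
  unfold ofC
  rw [coeff_map, Derivation.map_algebraMap]

theorem za01_support (δ : Derivation ℂ M M) (P : Po M) : (cD δ P).support ⊆ P.support := by
  intro m hm
  rw [mem_support_iff] at hm ⊢
  intro h
  rw [coeff_cD, h, map_zero] at hm
  exact hm rfl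

/-- Z1e. PROOF. The support of `cD δ P` is contained in the support of `P`. -/
theorem cD_totalDegree (δ : Derivation ℂ M M) (P : Po M) : (cD δ P).totalDegree ≤ P.totalDegree := by
  unfold totalDegree
  exact Finset.sup_mono (za01_support δ P)

theorem cD_support (δ : Derivation ℂ M M) (P : Po M) : (cD δ P).support ⊆ P.support :=
  za01_support δ P

/-- Z1f. PROOF. `coeff_homogeneousComponent` on both sides. -/
theorem cD_hc (δ : Derivation ℂ M M) (n : ℕ) (P : Po M) : homogeneousComponent n (cD δ P) = cD δ (homogeneousComponent n P) := by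
  ext m
  rw [coeff_homogeneousComponent, coeff_cD, coeff_cD, coeff_homogeneousComponent]
  split_ifs
  · rfl
  · rw [map_zero]

/-- Z1g. -/
theorem cD_homog (δ : Derivation ℂ M M) (n : ℕ) (P : Po M) (h : P.IsHomogeneous n) : (cD δ P).IsHomogeneous n := by
  intro d hd
  apply h
  intro h0
  rw [coeff_cD, h0, map_zero] at hd
  exact hd rfl

/-- Z1h. PROOF. Partial derivatives: `coeff_pderiv` and `δ` is `ℕ`-linear. -/
theorem cD_pderiv (δ : Derivation ℂ M M) (i : Fin 2) (P : Po M) : cD δ (pderiv i P) = pderiv i (cD δ P) := by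
  ext m
  rw [coeff_cD, coeff_pderiv, coeff_pderiv, coeff_cD, Derivation.leibniz]
  have h : δ ((m i : M) + 1) = 0 := by
    rw [map_add, Derivation.map_natCast, Derivation.map_one_eq_zero, add_zero]
  rw [h, smul_zero, zero_add, smul_eq_mul, mul_comm]

theorem za01_deg (m : Fin 2 →₀ ℕ) (i : Fin 2) : (m + Finsupp.single i 1).degree = m.degree + 1 := by
  rw [map_add, Finsupp.degree_single]

/-- Z1i. the partial derivative of a form. -/
theorem hc_pderiv (n : ℕ) (i : Fin 2) (P : Po M) : homogeneousComponent n (pderiv i P) = pderiv i (homogeneousComponent (n + 1) P) := by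
  ext m
  rw [coeff_homogeneousComponent, coeff_pderiv, coeff_pderiv, coeff_homogeneousComponent, za01_deg]
  by_cases h : m.degree = n
  · rw [if_pos h, if_pos (by omega)]
  · rw [if_neg h, if_neg (by omega), zero_mul]

/-- Z1j. PROOF. `X i * P` shifts the degrees by one. -/
theorem hc_X_mul (n : ℕ) (i : Fin 2) (P : Po M) : homogeneousComponent (n + 1) (X i * P) = X i * homogeneousComponent n P := by
  classical
  ext m
  rw [coeff_homogeneousComponent, coeff_X_mul', coeff_X_mul', coeff_homogeneousComponent]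
  by_cases hi : i ∈ m.support
  · rw [if_pos hi, if_pos hi]
    have h1 : m - Finsupp.single i 1 + Finsupp.single i 1 = m := by
      apply tsub_add_cancel_of_le
      rw [Finsupp.single_le_iff]
      exact Nat.one_le_iff_ne_zero.2 (Finsupp.mem_support_iff.1 hi)
    have h2 : m.degree = (m - Finsupp.single i 1).degree + 1 := by
      rw [← za01_deg, h1]
    by_cases h : m.degree = n + 1
    · rw [if_pos h, if_pos (by omega)]
    · rw [if_neg h, if_neg (by omega)]
  · rw [if_neg hi, if_neg hi, ite_self]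

/-- Z1k. -/
theorem hc_cst_mul (n : ℕ) (a : ℂ) (P : Po M) : homogeneousComponent n (cst a * P) = cst a * homogeneousComponent n P := by
  unfold cst
  exact homogeneousComponent_C_mul _ n _

theorem za01_le {n : ℕ} {P : Po M} : P.totalDegree ≤ n ↔ ∀ d ∈ P.support, d.degree ≤ n := by
  unfold totalDegree
  rw [Finset.sup_le_iff]
  rfl

/-- Z1l. PROOF. `P` is the sum of its homogeneous components of degree `≤ P.totalDegree`. -/
theorem totalDegree_lt_of_hc (n : ℕ) (P : Po M) (h : P.totalDegree ≤ n + 1) (h0 : homogeneousComponent (n + 1) P = 0) : P.totalDegree ≤ n := by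
  rw [za01_le] at h ⊢
  intro d hd
  have h1 := h d hd
  by_contra hc
  have h2 : d.degree = n + 1 := by omega
  have h3 := congrArg (coeff d) h0
  rw [coeff_homogeneousComponent, if_pos h2, coeff_zero] at h3
  exact mem_support_iff.1 hd h3

theorem eq_C_of_totalDegree_zero (P : Po M) (h : P.totalDegree ≤ 0) : P = C (P.coeff 0) :=
  totalDegree_eq_zero_iff_eq_C.1 (Nat.le_zero.1 h)

/-- Z1m. PROOF. `totalDegree_pderiv_le` or directly from the supports. -/
theorem totalDegree_pderiv_lt (n : ℕ) (i : Fin 2) (P : Po M) (h : P.totalDegree ≤ n + 1) : (pderiv i P).totalDegree ≤ n := by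
  rw [za01_le] at h ⊢
  intro d hd
  rw [mem_support_iff, coeff_pderiv] at hd
  have h1 : (d + Finsupp.single i 1) ∈ P.support := by
    rw [mem_support_iff]
    intro h2
    rw [h2, zero_mul] at hd
    exact hd rfl
  have h2 := h _ h1
  rw [za01_deg] at h2
  omega

/-- Z1n. the top component of a product with a form `g` of degree `N`. -/
theorem hc_mul_homog (n N : ℕ) (P g : Po M) (hg : g.IsHomogeneous N) : homogeneousComponent (n + N) (P * g) = homogeneousComponent n P * g := by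
  classical
  have h1 : P * g = ∑ i ∈ Finset.range (P.totalDegree + 1), homogeneousComponent i P * g := by
    rw [← Finset.sum_mul, sum_homogeneousComponent]
  have h2 : ∀ i, homogeneousComponent (n + N) (homogeneousComponent i P * g)
      = if n = i then homogeneousComponent i P * g else 0 := by
    intro i
    have h3 : (homogeneousComponent i P * g) ∈ homogeneousSubmodule (Fin 2) M (i + N) :=
      (homogeneousComponent_isHomogeneous i P).mul hg
    rw [homogeneousComponent_of_mem h3]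
    by_cases h : n = i
    · rw [if_pos h, if_pos (by omega)]
    · rw [if_neg h, if_neg (by omega)]
  rw [h1, map_sum]
  simp only [h2]
  rw [Finset.sum_ite_eq]
  split_ifs with h
  · rfl
  · rw [homogeneousComponent_eq_zero n P (by
      rw [Finset.mem_range] at h
      omega), zero_mul]

end Pool.Agent.MSU
end

end

section

/-!
# MP_f58a57_nt, points with algebraic `j`: the hypotheses
-/

open Complex IntermediateField

noncomputable section

namespace Pool.Agent.MSN

/-- a point `τ` with algebraic `j(τ)` and a scaling factor `Ω`; everything else is algebraic over `ℚ(ϑ)` -/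
structure DD (τ Ω ϑ : ℂ) : Prop where
  im : 0 < τ.im
  ne : Ω ≠ 0
  a4 : IsAlgebraic ℚ (MSD.e4 τ / Ω ^ 4)
  a6 : IsAlgebraic ℚ (MSD.e6 τ / Ω ^ 6)
  aτ : IsAlgebraic ℚ⟮ϑ⟯ τ
  a2 : IsAlgebraic ℚ⟮ϑ⟯ (MSD.e2 τ / Ω ^ 2)
  aΩ : IsAlgebraic ℚ⟮ϑ⟯ (Real.pi * Ω ^ 2)

/-- all the hypotheses on the two curves -/
structure Hyp2 (c₁ c₂ : MSP.Cv) (Ω₁ Ω₂ ϑ : ℂ) : Prop where
  s₁ : c₁.s = MSP.sE c₁.τ
  s₂ : c₂.s = MSP.sE c₂.τ
  h₁ : DD c₁.τ Ω₁ ϑ
  h₂ : DD c₂.τ Ω₂ ϑ
  tr : Transcendental ℚ ϑ

end Pool.Agent.MSN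
end

end

section

/-! # A1: lengths of integer polynomials (MP_f58a57_nt, pairs) -/

open Complex Filter Topology

noncomputable section

namespace Pool.Agent.MSP

/-! ## one variable -/

theorem a1_len_eq (p : Polynomial ℤ) (s : Finset ℕ) (h : p.support ⊆ s) :
    len p = ∑ i ∈ s, |((p.coeff i : ℤ) : ℝ)| := by
  unfold len
  refine Finset.sum_subset h fun i _ hi => ?_
  rw [Polynomial.notMem_support_iff.1 hi]
  simp

theorem len_nonneg (p : Polynomial ℤ) : 0 ≤ len p :=
  Finset.sum_nonneg fun _ _ => abs_nonneg _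

theorem len_zero : len 0 = 0 := by
  simp [len]

theorem a1_len_monomial (n : ℕ) (a : ℤ) : len (Polynomial.monomial n a) = |(a : ℝ)| := by
  rw [a1_len_eq _ {n} (Polynomial.support_monomial_subset n a), Finset.sum_singleton, Polynomial.coeff_monomial_same]

theorem len_C (a : ℤ) : len (Polynomial.C a) = |(a : ℝ)| := by
  rw [← Polynomial.monomial_zero_left, a1_len_monomial]

theorem abs_coeff_le_len (p : Polynomial ℤ) (i : ℕ) : |((p.coeff i : ℤ) : ℝ)| ≤ len p := by
  by_cases hi : i ∈ p.support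
  · exact Finset.single_le_sum (f := fun i => |((p.coeff i : ℤ) : ℝ)|) (fun _ _ => abs_nonneg _) hi
  · rw [Polynomial.notMem_support_iff.1 hi]
    simpa using len_nonneg p

theorem one_le_len (p : Polynomial ℤ) (hp : p ≠ 0) : 1 ≤ len p := by
  refine le_trans ?_ (abs_coeff_le_len p p.natDegree)
  have h : p.coeff p.natDegree ≠ 0 := by
    rw [Polynomial.coeff_natDegree]
    exact Polynomial.leadingCoeff_ne_zero.2 hp
  have h2 : 1 ≤ |p.coeff p.natDegree| := Int.one_le_abs h
  exact_mod_cast h2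

theorem len_neg (p : Polynomial ℤ) : len (-p) = len p := by
  simp [len]

theorem len_add (p q : Polynomial ℤ) : len (p + q) ≤ len p + len q := by
  rw [a1_len_eq (p + q) (p.support ∪ q.support) Polynomial.support_add,
    a1_len_eq p (p.support ∪ q.support) Finset.subset_union_left,
    a1_len_eq q (p.support ∪ q.support) Finset.subset_union_right, ← Finset.sum_add_distrib]
  refine Finset.sum_le_sum fun i _ => ?_
  rw [Polynomial.coeff_add]
  push_cast
  exact abs_add_le _ _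

theorem len_sum {ι : Type*} (s : Finset ι) (p : ι → Polynomial ℤ) : len (∑ i ∈ s, p i) ≤ ∑ i ∈ s, len (p i) := by
  classical
  induction s using Finset.induction_on with
  | empty => simp [len_zero]
  | insert a s ha ih =>
    rw [Finset.sum_insert ha, Finset.sum_insert ha]
    exact (len_add _ _).trans (by linarith)

theorem len_mul (p q : Polynomial ℤ) : len (p * q) ≤ len p * len q := by
  rw [Polynomial.mul_eq_sum_sum]
  refine (len_sum _ _).trans ?_
  have h : len p * len q = ∑ i ∈ p.support, |((p.coeff i : ℤ) : ℝ)| * len q := by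
    rw [← Finset.sum_mul]
    rfl
  rw [h]
  refine Finset.sum_le_sum fun i _ => ?_
  rw [Polynomial.sum]
  refine (len_sum _ _).trans ?_
  have h2 : |((p.coeff i : ℤ) : ℝ)| * len q = ∑ j ∈ q.support, |((p.coeff i : ℤ) : ℝ)| * |((q.coeff j : ℤ) : ℝ)| := by
    rw [← Finset.mul_sum]
    rfl
  rw [h2]
  refine Finset.sum_le_sum fun j _ => ?_
  rw [a1_len_monomial]
  push_cast
  rw [abs_mul]

theorem len_prod {ι : Type*} (s : Finset ι) (p : ι → Polynomial ℤ) : len (∏ i ∈ s, p i) ≤ ∏ i ∈ s, len (p i) := by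
  classical
  induction s using Finset.induction_on with
  | empty =>
    rw [Finset.prod_empty, Finset.prod_empty, ← Polynomial.C_1, len_C]
    simp
  | insert a s ha ih =>
    rw [Finset.prod_insert ha, Finset.prod_insert ha]
    exact (len_mul _ _).trans (mul_le_mul_of_nonneg_left ih (len_nonneg _))

/-- if all coefficients are at most `B` in absolute value -/
theorem len_le_of_coeff (p : Polynomial ℤ) (B : ℝ) (h : ∀ i, |((p.coeff i : ℤ) : ℝ)| ≤ B) :
    len p ≤ (p.natDegree + 1) * B := by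
  rw [a1_len_eq p (Finset.range (p.natDegree + 1)) Polynomial.supp_subset_range_natDegree_succ]
  refine (Finset.sum_le_card_nsmul _ _ B fun i _ => h i).trans ?_
  rw [Finset.card_range, nsmul_eq_mul]
  push_cast
  exact le_refl _

theorem norm_aeval_le (ϑ : ℂ) (p : Polynomial ℤ) : ‖Polynomial.aeval ϑ p‖ ≤ len p * (max 1 ‖ϑ‖) ^ p.natDegree := by
  rw [Polynomial.aeval_def, Polynomial.eval₂_eq_sum, Polynomial.sum]
  refine (norm_sum_le _ _).trans ?_
  unfold len
  rw [Finset.sum_mul]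
  refine Finset.sum_le_sum fun i hi => ?_
  rw [norm_mul, norm_pow]
  have h1 : ‖(algebraMap ℤ ℂ) (p.coeff i)‖ = |((p.coeff i : ℤ) : ℝ)| := by
    simp
  rw [h1]
  refine mul_le_mul_of_nonneg_left ?_ (abs_nonneg _)
  calc ‖ϑ‖ ^ i ≤ (max 1 ‖ϑ‖) ^ i := pow_le_pow_left₀ (norm_nonneg _) (le_max_right _ _) i
    _ ≤ (max 1 ‖ϑ‖) ^ p.natDegree := pow_le_pow_right₀ (le_max_left _ _) (Polynomial.le_natDegree_of_mem_supp i hi)

/-- PROOF. Leibniz formula: `N!` products of `N` entries. -/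
theorem det_bounds {N : ℕ} (M : Matrix (Fin N) (Fin N) (Polynomial ℤ)) (e : ℕ) (B : ℝ)
    (hd : ∀ i j, (M i j).natDegree ≤ e) (hB : ∀ i j, len (M i j) ≤ B) :
    (M.det).natDegree ≤ N * e ∧ len M.det ≤ (N.factorial : ℝ) * B ^ N := by
  have hsgn : ∀ (σ : Equiv.Perm (Fin N)) (q : Polynomial ℤ), Equiv.Perm.sign σ • q = q ∨
      Equiv.Perm.sign σ • q = -q := by
    intro σ q
    rcases Int.units_eq_one_or (Equiv.Perm.sign σ) with h | h
    · left; rw [h, one_smul]
    · right; rw [h]; simp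
  constructor
  · rw [Matrix.det_apply]
    refine Polynomial.natDegree_sum_le_of_forall_le _ _ fun σ _ => ?_
    have h1 : (∏ i, M (σ i) i).natDegree ≤ N * e := by
      refine (Polynomial.natDegree_prod_le _ _).trans ?_
      refine (Finset.sum_le_card_nsmul _ _ e fun i _ => hd _ _).trans ?_
      simp
    rcases hsgn σ (∏ i, M (σ i) i) with h | h
    · rw [h]; exact h1
    · rw [h, Polynomial.natDegree_neg]; exact h1
  · rw [Matrix.det_apply]
    refine (len_sum _ _).trans ?_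
    have h1 : ∀ σ ∈ (Finset.univ : Finset (Equiv.Perm (Fin N))),
        len (Equiv.Perm.sign σ • ∏ i, M (σ i) i) ≤ B ^ N := by
      intro σ _
      have h2 : len (Equiv.Perm.sign σ • ∏ i, M (σ i) i) = len (∏ i, M (σ i) i) := by
        rcases hsgn σ (∏ i, M (σ i) i) with h | h
        · rw [h]
        · rw [h, len_neg]
      rw [h2]
      refine (len_prod _ _).trans ?_
      calc ∏ i : Fin N, len (M (σ i) i) ≤ ∏ _i : Fin N, B :=
            Finset.prod_le_prod (fun i _ => len_nonneg _) fun i _ => hB _ _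
        _ = B ^ N := by simp
    refine (Finset.sum_le_card_nsmul _ _ _ h1).trans ?_
    rw [Finset.card_univ, Fintype.card_perm, Fintype.card_fin, nsmul_eq_mul]

/-! ## several variables -/

variable {σ : Type*}

theorem a1_mlen_eq (p : MvPolynomial σ ℤ) (s : Finset (σ →₀ ℕ)) (h : p.support ⊆ s) :
    mlen p = ∑ m ∈ s, |((p.coeff m : ℤ) : ℝ)| := by
  unfold mlen
  refine Finset.sum_subset h fun i _ hi => ?_
  rw [MvPolynomial.notMem_support_iff.1 hi]
  simp

theorem mlen_nonneg (p : MvPolynomial σ ℤ) : 0 ≤ mlen p :=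
  Finset.sum_nonneg fun _ _ => abs_nonneg _

theorem mlen_zero : mlen (0 : MvPolynomial σ ℤ) = 0 := by
  simp [mlen]

theorem mlen_monomial (m : σ →₀ ℕ) (a : ℤ) : mlen (MvPolynomial.monomial m a) = |(a : ℝ)| := by
  classical
  rw [a1_mlen_eq _ {m} MvPolynomial.support_monomial_subset, Finset.sum_singleton, MvPolynomial.coeff_monomial,
    if_pos rfl]

theorem mlen_C (a : ℤ) : mlen (MvPolynomial.C a : MvPolynomial σ ℤ) = |(a : ℝ)| := by
  rw [← MvPolynomial.monomial_zero', mlen_monomial]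

theorem mlen_add (p q : MvPolynomial σ ℤ) : mlen (p + q) ≤ mlen p + mlen q := by
  classical
  rw [a1_mlen_eq (p + q) (p.support ∪ q.support) MvPolynomial.support_add,
    a1_mlen_eq p (p.support ∪ q.support) Finset.subset_union_left,
    a1_mlen_eq q (p.support ∪ q.support) Finset.subset_union_right, ← Finset.sum_add_distrib]
  refine Finset.sum_le_sum fun i _ => ?_
  rw [MvPolynomial.coeff_add]
  push_cast
  exact abs_add_le _ _

theorem mlen_sum {ι : Type*} (s : Finset ι) (p : ι → MvPolynomial σ ℤ) :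
    mlen (∑ i ∈ s, p i) ≤ ∑ i ∈ s, mlen (p i) := by
  classical
  induction s using Finset.induction_on with
  | empty => simp [mlen_zero]
  | insert a s ha ih =>
    rw [Finset.sum_insert ha, Finset.sum_insert ha]
    exact (mlen_add _ _).trans (by linarith)

theorem mlen_mul (p q : MvPolynomial σ ℤ) : mlen (p * q) ≤ mlen p * mlen q := by
  have e : p * q = ∑ m ∈ p.support, ∑ n ∈ q.support, MvPolynomial.monomial (m + n) (p.coeff m * q.coeff n) := by
    conv_lhs => rw [p.as_sum, q.as_sum, Finset.sum_mul_sum]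
    refine Finset.sum_congr rfl fun m _ => Finset.sum_congr rfl fun n _ => ?_
    rw [MvPolynomial.monomial_mul]
  rw [e]
  refine (mlen_sum _ _).trans ?_
  have h : mlen p * mlen q = ∑ i ∈ p.support, ∑ j ∈ q.support, |((p.coeff i : ℤ) : ℝ)| * |((q.coeff j : ℤ) : ℝ)| := by
    unfold mlen
    rw [Finset.sum_mul_sum]
  rw [h]
  refine Finset.sum_le_sum fun i _ => ?_
  refine (mlen_sum _ _).trans ?_
  refine Finset.sum_le_sum fun j _ => ?_
  rw [mlen_monomial]
  push_cast
  rw [abs_mul]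

end Pool.Agent.MSP
end

end

section

/-! # K2: the resultant of two coprime integer polynomials (MP_f58a57_nt, pairs; Gelfond's criterion) -/

open Complex Filter Topology Polynomial Matrix

noncomputable section

namespace Pool.Agent.MSP

/-- K2a. A determinant is at most the product of the `ℓ¹` norms of the rows. PROOF. `Matrix.det_apply`, triangle inequality, and
`∑_σ ∏_i |M_{σ i, i}| ≤ ∏_i ∑_j |M_{i,j}|` (`Finset.prod_univ_sum`: the permutations are among all functions; transpose if necessary). -/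
theorem norm_det_le {N : ℕ} (M : Matrix (Fin N) (Fin N) ℂ) : ‖M.det‖ ≤ ∏ i, ∑ j, ‖M i j‖ := by
  classical
  rw [← Matrix.det_transpose, Matrix.det_apply]
  have h1 : ‖∑ σ : Equiv.Perm (Fin N), Equiv.Perm.sign σ • ∏ i, Mᵀ (σ i) i‖ ≤
      ∑ σ : Equiv.Perm (Fin N), ∏ i, ‖M i (σ i)‖ := by
    refine (norm_sum_le _ _).trans (Finset.sum_le_sum fun σ _ => ?_)
    have h2 : ‖Equiv.Perm.sign σ • ∏ i, Mᵀ (σ i) i‖ = ‖∏ i, M i (σ i)‖ := by
      rcases Int.units_eq_one_or (Equiv.Perm.sign σ) with h | h <;> rw [h] <;>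
        simp [Matrix.transpose_apply]
    rw [h2, norm_prod]
  refine h1.trans ?_
  rw [Finset.prod_univ_sum]
  have h3 : ∑ σ : Equiv.Perm (Fin N), ∏ i, ‖M i (σ i)‖ =
      ∑ φ ∈ Finset.univ.map ⟨fun σ : Equiv.Perm (Fin N) => (σ : Fin N → Fin N), DFunLike.coe_injective⟩,
        ∏ i, ‖M i (φ i)‖ := by
    rw [Finset.sum_map]
    rfl
  rw [h3]
  refine Finset.sum_le_sum_of_subset_of_nonneg (fun φ _ => ?_) fun φ _ _ =>
    Finset.prod_nonneg fun i _ => norm_nonneg _
  simp [Fintype.mem_piFinset]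

theorem k2_sum {M : Type*} [AddCommMonoid M] (N j d : ℕ) (h : j + d < N) (a : ℕ → M) :
    ∑ i : Fin N, (if (i : ℕ) ∈ Set.Icc j (j + d) then a (i - j) else 0) =
      ∑ t ∈ Finset.range (d + 1), a t := by
  classical
  rw [Fin.sum_univ_eq_sum_range (fun i => if i ∈ Set.Icc j (j + d) then a (i - j) else 0) N,
    ← Finset.sum_filter]
  have h1 : (Finset.range N).filter (fun i => i ∈ Set.Icc j (j + d)) = Finset.Ico j (j + d + 1) := by
    ext i
    simp only [Finset.mem_filter, Finset.mem_range, Set.mem_Icc, Finset.mem_Ico]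
    omega
  rw [h1, Finset.sum_Ico_eq_sum_range]
  have h2 : j + d + 1 - j = d + 1 := by omega
  rw [h2]
  refine Finset.sum_congr rfl fun t _ => ?_
  congr 1
  omega

theorem k2_len_eq (p : Polynomial ℤ) :
    ∑ t ∈ Finset.range (p.natDegree + 1), ‖((p.coeff t : ℤ) : ℂ)‖ = len p := by
  unfold len
  simp only [Complex.norm_intCast]
  symm
  refine Finset.sum_subset (fun i hi => ?_) fun i _ hi => ?_
  · rw [Finset.mem_range]
    have := Polynomial.le_natDegree_of_mem_supp i hi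
    omega
  · rw [Polynomial.notMem_support_iff.1 hi]
    simp

theorem k2_one_le_len (p : Polynomial ℤ) (hp : p ≠ 0) : 1 ≤ len p := by
  unfold len
  have h1 : p.natDegree ∈ p.support := Polynomial.natDegree_mem_support_of_nonzero hp
  have h2 : |((p.coeff p.natDegree : ℤ) : ℝ)| ≤ ∑ i ∈ p.support, |((p.coeff i : ℤ) : ℝ)| :=
    Finset.single_le_sum (f := fun i => |((p.coeff i : ℤ) : ℝ)|) (fun i _ => abs_nonneg _) h1
  refine le_trans ?_ h2
  have h3 : p.coeff p.natDegree ≠ 0 := by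
    rw [Polynomial.coeff_natDegree]
    exact Polynomial.leadingCoeff_ne_zero.2 hp
  have h4 : 1 ≤ |p.coeff p.natDegree| := Int.one_le_abs h3
  rw [← Int.cast_abs]
  exact_mod_cast h4

theorem k2_res_ne_zero (f g : Polynomial ℤ) (hf : Irreducible f) (hg : Irreducible g)
    (hfg : ¬ Associated f g) (df : 1 ≤ f.natDegree) (dg : 1 ≤ g.natDegree) :
    resultant f g f.natDegree g.natDegree ≠ 0 := by
  intro h0
  have pf : f.IsPrimitive := hf.isPrimitive (by omega)
  have pg : g.IsPrimitive := hg.isPrimitive (by omega)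
  have hf' : Irreducible (f.map (Int.castRingHom ℚ)) :=
    (Polynomial.IsPrimitive.Int.irreducible_iff_irreducible_map_cast pf).1 hf
  have hcop : IsCoprime (f.map (Int.castRingHom ℚ)) (g.map (Int.castRingHom ℚ)) := by
    rw [hf'.coprime_iff_not_dvd]
    intro hd
    have h1 : f ∣ g := (Polynomial.IsPrimitive.Int.dvd_iff_map_cast_dvd_map_cast f g pf).2 hd
    exact hfg (hf.associated_of_dvd hg h1)
  have hinj : Function.Injective (Int.castRingHom ℚ) := Int.cast_injective
  have hr := Polynomial.resultant_ne_zero _ _ hcop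
  apply hr
  rw [Polynomial.natDegree_map_eq_of_injective hinj, Polynomial.natDegree_map_eq_of_injective hinj,
    Polynomial.resultant_map_map, h0, map_zero]

/-- K2b. PROOF. Let `m = deg f`, `n = deg g`, `S` the Sylvester matrix of `f, g` (Mathlib `Polynomial.sylvester`, `Polynomial.resultant`, up to
transposition), `Res = det S`. `Res ≠ 0`: `f, g` are irreducible of positive degree and not associated in `ℤ[X]`, so coprime in `ℚ[X]` (Gauss), and
`Polynomial.resultant_ne_zero`/`resultant_eq_zero_iff` or similar over `ℚ` (`resultant_map_map`). It is an integer: `|Res| ≥ 1`. Over `ℂ`, if the rows of `S` are the coefficient vectors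
of `X^i f` (`i < n`) and `X^j g` (`j < m`) (transpose if necessary) and `v = (ϑ^k)_k`, then `(S v)` has the entries `ϑ^i f(ϑ)`, `ϑ^j g(ϑ)`, and
`det S · v_0 = (adj(S) S v)_0 = ∑_j adj(S)_{0j} (S v)_j` (`Matrix.adjugate_mul`), `v_0 = 1`. `adj(S)_{0j} = det (S.updateRow j (Pi.single 0 1))`
(`Matrix.adjugate_apply`), so by K2a `|adj(S)_{0j}| ≤ ∏_{rows ≠ j} (ℓ¹ norm) ≤ len f ^ n * len g ^ m` (the `ℓ¹` norm of a row is `len f` for `n` rows and `len g`
for `m` rows, and `len f, len g ≥ 1`). The bound is crude, any proof of it will do. -/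
theorem res_bound (f g : Polynomial ℤ) (hf : Irreducible f) (hg : Irreducible g) (hfg : ¬ Associated f g)
    (df : 1 ≤ f.natDegree) (dg : 1 ≤ g.natDegree) (ϑ : ℂ) :
    1 ≤ ((f.natDegree : ℝ) + g.natDegree) * (max 1 ‖ϑ‖) ^ (f.natDegree + g.natDegree) *
      (len f ^ g.natDegree * len g ^ f.natDegree) * max ‖aeval ϑ f‖ ‖aeval ϑ g‖ := by
  classical
  set m : ℕ := f.natDegree with hm
  set n : ℕ := g.natDegree with hn
  set S : Matrix (Fin (m + n)) (Fin (m + n)) ℤ := sylvester f g m n with hS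
  set A : Matrix (Fin (m + n)) (Fin (m + n)) ℂ := ((Int.castRingHom ℂ).mapMatrix S)ᵀ with hA
  have hAdet : A.det = ((S.det : ℤ) : ℂ) := by
    rw [hA, Matrix.det_transpose, ← RingHom.map_det]
    simp
  have hSdet : S.det ≠ 0 := k2_res_ne_zero f g hf hg hfg df dg
  have hdet1 : 1 ≤ ‖A.det‖ := by
    rw [hAdet, Complex.norm_intCast, ← Int.cast_abs]
    exact_mod_cast Int.one_le_abs hSdet
  have hlf : 1 ≤ len f := k2_one_le_len f hf.ne_zero
  have hlg : 1 ≤ len g := k2_one_le_len g hg.ne_zero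
  let r : Fin (m + n) → ℝ := fun i => Fin.addCases (fun _ => len g) (fun _ => len f) i
  have hr1 : ∀ i, 1 ≤ r i := by
    intro i
    refine Fin.addCases (fun i => ?_) (fun i => ?_) i
    · simp only [r, Fin.addCases_left]; exact hlg
    · simp only [r, Fin.addCases_right]; exact hlf
  have hrow : ∀ i, ∑ j, ‖A i j‖ = r i := by
    intro i
    refine Fin.addCases (fun i => ?_) (fun i => ?_) i
    · simp only [r, Fin.addCases_left]
      rw [← k2_len_eq g, ← k2_sum (m + n) i n (by have := i.2; omega)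
        (fun t => ‖((g.coeff t : ℤ) : ℂ)‖)]
      refine Finset.sum_congr rfl fun j _ => ?_
      simp only [hA, hS, Matrix.transpose_apply, RingHom.mapMatrix_apply, Matrix.map_apply,
        sylvester, Matrix.of_apply, Fin.addCases_left]
      split_ifs <;> simp
    · simp only [r, Fin.addCases_right]
      rw [← k2_len_eq f, ← k2_sum (m + n) i m (by have := i.2; omega)
        (fun t => ‖((f.coeff t : ℤ) : ℂ)‖)]
      refine Finset.sum_congr rfl fun j _ => ?_
      simp only [hA, hS, Matrix.transpose_apply, RingHom.mapMatrix_apply, Matrix.map_apply,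
        sylvester, Matrix.of_apply, Fin.addCases_right]
      split_ifs <;> simp
  have hprod : ∏ i, r i = len g ^ m * len f ^ n := by
    rw [Fin.prod_univ_add]
    simp only [r, Fin.addCases_left, Fin.addCases_right, Finset.prod_const, Finset.card_univ,
      Fintype.card_fin]
  -- the vector of the powers
  let v : Fin (m + n) → ℂ := fun i => ϑ ^ (i : ℕ)
  set Θ : ℝ := max 1 ‖ϑ‖ with hΘ
  have hΘ1 : 1 ≤ Θ := le_max_left _ _
  have hpow : ∀ i : ℕ, i ≤ m + n → ‖ϑ‖ ^ i ≤ Θ ^ (m + n) := by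
    intro i hi
    calc ‖ϑ‖ ^ i ≤ Θ ^ i := pow_le_pow_left₀ (norm_nonneg _) (le_max_right _ _) _
      _ ≤ Θ ^ (m + n) := pow_le_pow_right₀ hΘ1 hi
  have hev : ∀ (q : Polynomial ℤ) (j : ℕ), ∑ t ∈ Finset.range (q.natDegree + 1),
      ((q.coeff t : ℤ) : ℂ) * ϑ ^ (t + j) = ϑ ^ j * aeval ϑ q := by
    intro q j
    rw [Polynomial.aeval_eq_sum_range, Finset.mul_sum]
    refine Finset.sum_congr rfl fun t _ => ?_
    rw [zsmul_eq_mul]
    ring
  have hAv : ∀ i, ‖(A.mulVec v) i‖ ≤ Θ ^ (m + n) * max ‖aeval ϑ f‖ ‖aeval ϑ g‖ := by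
    intro i
    refine Fin.addCases (fun i => ?_) (fun i => ?_) i
    · have h1 : (A.mulVec v) (Fin.castAdd n i) = ϑ ^ (i : ℕ) * aeval ϑ g := by
        rw [← hev g i, ← k2_sum (m + n) i n (by have := i.2; omega)
          (fun t => ((g.coeff t : ℤ) : ℂ) * ϑ ^ (t + (i : ℕ)))]
        simp only [Matrix.mulVec, dotProduct]
        refine Finset.sum_congr rfl fun j _ => ?_
        simp only [hA, hS, Matrix.transpose_apply, RingHom.mapMatrix_apply, Matrix.map_apply,
          sylvester, Matrix.of_apply, Fin.addCases_left, v]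
        split_ifs with hij
        · rw [Set.mem_Icc] at hij
          rw [Nat.sub_add_cancel hij.1]
          simp
        · simp
      rw [h1, norm_mul, norm_pow]
      exact mul_le_mul (hpow _ (by have := i.2; omega)) (le_max_right _ _) (norm_nonneg _)
        (by positivity)
    · have h1 : (A.mulVec v) (Fin.natAdd m i) = ϑ ^ (i : ℕ) * aeval ϑ f := by
        rw [← hev f i, ← k2_sum (m + n) i m (by have := i.2; omega)
          (fun t => ((f.coeff t : ℤ) : ℂ) * ϑ ^ (t + (i : ℕ)))]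
        simp only [Matrix.mulVec, dotProduct]
        refine Finset.sum_congr rfl fun j _ => ?_
        simp only [hA, hS, Matrix.transpose_apply, RingHom.mapMatrix_apply, Matrix.map_apply,
          sylvester, Matrix.of_apply, Fin.addCases_right, v]
        split_ifs with hij
        · rw [Set.mem_Icc] at hij
          rw [Nat.sub_add_cancel hij.1]
          simp
        · simp
      rw [h1, norm_mul, norm_pow]
      exact mul_le_mul (hpow _ (by have := i.2; omega)) (le_max_left _ _) (norm_nonneg _)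
        (by positivity)
  have hmn : 0 < m + n := by omega
  let z : Fin (m + n) := ⟨0, hmn⟩
  have hadj : ∀ j, ‖A.adjugate z j‖ ≤ len f ^ n * len g ^ m := by
    intro j
    rw [Matrix.adjugate_apply]
    refine (norm_det_le _).trans ?_
    calc ∏ i, ∑ c, ‖(A.updateRow j (Pi.single z 1)) i c‖ ≤ ∏ i, r i := by
          refine Finset.prod_le_prod (fun i _ => Finset.sum_nonneg fun c _ => norm_nonneg _)
            fun i _ => ?_
          by_cases hij : i = j
          · subst hij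
            rw [Matrix.updateRow_self]
            refine le_trans (le_of_eq ?_) (hr1 i)
            rw [Finset.sum_eq_single z]
            · simp
            · intro c _ hc
              rw [Pi.single_eq_of_ne hc, norm_zero]
            · intro h; exact absurd (Finset.mem_univ _) h
          · rw [Matrix.updateRow_ne hij, hrow]
      _ = len f ^ n * len g ^ m := by rw [hprod, mul_comm]
  have hfinal : A.det = ∑ j, A.adjugate z j * (A.mulVec v) j := by
    have h1 : A.adjugate.mulVec (A.mulVec v) = A.det • v := by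
      rw [Matrix.mulVec_mulVec, Matrix.adjugate_mul, Matrix.smul_mulVec, Matrix.one_mulVec]
    have h2 := congrFun h1 z
    simp only [Pi.smul_apply, smul_eq_mul, v, z, pow_zero, mul_one] at h2
    rw [← h2]
    rfl
  calc (1 : ℝ) ≤ ‖A.det‖ := hdet1
    _ = ‖∑ j, A.adjugate z j * (A.mulVec v) j‖ := by rw [← hfinal]
    _ ≤ ∑ j, ‖A.adjugate z j * (A.mulVec v) j‖ := norm_sum_le _ _
    _ ≤ ∑ _j : Fin (m + n), (len f ^ n * len g ^ m) *
        (Θ ^ (m + n) * max ‖aeval ϑ f‖ ‖aeval ϑ g‖) := by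
      refine Finset.sum_le_sum fun j _ => ?_
      rw [norm_mul]
      exact mul_le_mul (hadj j) (hAv j) (norm_nonneg _) (by positivity)
    _ = ((m : ℝ) + n) * Θ ^ (m + n) * (len f ^ n * len g ^ m) *
        max ‖aeval ϑ f‖ ‖aeval ϑ g‖ := by
      rw [Finset.sum_const, Finset.card_univ, Fintype.card_fin, nsmul_eq_mul]
      push_cast
      ring

end Pool.Agent.MSP
end

end

section

/-! # T1: the theta product converges and is entire (MP_f58a57_nt, pairs) -/

open Complex Filter Topology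

noncomputable section

namespace Pool.Agent.MSP

/-- the deviation of the factor from one -/
def t1_u (τ : ℂ) (n : ℕ) (t : ℂ) : ℂ :=
  (1 - ee ((n + 1) * τ + t)) * (1 - ee ((n + 1) * τ - t)) - 1

theorem t1_norm_ee (x : ℂ) : ‖ee x‖ = Real.exp (-(2 * Real.pi * x.im)) := by
  rw [ee, Complex.norm_exp]
  congr 1
  have : (2 * (Real.pi : ℂ) * I * x) = ((2 * Real.pi : ℝ) : ℂ) * (I * x) := by push_cast; ring
  rw [this, Complex.re_ofReal_mul]
  simp

theorem t1_fact (τ : ℂ) (n : ℕ) (t : ℂ) :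
    (1 - ee ((n + 1) * τ + t)) * (1 - ee ((n + 1) * τ - t)) = 1 + t1_u τ n t := by
  rw [t1_u]; ring

theorem t1_bound {τ : ℂ} (hτ : 0 < τ.im) {R : ℝ} {t : ℂ} (ht : |t.im| ≤ R) (n : ℕ) :
    ‖t1_u τ n t‖ ≤ (3 * Real.exp (2 * (2 * Real.pi * R))) * Real.exp (-(2 * Real.pi * τ.im)) ^ (n + 1) := by
  have hpi := Real.pi_pos
  set r := Real.exp (-(2 * Real.pi * τ.im)) with hr
  set E := Real.exp (2 * Real.pi * R) with hE
  have hR : 0 ≤ R := (abs_nonneg _).trans ht
  have hr0 : 0 < r := Real.exp_pos _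
  have hr1 : r ≤ 1 := by
    rw [hr]
    apply Real.exp_le_one_iff.2
    have : 0 ≤ 2 * Real.pi * τ.im := by positivity
    linarith
  have hE1 : 1 ≤ E := Real.one_le_exp (by positivity)
  have hEE : Real.exp (2 * (2 * Real.pi * R)) = E ^ 2 := by
    rw [hE, ← Real.exp_nat_mul]
    congr 1
  have key : ∀ s : ℂ, |s.im| ≤ R → ‖ee ((n + 1) * τ + s)‖ ≤ r ^ (n + 1) * E := by
    intro s hs
    rw [t1_norm_ee, hr, hE, ← Real.exp_nat_mul, ← Real.exp_add]
    apply Real.exp_le_exp.2
    have h1 : (((n : ℂ) + 1) * τ + s).im = (n + 1) * τ.im + s.im := by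
      simp
    rw [h1]
    have h2 := neg_abs_le s.im
    push_cast
    nlinarith
  have h1 := key t ht
  have h2 : ‖ee ((n + 1) * τ - t)‖ ≤ r ^ (n + 1) * E := by
    rw [sub_eq_add_neg]
    exact key (-t) (by simpa using ht)
  have h3 : t1_u τ n t = -ee ((n + 1) * τ + t) + (-ee ((n + 1) * τ - t)) +
      ee ((n + 1) * τ + t) * ee ((n + 1) * τ - t) := by
    rw [t1_u]; ring
  have hp0 : 0 ≤ r ^ (n + 1) := by positivity
  have hp1 : r ^ (n + 1) ≤ 1 := pow_le_one₀ hr0.le hr1
  rw [h3, hEE]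
  refine (norm_add₃_le).trans ?_
  rw [norm_neg, norm_neg, norm_mul]
  have h4 : ‖ee ((n + 1) * τ + t)‖ * ‖ee ((n + 1) * τ - t)‖ ≤ (r ^ (n + 1) * E) * (r ^ (n + 1) * E) :=
    mul_le_mul h1 h2 (norm_nonneg _) (by positivity)
  have h5 : (r ^ (n + 1) * E) * (r ^ (n + 1) * E) ≤ r ^ (n + 1) * E ^ 2 := by
    have : (r ^ (n + 1) * E) * (r ^ (n + 1) * E) = r ^ (n + 1) * (r ^ (n + 1) * E ^ 2) := by ring
    rw [this]
    apply mul_le_mul_of_nonneg_left _ hp0
    have hE2 : 0 ≤ E ^ 2 := by positivity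
    nlinarith
  have h6 : r ^ (n + 1) * E ≤ r ^ (n + 1) * E ^ 2 := by
    apply mul_le_mul_of_nonneg_left _ hp0
    nlinarith
  linarith

theorem t1_summable_geom {τ : ℂ} (hτ : 0 < τ.im) (C : ℝ) :
    Summable fun n : ℕ => C * Real.exp (-(2 * Real.pi * τ.im)) ^ (n + 1) := by
  have hpi := Real.pi_pos
  have hr1 : Real.exp (-(2 * Real.pi * τ.im)) < 1 := by
    rw [Real.exp_lt_one_iff]
    have : 0 < 2 * Real.pi * τ.im := by positivity
    linarith
  exact (((summable_nat_add_iff 1).2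
    (summable_geometric_of_lt_one (Real.exp_pos _).le hr1))).mul_left C

theorem t1_summable {τ : ℂ} (hτ : 0 < τ.im) (t : ℂ) : Summable fun n : ℕ => ‖t1_u τ n t‖ :=
  Summable.of_nonneg_of_le (fun _ => norm_nonneg _) (fun n => t1_bound hτ le_rfl n)
    (t1_summable_geom hτ _)

/-- T1a. PROOF. The factors are `1 + u_n` with `|u_n| ≤ C |p|^{n+1}`, `|p| = |ee τ| < 1` (for fixed `t`), so summable;
`multipliable_one_add_of_summable` or the like. -/
theorem thp_multipliable (τ : ℂ) (hτ : 0 < τ.im) (t : ℂ) :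
    Multipliable (fun n : ℕ => (1 - ee ((n + 1) * τ + t)) * (1 - ee ((n + 1) * τ - t))) := by
  simp_rw [t1_fact]
  exact Complex.multipliable_one_add_of_summable (t1_summable hτ t).of_norm

/-- T1b. The product of nonzero factors is nonzero. PROOF. `tprod_one_add_ne_zero_of_summable` (see the proof of
`ModularForm.eta_tprod_ne_zero` in Mathlib). -/
theorem thp_ne_zero (τ : ℂ) (hτ : 0 < τ.im) (t : ℂ)
    (h : ∀ n : ℕ, ee ((n + 1) * τ + t) ≠ 1 ∧ ee ((n + 1) * τ - t) ≠ 1) : thp τ t ≠ 0 := by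
  unfold thp
  simp_rw [t1_fact]
  refine tprod_one_add_ne_zero_of_summable (f := fun n => t1_u τ n t) ?_ (t1_summable hτ t)
  intro n
  rw [← t1_fact]
  exact mul_ne_zero (sub_ne_zero.2 (h n).1.symm) (sub_ne_zero.2 (h n).2.symm)

theorem t1_u_differentiable (τ : ℂ) (n : ℕ) : Differentiable ℂ (t1_u τ n) := by
  unfold t1_u ee
  fun_prop

/-- T1c. PROOF. The product converges locally uniformly in `t` (on bounded sets `|u_n(t)| ≤ C |p|^{n+1}`); Mathlib's
`Summable.hasProdLocallyUniformlyOn_...`, cf. `ModularForm.multipliableLocallyUniformlyOn_eta`,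
`differentiableOn_tprod...`. -/
theorem thp_differentiable (τ : ℂ) (hτ : 0 < τ.im) : Differentiable ℂ (thp τ) := by
  intro t
  set R : ℝ := |t.im| + 1 with hR
  have hK : IsOpen {s : ℂ | |s.im| < R} :=
    isOpen_lt (continuous_abs.comp Complex.continuous_im) continuous_const
  have h1 := Summable.hasProdLocallyUniformlyOn_nat_one_add (f := fun n s => t1_u τ n s) hK
    (t1_summable_geom hτ (3 * Real.exp (2 * (2 * Real.pi * R))))
    (Eventually.of_forall fun n s hs => t1_bound hτ (le_of_lt hs) n)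
    (fun n => (t1_u_differentiable τ n).continuous.continuousOn)
  have h2 : DifferentiableOn ℂ (fun s => ∏' n : ℕ, (1 + t1_u τ n s)) {s : ℂ | |s.im| < R} := by
    refine h1.differentiableOn (Eventually.of_forall fun s => ?_) hK
    have h3 : Differentiable ℂ (fun x => ∏ i ∈ s, (1 + t1_u τ i x)) := by
      have h4 : ∀ i ∈ s, Differentiable ℂ (fun x => 1 + t1_u τ i x) :=
        fun i _ => (t1_u_differentiable τ i).const_add 1
      exact Differentiable.fun_finsetProd h4
    exact h3.differentiableOn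
  have h5 : thp τ = fun s => ∏' n : ℕ, (1 + t1_u τ n s) := by
    funext s
    unfold thp
    simp_rw [t1_fact]
  rw [h5]
  exact h2.differentiableAt (hK.mem_nhds (by simp [hR]))

theorem th_differentiable (τ : ℂ) (hτ : 0 < τ.im) : Differentiable ℂ (th τ) := by
  unfold th
  exact (Complex.differentiable_sin.comp (differentiable_id.const_mul _)).mul (thp_differentiable τ hτ)

end Pool.Agent.MSP
end

end

section

/-! # U/Z2_Sh: Taylor shifts -/

open MvPolynomial

noncomputable section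

namespace Pool.Agent.MSU

variable {M : Type} [Field M] [Algebra ℂ M]

/-- Z2a. PROOF. Induction on `P` (`MvPolynomial.induction_on`): the degree of `aeval` of a monomial of degree `n` at polynomials of degree `≤ 1` is `≤ n` (`totalDegree_mul_le`, `totalDegree_finsetProd`). -/
theorem sh_totalDegree (v : Fin 2 → ℂ) (P : Po M) : (sh v P).totalDegree ≤ P.totalDegree := by
  have h0 : sh v P = ∑ d ∈ P.support, C (P.coeff d) * ∏ i, ((X i : Po M) + cst (v i)) ^ d i := by
    rw [sh, aeval_def, eval₂_eq']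
    rfl
  rw [h0]
  apply totalDegree_finsetSum_le
  intro d hd
  have h1 : ∀ i : Fin 2, (((X i : Po M) + cst (v i)) ^ d i).totalDegree ≤ d i := by
    intro i
    refine (totalDegree_pow _ _).trans ?_
    have h2 : ((X i : Po M) + cst (v i)).totalDegree ≤ 1 := by
      refine (totalDegree_add _ _).trans ?_
      rw [totalDegree_X, cst, totalDegree_C]
      simp
    calc d i * ((X i : Po M) + cst (v i)).totalDegree ≤ d i * 1 := Nat.mul_le_mul_left _ h2
      _ = d i := mul_one _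
  have h3 : (C (P.coeff d) * ∏ i, ((X i : Po M) + cst (v i)) ^ d i).totalDegree ≤ ∑ i, d i := by
    refine (totalDegree_mul _ _).trans ?_
    rw [totalDegree_C, zero_add]
    refine (totalDegree_finsetProd _ _).trans ?_
    exact Finset.sum_le_sum fun i _ => h1 i
  refine h3.trans ?_
  have h4 := le_totalDegree hd
  rw [Finsupp.sum_fintype _ _ (by simp)] at h4
  exact h4

theorem Z2_sh_C (v : Fin 2 → ℂ) (a : M) : sh v (C a : Po M) = C a := by
  rw [sh, aeval_C]
  rfl

theorem Z2_sh_X (v : Fin 2 → ℂ) (i : Fin 2) : sh v (X i : Po M) = X i + cst (v i) := by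
  rw [sh, aeval_X]

theorem Z2_sh_add (v : Fin 2 → ℂ) (P Q : Po M) : sh v (P + Q) = sh v P + sh v Q := map_add _ _ _

theorem Z2_sh_mul (v : Fin 2 → ℂ) (P Q : Po M) : sh v (P * Q) = sh v P * sh v Q := map_mul _ _ _

theorem Z2_cst_neg (a : ℂ) : (cst (-a) : Po M) = -cst a := by
  rw [cst, cst, map_neg, map_neg]

/-- Z2b. PROOF. `algHom_ext`: both sides are algebra homomorphisms in `P`, on `X i` they agree. -/
theorem sh_neg_sh (v : Fin 2 → ℂ) (P : Po M) : sh (-v) (sh v P) = P := by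
  induction P using MvPolynomial.induction_on with
  | C a => rw [Z2_sh_C, Z2_sh_C]
  | add p q hp hq => rw [Z2_sh_add, Z2_sh_add, hp, hq]
  | mul_X p i hp =>
    have h1 : sh (-v) (cst (v i) : Po M) = cst (v i) := Z2_sh_C _ _
    rw [Z2_sh_mul, Z2_sh_mul, hp, Z2_sh_X, Z2_sh_add, Z2_sh_X, h1, Pi.neg_apply, Z2_cst_neg]
    ring

theorem sh_sh_neg (v : Fin 2 → ℂ) (P : Po M) : sh v (sh (-v) P) = P := by
  have h := sh_neg_sh (-v) P
  rwa [neg_neg] at h

theorem sh_add (v : Fin 2 → ℂ) (P Q : Po M) : sh v (P + Q) = sh v P + sh v Q := map_add _ _ _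

theorem sh_mul (v : Fin 2 → ℂ) (P Q : Po M) : sh v (P * Q) = sh v P * sh v Q := map_mul _ _ _

/-- Z2c. PROOF. Both sides are ring homomorphisms in `P`; use `ringHom_ext'` or induction on `P`; `T` fixes the complex numbers. -/
theorem map_sh (T : M →+* M) (hT : ∀ a : ℂ, T (algebraMap ℂ M a) = algebraMap ℂ M a) (v : Fin 2 → ℂ) (P : Po M) :
    map T (sh v P) = sh v (map T P) := by
  induction P using MvPolynomial.induction_on with
  | C a => rw [Z2_sh_C, map_C, Z2_sh_C]
  | add p q hp hq => rw [sh_add, map_add, map_add, sh_add, hp, hq]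
  | mul_X p i hp =>
    rw [sh_mul, map_mul, map_mul, sh_mul, hp, Z2_sh_X, map_add, map_X, Z2_sh_X, cst, map_C, hT]

omit [Algebra ℂ M] in
theorem Z2_hc_zero_X_mul (i : Fin 2) (P : Po M) : homogeneousComponent 0 (X i * P) = 0 := by
  rw [homogeneousComponent_zero]
  have : coeff 0 (X i * P) = 0 := by
    rw [mul_comm, coeff_mul_X']
    simp
  rw [this, map_zero]

theorem Z2_mono (v : Fin 2 → ℂ) (n : ℕ) : ∀ (m : Fin 2 →₀ ℕ) (c : M), m.degree = n + 1 →
    homogeneousComponent (n + 1) (sh v (monomial m c)) = monomial m c ∧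
    homogeneousComponent n (sh v (monomial m c)) = ∑ i, cst (v i) * pderiv i (monomial m c) := by
  have step : ∀ (n : ℕ) (m : Fin 2 →₀ ℕ) (c : M), m.degree = n + 1 →
      ∃ (i : Fin 2) (m' : Fin 2 →₀ ℕ), m'.degree = n ∧ monomial m c = X i * monomial m' c := by
    intro n m c hm
    have h1 : ∃ i, m i ≠ 0 := by
      by_contra h2
      push Not at h2
      have h3 : m = 0 := by
        ext i
        exact h2 i
      rw [h3] at hm
      simp at hm
    obtain ⟨i, hi⟩ := h1
    have h4 : m = Finsupp.single i 1 + (m - Finsupp.single i 1) := by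
      rw [add_tsub_cancel_of_le]
      rw [Finsupp.single_le_iff]
      omega
    refine ⟨i, m - Finsupp.single i 1, ?_, ?_⟩
    · have h5 := congrArg Finsupp.degree h4
      rw [map_add, Finsupp.degree_single, hm] at h5
      omega
    · conv_lhs => rw [h4]
      rw [X, monomial_mul, one_mul]
  have key : ∀ (n : ℕ) (i : Fin 2) (Q : Po M), (sh v Q).totalDegree ≤ n →
      homogeneousComponent n (sh v Q) = Q →
      homogeneousComponent (n + 1) (sh v (X i * Q)) = X i * Q := by
    intro n i Q hQ hQ1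
    rw [sh_mul, Z2_sh_X, add_mul, map_add, hc_X_mul, hQ1, hc_cst_mul,
      homogeneousComponent_eq_zero (n + 1) (sh v Q) (by omega), mul_zero, add_zero]
  have hder : ∀ (i : Fin 2) (Q : Po M), ∑ j, cst (v j) * pderiv j (X i * Q) =
      X i * (∑ j, cst (v j) * pderiv j Q) + cst (v i) * Q := by
    intro i Q
    have h6 : ∀ j : Fin 2, cst (v j) * pderiv j (X i * Q) =
        X i * (cst (v j) * pderiv j Q) + (if j = i then cst (v i) * Q else 0) := by
      intro j
      rw [pderiv_mul, pderiv_X]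
      by_cases hj : j = i
      · subst hj
        simp
        ring
      · rw [if_neg hj, Pi.single_apply, if_neg (Ne.symm hj)]
        ring
    rw [Finset.sum_congr rfl fun j _ => h6 j, Finset.sum_add_distrib, ← Finset.mul_sum]
    simp
  induction n with
  | zero =>
    intro m c hm
    obtain ⟨i, m', hm', he⟩ := step 0 m c hm
    have h7 : m' = 0 := (Finsupp.degree_eq_zero_iff m').1 hm'
    have h8 : monomial m' c = (C c : Po M) := by rw [h7]; rfl
    rw [he, h8]
    constructor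
    · apply key
      · rw [Z2_sh_C, totalDegree_C]
      · rw [Z2_sh_C, homogeneousComponent_zero, coeff_C, if_pos rfl]
    · rw [hder, sh_mul, Z2_sh_X, Z2_sh_C, add_mul, map_add, Z2_hc_zero_X_mul, hc_cst_mul,
        homogeneousComponent_zero, coeff_C, if_pos rfl]
      simp
  | succ n ih =>
    intro m c hm
    obtain ⟨i, m', hm', he⟩ := step (n + 1) m c hm
    obtain ⟨h9, h10⟩ := ih m' c hm'
    rw [he]
    have h11 : (sh v (monomial m' c : Po M)).totalDegree ≤ n + 1 := by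
      refine (sh_totalDegree v _).trans ?_
      refine (totalDegree_monomial_le m' c).trans ?_
      rw [← hm']
      exact le_of_eq rfl
    constructor
    · exact key (n + 1) i _ h11 h9
    · rw [hder, sh_mul, Z2_sh_X, add_mul, map_add, hc_X_mul, hc_cst_mul, h9, h10]

/-- Z2d. the second order expansion of the shift of a form. PROOF. `P` is a linear combination of monomials `X_0^a X_1^b`, `a + b = n + 1`; for these `(X_0 + v_0)^a (X_1 + v_1)^b` has the components `X_0^a X_1^b` and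
`a v_0 X_0^(a-1) X_1^b + b v_1 X_0^a X_1^(b-1)`. Or: Taylor's formula by induction on `P`. -/
theorem hc_sh_homog (v : Fin 2 → ℂ) (n : ℕ) (P : Po M) (h : P.IsHomogeneous (n + 1)) :
    homogeneousComponent (n + 1) (sh v P) = P ∧ homogeneousComponent n (sh v P) = ∑ i, cst (v i) * pderiv i P := by
  have hD : ∀ m ∈ P.support, homogeneousComponent (n + 1) (sh v (monomial m (P.coeff m))) =
      monomial m (P.coeff m) ∧ homogeneousComponent n (sh v (monomial m (P.coeff m))) =
      ∑ i, cst (v i) * pderiv i (monomial m (P.coeff m)) := by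
    intro m hm
    apply Z2_mono
    have := h (mem_support_iff.1 hm)
    rw [← this]
    rw [Finsupp.degree_eq_weight_one]
    rfl
  have h1 : sh v P = ∑ m ∈ P.support, sh v (monomial m (P.coeff m)) := by
    conv_lhs => rw [P.as_sum]
    exact map_sum _ _ _
  rw [h1, map_sum, map_sum]
  constructor
  · rw [Finset.sum_congr rfl fun m hm => (hD m hm).1]
    exact P.as_sum.symm
  · rw [Finset.sum_congr rfl fun m hm => (hD m hm).2, Finset.sum_comm]
    apply Finset.sum_congr rfl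
    intro i _
    conv_rhs => rw [P.as_sum]
    rw [map_sum, Finset.mul_sum]

theorem hc_sh_homog_zero (v : Fin 2 → ℂ) (P : Po M) (h : P.IsHomogeneous 0) : sh v P = P := by
  have h1 : P.totalDegree ≤ 0 := h.totalDegree_le
  rw [eq_C_of_totalDegree_zero P h1, Z2_sh_C]

theorem Z2_split (n : ℕ) (P : Po M) (h : P.totalDegree ≤ n + 1) :
    ∃ Q : Po M, P = homogeneousComponent (n + 1) P + Q ∧ Q.totalDegree ≤ n := by
  refine ⟨P - homogeneousComponent (n + 1) P, by ring, ?_⟩
  apply totalDegree_lt_of_hc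
  · refine (totalDegree_sub _ _).trans ?_
    rw [max_le_iff]
    exact ⟨h, (homogeneousComponent_isHomogeneous (n + 1) P).totalDegree_le⟩
  · rw [map_sub]
    rw [homogeneousComponent_of_mem (homogeneousComponent_isHomogeneous (n + 1) P), if_pos rfl,
      sub_self]

theorem Z2_hc_sh_top (v : Fin 2 → ℂ) (n : ℕ) (P : Po M) (h : P.totalDegree ≤ n) :
    homogeneousComponent n (sh v P) = homogeneousComponent n P := by
  cases n with
  | zero => rw [eq_C_of_totalDegree_zero P h, Z2_sh_C]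
  | succ n =>
    obtain ⟨Q, hQ, hQd⟩ := Z2_split n P h
    have h1 := (hc_sh_homog v n _ (homogeneousComponent_isHomogeneous (n + 1) P)).1
    have h2 : homogeneousComponent (n + 1) (sh v Q) = 0 :=
      homogeneousComponent_eq_zero (n + 1) (sh v Q)
        (lt_of_le_of_lt ((sh_totalDegree v Q).trans hQd) (Nat.lt_succ_self n))
    conv_lhs => rw [hQ]
    rw [sh_add, map_add, h1, h2, add_zero]

/-- Z2e. PROOF. Write `P = H + L + R`, `H`, `L` the components of degree `n + 1`, `n` and `R` of degree `< n` (`R = 0` if `n = 0`); `sh_totalDegree`, `hc_sh_homog`. -/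
theorem hc_sh (v : Fin 2 → ℂ) (n : ℕ) (P : Po M) (h : P.totalDegree ≤ n + 1) :
    homogeneousComponent (n + 1) (sh v P) = homogeneousComponent (n + 1) P ∧
      homogeneousComponent n (sh v P) = homogeneousComponent n P + ∑ i, cst (v i) * pderiv i (homogeneousComponent (n + 1) P) := by
  refine ⟨Z2_hc_sh_top v (n + 1) P h, ?_⟩
  obtain ⟨Q, hQ, hQd⟩ := Z2_split n P h
  have h1 := (hc_sh_homog v n _ (homogeneousComponent_isHomogeneous (n + 1) P)).2
  have h2 := Z2_hc_sh_top v n Q hQd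
  have h3 : homogeneousComponent n Q = homogeneousComponent n P := by
    have h4 : homogeneousComponent n (homogeneousComponent (n + 1) P) = 0 := by
      rw [homogeneousComponent_of_mem (homogeneousComponent_isHomogeneous (n + 1) P),
        if_neg (by omega)]
    conv_rhs => rw [hQ]
    rw [map_add, h4, zero_add]
  conv_lhs => rw [hQ]
  rw [sh_add, map_add, h1, h2, h3, add_comm]

/-- Z2f. the map of a ring homomorphism on homogeneous components and degrees. -/
theorem hc_map (T : M →+* M) (n : ℕ) (P : Po M) : homogeneousComponent n (map T P) = map T (homogeneousComponent n P) := by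
  ext m
  rw [coeff_homogeneousComponent, coeff_map, coeff_map, coeff_homogeneousComponent]
  split_ifs
  · rfl
  · rw [map_zero]

theorem map_pderiv (T : M →+* M) (i : Fin 2) (P : Po M) : map T (pderiv i P) = pderiv i (map T P) := by
  exact pderiv_map.symm

theorem map_ofC (T : M →+* M) (hT : ∀ a : ℂ, T (algebraMap ℂ M a) = algebraMap ℂ M a) (g : Po ℂ) : map T (ofC g : Po M) = ofC g := by
  have h1 : T.comp (algebraMap ℂ M) = algebraMap ℂ M := RingHom.ext hT
  rw [ofC, map_map, h1]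

end Pool.Agent.MSU
end

end

section

/-! # U/Z5_TwoVar: subspaces of binary forms with slow growth -/

open MvPolynomial

noncomputable section

namespace Pool.Agent.MSU

variable {M : Type} [Field M]

/-- the exponent `X_0^(n-b) X_1^b` -/
def z5_mb (n b : ℕ) : Fin 2 →₀ ℕ := Finsupp.single 0 (n - b) + Finsupp.single 1 b

lemma z5_mb_one (n b : ℕ) : z5_mb n b 1 = b := by simp [z5_mb]

lemma z5_mb_zero (n b : ℕ) : z5_mb n b 0 = n - b := by simp [z5_mb]

lemma z5_eq_mb (n : ℕ) (m : Fin 2 →₀ ℕ) (h : m 0 + m 1 = n) : m = z5_mb n (m 1) := by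
  ext i
  fin_cases i
  · show m 0 = z5_mb n (m 1) 0
    rw [z5_mb_zero]
    omega
  · show m 1 = z5_mb n (m 1) 1
    rw [z5_mb_one]

lemma z5_deg (P : Po M) (n : ℕ) (hP : P.IsHomogeneous n) (m : Fin 2 →₀ ℕ) (h : P.coeff m ≠ 0) : m 0 + m 1 = n := by
  have h1 := hP h
  rw [Finsupp.weight_apply, Finsupp.sum_fintype _ _ (by simp)] at h1
  simpa using h1

/-- the dehomogenisation -/
def z5_F : Po M →ₐ[M] Polynomial M := aeval ![1, Polynomial.X]

lemma z5_F_monomial (m : Fin 2 →₀ ℕ) (c : M) : z5_F (monomial m c) = Polynomial.C c * Polynomial.X ^ (m 1) := by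
  unfold z5_F
  rw [aeval_monomial, Finsupp.prod_fintype _ _ (by simp)]
  simp

lemma z5_F_zero (P : Po M) : z5_F (X 0 * P) = z5_F P := by
  rw [map_mul]
  simp [z5_F]

lemma z5_F_one (P : Po M) : z5_F (X 1 * P) = Polynomial.X * z5_F P := by
  rw [map_mul]
  simp [z5_F]

lemma z5_coeff (n : ℕ) (P : Po M) (hP : P.IsHomogeneous n) (b : ℕ) :
    (z5_F P).coeff b = if b ≤ n then P.coeff (z5_mb n b) else 0 := by
  conv_lhs => rw [P.as_sum]
  rw [map_sum, Polynomial.finsetSum_coeff]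
  have h1 : ∀ m ∈ P.support, (z5_F (monomial m (P.coeff m))).coeff b = if m = z5_mb n b ∧ b ≤ n then P.coeff m else 0 := by
    intro m hm
    rw [mem_support_iff] at hm
    have h2 := z5_deg P n hP m hm
    rw [z5_F_monomial, Polynomial.coeff_C_mul, Polynomial.coeff_X_pow]
    by_cases hb : b = m 1
    · have h3 : m = z5_mb n b ∧ b ≤ n := ⟨by rw [hb]; exact z5_eq_mb n m h2, by omega⟩
      rw [if_pos hb, if_pos h3, mul_one]
    · have h3 : ¬ (m = z5_mb n b ∧ b ≤ n) := by
        rintro ⟨h4, -⟩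
        apply hb
        rw [h4, z5_mb_one]
      rw [if_neg hb, if_neg h3, mul_zero]
  rw [Finset.sum_congr rfl h1]
  by_cases hb : b ≤ n
  · rw [if_pos hb]
    rw [Finset.sum_eq_single (z5_mb n b)]
    · simp [hb]
    · intro m _ hm
      simp [hm]
    · intro hm
      rw [notMem_support_iff] at hm
      simp [hm]
  · rw [if_neg hb]
    refine Finset.sum_eq_zero fun m _ => ?_
    simp [hb]

lemma z5_inj (n : ℕ) (P Q : Po M) (hP : P.IsHomogeneous n) (hQ : Q.IsHomogeneous n) (h : z5_F P = z5_F Q) : P = Q := by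
  have h0 : (P - Q).IsHomogeneous n := hP.sub hQ
  have h1 : z5_F (P - Q) = 0 := by rw [map_sub, h, sub_self]
  have h2 : P - Q = 0 := by
    ext m
    by_contra hne
    rw [coeff_zero] at hne
    have h3 := z5_deg _ n h0 m hne
    have h4 := z5_coeff n (P - Q) h0 (m 1)
    rw [h1, if_pos (by omega), ← z5_eq_mb n m h3] at h4
    exact hne (by rw [← h4]; simp)
  exact sub_eq_zero.mp h2

lemma z5_mem (n : ℕ) (P : Po M) (hP : P.IsHomogeneous n) : z5_F P ∈ Polynomial.degreeLT M (n + 1) := by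
  rw [Polynomial.mem_degreeLT, Polynomial.degree_lt_iff_coeff_zero]
  intro b hb
  rw [z5_coeff n P hP, if_neg (by omega)]

lemma z5_surj (n : ℕ) (p : Polynomial M) (hp : p ∈ Polynomial.degreeLT M (n + 1)) :
    ∃ P : Po M, P.IsHomogeneous n ∧ z5_F P = p := by
  refine ⟨∑ b ∈ Finset.range (n + 1), monomial (z5_mb n b) (p.coeff b), ?_, ?_⟩
  · refine IsHomogeneous.sum _ _ _ fun b hb => ?_
    refine isHomogeneous_monomial _ ?_
    rw [Finset.mem_range] at hb
    have h1 : (z5_mb n b).degree = z5_mb n b 0 + z5_mb n b 1 := by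
      rw [Finsupp.degree_eq_sum]
      simp
    rw [h1, z5_mb_zero, z5_mb_one]
    omega
  · rw [map_sum]
    have h1 : ∀ b ∈ Finset.range (n + 1), z5_F (monomial (z5_mb n b) (p.coeff b)) =
        Polynomial.C (p.coeff b) * Polynomial.X ^ b := by
      intro b _
      rw [z5_F_monomial, z5_mb_one]
    rw [Finset.sum_congr rfl h1]
    have h2 : p.degree < ((n + 1 : ℕ) : WithBot ℕ) := Polynomial.mem_degreeLT.mp hp
    ext k
    rw [Polynomial.finsetSum_coeff]
    simp only [Polynomial.coeff_C_mul, Polynomial.coeff_X_pow, mul_ite, mul_one, mul_zero]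
    rw [Finset.sum_ite_eq]
    split_ifs with hk
    · rfl
    · rw [Finset.mem_range] at hk
      exact ((Polynomial.degree_lt_iff_coeff_zero _ _).mp h2 k (by omega)).symm

/-- Z5a. the forms of degree `n` and the polynomials of degree `≤ n` in one variable: `X_0^a X_1^b ↦ X^b`. PROOF. Define the map by `aeval ![1, Polynomial.X]`, its inverse on `degreeLT (n+1)`: `∑ c_b X^b ↦ ∑ c_b X_0^(n-b) X_1^b`. -/
theorem dehom_exists (n : ℕ) : ∃ f : Hs M n ≃ₗ[M] Polynomial.degreeLT M (n + 1),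
    ∀ P : Hs M n, (f P : Polynomial M) = aeval ![1, Polynomial.X] (P : Po M) := by
  let L : Hs M n →ₗ[M] Polynomial.degreeLT M (n + 1) :=
    LinearMap.codRestrict (Polynomial.degreeLT M (n + 1)) (z5_F.toLinearMap.comp (Hs M n).subtype)
      (fun P => z5_mem n P.1 P.2)
  have hL : ∀ P : Hs M n, (L P : Polynomial M) = z5_F (P : Po M) := fun P => rfl
  refine ⟨LinearEquiv.ofBijective L ⟨?_, ?_⟩, fun P => rfl⟩
  · intro P Q h
    apply Subtype.ext
    refine z5_inj n _ _ P.2 Q.2 ?_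
    rw [← hL, ← hL, h]
  · intro p
    obtain ⟨P, hP, hPp⟩ := z5_surj n p.1 p.2
    exact ⟨⟨P, hP⟩, Subtype.ext (by rw [hL]; exact hPp)⟩

/-- Z5b. -/
theorem finrank_Hs (n : ℕ) : Module.finrank M (Hs M n) = n + 1 := by
  obtain ⟨f, -⟩ := dehom_exists (M := M) n
  rw [f.finrank_eq, (Polynomial.degreeLTEquiv M (n + 1)).finrank_eq, Module.finrank_fin_fun]

instance (n : ℕ) : FiniteDimensional M (Hs M n) := by
  obtain ⟨f, -⟩ := dehom_exists (M := M) n
  exact LinearEquiv.finiteDimensional ((f.trans (Polynomial.degreeLTEquiv M (n + 1))).symm)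

lemma z5_finrank_map (n : ℕ) (A : Submodule M (Po M)) (hA : A ≤ Hs M n) :
    Module.finrank M (A.map z5_F.toLinearMap : Submodule M (Polynomial M)) = Module.finrank M A := by
  have h1 : Function.Injective (z5_F.toLinearMap.domRestrict A : A →ₗ[M] Polynomial M) := by
    intro P Q h
    apply Subtype.ext
    exact z5_inj n _ _ (hA P.2) (hA Q.2) h
  have h2 : A.map z5_F.toLinearMap = LinearMap.range (z5_F.toLinearMap.domRestrict A) := by
    rw [LinearMap.range_domRestrict]
  rw [h2]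
  exact LinearMap.finrank_range_of_inj h1

lemma z5_sup_le (A B : Submodule M (Po M)) (hAB : ∀ P ∈ A, ∀ i, X i * P ∈ B) :
    (A.map z5_F.toLinearMap ⊔ (A.map z5_F.toLinearMap).map (LinearMap.mulLeft M (Polynomial.X : Polynomial M)) :
      Submodule M (Polynomial M)) ≤ B.map z5_F.toLinearMap := by
  refine sup_le ?_ ?_
  · rintro _ ⟨P, hP, rfl⟩
    exact ⟨X 0 * P, hAB P hP 0, z5_F_zero P⟩
  · rintro _ ⟨_, ⟨P, hP, rfl⟩, rfl⟩
    exact ⟨X 1 * P, hAB P hP 1, z5_F_one P⟩

/-- Z5c. PROOF. Dehomogenise (`dehom_exists`; it is compatible with products: `aeval`), `X_0 ↦ 1`, `X_1 ↦ X`: the image of `B` contains `A' + X A'`. `one_var_lt`. -/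
theorem two_var_lt (m : ℕ) (A B : Submodule M (Po M)) (hA : A ≤ Hs M m) (hB : B ≤ Hs M (m + 1))
    (hAB : ∀ P ∈ A, ∀ i, X i * P ∈ B) (h1 : 1 ≤ Module.finrank M A) : Module.finrank M A + 1 ≤ Module.finrank M B := by
  have : FiniteDimensional M A := Submodule.finiteDimensional_of_le hA
  have : FiniteDimensional M B := Submodule.finiteDimensional_of_le hB
  have h2 := one_var_lt (A.map z5_F.toLinearMap : Submodule M (Polynomial M)) (by rw [z5_finrank_map m A hA]; exact h1)
  rw [z5_finrank_map m A hA] at h2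
  have h3 := Submodule.finrank_mono (z5_sup_le A B hAB)
  rw [z5_finrank_map (m + 1) B hB] at h3
  exact h2.trans h3

lemma z5_char (n r a : ℕ) (hra : r + a = n) (A : Submodule M (Po M)) (hA : A ≤ Hs M n) (h : Po M) (hh : h.IsHomogeneous r)
    (h1 : A.map z5_F.toLinearMap = (Polynomial.degreeLT M (a + 1)).map (LinearMap.mulLeft M (z5_F h))) (P : Po M) :
    P ∈ A ↔ ∃ g ∈ Hs M a, P = h * g := by
  constructor
  · intro hP
    have h2 : z5_F P ∈ A.map z5_F.toLinearMap := ⟨P, hP, rfl⟩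
    rw [h1] at h2
    obtain ⟨q, hq, hqP⟩ := h2
    obtain ⟨g, hg, hgq⟩ := z5_surj a q hq
    refine ⟨g, hg, ?_⟩
    refine z5_inj n _ _ (hA hP) ?_ ?_
    · rw [← hra]
      exact hh.mul hg
    · rw [map_mul, hgq]
      exact hqP.symm
  · rintro ⟨g, hg, rfl⟩
    have h2 : z5_F (h * g) ∈ (Polynomial.degreeLT M (a + 1)).map (LinearMap.mulLeft M (z5_F h)) := by
      refine ⟨z5_F g, z5_mem a g hg, ?_⟩
      rw [map_mul]
      rfl
    rw [← h1] at h2
    obtain ⟨Q, hQ, hQP⟩ := h2
    have h3 : Q = h * g := by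
      refine z5_inj n _ _ (hA hQ) ?_ hQP
      rw [← hra]
      exact hh.mul hg
    rw [← h3]
    exact hQ

lemma z5_finrank_mul (h : Polynomial M) (hh : h ≠ 0) (a : ℕ) :
    Module.finrank M ((Polynomial.degreeLT M a).map (LinearMap.mulLeft M h) : Submodule M (Polynomial M)) = a := by
  have h1 : Function.Injective (LinearMap.mulLeft M h) := fun p q hpq => mul_left_cancel₀ hh hpq
  rw [← (Submodule.equivMapOfInjective (LinearMap.mulLeft M h) h1 (Polynomial.degreeLT M a)).finrank_eq,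
    (Polynomial.degreeLTEquiv M a).finrank_eq, Module.finrank_fin_fun]

/-- Z5d. PROOF. Dehomogenise: `A' = h' · degreeLT a`, `a = finrank A`, by `one_var`; `h' X^(a-1)` has degree `≤ m`, so `deg h' ≤ m - (a - 1) =: r` and `h'` is the dehomogenisation of a form `h` of degree `r`. `h g`, `g` a form of degree `a - 1`, has dehomogenisation in `A'` so it is in `A` (injectivity of
dehomogenisation on forms of degree `m`), dimensions. For `B`: `X_i h g ∈ B` for all `g` of degree `a - 1`, so `h g' ∈ B` for all `g'` of degree `a` (every form of degree `a ≥ 1` is a combination of `X_i g`), and `dim {h g'} = a + 1 = dim B`. -/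
theorem two_var (m : ℕ) (A B : Submodule M (Po M)) (hA : A ≤ Hs M m) (hB : B ≤ Hs M (m + 1))
    (hAB : ∀ P ∈ A, ∀ i, X i * P ∈ B) (a : ℕ) (ha : Module.finrank M A = a + 1) (hb : Module.finrank M B = a + 2) :
    ∃ r : ℕ, r + a = m ∧ ∃ h : Po M, h ≠ 0 ∧ h.IsHomogeneous r ∧ (∀ P, P ∈ A ↔ ∃ g ∈ Hs M a, P = h * g) ∧
      (∀ P, P ∈ B ↔ ∃ g ∈ Hs M (a + 1), P = h * g) := by
  have : FiniteDimensional M A := Submodule.finiteDimensional_of_le hA
  have : FiniteDimensional M B := Submodule.finiteDimensional_of_le hB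
  have hA' := z5_finrank_map m A hA
  have hB' := z5_finrank_map (m + 1) B hB
  have hle := z5_sup_le A B hAB
  obtain ⟨h', hh', h1⟩ := one_var (A.map z5_F.toLinearMap : Submodule M (Polynomial M)) (by rw [hA', ha]; omega)
    (by
      refine (Submodule.finrank_mono hle).trans ?_
      rw [hB', hb, hA', ha])
  rw [hA', ha] at h1
  have hX : h' * Polynomial.X ^ a ∈ A.map z5_F.toLinearMap := by
    rw [h1]
    refine ⟨Polynomial.X ^ a, ?_, rfl⟩
    rw [SetLike.mem_coe, Polynomial.mem_degreeLT, Polynomial.degree_X_pow]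
    exact_mod_cast Nat.lt_succ_self a
  obtain ⟨P, hP, hPX⟩ := hX
  have hdeg : h'.natDegree + a ≤ m := by
    have h2 := z5_mem m P (hA hP)
    have h3 : z5_F P = h' * Polynomial.X ^ a := hPX
    rw [h3, Polynomial.mem_degreeLT] at h2
    have h4 : (h' * Polynomial.X ^ a).natDegree = h'.natDegree + a := by
      rw [Polynomial.natDegree_mul hh' (pow_ne_zero _ Polynomial.X_ne_zero), Polynomial.natDegree_X_pow]
    have h5 : h' * Polynomial.X ^ a ≠ 0 := mul_ne_zero hh' (pow_ne_zero _ Polynomial.X_ne_zero)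
    rw [← Polynomial.natDegree_lt_iff_degree_lt h5, h4] at h2
    omega
  refine ⟨m - a, by omega, ?_⟩
  have hmem : h' ∈ Polynomial.degreeLT M (m - a + 1) := by
    rw [Polynomial.mem_degreeLT, ← Polynomial.natDegree_lt_iff_degree_lt hh']
    omega
  obtain ⟨h, hh, hF⟩ := z5_surj (m - a) h' hmem
  have hne : h ≠ 0 := by
    rintro rfl
    rw [map_zero] at hF
    exact hh' hF.symm
  refine ⟨h, hne, hh, ?_, ?_⟩
  · refine z5_char m (m - a) a (by omega) A hA h hh ?_
    rw [hF]
    exact h1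
  · refine z5_char (m + 1) (m - a) (a + 1) (by omega) B hB h hh ?_
    rw [hF]
    symm
    refine Submodule.eq_of_le_of_finrank_eq ?_ ?_
    · refine le_trans ?_ hle
      rintro _ ⟨q, hq, rfl⟩
      have hq0 : ∀ k, a + 1 + 1 ≤ k → q.coeff k = 0 := by
        rw [SetLike.mem_coe, Polynomial.mem_degreeLT, Polynomial.degree_lt_iff_coeff_zero] at hq
        exact hq
      have h2 : h' * q = h' * Polynomial.C (q.coeff 0) + Polynomial.X * (h' * q.divX) := by
        conv_lhs => rw [← Polynomial.divX_mul_X_add q]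
        ring
      rw [LinearMap.mulLeft_apply, h2]
      refine Submodule.add_mem_sup ?_ ?_
      · rw [h1]
        refine ⟨Polynomial.C (q.coeff 0), ?_, rfl⟩
        rw [SetLike.mem_coe, Polynomial.mem_degreeLT, Polynomial.degree_lt_iff_coeff_zero]
        intro k hk
        rw [Polynomial.coeff_C, if_neg (by omega)]
      · refine ⟨h' * q.divX, ?_, rfl⟩
        rw [SetLike.mem_coe, h1]
        refine ⟨q.divX, ?_, rfl⟩
        rw [SetLike.mem_coe, Polynomial.mem_degreeLT, Polynomial.degree_lt_iff_coeff_zero]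
        intro k hk
        rw [Polynomial.coeff_divX]
        exact hq0 _ (by omega)
    · rw [z5_finrank_mul h' hh', hB', hb]

end Pool.Agent.MSU
end

end

section

/-! # T2: functional equations of the theta function (MP_f58a57_nt, pairs) -/

open Complex Filter Topology

noncomputable section

namespace Pool.Agent.MSP

/-- T2a. `sin` is odd, the two factors of each term of `thp` are exchanged. -/
theorem th_neg (τ t : ℂ) : th τ (-t) = -th τ t := by
  have h : thp τ (-t) = thp τ t := by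
    unfold thp
    refine tprod_congr fun n => ?_
    rw [mul_comm, sub_neg_eq_add, ← sub_eq_add_neg]
  unfold th
  rw [h, mul_neg, Complex.sin_neg, neg_mul]

theorem t2_ee_add (x y : ℂ) : ee (x + y) = ee x * ee y := by
  unfold ee
  rw [← Complex.exp_add]
  ring_nf

theorem t2_ee_one : ee 1 = 1 := by
  unfold ee
  rw [mul_one]
  exact Complex.exp_two_pi_mul_I

theorem t2_ee_add_one (x : ℂ) : ee (x + 1) = ee x := by
  rw [t2_ee_add, t2_ee_one, mul_one]

theorem t2_ee_sub_one (x : ℂ) : ee (x - 1) = ee x := by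
  have h := t2_ee_add_one (x - 1)
  rw [sub_add_cancel] at h
  exact h.symm

/-- T2b. `ee (x + 1) = ee x`, `sin(π(t+1)) = -sin(πt)`. -/
theorem th_add_one (τ t : ℂ) : th τ (t + 1) = -th τ t := by
  have h : thp τ (t + 1) = thp τ t := by
    unfold thp
    refine tprod_congr fun n => ?_
    rw [← add_assoc, t2_ee_add_one, ← sub_sub, t2_ee_sub_one]
  unfold th
  rw [h, mul_add, mul_one, Complex.sin_add_pi, neg_mul]

theorem t2_norm_ee (x : ℂ) : ‖ee x‖ = Real.exp (-(2 * Real.pi * x.im)) := by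
  unfold ee
  rw [Complex.norm_exp]
  congr 1
  simp

theorem t2_mul (τ : ℂ) (hτ : 0 < τ.im) (t : ℂ) :
    Multipliable (fun n : ℕ => 1 - ee ((n + 1) * τ + t)) := by
  have h : Summable (fun n : ℕ => ‖-ee ((n + 1) * τ + t)‖) := by
    have h0 : (fun n : ℕ => ‖-ee ((n + 1) * τ + t)‖) =
        fun n : ℕ => Real.exp (-(2 * Real.pi * (τ.im + t.im))) * Real.exp (-(2 * Real.pi * τ.im)) ^ n := by
      funext n
      rw [norm_neg, t2_norm_ee, ← Real.exp_nat_mul, ← Real.exp_add]
      congr 1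
      simp
      ring
    rw [h0]
    refine Summable.mul_left _ (summable_geometric_of_lt_one (Real.exp_pos _).le ?_)
    rw [Real.exp_lt_one_iff]
    have := Real.pi_pos
    have : 0 < 2 * Real.pi * τ.im := by positivity
    linarith
  have h1 := multipliable_one_add_of_summable h
  refine h1.congr ?_
  intro n
  ring

theorem t2_A (τ : ℂ) (hτ : 0 < τ.im) (t : ℂ) :
    ∏' n : ℕ, (1 - ee ((n + 1) * τ + t)) = (1 - ee (t + τ)) * ∏' n : ℕ, (1 - ee ((n + 1) * τ + (t + τ))) := by
  have e : ∀ n : ℕ, (1 - ee (((n + 1 : ℕ) + 1) * τ + t)) = (1 - ee ((n + 1) * τ + (t + τ))) := by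
    intro n
    congr 2
    push_cast
    ring
  have h := tprod_eq_zero_mul' (f := fun n : ℕ => 1 - ee ((n + 1) * τ + t))
    ((t2_mul τ hτ (t + τ)).congr fun n => (e n).symm)
  rw [h]
  congr 1
  · simp only [Nat.cast_zero, zero_add, one_mul]
    rw [add_comm]
  · exact tprod_congr e

theorem t2_B (τ : ℂ) (hτ : 0 < τ.im) (t : ℂ) :
    ∏' n : ℕ, (1 - ee ((n + 1) * τ - (t + τ))) = (1 - ee (-t)) * ∏' n : ℕ, (1 - ee ((n + 1) * τ - t)) := by
  have h := t2_A τ hτ (-(t + τ))
  have e1 : ∀ n : ℕ, (1 - ee ((n + 1) * τ - (t + τ))) = (1 - ee ((n + 1) * τ + -(t + τ))) := by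
    intro n
    rw [sub_eq_add_neg ((n + 1) * τ)]
  have e2 : ∀ n : ℕ, (1 - ee ((n + 1) * τ + (-(t + τ) + τ))) = (1 - ee ((n + 1) * τ - t)) := by
    intro n
    congr 2
    ring
  rw [tprod_congr e1, h, tprod_congr e2]
  congr 3
  ring

theorem t2_thp (τ : ℂ) (hτ : 0 < τ.im) (t : ℂ) :
    thp τ t = (∏' n : ℕ, (1 - ee ((n + 1) * τ + t))) * ∏' n : ℕ, (1 - ee ((n + 1) * τ - t)) := by
  unfold thp
  refine Multipliable.tprod_mul (t2_mul τ hτ t) ?_
  exact (t2_mul τ hτ (-t)).congr fun n => by rw [← sub_eq_add_neg]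

theorem t2_sin (x : ℂ) :
    Complex.sin (Real.pi * x) = I / 2 * cexp (-(Real.pi * I * x)) * (1 - ee x) := by
  have h : ee x = cexp (Real.pi * I * x) * cexp (Real.pi * I * x) := by
    unfold ee
    rw [← Complex.exp_add]
    ring_nf
  have h2 : cexp (-(Real.pi * I * x)) * cexp (Real.pi * I * x) = 1 := by
    rw [← Complex.exp_add, neg_add_cancel, Complex.exp_zero]
  rw [h, Complex.sin]
  have e1 : -((Real.pi : ℂ) * x) * I = -(Real.pi * I * x) := by ring
  have e2 : ((Real.pi : ℂ) * x) * I = Real.pi * I * x := by ring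
  rw [e1, e2]
  linear_combination (I / 2 * cexp (Real.pi * I * x)) * h2

theorem t2_sin' (x : ℂ) :
    Complex.sin (Real.pi * x) = -(I / 2) * cexp (Real.pi * I * x) * (1 - ee (-x)) := by
  have h := t2_sin (-x)
  rw [mul_neg, Complex.sin_neg] at h
  have e : -((Real.pi : ℂ) * I * -x) = Real.pi * I * x := by ring
  rw [e] at h
  linear_combination -h

/-- T2c. PROOF. Let `p = ee τ`, `z = ee t`, `A(z) = ∏_{n≥0} (1 - p^{n+1} z)`, `B(z) = ∏_{n≥0} (1 - p^{n+1}/z)`, `thp τ t = A(z) B(z)`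
(`Multipliable.tprod_mul`). `A(z) = (1 - pz) A(pz)` and `B(pz) = (1 - 1/z) B(z)` (split off the first factor,
`Multipliable.tprod_eq_zero_mul`; both products converge by the same estimate as T1a). Hence
`(1 - pz) thp τ (t+τ) = (1 - 1/z) thp τ t`. And `sin(πx) = (I/2) e^{-iπx} (1 - ee x)`, so
`th τ (t+τ) = (I/2) e^{-iπt-iπτ} (1 - pz) thp τ (t+τ) = (I/2) e^{-iπt-iπτ}(1 - 1/z) thp τ t = -e^{-iπτ} z⁻¹ sin(πt) thp τ t`. -/
theorem th_add_tau (τ : ℂ) (hτ : 0 < τ.im) (t : ℂ) :
    th τ (t + τ) = -cexp (-(Real.pi * I * τ) - 2 * Real.pi * I * t) * th τ t := by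
  have hA := t2_A τ hτ t
  have hB := t2_B τ hτ t
  have hs := t2_sin (t + τ)
  have hs' := t2_sin' t
  unfold th
  rw [t2_thp τ hτ (t + τ), t2_thp τ hτ t, hB, hA, hs, hs']
  have e : cexp (-(Real.pi * I * (t + τ))) =
      cexp (-(Real.pi * I * τ) - 2 * Real.pi * I * t) * cexp (Real.pi * I * t) := by
    rw [← Complex.exp_add]
    ring_nf
  rw [e]
  ring

end Pool.Agent.MSP
end

end

section

/-!
# N0: the polynomial ring with local parameters (MP_f58a57_nt, algebraic invariants)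

Second version of the arithmetic: instead of the invariant derivations `δ_i` we use `D_i = (1/P_i') δ_i`, the derivation with respect to the
local parameter `P_i`. The Taylor coefficients `D₁^r D₂^s /(r! s!)` of the monomials have denominators and sizes `exp(O(T (1 + log l)))` only
(no factorials).

Variables: `inl 0, ..., inl 5` stand for `x₁ = P₁, z₁ = 1/P₁', x₂ = P₂, z₂ = 1/P₂', h₁, h₂` (`P_i'' = 6 P_i² - h_i`);
`inr 0, ..., inr 11` stand for `κ₁, κ₁s₁, τ₁κ₁, τ₁κ₁s₁, κ₂, κ₂s₂, τ₂κ₂, τ₂κ₂s₂, c, Y₁, Y₂, Y₃`.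
-/

open Complex Filter Topology

noncomputable section

namespace Pool.Agent.MSN

open Pool.Agent.MSP

/-- the polynomial ring -/
abbrev PN := MvPolynomial (Fin 6 ⊕ Fin 12) ℤ

def nX (i : Fin 6) : PN := MvPolynomial.X (Sum.inl i)
def nY (j : Fin 12) : PN := MvPolynomial.X (Sum.inr j)

/-- `D₁ = (1/P₁') δ₁` -/
def D₁ : Derivation ℤ PN PN := MvPolynomial.mkDerivation ℤ (fun v => match v with
  | Sum.inl i => ![1, -(nX 1 ^ 3 * (6 * nX 0 ^ 2 - nX 4)), 0, 0, 0, 0] i
  | Sum.inr j => ![0, 0, 0, 0, 0, 0, 0, 0, 0, nX 1 * (nY 0 * nX 0 + nY 1), 0,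
      nX 1 * (-nY 8 + nY 2 * nX 0 + nY 3)] j)

/-- `D₂ = (1/P₂') δ₂` -/
def D₂ : Derivation ℤ PN PN := MvPolynomial.mkDerivation ℤ (fun v => match v with
  | Sum.inl i => ![0, 0, 1, -(nX 3 ^ 3 * (6 * nX 2 ^ 2 - nX 5)), 0, 0] i
  | Sum.inr j => ![0, 0, 0, 0, 0, 0, 0, 0, 0, 0, nX 3 * (nY 4 * nX 2 + nY 5),
      nX 3 * (1 - nY 6 * nX 2 - nY 7)] j)

/-- the polynomial which corresponds to the monomial `ν` -/
def Qn (P : Pr) (ν : ℕ × ℕ × ℕ × ℕ × ℕ) : PN :=
  nX 0 ^ ν.1 * nX 2 ^ ν.2.1 * (nY 11 ^ ν.2.2.1 *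
    (MvPolynomial.C P.b₂ * nY 9 - MvPolynomial.C P.b₁ * nY 10) ^ ν.2.2.2.1 *
    (MvPolynomial.C P.a₁ * nY 9 + MvPolynomial.C P.a₂ * nY 10) ^ ν.2.2.2.2)

/-- the denominator: `4^T ∏_{1 ≤ j ≤ l} lcm(1, ..., ⌊T/j⌋)` -/
def den (T l : ℕ) : ℕ := 4 ^ T * ∏ j ∈ Finset.Icc 1 l, (Finset.Icc 1 (T / j)).lcm id

end Pool.Agent.MSN
end

end

section

/-! # T3: zeros of the theta function (MP_f58a57_nt, pairs) -/

open Complex Filter Topology

noncomputable section

namespace Pool.Agent.MSP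

theorem t3_ee_eq_one (x : ℂ) : ee x = 1 ↔ ∃ k : ℤ, x = k := by
  unfold ee
  rw [Complex.exp_eq_one_iff]
  have hpi : (2 * Real.pi * I : ℂ) ≠ 0 := by
    simp [Real.pi_ne_zero, Complex.I_ne_zero]
  constructor
  · rintro ⟨k, hk⟩
    refine ⟨k, mul_left_cancel₀ hpi ?_⟩
    rw [hk]; ring
  · rintro ⟨k, rfl⟩
    exact ⟨k, by ring⟩

theorem t3_shift (τ : ℂ) (hτ : 0 < τ.im) (t : ℂ) (n : ℤ) : th τ (t + n * τ) = 0 ↔ th τ t = 0 := by
  induction n using Int.induction_on with
  | zero => simp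
  | succ n ih =>
    have h1 : t + ((n + 1 : ℤ) : ℂ) * τ = (t + (n : ℤ) * τ) + τ := by push_cast; ring
    rw [h1, th_add_tau τ hτ, ← ih, mul_eq_zero, neg_eq_zero]
    simp [Complex.exp_ne_zero]
  | pred n ih =>
    have h1 : t + ((-n : ℤ) : ℂ) * τ = (t + ((-n - 1 : ℤ) : ℂ) * τ) + τ := by push_cast; ring
    rw [h1, th_add_tau τ hτ, mul_eq_zero, neg_eq_zero] at ih
    simpa [Complex.exp_ne_zero] using ih

/-- T3a. PROOF. ← : `sin(πm) = 0` and the functional equations T2 (or: some factor of the product is zero; `th` vanishes at `m`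
and then at `m + nτ` by induction with `th_add_tau`, also backwards). → : if `th τ t = 0` then `sin(πt) = 0` (so `t ∈ ℤ`,
`Complex.sin_eq_zero_iff`) or `thp τ t = 0`, so by `thp_ne_zero` `ee(±t + (n+1)τ) = 1` for some `n`, so
`±t + (n+1)τ ∈ ℤ` (`Complex.exp_eq_one_iff`). -/
theorem th_eq_zero_iff (τ : ℂ) (hτ : 0 < τ.im) (t : ℂ) : th τ t = 0 ↔ ∃ m n : ℤ, t = m + n * τ := by
  have hpi : (Real.pi : ℂ) ≠ 0 := Complex.ofReal_ne_zero.2 Real.pi_ne_zero
  constructor
  · intro h
    have h0 : Complex.sin (Real.pi * t) * thp τ t = 0 := h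
    rcases mul_eq_zero.1 h0 with h1 | h1
    · obtain ⟨k, hk⟩ := Complex.sin_eq_zero_iff.1 h1
      refine ⟨k, 0, ?_⟩
      have h2 : t = k := mul_left_cancel₀ hpi (by rw [hk]; ring)
      rw [h2]; simp
    · by_contra hcon
      push Not at hcon
      refine thp_ne_zero τ hτ t ?_ h1
      intro n
      constructor
      · intro h2
        obtain ⟨k, hk⟩ := (t3_ee_eq_one _).1 h2
        refine hcon k (-(n + 1)) ?_
        push_cast
        linear_combination hk
      · intro h2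
        obtain ⟨k, hk⟩ := (t3_ee_eq_one _).1 h2
        refine hcon (-k) (n + 1) ?_
        push_cast
        linear_combination -hk
  · rintro ⟨m, n, rfl⟩
    rw [t3_shift τ hτ]
    unfold th
    rw [Complex.sin_eq_zero_iff.2 ⟨m, by ring⟩, zero_mul]

/-- T3b. `th' (0) = π thp τ 0 ≠ 0`. -/
theorem deriv_th_zero_ne (τ : ℂ) (hτ : 0 < τ.im) : deriv (th τ) 0 ≠ 0 := by
  have h1 : HasDerivAt (fun t : ℂ => Complex.sin (Real.pi * t))
      (Complex.cos (Real.pi * 0) * (Real.pi * 1)) 0 :=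
    (Complex.hasDerivAt_sin _).comp (0 : ℂ) ((hasDerivAt_id (0 : ℂ)).const_mul (Real.pi : ℂ))
  have h2 : HasDerivAt (thp τ) (deriv (thp τ) 0) 0 := (thp_differentiable τ hτ 0).hasDerivAt
  have h3 : HasDerivAt (th τ) _ 0 := h1.mul h2
  rw [h3.deriv]
  simp only [mul_zero, Complex.cos_zero, Complex.sin_zero, mul_one, one_mul, zero_mul, add_zero]
  refine mul_ne_zero (Complex.ofReal_ne_zero.2 Real.pi_ne_zero) (thp_ne_zero τ hτ 0 ?_)
  intro n
  have key : ∀ k : ℤ, ((n : ℂ) + 1) * τ ≠ k := by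
    intro k hk
    have him := congrArg Complex.im hk
    have h4 : (((n : ℂ) + 1) * τ).im = ((n : ℝ) + 1) * τ.im := by
      simp [Complex.mul_im]
    rw [h4] at him
    simp only [Complex.intCast_im] at him
    have h5 : (0 : ℝ) < ((n : ℝ) + 1) * τ.im := by positivity
    linarith
  constructor
  · intro h4
    obtain ⟨k, hk⟩ := (t3_ee_eq_one _).1 h4
    exact key k (by rw [← hk]; ring)
  · intro h4
    obtain ⟨k, hk⟩ := (t3_ee_eq_one _).1 h4
    exact key k (by rw [← hk]; ring)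

/-- T3c. real non-integers are not zeros. -/
theorem th_real_ne (τ : ℂ) (hτ : 0 < τ.im) (x : ℝ) (hx : ∀ m : ℤ, x ≠ m) : th τ x ≠ 0 := by
  rw [Ne, th_eq_zero_iff τ hτ]
  rintro ⟨m, n, h⟩
  have him := congrArg Complex.im h
  simp at him
  have hn : (n : ℝ) = 0 := by
    rcases him with h' | h'
    · exact_mod_cast h'
    · exact absurd h' hτ.ne'
  have hn' : n = 0 := by exact_mod_cast hn
  subst hn'
  apply hx m
  have hre := congrArg Complex.re h
  simpa using hre

end Pool.Agent.MSP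
end

end

section

/-! # T4: translation by lattice vectors (MP_f58a57_nt, pairs) -/

open Complex Filter Topology

noncomputable section

namespace Pool.Agent.MSP

theorem au_ne (τ : ℂ) (m n : ℤ) (t : ℂ) : au τ m n t ≠ 0 := by
  unfold au
  refine mul_ne_zero (zpow_ne_zero _ (by norm_num)) (Complex.exp_ne_zero _)

theorem T4_int (τ : ℂ) (m : ℤ) (t : ℂ) : th τ (t + m) = (-1 : ℂ) ^ m * th τ t := by
  induction m using Int.induction_on with
  | zero => simp
  | succ m ih =>
    have e : t + ((((m : ℤ) + 1 : ℤ)) : ℂ) = (t + ((m : ℤ) : ℂ)) + 1 := by push_cast; ring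
    rw [e, th_add_one, ih, zpow_add_one₀ (by norm_num)]
    ring
  | pred m ih =>
    have e : t + ((-(m : ℤ) : ℤ) : ℂ) = (t + ((-(m : ℤ) - 1 : ℤ) : ℂ)) + 1 := by push_cast; ring
    rw [e, th_add_one] at ih
    rw [zpow_sub_one₀ (by norm_num)]
    linear_combination -ih

theorem T4_tau (τ : ℂ) (hτ : 0 < τ.im) (n : ℤ) (t : ℂ) :
    th τ (t + n * τ) =
      (-1 : ℂ) ^ n * cexp (-(Real.pi * I * (n : ℂ) ^ 2 * τ) - 2 * Real.pi * I * n * t) * th τ t := by
  induction n using Int.induction_on with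
  | zero => simp
  | succ n ih =>
    have e : t + ((((n : ℤ) + 1 : ℤ)) : ℂ) * τ = (t + ((n : ℤ) : ℂ) * τ) + τ := by push_cast; ring
    have e2 : -(Real.pi * I * ((((n : ℤ) + 1 : ℤ)) : ℂ) ^ 2 * τ)
        - 2 * Real.pi * I * ((((n : ℤ) + 1 : ℤ)) : ℂ) * t =
        (-(Real.pi * I * τ) - 2 * Real.pi * I * (t + ((n : ℤ) : ℂ) * τ)) +
        (-(Real.pi * I * ((n : ℤ) : ℂ) ^ 2 * τ) - 2 * Real.pi * I * ((n : ℤ) : ℂ) * t) := by
      push_cast; ring
    rw [e, th_add_tau τ hτ, ih, zpow_add_one₀ (by norm_num), e2, Complex.exp_add]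
    ring
  | pred n ih =>
    have e : t + ((-(n : ℤ) : ℤ) : ℂ) * τ = (t + ((-(n : ℤ) - 1 : ℤ) : ℂ) * τ) + τ := by
      push_cast; ring
    have e2 : -(Real.pi * I * ((-(n : ℤ) - 1 : ℤ) : ℂ) ^ 2 * τ)
        - 2 * Real.pi * I * ((-(n : ℤ) - 1 : ℤ) : ℂ) * t =
        -(-(Real.pi * I * τ) - 2 * Real.pi * I * (t + ((-(n : ℤ) - 1 : ℤ) : ℂ) * τ)) +
        (-(Real.pi * I * ((-(n : ℤ) : ℤ) : ℂ) ^ 2 * τ) - 2 * Real.pi * I * ((-(n : ℤ) : ℤ) : ℂ) * t)
          := by
      push_cast; ring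
    rw [e, th_add_tau τ hτ] at ih
    rw [zpow_sub_one₀ (by norm_num), e2, Complex.exp_add, Complex.exp_neg]
    generalize cexp (-(Real.pi * I * ((-(n : ℤ) : ℤ) : ℂ) ^ 2 * τ)
      - 2 * Real.pi * I * ((-(n : ℤ) : ℤ) : ℂ) * t) = B at ih ⊢
    have h0 : cexp (-(Real.pi * I * τ) - 2 * Real.pi * I * (t + ((-(n : ℤ) - 1 : ℤ) : ℂ) * τ)) ≠ 0 :=
      Complex.exp_ne_zero _
    generalize cexp (-(Real.pi * I * τ) - 2 * Real.pi * I * (t + ((-(n : ℤ) - 1 : ℤ) : ℂ) * τ)) = A
      at ih h0 ⊢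
    generalize th τ (t + ((-(n : ℤ) - 1 : ℤ) : ℂ) * τ) = X at ih ⊢
    have h1 : X = (-1 : ℂ)⁻¹ * A⁻¹ * (-A * X) := by
      field_simp
      try ring
    rw [h1, ih]
    ring

/-- T4a. PROOF. Induction on `m` and `n` (`Int.induction_on`, both directions) from `th_add_one`, `th_add_tau`. -/
theorem N0_shift (τ : ℂ) (hτ : 0 < τ.im) (m n : ℤ) (t : ℂ) :
    N0 τ (t + m + n * τ) = au τ m n t * N0 τ t := by
  unfold N0 au
  rw [T4_tau τ hτ, T4_int, zpow_add₀ (by norm_num)]
  have e : -(Real.pi * I * (n : ℂ) ^ 2 * τ) - 2 * Real.pi * I * n * (t + m) =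
      (-(Real.pi * I * (n : ℂ) ^ 2 * τ) - 2 * Real.pi * I * n * t) +
        ((-(n * m) : ℤ) : ℂ) * (2 * Real.pi * I) := by
    push_cast; ring
  rw [e, Complex.exp_add, Complex.exp_int_mul_two_pi_mul_I]
  ring

theorem T4_au_deriv (τ : ℂ) (m n : ℤ) (t : ℂ) :
    HasDerivAt (au τ m n) (-(2 * Real.pi * I * n) * au τ m n t) t := by
  have h1 : HasDerivAt (fun t : ℂ => -(Real.pi * I * (n : ℂ) ^ 2 * τ) - 2 * Real.pi * I * n * t)
      (0 - 2 * Real.pi * I * n * 1) t :=
    (hasDerivAt_const t _).sub ((hasDerivAt_id t).const_mul _)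
  have h2 := (h1.cexp).const_mul ((-1 : ℂ) ^ (m + n))
  refine h2.congr_deriv ?_
  unfold au
  ring

theorem T4_th_deriv (τ : ℂ) (hτ : 0 < τ.im) (t : ℂ) : HasDerivAt (th τ) (N1 τ t) t :=
  (th_differentiable τ hτ t).hasDerivAt

theorem T4_N1_deriv (τ : ℂ) (hτ : 0 < τ.im) (t : ℂ) :
    HasDerivAt (N1 τ) (deriv (deriv (th τ)) t) t := by
  have h : Differentiable ℂ (deriv (th τ)) := (th_differentiable τ hτ).deriv
  exact (h t).hasDerivAt

/-- T4b. PROOF. Differentiate T4a: `au' = -2πi n au`, `(d/dt) N0 τ (t+m+nτ) = N1 τ (t+m+nτ)`. -/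
theorem N1_shift (τ : ℂ) (hτ : 0 < τ.im) (m n : ℤ) (t : ℂ) :
    N1 τ (t + m + n * τ) = au τ m n t * (N1 τ t - 2 * Real.pi * I * n * N0 τ t) := by
  have h1 : HasDerivAt (fun t : ℂ => th τ (t + m + n * τ)) (N1 τ (t + m + n * τ)) t := by
    have h := (T4_th_deriv τ hτ (t + m + n * τ)).comp t
      (((hasDerivAt_id' t).add_const (m : ℂ)).add_const ((n : ℂ) * τ))
    exact h.congr_deriv (mul_one _)
  have h2 : HasDerivAt (fun t : ℂ => au τ m n t * th τ t)
      (-(2 * Real.pi * I * n) * au τ m n t * th τ t + au τ m n t * N1 τ t) t :=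
    (T4_au_deriv τ m n t).mul (T4_th_deriv τ hτ t)
  have h3 : (fun t : ℂ => th τ (t + m + n * τ)) = fun t : ℂ => au τ m n t * th τ t := by
    funext x
    exact N0_shift τ hτ m n x
  rw [h3] at h1
  rw [h1.unique h2]
  unfold N0
  ring

theorem T4_N1'_shift (τ : ℂ) (hτ : 0 < τ.im) (m n : ℤ) (t : ℂ) :
    deriv (deriv (th τ)) (t + m + n * τ) = au τ m n t * (deriv (deriv (th τ)) t
      - 2 * (2 * Real.pi * I * n) * N1 τ t + (2 * Real.pi * I * n) ^ 2 * N0 τ t) := by
  have h1 : HasDerivAt (fun t : ℂ => N1 τ (t + m + n * τ))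
      (deriv (deriv (th τ)) (t + m + n * τ)) t := by
    have h := (T4_N1_deriv τ hτ (t + m + n * τ)).comp t
      (((hasDerivAt_id' t).add_const (m : ℂ)).add_const ((n : ℂ) * τ))
    exact h.congr_deriv (mul_one _)
  have h2 : HasDerivAt (fun t : ℂ => au τ m n t * (N1 τ t - 2 * Real.pi * I * n * N0 τ t))
      (-(2 * Real.pi * I * n) * au τ m n t * (N1 τ t - 2 * Real.pi * I * n * N0 τ t) +
        au τ m n t * (deriv (deriv (th τ)) t - 2 * Real.pi * I * n * N1 τ t)) t :=
    (T4_au_deriv τ m n t).mul ((T4_N1_deriv τ hτ t).sub ((T4_th_deriv τ hτ t).const_mul _))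
  have h3 : (fun t : ℂ => N1 τ (t + m + n * τ)) =
      fun t : ℂ => au τ m n t * (N1 τ t - 2 * Real.pi * I * n * N0 τ t) := by
    funext x
    exact N1_shift τ hτ m n x
  rw [h3] at h1
  rw [h1.unique h2]
  ring

/-- T4c. PROOF. Differentiate once more: `th''(t+m+nτ) = au (th'' - 4πi n th' - 4π² n² th)` (`(2πi n)² = -4π²n²`); then
`(th' - c th)² - th (th'' - 2c th' + c² th) = th'² - th th''`, `c = 2πi n`. -/
theorem N2_shift (τ s : ℂ) (hτ : 0 < τ.im) (m n : ℤ) (t : ℂ) :
    N2 τ s (t + m + n * τ) = au τ m n t ^ 2 * N2 τ s t := by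
  have h0 := N0_shift τ hτ m n t
  have h1 := N1_shift τ hτ m n t
  have h2 := T4_N1'_shift τ hτ m n t
  have e : ∀ x, N2 τ s x = N1 τ x ^ 2 - N0 τ x * deriv (deriv (th τ)) x - s * N0 τ x ^ 2 :=
    fun x => rfl
  rw [e, e, h0, h1, h2]
  ring

/-- T4d. `|au|` : exact value. `|(-1)^{m+n}| = 1`, `Re(-πi n² τ - 2πi n t) = π n² Im τ + 2π n Im t`. -/
theorem norm_au (τ : ℂ) (m n : ℤ) (t : ℂ) :
    ‖au τ m n t‖ = Real.exp (Real.pi * (n : ℝ) ^ 2 * τ.im + 2 * Real.pi * n * t.im) := by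
  unfold au
  rw [norm_mul, norm_zpow, norm_neg, norm_one, one_zpow, one_mul, Complex.norm_exp]
  congr 1
  have e1 : ((n : ℂ) ^ 2) = (((n : ℝ) ^ 2 : ℝ) : ℂ) := by push_cast; rfl
  have e2 : (n : ℂ) = ((n : ℝ) : ℂ) := by push_cast; rfl
  rw [e1, e2]
  simp only [Complex.sub_re, Complex.neg_re, Complex.mul_re, Complex.mul_im, Complex.I_re,
    Complex.I_im, Complex.ofReal_re, Complex.ofReal_im, Complex.re_ofNat, Complex.im_ofNat]
  ring

end Pool.Agent.MSP
end

end

section

/-!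
# MP_f58a57_nt, algebraic points of degree 3 and 4: definitions

`z = rt 0` is an algebraic number of degree `d + 1` in the upper half plane, `z ^ (d + 1) = ∑ b_l z ^ l`. The space
`V = {t ∈ ℂ^(d+1) : ∑ z ^ l t_l = 0}` has the coordinates `v = (t_1, ..., t_d)`, the map `v ↦ t` is `tt z`.
-/

open Complex MvPolynomial IntermediateField

noncomputable section

namespace Pool.Agent.MSK

open MSD MSP

/-- an algebraic number `rt 0` of degree `d + 1` in the upper half plane, with its conjugates `rt i` and its equation -/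
structure Par (d : ℕ) where
  rt : Fin (d + 1) → ℂ
  b : Fin (d + 1) → ℚ
  inj : Function.Injective rt
  rel : ∀ i, rt i ^ (d + 1) = ∑ l : Fin (d + 1), (b l : ℂ) * rt i ^ l.val
  im : 0 < (rt 0).im
  li : ∀ x : Fin (d + 1) → ℚ, ∑ l : Fin (d + 1), (x l : ℂ) * rt 0 ^ l.val = 0 → x = 0

/-- the algebraic number -/
def Par.z {d : ℕ} (P : Par d) : ℂ := P.rt 0

/-- the point of `V` with coordinates `v` -/
def tt {d : ℕ} (z : ℂ) (v : Fin d → ℂ) : Fin (d + 1) → ℂ :=
  Fin.cons (-∑ j : Fin d, z ^ (j.val + 1) * v j) v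

/-- `1/(2i)` -/
def rh : ℂ := -I / 2

/-- a curve with period ratio `τ`, a scaling `om`, a constant `kap` and `d + 1` base points `h l` -/
structure Dt (d : ℕ) where
  τ : ℂ
  im : 0 < τ.im
  om : ℂ
  ne : om ≠ 0
  kap : ℂ
  h : Fin (d + 1) → ℂ
  hh : ∀ l, th τ (h l) ≠ 0

variable {d : ℕ}

namespace Dt

/-- the Weierstrass function of the lattice `om (ℤ + ℤτ)` at the point `om (h l + t)` -/
def X (D : Dt d) (l : Fin (d + 1)) (t : ℂ) : ℂ := wp D.τ (sE D.τ) (D.h l + t) / D.om ^ 2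

/-- its derivative -/
def Y (D : Dt d) (l : Fin (d + 1)) (t : ℂ) : ℂ := deriv (wp D.τ (sE D.τ)) (D.h l + t) / D.om ^ 3

/-- the logarithmic derivative of the theta function, normalised to vanish at `t = 0` -/
def ps (D : Dt d) (l : Fin (d + 1)) (t : ℂ) : ℂ := ph D.τ (D.h l + t) - ph D.τ (D.h l)

/-- the parameter of the linear part of the additive functions -/
def s (D : Dt d) : ℂ := rh * (D.kap - sE D.τ / D.om ^ 2)

end Dt

/-- the linear part of the additive functions: `t_j + s (t_{j-1} + b_j t_d - z t_j)`, `t = tt z w`, `j = 1, ..., d` -/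
def As (P : Par d) (s : ℂ) (w : Fin d → ℂ) (j : Fin d) : ℂ :=
  tt P.z w j.succ + s * (tt P.z w j.castSucc + P.b j.succ * tt P.z w (Fin.last d) - P.z * tt P.z w j.succ)

/-- the additive functions, as functions of two independent sets of variables `w` (linear part) and `t` -/
def Xi (P : Par d) (D : Dt d) (w : Fin d → ℂ) (t : Fin (d + 1) → ℂ) (j : Fin d) : ℂ :=
  D.om * As P D.s w j - rh / D.om * (D.ps j.castSucc (t j.castSucc) + P.b j.succ * D.ps (Fin.last d) (t (Fin.last d))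
    - P.z * D.ps j.succ (t j.succ))

/-- index set of the monomials -/
abbrev Ix (d L : ℕ) : Type := (Fin (d + 1) → Fin L) × (Fin d → Fin L)

/-- the monomial functions -/
def mon (P : Par d) (D : Dt d) {L : ℕ} (ν : Ix d L) (w : Fin d → ℂ) (t : Fin (d + 1) → ℂ) : ℂ :=
  (∏ l, D.X l (t l) ^ (ν.1 l).val) * ∏ j, Xi P D w t j ^ (ν.2 j).val

/-- the auxiliary function in the independent variables `w, t` -/
def Fh (P : Par d) (D : Dt d) {L : ℕ} (c : Ix d L → ℂ) (w : Fin d → ℂ) (t : Fin (d + 1) → ℂ) : ℂ :=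
  ∑ ν, c ν * mon P D ν w t

/-- the auxiliary function on `V` -/
def FF (P : Par d) (D : Dt d) {L : ℕ} (c : Ix d L → ℂ) (v : Fin d → ℂ) : ℂ := Fh P D c v (tt P.z v)

/-- the product of the theta functions -/
def pp (D : Dt d) (t : Fin (d + 1) → ℂ) : ℂ := ∏ l, N0 D.τ (D.h l + t l)

/-- `ps l` times `pp` -/
def En (D : Dt d) (t : Fin (d + 1) → ℂ) (l : Fin (d + 1)) : ℂ :=
  (N1 D.τ (D.h l + t l) - ph D.τ (D.h l) * N0 D.τ (D.h l + t l)) * ∏ m ∈ Finset.univ.erase l, N0 D.τ (D.h m + t m)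

/-- `Xi j` times `pp` -/
def Zn (P : Par d) (D : Dt d) (w : Fin d → ℂ) (t : Fin (d + 1) → ℂ) (j : Fin d) : ℂ :=
  D.om * As P D.s w j * pp D t - rh / D.om * (En D t j.castSucc + P.b j.succ * En D t (Fin.last d) - P.z * En D t j.succ)

/-- the monomial `mon ν` times `pp ^ ((d + 2) L)`, an entire function -/
def gmon (P : Par d) (D : Dt d) {L : ℕ} (ν : Ix d L) (w : Fin d → ℂ) (t : Fin (d + 1) → ℂ) : ℂ :=
  (∏ l, ((N2 D.τ (sE D.τ) (D.h l + t l) / D.om ^ 2) ^ (ν.1 l).val * N0 D.τ (D.h l + t l) ^ (2 * (L - (ν.1 l).val)))) *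
    ∏ j, (Zn P D w t j ^ (ν.2 j).val * pp D t ^ (L - (ν.2 j).val))

/-! ### The differential ring -/

/-- variables of the differential ring -/
inductive Vr (d : ℕ) : Type
  | X (l : Fin (d + 1)) : Vr d
  | Y (l : Fin (d + 1)) : Vr d
  | Q (j : Fin d) : Vr d
  | b (l : Fin (d + 1)) : Vr d
  | g : Vr d
  | k : Vr d
  | z : Vr d
  | r : Vr d
  deriving DecidableEq, Fintype

/-- the coordinates of `tt z a` as polynomials -/
def ca (a : Fin d → ℤ) : Fin (d + 1) → MvPolynomial (Vr d) ℤ :=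
  Fin.cons (-∑ j : Fin d, MvPolynomial.X Vr.z ^ (j.val + 1) * MvPolynomial.C (a j)) (fun j => MvPolynomial.C (a j))

/-- the derivatives of the variables in the direction `a`, divided by `om` -/
def dv (a : Fin d → ℤ) : Vr d → MvPolynomial (Vr d) ℤ
  | .X l => ca a l * MvPolynomial.X (Vr.Y l)
  | .Y l => ca a l * (6 * MvPolynomial.X (Vr.X l) ^ 2 - MvPolynomial.X Vr.g)
  | .Q j => MvPolynomial.C (a j) - MvPolynomial.X Vr.r *
      (-(ca a j.castSucc * (MvPolynomial.X (Vr.X j.castSucc) + MvPolynomial.X Vr.k))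
        - MvPolynomial.X (Vr.b j.succ) * (ca a (Fin.last d) * (MvPolynomial.X (Vr.X (Fin.last d)) + MvPolynomial.X Vr.k))
        + MvPolynomial.X Vr.z * (ca a j.succ * (MvPolynomial.X (Vr.X j.succ) + MvPolynomial.X Vr.k)))
  | .b _ => 0
  | .g => 0
  | .k => 0
  | .z => 0
  | .r => 0

/-- the derivation in the direction `a` -/
def der (a : Fin d → ℤ) : Derivation ℤ (MvPolynomial (Vr d) ℤ) (MvPolynomial (Vr d) ℤ) := MvPolynomial.mkDerivation ℤ (dv a)

/-- the monomials in the differential ring -/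
def Mon {L : ℕ} (ν : Ix d L) : MvPolynomial (Vr d) ℤ :=
  (∏ l, MvPolynomial.X (Vr.X l) ^ (ν.1 l).val) * ∏ j, MvPolynomial.X (Vr.Q j) ^ (ν.2 j).val

/-- the values of the variables at the point `ζ a` -/
def ev (P : Par d) (D : Dt d) (a : Fin d → ℤ) (ζ : ℂ) : Vr d → ℂ
  | .X l => D.X l (ζ * tt P.z (fun j => (a j : ℂ)) l)
  | .Y l => D.Y l (ζ * tt P.z (fun j => (a j : ℂ)) l)
  | .Q j => Xi P D (fun i => ζ * a i) (fun l => ζ * tt P.z (fun i => (a i : ℂ)) l) j
  | .b l => P.b l
  | .g => 2 / 3 * Real.pi ^ 4 * e4 D.τ / D.om ^ 4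
  | .k => D.kap
  | .z => P.z
  | .r => rh

/-- the values of the variables at the base point -/
def vals (P : Par d) (D : Dt d) : Vr d → ℂ
  | .X l => D.X l 0
  | .Y l => D.Y l 0
  | .Q _ => 0
  | .b l => P.b l
  | .g => 2 / 3 * Real.pi ^ 4 * e4 D.τ / D.om ^ 4
  | .k => D.kap
  | .z => P.z
  | .r => rh

/-! ### The original curve -/

/-- the base points: halves of lattice vectors -/
def hP (z : ℂ) (l : Fin (d + 1)) : ℂ := if l = 0 then -z / 2 else if l = Fin.last d then 1 / 2 else (1 - z) / 2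

/-- the coordinates of the base point in `V` -/
def p0 (z : ℂ) (j : Fin d) : ℂ := hP z j.succ

/-- `D` is the curve with period ratio `z`, scaled by a square root of `π` -/
structure IsOrig (P : Par d) (D : Dt d) : Prop where
  τ : D.τ = P.z
  om : D.om ^ 2 = Real.pi
  kap : D.kap = sE P.z / Real.pi
  h : D.h = hP P.z

/-! ### Specialised curves -/

/-- admissible data for the specialisation `τ = iy` -/
structure Adm (C₀ y : ℝ) (P : Par d) (D : Dt d) : Prop where
  τ : D.τ = I * y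
  h : ∀ l, D.h l = 1 / 2 ∨ D.h l = D.τ / 2 ∨ D.h l = (1 + D.τ) / 2
  om₁ : ‖D.om‖ ≤ Real.exp (C₀ * y)
  om₂ : Real.exp (-(C₀ * y)) ≤ ‖D.om‖
  kap : ‖D.kap‖ ≤ Real.exp (C₀ * y)
  det : ∀ i, i ≠ 0 → Real.exp (-(C₀ * y)) ≤ ‖1 + D.s * (P.rt i - P.z)‖

/-! ### Exponential polynomials -/

/-- index set of the exponential polynomials: exponents `≤ K` and frequencies `|ω_l| ≤ W` -/
abbrev Jx (d K W : ℕ) : Type := (Fin d → Fin (K + 1)) × (Fin (d + 1) → Fin (2 * W + 1))

/-- the frequency with index `i` -/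
def fr {W : ℕ} (i : Fin (2 * W + 1)) : ℤ := (i.val : ℤ) - W

/-- exponential polynomials in the independent variables `w, t` -/
def EP {K W : ℕ} (H : Jx d K W → ℂ) (w : Fin d → ℂ) (t : Fin (d + 1) → ℂ) : ℂ :=
  ∑ x, H x * (∏ j, w j ^ (x.1 j).val) * ee (∑ l, (fr (x.2 l) : ℂ) * t l)

/-- the frequency vector on `V`: `ee (∑ ω_l t_l) = exp (∑ mu_j v_j)` for `t = tt z v` -/
def mu (z : ℂ) {W : ℕ} (ω : Fin (d + 1) → Fin (2 * W + 1)) (j : Fin d) : ℂ :=
  2 * Real.pi * I * ((fr (ω j.succ) : ℂ) - z ^ (j.val + 1) * fr (ω 0))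

/-- the functional on polynomials in `d` variables attached to an exponential polynomial: `Q ↦ ∑ H κ! [X^κ] Q(X + mu)` -/
def Ph (z : ℂ) {K W : ℕ} (H : Jx d K W → ℂ) (Q : MvPolynomial (Fin d) ℂ) : ℂ :=
  ∑ x, H x * (∏ j, ((x.1 j).val.factorial : ℂ)) *
    MvPolynomial.coeff (Finsupp.equivFunOnFinite.symm (fun j => (x.1 j).val))
      (MvPolynomial.aeval (fun j => MvPolynomial.X j + MvPolynomial.C (mu z x.2 j)) Q)

/-! ### Geometry of the lattice -/

/-- the integer parts `m_l` of the lattice vector with coefficients `n_l` of `z` -/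
def mm (b : Fin (d + 1) → ℚ) (n : Fin (d + 1) → ℝ) : Fin (d + 1) → ℝ :=
  Fin.cons (-(b 0 : ℝ) * n (Fin.last d)) (fun j => -n j.castSucc - (b j.succ : ℝ) * n (Fin.last d))

/-- the point `(m_j + n_j z)_j` of the real span of the lattice -/
def gam (P : Par d) (n : Fin (d + 1) → ℝ) (j : Fin d) : ℂ := mm P.b n j.succ + n j.succ * P.z

/-- the real coordinates `Im t_l / Im z` -/
def nn (P : Par d) (v : Fin d → ℂ) (l : Fin (d + 1)) : ℝ := (tt P.z v l).im / P.z.im

/-- the real coordinates transversal to the real span of the lattice -/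
def ro (P : Par d) (v : Fin d → ℂ) (l : Fin (d + 1)) : ℝ :=
  (tt P.z v l).re - (mm P.b (nn P v) l + nn P v l * P.z.re)

/-- `∑_{l ≥ 2} ro_l ^ 2` -/
def P2 (P : Par d) (v : Fin d → ℂ) : ℝ := ∑ l : Fin (d + 1), if 2 ≤ l.val then ro P v l ^ 2 else 0

/-- the quadratic form `π (∑ (Im t_l)² / Im z + P2)` -/
def Qf (P : Par d) (v : Fin d → ℂ) : ℝ := Real.pi * (∑ l, (tt P.z v l).im ^ 2 / P.z.im + P2 P v)

/-- the normalised absolute value of `G` -/
def Nn (P : Par d) (M : ℕ) (G : (Fin d → ℂ) → ℂ) (v : Fin d → ℂ) : ℝ := ‖G v‖ * Real.exp (-(M * Qf P v))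

/-! ### Embeddings -/

/-- the algebraic closure of `ℚ(θ)` in `ℂ` -/
abbrev Kc (θ : ℂ) : IntermediateField ℚ⟮θ⟯ ℂ := algebraicClosure ℚ⟮θ⟯ ℂ

/-- a ring homomorphism `Kc θ → ℂ` with `θ ↦ θ'` which fixes the algebraic numbers -/
structure Emb (θ θ' : ℂ) where
  σ : Kc θ →+* ℂ
  th : ∀ x : Kc θ, (x : ℂ) = θ → σ x = θ'
  al : ∀ x : Kc θ, IsAlgebraic ℚ (x : ℂ) → σ x = x

/-- `e2 e4 / e6` at `iy` -/
def phi (y : ℝ) : ℂ := e2 (I * y) * e4 (I * y) / e6 (I * y)

/-- the values of the original curve lie in `Kc θ` -/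
def InK (θ : ℂ) (P : Par d) (D : Dt d) : Prop := ∀ v : Vr d, IsAlgebraic ℚ⟮θ⟯ (vals P D v)

/-! ### More auxiliary functions -/

/-- the exponential sum with coefficients `c` -/
def ES (z : ℂ) {W : ℕ} (c : (Fin (d + 1) → Fin (2 * W + 1)) → ℂ) (v : Fin d → ℂ) : ℂ :=
  ∑ ω, c ω * cexp (∑ j, mu z ω j * v j)

/-- the sum of the absolute values of the coefficients -/
def cl {σ : Type*} (p : MvPolynomial σ ℂ) : ℝ := ∑ m ∈ p.support, ‖p.coeff m‖

/-- the linear form which represents `Xi j`: variables `inl j = w_j`, `inr l = ps_l` -/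
def lin (P : Par d) (D : Dt d) (j : Fin d) : MvPolynomial (Fin d ⊕ Fin (d + 1)) ℂ :=
  (∑ i : Fin d, MvPolynomial.C (D.om * As P D.s (Pi.single i 1) j) * MvPolynomial.X (Sum.inl i))
    - MvPolynomial.C (rh / D.om) * (MvPolynomial.X (Sum.inr j.castSucc) + MvPolynomial.C (P.b j.succ : ℂ) * MvPolynomial.X (Sum.inr (Fin.last d))
      - MvPolynomial.C P.z * MvPolynomial.X (Sum.inr j.succ))

/-- the entire function in absolute coordinates (the base point is `p0`) -/
def Gab (P : Par d) (D : Dt d) {L : ℕ} (c : Ix d L → ℂ) (v : Fin d → ℂ) : ℂ :=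
  ∑ ν, c ν * gmon P D ν (fun j => v j - p0 P.z j) (tt P.z (fun j => v j - p0 P.z j))

end Pool.Agent.MSK
end

end

section

/-!
# MP_f58a57_nt, algebraic points of every degree at least 3: definitions

`z = rt 0` is an algebraic number of degree `d + 1` in the upper half plane. The auxiliary functions are combinations of the
functions `Rp κ`, `κ ∈ {0, ..., E-1}^d`, which have simple poles and are of degree `|κ|` in the additive functions.
-/

open Complex IntermediateField

noncomputable section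

namespace Pool.Agent.MSR

open MSD MSP MSK

variable {d : ℕ}

/-! ### The algebraic side -/

/-- the coefficient of the quasi periodic function with index `l` in the additive function with index `j`, as a polynomial -/
def rhp (l : Fin (d + 1)) (j : Fin d) : MvPolynomial (Vr d) ℤ :=
  MvPolynomial.X Vr.r * ((if l = j.castSucc then 1 else 0) + (if l = Fin.last d then MvPolynomial.X (Vr.b j.succ) else 0)
    - (if l = j.succ then MvPolynomial.X Vr.z else 0))

/-- its value -/
def rhv (P : Par d) (l : Fin (d + 1)) (j : Fin d) : ℂ :=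
  rh * ((if l = j.castSucc then 1 else 0) + (if l = Fin.last d then (P.b j.succ : ℂ) else 0) - (if l = j.succ then P.z else 0))

/-- the values of the derivation `dlt j` at the variables -/
def dlv (j : Fin d) : Vr d → MvPolynomial (Vr d) ℤ
  | .X l => -(rhp l j * MvPolynomial.X (Vr.Y l))
  | .Y l => -(rhp l j * (6 * MvPolynomial.X (Vr.X l) ^ 2 - MvPolynomial.X Vr.g))
  | .Q i => -∑ l, rhp l i * rhp l j * MvPolynomial.X (Vr.X l)
  | .b _ => 0
  | .g => 0
  | .k => 0
  | .z => 0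
  | .r => 0

/-- the derivation of the variable `ξ_j` -/
def dlt (j : Fin d) : Derivation ℤ (MvPolynomial (Vr d) ℤ) (MvPolynomial (Vr d) ℤ) := MvPolynomial.mkDerivation ℤ (dlv j)

/-- the covariant derivative -/
def nab (j : Fin d) (R : MvPolynomial (Vr d) ℤ) : MvPolynomial (Vr d) ℤ := dlt j R + MvPolynomial.X (Vr.Q j) * R

/-- the functions with simple poles, as polynomials in the variables of the differential ring -/
def Rp (κ : Fin d → ℕ) : MvPolynomial (Vr d) ℤ := (List.finRange d).foldr (fun j R => (nab j)^[κ j] R) 1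

/-- the operators on polynomials in `u_1, ..., u_d` which correspond to `nab j` -/
def bb (q : Fin d → Fin d → ℂ) (j : Fin d) (B : MvPolynomial (Fin d) ℂ) : MvPolynomial (Fin d) ℂ :=
  MvPolynomial.X j * B + ∑ i, MvPolynomial.C (q i j) * MvPolynomial.pderiv i B

/-- the polynomials which correspond to `Rp κ` -/
def Bp (q : Fin d → Fin d → ℂ) (κ : Fin d → ℕ) : MvPolynomial (Fin d) ℂ :=
  (List.finRange d).foldr (fun j B => (bb q j)^[κ j] B) 1

/-- sum of the absolute values of the coefficients, with the weight `ρ ^ degree` -/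
def nm {σ : Type} (ρ : ℝ) (B : MvPolynomial σ ℂ) : ℝ := ∑ m ∈ B.support, ‖B.coeff m‖ * ρ ^ (m.sum fun _ e => e)

/-! ### The analytic side -/

/-- the values of the variables for independent `W` (linear part of the additive functions) and `t` -/
def evW (P : Par d) (D : Dt d) (W : Fin d → ℂ) (t : Fin (d + 1) → ℂ) : Vr d → ℂ
  | .X l => D.X l (t l)
  | .Y l => D.Y l (t l)
  | .Q j => W j - 1 / D.om * ∑ l, rhv P l j * D.ps l (t l)
  | .b l => P.b l
  | .g => 2 / 3 * Real.pi ^ 4 * e4 D.τ / D.om ^ 4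
  | .k => D.kap
  | .z => P.z
  | .r => rh

/-- the quadratic form of the heat type correction -/
def qq (P : Par d) (D : Dt d) (i j : Fin d) : ℂ := sE D.τ / D.om ^ 2 * ∑ l, rhv P l i * rhv P l j

/-- the constant in the additive functions -/
def lam (P : Par d) (D : Dt d) (j : Fin d) : ℂ := 1 / D.om * ∑ l, rhv P l j * ph D.τ (D.h l)

/-- the linear functional `X^m ↦ ∏ th^(m_l)(h_l + t_l)` -/
def TH (D : Dt d) (t : Fin (d + 1) → ℂ) (q : MvPolynomial (Fin (d + 1)) ℂ) : ℂ :=
  ∑ m ∈ q.support, q.coeff m * ∏ l, iteratedDeriv (m l) (th D.τ) (D.h l + t l)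

/-- the linear polynomials `W_j + lam_j - (1/om) ∑ rho_lj X_l` -/
def lin (P : Par d) (D : Dt d) (W : Fin d → ℂ) (j : Fin d) : MvPolynomial (Fin (d + 1)) ℂ :=
  MvPolynomial.C (W j + lam P D j) - MvPolynomial.C (1 / D.om) * ∑ l, MvPolynomial.C (rhv P l j) * MvPolynomial.X l

/-- the linear part of the additive functions on `V` -/
def WV (P : Par d) (D : Dt d) (v : Fin d → ℂ) (j : Fin d) : ℂ := D.om * As P D.s v j

/-- index set of the functions -/
abbrev Ir (d E : ℕ) : Type := Fin d → Fin E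

/-- the polynomial in `u` of the auxiliary function -/
def Cs (P : Par d) (D : Dt d) {E : ℕ} (c : Ir d E → ℂ) : MvPolynomial (Fin d) ℂ :=
  ∑ κ, MvPolynomial.C (c κ) * Bp (qq P D) (fun j => (κ j).val)

/-- the auxiliary function on `V` -/
def FR (P : Par d) (D : Dt d) {E : ℕ} (c : Ir d E → ℂ) (v : Fin d → ℂ) : ℂ :=
  ∑ κ, c κ * MvPolynomial.aeval (evW P D (WV P D v) (tt P.z v)) (Rp (fun j => (κ j).val))

/-- the entire function `FR * pp` -/
def GR (P : Par d) (D : Dt d) {E : ℕ} (c : Ir d E → ℂ) (v : Fin d → ℂ) : ℂ :=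
  TH D (tt P.z v) (MvPolynomial.aeval (lin P D (WV P D v)) (Cs P D c))

/-- the entire function in absolute coordinates -/
def GA (P : Par d) (D : Dt d) {E : ℕ} (c : Ir d E → ℂ) (v : Fin d → ℂ) : ℂ := GR P D c (fun j => v j - p0 P.z j)

/-! ### The zero estimate -/

/-- the coefficient of the linear part of the additive eigenfunctions -/
def eps (P : Par d) (D : Dt d) (k : Fin d) : ℂ :=
  D.om ^ 2 * (1 + D.s * (P.rt k.succ - P.z)) / (rh * (P.rt k.succ - P.z))

/-- the two types of specialised curves -/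
def Typ (δ a y : ℝ) (P : Par d) (D : Dt d) : Prop :=
  (∀ k k' : Fin d, k ≠ k' → δ ≤ ‖eps P D k‖ ∨ δ ≤ ‖eps P D k'‖) ∨ ∀ k : Fin d, ‖eps P D k‖ ≤ Real.exp (-(a * y))

/-- the eigencoordinates `∑ z_k^j t_j` -/
def eg (P : Par d) (t : Fin (d + 1) → ℂ) (k : Fin d) : ℂ := ∑ j : Fin (d + 1), P.rt k.succ ^ j.val * t j

/-- the linear polynomials `r_k w_k - (1/s_k) ∑ z_k^j X_j` -/
def lin' (P : Par d) (r s w : Fin d → ℂ) (k : Fin d) : MvPolynomial (Fin (d + 1)) ℂ :=
  MvPolynomial.C (r k * w k) - MvPolynomial.C (1 / s k) * ∑ j : Fin (d + 1), MvPolynomial.C (P.rt k.succ ^ j.val) * MvPolynomial.X j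

/-- the coefficients of the theta series at a half period: `(-1)^n p^(n(n+1)/2) e((n+1/2)h)`, `p = e(τ)` -/
def vt (τ h : ℂ) (n : ℤ) : ℂ := (-1) ^ n * ee (τ * (n * (n + 1) / 2) + (n + 1 / 2) * h)

/-- the integer with index `i` in `{-W, ..., W - 1}` -/
def hf {W : ℕ} (i : Fin (2 * W)) : ℤ := (i.val : ℤ) - W

/-- the vector `(2 π i / s_k) ∑ z_k^j (n_j + 1/2)` -/
def sg (P : Par d) (s : Fin d → ℂ) (n : Fin (d + 1) → ℤ) (k : Fin d) : ℂ :=
  2 * Real.pi * I / s k * ∑ j : Fin (d + 1), P.rt k.succ ^ j.val * ((n j : ℂ) + 1 / 2)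

/-- Taylor shift of a polynomial -/
def sh (σ : Fin d → ℂ) (B : MvPolynomial (Fin d) ℂ) : MvPolynomial (Fin d) ℂ :=
  MvPolynomial.aeval (fun j => MvPolynomial.X j + MvPolynomial.C (σ j)) B

/-- the normalising constant of the theta series at `τ = iy` -/
def kt (y : ℝ) : ℂ := th (I * y) (1 / 2) / ∑' n : ℤ, (-1) ^ n * ee (I * y * (n * (n + 1) / 2) + (n + 1 / 2) * (1 / 2))

end Pool.Agent.MSR
end

end

section

/-! # R/A5_Nm: weighted norms of polynomials -/

open Complex Filter Topology IntermediateField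

noncomputable section

namespace Pool.Agent.MSR

open MSD MSP MSK

variable {d : ℕ}

theorem nm_nonneg {σ : Type} (ρ : ℝ) (hρ : 0 ≤ ρ) (B : MvPolynomial σ ℂ) : 0 ≤ nm ρ B :=
  Finset.sum_nonneg fun _ _ => mul_nonneg (norm_nonneg _) (pow_nonneg hρ _)

/-- A5a. a sum over a larger set of exponents -/
theorem nm_eq {σ : Type} (ρ : ℝ) (B : MvPolynomial σ ℂ) (s : Finset (σ →₀ ℕ)) (h : B.support ⊆ s) :
    nm ρ B = ∑ m ∈ s, ‖B.coeff m‖ * ρ ^ (m.sum fun _ e => e) := by
  unfold nm
  refine Finset.sum_subset h fun m _ hm => ?_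
  rw [MvPolynomial.notMem_support_iff] at hm
  rw [hm, norm_zero, zero_mul]

theorem nm_add {σ : Type} (ρ : ℝ) (hρ : 0 ≤ ρ) (A B : MvPolynomial σ ℂ) : nm ρ (A + B) ≤ nm ρ A + nm ρ B := by
  classical
  have h1 : (A + B).support ⊆ A.support ∪ B.support := MvPolynomial.support_add
  rw [nm_eq ρ (A + B) (A.support ∪ B.support) h1, nm_eq ρ A (A.support ∪ B.support) Finset.subset_union_left,
    nm_eq ρ B (A.support ∪ B.support) Finset.subset_union_right, ← Finset.sum_add_distrib]
  refine Finset.sum_le_sum fun m _ => ?_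
  rw [← add_mul, MvPolynomial.coeff_add]
  exact mul_le_mul_of_nonneg_right (norm_add_le _ _) (pow_nonneg hρ _)

theorem a5_zero {σ : Type} (ρ : ℝ) : nm ρ (0 : MvPolynomial σ ℂ) = 0 := by
  unfold nm
  rw [MvPolynomial.support_zero, Finset.sum_empty]

theorem nm_sum {σ ι : Type} (ρ : ℝ) (hρ : 0 ≤ ρ) (s : Finset ι) (B : ι → MvPolynomial σ ℂ) : nm ρ (∑ i ∈ s, B i) ≤ ∑ i ∈ s, nm ρ (B i) := by
  classical
  induction s using Finset.induction_on with
  | empty => rw [Finset.sum_empty, Finset.sum_empty, a5_zero]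
  | insert a s ha ih =>
    rw [Finset.sum_insert ha, Finset.sum_insert ha]
    exact (nm_add ρ hρ _ _).trans (add_le_add le_rfl ih)

theorem a5_monomial {σ : Type} (ρ : ℝ) (m : σ →₀ ℕ) (a : ℂ) :
    nm ρ (MvPolynomial.monomial m a) = ‖a‖ * ρ ^ (m.sum fun _ e => e) := by
  classical
  rw [nm_eq ρ _ {m} MvPolynomial.support_monomial_subset, Finset.sum_singleton, MvPolynomial.coeff_monomial, if_pos rfl]

/-- A5b. PROOF. `A B = ∑_m ∑_n monomial (m + n) (a_m b_n)` and the triangle inequality. (Compare `mlen_mul` in P/A1_Len.) -/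
theorem nm_mul {σ : Type} (ρ : ℝ) (hρ : 0 ≤ ρ) (A B : MvPolynomial σ ℂ) : nm ρ (A * B) ≤ nm ρ A * nm ρ B := by
  classical
  have e : A * B = ∑ m ∈ A.support, ∑ n ∈ B.support, MvPolynomial.monomial (m + n) (A.coeff m * B.coeff n) := by
    conv_lhs => rw [A.as_sum, B.as_sum, Finset.sum_mul_sum]
    refine Finset.sum_congr rfl fun m _ => Finset.sum_congr rfl fun n _ => ?_
    rw [MvPolynomial.monomial_mul]
  rw [e]
  refine (nm_sum ρ hρ _ _).trans ?_
  have h : nm ρ A * nm ρ B = ∑ i ∈ A.support, ∑ j ∈ B.support,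
      (‖A.coeff i‖ * ρ ^ (i.sum fun _ e => e)) * (‖B.coeff j‖ * ρ ^ (j.sum fun _ e => e)) := by
    unfold nm
    rw [Finset.sum_mul_sum]
  rw [h]
  refine Finset.sum_le_sum fun i _ => ?_
  refine (nm_sum ρ hρ _ _).trans ?_
  refine Finset.sum_le_sum fun j _ => ?_
  rw [a5_monomial, norm_mul, Finsupp.sum_add_index' (fun _ => rfl) (fun _ _ _ => rfl), pow_add]
  exact le_of_eq (by ring)

theorem nm_C {σ : Type} (ρ : ℝ) (a : ℂ) : nm ρ (MvPolynomial.C a : MvPolynomial σ ℂ) = ‖a‖ := by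
  have h := a5_monomial (σ := σ) ρ 0 a
  rw [Finsupp.sum_zero_index, pow_zero, mul_one] at h
  exact h

theorem nm_X {σ : Type} (ρ : ℝ) (i : σ) : nm ρ (MvPolynomial.X i : MvPolynomial σ ℂ) = ρ := by
  have h := a5_monomial (σ := σ) ρ (Finsupp.single i 1) 1
  rw [Finsupp.sum_single_index rfl, pow_one, norm_one, one_mul] at h
  exact h

theorem a5_pow {σ : Type} (ρ ρ' : ℝ) (hρ : 0 ≤ ρ) (A : MvPolynomial σ ℂ) (h : nm ρ A ≤ ρ') (n : ℕ) : nm ρ (A ^ n) ≤ ρ' ^ n := by
  induction n with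
  | zero =>
    have h1 := nm_C (σ := σ) ρ 1
    rw [map_one, norm_one] at h1
    rw [pow_zero, pow_zero, h1]
  | succ n ih =>
    rw [pow_succ, pow_succ]
    exact (nm_mul ρ hρ _ _).trans (mul_le_mul ih h (nm_nonneg ρ hρ _) (pow_nonneg ((nm_nonneg ρ hρ _).trans h) _))

theorem a5_prod {σ τ : Type} (ρ : ℝ) (hρ : 0 ≤ ρ) (s : Finset σ) (g : σ → MvPolynomial τ ℂ) (b : σ → ℝ) (hg : ∀ i ∈ s, nm ρ (g i) ≤ b i) :
    nm ρ (∏ i ∈ s, g i) ≤ ∏ i ∈ s, b i := by
  classical
  induction s using Finset.induction_on with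
  | empty =>
    have h1 := nm_C (σ := τ) ρ 1
    rw [map_one, norm_one] at h1
    rw [Finset.prod_empty, Finset.prod_empty, h1]
  | insert a s ha ih =>
    rw [Finset.prod_insert ha, Finset.prod_insert ha]
    exact (nm_mul ρ hρ _ _).trans (mul_le_mul (hg a (Finset.mem_insert_self _ _)) (ih fun i hi => hg i (Finset.mem_insert_of_mem hi))
      (nm_nonneg ρ hρ _) ((nm_nonneg ρ hρ _).trans (hg a (Finset.mem_insert_self _ _))))

/-- A5c. PROOF. `aeval f B = ∑_m C(b_m) ∏ f_i^(m_i)`, `nm_sum`, `nm_mul`. -/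
theorem nm_aeval {σ τ : Type} (ρ ρ' : ℝ) (hρ : 0 ≤ ρ) (f : σ → MvPolynomial τ ℂ) (hf : ∀ i, nm ρ (f i) ≤ ρ') (B : MvPolynomial σ ℂ) :
    nm ρ (MvPolynomial.aeval f B) ≤ nm ρ' B := by
  have e : MvPolynomial.aeval f B = ∑ m ∈ B.support, MvPolynomial.C (B.coeff m) * ∏ i ∈ m.support, f i ^ m i := by
    rw [MvPolynomial.aeval_def, MvPolynomial.eval₂_eq]
    rfl
  rw [e]
  refine (nm_sum ρ hρ _ _).trans ?_
  unfold nm
  refine Finset.sum_le_sum fun m _ => ?_
  change nm ρ _ ≤ _
  refine (nm_mul ρ hρ _ _).trans ?_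
  rw [nm_C]
  refine mul_le_mul_of_nonneg_left ?_ (norm_nonneg _)
  refine (a5_prod ρ hρ m.support _ (fun i => ρ' ^ m i) fun i _ => a5_pow ρ ρ' hρ _ (hf i) _).trans ?_
  rw [Finset.prod_pow_eq_pow_sum]
  exact le_of_eq rfl

theorem coeff_le_nm {σ : Type} (B : MvPolynomial σ ℂ) (m : σ →₀ ℕ) : ‖B.coeff m‖ ≤ nm 1 B := by
  by_cases h : m ∈ B.support
  · have h1 := Finset.single_le_sum (f := fun m => ‖B.coeff m‖ * (1 : ℝ) ^ (m.sum fun _ e => e))
      (fun i _ => mul_nonneg (norm_nonneg _) (pow_nonneg zero_le_one _)) h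
    simp only [one_pow, mul_one] at h1
    unfold nm
    simp only [one_pow, mul_one]
    exact h1
  · rw [MvPolynomial.notMem_support_iff] at h
    rw [h, norm_zero]
    exact nm_nonneg 1 zero_le_one B

theorem nm_mono {σ : Type} (ρ ρ' : ℝ) (hρ : 0 ≤ ρ) (h : ρ ≤ ρ') (B : MvPolynomial σ ℂ) : nm ρ B ≤ nm ρ' B :=
  Finset.sum_le_sum fun _ _ => mul_le_mul_of_nonneg_left (pow_le_pow_left₀ hρ h _) (norm_nonneg _)

theorem nm_le_pow {σ : Type} (ρ : ℝ) (hρ : 1 ≤ ρ) (n : ℕ) (B : MvPolynomial σ ℂ) (hB : B.totalDegree ≤ n) : nm ρ B ≤ ρ ^ n * nm 1 B := by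
  unfold nm
  rw [Finset.mul_sum]
  refine Finset.sum_le_sum fun m hm => ?_
  rw [one_pow, mul_one, mul_comm]
  refine mul_le_mul_of_nonneg_right (pow_le_pow_right₀ hρ ?_) (norm_nonneg _)
  exact (MvPolynomial.le_totalDegree hm).trans hB

theorem eval_le_nm {σ : Type} [Fintype σ] (ρ : ℝ) (x : σ → ℂ) (hx : ∀ i, ‖x i‖ ≤ ρ) (B : MvPolynomial σ ℂ) : ‖MvPolynomial.eval x B‖ ≤ nm ρ B := by
  rw [MvPolynomial.eval_eq]
  refine (norm_sum_le _ _).trans ?_
  unfold nm
  refine Finset.sum_le_sum fun m _ => ?_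
  rw [norm_mul, norm_prod]
  refine mul_le_mul_of_nonneg_left ?_ (norm_nonneg _)
  refine (Finset.prod_le_prod (fun i _ => norm_nonneg _) (g := fun i => ρ ^ m i) fun i _ => ?_).trans ?_
  · rw [norm_pow]
    exact pow_le_pow_left₀ (norm_nonneg _) (hx i) _
  · rw [Finset.prod_pow_eq_pow_sum]
    exact le_of_eq rfl

/-- A5d. PROOF. the number of exponents `m` with `∑ m_i ≤ n` is `≤ (n+1)^d` -/
theorem exists_coeff_nm (n : ℕ) (B : MvPolynomial (Fin d) ℂ) (hB : B.totalDegree ≤ n) : ∃ m : Fin d →₀ ℕ, (m.sum fun _ e => e) ≤ n ∧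
    nm 1 B ≤ (n + 1) ^ d * ‖B.coeff m‖ := by
  classical
  by_cases h0 : B.support = ∅
  · refine ⟨0, by rw [Finsupp.sum_zero_index]; exact Nat.zero_le _, ?_⟩
    unfold nm
    rw [h0, Finset.sum_empty]
    positivity
  · obtain ⟨m, hm, hmax⟩ := Finset.exists_max_image B.support (fun m => ‖B.coeff m‖) (Finset.nonempty_iff_ne_empty.mpr h0)
    refine ⟨m, (MvPolynomial.le_totalDegree hm).trans hB, ?_⟩
    have hcard : B.support.card ≤ (n + 1) ^ d := by
      have h1 : B.support.card ≤ (Finset.univ : Finset (Fin d → Fin (n + 1))).card := by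
        refine Finset.card_le_card_of_injOn (fun k i => (⟨min (k i) n, by omega⟩ : Fin (n + 1))) (fun _ _ => Finset.mem_coe.mpr (Finset.mem_univ _)) ?_
        intro k hk l hl hkl
        have hb : ∀ k ∈ B.support, ∀ i, k i ≤ n := by
          intro k hk i
          refine le_trans ?_ ((MvPolynomial.le_totalDegree hk).trans hB)
          by_cases hi : i ∈ k.support
          · exact Finset.single_le_sum (f := fun i => k i) (fun _ _ => Nat.zero_le _) hi
          · rw [Finsupp.notMem_support_iff.mp hi]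
            exact Nat.zero_le _
        ext i
        have h2 := congrArg Fin.val (congrFun hkl i)
        have h3 := hb k (Finset.mem_coe.mp hk) i
        have h4 := hb l (Finset.mem_coe.mp hl) i
        simp only at h2
        omega
      rw [Finset.card_univ, Fintype.card_fun, Fintype.card_fin, Fintype.card_fin] at h1
      exact h1
    unfold nm
    calc ∑ k ∈ B.support, ‖B.coeff k‖ * (1 : ℝ) ^ (k.sum fun _ e => e)
        ≤ ∑ _k ∈ B.support, ‖B.coeff m‖ := by
          refine Finset.sum_le_sum fun k hk => ?_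
          rw [one_pow, mul_one]
          exact hmax k hk
      _ = (B.support.card : ℝ) * ‖B.coeff m‖ := by rw [Finset.sum_const, nsmul_eq_mul]
      _ ≤ (n + 1) ^ d * ‖B.coeff m‖ := by
          refine mul_le_mul_of_nonneg_right ?_ (norm_nonneg _)
          exact_mod_cast hcard

end Pool.Agent.MSR
end

end
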