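import Mathlib
import Pool.Agent.Lib.MP_f58a57_nt.FK.K001

section

/-! # A1b: closure properties of `Bd` (MP_f58a57_nt, pairs) -/

open Complex Filter Topology

noncomputable section

namespace Pool.Agent.MSP

variable {r s : ℕ}

theorem Bd.mono {D D' l l' : ℕ} {H H' : ℝ} {p : MvPolynomial (Fin r ⊕ Fin s) ℤ} (h : Bd D l H p) (hD : D ≤ D')
    (hl : l ≤ l') (hH : H ≤ H') : Bd D' l' H' p :=
  ⟨fun m hm => (h.dA m hm).trans hD, fun m hm => (h.dB m hm).trans hl, h.h.trans hH⟩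

theorem Bd.zero (D l : ℕ) (H : ℝ) (hH : 0 ≤ H) : Bd D l H (0 : MvPolynomial (Fin r ⊕ Fin s) ℤ) :=
  ⟨fun m hm => by simp at hm, fun m hm => by simp at hm, by rw [mlen_zero]; exact hH⟩

theorem Bd.add {D l : ℕ} {H H' : ℝ} {p p' : MvPolynomial (Fin r ⊕ Fin s) ℤ} (h : Bd D l H p) (h' : Bd D l H' p') :
    Bd D l (H + H') (p + p') := by
  classical
  refine ⟨fun m hm => ?_, fun m hm => ?_, (mlen_add p p').trans (add_le_add h.h h'.h)⟩
  · rcases Finset.mem_union.1 (MvPolynomial.support_add hm) with hm | hm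
    · exact h.dA m hm
    · exact h'.dA m hm
  · rcases Finset.mem_union.1 (MvPolynomial.support_add hm) with hm | hm
    · exact h.dB m hm
    · exact h'.dB m hm

theorem Bd.sum {ι : Type*} {D l : ℕ} (S : Finset ι) (H : ι → ℝ) (p : ι → MvPolynomial (Fin r ⊕ Fin s) ℤ)
    (h : ∀ i ∈ S, Bd D l (H i) (p i)) : Bd D l (∑ i ∈ S, H i) (∑ i ∈ S, p i) := by
  classical
  induction S using Finset.induction_on with
  | empty =>
    rw [Finset.sum_empty, Finset.sum_empty]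
    exact Bd.zero D l 0 (le_refl _)
  | insert a S ha ih =>
    rw [Finset.sum_insert ha, Finset.sum_insert ha]
    exact (h a (Finset.mem_insert_self _ _)).add (ih fun i hi => h i (Finset.mem_insert_of_mem hi))

theorem Bd.mul {D D' l l' : ℕ} {H H' : ℝ} {p p' : MvPolynomial (Fin r ⊕ Fin s) ℤ} (h : Bd D l H p)
    (h' : Bd D' l' H' p') : Bd (D + D') (l + l') (H * H') (p * p') := by
  classical
  have hmem : ∀ m ∈ (p * p').support, ∃ a ∈ p.support, ∃ b ∈ p'.support, m = a + b := by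
    intro m hm
    have := MvPolynomial.support_mul p p' hm
    obtain ⟨a, ha, b, hb, hab⟩ := Finset.mem_add.1 this
    exact ⟨a, ha, b, hb, hab.symm⟩
  refine ⟨fun m hm => ?_, fun m hm => ?_, ?_⟩
  · obtain ⟨a, ha, b, hb, rfl⟩ := hmem m hm
    simp only [Finsupp.add_apply, Finset.sum_add_distrib]
    exact add_le_add (h.dA a ha) (h'.dA b hb)
  · obtain ⟨a, ha, b, hb, rfl⟩ := hmem m hm
    simp only [Finsupp.add_apply, Finset.sum_add_distrib]
    exact add_le_add (h.dB a ha) (h'.dB b hb)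
  · refine (mlen_mul p p').trans ?_
    exact mul_le_mul h.h h'.h (mlen_nonneg _) ((mlen_nonneg p).trans h.h)

theorem Bd.const (a : ℤ) : Bd 0 0 |(a : ℝ)| (MvPolynomial.C a : MvPolynomial (Fin r ⊕ Fin s) ℤ) := by
  classical
  have hm0 : ∀ m ∈ (MvPolynomial.C a : MvPolynomial (Fin r ⊕ Fin s) ℤ).support, m = 0 := by
    intro m hm
    have h1 := MvPolynomial.mem_support_iff.1 hm
    rw [MvPolynomial.coeff_C] at h1
    by_contra hne
    exact h1 (if_neg (Ne.symm hne))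
  refine ⟨fun m hm => ?_, fun m hm => ?_, ?_⟩
  · rw [hm0 m hm]; simp
  · rw [hm0 m hm]; simp
  · rw [mlen_C]

theorem Bd.pow {D l : ℕ} {H : ℝ} {p : MvPolynomial (Fin r ⊕ Fin s) ℤ} (h : Bd D l H p) (n : ℕ) :
    Bd (n * D) (n * l) (H ^ n) (p ^ n) := by
  induction n with
  | zero =>
    have := Bd.const (r := r) (s := s) 1
    simpa using this
  | succ n ih =>
    rw [pow_succ, pow_succ]
    have := ih.mul h
    rwa [← Nat.succ_mul, ← Nat.succ_mul] at this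

theorem a1b_single_l (i : Fin r) : ∑ k : Fin r, (Finsupp.single (Sum.inl i : Fin r ⊕ Fin s) 1) (Sum.inl k) = 1 := by
  rw [Finset.sum_eq_single i]
  · simp
  · intro k _ hk
    rw [Finsupp.single_apply, if_neg]
    intro h
    exact hk (Sum.inl_injective h).symm
  · intro h
    exact absurd (Finset.mem_univ i) h

theorem a1b_single_r (j : Fin s) : ∑ k : Fin s, (Finsupp.single (Sum.inr j : Fin r ⊕ Fin s) 1) (Sum.inr k) = 1 := by
  rw [Finset.sum_eq_single j]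
  · simp
  · intro k _ hk
    rw [Finsupp.single_apply, if_neg]
    intro h
    exact hk (Sum.inr_injective h).symm
  · intro h
    exact absurd (Finset.mem_univ j) h

theorem Bd.varA (i : Fin r) : Bd 1 0 1 (MvPolynomial.X (Sum.inl i) : MvPolynomial (Fin r ⊕ Fin s) ℤ) := by
  classical
  have hm0 : ∀ m ∈ (MvPolynomial.X (Sum.inl i) : MvPolynomial (Fin r ⊕ Fin s) ℤ).support,
      m = Finsupp.single (Sum.inl i) 1 := by
    intro m hm
    exact Finset.mem_singleton.1 (MvPolynomial.support_monomial_subset hm)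
  refine ⟨fun m hm => ?_, fun m hm => ?_, ?_⟩
  · rw [hm0 m hm]
    exact (a1b_single_l i).le
  · rw [hm0 m hm]
    simp
  · rw [MvPolynomial.X, mlen_monomial]
    simp

theorem Bd.varB (j : Fin s) : Bd 0 1 1 (MvPolynomial.X (Sum.inr j) : MvPolynomial (Fin r ⊕ Fin s) ℤ) := by
  classical
  have hm0 : ∀ m ∈ (MvPolynomial.X (Sum.inr j) : MvPolynomial (Fin r ⊕ Fin s) ℤ).support,
      m = Finsupp.single (Sum.inr j) 1 := by
    intro m hm
    exact Finset.mem_singleton.1 (MvPolynomial.support_monomial_subset hm)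
  refine ⟨fun m hm => ?_, fun m hm => ?_, ?_⟩
  · rw [hm0 m hm]
    simp
  · rw [hm0 m hm]
    exact (a1b_single_r j).le
  · rw [MvPolynomial.X, mlen_monomial]
    simp

end Pool.Agent.MSP
end

end

section

/-! # A4: a basis adapted to algebraic numbers (MP_f58a57_nt, pairs) -/

open Complex Filter Topology IntermediateField

noncomputable section

namespace Pool.Agent.MSP

open scoped algebraAdjoinAdjoin in
/-- linear independence over `ℚ` of algebraic numbers implies linear independence over `ℚ(ϑ)` -/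
theorem a4_indep (ϑ : ℂ) (hϑ : Transcendental ℚ ϑ) (E : IntermediateField ℚ ℂ)
    (hE : Algebra.IsAlgebraic ℚ E) {m : ℕ} (e : Fin m → E) (he : LinearIndependent ℚ e) :
    LinearIndependent ℚ⟮ϑ⟯ (fun i => ((e i : E) : ℂ)) := by
  have hE' : Transcendental E ϑ := fun h => hϑ (h.restrictScalars ℚ)
  rw [← LinearIndependent.iff_fractionRing (Algebra.adjoin ℚ {ϑ}) ℚ⟮ϑ⟯,
    Fintype.linearIndependent_iff]
  intro c hc
  have hR : ∀ i, ∃ R : Polynomial ℚ, Polynomial.aeval ϑ R = (c i : ℂ) := by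
    intro i
    have h1 : (c i : ℂ) ∈ (Polynomial.aeval (R := ℚ) ϑ).range := by
      rw [← Algebra.adjoin_singleton_eq_range_aeval]
      exact (c i).2
    exact h1
  choose R hR using hR
  obtain ⟨G, hGd⟩ : ∃ G : Polynomial E, G = ∑ i, Polynomial.C (e i) * (R i).map (algebraMap ℚ E) :=
    ⟨_, rfl⟩
  have hG : Polynomial.aeval ϑ G = 0 := by
    rw [hGd, map_sum, ← hc]
    refine Finset.sum_congr rfl fun i _ => ?_
    rw [map_mul, Polynomial.aeval_C, Polynomial.aeval_map_algebraMap, hR, mul_comm]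
    rfl
  have hG0 : G = 0 := by
    by_contra h
    exact hE' ⟨G, h, hG⟩
  have hR0 : ∀ i, R i = 0 := by
    intro i
    ext k
    have h1 : G.coeff k = 0 := by rw [hG0, Polynomial.coeff_zero]
    rw [hGd, Polynomial.finsetSum_coeff] at h1
    have h2 : ∑ i, ((R i).coeff k) • e i = 0 := by
      rw [← h1]
      refine Finset.sum_congr rfl fun i _ => ?_
      rw [Polynomial.coeff_C_mul, Polynomial.coeff_map, Algebra.smul_def, mul_comm]
    rw [Polynomial.coeff_zero]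
    exact (Fintype.linearIndependent_iff.1 he) _ h2 i
  intro i
  apply Subtype.ext
  rw [← hR i, hR0 i, map_zero]
  rfl

/-- A4a. PROOF. Let `E = ℚ(x₁, ..., x_r)` (finite over `ℚ`) with `ℚ`-basis `e₁, ..., e_m`. The `e_i` are linearly independent over `ℚ(ϑ)`: clear
denominators in `∑ c_i e_i = 0`, `c_i ∈ ℚ(ϑ)`, so w.l.o.g. `c_i ∈ ℚ[ϑ]`; then `∑_k (∑_i c_{ik} e_i) ϑ^k = 0` is a polynomial relation for `ϑ` over `E`, and
`ϑ` is transcendental over `E` (`E/ℚ` algebraic), so `∑_i c_{ik} e_i = 0` and `c_{ik} = 0` for all `k`. They span `E' = ℚ(ϑ)(x₁, ..., x_r)` over `ℚ(ϑ)` (the span is a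
ring containing `ℚ(ϑ)` and the `x_i`, finite-dimensional over `ℚ(ϑ)`, so a field). Let `𝕃 = ℚ(ϑ)(x, y)`, finite over `E'`, with `E'`-basis `η_j`;
`b = (e_i η_j)` (`Module.Basis.smulTower`, reindexed by `Fin d`). `x_i e_k = ∑ q_l e_l` with `q_l ∈ ℚ`. -/
theorem exists_basis {r s : ℕ} (ϑ : ℂ) (hϑ : Transcendental ℚ ϑ) (x : Fin r → ℂ) (y : Fin s → ℂ)
    (hx : ∀ i, IsAlgebraic ℚ (x i)) (hy : ∀ j, IsAlgebraic ℚ⟮ϑ⟯ (y j)) :
    ∃ (𝕃 : IntermediateField ℚ⟮ϑ⟯ ℂ) (d : ℕ) (b : Module.Basis (Fin d) ℚ⟮ϑ⟯ 𝕃), (∀ i, x i ∈ 𝕃) ∧ (∀ j, y j ∈ 𝕃) ∧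
      ∀ (i : Fin r) (k : Fin d), ∃ q : Fin d → ℚ, x i * ((b k : 𝕃) : ℂ) = ∑ l, (q l : ℂ) * ((b l : 𝕃) : ℂ) := by
  classical
  have hxint : ∀ z ∈ Set.range x, IsIntegral ℚ z := by
    rintro z ⟨i, rfl⟩
    exact (hx i).isIntegral
  have hfinE : FiniteDimensional ℚ (adjoin ℚ (Set.range x)) := finiteDimensional_adjoin hxint
  obtain ⟨E, hE⟩ : ∃ E : IntermediateField ℚ ℂ, E = adjoin ℚ (Set.range x) := ⟨_, rfl⟩
  rw [← hE] at hfinE
  have hEalg : Algebra.IsAlgebraic ℚ E := Algebra.IsAlgebraic.of_finite ℚ E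
  have hxE : ∀ i, x i ∈ E := fun i => by rw [hE]; exact subset_adjoin ℚ _ ⟨i, rfl⟩
  obtain ⟨m, e⟩ : ∃ m : ℕ, Nonempty (Module.Basis (Fin m) ℚ E) := ⟨_, ⟨Module.finBasis ℚ E⟩⟩
  obtain ⟨e⟩ := e
  have hli := a4_indep ϑ hϑ E hEalg e e.linearIndependent
  -- the compositum
  obtain ⟨E', hE'⟩ : ∃ E' : IntermediateField ℚ⟮ϑ⟯ ℂ, E' = adjoin ℚ⟮ϑ⟯ (Set.range x) := ⟨_, rfl⟩
  have hEE' : ∀ z ∈ E, z ∈ E' := by
    have h1 : E ≤ E'.restrictScalars ℚ := by
      rw [hE, adjoin_le_iff]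
      rintro z ⟨i, rfl⟩
      show x i ∈ E'
      rw [hE']
      exact subset_adjoin _ _ ⟨i, rfl⟩
    exact fun z hz => h1 hz
  have hspan : ∀ z ∈ E', z ∈ Submodule.span ℚ⟮ϑ⟯ (Set.range fun i => ((e i : E) : ℂ)) := by
    have hEs : ∀ z ∈ E, z ∈ Submodule.span ℚ⟮ϑ⟯ (Set.range fun i => ((e i : E) : ℂ)) := by
      intro z hz
      have h1 := e.sum_repr ⟨z, hz⟩
      have h2 := congrArg (fun w : E => (w : ℂ)) h1
      simp only at h2
      rw [← h2]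
      push_cast
      refine Submodule.sum_mem _ fun i _ => ?_
      have h4 := Submodule.smul_mem (Submodule.span ℚ⟮ϑ⟯ (Set.range fun i => ((e i : E) : ℂ)))
        (algebraMap ℚ ℚ⟮ϑ⟯ (e.repr ⟨z, hz⟩ i)) (Submodule.subset_span ⟨i, rfl⟩)
      rw [algebraMap_smul] at h4
      exact h4
    intro z hz
    have h1 : z ∈ Algebra.adjoin ℚ⟮ϑ⟯ (Set.range x) := by
      have h2 : (adjoin ℚ⟮ϑ⟯ (Set.range x)).toSubalgebra = Algebra.adjoin ℚ⟮ϑ⟯ (Set.range x) :=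
        adjoin_toSubalgebra_of_isAlgebraic fun w hw => by
          obtain ⟨i, rfl⟩ := hw
          exact (hx i).tower_top _
      rw [← h2, ← hE']
      exact hz
    refine Algebra.adjoin_induction ?_ ?_ ?_ ?_ h1
    · rintro w ⟨i, rfl⟩
      exact hEs _ (hxE i)
    · intro c
      rw [Algebra.algebraMap_eq_smul_one]
      exact Submodule.smul_mem _ _ (hEs 1 E.one_mem)
    · intro a b _ _ ha hb
      exact Submodule.add_mem _ ha hb
    · intro a b _ _ ha hb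
      have h2 := Submodule.mul_mem_mul ha hb
      rw [Submodule.span_mul_span] at h2
      refine Submodule.span_le.2 ?_ h2
      rintro _ ⟨_, ⟨i, rfl⟩, _, ⟨j, rfl⟩, rfl⟩
      exact hEs _ (E.mul_mem (e i).2 (e j).2)
  -- basis of the compositum
  have heE' : ∀ i, ((e i : E) : ℂ) ∈ E' := fun i => hEE' _ (e i).2
  obtain ⟨e', he'⟩ : ∃ e' : Fin m → E', ∀ i, ((e' i : E') : ℂ) = ((e i : E) : ℂ) :=
    ⟨fun i => ⟨_, heE' i⟩, fun _ => rfl⟩
  have hrange : (Set.range fun i => ((e' i : E') : ℂ)) = Set.range fun i => ((e i : E) : ℂ) := by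
    congr 1
    funext i
    exact he' i
  have hli' : LinearIndependent ℚ⟮ϑ⟯ e' := by
    refine LinearIndependent.of_comp E'.val.toLinearMap ?_
    have h1 : (E'.val.toLinearMap ∘ e') = fun i => ((e i : E) : ℂ) := by
      funext i
      exact he' i
    rw [h1]
    exact hli
  have hsp' : ⊤ ≤ Submodule.span ℚ⟮ϑ⟯ (Set.range e') := by
    intro z _
    have h1 := hspan z z.2
    have h2 : (Submodule.span ℚ⟮ϑ⟯ (Set.range e')).map E'.val.toLinearMap =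
        Submodule.span ℚ⟮ϑ⟯ (Set.range fun i => ((e i : E) : ℂ)) := by
      rw [Submodule.map_span, ← Set.range_comp, ← hrange]
      rfl
    rw [← h2] at h1
    obtain ⟨w, hw, hwz⟩ := h1
    have h3 : w = z := Subtype.ext hwz
    rwa [← h3]
  obtain ⟨be, hbe⟩ : ∃ be : Module.Basis (Fin m) ℚ⟮ϑ⟯ E', ∀ i, be i = e' i :=
    ⟨Module.Basis.mk hli' hsp', fun i => Module.Basis.mk_apply _ _ i⟩
  -- the field
  obtain ⟨L', hL'⟩ : ∃ L' : IntermediateField E' ℂ, L' = adjoin E' (Set.range y) := ⟨_, rfl⟩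
  have hfinL : FiniteDimensional E' L' := by
    rw [hL']
    refine finiteDimensional_adjoin ?_
    rintro z ⟨j, rfl⟩
    exact (hy j).isIntegral.tower_top
  have hfree : Module.Free E' L' := Module.Free.of_divisionRing E' L'
  obtain ⟨t, η⟩ : ∃ t : ℕ, Nonempty (Module.Basis (Fin t) E' L') := ⟨_, ⟨Module.finBasis E' L'⟩⟩
  obtain ⟨η⟩ := η
  obtain ⟨𝕃, h𝕃⟩ : ∃ 𝕃 : IntermediateField ℚ⟮ϑ⟯ ℂ, 𝕃 = L'.restrictScalars ℚ⟮ϑ⟯ := ⟨_, rfl⟩
  have hmem : ∀ z : ℂ, z ∈ 𝕃 ↔ z ∈ L' := by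
    intro z
    rw [h𝕃]
    rfl
  let φ : L' ≃ₗ[ℚ⟮ϑ⟯] 𝕃 :=
    { toFun := fun z => ⟨z, (hmem _).2 z.2⟩
      invFun := fun z => ⟨z, (hmem _).1 z.2⟩
      left_inv := fun z => rfl
      right_inv := fun z => rfl
      map_add' := fun z w => rfl
      map_smul' := fun c z => rfl }
  have hφ : ∀ z : L', ((φ z : 𝕃) : ℂ) = (z : ℂ) := fun z => rfl
  obtain ⟨b, hb⟩ : ∃ b : Module.Basis (Fin (m * t)) ℚ⟮ϑ⟯ 𝕃, ∀ k, ((b k : 𝕃) : ℂ) =
      ((e (finProdFinEquiv.symm k).1 : E) : ℂ) * ((η (finProdFinEquiv.symm k).2 : L') : ℂ) := by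
    refine ⟨((be.smulTower η).reindex finProdFinEquiv).map φ, fun k => ?_⟩
    rw [Module.Basis.map_apply, hφ, Module.Basis.reindex_apply, Module.Basis.smulTower_apply, hbe,
      ← he']
    rfl
  refine ⟨𝕃, m * t, b, ?_, ?_, ?_⟩
  · intro i
    rw [hmem]
    exact L'.algebraMap_mem ⟨x i, hEE' _ (hxE i)⟩
  · intro j
    rw [hmem, hL']
    exact subset_adjoin _ _ ⟨j, rfl⟩
  · intro i k
    obtain ⟨p, hp⟩ : ∃ p : Fin m → ℚ, x i * ((e (finProdFinEquiv.symm k).1 : E) : ℂ) =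
        ∑ l, (p l : ℂ) * ((e l : E) : ℂ) := by
      have h1 := e.sum_repr (⟨x i, hxE i⟩ * e (finProdFinEquiv.symm k).1)
      have h2 := congrArg (fun w : E => (w : ℂ)) h1
      refine ⟨fun l => e.repr (⟨x i, hxE i⟩ * e (finProdFinEquiv.symm k).1) l, ?_⟩
      have h3 : ((⟨x i, hxE i⟩ * e (finProdFinEquiv.symm k).1 : E) : ℂ) =
          x i * ((e (finProdFinEquiv.symm k).1 : E) : ℂ) := rfl
      rw [← h3, ← h2]
      push_cast
      refine Finset.sum_congr rfl fun l _ => ?_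
      rw [Rat.smul_def]
    refine ⟨fun l => if (finProdFinEquiv.symm l).2 = (finProdFinEquiv.symm k).2 then
      p (finProdFinEquiv.symm l).1 else 0, ?_⟩
    rw [hb, ← mul_assoc, hp, Finset.sum_mul]
    rw [← finProdFinEquiv.sum_comp, Fintype.sum_prod_type]
    refine Finset.sum_congr rfl fun l _ => ?_
    simp only [hb, Equiv.symm_apply_apply]
    rw [Finset.sum_eq_single (finProdFinEquiv.symm k).2]
    · rw [if_pos rfl, mul_assoc]
    · intro j _ hj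
      rw [if_neg hj, Rat.cast_zero, zero_mul]
    · intro h
      exact absurd (Finset.mem_univ _) h

end Pool.Agent.MSP
end

end

section

/-! # A2: the two derivations (MP_f58a57_nt, pairs)

Variables: `inl 0, ..., inl 7` stand for `P₁, P₁', P₂, P₂', h₁, h₂, τ₁, τ₂`; `inr 0, ..., inr 7` stand for
`κ₁, κ₁s₁, κ₂, κ₂s₂, c, Y₁, Y₂, Y₃`. -/

open Complex Filter Topology

noncomputable section

namespace Pool.Agent.MSP

/-- the polynomial ring -/
abbrev PR := MvPolynomial (Fin 8 ⊕ Fin 8) ℤ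

def vX (i : Fin 8) : PR := MvPolynomial.X (Sum.inl i)
def vY (j : Fin 8) : PR := MvPolynomial.X (Sum.inr j)

/-- `δ₁ = (1/ω₁) ∂/∂t` -/
def der₁ : Derivation ℤ PR PR := MvPolynomial.mkDerivation ℤ (fun v => match v with
  | Sum.inl i => ![vX 1, 6 * vX 0 ^ 2 - vX 4, 0, 0, 0, 0, 0, 0] i
  | Sum.inr j => ![0, 0, 0, 0, 0, vY 0 * vX 0 + vY 1, 0, -vY 4 + vX 6 * (vY 0 * vX 0 + vY 1)] j)

/-- `δ₂ = (1/ω₂) ∂/∂w` -/
def der₂ : Derivation ℤ PR PR := MvPolynomial.mkDerivation ℤ (fun v => match v with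
  | Sum.inl i => ![0, 0, vX 3, 6 * vX 2 ^ 2 - vX 5, 0, 0, 0, 0] i
  | Sum.inr j => ![0, 0, 0, 0, 0, 0, vY 2 * vX 2 + vY 3, 1 - vX 7 * (vY 2 * vX 2 + vY 3)] j)

/-- degrees of a monomial -/
theorem a2_bd_monomial {D l : ℕ} (m : Fin 8 ⊕ Fin 8 →₀ ℕ) (a : ℤ) (hA : ∑ i, m (Sum.inl i) ≤ D) (hB : ∑ j, m (Sum.inr j) ≤ l) :
    Bd D l |(a : ℝ)| (MvPolynomial.monomial m a : PR) := by
  classical
  have hm0 : ∀ m' ∈ (MvPolynomial.monomial m a : PR).support, m' = m := by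
    intro m' hm'
    exact Finset.mem_singleton.1 (MvPolynomial.support_monomial_subset hm')
  refine ⟨fun m' hm' => ?_, fun m' hm' => ?_, ?_⟩
  · rw [hm0 m' hm']; exact hA
  · rw [hm0 m' hm']; exact hB
  · rw [mlen_monomial]

theorem a2_sub_l (m : Fin 8 ⊕ Fin 8 →₀ ℕ) (i : Fin 8) (hi : m (Sum.inl i) ≠ 0) :
    ∑ k, (m - Finsupp.single (Sum.inl i) 1 : Fin 8 ⊕ Fin 8 →₀ ℕ) (Sum.inl k) + 1 = ∑ k, m (Sum.inl k) ∧
    ∑ k, (m - Finsupp.single (Sum.inl i) 1 : Fin 8 ⊕ Fin 8 →₀ ℕ) (Sum.inr k) = ∑ k, m (Sum.inr k) := by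
  classical
  have h : (m - Finsupp.single (Sum.inl i) 1) + Finsupp.single (Sum.inl i) 1 = m := by
    apply tsub_add_cancel_of_le
    rw [Finsupp.single_le_iff]
    omega
  have h1 : ∀ v, m v = (m - Finsupp.single (Sum.inl i) 1 : Fin 8 ⊕ Fin 8 →₀ ℕ) v + (Finsupp.single (Sum.inl i) 1 : Fin 8 ⊕ Fin 8 →₀ ℕ) v := by
    intro v
    conv_lhs => rw [← h]
    rw [Finsupp.add_apply]
  refine ⟨?_, ?_⟩
  · rw [Finset.sum_congr rfl (fun k _ => h1 (Sum.inl k)), Finset.sum_add_distrib, a1b_single_l]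
  · rw [Finset.sum_congr rfl (fun k _ => h1 (Sum.inr k)), Finset.sum_add_distrib]
    simp

theorem a2_sub_r (m : Fin 8 ⊕ Fin 8 →₀ ℕ) (i : Fin 8) (hi : m (Sum.inr i) ≠ 0) :
    ∑ k, (m - Finsupp.single (Sum.inr i) 1 : Fin 8 ⊕ Fin 8 →₀ ℕ) (Sum.inr k) + 1 = ∑ k, m (Sum.inr k) ∧
    ∑ k, (m - Finsupp.single (Sum.inr i) 1 : Fin 8 ⊕ Fin 8 →₀ ℕ) (Sum.inl k) = ∑ k, m (Sum.inl k) := by
  classical
  have h : (m - Finsupp.single (Sum.inr i) 1) + Finsupp.single (Sum.inr i) 1 = m := by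
    apply tsub_add_cancel_of_le
    rw [Finsupp.single_le_iff]
    omega
  have h1 : ∀ v, m v = (m - Finsupp.single (Sum.inr i) 1 : Fin 8 ⊕ Fin 8 →₀ ℕ) v + (Finsupp.single (Sum.inr i) 1 : Fin 8 ⊕ Fin 8 →₀ ℕ) v := by
    intro v
    conv_lhs => rw [← h]
    rw [Finsupp.add_apply]
  refine ⟨?_, ?_⟩
  · rw [Finset.sum_congr rfl (fun k _ => h1 (Sum.inr k)), Finset.sum_add_distrib, a1b_single_r]
  · rw [Finset.sum_congr rfl (fun k _ => h1 (Sum.inl k)), Finset.sum_add_distrib]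
    simp

theorem a2_sum_support (m : Fin 8 ⊕ Fin 8 →₀ ℕ) :
    ∑ v ∈ m.support, (m v : ℝ) = ((∑ i, m (Sum.inl i) : ℕ) : ℝ) + ((∑ i, m (Sum.inr i) : ℕ) : ℝ) := by
  classical
  have h1 : ∑ v ∈ m.support, (m v : ℝ) = ∑ v, (m v : ℝ) := by
    apply Finset.sum_subset (Finset.subset_univ _)
    intro v _ hv
    rw [Finsupp.notMem_support_iff] at hv
    rw [hv]; simp
  rw [h1, Fintype.sum_sum_type]
  push_cast
  rfl

theorem a2_gen (f : Fin 8 ⊕ Fin 8 → PR) (hl : ∀ i, Bd 2 0 7 (f (Sum.inl i))) (hr : ∀ j, Bd 2 1 4 (f (Sum.inr j)))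
    {D l : ℕ} {H : ℝ} {p : PR} (h : Bd D l H p) : Bd (D + 2) l (8 * (D + l) * H) (MvPolynomial.mkDerivation ℤ f p) := by
  classical
  have key : ∀ m ∈ p.support, Bd (D + 2) l (|((p.coeff m : ℤ) : ℝ)| * (8 * (D + l)))
      (MvPolynomial.mkDerivation ℤ f (MvPolynomial.monomial m (p.coeff m))) := by
    intro m hm
    rw [MvPolynomial.mkDerivation_monomial, ← MvPolynomial.C_mul', Finsupp.sum]
    have hdA := h.dA m hm
    have hdB := h.dB m hm
    have hs : Bd (D + 2) l (∑ v ∈ m.support, 8 * (m v : ℝ))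
        (∑ v ∈ m.support, (MvPolynomial.monomial (m - Finsupp.single v 1) ((m v : ℕ) : ℤ)) • f v) := by
      apply Bd.sum
      intro v hv
      rw [Finsupp.mem_support_iff] at hv
      rw [smul_eq_mul]
      have hcast : |(((m v : ℕ) : ℤ) : ℝ)| = (m v : ℝ) := by
        push_cast
        exact abs_of_nonneg (Nat.cast_nonneg _)
      rcases v with i | j
      · obtain ⟨h1, h2⟩ := a2_sub_l m i hv
        have h3 := (a2_bd_monomial (D := D - 1) (l := l) (m - Finsupp.single (Sum.inl i) 1)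
          ((m (Sum.inl i) : ℕ) : ℤ) (by omega) (by omega)).mul (hl i)
        rw [hcast] at h3
        refine h3.mono (by omega) (by omega) ?_
        have : (0 : ℝ) ≤ m (Sum.inl i) := Nat.cast_nonneg _
        linarith
      · obtain ⟨h1, h2⟩ := a2_sub_r m j hv
        have h3 := (a2_bd_monomial (D := D) (l := l - 1) (m - Finsupp.single (Sum.inr j) 1)
          ((m (Sum.inr j) : ℕ) : ℤ) (by omega) (by omega)).mul (hr j)
        rw [hcast] at h3
        refine h3.mono (by omega) (by omega) ?_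
        have : (0 : ℝ) ≤ m (Sum.inr j) := Nat.cast_nonneg _
        linarith
    have h4 := (Bd.const (r := 8) (s := 8) (p.coeff m)).mul hs
    refine h4.mono (by omega) (by omega) ?_
    apply mul_le_mul_of_nonneg_left _ (abs_nonneg _)
    rw [← Finset.mul_sum, a2_sum_support]
    have h5 : ((∑ i, m (Sum.inl i) : ℕ) : ℝ) ≤ D := by exact_mod_cast hdA
    have h6 : ((∑ i, m (Sum.inr i) : ℕ) : ℝ) ≤ l := by exact_mod_cast hdB
    linarith
  have hsum := Bd.sum p.support _ _ key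
  rw [← map_sum, ← p.as_sum] at hsum
  refine hsum.mono le_rfl le_rfl ?_
  rw [← Finset.sum_mul]
  have h7 : ∑ m ∈ p.support, |((p.coeff m : ℤ) : ℝ)| ≤ H := h.h
  have h8 : (0 : ℝ) ≤ 8 * (D + l) := by positivity
  calc _ ≤ H * (8 * (D + l)) := mul_le_mul_of_nonneg_right h7 h8
    _ = _ := by ring

theorem a2_X (i : Fin 8) : Bd 1 0 1 (vX i) := Bd.varA i
theorem a2_Y (j : Fin 8) : Bd 0 1 1 (vY j) := Bd.varB j

theorem a2_neg {D l : ℕ} {H : ℝ} {p : PR} (h : Bd D l H p) : Bd D l H (-p) := by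
  have := (Bd.const (r := 8) (s := 8) (-1)).mul h
  have e : MvPolynomial.C (-1 : ℤ) * p = -p := by
    rw [map_neg, map_one, neg_one_mul]
  rw [e] at this
  refine this.mono (by omega) (by omega) ?_
  simp

theorem a2_q (i j : Fin 8) : Bd 2 0 7 (6 * vX i ^ 2 - vX j) := by
  have h1 := (Bd.const (r := 8) (s := 8) 6).mul ((a2_X i).pow 2)
  have h2 := (a2_neg (a2_X j)).mono (D' := 2) (l' := 0) (H' := 1) (by omega) le_rfl le_rfl
  have h3 := (h1.mono (D' := 2) (l' := 0) (H' := 6) (by omega) (by omega) (by norm_num)).add h2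
  have e : MvPolynomial.C (6 : ℤ) * vX i ^ 2 + -vX j = 6 * vX i ^ 2 - vX j := by
    rw [show (MvPolynomial.C (6 : ℤ) : PR) = 6 from map_ofNat _ 6]
    ring
  rw [e] at h3
  exact h3.mono le_rfl le_rfl (by norm_num)

theorem a2_r (i j k : Fin 8) : Bd 1 1 2 (vY i * vX j + vY k) := by
  have h1 := (a2_Y i).mul (a2_X j)
  have h2 := (a2_Y k).mono (D' := 1) (l' := 1) (H' := 1) (by omega) le_rfl le_rfl
  have h3 := (h1.mono (D' := 1) (l' := 1) (H' := 1) (by omega) (by omega) (by norm_num)).add h2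
  exact h3.mono le_rfl le_rfl (by norm_num)

theorem a2_s (a i j k : Fin 8) : Bd 2 1 2 (vX a * (vY i * vX j + vY k)) :=
  ((a2_X a).mul (a2_r i j k)).mono (by omega) (by omega) (by norm_num)

theorem a2_f1l (i : Fin 8) : Bd 2 0 7 ((![vX 1, 6 * vX 0 ^ 2 - vX 4, 0, 0, 0, 0, 0, 0] : Fin 8 → PR) i) := by
  have z : Bd 2 0 7 (0 : PR) := Bd.zero _ _ _ (by norm_num)
  fin_cases i
  · exact (a2_X 1).mono (by omega) le_rfl (by norm_num)
  · exact a2_q 0 4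
  all_goals exact z

theorem a2_f1r (j : Fin 8) : Bd 2 1 4 ((![0, 0, 0, 0, 0, vY 0 * vX 0 + vY 1, 0,
    -vY 4 + vX 6 * (vY 0 * vX 0 + vY 1)] : Fin 8 → PR) j) := by
  have z : Bd 2 1 4 (0 : PR) := Bd.zero _ _ _ (by norm_num)
  fin_cases j
  · exact z
  · exact z
  · exact z
  · exact z
  · exact z
  · exact (a2_r 0 0 1).mono (by omega) le_rfl (by norm_num)
  · exact z
  · exact (((a2_neg (a2_Y 4)).mono (D' := 2) (l' := 1) (H' := 1) (by omega) le_rfl le_rfl).add (a2_s 6 0 0 1)).mono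
      le_rfl le_rfl (by norm_num)

theorem a2_f2l (i : Fin 8) : Bd 2 0 7 ((![0, 0, vX 3, 6 * vX 2 ^ 2 - vX 5, 0, 0, 0, 0] : Fin 8 → PR) i) := by
  have z : Bd 2 0 7 (0 : PR) := Bd.zero _ _ _ (by norm_num)
  fin_cases i
  · exact z
  · exact z
  · exact (a2_X 3).mono (by omega) le_rfl (by norm_num)
  · exact a2_q 2 5
  all_goals exact z

theorem a2_f2r (j : Fin 8) : Bd 2 1 4 ((![0, 0, 0, 0, 0, 0, vY 2 * vX 2 + vY 3,
    1 - vX 7 * (vY 2 * vX 2 + vY 3)] : Fin 8 → PR) j) := by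
  have z : Bd 2 1 4 (0 : PR) := Bd.zero _ _ _ (by norm_num)
  fin_cases j
  · exact z
  · exact z
  · exact z
  · exact z
  · exact z
  · exact z
  · exact (a2_r 2 2 3).mono (by omega) le_rfl (by norm_num)
  · have h1 : Bd 2 1 1 (1 : PR) := by
      have := (Bd.const (r := 8) (s := 8) 1).mono (D' := 2) (l' := 1) (H' := 1) (by omega) (by omega) (by norm_num)
      rwa [MvPolynomial.C_1] at this
    have h2 := (h1.add (a2_neg (a2_s 7 2 2 3))).mono (H' := 4) le_rfl le_rfl (by norm_num)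
    rw [← sub_eq_add_neg] at h2
    exact h2

/-- A2a. PROOF. `δ p = ∑_m coeff m · ∑_{v ∈ m} m_v · (X^m/X_v) · δ(v)` (`MvPolynomial.mkDerivation_monomial`). For `v = inl _`: `δ(v)` is `Bd 2 0 7`,
`X^m/X_v` has `inl`-degree one less than `m`; for `v = inr _`: `δ(v)` is `Bd 2 1 4` and `X^m/X_v` has `inr`-degree one less. `∑_v m_v ≤ D + l`. -/
theorem Bd.der₁ {D l : ℕ} {H : ℝ} {p : PR} (h : Bd D l H p) : Bd (D + 2) l (8 * (D + l) * H) (der₁ p) := by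
  refine a2_gen _ (fun i => ?_) (fun j => ?_) h
  · exact a2_f1l i
  · exact a2_f1r j

theorem Bd.der₂ {D l : ℕ} {H : ℝ} {p : PR} (h : Bd D l H p) : Bd (D + 2) l (8 * (D + l) * H) (der₂ p) := by
  refine a2_gen _ (fun i => ?_) (fun j => ?_) h
  · exact a2_f2l i
  · exact a2_f2r j

theorem a2_iter (δ : PR → PR) (hδ : ∀ {D l : ℕ} {H : ℝ} {p : PR}, Bd D l H p → Bd (D + 2) l (8 * (D + l) * H) (δ p))
    {D l : ℕ} {H : ℝ} {p : PR} (h : Bd D l H p) (r : ℕ) (N : ℝ) (hN : (D : ℝ) + 2 * r + l ≤ N) :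
    Bd (D + 2 * r) l ((8 * N) ^ r * H) (δ^[r] p) := by
  induction r with
  | zero => simpa using h
  | succ r ih =>
    rw [Function.iterate_succ_apply']
    have h1 := ih (by push_cast at hN; linarith)
    have h2 := hδ h1
    refine h2.mono (by omega) le_rfl ?_
    have h3 : 0 ≤ (8 * N) ^ r * H := (mlen_nonneg _).trans h1.h
    have h4 : (8 : ℝ) * (((D + 2 * r : ℕ) : ℝ) + l) ≤ 8 * N := by
      push_cast at hN ⊢
      linarith
    calc _ ≤ 8 * N * ((8 * N) ^ r * H) := mul_le_mul_of_nonneg_right h4 h3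
      _ = _ := by ring

/-- A2b. induction from A2a. -/
theorem Bd.iter {D l : ℕ} {H : ℝ} {p : PR} (h : Bd D l H p) (r s T : ℕ) (hT : r + s ≤ T) :
    Bd (D + 2 * T) l ((8 * ((D : ℝ) + 2 * T + l)) ^ (r + s) * H) (MSP.der₁^[r] (MSP.der₂^[s] p)) := by
  have hT' : (r : ℝ) + s ≤ T := by exact_mod_cast hT
  have h1 := a2_iter (MSP.der₂) (fun h => Bd.der₂ h) h s ((D : ℝ) + 2 * T + l) (by
    have : (0 : ℝ) ≤ r := Nat.cast_nonneg _
    linarith)
  have h2 := a2_iter (MSP.der₁) (fun h => Bd.der₁ h) h1 r ((D : ℝ) + 2 * T + l) (by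
    push_cast
    linarith)
  refine h2.mono (by omega) le_rfl ?_
  rw [← mul_assoc, ← pow_add]

/-- the polynomial which corresponds to the monomial `ν` -/
def Qp (P : Pr) (ν : ℕ × ℕ × ℕ × ℕ × ℕ) : PR :=
  vX 0 ^ ν.1 * vX 2 ^ ν.2.1 * (vY 7 ^ ν.2.2.1 *
    (MvPolynomial.C P.b₂ * vY 5 - MvPolynomial.C P.b₁ * vY 6) ^ ν.2.2.2.1 *
    (MvPolynomial.C P.a₁ * vY 5 + MvPolynomial.C P.a₂ * vY 6) ^ ν.2.2.2.2)

/-- A2c. PROOF. closure properties of `Bd`; `|b₂| + |b₁| ≤ A`, `|a₁| + |a₂| ≤ A`, `A ≥ 1`. -/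
theorem Bd.Qp (P : Pr) (ν : ℕ × ℕ × ℕ × ℕ × ℕ) (hν : ν ∈ P.box) : Bd (2 * P.L) P.l (P.A ^ P.l) (MSP.Qp P ν) := by
  obtain ⟨a, b, k₁, k₂, k₃⟩ := ν
  have hA1 : (1 : ℝ) ≤ P.A := by
    have h1 := abs_nonneg (P.a₁ : ℝ)
    have h2 := abs_nonneg (P.a₂ : ℝ)
    have h3 := abs_nonneg (P.b₁ : ℝ)
    have h4 := abs_nonneg (P.b₂ : ℝ)
    unfold Pr.A
    linarith
  simp only [Pr.box, Finset.mem_product, Finset.mem_range] at hν
  obtain ⟨ha, hb, hk₁, hk₂, hk₃⟩ := hν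
  have f1 : Bd 0 1 P.A (MvPolynomial.C P.b₂ * vY 5 - MvPolynomial.C P.b₁ * vY 6) := by
    have h1 := ((Bd.const (r := 8) (s := 8) P.b₂).mul (a2_Y 5)).add
      (a2_neg ((Bd.const (r := 8) (s := 8) P.b₁).mul (a2_Y 6)))
    rw [← sub_eq_add_neg] at h1
    refine h1.mono (by omega) (by omega) ?_
    have h1 := abs_nonneg (P.a₁ : ℝ)
    have h2 := abs_nonneg (P.a₂ : ℝ)
    unfold Pr.A
    linarith
  have f2 : Bd 0 1 P.A (MvPolynomial.C P.a₁ * vY 5 + MvPolynomial.C P.a₂ * vY 6) := by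
    have h1 := ((Bd.const (r := 8) (s := 8) P.a₁).mul (a2_Y 5)).add
      ((Bd.const (r := 8) (s := 8) P.a₂).mul (a2_Y 6))
    refine h1.mono (by omega) (by omega) ?_
    have h1 := abs_nonneg (P.b₁ : ℝ)
    have h2 := abs_nonneg (P.b₂ : ℝ)
    unfold Pr.A
    linarith
  have h1 := (((a2_X 0).pow a).mul ((a2_X 2).pow b)).mul
    ((((a2_Y 7).pow k₁).mul (f1.pow k₂)).mul (f2.pow k₃))
  refine h1.mono (by omega) (by unfold Pr.l; omega) ?_
  rw [one_pow, one_pow, one_pow, one_mul, one_mul, one_mul, ← pow_add]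
  exact pow_le_pow_right₀ hA1 (by unfold Pr.l; omega)

end Pool.Agent.MSP
end

end

section

/-! # A4b: matrix representation (MP_f58a57_nt, pairs) -/

open Complex Filter Topology IntermediateField Polynomial

noncomputable section

namespace Pool.Agent.MSP

/-- the representation of a field `𝕃` by complex matrices -/
structure Rep (ϑ : ℂ) {r s : ℕ} (x : Fin r → ℂ) (y : Fin s → ℂ) where
  𝕃 : Subfield ℂ
  d : ℕ
  R : 𝕃 →+* Matrix (Fin d) (Fin d) ℂ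
  v : Fin d → ℂ
  den : ℤ
  h : Polynomial ℤ
  MA : Fin r → Matrix (Fin d) (Fin d) ℤ
  MB : Fin s → Matrix (Fin d) (Fin d) (Polynomial ℤ)
  Θ : 𝕃
  X : Fin r → 𝕃
  Y : Fin s → 𝕃
  d_pos : 0 < d
  v_ne : v ≠ 0
  den_ne : den ≠ 0
  h_ne : aeval ϑ h ≠ 0
  Θ_eq : (Θ : ℂ) = ϑ
  X_eq : ∀ i, (X i : ℂ) = x i
  Y_eq : ∀ j, (Y j : ℂ) = y j
  eig : ∀ ξ : 𝕃, Matrix.vecMul v (R ξ) = (ξ : ℂ) • v
  det_ne : ∀ ξ : 𝕃, ξ ≠ 0 → (R ξ).det ≠ 0
  R_Θ : R Θ = ϑ • (1 : Matrix (Fin d) (Fin d) ℂ)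
  R_X : ∀ i, (MA i).map (fun a : ℤ => (a : ℂ)) = (den : ℂ) • R (X i)
  R_Y : ∀ j, (MB j).map (fun p => aeval ϑ p) = (aeval ϑ h) • R (Y j)

/-- common denominator of finitely many rationals -/
theorem a4b_rat {ι : Type} [Fintype ι] (f : ι → ℚ) :
    ∃ D : ℤ, D ≠ 0 ∧ ∃ g : ι → ℤ, ∀ i, (g i : ℂ) = (D : ℂ) * (f i : ℂ) := by
  classical
  have key : ∀ s : Finset ι, ∃ D : ℤ, D ≠ 0 ∧ ∀ i ∈ s, ∃ g : ℤ, (g : ℂ) = (D : ℂ) * (f i : ℂ) := by
    intro s
    induction s using Finset.induction_on with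
    | empty => exact ⟨1, one_ne_zero, by simp⟩
    | insert a s ha ih =>
      obtain ⟨D, hD, hs⟩ := ih
      have hden : ((f a).den : ℂ) ≠ 0 := by
        exact_mod_cast (f a).den_nz
      refine ⟨D * (f a).den, mul_ne_zero hD (by exact_mod_cast (f a).den_nz), ?_⟩
      intro i hi
      rcases Finset.mem_insert.mp hi with rfl | hi
      · refine ⟨D * (f i).num, ?_⟩
        have h1 : ((f i : ℚ) : ℂ) = ((f i).num : ℂ) / ((f i).den : ℂ) := by
          exact_mod_cast congrArg (fun q : ℚ => (q : ℂ)) (Rat.num_div_den (f i)).symm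
        rw [h1]
        push_cast
        field_simp
      · obtain ⟨g, hg⟩ := hs i hi
        refine ⟨g * (f a).den, ?_⟩
        push_cast
        rw [hg]
        ring
  obtain ⟨D, hD, hs⟩ := key Finset.univ
  choose g hg using fun i => hs i (Finset.mem_univ i)
  exact ⟨D, hD, g, hg⟩

/-- a rational polynomial has a common denominator -/
theorem a4b_poly (r : Polynomial ℚ) (ϑ : ℂ) :
    ∃ D : ℤ, D ≠ 0 ∧ ∃ p : Polynomial ℤ, aeval ϑ p = (D : ℂ) * aeval ϑ r := by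
  obtain ⟨b, hb⟩ := IsLocalization.integerNormalization_map_to_map (nonZeroDivisors ℤ) (S := ℚ) r
  refine ⟨b, nonZeroDivisors.ne_zero b.2, IsLocalization.integerNormalization (nonZeroDivisors ℤ) r, ?_⟩
  have h1 : aeval ϑ (IsLocalization.integerNormalization (nonZeroDivisors ℤ) r)
      = aeval ϑ ((IsLocalization.integerNormalization (nonZeroDivisors ℤ) r).map (algebraMap ℤ ℚ)) := by
    rw [Polynomial.aeval_map_algebraMap]
  rw [h1, hb, map_zsmul (aeval ϑ : Polynomial ℚ →ₐ[ℚ] ℂ), zsmul_eq_mul]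

/-- an element of `ℚ(ϑ)` is a quotient of integral polynomials -/
theorem a4b_single (ϑ : ℂ) (c : ℚ⟮ϑ⟯) :
    ∃ h : Polynomial ℤ, aeval ϑ h ≠ 0 ∧ ∃ g : Polynomial ℤ, aeval ϑ g = aeval ϑ h * (c : ℂ) := by
  obtain ⟨r, s, hrs⟩ := (IntermediateField.mem_adjoin_simple_iff ℚ (c : ℂ)).mp c.2
  by_cases hs : aeval ϑ s = 0
  · refine ⟨1, by simp, 0, ?_⟩
    rw [hrs, hs, div_zero, mul_zero, map_zero]
  · obtain ⟨D, hD, p, hp⟩ := a4b_poly r ϑ
    obtain ⟨E, hE, q, hq⟩ := a4b_poly s ϑ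
    have hD' : (D : ℂ) ≠ 0 := by exact_mod_cast hD
    have hE' : (E : ℂ) ≠ 0 := by exact_mod_cast hE
    refine ⟨Polynomial.C D * q, ?_, Polynomial.C E * p, ?_⟩
    · rw [map_mul, hq, Polynomial.aeval_C]
      exact mul_ne_zero (by simpa using hD') (mul_ne_zero hE' hs)
    · rw [map_mul, map_mul, hq, hp, Polynomial.aeval_C, Polynomial.aeval_C, hrs]
      simp only [eq_intCast]
      field_simp

/-- common denominator of finitely many elements of `ℚ(ϑ)` -/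
theorem a4b_many (ϑ : ℂ) {ι : Type} [Fintype ι] (c : ι → ℚ⟮ϑ⟯) :
    ∃ h : Polynomial ℤ, aeval ϑ h ≠ 0 ∧ ∃ g : ι → Polynomial ℤ,
      ∀ i, aeval ϑ (g i) = aeval ϑ h * (c i : ℂ) := by
  classical
  have key : ∀ s : Finset ι, ∃ h : Polynomial ℤ, aeval ϑ h ≠ 0 ∧ ∀ i ∈ s, ∃ g : Polynomial ℤ,
      aeval ϑ g = aeval ϑ h * (c i : ℂ) := by
    intro s
    induction s using Finset.induction_on with
    | empty => exact ⟨1, by simp, by simp⟩
    | insert a s ha ih =>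
      obtain ⟨h, hh, hs⟩ := ih
      obtain ⟨h', hh', g', hg'⟩ := a4b_single ϑ (c a)
      refine ⟨h * h', by rw [map_mul]; exact mul_ne_zero hh hh', ?_⟩
      intro i hi
      rcases Finset.mem_insert.mp hi with rfl | hi
      · refine ⟨h * g', ?_⟩
        rw [map_mul, map_mul, hg']
        ring
      · obtain ⟨g, hg⟩ := hs i hi
        refine ⟨g * h', ?_⟩
        rw [map_mul, map_mul, hg]
        ring
  obtain ⟨h, hh, hs⟩ := key Finset.univ
  choose g hg using fun i => hs i (Finset.mem_univ i)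
  exact ⟨h, hh, g, hg⟩

/-- the identity map between the two incarnations of the field -/
def a4b_ι {ϑ : ℂ} (𝕃 : IntermediateField ℚ⟮ϑ⟯ ℂ) : 𝕃.toSubfield →+* 𝕃 where
  toFun x := ⟨x.1, x.2⟩
  map_one' := rfl
  map_mul' _ _ := rfl
  map_zero' := rfl
  map_add' _ _ := rfl

/-- the representation -/
def a4b_R {ϑ : ℂ} (𝕃 : IntermediateField ℚ⟮ϑ⟯ ℂ) {d : ℕ} (b : Module.Basis (Fin d) ℚ⟮ϑ⟯ 𝕃) :
    𝕃.toSubfield →+* Matrix (Fin d) (Fin d) ℂ :=
  ((algebraMap ℚ⟮ϑ⟯ ℂ).mapMatrix.comp (Algebra.leftMulMatrix b).toRingHom).comp (a4b_ι 𝕃)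

theorem a4b_R_apply {ϑ : ℂ} (𝕃 : IntermediateField ℚ⟮ϑ⟯ ℂ) {d : ℕ}
    (b : Module.Basis (Fin d) ℚ⟮ϑ⟯ 𝕃) (ξ : 𝕃.toSubfield) (i j : Fin d) :
    a4b_R 𝕃 b ξ i j = ((b.repr (a4b_ι 𝕃 ξ * b j) i : ℚ⟮ϑ⟯) : ℂ) := by
  have h : a4b_R 𝕃 b ξ i j = algebraMap ℚ⟮ϑ⟯ ℂ (Algebra.leftMulMatrix b (a4b_ι 𝕃 ξ) i j) := rfl
  rw [h, Algebra.leftMulMatrix_eq_repr_mul]
  rfl

theorem a4b_sum {ϑ : ℂ} (𝕃 : IntermediateField ℚ⟮ϑ⟯ ℂ) {d : ℕ}
    (b : Module.Basis (Fin d) ℚ⟮ϑ⟯ 𝕃) (η : 𝕃) :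
    ∑ i, ((b.repr η i : ℚ⟮ϑ⟯) : ℂ) * ((b i : 𝕃) : ℂ) = (η : ℂ) := by
  conv_rhs => rw [← b.sum_repr η]
  push_cast
  rfl

/-- A4b. PROOF. With `𝕃, b` of `exists_basis` (`𝕃.toSubfield`), `R ξ` = the matrix `Algebra.leftMulMatrix b ξ` with entries mapped to `ℂ`
(`ξ b_j = ∑_i M_{ij} b_i`), `v = (b_i)_i`: `(v ᵥ* M)_j = ∑_i b_i M_{ij} = ξ b_j`. `det R ξ ≠ 0` for `ξ ≠ 0` since `R ξ R ξ⁻¹ = R 1 = 1`. The matrices `R (X i)` have rational
entries by `exists_basis` (uniqueness of coordinates): `den` = common denominator. The entries of `R (Y j)` are in `ℚ(ϑ)`, i.e. of the form `p(ϑ)/q(ϑ)` with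
`p, q ∈ ℤ[X]`, `q(ϑ) ≠ 0` (`IntermediateField.mem_adjoin_simple_iff`): `h` = product of all the denominators. `R Θ = ϑ • 1` as `ϑ` is in the base field. -/
theorem exists_rep {r s : ℕ} (ϑ : ℂ) (hϑ : Transcendental ℚ ϑ) (x : Fin r → ℂ) (y : Fin s → ℂ)
    (hx : ∀ i, IsAlgebraic ℚ (x i)) (hy : ∀ j, IsAlgebraic ℚ⟮ϑ⟯ (y j)) : Nonempty (Rep ϑ x y) := by
  obtain ⟨𝕃, d, b, hx𝕃, hy𝕃, hrat⟩ := exists_basis ϑ hϑ x y hx hy
  choose q hq using hrat
  have hΘ : ϑ ∈ 𝕃.toSubfield := by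
    have h := 𝕃.algebraMap_mem (⟨ϑ, IntermediateField.mem_adjoin_simple_self ℚ ϑ⟩ : ℚ⟮ϑ⟯)
    exact h
  set X : Fin r → 𝕃.toSubfield := fun i => ⟨x i, hx𝕃 i⟩ with hX
  set Y : Fin s → 𝕃.toSubfield := fun j => ⟨y j, hy𝕃 j⟩ with hY
  obtain ⟨den, hden, gA, hgA⟩ := a4b_rat (fun p : Fin r × Fin d × Fin d => q p.1 p.2.2 p.2.1)
  obtain ⟨h, hh, gB, hgB⟩ := a4b_many ϑ (fun p : Fin s × Fin d × Fin d =>
    b.repr (a4b_ι 𝕃 (Y p.1) * b p.2.2) p.2.1)
  haveI : Nonempty (Fin d) := b.index_nonempty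
  have hRX : ∀ i l k, a4b_R 𝕃 b (X i) l k = (q i k l : ℂ) := by
    intro i l k
    rw [a4b_R_apply]
    have h1 : a4b_ι 𝕃 (X i) * b k = ∑ l, ((q i k l : ℚ) : ℚ⟮ϑ⟯) • b l := by
      apply Subtype.ext
      have h2 : ((a4b_ι 𝕃 (X i) * b k : 𝕃) : ℂ) = x i * ((b k : 𝕃) : ℂ) := rfl
      rw [h2, hq i k]
      push_cast
      apply Finset.sum_congr rfl
      intro l _
      rfl
    rw [h1, b.repr_sum_self]
    rfl
  refine ⟨{
    𝕃 := 𝕃.toSubfield
    d := d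
    R := a4b_R 𝕃 b
    v := fun i => ((b i : 𝕃) : ℂ)
    den := den
    h := h
    MA := fun i => Matrix.of fun l k => gA (i, l, k)
    MB := fun j => Matrix.of fun l k => gB (j, l, k)
    Θ := ⟨ϑ, hΘ⟩
    X := X
    Y := Y
    d_pos := Fin.pos_iff_nonempty.mpr inferInstance
    v_ne := ?_
    den_ne := hden
    h_ne := hh
    Θ_eq := rfl
    X_eq := fun i => rfl
    Y_eq := fun j => rfl
    eig := ?_
    det_ne := ?_
    R_Θ := ?_
    R_X := ?_
    R_Y := ?_ }⟩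
  · intro h0
    obtain ⟨k⟩ := (inferInstance : Nonempty (Fin d))
    have h1 := congrFun h0 k
    exact b.ne_zero k (Subtype.ext h1)
  · intro ξ
    funext j
    have h1 : Matrix.vecMul (fun i => ((b i : 𝕃) : ℂ)) (a4b_R 𝕃 b ξ) j
        = ∑ i, ((b i : 𝕃) : ℂ) * a4b_R 𝕃 b ξ i j := rfl
    rw [h1]
    have h2 : ∑ i, ((b i : 𝕃) : ℂ) * a4b_R 𝕃 b ξ i j
        = ∑ i, ((b.repr (a4b_ι 𝕃 ξ * b j) i : ℚ⟮ϑ⟯) : ℂ) * ((b i : 𝕃) : ℂ) := by
      apply Finset.sum_congr rfl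
      intro i _
      rw [a4b_R_apply, mul_comm]
    rw [h2, a4b_sum]
    rfl
  · intro ξ hξ
    have h1 : a4b_R 𝕃 b ξ * a4b_R 𝕃 b ξ⁻¹ = 1 := by
      rw [← map_mul, mul_inv_cancel₀ hξ, map_one]
    intro h0
    have h2 := congrArg Matrix.det h1
    rw [Matrix.det_mul, h0, zero_mul, Matrix.det_one] at h2
    exact zero_ne_one h2
  · have h1 : a4b_ι 𝕃 ⟨ϑ, hΘ⟩
        = algebraMap ℚ⟮ϑ⟯ 𝕃 ⟨ϑ, IntermediateField.mem_adjoin_simple_self ℚ ϑ⟩ := rfl
    have h2 : a4b_R 𝕃 b ⟨ϑ, hΘ⟩ = (algebraMap ℚ⟮ϑ⟯ ℂ).mapMatrix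
        (Algebra.leftMulMatrix b (a4b_ι 𝕃 ⟨ϑ, hΘ⟩)) := rfl
    rw [h2, h1, AlgHom.commutes]
    ext i j
    rw [RingHom.mapMatrix_apply, Matrix.map_apply, Matrix.algebraMap_matrix_apply,
      Matrix.smul_apply, Matrix.one_apply]
    split_ifs
    · rw [smul_eq_mul, mul_one]
      rfl
    · rw [map_zero, smul_zero]
  · intro i
    ext l k
    have h1 : (Matrix.of fun l k => gA (i, l, k)).map (fun a : ℤ => (a : ℂ)) l k
        = (gA (i, l, k) : ℂ) := rfl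
    rw [h1, hgA, Matrix.smul_apply, hRX, smul_eq_mul]
  · intro j
    ext l k
    have h1 : (Matrix.of fun l k => gB (j, l, k)).map (fun p => aeval ϑ p) l k
        = aeval ϑ (gB (j, l, k)) := rfl
    rw [h1, hgB, Matrix.smul_apply, a4b_R_apply, smul_eq_mul]

end Pool.Agent.MSP
end

end

section

/-! # A4c: integer polynomial matrices for the values of polynomials (MP_f58a57_nt, pairs) -/

open Complex Filter Topology IntermediateField Polynomial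

noncomputable section

namespace Pool.Agent.MSP

structure Dict (ϑ : ℂ) {r s : ℕ} (x : Fin r → ℂ) (y : Fin s → ℂ) where
  d : ℕ
  e : ℕ
  C : ℝ
  v : Fin d → ℂ
  sc : ℕ → ℕ → ℂ
  mat : ℕ → ℕ → MvPolynomial (Fin r ⊕ Fin s) ℤ → Matrix (Fin d) (Fin d) (Polynomial ℤ)
  d_pos : 0 < d
  one_le : 1 ≤ C
  v_ne : v ≠ 0
  sc_ne : ∀ D l, sc D l ≠ 0
  sc_le : ∀ D l, ‖sc D l‖ ≤ C ^ (D + l)
  deg : ∀ (D l : ℕ) (H : ℝ) (p : MvPolynomial (Fin r ⊕ Fin s) ℤ), Bd D l H p → ∀ i j, (mat D l p i j).natDegree ≤ e * l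
  len_le : ∀ (D l : ℕ) (H : ℝ) (p : MvPolynomial (Fin r ⊕ Fin s) ℤ), Bd D l H p → ∀ i j, len (mat D l p i j) ≤ C ^ (D + l) * H
  eig : ∀ (D l : ℕ) (H : ℝ) (p : MvPolynomial (Fin r ⊕ Fin s) ℤ), Bd D l H p →
    Matrix.vecMul v ((mat D l p).map (fun f => aeval ϑ f)) = (sc D l * MvPolynomial.aeval (Sum.elim x y) p) • v
  det_ne : ∀ (D l : ℕ) (H : ℝ) (ι : Type) [Fintype ι] (p : ι → Polynomial ℤ) (Ξ : ι → MvPolynomial (Fin r ⊕ Fin s) ℤ),
    (∀ ν, Bd D l H (Ξ ν)) → ∑ ν, aeval ϑ (p ν) * MvPolynomial.aeval (Sum.elim x y) (Ξ ν) ≠ 0 →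
    (∑ ν, p ν • mat D l (Ξ ν)).det ≠ 0

/-! ## bounds for matrices -/

/-- all row sums of lengths are at most `B` -/
def a4c_RS {d : ℕ} (M : Matrix (Fin d) (Fin d) (Polynomial ℤ)) (B : ℝ) : Prop :=
  ∀ i, ∑ j, len (M i j) ≤ B

/-- all degrees are at most `k` -/
def a4c_DL {d : ℕ} (M : Matrix (Fin d) (Fin d) (Polynomial ℤ)) (k : ℕ) : Prop :=
  ∀ i j, (M i j).natDegree ≤ k

theorem a4c_len_one : len 1 = 1 := by
  have h := len_C 1
  simpa using h

theorem a4c_RS_one {d : ℕ} : a4c_RS (1 : Matrix (Fin d) (Fin d) (Polynomial ℤ)) 1 := by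
  intro i
  rw [Finset.sum_eq_single i]
  · rw [Matrix.one_apply_eq, a4c_len_one]
  · intro j _ hj
    rw [Matrix.one_apply_ne (Ne.symm hj), len_zero]
  · intro h; exact absurd (Finset.mem_univ i) h

theorem a4c_RS_mul {d : ℕ} {M N : Matrix (Fin d) (Fin d) (Polynomial ℤ)} {B B' : ℝ} (hB' : 0 ≤ B')
    (hM : a4c_RS M B) (hN : a4c_RS N B') : a4c_RS (M * N) (B * B') := by
  intro i
  calc ∑ j, len ((M * N) i j) ≤ ∑ j, ∑ k, len (M i k) * len (N k j) := by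
        refine Finset.sum_le_sum fun j _ => ?_
        rw [Matrix.mul_apply]
        exact (len_sum _ _).trans (Finset.sum_le_sum fun k _ => len_mul _ _)
    _ = ∑ k, len (M i k) * ∑ j, len (N k j) := by
        rw [Finset.sum_comm]
        exact Finset.sum_congr rfl fun k _ => (Finset.mul_sum _ _ _).symm
    _ ≤ ∑ k, len (M i k) * B' :=
        Finset.sum_le_sum fun k _ => mul_le_mul_of_nonneg_left (hN k) (len_nonneg _)
    _ = (∑ k, len (M i k)) * B' := (Finset.sum_mul _ _ _).symm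
    _ ≤ B * B' := mul_le_mul_of_nonneg_right (hM i) hB'

theorem a4c_RS_pow {d : ℕ} {M : Matrix (Fin d) (Fin d) (Polynomial ℤ)} {B : ℝ} (hB : 0 ≤ B)
    (hM : a4c_RS M B) (k : ℕ) : a4c_RS (M ^ k) (B ^ k) := by
  induction k with
  | zero => rw [pow_zero, pow_zero]; exact a4c_RS_one
  | succ k ih => rw [pow_succ, pow_succ]; exact a4c_RS_mul hB ih hM

theorem a4c_RS_prod {d : ℕ} {B : ℝ} (hB : 0 ≤ B) : ∀ {n : ℕ}
    (F : Fin n → Matrix (Fin d) (Fin d) (Polynomial ℤ)) (k : Fin n → ℕ), (∀ i, a4c_RS (F i) B) →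
    a4c_RS (List.ofFn (fun i => F i ^ k i)).prod (B ^ ∑ i, k i)
  | 0, F, k, _ => by
    simpa using a4c_RS_one
  | n + 1, F, k, hF => by
    rw [List.ofFn_succ, List.prod_cons, Fin.sum_univ_succ, pow_add]
    exact a4c_RS_mul (pow_nonneg hB _) (a4c_RS_pow hB (hF 0) _)
      (a4c_RS_prod hB (fun i => F i.succ) (fun i => k i.succ) (fun i => hF i.succ))

theorem a4c_DL_one {d : ℕ} : a4c_DL (1 : Matrix (Fin d) (Fin d) (Polynomial ℤ)) 0 := by
  intro i j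
  by_cases h : i = j
  · rw [h, Matrix.one_apply_eq, Polynomial.natDegree_one]
  · rw [Matrix.one_apply_ne h, Polynomial.natDegree_zero]

theorem a4c_DL_mul {d : ℕ} {M N : Matrix (Fin d) (Fin d) (Polynomial ℤ)} {k k' : ℕ}
    (hM : a4c_DL M k) (hN : a4c_DL N k') : a4c_DL (M * N) (k + k') := by
  intro i j
  rw [Matrix.mul_apply]
  refine Polynomial.natDegree_sum_le_of_forall_le _ _ fun t _ => ?_
  exact Polynomial.natDegree_mul_le.trans (add_le_add (hM i t) (hN t j))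

theorem a4c_DL_pow {d : ℕ} {M : Matrix (Fin d) (Fin d) (Polynomial ℤ)} {e : ℕ}
    (hM : a4c_DL M e) (k : ℕ) : a4c_DL (M ^ k) (e * k) := by
  induction k with
  | zero => rw [pow_zero, mul_zero]; exact a4c_DL_one
  | succ k ih => rw [pow_succ, mul_add, mul_one]; exact a4c_DL_mul ih hM

theorem a4c_DL_prod {d : ℕ} {e : ℕ} : ∀ {n : ℕ}
    (F : Fin n → Matrix (Fin d) (Fin d) (Polynomial ℤ)) (k : Fin n → ℕ), (∀ i, a4c_DL (F i) e) →
    a4c_DL (List.ofFn (fun i => F i ^ k i)).prod (e * ∑ i, k i)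
  | 0, F, k, _ => by
    simpa using a4c_DL_one
  | n + 1, F, k, hF => by
    rw [List.ofFn_succ, List.prod_cons, Fin.sum_univ_succ, mul_add]
    exact a4c_DL_mul (a4c_DL_pow (hF 0) _)
      (a4c_DL_prod (fun i => F i.succ) (fun i => k i.succ) (fun i => hF i.succ))

theorem a4c_map_prod {A S : Type*} [Ring A] [Ring S] {𝕃 : Type*} [Field 𝕃] (E : A →+* S)
    (R : 𝕃 →+* S) : ∀ {n : ℕ} (F : Fin n → A) (ξ : Fin n → 𝕃) (k : Fin n → ℕ),
    (∀ i, E (F i) = R (ξ i)) →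
    E (List.ofFn (fun i => F i ^ k i)).prod = R (∏ i, ξ i ^ k i)
  | 0, F, ξ, k, _ => by simp
  | n + 1, F, ξ, k, h => by
    rw [List.ofFn_succ, List.prod_cons, Fin.prod_univ_succ, map_mul, map_mul, map_pow, map_pow,
      h 0, a4c_map_prod E R (fun i => F i.succ) (fun i => ξ i.succ) (fun i => k i.succ)
        (fun i => h i.succ)]

/-! ## the matrices -/

namespace Rep

variable {ϑ : ℂ} {r s : ℕ} {x : Fin r → ℂ} {y : Fin s → ℂ} (ρ : Rep ϑ x y)

/-- degree in the algebraic numbers -/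
def a4c_wA (m : (Fin r ⊕ Fin s) →₀ ℕ) : ℕ := ∑ i, m (Sum.inl i)

/-- degree in the functions -/
def a4c_wB (m : (Fin r ⊕ Fin s) →₀ ℕ) : ℕ := ∑ j, m (Sum.inr j)

def a4c_W (m : (Fin r ⊕ Fin s) →₀ ℕ) : Matrix (Fin ρ.d) (Fin ρ.d) (Polynomial ℤ) :=
  (List.ofFn (fun i => ((ρ.MA i).map Polynomial.C) ^ m (Sum.inl i))).prod *
    (List.ofFn (fun j => (ρ.MB j) ^ m (Sum.inr j))).prod

def a4c_co (D l : ℕ) (p : MvPolynomial (Fin r ⊕ Fin s) ℤ) (m : (Fin r ⊕ Fin s) →₀ ℕ) :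
    Polynomial ℤ :=
  Polynomial.C (p.coeff m) * (Polynomial.C ρ.den ^ (D - a4c_wA m) * ρ.h ^ (l - a4c_wB m))

def a4c_mat (D l : ℕ) (p : MvPolynomial (Fin r ⊕ Fin s) ℤ) :
    Matrix (Fin ρ.d) (Fin ρ.d) (Polynomial ℤ) :=
  ∑ m ∈ p.support, ρ.a4c_co D l p m • ρ.a4c_W m

/-- evaluation at `ϑ` -/
def a4c_E : Matrix (Fin ρ.d) (Fin ρ.d) (Polynomial ℤ) →+* Matrix (Fin ρ.d) (Fin ρ.d) ℂ :=
  (Polynomial.aeval ϑ : Polynomial ℤ →ₐ[ℤ] ℂ).toRingHom.mapMatrix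

theorem a4c_E_apply (M : Matrix (Fin ρ.d) (Fin ρ.d) (Polynomial ℤ)) :
    ρ.a4c_E M = M.map (fun f => aeval ϑ f) := rfl

theorem a4c_E_smul (f : Polynomial ℤ) (M : Matrix (Fin ρ.d) (Fin ρ.d) (Polynomial ℤ)) :
    ρ.a4c_E (f • M) = (aeval ϑ f : ℂ) • ρ.a4c_E M := by
  ext i j
  simp [a4c_E_apply, Matrix.map_apply, Matrix.smul_apply]

/-- a polynomial in `ϑ` acts through the representation -/
theorem a4c_R_aeval (f : Polynomial ℤ) :
    ρ.R (aeval ρ.Θ f) = (aeval ϑ f : ℂ) • (1 : Matrix (Fin ρ.d) (Fin ρ.d) ℂ) := by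
  have h1 : ρ.R (aeval ρ.Θ f) = f.eval₂ (Int.castRingHom _) (ρ.R ρ.Θ) := by
    rw [Polynomial.aeval_def, Polynomial.hom_eval₂]
    congr 1
    exact RingHom.ext_int _ _
  rw [h1, ρ.R_Θ]
  have h2 : ∀ k : ℕ, (ϑ • (1 : Matrix (Fin ρ.d) (Fin ρ.d) ℂ)) ^ k = (ϑ ^ k) • 1 := by
    intro k
    rw [_root_.smul_pow, one_pow]
  rw [Polynomial.eval₂_eq_sum, Polynomial.aeval_def, Polynomial.eval₂_eq_sum, Polynomial.sum,
    Polynomial.sum, Finset.sum_smul]
  refine Finset.sum_congr rfl fun k _ => ?_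
  rw [h2]
  simp only [eq_intCast, algebraMap_int_eq]
  rw [mul_smul, ← zsmul_eq_mul, Int.cast_smul_eq_zsmul]

theorem a4c_R_smul (f : Polynomial ℤ) (ξ : ρ.𝕃) :
    (aeval ϑ f : ℂ) • ρ.R ξ = ρ.R (aeval ρ.Θ f * ξ) := by
  rw [map_mul, a4c_R_aeval, smul_mul_assoc, one_mul]

theorem a4c_E_MA (i : Fin r) :
    ρ.a4c_E ((ρ.MA i).map Polynomial.C) = ρ.R ((ρ.den : ρ.𝕃) * ρ.X i) := by
  have h1 : ρ.a4c_E ((ρ.MA i).map Polynomial.C) = (ρ.MA i).map (fun a : ℤ => (a : ℂ)) := by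
    ext a b
    simp [a4c_E_apply, Matrix.map_apply]
  rw [h1, ρ.R_X, map_mul, map_intCast]
  ext a b
  rw [Matrix.smul_apply, smul_eq_mul]
  have : ((ρ.den : Matrix (Fin ρ.d) (Fin ρ.d) ℂ) * ρ.R (ρ.X i)) =
      (ρ.den : ℂ) • ρ.R (ρ.X i) := by
    rw [← zsmul_eq_mul, Int.cast_smul_eq_zsmul]
  rw [this, Matrix.smul_apply, smul_eq_mul]

theorem a4c_E_MB (j : Fin s) :
    ρ.a4c_E (ρ.MB j) = ρ.R (aeval ρ.Θ ρ.h * ρ.Y j) := by
  rw [← a4c_R_smul, ← ρ.R_Y]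
  rfl

/-- the scalar in the field -/
def a4c_S (D l : ℕ) : ρ.𝕃 := (ρ.den : ρ.𝕃) ^ D * (aeval ρ.Θ ρ.h) ^ l

theorem a4c_coe_aeval (f : Polynomial ℤ) : ((aeval ρ.Θ f : ρ.𝕃) : ℂ) = aeval ϑ f := by
  have h := Polynomial.hom_eval₂ f (algebraMap ℤ ρ.𝕃) ρ.𝕃.subtype ρ.Θ
  rw [Polynomial.aeval_def, Polynomial.aeval_def]
  have h1 : ρ.𝕃.subtype ρ.Θ = ϑ := ρ.Θ_eq
  rw [h1] at h
  rw [show ((Polynomial.eval₂ (algebraMap ℤ ρ.𝕃) ρ.Θ f : ρ.𝕃) : ℂ) =
    ρ.𝕃.subtype (Polynomial.eval₂ (algebraMap ℤ ρ.𝕃) ρ.Θ f) from rfl, h]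
  congr 1

theorem a4c_coe_maeval (p : MvPolynomial (Fin r ⊕ Fin s) ℤ) :
    ((MvPolynomial.aeval (Sum.elim ρ.X ρ.Y) p : ρ.𝕃) : ℂ) = MvPolynomial.aeval (Sum.elim x y) p := by
  have h := MvPolynomial.eval₂_comp_left ρ.𝕃.subtype (algebraMap ℤ ρ.𝕃) (Sum.elim ρ.X ρ.Y) p
  rw [MvPolynomial.aeval_def, MvPolynomial.aeval_def]
  rw [show ((MvPolynomial.eval₂ (algebraMap ℤ ρ.𝕃) (Sum.elim ρ.X ρ.Y) p : ρ.𝕃) : ℂ) =
    ρ.𝕃.subtype (MvPolynomial.eval₂ (algebraMap ℤ ρ.𝕃) (Sum.elim ρ.X ρ.Y) p) from rfl, h]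
  congr 1
  funext t
  rcases t with i | j
  · exact ρ.X_eq i
  · exact ρ.Y_eq j

theorem a4c_coe_S (D l : ℕ) : ((ρ.a4c_S D l : ρ.𝕃) : ℂ) = (ρ.den : ℂ) ^ D * (aeval ϑ ρ.h) ^ l := by
  rw [a4c_S]
  push_cast
  rw [a4c_coe_aeval]

theorem a4c_S_ne (D l : ℕ) : ρ.a4c_S D l ≠ 0 := by
  intro h
  have h1 := ρ.a4c_coe_S D l
  rw [h] at h1
  have h2 : (ρ.den : ℂ) ^ D * (aeval ϑ ρ.h) ^ l ≠ 0 :=
    mul_ne_zero (pow_ne_zero _ (by exact_mod_cast ρ.den_ne)) (pow_ne_zero _ ρ.h_ne)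
  exact h2 (by rw [← h1]; rfl)

/-- the key identity -/
theorem a4c_key {D l : ℕ} {H : ℝ} {p : MvPolynomial (Fin r ⊕ Fin s) ℤ} (hp : Bd D l H p) :
    ρ.a4c_E (ρ.a4c_mat D l p) =
      ρ.R (ρ.a4c_S D l * MvPolynomial.aeval (Sum.elim ρ.X ρ.Y) p) := by
  rw [a4c_mat, map_sum, MvPolynomial.aeval_def, MvPolynomial.eval₂_eq', Finset.mul_sum, map_sum]
  refine Finset.sum_congr rfl fun m hm => ?_
  have hA : a4c_wA m ≤ D := hp.dA m hm
  have hB : a4c_wB m ≤ l := hp.dB m hm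
  rw [a4c_E_smul, a4c_W, map_mul,
    a4c_map_prod ρ.a4c_E ρ.R _ (fun i => (ρ.den : ρ.𝕃) * ρ.X i) _ (fun i => ρ.a4c_E_MA i),
    a4c_map_prod ρ.a4c_E ρ.R _ (fun j => aeval ρ.Θ ρ.h * ρ.Y j) _ (fun j => ρ.a4c_E_MB j),
    ← map_mul, a4c_R_smul]
  congr 1
  rw [a4c_co, map_mul, map_mul, map_pow, map_pow, Polynomial.aeval_C, Polynomial.aeval_C,
    Fintype.prod_sum_type, a4c_S]
  simp only [Sum.elim_inl, Sum.elim_inr, mul_pow, Finset.prod_mul_distrib,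
    Finset.prod_pow_eq_pow_sum]
  have e1 : (ρ.den : ρ.𝕃) ^ D = (ρ.den : ρ.𝕃) ^ (D - a4c_wA m) * (ρ.den : ρ.𝕃) ^ (a4c_wA m) := by
    rw [← pow_add, Nat.sub_add_cancel hA]
  have e2 : (aeval ρ.Θ ρ.h : ρ.𝕃) ^ l =
      (aeval ρ.Θ ρ.h) ^ (l - a4c_wB m) * (aeval ρ.Θ ρ.h) ^ (a4c_wB m) := by
    rw [← pow_add, Nat.sub_add_cancel hB]
  rw [e1, e2]
  simp only [a4c_wA, a4c_wB, algebraMap_int_eq, eq_intCast]
  ring

end Rep

/-- A4c. PROOF. Let `ρ` be a `Rep`. Put `mat D l p = ∑_{m ∈ supp p} coeff_m p • (den^{D - |m_A|} h^{l - |m_B|}) • (∏_i (MA i)^{m_i}) (∏_j (MB j)^{m_j})` (products in a fixed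
order, `List.prod (List.ofFn ..)`; `MA i` is mapped to polynomials by `C`), `sc D l = den^D h(ϑ)^l`. Evaluated at `ϑ`, each term is
`coeff · sc D l • R(∏ X_i^{m_i} ∏ Y_j^{m_j})` (`R` is a ring homomorphism), so `(mat D l p)(ϑ) = sc D l • R(p(X, Y))`: this gives `eig`, and for a combination
`∑ p_ν(ϑ) mat(Ξ_ν)(ϑ) = sc D l • R(∑ p_ν(Θ) Ξ_ν(X,Y))` (`R Θ = ϑ • 1`), whose determinant is nonzero if the sum is (`det_ne`); the determinant of the
polynomial matrix evaluated at `ϑ` is the determinant of the evaluated matrix (`RingHom.map_det`). Bounds: a product of `k` matrices with entries of length `≤ B` and degree `≤ e` has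
entries of length `≤ (d B)^k` and degree `≤ e k`; `C = d · max(...)` (all of `1, |den|, len h`, `len` of the entries of `MA, MB`, `‖h(ϑ)‖`), `e` = maximum of the
degrees of `h` and the entries of `MB`; `∑_m |coeff_m| ≤ H`. -/
theorem exists_dict {r s : ℕ} (ϑ : ℂ) (hϑ : Transcendental ℚ ϑ) (x : Fin r → ℂ) (y : Fin s → ℂ)
    (hx : ∀ i, IsAlgebraic ℚ (x i)) (hy : ∀ j, IsAlgebraic ℚ⟮ϑ⟯ (y j)) : Nonempty (Dict ϑ x y) := by
  classical
  obtain ⟨ρ⟩ := exists_rep ϑ hϑ x y hx hy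
  -- the constants
  obtain ⟨B, hB1, hBden, hBh, hBϑ, hBA, hBB⟩ : ∃ B : ℝ, 1 ≤ B ∧ |(ρ.den : ℝ)| ≤ B ∧ len ρ.h ≤ B ∧
      ‖(aeval ϑ ρ.h : ℂ)‖ ≤ B ∧ (∀ i, a4c_RS ((ρ.MA i).map Polynomial.C) B) ∧
      (∀ j, a4c_RS (ρ.MB j) B) := by
    refine ⟨1 + |(ρ.den : ℝ)| + len ρ.h + ‖(aeval ϑ ρ.h : ℂ)‖ +
      (∑ i, ∑ a, ∑ b, len (((ρ.MA i).map Polynomial.C) a b)) +
      (∑ j, ∑ a, ∑ b, len (ρ.MB j a b)), ?_, ?_, ?_, ?_, ?_, ?_⟩
    all_goals
      have n1 : 0 ≤ |(ρ.den : ℝ)| := abs_nonneg _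
      have n2 : 0 ≤ len ρ.h := len_nonneg _
      have n3 : 0 ≤ ‖(aeval ϑ ρ.h : ℂ)‖ := norm_nonneg _
      have n4 : 0 ≤ ∑ i, ∑ a, ∑ b, len (((ρ.MA i).map Polynomial.C) a b) :=
        Finset.sum_nonneg fun i _ => Finset.sum_nonneg fun a _ => Finset.sum_nonneg fun b _ =>
          len_nonneg _
      have n5 : 0 ≤ ∑ j, ∑ a, ∑ b, len (ρ.MB j a b) :=
        Finset.sum_nonneg fun i _ => Finset.sum_nonneg fun a _ => Finset.sum_nonneg fun b _ =>
          len_nonneg _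
    · linarith
    · linarith
    · linarith
    · linarith
    · intro i a
      have h1 : ∑ b, len (((ρ.MA i).map Polynomial.C) a b) ≤
          ∑ a, ∑ b, len (((ρ.MA i).map Polynomial.C) a b) :=
        Finset.single_le_sum (f := fun a => ∑ b, len (((ρ.MA i).map Polynomial.C) a b))
          (fun a _ => Finset.sum_nonneg fun b _ => len_nonneg _) (Finset.mem_univ a)
      have h2 : ∑ a, ∑ b, len (((ρ.MA i).map Polynomial.C) a b) ≤
          ∑ i, ∑ a, ∑ b, len (((ρ.MA i).map Polynomial.C) a b) :=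
        Finset.single_le_sum (f := fun i => ∑ a, ∑ b, len (((ρ.MA i).map Polynomial.C) a b))
          (fun i _ => Finset.sum_nonneg fun a _ => Finset.sum_nonneg fun b _ => len_nonneg _)
          (Finset.mem_univ i)
      linarith
    · intro j a
      have h1 : ∑ b, len (ρ.MB j a b) ≤ ∑ a, ∑ b, len (ρ.MB j a b) :=
        Finset.single_le_sum (f := fun a => ∑ b, len (ρ.MB j a b))
          (fun a _ => Finset.sum_nonneg fun b _ => len_nonneg _) (Finset.mem_univ a)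
      have h2 : ∑ a, ∑ b, len (ρ.MB j a b) ≤ ∑ j, ∑ a, ∑ b, len (ρ.MB j a b) :=
        Finset.single_le_sum (f := fun j => ∑ a, ∑ b, len (ρ.MB j a b))
          (fun i _ => Finset.sum_nonneg fun a _ => Finset.sum_nonneg fun b _ => len_nonneg _)
          (Finset.mem_univ j)
      linarith
  have hB0 : 0 ≤ B := by linarith
  obtain ⟨e, heh, heB⟩ : ∃ e : ℕ, ρ.h.natDegree ≤ e ∧ ∀ j, a4c_DL (ρ.MB j) e := by
    refine ⟨ρ.h.natDegree + ∑ j, ∑ a, ∑ b, (ρ.MB j a b).natDegree, Nat.le_add_right _ _, ?_⟩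
    intro j a b
    have h1 : (ρ.MB j a b).natDegree ≤ ∑ b, (ρ.MB j a b).natDegree :=
      Finset.single_le_sum (f := fun b => (ρ.MB j a b).natDegree) (fun _ _ => Nat.zero_le _)
        (Finset.mem_univ b)
    have h2 : ∑ b, (ρ.MB j a b).natDegree ≤ ∑ a, ∑ b, (ρ.MB j a b).natDegree :=
      Finset.single_le_sum (f := fun a => ∑ b, (ρ.MB j a b).natDegree) (fun _ _ => Nat.zero_le _)
        (Finset.mem_univ a)
    have h3 : ∑ a, ∑ b, (ρ.MB j a b).natDegree ≤ ∑ j, ∑ a, ∑ b, (ρ.MB j a b).natDegree :=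
      Finset.single_le_sum (f := fun j => ∑ a, ∑ b, (ρ.MB j a b).natDegree)
        (fun _ _ => Nat.zero_le _) (Finset.mem_univ j)
    omega
  have heA : ∀ i, a4c_DL ((ρ.MA i).map Polynomial.C) 0 := by
    intro i a b
    rw [Matrix.map_apply, Polynomial.natDegree_C]
  -- powers of scalars
  have hlenpow : ∀ (f : Polynomial ℤ), len f ≤ B → ∀ k : ℕ, len (f ^ k) ≤ B ^ k := by
    intro f hf k
    induction k with
    | zero => rw [pow_zero, pow_zero, a4c_len_one]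
    | succ k ih =>
      rw [pow_succ, pow_succ]
      exact (len_mul _ _).trans (mul_le_mul ih hf (len_nonneg _) (pow_nonneg hB0 _))
  refine ⟨{
    d := ρ.d
    e := e
    C := B
    v := ρ.v
    sc := fun D l => (ρ.den : ℂ) ^ D * (aeval ϑ ρ.h) ^ l
    mat := fun D l p => ρ.a4c_mat D l p
    d_pos := ρ.d_pos
    one_le := hB1
    v_ne := ρ.v_ne
    sc_ne := fun D l => mul_ne_zero (pow_ne_zero _ (by exact_mod_cast ρ.den_ne))
      (pow_ne_zero _ ρ.h_ne)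
    sc_le := ?_
    deg := ?_
    len_le := ?_
    eig := ?_
    det_ne := ?_ }⟩
  · intro D l
    rw [norm_mul, norm_pow, norm_pow, Complex.norm_intCast, pow_add]
    exact mul_le_mul (pow_le_pow_left₀ (abs_nonneg _) hBden _)
      (pow_le_pow_left₀ (norm_nonneg _) hBϑ _) (pow_nonneg (norm_nonneg _) _) (pow_nonneg hB0 _)
  · intro D l H p hp i j
    show (ρ.a4c_mat D l p i j).natDegree ≤ e * l
    rw [Rep.a4c_mat, Matrix.sum_apply]
    refine Polynomial.natDegree_sum_le_of_forall_le _ _ fun m hm => ?_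
    have hBm : Rep.a4c_wB m ≤ l := hp.dB m hm
    rw [Matrix.smul_apply, smul_eq_mul]
    have h1 : (ρ.a4c_co D l p m).natDegree ≤ e * (l - Rep.a4c_wB m) := by
      rw [Rep.a4c_co]
      refine (Polynomial.natDegree_C_mul_le _ _).trans ?_
      rw [← map_pow]
      refine (Polynomial.natDegree_C_mul_le _ _).trans ?_
      refine Polynomial.natDegree_pow_le.trans ?_
      rw [mul_comm]
      exact Nat.mul_le_mul_right _ heh
    have h2 : (ρ.a4c_W m i j).natDegree ≤ e * Rep.a4c_wB m := by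
      have h3 := a4c_DL_mul
        (a4c_DL_prod (fun i => (ρ.MA i).map Polynomial.C) (fun i => m (Sum.inl i)) heA)
        (a4c_DL_prod ρ.MB (fun j => m (Sum.inr j)) heB) i j
      simp only [zero_mul, zero_add] at h3
      exact h3
    refine Polynomial.natDegree_mul_le.trans ((add_le_add h1 h2).trans (le_of_eq ?_))
    rw [← mul_add, Nat.sub_add_cancel hBm]
  · intro D l H p hp i j
    show len (ρ.a4c_mat D l p i j) ≤ B ^ (D + l) * H
    rw [Rep.a4c_mat, Matrix.sum_apply]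
    refine (len_sum _ _).trans ?_
    calc ∑ m ∈ p.support, len ((ρ.a4c_co D l p m • ρ.a4c_W m) i j)
        ≤ ∑ m ∈ p.support, B ^ (D + l) * |((p.coeff m : ℤ) : ℝ)| := by
          refine Finset.sum_le_sum fun m hm => ?_
          have hA : Rep.a4c_wA m ≤ D := hp.dA m hm
          have hBm : Rep.a4c_wB m ≤ l := hp.dB m hm
          rw [Matrix.smul_apply, smul_eq_mul]
          have h1 : len (ρ.a4c_co D l p m) ≤
              |((p.coeff m : ℤ) : ℝ)| * (B ^ (D - Rep.a4c_wA m) * B ^ (l - Rep.a4c_wB m)) := by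
            rw [Rep.a4c_co]
            refine (len_mul _ _).trans ?_
            rw [len_C]
            refine mul_le_mul_of_nonneg_left ?_ (abs_nonneg _)
            refine (len_mul _ _).trans ?_
            exact mul_le_mul (hlenpow _ (by rw [len_C]; exact hBden) _) (hlenpow _ hBh _)
              (len_nonneg _) (pow_nonneg hB0 _)
          have h2 : len (ρ.a4c_W m i j) ≤ B ^ Rep.a4c_wA m * B ^ Rep.a4c_wB m := by
            have h3 := a4c_RS_mul (pow_nonneg hB0 _)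
              (a4c_RS_prod hB0 (fun i => (ρ.MA i).map Polynomial.C) (fun i => m (Sum.inl i)) hBA)
              (a4c_RS_prod hB0 ρ.MB (fun j => m (Sum.inr j)) hBB) i
            exact (Finset.single_le_sum (f := fun j => len (ρ.a4c_W m i j))
              (fun _ _ => len_nonneg _) (Finset.mem_univ j)).trans h3
          refine (len_mul _ _).trans ((mul_le_mul h1 h2 (len_nonneg _) (by positivity)).trans
            (le_of_eq ?_))
          have e1 : B ^ (D + l) = (B ^ (D - Rep.a4c_wA m) * B ^ Rep.a4c_wA m) *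
              (B ^ (l - Rep.a4c_wB m) * B ^ Rep.a4c_wB m) := by
            rw [← pow_add, ← pow_add, Nat.sub_add_cancel hA, Nat.sub_add_cancel hBm, ← pow_add]
          rw [e1]
          ring
      _ = B ^ (D + l) * mlen p := by rw [mlen, Finset.mul_sum]
      _ ≤ B ^ (D + l) * H := mul_le_mul_of_nonneg_left hp.h (pow_nonneg hB0 _)
  · intro D l H p hp
    have h1 := ρ.a4c_key hp
    rw [Rep.a4c_E_apply] at h1
    show Matrix.vecMul ρ.v ((ρ.a4c_mat D l p).map (fun f => aeval ϑ f)) = _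
    rw [h1, ρ.eig]
    congr 1
    rw [← ρ.a4c_coe_S, ← ρ.a4c_coe_maeval]
    rfl
  · intro D l H ι _ p Ξ hΞ hne
    show (∑ ν, p ν • ρ.a4c_mat D l (Ξ ν)).det ≠ 0
    intro h0
    have h1 : (ρ.a4c_E (∑ ν, p ν • ρ.a4c_mat D l (Ξ ν))).det = 0 := by
      have h2 := RingHom.map_det (Polynomial.aeval ϑ : Polynomial ℤ →ₐ[ℤ] ℂ).toRingHom
        (∑ ν, p ν • ρ.a4c_mat D l (Ξ ν))
      rw [h0, map_zero] at h2
      exact h2.symm
    have h3 : ρ.a4c_E (∑ ν, p ν • ρ.a4c_mat D l (Ξ ν)) =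
        ρ.R (ρ.a4c_S D l * ∑ ν, aeval ρ.Θ (p ν) *
          MvPolynomial.aeval (Sum.elim ρ.X ρ.Y) (Ξ ν)) := by
      rw [map_sum, Finset.mul_sum, map_sum]
      refine Finset.sum_congr rfl fun ν _ => ?_
      rw [Rep.a4c_E_smul, ρ.a4c_key (hΞ ν), Rep.a4c_R_smul]
      congr 1
      ring
    rw [h3] at h1
    refine ρ.det_ne _ (mul_ne_zero (ρ.a4c_S_ne D l) ?_) h1
    intro h4
    apply hne
    have h5 := congrArg (fun ξ : ρ.𝕃 => (ξ : ℂ)) h4
    push_cast at h5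
    rw [← h5]
    refine Finset.sum_congr rfl fun ν _ => ?_
    rw [Rep.a4c_coe_aeval, Rep.a4c_coe_maeval]

end Pool.Agent.MSP
end

end

section

/-! # A5: Siegel's lemma over `ℤ[ϑ]` (MP_f58a57_nt, pairs) -/

open Complex Filter Topology IntermediateField Polynomial

noncomputable section

namespace Pool.Agent.MSP

/-- the polynomial with given coefficients -/
def a5_pol {δ : ℕ} (t : Fin (δ + 1) → ℤ) : Polynomial ℤ := ∑ m : Fin (δ + 1), C (t m) * X ^ (m : ℕ)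

theorem a5_coeff_mul {δ : ℕ} (t : Fin (δ + 1) → ℤ) (q : Polynomial ℤ) (k : ℕ) :
    (a5_pol t * q).coeff k = ∑ m : Fin (δ + 1), (if (m : ℕ) ≤ k then q.coeff (k - m) else 0) * t m := by
  unfold a5_pol
  rw [Finset.sum_mul, finsetSum_coeff]
  refine Finset.sum_congr rfl fun m _ => ?_
  rw [mul_assoc, coeff_C_mul, coeff_X_pow_mul', mul_comm]

theorem a5_coeff {δ : ℕ} (t : Fin (δ + 1) → ℤ) (m : Fin (δ + 1)) : (a5_pol t).coeff m = t m := by
  have h := a5_coeff_mul t 1 m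
  rw [mul_one] at h
  rw [h, Finset.sum_eq_single m]
  · simp
  · intro b _ hb
    by_cases hbm : (b : ℕ) ≤ m
    · rw [if_pos hbm, coeff_one, if_neg, zero_mul]
      intro h0
      apply hb
      apply Fin.ext
      omega
    · rw [if_neg hbm, zero_mul]
  · intro h0
    exact absurd (Finset.mem_univ m) h0

theorem a5_natDegree {δ : ℕ} (t : Fin (δ + 1) → ℤ) : (a5_pol t).natDegree ≤ δ := by
  unfold a5_pol
  refine natDegree_sum_le_of_forall_le _ _ fun m _ => ?_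
  refine (natDegree_C_mul_X_pow_le _ _).trans ?_
  have := m.2
  omega

theorem a5_bound {δ : ℕ} (t : Fin (δ + 1) → ℤ) {B : ℝ} (hB : ∀ m, |((t m : ℤ) : ℝ)| ≤ B) (hB0 : 0 ≤ B)
    (i : ℕ) : |(((a5_pol t).coeff i : ℤ) : ℝ)| ≤ B := by
  by_cases hi : i < δ + 1
  · have := a5_coeff t ⟨i, hi⟩
    simp only at this
    rw [this]
    exact hB _
  · rw [coeff_eq_zero_of_natDegree_lt (lt_of_le_of_lt (a5_natDegree t) (by omega))]
    simpa using hB0

/-- Siegel's lemma with exponent at most one. -/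
theorem a5_siegel {α β : Type} [Fintype α] [Fintype β] (A : Matrix α β ℤ) {B : ℝ} (hB : 1 ≤ B)
    (hA : ∀ i j, |((A i j : ℤ) : ℝ)| ≤ B) (h : 2 * Fintype.card α ≤ Fintype.card β)
    (hα : 0 < Fintype.card α) :
    ∃ t : β → ℤ, t ≠ 0 ∧ A.mulVec t = 0 ∧ ∀ j, |((t j : ℤ) : ℝ)| ≤ Fintype.card β * B := by
  classical
  let _ : SeminormedAddCommGroup (Matrix α β ℤ) := Matrix.seminormedAddCommGroup
  obtain ⟨t, ht, hAt, hn⟩ := Int.Matrix.exists_ne_zero_int_vec_norm_le A (by omega) hα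
  refine ⟨t, ht, hAt, fun j => ?_⟩
  have hβ : (1 : ℝ) ≤ Fintype.card β := by
    have : 1 ≤ Fintype.card β := by omega
    exact_mod_cast this
  have hAn : max 1 ‖A‖ ≤ B := by
    refine max_le hB ?_
    rw [Matrix.norm_le_iff (by linarith)]
    intro i j
    rw [Int.norm_eq_abs]
    exact hA i j
  have h1 : |((t j : ℤ) : ℝ)| ≤ ‖t‖ := by
    rw [← Int.norm_eq_abs]
    exact norm_le_pi_norm t j
  have hbase : (1 : ℝ) ≤ Fintype.card β * max 1 ‖A‖ := by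
    have : (1 : ℝ) ≤ max 1 ‖A‖ := le_max_left _ _
    nlinarith
  have hexp : (Fintype.card α : ℝ) / (Fintype.card β - Fintype.card α) ≤ 1 := by
    have h2 : (2 : ℝ) * Fintype.card α ≤ Fintype.card β := by exact_mod_cast h
    have h3 : (0 : ℝ) < Fintype.card α := by exact_mod_cast hα
    rw [div_le_one (by linarith)]
    linarith
  calc |((t j : ℤ) : ℝ)| ≤ ‖t‖ := h1
    _ ≤ (Fintype.card β * max 1 ‖A‖) ^ ((Fintype.card α : ℝ) / (Fintype.card β - Fintype.card α)) := hn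
    _ ≤ (Fintype.card β * max 1 ‖A‖) ^ (1 : ℝ) := Real.rpow_le_rpow_of_exponent_le hbase hexp
    _ = Fintype.card β * max 1 ‖A‖ := Real.rpow_one _
    _ ≤ Fintype.card β * B := by gcongr

/-- the matrix relation gives the numerical relation -/
theorem a5_eval {ϑ : ℂ} {r s : ℕ} {x : Fin r → ℂ} {y : Fin s → ℂ} (𝔇 : Dict ϑ x y) {ι : Type}
    [Fintype ι] {D l : ℕ} {H : ℝ} (Ξ : ι → MvPolynomial (Fin r ⊕ Fin s) ℤ) (hΞ : ∀ ν, Bd D l H (Ξ ν))
    (p : ι → Polynomial ℤ)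
    (h : ∀ i j, ∑ ν, p ν * 𝔇.mat D l (Ξ ν) i j = 0) :
    ∑ ν, aeval ϑ (p ν) * MvPolynomial.aeval (Sum.elim x y) (Ξ ν) = 0 := by
  have h1 : ∀ j, ∑ i, 𝔇.v i * ∑ ν, aeval ϑ (p ν) * aeval ϑ (𝔇.mat D l (Ξ ν) i j) = 0 := by
    intro j
    refine Finset.sum_eq_zero fun i _ => ?_
    have h2 := congrArg (aeval ϑ) (h i j)
    rw [map_sum, map_zero] at h2
    simp only [map_mul] at h2
    rw [h2, mul_zero]
  have h3 : ∀ j, (𝔇.sc D l * ∑ ν, aeval ϑ (p ν) * MvPolynomial.aeval (Sum.elim x y) (Ξ ν)) * 𝔇.v j = 0 := by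
    intro j
    rw [← h1 j]
    have h4 : ∀ ν, ∑ i, 𝔇.v i * aeval ϑ (𝔇.mat D l (Ξ ν) i j) =
        (𝔇.sc D l * MvPolynomial.aeval (Sum.elim x y) (Ξ ν)) * 𝔇.v j := by
      intro ν
      have h5 := congrFun (𝔇.eig D l H (Ξ ν) (hΞ ν)) j
      rw [Pi.smul_apply, smul_eq_mul] at h5
      rw [← h5]
      rfl
    calc (𝔇.sc D l * ∑ ν, aeval ϑ (p ν) * MvPolynomial.aeval (Sum.elim x y) (Ξ ν)) * 𝔇.v j
        = ∑ ν, aeval ϑ (p ν) * ((𝔇.sc D l * MvPolynomial.aeval (Sum.elim x y) (Ξ ν)) * 𝔇.v j) := by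
          rw [Finset.mul_sum, Finset.sum_mul]
          refine Finset.sum_congr rfl fun ν _ => ?_
          ring
      _ = ∑ ν, aeval ϑ (p ν) * ∑ i, 𝔇.v i * aeval ϑ (𝔇.mat D l (Ξ ν) i j) := by
          refine Finset.sum_congr rfl fun ν _ => ?_
          rw [h4 ν]
      _ = ∑ ν, ∑ i, 𝔇.v i * (aeval ϑ (p ν) * aeval ϑ (𝔇.mat D l (Ξ ν) i j)) := by
          refine Finset.sum_congr rfl fun ν _ => ?_
          rw [Finset.mul_sum]
          refine Finset.sum_congr rfl fun i _ => ?_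
          ring
      _ = ∑ i, ∑ ν, 𝔇.v i * (aeval ϑ (p ν) * aeval ϑ (𝔇.mat D l (Ξ ν) i j)) := Finset.sum_comm
      _ = ∑ i, 𝔇.v i * ∑ ν, aeval ϑ (p ν) * aeval ϑ (𝔇.mat D l (Ξ ν) i j) := by
          refine Finset.sum_congr rfl fun i _ => ?_
          rw [Finset.mul_sum]
  obtain ⟨j, hj⟩ := Function.ne_iff.1 𝔇.v_ne
  have h6 := (mul_eq_zero.1 (h3 j)).resolve_right hj
  exact (mul_eq_zero.1 h6).resolve_left (𝔇.sc_ne D l)

/-- A5. PROOF. Let `𝔇` be a `Dict`, `δ = e l`. Unknowns: the `card ι · (δ + 1)` coefficients of the `p_ν`. It suffices that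
`∑_ν p_ν mat(Ξ_{c,ν}) = 0` in `Mat_d(ℤ[X])` for all `c` (by `eig`, `sc_ne`, `v_ne`): `card κ · d² · (2δ + 1)` integer equations (coefficients of
`X^k`, `k ≤ 2δ`), with coefficients bounded by `C^{D+l} H`. If `C' ≥ 4d²`, then `card ι (δ+1) ≥ 4d² card κ (δ+1) ≥ 2 · card κ d² (2δ+1)`, and Siegel's lemma
`Int.Matrix.exists_ne_zero_int_vec_norm_le` (exponent `m/(n-m) ≤ 1`) gives a nonzero solution with `|coefficients| ≤ card ι (δ+1) C^{D+l} H`, so
`len p_ν ≤ (δ+1)² card ι C^{D+l} H ≤ card ι · C'^{D+l+1} H`. (If `card κ = 0` take all `p_ν = 1`.) -/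
theorem siegel {r s : ℕ} (ϑ : ℂ) (hϑ : Transcendental ℚ ϑ) (x : Fin r → ℂ) (y : Fin s → ℂ)
    (hx : ∀ i, IsAlgebraic ℚ (x i)) (hy : ∀ j, IsAlgebraic ℚ⟮ϑ⟯ (y j)) : ∃ C : ℝ, 1 ≤ C ∧
    ∀ (ι κ : Type) [Fintype ι] [Fintype κ] (D l : ℕ) (H : ℝ) (Ξ : κ → ι → MvPolynomial (Fin r ⊕ Fin s) ℤ), 1 ≤ H →
      (∀ c ν, Bd D l H (Ξ c ν)) → 0 < Fintype.card ι → C * Fintype.card κ ≤ Fintype.card ι →
      ∃ p : ι → Polynomial ℤ, p ≠ 0 ∧ (∀ ν, ((p ν).natDegree : ℝ) ≤ C * l) ∧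
        (∀ ν, len (p ν) ≤ Fintype.card ι * C ^ (D + l + 1) * H) ∧
        ∀ c, ∑ ν, aeval ϑ (p ν) * MvPolynomial.aeval (Sum.elim x y) (Ξ c ν) = 0 := by
  classical
  obtain ⟨𝔇⟩ := exists_dict ϑ hϑ x y hx hy
  set d := 𝔇.d with hd
  set e := 𝔇.e with he
  have hC0 : 1 ≤ 𝔇.C := 𝔇.one_le
  have hd1 : (1 : ℝ) ≤ d := by exact_mod_cast 𝔇.d_pos
  have he1 : (1 : ℝ) ≤ (e : ℝ) + 1 := by
    have : (0 : ℝ) ≤ e := Nat.cast_nonneg _
    linarith
  set K : ℝ := 4 * ((e : ℝ) + 1) ^ 2 with hK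
  have hK1 : 4 ≤ K := by
    rw [hK]
    nlinarith
  set C' : ℝ := K * 𝔇.C * (d : ℝ) ^ 2 with hC'
  have hd2 : (1 : ℝ) ≤ (d : ℝ) ^ 2 := one_le_pow₀ hd1
  have hKC : K * 𝔇.C ≤ C' := by
    rw [hC']
    exact le_mul_of_one_le_right (by positivity) hd2
  have hKC1 : K ≤ K * 𝔇.C := le_mul_of_one_le_right (by linarith) hC0
  have hC'1 : 1 ≤ C' := by linarith
  have h4d : 4 * (d : ℝ) ^ 2 ≤ C' := by
    rw [hC']
    have : 4 ≤ K * 𝔇.C := by linarith
    nlinarith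
  have heC : (e : ℝ) ≤ C' := by
    have : (e : ℝ) ≤ K := by
      rw [hK]
      nlinarith [Nat.cast_nonneg (α := ℝ) e]
    linarith
  refine ⟨C', hC'1, ?_⟩
  intro ι κ _ _ D l H Ξ hH hΞ hι hcard
  have hι1 : (1 : ℝ) ≤ Fintype.card ι := by exact_mod_cast hι
  by_cases hκ : Fintype.card κ = 0
  · have hem : IsEmpty κ := Fintype.card_eq_zero_iff.1 hκ
    refine ⟨fun _ => 1, ?_, ?_, ?_, fun c => hem.elim c⟩
    · intro h0
      have hne : Nonempty ι := Fintype.card_pos_iff.1 hι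
      have := congrFun h0 hne.some
      simp at this
    · intro ν
      simp only [natDegree_one, Nat.cast_zero]
      positivity
    · intro ν
      have h1 : len (1 : Polynomial ℤ) = 1 := by
        have := len_C 1
        simpa using this
      rw [h1]
      have h2 : (1 : ℝ) ≤ C' ^ (D + l + 1) := one_le_pow₀ hC'1
      calc (1 : ℝ) = 1 * 1 * 1 := by norm_num
        _ ≤ Fintype.card ι * C' ^ (D + l + 1) * H := by gcongr
  · have hκ' : 0 < Fintype.card κ := Nat.pos_of_ne_zero hκ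
    set δ := e * l with hδ
    let A : Matrix (κ × (Fin d × Fin d) × Fin (2 * δ + 1)) (ι × Fin (δ + 1)) ℤ := fun a b =>
      if (b.2 : ℕ) ≤ (a.2.2 : ℕ) then
        (𝔇.mat D l (Ξ a.1 b.1) a.2.1.1 a.2.1.2).coeff ((a.2.2 : ℕ) - (b.2 : ℕ)) else 0
    have hB1 : 1 ≤ 𝔇.C ^ (D + l) * H := by
      have : (1 : ℝ) ≤ 𝔇.C ^ (D + l) := one_le_pow₀ hC0
      nlinarith
    have hA : ∀ a b, |((A a b : ℤ) : ℝ)| ≤ 𝔇.C ^ (D + l) * H := by
      intro a b
      simp only [A]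
      split_ifs
      · exact (abs_coeff_le_len _ _).trans (𝔇.len_le D l H _ (hΞ _ _) _ _)
      · simp only [Int.cast_zero, abs_zero]
        linarith
    have hcα : Fintype.card (κ × (Fin d × Fin d) × Fin (2 * δ + 1)) =
        Fintype.card κ * (d * d * (2 * δ + 1)) := by
      simp [Fintype.card_prod]
    have hcβ : Fintype.card (ι × Fin (δ + 1)) = Fintype.card ι * (δ + 1) := by
      simp [Fintype.card_prod]
    have hcard2 : 4 * d * d * Fintype.card κ ≤ Fintype.card ι := by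
      have h1 : 4 * (d : ℝ) ^ 2 * Fintype.card κ ≤ Fintype.card ι := by
        refine le_trans ?_ hcard
        gcongr
      have h2 : ((4 * d * d * Fintype.card κ : ℕ) : ℝ) ≤ (Fintype.card ι : ℕ) := by
        push_cast
        linarith
      exact_mod_cast h2
    obtain ⟨t, ht, hAt, htB⟩ := a5_siegel A hB1 hA (by
        rw [hcα, hcβ]
        calc 2 * (Fintype.card κ * (d * d * (2 * δ + 1)))
            ≤ (4 * d * d * Fintype.card κ) * (δ + 1) := by nlinarith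
          _ ≤ Fintype.card ι * (δ + 1) := by gcongr) (by
        rw [hcα]
        have := 𝔇.d_pos
        positivity)
    refine ⟨fun ν => a5_pol fun m => t (ν, m), ?_, ?_, ?_, ?_⟩
    · intro h0
      apply ht
      funext b
      have h1 := congrFun h0 b.1
      have h2 := a5_coeff (fun m => t (b.1, m)) b.2
      rw [h1] at h2
      simpa using h2.symm
    · intro ν
      have h1 := a5_natDegree (fun m => t (ν, m))
      have h2 : ((a5_pol fun m => t (ν, m)).natDegree : ℝ) ≤ (e * l : ℕ) := by exact_mod_cast h1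
      refine h2.trans ?_
      push_cast
      gcongr
    · intro ν
      have hβ : ((Fintype.card (ι × Fin (δ + 1)) : ℕ) : ℝ) = Fintype.card ι * ((δ : ℝ) + 1) := by
        rw [hcβ]
        push_cast
        ring
      have h1 := len_le_of_coeff (a5_pol fun m => t (ν, m)) _
        (a5_bound (fun m => t (ν, m)) (fun m => htB (ν, m)) (by positivity))
      have h2 : ((a5_pol fun m => t (ν, m)).natDegree : ℝ) ≤ δ := by
        exact_mod_cast a5_natDegree (fun m => t (ν, m))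
      have h3 : ((δ : ℝ) + 1) ^ 2 ≤ K ^ (D + l + 1) := by
        have h4 : (δ : ℝ) + 1 ≤ (e + 1) * 2 ^ l := by
          have h5 : (l : ℝ) + 1 ≤ 2 ^ l := by
            have := Nat.lt_two_pow_self (n := l)
            exact_mod_cast this
          rw [hδ]
          push_cast
          nlinarith [Nat.cast_nonneg (α := ℝ) e, Nat.cast_nonneg (α := ℝ) l]
        have h6 : ((e : ℝ) + 1) ^ 2 ≤ K := by
          rw [hK]
          nlinarith
        calc ((δ : ℝ) + 1) ^ 2 ≤ ((e + 1) * 2 ^ l) ^ 2 := by gcongr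
          _ = ((e : ℝ) + 1) ^ 2 * 4 ^ l := by
              rw [mul_pow, ← pow_mul, mul_comm l 2, pow_mul]
              norm_num
          _ ≤ K * K ^ l := by gcongr
          _ = K ^ (l + 1) := by ring
          _ ≤ K ^ (D + l + 1) := pow_le_pow_right₀ (by linarith) (by omega)
      have h7 : K ^ (D + l + 1) * 𝔇.C ^ (D + l) ≤ C' ^ (D + l + 1) := by
        have h8 : 𝔇.C ^ (D + l) ≤ 𝔇.C ^ (D + l + 1) := pow_le_pow_right₀ hC0 (Nat.le_succ _)
        calc K ^ (D + l + 1) * 𝔇.C ^ (D + l) ≤ K ^ (D + l + 1) * 𝔇.C ^ (D + l + 1) := by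
              gcongr
          _ = (K * 𝔇.C) ^ (D + l + 1) := (mul_pow K 𝔇.C (D + l + 1)).symm
          _ ≤ C' ^ (D + l + 1) := by gcongr
      calc len (a5_pol fun m => t (ν, m))
          ≤ ((a5_pol fun m => t (ν, m)).natDegree + 1) *
            (((Fintype.card (ι × Fin (δ + 1)) : ℕ) : ℝ) * (𝔇.C ^ (D + l) * H)) := h1
        _ ≤ ((δ : ℝ) + 1) * ((Fintype.card ι * ((δ : ℝ) + 1)) * (𝔇.C ^ (D + l) * H)) := by
            rw [hβ]
            gcongr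
        _ = Fintype.card ι * (((δ : ℝ) + 1) ^ 2 * 𝔇.C ^ (D + l)) * H := by ring
        _ ≤ Fintype.card ι * (K ^ (D + l + 1) * 𝔇.C ^ (D + l)) * H := by gcongr
        _ ≤ Fintype.card ι * C' ^ (D + l + 1) * H := by gcongr
    · intro c
      refine a5_eval 𝔇 (Ξ c) (hΞ c) _ fun i j => ?_
      ext k
      rw [finsetSum_coeff, coeff_zero]
      by_cases hk : k < 2 * δ + 1
      · have h1 := congrFun hAt (c, (i, j), ⟨k, hk⟩)
        rw [Pi.zero_apply, Matrix.mulVec, dotProduct, Fintype.sum_prod_type] at h1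
        rw [← h1]
        refine Finset.sum_congr rfl fun ν _ => ?_
        rw [a5_coeff_mul]
      · refine Finset.sum_eq_zero fun ν _ => ?_
        apply coeff_eq_zero_of_natDegree_lt
        refine lt_of_le_of_lt natDegree_mul_le ?_
        have h1 := a5_natDegree (fun m => t (ν, m))
        have h2 := 𝔇.deg D l H (Ξ c ν) (hΞ c ν) i j
        have h3 : e * l = δ := rfl
        rw [← he, h3] at h2
        omega

end Pool.Agent.MSP
end

end

section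

/-! # A6: norms (MP_f58a57_nt, pairs) -/

open Complex Filter Topology IntermediateField Polynomial

noncomputable section

namespace Pool.Agent.MSP

theorem a6_transc {ϑ : ℂ} (hϑ : Transcendental ℚ ϑ) {Q : Polynomial ℤ} (hQ : Q ≠ 0) : aeval ϑ Q ≠ 0 := by
  intro h
  have h1 : aeval ϑ (Q.map (algebraMap ℤ ℚ)) = 0 := by
    rw [Polynomial.aeval_map_algebraMap]
    exact h
  have h2 := (transcendental_iff.mp hϑ) _ h1
  exact hQ ((Polynomial.map_eq_zero_iff (algebraMap ℤ ℚ).injective_int).mp h2)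

/-- the entries of the adjugate -/
theorem a6_adj {d : ℕ} (A : Matrix (Fin d) (Fin d) ℂ) (B : ℝ) (hB : 1 ≤ B) (hA : ∀ i j, ‖A i j‖ ≤ B) (i j : Fin d) :
    ‖A.adjugate i j‖ ≤ (d.factorial : ℝ) * B ^ d := by
  rw [Matrix.adjugate_apply]
  have h := Matrix.det_le (A := A.updateRow j (Pi.single i 1)) (abv := (NormedField.toAbsoluteValue ℂ))
    (x := B) ?_
  · simpa [NormedField.toAbsoluteValue] using h
  · intro a b
    show ‖(A.updateRow j (Pi.single i 1)) a b‖ ≤ B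
    rw [Matrix.updateRow_apply]
    split_ifs
    · by_cases hb : b = i
      · subst hb; simpa using hB
      · simp [hb]; linarith
    · exact hA a b

/-- the main inequality for a matrix with eigenvector `v` -/
theorem a6_main {d : ℕ} (A : Matrix (Fin d) (Fin d) ℂ) (B : ℝ) (hB : 1 ≤ B) (hA : ∀ i j, ‖A i j‖ ≤ B)
    (v : Fin d → ℂ) (hv : v ≠ 0) (c : ℂ) (h : Matrix.vecMul v A = c • v) :
    ‖A.det‖ ≤ ‖c‖ * (d * ((d.factorial : ℝ) * B ^ d)) := by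
  obtain ⟨i₀, hi₀⟩ : ∃ i, v i ≠ 0 := by
    by_contra hc
    push Not at hc
    exact hv (funext hc)
  obtain ⟨k, -, hk⟩ := Finset.exists_max_image (Finset.univ : Finset (Fin d)) (fun i => ‖v i‖) ⟨i₀, Finset.mem_univ _⟩
  have hk0 : 0 < ‖v k‖ := lt_of_lt_of_le (norm_pos_iff.mpr hi₀) (hk i₀ (Finset.mem_univ _))
  have h1 : A.det • v = c • Matrix.vecMul v A.adjugate := by
    have h2 : Matrix.vecMul v (A * A.adjugate) = A.det • v := by
      rw [Matrix.mul_adjugate, Matrix.vecMul_smul, Matrix.vecMul_one]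
    rw [← h2, ← Matrix.vecMul_vecMul, h, Matrix.smul_vecMul]
  have h2 : A.det * v k = c * ∑ j, v j * A.adjugate j k := by
    have h3 := congrFun h1 k
    simpa [Matrix.vecMul, dotProduct] using h3
  have h3 : ‖A.det‖ * ‖v k‖ ≤ (‖c‖ * (d * ((d.factorial : ℝ) * B ^ d))) * ‖v k‖ := by
    rw [← norm_mul, h2, norm_mul]
    have h4 : ‖∑ j, v j * A.adjugate j k‖ ≤ ∑ _j : Fin d, ‖v k‖ * ((d.factorial : ℝ) * B ^ d) := by
      refine (norm_sum_le _ _).trans (Finset.sum_le_sum fun j _ => ?_)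
      rw [norm_mul]
      exact mul_le_mul (hk j (Finset.mem_univ _)) (a6_adj A B hB hA j k) (norm_nonneg _) (norm_nonneg _)
    rw [Finset.sum_const, Finset.card_univ, Fintype.card_fin, nsmul_eq_mul] at h4
    calc ‖c‖ * ‖∑ j, v j * A.adjugate j k‖ ≤ ‖c‖ * (d * (‖v k‖ * ((d.factorial : ℝ) * B ^ d))) :=
          mul_le_mul_of_nonneg_left h4 (norm_nonneg _)
      _ = _ := by ring
  exact le_of_mul_le_mul_right h3 hk0

/-- A6. PROOF. `Q = det N`, `N = ∑_ν p_ν • mat D l (Ξ_ν)`, `≠ 0` by `det_ne`, and `Q(ϑ) ≠ 0` since `ϑ` is transcendental. `det_bounds` (A1) for degree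
`≤ d(δ + e l)` and length `≤ d! (card ι · H' · C^{D+l} H)^d`. With `N(ϑ)` the evaluated matrix, `eig` gives `v ᵥ* N(ϑ) = (sc D l · ξ) • v`; multiplying by the adjugate
matrix, `det N(ϑ) • v = (sc D l · ξ) • (v ᵥ* adj N(ϑ))` (`Matrix.mul_adjugate`), so with `v_k ≠ 0` of maximal absolute value
`‖det N(ϑ)‖ ≤ ‖sc D l‖ ‖ξ‖ ∑_j ‖adj N(ϑ)_{jk}‖`, and the entries of the adjugate are determinants of matrices with entries
`≤ max(1, card ι H' C^{D+l} H max(1,‖ϑ‖)^{δ+el})` in absolute value (`norm_aeval_le`). The exponent `C` in the statement is real (`Real.rpow`); all the bases are `≥ 1`. -/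
theorem norm_lemma {r s : ℕ} (ϑ : ℂ) (hϑ : Transcendental ℚ ϑ) (x : Fin r → ℂ) (y : Fin s → ℂ)
    (hx : ∀ i, IsAlgebraic ℚ (x i)) (hy : ∀ j, IsAlgebraic ℚ⟮ϑ⟯ (y j)) : ∃ C : ℝ, 1 ≤ C ∧
    ∀ (ι : Type) [Fintype ι] (D l δ : ℕ) (H H' : ℝ) (p : ι → Polynomial ℤ) (Ξ : ι → MvPolynomial (Fin r ⊕ Fin s) ℤ), 1 ≤ H → 1 ≤ H' →
      (∀ ν, Bd D l H (Ξ ν)) → (∀ ν, (p ν).natDegree ≤ δ) → (∀ ν, len (p ν) ≤ H') →
      ∑ ν, aeval ϑ (p ν) * MvPolynomial.aeval (Sum.elim x y) (Ξ ν) ≠ 0 →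
      ∃ Q : Polynomial ℤ, aeval ϑ Q ≠ 0 ∧ (Q.natDegree : ℝ) ≤ C * (δ + l) ∧
        Real.log (len Q) ≤ C * (Real.log (Fintype.card ι * H * H') + (D + l + 1)) ∧
        Real.log ‖aeval ϑ Q‖ ≤ Real.log ‖∑ ν, aeval ϑ (p ν) * MvPolynomial.aeval (Sum.elim x y) (Ξ ν)‖ +
          C * (Real.log (Fintype.card ι * H * H') + (D + l + δ + 1)) := by
  obtain ⟨ρ⟩ := exists_dict ϑ hϑ x y hx hy
  set T : ℝ := max 1 ‖ϑ‖ with hT
  have hT1 : 1 ≤ T := le_max_left _ _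
  have hlT : 0 ≤ Real.log T := Real.log_nonneg hT1
  have hlC : 0 ≤ Real.log ρ.C := Real.log_nonneg ρ.one_le
  have hC0 : 0 < ρ.C := lt_of_lt_of_le one_pos ρ.one_le
  have hd1 : (1 : ℝ) ≤ ρ.d := by exact_mod_cast ρ.d_pos
  have hdf1 : (1 : ℝ) ≤ (ρ.d.factorial : ℝ) := by exact_mod_cast ρ.d.factorial_pos
  have hlf : 0 ≤ Real.log (ρ.d.factorial : ℝ) := Real.log_nonneg hdf1
  have hld : 0 ≤ Real.log (ρ.d : ℝ) := Real.log_nonneg hd1
  have he0 : (0 : ℝ) ≤ ρ.e := by positivity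
  set C : ℝ := 1 + ρ.d * (1 + ρ.e) + (1 + ρ.d) * Real.log ρ.C + (Real.log ρ.d + Real.log (ρ.d.factorial : ℝ)) +
    ρ.d * (1 + ρ.e) * Real.log T with hC
  refine ⟨C, ?_, ?_⟩
  · have h1 : 0 ≤ (ρ.d : ℝ) * (1 + ρ.e) := by positivity
    have h2 : 0 ≤ (1 + (ρ.d : ℝ)) * Real.log ρ.C := by positivity
    have h3 : 0 ≤ (ρ.d : ℝ) * (1 + ρ.e) * Real.log T := by positivity
    linarith
  intro ι _ D l δ H H' p Ξ hH hH' hΞ hp hlen hne
  set ξ : ℂ := ∑ ν, aeval ϑ (p ν) * MvPolynomial.aeval (Sum.elim x y) (Ξ ν) with hξ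
  set n : ℝ := (Fintype.card ι : ℝ) with hn
  have hn1 : 1 ≤ n := by
    have : 0 < Fintype.card ι := by
      by_contra hc
      have hc0 : Fintype.card ι = 0 := by omega
      have := Fintype.card_eq_zero_iff.mp hc0
      apply hne
      rw [hξ]
      simp
    rw [hn]
    exact_mod_cast this
  set N : Matrix (Fin ρ.d) (Fin ρ.d) (Polynomial ℤ) := ∑ ν, p ν • ρ.mat D l (Ξ ν) with hN
  have hNij : ∀ i j, N i j = ∑ ν, p ν * ρ.mat D l (Ξ ν) i j := by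
    intro i j
    rw [hN, Matrix.sum_apply]
    simp [Matrix.smul_apply]
  have hdegN : ∀ i j, (N i j).natDegree ≤ δ + ρ.e * l := by
    intro i j
    rw [hNij]
    refine Polynomial.natDegree_sum_le_of_forall_le _ _ fun ν _ => ?_
    exact Polynomial.natDegree_mul_le.trans (add_le_add (hp ν) (ρ.deg D l H (Ξ ν) (hΞ ν) i j))
  set B : ℝ := n * (H' * (ρ.C ^ (D + l) * H)) with hB
  have hCp : 1 ≤ ρ.C ^ (D + l) := one_le_pow₀ ρ.one_le
  have hCH : 1 ≤ ρ.C ^ (D + l) * H := one_le_mul_of_one_le_of_one_le hCp hH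
  have hB1 : 1 ≤ B := one_le_mul_of_one_le_of_one_le hn1 (one_le_mul_of_one_le_of_one_le hH' hCH)
  have hB0 : 0 < B := lt_of_lt_of_le one_pos hB1
  have hlenN : ∀ i j, len (N i j) ≤ B := by
    intro i j
    rw [hNij]
    refine (len_sum _ _).trans ?_
    have h1 : ∀ ν ∈ (Finset.univ : Finset ι), len (p ν * ρ.mat D l (Ξ ν) i j) ≤ H' * (ρ.C ^ (D + l) * H) := by
      intro ν _
      exact (len_mul _ _).trans (mul_le_mul (hlen ν) (ρ.len_le D l H (Ξ ν) (hΞ ν) i j) (len_nonneg _)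
        (le_trans zero_le_one hH'))
    refine (Finset.sum_le_sum h1).trans ?_
    rw [Finset.sum_const, Finset.card_univ, nsmul_eq_mul]
  obtain ⟨hQd, hQl⟩ := det_bounds N (δ + ρ.e * l) B hdegN hlenN
  have hQ0 : N.det ≠ 0 := ρ.det_ne D l H ι p Ξ hΞ hne
  have hQϑ : aeval ϑ N.det ≠ 0 := a6_transc hϑ hQ0
  have hlogB : Real.log B = Real.log (n * H * H') + (D + l) * Real.log ρ.C := by
    have : B = (n * H * H') * ρ.C ^ (D + l) := by rw [hB]; ring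
    rw [this, Real.log_mul (by positivity) (by positivity), Real.log_pow]
    push_cast
    ring
  have hL0 : 0 ≤ Real.log (n * H * H') :=
    Real.log_nonneg (one_le_mul_of_one_le_of_one_le (one_le_mul_of_one_le_of_one_le hn1 hH) hH')
  have hDl : (0 : ℝ) ≤ D := by positivity
  have hl0 : (0 : ℝ) ≤ l := by positivity
  have hδ0 : (0 : ℝ) ≤ δ := by positivity
  refine ⟨N.det, hQϑ, ?_, ?_, ?_⟩
  · have h1 : (N.det.natDegree : ℝ) ≤ ρ.d * (δ + ρ.e * l) := by exact_mod_cast hQd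
    refine h1.trans ?_
    have h2 : (ρ.d : ℝ) * (δ + ρ.e * l) ≤ ρ.d * (1 + ρ.e) * (δ + l) := by
      have : (ρ.d : ℝ) * (1 + ρ.e) * (δ + l) = ρ.d * (δ + ρ.e * l) + ρ.d * (ρ.e * δ + l) := by ring
      rw [this]
      have h3 : 0 ≤ (ρ.d : ℝ) * (ρ.e * δ + l) := by positivity
      linarith
    refine h2.trans (mul_le_mul_of_nonneg_right ?_ (by positivity))
    have h4 : 0 ≤ (1 + (ρ.d : ℝ)) * Real.log ρ.C := by positivity
    have h5 : 0 ≤ (ρ.d : ℝ) * (1 + ρ.e) * Real.log T := by positivity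
    linarith
  · have hlpos : 0 < len N.det := lt_of_lt_of_le one_pos (one_le_len _ hQ0)
    have h1 : Real.log (len N.det) ≤ Real.log ((ρ.d.factorial : ℝ) * B ^ ρ.d) := Real.log_le_log hlpos hQl
    rw [Real.log_mul (by positivity) (by positivity), Real.log_pow, hlogB] at h1
    refine h1.trans ?_
    have e1 : C * (Real.log (n * H * H') + (D + l + 1)) =
        (Real.log (ρ.d.factorial : ℝ) + ρ.d * (Real.log (n * H * H') + (D + l) * Real.log ρ.C)) +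
        ((1 + ρ.d * ρ.e + (1 + ρ.d) * Real.log ρ.C + (Real.log ρ.d + Real.log (ρ.d.factorial : ℝ)) +
          ρ.d * (1 + ρ.e) * Real.log T) * Real.log (n * H * H') +
        (1 + ρ.d * (1 + ρ.e) + Real.log ρ.C + (Real.log ρ.d + Real.log (ρ.d.factorial : ℝ)) +
          ρ.d * (1 + ρ.e) * Real.log T) * (D + l) +
        (1 + ρ.d * (1 + ρ.e) + (1 + ρ.d) * Real.log ρ.C + Real.log ρ.d +
          ρ.d * (1 + ρ.e) * Real.log T)) := by
      rw [hC]; ring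
    rw [e1]
    have : 0 ≤ ((1 + ρ.d * ρ.e + (1 + ρ.d) * Real.log ρ.C + (Real.log ρ.d + Real.log (ρ.d.factorial : ℝ)) +
          ρ.d * (1 + ρ.e) * Real.log T) * Real.log (n * H * H') +
        (1 + ρ.d * (1 + ρ.e) + Real.log ρ.C + (Real.log ρ.d + Real.log (ρ.d.factorial : ℝ)) +
          ρ.d * (1 + ρ.e) * Real.log T) * (D + l) +
        (1 + ρ.d * (1 + ρ.e) + (1 + ρ.d) * Real.log ρ.C + Real.log ρ.d +
          ρ.d * (1 + ρ.e) * Real.log T)) := by positivity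
    linarith
  · set A : Matrix (Fin ρ.d) (Fin ρ.d) ℂ := N.map (fun f => aeval ϑ f) with hA
    have hdetA : A.det = aeval ϑ N.det := by
      have h := (RingHom.map_det (aeval ϑ : Polynomial ℤ →ₐ[ℤ] ℂ).toRingHom N)
      rw [show aeval ϑ N.det = (aeval ϑ : Polynomial ℤ →ₐ[ℤ] ℂ).toRingHom N.det from rfl, h]
      rfl
    have hAsum : A = ∑ ν, aeval ϑ (p ν) • (ρ.mat D l (Ξ ν)).map (fun f => aeval ϑ f) := by
      ext i j
      rw [hA, Matrix.map_apply, hNij, map_sum, Matrix.sum_apply]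
      refine Finset.sum_congr rfl fun ν _ => ?_
      rw [map_mul, Matrix.smul_apply, Matrix.map_apply, smul_eq_mul]
    have heig : Matrix.vecMul ρ.v A = (ρ.sc D l * ξ) • ρ.v := by
      rw [hAsum, Matrix.vecMul_sum, hξ, Finset.mul_sum, Finset.sum_smul]
      refine Finset.sum_congr rfl fun ν _ => ?_
      rw [Matrix.vecMul_smul, ρ.eig D l H (Ξ ν) (hΞ ν), smul_smul]
      congr 1
      ring
    have hTp : 1 ≤ T ^ (δ + ρ.e * l) := one_le_pow₀ hT1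
    have hA2 : ∀ i j, ‖A i j‖ ≤ B * T ^ (δ + ρ.e * l) := by
      intro i j
      rw [hA, Matrix.map_apply]
      refine (norm_aeval_le ϑ _).trans (mul_le_mul (hlenN i j) ?_ (by positivity) hB0.le)
      exact pow_le_pow_right₀ hT1 (hdegN i j)
    have hmain := a6_main A (B * T ^ (δ + ρ.e * l)) (one_le_mul_of_one_le_of_one_le hB1 hTp) hA2 ρ.v ρ.v_ne _ heig
    rw [hdetA] at hmain
    have hξ0 : 0 < ‖ξ‖ := norm_pos_iff.mpr hne
    have hT0 : 0 < T := lt_of_lt_of_le one_pos hT1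
    have h2 : ‖aeval ϑ N.det‖ ≤ (ρ.C ^ (D + l) * ‖ξ‖) * (ρ.d * ((ρ.d.factorial : ℝ) * (B * T ^ (δ + ρ.e * l)) ^ ρ.d)) := by
      refine hmain.trans (mul_le_mul_of_nonneg_right ?_ (by positivity))
      rw [norm_mul]
      exact mul_le_mul_of_nonneg_right (ρ.sc_le D l) (norm_nonneg _)
    have h3 := Real.log_le_log (norm_pos_iff.mpr hQϑ) h2
    rw [Real.log_mul (by positivity) (by positivity), Real.log_mul (by positivity) (by positivity),
      Real.log_mul (by positivity) (by positivity), Real.log_mul (by positivity) (by positivity), Real.log_pow,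
      Real.log_pow, Real.log_mul (by positivity) (by positivity), Real.log_pow, hlogB] at h3
    push_cast at h3
    refine h3.trans ?_
    have e1 : Real.log ‖ξ‖ + C * (Real.log (n * H * H') + (D + l + δ + 1)) =
        ((D + l) * Real.log ρ.C + Real.log ‖ξ‖ + (Real.log ρ.d + (Real.log (ρ.d.factorial : ℝ) +
          ρ.d * (Real.log (n * H * H') + (D + l) * Real.log ρ.C + (δ + ρ.e * l) * Real.log T)))) +
        ((1 + ρ.d * ρ.e + (1 + ρ.d) * Real.log ρ.C + (Real.log ρ.d + Real.log (ρ.d.factorial : ℝ)) +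
          ρ.d * (1 + ρ.e) * Real.log T) * Real.log (n * H * H') +
        (1 + ρ.d * (1 + ρ.e) + (Real.log ρ.d + Real.log (ρ.d.factorial : ℝ)) +
          ρ.d * (1 + ρ.e) * Real.log T) * D +
        (1 + ρ.d * (1 + ρ.e) + (Real.log ρ.d + Real.log (ρ.d.factorial : ℝ)) +
          ρ.d * Real.log T) * l +
        (1 + ρ.d * (1 + ρ.e) + (1 + ρ.d) * Real.log ρ.C + (Real.log ρ.d + Real.log (ρ.d.factorial : ℝ)) +
          ρ.d * ρ.e * Real.log T) * δ +
        (1 + ρ.d * (1 + ρ.e) + (1 + ρ.d) * Real.log ρ.C + ρ.d * (1 + ρ.e) * Real.log T)) := by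
      rw [hC]; ring
    rw [e1]
    have : 0 ≤ ((1 + ρ.d * ρ.e + (1 + ρ.d) * Real.log ρ.C + (Real.log ρ.d + Real.log (ρ.d.factorial : ℝ)) +
          ρ.d * (1 + ρ.e) * Real.log T) * Real.log (n * H * H') +
        (1 + ρ.d * (1 + ρ.e) + (Real.log ρ.d + Real.log (ρ.d.factorial : ℝ)) +
          ρ.d * (1 + ρ.e) * Real.log T) * D +
        (1 + ρ.d * (1 + ρ.e) + (Real.log ρ.d + Real.log (ρ.d.factorial : ℝ)) +
          ρ.d * Real.log T) * l +
        (1 + ρ.d * (1 + ρ.e) + (1 + ρ.d) * Real.log ρ.C + (Real.log ρ.d + Real.log (ρ.d.factorial : ℝ)) +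
          ρ.d * ρ.e * Real.log T) * δ +
        (1 + ρ.d * (1 + ρ.e) + (1 + ρ.d) * Real.log ρ.C + ρ.d * (1 + ρ.e) * Real.log T)) := by positivity
    linarith

end Pool.Agent.MSP
end

end
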