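import Mathlib
import Pool.Agent.Lib.MP_f58a57_nt.FK.K001

namespace Pool.Agent.MSD
end Pool.Agent.MSD
namespace Pool.Agent.MSP
end Pool.Agent.MSP

section

/-! # T5: growth of the numerators (MP_f58a57_nt, pairs) -/

open Complex Filter Topology

noncomputable section

namespace Pool.Agent.MSP

theorem t5_cont_deriv (τ : ℂ) (hτ : 0 < τ.im) : Differentiable ℂ (deriv (th τ)) := by
  intro z
  have h := (th_differentiable τ hτ).analyticAt z
  exact h.deriv.differentiableAt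

theorem t5_cont0 (τ : ℂ) (hτ : 0 < τ.im) : Continuous (N0 τ) :=
  (th_differentiable τ hτ).continuous

theorem t5_cont1 (τ : ℂ) (hτ : 0 < τ.im) : Continuous (N1 τ) :=
  (t5_cont_deriv τ hτ).continuous

theorem t5_cont2 (τ s : ℂ) (hτ : 0 < τ.im) : Continuous (N2 τ s) := by
  have h0 : Continuous (th τ) := (th_differentiable τ hτ).continuous
  have h1 : Continuous (deriv (th τ)) := (t5_cont_deriv τ hτ).continuous
  have h2 : Continuous (deriv (deriv (th τ))) := by
    have : Differentiable ℂ (deriv (deriv (th τ))) := by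
      intro z
      have h := (th_differentiable τ hτ).analyticAt z
      exact h.deriv.deriv.differentiableAt
    exact this.continuous
  unfold N2
  exact ((h1.pow 2).sub (h0.mul h2)).sub (continuous_const.mul (h0.pow 2))

/-- Reduction to a compact set. -/
theorem t5_reduce (τ : ℂ) (hτ : 0 < τ.im) (t : ℂ) : ∃ (m n : ℤ) (t₀ : ℂ),
    t = t₀ + m + n * τ ∧ t₀ ∈ (Set.Icc (0 : ℝ) 1 ×ℂ Set.Icc (0 : ℝ) τ.im) ∧
      (n : ℝ) ^ 2 ≤ (2 / τ.im ^ 2 + 2) * (1 + t.im ^ 2) := by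
  set n : ℤ := ⌊t.im / τ.im⌋ with hn
  set m : ℤ := ⌊(t - n * τ).re⌋ with hm
  refine ⟨m, n, t - n * τ - m, by ring, ?_, ?_⟩
  · have h1 := Int.floor_le (t.im / τ.im)
    have h2 := Int.lt_floor_add_one (t.im / τ.im)
    rw [← hn] at h1 h2
    rw [le_div_iff₀ hτ] at h1
    rw [div_lt_iff₀ hτ] at h2
    have h3 := Int.floor_le (t - n * τ).re
    have h4 := Int.lt_floor_add_one (t - n * τ).re
    rw [← hm] at h3 h4
    rw [Complex.mem_reProdIm]
    constructor
    · have e : (t - n * τ - m).re = (t - n * τ).re - m := by simp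
      rw [e]
      constructor
      · linarith
      · linarith
    · have e : (t - n * τ - m).im = t.im - n * τ.im := by simp
      rw [e]
      constructor
      · linarith
      · nlinarith
  · have h1 := Int.floor_le (t.im / τ.im)
    have h2 := Int.lt_floor_add_one (t.im / τ.im)
    rw [← hn] at h1 h2
    set x := t.im / τ.im with hx
    have h3 : (n : ℝ) ^ 2 ≤ 2 * x ^ 2 + 2 := by
      have : |(n : ℝ)| ≤ |x| + 1 := by
        rw [abs_le]
        constructor
        · have := neg_abs_le x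
          linarith
        · have := le_abs_self x
          linarith
      have h4 : (n : ℝ) ^ 2 ≤ (|x| + 1) ^ 2 := by
        rw [← sq_abs (n : ℝ)]
        exact pow_le_pow_left₀ (abs_nonneg _) this 2
      have h5 : |x| ^ 2 = x ^ 2 := sq_abs x
      nlinarith [sq_nonneg (|x| - 1)]
    have h4 : x ^ 2 = t.im ^ 2 / τ.im ^ 2 := by rw [hx, div_pow]
    have h5 : (2 / τ.im ^ 2 + 2) * (1 + t.im ^ 2)
        = 2 * (t.im ^ 2 / τ.im ^ 2) + 2 + (2 / τ.im ^ 2 + 2 * t.im ^ 2) := by ring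
    rw [h5, ← h4]
    have : 0 ≤ 2 / τ.im ^ 2 + 2 * t.im ^ 2 := by positivity
    linarith

/-- T5. PROOF. Given `t` choose integers `m, n` with `t = t₀ + m + nτ`, `0 ≤ Im t₀ ≤ Im τ`, `0 ≤ Re t₀ ≤ 1`
(`n = ⌊Im t/Im τ⌋`, then `m`). `t₀` is in a compact set where the three continuous functions `N0, N1, N2` (`th` is entire by T1, so
its derivatives are continuous) are bounded by a constant `B`. By T4 the value at `t` is at most
`‖au‖ (1 + 2π|n|) B` (resp. `‖au‖² B`), and `|n| ≤ |Im t|/Im τ + 1`, `‖au‖ = exp(π n² Im τ + 2π n Im t₀) ≤ exp(C(1 + (Im t)²))`. -/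
theorem growth (τ s : ℂ) (hτ : 0 < τ.im) : ∃ C : ℝ, 0 < C ∧ ∀ t : ℂ,
    ‖N0 τ t‖ ≤ Real.exp (C * (1 + t.im ^ 2)) ∧ ‖N1 τ t‖ ≤ Real.exp (C * (1 + t.im ^ 2)) ∧
      ‖N2 τ s t‖ ≤ Real.exp (C * (1 + t.im ^ 2)) := by
  have hK : IsCompact (Set.Icc (0 : ℝ) 1 ×ℂ Set.Icc (0 : ℝ) τ.im) := isCompact_Icc.reProdIm isCompact_Icc
  obtain ⟨B0, hB0⟩ := hK.exists_bound_of_continuousOn (t5_cont0 τ hτ).continuousOn
  obtain ⟨B1, hB1⟩ := hK.exists_bound_of_continuousOn (t5_cont1 τ hτ).continuousOn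
  obtain ⟨B2, hB2⟩ := hK.exists_bound_of_continuousOn (t5_cont2 τ s hτ).continuousOn
  set B : ℝ := max (max B0 B1) (max B2 1) with hB
  have hB1' : 1 ≤ B := (le_max_right _ _).trans (le_max_right _ _)
  have hb0 : B0 ≤ B := (le_max_left _ _).trans (le_max_left _ _)
  have hb1 : B1 ≤ B := (le_max_right _ _).trans (le_max_left _ _)
  have hb2 : B2 ≤ B := (le_max_left _ _).trans (le_max_right _ _)
  set A : ℝ := 2 / τ.im ^ 2 + 2 with hA
  have hA0 : 0 < A := by positivity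
  have hpi := Real.pi_pos
  refine ⟨6 * Real.pi * τ.im * A + 2 * Real.pi * A + B, by positivity, fun t => ?_⟩
  obtain ⟨m, n, t₀, ht, ht₀, hn2⟩ := t5_reduce τ hτ t
  have h0 := hB0 t₀ ht₀
  have h1 := hB1 t₀ ht₀
  have h2 := hB2 t₀ ht₀
  rw [Complex.mem_reProdIm] at ht₀
  obtain ⟨-, him0, him1⟩ := ht₀
  set V : ℝ := 1 + t.im ^ 2 with hV
  have hV1 : 1 ≤ V := by have := sq_nonneg t.im; linarith
  have hnn : |(n : ℝ)| ≤ (n : ℝ) ^ 2 := by
    have : |n| ≤ n ^ 2 := by
      rw [← sq_abs n]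
      rcases eq_or_ne n 0 with h | h
      · simp [h]
      · have : 1 ≤ |n| := Int.one_le_abs h
        nlinarith
    exact_mod_cast this
  -- the automorphy factor
  have hau : ‖au τ m n t₀‖ ≤ Real.exp (3 * Real.pi * τ.im * A * V) := by
    rw [norm_au τ m n t₀]
    apply Real.exp_le_exp.2
    have a1 : (n : ℝ) * t₀.im ≤ (n : ℝ) ^ 2 * τ.im := by
      calc (n : ℝ) * t₀.im ≤ |(n : ℝ)| * t₀.im := mul_le_mul_of_nonneg_right (le_abs_self _) him0
        _ ≤ |(n : ℝ)| * τ.im := mul_le_mul_of_nonneg_left him1 (abs_nonneg _)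
        _ ≤ (n : ℝ) ^ 2 * τ.im := mul_le_mul_of_nonneg_right hnn hτ.le
    calc Real.pi * (n : ℝ) ^ 2 * τ.im + 2 * Real.pi * n * t₀.im
        = Real.pi * ((n : ℝ) ^ 2 * τ.im) + 2 * Real.pi * (n * t₀.im) := by ring
      _ ≤ Real.pi * ((n : ℝ) ^ 2 * τ.im) + 2 * Real.pi * ((n : ℝ) ^ 2 * τ.im) := by
          have := mul_le_mul_of_nonneg_left a1 (by positivity : 0 ≤ 2 * Real.pi)
          linarith
      _ = 3 * Real.pi * τ.im * (n : ℝ) ^ 2 := by ring
      _ ≤ 3 * Real.pi * τ.im * (A * V) := mul_le_mul_of_nonneg_left hn2 (by positivity)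
      _ = 3 * Real.pi * τ.im * A * V := by ring
  have hBexp : B ≤ Real.exp (B * V) := by
    calc B ≤ B * V := by nlinarith
      _ ≤ B * V + 1 := by linarith
      _ ≤ Real.exp (B * V) := Real.add_one_le_exp _
  have hBpos : 0 < B := by linarith
  have hnexp : 1 + 2 * Real.pi * |(n : ℝ)| ≤ Real.exp (2 * Real.pi * A * V) := by
    calc 1 + 2 * Real.pi * |(n : ℝ)| ≤ 1 + 2 * Real.pi * (A * V) := by
          have := mul_le_mul_of_nonneg_left (hnn.trans hn2) (by positivity : 0 ≤ 2 * Real.pi)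
          linarith
      _ = 2 * Real.pi * A * V + 1 := by ring
      _ ≤ Real.exp (2 * Real.pi * A * V) := Real.add_one_le_exp _
  have hp1 : 0 ≤ Real.pi * τ.im * A * V := by positivity
  have hp2 : 0 ≤ Real.pi * A * V := by positivity
  refine ⟨?_, ?_, ?_⟩
  · rw [ht, N0_shift τ hτ m n t₀, norm_mul]
    calc ‖au τ m n t₀‖ * ‖N0 τ t₀‖ ≤ Real.exp (3 * Real.pi * τ.im * A * V) * Real.exp (B * V) :=
          mul_le_mul hau ((h0.trans hb0).trans hBexp) (norm_nonneg _) (Real.exp_pos _).le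
      _ ≤ Real.exp ((6 * Real.pi * τ.im * A + 2 * Real.pi * A + B) * V) := by
          rw [← Real.exp_add]
          apply Real.exp_le_exp.2
          nlinarith
  · rw [ht, N1_shift τ hτ m n t₀, norm_mul]
    have hsub : ‖N1 τ t₀ - 2 * Real.pi * I * n * N0 τ t₀‖
        ≤ Real.exp (2 * Real.pi * A * V) * Real.exp (B * V) := by
      calc ‖N1 τ t₀ - 2 * Real.pi * I * n * N0 τ t₀‖
          ≤ ‖N1 τ t₀‖ + ‖2 * Real.pi * I * n * N0 τ t₀‖ := norm_sub_le _ _
        _ ≤ B + 2 * Real.pi * |(n : ℝ)| * B := by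
            have e : ‖(2 * Real.pi * I * n * N0 τ t₀ : ℂ)‖ = 2 * Real.pi * |(n : ℝ)| * ‖N0 τ t₀‖ := by
              simp only [norm_mul, Complex.norm_I, Complex.norm_real, Complex.norm_intCast,
                Complex.norm_ofNat, Real.norm_eq_abs, abs_of_pos hpi, mul_one]
            rw [e]
            have := mul_le_mul_of_nonneg_left (h0.trans hb0)
              (by positivity : 0 ≤ 2 * Real.pi * |(n : ℝ)|)
            linarith [h1.trans hb1]
        _ = (1 + 2 * Real.pi * |(n : ℝ)|) * B := by ring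
        _ ≤ Real.exp (2 * Real.pi * A * V) * Real.exp (B * V) :=
            mul_le_mul hnexp hBexp hBpos.le (Real.exp_pos _).le
    calc ‖au τ m n t₀‖ * ‖N1 τ t₀ - 2 * Real.pi * I * n * N0 τ t₀‖
        ≤ Real.exp (3 * Real.pi * τ.im * A * V)
          * (Real.exp (2 * Real.pi * A * V) * Real.exp (B * V)) :=
          mul_le_mul hau hsub (norm_nonneg _) (Real.exp_pos _).le
      _ ≤ Real.exp ((6 * Real.pi * τ.im * A + 2 * Real.pi * A + B) * V) := by
          rw [← Real.exp_add, ← Real.exp_add]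
          apply Real.exp_le_exp.2
          nlinarith
  · rw [ht, N2_shift τ s hτ m n t₀, norm_mul, norm_pow]
    calc ‖au τ m n t₀‖ ^ 2 * ‖N2 τ s t₀‖
        ≤ Real.exp (3 * Real.pi * τ.im * A * V) ^ 2 * Real.exp (B * V) :=
          mul_le_mul (pow_le_pow_left₀ (norm_nonneg _) hau 2) ((h2.trans hb2).trans hBexp)
            (norm_nonneg _) (by positivity)
      _ ≤ Real.exp ((6 * Real.pi * τ.im * A + 2 * Real.pi * A + B) * V) := by
          rw [← Real.exp_nat_mul, ← Real.exp_add]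
          apply Real.exp_le_exp.2
          push_cast
          nlinarith

end Pool.Agent.MSP
end

end

section

/-! # K/C1_One: interpolation at real nodes -/

open Complex

noncomputable section

namespace Pool.Agent.MSK

open MSD MSP

variable {d : ℕ}

/-- the nodes -/
def c1o_x (K : ℕ) (k : ℕ) : ℂ := (k : ℂ) / K

/-- iterated divided differences -/
def c1o_h (K : ℕ) (h : ℂ → ℂ) : ℕ → (ℂ → ℂ)
  | 0 => h
  | k + 1 => dslope (c1o_h K h k) (c1o_x K k)

theorem c1o_diff (K : ℕ) (h : ℂ → ℂ) (hd : Differentiable ℂ h) (k : ℕ) :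
    Differentiable ℂ (c1o_h K h k) := by
  induction k with
  | zero => exact hd
  | succ k ih =>
    have h1 : DifferentiableOn ℂ (dslope (c1o_h K h k) (c1o_x K k)) Set.univ :=
      (Complex.differentiableOn_dslope Filter.univ_mem).2 ih.differentiableOn
    exact differentiableOn_univ.1 h1

theorem c1o_step (K : ℕ) (h : ℂ → ℂ) (k : ℕ) (z : ℂ) :
    c1o_h K h k z = c1o_h K h k (c1o_x K k) + (z - c1o_x K k) * c1o_h K h (k + 1) z := by
  have := sub_smul_dslope (c1o_h K h k) (c1o_x K k) z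
  rw [smul_eq_mul] at this
  show _ = _ + (z - c1o_x K k) * dslope (c1o_h K h k) (c1o_x K k) z
  rw [this]; ring

theorem c1o_newton (K : ℕ) (h : ℂ → ℂ) (n : ℕ) (z : ℂ) :
    h z = (∑ k ∈ Finset.range n, c1o_h K h k (c1o_x K k) * ∏ m ∈ Finset.range k, (z - c1o_x K m)) +
      c1o_h K h n z * ∏ m ∈ Finset.range n, (z - c1o_x K m) := by
  induction n with
  | zero => simp [c1o_h]
  | succ n ih =>
    rw [ih, c1o_step K h n z, Finset.sum_range_succ, Finset.prod_range_succ]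
    ring

theorem c1o_norm_x (K k : ℕ) (hk : k < K) : ‖c1o_x K k‖ ≤ 1 := by
  unfold c1o_x
  rw [norm_div, Complex.norm_natCast, Complex.norm_natCast]
  have : (0:ℝ) < K := by exact_mod_cast (by omega : 0 < K)
  rw [div_le_one this]
  exact_mod_cast hk.le

theorem c1o_max (K : ℕ) (R B : ℝ) (hR : 3 ≤ R) (h : ℂ → ℂ) (hd : Differentiable ℂ h)
    (hB : ∀ ζ : ℂ, ‖ζ‖ ≤ R → ‖h ζ‖ ≤ B) (k : ℕ) (hk : k ≤ K) :
    ∀ ζ : ℂ, ‖ζ‖ ≤ R → ‖c1o_h K h k ζ‖ ≤ (2 / (R - 1)) ^ k * B := by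
  induction k with
  | zero => intro ζ hζ; simpa [c1o_h] using hB ζ hζ
  | succ k ih =>
    have ih' := ih (by omega)
    intro ζ hζ
    have hx : ‖c1o_x K k‖ ≤ 1 := c1o_norm_x K k (by omega)
    have hRpos : 0 < R := by linarith
    have hfr : ∀ z ∈ frontier (Metric.ball (0:ℂ) R), ‖c1o_h K h (k+1) z‖ ≤ (2 / (R - 1)) ^ (k+1) * B := by
      intro z hz
      rw [frontier_ball _ hRpos.ne', mem_sphere_zero_iff_norm] at hz
      have h1 : R - 1 ≤ ‖z - c1o_x K k‖ := by
        have := norm_sub_norm_le z (c1o_x K k)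
        linarith
      have h2 : ‖(z - c1o_x K k) * c1o_h K h (k+1) z‖ ≤ 2 * ((2 / (R - 1)) ^ k * B) := by
        have h3 : (z - c1o_x K k) * c1o_h K h (k+1) z = c1o_h K h k z - c1o_h K h k (c1o_x K k) := by
          rw [c1o_step K h k z]; ring
        rw [h3]
        calc _ ≤ ‖c1o_h K h k z‖ + ‖c1o_h K h k (c1o_x K k)‖ := norm_sub_le _ _
          _ ≤ (2 / (R - 1)) ^ k * B + (2 / (R - 1)) ^ k * B :=
            add_le_add (ih' z hz.le) (ih' _ (by linarith))
          _ = _ := by ring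
      rw [norm_mul] at h2
      have hR1 : 0 < R - 1 := by linarith
      have h4 : (R - 1) * ‖c1o_h K h (k+1) z‖ ≤ 2 * ((2 / (R - 1)) ^ k * B) :=
        le_trans (mul_le_mul_of_nonneg_right h1 (norm_nonneg _)) h2
      have h5 : (2 / (R - 1)) ^ (k+1) * B = (2 * ((2 / (R - 1)) ^ k * B)) / (R - 1) := by
        rw [pow_succ]; ring
      rw [h5, le_div_iff₀ hR1]
      linarith
    have hcl : ζ ∈ closure (Metric.ball (0:ℂ) R) := by
      rw [closure_ball _ hRpos.ne', mem_closedBall_zero_iff]; exact hζ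
    exact Complex.norm_le_of_forall_mem_frontier_norm_le Metric.isBounded_ball
      ((c1o_diff K h hd (k+1)).diffContOnCl) hfr hcl

open Polynomial in
/-- the Newton polynomial -/
def c1o_p (K : ℕ) (h : ℂ → ℂ) : ℂ[X] :=
  ∑ k ∈ Finset.range K, C (c1o_h K h k (c1o_x K k)) * ∏ m ∈ Finset.range k, (X - C (c1o_x K m))

open Polynomial in
theorem c1o_p_eval (K : ℕ) (h : ℂ → ℂ) (z : ℂ) : (c1o_p K h).eval z =
    ∑ k ∈ Finset.range K, c1o_h K h k (c1o_x K k) * ∏ m ∈ Finset.range k, (z - c1o_x K m) := by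
  simp [c1o_p, eval_finsetSum, eval_prod]

open Polynomial in
theorem c1o_p_deg (K : ℕ) (hK : 1 ≤ K) (h : ℂ → ℂ) : (c1o_p K h).degree < K := by
  unfold c1o_p
  rw [← mem_degreeLT]
  refine Submodule.sum_mem _ fun k hk => ?_
  rw [mem_degreeLT]
  rw [Finset.mem_range] at hk
  have h1 : (∏ m ∈ Finset.range k, (X - C (c1o_x K m))).degree = (k : WithBot ℕ) := by
    rw [degree_prod]; simp
  refine lt_of_le_of_lt (degree_mul_le _ _) ?_
  rw [h1]
  calc (C (c1o_h K h k (c1o_x K k))).degree + (k : WithBot ℕ) ≤ 0 + k := by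
        gcongr; exact degree_C_le
    _ = (k : WithBot ℕ) := zero_add _
    _ < K := by exact_mod_cast hk

theorem c1o_prod_fact (K j : ℕ) (hj : j < K) :
    ∏ m ∈ (Finset.range K).erase j, |(j:ℝ) - m| = (j.factorial : ℝ) * ((K - 1 - j).factorial : ℝ) := by
  have hsplit : (Finset.range K).erase j = Finset.range j ∪ Finset.Ico (j+1) K := by
    ext m; simp only [Finset.mem_erase, Finset.mem_range, Finset.mem_union, Finset.mem_Ico]; omega
  have hdisj : Disjoint (Finset.range j) (Finset.Ico (j+1) K) := by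
    rw [Finset.disjoint_left]; intro m hm hm'
    simp only [Finset.mem_range, Finset.mem_Ico] at hm hm'; omega
  rw [hsplit, Finset.prod_union hdisj]
  congr 1
  · rw [← Finset.prod_range_reflect, ← Finset.prod_range_add_one_eq_factorial]
    push_cast
    refine Finset.prod_congr rfl fun m hm => ?_
    rw [Finset.mem_range] at hm
    have : ((j - 1 - m : ℕ) : ℝ) = (j:ℝ) - 1 - m := by
      rw [Nat.cast_sub (by omega), Nat.cast_sub (by omega)]; simp
    rw [this]
    rw [show (j:ℝ) - (j - 1 - m) = m + 1 by ring]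
    exact abs_of_nonneg (by positivity)
  · rw [Finset.prod_Ico_eq_prod_range, ← Finset.prod_range_add_one_eq_factorial,
      show K - (j+1) = K - 1 - j by omega]
    push_cast
    refine Finset.prod_congr rfl fun m hm => ?_
    rw [show (j:ℝ) - (j + 1 + m) = -(m + 1) by ring, abs_neg]
    exact abs_of_nonneg (by positivity)

theorem c1o_basis (K j : ℕ) (hj : j < K) (ζ : ℂ) (hζ : ‖ζ‖ ≤ 1) :
    ∏ m ∈ (Finset.range K).erase j, (‖ζ - c1o_x K m‖ / ‖c1o_x K j - c1o_x K m‖) ≤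
      (2 * K) ^ (K - 1) / ((K - 1).factorial : ℝ) * ((K - 1).choose j : ℝ) := by
  have hKpos : (0:ℝ) < K := by exact_mod_cast (by omega : 0 < K)
  rw [Finset.prod_div_distrib]
  have hnum : ∏ m ∈ (Finset.range K).erase j, ‖ζ - c1o_x K m‖ ≤ 2 ^ (K - 1) := by
    have hcard : ((Finset.range K).erase j).card = K - 1 := by
      rw [Finset.card_erase_of_mem (Finset.mem_range.2 hj), Finset.card_range]
    rw [← hcard]
    refine le_trans (Finset.prod_le_prod (g := fun _ => (2:ℝ)) (fun _ _ => norm_nonneg _) ?_) (by simp)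
    intro m hm
    have hm' : m < K := by simpa using (Finset.mem_of_mem_erase hm)
    calc _ ≤ ‖ζ‖ + ‖c1o_x K m‖ := norm_sub_le _ _
      _ ≤ 1 + 1 := add_le_add hζ (c1o_norm_x K m hm')
      _ = 2 := by norm_num
  have hden : ∏ m ∈ (Finset.range K).erase j, ‖c1o_x K j - c1o_x K m‖ =
      (j.factorial : ℝ) * ((K - 1 - j).factorial : ℝ) / K ^ (K - 1) := by
    have hcard : ((Finset.range K).erase j).card = K - 1 := by
      rw [Finset.card_erase_of_mem (Finset.mem_range.2 hj), Finset.card_range]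
    rw [← c1o_prod_fact K j hj]
    have : ∀ m ∈ (Finset.range K).erase j, ‖c1o_x K j - c1o_x K m‖ = |(j:ℝ) - m| / K := by
      intro m _
      unfold c1o_x
      rw [← sub_div, norm_div, Complex.norm_natCast]
      congr 1
      rw [show ((j:ℂ) - (m:ℂ)) = (((j:ℝ) - (m:ℝ) : ℝ) : ℂ) by push_cast; ring, Complex.norm_real,
        Real.norm_eq_abs]
    rw [Finset.prod_congr rfl this, Finset.prod_div_distrib, Finset.prod_const, hcard]
  rw [hden]
  have hch : ((K - 1).choose j : ℝ) * ((j.factorial : ℝ) * ((K - 1 - j).factorial : ℝ)) = ((K-1).factorial : ℝ) := by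
    have := Nat.choose_mul_factorial_mul_factorial (show j ≤ K - 1 by omega)
    rw [← mul_assoc]; exact_mod_cast this
  have hf1 : (0:ℝ) < (j.factorial : ℝ) := by exact_mod_cast Nat.factorial_pos _
  have hf2 : (0:ℝ) < ((K - 1 - j).factorial : ℝ) := by exact_mod_cast Nat.factorial_pos _
  have hf3 : (0:ℝ) < ((K - 1).factorial : ℝ) := by exact_mod_cast Nat.factorial_pos _
  rw [div_le_iff₀ (by positivity)]
  have : (2 * (K:ℝ)) ^ (K - 1) / ((K - 1).factorial : ℝ) * ((K - 1).choose j : ℝ) *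
      ((j.factorial : ℝ) * ((K - 1 - j).factorial : ℝ) / K ^ (K - 1)) =
      2 ^ (K-1) * (((K - 1).choose j : ℝ) * ((j.factorial : ℝ) * ((K - 1 - j).factorial : ℝ)) / ((K-1).factorial : ℝ)) := by
    rw [mul_pow]; field_simp
  rw [this, hch, div_self hf3.ne', mul_one]
  exact hnum

theorem c1o_exp (K : ℕ) (hK : 1 ≤ K) :
    (2 * (K:ℝ)) ^ (K - 1) / ((K - 1).factorial : ℝ) * 2 ^ (K - 1) ≤ 22 ^ K := by
  obtain ⟨n, rfl⟩ : ∃ n, K = n + 1 := ⟨K - 1, by omega⟩
  simp only [Nat.add_sub_cancel]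
  have h1 : (((n + 1 : ℕ) : ℝ)) ^ n / (n.factorial : ℝ) ≤ Real.exp ((n + 1 : ℕ) : ℝ) :=
    Real.pow_div_factorial_le_exp _ (by positivity) n
  have h2 : Real.exp ((n + 1 : ℕ) : ℝ) = Real.exp 1 ^ (n + 1) := by
    rw [← Real.exp_nat_mul, mul_one]
  have h3 : Real.exp 1 ≤ 3 := by linarith [Real.exp_one_lt_d9]
  have h4 : Real.exp 1 ^ (n + 1) ≤ 3 ^ (n + 1) := pow_le_pow_left₀ (Real.exp_pos _).le h3 _
  calc (2 * (((n + 1 : ℕ) : ℝ))) ^ n / (n.factorial : ℝ) * 2 ^ n
      = 4 ^ n * ((((n + 1 : ℕ) : ℝ)) ^ n / (n.factorial : ℝ)) := by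
        rw [mul_pow, show (4:ℝ) = 2 * 2 by norm_num, mul_pow]; ring
    _ ≤ 4 ^ n * 3 ^ (n + 1) := by
        apply mul_le_mul_of_nonneg_left _ (by positivity)
        exact h1.trans (h2 ▸ h4)
    _ ≤ 4 ^ (n+1) * 3 ^ (n+1) := by
        apply mul_le_mul_of_nonneg_right _ (by positivity)
        exact pow_le_pow_right₀ (by norm_num) (by omega)
    _ = 12 ^ (n+1) := by rw [← mul_pow]; norm_num
    _ ≤ 22 ^ (n+1) := pow_le_pow_left₀ (by norm_num) (by norm_num) _

theorem c1o_inj (K : ℕ) (hK : 1 ≤ K) : Set.InjOn (c1o_x K) (Finset.range K : Finset ℕ) := by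
  intro a _ b _ hab
  have hK0 : (K:ℂ) ≠ 0 := by exact_mod_cast (by omega : K ≠ 0)
  unfold c1o_x at hab
  rw [div_left_inj' hK0] at hab
  exact_mod_cast hab

open Polynomial in
theorem c1o_lagrange (K : ℕ) (hK : 1 ≤ K) (ε : ℝ) (h : ℂ → ℂ)
    (hε : ∀ j < K, ‖h ((j : ℂ) / K)‖ ≤ ε) (ζ : ℂ) (hζ : ‖ζ‖ ≤ 1) :
    ‖(c1o_p K h).eval ζ‖ ≤ 22 ^ K * ε := by
  have hε0 : 0 ≤ ε := (norm_nonneg _).trans (hε 0 (by omega))
  have hval : ∀ j ∈ Finset.range K, (c1o_p K h).eval (c1o_x K j) = h (c1o_x K j) := by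
    intro j hj
    rw [c1o_newton K h K (c1o_x K j), c1o_p_eval]
    have : ∏ m ∈ Finset.range K, (c1o_x K j - c1o_x K m) = 0 :=
      Finset.prod_eq_zero hj (sub_self _)
    rw [this, mul_zero, add_zero]
  have hint : c1o_p K h = Lagrange.interpolate (Finset.range K) (c1o_x K) (fun j => h (c1o_x K j)) :=
    Lagrange.eq_interpolate_of_eval_eq _ (c1o_inj K hK) (by simpa using c1o_p_deg K hK h) hval
  rw [hint, Lagrange.interpolate_apply, eval_finsetSum]
  refine (norm_sum_le _ _).trans ?_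
  have hterm : ∀ j ∈ Finset.range K, ‖(C (h (c1o_x K j)) * Lagrange.basis (Finset.range K) (c1o_x K) j).eval ζ‖ ≤
      ε * ((2 * K) ^ (K - 1) / ((K - 1).factorial : ℝ) * ((K - 1).choose j : ℝ)) := by
    intro j hj
    rw [Finset.mem_range] at hj
    rw [eval_mul, eval_C, norm_mul]
    refine mul_le_mul (hε j hj) ?_ (norm_nonneg _) hε0
    refine le_trans (le_of_eq ?_) (c1o_basis K j hj ζ hζ)
    rw [Lagrange.basis, eval_prod, norm_prod]
    refine Finset.prod_congr rfl fun m _ => ?_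
    rw [Lagrange.basisDivisor, eval_mul, eval_C, norm_mul, norm_inv, eval_sub, eval_X, eval_C,
      div_eq_inv_mul]
  refine (Finset.sum_le_sum hterm).trans ?_
  rw [← Finset.mul_sum, ← Finset.mul_sum]
  have hsum : ∑ j ∈ Finset.range K, ((K - 1).choose j : ℝ) = 2 ^ (K - 1) := by
    have := Nat.sum_range_choose (K - 1)
    rw [show K - 1 + 1 = K by omega] at this
    exact_mod_cast this
  rw [hsum, mul_comm]
  exact mul_le_mul_of_nonneg_right (c1o_exp K hK) hε0

/-- C1a. PROOF. `x_k = k/K`, `h_0 = h`, `h_{k+1} = dslope h_k x_k` (so `h_k(ζ) = h_k(x_k) + (ζ - x_k) h_{k+1}(ζ)`), all entire. By the maximum principle on `‖ζ‖ ≤ R` (on the circle `‖ζ - x_k‖ ≥ R - 1`)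
`sup ‖h_{k+1}‖ ≤ 2 sup ‖h_k‖/(R-1)`. So `h = p + h_K ∏_{k<K} (ζ - x_k)` with a polynomial `p` of degree `< K`, and for `‖ζ‖ ≤ 1` the last term is `≤ B (2/(R-1))^K 2^K`. `p` takes the values `h(x_j)` at the nodes, so it is their Lagrange
interpolation polynomial: `‖p(ζ)‖ ≤ ε ∑_j ∏_{m≠j} ‖ζ - x_m‖/|x_j - x_m| ≤ ε K 2^(K-1) K^(K-1)/(min_j j!(K-1-j)!) ≤ ε K 2^(K-1) 2^(K-1) K^(K-1)/(K-1)! ≤ ε K (4e)^K ≤ 22^K ε`  (`K^K/K! ≤ e^K`, `K (4e)^K ≤ 22^K`:
`4e < 10.88`, `K ≤ 2^K`). -/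
theorem interp_one (K : ℕ) (hK : 1 ≤ K) (R B ε : ℝ) (hR : 3 ≤ R) (h : ℂ → ℂ) (hd : Differentiable ℂ h)
    (hB : ∀ ζ : ℂ, ‖ζ‖ ≤ R → ‖h ζ‖ ≤ B) (hε : ∀ j < K, ‖h ((j : ℂ) / K)‖ ≤ ε) :
    ∀ ζ : ℂ, ‖ζ‖ ≤ 1 → ‖h ζ‖ ≤ 22 ^ K * ε + (4 / (R - 1)) ^ K * B := by
  intro ζ hζ
  have h1 : h ζ = (c1o_p K h).eval ζ + c1o_h K h K ζ * ∏ m ∈ Finset.range K, (ζ - c1o_x K m) := by
    rw [c1o_p_eval]; exact c1o_newton K h K ζ
  rw [h1]
  refine (norm_add_le _ _).trans (add_le_add (c1o_lagrange K hK ε h hε ζ hζ) ?_)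
  rw [norm_mul, norm_prod]
  have h2 := c1o_max K R B hR h hd hB K le_rfl ζ (by linarith)
  have h3 : ∏ m ∈ Finset.range K, ‖ζ - c1o_x K m‖ ≤ 2 ^ K := by
    refine le_trans (Finset.prod_le_prod (g := fun _ => (2:ℝ)) (fun _ _ => norm_nonneg _) ?_) (by simp)
    intro m hm
    have hm' : m < K := by simpa using hm
    calc _ ≤ ‖ζ‖ + ‖c1o_x K m‖ := norm_sub_le _ _
      _ ≤ 1 + 1 := add_le_add hζ (c1o_norm_x K m hm')
      _ = 2 := by norm_num
  calc _ ≤ ((2 / (R - 1)) ^ K * B) * 2 ^ K :=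
        mul_le_mul h2 h3 (Finset.prod_nonneg fun _ _ => norm_nonneg _) ((norm_nonneg _).trans h2)
    _ = (4 / (R - 1)) ^ K * B := by
        rw [show (4:ℝ) / (R - 1) = (2 / (R - 1)) * 2 by ring, mul_pow]; ring

end Pool.Agent.MSK
end

end

section

/-! # K/C1b_Multi: interpolation at real nodes, several variables -/

open Complex

noncomputable section

namespace Pool.Agent.MSK

open MSD MSP

variable {d : ℕ}

theorem c1b_node (K : ℕ) (i : Fin K) : ‖((i.val : ℂ) / K)‖ ≤ 1 := by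
  rw [norm_div, Complex.norm_natCast, Complex.norm_natCast]
  have hi : (i.val : ℝ) ≤ K := by exact_mod_cast i.2.le
  exact div_le_one_of_le₀ hi (Nat.cast_nonneg K)

theorem c1b_step {d : ℕ} (K : ℕ) (hK : 1 ≤ K) (R B ε : ℝ) (hR : 3 ≤ R) (g : (Fin d → ℂ) → ℂ) (hd : Differentiable ℂ g)
    (hB : ∀ y : Fin d → ℂ, (∀ j, ‖y j‖ ≤ R) → ‖g y‖ ≤ B) (hε : ∀ i : Fin d → Fin K, ‖g (fun j => ((i j).val : ℂ) / K)‖ ≤ ε)
    (m : ℕ) : m ≤ d → ∀ y : Fin d → ℂ, (∀ j : Fin d, j.val < m → ‖y j‖ ≤ 1) →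
      (∀ j : Fin d, m ≤ j.val → ∃ i : Fin K, y j = (i.val : ℂ) / K) →
      ‖g y‖ ≤ 22 ^ (m * K) * ε + m * 22 ^ (m * K) * (4 / (R - 1)) ^ K * B := by
  induction m with
  | zero =>
    intro _ y _ hy
    choose i hi using fun j : Fin d => hy j (Nat.zero_le _)
    have e : y = fun j => ((i j).val : ℂ) / K := funext hi
    rw [e]
    simpa using hε i
  | succ m ih =>
    intro hm y hy1 hy2
    have hmd : m < d := hm
    set k : Fin d := ⟨m, hmd⟩ with hk
    set h : ℂ → ℂ := fun ζ => g (Function.update y k ζ) with hh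
    have hup : Differentiable ℂ (fun ζ : ℂ => Function.update y k ζ) := by
      rw [differentiable_pi]
      intro j
      by_cases hj : j = k
      · subst hj
        simp only [Function.update_self]
        exact differentiable_id
      · simp only [Function.update_of_ne hj]
        exact differentiable_const _
    have hhd : Differentiable ℂ h := hd.comp hup
    have hb1 : ∀ ζ : ℂ, ‖ζ‖ ≤ R → ‖h ζ‖ ≤ B := by
      intro ζ hζ
      refine hB _ fun j => ?_
      by_cases hj : j = k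
      · subst hj
        rw [Function.update_self]
        exact hζ
      · rw [Function.update_of_ne hj]
        have h1 : ‖y j‖ ≤ 1 := by
          rcases lt_or_ge j.val (m + 1) with h' | h'
          · exact hy1 j h'
          · obtain ⟨i, hi⟩ := hy2 j h'
            rw [hi]
            exact c1b_node K i
        linarith
    have hb2 : ∀ j < K, ‖h ((j : ℂ) / K)‖ ≤ 22 ^ (m * K) * ε + m * 22 ^ (m * K) * (4 / (R - 1)) ^ K * B := by
      intro j hj
      refine ih hmd.le _ (fun l hl => ?_) (fun l hl => ?_)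
      · have hl' : l ≠ k := by
          intro e
          rw [e] at hl
          exact absurd hl (lt_irrefl m)
        rw [Function.update_of_ne hl']
        exact hy1 l (Nat.lt_succ_of_lt hl)
      · by_cases hlk : l = k
        · exact ⟨⟨j, hj⟩, by rw [hlk, Function.update_self]⟩
        · rw [Function.update_of_ne hlk]
          refine hy2 l ?_
          have h1 : l.val ≠ m := fun e => hlk (Fin.ext e)
          omega
    have h0 := interp_one K hK R B _ hR h hhd hb1 hb2 (y k) (hy1 k (Nat.lt_succ_self m))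
    have e1 : h (y k) = g y := by
      rw [hh]
      simp only [Function.update_eq_self]
    rw [e1] at h0
    have hB0 : 0 ≤ B := (norm_nonneg _).trans (hB 0 fun j => by simp; linarith)
    have hq : 0 ≤ (4 / (R - 1)) ^ K := pow_nonneg (div_nonneg (by norm_num) (by linarith)) K
    refine h0.trans ?_
    have e2 : (22 : ℝ) ^ ((m + 1) * K) = 22 ^ K * 22 ^ (m * K) := by
      rw [← pow_add]
      congr 1
      ring
    have e3 : (1 : ℝ) ≤ 22 ^ ((m + 1) * K) := one_le_pow₀ (by norm_num)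
    have e4 : (4 / (R - 1)) ^ K * B ≤ 22 ^ ((m + 1) * K) * ((4 / (R - 1)) ^ K * B) :=
      le_mul_of_one_le_left (mul_nonneg hq hB0) e3
    push_cast
    rw [e2] at e4 ⊢
    nlinarith [e4]

/-- C1b. PROOF. For `m = 0..d` let `A_m` be the supremum of `‖g‖` over the points whose first `m` coordinates are in the unit disc and whose other coordinates are nodes `i/K`. C1a in the variable `m` gives
`A_{m+1} ≤ 22^K A_m + (4/(R-1))^K B`. -/
theorem interp_multi {d : ℕ} (K : ℕ) (hK : 1 ≤ K) (R B ε : ℝ) (hR : 3 ≤ R) (g : (Fin d → ℂ) → ℂ) (hd : Differentiable ℂ g)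
    (hB : ∀ y : Fin d → ℂ, (∀ j, ‖y j‖ ≤ R) → ‖g y‖ ≤ B) (hε : ∀ i : Fin d → Fin K, ‖g (fun j => ((i j).val : ℂ) / K)‖ ≤ ε) :
    ∀ y : Fin d → ℂ, (∀ j, ‖y j‖ ≤ 1) → ‖g y‖ ≤ 22 ^ (d * K) * ε + d * 22 ^ (d * K) * (4 / (R - 1)) ^ K * B := by
  intro y hy
  exact c1b_step K hK R B ε hR g hd hB hε d le_rfl y (fun j _ => hy j) (fun j hj => absurd j.2 (not_lt.2 hj))

end Pool.Agent.MSK
end

end
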