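import Mathlib
import Pool.Agent.Lib.MP_f58a57_nt.FK.K003

section

/-! # M1: maximum principle in a strip, division by the sine (MP_f58a57_nt, pairs) -/

open Complex Filter Topology

noncomputable section

namespace Pool.Agent.MSP

theorem m1_per_nat (h : ℂ → ℂ) (hper : ∀ t, ‖h (t + 1)‖ = ‖h t‖) (n : ℕ) (t : ℂ) :
    ‖h (t + n)‖ = ‖h t‖ := by
  induction n with
  | zero => simp
  | succ n ih =>
    push_cast
    rw [← add_assoc, hper, ih]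

theorem m1_per_int (h : ℂ → ℂ) (hper : ∀ t, ‖h (t + 1)‖ = ‖h t‖) (n : ℤ) (t : ℂ) :
    ‖h (t + n)‖ = ‖h t‖ := by
  obtain ⟨m, rfl | rfl⟩ := n.eq_nat_or_neg
  · simpa using m1_per_nat h hper m t
  · have := m1_per_nat h hper m (t + (-(m : ℤ) : ℤ))
    rw [← this]
    congr 2
    push_cast
    ring

theorem m1_bounded (h : ℂ → ℂ) (hc : Continuous h) (hper : ∀ t, ‖h (t + 1)‖ = ‖h t‖) (R : ℝ) :
    ∃ C : ℝ, ∀ t : ℂ, |t.im| ≤ R → ‖h t‖ ≤ C := by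
  have hK : IsCompact (Set.Icc (0 : ℝ) 1 ×ℂ Set.Icc (-R) R) := isCompact_Icc.reProdIm isCompact_Icc
  obtain ⟨C, hC⟩ := hK.exists_bound_of_continuousOn hc.continuousOn
  refine ⟨C, fun t ht => ?_⟩
  have h1 := m1_per_int h hper (-⌊t.re⌋) t
  rw [← h1]
  apply hC
  rw [Complex.mem_reProdIm]
  have habs := abs_le.1 ht
  constructor
  · have hre : (t + ((-⌊t.re⌋ : ℤ) : ℂ)).re = t.re - ⌊t.re⌋ := by
      rw [Complex.add_re, Complex.intCast_re]; push_cast; ring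
    rw [hre]
    constructor
    · have := Int.floor_le t.re
      linarith
    · have := Int.lt_floor_add_one t.re
      linarith
  · simpa using habs

/-- M1a. PROOF. `|h|` is `1`-periodic and continuous, so bounded on the strip; `PhragmenLindelof.horizontal_strip` on `-R < Im < R`
(the growth hypothesis is trivial for a bounded function). -/
theorem strip_max (h : ℂ → ℂ) (hd : Differentiable ℂ h) (hper : ∀ t, ‖h (t + 1)‖ = ‖h t‖) (R B : ℝ) (hR : 0 < R)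
    (hB : ∀ t : ℂ, |t.im| = R → ‖h t‖ ≤ B) (t : ℂ) (ht : |t.im| ≤ R) : ‖h t‖ ≤ B := by
  obtain ⟨C, hC⟩ := m1_bounded h hd.continuous hper R
  have habs := abs_le.1 ht
  refine PhragmenLindelof.horizontal_strip (a := -R) (b := R) hd.diffContOnCl ?_ ?_ ?_ habs.1 habs.2
  · refine ⟨0, div_pos Real.pi_pos (by linarith), 0, ?_⟩
    simp only [zero_mul, Real.exp_zero]
    refine Asymptotics.IsBigO.of_bound C ?_
    rw [eventually_inf_principal]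
    refine Eventually.of_forall fun z hz => ?_
    rw [norm_one, mul_one]
    refine hC z (abs_le.2 ⟨?_, ?_⟩)
    · exact (Set.mem_preimage.1 hz).1.le
    · exact (Set.mem_preimage.1 hz).2.le
  · intro z hz
    exact hB z (by rw [hz, abs_neg, abs_of_pos hR])
  · intro z hz
    exact hB z (by rw [hz, abs_of_pos hR])

theorem m1_sin_upper (z : ℂ) : ‖Complex.sin z‖ ≤ Real.exp |z.im| := by
  rw [Complex.sin]
  have h1 : ‖Complex.exp (-z * I)‖ = Real.exp z.im := by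
    rw [Complex.norm_exp]; congr 1; simp
  have h2 : ‖Complex.exp (z * I)‖ = Real.exp (-z.im) := by
    rw [Complex.norm_exp]; congr 1; simp
  have h3 : ‖(Complex.exp (-z * I) - Complex.exp (z * I)) * I / 2‖
      = ‖Complex.exp (-z * I) - Complex.exp (z * I)‖ / 2 := by
    rw [norm_div, norm_mul, Complex.norm_I, mul_one]; simp
  rw [h3]
  have h4 := norm_sub_le (Complex.exp (-z * I)) (Complex.exp (z * I))
  rw [h1, h2] at h4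
  have h5 : Real.exp z.im ≤ Real.exp |z.im| := Real.exp_le_exp.2 (le_abs_self _)
  have h6 : Real.exp (-z.im) ≤ Real.exp |z.im| := Real.exp_le_exp.2 (neg_le_abs _)
  linarith

theorem m1_sin_lower (z : ℂ) : (Real.exp |z.im| - Real.exp (-|z.im|)) / 2 ≤ ‖Complex.sin z‖ := by
  rw [Complex.sin]
  have h1 : ‖Complex.exp (-z * I)‖ = Real.exp z.im := by
    rw [Complex.norm_exp]; congr 1; simp
  have h2 : ‖Complex.exp (z * I)‖ = Real.exp (-z.im) := by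
    rw [Complex.norm_exp]; congr 1; simp
  have h3 : ‖(Complex.exp (-z * I) - Complex.exp (z * I)) * I / 2‖
      = ‖Complex.exp (-z * I) - Complex.exp (z * I)‖ / 2 := by
    rw [norm_div, norm_mul, Complex.norm_I, mul_one]; simp
  rw [h3]
  rcases le_total 0 z.im with h | h
  · rw [abs_of_nonneg h]
    have h4 := norm_sub_norm_le (Complex.exp (-z * I)) (Complex.exp (z * I))
    rw [h1, h2] at h4
    linarith
  · rw [abs_of_nonpos h, neg_neg]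
    have h4 := norm_sub_norm_le (Complex.exp (z * I)) (Complex.exp (-z * I))
    rw [h1, h2, norm_sub_rev] at h4
    linarith

/-- M1b. `sinh(π|y|) ≤ |sin(π(x+iy))| ≤ cosh(π|y|) ≤ e^{π|y|}`, and `sinh(πR) ≥ e^{2R}` for `R ≥ 1`. -/
theorem sin_upper (t : ℂ) (a : ℝ) : ‖Complex.sin (Real.pi * (t - a))‖ ≤ Real.exp (Real.pi * |t.im|) := by
  have him : ((Real.pi : ℂ) * (t - a)).im = Real.pi * t.im := by
    simp
  have h := m1_sin_upper ((Real.pi : ℂ) * (t - a))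
  rwa [him, abs_mul, abs_of_pos Real.pi_pos] at h

theorem sin_lower (t : ℂ) (a R : ℝ) (hR : 1 ≤ R) (ht : |t.im| = R) :
    Real.exp (2 * R) ≤ ‖Complex.sin (Real.pi * (t - a))‖ := by
  have him : ((Real.pi : ℂ) * (t - a)).im = Real.pi * t.im := by
    simp
  have h := m1_sin_lower ((Real.pi : ℂ) * (t - a))
  rw [him, abs_mul, abs_of_pos Real.pi_pos, ht] at h
  refine le_trans ?_ h
  have h1 : Real.exp (Real.pi * R) = Real.exp (2 * R) * Real.exp ((Real.pi - 2) * R) := by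
    rw [← Real.exp_add]; congr 1; ring
  have h2 : 1 + (1.14 : ℝ) + 1.14 ^ 2 / 2 ≤ Real.exp ((Real.pi - 2) * R) := by
    refine le_trans (Real.quadratic_le_exp_of_nonneg (by norm_num)) (Real.exp_le_exp.2 ?_)
    have := Real.pi_gt_d2
    nlinarith
  have h3 : 1 + (2 : ℝ) + 2 ^ 2 / 2 ≤ Real.exp (2 * R) := by
    refine le_trans (Real.quadratic_le_exp_of_nonneg (by norm_num)) (Real.exp_le_exp.2 ?_)
    linarith
  have h4 : Real.exp (-(Real.pi * R)) ≤ 1 := by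
    rw [← Real.exp_zero]
    apply Real.exp_le_exp.2
    have := Real.pi_pos
    have : 0 ≤ Real.pi * R := by positivity
    linarith
  rw [h1]
  have h5 : 0 < Real.exp (2 * R) := Real.exp_pos _
  nlinarith

theorem m1_hasDerivAt_sin (a : ℝ) (t : ℂ) :
    HasDerivAt (fun t : ℂ => Complex.sin (Real.pi * (t - a)))
      (Complex.cos (Real.pi * (t - a)) * Real.pi) t := by
  have h1 : HasDerivAt (fun t : ℂ => (Real.pi : ℂ) * (t - a)) (Real.pi : ℂ) t := by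
    simpa using ((hasDerivAt_id t).sub_const (a : ℂ)).const_mul (Real.pi : ℂ)
  exact h1.csin

theorem m1_deriv_sin (a : ℝ) (t : ℂ) : deriv (fun t : ℂ => Complex.sin (Real.pi * (t - a))) t =
    Real.pi * Complex.cos (Real.pi * (t - a)) := by
  rw [(m1_hasDerivAt_sin a t).deriv, mul_comm]

theorem m1_sin_zero (a : ℝ) (t : ℂ) (ht : Complex.sin (Real.pi * (t - a)) = 0) :
    ∃ k : ℤ, t = a + k := by
  obtain ⟨k, hk⟩ := Complex.sin_eq_zero_iff.1 ht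
  have hpi : (Real.pi : ℂ) ≠ 0 := by exact_mod_cast Real.pi_ne_zero
  refine ⟨k, ?_⟩
  have : t - a = k := by
    apply mul_left_cancel₀ hpi
    rw [hk]; ring
  linear_combination this

/-- M1c. PROOF. `h t = if sin(π(t-a)) = 0 then g'(t)/(π cos(π(t-a))) else g t/sin(π(t-a))`. Near a zero `t₀` of the sine (so `g t₀ = 0`) `h` agrees with
`dslope g t₀ t/dslope (sin(π(·-a))) t₀ t`, a quotient of analytic functions with nonzero denominator at `t₀`. -/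
theorem div_sin (g : ℂ → ℂ) (hg : Differentiable ℂ g) (a : ℝ) (hz : ∀ k : ℤ, g (a + k) = 0) :
    ∃ h : ℂ → ℂ, Differentiable ℂ h ∧ ∀ t, g t = Complex.sin (Real.pi * (t - a)) * h t := by
  classical
  set s : ℂ → ℂ := fun t => Complex.sin (Real.pi * (t - a)) with hs
  have hsd : Differentiable ℂ s := by
    intro t; rw [hs]; fun_prop
  have hsderiv : ∀ t, deriv s t = Real.pi * Complex.cos (Real.pi * (t - a)) := by
    intro t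
    exact m1_deriv_sin a t
  have hzero : ∀ t, s t = 0 → ∃ k : ℤ, t = a + k := by
    intro t ht
    exact m1_sin_zero a t ht
  have hg0 : ∀ t, s t = 0 → g t = 0 := by
    intro t ht
    obtain ⟨k, rfl⟩ := hzero t ht
    exact hz k
  have hs' : ∀ t, s t = 0 → deriv s t ≠ 0 := by
    intro t ht hd
    rw [hsderiv] at hd
    have hpi : (Real.pi : ℂ) ≠ 0 := by exact_mod_cast Real.pi_ne_zero
    have hcos := (mul_eq_zero.1 hd).resolve_left hpi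
    have hsin : Complex.sin (Real.pi * (t - a)) = 0 := ht
    have := Complex.sin_sq_add_cos_sq (Real.pi * (t - a))
    rw [hsin, hcos] at this
    norm_num at this
  refine ⟨fun t => if s t = 0 then deriv g t / deriv s t else g t / s t, ?_, ?_⟩
  · intro t₀
    by_cases ht₀ : s t₀ = 0
    · -- a zero of the sine
      have hdg : DifferentiableAt ℂ (dslope g t₀) t₀ := by
        have := (Complex.differentiableOn_dslope (f := g) (c := t₀) (s := Set.univ)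
          Filter.univ_mem).2 hg.differentiableOn
        exact (this t₀ (Set.mem_univ _)).differentiableAt Filter.univ_mem
      have hds : DifferentiableAt ℂ (dslope s t₀) t₀ := by
        have := (Complex.differentiableOn_dslope (f := s) (c := t₀) (s := Set.univ)
          Filter.univ_mem).2 hsd.differentiableOn
        exact (this t₀ (Set.mem_univ _)).differentiableAt Filter.univ_mem
      have hne : dslope s t₀ t₀ ≠ 0 := by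
        rw [dslope_same]; exact hs' t₀ ht₀
      have hquot : DifferentiableAt ℂ (fun t => dslope g t₀ t / dslope s t₀ t) t₀ :=
        hdg.div hds hne
      refine hquot.congr_of_eventuallyEq ?_
      have hev : ∀ᶠ t in 𝓝 t₀, dslope s t₀ t ≠ 0 := hds.continuousAt.eventually_ne hne
      filter_upwards [hev] with t ht
      by_cases htt : t = t₀
      · subst htt
        rw [if_pos ht₀, dslope_same, dslope_same]
      · have htt' : t - t₀ ≠ 0 := sub_ne_zero.2 htt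
        rw [dslope_of_ne _ htt, slope_def_field, ht₀, sub_zero] at ht
        have hst : s t ≠ 0 := by
          intro h
          rw [h, zero_div] at ht
          exact ht rfl
        rw [if_neg hst, dslope_of_ne _ htt, dslope_of_ne _ htt, slope_def_field, slope_def_field,
          ht₀, hg0 t₀ ht₀, sub_zero, sub_zero]
        field_simp
    · have hev : ∀ᶠ t in 𝓝 t₀, s t ≠ 0 := hsd.continuous.continuousAt.eventually_ne ht₀
      have hquot : DifferentiableAt ℂ (fun t => g t / s t) t₀ := (hg t₀).div (hsd t₀) ht₀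
      refine hquot.congr_of_eventuallyEq ?_
      filter_upwards [hev] with t ht
      rw [if_neg ht]
  · intro t
    change g t = s t * _
    by_cases ht : s t = 0
    · simp only [ht, zero_mul]
      exact hg0 t ht
    · simp only [if_neg ht]
      field_simp

end Pool.Agent.MSP
end

end

section

/-! # V1: mixed derivatives, Leibniz rule (MP_f58a57_nt, pairs) -/

open Complex Filter Topology

noncomputable section

namespace Pool.Agent.MSP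

/-- analytic in the second variable -/
theorem v1_right (F : ℂ → ℂ → ℂ) (t w : ℂ) (hF : An2 F t w) : AnalyticAt ℂ (F t) w := by
  have h1 : AnalyticAt ℂ (fun w' : ℂ => ((t, w') : ℂ × ℂ)) w := analyticAt_const.prod analyticAt_id
  exact AnalyticAt.fun_comp (f := fun w' : ℂ => ((t, w') : ℂ × ℂ)) (g := fun p : ℂ × ℂ => F p.1 p.2) hF h1

/-- analytic in the first variable -/
theorem v1_left (F : ℂ → ℂ → ℂ) (t w : ℂ) (hF : An2 F t w) : AnalyticAt ℂ (fun t' => F t' w) t := by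
  have h1 : AnalyticAt ℂ (fun t' : ℂ => ((t', w) : ℂ × ℂ)) t := analyticAt_id.prod analyticAt_const
  exact AnalyticAt.fun_comp (f := fun t' : ℂ => ((t', w) : ℂ × ℂ)) (g := fun p : ℂ × ℂ => F p.1 p.2) hF h1

/-- the partial derivative in the second variable as a Fréchet derivative -/
theorem v1_fderiv (H : ℂ → ℂ → ℂ) (t w : ℂ) (hH : An2 H t w) :
    deriv (H t) w = fderiv ℂ (fun p : ℂ × ℂ => H p.1 p.2) (t, w) (0, 1) := by
  have h1 : HasFDerivAt (fun p : ℂ × ℂ => H p.1 p.2) (fderiv ℂ (fun p : ℂ × ℂ => H p.1 p.2) (t, w)) (t, w) :=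
    hH.differentiableAt.hasFDerivAt
  have h2 : HasDerivAt (fun w' : ℂ => ((t, w') : ℂ × ℂ)) (0, 1) w :=
    (hasDerivAt_const w t).prodMk (hasDerivAt_id w)
  have h3 := HasFDerivAt.comp_hasDerivAt (x := w) (f := fun w' : ℂ => ((t, w') : ℂ × ℂ)) h1 h2
  exact h3.deriv

/-- V1a. For fixed `t` near `t₀`, `w ↦ F t w` is analytic at `w₀`, and `t ↦ ∂_w^j F(t, w₀)` is analytic at `t₀`. -/
theorem an2_iter (F : ℂ → ℂ → ℂ) (t₀ w₀ : ℂ) (hF : An2 F t₀ w₀) (j : ℕ) :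
    An2 (fun t w => iteratedDeriv j (F t) w) t₀ w₀ := by
  induction j with
  | zero => simpa [An2] using hF
  | succ j ih =>
    have h1 : AnalyticAt ℂ (fun p : ℂ × ℂ => iteratedDeriv j (F p.1) p.2) (t₀, w₀) := ih
    have h2 : AnalyticAt ℂ (fun p : ℂ × ℂ =>
        fderiv ℂ (fun p : ℂ × ℂ => iteratedDeriv j (F p.1) p.2) p (0, 1)) (t₀, w₀) := by
      have h3 : AnalyticAt ℂ (fderiv ℂ (fun p : ℂ × ℂ => iteratedDeriv j (F p.1) p.2)) (t₀, w₀) := h1.fderiv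
      have h4 : AnalyticAt ℂ (fun L : ℂ × ℂ →L[ℂ] ℂ => L (0, 1))
          (fderiv ℂ (fun p : ℂ × ℂ => iteratedDeriv j (F p.1) p.2) (t₀, w₀)) :=
        (ContinuousLinearMap.apply ℂ ℂ ((0, 1) : ℂ × ℂ)).analyticAt _
      exact AnalyticAt.fun_comp (f := fderiv ℂ (fun p : ℂ × ℂ => iteratedDeriv j (F p.1) p.2))
        (g := fun L : ℂ × ℂ →L[ℂ] ℂ => L (0, 1)) h4 h3
    refine h2.congr ?_
    filter_upwards [h1.eventually_analyticAt] with p hp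
    have := v1_fderiv (fun t w => iteratedDeriv j (F t) w) p.1 p.2 hp
    simp only [iteratedDeriv_succ]
    exact this.symm

theorem dd_congr (F F' : ℂ → ℂ → ℂ) (t₀ w₀ : ℂ) (h : ∀ᶠ p in 𝓝 (t₀, w₀), F p.1 p.2 = F' p.1 p.2) (r s : ℕ) :
    dd r s F t₀ w₀ = dd r s F' t₀ w₀ := by
  rw [nhds_prod_eq] at h
  have h1 : ∀ᶠ t in 𝓝 t₀, ∀ᶠ w in 𝓝 w₀, F t w = F' t w := h.curry
  unfold dd
  apply Filter.EventuallyEq.iteratedDeriv_eq
  filter_upwards [h1] with t ht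
  exact Filter.EventuallyEq.iteratedDeriv_eq s ht

/-- V1b. Leibniz rule. -/
theorem dd_leibniz (h₁ h₂ : ℂ → ℂ) (F : ℂ → ℂ → ℂ) (t₀ w₀ : ℂ) (h1 : AnalyticAt ℂ h₁ t₀) (h2 : AnalyticAt ℂ h₂ w₀)
    (hF : An2 F t₀ w₀) (r s : ℕ) :
    dd r s (fun t w => h₁ t * h₂ w * F t w) t₀ w₀ =
      ∑ i ∈ Finset.range (r + 1), ∑ j ∈ Finset.range (s + 1),
        (r.choose i : ℂ) * (s.choose j : ℂ) * iteratedDeriv (r - i) h₁ t₀ * iteratedDeriv (s - j) h₂ w₀ *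
          dd i j F t₀ w₀ := by
  -- the inner derivative
  have hev : ∀ᶠ t in 𝓝 t₀, AnalyticAt ℂ (F t) w₀ := by
    have ha : ∀ᶠ p in 𝓝 (t₀, w₀), AnalyticAt ℂ (fun p : ℂ × ℂ => F p.1 p.2) p :=
      AnalyticAt.eventually_analyticAt hF
    have hc : Tendsto (fun t : ℂ => ((t, w₀) : ℂ × ℂ)) (𝓝 t₀) (𝓝 (t₀, w₀)) :=
      (continuous_id.prodMk continuous_const).tendsto t₀
    filter_upwards [hc.eventually ha] with t ht
    exact v1_right F t w₀ ht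
  have hin : (fun t => iteratedDeriv s (fun w => h₁ t * h₂ w * F t w) w₀) =ᶠ[𝓝 t₀]
      (fun t => ∑ j ∈ Finset.range (s + 1), ((s.choose j : ℂ) * iteratedDeriv (s - j) h₂ w₀) *
        (iteratedDeriv j (F t) w₀ * h₁ t)) := by
    filter_upwards [hev] with t ht
    have e1 : (fun w => h₁ t * h₂ w * F t w) = (fun w => h₁ t * ((F t) w * h₂ w)) := by
      funext w; ring
    rw [e1, iteratedDeriv_const_mul_field, iteratedDeriv_fun_mul ht.contDiffAt h2.contDiffAt,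
      Finset.mul_sum]
    apply Finset.sum_congr rfl
    intro j _
    ring
  unfold dd
  rw [Filter.EventuallyEq.iteratedDeriv_eq r hin]
  have han : ∀ j, AnalyticAt ℂ (fun t => iteratedDeriv j (F t) w₀) t₀ := fun j =>
    v1_left (fun t w => iteratedDeriv j (F t) w) t₀ w₀ (an2_iter F t₀ w₀ hF j)
  rw [iteratedDeriv_fun_sum (f := fun j t => ((s.choose j : ℂ) * iteratedDeriv (s - j) h₂ w₀) *
        (iteratedDeriv j (F t) w₀ * h₁ t)) (fun j _ => (analyticAt_const.mul ((han j).mul h1)).contDiffAt)]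
  rw [Finset.sum_comm]
  apply Finset.sum_congr rfl
  intro j _
  rw [iteratedDeriv_const_mul_field, iteratedDeriv_fun_mul (han j).contDiffAt h1.contDiffAt, Finset.mul_sum]
  apply Finset.sum_congr rfl
  intro i _
  ring

end Pool.Agent.MSP
end

end

section

/-! # Z2: a one-variable lemma on Taylor coefficients (MP_f58a57_nt, pairs) -/

open Complex Filter Topology

noncomputable section

namespace Pool.Agent.MSP

theorem z2_dslope_diff (f : ℂ → ℂ) (hf : Differentiable ℂ f) : Differentiable ℂ (dslope f 0) := by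
  have h1 : DifferentiableOn ℂ (dslope f 0) Set.univ :=
    (differentiableOn_dslope Filter.univ_mem).2 hf.differentiableOn
  exact differentiableOn_univ.1 h1

theorem z2_iter_diff (f : ℂ → ℂ) (hf : Differentiable ℂ f) (N : ℕ) :
    Differentiable ℂ ((Function.swap dslope 0)^[N] f) := by
  induction N with
  | zero => exact hf
  | succ N ih =>
    rw [Function.iterate_succ_apply']
    exact z2_dslope_diff _ ih

theorem z2_iter_zero (f : ℂ → ℂ) (hf : Differentiable ℂ f) (N : ℕ) :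
    ((Function.swap dslope 0)^[N] f) 0 = iteratedDeriv N f 0 / (N.factorial : ℂ) := by
  have h0 : AnalyticAt ℂ f 0 := hf.analyticAt 0
  have h1 := h0.hasFPowerSeriesAt
  have h2 := h1.has_fpower_series_iterate_dslope_fslope N
  rw [← h2.coeff_zero 1]
  have h3 := FormalMultilinearSeries.coeff_iterate_fslope
    (p := FormalMultilinearSeries.ofScalars ℂ (fun n ↦ iteratedDeriv n f 0 / (n.factorial : ℂ))) N 0
  rw [zero_add, FormalMultilinearSeries.coeff_ofScalars] at h3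
  exact h3

theorem z2_split (f : ℂ → ℂ) (hf : Differentiable ℂ f) (N : ℕ) (z : ℂ) :
    f z = ∑ m ∈ Finset.range N, iteratedDeriv m f 0 / (m.factorial : ℂ) * z ^ m
      + z ^ N * ((Function.swap dslope 0)^[N] f) z := by
  induction N with
  | zero => simp
  | succ N ih =>
    rw [Finset.sum_range_succ, Function.iterate_succ_apply']
    set h := (Function.swap dslope 0)^[N] f with hh
    have h1 : h z = h 0 + z * dslope h 0 z := by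
      have h2 := sub_smul_dslope h 0 z
      simp only [sub_zero, smul_eq_mul] at h2
      rw [h2]
      ring
    have h3 : h 0 = iteratedDeriv N f 0 / (N.factorial : ℂ) := z2_iter_zero f hf N
    rw [← h3]
    have h4 : (Function.swap dslope 0 h) = dslope h 0 := rfl
    rw [h4]
    rw [ih, h1]
    ring

/-- Z2. PROOF. Let `p(z) = ∑_{m<N} g_m z^m` (Taylor polynomial of `g`), `D(z) = K z - c e^{αz} p(z) = c e^{αz} (g z - p z)`, which has a zero of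
order `≥ N` at `0`, so `D(z)/z^N` is entire and by the maximum principle on `‖z‖ = 7r` (or Cauchy's inequalities)
`‖D z‖ ≤ 7^{-N} (W + ‖c‖ e^{7‖α‖r} ε ∑_{m<N} (7r)^m)` for `‖z‖ ≤ r`, and `∑_{m<N} (7r)^m ≤ N (7r)^N`; also `‖c e^{αz} p(z)‖ ≤ ‖c‖ e^{‖α‖r} ε N r^N`. Finally
`7^{-N} ≤ e^{-(3/2)N}` (`e^{3/2} < 4.5`). -/
theorem taylor_split (K g : ℂ → ℂ) (c α : ℂ) (hg : Differentiable ℂ g) (hK : ∀ z, K z = c * cexp (α * z) * g z) (N : ℕ)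
    (ε r W : ℝ) (hr : 1 ≤ r) (hε : ∀ m < N, ‖iteratedDeriv m g 0 / (m.factorial : ℂ)‖ ≤ ε)
    (hW : ∀ z, ‖z‖ ≤ 7 * r → ‖K z‖ ≤ W) (z : ℂ) (hz : ‖z‖ ≤ r) :
    ‖K z‖ ≤ 2 * ‖c‖ * ε * Real.exp (7 * ‖α‖ * r) * N * r ^ N + W * Real.exp (-(3 / 2 * N)) := by
  have hr0 : 0 < r := by linarith
  -- notation
  set h := (Function.swap dslope 0)^[N] g with hh
  have hhd : Differentiable ℂ h := z2_iter_diff g hg N
  set p : ℂ → ℂ := fun w => ∑ m ∈ Finset.range N, iteratedDeriv m g 0 / (m.factorial : ℂ) * w ^ m with hp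
  have hgs : ∀ w, g w = p w + w ^ N * h w := fun w => z2_split g hg N w
  -- bound for p
  have hpb : ∀ (R : ℝ), 1 ≤ R → ∀ w : ℂ, ‖w‖ ≤ R → ‖p w‖ ≤ ε * N * R ^ N := by
    intro R hR w hw
    calc ‖p w‖ ≤ ∑ m ∈ Finset.range N, ‖iteratedDeriv m g 0 / (m.factorial : ℂ) * w ^ m‖ := norm_sum_le _ _
      _ ≤ ∑ m ∈ Finset.range N, ε * R ^ N := by
        refine Finset.sum_le_sum fun m hm => ?_
        rw [Finset.mem_range] at hm
        rw [norm_mul, norm_pow]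
        have h1 : ‖w‖ ^ m ≤ R ^ N :=
          (pow_le_pow_left₀ (norm_nonneg _) hw m).trans (pow_le_pow_right₀ hR hm.le)
        exact mul_le_mul (hε m hm) h1 (by positivity) ((norm_nonneg _).trans (hε m hm))
      _ = ε * N * R ^ N := by
        rw [Finset.sum_const, Finset.card_range, nsmul_eq_mul]; ring
  have hNε : 0 ≤ ε * N := by
    rcases Nat.eq_zero_or_pos N with h0 | h0
    · simp [h0]
    · exact mul_nonneg ((norm_nonneg _).trans (hε 0 h0)) (Nat.cast_nonneg _)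
  have hW0 : 0 ≤ W := (norm_nonneg _).trans (hW 0 (by simp; linarith))
  have hexp : ∀ (R : ℝ), ∀ w : ℂ, ‖w‖ ≤ R → ‖cexp (α * w)‖ ≤ Real.exp (‖α‖ * R) := by
    intro R w hw
    rw [Complex.norm_exp]
    refine Real.exp_le_exp.2 ?_
    calc (α * w).re ≤ ‖α * w‖ := Complex.re_le_norm _
      _ = ‖α‖ * ‖w‖ := norm_mul _ _
      _ ≤ ‖α‖ * R := mul_le_mul_of_nonneg_left hw (norm_nonneg _)
  -- H = c e^{αz} h
  set H : ℂ → ℂ := fun w => c * cexp (α * w) * h w with hH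
  have hHd : Differentiable ℂ H := by
    intro w
    have h1 : DifferentiableAt ℂ (fun w => cexp (α * w)) w := by fun_prop
    exact (h1.const_mul c).mul (hhd w)
  have hDH : ∀ w, K w - c * cexp (α * w) * p w = w ^ N * H w := by
    intro w
    rw [hK, hgs]
    simp only [hH]
    ring
  set E := Real.exp (7 * ‖α‖ * r) with hE
  have hE0 : 0 < E := Real.exp_pos _
  set M : ℝ := (W + ‖c‖ * E * (ε * N * (7 * r) ^ N)) / (7 * r) ^ N with hM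
  have h7r : 1 ≤ 7 * r := by linarith
  have hHb : ∀ w ∈ frontier (Metric.ball (0 : ℂ) (7 * r)), ‖H w‖ ≤ M := by
    intro w hw
    rw [frontier_ball _ (by linarith : (7 * r) ≠ 0)] at hw
    have hw' : ‖w‖ = 7 * r := by simpa using hw
    rw [hM, le_div_iff₀ (by positivity)]
    have h1 : ‖H w‖ * (7 * r) ^ N = ‖K w - c * cexp (α * w) * p w‖ := by
      rw [hDH, norm_mul (w ^ N) (H w), norm_pow, hw', mul_comm]
    rw [h1]
    refine (norm_sub_le _ _).trans ?_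
    refine add_le_add (hW w hw'.le) ?_
    rw [norm_mul, norm_mul]
    have h2 := hexp (7 * r) w hw'.le
    have h3 := hpb (7 * r) h7r w hw'.le
    have h4 : ‖α‖ * (7 * r) = 7 * ‖α‖ * r := by ring
    rw [h4] at h2
    gcongr
  have hHz : ‖H z‖ ≤ M := by
    refine Complex.norm_le_of_forall_mem_frontier_norm_le Metric.isBounded_ball
      (hHd.diffContOnCl) hHb ?_
    refine subset_closure ?_
    rw [Metric.mem_ball, dist_zero_right]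
    linarith
  have hKz : K z = c * cexp (α * z) * p z + z ^ N * H z := by
    rw [← hDH z]; ring
  have h7N : (7 : ℝ)⁻¹ ^ N ≤ Real.exp (-(3 / 2 * N)) := by
    have h1 : Real.exp (-(3 / 2 * N)) = (Real.exp (-(3/2))) ^ N := by
      rw [← Real.exp_nat_mul]
      congr 1
      ring
    rw [h1]
    refine pow_le_pow_left₀ (by norm_num) ?_ N
    rw [Real.exp_neg]
    refine inv_anti₀ (Real.exp_pos _) ?_
    have h2 : Real.exp (3/2) ≤ Real.exp 1 ^ 2 := by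
      rw [← Real.exp_nat_mul]
      exact Real.exp_le_exp.2 (by norm_num)
    have h3 : Real.exp 1 < 2.7182818286 := Real.exp_one_lt_d9
    have h4 : Real.exp (3/2) ^ 2 = Real.exp 1 ^ 3 := by
      rw [← Real.exp_nat_mul, ← Real.exp_nat_mul]
      congr 1
      norm_num
    have h5 : Real.exp 1 ^ 3 ≤ 49 := by
      have : Real.exp 1 ^ 3 ≤ 2.7182818286 ^ 3 := pow_le_pow_left₀ (Real.exp_pos _).le h3.le 3
      refine this.trans ?_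
      norm_num
    nlinarith [Real.exp_pos (3/2)]
  -- final estimate
  have h1 : ‖c * cexp (α * z) * p z‖ ≤ ‖c‖ * E * (ε * N * r ^ N) := by
    rw [norm_mul, norm_mul]
    have h2 := hexp r z hz
    have h3 := hpb r hr z hz
    have h4 : Real.exp (‖α‖ * r) ≤ E := Real.exp_le_exp.2 (by nlinarith [norm_nonneg α, mul_nonneg (norm_nonneg α) hr0.le])
    have h5 := h2.trans h4
    gcongr
  have h2 : ‖z ^ N * H z‖ ≤ W * Real.exp (-(3 / 2 * N)) + ‖c‖ * E * (ε * N * r ^ N) := by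
    rw [norm_mul, norm_pow]
    have h3 : ‖z‖ ^ N * ‖H z‖ ≤ r ^ N * M :=
      mul_le_mul (pow_le_pow_left₀ (norm_nonneg _) hz N) hHz (norm_nonneg _) (by positivity)
    refine h3.trans ?_
    have h4 : r ^ N * M = W * (7 : ℝ)⁻¹ ^ N + ‖c‖ * E * (ε * N * r ^ N) := by
      rw [hM, mul_pow, inv_pow]
      have : r ^ N ≠ 0 := by positivity
      field_simp
    rw [h4]
    have := mul_le_mul_of_nonneg_left h7N hW0
    linarith
  rw [hKz]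
  refine (norm_add_le _ _).trans ?_
  have : 2 * ‖c‖ * ε * E * N * r ^ N = ‖c‖ * E * (ε * N * r ^ N) + ‖c‖ * E * (ε * N * r ^ N) := by ring
  linarith

end Pool.Agent.MSP
end

end

section

/-! # Z4: interpolation (MP_f58a57_nt, pairs) -/

open Complex Filter Topology

noncomputable section

namespace Pool.Agent.MSP

/-- Coefficients of a product of normalised linear factors. -/
theorem z4_prod_coeff {ι : Type*} [DecidableEq ι] (t : Finset ι) (c v : ι → ℂ) (Y : ℝ) (hY : 0 ≤ Y)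
    (hc : ∀ i ∈ t, ‖c i‖ ≤ 1) (hv : ∀ i ∈ t, ‖v i‖ ≤ Y) (j : ℕ) :
    ‖(∏ i ∈ t, (Polynomial.C (c i) * (Polynomial.X - Polynomial.C (v i)))).coeff j‖ ≤
      (1 + Y) ^ t.card := by
  induction t using Finset.induction_on generalizing j with
  | empty =>
    simp only [Finset.prod_empty, Finset.card_empty, pow_zero, Polynomial.coeff_one]
    split_ifs <;> simp
  | insert a t ha ih =>
    have ih' := ih (fun i hi => hc i (Finset.mem_insert_of_mem hi))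
      (fun i hi => hv i (Finset.mem_insert_of_mem hi))
    rw [Finset.prod_insert ha, Finset.card_insert_of_notMem ha]
    set q := ∏ i ∈ t, (Polynomial.C (c i) * (Polynomial.X - Polynomial.C (v i))) with hq
    have e : Polynomial.C (c a) * (Polynomial.X - Polynomial.C (v a)) * q =
        Polynomial.C (c a) * (Polynomial.X * q - Polynomial.C (v a) * q) := by ring
    rw [e, Polynomial.coeff_C_mul, Polynomial.coeff_sub, Polynomial.coeff_C_mul, norm_mul]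
    have hca := hc a (Finset.mem_insert_self _ _)
    have hva := hv a (Finset.mem_insert_self _ _)
    have hP : 0 ≤ (1 + Y) ^ t.card := by positivity
    have h1 : ‖(Polynomial.X * q).coeff j‖ ≤ (1 + Y) ^ t.card := by
      rcases j with _ | j
      · simp [hP]
      · rw [Polynomial.coeff_X_mul]
        exact ih' j
    have h2 : ‖v a * q.coeff j‖ ≤ Y * (1 + Y) ^ t.card := by
      rw [norm_mul]
      exact mul_le_mul hva (ih' j) (norm_nonneg _) hY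
    calc ‖c a‖ * ‖(Polynomial.X * q).coeff j - v a * q.coeff j‖
        ≤ 1 * ‖(Polynomial.X * q).coeff j - v a * q.coeff j‖ := by
          exact mul_le_mul_of_nonneg_right hca (norm_nonneg _)
      _ = ‖(Polynomial.X * q).coeff j - v a * q.coeff j‖ := one_mul _
      _ ≤ ‖(Polynomial.X * q).coeff j‖ + ‖v a * q.coeff j‖ := norm_sub_le _ _
      _ ≤ (1 + Y) ^ t.card + Y * (1 + Y) ^ t.card := add_le_add h1 h2
      _ = (1 + Y) ^ (t.card + 1) := by ring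

/-- Z4a. PROOF. Lagrange interpolation at the nodes `y_k = x + m₀ + k`, `k ≤ K`: the polynomial `p = ∑ A_κ X^κ` equals
`∑_k p(y_k) ∏_{i≠k} (X - y_i)/(y_k - y_i)` (Mathlib `Lagrange.eq_interpolate`), the denominators are nonzero integers (absolute value `≥ 1`), and the
coefficients of `∏_{i≠k} (X - y_i)` are at most `∏ (1 + ‖y_i‖) ≤ (1+Y)^K`. (Alternative: Newton divided differences.) -/
theorem interp1 (K : ℕ) (A : ℕ → ℂ) (x : ℂ) (m₀ : ℤ) (ε Y : ℝ) (hY : ∀ k ≤ K, ‖x + m₀ + k‖ ≤ Y)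
    (h : ∀ k ≤ K, ‖∑ κ ∈ Finset.range (K + 1), A κ * (x + m₀ + k) ^ κ‖ ≤ ε) (j : ℕ) (hj : j ≤ K) :
    ‖A j‖ ≤ (K + 1) * (1 + Y) ^ K * ε := by
  classical
  have hY0 : 0 ≤ Y := (norm_nonneg _).trans (hY 0 (Nat.zero_le _))
  have hε0 : 0 ≤ ε := (norm_nonneg _).trans (h 0 (Nat.zero_le _))
  set v : ℕ → ℂ := fun k => x + m₀ + k with hvdef
  set s := Finset.range (K + 1) with hs
  set p : Polynomial ℂ := ∑ κ ∈ s, Polynomial.C (A κ) * Polynomial.X ^ κ with hp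
  have hinj : Set.InjOn v (s : Set ℕ) := by
    intro a _ b _ hab
    simp only [hvdef, add_right_inj] at hab
    exact_mod_cast hab
  have hcoeff : ∀ i ∈ s, p.coeff i = A i := by
    intro i hi
    rw [hp, Polynomial.finsetSum_coeff]
    simp only [Polynomial.coeff_C_mul_X_pow]
    rw [Finset.sum_ite_eq]
    simp [hi]
  have hdeg : p.degree < (s.card : WithBot ℕ) := by
    rw [hs, Finset.card_range, Polynomial.degree_lt_iff_coeff_zero]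
    intro m hm
    rw [hp, Polynomial.finsetSum_coeff]
    refine Finset.sum_eq_zero fun i hi => ?_
    rw [Polynomial.coeff_C_mul_X_pow, if_neg]
    have := Finset.mem_range.1 hi
    intro hmi
    omega
  have heval : ∀ k, p.eval (v k) = ∑ κ ∈ s, A κ * (x + m₀ + k) ^ κ := by
    intro k
    rw [hp, Polynomial.eval_finsetSum]
    simp [hvdef]
  have hpi := Lagrange.eq_interpolate hinj hdeg
  have hjs : j ∈ s := Finset.mem_range.2 (by omega)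
  have hAj : A j = ∑ k ∈ s, p.eval (v k) * (Lagrange.basis s v k).coeff j := by
    rw [← hcoeff j hjs]
    conv_lhs => rw [hpi]
    rw [Lagrange.interpolate_apply, Polynomial.finsetSum_coeff]
    simp only [Polynomial.coeff_C_mul]
  rw [hAj]
  have hterm : ∀ k ∈ s, ‖p.eval (v k) * (Lagrange.basis s v k).coeff j‖ ≤ ε * (1 + Y) ^ K := by
    intro k hk
    have hkK : k ≤ K := by have := Finset.mem_range.1 hk; omega
    rw [norm_mul]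
    refine mul_le_mul ?_ ?_ (norm_nonneg _) hε0
    · rw [heval]; exact h k hkK
    · have hcard : (s.erase k).card = K := by
        rw [Finset.card_erase_of_mem hk, hs, Finset.card_range]; simp
      have := z4_prod_coeff (s.erase k) (fun i => (v k - v i)⁻¹) v Y hY0 ?_ ?_ j
      · rw [hcard] at this
        simpa [Lagrange.basis, Lagrange.basisDivisor] using this
      · intro i hi
        have hik : i ≠ k := (Finset.mem_erase.1 hi).1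
        have e : v k - v i = (((k : ℤ) - (i : ℤ) : ℤ) : ℂ) := by
          simp only [hvdef]; push_cast; ring
        rw [e, norm_inv, Complex.norm_intCast]
        have h1 : (1 : ℝ) ≤ |(((k : ℤ) - (i : ℤ) : ℤ) : ℝ)| := by
          rw [← Int.cast_abs]
          have : (1 : ℤ) ≤ |(k : ℤ) - (i : ℤ)| := Int.one_le_abs (by omega)
          exact_mod_cast this
        exact inv_le_one_of_one_le₀ h1
      · intro i hi
        have hiK : i ≤ K := by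
          have := Finset.mem_range.1 (Finset.mem_erase.1 hi).2; omega
        exact hY i hiK
  calc ‖∑ k ∈ s, p.eval (v k) * (Lagrange.basis s v k).coeff j‖
      ≤ ∑ k ∈ s, ‖p.eval (v k) * (Lagrange.basis s v k).coeff j‖ := norm_sum_le _ _
    _ ≤ ∑ _k ∈ s, ε * (1 + Y) ^ K := Finset.sum_le_sum hterm
    _ = (K + 1) * (1 + Y) ^ K * ε := by
        rw [Finset.sum_const, hs, Finset.card_range, nsmul_eq_mul]; push_cast; ring

/-- Z4b. PROOF. Three applications of Z4a: for fixed `j, i` in the first variable, then in the second, then in the third. -/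
theorem interp3 (d₁ d₂ d₃ : ℕ) (A : ℕ → ℕ → ℕ → ℂ) (x₁ x₂ x₃ : ℂ) (h₀ : ℕ → ℤ) (m₀ : ℕ → ℕ → ℤ) (ε Y : ℝ)
    (hY₁ : ∀ j ≤ d₃, ∀ i ≤ d₂, ∀ k ≤ d₁, ‖x₁ + m₀ j i + k‖ ≤ Y)
    (hY₂ : ∀ j ≤ d₃, ∀ i ≤ d₂, ‖x₂ + h₀ j + i‖ ≤ Y) (hY₃ : ∀ j ≤ d₃, ‖x₃ + j‖ ≤ Y)
    (h : ∀ j ≤ d₃, ∀ i ≤ d₂, ∀ k ≤ d₁, ‖∑ κ₁ ∈ Finset.range (d₁ + 1), ∑ κ₂ ∈ Finset.range (d₂ + 1),
      ∑ κ₃ ∈ Finset.range (d₃ + 1), A κ₁ κ₂ κ₃ * ((x₁ + m₀ j i + k) ^ κ₁ * (x₂ + h₀ j + i) ^ κ₂ * (x₃ + j) ^ κ₃)‖ ≤ ε)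
    (κ₁ κ₂ κ₃ : ℕ) (h₁ : κ₁ ≤ d₁) (h₂ : κ₂ ≤ d₂) (h₃ : κ₃ ≤ d₃) :
    ‖A κ₁ κ₂ κ₃‖ ≤ ((d₁ + 1) * (d₂ + 1) * (d₃ + 1)) * (1 + Y) ^ (d₁ + d₂ + d₃) * ε := by
  have s1 : ∀ j ≤ d₃, ∀ i ≤ d₂, ‖∑ κ₂ ∈ Finset.range (d₂ + 1), ∑ κ₃ ∈ Finset.range (d₃ + 1),
      A κ₁ κ₂ κ₃ * ((x₂ + h₀ j + i) ^ κ₂ * (x₃ + j) ^ κ₃)‖ ≤ (d₁ + 1) * (1 + Y) ^ d₁ * ε := by
    intro j hj i hi
    refine interp1 d₁ (fun κ₁ => ∑ κ₂ ∈ Finset.range (d₂ + 1), ∑ κ₃ ∈ Finset.range (d₃ + 1),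
      A κ₁ κ₂ κ₃ * ((x₂ + h₀ j + i) ^ κ₂ * (x₃ + j) ^ κ₃)) x₁ (m₀ j i) ε Y (hY₁ j hj i hi) ?_ κ₁ h₁
    intro k hk
    have := h j hj i hi k hk
    refine le_of_eq_of_le ?_ this
    congr 1
    refine Finset.sum_congr rfl fun a _ => ?_
    rw [Finset.sum_mul]
    refine Finset.sum_congr rfl fun b _ => ?_
    rw [Finset.sum_mul]
    refine Finset.sum_congr rfl fun c _ => ?_
    ring
  have s2 : ∀ j ≤ d₃, ‖∑ κ₃ ∈ Finset.range (d₃ + 1), A κ₁ κ₂ κ₃ * (x₃ + j) ^ κ₃‖ ≤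
      (d₂ + 1) * (1 + Y) ^ d₂ * ((d₁ + 1) * (1 + Y) ^ d₁ * ε) := by
    intro j hj
    refine interp1 d₂ (fun κ₂ => ∑ κ₃ ∈ Finset.range (d₃ + 1), A κ₁ κ₂ κ₃ * (x₃ + j) ^ κ₃) x₂ (h₀ j)
      ((d₁ + 1) * (1 + Y) ^ d₁ * ε) Y (hY₂ j hj) ?_ κ₂ h₂
    intro i hi
    have := s1 j hj i hi
    refine le_of_eq_of_le ?_ this
    congr 1
    refine Finset.sum_congr rfl fun b _ => ?_
    rw [Finset.sum_mul]
    refine Finset.sum_congr rfl fun c _ => ?_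
    ring
  have s3 := interp1 d₃ (fun κ₃ => A κ₁ κ₂ κ₃) x₃ 0
    ((d₂ + 1) * (1 + Y) ^ d₂ * ((d₁ + 1) * (1 + Y) ^ d₁ * ε)) Y
    (by intro k hk; simpa using hY₃ k hk) (by intro k hk; simpa using s2 k hk) κ₃ h₃
  refine s3.trans (le_of_eq ?_)
  rw [pow_add, pow_add]
  ring

end Pool.Agent.MSP
end

end

section

/-! # Z4c: coefficients of polynomials that are small on a polydisc (MP_f58a57_nt, pairs) -/

open Complex Filter Topology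

noncomputable section

namespace Pool.Agent.MSP

/-- Cauchy's estimate for the coefficients of a polynomial (via Parseval). -/
theorem z4c_coeff_le (Q : Polynomial ℂ) (ε : ℝ) (h : ∀ u : ℂ, ‖u‖ = 1 → ‖Q.eval u‖ ≤ ε) (c : ℕ) :
    ‖Q.coeff c‖ ≤ ε := by
  have hε : 0 ≤ ε := le_trans (norm_nonneg _) (h 1 (by simp))
  have h1 : ∑ i ∈ Q.support, ‖Q.coeff i‖ ^ 2 ≤ ε ^ 2 := by
    rw [Q.sum_sq_norm_coeff_eq_circleAverage]
    have hc : Continuous (fun z : ℂ => ‖Q.eval z‖ ^ 2) := by fun_prop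
    have := Real.circleAverage_mono_on_of_le_circle (c := (0 : ℂ)) (R := 1) (a := ε ^ 2)
      (f := fun z : ℂ => ‖Q.eval z‖ ^ 2) (hc.continuousOn.circleIntegrable')
      (by
        intro x hx
        have hx' : ‖x‖ = 1 := by simpa using hx
        have := h x hx'
        have h0 := norm_nonneg (Q.eval x)
        nlinarith)
    exact this
  by_cases hs : c ∈ Q.support
  · have h2 : ‖Q.coeff c‖ ^ 2 ≤ ∑ i ∈ Q.support, ‖Q.coeff i‖ ^ 2 :=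
      Finset.single_le_sum (f := fun i => ‖Q.coeff i‖ ^ 2) (fun i _ => by positivity) hs
    have h3 : ‖Q.coeff c‖ ^ 2 ≤ ε ^ 2 := h2.trans h1
    exact (sq_le_sq₀ (norm_nonneg _) hε).1 h3
  · rw [Polynomial.notMem_support_iff.1 hs]; simpa using hε

/-- Z4c. PROOF. `q(u) = ∑_a A_a (p + u)^a = ∑_c B_c u^c` satisfies `‖q(u)‖ ≤ ε` on the unit disc, so `‖B_c‖ ≤ ε` (Cauchy), and
`A_a = ∑_{c ≥ a} B_c (c choose a) (-p)^{c-a}`, `(c choose a)‖p‖^{c-a} ≤ (1 + ‖p‖)^c`. (Or Lagrange interpolation at suitable points, any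
constant `C` depending on `p` only will do.) -/
theorem coeff1 (L : ℕ) (A : ℕ → ℂ) (p : ℂ) (ε : ℝ)
    (h : ∀ x : ℂ, ‖x - p‖ ≤ 1 → ‖∑ a ∈ Finset.range (L + 1), A a * x ^ a‖ ≤ ε) (a : ℕ) (ha : a ≤ L) :
    ‖A a‖ ≤ (L + 1) * (1 + ‖p‖) ^ L * ε := by
  classical
  have hε : 0 ≤ ε := le_trans (norm_nonneg _) (h p (by simp))
  set P : Polynomial ℂ := ∑ i ∈ Finset.range (L + 1), Polynomial.C (A i) * Polynomial.X ^ i with hP
  have hPc : P.coeff a = A a := by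
    rw [hP, Polynomial.finsetSum_coeff]
    simp only [Polynomial.coeff_C_mul_X_pow]
    rw [Finset.sum_eq_single a]
    · simp
    · intro b _ hb; simp [Ne.symm hb]
    · intro h'; exact absurd (Finset.mem_range.2 (by omega)) h'
  have hPe : ∀ x, P.eval x = ∑ i ∈ Finset.range (L + 1), A i * x ^ i := by
    intro x; rw [hP, Polynomial.eval_finsetSum]; simp
  have hPd : P.natDegree ≤ L := by
    rw [hP]
    refine Polynomial.natDegree_sum_le_of_forall_le _ _ ?_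
    intro i hi
    exact (Polynomial.natDegree_C_mul_X_pow_le _ _).trans (by have := Finset.mem_range.1 hi; omega)
  set Q := Polynomial.taylor p P with hQ
  have hQe : ∀ u : ℂ, ‖u‖ = 1 → ‖Q.eval u‖ ≤ ε := by
    intro u hu
    rw [hQ, Polynomial.taylor_eval, hPe]
    exact h _ (by simp [hu])
  have hB := z4c_coeff_le Q ε hQe
  have hQd : Q.natDegree ≤ L := by rw [hQ, Polynomial.natDegree_taylor]; exact hPd
  have hPQ : P = Polynomial.taylor (-p) Q := by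
    rw [hQ, Polynomial.taylor_taylor]; simp
  have hA : A a = (Polynomial.hasseDeriv a Q).eval (-p) := by
    rw [← hPc, hPQ, Polynomial.taylor_coeff]
  have hsum : (Polynomial.hasseDeriv a Q).eval (-p)
      = ∑ i ∈ Finset.range (L + 1), (Polynomial.hasseDeriv a Q).coeff i * (-p) ^ i := by
    refine Polynomial.eval_eq_sum_range' ?_ _
    exact lt_of_le_of_lt ((Polynomial.natDegree_hasseDeriv_le Q a).trans (by omega)) (Nat.lt_succ_self L)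
  rw [hA, hsum]
  have hp1 : (1 : ℝ) ≤ 1 + ‖p‖ := by linarith [norm_nonneg p]
  have hterm : ∀ i ∈ Finset.range (L + 1),
      ‖(Polynomial.hasseDeriv a Q).coeff i * (-p) ^ i‖ ≤ (1 + ‖p‖) ^ L * ε := by
    intro i _
    rw [Polynomial.hasseDeriv_coeff, norm_mul, norm_mul, norm_pow, norm_neg]
    by_cases hi : i + a ≤ L
    · have h1 : ‖(((i + a).choose a : ℕ) : ℂ)‖ = (((i + a).choose a : ℕ) : ℝ) := by simp
      rw [h1]
      have h2 : (((i + a).choose a : ℕ) : ℝ) * ‖p‖ ^ i ≤ (1 + ‖p‖) ^ (i + a) := by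
        rw [add_pow]
        have h3 : i + a - a = i := by omega
        calc (((i + a).choose a : ℕ) : ℝ) * ‖p‖ ^ i
            = 1 ^ a * ‖p‖ ^ (i + a - a) * (((i + a).choose a : ℕ) : ℝ) := by
              rw [h3]; ring
          _ ≤ _ := Finset.single_le_sum
              (f := fun m => (1 : ℝ) ^ m * ‖p‖ ^ (i + a - m) * (((i + a).choose m : ℕ) : ℝ))
              (fun m _ => by positivity) (Finset.mem_range.2 (by omega))
      have h4 : (1 + ‖p‖) ^ (i + a) ≤ (1 + ‖p‖) ^ L := pow_le_pow_right₀ hp1 hi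
      calc (((i + a).choose a : ℕ) : ℝ) * ‖Q.coeff (i + a)‖ * ‖p‖ ^ i
          = ((((i + a).choose a : ℕ) : ℝ) * ‖p‖ ^ i) * ‖Q.coeff (i + a)‖ := by ring
        _ ≤ (1 + ‖p‖) ^ L * ε :=
            mul_le_mul (h2.trans h4) (hB _) (norm_nonneg _) (by positivity)
    · have h0 : Q.coeff (i + a) = 0 :=
        Polynomial.coeff_eq_zero_of_natDegree_lt (by omega)
      rw [h0]; simp; positivity
  calc ‖∑ i ∈ Finset.range (L + 1), (Polynomial.hasseDeriv a Q).coeff i * (-p) ^ i‖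
      ≤ ∑ i ∈ Finset.range (L + 1), (1 + ‖p‖) ^ L * ε := norm_sum_le_of_le _ hterm
    _ = (L + 1) * (1 + ‖p‖) ^ L * ε := by
        rw [Finset.sum_const, Finset.card_range, nsmul_eq_mul]; push_cast; ring

/-- Z4d. PROOF. Two applications of Z4c. -/
theorem coeff2 (L : ℕ) (A : ℕ → ℕ → ℂ) (p₁ p₂ : ℂ) (ε : ℝ)
    (h : ∀ x y : ℂ, ‖x - p₁‖ ≤ 1 → ‖y - p₂‖ ≤ 1 →
      ‖∑ a ∈ Finset.range (L + 1), ∑ b ∈ Finset.range (L + 1), A a b * (x ^ a * y ^ b)‖ ≤ ε)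
    (a b : ℕ) (ha : a ≤ L) (hb : b ≤ L) :
    ‖A a b‖ ≤ (L + 1) ^ 2 * ((1 + ‖p₁‖) * (1 + ‖p₂‖)) ^ L * ε := by
  have h1 : ∀ y : ℂ, ‖y - p₂‖ ≤ 1 →
      ‖∑ b ∈ Finset.range (L + 1), A a b * y ^ b‖ ≤ (L + 1) * (1 + ‖p₁‖) ^ L * ε := by
    intro y hy
    refine coeff1 L (fun a => ∑ b ∈ Finset.range (L + 1), A a b * y ^ b) p₁ ε ?_ a ha
    intro x hx
    have := h x y hx hy
    convert this using 3
    rw [Finset.sum_mul]
    refine Finset.sum_congr rfl fun b _ => ?_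
    ring
  have h2 := coeff1 L (fun b => A a b) p₂ _ h1 b hb
  refine h2.trans (le_of_eq ?_)
  rw [mul_pow]; ring

end Pool.Agent.MSP
end

end

section

/-! # M2: Schwarz lemma in a strip (MP_f58a57_nt, pairs) -/

open Complex Filter Topology

noncomputable section

namespace Pool.Agent.MSP

/-- the sine factor -/
def m2s (a : ℝ) (t : ℂ) : ℂ := Complex.sin (Real.pi * (t - a))

theorem m2_diff (a : ℝ) : Differentiable ℂ (m2s a) := by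
  intro t; unfold m2s; fun_prop

theorem m2_order_one (a : ℝ) (k : ℤ) : analyticOrderAt (m2s a) ((a : ℂ) + k) = 1 := by
  have hzero : m2s a ((a : ℂ) + k) = 0 := by
    unfold m2s
    rw [add_sub_cancel_left, mul_comm]
    exact Complex.sin_int_mul_pi k
  have hderiv : deriv (m2s a) ((a : ℂ) + k) ≠ 0 := by
    intro hd
    have hd' : (Real.pi : ℂ) * Complex.cos (Real.pi * (((a : ℂ) + k) - a)) = 0 := by
      rw [← m1_deriv_sin a]; exact hd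
    have hpi : (Real.pi : ℂ) ≠ 0 := by exact_mod_cast Real.pi_ne_zero
    have hcos := (mul_eq_zero.1 hd').resolve_left hpi
    have hsin : Complex.sin (Real.pi * (((a : ℂ) + k) - a)) = 0 := hzero
    have := Complex.sin_sq_add_cos_sq (Real.pi * (((a : ℂ) + k) - a))
    rw [hsin, hcos] at this
    norm_num at this
  exact AnalyticAt.analyticOrderAt_eq_one_of_zero_deriv_ne_zero
    ((m2_diff a).analyticAt _) hzero hderiv

theorem m2_ne_zero (a b : ℝ) (hab : ∀ k : ℤ, b - a ≠ k) (k : ℤ) : m2s a ((b : ℂ) + k) ≠ 0 := by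
  intro h
  obtain ⟨m, hm⟩ := m1_sin_zero a _ h
  apply hab (m - k)
  have h2 := congrArg Complex.re hm
  simp at h2
  push_cast
  linarith

/-- division by a power of the sine -/
theorem m2_div_pow (a : ℝ) (n : ℕ) (g : ℂ → ℂ) (hg : Differentiable ℂ g)
    (hord : ∀ k : ℤ, (n : ℕ∞) ≤ analyticOrderAt g ((a : ℂ) + k)) :
    ∃ h : ℂ → ℂ, Differentiable ℂ h ∧ ∀ t, g t = m2s a t ^ n * h t := by
  induction n generalizing g with
  | zero => exact ⟨g, hg, fun t => by simp⟩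
  | succ n ih =>
    have hz : ∀ k : ℤ, g (a + k) = 0 := by
      intro k
      apply apply_eq_zero_of_analyticOrderAt_ne_zero
      intro h0
      have := hord k
      rw [h0] at this
      simp at this
    obtain ⟨h₁, hh₁, hgh⟩ := div_sin g hg a hz
    have hgh' : g = m2s a * h₁ := by
      funext t; exact hgh t
    have hord₁ : ∀ k : ℤ, (n : ℕ∞) ≤ analyticOrderAt h₁ ((a : ℂ) + k) := by
      intro k
      have h1 := hord k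
      rw [hgh', analyticOrderAt_mul ((m2_diff a).analyticAt _) (hh₁.analyticAt _),
        m2_order_one a k, Nat.cast_succ, add_comm (1 : ℕ∞)] at h1
      exact (ENat.add_le_add_iff_right (by simp)).1 h1
    obtain ⟨h, hh, hhh⟩ := ih h₁ hh₁ hord₁
    refine ⟨h, hh, fun t => ?_⟩
    rw [hgh t, hhh t, pow_succ]
    change m2s a t * _ = _
    ring

theorem m2_finset (q S : ℕ) (pts : Fin q → ℝ) (hpts : ∀ i j, i ≠ j → ∀ k : ℤ, pts i - pts j ≠ k)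
    (g : ℂ → ℂ) (hg : Differentiable ℂ g)
    (hord : ∀ j (k : ℤ), (S : ℕ∞) ≤ analyticOrderAt g ((pts j : ℂ) + k)) (s : Finset (Fin q)) :
    ∃ h : ℂ → ℂ, Differentiable ℂ h ∧ (∀ t, g t = (∏ j ∈ s, m2s (pts j) t ^ S) * h t) ∧
      ∀ j, j ∉ s → ∀ k : ℤ, (S : ℕ∞) ≤ analyticOrderAt h ((pts j : ℂ) + k) := by
  induction s using Finset.induction_on with
  | empty => exact ⟨g, hg, fun t => by simp, fun j _ k => hord j k⟩
  | insert j s hj ih =>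
    obtain ⟨h, hh, hgh, hoh⟩ := ih
    obtain ⟨h', hh', hhh'⟩ := m2_div_pow (pts j) S h hh (hoh j hj)
    refine ⟨h', hh', fun t => ?_, fun i hi k => ?_⟩
    · rw [hgh t, hhh' t, Finset.prod_insert hj]
      ring
    · have hij : i ≠ j := fun h => hi (by rw [h]; exact Finset.mem_insert_self _ _)
      have his : i ∉ s := fun h => hi (Finset.mem_insert_of_mem h)
      have h1 := hoh i his k
      have hh'' : h = m2s (pts j) ^ S * h' := by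
        funext t; exact hhh' t
      have h0 : analyticOrderAt (m2s (pts j)) ((pts i : ℂ) + k) = 0 :=
        ((m2_diff (pts j)).analyticAt _).analyticOrderAt_eq_zero.2
          (m2_ne_zero (pts j) (pts i) (hpts i j hij) k)
      rw [hh'', analyticOrderAt_mul (((m2_diff (pts j)).analyticAt _).pow S) (hh'.analyticAt _),
        analyticOrderAt_pow ((m2_diff (pts j)).analyticAt _), h0, smul_zero, zero_add] at h1
      exact h1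

theorem m2_order_shift (g : ℂ → ℂ) (hper : ∀ t, g (t + 1) = g t) (z : ℂ) (k : ℤ)
    (hg : Differentiable ℂ g) :
    analyticOrderAt g (z + k) = analyticOrderAt g z := by
  have hperk : ∀ t, g (t + k) = g t := by
    have hp : Function.Periodic g 1 := hper
    intro t
    have := (hp.int_mul k) t
    simpa using this
  have h1 : analyticOrderAt (g ∘ fun t => t + (k : ℂ)) z = analyticOrderAt g (z + k) := by
    have hd : deriv (fun t : ℂ => t + (k : ℂ)) z ≠ 0 := by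
      simp
    exact analyticOrderAt_comp_of_deriv_ne_zero (g := fun t : ℂ => t + (k : ℂ)) (by fun_prop) hd
  rw [← h1]
  congr 1
  funext t
  exact hperk t

theorem m2_norm_shift (a : ℝ) (t : ℂ) : ‖m2s a (t + 1)‖ = ‖m2s a t‖ := by
  unfold m2s
  have : (Real.pi : ℂ) * (t + 1 - a) = Real.pi * (t - a) + Real.pi := by ring
  rw [this, Complex.sin_add_pi, norm_neg]

theorem m2_im_ne_zero (a : ℝ) (t : ℂ) (ht : t.im ≠ 0) : m2s a t ≠ 0 := by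
  intro h
  obtain ⟨k, hk⟩ := m1_sin_zero a t h
  apply ht
  rw [hk]
  simp

/-- M2a. PROOF. Induction on `S` and on the number of points with `div_sin`: if `g = sin(π(·-a)) h` then
`analyticOrderAt g z = analyticOrderAt (sin(π(·-a))) z + analyticOrderAt h z` (`analyticOrderAt_mul`), where the order of the sine is `1` at
`a + ℤ` and `0` elsewhere; and `‖h (t+1)‖ = ‖h t‖` (where the sine is `≠ 0`, then by continuity/density). A convenient form of the induction: on a list of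
points (with repetitions), i.e. for a function `e : points → ℕ` of required orders. -/
theorem div_sin_pow (q S : ℕ) (pts : Fin q → ℝ) (hpts : ∀ i j, i ≠ j → ∀ k : ℤ, pts i - pts j ≠ k) (g : ℂ → ℂ)
    (hg : Differentiable ℂ g) (hper : ∀ t, g (t + 1) = g t)
    (hord : ∀ j, (S : ℕ∞) ≤ analyticOrderAt g (pts j : ℂ)) :
    ∃ h : ℂ → ℂ, Differentiable ℂ h ∧ (∀ t, ‖h (t + 1)‖ = ‖h t‖) ∧
      ∀ t, g t = (∏ j, Complex.sin (Real.pi * (t - pts j)) ^ S) * h t := by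
  obtain ⟨h, hh, hgh, -⟩ := m2_finset q S pts hpts g hg
    (fun j k => by rw [m2_order_shift g hper _ k hg]; exact hord j) Finset.univ
  refine ⟨h, hh, ?_, hgh⟩
  have hdense : Dense {t : ℂ | t.im ≠ 0} := by
    have h1 : Dense ({0}ᶜ : Set ℝ) := dense_compl_singleton (0 : ℝ)
    exact h1.preimage Complex.isOpenMap_im
  have hcont1 : Continuous fun t => ‖h (t + 1)‖ :=
    (hh.continuous.comp (continuous_id.add continuous_const)).norm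
  have hcont2 : Continuous fun t => ‖h t‖ := hh.continuous.norm
  have heq := hcont1.ext_on hdense hcont2 (fun t ht => by
    have hPr : (∏ j, m2s (pts j) t ^ S) ≠ 0 :=
      Finset.prod_ne_zero_iff.2 fun j _ => pow_ne_zero _ (m2_im_ne_zero _ _ ht)
    have hnorm : ‖∏ j, m2s (pts j) (t + 1) ^ S‖ = ‖∏ j, m2s (pts j) t ^ S‖ := by
      rw [norm_prod, norm_prod]
      refine Finset.prod_congr rfl fun j _ => ?_
      rw [norm_pow, norm_pow, m2_norm_shift]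
    have e1 := hgh (t + 1)
    rw [hper t, hgh t] at e1
    have e2 := congrArg norm e1
    rw [norm_mul, norm_mul, hnorm] at e2
    exact (mul_left_cancel₀ (norm_ne_zero_iff.2 hPr) e2).symm)
  exact fun t => congrFun heq t

/-- M2b. PROOF. On `|Im t| = R`: `|h| ≤ B e^{-2RqS}`; by `strip_max` also for `|Im t| ≤ R`; multiply by `|sin|^{qS} ≤ e^{π|Im t|qS}`. -/
theorem schwarz (q S : ℕ) (pts : Fin q → ℝ) (hpts : ∀ i j, i ≠ j → ∀ k : ℤ, pts i - pts j ≠ k) (g : ℂ → ℂ)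
    (hg : Differentiable ℂ g) (hper : ∀ t, g (t + 1) = g t)
    (hord : ∀ j, (S : ℕ∞) ≤ analyticOrderAt g (pts j : ℂ)) (R B : ℝ) (hR : 1 ≤ R)
    (hB : ∀ t : ℂ, |t.im| = R → ‖g t‖ ≤ B) (t : ℂ) (ht : |t.im| ≤ R) :
    ‖g t‖ ≤ B * Real.exp (-((2 * R - Real.pi * |t.im|) * (q * S))) := by
  obtain ⟨h, hh, hhper, hgh⟩ := div_sin_pow q S pts hpts g hg hper hord
  have hlow : ∀ t : ℂ, |t.im| = R →
      Real.exp (2 * R * (q * S)) ≤ ‖∏ j, Complex.sin (Real.pi * (t - pts j)) ^ S‖ := by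
    intro t ht
    rw [norm_prod]
    have h1 : Real.exp (2 * R * (q * S)) = ∏ _j : Fin q, Real.exp (2 * R) ^ S := by
      rw [Finset.prod_const, Finset.card_univ, Fintype.card_fin, ← Real.exp_nat_mul,
        ← Real.exp_nat_mul]
      congr 1; ring
    rw [h1]
    refine Finset.prod_le_prod (fun j _ => by positivity) fun j _ => ?_
    rw [norm_pow]
    exact pow_le_pow_left₀ (Real.exp_pos _).le (sin_lower t (pts j) R hR ht) S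
  have hup : ‖∏ j, Complex.sin (Real.pi * (t - pts j)) ^ S‖ ≤
      Real.exp (Real.pi * |t.im| * (q * S)) := by
    rw [norm_prod]
    have h1 : Real.exp (Real.pi * |t.im| * (q * S)) =
        ∏ _j : Fin q, Real.exp (Real.pi * |t.im|) ^ S := by
      rw [Finset.prod_const, Finset.card_univ, Fintype.card_fin, ← Real.exp_nat_mul,
        ← Real.exp_nat_mul]
      congr 1; ring
    rw [h1]
    refine Finset.prod_le_prod (fun j _ => norm_nonneg _) fun j _ => ?_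
    rw [norm_pow]
    exact pow_le_pow_left₀ (norm_nonneg _) (sin_upper t (pts j)) S
  have hB' : ∀ t : ℂ, |t.im| = R → ‖h t‖ ≤ B * Real.exp (-(2 * R * (q * S))) := by
    intro t ht
    have e1 := hB t ht
    rw [hgh t, norm_mul] at e1
    have e2 : Real.exp (2 * R * (q * S)) * ‖h t‖ ≤ B :=
      (mul_le_mul_of_nonneg_right (hlow t ht) (norm_nonneg _)).trans e1
    rw [Real.exp_neg, ← div_eq_mul_inv, le_div_iff₀ (Real.exp_pos _)]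
    linarith
  have hmax := strip_max h hh hhper R _ (by linarith) hB' t ht
  rw [hgh t, norm_mul]
  calc ‖∏ j, Complex.sin (Real.pi * (t - pts j)) ^ S‖ * ‖h t‖
      ≤ Real.exp (Real.pi * |t.im| * (q * S)) * (B * Real.exp (-(2 * R * (q * S)))) :=
        mul_le_mul hup hmax (norm_nonneg _) (Real.exp_pos _).le
    _ = B * (Real.exp (Real.pi * |t.im| * (q * S)) * Real.exp (-(2 * R * (q * S)))) := by ring
    _ = B * Real.exp (-((2 * R - Real.pi * |t.im|) * (q * S))) := by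
        rw [← Real.exp_add]; congr 2; ring

end Pool.Agent.MSP
end

end

section

/-! # V1c: leading terms (MP_f58a57_nt, pairs) -/

open Complex Filter Topology

noncomputable section

namespace Pool.Agent.MSP

/-- V1c. immediate from `dd_leibniz`: all `dd i j F` in the sum vanish. -/
theorem dd_mul_zero (h₁ h₂ : ℂ → ℂ) (F : ℂ → ℂ → ℂ) (t₀ w₀ : ℂ) (h1 : AnalyticAt ℂ h₁ t₀) (h2 : AnalyticAt ℂ h₂ w₀)
    (hF : An2 F t₀ w₀) (k : ℕ) (hk : ∀ i j, i + j < k → dd i j F t₀ w₀ = 0) (r s : ℕ) (hrs : r + s < k) :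
    dd r s (fun t w => h₁ t * h₂ w * F t w) t₀ w₀ = 0 := by
  rw [dd_leibniz h₁ h₂ F t₀ w₀ h1 h2 hF r s]
  refine Finset.sum_eq_zero fun i hi => Finset.sum_eq_zero fun j hj => ?_
  have hi' := Finset.mem_range.1 hi
  have hj' := Finset.mem_range.1 hj
  rw [hk i j (by omega), mul_zero]

/-- V1d. only the term `i = r, j = s` survives. -/
theorem dd_mul_lead (h₁ h₂ : ℂ → ℂ) (F : ℂ → ℂ → ℂ) (t₀ w₀ : ℂ) (h1 : AnalyticAt ℂ h₁ t₀) (h2 : AnalyticAt ℂ h₂ w₀)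
    (hF : An2 F t₀ w₀) (k : ℕ) (hk : ∀ i j, i + j < k → dd i j F t₀ w₀ = 0) (r s : ℕ) (hrs : r + s = k) :
    dd r s (fun t w => h₁ t * h₂ w * F t w) t₀ w₀ = h₁ t₀ * h₂ w₀ * dd r s F t₀ w₀ := by
  rw [dd_leibniz h₁ h₂ F t₀ w₀ h1 h2 hF r s]
  rw [Finset.sum_eq_single r, Finset.sum_eq_single s]
  · simp
  · intro j hj hjs
    have hj' := Finset.mem_range.1 hj
    rw [hk r j (by omega), mul_zero]
  · intro h
    exact absurd (Finset.mem_range.2 (Nat.lt_succ_self s)) h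
  · intro i hi hir
    refine Finset.sum_eq_zero fun j hj => ?_
    have hi' := Finset.mem_range.1 hi
    have hj' := Finset.mem_range.1 hj
    rw [hk i j (by omega), mul_zero]
  · intro h
    exact absurd (Finset.mem_range.2 (Nat.lt_succ_self r)) h

end Pool.Agent.MSP
end

end

section

/-! # V2: derivatives along the diagonal (MP_f58a57_nt, pairs) -/

open Complex Filter Topology

noncomputable section

namespace Pool.Agent.MSP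

variable {G : ℂ → ℂ → ℂ}

theorem v2_swap {H : ℂ → ℂ → ℂ} {t w : ℂ} (h : An2 H t w) : An2 (fun w' t' => H t' w') w t := by
  have h1 : AnalyticAt ℂ (fun p : ℂ × ℂ => H p.1 p.2) ((fun q : ℂ × ℂ => (q.2, q.1)) (w, t)) := h
  have h2 : AnalyticAt ℂ (fun q : ℂ × ℂ => (q.2, q.1)) (w, t) := analyticAt_snd.prod analyticAt_fst
  exact AnalyticAt.comp (f := fun q : ℂ × ℂ => (q.2, q.1)) h1 h2

theorem v2_slice_left {H : ℂ → ℂ → ℂ} {t w : ℂ} (h : An2 H t w) : AnalyticAt ℂ (fun t' => H t' w) t := by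
  have h1 : AnalyticAt ℂ (fun p : ℂ × ℂ => H p.1 p.2) ((fun t' : ℂ => (t', w)) t) := h
  have h2 : AnalyticAt ℂ (fun t' : ℂ => (t', w)) t := analyticAt_id.prod analyticAt_const
  exact AnalyticAt.comp (f := fun t' : ℂ => (t', w)) h1 h2

theorem v2_slice_right {H : ℂ → ℂ → ℂ} {t w : ℂ} (h : An2 H t w) : AnalyticAt ℂ (H t) w :=
  v2_slice_left (v2_swap h)

/-- V2a. PROOF. `(t,w) ↦ dd r s G t w` is analytic everywhere: `∂_t`, `∂_w` are `fderiv` applied to `(1,0)`, `(0,1)`. -/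
theorem an2_dd (hG : ∀ t w, An2 G t w) (r s : ℕ) : ∀ t w, An2 (dd r s G) t w := by
  intro t w
  have h1 : An2 (fun t w => iteratedDeriv s (G t) w) t w := an2_iter G t w (hG t w) s
  have h2 : An2 (fun w' t' => iteratedDeriv s (G t') w') w t := v2_swap h1
  have h3 := an2_iter (fun w' t' => iteratedDeriv s (G t') w') w t h2 r
  exact v2_swap h3

theorem v2_fderiv_left {H : ℂ → ℂ → ℂ} {t w : ℂ} (h : An2 H t w) :
    HasDerivAt (fun t' => H t' w) (fderiv ℂ (fun p : ℂ × ℂ => H p.1 p.2) (t, w) (1, 0)) t := by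
  have h1 : HasFDerivAt (fun p : ℂ × ℂ => H p.1 p.2) (fderiv ℂ (fun p : ℂ × ℂ => H p.1 p.2) (t, w))
      ((fun t' : ℂ => (t', w)) t) := h.differentiableAt.hasFDerivAt
  have h2 : HasDerivAt (fun t' : ℂ => (t', w)) ((1 : ℂ), (0 : ℂ)) t :=
    (hasDerivAt_id t).prodMk (hasDerivAt_const t w)
  exact h1.comp_hasDerivAt t h2

theorem v2_fderiv_right {H : ℂ → ℂ → ℂ} {t w : ℂ} (h : An2 H t w) :
    HasDerivAt (fun w' => H t w') (fderiv ℂ (fun p : ℂ × ℂ => H p.1 p.2) (t, w) (0, 1)) w := by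
  have h1 : HasFDerivAt (fun p : ℂ × ℂ => H p.1 p.2) (fderiv ℂ (fun p : ℂ × ℂ => H p.1 p.2) (t, w))
      ((fun w' : ℂ => (t, w')) w) := h.differentiableAt.hasFDerivAt
  have h2 : HasDerivAt (fun w' : ℂ => (t, w')) ((0 : ℂ), (1 : ℂ)) w :=
    (hasDerivAt_const w t).prodMk (hasDerivAt_id w)
  exact h1.comp_hasDerivAt w h2

private theorem v2_aux {E : Type*} [NormedAddCommGroup E] [NormedSpace ℂ E] {F : E → E →L[ℂ] ℂ}
    {F2 : E →L[ℂ] E →L[ℂ] ℂ} {p : E} (h : HasFDerivAt F F2 p) {g : ℂ → E} {g2 : E} {t : ℂ}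
    (hg : HasDerivAt g g2 t) (hp : g t = p) (v : E) : HasDerivAt (fun s => F (g s) v) (F2 g2 v) t := by
  subst hp
  have h1 : HasDerivAt (fun s => F (g s)) (F2 g2) t := h.comp_hasDerivAt t hg
  exact ((ContinuousLinearMap.apply ℂ ℂ v).hasFDerivAt.comp_hasDerivAt t h1)

theorem v2_symm {H : ℂ → ℂ → ℂ} (h : ∀ t w, An2 H t w) (t w : ℂ) :
    deriv (fun w' => deriv (fun t' => H t' w') t) w = deriv (fun t' => deriv (fun w' => H t' w') w) t := by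
  set f : ℂ × ℂ → ℂ := fun p => H p.1 p.2 with hf
  have hd : ∀ p : ℂ × ℂ, HasFDerivAt f (fderiv ℂ f p) p := fun p =>
    (h p.1 p.2).differentiableAt.hasFDerivAt
  have hd2 : HasFDerivAt (fderiv ℂ f) (fderiv ℂ (fderiv ℂ f) (t, w)) (t, w) :=
    ((h t w).fderiv).differentiableAt.hasFDerivAt
  have hs := second_derivative_symmetric hd hd2 (0, 1) (1, 0)
  have e1 : (fun w' => deriv (fun t' => H t' w') t) = fun w' => fderiv ℂ f (t, w') (1, 0) := by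
    funext w'
    exact (v2_fderiv_left (h t w')).deriv
  have e2 : (fun t' => deriv (fun w' => H t' w') w) = fun t' => fderiv ℂ f (t', w) (0, 1) := by
    funext t'
    exact (v2_fderiv_right (h t' w)).deriv
  rw [e1, e2]
  have h2 : HasDerivAt (fun w' : ℂ => (t, w')) ((0 : ℂ), (1 : ℂ)) w :=
    (hasDerivAt_const w t).prodMk (hasDerivAt_id w)
  have h3 : HasDerivAt (fun t' : ℂ => (t', w)) ((1 : ℂ), (0 : ℂ)) t :=
    (hasDerivAt_id t).prodMk (hasDerivAt_const t w)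
  rw [(v2_aux hd2 h2 rfl (1, 0)).deriv, (v2_aux hd2 h3 rfl (0, 1)).deriv]
  exact hs

theorem v2_comm (r : ℕ) : ∀ (H : ℂ → ℂ → ℂ), (∀ t w, An2 H t w) → ∀ t w : ℂ,
    deriv (fun w' => iteratedDeriv r (fun t' => H t' w') t) w = iteratedDeriv r (fun t' => deriv (H t') w) t := by
  induction r with
  | zero =>
    intro H h t w
    simp only [iteratedDeriv_zero]
  | succ r ih =>
    intro H h t w
    have hD1 : ∀ t w, An2 (fun t w => deriv (fun t' => H t' w) t) t w := by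
      intro t w
      have h3 := an2_iter (fun w' t' => H t' w') w t (v2_swap (h t w)) 1
      have h4 := v2_swap h3
      simpa only [iteratedDeriv_one] using h4
    have key := ih (fun t w => deriv (fun t' => H t' w) t) hD1 t w
    have e1 : (fun w' => iteratedDeriv (r + 1) (fun t' => H t' w') t) =
        fun w' => iteratedDeriv r (fun t' => deriv (fun t'' => H t'' w') t') t := by
      funext w'
      rw [iteratedDeriv_succ']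
    rw [e1]
    have e2 : iteratedDeriv (r + 1) (fun t' => deriv (H t') w) t =
        iteratedDeriv r (fun t' => deriv (fun t'' => deriv (H t'') w) t') t := by
      rw [iteratedDeriv_succ']
    rw [e2]
    have e3 : (fun t' => deriv (fun t'' => deriv (H t'') w) t') =
        fun t' => deriv ((fun t w => deriv (fun t' => H t' w) t) t') w := by
      funext t'
      exact (v2_symm h t' w).symm
    rw [e3]
    exact key

/-- V2b. `∂_t dd r s G = dd (r+1) s G` (definition: `iteratedDeriv_succ`) and `∂_w dd r s G = dd r (s+1) G` (symmetry of second derivatives of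
analytic functions: `∂_w ∂_t = ∂_t ∂_w`, induction on `r`; `second_derivative_symmetric` or `ContDiffAt.isSymmSndFDerivAt`). -/
theorem deriv_dd_left (hG : ∀ t w, An2 G t w) (r s : ℕ) (t w : ℂ) :
    HasDerivAt (fun t' => dd r s G t' w) (dd (r + 1) s G t w) t := by
  have h1 := (v2_slice_left (an2_dd hG r s t w)).differentiableAt.hasDerivAt
  have e : dd (r + 1) s G t w = deriv (fun t' => dd r s G t' w) t := by
    unfold dd
    rw [iteratedDeriv_succ]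
  rw [e]
  exact h1

theorem deriv_dd_right (hG : ∀ t w, An2 G t w) (r s : ℕ) (t w : ℂ) :
    HasDerivAt (fun w' => dd r s G t w') (dd r (s + 1) G t w) w := by
  have h1 := (v2_slice_right (an2_dd hG r s t w)).differentiableAt.hasDerivAt
  have e : dd r (s + 1) G t w = deriv (dd r s G t) w := by
    have h2 := v2_comm r (fun t w => iteratedDeriv s (G t) w) (fun t w => an2_iter G t w (hG t w) s) t w
    unfold dd
    have e3 : (fun t' => iteratedDeriv (s + 1) (G t') w) = fun t' => deriv ((fun t w => iteratedDeriv s (G t) w) t') w := by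
      funext t'
      rw [iteratedDeriv_succ]
    rw [e3]
    exact h2.symm
  rw [e]
  exact h1

/-- V2c. chain rule along the diagonal. -/
theorem deriv_dd_diag (hG : ∀ t w, An2 G t w) (r s : ℕ) (t : ℂ) :
    HasDerivAt (fun t' => dd r s G t' t') (dd (r + 1) s G t t + dd r (s + 1) G t t) t := by
  have ha := an2_dd hG r s t t
  have h1 : HasFDerivAt (fun p : ℂ × ℂ => dd r s G p.1 p.2) (fderiv ℂ (fun p : ℂ × ℂ => dd r s G p.1 p.2) (t, t))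
      ((fun t' : ℂ => (t', t')) t) := ha.differentiableAt.hasFDerivAt
  have h2 : HasDerivAt (fun t' : ℂ => (t', t')) ((1 : ℂ), (1 : ℂ)) t :=
    (hasDerivAt_id t).prodMk (hasDerivAt_id t)
  have h3 := HasFDerivAt.comp_hasDerivAt (f := fun t' : ℂ => (t', t')) t h1 h2
  have e1 := (v2_fderiv_left ha).unique (deriv_dd_left hG r s t t)
  have e2 := (v2_fderiv_right ha).unique (deriv_dd_right hG r s t t)
  rw [← e1, ← e2, ← map_add]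
  have e3 : ((1 : ℂ), (0 : ℂ)) + ((0 : ℂ), (1 : ℂ)) = ((1 : ℂ), (1 : ℂ)) := by
    simp
  rw [e3]
  exact h3

end Pool.Agent.MSP
end

end

section

/-! # V3: Taylor coefficients along the diagonal (MP_f58a57_nt, pairs) -/

open Complex Filter Topology

noncomputable section

namespace Pool.Agent.MSP

variable {G : ℂ → ℂ → ℂ}

theorem v3_pascal (a : ℕ → ℂ) (i : ℕ) :
    ∑ l ∈ Finset.range (i + 1), (i.choose l : ℂ) * (a (l + 1) + a l) =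
      ∑ l ∈ Finset.range (i + 1 + 1), ((i + 1).choose l : ℂ) * a l := by
  rw [Finset.sum_range_succ' (fun l => ((i + 1).choose l : ℂ) * a l) (i + 1)]
  have h1 : ∀ l ∈ Finset.range (i + 1), (((i + 1).choose (l + 1) : ℕ) : ℂ) * a (l + 1)
      = (i.choose l : ℂ) * a (l + 1) + (i.choose (l + 1) : ℂ) * a (l + 1) := by
    intro l _
    rw [Nat.choose_succ_succ]
    push_cast
    ring
  rw [Finset.sum_congr rfl h1, Finset.sum_add_distrib]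
  have h2 : ∑ l ∈ Finset.range (i + 1), (i.choose (l + 1) : ℂ) * a (l + 1) + ((i + 1).choose 0 : ℂ) * a 0
      = ∑ l ∈ Finset.range (i + 1), (i.choose l : ℂ) * a l := by
    have h3 := Finset.sum_range_succ' (fun l => (i.choose l : ℂ) * a l) (i + 1)
    have h4 := Finset.sum_range_succ (fun l => (i.choose l : ℂ) * a l) (i + 1)
    rw [Nat.choose_eq_zero_of_lt (Nat.lt_succ_self i)] at h4
    simp only [Nat.choose_zero_right, Nat.cast_zero, zero_mul, add_zero] at h3 h4 ⊢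
    rw [← h4, h3]
  rw [add_assoc, h2, ← Finset.sum_add_distrib]
  refine Finset.sum_congr rfl fun l _ => ?_
  ring

theorem gm_eq (m : ℕ) (t : ℂ) : gm G m t = dd 0 m G t t / (m.factorial : ℂ) := by
  unfold gm dd
  rw [iteratedDeriv_zero]

/-- V3a. -/
theorem gm_differentiable (hG : ∀ t w, An2 G t w) (m : ℕ) : Differentiable ℂ (gm G m) := by
  intro t
  have h1 : gm G m = fun t => dd 0 m G t t / (m.factorial : ℂ) := by
    funext t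
    exact gm_eq m t
  rw [h1]
  exact (deriv_dd_diag hG 0 m t).differentiableAt.div_const _

/-- V3b. PROOF. Induction on `i` from V2c (Pascal's rule). -/
theorem iteratedDeriv_diag (hG : ∀ t w, An2 G t w) (i r m : ℕ) (t : ℂ) :
    iteratedDeriv i (fun t' => dd r m G t' t') t =
      ∑ l ∈ Finset.range (i + 1), (i.choose l : ℂ) * dd (r + l) (m + i - l) G t t := by
  induction i generalizing t with
  | zero => simp
  | succ i ih =>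
    rw [iteratedDeriv_succ]
    have h1 : iteratedDeriv i (fun t' => dd r m G t' t') = fun t =>
        ∑ l ∈ Finset.range (i + 1), (i.choose l : ℂ) * dd (r + l) (m + i - l) G t t := by
      funext t
      exact ih t
    rw [h1]
    have h2 : HasDerivAt (fun t => ∑ l ∈ Finset.range (i + 1), (i.choose l : ℂ) * dd (r + l) (m + i - l) G t t)
        (∑ l ∈ Finset.range (i + 1), (i.choose l : ℂ) *
          (dd (r + l + 1) (m + i - l) G t t + dd (r + l) (m + i - l + 1) G t t)) t := by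
      refine HasDerivAt.fun_sum fun l _ => ?_
      exact (deriv_dd_diag hG (r + l) (m + i - l) t).const_mul _
    rw [h2.deriv, ← v3_pascal (fun l => dd (r + l) (m + (i + 1) - l) G t t) i]
    refine Finset.sum_congr rfl fun l hl => ?_
    rw [Finset.mem_range] at hl
    have e1 : m + (i + 1) - (l + 1) = m + i - l := by omega
    have e2 : m + (i + 1) - l = m + i - l + 1 := by omega
    rw [e1, e2, ← add_assoc]

theorem v3_hasDerivAt (hG : ∀ t w, An2 G t w) (i r m : ℕ) (t : ℂ) :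
    HasDerivAt (iteratedDeriv i (fun t' => dd r m G t' t')) (iteratedDeriv (i + 1) (fun t' => dd r m G t' t') t) t := by
  have h1 : iteratedDeriv i (fun t' => dd r m G t' t') = fun t =>
        ∑ l ∈ Finset.range (i + 1), (i.choose l : ℂ) * dd (r + l) (m + i - l) G t t := by
    funext t
    exact iteratedDeriv_diag hG i r m t
  rw [iteratedDeriv_succ]
  have h2 : DifferentiableAt ℂ (iteratedDeriv i (fun t' => dd r m G t' t')) t := by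
    rw [h1]
    refine DifferentiableAt.fun_sum fun l _ => ?_
    exact (deriv_dd_diag hG (r + l) (m + i - l) t).differentiableAt.const_mul _
  exact h2.hasDerivAt

/-- V3c. PROOF. Induction on `r`: `dd (r+1) s G t t = (d/dt)[dd r s G t t] - dd r (s+1) G t t` (V2c) and Pascal's rule. -/
theorem dd_eq_sum (hG : ∀ t w, An2 G t w) (r s : ℕ) (t : ℂ) :
    dd r s G t t = ∑ l ∈ Finset.range (r + 1), (r.choose l : ℂ) * (-1) ^ (r - l) *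
      iteratedDeriv l (fun t' => dd 0 (s + r - l) G t' t') t := by
  induction r generalizing s t with
  | zero => simp
  | succ r ih =>
    have h1 : (fun t => dd r s G t t) = fun t => ∑ l ∈ Finset.range (r + 1), (r.choose l : ℂ) * (-1) ^ (r - l) *
      iteratedDeriv l (fun t' => dd 0 (s + r - l) G t' t') t := by
      funext t
      exact ih s t
    have h2 := deriv_dd_diag hG r s t
    rw [h1] at h2
    have h3 : HasDerivAt (fun t => ∑ l ∈ Finset.range (r + 1), (r.choose l : ℂ) * (-1) ^ (r - l) *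
      iteratedDeriv l (fun t' => dd 0 (s + r - l) G t' t') t)
      (∑ l ∈ Finset.range (r + 1), (r.choose l : ℂ) * (-1) ^ (r - l) *
      iteratedDeriv (l + 1) (fun t' => dd 0 (s + r - l) G t' t') t) t := by
      refine HasDerivAt.fun_sum fun l _ => ?_
      exact (v3_hasDerivAt hG l 0 (s + r - l) t).const_mul _
    have h4 := h2.unique h3
    have h5 := ih (s + 1) t
    have h6 : dd (r + 1) s G t t = ∑ l ∈ Finset.range (r + 1), (r.choose l : ℂ) * (-1) ^ (r - l) *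
      iteratedDeriv (l + 1) (fun t' => dd 0 (s + r - l) G t' t') t -
      ∑ l ∈ Finset.range (r + 1), (r.choose l : ℂ) * (-1) ^ (r - l) *
      iteratedDeriv l (fun t' => dd 0 (s + 1 + r - l) G t' t') t := by
      rw [← h4, ← h5]
      ring
    have h7 := v3_pascal (fun l => (-1) ^ (r + 1 - l) * iteratedDeriv l (fun t' => dd 0 (s + (r + 1) - l) G t' t') t) r
    have h8 : ∑ l ∈ Finset.range (r + 1 + 1), ((r + 1).choose l : ℂ) * (-1) ^ (r + 1 - l) *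
      iteratedDeriv l (fun t' => dd 0 (s + (r + 1) - l) G t' t') t = ∑ l ∈ Finset.range (r + 1 + 1), ((r + 1).choose l : ℂ) * ((-1) ^ (r + 1 - l) *
      iteratedDeriv l (fun t' => dd 0 (s + (r + 1) - l) G t' t') t) := by
      refine Finset.sum_congr rfl fun l _ => ?_
      ring
    rw [h8, ← h7, h6, ← Finset.sum_sub_distrib]
    refine Finset.sum_congr rfl fun l hl => ?_
    rw [Finset.mem_range] at hl
    have e1 : r + 1 - (l + 1) = r - l := by omega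
    have e2 : s + (r + 1) - (l + 1) = s + r - l := by omega
    have e3 : s + 1 + r - l = s + (r + 1) - l := by omega
    have e4 : r + 1 - l = r - l + 1 := by omega
    rw [e1, e2, e3, e4, pow_succ]
    ring

/-- V3d. PROOF. By V3b all derivatives of `gm G m` of order `< T - m` vanish at `t₀`; `gm G m` is analytic;
`natCast_le_analyticOrderAt_iff_iteratedDeriv_eq_zero` or similar. -/
theorem order_gm (hG : ∀ t w, An2 G t w) (t₀ : ℂ) (T : ℕ) (h : ∀ r s, r + s < T → dd r s G t₀ t₀ = 0) (m : ℕ) :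
    ((T - m : ℕ) : ℕ∞) ≤ analyticOrderAt (gm G m) t₀ := by
  rw [natCast_le_analyticOrderAt_iff_iteratedDeriv_eq_zero ((gm_differentiable hG m).analyticAt t₀)]
  intro i hi
  have h1 : gm G m = fun t => ((m.factorial : ℂ)⁻¹) * (dd 0 m G t t) := by
    funext t
    rw [gm_eq, div_eq_inv_mul]
  rw [h1, iteratedDeriv_const_mul_field, iteratedDeriv_diag hG]
  rw [Finset.sum_eq_zero, mul_zero]
  intro l hl
  rw [Finset.mem_range] at hl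
  rw [h _ _ (by omega), mul_zero]

/-- V3e. Taylor series of the entire function `z ↦ G t (t + z)`. -/
theorem hasSum_gm (hG : ∀ t w, An2 G t w) (t z : ℂ) : HasSum (fun m => gm G m t * z ^ m) (G t (t + z)) := by
  have h1 : Differentiable ℂ (G t) := by
    intro w
    have h2 : AnalyticAt ℂ (fun p : ℂ × ℂ => G p.1 p.2) (t, w) := hG t w
    have h3 : DifferentiableAt ℂ (fun w' : ℂ => ((t, w') : ℂ × ℂ)) w :=
      (differentiableAt_const t).prodMk differentiableAt_id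
    exact DifferentiableAt.comp (g := fun p : ℂ × ℂ => G p.1 p.2) w h2.differentiableAt h3
  have h2 := Complex.hasSum_taylorSeries_of_entire h1 t (t + z)
  have h3 : (fun m => ((m.factorial : ℂ))⁻¹ • (t + z - t) ^ m • iteratedDeriv m (G t) t) = fun m => gm G m t * z ^ m := by
    funext m
    rw [add_sub_cancel_left, smul_eq_mul, smul_eq_mul, gm, div_eq_mul_inv]
    ring
  rw [h3] at h2
  exact h2

end Pool.Agent.MSP
end

end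

section

/-! # G1: the functions `Gs` are entire; behaviour under translations (MP_f58a57_nt, pairs) -/

open Complex Filter Topology

noncomputable section

namespace Pool.Agent.MSP

theorem g1_N0 (c : Cv) (t : ℂ) : AnalyticAt ℂ (N0 c.τ) t := (th_differentiable c.τ c.im).analyticAt t

theorem g1_N1 (c : Cv) (t : ℂ) : AnalyticAt ℂ (N1 c.τ) t := ((th_differentiable c.τ c.im).analyticAt t).deriv

theorem g1_N2 (c : Cv) (t : ℂ) : AnalyticAt ℂ (N2 c.τ c.s) t := by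
  have h0 := (th_differentiable c.τ c.im).analyticAt t
  have h1 := h0.deriv
  have h2 := h1.deriv
  exact ((h1.pow 2).sub (h0.mul h2)).sub (analyticAt_const.mul (h0.pow 2))

theorem g1_mon (c₁ c₂ : Cv) (P : Pr) (k : Fin 3 → ℂ) (ν : ℕ × ℕ × ℕ × ℕ × ℕ) (t w : ℂ) :
    AnalyticAt ℂ (fun p : ℂ × ℂ => Gmon c₁ c₂ P k ν p.1 p.2) (t, w) := by
  have a0 : AnalyticAt ℂ (fun p : ℂ × ℂ => N0 c₁.τ p.1) (t, w) := (g1_N0 c₁ t).comp_of_eq analyticAt_fst rfl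
  have a1 : AnalyticAt ℂ (fun p : ℂ × ℂ => N1 c₁.τ p.1) (t, w) := (g1_N1 c₁ t).comp_of_eq analyticAt_fst rfl
  have a2 : AnalyticAt ℂ (fun p : ℂ × ℂ => N2 c₁.τ c₁.s p.1) (t, w) := (g1_N2 c₁ t).comp_of_eq analyticAt_fst rfl
  have b0 : AnalyticAt ℂ (fun p : ℂ × ℂ => N0 c₂.τ p.2) (t, w) := (g1_N0 c₂ w).comp_of_eq analyticAt_snd rfl
  have b1 : AnalyticAt ℂ (fun p : ℂ × ℂ => N1 c₂.τ p.2) (t, w) := (g1_N1 c₂ w).comp_of_eq analyticAt_snd rfl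
  have b2 : AnalyticAt ℂ (fun p : ℂ × ℂ => N2 c₂.τ c₂.s p.2) (t, w) := (g1_N2 c₂ w).comp_of_eq analyticAt_snd rfl
  have hn : AnalyticAt ℂ (fun p : ℂ × ℂ => N0 c₁.τ p.1 * N0 c₂.τ p.2) (t, w) := a0.mul b0
  have hd : AnalyticAt ℂ (fun p : ℂ × ℂ => p.2 - p.1) (t, w) := analyticAt_snd.sub analyticAt_fst
  have z1 : AnalyticAt ℂ (fun p : ℂ × ℂ => Z1 c₁ c₂ p.1 p.2) (t, w) := by
    unfold Z1
    exact (a1.mul b0).neg.div_const
  have z2 : AnalyticAt ℂ (fun p : ℂ × ℂ => Z2 c₁ c₂ p.1 p.2) (t, w) := by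
    unfold Z2
    exact (a0.mul b1).neg.div_const
  have z3 : AnalyticAt ℂ (fun p : ℂ × ℂ => Z3 c₁ c₂ p.1 p.2) (t, w) := by
    unfold Z3
    exact ((hd.mul hn).sub (analyticAt_const.mul z2)).add (analyticAt_const.mul z1)
  unfold Gmon
  refine ((((a2.pow _).mul (a0.pow _)).mul ((b2.pow _).mul (b0.pow _))).mul ((((z3.add (analyticAt_const.mul hn)).pow _).mul
    ((((analyticAt_const.mul z1).sub (analyticAt_const.mul z2)).add (analyticAt_const.mul hn)).pow _)).mul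
    ((((analyticAt_const.mul z1).add (analyticAt_const.mul z2)).add (analyticAt_const.mul hn)).pow _))).mul (hn.pow _)

/-- G1a. PROOF. `th` is differentiable on `ℂ` (T1), hence analytic, and so are its derivatives (`Differentiable.analyticAt`,
`AnalyticAt.deriv`); compose with `Prod.fst`, `Prod.snd` and use sums, products, powers of analytic functions (`fun_prop` helps). -/
theorem Gs_an2 (c₁ c₂ : Cv) (P : Pr) (k : Fin 3 → ℂ) (coef : ℕ × ℕ × ℕ × ℕ × ℕ → ℂ) (t w : ℂ) :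
    An2 (Gs c₁ c₂ P k coef) t w := by
  unfold An2 Gs
  exact Finset.analyticAt_fun_sum _ fun ν _ => analyticAt_const.mul (g1_mon c₁ c₂ P k ν t w)

theorem GG_an2 (c₁ c₂ : Cv) (P : Pr) (coef : ℕ × ℕ × ℕ × ℕ × ℕ → ℂ) (t w : ℂ) : An2 (GG c₁ c₂ P coef) t w :=
  Gs_an2 c₁ c₂ P 0 coef t w

theorem g1_Z1 (c₁ c₂ : Cv) (m₁ n₁ m₂ n₂ : ℤ) (t w : ℂ) :
    Z1 c₁ c₂ (t + m₁ + n₁ * c₁.τ) (w + m₂ + n₂ * c₂.τ) =
      (au c₁.τ m₁ n₁ t * au c₂.τ m₂ n₂ w) * (Z1 c₁ c₂ t w + n₁ * (N0 c₁.τ t * N0 c₂.τ w)) := by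
  have hpi : (2 * Real.pi * I : ℂ) ≠ 0 := by
    have : (Real.pi : ℂ) ≠ 0 := by exact_mod_cast Real.pi_ne_zero
    simp [this]
  unfold Z1
  rw [N1_shift _ c₁.im, N0_shift _ c₂.im]
  field_simp
  ring

theorem g1_Z2 (c₁ c₂ : Cv) (m₁ n₁ m₂ n₂ : ℤ) (t w : ℂ) :
    Z2 c₁ c₂ (t + m₁ + n₁ * c₁.τ) (w + m₂ + n₂ * c₂.τ) =
      (au c₁.τ m₁ n₁ t * au c₂.τ m₂ n₂ w) * (Z2 c₁ c₂ t w + n₂ * (N0 c₁.τ t * N0 c₂.τ w)) := by
  have hpi : (2 * Real.pi * I : ℂ) ≠ 0 := by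
    have : (Real.pi : ℂ) ≠ 0 := by exact_mod_cast Real.pi_ne_zero
    simp [this]
  unfold Z2
  rw [N1_shift _ c₂.im, N0_shift _ c₁.im]
  field_simp
  ring

theorem g1_Z3 (c₁ c₂ : Cv) (m₁ n₁ m₂ n₂ : ℤ) (t w : ℂ) :
    Z3 c₁ c₂ (t + m₁ + n₁ * c₁.τ) (w + m₂ + n₂ * c₂.τ) =
      (au c₁.τ m₁ n₁ t * au c₂.τ m₂ n₂ w) * (Z3 c₁ c₂ t w + (m₂ - m₁) * (N0 c₁.τ t * N0 c₂.τ w)) := by
  unfold Z3
  rw [g1_Z1, g1_Z2, N0_shift _ c₁.im, N0_shift _ c₂.im]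
  ring

theorem g1_mon_shift (c₁ c₂ : Cv) (P : Pr) (k : Fin 3 → ℂ) (ν : ℕ × ℕ × ℕ × ℕ × ℕ) (hν : ν ∈ P.box) (m₁ n₁ m₂ n₂ : ℤ) (t w : ℂ) :
    Gmon c₁ c₂ P k ν (t + m₁ + n₁ * c₁.τ) (w + m₂ + n₂ * c₂.τ) =
      (au c₁.τ m₁ n₁ t * au c₂.τ m₂ n₂ w) ^ P.M *
        Gmon c₁ c₂ P (k + ![(m₂ : ℂ) - m₁, P.b₂ * n₁ - P.b₁ * n₂, P.a₁ * n₁ + P.a₂ * n₂]) ν t w := by
  obtain ⟨a, b, x, y, z⟩ := ν
  simp only [Pr.box, Finset.mem_product, Finset.mem_range] at hν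
  obtain ⟨ha, hb, hx, hy, hz⟩ := hν
  obtain ⟨a', ha'⟩ : ∃ a', P.L = a + a' := ⟨P.L - a, by omega⟩
  obtain ⟨b', hb'⟩ : ∃ b', P.L = b + b' := ⟨P.L - b, by omega⟩
  obtain ⟨l', hl'⟩ : ∃ l', P.l = x + y + z + l' := ⟨P.l - (x + y + z), by unfold Pr.l; omega⟩
  have e1 : P.L - a = a' := by omega
  have e2 : P.L - b = b' := by omega
  have e3 : P.l - (x + y + z) = l' := by omega
  have hM : P.M = 2 * P.L + P.l := rfl
  set A := au c₁.τ m₁ n₁ t with hA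
  set B := au c₂.τ m₂ n₂ w with hB
  set U := N0 c₁.τ t * N0 c₂.τ w with hU
  have hN : N0 c₁.τ (t + m₁ + n₁ * c₁.τ) * N0 c₂.τ (w + m₂ + n₂ * c₂.τ) = (A * B) * U := by
    rw [N0_shift _ c₁.im, N0_shift _ c₂.im]
    ring
  unfold Gmon
  simp only [e1, e2, e3]
  rw [hN, g1_Z1, g1_Z2, g1_Z3, ← hA, ← hB, ← hU, N2_shift _ _ c₁.im, N2_shift _ _ c₂.im, N0_shift _ c₁.im, N0_shift _ c₂.im,
    ← hA, ← hB]
  have f0 : (k + ![(m₂ : ℂ) - m₁, P.b₂ * n₁ - P.b₁ * n₂, P.a₁ * n₁ + P.a₂ * n₂]) 0 = k 0 + (m₂ - m₁) := by simp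
  have f1 : (k + ![(m₂ : ℂ) - m₁, P.b₂ * n₁ - P.b₁ * n₂, P.a₁ * n₁ + P.a₂ * n₂]) 1 = k 1 + (P.b₂ * n₁ - P.b₁ * n₂) := by simp
  have f2 : (k + ![(m₂ : ℂ) - m₁, P.b₂ * n₁ - P.b₁ * n₂, P.a₁ * n₁ + P.a₂ * n₂]) 2 = k 2 + (P.a₁ * n₁ + P.a₂ * n₂) := by simp
  rw [f0, f1, f2]
  have g1 : A * B * (Z3 c₁ c₂ t w + (m₂ - m₁) * U) + k 0 * (A * B * U) =
      (A * B) * (Z3 c₁ c₂ t w + (k 0 + (m₂ - m₁)) * U) := by ring
  have g2 : P.b₂ * (A * B * (Z1 c₁ c₂ t w + n₁ * U)) - P.b₁ * (A * B * (Z2 c₁ c₂ t w + n₂ * U)) + k 1 * (A * B * U) =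
      (A * B) * (P.b₂ * Z1 c₁ c₂ t w - P.b₁ * Z2 c₁ c₂ t w + (k 1 + (P.b₂ * n₁ - P.b₁ * n₂)) * U) := by ring
  have g3 : P.a₁ * (A * B * (Z1 c₁ c₂ t w + n₁ * U)) + P.a₂ * (A * B * (Z2 c₁ c₂ t w + n₂ * U)) + k 2 * (A * B * U) =
      (A * B) * (P.a₁ * Z1 c₁ c₂ t w + P.a₂ * Z2 c₁ c₂ t w + (k 2 + (P.a₁ * n₁ + P.a₂ * n₂)) * U) := by ring
  rw [g1, g2, g3]
  simp only [mul_pow]
  have hMA : A ^ P.M = (A ^ 2) ^ a * A ^ (2 * a') * (A ^ x * A ^ y * A ^ z) * A ^ l' := by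
    rw [hM, hl', ha', ← pow_mul, ← pow_add, ← pow_add, ← pow_add, ← pow_add, ← pow_add]
    congr 1
    ring
  have hMB : B ^ P.M = (B ^ 2) ^ b * B ^ (2 * b') * (B ^ x * B ^ y * B ^ z) * B ^ l' := by
    rw [hM, hl', hb', ← pow_mul, ← pow_add, ← pow_add, ← pow_add, ← pow_add, ← pow_add]
    congr 1
    ring
  rw [hMA, hMB]
  generalize (Z3 c₁ c₂ t w + (k 0 + (m₂ - m₁)) * U) ^ x = X1
  generalize (P.b₂ * Z1 c₁ c₂ t w - P.b₁ * Z2 c₁ c₂ t w + (k 1 + (P.b₂ * n₁ - P.b₁ * n₂)) * U) ^ y = X2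
  generalize (P.a₁ * Z1 c₁ c₂ t w + P.a₂ * Z2 c₁ c₂ t w + (k 2 + (P.a₁ * n₁ + P.a₂ * n₂)) * U) ^ z = X3
  ring

/-- G1b. PROOF. By T4: `Z1(t',w') = au₁ au₂ (Z1 + n₁ N0 N0)`, `Z2(t',w') = au₁ au₂ (Z2 + n₂ N0 N0)`,
`Z3(t',w') = au₁ au₂ (Z3 + (m₂ - m₁) N0 N0)` where `t' = t + m₁ + n₁τ₁`, `w' = w + m₂ + n₂τ₂`, `au₁ = au τ₁ m₁ n₁ t`, `au₂ = au τ₂ m₂ n₂ w`. In each
monomial (`ν ∈ P.box`, so `ν.1 ≤ L`, `ν.2.1 ≤ L`, `κ₁+κ₂+κ₃ ≤ l`) the exponents of `au₁` and `au₂` add up to `M = 2L + l`. -/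
theorem Gs_shift (c₁ c₂ : Cv) (P : Pr) (k : Fin 3 → ℂ) (coef : ℕ × ℕ × ℕ × ℕ × ℕ → ℂ) (m₁ n₁ m₂ n₂ : ℤ) (t w : ℂ) :
    Gs c₁ c₂ P k coef (t + m₁ + n₁ * c₁.τ) (w + m₂ + n₂ * c₂.τ) =
      (au c₁.τ m₁ n₁ t * au c₂.τ m₂ n₂ w) ^ P.M *
        Gs c₁ c₂ P (k + ![(m₂ : ℂ) - m₁, P.b₂ * n₁ - P.b₁ * n₂, P.a₁ * n₁ + P.a₂ * n₂]) coef t w := by
  unfold Gs
  rw [Finset.mul_sum]
  refine Finset.sum_congr rfl fun ν hν => ?_
  rw [g1_mon_shift c₁ c₂ P k ν hν]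
  ring

/-- G1c. PROOF. `Gs_shift` with `m₁ = m₂ = 1`, `n₁ = n₂ = 0`; `au τ 1 0 t = -1`. -/
theorem GG_period (c₁ c₂ : Cv) (P : Pr) (coef : ℕ × ℕ × ℕ × ℕ × ℕ → ℂ) (t w : ℂ) :
    GG c₁ c₂ P coef (t + 1) (w + 1) = GG c₁ c₂ P coef t w := by
  have h := Gs_shift c₁ c₂ P 0 coef 1 0 1 0 t w
  have ha : ∀ (τ t : ℂ), au τ 1 0 t = -1 := by
    intro τ t
    unfold au
    simp
  have hk : (0 : Fin 3 → ℂ) + ![((1 : ℤ) : ℂ) - ((1 : ℤ) : ℂ), P.b₂ * ((0 : ℤ) : ℂ) - P.b₁ * ((0 : ℤ) : ℂ),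
      P.a₁ * ((0 : ℤ) : ℂ) + P.a₂ * ((0 : ℤ) : ℂ)] = 0 := by
    funext i
    fin_cases i <;> simp
  rw [hk, ha, ha] at h
  unfold GG
  have h1 : t + ((1 : ℤ) : ℂ) + ((0 : ℤ) : ℂ) * c₁.τ = t + 1 := by push_cast; ring
  have h2 : w + ((1 : ℤ) : ℂ) + ((0 : ℤ) : ℂ) * c₂.τ = w + 1 := by push_cast; ring
  rw [h1, h2] at h
  rw [h]
  norm_num

/-- G1d. PROOF. `gm G m (t+1)`: `GG (t+1) w' = GG t (w' - 1)`, `iteratedDeriv_comp_add_const` or `iteratedDeriv_comp_sub_const`. -/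
theorem gm_period (c₁ c₂ : Cv) (P : Pr) (coef : ℕ × ℕ × ℕ × ℕ × ℕ → ℂ) (m : ℕ) (t : ℂ) :
    gm (GG c₁ c₂ P coef) m (t + 1) = gm (GG c₁ c₂ P coef) m t := by
  unfold gm
  have h : GG c₁ c₂ P coef (t + 1) = fun w => GG c₁ c₂ P coef t (w + (-1)) := by
    funext w
    rw [← GG_period c₁ c₂ P coef t (w + (-1))]
    congr 1
    ring
  rw [h, iteratedDeriv_comp_add_const]
  simp

end Pool.Agent.MSP
end

end

section

/-! # Z5: the values of `wp` cover a disc (MP_f58a57_nt, pairs) -/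

open Complex Filter Topology

noncomputable section

namespace Pool.Agent.MSP

/-- Z5. PROOF. Near `0` the function `u(t) = N0 τ t ^ 2 / N2 τ s t` is analytic (`N2 τ s 0 = (th' 0)² ≠ 0`, T3b, as `th 0 = 0`), `u 0 = 0`, and it is not
constant near `0` (`N0 ≠ 0` on a punctured neighbourhood of `0`, T3a). By the open mapping theorem
(`AnalyticAt.eventually_constant_or_nhds_le_map_nhds`) every `y` with `‖y‖ ≤ δ₁` is `u t` for some `t` in a small disc on which `‖N2‖ ≥ c`, `‖N2‖ ≤ C`. For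
`p = 1 + 1/δ₁ + ...` real and `‖x - p‖ ≤ 1`: `‖1/x‖ ≤ δ₁`, so `x = 1/u(t) = wp τ s t`; and `‖N0 t‖² = ‖N2 t‖/‖x‖ ≥ c/(‖p‖ + 1)`. -/
theorem wp_cover (τ s : ℂ) (hτ : 0 < τ.im) : ∃ (ρ₀ δ : ℝ) (p : ℂ), 0 < ρ₀ ∧ 0 < δ ∧ ∀ x : ℂ, ‖x - p‖ ≤ 1 →
    ∃ t : ℂ, ‖t‖ ≤ ρ₀ ∧ δ ≤ ‖N0 τ t‖ ∧ wp τ s t = x := by
  have hth : AnalyticAt ℂ (th τ) 0 := (th_differentiable τ hτ).analyticAt 0
  have hth0 : th τ 0 = 0 := (th_eq_zero_iff τ hτ 0).mpr ⟨0, 0, by simp⟩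
  have hN0 : AnalyticAt ℂ (N0 τ) 0 := hth
  have hN2 : AnalyticAt ℂ (N2 τ s) 0 := by
    have h1 : AnalyticAt ℂ (deriv (th τ)) 0 := hth.deriv
    have h2 : AnalyticAt ℂ (deriv (deriv (th τ))) 0 := h1.deriv
    exact ((h1.pow 2).sub (hth.mul h2)).sub (analyticAt_const.mul (hth.pow 2))
  have hN20 : N2 τ s 0 ≠ 0 := by
    unfold N2
    rw [hth0]
    have := deriv_th_zero_ne τ hτ
    simpa using this
  have hu : AnalyticAt ℂ (fun t => N0 τ t ^ 2 / N2 τ s t) 0 := (hN0.pow 2).div hN2 hN20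
  have hc0 : 0 < ‖N2 τ s 0‖ := norm_pos_iff.mpr hN20
  -- a neighbourhood on which `N2` is bounded below
  have hev : ∀ᶠ t in 𝓝 (0 : ℂ), ‖N2 τ s 0‖ / 2 < ‖N2 τ s t‖ := by
    have hcont : ContinuousAt (fun t => ‖N2 τ s t‖) 0 := hN2.continuousAt.norm
    exact hcont.eventually (lt_mem_nhds (by linarith))
  obtain ⟨r, hr, hball⟩ := Metric.eventually_nhds_iff_ball.mp hev
  rcases hu.eventually_constant_or_nhds_le_map_nhds with hconst | hopen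
  · exfalso
    obtain ⟨r', hr', hball'⟩ := Metric.eventually_nhds_iff_ball.mp hconst
    set x : ℝ := min (min r r') 1 / 2 with hx
    have hx0 : 0 < x := by
      rw [hx]
      have : 0 < min (min r r') 1 := lt_min (lt_min hr hr') one_pos
      linarith
    have hx1 : x < 1 := by
      rw [hx]
      have : min (min r r') 1 ≤ 1 := min_le_right _ _
      linarith
    have hxr : x < r := by
      rw [hx]
      have h1 : min (min r r') 1 ≤ r := (min_le_left _ _).trans (min_le_left _ _)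
      have : 0 < min (min r r') 1 := lt_min (lt_min hr hr') one_pos
      linarith
    have hxr' : x < r' := by
      rw [hx]
      have h1 : min (min r r') 1 ≤ r' := (min_le_left _ _).trans (min_le_right _ _)
      have : 0 < min (min r r') 1 := lt_min (lt_min hr hr') one_pos
      linarith
    have hxm : ∀ m : ℤ, x ≠ m := by
      intro m hm
      rw [hm] at hx0 hx1
      have h1 : (0 : ℤ) < m := by exact_mod_cast hx0
      have h2 : m < 1 := by exact_mod_cast hx1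
      omega
    have hne := th_real_ne τ hτ x hxm
    have hnorm : ‖(x : ℂ)‖ = x := by
      rw [Complex.norm_real, Real.norm_eq_abs, abs_of_pos hx0]
    have hmem : (x : ℂ) ∈ Metric.ball (0 : ℂ) r := by
      rw [mem_ball_zero_iff, hnorm]; exact hxr
    have hmem' : (x : ℂ) ∈ Metric.ball (0 : ℂ) r' := by
      rw [mem_ball_zero_iff, hnorm]; exact hxr'
    have h1 := hball' _ hmem'
    have h2 := hball _ hmem
    have h3 : N2 τ s x ≠ 0 := by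
      intro h
      rw [h, norm_zero] at h2
      linarith
    have h4 : N0 τ (0 : ℂ) = 0 := hth0
    simp only [h4] at h1
    rw [div_eq_iff h3] at h1
    simp at h1
    exact hne h1
  · have hV : (fun t => N0 τ t ^ 2 / N2 τ s t) '' Metric.ball (0 : ℂ) r ∈ 𝓝 ((fun t => N0 τ t ^ 2 / N2 τ s t) 0) := by
      apply hopen
      exact Filter.image_mem_map (Metric.ball_mem_nhds _ hr)
    have h4 : N0 τ (0 : ℂ) = 0 := hth0
    have hu0 : (fun t => N0 τ t ^ 2 / N2 τ s t) 0 = 0 := by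
      simp [h4]
    rw [hu0] at hV
    obtain ⟨δ₁, hδ₁, hsub⟩ := Metric.mem_nhds_iff.mp hV
    set p : ℝ := 2 + 1 / δ₁ with hp
    have hp0 : 0 < p := by positivity
    have hnp : ‖(p : ℂ)‖ = p := by
      rw [Complex.norm_real, Real.norm_eq_abs, abs_of_pos hp0]
    refine ⟨r, Real.sqrt (‖N2 τ s 0‖ / 2 / (p + 1)), (p : ℂ), hr, Real.sqrt_pos.mpr (by positivity), ?_⟩
    intro x hx
    have hx1 : p - 1 ≤ ‖x‖ := by
      have h5 : ‖(p : ℂ)‖ ≤ ‖x‖ + ‖x - p‖ := by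
        have := norm_sub_le x (x - p)
        simpa using this
      rw [hnp] at h5
      linarith
    have hx2 : ‖x‖ ≤ p + 1 := by
      have h5 : ‖x‖ ≤ ‖x - p‖ + ‖(p : ℂ)‖ := by
        have := norm_add_le (x - p) (p : ℂ)
        simpa using this
      rw [hnp] at h5
      linarith
    have hxpos : 0 < ‖x‖ := by
      have : 0 < 1 / δ₁ := by positivity
      linarith
    have hxne : x ≠ 0 := norm_pos_iff.mp hxpos
    have hmem : x⁻¹ ∈ Metric.ball (0 : ℂ) δ₁ := by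
      rw [mem_ball_zero_iff, norm_inv]
      have h6 : 1 / δ₁ < ‖x‖ := by linarith
      rw [inv_lt_comm₀ hxpos hδ₁]
      simpa using h6
    obtain ⟨t, ht, htx⟩ := hsub hmem
    have ht' : ‖t‖ < r := by simpa using ht
    have hN2t := hball t ht
    have hN2ne : N2 τ s t ≠ 0 := by
      intro h
      rw [h, norm_zero] at hN2t
      linarith
    simp only at htx
    have hwp : wp τ s t = x := by
      unfold wp
      rw [← inv_inv x, ← htx, inv_div]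
    refine ⟨t, ht'.le, ?_, hwp⟩
    have hN0sq : ‖N0 τ t‖ ^ 2 = ‖N2 τ s t‖ / ‖x‖ := by
      rw [div_eq_iff hN2ne] at htx
      rw [← norm_pow, htx, norm_mul, norm_inv]
      field_simp
    rw [Real.sqrt_le_left (norm_nonneg _), hN0sq]
    gcongr

end Pool.Agent.MSP
end

end

section

/-! # G5: relation between `GG` and `FF` (MP_f58a57_nt, pairs) -/

open Complex Filter Topology

noncomputable section

namespace Pool.Agent.MSP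

theorem g5_Z1 (c₁ c₂ : Cv) (t w : ℂ) (h1 : N0 c₁.τ t ≠ 0) :
    Z1 c₁ c₂ t w = (N0 c₁.τ t * N0 c₂.τ w) * (-(ph c₁.τ t / (2 * Real.pi * I))) := by
  have hpi : (2 * (Real.pi : ℂ) * I) ≠ 0 := by
    simp [Real.pi_ne_zero]
  unfold Z1 ph
  field_simp

theorem g5_Z2 (c₁ c₂ : Cv) (t w : ℂ) (h2 : N0 c₂.τ w ≠ 0) :
    Z2 c₁ c₂ t w = (N0 c₁.τ t * N0 c₂.τ w) * (-(ph c₂.τ w / (2 * Real.pi * I))) := by
  have hpi : (2 * (Real.pi : ℂ) * I) ≠ 0 := by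
    simp [Real.pi_ne_zero]
  unfold Z2 ph
  field_simp

theorem g5_Z3 (c₁ c₂ : Cv) (P : Pr) (t w : ℂ) (h1 : N0 c₁.τ t ≠ 0) (h2 : N0 c₂.τ w ≠ 0) :
    Z3 c₁ c₂ t w = (N0 c₁.τ t * N0 c₂.τ w) * xx c₁ c₂ P 0 t w := by
  have hx : xx c₁ c₂ P 0 t w = (w - t) + c₂.τ * (ph c₂.τ w / (2 * Real.pi * I)) -
      c₁.τ * (ph c₁.τ t / (2 * Real.pi * I)) := rfl
  rw [hx]
  unfold Z3
  rw [g5_Z1 c₁ c₂ t w h1, g5_Z2 c₁ c₂ t w h2]
  ring

theorem g5_x1 (c₁ c₂ : Cv) (P : Pr) (t w : ℂ) (h1 : N0 c₁.τ t ≠ 0) (h2 : N0 c₂.τ w ≠ 0) :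
    P.b₂ * Z1 c₁ c₂ t w - P.b₁ * Z2 c₁ c₂ t w = (N0 c₁.τ t * N0 c₂.τ w) * xx c₁ c₂ P 1 t w := by
  have hx : xx c₁ c₂ P 1 t w = -(P.b₂ * (ph c₁.τ t / (2 * Real.pi * I))) +
      P.b₁ * (ph c₂.τ w / (2 * Real.pi * I)) := rfl
  rw [hx, g5_Z1 c₁ c₂ t w h1, g5_Z2 c₁ c₂ t w h2]
  ring

theorem g5_x2 (c₁ c₂ : Cv) (P : Pr) (t w : ℂ) (h1 : N0 c₁.τ t ≠ 0) (h2 : N0 c₂.τ w ≠ 0) :
    P.a₁ * Z1 c₁ c₂ t w + P.a₂ * Z2 c₁ c₂ t w = (N0 c₁.τ t * N0 c₂.τ w) * xx c₁ c₂ P 2 t w := by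
  have hx : xx c₁ c₂ P 2 t w = -(P.a₁ * (ph c₁.τ t / (2 * Real.pi * I))) -
      P.a₂ * (ph c₂.τ w / (2 * Real.pi * I)) := rfl
  rw [hx, g5_Z1 c₁ c₂ t w h1, g5_Z2 c₁ c₂ t w h2]
  ring

theorem g5_N2 (τ s t : ℂ) (h : N0 τ t ≠ 0) : N2 τ s t = wp τ s t * N0 τ t ^ 2 := by
  unfold wp
  field_simp

/-- the purely algebraic identity behind G5a -/
theorem g5_alg (A B p q X Y Z : ℂ) (L l a b u v z : ℕ) (ha : a ≤ L) (hb : b ≤ L) (hl : u + v + z ≤ l) :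
    (p * A ^ 2) ^ a * A ^ (2 * (L - a)) * ((q * B ^ 2) ^ b * B ^ (2 * (L - b))) *
      (((A * B) * X) ^ u * ((A * B) * Y) ^ v * ((A * B) * Z) ^ z) * (A * B) ^ (l - (u + v + z)) =
    (A * B) ^ (2 * L + l) * (p ^ a * q ^ b * (X ^ u * Y ^ v * Z ^ z)) := by
  obtain ⟨c, rfl⟩ := Nat.exists_eq_add_of_le ha
  obtain ⟨d, hd⟩ := Nat.exists_eq_add_of_le hb
  obtain ⟨e, rfl⟩ := Nat.exists_eq_add_of_le hl
  have e1 : a + c - a = c := by omega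
  have e2 : a + c - b = d := by omega
  have e3 : u + v + z + e - (u + v + z) = e := by omega
  rw [e1, e2, e3]
  have hA : (p * A ^ 2) ^ a * A ^ (2 * c) = p ^ a * A ^ (2 * (a + c)) := by ring
  have hB : (q * B ^ 2) ^ b * B ^ (2 * d) = q ^ b * B ^ (2 * (a + c)) := by
    rw [hd]; ring
  rw [hA, hB]
  ring

theorem g5_box {P : Pr} {ν : ℕ × ℕ × ℕ × ℕ × ℕ} (h : ν ∈ P.box) :
    ν.1 ≤ P.L ∧ ν.2.1 ≤ P.L ∧ ν.2.2.1 + ν.2.2.2.1 + ν.2.2.2.2 ≤ P.l := by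
  unfold Pr.box at h
  simp only [Finset.mem_product, Finset.mem_range] at h
  unfold Pr.l
  omega

/-- G5a. PROOF. `wp = N2/N0²`, `ph = N1/N0`; `xx 0 + k 0 = (Z3 + k 0 N0 N0)/(N0 N0)` etc.; for `ν ∈ P.box` the exponents add up
to `M = 2L + l`. -/
theorem Gs_eq (c₁ c₂ : Cv) (P : Pr) (k : Fin 3 → ℂ) (coef : ℕ × ℕ × ℕ × ℕ × ℕ → ℂ) (t w : ℂ) (h1 : N0 c₁.τ t ≠ 0)
    (h2 : N0 c₂.τ w ≠ 0) :
    Gs c₁ c₂ P k coef t w = (N0 c₁.τ t * N0 c₂.τ w) ^ P.M *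
      ∑ ν ∈ P.box, coef ν * (wp c₁.τ c₁.s t ^ ν.1 * wp c₂.τ c₂.s w ^ ν.2.1 *
        ((xx c₁ c₂ P 0 t w + k 0) ^ ν.2.2.1 * (xx c₁ c₂ P 1 t w + k 1) ^ ν.2.2.2.1 *
          (xx c₁ c₂ P 2 t w + k 2) ^ ν.2.2.2.2)) := by
  unfold Gs
  rw [Finset.mul_sum]
  refine Finset.sum_congr rfl fun ν hν => ?_
  obtain ⟨ha, hb, hl⟩ := g5_box hν
  have key : Gmon c₁ c₂ P k ν t w = (N0 c₁.τ t * N0 c₂.τ w) ^ P.M *
      (wp c₁.τ c₁.s t ^ ν.1 * wp c₂.τ c₂.s w ^ ν.2.1 *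
        ((xx c₁ c₂ P 0 t w + k 0) ^ ν.2.2.1 * (xx c₁ c₂ P 1 t w + k 1) ^ ν.2.2.2.1 *
          (xx c₁ c₂ P 2 t w + k 2) ^ ν.2.2.2.2)) := by
    unfold Gmon
    rw [g5_Z3 c₁ c₂ P t w h1 h2, g5_x1 c₁ c₂ P t w h1 h2, g5_x2 c₁ c₂ P t w h1 h2,
      g5_N2 c₁.τ c₁.s t h1, g5_N2 c₂.τ c₂.s w h2]
    have r0 : N0 c₁.τ t * N0 c₂.τ w * xx c₁ c₂ P 0 t w + k 0 * (N0 c₁.τ t * N0 c₂.τ w) =
        (N0 c₁.τ t * N0 c₂.τ w) * (xx c₁ c₂ P 0 t w + k 0) := by ring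
    have r1 : N0 c₁.τ t * N0 c₂.τ w * xx c₁ c₂ P 1 t w + k 1 * (N0 c₁.τ t * N0 c₂.τ w) =
        (N0 c₁.τ t * N0 c₂.τ w) * (xx c₁ c₂ P 1 t w + k 1) := by ring
    have r2 : N0 c₁.τ t * N0 c₂.τ w * xx c₁ c₂ P 2 t w + k 2 * (N0 c₁.τ t * N0 c₂.τ w) =
        (N0 c₁.τ t * N0 c₂.τ w) * (xx c₁ c₂ P 2 t w + k 2) := by ring
    rw [r0, r1, r2]
    exact g5_alg _ _ _ _ _ _ _ P.L P.l _ _ _ _ _ ha hb hl
  rw [key]
  ring

theorem g5_GG_eq (c₁ c₂ : Cv) (P : Pr) (coef : ℕ × ℕ × ℕ × ℕ × ℕ → ℂ) (t w : ℂ) (h1 : N0 c₁.τ t ≠ 0)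
    (h2 : N0 c₂.τ w ≠ 0) :
    GG c₁ c₂ P coef t w = N0 c₁.τ t ^ P.M * N0 c₂.τ w ^ P.M * FF c₁ c₂ P coef t w := by
  unfold GG FF
  rw [Gs_eq c₁ c₂ P 0 coef t w h1 h2, mul_pow]
  simp

theorem g5_N0_an (c : Cv) (t : ℂ) : AnalyticAt ℂ (N0 c.τ) t :=
  (th_differentiable c.τ c.im).analyticAt t

/-- near a point where the theta functions do not vanish they do not vanish -/
theorem g5_ev (c₁ c₂ : Cv) (t w : ℂ) (h1 : N0 c₁.τ t ≠ 0) (h2 : N0 c₂.τ w ≠ 0) :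
    ∀ᶠ p : ℂ × ℂ in 𝓝 (t, w), N0 c₁.τ p.1 ≠ 0 ∧ N0 c₂.τ p.2 ≠ 0 := by
  have a1 : ContinuousAt (fun p : ℂ × ℂ => N0 c₁.τ p.1) (t, w) :=
    ContinuousAt.comp (f := Prod.fst) (g := N0 c₁.τ) (g5_N0_an c₁ t).continuousAt continuousAt_fst
  have a2 : ContinuousAt (fun p : ℂ × ℂ => N0 c₂.τ p.2) (t, w) :=
    ContinuousAt.comp (f := Prod.snd) (g := N0 c₂.τ) (g5_N0_an c₂ w).continuousAt continuousAt_snd
  exact (a1.eventually_ne h1).and (a2.eventually_ne h2)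

/-- G5b. -/
theorem FF_an2 (c₁ c₂ : Cv) (P : Pr) (coef : ℕ × ℕ × ℕ × ℕ × ℕ → ℂ) (t w : ℂ) (h1 : N0 c₁.τ t ≠ 0)
    (h2 : N0 c₂.τ w ≠ 0) : An2 (FF c₁ c₂ P coef) t w := by
  have a1 : AnalyticAt ℂ (fun p : ℂ × ℂ => N0 c₁.τ p.1) (t, w) :=
    AnalyticAt.fun_comp (g := N0 c₁.τ) (f := Prod.fst) (g5_N0_an c₁ t) analyticAt_fst
  have a2 : AnalyticAt ℂ (fun p : ℂ × ℂ => N0 c₂.τ p.2) (t, w) :=
    AnalyticAt.fun_comp (g := N0 c₂.τ) (f := Prod.snd) (g5_N0_an c₂ w) analyticAt_snd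
  have aG : AnalyticAt ℂ (fun p : ℂ × ℂ => GG c₁ c₂ P coef p.1 p.2) (t, w) := GG_an2 c₁ c₂ P coef t w
  have h := (((a1.pow P.M).mul (a2.pow P.M)).inv (by
    simp only [Pi.mul_apply, Pi.pow_apply]
    exact mul_ne_zero (pow_ne_zero _ h1) (pow_ne_zero _ h2))).mul aG
  unfold An2
  refine h.congr ?_
  filter_upwards [g5_ev c₁ c₂ t w h1 h2] with p hp
  simp only [Pi.mul_apply, Pi.inv_apply, Pi.pow_apply]
  rw [g5_GG_eq c₁ c₂ P coef p.1 p.2 hp.1 hp.2, ← mul_assoc, inv_mul_cancel₀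
    (mul_ne_zero (pow_ne_zero _ hp.1) (pow_ne_zero _ hp.2)), one_mul]

theorem g5_dd_GG (c₁ c₂ : Cv) (P : Pr) (coef : ℕ × ℕ × ℕ × ℕ × ℕ → ℂ) (t w : ℂ) (h1 : N0 c₁.τ t ≠ 0)
    (h2 : N0 c₂.τ w ≠ 0) (r s : ℕ) :
    dd r s (GG c₁ c₂ P coef) t w =
      dd r s (fun t w => N0 c₁.τ t ^ P.M * N0 c₂.τ w ^ P.M * FF c₁ c₂ P coef t w) t w := by
  refine dd_congr _ _ t w ?_ r s
  filter_upwards [g5_ev c₁ c₂ t w h1 h2] with p hp
  exact g5_GG_eq c₁ c₂ P coef p.1 p.2 hp.1 hp.2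

theorem g5_dd_FF (c₁ c₂ : Cv) (P : Pr) (coef : ℕ × ℕ × ℕ × ℕ × ℕ → ℂ) (t w : ℂ) (h1 : N0 c₁.τ t ≠ 0)
    (h2 : N0 c₂.τ w ≠ 0) (r s : ℕ) :
    dd r s (FF c₁ c₂ P coef) t w =
      dd r s (fun t w => (N0 c₁.τ t ^ P.M)⁻¹ * (N0 c₂.τ w ^ P.M)⁻¹ * GG c₁ c₂ P coef t w) t w := by
  refine dd_congr _ _ t w ?_ r s
  filter_upwards [g5_ev c₁ c₂ t w h1 h2] with p hp
  have q1 : N0 c₁.τ p.1 ^ P.M ≠ 0 := pow_ne_zero _ hp.1
  have q2 : N0 c₂.τ p.2 ^ P.M ≠ 0 := pow_ne_zero _ hp.2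
  rw [g5_GG_eq c₁ c₂ P coef p.1 p.2 hp.1 hp.2]
  field_simp

/-- G5c. PROOF. Near `(t, w)` we have `GG = N0 c₁.τ t ^ M * N0 c₂.τ w ^ M * FF` (G5a with `k = 0`); `dd_congr` and `dd_mul_zero`. -/
theorem GG_zero_of_FF (c₁ c₂ : Cv) (P : Pr) (coef : ℕ × ℕ × ℕ × ℕ × ℕ → ℂ) (t w : ℂ) (h1 : N0 c₁.τ t ≠ 0)
    (h2 : N0 c₂.τ w ≠ 0) (k : ℕ) (hk : ∀ i j, i + j < k → dd i j (FF c₁ c₂ P coef) t w = 0) (r s : ℕ) (hrs : r + s < k) :
    dd r s (GG c₁ c₂ P coef) t w = 0 := by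
  rw [g5_dd_GG c₁ c₂ P coef t w h1 h2]
  exact dd_mul_zero (fun t => N0 c₁.τ t ^ P.M) (fun w => N0 c₂.τ w ^ P.M) (FF c₁ c₂ P coef) t w
    ((g5_N0_an c₁ t).pow P.M) ((g5_N0_an c₂ w).pow P.M) (FF_an2 c₁ c₂ P coef t w h1 h2) k hk r s hrs

/-- G5d. PROOF. Near `(t, w)`: `FF = (N0 c₁.τ t ^ M)⁻¹ * (N0 c₂.τ w ^ M)⁻¹ * GG`; `dd_mul_zero` shows that all `dd i j FF`, `i + j < k`, vanish, and then
`dd_mul_lead` for `GG = N0 ^ M * N0 ^ M * FF`. -/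
theorem GG_lead (c₁ c₂ : Cv) (P : Pr) (coef : ℕ × ℕ × ℕ × ℕ × ℕ → ℂ) (t w : ℂ) (h1 : N0 c₁.τ t ≠ 0)
    (h2 : N0 c₂.τ w ≠ 0) (k : ℕ) (hk : ∀ i j, i + j < k → dd i j (GG c₁ c₂ P coef) t w = 0) (r s : ℕ) (hrs : r + s = k) :
    dd r s (GG c₁ c₂ P coef) t w = (N0 c₁.τ t * N0 c₂.τ w) ^ P.M * dd r s (FF c₁ c₂ P coef) t w := by
  have hF : ∀ i j, i + j < k → dd i j (FF c₁ c₂ P coef) t w = 0 := by
    intro i j hij
    rw [g5_dd_FF c₁ c₂ P coef t w h1 h2]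
    exact dd_mul_zero (fun t => (N0 c₁.τ t ^ P.M)⁻¹) (fun w => (N0 c₂.τ w ^ P.M)⁻¹) (GG c₁ c₂ P coef) t w
      (((g5_N0_an c₁ t).pow P.M).inv (pow_ne_zero _ h1)) (((g5_N0_an c₂ w).pow P.M).inv (pow_ne_zero _ h2))
      (GG_an2 c₁ c₂ P coef t w) k hk i j hij
  rw [g5_dd_GG c₁ c₂ P coef t w h1 h2, mul_pow]
  exact dd_mul_lead (fun t => N0 c₁.τ t ^ P.M) (fun w => N0 c₂.τ w ^ P.M) (FF c₁ c₂ P coef) t w
    ((g5_N0_an c₁ t).pow P.M) ((g5_N0_an c₂ w).pow P.M) (FF_an2 c₁ c₂ P coef t w h1 h2) k hF r s hrs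

end Pool.Agent.MSP
end

end

section

/-! # G3: growth of `Gs` (MP_f58a57_nt, pairs) -/

open Complex Filter Topology

noncomputable section

namespace Pool.Agent.MSP

private lemma g3_ar (u v A κ : ℝ) (h : u + v ≤ A - 2) (hA : 2 ≤ A) (hκ : 1 ≤ κ) :
    u + v + κ ≤ A * κ := by
  have h1 : 0 ≤ (A - 1) * (κ - 1) := mul_nonneg (by linarith) (by linarith)
  have h2 : (A - 1) * (κ - 1) = A * κ - A - κ + 1 := by ring
  linarith

private lemma g3_ar2 (C L x y : ℝ) (h6 : 0 ≤ C * L) (hL : 0 ≤ L) (h : y ^ 2 ≤ 2 * x ^ 2 + 2) :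
    C * L * (1 + x ^ 2 + y ^ 2) + L ≤ (3 * C + 1) * L * (1 + x ^ 2) := by
  have h1 : 0 ≤ C * L * (2 * x ^ 2 + 2 - y ^ 2) := mul_nonneg h6 (by linarith)
  have h2 : 0 ≤ L * x ^ 2 := mul_nonneg hL (sq_nonneg x)
  linarith

private lemma g3_prod {E F : ℝ} (hE : 1 ≤ E) (hF : 0 ≤ F) {x1 x2 x3 x4 y1 y2 y3 y4 : ℝ}
    (hx1 : 0 ≤ x1) (hx2 : 0 ≤ x2) (hx3 : 0 ≤ x3) (hx4 : 0 ≤ x4) (hy1 : 0 ≤ y1) (hy2 : 0 ≤ y2)
    (hy3 : 0 ≤ y3) (hy4 : 0 ≤ y4) (kx1 : x1 ≤ E) (kx2 : x2 ≤ E) (kx3 : x3 ≤ E) (kx4 : x4 ≤ E)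
    (ky1 : y1 ≤ F) (ky2 : y2 ≤ F) (ky3 : y3 ≤ F) (ky4 : y4 ≤ F) {a b p q r L l : ℕ} (ha : a < L + 1)
    (hb : b < L + 1) (hk : p + q + r ≤ l) :
    x1 ^ a * x2 ^ (2 * (L - a)) * (x3 ^ b * x4 ^ (2 * (L - b))) * (y1 ^ p * y2 ^ q * y3 ^ r) *
      y4 ^ (l - (p + q + r)) ≤ E ^ (2 * L) * E ^ (2 * L) * F ^ l := by
  have hE0 : (0 : ℝ) ≤ E := zero_le_one.trans hE
  have key : ∀ {x x' : ℝ} (_ : 0 ≤ x) (_ : 0 ≤ x') (_ : x ≤ E) (_ : x' ≤ E) {a : ℕ} (_ : a < L + 1),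
      x ^ a * x' ^ (2 * (L - a)) ≤ E ^ (2 * L) := by
    intro x x' h0 h0' h h' a ha
    calc x ^ a * x' ^ (2 * (L - a)) ≤ E ^ a * E ^ (2 * (L - a)) :=
          mul_le_mul (pow_le_pow_left₀ h0 h _) (pow_le_pow_left₀ h0' h' _) (pow_nonneg h0' _)
            (pow_nonneg hE0 _)
      _ = E ^ (a + 2 * (L - a)) := (pow_add _ _ _).symm
      _ ≤ E ^ (2 * L) := pow_le_pow_right₀ hE (by omega)
  have e : F ^ l = F ^ p * F ^ q * F ^ r * F ^ (l - (p + q + r)) := by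
    rw [← pow_add, ← pow_add, ← pow_add, Nat.add_sub_cancel' hk]
  rw [mul_assoc, e]
  refine mul_le_mul (mul_le_mul (key hx1 hx2 kx1 kx2 ha) (key hx3 hx4 kx3 kx4 hb)
    (mul_nonneg (pow_nonneg hx3 _) (pow_nonneg hx4 _)) (pow_nonneg hE0 _)) ?_
    (mul_nonneg (mul_nonneg (mul_nonneg (pow_nonneg hy1 _) (pow_nonneg hy2 _))
      (pow_nonneg hy3 _)) (pow_nonneg hy4 _)) (mul_nonneg (pow_nonneg hE0 _) (pow_nonneg hE0 _))
  refine mul_le_mul (mul_le_mul (mul_le_mul (pow_le_pow_left₀ hy1 ky1 _) (pow_le_pow_left₀ hy2 ky2 _)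
    (pow_nonneg hy2 _) (pow_nonneg hF _)) (pow_le_pow_left₀ hy3 ky3 _) (pow_nonneg hy3 _)
    (mul_nonneg (pow_nonneg hF _) (pow_nonneg hF _))) (pow_le_pow_left₀ hy4 ky4 _)
    (pow_nonneg hy4 _) (mul_nonneg (mul_nonneg (pow_nonneg hF _) (pow_nonneg hF _))
      (pow_nonneg hF _))

private lemma g3_fin {E C A X x : ℝ} (hE : 1 ≤ E) (hC : 1 ≤ C) (hA0 : 0 ≤ A) (hX : 0 ≤ X)
    {L l : ℕ} (hl : l ≤ L) (hA : A ^ l ≤ x) :
    E ^ (2 * L) * E ^ (2 * L) * (E ^ 2 * (C * A) * X) ^ l ≤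
      E ^ (6 * L) * (C ^ L * x) * X ^ l := by
  have hE0 : (0 : ℝ) ≤ E := zero_le_one.trans hE
  have hC0 : (0 : ℝ) ≤ C := zero_le_one.trans hC
  have h1 : E ^ (2 * l) ≤ E ^ (2 * L) := pow_le_pow_right₀ hE (by omega)
  have h2 : C ^ l ≤ C ^ L := pow_le_pow_right₀ hC hl
  have e : E ^ (6 * L) = E ^ (2 * L) * E ^ (2 * L) * E ^ (2 * L) := by
    rw [← pow_add, ← pow_add]; congr 1; omega
  calc E ^ (2 * L) * E ^ (2 * L) * (E ^ 2 * (C * A) * X) ^ l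
      = E ^ (2 * L) * E ^ (2 * L) * (E ^ (2 * l) * (C ^ l * A ^ l) * X ^ l) := by
        rw [mul_pow, mul_pow, mul_pow, ← pow_mul]
    _ ≤ E ^ (2 * L) * E ^ (2 * L) * (E ^ (2 * L) * (C ^ L * x) * X ^ l) :=
        mul_le_mul_of_nonneg_left (mul_le_mul_of_nonneg_right
          (mul_le_mul h1 (mul_le_mul h2 hA (pow_nonneg hA0 _) (pow_nonneg hC0 _))
            (mul_nonneg (pow_nonneg hC0 _) (pow_nonneg hA0 _)) (pow_nonneg hE0 _))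
          (pow_nonneg hX _)) (mul_nonneg (pow_nonneg hE0 _) (pow_nonneg hE0 _))
    _ = _ := by rw [e]; simp only [mul_assoc]

private lemma g3_z3 {E2 a b n κ A : ℝ} (hE : 0 ≤ E2) (ha : 0 ≤ a) (hb : 0 ≤ b) (hn : 0 ≤ n)
    (hκ : 1 ≤ κ) (hA : 2 ≤ A) :
    n * E2 + b * E2 + a * E2 + κ * E2 ≤ E2 * ((1 + a + b) * A) * (κ + n) := by
  have hX : 0 ≤ κ + n - 1 := by linarith
  have h1 : n + b + a + κ ≤ (1 + a + b) * (κ + n) := by
    have h1 := mul_nonneg ha hX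
    have h2 := mul_nonneg hb hX
    linarith
  have h2 : (1 + a + b) * (κ + n) ≤ (1 + a + b) * A * (κ + n) :=
    mul_le_mul_of_nonneg_right (le_mul_of_one_le_right (by linarith) (by linarith)) (by linarith)
  calc n * E2 + b * E2 + a * E2 + κ * E2 = E2 * (n + b + a + κ) := by ring
    _ ≤ E2 * ((1 + a + b) * A * (κ + n)) := mul_le_mul_of_nonneg_left (h1.trans h2) hE
    _ = _ := by ring

private lemma g3_lin {E2 a b n κ A u v : ℝ} (hE : 0 ≤ E2) (ha : 0 ≤ a) (hb : 0 ≤ b) (hn : 0 ≤ n)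
    (hκ : 1 ≤ κ) (hA : 2 ≤ A) (h : u + v ≤ A - 2) :
    u * E2 + v * E2 + κ * E2 ≤ E2 * ((1 + a + b) * A) * (κ + n) := by
  have h1 := g3_ar u v A κ h hA hκ
  have h2 : A * κ ≤ (1 + a + b) * A * (κ + n) :=
    mul_le_mul (le_mul_of_one_le_left (by linarith) (by linarith)) (by linarith) (by linarith)
      (mul_nonneg (by linarith) (by linarith))
  calc u * E2 + v * E2 + κ * E2 = E2 * (u + v + κ) := by ring
    _ ≤ E2 * ((1 + a + b) * A * (κ + n)) := mul_le_mul_of_nonneg_left (h1.trans h2) hE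
    _ = _ := by ring

private lemma g3_A (P : Pr) : 2 ≤ P.A ∧ |(P.b₂ : ℝ)| + |(P.b₁ : ℝ)| ≤ P.A - 2 ∧
    |(P.a₁ : ℝ)| + |(P.a₂ : ℝ)| ≤ P.A - 2 := by
  unfold Pr.A
  have h1 := abs_nonneg (P.a₁ : ℝ)
  have h2 := abs_nonneg (P.a₂ : ℝ)
  have h3 := abs_nonneg (P.b₁ : ℝ)
  have h4 := abs_nonneg (P.b₂ : ℝ)
  exact ⟨by linarith, by linarith, by linarith⟩

private lemma g3_div {x y E : ℝ} (hE : 0 ≤ E) (hx : 0 ≤ x) (h1 : x ≤ E)
    (h2 : 0 ≤ y) (h3 : y ≤ E) : x * y / (2 * Real.pi) ≤ E ^ 2 := by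
  have hpi : 1 ≤ 2 * Real.pi := by have := Real.pi_gt_three; linarith
  have h : x * y ≤ E ^ 2 := by rw [sq]; exact mul_le_mul h1 h3 h2 hE
  exact (div_le_self (mul_nonneg hx h2) hpi).trans h

/-- the bound for one monomial -/
theorem g3_mon (c₁ c₂ : Cv) (P : Pr) (hP : P.Good) (κ₀ : ℝ) (k : Fin 3 → ℂ) (hκ : 1 ≤ κ₀)
    (hk : ∀ i, ‖k i‖ ≤ κ₀) (ν : ℕ × ℕ × ℕ × ℕ × ℕ) (hν : ν ∈ P.box) (t w : ℂ) (E : ℝ) (hE : 1 ≤ E)
    (h0t : ‖N0 c₁.τ t‖ ≤ E) (h1t : ‖N1 c₁.τ t‖ ≤ E) (h2t : ‖N2 c₁.τ c₁.s t‖ ≤ E)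
    (h0w : ‖N0 c₂.τ w‖ ≤ E) (h1w : ‖N1 c₂.τ w‖ ≤ E) (h2w : ‖N2 c₂.τ c₂.s w‖ ≤ E) :
    ‖Gmon c₁ c₂ P k ν t w‖ ≤ E ^ (6 * P.L) * ((1 + ‖c₁.τ‖ + ‖c₂.τ‖) ^ P.L * Real.exp P.L) *
      (κ₀ + ‖w - t‖) ^ P.l := by
  have hE0 : (0 : ℝ) ≤ E := zero_le_one.trans hE
  have hE2 : 0 ≤ E ^ 2 := pow_nonneg hE0 2
  obtain ⟨hA2, hAb, hAa⟩ := g3_A P
  simp only [Pr.box, Finset.mem_product, Finset.mem_range] at hν
  obtain ⟨hν1, hν2, hκ1, hκ2, hκ3⟩ := hν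
  have hw0 : 0 ≤ ‖w - t‖ := norm_nonneg _
  have h10 : 0 ≤ ‖c₁.τ‖ := norm_nonneg _
  have h20 : 0 ≤ ‖c₂.τ‖ := norm_nonneg _
  have h2pi : ‖(2 * Real.pi * I : ℂ)‖ = 2 * Real.pi := by
    simp [abs_of_pos Real.pi_pos]
  have hnn : ‖N0 c₁.τ t * N0 c₂.τ w‖ ≤ E ^ 2 := by
    rw [norm_mul, sq]
    exact mul_le_mul h0t h0w (norm_nonneg _) hE0
  have hZ1 : ‖Z1 c₁ c₂ t w‖ ≤ E ^ 2 := by
    unfold Z1
    rw [norm_div, norm_neg, norm_mul, h2pi]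
    exact g3_div hE0 (norm_nonneg _) h1t (norm_nonneg _) h0w
  have hZ2 : ‖Z2 c₁ c₂ t w‖ ≤ E ^ 2 := by
    unfold Z2
    rw [norm_div, norm_neg, norm_mul, h2pi]
    exact g3_div hE0 (norm_nonneg _) h0t (norm_nonneg _) h1w
  have hk' : ∀ i, ‖k i * (N0 c₁.τ t * N0 c₂.τ w)‖ ≤ κ₀ * E ^ 2 := fun i => by
    rw [norm_mul]
    exact mul_le_mul (hk i) hnn (norm_nonneg _) (zero_le_one.trans hκ)
  have hX3 : ‖Z3 c₁ c₂ t w + k 0 * (N0 c₁.τ t * N0 c₂.τ w)‖ ≤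
      E ^ 2 * ((1 + ‖c₁.τ‖ + ‖c₂.τ‖) * P.A) * (κ₀ + ‖w - t‖) := by
    refine le_trans ?_ (g3_z3 hE2 h10 h20 hw0 hκ hA2)
    have h1 : ‖(w - t) * (N0 c₁.τ t * N0 c₂.τ w)‖ ≤ ‖w - t‖ * E ^ 2 :=
      (norm_mul _ _).trans_le (mul_le_mul_of_nonneg_left hnn hw0)
    have h2 : ‖c₂.τ * Z2 c₁ c₂ t w‖ ≤ ‖c₂.τ‖ * E ^ 2 :=
      (norm_mul _ _).trans_le (mul_le_mul_of_nonneg_left hZ2 h20)
    have h3 : ‖c₁.τ * Z1 c₁ c₂ t w‖ ≤ ‖c₁.τ‖ * E ^ 2 :=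
      (norm_mul _ _).trans_le (mul_le_mul_of_nonneg_left hZ1 h10)
    unfold Z3
    exact (norm_add_le _ _).trans (add_le_add ((norm_add_le _ _).trans (add_le_add
      ((norm_sub_le _ _).trans (add_le_add h1 h2)) h3)) (hk' 0))
  have hlin : ∀ (u v : ℤ) (Y₁ Y₂ : ℂ) (i : Fin 3), |(u : ℝ)| + |(v : ℝ)| ≤ P.A - 2 →
      ‖Y₁‖ ≤ E ^ 2 → ‖Y₂‖ ≤ E ^ 2 →
      ‖(u : ℂ) * Y₁‖ + ‖(v : ℂ) * Y₂‖ + ‖k i * (N0 c₁.τ t * N0 c₂.τ w)‖ ≤
        E ^ 2 * ((1 + ‖c₁.τ‖ + ‖c₂.τ‖) * P.A) * (κ₀ + ‖w - t‖) := by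
    intro u v Y₁ Y₂ i huv h1 h2
    have h3 : ‖(u : ℂ) * Y₁‖ ≤ |(u : ℝ)| * E ^ 2 := by
      rw [norm_mul, Complex.norm_intCast]; exact mul_le_mul_of_nonneg_left h1 (abs_nonneg _)
    have h4 : ‖(v : ℂ) * Y₂‖ ≤ |(v : ℝ)| * E ^ 2 := by
      rw [norm_mul, Complex.norm_intCast]; exact mul_le_mul_of_nonneg_left h2 (abs_nonneg _)
    exact (add_le_add (add_le_add h3 h4) (hk' i)).trans (g3_lin hE2 h10 h20 hw0 hκ hA2 huv)
  have hX4 : ‖(P.b₂ : ℂ) * Z1 c₁ c₂ t w - P.b₁ * Z2 c₁ c₂ t w +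
      k 1 * (N0 c₁.τ t * N0 c₂.τ w)‖ ≤
      E ^ 2 * ((1 + ‖c₁.τ‖ + ‖c₂.τ‖) * P.A) * (κ₀ + ‖w - t‖) :=
    ((norm_add_le _ _).trans (add_le_add_left (norm_sub_le _ _) _)).trans
      (hlin P.b₂ P.b₁ _ _ 1 hAb hZ1 hZ2)
  have hX5 : ‖(P.a₁ : ℂ) * Z1 c₁ c₂ t w + P.a₂ * Z2 c₁ c₂ t w +
      k 2 * (N0 c₁.τ t * N0 c₂.τ w)‖ ≤
      E ^ 2 * ((1 + ‖c₁.τ‖ + ‖c₂.τ‖) * P.A) * (κ₀ + ‖w - t‖) :=
    ((norm_add_le _ _).trans (add_le_add_left (norm_add_le _ _) _)).trans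
      (hlin P.a₁ P.a₂ _ _ 2 hAa hZ1 hZ2)
  have hn' : ‖N0 c₁.τ t * N0 c₂.τ w‖ ≤
      E ^ 2 * ((1 + ‖c₁.τ‖ + ‖c₂.τ‖) * P.A) * (κ₀ + ‖w - t‖) := by
    refine hnn.trans (le_trans ?_ (g3_lin (u := 0) (v := 0) hE2 h10 h20 hw0 hκ hA2
      (by linarith only [hA2])))
    rw [zero_mul, zero_add, zero_add]
    exact le_mul_of_one_le_left hE2 hκ
  have hKl : ν.2.2.1 + ν.2.2.2.1 + ν.2.2.2.2 ≤ P.l := by unfold Pr.l; omega
  have hF1 := (norm_nonneg _).trans hn'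
  have hfin := g3_fin (x := Real.exp P.L) hE (C := 1 + ‖c₁.τ‖ + ‖c₂.τ‖)
    (by linarith only [h10, h20]) (A := P.A)
    (by linarith only [hA2]) (X := κ₀ + ‖w - t‖) (by linarith only [hw0, hκ]) hP.hl hP.hA
  unfold Gmon
  rw [norm_mul, norm_mul, norm_mul, norm_mul, norm_mul, norm_mul, norm_mul, norm_pow, norm_pow,
    norm_pow, norm_pow, norm_pow, norm_pow, norm_pow, norm_pow]
  exact (g3_prod hE hF1 (norm_nonneg _) (norm_nonneg _) (norm_nonneg _) (norm_nonneg _)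
    (norm_nonneg _) (norm_nonneg _) (norm_nonneg _) (norm_nonneg _) h2t h0t h2w h0w hX3 hX4 hX5 hn'
    hν1 hν2 hKl).trans hfin

theorem g3_card (P : Pr) (hP : P.Good) : ((P.box.card : ℕ) : ℝ) ≤ Real.exp (5 * P.L) := by
  have h1 : P.d₁ ≤ P.L := by have := hP.hl; unfold Pr.l at this; omega
  have h2 : P.d₂ ≤ P.L := by have := hP.hl; unfold Pr.l at this; omega
  have h3 : P.d₃ ≤ P.L := by have := hP.hl; unfold Pr.l at this; omega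
  have h4 : P.box.card ≤ (P.L + 1) ^ 5 := by
    simp only [Pr.box, Finset.card_product, Finset.card_range]
    calc (P.L + 1) * ((P.L + 1) * ((P.d₁ + 1) * ((P.d₂ + 1) * (P.d₃ + 1))))
        ≤ (P.L + 1) * ((P.L + 1) * ((P.L + 1) * ((P.L + 1) * (P.L + 1)))) := by gcongr
      _ = (P.L + 1) ^ 5 := by ring
  calc ((P.box.card : ℕ) : ℝ) ≤ (((P.L + 1) ^ 5 : ℕ) : ℝ) := by exact_mod_cast h4
    _ = ((P.L : ℝ) + 1) ^ 5 := by push_cast; ring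
    _ ≤ (Real.exp P.L) ^ 5 := by
      have := Real.add_one_le_exp (P.L : ℝ)
      gcongr
    _ = Real.exp (5 * P.L) := by
      rw [← Real.exp_nat_mul]
      norm_num

/-- G3a. PROOF. Let `E = exp(C₀(2 + t.im² + w.im²))` with `C₀` the maximum of the two constants of T5 (`growth`). Then
`‖N0 t N0 w‖ ≤ E`, `‖Z1‖, ‖Z2‖ ≤ E`, `‖Z3 + k₀ N0 N0‖ ≤ E C' (κ₀ + ‖w - t‖)`, and with `A = P.A ≥ 2`
`‖b₂ Z1 - b₁ Z2 + k₁ N0 N0‖ ≤ E (A + κ₀) ≤ E · 2 A κ₀`, the same for the third factor. The product of the `κ₁+κ₂+κ₃ ≤ l` factors is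
`≤ E^(κ₁+κ₂+κ₃) (C'' A)^l (κ₀ + ‖w-t‖)^l` and `A^l ≤ exp L`, `C''^l ≤ exp(L log C'')`; the other factors are
`≤ exp(C₀ 2L (1 + t.im²)) exp(C₀ 2L(1 + w.im²)) E^(l - (κ₁+κ₂+κ₃))`; the number of monomials is
`(L+1)²(d₁+1)(d₂+1)(d₃+1) ≤ (L+1)^5 ≤ exp(5L)`. -/
theorem Gs_bound (c₁ c₂ : Cv) : ∃ C : ℝ, 1 ≤ C ∧ ∀ (P : Pr), P.Good → ∀ (B κ₀ : ℝ) (k : Fin 3 → ℂ)
    (coef : ℕ × ℕ × ℕ × ℕ × ℕ → ℂ), 1 ≤ κ₀ → (∀ i, ‖k i‖ ≤ κ₀) → (∀ ν ∈ P.box, ‖coef ν‖ ≤ B) → ∀ t w : ℂ,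
    ‖Gs c₁ c₂ P k coef t w‖ ≤ B * Real.exp (C * P.L * (1 + t.im ^ 2 + w.im ^ 2)) * (κ₀ + ‖w - t‖) ^ P.l := by
  obtain ⟨C₁, hC₁, h₁⟩ := growth c₁.τ c₁.s c₁.im
  obtain ⟨C₂, hC₂, h₂⟩ := growth c₂.τ c₂.s c₂.im
  set C' : ℝ := 1 + ‖c₁.τ‖ + ‖c₂.τ‖ with hC'
  have hC'1 : 1 ≤ C' := by
    have h1 := norm_nonneg c₁.τ
    have h2 := norm_nonneg c₂.τ
    linarith
  have hlog : 0 ≤ Real.log C' := Real.log_nonneg hC'1
  refine ⟨6 * (C₁ + C₂) + Real.log C' + 6, by linarith, ?_⟩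
  intro P hP B κ₀ k coef hκ hk hB t w
  set S : ℝ := 1 + t.im ^ 2 + w.im ^ 2 with hS
  have hS1 : 1 ≤ S := by have h1 := sq_nonneg t.im; have h2 := sq_nonneg w.im; linarith
  set E : ℝ := Real.exp ((C₁ + C₂) * S) with hEdef
  have hE1 : 1 ≤ E := Real.one_le_exp (by positivity)
  have ht : Real.exp (C₁ * (1 + t.im ^ 2)) ≤ E := by
    apply Real.exp_le_exp.mpr
    have h1 : 1 + t.im ^ 2 ≤ S := by have := sq_nonneg w.im; linarith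
    have h2 : 0 ≤ 1 + t.im ^ 2 := by positivity
    exact mul_le_mul (by linarith) h1 h2 (by linarith)
  have hw : Real.exp (C₂ * (1 + w.im ^ 2)) ≤ E := by
    apply Real.exp_le_exp.mpr
    have h1 : 1 + w.im ^ 2 ≤ S := by have := sq_nonneg t.im; linarith
    have h2 : 0 ≤ 1 + w.im ^ 2 := by positivity
    exact mul_le_mul (by linarith) h1 h2 (by linarith)
  have hmon : ∀ ν ∈ P.box, ‖Gmon c₁ c₂ P k ν t w‖ ≤
      E ^ (6 * P.L) * (C' ^ P.L * Real.exp P.L) * (κ₀ + ‖w - t‖) ^ P.l := fun ν hν =>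
    g3_mon c₁ c₂ P hP κ₀ k hκ hk ν hν t w E hE1 ((h₁ t).1.trans ht) ((h₁ t).2.1.trans ht)
      ((h₁ t).2.2.trans ht) ((h₂ w).1.trans hw) ((h₂ w).2.1.trans hw) ((h₂ w).2.2.trans hw)
  have hB0 : 0 ≤ B := by
    have h0 : ((0, 0, 0, 0, 0) : ℕ × ℕ × ℕ × ℕ × ℕ) ∈ P.box := by simp [Pr.box]
    exact (norm_nonneg _).trans (hB _ h0)
  have hX0 : 0 ≤ (κ₀ + ‖w - t‖) ^ P.l := by
    have := norm_nonneg (w - t)
    positivity
  have hexp : Real.exp (5 * P.L) * (E ^ (6 * P.L) * (C' ^ P.L * Real.exp P.L)) ≤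
      Real.exp ((6 * (C₁ + C₂) + Real.log C' + 6) * P.L * S) := by
    have h1 : E ^ (6 * P.L) = Real.exp ((6 * P.L : ℕ) * ((C₁ + C₂) * S)) := by
      rw [Real.exp_nat_mul]
    have h2 : C' ^ P.L = Real.exp (P.L * Real.log C') := by
      rw [Real.exp_nat_mul, Real.exp_log (by linarith)]
    rw [h1, h2, ← Real.exp_add, ← Real.exp_add, ← Real.exp_add]
    apply Real.exp_le_exp.mpr
    push_cast
    have hL0 : (0 : ℝ) ≤ P.L := Nat.cast_nonneg _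
    have h3 : (P.L : ℝ) * (Real.log C' + 6) ≤ (P.L : ℝ) * (Real.log C' + 6) * S :=
      le_mul_of_one_le_right (mul_nonneg hL0 (by linarith)) hS1
    have h4 : (6 * (C₁ + C₂) + Real.log C' + 6) * P.L * S = (6 * (P.L : ℝ)) * ((C₁ + C₂) * S) +
      (P.L : ℝ) * (Real.log C' + 6) * S := by ring
    rw [h4]
    linarith
  calc ‖Gs c₁ c₂ P k coef t w‖ ≤ ∑ ν ∈ P.box, ‖coef ν * Gmon c₁ c₂ P k ν t w‖ := norm_sum_le _ _
    _ ≤ ∑ _ν ∈ P.box, B * (E ^ (6 * P.L) * (C' ^ P.L * Real.exp P.L) * (κ₀ + ‖w - t‖) ^ P.l) := by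
      apply Finset.sum_le_sum
      intro ν hν
      rw [norm_mul]
      exact mul_le_mul (hB ν hν) (hmon ν hν) (norm_nonneg _) hB0
    _ = (P.box.card : ℝ) * (B * (E ^ (6 * P.L) * (C' ^ P.L * Real.exp P.L) *
        (κ₀ + ‖w - t‖) ^ P.l)) := by
      rw [Finset.sum_const, nsmul_eq_mul]
    _ ≤ Real.exp (5 * P.L) * (B * (E ^ (6 * P.L) * (C' ^ P.L * Real.exp P.L) *
        (κ₀ + ‖w - t‖) ^ P.l)) := by
      have h1 := g3_card P hP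
      have h2 : 0 ≤ B * (E ^ (6 * P.L) * (C' ^ P.L * Real.exp P.L) * (κ₀ + ‖w - t‖) ^ P.l) := by
        positivity
      exact mul_le_mul_of_nonneg_right h1 h2
    _ = B * (Real.exp (5 * P.L) * (E ^ (6 * P.L) * (C' ^ P.L * Real.exp P.L))) *
        (κ₀ + ‖w - t‖) ^ P.l := by ring
    _ ≤ B * Real.exp ((6 * (C₁ + C₂) + Real.log C' + 6) * P.L * S) *
        (κ₀ + ‖w - t‖) ^ P.l := by gcongr

/-- G3b. PROOF. `gm G m t` is the `m`-th Taylor coefficient at `t` of `w ↦ GG t w`: Cauchy's inequality on `‖w - t‖ = 1`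
(`Complex.norm_iteratedDeriv_le_of_forall_mem_sphere_norm_le`), and `Gs_bound` with `k = 0`, `κ₀ = 1`:
`|w.im| ≤ |t.im| + 1`, `w.im² ≤ 2 t.im² + 2`, `(1 + 1)^l ≤ exp L`. -/
theorem gm_bound (c₁ c₂ : Cv) : ∃ C : ℝ, 1 ≤ C ∧ ∀ (P : Pr), P.Good → ∀ (B : ℝ)
    (coef : ℕ × ℕ × ℕ × ℕ × ℕ → ℂ), (∀ ν ∈ P.box, ‖coef ν‖ ≤ B) → ∀ (m : ℕ) (t : ℂ),
    ‖gm (GG c₁ c₂ P coef) m t‖ ≤ B * Real.exp (C * P.L * (1 + t.im ^ 2)) := by
  obtain ⟨C₀, hC₀, h₀⟩ := Gs_bound c₁ c₂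
  refine ⟨3 * C₀ + 1, by linarith, ?_⟩
  intro P hP B coef hB m t
  have hB0 : 0 ≤ B := by
    have h0 : ((0, 0, 0, 0, 0) : ℕ × ℕ × ℕ × ℕ × ℕ) ∈ P.box := by simp [Pr.box]
    exact (norm_nonneg _).trans (hB _ h0)
  have hL0 : (0 : ℝ) ≤ P.L := Nat.cast_nonneg _
  have h2l : (2 : ℝ) ^ P.l ≤ Real.exp P.L := by
    have h1 : (2 : ℝ) ^ P.l ≤ 2 ^ P.L := pow_le_pow_right₀ (by norm_num) hP.hl
    have h2 : (2 : ℝ) ≤ Real.exp 1 := by have := Real.add_one_le_exp (1 : ℝ); linarith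
    calc (2 : ℝ) ^ P.l ≤ 2 ^ P.L := h1
      _ ≤ Real.exp 1 ^ P.L := by gcongr
      _ = Real.exp P.L := by rw [← Real.exp_nat_mul, mul_one]
  have hdiff : Differentiable ℂ (GG c₁ c₂ P coef t) := by
    intro w
    have h1 : AnalyticAt ℂ (fun p : ℂ × ℂ => GG c₁ c₂ P coef p.1 p.2) (t, w) :=
      GG_an2 c₁ c₂ P coef t w
    have h2 : DifferentiableAt ℂ (fun w' : ℂ => (t, w')) w :=
      (differentiableAt_const t).prodMk differentiableAt_id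
    exact (h1.differentiableAt).comp (f := fun w' : ℂ => (t, w')) w h2
  set Q : ℝ := B * Real.exp ((3 * C₀ + 1) * P.L * (1 + t.im ^ 2)) with hQ
  have hsph : ∀ w ∈ Metric.sphere t 1, ‖GG c₁ c₂ P coef t w‖ ≤ Q := by
    intro w hw
    have hw1 : ‖w - t‖ = 1 := by simpa [Metric.mem_sphere, dist_eq_norm] using hw
    have h1 := h₀ P hP B 1 0 coef le_rfl (fun i => by simp) hB t w
    rw [hw1] at h1
    have him : |w.im - t.im| ≤ 1 := by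
      have := Complex.abs_im_le_norm (w - t)
      rw [hw1] at this
      simpa using this
    have hsq : w.im ^ 2 ≤ 2 * t.im ^ 2 + 2 := by
      have h3 : (w.im - t.im) ^ 2 ≤ 1 := by
        rw [← sq_abs]
        exact pow_le_one₀ (abs_nonneg _) him
      have h4 := sq_nonneg (t.im - (w.im - t.im))
      linarith
    have h4 : Real.exp (C₀ * P.L * (1 + t.im ^ 2 + w.im ^ 2)) * (1 + 1) ^ P.l ≤
        Real.exp ((3 * C₀ + 1) * P.L * (1 + t.im ^ 2)) := by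
      have h5 : ((1 : ℝ) + 1) ^ P.l ≤ Real.exp P.L := by
        have : (1 : ℝ) + 1 = 2 := by norm_num
        rw [this]; exact h2l
      calc Real.exp (C₀ * P.L * (1 + t.im ^ 2 + w.im ^ 2)) * (1 + 1) ^ P.l
          ≤ Real.exp (C₀ * P.L * (1 + t.im ^ 2 + w.im ^ 2)) * Real.exp P.L := by gcongr
        _ = Real.exp (C₀ * P.L * (1 + t.im ^ 2 + w.im ^ 2) + P.L) := by rw [Real.exp_add]
        _ ≤ Real.exp ((3 * C₀ + 1) * P.L * (1 + t.im ^ 2)) := by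
          apply Real.exp_le_exp.mpr
          have h6 : 0 ≤ C₀ * P.L := mul_nonneg (by linarith) hL0
          exact g3_ar2 _ _ _ _ h6 hL0 hsq
    calc ‖GG c₁ c₂ P coef t w‖
        ≤ B * Real.exp (C₀ * P.L * (1 + t.im ^ 2 + w.im ^ 2)) * (1 + 1) ^ P.l := h1
      _ = B * (Real.exp (C₀ * P.L * (1 + t.im ^ 2 + w.im ^ 2)) * (1 + 1) ^ P.l) := by ring
      _ ≤ Q := by rw [hQ]; gcongr
  have hC := Complex.norm_iteratedDeriv_le_of_forall_mem_sphere_norm_le m one_pos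
    (hdiff.diffContOnCl (s := Metric.ball t 1)) hsph
  unfold gm
  rw [norm_div, Complex.norm_natCast, div_le_iff₀ (by positivity)]
  calc ‖iteratedDeriv m (GG c₁ c₂ P coef t) t‖ ≤ (m.factorial : ℝ) * Q / 1 ^ m := hC
    _ = Q * (m.factorial : ℝ) := by rw [one_pow, div_one, mul_comm]

end Pool.Agent.MSP
end

end

section

/-! # X1: extrapolation (MP_f58a57_nt, pairs) -/

open Complex Filter Topology

noncomputable section

namespace Pool.Agent.MSP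

/-- X1a. PROOF. `g = gm GG m` is entire (V3a), `1`-periodic (G1d), `‖g t‖ ≤ B exp(C₁ L (1 + t.im²))` (G3b) and has a zero of order
`≥ 2S - m ≥ S` at `1/2` (V3d). `schwarz` with `q = 1`, `R = S/(C₁ L) ≥ 1`: for `|t.im| ≤ 1`
`‖g t‖ ≤ B exp(C₁ L (1 + R²) - (2R - π) S) = B exp(C₁ L + π S - S²/(C₁ L))`, and `C₁ L + π S ≤ S²/(2 C₁ L)` if `S ≥ C L` with `C` large. -/
theorem gm_small (c₁ c₂ : Cv) : ∃ C : ℝ, 1 ≤ C ∧ ∀ (P : Pr), P.Good → ∀ (B : ℝ)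
    (coef : ℕ × ℕ × ℕ × ℕ × ℕ → ℂ), (∀ ν ∈ P.box, ‖coef ν‖ ≤ B) → ∀ S : ℕ, C * P.L ≤ S →
    (∀ r s, r + s < 2 * S → dd r s (GG c₁ c₂ P coef) (1 / 2) (1 / 2) = 0) → ∀ m < S, ∀ t : ℂ, |t.im| ≤ 1 →
    ‖gm (GG c₁ c₂ P coef) m t‖ ≤ B * Real.exp (-((S : ℝ) ^ 2 / (C * P.L))) := by
  obtain ⟨C₁, hC₁, hb⟩ := gm_bound c₁ c₂
  refine ⟨16 * C₁, by linarith, ?_⟩
  intro P hP B coef hcoef S hS hvan m hm t ht
  have hL0 : (0 : ℝ) < P.L := by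
    have := hP.hL
    exact_mod_cast this
  have hC₁0 : 0 < C₁ := by linarith
  have hCL : 0 < C₁ * P.L := by positivity
  have hB0 : 0 ≤ B := by
    have h1 := hb P hP B coef hcoef m 0
    have h2 : 0 ≤ B * Real.exp (C₁ * P.L * (1 + (0 : ℂ).im ^ 2)) := (norm_nonneg _).trans h1
    exact nonneg_of_mul_nonneg_left h2 (Real.exp_pos _)
  have hAn : ∀ t w, An2 (GG c₁ c₂ P coef) t w := fun t w => GG_an2 c₁ c₂ P coef t w
  set R : ℝ := S / (C₁ * P.L) with hRdef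
  have hRm : R * (C₁ * P.L) = S := by
    rw [hRdef]; field_simp
  have hR16 : 16 ≤ R := by
    rw [hRdef, le_div_iff₀ hCL]
    linarith
  have key := schwarz 1 S (fun _ => (1 / 2 : ℝ)) (fun i j hij => absurd (Subsingleton.elim i j) hij)
    (gm (GG c₁ c₂ P coef) m) (gm_differentiable hAn m)
    (fun t => gm_period c₁ c₂ P coef m t)
    (by
      intro j
      have h1 := order_gm hAn (((1 / 2 : ℝ) : ℂ)) (2 * S) (fun r s hrs => by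
        have := hvan r s hrs
        simpa using this) m
      refine le_trans ?_ h1
      have : S ≤ 2 * S - m := by omega
      exact_mod_cast this)
    R (B * Real.exp (C₁ * P.L * (1 + R ^ 2))) (by linarith)
    (by
      intro t' ht'
      refine (hb P hP B coef hcoef m t').trans ?_
      have h1 : t'.im ^ 2 = R ^ 2 := by rw [← ht', sq_abs]
      rw [h1])
    t (ht.trans (by linarith))
  refine key.trans ?_
  rw [mul_assoc, ← Real.exp_add]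
  refine mul_le_mul_of_nonneg_left (Real.exp_le_exp.mpr ?_) hB0
  have hpi : Real.pi ≤ 4 := Real.pi_le_four
  have hpi0 : 0 < Real.pi := Real.pi_pos
  have h1 : Real.pi * |t.im| ≤ 4 := by
    calc Real.pi * |t.im| ≤ 4 * 1 := by gcongr
      _ = 4 := by ring
  have hS2 : (S : ℝ) ^ 2 / (16 * C₁ * P.L) = R * S / 16 := by
    rw [← hRm]; field_simp
  rw [hS2]
  have h2 : (2 * R - 4) * S ≤ (2 * R - Real.pi * |t.im|) * S :=
    mul_le_mul_of_nonneg_right (by linarith) (Nat.cast_nonneg _)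
  have h3 : C₁ * P.L * (1 + R ^ 2) = C₁ * P.L + R * S := by
    rw [← hRm]; ring
  have h4 : 16 * S ≤ R * S := mul_le_mul_of_nonneg_right hR16 (Nat.cast_nonneg _)
  have h5 : C₁ * P.L ≤ S / 16 := by linarith
  rw [h3]
  simp only [Nat.cast_one, one_mul]
  have hS0 : (0 : ℝ) ≤ S := Nat.cast_nonneg _
  nlinarith [h2, h4, h5]

/-- X1b. PROOF. V3c (`dd_eq_sum`) with `dd 0 m G t t = m! gm G m t` (V3 `gm_eq`); Cauchy's inequality on the unit circle around the real point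
`x` for the `l`-th derivative of `t ↦ m! gm G m t`: `≤ l! m! B exp(-S²/(CL))`, `l + m = r + s`, `l! m! ≤ (r+s)!`, `∑ choose = 2^r`. -/
theorem extra (c₁ c₂ : Cv) : ∃ C : ℝ, 1 ≤ C ∧ ∀ (P : Pr), P.Good → ∀ (B : ℝ)
    (coef : ℕ × ℕ × ℕ × ℕ × ℕ → ℂ), (∀ ν ∈ P.box, ‖coef ν‖ ≤ B) → ∀ S : ℕ, C * P.L ≤ S →
    (∀ r s, r + s < 2 * S → dd r s (GG c₁ c₂ P coef) (1 / 2) (1 / 2) = 0) → ∀ r s, r + s < S → ∀ x : ℝ,
    ‖dd r s (GG c₁ c₂ P coef) x x‖ ≤ B * (2 ^ r * ((r + s).factorial : ℝ)) * Real.exp (-((S : ℝ) ^ 2 / (C * P.L))) := by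
  obtain ⟨C, hC, hsm⟩ := gm_small c₁ c₂
  refine ⟨C, hC, ?_⟩
  intro P hP B coef hcoef S hS hvan r s hrs x
  have hAn : ∀ t w, An2 (GG c₁ c₂ P coef) t w := fun t w => GG_an2 c₁ c₂ P coef t w
  have hsm' := hsm P hP B coef hcoef S hS hvan
  set E : ℝ := B * Real.exp (-((S : ℝ) ^ 2 / (C * P.L))) with hE
  have hE0 : 0 ≤ E := (norm_nonneg _).trans (hsm' 0 (by omega) 0 (by simp))
  set G := GG c₁ c₂ P coef with hG
  have hdd : ∀ m : ℕ, (fun t' : ℂ => dd 0 m G t' t') = fun t' => (m.factorial : ℂ) * gm G m t' := by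
    intro m
    funext t'
    rw [gm_eq, mul_div_cancel₀]
    exact_mod_cast Nat.factorial_ne_zero m
  rw [dd_eq_sum hAn r s (x : ℂ)]
  have hterm : ∀ l ∈ Finset.range (r + 1), ‖((r.choose l : ℕ) : ℂ) * (-1) ^ (r - l) *
      iteratedDeriv l (fun t' => dd 0 (s + r - l) G t' t') (x : ℂ)‖ ≤ (r.choose l : ℝ) * (((r + s).factorial : ℝ) * E) := by
    intro l hl
    have hl' : l ≤ r := by
      have := Finset.mem_range.mp hl
      omega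
    rw [norm_mul, norm_mul, norm_pow, norm_neg, norm_one, one_pow, mul_one, Complex.norm_natCast]
    refine mul_le_mul_of_nonneg_left ?_ (Nat.cast_nonneg _)
    rw [hdd]
    have hdiff : Differentiable ℂ (fun t' : ℂ => ((s + r - l).factorial : ℂ) * gm G (s + r - l) t') :=
      (gm_differentiable hAn _).const_mul _
    have hcau := Complex.norm_iteratedDeriv_le_of_forall_mem_sphere_norm_le (c := (x : ℂ)) (R := 1)
      (C := ((s + r - l).factorial : ℝ) * E) (f := fun t' : ℂ => ((s + r - l).factorial : ℂ) * gm G (s + r - l) t') l one_pos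
      hdiff.diffContOnCl
      (by
        intro z hz
        rw [norm_mul, Complex.norm_natCast]
        refine mul_le_mul_of_nonneg_left ?_ (Nat.cast_nonneg _)
        apply hsm' _ (by omega)
        have h1 : |(z - x).im| ≤ ‖z - x‖ := Complex.abs_im_le_norm _
        have h2 : ‖z - x‖ = 1 := by simpa [dist_eq_norm] using hz
        have h3 : (z - x).im = z.im := by simp
        rw [h3, h2] at h1
        exact h1)
    refine hcau.trans ?_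
    rw [one_pow, div_one, ← mul_assoc]
    refine mul_le_mul_of_nonneg_right ?_ hE0
    have h1 : l.factorial * (s + r - l).factorial ∣ (l + (s + r - l)).factorial :=
      Nat.factorial_mul_factorial_dvd_factorial_add _ _
    have h2 : l + (s + r - l) = r + s := by omega
    rw [h2] at h1
    exact_mod_cast Nat.le_of_dvd (Nat.factorial_pos _) h1
  refine (norm_sum_le _ _).trans ((Finset.sum_le_sum hterm).trans ?_)
  rw [← Finset.sum_mul]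
  have hsum : ∑ l ∈ Finset.range (r + 1), (r.choose l : ℝ) = 2 ^ r := by
    exact_mod_cast Nat.sum_range_choose r
  rw [hsum, hE]
  apply le_of_eq
  ring

end Pool.Agent.MSP
end

end

section

/-! # Z1: bound on horizontal lines (MP_f58a57_nt, pairs) -/

open Complex Filter Topology

noncomputable section

namespace Pool.Agent.MSP

/-- the derivatives of order `< T` vanish at the diagonal points `pts` -/
def Van (c₁ c₂ : Cv) (P : Pr) (coef : ℕ × ℕ × ℕ × ℕ × ℕ → ℂ) {q : ℕ} (pts : Fin q → ℝ) (T : ℕ) : Prop :=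
  ∀ j r s, r + s < T → dd r s (GG c₁ c₂ P coef) (pts j) (pts j) = 0

/-- Z1. PROOF. `g = gm GG m` is entire, `1`-periodic, `‖g t‖ ≤ B exp(C₁ L (1 + t.im²))` (G3b), of order `≥ 2S' - m ≥ S'` at every `pts j` (V3d).
`schwarz`: with `R = qS'/(2CL)`, i.e. `qS' = 2CLR`, and `|t.im| ≤ R/4`:
`‖g t‖ ≤ B exp(C L (1 + R²) - (2 - π/4) R · 2CLR)` and `2(2 - π/4) ≥ 2`. (`C₀ = C₁`.) -/
theorem line_bound (c₁ c₂ : Cv) : ∃ C₀ : ℝ, 1 ≤ C₀ ∧ ∀ C : ℝ, C₀ ≤ C → ∀ (P : Pr), P.Good → ∀ (B : ℝ)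
    (coef : ℕ × ℕ × ℕ × ℕ × ℕ → ℂ), (∀ ν ∈ P.box, ‖coef ν‖ ≤ B) → ∀ (q S' : ℕ) (pts : Fin q → ℝ),
    (∀ i j, i ≠ j → ∀ k : ℤ, pts i - pts j ≠ k) → Van c₁ c₂ P coef pts (2 * S') →
    ∀ R : ℝ, 1 ≤ R → R * (2 * C * P.L) = q * S' → ∀ m < S', ∀ t : ℂ, |t.im| ≤ R / 4 →
    ‖gm (GG c₁ c₂ P coef) m t‖ ≤ B * Real.exp (C * P.L - C * P.L * R ^ 2) := by
  obtain ⟨C₁, hC₁, hb⟩ := gm_bound c₁ c₂
  refine ⟨C₁, hC₁, ?_⟩
  intro C hC P hP B coef hcoef q S' pts hpts hvan R hR hRq m hm t ht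
  have hL0 : (0 : ℝ) ≤ P.L := Nat.cast_nonneg _
  have hB0 : 0 ≤ B := by
    have h1 := hb P hP B coef hcoef m 0
    have h2 : 0 ≤ B * Real.exp (C₁ * P.L * (1 + (0 : ℂ).im ^ 2)) := (norm_nonneg _).trans h1
    exact nonneg_of_mul_nonneg_left h2 (Real.exp_pos _)
  have hAn : ∀ t w, An2 (GG c₁ c₂ P coef) t w := fun t w => GG_an2 c₁ c₂ P coef t w
  have key := schwarz q S' pts hpts (gm (GG c₁ c₂ P coef) m) (gm_differentiable hAn m)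
    (fun t => gm_period c₁ c₂ P coef m t)
    (by
      intro j
      have h1 := order_gm hAn (pts j : ℂ) (2 * S') (fun r s hrs => hvan j r s hrs) m
      refine le_trans ?_ h1
      have : S' ≤ 2 * S' - m := by omega
      exact_mod_cast this)
    R (B * Real.exp (C * P.L * (1 + R ^ 2))) hR
    (by
      intro t' ht'
      refine (hb P hP B coef hcoef m t').trans ?_
      have h1 : t'.im ^ 2 = R ^ 2 := by rw [← ht', sq_abs]
      rw [h1]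
      gcongr)
    t (ht.trans (by linarith))
  refine key.trans ?_
  rw [mul_assoc, ← Real.exp_add]
  refine mul_le_mul_of_nonneg_left (Real.exp_le_exp.mpr ?_) hB0
  rw [← hRq]
  have hpi : Real.pi ≤ 4 := Real.pi_le_four
  have hpi0 : 0 < Real.pi := Real.pi_pos
  have hCL : 0 ≤ C * P.L := by
    have : 0 ≤ C := by linarith
    positivity
  have h1 : Real.pi * |t.im| ≤ R := by
    calc Real.pi * |t.im| ≤ 4 * (R / 4) := by gcongr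
      _ = R := by ring
  have h2 : R * (R * (2 * C * P.L)) ≤ (2 * R - Real.pi * |t.im|) * (R * (2 * C * P.L)) := by
    apply mul_le_mul_of_nonneg_right
    · linarith
    · have : 0 ≤ C := by linarith
      positivity
  nlinarith [h2]

end Pool.Agent.MSP
end

end

section

/-! # Z3: bound on the sheets (MP_f58a57_nt, pairs) -/

open Complex Filter Topology

noncomputable section

namespace Pool.Agent.MSP

/-- Z3a. The function `K z = Gs_{k(n)} t (t + z - v)` in terms of `GG` (`v = n₂τ₂ - n₁τ₁ + m`): by G1b with `m₁ = 0`, `m₂ = m`, `k = 0`, `w := t + z - v`,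
`w + m + n₂τ₂ = t' + z` with `t' = t + n₁τ₁`: `GG t' (t' + z) = (au τ₁ 0 n₁ t * au τ₂ m n₂ (t+z-v))^M * K z`, and
`au τ₂ m n₂ (t + z - v) = au τ₂ m n₂ (t - v) * exp(-2πi n₂ z)`. -/
theorem sheet_id (c₁ c₂ : Cv) (P : Pr) (coef : ℕ × ℕ × ℕ × ℕ × ℕ → ℂ) (n₁ n₂ m : ℤ) (t z : ℂ) :
    Gs c₁ c₂ P ![(m : ℂ), P.b₂ * n₁ - P.b₁ * n₂, P.a₁ * n₁ + P.a₂ * n₂] coef t
        (t + z - (n₂ * c₂.τ - n₁ * c₁.τ + m)) =
      ((au c₁.τ 0 n₁ t * au c₂.τ m n₂ (t - (n₂ * c₂.τ - n₁ * c₁.τ + m))) ^ P.M)⁻¹ *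
        cexp ((2 * Real.pi * I * n₂ * P.M) * z) * GG c₁ c₂ P coef (t + n₁ * c₁.τ) (t + n₁ * c₁.τ + z) := by
  have h := Gs_shift c₁ c₂ P 0 coef 0 n₁ m n₂ t (t + z - (n₂ * c₂.τ - n₁ * c₁.τ + m))
  have e1 : t + ((0 : ℤ) : ℂ) + n₁ * c₁.τ = t + n₁ * c₁.τ := by push_cast; ring
  have e2 : t + z - (n₂ * c₂.τ - n₁ * c₁.τ + m) + (m : ℂ) + n₂ * c₂.τ = t + n₁ * c₁.τ + z := by ring
  have e3 : (0 : Fin 3 → ℂ) + ![(m : ℂ) - ((0 : ℤ) : ℂ), P.b₂ * n₁ - P.b₁ * n₂, P.a₁ * n₁ + P.a₂ * n₂] =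
      ![(m : ℂ), P.b₂ * n₁ - P.b₁ * n₂, P.a₁ * n₁ + P.a₂ * n₂] := by
    rw [zero_add, Int.cast_zero, sub_zero]
  have e4 : au c₂.τ m n₂ (t + z - (n₂ * c₂.τ - n₁ * c₁.τ + m)) =
      au c₂.τ m n₂ (t - (n₂ * c₂.τ - n₁ * c₁.τ + m)) * cexp (-(2 * Real.pi * I * n₂) * z) := by
    unfold au
    rw [mul_assoc ((-1 : ℂ) ^ (m + n₂)), ← Complex.exp_add]
    congr 2
    ring
  rw [e1, e2, e3, e4] at h
  have h' : GG c₁ c₂ P coef (t + n₁ * c₁.τ) (t + n₁ * c₁.τ + z) = _ := h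
  rw [h', ← mul_assoc (au c₁.τ 0 n₁ t), mul_pow _ (cexp _), ← Complex.exp_nat_mul]
  have hne : (au c₁.τ 0 n₁ t * au c₂.τ m n₂ (t - (n₂ * c₂.τ - n₁ * c₁.τ + m))) ^ P.M ≠ 0 :=
    pow_ne_zero _ (mul_ne_zero (au_ne _ _ _ _) (au_ne _ _ _ _))
  have hexp : cexp ((2 * Real.pi * I * n₂ * P.M) * z) * cexp (P.M * (-(2 * Real.pi * I * n₂) * z)) = 1 := by
    rw [← Complex.exp_add, ← Complex.exp_zero]
    congr 1
    ring
  generalize (au c₁.τ 0 n₁ t * au c₂.τ m n₂ (t - (n₂ * c₂.τ - n₁ * c₁.τ + m))) ^ P.M = U at hne ⊢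
  generalize Gs c₁ c₂ P ![(m : ℂ), P.b₂ * n₁ - P.b₁ * n₂, P.a₁ * n₁ + P.a₂ * n₂] coef t
        (t + z - (n₂ * c₂.τ - n₁ * c₁.τ + m)) = V
  calc V = (U⁻¹ * U) * (cexp ((2 * Real.pi * I * n₂ * P.M) * z) * cexp (P.M * (-(2 * Real.pi * I * n₂) * z))) * V := by
        rw [inv_mul_cancel₀ hne, hexp]; ring
    _ = _ := by ring

/-- bounds for `n₂` and `m` -/
theorem z3_n2 (c₁ c₂ : Cv) (X R₀ : ℝ) (hR₀ : R₀ ≤ X) (n₁ n₂ m : ℤ) (hn₁ : |(n₁ : ℝ)| ≤ X)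
    (hv : ‖(n₂ * c₂.τ - n₁ * c₁.τ + m : ℂ)‖ ≤ R₀) :
    |(n₂ : ℝ)| ≤ (1 + c₁.τ.im) / c₂.τ.im * X ∧
      |(m : ℝ)| ≤ (1 + (1 + c₁.τ.im) / c₂.τ.im * ‖c₂.τ‖ + ‖c₁.τ‖) * X := by
  have h1 := c₁.im
  have h2 := c₂.im
  have him : (n₂ * c₂.τ - n₁ * c₁.τ + m : ℂ).im = n₂ * c₂.τ.im - n₁ * c₁.τ.im := by simp
  have h3 : |n₂ * c₂.τ.im - n₁ * c₁.τ.im| ≤ R₀ := by
    rw [← him]; exact (Complex.abs_im_le_norm _).trans hv
  have h4 : |(n₂ : ℝ)| * c₂.τ.im ≤ (1 + c₁.τ.im) * X := by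
    have h5 : |(n₂ : ℝ) * c₂.τ.im| ≤ |n₂ * c₂.τ.im - n₁ * c₁.τ.im| + |(n₁ : ℝ) * c₁.τ.im| := by
      have := abs_add_le (n₂ * c₂.τ.im - n₁ * c₁.τ.im) ((n₁ : ℝ) * c₁.τ.im)
      simpa using this
    rw [abs_mul, abs_mul, abs_of_pos h1, abs_of_pos h2] at h5
    have h6 : |(n₁ : ℝ)| * c₁.τ.im ≤ X * c₁.τ.im := mul_le_mul_of_nonneg_right hn₁ h1.le
    linarith
  have h7 : |(n₂ : ℝ)| ≤ (1 + c₁.τ.im) / c₂.τ.im * X := by
    rw [div_mul_eq_mul_div, le_div_iff₀ h2]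
    exact h4
  refine ⟨h7, ?_⟩
  have h8 : ‖(m : ℂ)‖ ≤ ‖(n₂ * c₂.τ - n₁ * c₁.τ + m : ℂ)‖ + ‖(n₂ * c₂.τ : ℂ)‖ + ‖(n₁ * c₁.τ : ℂ)‖ := by
    have e : (m : ℂ) = (n₂ * c₂.τ - n₁ * c₁.τ + m : ℂ) - n₂ * c₂.τ + n₁ * c₁.τ := by ring
    calc ‖(m : ℂ)‖ = ‖(n₂ * c₂.τ - n₁ * c₁.τ + m : ℂ) - n₂ * c₂.τ + n₁ * c₁.τ‖ := by rw [← e]
      _ ≤ ‖(n₂ * c₂.τ - n₁ * c₁.τ + m : ℂ) - n₂ * c₂.τ‖ + ‖(n₁ * c₁.τ : ℂ)‖ := norm_add_le _ _
      _ ≤ _ := by gcongr; exact norm_sub_le _ _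
  rw [Complex.norm_intCast, norm_mul, norm_mul, Complex.norm_intCast, Complex.norm_intCast] at h8
  have h9 : |(n₂ : ℝ)| * ‖c₂.τ‖ ≤ (1 + c₁.τ.im) / c₂.τ.im * X * ‖c₂.τ‖ := mul_le_mul_of_nonneg_right h7 (norm_nonneg _)
  have h10 : |(n₁ : ℝ)| * ‖c₁.τ‖ ≤ X * ‖c₁.τ‖ := mul_le_mul_of_nonneg_right hn₁ (norm_nonneg _)
  calc |(m : ℝ)| ≤ R₀ + (1 + c₁.τ.im) / c₂.τ.im * X * ‖c₂.τ‖ + X * ‖c₁.τ‖ := by linarith
    _ ≤ X + (1 + c₁.τ.im) / c₂.τ.im * X * ‖c₂.τ‖ + X * ‖c₁.τ‖ := by linarith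
    _ = _ := by ring

/-- bound for the factor of automorphy -/
theorem z3_au (τ : ℂ) (hτ : 0 < τ.im) (m n : ℤ) (t : ℂ) (a b : ℝ) (hn : |(n : ℝ)| ≤ a) (ht : |t.im| ≤ b) :
    ‖au τ m n t‖⁻¹ ≤ Real.exp (2 * Real.pi * (a * b)) := by
  rw [norm_au, ← Real.exp_neg]
  refine Real.exp_le_exp.mpr ?_
  have h1 : 0 ≤ Real.pi * (n : ℝ) ^ 2 * τ.im := by positivity
  have h2 : |(n : ℝ) * t.im| ≤ a * b := by
    rw [abs_mul]
    exact mul_le_mul hn ht (abs_nonneg _) ((abs_nonneg _).trans hn)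
  have h3 : -((n : ℝ) * t.im) ≤ a * b := (neg_le_abs _).trans h2
  have h4 : Real.pi * (-((n : ℝ) * t.im)) ≤ Real.pi * (a * b) := mul_le_mul_of_nonneg_left h3 Real.pi_pos.le
  linarith

/-- the Taylor coefficients of `z ↦ G t (t + z)` -/
theorem z3_gm (G : ℂ → ℂ → ℂ) (m : ℕ) (t : ℂ) :
    iteratedDeriv m (fun z => G t (t + z)) 0 / (m.factorial : ℂ) = gm G m t := by
  unfold gm
  rw [iteratedDeriv_comp_const_add]
  simp

theorem z3_pow (S' : ℕ) (r ρ₀ X : ℝ) (hX : 1 ≤ X) (hr0 : 0 ≤ r) (hr : r ≤ (2 * ρ₀ + 1) * X) :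
    (S' : ℝ) * r ^ S' ≤ Real.exp ((2 * ρ₀ + 2) * X * S') := by
  have hS0 : (0 : ℝ) ≤ S' := Nat.cast_nonneg _
  have h2 : (S' : ℝ) ≤ Real.exp S' := by
    have := Real.add_one_le_exp (S' : ℝ)
    linarith
  have h3 : r ^ S' ≤ Real.exp (S' * r) := by
    rw [Real.exp_nat_mul]
    refine pow_le_pow_left₀ hr0 ?_ _
    have := Real.add_one_le_exp r
    linarith
  have h4 : (S' : ℝ) * r ≤ S' * ((2 * ρ₀ + 1) * X) := mul_le_mul_of_nonneg_left hr hS0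
  have h5 : (S' : ℝ) * 1 ≤ S' * X := mul_le_mul_of_nonneg_left hX hS0
  calc (S' : ℝ) * r ^ S' ≤ Real.exp S' * Real.exp (S' * r) := mul_le_mul h2 h3 (pow_nonneg hr0 _) (Real.exp_pos _).le
    _ = Real.exp (S' + S' * r) := by rw [Real.exp_add]
    _ ≤ Real.exp ((2 * ρ₀ + 2) * X * S') := by
      refine Real.exp_le_exp.mpr ?_
      linarith [h4, h5]

theorem z3_R (C₀ C X L R S q : ℝ) (hC₀ : 0 < C₀) (hC : 0 ≤ C) (hX : 0 ≤ X) (hL : 0 < L) (hS : 0 ≤ S) (hq : 1 ≤ q)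
    (hR : C * X / (2 * C₀) ≤ R) (hRm : R * (2 * C₀ * L) = q * S) :
    C / (8 * C₀) * C * L * X ^ 2 + C / (8 * C₀) * X * S ≤ C₀ * L * R ^ 2 := by
  have h0 : 0 ≤ C * X / (2 * C₀) := by positivity
  have hR0 : 0 ≤ R := h0.trans hR
  have h7 : C / (8 * C₀) * C * L * X ^ 2 ≤ 1 / 2 * (C₀ * L * R ^ 2) := by
    have h8 : (C * X / (2 * C₀)) ^ 2 ≤ R ^ 2 := pow_le_pow_left₀ h0 hR 2
    calc C / (8 * C₀) * C * L * X ^ 2 = 1 / 2 * (C₀ * L * (C * X / (2 * C₀)) ^ 2) := by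
          field_simp
          ring
      _ ≤ 1 / 2 * (C₀ * L * R ^ 2) := by gcongr
  have h9 : C / (8 * C₀) * X * S ≤ 1 / 2 * (C₀ * L * R ^ 2) := by
    calc C / (8 * C₀) * X * S = 1 / 4 * ((C * X / (2 * C₀)) * (1 * S)) := by
          field_simp
          ring
      _ ≤ 1 / 4 * (R * (q * S)) := by gcongr
      _ = 1 / 2 * (C₀ * L * R ^ 2) := by rw [← hRm]; ring
  linarith

theorem z3_exp (C₀ C X L K₁ K₂ K₃ K₇ S Y : ℝ) (hC₀ : 1 ≤ C₀) (hC : 1 ≤ C) (hX : 1 ≤ X) (hL : 1 ≤ L) (hS : 0 ≤ S)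
    (hK₁ : 0 ≤ K₁) (hK₂ : 0 ≤ K₂) (hK₃ : 0 ≤ K₃) (hK₇ : K₇ = 3 + C₀ + K₁ + K₂ + K₃) (hC8 : 8 * C₀ * K₇ ≤ C)
    (hY : C / (8 * C₀) * C * L * X ^ 2 + C / (8 * C₀) * X * S ≤ Y) :
    2 + C₀ * L - Y + K₁ * L * X ^ 2 + K₂ * L * X ^ 2 + K₃ * X * S ≤ -S := by
  have hK7C : K₇ ≤ C / (8 * C₀) := by
    rw [le_div_iff₀ (by positivity)]
    linarith
  have hX2 : (1 : ℝ) ≤ X ^ 2 := one_le_pow₀ hX
  have hLX : (1 : ℝ) ≤ L * X ^ 2 := by
    calc (1 : ℝ) = 1 * 1 := by ring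
      _ ≤ L * X ^ 2 := mul_le_mul hL hX2 (by norm_num) (by linarith)
  have hLX0 : 0 ≤ L * X ^ 2 := by linarith
  have hXS : 0 ≤ X * S := by positivity
  have hCC : 0 ≤ C / (8 * C₀) := by positivity
  have h11 : K₇ * (L * X ^ 2) ≤ C / (8 * C₀) * C * L * X ^ 2 := by
    calc K₇ * (L * X ^ 2) ≤ C / (8 * C₀) * (L * X ^ 2) := mul_le_mul_of_nonneg_right hK7C hLX0
      _ = C / (8 * C₀) * 1 * (L * X ^ 2) := by ring
      _ ≤ C / (8 * C₀) * C * (L * X ^ 2) := by gcongr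
      _ = _ := by ring
  have h12 : K₇ * (X * S) ≤ C / (8 * C₀) * X * S := by
    calc K₇ * (X * S) ≤ C / (8 * C₀) * (X * S) := mul_le_mul_of_nonneg_right hK7C hXS
      _ = _ := by ring
  have h13 : S ≤ X * S := by
    calc S = 1 * S := by ring
      _ ≤ X * S := mul_le_mul_of_nonneg_right hX hS
  have h14 : C₀ * L ≤ C₀ * (L * X ^ 2) := by
    refine mul_le_mul_of_nonneg_left ?_ (by linarith)
    calc L = L * 1 := by ring
      _ ≤ L * X ^ 2 := mul_le_mul_of_nonneg_left hX2 (by linarith)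
  have h15 : (2 + C₀ + K₁ + K₂) * (L * X ^ 2) ≤ K₇ * (L * X ^ 2) := by
    refine mul_le_mul_of_nonneg_right ?_ hLX0
    rw [hK₇]; linarith
  have h16 : (K₃ + 1) * (X * S) ≤ K₇ * (X * S) := by
    refine mul_le_mul_of_nonneg_right ?_ hXS
    rw [hK₇]; linarith
  have h17 : (2 + C₀ + K₁ + K₂) * (L * X ^ 2) = 2 * (L * X ^ 2) + C₀ * (L * X ^ 2) + K₁ * L * X ^ 2 + K₂ * L * X ^ 2 := by ring
  have h18 : (K₃ + 1) * (X * S) = K₃ * X * S + X * S := by ring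
  linarith

theorem z3_four : (4 : ℝ) ≤ Real.exp 2 := by
  have h21 : (2 : ℝ) ≤ Real.exp 1 := by
    have := Real.add_one_le_exp (1 : ℝ)
    linarith
  have h22 : Real.exp 2 = Real.exp 1 * Real.exp 1 := by
    rw [← Real.exp_add]; norm_num
  rw [h22]
  nlinarith

theorem z3_total (B S c e α' w a1 a2 a3 a4 : ℝ) (hB : 0 ≤ B) (hS : 1 ≤ S) (hc : c ≤ Real.exp a1)
    (hα : α' ≤ a2) (hw0 : 0 ≤ w) (hw : w ≤ Real.exp a3) (he : e = B * Real.exp a4)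
    (h : 2 + a4 + a1 + a2 + a3 ≤ -S) :
    2 * c * e * Real.exp α' * w + B * Real.exp (S / 2) * Real.exp (-(3 / 2 * S)) ≤ B * Real.exp (-(S / 2)) := by
  have hfirst : 2 * c * e * Real.exp α' * w ≤ 1 / 2 * B * Real.exp (-S) := by
    have he0 : 0 ≤ B * Real.exp a4 := by positivity
    have h1 : c * Real.exp α' ≤ Real.exp a1 * Real.exp a2 :=
      mul_le_mul hc (Real.exp_le_exp.mpr hα) (Real.exp_pos _).le (Real.exp_pos _).le
    have h2 : c * Real.exp α' * w ≤ Real.exp a1 * Real.exp a2 * Real.exp a3 :=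
      mul_le_mul h1 hw hw0 (by positivity)
    have h3 : Real.exp a1 * Real.exp a2 * Real.exp a3 * Real.exp a4 * 4 ≤ Real.exp (-S) := by
      calc Real.exp a1 * Real.exp a2 * Real.exp a3 * Real.exp a4 * 4
          ≤ Real.exp a1 * Real.exp a2 * Real.exp a3 * Real.exp a4 * Real.exp 2 :=
            mul_le_mul_of_nonneg_left z3_four (by positivity)
        _ = Real.exp (2 + a4 + a1 + a2 + a3) := by simp only [Real.exp_add]; ring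
        _ ≤ Real.exp (-S) := Real.exp_le_exp.mpr h
    rw [he]
    calc 2 * c * (B * Real.exp a4) * Real.exp α' * w = 2 * (B * Real.exp a4) * (c * Real.exp α' * w) := by ring
      _ ≤ 2 * (B * Real.exp a4) * (Real.exp a1 * Real.exp a2 * Real.exp a3) :=
          mul_le_mul_of_nonneg_left h2 (by positivity)
      _ = 1 / 2 * B * (Real.exp a1 * Real.exp a2 * Real.exp a3 * Real.exp a4 * 4) := by ring
      _ ≤ 1 / 2 * B * Real.exp (-S) := mul_le_mul_of_nonneg_left h3 (by positivity)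
  have hsecond : B * Real.exp (S / 2) * Real.exp (-(3 / 2 * S)) = B * Real.exp (-S) := by
    rw [mul_assoc, ← Real.exp_add]
    congr 2
    ring
  have hlast : 3 / 2 * Real.exp (-S) ≤ Real.exp (-(S / 2)) := by
    have h1 : (3 / 2 : ℝ) ≤ Real.exp (S / 2) := by
      have := Real.add_one_le_exp (S / 2)
      linarith
    calc 3 / 2 * Real.exp (-S) ≤ Real.exp (S / 2) * Real.exp (-S) :=
          mul_le_mul_of_nonneg_right h1 (Real.exp_pos _).le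
      _ = Real.exp (-(S / 2)) := by
        rw [← Real.exp_add]
        congr 1
        ring
  have h9 : B * (3 / 2 * Real.exp (-S)) ≤ B * Real.exp (-(S / 2)) := mul_le_mul_of_nonneg_left hlast hB
  linarith

theorem z3_lin (a b X : ℝ) (ha : 0 ≤ a) (hX : 1 ≤ X) : a + X * b ≤ (a + b) * X := by
  nlinarith

theorem z3_cnum (π' ρ₀ κ₂ X R₀ M L : ℝ) (hπ : 0 ≤ π') (hρ : 0 < ρ₀) (hκ : 0 ≤ κ₂) (hX : 1 ≤ X) (hR : R₀ ≤ X) (hR0 : 0 ≤ R₀)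
    (hM0 : 0 ≤ M) (hM : M ≤ 3 * L) (hL : 0 ≤ L) :
    M * (2 * π' * (X * ρ₀) + 2 * π' * (κ₂ * X * (ρ₀ + R₀))) ≤ 6 * π' * (ρ₀ + κ₂ * (ρ₀ + 1)) * L * X ^ 2 := by
  have hX0 : 0 ≤ X := by linarith
  have h6 : ρ₀ + R₀ ≤ (ρ₀ + 1) * X := by
    have := z3_lin ρ₀ 1 X hρ.le hX
    linarith
  have h7 : κ₂ * X * (ρ₀ + R₀) ≤ κ₂ * X * ((ρ₀ + 1) * X) := mul_le_mul_of_nonneg_left h6 (by positivity)
  have hXX : X ≤ X ^ 2 := by
    calc X = X * 1 := by ring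
      _ ≤ X * X := mul_le_mul_of_nonneg_left hX hX0
      _ = X ^ 2 := by ring
  have h8 : X * ρ₀ ≤ X ^ 2 * ρ₀ := mul_le_mul_of_nonneg_right hXX hρ.le
  have h9 : X * ρ₀ + κ₂ * X * (ρ₀ + R₀) ≤ (ρ₀ + κ₂ * (ρ₀ + 1)) * X ^ 2 := by
    have : (ρ₀ + κ₂ * (ρ₀ + 1)) * X ^ 2 = X ^ 2 * ρ₀ + κ₂ * X * ((ρ₀ + 1) * X) := by ring
    linarith
  calc M * (2 * π' * (X * ρ₀) + 2 * π' * (κ₂ * X * (ρ₀ + R₀))) = M * (2 * π') * (X * ρ₀ + κ₂ * X * (ρ₀ + R₀)) := by ring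
    _ ≤ (3 * L) * (2 * π') * ((ρ₀ + κ₂ * (ρ₀ + 1)) * X ^ 2) := by gcongr
    _ = _ := by ring

theorem z3_sq (ρ₀ R₀ a b : ℝ) (hR : 1 ≤ R₀) (ha : a ≤ ρ₀ ^ 2) (hb : b ≤ ((15 * ρ₀ + 8) * R₀) ^ 2) :
    1 + a + b ≤ (1 + ρ₀ ^ 2 + (15 * ρ₀ + 8) ^ 2) * R₀ ^ 2 := by
  have h6 : (1 : ℝ) ≤ R₀ ^ 2 := one_le_pow₀ hR
  have h8 : 1 + ρ₀ ^ 2 ≤ (1 + ρ₀ ^ 2) * R₀ ^ 2 := by
    calc 1 + ρ₀ ^ 2 = (1 + ρ₀ ^ 2) * 1 := by ring
      _ ≤ (1 + ρ₀ ^ 2) * R₀ ^ 2 := mul_le_mul_of_nonneg_left h6 (by positivity)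
  have h9 : (1 + ρ₀ ^ 2 + (15 * ρ₀ + 8) ^ 2) * R₀ ^ 2 = (1 + ρ₀ ^ 2) * R₀ ^ 2 + ((15 * ρ₀ + 8) * R₀) ^ 2 := by ring
  linarith

theorem z3_r1 (ρ₀ R₀ : ℝ) (hρ : 0 ≤ ρ₀) (hR : 1 ≤ R₀) : ρ₀ + 7 * ((2 * ρ₀ + 1) * R₀) + R₀ ≤ (15 * ρ₀ + 8) * R₀ := by
  nlinarith

theorem z3_r2 (ρ₀ R₀ : ℝ) (hρ : 0 ≤ ρ₀) (hR : 1 ≤ R₀) : ρ₀ + ρ₀ + R₀ ≤ (2 * ρ₀ + 1) * R₀ := by
  nlinarith


private theorem z3s_const (C₀ K₅ K₆ K₇ s : ℝ) (hC₀ : 1 ≤ C₀) (h5 : 0 ≤ K₅) (h6 : 0 ≤ K₆) (h7 : 1 ≤ K₇) (hs : 0 ≤ s) :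
    ∃ C : ℝ, 8 * C₀ * K₇ ≤ C ∧ 4 * K₅ ≤ C ∧ K₆ ≤ C ∧ 8 * C₀ * s ≤ C ∧ 2 * C₀ ≤ C ∧ 1 ≤ C := by
  have a : 0 ≤ C₀ * s := mul_nonneg (by linarith) hs
  have b : C₀ * 1 ≤ C₀ * K₇ := mul_le_mul_of_nonneg_left h7 (by linarith)
  exact ⟨8 * (C₀ * K₇) + 4 * K₅ + K₆ + 8 * (C₀ * s), by linarith, by linarith, by linarith, by linarith,
    by linarith, by linarith⟩

private theorem z3s_R (C₀ C X L q S : ℝ) (hC₀ : 0 < C₀) (hL : 0 < L) (hX : 1 ≤ X) (hC : 2 * C₀ ≤ C)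
    (hq : C * X * L ≤ q * S) :
    ∃ R : ℝ, R * (2 * C₀ * L) = q * S ∧ C * X / (2 * C₀) ≤ R ∧ 1 ≤ R := by
  have hCL : 0 < 2 * C₀ * L := mul_pos (mul_pos two_pos hC₀) hL
  have h1 : C * X / (2 * C₀) ≤ q * S / (2 * C₀ * L) := by
    rw [div_le_div_iff₀ (mul_pos two_pos hC₀) hCL]
    have := mul_le_mul_of_nonneg_right hq (mul_pos two_pos hC₀).le
    linarith
  refine ⟨q * S / (2 * C₀ * L), div_mul_cancel₀ _ hCL.ne', h1, le_trans ?_ h1⟩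
  rw [le_div_iff₀ (mul_pos two_pos hC₀)]
  have : C * 1 ≤ C * X := mul_le_mul_of_nonneg_left hX (by linarith)
  linarith

private theorem z3s_q (C X L q S : ℝ) (q' : ℕ) (hq' : q = q') (hC : 0 < C) (hX : 0 < X) (hL : 0 < L)
    (hq : C * X * L ≤ q * S) : 1 ≤ q := by
  have h1 : 0 < C * X * L := mul_pos (mul_pos hC hX) hL
  have h3 : 0 < q' := by
    rcases Nat.eq_zero_or_pos q' with h | h
    · rw [hq', h, Nat.cast_zero, zero_mul] at hq; linarith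
    · exact h
  rw [hq']
  exact_mod_cast h3

private theorem z3s_S (C L R₀ S : ℝ) (hC : 1 ≤ C) (hL : 1 ≤ L) (hR : 1 ≤ R₀) (hS : C * L * R₀ ^ 2 ≤ S) : 1 ≤ S := by
  have h1 : (1 : ℝ) ≤ R₀ ^ 2 := one_le_pow₀ hR
  have h2 : (1 : ℝ) ≤ C * L := one_le_mul_of_one_le_of_one_le hC hL
  exact (one_le_mul_of_one_le_of_one_le h2 h1).trans hS

private theorem z3s_t (C₀ C X R ρ₀ y : ℝ) (t τ : ℂ) (n₁ : ℤ) (hC₀ : 0 < C₀) (hX : 1 ≤ X) (hρ : 0 ≤ ρ₀)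
    (hy : 0 < y) (hτ : τ.im = y) (hn : |(n₁ : ℝ)| ≤ X) (ht : ‖t‖ ≤ ρ₀) (hC : 8 * C₀ * (ρ₀ + y) ≤ C)
    (hR : C * X / (2 * C₀) ≤ R) : |(t + n₁ * τ).im| ≤ R / 4 := by
  have h1 : (t + n₁ * τ).im = t.im + n₁ * y := by rw [← hτ]; simp
  have h2 : |(n₁ : ℝ) * y| ≤ X * y := by
    rw [abs_mul, abs_of_pos hy]
    exact mul_le_mul_of_nonneg_right hn hy.le
  have h3 : ρ₀ * 1 ≤ ρ₀ * X := mul_le_mul_of_nonneg_left hX hρ
  have h4 : (ρ₀ + y) * X ≤ C * X / (2 * C₀) / 4 := by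
    rw [div_div, le_div_iff₀ (mul_pos (mul_pos two_pos hC₀) (by norm_num))]
    have := mul_le_mul_of_nonneg_right hC (zero_le_one.trans hX)
    linarith
  rw [h1]
  refine (abs_add_le _ _).trans ?_
  have h5 := (Complex.abs_im_le_norm t).trans ht
  linarith

private theorem z3s_c (a b : ℂ) (M : ℕ) (u v : ℝ) (ha : ‖a‖⁻¹ ≤ Real.exp u) (hb : ‖b‖⁻¹ ≤ Real.exp v) :
    ‖((a * b) ^ M)⁻¹‖ ≤ Real.exp (M * (u + v)) := by
  have h3 : ‖((a * b) ^ M)⁻¹‖ = (‖a‖⁻¹ * ‖b‖⁻¹) ^ M := by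
    rw [norm_inv, norm_pow, norm_mul, mul_pow, mul_inv, mul_pow, inv_pow, inv_pow]
  have h0 : 0 ≤ ‖a‖⁻¹ := inv_nonneg.mpr (norm_nonneg _)
  have h0' : 0 ≤ ‖b‖⁻¹ := inv_nonneg.mpr (norm_nonneg _)
  rw [h3, Real.exp_nat_mul, Real.exp_add]
  exact pow_le_pow_left₀ (mul_nonneg h0 h0') (mul_le_mul ha hb h0' (Real.exp_pos _).le) _

private theorem z3s_hc (c₁ c₂ : Cv) (M : ℕ) (n₁ n₂ m : ℤ) (t v : ℂ) (κ₂ X R₀ ρ₀ L : ℝ) (hκ₂ : 0 ≤ κ₂) (hρ : 0 < ρ₀)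
    (hX : 1 ≤ X) (hRX : R₀ ≤ X) (hR₀ : 0 ≤ R₀) (hM : (M : ℝ) ≤ 3 * L) (hL : 0 ≤ L) (hn₁ : |(n₁ : ℝ)| ≤ X)
    (hn₂ : |(n₂ : ℝ)| ≤ κ₂ * X) (ht : ‖t‖ ≤ ρ₀) (hv : ‖v‖ ≤ R₀) :
    ‖((au c₁.τ 0 n₁ t * au c₂.τ m n₂ (t - v)) ^ M)⁻¹‖ ≤
      Real.exp (6 * Real.pi * (ρ₀ + κ₂ * (ρ₀ + 1)) * L * X ^ 2) := by
  have h1 : ‖au c₁.τ 0 n₁ t‖⁻¹ ≤ Real.exp (2 * Real.pi * (X * ρ₀)) :=
    z3_au _ c₁.im _ _ _ _ _ hn₁ ((Complex.abs_im_le_norm _).trans ht)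
  have h2 : ‖au c₂.τ m n₂ (t - v)‖⁻¹ ≤ Real.exp (2 * Real.pi * (κ₂ * X * (ρ₀ + R₀))) :=
    z3_au _ c₂.im _ _ _ _ _ hn₂ ((Complex.abs_im_le_norm _).trans ((norm_sub_le _ _).trans (add_le_add ht hv)))
  exact (z3s_c _ _ M _ _ h1 h2).trans (Real.exp_le_exp.mpr
    (z3_cnum Real.pi ρ₀ κ₂ X R₀ M L Real.pi_pos.le hρ hκ₂ hX hRX hR₀ (Nat.cast_nonneg _) hM hL))

private theorem z3s_α (n₂ : ℤ) (M : ℕ) (κ₂ X ρ₀ L r : ℝ) (hκ₂ : 0 ≤ κ₂) (hX : 1 ≤ X)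
    (hM : (M : ℝ) ≤ 3 * L) (hL : 0 ≤ L) (hn₂ : |(n₂ : ℝ)| ≤ κ₂ * X) (hr0 : 0 ≤ r) (hr : r ≤ (2 * ρ₀ + 1) * X) :
    7 * ‖(2 * Real.pi * I * n₂ * M : ℂ)‖ * r ≤ 42 * Real.pi * κ₂ * (2 * ρ₀ + 1) * L * X ^ 2 := by
  have hpi := Real.pi_pos
  have h1 : ‖(2 * Real.pi * I * n₂ * M : ℂ)‖ = 2 * Real.pi * (|(n₂ : ℝ)| * M) := by
    rw [norm_mul, norm_mul, norm_mul, norm_mul, Complex.norm_intCast, Complex.norm_natCast, Complex.norm_I,
      Complex.norm_real, Real.norm_eq_abs, abs_of_pos hpi, Complex.norm_two, mul_one, mul_assoc]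
  have h2 : |(n₂ : ℝ)| * M ≤ κ₂ * X * (3 * L) :=
    mul_le_mul hn₂ hM (Nat.cast_nonneg _) (mul_nonneg hκ₂ (zero_le_one.trans hX))
  have h3 : |(n₂ : ℝ)| * M * r ≤ κ₂ * X * (3 * L) * ((2 * ρ₀ + 1) * X) :=
    mul_le_mul h2 hr hr0 (mul_nonneg (mul_nonneg hκ₂ (zero_le_one.trans hX)) (by linarith))
  have h4 := mul_le_mul_of_nonneg_left h3 hpi.le
  rw [h1]
  calc 7 * (2 * Real.pi * (|(n₂ : ℝ)| * M)) * r = 14 * (Real.pi * (|(n₂ : ℝ)| * M * r)) := by ring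
    _ ≤ 14 * (Real.pi * (κ₂ * X * (3 * L) * ((2 * ρ₀ + 1) * X))) := by linarith
    _ = _ := by ring

private theorem z3s_kk (A κ X : ℝ) (a₁ a₂ b₁ b₂ n₁ n₂ m : ℤ) (hA : 2 ≤ A) (hA1 : |(a₁ : ℝ)| + |(a₂ : ℝ)| ≤ A)
    (hA2 : |(b₁ : ℝ)| + |(b₂ : ℝ)| ≤ A) (hn₁ : |(n₁ : ℝ)| ≤ κ * X) (hn₂ : |(n₂ : ℝ)| ≤ κ * X)
    (hm : |(m : ℝ)| ≤ κ * X) (i : Fin 3) :
    ‖(![(m : ℂ), b₂ * n₁ - b₁ * n₂, a₁ * n₁ + a₂ * n₂] : Fin 3 → ℂ) i‖ ≤ A * κ * X := by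
  have hY0 : 0 ≤ κ * X := (abs_nonneg _).trans hn₁
  rw [mul_assoc]
  have key : ∀ (a b n n' : ℤ) (z : ℂ), (z = a * n - b * n' ∨ z = a * n + b * n') → |(n : ℝ)| ≤ κ * X →
      |(n' : ℝ)| ≤ κ * X → |(a : ℝ)| + |(b : ℝ)| ≤ A → ‖z‖ ≤ A * (κ * X) := by
    intro a b n n' z hz hn hn' hab
    have h1 : ‖z‖ ≤ ‖(a * n : ℂ)‖ + ‖(b * n' : ℂ)‖ := by
      rcases hz with h | h
      · rw [h]; exact norm_sub_le _ _
      · rw [h]; exact norm_add_le _ _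
    rw [norm_mul, norm_mul, Complex.norm_intCast, Complex.norm_intCast, Complex.norm_intCast,
      Complex.norm_intCast] at h1
    have h2 := mul_le_mul_of_nonneg_left hn (abs_nonneg (a : ℝ))
    have h3 := mul_le_mul_of_nonneg_left hn' (abs_nonneg (b : ℝ))
    have h4 := mul_le_mul_of_nonneg_right hab hY0
    linarith
  match i with
  | 0 =>
    change ‖(m : ℂ)‖ ≤ _
    rw [Complex.norm_intCast]
    have := mul_le_mul_of_nonneg_right hA hY0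
    linarith
  | 1 =>
    change ‖(b₂ * n₁ - b₁ * n₂ : ℂ)‖ ≤ _
    exact key b₂ b₁ n₁ n₂ _ (Or.inl rfl) hn₁ hn₂ (by linarith)
  | 2 =>
    change ‖(a₁ * n₁ + a₂ * n₂ : ℂ)‖ ≤ _
    exact key a₁ a₂ n₁ n₂ _ (Or.inr rfl) hn₁ hn₂ hA1

private theorem z3s_A (P : Pr) : 2 ≤ P.A ∧ |(P.a₁ : ℝ)| + |(P.a₂ : ℝ)| ≤ P.A ∧
    |(P.b₁ : ℝ)| + |(P.b₂ : ℝ)| ≤ P.A := by
  unfold Pr.A
  have h1 := abs_nonneg (P.a₁ : ℝ)
  have h2 := abs_nonneg (P.a₂ : ℝ)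
  have h3 := abs_nonneg (P.b₁ : ℝ)
  have h4 := abs_nonneg (P.b₂ : ℝ)
  exact ⟨by linarith, by linarith, by linarith⟩

private theorem z3s_im (ρ₀ R₀ r : ℝ) (t z v : ℂ) (ht : ‖t‖ ≤ ρ₀) (hv : ‖v‖ ≤ R₀) (hr : r = (2 * ρ₀ + 1) * R₀)
    (hz : ‖z‖ ≤ 7 * r) (hρ : 0 < ρ₀) (hR₀ : 1 ≤ R₀) :
    1 + t.im ^ 2 + (t + z - v).im ^ 2 ≤ (1 + ρ₀ ^ 2 + (15 * ρ₀ + 8) ^ 2) * R₀ ^ 2 := by
  have h1 : t.im ^ 2 ≤ ρ₀ ^ 2 := by
    rw [← sq_abs]
    exact pow_le_pow_left₀ (abs_nonneg _) ((Complex.abs_im_le_norm _).trans ht) 2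
  have h2 : ‖t + z - v‖ ≤ (15 * ρ₀ + 8) * R₀ := by
    have a := norm_sub_le (t + z) v
    have b := norm_add_le t z
    have c := z3_r1 ρ₀ R₀ hρ.le hR₀
    rw [hr] at hz
    linarith
  have h3 : (t + z - v).im ^ 2 ≤ ((15 * ρ₀ + 8) * R₀) ^ 2 := by
    rw [← sq_abs]
    exact pow_le_pow_left₀ (abs_nonneg _) ((Complex.abs_im_le_norm _).trans h2) 2
  exact z3_sq ρ₀ R₀ _ _ hR₀ h1 h3

private theorem z3s_E (C₁ C K K₅ L R₀ S Y : ℝ) (hC₁ : 0 ≤ C₁) (hL : 0 ≤ L) (hK₅ : K₅ = C₁ * K) (hC : 4 * K₅ ≤ C)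
    (hS : C * L * R₀ ^ 2 ≤ S) (hY : Y ≤ K * R₀ ^ 2) : C₁ * L * Y ≤ S / 4 := by
  have h1 : C₁ * L * Y ≤ C₁ * L * (K * R₀ ^ 2) := mul_le_mul_of_nonneg_left hY (mul_nonneg hC₁ hL)
  have h2 : 4 * K₅ * (L * R₀ ^ 2) ≤ C * (L * R₀ ^ 2) :=
    mul_le_mul_of_nonneg_right hC (mul_nonneg hL (sq_nonneg _))
  have h3 : C₁ * L * (K * R₀ ^ 2) = K₅ * (L * R₀ ^ 2) := by rw [hK₅]; ring
  linarith

private theorem z3s_base (A κ a K₆ C X R₀ r y : ℝ) (t z v : ℂ) (hv : ‖v‖ ≤ R₀) (hz : ‖z‖ ≤ 7 * r)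
    (hr : 7 * r + R₀ = a * R₀) (ha : 0 ≤ a) (hRX : R₀ ≤ X) (hX : 0 ≤ X) (hA : 1 ≤ A) (hK₆ : K₆ = κ + a) (hC : K₆ ≤ C)
    (hy : y = ‖(t + z - v) - t‖) : A * κ * X + y ≤ C * A * X := by
  have e : (t + z - v) - t = z - v := by ring
  rw [e] at hy
  have h1 := norm_sub_le z v
  have h2 : a * R₀ ≤ a * X := mul_le_mul_of_nonneg_left hRX ha
  have h3 : 1 * (a * X) ≤ A * (a * X) := mul_le_mul_of_nonneg_right hA (mul_nonneg ha hX)
  have h4 : K₆ * (A * X) ≤ C * (A * X) := mul_le_mul_of_nonneg_right hC (mul_nonneg (by linarith) hX)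
  have h5 : K₆ * (A * X) = A * κ * X + A * (a * X) := by rw [hK₆]; ring
  linarith

private theorem z3s_fin (B E b S : ℝ) (l : ℕ) (D : ℝ) (hB : 0 ≤ B) (hE : E ≤ S / 4) (hb0 : 0 ≤ b) (hb : b ≤ D)
    (hD : D ^ l ≤ Real.exp (S / 4)) : B * Real.exp E * b ^ l ≤ B * Real.exp (S / 2) := by
  have h1 : b ^ l ≤ Real.exp (S / 4) := (pow_le_pow_left₀ hb0 hb l).trans hD
  have h2 : Real.exp E * b ^ l ≤ Real.exp (S / 4) * Real.exp (S / 4) :=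
    mul_le_mul (Real.exp_le_exp.mpr hE) h1 (pow_nonneg hb0 l) (Real.exp_pos _).le
  have h3 : Real.exp (S / 4) * Real.exp (S / 4) = Real.exp (S / 2) := by
    rw [← Real.exp_add]
    congr 1
    ring
  rw [mul_assoc, ← h3]
  exact mul_le_mul_of_nonneg_left h2 hB

private theorem z3s_diff (c₁ c₂ : Cv) (P : Pr) (coef : ℕ × ℕ × ℕ × ℕ × ℕ → ℂ) (t' : ℂ) :
    Differentiable ℂ (fun z => GG c₁ c₂ P coef t' (t' + z)) := by
  intro z
  have h1 : AnalyticAt ℂ (fun p : ℂ × ℂ => GG c₁ c₂ P coef p.1 p.2) (t', t' + z) := GG_an2 c₁ c₂ P coef t' (t' + z)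
  have h2 : DifferentiableAt ℂ (fun z : ℂ => (t', t' + z)) z :=
    (differentiableAt_const _).prodMk (differentiableAt_id.const_add _)
  have h3 : DifferentiableAt ℂ ((fun p : ℂ × ℂ => GG c₁ c₂ P coef p.1 p.2) ∘ (fun z : ℂ => (t', t' + z))) z :=
    DifferentiableAt.comp z h1.differentiableAt h2
  exact h3

private theorem z3s_B (P : Pr) (B : ℝ) (coef : ℕ × ℕ × ℕ × ℕ × ℕ → ℂ) (hcoef : ∀ ν ∈ P.box, ‖coef ν‖ ≤ B) :
    0 ≤ B := by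
  have h0 : ((0, 0, 0, 0, 0) : ℕ × ℕ × ℕ × ℕ × ℕ) ∈ P.box := by
    simp [Pr.box]
  exact (norm_nonneg _).trans (hcoef _ h0)

/-- the numerical constants -/
private theorem z3s_Ks (C₀ C₁ ρ₀ y₁ y₂ T₁ T₂ : ℝ) (hρ : 0 < ρ₀) (hC₀ : 1 ≤ C₀) (hC₁ : 1 ≤ C₁) (hy₁ : 0 < y₁)
    (hy₂ : 0 < y₂) (hT₁ : 0 ≤ T₁) (hT₂ : 0 ≤ T₂) :
    ∃ κ₂ κ₃ K₁ K₂ K₃ K₅ K₆ K₇ C : ℝ, κ₂ = (1 + y₁) / y₂ ∧ κ₃ = 1 + (1 + y₁) / y₂ * T₂ + T₁ ∧
      K₁ = 6 * Real.pi * (ρ₀ + κ₂ * (ρ₀ + 1)) ∧ K₂ = 42 * Real.pi * κ₂ * (2 * ρ₀ + 1) ∧ K₃ = 2 * ρ₀ + 2 ∧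
      K₅ = C₁ * (1 + ρ₀ ^ 2 + (15 * ρ₀ + 8) ^ 2) ∧ K₆ = (1 + κ₂ + κ₃) + (14 * ρ₀ + 8) ∧
      K₇ = 3 + C₀ + K₁ + K₂ + K₃ ∧ 0 ≤ κ₂ ∧ 1 ≤ κ₃ ∧ 0 ≤ K₁ ∧ 0 ≤ K₂ ∧ 0 ≤ K₃ ∧
      8 * C₀ * K₇ ≤ C ∧ 4 * K₅ ≤ C ∧ K₆ ≤ C ∧ 8 * C₀ * (ρ₀ + y₁) ≤ C ∧ 2 * C₀ ≤ C ∧ 1 ≤ C := by
  have hpi := Real.pi_pos
  have k2 : 0 ≤ (1 + y₁) / y₂ := div_nonneg (by linarith) hy₂.le
  obtain ⟨κ₂, e2⟩ : ∃ κ₂ : ℝ, κ₂ = (1 + y₁) / y₂ := ⟨_, rfl⟩
  rw [← e2] at k2 ⊢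
  have k3 : 1 ≤ 1 + κ₂ * T₂ + T₁ := by
    have := mul_nonneg k2 hT₂
    linarith
  have h1 : 0 ≤ 6 * Real.pi * (ρ₀ + κ₂ * (ρ₀ + 1)) := by positivity
  have h2 : 0 ≤ 42 * Real.pi * κ₂ * (2 * ρ₀ + 1) := by positivity
  have h5 : 0 ≤ C₁ * (1 + ρ₀ ^ 2 + (15 * ρ₀ + 8) ^ 2) :=
    mul_nonneg (by linarith) (by positivity)
  obtain ⟨C, hC⟩ := z3s_const C₀ _ ((1 + κ₂ + (1 + κ₂ * T₂ + T₁)) + (14 * ρ₀ + 8))
    (3 + C₀ + 6 * Real.pi * (ρ₀ + κ₂ * (ρ₀ + 1)) + 42 * Real.pi * κ₂ * (2 * ρ₀ + 1) + (2 * ρ₀ + 2)) (ρ₀ + y₁) hC₀ h5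
    (by linarith) (by linarith) (by linarith)
  exact ⟨κ₂, _, _, _, _, _, _, _, C, rfl, rfl, rfl, rfl, rfl, rfl, rfl, rfl, k2, k3, h1, h2, by linarith, hC⟩

/-- Z3b. PROOF. Fix `n₁, n₂, m, t, w`, `v = n₂τ₂ - n₁τ₁ + m`, `t' = t + n₁τ₁`, and let
`K z = Gs_{k(n)} t (t + z - v)`, `g z = GG t' (t' + z)`, `z_* = w - t + v`, so `K z_*` is the function to be bounded and
`‖z_*‖ ≤ r := (2ρ₀ + 1) R₀`. `C₀` is the constant of Z1, `C₁` that of G3a; all `C', C'', ...` depend on `c₁, c₂, ρ₀, C₀, C₁` only; `C` is large.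
* `|n₂| ≤ C'X` (`n₂ Im τ₂ = Im v + n₁ Im τ₁`), `|m| ≤ C'X`.
* `taylor_split` with `c = ((au au)^M)⁻¹`, `α = 2πi n₂ M`, `N = S'`. By `norm_au`: `‖c‖ ≤ exp(C'' L X²)`, `7‖α‖r ≤ C'' L X²` (`M ≤ 3L`, `R₀ ≤ X`).
* `ε`: Z1 with the constant `C₀` and `R = qS'/(2C₀L)`. By `C X L ≤ qS'`: `R ≥ CX/(2C₀) ≥ 1`; `|Im t'| ≤ ρ₀ + X Im τ₁ ≤ R/4`. So
  `ε = B exp(C₀L - C₀LR²)` and `C₀LR² = (1/2)C₀LR² + (1/4) R qS' ≥ (C²/(8C₀)) L X² + (C/(8C₀)) X S'` (`q ≥ 1` as `qS' > 0`).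
* `S' r^{S'} ≤ exp(S'(1 + log((2ρ₀+1)R₀))) ≤ exp(C'' S' X)` (`X ≥ R₀ ≥ 1`). So the first term is
  `≤ 2 B exp(C₀L + 2C'' L X² + C'' S'X - (C²/(8C₀)) L X² - (C/(8C₀)) X S') ≤ (1/2) B exp(-S')`.
* `W`: G3a with `κ₀ = C' A X`, `‖z‖ ≤ 7r`: `W = B exp(C'' L R₀²) (C'' A X)^l ≤ B exp(S'/4) exp(S'/4)` if `C ≥ 4C''` (hypotheses `C L R₀² ≤ S'`,
  `(C A X)^l ≤ exp(S'/4)`). Second term `≤ B exp(S'/2 - 3S'/2) = B exp(-S')`.
* `(3/2) exp(-S') ≤ exp(-S'/2)` as `S' ≥ C L R₀² ≥ 1`. -/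
theorem sheet (c₁ c₂ : Cv) (ρ₀ : ℝ) (hρ : 0 < ρ₀) : ∃ C : ℝ, 1 ≤ C ∧ ∀ (P : Pr), P.Good → ∀ (B : ℝ)
    (coef : ℕ × ℕ × ℕ × ℕ × ℕ → ℂ), (∀ ν ∈ P.box, ‖coef ν‖ ≤ B) → ∀ (q S' : ℕ) (pts : Fin q → ℝ),
    (∀ i j, i ≠ j → ∀ k : ℤ, pts i - pts j ≠ k) → Van c₁ c₂ P coef pts (2 * S') →
    ∀ X R₀ : ℝ, 1 ≤ R₀ → R₀ ≤ X → C * P.L * R₀ ^ 2 ≤ S' → C * X * P.L ≤ q * S' →
    (C * P.A * X) ^ P.l ≤ Real.exp (S' / 4) →
    ∀ n₁ n₂ m : ℤ, |(n₁ : ℝ)| ≤ X → ‖(n₂ * c₂.τ - n₁ * c₁.τ + m : ℂ)‖ ≤ R₀ →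
    ∀ t w : ℂ, ‖t‖ ≤ ρ₀ → ‖w‖ ≤ ρ₀ →
    ‖Gs c₁ c₂ P ![(m : ℂ), P.b₂ * n₁ - P.b₁ * n₂, P.a₁ * n₁ + P.a₂ * n₂] coef t w‖ ≤ B * Real.exp (-((S' : ℝ) / 2)) := by
  obtain ⟨C₀, hC₀, hline⟩ := line_bound c₁ c₂
  obtain ⟨C₁, hC₁, hgs⟩ := Gs_bound c₁ c₂
  obtain ⟨κ₂, κ₃, K₁, K₂, K₃, K₅, K₆, K₇, C, hκ₂, hκ₃, hK₁, hK₂, hK₃, hK₅, hK₆, hK₇, hκ₂0, hκ₃0, hK₁0, hK₂0, hK₃0,
    hC8, hCK5, hCK6, hCρ, hC2, hC1⟩ := z3s_Ks C₀ C₁ ρ₀ c₁.τ.im c₂.τ.im ‖c₁.τ‖ ‖c₂.τ‖ hρ hC₀ hC₁ c₁.im c₂.im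
      (norm_nonneg _) (norm_nonneg _)
  have hC₀0 : 0 < C₀ := zero_lt_one.trans_le hC₀
  have hC0 : 0 < C := zero_lt_one.trans_le hC1
  refine ⟨C, hC1, ?_⟩
  intro P hP B coef hcoef q S' pts hpts hvan X R₀ hR₀ hRX hS hq hA n₁ n₂ m hn₁ hv t w ht hw
  have hX : 1 ≤ X := hR₀.trans hRX
  have hX0 : 0 ≤ X := zero_le_one.trans hX
  have hR₀0 : 0 ≤ R₀ := zero_le_one.trans hR₀
  have hL : (1 : ℝ) ≤ P.L := by exact_mod_cast hP.hL
  have hL0 : (0 : ℝ) < P.L := zero_lt_one.trans_le hL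
  have hl : (P.l : ℝ) ≤ P.L := by exact_mod_cast hP.hl
  have hM : (P.M : ℝ) ≤ 3 * P.L := by
    unfold Pr.M
    push_cast
    linarith only [hl]
  obtain ⟨hAP, hA1, hA2⟩ := z3s_A P
  have hS1 : (1 : ℝ) ≤ S' := z3s_S C P.L R₀ S' hC1 hL hR₀ hS
  have hS0 : (0 : ℝ) ≤ S' := zero_le_one.trans hS1
  have hq1 : (1 : ℝ) ≤ q := z3s_q C X P.L q S' q rfl hC0 (zero_lt_one.trans_le hX) hL0 hq
  obtain ⟨hn₂, hm⟩ := z3_n2 c₁ c₂ X R₀ hRX n₁ n₂ m hn₁ hv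
  rw [← hκ₂] at hn₂
  rw [← hκ₃] at hm
  obtain ⟨v, hvdef⟩ : ∃ v : ℂ, v = n₂ * c₂.τ - n₁ * c₁.τ + m := ⟨_, rfl⟩
  rw [← hvdef] at hv
  have hB0 : 0 ≤ B := z3s_B P B coef hcoef
  obtain ⟨R, hRm, hRC, hR1⟩ := z3s_R C₀ C X P.L q S' hC₀0 hL0 hX hC2 hq
  obtain ⟨t', ht'⟩ : ∃ t' : ℂ, t' = t + n₁ * c₁.τ := ⟨_, rfl⟩
  have hRt : |t'.im| ≤ R / 4 := by
    rw [ht']
    exact z3s_t C₀ C X R ρ₀ _ t c₁.τ n₁ hC₀0 hX hρ.le c₁.im rfl hn₁ ht hCρ hRC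
  have heps : ∀ j < S', ‖iteratedDeriv j (fun z => GG c₁ c₂ P coef t' (t' + z)) 0 / (j.factorial : ℂ)‖ ≤
      B * Real.exp (C₀ * P.L - C₀ * P.L * R ^ 2) := by
    intro j hj
    rw [z3_gm]
    exact hline C₀ le_rfl P hP B coef hcoef q S' pts hpts hvan R hR1 hRm j hj t' hRt
  obtain ⟨r, hr⟩ : ∃ r : ℝ, r = (2 * ρ₀ + 1) * R₀ := ⟨_, rfl⟩
  have h2ρ : 1 ≤ 2 * ρ₀ + 1 := by linarith only [hρ]
  have hr1 : 1 ≤ r := by
    rw [hr]
    exact one_le_mul_of_one_le_of_one_le h2ρ hR₀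
  have hr0 : 0 ≤ r := zero_le_one.trans hr1
  have hrX : r ≤ (2 * ρ₀ + 1) * X := by
    rw [hr]
    exact mul_le_mul_of_nonneg_left hRX (zero_le_one.trans h2ρ)
  have hc := z3s_hc c₁ c₂ P.M n₁ n₂ m t v κ₂ X R₀ ρ₀ P.L hκ₂0 hρ hX hRX hR₀0 hM hL0.le hn₁ hn₂ ht hv
  rw [← hK₁] at hc
  have hαr := z3s_α n₂ P.M κ₂ X ρ₀ P.L r hκ₂0 hX hM hL0.le hn₂ hr0 hrX
  rw [← hK₂] at hαr
  have hid := sheet_id c₁ c₂ P coef n₁ n₂ m t
  obtain ⟨kk, hkk⟩ : ∃ kk : Fin 3 → ℂ, kk = ![(m : ℂ), P.b₂ * n₁ - P.b₁ * n₂, P.a₁ * n₁ + P.a₂ * n₂] := ⟨_, rfl⟩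
  have hκs : κ₂ * X ≤ (1 + κ₂ + κ₃) * X := mul_le_mul_of_nonneg_right (by linarith only [hκ₃0]) hX0
  have hκs' : κ₃ * X ≤ (1 + κ₂ + κ₃) * X := mul_le_mul_of_nonneg_right (by linarith only [hκ₂0]) hX0
  have hκs'' : 1 * X ≤ (1 + κ₂ + κ₃) * X := mul_le_mul_of_nonneg_right (by linarith only [hκ₂0, hκ₃0]) hX0
  have hkk' : ∀ i, ‖kk i‖ ≤ P.A * (1 + κ₂ + κ₃) * X := by
    rw [hkk]
    exact z3s_kk P.A (1 + κ₂ + κ₃) X P.a₁ P.a₂ P.b₁ P.b₂ n₁ n₂ m hAP hA1 hA2 (by linarith only [hn₁, hκs''])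
      (hn₂.trans hκs) (hm.trans hκs')
  have hA0 : 1 ≤ P.A := one_le_two.trans hAP
  have hκ01 : 1 ≤ P.A * (1 + κ₂ + κ₃) * X :=
    one_le_mul_of_one_le_of_one_le (one_le_mul_of_one_le_of_one_le hA0 (by linarith only [hκ₂0, hκ₃0])) hX
  rw [← hkk, ← hvdef, ← ht'] at hid
  rw [← hkk]
  have hW : ∀ z : ℂ, ‖z‖ ≤ 7 * r → ‖Gs c₁ c₂ P kk coef t (t + z - v)‖ ≤ B * Real.exp (S' / 2) := by
    intro z hz
    refine (hgs P hP B _ kk coef hκ01 hkk' hcoef t (t + z - v)).trans ?_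
    exact z3s_fin B _ _ S' P.l (C * P.A * X) hB0
      (z3s_E C₁ C _ K₅ P.L R₀ S' _ (zero_le_one.trans hC₁) hL0.le hK₅ hCK5 hS
        (z3s_im ρ₀ R₀ r t z v ht hv hr hz hρ hR₀))
      (add_nonneg (zero_le_one.trans hκ01) (norm_nonneg _))
      (z3s_base P.A (1 + κ₂ + κ₃) (14 * ρ₀ + 8) K₆ C X R₀ r _ t z v hv hz (by rw [hr]; ring)
        (by linarith only [hρ]) hRX hX0 hA0 hK₆ hCK6 rfl) hA
  have hz : ‖w - t + v‖ ≤ r := by
    have h1 := norm_add_le (w - t) v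
    have h2 := norm_sub_le w t
    have h3 := z3_r2 ρ₀ R₀ hρ.le hR₀
    rw [hr]
    linarith only [h1, h2, h3, ht, hw, hv]
  have hsplit := taylor_split (fun z => Gs c₁ c₂ P kk coef t (t + z - v)) (fun z => GG c₁ c₂ P coef t' (t' + z)) _ _
    (z3s_diff c₁ c₂ P coef t') hid S' (B * Real.exp (C₀ * P.L - C₀ * P.L * R ^ 2)) r (B * Real.exp (S' / 2))
    hr1 heps hW (w - t + v) hz
  have e0 : t + (w - t + v) - v = w := by ring
  simp only [e0] at hsplit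
  refine hsplit.trans ?_
  have hpow := z3_pow S' r ρ₀ X hX hr0 hrX
  have hnum1 := z3_R C₀ C X P.L R S' q hC₀0 hC0.le hX0 hL0 hS0 hq1 hRC hRm
  have hnum2 := z3_exp C₀ C X P.L K₁ K₂ K₃ K₇ S' (C₀ * P.L * R ^ 2) hC₀ hC1 hX hL hS0 hK₁0 hK₂0 hK₃0 hK₇ hC8 hnum1
  rw [← hK₃] at hpow
  have htot := z3_total B S' _ (B * Real.exp (C₀ * P.L - C₀ * P.L * R ^ 2)) _ (S' * r ^ S')
    (K₁ * P.L * X ^ 2) (K₂ * P.L * X ^ 2) (K₃ * X * S') (C₀ * P.L - C₀ * P.L * R ^ 2) hB0 hS1 hc hαr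
    (mul_nonneg hS0 (pow_nonneg hr0 _)) hpow rfl (by linarith only [hnum2])
  refine le_trans (le_of_eq ?_) htot
  rw [mul_assoc (2 * _ * _ * _) (S' : ℝ) (r ^ S')]

end Pool.Agent.MSP
end

end

section

/-! # Z6: the zero estimate (MP_f58a57_nt, pairs) -/

open Complex Filter Topology

noncomputable section

namespace Pool.Agent.MSP

/-- the sample points `n = (n₁, n₂, m)`: `n₁ = j b₁ + (h₀ j + i) a₂`, `n₂ = j b₂ - (h₀ j + i) a₁`, `m = m₀ j i + k` -/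
def Nodes (τ₁ τ₂ : ℂ) (P : Pr) (X R₀ : ℝ) (h₀ : ℕ → ℤ) (m₀ : ℕ → ℕ → ℤ) : Prop :=
  ∀ j ≤ P.d₃, ∀ i ≤ P.d₂, ∀ k ≤ P.d₁,
    |((j * P.b₁ + (h₀ j + i) * P.a₂ : ℤ) : ℝ)| ≤ X ∧
    ‖(((j * P.b₂ - (h₀ j + i) * P.a₁ : ℤ) : ℂ) * τ₂ - ((j * P.b₁ + (h₀ j + i) * P.a₂ : ℤ) : ℂ) * τ₁ +
      ((m₀ j i + k : ℤ) : ℂ))‖ ≤ R₀

theorem z6_ph (c : Cv) (ρ δ : ℝ) (hδ : 0 < δ) : ∃ K : ℝ, 1 ≤ K ∧ ∀ t : ℂ, ‖t‖ ≤ ρ → δ ≤ ‖N0 c.τ t‖ →
    ‖ph c.τ t‖ ≤ K := by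
  have hd : Continuous (deriv (th c.τ)) := by
    rw [continuous_iff_continuousAt]
    intro z
    exact ((th_differentiable c.τ c.im).analyticAt z).deriv.continuousAt
  obtain ⟨K, hK⟩ := (isCompact_closedBall (0 : ℂ) ρ).exists_bound_of_continuousOn hd.continuousOn
  refine ⟨max 1 (max K 0 / δ), le_max_left _ _, fun t ht hN => ?_⟩
  have h1 : ‖N1 c.τ t‖ ≤ max K 0 := (hK t (by simpa using ht)).trans (le_max_left _ _)
  have h2 : ‖ph c.τ t‖ ≤ max K 0 / δ := by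
    rw [ph, norm_div]
    exact div_le_div₀ (le_max_right _ _) h1 hδ hN
  exact h2.trans (le_max_right _ _)

theorem z6_A (P : Pr) : 2 ≤ P.A ∧ |(P.a₁ : ℝ)| + |(P.a₂ : ℝ)| ≤ P.A ∧ |(P.b₁ : ℝ)| + |(P.b₂ : ℝ)| ≤ P.A := by
  unfold Pr.A
  have h1 := abs_nonneg (P.a₁ : ℝ)
  have h2 := abs_nonneg (P.a₂ : ℝ)
  have h3 := abs_nonneg (P.b₁ : ℝ)
  have h4 := abs_nonneg (P.b₂ : ℝ)
  refine ⟨by linarith, by linarith, by linarith⟩

theorem z6_lin (a b : ℤ) (x y : ℂ) (K : ℝ) (hx : ‖x‖ ≤ K) (hy : ‖y‖ ≤ K) :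
    ‖(a : ℂ) * x‖ + ‖(b : ℂ) * y‖ ≤ (|(a : ℝ)| + |(b : ℝ)|) * K := by
  rw [norm_mul, norm_mul, Complex.norm_intCast, Complex.norm_intCast, add_mul]
  exact add_le_add (mul_le_mul_of_nonneg_left hx (abs_nonneg _))
    (mul_le_mul_of_nonneg_left hy (abs_nonneg _))

theorem z6_xx (c₁ c₂ : Cv) (ρ K : ℝ) (hρ : 0 ≤ ρ) (hK : 1 ≤ K) (P : Pr) (t w : ℂ) (ht : ‖t‖ ≤ ρ) (hw : ‖w‖ ≤ ρ)
    (h1 : ‖ph c₁.τ t‖ ≤ K) (h2 : ‖ph c₂.τ w‖ ≤ K) (i : Fin 3) :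
    ‖xx c₁ c₂ P i t w‖ ≤ (2 * ρ + (‖c₁.τ‖ + ‖c₂.τ‖ + 1) * K) * P.A := by
  have hpi : (1 : ℝ) ≤ ‖(2 * Real.pi * I : ℂ)‖ := by
    rw [norm_mul, norm_mul, Complex.norm_I, mul_one, Complex.norm_real, Real.norm_eq_abs,
      abs_of_pos Real.pi_pos, Complex.norm_ofNat]
    have := Real.pi_gt_three
    linarith
  have e1 : ‖ph c₁.τ t / (2 * Real.pi * I)‖ ≤ K := by
    rw [norm_div]; exact (div_le_self (norm_nonneg _) hpi).trans h1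
  have e2 : ‖ph c₂.τ w / (2 * Real.pi * I)‖ ≤ K := by
    rw [norm_div]; exact (div_le_self (norm_nonneg _) hpi).trans h2
  obtain ⟨hA, hAa, hAb⟩ := z6_A P
  have n1 := norm_nonneg c₁.τ
  have n2 := norm_nonneg c₂.τ
  have hK0 : 0 ≤ K := by linarith
  have hbase : 0 ≤ 2 * ρ + (‖c₁.τ‖ + ‖c₂.τ‖) * K := by positivity
  have hKA : K * P.A ≤ (2 * ρ + (‖c₁.τ‖ + ‖c₂.τ‖ + 1) * K) * P.A := by
    apply mul_le_mul_of_nonneg_right _ (by linarith)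
    have : 0 ≤ 2 * ρ + (‖c₁.τ‖ + ‖c₂.τ‖) * K := hbase
    linarith
  have x0 : ‖(w - t) + c₂.τ * (ph c₂.τ w / (2 * Real.pi * I)) - c₁.τ * (ph c₁.τ t / (2 * Real.pi * I))‖ ≤
      (2 * ρ + (‖c₁.τ‖ + ‖c₂.τ‖ + 1) * K) * P.A := by
    have a1 : ‖c₂.τ * (ph c₂.τ w / (2 * Real.pi * I))‖ ≤ ‖c₂.τ‖ * K := by
      rw [norm_mul]; exact mul_le_mul_of_nonneg_left e2 n2
    have a2 : ‖c₁.τ * (ph c₁.τ t / (2 * Real.pi * I))‖ ≤ ‖c₁.τ‖ * K := by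
      rw [norm_mul]; exact mul_le_mul_of_nonneg_left e1 n1
    have a3 := norm_sub_le (w - t + c₂.τ * (ph c₂.τ w / (2 * Real.pi * I)))
      (c₁.τ * (ph c₁.τ t / (2 * Real.pi * I)))
    have a4 := norm_add_le (w - t) (c₂.τ * (ph c₂.τ w / (2 * Real.pi * I)))
    have a5 := norm_sub_le w t
    have a6 : 2 * ρ + (‖c₁.τ‖ + ‖c₂.τ‖ + 1) * K ≤ (2 * ρ + (‖c₁.τ‖ + ‖c₂.τ‖ + 1) * K) * P.A := by
      apply le_mul_of_one_le_right _ (by linarith)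
      linarith
    linarith
  have x1 : ‖-(P.b₂ * (ph c₁.τ t / (2 * Real.pi * I))) + P.b₁ * (ph c₂.τ w / (2 * Real.pi * I))‖ ≤
      (2 * ρ + (‖c₁.τ‖ + ‖c₂.τ‖ + 1) * K) * P.A := by
    have a1 := z6_lin P.b₂ P.b₁ _ _ K e1 e2
    have a2 := norm_add_le (-((P.b₂ : ℂ) * (ph c₁.τ t / (2 * Real.pi * I))))
      (P.b₁ * (ph c₂.τ w / (2 * Real.pi * I)))
    rw [norm_neg] at a2
    have a3 : (|(P.b₂ : ℝ)| + |(P.b₁ : ℝ)|) * K ≤ K * P.A := by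
      rw [mul_comm]; exact mul_le_mul_of_nonneg_left (by linarith) hK0
    linarith
  have x2 : ‖-(P.a₁ * (ph c₁.τ t / (2 * Real.pi * I))) - P.a₂ * (ph c₂.τ w / (2 * Real.pi * I))‖ ≤
      (2 * ρ + (‖c₁.τ‖ + ‖c₂.τ‖ + 1) * K) * P.A := by
    have a1 := z6_lin P.a₁ P.a₂ _ _ K e1 e2
    have a2 := norm_sub_le (-((P.a₁ : ℂ) * (ph c₁.τ t / (2 * Real.pi * I))))
      (P.a₂ * (ph c₂.τ w / (2 * Real.pi * I)))
    rw [norm_neg] at a2
    have a3 : (|(P.a₁ : ℝ)| + |(P.a₂ : ℝ)|) * K ≤ K * P.A := by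
      rw [mul_comm]; exact mul_le_mul_of_nonneg_left hAa hK0
    linarith
  fin_cases i
  · exact x0
  · exact x1
  · exact x2

theorem z6_int (c₁ c₂ : Cv) : ∃ K : ℝ, 1 ≤ K ∧ ∀ X R₀ : ℝ, 1 ≤ R₀ → R₀ ≤ X → ∀ n₁ n₂ m : ℤ, |(n₁ : ℝ)| ≤ X →
    ‖(n₂ * c₂.τ - n₁ * c₁.τ + m : ℂ)‖ ≤ R₀ → |(n₂ : ℝ)| ≤ K * X ∧ |(m : ℝ)| ≤ K * X := by
  have h1 := c₁.im
  have h2 := c₂.im
  set K₂ : ℝ := (1 + c₁.τ.im) / c₂.τ.im with hK₂
  have hK₂0 : 0 < K₂ := by positivity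
  have nn1 := norm_nonneg c₁.τ
  have nn2 := norm_nonneg c₂.τ
  refine ⟨1 + K₂ + K₂ * ‖c₂.τ‖ + ‖c₁.τ‖, by
    have : 0 ≤ K₂ * ‖c₂.τ‖ := by positivity
    linarith, ?_⟩
  intro X R₀ hR hRX n₁ n₂ m hn₁ hnorm
  have hX : 1 ≤ X := hR.trans hRX
  have him := (Complex.abs_im_le_norm _).trans hnorm
  have e1 : (n₂ * c₂.τ - n₁ * c₁.τ + m : ℂ).im = n₂ * c₂.τ.im - n₁ * c₁.τ.im := by simp
  rw [e1] at him
  have e2 : |(n₂ : ℝ)| * c₂.τ.im ≤ X * (1 + c₁.τ.im) := by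
    have a1 : |(n₂ : ℝ) * c₂.τ.im| ≤ |(n₂ : ℝ) * c₂.τ.im - n₁ * c₁.τ.im| + |(n₁ : ℝ) * c₁.τ.im| := by
      have := abs_add_le ((n₂ : ℝ) * c₂.τ.im - n₁ * c₁.τ.im) (n₁ * c₁.τ.im)
      simpa using this
    rw [abs_mul, abs_of_pos h2, abs_mul (n₁ : ℝ), abs_of_pos h1] at a1
    have a2 : |(n₁ : ℝ)| * c₁.τ.im ≤ X * c₁.τ.im := mul_le_mul_of_nonneg_right hn₁ h1.le
    have a3 : X * (1 + c₁.τ.im) = X + X * c₁.τ.im := by ring
    rw [a3]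
    linarith
  have e3 : |(n₂ : ℝ)| ≤ K₂ * X := by
    rw [hK₂, div_mul_eq_mul_div, le_div_iff₀ h2]
    linarith
  have e4 : |(m : ℝ)| ≤ (1 + K₂ * ‖c₂.τ‖ + ‖c₁.τ‖) * X := by
    have a1 : (m : ℂ) = (n₂ * c₂.τ - n₁ * c₁.τ + m : ℂ) - n₂ * c₂.τ + n₁ * c₁.τ := by ring
    have a2 : ‖(m : ℂ)‖ ≤ ‖(n₂ * c₂.τ - n₁ * c₁.τ + m : ℂ)‖ + ‖(n₂ : ℂ) * c₂.τ‖ + ‖(n₁ : ℂ) * c₁.τ‖ := by
      calc ‖(m : ℂ)‖ = ‖(n₂ * c₂.τ - n₁ * c₁.τ + m : ℂ) - n₂ * c₂.τ + n₁ * c₁.τ‖ := by rw [← a1]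
        _ ≤ ‖(n₂ * c₂.τ - n₁ * c₁.τ + m : ℂ) - n₂ * c₂.τ‖ + ‖(n₁ : ℂ) * c₁.τ‖ := norm_add_le _ _
        _ ≤ _ := by
          have := norm_sub_le (n₂ * c₂.τ - n₁ * c₁.τ + m : ℂ) (n₂ * c₂.τ)
          linarith
    rw [Complex.norm_intCast, norm_mul, norm_mul, Complex.norm_intCast, Complex.norm_intCast] at a2
    have a3 : |(n₂ : ℝ)| * ‖c₂.τ‖ ≤ K₂ * X * ‖c₂.τ‖ := mul_le_mul_of_nonneg_right e3 nn2
    have a4 : |(n₁ : ℝ)| * ‖c₁.τ‖ ≤ X * ‖c₁.τ‖ := mul_le_mul_of_nonneg_right hn₁ nn1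
    have a5 : (1 + K₂ * ‖c₂.τ‖ + ‖c₁.τ‖) * X = X + K₂ * X * ‖c₂.τ‖ + X * ‖c₁.τ‖ := by ring
    rw [a5]
    linarith
  have e5 : 0 ≤ K₂ * ‖c₂.τ‖ * X := by positivity
  have e6 : 0 ≤ ‖c₁.τ‖ * X := by positivity
  have e7 : 0 ≤ K₂ * X := by positivity
  have e8 : (1 + K₂ + K₂ * ‖c₂.τ‖ + ‖c₁.τ‖) * X =
      X + K₂ * X + K₂ * ‖c₂.τ‖ * X + ‖c₁.τ‖ * X := by ring
  have e9 : (1 + K₂ * ‖c₂.τ‖ + ‖c₁.τ‖) * X = X + K₂ * ‖c₂.τ‖ * X + ‖c₁.τ‖ * X := by ring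
  rw [e9] at e4
  rw [e8]
  clear_value K₂
  constructor
  · linarith
  · linarith

theorem z6_sum (P : Pr) (coef : ℕ × ℕ × ℕ × ℕ × ℕ → ℂ) (x y u v z : ℂ) :
    ∑ ν ∈ P.box, coef ν * (x ^ ν.1 * y ^ ν.2.1 * (u ^ ν.2.2.1 * v ^ ν.2.2.2.1 * z ^ ν.2.2.2.2)) =
    ∑ κ₁ ∈ Finset.range (P.d₁ + 1), ∑ κ₂ ∈ Finset.range (P.d₂ + 1), ∑ κ₃ ∈ Finset.range (P.d₃ + 1),
      (∑ a ∈ Finset.range (P.L + 1), ∑ b ∈ Finset.range (P.L + 1), coef (a, b, κ₁, κ₂, κ₃) * (x ^ a * y ^ b)) *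
        (u ^ κ₁ * v ^ κ₂ * z ^ κ₃) := by
  have h1 : ∑ ν ∈ P.box, coef ν * (x ^ ν.1 * y ^ ν.2.1 * (u ^ ν.2.2.1 * v ^ ν.2.2.2.1 * z ^ ν.2.2.2.2)) =
      ∑ κ ∈ Finset.range (P.d₁ + 1) ×ˢ Finset.range (P.d₂ + 1) ×ˢ Finset.range (P.d₃ + 1),
        ∑ a ∈ Finset.range (P.L + 1), ∑ b ∈ Finset.range (P.L + 1),
        coef (a, b, κ.1, κ.2.1, κ.2.2) * (x ^ a * y ^ b * (u ^ κ.1 * v ^ κ.2.1 * z ^ κ.2.2)) := by
    unfold Pr.box
    rw [Finset.sum_product, Finset.sum_comm]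
    rw [Finset.sum_product]
    simp only
    rw [Finset.sum_comm]
    exact Finset.sum_congr rfl fun κ _ => Finset.sum_comm
  rw [h1, Finset.sum_product]
  refine Finset.sum_congr rfl fun κ₁ _ => ?_
  rw [Finset.sum_product]
  refine Finset.sum_congr rfl fun κ₂ _ => Finset.sum_congr rfl fun κ₃ _ => ?_
  rw [Finset.sum_mul]
  refine Finset.sum_congr rfl fun a _ => ?_
  rw [Finset.sum_mul]
  refine Finset.sum_congr rfl fun b _ => ?_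
  ring

theorem z6_pt (c₁ c₂ : Cv) (P : Pr) (coef : ℕ × ℕ × ℕ × ℕ × ℕ → ℂ) (t w : ℂ) (δ ε Y : ℝ) (hδ : 0 < δ)
    (hN : δ ≤ ‖N0 c₁.τ t * N0 c₂.τ w‖) (h₀ : ℕ → ℤ) (m₀ : ℕ → ℕ → ℤ)
    (hG : ∀ j ≤ P.d₃, ∀ i ≤ P.d₂, ∀ k ≤ P.d₁,
      ‖Gs c₁ c₂ P ![((m₀ j i + k : ℤ) : ℂ), ((h₀ j + i : ℤ) : ℂ), ((j : ℤ) : ℂ)] coef t w‖ ≤ ε)
    (hY₁ : ∀ j ≤ P.d₃, ∀ i ≤ P.d₂, ∀ k ≤ P.d₁, ‖xx c₁ c₂ P 0 t w + m₀ j i + k‖ ≤ Y)
    (hY₂ : ∀ j ≤ P.d₃, ∀ i ≤ P.d₂, ‖xx c₁ c₂ P 1 t w + h₀ j + i‖ ≤ Y)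
    (hY₃ : ∀ j ≤ P.d₃, ‖xx c₁ c₂ P 2 t w + j‖ ≤ Y)
    (κ₁ κ₂ κ₃ : ℕ) (h₁ : κ₁ ≤ P.d₁) (h₂ : κ₂ ≤ P.d₂) (h₃ : κ₃ ≤ P.d₃) :
    ‖∑ a ∈ Finset.range (P.L + 1), ∑ b ∈ Finset.range (P.L + 1), coef (a, b, κ₁, κ₂, κ₃) *
      (wp c₁.τ c₁.s t ^ a * wp c₂.τ c₂.s w ^ b)‖ ≤
      (((P.d₁ : ℝ) + 1) * (P.d₂ + 1) * (P.d₃ + 1)) * (1 + Y) ^ P.l * (ε / δ ^ P.M) := by
  refine interp3 P.d₁ P.d₂ P.d₃ (fun κ₁ κ₂ κ₃ => ∑ a ∈ Finset.range (P.L + 1), ∑ b ∈ Finset.range (P.L + 1),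
    coef (a, b, κ₁, κ₂, κ₃) * (wp c₁.τ c₁.s t ^ a * wp c₂.τ c₂.s w ^ b)) (xx c₁ c₂ P 0 t w) (xx c₁ c₂ P 1 t w)
    (xx c₁ c₂ P 2 t w) h₀ m₀ (ε / δ ^ P.M) Y hY₁ hY₂ hY₃ ?_ κ₁ κ₂ κ₃ h₁ h₂ h₃
  intro j hj i hi k hk
  have hne : N0 c₁.τ t * N0 c₂.τ w ≠ 0 := by
    intro h
    rw [h, norm_zero] at hN
    linarith
  have h := hG j hj i hi k hk
  rw [Gs_eq c₁ c₂ P _ coef t w (left_ne_zero_of_mul hne) (right_ne_zero_of_mul hne), z6_sum, norm_mul,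
    norm_pow] at h
  have hpow : δ ^ P.M ≤ ‖N0 c₁.τ t * N0 c₂.τ w‖ ^ P.M := pow_le_pow_left₀ hδ.le hN _
  rw [le_div_iff₀ (by positivity), mul_comm]
  refine le_trans (mul_le_mul_of_nonneg_right hpow (norm_nonneg _)) ?_
  refine le_trans (le_of_eq ?_) h
  congr 2
  refine Finset.sum_congr rfl fun κ₁ _ => Finset.sum_congr rfl fun κ₂ _ => Finset.sum_congr rfl fun κ₃ _ => ?_
  simp only [Matrix.cons_val, Int.cast_add, Int.cast_natCast, add_assoc]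

theorem z6_num (d₁ d₂ d₃ L l M S' : ℕ) (B δ Y : ℝ) (hB : 0 ≤ B) (hδ : 0 < δ) (hl : d₁ + d₂ + d₃ ≤ L)
    (hl' : l ≤ L) (hM : M = 2 * L + l) (hY : (1 + Y) ^ l ≤ Real.exp (S' / 4)) (hY0 : 0 ≤ Y) :
    (((d₁ : ℝ) + 1) * (d₂ + 1) * (d₃ + 1)) * (1 + Y) ^ l * (B * Real.exp (-((S' : ℝ) / 2)) / δ ^ M) ≤
      B * Real.exp ((3 + 3 * Real.log (max 1 (1 / δ))) * L - S' / 4) := by
  set D : ℝ := max 1 (1 / δ) with hD
  have hD1 : 1 ≤ D := le_max_left _ _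
  have hL1 : ((L : ℝ) + 1) ≤ Real.exp L := Real.add_one_le_exp _
  have e1 : ((d₁ : ℝ) + 1) * (d₂ + 1) * (d₃ + 1) ≤ Real.exp (3 * L) := by
    have a1 : (d₁ : ℝ) + 1 ≤ Real.exp L := by
      have : (d₁ : ℝ) ≤ L := by exact_mod_cast (by omega : d₁ ≤ L)
      linarith
    have a2 : (d₂ : ℝ) + 1 ≤ Real.exp L := by
      have : (d₂ : ℝ) ≤ L := by exact_mod_cast (by omega : d₂ ≤ L)
      linarith
    have a3 : (d₃ : ℝ) + 1 ≤ Real.exp L := by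
      have : (d₃ : ℝ) ≤ L := by exact_mod_cast (by omega : d₃ ≤ L)
      linarith
    have a4 : Real.exp (3 * L) = Real.exp L * Real.exp L * Real.exp L := by
      rw [← Real.exp_add, ← Real.exp_add]; ring_nf
    rw [a4]
    exact mul_le_mul (mul_le_mul a1 a2 (by positivity) (by positivity)) a3 (by positivity) (by positivity)
  have e2 : 1 / δ ^ M ≤ Real.exp (3 * Real.log D * L) := by
    have a1 : 1 / δ ^ M = (1 / δ) ^ M := by rw [div_pow, one_pow]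
    rw [a1]
    have a2 : (1 / δ) ^ M ≤ D ^ M := pow_le_pow_left₀ (by positivity) (le_max_right _ _) _
    have a3 : D ^ M ≤ D ^ (3 * L) := pow_le_pow_right₀ hD1 (by omega)
    have a4 : D ^ (3 * L) = Real.exp (3 * Real.log D * L) := by
      have : 3 * Real.log D * L = ((3 * L : ℕ) : ℝ) * Real.log D := by push_cast; ring
      rw [this, Real.exp_nat_mul, Real.exp_log (by linarith)]
    linarith
  have e3 : Real.exp ((3 + 3 * Real.log D) * L - S' / 4) =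
      Real.exp (3 * L) * Real.exp (S' / 4) * (Real.exp (-((S' : ℝ) / 2)) * Real.exp (3 * Real.log D * L)) := by
    rw [← Real.exp_add, ← Real.exp_add, ← Real.exp_add]
    congr 1
    ring
  rw [e3]
  have e4 : B * Real.exp (-((S' : ℝ) / 2)) / δ ^ M = B * (Real.exp (-((S' : ℝ) / 2)) * (1 / δ ^ M)) := by
    ring
  rw [e4]
  have e5 : ((d₁ : ℝ) + 1) * (d₂ + 1) * (d₃ + 1) * (1 + Y) ^ l ≤ Real.exp (3 * L) * Real.exp (S' / 4) :=
    mul_le_mul e1 hY (by positivity) (by positivity)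
  have e6 : B * (Real.exp (-((S' : ℝ) / 2)) * (1 / δ ^ M)) ≤
      B * (Real.exp (-((S' : ℝ) / 2)) * Real.exp (3 * Real.log D * L)) :=
    mul_le_mul_of_nonneg_left (mul_le_mul_of_nonneg_left e2 (by positivity)) hB
  calc _ ≤ (Real.exp (3 * L) * Real.exp (S' / 4)) *
        (B * (Real.exp (-((S' : ℝ) / 2)) * Real.exp (3 * Real.log D * L))) :=
        mul_le_mul e5 e6 (by positivity) (by positivity)
    _ = _ := by ring

theorem z6_fin (L S' : ℕ) (B a E : ℝ) (hB : 0 < B) (hE : 1 ≤ E) (hL : 1 ≤ L)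
    (h : 4 * (2 + Real.log E + a) * L < S') :
    ((L : ℝ) + 1) ^ 2 * E ^ L * (B * Real.exp (a * L - S' / 4)) < B := by
  have hL1 : ((L : ℝ) + 1) ≤ Real.exp L := Real.add_one_le_exp _
  have e1 : ((L : ℝ) + 1) ^ 2 ≤ Real.exp (2 * L) := by
    have : Real.exp (2 * L) = Real.exp L ^ 2 := by rw [← Real.exp_nat_mul]; norm_num
    rw [this]
    exact pow_le_pow_left₀ (by positivity) hL1 2
  have e2 : E ^ L = Real.exp (L * Real.log E) := by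
    rw [Real.exp_nat_mul, Real.exp_log (by linarith)]
  calc ((L : ℝ) + 1) ^ 2 * E ^ L * (B * Real.exp (a * L - S' / 4))
      ≤ Real.exp (2 * L) * E ^ L * (B * Real.exp (a * L - S' / 4)) := by gcongr
    _ = B * Real.exp ((2 + Real.log E + a) * L - S' / 4) := by
        rw [e2]
        have : Real.exp ((2 + Real.log E + a) * L - S' / 4) =
            Real.exp (2 * L) * Real.exp (L * Real.log E) * Real.exp (a * L - S' / 4) := by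
          rw [← Real.exp_add, ← Real.exp_add]; congr 1; ring
        rw [this]; ring
    _ < B * 1 := by
        apply mul_lt_mul_of_pos_left _ hB
        rw [Real.exp_lt_one_iff]
        linarith
    _ = B := mul_one B

/-- Z6a. With `n₁, n₂` as in `Nodes`: `b₂ n₁ - b₁ n₂ = h₀ j + i`, `a₁ n₁ + a₂ n₂ = j` (as `a₁b₁ + a₂b₂ = 1`). PROOF. Apply Z3b at
`(t, w)` with `‖t‖, ‖w‖ ≤ ρ₀`, and G5a (`Gs_eq`): if `‖N0 t‖, ‖N0 w‖ ≥ δ` (`δ ≤ 1` w.l.o.g.), then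
`‖∑_ν coef ν wp^a wp^b (x₁ + m)^κ₁ (x₂ + h)^κ₂ (x₃ + j)^κ₃‖ ≤ B e^{-S'/2} δ^{-2M}`. On this set `‖x_i‖ ≤ C'A`
(`ph = N1/N0` bounded), the nodes are `≤ C' A X` in absolute value (`|m|, |h|, |j| ≤ C'AX` as `|n₁|, |n₂| ≤ C'X`).
`interp3` (with `A κ₁ κ₂ κ₃ = ∑_{a,b ≤ L} coef (a,b,κ₁,κ₂,κ₃) wp^a wp^b`) gives
`‖∑_{ab} coef wp^a wp^b‖ ≤ (d₁+1)(d₂+1)(d₃+1) (1 + C'AX)^l B e^{C'L - S'/2} ≤ B e^{C''L + S'/4 - S'/2}` (for `C` large in the hypothesis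
`(C A X)^l ≤ exp(S'/4)`). The `(t,w)` in question give all `(x,y)` with `‖x - p₁‖ ≤ 1`, `‖y - p₂‖ ≤ 1` (Z5), so `coeff2`:
`‖coef ν‖ ≤ B exp(C'''L - S'/4)` for all `ν ∈ box`. Take `B = max_{ν ∈ box} ‖coef ν‖`; if `B > 0` this contradicts `S' > 4C'''L`
(`S' ≥ C L R₀² ≥ C L`, `C > 4C'''`). -/
theorem zero_est (c₁ c₂ : Cv) : ∃ C : ℝ, 1 ≤ C ∧ ∀ (P : Pr), P.Good →
    ∀ (coef : ℕ × ℕ × ℕ × ℕ × ℕ → ℂ) (q S' : ℕ) (pts : Fin q → ℝ),
    (∀ i j, i ≠ j → ∀ k : ℤ, pts i - pts j ≠ k) → Van c₁ c₂ P coef pts (2 * S') →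
    ∀ X R₀ : ℝ, 1 ≤ R₀ → R₀ ≤ X → C * P.L * R₀ ^ 2 ≤ S' → C * X * P.L ≤ q * S' →
    (C * P.A * X) ^ P.l ≤ Real.exp (S' / 4) → ∀ (h₀ : ℕ → ℤ) (m₀ : ℕ → ℕ → ℤ), Nodes c₁.τ c₂.τ P X R₀ h₀ m₀ →
    ∀ ν ∈ P.box, coef ν = 0 := by
  obtain ⟨ρ₁, δ₁, p₁, hρ₁, hδ₁, hc₁⟩ := wp_cover c₁.τ c₁.s c₁.im
  obtain ⟨ρ₂, δ₂, p₂, hρ₂, hδ₂, hc₂⟩ := wp_cover c₂.τ c₂.s c₂.im
  obtain ⟨K₁, hK₁1, hK₁⟩ := z6_ph c₁ ρ₁ δ₁ hδ₁
  obtain ⟨K₂, hK₂1, hK₂⟩ := z6_ph c₂ ρ₂ δ₂ hδ₂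
  obtain ⟨Ki, hKi1, hKi⟩ := z6_int c₁ c₂
  set ρ₀ : ℝ := max ρ₁ ρ₂ with hρ₀
  have hρ₀0 : 0 < ρ₀ := lt_of_lt_of_le hρ₁ (le_max_left _ _)
  set K : ℝ := max K₁ K₂ with hK
  have hK1 : 1 ≤ K := hK₁1.trans (le_max_left _ _)
  obtain ⟨Cs, hCs1, hCs⟩ := sheet c₁ c₂ ρ₀ hρ₀0
  set Kx : ℝ := 2 * ρ₀ + (‖c₁.τ‖ + ‖c₂.τ‖ + 1) * K with hKx
  have hKx0 : 0 < Kx := by positivity
  set δ : ℝ := δ₁ * δ₂ with hδdef
  have hδ : 0 < δ := mul_pos hδ₁ hδ₂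
  set E : ℝ := (1 + ‖p₁‖) * (1 + ‖p₂‖) with hE
  have hE1 : 1 ≤ E := by
    have a1 := norm_nonneg p₁
    have a2 := norm_nonneg p₂
    rw [hE]
    exact one_le_mul_of_one_le_of_one_le (by linarith) (by linarith)
  set a : ℝ := 3 + 3 * Real.log (max 1 (1 / δ)) with ha
  have ha0 : 0 ≤ a := by
    have : 0 ≤ Real.log (max 1 (1 / δ)) := Real.log_nonneg (le_max_left _ _)
    linarith
  have hlogE : 0 ≤ Real.log E := Real.log_nonneg hE1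
  set C : ℝ := Cs + (1 + Kx + Ki) + 4 * (2 + Real.log E + a) + 1 with hC
  refine ⟨C, by linarith, ?_⟩
  intro P hP coef q S' pts hpts hvan X R₀ hR₀ hRX hS' hqS' hCAX h₀ m₀ hnodes
  have hX : 1 ≤ X := hR₀.trans hRX
  obtain ⟨hA2, hAa, hAb⟩ := z6_A P
  have hL1 : (1 : ℝ) ≤ P.L := by exact_mod_cast hP.hL
  have hCsC : Cs ≤ C := by linarith
  -- hypotheses of `sheet`
  have hS1 : Cs * P.L * R₀ ^ 2 ≤ S' := by
    refine le_trans ?_ hS'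
    gcongr
  have hS2 : Cs * X * P.L ≤ q * S' := by
    refine le_trans ?_ hqS'
    gcongr
  have hS3 : (Cs * P.A * X) ^ P.l ≤ Real.exp (S' / 4) := by
    refine le_trans ?_ hCAX
    gcongr
  have hS4 : (1 + (Kx + Ki) * (P.A * X)) ^ P.l ≤ Real.exp (S' / 4) := by
    refine le_trans ?_ hCAX
    have hAX : 1 ≤ P.A * X := one_le_mul_of_one_le_of_one_le (by linarith) hX
    refine pow_le_pow_left₀ (by positivity) ?_ _
    rw [mul_assoc]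
    have h5 : (1 + (Kx + Ki)) * (P.A * X) ≤ C * (P.A * X) :=
      mul_le_mul_of_nonneg_right (by linarith) (by linarith)
    rw [add_mul, one_mul] at h5
    linarith
  have hS5 : 4 * (2 + Real.log E + a) * P.L < S' := by
    have a1 : C * P.L ≤ C * P.L * R₀ ^ 2 := by
      exact le_mul_of_one_le_right (by positivity) (one_le_pow₀ hR₀)
    have a2 : 4 * (2 + Real.log E + a) * P.L < C * P.L := by
      apply mul_lt_mul_of_pos_right _ (by linarith)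
      linarith
    linarith
  -- the maximum
  obtain ⟨ν₀, hν₀, hmax⟩ := P.box.exists_max_image (fun ν => ‖coef ν‖)
    ⟨(0, 0, 0, 0, 0), by simp [Pr.box]⟩
  have key : ‖coef ν₀‖ = 0 := by
    by_contra hne
    have hB : 0 < ‖coef ν₀‖ := lt_of_le_of_ne (norm_nonneg _) (Ne.symm hne)
    set B : ℝ := ‖coef ν₀‖ with hBdef
    obtain ⟨a₀, b₀, k₁, k₂, k₃⟩ := ν₀
    have hν₀' := hν₀
    simp only [Pr.box, Finset.mem_product, Finset.mem_range, Nat.lt_succ_iff] at hν₀'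
    obtain ⟨ha₀, hb₀, hk₁, hk₂, hk₃⟩ := hν₀'
    have hpoly : ∀ x y : ℂ, ‖x - p₁‖ ≤ 1 → ‖y - p₂‖ ≤ 1 →
        ‖∑ a ∈ Finset.range (P.L + 1), ∑ b ∈ Finset.range (P.L + 1), coef (a, b, k₁, k₂, k₃) *
          (x ^ a * y ^ b)‖ ≤ B * Real.exp (a * P.L - S' / 4) := by
      intro x y hx hy
      obtain ⟨t, ht, htN, htx⟩ := hc₁ x hx
      obtain ⟨w, hw, hwN, hwy⟩ := hc₂ y hy
      have ht0 : ‖t‖ ≤ ρ₀ := ht.trans (le_max_left _ _)
      have hw0 : ‖w‖ ≤ ρ₀ := hw.trans (le_max_right _ _)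
      have hph1 : ‖ph c₁.τ t‖ ≤ K := (hK₁ t ht htN).trans (le_max_left _ _)
      have hph2 : ‖ph c₂.τ w‖ ≤ K := (hK₂ w hw hwN).trans (le_max_right _ _)
      have hxx := z6_xx c₁ c₂ ρ₀ K hρ₀0.le hK1 P t w ht0 hw0 hph1 hph2
      rw [← hKx] at hxx
      have hN : δ ≤ ‖N0 c₁.τ t * N0 c₂.τ w‖ := by
        rw [norm_mul]
        exact mul_le_mul htN hwN hδ₂.le (norm_nonneg _)
      rw [← htx, ← hwy]
      have hbnd : ∀ j ≤ P.d₃, ∀ i ≤ P.d₂, ∀ k ≤ P.d₁,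
          |(((j * P.b₁ + (h₀ j + i) * P.a₂ : ℤ)) : ℝ)| ≤ X ∧
          |(((j * P.b₂ - (h₀ j + i) * P.a₁ : ℤ)) : ℝ)| ≤ Ki * X ∧ |(((m₀ j i + k : ℤ)) : ℝ)| ≤ Ki * X := by
        intro j hj i hi k hk
        obtain ⟨n1, n2⟩ := hnodes j hj i hi k hk
        exact ⟨n1, hKi X R₀ hR₀ hRX _ _ _ n1 n2⟩
      have hid2 : ∀ (j i : ℕ), P.b₂ * (j * P.b₁ + (h₀ j + i) * P.a₂) - P.b₁ * (j * P.b₂ - (h₀ j + i) * P.a₁)
          = h₀ j + i := by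
        intro j i
        linear_combination (h₀ j + i) * hP.det
      have hid3 : ∀ (j i : ℕ), P.a₁ * (j * P.b₁ + (h₀ j + i) * P.a₂) + P.a₂ * (j * P.b₂ - (h₀ j + i) * P.a₁)
          = j := by
        intro j i
        linear_combination (j : ℤ) * hP.det
      have hG : ∀ j ≤ P.d₃, ∀ i ≤ P.d₂, ∀ k ≤ P.d₁,
          ‖Gs c₁ c₂ P ![((m₀ j i + k : ℤ) : ℂ), ((h₀ j + i : ℤ) : ℂ), ((j : ℤ) : ℂ)] coef t w‖ ≤
            B * Real.exp (-((S' : ℝ) / 2)) := by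
        intro j hj i hi k hk
        obtain ⟨n1, n2⟩ := hnodes j hj i hi k hk
        have := hCs P hP B coef hmax q S' pts hpts hvan X R₀ hR₀ hRX hS1 hS2 hS3 _ _ _ n1 n2 t w ht0 hw0
        have e2 : ((h₀ j + i : ℤ) : ℂ) = P.b₂ * ((j * P.b₁ + (h₀ j + i) * P.a₂ : ℤ) : ℂ) -
            P.b₁ * ((j * P.b₂ - (h₀ j + i) * P.a₁ : ℤ) : ℂ) := by
          have e := congrArg (fun z : ℤ => (z : ℂ)) (hid2 j i)
          push_cast at e ⊢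
          exact e.symm
        have e3 : ((j : ℤ) : ℂ) = P.a₁ * ((j * P.b₁ + (h₀ j + i) * P.a₂ : ℤ) : ℂ) +
            P.a₂ * ((j * P.b₂ - (h₀ j + i) * P.a₁ : ℤ) : ℂ) := by
          have e := congrArg (fun z : ℤ => (z : ℂ)) (hid3 j i)
          push_cast at e ⊢
          exact e.symm
        rw [e2, e3]
        exact this
      have hYm : ∀ (z : ℂ) (n : ℤ), ‖z‖ ≤ Kx * P.A → |(n : ℝ)| ≤ Ki * (P.A * X) →
          ‖z + n‖ ≤ (Kx + Ki) * (P.A * X) := by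
        intro z n hz hn
        have a1 := norm_add_le z (n : ℂ)
        rw [Complex.norm_intCast] at a1
        have a2 : Kx * P.A ≤ Kx * (P.A * X) := by
          apply mul_le_mul_of_nonneg_left _ hKx0.le
          exact le_mul_of_one_le_right (by linarith) hX
        rw [add_mul]
        linarith
      have hAX : Ki * X ≤ Ki * (P.A * X) := by
        apply mul_le_mul_of_nonneg_left _ (by linarith)
        exact le_mul_of_one_le_left (by linarith) (by linarith)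
      have hXKi : X ≤ Ki * X := le_mul_of_one_le_left (by linarith) hKi1
      have hlin : ∀ (u v n n' : ℤ), |(u : ℝ)| + |(v : ℝ)| ≤ P.A → |(n : ℝ)| ≤ Ki * X → |(n' : ℝ)| ≤ Ki * X →
          |((u * n + v * n' : ℤ) : ℝ)| ≤ Ki * (P.A * X) := by
        intro u v n n' huv hn hn'
        push_cast
        refine (abs_add_le _ _).trans ?_
        rw [abs_mul, abs_mul]
        have a1 := mul_le_mul_of_nonneg_left hn (abs_nonneg (u : ℝ))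
        have a2 := mul_le_mul_of_nonneg_left hn' (abs_nonneg (v : ℝ))
        have a3 := mul_le_mul_of_nonneg_right huv (show 0 ≤ Ki * X by positivity)
        rw [add_mul] at a3
        have a4 : P.A * (Ki * X) = Ki * (P.A * X) := mul_left_comm _ _ _
        rw [a4] at a3
        linarith
      have hY₁ : ∀ j ≤ P.d₃, ∀ i ≤ P.d₂, ∀ k ≤ P.d₁, ‖xx c₁ c₂ P 0 t w + m₀ j i + k‖ ≤ (Kx + Ki) * (P.A * X) := by
        intro j hj i hi k hk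
        obtain ⟨n1, n2, n3⟩ := hbnd j hj i hi k hk
        have := hYm (xx c₁ c₂ P 0 t w) (m₀ j i + k) (hxx 0) (n3.trans hAX)
        push_cast at this
        rwa [← add_assoc] at this
      have hY₂ : ∀ j ≤ P.d₃, ∀ i ≤ P.d₂, ‖xx c₁ c₂ P 1 t w + h₀ j + i‖ ≤ (Kx + Ki) * (P.A * X) := by
        intro j hj i hi
        obtain ⟨n1, n2, n3⟩ := hbnd j hj i hi 0 (Nat.zero_le _)
        have h1 := hlin P.b₂ (-P.b₁) _ _ (by push_cast; rw [abs_neg]; linarith) (n1.trans hXKi) n2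
        have h2 : P.b₂ * (j * P.b₁ + (h₀ j + i) * P.a₂) + -P.b₁ * (j * P.b₂ - (h₀ j + i) * P.a₁)
            = h₀ j + i := by linear_combination hid2 j i
        rw [h2] at h1
        have := hYm (xx c₁ c₂ P 1 t w) (h₀ j + i) (hxx 1) h1
        push_cast at this
        rwa [← add_assoc] at this
      have hY₃ : ∀ j ≤ P.d₃, ‖xx c₁ c₂ P 2 t w + j‖ ≤ (Kx + Ki) * (P.A * X) := by
        intro j hj
        obtain ⟨n1, n2, n3⟩ := hbnd j hj 0 (Nat.zero_le _) 0 (Nat.zero_le _)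
        have h1 := hlin P.a₁ P.a₂ _ _ hAa (n1.trans hXKi) n2
        rw [hid3 j 0] at h1
        have := hYm (xx c₁ c₂ P 2 t w) j (hxx 2) h1
        push_cast at this
        exact this
      have h1 := z6_pt c₁ c₂ P coef t w δ _ _ hδ hN h₀ m₀ hG hY₁ hY₂ hY₃ k₁ k₂ k₃ hk₁ hk₂ hk₃
      exact h1.trans (z6_num P.d₁ P.d₂ P.d₃ P.L P.l P.M S' B δ _ hB.le hδ hP.hl hP.hl rfl hS4 (by positivity))
    have h1 := coeff2 P.L (fun a b => coef (a, b, k₁, k₂, k₃)) p₁ p₂ _ hpoly a₀ b₀ ha₀ hb₀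
    have h2 := z6_fin P.L S' B a E hB hE1 hP.hL hS5
    exact absurd (lt_of_le_of_lt h1 h2) (lt_irrefl _)
  intro ν hν
  have := hmax ν hν
  rw [key] at this
  exact norm_le_zero_iff.mp this

end Pool.Agent.MSP
end

end

section

/-! # H1b: existence of the sample points (MP_f58a57_nt, pairs) -/

open Complex Filter Topology

noncomputable section

namespace Pool.Agent.MSP

/-- a ceiling hits an interval -/
theorem h1b_ceil (x w : ℝ) (k d : ℕ) (hk : k ≤ d) (hd : (d : ℝ) + 1 ≤ w) :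
    x ≤ ((⌈x⌉ + k : ℤ) : ℝ) ∧ ((⌈x⌉ + k : ℤ) : ℝ) ≤ x + w := by
  have h1 := Int.le_ceil x
  have h2 := Int.ceil_lt_add_one x
  have hk' : (k : ℝ) ≤ d := by exact_mod_cast hk
  have hk0 : (0 : ℝ) ≤ k := Nat.cast_nonneg k
  push_cast
  constructor <;> linarith

/-- H1b. PROOF. Put `ν = τ₁.im/τ₂.im`, `y₂ = τ₂.im`, `β = b₂ - ν b₁`. With `n₁ = j b₁ + h a₂`, `n₂ = j b₂ - h a₁`: `n₂ - ν n₁ = jβ - hε`, and
(from `a₁b₁ + a₂b₂ = 1`) `ε b₁ + a₂ β = 1`, so `n₁ = j/ε + a₂ (h - jβ/ε)`. Take `h₀ j = ⌈jβ/ε - R₀/(2y₂ε)⌉`; for `0 ≤ i ≤ d₂` the integer `h = h₀ j + i`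
satisfies `|h - jβ/ε| ≤ R₀/(2y₂ε)` (as `d₂ + 1 ≤ R₀/(y₂ε)`), so `|Im(n₂τ₂ - n₁τ₁)| = y₂|jβ - hε| ≤ R₀/2` and
`|n₁| ≤ j/ε + |a₂|R₀/(2y₂ε) ≤ X/2 + X/2`. Take `m₀ j i = ⌈-R₀/2 - Re(n₂τ₂ - n₁τ₁)⌉`; for `0 ≤ k ≤ d₁`, `|Re(n₂τ₂ - n₁τ₁) + m₀ + k| ≤ R₀/2`. Finally
`‖v‖ ≤ |Re v| + |Im v|`. -/
theorem nodes_exist (τ₁ τ₂ : ℂ) (h2 : 0 < τ₂.im) (P : Pr) (hdet : P.a₁ * P.b₁ + P.a₂ * P.b₂ = 1)
    (ε X R₀ : ℝ) (hε : ε = P.a₁ + P.a₂ * (τ₁.im / τ₂.im)) (hε0 : 0 < ε) (hX : 0 < X) (hR : 0 < R₀)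
    (hd₃ : (P.d₃ : ℝ) ≤ ε * X / 2) (hd₂ : ((P.d₂ : ℝ) + 1) * (τ₂.im * ε) ≤ R₀) (hd₁ : (P.d₁ : ℝ) + 1 ≤ R₀)
    (ha : |(P.a₂ : ℝ)| * R₀ ≤ τ₂.im * ε * X) : ∃ (h₀ : ℕ → ℤ) (m₀ : ℕ → ℕ → ℤ), Nodes τ₁ τ₂ P X R₀ h₀ m₀ := by
  set y₂ := τ₂.im with hy₂
  set ν : ℝ := τ₁.im / y₂ with hν
  have hν' : τ₁.im = ν * y₂ := by rw [hν]; field_simp
  set β : ℝ := P.b₂ - ν * P.b₁ with hβ
  have hdet' : (P.a₁ : ℝ) * P.b₁ + P.a₂ * P.b₂ = 1 := by exact_mod_cast hdet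
  have hrel : ε * P.b₁ + P.a₂ * β = 1 := by rw [hε, hβ]; linear_combination hdet'
  have hyε : 0 < y₂ * ε := mul_pos h2 hε0
  set h₀ : ℕ → ℤ := fun j => ⌈(j * β - R₀ / (2 * y₂)) / ε⌉ with hh₀
  set re : ℕ → ℕ → ℝ := fun j i => ((j * P.b₂ - (h₀ j + i) * P.a₁ : ℤ) : ℝ) * τ₂.re -
    ((j * P.b₁ + (h₀ j + i) * P.a₂ : ℤ) : ℝ) * τ₁.re with hre
  refine ⟨h₀, fun j i => ⌈-R₀ / 2 - re j i⌉, ?_⟩
  intro j hj i hi k hk
  have hj' : (j : ℝ) ≤ P.d₃ := by exact_mod_cast hj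
  set h : ℤ := h₀ j + i with hh
  have hceil := h1b_ceil ((j * β - R₀ / (2 * y₂)) / ε) (R₀ / (y₂ * ε)) i P.d₂ hi
    (by rw [le_div_iff₀ hyε]; exact hd₂)
  have hh' : (⌈(j * β - R₀ / (2 * y₂)) / ε⌉ + (i : ℤ) : ℤ) = h := rfl
  rw [hh'] at hceil
  obtain ⟨hc1, hc2⟩ := hceil
  have hb1 : j * β - R₀ / (2 * y₂) ≤ h * ε := by
    rw [div_le_iff₀ hε0] at hc1
    exact hc1
  have hb2 : h * ε ≤ j * β + R₀ / (2 * y₂) := by
    have h3 := mul_le_mul_of_nonneg_right hc2 hε0.le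
    have e1 : ((j * β - R₀ / (2 * y₂)) / ε + R₀ / (y₂ * ε)) * ε = j * β + R₀ / (2 * y₂) := by
      field_simp
      ring
    linarith
  have habs : |j * β - h * ε| ≤ R₀ / (2 * y₂) := by
    rw [abs_le]
    constructor <;> linarith
  set n₁ : ℤ := j * P.b₁ + h * P.a₂ with hn₁
  set n₂ : ℤ := j * P.b₂ - h * P.a₁ with hn₂
  have e1 : (n₁ : ℝ) = j / ε - P.a₂ * (j * β - h * ε) / ε := by
    rw [hn₁]
    push_cast
    field_simp
    linear_combination (j : ℝ) * hrel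
  have e2 : (n₂ : ℝ) - ν * n₁ = j * β - h * ε := by
    rw [hn₁, hn₂, hβ, hε]
    push_cast
    ring
  constructor
  · show |(n₁ : ℝ)| ≤ X
    have h3 : |(P.a₂ : ℝ) * (j * β - h * ε) / ε| ≤ X / 2 := by
      rw [abs_div, abs_mul, abs_of_pos hε0, div_le_iff₀ hε0]
      calc |(P.a₂ : ℝ)| * |j * β - h * ε| ≤ |(P.a₂ : ℝ)| * (R₀ / (2 * y₂)) :=
            mul_le_mul_of_nonneg_left habs (abs_nonneg _)
        _ = (|(P.a₂ : ℝ)| * R₀) / (2 * y₂) := by ring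
        _ ≤ (y₂ * ε * X) / (2 * y₂) := by gcongr
        _ = X / 2 * ε := by field_simp
    have h4 : |(j : ℝ) / ε| ≤ X / 2 := by
      rw [abs_div, abs_of_pos hε0, div_le_iff₀ hε0, abs_of_nonneg (Nat.cast_nonneg j)]
      linarith
    rw [e1]
    calc |(j : ℝ) / ε - P.a₂ * (j * β - h * ε) / ε| ≤ |(j : ℝ) / ε| + |(P.a₂ : ℝ) * (j * β - h * ε) / ε| := abs_sub _ _
      _ ≤ X / 2 + X / 2 := add_le_add h4 h3
      _ = X := by ring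
  · show ‖(n₂ : ℂ) * τ₂ - (n₁ : ℂ) * τ₁ + ((⌈-R₀ / 2 - re j i⌉ + k : ℤ) : ℂ)‖ ≤ R₀
    have hrej : re j i = (n₂ : ℝ) * τ₂.re - (n₁ : ℝ) * τ₁.re := rfl
    obtain ⟨hm1, hm2⟩ := h1b_ceil (-R₀ / 2 - re j i) R₀ k P.d₁ hk hd₁
    refine (Complex.norm_le_abs_re_add_abs_im _).trans ?_
    have hre' : ((n₂ : ℂ) * τ₂ - (n₁ : ℂ) * τ₁ + ((⌈-R₀ / 2 - re j i⌉ + k : ℤ) : ℂ)).re =
        re j i + ((⌈-R₀ / 2 - re j i⌉ + k : ℤ) : ℝ) := by
      rw [hrej]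
      simp
    have him' : ((n₂ : ℂ) * τ₂ - (n₁ : ℂ) * τ₁ + ((⌈-R₀ / 2 - re j i⌉ + k : ℤ) : ℂ)).im =
        y₂ * (j * β - h * ε) := by
      have : ((n₂ : ℂ) * τ₂ - (n₁ : ℂ) * τ₁ + ((⌈-R₀ / 2 - re j i⌉ + k : ℤ) : ℂ)).im =
          (n₂ : ℝ) * τ₂.im - (n₁ : ℝ) * τ₁.im := by
        simp
      rw [this, hν', ← e2, ← hy₂]
      ring
    rw [hre', him']
    have h5 : |re j i + ((⌈-R₀ / 2 - re j i⌉ + k : ℤ) : ℝ)| ≤ R₀ / 2 := by
      rw [abs_le]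
      constructor <;> linarith
    have h6 : |y₂ * (j * β - h * ε)| ≤ R₀ / 2 := by
      rw [abs_mul, abs_of_pos h2]
      calc y₂ * |j * β - h * ε| ≤ y₂ * (R₀ / (2 * y₂)) := mul_le_mul_of_nonneg_left habs h2.le
        _ = R₀ / 2 := by field_simp
    linarith

end Pool.Agent.MSP
end

end
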