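import Mathlib
import Pool.Agent.Lib.MP_f58a57_nt.FK.K002
import Pool.Agent.Lib.MP_f58a57_nt.FK.K004

namespace Pool.Agent.MSP
end Pool.Agent.MSP

section

/-! # N1: Taylor coefficients of `1/P'` (MP_f58a57_nt, algebraic invariants) -/

open Complex Filter Topology

noncomputable section

namespace Pool.Agent.MSN

open Pool.Agent.MSP

/-! Direct proof: with `W = (12x² - 2h) u + 12 x u² + 4 u³`, `w_{k,i} = [u^i] W^k`, `s = 6x² - h`,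
`D w_{k+1,i} = (i+1) w_{k+1,i+1} - 2 s (k+1) w_{k,i}`, and
`g_i = ∑_{k ≤ i} (-1)^k C(2k,k) 4^{i-k} z^{2k+1} w_{k,i}` satisfies `4 D g_i = (i+1) g_{i+1}`. -/

/-- the coefficientwise extension of a derivation to power series -/
def n1_ext {R : Type*} [CommRing R] (D : Derivation ℤ R R) : Derivation ℤ (PowerSeries R) (PowerSeries R) :=
  Derivation.mk'
    (AddMonoidHom.toIntLinearMap
      { toFun := fun f => PowerSeries.mk fun i => D (PowerSeries.coeff i f)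
        map_zero' := by
          ext i
          simp
        map_add' := by
          intro f g
          ext i
          simp })
    (by
      intro f g
      ext i
      show PowerSeries.coeff i (PowerSeries.mk fun i => D (PowerSeries.coeff i (f * g))) =
        PowerSeries.coeff i (f * (PowerSeries.mk fun i => D (PowerSeries.coeff i g)) +
          g * (PowerSeries.mk fun i => D (PowerSeries.coeff i f)))
      simp only [PowerSeries.coeff_mk, map_add, smul_eq_mul,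
        PowerSeries.coeff_mul, map_sum, Derivation.leibniz, Finset.sum_add_distrib]
      congr 1
      rw [← Finset.Nat.sum_antidiagonal_swap]
      rfl)

theorem n1_coeff_ext {R : Type*} [CommRing R] (D : Derivation ℤ R R) (f : PowerSeries R) (i : ℕ) :
    PowerSeries.coeff i (n1_ext D f) = D (PowerSeries.coeff i f) := by
  show PowerSeries.coeff i (PowerSeries.mk fun i => D (PowerSeries.coeff i f)) = _
  rw [PowerSeries.coeff_mk]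

section gen

variable {R : Type*} [CommRing R] (x z h : R)

/-- `W` -/
def n1_W : PowerSeries R :=
  PowerSeries.C (12 * x ^ 2 - 2 * h) * PowerSeries.X ^ 1 + PowerSeries.C (12 * x) * PowerSeries.X ^ 2 +
    PowerSeries.C 4 * PowerSeries.X ^ 3

/-- `w_{k,i}` -/
def n1_w (k i : ℕ) : R := PowerSeries.coeff i (n1_W x h ^ k)

theorem n1_w_zero_zero : n1_w x h 0 0 = 1 := by
  simp [n1_w]

theorem n1_w_succ (k i : ℕ) : n1_w x h (k + 1) i =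
    (12 * x ^ 2 - 2 * h) * (if 1 ≤ i then n1_w x h k (i - 1) else 0) +
      12 * x * (if 2 ≤ i then n1_w x h k (i - 2) else 0) +
      4 * (if 3 ≤ i then n1_w x h k (i - 3) else 0) := by
  unfold n1_w
  have e : ∀ P : PowerSeries R, P * n1_W x h = PowerSeries.C (12 * x ^ 2 - 2 * h) * (P * PowerSeries.X ^ 1) +
      PowerSeries.C (12 * x) * (P * PowerSeries.X ^ 2) +
      PowerSeries.C 4 * (P * PowerSeries.X ^ 3) := by
    intro P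
    rw [n1_W]
    ring
  rw [pow_succ, e, map_add, map_add, PowerSeries.coeff_C_mul, PowerSeries.coeff_C_mul, PowerSeries.coeff_C_mul,
    PowerSeries.coeff_mul_X_pow', PowerSeries.coeff_mul_X_pow', PowerSeries.coeff_mul_X_pow']

theorem n1_w_lt : ∀ (k i : ℕ), i < k → n1_w x h k i = 0 := by
  intro k
  induction k with
  | zero => intro i hi; omega
  | succ k ih =>
    intro i hi
    rw [n1_w_succ]
    have h1 : (if 1 ≤ i then n1_w x h k (i - 1) else 0) = 0 := by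
      split_ifs with h
      · exact ih _ (by omega)
      · rfl
    have h2 : (if 2 ≤ i then n1_w x h k (i - 2) else 0) = 0 := by
      split_ifs with h
      · exact ih _ (by omega)
      · rfl
    have h3 : (if 3 ≤ i then n1_w x h k (i - 3) else 0) = 0 := by
      split_ifs with h
      · exact ih _ (by omega)
      · rfl
    rw [h1, h2, h3]
    ring

theorem n1_w_diag (k : ℕ) : n1_w x h k k = (12 * x ^ 2 - 2 * h) ^ k := by
  induction k with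
  | zero => rw [n1_w_zero_zero, pow_zero]
  | succ k ih =>
    rw [n1_w_succ, if_pos (by omega), Nat.add_sub_cancel, ih]
    have h2 : (if 2 ≤ k + 1 then n1_w x h k (k + 1 - 2) else 0) = 0 := by
      split_ifs with h
      · exact n1_w_lt x _ _ _ (by omega)
      · rfl
    have h3 : (if 3 ≤ k + 1 then n1_w x h k (k + 1 - 3) else 0) = 0 := by
      split_ifs with h
      · exact n1_w_lt x _ _ _ (by omega)
      · rfl
    rw [h2, h3]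
    ring

variable (D : Derivation ℤ R R) (hx : D x = 1) (hz : D z = -(z ^ 3 * (6 * x ^ 2 - h))) (hh : D h = 0)

include hx hh in
theorem n1_ext_W : n1_ext D (n1_W x h) =
    PowerSeries.derivative R (n1_W x h) - PowerSeries.C (2 * (6 * x ^ 2 - h)) := by
  have hn : ∀ n : ℕ, D ((OfNat.ofNat (n + 2) : R)) = 0 := by
    intro n
    have := D.map_natCast (n + 2)
    rwa [← Nat.cast_ofNat (R := R)]
  ext i
  rw [n1_coeff_ext, map_sub, PowerSeries.coeff_derivative]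
  have hc : ∀ j : ℕ, PowerSeries.coeff j (n1_W x h) = (if j = 1 then 12 * x ^ 2 - 2 * h else 0) +
      (if j = 2 then 12 * x else 0) + (if j = 3 then 4 else 0) := by
    intro j
    rw [n1_W, map_add, map_add, PowerSeries.coeff_C_mul, PowerSeries.coeff_C_mul,
      PowerSeries.coeff_C_mul, PowerSeries.coeff_X_pow, PowerSeries.coeff_X_pow,
      PowerSeries.coeff_X_pow]
    simp only [mul_ite, mul_one, mul_zero]
  rw [hc, hc, PowerSeries.coeff_C]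
  have d1 : D (12 * x ^ 2 - 2 * h) = 24 * x := by
    rw [map_sub, Derivation.leibniz, Derivation.leibniz, Derivation.leibniz_pow, hx, hh, hn 10, hn 0]
    simp only [smul_eq_mul, nsmul_eq_mul]
    push_cast
    ring
  have d2 : D (12 * x) = 12 := by
    rw [Derivation.leibniz, hx, hn 10]
    simp
  have d3 : D 4 = 0 := hn 2
  match i with
  | 0 => simp; ring
  | 1 => simp [d1]; ring
  | 2 => simp [d2]; ring
  | 3 => simp [d3]
  | (n + 4) => simp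

include hx hh in
theorem n1_D_w (k i : ℕ) : D (n1_w x h (k + 1) i) =
    (i + 1) * n1_w x h (k + 1) (i + 1) - (k + 1) * (2 * (6 * x ^ 2 - h)) * n1_w x h k i := by
  unfold n1_w
  rw [← n1_coeff_ext, Derivation.leibniz_pow, n1_ext_W x h D hx hh, Nat.add_sub_cancel]
  have e : (k + 1) • n1_W x h ^ k • (PowerSeries.derivative R (n1_W x h) -
      PowerSeries.C (2 * (6 * x ^ 2 - h))) = PowerSeries.derivative R (n1_W x h ^ (k + 1)) -
      PowerSeries.C ((k + 1) * (2 * (6 * x ^ 2 - h))) * n1_W x h ^ k := by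
    rw [Derivation.leibniz_pow, Nat.add_sub_cancel]
    simp only [smul_eq_mul, nsmul_eq_mul, map_mul, map_add, map_natCast, map_one]
    push_cast
    ring
  rw [e, map_sub, PowerSeries.coeff_derivative, PowerSeries.coeff_C_mul]
  ring

theorem n1_D_w_zero (i : ℕ) : D (n1_w x h 0 i) = (i + 1) * n1_w x h 0 (i + 1) := by
  unfold n1_w
  rw [pow_zero, PowerSeries.coeff_one, PowerSeries.coeff_one, if_neg (Nat.succ_ne_zero i), mul_zero]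
  split_ifs
  · exact D.map_one_eq_zero
  · exact map_zero D

/-- `b_k = (-1)^k C(2k,k)` -/
def n1_b (k : ℕ) : ℤ := (-1) ^ k * (Nat.centralBinom k : ℤ)

theorem n1_b_succ (k : ℕ) : ((k : ℤ) + 1) * n1_b (k + 1) = -(2 * (2 * k + 1) * n1_b k) := by
  unfold n1_b
  have := Nat.succ_mul_centralBinom_succ k
  have h2 : ((k : ℤ) + 1) * (Nat.centralBinom (k + 1) : ℤ) = 2 * (2 * k + 1) * (Nat.centralBinom k : ℤ) := by
    exact_mod_cast this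
  rw [pow_succ]
  linear_combination (-(-1) ^ k) * h2

/-- `g_i` -/
def n1_g (i : ℕ) : R :=
  ∑ k ∈ Finset.range (i + 1), ((n1_b k * 4 ^ (i - k) : ℤ) : R) * (z ^ (2 * k + 1) * n1_w x h k i)

theorem n1_D_int (n : ℤ) (y : R) : D ((n : R) * y) = (n : R) * D y := by
  rw [← zsmul_eq_mul, map_zsmul, zsmul_eq_mul]

include hz in
theorem n1_D_zw (k i : ℕ) : D (z ^ (2 * k + 1) * n1_w x h k i) =
    z ^ (2 * k + 1) * D (n1_w x h k i) -
      (2 * k + 1) * ((6 * x ^ 2 - h) * z ^ (2 * k + 3) * n1_w x h k i) := by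
  rw [Derivation.leibniz, Derivation.leibniz_pow, hz, Nat.add_sub_cancel]
  simp only [smul_eq_mul, nsmul_eq_mul]
  push_cast
  ring

include hx hz hh in
theorem n1_D_g (i : ℕ) : 4 * D (n1_g x z h i) = (i + 1) * n1_g x z h (i + 1) := by
  have hD : D (n1_g x z h i) = ∑ k ∈ Finset.range (i + 1), ((n1_b k * 4 ^ (i - k) : ℤ) : R) *
        (z ^ (2 * k + 1) * D (n1_w x h k i)) -
      ∑ k ∈ Finset.range (i + 1), ((n1_b k * 4 ^ (i - k) : ℤ) : R) *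
        ((2 * k + 1) * ((6 * x ^ 2 - h) * z ^ (2 * k + 3) * n1_w x h k i)) := by
    rw [n1_g, map_sum, ← Finset.sum_sub_distrib]
    refine Finset.sum_congr rfl fun k _ => ?_
    rw [n1_D_int, n1_D_zw x z h D hz, mul_sub]
  have h1 : ∑ k ∈ Finset.range (i + 1), ((n1_b k * 4 ^ (i - k) : ℤ) : R) *
        (z ^ (2 * k + 1) * D (n1_w x h k i)) =
      (i + 1) * ∑ k ∈ Finset.range (i + 1), ((n1_b k * 4 ^ (i - k) : ℤ) : R) *
        (z ^ (2 * k + 1) * n1_w x h k (i + 1)) -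
      ∑ j ∈ Finset.range i, ((n1_b (j + 1) * 4 ^ (i - (j + 1)) : ℤ) : R) *
        (2 * (j + 1) * ((6 * x ^ 2 - h) * z ^ (2 * j + 3) * n1_w x h j i)) := by
    rw [Finset.sum_range_succ', Finset.sum_range_succ', mul_add, n1_D_w_zero, Finset.mul_sum,
      add_sub_right_comm, ← Finset.sum_sub_distrib]
    congr 1
    · refine Finset.sum_congr rfl fun j _ => ?_
      rw [n1_D_w x h D hx hh]
      ring
    · ring
  have h2 : ∑ k ∈ Finset.range (i + 1), ((n1_b k * 4 ^ (i - k) : ℤ) : R) *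
        ((2 * k + 1) * ((6 * x ^ 2 - h) * z ^ (2 * k + 3) * n1_w x h k i)) =
      ∑ k ∈ Finset.range i, ((n1_b k * 4 ^ (i - k) : ℤ) : R) *
        ((2 * k + 1) * ((6 * x ^ 2 - h) * z ^ (2 * k + 3) * n1_w x h k i)) +
      (n1_b i : R) * ((2 * i + 1) * ((6 * x ^ 2 - h) * z ^ (2 * i + 3) * (12 * x ^ 2 - 2 * h) ^ i)) := by
    rw [Finset.sum_range_succ, Nat.sub_self, n1_w_diag]
    push_cast
    ring
  have h3 : 4 * ∑ j ∈ Finset.range i, ((n1_b (j + 1) * 4 ^ (i - (j + 1)) : ℤ) : R) *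
        (2 * (j + 1) * ((6 * x ^ 2 - h) * z ^ (2 * j + 3) * n1_w x h j i)) =
      -(4 * ∑ k ∈ Finset.range i, ((n1_b k * 4 ^ (i - k) : ℤ) : R) *
        ((2 * k + 1) * ((6 * x ^ 2 - h) * z ^ (2 * k + 3) * n1_w x h k i))) := by
    rw [Finset.mul_sum, Finset.mul_sum, ← Finset.sum_neg_distrib]
    refine Finset.sum_congr rfl fun j hj => ?_
    have hji : i - j = (i - (j + 1)) + 1 := by
      have := Finset.mem_range.1 hj
      omega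
    have hb := congrArg (Int.cast : ℤ → R) (n1_b_succ j)
    push_cast at hb
    rw [hji, pow_succ]
    push_cast
    linear_combination (8 * 4 ^ (i - (j + 1)) * ((6 * x ^ 2 - h) * z ^ (2 * j + 3) * n1_w x h j i)) * hb
  have h4 : n1_g x z h (i + 1) = 4 * ∑ k ∈ Finset.range (i + 1), ((n1_b k * 4 ^ (i - k) : ℤ) : R) *
        (z ^ (2 * k + 1) * n1_w x h k (i + 1)) +
      (n1_b (i + 1) : R) * (z ^ (2 * i + 3) * (12 * x ^ 2 - 2 * h) ^ (i + 1)) := by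
    rw [n1_g, Finset.sum_range_succ, Nat.sub_self, n1_w_diag, Finset.mul_sum]
    congr 1
    · refine Finset.sum_congr rfl fun k hk => ?_
      have hki : i + 1 - k = (i - k) + 1 := by
        have := Finset.mem_range.1 hk
        omega
      rw [hki, pow_succ]
      push_cast
      ring
    · push_cast
      ring
  have hb := congrArg (Int.cast : ℤ → R) (n1_b_succ i)
  push_cast at hb
  rw [hD, mul_sub, h1, mul_sub, h3, h2, h4]
  linear_combination (-(z ^ (2 * i + 3) * (12 * x ^ 2 - 2 * h) ^ (i + 1))) * hb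

include hx hz hh in
theorem n1_iter (i : ℕ) : (4 : ℤ) ^ i • (D^[i] z) = (i.factorial : ℤ) • n1_g x z h i := by
  induction i with
  | zero =>
    simp [n1_g, n1_b, n1_w_zero_zero]
  | succ i ih =>
    rw [Function.iterate_succ_apply', pow_succ', mul_smul]
    have h1 : (4 : ℤ) ^ i • D (D^[i] z) = D ((4 : ℤ) ^ i • (D^[i] z)) := (map_zsmul D _ _).symm
    rw [h1, ih, map_zsmul, smul_comm, Nat.factorial_succ]
    have h2 : (4 : ℤ) • D (n1_g x z h i) = 4 * D (n1_g x z h i) := by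
      rw [zsmul_eq_mul]; norm_num
    rw [h2, n1_D_g x z h D hx hz hh, zsmul_eq_mul, zsmul_eq_mul]
    push_cast
    ring

end gen

/-- bound for `w` -/
theorem n1_bd_w (x h : PN) (hx : Bd 1 0 1 x) (hh : Bd 1 0 1 h) : ∀ k i : ℕ,
    Bd (2 * k) 0 (30 ^ k) (n1_w x h k i) := by
  intro k
  induction k with
  | zero =>
    intro i
    rw [n1_w, pow_zero, pow_zero, PowerSeries.coeff_one]
    split_ifs
    · have := Bd.const (r := 6) (s := 12) 1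
      simpa using this
    · exact Bd.zero _ _ _ zero_le_one
  | succ k ih =>
    intro i
    rw [n1_w_succ]
    have hpos : (0 : ℝ) ≤ 30 ^ k := by positivity
    have hi : ∀ m : ℕ, Bd (2 * k) 0 (30 ^ k) (if m ≤ i then n1_w x h k (i - m) else 0) := by
      intro m
      split_ifs
      · exact ih _
      · exact Bd.zero _ _ _ hpos
    have hc : ∀ c : ℤ, Bd 0 0 |(c : ℝ)| (MvPolynomial.C c : PN) := fun c => Bd.const c
    have e12 : (12 : PN) = MvPolynomial.C (12 : ℤ) := by simp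
    have e4 : (4 : PN) = MvPolynomial.C (4 : ℤ) := by simp
    have b1 : Bd 2 0 14 (12 * x ^ 2 - 2 * h) := by
      have h1 : Bd 2 0 12 (12 * x ^ 2) := by
        rw [e12]
        have := (hc 12).mul (hx.pow 2)
        norm_num at this
        exact this
      have h2 : Bd 2 0 2 (-(2 * h)) := by
        have := (hc (-2)).mul hh
        norm_num at this
        exact this.mono (by norm_num) (le_refl _) (le_refl _)
      have h3 := h1.add h2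
      rw [sub_eq_add_neg]
      norm_num at h3
      exact h3
    have b2 : Bd 1 0 12 (12 * x) := by
      rw [e12]
      have := (hc 12).mul hx
      norm_num at this
      exact this
    have b3 : Bd 0 0 4 (4 : PN) := by
      rw [e4]
      have := hc 4
      norm_num at this
      exact this
    have c1 : Bd (2 * (k + 1)) 0 (14 * 30 ^ k) ((12 * x ^ 2 - 2 * h) * (if 1 ≤ i then n1_w x h k (i - 1) else 0)) :=
      (b1.mul (hi 1)).mono (by omega) (le_refl _) (le_refl _)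
    have c2 : Bd (2 * (k + 1)) 0 (12 * 30 ^ k) (12 * x * (if 2 ≤ i then n1_w x h k (i - 2) else 0)) :=
      (b2.mul (hi 2)).mono (by omega) (le_refl _) (le_refl _)
    have c3 : Bd (2 * (k + 1)) 0 (4 * 30 ^ k) ((4 : PN) * (if 3 ≤ i then n1_w x h k (i - 3) else 0)) :=
      (b3.mul (hi 3)).mono (by omega) (le_refl _) (le_refl _)
    exact ((c1.add c2).add c3).mono (le_refl _) (le_refl _) (by rw [pow_succ]; linarith)

theorem n1_bd_g (x z h : PN) (hx : Bd 1 0 1 x) (hz : Bd 1 0 1 z) (hh : Bd 1 0 1 h) (i : ℕ) :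
    Bd (4 * i + 1) 0 (256 ^ i) (n1_g x z h i) := by
  have h1 : ∀ k ∈ Finset.range (i + 1), Bd (4 * i + 1) 0 (120 ^ i)
      (((n1_b k * 4 ^ (i - k) : ℤ) : PN) * (z ^ (2 * k + 1) * n1_w x h k i)) := by
    intro k hk
    have hk' : k ≤ i := by
      have := Finset.mem_range.1 hk
      omega
    have e : ((n1_b k * 4 ^ (i - k) : ℤ) : PN) = MvPolynomial.C (n1_b k * 4 ^ (i - k)) := by
      simp
    have hb : |((n1_b k * 4 ^ (i - k) : ℤ) : ℝ)| ≤ 4 ^ i := by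
      have h2 : (Nat.centralBinom k : ℝ) ≤ 4 ^ k := by
        have h3 : Nat.centralBinom k ≤ 4 ^ k := by
          rw [Nat.centralBinom_eq_two_mul_choose]
          have h4 := Nat.choose_le_two_pow (2 * k) k
          rw [pow_mul] at h4
          exact h4
        exact_mod_cast h3
      have h5 : |((n1_b k * 4 ^ (i - k) : ℤ) : ℝ)| = (Nat.centralBinom k : ℝ) * 4 ^ (i - k) := by
        unfold n1_b
        push_cast
        rw [abs_mul, abs_mul, abs_pow, abs_pow, abs_neg, abs_one, one_pow, one_mul, Nat.abs_cast]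
        norm_num
      rw [h5]
      calc (Nat.centralBinom k : ℝ) * 4 ^ (i - k) ≤ 4 ^ k * 4 ^ (i - k) :=
            mul_le_mul_of_nonneg_right h2 (by positivity)
        _ = 4 ^ i := by rw [← pow_add, Nat.add_sub_cancel' hk']
    rw [e]
    refine ((Bd.const (n1_b k * 4 ^ (i - k))).mul ((hz.pow (2 * k + 1)).mul (n1_bd_w x h hx hh k i))).mono
      (by omega) (by omega) ?_
    rw [one_pow, one_mul]
    calc |((n1_b k * 4 ^ (i - k) : ℤ) : ℝ)| * 30 ^ k ≤ 4 ^ i * 30 ^ i := by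
          refine mul_le_mul hb ?_ (by positivity) (by positivity)
          exact pow_le_pow_right₀ (by norm_num) hk'
      _ = 120 ^ i := by rw [← mul_pow]; norm_num
  refine (Bd.sum (Finset.range (i + 1)) (fun _ => (120 : ℝ) ^ i) _ h1).mono (le_refl _) (le_refl _) ?_
  rw [Finset.sum_const, Finset.card_range, nsmul_eq_mul]
  have h6 : ((i + 1 : ℕ) : ℝ) ≤ 2 ^ i := by
    have : i + 1 ≤ 2 ^ i := Nat.lt_two_pow_self
    exact_mod_cast this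
  calc ((i + 1 : ℕ) : ℝ) * 120 ^ i ≤ 2 ^ i * 120 ^ i := mul_le_mul_of_nonneg_right h6 (by positivity)
    _ = 240 ^ i := by rw [← mul_pow]; norm_num
    _ ≤ 256 ^ i := pow_le_pow_left₀ (by norm_num) (by norm_num) i

/-- N1a. PROOF. Work in `A = MvPolynomial _ ℚ` (or in `PN ⊗ ℚ`; `D = D₁` extends) and `A[[u]]`. Let `E(p) = ∑_i (D^i p/i!) u^i`: a ring homomorphism
`A → A[[u]]` (Leibniz rule) with `(d/du) E(p) = E(D p)`. `E(x₁) = x₁ + u`. Put `W = (12x₁² - 2h₁) u + 12x₁ u² + 4u³`,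
`Z = E(z₁)`, `G = Z² (1 + z₁² W)`. From `D z₁ = -z₁³(6x₁² - h₁)` and `W' = 2(6(x₁+u)² - h₁)` one gets `G' = 2(6(x₁+u)² - h₁) Z² (z₁² - G)`, `G(0) = z₁²`, so
`G = z₁²` (compare lowest coefficients of `G - z₁²`; `ℚ`-algebra). On the other hand `Z' = z₁ ∑_k (-1)^k C(2k,k) 4^{-k} z₁^{2k} W^k` also satisfies `Z'² (1 + z₁² W) = z₁²`
(`(∑_k (-1)^k C(2k,k) X^k/4^k)² (1 + X) = 1`) with the same constant term, and `A[[u]]` is a domain, so `Z = Z'`. Hence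
`4^i D^i z₁/i! = ∑_{k ≤ i} (-1)^k C(2k,k) 4^{i-k} z₁^{2k+1} [u^i] W^k`, an integer polynomial of degree `≤ (2i+1) + 2i` in the `inl` variables, of length
`≤ ∑_k 4^k 4^{i-k} 30^k ≤ (i+1) 120^i ≤ 240^i`. (Any other proof of an estimate of this shape, with `240` replaced by another constant, is welcome:
then change the constant `256` here and tell helper88.) -/
theorem zser₁ (i : ℕ) : ∃ g : PN, Bd (4 * i + 1) 0 (256 ^ i) g ∧ (4 : ℤ) ^ i • (D₁^[i] (nX 1)) = (i.factorial : ℤ) • g := by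
  refine ⟨n1_g (nX 0) (nX 1) (nX 4) i, n1_bd_g _ _ _ (Bd.varA 0) (Bd.varA 1) (Bd.varA 4) i,
    n1_iter (nX 0) (nX 1) (nX 4) D₁ ?_ ?_ ?_ i⟩
  · exact MvPolynomial.mkDerivation_X _ _ _
  · exact MvPolynomial.mkDerivation_X _ _ _
  · exact MvPolynomial.mkDerivation_X _ _ _

/-- N1b. the same with the variables `x₂, z₂, h₂`. -/
theorem zser₂ (i : ℕ) : ∃ g : PN, Bd (4 * i + 1) 0 (256 ^ i) g ∧ (4 : ℤ) ^ i • (D₂^[i] (nX 3)) = (i.factorial : ℤ) • g := by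
  refine ⟨n1_g (nX 2) (nX 3) (nX 5) i, n1_bd_g _ _ _ (Bd.varA 2) (Bd.varA 3) (Bd.varA 5) i,
    n1_iter (nX 2) (nX 3) (nX 5) D₂ ?_ ?_ ?_ i⟩
  · exact MvPolynomial.mkDerivation_X _ _ _
  · exact MvPolynomial.mkDerivation_X _ _ _
  · exact MvPolynomial.mkDerivation_X _ _ _

end Pool.Agent.MSN
end

end

section

/-! # H1: Diophantine geometry of the sample points (MP_f58a57_nt, pairs) -/

open Complex Filter Topology

noncomputable section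

namespace Pool.Agent.MSP

theorem h1_bezout (a₁ a₂ : ℤ) (h : IsCoprime a₁ a₂) (h2 : a₂ ≠ 0) :
    ∃ b₁ b₂ : ℤ, a₁ * b₁ + a₂ * b₂ = 1 ∧ |b₁| ≤ |a₂| ∧ |b₂| ≤ 1 + |a₁| := by
  obtain ⟨u, v, huv⟩ := h
  have hm : u % a₂ + a₂ * (u / a₂) = u := Int.emod_add_mul_ediv u a₂
  refine ⟨u % a₂, v + a₁ * (u / a₂), ?_, ?_, ?_⟩
  · linear_combination huv + a₁ * hm
  · rw [abs_of_nonneg (Int.emod_nonneg _ h2)]
    exact (Int.emod_lt_abs u h2).le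
  · have h1 : a₂ * (v + a₁ * (u / a₂)) = 1 - a₁ * (u % a₂) := by linear_combination huv + a₁ * hm
    have h3 : |u % a₂| ≤ |a₂| := by
      rw [abs_of_nonneg (Int.emod_nonneg _ h2)]
      exact (Int.emod_lt_abs u h2).le
    have ha : 0 < |a₂| := abs_pos.2 h2
    have h4 : |a₂| * |v + a₁ * (u / a₂)| ≤ |a₂| * (1 + |a₁|) := by
      rw [← abs_mul, h1]
      have h5 : |1 - a₁ * (u % a₂)| ≤ 1 + |a₁| * |u % a₂| := by
        refine (abs_sub _ _).trans ?_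
        rw [abs_one, abs_mul]
      have h6 : |a₁| * |u % a₂| ≤ |a₁| * |a₂| := mul_le_mul_of_nonneg_left h3 (abs_nonneg _)
      have h7 : (1 : ℤ) ≤ |a₂| := ha
      nlinarith
    exact le_of_mul_le_mul_left h4 ha

/-- H1a. PROOF. `Real.exists_rat_abs_sub_le_and_den_le` gives a rational `q` with `|ν - q| ≤ 1/((N+1) q.den)`, `q.den ≤ N`; put
`(a₁, a₂) = ±(-q.num, q.den)` with the sign such that `ε = a₁ + a₂ν > 0` (`ε ≠ 0`, `ν` irrational); `ε ≤ 1/(N+1)`. Lower bound: with `ν² = r`,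
`ε |a₁ - a₂ν| = |a₁² - a₂² r| ≥ 1/r.den` (it is `≠ 0` as `ν` is irrational) and `|a₁ - a₂ν| ≤ 1 + 2Nν ≤ (1 + 2ν)N`. Bezout: `a₁, a₂` are coprime; take
`b₁` reduced modulo `a₂` (`0 ≤ b₁ < |a₂|`), `b₂ = (1 - a₁b₁)/a₂`, `|b₂| ≤ 1 + |a₁|`. `|a₁| ≤ 1 + Nν`. -/
theorem dirichlet (ν : ℝ) (hν : 0 < ν) (hirr : Irrational ν) (hsq : ∃ r : ℚ, ν ^ 2 = r) :
    ∃ c C : ℝ, 0 < c ∧ 0 < C ∧ ∀ N : ℕ, 2 ≤ N → ∃ a₁ a₂ b₁ b₂ : ℤ, a₁ * b₁ + a₂ * b₂ = 1 ∧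
      c / N ≤ a₁ + a₂ * ν ∧ a₁ + a₂ * ν ≤ 1 / N ∧ |(a₂ : ℝ)| ≤ N ∧
      2 + |(a₁ : ℝ)| + |(a₂ : ℝ)| + |(b₁ : ℝ)| + |(b₂ : ℝ)| ≤ C * N := by
  obtain ⟨r, hr⟩ := hsq
  have hrd : (0 : ℝ) < (r.den : ℝ) := by exact_mod_cast r.den_pos
  refine ⟨1 / (r.den * (1 + 2 * ν)), 7 + 2 * ν, by positivity, by positivity, ?_⟩
  intro N hN
  have hN0 : 0 < N := by omega
  have hN1 : (1 : ℝ) ≤ N := by exact_mod_cast hN0
  -- the pair
  obtain ⟨a₁, a₂, hcop, ha20, hpos, hle, ha2⟩ : ∃ a₁ a₂ : ℤ, IsCoprime a₁ a₂ ∧ a₂ ≠ 0 ∧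
      0 < (a₁ : ℝ) + a₂ * ν ∧ (a₁ : ℝ) + a₂ * ν ≤ 1 / (N + 1) ∧ |(a₂ : ℝ)| ≤ N := by
    obtain ⟨q, hq, hqd⟩ := Real.exists_rat_abs_sub_le_and_den_le ν hN0
    have hd : (0 : ℝ) < q.den := by exact_mod_cast q.den_pos
    have hqe : (q : ℝ) = q.num / q.den := by exact_mod_cast (Rat.cast_def (K := ℝ) q)
    have hcop : IsCoprime q.num (q.den : ℤ) := Rat.isCoprime_num_den q
    have e1 : (q.den : ℝ) * ν - q.num = q.den * (ν - q) := by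
      rw [hqe]
      field_simp
    have habs : |(q.den : ℝ) * ν - q.num| ≤ 1 / (N + 1) := by
      rw [e1, abs_mul, abs_of_pos hd]
      calc (q.den : ℝ) * |ν - q| ≤ q.den * (1 / ((N + 1) * q.den)) :=
            mul_le_mul_of_nonneg_left hq hd.le
        _ = 1 / (N + 1) := by field_simp
    have hne : (q.den : ℝ) * ν - q.num ≠ 0 := by
      rw [e1]
      refine mul_ne_zero hd.ne' ?_
      intro h
      have h' : ν = (q : ℝ) := by linarith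
      exact hirr ⟨q, h'.symm⟩
    have hdN : (q.den : ℝ) ≤ N := by exact_mod_cast hqd
    rcases lt_or_gt_of_ne hne with h | h
    · refine ⟨q.num, -(q.den : ℤ), hcop.neg_right, ?_, ?_, ?_, ?_⟩
      · have := q.den_pos
        omega
      · push_cast
        linarith
      · rw [abs_of_neg h] at habs
        push_cast
        linarith
      · push_cast
        rw [abs_neg, abs_of_pos hd]
        exact hdN
    · refine ⟨-q.num, (q.den : ℤ), hcop.neg_left, ?_, ?_, ?_, ?_⟩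
      · have := q.den_pos
        omega
      · push_cast
        linarith
      · rw [abs_of_pos h] at habs
        push_cast
        linarith
      · push_cast
        rw [abs_of_pos hd]
        exact hdN
  obtain ⟨b₁, b₂, hb, hb1, hb2⟩ := h1_bezout a₁ a₂ hcop ha20
  have hle1 : (1 : ℝ) / (N + 1) ≤ 1 / N := one_div_le_one_div_of_le (by linarith) (by linarith)
  have hle2 : (1 : ℝ) / (N + 1) ≤ 1 := by
    rw [div_le_one (by linarith)]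
    linarith
  have ha1 : |(a₁ : ℝ)| ≤ 1 + ν * N := by
    have h1 : (a₁ : ℝ) = ((a₁ : ℝ) + a₂ * ν) - a₂ * ν := by ring
    rw [h1]
    refine (abs_sub _ _).trans ?_
    rw [abs_of_pos hpos, abs_mul, abs_of_pos hν]
    have h2 := mul_le_mul_of_nonneg_right ha2 hν.le
    linarith
  have hb1' : |(b₁ : ℝ)| ≤ |(a₂ : ℝ)| := by exact_mod_cast hb1
  have hb2' : |(b₂ : ℝ)| ≤ 1 + |(a₁ : ℝ)| := by exact_mod_cast hb2
  refine ⟨a₁, a₂, b₁, b₂, hb, ?_, hle.trans hle1, ha2, ?_⟩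
  · -- lower bound
    have hre : (r : ℝ) = r.num / r.den := by exact_mod_cast (Rat.cast_def (K := ℝ) r)
    have hm : (a₁ : ℝ) - a₂ * ν ≠ 0 := by
      intro h
      have ha20' : (a₂ : ℝ) ≠ 0 := by exact_mod_cast ha20
      have h2 : ν = (((a₁ : ℚ) / (a₂ : ℚ) : ℚ) : ℝ) := by
        push_cast
        field_simp
        linarith
      exact hirr ⟨_, h2.symm⟩
    have hprod : ((a₁ : ℝ) + a₂ * ν) * ((a₁ : ℝ) - a₂ * ν) * r.den =
        ((a₁ ^ 2 * r.den - a₂ ^ 2 * r.num : ℤ) : ℝ) := by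
      have h1 : ((a₁ : ℝ) + a₂ * ν) * ((a₁ : ℝ) - a₂ * ν) = a₁ ^ 2 - a₂ ^ 2 * ν ^ 2 := by ring
      rw [h1, hr, hre]
      push_cast
      field_simp
    have hnz : (a₁ ^ 2 * r.den - a₂ ^ 2 * r.num : ℤ) ≠ 0 := by
      intro h
      rw [h] at hprod
      have : ((a₁ : ℝ) + a₂ * ν) * ((a₁ : ℝ) - a₂ * ν) * r.den ≠ 0 :=
        mul_ne_zero (mul_ne_zero hpos.ne' hm) hrd.ne'
      exact this (by rw [hprod]; simp)
    have h1 : (1 : ℝ) ≤ ((a₁ : ℝ) + a₂ * ν) * |(a₁ : ℝ) - a₂ * ν| * r.den := by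
      have h2 : (1 : ℤ) ≤ |a₁ ^ 2 * r.den - a₂ ^ 2 * r.num| := Int.one_le_abs hnz
      have h3 : (1 : ℝ) ≤ |((a₁ ^ 2 * r.den - a₂ ^ 2 * r.num : ℤ) : ℝ)| := by
        rw [← Int.cast_abs]
        exact_mod_cast h2
      rw [← hprod, abs_mul, abs_mul, abs_of_pos hpos, abs_of_pos hrd] at h3
      exact h3
    have h4 : |(a₁ : ℝ) - a₂ * ν| ≤ (1 + 2 * ν) * N := by
      refine (abs_sub _ _).trans ?_
      rw [abs_mul, abs_of_pos hν]
      have h2 := mul_le_mul_of_nonneg_right ha2 hν.le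
      nlinarith
    have h5 : (1 : ℝ) ≤ ((a₁ : ℝ) + a₂ * ν) * ((1 + 2 * ν) * N) * r.den := by
      refine h1.trans ?_
      exact mul_le_mul_of_nonneg_right (mul_le_mul_of_nonneg_left h4 hpos.le) hrd.le
    rw [div_div, div_le_iff₀ (by positivity)]
    linarith
  · have h1 : 2 + |(a₁ : ℝ)| + |(a₂ : ℝ)| + |(b₁ : ℝ)| + |(b₂ : ℝ)| ≤ 5 + 2 * (ν * N) + 2 * N := by linarith
    nlinarith

end Pool.Agent.MSP
end

end

section

/-! # Choice of the parameters for an arbitrary irrational ratio (MP_f58a57_nt, algebraic `j`) -/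

open Complex Filter Topology

noncomputable section

namespace Pool.Agent.MSN

open MSP

theorem dirichlet2 (ν : ℝ) (hirr : Irrational ν) (N : ℕ) (hN0 : 0 < N) : ∃ a₁ a₂ b₁ b₂ : ℤ,
    a₁ * b₁ + a₂ * b₂ = 1 ∧ 0 < (a₁ : ℝ) + a₂ * ν ∧ (a₁ : ℝ) + a₂ * ν ≤ 1 / (N + 1) ∧
      |(a₂ : ℝ)| * (a₁ + a₂ * ν) ≤ 1 := by
  have hN1 : (1 : ℝ) ≤ N := by exact_mod_cast hN0
  obtain ⟨a₁, a₂, hcop, ha20, hpos, hle, ha2⟩ : ∃ a₁ a₂ : ℤ, IsCoprime a₁ a₂ ∧ a₂ ≠ 0 ∧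
      0 < (a₁ : ℝ) + a₂ * ν ∧ (a₁ : ℝ) + a₂ * ν ≤ 1 / (N + 1) ∧ |(a₂ : ℝ)| ≤ N := by
    obtain ⟨q, hq, hqd⟩ := Real.exists_rat_abs_sub_le_and_den_le ν hN0
    have hd : (0 : ℝ) < q.den := by exact_mod_cast q.den_pos
    have hqe : (q : ℝ) = q.num / q.den := by exact_mod_cast (Rat.cast_def (K := ℝ) q)
    have hcop : IsCoprime q.num (q.den : ℤ) := Rat.isCoprime_num_den q
    have e1 : (q.den : ℝ) * ν - q.num = q.den * (ν - q) := by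
      rw [hqe]
      field_simp
    have habs : |(q.den : ℝ) * ν - q.num| ≤ 1 / (N + 1) := by
      rw [e1, abs_mul, abs_of_pos hd]
      calc (q.den : ℝ) * |ν - q| ≤ q.den * (1 / ((N + 1) * q.den)) :=
            mul_le_mul_of_nonneg_left hq hd.le
        _ = 1 / (N + 1) := by field_simp
    have hne : (q.den : ℝ) * ν - q.num ≠ 0 := by
      rw [e1]
      refine mul_ne_zero hd.ne' ?_
      intro h
      have h' : ν = (q : ℝ) := by linarith only [h]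
      exact hirr ⟨q, h'.symm⟩
    have hdN : (q.den : ℝ) ≤ N := by exact_mod_cast hqd
    rcases lt_or_gt_of_ne hne with h | h
    · refine ⟨q.num, -(q.den : ℤ), hcop.neg_right, ?_, ?_, ?_, ?_⟩
      · have := q.den_pos
        omega
      · push_cast
        linarith only [h]
      · rw [abs_of_neg h] at habs
        push_cast
        linarith only [habs]
      · push_cast
        rw [abs_neg, abs_of_pos hd]
        exact hdN
    · refine ⟨-q.num, (q.den : ℤ), hcop.neg_left, ?_, ?_, ?_, ?_⟩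
      · have := q.den_pos
        omega
      · push_cast
        linarith only [h]
      · rw [abs_of_pos h] at habs
        push_cast
        linarith only [habs]
      · push_cast
        rw [abs_of_pos hd]
        exact hdN
  obtain ⟨b₁, b₂, hb, -, -⟩ := h1_bezout a₁ a₂ hcop ha20
  refine ⟨a₁, a₂, b₁, b₂, hb, hpos, hle, ?_⟩
  calc |(a₂ : ℝ)| * (a₁ + a₂ * ν) ≤ N * (1 / (N + 1)) := by gcongr
    _ ≤ 1 := by
      rw [mul_one_div, div_le_one (by linarith only [hN1])]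
      linarith only [hN1]


set_option maxHeartbeats 1000000 in
theorem params2 (τ₁ τ₂ : ℂ) (h2 : 0 < τ₂.im) (hirr : Irrational (τ₁.im / τ₂.im)) :
    ∃ c : ℝ, 0 < c ∧ ∀ κ₁ κ₂ η C K : ℝ, 0 < κ₁ → 0 < κ₂ → 0 < η → 1 ≤ C → ∃ R l₀ : ℕ, K ≤ R ∧ 1 ≤ R ∧
      ((l₀ : ℝ) + 1) * (1 + Real.log (l₀ + 1)) ≤ η * R ∧ ∀ᶠ L : ℕ in atTop, ∃ P : Pr, P.Good ∧ P.L = L ∧ P.l = l₀ ∧
        c * (κ₂ * κ₁ ^ 2) * R ^ 2 ≤ ((P.d₁ : ℝ) + 1) * (P.d₂ + 1) * (P.d₃ + 1) ∧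
        (C * P.A * (κ₂ * R)) ^ P.l ≤ Real.exp (R * L / 4) ∧
        ∃ (h₀ : ℕ → ℤ) (m₀ : ℕ → ℕ → ℤ), Nodes τ₁ τ₂ P (κ₂ * R) (κ₁ * Real.sqrt R) h₀ m₀ := by
  set y : ℝ := τ₂.im with hy
  refine ⟨1 / (8 * y), by positivity, ?_⟩
  intro κ₁ κ₂ η C K hκ₁ hκ₂ hη hC
  have hC0 : 0 < C := one_pos.trans_le hC
  obtain ⟨C', hC'⟩ : ∃ C' : ℝ, C' = κ₂ + 2 * κ₁ / y + 2 * κ₁ + 1 := ⟨_, rfl⟩
  have hC'0 : 0 < C' := by rw [hC']; positivity
  have hC'1 : 1 ≤ C' := by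
    rw [hC']
    have : 0 ≤ κ₂ + 2 * κ₁ / y + 2 * κ₁ := by positivity
    linarith only [this]
  have q2 : 0 < 2 / κ₁ := by positivity
  have q3 : 0 < 2 * y / κ₁ := by positivity
  have q4 : 0 < κ₁ / (y * κ₂) := by positivity
  have q5 : 0 < C' * (9 + C') / η := by positivity
  obtain ⟨w₀, hw₀⟩ : ∃ w₀ : ℝ, w₀ = 1 + |K| + 2 / κ₁ + 2 * y / κ₁ + κ₁ / (y * κ₂) + C' * (9 + C') / η := ⟨_, rfl⟩
  have hw₀1 : 1 ≤ w₀ := by
    have := abs_nonneg K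
    linarith only [this, hw₀, q2, q3, q4, q5]
  -- the pair
  obtain ⟨a₁, a₂, b₁, b₂, hab, hε0, hε1, haε⟩ := dirichlet2 (τ₁.im / y) hirr (⌈w₀ ^ 2⌉₊) (Nat.ceil_pos.2 (by positivity))
  obtain ⟨ε, hε⟩ : ∃ ε : ℝ, ε = a₁ + a₂ * (τ₁.im / y) := ⟨_, rfl⟩
  rw [← hε] at hε0 hε1 haε
  obtain ⟨w, hw⟩ : ∃ w : ℝ, w = 1 / Real.sqrt ε := ⟨_, rfl⟩
  have hsε : 0 < Real.sqrt ε := Real.sqrt_pos.2 hε0
  have hw0 : 0 < w := by rw [hw]; positivity
  have hεw : ε * w ^ 2 = 1 := by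
    rw [hw, div_pow, Real.sq_sqrt hε0.le]
    field_simp
  have hww : w₀ ≤ w := by
    have h3 : w₀ ^ 2 ≤ ((⌈w₀ ^ 2⌉₊ : ℕ) : ℝ) := Nat.le_ceil _
    have h4 : ε * w₀ ^ 2 ≤ 1 := by
      have h5 : ε * (((⌈w₀ ^ 2⌉₊ : ℕ) : ℝ) + 1) ≤ 1 := by
        have := mul_le_mul_of_nonneg_right hε1 (by positivity : (0 : ℝ) ≤ ((⌈w₀ ^ 2⌉₊ : ℕ) : ℝ) + 1)
        rwa [one_div, inv_mul_cancel₀ (by positivity)] at this
      refine le_trans (mul_le_mul_of_nonneg_left ?_ hε0.le) h5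
      linarith only [h3]
    have h5 : w₀ ^ 2 ≤ w ^ 2 := by
      have h6 : ε * w₀ ^ 2 ≤ ε * w ^ 2 := by rw [hεw]; exact h4
      exact le_of_mul_le_mul_left h6 hε0
    exact le_of_sq_le_sq h5 hw0.le
  have hw1 : 1 ≤ w := hw₀1.trans hww
  have hKw : K ≤ w := by
    have := le_abs_self K
    linarith only [this, hw₀, hww, q2, q3, q4, q5]
  have hK0 := abs_nonneg K
  have t2 : 2 / κ₁ ≤ w := by linarith only [hK0, hw₀, hww, q2, q3, q4, q5]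
  have t3 : 2 * y / κ₁ ≤ w := by linarith only [hK0, hw₀, hww, q2, q3, q4, q5]
  have t4 : κ₁ / (y * κ₂) ≤ w := by linarith only [hK0, hw₀, hww, q2, q3, q4, q5]
  have t5 : C' * (9 + C') / η ≤ w := by linarith only [hK0, hw₀, hww, q2, q3, q4, q5]
  rw [div_le_iff₀ hκ₁] at t2 t3
  rw [div_le_iff₀ (by positivity)] at t4
  rw [div_le_iff₀ hη] at t5
  -- R
  obtain ⟨R, hR⟩ : ∃ R : ℕ, R = ⌈w ^ 10⌉₊ := ⟨_, rfl⟩
  have hRlow : w ^ 10 ≤ R := by rw [hR]; exact Nat.le_ceil _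
  have hw10 : 1 ≤ w ^ 10 := one_le_pow₀ hw1
  have hRup : (R : ℝ) ≤ 2 * w ^ 10 := by
    have h3 : (R : ℝ) < w ^ 10 + 1 := by rw [hR]; exact Nat.ceil_lt_add_one (by positivity)
    linarith only [h3, hw10]
  have hR1 : (1 : ℝ) ≤ R := hw10.trans hRlow
  have hwR : w ≤ R := (le_self_pow₀ hw1 (by norm_num)).trans hRlow
  have hs1 : w ^ 5 ≤ Real.sqrt R := by
    apply Real.le_sqrt_of_sq_le
    have e : (w ^ 5) ^ 2 = w ^ 10 := by ring
    rw [e]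
    exact hRlow
  have hs2 : Real.sqrt R ≤ 2 * w ^ 5 := by
    apply Real.sqrt_le_iff.2
    refine ⟨by positivity, hRup.trans ?_⟩
    have : (2 * w ^ 5) ^ 2 = 4 * w ^ 10 := by ring
    rw [this]
    linarith only [hw10]
  have hsR : 0 < Real.sqrt R := (pow_pos hw0 5).trans_le hs1
  have hRs : Real.sqrt R * Real.sqrt R = R := Real.mul_self_sqrt (zero_le_one.trans hR1)
  have hw5 : w ≤ w ^ 5 := le_self_pow₀ hw1 (by norm_num)
  obtain ⟨X, hX⟩ : ∃ X : ℝ, X = κ₂ * R := ⟨_, rfl⟩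
  obtain ⟨R₀, hR₀⟩ : ∃ R₀ : ℝ, R₀ = κ₁ * Real.sqrt R := ⟨_, rfl⟩
  have hX0 : 0 < X := by rw [hX]; positivity
  have hR₀2 : 2 ≤ R₀ := by
    rw [hR₀]
    calc (2 : ℝ) ≤ w * κ₁ := t2
      _ ≤ Real.sqrt R * κ₁ := mul_le_mul_of_nonneg_right (hw5.trans hs1) hκ₁.le
      _ = κ₁ * Real.sqrt R := mul_comm _ _
  have hR₀0 : 0 < R₀ := two_pos.trans_le hR₀2
  have hiε : 1 / ε = w ^ 2 := by
    rw [div_eq_iff hε0.ne', mul_comm, hεw]
  have hyε : 2 ≤ R₀ / (y * ε) := by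
    have e : R₀ / (y * ε) = R₀ * w ^ 2 / y := by
      rw [← hiε]
      field_simp
    rw [e, le_div_iff₀ h2]
    calc 2 * y ≤ w * κ₁ := t3
      _ ≤ Real.sqrt R * κ₁ := mul_le_mul_of_nonneg_right (hw5.trans hs1) hκ₁.le
      _ = R₀ := by rw [hR₀, mul_comm]
      _ ≤ R₀ * w ^ 2 := le_mul_of_one_le_right hR₀0.le (one_le_pow₀ hw1)
  -- the degrees
  obtain ⟨d₃, hd₃⟩ : ∃ d₃ : ℕ, d₃ = ⌊ε * X / 2⌋₊ := ⟨_, rfl⟩
  obtain ⟨d₂, hd₂⟩ : ∃ d₂ : ℕ, d₂ = ⌊R₀ / (y * ε)⌋₊ - 1 := ⟨_, rfl⟩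
  obtain ⟨d₁, hd₁⟩ : ∃ d₁ : ℕ, d₁ = ⌊R₀⌋₊ - 1 := ⟨_, rfl⟩
  have e3a : (d₃ : ℝ) ≤ ε * X / 2 := by rw [hd₃]; exact Nat.floor_le (by positivity)
  have e3b : ε * X / 2 ≤ d₃ + 1 := by rw [hd₃]; exact (Nat.lt_floor_add_one _).le
  have e2f : 1 ≤ ⌊R₀ / (y * ε)⌋₊ := by
    rw [Nat.one_le_floor_iff]
    exact one_le_two.trans hyε
  have e2c : (d₂ : ℝ) + 1 = ⌊R₀ / (y * ε)⌋₊ := by
    rw [hd₂, Nat.cast_sub e2f]
    push_cast
    ring
  have e2a : (d₂ : ℝ) + 1 ≤ R₀ / (y * ε) := by rw [e2c]; exact Nat.floor_le (by positivity)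
  have e2b : R₀ / (2 * (y * ε)) ≤ d₂ + 1 := by
    rw [e2c]
    have h3 := (Nat.lt_floor_add_one (R₀ / (y * ε))).le
    have h4 : R₀ / (2 * (y * ε)) = R₀ / (y * ε) / 2 := by rw [mul_comm 2 (y * ε), div_div]
    rw [h4]
    linarith only [h3, hyε]
  have e1f : 1 ≤ ⌊R₀⌋₊ := by
    rw [Nat.one_le_floor_iff]
    exact one_le_two.trans hR₀2
  have e1c : (d₁ : ℝ) + 1 = ⌊R₀⌋₊ := by
    rw [hd₁, Nat.cast_sub e1f]
    push_cast
    ring
  have e1a : (d₁ : ℝ) + 1 ≤ R₀ := by rw [e1c]; exact Nat.floor_le (by positivity)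
  have e1b : R₀ / 2 ≤ d₁ + 1 := by
    rw [e1c]
    have h3 := (Nat.lt_floor_add_one R₀).le
    linarith only [h3, hR₀2]
  -- the bound for l₀ + 1
  have hl0 : (((d₁ + d₂ + d₃ : ℕ) : ℝ)) + 1 ≤ C' * w ^ 8 := by
    have f3 : (d₃ : ℝ) ≤ κ₂ * w ^ 8 := by
      refine e3a.trans ?_
      have h3 : ε * X / 2 ≤ ε * (κ₂ * (2 * w ^ 10)) / 2 := by rw [hX]; gcongr
      refine h3.trans (le_of_eq ?_)
      calc ε * (κ₂ * (2 * w ^ 10)) / 2 = κ₂ * w ^ 8 * (ε * w ^ 2) := by ring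
        _ = κ₂ * w ^ 8 := by rw [hεw, mul_one]
    have f2 : (d₂ : ℝ) ≤ 2 * κ₁ / y * w ^ 8 := by
      have h3 : (d₂ : ℝ) ≤ R₀ / (y * ε) := by linarith only [e2a]
      refine h3.trans ?_
      have e : R₀ / (y * ε) = R₀ * w ^ 2 / y := by
        rw [← hiε]
        field_simp
      rw [e, hR₀]
      have h4 : κ₁ * Real.sqrt R * w ^ 2 / y ≤ κ₁ * (2 * w ^ 5) * w ^ 2 / y := by gcongr
      refine h4.trans ?_
      have h5 : w ^ 7 ≤ w ^ 8 := pow_le_pow_right₀ hw1 (by norm_num)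
      calc κ₁ * (2 * w ^ 5) * w ^ 2 / y = 2 * κ₁ / y * w ^ 7 := by ring
        _ ≤ 2 * κ₁ / y * w ^ 8 := by gcongr
    have f1 : (d₁ : ℝ) ≤ 2 * κ₁ * w ^ 8 := by
      have h3 : (d₁ : ℝ) ≤ R₀ := by linarith only [e1a]
      refine h3.trans ?_
      rw [hR₀]
      have h5 : w ^ 5 ≤ w ^ 8 := pow_le_pow_right₀ hw1 (by norm_num)
      calc κ₁ * Real.sqrt R ≤ κ₁ * (2 * w ^ 8) :=
            mul_le_mul_of_nonneg_left (hs2.trans (by linarith only [h5] : 2 * w ^ 5 ≤ 2 * w ^ 8)) hκ₁.le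
        _ = 2 * κ₁ * w ^ 8 := by ring
    have f0 : (1 : ℝ) ≤ w ^ 8 := one_le_pow₀ hw1
    push_cast
    have e : C' * w ^ 8 = κ₂ * w ^ 8 + 2 * κ₁ / y * w ^ 8 + 2 * κ₁ * w ^ 8 + w ^ 8 := by rw [hC']; ring
    linarith only [e, f0, f1, f2, f3]
  obtain ⟨l₀, hl₀⟩ : ∃ l₀ : ℕ, l₀ = d₁ + d₂ + d₃ := ⟨_, rfl⟩
  rw [← hl₀] at hl0
  have hl1 : (1 : ℝ) ≤ (l₀ : ℝ) + 1 := by
    have : (0 : ℝ) ≤ l₀ := Nat.cast_nonneg _
    linarith only [this]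
  have hw8 : (1 : ℝ) ≤ w ^ 8 := one_le_pow₀ hw1
  have hlog : Real.log ((l₀ : ℝ) + 1) ≤ C' + 8 * w := by
    have h3 := Real.log_le_log (one_pos.trans_le hl1) hl0
    rw [Real.log_mul hC'0.ne' (by positivity), Real.log_pow] at h3
    have h4 := Real.log_le_sub_one_of_pos hC'0
    have h5 := Real.log_le_sub_one_of_pos hw0
    push_cast at h3
    linarith only [h3, h4, h5]
  have hlog0 : 0 ≤ Real.log ((l₀ : ℝ) + 1) := Real.log_nonneg hl1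
  refine ⟨R, l₀, hKw.trans hwR, by exact_mod_cast hR1, ?_, ?_⟩
  · calc ((l₀ : ℝ) + 1) * (1 + Real.log (l₀ + 1)) ≤ (C' * w ^ 8) * (1 + (C' + 8 * w)) := by gcongr
      _ ≤ (C' * w ^ 8) * ((9 + C') * w) := by
        refine mul_le_mul_of_nonneg_left ?_ (by positivity)
        have : (1 + C') * 1 ≤ (1 + C') * w := mul_le_mul_of_nonneg_left hw1 (by linarith only [hC'0])
        linarith only [this]
      _ = (C' * (9 + C')) * w ^ 9 := by ring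
      _ ≤ (w * η) * w ^ 9 := by gcongr
      _ = η * w ^ 10 := by ring
      _ ≤ η * R := by gcongr
  · obtain ⟨A, hA⟩ : ∃ A : ℝ, A = 2 + |(a₁ : ℝ)| + |(a₂ : ℝ)| + |(b₁ : ℝ)| + |(b₂ : ℝ)| := ⟨_, rfl⟩
    have hA2 : 2 ≤ A := by
      rw [hA]
      have i1 := abs_nonneg (a₁ : ℝ)
      have i2 := abs_nonneg (a₂ : ℝ)
      have i3 := abs_nonneg (b₁ : ℝ)
      have i4 := abs_nonneg (b₂ : ℝ)
      linarith only [i1, i2, i3, i4]
    have hA0 : 0 < A := two_pos.trans_le hA2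
    have hCAX : 0 < C * A * (κ₂ * R) := by positivity
    have ev : ∀ᶠ L : ℕ in atTop, (1 : ℝ) + l₀ + l₀ * Real.log A + 4 * |l₀ * Real.log (C * A * (κ₂ * R))| ≤ (L : ℝ) :=
      tendsto_natCast_atTop_atTop.eventually_ge_atTop _
    filter_upwards [ev] with L hL
    have hlogA : 0 ≤ Real.log A := Real.log_nonneg (one_le_two.trans hA2)
    have hl00 : (0 : ℝ) ≤ l₀ := Nat.cast_nonneg _
    have g1 : 0 ≤ l₀ * Real.log A := by positivity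
    have g2 := abs_nonneg (l₀ * Real.log (C * A * (κ₂ * R)))
    refine ⟨⟨L, d₁, d₂, d₃, a₁, a₂, b₁, b₂⟩, ⟨hab, ?_, ?_, ?_⟩, rfl, hl₀.symm, ?_, ?_, ?_⟩
    · have : (1 : ℝ) ≤ L := by linarith only [hL, hl00, g1, g2]
      exact_mod_cast this
    · show d₁ + d₂ + d₃ ≤ L
      rw [← hl₀]
      have : (l₀ : ℝ) ≤ L := by linarith only [hL, g1, g2]
      exact_mod_cast this
    · have eA : Pr.A ⟨L, d₁, d₂, d₃, a₁, a₂, b₁, b₂⟩ = A := hA.symm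
      have el : Pr.l ⟨L, d₁, d₂, d₃, a₁, a₂, b₁, b₂⟩ = l₀ := hl₀.symm
      rw [eA, el]
      show A ^ l₀ ≤ Real.exp (L : ℝ)
      rw [← Real.log_le_iff_le_exp (pow_pos hA0 _), Real.log_pow]
      linarith only [hL, hl00, g2]
    · show 1 / (8 * y) * (κ₂ * κ₁ ^ 2) * (R : ℝ) ^ 2 ≤ ((d₁ : ℝ) + 1) * (d₂ + 1) * (d₃ + 1)
      calc 1 / (8 * y) * (κ₂ * κ₁ ^ 2) * (R : ℝ) ^ 2 = (R₀ / 2) * (R₀ / (2 * (y * ε))) * (ε * X / 2) := by
            have e : R₀ * R₀ = κ₁ ^ 2 * R := by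
              rw [hR₀]
              calc κ₁ * Real.sqrt R * (κ₁ * Real.sqrt R) = κ₁ ^ 2 * (Real.sqrt R * Real.sqrt R) := by ring
                _ = κ₁ ^ 2 * R := by rw [hRs]
            have e2 : (R₀ / 2) * (R₀ / (2 * (y * ε))) * (ε * X / 2) = (R₀ * R₀) * X / (8 * y) := by
              field_simp
              ring
            rw [e2, e, hX]
            field_simp
        _ ≤ ((d₁ : ℝ) + 1) * (d₂ + 1) * (d₃ + 1) := by gcongr
    · have eA : Pr.A ⟨L, d₁, d₂, d₃, a₁, a₂, b₁, b₂⟩ = A := hA.symm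
      have el : Pr.l ⟨L, d₁, d₂, d₃, a₁, a₂, b₁, b₂⟩ = l₀ := hl₀.symm
      rw [eA, el, ← Real.log_le_iff_le_exp (pow_pos hCAX _), Real.log_pow]
      have g3 := le_abs_self (l₀ * Real.log (C * A * (κ₂ * R)))
      have g4 : (L : ℝ) ≤ R * L := le_mul_of_one_le_left (Nat.cast_nonneg _) hR1
      linarith only [hL, hl00, g1, g3, g4]
    · refine nodes_exist τ₁ τ₂ h2 ⟨L, d₁, d₂, d₃, a₁, a₂, b₁, b₂⟩ hab ε (κ₂ * R) (κ₁ * Real.sqrt R) hε hε0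
        (by positivity) (by positivity) ?_ ?_ ?_ ?_
      · show (d₃ : ℝ) ≤ ε * (κ₂ * R) / 2
        rw [← hX]
        exact e3a
      · show ((d₂ : ℝ) + 1) * (y * ε) ≤ κ₁ * Real.sqrt R
        rw [← hR₀, ← le_div_iff₀ (by positivity)]
        exact e2a
      · show (d₁ : ℝ) + 1 ≤ κ₁ * Real.sqrt R
        rw [← hR₀]
        exact e1a
      · show |(a₂ : ℝ)| * (κ₁ * Real.sqrt R) ≤ y * ε * (κ₂ * R)
        have k1 : |(a₂ : ℝ)| ≤ w ^ 2 := by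
          rw [← hiε, le_div_iff₀ hε0]
          exact haε
        have k2 : κ₁ * w ^ 4 ≤ y * κ₂ * Real.sqrt R := by
          calc κ₁ * w ^ 4 ≤ (w * (y * κ₂)) * w ^ 4 := by gcongr
            _ = y * κ₂ * w ^ 5 := by ring
            _ ≤ y * κ₂ * Real.sqrt R := by gcongr
        have k3 : y * ε * (κ₂ * R) * w ^ 2 = y * κ₂ * Real.sqrt R * Real.sqrt R := by
          calc y * ε * (κ₂ * R) * w ^ 2 = y * κ₂ * R * (ε * w ^ 2) := by ring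
            _ = y * κ₂ * (Real.sqrt R * Real.sqrt R) := by rw [hεw, hRs, mul_one]
            _ = y * κ₂ * Real.sqrt R * Real.sqrt R := by ring
        have hw2 : 0 < w ^ 2 := by positivity
        refine le_of_mul_le_mul_right ?_ hw2
        rw [k3]
        calc |(a₂ : ℝ)| * (κ₁ * Real.sqrt R) * w ^ 2 ≤ w ^ 2 * (κ₁ * Real.sqrt R) * w ^ 2 := by gcongr
          _ = κ₁ * w ^ 4 * Real.sqrt R := by ring
          _ ≤ y * κ₂ * Real.sqrt R * Real.sqrt R := by gcongr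

end Pool.Agent.MSN
end

end

section

/-! # H1c: choice of the parameters (MP_f58a57_nt, pairs) -/

open Complex Filter Topology

noncomputable section

namespace Pool.Agent.MSP

private lemma aux_pa {A E C' K N t : ℝ} (hA : A ≤ C' * N) (hN : N ≤ K * t) (hC' : 0 ≤ C') (t8 : C' * K ≤ t)
    (t0 : 0 ≤ t) (hE : t ≤ E) : A ≤ E ^ 2 := by
  have h1 : C' * N ≤ C' * (K * t) := mul_le_mul_of_nonneg_left hN hC'
  have h2 : C' * K * t ≤ t * t := mul_le_mul_of_nonneg_right t8 t0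
  have h3 : t * t ≤ E * E := mul_self_le_mul_self t0 hE
  rw [← mul_assoc] at h1
  rw [sq]
  exact hA.trans (h1.trans (h2.trans h3))

private lemma aux_cax {A E C C' K N t κ₂ X : ℝ} (hA : A ≤ C' * N) (hN : N ≤ K * t) (hC : 0 ≤ C) (hC' : 0 ≤ C')
    (t9 : C * C' * K * κ₂ ≤ t) (t0 : 0 ≤ t) (hE : t ≤ E) (hX : X = κ₂ * t ^ 6) (hX0 : 0 ≤ X) :
    C * A * X ≤ E ^ 8 := by
  have h1 : A ≤ C' * (K * t) := hA.trans (mul_le_mul_of_nonneg_left hN hC')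
  have h2 : C * A * X ≤ C * (C' * (K * t)) * X :=
    mul_le_mul_of_nonneg_right (mul_le_mul_of_nonneg_left h1 hC) hX0
  have h3 : C * (C' * (K * t)) * X = (C * C' * K * κ₂) * t ^ 7 := by rw [hX]; ring
  have h4 : (C * C' * K * κ₂) * t ^ 7 ≤ t * t ^ 7 := mul_le_mul_of_nonneg_right t9 (pow_nonneg t0 7)
  have h5 : t * t ^ 7 = t ^ 8 := (pow_succ' t 7).symm
  have h6 : t ^ 8 ≤ E ^ 8 := pow_le_pow_left₀ t0 hE 8
  rw [h3] at h2
  rw [h5] at h4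
  exact h2.trans (h4.trans h6)

private lemma aux_w3 {κ₂ η t ε N X : ℝ} (hη : 0 < η) (hε : 0 ≤ ε) (t0 : 0 ≤ t) (hN : 2 * κ₂ * t / η ≤ N)
    (hεN : ε * N ≤ 1) (hX : X = κ₂ * t ^ 6) : ε * X / 2 ≤ η * t ^ 5 / 4 := by
  have h3 : ε * (2 * κ₂ * t / η) ≤ 1 := le_trans (mul_le_mul_of_nonneg_left hN hε) hεN
  rw [← mul_div_assoc, div_le_one hη] at h3
  have h7 := mul_le_mul_of_nonneg_right h3 (pow_nonneg t0 5)
  have h5 : ε * X / 2 = ε * (2 * κ₂ * t) * t ^ 5 / 4 := by rw [hX]; ring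
  rw [h5]
  linarith

private lemma aux_w1 {κ₁ η t R : ℝ} (hη : 0 ≤ η) (t0 : 0 ≤ t) (tsq : t ≤ t ^ 2) (t6 : 4 * κ₁ ≤ t * η)
    (hR : R = κ₁ * t ^ 3) : R ≤ η * t ^ 5 / 4 := by
  have h4 : 4 * κ₁ ≤ t ^ 2 * η := t6.trans (mul_le_mul_of_nonneg_right tsq hη)
  have h5 := mul_le_mul_of_nonneg_right h4 (pow_nonneg t0 3)
  have h6 : t ^ 2 * η * t ^ 3 = η * t ^ 5 := by ring
  rw [h6] at h5
  rw [hR]
  linarith

private lemma aux_w2 {κ₁ η t R K y c ε N : ℝ} (hη : 0 ≤ η) (t0 : 0 ≤ t) (hK : 0 < K) (hy : 0 ≤ y)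
    (hε : 0 ≤ ε) (hεN : c ≤ ε * N) (hN : N ≤ K * t)
    (t5 : 4 * κ₁ * K ≤ t * (y * c * η)) (hR : R = κ₁ * t ^ 3) : R ≤ η * t ^ 5 / 4 * (y * ε) := by
  have h4 : c ≤ ε * (K * t) := le_trans hεN (mul_le_mul_of_nonneg_left hN hε)
  have h5 : t * (y * c * η) ≤ t * (y * (ε * (K * t)) * η) :=
    mul_le_mul_of_nonneg_left (mul_le_mul_of_nonneg_right (mul_le_mul_of_nonneg_left h4 hy) hη) t0
  have h6 : t * (y * (ε * (K * t)) * η) = t * (y * (ε * t) * η) * K := by ring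
  have h7 : 4 * κ₁ ≤ t * (y * (ε * t) * η) := le_of_mul_le_mul_right (by rw [← h6]; exact t5.trans h5) hK
  have h8 := mul_le_mul_of_nonneg_right h7 (pow_nonneg t0 3)
  have h9 : t * (y * (ε * t) * η) * t ^ 3 = η * t ^ 5 * (y * ε) := by ring
  rw [h9] at h8
  rw [hR]
  linarith

private lemma aux_a2 {κ₁ κ₂ t R K y c ε N X a : ℝ} (hκ₁ : 0 ≤ κ₁) (hκ₂ : 0 ≤ κ₂) (t0 : 0 ≤ t) (hK : 0 < K) (hy : 0 ≤ y)
    (hε : 0 ≤ ε) (hεN : c ≤ ε * N) (hN : N ≤ K * t) (ha : a ≤ N)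
    (t7 : K ^ 2 * κ₁ ≤ t * (y * c * κ₂)) (hR : R = κ₁ * t ^ 3) (hX : X = κ₂ * t ^ 6) : a * R ≤ y * ε * X := by
  have h4 : c ≤ ε * (K * t) := le_trans hεN (mul_le_mul_of_nonneg_left hN hε)
  have h5 : t * (y * c * κ₂) ≤ t * (y * (ε * (K * t)) * κ₂) :=
    mul_le_mul_of_nonneg_left (mul_le_mul_of_nonneg_right (mul_le_mul_of_nonneg_left h4 hy) hκ₂) t0
  have h6 : t * (y * (ε * (K * t)) * κ₂) = t * (y * (ε * t) * κ₂) * K := by ring
  have h6' : K ^ 2 * κ₁ = K * κ₁ * K := by ring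
  have h7 : K * κ₁ ≤ t * (y * (ε * t) * κ₂) :=
    le_of_mul_le_mul_right (by rw [← h6, ← h6']; exact t7.trans h5) hK
  have h8 := mul_le_mul_of_nonneg_right h7 (pow_nonneg t0 4)
  have h9 : t * (y * (ε * t) * κ₂) * t ^ 4 = y * ε * X := by rw [hX]; ring
  have h10 : a * R ≤ K * t * R :=
    mul_le_mul_of_nonneg_right (ha.trans hN) (by rw [hR]; exact mul_nonneg hκ₁ (pow_nonneg t0 3))
  have h11 : K * t * R = K * κ₁ * t ^ 4 := by rw [hR]; ring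
  rw [h9] at h8
  rw [h11] at h10
  exact h10.trans h8

private lemma aux_prod {κ₁ κ₂ t R y ε X A B C : ℝ} (hy : 0 < y) (hε : 0 < ε) (hR0 : 0 < R) (hX0 : 0 < X)
    (h1 : R / 2 ≤ A) (h2 : R / (y * ε) / 2 ≤ B) (h3 : ε * X / 2 ≤ C) (hR : R = κ₁ * t ^ 3) (hX : X = κ₂ * t ^ 6) :
    1 / (8 * y) * (κ₂ * κ₁ ^ 2) * t ^ 12 ≤ A * B * C := by
  have k1 : 0 < R / 2 := half_pos hR0
  have k2 : 0 < R / (y * ε) / 2 := half_pos (div_pos hR0 (mul_pos hy hε))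
  have k3 : 0 < ε * X / 2 := half_pos (mul_pos hε hX0)
  have h4 : R / 2 * (R / (y * ε) / 2) * (ε * X / 2) ≤ A * B * C :=
    mul_le_mul (mul_le_mul h1 h2 k2.le (k1.le.trans h1)) h3 k3.le
      (mul_nonneg (k1.le.trans h1) (k2.le.trans h2))
  have h5 : 1 / (8 * y) * (κ₂ * κ₁ ^ 2) * t ^ 12 = R / 2 * (R / (y * ε) / 2) * (ε * X / 2) := by
    rw [hR, hX, div_mul_eq_mul_div, one_mul, div_mul_eq_mul_div, div_eq_iff (mul_pos (by norm_num) hy).ne']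
    have e1 : κ₁ * t ^ 3 / (y * ε) = κ₁ * t ^ 3 * (y⁻¹ * ε⁻¹) := by rw [div_eq_mul_inv, mul_inv]
    rw [e1]
    have e2 : y * y⁻¹ = 1 := mul_inv_cancel₀ hy.ne'
    have e3 : ε * ε⁻¹ = 1 := mul_inv_cancel₀ hε.ne'
    calc κ₂ * κ₁ ^ 2 * t ^ 12 = κ₂ * κ₁ ^ 2 * t ^ 12 * 1 * 1 := by rw [mul_one, mul_one]
      _ = κ₂ * κ₁ ^ 2 * t ^ 12 * (y * y⁻¹) * (ε * ε⁻¹) := by rw [e2, e3]
      _ = _ := by ring
  rw [h5]
  exact h4

private lemma aux_pow56 {t : ℝ} (t1 : 1 ≤ t) : t ^ 5 ≤ t ^ 6 := pow_le_pow_right₀ t1 (by norm_num)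

private lemma aux_last {l t η Q : ℝ} (t0 : 0 ≤ t) (hlt : l * t ≤ η * t ^ 6) (h4 : 32 * η ≤ Q) :
    8 * l * t ≤ t ^ 6 * Q / 4 := by
  have h5 := mul_le_mul_of_nonneg_left h4 (pow_nonneg t0 6)
  have h6 : 8 * l * t = 8 * (l * t) := by ring
  rw [h6]
  linarith

private lemma aux_ev (η : ℝ) (hη : 0 < η) : ∀ᶠ n : ℕ in atTop, 32 * η * (n : ℝ) ^ 6 ≤ 2 ^ n := by
  have ht := tendsto_pow_const_div_const_pow_of_one_lt 6 (r := (2 : ℝ)) (by norm_num)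
  have h0 : 0 < 32 * η := mul_pos (by norm_num) hη
  have h3 : ∀ᶠ n : ℕ in atTop, (n : ℝ) ^ 6 / 2 ^ n < 1 / (32 * η) :=
    ht.eventually_lt_const (one_div_pos.2 h0)
  filter_upwards [h3] with n hn
  rw [div_lt_div_iff₀ (pow_pos two_pos n) h0, one_mul, mul_comm] at hn
  exact hn.le

private lemma aux_exp {A t Q : ℝ} {l : ℕ} (hA0 : 0 ≤ A) (k : ℕ) (hA : A ≤ Real.exp t ^ k) (h : ((k * l : ℕ) : ℝ) * t ≤ Q) :
    A ^ l ≤ Real.exp Q := by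
  refine (pow_le_pow_left₀ hA0 hA l).trans ?_
  rw [← pow_mul, ← Real.exp_nat_mul]
  exact Real.exp_le_exp.2 h

private lemma aux_sum {a b c d e f g h t : ℝ} (p1 : 0 ≤ a) (p2 : 0 ≤ b) (p3 : 0 ≤ c) (p4 : 0 ≤ d) (p5 : 0 ≤ e)
    (p6 : 0 ≤ f) (p7 : 0 ≤ g) (p8 : 0 ≤ h) (ht : 1 + a + b + c + d + e + f + g + h ≤ t) :
    1 ≤ t ∧ a ≤ t ∧ b ≤ t ∧ c ≤ t ∧ d ≤ t ∧ e ≤ t ∧ f ≤ t ∧ g ≤ t ∧ h ≤ t := by
  refine ⟨?_, ?_, ?_, ?_, ?_, ?_, ?_, ?_, ?_⟩ <;> linarith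

/-- H1c. PROOF. Let `c', C'` be the constants of `dirichlet` for `ν = τ₁.im/τ₂.im`, `y₂ = τ₂.im`. For given `n` put `X = κ₂n⁶`, `R₀ = κ₁n³`, `N = ⌈2κ₂n/η⌉₊`
(`≥ 2` for large `n`), `a₁, ..., b₂` from `dirichlet`, `ε = a₁ + a₂ν ∈ [c'/N, 1/N]`, `L = 2^n`, `d₃ = ⌊εX/2⌋₊`, `d₂ = ⌊R₀/(y₂ε)⌋₊ - 1`, `d₁ = ⌊R₀⌋₊ - 1`
(for large `n` both floors are `≥ 1`: `R₀/(y₂ε) ≥ R₀N/y₂`). Then
* `d₃ ≤ κ₂n⁶/(2N) ≤ ηn⁵/4`; `d₂ ≤ R₀N/(y₂c') = O(n⁴) ≤ ηn⁵/4`, `d₁ ≤ κ₁n³ ≤ ηn⁵/4` for large `n`: `l ≤ ηn⁵ ≤ 2^n`;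
* `d₃ + 1 ≥ εX/2`, `d₂ + 1 ≥ R₀/(2y₂ε)`, `d₁ + 1 ≥ R₀/2`: product `≥ X R₀²/(8y₂)`, so `c = 1/(8y₂)`;
* `|a₂|R₀ ≤ N R₀` and `y₂εX ≥ y₂c'X/N`: `N²R₀ = O(n⁵) ≤ y₂c'κ₂n⁶` for large `n`; `nodes_exist` applies;
* `A ≤ C'N = O(n)`, so `A^l ≤ exp(ηn⁵ log(C'N)) ≤ exp(2^n)` and `(C A X)^l ≤ exp(ηn⁵ · 8 log n) ≤ exp(n⁶2^n/4)` for large `n`. -/
theorem params (τ₁ τ₂ : ℂ) (h1 : 0 < τ₁.im) (h2 : 0 < τ₂.im) (hirr : Irrational (τ₁.im / τ₂.im))
    (hsq : ∃ r : ℚ, (τ₁.im / τ₂.im) ^ 2 = r) : ∃ c : ℝ, 0 < c ∧ ∀ κ₁ κ₂ η C : ℝ, 0 < κ₁ → 0 < κ₂ → 0 < η → 1 ≤ C →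
    ∃ n₀ : ℕ, ∀ n : ℕ, n₀ ≤ n → ∃ P : Pr, P.Good ∧ P.L = 2 ^ n ∧ (P.l : ℝ) ≤ η * n ^ 5 ∧
      c * (κ₂ * κ₁ ^ 2) * n ^ 12 ≤ ((P.d₁ : ℝ) + 1) * (P.d₂ + 1) * (P.d₃ + 1) ∧
      (C * P.A * (κ₂ * n ^ 6)) ^ P.l ≤ Real.exp (n ^ 6 * 2 ^ n / 4) ∧
      ∃ (h₀ : ℕ → ℤ) (m₀ : ℕ → ℕ → ℤ), Nodes τ₁ τ₂ P (κ₂ * n ^ 6) (κ₁ * n ^ 3) h₀ m₀ := by
  set y : ℝ := τ₂.im with hy
  set ν : ℝ := τ₁.im / y with hν
  have hν0 : 0 < ν := div_pos h1 h2
  obtain ⟨c', C', hc', hC', hdir⟩ := dirichlet ν hν0 hirr hsq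
  refine ⟨1 / (8 * y), by positivity, ?_⟩
  intro κ₁ κ₂ η C hκ₁ hκ₂ hη hC
  have hC0 : 0 < C := by linarith
  obtain ⟨K, hK⟩ : ∃ K : ℝ, K = 2 * κ₂ / η + 1 := ⟨_, rfl⟩
  have hKpos : 0 < K := by rw [hK]; positivity
  have p1 : 0 ≤ η / κ₂ := by positivity
  have p2 : 0 ≤ 1 / κ₁ := by positivity
  have p3 : 0 ≤ y / κ₁ := by positivity
  have p4 : 0 ≤ 4 * κ₁ * K / (y * c' * η) := by positivity
  have p5 : 0 ≤ 4 * κ₁ / η := by positivity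
  have p6 : 0 ≤ K ^ 2 * κ₁ / (y * c' * κ₂) := by positivity
  have p7 : 0 ≤ C' * K := by positivity
  have p8 : 0 ≤ C * C' * K * κ₂ := by positivity
  have ev1 : ∀ᶠ n : ℕ in atTop, 1 + η / κ₂ + 1 / κ₁ + y / κ₁ + 4 * κ₁ * K / (y * c' * η) + 4 * κ₁ / η +
      K ^ 2 * κ₁ / (y * c' * κ₂) + C' * K + C * C' * K * κ₂ ≤ (n : ℝ) :=
    tendsto_natCast_atTop_atTop.eventually_ge_atTop _
  have ev2 := aux_ev η hη
  obtain ⟨n₀, hn₀⟩ := eventually_atTop.1 (ev1.and ev2)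
  refine ⟨n₀, fun n hn => ?_⟩
  obtain ⟨ht, hpow⟩ := hn₀ n hn
  obtain ⟨t, htn⟩ : ∃ t : ℝ, t = (n : ℝ) := ⟨_, rfl⟩
  rw [← htn] at ht hpow
  rw [← htn]
  obtain ⟨t1, t2, t3, t4, t5, t6, t7, t8, t9⟩ := aux_sum p1 p2 p3 p4 p5 p6 p7 p8 ht
  have t0 : 0 < t := lt_of_lt_of_le one_pos t1
  rw [div_le_iff₀ hκ₂] at t2
  rw [div_le_iff₀ hκ₁] at t3 t4
  rw [div_le_iff₀ (mul_pos (mul_pos h2 hc') hη)] at t5
  rw [div_le_iff₀ hη] at t6
  rw [div_le_iff₀ (mul_pos (mul_pos h2 hc') hκ₂)] at t7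
  -- the number N
  obtain ⟨N, hN⟩ : ∃ N : ℕ, N = ⌈2 * κ₂ * t / η⌉₊ := ⟨_, rfl⟩
  have hNlow : 2 * κ₂ * t / η ≤ N := by rw [hN]; exact Nat.le_ceil _
  have hNup : (N : ℝ) ≤ K * t := by
    have h3 : (N : ℝ) < 2 * κ₂ * t / η + 1 := by rw [hN]; exact Nat.ceil_lt_add_one (by positivity)
    have h4 : K * t = 2 * κ₂ * t / η + t := by rw [hK]; ring
    linarith
  have hN2r : (2 : ℝ) ≤ N := by
    refine le_trans ?_ hNlow
    rw [le_div_iff₀ hη]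
    linarith
  have hN2 : 2 ≤ N := by exact_mod_cast hN2r
  have hN0 : (0 : ℝ) < N := by linarith
  obtain ⟨a₁, a₂, b₁, b₂, hdet, hεlow, hεup, ha₂, hA⟩ := hdir N hN2
  obtain ⟨ε, hε⟩ : ∃ ε : ℝ, ε = a₁ + a₂ * ν := ⟨_, rfl⟩
  rw [← hε] at hεlow hεup
  have hε0 : 0 < ε := lt_of_lt_of_le (by positivity) hεlow
  have hεN : ε * N ≤ 1 := by rwa [le_div_iff₀ hN0] at hεup
  have hεN' : c' ≤ ε * N := by rwa [div_le_iff₀ hN0] at hεlow
  obtain ⟨X, hX⟩ : ∃ X : ℝ, X = κ₂ * t ^ 6 := ⟨_, rfl⟩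
  obtain ⟨R₀, hR⟩ : ∃ R₀ : ℝ, R₀ = κ₁ * t ^ 3 := ⟨_, rfl⟩
  rw [← hX, ← hR]
  have hX0 : 0 < X := by rw [hX]; positivity
  have hR0 : 0 < R₀ := by rw [hR]; positivity
  have tsq : t ≤ t ^ 2 := le_self_pow₀ t1 (by norm_num)
  have tcu : t ≤ t ^ 3 := le_self_pow₀ t1 (by norm_num)
  have htk : t * κ₁ ≤ R₀ := by
    rw [hR, mul_comm κ₁]
    exact mul_le_mul_of_nonneg_right tcu hκ₁.le
  have hR1 : 1 ≤ R₀ := t3.trans htk
  have hRy : y ≤ R₀ := t4.trans htk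
  -- the numbers d
  have hq : 1 ≤ R₀ / (y * ε) := by
    rw [le_div_iff₀ (by positivity), one_mul]
    have h3 : ε ≤ 1 := le_trans (le_mul_of_one_le_right hε0.le (by linarith)) hεN
    calc y * ε ≤ y * 1 := mul_le_mul_of_nonneg_left h3 h2.le
      _ = y := mul_one y
      _ ≤ R₀ := hRy
  have hfl1 : 1 ≤ ⌊R₀⌋₊ := by rwa [Nat.one_le_floor_iff]
  have hfl2 : 1 ≤ ⌊R₀ / (y * ε)⌋₊ := by rwa [Nat.one_le_floor_iff]
  obtain ⟨d₁, hd₁⟩ : ∃ d₁ : ℕ, d₁ + 1 = ⌊R₀⌋₊ := ⟨⌊R₀⌋₊ - 1, by omega⟩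
  obtain ⟨d₂, hd₂⟩ : ∃ d₂ : ℕ, d₂ + 1 = ⌊R₀ / (y * ε)⌋₊ := ⟨⌊R₀ / (y * ε)⌋₊ - 1, by omega⟩
  obtain ⟨d₃, hd₃⟩ : ∃ d₃ : ℕ, d₃ = ⌊ε * X / 2⌋₊ := ⟨_, rfl⟩
  have hd₁' : (d₁ : ℝ) + 1 = ((⌊R₀⌋₊ : ℕ) : ℝ) := by exact_mod_cast hd₁
  have hd₂' : (d₂ : ℝ) + 1 = ((⌊R₀ / (y * ε)⌋₊ : ℕ) : ℝ) := by exact_mod_cast hd₂
  have u1 : (d₁ : ℝ) + 1 ≤ R₀ := by rw [hd₁']; exact Nat.floor_le hR0.le
  have u2 : (d₂ : ℝ) + 1 ≤ R₀ / (y * ε) := by rw [hd₂']; exact Nat.floor_le (by positivity)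
  have u3 : (d₃ : ℝ) ≤ ε * X / 2 := by rw [hd₃]; exact Nat.floor_le (by positivity)
  have v1 : R₀ / 2 ≤ (d₁ : ℝ) + 1 := by
    have h3 : R₀ < ((⌊R₀⌋₊ : ℕ) : ℝ) + 1 := Nat.lt_floor_add_one _
    have h4 : (1 : ℝ) ≤ ((⌊R₀⌋₊ : ℕ) : ℝ) := by exact_mod_cast hfl1
    rw [hd₁']
    linarith
  have v2 : R₀ / (y * ε) / 2 ≤ (d₂ : ℝ) + 1 := by
    have h3 : R₀ / (y * ε) < ((⌊R₀ / (y * ε)⌋₊ : ℕ) : ℝ) + 1 := Nat.lt_floor_add_one _
    have h4 : (1 : ℝ) ≤ ((⌊R₀ / (y * ε)⌋₊ : ℕ) : ℝ) := by exact_mod_cast hfl2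
    rw [hd₂']
    linarith
  have v3 : ε * X / 2 ≤ (d₃ : ℝ) + 1 := by
    rw [hd₃]
    exact (Nat.lt_floor_add_one _).le
  have w3 : (d₃ : ℝ) ≤ η * t ^ 5 / 4 := u3.trans (aux_w3 hη hε0.le t0.le hNlow hεN hX)
  have w1 : (d₁ : ℝ) ≤ η * t ^ 5 / 4 :=
    (le_add_of_nonneg_right zero_le_one).trans (u1.trans (aux_w1 hη.le t0.le tsq t6 hR))
  have w2 : (d₂ : ℝ) ≤ η * t ^ 5 / 4 := by
    refine (le_add_of_nonneg_right zero_le_one).trans (u2.trans ?_)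
    rw [div_le_iff₀ (mul_pos h2 hε0)]
    exact aux_w2 hη.le t0.le hKpos h2.le hε0.le hεN' hNup t5 hR
  let P : Pr := ⟨2 ^ n, d₁, d₂, d₃, a₁, a₂, b₁, b₂⟩
  have hPle : (P.l : ℝ) = (d₁ : ℝ) + d₂ + d₃ := by simp only [P, Pr.l, Nat.cast_add]
  have hη5 : 0 ≤ η * t ^ 5 := mul_nonneg hη.le (pow_nonneg t0.le 5)
  have hPl : (P.l : ℝ) ≤ η * t ^ 5 := by
    rw [hPle]
    clear_value P
    linarith only [w1, w2, w3, hη5]
  have hPA : P.A ≤ C' * N := hA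
  have hPA0 : 0 ≤ P.A := by
    simp only [Pr.A]
    positivity
  have hexp : t ≤ Real.exp t := (le_add_of_nonneg_right zero_le_one).trans (Real.add_one_le_exp t)
  have hPA2 : P.A ≤ Real.exp t ^ 2 := aux_pa hPA hNup hC'.le t8 t0.le hexp
  have hCAX : C * P.A * X ≤ Real.exp t ^ 8 := aux_cax hPA hNup hC0.le hC'.le t9 t0.le hexp hX hX0.le
  have hlt : (P.l : ℝ) * t ≤ η * t ^ 6 := by
    have h3 := mul_le_mul_of_nonneg_right hPl t0.le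
    rwa [mul_assoc, ← pow_succ] at h3
  have hη6 : 0 < η * t ^ 6 := mul_pos hη (pow_pos t0 6)
  have hcast : ((2 ^ n : ℕ) : ℝ) = 2 ^ n := by rw [Nat.cast_pow, Nat.cast_ofNat]
  refine ⟨P, ⟨hdet, ?_, ?_, ?_⟩, rfl, hPl, ?_, ?_, ?_⟩
  · exact Nat.one_le_two_pow
  · have h3 : (P.l : ℝ) ≤ ((2 ^ n : ℕ) : ℝ) := by
      rw [hcast]
      refine hPl.trans (le_trans ?_ hpow)
      have h4 : η * t ^ 5 ≤ η * t ^ 6 := mul_le_mul_of_nonneg_left (aux_pow56 t1) hη.le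
      linarith only [h4, hη6]
    exact_mod_cast h3
  · refine aux_exp hPA0 2 hPA2 ?_
    change ((2 * P.l : ℕ) : ℝ) * t ≤ ((2 ^ n : ℕ) : ℝ)
    rw [hcast, Nat.cast_mul, Nat.cast_ofNat]
    refine le_trans ?_ hpow
    linarith only [hlt, hη6]
  · exact aux_prod h2 hε0 hR0 hX0 v1 v2 v3 hR hX
  · refine aux_exp (mul_nonneg (mul_nonneg hC0.le hPA0) hX0.le) 8 hCAX ?_
    rw [Nat.cast_mul, Nat.cast_ofNat]
    have h4 : 32 * η ≤ 2 ^ n := by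
      refine le_trans ?_ hpow
      exact le_mul_of_one_le_right (mul_pos (by norm_num) hη).le (one_le_pow₀ t1)
    exact aux_last t0.le hlt h4
  · refine nodes_exist τ₁ τ₂ h2 P hdet ε X R₀ hε hε0 hX0 hR0 u3 ?_ u1 ?_
    · have h3 := u2
      rw [le_div_iff₀ (mul_pos h2 hε0)] at h3
      exact h3
    · exact aux_a2 hκ₁.le hκ₂.le t0.le hKpos h2.le hε0.le hεN' hNup ha₂ t7 hR hX

end Pool.Agent.MSP
end

end
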