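import Mathlib
import Pool.Agent.Lib.MP_f58a57_nt.Defs

section

/-! # A0e: closure properties of modular forms (MP_f58a57_nt) -/

open Complex ModularForm EisensteinSeries Filter
open UpperHalfPlane hiding I
open scoped Topology MatrixGroups

noncomputable section

namespace Pool.Agent.MSD

/-- A0e. Closure properties of `IsMF`. -/
theorem IsMF.add {k : ℕ} {f g : ℂ → ℂ} (hf : IsMF k f) (hg : IsMF k g) : IsMF k (fun z => f z + g z) := by
  obtain ⟨C, hC⟩ := hf.bdd
  obtain ⟨D, hD⟩ := hg.bdd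
  refine ⟨hf.diff.add hg.diff, ?_, ?_, ⟨C + D, ?_⟩⟩
  · intro z hz
    simp only [hf.per z hz, hg.per z hz]
  · intro z hz
    simp only [hf.inv z hz, hg.inv z hz]
    ring
  · intro z hz
    exact (norm_add_le _ _).trans (add_le_add (hC z hz) (hD z hz))

theorem IsMF.const_mul {k : ℕ} {f : ℂ → ℂ} (hf : IsMF k f) (c : ℂ) : IsMF k (fun z => c * f z) := by
  obtain ⟨C, hC⟩ := hf.bdd
  refine ⟨hf.diff.const_mul c, ?_, ?_, ⟨‖c‖ * C, ?_⟩⟩
  · intro z hz
    simp only [hf.per z hz]
  · intro z hz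
    simp only [hf.inv z hz]
    ring
  · intro z hz
    rw [norm_mul]
    exact mul_le_mul_of_nonneg_left (hC z hz) (norm_nonneg c)

theorem IsMF.mul {k l : ℕ} {f g : ℂ → ℂ} (hf : IsMF k f) (hg : IsMF l g) :
    IsMF (k + l) (fun z => f z * g z) := by
  obtain ⟨C, hC⟩ := hf.bdd
  obtain ⟨D, hD⟩ := hg.bdd
  refine ⟨hf.diff.mul hg.diff, ?_, ?_, ⟨C * D, ?_⟩⟩
  · intro z hz
    simp only [hf.per z hz, hg.per z hz]
  · intro z hz
    simp only [hf.inv z hz, hg.inv z hz, pow_add]
    ring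
  · intro z hz
    rw [norm_mul]
    exact mul_le_mul (hC z hz) (hD z hz) (norm_nonneg _) ((norm_nonneg _).trans (hC z hz))

theorem IsMF.pow {k : ℕ} {f : ℂ → ℂ} (hf : IsMF k f) (n : ℕ) : IsMF (k * n) (fun z => f z ^ n) := by
  induction n with
  | zero =>
    refine ⟨?_, ?_, ?_, ⟨1, ?_⟩⟩
    · simp only [pow_zero]
      exact differentiableOn_const 1
    · intro z hz
      simp
    · intro z hz
      simp
    · intro z hz
      simp
  | succ n ih =>
    have h := ih.mul hf
    have e1 : k * n + k = k * (n + 1) := by ring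
    rw [e1] at h
    have e2 : (fun z => f z ^ n * f z) = fun z => f z ^ (n + 1) := by
      funext z
      rw [pow_succ]
    rw [e2] at h
    exact h

end Pool.Agent.MSD
end

end

section

/-! # A0: elementary rules for q-expansions and modular forms (MP_f58a57_nt) -/

open Complex ModularForm EisensteinSeries Filter
open UpperHalfPlane hiding I
open scoped Topology MatrixGroups

noncomputable section

namespace Pool.Agent.MSD

theorem A0Q_norm_qq (z : ℂ) : ‖qq z‖ = Real.exp (-(2 * Real.pi * z.im)) := by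
  unfold qq
  rw [Complex.norm_exp]
  congr 1
  simp [Complex.mul_re, Complex.mul_im]

/-- A0a. `qq` has absolute value less than one on the upper half plane, is periodic, ... -/
theorem norm_qq_lt_one (z : ℂ) (hz : 0 < z.im) : ‖qq z‖ < 1 := by
  rw [A0Q_norm_qq, Real.exp_lt_one_iff]
  have := Real.pi_pos
  have h : 0 < 2 * Real.pi * z.im := by positivity
  linarith

theorem A0Q_exists_qq (q : ℂ) (h0 : q ≠ 0) (h1 : ‖q‖ < 1) : ∃ z : ℂ, 0 < z.im ∧ qq z = q := by
  have hpi : (Real.pi : ℂ) ≠ 0 := Complex.ofReal_ne_zero.2 Real.pi_ne_zero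
  refine ⟨Complex.log q / (2 * Real.pi * I), ?_, ?_⟩
  · have h2 : Complex.log q / (2 * Real.pi * I) = -(Complex.log q * I) * ((1 / (2 * Real.pi) : ℝ) : ℂ) := by
      push_cast
      field_simp
      rw [Complex.I_sq]
      ring
    rw [h2, Complex.im_mul_ofReal]
    simp only [Complex.neg_im, Complex.mul_im, Complex.I_im, Complex.I_re, mul_one, mul_zero,
      add_zero, Complex.log_re]
    have h3 : Real.log ‖q‖ < 0 := Real.log_neg (norm_pos_iff.2 h0) h1
    have := Real.pi_pos
    have h4 : 0 < 1 / (2 * Real.pi) := by positivity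
    exact mul_pos (by linarith) h4
  · unfold qq
    rw [mul_div_cancel₀]
    · exact Complex.exp_log h0
    · simp [hpi, Complex.I_ne_zero]

/-- A0b. The `q`-expansion is unique (identity theorem for power series at `q → 0`). -/
theorem QExp.unique {c c' : ℕ → ℤ} {f : ℂ → ℂ} (h : QExp c f) (h' : QExp c' f) : c = c' := by
  classical
  set d : ℕ → ℂ := fun n => (c n : ℂ) - c' n with hd
  set p : FormalMultilinearSeries ℂ ℂ ℂ := FormalMultilinearSeries.ofScalars ℂ d with hp
  have hcoeff : ∀ n, p.coeff n = d n := by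
    intro n
    rw [hp, FormalMultilinearSeries.coeff_ofScalars]
  set g : ℂ → ℂ := fun q => if q = 0 then d 0 else 0 with hg
  have key : ∀ q : ℂ, q ≠ 0 → ‖q‖ < 1 → HasSum (fun n => d n * q ^ n) 0 := by
    intro q hq0 hq1
    obtain ⟨z, hz, rfl⟩ := A0Q_exists_qq q hq0 hq1
    have h1 := (h z hz).sub (h' z hz)
    rw [sub_self] at h1
    refine h1.congr_fun ?_
    intro n
    simp only [hd]
    ring
  have hps : HasFPowerSeriesAt g p 0 := by
    rw [hasFPowerSeriesAt_iff]
    have hev : ∀ᶠ z : ℂ in 𝓝 0, ‖z‖ < 1 := by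
      have : Metric.ball (0 : ℂ) 1 ∈ 𝓝 (0 : ℂ) := Metric.ball_mem_nhds _ one_pos
      filter_upwards [this] with z hz
      simpa using hz
    filter_upwards [hev] with z hz
    by_cases hz0 : z = 0
    · subst hz0
      have h2 : g (0 + 0) = d 0 := by simp [hg]
      rw [h2]
      have h3 := hasSum_single (f := fun n => (0 : ℂ) ^ n • p.coeff n) 0 (by
        intro n hn
        simp [hn])
      simpa [hcoeff] using h3
    · have h2 : g (0 + z) = 0 := by simp [hg, hz0]
      rw [h2]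
      refine (key z hz0 hz).congr_fun ?_
      intro n
      rw [hcoeff, smul_eq_mul, mul_comm]
  have hg0 : g = 0 := by
    have hc := hps.continuousAt
    have hd0 : d 0 = 0 := by
      have h4 : Tendsto g (𝓝[≠] 0) (𝓝 (g 0)) := hc.tendsto.mono_left nhdsWithin_le_nhds
      have h5 : Tendsto g (𝓝[≠] 0) (𝓝 0) := by
        refine tendsto_const_nhds.congr' ?_
        filter_upwards [self_mem_nhdsWithin] with z hz
        have hz' : z ≠ 0 := hz
        simp [hg, hz']
      have h6 := tendsto_nhds_unique h4 h5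
      simpa [hg] using h6
    funext q
    simp [hg, hd0]
  rw [hg0] at hps
  have hp0 := hps.eq_zero
  funext n
  have h7 := hcoeff n
  rw [hp0] at h7
  have h8 : d n = 0 := by
    rw [← h7]
    simp [FormalMultilinearSeries.coeff]
  have h9 : (c n : ℂ) = c' n := sub_eq_zero.1 h8
  exact_mod_cast h9

/-- A0c. Sums and Cauchy products of `q`-expansions. -/
theorem QExp.add {c c' : ℕ → ℤ} {f g : ℂ → ℂ} (h : QExp c f) (h' : QExp c' g) :
    QExp (fun n => c n + c' n) (fun z => f z + g z) := by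
  intro z hz
  refine ((h z hz).add (h' z hz)).congr_fun ?_
  intro n
  push_cast
  ring

theorem QExp.const_mul {c : ℕ → ℤ} {f : ℂ → ℂ} (h : QExp c f) (m : ℤ) :
    QExp (fun n => m * c n) (fun z => m * f z) := by
  intro z hz
  refine ((h z hz).mul_left (m : ℂ)).congr_fun ?_
  intro n
  push_cast
  ring

theorem QExp.mul {c c' : ℕ → ℤ} {f g : ℂ → ℂ} (h : QExp c f) (h' : QExp c' g) :
    QExp (fun n => ∑ p ∈ Finset.HasAntidiagonal.antidiagonal n, c p.1 * c' p.2) (fun z => f z * g z) := by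
  intro z hz
  have h1 := (h z hz).summable.norm
  have h2 := (h' z hz).summable.norm
  have h3 := (summable_norm_sum_mul_antidiagonal_of_summable_norm h1 h2).of_norm
  have h4 := tsum_mul_tsum_eq_tsum_sum_antidiagonal_of_summable_norm h1 h2
  have h5 := h3.hasSum
  rw [← h4, (h z hz).tsum_eq, (h' z hz).tsum_eq] at h5
  refine h5.congr_fun ?_
  intro n
  push_cast
  rw [Finset.sum_mul]
  refine Finset.sum_congr rfl ?_
  rintro ⟨i, j⟩ hij
  rw [Finset.HasAntidiagonal.mem_antidiagonal] at hij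
  simp only at hij ⊢
  rw [← hij, pow_add]
  ring

theorem A0Q_norm_le (z : ℂ) (hz : 1 ≤ z.im) : ‖qq z‖ ≤ ‖qq I‖ := by
  rw [A0Q_norm_qq, A0Q_norm_qq, Real.exp_le_exp]
  have := Real.pi_pos
  simp only [Complex.I_im]
  nlinarith

/-- A0d. A `q`-expansion gives boundedness for `Im z ≥ 1`, and the limit `c 0` at `i∞`. -/
theorem QExp.bdd {c : ℕ → ℤ} {f : ℂ → ℂ} (h : QExp c f) : ∃ C : ℝ, ∀ z : ℂ, 1 ≤ z.im → ‖f z‖ ≤ C := by
  have h1 := (h I (by simp)).summable.norm
  refine ⟨∑' n, ‖(c n : ℂ) * qq I ^ n‖, ?_⟩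
  intro z hz
  have hz0 : 0 < z.im := by linarith
  have h2 := (h z hz0).summable.norm
  rw [← (h z hz0).tsum_eq]
  refine (norm_tsum_le_tsum_norm h2).trans ?_
  refine h2.tsum_le_tsum (fun n => ?_) h1
  rw [norm_mul, norm_mul, norm_pow, norm_pow]
  exact mul_le_mul_of_nonneg_left (pow_le_pow_left₀ (norm_nonneg _) (A0Q_norm_le z hz) n)
    (norm_nonneg _)

theorem QExp.tendsto {c : ℕ → ℤ} {f : ℂ → ℂ} (h : QExp c f) :
    Tendsto (fun y : ℝ => f (I * y)) atTop (𝓝 (c 0 : ℂ)) := by
  have h1 := (h I (by simp)).summable.norm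
  have h2 : Tendsto (fun y : ℝ => ∑' n, (c n : ℂ) * qq (I * y) ^ n) atTop
      (𝓝 (∑' n, if n = 0 then (c 0 : ℂ) else 0)) := by
    refine tendsto_tsum_of_dominated_convergence h1 ?_ ?_
    · intro n
      by_cases hn : n = 0
      · subst hn
        simp
      · simp only [hn, if_false]
        have h3 : Tendsto (fun y : ℝ => qq (I * y)) atTop (𝓝 0) := by
          rw [tendsto_zero_iff_norm_tendsto_zero]
          have h4 : (fun y : ℝ => ‖qq (I * y)‖) = fun y : ℝ => Real.exp (-(2 * Real.pi * y)) := by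
            funext y
            rw [A0Q_norm_qq]
            simp
          rw [h4]
          refine Real.tendsto_exp_atBot.comp ?_
          rw [tendsto_neg_atBot_iff]
          exact tendsto_id.const_mul_atTop (by positivity)
        have h5 := (h3.pow n).const_mul (c n : ℂ)
        rw [zero_pow hn, mul_zero] at h5
        exact h5
    · filter_upwards [eventually_ge_atTop (1 : ℝ)] with y hy n
      rw [norm_mul, norm_mul, norm_pow, norm_pow]
      refine mul_le_mul_of_nonneg_left (pow_le_pow_left₀ (norm_nonneg _) (A0Q_norm_le _ ?_) n)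
        (norm_nonneg _)
      simpa using hy
  rw [tsum_ite_eq] at h2
  refine h2.congr' ?_
  filter_upwards [eventually_gt_atTop (0 : ℝ)] with y hy
  exact (h (I * y) (by simpa using hy)).tsum_eq

end Pool.Agent.MSD
end

end

section

/-! # A1: basic facts on e2, e4, e6, dl (MP_f58a57_nt) -/

open Complex ModularForm EisensteinSeries Filter
open UpperHalfPlane hiding I
open scoped Topology MatrixGroups

noncomputable section

namespace Pool.Agent.MSD

theorem a1b_qParam (z : ℂ) : Function.Periodic.qParam 1 z = qq z := by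
  simp [Function.Periodic.qParam, qq]

theorem a1b_bern4 : bernoulli 4 = -1 / 30 := by
  rw [bernoulli_eq_bernoulli'_of_ne_one (by norm_num), bernoulli'_four]

theorem a1b_bern6 : bernoulli 6 = 1 / 42 := by
  rw [bernoulli_eq_bernoulli'_of_ne_one (by norm_num)]
  have h5 : bernoulli' 5 = 0 := bernoulli'_eq_zero_of_odd (by decide) (by norm_num)
  rw [bernoulli'_def]
  have h2 : Nat.choose 6 2 = 15 := by decide
  have h4 : Nat.choose 6 4 = 15 := by decide
  have h3 : Nat.choose 6 3 = 20 := by decide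
  norm_num [Finset.sum_range_succ, h2, h3, h4, h5]

/-- A1a. Holomorphy. (Mathlib: `E2_mdifferentiable`, modular forms are holomorphic, `UpperHalfPlane.mdifferentiable_iff`.) -/
theorem e2_diff : DifferentiableOn ℂ e2 {z | 0 < z.im} :=
  UpperHalfPlane.mdifferentiable_iff.mp E2_mdifferentiable

theorem e4_diff : DifferentiableOn ℂ e4 {z | 0 < z.im} :=
  UpperHalfPlane.mdifferentiable_iff.mp (ModularFormClass.holo E₄)

theorem e6_diff : DifferentiableOn ℂ e6 {z | 0 < z.im} :=
  UpperHalfPlane.mdifferentiable_iff.mp (ModularFormClass.holo E₆)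

theorem dl_diff : DifferentiableOn ℂ dl {z | 0 < z.im} :=
  ((e4_diff.pow 3).sub (e6_diff.pow 2)).div_const 1728

/-- A1b. `dl` is Mathlib's discriminant (`ModularForm.discriminant_eq_E₄_cube_sub_E₆_sq`), which has no zero
(`ModularForm.discriminant_ne_zero`). -/
theorem dl_eq (z : ℍ) : dl z = ModularForm.discriminant z := by
  rw [ModularForm.discriminant_eq_E₄_cube_sub_E₆_sq]
  simp [dl, e4, e6, ofComplex_apply]

theorem dl_ne_zero (z : ℂ) (hz : 0 < z.im) : dl z ≠ 0 := by
  have h := ModularForm.discriminant_ne_zero ⟨z, hz⟩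
  rw [← dl_eq] at h
  exact h

/-- A1c. Integer `q`-expansions. `e2 = 1 - 24 Σ σ₁(n) qⁿ` (`E2_eq_tsum_cexp`, `hasSum_qExpansion_E2`),
`e4 = 1 + 240 Σ σ₃(n) qⁿ`, `e6 = 1 - 504 Σ σ₅(n) qⁿ` (`EisensteinSeries.E_qExpansion_coeff`,
`ModularFormClass.hasSum_qExpansion`; `bernoulli 4 = -1/30`, `bernoulli 6 = 1/42`). -/
theorem e2_q : ∃ c : ℕ → ℤ, QExp c e2 ∧ c 0 = 1 := by
  refine ⟨fun n => if n = 0 then 1 else -24 * (ArithmeticFunction.sigma 1 n : ℤ), ?_, by simp⟩
  intro z hz
  have h := hasSum_qExpansion_E2 (z := ⟨z, hz⟩)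
  have he : E2 ⟨z, hz⟩ = e2 z := by
    rw [e2, ofComplex_apply_of_im_pos hz]
  rw [he] at h
  refine h.congr_fun ?_
  intro m
  by_cases hm : m = 0
  · simp [hm, qq]
  · simp [hm, qq]

theorem e4_q : ∃ c : ℕ → ℤ, QExp c e4 ∧ c 0 = 1 := by
  refine ⟨fun n => if n = 0 then 1 else 240 * (ArithmeticFunction.sigma 3 n : ℤ), ?_, by simp⟩
  intro z hz
  have h := ModularForm.hasSum_qExpansion (f := E₄) one_pos one_mem_strictPeriods_SL ⟨z, hz⟩
  have h2 : ∀ m : ℕ, (qExpansion 1 (E₄ : ℍ → ℂ)).coeff m =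
      (((if m = 0 then 1 else 240 * (ArithmeticFunction.sigma 3 m : ℤ)) : ℤ) : ℂ) := by
    intro m
    have := EisensteinSeries.E_qExpansion_coeff (k := 4) (by norm_num) (by decide) m
    rw [this, a1b_bern4]
    by_cases hm : m = 0
    · simp [hm]
    · simp only [hm, if_false]
      push_cast
      norm_num
  have he : E₄ ⟨z, hz⟩ = e4 z := by
    rw [e4, ofComplex_apply_of_im_pos hz]
  rw [he] at h
  refine h.congr_fun ?_
  intro m
  rw [h2 m, ← a1b_qParam z]

theorem e6_q : ∃ c : ℕ → ℤ, QExp c e6 ∧ c 0 = 1 := by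
  refine ⟨fun n => if n = 0 then 1 else -504 * (ArithmeticFunction.sigma 5 n : ℤ), ?_, by simp⟩
  intro z hz
  have h := ModularForm.hasSum_qExpansion (f := E₆) one_pos one_mem_strictPeriods_SL ⟨z, hz⟩
  have h2 : ∀ m : ℕ, (qExpansion 1 (E₆ : ℍ → ℂ)).coeff m =
      (((if m = 0 then 1 else -504 * (ArithmeticFunction.sigma 5 m : ℤ)) : ℤ) : ℂ) := by
    intro m
    have := EisensteinSeries.E_qExpansion_coeff (k := 6) (by norm_num) (by decide) m
    rw [this, a1b_bern6]
    by_cases hm : m = 0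
    · simp [hm]
    · simp only [hm, if_false]
      push_cast
      norm_num
  have he : E₆ ⟨z, hz⟩ = e6 z := by
    rw [e6, ofComplex_apply_of_im_pos hz]
  rw [he] at h
  refine h.congr_fun ?_
  intro m
  rw [h2 m, ← a1b_qParam z]

end Pool.Agent.MSD
end

end

section

/-! # A2: modular transformation laws (MP_f58a57_nt) -/

open Complex ModularForm EisensteinSeries Filter
open UpperHalfPlane hiding I
open scoped Topology MatrixGroups

noncomputable section

namespace Pool.Agent.MSD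

/-- the matrix and the point -/
theorem a2t_setup (a b c d : ℤ) (h : a * d - b * c = 1) (z : ℂ) (hz : 0 < z.im) :
    ∃ (γ : SL(2, ℤ)) (τ : ℍ), ofComplex z = τ ∧ (τ : ℂ) = z ∧
      ofComplex ((a * z + b) / (c * z + d)) = γ • τ ∧ denom γ τ = c * z + d ∧ γ 1 0 = c := by
  let γ : SL(2, ℤ) := ⟨!![a, b; c, d], by rw [Matrix.det_fin_two_of]; exact h⟩
  let τ : ℍ := ⟨z, hz⟩
  have h1 : ((γ • τ : ℍ) : ℂ) = (a * z + b) / (c * z + d) := by
    rw [coe_specialLinearGroup_apply]
    simp [γ, τ]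
  refine ⟨γ, τ, ofComplex_apply_of_im_pos hz, rfl, ?_, ?_, rfl⟩
  · rw [← h1]
    exact ofComplex_apply (γ • τ)
  · rw [ModularGroup.denom_apply]
    simp [γ, τ]

/-- A2a. The transformation laws under `(a b; c d) ∈ SL₂(ℤ)`. For `e4`, `e6` from the slash invariance of Mathlib's `E₄`, `E₆`
(`SlashInvariantForm.slash_action_eqn''` or similar), for `e2` from `EisensteinSeries.E2_slash_action` and `riemannZeta_two`. -/
theorem e4_transform (a b c d : ℤ) (h : a * d - b * c = 1) (z : ℂ) (hz : 0 < z.im) :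
    e4 ((a * z + b) / (c * z + d)) = (c * z + d) ^ 4 * e4 z := by
  obtain ⟨γ, τ, h1, h2, h3, h4, h5⟩ := a2t_setup a b c d h z hz
  have h6 := SlashInvariantForm.slash_action_eqn'' (Γ := 𝒮ℒ) E₄
    (γ := (γ : GL (Fin 2) ℝ)) (MonoidHom.mem_range.mpr ⟨γ, rfl⟩) τ
  unfold e4
  rw [h3, h1]
  rw [← h4]
  exact_mod_cast h6

theorem e6_transform (a b c d : ℤ) (h : a * d - b * c = 1) (z : ℂ) (hz : 0 < z.im) :
    e6 ((a * z + b) / (c * z + d)) = (c * z + d) ^ 6 * e6 z := by
  obtain ⟨γ, τ, h1, h2, h3, h4, h5⟩ := a2t_setup a b c d h z hz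
  have h6 := SlashInvariantForm.slash_action_eqn'' (Γ := 𝒮ℒ) E₆
    (γ := (γ : GL (Fin 2) ℝ)) (MonoidHom.mem_range.mpr ⟨γ, rfl⟩) τ
  unfold e6
  rw [h3, h1]
  rw [← h4]
  exact_mod_cast h6

theorem e2_transform (a b c d : ℤ) (h : a * d - b * c = 1) (z : ℂ) (hz : 0 < z.im) :
    e2 ((a * z + b) / (c * z + d)) = (c * z + d) ^ 2 * e2 z - 6 * I * c / Real.pi * (c * z + d) := by
  obtain ⟨γ, τ, h1, h2, h3, h4, h5⟩ := a2t_setup a b c d h z hz
  have h6 := congrFun (E2_slash_action γ) τ
  have h7 : denom γ τ ≠ 0 := denom_ne_zero γ τ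
  have hpi : (Real.pi : ℂ) ≠ 0 := by exact_mod_cast Real.pi_ne_zero
  rw [SL_slash_apply] at h6
  simp only [Pi.sub_apply, Pi.smul_apply, D2, riemannZeta_two, smul_eq_mul, h5] at h6
  unfold e2
  rw [h3, h1]
  rw [h4] at h6 h7
  have h8 : ((c : ℂ) * z + d) ^ (-2 : ℤ) = ((c * z + d) ^ 2)⁻¹ := by
    rw [zpow_neg]; norm_cast
  rw [h8, ← div_eq_mul_inv, div_eq_iff (pow_ne_zero 2 h7)] at h6
  rw [h6]
  field_simp

end Pool.Agent.MSD
end

end

section

/-! # A3: elementary modular forms are modular forms in the sense of Mathlib (MP_f58a57_nt) -/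

open Complex ModularForm EisensteinSeries Filter
open UpperHalfPlane hiding I
open scoped Topology MatrixGroups

noncomputable section

namespace Pool.Agent.MSD

/-- invariance under `T` -/
private theorem a3form_T {k : ℕ} {f : ℂ → ℂ} (hf : IsMF k f) :
    ((fun z : ℍ => f z) ∣[(k : ℤ)] ModularGroup.T) = (fun z : ℍ => f z) := by
  ext z
  have hz : 0 < ((z : ℍ) : ℂ).im := z.im_pos
  have h := hf.per z hz
  have hd : denom (ModularGroup.T : GL (Fin 2) ℝ) z = 1 := by
    rw [ModularGroup.denom_apply]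
    simp [ModularGroup.T]
  rw [SL_slash_apply, hd, modular_T_smul]
  have h2 : (((1 : ℝ) +ᵥ z : ℍ) : ℂ) = (z : ℂ) + 1 := by
    simp [add_comm]
  simp [h2, h]

/-- invariance under `S` -/
private theorem a3form_S {k : ℕ} {f : ℂ → ℂ} (hf : IsMF k f) :
    ((fun z : ℍ => f z) ∣[(k : ℤ)] ModularGroup.S) = (fun z : ℍ => f z) := by
  ext z
  have hz : 0 < ((z : ℍ) : ℂ).im := z.im_pos
  have h := hf.inv z hz
  have hz0 : (z : ℂ) ≠ 0 := z.ne_zero
  have hd : denom (ModularGroup.S : GL (Fin 2) ℝ) z = z := by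
    rw [ModularGroup.denom_apply]
    simp [ModularGroup.S]
  suffices f (-(↑z)⁻¹) * ((z : ℂ) ^ k)⁻¹ = f z by
    rw [SL_slash_apply, UpperHalfPlane.modular_S_smul, hd]
    simpa using this
  have h3 : -((z : ℂ))⁻¹ = -1 / z := by ring
  rw [h3, h]
  field_simp

/-- A3. `ModularGroup.S`, `T` generate; `slash_action_generators_SL2Z`; boundedness at `i∞` gives boundedness at all cusps
(level one). -/
theorem IsMF.exists_form {k : ℕ} {f : ℂ → ℂ} (hf : IsMF k f) :
    ∃ F : ModularForm 𝒮ℒ k, ∀ z : ℍ, F z = f z := by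
  have hall := SlashInvariantForm.slash_action_generators_SL2Z (a3form_S hf) (a3form_T hf)
  have hb : IsBoundedAtImInfty (fun z : ℍ => f z) := by
    obtain ⟨C, hC⟩ := hf.bdd
    rw [isBoundedAtImInfty_iff]
    exact ⟨C, 1, fun z hz => hC z hz⟩
  refine ⟨{ toFun := fun z : ℍ => f z
            slash_action_eq' := ?_
            holo' := ?_
            bdd_at_cusps' := ?_ }, fun z => rfl⟩
  · intro A hA
    obtain ⟨A, rfl⟩ := hA
    exact hall A
  · rw [UpperHalfPlane.mdifferentiable_iff]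
    refine hf.diff.congr ?_
    intro z hz
    simp [ofComplex_apply_of_im_pos hz]
  · intro c hc
    rw [OnePoint.isBoundedAt_iff_forall_SL2Z hc]
    intro γ _
    have h := hall γ
    have h2 : IsBoundedAtImInfty ((fun z : ℍ => f z) ∣[(k : ℤ)] γ) := by
      rw [h]
      exact hb
    exact h2

end Pool.Agent.MSD
end

end

section

/-! # B5c: coefficients in a field; isobaric products (MP_f58a57_nt) -/

open Complex ModularForm EisensteinSeries Filter
open UpperHalfPlane hiding I
open scoped Topology MatrixGroups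

noncomputable section

namespace Pool.Agent.MSD

/-- the elementary symmetric functions of a finite family -/
def B5F_E {J : Type*} (s : Finset J) (α : J → ℂ) (k : ℕ) : ℂ :=
  ((Finset.univ : Finset s).val.map (fun i : s => α i)).esymm k

theorem B5F_zero {J : Type*} (s : Finset J) (α : J → ℂ) : B5F_E s α 0 = 1 := by
  unfold B5F_E
  rw [← MvPolynomial.aeval_esymm_eq_multiset_esymm (σ := s) (R := ℚ), MvPolynomial.esymm_zero, map_one]

theorem B5F_newton {J : Type*} (s : Finset J) (α : J → ℂ) (k : ℕ) :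
    (k : ℂ) * B5F_E s α k = (-1) ^ (k + 1) *
      ∑ a ∈ (Finset.HasAntidiagonal.antidiagonal k).filter (fun a => a.1 < k),
        (-1) ^ a.1 * B5F_E s α a.1 * ∑ i ∈ s, α i ^ a.2 := by
  have h := congrArg (MvPolynomial.aeval (R := ℚ) (fun i : s => α i)) (MvPolynomial.mul_esymm_eq_sum s ℚ k)
  simp only [map_mul, map_natCast, map_pow, map_neg, map_one, map_sum,
    MvPolynomial.aeval_esymm_eq_multiset_esymm] at h
  unfold B5F_E
  rw [h]
  congr 1
  refine Finset.sum_congr rfl ?_
  intro a _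
  congr 1
  unfold MvPolynomial.psum
  rw [map_sum, ← Finset.sum_coe_sort s]
  refine Finset.sum_congr rfl ?_
  intro i _
  rw [map_pow, MvPolynomial.aeval_X]

theorem B5F_prod {J : Type*} (s : Finset J) (α : J → ℂ) :
    ∏ i ∈ s, (Polynomial.X - Polynomial.C (α i)) =
      ∑ j ∈ Finset.range (s.card + 1),
        (-1) ^ j * (Polynomial.C (B5F_E s α j) * Polynomial.X ^ (s.card - j)) := by
  have h := Multiset.prod_X_sub_X_eq_sum_esymm ((Finset.univ : Finset s).val.map (fun i : s => α i))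
  have hc : Multiset.card ((Finset.univ : Finset s).val.map (fun i : s => α i)) = s.card := by
    rw [Multiset.card_map, Finset.card_val, Finset.card_univ, Fintype.card_coe]
  rw [hc, Multiset.map_map] at h
  rw [← Finset.prod_coe_sort s]
  exact h

/-- B5c. If all power sums lie in a subfield `k` of `ℂ`, the characteristic polynomial has coefficients in `k`. -/
theorem coeff_mem_of_psum {J : Type*} (s : Finset J) (α : J → ℂ) (k : IntermediateField ℚ ℂ)
    (h : ∀ m : ℕ, 0 < m → ∑ i ∈ s, α i ^ m ∈ k) (n : ℕ) :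
    (∏ i ∈ s, (Polynomial.X - Polynomial.C (α i))).coeff n ∈ k := by
  have hE : ∀ j, B5F_E s α j ∈ k := by
    intro j
    induction j using Nat.strong_induction_on with
    | _ j ih =>
      rcases Nat.eq_zero_or_pos j with rfl | hj
      · rw [B5F_zero]; exact one_mem k
      · have h1 : B5F_E s α j = (j : ℂ)⁻¹ * ((j : ℂ) * B5F_E s α j) := by
          rw [inv_mul_cancel_left₀ (Nat.cast_ne_zero.2 (by omega))]
        rw [h1, B5F_newton]
        refine mul_mem (inv_mem (natCast_mem k j)) (mul_mem (pow_mem (neg_mem (one_mem k)) _) ?_)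
        refine sum_mem ?_
        rintro ⟨a, b⟩ hab
        rw [Finset.mem_filter, Finset.HasAntidiagonal.mem_antidiagonal] at hab
        obtain ⟨hab1, hab2⟩ := hab
        simp only at hab1 hab2
        exact mul_mem (mul_mem (pow_mem (neg_mem (one_mem k)) _) (ih a hab2)) (h b (by omega))
  rw [B5F_prod, Polynomial.finsetSum_coeff]
  refine sum_mem ?_
  intro j _
  have h2 : ((-1 : Polynomial ℂ) ^ j * (Polynomial.C (B5F_E s α j) * Polynomial.X ^ (s.card - j))) =
      Polynomial.C ((-1) ^ j * B5F_E s α j) * Polynomial.X ^ (s.card - j) := by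
    rw [Polynomial.C_mul, Polynomial.C_pow, Polynomial.C_neg, Polynomial.C_1]
    ring
  rw [h2, Polynomial.coeff_C_mul_X_pow]
  split_ifs
  · exact mul_mem (pow_mem (neg_mem (one_mem k)) _) (hE j)
  · exact zero_mem k

theorem B5F_map {w : ℕ} {Θ : MvPolynomial (Fin 3) ℤ} (h : MvPolynomial.IsWeightedHomogeneous wts Θ w) :
    MvPolynomial.IsWeightedHomogeneous wts (MvPolynomial.map (algebraMap ℤ ℚ) Θ) w := by
  intro d hd
  refine h ?_
  intro h0
  apply hd
  rw [MvPolynomial.coeff_map, h0, map_zero]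

/-- B5d. Elementary symmetric functions of a family of functions whose power sums are isobaric polynomials in `e4, e6, dl`
(with integer coefficients) are isobaric polynomials in `e4, e6, dl` with rational coefficients: if
`Σ_i (F i z)^m = Θ_m(vals z)`, `Θ_m` of weight `w m`, then `Π_i (c X z - F i z) = Ξ(vals z)` where `X z = P(vals z)` has weight `w`. -/
theorem prod_isobaric {J : Type*} (s : Finset J) (w : ℕ) (F : J → ℂ → ℂ)
    (h : ∀ m : ℕ, 0 < m → ∃ Θ : MvPolynomial (Fin 3) ℤ, MvPolynomial.IsWeightedHomogeneous wts Θ (w * m) ∧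
      ∀ z : ℂ, 0 < z.im → ∑ i ∈ s, F i z ^ m = MvPolynomial.aeval (vals z) Θ)
    (P : MvPolynomial (Fin 3) ℚ) (hP : MvPolynomial.IsWeightedHomogeneous wts P w) :
    ∃ Ξ : MvPolynomial (Fin 3) ℚ, MvPolynomial.IsWeightedHomogeneous wts Ξ (w * s.card) ∧
      ∀ z : ℂ, 0 < z.im → ∏ i ∈ s, (MvPolynomial.aeval (vals z) P - F i z) = MvPolynomial.aeval (vals z) Ξ := by
  have h' : ∀ m : ℕ, 0 < m → ∃ Θ : MvPolynomial (Fin 3) ℚ, MvPolynomial.IsWeightedHomogeneous wts Θ (w * m) ∧
      ∀ z : ℂ, 0 < z.im → ∑ i ∈ s, F i z ^ m = MvPolynomial.aeval (vals z) Θ := by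
    intro m hm
    obtain ⟨Θ, h1, h2⟩ := h m hm
    refine ⟨MvPolynomial.map (algebraMap ℤ ℚ) Θ, B5F_map h1, fun z hz => ?_⟩
    rw [h2 z hz, MvPolynomial.aeval_map_algebraMap]
  choose! Θ hΘ1 hΘ2 using h'
  have hE : ∀ j, ∃ Ξ : MvPolynomial (Fin 3) ℚ, MvPolynomial.IsWeightedHomogeneous wts Ξ (w * j) ∧
      ∀ z : ℂ, 0 < z.im → B5F_E s (fun i => F i z) j = MvPolynomial.aeval (vals z) Ξ := by
    intro j
    induction j using Nat.strong_induction_on with
    | _ j ih =>
      rcases Nat.eq_zero_or_pos j with rfl | hj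
      · refine ⟨1, MvPolynomial.isWeightedHomogeneous_one ℚ wts, fun z _ => ?_⟩
        rw [B5F_zero, map_one]
      · choose! Ξ h1 h2 using ih
        refine ⟨MvPolynomial.C ((j : ℚ)⁻¹ * (-1) ^ (j + 1)) *
          ∑ a ∈ (Finset.HasAntidiagonal.antidiagonal j).filter (fun a => a.1 < j),
            MvPolynomial.C ((-1) ^ a.1) * Ξ a.1 * Θ a.2, ?_, ?_⟩
        · refine MvPolynomial.IsWeightedHomogeneous.C_mul ?_ _
          refine MvPolynomial.IsWeightedHomogeneous.sum _ _ _ ?_
          rintro ⟨a, b⟩ hab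
          rw [Finset.mem_filter, Finset.HasAntidiagonal.mem_antidiagonal] at hab
          obtain ⟨hab1, hab2⟩ := hab
          simp only at hab1 hab2 ⊢
          have h3 : w * j = w * a + w * b := by rw [← hab1]; ring
          rw [h3]
          exact ((h1 a hab2).C_mul _).mul (hΘ1 b (by omega))
        · intro z hz
          have h1' : B5F_E s (fun i => F i z) j = (j : ℂ)⁻¹ * ((j : ℂ) * B5F_E s (fun i => F i z) j) := by
            rw [inv_mul_cancel_left₀ (Nat.cast_ne_zero.2 (by omega))]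
          rw [h1', B5F_newton, map_mul, MvPolynomial.aeval_C, map_mul, map_inv₀, map_natCast, map_pow,
            map_neg, map_one, map_sum, mul_assoc]
          congr 2
          refine Finset.sum_congr rfl ?_
          rintro ⟨a, b⟩ hab
          rw [Finset.mem_filter, Finset.HasAntidiagonal.mem_antidiagonal] at hab
          obtain ⟨hab1, hab2⟩ := hab
          simp only at hab1 hab2 ⊢
          rw [h2 a hab2 z hz, hΘ2 b (by omega) z hz, map_mul, map_mul, MvPolynomial.aeval_C, map_pow,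
            map_neg, map_one]
  choose Ξ hΞ1 hΞ2 using hE
  refine ⟨∑ j ∈ Finset.range (s.card + 1), MvPolynomial.C ((-1) ^ j) * (Ξ j * P ^ (s.card - j)), ?_, ?_⟩
  · refine MvPolynomial.IsWeightedHomogeneous.sum _ _ _ ?_
    intro j hj
    rw [Finset.mem_range] at hj
    refine MvPolynomial.IsWeightedHomogeneous.C_mul ?_ _
    have h3 : w * s.card = w * j + (s.card - j) • w := by
      rw [smul_eq_mul, mul_comm (s.card - j) w, ← mul_add]
      congr 1
      omega
    rw [h3]
    exact (hΞ1 j).mul (hP.pow _)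
  · intro z hz
    have h4 := congrArg (Polynomial.eval (MvPolynomial.aeval (vals z) P)) (B5F_prod s (fun i => F i z))
    rw [Polynomial.eval_prod, Polynomial.eval_finsetSum] at h4
    simp only [Polynomial.eval_sub, Polynomial.eval_X, Polynomial.eval_C, Polynomial.eval_mul,
      Polynomial.eval_pow, Polynomial.eval_neg, Polynomial.eval_one] at h4
    rw [h4, map_sum]
    refine Finset.sum_congr rfl ?_
    intro j _
    rw [hΞ2 j z hz]
    simp only [map_mul, map_pow, map_neg, map_one]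

end Pool.Agent.MSD
end

end

section

/-! # A1d: the q-expansion of the discriminant (MP_f58a57_nt) -/

open Complex ModularForm EisensteinSeries Filter
open UpperHalfPlane hiding I
open scoped Topology MatrixGroups

noncomputable section

namespace Pool.Agent.MSD

theorem a1d_of (z : ℂ) (hz : 0 < z.im) : ((ofComplex z : ℍ) : ℂ) = z := by
  rw [ofComplex_apply_of_im_pos hz]

/-- the `q`-series of `σ_k` -/
def a1dS (k : ℕ) (z : ℂ) : ℂ := ∑' n : ℕ, (ArithmeticFunction.sigma k n : ℂ) * qq z ^ n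

theorem a1d_summable (k : ℕ) (z : ℂ) (hz : 0 < z.im) :
    Summable fun n : ℕ => (ArithmeticFunction.sigma k n : ℂ) * qq z ^ n := by
  have h := EisensteinSeries.summable_sigma_mul_cexp_pow (k := k + 1) (by omega) (ofComplex z)
  rw [a1d_of z hz] at h
  simpa [qq] using h

theorem a1d_qexp (k : ℕ) : QExp (fun n => (ArithmeticFunction.sigma k n : ℤ)) (a1dS k) := by
  intro z hz
  have h := (a1d_summable k z hz).hasSum
  simpa [a1dS] using h

theorem a1d_pnat (k : ℕ) (z : ℂ) (hz : 0 < z.im) :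
    ∑' n : ℕ+, (ArithmeticFunction.sigma k n : ℂ) * cexp (2 * Real.pi * I * z) ^ (n : ℤ) = a1dS k z := by
  have h1 : ∀ n : ℕ+, (ArithmeticFunction.sigma k n : ℂ) * cexp (2 * Real.pi * I * z) ^ (n : ℤ)
      = (fun m : ℕ => (ArithmeticFunction.sigma k m : ℂ) * qq z ^ m) n := by
    intro n
    simp [qq, zpow_natCast]
  simp_rw [h1]
  rw [tsum_pnat_eq_tsum_succ (f := fun m : ℕ => (ArithmeticFunction.sigma k m : ℂ) * qq z ^ m)]
  rw [a1dS, (a1d_summable k z hz).tsum_eq_zero_add]
  simp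

theorem a1d_e4 (z : ℂ) (hz : 0 < z.im) : e4 z = 1 + 240 * a1dS 3 z := by
  have h := EisensteinSeries.q_expansion_bernoulli (k := 4) (by norm_num) ⟨2, rfl⟩ (ofComplex z)
  rw [a1d_of z hz] at h
  have h2 := a1d_pnat 3 z hz
  simp only [show (4 - 1 : ℕ) = 3 from rfl] at h
  rw [h2] at h
  rw [e4]
  refine h.trans ?_
  rw [show bernoulli 4 = -1 / 30 by decide +kernel]
  push_cast
  ring

theorem a1d_e6 (z : ℂ) (hz : 0 < z.im) : e6 z = 1 - 504 * a1dS 5 z := by
  have h := EisensteinSeries.q_expansion_bernoulli (k := 6) (by norm_num) ⟨3, rfl⟩ (ofComplex z)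
  rw [a1d_of z hz] at h
  have h2 := a1d_pnat 5 z hz
  simp only [show (6 - 1 : ℕ) = 5 from rfl] at h
  rw [h2] at h
  rw [e6]
  refine h.trans ?_
  rw [show bernoulli 6 = 1 / 42 by decide +kernel]
  push_cast
  ring

theorem a1d_dvd (n : ℕ) : (12 : ℤ) ∣ 5 * (ArithmeticFunction.sigma 3 n : ℤ) + 7 * (ArithmeticFunction.sigma 5 n : ℤ) := by
  have h : (5 * (ArithmeticFunction.sigma 3 n : ℤ) + 7 * (ArithmeticFunction.sigma 5 n : ℤ))
      = ∑ d ∈ n.divisors, (5 * (d : ℤ) ^ 3 + 7 * (d : ℤ) ^ 5) := by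
    rw [ArithmeticFunction.sigma_apply, ArithmeticFunction.sigma_apply]
    push_cast
    rw [Finset.sum_add_distrib, Finset.mul_sum, Finset.mul_sum]
  rw [h]
  refine Finset.dvd_sum fun d _ => ?_
  have h3 : ∀ x : ZMod 12, 5 * x ^ 3 + 7 * x ^ 5 = 0 := by decide
  have h4 := h3 (d : ZMod 12)
  refine (ZMod.intCast_zmod_eq_zero_iff_dvd _ 12).1 ?_
  push_cast
  exact h4

theorem a1d_congr {c : ℕ → ℤ} {f g : ℂ → ℂ} (h : QExp c f) (hfg : ∀ z : ℂ, 0 < z.im → g z = f z) :
    QExp c g := by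
  intro z hz
  rw [hfg z hz]
  exact h z hz

/-- A1d. `dl = (e4³ - e6²)/1728`: with `e4 = 1 + 240 A`, `e6 = 1 - 504 B`:
`e4³ - e6² = 144 (5A + 7B) + 1728 (100 A² + 8000 A³ - 147 B²)` and `12 ∣ 5σ₃(n) + 7σ₅(n)` because `12 ∣ d³(5 + 7d²)`.
(Cauchy products of the three `q`-expansions; `c 1 = 1`.) -/
theorem dl_q : ∃ c : ℕ → ℤ, QExp c dl ∧ c 0 = 0 ∧ c 1 = 1 := by
  set a : ℕ → ℤ := fun n => (ArithmeticFunction.sigma 3 n : ℤ) with ha
  set b : ℕ → ℤ := fun n => (ArithmeticFunction.sigma 5 n : ℤ) with hb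
  have hA : QExp a (a1dS 3) := a1d_qexp 3
  have hB : QExp b (a1dS 5) := a1d_qexp 5
  choose d hd using fun n => a1d_dvd n
  have hD : QExp d (fun z => (5 * a1dS 3 z + 7 * a1dS 5 z) / 12) := by
    intro z hz
    have h1 := (((hA.const_mul 5).add (hB.const_mul 7)) z hz).div_const 12
    have h2 : ∀ n, ((5 * a n + 7 * b n : ℤ) : ℂ) * qq z ^ n / 12 = (d n : ℂ) * qq z ^ n := by
      intro n
      have h3 : (5 * a n + 7 * b n : ℤ) = 12 * d n := hd n
      rw [h3]
      push_cast
      ring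
    simp only [h2] at h1
    simpa using h1
  have hAA := hA.mul hA
  have hAAA := hAA.mul hA
  have hBB := hB.mul hB
  have hall := ((hD.add (hAA.const_mul 100)).add (hAAA.const_mul 8000)).add (hBB.const_mul (-147))
  have h0 := hd 0
  have hd0 : d 0 = 0 := by simp at h0; exact h0
  have h1 := hd 1
  have hd1 : d 1 = 1 := by simp at h1; omega
  refine ⟨_, a1d_congr hall ?_, ?_, ?_⟩
  · intro z hz
    rw [dl, a1d_e4 z hz, a1d_e6 z hz]
    push_cast
    ring
  · simp [ha, hb, hd0]
  · simp [ha, hb, hd1, Finset.Nat.antidiagonal_succ]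

end Pool.Agent.MSD
end

end

section

/-! # A3b: small weights and division by the discriminant (MP_f58a57_nt) -/

open Complex ModularForm EisensteinSeries Filter
open UpperHalfPlane hiding I
open scoped Topology MatrixGroups

noncomputable section

namespace Pool.Agent.MSD

theorem a3w_of (z : ℂ) (hz : 0 < z.im) : ((ofComplex z : ℍ) : ℂ) = z := by
  rw [ofComplex_apply_of_im_pos hz]

theorem a3w_val {k : ℤ} {f : ℂ → ℂ} {F : ModularForm 𝒮ℒ k} (hF : ∀ z : ℍ, F z = f z)
    (z : ℂ) (hz : 0 < z.im) : f z = F (ofComplex z) := by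
  rw [hF, a3w_of z hz]

/-- A3b. Modular forms of weight zero are constant, there are none of weight 2 and of odd weight. -/
theorem IsMF.weight_zero {f : ℂ → ℂ} (hf : IsMF 0 f) : ∃ c : ℂ, ∀ z : ℂ, 0 < z.im → f z = c := by
  obtain ⟨F, hF⟩ := hf.exists_form
  obtain ⟨c, hc⟩   := ModularFormClass.levelOne_weight_zero_const (ModularForm.mcast (by norm_num : ((0 : ℕ) : ℤ) = 0) F)
  refine ⟨c, fun z hz => ?_⟩
  rw [a3w_val hF z hz]
  have h := congrFun hc (ofComplex z)
  exact h

theorem IsMF.weight_two {f : ℂ → ℂ} (hf : IsMF 2 f) : ∀ z : ℂ, 0 < z.im → f z = 0 := by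
  obtain ⟨F, hF⟩ := hf.exists_form
  intro z hz
  have h := rank_zero_iff_forall_zero.mp ModularForm.levelOne_weight_two_rank_zero
    (ModularForm.mcast (by norm_num : ((2 : ℕ) : ℤ) = 2) F)
  rw [a3w_val hF z hz]
  have h2 := congrArg (fun G : ModularForm 𝒮ℒ 2 => G (ofComplex z)) h
  exact h2

theorem IsMF.weight_odd {k : ℕ} (hk : Odd k) {f : ℂ → ℂ} (hf : IsMF k f) : ∀ z : ℂ, 0 < z.im → f z = 0 := by
  obtain ⟨F, hF⟩ := hf.exists_form
  intro z hz
  have h := ModularForm.levelOne_odd_weight_eq_zero (k := (k : ℤ)) (by exact_mod_cast hk) F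
  rw [a3w_val hF z hz, h]
  rfl

theorem a3w_coeff {k : ℤ} (F : ModularForm 𝒮ℒ k)
    (h0 : Tendsto (fun y : ℝ => F (ofComplex (I * y))) atTop (𝓝 0)) :
    (qExpansion 1 F).coeff 0 = 0 := by
  have han := ModularFormClass.analyticAt_cuspFunction_zero F one_pos one_mem_strictPeriods_SL
  have h1 : Tendsto F atImInfty (𝓝 (cuspFunction 1 F 0)) := by
    have h2 := han.continuousAt.tendsto.comp (qParam_tendsto_atImInfty one_pos)
    refine h2.congr fun τ => ?_
    exact SlashInvariantFormClass.eq_cuspFunction F τ one_mem_strictPeriods_SL one_ne_zero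
  have h4 : Tendsto (fun y : ℝ => ofComplex (I * y)) atTop atImInfty := by
    refine tendsto_comap_im_ofComplex.comp (tendsto_comap_iff.2 ?_)
    refine tendsto_id.congr fun y => ?_
    simp
  have h5 := tendsto_nhds_unique h0 (h1.comp h4)
  simp [qExpansion_coeff, ← h5]

theorem a3w_isMF {k : ℕ} (G : ModularForm 𝒮ℒ k) : IsMF k (fun z => G (ofComplex z)) where
  diff := UpperHalfPlane.mdifferentiable_iff.mp G.holo'
  per z hz := by
    have h := SlashInvariantFormClass.periodic_comp_ofComplex G one_mem_strictPeriods_SL z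
    simpa using h
  inv z hz := by
    have hz' : 0 < (-1 / z).im := by
      rw [neg_div, Complex.neg_im, one_div, Complex.inv_im]
      rw [neg_div, neg_neg]
      exact div_pos hz (Complex.normSq_pos.mpr (by rintro rfl; simp at hz))
    have h6 := SlashInvariantForm.slash_action_eqn'' (Γ := 𝒮ℒ) G
      (γ := (ModularGroup.S : GL (Fin 2) ℝ)) (MonoidHom.mem_range.mpr ⟨ModularGroup.S, rfl⟩) (ofComplex z)
    have h7 : ((ModularGroup.S : GL (Fin 2) ℝ) • (ofComplex z) : ℍ) = ofComplex (-1 / z) := by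
      apply UpperHalfPlane.ext
      rw [a3w_of _ hz']
      have h8 : (((ModularGroup.S : SL(2, ℤ)) • (ofComplex z) : ℍ) : ℂ) = -1 / z := by
        rw [coe_specialLinearGroup_apply]
        simp [ModularGroup.S, a3w_of z hz]
      exact h8
    have h9 : denom (ModularGroup.S : GL (Fin 2) ℝ) (ofComplex z) = z := by
      have h10 := ModularGroup.denom_apply ModularGroup.S (ofComplex z)
      refine h10.trans ?_
      simp [ModularGroup.S, a3w_of z hz]
    rw [h7, h9] at h6
    exact_mod_cast h6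
  bdd := by
    have hs : ∀ τ : ℍ, HasSum (fun m : ℕ ↦ (qExpansion 1 G).coeff m • Function.Periodic.qParam 1 τ ^ m) (G τ) := by
      intro τ
      exact UpperHalfPlane.hasSum_qExpansion one_pos
        (SlashInvariantFormClass.periodic_comp_ofComplex G one_mem_strictPeriods_SL)
        (ModularFormClass.holo G) (ModularFormClass.bdd_at_infty G) τ
    have h1 := (hs UpperHalfPlane.I).summable.norm
    refine ⟨∑' m, ‖(qExpansion 1 G).coeff m • Function.Periodic.qParam 1 (UpperHalfPlane.I : ℍ) ^ m‖, ?_⟩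
    intro z hz
    have hz0 : 0 < z.im := lt_of_lt_of_le one_pos hz
    have h2 := hs (ofComplex z)
    rw [← h2.tsum_eq]
    have h3 : ∀ m : ℕ, ‖(qExpansion 1 G).coeff m • Function.Periodic.qParam 1 (ofComplex z : ℍ) ^ m‖
        ≤ ‖(qExpansion 1 G).coeff m • Function.Periodic.qParam 1 (UpperHalfPlane.I : ℍ) ^ m‖ := by
      intro m
      rw [norm_smul, norm_smul, norm_pow, norm_pow]
      gcongr
      rw [Function.Periodic.norm_qParam, Function.Periodic.norm_qParam, a3w_of z hz0]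
      apply Real.exp_le_exp.mpr
      simp only [UpperHalfPlane.I, UpperHalfPlane.coe_mk, Complex.I_im]
      have := Real.pi_pos
      nlinarith
    exact (norm_tsum_le_tsum_norm h2.summable.norm).trans
      (h2.summable.norm.tsum_le_tsum h3 h1)

/-- A3c. Division by `dl`: if `f → 0` at `i∞` then `f = dl * g` with `g` of weight `k - 12`; if `k < 12` then `f = 0`.
(`CuspForm.divDiscriminant`, `CuspForm.rank_eq_zero_of_weight_lt_twelve`.) -/
theorem IsMF.div_dl {k : ℕ} {f : ℂ → ℂ} (hf : IsMF k f) (h0 : Tendsto (fun y : ℝ => f (I * y)) atTop (𝓝 0)) :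
    (∀ z : ℂ, 0 < z.im → f z = 0) ∨ (12 ≤ k ∧ ∃ g : ℂ → ℂ, IsMF (k - 12) g ∧ ∀ z : ℂ, 0 < z.im → f z = dl z * g z) := by
  obtain ⟨F, hF⟩ := hf.exists_form
  have h1 : Tendsto (fun y : ℝ => F (ofComplex (I * y))) atTop (𝓝 0) := by
    refine h0.congr' ?_
    filter_upwards [eventually_gt_atTop 0] with y hy
    exact a3w_val hF (I * y) (by simpa using hy)
  have hc := a3w_coeff F h1
  rcases lt_or_ge k 12 with hk | hk
  · left
    intro z hz
    have h2 := rank_zero_iff_forall_zero.mp (CuspForm.rank_eq_zero_of_weight_lt_twelve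
      (k := (k : ℤ)) (by exact_mod_cast hk)) (ModularForm.toCuspForm F hc)
    rw [a3w_val hF z hz, ← ModularForm.toCuspForm_apply F hc, h2]
    rfl
  · right
    refine ⟨hk, ?_⟩
    let G : ModularForm 𝒮ℒ ((k - 12 : ℕ) : ℤ) :=
      ModularForm.mcast (by push_cast [hk]; ring) (CuspForm.discriminantEquiv (ModularForm.toCuspForm F hc))
    refine ⟨fun z => G (ofComplex z), a3w_isMF G, fun z hz => ?_⟩
    have h3 : G (ofComplex z) = (CuspForm.discriminantEquiv (ModularForm.toCuspForm F hc)) (ofComplex z) := rfl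
    change f z = dl z * G (ofComplex z)
    rw [h3]
    have h4 := ModularForm.discriminant_mul_discriminantEquiv_apply (ModularForm.toCuspForm F hc) (ofComplex z)
    have h5 : dl z = ModularForm.discriminant (ofComplex z) := by
      rw [← dl_eq, a3w_of z hz]
    rw [h5, h4, ModularForm.toCuspForm_apply, a3w_val hF z hz]

end Pool.Agent.MSD
end

end

section

/-! # A2b: e4, e6, dl are modular forms (MP_f58a57_nt) -/

open Complex ModularForm EisensteinSeries Filter
open UpperHalfPlane hiding I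
open scoped Topology MatrixGroups

noncomputable section

namespace Pool.Agent.MSD

/-- A2b. `e4`, `e6`, `dl` are modular forms in the elementary sense. -/
theorem isMF_e4 : IsMF 4 e4 := by
  obtain ⟨c, hc, -⟩ := e4_q
  refine ⟨e4_diff, ?_, ?_, hc.bdd⟩
  · intro z hz
    have h := e4_transform 1 1 0 1 (by norm_num) z hz
    simpa using h
  · intro z hz
    have h := e4_transform 0 (-1) 1 0 (by norm_num) z hz
    simpa using h

theorem isMF_e6 : IsMF 6 e6 := by
  obtain ⟨c, hc, -⟩ := e6_q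
  refine ⟨e6_diff, ?_, ?_, hc.bdd⟩
  · intro z hz
    have h := e6_transform 1 1 0 1 (by norm_num) z hz
    simpa using h
  · intro z hz
    have h := e6_transform 0 (-1) 1 0 (by norm_num) z hz
    simpa using h

theorem isMF_dl : IsMF 12 dl := by
  obtain ⟨c, hc, -⟩ := dl_q
  refine ⟨dl_diff, ?_, ?_, hc.bdd⟩
  · intro z hz
    unfold dl
    rw [isMF_e4.per z hz, isMF_e6.per z hz]
  · intro z hz
    unfold dl
    rw [isMF_e4.inv z hz, isMF_e6.inv z hz]
    ring

end Pool.Agent.MSD
end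

end

section

/-! # A4: integral structure of level one forms (MP_f58a57_nt) -/

open Complex ModularForm EisensteinSeries Filter
open UpperHalfPlane hiding I
open scoped Topology MatrixGroups

noncomputable section

namespace Pool.Agent.MSD

theorem a4_qParam (z : ℂ) : Function.Periodic.qParam 1 z = qq z := by
  simp [Function.Periodic.qParam, qq]

/-- complex `q`-expansion of a modular form -/
theorem a4_hasSum {k : ℕ} {g : ℂ → ℂ} (hg : IsMF k g) :
    ∃ G : ℕ → ℂ, ∀ z : ℂ, 0 < z.im → HasSum (fun n => G n * qq z ^ n) (g z) := by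
  obtain ⟨F, hF⟩ := hg.exists_form
  refine ⟨fun n => (qExpansion 1 F).coeff n, fun z hz => ?_⟩
  have h := ModularForm.hasSum_qExpansion (f := F) (h := 1) one_pos one_mem_strictPeriods_SL ⟨z, hz⟩
  rw [hF] at h
  simpa [a4_qParam] using h

/-- uniqueness of the complex `q`-expansion -/
theorem a4_unique {k : ℕ} {f : ℂ → ℂ} (hf : IsMF k f) {a b : ℕ → ℂ}
    (ha : ∀ z : ℂ, 0 < z.im → HasSum (fun n => a n * qq z ^ n) (f z))
    (hb : ∀ z : ℂ, 0 < z.im → HasSum (fun n => b n * qq z ^ n) (f z)) (n : ℕ) : a n = b n := by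
  obtain ⟨F, hF⟩ := hf.exists_form
  have h1 : a n = (qExpansion 1 F).coeff n := by
    refine ModularFormClass.qExpansion_coeff_unique (f := F) (h := 1) one_pos one_mem_strictPeriods_SL
      (fun τ => ?_) n
    have := ha τ τ.im_pos
    rw [hF]
    simpa [a4_qParam] using this
  have h2 : b n = (qExpansion 1 F).coeff n := by
    refine ModularFormClass.qExpansion_coeff_unique (f := F) (h := 1) one_pos one_mem_strictPeriods_SL
      (fun τ => ?_) n
    have := hb τ τ.im_pos
    rw [hF]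
    simpa [a4_qParam] using this
  rw [h1, h2]

/-- Cauchy product of complex `q`-expansions -/
theorem a4_mul {a b : ℕ → ℂ} {x y q : ℂ} (ha : HasSum (fun n => a n * q ^ n) x)
    (hb : HasSum (fun n => b n * q ^ n) y) :
    HasSum (fun n => (∑ p ∈ Finset.HasAntidiagonal.antidiagonal n, a p.1 * b p.2) * q ^ n) (x * y) := by
  have ha' := summable_norm_iff.2 ha.summable
  have hb' := summable_norm_iff.2 hb.summable
  have hs := (summable_norm_sum_mul_antidiagonal_of_summable_norm ha' hb').of_norm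
  have ht := tsum_mul_tsum_eq_tsum_sum_antidiagonal_of_summable_norm ha' hb'
  rw [ha.tsum_eq, hb.tsum_eq] at ht
  rw [ht]
  have he : (fun n => (∑ p ∈ Finset.HasAntidiagonal.antidiagonal n, a p.1 * b p.2) * q ^ n) =
      fun n => ∑ kl ∈ Finset.HasAntidiagonal.antidiagonal n,
        a kl.1 * q ^ kl.1 * (b kl.2 * q ^ kl.2) := by
    funext n
    rw [Finset.sum_mul]
    refine Finset.sum_congr rfl fun p hp => ?_
    rw [Finset.HasAntidiagonal.mem_antidiagonal] at hp
    rw [← hp, pow_add]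
    ring
  rw [he]
  exact hs.hasSum

/-- the `q`-expansion of `g` is integral if the one of `dl * g` is -/
theorem a4_div {k l : ℕ} {f g : ℂ → ℂ} (hf : IsMF k f) (hg : IsMF l g) (hq : HasIntQ f)
    (h : ∀ z : ℂ, 0 < z.im → f z = dl z * g z) : HasIntQ g := by
  obtain ⟨c, hc⟩ := hq
  obtain ⟨D, hD, hD0, hD1⟩ := dl_q
  obtain ⟨G, hG⟩ := a4_hasSum hg
  have key : ∀ n, (c n : ℂ) = ∑ p ∈ Finset.HasAntidiagonal.antidiagonal n, (D p.1 : ℂ) * G p.2 := by
    intro n
    refine a4_unique hf hc (b := fun n => ∑ p ∈ Finset.HasAntidiagonal.antidiagonal n,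
      (D p.1 : ℂ) * G p.2) (fun z hz => ?_) n
    rw [h z hz]
    exact a4_mul (a := fun n => (D n : ℂ)) (hD z hz) (hG z hz)
  have hint : ∀ n, ∃ m : ℤ, (m : ℂ) = G n := by
    intro n
    induction n using Nat.strong_induction_on with
    | _ n ih =>
      have h1 := key (n + 1)
      rw [Finset.Nat.antidiagonal_succ, Finset.sum_cons] at h1
      simp only [hD0, Int.cast_zero, zero_mul, zero_add, Finset.sum_map] at h1
      rw [Finset.Nat.sum_antidiagonal_eq_sum_range_succ_mk, Finset.sum_range_succ'] at h1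
      simp only [Function.Embedding.prodMap, Function.Embedding.coeFn_mk, Prod.map,
        Function.Embedding.refl_apply, Nat.succ_eq_add_one, Nat.sub_zero] at h1
      rw [hD1, Int.cast_one, one_mul] at h1
      have h2 : ∀ i : ℕ, ∃ m : ℤ, i ∈ Finset.range n →
          (m : ℂ) = (D (i + 1 + 1) : ℂ) * G (n - (i + 1)) := by
        intro i
        by_cases hi : i ∈ Finset.range n
        · obtain ⟨m, hm⟩ := ih (n - (i + 1)) (by rw [Finset.mem_range] at hi; omega)
          exact ⟨D (i + 1 + 1) * m, fun _ => by push_cast; rw [hm]⟩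
        · exact ⟨0, fun h => absurd h hi⟩
      choose m hm using h2
      refine ⟨c (n + 1) - ∑ i ∈ Finset.range n, m i, ?_⟩
      push_cast
      rw [h1, Finset.sum_congr rfl hm]
      ring
  choose m hm using hint
  refine ⟨m, fun z hz => ?_⟩
  simp only [hm]
  exact hG z hz

/-- A4. A modular form of level one with integer `q`-expansion is a polynomial in `e4, e6, dl` with integer coefficients,
weighted homogeneous of weight `k` for the weights `4, 6, 12`.

PROOF. Strong induction on `k`. Odd `k` and `k = 2`: `f = 0`. `k = 0`: constant, an integer. Otherwise `k = 4a + 6b` for some `a, b`; the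
form `f - c₀ e4^a e6^b` has integer `q`-expansion with vanishing constant term, so by A3c it is `dl * g` (or zero); `g` has a
`q`-expansion (periodic and bounded: as `dl g` has one with complex coefficients, or through A3 and Mathlib's `hasSum_qExpansion`);
comparing coefficients, `Σ_{i+j=n} D_i g_j = f_n` with `D_0 = 0`, `D_1 = 1`, `D_i ∈ ℤ`, gives `g_j ∈ ℤ` recursively. -/
theorem integral_structure {k : ℕ} {f : ℂ → ℂ} (hf : IsMF k f) (hq : HasIntQ f) :
    ∃ Θ : MvPolynomial (Fin 3) ℤ, MvPolynomial.IsWeightedHomogeneous wts Θ k ∧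
      ∀ z : ℂ, 0 < z.im → f z = MvPolynomial.aeval (vals z) Θ := by
  induction k using Nat.strong_induction_on generalizing f with
  | _ k ih =>
    have hzero : (∀ z : ℂ, 0 < z.im → f z = 0) → ∃ Θ : MvPolynomial (Fin 3) ℤ,
        MvPolynomial.IsWeightedHomogeneous wts Θ k ∧
          ∀ z : ℂ, 0 < z.im → f z = MvPolynomial.aeval (vals z) Θ := by
      intro h
      exact ⟨0, MvPolynomial.isWeightedHomogeneous_zero _ _ _, fun z hz => by rw [h z hz, map_zero]⟩
    rcases Nat.even_or_odd k with hk | hk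
    swap
    · exact hzero (hf.weight_odd hk)
    by_cases h0 : k = 0
    · subst h0
      obtain ⟨c, hc⟩ := hf.weight_zero
      obtain ⟨d, hd⟩ := hq
      have h1 := hd.tendsto
      have h2 : Tendsto (fun y : ℝ => f (I * y)) atTop (𝓝 c) := by
        refine Tendsto.congr' ?_ tendsto_const_nhds
        filter_upwards [eventually_gt_atTop 0] with y hy
        exact (hc _ (by simpa using hy)).symm
      have h3 : c = (d 0 : ℂ) := tendsto_nhds_unique h2 h1
      refine ⟨MvPolynomial.C (d 0), MvPolynomial.isWeightedHomogeneous_C _ _, fun z hz => ?_⟩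
      rw [hc z hz, h3]
      simp
    by_cases h2 : k = 2
    · subst h2
      exact hzero hf.weight_two
    obtain ⟨a, b, hab⟩ : ∃ a b : ℕ, k = 4 * a + 6 * b := by
      obtain ⟨r, hr⟩ := hk
      rcases Nat.even_or_odd' r with ⟨s, hs | hs⟩
      · exact ⟨s, 0, by omega⟩
      · exact ⟨s - 1, 1, by omega⟩
    -- the form e4^a e6^b
    have hE : IsMF k (fun z => e4 z ^ a * e6 z ^ b) := by
      rw [hab]
      exact (isMF_e4.pow a).mul (isMF_e6.pow b)
    have hpow : ∀ (u : ℂ → ℂ), (∃ c : ℕ → ℤ, QExp c u ∧ c 0 = 1) → ∀ n : ℕ,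
        ∃ c : ℕ → ℤ, QExp c (fun z => u z ^ n) ∧ c 0 = 1 := by
      rintro u ⟨c, hc, hc0⟩ n
      induction n with
      | zero =>
        refine ⟨fun n => if n = 0 then 1 else 0, fun z hz => ?_, by simp⟩
        have := hasSum_single (f := fun n : ℕ => (((if n = 0 then 1 else 0 : ℤ) : ℂ)) * qq z ^ n) 0
          (by intro n hn; simp [hn])
        simpa using this
      | succ n ih =>
        obtain ⟨d, hd, hd0⟩ := ih
        exact ⟨_, by simpa only [pow_succ] using hd.mul hc, by simp [hc0, hd0]⟩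
    obtain ⟨c4, hc4, hc40⟩ := hpow e4 e4_q a
    obtain ⟨c6, hc6, hc60⟩ := hpow e6 e6_q b
    obtain ⟨d, hd⟩ := hq
    have hg0 : IsMF k (fun z => f z + ((-d 0 : ℤ) : ℂ) * (e4 z ^ a * e6 z ^ b)) :=
      hf.add (hE.const_mul _)
    have hgq := hd.add ((hc4.mul hc6).const_mul (-d 0))
    have hlim : Tendsto (fun y : ℝ => (fun z => f z + ((-d 0 : ℤ) : ℂ) * (e4 z ^ a * e6 z ^ b)) (I * y)) atTop (𝓝 0) := by
      have := hgq.tendsto
      simpa [hc40, hc60] using this
    have hmono : MvPolynomial.IsWeightedHomogeneous wts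
        (MvPolynomial.C (d 0) * (MvPolynomial.X 0 ^ a * MvPolynomial.X 1 ^ b) : MvPolynomial (Fin 3) ℤ) k := by
      have h1 := (MvPolynomial.isWeightedHomogeneous_X ℤ wts (0 : Fin 3)).pow a
      have h2 := (MvPolynomial.isWeightedHomogeneous_X ℤ wts (1 : Fin 3)).pow b
      have h3 := (MvPolynomial.isWeightedHomogeneous_C wts (d 0)).mul (h1.mul h2)
      have h4 : 0 + (a • wts 0 + b • wts 1) = k := by
        simp [wts]; omega
      rw [h4] at h3
      exact h3
    rcases hg0.div_dl hlim with hz | ⟨h12, g, hg, hfg⟩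
    · refine ⟨MvPolynomial.C (d 0) * (MvPolynomial.X 0 ^ a * MvPolynomial.X 1 ^ b), hmono, fun z hz' => ?_⟩
      have := hz z hz'
      simp only [map_mul, map_pow, MvPolynomial.aeval_X, MvPolynomial.aeval_C, vals]
      push_cast at this
      simp
      linear_combination this
    · obtain ⟨Θ, hΘ, hΘv⟩ := ih (k - 12) (by omega) hg (a4_div hg0 hg ⟨_, hgq⟩ hfg)
      refine ⟨MvPolynomial.C (d 0) * (MvPolynomial.X 0 ^ a * MvPolynomial.X 1 ^ b) + MvPolynomial.X 2 * Θ,
        hmono.add ?_, fun z hz' => ?_⟩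
      · have h1 := (MvPolynomial.isWeightedHomogeneous_X ℤ wts (2 : Fin 3)).mul hΘ
        have h4 : wts 2 + (k - 12) = k := by
          simp [wts]; omega
        rw [h4] at h1
        exact h1
      · have := hfg z hz'
        rw [hΘv z hz'] at this
        simp only [map_mul, map_add, map_pow, MvPolynomial.aeval_X, MvPolynomial.aeval_C, vals] at this ⊢
        push_cast at this
        simp at this ⊢
        linear_combination this

end Pool.Agent.MSD
end

end

section

/-! # A5: uniformisation (MP_f58a57_nt) -/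

open Complex ModularForm EisensteinSeries Filter
open UpperHalfPlane hiding I
open scoped Topology MatrixGroups

noncomputable section

namespace Pool.Agent.MSD

theorem a5_norm_qq (z : ℂ) : ‖qq z‖ = Real.exp (-(2 * Real.pi * z.im)) := by
  rw [qq, Complex.norm_exp]
  congr 1
  simp

theorem a5_tendsto_qq : Tendsto (fun z : ℂ => ‖qq z‖) (comap Complex.im atTop) (𝓝 0) := by
  have h1 : Tendsto (fun y : ℝ => Real.exp (-(2 * Real.pi * y))) atTop (𝓝 0) := by
    refine Real.tendsto_exp_neg_atTop_nhds_zero.comp ?_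
    exact tendsto_id.const_mul_atTop (by positivity)
  have h2 := h1.comp (tendsto_comap (f := Complex.im) (x := atTop))
  refine h2.congr fun z => ?_
  rw [a5_norm_qq]
  rfl

theorem a5_bound {c : ℕ → ℤ} {f : ℂ → ℂ} (h : QExp c f) :
    ∃ C : ℝ, ∀ z : ℂ, 1 ≤ z.im → ‖f z - c 0‖ ≤ C * ‖qq z‖ := by
  have hI := (h I (by simp)).summable.norm
  set r : ℝ := ‖qq I‖ with hr
  have hr0 : 0 < r := by rw [hr, a5_norm_qq]; positivity
  have hI' : Summable fun n : ℕ => ‖(c n : ℂ)‖ * r ^ n := by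
    refine hI.congr fun n => ?_
    rw [norm_mul, norm_pow]
  have hI1 : Summable fun n : ℕ => ‖(c (n + 1) : ℂ)‖ * r ^ n := by
    have := ((summable_nat_add_iff 1).2 hI').mul_right r⁻¹
    refine this.congr fun n => ?_
    rw [pow_succ]
    field_simp
  refine ⟨∑' n : ℕ, ‖(c (n + 1) : ℂ)‖ * r ^ n, fun z hz => ?_⟩
  have hz0 : 0 < z.im := by linarith
  have hqr : ‖qq z‖ ≤ r := by
    rw [hr, a5_norm_qq, a5_norm_qq, Real.exp_le_exp]
    have : 2 * Real.pi * (I : ℂ).im ≤ 2 * Real.pi * z.im :=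
      mul_le_mul_of_nonneg_left (by simpa using hz) (by positivity)
    linarith
  have hs := h z hz0
  have hs1 : HasSum (fun n => (c (n + 1) : ℂ) * qq z ^ (n + 1)) (f z - c 0) := by
    rw [← hasSum_nat_add_iff' 1] at hs
    simpa using hs
  have hle : ∀ n : ℕ, ‖(c (n + 1) : ℂ) * qq z ^ (n + 1)‖ ≤ ‖(c (n + 1) : ℂ)‖ * r ^ n * ‖qq z‖ := by
    intro n
    rw [norm_mul, norm_pow, pow_succ, ← mul_assoc]
    gcongr
  rw [← hs1.tsum_eq]
  refine (norm_tsum_le_tsum_norm ?_).trans ?_
  · exact Summable.of_nonneg_of_le (fun _ => norm_nonneg _) hle (hI1.mul_right _)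
  · rw [← tsum_mul_right]
    exact Summable.tsum_le_tsum hle
      (Summable.of_nonneg_of_le (fun _ => norm_nonneg _) hle (hI1.mul_right _)) (hI1.mul_right _)

theorem a5_tendsto {c : ℕ → ℤ} {f : ℂ → ℂ} (h : QExp c f) :
    Tendsto f (comap Complex.im atTop) (𝓝 (c 0 : ℂ)) := by
  obtain ⟨C, hC⟩ := a5_bound h
  rw [tendsto_iff_norm_sub_tendsto_zero]
  have h1 : Tendsto (fun z : ℂ => C * ‖qq z‖) (comap Complex.im atTop) (𝓝 0) := by
    simpa using a5_tendsto_qq.const_mul C
  refine squeeze_zero' (Eventually.of_forall fun z => norm_nonneg _) ?_ h1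
  have h2 : ∀ᶠ z : ℂ in comap Complex.im atTop, 1 ≤ z.im :=
    (tendsto_comap (f := Complex.im) (x := atTop)).eventually (eventually_ge_atTop 1)
  filter_upwards [h2] with z hz using hC z hz

theorem a5_per_int {g : ℂ → ℂ} (hper : ∀ z : ℂ, 0 < z.im → g (z + 1) = g z) (n : ℤ) :
    ∀ z : ℂ, 0 < z.im → g (z + n) = g z := by
  induction n using Int.induction_on with
  | zero => intro z _; simp
  | succ n ih =>
    intro z hz
    have h1 := hper (z + n) (by simpa using hz)
    have h2 := ih z hz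
    push_cast at h2 ⊢
    rw [← add_assoc, h1, h2]
  | pred n ih =>
    intro z hz
    have h1 := hper (z + (-(n : ℂ) - 1)) (by simpa using hz)
    have h2 := ih z hz
    push_cast at h2 ⊢
    rw [← h1, ← h2]
    congr 1
    ring

/-- boundedness on `Im z ≥ 1` from the limit at `i∞` -/
theorem a5_bdd {g : ℂ → ℂ} (hd : DifferentiableOn ℂ g {z | 0 < z.im})
    (hper : ∀ z : ℂ, 0 < z.im → g (z + 1) = g z) {a : ℂ}
    (hlim : Tendsto g (comap Complex.im atTop) (𝓝 a)) :
    ∃ C : ℝ, ∀ z : ℂ, 1 ≤ z.im → ‖g z‖ ≤ C := by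
  have h1 : ∀ᶠ z in comap Complex.im atTop, ‖g z‖ ≤ ‖a‖ + 1 := by
    have := hlim.norm.eventually (eventually_le_nhds (show ‖a‖ < ‖a‖ + 1 by linarith))
    exact this
  rw [eventually_comap] at h1
  obtain ⟨Y, hY⟩ := eventually_atTop.1 h1
  have hK : IsCompact (Set.Icc (0 : ℝ) 1 ×ℂ Set.Icc (1 : ℝ) Y) := isCompact_Icc.reProdIm isCompact_Icc
  have hc : ContinuousOn g (Set.Icc (0 : ℝ) 1 ×ℂ Set.Icc (1 : ℝ) Y) := by
    refine hd.continuousOn.mono fun z hz => ?_
    have := (Complex.mem_reProdIm.1 hz).2.1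
    exact lt_of_lt_of_le one_pos this
  obtain ⟨C, hC⟩ := hK.exists_bound_of_continuousOn hc
  refine ⟨max C (‖a‖ + 1), fun z hz => ?_⟩
  rcases le_total Y z.im with h | h
  · exact (hY z.im h z rfl).trans (le_max_right _ _)
  · have h2 := a5_per_int hper (-⌊z.re⌋) z (by linarith)
    rw [← h2]
    refine (hC _ ?_).trans (le_max_left _ _)
    rw [Complex.mem_reProdIm]
    have h3 := Int.floor_le z.re
    have h4 := Int.lt_floor_add_one z.re
    refine ⟨⟨?_, ?_⟩, ?_, ?_⟩ <;> simp <;> linarith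

/-- the `j`-function takes every value -/
theorem a5_surj (J : ℂ) : ∃ τ : ℂ, 0 < τ.im ∧ e4 τ ^ 3 = J * dl τ := by
  by_contra hcon
  push Not at hcon
  obtain ⟨c4, hc4, hc40⟩ := e4_q
  obtain ⟨cd, hcd, hcd0, -⟩ := dl_q
  have h4 := a5_tendsto hc4
  have hdl := a5_tendsto hcd
  rw [hc40] at h4
  rw [hcd0] at hdl
  have hf : Tendsto (fun z => e4 z ^ 3 - J * dl z) (comap Complex.im atTop) (𝓝 1) := by
    have := (h4.pow 3).sub (hdl.const_mul J)
    simpa using this
  have hg : Tendsto (fun z => dl z / (e4 z ^ 3 - J * dl z)) (comap Complex.im atTop) (𝓝 0) := by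
    have h := hdl.div hf one_ne_zero
    rw [Int.cast_zero, zero_div] at h
    exact h
  have hne : ∀ z : ℂ, 0 < z.im → e4 z ^ 3 - J * dl z ≠ 0 := fun z hz h => hcon z hz (sub_eq_zero.1 h)
  have hdiff : DifferentiableOn ℂ (fun z => dl z / (e4 z ^ 3 - J * dl z)) {z | 0 < z.im} := by
    refine dl_diff.div ((e4_diff.pow 3).sub (dl_diff.const_mul J)) fun z hz => hne z hz
  have hper : ∀ z : ℂ, 0 < z.im → (fun z => dl z / (e4 z ^ 3 - J * dl z)) (z + 1) =
      (fun z => dl z / (e4 z ^ 3 - J * dl z)) z := by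
    intro z hz
    simp only [isMF_e4.per z hz, isMF_dl.per z hz]
  have hMF : IsMF 0 (fun z => dl z / (e4 z ^ 3 - J * dl z)) := by
    refine ⟨hdiff, hper, fun z hz => ?_, a5_bdd hdiff hper hg⟩
    have hz0 : z ≠ 0 := by rintro rfl; simp at hz
    simp only [isMF_e4.inv z hz, isMF_dl.inv z hz, pow_zero, one_mul]
    have : (z ^ 4 * e4 z) ^ 3 - J * (z ^ 12 * dl z) = z ^ 12 * (e4 z ^ 3 - J * dl z) := by ring
    rw [this, mul_div_mul_left _ _ (pow_ne_zero 12 hz0)]
  obtain ⟨c, hc⟩ := hMF.weight_zero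
  have hIy : Tendsto (fun y : ℝ => I * y) atTop (comap Complex.im atTop) := by
    rw [tendsto_comap_iff]
    refine tendsto_id.congr fun y => ?_
    simp
  have h1 := hg.comp hIy
  have h2 : Tendsto (fun y : ℝ => dl (I * y) / (e4 (I * y) ^ 3 - J * dl (I * y))) atTop (𝓝 c) := by
    refine Tendsto.congr' ?_ tendsto_const_nhds
    filter_upwards [eventually_gt_atTop 0] with y hy
    exact (hc _ (by simpa using hy)).symm
  have h3 : c = 0 := tendsto_nhds_unique h2 h1
  have h4 := hc I (by simp)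
  rw [h3, div_eq_zero_iff] at h4
  rcases h4 with h4 | h4
  · exact dl_ne_zero I (by simp) h4
  · exact hne I (by simp) h4

/-- A5. Every pair `(u, v)` with `u³ ≠ v²` is `(e4 τ/Ω⁴, e6 τ/Ω⁶)`.

PROOF. First `J := 1728 u³/(u³ - v²)` is a value of `jj`: otherwise `f = e4³ - J dl` (weight 12, limit 1 at `i∞`) has no zero in the upper
half plane, so `dl/f` is a modular form of weight 0 (bounded because `f → 1`, `dl → 0`), hence constant `= 0`, contradiction.
So `e4(τ)³ v² = e6(τ)² u³` for some `τ`. If `u = 0` then `e4 τ = 0`, `e6 τ ≠ 0`, choose `Ω⁶ = e6 τ/v`. If `v = 0` then `e6 τ = 0`, choose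
`Ω⁴ = e4 τ/u`. Otherwise choose `Ω⁴ = e4 τ/u`; then `Ω^12 = e4³/u³ = e6²/v²` so `e6 τ = ± v Ω⁶`; replacing `Ω` by `iΩ` changes the
sign of `Ω⁶` and not `Ω⁴`. -/
theorem uniformization (u v : ℂ) (h : u ^ 3 ≠ v ^ 2) :
    ∃ τ Ω : ℂ, 0 < τ.im ∧ Ω ≠ 0 ∧ e4 τ / Ω ^ 4 = u ∧ e6 τ / Ω ^ 6 = v := by
  have huv : u ^ 3 - v ^ 2 ≠ 0 := sub_ne_zero.2 h
  obtain ⟨τ, hτ, hJ⟩ := a5_surj (1728 * u ^ 3 / (u ^ 3 - v ^ 2))
  have hd := dl_ne_zero τ hτ
  have hd' : e4 τ ^ 3 - e6 τ ^ 2 ≠ 0 := by
    intro h0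
    apply hd
    rw [dl, h0, zero_div]
  have key : e4 τ ^ 3 * v ^ 2 = u ^ 3 * e6 τ ^ 2 := by
    rw [dl] at hJ
    field_simp at hJ
    linear_combination -hJ
  by_cases hu : u = 0
  · subst hu
    have hv : v ≠ 0 := by rintro rfl; simp at h
    have h4 : e4 τ = 0 := by
      have : e4 τ ^ 3 * v ^ 2 = 0 := by rw [key]; ring
      rcases mul_eq_zero.1 this with h' | h'
      · exact pow_eq_zero_iff (by norm_num) |>.1 h'
      · exact absurd (pow_eq_zero_iff (by norm_num) |>.1 h') hv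
    have h6 : e6 τ ≠ 0 := by
      intro h6; apply hd'; rw [h4, h6]; ring
    obtain ⟨Ω, hΩ⟩ := IsAlgClosed.exists_pow_nat_eq (e6 τ / v) (n := 6) (by norm_num)
    have hΩ0 : Ω ≠ 0 := by
      rintro rfl
      rw [zero_pow (by norm_num)] at hΩ
      exact div_ne_zero h6 hv hΩ.symm
    refine ⟨τ, Ω, hτ, hΩ0, by rw [h4, zero_div], ?_⟩
    rw [hΩ]; field_simp
  by_cases hv : v = 0
  · subst hv
    have h6 : e6 τ = 0 := by
      have : u ^ 3 * e6 τ ^ 2 = 0 := by rw [← key]; ring
      rcases mul_eq_zero.1 this with h' | h'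
      · exact absurd (pow_eq_zero_iff (by norm_num) |>.1 h') hu
      · exact pow_eq_zero_iff (by norm_num) |>.1 h'
    have h4 : e4 τ ≠ 0 := by
      intro h4; apply hd'; rw [h4, h6]; ring
    obtain ⟨Ω, hΩ⟩ := IsAlgClosed.exists_pow_nat_eq (e4 τ / u) (n := 4) (by norm_num)
    have hΩ0 : Ω ≠ 0 := by
      rintro rfl
      rw [zero_pow (by norm_num)] at hΩ
      exact div_ne_zero h4 hu hΩ.symm
    refine ⟨τ, Ω, hτ, hΩ0, ?_, by rw [h6, zero_div]⟩
    rw [hΩ]; field_simp
  have h4 : e4 τ ≠ 0 := by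
    intro h4
    have : u ^ 3 * e6 τ ^ 2 = 0 := by rw [← key, h4]; ring
    rcases mul_eq_zero.1 this with h' | h'
    · exact hu (pow_eq_zero_iff (by norm_num) |>.1 h')
    · apply hd'; rw [h4, h']; ring
  obtain ⟨Ω, hΩ⟩ := IsAlgClosed.exists_pow_nat_eq (e4 τ / u) (n := 4) (by norm_num)
  have hΩ0 : Ω ≠ 0 := by
    rintro rfl
    rw [zero_pow (by norm_num)] at hΩ
    exact div_ne_zero h4 hu hΩ.symm
  have hsq : (e6 τ / v) ^ 2 = (Ω ^ 6) ^ 2 := by
    have : (Ω ^ 6) ^ 2 = (Ω ^ 4) ^ 3 := by ring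
    rw [this, hΩ]
    field_simp
    linear_combination -key
  rcases sq_eq_sq_iff_eq_or_eq_neg.1 hsq with h6 | h6
  · refine ⟨τ, Ω, hτ, hΩ0, by rw [hΩ]; field_simp, ?_⟩
    rw [← h6]
    have : e6 τ ≠ 0 := by
      intro h0
      rw [h0, zero_div] at h6
      exact pow_ne_zero 6 hΩ0 h6.symm
    field_simp
  · have hI4 : (I * Ω) ^ 4 = Ω ^ 4 := by
      rw [mul_pow, Complex.I_pow_four, one_mul]
    have hI6 : (I * Ω) ^ 6 = - Ω ^ 6 := by
      have : (I : ℂ) ^ 6 = -1 := by
        rw [show (6 : ℕ) = 4 + 2 from rfl, pow_add, Complex.I_pow_four, Complex.I_sq]; ring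
      rw [mul_pow, this]; ring
    refine ⟨τ, I * Ω, hτ, mul_ne_zero Complex.I_ne_zero hΩ0, by rw [hI4, hΩ]; field_simp, ?_⟩
    rw [hI6, ← h6]
    have : e6 τ ≠ 0 := by
      intro h0
      rw [h0, zero_div] at h6
      exact pow_ne_zero 6 hΩ0 (neg_eq_zero.1 h6.symm)
    field_simp

end Pool.Agent.MSD
end

end
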