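import Mathlib
import Pool.Agent.Lib.MP_f58a57_nt.FK.K006

section

/-! # U/V2_Pow: powers of linear forms span -/

open MvPolynomial

noncomputable section

namespace Pool.Agent.MSU

theorem VA03_monomials (K : ℕ) (L : MvPolynomial (Fin 2) ℂ →ₗ[ℂ] ℂ)
    (h : ∀ k ≤ K, ∀ a : Fin 2 → ℕ, (∀ j, a j ≤ max 1 K) → L ((∑ i, C (a i : ℂ) * X i) ^ k) = 0)
    (k : ℕ) (hk : k ≤ K) (m : ℕ) (hm : m ≤ k) :
    L (X 0 ^ m * X 1 ^ (k - m)) = 0 := by
  have hexp : ∀ j : ℕ, j ≤ k → ∑ i ∈ Finset.range (k + 1),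
      (L (X 0 ^ (k - i) * X 1 ^ i) * (Nat.choose k i : ℂ)) * (j : ℂ) ^ i = 0 := by
    intro j hj
    have h1 := h k hk ![1, j] (fun i => by
      fin_cases i
      · exact le_max_left _ _
      · exact (hj.trans hk).trans (le_max_right _ _))
    rw [Fin.sum_univ_two] at h1
    have e1 : (C ((![1, j] 0 : ℕ) : ℂ) * X 0 + C ((![1, j] 1 : ℕ) : ℂ) * X 1 :
        MvPolynomial (Fin 2) ℂ) = C (j : ℂ) * X 1 + X 0 := by
      simp [add_comm]
    rw [e1, add_pow, map_sum] at h1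
    rw [← h1]
    refine Finset.sum_congr rfl (fun i _ => ?_)
    have e2 : ((C (j : ℂ) * X 1) ^ i * X 0 ^ (k - i) * (Nat.choose k i : MvPolynomial (Fin 2) ℂ)) =
        ((Nat.choose k i : ℂ) * (j : ℂ) ^ i) • (X 0 ^ (k - i) * X 1 ^ i) := by
      rw [smul_eq_C_mul, map_mul, map_pow, mul_pow]
      simp only [map_natCast]
      ring
    rw [e2, map_smul, smul_eq_mul]
    ring
  have hv := Matrix.eq_zero_of_forall_index_sum_mul_pow_eq_zero (n := k + 1)
    (f := fun j : Fin (k + 1) => ((j : ℕ) : ℂ))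
    (v := fun i : Fin (k + 1) => L (X 0 ^ (k - (i : ℕ)) * X 1 ^ (i : ℕ)) * (Nat.choose k i : ℂ))
    (fun a b hab => Fin.ext (Nat.cast_injective hab)) (fun j => by
      have h1 := hexp j (by omega)
      rw [Finset.sum_range] at h1
      exact h1)
  have h2 := congrFun hv ⟨k - m, by omega⟩
  have h3 : L (X 0 ^ (k - (k - m)) * X 1 ^ (k - m)) * (Nat.choose k (k - m) : ℂ) = 0 := h2
  rw [Nat.sub_sub_self hm] at h3
  rcases mul_eq_zero.1 h3 with h4 | h4
  · exact h4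
  · exact absurd (Nat.cast_eq_zero.1 h4) (Nat.choose_pos (Nat.sub_le k m)).ne'

/-- V2. PROOF. `(X_0 + j X_1)^k = ∑_i binom(k,i) j^i X_0^(k-i) X_1^i`, `j = 0, ..., k`: a Vandermonde system, so every monomial of degree `k` is a combination of these powers; `L` vanishes on every monomial of degree `k ≤ K`, so on every polynomial of degree `≤ K`. -/
theorem pow_span (K : ℕ) (L : MvPolynomial (Fin 2) ℂ →ₗ[ℂ] ℂ)
    (h : ∀ k ≤ K, ∀ a : Fin 2 → ℕ, (∀ j, a j ≤ max 1 K) → L ((∑ i, C (a i : ℂ) * X i) ^ k) = 0)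
    (p : MvPolynomial (Fin 2) ℂ) (hp : p.totalDegree ≤ K) : L p = 0 := by
  rw [← support_sum_monomial_coeff p, map_sum]
  refine Finset.sum_eq_zero (fun m hm => ?_)
  have h1 : m 0 + m 1 ≤ K := by
    have h2 := (le_totalDegree hm).trans hp
    rw [Finsupp.sum_fintype _ _ (fun _ => rfl), Fin.sum_univ_two] at h2
    exact h2
  have h3 : (monomial m (coeff m p) : MvPolynomial (Fin 2) ℂ) =
      coeff m p • (X 0 ^ (m 0) * X 1 ^ ((m 0 + m 1) - m 0)) := by
    rw [monomial_eq, smul_eq_C_mul, Finsupp.prod_fintype _ _ (fun _ => pow_zero _),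
      Fin.prod_univ_two, Nat.add_sub_cancel_left]
  rw [h3, map_smul, VA03_monomials K L h (m 0 + m 1) h1 (m 0) (Nat.le_add_right _ _), smul_zero]

end Pool.Agent.MSU
end

end

section

/-! # A6: Ramanujan differential equations (MP_f58a57_nt) -/

open Complex ModularForm EisensteinSeries Filter
open UpperHalfPlane hiding I
open scoped Topology MatrixGroups

noncomputable section

namespace Pool.Agent.MSD

theorem A6_open : IsOpen {z : ℂ | 0 < z.im} := isOpen_lt continuous_const Complex.continuous_im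

theorem A6_norm_qq (z : ℂ) : ‖qq z‖ = Real.exp (-(2 * Real.pi * z.im)) := by
  unfold qq
  rw [Complex.norm_exp]
  congr 1
  simp

/-- a `q`-expansion tends to its constant term exponentially fast -/
theorem A6_decay {c : ℕ → ℤ} {f : ℂ → ℂ} (h : QExp c f) :
    ∃ K : ℝ, 0 ≤ K ∧ ∀ z : ℂ, 1 / 2 ≤ z.im →
      ‖f z - c 0‖ ≤ K * Real.exp (-(2 * Real.pi * (z.im - 1 / 2))) := by
  have h0 := (h (I / 2) (by simp)).summable.norm
  have him : (I / 2 : ℂ).im = 1 / 2 := by simp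
  refine ⟨∑' n, ‖(c n : ℂ) * qq (I / 2) ^ n‖, tsum_nonneg fun n => norm_nonneg _, fun z hz => ?_⟩
  have hpi := Real.pi_pos
  have h1 := h z (by linarith)
  have h2 : HasSum (fun n => (c (n + 1) : ℂ) * qq z ^ (n + 1)) (f z - c 0) := by
    have := (hasSum_nat_add_iff' 1).2 h1
    simpa using this
  have h3 : ∀ n, ‖(c (n + 1) : ℂ) * qq z ^ (n + 1)‖ ≤
      ‖(c (n + 1) : ℂ) * qq (I / 2) ^ (n + 1)‖ * Real.exp (-(2 * Real.pi * (z.im - 1 / 2))) := by
    intro n
    rw [norm_mul, norm_mul, norm_pow, norm_pow, A6_norm_qq, A6_norm_qq, him]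
    refine (mul_le_mul_of_nonneg_left ?_ (norm_nonneg (c (n + 1) : ℂ))).trans_eq
      (mul_assoc _ _ _).symm
    rw [← Real.exp_nat_mul, ← Real.exp_nat_mul, ← Real.exp_add, Real.exp_le_exp]
    have hn : (0 : ℝ) ≤ n := Nat.cast_nonneg n
    push_cast
    have : (0 : ℝ) ≤ (n : ℝ) * (2 * Real.pi * (z.im - 1 / 2)) := by
      apply mul_nonneg hn
      apply mul_nonneg (by positivity)
      linarith
    nlinarith
  have h4 : Summable (fun n => ‖(c (n + 1) : ℂ) * qq (I / 2) ^ (n + 1)‖) :=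
    (summable_nat_add_iff 1).2 h0
  have h5 : Summable (fun n => ‖(c (n + 1) : ℂ) * qq (I / 2) ^ (n + 1)‖ *
      Real.exp (-(2 * Real.pi * (z.im - 1 / 2)))) := h4.mul_right _
  rw [← h2.tsum_eq]
  calc ‖∑' n, (c (n + 1) : ℂ) * qq z ^ (n + 1)‖
      ≤ ∑' n, ‖(c (n + 1) : ℂ) * qq (I / 2) ^ (n + 1)‖ *
        Real.exp (-(2 * Real.pi * (z.im - 1 / 2))) := tsum_of_norm_bounded h5.hasSum h3
    _ = (∑' n, ‖(c (n + 1) : ℂ) * qq (I / 2) ^ (n + 1)‖) *
        Real.exp (-(2 * Real.pi * (z.im - 1 / 2))) := tsum_mul_right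
    _ ≤ _ := by
      refine mul_le_mul_of_nonneg_right ?_ (Real.exp_pos _).le
      have h6 := h0.sum_add_tsum_nat_add 1
      have h7 : 0 ≤ ∑ i ∈ Finset.range 1, ‖(c i : ℂ) * qq (I / 2) ^ i‖ :=
        Finset.sum_nonneg fun i _ => norm_nonneg _
      linarith

/-- the derivative of a `q`-expansion decays exponentially -/
theorem A6_deriv_decay {c : ℕ → ℤ} {f : ℂ → ℂ} (h : QExp c f)
    (hd : DifferentiableOn ℂ f {z | 0 < z.im}) :
    ∃ K : ℝ, 0 ≤ K ∧ ∀ z : ℂ, 1 ≤ z.im →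
      ‖deriv f z‖ ≤ K * Real.exp (-(2 * Real.pi * (z.im - 1))) := by
  obtain ⟨K, hK, hb⟩ := A6_decay h
  refine ⟨K * 2, by positivity, fun z hz => ?_⟩
  have hpi := Real.pi_pos
  have him : ∀ w : ℂ, ‖w - z‖ ≤ 1 / 2 → z.im - 1 / 2 ≤ w.im := by
    intro w hw
    have h1 : |(w - z).im| ≤ ‖w - z‖ := Complex.abs_im_le_norm _
    have h2 := abs_le.1 (h1.trans hw)
    rw [Complex.sub_im] at h2
    linarith [h2.1]
  have h1 : DiffContOnCl ℂ (fun w => f w - c 0) (Metric.ball z (1 / 2)) := by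
    have h2 : DifferentiableOn ℂ (fun w => f w - c 0) (Metric.closedBall z (1 / 2)) := by
      refine (hd.mono ?_).sub_const _
      intro w hw
      rw [Metric.mem_closedBall, dist_eq_norm] at hw
      have := him w hw
      show 0 < w.im
      linarith
    refine ⟨h2.mono Metric.ball_subset_closedBall, ?_⟩
    exact h2.continuousOn.mono Metric.closure_ball_subset_closedBall
  have h3 : deriv f z = deriv (fun w => f w - c 0) z := by
    rw [deriv_sub_const_fun]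
  rw [h3]
  have h4 := Complex.norm_deriv_le_of_forall_mem_sphere_norm_le (c := z) (R := 1 / 2)
    (C := K * Real.exp (-(2 * Real.pi * (z.im - 1)))) (by norm_num) h1 (by
      intro w hw
      rw [mem_sphere_iff_norm] at hw
      have h5 := him w hw.le
      refine (hb w (by linarith)).trans ?_
      refine mul_le_mul_of_nonneg_left ?_ hK
      rw [Real.exp_le_exp]
      nlinarith)
  refine h4.trans (le_of_eq ?_)
  ring

/-- the Serre derivative -/
theorem A6_serre {k : ℕ} {f : ℂ → ℂ} {c : ℕ → ℤ} (hf : IsMF k f) (hq : QExp c f) :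
    IsMF (k + 2) (fun z => (2 * Real.pi * I)⁻¹ * deriv f z - (k : ℂ) / 12 * (e2 z * f z)) ∧
    Tendsto (fun y : ℝ => (2 * Real.pi * I)⁻¹ * deriv f (I * y) -
      (k : ℂ) / 12 * (e2 (I * y) * f (I * y))) atTop (𝓝 (-((k : ℂ) / 12) * c 0)) := by
  obtain ⟨c2, hc2, hc20⟩ := e2_q
  obtain ⟨K, hK, hder⟩ := A6_deriv_decay hq hf.diff
  have hpi := Real.pi_pos
  have hpiC : (Real.pi : ℂ) ≠ 0 := by exact_mod_cast Real.pi_ne_zero
  have hderf : ∀ z : ℂ, 0 < z.im → HasDerivAt f (deriv f z) z := fun z hz =>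
    (hf.diff.differentiableAt (A6_open.mem_nhds hz)).hasDerivAt
  have he2per : ∀ z : ℂ, 0 < z.im → e2 (z + 1) = e2 z := by
    intro z hz
    have := e2_transform 1 1 0 1 (by norm_num) z hz
    simpa using this
  have he2inv : ∀ z : ℂ, 0 < z.im → e2 (-1 / z) = z ^ 2 * e2 z - 6 * I / Real.pi * z := by
    intro z hz
    have := e2_transform 0 (-1) 1 0 (by norm_num) z hz
    simpa using this
  constructor
  · refine ⟨?_, ?_, ?_, ?_⟩
    · refine DifferentiableOn.sub ?_ ?_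
      · exact (hf.diff.deriv A6_open).const_mul _
      · exact (e2_diff.mul hf.diff).const_mul _
    · intro z hz
      have h1 : HasDerivAt f (deriv f (z + 1)) (z + 1) := hderf (z + 1) (by simp [hz])
      have h2 : HasDerivAt (fun w => f (w + 1)) (deriv f (z + 1)) z := h1.comp_add_const z 1
      have h3 : (fun w => f (w + 1)) =ᶠ[𝓝 z] f := by
        filter_upwards [A6_open.mem_nhds hz] with w hw
        exact hf.per w hw
      have h4 : deriv f (z + 1) = deriv f z := (h2.congr_of_eventuallyEq h3.symm).unique (hderf z hz)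
      show (2 * Real.pi * I)⁻¹ * deriv f (z + 1) - (k : ℂ) / 12 * (e2 (z + 1) * f (z + 1)) = _
      rw [h4, he2per z hz, hf.per z hz]
    · intro z hz
      have hz0 : z ≠ 0 := by
        rintro rfl
        simp at hz
      have him : 0 < (-1 / z).im := by
        rw [show (-1 : ℂ) / z = -z⁻¹ by field_simp, Complex.neg_im, Complex.inv_im]
        have : 0 < Complex.normSq z := Complex.normSq_pos.2 hz0
        have h5 : -(-z.im / Complex.normSq z) = z.im / Complex.normSq z := by ring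
        rw [h5]
        positivity
      have h1 : HasDerivAt (fun w : ℂ => -1 / w) (1 / z ^ 2) z := by
        have := (hasDerivAt_inv hz0).neg
        refine (this.congr_deriv ?_).congr_of_eventuallyEq (Eventually.of_forall fun w => ?_)
        · field_simp
        · show -1 / w = -w⁻¹
          field_simp
      have h2 : HasDerivAt (fun w => f (-1 / w)) (deriv f (-1 / z) * (1 / z ^ 2)) z :=
        (hderf _ him).comp z h1
      have h3 : HasDerivAt (fun w => w ^ k * f w) ((k : ℂ) * z ^ (k - 1) * f z + z ^ k * deriv f z) z := by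
        have := (hasDerivAt_pow k z).mul (hderf z hz)
        exact this
      have h4 : (fun w => f (-1 / w)) =ᶠ[𝓝 z] (fun w => w ^ k * f w) := by
        filter_upwards [A6_open.mem_nhds hz] with w hw
        exact hf.inv w hw
      have h5 : deriv f (-1 / z) * (1 / z ^ 2) = (k : ℂ) * z ^ (k - 1) * f z + z ^ k * deriv f z :=
        h2.unique (h3.congr_of_eventuallyEq h4)
      have h6 : deriv f (-1 / z) = (k : ℂ) * z ^ (k + 1) * f z + z ^ (k + 2) * deriv f z := by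
        have h7 : deriv f (-1 / z) = (deriv f (-1 / z) * (1 / z ^ 2)) * z ^ 2 := by field_simp
        rw [h7, h5]
        rcases Nat.eq_zero_or_pos k with rfl | hk
        · simp; ring
        · obtain ⟨m, rfl⟩ : ∃ m, k = m + 1 := ⟨k - 1, by omega⟩
          simp only [Nat.add_sub_cancel]
          ring
      show (2 * Real.pi * I)⁻¹ * deriv f (-1 / z) - (k : ℂ) / 12 * (e2 (-1 / z) * f (-1 / z)) = _
      rw [h6, he2inv z hz, hf.inv z hz]
      have hI : (I : ℂ) ≠ 0 := Complex.I_ne_zero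
      have h8 : (2 * (Real.pi : ℂ) * I)⁻¹ = -I / (2 * Real.pi) := by
        rw [inv_eq_iff_eq_inv, eq_comm, inv_div, div_eq_iff (by simpa using hI)]
        ring_nf
        rw [Complex.I_sq]
        ring
      rw [h8]
      field_simp
      ring
    · obtain ⟨C1, hC1⟩ := hc2.bdd
      obtain ⟨C2, hC2⟩ := hq.bdd
      refine ⟨‖(2 * Real.pi * I : ℂ)⁻¹‖ * K + ‖(k : ℂ) / 12‖ * (C1 * C2), fun z hz => ?_⟩
      have h1 : ‖deriv f z‖ ≤ K := by
        refine (hder z hz).trans ?_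
        have : Real.exp (-(2 * Real.pi * (z.im - 1))) ≤ 1 := by
          rw [Real.exp_le_one_iff]
          have : 0 ≤ 2 * Real.pi * (z.im - 1) := mul_nonneg (by positivity) (by linarith)
          linarith
        nlinarith
      refine (norm_sub_le _ _).trans ?_
      rw [norm_mul, norm_mul, norm_mul (e2 z)]
      have h2 := hC1 z hz
      have h3 := hC2 z hz
      have h4 : ‖e2 z‖ * ‖f z‖ ≤ C1 * C2 := mul_le_mul h2 h3 (norm_nonneg _) ((norm_nonneg _).trans h2)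
      gcongr
  · have h1 : Tendsto (fun y : ℝ => deriv f (I * y)) atTop (𝓝 0) := by
      rw [tendsto_zero_iff_norm_tendsto_zero]
      have h2 : Tendsto (fun y : ℝ => K * Real.exp (-(2 * Real.pi * (y - 1)))) atTop (𝓝 (K * 0)) := by
        refine Tendsto.const_mul K ?_
        refine Real.tendsto_exp_atBot.comp ?_
        refine tendsto_neg_atTop_atBot.comp ?_
        refine Tendsto.const_mul_atTop (by positivity) ?_
        exact tendsto_atTop_add_const_right _ (-1) tendsto_id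
      rw [mul_zero] at h2
      refine squeeze_zero' (Eventually.of_forall fun y => norm_nonneg _) ?_ h2
      filter_upwards [eventually_ge_atTop (1 : ℝ)] with y hy
      have h3 := hder (I * y) (by simpa using hy)
      simpa using h3
    have h2 := ((h1.const_mul ((2 * Real.pi * I : ℂ)⁻¹)).sub
      ((hc2.tendsto.mul hq.tendsto).const_mul ((k : ℂ) / 12)))
    rw [hc20] at h2
    convert h2 using 2
    push_cast
    ring

/-- A6. PROOF. The Serre derivative `(2πi)⁻¹ e4' - e2 e4/3` is a modular form of weight 6 (Mathlib: `serreDerivative_slash_equivariant`; or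
differentiate the transformation laws of A2 under `z ↦ z + 1`, `z ↦ -1/z`), holomorphic and bounded, with value `-1/3` at `i∞`; add `e6/3`: it
tends to 0 at `i∞`, so it vanishes by `IsMF.div_dl` (`6 < 12`). Same for `e6` (weight 8, add `e4²/2`). -/
theorem deriv_e4 (z : ℂ) (hz : 0 < z.im) :
    HasDerivAt e4 (2 * Real.pi * I * ((e2 z * e4 z - e6 z) / 3)) z := by
  obtain ⟨c, hc, hc0⟩ := e4_q
  obtain ⟨c6, hc6, hc60⟩ := e6_q
  obtain ⟨h1, h2⟩ := A6_serre isMF_e4 hc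
  have h3 := h1.add (isMF_e6.const_mul (1 / 3))
  have h4 : Tendsto (fun y : ℝ => (2 * Real.pi * I)⁻¹ * deriv e4 (I * y) -
      ((4 : ℕ) : ℂ) / 12 * (e2 (I * y) * e4 (I * y)) + 1 / 3 * e6 (I * y)) atTop (𝓝 0) := by
    have := h2.add (hc6.tendsto.const_mul (1 / 3))
    rw [hc0, hc60] at this
    convert this using 2
    push_cast
    ring
  have h5 : ∀ z : ℂ, 0 < z.im → (2 * Real.pi * I)⁻¹ * deriv e4 z -
      ((4 : ℕ) : ℂ) / 12 * (e2 z * e4 z) + 1 / 3 * e6 z = 0 := by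
    rcases h3.div_dl h4 with h | ⟨h, _⟩
    · exact h
    · omega
  have h6 := h5 z hz
  have h7 : deriv e4 z = 2 * Real.pi * I * ((e2 z * e4 z - e6 z) / 3) := by
    have hI : (2 * Real.pi * I : ℂ) ≠ 0 := by
      have := Real.pi_ne_zero
      simp [Complex.I_ne_zero, this]
    have h8 : deriv e4 z = (2 * Real.pi * I) * ((2 * Real.pi * I)⁻¹ * deriv e4 z) := by
      rw [← mul_assoc, mul_inv_cancel₀ hI, one_mul]
    rw [h8]
    congr 1
    push_cast at h6
    linear_combination h6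
  rw [← h7]
  exact (e4_diff.differentiableAt (A6_open.mem_nhds hz)).hasDerivAt

theorem deriv_e6 (z : ℂ) (hz : 0 < z.im) :
    HasDerivAt e6 (2 * Real.pi * I * ((e2 z * e6 z - e4 z ^ 2) / 2)) z := by
  obtain ⟨c, hc, hc0⟩ := e6_q
  obtain ⟨c4, hc4, hc40⟩ := e4_q
  obtain ⟨h1, h2⟩ := A6_serre isMF_e6 hc
  have h3 := h1.add ((isMF_e4.pow 2).const_mul (1 / 2))
  have h4 : Tendsto (fun y : ℝ => (2 * Real.pi * I)⁻¹ * deriv e6 (I * y) -
      ((6 : ℕ) : ℂ) / 12 * (e2 (I * y) * e6 (I * y)) + 1 / 2 * e4 (I * y) ^ 2) atTop (𝓝 0) := by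
    have := h2.add ((hc4.tendsto.pow 2).const_mul (1 / 2))
    rw [hc0, hc40] at this
    convert this using 2
    push_cast
    ring
  have h5 : ∀ z : ℂ, 0 < z.im → (2 * Real.pi * I)⁻¹ * deriv e6 z -
      ((6 : ℕ) : ℂ) / 12 * (e2 z * e6 z) + 1 / 2 * e4 z ^ 2 = 0 := by
    rcases h3.div_dl h4 with h | ⟨h, _⟩
    · exact h
    · omega
  have h6 := h5 z hz
  have h7 : deriv e6 z = 2 * Real.pi * I * ((e2 z * e6 z - e4 z ^ 2) / 2) := by
    have hI : (2 * Real.pi * I : ℂ) ≠ 0 := by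
      have := Real.pi_ne_zero
      simp [Complex.I_ne_zero, this]
    have h8 : deriv e6 z = (2 * Real.pi * I) * ((2 * Real.pi * I)⁻¹ * deriv e6 z) := by
      rw [← mul_assoc, mul_inv_cancel₀ hI, one_mul]
    rw [h8]
    congr 1
    push_cast at h6
    linear_combination h6
  rw [← h7]
  exact (e6_diff.differentiableAt (A6_open.mem_nhds hz)).hasDerivAt

end Pool.Agent.MSD
end

end

section

/-! # A7: the derivatives of the j-function (MP_f58a57_nt) -/

open Complex ModularForm EisensteinSeries Filter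
open UpperHalfPlane hiding I
open scoped Topology MatrixGroups

noncomputable section

namespace Pool.Agent.MSD

/-- A7a. `dl' = 2πi e2 dl`, `jj' = -2πi e4² e6/dl`. -/
theorem deriv_dl (z : ℂ) (hz : 0 < z.im) : HasDerivAt dl (2 * Real.pi * I * (e2 z * dl z)) z := by
  have h := (((deriv_e4 z hz).pow 3).sub ((deriv_e6 z hz).pow 2)).div_const 1728
  have h' : HasDerivAt dl _ z := h
  refine h'.congr_deriv ?_
  unfold dl
  push_cast
  ring

theorem deriv_jj (z : ℂ) (hz : 0 < z.im) :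
    HasDerivAt jj (-(2 * Real.pi * I) * (e4 z ^ 2 * e6 z / dl z)) z := by
  have hd := dl_ne_zero z hz
  have h := ((deriv_e4 z hz).pow 3).div (deriv_dl z hz) hd
  have h' : HasDerivAt jj _ z := h
  refine h'.congr_deriv ?_
  simp only [Pi.pow_apply]
  push_cast
  field_simp
  ring

/-- A7b. `jj'' = -(2πi)² (e2 e4² e6/6 - (2/3) e4 e6² - e4⁴/2)/dl`. -/
theorem deriv_deriv_jj (z : ℂ) (hz : 0 < z.im) :
    deriv (deriv jj) z = -(2 * Real.pi * I) ^ 2 *
      ((e2 z * e4 z ^ 2 * e6 z / 6 - 2 / 3 * e4 z * e6 z ^ 2 - e4 z ^ 4 / 2) / dl z) := by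
  have hd := dl_ne_zero z hz
  have hev : deriv jj =ᶠ[𝓝 z] fun w => -(2 * Real.pi * I) * (e4 w ^ 2 * e6 w / dl w) := by
    have hopen : IsOpen {w : ℂ | 0 < w.im} := isOpen_lt continuous_const Complex.continuous_im
    filter_upwards [hopen.mem_nhds hz] with w hw
    exact (deriv_jj w hw).deriv
  rw [hev.deriv_eq]
  have h := (((((deriv_e4 z hz).pow 2).mul (deriv_e6 z hz)).div (deriv_dl z hz) hd)).const_mul
    (-(2 * Real.pi * I))
  have h' : HasDerivAt (fun w => -(2 * Real.pi * I) * (e4 w ^ 2 * e6 w / dl w)) _ z := h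
  rw [h'.deriv]
  simp only [Pi.pow_apply, Pi.mul_apply]
  push_cast
  field_simp
  ring

/-- A7c. invariance of `jj` (sanity check, not used). -/
theorem jj_transform (a b c d : ℤ) (h : a * d - b * c = 1) (z : ℂ) (hz : 0 < z.im) :
    jj ((a * z + b) / (c * z + d)) = jj z := by
  have hd := dl_ne_zero z hz
  have hcd : (c : ℂ) * z + d ≠ 0 := by
    intro h0
    have him : (c : ℝ) * z.im = 0 := by
      have := congrArg Complex.im h0
      simpa using this
    have hc : c = 0 := by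
      rcases mul_eq_zero.mp him with h1 | h1
      · exact_mod_cast h1
      · exact absurd h1 hz.ne'
    subst hc
    have hd0 : (d : ℂ) = 0 := by simpa using h0
    have hd1 : d = 0 := by exact_mod_cast hd0
    subst hd1
    simp at h
  unfold jj dl
  rw [e4_transform a b c d h z hz, e6_transform a b c d h z hz]
  have hd2 : e4 z ^ 3 - e6 z ^ 2 ≠ 0 := by
    intro h0
    apply hd
    unfold dl
    rw [h0]
    simp
  have e1 : ((c * z + d) ^ 4 * e4 z) ^ 3 - ((c * z + d) ^ 6 * e6 z) ^ 2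
      = (c * z + d) ^ 12 * (e4 z ^ 3 - e6 z ^ 2) := by ring
  rw [e1]
  field_simp

end Pool.Agent.MSD
end

end

section

/-! # G2: the invariants in terms of j, j-prime, j-double-prime (MP_f58a57_nt) -/

open Complex ModularForm EisensteinSeries Filter
open UpperHalfPlane hiding I
open scoped Topology MatrixGroups

noncomputable section

namespace Pool.Agent.MSD

/-- auxiliary: everything nonzero if `jj' z ≠ 0`. -/
theorem G2_ne (z : ℂ) (hz : 0 < z.im) (hj : deriv jj z ≠ 0) :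
    e4 z ≠ 0 ∧ e6 z ≠ 0 ∧ dl z ≠ 0 := by
  have h := (deriv_jj z hz).deriv
  rw [h] at hj
  refine ⟨?_, ?_, ?_⟩
  · intro h0
    apply hj
    rw [h0]
    simp
  · intro h0
    apply hj
    rw [h0]
    simp
  · intro h0
    apply hj
    rw [h0]
    simp

theorem G2_sub (z : ℂ) (h0 : dl z ≠ 0) : jj z - 1728 = e6 z ^ 2 / dl z := by
  unfold jj
  rw [eq_div_iff h0, sub_mul, div_mul_cancel₀ _ h0]
  unfold dl
  ring

/-- G2a. `jj z ≠ 0`, `jj z ≠ 1728` if `jj' z ≠ 0` (A7: `jj' = -2πi e4² e6/dl`, `jj = e4³/dl`, `jj - 1728 = e6²/dl`). -/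
theorem jj_ne (z : ℂ) (hz : 0 < z.im) (hj : deriv jj z ≠ 0) : jj z ≠ 0 ∧ jj z ≠ 1728 ∧ e4 z ≠ 0 ∧ e6 z ≠ 0 := by
  obtain ⟨h4, h6, hd⟩ := G2_ne z hz hj
  refine ⟨?_, ?_, h4, h6⟩
  · unfold jj
    exact div_ne_zero (pow_ne_zero 3 h4) hd
  · intro h
    have h1 := G2_sub z hd
    rw [h, sub_self] at h1
    exact (div_ne_zero (pow_ne_zero 2 h6) hd) h1.symm

/-- G2b. With `θ = π Ω²`, `y = Im z`: `e4/Ω⁴ = - j'²/(4 θ² j (j - 1728))`, `e6/Ω⁶ = (e4/Ω⁴) · (- j'/(2 i j θ))`,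
`e2s/Ω² = 6 [ (j''/j' - i/y)/(2 i θ) + (2/3) B/A + A²/(2B) ]`, `A = e4/Ω⁴`, `B = e6/Ω⁶`. -/
theorem link4 (z Ω : ℂ) (hz : 0 < z.im) (hΩ : Ω ≠ 0) (hj : deriv jj z ≠ 0) :
    e4 z / Ω ^ 4 = -(deriv jj z) ^ 2 / (4 * (Real.pi * Ω ^ 2) ^ 2 * jj z * (jj z - 1728)) := by
  obtain ⟨h4, h6, hd⟩ := G2_ne z hz hj
  have hpi : (Real.pi : ℂ) ≠ 0 := by exact_mod_cast Real.pi_ne_zero
  rw [G2_sub z hd, (deriv_jj z hz).deriv]
  unfold jj
  field_simp
  rw [I_sq]
  ring

theorem link6 (z Ω : ℂ) (hz : 0 < z.im) (hΩ : Ω ≠ 0) (hj : deriv jj z ≠ 0) :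
    e6 z / Ω ^ 6 = e4 z / Ω ^ 4 * (-(deriv jj z) / (2 * I * jj z * (Real.pi * Ω ^ 2))) := by
  obtain ⟨h4, h6, hd⟩ := G2_ne z hz hj
  have hpi : (Real.pi : ℂ) ≠ 0 := by exact_mod_cast Real.pi_ne_zero
  rw [(deriv_jj z hz).deriv]
  unfold jj
  field_simp

theorem link2 (z Ω : ℂ) (hz : 0 < z.im) (hΩ : Ω ≠ 0) (hj : deriv jj z ≠ 0) :
    e2s z / Ω ^ 2 = 6 * ((deriv (deriv jj) z / deriv jj z - I / z.im) / (2 * I * (Real.pi * Ω ^ 2))
      + 2 / 3 * ((e6 z / Ω ^ 6) / (e4 z / Ω ^ 4)) + (e4 z / Ω ^ 4) ^ 2 / (2 * (e6 z / Ω ^ 6))) := by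
  obtain ⟨h4, h6, hd⟩ := G2_ne z hz hj
  have hpi : (Real.pi : ℂ) ≠ 0 := by exact_mod_cast Real.pi_ne_zero
  have hy : (z.im : ℂ) ≠ 0 := by exact_mod_cast hz.ne'
  rw [deriv_deriv_jj z hz, (deriv_jj z hz).deriv]
  unfold e2s
  field_simp
  ring

/-- G2c. Consequence: the three numbers lie in a field `F` containing `I`, `jj z, jj' z, jj'' z, Im z` and `π Ω²`. -/
theorem link_mem (F : Subfield ℂ) (z Ω : ℂ) (hz : 0 < z.im) (hΩ : Ω ≠ 0) (hj : deriv jj z ≠ 0) (h0 : jj z ∈ F) (h1 : deriv jj z ∈ F)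
    (h2 : deriv (deriv jj) z ∈ F) (hI : I ∈ F) (hy : (z.im : ℂ) ∈ F) (hθ : Real.pi * Ω ^ 2 ∈ F) :
    e4 z / Ω ^ 4 ∈ F ∧ e6 z / Ω ^ 6 ∈ F ∧ e2s z / Ω ^ 2 ∈ F := by
  have n2 : (2 : ℂ) ∈ F := by simp
  have n3 : (3 : ℂ) ∈ F := by simp
  have n4 : (4 : ℂ) ∈ F := by simp
  have n6 : (6 : ℂ) ∈ F := by simp
  have n1728 : (1728 : ℂ) ∈ F := by simp
  have a4 : e4 z / Ω ^ 4 ∈ F := by
    rw [link4 z Ω hz hΩ hj]
    exact F.div_mem (F.neg_mem (F.pow_mem h1 2))
      (F.mul_mem (F.mul_mem (F.mul_mem n4 (F.pow_mem hθ 2)) h0) (F.sub_mem h0 n1728))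
  have a6 : e6 z / Ω ^ 6 ∈ F := by
    rw [link6 z Ω hz hΩ hj]
    exact F.mul_mem a4 (F.div_mem (F.neg_mem h1) (F.mul_mem (F.mul_mem (F.mul_mem n2 hI) h0) hθ))
  refine ⟨a4, a6, ?_⟩
  rw [link2 z Ω hz hΩ hj]
  refine F.mul_mem n6 (F.add_mem (F.add_mem ?_ ?_) ?_)
  · exact F.div_mem (F.sub_mem (F.div_mem h2 h1) (F.div_mem hI hy)) (F.mul_mem (F.mul_mem n2 hI) hθ)
  · exact F.mul_mem (F.div_mem n2 n3) (F.div_mem a6 a4)
  · exact F.div_mem (F.pow_mem a4 2) (F.mul_mem n2 a6)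

end Pool.Agent.MSD
end

end
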