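import Mathlib
import Pool.Agent.Lib.MP_f58a57_nt.FK.K001
import Pool.Agent.Lib.MP_f58a57_nt.FK.K007

namespace Pool.Agent.MSD
end Pool.Agent.MSD
namespace Pool.Agent.MSK
end Pool.Agent.MSK
namespace Pool.Agent.MSP
end Pool.Agent.MSP
namespace Pool.Agent.MSR
end Pool.Agent.MSR

section

/-! # The action of `SL₂(ℤ)` (MP_f58a57_nt, algebraic `j`) -/

open Complex IntermediateField

noncomputable section

namespace Pool.Agent.MSN

theorem gm_ne {c d : ℤ} {a b : ℤ} (h : a * d - b * c = 1) {z : ℂ} (hz : 0 < z.im) : (c : ℂ) * z + d ≠ 0 := by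
  intro h0
  have him := congrArg Complex.im h0
  have hre := congrArg Complex.re h0
  simp at him hre
  rcases him with hc | hc
  · subst hc
    simp at hre
    subst hre
    simp at h
  · exact hz.ne' hc

theorem gm_im {c d : ℤ} {a b : ℤ} (h : a * d - b * c = 1) (z : ℂ) :
    (((a : ℂ) * z + b) / ((c : ℂ) * z + d)).im = z.im / Complex.normSq ((c : ℂ) * z + d) := by
  have hR : (a : ℝ) * d - b * c = 1 := by exact_mod_cast h
  rw [Complex.div_im]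
  simp only [add_re, add_im, mul_re, mul_im, intCast_re, intCast_im, zero_mul, sub_zero, add_zero]
  rw [← sub_div]
  congr 1
  linear_combination z.im * hR

theorem gm_alg (K : IntermediateField ℚ ℂ) {x y : ℂ} (hx : IsAlgebraic K x) (hy : IsAlgebraic K y) :
    IsAlgebraic K (x / y) := by
  rw [div_eq_mul_inv]
  exact hx.mul hy.inv

theorem gm_algI (K : IntermediateField ℚ ℂ) : IsAlgebraic K (I : ℂ) := by
  refine ⟨Polynomial.X ^ 2 + 1, ?_, by simp⟩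
  intro h
  have h2 := congrArg (Polynomial.eval 0) h
  simp at h2

theorem gm_algZ (K : IntermediateField ℚ ℂ) (n : ℤ) : IsAlgebraic K (n : ℂ) := isAlgebraic_intCast n

/-- the data move with `SL₂(ℤ)` -/
theorem DD.sl2 {τ Ω ϑ : ℂ} (h : DD τ Ω ϑ) {a b c d : ℤ} (hd : a * d - b * c = 1) :
    DD (((a : ℂ) * τ + b) / ((c : ℂ) * τ + d)) (((c : ℂ) * τ + d) * Ω) ϑ := by
  have hne : (c : ℂ) * τ + d ≠ 0 := gm_ne hd h.im
  have hpi : (Real.pi : ℂ) ≠ 0 := by exact_mod_cast Real.pi_ne_zero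
  have hΩ := h.ne
  have hcd : IsAlgebraic ℚ⟮ϑ⟯ ((c : ℂ) * τ + d) := ((gm_algZ _ c).mul h.aτ).add (gm_algZ _ d)
  refine ⟨?_, mul_ne_zero hne h.ne, ?_, ?_, ?_, ?_, ?_⟩
  · rw [gm_im hd]
    exact div_pos h.im (Complex.normSq_pos.2 hne)
  · rw [MSD.e4_transform a b c d hd τ h.im]
    have : ((c : ℂ) * τ + d) ^ 4 * MSD.e4 τ / (((c : ℂ) * τ + d) * Ω) ^ 4 = MSD.e4 τ / Ω ^ 4 := by
      field_simp
    rw [this]
    exact h.a4
  · rw [MSD.e6_transform a b c d hd τ h.im]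
    have : ((c : ℂ) * τ + d) ^ 6 * MSD.e6 τ / (((c : ℂ) * τ + d) * Ω) ^ 6 = MSD.e6 τ / Ω ^ 6 := by
      field_simp
    rw [this]
    exact h.a6
  · exact gm_alg _ (((gm_algZ _ a).mul h.aτ).add (gm_algZ _ b)) hcd
  · rw [MSD.e2_transform a b c d hd τ h.im]
    have : (((c : ℂ) * τ + d) ^ 2 * MSD.e2 τ - 6 * I * c / Real.pi * (c * τ + d)) / (((c : ℂ) * τ + d) * Ω) ^ 2 =
        MSD.e2 τ / Ω ^ 2 - ((6 * c : ℤ) : ℂ) * I / (((c : ℂ) * τ + d) * (Real.pi * Ω ^ 2)) := by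
      push_cast
      field_simp
    rw [this]
    exact h.a2.sub (gm_alg _ ((gm_algZ _ _).mul (gm_algI _)) (hcd.mul h.aΩ))
  · have : (Real.pi : ℂ) * (((c : ℂ) * τ + d) * Ω) ^ 2 = ((c : ℂ) * τ + d) ^ 2 * (Real.pi * Ω ^ 2) := by ring
    rw [this]
    exact (hcd.pow 2).mul h.aΩ

theorem gm_special (z : ℂ) (x N : ℚ) (hx : z.re = x) (hN : z.re ^ 2 + z.im ^ 2 = N) : MSD.IsSpecial z := by
  refine ⟨x.den * N.den, -(2 * x.num * N.den), x.den * N.num, ?_, ?_⟩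
  · rintro ⟨h, -, -⟩
    have h1 : (x.den : ℤ) ≠ 0 := by exact_mod_cast x.den_nz
    have h2 : (N.den : ℤ) ≠ 0 := by exact_mod_cast N.den_nz
    exact mul_ne_zero h1 h2 h
  · have hx' : (x.den : ℂ) * x = x.num := by exact_mod_cast Rat.den_mul_eq_num x
    have hN' : (N.den : ℂ) * N = N.num := by exact_mod_cast Rat.den_mul_eq_num N
    have hz : z ^ 2 - 2 * x * z + N = 0 := by
      have h3 : (x : ℂ) = ((z.re : ℝ) : ℂ) := by rw [hx]; norm_cast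
      have h4 : (N : ℂ) = ((z.re ^ 2 + z.im ^ 2 : ℝ) : ℂ) := by rw [hN]; norm_cast
      rw [h3, h4]
      apply Complex.ext
      · simp [pow_two]
        ring
      · simp [pow_two]
        ring
    push_cast
    linear_combination (x.den : ℂ) * N.den * hz + (-2 * (N.den : ℂ) * z) * hx' * (-1) + (x.den : ℂ) * hN' * (-1)

theorem gm_rat_div {a b : ℝ} (hb : b ≠ 0) (ha : ∃ r : ℚ, (r : ℝ) = a) (hab : ∃ r : ℚ, (r : ℝ) = a * b) (ha0 : a ≠ 0) :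
    ∃ r : ℚ, (r : ℝ) = b := by
  obtain ⟨r, hr⟩ := ha
  obtain ⟨s, hs⟩ := hab
  refine ⟨s / r, ?_⟩
  push_cast
  rw [hr, hs]
  field_simp

/-- translates with an irrational ratio of the imaginary parts -/
theorem exists_irr (τ τ' : ℂ) (h : 0 < τ.im) (h' : 0 < τ'.im)
    (hn : ¬ (MSD.IsSpecial τ ∧ MSD.IsSpecial τ' ∧ MSD.GEquiv τ τ')) :
    ∃ a b c d a' b' c' d' : ℤ, a * d - b * c = 1 ∧ a' * d' - b' * c' = 1 ∧
      Irrational ((((a : ℂ) * τ + b) / ((c : ℂ) * τ + d)).im / (((a' : ℂ) * τ' + b') / ((c' : ℂ) * τ' + d')).im) := by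
  by_contra hcon
  push Not at hcon
  have key : ∀ a b c d a' b' c' d' : ℤ, a * d - b * c = 1 → a' * d' - b' * c' = 1 →
      ∃ r : ℚ, (r : ℝ) = (τ.im / Complex.normSq ((c : ℂ) * τ + d)) / (τ'.im / Complex.normSq ((c' : ℂ) * τ' + d')) := by
    intro a b c d a' b' c' d' hd hd'
    have h1 := hcon a b c d a' b' c' d' hd hd'
    rw [gm_im hd, gm_im hd'] at h1
    unfold Irrational at h1
    rw [not_not] at h1
    obtain ⟨r, hr⟩ := h1
    exact ⟨r, hr⟩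
  have hsq : ∀ (z : ℂ), Complex.normSq (((1 : ℤ) : ℂ) * z + ((0 : ℤ) : ℂ)) = z.re ^ 2 + z.im ^ 2 := by
    intro z
    simp [Complex.normSq_apply]
    ring
  have hsq1 : ∀ (z : ℂ), Complex.normSq (((1 : ℤ) : ℂ) * z + ((1 : ℤ) : ℂ)) = z.re ^ 2 + z.im ^ 2 + 2 * z.re + 1 := by
    intro z
    simp [Complex.normSq_apply]
    ring
  have hsq0 : ∀ (z : ℂ), Complex.normSq (((0 : ℤ) : ℂ) * z + ((1 : ℤ) : ℂ)) = 1 := by
    intro z
    simp
  have hp : 0 < τ.re ^ 2 + τ.im ^ 2 := by positivity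
  have hp' : 0 < τ'.re ^ 2 + τ'.im ^ 2 := by positivity
  have hq : 0 < τ.re ^ 2 + τ.im ^ 2 + 2 * τ.re + 1 := by nlinarith [sq_nonneg (τ.re + 1), h]
  have hq' : 0 < τ'.re ^ 2 + τ'.im ^ 2 + 2 * τ'.re + 1 := by nlinarith [sq_nonneg (τ'.re + 1), h']
  -- the ratio of the imaginary parts
  obtain ⟨r₀, hr₀⟩ := key 1 0 0 1 1 0 0 1 (by norm_num) (by norm_num)
  rw [hsq0, hsq0, div_one, div_one] at hr₀
  obtain ⟨r₁, hr₁⟩ := key 0 (-1) 1 0 1 0 0 1 (by norm_num) (by norm_num)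
  rw [hsq, hsq0, div_one] at hr₁
  obtain ⟨r₂, hr₂⟩ := key 0 (-1) 1 1 1 0 0 1 (by norm_num) (by norm_num)
  rw [hsq1, hsq0, div_one] at hr₂
  obtain ⟨s₁, hs₁⟩ := key 1 0 0 1 0 (-1) 1 0 (by norm_num) (by norm_num)
  rw [hsq0, hsq, div_one] at hs₁
  obtain ⟨s₂, hs₂⟩ := key 1 0 0 1 0 (-1) 1 1 (by norm_num) (by norm_num)
  rw [hsq0, hsq1, div_one] at hs₂
  have hr₀p : 0 < (r₀ : ℝ) := by rw [hr₀]; positivity
  have hN : τ.re ^ 2 + τ.im ^ 2 = ((r₀ / r₁ : ℚ) : ℝ) := by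
    push_cast
    rw [hr₀, hr₁]
    field_simp
  have hN1 : τ.re ^ 2 + τ.im ^ 2 + 2 * τ.re + 1 = ((r₀ / r₂ : ℚ) : ℝ) := by
    push_cast
    rw [hr₀, hr₂]
    field_simp
  have hN' : τ'.re ^ 2 + τ'.im ^ 2 = ((s₁ / r₀ : ℚ) : ℝ) := by
    push_cast
    rw [hr₀, hs₁]
    field_simp
  have hN1' : τ'.re ^ 2 + τ'.im ^ 2 + 2 * τ'.re + 1 = ((s₂ / r₀ : ℚ) : ℝ) := by
    push_cast
    rw [hr₀, hs₂]
    field_simp
  have hx : τ.re = ((((r₀ / r₂) - (r₀ / r₁) - 1) / 2 : ℚ) : ℝ) := by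
    push_cast at hN hN1 ⊢
    linarith
  have hx' : τ'.re = ((((s₂ / r₀) - (s₁ / r₀) - 1) / 2 : ℚ) : ℝ) := by
    push_cast at hN' hN1' ⊢
    linarith
  refine hn ⟨gm_special τ _ _ hx hN, gm_special τ' _ _ hx' hN', ?_⟩
  refine ⟨r₀⁻¹, (((s₂ / r₀) - (s₁ / r₀) - 1) / 2) - r₀⁻¹ * (((r₀ / r₂) - (r₀ / r₁) - 1) / 2), 0, 1, ?_, ?_, ?_⟩
  · have : (r₀ : ℂ) ≠ 0 := by exact_mod_cast (by exact_mod_cast hr₀p.ne' : r₀ ≠ 0)
    simp [this]
  · simp
  · have h5 : ((r₀⁻¹ : ℚ) : ℝ) = τ'.im / τ.im := by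
      push_cast
      rw [hr₀, inv_div]
    apply Complex.ext
    · have e1 : (((r₀⁻¹ : ℚ) : ℂ) * τ + (((((s₂ / r₀) - (s₁ / r₀) - 1) / 2) - r₀⁻¹ * (((r₀ / r₂) - (r₀ / r₁) - 1) / 2) : ℚ) : ℂ)) / (((0 : ℚ) : ℂ) * τ + ((1 : ℚ) : ℂ)) =
        ((r₀⁻¹ : ℚ) : ℂ) * τ + (((((s₂ / r₀) - (s₁ / r₀) - 1) / 2) - r₀⁻¹ * (((r₀ / r₂) - (r₀ / r₁) - 1) / 2) : ℚ) : ℂ) := by simp
      rw [e1]
      simp only [add_re, mul_re, ratCast_re, ratCast_im, zero_mul, sub_zero]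
      rw [Rat.cast_sub, ← hx', Rat.cast_mul, ← hx]
      ring
    · have e1 : (((r₀⁻¹ : ℚ) : ℂ) * τ + (((((s₂ / r₀) - (s₁ / r₀) - 1) / 2) - r₀⁻¹ * (((r₀ / r₂) - (r₀ / r₁) - 1) / 2) : ℚ) : ℂ)) / (((0 : ℚ) : ℂ) * τ + ((1 : ℚ) : ℂ)) =
        ((r₀⁻¹ : ℚ) : ℂ) * τ + (((((s₂ / r₀) - (s₁ / r₀) - 1) / 2) - r₀⁻¹ * (((r₀ / r₂) - (r₀ / r₁) - 1) / 2) : ℚ) : ℂ) := by simp
      rw [e1]
      simp only [add_im, mul_im, ratCast_re, ratCast_im, zero_mul, add_zero]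
      rw [h5]
      field_simp

end Pool.Agent.MSN
end

end

section

/-! # N2: the denominators (MP_f58a57_nt, algebraic invariants) -/

open Complex Filter Topology

noncomputable section

namespace Pool.Agent.MSN

open Pool.Agent.MSP

private theorem n2_aux (T : ℕ) : ∀ (m : ℕ) (K : Multiset ℕ), (∀ k ∈ K, 1 ≤ k) → K.sum ≤ T →
    Multiset.card K = m → K.prod ∣ ∏ j ∈ Finset.Icc 1 m, (Finset.Icc 1 (T / j)).lcm id := by
  intro m
  induction m with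
  | zero =>
    intro K _ _ hc
    have : K = 0 := Multiset.card_eq_zero.mp hc
    subst this
    simp
  | succ m ih =>
    intro K hK hs hc
    have hne : K.toFinset.Nonempty := by
      rw [Finset.nonempty_iff_ne_empty]
      intro h
      have : K = 0 := Multiset.toFinset_eq_empty.mp h
      subst this
      simp at hc
    obtain ⟨a, ha, hmin⟩ := Finset.exists_min_image K.toFinset id hne
    have haK : a ∈ K := Multiset.mem_toFinset.mp ha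
    have hmin' : ∀ x ∈ K, a ≤ x := fun x hx => hmin x (Multiset.mem_toFinset.mpr hx)
    have h1 : (m + 1) * a ≤ T := by
      have h := Multiset.card_nsmul_le_sum (s := K) (a := a) hmin'
      rw [hc, smul_eq_mul] at h
      exact h.trans hs
    have hcons : a ::ₘ K.erase a = K := Multiset.cons_erase haK
    have hsum : K.sum = a + (K.erase a).sum := by
      conv_lhs => rw [← hcons]
      rw [Multiset.sum_cons]
    have hprod : K.prod = a * (K.erase a).prod := by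
      conv_lhs => rw [← hcons]
      rw [Multiset.prod_cons]
    have hcard : Multiset.card (K.erase a) = m := by
      rw [Multiset.card_erase_of_mem haK, hc]
      rfl
    have h2 := ih (K.erase a) (fun k hk => hK k (Multiset.mem_of_mem_erase hk)) (by omega) hcard
    rw [hprod, Finset.prod_Icc_succ_top (by omega), mul_comm]
    refine mul_dvd_mul h2 ?_
    have h3 : a ∈ Finset.Icc 1 (T / (m + 1)) := by
      rw [Finset.mem_Icc]
      refine ⟨hK a haK, ?_⟩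
      rw [Nat.le_div_iff_mul_le (by omega)]
      rw [mul_comm]
      exact h1
    exact Finset.dvd_lcm (f := id) h3

/-- N2a. PROOF. Sort `K` decreasingly: `k_1 ≥ k_2 ≥ ...`; then `j k_j ≤ ∑ K ≤ T`, so `k_j ≤ T/j` divides `lcm(1, ..., T/j)`. -/
theorem prod_dvd (T l : ℕ) (K : Multiset ℕ) (hK : ∀ k ∈ K, 1 ≤ k) (hs : K.sum ≤ T) (hc : Multiset.card K ≤ l) :
    4 ^ T * K.prod ∣ den T l := by
  unfold den
  refine mul_dvd_mul (dvd_refl _) ?_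
  refine (n2_aux T _ K hK hs rfl).trans ?_
  refine Finset.prod_dvd_prod_of_subset _ _ _ ?_
  exact Finset.Icc_subset_Icc le_rfl hc

private theorem n2_log_lcm (n : ℕ) : Real.log (((Finset.Icc 1 n).lcm id : ℕ) : ℝ) ≤ (Real.log 4 + 4) * n := by
  have h := Chebyshev.psi_eq_log_lcmUpto n
  have h2 := Chebyshev.psi_le_const_mul_self (x := (n : ℝ)) (Nat.cast_nonneg n)
  rw [h] at h2
  exact h2

private theorem n2_lcm_pos (n : ℕ) : 0 < (Finset.Icc 1 n).lcm id := Nat.lcmUpto_pos n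

theorem den_pos (T l : ℕ) : 0 < den T l := by
  unfold den
  refine Nat.mul_pos (by positivity) ?_
  exact Finset.prod_pos fun j _ => n2_lcm_pos _

/-- N2b. PROOF. `lcm(1..n) ≤ 4^n` (or `≤ C^n` with some constant; Mathlib: Chebyshev functions `Chebyshev.psi`, or elementary), so
`den T l ≤ 4^T ∏_{j ≤ l} C^{T/j} ≤ exp(C' T (1 + log l))` (`∑_{j ≤ l} 1/j ≤ 1 + log l`). For `l = 0` `den = 4^T`. -/
theorem den_le : ∃ C : ℝ, 1 ≤ C ∧ ∀ T l : ℕ, (den T l : ℝ) ≤ Real.exp (C * T * (1 + Real.log (l + 1))) := by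
  have hlog4 : 0 ≤ Real.log 4 := Real.log_nonneg (by norm_num)
  refine ⟨2 * Real.log 4 + 4, by linarith, ?_⟩
  intro T l
  have hpos : (0 : ℝ) < (den T l : ℝ) := by exact_mod_cast den_pos T l
  rw [← Real.log_le_iff_le_exp hpos]
  have hT : (0 : ℝ) ≤ (T : ℝ) := Nat.cast_nonneg T
  have hl1 : 0 ≤ Real.log ((l : ℝ) + 1) := Real.log_nonneg (by linarith [(Nat.cast_nonneg l : (0 : ℝ) ≤ l)])
  have h1 : Real.log (den T l : ℝ) = T * Real.log 4 +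
      ∑ j ∈ Finset.Icc 1 l, Real.log (((Finset.Icc 1 (T / j)).lcm id : ℕ) : ℝ) := by
    unfold den
    rw [Nat.cast_mul, Real.log_mul, Nat.cast_pow, Real.log_pow, Nat.cast_prod, Real.log_prod]
    · norm_num
    · intro j _
      exact_mod_cast (n2_lcm_pos _).ne'
    · positivity
    · have : (0 : ℕ) < ∏ j ∈ Finset.Icc 1 l, (Finset.Icc 1 (T / j)).lcm id :=
        Finset.prod_pos fun j _ => n2_lcm_pos _
      exact_mod_cast this.ne'
  have h2 : ∑ j ∈ Finset.Icc 1 l, Real.log (((Finset.Icc 1 (T / j)).lcm id : ℕ) : ℝ) ≤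
      ∑ j ∈ Finset.Icc 1 l, (Real.log 4 + 4) * T * ((j : ℝ)⁻¹) := by
    refine Finset.sum_le_sum fun j hj => ?_
    rw [Finset.mem_Icc] at hj
    refine (n2_log_lcm _).trans ?_
    have h3 : ((T / j : ℕ) : ℝ) ≤ (T : ℝ) / j := Nat.cast_div_le
    have h4 : (Real.log 4 + 4) * ((T / j : ℕ) : ℝ) ≤ (Real.log 4 + 4) * ((T : ℝ) / j) :=
      mul_le_mul_of_nonneg_left h3 (by linarith)
    refine h4.trans (le_of_eq ?_)
    rw [div_eq_mul_inv]
    ring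
  rw [← Finset.mul_sum] at h2
  have h5 : ∑ j ∈ Finset.Icc 1 l, ((j : ℝ)⁻¹) ≤ 1 + Real.log ((l : ℝ) + 1) := by
    have h6 := harmonic_le_one_add_log l
    rw [harmonic_eq_sum_Icc] at h6
    push_cast at h6
    refine h6.trans ?_
    rcases Nat.eq_zero_or_pos l with h0 | h0
    · subst h0
      simp
    · have : Real.log (l : ℝ) ≤ Real.log ((l : ℝ) + 1) :=
        Real.log_le_log (by exact_mod_cast h0) (by linarith)
      linarith
  have h7 : (Real.log 4 + 4) * T * ∑ j ∈ Finset.Icc 1 l, ((j : ℝ)⁻¹) ≤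
      (Real.log 4 + 4) * T * (1 + Real.log ((l : ℝ) + 1)) :=
    mul_le_mul_of_nonneg_left h5 (mul_nonneg (by linarith) hT)
  have h8 : (T : ℝ) * Real.log 4 ≤ Real.log 4 * T * (1 + Real.log ((l : ℝ) + 1)) := by
    have : Real.log 4 * T * 1 ≤ Real.log 4 * T * (1 + Real.log ((l : ℝ) + 1)) :=
      mul_le_mul_of_nonneg_left (by linarith) (mul_nonneg hlog4 hT)
    linarith
  rw [h1]
  calc _ ≤ Real.log 4 * T * (1 + Real.log ((l : ℝ) + 1)) +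
        (Real.log 4 + 4) * T * (1 + Real.log ((l : ℝ) + 1)) := add_le_add h8 (h2.trans h7)
    _ = _ := by ring

/-- monotonicity -/
theorem den_dvd (T T' l : ℕ) (h : T ≤ T') : den T l ∣ den T' l := by
  unfold den
  refine mul_dvd_mul (pow_dvd_pow 4 h) ?_
  refine Finset.prod_dvd_prod_of_dvd _ _ fun j _ => ?_
  refine Finset.lcm_mono (f := id) ?_
  exact Finset.Icc_subset_Icc le_rfl (Nat.div_le_div_right h)

end Pool.Agent.MSN
end

end

section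

/-! # From `z, j(z), j'(z), j''(z)` to the data of the curve (MP_f58a57_nt, algebraic `j`) -/

open Complex IntermediateField

noncomputable section

namespace Pool.Agent.MSN

open MSD

theorem link2' (z Ω : ℂ) (hz : 0 < z.im) (hΩ : Ω ≠ 0) (hj : deriv jj z ≠ 0) :
    e2 z / Ω ^ 2 = 6 * (deriv (deriv jj) z / deriv jj z / (2 * I * (Real.pi * Ω ^ 2))
      + 2 / 3 * ((e6 z / Ω ^ 6) / (e4 z / Ω ^ 4)) + (e4 z / Ω ^ 4) ^ 2 / (2 * (e6 z / Ω ^ 6))) := by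
  obtain ⟨h4, h6, hd⟩ := G2_ne z hz hj
  have hpi : (Real.pi : ℂ) ≠ 0 := by exact_mod_cast Real.pi_ne_zero
  rw [deriv_deriv_jj z hz, (deriv_jj z hz).deriv]
  field_simp
  ring

/-- the data -/
theorem exists_DD (z ϑ : ℂ) (hz : 0 < z.im) (hj : deriv jj z ≠ 0) (h0 : IsAlgebraic ℚ (jj z)) (hz' : IsAlgebraic ℚ⟮ϑ⟯ z)
    (h1 : IsAlgebraic ℚ⟮ϑ⟯ (deriv jj z)) (h2 : IsAlgebraic ℚ⟮ϑ⟯ (deriv (deriv jj) z)) : ∃ Ω : ℂ, DD z Ω ϑ := by
  obtain ⟨h4, h6, hd⟩ := G2_ne z hz hj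
  obtain ⟨hj0, -, -, -⟩ := jj_ne z hz hj
  have hpi : (Real.pi : ℂ) ≠ 0 := by exact_mod_cast Real.pi_ne_zero
  obtain ⟨Ω, hΩ⟩ := IsAlgClosed.exists_pow_nat_eq (e4 z) (show 0 < 4 by norm_num)
  have hΩ0 : Ω ≠ 0 := by
    rintro rfl
    apply h4
    rw [← hΩ]
    norm_num
  have ha4 : e4 z / Ω ^ 4 = 1 := by
    rw [hΩ]
    exact div_self h4
  set B := e6 z / Ω ^ 6 with hB
  have hB0 : B ≠ 0 := div_ne_zero h6 (pow_ne_zero _ hΩ0)
  have hB2 : B ^ 2 = 1 - 1728 / jj z := by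
    have e1 : B ^ 2 = e6 z ^ 2 / e4 z ^ 3 := by
      rw [hB, div_pow, ← hΩ]
      ring
    rw [e1]
    unfold jj
    have hd2 : dl z = (e4 z ^ 3 - e6 z ^ 2) / 1728 := rfl
    field_simp
    rw [hd2]
    ring
  have hBQ : IsAlgebraic ℚ B := by
    apply IsAlgebraic.of_pow (n := 2) (by norm_num)
    rw [hB2, div_eq_mul_inv]
    exact isAlgebraic_one.sub ((by exact_mod_cast isAlgebraic_natCast (R := ℚ) (A := ℂ) 1728 : IsAlgebraic ℚ (1728 : ℂ)).mul h0.inv)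
  have hl6 := link6 z Ω hz hΩ0 hj
  rw [ha4, one_mul, ← hB] at hl6
  have hθ0 : (Real.pi : ℂ) * Ω ^ 2 ≠ 0 := mul_ne_zero hpi (pow_ne_zero _ hΩ0)
  have hθ : (Real.pi : ℂ) * Ω ^ 2 = -(deriv jj z) / (2 * I * jj z * B) := by
    have hI : I ≠ 0 := I_ne_zero
    rw [hl6]
    field_simp
  have tI := gm_algI ℚ⟮ϑ⟯
  have tZ := gm_algZ ℚ⟮ϑ⟯
  have t2 : IsAlgebraic ℚ⟮ϑ⟯ (2 : ℂ) := by simpa using tZ 2
  have t3 : IsAlgebraic ℚ⟮ϑ⟯ (3 : ℂ) := by simpa using tZ 3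
  have t6 : IsAlgebraic ℚ⟮ϑ⟯ (6 : ℂ) := by simpa using tZ 6
  have t1 : IsAlgebraic ℚ⟮ϑ⟯ (1 : ℂ) := isAlgebraic_one
  have tB : IsAlgebraic ℚ⟮ϑ⟯ B := hBQ.tower_top _
  have tθ : IsAlgebraic ℚ⟮ϑ⟯ (Real.pi * Ω ^ 2 : ℂ) := by
    rw [hθ]
    exact gm_alg _ h1.neg (((t2.mul tI).mul (h0.tower_top _)).mul tB)
  refine ⟨Ω, hz, hΩ0, ?_, hBQ, hz', ?_, tθ⟩
  · rw [ha4]
    exact isAlgebraic_one
  · rw [link2' z Ω hz hΩ0 hj, ha4, ← hB]
    refine t6.mul (((gm_alg _ (gm_alg _ h2 h1) ((t2.mul tI).mul tθ)).add ((gm_alg _ t2 t3).mul (gm_alg _ tB t1))).add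
      (gm_alg _ (t1.pow 2) (t2.mul tB)))

end Pool.Agent.MSN
end

end

section

/-! # U/D1_Geo: every vector is the sum of a point of `V` and a real vector -/

open Complex

noncomputable section

namespace Pool.Agent.MSU

open MSD MSP MSK MSR

variable {d : ℕ}

/-- D1. PROOF. Let `w = ∑_l z^l h_l`, `r₁ = Im w / Im z`, `r₀ = Re w - r₁ Re z`, so `w = r₀ + r₁ z`; `r_l = 0` for `l ≥ 2`, `p_j = h_{j+1} - r_{j+1}` (i.e. `p_0 = h_1 - r₁`, `p_j = h_{j+1}` otherwise). Then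
`tt z p 0 = -∑_j z^(j+1) p_j = -(w - h_0 - z r₁) = h_0 - r₀`. Norm: `‖w‖ ≤ ∑ ‖z‖^l H`, `|r₁| ≤ ‖w‖ / Im z`, `‖p‖ ≤ H + |r₁|`, so `C = 1 + (∑_l ‖z‖^l)/Im z` works. -/
theorem exists_p (P : Par d) (hd : 1 ≤ d) : ∃ C : ℝ, 1 ≤ C ∧ ∀ (h : Fin (d + 1) → ℂ) (H : ℝ), (∀ l, ‖h l‖ ≤ H) →
    ∃ p : Fin d → ℂ, (∀ l, ∃ r : ℝ, h l = tt P.z p l + r) ∧ ‖p‖ ≤ C * H := by
  obtain ⟨e, rfl⟩ : ∃ e, d = e + 1 := ⟨d - 1, by omega⟩
  have hy : 0 < P.z.im := P.im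
  refine ⟨1 + (∑ l : Fin (e + 1 + 1), ‖P.z‖ ^ (l : ℕ)) / P.z.im, ?_, ?_⟩
  · have : 0 ≤ (∑ l : Fin (e + 1 + 1), ‖P.z‖ ^ (l : ℕ)) / P.z.im := by positivity
    linarith
  intro h H hH
  have hH0 : 0 ≤ H := (norm_nonneg _).trans (hH 0)
  set w : ℂ := ∑ l : Fin (e + 1 + 1), P.z ^ (l : ℕ) * h l with hw
  set r1 : ℝ := w.im / P.z.im with hr1
  set r0 : ℝ := w.re - r1 * P.z.re with hr0
  have hw2 : w = (r0 : ℂ) + (r1 : ℂ) * P.z := by
    apply Complex.ext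
    · simp [hr0]
    · simp only [hr1, Complex.add_im, Complex.ofReal_im, Complex.mul_im, Complex.ofReal_re, zero_mul, add_zero,
        zero_add]
      field_simp
  have hwn : ‖w‖ ≤ (∑ l : Fin (e + 1 + 1), ‖P.z‖ ^ (l : ℕ)) * H := by
    rw [hw, Finset.sum_mul]
    refine (norm_sum_le _ _).trans (Finset.sum_le_sum fun l _ => ?_)
    rw [norm_mul, norm_pow]
    exact mul_le_mul_of_nonneg_left (hH l) (by positivity)
  have hr1n : |r1| ≤ (∑ l : Fin (e + 1 + 1), ‖P.z‖ ^ (l : ℕ)) / P.z.im * H := by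
    rw [hr1, abs_div, abs_of_pos hy, div_mul_eq_mul_div]
    exact div_le_div_of_nonneg_right ((Complex.abs_im_le_norm w).trans hwn) hy.le
  refine ⟨fun j => h j.succ - (if j = 0 then (r1 : ℂ) else 0), ?_, ?_⟩
  · intro l
    refine Fin.cases ?_ ?_ l
    · refine ⟨r0, ?_⟩
      simp only [tt, Fin.cons_zero]
      have h1 : w = h 0 + ∑ j : Fin (e + 1), P.z ^ (j.val + 1) * h j.succ := by
        rw [hw, Fin.sum_univ_succ]
        simp
      have h2 : ∑ j : Fin (e + 1), P.z ^ (j.val + 1) * (h j.succ - (if j = 0 then (r1 : ℂ) else 0))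
          = (∑ j : Fin (e + 1), P.z ^ (j.val + 1) * h j.succ) - P.z * r1 := by
        simp only [mul_sub, Finset.sum_sub_distrib]
        congr 1
        simp
      rw [h2]
      have h3 : ∑ j : Fin (e + 1), P.z ^ (j.val + 1) * h j.succ = w - h 0 := by rw [h1]; ring
      rw [h3, hw2]
      ring
    · intro j
      refine ⟨if j = 0 then r1 else 0, ?_⟩
      simp only [tt, Fin.cons_succ]
      split_ifs <;> simp
  · have hC : 0 ≤ (1 + (∑ l : Fin (e + 1 + 1), ‖P.z‖ ^ (l : ℕ)) / P.z.im) * H := by positivity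
    rw [pi_norm_le_iff_of_nonneg hC]
    intro j
    refine (norm_sub_le _ _).trans ?_
    rw [add_mul, one_mul]
    refine add_le_add (hH _) ?_
    split_ifs with hj
    · rw [Complex.norm_real, Real.norm_eq_abs]
      exact hr1n
    · rw [norm_zero]; positivity

end Pool.Agent.MSU
end

end
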