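import Mathlib
import Pool.Agent.Lib.MP_f58a57_nt.FK.K001

namespace Pool.Agent.MSD
end Pool.Agent.MSD
namespace Pool.Agent.MSP
end Pool.Agent.MSP

section

/-! # T6: behaviour of `wp` at the origin (MP_f58a57_nt, pairs) -/

open Complex Filter Topology

noncomputable section

namespace Pool.Agent.MSP

theorem t6_norm_ee (x : ℂ) : ‖ee x‖ = Real.exp (-(2 * Real.pi * x.im)) := by
  unfold ee
  rw [Complex.norm_exp]
  congr 1
  simp

/-- the bound for the terms -/
def t6_r (τ : ℂ) (n : ℕ) : ℝ := Real.exp (-(Real.pi * τ.im)) ^ (2 * n + 1)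

theorem t6_r_pos (τ : ℂ) (n : ℕ) : 0 < t6_r τ n := by
  unfold t6_r
  positivity

theorem t6_rho_lt (τ : ℂ) (hτ : 0 < τ.im) : Real.exp (-(Real.pi * τ.im)) < 1 := by
  rw [Real.exp_lt_one_iff]
  have := mul_pos Real.pi_pos hτ
  linarith

theorem t6_r_le (τ : ℂ) (hτ : 0 < τ.im) (n : ℕ) : t6_r τ n ≤ Real.exp (-(Real.pi * τ.im)) := by
  unfold t6_r
  calc Real.exp (-(Real.pi * τ.im)) ^ (2 * n + 1) ≤ Real.exp (-(Real.pi * τ.im)) ^ 1 :=
        pow_le_pow_of_le_one (Real.exp_pos _).le (t6_rho_lt τ hτ).le (by omega)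
    _ = _ := pow_one _

theorem t6_r_summable (τ : ℂ) (hτ : 0 < τ.im) : Summable (t6_r τ) := by
  have h1 := t6_rho_lt τ hτ
  have h0 := (Real.exp_pos (-(Real.pi * τ.im))).le
  have h2 : Summable (fun n : ℕ => Real.exp (-(Real.pi * τ.im)) *
      (Real.exp (-(Real.pi * τ.im)) ^ 2) ^ n) := by
    refine (summable_geometric_of_lt_one (by positivity) ?_).mul_left _
    exact pow_lt_one₀ h0 h1 (by norm_num)
  refine h2.congr fun n => ?_
  unfold t6_r
  rw [← pow_mul, pow_succ, mul_comm]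

theorem t6_bound_add (τ : ℂ) {t : ℂ} (ht : ‖t‖ < τ.im / 2) (n : ℕ) :
    ‖ee ((n + 1) * τ + t)‖ ≤ t6_r τ n := by
  rw [t6_norm_ee]
  unfold t6_r
  rw [← Real.exp_nat_mul, Real.exp_le_exp]
  have h1 := Complex.abs_im_le_norm t
  have h2 := abs_le.1 h1
  have h3 : (((n : ℂ) + 1) * τ + t).im = ((n : ℝ) + 1) * τ.im + t.im := by
    simp
  rw [h3]
  have h4 : ((n : ℝ) + 1 / 2) * τ.im ≤ ((n : ℝ) + 1) * τ.im + t.im := by nlinarith
  have h5 := mul_le_mul_of_nonneg_left h4 (mul_pos two_pos Real.pi_pos).le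
  push_cast
  nlinarith

theorem t6_bound_sub (τ : ℂ) {t : ℂ} (ht : ‖t‖ < τ.im / 2) (n : ℕ) :
    ‖ee ((n + 1) * τ - t)‖ ≤ t6_r τ n := by
  have := t6_bound_add τ (t := -t) (by rwa [norm_neg]) n
  rwa [← sub_eq_add_neg] at this

theorem t6_one_sub_ne {τ : ℂ} (hτ : 0 < τ.im) {n : ℕ} {x : ℂ} (hx : ‖x‖ ≤ t6_r τ n) :
    1 - x ≠ 0 := by
  intro h
  have h1 : x = 1 := (sub_eq_zero.1 h).symm
  rw [h1, norm_one] at hx
  exact absurd (hx.trans (t6_r_le τ hτ n)) (not_le.2 (t6_rho_lt τ hτ))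

theorem t6_one_sub_norm {τ : ℂ} (hτ : 0 < τ.im) {n : ℕ} {x : ℂ} (hx : ‖x‖ ≤ t6_r τ n) :
    1 - Real.exp (-(Real.pi * τ.im)) ≤ ‖1 - x‖ := by
  have h1 : ‖(1 : ℂ)‖ - ‖x‖ ≤ ‖1 - x‖ := norm_sub_norm_le _ _
  rw [norm_one] at h1
  have h2 := hx.trans (t6_r_le τ hτ n)
  linarith

theorem t6_hasDerivAt_add (τ t : ℂ) (n : ℕ) :
    HasDerivAt (fun t : ℂ => ee ((n + 1) * τ + t))
      (2 * Real.pi * I * ee ((n + 1) * τ + t)) t := by
  unfold ee
  have h1 : HasDerivAt (fun t : ℂ => 2 * Real.pi * I * (((n : ℂ) + 1) * τ + t))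
      (2 * Real.pi * I * 1) t := ((hasDerivAt_id t).const_add _).const_mul _
  have h2 := h1.cexp
  refine h2.congr_deriv ?_
  ring

theorem t6_hasDerivAt_sub (τ t : ℂ) (n : ℕ) :
    HasDerivAt (fun t : ℂ => ee ((n + 1) * τ - t))
      (-(2 * Real.pi * I * ee ((n + 1) * τ - t))) t := by
  unfold ee
  have h1 : HasDerivAt (fun t : ℂ => 2 * Real.pi * I * (((n : ℂ) + 1) * τ - t))
      (2 * Real.pi * I * (-1)) t := ((hasDerivAt_id t).const_sub _).const_mul _
  have h2 := h1.cexp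
  refine h2.congr_deriv ?_
  ring

/-- the factors -/
def t6_f (τ : ℂ) (n : ℕ) (t : ℂ) : ℂ := (1 - ee ((n + 1) * τ + t)) * (1 - ee ((n + 1) * τ - t))

/-- the logarithmic derivatives of the factors -/
def t6_L (τ : ℂ) (n : ℕ) (t : ℂ) : ℂ :=
  -(2 * Real.pi * I * (ee ((n + 1) * τ + t) / (1 - ee ((n + 1) * τ + t)))) +
    2 * Real.pi * I * (ee ((n + 1) * τ - t) / (1 - ee ((n + 1) * τ - t)))

/-- their derivatives -/
def t6_L' (τ : ℂ) (n : ℕ) (t : ℂ) : ℂ :=
  4 * Real.pi ^ 2 * (ee ((n + 1) * τ + t) / (1 - ee ((n + 1) * τ + t)) ^ 2) +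
    4 * Real.pi ^ 2 * (ee ((n + 1) * τ - t) / (1 - ee ((n + 1) * τ - t)) ^ 2)

theorem t6_f_differentiable (τ : ℂ) (n : ℕ) : Differentiable ℂ (t6_f τ n) := by
  intro t
  exact (((t6_hasDerivAt_add τ t n).const_sub 1).mul
    ((t6_hasDerivAt_sub τ t n).const_sub 1)).differentiableAt

theorem t6_logDeriv_f {τ : ℂ} (hτ : 0 < τ.im) {t : ℂ} (ht : ‖t‖ < τ.im / 2) (n : ℕ) :
    logDeriv (t6_f τ n) t = t6_L τ n t := by
  have hA := t6_one_sub_ne hτ (t6_bound_add τ ht n)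
  have hB := t6_one_sub_ne hτ (t6_bound_sub τ ht n)
  have h := ((t6_hasDerivAt_add τ t n).const_sub 1).mul ((t6_hasDerivAt_sub τ t n).const_sub 1)
  rw [logDeriv_apply]
  have h1 : deriv (t6_f τ n) t = -(2 * Real.pi * I * ee ((n + 1) * τ + t)) *
      (1 - ee ((n + 1) * τ - t)) + (1 - ee ((n + 1) * τ + t)) *
        -(-(2 * Real.pi * I * ee ((n + 1) * τ - t))) := h.deriv
  rw [h1]
  unfold t6_f t6_L
  field_simp

theorem t6_hasDerivAt_L {τ : ℂ} (hτ : 0 < τ.im) {t : ℂ} (ht : ‖t‖ < τ.im / 2) (n : ℕ) :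
    HasDerivAt (t6_L τ n) (t6_L' τ n t) t := by
  have hA := t6_one_sub_ne hτ (t6_bound_add τ ht n)
  have hB := t6_one_sub_ne hτ (t6_bound_sub τ ht n)
  have hI : (I : ℂ) ^ 2 = -1 := I_sq
  have h1 := ((t6_hasDerivAt_add τ t n).div ((t6_hasDerivAt_add τ t n).const_sub 1) hA).const_mul
    (2 * Real.pi * I)
  have h2 := ((t6_hasDerivAt_sub τ t n).div ((t6_hasDerivAt_sub τ t n).const_sub 1) hB).const_mul
    (2 * Real.pi * I)
  refine (h1.neg.add h2).congr_deriv ?_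
  unfold t6_L'
  field_simp
  ring_nf
  simp only [hI]
  ring

theorem t6_L_bound {τ : ℂ} (hτ : 0 < τ.im) {t : ℂ} (ht : ‖t‖ < τ.im / 2) (n : ℕ) :
    ‖t6_L τ n t‖ ≤ 4 * Real.pi / (1 - Real.exp (-(Real.pi * τ.im))) * t6_r τ n := by
  have h1 := t6_rho_lt τ hτ
  have key : ∀ x : ℂ, ‖x‖ ≤ t6_r τ n → ‖2 * Real.pi * I * (x / (1 - x))‖ ≤
      2 * Real.pi / (1 - Real.exp (-(Real.pi * τ.im))) * t6_r τ n := by
    intro x hx
    have h2 := t6_one_sub_norm hτ hx
    have h3 : 0 < 1 - Real.exp (-(Real.pi * τ.im)) := by linarith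
    have h4 : ‖(2 * Real.pi * I * (x / (1 - x)) : ℂ)‖ = 2 * Real.pi * (‖x‖ / ‖1 - x‖) := by
      rw [norm_mul, norm_mul, norm_mul, norm_div, Complex.norm_I, Complex.norm_real,
        Complex.norm_ofNat, Real.norm_of_nonneg Real.pi_pos.le]
      ring
    rw [h4]
    calc 2 * Real.pi * (‖x‖ / ‖1 - x‖) ≤
          2 * Real.pi * (t6_r τ n / (1 - Real.exp (-(Real.pi * τ.im)))) := by
          refine mul_le_mul_of_nonneg_left ?_ (by positivity)
          exact div_le_div₀ (t6_r_pos τ n).le hx h3 h2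
      _ = _ := by ring
  unfold t6_L
  refine (norm_add_le _ _).trans ?_
  rw [norm_neg]
  have e1 := key _ (t6_bound_add τ ht n)
  have e2 := key _ (t6_bound_sub τ ht n)
  refine (add_le_add e1 e2).trans (le_of_eq ?_)
  ring

theorem t6_L'_bound {τ : ℂ} (hτ : 0 < τ.im) {t : ℂ} (ht : ‖t‖ < τ.im / 2) (n : ℕ) :
    ‖t6_L' τ n t‖ ≤ 8 * Real.pi ^ 2 / (1 - Real.exp (-(Real.pi * τ.im))) ^ 2 * t6_r τ n := by
  have h1 := t6_rho_lt τ hτ
  have key : ∀ x : ℂ, ‖x‖ ≤ t6_r τ n → ‖4 * (Real.pi : ℂ) ^ 2 * (x / (1 - x) ^ 2)‖ ≤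
      4 * Real.pi ^ 2 / (1 - Real.exp (-(Real.pi * τ.im))) ^ 2 * t6_r τ n := by
    intro x hx
    have h2 := t6_one_sub_norm hτ hx
    have h3 : 0 < 1 - Real.exp (-(Real.pi * τ.im)) := by linarith
    have h4 : ‖(4 * (Real.pi : ℂ) ^ 2 * (x / (1 - x) ^ 2) : ℂ)‖ =
        4 * Real.pi ^ 2 * (‖x‖ / ‖1 - x‖ ^ 2) := by
      rw [norm_mul, norm_mul, norm_div, norm_pow, norm_pow, Complex.norm_real,
        Complex.norm_ofNat, Real.norm_of_nonneg Real.pi_pos.le]
    rw [h4]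
    calc 4 * Real.pi ^ 2 * (‖x‖ / ‖1 - x‖ ^ 2) ≤
          4 * Real.pi ^ 2 * (t6_r τ n / (1 - Real.exp (-(Real.pi * τ.im))) ^ 2) := by
          refine mul_le_mul_of_nonneg_left ?_ (by positivity)
          exact div_le_div₀ (t6_r_pos τ n).le hx (by positivity)
            (pow_le_pow_left₀ h3.le h2 2)
      _ = _ := by ring
  unfold t6_L'
  refine (norm_add_le _ _).trans ?_
  have e1 := key _ (t6_bound_add τ ht n)
  have e2 := key _ (t6_bound_sub τ ht n)
  refine (add_le_add e1 e2).trans (le_of_eq ?_)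
  ring

theorem t6_multipliable (τ : ℂ) (hτ : 0 < τ.im) :
    MultipliableLocallyUniformlyOn (t6_f τ) (Metric.ball (0 : ℂ) (τ.im / 2)) := by
  have h : MultipliableLocallyUniformlyOn (fun n t => 1 + (t6_f τ n t - 1))
      (Metric.ball (0 : ℂ) (τ.im / 2)) := by
    refine Summable.multipliableLocallyUniformlyOn_nat_one_add Metric.isOpen_ball
      ((t6_r_summable τ hτ).mul_left 3) (Eventually.of_forall fun n t ht => ?_) (fun n => ?_)
    · rw [mem_ball_zero_iff] at ht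
      have hA := t6_bound_add τ ht n
      have hB := t6_bound_sub τ ht n
      have hr1 : t6_r τ n ≤ 1 := (t6_r_le τ hτ n).trans (t6_rho_lt τ hτ).le
      have e : t6_f τ n t - 1 = -ee ((n + 1) * τ + t) + (-ee ((n + 1) * τ - t)) +
          ee ((n + 1) * τ + t) * ee ((n + 1) * τ - t) := by
        unfold t6_f
        ring
      rw [e]
      refine (norm_add₃_le).trans ?_
      rw [norm_neg, norm_neg, norm_mul]
      have h3 : ‖ee ((n + 1) * τ + t)‖ * ‖ee ((n + 1) * τ - t)‖ ≤ 1 * t6_r τ n :=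
        mul_le_mul (hA.trans hr1) hB (norm_nonneg _) zero_le_one
      linarith
    · exact ((t6_f_differentiable τ n).continuous.sub continuous_const).continuousOn
  have e : (fun n t => 1 + (t6_f τ n t - 1)) = t6_f τ := by
    funext n t
    ring
  rwa [e] at h

theorem t6_logDeriv_thp {τ : ℂ} (hτ : 0 < τ.im) {t : ℂ} (ht : ‖t‖ < τ.im / 2) :
    logDeriv (thp τ) t = ∑' n, t6_L τ n t := by
  have h := logDeriv_tprod_eq_tsum (f := t6_f τ) (s := Metric.ball (0 : ℂ) (τ.im / 2))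
    Metric.isOpen_ball (x := t) (mem_ball_zero_iff.2 ht)
    (fun n => mul_ne_zero (t6_one_sub_ne hτ (t6_bound_add τ ht n))
      (t6_one_sub_ne hτ (t6_bound_sub τ ht n)))
    (fun n => (t6_f_differentiable τ n).differentiableOn) ?_ (t6_multipliable τ hτ) ?_
  · rw [tsum_congr (fun n => t6_logDeriv_f hτ ht n)] at h
    exact h
  · refine Summable.congr ?_ (fun n => (t6_logDeriv_f hτ ht n).symm)
    exact Summable.of_norm_bounded ((t6_r_summable τ hτ).mul_left _) (t6_L_bound hτ ht)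
  · refine thp_ne_zero τ hτ t fun n => ⟨?_, ?_⟩
    · exact fun h0 => t6_one_sub_ne hτ (t6_bound_add τ ht n) (by rw [h0, sub_self])
    · exact fun h0 => t6_one_sub_ne hτ (t6_bound_sub τ ht n) (by rw [h0, sub_self])

/-- T6a. `(log thp)''(0)`. PROOF. `thp τ` is a locally uniformly convergent product, `logDeriv (thp τ) t = ∑_n [-2πi a_n z/(1 - a_n z) +
2πi a_n z⁻¹/(1 - a_n z⁻¹)]`, `a_n = ee((n+1)τ)`, `z = ee t` (Mathlib: `logDeriv_tprod_eq_tsum`), near `t = 0` (where `thp ≠ 0`). The sum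
converges locally uniformly; differentiate termwise at `t = 0` (`hasDerivAt_tsum...` or
`TendstoLocallyUniformlyOn.deriv`): each term contributes `2 · 4π² a_n/(1 - a_n)²`. -/
theorem deriv_logDeriv_thp (τ : ℂ) (hτ : 0 < τ.im) :
    deriv (logDeriv (thp τ)) 0 = 8 * Real.pi ^ 2 * ∑' n : ℕ, ee ((n + 1) * τ) / (1 - ee ((n + 1) * τ)) ^ 2 := by
  have h0 : ‖(0 : ℂ)‖ < τ.im / 2 := by
    rw [norm_zero]
    linarith
  have hev : logDeriv (thp τ) =ᶠ[𝓝 0] fun t => ∑' n, t6_L τ n t := by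
    filter_upwards [Metric.ball_mem_nhds (0 : ℂ) (show 0 < τ.im / 2 by linarith)] with t ht
    exact t6_logDeriv_thp hτ (mem_ball_zero_iff.1 ht)
  rw [hev.deriv_eq]
  have hd := hasDerivAt_tsum_of_isPreconnected (g := t6_L τ) (g' := t6_L' τ)
    ((t6_r_summable τ hτ).mul_left (8 * Real.pi ^ 2 / (1 - Real.exp (-(Real.pi * τ.im))) ^ 2))
    (t := Metric.ball (0 : ℂ) (τ.im / 2)) Metric.isOpen_ball
    (convex_ball _ _).isPreconnected
    (fun n y hy => t6_hasDerivAt_L hτ (mem_ball_zero_iff.1 hy) n)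
    (fun n y hy => t6_L'_bound hτ (mem_ball_zero_iff.1 hy) n)
    (y₀ := 0) (mem_ball_zero_iff.2 h0)
    (Summable.of_norm_bounded ((t6_r_summable τ hτ).mul_left _) (t6_L_bound hτ h0))
    (y := 0) (mem_ball_zero_iff.2 h0)
  rw [hd.deriv, ← tsum_mul_left]
  refine tsum_congr fun n => ?_
  unfold t6_L'
  rw [add_zero, sub_zero]
  ring

/-- T6b. PROOF. Mathlib: `EisensteinSeries.E2` has the `q`-expansion `1 - 24 ∑ σ₁(n) qⁿ` (see
`Mathlib/NumberTheory/ModularForms/EisensteinSeries/E2`, and `logDeriv_eta_eq_E2` with its proof: `E2 = 1 - 24 ∑ (n+1) q^{n+1}/(1-q^{n+1})`);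
`∑_n a_n/(1-a_n)² = ∑_n ∑_m m q^{nm} = ∑ σ₁(k) q^k` (`tsum_sigma_eqn`-like lemmas in Mathlib, or Fubini
`Summable.tsum_comm`). -/
theorem sE_eq (τ : ℂ) (hτ : 0 < τ.im) :
    sE τ = Real.pi ^ 2 / 3 - 8 * Real.pi ^ 2 * ∑' n : ℕ, ee ((n + 1) * τ) / (1 - ee ((n + 1) * τ)) ^ 2 := by
  have hq : ‖ee τ‖ < 1 := by
    rw [t6_norm_ee, Real.exp_lt_one_iff]
    have := mul_pos (mul_pos two_pos Real.pi_pos) hτ
    linarith
  have hpow : ∀ n : ℕ, ee ((n + 1) * τ) = ee τ ^ (n + 1) := by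
    intro n
    unfold ee
    rw [← Complex.exp_nat_mul]
    congr 1
    push_cast
    ring
  have h1 : MSD.e2 τ = 1 - 24 * ∑' n : ℕ+, (ArithmeticFunction.sigma 1 (n : ℕ) : ℂ) * ee τ ^ (n : ℕ) := by
    unfold MSD.e2
    rw [UpperHalfPlane.ofComplex_apply_of_im_pos hτ, EisensteinSeries.E2_eq_tsum_cexp]
    rfl
  have h2 := tsum_prod_pow_eq_tsum_sigma 1 hq
  have h3 : ∀ d : ℕ+, ∑' c : ℕ+, ((c : ℕ) : ℂ) ^ 1 * ee τ ^ ((d : ℕ) * (c : ℕ)) =
      ee τ ^ (d : ℕ) / (1 - ee τ ^ (d : ℕ)) ^ 2 := by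
    intro d
    have hd : ‖ee τ ^ (d : ℕ)‖ < 1 := by
      rw [norm_pow]
      exact pow_lt_one₀ (norm_nonneg _) hq d.ne_zero
    rw [← tsum_coe_mul_geometric_of_norm_lt_one hd,
      ← tsum_zero_pnat_eq_tsum_nat (hasSum_coe_mul_geometric_of_norm_lt_one hd).summable]
    rw [Nat.cast_zero, zero_mul, zero_add]
    refine tsum_congr fun c => ?_
    rw [pow_one, pow_mul]
  have h4 : ∑' n : ℕ, ee ((n + 1) * τ) / (1 - ee ((n + 1) * τ)) ^ 2 =
      ∑' n : ℕ+, (ArithmeticFunction.sigma 1 (n : ℕ) : ℂ) * ee τ ^ (n : ℕ) := by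
    rw [← h2, tsum_congr h3, tsum_pnat_eq_tsum_succ (f := fun n : ℕ => ee τ ^ n / (1 - ee τ ^ n) ^ 2)]
    refine tsum_congr fun n => ?_
    rw [hpow]
  unfold sE
  rw [h1, h4]
  ring

end Pool.Agent.MSP
end

end

section

/-! # T6c: behaviour of `wp` at the origin (MP_f58a57_nt, pairs) -/

open Complex Filter Topology

noncomputable section

namespace Pool.Agent.MSP

private lemma t6c_sin_bound (x : ℂ) (hx : ‖x‖ ≤ 1) :
    ‖Complex.sin x - (x - x ^ 3 / 6)‖ ≤ ‖x‖ ^ 4 := by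
  have h1 := Complex.exp_bound (x := -x * I) (by simpa using hx) (n := 4) (by norm_num)
  have h2 := Complex.exp_bound (x := x * I) (by simpa using hx) (n := 4) (by norm_num)
  have e1 : ‖-x * I‖ = ‖x‖ := by simp
  have e2 : ‖x * I‖ = ‖x‖ := by simp
  rw [e1] at h1
  rw [e2] at h2
  have hI3 : (I : ℂ) ^ 3 = -I := by rw [pow_succ, I_sq]; ring
  have hI4 : (I : ℂ) ^ 4 = 1 := by
    rw [show (4 : ℕ) = 2 * 2 by rfl, pow_mul, I_sq]; norm_num
  have key : Complex.sin x - (x - x ^ 3 / 6) =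
      ((cexp (-x * I) - ∑ m ∈ Finset.range 4, (-x * I) ^ m / (m.factorial : ℂ)) -
        (cexp (x * I) - ∑ m ∈ Finset.range 4, (x * I) ^ m / (m.factorial : ℂ))) * I / 2 := by
    rw [Complex.sin]
    simp only [Finset.sum_range_succ, Finset.sum_range_zero, Nat.factorial]
    push_cast
    ring_nf
    rw [hI4, I_sq]
    ring
  rw [key, norm_div, norm_mul, norm_I, mul_one, Complex.norm_two]
  have h3 := norm_sub_le (cexp (-x * I) - ∑ m ∈ Finset.range 4, (-x * I) ^ m / (m.factorial : ℂ))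
    (cexp (x * I) - ∑ m ∈ Finset.range 4, (x * I) ^ m / (m.factorial : ℂ))
  have h4 : ‖x‖ ^ 4 * (((Nat.succ 4 : ℕ) : ℝ) * (((Nat.factorial 4 : ℕ) : ℝ) * ((4 : ℕ) : ℝ))⁻¹)
      ≤ ‖x‖ ^ 4 := by
    have : (((Nat.succ 4 : ℕ) : ℝ) * (((Nat.factorial 4 : ℕ) : ℝ) * ((4 : ℕ) : ℝ))⁻¹) ≤ 1 := by
      norm_num [Nat.factorial]
    calc _ ≤ ‖x‖ ^ 4 * 1 := mul_le_mul_of_nonneg_left this (by positivity)
      _ = _ := mul_one _
  have h5 := h1.trans h4
  have h6 := h2.trans h4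
  linarith

/-- `(x - sin x) / x³ → 1/6` -/
private lemma t6c_cubic : Tendsto (fun x : ℂ => (x - Complex.sin x) / x ^ 3) (𝓝[≠] 0) (𝓝 (1 / 6)) := by
  rw [tendsto_iff_norm_sub_tendsto_zero]
  have hz : Tendsto (fun x : ℂ => ‖x‖) (𝓝[≠] 0) (𝓝 0) := by
    have : Tendsto (fun x : ℂ => ‖x‖) (𝓝 0) (𝓝 ‖(0 : ℂ)‖) := continuous_norm.tendsto 0
    rw [norm_zero] at this
    exact this.mono_left nhdsWithin_le_nhds
  refine squeeze_zero' (Eventually.of_forall fun x => norm_nonneg _) ?_ hz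
  have hev : ∀ᶠ x : ℂ in 𝓝[≠] 0, ‖x‖ ≤ 1 := by
    have := hz.eventually (gt_mem_nhds (zero_lt_one))
    filter_upwards [this] with x hx using hx.le
  filter_upwards [hev, self_mem_nhdsWithin] with x hx hx0
  have hx0' : x ≠ 0 := hx0
  have hxn : 0 < ‖x‖ := norm_pos_iff.mpr hx0'
  have : (x - Complex.sin x) / x ^ 3 - 1 / 6 = -(Complex.sin x - (x - x ^ 3 / 6)) / x ^ 3 := by
    field_simp
    ring
  rw [this, norm_div, norm_neg, norm_pow, div_le_iff₀ (by positivity)]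
  calc _ ≤ ‖x‖ ^ 4 := t6c_sin_bound x hx
    _ = ‖x‖ * ‖x‖ ^ 3 := by ring

/-- `sin x / x → 1` -/
private lemma t6c_sinc : Tendsto (fun x : ℂ => Complex.sin x / x) (𝓝[≠] 0) (𝓝 1) := by
  have h : Tendsto (fun x : ℂ => 1 - x ^ 2 * ((x - Complex.sin x) / x ^ 3)) (𝓝[≠] 0)
      (𝓝 (1 - 0 ^ 2 * (1 / 6))) := by
    have hx : Tendsto (fun x : ℂ => x ^ 2) (𝓝[≠] 0) (𝓝 (0 ^ 2)) :=
      ((continuous_pow 2).tendsto (0 : ℂ)).mono_left nhdsWithin_le_nhds
    exact tendsto_const_nhds.sub (hx.mul t6c_cubic)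
  have h' : (1 : ℂ) - 0 ^ 2 * (1 / 6) = 1 := by ring
  rw [h'] at h
  refine h.congr' ?_
  filter_upwards [self_mem_nhdsWithin] with x hx0
  have hx0' : x ≠ 0 := hx0
  field_simp
  ring

/-- `1/sin² x - 1/x² → 1/3` -/
private lemma t6c_csc : Tendsto (fun x : ℂ => 1 / Complex.sin x ^ 2 - 1 / x ^ 2) (𝓝[≠] 0)
    (𝓝 (1 / 3)) := by
  have h1 : Tendsto (fun x : ℂ => ((x - Complex.sin x) / x ^ 3) * (1 + Complex.sin x / x) /
      (Complex.sin x / x) ^ 2) (𝓝[≠] 0) (𝓝 ((1 / 6) * (1 + 1) / 1 ^ 2)) :=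
    (t6c_cubic.mul (tendsto_const_nhds.add t6c_sinc)).div (t6c_sinc.pow 2) (by norm_num)
  have h2 : (1 / 6 : ℂ) * (1 + 1) / 1 ^ 2 = 1 / 3 := by norm_num
  rw [h2] at h1
  refine h1.congr' ?_
  have hne : ∀ᶠ x : ℂ in 𝓝[≠] 0, Complex.sin x / x ≠ 0 :=
    t6c_sinc.eventually_ne one_ne_zero
  filter_upwards [self_mem_nhdsWithin, hne] with x hx0 hs
  have hx0' : x ≠ 0 := hx0
  have hs' : Complex.sin x ≠ 0 := fun h => hs (by rw [h, zero_div])
  field_simp
  ring

private lemma t6c_ee_ne_one (τ : ℂ) (hτ : 0 < τ.im) (n : ℕ) : ee ((n + 1) * τ) ≠ 1 := by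
  intro h
  have h1 : ‖ee ((n + 1) * τ)‖ = 1 := by rw [h, norm_one]
  rw [ee, Complex.norm_exp] at h1
  have h2 : (2 * Real.pi * I * ((n + 1) * τ) : ℂ).re = -(2 * Real.pi * (n + 1) * τ.im) := by
    simp
    ring
  rw [h2, Real.exp_eq_one_iff] at h1
  have : 0 < 2 * Real.pi * (n + 1) * τ.im := by positivity
  linarith

private lemma t6c_g0 (τ : ℂ) (hτ : 0 < τ.im) : thp τ 0 ≠ 0 := by
  apply thp_ne_zero τ hτ 0
  intro n
  rw [add_zero, sub_zero]
  exact ⟨t6c_ee_ne_one τ hτ n, t6c_ee_ne_one τ hτ n⟩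

private lemma t6c_formula (τ s : ℂ) (hτ : 0 < τ.im) (t : ℂ) (hS : Complex.sin (Real.pi * t) ≠ 0)
    (hg : thp τ t ≠ 0) : wp τ s t = Real.pi ^ 2 / Complex.sin (Real.pi * t) ^ 2 -
      deriv (logDeriv (thp τ)) t - s := by
  have hd : Differentiable ℂ (thp τ) := thp_differentiable τ hτ
  have hd2 : Differentiable ℂ (deriv (thp τ)) := fun z => (hd.analyticAt z).deriv.differentiableAt
  have hsin : ∀ z : ℂ, HasDerivAt (fun z : ℂ => Complex.sin (Real.pi * z))
      (Real.pi * Complex.cos (Real.pi * z)) z := by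
    intro z
    have h1 : HasDerivAt (fun z : ℂ => (Real.pi : ℂ) * z) Real.pi z := by
      simpa using (hasDerivAt_id z).const_mul (Real.pi : ℂ)
    have := (Complex.hasDerivAt_sin (Real.pi * z)).comp z h1
    rw [mul_comm] at this
    exact this
  have hcos : ∀ z : ℂ, HasDerivAt (fun z : ℂ => Real.pi * Complex.cos (Real.pi * z))
      (-(Real.pi ^ 2 * Complex.sin (Real.pi * z))) z := by
    intro z
    have h1 : HasDerivAt (fun z : ℂ => (Real.pi : ℂ) * z) Real.pi z := by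
      simpa using (hasDerivAt_id z).const_mul (Real.pi : ℂ)
    have h2 := ((Complex.hasDerivAt_cos (Real.pi * z)).comp z h1).const_mul (Real.pi : ℂ)
    have h3 : (Real.pi : ℂ) * (-Complex.sin (Real.pi * z) * Real.pi) =
        -(Real.pi ^ 2 * Complex.sin (Real.pi * z)) := by ring
    rw [h3] at h2
    exact h2
  have h1 : ∀ z, HasDerivAt (th τ) (Real.pi * Complex.cos (Real.pi * z) * thp τ z +
      Complex.sin (Real.pi * z) * deriv (thp τ) z) z := fun z =>
    (hsin z).mul (hd z).hasDerivAt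
  have h1' : deriv (th τ) = fun z => Real.pi * Complex.cos (Real.pi * z) * thp τ z +
      Complex.sin (Real.pi * z) * deriv (thp τ) z := funext fun z => (h1 z).deriv
  have h2 : deriv (deriv (th τ)) t = (-(Real.pi ^ 2 * Complex.sin (Real.pi * t)) * thp τ t +
      Real.pi * Complex.cos (Real.pi * t) * deriv (thp τ) t) +
      (Real.pi * Complex.cos (Real.pi * t) * deriv (thp τ) t +
        Complex.sin (Real.pi * t) * deriv (deriv (thp τ)) t) := by
    rw [h1']
    exact (((hcos t).mul (hd t).hasDerivAt).add ((hsin t).mul (hd2 t).hasDerivAt)).deriv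
  have h3 : deriv (logDeriv (thp τ)) t =
      (deriv (deriv (thp τ)) t * thp τ t - deriv (thp τ) t * deriv (thp τ) t) / thp τ t ^ 2 :=
    ((hd2 t).hasDerivAt.div (hd t).hasDerivAt hg).deriv
  rw [wp, N2, N0, h3, h2, h1']
  have hcs := Complex.sin_sq_add_cos_sq (Real.pi * t)
  have hth : th τ t = Complex.sin (Real.pi * t) * thp τ t := rfl
  rw [hth]
  field_simp
  linear_combination (Real.pi ^ 2 * thp τ t ^ 2) * hcs

/-- T6c. PROOF. For `t ≠ 0` near `0`: `th = sin(πt) thp`, so `th'/th = π cot(πt) + thp'/thp` and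
`wp τ s t = -(th'/th)' - s = π²/sin²(πt) - (thp'/thp)'(t) - s` (as `N2/N0² = -(N1/N0)' - s`). `π²/sin²(πt) - 1/t² → π²/3`
(Taylor), `(thp'/thp)'` is continuous at `0` (analytic) with value T6a, and T6b: the limit is `0`. -/
theorem wp_lim (τ : ℂ) (hτ : 0 < τ.im) :
    Tendsto (fun t : ℂ => wp τ (sE τ) t - 1 / t ^ 2) (𝓝[≠] 0) (𝓝 0) := by
  have hd : Differentiable ℂ (thp τ) := thp_differentiable τ hτ
  have hg0 := t6c_g0 τ hτ
  have hpi : (Real.pi : ℂ) ≠ 0 := by exact_mod_cast Real.pi_ne_zero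
  -- continuity of the second logarithmic derivative
  have hcont : Tendsto (fun t => deriv (logDeriv (thp τ)) t) (𝓝[≠] 0)
      (𝓝 (deriv (logDeriv (thp τ)) 0)) := by
    have ha : AnalyticAt ℂ (logDeriv (thp τ)) 0 := (hd.analyticAt 0).deriv.div (hd.analyticAt 0) hg0
    exact (ha.deriv.continuousAt.tendsto).mono_left nhdsWithin_le_nhds
  -- the scaled cosecant
  have hscale : Tendsto (fun t : ℂ => (Real.pi : ℂ) * t) (𝓝[≠] 0) (𝓝[≠] 0) := by
    rw [tendsto_nhdsWithin_iff]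
    refine ⟨?_, ?_⟩
    · have : Tendsto (fun t : ℂ => (Real.pi : ℂ) * t) (𝓝 0) (𝓝 ((Real.pi : ℂ) * 0)) :=
        (continuous_const.mul continuous_id).tendsto 0
      rw [mul_zero] at this
      exact this.mono_left nhdsWithin_le_nhds
    · filter_upwards [self_mem_nhdsWithin] with t ht
      exact mul_ne_zero hpi ht
  have hcsc := (t6c_csc.comp hscale).const_mul ((Real.pi : ℂ) ^ 2)
  have htot := (hcsc.sub hcont).sub (tendsto_const_nhds (x := sE τ))
  have hval : (Real.pi : ℂ) ^ 2 * (1 / 3) - deriv (logDeriv (thp τ)) 0 - sE τ = 0 := by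
    rw [deriv_logDeriv_thp τ hτ, sE_eq τ hτ]
    ring
  rw [hval] at htot
  refine htot.congr' ?_
  have hgne : ∀ᶠ t : ℂ in 𝓝[≠] 0, thp τ t ≠ 0 :=
    (hd.continuous.continuousAt.eventually_ne hg0).filter_mono nhdsWithin_le_nhds
  have hsne : ∀ᶠ t : ℂ in 𝓝[≠] 0, Complex.sin (Real.pi * t) ≠ 0 := by
    have h1 := hscale.eventually (t6c_sinc.eventually_ne one_ne_zero)
    filter_upwards [h1] with t ht h0
    exact ht (by rw [h0, zero_div])
  filter_upwards [self_mem_nhdsWithin, hgne, hsne] with t ht hg hS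
  have ht' : t ≠ 0 := ht
  rw [t6c_formula τ (sE τ) hτ t hS hg]
  simp only [Function.comp_apply]
  field_simp
  ring

end Pool.Agent.MSP
end

end

section

/-! # T7: `wp` is the Weierstrass function of `ℤ + ℤτ` (MP_f58a57_nt, pairs) -/

open Complex Filter Topology

noncomputable section

namespace Pool.Agent.MSP

theorem pp_indep (τ : ℂ) (hτ : 0 < τ.im) : LinearIndependent ℝ ![(1 : ℂ), τ] := by
  rw [LinearIndependent.pair_iff]
  intro a b h
  have him := congrArg Complex.im h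
  simp at him
  have hb : b = 0 := by
    rcases him with h' | h'
    · exact h'
    · exact absurd h' hτ.ne'
  have hre := congrArg Complex.re h
  simp [hb] at hre
  exact ⟨hre, hb⟩

/-- the period pair `(1, τ)` -/
def pp (τ : ℂ) (hτ : 0 < τ.im) : PeriodPair := ⟨1, τ, pp_indep τ hτ⟩

theorem mem_pp (τ : ℂ) (hτ : 0 < τ.im) (t : ℂ) : t ∈ (pp τ hτ).lattice ↔ th τ t = 0 := by
  rw [PeriodPair.mem_lattice, th_eq_zero_iff τ hτ]
  constructor
  · rintro ⟨m, n, h⟩
    exact ⟨m, n, by rw [← h]; simp [pp]⟩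
  · rintro ⟨m, n, h⟩
    exact ⟨m, n, by rw [h]; simp [pp]⟩

theorem t7_wp_add (τ : ℂ) (hτ : 0 < τ.im) (s : ℂ) (m n : ℤ) (t : ℂ) :
    wp τ s (t + m + n * τ) = wp τ s t := by
  unfold wp
  rw [N2_shift τ s hτ, N0_shift τ hτ, mul_pow]
  exact mul_div_mul_left _ _ (pow_ne_zero 2 (au_ne τ m n t))

theorem t7_wp_lat (τ : ℂ) (hτ : 0 < τ.im) (s : ℂ) (l : (pp τ hτ).lattice) (t : ℂ) :
    wp τ s (t + l) = wp τ s t := by
  obtain ⟨m, n, h⟩ := PeriodPair.mem_lattice.1 l.2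
  rw [← h, ← t7_wp_add τ hτ s m n t]
  congr 1
  simp only [pp]
  ring

theorem t7_analytic (τ : ℂ) (hτ : 0 < τ.im) (s t : ℂ) (ht : th τ t ≠ 0) :
    AnalyticAt ℂ (wp τ s) t := by
  have h1 : AnalyticAt ℂ (th τ) t := (th_differentiable τ hτ).analyticAt t
  have h2 : AnalyticAt ℂ (deriv (th τ)) t := h1.deriv
  have h3 : AnalyticAt ℂ (deriv (deriv (th τ))) t := h2.deriv
  have h4 : AnalyticAt ℂ (fun t => N2 τ s t) t := by
    unfold N2
    fun_prop
  have h5 : AnalyticAt ℂ (fun t => N0 τ t ^ 2) t := by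
    unfold N0
    fun_prop
  exact h4.div h5 (pow_ne_zero 2 ht)

open Classical in
/-- the difference of the two functions, `0` on the lattice -/
def t7_D (τ : ℂ) (hτ : 0 < τ.im) (x : ℂ) : ℂ :=
  if x ∈ (pp τ hτ).lattice then 0 else wp τ (sE τ) x - (pp τ hτ).weierstrassP x

theorem t7_D_add (τ : ℂ) (hτ : 0 < τ.im) (x : ℂ) (l : (pp τ hτ).lattice) :
    t7_D τ hτ (x + l) = t7_D τ hτ x := by
  unfold t7_D
  rw [t7_wp_lat, PeriodPair.weierstrassP_add_coe]
  have h : (x + l ∈ (pp τ hτ).lattice) ↔ (x ∈ (pp τ hτ).lattice) := by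
    simpa using ((pp τ hτ).lattice.toAddSubgroup.add_mem_cancel_right (y := x) l.2)
  by_cases hx : x ∈ (pp τ hτ).lattice
  · rw [if_pos (h.2 hx), if_pos hx]
  · rw [if_neg (fun h' => hx (h.1 h')), if_neg hx]

theorem t7_D_off (τ : ℂ) (hτ : 0 < τ.im) (x : ℂ) (hx : x ∉ (pp τ hτ).lattice) :
    AnalyticAt ℂ (t7_D τ hτ) x := by
  have h1 : AnalyticAt ℂ (wp τ (sE τ)) x :=
    t7_analytic τ hτ _ x (fun h => hx ((mem_pp τ hτ x).2 h))
  have h2 : AnalyticAt ℂ (pp τ hτ).weierstrassP x :=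
    (pp τ hτ).analyticOnNhd_weierstrassP x hx
  have h3 : AnalyticAt ℂ (fun x => wp τ (sE τ) x - (pp τ hτ).weierstrassP x) x := h1.sub h2
  refine h3.congr ?_
  filter_upwards [(pp τ hτ).isClosed_lattice.isOpen_compl.mem_nhds hx] with y hy
  unfold t7_D
  rw [if_neg (show y ∉ (pp τ hτ).lattice from hy)]

theorem t7_D_zero (τ : ℂ) (hτ : 0 < τ.im) : AnalyticAt ℂ (t7_D τ hτ) 0 := by
  set L := pp τ hτ with hL
  have hev : ∀ᶠ x in 𝓝[≠] (0 : ℂ), x ∉ L.lattice := by
    have h1 := L.compl_lattice_sdiff_singleton_mem_nhds 0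
    filter_upwards [nhdsWithin_le_nhds h1, self_mem_nhdsWithin] with x hx hx0
    intro hxL
    exact hx ⟨hxL, hx0⟩
  have h0 : t7_D τ hτ 0 = 0 := by
    unfold t7_D
    rw [if_pos (zero_mem _)]
  have hP : Tendsto (fun t : ℂ => L.weierstrassP t - 1 / t ^ 2) (𝓝[≠] 0) (𝓝 0) := by
    have h1 : ∀ t : ℂ, L.weierstrassP t - 1 / t ^ 2 = L.weierstrassPExcept 0 t := by
      intro t
      have := L.weierstrassPExcept_add 0 t
      simp only [ZeroMemClass.coe_zero, sub_zero] at this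
      rw [← this]
      simp
    have h2 : Tendsto (L.weierstrassPExcept 0) (𝓝 0) (𝓝 0) := by
      have h3 := (L.analyticAt_weierstrassPExcept 0).continuousAt.tendsto
      rwa [L.weierstrassPExcept_zero] at h3
    refine (h2.mono_left nhdsWithin_le_nhds).congr fun t => (h1 t).symm
  have hD : Tendsto (t7_D τ hτ) (𝓝[≠] 0) (𝓝 0) := by
    have h1 := (wp_lim τ hτ).sub hP
    rw [sub_zero] at h1
    refine h1.congr' ?_
    filter_upwards [hev] with x hx
    unfold t7_D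
    rw [if_neg hx]
    ring
  refine Complex.analyticAt_of_differentiable_on_punctured_nhds_of_continuousAt ?_ ?_
  · filter_upwards [hev] with x hx
    exact (t7_D_off τ hτ x hx).differentiableAt
  · rw [continuousAt_iff_punctured_nhds, h0]
    exact hD

theorem t7_D_analytic (τ : ℂ) (hτ : 0 < τ.im) (x : ℂ) : AnalyticAt ℂ (t7_D τ hτ) x := by
  by_cases hx : x ∈ (pp τ hτ).lattice
  · have h0 := t7_D_zero τ hτ
    have h1 : AnalyticAt ℂ (fun y => t7_D τ hτ (y - x)) x := by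
      have h2 : AnalyticAt ℂ (t7_D τ hτ) ((fun y : ℂ => y - x) x) := by
        simpa using h0
      exact h2.comp (f := fun y : ℂ => y - x) (by fun_prop)
    refine h1.congr (Eventually.of_forall fun y => ?_)
    have := t7_D_add τ hτ (y - x) ⟨x, hx⟩
    simp only [sub_add_cancel] at this
    exact this.symm
  · exact t7_D_off τ hτ x hx

/-- T7. PROOF. Both sides are analytic off the lattice (`wp = N2/N0²`, `N0 = th ≠ 0` there; Mathlib
`analyticOnNhd_weierstrassP`), and periodic (T4; `weierstrassP_add_coe`). At `0` the difference tends to `0`: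
`wp - 1/t² → 0` (T6c) and `℘ - 1/t² → 0` (Mathlib: `weierstrassPExcept 0` is analytic at `0` with value `0`,
`weierstrassPExcept_add`, `weierstrassPExcept_zero`). So the difference `D`, extended by `0` on the lattice, is continuous and
analytic off the lattice, hence entire (removable singularities:
`Complex.differentiableOn_update_limUnder_of_isLittleO` or
`DifferentiableOn... continuousAt`), periodic for `1` and `τ`, so bounded, so constant (`Differentiable.apply_eq_apply_of_bounded`),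
`= D 0 = 0`. See Mathlib's proof of `PeriodPair.relation_eq_zero` for the same pattern. -/
theorem wp_eq (τ : ℂ) (hτ : 0 < τ.im) (t : ℂ) (ht : th τ t ≠ 0) :
    wp τ (sE τ) t = (pp τ hτ).weierstrassP t := by
  have hd : Differentiable ℂ (t7_D τ hτ) := fun x => (t7_D_analytic τ hτ x).differentiableAt
  have h1 : t7_D τ hτ t = t7_D τ hτ 0 :=
    hd.apply_eq_apply_of_bounded (IsZLattice.isCompact_range_of_periodic (pp τ hτ).lattice _
      hd.continuous fun z w hw => by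
        have := t7_D_add τ hτ z ⟨w, hw⟩
        exact this).isBounded t 0
  have h0 : t7_D τ hτ 0 = 0 := by
    unfold t7_D
    rw [if_pos (zero_mem _)]
  rw [h0] at h1
  unfold t7_D at h1
  rw [if_neg (fun h => ht ((mem_pp τ hτ t).1 h))] at h1
  exact sub_eq_zero.1 h1

end Pool.Agent.MSP
end

end

section

/-! # T8: the invariants and the differential equation (MP_f58a57_nt, pairs) -/

open Complex Filter Topology

noncomputable section

namespace Pool.Agent.MSP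

/-- the lattice sum is the Eisenstein series -/
theorem t8_G (τ : ℂ) (hτ : 0 < τ.im) {k : ℕ} (hk : 3 ≤ k) :
    (pp τ hτ).G k = 2 * riemannZeta k * ModularForm.E hk (UpperHalfPlane.ofComplex τ) := by
  have hz : UpperHalfPlane.ofComplex τ = ⟨τ, hτ⟩ := UpperHalfPlane.ofComplex_apply_of_im_pos hτ
  rw [hz]
  have h1 := tsum_eisSummand_eq_riemannZeta_mul_eisensteinSeries hk (⟨τ, hτ⟩ : UpperHalfPlane)
  have h2 : ModularForm.E hk (⟨τ, hτ⟩ : UpperHalfPlane) =
      (1 / 2 : ℂ) * eisensteinSeries (N := 1) 0 k ⟨τ, hτ⟩ := by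
    rw [show ModularForm.E hk (⟨τ, hτ⟩ : UpperHalfPlane) =
      (1 / 2 : ℂ) • EisensteinSeries.eisensteinSeriesSIF (N := 1) 0 k ⟨τ, hτ⟩ from rfl,
      EisensteinSeries.eisensteinSeriesSIF_apply 0 k, smul_eq_mul]
  have h3 : 2 * riemannZeta k * ((1 / 2 : ℂ) * eisensteinSeries (N := 1) 0 k ⟨τ, hτ⟩) =
      riemannZeta k * eisensteinSeries (N := 1) 0 k ⟨τ, hτ⟩ := by ring
  rw [h2, h3, ← h1]
  set e : (Fin 2 → ℤ) ≃ (pp τ hτ).lattice :=
    ((finTwoArrowEquiv ℤ).trans (Equiv.prodComm ℤ ℤ)).trans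
      (pp τ hτ).latticeEquivProd.symm.toEquiv with he
  rw [PeriodPair.G, ← e.tsum_eq]
  apply tsum_congr
  intro v
  have h4 : ((e v : (pp τ hτ).lattice) : ℂ) = v 0 * τ + v 1 := by
    have h5 := (pp τ hτ).latticeEquiv_symm_apply (v 1, v 0)
    have h6 : e v = (pp τ hτ).latticeEquivProd.symm (v 1, v 0) := by
      rw [he]
      rfl
    rw [h6, h5]
    simp only [pp]
    ring
  rw [h4, EisensteinSeries.eisSummand, zpow_neg, zpow_natCast]

theorem t8_bernoulli_six : bernoulli 6 = 1 / 42 := by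
  have h5 : bernoulli' 5 = 0 := bernoulli'_eq_zero_of_odd (by decide) (by norm_num)
  have c2 : Nat.choose 6 2 = 15 := by decide
  have c3 : Nat.choose 6 3 = 20 := by decide
  have c4 : Nat.choose 6 4 = 15 := by decide
  rw [bernoulli_eq_bernoulli'_of_ne_one (by norm_num), bernoulli'_def]
  norm_num [Finset.sum_range_succ, Finset.sum_range_zero, h5, c2, c3, c4]

theorem t8_zeta_six : riemannZeta 6 = (Real.pi : ℂ) ^ 6 / 945 := by
  have h := riemannZeta_two_mul_nat (k := 3) (by norm_num)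
  have e1 : (2 * ((3 : ℕ) : ℂ)) = 6 := by norm_num
  have e2 : 2 * 3 = 6 := by norm_num
  rw [e1, e2, t8_bernoulli_six] at h
  rw [h]
  simp only [Nat.factorial]
  push_cast
  ring

/-- T8a. `g₂ = 60 ∑ λ⁻⁴ = 60 · 2ζ(4) E₄ = (4/3) π⁴ E₄`. PROOF. `PeriodPair.g₂ = 60 * G 4`, `G 4 = ∑' l : lattice, (l^4)⁻¹`; reindex by
`PeriodPair.latticeEquivProd` as a sum over pairs of integers; Mathlib: the sum over all pairs is `2ζ(k)` times the normalised
Eisenstein series (`EisensteinSeries`: `tsum_eisSummand_eq_riemannZeta_mul_eisensteinSeries` or the like; the definition of `E₄` is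
`ModularForm.E`/`EisensteinSeries.E`), `riemannZeta_four`. -/
theorem g2_eq (τ : ℂ) (hτ : 0 < τ.im) : (pp τ hτ).g₂ = 4 / 3 * Real.pi ^ 4 * MSD.e4 τ := by
  have h : (pp τ hτ).G 4 = 2 * riemannZeta (4 : ℕ) * MSD.e4 τ := t8_G τ hτ (by norm_num)
  rw [PeriodPair.g₂, h]
  push_cast
  rw [riemannZeta_four]
  ring

/-- T8b. `g₃ = 140 ∑ λ⁻⁶ = 140 · 2ζ(6) E₆ = (8/27) π⁶ E₆`; `ζ(6) = π⁶/945` (`riemannZeta_two_mul_nat` with Bernoulli numbers). -/
theorem g3_eq (τ : ℂ) (hτ : 0 < τ.im) : (pp τ hτ).g₃ = 8 / 27 * Real.pi ^ 6 * MSD.e6 τ := by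
  have h : (pp τ hτ).G 6 = 2 * riemannZeta (6 : ℕ) * MSD.e6 τ := t8_G τ hτ (by norm_num)
  rw [PeriodPair.g₃, h]
  push_cast
  rw [t8_zeta_six]
  ring

end Pool.Agent.MSP
end

end

section

/-! # T8c: the differential equation (MP_f58a57_nt, pairs) -/

open Complex Filter Topology

noncomputable section

namespace Pool.Agent.MSP

theorem t8c_th_an (τ : ℂ) (hτ : 0 < τ.im) (t : ℂ) : AnalyticAt ℂ (th τ) t :=
  (th_differentiable τ hτ).analyticAt t

/-- `wp` is analytic where `th ≠ 0`. -/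
theorem wp_analyticAt (τ s : ℂ) (hτ : 0 < τ.im) (t : ℂ) (ht : th τ t ≠ 0) : AnalyticAt ℂ (wp τ s) t := by
  have h0 := t8c_th_an τ hτ t
  have h1 : AnalyticAt ℂ (deriv (th τ)) t := h0.deriv
  have h2 : AnalyticAt ℂ (deriv (deriv (th τ))) t := h1.deriv
  have hn : AnalyticAt ℂ (fun t => deriv (th τ) t ^ 2 - th τ t * deriv (deriv (th τ)) t - s * th τ t ^ 2) t :=
    ((h1.pow 2).sub (h0.mul h2)).sub (analyticAt_const.mul (h0.pow 2))
  have hd : AnalyticAt ℂ (fun t => th τ t ^ 2) t := h0.pow 2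
  exact hn.div hd (pow_ne_zero 2 ht)

/-- `ph` is analytic where `th ≠ 0`, and `ph' = -(wp + s)`. -/
theorem ph_analyticAt (τ : ℂ) (hτ : 0 < τ.im) (t : ℂ) (ht : th τ t ≠ 0) : AnalyticAt ℂ (ph τ) t := by
  have h0 := t8c_th_an τ hτ t
  have h1 : AnalyticAt ℂ (deriv (th τ)) t := h0.deriv
  exact h1.div h0 ht

theorem hasDerivAt_ph (τ s : ℂ) (hτ : 0 < τ.im) (t : ℂ) (ht : th τ t ≠ 0) :
    HasDerivAt (ph τ) (-(wp τ s t + s)) t := by
  have h0 := t8c_th_an τ hτ t
  have h1 : AnalyticAt ℂ (deriv (th τ)) t := h0.deriv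
  have h := h1.differentiableAt.hasDerivAt.div h0.differentiableAt.hasDerivAt ht
  have e : (deriv (deriv (th τ)) t * th τ t - deriv (th τ) t * deriv (th τ) t) / th τ t ^ 2 =
      -(wp τ s t + s) := by
    unfold wp N2 N0
    field_simp
    ring
  rw [e] at h
  exact h

theorem t8c_open (τ : ℂ) (hτ : 0 < τ.im) : IsOpen {t : ℂ | th τ t ≠ 0} :=
  isOpen_ne_fun (th_differentiable τ hτ).continuous continuous_const

/-- T8c. PROOF. `derivWeierstrassP_sq`, `deriv_weierstrassP` and T7 (the functions agree on an open set). -/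
theorem wp_ode (τ : ℂ) (hτ : 0 < τ.im) (t : ℂ) (ht : th τ t ≠ 0) :
    deriv (wp τ (sE τ)) t ^ 2 = 4 * wp τ (sE τ) t ^ 3 - 4 / 3 * Real.pi ^ 4 * MSD.e4 τ * wp τ (sE τ) t
      - 8 / 27 * Real.pi ^ 6 * MSD.e6 τ := by
  have hmem : t ∉ (pp τ hτ).lattice := fun h => ht ((mem_pp τ hτ t).1 h)
  have heq : wp τ (sE τ) =ᶠ[𝓝 t] (pp τ hτ).weierstrassP := by
    filter_upwards [(t8c_open τ hτ).mem_nhds ht] with u hu
    exact wp_eq τ hτ u hu
  rw [heq.deriv_eq, PeriodPair.deriv_weierstrassP, PeriodPair.derivWeierstrassP_sq _ t hmem, wp_eq τ hτ t ht,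
    g2_eq, g3_eq]

theorem t8c_zeros_countable (τ : ℂ) (hτ : 0 < τ.im) : {t : ℂ | th τ t = 0}.Countable := by
  have : {t : ℂ | th τ t = 0} ⊆ Set.range (fun p : ℤ × ℤ => (p.1 : ℂ) + p.2 * τ) := by
    intro t ht
    obtain ⟨m, n, h⟩ := (th_eq_zero_iff τ hτ t).1 ht
    exact ⟨(m, n), h.symm⟩
  exact (Set.countable_range _).mono this

theorem t8c_preconn (τ : ℂ) (hτ : 0 < τ.im) : IsPreconnected {t : ℂ | th τ t ≠ 0} := by
  have h := Set.Countable.isPathConnected_compl_of_one_lt_rank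
    (by rw [Complex.rank_real_complex]; exact Cardinal.one_lt_two) (t8c_zeros_countable τ hτ)
  exact h.isConnected.isPreconnected

theorem t8c_zero (τ : ℂ) (hτ : 0 < τ.im) : th τ 0 = 0 :=
  (th_eq_zero_iff τ hτ 0).2 ⟨0, 0, by simp⟩

theorem t8c_ev_ne (τ : ℂ) (hτ : 0 < τ.im) : ∀ᶠ t in 𝓝[≠] (0 : ℂ), th τ t ≠ 0 := by
  rcases (t8c_th_an τ hτ 0).eventually_eq_zero_or_eventually_ne_zero with h | h
  · exfalso
    have : deriv (th τ) 0 = 0 := by
      have h' : th τ =ᶠ[𝓝 0] fun _ => 0 := h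
      rw [h'.deriv_eq]
      simp
    exact deriv_th_zero_ne τ hτ this
  · exact h

/-- `wp'` does not vanish identically near any point -/
theorem t8c_deriv_ne (τ : ℂ) (hτ : 0 < τ.im) (t : ℂ) (ht : th τ t ≠ 0) :
    ∀ᶠ u in 𝓝[≠] t, deriv (wp τ (sE τ)) u ≠ 0 := by
  rcases (wp_analyticAt τ (sE τ) hτ t ht).deriv.eventually_eq_zero_or_eventually_ne_zero with h | h
  swap
  · exact h
  exfalso
  have han : AnalyticOnNhd ℂ (deriv (wp τ (sE τ))) {t : ℂ | th τ t ≠ 0} :=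
    fun u hu => (wp_analyticAt τ (sE τ) hτ u hu).deriv
  have hz : Set.EqOn (deriv (wp τ (sE τ))) 0 {t : ℂ | th τ t ≠ 0} :=
    han.eqOn_zero_of_preconnected_of_eventuallyEq_zero (t8c_preconn τ hτ) ht h
  have hdiff : DifferentiableOn ℂ (wp τ (sE τ)) {t : ℂ | th τ t ≠ 0} :=
    fun u hu => (wp_analyticAt τ (sE τ) hτ u hu).differentiableAt.differentiableWithinAt
  have hconst : ∀ u, th τ u ≠ 0 → wp τ (sE τ) u = wp τ (sE τ) t := fun u hu =>
    (t8c_open τ hτ).is_const_of_deriv_eq_zero (t8c_preconn τ hτ) hdiff hz hu ht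
  -- then `1/u²` would be bounded near `0`
  have h1 : Tendsto (fun u : ℂ => wp τ (sE τ) t - 1 / u ^ 2) (𝓝[≠] 0) (𝓝 0) := by
    refine (wp_lim τ hτ).congr' ?_
    filter_upwards [t8c_ev_ne τ hτ] with u hu
    rw [hconst u hu]
  have h2 : Tendsto (fun u : ℂ => u ^ 2) (𝓝[≠] (0 : ℂ)) (𝓝 0) := by
    have : Tendsto (fun u : ℂ => u ^ 2) (𝓝 (0 : ℂ)) (𝓝 ((0 : ℂ) ^ 2)) := (continuous_pow 2).tendsto 0
    simp only [ne_eq, OfNat.ofNat_ne_zero, not_false_eq_true, zero_pow] at this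
    exact this.mono_left nhdsWithin_le_nhds
  have h3 : Tendsto (fun u : ℂ => (wp τ (sE τ) t - 1 / u ^ 2) * u ^ 2) (𝓝[≠] 0) (𝓝 (0 * 0)) := h1.mul h2
  have h4 : Tendsto (fun u : ℂ => wp τ (sE τ) t * u ^ 2 - 1) (𝓝[≠] (0 : ℂ)) (𝓝 (0 * 0)) := by
    refine h3.congr' ?_
    filter_upwards [self_mem_nhdsWithin] with u hu
    have hu' : u ≠ 0 := hu
    field_simp
  have h5 : Tendsto (fun u : ℂ => wp τ (sE τ) t * u ^ 2 - 1) (𝓝[≠] (0 : ℂ)) (𝓝 (wp τ (sE τ) t * 0 - 1)) :=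
    (h2.const_mul _).sub_const 1
  have h6 := tendsto_nhds_unique h4 h5
  norm_num at h6

/-- T8d. PROOF. Differentiate T8c: `2 wp' wp'' = (12 wp² - g₂) wp'`; divide by `wp'` where `wp' ≠ 0`. `wp'` is not identically zero
near any point (otherwise, the complement of the lattice being connected, `wp` would be constant, but `wp → ∞` at `0`), so the zeros of
`wp'` are isolated and the identity extends by continuity. -/
theorem wp_ode2 (τ : ℂ) (hτ : 0 < τ.im) (t : ℂ) (ht : th τ t ≠ 0) :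
    HasDerivAt (deriv (wp τ (sE τ))) (6 * wp τ (sE τ) t ^ 2 - 2 / 3 * Real.pi ^ 4 * MSD.e4 τ) t := by
  set f := wp τ (sE τ) with hf
  set g : ℂ := 4 / 3 * Real.pi ^ 4 * MSD.e4 τ with hg
  -- the identity after differentiation
  have key : ∀ u, th τ u ≠ 0 → 2 * deriv f u * deriv (deriv f) u = (12 * f u ^ 2 - g) * deriv f u := by
    intro u hu
    have hfa := wp_analyticAt τ (sE τ) hτ u hu
    have hd0 : HasDerivAt f (deriv f u) u := hfa.differentiableAt.hasDerivAt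
    have hd1 : HasDerivAt (deriv f) (deriv (deriv f) u) u := hfa.deriv.differentiableAt.hasDerivAt
    have hL : HasDerivAt (fun v => deriv f v ^ 2) (2 * deriv f u * deriv (deriv f) u) u := by
      have := hd1.fun_pow 2
      simpa using this
    have hR : HasDerivAt (fun v => 4 * f v ^ 3 - g * f v - 8 / 27 * Real.pi ^ 6 * MSD.e6 τ)
        ((12 * f u ^ 2 - g) * deriv f u) u := by
      have h := (((hd0.fun_pow 3).const_mul 4).fun_sub (hd0.const_mul g)).sub_const (8 / 27 * Real.pi ^ 6 * MSD.e6 τ)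
      have e : (12 * f u ^ 2 - g) * deriv f u = 4 * ((3 : ℕ) * f u ^ (3 - 1) * deriv f u) - g * deriv f u := by
        norm_num
        ring
      rw [e]
      exact h
    have heq : (fun v => deriv f v ^ 2) =ᶠ[𝓝 u] fun v => 4 * f v ^ 3 - g * f v - 8 / 27 * Real.pi ^ 6 * MSD.e6 τ := by
      filter_upwards [(t8c_open τ hτ).mem_nhds hu] with v hv
      exact wp_ode τ hτ v hv
    exact hL.unique (hR.congr_of_eventuallyEq heq)
  have hfa := wp_analyticAt τ (sE τ) hτ t ht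
  have hd1 : HasDerivAt (deriv f) (deriv (deriv f) t) t := hfa.deriv.differentiableAt.hasDerivAt
  -- continuity of the difference
  have hc : ContinuousAt (fun u => deriv (deriv f) u - (6 * f u ^ 2 - g / 2)) t := by
    have h1 : ContinuousAt (deriv (deriv f)) t := hfa.deriv.deriv.continuousAt
    have h2 : ContinuousAt f t := hfa.continuousAt
    fun_prop
  have hz : ∀ᶠ u in 𝓝[≠] t, deriv (deriv f) u - (6 * f u ^ 2 - g / 2) = 0 := by
    filter_upwards [t8c_deriv_ne τ hτ t ht, nhdsWithin_le_nhds ((t8c_open τ hτ).mem_nhds ht)] with u hu hu'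
    have := key u hu'
    have h3 : deriv f u * (2 * (deriv (deriv f) u - (6 * f u ^ 2 - g / 2))) = 0 := by linear_combination this
    rcases mul_eq_zero.1 h3 with h | h
    · exact absurd h hu
    · simpa using h
  have h0 : deriv (deriv f) t - (6 * f t ^ 2 - g / 2) = 0 := by
    have ha : Tendsto (fun u => deriv (deriv f) u - (6 * f u ^ 2 - g / 2)) (𝓝[≠] t)
        (𝓝 (deriv (deriv f) t - (6 * f t ^ 2 - g / 2))) := hc.tendsto.mono_left nhdsWithin_le_nhds
    have hb : Tendsto (fun u => deriv (deriv f) u - (6 * f u ^ 2 - g / 2)) (𝓝[≠] t) (𝓝 0) :=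
      tendsto_const_nhds.congr' (hz.mono fun u hu => hu.symm)
    exact tendsto_nhds_unique ha hb
  have e : (6 * f t ^ 2 - 2 / 3 * Real.pi ^ 4 * MSD.e4 τ : ℂ) = deriv (deriv f) t := by
    rw [sub_eq_zero.1 h0, hg]
    ring
  rw [e]
  exact hd1

end Pool.Agent.MSP
end

end

section

/-! # K/T3_Diff: the difference formula for `wp` -/

open Complex Filter Topology

noncomputable section

namespace Pool.Agent.MSK

open MSD MSP

variable {d : ℕ}

/-- the entire function `N2(a) th(b)² - N2(b) th(a)² + th'(0)² th(a+b) th(a-b)` -/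
def t3_f (τ s b a : ℂ) : ℂ :=
  N2 τ s a * th τ b ^ 2 - N2 τ s b * th τ a ^ 2 + (deriv (th τ) 0) ^ 2 * (th τ (a + b) * th τ (a - b))

theorem t3_th_zero (τ : ℂ) : th τ 0 = 0 := by
  unfold th
  simp

theorem t3_deriv_neg (τ x : ℂ) : deriv (th τ) (-x) = deriv (th τ) x := by
  have h1 : (fun x : ℂ => th τ (-x)) = fun x : ℂ => -th τ x := by
    funext x
    exact th_neg τ x
  have h2 := congrArg (fun g : ℂ → ℂ => deriv g x) h1
  simp only [deriv_comp_neg, deriv.fun_neg'] at h2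
  simpa using h2

theorem t3_deriv2_neg (τ x : ℂ) : deriv (deriv (th τ)) (-x) = -deriv (deriv (th τ)) x := by
  have h1 : (fun x : ℂ => deriv (th τ) (-x)) = fun x : ℂ => deriv (th τ) x := by
    funext x
    exact t3_deriv_neg τ x
  have h2 := congrArg (fun g : ℂ → ℂ => deriv g x) h1
  have h3 : deriv (fun x : ℂ => deriv (th τ) (-x)) x = -deriv (deriv (th τ)) (-x) :=
    deriv_comp_neg (deriv (th τ)) x
  have h4 : -deriv (deriv (th τ)) (-x) = deriv (deriv (th τ)) x := by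
    rw [← h3]
    exact h2
  rw [← h4, neg_neg]

theorem t3_N2_neg (τ s x : ℂ) : N2 τ s (-x) = N2 τ s x := by
  unfold N2
  rw [t3_deriv_neg, t3_deriv2_neg, th_neg]
  ring

theorem t3_f_neg (τ s b a : ℂ) : t3_f τ s b (-a) = t3_f τ s b a := by
  unfold t3_f
  have h1 : -a + b = -(a - b) := by ring
  have h2 : -a - b = -(a + b) := by ring
  rw [t3_N2_neg, th_neg, h1, h2, th_neg, th_neg]
  ring

theorem t3_f_zero (τ s b : ℂ) : t3_f τ s b 0 = 0 := by
  unfold t3_f
  have h1 : N2 τ s 0 = deriv (th τ) 0 ^ 2 := by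
    unfold N2
    rw [t3_th_zero]
    ring
  rw [h1, t3_th_zero, zero_add, zero_sub, th_neg]
  ring

theorem t3_f_diff (τ : ℂ) (hτ : 0 < τ.im) (s b : ℂ) : Differentiable ℂ (t3_f τ s b) := by
  have h0 := th_differentiable τ hτ
  have h1 : Differentiable ℂ (deriv (th τ)) := h0.deriv
  have h2 : Differentiable ℂ (deriv (deriv (th τ))) := h1.deriv
  unfold t3_f N2
  fun_prop

theorem t3_f_deriv (τ s b : ℂ) : deriv (t3_f τ s b) 0 = 0 := by
  have h1 : (fun x : ℂ => t3_f τ s b (-x)) = fun x : ℂ => t3_f τ s b x := by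
    funext x
    exact t3_f_neg τ s b x
  have h3 : deriv (fun x : ℂ => t3_f τ s b (-x)) 0 = -deriv (t3_f τ s b) (-0) :=
    deriv_comp_neg (t3_f τ s b) 0
  rw [h1, neg_zero] at h3
  have h4 : deriv (t3_f τ s b) 0 = -deriv (t3_f τ s b) 0 := h3
  exact self_eq_neg.1 h4

theorem t3_au (τ : ℂ) (m n : ℤ) (a b : ℂ) : au τ m n (a + b) * au τ m n (a - b) = au τ m n a ^ 2 := by
  unfold au
  have h1 : ∀ x y z w : ℂ, (z * x) * (z * y) = z ^ 2 * (x * y) := by intros; ring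
  rw [mul_pow, h1 _ _ _ 0, ← Complex.exp_add, ← Complex.exp_nat_mul]
  congr 2
  push_cast
  ring

theorem t3_f_shift (τ : ℂ) (hτ : 0 < τ.im) (s b : ℂ) (m n : ℤ) (a : ℂ) :
    t3_f τ s b (a + m + n * τ) = au τ m n a ^ 2 * t3_f τ s b a := by
  have e0 : ∀ x, th τ (x + m + n * τ) = au τ m n x * th τ x := fun x => N0_shift τ hτ m n x
  unfold t3_f
  have h1 : a + m + n * τ + b = (a + b) + m + n * τ := by ring
  have h2 : a + m + n * τ - b = (a - b) + m + n * τ := by ring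
  rw [h1, h2, N2_shift τ s hτ, e0, e0, e0, ← t3_au τ m n a b]
  have h3 := t3_au τ m n a b
  have h4 : au τ m n (a + b) * th τ (a + b) * (au τ m n (a - b) * th τ (a - b)) =
      (au τ m n (a + b) * au τ m n (a - b)) * (th τ (a + b) * th τ (a - b)) := by ring
  rw [h4, h3, mul_pow]
  ring

open Classical in
/-- the quotient of `t3_f` by `th²`, extended to the lattice -/
def t3_D (τ : ℂ) (hτ : 0 < τ.im) (s b : ℂ) (x : ℂ) : ℂ :=
  if x ∈ (MSP.pp τ hτ).lattice then dslope (dslope (t3_f τ s b) 0) 0 0 / (deriv (th τ) 0) ^ 2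
  else t3_f τ s b x / th τ x ^ 2

theorem t3_D_add (τ : ℂ) (hτ : 0 < τ.im) (s b : ℂ) (x : ℂ) (l : (MSP.pp τ hτ).lattice) :
    t3_D τ hτ s b (x + l) = t3_D τ hτ s b x := by
  have h : (x + l ∈ (MSP.pp τ hτ).lattice) ↔ (x ∈ (MSP.pp τ hτ).lattice) := by
    simpa using ((MSP.pp τ hτ).lattice.toAddSubgroup.add_mem_cancel_right (y := x) l.2)
  unfold t3_D
  by_cases hx : x ∈ (MSP.pp τ hτ).lattice
  · rw [if_pos (h.2 hx), if_pos hx]
  · rw [if_neg (fun h' => hx (h.1 h')), if_neg hx]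
    obtain ⟨m, n, hl⟩ := PeriodPair.mem_lattice.1 l.2
    have h1 : x + (l : ℂ) = x + m + n * τ := by
      rw [← hl]
      simp only [MSP.pp]
      ring
    have e0 : th τ (x + m + n * τ) = au τ m n x * th τ x := N0_shift τ hτ m n x
    rw [h1, t3_f_shift τ hτ, e0, mul_pow]
    exact mul_div_mul_left _ _ (pow_ne_zero 2 (au_ne τ m n x))

theorem t3_D_off (τ : ℂ) (hτ : 0 < τ.im) (s b : ℂ) (x : ℂ) (hx : x ∉ (MSP.pp τ hτ).lattice) :
    AnalyticAt ℂ (t3_D τ hτ s b) x := by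
  have h1 : AnalyticAt ℂ (t3_f τ s b) x := (t3_f_diff τ hτ s b).analyticAt x
  have h2 : AnalyticAt ℂ (th τ) x := (th_differentiable τ hτ).analyticAt x
  have h3 : AnalyticAt ℂ (fun x => t3_f τ s b x / th τ x ^ 2) x :=
    h1.div (h2.pow 2) (pow_ne_zero 2 (fun h => hx ((mem_pp τ hτ x).2 h)))
  refine h3.congr ?_
  filter_upwards [(MSP.pp τ hτ).isClosed_lattice.isOpen_compl.mem_nhds hx] with y hy
  unfold t3_D
  rw [if_neg (show y ∉ (MSP.pp τ hτ).lattice from hy)]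

theorem t3_dslope_diff {f : ℂ → ℂ} (hf : Differentiable ℂ f) : Differentiable ℂ (dslope f 0) := by
  have h := (Complex.differentiableOn_dslope (s := Set.univ) (c := (0 : ℂ)) (f := f) Filter.univ_mem).2
    hf.differentiableOn
  exact differentiableOn_univ.1 h

theorem t3_D_zero (τ : ℂ) (hτ : 0 < τ.im) (s b : ℂ) : AnalyticAt ℂ (t3_D τ hτ s b) 0 := by
  set L := MSP.pp τ hτ with hL
  have hf := t3_f_diff τ hτ s b
  have hf1 := t3_dslope_diff hf
  have hf2 := t3_dslope_diff hf1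
  have ht1 := t3_dslope_diff (th_differentiable τ hτ)
  have h0 : dslope (th τ) 0 0 = deriv (th τ) 0 := dslope_same _ _
  have hne : dslope (th τ) 0 0 ≠ 0 := by
    rw [h0]
    exact deriv_th_zero_ne τ hτ
  have h1 : AnalyticAt ℂ (fun x => dslope (dslope (t3_f τ s b) 0) 0 x / dslope (th τ) 0 x ^ 2) 0 :=
    (hf2.analyticAt 0).div ((ht1.analyticAt 0).pow 2) (pow_ne_zero 2 hne)
  refine h1.congr ?_
  have h2 := L.compl_lattice_sdiff_singleton_mem_nhds 0
  filter_upwards [h2] with x hx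
  by_cases hx0 : x = 0
  · subst hx0
    unfold t3_D
    rw [if_pos (zero_mem _), h0]
  · have hxL : x ∉ L.lattice := fun hxL => hx ⟨hxL, hx0⟩
    unfold t3_D
    rw [if_neg hxL]
    have e1 : dslope (t3_f τ s b) 0 0 = 0 := by rw [dslope_same, t3_f_deriv]
    have e2 : dslope (dslope (t3_f τ s b) 0) 0 x = t3_f τ s b x / x ^ 2 := by
      rw [dslope_of_ne _ hx0, slope_def_field, e1, dslope_of_ne _ hx0, slope_def_field, t3_f_zero]
      field_simp
      ring
    have e3 : dslope (th τ) 0 x = th τ x / x := by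
      rw [dslope_of_ne _ hx0, slope_def_field, t3_th_zero]
      ring
    have e4 : th τ x ≠ 0 := fun h => hxL ((mem_pp τ hτ x).2 h)
    rw [e2, e3]
    field_simp

theorem t3_D_analytic (τ : ℂ) (hτ : 0 < τ.im) (s b : ℂ) (x : ℂ) : AnalyticAt ℂ (t3_D τ hτ s b) x := by
  by_cases hx : x ∈ (MSP.pp τ hτ).lattice
  · have h0 := t3_D_zero τ hτ s b
    have h1 : AnalyticAt ℂ (fun y => t3_D τ hτ s b (y - x)) x := by
      have h2 : AnalyticAt ℂ (t3_D τ hτ s b) ((fun y : ℂ => y - x) x) := by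
        simpa using h0
      exact h2.comp (f := fun y : ℂ => y - x) (by fun_prop)
    refine h1.congr (Eventually.of_forall fun y => ?_)
    have := t3_D_add τ hτ s b (y - x) ⟨x, hx⟩
    simp only [sub_add_cancel] at this
    exact this.symm
  · exact t3_D_off τ hτ s b x hx

theorem t3_f_eq_zero (τ : ℂ) (hτ : 0 < τ.im) (s a b : ℂ) (ha : th τ a ≠ 0) (hb : th τ b ≠ 0) :
    t3_f τ s b a = 0 := by
  have hd : Differentiable ℂ (t3_D τ hτ s b) := fun x => (t3_D_analytic τ hτ s b x).differentiableAt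
  have h1 : t3_D τ hτ s b a = t3_D τ hτ s b b :=
    hd.apply_eq_apply_of_bounded (IsZLattice.isCompact_range_of_periodic (MSP.pp τ hτ).lattice _
      hd.continuous fun z w hw => by
        have := t3_D_add τ hτ s b z ⟨w, hw⟩
        exact this).isBounded a b
  have h2 : t3_f τ s b b = 0 := by
    unfold t3_f
    simp only [sub_self, t3_th_zero, mul_zero, add_zero]
  unfold t3_D at h1
  rw [if_neg (fun h => ha ((mem_pp τ hτ a).1 h)), if_neg (fun h => hb ((mem_pp τ hτ b).1 h)), h2,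
    zero_div, div_eq_zero_iff] at h1
  rcases h1 with h | h
  · exact h
  · exact absurd h (pow_ne_zero 2 ha)

/-- T3a. PROOF. Fix `b` with `th b ≠ 0` and let `f(a) = N2(a) th(b)² - N2(b) th(a)² + th'(0)² th(a+b) th(a-b)`. It is entire, `f(a + m + nτ) = au(a)² f(a)`
(`N2_shift`, `N0_shift`, `au(a+b) au(a-b) = au(a)²`), `f(-a) = f(a)` (`th_neg`), `f(0) = 0` (`N2(0) = th'(0)²`), so `f` has a double zero at `0`, and
`f / th²` has removable singularities at the lattice points, is entire and doubly periodic, hence constant (bounded; compare P/T7_Wp for the technique). It vanishes at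
`a = b`. So `f = 0`; divide by `th(a)² th(b)²`. -/
theorem wp_diff (τ : ℂ) (hτ : 0 < τ.im) (s a b : ℂ) (ha : th τ a ≠ 0) (hb : th τ b ≠ 0) :
    wp τ s a - wp τ s b = -(deriv (th τ) 0) ^ 2 * th τ (a + b) * th τ (a - b) / (th τ a ^ 2 * th τ b ^ 2) := by
  have h := t3_f_eq_zero τ hτ s a b ha hb
  unfold t3_f at h
  unfold wp N0
  rw [div_sub_div _ _ (pow_ne_zero 2 ha) (pow_ne_zero 2 hb)]
  congr 1
  linear_combination h

end Pool.Agent.MSK
end

end

section

/-! # K/T3b_Half: half periods -/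

open Complex

noncomputable section

namespace Pool.Agent.MSK

open MSD MSP

variable {d : ℕ}

theorem t3b_wp_neg (τ s t : ℂ) : wp τ s (-t) = wp τ s t := by
  unfold wp N0
  rw [t3_N2_neg, th_neg, neg_sq]

theorem t3b_ne (τ : ℂ) (hτ : 0 < τ.im) (m n : ℤ) (h : Odd m ∨ Odd n) : th τ ((m + n * τ) / 2) ≠ 0 := by
  intro h0
  obtain ⟨m', n', e⟩ := (th_eq_zero_iff τ hτ _).1 h0
  have e1 : ((m - 2 * m' : ℤ) : ℂ) + ((n - 2 * n' : ℤ) : ℂ) * τ = 0 := by
    push_cast
    linear_combination 2 * e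
  have him := congrArg Complex.im e1
  simp only [add_im, intCast_im, mul_im, intCast_re, zero_mul, add_zero, zero_add, zero_im] at him
  have hn : ((n - 2 * n' : ℤ) : ℝ) = 0 := by
    rcases mul_eq_zero.1 him with h' | h'
    · exact h'
    · exact absurd h' hτ.ne'
  have hn' : n - 2 * n' = 0 := by exact_mod_cast hn
  rw [hn'] at e1
  simp only [Int.cast_zero, zero_mul, add_zero] at e1
  have hm' : m - 2 * m' = 0 := by exact_mod_cast e1
  rcases h with h | h
  · obtain ⟨k, hk⟩ := h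
    omega
  · obtain ⟨k, hk⟩ := h
    omega

/-- T3b' the general form: `h = (m + nτ)/2` not in the lattice -/
theorem wp_half' (τ : ℂ) (hτ : 0 < τ.im) (m n : ℤ) (hh : th τ ((m + n * τ) / 2) ≠ 0) :
    deriv (wp τ (sE τ)) ((m + n * τ) / 2) = 0 := by
  set h : ℂ := (m + n * τ) / 2 with hdef
  have h1 : (fun t : ℂ => wp τ (sE τ) (h - t)) = fun t : ℂ => wp τ (sE τ) (h + t) := by
    funext t
    rw [← t3b_wp_neg, ← t7_wp_add τ hτ (sE τ) m n]
    congr 1
    rw [hdef]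
    ring
  have h2 : deriv (fun t : ℂ => wp τ (sE τ) (h - t)) 0 = -deriv (wp τ (sE τ)) (h - 0) :=
    deriv_comp_const_sub (f := wp τ (sE τ)) h 0
  have h3 : deriv (fun t : ℂ => wp τ (sE τ) (h + t)) 0 = deriv (wp τ (sE τ)) (h + 0) :=
    deriv_comp_const_add (f := wp τ (sE τ)) h 0
  rw [h1, h3, sub_zero, add_zero] at h2
  exact self_eq_neg.1 h2

/-- T3b. PROOF. `wp` is even and has the period `2h`, so `wp(h + t) = wp(-h - t) = wp(h - t)`; the derivative at `t = 0` is zero. `h` is not in the lattice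
(`th_eq_zero_iff`). -/
theorem wp_half (τ : ℂ) (hτ : 0 < τ.im) (h : ℂ) (hh : h = 1 / 2 ∨ h = τ / 2 ∨ h = (1 + τ) / 2) :
    th τ h ≠ 0 ∧ deriv (wp τ (sE τ)) h = 0 := by
  obtain ⟨m, n, hmn, e⟩ : ∃ m n : ℤ, (Odd m ∨ Odd n) ∧ h = (m + n * τ) / 2 := by
    rcases hh with h' | h' | h'
    · exact ⟨1, 0, Or.inl odd_one, by rw [h']; push_cast; ring⟩
    · exact ⟨0, 1, Or.inr odd_one, by rw [h']; push_cast; ring⟩
    · exact ⟨1, 1, Or.inl odd_one, by rw [h']; push_cast; ring⟩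
  have h1 := t3b_ne τ hτ m n hmn
  rw [e]
  exact ⟨h1, wp_half' τ hτ m n h1⟩

theorem t3b_diff (τ : ℂ) (hτ : 0 < τ.im) (s a b : ℂ) (ha : th τ a ≠ 0) (hb : th τ b ≠ 0)
    (h1 : th τ (a + b) ≠ 0) (h2 : th τ (a - b) ≠ 0) : wp τ s a ≠ wp τ s b := by
  intro h
  have h3 := wp_diff τ hτ s a b ha hb
  rw [h, sub_self] at h3
  have h4 : -(deriv (th τ) 0) ^ 2 * th τ (a + b) * th τ (a - b) / (th τ a ^ 2 * th τ b ^ 2) ≠ 0 :=
    div_ne_zero (mul_ne_zero (mul_ne_zero (neg_ne_zero.2 (pow_ne_zero 2 (deriv_th_zero_ne τ hτ))) h1) h2)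
      (mul_ne_zero (pow_ne_zero 2 ha) (pow_ne_zero 2 hb))
  exact h4 h3.symm

theorem t3b_cubic {g k a b c x : ℂ} (ha : 4 * a ^ 3 - g * a - k = 0) (hb : 4 * b ^ 3 - g * b - k = 0)
    (hc : 4 * c ^ 3 - g * c - k = 0) (hx : 4 * x ^ 3 - g * x - k = 0) (hab : a ≠ b) (hac : a ≠ c) (hbc : b ≠ c) :
    a = x ∨ b = x ∨ c = x := by
  by_cases hxa : a = x
  · exact Or.inl hxa
  by_cases hxb : b = x
  · exact Or.inr (Or.inl hxb)
  refine Or.inr (Or.inr ?_)
  have e1 : 4 * (a ^ 2 + a * b + b ^ 2) - g = 0 := by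
    have : (a - b) * (4 * (a ^ 2 + a * b + b ^ 2) - g) = 0 := by linear_combination ha - hb
    exact (mul_eq_zero.1 this).resolve_left (sub_ne_zero.2 hab)
  have e2 : 4 * (a ^ 2 + a * c + c ^ 2) - g = 0 := by
    have : (a - c) * (4 * (a ^ 2 + a * c + c ^ 2) - g) = 0 := by linear_combination ha - hc
    exact (mul_eq_zero.1 this).resolve_left (sub_ne_zero.2 hac)
  have e3 : 4 * (a ^ 2 + a * x + x ^ 2) - g = 0 := by
    have : (a - x) * (4 * (a ^ 2 + a * x + x ^ 2) - g) = 0 := by linear_combination ha - hx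
    exact (mul_eq_zero.1 this).resolve_left (sub_ne_zero.2 hxa)
  have e4 : a + b + c = 0 := by
    have : (b - c) * (a + b + c) = 0 := by linear_combination (e1 - e2) / 4
    exact (mul_eq_zero.1 this).resolve_left (sub_ne_zero.2 hbc)
  have e5 : a + b + x = 0 := by
    have : (b - x) * (a + b + x) = 0 := by linear_combination (e1 - e3) / 4
    exact (mul_eq_zero.1 this).resolve_left (sub_ne_zero.2 hxb)
  linear_combination e4 - e5

/-- T3c. PROOF. By `wp_ode` and T3b the three numbers `e_i = wp h_i` (`h_i = 1/2, τ/2, (1+τ)/2`) are roots of the cubic polynomial; they are different by `wp_diff`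
(`h_i ± h_j` is not in the lattice, `deriv_th_zero_ne`). A cubic polynomial has at most three roots. -/
theorem half_root (τ : ℂ) (hτ : 0 < τ.im) (x : ℂ)
    (hx : 4 * x ^ 3 - 4 / 3 * Real.pi ^ 4 * e4 τ * x - 8 / 27 * Real.pi ^ 6 * e6 τ = 0) :
    ∃ h : ℂ, (h = 1 / 2 ∨ h = τ / 2 ∨ h = (1 + τ) / 2) ∧ wp τ (sE τ) h = x := by
  have hr : ∀ h : ℂ, (h = 1 / 2 ∨ h = τ / 2 ∨ h = (1 + τ) / 2) →
      4 * wp τ (sE τ) h ^ 3 - 4 / 3 * Real.pi ^ 4 * e4 τ * wp τ (sE τ) h - 8 / 27 * Real.pi ^ 6 * e6 τ = 0 := by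
    intro h hh
    obtain ⟨h1, h2⟩ := wp_half τ hτ h hh
    rw [← wp_ode τ hτ h h1, h2]
    ring
  have r1 := hr (1 / 2) (Or.inl rfl)
  have r2 := hr (τ / 2) (Or.inr (Or.inl rfl))
  have r3 := hr ((1 + τ) / 2) (Or.inr (Or.inr rfl))
  have n1 := (wp_half τ hτ (1 / 2) (Or.inl rfl)).1
  have n2 := (wp_half τ hτ (τ / 2) (Or.inr (Or.inl rfl))).1
  have n3 := (wp_half τ hτ ((1 + τ) / 2) (Or.inr (Or.inr rfl))).1
  have d12 : wp τ (sE τ) (1 / 2) ≠ wp τ (sE τ) (τ / 2) := by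
    refine t3b_diff τ hτ _ _ _ n1 n2 ?_ ?_
    · have := t3b_ne τ hτ 1 1 (Or.inl odd_one)
      convert this using 2
      push_cast
      ring
    · have := t3b_ne τ hτ 1 (-1) (Or.inl odd_one)
      convert this using 2
      push_cast
      ring
  have d13 : wp τ (sE τ) (1 / 2) ≠ wp τ (sE τ) ((1 + τ) / 2) := by
    refine t3b_diff τ hτ _ _ _ n1 n3 ?_ ?_
    · have := t3b_ne τ hτ 2 1 (Or.inr odd_one)
      convert this using 2
      push_cast
      ring
    · have := t3b_ne τ hτ 0 (-1) (Or.inr (by decide))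
      convert this using 2
      push_cast
      ring
  have d23 : wp τ (sE τ) (τ / 2) ≠ wp τ (sE τ) ((1 + τ) / 2) := by
    refine t3b_diff τ hτ _ _ _ n2 n3 ?_ ?_
    · have := t3b_ne τ hτ 1 2 (Or.inl odd_one)
      convert this using 2
      push_cast
      ring
    · have := t3b_ne τ hτ (-1) 0 (Or.inl (by decide))
      convert this using 2
      push_cast
      ring
  rcases t3b_cubic r1 r2 r3 hx d12 d13 d23 with h | h | h
  · exact ⟨1 / 2, Or.inl rfl, h⟩
  · exact ⟨τ / 2, Or.inr (Or.inl rfl), h⟩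
  · exact ⟨(1 + τ) / 2, Or.inr (Or.inr rfl), h⟩

end Pool.Agent.MSK
end

end

section

/-! # K/A1_Deriv: derivatives along lines and the differential ring -/

open Complex MvPolynomial

noncomputable section

namespace Pool.Agent.MSK

open MSD MSP

variable {d : ℕ}

theorem tt_smul (z ζ : ℂ) (v : Fin d → ℂ) (l : Fin (d + 1)) : tt z (fun j => ζ * v j) l = ζ * tt z v l := by
  unfold tt
  refine Fin.cases ?_ (fun j => ?_) l
  · rw [Fin.cons_zero, Fin.cons_zero, mul_neg, Finset.mul_sum]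
    congr 1
    exact Finset.sum_congr rfl fun j _ => by ring
  · rw [Fin.cons_succ, Fin.cons_succ]

theorem tt_add (z : ℂ) (v w : Fin d → ℂ) (l : Fin (d + 1)) : tt z (fun j => v j + w j) l = tt z v l + tt z w l := by
  unfold tt
  refine Fin.cases ?_ (fun j => ?_) l
  · rw [Fin.cons_zero, Fin.cons_zero, Fin.cons_zero, ← neg_add, ← Finset.sum_add_distrib]
    congr 1
    exact Finset.sum_congr rfl fun j _ => by ring
  · rw [Fin.cons_succ, Fin.cons_succ, Fin.cons_succ]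

/-- the defining relation of `V` -/
theorem tt_rel (z : ℂ) (v : Fin d → ℂ) : ∑ l : Fin (d + 1), z ^ l.val * tt z v l = 0 := by
  unfold tt
  rw [Fin.sum_univ_succ]
  simp only [Fin.cons_zero, Fin.cons_succ, Fin.val_zero, pow_zero, one_mul, Fin.val_succ]
  exact neg_add_cancel _

theorem a1_tt_succ (z : ℂ) (v : Fin d → ℂ) (j : Fin d) : tt z v j.succ = v j := by
  unfold tt
  rw [Fin.cons_succ]

theorem a1_tt_zero (z : ℂ) (l : Fin (d + 1)) : tt z (fun _ : Fin d => (0 : ℂ)) l = 0 := by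
  have h := tt_smul z 0 (fun _ : Fin d => (0 : ℂ)) l
  simpa using h

theorem a1_As_smul (P : Par d) (s ζ : ℂ) (w : Fin d → ℂ) (j : Fin d) :
    As P s (fun i => ζ * w i) j = ζ * As P s w j := by
  unfold As
  rw [tt_smul, tt_smul, tt_smul]
  ring

theorem ev_zero (P : Par d) (D : Dt d) (a : Fin d → ℤ) : ev P D a 0 = vals P D := by
  funext v
  cases v with
  | X l => simp only [ev, vals, zero_mul]
  | Y l => simp only [ev, vals, zero_mul]
  | Q j =>
    simp only [ev, vals, zero_mul]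
    unfold Xi
    have h1 : As P D.s (fun _ : Fin d => (0 : ℂ)) j = 0 := by
      unfold As
      rw [a1_tt_zero, a1_tt_zero, a1_tt_zero]
      ring
    have h2 : ∀ l, D.ps l 0 = 0 := by
      intro l
      unfold Dt.ps
      rw [add_zero, sub_self]
    rw [h1, h2, h2, h2]
    ring
  | b l => rfl
  | g => rfl
  | k => rfl
  | z => rfl
  | r => rfl

/-- general principle: a derivation and the derivative of the variables -/
theorem a1_main {σ : Type*} (val : ℂ → σ → ℂ) (f : σ → MvPolynomial σ ℤ) (c t : ℂ)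
    (h : ∀ v, HasDerivAt (fun t' => val t' v) (c * MvPolynomial.aeval (val t) (f v)) t) (p : MvPolynomial σ ℤ) :
    HasDerivAt (fun t' => MvPolynomial.aeval (val t') p)
      (c * MvPolynomial.aeval (val t) (MvPolynomial.mkDerivation ℤ f p)) t := by
  induction p using MvPolynomial.induction_on with
  | C a =>
    have e1 : (fun t' => MvPolynomial.aeval (val t') (MvPolynomial.C a : MvPolynomial σ ℤ)) =
        fun _ => ((a : ℤ) : ℂ) := by
      funext t'
      rw [MvPolynomial.aeval_C]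
      simp
    rw [e1, ← MvPolynomial.algebraMap_eq, Derivation.map_algebraMap, map_zero, mul_zero]
    exact hasDerivAt_const t _
  | add p q hp hq =>
    have e1 : (fun t' => MvPolynomial.aeval (val t') (p + q)) =
        fun t' => MvPolynomial.aeval (val t') p + MvPolynomial.aeval (val t') q := by
      funext t'
      rw [map_add]
    rw [e1, map_add, map_add, mul_add]
    exact hp.add hq
  | mul_X p v hp =>
    have e1 : (fun t' => MvPolynomial.aeval (val t') (p * MvPolynomial.X v)) =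
        fun t' => MvPolynomial.aeval (val t') p * val t' v := by
      funext t'
      rw [map_mul, MvPolynomial.aeval_X]
    rw [e1, Derivation.leibniz, MvPolynomial.mkDerivation_X, map_add, smul_eq_mul, smul_eq_mul, map_mul, map_mul,
      MvPolynomial.aeval_X]
    have h3 := hp.fun_mul (h v)
    have e2 : c * (MvPolynomial.aeval (val t) p * MvPolynomial.aeval (val t) (f v) +
        val t v * MvPolynomial.aeval (val t) (MvPolynomial.mkDerivation ℤ f p)) =
        c * MvPolynomial.aeval (val t) (MvPolynomial.mkDerivation ℤ f p) * val t v +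
        MvPolynomial.aeval (val t) p * (c * MvPolynomial.aeval (val t) (f v)) := by ring
    rw [e2]
    exact h3

theorem a1_ca (P : Par d) (D : Dt d) (a : Fin d → ℤ) (ζ : ℂ) (l : Fin (d + 1)) :
    MvPolynomial.aeval (ev P D a ζ) (ca a l) = tt P.z (fun j => (a j : ℂ)) l := by
  unfold ca tt
  refine Fin.cases ?_ (fun j => ?_) l
  · rw [Fin.cons_zero, Fin.cons_zero, map_neg, map_sum]
    congr 1
    refine Finset.sum_congr rfl fun j _ => ?_
    rw [map_mul, map_pow, MvPolynomial.aeval_X, MvPolynomial.aeval_C]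
    rfl
  · rw [Fin.cons_succ, Fin.cons_succ, MvPolynomial.aeval_C]
    rfl

theorem a1_X (D : Dt d) (l : Fin (d + 1)) (u ζ : ℂ) (h : th D.τ (D.h l + ζ * u) ≠ 0) :
    HasDerivAt (fun ζ' => D.X l (ζ' * u)) (D.om * (u * D.Y l (ζ * u))) ζ := by
  have h0 := D.ne
  have h1 : HasDerivAt (fun ζ' : ℂ => D.h l + ζ' * u) u ζ := by
    simpa using ((hasDerivAt_id ζ).mul_const u).const_add (D.h l)
  have h2 := (wp_analyticAt D.τ (sE D.τ) D.im _ h).differentiableAt.hasDerivAt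
  have h3 := (h2.comp ζ h1).div_const (D.om ^ 2)
  have e : D.om * (u * D.Y l (ζ * u)) = deriv (wp D.τ (sE D.τ)) (D.h l + ζ * u) * u / D.om ^ 2 := by
    unfold Dt.Y
    field_simp
  rw [e]
  exact h3

theorem a1_Y (D : Dt d) (l : Fin (d + 1)) (u ζ : ℂ) (h : th D.τ (D.h l + ζ * u) ≠ 0) :
    HasDerivAt (fun ζ' => D.Y l (ζ' * u))
      (D.om * (u * (6 * D.X l (ζ * u) ^ 2 - 2 / 3 * Real.pi ^ 4 * e4 D.τ / D.om ^ 4))) ζ := by
  have h0 := D.ne
  have h1 : HasDerivAt (fun ζ' : ℂ => D.h l + ζ' * u) u ζ := by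
    simpa using ((hasDerivAt_id ζ).mul_const u).const_add (D.h l)
  have h2 := wp_ode2 D.τ D.im _ h
  have h3 := (h2.comp ζ h1).div_const (D.om ^ 3)
  have e : D.om * (u * (6 * D.X l (ζ * u) ^ 2 - 2 / 3 * Real.pi ^ 4 * e4 D.τ / D.om ^ 4)) =
      (6 * wp D.τ (sE D.τ) (D.h l + ζ * u) ^ 2 - 2 / 3 * Real.pi ^ 4 * MSD.e4 D.τ) * u / D.om ^ 3 := by
    unfold Dt.X
    field_simp
  rw [e]
  exact h3

theorem a1_ps (D : Dt d) (l : Fin (d + 1)) (u ζ : ℂ) (h : th D.τ (D.h l + ζ * u) ≠ 0) :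
    HasDerivAt (fun ζ' => D.ps l (ζ' * u)) (-(D.om ^ 2 * D.X l (ζ * u) + sE D.τ) * u) ζ := by
  have h0 := D.ne
  have h1 : HasDerivAt (fun ζ' : ℂ => D.h l + ζ' * u) u ζ := by
    simpa using ((hasDerivAt_id ζ).mul_const u).const_add (D.h l)
  have h2 := hasDerivAt_ph D.τ (sE D.τ) D.im _ h
  have h3 := (h2.comp ζ h1).sub_const (ph D.τ (D.h l))
  have e : D.om ^ 2 * D.X l (ζ * u) = wp D.τ (sE D.τ) (D.h l + ζ * u) := by
    unfold Dt.X
    field_simp
  rw [e]
  exact h3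

/-- A1a. PROOF. As in `a3_main` (file P/A3_Eval; the proof there works for every index type) it suffices to treat the variables:
`d/dζ X_l = tt_l(a) wp'(..)/om² = om · tt_l(a) Y_l`; `d/dζ Y_l = tt_l(a) (6 wp² - (2/3)π⁴ e4)/om³ = om · tt_l(a) (6 X_l² - g)` (`wp_ode2`);
`d/dζ ps_l = - tt_l(a) (wp + sE)` (`hasDerivAt_ph` with `s = sE τ`), so with `rh (kap - sE/om²) = s` the derivative of `Xi_j` is
`om (a_j + s(..)) + (rh/om) (tt_{j-1}(a)(wp + sE) + b_j tt_d(a) (wp + sE) - z tt_j(a) (wp + sE)) = om (a_j + rh (tt_{j-1}(a)(X_{j-1} + kap) + ...))`, which is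
`om · aeval (dv a (Q j))` (`As` is linear, `tt z a j.succ = a j`, the polynomials `ca a l` have the value `tt z a l`). -/
theorem hasDerivAt_ev (P : Par d) (D : Dt d) (a : Fin d → ℤ) (ζ : ℂ)
    (h : ∀ l, th D.τ (D.h l + ζ * tt P.z (fun j => (a j : ℂ)) l) ≠ 0) (p : MvPolynomial (Vr d) ℤ) :
    HasDerivAt (fun ζ' => MvPolynomial.aeval (ev P D a ζ') p) (D.om * MvPolynomial.aeval (ev P D a ζ) (der a p)) ζ := by
  refine a1_main (ev P D a) (dv a) D.om ζ (fun v => ?_) p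
  have h0 := D.ne
  cases v with
  | X l =>
    have e : MvPolynomial.aeval (ev P D a ζ) (dv a (Vr.X l)) =
        tt P.z (fun j => (a j : ℂ)) l * D.Y l (ζ * tt P.z (fun j => (a j : ℂ)) l) := by
      simp only [dv, map_mul, a1_ca, MvPolynomial.aeval_X]
      rfl
    rw [e]
    exact a1_X D l _ ζ (h l)
  | Y l =>
    have e : MvPolynomial.aeval (ev P D a ζ) (dv a (Vr.Y l)) =
        tt P.z (fun j => (a j : ℂ)) l * (6 * D.X l (ζ * tt P.z (fun j => (a j : ℂ)) l) ^ 2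
          - 2 / 3 * Real.pi ^ 4 * e4 D.τ / D.om ^ 4) := by
      simp only [dv, map_mul, map_sub, map_pow, a1_ca, MvPolynomial.aeval_X, map_ofNat]
      rfl
    rw [e]
    exact a1_Y D l _ ζ (h l)
  | Q j =>
    have hc := a1_ps D j.castSucc _ ζ (h j.castSucc)
    have hl := a1_ps D (Fin.last d) _ ζ (h (Fin.last d))
    have hs := a1_ps D j.succ _ ζ (h j.succ)
    have h1 : HasDerivAt (fun ζ' : ℂ => D.om * As P D.s (fun i => ζ' * (a i : ℂ)) j)
        (D.om * As P D.s (fun i => (a i : ℂ)) j) ζ := by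
      have e : (fun ζ' : ℂ => D.om * As P D.s (fun i => ζ' * (a i : ℂ)) j) =
          fun ζ' => D.om * (ζ' * As P D.s (fun i => (a i : ℂ)) j) := by
        funext ζ'
        rw [a1_As_smul]
      rw [e]
      simpa using ((hasDerivAt_id ζ).mul_const (As P D.s (fun i => (a i : ℂ)) j)).const_mul D.om
    have h2 := h1.fun_sub ((((hc.fun_add (hl.const_mul (P.b j.succ : ℂ))).fun_sub (hs.const_mul P.z))).const_mul (rh / D.om))
    have e : D.om * MvPolynomial.aeval (ev P D a ζ) (dv a (Vr.Q j)) =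
        D.om * As P D.s (fun i => (a i : ℂ)) j - rh / D.om *
          (-(D.om ^ 2 * D.X j.castSucc (ζ * tt P.z (fun i => (a i : ℂ)) j.castSucc) + sE D.τ) *
              tt P.z (fun i => (a i : ℂ)) j.castSucc +
            (P.b j.succ : ℂ) * (-(D.om ^ 2 * D.X (Fin.last d) (ζ * tt P.z (fun i => (a i : ℂ)) (Fin.last d)) + sE D.τ) *
              tt P.z (fun i => (a i : ℂ)) (Fin.last d)) -
            P.z * (-(D.om ^ 2 * D.X j.succ (ζ * tt P.z (fun i => (a i : ℂ)) j.succ) + sE D.τ) *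
              tt P.z (fun i => (a i : ℂ)) j.succ)) := by
      have e1 : MvPolynomial.aeval (ev P D a ζ) (dv a (Vr.Q j)) =
          (a j : ℂ) - rh * (-(tt P.z (fun i => (a i : ℂ)) j.castSucc *
              (D.X j.castSucc (ζ * tt P.z (fun i => (a i : ℂ)) j.castSucc) + D.kap))
            - (P.b j.succ : ℂ) * (tt P.z (fun i => (a i : ℂ)) (Fin.last d) *
              (D.X (Fin.last d) (ζ * tt P.z (fun i => (a i : ℂ)) (Fin.last d)) + D.kap))
            + P.z * (tt P.z (fun i => (a i : ℂ)) j.succ *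
              (D.X j.succ (ζ * tt P.z (fun i => (a i : ℂ)) j.succ) + D.kap))) := by
        simp only [dv, map_mul, map_sub, map_add, map_neg, a1_ca, MvPolynomial.aeval_X, MvPolynomial.aeval_C]
        rfl
      rw [e1]
      unfold As Dt.s
      rw [a1_tt_succ]
      field_simp
      ring
    rw [e]
    exact h2
  | b l =>
    simp only [dv, map_zero, mul_zero]
    exact hasDerivAt_const ζ _
  | g =>
    simp only [dv, map_zero, mul_zero]
    exact hasDerivAt_const ζ _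
  | k =>
    simp only [dv, map_zero, mul_zero]
    exact hasDerivAt_const ζ _
  | z =>
    simp only [dv, map_zero, mul_zero]
    exact hasDerivAt_const ζ _
  | r =>
    simp only [dv, map_zero, mul_zero]
    exact hasDerivAt_const ζ _

end Pool.Agent.MSK
end

end

section

/-! # K/C2_Geo: geometry of the lattice -/

open Complex

noncomputable section

namespace Pool.Agent.MSK

open MSD MSP

variable {d : ℕ}

theorem c2g_zrel (P : Par d) : P.z ^ (d + 1) = ∑ l : Fin (d + 1), (P.b l : ℂ) * P.z ^ l.val := P.rel 0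

/-- C2a. PROOF. `d ≥ 1`. With `λ_l = mm b n l + n_l z`: `∑ z^l λ_l = -b_0 n_d + ∑_{j} z^(j+1) (-n_j - b_{j+1} n_d) + ∑ n_l z^(l+1) = n_d (z^(d+1) - ∑ b_l z^l) = 0` (`P.rel 0`), so
`λ_0 = -∑ z^(j+1) λ_{j+1}`. -/
theorem tt_gam (P : Par d) (n : Fin (d + 1) → ℝ) (l : Fin (d + 1)) : tt P.z (gam P n) l = mm P.b n l + n l * P.z := by
  refine Fin.cases ?_ (fun j => ?_) l
  · have hS1 : ∑ l : Fin (d + 1), (n l : ℂ) * P.z ^ (l.val + 1) =
        (n 0 : ℂ) * P.z + ∑ j : Fin d, (n j.succ : ℂ) * P.z ^ (j.val + 2) := by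
      rw [Fin.sum_univ_succ]; simp [add_assoc]
    have hS2 : ∑ l : Fin (d + 1), (n l : ℂ) * P.z ^ (l.val + 1) =
        (∑ j : Fin d, (n j.castSucc : ℂ) * P.z ^ (j.val + 1)) + (n (Fin.last d) : ℂ) * P.z ^ (d + 1) := by
      rw [Fin.sum_univ_castSucc]; simp
    have hz : P.z ^ (d + 1) = (P.b 0 : ℂ) + ∑ j : Fin d, (P.b j.succ : ℂ) * P.z ^ (j.val + 1) := by
      rw [c2g_zrel, Fin.sum_univ_succ]; simp
    have hsum : ∑ j : Fin d, P.z ^ (j.val + 1) * gam P n j =
        -(∑ j : Fin d, (n j.castSucc : ℂ) * P.z ^ (j.val + 1)) -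
          (n (Fin.last d) : ℂ) * (∑ j : Fin d, (P.b j.succ : ℂ) * P.z ^ (j.val + 1)) +
          ∑ j : Fin d, (n j.succ : ℂ) * P.z ^ (j.val + 2) := by
      rw [Finset.mul_sum, ← Finset.sum_neg_distrib, ← Finset.sum_sub_distrib, ← Finset.sum_add_distrib]
      refine Finset.sum_congr rfl fun j _ => ?_
      simp only [gam, mm, Fin.cons_succ]
      push_cast
      ring
    have h0 : tt P.z (gam P n) 0 = -∑ j : Fin d, P.z ^ (j.val + 1) * gam P n j := rfl
    rw [h0, hsum]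
    simp only [mm, Fin.cons_zero]
    push_cast
    linear_combination (hS1 - hS2) - (n (Fin.last d) : ℂ) * hz
  · rfl

/-- C2b. `nn` and `ro` are real linear; `nn (gam n) = n`, `ro (gam n) = 0`. -/
theorem nn_gam (P : Par d) (n : Fin (d + 1) → ℝ) : nn P (gam P n) = n := by
  have him : P.z.im ≠ 0 := P.im.ne'
  funext l
  unfold nn
  rw [tt_gam]
  simp only [Complex.add_im, Complex.ofReal_im, Complex.mul_im, Complex.ofReal_re, zero_mul, zero_add, add_zero]
  field_simp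

theorem ro_gam (P : Par d) (n : Fin (d + 1) → ℝ) : ro P (gam P n) = 0 := by
  funext l
  unfold ro
  rw [nn_gam, tt_gam]
  simp

theorem nn_add (P : Par d) (v w : Fin d → ℂ) : nn P (v + w) = nn P v + nn P w := by
  funext l
  have : tt P.z (v + w) l = tt P.z v l + tt P.z w l := tt_add P.z v w l
  simp only [nn, Pi.add_apply]
  rw [this, Complex.add_im]; ring

theorem c2g_mm_add (b : Fin (d + 1) → ℚ) (n m : Fin (d + 1) → ℝ) (l : Fin (d + 1)) :
    mm b (n + m) l = mm b n l + mm b m l := by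
  refine Fin.cases ?_ (fun j => ?_) l
  · simp only [mm, Fin.cons_zero, Pi.add_apply]; ring
  · simp only [mm, Fin.cons_succ, Pi.add_apply]; ring

theorem ro_add (P : Par d) (v w : Fin d → ℂ) : ro P (v + w) = ro P v + ro P w := by
  funext l
  have : tt P.z (v + w) l = tt P.z v l + tt P.z w l := tt_add P.z v w l
  simp only [ro, Pi.add_apply]
  rw [this, nn_add, c2g_mm_add, Complex.add_re]
  simp only [Pi.add_apply]
  ring

/-- C2c. PROOF. `v - gam (nn v)` has real coordinates `tt_l = ro v l` (imaginary parts: `Im tt_l (gam n) = n_l Im z`). So `∑ z^l ro_l = 0`, i.e. `ro_0 + z ro_1 = -∑_{l≥2} z^l ro_l`, and taking imaginary and real parts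
`|ro_1|, |ro_0| ≤ C max_{l≥2} |ro_l| ≤ C √P2`. -/
theorem decomp (P : Par d) (v : Fin d → ℂ) (l : Fin (d + 1)) : tt P.z v l = tt P.z (gam P (nn P v)) l + (ro P v l : ℂ) := by
  have him : P.z.im ≠ 0 := P.im.ne'
  rw [tt_gam]
  apply Complex.ext
  · simp only [ro, Complex.add_re, Complex.ofReal_re, Complex.mul_re, Complex.ofReal_im, zero_mul, sub_zero]
    ring
  · simp only [nn, Complex.add_im, Complex.ofReal_im, Complex.mul_im, Complex.ofReal_re, zero_mul, zero_add, add_zero]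
    field_simp

theorem ro_bound (P : Par d) (hd : 2 ≤ d) : ∃ C : ℝ, 1 ≤ C ∧ ∀ v : Fin d → ℂ, ∀ l, |ro P v l| ≤ C * Real.sqrt (P2 P v) := by
  have him : 0 < P.z.im := P.im
  obtain ⟨e, rfl⟩ : ∃ e, d = e + 1 := ⟨d - 1, by omega⟩
  set C0 : ℝ := ∑ l : Fin (e + 1 + 1), ‖P.z‖ ^ l.val with hC0
  have hC0n : 0 ≤ C0 := Finset.sum_nonneg fun _ _ => by positivity
  refine ⟨1 + C0 + C0 / P.z.im + ‖P.z‖ * (C0 / P.z.im), ?_, ?_⟩
  · have : 0 ≤ C0 / P.z.im := by positivity
    have h2 : 0 ≤ ‖P.z‖ * (C0 / P.z.im) := by positivity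
    linarith
  intro v l
  set S := Real.sqrt (P2 P v) with hS
  have hSn : 0 ≤ S := Real.sqrt_nonneg _
  have hge : ∀ l : Fin (e + 1 + 1), 2 ≤ l.val → |ro P v l| ≤ S := by
    intro l hl
    apply Real.abs_le_sqrt
    have := Finset.single_le_sum (f := fun l : Fin (e + 1 + 1) => if 2 ≤ l.val then ro P v l ^ 2 else 0)
      (fun i _ => by positivity) (Finset.mem_univ l)
    simpa [hl, P2] using this
  have hrel : ∑ l : Fin (e + 1 + 1), P.z ^ l.val * (ro P v l : ℂ) = 0 := by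
    have h1 := tt_rel P.z v
    have h2 := tt_rel P.z (gam P (nn P v))
    have h3 : ∑ l : Fin (e + 1 + 1), P.z ^ l.val * (ro P v l : ℂ) =
        ∑ l : Fin (e + 1 + 1), P.z ^ l.val * tt P.z v l - ∑ l : Fin (e + 1 + 1), P.z ^ l.val * tt P.z (gam P (nn P v)) l := by
      rw [← Finset.sum_sub_distrib]
      refine Finset.sum_congr rfl fun l _ => ?_
      rw [decomp P v l]; ring
    rw [h3, h1, h2, sub_zero]
  rw [Fin.sum_univ_succ, Fin.sum_univ_succ] at hrel
  set E : ℂ := ∑ i : Fin e, P.z ^ i.succ.succ.val * (ro P v i.succ.succ : ℂ) with hE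
  have hEn : ‖E‖ ≤ C0 * S := by
    calc ‖E‖ ≤ ∑ i : Fin e, ‖P.z ^ i.succ.succ.val * (ro P v i.succ.succ : ℂ)‖ := norm_sum_le _ _
      _ ≤ ∑ i : Fin e, ‖P.z‖ ^ i.succ.succ.val * S := by
          refine Finset.sum_le_sum fun i _ => ?_
          rw [norm_mul, norm_pow, Complex.norm_real, Real.norm_eq_abs]
          exact mul_le_mul_of_nonneg_left (hge _ (by simp)) (by positivity)
      _ = (∑ i : Fin e, ‖P.z‖ ^ i.succ.succ.val) * S := by rw [Finset.sum_mul]
      _ ≤ C0 * S := by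
          apply mul_le_mul_of_nonneg_right _ hSn
          rw [hC0, Fin.sum_univ_succ, Fin.sum_univ_succ]
          have : 0 ≤ ‖P.z‖ ^ (0 : Fin (e + 1 + 1)).val := by positivity
          have : 0 ≤ ‖P.z‖ ^ (Fin.succ (0 : Fin (e + 1))).val := by positivity
          linarith
  have hrel' : (ro P v 0 : ℂ) + P.z * (ro P v (Fin.succ 0) : ℂ) = -E := by
    have h0 : P.z ^ (0 : Fin (e + 1 + 1)).val = 1 := by simp
    have h1 : P.z ^ (Fin.succ (0 : Fin (e + 1))).val = P.z := by simp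
    rw [h0, h1] at hrel
    linear_combination hrel
  have hb : |ro P v (Fin.succ 0)| ≤ C0 / P.z.im * S := by
    have h1 := congrArg Complex.im hrel'
    simp only [Complex.add_im, Complex.ofReal_im, Complex.mul_im, Complex.ofReal_re, mul_zero, zero_add, Complex.neg_im] at h1
    have h2 : |ro P v (Fin.succ 0)| * P.z.im ≤ C0 * S := by
      rw [← abs_of_pos him, ← abs_mul]
      calc |ro P v (Fin.succ 0) * P.z.im| = |-E.im| := by rw [← h1]; ring_nf
        _ = |E.im| := abs_neg _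
        _ ≤ ‖E‖ := Complex.abs_im_le_norm _
        _ ≤ _ := hEn
    rw [div_mul_eq_mul_div, le_div_iff₀ him]
    exact h2
  have ha : |ro P v 0| ≤ C0 * S + ‖P.z‖ * (C0 / P.z.im * S) := by
    have h1 : (ro P v 0 : ℂ) = -E - P.z * (ro P v (Fin.succ 0) : ℂ) := by linear_combination hrel'
    calc |ro P v 0| = ‖(ro P v 0 : ℂ)‖ := by rw [Complex.norm_real, Real.norm_eq_abs]
      _ = ‖-E - P.z * (ro P v (Fin.succ 0) : ℂ)‖ := by rw [h1]
      _ ≤ ‖-E‖ + ‖P.z * (ro P v (Fin.succ 0) : ℂ)‖ := norm_sub_le _ _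
      _ ≤ C0 * S + ‖P.z‖ * (C0 / P.z.im * S) := by
          rw [norm_neg, norm_mul, Complex.norm_real, Real.norm_eq_abs]
          exact add_le_add hEn (mul_le_mul_of_nonneg_left hb (norm_nonneg _))
  have hc1 : 0 ≤ C0 * S := by positivity
  have hc2 : 0 ≤ C0 / P.z.im * S := by positivity
  have hc3 : 0 ≤ ‖P.z‖ * (C0 / P.z.im * S) := by positivity
  have hexp : (1 + C0 + C0 / P.z.im + ‖P.z‖ * (C0 / P.z.im)) * S =
      S + C0 * S + C0 / P.z.im * S + ‖P.z‖ * (C0 / P.z.im * S) := by ring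
  rw [hexp]
  by_cases hl : 2 ≤ l.val
  · have := hge l hl
    linarith
  · have hl' : l = 0 ∨ l = Fin.succ 0 := by
      have : l.val = 0 ∨ l.val = 1 := by omega
      rcases this with h | h
      · left; exact Fin.ext h
      · right; exact Fin.ext (by simpa using h)
    rcases hl' with rfl | rfl
    · linarith
    · linarith

end Pool.Agent.MSK
end

end

section

/-! # K/C4_Shift: the original curve: periodicity -/

open Complex

noncomputable section

namespace Pool.Agent.MSK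

open MSD MSP

variable {d : ℕ}

theorem c4_tele (z : ℂ) (d : ℕ) : ∑ j : Fin d, z ^ (j.val + 1) * ((1 - z) / 2) = (z - z ^ (d + 1)) / 2 := by
  induction d with
  | zero => simp
  | succ d ih =>
    rw [Fin.sum_univ_castSucc]
    simp only [Fin.val_castSucc, Fin.val_last]
    rw [ih]
    ring

/-- C4a. PROOF. `hP` satisfies `∑ z^l hP_l = 0` (telescoping: `-z/2 + ∑_{1≤l<d} z^l (1-z)/2 + z^d/2 = 0`). -/
theorem tt_p0 (z : ℂ) (hd : 1 ≤ d) (l : Fin (d + 1)) : tt z (p0 z) l = hP z l := by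
  refine Fin.cases ?_ (fun j => ?_) l
  · obtain ⟨e, rfl⟩ : ∃ e, d = e + 1 := ⟨d - 1, by omega⟩
    simp only [tt, Fin.cons_zero]
    rw [Fin.sum_univ_castSucc]
    have h1 : ∀ j : Fin e, z ^ ((Fin.castSucc j).val + 1) * p0 (d := e + 1) z (Fin.castSucc j) =
        z ^ (j.val + 1) * ((1 - z) / 2) := by
      intro j
      have h2 : (Fin.castSucc j).succ ≠ Fin.last (e + 1) := by
        intro h
        have h3 := congrArg Fin.val h
        simp only [Fin.val_succ, Fin.val_castSucc, Fin.val_last] at h3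
        have := j.isLt
        omega
      simp only [p0, hP, if_neg (Fin.succ_ne_zero _), if_neg h2, Fin.val_castSucc]
    have h4 : z ^ ((Fin.last e).val + 1) * p0 (d := e + 1) z (Fin.last e) = z ^ (e + 1) * (1 / 2) := by
      have h5 : (Fin.last e).succ = Fin.last (e + 1) := rfl
      have h6 : Fin.last (e + 1) ≠ 0 := by
        rw [← h5]
        exact Fin.succ_ne_zero _
      simp only [p0, hP, h5, if_neg h6, if_true, Fin.val_last]
    rw [Finset.sum_congr rfl fun j _ => h1 j, h4, c4_tele]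
    simp only [hP, if_true]
    ring
  · simp only [tt, Fin.cons_succ, p0]

theorem c4_tt_sub (z : ℂ) (v w : Fin d → ℂ) (l : Fin (d + 1)) :
    tt z (fun j => v j - w j) l = tt z v l - tt z w l := by
  refine Fin.cases ?_ (fun j => ?_) l
  · simp only [tt, Fin.cons_zero, mul_sub, Finset.sum_sub_distrib]
    ring
  · simp only [tt, Fin.cons_succ]

theorem c4_tt_add (z : ℂ) (v w : Fin d → ℂ) (l : Fin (d + 1)) :
    tt z (v + w) l = tt z v l + tt z w l := by
  refine Fin.cases ?_ (fun j => ?_) l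
  · simp only [tt, Fin.cons_zero, Pi.add_apply, mul_add, Finset.sum_add_distrib, neg_add]
  · simp only [tt, Fin.cons_succ, Pi.add_apply]

/-- C4b. `h l + tt (v - p0) l = tt v l` -/
theorem hP_add (z : ℂ) (hd : 1 ≤ d) (v : Fin d → ℂ) (l : Fin (d + 1)) : hP z l + tt z (fun j => v j - p0 z j) l = tt z v l := by
  rw [c4_tt_sub, tt_p0 z hd]
  ring

/-- the shift of the functions of one variable -/
structure C4Sh (P : Par d) (D : Dt d) (t t' : Fin (d + 1) → ℂ) (a : Fin (d + 1) → ℂ) (N : Fin (d + 1) → ℤ) : Prop where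
  n0 : ∀ l, N0 D.τ (D.h l + t' l) = a l * N0 D.τ (D.h l + t l)
  n1 : ∀ l, N1 D.τ (D.h l + t' l) = a l * (N1 D.τ (D.h l + t l) - 2 * Real.pi * I * N l * N0 D.τ (D.h l + t l))
  n2 : ∀ l, N2 D.τ (sE D.τ) (D.h l + t' l) = a l ^ 2 * N2 D.τ (sE D.τ) (D.h l + t l)

theorem C4Sh.pp_eq {P : Par d} {D : Dt d} {t t' a : Fin (d + 1) → ℂ} {N : Fin (d + 1) → ℤ} (h : C4Sh P D t t' a N) :
    pp D t' = (∏ l, a l) * pp D t := by
  unfold pp
  rw [← Finset.prod_mul_distrib]
  exact Finset.prod_congr rfl fun l _ => h.n0 l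

theorem C4Sh.En_eq {P : Par d} {D : Dt d} {t t' a : Fin (d + 1) → ℂ} {N : Fin (d + 1) → ℤ} (h : C4Sh P D t t' a N)
    (l : Fin (d + 1)) : En D t' l = (∏ l, a l) * (En D t l - 2 * Real.pi * I * N l * pp D t) := by
  have h1 : ∏ m ∈ Finset.univ.erase l, N0 D.τ (D.h m + t' m) =
      (∏ m ∈ Finset.univ.erase l, a m) * ∏ m ∈ Finset.univ.erase l, N0 D.τ (D.h m + t m) := by
    rw [← Finset.prod_mul_distrib]
    exact Finset.prod_congr rfl fun l _ => h.n0 l
  have h2 : a l * ∏ m ∈ Finset.univ.erase l, a m = ∏ m, a m := Finset.mul_prod_erase _ _ (Finset.mem_univ l)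
  have h3 : N0 D.τ (D.h l + t l) * ∏ m ∈ Finset.univ.erase l, N0 D.τ (D.h m + t m) = pp D t :=
    Finset.mul_prod_erase Finset.univ (fun m => N0 D.τ (D.h m + t m)) (Finset.mem_univ l)
  unfold En
  rw [h1, h.n1, h.n0, ← h2, ← h3]
  ring

theorem C4Sh.Zn_eq {P : Par d} {D : Dt d} {t t' a : Fin (d + 1) → ℂ} {N : Fin (d + 1) → ℤ} (h : C4Sh P D t t' a N)
    (hs : D.s = 0) (hom : D.om ^ 2 = Real.pi) {w w' : Fin d → ℂ} (j : Fin d)
    (hw : w' j = w j - (N j.castSucc + P.b j.succ * N (Fin.last d)) + N j.succ * P.z) :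
    Zn P D w' t' j = (∏ l, a l) * Zn P D w t j := by
  have hAs : ∀ u : Fin d → ℂ, As P D.s u j = u j := by
    intro u
    unfold As
    rw [hs, zero_mul, add_zero]
    simp only [tt, Fin.cons_succ]
  have hne := D.ne
  have hpi : (Real.pi : ℂ) / D.om = D.om := by
    rw [← hom]
    field_simp
  unfold Zn
  rw [hAs, hAs, h.En_eq, h.En_eq, h.En_eq, h.pp_eq, hw]
  have hI : (I : ℂ) * I = -1 := Complex.I_mul_I
  have e1 : rh / D.om * (2 * Real.pi * I) = D.om := by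
    unfold rh
    have : -I / 2 / D.om * (2 * (Real.pi : ℂ) * I) = -(I * I) * (Real.pi / D.om) := by
      field_simp
    rw [this, hI, hpi]
    ring
  have e2 : ∀ A x0 y0 E1 E2 E3 n1 n2 n3 b zz pq : ℂ,
      D.om * (x0 - (n1 + b * n2) + n3 * zz) * (A * pq) - rh / D.om *
        (A * (E1 - 2 * Real.pi * I * n1 * pq) + b * (A * (E2 - 2 * Real.pi * I * n2 * pq)) -
          zz * (A * (E3 - 2 * Real.pi * I * n3 * pq))) =
      A * (D.om * x0 * pq - rh / D.om * (E1 + b * E2 - zz * E3)) +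
        (rh / D.om * (2 * Real.pi * I) - D.om) * (A * pq * (n1 + b * n2 - zz * n3)) := by
    intro A x0 y0 E1 E2 E3 n1 n2 n3 b zz pq
    ring
  rw [e2 (∏ l, a l) (w j) 0, e1, sub_self, zero_mul, add_zero]

theorem C4Sh.gmon_eq {P : Par d} {D : Dt d} {t t' a : Fin (d + 1) → ℂ} {N : Fin (d + 1) → ℤ} (h : C4Sh P D t t' a N)
    (hs : D.s = 0) (hom : D.om ^ 2 = Real.pi) {w w' : Fin d → ℂ}
    (hw : ∀ j : Fin d, w' j = w j - (N j.castSucc + P.b j.succ * N (Fin.last d)) + N j.succ * P.z)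
    {L : ℕ} (ν : Ix d L) : gmon P D ν w' t' = (∏ l, a l) ^ ((d + 2) * L) * gmon P D ν w t := by
  have h1 : ∏ l, ((N2 D.τ (sE D.τ) (D.h l + t' l) / D.om ^ 2) ^ (ν.1 l).val * N0 D.τ (D.h l + t' l) ^ (2 * (L - (ν.1 l).val))) =
      (∏ l, a l) ^ (2 * L) *
      ∏ l, ((N2 D.τ (sE D.τ) (D.h l + t l) / D.om ^ 2) ^ (ν.1 l).val * N0 D.τ (D.h l + t l) ^ (2 * (L - (ν.1 l).val))) := by
    rw [← Finset.prod_pow, ← Finset.prod_mul_distrib]
    refine Finset.prod_congr rfl fun l _ => ?_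
    rw [h.n0, h.n2, mul_pow, mul_div_assoc, mul_pow, ← pow_mul]
    have e : 2 * L = 2 * (ν.1 l).val + 2 * (L - (ν.1 l).val) := by
      have := (ν.1 l).isLt
      omega
    rw [e, pow_add]
    ring
  have h2 : ∏ j, (Zn P D w' t' j ^ (ν.2 j).val * pp D t' ^ (L - (ν.2 j).val)) =
      (∏ l, a l) ^ (d * L) * ∏ j, (Zn P D w t j ^ (ν.2 j).val * pp D t ^ (L - (ν.2 j).val)) := by
    have e : (∏ l, a l) ^ (d * L) = ∏ _j : Fin d, (∏ l, a l) ^ L := by
      rw [Finset.prod_const, Finset.card_univ, Fintype.card_fin, ← pow_mul, mul_comm]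
    rw [e, ← Finset.prod_mul_distrib]
    refine Finset.prod_congr rfl fun j _ => ?_
    rw [h.Zn_eq hs hom j (hw j), h.pp_eq, mul_pow, mul_pow]
    have e2 : (∏ l, a l) ^ L = (∏ l, a l) ^ (ν.2 j).val * (∏ l, a l) ^ (L - (ν.2 j).val) := by
      rw [← pow_add]
      congr 1
      have := (ν.2 j).isLt
      omega
    rw [e2]
    ring
  unfold gmon
  rw [h1, h2, add_mul, pow_add]
  ring

/-- C4c. PROOF. Let `N_l = q n_l ∈ ℤ`, `m_l = mm b N l ∈ ℤ`, `t = tt z v`, `t' = tt z (v + gam N) = t_l + m_l + N_l z` (`tt_gam`). By `N0_shift, N1_shift, N2_shift` with `au_l = au z m_l N_l t_l` (`τ = z`): `N0' = au_l N0`,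
`N1' = au_l (N1 - 2πi N_l N0)`, `N2' = au_l² N2`. So `pp' = (∏ au) pp`, `En'_l = (∏ au)(En_l - 2πi N_l pp)`; as `kap = sE/om²`, `D.s = 0` and `As P 0 w j = w_j`:
`Zn'_j = (∏ au) (Zn_j + pp (om γ_j + (rh/om) 2πi (N_{j-1} + b_j N_d - z N_j)))`, `γ_j = m_j + N_j z`, `m_j = -N_{j-1} - b_j N_d`, and `(rh/om) 2πi = π/om = om`: the bracket is `0`. So `gmon' = (∏ au)^((d+2)L) gmon`. Finally
`‖au_l‖ = exp(π N_l² Im z + 2π N_l Im t_l)` (`norm_au`) `= exp(π ((Im t'_l)² - (Im t_l)²)/Im z)` and `P2` is invariant (`ro_add, ro_gam`). -/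
theorem Nn_shift (P : Par d) (hd : 2 ≤ d) (D : Dt d) (hD : IsOrig P D) (q : ℕ) (hq : ∀ l, ∃ m : ℤ, (q : ℚ) * P.b l = m) {L : ℕ} (c : Ix d L → ℂ)
    (n : Fin (d + 1) → ℤ) (v : Fin d → ℂ) :
    Nn P ((d + 2) * L) (Gab P D c) (v + gam P (fun l => (q : ℝ) * n l)) = Nn P ((d + 2) * L) (Gab P D c) v := by
  choose β hβ using hq
  have hβR : ∀ l, (P.b l : ℝ) * q = β l := by
    intro l
    have h := congrArg (fun x : ℚ => (x : ℝ)) (hβ l)
    push_cast at h
    linarith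
  -- the integer vectors
  obtain ⟨N, hN⟩ : ∃ N : Fin (d + 1) → ℤ, N = fun l => (q : ℤ) * n l := ⟨_, rfl⟩
  obtain ⟨m, hm⟩ : ∃ m : Fin (d + 1) → ℤ, ∀ l, mm P.b (fun l => (q : ℝ) * n l) l = (m l : ℝ) := by
    refine ⟨Fin.cons (-β 0 * n (Fin.last d)) (fun j => -(q * n j.castSucc) - β j.succ * n (Fin.last d)), fun l => ?_⟩
    refine Fin.cases ?_ (fun j => ?_) l
    · simp only [mm, Fin.cons_zero]
      push_cast
      rw [← hβR 0]
      ring
    · simp only [mm, Fin.cons_succ]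
      push_cast
      rw [← hβR j.succ]
      ring
  obtain ⟨g, hg⟩ : ∃ g : Fin d → ℂ, g = gam P (fun l => (q : ℝ) * n l) := ⟨_, rfl⟩
  have htg : ∀ l, tt P.z g l = m l + N l * P.z := by
    intro l
    rw [hg, tt_gam, hm l, hN]
    push_cast
    ring
  rw [← hg]
  obtain ⟨t, ht⟩ : ∃ t : Fin (d + 1) → ℂ, t = tt P.z v := ⟨_, rfl⟩
  have ht' : ∀ l, tt P.z (v + g) l = t l + m l + N l * P.z := by
    intro l
    rw [c4_tt_add, htg, ht]
    ring
  have hz : 0 < P.z.im := P.im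
  have hd1 : 1 ≤ d := by omega
  have harg : ∀ (u : Fin d → ℂ) (l : Fin (d + 1)), D.h l + tt P.z (fun j => u j - p0 P.z j) l = tt P.z u l := by
    intro u l
    rw [hD.h]
    exact hP_add P.z hd1 u l
  have hSh : C4Sh P D (tt P.z (fun j => v j - p0 P.z j)) (tt P.z (fun j => (v + g) j - p0 P.z j))
      (fun l => au P.z (m l) (N l) (t l)) N := by
    refine ⟨fun l => ?_, fun l => ?_, fun l => ?_⟩
    · rw [harg, harg, ht', hD.τ, ← ht]
      exact N0_shift P.z hz (m l) (N l) (t l)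
    · rw [harg, harg, ht', hD.τ, ← ht]
      exact N1_shift P.z hz (m l) (N l) (t l)
    · rw [harg, harg, ht', hD.τ, ← ht]
      exact N2_shift P.z (sE P.z) hz (m l) (N l) (t l)
  have hs : D.s = 0 := by
    unfold Dt.s
    rw [hD.kap, hD.om, hD.τ, sub_self, mul_zero]
  have hw : ∀ j : Fin d, (fun j => (v + g) j - p0 P.z j) j = (fun j => v j - p0 P.z j) j -
      (N j.castSucc + P.b j.succ * N (Fin.last d)) + N j.succ * P.z := by
    intro j
    have h1 : g j = m j.succ + N j.succ * P.z := by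
      have h2 := htg j.succ
      simp only [tt, Fin.cons_succ] at h2
      exact h2
    have h3 : ((m j.succ : ℤ) : ℂ) = -(N j.castSucc + P.b j.succ * N (Fin.last d)) := by
      have h4 := hm j.succ
      simp only [mm, Fin.cons_succ] at h4
      have h5 := congrArg (fun x : ℝ => (x : ℂ)) h4
      push_cast at h5
      rw [← h5, hN]
      push_cast
      ring
    simp only [Pi.add_apply]
    rw [h1, h3]
    ring
  have hG : Gab P D c (v + g) = (∏ l, au P.z (m l) (N l) (t l)) ^ ((d + 2) * L) * Gab P D c v := by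
    unfold Gab
    rw [Finset.mul_sum]
    refine Finset.sum_congr rfl fun ν _ => ?_
    rw [hSh.gmon_eq hs hD.om hw ν]
    ring
  -- the exponents
  have hnorm : ‖∏ l, au P.z (m l) (N l) (t l)‖ = Real.exp (∑ l, (Real.pi * (N l : ℝ) ^ 2 * P.z.im + 2 * Real.pi * N l * (t l).im)) := by
    rw [norm_prod, Real.exp_sum]
    exact Finset.prod_congr rfl fun l _ => norm_au P.z (m l) (N l) (t l)
  have hP2 : P2 P (v + g) = P2 P v := by
    unfold P2
    refine Finset.sum_congr rfl fun l _ => ?_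
    rw [ro_add, hg, ro_gam, add_zero]
  have hQ : Qf P (v + g) = Qf P v + ∑ l, (Real.pi * (N l : ℝ) ^ 2 * P.z.im + 2 * Real.pi * N l * (t l).im) := by
    unfold Qf
    rw [hP2]
    have h1 : ∑ l, (tt P.z (v + g) l).im ^ 2 / P.z.im = ∑ l, (tt P.z v l).im ^ 2 / P.z.im +
        ∑ l, ((N l : ℝ) ^ 2 * P.z.im + 2 * N l * (t l).im) := by
      rw [← Finset.sum_add_distrib]
      refine Finset.sum_congr rfl fun l _ => ?_
      have h2 : (tt P.z (v + g) l).im = (t l).im + N l * P.z.im := by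
        rw [ht' l]
        simp [Complex.add_im, Complex.mul_im]
      rw [h2, ← ht]
      field_simp
      ring
    rw [h1]
    have h3 : ∑ l, (Real.pi * (N l : ℝ) ^ 2 * P.z.im + 2 * Real.pi * N l * (t l).im) =
        Real.pi * ∑ l, ((N l : ℝ) ^ 2 * P.z.im + 2 * N l * (t l).im) := by
      rw [Finset.mul_sum]
      refine Finset.sum_congr rfl fun l _ => ?_
      ring
    rw [h3]
    ring
  unfold Nn
  rw [hG, norm_mul, norm_pow, hnorm, hQ, ← Real.exp_nat_mul, mul_comm (Real.exp _) ‖Gab P D c v‖, mul_assoc, ← Real.exp_add]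
  congr 2
  ring

end Pool.Agent.MSK
end

end
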