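import Mathlib
import Pool.Agent.Lib.MP_f58a57_nt.FK.K006

section

/-! # B1: the coset sum (MP_f58a57_nt) -/

open Complex ModularForm EisensteinSeries Filter
open UpperHalfPlane hiding I
open scoped Topology MatrixGroups

noncomputable section

namespace Pool.Agent.MSD

lemma B1_mem_TT {N : ℕ} {ρ : Σ _ : ℕ × ℕ, ℕ} :
    ρ ∈ TT N ↔ (ρ.1.1 * ρ.1.2 = N ∧ N ≠ 0) ∧ ρ.2 < ρ.1.2 := by
  unfold TT
  rw [Finset.mem_sigma, Nat.mem_divisorsAntidiagonal, Finset.mem_range]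

/-- B1a. Every integer matrix of determinant `N > 0` is `γ * mat ρ` with `det γ = 1` and `ρ ∈ TT N`
(Mathlib: `FixedDetMatrices.reduce_mem_reps` and friends; or the Euclidean algorithm). -/
theorem exists_rep (N : ℕ) (hN : 0 < N) (M : Matrix (Fin 2) (Fin 2) ℤ) (hM : M.det = N) :
    ∃ γ : Matrix (Fin 2) (Fin 2) ℤ, γ.det = 1 ∧ ∃ ρ ∈ TT N, M = γ * mat ρ := by
  obtain ⟨A, B, C, D, rfl⟩ : ∃ A B C D, M = !![A, B; C, D] :=
    ⟨M 0 0, M 0 1, M 1 0, M 1 1, Matrix.eta_fin_two M⟩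
  rw [Matrix.det_fin_two_of] at hM
  have hg0 : 0 < Int.gcd A C := by
    rcases Nat.eq_zero_or_pos (Int.gcd A C) with h | h
    · exfalso
      rw [Int.gcd_eq_zero_iff] at h
      obtain ⟨rfl, rfl⟩ := h
      simp at hM
      omega
    · exact h
  obtain ⟨g, hg⟩ : ∃ g : ℤ, g = Int.gcd A C := ⟨_, rfl⟩
  have hgpos : 0 < g := by rw [hg]; exact_mod_cast hg0
  obtain ⟨a', ha'⟩ : g ∣ A := by rw [hg]; exact Int.gcd_dvd_left _ _
  obtain ⟨c', hc'⟩ : g ∣ C := by rw [hg]; exact Int.gcd_dvd_right _ _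
  obtain ⟨u, v, huv⟩ : ∃ u v : ℤ, g = A * u + C * v :=
    ⟨_, _, by rw [hg]; exact Int.gcd_eq_gcd_ab A C⟩
  have h1 : a' * u + c' * v = 1 := by
    have h2 : g * (a' * u + c' * v) = g * 1 := by
      rw [mul_one]
      conv_rhs => rw [huv, ha', hc']
      ring
    exact mul_left_cancel₀ hgpos.ne' h2
  obtain ⟨x, hx⟩ : ∃ x : ℤ, x = u * B + v * D := ⟨_, rfl⟩
  obtain ⟨δ, hδ⟩ : ∃ δ : ℤ, δ = a' * D - c' * B := ⟨_, rfl⟩
  have hgδ : g * δ = N := by
    rw [hδ, ← hM, ha', hc']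
    ring
  have hδpos : 0 < δ := by
    have : 0 < g * δ := by rw [hgδ]; exact_mod_cast hN
    exact pos_of_mul_pos_right this hgpos.le
  have hb0 := Int.emod_nonneg x hδpos.ne'
  have hb1 := Int.emod_lt_of_pos x hδpos
  have hdiv := Int.emod_add_mul_ediv x δ
  obtain ⟨b, hb⟩ : ∃ b : ℤ, b = x % δ := ⟨_, rfl⟩
  obtain ⟨t, ht⟩ : ∃ t : ℤ, t = x / δ := ⟨_, rfl⟩
  rw [← hb] at hb0 hb1 hdiv
  rw [← ht] at hdiv
  refine ⟨!![a', a' * t - v; c', c' * t + u], ?_, ⟨(g.toNat, δ.toNat), b.toNat⟩, ?_, ?_⟩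
  · rw [Matrix.det_fin_two_of]
    linear_combination h1
  · rw [B1_mem_TT]
    refine ⟨⟨?_, hN.ne'⟩, ?_⟩
    · have : ((g.toNat * δ.toNat : ℕ) : ℤ) = N := by
        push_cast
        rw [Int.toNat_of_nonneg hgpos.le, Int.toNat_of_nonneg hδpos.le, hgδ]
      exact_mod_cast this
    · simp only
      omega
  · unfold mat
    simp only
    rw [Int.toNat_of_nonneg hgpos.le, Int.toNat_of_nonneg hδpos.le, Int.toNat_of_nonneg hb0]
    rw [Matrix.mul_fin_two]
    have e1 : A = a' * g + (a' * t - v) * 0 := by rw [ha']; ring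
    have e2 : B = a' * b + (a' * t - v) * δ := by
      have : a' * x - v * δ = B := by
        rw [hx, hδ]; linear_combination B * h1
      linear_combination (-1 : ℤ) * this - a' * hdiv
    have e3 : C = c' * g + (c' * t + u) * 0 := by rw [hc']; ring
    have e4 : D = c' * b + (c' * t + u) * δ := by
      have : c' * x + u * δ = D := by
        rw [hx, hδ]; linear_combination D * h1
      linear_combination (-1 : ℤ) * this - c' * hdiv
    rw [← e1, ← e2, ← e3, ← e4]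

/-- B1b. The representative is unique. -/
theorem rep_unique (N : ℕ) (hN : 0 < N) (γ : Matrix (Fin 2) (Fin 2) ℤ) (hγ : γ.det = 1)
    (ρ ρ' : Σ _ : ℕ × ℕ, ℕ) (hρ : ρ ∈ TT N) (hρ' : ρ' ∈ TT N) (h : mat ρ' = γ * mat ρ) : ρ = ρ' := by
  obtain ⟨p, q, r, s, rfl⟩ : ∃ A B C D, γ = !![A, B; C, D] :=
    ⟨γ 0 0, γ 0 1, γ 1 0, γ 1 1, Matrix.eta_fin_two γ⟩
  rw [Matrix.det_fin_two_of] at hγ
  obtain ⟨⟨a, d⟩, b⟩ := ρ
  obtain ⟨⟨a', d'⟩, b'⟩ := ρ'
  rw [B1_mem_TT] at hρ hρ'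
  simp only at hρ hρ'
  obtain ⟨⟨h1, _⟩, h2⟩ := hρ
  obtain ⟨⟨h1', _⟩, h2'⟩ := hρ'
  unfold mat at h
  simp only [Matrix.mul_fin_two] at h
  have e1 := congrFun (congrFun h 0) 0
  have e2 := congrFun (congrFun h 0) 1
  have e3 := congrFun (congrFun h 1) 0
  have e4 := congrFun (congrFun h 1) 1
  simp at e1 e2 e3 e4
  have ha : 0 < a := Nat.pos_of_ne_zero (by rintro rfl; simp at h1; omega)
  have ha' : 0 < a' := Nat.pos_of_ne_zero (by rintro rfl; simp at h1'; omega)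
  have hr : r = 0 := by
    rcases e3 with h | h
    · exact h
    · omega
  subst hr
  have hps : p * s = 1 := by linarith
  have hp : 0 < p := by
    have : 0 < p * (a : ℤ) := by rw [← e1]; exact_mod_cast ha'
    exact pos_of_mul_pos_left this (by positivity)
  have hp1 : p = 1 := by
    have hd : p ∣ 1 := ⟨s, hps.symm⟩
    exact Int.eq_one_of_dvd_one hp.le hd
  subst hp1
  have hs1 : s = 1 := by linarith
  subst hs1
  have hdd : d' = d := by
    have : (d' : ℤ) = d := by linarith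
    exact_mod_cast this
  subst hdd
  have haa : a' = a := by
    have : (a' : ℤ) = a := by linarith
    exact_mod_cast this
  subst haa
  have hbb : b' = b := by
    have e2' : (b' : ℤ) = b + q * d' := by linarith
    have hq : q = 0 := by
      by_contra hq
      rcases lt_or_gt_of_ne hq with h | h
      · have : q * (d' : ℤ) ≤ -1 * d' := mul_le_mul_of_nonneg_right (by omega) (by positivity)
        omega
      · have : 1 * (d' : ℤ) ≤ q * d' := mul_le_mul_of_nonneg_right (by omega) (by positivity)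
        omega
    rw [hq] at e2'
    have : (b' : ℤ) = b := by linarith
    exact_mod_cast this
  subst hbb
  rfl

/-- B1d. The number of representatives is at most `N²`, and `mat ρ` has determinant `N`. -/
theorem card_TT (N : ℕ) : (TT N).card ≤ N ^ 2 := by
  unfold TT
  rw [Finset.card_sigma]
  calc ∑ p ∈ Nat.divisorsAntidiagonal N, (Finset.range p.2).card
      ≤ ∑ p ∈ Nat.divisorsAntidiagonal N, N := by
        refine Finset.sum_le_sum fun p hp => ?_
        rw [Finset.card_range]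
        have := Nat.mem_divisorsAntidiagonal.1 hp
        exact Nat.le_of_dvd (Nat.pos_of_ne_zero this.2) ⟨p.1, by rw [mul_comm]; exact this.1.symm⟩
    _ = (Nat.divisorsAntidiagonal N).card * N := by rw [Finset.sum_const, smul_eq_mul]
    _ ≤ N * N := by
        refine Nat.mul_le_mul_right N ?_
        refine le_trans ?_ (Nat.card_divisors_le_self N)
        refine Finset.card_le_card_of_injOn Prod.fst ?_ ?_
        · intro p hp
          exact Nat.fst_mem_divisors_of_mem_antidiagonal hp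
        · intro p hp p' hp' he
          have h1 := Nat.mem_divisorsAntidiagonal.1 (Finset.mem_coe.1 hp)
          have h2 := Nat.mem_divisorsAntidiagonal.1 (Finset.mem_coe.1 hp')
          rw [← he, ← h1.1] at h2
          have hp0 : 0 < p.1 := Nat.pos_of_ne_zero (by
            intro h0
            apply h1.2
            rw [← h1.1, h0, zero_mul])
          exact Prod.ext he (Nat.eq_of_mul_eq_mul_left hp0 h2.1.symm)
    _ = N ^ 2 := (sq N).symm

theorem det_mat (N : ℕ) (ρ : Σ _ : ℕ × ℕ, ℕ) (hρ : ρ ∈ TT N) : (mat ρ).det = N := by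
  unfold mat
  rw [Matrix.det_fin_two_of, mul_zero, sub_zero]
  exact_mod_cast (B1_mem_TT.1 hρ).1.1

/-- B1c. Sums of a left invariant function over the representatives are invariant under right multiplication.
PROOF. `ρ ↦` representative of `mat ρ * g` is injective by B1b, hence a bijection of `TT N`. -/
theorem perm_sum (N : ℕ) (hN : 0 < N) (φ : Matrix (Fin 2) (Fin 2) ℤ → ℂ)
    (hφ : ∀ γ M : Matrix (Fin 2) (Fin 2) ℤ, γ.det = 1 → M.det = N → φ (γ * M) = φ M)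
    (g : Matrix (Fin 2) (Fin 2) ℤ) (hg : g.det = 1) :
    ∑ ρ ∈ TT N, φ (mat ρ * g) = ∑ ρ ∈ TT N, φ (mat ρ) := by
  classical
  have hex : ∀ ρ : Σ _ : ℕ × ℕ, ℕ, ∃ (ρ' : Σ _ : ℕ × ℕ, ℕ) (γ : Matrix (Fin 2) (Fin 2) ℤ),
      ρ ∈ TT N → (ρ' ∈ TT N ∧ γ.det = 1 ∧ mat ρ * g = γ * mat ρ') := by
    intro ρ
    by_cases hρ : ρ ∈ TT N
    · obtain ⟨γ, hγ, ρ', hρ', h⟩ := exists_rep N hN (mat ρ * g)
        (by rw [Matrix.det_mul, hg, mul_one, det_mat N ρ hρ])
      exact ⟨ρ', γ, fun _ => ⟨hρ', hγ, h⟩⟩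
    · exact ⟨ρ, 1, fun h => absurd h hρ⟩
  choose σ γ hσ using hex
  have hinj : Set.InjOn σ (TT N : Set (Σ _ : ℕ × ℕ, ℕ)) := by
    intro ρ1 h1 ρ2 h2 he
    have h1' := hσ ρ1 h1
    have h2' := hσ ρ2 h2
    have hg' : g * g.adjugate = 1 := by rw [Matrix.mul_adjugate, hg, one_smul]
    have hγ' : (γ ρ1).adjugate * γ ρ1 = 1 := by rw [Matrix.adjugate_mul, h1'.2.1, one_smul]
    have hm : mat (σ ρ1) = (γ ρ1).adjugate * (mat ρ1 * g) := by
      rw [h1'.2.2, ← Matrix.mul_assoc, hγ', Matrix.one_mul]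
    refine rep_unique N hN (γ ρ2 * (γ ρ1).adjugate) ?_ ρ1 ρ2 h1 h2 ?_
    · rw [Matrix.det_mul, Matrix.det_adjugate, h1'.2.1, h2'.2.1]
      simp
    · calc mat ρ2 = mat ρ2 * g * g.adjugate := by rw [Matrix.mul_assoc, hg', Matrix.mul_one]
        _ = γ ρ2 * mat (σ ρ1) * g.adjugate := by rw [h2'.2.2, he]
        _ = γ ρ2 * ((γ ρ1).adjugate * (mat ρ1 * g)) * g.adjugate := by rw [hm]
        _ = γ ρ2 * (γ ρ1).adjugate * mat ρ1 * (g * g.adjugate) := by
            simp only [Matrix.mul_assoc]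
        _ = γ ρ2 * (γ ρ1).adjugate * mat ρ1 := by rw [hg', Matrix.mul_one]
  have himg : (TT N).image σ = TT N := by
    apply Finset.eq_of_subset_of_card_le
    · intro ρ' h
      obtain ⟨ρ, hρ, rfl⟩ := Finset.mem_image.1 h
      exact (hσ ρ hρ).1
    · rw [Finset.card_image_of_injOn hinj]
  calc ∑ ρ ∈ TT N, φ (mat ρ * g) = ∑ ρ ∈ TT N, φ (mat (σ ρ)) := by
        refine Finset.sum_congr rfl fun ρ hρ => ?_
        have h := hσ ρ hρ
        rw [h.2.2]
        exact hφ _ _ h.2.1 (det_mat N _ h.1)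
    _ = ∑ ρ' ∈ (TT N).image σ, φ (mat ρ') :=
        (Finset.sum_image (f := fun ρ => φ (mat ρ)) hinj).symm
    _ = ∑ ρ ∈ TT N, φ (mat ρ) := by rw [himg]

end Pool.Agent.MSD
end

end

section

/-! # B5: consequences of the Newton identities (MP_f58a57_nt) -/

open Complex ModularForm EisensteinSeries Filter
open UpperHalfPlane hiding I
open scoped Topology MatrixGroups

noncomputable section

namespace Pool.Agent.MSD

/-- the Newton identities for a finite family of complex numbers -/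
theorem B5_newton {J : Type*} (s : Finset J) (α : J → ℂ) (k : ℕ) :
    (k : ℂ) * (s.val.map α).esymm k = (-1) ^ (k + 1) *
      ∑ a ∈ (Finset.HasAntidiagonal.antidiagonal k).filter (fun a => a.1 < k),
        (-1) ^ a.1 * (s.val.map α).esymm a.1 * ∑ i ∈ s, α i ^ a.2 := by
  have hval : ((Finset.univ : Finset s).val.map (fun i : s => α i)) = s.val.map α := by
    show (s.val.attach.map (fun i => α i.val)) = s.val.map α
    exact Multiset.attach_map_val' s.val α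
  have hes : ∀ n, MvPolynomial.aeval (fun i : s => α i) (MvPolynomial.esymm s ℂ n) =
      (s.val.map α).esymm n := by
    intro n
    rw [MvPolynomial.aeval_esymm_eq_multiset_esymm, hval]
  have hps : ∀ n, MvPolynomial.aeval (fun i : s => α i) (MvPolynomial.psum s ℂ n) =
      ∑ i ∈ s, α i ^ n := by
    intro n
    rw [MvPolynomial.psum, map_sum]
    simp only [map_pow, MvPolynomial.aeval_X]
    exact Finset.sum_coe_sort s (fun i => α i ^ n)
  have h := congrArg (MvPolynomial.aeval (fun i : s => α i)) (MvPolynomial.mul_esymm_eq_sum s ℂ k)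
  simpa only [map_mul, map_natCast, map_pow, map_neg, map_one, map_sum, hes, hps] using h

theorem B5_esymm_eq {J : Type*} (s : Finset J) (α β : J → ℂ)
    (h : ∀ k : ℕ, 0 < k → ∑ i ∈ s, α i ^ k = ∑ i ∈ s, β i ^ k) (k : ℕ) :
    (s.val.map α).esymm k = (s.val.map β).esymm k := by
  induction k using Nat.strong_induction_on with
  | _ k ih =>
    rcases Nat.eq_zero_or_pos k with rfl | hk
    · simp [Multiset.esymm]
    · have h1 := B5_newton s α k
      have h2 := B5_newton s β k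
      have h3 : (k : ℂ) * (s.val.map α).esymm k = (k : ℂ) * (s.val.map β).esymm k := by
        rw [h1, h2]
        congr 1
        refine Finset.sum_congr rfl fun a ha => ?_
        rw [Finset.mem_filter, Finset.HasAntidiagonal.mem_antidiagonal] at ha
        rw [ih a.1 ha.2, h a.2 (by omega)]
      exact mul_left_cancel₀ (by exact_mod_cast hk.ne') h3

/-- B5a. Families with equal power sums have the same characteristic polynomial. (`MvPolynomial.mul_esymm_eq_sum`: the elementary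
symmetric functions are determined by the power sums in characteristic zero; `Multiset.prod_X_sub_C_eq_sum_esymm`.) -/
theorem prod_eq_of_psum {J : Type*} (s : Finset J) (α β : J → ℂ)
    (h : ∀ k : ℕ, 0 < k → ∑ i ∈ s, α i ^ k = ∑ i ∈ s, β i ^ k) :
    ∏ i ∈ s, (Polynomial.X - Polynomial.C (α i)) = ∏ i ∈ s, (Polynomial.X - Polynomial.C (β i)) := by
  have key : ∀ γ : J → ℂ, ∏ i ∈ s, (Polynomial.X - Polynomial.C (γ i)) =
      ∑ j ∈ Finset.range (s.card + 1),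
        (-1) ^ j * (Polynomial.C ((s.val.map γ).esymm j) * Polynomial.X ^ (s.card - j)) := by
    intro γ
    have := Multiset.prod_X_sub_X_eq_sum_esymm (s.val.map γ)
    rw [Multiset.map_map, Multiset.card_map] at this
    exact this
  rw [key α, key β]
  refine Finset.sum_congr rfl fun j _ => ?_
  rw [B5_esymm_eq s α β h j]

/-- `k! e_k` is integral -/
theorem B5_fact_esymm {J : Type*} (s : Finset J) (α : J → ℂ)
    (h : ∀ k : ℕ, 0 < k → IsIntegral ℤ (∑ i ∈ s, α i ^ k)) (k : ℕ) :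
    IsIntegral ℤ ((k.factorial : ℂ) * (s.val.map α).esymm k) := by
  induction k using Nat.strong_induction_on with
  | _ k ih =>
    rcases Nat.eq_zero_or_pos k with rfl | hk
    · simp only [Multiset.esymm, Multiset.powersetCard_zero_left, Multiset.map_singleton,
        Multiset.prod_zero, Multiset.sum_singleton, Nat.factorial_zero, Nat.cast_one, mul_one]
      exact isIntegral_one
    · obtain ⟨m, rfl⟩ : ∃ m, k = m + 1 := ⟨k - 1, by omega⟩
      have h1 := B5_newton s α (m + 1)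
      have h2 : (((m + 1).factorial : ℕ) : ℂ) * (s.val.map α).esymm (m + 1) =
          (-1) ^ (m + 1 + 1) * ∑ a ∈ (Finset.HasAntidiagonal.antidiagonal (m + 1)).filter (fun a => a.1 < m + 1),
            (-1) ^ a.1 * ((m.factorial : ℂ) * (s.val.map α).esymm a.1) * ∑ i ∈ s, α i ^ a.2 := by
        rw [Nat.factorial_succ, Nat.cast_mul, mul_comm ((m + 1 : ℕ) : ℂ), mul_assoc, h1,
          Finset.mul_sum, Finset.mul_sum, Finset.mul_sum]
        refine Finset.sum_congr rfl fun a _ => ?_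
        ring
      rw [h2]
      refine IsIntegral.mul ((isIntegral_one.neg).pow _) (IsIntegral.sum _ fun a ha => ?_)
      rw [Finset.mem_filter, Finset.HasAntidiagonal.mem_antidiagonal] at ha
      have hle : a.1 ≤ m := by omega
      obtain ⟨q, hq⟩ := Nat.factorial_dvd_factorial hle
      have h3 : (m.factorial : ℂ) * (s.val.map α).esymm a.1 =
          (q : ℂ) * ((a.1.factorial : ℂ) * (s.val.map α).esymm a.1) := by
        rw [hq]
        push_cast
        ring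
      rw [h3]
      exact IsIntegral.mul (IsIntegral.mul ((isIntegral_one.neg).pow _)
        (IsIntegral.mul (isIntegral_algebraMap (R := ℤ) (x := (q : ℤ)) |> fun h => by simpa using h)
          (ih a.1 ha.2))) (h a.2 (by omega))

theorem B5_esymm_smul (c : ℂ) (t : Multiset ℂ) (k : ℕ) :
    (t.map (fun x => c * x)).esymm k = c ^ k * t.esymm k := by
  unfold Multiset.esymm
  rw [Multiset.powersetCard_map, Multiset.map_map, ← Multiset.sum_map_mul_left]
  congr 1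
  refine Multiset.map_congr rfl fun u hu => ?_
  rw [Multiset.mem_powersetCard] at hu
  simp only [Function.comp_apply]
  rw [Multiset.prod_map_mul, Multiset.map_const', Multiset.prod_replicate, hu.2, Multiset.map_id']

/-- B5b. If all power sums are algebraic integers then `n! α i` is an algebraic integer, `n` = number of members.
PROOF. `k! e_k` is an algebraic integer by induction from the Newton identities; `n! α` is a root of the monic polynomial
`Σ (-1)^k (n!)^k e_k X^{n-k}` with integral coefficients. -/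
theorem integral_of_psum {J : Type*} (s : Finset J) (α : J → ℂ)
    (h : ∀ k : ℕ, 0 < k → IsIntegral ℤ (∑ i ∈ s, α i ^ k)) (i : J) (hi : i ∈ s) :
    IsIntegral ℤ (((s.card).factorial : ℂ) * α i) := by
  set c : ℂ := ((s.card).factorial : ℂ) with hc
  set t : Multiset ℂ := s.val.map α with ht
  have hcard : Multiset.card (t.map (fun x => c * x)) = s.card := by
    rw [Multiset.card_map, ht, Multiset.card_map]
    rfl
  set p : Polynomial ℂ := ((t.map (fun x => c * x)).map (fun x => Polynomial.X - Polynomial.C x)).prod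
    with hp
  have hmonic : p.Monic := Polynomial.monic_multiset_prod_of_monic _ _
    fun x _ => Polynomial.monic_X_sub_C x
  have hdeg : p.natDegree = s.card := by
    rw [hp, Polynomial.natDegree_multiset_prod_X_sub_C_eq_card, hcard]
  have hspos : 0 < s.card := Finset.card_pos.2 ⟨i, hi⟩
  refine IsIntegral.of_aeval_monic_of_isIntegral_coeff (p := p) hmonic (by omega) ?_ ?_
  · have h0 : Polynomial.eval (c * α i) p = 0 := by
      rw [hp, Polynomial.eval_multiset_prod]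
      apply Multiset.prod_eq_zero
      rw [Multiset.mem_map]
      refine ⟨Polynomial.X - Polynomial.C (c * α i), ?_, by simp⟩
      rw [Multiset.mem_map]
      refine ⟨c * α i, ?_, rfl⟩
      rw [Multiset.mem_map]
      exact ⟨α i, Multiset.mem_map_of_mem α hi, rfl⟩
    rw [h0]
    exact isIntegral_zero
  · intro k
    by_cases hk : k ≤ s.card
    · rw [hp, Multiset.prod_X_sub_C_coeff _ (by rw [hcard]; exact hk), hcard, B5_esymm_smul]
      refine IsIntegral.mul ((isIntegral_one.neg).pow _) ?_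
      rcases Nat.eq_zero_or_pos (s.card - k) with h0 | hpos
      · rw [h0]
        simp only [Multiset.esymm, Multiset.powersetCard_zero_left, Multiset.map_singleton,
          Multiset.prod_zero, Multiset.sum_singleton, pow_zero, mul_one]
        exact isIntegral_one
      · obtain ⟨q, hq⟩ := Nat.factorial_dvd_factorial (Nat.sub_le s.card k)
        obtain ⟨m, hm⟩ : ∃ m, s.card - k = m + 1 := ⟨s.card - k - 1, by omega⟩
        have h3 : c ^ (s.card - k) * t.esymm (s.card - k) =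
            c ^ m * ((q : ℂ) * (((s.card - k).factorial : ℂ) * t.esymm (s.card - k))) := by
          have h4 : c = (((s.card - k).factorial : ℕ) : ℂ) * (q : ℂ) := by
            rw [hc, ← Nat.cast_mul, ← hq]
          conv_lhs => rw [hm, pow_succ]
          rw [hm] at h4 ⊢
          linear_combination (c ^ m * t.esymm (m + 1)) * h4
        rw [h3]
        have hcint : ∀ n : ℕ, IsIntegral ℤ (n : ℂ) := fun n => by
          have := isIntegral_algebraMap (R := ℤ) (A := ℂ) (x := (n : ℤ))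
          simpa using this
        exact IsIntegral.mul ((hcint _).pow _) (IsIntegral.mul (hcint _) (B5_fact_esymm s α h _))
    · rw [Polynomial.coeff_eq_zero_of_natDegree_lt (by omega)]
      exact isIntegral_zero

end Pool.Agent.MSD
end

end

section

/-! # B2d: the weight 2 family (MP_f58a57_nt) -/

open Complex ModularForm EisensteinSeries Filter
open UpperHalfPlane hiding I
open scoped Topology MatrixGroups

noncomputable section

namespace Pool.Agent.MSD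

/-- the denominator does not vanish -/
theorem B2_denom_ne {a b c d : ℤ} (h : 0 < a * d - b * c) {z : ℂ} (hz : 0 < z.im) :
    (c : ℂ) * z + d ≠ 0 := by
  intro h0
  have him := congrArg Complex.im h0
  have hre := congrArg Complex.re h0
  simp at him hre
  rcases him with hc | hc
  · rw [hc] at hre
    simp at hre
    rw [hc, hre] at h
    simp at h
  · exact hz.ne' hc

/-- the imaginary part of `Mz` -/
theorem B2_im {a b c d : ℤ} (h : 0 < a * d - b * c) {z : ℂ} (hz : 0 < z.im) :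
    ((((a : ℂ) * z + b) / (c * z + d)).im : ℂ) =
      (a * d - b * c : ℤ) * z.im / ((c * z + d) * (starRingEnd ℂ) (c * z + d)) := by
  have hD := B2_denom_ne h hz
  have h1 : (((a : ℂ) * z + b) / (c * z + d)).im =
      (a * d - b * c : ℤ) * z.im / Complex.normSq (c * z + d) := by
    rw [Complex.div_im]
    have hn : Complex.normSq ((c : ℂ) * z + d) ≠ 0 := by
      rwa [Ne, Complex.normSq_eq_zero]
    field_simp
    simp
    ring
  rw [h1, Complex.mul_conj]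
  push_cast
  ring

theorem B2_sub_conj (c d : ℤ) (z : ℂ) :
    ((c : ℂ) * z + d) - (starRingEnd ℂ) (c * z + d) = 2 * I * c * z.im := by
  apply Complex.ext
  · simp
  · simp
    ring

/-- B2d. `e2s` is invariant of weight 2, and the expression of `FM 2` through `e2s`. -/
theorem e2s_transform (a b c d : ℤ) (h : a * d - b * c = 1) (z : ℂ) (hz : 0 < z.im) :
    e2s ((a * z + b) / (c * z + d)) = (c * z + d) ^ 2 * e2s z := by
  have h0 : 0 < a * d - b * c := by omega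
  have hD := B2_denom_ne h0 hz
  have him := B2_im h0 hz
  have hcj := B2_sub_conj c d z
  unfold e2s
  rw [e2_transform a b c d h z hz, him, h]
  obtain ⟨D, hDdef⟩ : ∃ D : ℂ, D = c * z + d := ⟨_, rfl⟩
  obtain ⟨D', hD'⟩ : ∃ D' : ℂ, D' = (starRingEnd ℂ) (c * z + d) := ⟨_, rfl⟩
  rw [← hD', ← hDdef] at hcj
  rw [← hD', ← hDdef]
  rw [← hDdef] at hD
  have hD'0 : D' ≠ 0 := by
    rw [hD', ← hDdef]
    exact (map_ne_zero _).2 hD
  have hpi : (Real.pi : ℂ) ≠ 0 := by exact_mod_cast Real.pi_ne_zero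
  have hy : (z.im : ℂ) ≠ 0 := by exact_mod_cast hz.ne'
  have hc : D' = D - 2 * I * c * z.im := by linear_combination -hcj
  have e : (3 : ℂ) / (Real.pi * (((1 : ℤ) : ℂ) * z.im / (D * D'))) =
      3 * (D * D') / (Real.pi * z.im) := by
    push_cast
    field_simp
  rw [e, hc]
  field_simp
  ring

theorem FM_two (N : ℕ) (hN : 0 < N) (M : Matrix (Fin 2) (Fin 2) ℤ) (hM : M.det = N) (z : ℂ) (hz : 0 < z.im) :
    FM 2 N M z = ((N : ℂ) / (M 1 0 * z + M 1 1)) ^ 2 * e2s ((M 0 0 * z + M 0 1) / (M 1 0 * z + M 1 1)) - N * e2s z := by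
  have hdet : M 0 0 * M 1 1 - M 0 1 * M 1 0 = N := by rw [← hM, Matrix.det_fin_two]
  obtain ⟨a, ha⟩ : ∃ a, a = M 0 0 := ⟨_, rfl⟩
  obtain ⟨b, hb⟩ : ∃ a, a = M 0 1 := ⟨_, rfl⟩
  obtain ⟨c, hc⟩ : ∃ a, a = M 1 0 := ⟨_, rfl⟩
  obtain ⟨d, hd⟩ : ∃ a, a = M 1 1 := ⟨_, rfl⟩
  have hFM : FM 2 N M z = ((N : ℂ) / (M 1 0 * z + M 1 1)) ^ 2 * e2 ((M 0 0 * z + M 0 1) / (M 1 0 * z + M 1 1))
      + 6 * I * M 1 0 * N / Real.pi / (M 1 0 * z + M 1 1) - N * e2 z := rfl
  rw [hFM]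
  rw [← ha, ← hb, ← hc, ← hd] at hdet ⊢
  have h0 : 0 < a * d - b * c := by rw [hdet]; exact_mod_cast hN
  have hD := B2_denom_ne h0 hz
  have him := B2_im h0 hz
  have hcj := B2_sub_conj c d z
  unfold e2s
  rw [him, hdet]
  obtain ⟨w, hw⟩ : ∃ w : ℂ, w = e2 ((a * z + b) / (c * z + d)) := ⟨_, rfl⟩
  rw [← hw]
  obtain ⟨D, hDdef⟩ : ∃ D : ℂ, D = c * z + d := ⟨_, rfl⟩
  obtain ⟨D', hD'⟩ : ∃ D' : ℂ, D' = (starRingEnd ℂ) (c * z + d) := ⟨_, rfl⟩
  rw [← hD', ← hDdef] at hcj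
  rw [← hD', ← hDdef]
  rw [← hDdef] at hD
  have hD'0 : D' ≠ 0 := by
    rw [hD', ← hDdef]
    exact (map_ne_zero _).2 hD
  have hpi : (Real.pi : ℂ) ≠ 0 := by exact_mod_cast Real.pi_ne_zero
  have hy : (z.im : ℂ) ≠ 0 := by exact_mod_cast hz.ne'
  have hN' : (N : ℂ) ≠ 0 := by exact_mod_cast hN.ne'
  have hcc : D' = D - 2 * I * c * z.im := by linear_combination -hcj
  have e : (3 : ℂ) / (Real.pi * ((((N : ℤ) : ℂ)) * z.im / (D * D'))) =
      3 * (D * D') / (Real.pi * (N * z.im)) := by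
    push_cast
    field_simp
  rw [e, hcc]
  field_simp
  ring

end Pool.Agent.MSD
end

end

section

/-! # A8: growth (MP_f58a57_nt) -/

open Complex ModularForm EisensteinSeries Filter
open UpperHalfPlane hiding I
open scoped Topology MatrixGroups

noncomputable section

namespace Pool.Agent.MSD

open scoped ArithmeticFunction.sigma Nat in
theorem a8_key (k : ℕ) (q : ℂ) (r : ℝ) (hr0 : 0 ≤ r) (hr1 : r < 1) (hq : ‖q‖ ≤ r) :
    ‖∑' n : ℕ+, (σ k n : ℂ) * q ^ (n : ℕ)‖ ≤ (k + 1)! * (1 / (1 - r) ^ (k + 2)) := by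
  have hr : ‖r‖ < 1 := by rwa [Real.norm_of_nonneg hr0]
  have h1 := hasSum_choose_mul_geometric_of_norm_lt_one (𝕜 := ℝ) (k + 1) hr
  have h2 := h1.mul_left (((k + 1)! : ℕ) : ℝ)
  have hb : ∀ n : ℕ, ‖(σ k n : ℂ) * q ^ n‖ ≤ ((k + 1)! : ℝ) * (((n + (k + 1)).choose (k + 1) : ℝ) * r ^ n) := by
    intro n
    rw [norm_mul, norm_pow, Complex.norm_natCast, ← mul_assoc]
    apply mul_le_mul _ (pow_le_pow_left₀ (norm_nonneg _) hq n) (by positivity) (by positivity)
    have h3 : σ k n ≤ n ^ (k + 1) := ArithmeticFunction.sigma_le_pow_succ k n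
    have h4 : n ^ (k + 1) ≤ (n + 1) ^ (k + 1) := Nat.pow_le_pow_left (Nat.le_succ n) _
    have h5 : (n + 1) ^ (k + 1) ≤ (n + 1).ascFactorial (k + 1) := Nat.pow_succ_le_ascFactorial _ _
    rw [Nat.ascFactorial_eq_factorial_mul_choose] at h5
    exact_mod_cast h3.trans (h4.trans h5)
  have hs : Summable fun n : ℕ => ‖(σ k n : ℂ) * q ^ n‖ :=
    Summable.of_nonneg_of_le (fun _ => norm_nonneg _) hb h2.summable
  have hs' : Summable fun n : ℕ+ => ‖(σ k n : ℂ) * q ^ (n : ℕ)‖ :=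
    hs.comp_injective (i := fun n : ℕ+ => (n : ℕ)) PNat.coe_injective
  calc ‖∑' n : ℕ+, (σ k n : ℂ) * q ^ (n : ℕ)‖ ≤ ∑' n : ℕ+, ‖(σ k n : ℂ) * q ^ (n : ℕ)‖ := norm_tsum_le_tsum_norm hs'
    _ ≤ ∑' n : ℕ, ‖(σ k n : ℂ) * q ^ n‖ := by
        exact hs'.tsum_le_tsum_of_inj (fun n : ℕ+ => (n : ℕ)) PNat.coe_injective (fun _ _ => norm_nonneg _)
          (fun _ => le_rfl) hs
    _ ≤ _ := by
        rw [← h2.tsum_eq]
        exact hs.tsum_le_tsum hb h2.summable

theorem a8_one_sub (ε : ℝ) (h0 : 0 < ε) (h1 : ε ≤ 1) : ε / 2 ≤ 1 - Real.exp (-(2 * Real.pi * ε)) := by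
  have h2 : ε ≤ 2 * Real.pi * ε := by nlinarith [Real.pi_gt_three]
  have h3 : Real.exp (-(2 * Real.pi * ε)) ≤ Real.exp (-ε) := Real.exp_le_exp.2 (by linarith)
  have h4 : 1 + ε ≤ Real.exp ε := by linarith [Real.add_one_le_exp ε]
  have h5 : Real.exp (-ε) ≤ 1 / (1 + ε) := by
    rw [Real.exp_neg, ← one_div]
    exact one_div_le_one_div_of_le (by linarith) h4
  have h6 : 1 / (1 + ε) ≤ 1 - ε / 2 := by
    rw [div_le_iff₀ (by linarith)]
    nlinarith
  linarith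

open scoped ArithmeticFunction.sigma Nat in
theorem a8_key2 (k : ℕ) (z : ℂ) (ε : ℝ) (h0 : 0 < ε) (h1 : ε ≤ 1) (hz : ε ≤ z.im) :
    ‖∑' n : ℕ+, (σ k n : ℂ) * exp (2 * Real.pi * I * z) ^ (n : ℕ)‖ ≤ (k + 1)! * (2 / ε) ^ (k + 2) := by
  have hr : ‖exp (2 * Real.pi * I * z)‖ ≤ Real.exp (-(2 * Real.pi * ε)) := by
    rw [Complex.norm_exp]
    apply Real.exp_le_exp.2
    have : (2 * Real.pi * I * z).re = -(2 * Real.pi * z.im) := by simp
    rw [this]
    have := Real.pi_pos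
    nlinarith
  have h2 := a8_one_sub ε h0 h1
  have hr1 : Real.exp (-(2 * Real.pi * ε)) < 1 := by linarith
  refine (a8_key k _ _ (Real.exp_nonneg _) hr1 hr).trans ?_
  apply mul_le_mul_of_nonneg_left _ (by positivity)
  rw [div_pow, one_div, ← one_div, div_le_div_iff₀ (by apply pow_pos; linarith) (by positivity), one_mul, ← mul_pow]
  apply pow_le_pow_left₀ h0.le
  linarith

/-- A8. Polynomial growth towards the real line. PROOF. From `e2 = 1 - 24 Σ σ₁(n) qⁿ` etc.: coefficients are at most `504 n⁶`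
in absolute value for `n ≥ 1`, `|q| = e^{-2πy}` and `Σ n⁶ e^{-2πny} ≤ C y^{-7}` for `0 < y ≤ 1`
(or: `n⁶ r^n` sums to a rational function of `r = e^{-2πy}` with denominator `(1-r)^7`, and `1 - r ≥ y/2` for `0 < y ≤ 1`).
If the coefficient bounds are not at hand: any exponent in place of 7 is fine. -/
theorem growth : ∃ C : ℕ, ∀ (z : ℂ) (ε : ℝ), 0 < ε → ε ≤ 1 → ε ≤ z.im →
    ‖e2 z‖ ≤ C * (1 / ε) ^ C ∧ ‖e4 z‖ ≤ C * (1 / ε) ^ C ∧ ‖e6 z‖ ≤ C * (1 / ε) ^ C := by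
  refine ⟨10 ^ 8, fun z ε h0 h1 hz => ?_⟩
  have hz0 : 0 < z.im := lt_of_lt_of_le h0 hz
  have he : 1 ≤ 1 / ε := by rw [le_div_iff₀ h0]; linarith
  -- general comparison
  have hcmp : ∀ (w S : ℂ) (c A : ℝ) (m : ℕ), w = 1 + c * S → ‖S‖ ≤ A * (2 / ε) ^ m → 0 ≤ A → m ≤ 10 ^ 8 →
      1 + |c| * A * 2 ^ m ≤ 10 ^ 8 → ‖w‖ ≤ (10 ^ 8 : ℕ) * (1 / ε) ^ (10 ^ 8) := by
    intro w S c A m hw hS hA hm hc
    have e1 : ‖w‖ ≤ 1 + |c| * (A * (2 / ε) ^ m) := by
      rw [hw]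
      refine (norm_add_le _ _).trans ?_
      rw [norm_one, norm_mul, Complex.norm_real, Real.norm_eq_abs]
      gcongr
    have e2 : (2 / ε) ^ m = 2 ^ m * (1 / ε) ^ m := by
      rw [← mul_pow]; congr 1; ring
    have e3 : (1 / ε) ^ m ≤ (1 / ε) ^ (10 ^ 8) := pow_le_pow_right₀ he hm
    have e4 : 1 ≤ (1 / ε) ^ (10 ^ 8) := one_le_pow₀ he
    calc ‖w‖ ≤ 1 + |c| * (A * (2 / ε) ^ m) := e1
      _ = 1 + |c| * A * 2 ^ m * (1 / ε) ^ m := by rw [e2]; ring
      _ ≤ (1 / ε) ^ (10 ^ 8) + |c| * A * 2 ^ m * (1 / ε) ^ (10 ^ 8) := by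
          apply add_le_add e4
          apply mul_le_mul_of_nonneg_left e3 (by positivity)
      _ = (1 + |c| * A * 2 ^ m) * (1 / ε) ^ (10 ^ 8) := by ring
      _ ≤ (10 ^ 8 : ℕ) * (1 / ε) ^ (10 ^ 8) := by
          apply mul_le_mul_of_nonneg_right _ (by positivity)
          exact_mod_cast hc
  set τ : ℍ := ⟨z, hz0⟩ with hτ
  have hτz : (τ : ℂ) = z := rfl
  have hof : ofComplex z = τ := by
    rw [← hτz]; exact ofComplex_apply τ
  refine ⟨?_, ?_, ?_⟩
  · have hk := a8_key2 1 z ε h0 h1 hz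
    have h := E2_eq_tsum_cexp (z := τ)
    refine hcmp (e2 z) _ (-24) 2 3 ?_ (by simpa [Nat.factorial] using hk) (by norm_num) (by norm_num) ?_
    · rw [e2, hof, h]
      simp only [Function.Periodic.qParam, ofReal_one, div_one, hτz]
      push_cast; ring
    · rw [abs_neg, abs_of_nonneg (by norm_num)]; norm_num
  · have hk := a8_key2 3 z ε h0 h1 hz
    have h := EisensteinSeries.q_expansion_bernoulli (k := 4) (by norm_num) (by decide) τ
    refine hcmp (e4 z) _ 240 24 5 ?_ (by simpa [Nat.factorial] using hk) (by norm_num) (by norm_num) ?_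
    · rw [e4, hof, h]
      simp only [hτz, zpow_natCast]
      rw [show bernoulli 4 = -1 / 30 by decide +kernel]
      push_cast; ring
    · rw [abs_of_nonneg (by norm_num)]; norm_num
  · have hk := a8_key2 5 z ε h0 h1 hz
    have h := EisensteinSeries.q_expansion_bernoulli (k := 6) (by norm_num) (by decide) τ
    refine hcmp (e6 z) _ (-504) 720 7 ?_ (by simpa [Nat.factorial] using hk) (by norm_num) (by norm_num) ?_
    · rw [e6, hof, h]
      simp only [hτz, zpow_natCast]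
      rw [show bernoulli 6 = 1 / 42 by decide +kernel]
      push_cast; ring
    · rw [abs_neg, abs_of_nonneg (by norm_num)]; norm_num

end Pool.Agent.MSD
end

end

section

/-! # B2: the matrix families (MP_f58a57_nt) -/

open Complex ModularForm EisensteinSeries Filter
open UpperHalfPlane hiding I
open scoped Topology MatrixGroups

noncomputable section

namespace Pool.Agent.MSD

/-- denominators are nonzero -/
theorem b2fm_den_ne (a b c e N : ℤ) (hN : 0 < N) (hM : a * e - b * c = N) (z : ℂ) (hz : 0 < z.im) :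
    (c : ℂ) * z + e ≠ 0 := by
  intro h
  have h1 := congrArg Complex.im h
  simp at h1
  have hc : c = 0 := by
    rcases h1 with h1 | h1
    · exact h1
    · exact absurd h1 hz.ne'
  subst hc
  have h2 := congrArg Complex.re h
  simp at h2
  subst h2
  simp at hM
  omega

/-- the transformed point is in the upper half plane -/
theorem b2fm_im_pos (a b c e N : ℤ) (hN : 0 < N) (hM : a * e - b * c = N) (z : ℂ) (hz : 0 < z.im) :
    0 < (((a : ℂ) * z + b) / ((c : ℂ) * z + e)).im := by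
  have hne := b2fm_den_ne a b c e N hN hM z hz
  have hpos : 0 < Complex.normSq ((c : ℂ) * z + e) := Complex.normSq_pos.2 hne
  have key : (((a : ℂ) * z + b) / ((c : ℂ) * z + e)).im =
      (N : ℝ) * z.im / Complex.normSq ((c : ℂ) * z + e) := by
    rw [Complex.div_im, ← hM]
    simp only [Complex.add_im, Complex.mul_im, Complex.intCast_re, Complex.intCast_im, Complex.add_re,
      Complex.mul_re, zero_mul, add_zero, sub_zero]
    push_cast
    ring
  rw [key]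
  have : (0 : ℝ) < N := by exact_mod_cast hN
  positivity

theorem b2fm_det (M : Matrix (Fin 2) (Fin 2) ℤ) : M.det = M 0 0 * M 1 1 - M 0 1 * M 1 0 :=
  Matrix.det_fin_two M

/-- the cases 4 and 6 uniformly; also for 2 by `FM_two` -/
theorem b2fm_left_aux (w : ℕ) (E : ℂ → ℂ)
    (hE : ∀ (a b c d : ℤ), a * d - b * c = 1 → ∀ z : ℂ, 0 < z.im →
      E ((a * z + b) / (c * z + d)) = (c * z + d) ^ w * E z)
    (N : ℕ) (hN : 0 < N) (γ M : Matrix (Fin 2) (Fin 2) ℤ) (hγ : γ.det = 1) (hM : M.det = N)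
    (z : ℂ) (hz : 0 < z.im) :
    ((N : ℂ) / ((γ * M) 1 0 * z + (γ * M) 1 1)) ^ w *
        E (((γ * M) 0 0 * z + (γ * M) 0 1) / ((γ * M) 1 0 * z + (γ * M) 1 1)) =
      ((N : ℂ) / (M 1 0 * z + M 1 1)) ^ w * E ((M 0 0 * z + M 0 1) / (M 1 0 * z + M 1 1)) := by
  rw [b2fm_det] at hγ hM
  have hN' : (0 : ℤ) < N := by exact_mod_cast hN
  have hne := b2fm_den_ne _ _ _ _ _ hN' hM z hz
  have him := b2fm_im_pos _ _ _ _ _ hN' hM z hz
  set W : ℂ := (M 0 0 * z + M 0 1) / (M 1 0 * z + M 1 1) with hW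
  have hne2 := b2fm_den_ne (γ 0 0) (γ 0 1) (γ 1 0) (γ 1 1) 1 one_pos hγ W him
  have e1 : ((γ * M) 1 0 : ℂ) * z + (γ * M) 1 1 = (γ 1 0 * W + γ 1 1) * (M 1 0 * z + M 1 1) := by
    rw [hW, add_mul, mul_assoc, div_mul_cancel₀ _ hne]
    simp only [Matrix.mul_apply, Fin.sum_univ_two]
    push_cast
    ring
  have e2 : ((γ * M) 0 0 : ℂ) * z + (γ * M) 0 1 = (γ 0 0 * W + γ 0 1) * (M 1 0 * z + M 1 1) := by
    rw [hW, add_mul, mul_assoc, div_mul_cancel₀ _ hne]
    simp only [Matrix.mul_apply, Fin.sum_univ_two]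
    push_cast
    ring
  rw [e1, e2, mul_div_mul_right _ _ hne, hE _ _ _ _ hγ W him, div_pow, div_pow, mul_pow]
  field_simp

/-- B2a. Left invariance. For `M = (a b; c e)`, `γ = (p q; r s)`: `γM z = γ(Mz)`, and the automorphy factor is multiplicative.
For `κ = 2` the quasi-modular term of `e2` cancels: `FM 2 N M z = N² (cz+e)⁻² E₂*(Mz) - N E₂*(z)`, `E₂* = e2s`, and `e2s` is invariant
(`Im Mz = N Im z/|cz+e|²`). -/
theorem FM_left (κ : Fin 3) (N : ℕ) (hN : 0 < N) (γ M : Matrix (Fin 2) (Fin 2) ℤ) (hγ : γ.det = 1) (hM : M.det = N)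
    (z : ℂ) (hz : 0 < z.im) : FM κ N (γ * M) z = FM κ N M z := by
  have hd : (γ * M).det = N := by rw [Matrix.det_mul, hγ, hM, one_mul]
  fin_cases κ
  · exact b2fm_left_aux 4 e4 e4_transform N hN γ M hγ hM z hz
  · exact b2fm_left_aux 6 e6 e6_transform N hN γ M hγ hM z hz
  · change FM 2 N (γ * M) z = FM 2 N M z
    rw [FM_two N hN _ hd z hz, FM_two N hN _ hM z hz,
      b2fm_left_aux 2 e2s e2s_transform N hN γ M hγ hM z hz]

theorem b2fm_S_aux (w : ℕ) (E : ℂ → ℂ) (N : ℕ) (hN : 0 < N) (M : Matrix (Fin 2) (Fin 2) ℤ) (hM : M.det = N)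
    (z : ℂ) (hz : 0 < z.im) :
    ((N : ℂ) / (M 1 0 * (-1 / z) + M 1 1)) ^ w * E ((M 0 0 * (-1 / z) + M 0 1) / (M 1 0 * (-1 / z) + M 1 1)) =
    z ^ w * (((N : ℂ) / ((M * matS) 1 0 * z + (M * matS) 1 1)) ^ w *
      E (((M * matS) 0 0 * z + (M * matS) 0 1) / ((M * matS) 1 0 * z + (M * matS) 1 1))) := by
  have hz0 : z ≠ 0 := by
    rintro rfl
    simp at hz
  have hN' : (0 : ℤ) < N := by exact_mod_cast hN
  have hd : (M * matS).det = N := by rw [Matrix.det_mul, hM]; simp [matS, Matrix.det_fin_two]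
  rw [b2fm_det] at hd
  have hne := b2fm_den_ne _ _ _ _ _ hN' hd z hz
  have e1 : (M 1 0 : ℂ) * (-1 / z) + M 1 1 = ((M * matS) 1 0 * z + (M * matS) 1 1) / z := by
    rw [eq_div_iff hz0, add_mul, mul_assoc, div_mul_cancel₀ _ hz0]
    simp [Matrix.mul_apply, Fin.sum_univ_two, matS]
    ring
  have e2 : (M 0 0 : ℂ) * (-1 / z) + M 0 1 = ((M * matS) 0 0 * z + (M * matS) 0 1) / z := by
    rw [eq_div_iff hz0, add_mul, mul_assoc, div_mul_cancel₀ _ hz0]
    simp [Matrix.mul_apply, Fin.sum_univ_two, matS]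
    ring
  rw [e1, e2, div_div_div_cancel_right₀ hz0, ← mul_assoc, ← mul_pow]
  congr 2
  rw [div_div_eq_mul_div]
  ring

theorem b2fm_e2s_S (z : ℂ) (hz : 0 < z.im) : e2s (-1 / z) = z ^ 2 * e2s z := by
  have h := e2s_transform 0 (-1) 1 0 (by norm_num) z hz
  simpa using h

theorem b2fm_e2s_T (z : ℂ) (hz : 0 < z.im) : e2s (z + 1) = e2s z := by
  have h := e2s_transform 1 1 0 1 (by norm_num) z hz
  simpa using h

theorem b2fm_im_S (z : ℂ) (hz : 0 < z.im) : 0 < (-1 / z).im := by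
  have h := b2fm_im_pos 0 (-1) 1 0 1 one_pos (by norm_num) z hz
  simpa using h

/-- B2b. Behaviour under `z ↦ -1/z` and `z ↦ z + 1`. -/
theorem FM_S (κ : Fin 3) (N : ℕ) (hN : 0 < N) (M : Matrix (Fin 2) (Fin 2) ℤ) (hM : M.det = N)
    (z : ℂ) (hz : 0 < z.im) : FM κ N M (-1 / z) = z ^ kwt κ * FM κ N (M * matS) z := by
  have hd : (M * matS).det = N := by rw [Matrix.det_mul, hM]; simp [matS, Matrix.det_fin_two]
  fin_cases κ
  · exact b2fm_S_aux 4 e4 N hN M hM z hz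
  · exact b2fm_S_aux 6 e6 N hN M hM z hz
  · change FM 2 N M (-1 / z) = z ^ 2 * FM 2 N (M * matS) z
    rw [FM_two N hN _ hd z hz, FM_two N hN _ hM _ (b2fm_im_S z hz),
      b2fm_S_aux 2 e2s N hN M hM z hz, b2fm_e2s_S z hz]
    ring

theorem b2fm_T_aux (w : ℕ) (E : ℂ → ℂ) (N : ℕ) (M M' : Matrix (Fin 2) (Fin 2) ℤ) (hM' : M' = M * !![1, 1; 0, 1])
    (z : ℂ) :
    ((N : ℂ) / (M 1 0 * (z + 1) + M 1 1)) ^ w * E ((M 0 0 * (z + 1) + M 0 1) / (M 1 0 * (z + 1) + M 1 1)) =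
    (((N : ℂ) / (M' 1 0 * z + M' 1 1)) ^ w * E ((M' 0 0 * z + M' 0 1) / (M' 1 0 * z + M' 1 1))) := by
  have e1 : (M 1 0 : ℂ) * (z + 1) + M 1 1 = (M' 1 0 * z + M' 1 1) := by
    rw [hM']
    simp [Matrix.mul_apply, Fin.sum_univ_two]
    ring
  have e2 : (M 0 0 : ℂ) * (z + 1) + M 0 1 = (M' 0 0 * z + M' 0 1) := by
    rw [hM']
    simp [Matrix.mul_apply, Fin.sum_univ_two]
    ring
  rw [e1, e2]

theorem FM_T (κ : Fin 3) (N : ℕ) (hN : 0 < N) (M : Matrix (Fin 2) (Fin 2) ℤ) (hM : M.det = N)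
    (z : ℂ) (hz : 0 < z.im) : FM κ N M (z + 1) = FM κ N (M * !![1, 1; 0, 1]) z := by
  have hd : Matrix.det (M * (!![1, 1; 0, 1] : Matrix (Fin 2) (Fin 2) ℤ)) = (N : ℤ) := by
    rw [Matrix.det_mul, hM]; simp [Matrix.det_fin_two]
  have hz1 : 0 < (z + 1).im := by simpa using hz
  fin_cases κ
  · exact b2fm_T_aux 4 e4 N M _ rfl z
  · exact b2fm_T_aux 6 e6 N M _ rfl z
  · change FM 2 N M (z + 1) = FM 2 N (M * !![1, 1; 0, 1]) z
    rw [FM_two N hN _ hd z hz, FM_two N hN _ hM _ hz1, b2fm_T_aux 2 e2s N M _ rfl z, b2fm_e2s_T z hz]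

/-- B2c. Upper triangular matrices: `N = a δ`. -/
theorem FM_mat (κ : Fin 3) (N : ℕ) (hN : 0 < N) (ρ : Σ _ : ℕ × ℕ, ℕ) (hρ : ρ ∈ TT N) (z : ℂ) (hz : 0 < z.im) :
    FM κ N (mat ρ) z = Gr κ z ρ := by
  obtain ⟨⟨a, δ⟩, b⟩ := ρ
  rw [TT, Finset.mem_sigma, Nat.mem_divisorsAntidiagonal] at hρ
  have hprod : a * δ = N := hρ.1.1
  have hδ : (δ : ℂ) ≠ 0 := by
    have : δ ≠ 0 := by
      rintro rfl
      simp at hprod
      omega
    exact_mod_cast this
  have hdiv : (N : ℂ) / δ = a := by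
    rw [← hprod, Nat.cast_mul, mul_div_assoc, div_self hδ, mul_one]
  fin_cases κ
  · simp [FM, Gr, GG, mat, hdiv]
  · simp [FM, Gr, GG, mat, hdiv]
  · simp [FM, Gr, GG, mat, hdiv]
    left
    rw [← hprod]
    push_cast
    ring

end Pool.Agent.MSD
end

end

section

/-! # B4: power sums have integer q-expansions (MP_f58a57_nt) -/

open Complex ModularForm EisensteinSeries Filter
open UpperHalfPlane hiding I
open scoped Topology MatrixGroups

noncomputable section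

namespace Pool.Agent.MSD

theorem B4_hs {f g : ℕ → ℂ} {a : ℂ} (h : HasSum f a) (he : ∀ n, f n = g n) : HasSum g a := by
  rw [← funext he]
  exact h

theorem B4_add {f g : ℂ → ℂ} (h : HasIntQ f) (h' : HasIntQ g) : HasIntQ (fun z => f z + g z) := by
  obtain ⟨c, hc⟩ := h
  obtain ⟨c', hc'⟩ := h'
  exact ⟨_, hc.add hc'⟩

theorem B4_mul {f g : ℂ → ℂ} (h : HasIntQ f) (h' : HasIntQ g) : HasIntQ (fun z => f z * g z) := by
  obtain ⟨c, hc⟩ := h
  obtain ⟨c', hc'⟩ := h'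
  exact ⟨_, hc.mul hc'⟩

theorem B4_const (m : ℤ) : HasIntQ (fun _ => (m : ℂ)) := by
  refine ⟨fun n => if n = 0 then m else 0, fun z _ => ?_⟩
  have h := hasSum_ite_eq (0 : ℕ) (m : ℂ)
  refine B4_hs h ?_
  intro n
  by_cases hn : n = 0
  · subst hn; simp
  · simp [hn]

theorem B4_pow {f : ℂ → ℂ} (h : HasIntQ f) (k : ℕ) : HasIntQ (fun z => f z ^ k) := by
  induction k with
  | zero => simpa using B4_const 1
  | succ k ih =>
    simp only [pow_succ]
    exact B4_mul ih h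

theorem B4_sum {ι : Type*} (s : Finset ι) (f : ι → ℂ → ℂ) (h : ∀ i ∈ s, HasIntQ (f i)) :
    HasIntQ (fun z => ∑ i ∈ s, f i z) := by
  classical
  induction s using Finset.induction_on with
  | empty => simpa using B4_const 0
  | insert i s hi ih =>
    simp only [Finset.sum_insert hi]
    exact B4_add (h i (Finset.mem_insert_self _ _)) (ih fun j hj => h j (Finset.mem_insert_of_mem hj))

theorem B4_congr {f g : ℂ → ℂ} (h : HasIntQ f) (he : ∀ z : ℂ, 0 < z.im → f z = g z) : HasIntQ g := by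
  obtain ⟨c, hc⟩ := h
  exact ⟨c, fun z hz => by rw [← he z hz]; exact hc z hz⟩

theorem B4_root_sum (δ : ℕ) (hδ : 0 < δ) (n : ℕ) :
    ∑ b ∈ Finset.range δ, (exp (2 * Real.pi * I / δ) ^ b) ^ n = if δ ∣ n then (δ : ℂ) else 0 := by
  have hp := Complex.isPrimitiveRoot_exp δ hδ.ne'
  set ζ := exp (2 * Real.pi * I / δ) with hζ
  have e : ∀ b, (ζ ^ b) ^ n = (ζ ^ n) ^ b := fun b => by rw [← pow_mul, ← pow_mul, mul_comm]
  simp only [e]
  split_ifs with hd
  · rw [(hp.pow_eq_one_iff_dvd n).2 hd]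
    simp
  · have h1 : ζ ^ n ≠ 1 := fun h => hd ((hp.pow_eq_one_iff_dvd n).1 h)
    rw [geom_sum_eq h1, ← pow_mul, mul_comm n δ, pow_mul, hp.pow_eq_one, one_pow, sub_self, zero_div]

/-- the core: averaging over `b` -/
theorem B4_core {f : ℂ → ℂ} (h : HasIntQ f) (a δ : ℕ) (ha : 0 < a) (hδ : 0 < δ) :
    HasIntQ (fun z => ∑ b ∈ Finset.range δ, f ((a * z + b) / δ)) := by
  obtain ⟨c, hc⟩ := h
  refine ⟨fun n => if a ∣ n then δ * c (δ * (n / a)) else 0, fun z hz => ?_⟩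
  have hδ' : (δ : ℂ) ≠ 0 := by exact_mod_cast hδ.ne'
  have ha' : (a : ℂ) ≠ 0 := by exact_mod_cast ha.ne'
  set ζ := exp (2 * Real.pi * I / δ) with hζ
  set u := exp (2 * Real.pi * I * (a * z / δ)) with hu
  have him : ∀ b : ℕ, 0 < ((a * z + b) / δ : ℂ).im := by
    intro b
    have : ((a * z + b) / δ : ℂ).im = a * z.im / δ := by
      rw [Complex.div_natCast_im]
      simp
    rw [this]
    have h1 : (0 : ℝ) < a := by exact_mod_cast ha
    have h2 : (0 : ℝ) < δ := by exact_mod_cast hδ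
    positivity
  have hq : ∀ b : ℕ, qq ((a * z + b) / δ) = ζ ^ b * u := by
    intro b
    rw [qq, hζ, hu, ← Complex.exp_nat_mul, ← Complex.exp_add]
    congr 1
    field_simp
    ring
  have huδ : u ^ δ = qq z ^ a := by
    rw [hu, qq, ← Complex.exp_nat_mul, ← Complex.exp_nat_mul]
    congr 1
    field_simp
  have h1 : HasSum (fun n => ∑ b ∈ Finset.range δ, (c n : ℂ) * (ζ ^ b * u) ^ n)
      (∑ b ∈ Finset.range δ, f ((a * z + b) / δ)) := by
    refine hasSum_sum fun b _ => ?_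
    have := hc _ (him b)
    rw [hq] at this
    exact this
  have h2 : HasSum (fun n => if δ ∣ n then (δ : ℂ) * c n * u ^ n else 0)
      (∑ b ∈ Finset.range δ, f ((a * z + b) / δ)) := by
    refine B4_hs h1 fun n => ?_
    have e : ∑ b ∈ Finset.range δ, (c n : ℂ) * (ζ ^ b * u) ^ n =
        (c n : ℂ) * u ^ n * ∑ b ∈ Finset.range δ, (ζ ^ b) ^ n := by
      rw [Finset.mul_sum]
      refine Finset.sum_congr rfl fun b _ => ?_
      rw [mul_pow]; ring
    rw [e, B4_root_sum δ hδ n]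
    split_ifs <;> ring
  have i1 : Function.Injective (fun m : ℕ => δ * m) := fun x y h => Nat.eq_of_mul_eq_mul_left hδ h
  have i2 : Function.Injective (fun m : ℕ => a * m) := fun x y h => Nat.eq_of_mul_eq_mul_left ha h
  have h3 : HasSum (fun m : ℕ => (δ : ℂ) * c (δ * m) * (qq z ^ a) ^ m)
      (∑ b ∈ Finset.range δ, f ((a * z + b) / δ)) := by
    have := (i1.hasSum_iff (f := fun n => if δ ∣ n then (δ : ℂ) * c n * u ^ n else 0)
      (a := ∑ b ∈ Finset.range δ, f ((a * z + b) / δ)) ?_).2 h2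
    · refine B4_hs this fun m => ?_
      simp only [Function.comp_apply, dvd_mul_right, if_true]
      rw [pow_mul, huδ]
    · intro n hn
      rw [if_neg]
      rintro ⟨m, rfl⟩
      exact hn ⟨m, rfl⟩
  refine (i2.hasSum_iff ?_).1 ?_
  · intro n hn
    have hn' : ¬ a ∣ n := by
      rintro ⟨m, rfl⟩
      exact hn ⟨m, rfl⟩
    simp [hn']
  · refine B4_hs h3 fun m => ?_
    simp only [Function.comp_apply, dvd_mul_right, if_true]
    rw [Nat.mul_div_cancel_left m ha, pow_mul]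
    push_cast
    ring

/-- B4. PROOF. Fix `(a, δ)`. For `κ = 0, 1` the function `e4^k` has an integer `q`-expansion `Σ c_n qⁿ`, and
`Σ_{b<δ} e4^k((az+b)/δ) = Σ_n c_n (Σ_b ζ^{bn}) e^{2πi a n z/δ} = δ Σ_{δ ∣ n} c_n q^{a n/δ}`, `ζ = e^{2πi/δ}`.
For `κ = 2` expand `(a² e2(w) - aδ e2(z))^k` binomially, `w = (az+b)/δ`: products of `e2(w)^i` (sum over `b` as before) and `e2(z)^{k-i}`. -/
theorem hecke_intQ (κ : Fin 3) (N k : ℕ) (hN : 0 < N) : HasIntQ (SS κ N k) := by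
  obtain ⟨c2, q2, -⟩ := e2_q
  obtain ⟨c4, q4, -⟩ := e4_q
  obtain ⟨c6, q6, -⟩ := e6_q
  have Q2 : HasIntQ e2 := ⟨c2, q2⟩
  have Q4 : HasIntQ e4 := ⟨c4, q4⟩
  have Q6 : HasIntQ e6 := ⟨c6, q6⟩
  have key : HasIntQ (fun z => ∑ p ∈ Nat.divisorsAntidiagonal N, ∑ b ∈ Finset.range p.2,
      GG κ p.1 b p.2 z ^ k) := by
    refine B4_sum _ _ fun p hp => ?_
    obtain ⟨hp1, hp2⟩ := Nat.mem_divisorsAntidiagonal.1 hp
    have ha : 0 < p.1 := Nat.pos_of_ne_zero fun h => hp2 (by rw [← hp1, h, zero_mul])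
    have hδ : 0 < p.2 := Nat.pos_of_ne_zero fun h => hp2 (by rw [← hp1, h, mul_zero])
    fin_cases κ
    · have h := B4_mul (B4_const ((p.1 : ℤ) ^ (4 * k))) (B4_core (B4_pow Q4 k) p.1 p.2 ha hδ)
      refine B4_congr h fun z _ => ?_
      simp only [GG]
      rw [Finset.mul_sum]
      refine Finset.sum_congr rfl fun b _ => ?_
      simp [mul_pow, pow_mul]
    · have h := B4_mul (B4_const ((p.1 : ℤ) ^ (6 * k))) (B4_core (B4_pow Q6 k) p.1 p.2 ha hδ)
      refine B4_congr h fun z _ => ?_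
      simp only [GG]
      rw [Finset.mul_sum]
      refine Finset.sum_congr rfl fun b _ => ?_
      simp [mul_pow, pow_mul]
    · have h : HasIntQ (fun z => ∑ i ∈ Finset.range (k + 1),
          (((p.1 : ℤ) ^ (2 * i) * (-((p.1 : ℤ) * p.2)) ^ (k - i) * (k.choose i : ℤ) : ℤ) : ℂ) *
          ((∑ b ∈ Finset.range p.2, (e2 ((p.1 * z + b) / p.2)) ^ i) * e2 z ^ (k - i))) :=
        B4_sum _ _ fun i _ => B4_mul (B4_const _)
          (B4_mul (B4_core (B4_pow Q2 i) p.1 p.2 ha hδ) (B4_pow Q2 (k - i)))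
      refine B4_congr h fun z _ => ?_
      have e : ∀ b : ℕ, GG (2 : Fin 3) p.1 b p.2 z ^ k = ∑ i ∈ Finset.range (k + 1),
          ((p.1 : ℂ) ^ 2 * e2 ((p.1 * z + b) / p.2)) ^ i * (-((p.1 : ℂ) * p.2 * e2 z)) ^ (k - i) *
            (k.choose i : ℂ) := by
        intro b
        have e0 : GG (2 : Fin 3) p.1 b p.2 z =
            (p.1 : ℂ) ^ 2 * e2 ((p.1 * z + b) / p.2) + -((p.1 : ℂ) * p.2 * e2 z) := by
          simp [GG, sub_eq_add_neg]
        rw [e0, add_pow]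
      have e' : ∑ b ∈ Finset.range p.2, GG (2 : Fin 3) p.1 b p.2 z ^ k =
          ∑ i ∈ Finset.range (k + 1), ∑ b ∈ Finset.range p.2,
          ((p.1 : ℂ) ^ 2 * e2 ((p.1 * z + b) / p.2)) ^ i * (-((p.1 : ℂ) * p.2 * e2 z)) ^ (k - i) *
            (k.choose i : ℂ) := by
        rw [Finset.sum_comm]
        exact Finset.sum_congr rfl fun b _ => e b
      refine Eq.trans ?_ e'.symm
      refine Finset.sum_congr rfl fun i _ => ?_
      rw [Finset.sum_mul, Finset.mul_sum]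
      refine Finset.sum_congr rfl fun b _ => ?_
      push_cast
      rw [mul_pow, ← pow_mul, show -((p.1 : ℂ) * p.2 * e2 z) = (-((p.1 : ℂ) * p.2)) * e2 z by ring,
        mul_pow]
      ring
  refine B4_congr key fun z _ => ?_
  simp only [SS, TT, Gr, Finset.sum_sigma]

end Pool.Agent.MSD
end

end

section

/-! # B3: power sums are modular forms (MP_f58a57_nt) -/

open Complex ModularForm EisensteinSeries Filter
open UpperHalfPlane hiding I
open scoped Topology MatrixGroups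

noncomputable section

namespace Pool.Agent.MSD

lemma B3_mem_TT {N : ℕ} {ρ : Σ _ : ℕ × ℕ, ℕ} (h : ρ ∈ TT N) :
    ρ.1.1 * ρ.1.2 = N ∧ 0 < ρ.1.1 ∧ 0 < ρ.1.2 ∧ ρ.1.1 ≤ N ∧ ρ.1.2 ≤ N := by
  unfold TT at h
  rw [Finset.mem_sigma, Nat.mem_divisorsAntidiagonal] at h
  have hN : 0 < N := Nat.pos_of_ne_zero h.1.2
  have h1 : 0 < ρ.1.1 := Nat.pos_of_ne_zero (by intro h0; apply h.1.2; rw [← h.1.1, h0, zero_mul])
  have h2 : 0 < ρ.1.2 := Nat.pos_of_ne_zero (by intro h0; apply h.1.2; rw [← h.1.1, h0, mul_zero])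
  refine ⟨h.1.1, h1, h2, ?_, ?_⟩
  · rw [← h.1.1]; exact Nat.le_mul_of_pos_right _ h2
  · rw [← h.1.1]; exact Nat.le_mul_of_pos_left _ h1

lemma B3_im (a b δ : ℕ) (z : ℂ) :
    (((a : ℂ) * z + b) / δ).im = a * z.im / δ := by
  have h1 : (δ : ℂ) = ((δ : ℝ) : ℂ) := by push_cast; rfl
  rw [h1, Complex.div_ofReal_im]
  simp

lemma B3_GG0 (a b δ : ℕ) (z : ℂ) : GG 0 a b δ z = (a : ℂ) ^ 4 * e4 ((a * z + b) / δ) := rfl
lemma B3_GG1 (a b δ : ℕ) (z : ℂ) : GG 1 a b δ z = (a : ℂ) ^ 6 * e6 ((a * z + b) / δ) := rfl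
lemma B3_GG2 (a b δ : ℕ) (z : ℂ) :
    GG 2 a b δ z = (a : ℂ) ^ 2 * e2 ((a * z + b) / δ) - a * δ * e2 z := rfl

lemma B3_diff (κ : Fin 3) {N : ℕ} {ρ : Σ _ : ℕ × ℕ, ℕ} (h : ρ ∈ TT N) :
    DifferentiableOn ℂ (fun z => Gr κ z ρ) {z | 0 < z.im} := by
  obtain ⟨-, ha, hδ, -, -⟩ := B3_mem_TT h
  have haff : DifferentiableOn ℂ (fun z : ℂ => ((ρ.1.1 : ℂ) * z + ρ.2) / ρ.1.2) {z | 0 < z.im} := by
    fun_prop
  have hmaps : Set.MapsTo (fun z : ℂ => ((ρ.1.1 : ℂ) * z + ρ.2) / ρ.1.2)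
      {z | 0 < z.im} {z | 0 < z.im} := by
    intro z hz
    show 0 < (((ρ.1.1 : ℂ) * z + ρ.2) / ρ.1.2).im
    rw [B3_im]
    have hz' : 0 < z.im := hz
    positivity
  fin_cases κ
  · show DifferentiableOn ℂ (fun z => GG 0 ρ.1.1 ρ.2 ρ.1.2 z) _
    simp only [B3_GG0]
    exact (e4_diff.comp haff hmaps).const_mul _
  · show DifferentiableOn ℂ (fun z => GG 1 ρ.1.1 ρ.2 ρ.1.2 z) _
    simp only [B3_GG1]
    exact (e6_diff.comp haff hmaps).const_mul _
  · show DifferentiableOn ℂ (fun z => GG 2 ρ.1.1 ρ.2 ρ.1.2 z) _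
    simp only [B3_GG2]
    exact ((e2_diff.comp haff hmaps).const_mul _).sub (e2_diff.const_mul _)

/-- size of the members -/
lemma B3_size : ∃ C : ℕ, ∀ (κ : Fin 3) (N : ℕ) (z : ℂ) (y : ℝ), 0 < N → 0 < y → y ≤ 1 → y ≤ z.im →
    ∀ ρ ∈ TT N, ‖Gr κ z ρ‖ ≤ 2 * (N : ℝ) ^ 6 * (C * (N / y) ^ C) := by
  obtain ⟨C, hC⟩ := growth
  refine ⟨C, fun κ N z y hN hy hy1 hyz ρ hρ => ?_⟩
  obtain ⟨-, ha, hδ, haN, hδN⟩ := B3_mem_TT hρ
  have hN1 : (1 : ℝ) ≤ N := by exact_mod_cast hN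
  have hN0 : (0 : ℝ) < N := by linarith
  have ha1 : (1 : ℝ) ≤ ρ.1.1 := by exact_mod_cast ha
  have hδ0 : (0 : ℝ) < ρ.1.2 := by exact_mod_cast hδ
  have haN' : (ρ.1.1 : ℝ) ≤ N := by exact_mod_cast haN
  have hδN' : (ρ.1.2 : ℝ) ≤ N := by exact_mod_cast hδN
  have hε : 0 < y / N := by positivity
  have hε1 : y / N ≤ 1 := by
    rw [div_le_one hN0]; linarith
  have him : y / N ≤ ((((ρ.1.1 : ℂ) * z + ρ.2) / ρ.1.2).im) := by
    rw [B3_im, div_le_div_iff₀ hN0 hδ0]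
    have hz0 : 0 ≤ z.im := hy.le.trans hyz
    calc y * ρ.1.2 ≤ z.im * N := mul_le_mul hyz hδN' hδ0.le hz0
      _ = 1 * z.im * N := by ring
      _ ≤ ρ.1.1 * z.im * N := by gcongr
  have hyε : y / N ≤ z.im := by
    refine le_trans ?_ hyz
    rw [div_le_iff₀ hN0]
    nlinarith
  obtain ⟨h2, h4, h6⟩ := hC _ (y / N) hε hε1 him
  have h2z := (hC z (y / N) hε hε1 hyε).1
  rw [one_div_div] at h2 h4 h6 h2z
  obtain ⟨X, hX⟩ : ∃ X : ℝ, X = C * (N / y) ^ C := ⟨_, rfl⟩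
  rw [← hX] at h2 h4 h6 h2z ⊢
  have hX0 : 0 ≤ X := (norm_nonneg _).trans h2
  have hpow : ∀ j ≤ 6, (ρ.1.1 : ℝ) ^ j ≤ (N : ℝ) ^ 6 := fun j hj =>
    (pow_le_pow_left₀ (by linarith) haN' j).trans (pow_le_pow_right₀ hN1 hj)
  have hN6 : (0 : ℝ) ≤ (N : ℝ) ^ 6 := by positivity
  fin_cases κ
  · show ‖GG 0 ρ.1.1 ρ.2 ρ.1.2 z‖ ≤ _
    rw [B3_GG0, norm_mul, norm_pow, Complex.norm_natCast]
    calc (ρ.1.1 : ℝ) ^ 4 * _ ≤ (N : ℝ) ^ 6 * X :=
          mul_le_mul (hpow 4 (by norm_num)) h4 (norm_nonneg _) hN6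
      _ ≤ 2 * (N : ℝ) ^ 6 * X := by nlinarith [mul_nonneg hN6 hX0]
  · show ‖GG 1 ρ.1.1 ρ.2 ρ.1.2 z‖ ≤ _
    rw [B3_GG1, norm_mul, norm_pow, Complex.norm_natCast]
    calc (ρ.1.1 : ℝ) ^ 6 * _ ≤ (N : ℝ) ^ 6 * X :=
          mul_le_mul (hpow 6 (by norm_num)) h6 (norm_nonneg _) hN6
      _ ≤ 2 * (N : ℝ) ^ 6 * X := by nlinarith [mul_nonneg hN6 hX0]
  · show ‖GG 2 ρ.1.1 ρ.2 ρ.1.2 z‖ ≤ _
    rw [B3_GG2]
    refine (norm_sub_le _ _).trans ?_
    rw [norm_mul, norm_pow, Complex.norm_natCast, norm_mul, norm_mul, Complex.norm_natCast,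
      Complex.norm_natCast]
    have e1 : (ρ.1.1 : ℝ) ^ 2 * ‖e2 ((ρ.1.1 * z + ρ.2) / ρ.1.2)‖ ≤ (N : ℝ) ^ 6 * X :=
      mul_le_mul (hpow 2 (by norm_num)) h2 (norm_nonneg _) hN6
    have e2' : (ρ.1.1 : ℝ) * ρ.1.2 ≤ (N : ℝ) ^ 6 := by
      calc (ρ.1.1 : ℝ) * ρ.1.2 ≤ N * N := mul_le_mul haN' hδN' hδ0.le hN0.le
        _ = (N : ℝ) ^ 2 := (sq _).symm
        _ ≤ (N : ℝ) ^ 6 := pow_le_pow_right₀ hN1 (by norm_num)
    have e3 : (ρ.1.1 : ℝ) * ρ.1.2 * ‖e2 z‖ ≤ (N : ℝ) ^ 6 * X :=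
      mul_le_mul e2' h2z (norm_nonneg _) hN6
    linarith

/-- B3. PROOF. Holomorphy is clear from A1; periodicity and the behaviour under `z ↦ -1/z` from `perm_sum` with
`φ M = FM κ N M z ^ k` (matrices `(1 1; 0 1)` and `matS`); boundedness for `Im z ≥ 1` from A8: `Im((az+b)/δ) = a Im z/δ ≥ 1/N`. -/
theorem hecke_isMF (κ : Fin 3) (N k : ℕ) (hN : 0 < N) : IsMF (kwt κ * k) (SS κ N k) := by
  have hφ : ∀ z : ℂ, 0 < z.im → ∀ γ M : Matrix (Fin 2) (Fin 2) ℤ, γ.det = 1 → M.det = N →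
      FM κ N (γ * M) z ^ k = FM κ N M z ^ k := fun z hz γ M hγ hM => by
    rw [FM_left κ N hN γ M hγ hM z hz]
  have hSS : ∀ z : ℂ, 0 < z.im → SS κ N k z = ∑ ρ ∈ TT N, FM κ N (mat ρ) z ^ k := by
    intro z hz
    unfold SS
    refine Finset.sum_congr rfl fun ρ hρ => ?_
    rw [FM_mat κ N hN ρ hρ z hz]
  refine ⟨?_, ?_, ?_, ?_⟩
  · unfold SS
    refine DifferentiableOn.fun_sum fun ρ hρ => ?_
    exact (B3_diff κ hρ).pow k
  · intro z hz
    have hz1 : 0 < (z + 1).im := by simpa using hz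
    rw [hSS _ hz1, hSS _ hz, ← perm_sum N hN (fun M => FM κ N M z ^ k) (hφ z hz) !![1, 1; 0, 1]
      (by rw [Matrix.det_fin_two_of]; norm_num)]
    refine Finset.sum_congr rfl fun ρ hρ => ?_
    rw [FM_T κ N hN (mat ρ) (det_mat N ρ hρ) z hz]
  · intro z hz
    have hz1 : 0 < (-1 / z).im := by
      have hz0 : z ≠ 0 := by rintro rfl; simp at hz
      have hn : 0 < Complex.normSq z := Complex.normSq_pos.2 hz0
      have e : (-1 / z).im = z.im / Complex.normSq z := by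
        rw [Complex.div_im]
        simp
        ring
      rw [e]
      exact div_pos hz hn
    rw [hSS _ hz1, hSS _ hz, ← perm_sum N hN (fun M => FM κ N M z ^ k) (hφ z hz) matS
      (by unfold matS; rw [Matrix.det_fin_two_of]; norm_num), Finset.mul_sum]
    refine Finset.sum_congr rfl fun ρ hρ => ?_
    rw [FM_S κ N hN (mat ρ) (det_mat N ρ hρ) z hz, mul_pow, ← pow_mul]
  · obtain ⟨C, hC⟩ := B3_size
    obtain ⟨X, hX⟩ : ∃ X : ℝ, X = 2 * (N : ℝ) ^ 6 * (C * (N / 1) ^ C) := ⟨_, rfl⟩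
    refine ⟨(TT N).card • X ^ k, fun z hz => ?_⟩
    unfold SS
    refine (norm_sum_le _ _).trans ?_
    refine Finset.sum_le_card_nsmul _ _ _ fun ρ hρ => ?_
    rw [norm_pow]
    refine pow_le_pow_left₀ (norm_nonneg _) ?_ k
    rw [hX]
    exact hC κ N z 1 hN one_pos le_rfl hz ρ hρ

/-- B3b. Size of the members at a fixed point. -/
theorem Gr_bound (z : ℂ) (hz : 0 < z.im) : ∃ C : ℕ, ∀ (κ : Fin 3) (N : ℕ), 0 < N → ∀ ρ ∈ TT N,
    ‖Gr κ z ρ‖ ≤ (C : ℝ) * (N : ℝ) ^ C := by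
  obtain ⟨C, hC⟩ := B3_size
  obtain ⟨y, hy⟩ : ∃ y : ℝ, y = min z.im 1 := ⟨_, rfl⟩
  have hy0 : 0 < y := by rw [hy]; exact lt_min hz one_pos
  have hy1 : y ≤ 1 := by rw [hy]; exact min_le_right _ _
  have hyz : y ≤ z.im := by rw [hy]; exact min_le_left _ _
  obtain ⟨A, hA⟩ := exists_nat_ge (2 * (C * (1 / y) ^ C))
  refine ⟨A + (6 + C), fun κ N hN ρ hρ => ?_⟩
  have hN1 : (1 : ℝ) ≤ N := by exact_mod_cast hN
  have hN0 : (0 : ℝ) < N := by linarith
  refine (hC κ N z y hN hy0 hy1 hyz ρ hρ).trans ?_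
  calc 2 * (N : ℝ) ^ 6 * (C * (N / y) ^ C)
      = (2 * (C * (1 / y) ^ C)) * (N : ℝ) ^ (6 + C) := by
        rw [pow_add, div_pow, div_pow, one_pow]
        field_simp
    _ ≤ A * (N : ℝ) ^ (6 + C) := by gcongr
    _ ≤ ((A + (6 + C) : ℕ) : ℝ) * (N : ℝ) ^ (A + (6 + C)) := by
        refine mul_le_mul ?_ (pow_le_pow_right₀ hN1 (by omega)) (by positivity) (by positivity)
        push_cast
        linarith [(Nat.cast_nonneg C : (0 : ℝ) ≤ C)]

end Pool.Agent.MSD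
end

end

section

/-! # B6: power sums as polynomials (MP_f58a57_nt) -/

open Complex ModularForm EisensteinSeries Filter
open UpperHalfPlane hiding I
open scoped Topology MatrixGroups

noncomputable section

namespace Pool.Agent.MSD

/-- evaluation of a weighted homogeneous polynomial at scaled variables -/
theorem B6_aeval_scale {Θ : MvPolynomial (Fin 3) ℤ} {n : ℕ}
    (h : MvPolynomial.IsWeightedHomogeneous wts Θ n) (c : ℂ) (v : Fin 3 → ℂ) :
    MvPolynomial.aeval (fun i => c ^ wts i * v i) Θ = c ^ n * MvPolynomial.aeval v Θ := by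
  rw [MvPolynomial.aeval_def, MvPolynomial.aeval_def, MvPolynomial.eval₂_eq',
    MvPolynomial.eval₂_eq', Finset.mul_sum]
  refine Finset.sum_congr rfl fun d hd => ?_
  have h1 : Finsupp.weight wts d = n := h (MvPolynomial.mem_support_iff.1 hd)
  have h2 : ∑ i, wts i * d i = n := by
    rw [← h1, Finsupp.weight_apply, Finsupp.sum_fintype _ _ (fun i => by simp)]
    exact Finset.sum_congr rfl fun i _ => by rw [smul_eq_mul, mul_comm]
  have h3 : ∏ i, (c ^ wts i * v i) ^ d i = c ^ n * ∏ i, v i ^ d i := by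
    rw [← h2, ← Finset.prod_pow_eq_pow_sum, ← Finset.prod_mul_distrib]
    exact Finset.prod_congr rfl fun i _ => by rw [mul_pow, pow_mul]
  rw [h3]
  ring

/-- B6. Immediate from A4, B3, B4. -/
theorem theta (κ : Fin 3) (N k : ℕ) (hN : 0 < N) :
    ∃ Θ : MvPolynomial (Fin 3) ℤ, MvPolynomial.IsWeightedHomogeneous wts Θ (kwt κ * k) ∧
      ∀ z : ℂ, 0 < z.im → SS κ N k z = MvPolynomial.aeval (vals z) Θ :=
  integral_structure (hecke_isMF κ N k hN) (hecke_intQ κ N k hN)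

/-- B6b. After normalisation by `Ω`: `Σ (Gr/Ω^w)^k = Θ(e4/Ω⁴, e6/Ω⁶, dl/Ω¹²)`. -/
theorem theta_norm (κ : Fin 3) (N k : ℕ) (hN : 0 < N) :
    ∃ Θ : MvPolynomial (Fin 3) ℤ, ∀ z Ω : ℂ, 0 < z.im → Ω ≠ 0 →
      ∑ ρ ∈ TT N, (Gr κ z ρ / Ω ^ kwt κ) ^ k =
        MvPolynomial.aeval ![e4 z / Ω ^ 4, e6 z / Ω ^ 6, dl z / Ω ^ 12] Θ := by
  obtain ⟨Θ, hΘ, h⟩ := theta κ N k hN
  refine ⟨Θ, fun z Ω hz hΩ => ?_⟩
  have h1 : (![e4 z / Ω ^ 4, e6 z / Ω ^ 6, dl z / Ω ^ 12] : Fin 3 → ℂ) =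
      fun i => (Ω⁻¹) ^ wts i * vals z i := by
    funext i
    fin_cases i
    · show e4 z / Ω ^ 4 = (Ω⁻¹) ^ 4 * e4 z
      rw [inv_pow, div_eq_inv_mul]
    · show e6 z / Ω ^ 6 = (Ω⁻¹) ^ 6 * e6 z
      rw [inv_pow, div_eq_inv_mul]
    · show dl z / Ω ^ 12 = (Ω⁻¹) ^ 12 * dl z
      rw [inv_pow, div_eq_inv_mul]
  rw [h1, B6_aeval_scale hΘ, ← h z hz, SS, Finset.mul_sum]
  refine Finset.sum_congr rfl fun ρ _ => ?_
  rw [div_pow, ← pow_mul, inv_pow, div_eq_inv_mul]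

end Pool.Agent.MSD
end

end

section

/-! # B7b: degree of the members (MP_f58a57_nt) -/

open Complex ModularForm EisensteinSeries Filter
open UpperHalfPlane hiding I
open scoped Topology MatrixGroups

noncomputable section

namespace Pool.Agent.MSD

theorem B7b_card (N : ℕ) : (TT N).card ≤ N ^ 2 := by
  unfold TT
  rw [Finset.card_sigma]
  have h1 : ∀ p ∈ Nat.divisorsAntidiagonal N, (Finset.range p.2).card ≤ N := by
    intro p hp
    rw [Finset.card_range]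
    obtain ⟨h2, h3⟩ := Nat.mem_divisorsAntidiagonal.mp hp
    exact Nat.le_of_dvd (Nat.pos_of_ne_zero h3) ⟨p.1, by rw [← h2]; ring⟩
  refine (Finset.sum_le_card_nsmul _ _ _ h1).trans ?_
  have h4 : (Nat.divisorsAntidiagonal N).card ≤ N := by
    rw [← Nat.map_div_right_divisors, Finset.card_map]
    exact Nat.card_divisors_le_self N
  rw [smul_eq_mul, sq]
  exact Nat.mul_le_mul_right _ h4

/-- degree over `ℚ` of an element that is a root of a monic polynomial with coefficients in a finite extension -/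
theorem B7b_degree (k : IntermediateField ℚ ℂ) [FiniteDimensional ℚ k] (P : Polynomial ℂ) (hP : P.Monic)
    (hc : ∀ n, P.coeff n ∈ k) (α : ℂ) (hα : P.eval α = 0) :
    (minpoly ℚ α).natDegree ≤ Module.finrank ℚ k * P.natDegree := by
  have hl : P ∈ Polynomial.lifts (algebraMap k ℂ) := by
    rw [Polynomial.lifts_iff_coeff_lifts]
    intro n
    exact ⟨⟨P.coeff n, hc n⟩, rfl⟩
  obtain ⟨Q, hQ1, hQ2, hQ3⟩ := Polynomial.lifts_and_natDegree_eq_and_monic hl hP
  have hroot : Polynomial.aeval α Q = 0 := by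
    rw [Polynomial.aeval_def, ← Polynomial.eval_map, hQ1, hα]
  have hint : IsIntegral k α := ⟨Q, hQ3, by rw [← Polynomial.aeval_def]; exact hroot⟩
  haveI hfd : FiniteDimensional k (IntermediateField.adjoin k {α}) :=
    IntermediateField.adjoin.finiteDimensional hint
  haveI : FiniteDimensional ℚ (IntermediateField.adjoin k {α}) :=
    Module.Finite.trans (R := ℚ) k (IntermediateField.adjoin k {α})
  let a : IntermediateField.adjoin k {α} := IntermediateField.AdjoinSimple.gen k α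
  have h1 : (minpoly ℚ a).natDegree ≤ Module.finrank ℚ (IntermediateField.adjoin k {α}) :=
    minpoly.natDegree_le a
  have h2 : minpoly ℚ α = minpoly ℚ a := by
    have := minpoly.algebraMap_eq (A := ℚ) (B := IntermediateField.adjoin k {α}) (B' := ℂ)
      (algebraMap (IntermediateField.adjoin k {α}) ℂ).injective a
    rw [← this]
    rfl
  rw [h2]
  refine h1.trans ?_
  rw [← Module.finrank_mul_finrank ℚ k (IntermediateField.adjoin k {α})]
  refine Nat.mul_le_mul_left _ ?_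
  rw [IntermediateField.adjoin.finrank hint, ← hQ2]
  exact Polynomial.natDegree_le_of_dvd (minpoly.dvd k α hroot) hQ3.ne_zero

/-- B7b. Degree: `Gr/Ω^w` is a root of a polynomial of degree `card (TT N) ≤ N²` over `k₀ = ℚ(e4/Ω⁴, e6/Ω⁶, dl/Ω¹²)`. -/
theorem Gr_degree (τ Ω : ℂ) (h : CMBase τ Ω) : ∃ C : ℕ, ∀ (κ : Fin 3) (N : ℕ), 0 < N → ∀ ρ ∈ TT N,
    (minpoly ℚ (Gr κ τ ρ / Ω ^ kwt κ)).natDegree ≤ C * N ^ 2 := by
  classical
  let S : Set ℂ := {e4 τ / Ω ^ 4, e6 τ / Ω ^ 6, dl τ / Ω ^ 12}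
  let k : IntermediateField ℚ ℂ := IntermediateField.adjoin ℚ S
  have hfin : Finite S := by
    have : S.Finite := by
      simp only [S]
      exact Set.toFinite _
    exact this.to_subtype
  haveI : FiniteDimensional ℚ k := by
    refine IntermediateField.finiteDimensional_adjoin ?_
    intro x hx
    simp only [S, Set.mem_insert_iff, Set.mem_singleton_iff] at hx
    rcases hx with h1 | h1 | h1
    · rw [h1]; exact h.i4.tower_top
    · rw [h1]; exact h.i6.tower_top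
    · rw [h1]; exact h.idl.tower_top
  refine ⟨Module.finrank ℚ k, ?_⟩
  intro κ N hN ρ hρ
  have hmem : ∀ i : Fin 3, (![e4 τ / Ω ^ 4, e6 τ / Ω ^ 6, dl τ / Ω ^ 12] : Fin 3 → ℂ) i ∈ k := by
    intro i
    apply IntermediateField.subset_adjoin
    fin_cases i <;> simp [S]
  have hps : ∀ m : ℕ, 0 < m → ∑ ρ ∈ TT N, (Gr κ τ ρ / Ω ^ kwt κ) ^ m ∈ k := by
    intro m _
    obtain ⟨Θ, hΘ⟩ := theta_norm κ N m hN
    rw [hΘ τ Ω h.im h.ne]
    let f : Fin 3 → k := fun i => ⟨_, hmem i⟩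
    have e : (![e4 τ / Ω ^ 4, e6 τ / Ω ^ 6, dl τ / Ω ^ 12] : Fin 3 → ℂ) = algebraMap k ℂ ∘ f := by
      funext i
      rfl
    rw [e, MvPolynomial.aeval_algebraMap_apply]
    exact (MvPolynomial.aeval f Θ).2
  have hcoef := coeff_mem_of_psum (TT N) (fun ρ => Gr κ τ ρ / Ω ^ kwt κ) k hps
  have hmon : (∏ ρ ∈ TT N, (Polynomial.X - Polynomial.C (Gr κ τ ρ / Ω ^ kwt κ))).Monic :=
    Polynomial.monic_prod_of_monic _ _ fun i _ => Polynomial.monic_X_sub_C _
  have hdeg : (∏ ρ ∈ TT N, (Polynomial.X - Polynomial.C (Gr κ τ ρ / Ω ^ kwt κ))).natDegree = (TT N).card := by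
    rw [Polynomial.natDegree_prod_of_monic _ _ fun i _ => Polynomial.monic_X_sub_C _]
    simp
  have hev : (∏ ρ ∈ TT N, (Polynomial.X - Polynomial.C (Gr κ τ ρ / Ω ^ kwt κ))).eval (Gr κ τ ρ / Ω ^ kwt κ) = 0 := by
    rw [Polynomial.eval_prod]
    refine Finset.prod_eq_zero hρ ?_
    simp
  have := B7b_degree k _ hmon hcoef _ hev
  rw [hdeg] at this
  exact this.trans (Nat.mul_le_mul_left _ (B7b_card N))

end Pool.Agent.MSD
end

end

section

/-! # B7c: conjugates of the members (MP_f58a57_nt) -/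

open Complex ModularForm EisensteinSeries Filter
open UpperHalfPlane hiding I
open scoped Topology MatrixGroups

noncomputable section

namespace Pool.Agent.MSD

/-- the members of the normalised families are algebraic integers up to a factorial, hence algebraic -/
theorem b7c_isAlg (τ Ω : ℂ) (h : CMBase τ Ω) (κ : Fin 3) (N : ℕ) (hN : 0 < N)
    (ρ : Σ _ : ℕ × ℕ, ℕ) (hρ : ρ ∈ TT N) : IsAlgebraic ℚ (Gr κ τ ρ / Ω ^ kwt κ) := by
  have hint : IsIntegral ℤ ((((TT N).card).factorial : ℂ) * (Gr κ τ ρ / Ω ^ kwt κ)) := by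
    refine integral_of_psum (TT N) (fun ρ => Gr κ τ ρ / Ω ^ kwt κ) ?_ ρ hρ
    intro k _
    obtain ⟨Θ, hΘ⟩ := theta_norm κ N k hN
    rw [hΘ τ Ω h.im h.ne]
    have hmem : ∀ i : Fin 3,
        (![e4 τ / Ω ^ 4, e6 τ / Ω ^ 6, dl τ / Ω ^ 12] : Fin 3 → ℂ) i ∈ integralClosure ℤ ℂ := by
      intro i
      fin_cases i
      · exact h.i4
      · exact h.i6
      · exact h.idl
    have : (MvPolynomial.aeval (![e4 τ / Ω ^ 4, e6 τ / Ω ^ 6, dl τ / Ω ^ 12] : Fin 3 → ℂ)) Θ ∈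
        integralClosure ℤ ℂ := by
      rw [MvPolynomial.aeval_def, MvPolynomial.eval₂_eq]
      refine Subalgebra.sum_mem _ fun d _ => ?_
      refine Subalgebra.mul_mem _ (Subalgebra.algebraMap_mem _ _) ?_
      exact Subalgebra.prod_mem _ fun i _ => Subalgebra.pow_mem _ (hmem i) _
    exact this
  have h0 : (((TT N).card).factorial : ℂ) ≠ 0 := by
    exact_mod_cast Nat.factorial_ne_zero _
  have h1 : IsAlgebraic ℚ ((((TT N).card).factorial : ℂ) * (Gr κ τ ρ / Ω ^ kwt κ)) :=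
    (hint.tower_top (A := ℚ)).isAlgebraic
  have h2 : IsAlgebraic ℚ ((((TT N).card).factorial : ℂ)⁻¹) := by
    have : ((((TT N).card).factorial : ℂ)⁻¹) = algebraMap ℚ ℂ ((((TT N).card).factorial : ℚ)⁻¹) := by
      simp
    rw [this]
    exact isAlgebraic_algebraMap _
  have h3 := h2.mul h1
  rwa [← mul_assoc, inv_mul_cancel₀ h0, one_mul] at h3

/-- B7c. Conjugates. PROOF. Let `r` be a root of the minimal polynomial of `α = Gr κ τ ρ/Ω^w`. There is an embedding `σ` of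
`ℚ(α, u, v, d)` (`u = e4/Ω⁴`, `v = e6/Ω⁶`, `d = dl/Ω¹²`) into `ℂ` with `σ α = r`; `(σu)³ - (σv)² = 1728 σd ≠ 0`, so
`(σu, σv) = (e4 τ'/Ω'⁴, e6 τ'/Ω'⁶)` by `uniformization`; by `theta_norm` (same `Θ`!) the families `σ(Gr κ τ ρ/Ω^w)` — for a `σ` defined on
the field generated by all members — and `Gr κ τ' ρ/Ω'^w` have the same power sums, hence (`prod_eq_of_psum`) `r` is a member of the
second; bound by `Gr_bound`. There are finitely many pairs `(σu, σv)` (roots of the minimal polynomials of `u`, `v`): choose one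
`(τ', Ω')` for each pair and take the maximum of the constants. -/
theorem Gr_conj (τ Ω : ℂ) (h : CMBase τ Ω) : ∃ C : ℕ, ∀ (κ : Fin 3) (N : ℕ), 0 < N → ∀ ρ ∈ TT N,
    ∀ r ∈ (minpoly ℚ (Gr κ τ ρ / Ω ^ kwt κ)).aroots ℂ, ‖r‖ ≤ (C : ℝ) * (N : ℝ) ^ C := by
  classical
  -- for each pair the parameters
  have hpair : ∀ p : ℂ × ℂ, ∃ C : ℕ, p.1 ^ 3 ≠ p.2 ^ 2 → ∃ τ' Ω' : ℂ, 0 < τ'.im ∧ Ω' ≠ 0 ∧
      e4 τ' / Ω' ^ 4 = p.1 ∧ e6 τ' / Ω' ^ 6 = p.2 ∧
      ∀ (κ : Fin 3) (N : ℕ), 0 < N → ∀ ρ ∈ TT N, ‖Gr κ τ' ρ / Ω' ^ kwt κ‖ ≤ (C : ℝ) * (N : ℝ) ^ C := by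
    intro p
    by_cases hp : p.1 ^ 3 ≠ p.2 ^ 2
    swap
    · exact ⟨0, fun h' => absurd h' hp⟩
    obtain ⟨τ', Ω', him, hne, h4, h6⟩ := uniformization p.1 p.2 hp
    obtain ⟨C, hC⟩ := Gr_bound τ' him
    obtain ⟨M, hM⟩ := exists_nat_ge (max 1 (‖Ω'‖⁻¹))
    have hM1 : (1 : ℝ) ≤ M := (le_max_left _ _).trans hM
    have hM2 : ‖Ω'‖⁻¹ ≤ (M : ℝ) := (le_max_right _ _).trans hM
    refine ⟨max C (C * M ^ 6), fun _ => ⟨τ', Ω', him, hne, h4, h6, ?_⟩⟩
    intro κ N hN ρ hρ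
    have hN1 : (1 : ℝ) ≤ N := by exact_mod_cast hN
    have hb := hC κ N hN ρ hρ
    have hw : (‖Ω'‖⁻¹) ^ kwt κ ≤ (M : ℝ) ^ 6 := by
      calc (‖Ω'‖⁻¹) ^ kwt κ ≤ (M : ℝ) ^ kwt κ :=
            pow_le_pow_left₀ (inv_nonneg.2 (norm_nonneg _)) hM2 _
        _ ≤ (M : ℝ) ^ 6 := by
            refine pow_le_pow_right₀ hM1 ?_
            fin_cases κ <;> simp [kwt]
    rw [norm_div, norm_pow, div_eq_mul_inv, ← inv_pow]
    have hC0 : (0 : ℝ) ≤ C := Nat.cast_nonneg _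
    calc ‖Gr κ τ' ρ‖ * (‖Ω'‖⁻¹) ^ kwt κ ≤ ((C : ℝ) * (N : ℝ) ^ C) * (M : ℝ) ^ 6 := by
          refine mul_le_mul hb hw (by positivity) (by positivity)
      _ = ((C : ℝ) * (M : ℝ) ^ 6) * (N : ℝ) ^ C := by ring
      _ ≤ ((max C (C * M ^ 6) : ℕ) : ℝ) * (N : ℝ) ^ (max C (C * M ^ 6)) := by
          refine mul_le_mul ?_ ?_ (by positivity) (by positivity)
          · have : C * M ^ 6 ≤ max C (C * M ^ 6) := le_max_right _ _
            exact_mod_cast this
          · exact pow_le_pow_right₀ hN1 (le_max_left _ _)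
  choose Cp hCp using hpair
  set u : ℂ := e4 τ / Ω ^ 4 with hu
  set v : ℂ := e6 τ / Ω ^ 6 with hv
  have hΩ := h.ne
  have huv : u ^ 3 - v ^ 2 = 1728 * (dl τ / Ω ^ 12) := by
    rw [hu, hv, dl]
    field_simp
  have hd0 : dl τ / Ω ^ 12 ≠ 0 := div_ne_zero (dl_ne_zero τ h.im) (pow_ne_zero _ hΩ)
  have hualg : IsAlgebraic ℚ u := (h.i4.tower_top (A := ℚ)).isAlgebraic
  have hvalg : IsAlgebraic ℚ v := (h.i6.tower_top (A := ℚ)).isAlgebraic
  set P : Finset (ℂ × ℂ) :=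
    ((minpoly ℚ u).aroots ℂ).toFinset ×ˢ ((minpoly ℚ v).aroots ℂ).toFinset with hP
  refine ⟨∑ p ∈ P, Cp p, ?_⟩
  intro κ N hN ρ hρ r hr
  have hN1 : (1 : ℝ) ≤ N := by exact_mod_cast hN
  -- the algebraic closure
  let A : IntermediateField ℚ ℂ := algebraicClosure ℚ ℂ
  have hAmem : ∀ x : ℂ, x ∈ A ↔ IsAlgebraic ℚ x := fun x => by
    simp only [A]
    rw [mem_algebraicClosure_iff]
  have hspl : ∀ s : A, IsIntegral ℚ s ∧ ((minpoly ℚ s).map (algebraMap ℚ ℂ)).Splits := by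
    intro s
    have : IsAlgebraic ℚ (s : ℂ) := (hAmem _).1 s.2
    exact ⟨(isIntegral_algebraMap_iff (algebraMap A ℂ).injective).1 this.isIntegral,
      IsAlgClosed.splits _⟩
  have halg : ∀ ρ' ∈ TT N, Gr κ τ ρ' / Ω ^ kwt κ ∈ A := fun ρ' hρ' =>
    (hAmem _).2 (b7c_isAlg τ Ω h κ N hN ρ' hρ')
  let α : A := ⟨Gr κ τ ρ / Ω ^ kwt κ, halg ρ hρ⟩
  have hmin : minpoly ℚ α = minpoly ℚ (Gr κ τ ρ / Ω ^ kwt κ) := by
    have := minpoly.algebraMap_eq (A := ℚ) (B := A) (B' := ℂ) (algebraMap A ℂ).injective α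
    exact this.symm
  have hr0 : Polynomial.aeval r (minpoly ℚ α) = 0 := by
    rw [hmin]
    exact (Polynomial.mem_aroots.1 hr).2
  obtain ⟨σ, hσ⟩ := IntermediateField.exists_algHom_of_splits_of_aeval hspl hr0
  let uA : A := ⟨u, (hAmem _).2 hualg⟩
  let vA : A := ⟨v, (hAmem _).2 hvalg⟩
  have hdl : (dl τ / Ω ^ 12) = (u ^ 3 - v ^ 2) / 1728 := by
    rw [huv]; ring
  let dA : A := algebraMap ℚ A (1 / 1728) * (uA ^ 3 - vA ^ 2)
  have hdA : (algebraMap A ℂ dA) = dl τ / Ω ^ 12 := by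
    rw [hdl]
    have e0 : algebraMap A ℂ (algebraMap ℚ A (1 / 1728)) = (1 / 1728 : ℂ) := by
      rw [← IsScalarTower.algebraMap_apply ℚ A ℂ]
      norm_num
    have e1 : algebraMap A ℂ uA = u := rfl
    have e2 : algebraMap A ℂ vA = v := rfl
    simp only [dA]
    rw [map_mul, map_sub, map_pow, map_pow, e0, e1, e2]
    ring
  have hne : (σ uA) ^ 3 ≠ (σ vA) ^ 2 := by
    intro hcon
    have h1 : σ (uA ^ 3 - vA ^ 2) = 0 := by
      rw [map_sub, map_pow, map_pow, hcon, sub_self]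
    have h2 : uA ^ 3 - vA ^ 2 = 0 := by
      exact (map_eq_zero σ).1 h1
    have h3 : ((uA ^ 3 - vA ^ 2 : A) : ℂ) = 0 := by rw [h2]; rfl
    have h4 : u ^ 3 - v ^ 2 = 0 := by simpa [uA, vA] using h3
    rw [huv] at h4
    exact hd0 (by simpa using h4)
  obtain ⟨τ', Ω', him', hne', h4', h6', hbd'⟩ := hCp (σ uA, σ vA) hne
  simp only at h4' h6'
  -- power sums
  have hps : ∀ k : ℕ, 0 < k →
      ∑ ρ' ∈ TT N, (if hm : ρ' ∈ TT N then σ ⟨Gr κ τ ρ' / Ω ^ kwt κ, halg ρ' hm⟩ else 0) ^ k =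
        ∑ ρ' ∈ TT N, (Gr κ τ' ρ' / Ω' ^ kwt κ) ^ k := by
    intro k _
    obtain ⟨Θ, hΘ⟩ := theta_norm κ N k hN
    rw [hΘ τ' Ω' him' hne']
    have hA : (∑ ρ' ∈ TT N, (if hm : ρ' ∈ TT N then (⟨Gr κ τ ρ' / Ω ^ kwt κ, halg ρ' hm⟩ : A) else 0) ^ k) =
        MvPolynomial.aeval (![uA, vA, dA] : Fin 3 → A) Θ := by
      apply (algebraMap A ℂ).injective
      have e1 : (algebraMap A ℂ) (∑ ρ' ∈ TT N,
          (if hm : ρ' ∈ TT N then (⟨Gr κ τ ρ' / Ω ^ kwt κ, halg ρ' hm⟩ : A) else 0) ^ k) =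
          ∑ ρ' ∈ TT N, (Gr κ τ ρ' / Ω ^ kwt κ) ^ k := by
        rw [map_sum]
        refine Finset.sum_congr rfl fun ρ' hρ' => ?_
        rw [map_pow, dif_pos hρ']
        rfl
      rw [e1, hΘ τ Ω h.im h.ne]
      rw [MvPolynomial.aeval_def, MvPolynomial.eval₂_eq, MvPolynomial.aeval_def, MvPolynomial.eval₂_eq,
        map_sum]
      refine Finset.sum_congr rfl fun d _ => ?_
      rw [map_mul, map_prod]
      congr 1
      refine Finset.prod_congr rfl fun i _ => ?_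
      rw [map_pow]
      congr 1
      fin_cases i
      · rfl
      · rfl
      · exact hdA.symm
    have hσA := congrArg σ hA
    rw [map_sum] at hσA
    have e2 : ∑ ρ' ∈ TT N, (if hm : ρ' ∈ TT N then σ ⟨Gr κ τ ρ' / Ω ^ kwt κ, halg ρ' hm⟩ else 0) ^ k =
        ∑ ρ' ∈ TT N, σ ((if hm : ρ' ∈ TT N then (⟨Gr κ τ ρ' / Ω ^ kwt κ, halg ρ' hm⟩ : A) else 0) ^ k) := by
      refine Finset.sum_congr rfl fun ρ' hρ' => ?_
      rw [map_pow, dif_pos hρ', dif_pos hρ']
    rw [e2, hσA]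
    rw [MvPolynomial.aeval_def, MvPolynomial.eval₂_eq, MvPolynomial.aeval_def, MvPolynomial.eval₂_eq,
        map_sum]
    refine Finset.sum_congr rfl fun d _ => ?_
    rw [map_mul, map_prod]
    congr 1
    · simp
    · refine Finset.prod_congr rfl fun i _ => ?_
      rw [map_pow]
      congr 1
      fin_cases i
      · exact h4'.symm
      · exact h6'.symm
      · change σ dA = dl τ' / Ω' ^ 12
        have e3 : dl τ' / Ω' ^ 12 = ((e4 τ' / Ω' ^ 4) ^ 3 - (e6 τ' / Ω' ^ 6) ^ 2) / 1728 := by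
          rw [dl]
          field_simp
        have e4 : σ (algebraMap ℚ A (1 / 1728)) = (1 / 1728 : ℂ) := by
          rw [AlgHom.commutes]
          norm_num
        rw [e3, h4', h6']
        simp only [dA]
        rw [map_mul, map_sub, map_pow, map_pow, e4]
        ring
  have hprod := prod_eq_of_psum (TT N)
    (fun ρ' => if hm : ρ' ∈ TT N then σ ⟨Gr κ τ ρ' / Ω ^ kwt κ, halg ρ' hm⟩ else 0)
    (fun ρ' => Gr κ τ' ρ' / Ω' ^ kwt κ) hps
  have hev := congrArg (Polynomial.eval r) hprod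
  rw [Polynomial.eval_prod, Polynomial.eval_prod] at hev
  have hz : ∏ i ∈ TT N, Polynomial.eval r (Polynomial.X - Polynomial.C
      ((fun ρ' => if hm : ρ' ∈ TT N then σ ⟨Gr κ τ ρ' / Ω ^ kwt κ, halg ρ' hm⟩ else 0) i)) = 0 := by
    refine Finset.prod_eq_zero hρ ?_
    simp only [Polynomial.eval_sub, Polynomial.eval_X, Polynomial.eval_C]
    rw [dif_pos hρ]
    have : σ ⟨Gr κ τ ρ / Ω ^ kwt κ, halg ρ hρ⟩ = r := hσ
    rw [this, sub_self]
  rw [hz] at hev
  obtain ⟨ρ', hρ', he⟩ := Finset.prod_eq_zero_iff.1 hev.symm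
  have hrr : r = Gr κ τ' ρ' / Ω' ^ kwt κ := by
    simp only [Polynomial.eval_sub, Polynomial.eval_X, Polynomial.eval_C] at he
    exact sub_eq_zero.1 he
  have hb := hbd' κ N hN ρ' hρ'
  rw [hrr]
  refine hb.trans ?_
  have hmemP : (σ uA, σ vA) ∈ P := by
    rw [hP, Finset.mem_product]
    constructor
    · rw [Multiset.mem_toFinset, Polynomial.mem_aroots]
      refine ⟨minpoly.ne_zero hualg.isIntegral, ?_⟩
      have hm : minpoly ℚ uA = minpoly ℚ u :=
        (minpoly.algebraMap_eq (A := ℚ) (B := A) (B' := ℂ) (algebraMap A ℂ).injective uA).symm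
      rw [← hm, Polynomial.aeval_algHom_apply, minpoly.aeval, map_zero]
    · rw [Multiset.mem_toFinset, Polynomial.mem_aroots]
      refine ⟨minpoly.ne_zero hvalg.isIntegral, ?_⟩
      have hm : minpoly ℚ vA = minpoly ℚ v :=
        (minpoly.algebraMap_eq (A := ℚ) (B := A) (B' := ℂ) (algebraMap A ℂ).injective vA).symm
      rw [← hm, Polynomial.aeval_algHom_apply, minpoly.aeval, map_zero]
  have hle : Cp (σ uA, σ vA) ≤ ∑ p ∈ P, Cp p := Finset.single_le_sum (fun _ _ => Nat.zero_le _) hmemP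
  refine mul_le_mul ?_ (pow_le_pow_right₀ hN1 hle) (by positivity) (by positivity)
  exact_mod_cast hle

end Pool.Agent.MSD
end

end
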