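import Mathlib
import Pool.Agent.Lib.MP_f58a57_nt.FK.K011
import Pool.Agent.Lib.MP_f58a57_nt.FK.K012

section

/-! # C1a: sums and products of controlled algebraic numbers (MP_f58a57_nt) -/

open Complex ModularForm EisensteinSeries Filter
open UpperHalfPlane hiding I
open scoped Topology MatrixGroups

noncomputable section

namespace Pool.Agent.MSD

open IntermediateField in
/-- degree of an element of `ℚ(α, β)` -/
theorem C1a_deg {α β γ : ℂ} (h : IsAlgebraic ℚ α) (h' : IsAlgebraic ℚ β)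
    (hγ : γ ∈ ℚ⟮α⟯ ⊔ ℚ⟮β⟯) :
    (minpoly ℚ γ).natDegree ≤ (minpoly ℚ α).natDegree * (minpoly ℚ β).natDegree := by
  have i1 : IsIntegral ℚ α := h.isIntegral
  have i2 : IsIntegral ℚ β := h'.isIntegral
  have f1 : FiniteDimensional ℚ ℚ⟮α⟯ := adjoin.finiteDimensional i1
  have f2 : FiniteDimensional ℚ ℚ⟮β⟯ := adjoin.finiteDimensional i2
  have f3 : FiniteDimensional ℚ ↥(ℚ⟮α⟯ ⊔ ℚ⟮β⟯) := IntermediateField.finiteDimensional_sup _ _
  have i3 : IsIntegral ℚ γ := by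
    have : IsIntegral ℚ (⟨γ, hγ⟩ : ↥(ℚ⟮α⟯ ⊔ ℚ⟮β⟯)) := Algebra.IsIntegral.isIntegral _
    exact this.map (ℚ⟮α⟯ ⊔ ℚ⟮β⟯).val
  have hle : ℚ⟮γ⟯ ≤ ℚ⟮α⟯ ⊔ ℚ⟮β⟯ := by
    rw [adjoin_simple_le_iff]
    exact hγ
  rw [← adjoin.finrank i1, ← adjoin.finrank i2, ← adjoin.finrank i3]
  exact (IntermediateField.finrank_le_of_le_right hle).trans (finrank_sup_le _ _)

/-- conjugates of polynomial expressions -/
theorem C1a_conj {α β γ : ℂ} (h : IsAlgebraic ℚ α) (h' : IsAlgebraic ℚ β)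
    (op : ∀ (K : Type) [Field K], K → K → K)
    (hop : ∀ (K : Type) [Field K] (K' : Type) [Field K'] (f : K →+* K') (x y : K),
      f (op K x y) = op K' (f x) (f y)) (hγ : γ = op ℂ α β) {r : ℂ}
    (hr : r ∈ (minpoly ℚ γ).aroots ℂ) :
    ∃ s ∈ (minpoly ℚ α).aroots ℂ, ∃ t ∈ (minpoly ℚ β).aroots ℂ, r = op ℂ s t := by
  set K := algebraicClosure ℚ ℂ with hK
  have halg : Algebra.IsAlgebraic ℚ K := algebraicClosure.isAlgebraic ℚ ℂ
  have ma : α ∈ K := mem_algebraicClosure_iff.2 h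
  have mb : β ∈ K := mem_algebraicClosure_iff.2 h'
  let a : K := ⟨α, ma⟩
  let b : K := ⟨β, mb⟩
  let c : K := op K a b
  have hc : (algebraMap K ℂ) c = γ := by
    rw [hγ]
    exact hop K ℂ (algebraMap K ℂ) a b
  have m1 : minpoly ℚ α = minpoly ℚ a := by
    have := minpoly.algebraMap_eq (A := ℚ) (B := K) (B' := ℂ) (algebraMap K ℂ).injective a
    exact this
  have m2 : minpoly ℚ β = minpoly ℚ b := by
    have := minpoly.algebraMap_eq (A := ℚ) (B := K) (B' := ℂ) (algebraMap K ℂ).injective b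
    exact this
  have m3 : minpoly ℚ γ = minpoly ℚ c := by
    have := minpoly.algebraMap_eq (A := ℚ) (B := K) (B' := ℂ) (algebraMap K ℂ).injective c
    rw [← this, hc]
  have hroot : ∀ (x : K) (ψ : K →ₐ[ℚ] ℂ), ψ x ∈ (minpoly ℚ x).aroots ℂ := by
    intro x ψ
    have h1 : ψ x ∈ (minpoly ℚ x).rootSet ℂ := by
      rw [← Algebra.IsAlgebraic.range_eval_eq_rootSet_minpoly (F := ℚ) ℂ x]
      exact ⟨ψ, rfl⟩
    exact Polynomial.mem_rootSet'.1 h1 |> fun h2 => (Polynomial.mem_aroots'.2 h2)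
  have hr' : r ∈ (minpoly ℚ c).rootSet ℂ := by
    rw [m3] at hr
    exact Polynomial.mem_rootSet'.2 (Polynomial.mem_aroots'.1 hr)
  rw [← Algebra.IsAlgebraic.range_eval_eq_rootSet_minpoly (F := ℚ) ℂ c] at hr'
  obtain ⟨ψ, hψ⟩ := hr'
  refine ⟨ψ a, ?_, ψ b, ?_, ?_⟩
  · rw [m1]; exact hroot a ψ
  · rw [m2]; exact hroot b ψ
  · have := hop K ℂ (ψ : K →+* ℂ) a b
    rw [← hψ]
    exact this

/-- C1a. PROOF. Minimal polynomial of `α + β`: its roots are sums of roots (every root `r` of `minpoly ℚ (α+β)` is `σ(α+β) = σα + σβ` for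
an embedding `σ` of `ℚ(α,β)`), the degree is at most `[ℚ(α,β):ℚ] ≤ m m'`. -/
theorem Ctrl.add {m m' D D' : ℕ} {S S' : ℝ} {α β : ℂ} (h : Ctrl m D S α) (h' : Ctrl m' D' S' β) :
    Ctrl (m * m') (D * D') (S + S') (α + β) := by
  refine ⟨h.alg.add h'.alg, ?_, ?_, ?_⟩
  · have e : (((D * D' : ℕ) : ℂ)) * (α + β) = (D' : ℂ) * ((D : ℂ) * α) + (D : ℂ) * ((D' : ℂ) * β) := by
      push_cast; ring
    rw [e]
    have j1 : IsIntegral ℤ ((D' : ℂ)) := by
      have := (isIntegral_algebraMap (R := ℤ) (A := ℂ) (x := (D' : ℤ)))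
      simpa using this
    have j2 : IsIntegral ℤ ((D : ℂ)) := by
      have := (isIntegral_algebraMap (R := ℤ) (A := ℂ) (x := (D : ℤ)))
      simpa using this
    exact (j1.mul h.int).add (j2.mul h'.int)
  · refine (C1a_deg h.alg h'.alg ?_).trans (Nat.mul_le_mul h.deg h'.deg)
    exact add_mem (SetLike.le_def.1 le_sup_left (IntermediateField.mem_adjoin_simple_self ℚ α))
      (SetLike.le_def.1 le_sup_right (IntermediateField.mem_adjoin_simple_self ℚ β))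
  · intro r hr
    obtain ⟨s, hs, t, ht, e⟩ := C1a_conj h.alg h'.alg (fun K _ x y => x + y)
      (fun K _ K' _ f x y => map_add f x y) rfl hr
    rw [e]
    exact (norm_add_le _ _).trans (add_le_add (h.conj s hs) (h'.conj t ht))

theorem Ctrl.mul {m m' D D' : ℕ} {S S' : ℝ} {α β : ℂ} (h : Ctrl m D S α) (h' : Ctrl m' D' S' β) :
    Ctrl (m * m') (D * D') (S * S') (α * β) := by
  refine ⟨h.alg.mul h'.alg, ?_, ?_, ?_⟩
  · have e : (((D * D' : ℕ) : ℂ)) * (α * β) = ((D : ℂ) * α) * ((D' : ℂ) * β) := by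
      push_cast; ring
    rw [e]
    exact h.int.mul h'.int
  · refine (C1a_deg h.alg h'.alg ?_).trans (Nat.mul_le_mul h.deg h'.deg)
    exact mul_mem (SetLike.le_def.1 le_sup_left (IntermediateField.mem_adjoin_simple_self ℚ α))
      (SetLike.le_def.1 le_sup_right (IntermediateField.mem_adjoin_simple_self ℚ β))
  · intro r hr
    obtain ⟨s, hs, t, ht, e⟩ := C1a_conj h.alg h'.alg (fun K _ x y => x * y)
      (fun K _ K' _ f x y => map_mul f x y) rfl hr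
    rw [e, norm_mul]
    exact mul_le_mul (h.conj s hs) (h'.conj t ht) (norm_nonneg _)
      ((norm_nonneg _).trans (h.conj s hs))

end Pool.Agent.MSD
end

end

section

/-! # C1c: Liouville inequality (MP_f58a57_nt) -/

open Complex ModularForm EisensteinSeries Filter
open UpperHalfPlane hiding I
open scoped Topology MatrixGroups

noncomputable section

namespace Pool.Agent.MSD

/-- a product of numbers, one of them `a`, the others of size at most `T ≥ 1` -/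
theorem C1c_prod_le {T : ℝ} (hT : 1 ≤ T) (s : Multiset ℂ) (a : ℂ) (ha : a ∈ s)
    (h : ∀ r ∈ s, ‖r‖ ≤ T) : ‖s.prod‖ ≤ ‖a‖ * T ^ (Multiset.card s) := by
  obtain ⟨t, rfl⟩ := Multiset.exists_cons_of_mem ha
  have h1 : ∀ t : Multiset ℂ, (∀ r ∈ t, ‖r‖ ≤ T) → ‖t.prod‖ ≤ T ^ (Multiset.card t) := by
    intro t
    induction t using Multiset.induction_on with
    | empty => intro _; simp
    | cons b t ih =>
      intro hb
      rw [Multiset.prod_cons, norm_mul, Multiset.card_cons, pow_succ, mul_comm]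
      exact mul_le_mul (ih fun r hr => hb r (Multiset.mem_cons_of_mem hr))
        (hb b (Multiset.mem_cons_self b t)) (norm_nonneg _) (by positivity)
  rw [Multiset.prod_cons, norm_mul, Multiset.card_cons]
  refine mul_le_mul_of_nonneg_left ?_ (norm_nonneg a)
  refine (h1 t fun r hr => h r (Multiset.mem_cons_of_mem hr)).trans ?_
  exact pow_le_pow_right₀ hT (Nat.le_succ _)

/-- C1b. Liouville. PROOF. The norm of `D α` is a nonzero integer: the constant coefficient of the minimal polynomial of `Dα`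
(which is in `ℤ[X]`, `minpoly.isIntegrallyClosed_eq_field_fractions'`) is the product of its roots, `Dr` with `r` the conjugates of `α`. -/
theorem Ctrl.lower {m D : ℕ} {S : ℝ} {α : ℂ} (h : Ctrl m D S α) (hD : 0 < D) (h0 : α ≠ 0) :
    1 ≤ ‖α‖ * (D : ℝ) ^ m * (max 1 S) ^ m := by
  have hαint : IsIntegral ℚ α := h.alg.isIntegral
  set q := minpoly ℚ α with hq
  set n := q.natDegree with hn
  have hDα : (D : ℂ) * α = (D : ℚ) • α := by
    rw [Algebra.smul_def]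
    simp
  have hint : IsIntegral ℤ ((D : ℂ) * α) := h.int
  have h1 : minpoly ℚ ((D : ℂ) * α) = q.scaleRoots (D : ℚ) := by
    rw [hDα]
    exact IsIntegrallyClosed.minpoly_smul (by exact_mod_cast hD.ne') hαint
  have h2 : minpoly ℚ ((D : ℂ) * α) = (minpoly ℤ ((D : ℂ) * α)).map (algebraMap ℤ ℚ) :=
    minpoly.isIntegrallyClosed_eq_field_fractions' ℚ hint
  have h3 : (((minpoly ℤ ((D : ℂ) * α)).coeff 0 : ℤ) : ℚ) = q.coeff 0 * (D : ℚ) ^ n := by
    have := congrArg (fun p => Polynomial.coeff p 0) (h2.symm.trans h1)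
    simpa [Polynomial.coeff_map, Polynomial.coeff_scaleRoots] using this
  have h4 : q.coeff 0 ≠ 0 := minpoly.coeff_zero_ne_zero hαint h0
  have h5 : ((minpoly ℤ ((D : ℂ) * α)).coeff 0 : ℤ) ≠ 0 := by
    intro h6
    rw [h6] at h3
    have : q.coeff 0 * (D : ℚ) ^ n ≠ 0 := mul_ne_zero h4 (pow_ne_zero _ (by exact_mod_cast hD.ne'))
    exact this (by rw [← h3]; simp)
  have h6 : (1 : ℝ) ≤ |((q.coeff 0 : ℚ) : ℝ)| * (D : ℝ) ^ n := by
    have h7 : (1 : ℝ) ≤ |(((minpoly ℤ ((D : ℂ) * α)).coeff 0 : ℤ) : ℝ)| := by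
      rw [← Int.cast_abs]
      exact_mod_cast Int.one_le_abs h5
    have h8 : ((((minpoly ℤ ((D : ℂ) * α)).coeff 0 : ℤ)) : ℝ) = ((q.coeff 0 : ℚ) : ℝ) * (D : ℝ) ^ n := by
      exact_mod_cast congrArg (fun x : ℚ => (x : ℝ)) h3
    rw [h8, abs_mul, abs_of_nonneg (by positivity : (0 : ℝ) ≤ (D : ℝ) ^ n)] at h7
    exact h7
  have hmonic : (q.map (algebraMap ℚ ℂ)).Monic := (minpoly.monic hαint).map _
  have hsplit : (q.map (algebraMap ℚ ℂ)).Splits := IsAlgClosed.splits _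
  have h9 := hsplit.coeff_zero_eq_prod_roots_of_monic hmonic
  have hdeg : (q.map (algebraMap ℚ ℂ)).natDegree = n := Polynomial.natDegree_map _
  have hcard : Multiset.card (q.aroots ℂ) = n := by
    rw [Polynomial.aroots_def, ← hsplit.natDegree_eq_card_roots, hdeg]
  have h10 : |((q.coeff 0 : ℚ) : ℝ)| = ‖(q.aroots ℂ).prod‖ := by
    have h11 : (((q.coeff 0 : ℚ) : ℂ)) = (q.map (algebraMap ℚ ℂ)).coeff 0 := by
      rw [Polynomial.coeff_map]
      rfl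
    have h12 : ‖((q.coeff 0 : ℚ) : ℂ)‖ = |((q.coeff 0 : ℚ) : ℝ)| := by
      rw [show ((q.coeff 0 : ℚ) : ℂ) = (((q.coeff 0 : ℚ) : ℝ) : ℂ) by push_cast; rfl,
        Complex.norm_real, Real.norm_eq_abs]
    rw [← h12, h11, h9, norm_mul, norm_pow, norm_neg, norm_one, one_pow, one_mul,
      Polynomial.aroots_def]
  have hmem : α ∈ q.aroots ℂ := by
    rw [Polynomial.mem_aroots]
    exact ⟨minpoly.ne_zero hαint, minpoly.aeval ℚ α⟩
  have hT : (1 : ℝ) ≤ max 1 S := le_max_left _ _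
  have h13 := C1c_prod_le hT (q.aroots ℂ) α hmem fun r hr => (h.conj r hr).trans (le_max_right _ _)
  rw [hcard, ← h10] at h13
  have hnm : n ≤ m := h.deg
  have hD1 : (1 : ℝ) ≤ (D : ℝ) := by exact_mod_cast hD
  calc (1 : ℝ) ≤ |((q.coeff 0 : ℚ) : ℝ)| * (D : ℝ) ^ n := h6
    _ ≤ (‖α‖ * (max 1 S) ^ n) * (D : ℝ) ^ n := mul_le_mul_of_nonneg_right h13 (by positivity)
    _ = ‖α‖ * (D : ℝ) ^ n * (max 1 S) ^ n := by ring
    _ ≤ ‖α‖ * (D : ℝ) ^ m * (max 1 S) ^ m := by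
      refine mul_le_mul (mul_le_mul_of_nonneg_left (pow_le_pow_right₀ hD1 hnm) (norm_nonneg _))
        (pow_le_pow_right₀ hT hnm) (by positivity) (by positivity)

end Pool.Agent.MSD
end

end

section

/-! # C1b: controlled algebraic numbers, simple facts (MP_f58a57_nt) -/

open Complex ModularForm EisensteinSeries Filter
open UpperHalfPlane hiding I
open scoped Topology MatrixGroups

noncomputable section

namespace Pool.Agent.MSD

theorem C1m_nat_int (n : ℕ) : IsIntegral ℤ (n : ℂ) := by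
  have := isIntegral_algebraMap (R := ℤ) (A := ℂ) (x := (n : ℤ))
  simpa using this

theorem Ctrl.mono {m m' D D' : ℕ} {S S' : ℝ} {α : ℂ} (h : Ctrl m D S α) (hm : m ≤ m') (hD : D ∣ D') (hS : S ≤ S') :
    Ctrl m' D' S' α := by
  refine ⟨h.alg, ?_, h.deg.trans hm, fun r hr => (h.conj r hr).trans hS⟩
  obtain ⟨k, rfl⟩ := hD
  have : (((D * k : ℕ)) : ℂ) * α = (k : ℂ) * ((D : ℂ) * α) := by
    push_cast
    ring
  rw [this]
  exact (C1m_nat_int k).mul h.int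

theorem ctrl_of_algebraic (α : ℂ) (h : IsAlgebraic ℚ α) : ∃ (m D : ℕ) (S : ℝ), 0 < D ∧ Ctrl m D S α := by
  have hz : IsAlgebraic ℤ α := (IsFractionRing.isAlgebraic_iff ℤ ℚ ℂ).2 h
  obtain ⟨y, hy, hint⟩ := hz.exists_integral_multiple
  refine ⟨(minpoly ℚ α).natDegree, y.natAbs, (((minpoly ℚ α).aroots ℂ).map (fun r => ‖r‖)).sum,
    Int.natAbs_pos.2 hy, h, ?_, le_rfl, ?_⟩
  · have h1 : ((y.natAbs : ℕ) : ℂ) = ((y.natAbs : ℤ) : ℂ) := (Int.cast_natCast _).symm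
    rcases Int.natAbs_eq y with h2 | h2
    · have h3 : ((y.natAbs : ℕ) : ℂ) * α = y • α := by
        rw [h1, ← h2, zsmul_eq_mul]
      rw [h3]
      exact hint
    · have h3 : ((y.natAbs : ℕ) : ℂ) * α = - (y • α) := by
        rw [h1, zsmul_eq_mul]
        conv_rhs => rw [h2]
        push_cast
        ring
      rw [h3]
      exact hint.neg
  · intro r hr
    apply Multiset.single_le_sum (s := ((minpoly ℚ α).aroots ℂ).map (fun r => ‖r‖))
    · intro x hx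
      rw [Multiset.mem_map] at hx
      obtain ⟨z, -, rfl⟩ := hx
      exact norm_nonneg z
    · exact Multiset.mem_map_of_mem _ hr

theorem ctrl_rat (r : ℚ) : Ctrl 1 r.den |(r : ℝ)| (r : ℂ) := by
  have hmin : minpoly ℚ (r : ℂ) = Polynomial.X - Polynomial.C r := minpoly.eq_X_sub_C ℂ r
  refine ⟨isAlgebraic_algebraMap (R := ℚ) (A := ℂ) r, ?_, ?_, ?_⟩
  · have h1 : ((r.den : ℕ) : ℂ) * (r : ℂ) = ((r.num : ℤ) : ℂ) := by
      have h2 : ((r.den : ℕ) : ℚ) * r = ((r.num : ℤ) : ℚ) := Rat.den_mul_eq_num r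
      exact_mod_cast congrArg (fun q : ℚ => (q : ℂ)) h2
    rw [h1]
    exact isIntegral_algebraMap (R := ℤ) (A := ℂ) (x := r.num)
  · rw [hmin, Polynomial.natDegree_X_sub_C]
  · intro z hz
    rw [hmin, Polynomial.aroots_X_sub_C, Multiset.mem_singleton] at hz
    rw [hz]
    have : (algebraMap ℚ ℂ r) = ((r : ℝ) : ℂ) := by simp
    rw [this, Complex.norm_real, Real.norm_eq_abs]

end Pool.Agent.MSD
end

end

section

/-! # C3b: values at CM points as members of the families (MP_f58a57_nt) -/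

open Complex ModularForm EisensteinSeries Filter
open UpperHalfPlane hiding I
open scoped Topology MatrixGroups

noncomputable section

namespace Pool.Agent.MSD

theorem c3b_e4_shift (z : ℂ) (hz : 0 < z.im) (k : ℤ) : e4 (z + k) = e4 z := by
  have h := e4_transform 1 k 0 1 (by ring) z hz
  simpa using h

theorem c3b_e6_shift (z : ℂ) (hz : 0 < z.im) (k : ℤ) : e6 (z + k) = e6 z := by
  have h := e6_transform 1 k 0 1 (by ring) z hz
  simpa using h

theorem c3b_e2_shift (z : ℂ) (hz : 0 < z.im) (k : ℤ) : e2 (z + k) = e2 z := by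
  have h := e2_transform 1 k 0 1 (by ring) z hz
  simpa using h

theorem c3b_im (d : ℕ) (q r : ℕ) (p : ℤ) :
    (((q : ℂ) * rt d + p) / r).im = q * Real.sqrt d / r := by
  rw [div_natCast_im]
  simp [rt]

/-- C3b. For `z = (q√(-d) + p)/r`: reducing `p` mod `r` (periodicity) we have `e4 z = q⁻⁴ Gr 0 τ ρ`, `e6 z = q⁻⁶ Gr 1 τ ρ`,
`e2s z = q⁻² (Gr 2 τ ρ + q r e2s τ)`, `ρ = ⟨(q, r), p mod r⟩ ∈ TT (q r)`. -/
theorem values_Gr (d : ℕ) (hd : 0 < d) (q r : ℕ) (p : ℤ) (hq : 0 < q) (hr : 0 < r) : ∃ ρ ∈ TT (q * r),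
    e4 ((q * rt d + p) / r) = Gr 0 (rt d) ρ / (q : ℂ) ^ 4 ∧
    e6 ((q * rt d + p) / r) = Gr 1 (rt d) ρ / (q : ℂ) ^ 6 ∧
    e2s ((q * rt d + p) / r) = (Gr 2 (rt d) ρ + q * r * e2s (rt d)) / (q : ℂ) ^ 2 := by
  have hrz : (0 : ℤ) < r := by exact_mod_cast hr
  have hb0 : 0 ≤ p % r := Int.emod_nonneg _ hrz.ne'
  have hb1 : p % r < r := Int.emod_lt_of_pos _ hrz
  set b : ℕ := (p % r).toNat with hb
  have hbz : (b : ℤ) = p % r := Int.toNat_of_nonneg hb0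
  have hbr : b < r := by
    have : (b : ℤ) < r := by rw [hbz]; exact hb1
    exact_mod_cast this
  have hq0 : (q : ℂ) ≠ 0 := by exact_mod_cast hq.ne'
  have hr0 : (r : ℂ) ≠ 0 := by exact_mod_cast hr.ne'
  have hsq : 0 < Real.sqrt d := Real.sqrt_pos.2 (by exact_mod_cast hd)
  have hp : (p : ℂ) = b + r * ((p / r : ℤ) : ℂ) := by
    have h1 : p = b + r * (p / r) := by rw [hbz]; exact (Int.emod_add_mul_ediv p r).symm
    have h2 := congrArg (Int.cast : ℤ → ℂ) h1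
    push_cast at h2
    exact h2
  have hshift : ((q : ℂ) * rt d + p) / r = ((q : ℂ) * rt d + b) / r + ((p / r : ℤ) : ℂ) := by
    rw [hp]
    field_simp
    ring
  have him : 0 < (((q : ℂ) * rt d + b) / r).im := by
    have h := c3b_im d q r (b : ℤ)
    rw [Int.cast_natCast] at h
    rw [h]
    have : (0 : ℝ) < q := by exact_mod_cast hq
    have : (0 : ℝ) < r := by exact_mod_cast hr
    positivity
  have himz := c3b_im d q r p
  have hrt : (rt d).im = Real.sqrt d := by simp [rt]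
  refine ⟨⟨(q, r), b⟩, ?_, ?_, ?_, ?_⟩
  · unfold TT
    rw [Finset.mem_sigma]
    refine ⟨?_, Finset.mem_range.2 hbr⟩
    rw [Nat.mem_divisorsAntidiagonal]
    exact ⟨rfl, (Nat.mul_pos hq hr).ne'⟩
  · have h1 : Gr 0 (rt d) ⟨(q, r), b⟩ = (q : ℂ) ^ 4 * e4 (((q : ℂ) * rt d + b) / r) := rfl
    rw [h1, hshift, c3b_e4_shift _ him]
    field_simp
  · have h1 : Gr 1 (rt d) ⟨(q, r), b⟩ = (q : ℂ) ^ 6 * e6 (((q : ℂ) * rt d + b) / r) := rfl
    rw [h1, hshift, c3b_e6_shift _ him]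
    field_simp
  · have h1 : Gr 2 (rt d) ⟨(q, r), b⟩ =
        (q : ℂ) ^ 2 * e2 (((q : ℂ) * rt d + b) / r) - q * r * e2 (rt d) := rfl
    have h2 : e2s ((q * rt d + p) / r) =
        e2 (((q : ℂ) * rt d + b) / r) - 3 / (Real.pi * ((q * Real.sqrt d / r : ℝ) : ℂ)) := by
      unfold e2s
      rw [himz, hshift, c3b_e2_shift _ him]
    have h3 : e2s (rt d) = e2 (rt d) - 3 / (Real.pi * (Real.sqrt d : ℂ)) := by
      unfold e2s
      rw [hrt]
    have hpi : (Real.pi : ℂ) ≠ 0 := by exact_mod_cast Real.pi_ne_zero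
    have hs0 : ((Real.sqrt d : ℝ) : ℂ) ≠ 0 := by exact_mod_cast hsq.ne'
    rw [h1, h2, h3]
    push_cast
    field_simp
    ring

end Pool.Agent.MSD
end

end

section

/-! # C2: families with polynomially bounded degree and logarithmic height (MP_f58a57_nt) -/

open Complex ModularForm EisensteinSeries Filter
open UpperHalfPlane hiding I
open scoped Topology MatrixGroups

noncomputable section

namespace Pool.Agent.MSD

variable {X : Type*} {B : X → ℕ}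

theorem C2_S_nonneg {m D : ℕ} {S : ℝ} {α : ℂ} (h : Ctrl m D S α) : 0 ≤ S := by
  have hroot : α ∈ (minpoly ℚ α).aroots ℂ := by
    rw [Polynomial.mem_aroots]
    exact ⟨minpoly.ne_zero h.alg.isIntegral, minpoly.aeval ℚ α⟩
  exact (norm_nonneg _).trans (h.conj α hroot)

theorem C2_pow_mono {b : ℝ} (hb : 2 ≤ b) {C C' : ℕ} (h : C ≤ C') : b ^ C ≤ b ^ C' :=
  pow_le_pow_right₀ (by linarith) h

theorem C2_two_mul {b : ℝ} (hb : 2 ≤ b) (C : ℕ) : 2 * b ^ C ≤ b ^ (C + 1) := by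
  rw [pow_succ, mul_comm]
  exact mul_le_mul_of_nonneg_left hb (by positivity)

theorem C2_one_le {b : ℝ} (hb : 2 ≤ b) (C : ℕ) : 1 ≤ b ^ C := one_le_pow₀ (by linarith)

theorem PC.add (hB : ∀ x, 2 ≤ B x) {α β : X → ℂ} (h : PC B α) (h' : PC B β) : PC B (fun x => α x + β x) := by
  obtain ⟨C, hC⟩ := h
  obtain ⟨C', hC'⟩ := h'
  refine ⟨C + C' + 1, fun x => ?_⟩
  obtain ⟨m, D, S, h1, h2, h3, h4, h5⟩ := hC x
  obtain ⟨m', D', S', h1', h2', h3', h4', h5'⟩ := hC' x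
  have hb : (2 : ℝ) ≤ B x := by exact_mod_cast hB x
  have a1 := C2_pow_mono hb (show C ≤ C + C' by omega)
  have a2 := C2_pow_mono hb (show C' ≤ C + C' by omega)
  have a3 := C2_two_mul hb (C + C')
  have a4 := C2_one_le hb (C + C')
  refine ⟨m * m', D * D', S + S', h1.add h1', Nat.mul_pos h2 h2', ?_, ?_, ?_⟩
  · push_cast
    calc (m : ℝ) * m' ≤ (B x : ℝ) ^ C * (B x : ℝ) ^ C' :=
          mul_le_mul h3 h3' (Nat.cast_nonneg _) (by positivity)
      _ = (B x : ℝ) ^ (C + C') := (pow_add _ _ _).symm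
      _ ≤ _ := C2_pow_mono hb (by omega)
  · push_cast
    calc (D : ℝ) * D' ≤ Real.exp ((B x : ℝ) ^ C) * Real.exp ((B x : ℝ) ^ C') :=
          mul_le_mul h4 h4' (Nat.cast_nonneg _) (Real.exp_nonneg _)
      _ = Real.exp ((B x : ℝ) ^ C + (B x : ℝ) ^ C') := (Real.exp_add _ _).symm
      _ ≤ _ := Real.exp_le_exp.2 (by linarith)
  · have e1 : S ≤ Real.exp ((B x : ℝ) ^ (C + C')) := h5.trans (Real.exp_le_exp.2 a1)
    have e2 : S' ≤ Real.exp ((B x : ℝ) ^ (C + C')) := h5'.trans (Real.exp_le_exp.2 a2)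
    have e3 : (2 : ℝ) ≤ Real.exp 1 := by
      have := Real.add_one_le_exp (1 : ℝ)
      linarith
    calc S + S' ≤ 2 * Real.exp ((B x : ℝ) ^ (C + C')) := by linarith
      _ ≤ Real.exp 1 * Real.exp ((B x : ℝ) ^ (C + C')) :=
          mul_le_mul_of_nonneg_right e3 (Real.exp_nonneg _)
      _ = Real.exp (1 + (B x : ℝ) ^ (C + C')) := (Real.exp_add _ _).symm
      _ ≤ _ := Real.exp_le_exp.2 (by linarith)

theorem PC.mul (hB : ∀ x, 2 ≤ B x) {α β : X → ℂ} (h : PC B α) (h' : PC B β) : PC B (fun x => α x * β x) := by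
  obtain ⟨C, hC⟩ := h
  obtain ⟨C', hC'⟩ := h'
  refine ⟨C + C' + 1, fun x => ?_⟩
  obtain ⟨m, D, S, h1, h2, h3, h4, h5⟩ := hC x
  obtain ⟨m', D', S', h1', h2', h3', h4', h5'⟩ := hC' x
  have hb : (2 : ℝ) ≤ B x := by exact_mod_cast hB x
  have a1 := C2_pow_mono hb (show C ≤ C + C' by omega)
  have a2 := C2_pow_mono hb (show C' ≤ C + C' by omega)
  have a3 := C2_two_mul hb (C + C')
  refine ⟨m * m', D * D', S * S', h1.mul h1', Nat.mul_pos h2 h2', ?_, ?_, ?_⟩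
  · push_cast
    calc (m : ℝ) * m' ≤ (B x : ℝ) ^ C * (B x : ℝ) ^ C' :=
          mul_le_mul h3 h3' (Nat.cast_nonneg _) (by positivity)
      _ = (B x : ℝ) ^ (C + C') := (pow_add _ _ _).symm
      _ ≤ _ := C2_pow_mono hb (by omega)
  · push_cast
    calc (D : ℝ) * D' ≤ Real.exp ((B x : ℝ) ^ C) * Real.exp ((B x : ℝ) ^ C') :=
          mul_le_mul h4 h4' (Nat.cast_nonneg _) (Real.exp_nonneg _)
      _ = Real.exp ((B x : ℝ) ^ C + (B x : ℝ) ^ C') := (Real.exp_add _ _).symm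
      _ ≤ _ := Real.exp_le_exp.2 (by linarith)
  · calc S * S' ≤ Real.exp ((B x : ℝ) ^ C) * Real.exp ((B x : ℝ) ^ C') :=
          mul_le_mul h5 h5' (C2_S_nonneg h1') (Real.exp_nonneg _)
      _ = Real.exp ((B x : ℝ) ^ C + (B x : ℝ) ^ C') := (Real.exp_add _ _).symm
      _ ≤ _ := Real.exp_le_exp.2 (by linarith)

theorem PC.const (hB : ∀ x, 2 ≤ B x) (a : ℂ) (h : IsAlgebraic ℚ a) : PC B (fun _ => a) := by
  obtain ⟨m, D, S, hD, hc⟩ := ctrl_of_algebraic a h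
  obtain ⟨C, hC⟩ := exists_nat_gt (max (m : ℝ) (max (D : ℝ) S))
  refine ⟨C, fun x => ⟨m, D, S, hc, hD, ?_, ?_, ?_⟩⟩
  all_goals
    have hb : (2 : ℝ) ≤ B x := by exact_mod_cast hB x
    have h1 : (C : ℝ) ≤ (B x : ℝ) ^ C := by
      have h2 : (C : ℝ) < (2 : ℝ) ^ C := by exact_mod_cast Nat.lt_two_pow_self
      exact h2.le.trans (pow_le_pow_left₀ (by norm_num) hb C)
    have h3 : (B x : ℝ) ^ C ≤ Real.exp ((B x : ℝ) ^ C) := by
      have := Real.add_one_le_exp ((B x : ℝ) ^ C)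
      linarith
    have h4 := le_max_left (m : ℝ) (max (D : ℝ) S)
    have h5 := le_max_right (m : ℝ) (max (D : ℝ) S)
    have h6 := le_max_left (D : ℝ) S
    have h7 := le_max_right (D : ℝ) S
    linarith

/-- reindexing with a bigger size function -/
theorem PC.comp {Y : Type*} {B' : Y → ℕ} (f : Y → X) (hB' : ∀ y, 2 ≤ B' y) (hf : ∀ y, B (f y) ≤ B' y) {α : X → ℂ}
    (h : PC B α) : PC B' (fun y => α (f y)) := by
  obtain ⟨C, hC⟩ := h
  refine ⟨C, fun y => ?_⟩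
  obtain ⟨m, D, S, h1, h2, h3, h4, h5⟩ := hC (f y)
  have e : ((B (f y) : ℕ) : ℝ) ^ C ≤ (B' y : ℝ) ^ C :=
    pow_le_pow_left₀ (Nat.cast_nonneg _) (by exact_mod_cast hf y) C
  exact ⟨m, D, S, h1, h2, h3.trans e, h4.trans (Real.exp_le_exp.2 e), h5.trans (Real.exp_le_exp.2 e)⟩

/-- polynomials in PC families -/
theorem PC.aeval (hB : ∀ x, 2 ≤ B x) {J : Type*} (P : MvPolynomial J ℚ) (α : J → X → ℂ) (h : ∀ j, PC B (α j)) :
    PC B (fun x => MvPolynomial.aeval (fun j => α j x) P) := by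
  induction P using MvPolynomial.induction_on with
  | C a =>
    simp only [MvPolynomial.algHom_C]
    exact PC.const hB _ (isAlgebraic_algebraMap a)
  | add p q hp hq =>
    simp only [map_add]
    exact PC.add hB hp hq
  | mul_X p j hp =>
    simp only [map_mul, MvPolynomial.aeval_X]
    exact PC.mul hB hp (h j)

/-- the lower bound -/
theorem PC.lower (hB : ∀ x, 2 ≤ B x) {α : X → ℂ} (h : PC B α) :
    ∃ C : ℕ, ∀ x, α x = 0 ∨ Real.exp (-(B x : ℝ) ^ C) ≤ ‖α x‖ := by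
  obtain ⟨C, hC⟩ := h
  refine ⟨C + C + 1, fun x => ?_⟩
  by_cases h0 : α x = 0
  · exact Or.inl h0
  refine Or.inr ?_
  obtain ⟨m, D, S, h1, h2, h3, h4, h5⟩ := hC x
  have hb : (2 : ℝ) ≤ B x := by exact_mod_cast hB x
  have hl := h1.lower h2 h0
  have a3 := C2_two_mul hb (C + C)
  have hp : (0 : ℝ) ≤ (B x : ℝ) ^ C := by positivity
  have key : ∀ T : ℝ, 0 ≤ T → T ≤ Real.exp ((B x : ℝ) ^ C) → T ^ m ≤ Real.exp ((B x : ℝ) ^ (C + C)) := by
    intro T hT0 hT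
    calc T ^ m ≤ Real.exp ((B x : ℝ) ^ C) ^ m := pow_le_pow_left₀ hT0 hT m
      _ = Real.exp ((m : ℝ) * (B x : ℝ) ^ C) := (Real.exp_nat_mul _ _).symm
      _ ≤ _ := Real.exp_le_exp.2 (by rw [pow_add]; exact mul_le_mul_of_nonneg_right h3 hp)
  have k1 := key (D : ℝ) (Nat.cast_nonneg _) h4
  have k2 := key (max 1 S) (by positivity) (max_le (Real.one_le_exp hp) h5)
  have k3 : (1 : ℝ) ≤ ‖α x‖ * Real.exp ((B x : ℝ) ^ (C + C + 1)) := by
    calc (1 : ℝ) ≤ ‖α x‖ * (D : ℝ) ^ m * (max 1 S) ^ m := hl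
      _ = ‖α x‖ * ((D : ℝ) ^ m * (max 1 S) ^ m) := by ring
      _ ≤ ‖α x‖ * (Real.exp ((B x : ℝ) ^ (C + C)) * Real.exp ((B x : ℝ) ^ (C + C))) := by
          refine mul_le_mul_of_nonneg_left ?_ (norm_nonneg _)
          exact mul_le_mul k1 k2 (by positivity) (Real.exp_nonneg _)
      _ = ‖α x‖ * Real.exp ((B x : ℝ) ^ (C + C) + (B x : ℝ) ^ (C + C)) := by rw [Real.exp_add]
      _ ≤ _ := mul_le_mul_of_nonneg_left (Real.exp_le_exp.2 (by linarith)) (norm_nonneg _)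
  rw [Real.exp_neg, inv_le_iff_one_le_mul₀ (Real.exp_pos _)]
  exact k3

end Pool.Agent.MSD
end

end

section

/-! # B7a: integrality of the members (MP_f58a57_nt) -/

open Complex ModularForm EisensteinSeries Filter
open UpperHalfPlane hiding I
open scoped Topology MatrixGroups

noncomputable section

namespace Pool.Agent.MSD

theorem b7a_card_TT_le (N : ℕ) (hN : 0 < N) : (TT N).card ≤ N ^ 2 := by
  unfold TT
  rw [Finset.card_sigma]
  have h1 : ∀ p ∈ Nat.divisorsAntidiagonal N, (Finset.range p.2).card ≤ N := by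
    intro p hp
    rw [Finset.card_range]
    rw [Nat.mem_divisorsAntidiagonal] at hp
    exact Nat.le_of_dvd hN (Dvd.intro_left _ hp.1)
  refine (Finset.sum_le_sum h1).trans ?_
  rw [Finset.sum_const, smul_eq_mul, sq]
  refine Nat.mul_le_mul_right _ ?_
  have h2 : (Nat.divisorsAntidiagonal N).card = N.divisors.card := by
    rw [← Nat.map_div_right_divisors, Finset.card_map]
  rw [h2]
  exact Nat.card_divisors_le_self N

theorem b7a_integral_aeval (x : Fin 3 → ℂ) (hx : ∀ i, IsIntegral ℤ (x i)) (Θ : MvPolynomial (Fin 3) ℤ) :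
    IsIntegral ℤ (MvPolynomial.aeval x Θ) := by
  induction Θ using MvPolynomial.induction_on with
  | C a => simpa using isIntegral_algebraMap (R := ℤ) (A := ℂ) (x := a)
  | add p q hp hq => rw [map_add]; exact hp.add hq
  | mul_X p i hp => rw [map_mul, MvPolynomial.aeval_X]; exact hp.mul (hx i)

/-- B7a. `D α` integral. (`theta_norm` and `integral_of_psum`; `card! ∣ (N²)!`.) -/
theorem Gr_integral (τ Ω : ℂ) (h : CMBase τ Ω) (κ : Fin 3) (N : ℕ) (hN : 0 < N)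
    (ρ : Σ _ : ℕ × ℕ, ℕ) (hρ : ρ ∈ TT N) : IsIntegral ℤ (((N ^ 2).factorial : ℂ) * (Gr κ τ ρ / Ω ^ kwt κ)) := by
  have hps : ∀ k : ℕ, 0 < k → IsIntegral ℤ (∑ ρ ∈ TT N, (Gr κ τ ρ / Ω ^ kwt κ) ^ k) := by
    intro k _
    obtain ⟨Θ, hΘ⟩ := theta_norm κ N k hN
    rw [hΘ τ Ω h.im h.ne]
    refine b7a_integral_aeval _ ?_ Θ
    intro i
    fin_cases i
    · exact h.i4
    · exact h.i6
    · exact h.idl
  have h1 := integral_of_psum (TT N) (fun ρ => Gr κ τ ρ / Ω ^ kwt κ) hps ρ hρ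
  obtain ⟨m, hm⟩ := Nat.factorial_dvd_factorial (b7a_card_TT_le N hN)
  rw [hm, Nat.cast_mul, mul_comm ((TT N).card.factorial : ℂ) (m : ℂ), mul_assoc]
  refine IsIntegral.mul ?_ h1
  simpa using isIntegral_algebraMap (R := ℤ) (A := ℂ) (x := (m : ℤ))

end Pool.Agent.MSD
end

end

section

/-! # B8d: the weight 2 value at a CM point (MP_f58a57_nt) -/

open Complex ModularForm EisensteinSeries Filter
open UpperHalfPlane hiding I
open scoped Topology MatrixGroups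

noncomputable section

namespace Pool.Agent.MSD

theorem b8d_int_aeval (f : Fin 3 → ℂ) (hf : ∀ i, IsIntegral ℤ (f i)) (Θ : MvPolynomial (Fin 3) ℤ) :
    IsIntegral ℤ (MvPolynomial.aeval f Θ) := by
  induction Θ using MvPolynomial.induction_on with
  | C a =>
    rw [MvPolynomial.aeval_C]
    exact isIntegral_algebraMap
  | add p q hp hq =>
    rw [map_add]
    exact hp.add hq
  | mul_X p i hp =>
    rw [map_mul, MvPolynomial.aeval_X]
    exact hp.mul (hf i)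

theorem b8d_rt_im (d : ℕ) (hd : 0 < d) : 0 < (rt d).im := by
  have hsd : 0 < Real.sqrt d := Real.sqrt_pos.2 (by exact_mod_cast hd)
  unfold rt
  simpa using hsd

theorem b8d_rt_sq (d : ℕ) : rt d ^ 2 = -(d : ℂ) := by
  unfold rt
  rw [mul_pow, I_sq, ← ofReal_pow, Real.sq_sqrt (Nat.cast_nonneg d)]
  push_cast
  ring

/-- the member of the weight 2 family given by the matrix `(0 -d; 1 0)` -/
theorem b8d_mem (d : ℕ) (hd : 0 < d) : ∃ ρ ∈ TT d, Gr 2 (rt d) ρ = -2 * (d : ℂ) * e2s (rt d) := by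
  have him := b8d_rt_im d hd
  have hsq := b8d_rt_sq d
  have hd0 : (d : ℂ) ≠ 0 := Nat.cast_ne_zero.2 hd.ne'
  have ht0 : rt d ≠ 0 := fun h => by
    rw [h] at him
    simp at him
  obtain ⟨M, hMdef⟩ : ∃ M : Matrix (Fin 2) (Fin 2) ℤ, M = !![0, -(d : ℤ); 1, 0] := ⟨_, rfl⟩
  have hM : M.det = (d : ℤ) := by
    rw [hMdef, Matrix.det_fin_two_of]
    ring
  obtain ⟨γ, hγ, ρ, hρ, hMρ⟩ := exists_rep d hd M hM
  refine ⟨ρ, hρ, ?_⟩
  have h1 : FM 2 d M (rt d) = Gr 2 (rt d) ρ := by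
    rw [hMρ, FM_left 2 d hd γ (mat ρ) hγ (det_mat d ρ hρ) (rt d) him, FM_mat 2 d hd ρ hρ (rt d) him]
  rw [← h1, FM_two d hd M hM (rt d) him, hMdef]
  have h2 : (((0 : ℤ) : ℂ) * rt d + ((-(d : ℤ) : ℤ) : ℂ)) / (((1 : ℤ) : ℂ) * rt d + ((0 : ℤ) : ℂ)) = rt d := by
    push_cast
    rw [zero_mul, zero_add, one_mul, add_zero, div_eq_iff ht0, ← sq, hsq]
  have h3 : ((d : ℂ) / (((1 : ℤ) : ℂ) * rt d + ((0 : ℤ) : ℂ))) ^ 2 = -(d : ℂ) := by
    push_cast
    rw [one_mul, add_zero, div_pow, hsq]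
    field_simp
  show ((d : ℂ) / (((1 : ℤ) : ℂ) * rt d + ((0 : ℤ) : ℂ))) ^ 2 *
    e2s ((((0 : ℤ) : ℂ) * rt d + ((-(d : ℤ) : ℤ) : ℂ)) / (((1 : ℤ) : ℂ) * rt d + ((0 : ℤ) : ℂ))) - d * e2s (rt d) = _
  rw [h2, h3]
  ring

/-- B8d. PROOF. `M = (0 -d; 1 0)`: `FM 2 d M τ = d² τ⁻² e2s τ - d e2s τ = -2d e2s τ` (B2d), a member of the family, so algebraic after
normalisation (`theta_norm` and B5c: root of a polynomial with coefficients in an algebraic extension). -/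
theorem cm_e2 (d : ℕ) (hd : 0 < d) (Ω : ℂ) (h : CMBase (rt d) Ω) : IsAlgebraic ℚ (e2s (rt d) / Ω ^ 2) := by
  have him := b8d_rt_im d hd
  have hd0 : (d : ℂ) ≠ 0 := Nat.cast_ne_zero.2 hd.ne'
  obtain ⟨ρ, hρ, hG⟩ := b8d_mem d hd
  have h1 : ∀ k : ℕ, 0 < k → IsIntegral ℤ (∑ ρ ∈ TT d, (Gr 2 (rt d) ρ / Ω ^ kwt 2) ^ k) := by
    intro k _
    obtain ⟨Θ, hΘ⟩ := theta_norm 2 d k hd
    rw [hΘ (rt d) Ω him h.ne]
    refine b8d_int_aeval _ (fun i => ?_) Θ
    fin_cases i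
    · exact h.i4
    · exact h.i6
    · exact h.idl
  have h2 := integral_of_psum (TT d) (fun ρ => Gr 2 (rt d) ρ / Ω ^ kwt 2) h1 ρ hρ
  have h3 : IsAlgebraic ℚ ((((TT d).card).factorial : ℂ) * (Gr 2 (rt d) ρ / Ω ^ kwt 2)) := by
    have h4 : IsAlgebraic ℤ ((((TT d).card).factorial : ℂ) * (Gr 2 (rt d) ρ / Ω ^ kwt 2)) := h2.isAlgebraic
    exact h4.extendScalars (Int.cast_injective)
  have hf0 : (((TT d).card).factorial : ℂ) ≠ 0 := Nat.cast_ne_zero.2 (Nat.factorial_ne_zero _)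
  have h5 : e2s (rt d) / Ω ^ 2 = ((((TT d).card).factorial : ℂ) * (Gr 2 (rt d) ρ / Ω ^ kwt 2)) *
      algebraMap ℚ ℂ ((-2 * (d : ℚ) * (((TT d).card).factorial : ℚ))⁻¹) := by
    rw [hG]
    have hΩ0 := h.ne
    show _ = ((((TT d).card).factorial : ℂ) * (-2 * (d : ℂ) * e2s (rt d) / Ω ^ 2)) *
      (((-2 * (d : ℚ) * (((TT d).card).factorial : ℚ))⁻¹ : ℚ) : ℂ)
    push_cast
    field_simp
  rw [h5]
  exact h3.mul (isAlgebraic_algebraMap _)

end Pool.Agent.MSD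
end

end

section

/-! # B7: degree and height of the members (MP_f58a57_nt) -/

open Complex ModularForm EisensteinSeries Filter
open UpperHalfPlane hiding I
open scoped Topology MatrixGroups

noncomputable section

namespace Pool.Agent.MSD

/-- B7. Summary of B7a, B7b, B7c (`Gr/Ω^w` is algebraic because `(N²)! · Gr/Ω^w` is integral). -/
theorem ctrl_Gr (τ Ω : ℂ) (h : CMBase τ Ω) : ∃ C : ℕ, ∀ (κ : Fin 3) (N : ℕ), 0 < N → ∀ ρ ∈ TT N,
    Ctrl (C * N ^ 2) ((N ^ 2).factorial) ((C : ℝ) * (N : ℝ) ^ C) (Gr κ τ ρ / Ω ^ kwt κ) := by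
  obtain ⟨C₁, h₁⟩ := Gr_degree τ Ω h
  obtain ⟨C₂, h₂⟩ := Gr_conj τ Ω h
  refine ⟨max C₁ C₂, fun κ N hN ρ hρ => ?_⟩
  have hint := Gr_integral τ Ω h κ N hN ρ hρ
  have hN1 : (1 : ℝ) ≤ N := by exact_mod_cast hN
  refine ⟨?_, hint, ?_, ?_⟩
  · have h0 : (((N ^ 2).factorial : ℕ) : ℂ) ≠ 0 := by
      exact_mod_cast Nat.factorial_ne_zero _
    have h1 : IsAlgebraic ℚ ((((N ^ 2).factorial : ℕ) : ℂ) * (Gr κ τ ρ / Ω ^ kwt κ)) :=
      (hint.tower_top (A := ℚ)).isAlgebraic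
    have h2 : IsAlgebraic ℚ ((((N ^ 2).factorial : ℕ) : ℂ)⁻¹) := by
      have : ((((N ^ 2).factorial : ℕ) : ℂ)⁻¹) = algebraMap ℚ ℂ ((((N ^ 2).factorial : ℕ) : ℚ)⁻¹) := by
        simp
      rw [this]
      exact isAlgebraic_algebraMap _
    have h3 := h2.mul h1
    rwa [← mul_assoc, inv_mul_cancel₀ h0, one_mul] at h3
  · exact (h₁ κ N hN ρ hρ).trans (Nat.mul_le_mul_right _ (le_max_left _ _))
  · intro r hr
    refine (h₂ κ N hN ρ hρ r hr).trans ?_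
    refine mul_le_mul ?_ (pow_le_pow_right₀ hN1 (le_max_right _ _)) (by positivity) (by positivity)
    exact_mod_cast le_max_right C₁ C₂

end Pool.Agent.MSD
end

end

section

/-! # C3c: the values at rational points are PC families (MP_f58a57_nt) -/

open Complex ModularForm EisensteinSeries Filter
open UpperHalfPlane hiding I
open scoped Topology MatrixGroups

noncomputable section

namespace Pool.Agent.MSD

/-- a family of rational numbers with polynomially bounded denominators and absolute values -/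
theorem pc_ratFam {X : Type*} {B : X → ℕ} (f : X → ℚ) (C : ℕ) (h1 : ∀ x, (f x).den ≤ B x ^ C)
    (h2 : ∀ x, |(f x : ℝ)| ≤ (B x : ℝ) ^ C) : PC B (fun x => ((f x : ℚ) : ℂ)) := by
  refine ⟨C, fun x => ⟨1, (f x).den, |(f x : ℝ)|, ctrl_rat (f x), (f x).den_pos, ?_, ?_, ?_⟩⟩
  · have h3 : 1 ≤ B x ^ C := (f x).den_pos.trans_le (h1 x)
    exact_mod_cast h3
  · have h3 : ((f x).den : ℝ) ≤ (B x : ℝ) ^ C := by exact_mod_cast h1 x
    exact h3.trans ((le_add_of_nonneg_right zero_le_one).trans (Real.add_one_le_exp _))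
  · exact (h2 x).trans ((le_add_of_nonneg_right zero_le_one).trans (Real.add_one_le_exp _))

theorem c3_le_pow (n B : ℕ) (hB : 2 ≤ B) : n ≤ B ^ n :=
  (Nat.lt_two_pow_self).le.trans (Nat.pow_le_pow_left hB n)

/-- if `n ≤ C * den ^ 4` then `n ≤ (2 + den) ^ (C + 4)` -/
theorem c3_size (C n b : ℕ) (h : n ≤ C * b ^ 4) : n ≤ (2 + b) ^ (C + 4) := by
  refine h.trans ?_
  rw [pow_add]
  exact Nat.mul_le_mul (c3_le_pow C (2 + b) (Nat.le_add_right 2 b))
    (Nat.pow_le_pow_left (Nat.le_add_left b 2) 4)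

/-- the members of the families are PC -/
theorem pc_GrFam {X : Type*} {B : X → ℕ} (hB : ∀ x, 2 ≤ B x) (τ Ω : ℂ) (h : CMBase τ Ω) (κ : Fin 3)
    (N : X → ℕ) (hN : ∀ x, 0 < N x) (K : ℕ) (hK : ∀ x, N x ≤ B x ^ K)
    (ρ : X → (Σ _ : ℕ × ℕ, ℕ)) (hρ : ∀ x, ρ x ∈ TT (N x)) :
    PC B (fun x => Gr κ τ (ρ x) / Ω ^ kwt κ) := by
  obtain ⟨C, hC⟩ := ctrl_Gr τ Ω h
  refine ⟨C + K * C + 4 * K, fun x => ⟨C * N x ^ 2, (N x ^ 2).factorial, (C : ℝ) * (N x : ℝ) ^ C,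
    hC κ (N x) (hN x) (ρ x) (hρ x), Nat.factorial_pos _, ?_, ?_, ?_⟩⟩
  · have h1 : C * N x ^ 2 ≤ B x ^ (C + K * C + 4 * K) := by
      calc C * N x ^ 2 ≤ B x ^ C * (B x ^ K) ^ 2 :=
            Nat.mul_le_mul (c3_le_pow C _ (hB x)) (Nat.pow_le_pow_left (hK x) 2)
        _ = B x ^ (C + K * 2) := by rw [← pow_mul, ← pow_add]
        _ ≤ B x ^ (C + K * C + 4 * K) := by
            apply Nat.pow_le_pow_right (by have := hB x; omega)
            nlinarith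
    exact_mod_cast h1
  · have h1 : ((N x ^ 2).factorial : ℝ) ≤ ((N x ^ 2 : ℕ) : ℝ) ^ (N x ^ 2) := by
      exact_mod_cast Nat.factorial_le_pow (N x ^ 2)
    have h2 : (0 : ℝ) < ((N x ^ 2 : ℕ) : ℝ) := by
      have := hN x
      positivity
    have h3 : ((N x ^ 2 : ℕ) : ℝ) ^ (N x ^ 2) ≤ Real.exp (((N x ^ 4 : ℕ) : ℝ)) := by
      have h4 : ((N x ^ 2 : ℕ) : ℝ) ≤ Real.exp ((N x ^ 2 : ℕ) : ℝ) :=
        (le_add_of_nonneg_right zero_le_one).trans (Real.add_one_le_exp _)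
      refine (pow_le_pow_left₀ h2.le h4 _).trans (le_of_eq ?_)
      rw [← Real.exp_nat_mul]
      congr 1
      push_cast
      ring
    refine h1.trans (h3.trans (Real.exp_le_exp.2 ?_))
    have h5 : N x ^ 4 ≤ B x ^ (C + K * C + 4 * K) := by
      calc N x ^ 4 ≤ (B x ^ K) ^ 4 := Nat.pow_le_pow_left (hK x) 4
        _ = B x ^ (K * 4) := by rw [← pow_mul]
        _ ≤ B x ^ (C + K * C + 4 * K) := by
            apply Nat.pow_le_pow_right (by have := hB x; omega)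
            nlinarith
    exact_mod_cast h5
  · have h1 : C * N x ^ C ≤ B x ^ (C + K * C + 4 * K) := by
      calc C * N x ^ C ≤ B x ^ C * (B x ^ K) ^ C :=
            Nat.mul_le_mul (c3_le_pow C _ (hB x)) (Nat.pow_le_pow_left (hK x) C)
        _ = B x ^ (C + K * C) := by rw [← pow_mul, ← pow_add]
        _ ≤ B x ^ (C + K * C + 4 * K) := by
            apply Nat.pow_le_pow_right (by have := hB x; omega)
            omega
    have h2 : (C : ℝ) * (N x : ℝ) ^ C ≤ (B x : ℝ) ^ (C + K * C + 4 * K) := by exact_mod_cast h1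
    exact h2.trans ((le_add_of_nonneg_right zero_le_one).trans (Real.add_one_le_exp _))

/-- powers of reciprocals -/
theorem pc_invFam {X : Type*} {B : X → ℕ} (hB : ∀ x, 2 ≤ B x) (q : X → ℕ) (hq : ∀ x, 0 < q x) (K w : ℕ)
    (hK : ∀ x, q x ≤ B x ^ K) : PC B (fun x => 1 / (q x : ℂ) ^ w) := by
  have h1 : ∀ x, (1 / ((q x : ℚ)) ^ w : ℚ) = ((q x ^ w : ℕ) : ℚ)⁻¹ := fun x => by
    push_cast
    rw [one_div]
  have h2 : (fun x => 1 / (q x : ℂ) ^ w) = fun x => (((1 / (q x : ℚ) ^ w : ℚ)) : ℂ) := by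
    funext x
    push_cast
    rfl
  rw [h2]
  refine pc_ratFam _ (K * w) (fun x => ?_) (fun x => ?_)
  · rw [h1 x, Rat.inv_natCast_den_of_pos (pow_pos (hq x) w)]
    calc q x ^ w ≤ (B x ^ K) ^ w := Nat.pow_le_pow_left (hK x) w
      _ = B x ^ (K * w) := by rw [← pow_mul]
  · have h3 : (1 : ℝ) ≤ (q x : ℝ) ^ w := one_le_pow₀ (by exact_mod_cast hq x)
    have h4 : (1 : ℝ) ≤ (B x : ℝ) ^ (K * w) := one_le_pow₀ (by
      have := hB x
      exact_mod_cast (by omega : 1 ≤ B x))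
    push_cast
    rw [abs_of_nonneg (by positivity)]
    refine le_trans ?_ h4
    rw [div_le_one (by linarith)]
    exact h3

/-- C3c. The values at rational points are families of polynomially bounded degree and logarithmic height. -/
theorem pc_values (d : ℕ) (hd : 0 < d) (Ω : ℂ) (hΩ : CMBase (rt d) Ω) (h : Mob) (hK : h.InK d) (R : ℝ) (κ : Fin 3) :
    PC (X := {x : ℚ // |(x : ℝ)| ≤ R ∧ 0 < h.N (x : ℂ)}) (fun x => 2 + x.1.den)
      (fun x => ![e2s (h.app (x.1 : ℂ)) / Ω ^ 2, e4 (h.app (x.1 : ℂ)) / Ω ^ 4, e6 (h.app (x.1 : ℂ)) / Ω ^ 6] κ) := by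
  obtain ⟨C, hC⟩ := cm_coords d hd h hK R
  have hC' : ∀ x : {x : ℚ // |(x : ℝ)| ≤ R ∧ 0 < h.N (x : ℂ)}, ∃ (q r : ℕ) (p : ℤ), 0 < q ∧ 0 < r ∧
      q * r ≤ C * x.1.den ^ 4 ∧ h.app (x.1 : ℂ) = (q * rt d + p) / r := fun x => hC x.1 x.2.1 x.2.2
  choose q r p hq hr hqr happ using hC'
  have hV := fun x => values_Gr d hd (q x) (r x) (p x) (hq x) (hr x)
  choose ρ hρ h4 h6 h2 using hV
  have hB : ∀ x : {x : ℚ // |(x : ℝ)| ≤ R ∧ 0 < h.N (x : ℂ)}, 2 ≤ 2 + x.1.den := fun x => Nat.le_add_right _ _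
  have hN : ∀ x, q x * r x ≤ (2 + x.1.den) ^ (C + 4) := fun x => c3_size C _ _ (hqr x)
  have hq' : ∀ x, q x ≤ (2 + x.1.den) ^ (C + 4) := fun x =>
    (Nat.le_mul_of_pos_right (q x) (hr x)).trans (hN x)
  have hG := fun κ' => pc_GrFam hB (rt d) Ω hΩ κ' (fun x => q x * r x)
    (fun x => Nat.mul_pos (hq x) (hr x)) (C + 4) hN ρ hρ
  have hI := fun w => pc_invFam hB q hq (C + 4) w hq'
  fin_cases κ
  · have hE : PC (fun x : {x : ℚ // |(x : ℝ)| ≤ R ∧ 0 < h.N (x : ℂ)} => 2 + x.1.den)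
        (fun _ => e2s (rt d) / Ω ^ 2) := PC.const hB _ (cm_e2 d hd Ω hΩ)
    have hM : PC (fun x : {x : ℚ // |(x : ℝ)| ≤ R ∧ 0 < h.N (x : ℂ)} => 2 + x.1.den)
        (fun x => (((q x * r x : ℕ) : ℚ) : ℂ)) := by
      refine pc_ratFam _ (C + 4) (fun x => ?_) (fun x => ?_)
      · rw [Rat.den_natCast]
        exact Nat.one_le_pow _ _ (by omega)
      · rw [Rat.cast_natCast, abs_of_nonneg (Nat.cast_nonneg _)]
        exact_mod_cast hN x
    have hT := PC.mul hB (PC.add hB (hG 2) (PC.mul hB hM hE)) (hI 2)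
    refine (congrArg (PC _) ?_).mp hT
    funext x
    show _ = e2s (h.app (x.1 : ℂ)) / Ω ^ 2
    rw [happ x, h2 x]
    have hΩ0 := hΩ.ne
    have hq0 : (q x : ℂ) ≠ 0 := Nat.cast_ne_zero.2 (hq x).ne'
    show (Gr 2 (rt d) (ρ x) / Ω ^ 2 + ((q x * r x : ℕ) : ℚ) * (e2s (rt d) / Ω ^ 2)) * (1 / (q x : ℂ) ^ 2) = _
    push_cast
    field_simp
  · have hT := PC.mul hB (hG 0) (hI 4)
    refine (congrArg (PC _) ?_).mp hT
    funext x
    show _ = e4 (h.app (x.1 : ℂ)) / Ω ^ 4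
    rw [happ x, h4 x]
    have hΩ0 := hΩ.ne
    have hq0 : (q x : ℂ) ≠ 0 := Nat.cast_ne_zero.2 (hq x).ne'
    show (Gr 0 (rt d) (ρ x) / Ω ^ 4) * (1 / (q x : ℂ) ^ 4) = _
    field_simp
  · have hT := PC.mul hB (hG 1) (hI 6)
    refine (congrArg (PC _) ?_).mp hT
    funext x
    show _ = e6 (h.app (x.1 : ℂ)) / Ω ^ 6
    rw [happ x, h6 x]
    have hΩ0 := hΩ.ne
    have hq0 : (q x : ℂ) ≠ 0 := Nat.cast_ne_zero.2 (hq x).ne'
    show (Gr 1 (rt d) (ρ x) / Ω ^ 6) * (1 / (q x : ℂ) ^ 6) = _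
    field_simp

/-- the rational numbers themselves -/
theorem pc_rat (R : ℝ) : PC (X := {x : ℚ // |(x : ℝ)| ≤ R}) (fun x => 2 + x.1.den) (fun x => ((x.1 : ℚ) : ℂ)) := by
  refine pc_ratFam (fun x : {x : ℚ // |(x : ℝ)| ≤ R} => x.1) (⌈R⌉₊ + 1) (fun x => ?_) (fun x => ?_)
  · calc x.1.den ≤ (2 + x.1.den) ^ 1 := by rw [pow_one]; omega
      _ ≤ (2 + x.1.den) ^ (⌈R⌉₊ + 1) := Nat.pow_le_pow_right (by omega) (by omega)
  · refine x.2.trans ((Nat.le_ceil R).trans ?_)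
    have h1 : ⌈R⌉₊ ≤ (2 + x.1.den) ^ (⌈R⌉₊ + 1) :=
      (c3_le_pow ⌈R⌉₊ (2 + x.1.den) (by omega)).trans (Nat.pow_le_pow_right (by omega) (by omega))
    exact_mod_cast h1

/-- C3d. Algebraicity at the points of `K` (special case of the previous ones). -/
theorem algebraic_e4 (d : ℕ) (hd : 0 < d) (Ω : ℂ) (hΩ : CMBase (rt d) Ω) (z : ℂ) (hz : 0 < z.im) (hK : z ∈ KK d) :
    IsAlgebraic ℚ (e4 z / Ω ^ 4) := by
  obtain ⟨u, v, rfl⟩ := hK
  have hsd : 0 < Real.sqrt d := Real.sqrt_pos.2 (by exact_mod_cast hd)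
  have him : ((u : ℂ) + v * rt d).im = (v : ℝ) * Real.sqrt d := by
    have h1 : ((u : ℂ) + v * rt d) = ((u : ℝ) : ℂ) + (((v : ℝ) * Real.sqrt d : ℝ) : ℂ) * I := by
      unfold rt
      push_cast
      ring
    rw [h1]
    simp
  have hv : 0 < v := by
    rw [him] at hz
    have h2 : (0 : ℝ) < v := by
      by_contra h3
      push Not at h3
      nlinarith
    exact_mod_cast h2
  have hvn : 0 < v.num := Rat.num_pos.2 hv
  obtain ⟨n, hn⟩ := Int.eq_ofNat_of_zero_le hvn.le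
  have hn0 : 0 < n := by omega
  obtain ⟨ρ, hρ, h4, -, -⟩ := values_Gr d hd (n * u.den) (v.den * u.den) (u.num * v.den)
    (Nat.mul_pos hn0 u.den_pos) (Nat.mul_pos v.den_pos u.den_pos)
  have hz' : ((u : ℂ) + v * rt d) = (((n * u.den : ℕ) : ℂ) * rt d + ((u.num * v.den : ℤ) : ℂ)) /
      ((v.den * u.den : ℕ) : ℂ) := by
    have hu0 : (u.den : ℂ) ≠ 0 := Nat.cast_ne_zero.2 u.den_pos.ne'
    have hv0 : (v.den : ℂ) ≠ 0 := Nat.cast_ne_zero.2 v.den_pos.ne'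
    have hu1 : (u : ℂ) = (u.num : ℂ) / (u.den : ℂ) := Rat.cast_def u
    have hv1 : (v : ℂ) = (n : ℂ) / (v.den : ℂ) := by
      rw [Rat.cast_def v, hn]
      simp
    rw [hu1, hv1]
    push_cast
    field_simp
    ring
  rw [hz', h4]
  obtain ⟨C, hC⟩ := ctrl_Gr (rt d) Ω hΩ
  have h5 := (hC 0 _ (Nat.mul_pos (Nat.mul_pos hn0 u.den_pos) (Nat.mul_pos v.den_pos u.den_pos)) ρ hρ).alg
  have h6 : Gr 0 (rt d) ρ / ((n * u.den : ℕ) : ℂ) ^ 4 / Ω ^ 4 =
      (Gr 0 (rt d) ρ / Ω ^ kwt 0) * ((((n * u.den : ℕ) : ℚ) ^ 4)⁻¹ : ℚ) := by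
    show _ = (Gr 0 (rt d) ρ / Ω ^ 4) * _
    push_cast
    field_simp
  rw [h6]
  exact h5.mul (isAlgebraic_algebraMap (R := ℚ) (A := ℂ) ((((n * u.den : ℕ) : ℚ) ^ 4)⁻¹))

end Pool.Agent.MSD
end

end
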