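import Mathlib
import Pool.Agent.Lib.MP_f58a57_nt.Defs

section

/-! # G3: orbits, special points, equivalence (MP_f58a57_nt) -/

open Complex ModularForm EisensteinSeries Filter
open UpperHalfPlane hiding I
open scoped Topology MatrixGroups

noncomputable section

namespace Pool.Agent.MSD

theorem rt_sq_g3 (d : ℕ) : rt d ^ 2 = -(d : ℂ) := by
  unfold rt
  rw [mul_pow, I_sq, ← Complex.ofReal_pow, Real.sq_sqrt (Nat.cast_nonneg d)]
  push_cast
  ring

theorem rt_algebraic_g3 (d : ℕ) : IsAlgebraic ℚ (rt d) := by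
  refine ⟨Polynomial.X ^ 2 + Polynomial.C (d : ℚ), ?_, ?_⟩
  · exact (Polynomial.monic_X_pow_add_C (d : ℚ) (by norm_num)).ne_zero
  · simp [rt_sq_g3]

/-- G3a. elements of `K` are algebraic, `K` is a field closed under conjugation. -/
theorem KK_algebraic (d : ℕ) (w : ℂ) (h : w ∈ KK d) : IsAlgebraic ℚ w := by
  obtain ⟨u, v, rfl⟩ := h
  have hu : IsAlgebraic ℚ (u : ℂ) := by
    have := isAlgebraic_algebraMap (R := ℚ) (A := ℂ) u
    simpa using this
  have hv : IsAlgebraic ℚ (v : ℂ) := by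
    have := isAlgebraic_algebraMap (R := ℚ) (A := ℂ) v
    simpa using this
  exact hu.add (hv.mul (rt_algebraic_g3 d))

theorem KK_conj_g3 (d : ℕ) (w : ℂ) (h : w ∈ KK d) : (starRingEnd ℂ) w ∈ KK d := by
  obtain ⟨u, v, rfl⟩ := h
  refine ⟨u, -v, ?_⟩
  unfold rt
  simp

/-- G3b. A point of the orbit is the value of a Möbius transformation with entries in `K`; `N > 0` at `t`. -/
theorem orbit_mob (d : ℕ) (t : ℝ) (z : ℂ) (hz : 0 < z.im) (h : InOrbit d t z) :
    ∃ m : Mob, m.InK d ∧ m.app (t : ℂ) = z ∧ 0 < m.N (t : ℂ) := by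
  obtain ⟨a, b, c, e, ha, hb, hc, he, hdet, hne, hzz⟩ := h
  refine ⟨⟨a, b, c, e, hdet⟩, ⟨ha, hb, hc, he⟩, hzz.symm, ?_⟩
  show 0 < ((a * (t : ℂ) + b) * (starRingEnd ℂ) (c * (t : ℂ) + e)).im
  have h1 : a * (t : ℂ) + b = z * (c * t + e) := by
    rw [hzz, div_mul_cancel₀ _ hne]
  rw [h1, mul_assoc, Complex.mul_conj, Complex.im_mul_ofReal]
  exact mul_pos hz (Complex.normSq_pos.mpr hne)

/-- G3c. `t` and `Im z` are algebraic over `ℚ(z)`: `t = (e z - b)/(a - c z)`, `Im z = (z - z̄)/(2i)`, `z̄ = (ā t + b̄)/(c̄ t + ē)`. -/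
theorem t_algebraic (d : ℕ) (t : ℝ) (z : ℂ) (hz : 0 < z.im) (h : InOrbit d t z) (F : IntermediateField ℚ ℂ) (hF : z ∈ F) :
    IsAlgebraic F (t : ℂ) ∧ IsAlgebraic F (z.im : ℂ) := by
  obtain ⟨a, b, c, e, ha, hb, hc, he, hdet, hne, hzz⟩ := h
  have hK : ∀ w ∈ KK d, IsAlgebraic F w := fun w hw => (KK_algebraic d w hw).extendScalars
    (FaithfulSMul.algebraMap_injective ℚ F)
  have hzF : IsAlgebraic F z := by
    have := isAlgebraic_algebraMap (R := F) (A := ℂ) ⟨z, hF⟩
    simpa using this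
  have h1 : a * (t : ℂ) + b = z * (c * t + e) := by
    rw [hzz, div_mul_cancel₀ _ hne]
  have h2 : a - c * z ≠ 0 := by
    intro h0
    apply hdet
    have : (a - c * z) * (c * t + e) = a * e - b * c := by linear_combination c * h1
    rw [← this, h0, zero_mul]
  have h3 : (t : ℂ) = (e * z - b) / (a - c * z) := by
    rw [eq_div_iff h2]
    linear_combination h1
  have ht : IsAlgebraic F (t : ℂ) := by
    rw [h3]
    exact (((hK e he).mul hzF).sub (hK b hb)).mul ((hK a ha).sub ((hK c hc).mul hzF)).inv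
  refine ⟨ht, ?_⟩
  have h4 : (starRingEnd ℂ) z = ((starRingEnd ℂ) a * t + (starRingEnd ℂ) b) / ((starRingEnd ℂ) c * t + (starRingEnd ℂ) e) := by
    rw [hzz]
    simp
  have h5 : IsAlgebraic F ((starRingEnd ℂ) z) := by
    rw [h4]
    exact (((hK _ (KK_conj_g3 d a ha)).mul ht).add (hK _ (KK_conj_g3 d b hb))).mul
      (((hK _ (KK_conj_g3 d c hc)).mul ht).add (hK _ (KK_conj_g3 d e he))).inv
  have h6 : (z.im : ℂ) = (z - (starRingEnd ℂ) z) * (2 * I)⁻¹ := by
    rw [Complex.sub_conj]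
    field_simp
    push_cast
    ring
  rw [h6]
  have h7 : IsAlgebraic F (2 * I) := by
    have hI : IsAlgebraic F I := by
      refine ⟨Polynomial.X ^ 2 + Polynomial.C 1, ?_, ?_⟩
      · exact (Polynomial.monic_X_pow_add_C (1 : F) (by norm_num)).ne_zero
      · simp
    have h8 : IsAlgebraic F (2 : ℂ) := by
      have h9 : (2 : ℂ) = 1 + 1 := by norm_num
      rw [h9]
      exact isAlgebraic_one.add isAlgebraic_one
    exact h8.mul hI
  exact (hzF.sub h5).mul h7.inv

end Pool.Agent.MSD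
end

end

section

/-! # G3ef: points of K (MP_f58a57_nt) -/

open Complex ModularForm EisensteinSeries Filter
open UpperHalfPlane hiding I
open scoped Topology MatrixGroups

noncomputable section

namespace Pool.Agent.MSD

theorem g3e_rt_sq (d : ℕ) : rt d ^ 2 = -(d : ℂ) := by
  rw [rt, mul_pow, I_sq]
  have : ((Real.sqrt d : ℂ)) ^ 2 = ((Real.sqrt d ^ 2 : ℝ) : ℂ) := by push_cast; rfl
  rw [this, Real.sq_sqrt (Nat.cast_nonneg d)]
  push_cast
  ring

theorem g3e_im (d : ℕ) (u v : ℚ) : ((u : ℂ) + v * rt d).im = v * Real.sqrt d := by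
  simp [rt]

/-- G3e. Two points of `K` in the upper half plane are in one `GL₂(ℚ)`-orbit; points of `K ∖ ℝ` are special. -/
theorem equiv_of_KK (d : ℕ) (z w : ℂ) (hz : 0 < z.im) (hw : 0 < w.im) (h : z ∈ KK d) (h' : w ∈ KK d) : GEquiv z w := by
  obtain ⟨u, v, rfl⟩ := h
  obtain ⟨u', v', rfl⟩ := h'
  rw [g3e_im] at hz hw
  have hv : v ≠ 0 := by
    rintro rfl
    simp at hz
  have hv' : v' ≠ 0 := by
    rintro rfl
    simp at hw
  have hvC : (v : ℂ) ≠ 0 := by exact_mod_cast hv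
  have hvC' : (v' : ℂ) ≠ 0 := by exact_mod_cast hv'
  refine ⟨v' / v, u' - v' * u / v, 0, 1, ?_, ?_, ?_⟩
  · push_cast
    simp only [mul_one, mul_zero, sub_zero]
    exact div_ne_zero hvC' hvC
  · push_cast
    simp
  · push_cast
    field_simp
    ring

theorem special_of_KK (d : ℕ) (z : ℂ) (h : z ∈ KK d) : IsSpecial z := by
  obtain ⟨u, v, rfl⟩ := h
  have hu : (u : ℂ) * (u.den : ℂ) = (u.num : ℂ) := by
    have := Rat.mul_den_eq_num u
    exact_mod_cast this
  have hv : (v : ℂ) * (v.den : ℂ) = (v.num : ℂ) := by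
    have := Rat.mul_den_eq_num v
    exact_mod_cast this
  refine ⟨((u.den : ℤ) * v.den) ^ 2, -2 * u.num * u.den * (v.den : ℤ) ^ 2,
    u.num ^ 2 * (v.den : ℤ) ^ 2 + v.num ^ 2 * (u.den : ℤ) ^ 2 * d, ?_, ?_⟩
  · rintro ⟨h1, -, -⟩
    have h1' : ((u.den : ℤ) * v.den) ^ 2 ≠ 0 := by
      refine pow_ne_zero _ (mul_ne_zero ?_ ?_)
      · exact_mod_cast u.den_ne_zero
      · exact_mod_cast v.den_ne_zero
    exact h1' h1
  · push_cast
    rw [← hu, ← hv]
    have hr := g3e_rt_sq d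
    linear_combination ((v : ℂ) ^ 2 * (u.den : ℂ) ^ 2 * (v.den : ℂ) ^ 2) * hr

/-- G3f. If `t` is transcendental, the points of the orbit are not special (`t` is algebraic over `ℚ(z)`). -/
theorem not_special (d : ℕ) (t : ℝ) (ht : Transcendental ℚ (t : ℂ)) (z : ℂ) (hz : 0 < z.im) (h : InOrbit d t z) : ¬ IsSpecial z := by
  rintro ⟨A, B, C, hne, hq⟩
  obtain ⟨a, b, c, e, ha, hb, hc, he, hdet, hct, hzz⟩ := h
  have halg : IsAlgebraic ℚ z := by
    refine ⟨Polynomial.C (A : ℚ) * Polynomial.X ^ 2 + Polynomial.C (B : ℚ) * Polynomial.X +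
      Polynomial.C (C : ℚ), ?_, ?_⟩
    · intro h0
      apply hne
      have h2 := congrArg (fun p => Polynomial.coeff p 2) h0
      have h1 := congrArg (fun p => Polynomial.coeff p 1) h0
      have h3 := congrArg (fun p => Polynomial.coeff p 0) h0
      simp [Polynomial.coeff_X, Polynomial.coeff_C, -eq_intCast, -map_intCast] at h1 h2 h3
      exact ⟨h2, h1, h3⟩
    · simp only [map_add, map_mul, map_pow, Polynomial.aeval_C, Polynomial.aeval_X]
      simpa using hq
  have ha' := KK_algebraic d a ha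
  have hb' := KK_algebraic d b hb
  have hc' := KK_algebraic d c hc
  have he' := KK_algebraic d e he
  have hzm : z * (c * t + e) = a * t + b := by
    rw [hzz]
    exact div_mul_cancel₀ _ hct
  have hacz : a - c * z ≠ 0 := by
    intro h0
    have h1 : z * e = b := by
      linear_combination hzm + (t : ℂ) * h0
    apply hdet
    linear_combination e * h0 + c * h1
  have hteq : (t : ℂ) = (e * z - b) * (a - c * z)⁻¹ := by
    rw [eq_mul_inv_iff_mul_eq₀ hacz]
    linear_combination -hzm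
  apply ht
  rw [hteq]
  exact ((he'.mul halg).sub hb').mul ((ha'.sub (hc'.mul halg)).inv)

end Pool.Agent.MSD
end

end
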