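import Mathlib
import Pool.Agent.Lib.MP_f58a57_nt.FK.K001

namespace Pool.Agent.MSD
end Pool.Agent.MSD
namespace Pool.Agent.MSK
end Pool.Agent.MSK
namespace Pool.Agent.MSP
end Pool.Agent.MSP

section

/-! # E1: duplication (MP_f58a57_nt, pairs) -/

open Complex Filter Topology

noncomputable section

namespace Pool.Agent.MSP

/-- the entire numerator `wp' th⁴` -/
def e1_f (τ s t : ℂ) : ℂ :=
  (deriv (N2 τ s) t * N0 τ t - 2 * N2 τ s t * N1 τ t) * N0 τ t

theorem e1_N0_diff (τ : ℂ) (hτ : 0 < τ.im) : Differentiable ℂ (N0 τ) := th_differentiable τ hτ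

theorem e1_N1_diff (τ : ℂ) (hτ : 0 < τ.im) : Differentiable ℂ (N1 τ) := by
  have h := (th_differentiable τ hτ).contDiff (n := 2)
  have h2 : ContDiff ℂ 1 (deriv (th τ)) := by
    have h3 : ContDiff ℂ (1 + 1) (th τ) := h
    exact (contDiff_succ_iff_deriv.1 h3).2.2
  exact h2.differentiable one_ne_zero

theorem e1_N0_hasDeriv (τ : ℂ) (hτ : 0 < τ.im) (t : ℂ) : HasDerivAt (N0 τ) (N1 τ t) t :=
  (th_differentiable τ hτ t).hasDerivAt

theorem e1_ddth_diff (τ : ℂ) (hτ : 0 < τ.im) : Differentiable ℂ (deriv (deriv (th τ))) := by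
  have h2 : ContDiff ℂ 1 (deriv (deriv (th τ))) := by
    have h3 : ContDiff ℂ (1 + 1) (deriv (th τ)) :=
      (Differentiable.contDiff (e1_N1_diff τ hτ) (n := 2))
    exact (contDiff_succ_iff_deriv.1 h3).2.2
  exact h2.differentiable one_ne_zero

theorem e1_N2_diff (τ s : ℂ) (hτ : 0 < τ.im) : Differentiable ℂ (N2 τ s) := by
  have h0 := th_differentiable τ hτ
  have h1 : Differentiable ℂ (deriv (th τ)) := e1_N1_diff τ hτ
  have h2 := e1_ddth_diff τ hτ
  unfold N2
  exact ((h1.pow 2).sub (h0.mul h2)).sub ((h0.pow 2).const_mul s)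

theorem e1_dN2_diff (τ s : ℂ) (hτ : 0 < τ.im) : Differentiable ℂ (deriv (N2 τ s)) := by
  have h2 : ContDiff ℂ 1 (deriv (N2 τ s)) := by
    have h3 : ContDiff ℂ (1 + 1) (N2 τ s) := Differentiable.contDiff (e1_N2_diff τ s hτ) (n := 2)
    exact (contDiff_succ_iff_deriv.1 h3).2.2
  exact h2.differentiable one_ne_zero

theorem e1_f_diff (τ s : ℂ) (hτ : 0 < τ.im) : Differentiable ℂ (e1_f τ s) := by
  unfold e1_f
  exact (((e1_dN2_diff τ s hτ).mul (e1_N0_diff τ hτ)).sub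
    (((e1_N2_diff τ s hτ).const_mul 2).mul (e1_N1_diff τ hτ))).mul (e1_N0_diff τ hτ)

/-- `f = wp' th⁴` off the lattice -/
theorem e1_f_eq (τ s : ℂ) (hτ : 0 < τ.im) (t : ℂ) (ht : th τ t ≠ 0) :
    deriv (wp τ s) t * th τ t ^ 4 = e1_f τ s t := by
  have h2 := (e1_N2_diff τ s hτ t).hasDerivAt
  have h0 := e1_N0_hasDeriv τ hτ t
  have ht' : N0 τ t ≠ 0 := ht
  have h : HasDerivAt (wp τ s) ((deriv (N2 τ s) t * N0 τ t ^ 2 -
      N2 τ s t * ((2 : ℕ) * N0 τ t ^ (2 - 1) * N1 τ t)) / (N0 τ t ^ 2) ^ 2) t :=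
    h2.div (h0.pow 2) (pow_ne_zero 2 ht')
  rw [h.deriv]
  unfold e1_f
  show _ * N0 τ t ^ 4 = _
  field_simp
  push_cast
  ring

/-- the derivative of the automorphy factor -/
theorem e1_au_deriv (τ : ℂ) (m n : ℤ) (t : ℂ) :
    HasDerivAt (au τ m n) (-(2 * Real.pi * I * n) * au τ m n t) t := by
  unfold au
  have h1 : HasDerivAt (fun t : ℂ => -(Real.pi * I * (n : ℂ) ^ 2 * τ) - 2 * Real.pi * I * n * t)
      (-(2 * Real.pi * I * n)) t := by
    have h2 := ((hasDerivAt_id t).const_mul (2 * Real.pi * I * n)).const_sub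
      (-(Real.pi * I * (n : ℂ) ^ 2 * τ))
    simpa using h2
  have h3 := (h1.cexp).const_mul ((-1 : ℂ) ^ (m + n))
  have h4 : -(2 * Real.pi * I * n) * ((-1 : ℂ) ^ (m + n) *
      cexp (-(Real.pi * I * (n : ℂ) ^ 2 * τ) - 2 * Real.pi * I * n * t)) =
      (-1 : ℂ) ^ (m + n) * (cexp (-(Real.pi * I * (n : ℂ) ^ 2 * τ) - 2 * Real.pi * I * n * t) *
        -(2 * Real.pi * I * n)) := by ring
  rw [h4]
  exact h3

theorem e1_dN2_shift (τ s : ℂ) (hτ : 0 < τ.im) (m n : ℤ) (t : ℂ) :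
    deriv (N2 τ s) (t + m + n * τ) =
      au τ m n t ^ 2 * (deriv (N2 τ s) t - 4 * Real.pi * I * n * N2 τ s t) := by
  have h1 : HasDerivAt (fun t : ℂ => N2 τ s (t + m + n * τ))
      (deriv (N2 τ s) (t + m + n * τ)) t := by
    have h2 := (e1_N2_diff τ s hτ (t + m + n * τ)).hasDerivAt
    have h3 : HasDerivAt (fun t : ℂ => t + m + n * τ) 1 t :=
      ((hasDerivAt_id t).add_const (m : ℂ)).add_const (n * τ)
    have h4 := HasDerivAt.comp t h2 h3
    rw [mul_one] at h4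
    exact h4
  have h5 : HasDerivAt (fun t : ℂ => au τ m n t ^ 2 * N2 τ s t)
      (((2 : ℕ) * au τ m n t ^ (2 - 1) * (-(2 * Real.pi * I * n) * au τ m n t)) * N2 τ s t +
        au τ m n t ^ 2 * deriv (N2 τ s) t) t :=
    ((e1_au_deriv τ m n t).pow 2).mul (e1_N2_diff τ s hτ t).hasDerivAt
  have h6 : (fun t : ℂ => N2 τ s (t + m + n * τ)) = fun t : ℂ => au τ m n t ^ 2 * N2 τ s t := by
    funext t
    exact N2_shift τ s hτ m n t
  rw [h6] at h1
  rw [h1.unique h5]
  push_cast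
  ring

theorem e1_f_shift (τ s : ℂ) (hτ : 0 < τ.im) (m n : ℤ) (t : ℂ) :
    e1_f τ s (t + m + n * τ) = au τ m n t ^ 4 * e1_f τ s t := by
  unfold e1_f
  rw [e1_dN2_shift τ s hτ, N0_shift τ hτ, N1_shift τ hτ, N2_shift τ s hτ]
  ring

theorem e1_N1_neg (τ : ℂ) (t : ℂ) : N1 τ (-t) = N1 τ t := by
  unfold N1
  have h : (fun t => th τ (-t)) = fun t => -th τ t := funext (fun t => th_neg τ t)
  have h1 : deriv (fun t => th τ (-t)) t = -deriv (th τ) (-t) := deriv_comp_neg (th τ) t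
  have h2 : deriv (fun t => -th τ t) t = -deriv (th τ) t := by
    rw [deriv.fun_neg]
  rw [h, h2] at h1
  exact (neg_inj.1 h1).symm

theorem e1_ddth_neg (τ : ℂ) (t : ℂ) : deriv (deriv (th τ)) (-t) = -deriv (deriv (th τ)) t := by
  have h : (fun t => deriv (th τ) (-t)) = fun t => deriv (th τ) t := funext (fun t => e1_N1_neg τ t)
  have h1 : deriv (fun t => deriv (th τ) (-t)) t = -deriv (deriv (th τ)) (-t) :=
    deriv_comp_neg (deriv (th τ)) t
  rw [h] at h1
  have h3 : deriv (fun t => deriv (th τ) t) t = deriv (deriv (th τ)) t := rfl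
  rw [h3] at h1
  rw [h1, neg_neg]

theorem e1_N2_neg (τ s : ℂ) (t : ℂ) : N2 τ s (-t) = N2 τ s t := by
  unfold N2
  have h1 : deriv (th τ) (-t) = deriv (th τ) t := e1_N1_neg τ t
  rw [h1, e1_ddth_neg, th_neg]
  ring

theorem e1_dN2_neg (τ s : ℂ) (t : ℂ) : deriv (N2 τ s) (-t) = -deriv (N2 τ s) t := by
  have h : (fun t => N2 τ s (-t)) = fun t => N2 τ s t := funext (fun t => e1_N2_neg τ s t)
  have h1 : deriv (fun t => N2 τ s (-t)) t = -deriv (N2 τ s) (-t) := deriv_comp_neg (N2 τ s) t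
  rw [h] at h1
  have h3 : deriv (fun t => N2 τ s t) t = deriv (N2 τ s) t := rfl
  rw [h3] at h1
  rw [h1, neg_neg]

theorem e1_f_neg (τ s t : ℂ) : e1_f τ s (-t) = -e1_f τ s t := by
  unfold e1_f
  have h0 : N0 τ (-t) = -N0 τ t := th_neg τ t
  rw [e1_dN2_neg, e1_N1_neg, e1_N2_neg, h0]
  ring

/-- `f` vanishes at the half periods -/
theorem e1_f_half (τ s : ℂ) (hτ : 0 < τ.im) (t : ℂ) (ht : th τ (2 * t) = 0) :
    e1_f τ s t = 0 := by
  obtain ⟨m, n, hmn⟩ := (th_eq_zero_iff τ hτ (2 * t)).1 ht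
  have h1 : t = -t + m + n * τ := by linear_combination hmn
  have h2 : e1_f τ s t = au τ m n (-t) ^ 4 * e1_f τ s (-t) := by
    conv_lhs => rw [h1]
    exact e1_f_shift τ s hτ m n (-t)
  have h3 : au τ m n (-t) ^ 4 = 1 := by
    unfold au
    rw [mul_pow, ← Complex.exp_nat_mul]
    have h4 : (((-1 : ℂ) ^ (m + n)) ^ 4) = 1 := by
      rw [← zpow_natCast, ← zpow_mul]
      have : (m + n) * ((4 : ℕ) : ℤ) = 2 * (2 * (m + n)) := by push_cast; ring
      rw [this, zpow_mul]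
      norm_num
    rw [h4, one_mul, Complex.exp_eq_one_iff]
    refine ⟨2 * (n * m), ?_⟩
    push_cast
    linear_combination (4 * Real.pi * I * n) * hmn
  rw [h3, one_mul, e1_f_neg] at h2
  have h5 : e1_f τ s t + e1_f τ s t = 0 := by
    nth_rewrite 1 [h2]
    ring
  have h6 : 2 * e1_f τ s t = 0 := by linear_combination h5
  exact (mul_eq_zero.1 h6).resolve_left two_ne_zero

/-- the denominator -/
def e1_g (τ t : ℂ) : ℂ := th τ (2 * t)

theorem e1_g_hasDeriv (τ : ℂ) (hτ : 0 < τ.im) (t : ℂ) :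
    HasDerivAt (e1_g τ) (2 * N1 τ (2 * t)) t := by
  have h1 := e1_N0_hasDeriv τ hτ (2 * t)
  have h2 : HasDerivAt (fun t : ℂ => 2 * t) 2 t := by
    simpa using (hasDerivAt_id t).const_mul (2 : ℂ)
  have h3 := HasDerivAt.comp t h1 h2
  rw [mul_comm] at h3
  exact h3

theorem e1_g_diff (τ : ℂ) (hτ : 0 < τ.im) : Differentiable ℂ (e1_g τ) :=
  fun t => (e1_g_hasDeriv τ hτ t).differentiableAt

/-- the zeros of `g` are simple -/
theorem e1_g_simple (τ : ℂ) (hτ : 0 < τ.im) (t : ℂ) (ht : e1_g τ t = 0) : deriv (e1_g τ) t ≠ 0 := by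
  rw [(e1_g_hasDeriv τ hτ t).deriv]
  obtain ⟨m, n, hmn⟩ := (th_eq_zero_iff τ hτ (2 * t)).1 ht
  have h1 := N1_shift τ hτ m n 0
  have h0 : N0 τ 0 = 0 := by
    have := (th_eq_zero_iff τ hτ 0).2 ⟨0, 0, by simp⟩
    exact this
  rw [h0, mul_zero, sub_zero, zero_add, ← hmn] at h1
  rw [h1]
  refine mul_ne_zero two_ne_zero (mul_ne_zero (au_ne τ m n 0) (deriv_th_zero_ne τ hτ))

theorem e1_g_shift (τ : ℂ) (hτ : 0 < τ.im) (m n : ℤ) (t : ℂ) :
    e1_g τ (t + m + n * τ) = au τ m n t ^ 4 * e1_g τ t := by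
  unfold e1_g
  have h1 := N0_shift τ hτ (2 * m) (2 * n) (2 * t)
  have h2 : 2 * (t + m + n * τ) = 2 * t + ((2 * m : ℤ) : ℂ) + ((2 * n : ℤ) : ℂ) * τ := by
    push_cast; ring
  rw [h2]
  have h3 : au τ (2 * m) (2 * n) (2 * t) = au τ m n t ^ 4 := by
    unfold au
    rw [mul_pow, ← Complex.exp_nat_mul]
    have h4 : (((-1 : ℂ) ^ (m + n)) ^ 4) = 1 := by
      rw [← zpow_natCast, ← zpow_mul]
      have : (m + n) * ((4 : ℕ) : ℤ) = 2 * (2 * (m + n)) := by push_cast; ring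
      rw [this, zpow_mul]
      norm_num
    have h5 : ((-1 : ℂ) ^ (2 * m + 2 * n)) = 1 := by
      have : 2 * m + 2 * n = 2 * (m + n) := by ring
      rw [this, zpow_mul]
      norm_num
    rw [h4, h5]
    congr 2
    push_cast
    ring
  rw [← h3]
  exact h1

open Classical in
/-- the quotient, with its removable singularities removed -/
def e1_E (τ s t : ℂ) : ℂ :=
  if e1_g τ t = 0 then deriv (e1_f τ s) t / deriv (e1_g τ) t else e1_f τ s t / e1_g τ t

theorem e1_g_ev_ne (τ : ℂ) (hτ : 0 < τ.im) (t : ℂ) (ht : e1_g τ t = 0) :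
    ∀ᶠ z in 𝓝[≠] t, e1_g τ z ≠ 0 := by
  have h := (e1_g_hasDeriv τ hτ t).eventually_ne (c := 0) (by
    have := e1_g_simple τ hτ t ht
    rwa [(e1_g_hasDeriv τ hτ t).deriv] at this)
  exact h

theorem e1_E_diff (τ s : ℂ) (hτ : 0 < τ.im) : Differentiable ℂ (e1_E τ s) := by
  intro t
  by_cases ht : e1_g τ t = 0
  · have hf0 : e1_f τ s t = 0 := e1_f_half τ s hτ t ht
    have hd1 : Differentiable ℂ (dslope (e1_f τ s) t) := by
      have := (Complex.differentiableOn_dslope (Filter.univ_mem : Set.univ ∈ 𝓝 t)).2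
        (e1_f_diff τ s hτ).differentiableOn
      exact differentiableOn_univ.1 this
    have hd2 : Differentiable ℂ (dslope (e1_g τ) t) := by
      have := (Complex.differentiableOn_dslope (Filter.univ_mem : Set.univ ∈ 𝓝 t)).2
        (e1_g_diff τ hτ).differentiableOn
      exact differentiableOn_univ.1 this
    have hne : dslope (e1_g τ) t t ≠ 0 := by
      rw [dslope_same]
      exact e1_g_simple τ hτ t ht
    have hev : e1_E τ s =ᶠ[𝓝 t] fun z => dslope (e1_f τ s) t z / dslope (e1_g τ) t z := by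
      have h1 := e1_g_ev_ne τ hτ t ht
      rw [eventually_nhdsWithin_iff] at h1
      filter_upwards [h1] with z hz
      by_cases hzt : z = t
      · subst hzt
        unfold e1_E
        rw [if_pos ht, dslope_same, dslope_same]
      · have h2 := hz hzt
        unfold e1_E
        rw [if_neg h2, dslope_of_ne _ hzt, dslope_of_ne _ hzt, slope_def_field, slope_def_field,
          hf0, ht, sub_zero, sub_zero]
        have h3 : z - t ≠ 0 := sub_ne_zero.2 hzt
        field_simp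
    exact ((hd1 t).div (hd2 t) hne).congr_of_eventuallyEq hev
  · have hev : e1_E τ s =ᶠ[𝓝 t] fun z => e1_f τ s z / e1_g τ z := by
      have h1 : ∀ᶠ z in 𝓝 t, e1_g τ z ≠ 0 :=
        ((e1_g_diff τ hτ).continuous.continuousAt).eventually_ne ht
      filter_upwards [h1] with z hz
      unfold e1_E
      rw [if_neg hz]
    exact ((e1_f_diff τ s hτ t).div (e1_g_diff τ hτ t) ht).congr_of_eventuallyEq hev

theorem e1_dense (τ : ℂ) (hτ : 0 < τ.im) : Dense {z | e1_g τ z ≠ 0} := by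
  intro t
  by_cases ht : e1_g τ t = 0
  · rw [mem_closure_iff_frequently]
    have h1 := e1_g_ev_ne τ hτ t ht
    exact (h1.frequently).filter_mono nhdsWithin_le_nhds
  · exact subset_closure ht

theorem e1_E_periodic (τ s : ℂ) (hτ : 0 < τ.im) (m n : ℤ) (t : ℂ) :
    e1_E τ s (t + m + n * τ) = e1_E τ s t := by
  have hc := (e1_E_diff τ s hτ).continuous
  have h : (fun t : ℂ => e1_E τ s (t + m + n * τ)) = e1_E τ s := by
    apply Continuous.ext_on (e1_dense τ hτ) (hc.comp (by fun_prop)) hc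
    intro z hz
    have hz' : e1_g τ z ≠ 0 := hz
    have ha := au_ne τ m n z
    have h2 : e1_g τ (z + m + n * τ) ≠ 0 := by
      rw [e1_g_shift τ hτ]
      exact mul_ne_zero (pow_ne_zero 4 ha) hz'
    show e1_E τ s (z + m + n * τ) = e1_E τ s z
    unfold e1_E
    rw [if_neg h2, if_neg hz', e1_g_shift τ hτ, e1_f_shift τ s hτ,
      mul_div_mul_left _ _ (pow_ne_zero 4 ha)]
  exact congrFun h t

theorem e1_reduce (τ : ℂ) (hτ : 0 < τ.im) (t : ℂ) :
    ∃ (t₀ : ℂ) (m n : ℤ), ‖t₀‖ ≤ 1 + ‖τ‖ ∧ t = t₀ + m + n * τ := by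
  set b : ℝ := t.im / τ.im with hb
  set a : ℝ := t.re - b * τ.re with ha
  have ht : t = a + b * τ := by
    apply Complex.ext
    · simp [ha]
    · simp [hb]
      field_simp
  refine ⟨(Int.fract a : ℝ) + (Int.fract b : ℝ) * τ, ⌊a⌋, ⌊b⌋, ?_, ?_⟩
  · refine (norm_add_le _ _).trans ?_
    rw [norm_mul, Complex.norm_real, Complex.norm_real, Real.norm_of_nonneg (Int.fract_nonneg a),
      Real.norm_of_nonneg (Int.fract_nonneg b)]
    have h1 := (Int.fract_lt_one a).le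
    have h2 := (Int.fract_lt_one b).le
    have h3 : Int.fract b * ‖τ‖ ≤ 1 * ‖τ‖ := by gcongr
    linarith
  · have h1 : (a : ℂ) = ((Int.fract a : ℝ) : ℂ) + ((⌊a⌋ : ℤ) : ℂ) := by
      have := Int.fract_add_floor a
      exact_mod_cast this.symm
    have h2 : (b : ℂ) = ((Int.fract b : ℝ) : ℂ) + ((⌊b⌋ : ℤ) : ℂ) := by
      have := Int.fract_add_floor b
      exact_mod_cast this.symm
    rw [ht]
    linear_combination h1 + τ * h2

/-- E1a. PROOF. `E(t) = wp'(t) th(t)⁴ / th(2t)` has the periods `1` and `τ` (T4 and its derivative: `th(2t + 2τ) = au τ 0 2 (2t) th(2t)`,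
`th(t+τ)⁴ = au τ 0 1 t ^ 4 th(t)⁴`, and `au τ 0 2 (2t) = au τ 0 1 t ^ 4 = e^{-4πiτ-8πit}`). It is analytic where `th(2t) ≠ 0`. The zeros of `th(2t)` are
the points of `(1/2)Λ`, all simple (T3). At a point `e ∈ (1/2)Λ \ Λ` the numerator vanishes: `wp'` is odd and periodic, so
`wp'(e) = wp'(e - 2e) = -wp'(e)`. At `0` (and by periodicity at all lattice points): `wp'(t) t³ → -2` (from `wp_eq` and Mathlib's series for
`℘'`, or from `wp = N2/N0²`), `th(t)/t → c`, `th(2t)/t → 2c`, `c = th'(0)`, so `E(t) → -2c⁴/(2c) = -c³`. So `E` extends to an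
entire function which is bounded, hence constant `= -c³`. [Alternatively avoid `wp'` near `0`: `wp' th³ = (N2' th - 2 N2 th')/1` is
entire: `wp = N2/th²` gives `wp' th³ = N2' th - 2 N2 N1`, so `E = (N2' th - 2 N2 N1) th/th(2t)`, at `0`: `-2 c² c · c t/(2 c t) = -c³`.] -/
theorem th_double (τ : ℂ) (hτ : 0 < τ.im) (t : ℂ) (ht : th τ t ≠ 0) :
    deriv (wp τ (sE τ)) t * th τ t ^ 4 = -(deriv (th τ) 0) ^ 3 * th τ (2 * t) := by
  rw [e1_f_eq τ (sE τ) hτ t ht]
  set s := sE τ with hs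
  have hE := e1_E_diff τ s hτ
  -- bounded
  have hb : Bornology.IsBounded (Set.range (e1_E τ s)) := by
    have hK : IsCompact (e1_E τ s '' Metric.closedBall 0 (1 + ‖τ‖)) :=
      (isCompact_closedBall _ _).image hE.continuous
    apply hK.isBounded.subset
    rintro _ ⟨z, rfl⟩
    obtain ⟨z₀, m, n, hz₀, hz⟩ := e1_reduce τ hτ z
    refine ⟨z₀, by rwa [mem_closedBall_zero_iff], ?_⟩
    rw [hz, e1_E_periodic τ s hτ]
  have hconst := hE.apply_eq_apply_of_bounded hb t 0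
  -- the value at zero
  have hth0 : th τ 0 = 0 := (th_eq_zero_iff τ hτ 0).2 ⟨0, 0, by simp⟩
  have hg0 : e1_g τ 0 = 0 := by
    unfold e1_g
    rw [mul_zero]
    exact hth0
  have hc := deriv_th_zero_ne τ hτ
  have hE0 : e1_E τ s 0 = -(deriv (th τ) 0) ^ 3 := by
    unfold e1_E
    rw [if_pos hg0, (e1_g_hasDeriv τ hτ 0).deriv]
    have hA : Differentiable ℂ (fun t => deriv (N2 τ s) t * N0 τ t - 2 * N2 τ s t * N1 τ t) :=
      ((e1_dN2_diff τ s hτ).mul (e1_N0_diff τ hτ)).sub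
        (((e1_N2_diff τ s hτ).const_mul 2).mul (e1_N1_diff τ hτ))
    have hf : HasDerivAt (e1_f τ s)
        (deriv (fun t => deriv (N2 τ s) t * N0 τ t - 2 * N2 τ s t * N1 τ t) 0 * N0 τ 0 +
          (deriv (N2 τ s) 0 * N0 τ 0 - 2 * N2 τ s 0 * N1 τ 0) * N1 τ 0) 0 :=
      (hA 0).hasDerivAt.mul (e1_N0_hasDeriv τ hτ 0)
    rw [hf.deriv, mul_zero]
    have h0 : N0 τ 0 = 0 := hth0
    have h1 : N1 τ 0 = deriv (th τ) 0 := rfl
    have h2 : N2 τ s 0 = deriv (th τ) 0 ^ 2 := by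
      unfold N2
      rw [hth0]
      ring
    rw [h0, h1, h2]
    field_simp
    ring
  by_cases hg : e1_g τ t = 0
  · rw [e1_f_half τ s hτ t hg]
    have : th τ (2 * t) = 0 := hg
    rw [this, mul_zero]
  · have h1 : e1_E τ s t = e1_f τ s t / e1_g τ t := by
      unfold e1_E
      rw [if_neg hg]
    rw [h1, hE0, div_eq_iff hg] at hconst
    exact hconst

end Pool.Agent.MSP
end

end

section

/-! # K/A2_Bd: degree and length of iterated derivatives -/

open Complex MvPolynomial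

noncomputable section

namespace Pool.Agent.MSK

open MSD MSP

variable {d : ℕ}

/-- degree and length -/
def a2_B {σ : Type*} (e : ℕ) (H : ℝ) (p : MvPolynomial σ ℤ) : Prop := p.totalDegree ≤ e ∧ mlen p ≤ H

theorem a2_mono {σ : Type*} {e e' : ℕ} {H H' : ℝ} {p : MvPolynomial σ ℤ} (h : a2_B e H p) (he : e ≤ e')
    (hH : H ≤ H') : a2_B e' H' p := ⟨h.1.trans he, h.2.trans hH⟩

theorem a2_C {σ : Type*} (c : ℤ) : a2_B 0 |(c : ℝ)| (MvPolynomial.C c : MvPolynomial σ ℤ) :=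
  ⟨(MvPolynomial.totalDegree_C c).le, (mlen_C c).le⟩

theorem a2_var {σ : Type*} (v : σ) : a2_B 1 1 (MvPolynomial.X v : MvPolynomial σ ℤ) := by
  refine ⟨(MvPolynomial.totalDegree_X v).le, ?_⟩
  change mlen (MvPolynomial.monomial (Finsupp.single v 1) (1 : ℤ)) ≤ 1
  rw [mlen_monomial]
  simp

theorem a2_add {σ : Type*} {e e' : ℕ} {H H' : ℝ} {p q : MvPolynomial σ ℤ} (h : a2_B e H p) (h' : a2_B e' H' q) :
    a2_B (max e e') (H + H') (p + q) := by
  refine ⟨(MvPolynomial.totalDegree_add _ _).trans (max_le_max h.1 h'.1), ?_⟩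
  exact (mlen_add _ _).trans (add_le_add h.2 h'.2)

theorem a2_mul {σ : Type*} {e e' : ℕ} {H H' : ℝ} {p q : MvPolynomial σ ℤ} (h : a2_B e H p) (h' : a2_B e' H' q) :
    a2_B (e + e') (H * H') (p * q) := by
  refine ⟨(MvPolynomial.totalDegree_mul _ _).trans (add_le_add h.1 h'.1), ?_⟩
  exact (mlen_mul _ _).trans (mul_le_mul h.2 h'.2 (mlen_nonneg _) ((mlen_nonneg _).trans h.2))

theorem a2_neg' {σ : Type*} {e : ℕ} {H : ℝ} {p : MvPolynomial σ ℤ} (h : a2_B e H p) : a2_B e H (-p) := by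
  have h1 := a2_mul (a2_C (σ := σ) (-1)) h
  have e1 : MvPolynomial.C (-1 : ℤ) * p = -p := by
    rw [map_neg, map_one, neg_one_mul]
  rw [e1] at h1
  exact a2_mono h1 (by omega) (by simp)

theorem a2_sub {σ : Type*} {e e' : ℕ} {H H' : ℝ} {p q : MvPolynomial σ ℤ} (h : a2_B e H p) (h' : a2_B e' H' q) :
    a2_B (max e e') (H + H') (p - q) := by
  rw [sub_eq_add_neg]
  exact a2_add h (a2_neg' h')

theorem a2_pow {σ : Type*} {e : ℕ} {p : MvPolynomial σ ℤ} (h : a2_B e 1 p) (k : ℕ) : a2_B (e * k) 1 (p ^ k) := by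
  induction k with
  | zero =>
    rw [pow_zero, ← MvPolynomial.C_1]
    exact a2_mono (a2_C 1) (by omega) (by simp)
  | succ k ih =>
    rw [pow_succ]
    exact a2_mono (a2_mul ih h) (by rw [Nat.mul_succ]) (by simp)

theorem a2_sum {σ ι : Type*} (s : Finset ι) (p : ι → MvPolynomial σ ℤ) (e : ℕ) (H : ι → ℝ)
    (h : ∀ i ∈ s, a2_B e (H i) (p i)) : a2_B e (∑ i ∈ s, H i) (∑ i ∈ s, p i) := by
  refine ⟨MvPolynomial.totalDegree_finsetSum_le fun i hi => (h i hi).1, ?_⟩
  exact (mlen_sum _ _).trans (Finset.sum_le_sum fun i hi => (h i hi).2)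

theorem a2_prod {σ ι : Type*} (s : Finset ι) (p : ι → MvPolynomial σ ℤ) (e : ι → ℕ)
    (h : ∀ i ∈ s, a2_B (e i) 1 (p i)) : a2_B (∑ i ∈ s, e i) 1 (∏ i ∈ s, p i) := by
  classical
  induction s using Finset.induction_on with
  | empty =>
    rw [Finset.prod_empty, Finset.sum_empty, ← MvPolynomial.C_1]
    exact a2_mono (a2_C 1) le_rfl (by simp)
  | insert i s hi ih =>
    rw [Finset.prod_insert hi, Finset.sum_insert hi]
    refine a2_mono (a2_mul (h i (Finset.mem_insert_self _ _))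
      (ih fun j hj => h j (Finset.mem_insert_of_mem hj))) le_rfl (by simp)

/-- degree and length of `ca`. -/
theorem a2_ca (a : Fin d → ℤ) (A : ℝ) (hA : 1 ≤ A) (ha : ∀ j, |(a j : ℝ)| ≤ A) (l : Fin (d + 1)) :
    a2_B d ((d + 1) * A) (ca a l) := by
  have hA0 : 0 ≤ A := zero_le_one.trans hA
  have hd : (0 : ℝ) ≤ d := Nat.cast_nonneg _
  unfold ca
  refine Fin.cases ?_ (fun j => ?_) l
  · rw [Fin.cons_zero]
    have h1 : a2_B d (∑ _j : Fin d, A)
        (∑ j : Fin d, (MvPolynomial.X Vr.z : MvPolynomial (Vr d) ℤ) ^ (j.val + 1) * MvPolynomial.C (a j)) := by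
      refine a2_sum _ _ _ _ fun j _ => ?_
      refine a2_mono (a2_mul (a2_pow (a2_var Vr.z) (j.val + 1)) (a2_C (a j))) ?_ ?_
      · have := j.isLt
        omega
      · rw [one_mul]
        exact ha j
    refine a2_mono (a2_neg' h1) le_rfl ?_
    rw [Finset.sum_const, Finset.card_univ, Fintype.card_fin, nsmul_eq_mul]
    nlinarith
  · rw [Fin.cons_succ]
    refine a2_mono (a2_C (a j)) (by omega) ?_
    have := ha j
    nlinarith

/-- degree and length of the derivatives of the variables. -/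
theorem a2_dv (a : Fin d → ℤ) (A : ℝ) (hA : 1 ≤ A) (ha : ∀ j, |(a j : ℝ)| ≤ A) (v : Vr d) :
    a2_B (d + 3) (8 * (d + 1) * A) (dv a v) := by
  have hA0 : 0 ≤ A := zero_le_one.trans hA
  have hd : (0 : ℝ) ≤ d := Nat.cast_nonneg _
  have hdA : 0 ≤ (d : ℝ) * A := mul_nonneg hd hA0
  have hca := a2_ca a A hA ha
  have h0 : a2_B (d + 3) (8 * (d + 1) * A) (0 : MvPolynomial (Vr d) ℤ) := by
    rw [← MvPolynomial.C_0]
    refine a2_mono (a2_C 0) (by omega) ?_
    simp
    positivity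
  cases v with
  | X l =>
    change a2_B _ _ (ca a l * MvPolynomial.X (Vr.Y l))
    exact a2_mono (a2_mul (hca l) (a2_var _)) (by omega) (by nlinarith)
  | Y l =>
    change a2_B _ _ (ca a l * (6 * MvPolynomial.X (Vr.X l) ^ 2 - MvPolynomial.X Vr.g))
    have h1 : a2_B 2 6 (6 * (MvPolynomial.X (Vr.X l) : MvPolynomial (Vr d) ℤ) ^ 2) := by
      have h2 := a2_mul (a2_C (σ := Vr d) 6) (a2_pow (a2_var (Vr.X l)) 2)
      rw [show (MvPolynomial.C (6 : ℤ) : MvPolynomial (Vr d) ℤ) = 6 from map_ofNat _ 6] at h2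
      exact a2_mono h2 (by omega) (by norm_num)
    exact a2_mono (a2_mul (hca l) (a2_sub h1 (a2_var Vr.g))) (by omega) (by nlinarith)
  | Q j =>
    change a2_B _ _ (MvPolynomial.C (a j) - MvPolynomial.X Vr.r *
      (-(ca a j.castSucc * (MvPolynomial.X (Vr.X j.castSucc) + MvPolynomial.X Vr.k))
        - MvPolynomial.X (Vr.b j.succ) * (ca a (Fin.last d) * (MvPolynomial.X (Vr.X (Fin.last d)) + MvPolynomial.X Vr.k))
        + MvPolynomial.X Vr.z * (ca a j.succ * (MvPolynomial.X (Vr.X j.succ) + MvPolynomial.X Vr.k))))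
    have hk : ∀ l : Fin (d + 1), a2_B (d + 1) ((d + 1) * A * 2)
        (ca a l * (MvPolynomial.X (Vr.X l) + MvPolynomial.X Vr.k)) := by
      intro l
      refine a2_mono (a2_mul (hca l) (a2_add (a2_var _) (a2_var _))) (by omega) (by nlinarith)
    have h1 := a2_neg' (hk j.castSucc)
    have h2 := a2_mul (a2_var (Vr.b j.succ)) (hk (Fin.last d))
    have h3 := a2_mul (a2_var (Vr.z : Vr d)) (hk j.succ)
    have h4 := a2_add (a2_sub h1 h2) h3
    have h5 := a2_sub (a2_C (σ := Vr d) (a j)) (a2_mul (a2_var (Vr.r : Vr d)) h4)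
    refine a2_mono h5 (by omega) ?_
    have := ha j
    nlinarith
  | b l => exact h0
  | g => exact h0
  | k => exact h0
  | z => exact h0
  | r => exact h0

/-- A2a. PROOF. `der a p = ∑_m ∑_v c_m m_v X^(m - e_v) dv a v` over the monomials `m` of `p` and the variables `v`; `∑_v m_v ≤ n`, and
`mlen (ca a l) ≤ d A`, so `mlen (dv a v) ≤ 7 (d+1) A`; the degrees: `ca` has degree `≤ d`, `dv a v` has degree `≤ d + 3`, one variable is removed.
Compare `a2_gen`, `Bd.der₁` in P/A2_Der (with the lemmas `mlen_add, mlen_mul, mlen_monomial` of P/A1_Len). -/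
theorem der_bd (a : Fin d → ℤ) (A : ℝ) (hA : 1 ≤ A) (ha : ∀ j, |(a j : ℝ)| ≤ A) (n : ℕ) (H : ℝ) (p : MvPolynomial (Vr d) ℤ)
    (h1 : p.totalDegree ≤ n) (h2 : mlen p ≤ H) :
    (der a p).totalDegree ≤ n + (d + 3) ∧ mlen (der a p) ≤ 8 * (d + 1) * A * n * H := by
  classical
  have hA0 : 0 ≤ A := zero_le_one.trans hA
  have hc : (0 : ℝ) ≤ 8 * (d + 1) * A := by positivity
  have key : ∀ m ∈ p.support, a2_B (n + (d + 3)) (|((p.coeff m : ℤ) : ℝ)| * (8 * (d + 1) * A * n))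
      (der a (MvPolynomial.monomial m (p.coeff m))) := by
    intro m hm
    unfold der
    rw [MvPolynomial.mkDerivation_monomial, ← MvPolynomial.C_mul', Finsupp.sum]
    have hdeg : ∑ v ∈ m.support, m v ≤ n := (MvPolynomial.le_totalDegree hm).trans h1
    have hs : a2_B (n + (d + 3)) (∑ v ∈ m.support, (m v : ℝ) * (8 * (d + 1) * A))
        (∑ v ∈ m.support, (MvPolynomial.monomial (m - Finsupp.single v 1) ((m v : ℕ) : ℤ)) • dv a v) := by
      refine a2_sum _ _ _ _ fun v _ => ?_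
      rw [smul_eq_mul]
      have h3 : a2_B n (m v : ℝ)
          (MvPolynomial.monomial (m - Finsupp.single v 1) ((m v : ℕ) : ℤ) : MvPolynomial (Vr d) ℤ) := by
        refine ⟨(MvPolynomial.totalDegree_monomial_le _ _).trans ?_, ?_⟩
        · refine le_trans ?_ hdeg
          have e1 : (m - Finsupp.single v 1).sum (fun _ => id) = ∑ w, (m - Finsupp.single v 1 : Vr d →₀ ℕ) w :=
            Finsupp.sum_fintype _ _ (fun _ => rfl)
          have e2 : ∑ w ∈ m.support, m w = ∑ w, m w := Finsupp.sum_fintype m (fun _ e => e) (fun _ => rfl)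
          rw [e1, e2]
          refine Finset.sum_le_sum fun w _ => ?_
          rw [Finsupp.coe_tsub, Pi.sub_apply]
          exact Nat.sub_le _ _
        · rw [mlen_monomial]
          push_cast
          rw [abs_of_nonneg (Nat.cast_nonneg _)]
      exact a2_mul h3 (a2_dv a A hA ha v)
    have h4 := a2_mul (a2_C (σ := Vr d) (p.coeff m)) hs
    refine a2_mono h4 (by omega) ?_
    refine mul_le_mul_of_nonneg_left ?_ (abs_nonneg _)
    rw [← Finset.sum_mul, mul_comm]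
    refine mul_le_mul_of_nonneg_left ?_ hc
    exact_mod_cast hdeg
  have hsum := a2_sum p.support _ _ _ key
  rw [← map_sum, ← p.as_sum] at hsum
  refine ⟨hsum.1, hsum.2.trans ?_⟩
  rw [← Finset.sum_mul]
  have h7 : ∑ m ∈ p.support, |((p.coeff m : ℤ) : ℝ)| ≤ H := h2
  have h8 : (0 : ℝ) ≤ 8 * (d + 1) * A * n := mul_nonneg hc (Nat.cast_nonneg _)
  calc _ ≤ H * (8 * (d + 1) * A * n) := mul_le_mul_of_nonneg_right h7 h8
    _ = _ := by ring

/-- the monomials have length `1`. -/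
theorem a2_Mon {L : ℕ} (ν : Ix d L) : a2_B ((2 * d + 1) * L) 1 (Mon ν) := by
  unfold Mon
  have h1 := a2_prod (Finset.univ : Finset (Fin (d + 1)))
    (fun l => (MvPolynomial.X (Vr.X l) : MvPolynomial (Vr d) ℤ) ^ (ν.1 l).val) (fun _ => L) (fun l _ => by
      refine a2_mono (a2_pow (a2_var (Vr.X l)) (ν.1 l).val) ?_ le_rfl
      have := (ν.1 l).isLt
      omega)
  have h2 := a2_prod (Finset.univ : Finset (Fin d))
    (fun j => (MvPolynomial.X (Vr.Q j) : MvPolynomial (Vr d) ℤ) ^ (ν.2 j).val) (fun _ => L) (fun j _ => by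
      refine a2_mono (a2_pow (a2_var (Vr.Q j)) (ν.2 j).val) ?_ le_rfl
      have := (ν.2 j).isLt
      omega)
  refine a2_mono (a2_mul h1 h2) ?_ (by simp)
  rw [Finset.sum_const, Finset.sum_const, Finset.card_univ, Finset.card_univ, Fintype.card_fin, Fintype.card_fin,
    smul_eq_mul, smul_eq_mul]
  apply le_of_eq
  ring

/-- A2b. PROOF. Induction on `k` with A2a, starting with `Mon ν` (degree `≤ (2d+1)L`, length `1`); all factors are
`≤ 8 (d+1) A ((2d+1)L + (d+3)T)` and this number is `≥ 1`. -/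
theorem der_iter_Mon (a : Fin d → ℤ) (A : ℝ) (hA : 1 ≤ A) (ha : ∀ j, |(a j : ℝ)| ≤ A) {L : ℕ} (ν : Ix d L) (T k : ℕ) (hT : 1 ≤ T)
    (hk : k ≤ T) :
    ((der a)^[k] (Mon ν)).totalDegree ≤ (2 * d + 1) * L + (d + 3) * T ∧
      mlen ((der a)^[k] (Mon ν)) ≤ (8 * (d + 1) * A * ((2 * d + 1) * L + (d + 3) * T)) ^ T := by
  have hA0 : 0 ≤ A := zero_le_one.trans hA
  have hc : (0 : ℝ) ≤ 8 * (d + 1) * A := by positivity
  have hT' : (1 : ℝ) ≤ T := by exact_mod_cast hT
  have hd : (0 : ℝ) ≤ d := Nat.cast_nonneg _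
  have hL : (0 : ℝ) ≤ L := Nat.cast_nonneg _
  have hB1 : (1 : ℝ) ≤ 8 * (d + 1) * A * ((2 * d + 1) * L + (d + 3) * T) := by
    have h1 : (1 : ℝ) ≤ 8 * (d + 1) * A := by nlinarith [mul_nonneg hd hA0]
    have h2 : (1 : ℝ) ≤ (2 * d + 1) * L + (d + 3) * T := by
      have : (0 : ℝ) ≤ (2 * d + 1) * L := by positivity
      nlinarith
    exact one_le_mul_of_one_le_of_one_le h1 h2
  have main : ∀ k, k ≤ T → ((der a)^[k] (Mon ν)).totalDegree ≤ (2 * d + 1) * L + (d + 3) * k ∧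
      mlen ((der a)^[k] (Mon ν)) ≤ (8 * (d + 1) * A * ((2 * d + 1) * L + (d + 3) * T)) ^ k := by
    intro k
    induction k with
    | zero =>
      intro _
      rw [Function.iterate_zero, id_eq, pow_zero]
      exact ⟨(a2_Mon ν).1.trans (by omega), (a2_Mon ν).2⟩
    | succ k ih =>
      intro hk'
      obtain ⟨h1, h2⟩ := ih (by omega)
      rw [Function.iterate_succ_apply']
      obtain ⟨h3, h4⟩ := der_bd a A hA ha _ _ _ h1 h2
      refine ⟨h3.trans (by rw [Nat.mul_succ]; omega), h4.trans ?_⟩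
      rw [pow_succ]
      have h5 : 0 ≤ (8 * (d + 1) * A * ((2 * d + 1) * L + (d + 3) * T)) ^ k := pow_nonneg (zero_le_one.trans hB1) _
      rw [mul_comm (_ ^ k)]
      refine mul_le_mul_of_nonneg_right ?_ h5
      refine mul_le_mul_of_nonneg_left ?_ hc
      push_cast
      have h6 : (k : ℝ) ≤ T := by exact_mod_cast (by omega : k ≤ T)
      nlinarith
  obtain ⟨h1, h2⟩ := main k hk
  refine ⟨h1.trans ?_, h2.trans (pow_le_pow_right₀ hB1 hk)⟩
  have := Nat.mul_le_mul_left (d + 3) hk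
  omega

end Pool.Agent.MSK
end

end

section

/-! # R/A1_NabBd: degree and length of the covariant derivative -/

open Complex Filter Topology IntermediateField

noncomputable section

namespace Pool.Agent.MSR

open MSD MSP MSK

variable {d : ℕ}

theorem a1r_ite (p : Prop) [Decidable p] (v : MvPolynomial (Vr d) ℤ) (hv : a2_B 1 1 v) :
    a2_B 1 1 (if p then v else 0) := by
  by_cases h : p
  · rw [if_pos h]
    exact hv
  · rw [if_neg h, ← MvPolynomial.C_0]
    exact a2_mono (a2_C 0) (by omega) (by simp)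

/-- A1a. PROOF. `rhp l j` is `X r` times a sum of at most three terms of degree `≤ 1` and length `≤ 1` (lemmas `mlen_add`, `mlen_mul`, `mlen_monomial` of P/A1_Len; write
`1 = monomial 0 1`, `X v = monomial (single v 1) 1`; split the three `if`). -/
theorem rhp_bd (l : Fin (d + 1)) (j : Fin d) : (rhp l j).totalDegree ≤ 2 ∧ mlen (rhp l j) ≤ 3 := by
  have h1 : a2_B 1 1 (1 : MvPolynomial (Vr d) ℤ) := by
    rw [← MvPolynomial.C_1]
    exact a2_mono (a2_C 1) (by omega) (by simp)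
  have h2 := a2_mul (a2_var (Vr.r : Vr d)) (a2_sub (a2_add (a1r_ite (l = j.castSucc) _ h1)
    (a1r_ite (l = Fin.last d) _ (a2_var (Vr.b j.succ)))) (a1r_ite (l = j.succ) _ (a2_var (Vr.z : Vr d))))
  have h3 : a2_B 2 3 (rhp l j) := a2_mono h2 (by omega) (by norm_num)
  exact h3

theorem a1r_dlv (j : Fin d) (v : Vr d) : a2_B 5 (21 * (d + 1)) (dlv j v) := by
  have hd : (0 : ℝ) ≤ d := Nat.cast_nonneg _
  have hr : ∀ (l : Fin (d + 1)) (j : Fin d), a2_B 2 3 (rhp l j) := fun l j => rhp_bd l j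
  have h0 : a2_B 5 (21 * (d + 1)) (0 : MvPolynomial (Vr d) ℤ) := by
    rw [← MvPolynomial.C_0]
    refine a2_mono (a2_C 0) (by omega) ?_
    simp
    positivity
  cases v with
  | X l =>
    change a2_B _ _ (-(rhp l j * MvPolynomial.X (Vr.Y l)))
    exact a2_mono (a2_neg' (a2_mul (hr l j) (a2_var _))) (by omega) (by nlinarith)
  | Y l =>
    change a2_B _ _ (-(rhp l j * (6 * MvPolynomial.X (Vr.X l) ^ 2 - MvPolynomial.X Vr.g)))
    have h1 : a2_B 2 6 (6 * (MvPolynomial.X (Vr.X l) : MvPolynomial (Vr d) ℤ) ^ 2) := by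
      have h2 := a2_mul (a2_C (σ := Vr d) 6) (a2_pow (a2_var (Vr.X l)) 2)
      rw [show (MvPolynomial.C (6 : ℤ) : MvPolynomial (Vr d) ℤ) = 6 from map_ofNat _ 6] at h2
      exact a2_mono h2 (by omega) (by norm_num)
    exact a2_mono (a2_neg' (a2_mul (hr l j) (a2_sub h1 (a2_var Vr.g)))) (by omega) (by nlinarith)
  | Q i =>
    change a2_B _ _ (-∑ l, rhp l i * rhp l j * MvPolynomial.X (Vr.X l))
    have h1 : a2_B 5 (∑ _l : Fin (d + 1), (9 : ℝ)) (∑ l, rhp l i * rhp l j * MvPolynomial.X (Vr.X l)) :=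
      a2_sum _ _ _ _ fun l _ => a2_mono (a2_mul (a2_mul (hr l i) (hr l j)) (a2_var _)) (by omega) (by norm_num)
    refine a2_mono (a2_neg' h1) le_rfl ?_
    rw [Finset.sum_const, Finset.card_univ, Fintype.card_fin, nsmul_eq_mul]
    push_cast
    nlinarith
  | b l => exact h0
  | g => exact h0
  | k => exact h0
  | z => exact h0
  | r => exact h0

theorem a1r_dlt (j : Fin d) (n : ℕ) (H : ℝ) (p : MvPolynomial (Vr d) ℤ)
    (h1 : p.totalDegree ≤ n) (h2 : mlen p ≤ H) : a2_B (n + 4) (21 * (d + 1) * n * H) (dlt j p) := by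
  classical
  have hc : (0 : ℝ) ≤ 21 * (d + 1) := by positivity
  have key : ∀ m ∈ p.support, a2_B (n + 4) (|((p.coeff m : ℤ) : ℝ)| * (21 * (d + 1) * n))
      (dlt j (MvPolynomial.monomial m (p.coeff m))) := by
    intro m hm
    unfold dlt
    rw [MvPolynomial.mkDerivation_monomial, ← MvPolynomial.C_mul', Finsupp.sum]
    have hdeg : ∑ v ∈ m.support, m v ≤ n := (MvPolynomial.le_totalDegree hm).trans h1
    have hs : a2_B (n + 4) (∑ v ∈ m.support, (m v : ℝ) * (21 * (d + 1)))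
        (∑ v ∈ m.support, (MvPolynomial.monomial (m - Finsupp.single v 1) ((m v : ℕ) : ℤ)) • dlv j v) := by
      refine a2_sum _ _ _ _ fun v hv => ?_
      rw [smul_eq_mul]
      have hv1 : 1 ≤ m v := Nat.one_le_iff_ne_zero.mpr (Finsupp.mem_support_iff.mp hv)
      have h3 : a2_B (n - 1) (m v : ℝ)
          (MvPolynomial.monomial (m - Finsupp.single v 1) ((m v : ℕ) : ℤ) : MvPolynomial (Vr d) ℤ) := by
        refine ⟨(MvPolynomial.totalDegree_monomial_le _ _).trans ?_, ?_⟩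
        · have e1 : (m - Finsupp.single v 1).sum (fun _ => id) = ∑ w, (m - Finsupp.single v 1 : Vr d →₀ ℕ) w :=
            Finsupp.sum_fintype _ _ (fun _ => rfl)
          have e2 : ∑ w ∈ m.support, m w = ∑ w, m w := Finsupp.sum_fintype m (fun _ e => e) (fun _ => rfl)
          rw [e2] at hdeg
          rw [e1]
          have e3 : ∑ w, (m - Finsupp.single v 1 : Vr d →₀ ℕ) w + 1 ≤ ∑ w, m w := by
            rw [← Finset.add_sum_erase _ _ (Finset.mem_univ v), ← Finset.add_sum_erase _ (fun w => m w) (Finset.mem_univ v),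
              Finsupp.coe_tsub, Pi.sub_apply, Finsupp.single_eq_same]
            have e4 : ∑ w ∈ Finset.univ.erase v, (m - Finsupp.single v 1 : Vr d →₀ ℕ) w ≤ ∑ w ∈ Finset.univ.erase v, m w := by
              refine Finset.sum_le_sum fun w _ => ?_
              rw [Finsupp.coe_tsub, Pi.sub_apply]
              exact Nat.sub_le _ _
            rw [Finsupp.coe_tsub] at e4
            omega
          omega
        · rw [mlen_monomial]
          push_cast
          rw [abs_of_nonneg (Nat.cast_nonneg _)]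
      have hn : 1 ≤ n := by
        refine hv1.trans (le_trans ?_ hdeg)
        exact Finset.single_le_sum (f := fun v => m v) (fun _ _ => Nat.zero_le _) hv
      exact a2_mono (a2_mul h3 (a1r_dlv j v)) (by omega) le_rfl
    have h4 := a2_mul (a2_C (σ := Vr d) (p.coeff m)) hs
    refine a2_mono h4 (by omega) ?_
    refine mul_le_mul_of_nonneg_left ?_ (abs_nonneg _)
    rw [← Finset.sum_mul, mul_comm]
    refine mul_le_mul_of_nonneg_left ?_ hc
    exact_mod_cast hdeg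
  have hsum := a2_sum p.support _ _ _ key
  rw [← map_sum, ← p.as_sum] at hsum
  refine ⟨hsum.1, hsum.2.trans ?_⟩
  rw [← Finset.sum_mul]
  have h7 : ∑ m ∈ p.support, |((p.coeff m : ℤ) : ℝ)| ≤ H := h2
  have h8 : (0 : ℝ) ≤ 21 * (d + 1) * n := mul_nonneg hc (Nat.cast_nonneg _)
  calc _ ≤ H * (21 * (d + 1) * n) := mul_le_mul_of_nonneg_right h7 h8
    _ = _ := by ring

/-- A1b. PROOF. By `rhp_bd`: `dlv j v` has degree `≤ 3, 4, 5` and length `≤ 3, 21, 9 (d + 1)` for `v = X l, Y l, Q i`, and is `0` for the other variables. So as in `der_bd` (K/A2_Bd; `dlt j R = ∑_m ∑_v c_m m_v X^(m - e_v) dlv j v`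
over the monomials `m` of `R` and the variables `v`, and `∑_v m_v ≤ n`): `dlt j R` has degree `≤ n + 4` and length `≤ 21 (d + 1) n H`; and `X (Q j) * R` has degree `≤ n + 1` and length `≤ H`. -/
theorem nab_bd (j : Fin d) (n : ℕ) (H : ℝ) (R : MvPolynomial (Vr d) ℤ) (h1 : R.totalDegree ≤ n) (h2 : mlen R ≤ H) :
    (nab j R).totalDegree ≤ n + 4 ∧ mlen (nab j R) ≤ 22 * (d + 1) * (n + 1) * H := by
  have hH : 0 ≤ H := (mlen_nonneg R).trans h2
  have hd : (0 : ℝ) ≤ d := Nat.cast_nonneg _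
  have hn : (0 : ℝ) ≤ n := Nat.cast_nonneg _
  have h3 := a2_add (a1r_dlt j n H R h1 h2) (a2_mul (a2_var (Vr.Q j)) (⟨h1, h2⟩ : a2_B n H R))
  have h4 : a2_B (n + 4) (22 * (d + 1) * (n + 1) * H) (nab j R) := by
    refine a2_mono h3 (by omega) ?_
    have e : 22 * ((d : ℝ) + 1) * (n + 1) * H - (21 * (d + 1) * n * H + 1 * H) = (d * n + n + 22 * d + 21) * H := by ring
    have e2 : 0 ≤ ((d : ℝ) * n + n + 22 * d + 21) * H := by positivity
    linarith
  exact h4

end Pool.Agent.MSR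
end

end

section

/-! # R/A2_RpBd: induction for `Rp` and `Bp`; size of `Rp` -/

open Complex Filter Topology IntermediateField

noncomputable section

namespace Pool.Agent.MSR

open MSD MSP MSK

variable {d : ℕ}

/-- A2a. the induction principle. PROOF. `Rp κ` and `Bp q κ` are the same `foldr` over `List.finRange d`; for a list `L` the two `foldr` are related with `n = (L.map κ).sum` (induction on `L`, and for one `j` induction on
the number of iterations, `Function.iterate_succ_apply'`); `((List.finRange d).map κ).sum = ∑ j, κ j` (`List.sum_ofFn` or `Fin.sum_univ_def`). -/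
theorem Rp_ind (q : Fin d → Fin d → ℂ) (Rel : MvPolynomial (Vr d) ℤ → MvPolynomial (Fin d) ℂ → ℕ → Prop) (h0 : Rel 1 1 0)
    (h : ∀ j R B n, Rel R B n → Rel (nab j R) (bb q j B) (n + 1)) (κ : Fin d → ℕ) : Rel (Rp κ) (Bp q κ) (∑ j, κ j) := by
  have hit : ∀ (j : Fin d) (t : ℕ) R B n, Rel R B n → Rel ((nab j)^[t] R) ((bb q j)^[t] B) (n + t) := by
    intro j t
    induction t with
    | zero => intro R B n hR; simpa using hR
    | succ t ih =>
      intro R B n hR
      rw [Function.iterate_succ_apply', Function.iterate_succ_apply']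
      exact h j _ _ _ (ih R B n hR)
  have hL : ∀ L : List (Fin d), Rel (L.foldr (fun j R => (nab j)^[κ j] R) 1) (L.foldr (fun j B => (bb q j)^[κ j] B) 1) ((L.map κ).sum) := by
    intro L
    induction L with
    | nil => simpa using h0
    | cons j L ih =>
      rw [List.foldr_cons, List.foldr_cons, List.map_cons, List.sum_cons, add_comm]
      exact hit j (κ j) _ _ _ ih
  have := hL (List.finRange d)
  rw [← Fin.sum_univ_def] at this
  exact this

/-- A2b. PROOF. `Rp_ind` with `Rel R _ n := R.totalDegree ≤ 4 n ∧ mlen R ≤ ∏_{i<n} (22 (d+1) (4 i + 1))` (`nab_bd`); every factor is `≤ 88 (d+1) (n+1)` for `i < n`. -/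
theorem Rp_bd (κ : Fin d → ℕ) : (Rp κ).totalDegree ≤ 4 * ∑ j, κ j ∧
    mlen (Rp κ) ≤ (88 * (d + 1) * ((∑ j, κ j : ℕ) + 1)) ^ (∑ j, κ j) := by
  have key := Rp_ind (d := d) (fun _ _ => 0)
    (fun R _ n => R.totalDegree ≤ 4 * n ∧ mlen R ≤ ∏ i ∈ Finset.range n, (22 * ((d : ℝ) + 1) * (4 * (i : ℝ) + 1))) (by
      refine ⟨by simp, ?_⟩
      rw [Finset.range_zero, Finset.prod_empty]
      have h1 : (1 : MvPolynomial (Vr d) ℤ) = MvPolynomial.monomial 0 1 := rfl
      rw [h1]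
      refine le_trans (mlen_monomial _ _).le ?_
      simp) (by
      intro j R B n hR
      have := nab_bd j (4 * n) _ R hR.1 hR.2
      refine ⟨by omega, ?_⟩
      refine le_trans this.2 ?_
      rw [Finset.prod_range_succ]
      push_cast
      exact le_of_eq (by ring)) κ
  refine ⟨key.1, le_trans key.2 ?_⟩
  set n := ∑ j, κ j with hn
  calc ∏ i ∈ Finset.range n, (22 * ((d : ℝ) + 1) * (4 * (i : ℝ) + 1)) ≤ ∏ _i ∈ Finset.range n, (88 * ((d : ℝ) + 1) * ((n : ℝ) + 1)) := by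
        apply Finset.prod_le_prod
        · intro i _; positivity
        · intro i hi
          have hi' : (i : ℝ) ≤ n := by exact_mod_cast (Finset.mem_range.mp hi).le
          have hd : (0 : ℝ) ≤ (d : ℝ) + 1 := by positivity
          nlinarith
    _ = (88 * ((d : ℝ) + 1) * ((n : ℝ) + 1)) ^ n := by
        rw [Finset.prod_const, Finset.card_range]

end Pool.Agent.MSR
end

end

section

/-! # R/A6_NmBp: the norm of `Bp` -/

open Complex Filter Topology IntermediateField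

noncomputable section

namespace Pool.Agent.MSR

open MSD MSP MSK

variable {d : ℕ}

theorem a6_pderiv_eq (i : Fin d) (B : MvPolynomial (Fin d) ℂ) :
    MvPolynomial.pderiv i B = ∑ m ∈ B.support, MvPolynomial.monomial (m - Finsupp.single i 1) (B.coeff m * m i) := by
  conv_lhs => rw [B.as_sum, map_sum]
  refine Finset.sum_congr rfl fun m _ => ?_
  rw [MvPolynomial.pderiv_monomial]

theorem a6_sum_sub (i : Fin d) (m : Fin d →₀ ℕ) : ((m - Finsupp.single i 1).sum fun _ e => e) ≤ m.sum fun _ e => e := by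
  rw [Finsupp.sum_fintype _ _ (fun _ => rfl), Finsupp.sum_fintype _ _ (fun _ => rfl)]
  refine Finset.sum_le_sum fun w _ => ?_
  rw [Finsupp.coe_tsub, Pi.sub_apply]
  exact Nat.sub_le _ _

theorem a6_deg_pderiv (i : Fin d) (B : MvPolynomial (Fin d) ℂ) (n : ℕ) (hB : B.totalDegree ≤ n) : (MvPolynomial.pderiv i B).totalDegree ≤ n := by
  rw [a6_pderiv_eq]
  refine MvPolynomial.totalDegree_finsetSum_le fun m hm => ?_
  refine (MvPolynomial.totalDegree_monomial_le _ _).trans ?_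
  exact (a6_sum_sub i m).trans ((MvPolynomial.le_totalDegree hm).trans hB)

theorem a6_nm_pderiv (i : Fin d) (B : MvPolynomial (Fin d) ℂ) (n : ℕ) (hB : B.totalDegree ≤ n) (ρ : ℝ) (hρ : 1 ≤ ρ) :
    nm ρ (MvPolynomial.pderiv i B) ≤ n * nm ρ B := by
  have hρ0 : 0 ≤ ρ := zero_le_one.trans hρ
  rw [a6_pderiv_eq]
  refine (nm_sum ρ hρ0 _ _).trans ?_
  conv_rhs => unfold nm
  rw [Finset.mul_sum]
  refine Finset.sum_le_sum fun m hm => ?_
  rw [a5_monomial, norm_mul, Complex.norm_natCast]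
  have h1 : (m i : ℝ) ≤ n := by
    have h2 : m i ≤ n := by
      refine le_trans ?_ ((MvPolynomial.le_totalDegree hm).trans hB)
      rw [Finsupp.sum_fintype _ _ (fun _ => rfl)]
      exact Finset.single_le_sum (f := fun i => m i) (fun _ _ => Nat.zero_le _) (Finset.mem_univ i)
    exact_mod_cast h2
  have h3 : ρ ^ ((m - Finsupp.single i 1).sum fun _ e => e) ≤ ρ ^ (m.sum fun _ e => e) := pow_le_pow_right₀ hρ (a6_sum_sub i m)
  calc ‖B.coeff m‖ * (m i : ℝ) * ρ ^ ((m - Finsupp.single i 1).sum fun _ e => e)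
      ≤ ‖B.coeff m‖ * n * ρ ^ (m.sum fun _ e => e) :=
        mul_le_mul (mul_le_mul_of_nonneg_left h1 (norm_nonneg _)) h3 (pow_nonneg hρ0 _) (by positivity)
    _ = _ := by ring

/-- A6a. PROOF. `nm_mul, nm_X`: the first term is `≤ ρ nm B`; `pderiv i B` has the coefficients `(m_i + 1) b_(m + e_i)`, so `nm ρ (pderiv i B) ≤ (n/ρ) nm ρ B ≤ n nm ρ B` (`m_i ≤ n` for `m ∈ B.support`). -/
theorem nm_bb (q : Fin d → Fin d → ℂ) (a : ℝ) (hq : ∀ i j, ‖q i j‖ ≤ a) (j : Fin d) (B : MvPolynomial (Fin d) ℂ) (n : ℕ)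
    (hB : B.totalDegree ≤ n) (ρ : ℝ) (hρ : 1 ≤ ρ) : nm ρ (bb q j B) ≤ (ρ + d * a * n) * nm ρ B := by
  have hρ0 : 0 ≤ ρ := zero_le_one.trans hρ
  unfold bb
  refine (nm_add ρ hρ0 _ _).trans ?_
  have h1 : nm ρ (MvPolynomial.X j * B) ≤ ρ * nm ρ B := by
    refine (nm_mul ρ hρ0 _ _).trans ?_
    rw [nm_X]
  have h2 : nm ρ (∑ i, MvPolynomial.C (q i j) * MvPolynomial.pderiv i B) ≤ ∑ _i : Fin d, a * (n * nm ρ B) := by
    refine (nm_sum ρ hρ0 _ _).trans (Finset.sum_le_sum fun i _ => ?_)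
    refine (nm_mul ρ hρ0 _ _).trans ?_
    rw [nm_C]
    exact mul_le_mul (hq i j) (a6_nm_pderiv i B n hB ρ hρ) (nm_nonneg ρ hρ0 _) ((norm_nonneg _).trans (hq i j))
  rw [Finset.sum_const, Finset.card_univ, Fintype.card_fin, nsmul_eq_mul] at h2
  calc _ ≤ ρ * nm ρ B + d * (a * (n * nm ρ B)) := add_le_add h1 h2
    _ = _ := by ring

theorem a6_deg_bb (q : Fin d → Fin d → ℂ) (j : Fin d) (B : MvPolynomial (Fin d) ℂ) (n : ℕ) (hB : B.totalDegree ≤ n) :
    (bb q j B).totalDegree ≤ n + 1 := by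
  unfold bb
  refine (MvPolynomial.totalDegree_add _ _).trans (max_le ?_ ?_)
  · refine (MvPolynomial.totalDegree_mul _ _).trans ?_
    rw [MvPolynomial.totalDegree_X]
    omega
  · refine MvPolynomial.totalDegree_finsetSum_le fun i _ => ?_
    refine (MvPolynomial.totalDegree_mul _ _).trans ?_
    rw [MvPolynomial.totalDegree_C]
    have := a6_deg_pderiv i B n hB
    omega

/-- A6b. PROOF. `Rp_ind` with `Rel _ B m := B.totalDegree ≤ m ∧ (m ≤ n → nm ρ B ≤ (ρ + d a n)^m)`, and `ρ + d a n ≥ 1`. -/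
theorem nm_Bp (q : Fin d → Fin d → ℂ) (a : ℝ) (ha : 0 ≤ a) (hq : ∀ i j, ‖q i j‖ ≤ a) (κ : Fin d → ℕ) (n : ℕ) (hn : ∑ j, κ j ≤ n) (ρ : ℝ) (hρ : 1 ≤ ρ) :
    nm ρ (Bp q κ) ≤ (ρ + d * a * n) ^ n := by
  have hρ0 : 0 ≤ ρ := zero_le_one.trans hρ
  have h1 : 1 ≤ ρ + d * a * n := by
    have : 0 ≤ (d : ℝ) * a * n := by positivity
    linarith
  have h := Rp_ind q (fun _ B m => B.totalDegree ≤ m ∧ (m ≤ n → nm ρ B ≤ (ρ + d * a * n) ^ m)) ?_ ?_ κ
  · exact (h.2 hn).trans (pow_le_pow_right₀ h1 hn)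
  · refine ⟨?_, fun _ => ?_⟩
    · rw [MvPolynomial.totalDegree_one]
    · have h2 := nm_C (σ := Fin d) ρ 1
      rw [map_one, norm_one] at h2
      rw [h2, pow_zero]
  · rintro j _ B m ⟨hB, hB'⟩
    refine ⟨a6_deg_bb q j B m hB, fun hm => ?_⟩
    refine (nm_bb q a hq j B m hB ρ hρ).trans ?_
    rw [pow_succ, mul_comm]
    refine mul_le_mul (hB' (by omega)) ?_ ?_ (pow_nonneg (zero_le_one.trans h1) _)
    · have h3 : (m : ℝ) ≤ n := by exact_mod_cast (by omega : m ≤ n)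
      have h4 : (d : ℝ) * a * m ≤ d * a * n := mul_le_mul_of_nonneg_left h3 (by positivity)
      linarith
    · positivity

end Pool.Agent.MSR
end

end
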