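import Mathlib
import Pool.Agent.Lib.MP_f58a57_nt.FK.K004
import Pool.Agent.Lib.MP_f58a57_nt.FK.K010
import Pool.Agent.Lib.MP_f58a57_nt.FK.K015
import Pool.Agent.Lib.MP_f58a57_nt.FK.K016

section

/-! # E1b: duplication formulas (MP_f58a57_nt, pairs) -/

open Complex Filter Topology

noncomputable section

namespace Pool.Agent.MSP

theorem th_ne_of_double (τ : ℂ) (hτ : 0 < τ.im) (t : ℂ) (ht : th τ (2 * t) ≠ 0) : th τ t ≠ 0 := by
  intro h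
  apply ht
  rw [th_eq_zero_iff τ hτ] at h ⊢
  obtain ⟨m, n, rfl⟩ := h
  exact ⟨2 * m, 2 * n, by push_cast; ring⟩

theorem wp'_ne (τ : ℂ) (hτ : 0 < τ.im) (t : ℂ) (ht : th τ (2 * t) ≠ 0) : deriv (wp τ (sE τ)) t ≠ 0 := by
  intro h
  have h1 := th_double τ hτ t (th_ne_of_double τ hτ t ht)
  rw [h, zero_mul] at h1
  have h2 := mul_ne_zero (neg_ne_zero.mpr (pow_ne_zero 3 (deriv_th_zero_ne τ hτ))) ht
  exact h2 h1.symm

theorem e1b_eventually (τ : ℂ) (hτ : 0 < τ.im) (t : ℂ) (ht : th τ (2 * t) ≠ 0) :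
    ∀ᶠ u in 𝓝 t, th τ (2 * u) ≠ 0 := by
  have hc : Continuous (fun u : ℂ => th τ (2 * u)) :=
    (th_differentiable τ hτ).continuous.comp (continuous_const.mul continuous_id)
  exact hc.continuousAt.eventually_ne ht

theorem e1b_comp_two {f : ℂ → ℂ} {f' t : ℂ} (h : HasDerivAt f f' (2 * t)) :
    HasDerivAt (fun u => f (2 * u)) (2 * f') t := by
  have h2 : HasDerivAt (fun u : ℂ => 2 * u) 2 t := by
    simpa using (hasDerivAt_id t).const_mul (2 : ℂ)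
  have := HasDerivAt.comp t h h2
  rw [mul_comm]
  exact this

/-- E1b. PROOF. Logarithmic derivative of `th_double` (both sides analytic and nonzero near `t`):
`wp''/wp' + 4 ph(t) = 2 ph(2t)`. -/
theorem ph_double (τ : ℂ) (hτ : 0 < τ.im) (t : ℂ) (ht : th τ (2 * t) ≠ 0) :
    ph τ (2 * t) = 2 * ph τ t + deriv (deriv (wp τ (sE τ))) t / (2 * deriv (wp τ (sE τ)) t) := by
  have ht1 := th_ne_of_double τ hτ t ht
  have hP1 := wp'_ne τ hτ t ht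
  have hc := deriv_th_zero_ne τ hτ
  have hP : HasDerivAt (deriv (wp τ (sE τ))) (deriv (deriv (wp τ (sE τ))) t) t :=
    (wp_ode2 τ hτ t ht1).differentiableAt.hasDerivAt
  have hth : HasDerivAt (th τ) (deriv (th τ) t) t := (th_differentiable τ hτ t).hasDerivAt
  have hth2 : HasDerivAt (th τ) (deriv (th τ) (2 * t)) (2 * t) := (th_differentiable τ hτ (2 * t)).hasDerivAt
  have hL := hP.mul (hth.pow 4)
  have hR := (e1b_comp_two hth2).const_mul (-(deriv (th τ) 0) ^ 3)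
  have hev : (fun u => deriv (wp τ (sE τ)) u * th τ u ^ 4) =ᶠ[𝓝 t]
      (fun u => -(deriv (th τ) 0) ^ 3 * th τ (2 * u)) := by
    filter_upwards [e1b_eventually τ hτ t ht] with u hu
    exact th_double τ hτ u (th_ne_of_double τ hτ u hu)
  have hL' : HasDerivAt (fun u => deriv (wp τ (sE τ)) u * th τ u ^ 4)
      (-(deriv (th τ) 0) ^ 3 * (2 * deriv (th τ) (2 * t))) t := hR.congr_of_eventuallyEq hev
  have key := HasDerivAt.unique hL hL'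
  have h0 := th_double τ hτ t ht1
  simp only [Pi.pow_apply] at key
  unfold ph N1 N0
  set A := deriv (deriv (wp τ (sE τ))) t
  set B := deriv (wp τ (sE τ)) t
  set C := deriv (th τ) 0
  set D := deriv (th τ) (2 * t)
  set E := deriv (th τ) t
  set T := th τ t
  set T2 := th τ (2 * t)
  have hT2 : T2 = -(B * T ^ 4) / C ^ 3 := by
    field_simp
    linear_combination h0
  have hD : D = -(A * T ^ 4 + B * (4 * T ^ 3 * E)) / (2 * C ^ 3) := by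
    field_simp
    push_cast at key
    linear_combination key
  rw [hD, hT2]
  have hB : B ≠ 0 := hP1
  have hT : T ≠ 0 := ht1
  have hC : C ≠ 0 := hc
  field_simp
  ring

/-- E1c. PROOF. Differentiate E1b (`hasDerivAt_ph`, `wp_ode2` and `wp''' = 12 wp wp'`): with `s = sE τ`,
`-2(wp(2t) + s) = -2 (wp(t) + s) + (wp''' wp' - wp''²)/(2 wp'²)`, and `wp''' wp'/(2 wp'²) = 6 wp`. -/
theorem wp_double (τ : ℂ) (hτ : 0 < τ.im) (t : ℂ) (ht : th τ (2 * t) ≠ 0) :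
    wp τ (sE τ) (2 * t) = -2 * wp τ (sE τ) t +
      (deriv (deriv (wp τ (sE τ))) t / (2 * deriv (wp τ (sE τ)) t)) ^ 2 := by
  have ht1 := th_ne_of_double τ hτ t ht
  have hP1 := wp'_ne τ hτ t ht
  have hW : HasDerivAt (wp τ (sE τ)) (deriv (wp τ (sE τ)) t) t :=
    (wp_analyticAt τ (sE τ) hτ t ht1).differentiableAt.hasDerivAt
  have hP : HasDerivAt (deriv (wp τ (sE τ))) (deriv (deriv (wp τ (sE τ))) t) t :=
    (wp_ode2 τ hτ t ht1).differentiableAt.hasDerivAt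
  have hval : deriv (deriv (wp τ (sE τ))) t = 6 * wp τ (sE τ) t ^ 2 - 2 / 3 * Real.pi ^ 4 * MSD.e4 τ :=
    (wp_ode2 τ hτ t ht1).deriv
  have hL : HasDerivAt (fun u => ph τ (2 * u)) (2 * (-(wp τ (sE τ) (2 * t) + sE τ))) t :=
    e1b_comp_two (hasDerivAt_ph τ (sE τ) hτ (2 * t) ht)
  have hnum : HasDerivAt (fun u => 6 * wp τ (sE τ) u ^ 2 - 2 / 3 * Real.pi ^ 4 * MSD.e4 τ)
      (12 * wp τ (sE τ) t * deriv (wp τ (sE τ)) t) t := by
    have h1 := ((hW.pow 2).const_mul (6 : ℂ)).sub_const (2 / 3 * Real.pi ^ 4 * MSD.e4 τ)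
    have h2 : (6 : ℂ) * ((2 : ℕ) * wp τ (sE τ) t ^ (2 - 1) * deriv (wp τ (sE τ)) t) =
        12 * wp τ (sE τ) t * deriv (wp τ (sE τ)) t := by
      norm_num
      ring
    rw [h2] at h1
    exact h1
  have hden : HasDerivAt (fun u => 2 * deriv (wp τ (sE τ)) u) (2 * deriv (deriv (wp τ (sE τ))) t) t :=
    hP.const_mul 2
  have hden0 : 2 * deriv (wp τ (sE τ)) t ≠ 0 := mul_ne_zero two_ne_zero hP1
  have hR := ((hasDerivAt_ph τ (sE τ) hτ t ht1).const_mul 2).add (hnum.div hden hden0)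
  have hev : (fun u => ph τ (2 * u)) =ᶠ[𝓝 t]
      (fun u => 2 * ph τ u + (6 * wp τ (sE τ) u ^ 2 - 2 / 3 * Real.pi ^ 4 * MSD.e4 τ) /
        (2 * deriv (wp τ (sE τ)) u)) := by
    filter_upwards [e1b_eventually τ hτ t ht] with u hu
    rw [ph_double τ hτ u hu, (wp_ode2 τ hτ u (th_ne_of_double τ hτ u hu)).deriv]
  have hR' := hR.congr_of_eventuallyEq hev
  have key := HasDerivAt.unique hL hR'
  rw [← hval] at key
  rw [hval] at key ⊢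
  set P := wp τ (sE τ) t
  set P1 := deriv (wp τ (sE τ)) t
  set P2 := wp τ (sE τ) (2 * t)
  set K := 2 / 3 * (Real.pi : ℂ) ^ 4 * MSD.e4 τ
  have hP1' : P1 ≠ 0 := hP1
  field_simp at key ⊢
  linear_combination (-1 : ℂ) * key

end Pool.Agent.MSP
end

end

section

/-! # E2: algebraic values at dyadic points (MP_f58a57_nt, pairs) -/

open Complex Filter Topology

noncomputable section

namespace Pool.Agent.MSP

theorem e2_N1_neg (τ t : ℂ) : N1 τ (-t) = N1 τ t := by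
  have h : (fun u : ℂ => th τ (-u)) = fun u => -th τ u := by
    funext u; exact th_neg τ u
  have h1 : deriv (fun u : ℂ => th τ (-u)) t = deriv (fun u => -th τ u) t := by rw [h]
  rw [deriv_comp_neg, deriv.fun_neg] at h1
  unfold N1
  exact neg_injective h1

theorem e2_N1_add_one (τ t : ℂ) : N1 τ (t + 1) = -N1 τ t := by
  have h : (fun u : ℂ => th τ (u + 1)) = fun u => -th τ u := by
    funext u; exact th_add_one τ u
  have h1 : deriv (fun u : ℂ => th τ (u + 1)) t = deriv (fun u => -th τ u) t := by rw [h]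
  rw [deriv_comp_add_const, deriv.fun_neg] at h1
  exact h1

theorem e2_d2_neg (τ t : ℂ) : deriv (deriv (th τ)) (-t) = -deriv (deriv (th τ)) t := by
  have h : (fun u : ℂ => N1 τ (-u)) = fun u => N1 τ u := by
    funext u; exact e2_N1_neg τ u
  have h1 : deriv (fun u : ℂ => N1 τ (-u)) t = deriv (fun u => N1 τ u) t := by rw [h]
  rw [deriv_comp_neg] at h1
  change -deriv (deriv (th τ)) (-t) = deriv (deriv (th τ)) t at h1
  rw [← h1, neg_neg]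

theorem e2_d2_add_one (τ t : ℂ) : deriv (deriv (th τ)) (t + 1) = -deriv (deriv (th τ)) t := by
  have h : (fun u : ℂ => N1 τ (u + 1)) = fun u => -N1 τ u := by
    funext u; exact e2_N1_add_one τ u
  have h1 : deriv (fun u : ℂ => N1 τ (u + 1)) t = deriv (fun u => -N1 τ u) t := by rw [h]
  rw [deriv_comp_add_const, deriv.fun_neg] at h1
  exact h1

theorem e2_wp_neg (τ s t : ℂ) : wp τ s (-t) = wp τ s t := by
  have h1 : deriv (th τ) (-t) = deriv (th τ) t := e2_N1_neg τ t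
  simp only [wp, N2, N0, h1, e2_d2_neg, th_neg]
  ring

theorem e2_wp_add_one (τ s t : ℂ) : wp τ s (t + 1) = wp τ s t := by
  have h1 : deriv (th τ) (t + 1) = -deriv (th τ) t := e2_N1_add_one τ t
  simp only [wp, N2, N0, h1, e2_d2_add_one, th_add_one]
  ring

theorem e2_ph_neg (τ t : ℂ) : ph τ (-t) = -ph τ t := by
  simp only [ph, N0, e2_N1_neg, th_neg, div_neg]

theorem e2_ph_add_one (τ t : ℂ) : ph τ (t + 1) = ph τ t := by
  simp only [ph, N0, e2_N1_add_one, th_add_one, neg_div_neg_eq]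

theorem e2_dwp_neg (τ s t : ℂ) : deriv (wp τ s) (-t) = -deriv (wp τ s) t := by
  have h : (fun u : ℂ => wp τ s (-u)) = fun u => wp τ s u := by
    funext u; exact e2_wp_neg τ s u
  have h1 : deriv (fun u : ℂ => wp τ s (-u)) t = deriv (fun u => wp τ s u) t := by rw [h]
  rw [deriv_comp_neg] at h1
  rw [← h1, neg_neg]

theorem e2_dwp_add_one (τ s t : ℂ) : deriv (wp τ s) (t + 1) = deriv (wp τ s) t := by
  have h : (fun u : ℂ => wp τ s (u + 1)) = fun u => wp τ s u := by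
    funext u; exact e2_wp_add_one τ s u
  have h1 : deriv (fun u : ℂ => wp τ s (u + 1)) t = deriv (fun u => wp τ s u) t := by rw [h]
  rw [deriv_comp_add_const] at h1
  exact h1

theorem e2_per (f : ℂ → ℂ) (hf : ∀ t, f (t + 1) = f t) (t : ℂ) (m : ℤ) : f (t + m) = f t := by
  have h : Function.Periodic f 1 := hf
  have := h.int_mul m t
  simpa using this

/-- values at the half period. PROOF. `wp'` and `ph` are odd and `1`-periodic (from `th_neg`, `th_add_one`), so they vanish at `1/2`. -/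
theorem half_values (τ : ℂ) (hτ : 0 < τ.im) : deriv (wp τ (sE τ)) (1 / 2) = 0 ∧ ph τ (1 / 2) = 0 := by
  constructor
  · have h1 := e2_dwp_add_one τ (sE τ) (-(1 / 2))
    rw [e2_dwp_neg] at h1
    have h2 : (-(1 / 2) + 1 : ℂ) = 1 / 2 := by norm_num
    rw [h2] at h1
    linear_combination (1 / 2 : ℂ) * h1
  · have h1 := e2_ph_add_one τ (-(1 / 2))
    rw [e2_ph_neg] at h1
    have h2 : (-(1 / 2) + 1 : ℂ) = 1 / 2 := by norm_num
    rw [h2] at h1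
    linear_combination (1 / 2 : ℂ) * h1

theorem e2_root0 {F E : Type*} [Field F] [Field E] [Algebra F E] (q : Polynomial (algebraicClosure F E))
    (hq : q ≠ 0) (x : E) (hx : Polynomial.aeval x q = 0) : IsAlgebraic F x := by
  have h : IsAlgebraic (algebraicClosure F E) x := ⟨q, hq, hx⟩
  exact h.restrictScalars F

theorem e2_root (q : Polynomial (algebraicClosure ℚ ℂ)) (hq : q ≠ 0) (x : ℂ)
    (hx : Polynomial.aeval x q = 0) : IsAlgebraic ℚ x := e2_root0 q hq x hx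

theorem e2_quartic (a b c d e x : ℂ) (ha : IsAlgebraic ℚ a) (hb : IsAlgebraic ℚ b) (hc : IsAlgebraic ℚ c)
    (hd : IsAlgebraic ℚ d) (he : IsAlgebraic ℚ e) (h0 : a ≠ 0)
    (h : a * x ^ 4 + b * x ^ 3 + c * x ^ 2 + d * x + e = 0) : IsAlgebraic ℚ x := by
  obtain ⟨a', rfl⟩ : ∃ a' : algebraicClosure ℚ ℂ, (a' : ℂ) = a := ⟨⟨a, mem_algebraicClosure_iff.2 ha⟩, rfl⟩
  obtain ⟨b', rfl⟩ : ∃ a' : algebraicClosure ℚ ℂ, (a' : ℂ) = b := ⟨⟨b, mem_algebraicClosure_iff.2 hb⟩, rfl⟩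
  obtain ⟨c', rfl⟩ : ∃ a' : algebraicClosure ℚ ℂ, (a' : ℂ) = c := ⟨⟨c, mem_algebraicClosure_iff.2 hc⟩, rfl⟩
  obtain ⟨d', rfl⟩ : ∃ a' : algebraicClosure ℚ ℂ, (a' : ℂ) = d := ⟨⟨d, mem_algebraicClosure_iff.2 hd⟩, rfl⟩
  obtain ⟨e', rfl⟩ : ∃ a' : algebraicClosure ℚ ℂ, (a' : ℂ) = e := ⟨⟨e, mem_algebraicClosure_iff.2 he⟩, rfl⟩
  refine e2_root (Polynomial.C a' * Polynomial.X ^ 4 + Polynomial.C b' * Polynomial.X ^ 3 +
    Polynomial.C c' * Polynomial.X ^ 2 + Polynomial.C d' * Polynomial.X + Polynomial.C e') ?_ x ?_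
  · intro h1
    have h2 := congrArg (fun p => Polynomial.coeff p 4) h1
    simp at h2
    apply h0
    rw [h2]; rfl
  · simp only [map_add, map_mul, map_pow, Polynomial.aeval_C, Polynomial.aeval_X]
    exact h

theorem e2_cubic (b c d e x : ℂ) (hb : IsAlgebraic ℚ b) (hc : IsAlgebraic ℚ c)
    (hd : IsAlgebraic ℚ d) (he : IsAlgebraic ℚ e) (h0 : b ≠ 0)
    (h : b * x ^ 3 + c * x ^ 2 + d * x + e = 0) : IsAlgebraic ℚ x := by
  refine e2_quartic b c d e 0 x hb hc hd he isAlgebraic_zero h0 ?_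
  linear_combination x * h

theorem e2_sqrt (a x : ℂ) (ha : IsAlgebraic ℚ a) (h : x ^ 2 = a) : IsAlgebraic ℚ x := by
  refine e2_quartic 1 0 (-a) 0 0 x isAlgebraic_one isAlgebraic_zero ha.neg isAlgebraic_zero isAlgebraic_zero
    one_ne_zero ?_
  linear_combination x ^ 2 * h

/-- E2. PROOF. Induction on `k`. Put `G₂ = (4/3) e4/Ω⁴`, `G₃ = (8/27) e6/Ω⁶` (algebraic), `x = wp/(πΩ)²`, `y = wp'/(πΩ)³`, `f = ph/(πΩ)` at
`t = a/2^k`; `y² = 4x³ - G₂ x - G₃` (T8c), `wp''/(πΩ)⁴ = 6x² - G₂/2` (T8d). `k = 0` is excluded (`a/1` integer). If `2t` is an integer,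
reduce to `t = 1/2` by `1`-periodicity: `y = f = 0` and `4x³ - G₂x - G₃ = 0`, so `x` is algebraic. Otherwise `X = wp(2t)/(πΩ)²` and `F = ph(2t)/(πΩ)` are
algebraic by induction (`2t = a/2^{k-1}`), `X = -2x + ((6x² - G₂/2)/(2y))²` gives `4(X + 2x)(4x³ - G₂x - G₃) = (6x² - G₂/2)²`, a polynomial equation of
degree 4 for `x` with leading coefficient `36 - 32 = 4` over the field of algebraic numbers, so `x` is algebraic; `y` is a square root; and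
`F = 2f + (6x² - G₂/2)/(2y)`. (`IsAlgebraic`: work in `algebraicClosure ℚ ℂ`/`integralClosure`, closed under roots.) -/
theorem dyadic_alg (τ Ω : ℂ) (hτ : 0 < τ.im) (hΩ : Ω ≠ 0) (h4 : IsAlgebraic ℚ (MSD.e4 τ / Ω ^ 4))
    (h6 : IsAlgebraic ℚ (MSD.e6 τ / Ω ^ 6)) (k : ℕ) (a : ℤ) (ha : ¬ ((2 : ℤ) ^ k ∣ a)) :
    IsAlgebraic ℚ (wp τ (sE τ) ((a : ℂ) / 2 ^ k) / (Real.pi * Ω) ^ 2) ∧
    IsAlgebraic ℚ (deriv (wp τ (sE τ)) ((a : ℂ) / 2 ^ k) / (Real.pi * Ω) ^ 3) ∧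
    IsAlgebraic ℚ (ph τ ((a : ℂ) / 2 ^ k) / (Real.pi * Ω)) := by
  have hπ : (Real.pi : ℂ) ≠ 0 := by exact_mod_cast Real.pi_ne_zero
  -- notation
  obtain ⟨g, hg⟩ : ∃ g, g = MSD.e4 τ / Ω ^ 4 := ⟨_, rfl⟩
  obtain ⟨h, hh⟩ : ∃ h, h = MSD.e6 τ / Ω ^ 6 := ⟨_, rfl⟩
  rw [← hg] at h4
  rw [← hh] at h6
  have hg' : MSD.e4 τ = g * Ω ^ 4 := by rw [hg]; field_simp
  have hh' : MSD.e6 τ = h * Ω ^ 6 := by rw [hh]; field_simp
  have hn : ∀ n : ℕ, IsAlgebraic ℚ (n : ℂ) := fun n => isAlgebraic_natCast n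
  have hn2 : IsAlgebraic ℚ (2 : ℂ) := by exact_mod_cast hn 2
  have hn3 : IsAlgebraic ℚ (3 : ℂ) := by exact_mod_cast hn 3
  have hn4 : IsAlgebraic ℚ (4 : ℂ) := by exact_mod_cast hn 4
  have hn6 : IsAlgebraic ℚ (6 : ℂ) := by exact_mod_cast hn 6
  have hn8 : IsAlgebraic ℚ (8 : ℂ) := by exact_mod_cast hn 8
  have hn16 : IsAlgebraic ℚ (16 : ℂ) := by exact_mod_cast hn 16
  have hn27 : IsAlgebraic ℚ (27 : ℂ) := by exact_mod_cast hn 27
  have hG2 : IsAlgebraic ℚ (4 / 3 * g) := ((hn4.mul hn3.inv).mul h4)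
  have hG3 : IsAlgebraic ℚ (8 / 27 * h) := ((hn8.mul hn27.inv).mul h6)
  have hode : ∀ t : ℂ, th τ t ≠ 0 →
      (deriv (wp τ (sE τ)) t / (Real.pi * Ω) ^ 3) ^ 2 = 4 * (wp τ (sE τ) t / (Real.pi * Ω) ^ 2) ^ 3 -
        (4 / 3 * g) * (wp τ (sE τ) t / (Real.pi * Ω) ^ 2) - 8 / 27 * h := by
    intro t ht
    have h1 := wp_ode τ hτ t ht
    rw [hg', hh'] at h1
    rw [div_pow, h1]
    field_simp
  induction k generalizing a with
  | zero => exact absurd (by simp) ha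
  | succ k ih =>
    by_cases hk : (2 : ℤ) ^ k ∣ a
    · obtain ⟨b, rfl⟩ := hk
      have hb : ¬ (2 : ℤ) ∣ b := by
        intro hb
        apply ha
        rw [pow_succ]
        exact mul_dvd_mul_left _ hb
      obtain ⟨c, rfl⟩ : ∃ c : ℤ, b = 2 * c + 1 := by
        rcases Int.even_or_odd b with hb' | hb'
        · exact absurd hb'.two_dvd hb
        · exact hb'
      have ht : ((((2 : ℤ) ^ k * (2 * c + 1) : ℤ) : ℂ)) / 2 ^ (k + 1) = 1 / 2 + (c : ℤ) := by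
        push_cast
        rw [pow_succ]
        field_simp
        ring
      rw [ht, e2_per _ (e2_wp_add_one τ (sE τ)), e2_per _ (e2_dwp_add_one τ (sE τ)), e2_per _ (e2_ph_add_one τ)]
      obtain ⟨hv1, hv2⟩ := half_values τ hτ
      have hth : th τ (1 / 2) ≠ 0 := by
        have := th_real_ne τ hτ (1 / 2) (by
          intro m hm
          have h2 : (1 : ℝ) = ((2 * m : ℤ) : ℝ) := by push_cast; linarith
          have h3 : (1 : ℤ) = 2 * m := by exact_mod_cast h2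
          omega)
        simpa using this
      have h1 := hode (1 / 2) hth
      rw [hv1, hv2]
      refine ⟨?_, by simpa using isAlgebraic_zero, by simpa using isAlgebraic_zero⟩
      rw [hv1] at h1
      refine e2_cubic 4 0 (-(4 / 3 * g)) (-(8 / 27 * h)) _ hn4 isAlgebraic_zero hG2.neg hG3.neg (by norm_num) ?_
      linear_combination -h1
    · obtain ⟨hX, -, hF⟩ := ih a hk
      have h2t : 2 * ((a : ℂ) / 2 ^ (k + 1)) = (a : ℂ) / 2 ^ k := by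
        rw [pow_succ]; field_simp
      obtain ⟨t, ht⟩ : ∃ t : ℂ, t = (a : ℂ) / 2 ^ (k + 1) := ⟨_, rfl⟩
      rw [← ht] at h2t ⊢
      rw [← h2t] at hX hF
      have hth2 : th τ (2 * t) ≠ 0 := by
        rw [h2t]
        have := th_real_ne τ hτ ((a : ℝ) / 2 ^ k) (by
          intro m hm
          apply hk
          refine ⟨m, ?_⟩
          have h3 : (a : ℝ) = 2 ^ k * m := by
            rw [← hm]; field_simp
          exact_mod_cast h3)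
        have h4' : (((a : ℝ) / 2 ^ k : ℝ) : ℂ) = (a : ℂ) / 2 ^ k := by push_cast; rfl
        rw [h4'] at this
        exact this
      have hth1 : th τ t ≠ 0 := th_ne_of_double τ hτ t hth2
      have hy0 : deriv (wp τ (sE τ)) t ≠ 0 := wp'_ne τ hτ t hth2
      have h1 := hode t hth1
      have hd2 : deriv (deriv (wp τ (sE τ))) t = 6 * wp τ (sE τ) t ^ 2 - 2 / 3 * Real.pi ^ 4 * MSD.e4 τ :=
        (wp_ode2 τ hτ t hth1).deriv
      have hwd := wp_double τ hτ t hth2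
      have hpd := ph_double τ hτ t hth2
      rw [hd2, hg'] at hwd hpd
      -- normalised values
      obtain ⟨x, hx⟩ : ∃ x, x = wp τ (sE τ) t / (Real.pi * Ω) ^ 2 := ⟨_, rfl⟩
      obtain ⟨y, hy⟩ : ∃ y, y = deriv (wp τ (sE τ)) t / (Real.pi * Ω) ^ 3 := ⟨_, rfl⟩
      obtain ⟨f, hf⟩ : ∃ f, f = ph τ t / (Real.pi * Ω) := ⟨_, rfl⟩
      obtain ⟨X, hX'⟩ : ∃ X, X = wp τ (sE τ) (2 * t) / (Real.pi * Ω) ^ 2 := ⟨_, rfl⟩
      obtain ⟨F, hF'⟩ : ∃ F, F = ph τ (2 * t) / (Real.pi * Ω) := ⟨_, rfl⟩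
      rw [← hX'] at hX
      rw [← hF'] at hF
      have hxe : wp τ (sE τ) t = x * (Real.pi * Ω) ^ 2 := by rw [hx]; field_simp
      have hye : deriv (wp τ (sE τ)) t = y * (Real.pi * Ω) ^ 3 := by rw [hy]; field_simp
      have hfe : ph τ t = f * (Real.pi * Ω) := by rw [hf]; field_simp
      have hXe : wp τ (sE τ) (2 * t) = X * (Real.pi * Ω) ^ 2 := by rw [hX']; field_simp
      have hFe : ph τ (2 * t) = F * (Real.pi * Ω) := by rw [hF']; field_simp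
      have hy0' : y ≠ 0 := by
        intro h0
        apply hy0
        rw [hye, h0, zero_mul]
      rw [← hx, ← hy] at h1
      rw [hXe, hxe, hye] at hwd
      rw [hFe, hfe, hxe, hye] at hpd
      have hP : ((Real.pi : ℂ) * Ω) ≠ 0 := mul_ne_zero hπ hΩ
      have e1 : X = -2 * x + ((6 * x ^ 2 - 2 / 3 * g) / (2 * y)) ^ 2 := by
        have e0 : X * (Real.pi * Ω) ^ 2 = (-2 * x + ((6 * x ^ 2 - 2 / 3 * g) / (2 * y)) ^ 2) * (Real.pi * Ω) ^ 2 := by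
          rw [hwd]
          field_simp
        exact mul_right_cancel₀ (pow_ne_zero 2 hP) e0
      have e2 : F = 2 * f + (6 * x ^ 2 - 2 / 3 * g) / (2 * y) := by
        have e0 : F * (Real.pi * Ω) = (2 * f + (6 * x ^ 2 - 2 / 3 * g) / (2 * y)) * (Real.pi * Ω) := by
          rw [hpd]
          field_simp
        exact mul_right_cancel₀ hP e0
      have e3 : 4 * (X + 2 * x) * y ^ 2 = (6 * x ^ 2 - 2 / 3 * g) ^ 2 := by
        rw [e1]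
        field_simp
        ring
      rw [h1] at e3
      have hxa : IsAlgebraic ℚ x := by
        refine e2_quartic (-4) (16 * X) (-2 * (4 / 3 * g)) (-(4 * X * (4 / 3 * g) + 8 * (8 / 27 * h)))
          (-(4 * X * (8 / 27 * h) + (2 / 3 * g) ^ 2)) x hn4.neg (hn16.mul hX) (hn2.neg.mul hG2)
          (((hn4.mul hX).mul hG2).add (hn8.mul hG3)).neg
          (((hn4.mul hX).mul hG3).add (((hn2.mul hn3.inv).mul h4).pow 2)).neg (by norm_num) ?_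
        linear_combination e3
      have hya : IsAlgebraic ℚ y := by
        refine e2_sqrt _ y ?_ h1
        exact ((hn4.mul (hxa.pow 3)).sub (hG2.mul hxa)).sub hG3
      have hfa : IsAlgebraic ℚ f := by
        have e4 : f = (F - (6 * x ^ 2 - 2 / 3 * g) / (2 * y)) / 2 := by
          rw [e2]; ring
        rw [e4]
        refine IsAlgebraic.mul (hF.sub ?_) hn2.inv
        exact (((hn6.mul (hxa.pow 2)).sub ((hn2.mul hn3.inv).mul h4)).mul (hn2.mul hya).inv)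
      rw [← hx, ← hy, ← hf]
      exact ⟨hxa, hya, hfa⟩

end Pool.Agent.MSP
end

end

section

/-! # A3c: derivatives of the auxiliary function (MP_f58a57_nt, pairs) -/

open Complex Filter Topology

noncomputable section

namespace Pool.Agent.MSP

/-- the coefficients of the auxiliary function -/
def cf (ϑ Ω₁ Ω₂ : ℂ) (P : Pr) (p : P.box → Polynomial ℤ) (ν : ℕ × ℕ × ℕ × ℕ × ℕ) : ℂ :=
  if h : ν ∈ P.box then Polynomial.aeval ϑ (p ⟨ν, h⟩) * ((Real.pi * Ω₂) ^ (ν.2.2.1 + ν.2.2.2.1 + ν.2.2.2.2) /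
    ((Real.pi * Ω₁) ^ (2 * ν.1) * (Real.pi * Ω₂) ^ (2 * ν.2.1))) else 0

/-- the value of the polynomial `Qp P ν` -/
theorem a3c_ev_Qp (τ₁ τ₂ Ω₁ Ω₂ : ℂ) (hΩ₁ : Ω₁ ≠ 0) (hΩ₂ : Ω₂ ≠ 0) (P : Pr) (ν : ℕ × ℕ × ℕ × ℕ × ℕ) (t w : ℂ)
    (c₁ c₂ : Cv) (h1 : c₁.τ = τ₁) (h2 : c₂.τ = τ₂) :
    ev τ₁ τ₂ Ω₁ Ω₂ t w (Qp P ν) =
      (Real.pi * Ω₂) ^ (ν.2.2.1 + ν.2.2.2.1 + ν.2.2.2.2) /
        ((Real.pi * Ω₁) ^ (2 * ν.1) * (Real.pi * Ω₂) ^ (2 * ν.2.1)) *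
      (wp τ₁ (sE τ₁) t ^ ν.1 * wp τ₂ (sE τ₂) w ^ ν.2.1 *
        (xx c₁ c₂ P 0 t w ^ ν.2.2.1 * xx c₁ c₂ P 1 t w ^ ν.2.2.2.1 * xx c₁ c₂ P 2 t w ^ ν.2.2.2.2)) := by
  subst h1 h2
  have hpi : (Real.pi : ℂ) ≠ 0 := by exact_mod_cast Real.pi_ne_zero
  have e0 : Real.pi * Ω₂ * (w - t) - c₂.τ * (-(Ω₂ * ph c₂.τ w / (2 * I))) + c₁.τ * (-(Ω₂ * ph c₁.τ t / (2 * I))) =
      Real.pi * Ω₂ * xx c₁ c₂ P 0 t w := by
    simp only [xx, Matrix.cons_val_zero]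
    field_simp
    ring
  have e1 : (P.b₂ : ℂ) * (-(Ω₂ * ph c₁.τ t / (2 * I))) - P.b₁ * (-(Ω₂ * ph c₂.τ w / (2 * I))) =
      Real.pi * Ω₂ * xx c₁ c₂ P 1 t w := by
    simp only [xx, Matrix.cons_val_one, Matrix.cons_val_zero]
    field_simp
    ring
  have e2 : (P.a₁ : ℂ) * (-(Ω₂ * ph c₁.τ t / (2 * I))) + P.a₂ * (-(Ω₂ * ph c₂.τ w / (2 * I))) =
      Real.pi * Ω₂ * xx c₁ c₂ P 2 t w := by
    simp only [xx, Matrix.cons_val]
    field_simp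
    ring
  have key : ev c₁.τ c₂.τ Ω₁ Ω₂ t w (Qp P ν) =
      (wp c₁.τ (sE c₁.τ) t / (Real.pi * Ω₁) ^ 2) ^ ν.1 * (wp c₂.τ (sE c₂.τ) w / (Real.pi * Ω₂) ^ 2) ^ ν.2.1 *
      ((Real.pi * Ω₂ * xx c₁ c₂ P 0 t w) ^ ν.2.2.1 * (Real.pi * Ω₂ * xx c₁ c₂ P 1 t w) ^ ν.2.2.2.1 *
        (Real.pi * Ω₂ * xx c₁ c₂ P 2 t w) ^ ν.2.2.2.2) := by
    rw [← e0, ← e1, ← e2]
    simp only [ev, Qp, vX, vY, map_mul, map_pow, map_sub, map_add, MvPolynomial.aeval_X, Sum.elim_inl, Sum.elim_inr,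
      vA, vB, Matrix.cons_val, eq_intCast, map_intCast]
  rw [key]
  simp only [mul_pow, div_pow, ← pow_mul, pow_add]
  field_simp

/-- A3c. PROOF. `ev (Qp P ν) = (wp₁/(πΩ₁)²)^a (wp₂/(πΩ₂)²)^b (πΩ₂)^{κ₁+κ₂+κ₃} x₁^κ₁ x₂^κ₂ x₃^κ₃`, since `vB 7 = πΩ₂ xx 0`,
`b₂ Y₁ - b₁ Y₂ = πΩ₂ xx 1`, `a₁ Y₁ + a₂ Y₂ = πΩ₂ xx 2` (`Y₁ = -Ω₂ ph₁/(2I) = πΩ₂ · (-ph₁/(2πI))`). -/
theorem FF_eq (c₁ c₂ : Cv) (hs₁ : c₁.s = sE c₁.τ) (hs₂ : c₂.s = sE c₂.τ) (ϑ Ω₁ Ω₂ : ℂ) (hΩ₁ : Ω₁ ≠ 0) (hΩ₂ : Ω₂ ≠ 0) (P : Pr)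
    (p : P.box → Polynomial ℤ) (t w : ℂ) :
    FF c₁ c₂ P (cf ϑ Ω₁ Ω₂ P p) t w = ∑ ν : P.box, Polynomial.aeval ϑ (p ν) * ev c₁.τ c₂.τ Ω₁ Ω₂ t w (Qp P ν) := by
  rw [FF, ← Finset.sum_coe_sort P.box]
  refine Finset.sum_congr rfl fun ν _ => ?_
  rw [a3c_ev_Qp c₁.τ c₂.τ Ω₁ Ω₂ hΩ₁ hΩ₂ P ν t w c₁ c₂ rfl rfl, cf, dif_pos ν.2, hs₁, hs₂]
  ring

/-- joint analyticity of `ev` -/
theorem a3c_ev_an2 (τ₁ τ₂ Ω₁ Ω₂ : ℂ) (h1 : 0 < τ₁.im) (h2 : 0 < τ₂.im) (t w : ℂ)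
    (ht : N0 τ₁ t ≠ 0) (hw : N0 τ₂ w ≠ 0) (p : PR) : An2 (fun t' w' => ev τ₁ τ₂ Ω₁ Ω₂ t' w' p) t w := by
  have a1 : AnalyticAt ℂ (fun q : ℂ × ℂ => q.1) (t, w) := analyticAt_fst
  have a2 : AnalyticAt ℂ (fun q : ℂ × ℂ => q.2) (t, w) := analyticAt_snd
  have w1 : AnalyticAt ℂ (fun q : ℂ × ℂ => wp τ₁ (sE τ₁) q.1) (t, w) :=
    (wp_analyticAt τ₁ (sE τ₁) h1 t ht).comp_of_eq a1 rfl
  have w2 : AnalyticAt ℂ (fun q : ℂ × ℂ => wp τ₂ (sE τ₂) q.2) (t, w) :=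
    (wp_analyticAt τ₂ (sE τ₂) h2 w hw).comp_of_eq a2 rfl
  have d1 : AnalyticAt ℂ (fun q : ℂ × ℂ => deriv (wp τ₁ (sE τ₁)) q.1) (t, w) :=
    (wp_analyticAt τ₁ (sE τ₁) h1 t ht).deriv.comp_of_eq a1 rfl
  have d2 : AnalyticAt ℂ (fun q : ℂ × ℂ => deriv (wp τ₂ (sE τ₂)) q.2) (t, w) :=
    (wp_analyticAt τ₂ (sE τ₂) h2 w hw).deriv.comp_of_eq a2 rfl
  have p1 : AnalyticAt ℂ (fun q : ℂ × ℂ => ph τ₁ q.1) (t, w) :=
    (ph_analyticAt τ₁ h1 t ht).comp_of_eq a1 rfl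
  have p2 : AnalyticAt ℂ (fun q : ℂ × ℂ => ph τ₂ q.2) (t, w) :=
    (ph_analyticAt τ₂ h2 w hw).comp_of_eq a2 rfl
  have q1 : AnalyticAt ℂ (fun q : ℂ × ℂ => -(Ω₂ * ph τ₁ q.1 / (2 * I))) (t, w) := by
    simp only [div_eq_mul_inv]
    exact ((analyticAt_const.mul p1).mul analyticAt_const).neg
  have q2 : AnalyticAt ℂ (fun q : ℂ × ℂ => -(Ω₂ * ph τ₂ q.2 / (2 * I))) (t, w) := by
    simp only [div_eq_mul_inv]
    exact ((analyticAt_const.mul p2).mul analyticAt_const).neg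
  unfold An2 ev
  refine AnalyticAt.aeval_mvPolynomial (fun i => ?_) p
  rcases i with i | j
  · simp only [Sum.elim_inl, vA]
    fin_cases i
    · simp only [Fin.zero_eta, Matrix.cons_val_zero, div_eq_mul_inv]
      exact w1.mul analyticAt_const
    · simp only [Fin.mk_one, Matrix.cons_val_one, Matrix.cons_val_zero, div_eq_mul_inv]
      exact d1.mul analyticAt_const
    · simp only [Fin.reduceFinMk, Matrix.cons_val, div_eq_mul_inv]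
      exact w2.mul analyticAt_const
    · simp only [Fin.reduceFinMk, Matrix.cons_val, div_eq_mul_inv]
      exact d2.mul analyticAt_const
    all_goals
      simp only [Fin.reduceFinMk, Matrix.cons_val]
      exact analyticAt_const
  · simp only [Sum.elim_inr, vB]
    fin_cases j
    · simp only [Fin.zero_eta, Matrix.cons_val_zero]
      exact analyticAt_const
    · simp only [Fin.mk_one, Matrix.cons_val_one, Matrix.cons_val_zero]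
      exact analyticAt_const
    · simp only [Fin.reduceFinMk, Matrix.cons_val]
      exact analyticAt_const
    · simp only [Fin.reduceFinMk, Matrix.cons_val]
      exact analyticAt_const
    · simp only [Fin.reduceFinMk, Matrix.cons_val]
      exact analyticAt_const
    · simp only [Fin.reduceFinMk, Matrix.cons_val]
      exact q1
    · simp only [Fin.reduceFinMk, Matrix.cons_val]
      exact q2
    · simp only [Fin.reduceFinMk, Matrix.cons_val]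
      exact ((analyticAt_const.mul (a2.sub a1)).sub (analyticAt_const.mul q2)).add (analyticAt_const.mul q1)

/-- `dd` commutes with finite linear combinations -/
theorem a3c_dd_sum {ι : Type*} [Fintype ι] (a : ι → ℂ) (G : ι → ℂ → ℂ → ℂ) (t w : ℂ) (hG : ∀ i, An2 (G i) t w) (r s : ℕ) :
    dd r s (fun t' w' => ∑ i, a i * G i t' w') t w = ∑ i, a i * dd r s (G i) t w := by
  have hin : ∀ᶠ t' in 𝓝 t, iteratedDeriv s (fun w' => ∑ i, a i * G i t' w') w =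
      ∑ i, a i * iteratedDeriv s (G i t') w := by
    have hev : ∀ᶠ t' in 𝓝 t, ∀ i, AnalyticAt ℂ (G i t') w := by
      rw [Filter.eventually_all]
      intro i
      have h0 : ∀ᶠ q in 𝓝 (t, w), AnalyticAt ℂ (fun p : ℂ × ℂ => G i p.1 p.2) q := (hG i).eventually_analyticAt
      have hc : Tendsto (fun t' : ℂ => (t', w)) (𝓝 t) (𝓝 (t, w)) :=
        (Continuous.prodMk_left w).tendsto t
      filter_upwards [hc.eventually h0] with t' ht'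
      have hd : AnalyticAt ℂ (fun w' : ℂ => ((t', w') : ℂ × ℂ)) w := analyticAt_const.prod analyticAt_id
      exact ht'.comp_of_eq hd rfl
    filter_upwards [hev] with t' ht'
    have hc : ∀ i ∈ (Finset.univ : Finset ι), ContDiffAt ℂ s (fun w' => a i * G i t' w') w := fun i _ =>
      (analyticAt_const.mul (ht' i)).contDiffAt
    rw [iteratedDeriv_fun_sum hc]
    refine Finset.sum_congr rfl fun i _ => ?_
    exact iteratedDeriv_const_mul_field (a i) (G i t')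
  have h2 : dd r s (fun t' w' => ∑ i, a i * G i t' w') t w =
      iteratedDeriv r (fun t' => ∑ i, a i * iteratedDeriv s (G i t') w) t := by
    unfold dd
    exact Filter.EventuallyEq.iteratedDeriv_eq r hin
  rw [h2]
  have hc : ∀ i ∈ (Finset.univ : Finset ι), ContDiffAt ℂ r (fun t' => a i * iteratedDeriv s (G i t') w) t := fun i _ => by
    have hd : AnalyticAt ℂ (fun t' : ℂ => ((t', w) : ℂ × ℂ)) t := analyticAt_id.prod analyticAt_const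
    have h3 : AnalyticAt ℂ (fun t' => iteratedDeriv s (G i t') w) t :=
      (an2_iter (G i) t w (hG i) s).comp_of_eq hd rfl
    exact (analyticAt_const.mul h3).contDiffAt
  rw [iteratedDeriv_fun_sum hc]
  refine Finset.sum_congr rfl fun i _ => ?_
  exact iteratedDeriv_const_mul_field (a i) _

/-- A3d. PROOF. A3c, linearity of `dd` for finite sums (of functions analytic at the point) and A3b. -/
theorem dd_FF (c₁ c₂ : Cv) (hs₁ : c₁.s = sE c₁.τ) (hs₂ : c₂.s = sE c₂.τ) (ϑ Ω₁ Ω₂ : ℂ) (hΩ₁ : Ω₁ ≠ 0) (hΩ₂ : Ω₂ ≠ 0) (P : Pr)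
    (p : P.box → Polynomial ℤ) (t w : ℂ) (ht : N0 c₁.τ t ≠ 0) (hw : N0 c₂.τ w ≠ 0) (r s : ℕ) :
    dd r s (FF c₁ c₂ P (cf ϑ Ω₁ Ω₂ P p)) t w = (Real.pi * Ω₁) ^ r * (Real.pi * Ω₂) ^ s *
      ∑ ν : P.box, Polynomial.aeval ϑ (p ν) * ev c₁.τ c₂.τ Ω₁ Ω₂ t w (der₁^[r] (der₂^[s] (Qp P ν))) := by
  have h0 : FF c₁ c₂ P (cf ϑ Ω₁ Ω₂ P p) = fun t' w' => ∑ ν : P.box, Polynomial.aeval ϑ (p ν) *
      (fun t'' w'' => ev c₁.τ c₂.τ Ω₁ Ω₂ t'' w'' (Qp P ν)) t' w' := by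
    funext t' w'
    exact FF_eq c₁ c₂ hs₁ hs₂ ϑ Ω₁ Ω₂ hΩ₁ hΩ₂ P p t' w'
  rw [h0, a3c_dd_sum (fun ν : P.box => Polynomial.aeval ϑ (p ν))
    (fun (ν : P.box) (t' w' : ℂ) => ev c₁.τ c₂.τ Ω₁ Ω₂ t' w' (Qp P ν)) t w
    (fun ν => a3c_ev_an2 c₁.τ c₂.τ Ω₁ Ω₂ c₁.im c₂.im t w ht hw (Qp P ν)) r s, Finset.mul_sum]
  refine Finset.sum_congr rfl fun ν _ => ?_
  rw [dd_ev c₁.τ c₂.τ Ω₁ Ω₂ c₁.im c₂.im hΩ₁ hΩ₂ t w ht hw (Qp P ν) r s]
  ring

end Pool.Agent.MSP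
end

end

section

/-! # F3: special points, dependence (MP_f58a57_nt, pairs) -/

open Complex Filter Topology IntermediateField

noncomputable section

namespace Pool.Agent.MSP

/-- F3a. PROOF. `a z² + b z + c = 0`; `a ≠ 0` as `z` is not real. `(2az + b)² = b² - 4ac`, the imaginary part of `2az + b` is not zero and its square is real, so
`2az + b = ± √(4ac - b²) I`; `d = (4ac - b²).toNat > 0`, `z = -b/(2a) ± (1/(2a)) rt d`. -/
theorem special_KK (z : ℂ) (hz : 0 < z.im) (h : MSD.IsSpecial z) : ∃ d : ℕ, 0 < d ∧ z ∈ MSD.KK d := by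
  obtain ⟨a, b, c, hne, hq⟩ := h
  have him := congrArg Complex.im hq
  have hre := congrArg Complex.re hq
  simp only [pow_two, add_im, mul_im, intCast_re, intCast_im, mul_re, zero_mul, add_zero, zero_im, add_re, sub_zero, zero_re] at him hre
  have h1 : z.im * (2 * a * z.re + b) = 0 := by linarith
  have h2 : 2 * (a : ℝ) * z.re + b = 0 := by
    rcases mul_eq_zero.1 h1 with h | h
    · exact absurd h hz.ne'
    · exact h
  have ha : a ≠ 0 := by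
    rintro rfl
    have hb : (b : ℝ) = 0 := by simpa using h2
    have hc : (c : ℝ) = 0 := by
      rw [hb] at hre
      simpa using hre
    exact hne ⟨rfl, by exact_mod_cast hb, by exact_mod_cast hc⟩
  have haR : (a : ℝ) ≠ 0 := by exact_mod_cast ha
  have hx : z.re = -b / (2 * a) := by
    field_simp
    linarith
  have hy : 4 * (a : ℝ) ^ 2 * z.im ^ 2 = 4 * a * c - b ^ 2 := by
    have hb : (b : ℝ) = -(2 * a * z.re) := by linarith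
    rw [hb] at hre ⊢
    linear_combination (-4 * (a : ℝ)) * hre
  have hpos : (0 : ℝ) < 4 * a * c - b ^ 2 := by
    rw [← hy]
    positivity
  have hposZ : 0 < 4 * a * c - b ^ 2 := by exact_mod_cast hpos
  obtain ⟨d, hd⟩ := Int.eq_ofNat_of_zero_le hposZ.le
  have hdR : ((d : ℕ) : ℝ) = 4 * a * c - b ^ 2 := by exact_mod_cast hd.symm
  have hd0 : 0 < d := by
    have : (0 : ℤ) < (d : ℤ) := by
      rw [← hd]
      exact hposZ
    exact_mod_cast this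
  refine ⟨d, hd0, (-b / (2 * a) : ℚ), (1 / (2 * |a|) : ℚ), ?_⟩
  have habs : (0 : ℝ) < |(a : ℝ)| := abs_pos.2 haR
  have hyv : z.im = 1 / (2 * |(a : ℝ)|) * Real.sqrt d := by
    rw [hdR, ← hy]
    have : 4 * (a : ℝ) ^ 2 * z.im ^ 2 = (2 * |(a : ℝ)| * z.im) ^ 2 := by
      rw [mul_pow, mul_pow, sq_abs]
      ring
    rw [this, Real.sqrt_sq (by positivity)]
    field_simp
  apply Complex.ext
  · rw [hx]
    simp only [MSD.rt, add_re, mul_re, ratCast_re, ratCast_im, ofReal_re, ofReal_im, I_re, I_im]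
    push_cast
    ring
  · rw [MSD.g3e_im, hyv]
    push_cast
    ring

/-- F3b. PROOF. `z_i = u_i + v_i rt d_i`, `Im z_i = v_i √d_i`, so the square of `ν = Im z₁/Im z₂` is `(v₁/v₂)² d₁/d₂`. If `ν = r` is rational, then
`v₁ √d₁ = r v₂ √d₂`, so `z₁ = u₁ + r v₂ rt d₂ ∈ KK d₂` and `MSD.equiv_of_KK` contradicts `hne`. -/
theorem irr_ratio (z₁ z₂ : ℂ) (h1 : 0 < z₁.im) (h2 : 0 < z₂.im) (d₁ d₂ : ℕ) (hd₁ : 0 < d₁) (hd₂ : 0 < d₂) (hK₁ : z₁ ∈ MSD.KK d₁)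
    (hK₂ : z₂ ∈ MSD.KK d₂) (hne : ¬ MSD.GEquiv z₁ z₂) :
    Irrational (z₁.im / z₂.im) ∧ ∃ r : ℚ, (z₁.im / z₂.im) ^ 2 = r := by
  have hK₂' := hK₂
  obtain ⟨u₁, v₁, e₁⟩ := hK₁
  obtain ⟨u₂, v₂, e₂⟩ := hK₂
  have i₁ : z₁.im = v₁ * Real.sqrt d₁ := by rw [e₁, MSD.g3e_im]
  have i₂ : z₂.im = v₂ * Real.sqrt d₂ := by rw [e₂, MSD.g3e_im]
  have r₁ : z₁.re = u₁ := by
    rw [e₁]
    simp [MSD.rt]
  constructor
  · rintro ⟨r, hr⟩
    apply hne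
    refine MSD.equiv_of_KK d₂ z₁ z₂ h1 h2 ⟨u₁, r * v₂, ?_⟩ hK₂'
    have hz : z₁.im = r * z₂.im := by
      rw [hr]
      field_simp
    apply Complex.ext
    · rw [r₁]
      simp [MSD.rt]
    · rw [MSD.g3e_im, hz, i₂]
      push_cast
      ring
  · refine ⟨v₁ ^ 2 * d₁ / (v₂ ^ 2 * d₂), ?_⟩
    rw [i₁, i₂, div_pow, mul_pow, mul_pow, Real.sq_sqrt (Nat.cast_nonneg _), Real.sq_sqrt (Nat.cast_nonneg _)]
    push_cast
    ring

theorem f3_indep (a b : ℂ) (ha : Transcendental ℚ a) (hb : Transcendental ℚ⟮a⟯ b) : AlgebraicIndependent ℚ ![a, b] := by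
  rw [AlgebraicIndependent.iff_transcendental_adjoin_image (1 : Fin 2)]
  constructor
  · have : Subsingleton {j : Fin 2 // j ≠ 1} := by
      constructor
      rintro ⟨i, hi⟩ ⟨j, hj⟩
      apply Subtype.ext
      show i = j
      omega
    rw [algebraicIndependent_singleton_iff (⟨0, by simp⟩ : {j : Fin 2 // j ≠ 1})]
    simpa using ha
  · have himg : (![a, b] '' {(1 : Fin 2)}ᶜ) = {a} := by
      ext x
      simp only [Set.mem_image, Set.mem_compl_iff, Set.mem_singleton_iff]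
      constructor
      · rintro ⟨i, hi, rfl⟩
        fin_cases i
        · rfl
        · exact absurd rfl hi
      · rintro rfl
        exact ⟨0, by simp, rfl⟩
    rw [himg]
    intro hal
    apply hb
    show IsAlgebraic _ b
    have h2 : IsAlgebraic (Algebra.adjoin ℚ {a}) b := by simpa using hal
    exact IntermediateField.isAlgebraic_adjoin_iff.mpr h2

/-- F3c. PROOF. If `a` is transcendental, then `b` is algebraic over `ℚ(a)` (otherwise `a, b` would be algebraically independent), `ϑ = a`. If `a` is algebraic and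
`b` transcendental, `ϑ = b`. If both are algebraic, take any transcendental number (`transcendental_liouvilleNumber`). -/
theorem exists_theta (a b : ℂ) (h : ¬ AlgebraicIndependent ℚ ![a, b]) :
    ∃ ϑ : ℂ, Transcendental ℚ ϑ ∧ IsAlgebraic ℚ⟮ϑ⟯ a ∧ IsAlgebraic ℚ⟮ϑ⟯ b := by
  by_cases ha : Transcendental ℚ a
  · refine ⟨a, ha, ?_, ?_⟩
    · exact isAlgebraic_algebraMap (⟨a, mem_adjoin_simple_self ℚ a⟩ : ℚ⟮a⟯)
    · by_contra hb
      exact h (f3_indep a b ha hb)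
  · have ha' : IsAlgebraic ℚ a := by
      by_contra h'
      exact ha h'
    by_cases hb : Transcendental ℚ b
    · refine ⟨b, hb, ha'.tower_top _, ?_⟩
      exact isAlgebraic_algebraMap (⟨b, mem_adjoin_simple_self ℚ b⟩ : ℚ⟮b⟯)
    · have hb' : IsAlgebraic ℚ b := by
        by_contra h'
        exact hb h'
      have hL : Transcendental ℤ (liouvilleNumber ((2 : ℕ) : ℝ)) := transcendental_liouvilleNumber le_rfl
      have hL2 : Transcendental ℚ (liouvilleNumber ((2 : ℕ) : ℝ)) := by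
        intro h'
        exact hL ((IsFractionRing.isAlgebraic_iff ℤ ℚ ℝ).mpr h')
      have hL3 : Transcendental ℚ ((liouvilleNumber ((2 : ℕ) : ℝ) : ℝ) : ℂ) := by
        intro h'
        apply hL2
        exact (isAlgebraic_algebraMap_iff (algebraMap ℝ ℂ).injective).mp h'
      exact ⟨_, hL3, ha'.tower_top _, hb'.tower_top _⟩

end Pool.Agent.MSP
end

end

section

/-! # F1b: the values at dyadic points (MP_f58a57_nt, pairs) -/

open Complex Filter Topology IntermediateField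

noncomputable section

namespace Pool.Agent.MSP

theorem f1b_rat (q : ℚ) : IsAlgebraic ℚ (q : ℂ) := by
  have := isAlgebraic_algebraMap (R := ℚ) (A := ℂ) q
  simpa using this

theorem f1b_I : IsAlgebraic ℚ (I : ℂ) := by
  apply IsAlgebraic.of_pow (n := 2) (by norm_num)
  rw [Complex.I_sq]
  have := f1b_rat (-1)
  simpa using this

theorem f1b_conj (z : ℂ) (h : IsAlgebraic ℚ z) : IsAlgebraic ℚ ((starRingEnd ℂ) z) := by
  have h1 := h.algHom (Complex.conjAe.toAlgHom.restrictScalars ℚ)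
  exact h1

theorem f1b_im (z : ℂ) (h : IsAlgebraic ℚ z) : IsAlgebraic ℚ ((z.im : ℂ)) := by
  have h1 : (z.im : ℂ) = (z - (starRingEnd ℂ) z) * (((1 / 2 : ℚ) : ℂ) * (-I)) := by
    rw [Complex.sub_conj]
    push_cast
    linear_combination (z.im : ℂ) * Complex.I_sq
  rw [h1]
  exact (h.sub (f1b_conj z h)).mul ((f1b_rat _).mul f1b_I.neg)

/-- F1d. PROOF. `dyadic_alg` (E2) for `P_i, P_i'`, `CMD.a4`, `CMD.alg`. -/
theorem vA_alg (τ₁ τ₂ Ω₁ Ω₂ : ℂ) (h₁ : CMD τ₁ Ω₁) (h₂ : CMD τ₂ Ω₂) (k : ℕ) (a : ℤ) (ha : ¬ ((2 : ℤ) ^ k ∣ a)) (i : Fin 8) :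
    IsAlgebraic ℚ (vA τ₁ τ₂ Ω₁ Ω₂ ((a : ℂ) / 2 ^ k) ((a : ℂ) / 2 ^ k) i) := by
  have A1 := dyadic_alg τ₁ Ω₁ h₁.im h₁.ne h₁.a4 h₁.a6 k a ha
  have A2 := dyadic_alg τ₂ Ω₂ h₂.im h₂.ne h₂.a4 h₂.a6 k a ha
  have q : IsAlgebraic ℚ ((2 / 3 : ℂ)) := by
    have := f1b_rat (2 / 3)
    push_cast at this
    exact this
  unfold vA
  fin_cases i
  · exact A1.1
  · exact A1.2.1
  · exact A2.1
  · exact A2.2.1
  · exact q.mul h₁.a4
  · exact q.mul h₂.a4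
  · exact h₁.alg
  · exact h₂.alg

/-- F1e. PROOF. Let `θ_i = πΩ_i²` (algebraic over `ℚ(ϑ)`; `≠ 0`). `κ₂ = θ₂/(2I)`; `κ₁² = -θ₁θ₂/4`, so `κ₁` is algebraic over `ℚ(ϑ)`; `c² = θ₂/θ₁`.
`e2 τ/Ω² = e2s τ/Ω² + 3/(y θ)`, `y = Im τ` algebraic (`τ` and its conjugate are). `Y₁ = -Ω₂ ph τ₁ t/(2I) = -κ₁ · (ph τ₁ t/(πΩ₁))`, `Y₂ = -κ₂ (ph τ₂ t/(πΩ₂))`, and
`ph/(πΩ)` is algebraic over `ℚ` (`dyadic_alg`); `Y₃ = -τ₂Y₂ + τ₁Y₁` (`w - t = 0`). Numbers algebraic over `ℚ` are algebraic over `ℚ(ϑ)`. -/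
theorem vB_alg (τ₁ τ₂ Ω₁ Ω₂ ϑ : ℂ) (h₁ : CMD τ₁ Ω₁) (h₂ : CMD τ₂ Ω₂) (hθ₁ : IsAlgebraic ℚ⟮ϑ⟯ (Real.pi * Ω₁ ^ 2))
    (hθ₂ : IsAlgebraic ℚ⟮ϑ⟯ (Real.pi * Ω₂ ^ 2)) (k : ℕ) (a : ℤ) (ha : ¬ ((2 : ℤ) ^ k ∣ a)) (j : Fin 8) :
    IsAlgebraic ℚ⟮ϑ⟯ (vB τ₁ τ₂ Ω₁ Ω₂ ((a : ℂ) / 2 ^ k) ((a : ℂ) / 2 ^ k) j) := by
  have up : ∀ {x : ℂ}, IsAlgebraic ℚ x → IsAlgebraic ℚ⟮ϑ⟯ x := fun h => h.tower_top _
  have A1 := dyadic_alg τ₁ Ω₁ h₁.im h₁.ne h₁.a4 h₁.a6 k a ha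
  have A2 := dyadic_alg τ₂ Ω₂ h₂.im h₂.ne h₂.a4 h₂.a6 k a ha
  have hI : IsAlgebraic ℚ⟮ϑ⟯ (I : ℂ) := up f1b_I
  have h2 : IsAlgebraic ℚ⟮ϑ⟯ ((2 : ℂ)) := by
    have := up (f1b_rat 2)
    push_cast at this
    exact this
  have h3 : IsAlgebraic ℚ⟮ϑ⟯ ((3 : ℂ)) := by
    have := up (f1b_rat 3)
    push_cast at this
    exact this
  have hpi : (Real.pi : ℂ) ≠ 0 := by exact_mod_cast Real.pi_ne_zero
  have n1 := h₁.ne
  have n2 := h₂.ne
  have k2 : IsAlgebraic ℚ⟮ϑ⟯ (Real.pi * Ω₂ ^ 2 / (2 * I)) := hθ₂.mul ((h2.mul hI).inv)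
  have k1 : IsAlgebraic ℚ⟮ϑ⟯ (Real.pi * Ω₁ * Ω₂ / (2 * I)) := by
    apply IsAlgebraic.of_pow (n := 2) (by norm_num)
    have e : (Real.pi * Ω₁ * Ω₂ / (2 * I)) ^ 2 = (Real.pi * Ω₁ ^ 2) * (Real.pi * Ω₂ ^ 2) * ((2 * I) * (2 * I))⁻¹ := by
      have : (I : ℂ) ≠ 0 := I_ne_zero
      field_simp
    rw [e]
    exact (hθ₁.mul hθ₂).mul ((h2.mul hI).mul (h2.mul hI)).inv
  have hc : IsAlgebraic ℚ⟮ϑ⟯ (Ω₂ / Ω₁) := by
    apply IsAlgebraic.of_pow (n := 2) (by norm_num)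
    have e : (Ω₂ / Ω₁) ^ 2 = (Real.pi * Ω₂ ^ 2) * (Real.pi * Ω₁ ^ 2)⁻¹ := by
      field_simp
    rw [e]
    exact hθ₂.mul hθ₁.inv
  have hE : ∀ τ Ω : ℂ, CMD τ Ω → IsAlgebraic ℚ⟮ϑ⟯ (Real.pi * Ω ^ 2) →
      IsAlgebraic ℚ⟮ϑ⟯ (MSD.e2 τ / (3 * Ω ^ 2)) := by
    intro τ Ω h hθ
    have n0 := h.ne
    have hy : (τ.im : ℂ) ≠ 0 := by exact_mod_cast h.im.ne'
    have e : MSD.e2 τ / (3 * Ω ^ 2) = (MSD.e2s τ / Ω ^ 2) * (3 : ℂ)⁻¹ + ((τ.im : ℂ) * (Real.pi * Ω ^ 2))⁻¹ := by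
      unfold MSD.e2s
      field_simp
      ring
    rw [e]
    exact ((up h.a2).mul h3.inv).add ((up (f1b_im τ h.alg)).mul hθ).inv
  have Y1 : IsAlgebraic ℚ⟮ϑ⟯ (-(Ω₂ * ph τ₁ ((a : ℂ) / 2 ^ k) / (2 * I))) := by
    have e : -(Ω₂ * ph τ₁ ((a : ℂ) / 2 ^ k) / (2 * I)) =
        -((Real.pi * Ω₁ * Ω₂ / (2 * I)) * (ph τ₁ ((a : ℂ) / 2 ^ k) / (Real.pi * Ω₁))) := by
      have : (I : ℂ) ≠ 0 := I_ne_zero
      field_simp
    rw [e]
    exact (k1.mul (up A1.2.2)).neg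
  have Y2 : IsAlgebraic ℚ⟮ϑ⟯ (-(Ω₂ * ph τ₂ ((a : ℂ) / 2 ^ k) / (2 * I))) := by
    have e : -(Ω₂ * ph τ₂ ((a : ℂ) / 2 ^ k) / (2 * I)) =
        -((Real.pi * Ω₂ ^ 2 / (2 * I)) * (ph τ₂ ((a : ℂ) / 2 ^ k) / (Real.pi * Ω₂))) := by
      have : (I : ℂ) ≠ 0 := I_ne_zero
      field_simp
    rw [e]
    exact (k2.mul (up A2.2.2)).neg
  unfold vB
  fin_cases j
  · exact k1
  · exact k1.mul (hE τ₁ Ω₁ h₁ hθ₁)
  · exact k2
  · exact k2.mul (hE τ₂ Ω₂ h₂ hθ₂)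
  · exact hc
  · exact Y1
  · exact Y2
  · have e : (Real.pi * Ω₂ * (((a : ℂ) / 2 ^ k) - ((a : ℂ) / 2 ^ k)) : ℂ) = 0 := by
      rw [sub_self, mul_zero]
    have h0 : IsAlgebraic ℚ⟮ϑ⟯ (0 - τ₂ * (-(Ω₂ * ph τ₂ ((a : ℂ) / 2 ^ k) / (2 * I))) +
        τ₁ * (-(Ω₂ * ph τ₁ ((a : ℂ) / 2 ^ k) / (2 * I)))) :=
      (isAlgebraic_zero.sub ((up h₂.alg).mul Y2)).add ((up h₁.alg).mul Y1)
    rw [← e] at h0
    exact h0

end Pool.Agent.MSP
end

end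

section

/-! # F2: Siegel step (MP_f58a57_nt, pairs) -/

open Complex Filter Topology IntermediateField Polynomial

noncomputable section

namespace Pool.Agent.MSP

/-- all the hypotheses on the two curves -/
structure Hyp (c₁ c₂ : Cv) (Ω₁ Ω₂ ϑ : ℂ) : Prop where
  s₁ : c₁.s = sE c₁.τ
  s₂ : c₂.s = sE c₂.τ
  h₁ : CMD c₁.τ Ω₁
  h₂ : CMD c₂.τ Ω₂
  tr : Transcendental ℚ ϑ
  a₁ : IsAlgebraic ℚ⟮ϑ⟯ (Real.pi * Ω₁ ^ 2)
  a₂ : IsAlgebraic ℚ⟮ϑ⟯ (Real.pi * Ω₂ ^ 2)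

theorem f2_half_ne (τ : ℂ) (hτ : 0 < τ.im) : N0 τ (1 / 2) ≠ 0 := by
  have h := th_real_ne τ hτ (1 / 2 : ℝ) (by
    intro m hm
    have h2 : (2 * m : ℝ) = 1 := by rw [← hm]; norm_num
    have h3 : 2 * m = 1 := by exact_mod_cast h2
    omega)
  have h4 : (((1 / 2 : ℝ) : ℝ) : ℂ) = 1 / 2 := by push_cast; rfl
  rw [h4] at h
  exact h

theorem f2_card (P : Pr) : (Fintype.card P.box : ℝ) = ((P.L : ℝ) + 1) ^ 2 * (((P.d₁ : ℝ) + 1) * (P.d₂ + 1) * (P.d₃ + 1)) := by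
  rw [Fintype.card_coe]
  unfold Pr.box
  simp only [Finset.card_product, Finset.card_range]
  push_cast
  ring

theorem f2_exp_bound (C₀ T : ℝ) (hC : 1 ≤ C₀) (hT : 1 ≤ T) (n : ℕ) (hn : (n : ℝ) = T) :
    (2 * T) ^ 5 * C₀ ^ (8 * n) * ((56 * T) ^ (2 * n) * Real.exp T) ≤ Real.exp (24 * C₀ * T * (1 + Real.log T)) := by
  have hT0 : 0 < T := by linarith
  have hlog : 0 ≤ Real.log T := Real.log_nonneg hT
  have he : (2.7 : ℝ) < Real.exp 1 := by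
    have := Real.exp_one_gt_d9
    linarith
  have h1 : 2 * T ≤ Real.exp (1 + Real.log T) := by
    rw [Real.exp_add, Real.exp_log hT0]
    nlinarith
  have h5 : (56 : ℝ) ≤ Real.exp 5 := by
    have h : Real.exp 5 = (Real.exp 1) ^ 5 := by
      rw [← Real.exp_nat_mul]; norm_num
    rw [h]
    calc (56 : ℝ) ≤ (2.7 : ℝ) ^ 5 := by norm_num
      _ ≤ (Real.exp 1) ^ 5 := pow_le_pow_left₀ (by norm_num) he.le 5
  have h2 : 56 * T ≤ Real.exp (5 + Real.log T) := by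
    rw [Real.exp_add, Real.exp_log hT0]
    nlinarith
  have h3 : C₀ ≤ Real.exp C₀ := by
    have := Real.add_one_le_exp C₀
    linarith
  have e1 : (2 * T) ^ 5 ≤ Real.exp (5 * (1 + Real.log T)) := by
    have := pow_le_pow_left₀ (by positivity) h1 5
    rw [← Real.exp_nat_mul] at this
    simpa using this
  have e2 : C₀ ^ (8 * n) ≤ Real.exp (8 * T * C₀) := by
    have := pow_le_pow_left₀ (by positivity) h3 (8 * n)
    rw [← Real.exp_nat_mul] at this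
    push_cast at this
    rw [hn] at this
    exact this
  have e3 : (56 * T) ^ (2 * n) ≤ Real.exp (2 * T * (5 + Real.log T)) := by
    have := pow_le_pow_left₀ (by positivity) h2 (2 * n)
    rw [← Real.exp_nat_mul] at this
    push_cast at this
    rw [hn] at this
    exact this
  calc (2 * T) ^ 5 * C₀ ^ (8 * n) * ((56 * T) ^ (2 * n) * Real.exp T)
      ≤ Real.exp (5 * (1 + Real.log T)) * Real.exp (8 * T * C₀) *
        (Real.exp (2 * T * (5 + Real.log T)) * Real.exp T) := by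
        gcongr
    _ = Real.exp (5 * (1 + Real.log T) + 8 * T * C₀ + (2 * T * (5 + Real.log T) + T)) := by
        rw [← Real.exp_add, ← Real.exp_add, ← Real.exp_add]
    _ ≤ Real.exp (24 * C₀ * T * (1 + Real.log T)) := by
        apply Real.exp_le_exp.mpr
        have i1 : 5 * (1 + Real.log T) ≤ 5 * (C₀ * T) * (1 + Real.log T) := by
          have hCT : 1 ≤ C₀ * T := by nlinarith
          have : 0 ≤ (C₀ * T - 1) * (1 + Real.log T) := mul_nonneg (by linarith) (by linarith)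
          nlinarith
        have i2 : 8 * T * C₀ ≤ 8 * (C₀ * T) * (1 + Real.log T) := by
          have : 0 ≤ (C₀ * T) * Real.log T := by positivity
          nlinarith
        have i3 : 2 * T * (5 + Real.log T) + T ≤ 11 * (C₀ * T) * (1 + Real.log T) := by
          have j1 : T ≤ C₀ * T := by nlinarith
          have j2 : 2 * T * (5 + Real.log T) + T ≤ 11 * T * (1 + Real.log T) := by
            have : 0 ≤ T * Real.log T := by positivity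
            nlinarith
          have j3 : 0 ≤ (C₀ * T - T) * (1 + Real.log T) := mul_nonneg (by linarith) (by linarith)
          nlinarith
        nlinarith

/-- F2a. PROOF. `siegel` with `x = vA (1/2)`, `y = vB (1/2)` (algebraic by F1d, F1e with `k = 1, a = 1`), `ι = P.box`, `κ = Fin T × Fin T`,
`Ξ (r,s) ν = der₁^[r] (der₂^[s] (Qp P ν))`, which is `Bd (2L + 4T) l H`, `H = (8 (2L + 4T + l))^(2T) A^l ≤ (56 T)^(2T) e^L` (`Bd.Qp`, `Bd.iter` with `r + s ≤ 2T`; `l ≤ L ≤ T`).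
`card κ = T²`, `card ι = (L+1)²(d₁+1)(d₂+1)(d₃+1) ≤ (2T)^5`. `len ≤ (2T)^5 C^(2L+4T+l+1) H ≤ exp(C' T (1 + log T))`. By `dd_FF` (`N0 τ (1/2) ≠ 0`: `th_real_ne`) the derivatives of
`FF` of order `(r,s)`, `r, s < T`, vanish at `(1/2, 1/2)`, and by `GG_zero_of_FF` those of `GG` with `r + s < T`. -/
theorem siegel_step (c₁ c₂ : Cv) (Ω₁ Ω₂ ϑ : ℂ) (h : Hyp c₁ c₂ Ω₁ Ω₂ ϑ) : ∃ C : ℝ, 1 ≤ C ∧ ∀ (P : Pr), P.Good → ∀ T : ℕ, P.L ≤ T →
    C * (T : ℝ) ^ 2 ≤ ((P.L : ℝ) + 1) ^ 2 * (((P.d₁ : ℝ) + 1) * (P.d₂ + 1) * (P.d₃ + 1)) →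
    ∃ p : P.box → Polynomial ℤ, p ≠ 0 ∧ (∀ ν, ((p ν).natDegree : ℝ) ≤ C * P.l) ∧
      (∀ ν, len (p ν) ≤ Real.exp (C * T * (1 + Real.log T))) ∧
      ∀ r s, r + s < T → dd r s (GG c₁ c₂ P (cf ϑ Ω₁ Ω₂ P p)) (1 / 2) (1 / 2) = 0 := by
  have hA : ∀ i, IsAlgebraic ℚ (vA c₁.τ c₂.τ Ω₁ Ω₂ (1 / 2) (1 / 2) i) := by
    intro i
    have := vA_alg c₁.τ c₂.τ Ω₁ Ω₂ h.h₁ h.h₂ 1 1 (by norm_num) i
    simpa using this
  have hB : ∀ j, IsAlgebraic ℚ⟮ϑ⟯ (vB c₁.τ c₂.τ Ω₁ Ω₂ (1 / 2) (1 / 2) j) := by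
    intro j
    have := vB_alg c₁.τ c₂.τ Ω₁ Ω₂ ϑ h.h₁ h.h₂ h.a₁ h.a₂ 1 1 (by norm_num) j
    simpa using this
  obtain ⟨C₀, hC₀, hS⟩ := siegel ϑ h.tr (vA c₁.τ c₂.τ Ω₁ Ω₂ (1 / 2) (1 / 2))
    (vB c₁.τ c₂.τ Ω₁ Ω₂ (1 / 2) (1 / 2)) hA hB
  refine ⟨24 * C₀, by linarith, ?_⟩
  intro P hP T hLT hbig
  have hL1 : (1 : ℝ) ≤ P.L := by exact_mod_cast hP.hL
  have hLT' : (P.L : ℝ) ≤ T := by exact_mod_cast hLT
  have hlL : (P.l : ℝ) ≤ P.L := by exact_mod_cast hP.hl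
  have hl0 : (0 : ℝ) ≤ P.l := by positivity
  have hT1 : (1 : ℝ) ≤ T := by linarith
  have hA2 : (1 : ℝ) ≤ P.A := by
    unfold Pr.A
    have := abs_nonneg (P.a₁ : ℝ)
    have := abs_nonneg (P.a₂ : ℝ)
    have := abs_nonneg (P.b₁ : ℝ)
    have := abs_nonneg (P.b₂ : ℝ)
    linarith
  set B : ℝ := 8 * (((2 * P.L : ℕ) : ℝ) + 2 * ((2 * T : ℕ) : ℝ) + (P.l : ℝ)) with hBdef
  have hB1 : 1 ≤ B := by
    rw [hBdef]; push_cast; linarith
  have hB56 : B ≤ 56 * T := by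
    rw [hBdef]; push_cast; linarith
  have hAl : 1 ≤ P.A ^ P.l := one_le_pow₀ hA2
  have hH1 : 1 ≤ B ^ (2 * T) * P.A ^ P.l := by
    have h1 : 1 ≤ B ^ (2 * T) := one_le_pow₀ hB1
    nlinarith
  obtain ⟨p, hp0, hpd, hpl, hpz⟩ := hS P.box (Fin T × Fin T) (2 * P.L + 2 * (2 * T)) P.l
    (B ^ (2 * T) * P.A ^ P.l) (fun c ν => MSP.der₁^[(c.1 : ℕ)] (MSP.der₂^[(c.2 : ℕ)] (Qp P ν))) hH1
    (by
      intro c ν
      have hc : (c.1 : ℕ) + (c.2 : ℕ) ≤ 2 * T := by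
        have := c.1.isLt
        have := c.2.isLt
        omega
      have hb := Bd.iter (Bd.Qp P ν ν.2) (c.1 : ℕ) (c.2 : ℕ) (2 * T) hc
      refine hb.mono le_rfl le_rfl ?_
      apply mul_le_mul_of_nonneg_right _ (by positivity)
      exact pow_le_pow_right₀ hB1 hc)
    (by
      have : (0 : ℝ) < Fintype.card P.box := by
        rw [f2_card]; positivity
      exact_mod_cast this)
    (by
      rw [f2_card]
      simp only [Fintype.card_prod, Fintype.card_fin]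
      push_cast
      have hTT : 0 ≤ (T : ℝ) ^ 2 := by positivity
      have : C₀ * ((T : ℝ) * T) ≤ 24 * C₀ * (T : ℝ) ^ 2 := by nlinarith
      linarith)
  refine ⟨p, hp0, ?_, ?_, ?_⟩
  · intro ν
    have := hpd ν
    nlinarith
  · intro ν
    refine (hpl ν).trans ?_
    have hd1 : (P.d₁ : ℝ) ≤ P.l := by
      have : P.d₁ ≤ P.l := by unfold Pr.l; omega
      exact_mod_cast this
    have hd2 : (P.d₂ : ℝ) ≤ P.l := by
      have : P.d₂ ≤ P.l := by unfold Pr.l; omega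
      exact_mod_cast this
    have hd3 : (P.d₃ : ℝ) ≤ P.l := by
      have : P.d₃ ≤ P.l := by unfold Pr.l; omega
      exact_mod_cast this
    have hcard : (Fintype.card P.box : ℝ) ≤ (2 * (T : ℝ)) ^ 5 := by
      rw [f2_card]
      have h1 : (P.L : ℝ) + 1 ≤ 2 * (T : ℝ) := by linarith
      have h2 : (P.d₁ : ℝ) + 1 ≤ 2 * (T : ℝ) := by linarith
      have h3 : (P.d₂ : ℝ) + 1 ≤ 2 * (T : ℝ) := by linarith
      have h4 : (P.d₃ : ℝ) + 1 ≤ 2 * (T : ℝ) := by linarith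
      calc ((P.L : ℝ) + 1) ^ 2 * (((P.d₁ : ℝ) + 1) * (P.d₂ + 1) * (P.d₃ + 1))
          ≤ (2 * (T : ℝ)) ^ 2 * ((2 * (T : ℝ)) * (2 * (T : ℝ)) * (2 * (T : ℝ))) := by gcongr
        _ = (2 * (T : ℝ)) ^ 5 := by ring
    have hCp : C₀ ^ (2 * P.L + 2 * (2 * T) + P.l + 1) ≤ C₀ ^ (8 * T) := by
      apply pow_le_pow_right₀ hC₀
      have := hP.hl
      have := hP.hL
      omega
    have hHp : B ^ (2 * T) * P.A ^ P.l ≤ (56 * (T : ℝ)) ^ (2 * T) * Real.exp T := by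
      have h1 : B ^ (2 * T) ≤ (56 * (T : ℝ)) ^ (2 * T) := pow_le_pow_left₀ (by linarith) hB56 _
      have h2 : P.A ^ P.l ≤ Real.exp T := hP.hA.trans (Real.exp_le_exp.mpr hLT')
      exact mul_le_mul h1 h2 (by positivity) (by positivity)
    calc (Fintype.card P.box : ℝ) * C₀ ^ (2 * P.L + 2 * (2 * T) + P.l + 1) * (B ^ (2 * T) * P.A ^ P.l)
        ≤ (2 * (T : ℝ)) ^ 5 * C₀ ^ (8 * T) * ((56 * (T : ℝ)) ^ (2 * T) * Real.exp T) := by
          have h0 : 0 ≤ B ^ (2 * T) * P.A ^ P.l := by linarith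
          have h00 : 0 ≤ C₀ ^ (2 * P.L + 2 * (2 * T) + P.l + 1) := by positivity
          have h000 : 0 ≤ C₀ ^ (8 * T) := by positivity
          exact mul_le_mul (mul_le_mul hcard hCp h00 (by positivity)) hHp h0 (by positivity)
      _ ≤ Real.exp (24 * C₀ * T * (1 + Real.log T)) := f2_exp_bound C₀ T hC₀ hT1 T rfl
  · intro r s hrs
    have hn1 := f2_half_ne c₁.τ c₁.im
    have hn2 := f2_half_ne c₂.τ c₂.im
    refine GG_zero_of_FF c₁ c₂ P (cf ϑ Ω₁ Ω₂ P p) (1 / 2) (1 / 2) hn1 hn2 T ?_ r s hrs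
    intro i j hij
    rw [dd_FF c₁ c₂ h.s₁ h.s₂ ϑ Ω₁ Ω₂ h.h₁.ne h.h₂.ne P p (1 / 2) (1 / 2) hn1 hn2 i j]
    have hz := hpz (⟨i, by omega⟩, ⟨j, by omega⟩)
    simp only [ev]
    rw [hz, mul_zero]

end Pool.Agent.MSP
end

end

section

/-! # F2b: norm step (MP_f58a57_nt, pairs) -/

open Complex Filter Topology IntermediateField Polynomial

noncomputable section

namespace Pool.Agent.MSP

private lemma f2b_r1 {a b T l : ℝ} (h1 : a ≤ T * (4 + l)) (h2 : b ≤ T) (h3 : 0 ≤ T * l) :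
    a + b ≤ 5 * (T * (1 + l)) := by
  linarith

private lemma f2b_r2 {a b h T l L q : ℝ} (h1 : a ≤ 5 * (1 + l)) (h2 : b ≤ 5 * (T * (1 + l)))
    (h3 : 1 + l ≤ T * (1 + l)) (h4 : T ≤ T * (1 + l)) (h5 : L ≤ T) (h6 : q ≤ L) (h7 : 1 ≤ T) :
    a + b + h + (2 * L + 2 * T + q + 1) ≤ h + 16 * (T * (1 + l)) := by
  linarith

private lemma f2b_r3 {C K h W : ℝ} (h1 : 0 ≤ C * h) (h2 : 0 ≤ K * (h + W)) :
    C * (h + 16 * W) ≤ (16 * C + K) * (h + W) := by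
  linarith

private lemma f2b_r4 {r T x : ℝ} (h1 : 0 ≤ r) (h2 : r ≤ T) : -(r * x) ≤ T * |x| := by
  have h3 := mul_le_mul_of_nonneg_left (neg_abs_le x) h1
  have h4 := mul_le_mul_of_nonneg_right h2 (abs_nonneg x)
  linarith

private lemma f2b_r5 {h d T W : ℝ} (h1 : 0 ≤ h) (h2 : 0 ≤ d) (h3 : T ≤ W) : T ≤ h + d + W := by
  linarith

private lemma f2b_r6 {C h W d : ℝ} (h1 : 0 ≤ C * h) (h2 : 0 ≤ C * d) :
    C * (h + 16 * W + d) ≤ 16 * C * (h + d + W) := by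
  linarith

private lemma f2b_r7 {d x u v L : ℝ} (h1 : 0 ≤ x * L) (h2 : 0 ≤ u * d) (h3 : 0 ≤ v * d)
    (h4 : 0 ≤ L) (h5 : 0 ≤ d) :
    d * x + (2 * u + 3 * v) * L ≤ (1 + x + 2 * u + 3 * v) * (d + L) := by
  linarith

theorem f2b_aeval_ne {ϑ : ℂ} (hϑ : Transcendental ℚ ϑ) {q : Polynomial ℤ} (hq : q ≠ 0) :
    aeval ϑ q ≠ 0 := by
  intro h
  refine hϑ ⟨q.map (algebraMap ℤ ℚ), ?_, ?_⟩
  · rwa [Ne, Polynomial.map_eq_zero_iff (RingHom.injective_int (algebraMap ℤ ℚ))]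
  · rw [Polynomial.aeval_map_algebraMap]
    exact h

theorem f2b_pi_ne {Ω : ℂ} (hΩ : Ω ≠ 0) : (Real.pi : ℂ) * Ω ≠ 0 :=
  mul_ne_zero (by exact_mod_cast Real.pi_ne_zero) hΩ

/-- the point `a/2^k` is not a zero of the theta function -/
theorem f2b_N0_ne (c : Cv) (k : ℕ) (a : ℤ) (ha : ¬ ((2 : ℤ) ^ k ∣ a)) :
    N0 c.τ ((a : ℂ) / 2 ^ k) ≠ 0 := by
  have h := th_real_ne c.τ c.im ((a : ℝ) / 2 ^ k) (fun m hm => by
    apply ha
    have h2 : (0 : ℝ) < 2 ^ k := by positivity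
    rw [div_eq_iff h2.ne'] at hm
    have h3 : a = m * 2 ^ k := by exact_mod_cast hm
    exact ⟨m, by rw [h3]; ring⟩)
  have e : (((a : ℝ) / 2 ^ k : ℝ) : ℂ) = (a : ℂ) / 2 ^ k := by push_cast; rfl
  rw [e] at h
  exact h

theorem f2b_box {P : Pr} {ν : ℕ × ℕ × ℕ × ℕ × ℕ} (hν : ν ∈ P.box) :
    ν.1 ≤ P.L ∧ ν.2.1 ≤ P.L ∧ ν.2.2.1 + ν.2.2.2.1 + ν.2.2.2.2 ≤ P.l := by
  unfold Pr.box at hν
  simp only [Finset.mem_product, Finset.mem_range] at hν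
  unfold Pr.l
  omega

theorem f2b_card (P : Pr) (hP : P.Good) {T : ℕ} (hT : P.L ≤ T) :
    (Fintype.card P.box : ℝ) ≤ (2 * (T : ℝ)) ^ 5 ∧ 1 ≤ (Fintype.card P.box : ℝ) := by
  have h1 := hP.hL
  have h2 := hP.hl
  unfold Pr.l at h2
  have hc : Fintype.card P.box =
      (P.L + 1) * ((P.L + 1) * ((P.d₁ + 1) * ((P.d₂ + 1) * (P.d₃ + 1)))) := by
    rw [Fintype.card_coe]
    unfold Pr.box
    simp only [Finset.card_product, Finset.card_range]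
  rw [hc]
  constructor
  · have h3 : (P.L + 1) * ((P.L + 1) * ((P.d₁ + 1) * ((P.d₂ + 1) * (P.d₃ + 1)))) ≤
        (2 * T) * ((2 * T) * ((2 * T) * ((2 * T) * (2 * T)))) := by
      refine Nat.mul_le_mul (by omega) (Nat.mul_le_mul (by omega) (Nat.mul_le_mul (by omega)
        (Nat.mul_le_mul (by omega) (by omega))))
    have h4 : (((P.L + 1) * ((P.L + 1) * ((P.d₁ + 1) * ((P.d₂ + 1) * (P.d₃ + 1)))) : ℕ) : ℝ) ≤
        (((2 * T) * ((2 * T) * ((2 * T) * ((2 * T) * (2 * T)))) : ℕ) : ℝ) := by exact_mod_cast h3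
    refine h4.trans (le_of_eq ?_)
    push_cast
    ring
  · have : 0 < (P.L + 1) * ((P.L + 1) * ((P.d₁ + 1) * ((P.d₂ + 1) * (P.d₃ + 1)))) := by positivity
    exact_mod_cast this

theorem f2b_log2 : Real.log 2 ≤ 1 := by
  have := Real.log_le_sub_one_of_pos (by norm_num : (0 : ℝ) < 2)
  linarith

theorem f2b_log40 : Real.log 40 ≤ 4 := by
  rw [Real.log_le_iff_le_exp (by norm_num)]
  have h1 : (2.7182818283 : ℝ) < Real.exp 1 := Real.exp_one_gt_d9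
  have h2 : Real.exp 4 = Real.exp 1 ^ 4 := by rw [← Real.exp_nat_mul]; norm_num
  rw [h2]
  have h3 : (2.7 : ℝ) ^ 4 ≤ Real.exp 1 ^ 4 := pow_le_pow_left₀ (by norm_num) (by linarith) 4
  norm_num at h3 ⊢
  linarith

/-- F2b. PROOF. `norm_lemma` with `x = vA (a/2^k)`, `y = vB (a/2^k)` (F1d, F1e), `Ξ ν = der₁^[r] (der₂^[s] (Qp P ν))`, `Bd (2L + 2T) l H`,
`H = (8 (2L + 2T + l))^(r+s) A^l ≤ (40 T)^T e^L` (`≥ 1` after enlarging), `log (card ι) ≤ 5 log (2T)`. By `dd_FF` (`N0 τ (a/2^k) ≠ 0`: `th_real_ne`)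
`∑ p_ν(ϑ) Ξ_ν(..) = dd r s FF /((πΩ₁)^r (πΩ₂)^s)`, so `log‖∑‖ ≤ log‖dd r s FF‖ + C T`. -/
theorem norm_step (c₁ c₂ : Cv) (Ω₁ Ω₂ ϑ : ℂ) (h : Hyp c₁ c₂ Ω₁ Ω₂ ϑ) (k : ℕ) (a : ℤ) (ha : ¬ ((2 : ℤ) ^ k ∣ a)) :
    ∃ C : ℝ, 1 ≤ C ∧ ∀ (P : Pr), P.Good → ∀ (T δ : ℕ) (H' : ℝ) (p : P.box → Polynomial ℤ), P.L ≤ T → 1 ≤ H' →
      (∀ ν, (p ν).natDegree ≤ δ) → (∀ ν, len (p ν) ≤ H') → ∀ r s, r + s ≤ T →
      dd r s (FF c₁ c₂ P (cf ϑ Ω₁ Ω₂ P p)) ((a : ℂ) / 2 ^ k) ((a : ℂ) / 2 ^ k) ≠ 0 →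
      ∃ Q : Polynomial ℤ, aeval ϑ Q ≠ 0 ∧ (Q.natDegree : ℝ) ≤ C * (δ + P.l) ∧
        Real.log (len Q) ≤ C * (Real.log H' + T * (1 + Real.log T)) ∧
        Real.log ‖aeval ϑ Q‖ ≤ Real.log ‖dd r s (FF c₁ c₂ P (cf ϑ Ω₁ Ω₂ P p)) ((a : ℂ) / 2 ^ k) ((a : ℂ) / 2 ^ k)‖ +
          C * (Real.log H' + δ + T * (1 + Real.log T)) := by
  set t : ℂ := (a : ℂ) / 2 ^ k with ht
  obtain ⟨C₁, hC₁, hnorm⟩ := norm_lemma ϑ h.tr (vA c₁.τ c₂.τ Ω₁ Ω₂ t t) (vB c₁.τ c₂.τ Ω₁ Ω₂ t t)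
    (vA_alg c₁.τ c₂.τ Ω₁ Ω₂ h.h₁ h.h₂ k a ha)
    (vB_alg c₁.τ c₂.τ Ω₁ Ω₂ ϑ h.h₁ h.h₂ h.a₁ h.a₂ k a ha)
  have hp1 := f2b_pi_ne h.h₁.ne
  have hp2 := f2b_pi_ne h.h₂.ne
  set K : ℝ := |Real.log ‖(Real.pi : ℂ) * Ω₁‖| + |Real.log ‖(Real.pi : ℂ) * Ω₂‖| with hK
  have hK0 : 0 ≤ K := by positivity
  refine ⟨16 * C₁ + K, by linarith, ?_⟩
  intro P hP T δ H' p hLT hH' hdeg hlen r s hrs hne
  have hL1 := hP.hL
  have hlL := hP.hl
  have hT1 : 1 ≤ T := hL1.trans hLT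
  have hTr : (1 : ℝ) ≤ T := by exact_mod_cast hT1
  have hLTr : (P.L : ℝ) ≤ T := by exact_mod_cast hLT
  have hlLr : (P.l : ℝ) ≤ P.L := by exact_mod_cast hlL
  have hL1r : (1 : ℝ) ≤ P.L := by exact_mod_cast hL1
  have hl0r : (0 : ℝ) ≤ P.l := Nat.cast_nonneg _
  have hlogT : 0 ≤ Real.log T := Real.log_nonneg hTr
  have hδ0 : (0 : ℝ) ≤ δ := Nat.cast_nonneg _
  have hlogH' : 0 ≤ Real.log H' := Real.log_nonneg hH'
  have hA1 : (1 : ℝ) ≤ P.A := by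
    unfold Pr.A
    have h1 := abs_nonneg (P.a₁ : ℝ)
    have h2 := abs_nonneg (P.a₂ : ℝ)
    have h3 := abs_nonneg (P.b₁ : ℝ)
    have h4 := abs_nonneg (P.b₂ : ℝ)
    linarith
  set B : ℝ := 8 * (((2 * P.L : ℕ) : ℝ) + 2 * T + P.l) with hB
  have hB8 : 1 ≤ B := by
    rw [hB]; push_cast; linarith
  have hB40 : B ≤ 40 * T := by
    rw [hB]; push_cast; linarith
  set H : ℝ := B ^ (r + s) * P.A ^ P.l with hH
  have hH1 : 1 ≤ H := one_le_mul_of_one_le_of_one_le (one_le_pow₀ hB8) (one_le_pow₀ hA1)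
  set S : ℂ := ∑ ν : P.box, aeval ϑ (p ν) * MvPolynomial.aeval
    (Sum.elim (vA c₁.τ c₂.τ Ω₁ Ω₂ t t) (vB c₁.τ c₂.τ Ω₁ Ω₂ t t))
    (der₁^[r] (der₂^[s] (Qp P ν))) with hS
  have hN1 := f2b_N0_ne c₁ k a ha
  have hN2 := f2b_N0_ne c₂ k a ha
  have hdd : dd r s (FF c₁ c₂ P (cf ϑ Ω₁ Ω₂ P p)) t t =
      (Real.pi * Ω₁) ^ r * (Real.pi * Ω₂) ^ s * S :=
    dd_FF c₁ c₂ h.s₁ h.s₂ ϑ Ω₁ Ω₂ h.h₁.ne h.h₂.ne P p t t hN1 hN2 r s
  have hS0 : S ≠ 0 := by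
    intro h0
    apply hne
    rw [hdd, h0, mul_zero]
  obtain ⟨Q, hQ0, hQ1, hQ2, hQ3⟩ := hnorm P.box (2 * P.L + 2 * T) P.l δ H H' p
    (fun ν => der₁^[r] (der₂^[s] (Qp P ν))) hH1 hH'
    (fun ν => Bd.iter (Bd.Qp P ν ν.2) r s T hrs) hdeg hlen hS0
  obtain ⟨hc1, hc2⟩ := f2b_card P hP hLT
  have hlogc : Real.log (Fintype.card P.box) ≤ 5 * (1 + Real.log T) := by
    have h1 := Real.log_le_log (by linarith) hc1
    rw [Real.log_pow, Real.log_mul (by norm_num) (by positivity)] at h1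
    have h2 := f2b_log2
    push_cast at h1
    linarith
  have hlogB : Real.log B ≤ 4 + Real.log T := by
    have h1 := Real.log_le_log (by linarith) hB40
    rw [Real.log_mul (by norm_num : (40 : ℝ) ≠ 0) (by positivity : (T : ℝ) ≠ 0)] at h1
    have := f2b_log40
    linarith
  have hlogB0 : 0 ≤ Real.log B := Real.log_nonneg hB8
  have hlogA : Real.log (P.A ^ P.l) ≤ T := by
    have h1 := Real.log_le_log (by positivity) hP.hA
    rw [Real.log_exp] at h1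
    linarith
  have hrs' : ((r + s : ℕ) : ℝ) ≤ T := by exact_mod_cast hrs
  have hlogH : Real.log H ≤ 5 * (T * (1 + Real.log T)) := by
    rw [hH, Real.log_mul (by positivity) (by positivity), Real.log_pow]
    have h1 : ((r + s : ℕ) : ℝ) * Real.log B ≤ T * (4 + Real.log T) :=
      mul_le_mul hrs' hlogB hlogB0 (by positivity)
    exact f2b_r1 h1 hlogA (mul_nonneg (zero_le_one.trans hTr) hlogT)
  have hprod : Real.log (Fintype.card P.box * H * H') =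
      Real.log (Fintype.card P.box) + Real.log H + Real.log H' := by
    rw [Real.log_mul (by positivity) (by positivity), Real.log_mul (by positivity) (by positivity)]
  have hTW : (T : ℝ) ≤ T * (1 + Real.log T) :=
    le_mul_of_one_le_right (zero_le_one.trans hTr) (le_add_of_nonneg_right hlogT)
  have hTT : (1 + Real.log T) ≤ T * (1 + Real.log T) := by
    exact le_mul_of_one_le_left (add_nonneg zero_le_one hlogT) hTr
  have hmain : Real.log (Fintype.card P.box * H * H') + (((2 * P.L + 2 * T : ℕ) : ℝ) + P.l + 1) ≤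
      Real.log H' + 16 * (T * (1 + Real.log T)) := by
    rw [hprod]
    push_cast
    exact f2b_r2 hlogc hlogH hTT hTW hLTr hlLr hTr
  have hTl : 0 ≤ T * (1 + Real.log T) := by positivity
  refine ⟨Q, hQ0, ?_, ?_, ?_⟩
  · refine hQ1.trans ?_
    exact mul_le_mul_of_nonneg_right (by linarith) (by positivity)
  · refine hQ2.trans ?_
    have h1 := mul_le_mul_of_nonneg_left hmain (by linarith : 0 ≤ C₁)
    refine h1.trans ?_
    have h2 : 0 ≤ C₁ * Real.log H' := by positivity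
    have h3 : 0 ≤ K * (Real.log H' + T * (1 + Real.log T)) :=
      mul_nonneg hK0 (add_nonneg hlogH' hTl)
    exact f2b_r3 h2 h3
  · have hlogS : Real.log ‖S‖ ≤
        Real.log ‖dd r s (FF c₁ c₂ P (cf ϑ Ω₁ Ω₂ P p)) t t‖ + K * T := by
      rw [hdd, norm_mul, norm_mul, norm_pow, norm_pow,
        Real.log_mul (by positivity) (by positivity), Real.log_mul (by positivity) (by positivity),
        Real.log_pow, Real.log_pow]
      have hr : (r : ℝ) ≤ T := by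
        refine le_trans ?_ hrs'
        push_cast
        have : (0 : ℝ) ≤ s := Nat.cast_nonneg _
        linarith
      have hs : (s : ℝ) ≤ T := by
        refine le_trans ?_ hrs'
        push_cast
        have : (0 : ℝ) ≤ r := Nat.cast_nonneg _
        linarith
      have h1 : -((r : ℝ) * Real.log ‖(Real.pi : ℂ) * Ω₁‖) ≤
          T * |Real.log ‖(Real.pi : ℂ) * Ω₁‖| := by
        exact f2b_r4 (Nat.cast_nonneg _) hr
      have h1' : -((s : ℝ) * Real.log ‖(Real.pi : ℂ) * Ω₂‖) ≤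
          T * |Real.log ‖(Real.pi : ℂ) * Ω₂‖| := by
        exact f2b_r4 (Nat.cast_nonneg _) hs
      rw [hK]
      linarith
    refine hQ3.trans ?_
    have h1 : C₁ * (Real.log (Fintype.card P.box * H * H') +
        (((2 * P.L + 2 * T : ℕ) : ℝ) + P.l + δ + 1)) ≤
        C₁ * (Real.log H' + 16 * (T * (1 + Real.log T)) + δ) := by
      refine mul_le_mul_of_nonneg_left ?_ (by linarith)
      linarith
    have h2 : K * T ≤ K * (Real.log H' + δ + T * (1 + Real.log T)) := by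
      refine mul_le_mul_of_nonneg_left ?_ hK0
      exact f2b_r5 hlogH' hδ0 hTW
    have h3 : C₁ * (Real.log H' + 16 * (T * (1 + Real.log T)) + δ) ≤
        16 * C₁ * (Real.log H' + δ + T * (1 + Real.log T)) := by
      exact f2b_r6 (mul_nonneg (zero_le_one.trans hC₁) hlogH') (mul_nonneg (zero_le_one.trans hC₁) hδ0)
    linarith

/-- F2b'. -/
theorem cf_bound (Ω₁ Ω₂ ϑ : ℂ) (hΩ₁ : Ω₁ ≠ 0) (hΩ₂ : Ω₂ ≠ 0) : ∃ C : ℝ, 1 ≤ C ∧ ∀ (P : Pr), P.Good →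
    ∀ (δ : ℕ) (H' : ℝ) (p : P.box → Polynomial ℤ), (∀ ν, (p ν).natDegree ≤ δ) → (∀ ν, len (p ν) ≤ H') →
    ∀ ν ∈ P.box, ‖cf ϑ Ω₁ Ω₂ P p ν‖ ≤ H' * Real.exp (C * (δ + P.L)) := by
  have hp1 := f2b_pi_ne hΩ₁
  have hp2 := f2b_pi_ne hΩ₂
  set u : ℝ := Real.log ‖(Real.pi : ℂ) * Ω₁‖ with hu
  set v : ℝ := Real.log ‖(Real.pi : ℂ) * Ω₂‖ with hv
  set x : ℝ := Real.log (max 1 ‖ϑ‖) with hx
  have hx0 : 0 ≤ x := Real.log_nonneg (le_max_left _ _)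
  have hmax : Real.exp x = max 1 ‖ϑ‖ := Real.exp_log (lt_of_lt_of_le one_pos (le_max_left _ _))
  have hexpu : Real.exp u = ‖(Real.pi : ℂ) * Ω₁‖ := Real.exp_log (norm_pos_iff.2 hp1)
  have hexpv : Real.exp v = ‖(Real.pi : ℂ) * Ω₂‖ := Real.exp_log (norm_pos_iff.2 hp2)
  refine ⟨1 + x + 2 * |u| + 3 * |v|, by
    have := abs_nonneg u
    have := abs_nonneg v
    linarith, ?_⟩
  intro P hP δ H' p hdeg hlen ν hν
  obtain ⟨b1, b2, b3⟩ := f2b_box hν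
  have hlL := hP.hl
  unfold cf
  rw [dif_pos hν, norm_mul, norm_div, norm_mul, norm_pow, norm_pow, norm_pow]
  have h1 := norm_aeval_le ϑ (p ⟨ν, hν⟩)
  have h2 : ‖aeval ϑ (p ⟨ν, hν⟩)‖ ≤ H' * Real.exp (δ * x) := by
    refine h1.trans ?_
    have h3 : (max 1 ‖ϑ‖) ^ (p ⟨ν, hν⟩).natDegree ≤ Real.exp (δ * x) := by
      rw [Real.exp_nat_mul, hmax]
      exact pow_le_pow_right₀ (le_max_left _ _) (hdeg _)
    exact mul_le_mul (hlen _) h3 (by positivity) ((len_nonneg _).trans (hlen ⟨ν, hν⟩))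
  have hL0 : (0 : ℝ) ≤ P.L := Nat.cast_nonneg _
  have hδ0 : (0 : ℝ) ≤ δ := Nat.cast_nonneg _
  have h4 : ‖(Real.pi : ℂ) * Ω₂‖ ^ (ν.2.2.1 + ν.2.2.2.1 + ν.2.2.2.2) /
      (‖(Real.pi : ℂ) * Ω₁‖ ^ (2 * ν.1) * ‖(Real.pi : ℂ) * Ω₂‖ ^ (2 * ν.2.1)) ≤
      Real.exp ((2 * |u| + 3 * |v|) * P.L) := by
    rw [← hexpu, ← hexpv, ← Real.exp_nat_mul, ← Real.exp_nat_mul, ← Real.exp_nat_mul,
      ← Real.exp_add, ← Real.exp_sub]
    apply Real.exp_le_exp.2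
    have e1 : (ν.1 : ℝ) ≤ P.L := by exact_mod_cast b1
    have e2 : (ν.2.1 : ℝ) ≤ P.L := by exact_mod_cast b2
    have e3 : ((ν.2.2.1 + ν.2.2.2.1 + ν.2.2.2.2 : ℕ) : ℝ) ≤ P.L := by
      exact_mod_cast b3.trans hlL
    have f1 : (0 : ℝ) ≤ ν.1 := Nat.cast_nonneg _
    have f2 : (0 : ℝ) ≤ ν.2.1 := Nat.cast_nonneg _
    have f3 : (0 : ℝ) ≤ ((ν.2.2.1 + ν.2.2.2.1 + ν.2.2.2.2 : ℕ) : ℝ) := Nat.cast_nonneg _
    have g1 : ((ν.2.2.1 + ν.2.2.2.1 + ν.2.2.2.2 : ℕ) : ℝ) * v ≤ P.L * |v| :=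
      (mul_le_mul_of_nonneg_left (le_abs_self v) f3).trans
        (mul_le_mul_of_nonneg_right e3 (abs_nonneg v))
    have g2 : -((ν.1 : ℝ) * u) ≤ P.L * |u| := by
      have := mul_le_mul_of_nonneg_left (neg_abs_le u) f1
      have := mul_le_mul_of_nonneg_right e1 (abs_nonneg u)
      linarith
    have g3 : -((ν.2.1 : ℝ) * v) ≤ P.L * |v| := by
      have := mul_le_mul_of_nonneg_left (neg_abs_le v) f2
      have := mul_le_mul_of_nonneg_right e2 (abs_nonneg v)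
      linarith
    push_cast at g1 ⊢
    linarith
  calc ‖aeval ϑ (p ⟨ν, hν⟩)‖ * (‖(Real.pi : ℂ) * Ω₂‖ ^ (ν.2.2.1 + ν.2.2.2.1 + ν.2.2.2.2) /
      (‖(Real.pi : ℂ) * Ω₁‖ ^ (2 * ν.1) * ‖(Real.pi : ℂ) * Ω₂‖ ^ (2 * ν.2.1)))
      ≤ (H' * Real.exp (δ * x)) * Real.exp ((2 * |u| + 3 * |v|) * P.L) :=
        mul_le_mul h2 h4 (by positivity) ((norm_nonneg _).trans h2)
    _ = H' * Real.exp (δ * x + (2 * |u| + 3 * |v|) * P.L) := by
        rw [mul_assoc, ← Real.exp_add]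
    _ ≤ H' * Real.exp ((1 + x + 2 * |u| + 3 * |v|) * (δ + P.L)) := by
        refine mul_le_mul_of_nonneg_left (Real.exp_le_exp.2 ?_) ((len_nonneg _).trans (hlen ⟨ν, hν⟩))
        exact f2b_r7 (mul_nonneg hx0 hL0) (mul_nonneg (abs_nonneg u) hδ0)
          (mul_nonneg (abs_nonneg v) hδ0) hL0 hδ0

/-- F2b''. -/
theorem cf_ne (Ω₁ Ω₂ ϑ : ℂ) (hΩ₁ : Ω₁ ≠ 0) (hΩ₂ : Ω₂ ≠ 0) (hϑ : Transcendental ℚ ϑ) (P : Pr) (p : P.box → Polynomial ℤ)
    (hp : p ≠ 0) : ∃ ν ∈ P.box, cf ϑ Ω₁ Ω₂ P p ν ≠ 0 := by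
  obtain ⟨ν, hν⟩ := Function.ne_iff.1 hp
  refine ⟨ν.1, ν.2, ?_⟩
  unfold cf
  rw [dif_pos ν.2]
  have hp1 := f2b_pi_ne hΩ₁
  have hp2 := f2b_pi_ne hΩ₂
  refine mul_ne_zero (f2b_aeval_ne hϑ hν) (div_ne_zero (pow_ne_zero _ hp2)
    (mul_ne_zero (pow_ne_zero _ hp1) (pow_ne_zero _ hp2)))

end Pool.Agent.MSP
end

end
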