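import Mathlib
import Pool.Agent.Lib.MP_f58a57_nt.FK.K005
import Pool.Agent.Lib.MP_f58a57_nt.FK.K008
import Pool.Agent.Lib.MP_f58a57_nt.FK.K017

namespace Pool.Agent.MSP
end Pool.Agent.MSP

section

/-! # N3: integrality and size of the Taylor coefficients of the monomials (MP_f58a57_nt, algebraic invariants) -/

open Complex Filter Topology

noncomputable section

namespace Pool.Agent.MSN

open Pool.Agent.MSP

/-! ## the normalised Taylor coefficients over the rationals -/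

/-- the rational polynomial ring -/
abbrev N3A := MvPolynomial (Fin 6 ⊕ Fin 12) ℚ

/-- the inclusion -/
def n3φ : PN →+* N3A := MvPolynomial.map (Int.castRingHom ℚ)

/-- rational constants -/
abbrev n3C (a : ℚ) : N3A := MvPolynomial.C a

theorem n3φ_inj : Function.Injective n3φ :=
  MvPolynomial.map_injective _ (RingHom.injective_int _)

theorem n3φ_C (a : ℤ) : n3φ (MvPolynomial.C a) = n3C (a : ℚ) := by
  simp [n3φ, n3C]

theorem n3φ_zsmul (a : ℤ) (p : PN) : n3φ (a • p) = n3C (a : ℚ) * n3φ p := by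
  rw [map_zsmul, zsmul_eq_mul]
  simp [n3C]

theorem n3_leib (D : Derivation ℤ PN PN) (n : ℕ) (p q : PN) :
    D^[n] (p * q) = ∑ ij ∈ Finset.HasAntidiagonal.antidiagonal n, n.choose ij.1 • (D^[ij.1] p * D^[ij.2] q) := by
  induction n with
  | zero => simp
  | succ n ih =>
    rw [Finset.sum_antidiagonal_choose_succ_nsmul (fun i j => D^[i] p * D^[j] q) n]
    simp only [Function.iterate_succ_apply', ih, map_sum, map_nsmul, Derivation.leibniz, smul_eq_mul, smul_add,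
      Finset.sum_add_distrib]
    congr 1
    refine Finset.sum_congr rfl fun ij hij => ?_
    rw [n.choose_symm_of_eq_add (Finset.HasAntidiagonal.mem_antidiagonal.1 hij).symm, mul_comm (D^[ij.2] q)]

/-- `D₁^r D₂^s p/(r! s!)` -/
def n3E (r s : ℕ) (p : PN) : N3A := n3C (((r.factorial : ℚ) * (s.factorial : ℚ))⁻¹) * n3φ (D₁^[r] (D₂^[s] p))

theorem n3_iter_sum {ι : Type*} (D : Derivation ℤ PN PN) (n : ℕ) (S : Finset ι) (f : ι → PN) :
    D^[n] (∑ i ∈ S, f i) = ∑ i ∈ S, D^[n] (f i) := by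
  induction n with
  | zero => simp
  | succ n ih => simp only [Function.iterate_succ_apply', ih, map_sum]

theorem n3_iter_nsmul (D : Derivation ℤ PN PN) (n k : ℕ) (p : PN) :
    D^[n] (k • p) = k • D^[n] p := by
  induction n with
  | zero => simp
  | succ n ih => simp only [Function.iterate_succ_apply', ih, map_nsmul]

theorem n3_iter_add (D : Derivation ℤ PN PN) (n : ℕ) (p q : PN) :
    D^[n] (p + q) = D^[n] p + D^[n] q := by
  induction n with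
  | zero => simp
  | succ n ih => simp only [Function.iterate_succ_apply', ih, map_add]

theorem n3_iter_zero (D : Derivation ℤ PN PN) (n : ℕ) : D^[n] 0 = 0 := by
  induction n with
  | zero => simp
  | succ n ih => simp only [Function.iterate_succ_apply', ih, map_zero]

/-- if `D p = 0` then all further iterates vanish -/
theorem n3_iter_const (D : Derivation ℤ PN PN) (n : ℕ) (hn : n ≠ 0) (p : PN) (hp : D p = 0) : D^[n] p = 0 := by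
  obtain ⟨m, rfl⟩ := Nat.exists_eq_succ_of_ne_zero hn
  rw [Function.iterate_succ_apply, hp, n3_iter_zero]

theorem n3E_add (r s : ℕ) (p q : PN) : n3E r s (p + q) = n3E r s p + n3E r s q := by
  unfold n3E
  rw [n3_iter_add, n3_iter_add, map_add, mul_add]

theorem n3_fact_choose (n : ℕ) (ij : ℕ × ℕ) (h : ij ∈ Finset.HasAntidiagonal.antidiagonal n) :
    ((n.factorial : ℚ))⁻¹ * (n.choose ij.1 : ℚ) = ((ij.1.factorial : ℚ))⁻¹ * ((ij.2.factorial : ℚ))⁻¹ := by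
  have h1 := Finset.HasAntidiagonal.mem_antidiagonal.1 h
  subst h1
  have h2 := Nat.choose_mul_factorial_mul_factorial (Nat.le_add_right ij.1 ij.2)
  rw [Nat.add_sub_cancel_left] at h2
  have h3 : ((ij.1 + ij.2).choose ij.1 : ℚ) * (ij.1.factorial : ℚ) * (ij.2.factorial : ℚ) = ((ij.1 + ij.2).factorial : ℚ) := by
    exact_mod_cast h2
  have h4 : (ij.1.factorial : ℚ) ≠ 0 := by positivity
  have h5 : (ij.2.factorial : ℚ) ≠ 0 := by positivity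
  have h6 : ((ij.1 + ij.2).factorial : ℚ) ≠ 0 := by positivity
  field_simp
  linarith [h3]

theorem n3E_mul (r s : ℕ) (p q : PN) : n3E r s (p * q) =
    ∑ a ∈ Finset.HasAntidiagonal.antidiagonal r, ∑ b ∈ Finset.HasAntidiagonal.antidiagonal s, n3E a.1 b.1 p * n3E a.2 b.2 q := by
  have h1 : D₁^[r] (D₂^[s] (p * q)) = ∑ a ∈ Finset.HasAntidiagonal.antidiagonal r, ∑ b ∈ Finset.HasAntidiagonal.antidiagonal s,
      (r.choose a.1 * s.choose b.1) • (D₁^[a.1] (D₂^[b.1] p) * D₁^[a.2] (D₂^[b.2] q)) := by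
    rw [n3_leib D₂, n3_iter_sum]
    rw [Finset.sum_comm]
    refine Finset.sum_congr rfl fun b _ => ?_
    rw [n3_iter_nsmul, n3_leib D₁, Finset.smul_sum]
    refine Finset.sum_congr rfl fun a _ => ?_
    rw [smul_smul, mul_comm]
  unfold n3E
  rw [h1, map_sum, Finset.mul_sum]
  refine Finset.sum_congr rfl fun a ha => ?_
  rw [map_sum, Finset.mul_sum]
  refine Finset.sum_congr rfl fun b hb => ?_
  have h2 := n3_fact_choose r a ha
  have h3 := n3_fact_choose s b hb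
  rw [map_nsmul, map_mul, nsmul_eq_mul]
  have h4 : ((r.choose a.1 * s.choose b.1 : ℕ) : N3A) = n3C ((r.choose a.1 : ℚ) * (s.choose b.1 : ℚ)) := by
    simp [n3C]
  rw [h4]
  have h5 : n3C (((r.factorial : ℚ) * (s.factorial : ℚ))⁻¹) * n3C ((r.choose a.1 : ℚ) * (s.choose b.1 : ℚ))
      = n3C (((a.1.factorial : ℚ) * (b.1.factorial : ℚ))⁻¹) * n3C (((a.2.factorial : ℚ) * (b.2.factorial : ℚ))⁻¹) := by
    rw [← map_mul, ← map_mul]
    congr 1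
    rw [mul_inv, mul_inv, mul_inv]
    linear_combination ((s.factorial : ℚ))⁻¹ * (s.choose b.1 : ℚ) * h2 + ((a.1.factorial : ℚ))⁻¹ * ((a.2.factorial : ℚ))⁻¹ * h3
  rw [← mul_assoc, h5]
  ring

/-! ## types -/

/-- sums of `g/(4^n ∏ K)` -/
inductive N3Ty : ℕ → ℕ → ℕ → ℕ → ℝ → N3A → Prop
  | base (n m D l : ℕ) (H : ℝ) (g : PN) (K : Multiset ℕ) (hK : ∀ k ∈ K, 1 ≤ k) (hs : K.sum ≤ n)
      (hc : Multiset.card K ≤ m) (hg : Bd D l H g) : N3Ty n m D l H (n3C (((4 : ℚ) ^ n * (K.prod : ℚ))⁻¹) * n3φ g)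
  | add (n m D l : ℕ) (H H' : ℝ) (x y : N3A) (hx : N3Ty n m D l H x) (hy : N3Ty n m D l H' y) :
      N3Ty n m D l (H + H') (x + y)

theorem N3Ty.mono {n m D l m' D' l' : ℕ} {H H' : ℝ} {x : N3A} (h : N3Ty n m D l H x) (hm : m ≤ m') (hD : D ≤ D')
    (hl : l ≤ l') (hH : H ≤ H') : N3Ty n m' D' l' H' x := by
  induction h generalizing H' with
  | base H g K hK hs hc hg => exact N3Ty.base n m' D' l' H' g K hK hs (hc.trans hm) (hg.mono hD hl hH)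
  | add H₁ H₂ x y hx hy ihx ihy =>
    have h1 := ihx (le_refl H₁)
    have h2 := ihy (H' := H' - H₁) (by linarith)
    have h3 := N3Ty.add _ _ _ _ _ _ _ _ h1 h2
    have h4 : H₁ + (H' - H₁) = H' := by ring
    rwa [h4] at h3

theorem N3Ty.zero (n m D l : ℕ) : N3Ty n m D l 0 0 := by
  have h := N3Ty.base n m D l 0 0 0 (by simp) (by simp) (by simp) (Bd.zero D l 0 (le_refl _))
  simpa using h

theorem N3Ty.of_eq {n m D l : ℕ} {H : ℝ} {x y : N3A} (h : N3Ty n m D l H x) (hxy : x = y) : N3Ty n m D l H y := hxy ▸ h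

theorem N3Ty.mul {n m D l n' m' D' l' : ℕ} {H H' : ℝ} {x y : N3A} (h : N3Ty n m D l H x) (h' : N3Ty n' m' D' l' H' y) :
    N3Ty (n + n') (m + m') (D + D') (l + l') (H * H') (x * y) := by
  induction h with
  | base H g K hK hs hc hg =>
    induction h' with
    | base H' g' K' hK' hs' hc' hg' =>
      have h1 := N3Ty.base (n + n') (m + m') (D + D') (l + l') (H * H') (g * g') (K + K')
        (by
          intro k hk
          rcases Multiset.mem_add.1 hk with hk | hk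
          · exact hK k hk
          · exact hK' k hk)
        (by rw [Multiset.sum_add]; exact add_le_add hs hs')
        (by rw [Multiset.card_add]; exact add_le_add hc hc') (hg.mul hg')
      refine h1.of_eq ?_
      rw [Multiset.prod_add, map_mul, pow_add]
      have h2 : (((4 : ℚ) ^ n * (4 : ℚ) ^ n' * ((K.prod * K'.prod : ℕ) : ℚ))⁻¹)
          = (((4 : ℚ) ^ n * (K.prod : ℚ))⁻¹) * (((4 : ℚ) ^ n' * (K'.prod : ℚ))⁻¹) := by
        push_cast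
        rw [← mul_inv]
        congr 1
        ring
      rw [h2]
      unfold n3C
      rw [map_mul]
      ring
    | add H₁ H₂ x y hx hy ihx ihy =>
      rw [mul_add, mul_add]
      exact N3Ty.add _ _ _ _ _ _ _ _ ihx ihy
  | add H₁ H₂ x y hx hy ihx ihy =>
    rw [add_mul, add_mul]
    exact N3Ty.add _ _ _ _ _ _ _ _ ihx ihy

theorem N3Ty.sum {ι : Type*} {n m D l : ℕ} (S : Finset ι) (H : ι → ℝ) (x : ι → N3A)
    (h : ∀ i ∈ S, N3Ty n m D l (H i) (x i)) : N3Ty n m D l (∑ i ∈ S, H i) (∑ i ∈ S, x i) := by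
  classical
  induction S using Finset.induction_on with
  | empty =>
    rw [Finset.sum_empty, Finset.sum_empty]
    exact N3Ty.zero n m D l
  | insert a S ha ih =>
    rw [Finset.sum_insert ha, Finset.sum_insert ha]
    exact N3Ty.add _ _ _ _ _ _ _ _ (h a (Finset.mem_insert_self _ _)) (ih fun i hi => h i (Finset.mem_insert_of_mem hi))

theorem n3_bd_nonneg {D l : ℕ} {H : ℝ} {g : PN} (h : Bd D l H g) : 0 ≤ H := (mlen_nonneg g).trans h.h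

theorem N3Ty.clear {n m D l : ℕ} {H : ℝ} {x : N3A} (h : N3Ty n m D l H x) (T L : ℕ) (hT : n ≤ T) (hL : m ≤ L) :
    ∃ Ξ : PN, Bd D l (H * den T L) Ξ ∧ n3C (den T L : ℚ) * x = n3φ Ξ := by
  induction h with
  | base H g K hK hs hc hg =>
    obtain ⟨q, hq⟩ := prod_dvd T L K hK (hs.trans hT) (hc.trans hL)
    have hK1 : 1 ≤ K.prod := by
      refine Nat.one_le_iff_ne_zero.2 ?_
      intro h0
      have := Multiset.prod_eq_zero_iff.1 h0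
      exact absurd (hK 0 this) (by norm_num)
    have h4 : (4 : ℕ) ^ T = 4 ^ n * 4 ^ (T - n) := by
      rw [← pow_add]
      congr 1
      omega
    have hle : q * 4 ^ (T - n) ≤ den T L := by
      rw [hq, h4]
      calc q * 4 ^ (T - n) = 1 * 4 ^ (T - n) * 1 * q := by ring
        _ ≤ 4 ^ n * 4 ^ (T - n) * K.prod * q :=
          Nat.mul_le_mul (Nat.mul_le_mul (Nat.mul_le_mul (Nat.one_le_pow _ _ (by norm_num)) (le_refl _)) hK1) (le_refl _)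
    refine ⟨MvPolynomial.C ((q * 4 ^ (T - n) : ℕ) : ℤ) * g, ?_, ?_⟩
    · have h1 := (Bd.const (r := 6) (s := 12) ((q * 4 ^ (T - n) : ℕ) : ℤ)).mul hg
      refine h1.mono (by omega) (by omega) ?_
      have h2 : |(((q * 4 ^ (T - n) : ℕ) : ℤ) : ℝ)| ≤ (den T L : ℝ) := by
        rw [Int.cast_natCast, abs_of_nonneg (Nat.cast_nonneg _)]
        exact_mod_cast hle
      rw [mul_comm H]
      exact mul_le_mul_of_nonneg_right h2 (n3_bd_nonneg hg)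
    · rw [map_mul, n3φ_C, ← mul_assoc]
      congr 1
      unfold n3C
      rw [← map_mul]
      congr 1
      rw [hq, h4]
      obtain ⟨kp, hkp⟩ : ∃ kp, kp = K.prod := ⟨_, rfl⟩
      rw [← hkp]
      have h5 : (kp : ℚ) ≠ 0 := by
        have : kp ≠ 0 := by omega
        exact_mod_cast this
      push_cast
      field_simp
  | add H₁ H₂ x y hx hy ihx ihy =>
    obtain ⟨Ξ₁, h1, e1⟩ := ihx
    obtain ⟨Ξ₂, h2, e2⟩ := ihy
    refine ⟨Ξ₁ + Ξ₂, ?_, ?_⟩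
    · rw [add_mul]
      exact h1.add h2
    · rw [mul_add, e1, e2, map_add]

/-! ## admissible polynomials -/

/-- admissible families of Taylor coefficients -/
def N3Adm (m D l : ℕ) (M : ℝ) (p : PN) : Prop :=
  ∃ h : ℕ → ℕ → ℝ, (∀ r s, 0 ≤ h r s) ∧
    (∀ r s, N3Ty (r + s) m (D + 6 * (r + s)) l (h r s * 512 ^ (r + s)) (n3E r s p)) ∧
    ∀ N, ∑ r ∈ Finset.range N, ∑ s ∈ Finset.range N, h r s ≤ M

theorem N3Adm.mono {m D l m' D' l' : ℕ} {M M' : ℝ} {p : PN} (h : N3Adm m D l M p) (hm : m ≤ m') (hD : D ≤ D')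
    (hl : l ≤ l') (hM : M ≤ M') : N3Adm m' D' l' M' p := by
  obtain ⟨f, h0, h1, h2⟩ := h
  exact ⟨f, h0, fun r s => (h1 r s).mono hm (by omega) hl (le_refl _), fun N => (h2 N).trans hM⟩

theorem N3Adm.nonneg {m D l : ℕ} {M : ℝ} {p : PN} (h : N3Adm m D l M p) : 0 ≤ M := by
  obtain ⟨f, h0, h1, h2⟩ := h
  simpa using h2 0

theorem N3Adm.add {m D l : ℕ} {M M' : ℝ} {p q : PN} (h : N3Adm m D l M p) (h' : N3Adm m D l M' q) :
    N3Adm m D l (M + M') (p + q) := by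
  obtain ⟨f, h0, h1, h2⟩ := h
  obtain ⟨f', h0', h1', h2'⟩ := h'
  refine ⟨fun r s => f r s + f' r s, fun r s => add_nonneg (h0 r s) (h0' r s), fun r s => ?_, fun N => ?_⟩
  · rw [n3E_add, add_mul]
    exact N3Ty.add _ _ _ _ _ _ _ _ (h1 r s) (h1' r s)
  · simp only [Finset.sum_add_distrib]
    exact add_le_add (h2 N) (h2' N)

/-- convolution in one variable -/
theorem n3_conv (F G : ℕ → ℝ) (hF : ∀ i, 0 ≤ F i) (hG : ∀ i, 0 ≤ G i) (N : ℕ) :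
    ∑ r ∈ Finset.range N, ∑ a ∈ Finset.HasAntidiagonal.antidiagonal r, F a.1 * G a.2 ≤
      (∑ i ∈ Finset.range N, F i) * ∑ j ∈ Finset.range N, G j := by
  classical
  rw [Finset.sum_mul_sum, ← Finset.sum_product', Finset.sum_sigma']
  refine le_of_eq_of_le (b := ∑ x ∈ ((Finset.range N).sigma fun r => Finset.HasAntidiagonal.antidiagonal r).image (fun x => x.2),
    F x.1 * G x.2) ?_ ?_
  · rw [Finset.sum_image]
    rintro ⟨r, a⟩ hx ⟨r', a'⟩ hy h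
    simp only [Finset.coe_sigma, Set.mem_sigma_iff, Finset.mem_coe, Finset.HasAntidiagonal.mem_antidiagonal] at hx hy
    simp only at h
    subst h
    obtain ⟨_, rfl⟩ := hx
    obtain ⟨_, rfl⟩ := hy
    rfl
  · refine Finset.sum_le_sum_of_subset_of_nonneg ?_ fun x _ _ => mul_nonneg (hF _) (hG _)
    intro x hx
    obtain ⟨⟨r, a⟩, hy, rfl⟩ := Finset.mem_image.1 hx
    simp only [Finset.mem_sigma, Finset.mem_range, Finset.HasAntidiagonal.mem_antidiagonal] at hy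
    simp only [Finset.mem_product, Finset.mem_range]
    omega

theorem N3Adm.mul {m D l m' D' l' : ℕ} {M M' : ℝ} {p q : PN} (h : N3Adm m D l M p) (h' : N3Adm m' D' l' M' q) :
    N3Adm (m + m') (D + D') (l + l') (M * M') (p * q) := by
  have hM := h.nonneg
  obtain ⟨f, h0, h1, h2⟩ := h
  obtain ⟨f', h0', h1', h2'⟩ := h'
  refine ⟨fun r s => ∑ a ∈ Finset.HasAntidiagonal.antidiagonal r, ∑ b ∈ Finset.HasAntidiagonal.antidiagonal s, f a.1 b.1 * f' a.2 b.2,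
    fun r s => Finset.sum_nonneg fun a _ => Finset.sum_nonneg fun b _ => mul_nonneg (h0 _ _) (h0' _ _), fun r s => ?_, fun N => ?_⟩
  · rw [n3E_mul, Finset.sum_mul]
    refine N3Ty.sum _ _ _ fun a ha => ?_
    rw [Finset.sum_mul]
    refine N3Ty.sum _ _ _ fun b hb => ?_
    have ha := Finset.HasAntidiagonal.mem_antidiagonal.1 ha
    have hb := Finset.HasAntidiagonal.mem_antidiagonal.1 hb
    have h3 := (h1 a.1 b.1).mul (h1' a.2 b.2)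
    have e1 : a.1 + b.1 + (a.2 + b.2) = r + s := by omega
    have e2 : f a.1 b.1 * 512 ^ (a.1 + b.1) * (f' a.2 b.2 * 512 ^ (a.2 + b.2)) = f a.1 b.1 * f' a.2 b.2 * 512 ^ (r + s) := by
      rw [← e1, pow_add (512 : ℝ) (a.1 + b.1)]
      ring
    rw [e1, e2] at h3
    exact h3.mono (le_refl _) (by omega) (le_refl _) (le_refl _)
  · have hsplit : ∀ r, ∑ s ∈ Finset.range N, ∑ a ∈ Finset.HasAntidiagonal.antidiagonal r, ∑ b ∈ Finset.HasAntidiagonal.antidiagonal s, f a.1 b.1 * f' a.2 b.2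
        ≤ ∑ a ∈ Finset.HasAntidiagonal.antidiagonal r, (∑ s ∈ Finset.range N, f a.1 s) * ∑ s ∈ Finset.range N, f' a.2 s := by
      intro r
      rw [Finset.sum_comm]
      refine Finset.sum_le_sum fun a _ => ?_
      exact n3_conv (fun i => f a.1 i) (fun i => f' a.2 i) (fun i => h0 _ _) (fun i => h0' _ _) N
    refine (Finset.sum_le_sum fun r _ => hsplit r).trans ?_
    refine (n3_conv (fun i => ∑ s ∈ Finset.range N, f i s) (fun i => ∑ s ∈ Finset.range N, f' i s)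
      (fun i => Finset.sum_nonneg fun _ _ => h0 _ _) (fun i => Finset.sum_nonneg fun _ _ => h0' _ _) N).trans ?_
    exact mul_le_mul (h2 N) (h2' N) (Finset.sum_nonneg fun _ _ => Finset.sum_nonneg fun _ _ => h0' _ _) hM

theorem n3_sum_single (c : ℝ) (hc : 0 ≤ c) (N : ℕ) :
    ∑ r ∈ Finset.range N, ∑ s ∈ Finset.range N, (if r = 0 ∧ s = 0 then c else 0) ≤ c := by
  rcases N with _ | N
  · simpa using hc
  · refine le_of_eq ?_
    rw [Finset.sum_eq_single 0, Finset.sum_eq_single 0]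
    · simp
    · intro s _ hs
      simp [hs]
    · intro h
      exact absurd (Finset.mem_range.2 (Nat.succ_pos N)) h
    · intro r _ hr
      refine Finset.sum_eq_zero fun s _ => ?_
      simp [hr]
    · intro h
      exact absurd (Finset.mem_range.2 (Nat.succ_pos N)) h

theorem n3E_zero_of {r s : ℕ} {p : PN} (h : D₁^[r] (D₂^[s] p) = 0) : n3E r s p = 0 := by
  unfold n3E
  rw [h, map_zero, mul_zero]

theorem n3E_00 (p : PN) : n3E 0 0 p = n3φ p := by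
  unfold n3E
  simp [n3C]

theorem n3_ty_of_bd {D l : ℕ} {H : ℝ} {g : PN} (h : Bd D l H g) : N3Ty 0 0 D l H (n3φ g) := by
  have h1 := N3Ty.base 0 0 D l H g 0 (by simp) (by simp) (by simp) h
  refine h1.of_eq ?_
  simp [n3C]

theorem N3Adm.const (a : ℤ) : N3Adm 0 0 0 |(a : ℝ)| (MvPolynomial.C a) := by
  have hD1 : D₁ (MvPolynomial.C a : PN) = 0 := Derivation.map_algebraMap _ a
  have hD2 : D₂ (MvPolynomial.C a : PN) = 0 := Derivation.map_algebraMap _ a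
  refine ⟨fun r s => if r = 0 ∧ s = 0 then |(a : ℝ)| else 0, fun r s => ?_, fun r s => ?_, fun N => n3_sum_single _ (abs_nonneg _) N⟩
  · dsimp only
    split_ifs
    · exact abs_nonneg _
    · exact le_refl _
  · by_cases h : r = 0 ∧ s = 0
    · obtain ⟨rfl, rfl⟩ := h
      rw [n3E_00]
      simpa using n3_ty_of_bd (Bd.const a)
    · have h0 : D₁^[r] (D₂^[s] (MvPolynomial.C a : PN)) = 0 := by
        by_cases hs : s = 0
        · subst hs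
          have hr : r ≠ 0 := fun hr => h ⟨hr, rfl⟩
          exact n3_iter_const D₁ r hr _ hD1
        · rw [n3_iter_const D₂ s hs _ hD2, n3_iter_zero]
      simp only [if_neg h, n3E_zero_of h0, zero_mul]
      exact N3Ty.zero _ _ _ _

theorem N3Adm.pow {m D l : ℕ} {M : ℝ} {p : PN} (h : N3Adm m D l M p) (k : ℕ) :
    N3Adm (k * m) (k * D) (k * l) (M ^ k) (p ^ k) := by
  induction k with
  | zero =>
    have := N3Adm.const 1
    simpa using this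
  | succ k ih =>
    rw [pow_succ, pow_succ]
    have := ih.mul h
    rwa [← Nat.succ_mul, ← Nat.succ_mul, ← Nat.succ_mul] at this

/-! ## the derivations on the variables -/

theorem n3_comm (p : PN) : D₁ (D₂ p) = D₂ (D₁ p) := by
  have h6 : ∀ D : Derivation ℤ PN PN, D 6 = 0 := fun D => by
    have := D.map_natCast 6
    simpa using this
  have h : ⁅D₁, D₂⁆ = 0 := by
    refine MvPolynomial.derivation_ext fun v => ?_
    rw [Derivation.commutator_apply]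
    simp only [D₁, D₂]
    rcases v with i | j
    · fin_cases i <;> simp [MvPolynomial.mkDerivation_X, nX, nY, h6]
    · fin_cases j <;> simp [MvPolynomial.mkDerivation_X, nX, nY]
  have h2 : (⁅D₁, D₂⁆ : Derivation ℤ PN PN) p = 0 := by rw [h]; rfl
  rw [Derivation.commutator_apply] at h2
  exact sub_eq_zero.1 h2

theorem n3_mixed (p : PN) (hp : D₂ (D₁ p) = 0) (r s : ℕ) (hr : r ≠ 0) (hs : s ≠ 0) : D₁^[r] (D₂^[s] p) = 0 := by
  obtain ⟨r, rfl⟩ := Nat.exists_eq_succ_of_ne_zero hr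
  obtain ⟨s, rfl⟩ := Nat.exists_eq_succ_of_ne_zero hs
  have hc : Function.Commute (D₁ : PN → PN) (D₂ : PN → PN) := fun q => n3_comm q
  rw [Function.iterate_succ_apply, (hc.iterate_right s.succ) p, Function.iterate_succ_apply, hp, n3_iter_zero, n3_iter_zero]

/-- Leibniz with a factor whose second derivative vanishes -/
theorem n3_iter_zw (D : Derivation ℤ PN PN) (z w w' : PN) (hw : D w = w') (hw' : D w' = 0) (n : ℕ) :
    D^[n + 1] (z * w) = D^[n + 1] z * w + ((n + 1 : ℕ) : ℤ) • (D^[n] z * w') := by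
  induction n with
  | zero =>
    simp [hw]
    ring
  | succ n ih =>
    rw [Function.iterate_succ_apply', ih, map_add, map_zsmul, Derivation.leibniz, Derivation.leibniz, hw, hw',
      Function.iterate_succ_apply' D (n + 1), Function.iterate_succ_apply' D n]
    simp only [smul_eq_mul, zsmul_eq_mul]
    push_cast
    ring

theorem n3_dir (D : Derivation ℤ PN PN) (f z w w' : PN) (hf : D f = z * w) (hw : D w = w') (hw' : D w' = 0)
    (hz : ∀ i : ℕ, ∃ g : PN, Bd (4 * i + 1) 0 (256 ^ i) g ∧ (4 : ℤ) ^ i • (D^[i] z) = (i.factorial : ℤ) • g)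
    (hbw : Bd 1 1 3 w) (hbw' : Bd 1 1 3 w') (k : ℕ) (hk : 1 ≤ k) :
    ∃ G : PN, Bd (6 * k) 1 (256 ^ k) G ∧ ((4 : ℤ) ^ k * k) • (D^[k] f) = (k.factorial : ℤ) • G := by
  have hH : (0 : ℝ) ≤ 256 := by norm_num
  have hc4 : Bd (r := 6) (s := 12) 0 0 4 (MvPolynomial.C 4) := by
    have := Bd.const (r := 6) (s := 12) 4
    simpa using this
  have hc16 : Bd (r := 6) (s := 12) 0 0 16 (MvPolynomial.C 16) := by
    have := Bd.const (r := 6) (s := 12) 16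
    simpa using this
  have hC4 : (MvPolynomial.C 4 : PN) = 4 := by simp
  have hC16 : (MvPolynomial.C 16 : PN) = 16 := by simp
  rcases k with _ | _ | i
  · omega
  · obtain ⟨g, hg, eg⟩ := hz 0
    refine ⟨MvPolynomial.C 4 * (g * w), ?_, ?_⟩
    · refine (hc4.mul (hg.mul hbw)).mono (by omega) (by omega) ?_
      norm_num
    · have e1 : z = g := by simpa using eg
      rw [Function.iterate_succ_apply, hf, ← e1, hC4]
      simp [zsmul_eq_mul]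
  · obtain ⟨g, hg, eg⟩ := hz (i + 1)
    obtain ⟨g', hg', eg'⟩ := hz i
    refine ⟨MvPolynomial.C 4 * (g * w) + MvPolynomial.C 16 * (g' * w'), ?_, ?_⟩
    · have h1 := (hc4.mul (hg.mul hbw)).mono (D' := 6 * (i + 1 + 1)) (l' := 1) (H' := 12 * 256 ^ (i + 1)) (by omega) (by omega)
        (by nlinarith [pow_nonneg hH (i + 1)])
      have h2 := (hc16.mul (hg'.mul hbw')).mono (D' := 6 * (i + 1 + 1)) (l' := 1) (H' := 48 * 256 ^ i) (by omega) (by omega)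
        (by nlinarith [pow_nonneg hH i])
      refine (h1.add h2).mono (le_refl _) (le_refl _) ?_
      have := pow_nonneg hH i
      have e1 : (256 : ℝ) ^ (i + 1) = 256 ^ i * 256 := by ring
      have e2 : (256 : ℝ) ^ (i + 1 + 1) = 256 ^ i * 65536 := by ring
      rw [e1, e2]
      linarith
    · rw [Function.iterate_succ_apply, hf, n3_iter_zw D z w w' hw hw' i, hC4, hC16]
      simp only [zsmul_eq_mul] at eg eg' ⊢
      rw [Nat.factorial_succ (i + 1)]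
      have h3 : (((i + 1).factorial : ℕ) : PN) = ((i : PN) + 1) * (i.factorial : PN) := by
        rw [Nat.factorial_succ]; push_cast; ring
      have h4 : ((((i + 1).factorial : ℕ) : ℤ) : PN) = ((i : PN) + 1) * (i.factorial : PN) := by
        rw [← h3]; push_cast; rfl
      push_cast at eg eg' h4 ⊢
      rw [h4] at eg ⊢
      linear_combination ((i : PN) + 1 + 1) * 4 * w * eg + ((i : PN) + 1 + 1) * ((i : PN) + 1) * 16 * w' * eg'

theorem n3_ty_dir (x G : PN) (k : ℕ) (hk : 1 ≤ k) (hG : Bd (6 * k) 1 (256 ^ k) G)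
    (h : ((4 : ℤ) ^ k * k) • x = (k.factorial : ℤ) • G) :
    N3Ty k 1 (6 * k) 1 (256 ^ k) (n3C ((k.factorial : ℚ)⁻¹) * n3φ x) := by
  have h1 := N3Ty.base k 1 (6 * k) 1 (256 ^ k) G {k} (by simpa using hk) (by simp) (by simp) hG
  refine h1.of_eq ?_
  have h2 : n3φ (((4 : ℤ) ^ k * k) • x) = n3φ ((k.factorial : ℤ) • G) := by rw [h]
  rw [n3φ_zsmul, n3φ_zsmul] at h2
  have hk0 : (k : ℚ) ≠ 0 := by
    have : k ≠ 0 := by omega
    exact_mod_cast this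
  have hf0 : (k.factorial : ℚ) ≠ 0 := by positivity
  have h3 : n3C (((4 : ℚ) ^ k * ((({k} : Multiset ℕ).prod : ℕ) : ℚ))⁻¹) =
      n3C ((k.factorial : ℚ)⁻¹) * n3C (((4 : ℚ) ^ k * (k : ℚ))⁻¹) * n3C (((k.factorial : ℤ) : ℚ)) := by
    unfold n3C
    rw [← map_mul, ← map_mul, Multiset.prod_singleton]
    congr 1
    push_cast
    field_simp
  have h4 : n3C ((k.factorial : ℚ)⁻¹) * n3C (((4 : ℚ) ^ k * (k : ℚ))⁻¹) * n3C ((((4 : ℤ) ^ k * (k : ℤ) : ℤ) : ℚ)) =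
      n3C ((k.factorial : ℚ)⁻¹) := by
    unfold n3C
    rw [← map_mul, ← map_mul]
    congr 1
    push_cast
    field_simp
  rw [h3, mul_assoc, ← h2, ← mul_assoc, h4]

theorem n3_geom (N : ℕ) : ∑ r ∈ Finset.range N, ((1 : ℝ) / 2) ^ r ≤ 2 := by
  have h : ∀ N : ℕ, ∑ r ∈ Finset.range N, ((1 : ℝ) / 2) ^ r = 2 - 2 * (1 / 2) ^ N := by
    intro N
    induction N with
    | zero => simp
    | succ N ih => rw [Finset.sum_range_succ, ih, pow_succ]; ring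
  rw [h]
  have : (0 : ℝ) ≤ (1 / 2) ^ N := by positivity
  linarith

theorem n3_adm_basic (p : PN) (m D l : ℕ) (h1 : ∀ k, N3Ty k m (D + 6 * k) l (256 ^ k) (n3E k 0 p))
    (h2 : ∀ k, N3Ty k m (D + 6 * k) l (256 ^ k) (n3E 0 k p))
    (h3 : D₂ (D₁ p) = 0) : N3Adm m D l 4 p := by
  have e : ∀ k : ℕ, ((1 : ℝ) / 2) ^ k * 512 ^ k = 256 ^ k := by
    intro k
    rw [← mul_pow]
    norm_num
  refine ⟨fun r s => if s = 0 then (1 / 2) ^ r else if r = 0 then (1 / 2) ^ s else 0, fun r s => ?_, fun r s => ?_, fun N => ?_⟩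
  · dsimp only
    split_ifs <;> positivity
  · by_cases hs : s = 0
    · subst hs
      simp only [if_true, add_zero]
      rw [e]
      exact h1 r
    · by_cases hr : r = 0
      · subst hr
        simp only [if_neg hs, if_true, zero_add]
        rw [e]
        exact h2 s
      · simp only [if_neg hs, if_neg hr, zero_mul, n3E_zero_of (n3_mixed p h3 r s hr hs)]
        exact N3Ty.zero _ _ _ _
  · have h4 : ∀ r s : ℕ, (if s = 0 then ((1 : ℝ) / 2) ^ r else if r = 0 then (1 / 2) ^ s else 0) ≤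
        (if s = 0 then ((1 : ℝ) / 2) ^ r else 0) + (if r = 0 then (1 / 2) ^ s else 0) := by
      intro r s
      have : (0 : ℝ) ≤ (1 / 2) ^ s := by positivity
      split_ifs <;> simp
    refine (Finset.sum_le_sum fun r _ => Finset.sum_le_sum fun s _ => h4 r s).trans ?_
    simp only [Finset.sum_add_distrib]
    have h5 : ∑ r ∈ Finset.range N, ∑ s ∈ Finset.range N, (if s = 0 then ((1 : ℝ) / 2) ^ r else 0) ≤ 2 := by
      refine le_trans (Finset.sum_le_sum fun r _ => ?_) (n3_geom N)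
      rw [Finset.sum_ite_eq' (Finset.range N) 0]
      split_ifs
      · exact le_refl _
      · positivity
    have h6 : ∑ r ∈ Finset.range N, ∑ s ∈ Finset.range N, (if r = 0 then ((1 : ℝ) / 2) ^ s else 0) ≤ 2 := by
      rw [Finset.sum_comm]
      refine le_trans (Finset.sum_le_sum fun r _ => ?_) (n3_geom N)
      rw [Finset.sum_ite_eq' (Finset.range N) 0]
      split_ifs
      · exact le_refl _
      · positivity
    linarith

theorem n3E_k0 (k : ℕ) (p : PN) : n3E k 0 p = n3C ((k.factorial : ℚ)⁻¹) * n3φ (D₁^[k] p) := by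
  unfold n3E
  simp

theorem n3E_0k (k : ℕ) (p : PN) : n3E 0 k p = n3C ((k.factorial : ℚ)⁻¹) * n3φ (D₂^[k] p) := by
  unfold n3E
  simp

/-- a variable `x_i` -/
theorem n3_ty_x (D : Derivation ℤ PN PN) (p : PN) (hp : Bd 1 0 1 p) (hD : D p = 1 ∨ D p = 0) (k : ℕ) :
    N3Ty k 0 (1 + 6 * k) 0 (256 ^ k) (n3C ((k.factorial : ℚ)⁻¹) * n3φ (D^[k] p)) := by
  have hD1 : D (1 : PN) = 0 := D.map_one_eq_zero
  rcases k with _ | _ | k
  · have := n3_ty_of_bd hp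
    simpa [n3C] using this
  · rcases hD with hD | hD
    · have hb : Bd (r := 6) (s := 12) 0 0 1 (MvPolynomial.C 1) := by
        have := Bd.const (r := 6) (s := 12) 1
        simpa using this
      have hb4 : Bd (r := 6) (s := 12) (1 + 6 * 1) 0 256 (MvPolynomial.C 4) := by
        have := Bd.const (r := 6) (s := 12) 4
        exact this.mono (by omega) (by omega) (by norm_num)
      have h1 := N3Ty.base 1 0 (1 + 6 * 1) 0 256 (MvPolynomial.C 4) 0 (by simp) (by simp) (by simp) hb4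
      rw [zero_add, pow_one]
      refine h1.of_eq ?_
      rw [n3φ_C, Function.iterate_one, hD, map_one]
      unfold n3C
      rw [← map_mul]
      simp
    · rw [zero_add, Function.iterate_one, hD, map_zero, mul_zero]
      exact (N3Ty.zero _ _ _ _).mono (le_refl _) (le_refl _) (le_refl _) (by positivity)
  · have h0 : D^[k + 1 + 1] p = 0 := by
      rw [Function.iterate_succ_apply]
      refine n3_iter_const D (k + 1) (Nat.succ_ne_zero _) _ ?_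
      rcases hD with hD | hD
      · rw [hD, hD1]
      · rw [hD, map_zero]
    rw [h0, map_zero, mul_zero]
    exact (N3Ty.zero _ _ _ _).mono (le_refl _) (le_refl _) (le_refl _) (by positivity)

/-- a variable `Y_j`, in a direction in which it is constant -/
theorem n3_ty_y0 (D : Derivation ℤ PN PN) (p : PN) (hp : Bd 0 1 1 p) (hD : D p = 0) (k : ℕ) :
    N3Ty k 1 (0 + 6 * k) 1 (256 ^ k) (n3C ((k.factorial : ℚ)⁻¹) * n3φ (D^[k] p)) := by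
  rcases k with _ | k
  · have := (n3_ty_of_bd hp).mono (m' := 1) (Nat.zero_le 1) (le_refl _) (le_refl _) (le_refl _)
    simpa [n3C] using this
  · rw [n3_iter_const D (k + 1) (Nat.succ_ne_zero _) _ hD, map_zero, mul_zero]
    exact (N3Ty.zero _ _ _ _).mono (le_refl _) (le_refl _) (le_refl _) (by positivity)

theorem n3_ty_y (D : Derivation ℤ PN PN) (p z w w' : PN) (hp : Bd 0 1 1 p) (hf : D p = z * w) (hw : D w = w') (hw' : D w' = 0)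
    (hz : ∀ i : ℕ, ∃ g : PN, Bd (4 * i + 1) 0 (256 ^ i) g ∧ (4 : ℤ) ^ i • (D^[i] z) = (i.factorial : ℤ) • g)
    (hbw : Bd 1 1 3 w) (hbw' : Bd 1 1 3 w') (k : ℕ) :
    N3Ty k 1 (0 + 6 * k) 1 (256 ^ k) (n3C ((k.factorial : ℚ)⁻¹) * n3φ (D^[k] p)) := by
  rcases Nat.eq_zero_or_pos k with rfl | hk
  · have := (n3_ty_of_bd hp).mono (m' := 1) (Nat.zero_le 1) (le_refl _) (le_refl _) (le_refl _)
    simpa [n3C] using this
  · obtain ⟨G, hG, eG⟩ := n3_dir D p z w w' hf hw hw' hz hbw hbw' k hk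
    rw [zero_add]
    exact n3_ty_dir _ G k hk hG eG

theorem n3_D1X0 : D₁ (nX 0) = 1 := by simp [D₁, nX, MvPolynomial.mkDerivation_X]
theorem n3_D1X2 : D₁ (nX 2) = 0 := by simp [D₁, nX, MvPolynomial.mkDerivation_X]
theorem n3_D2X0 : D₂ (nX 0) = 0 := by simp [D₂, nX, MvPolynomial.mkDerivation_X]
theorem n3_D2X1 : D₂ (nX 1) = 0 := by simp [D₂, nX, MvPolynomial.mkDerivation_X]
theorem n3_D2X2 : D₂ (nX 2) = 1 := by simp [D₂, nX, MvPolynomial.mkDerivation_X]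
theorem n3_D1Y (j : Fin 12) (h : j ≠ 9) (h' : j ≠ 11) : D₁ (nY j) = 0 := by
  fin_cases j <;> first | (exact absurd rfl h) | (exact absurd rfl h') | simp [D₁, nY, MvPolynomial.mkDerivation_X]
theorem n3_D2Y (j : Fin 12) (h : j ≠ 10) (h' : j ≠ 11) : D₂ (nY j) = 0 := by
  fin_cases j <;> first | (exact absurd rfl h) | (exact absurd rfl h') | simp [D₂, nY, MvPolynomial.mkDerivation_X]
theorem n3_D1Y9 : D₁ (nY 9) = nX 1 * (nY 0 * nX 0 + nY 1) := by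
  simp only [D₁, nY, MvPolynomial.mkDerivation_X]; rfl
theorem n3_D1Y11 : D₁ (nY 11) = nX 1 * (-nY 8 + nY 2 * nX 0 + nY 3) := by
  simp only [D₁, nY, MvPolynomial.mkDerivation_X]; rfl
theorem n3_D2Y10 : D₂ (nY 10) = nX 3 * (nY 4 * nX 2 + nY 5) := by
  simp only [D₂, nY, MvPolynomial.mkDerivation_X]; rfl
theorem n3_D2Y11 : D₂ (nY 11) = nX 3 * (1 - nY 6 * nX 2 - nY 7) := by
  simp only [D₂, nY, MvPolynomial.mkDerivation_X]; rfl

theorem n3_neg {D l : ℕ} {H : ℝ} {p : PN} (h : Bd D l H p) : Bd D l H (-p) := by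
  have h1 := (Bd.const (r := 6) (s := 12) (-1)).mul h
  have e : MvPolynomial.C (-1 : ℤ) * p = -p := by simp
  rw [e] at h1
  exact h1.mono (by omega) (by omega) (by norm_num)

theorem n3_X (i : Fin 6) : Bd 1 0 1 (nX i) := Bd.varA i
theorem n3_Y (j : Fin 12) : Bd 0 1 1 (nY j) := Bd.varB j

theorem n3_adm_x1 : N3Adm 0 1 0 4 (nX 0) :=
  n3_adm_basic _ 0 1 0 (fun k => by rw [n3E_k0]; exact n3_ty_x D₁ _ (n3_X 0) (Or.inl n3_D1X0) k)
    (fun k => by rw [n3E_0k]; exact n3_ty_x D₂ _ (n3_X 0) (Or.inr n3_D2X0) k)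
    (by rw [n3_D1X0]; exact D₂.map_one_eq_zero)

theorem n3_adm_x2 : N3Adm 0 1 0 4 (nX 2) :=
  n3_adm_basic _ 0 1 0 (fun k => by rw [n3E_k0]; exact n3_ty_x D₁ _ (n3_X 2) (Or.inr n3_D1X2) k)
    (fun k => by rw [n3E_0k]; exact n3_ty_x D₂ _ (n3_X 2) (Or.inl n3_D2X2) k)
    (by rw [n3_D1X2]; exact map_zero _)

theorem n3_bw1 : Bd 1 1 3 (nY 0 * nX 0 + nY 1) :=
  ((((n3_Y 0).mul (n3_X 0)).mono (D' := 1) (l' := 1) (H' := 1) (by omega) (by omega) (by norm_num)).add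
    ((n3_Y 1).mono (D' := 1) (by omega) (le_refl _) (le_refl _))).mono (le_refl _) (le_refl _) (by norm_num)

theorem n3_bw2 : Bd 1 1 3 (nY 4 * nX 2 + nY 5) :=
  ((((n3_Y 4).mul (n3_X 2)).mono (D' := 1) (l' := 1) (H' := 1) (by omega) (by omega) (by norm_num)).add
    ((n3_Y 5).mono (D' := 1) (by omega) (le_refl _) (le_refl _))).mono (le_refl _) (le_refl _) (by norm_num)

theorem n3_bw3 : Bd 1 1 3 (-nY 8 + nY 2 * nX 0 + nY 3) :=
  ((((n3_neg (n3_Y 8)).mono (D' := 1) (by omega) (le_refl _) (le_refl _)).add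
    (((n3_Y 2).mul (n3_X 0)).mono (D' := 1) (l' := 1) (H' := 1) (by omega) (by omega) (by norm_num))).add
    ((n3_Y 3).mono (D' := 1) (by omega) (le_refl _) (le_refl _))).mono (le_refl _) (le_refl _) (by norm_num)

theorem n3_bw4 : Bd 1 1 3 (1 - nY 6 * nX 2 - nY 7) := by
  have h1 : Bd (r := 6) (s := 12) 1 1 1 (1 : PN) := by
    have := Bd.const (r := 6) (s := 12) 1
    have h2 := this.mono (D' := 1) (l' := 1) (H' := 1) (by omega) (by omega) (by norm_num)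
    simpa using h2
  rw [sub_eq_add_neg, sub_eq_add_neg]
  exact ((h1.add (n3_neg (((n3_Y 6).mul (n3_X 2)).mono (D' := 1) (l' := 1) (H' := 1) (by omega) (by omega) (by norm_num)))).add
    (n3_neg ((n3_Y 7).mono (D' := 1) (by omega) (le_refl _) (le_refl _)))).mono (le_refl _) (le_refl _) (by norm_num)

theorem n3_bwY (j : Fin 12) : Bd 1 1 3 (nY j) := (n3_Y j).mono (by omega) (by omega) (by norm_num)

theorem n3_adm_Y1 : N3Adm 1 0 1 4 (nY 9) :=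
  n3_adm_basic _ 1 0 1
    (fun k => by
      rw [n3E_k0]
      exact n3_ty_y D₁ _ _ _ (nY 0) (n3_Y 9) n3_D1Y9
        (by rw [map_add, Derivation.leibniz, n3_D1X0, n3_D1Y 0 (by decide) (by decide), n3_D1Y 1 (by decide) (by decide)]; simp)
        (n3_D1Y 0 (by decide) (by decide)) zser₁ n3_bw1 (n3_bwY 0) k)
    (fun k => by rw [n3E_0k]; exact n3_ty_y0 D₂ _ (n3_Y 9) (n3_D2Y 9 (by decide) (by decide)) k)
    (by
      rw [n3_D1Y9]
      simp only [map_add, Derivation.leibniz, n3_D2X0, n3_D2X1, n3_D2Y 0 (by decide) (by decide),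
        n3_D2Y 1 (by decide) (by decide), smul_zero, add_zero])

theorem n3_adm_Y2 : N3Adm 1 0 1 4 (nY 10) :=
  n3_adm_basic _ 1 0 1
    (fun k => by rw [n3E_k0]; exact n3_ty_y0 D₁ _ (n3_Y 10) (n3_D1Y 10 (by decide) (by decide)) k)
    (fun k => by
      rw [n3E_0k]
      exact n3_ty_y D₂ _ _ _ (nY 4) (n3_Y 10) n3_D2Y10
        (by rw [map_add, Derivation.leibniz, n3_D2X2, n3_D2Y 4 (by decide) (by decide), n3_D2Y 5 (by decide) (by decide)]; simp)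
        (n3_D2Y 4 (by decide) (by decide)) zser₂ n3_bw2 (n3_bwY 4) k)
    (by rw [n3_D1Y 10 (by decide) (by decide)]; exact map_zero _)

theorem n3_adm_Y3 : N3Adm 1 0 1 4 (nY 11) :=
  n3_adm_basic _ 1 0 1
    (fun k => by
      rw [n3E_k0]
      exact n3_ty_y D₁ _ _ _ (nY 2) (n3_Y 11) n3_D1Y11
        (by
          rw [map_add, map_add, map_neg, Derivation.leibniz, n3_D1X0, n3_D1Y 8 (by decide) (by decide),
            n3_D1Y 2 (by decide) (by decide), n3_D1Y 3 (by decide) (by decide)]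
          simp)
        (n3_D1Y 2 (by decide) (by decide)) zser₁ n3_bw3 (n3_bwY 2) k)
    (fun k => by
      rw [n3E_0k]
      exact n3_ty_y D₂ _ _ _ (-nY 6) (n3_Y 11) n3_D2Y11
        (by
          rw [map_sub, map_sub, Derivation.leibniz, n3_D2X2, n3_D2Y 6 (by decide) (by decide),
            n3_D2Y 7 (by decide) (by decide), Derivation.map_one_eq_zero]
          simp)
        (by rw [map_neg, n3_D2Y 6 (by decide) (by decide), neg_zero]) zser₂ n3_bw4 (n3_neg (n3_bwY 6)) k)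
    (by
      rw [n3_D1Y11]
      simp only [map_add, map_neg, Derivation.leibniz, n3_D2X0, n3_D2X1, n3_D2Y 2 (by decide) (by decide),
        n3_D2Y 3 (by decide) (by decide), n3_D2Y 8 (by decide) (by decide), smul_zero, add_zero, neg_zero])

/-- N3. PROOF. Write `E(p)_{r,s} = D₁^r D₂^s p/(r! s!)` (in `MvPolynomial _ ℚ`); Leibniz: `E(pq)_{r,s} = ∑_{i ≤ r, j ≤ s} E(p)_{i,j} E(q)_{r-i,s-j}`.
Polynomials of type `(n, m, D, l, H)` are sums of `g/(4^n ∏ K)`; admissible polynomials have Taylor coefficients of type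
`(r + s, m, D + 6 (r + s), l, h_{r,s} 512^{r+s})` with `∑ h_{r,s} ≤ M`; admissible polynomials are closed under products. -/
theorem taylor_int : ∃ C : ℕ, ∀ (P : Pr) (ν : ℕ × ℕ × ℕ × ℕ × ℕ), ν ∈ P.box → ∀ T r s : ℕ, r + s ≤ T →
    ∃ Ξ : PN, Bd (C * (P.L + T + P.l)) P.l (P.A ^ P.l * (C : ℝ) ^ (P.L + T + P.l) * den T P.l) Ξ ∧
      (den T P.l : ℤ) • (D₁^[r] (D₂^[s] (Qn P ν))) = ((r.factorial * s.factorial : ℕ) : ℤ) • Ξ := by
  refine ⟨512, ?_⟩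
  rintro P ⟨a, b, κ₁, κ₂, κ₃⟩ hν T r s hrs
  simp only [Pr.box, Finset.mem_product, Finset.mem_range] at hν
  obtain ⟨ha, hb, h1, h2, h3⟩ := hν
  have hA0 : (2 : ℝ) ≤ P.A := by
    unfold Pr.A
    have := abs_nonneg (P.a₁ : ℝ)
    have := abs_nonneg (P.a₂ : ℝ)
    have := abs_nonneg (P.b₁ : ℝ)
    have := abs_nonneg (P.b₂ : ℝ)
    linarith
  have hf1 : N3Adm 1 0 1 (4 * P.A) (nY 11) := n3_adm_Y3.mono (le_refl _) (le_refl _) (le_refl _) (by linarith)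
  have hf2 : N3Adm 1 0 1 (4 * P.A) (MvPolynomial.C P.b₂ * nY 9 - MvPolynomial.C P.b₁ * nY 10) := by
    have e1 : (MvPolynomial.C P.b₂ * nY 9 - MvPolynomial.C P.b₁ * nY 10 : PN) =
        MvPolynomial.C P.b₂ * nY 9 + MvPolynomial.C (-P.b₁) * nY 10 := by
      rw [map_neg]; ring
    rw [e1]
    have h4 := ((N3Adm.const P.b₂).mul n3_adm_Y1).add ((N3Adm.const (-P.b₁)).mul n3_adm_Y2)
    refine h4.mono (by omega) (by omega) (by omega) ?_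
    unfold Pr.A
    have := abs_nonneg (P.a₁ : ℝ)
    have := abs_nonneg (P.a₂ : ℝ)
    push_cast
    rw [abs_neg]
    linarith
  have hf3 : N3Adm 1 0 1 (4 * P.A) (MvPolynomial.C P.a₁ * nY 9 + MvPolynomial.C P.a₂ * nY 10) := by
    have h4 := ((N3Adm.const P.a₁).mul n3_adm_Y1).add ((N3Adm.const P.a₂).mul n3_adm_Y2)
    refine h4.mono (by omega) (by omega) (by omega) ?_
    unfold Pr.A
    have := abs_nonneg (P.b₁ : ℝ)
    have := abs_nonneg (P.b₂ : ℝ)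
    linarith
  have hQ : N3Adm P.l (2 * P.L) P.l (4 ^ (2 * P.L) * (4 * P.A) ^ P.l) (Qn P (a, b, κ₁, κ₂, κ₃)) := by
    have h5 := ((n3_adm_x1.pow a).mul (n3_adm_x2.pow b)).mul (((hf1.pow κ₁).mul (hf2.pow κ₂)).mul (hf3.pow κ₃))
    have hκ : κ₁ + κ₂ + κ₃ ≤ P.l := by unfold Pr.l; omega
    refine h5.mono (by omega) (by omega) (by omega) ?_
    have h6 : (4 : ℝ) ^ a * 4 ^ b ≤ 4 ^ (2 * P.L) := by
      rw [← pow_add]
      exact pow_le_pow_right₀ (by norm_num) (by omega)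
    have h7 : (4 * P.A) ^ κ₁ * (4 * P.A) ^ κ₂ * (4 * P.A) ^ κ₃ ≤ (4 * P.A) ^ P.l := by
      rw [← pow_add, ← pow_add]
      exact pow_le_pow_right₀ (by linarith) hκ
    exact mul_le_mul h6 h7 (by positivity) (by positivity)
  obtain ⟨f, hf0, hf, hfs⟩ := hQ
  have hle : f r s ≤ 4 ^ (2 * P.L) * (4 * P.A) ^ P.l := by
    refine le_trans ?_ (hfs (r + s + 1))
    refine le_trans ?_ (Finset.single_le_sum (f := fun i => ∑ j ∈ Finset.range (r + s + 1), f i j)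
      (fun i _ => Finset.sum_nonneg fun j _ => hf0 i j) (Finset.mem_range.2 (by omega : r < r + s + 1)))
    exact Finset.single_le_sum (f := fun j => f r j) (fun j _ => hf0 r j) (Finset.mem_range.2 (by omega : s < r + s + 1))
  obtain ⟨Ξ, hΞ, eΞ⟩ := (hf r s).clear T P.l hrs (le_refl _)
  refine ⟨Ξ, hΞ.mono (by nlinarith) (le_refl _) ?_, ?_⟩
  · refine mul_le_mul_of_nonneg_right ?_ (Nat.cast_nonneg _)
    have h8 : (512 : ℝ) ^ (r + s) ≤ 512 ^ T := pow_le_pow_right₀ (by norm_num) hrs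
    have h9 : (4 : ℝ) ^ (2 * P.L) = 16 ^ P.L := by
      rw [pow_mul]; norm_num
    have h10 : (16 : ℝ) ^ P.L ≤ 512 ^ P.L := pow_le_pow_left₀ (by norm_num) (by norm_num) _
    have h11 : (4 : ℝ) ^ P.l ≤ 512 ^ P.l := pow_le_pow_left₀ (by norm_num) (by norm_num) _
    have hA1 : 0 ≤ P.A ^ P.l := by positivity
    calc f r s * 512 ^ (r + s) ≤ (4 ^ (2 * P.L) * (4 * P.A) ^ P.l) * 512 ^ T :=
          mul_le_mul hle h8 (by positivity) (by positivity)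
      _ = P.A ^ P.l * (16 ^ P.L * 512 ^ T * 4 ^ P.l) := by
          rw [h9, mul_pow]; ring
      _ ≤ P.A ^ P.l * (512 ^ P.L * 512 ^ T * 512 ^ P.l) := by
          refine mul_le_mul_of_nonneg_left ?_ hA1
          exact mul_le_mul (mul_le_mul h10 (le_refl _) (by positivity) (by positivity)) h11 (by positivity) (by positivity)
      _ = P.A ^ P.l * ((512 : ℕ) : ℝ) ^ (P.L + T + P.l) := by
          rw [pow_add, pow_add]; push_cast; ring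
  · refine n3φ_inj ?_
    rw [n3φ_zsmul, n3φ_zsmul, ← eΞ]
    unfold n3E
    have hr0 : (r.factorial : ℚ) ≠ 0 := by positivity
    have hs0 : (s.factorial : ℚ) ≠ 0 := by positivity
    have h12 : n3C ((((r.factorial * s.factorial : ℕ) : ℤ) : ℚ)) * n3C (((r.factorial : ℚ) * (s.factorial : ℚ))⁻¹) = 1 := by
      unfold n3C
      rw [← map_mul, ← map_one MvPolynomial.C]
      congr 1
      push_cast
      field_simp
    have h13 : n3C (((den T P.l : ℤ)) : ℚ) = n3C (den T P.l : ℚ) := by push_cast; rfl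
    rw [h13]
    linear_combination (-(n3C (den T P.l : ℚ) * n3φ (D₁^[r] (D₂^[s] (Qn P (a, b, κ₁, κ₂, κ₃)))))) * h12

end Pool.Agent.MSN
end

end

section

/-! # N4: values and derivatives (MP_f58a57_nt, algebraic invariants) -/

open Complex Filter Topology

noncomputable section

namespace Pool.Agent.MSN

open Pool.Agent.MSP

/-- values of the `inl` variables -/
def vAn (τ₁ τ₂ Ω₁ Ω₂ t w : ℂ) : Fin 6 → ℂ :=
  ![wp τ₁ (sE τ₁) t / (Real.pi * Ω₁) ^ 2, (Real.pi * Ω₁) ^ 3 / deriv (wp τ₁ (sE τ₁)) t,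
    wp τ₂ (sE τ₂) w / (Real.pi * Ω₂) ^ 2, (Real.pi * Ω₂) ^ 3 / deriv (wp τ₂ (sE τ₂)) w,
    2 / 3 * (MSD.e4 τ₁ / Ω₁ ^ 4), 2 / 3 * (MSD.e4 τ₂ / Ω₂ ^ 4)]

/-- values of the `inr` variables -/
def vBn (τ₁ τ₂ Ω₁ Ω₂ t w : ℂ) : Fin 12 → ℂ :=
  ![Real.pi * Ω₁ * Ω₂ / (2 * I), Real.pi * Ω₁ * Ω₂ / (2 * I) * (MSD.e2 τ₁ / (3 * Ω₁ ^ 2)),
    τ₁ * (Real.pi * Ω₁ * Ω₂ / (2 * I)), τ₁ * (Real.pi * Ω₁ * Ω₂ / (2 * I) * (MSD.e2 τ₁ / (3 * Ω₁ ^ 2))),
    Real.pi * Ω₂ ^ 2 / (2 * I), Real.pi * Ω₂ ^ 2 / (2 * I) * (MSD.e2 τ₂ / (3 * Ω₂ ^ 2)),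
    τ₂ * (Real.pi * Ω₂ ^ 2 / (2 * I)), τ₂ * (Real.pi * Ω₂ ^ 2 / (2 * I) * (MSD.e2 τ₂ / (3 * Ω₂ ^ 2))), Ω₂ / Ω₁,
    -(Ω₂ * ph τ₁ t / (2 * I)), -(Ω₂ * ph τ₂ w / (2 * I)),
    Real.pi * Ω₂ * (w - t) - τ₂ * (-(Ω₂ * ph τ₂ w / (2 * I))) + τ₁ * (-(Ω₂ * ph τ₁ t / (2 * I)))]

/-- evaluation at `(t, w)` -/
def evn (τ₁ τ₂ Ω₁ Ω₂ t w : ℂ) (p : PN) : ℂ :=
  MvPolynomial.aeval (Sum.elim (vAn τ₁ τ₂ Ω₁ Ω₂ t w) (vBn τ₁ τ₂ Ω₁ Ω₂ t w)) p

/-- the derivative of the local parameter -/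
def gn (τ Ω t : ℂ) : ℂ := deriv (wp τ (sE τ)) t / (Real.pi * Ω) ^ 2

/-- general principle: a derivation and the derivative of the variables -/
theorem n4_main (val : ℂ → Fin 6 ⊕ Fin 12 → ℂ) (f : Fin 6 ⊕ Fin 12 → PN) (c t : ℂ)
    (h : ∀ v, HasDerivAt (fun t' => val t' v) (c * MvPolynomial.aeval (val t) (f v)) t) (p : PN) :
    HasDerivAt (fun t' => MvPolynomial.aeval (val t') p)
      (c * MvPolynomial.aeval (val t) (MvPolynomial.mkDerivation ℤ f p)) t := by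
  induction p using MvPolynomial.induction_on with
  | C a =>
    have e1 : (fun t' => MvPolynomial.aeval (val t') (MvPolynomial.C a : PN)) = fun _ => ((a : ℤ) : ℂ) := by
      funext t'
      rw [MvPolynomial.aeval_C]
      simp
    rw [e1, ← MvPolynomial.algebraMap_eq, Derivation.map_algebraMap, map_zero, mul_zero]
    exact hasDerivAt_const t _
  | add p q hp hq =>
    have e1 : (fun t' => MvPolynomial.aeval (val t') (p + q)) =
        fun t' => MvPolynomial.aeval (val t') p + MvPolynomial.aeval (val t') q := by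
      funext t'
      rw [map_add]
    rw [e1, map_add, map_add, mul_add]
    exact hp.add hq
  | mul_X p v hp =>
    have e1 : (fun t' => MvPolynomial.aeval (val t') (p * MvPolynomial.X v)) =
        fun t' => MvPolynomial.aeval (val t') p * val t' v := by
      funext t'
      rw [map_mul, MvPolynomial.aeval_X]
    rw [e1, Derivation.leibniz, MvPolynomial.mkDerivation_X, map_add, smul_eq_mul, smul_eq_mul, map_mul, map_mul,
      MvPolynomial.aeval_X]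
    have h3 := hp.fun_mul (h v)
    have e2 : c * (MvPolynomial.aeval (val t) p * MvPolynomial.aeval (val t) (f v) +
        val t v * MvPolynomial.aeval (val t) (MvPolynomial.mkDerivation ℤ f p)) =
        c * MvPolynomial.aeval (val t) (MvPolynomial.mkDerivation ℤ f p) * val t v +
        MvPolynomial.aeval (val t) p * (c * MvPolynomial.aeval (val t) (f v)) := by ring
    rw [e2]
    exact h3

theorem n4_wp (τ Ω : ℂ) (hτ : 0 < τ.im) (t : ℂ) (ht : th τ t ≠ 0) :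
    HasDerivAt (fun t' => wp τ (sE τ) t' / (Real.pi * Ω) ^ 2) (gn τ Ω t) t :=
  (wp_analyticAt τ (sE τ) hτ t ht).differentiableAt.hasDerivAt.div_const ((Real.pi * Ω) ^ 2)

theorem n4_z (τ Ω : ℂ) (hτ : 0 < τ.im) (hΩ : Ω ≠ 0) (t : ℂ) (ht : th τ t ≠ 0)
    (ht' : deriv (wp τ (sE τ)) t ≠ 0) :
    HasDerivAt (fun t' => (Real.pi * Ω) ^ 3 / deriv (wp τ (sE τ)) t')
      (gn τ Ω t * -(((Real.pi * Ω) ^ 3 / deriv (wp τ (sE τ)) t) ^ 3 *
        (6 * (wp τ (sE τ) t / (Real.pi * Ω) ^ 2) ^ 2 - 2 / 3 * (MSD.e4 τ / Ω ^ 4)))) t := by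
  have hpi : (Real.pi : ℂ) ≠ 0 := by exact_mod_cast Real.pi_ne_zero
  have h := ((wp_ode2 τ hτ t ht).fun_inv ht').const_mul ((Real.pi * Ω) ^ 3)
  have e : gn τ Ω t * -(((Real.pi * Ω) ^ 3 / deriv (wp τ (sE τ)) t) ^ 3 *
        (6 * (wp τ (sE τ) t / (Real.pi * Ω) ^ 2) ^ 2 - 2 / 3 * (MSD.e4 τ / Ω ^ 4))) =
      (Real.pi * Ω) ^ 3 * (-(6 * wp τ (sE τ) t ^ 2 - 2 / 3 * Real.pi ^ 4 * MSD.e4 τ) /
        deriv (wp τ (sE τ)) t ^ 2) := by
    unfold gn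
    field_simp
  rw [e]
  simp only [div_eq_mul_inv] at h ⊢
  exact h

theorem n4_gz (τ Ω : ℂ) (hΩ : Ω ≠ 0) (t : ℂ) (ht' : deriv (wp τ (sE τ)) t ≠ 0) :
    gn τ Ω t * ((Real.pi * Ω) ^ 3 / deriv (wp τ (sE τ)) t) = Real.pi * Ω := by
  have hpi : (Real.pi : ℂ) ≠ 0 := by exact_mod_cast Real.pi_ne_zero
  unfold gn
  field_simp

/-- N4a. PROOF. As `hasDerivAt_ev_left` (A3_Eval): induction on `p`; the variables: `∂_t x₁ = g`, `g = wp₁'/(πΩ₁)²`; `∂_t z₁ = -(πΩ₁)³ wp₁''/wp₁'²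
= g · (-(z₁³ (6x₁² - h₁)))` with `wp₁'' = 6wp₁² - (2/3)π⁴e4 = (πΩ₁)⁴(6x₁² - h₁)`; `∂_t Y₁ = (Ω₂/(2I)) (wp₁ + (π²/3) e2 τ₁) = g z₁ (κ₁x₁ + κ₁s₁)` since
`g z₁ = πΩ₁`; `∂_t Y₃ = -πΩ₂ + τ₁ ∂_t Y₁ = g z₁ (-c + τ₁κ₁x₁ + τ₁κ₁s₁)`. -/
theorem hasDerivAt_evn_left (τ₁ τ₂ Ω₁ Ω₂ : ℂ) (h1 : 0 < τ₁.im) (hΩ₁ : Ω₁ ≠ 0) (hΩ₂ : Ω₂ ≠ 0) (t w : ℂ)
    (ht : N0 τ₁ t ≠ 0) (ht' : deriv (wp τ₁ (sE τ₁)) t ≠ 0) (p : PN) :
    HasDerivAt (fun t' => evn τ₁ τ₂ Ω₁ Ω₂ t' w p) (gn τ₁ Ω₁ t * evn τ₁ τ₂ Ω₁ Ω₂ t w (D₁ p)) t := by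
  have hpi : (Real.pi : ℂ) ≠ 0 := by exact_mod_cast Real.pi_ne_zero
  have hth : th τ₁ t ≠ 0 := ht
  refine n4_main (fun t' => Sum.elim (vAn τ₁ τ₂ Ω₁ Ω₂ t' w) (vBn τ₁ τ₂ Ω₁ Ω₂ t' w)) _ _ t ?_ p
  have hph := a3_ph τ₁ Ω₂ h1 t hth
  have hg := n4_gz τ₁ Ω₁ hΩ₁ t ht'
  have hkey : Ω₂ * (wp τ₁ (sE τ₁) t + sE τ₁) / (2 * I) =
      gn τ₁ Ω₁ t * ((Real.pi * Ω₁) ^ 3 / deriv (wp τ₁ (sE τ₁)) t *
        (Real.pi * Ω₁ * Ω₂ / (2 * I) * (wp τ₁ (sE τ₁) t / (Real.pi * Ω₁) ^ 2) +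
        Real.pi * Ω₁ * Ω₂ / (2 * I) * (MSD.e2 τ₁ / (3 * Ω₁ ^ 2)))) := by
    rw [← mul_assoc, hg]
    unfold sE
    field_simp
  intro v
  rcases v with i | j
  · fin_cases i
    · simpa [vAn, nX, MvPolynomial.aeval_X] using n4_wp τ₁ Ω₁ h1 t hth
    · simpa [vAn, nX, MvPolynomial.aeval_X] using n4_z τ₁ Ω₁ h1 hΩ₁ t hth ht'
    all_goals simpa [vAn] using hasDerivAt_const t _
  · fin_cases j
    · simpa [vBn] using hasDerivAt_const t _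
    · simpa [vBn] using hasDerivAt_const t _
    · simpa [vBn] using hasDerivAt_const t _
    · simpa [vBn] using hasDerivAt_const t _
    · simpa [vBn] using hasDerivAt_const t _
    · simpa [vBn] using hasDerivAt_const t _
    · simpa [vBn] using hasDerivAt_const t _
    · simpa [vBn] using hasDerivAt_const t _
    · simpa [vBn] using hasDerivAt_const t _
    · rw [hkey] at hph
      simpa [vAn, vBn, nX, nY, MvPolynomial.aeval_X] using hph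
    · simpa [vBn] using hasDerivAt_const t _
    · have h3 := (((hasDerivAt_id t).const_sub w).const_mul (Real.pi * Ω₂)).sub_const (τ₂ * (-(Ω₂ * ph τ₂ w / (2 * I))))
      have h4 := h3.fun_add (hph.const_mul τ₁)
      have e : Real.pi * Ω₂ * -1 + τ₁ * (Ω₂ * (wp τ₁ (sE τ₁) t + sE τ₁) / (2 * I)) =
          gn τ₁ Ω₁ t * ((Real.pi * Ω₁) ^ 3 / deriv (wp τ₁ (sE τ₁)) t *
            (-(Ω₂ / Ω₁) + τ₁ * (Real.pi * Ω₁ * Ω₂ / (2 * I)) * (wp τ₁ (sE τ₁) t / (Real.pi * Ω₁) ^ 2) +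
            τ₁ * (Real.pi * Ω₁ * Ω₂ / (2 * I) * (MSD.e2 τ₁ / (3 * Ω₁ ^ 2))))) := by
        rw [← mul_assoc, hg]
        unfold sE
        field_simp
        ring
      rw [e] at h4
      simpa [vAn, vBn, nX, nY, MvPolynomial.aeval_X] using h4

theorem hasDerivAt_evn_right (τ₁ τ₂ Ω₁ Ω₂ : ℂ) (h2 : 0 < τ₂.im) (hΩ₁ : Ω₁ ≠ 0) (hΩ₂ : Ω₂ ≠ 0) (t w : ℂ)
    (hw : N0 τ₂ w ≠ 0) (hw' : deriv (wp τ₂ (sE τ₂)) w ≠ 0) (p : PN) :
    HasDerivAt (fun w' => evn τ₁ τ₂ Ω₁ Ω₂ t w' p) (gn τ₂ Ω₂ w * evn τ₁ τ₂ Ω₁ Ω₂ t w (D₂ p)) w := by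
  have hpi : (Real.pi : ℂ) ≠ 0 := by exact_mod_cast Real.pi_ne_zero
  have hth : th τ₂ w ≠ 0 := hw
  refine n4_main (fun w' => Sum.elim (vAn τ₁ τ₂ Ω₁ Ω₂ t w') (vBn τ₁ τ₂ Ω₁ Ω₂ t w')) _ _ w ?_ p
  have hph := a3_ph τ₂ Ω₂ h2 w hth
  have hg := n4_gz τ₂ Ω₂ hΩ₂ w hw'
  have hkey : Ω₂ * (wp τ₂ (sE τ₂) w + sE τ₂) / (2 * I) =
      gn τ₂ Ω₂ w * ((Real.pi * Ω₂) ^ 3 / deriv (wp τ₂ (sE τ₂)) w *
        (Real.pi * Ω₂ ^ 2 / (2 * I) * (wp τ₂ (sE τ₂) w / (Real.pi * Ω₂) ^ 2) +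
        Real.pi * Ω₂ ^ 2 / (2 * I) * (MSD.e2 τ₂ / (3 * Ω₂ ^ 2)))) := by
    rw [← mul_assoc, hg]
    unfold sE
    field_simp
  intro v
  rcases v with i | j
  · fin_cases i
    · simpa [vAn] using hasDerivAt_const w _
    · simpa [vAn] using hasDerivAt_const w _
    · simpa [vAn, nX, MvPolynomial.aeval_X] using n4_wp τ₂ Ω₂ h2 w hth
    · simpa [vAn, nX, MvPolynomial.aeval_X] using n4_z τ₂ Ω₂ h2 hΩ₂ w hth hw'
    all_goals simpa [vAn] using hasDerivAt_const w _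
  · fin_cases j
    · simpa [vBn] using hasDerivAt_const w _
    · simpa [vBn] using hasDerivAt_const w _
    · simpa [vBn] using hasDerivAt_const w _
    · simpa [vBn] using hasDerivAt_const w _
    · simpa [vBn] using hasDerivAt_const w _
    · simpa [vBn] using hasDerivAt_const w _
    · simpa [vBn] using hasDerivAt_const w _
    · simpa [vBn] using hasDerivAt_const w _
    · simpa [vBn] using hasDerivAt_const w _
    · simpa [vBn] using hasDerivAt_const w _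
    · rw [hkey] at hph
      simpa [vAn, vBn, nX, nY, MvPolynomial.aeval_X] using hph
    · have h3 := (((hasDerivAt_id w).sub_const t).const_mul (Real.pi * Ω₂)).fun_sub (hph.const_mul τ₂)
      have h4 := h3.add_const (τ₁ * (-(Ω₂ * ph τ₁ t / (2 * I))))
      have e : Real.pi * Ω₂ * 1 - τ₂ * (Ω₂ * (wp τ₂ (sE τ₂) w + sE τ₂) / (2 * I)) =
          gn τ₂ Ω₂ w * ((Real.pi * Ω₂) ^ 3 / deriv (wp τ₂ (sE τ₂)) w *
            (1 - τ₂ * (Real.pi * Ω₂ ^ 2 / (2 * I)) * (wp τ₂ (sE τ₂) w / (Real.pi * Ω₂) ^ 2) -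
            τ₂ * (Real.pi * Ω₂ ^ 2 / (2 * I) * (MSD.e2 τ₂ / (3 * Ω₂ ^ 2))))) := by
        rw [← mul_assoc, hg]
        unfold sE
        field_simp
        ring
      rw [e] at h4
      simpa [vAn, vBn, nX, nY, MvPolynomial.aeval_X] using h4

/-- N4b. the functions `evn p` are analytic near `(t, w)` (needed for finite sums of derivatives). -/
theorem evn_an2 (τ₁ τ₂ Ω₁ Ω₂ : ℂ) (h1 : 0 < τ₁.im) (h2 : 0 < τ₂.im) (t w : ℂ)
    (ht : N0 τ₁ t ≠ 0) (ht' : deriv (wp τ₁ (sE τ₁)) t ≠ 0) (hw : N0 τ₂ w ≠ 0) (hw' : deriv (wp τ₂ (sE τ₂)) w ≠ 0) (p : PN) :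
    An2 (fun t' w' => evn τ₁ τ₂ Ω₁ Ω₂ t' w' p) t w := by
  have a1 : AnalyticAt ℂ (fun q : ℂ × ℂ => q.1) (t, w) := analyticAt_fst
  have a2 : AnalyticAt ℂ (fun q : ℂ × ℂ => q.2) (t, w) := analyticAt_snd
  have w1 : AnalyticAt ℂ (fun q : ℂ × ℂ => wp τ₁ (sE τ₁) q.1) (t, w) :=
    (wp_analyticAt τ₁ (sE τ₁) h1 t ht).comp_of_eq a1 rfl
  have w2 : AnalyticAt ℂ (fun q : ℂ × ℂ => wp τ₂ (sE τ₂) q.2) (t, w) :=
    (wp_analyticAt τ₂ (sE τ₂) h2 w hw).comp_of_eq a2 rfl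
  have d1 : AnalyticAt ℂ (fun q : ℂ × ℂ => deriv (wp τ₁ (sE τ₁)) q.1) (t, w) :=
    (wp_analyticAt τ₁ (sE τ₁) h1 t ht).deriv.comp_of_eq a1 rfl
  have d2 : AnalyticAt ℂ (fun q : ℂ × ℂ => deriv (wp τ₂ (sE τ₂)) q.2) (t, w) :=
    (wp_analyticAt τ₂ (sE τ₂) h2 w hw).deriv.comp_of_eq a2 rfl
  have z1 : AnalyticAt ℂ (fun q : ℂ × ℂ => (deriv (wp τ₁ (sE τ₁)) q.1)⁻¹) (t, w) := d1.inv ht'
  have z2 : AnalyticAt ℂ (fun q : ℂ × ℂ => (deriv (wp τ₂ (sE τ₂)) q.2)⁻¹) (t, w) := d2.inv hw'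
  have p1 : AnalyticAt ℂ (fun q : ℂ × ℂ => ph τ₁ q.1) (t, w) :=
    (ph_analyticAt τ₁ h1 t ht).comp_of_eq a1 rfl
  have p2 : AnalyticAt ℂ (fun q : ℂ × ℂ => ph τ₂ q.2) (t, w) :=
    (ph_analyticAt τ₂ h2 w hw).comp_of_eq a2 rfl
  have q1 : AnalyticAt ℂ (fun q : ℂ × ℂ => -(Ω₂ * ph τ₁ q.1 / (2 * I))) (t, w) := by
    simp only [div_eq_mul_inv]
    exact ((analyticAt_const.mul p1).mul analyticAt_const).neg
  have q2 : AnalyticAt ℂ (fun q : ℂ × ℂ => -(Ω₂ * ph τ₂ q.2 / (2 * I))) (t, w) := by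
    simp only [div_eq_mul_inv]
    exact ((analyticAt_const.mul p2).mul analyticAt_const).neg
  unfold An2 evn
  refine AnalyticAt.aeval_mvPolynomial (fun i => ?_) p
  rcases i with i | j
  · simp only [Sum.elim_inl, vAn]
    fin_cases i
    · simp only [Fin.zero_eta, Matrix.cons_val_zero, div_eq_mul_inv]
      exact w1.mul analyticAt_const
    · simp only [Fin.mk_one, Matrix.cons_val_one, Matrix.cons_val_zero, div_eq_mul_inv]
      exact analyticAt_const.mul z1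
    · simp only [Fin.reduceFinMk, Matrix.cons_val, div_eq_mul_inv]
      exact w2.mul analyticAt_const
    · simp only [Fin.reduceFinMk, Matrix.cons_val, div_eq_mul_inv]
      exact analyticAt_const.mul z2
    all_goals
      simp only [Fin.reduceFinMk, Matrix.cons_val]
      exact analyticAt_const
  · simp only [Sum.elim_inr, vBn]
    fin_cases j
    · simp only [Fin.zero_eta, Matrix.cons_val_zero]
      exact analyticAt_const
    · simp only [Fin.mk_one, Matrix.cons_val_one, Matrix.cons_val_zero]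
      exact analyticAt_const
    · simp only [Fin.reduceFinMk, Matrix.cons_val]
      exact analyticAt_const
    · simp only [Fin.reduceFinMk, Matrix.cons_val]
      exact analyticAt_const
    · simp only [Fin.reduceFinMk, Matrix.cons_val]
      exact analyticAt_const
    · simp only [Fin.reduceFinMk, Matrix.cons_val]
      exact analyticAt_const
    · simp only [Fin.reduceFinMk, Matrix.cons_val]
      exact analyticAt_const
    · simp only [Fin.reduceFinMk, Matrix.cons_val]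
      exact analyticAt_const
    · simp only [Fin.reduceFinMk, Matrix.cons_val]
      exact analyticAt_const
    · simp only [Fin.reduceFinMk, Matrix.cons_val]
      exact q1
    · simp only [Fin.reduceFinMk, Matrix.cons_val]
      exact q2
    · simp only [Fin.reduceFinMk, Matrix.cons_val]
      exact ((analyticAt_const.mul (a2.sub a1)).sub (analyticAt_const.mul q2)).add (analyticAt_const.mul q1)

end Pool.Agent.MSN
end

end

section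

/-! # N5: triangular relation between the two kinds of derivatives (MP_f58a57_nt, algebraic invariants) -/

open Complex Filter Topology

noncomputable section

namespace Pool.Agent.MSN

open Pool.Agent.MSP

variable {ι : Type} [Fintype ι]

/-- a finite linear combination of the functions `evn p` -/
def lin (τ₁ τ₂ Ω₁ Ω₂ : ℂ) (c : ι → ℂ) (p : ι → PN) (t w : ℂ) : ℂ := ∑ ν, c ν * evn τ₁ τ₂ Ω₁ Ω₂ t w (p ν)

/-- the triangular coefficients: `(d/dx)^s = ∑ (n5_tri g s i) D^i` for `d/dx = g D` -/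
def n5_tri (g : ℂ → ℂ) : ℕ → ℕ → ℂ → ℂ
  | 0, 0 => fun _ => 1
  | 0, _ + 1 => fun _ => 0
  | s + 1, 0 => deriv (n5_tri g s 0)
  | s + 1, i + 1 => fun x => deriv (n5_tri g s (i + 1)) x + g x * n5_tri g s i x

theorem n5_tri_zero (g : ℂ → ℂ) (s : ℕ) : ∀ i, s < i → n5_tri g s i = fun _ => 0 := by
  induction s with
  | zero =>
    intro i hi
    cases i with
    | zero => omega
    | succ i => rfl
  | succ s ih =>
    intro i hi
    cases i with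
    | zero => omega
    | succ i =>
      funext x
      simp only [n5_tri]
      rw [ih (i + 1) (by omega), ih i (by omega)]
      simp

theorem n5_tri_self (g : ℂ → ℂ) (s : ℕ) (x : ℂ) : n5_tri g s s x = g x ^ s := by
  induction s with
  | zero => simp [n5_tri]
  | succ s ih =>
    simp only [n5_tri]
    rw [n5_tri_zero g s (s + 1) (by omega), ih]
    simp [pow_succ, mul_comm]

theorem n5_tri_an (g : ℂ → ℂ) (U : Set ℂ) (hg : AnalyticOnNhd ℂ g U) (s : ℕ) :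
    ∀ i, AnalyticOnNhd ℂ (n5_tri g s i) U := by
  induction s with
  | zero =>
    intro i
    cases i with
    | zero => exact fun x _ => analyticAt_const
    | succ i => exact fun x _ => analyticAt_const
  | succ s ih =>
    intro i
    cases i with
    | zero => exact fun x hx => (ih 0 x hx).deriv
    | succ i => exact fun x hx => (ih (i + 1) x hx).deriv.add ((hg x hx).mul (ih i x hx))

theorem n5_iter (g : ℂ → ℂ) (U : Set ℂ) (hU : IsOpen U) (hg : AnalyticOnNhd ℂ g U) (H : ℕ → ℂ → ℂ)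
    (hH : ∀ i, ∀ x ∈ U, HasDerivAt (H i) (g x * H (i + 1) x) x) (s : ℕ) :
    ∀ x ∈ U, iteratedDeriv s (H 0) x = ∑ i ∈ Finset.range (s + 1), n5_tri g s i x * H i x := by
  induction s with
  | zero => intro x _; simp [n5_tri]
  | succ s ih =>
    intro x hx
    rw [iteratedDeriv_succ]
    have he : iteratedDeriv s (H 0) =ᶠ[𝓝 x]
        fun x => ∑ i ∈ Finset.range (s + 1), n5_tri g s i x * H i x := by
      filter_upwards [hU.mem_nhds hx] with u hu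
      exact ih u hu
    have hd : HasDerivAt (fun x => ∑ i ∈ Finset.range (s + 1), n5_tri g s i x * H i x)
        (∑ i ∈ Finset.range (s + 1), (deriv (n5_tri g s i) x * H i x + n5_tri g s i x * (g x * H (i + 1) x))) x := by
      apply HasDerivAt.fun_sum
      intro i _
      exact ((n5_tri_an g U hg s i x hx).differentiableAt.hasDerivAt).mul (hH i x hx)
    rw [he.deriv_eq, hd.deriv, Finset.sum_add_distrib, Finset.sum_range_succ' (fun i => n5_tri g (s + 1) i x * H i x)]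
    have e1 : ∑ i ∈ Finset.range (s + 1), deriv (n5_tri g s i) x * H i x =
        ∑ i ∈ Finset.range (s + 1), deriv (n5_tri g s (i + 1)) x * H (i + 1) x + deriv (n5_tri g s 0) x * H 0 x := by
      have h1 : ∑ i ∈ Finset.range (s + 1 + 1), deriv (n5_tri g s i) x * H i x =
          ∑ i ∈ Finset.range (s + 1), deriv (n5_tri g s i) x * H i x := by
        rw [Finset.sum_range_succ, n5_tri_zero g s (s + 1) (by omega)]
        simp
      rw [← h1, Finset.sum_range_succ']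
    rw [e1]
    have e2 : ∑ i ∈ Finset.range (s + 1), n5_tri g (s + 1) (i + 1) x * H (i + 1) x =
        ∑ i ∈ Finset.range (s + 1), deriv (n5_tri g s (i + 1)) x * H (i + 1) x +
        ∑ i ∈ Finset.range (s + 1), n5_tri g s i x * (g x * H (i + 1) x) := by
      rw [← Finset.sum_add_distrib]
      refine Finset.sum_congr rfl fun i _ => ?_
      simp only [n5_tri]
      ring
    rw [e2]
    simp only [n5_tri]
    ring

/-- the open set of good points -/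
def n5_U (τ : ℂ) : Set ℂ := {t | N0 τ t ≠ 0 ∧ deriv (wp τ (sE τ)) t ≠ 0}

theorem n5_open (τ : ℂ) (hτ : 0 < τ.im) : IsOpen (n5_U τ) := by
  have h1 : IsOpen {t : ℂ | N0 τ t ≠ 0} := a3_open τ hτ
  have h2 : ContinuousOn (deriv (wp τ (sE τ))) {t : ℂ | N0 τ t ≠ 0} := fun t ht =>
    (wp_analyticAt τ (sE τ) hτ t ht).deriv.continuousAt.continuousWithinAt
  exact h2.isOpen_inter_preimage h1 isOpen_compl_singleton

theorem n5_gn_an (τ Ω : ℂ) (hτ : 0 < τ.im) : AnalyticOnNhd ℂ (gn τ Ω) (n5_U τ) := by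
  intro t ht
  have h := (wp_analyticAt τ (sE τ) hτ t ht.1).deriv.mul (analyticAt_const (v := ((Real.pi * Ω : ℂ) ^ 2)⁻¹))
  refine h.congr ?_
  filter_upwards with x
  simp [gn, div_eq_mul_inv]

theorem n5_lin_left (τ₁ τ₂ Ω₁ Ω₂ : ℂ) (h1 : 0 < τ₁.im) (hΩ₁ : Ω₁ ≠ 0) (hΩ₂ : Ω₂ ≠ 0) (w : ℂ)
    (c : ι → ℂ) (p : ι → PN) (t : ℂ) (ht : t ∈ n5_U τ₁) :
    HasDerivAt (fun t' => lin τ₁ τ₂ Ω₁ Ω₂ c p t' w)
      (gn τ₁ Ω₁ t * lin τ₁ τ₂ Ω₁ Ω₂ c (fun ν => D₁ (p ν)) t w) t := by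
  unfold lin
  rw [Finset.mul_sum]
  apply HasDerivAt.fun_sum
  intro ν _
  have h := (hasDerivAt_evn_left τ₁ τ₂ Ω₁ Ω₂ h1 hΩ₁ hΩ₂ t w ht.1 ht.2 (p ν)).const_mul (c ν)
  refine h.congr_deriv ?_
  ring

theorem n5_lin_right (τ₁ τ₂ Ω₁ Ω₂ : ℂ) (h2 : 0 < τ₂.im) (hΩ₁ : Ω₁ ≠ 0) (hΩ₂ : Ω₂ ≠ 0) (t : ℂ)
    (c : ι → ℂ) (p : ι → PN) (w : ℂ) (hw : w ∈ n5_U τ₂) :
    HasDerivAt (fun w' => lin τ₁ τ₂ Ω₁ Ω₂ c p t w')
      (gn τ₂ Ω₂ w * lin τ₁ τ₂ Ω₁ Ω₂ c (fun ν => D₂ (p ν)) t w) w := by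
  unfold lin
  rw [Finset.mul_sum]
  apply HasDerivAt.fun_sum
  intro ν _
  have h := (hasDerivAt_evn_right τ₁ τ₂ Ω₁ Ω₂ h2 hΩ₁ hΩ₂ t w hw.1 hw.2 (p ν)).const_mul (c ν)
  refine h.congr_deriv ?_
  ring

/-- the triangular formula -/
theorem n5_dd (τ₁ τ₂ Ω₁ Ω₂ : ℂ) (h1 : 0 < τ₁.im) (h2 : 0 < τ₂.im) (hΩ₁ : Ω₁ ≠ 0) (hΩ₂ : Ω₂ ≠ 0) (t w : ℂ)
    (ht : N0 τ₁ t ≠ 0) (ht' : deriv (wp τ₁ (sE τ₁)) t ≠ 0) (hw : N0 τ₂ w ≠ 0) (hw' : deriv (wp τ₂ (sE τ₂)) w ≠ 0)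
    (c : ι → ℂ) (p : ι → PN) (r s : ℕ) :
    dd r s (lin τ₁ τ₂ Ω₁ Ω₂ c p) t w =
      ∑ i ∈ Finset.range (r + 1), ∑ j ∈ Finset.range (s + 1), n5_tri (gn τ₁ Ω₁) r i t * n5_tri (gn τ₂ Ω₂) s j w *
        lin τ₁ τ₂ Ω₁ Ω₂ c (fun ν => D₁^[i] (D₂^[j] (p ν))) t w := by
  have hwU : w ∈ n5_U τ₂ := ⟨hw, hw'⟩
  have htU : t ∈ n5_U τ₁ := ⟨ht, ht'⟩
  have hin : ∀ t' : ℂ, iteratedDeriv s (lin τ₁ τ₂ Ω₁ Ω₂ c p t') w =
      ∑ j ∈ Finset.range (s + 1), n5_tri (gn τ₂ Ω₂) s j w * lin τ₁ τ₂ Ω₁ Ω₂ c (fun ν => D₂^[j] (p ν)) t' w := by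
    intro t'
    refine n5_iter (gn τ₂ Ω₂) (n5_U τ₂) (n5_open τ₂ h2) (n5_gn_an τ₂ Ω₂ h2)
      (fun j w' => lin τ₁ τ₂ Ω₁ Ω₂ c (fun ν => D₂^[j] (p ν)) t' w') ?_ s w hwU
    intro j w' hw'
    have h := n5_lin_right τ₁ τ₂ Ω₁ Ω₂ h2 hΩ₁ hΩ₂ t' c (fun ν => D₂^[j] (p ν)) w' hw'
    simp only [Function.iterate_succ_apply']
    exact h
  unfold dd
  have e1 : (fun t' => iteratedDeriv s (lin τ₁ τ₂ Ω₁ Ω₂ c p t') w) = fun t' =>
      ∑ j ∈ Finset.range (s + 1), n5_tri (gn τ₂ Ω₂) s j w * lin τ₁ τ₂ Ω₁ Ω₂ c (fun ν => D₂^[j] (p ν)) t' w := by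
    funext t'
    exact hin t'
  rw [e1]
  have hout := n5_iter (gn τ₁ Ω₁) (n5_U τ₁) (n5_open τ₁ h1) (n5_gn_an τ₁ Ω₁ h1)
    (fun i t' => ∑ j ∈ Finset.range (s + 1), n5_tri (gn τ₂ Ω₂) s j w *
      lin τ₁ τ₂ Ω₁ Ω₂ c (fun ν => D₁^[i] (D₂^[j] (p ν))) t' w) ?_ r t htU
  · simp only [Function.iterate_zero, id_eq] at hout
    rw [hout]
    refine Finset.sum_congr rfl fun i _ => ?_
    rw [Finset.mul_sum]
    refine Finset.sum_congr rfl fun j _ => ?_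
    ring
  · intro i t' ht'
    have h : HasDerivAt (fun t' => ∑ j ∈ Finset.range (s + 1), n5_tri (gn τ₂ Ω₂) s j w *
      lin τ₁ τ₂ Ω₁ Ω₂ c (fun ν => D₁^[i] (D₂^[j] (p ν))) t' w)
      (∑ j ∈ Finset.range (s + 1), n5_tri (gn τ₂ Ω₂) s j w *
        (gn τ₁ Ω₁ t' * lin τ₁ τ₂ Ω₁ Ω₂ c (fun ν => D₁ (D₁^[i] (D₂^[j] (p ν)))) t' w)) t' := by
      apply HasDerivAt.fun_sum
      intro j _
      exact (n5_lin_left τ₁ τ₂ Ω₁ Ω₂ h1 hΩ₁ hΩ₂ w c (fun ν => D₁^[i] (D₂^[j] (p ν))) t' ht').const_mul _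
    refine h.congr_deriv ?_
    rw [Finset.mul_sum]
    refine Finset.sum_congr rfl fun j _ => ?_
    simp only [Function.iterate_succ_apply']
    ring

/-- N5a. PROOF. With `g_i = gn τ_i Ω_i` (analytic, nonzero near the point) N4a gives by induction (first on `s`, then on `r`) for `(t, w)` near the given point
`dd r s (lin c p) t w = ∑_{i ≤ r, j ≤ s} A_{r,i}(t) B_{s,j}(w) lin c (D₁^i D₂^j p) t w`, with analytic functions `A, B`, `A_{r,r} = g₁^r`, `B_{s,s} = g₂^s`. All terms have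
`i + j < k`. -/
theorem dd_lin_zero (τ₁ τ₂ Ω₁ Ω₂ : ℂ) (h1 : 0 < τ₁.im) (h2 : 0 < τ₂.im) (hΩ₁ : Ω₁ ≠ 0) (hΩ₂ : Ω₂ ≠ 0) (t w : ℂ)
    (ht : N0 τ₁ t ≠ 0) (ht' : deriv (wp τ₁ (sE τ₁)) t ≠ 0) (hw : N0 τ₂ w ≠ 0) (hw' : deriv (wp τ₂ (sE τ₂)) w ≠ 0)
    (c : ι → ℂ) (p : ι → PN) (k : ℕ)
    (hk : ∀ i j, i + j < k → lin τ₁ τ₂ Ω₁ Ω₂ c (fun ν => D₁^[i] (D₂^[j] (p ν))) t w = 0) (r s : ℕ) (hrs : r + s < k) :
    dd r s (lin τ₁ τ₂ Ω₁ Ω₂ c p) t w = 0 := by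
  rw [n5_dd τ₁ τ₂ Ω₁ Ω₂ h1 h2 hΩ₁ hΩ₂ t w ht ht' hw hw' c p r s]
  refine Finset.sum_eq_zero fun i hi => Finset.sum_eq_zero fun j hj => ?_
  have hi' := Finset.mem_range.1 hi
  have hj' := Finset.mem_range.1 hj
  rw [hk i j (by omega), mul_zero]

/-- only the leading term of the triangular formula survives -/
theorem n5_lead (τ₁ τ₂ Ω₁ Ω₂ : ℂ) (h1 : 0 < τ₁.im) (h2 : 0 < τ₂.im) (hΩ₁ : Ω₁ ≠ 0) (hΩ₂ : Ω₂ ≠ 0) (t w : ℂ)
    (ht : N0 τ₁ t ≠ 0) (ht' : deriv (wp τ₁ (sE τ₁)) t ≠ 0) (hw : N0 τ₂ w ≠ 0) (hw' : deriv (wp τ₂ (sE τ₂)) w ≠ 0)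
    (c : ι → ℂ) (p : ι → PN) (k : ℕ)
    (hk : ∀ i j, i + j < k → lin τ₁ τ₂ Ω₁ Ω₂ c (fun ν => D₁^[i] (D₂^[j] (p ν))) t w = 0) (r s : ℕ) (hrs : r + s = k) :
    dd r s (lin τ₁ τ₂ Ω₁ Ω₂ c p) t w =
      gn τ₁ Ω₁ t ^ r * gn τ₂ Ω₂ w ^ s * lin τ₁ τ₂ Ω₁ Ω₂ c (fun ν => D₁^[r] (D₂^[s] (p ν))) t w := by
  rw [n5_dd τ₁ τ₂ Ω₁ Ω₂ h1 h2 hΩ₁ hΩ₂ t w ht ht' hw hw' c p r s, Finset.sum_eq_single r, Finset.sum_eq_single s]
  · rw [n5_tri_self, n5_tri_self]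
  · intro j hj hjs
    have hj' := Finset.mem_range.1 hj
    rw [hk r j (by omega), mul_zero]
  · intro h
    exact absurd (Finset.mem_range.2 (Nat.lt_succ_self s)) h
  · intro i hi hir
    refine Finset.sum_eq_zero fun j hj => ?_
    have hi' := Finset.mem_range.1 hi
    have hj' := Finset.mem_range.1 hj
    rw [hk i j (by omega), mul_zero]
  · intro h
    exact absurd (Finset.mem_range.2 (Nat.lt_succ_self r)) h

/-- N5b. PROOF. By induction on `m ≤ k` all `lin c (D₁^i D₂^j p)` with `i + j < m` vanish (formula of N5a: for `i + j = m` only the leading term survives, and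
`g₁, g₂ ≠ 0`); then the formula for `r + s = k`. -/
theorem dd_lin_lead (τ₁ τ₂ Ω₁ Ω₂ : ℂ) (h1 : 0 < τ₁.im) (h2 : 0 < τ₂.im) (hΩ₁ : Ω₁ ≠ 0) (hΩ₂ : Ω₂ ≠ 0) (t w : ℂ)
    (ht : N0 τ₁ t ≠ 0) (ht' : deriv (wp τ₁ (sE τ₁)) t ≠ 0) (hw : N0 τ₂ w ≠ 0) (hw' : deriv (wp τ₂ (sE τ₂)) w ≠ 0)
    (c : ι → ℂ) (p : ι → PN) (k : ℕ) (hk : ∀ i j, i + j < k → dd i j (lin τ₁ τ₂ Ω₁ Ω₂ c p) t w = 0) (r s : ℕ)
    (hrs : r + s = k) :
    dd r s (lin τ₁ τ₂ Ω₁ Ω₂ c p) t w =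
      gn τ₁ Ω₁ t ^ r * gn τ₂ Ω₂ w ^ s * lin τ₁ τ₂ Ω₁ Ω₂ c (fun ν => D₁^[r] (D₂^[s] (p ν))) t w := by
  have hpi : (Real.pi : ℂ) ≠ 0 := by exact_mod_cast Real.pi_ne_zero
  have hg1 : gn τ₁ Ω₁ t ≠ 0 := div_ne_zero ht' (pow_ne_zero 2 (mul_ne_zero hpi hΩ₁))
  have hg2 : gn τ₂ Ω₂ w ≠ 0 := div_ne_zero hw' (pow_ne_zero 2 (mul_ne_zero hpi hΩ₂))
  have hall : ∀ m, ∀ i j, i + j = m → m < k → lin τ₁ τ₂ Ω₁ Ω₂ c (fun ν => D₁^[i] (D₂^[j] (p ν))) t w = 0 := by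
    intro m
    induction m using Nat.strong_induction_on with
    | _ m ih =>
      intro i j hij hm
      have h := n5_lead τ₁ τ₂ Ω₁ Ω₂ h1 h2 hΩ₁ hΩ₂ t w ht ht' hw hw' c p m
        (fun i' j' h' => ih (i' + j') h' i' j' rfl (by omega)) i j hij
      rw [hk i j (by omega)] at h
      have h3 : gn τ₁ Ω₁ t ^ i * gn τ₂ Ω₂ w ^ j ≠ 0 := mul_ne_zero (pow_ne_zero _ hg1) (pow_ne_zero _ hg2)
      exact (mul_eq_zero.1 h.symm).resolve_left h3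
  exact n5_lead τ₁ τ₂ Ω₁ Ω₂ h1 h2 hΩ₁ hΩ₂ t w ht ht' hw hw' c p k
    (fun i j h => hall (i + j) i j rfl h) r s hrs

/-- N5c. PROOF. `evn (Qn P ν)` is the same product of values as `ev (Qp P ν)`; `FF_eq` (A3c). -/
theorem FF_eq_lin (c₁ c₂ : Cv) (hs₁ : c₁.s = sE c₁.τ) (hs₂ : c₂.s = sE c₂.τ) (ϑ Ω₁ Ω₂ : ℂ) (hΩ₁ : Ω₁ ≠ 0) (hΩ₂ : Ω₂ ≠ 0) (P : Pr)
    (p : P.box → Polynomial ℤ) :
    FF c₁ c₂ P (cf ϑ Ω₁ Ω₂ P p) =
      lin c₁.τ c₂.τ Ω₁ Ω₂ (fun ν : P.box => Polynomial.aeval ϑ (p ν)) (fun ν : P.box => Qn P ν) := by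
  funext t w
  rw [FF_eq c₁ c₂ hs₁ hs₂ ϑ Ω₁ Ω₂ hΩ₁ hΩ₂ P p t w, lin]
  refine Finset.sum_congr rfl fun ν _ => ?_
  congr 1
  simp only [ev, Qp, vX, vY, evn, Qn, nX, nY, map_mul, map_pow, map_sub, map_add, MvPolynomial.aeval_X, Sum.elim_inl,
    Sum.elim_inr, vA, vB, vAn, vBn, Matrix.cons_val, eq_intCast, map_intCast]

end Pool.Agent.MSN
end

end

section

/-! # N6: the values at dyadic points (MP_f58a57_nt, algebraic invariants) -/

open Complex Filter Topology IntermediateField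

noncomputable section

namespace Pool.Agent.MSN

open Pool.Agent.MSP

/-- all the hypotheses on the two curves: the invariants are algebraic, the other constants are algebraic over `ℚ(ϑ)` -/
structure HypN (c₁ c₂ : Cv) (Ω₁ Ω₂ ϑ : ℂ) : Prop where
  s₁ : c₁.s = sE c₁.τ
  s₂ : c₂.s = sE c₂.τ
  ne₁ : Ω₁ ≠ 0
  ne₂ : Ω₂ ≠ 0
  a4₁ : IsAlgebraic ℚ (MSD.e4 c₁.τ / Ω₁ ^ 4)
  a6₁ : IsAlgebraic ℚ (MSD.e6 c₁.τ / Ω₁ ^ 6)
  a4₂ : IsAlgebraic ℚ (MSD.e4 c₂.τ / Ω₂ ^ 4)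
  a6₂ : IsAlgebraic ℚ (MSD.e6 c₂.τ / Ω₂ ^ 6)
  tr : Transcendental ℚ ϑ
  t₁ : IsAlgebraic ℚ⟮ϑ⟯ c₁.τ
  t₂ : IsAlgebraic ℚ⟮ϑ⟯ c₂.τ
  b₁ : IsAlgebraic ℚ⟮ϑ⟯ (Real.pi * Ω₁ ^ 2)
  b₂ : IsAlgebraic ℚ⟮ϑ⟯ (Real.pi * Ω₂ ^ 2)
  q₁ : IsAlgebraic ℚ⟮ϑ⟯ (MSD.e2 c₁.τ / Ω₁ ^ 2)
  q₂ : IsAlgebraic ℚ⟮ϑ⟯ (MSD.e2 c₂.τ / Ω₂ ^ 2)

theorem n6_rat (q : ℚ) : IsAlgebraic ℚ (q : ℂ) := by
  have := isAlgebraic_algebraMap (R := ℚ) (A := ℂ) q
  simpa using this

theorem n6_I : IsAlgebraic ℚ (I : ℂ) := by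
  apply IsAlgebraic.of_pow (n := 2) (by norm_num)
  rw [Complex.I_sq]
  have := n6_rat (-1)
  simpa using this

/-- N6a. PROOF. `dyadic_alg` (E2). -/
theorem vAn_alg (c₁ c₂ : Cv) (Ω₁ Ω₂ ϑ : ℂ) (h : HypN c₁ c₂ Ω₁ Ω₂ ϑ) (k : ℕ) (a : ℤ) (ha : ¬ ((2 : ℤ) ^ k ∣ a)) (i : Fin 6) :
    IsAlgebraic ℚ (vAn c₁.τ c₂.τ Ω₁ Ω₂ ((a : ℂ) / 2 ^ k) ((a : ℂ) / 2 ^ k) i) := by
  have A1 := dyadic_alg c₁.τ Ω₁ c₁.im h.ne₁ h.a4₁ h.a6₁ k a ha
  have A2 := dyadic_alg c₂.τ Ω₂ c₂.im h.ne₂ h.a4₂ h.a6₂ k a ha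
  have q : IsAlgebraic ℚ ((2 / 3 : ℂ)) := by
    have := n6_rat (2 / 3)
    push_cast at this
    exact this
  have B1 : IsAlgebraic ℚ ((Real.pi * Ω₁) ^ 3 / deriv (wp c₁.τ (sE c₁.τ)) ((a : ℂ) / 2 ^ k)) := by
    rw [← inv_div]
    exact A1.2.1.inv
  have B2 : IsAlgebraic ℚ ((Real.pi * Ω₂) ^ 3 / deriv (wp c₂.τ (sE c₂.τ)) ((a : ℂ) / 2 ^ k)) := by
    rw [← inv_div]
    exact A2.2.1.inv
  unfold vAn
  fin_cases i
  · exact A1.1
  · exact B1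
  · exact A2.1
  · exact B2
  · exact q.mul h.a4₁
  · exact q.mul h.a4₂

/-- N6b. PROOF. Let `θ_i = πΩ_i²`. `κ₂ = θ₂/(2I)`; `κ₁² = -θ₁θ₂/4`; `c² = θ₂/θ₁`; `s_i = (1/3) e2/Ω_i²`. `Y₁ = -κ₁ (ph τ₁ t/(πΩ₁))`, `Y₂ = -κ₂ (ph τ₂ t/(πΩ₂))`, and
`ph/(πΩ)` is algebraic over `ℚ` (`dyadic_alg`); `Y₃ = -τ₂Y₂ + τ₁Y₁` (`w - t = 0`). Cf. `vB_alg` (F1b_Vals). -/
theorem vBn_alg (c₁ c₂ : Cv) (Ω₁ Ω₂ ϑ : ℂ) (h : HypN c₁ c₂ Ω₁ Ω₂ ϑ) (k : ℕ) (a : ℤ) (ha : ¬ ((2 : ℤ) ^ k ∣ a)) (j : Fin 12) :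
    IsAlgebraic ℚ⟮ϑ⟯ (vBn c₁.τ c₂.τ Ω₁ Ω₂ ((a : ℂ) / 2 ^ k) ((a : ℂ) / 2 ^ k) j) := by
  have up : ∀ {x : ℂ}, IsAlgebraic ℚ x → IsAlgebraic ℚ⟮ϑ⟯ x := fun h => h.tower_top _
  have A1 := dyadic_alg c₁.τ Ω₁ c₁.im h.ne₁ h.a4₁ h.a6₁ k a ha
  have A2 := dyadic_alg c₂.τ Ω₂ c₂.im h.ne₂ h.a4₂ h.a6₂ k a ha
  have hI : IsAlgebraic ℚ⟮ϑ⟯ (I : ℂ) := up n6_I
  have h2 : IsAlgebraic ℚ⟮ϑ⟯ ((2 : ℂ)) := by
    have := up (n6_rat 2)
    push_cast at this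
    exact this
  have h3 : IsAlgebraic ℚ⟮ϑ⟯ ((3 : ℂ)) := by
    have := up (n6_rat 3)
    push_cast at this
    exact this
  have hpi : (Real.pi : ℂ) ≠ 0 := by exact_mod_cast Real.pi_ne_zero
  have n1 := h.ne₁
  have n2 := h.ne₂
  have hθ₁ := h.b₁
  have hθ₂ := h.b₂
  have hI0 : (I : ℂ) ≠ 0 := I_ne_zero
  have k2 : IsAlgebraic ℚ⟮ϑ⟯ (Real.pi * Ω₂ ^ 2 / (2 * I)) := hθ₂.mul ((h2.mul hI).inv)
  have k1 : IsAlgebraic ℚ⟮ϑ⟯ (Real.pi * Ω₁ * Ω₂ / (2 * I)) := by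
    apply IsAlgebraic.of_pow (n := 2) (by norm_num)
    have e : (Real.pi * Ω₁ * Ω₂ / (2 * I)) ^ 2 = (Real.pi * Ω₁ ^ 2) * (Real.pi * Ω₂ ^ 2) * ((2 * I) * (2 * I))⁻¹ := by
      field_simp
    rw [e]
    exact (hθ₁.mul hθ₂).mul ((h2.mul hI).mul (h2.mul hI)).inv
  have hc : IsAlgebraic ℚ⟮ϑ⟯ (Ω₂ / Ω₁) := by
    apply IsAlgebraic.of_pow (n := 2) (by norm_num)
    have e : (Ω₂ / Ω₁) ^ 2 = (Real.pi * Ω₂ ^ 2) * (Real.pi * Ω₁ ^ 2)⁻¹ := by
      field_simp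
    rw [e]
    exact hθ₂.mul hθ₁.inv
  have s1 : IsAlgebraic ℚ⟮ϑ⟯ (MSD.e2 c₁.τ / (3 * Ω₁ ^ 2)) := by
    have e : MSD.e2 c₁.τ / (3 * Ω₁ ^ 2) = (MSD.e2 c₁.τ / Ω₁ ^ 2) * (3 : ℂ)⁻¹ := by
      field_simp
    rw [e]
    exact h.q₁.mul h3.inv
  have s2 : IsAlgebraic ℚ⟮ϑ⟯ (MSD.e2 c₂.τ / (3 * Ω₂ ^ 2)) := by
    have e : MSD.e2 c₂.τ / (3 * Ω₂ ^ 2) = (MSD.e2 c₂.τ / Ω₂ ^ 2) * (3 : ℂ)⁻¹ := by
      field_simp
    rw [e]
    exact h.q₂.mul h3.inv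
  have Y1 : IsAlgebraic ℚ⟮ϑ⟯ (-(Ω₂ * ph c₁.τ ((a : ℂ) / 2 ^ k) / (2 * I))) := by
    have e : -(Ω₂ * ph c₁.τ ((a : ℂ) / 2 ^ k) / (2 * I)) =
        -((Real.pi * Ω₁ * Ω₂ / (2 * I)) * (ph c₁.τ ((a : ℂ) / 2 ^ k) / (Real.pi * Ω₁))) := by
      field_simp
    rw [e]
    exact (k1.mul (up A1.2.2)).neg
  have Y2 : IsAlgebraic ℚ⟮ϑ⟯ (-(Ω₂ * ph c₂.τ ((a : ℂ) / 2 ^ k) / (2 * I))) := by
    have e : -(Ω₂ * ph c₂.τ ((a : ℂ) / 2 ^ k) / (2 * I)) =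
        -((Real.pi * Ω₂ ^ 2 / (2 * I)) * (ph c₂.τ ((a : ℂ) / 2 ^ k) / (Real.pi * Ω₂))) := by
      field_simp
    rw [e]
    exact (k2.mul (up A2.2.2)).neg
  have Y3 : IsAlgebraic ℚ⟮ϑ⟯ (Real.pi * Ω₂ * (((a : ℂ) / 2 ^ k) - ((a : ℂ) / 2 ^ k)) -
      c₂.τ * (-(Ω₂ * ph c₂.τ ((a : ℂ) / 2 ^ k) / (2 * I))) +
      c₁.τ * (-(Ω₂ * ph c₁.τ ((a : ℂ) / 2 ^ k) / (2 * I)))) := by
    rw [sub_self, mul_zero]
    exact (isAlgebraic_zero.sub (h.t₂.mul Y2)).add (h.t₁.mul Y1)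
  unfold vBn
  fin_cases j
  · exact k1
  · exact k1.mul s1
  · exact h.t₁.mul k1
  · exact h.t₁.mul (k1.mul s1)
  · exact k2
  · exact k2.mul s2
  · exact h.t₂.mul k2
  · exact h.t₂.mul (k2.mul s2)
  · exact hc
  · exact Y1
  · exact Y2
  · exact Y3

end Pool.Agent.MSN
end

end

section

/-! # N7: Siegel step (MP_f58a57_nt, algebraic invariants) -/

open Complex Filter Topology IntermediateField Polynomial

noncomputable section

namespace Pool.Agent.MSN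

open Pool.Agent.MSP

theorem n7_quarter_ne (τ : ℂ) (hτ : 0 < τ.im) : N0 τ (1 / 4) ≠ 0 := by
  have h := th_real_ne τ hτ (1 / 4 : ℝ) (by
    intro m hm
    have h2 : (4 * m : ℝ) = 1 := by rw [← hm]; norm_num
    have h3 : 4 * m = 1 := by exact_mod_cast h2
    omega)
  have h4 : (((1 / 4 : ℝ) : ℝ) : ℂ) = 1 / 4 := by push_cast; rfl
  rw [h4] at h
  exact h

theorem n7_wp'_ne (τ : ℂ) (hτ : 0 < τ.im) : deriv (wp τ (sE τ)) (1 / 4) ≠ 0 := by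
  refine wp'_ne τ hτ (1 / 4) ?_
  have h := th_real_ne τ hτ (1 / 2 : ℝ) (by
    intro m hm
    have h2 : (2 * m : ℝ) = 1 := by rw [← hm]; norm_num
    have h3 : 2 * m = 1 := by exact_mod_cast h2
    omega)
  have h4 : (((1 / 2 : ℝ) : ℝ) : ℂ) = 2 * (1 / 4) := by push_cast; ring
  rw [h4] at h
  exact h

theorem n7_card (P : Pr) : (Fintype.card P.box : ℝ) =
    ((P.L : ℝ) + 1) ^ 2 * (((P.d₁ : ℝ) + 1) * (P.d₂ + 1) * (P.d₃ + 1)) := by
  rw [Fintype.card_coe]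
  unfold Pr.box
  simp only [Finset.card_product, Finset.card_range]
  push_cast
  ring

theorem n7_pow_le {x : ℝ} (hx : 1 ≤ x) (n : ℕ) (y : ℝ) (hn : (n : ℝ) ≤ y) :
    x ^ n ≤ Real.exp (x * y) := by
  have h0 : x ≤ Real.exp x := by
    have := Real.add_one_le_exp x
    linarith
  calc x ^ n ≤ (Real.exp x) ^ n := pow_le_pow_left₀ (by linarith) h0 n
    _ = Real.exp (n * x) := by rw [← Real.exp_nat_mul]
    _ ≤ Real.exp (x * y) := by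
        apply Real.exp_le_exp.mpr
        have : (n : ℝ) * x ≤ y * x := mul_le_mul_of_nonneg_right hn (by linarith)
        linarith

/-- N7. PROOF. As `siegel_step` (F2_Steps), at the point `(1/4, 1/4)`: `siegel` with `x = vAn (1/4)`, `y = vBn (1/4)` (N6 with `k = 2, a = 1`), `ι = P.box`, `κ = Fin T × Fin T`,
`Ξ (r,s) ν` from `taylor_int` (with `2T` for `T`): `Bd D l H`, `D ≤ C(L + 2T + l)`, `H = A^l C^{L+2T+l} den(2T, l) ≤ exp(C' T (1 + log(l+1)))` (`A^l ≤ exp L`, `L ≤ T`, `l ≤ L`, `den_le`);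
enlarge `H` to be `≥ 1`. `card κ = T²`, `card ι = (L+1)²(d₁+1)(d₂+1)(d₃+1)`, `log (card ι) ≤ 5 L ≤ 5 T`. The equations `∑ p_ν(ϑ) Ξ_{(r,s),ν} = 0` mean
`lin (p(ϑ)) (D₁^r D₂^s Qn) (1/4) (1/4) = 0` for `r, s < T`; `FF_eq_lin`, `dd_lin_zero` (`N0 τ (1/4) ≠ 0`: `th_real_ne`; `wp' (1/4) ≠ 0`: `wp'_ne` as `th τ (1/2) ≠ 0`) and
`GG_zero_of_FF`. -/
theorem siegel_stepN (c₁ c₂ : Cv) (Ω₁ Ω₂ ϑ : ℂ) (h : HypN c₁ c₂ Ω₁ Ω₂ ϑ) : ∃ C : ℝ, 1 ≤ C ∧ ∀ (P : Pr), P.Good → ∀ T : ℕ, P.L ≤ T →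
    C * (T : ℝ) ^ 2 ≤ ((P.L : ℝ) + 1) ^ 2 * (((P.d₁ : ℝ) + 1) * (P.d₂ + 1) * (P.d₃ + 1)) →
    ∃ p : P.box → Polynomial ℤ, p ≠ 0 ∧ (∀ ν, ((p ν).natDegree : ℝ) ≤ C * P.l) ∧
      (∀ ν, len (p ν) ≤ Real.exp (C * T * (1 + Real.log (P.l + 1)))) ∧
      ∀ r s, r + s < T → dd r s (GG c₁ c₂ P (cf ϑ Ω₁ Ω₂ P p)) (1 / 4) (1 / 4) = 0 := by
  have hq : (((1 : ℤ) : ℂ) / 2 ^ 2) = 1 / 4 := by norm_num
  have hA : ∀ i, IsAlgebraic ℚ (vAn c₁.τ c₂.τ Ω₁ Ω₂ (1 / 4) (1 / 4) i) := by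
    intro i
    have := vAn_alg c₁ c₂ Ω₁ Ω₂ ϑ h 2 1 (by norm_num) i
    rwa [hq] at this
  have hB : ∀ j, IsAlgebraic ℚ⟮ϑ⟯ (vBn c₁.τ c₂.τ Ω₁ Ω₂ (1 / 4) (1 / 4) j) := by
    intro j
    have := vBn_alg c₁ c₂ Ω₁ Ω₂ ϑ h 2 1 (by norm_num) j
    rwa [hq] at this
  obtain ⟨C₀, hC₀, hS⟩ := siegel ϑ h.tr (vAn c₁.τ c₂.τ Ω₁ Ω₂ (1 / 4) (1 / 4))
    (vBn c₁.τ c₂.τ Ω₁ Ω₂ (1 / 4) (1 / 4)) hA hB
  obtain ⟨C₁, hT⟩ := taylor_int
  obtain ⟨C₂, hC₂, hden⟩ := den_le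
  set K : ℕ := C₁ + 1 with hK
  have hK1 : (1 : ℝ) ≤ (K : ℝ) := by
    rw [hK]; push_cast
    have : (0 : ℝ) ≤ C₁ := Nat.cast_nonneg _
    linarith
  have hCK : 0 ≤ C₀ * (6 * K) := mul_nonneg (by linarith) (by linarith)
  refine ⟨11 + C₀ * (6 * K) + K * 4 + 2 * C₂ + C₀, by linarith, ?_⟩
  intro P hP T hLT hbig
  have hL1 : (1 : ℝ) ≤ P.L := by exact_mod_cast hP.hL
  have hLT' : (P.L : ℝ) ≤ T := by exact_mod_cast hLT
  have hlL : (P.l : ℝ) ≤ P.L := by exact_mod_cast hP.hl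
  have hl0 : (0 : ℝ) ≤ P.l := by positivity
  have hT1 : (1 : ℝ) ≤ T := by linarith
  have hA2 : (1 : ℝ) ≤ P.A := by
    unfold Pr.A
    have := abs_nonneg (P.a₁ : ℝ)
    have := abs_nonneg (P.a₂ : ℝ)
    have := abs_nonneg (P.b₁ : ℝ)
    have := abs_nonneg (P.b₂ : ℝ)
    linarith
  have hAl : 1 ≤ P.A ^ P.l := one_le_pow₀ hA2
  have hlog : 0 ≤ Real.log (P.l + 1) := Real.log_nonneg (by linarith)
  have hden1 : (1 : ℝ) ≤ (den (2 * T) P.l : ℝ) := by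
    exact_mod_cast den_pos (2 * T) P.l
  set H : ℝ := P.A ^ P.l * (K : ℝ) ^ (P.L + 2 * T + P.l) * den (2 * T) P.l with hH
  have hKp : (1 : ℝ) ≤ (K : ℝ) ^ (P.L + 2 * T + P.l) := one_le_pow₀ hK1
  have hH1 : 1 ≤ H := by
    rw [hH]
    exact one_le_mul_of_one_le_of_one_le (one_le_mul_of_one_le_of_one_le hAl hKp) hden1
  -- the Taylor coefficients
  have hΞ : ∀ (c : Fin T × Fin T) (ν : P.box), ∃ Ξ : PN, Bd (K * (P.L + 2 * T + P.l)) P.l H Ξ ∧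
      (den (2 * T) P.l : ℤ) • (D₁^[(c.1 : ℕ)] (D₂^[(c.2 : ℕ)] (Qn P ν))) =
        (((c.1 : ℕ).factorial * (c.2 : ℕ).factorial : ℕ) : ℤ) • Ξ := by
    intro c ν
    have hc : (c.1 : ℕ) + (c.2 : ℕ) ≤ 2 * T := by
      have := c.1.isLt
      have := c.2.isLt
      omega
    obtain ⟨Ξ, h1, h2⟩ := hT P ν ν.2 (2 * T) c.1 c.2 hc
    refine ⟨Ξ, h1.mono ?_ le_rfl ?_, h2⟩
    · exact Nat.mul_le_mul_right _ (by omega)
    · rw [hH]
      have hcc : ((C₁ : ℕ) : ℝ) ≤ (K : ℝ) := by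
        rw [hK]; push_cast; linarith
      gcongr
  choose Ξ hΞb hΞe using hΞ
  obtain ⟨p, hp0, hpd, hpl, hpz⟩ := hS P.box (Fin T × Fin T) (K * (P.L + 2 * T + P.l)) P.l H Ξ hH1 hΞb
    (by
      have : (0 : ℝ) < Fintype.card P.box := by
        rw [n7_card]; positivity
      exact_mod_cast this)
    (by
      rw [n7_card]
      simp only [Fintype.card_prod, Fintype.card_fin]
      push_cast
      have hTT : 0 ≤ (T : ℝ) ^ 2 := by positivity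
      have h1 : C₀ ≤ 11 + C₀ * (6 * K) + K * 4 + 2 * C₂ + C₀ := by linarith
      have : C₀ * ((T : ℝ) * T) ≤ (11 + C₀ * (6 * K) + K * 4 + 2 * C₂ + C₀) * (T : ℝ) ^ 2 := by
        rw [← pow_two]
        exact mul_le_mul_of_nonneg_right h1 hTT
      linarith)
  refine ⟨p, hp0, ?_, ?_, ?_⟩
  · intro ν
    refine (hpd ν).trans ?_
    refine mul_le_mul_of_nonneg_right ?_ hl0
    linarith
  · intro ν
    refine (hpl ν).trans ?_
    have hd1 : (P.d₁ : ℝ) ≤ P.l := by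
      have : P.d₁ ≤ P.l := by unfold Pr.l; omega
      exact_mod_cast this
    have hd2 : (P.d₂ : ℝ) ≤ P.l := by
      have : P.d₂ ≤ P.l := by unfold Pr.l; omega
      exact_mod_cast this
    have hd3 : (P.d₃ : ℝ) ≤ P.l := by
      have : P.d₃ ≤ P.l := by unfold Pr.l; omega
      exact_mod_cast this
    have hcard : (Fintype.card P.box : ℝ) ≤ Real.exp (10 * T) := by
      rw [n7_card]
      have h1 : (P.L : ℝ) + 1 ≤ 2 * (T : ℝ) := by linarith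
      have h2 : (P.d₁ : ℝ) + 1 ≤ 2 * (T : ℝ) := by linarith
      have h3 : (P.d₂ : ℝ) + 1 ≤ 2 * (T : ℝ) := by linarith
      have h4 : (P.d₃ : ℝ) + 1 ≤ 2 * (T : ℝ) := by linarith
      have h5 : 2 * (T : ℝ) ≤ Real.exp (2 * T) := by
        have := Real.add_one_le_exp (2 * (T : ℝ))
        linarith
      calc ((P.L : ℝ) + 1) ^ 2 * (((P.d₁ : ℝ) + 1) * (P.d₂ + 1) * (P.d₃ + 1))
          ≤ (2 * (T : ℝ)) ^ 2 * ((2 * (T : ℝ)) * (2 * (T : ℝ)) * (2 * (T : ℝ))) := by gcongr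
        _ = (2 * (T : ℝ)) ^ 5 := by ring
        _ ≤ (Real.exp (2 * T)) ^ 5 := pow_le_pow_left₀ (by positivity) h5 5
        _ = Real.exp (10 * T) := by
          rw [← Real.exp_nat_mul]
          congr 1
          push_cast
          ring
    have hCp : C₀ ^ (K * (P.L + 2 * T + P.l) + P.l + 1) ≤ Real.exp (C₀ * (6 * K * T)) := by
      refine n7_pow_le hC₀ _ _ ?_
      push_cast
      have e1 : (K : ℝ) * (P.L + 2 * T + P.l) ≤ K * (4 * T) := by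
        refine mul_le_mul_of_nonneg_left ?_ (by linarith)
        linarith
      have e3 : 2 * (T : ℝ) ≤ K * (2 * T) := le_mul_of_one_le_left (by linarith) hK1
      have e4 : 6 * (K : ℝ) * T = K * (4 * T) + K * (2 * T) := by ring
      linarith
    have hHp : H ≤ Real.exp T * Real.exp (K * (4 * T)) *
        Real.exp (C₂ * (2 * T) * (1 + Real.log (P.l + 1))) := by
      rw [hH]
      have h1 : P.A ^ P.l ≤ Real.exp T := hP.hA.trans (Real.exp_le_exp.mpr hLT')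
      have h2 : (K : ℝ) ^ (P.L + 2 * T + P.l) ≤ Real.exp (K * (4 * T)) := by
        refine n7_pow_le hK1 _ _ ?_
        push_cast
        linarith
      have h3 : (den (2 * T) P.l : ℝ) ≤ Real.exp (C₂ * (2 * T) * (1 + Real.log (P.l + 1))) := by
        have := hden (2 * T) P.l
        push_cast at this
        exact this
      exact mul_le_mul (mul_le_mul h1 h2 (by positivity) (by positivity)) h3 (by positivity)
        (by positivity)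
    have hH0 : 0 ≤ H := by linarith
    calc (Fintype.card P.box : ℝ) * C₀ ^ (K * (P.L + 2 * T + P.l) + P.l + 1) * H
        ≤ Real.exp (10 * T) * Real.exp (C₀ * (6 * K * T)) *
          (Real.exp T * Real.exp (K * (4 * T)) *
          Real.exp (C₂ * (2 * T) * (1 + Real.log (P.l + 1)))) := by
          have h00 : 0 ≤ C₀ ^ (K * (P.L + 2 * T + P.l) + P.l + 1) := by positivity
          exact mul_le_mul (mul_le_mul hcard hCp h00 (by positivity)) hHp hH0 (by positivity)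
      _ = Real.exp (11 * T + C₀ * (6 * K * T) + K * (4 * T) +
          C₂ * (2 * T) * (1 + Real.log (P.l + 1))) := by
          rw [← Real.exp_add, ← Real.exp_add, ← Real.exp_add, ← Real.exp_add]
          congr 1
          ring
      _ ≤ Real.exp ((11 + C₀ * (6 * K) + K * 4 + 2 * C₂ + C₀) * T *
          (1 + Real.log (P.l + 1))) := by
          apply Real.exp_le_exp.mpr
          have hT0 : (0 : ℝ) ≤ T := by linarith
          have hQ : 0 ≤ (11 + C₀ * (6 * K) + K * 4) * T := by positivity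
          have e1 : (11 + C₀ * (6 * K) + K * 4) * T ≤
              (11 + C₀ * (6 * K) + K * 4) * T * (1 + Real.log (P.l + 1)) :=
            le_mul_of_one_le_right hQ (by linarith)
          have e2 : 0 ≤ C₀ * T * (1 + Real.log (P.l + 1)) := by positivity
          have e3 : (11 + C₀ * (6 * K) + K * 4 + 2 * C₂ + C₀) * T * (1 + Real.log (P.l + 1)) =
              (11 + C₀ * (6 * K) + K * 4) * T * (1 + Real.log (P.l + 1)) +
              C₂ * (2 * T) * (1 + Real.log (P.l + 1)) + C₀ * T * (1 + Real.log (P.l + 1)) := by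
            ring
          have e4 : 11 * T + C₀ * (6 * K * T) + K * (4 * T) =
              (11 + C₀ * (6 * K) + K * 4) * T := by ring
          rw [e3]
          linarith
  · intro r s hrs
    have hn1 := n7_quarter_ne c₁.τ c₁.im
    have hn2 := n7_quarter_ne c₂.τ c₂.im
    refine GG_zero_of_FF c₁ c₂ P (cf ϑ Ω₁ Ω₂ P p) (1 / 4) (1 / 4) hn1 hn2 T ?_ r s hrs
    intro i j hij
    rw [FF_eq_lin c₁ c₂ h.s₁ h.s₂ ϑ Ω₁ Ω₂ h.ne₁ h.ne₂ P p]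
    refine dd_lin_zero c₁.τ c₂.τ Ω₁ Ω₂ c₁.im c₂.im h.ne₁ h.ne₂ (1 / 4) (1 / 4) hn1
      (n7_wp'_ne c₁.τ c₁.im) hn2 (n7_wp'_ne c₂.τ c₂.im) _ _ T ?_ i j hij
    intro i' j' hij'
    have hz := hpz (⟨i', by omega⟩, ⟨j', by omega⟩)
    have hd0 : ((den (2 * T) P.l : ℕ) : ℂ) ≠ 0 := by
      have := den_pos (2 * T) P.l
      exact_mod_cast this.ne'
    have he : ∀ ν : P.box, ((den (2 * T) P.l : ℕ) : ℂ) *
        evn c₁.τ c₂.τ Ω₁ Ω₂ (1 / 4) (1 / 4) (D₁^[i'] (D₂^[j'] (Qn P ν))) =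
        ((i'.factorial * j'.factorial : ℕ) : ℂ) *
        MvPolynomial.aeval (Sum.elim (vAn c₁.τ c₂.τ Ω₁ Ω₂ (1 / 4) (1 / 4))
          (vBn c₁.τ c₂.τ Ω₁ Ω₂ (1 / 4) (1 / 4))) (Ξ (⟨i', by omega⟩, ⟨j', by omega⟩) ν) := by
      intro ν
      have h1 := congrArg (MvPolynomial.aeval (Sum.elim (vAn c₁.τ c₂.τ Ω₁ Ω₂ (1 / 4) (1 / 4))
        (vBn c₁.τ c₂.τ Ω₁ Ω₂ (1 / 4) (1 / 4)))) (hΞe (⟨i', by omega⟩, ⟨j', by omega⟩) ν)
      rw [map_zsmul, map_zsmul, zsmul_eq_mul, zsmul_eq_mul] at h1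
      simpa [evn] using h1
    have hmul : ((den (2 * T) P.l : ℕ) : ℂ) * lin c₁.τ c₂.τ Ω₁ Ω₂
        (fun ν : P.box => Polynomial.aeval ϑ (p ν))
        (fun ν => D₁^[i'] (D₂^[j'] (Qn P ν))) (1 / 4) (1 / 4) = 0 := by
      unfold lin
      rw [Finset.mul_sum]
      calc ∑ ν : P.box, ((den (2 * T) P.l : ℕ) : ℂ) * (Polynomial.aeval ϑ (p ν) *
            evn c₁.τ c₂.τ Ω₁ Ω₂ (1 / 4) (1 / 4) (D₁^[i'] (D₂^[j'] (Qn P ν))))
          = ∑ ν : P.box, ((i'.factorial * j'.factorial : ℕ) : ℂ) * (Polynomial.aeval ϑ (p ν) *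
            MvPolynomial.aeval (Sum.elim (vAn c₁.τ c₂.τ Ω₁ Ω₂ (1 / 4) (1 / 4))
            (vBn c₁.τ c₂.τ Ω₁ Ω₂ (1 / 4) (1 / 4))) (Ξ (⟨i', by omega⟩, ⟨j', by omega⟩) ν)) := by
            refine Finset.sum_congr rfl fun ν _ => ?_
            rw [mul_left_comm, he ν, mul_left_comm]
        _ = 0 := by rw [← Finset.mul_sum, hz, mul_zero]
    exact (mul_eq_zero.mp hmul).resolve_left hd0

end Pool.Agent.MSN
end

end

section

/-! # N8: norm step (MP_f58a57_nt, algebraic invariants) -/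

open Complex Filter Topology IntermediateField Polynomial

noncomputable section

namespace Pool.Agent.MSN

open Pool.Agent.MSP

theorem n8_not_dvd {k : ℕ} {a : ℤ} (ha : ¬ ((2 : ℤ) ^ k ∣ 2 * a)) : ¬ ((2 : ℤ) ^ k ∣ a) :=
  fun h => ha (Dvd.dvd.mul_left h 2)

theorem n8_wp'_ne (c : Cv) (k : ℕ) (a : ℤ) (ha : ¬ ((2 : ℤ) ^ k ∣ 2 * a)) :
    deriv (wp c.τ (sE c.τ)) ((a : ℂ) / 2 ^ k) ≠ 0 := by
  refine wp'_ne c.τ c.im _ ?_
  have h := f2b_N0_ne c k (2 * a) ha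
  have e : 2 * ((a : ℂ) / 2 ^ k) = ((2 * a : ℤ) : ℂ) / 2 ^ k := by push_cast; ring
  rw [e]
  exact h

/-- the sum of the integral Taylor coefficients -/
theorem n8_lin (τ₁ τ₂ Ω₁ Ω₂ : ℂ) {ι : Type} [Fintype ι] (c : ι → ℂ) (p Ξ : ι → PN) (t : ℂ) (d f : ℤ)
    (h : ∀ ν, d • p ν = f • Ξ ν) :
    (d : ℂ) * lin τ₁ τ₂ Ω₁ Ω₂ c p t t =
      (f : ℂ) * ∑ ν, c ν * MvPolynomial.aeval (Sum.elim (vAn τ₁ τ₂ Ω₁ Ω₂ t t) (vBn τ₁ τ₂ Ω₁ Ω₂ t t)) (Ξ ν) := by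
  unfold lin evn
  rw [Finset.mul_sum, Finset.mul_sum]
  refine Finset.sum_congr rfl fun ν _ => ?_
  have h1 := congrArg (MvPolynomial.aeval (Sum.elim (vAn τ₁ τ₂ Ω₁ Ω₂ t t) (vBn τ₁ τ₂ Ω₁ Ω₂ t t))) (h ν)
  rw [map_zsmul, map_zsmul, zsmul_eq_mul, zsmul_eq_mul] at h1
  linear_combination (c ν) * h1

private theorem n8_ar1 {a b c d : ℝ} (h1 : 1 ≤ a) (h2 : 1 ≤ b) (h3 : 0 ≤ c) (h4 : 1 ≤ d) :
    1 ≤ a * b + c + d := by
  have h := one_le_mul_of_one_le_of_one_le h1 h2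
  linarith only [h, h3, h4]

private theorem n8_ar2 {c e u w v : ℝ} (h2 : c * u ≤ c * e * u) (h3 : 0 ≤ v * (u + w)) :
    c * (u + e * w) ≤ (c * e + v) * (u + w) := by
  linear_combination h2 + h3

private theorem n8_ar3 {c e u w d : ℝ} (h4 : c * u ≤ c * e * u) (h5 : c * d ≤ c * e * d) :
    c * (u + e * w + d) ≤ c * e * (u + d + w) := by
  linear_combination h4 + h5

/-- bounds for the coefficient parameter `H` -/
private theorem n8_logH {A B E T Cd W : ℝ} {l n dn : ℕ} (hA1 : 1 ≤ A) (hB1 : 1 ≤ B) (hd1 : (1 : ℝ) ≤ dn)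
    (hlogA : Real.log (A ^ l) ≤ T) (h3T : (n : ℝ) ≤ 3 * T) (hlogden : Real.log (dn : ℝ) ≤ Cd * W)
    (hE : Real.log B = E) :
    Real.log (A ^ l * B ^ n * dn) ≤ T + 3 * E * T + Cd * W := by
  have hA0 : A ^ l ≠ 0 := pow_ne_zero _ (zero_lt_one.trans_le hA1).ne'
  have hB0 : B ^ n ≠ 0 := pow_ne_zero _ (zero_lt_one.trans_le hB1).ne'
  have hE0 : 0 ≤ E := hE ▸ Real.log_nonneg hB1
  rw [Real.log_mul (mul_ne_zero hA0 hB0) (zero_lt_one.trans_le hd1).ne', Real.log_mul hA0 hB0, Real.log_pow B n, hE]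
  have h1 : (n : ℝ) * E ≤ 3 * T * E := mul_le_mul_of_nonneg_right h3T hE0
  linarith only [h1, hlogA, hlogden]

private theorem n8_main {C₀ Cd T W u lc lH lC : ℝ} {d l : ℕ} (hC0 : 0 ≤ C₀) (hlC0 : 0 ≤ lC) (hTW : T ≤ W) (hT1 : 1 ≤ T)
    (hl : (l : ℝ) ≤ T) (hlogc : lc ≤ 5 * T) (hlogH : lH ≤ T + 3 * lC * T + Cd * W) (hd : (d : ℝ) ≤ 3 * C₀ * T) :
    lc + lH + u + ((d : ℝ) + l + 1) ≤ u + (8 + 3 * lC + Cd + 3 * C₀) * W := by
  have h2 : (8 + 3 * lC + 3 * C₀) * T ≤ (8 + 3 * lC + 3 * C₀) * W :=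
    mul_le_mul_of_nonneg_left hTW (by linarith only [hC0, hlC0])
  linarith only [h2, hd, hlogH, hlogc, hl, hT1]

private theorem n8_abs {r T x : ℝ} (hr0 : 0 ≤ r) (hrT : r ≤ T) : -(r * x) ≤ T * |x| := by
  have h2 := mul_le_mul_of_nonneg_left (neg_abs_le x) hr0
  have h3 := mul_le_mul_of_nonneg_right hrT (abs_nonneg x)
  linarith only [h2, h3]

/-- from the value of the derivative to the value of the integral form -/
private theorem n8_logS {X S g₁ g₂ : ℂ} {dn r s : ℕ} {T Cd W : ℝ} (hSX : ((dn : ℕ) : ℂ) * X = g₁ ^ r * g₂ ^ s * S)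
    (hX0 : X ≠ 0) (hS0 : S ≠ 0) (hg1 : g₁ ≠ 0) (hg2 : g₂ ≠ 0) (hd1 : (1 : ℝ) ≤ dn)
    (hlogden : Real.log (dn : ℝ) ≤ Cd * W) (hr : (r : ℝ) ≤ T) (hs : (s : ℝ) ≤ T) :
    Real.log ‖S‖ ≤ Real.log ‖X‖ + Cd * W + (|Real.log ‖g₁‖| + |Real.log ‖g₂‖|) * T := by
  have e1 := congrArg norm hSX
  rw [norm_mul, norm_mul, norm_mul, norm_pow, norm_pow] at e1
  have e2 := congrArg Real.log e1
  have hXn : ‖X‖ ≠ 0 := norm_ne_zero_iff.2 hX0
  have hSn : ‖S‖ ≠ 0 := norm_ne_zero_iff.2 hS0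
  have hg1n : ‖g₁‖ ^ r ≠ 0 := pow_ne_zero _ (norm_ne_zero_iff.2 hg1)
  have hg2n : ‖g₂‖ ^ s ≠ 0 := pow_ne_zero _ (norm_ne_zero_iff.2 hg2)
  have hdn : ‖((dn : ℕ) : ℂ)‖ = (dn : ℝ) := Complex.norm_natCast _
  rw [hdn, Real.log_mul (zero_lt_one.trans_le hd1).ne' hXn, Real.log_mul (mul_ne_zero hg1n hg2n) hSn,
    Real.log_mul hg1n hg2n, Real.log_pow, Real.log_pow] at e2
  have h1 := n8_abs (x := Real.log ‖g₁‖) (Nat.cast_nonneg r) hr
  have h2 := n8_abs (x := Real.log ‖g₂‖) (Nat.cast_nonneg s) hs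
  linarith only [h1, h2, e2, hlogden]

private theorem n8_fin {K Cd C₁ E u w d T lX lS lQ : ℝ} {y : ℝ} (hC₁ : 0 ≤ C₁) (hK0 : 0 ≤ K) (hCd : 0 ≤ Cd)
    (hCE : C₁ ≤ C₁ * E)
    (hu : 0 ≤ u) (hd : 0 ≤ d) (hTW : T ≤ w)
    (hmain : y ≤ u + E * w + d) (hS : lS ≤ lX + Cd * w + K * T) (hQ : lQ ≤ lS + C₁ * y) :
    lQ ≤ lX + (C₁ * E + K + Cd) * (u + d + w) := by
  have h1 : C₁ * y ≤ C₁ * (u + E * w + d) := mul_le_mul_of_nonneg_left hmain hC₁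
  have h2 : K * T ≤ K * (u + d + w) := mul_le_mul_of_nonneg_left (by linarith only [hTW, hu, hd]) hK0
  have h2' : Cd * w ≤ Cd * (u + d + w) := mul_le_mul_of_nonneg_left (by linarith only [hu, hd]) hCd
  have h3 : C₁ * (u + E * w + d) ≤ C₁ * E * (u + d + w) :=
    n8_ar3 (mul_le_mul_of_nonneg_right hCE hu) (mul_le_mul_of_nonneg_right hCE hd)
  have h6 : (C₁ * E + K + Cd) * (u + d + w) = C₁ * E * (u + d + w) + K * (u + d + w) + Cd * (u + d + w) := by ring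
  rw [h6]
  linarith only [h1, h2, h2', h3, hS, hQ]

private theorem n8_logc {c T : ℝ} (hT : 1 ≤ T) (h : c ≤ (2 * T) ^ 5) (h1 : 1 ≤ c) : Real.log c ≤ 5 * T := by
  have hT0 : T ≠ 0 := (zero_lt_one.trans_le hT).ne'
  have hlogT : Real.log T ≤ T - 1 := Real.log_le_sub_one_of_pos (zero_lt_one.trans_le hT)
  have h2 := Real.log_le_log (zero_lt_one.trans_le h1) h
  rw [Real.log_pow, Real.log_mul two_ne_zero hT0] at h2
  have h3 := f2b_log2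
  have h4 : ((5 : ℕ) : ℝ) * (Real.log 2 + Real.log T) ≤ ((5 : ℕ) : ℝ) * T :=
    mul_le_mul_of_nonneg_left (by linarith only [hlogT, h3]) (Nat.cast_nonneg _)
  exact h2.trans h4

private theorem n8_prod {a b c : ℝ} (ha : 1 ≤ a) (hb : 1 ≤ b) (hc : 1 ≤ c) :
    Real.log (a * b * c) = Real.log a + Real.log b + Real.log c := by
  have ha0 : a ≠ 0 := (zero_lt_one.trans_le ha).ne'
  have hb0 : b ≠ 0 := (zero_lt_one.trans_le hb).ne'
  rw [Real.log_mul (mul_ne_zero ha0 hb0) (zero_lt_one.trans_le hc).ne', Real.log_mul ha0 hb0]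

private theorem n8_SX {gr gs dn L X f S : ℂ} (hf0 : f ≠ 0) (hlead : X = gr * gs * L) (h2 : dn * L = f * S) :
    dn * (X / f) = gr * gs * S := by
  rw [mul_div_assoc', div_eq_iff hf0, hlead]
  linear_combination (gr * gs) * h2

/-- N8. PROOF. As `norm_step` (F2b_Norm). `x = a/2^k`, `2^k ∤ 2a`, so `N0 τ x ≠ 0`, `wp' x ≠ 0` (`th_real_ne`, `wp'_ne`). `norm_lemma` with `x = vAn (a/2^k)`, `y = vBn (a/2^k)`,
`Ξ ν` from `taylor_int` with `(T, r, s)`. By `FF_eq_lin` and `dd_lin_lead` `dd r s FF x x = gn₁^r gn₂^s lin(..) `, and `den · lin(..) = r! s! ∑ p_ν(ϑ) Ξ_ν(..)`, so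
`ξ = ∑ p_ν(ϑ) Ξ_ν = den · dd r s FF x x/(r! s! gn₁^r gn₂^s) ≠ 0` and `log‖ξ‖ ≤ log‖dd r s FF x x/(r! s!)‖ + log den + C T`. -/
theorem norm_stepN (c₁ c₂ : Cv) (Ω₁ Ω₂ ϑ : ℂ) (h : HypN c₁ c₂ Ω₁ Ω₂ ϑ) (k : ℕ) (a : ℤ) (ha : ¬ ((2 : ℤ) ^ k ∣ 2 * a)) :
    ∃ C : ℝ, 1 ≤ C ∧ ∀ (P : Pr), P.Good → ∀ (T δ : ℕ) (H' : ℝ) (p : P.box → Polynomial ℤ), P.L ≤ T → 1 ≤ H' →
      (∀ ν, (p ν).natDegree ≤ δ) → (∀ ν, len (p ν) ≤ H') → ∀ r s, r + s ≤ T →
      (∀ i j, i + j < r + s → dd i j (FF c₁ c₂ P (cf ϑ Ω₁ Ω₂ P p)) ((a : ℂ) / 2 ^ k) ((a : ℂ) / 2 ^ k) = 0) →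
      dd r s (FF c₁ c₂ P (cf ϑ Ω₁ Ω₂ P p)) ((a : ℂ) / 2 ^ k) ((a : ℂ) / 2 ^ k) ≠ 0 →
      ∃ Q : Polynomial ℤ, aeval ϑ Q ≠ 0 ∧ (Q.natDegree : ℝ) ≤ C * (δ + P.l) ∧
        Real.log (len Q) ≤ C * (Real.log H' + T * (1 + Real.log (P.l + 1))) ∧
        Real.log ‖aeval ϑ Q‖ ≤ Real.log ‖dd r s (FF c₁ c₂ P (cf ϑ Ω₁ Ω₂ P p)) ((a : ℂ) / 2 ^ k) ((a : ℂ) / 2 ^ k) /
            (r.factorial * s.factorial : ℂ)‖ +
          C * (Real.log H' + δ + T * (1 + Real.log (P.l + 1))) := by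
  have ha' := n8_not_dvd ha
  have hN1 : N0 c₁.τ ((a : ℂ) / 2 ^ k) ≠ 0 := f2b_N0_ne c₁ k a ha'
  have hN2 : N0 c₂.τ ((a : ℂ) / 2 ^ k) ≠ 0 := f2b_N0_ne c₂ k a ha'
  have hw1 : deriv (wp c₁.τ (sE c₁.τ)) ((a : ℂ) / 2 ^ k) ≠ 0 := n8_wp'_ne c₁ k a ha
  have hw2 : deriv (wp c₂.τ (sE c₂.τ)) ((a : ℂ) / 2 ^ k) ≠ 0 := n8_wp'_ne c₂ k a ha
  have hAlgx := vAn_alg c₁ c₂ Ω₁ Ω₂ ϑ h k a ha'
  have hAlgy := vBn_alg c₁ c₂ Ω₁ Ω₂ ϑ h k a ha'
  generalize ((a : ℂ) / 2 ^ k) = t at *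
  obtain ⟨C₁, hC₁, hnorm⟩ := norm_lemma ϑ h.tr (vAn c₁.τ c₂.τ Ω₁ Ω₂ t t) (vBn c₁.τ c₂.τ Ω₁ Ω₂ t t)
    hAlgx hAlgy
  obtain ⟨C₀, htay⟩ := taylor_int
  obtain ⟨Cd, hCd, hden⟩ := den_le
  have hg1 : gn c₁.τ Ω₁ t ≠ 0 := div_ne_zero hw1 (pow_ne_zero _ (f2b_pi_ne h.ne₁))
  have hg2 : gn c₂.τ Ω₂ t ≠ 0 := div_ne_zero hw2 (pow_ne_zero _ (f2b_pi_ne h.ne₂))
  obtain ⟨K, hK⟩ : ∃ K : ℝ, K = |Real.log ‖gn c₁.τ Ω₁ t‖| + |Real.log ‖gn c₂.τ Ω₂ t‖| := ⟨_, rfl⟩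
  have hK0 : 0 ≤ K := hK ▸ add_nonneg (abs_nonneg _) (abs_nonneg _)
  have hC0 : (0 : ℝ) ≤ C₀ := Nat.cast_nonneg _
  have hB1 : (1 : ℝ) ≤ (C₀ : ℝ) + 1 := by linarith only [hC0]
  obtain ⟨lC, hlC⟩ : ∃ lC : ℝ, Real.log ((C₀ : ℝ) + 1) = lC := ⟨_, rfl⟩
  have hlC0 : 0 ≤ lC := hlC ▸ Real.log_nonneg hB1
  obtain ⟨E, hE⟩ : ∃ E : ℝ, E = 8 + 3 * lC + Cd + 3 * C₀ := ⟨_, rfl⟩
  have hE1 : 1 ≤ E := by linarith only [hE, hlC0, hCd, hC0]
  have hC₁0 : 0 ≤ C₁ := zero_le_one.trans hC₁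
  have hCd0 : 0 ≤ Cd := zero_le_one.trans hCd
  have hCE : C₁ ≤ C₁ * E := le_mul_of_one_le_right hC₁0 hE1
  refine ⟨C₁ * E + K + Cd, n8_ar1 hC₁ hE1 hK0 hCd, ?_⟩
  intro P hP T δ H' p hLT hH' hdeg hlen r s hrs hvan hne
  have hT1 : 1 ≤ T := hP.hL.trans hLT
  have hTr : (1 : ℝ) ≤ T := Nat.one_le_cast.2 hT1
  have hlT : P.l ≤ T := hP.hl.trans hLT
  have hlTr : (P.l : ℝ) ≤ T := Nat.cast_le.2 hlT
  have hδ0 : (0 : ℝ) ≤ δ := Nat.cast_nonneg _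
  have hlogH' : 0 ≤ Real.log H' := Real.log_nonneg hH'
  have hll : 0 ≤ Real.log ((P.l : ℝ) + 1) := Real.log_nonneg (le_add_of_nonneg_left (Nat.cast_nonneg _))
  obtain ⟨W, hW⟩ : ∃ W : ℝ, (T : ℝ) * (1 + Real.log (P.l + 1)) = W := ⟨_, rfl⟩
  have hTW : (T : ℝ) ≤ W := hW ▸ le_mul_of_one_le_right (zero_le_one.trans hTr) (le_add_of_nonneg_right hll)
  have hW0 : 0 ≤ W := (zero_le_one.trans hTr).trans hTW
  have hA1 : (1 : ℝ) ≤ P.A := by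
    unfold Pr.A
    have h1 := abs_nonneg (P.a₁ : ℝ)
    have h2 := abs_nonneg (P.a₂ : ℝ)
    have h3 := abs_nonneg (P.b₁ : ℝ)
    have h4 := abs_nonneg (P.b₂ : ℝ)
    linarith only [h1, h2, h3, h4]
  -- the integral Taylor coefficients
  choose Ξ hΞ1 hΞ2 using fun ν : P.box => htay P ν.1 ν.2 T r s hrs
  have hdpos := den_pos T P.l
  have hd1 : (1 : ℝ) ≤ den T P.l := Nat.one_le_cast.2 hdpos
  have hlogden : Real.log (den T P.l) ≤ Cd * W := by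
    have h1 := Real.log_le_log (zero_lt_one.trans_le hd1) (hden T P.l)
    rw [Real.log_exp, mul_assoc, hW] at h1
    exact h1
  have hAP : (0 : ℝ) ≤ P.A ^ P.l := pow_nonneg (zero_le_one.trans hA1) _
  have hH1 : 1 ≤ P.A ^ P.l * ((C₀ : ℝ) + 1) ^ (P.L + T + P.l) * den T P.l := one_le_mul_of_one_le_of_one_le
    (one_le_mul_of_one_le_of_one_le (one_le_pow₀ hA1) (one_le_pow₀ hB1)) hd1
  have hBd : ∀ ν : P.box, Bd (C₀ * (P.L + T + P.l)) P.l (P.A ^ P.l * ((C₀ : ℝ) + 1) ^ (P.L + T + P.l) * den T P.l) (Ξ ν) :=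
    fun ν => (hΞ1 ν).mono le_rfl le_rfl
      (mul_le_mul_of_nonneg_right (mul_le_mul_of_nonneg_left
        (pow_le_pow_left₀ hC0 (le_add_of_nonneg_right zero_le_one) _) hAP) (zero_le_one.trans hd1))
  have h3T : ((P.L + T + P.l : ℕ) : ℝ) ≤ 3 * T := by
    have h : P.L + T + P.l ≤ 3 * T := by omega
    have h' : ((P.L + T + P.l : ℕ) : ℝ) ≤ ((3 * T : ℕ) : ℝ) := Nat.cast_le.2 h
    rwa [Nat.cast_mul] at h'
  have hlogA : Real.log (P.A ^ P.l) ≤ T := by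
    have h1 := Real.log_le_log (pow_pos (zero_lt_one.trans_le hA1) _) hP.hA
    rw [Real.log_exp] at h1
    exact h1.trans (Nat.cast_le.2 hLT)
  have hlogH := n8_logH hA1 hB1 hd1 hlogA h3T hlogden hlC
  generalize P.A ^ P.l * ((C₀ : ℝ) + 1) ^ (P.L + T + P.l) * (den T P.l : ℝ) = H at *
  obtain ⟨S, hS⟩ : ∃ S : ℂ, ∑ ν : P.box, aeval ϑ (p ν) * MvPolynomial.aeval
    (Sum.elim (vAn c₁.τ c₂.τ Ω₁ Ω₂ t t) (vBn c₁.τ c₂.τ Ω₁ Ω₂ t t)) (Ξ ν) = S := ⟨_, rfl⟩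
  have hFF := FF_eq_lin c₁ c₂ h.s₁ h.s₂ ϑ Ω₁ Ω₂ h.ne₁ h.ne₂ P p
  have hlead := dd_lin_lead c₁.τ c₂.τ Ω₁ Ω₂ c₁.im c₂.im h.ne₁ h.ne₂ t t hN1 hw1 hN2 hw2
    (fun ν : P.box => Polynomial.aeval ϑ (p ν)) (fun ν : P.box => Qn P ν) (r + s)
    (fun i j hij => by rw [← hFF]; exact hvan i j hij) r s rfl
  have hlin := n8_lin c₁.τ c₂.τ Ω₁ Ω₂ (fun ν : P.box => Polynomial.aeval ϑ (p ν))
    (fun ν : P.box => D₁^[r] (D₂^[s] (Qn P ν))) Ξ t (den T P.l : ℤ) ((r.factorial * s.factorial : ℕ) : ℤ) hΞ2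
  rw [← hFF] at hlead
  rw [hS, Int.cast_natCast, Int.cast_natCast, Nat.cast_mul] at hlin
  have hf0 : ((r.factorial : ℂ) * s.factorial) ≠ 0 :=
    mul_ne_zero (Nat.cast_ne_zero.2 r.factorial_ne_zero) (Nat.cast_ne_zero.2 s.factorial_ne_zero)
  have hdc : ((den T P.l : ℕ) : ℂ) ≠ 0 := Nat.cast_ne_zero.2 hdpos.ne'
  have hSX := n8_SX hf0 hlead hlin
  have hX0 := div_ne_zero hne hf0
  have hS0 : S ≠ 0 := by
    intro h0
    rw [h0, mul_zero] at hSX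
    exact (mul_ne_zero hdc hX0) hSX
  obtain ⟨Q, hQ0, hQ1, hQ2, hQ3⟩ := hnorm P.box (C₀ * (P.L + T + P.l)) P.l δ H H' p Ξ hH1 hH' hBd hdeg hlen
    (fun h0 => hS0 (hS.symm.trans h0))
  rw [hS] at hQ3
  obtain ⟨hc1, hc2⟩ := f2b_card P hP hLT
  have hlogc := n8_logc hTr hc1 hc2
  have h1 : ((C₀ * (P.L + T + P.l) : ℕ) : ℝ) ≤ 3 * C₀ * T := by
    rw [Nat.cast_mul]
    have := mul_le_mul_of_nonneg_left h3T hC0
    linarith only [this]
  have hmain := n8_main (u := Real.log H') hC0 hlC0 hTW hTr hlTr hlogc hlogH h1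
  rw [← n8_prod hc2 hH1 hH', ← hE] at hmain
  rw [hW]
  refine ⟨Q, hQ0, hQ1.trans ?_, (hQ2.trans (mul_le_mul_of_nonneg_left hmain hC₁0)).trans ?_, ?_⟩
  · exact mul_le_mul_of_nonneg_right (by linarith only [hCE, hK0, hCd0])
      (add_nonneg hδ0 (Nat.cast_nonneg _))
  · have h3 := n8_ar2 (w := W) (v := K + Cd) (mul_le_mul_of_nonneg_right hCE hlogH')
      (mul_nonneg (add_nonneg hK0 hCd0) (add_nonneg hlogH' hW0))
    rwa [← add_assoc] at h3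
  · have hrs' : ((r + s : ℕ) : ℝ) ≤ T := Nat.cast_le.2 hrs
    rw [Nat.cast_add] at hrs'
    have hr0 : (0 : ℝ) ≤ r := Nat.cast_nonneg _
    have hs0 : (0 : ℝ) ≤ s := Nat.cast_nonneg _
    have hlogS := n8_logS hSX hX0 hS0 hg1 hg2 hd1 hlogden (T := T) (by linarith only [hrs', hs0])
      (by linarith only [hrs', hr0])
    rw [← hK] at hlogS
    exact n8_fin hC₁0 hK0 hCd0 hCE hlogH' hδ0 hTW (by linarith only [hmain]) hlogS hQ3

end Pool.Agent.MSN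
end

end
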