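import Mathlib
import Pool.Agent.Lib.MP_f58a57_nt.FK.K011

section

/-! # B8ab: the isobaric relation at a CM point (MP_f58a57_nt) -/

open Complex ModularForm EisensteinSeries Filter
open UpperHalfPlane hiding I
open scoped Topology MatrixGroups

noncomputable section

namespace Pool.Agent.MSD

theorem B8a_norm_qq (z : ℂ) : ‖qq z‖ = Real.exp (-(2 * Real.pi * z.im)) := by
  unfold qq
  rw [Complex.norm_exp]
  congr 1
  simp [Complex.mul_re, Complex.mul_im]

theorem B8a_bound {c : ℕ → ℤ} {f : ℂ → ℂ} (h : QExp c f) :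
    ∃ K : ℝ, ∀ z : ℂ, 1 ≤ z.im → ‖f z - c 0‖ ≤ K * ‖qq z‖ := by
  have hI : HasSum (fun n => (c n : ℂ) * qq I ^ n) (f I) := h I (by simp)
  have hs : Summable (fun n => ‖(c n : ℂ) * qq I ^ n‖) := hI.summable.norm
  have hq0 : 0 < ‖qq I‖ := by
    rw [B8a_norm_qq]
    exact Real.exp_pos _
  have hs1 : Summable (fun n => ‖(c (n + 1) : ℂ)‖ * ‖qq I‖ ^ n) := by
    have h1 : Summable (fun n => ‖(c (n + 1) : ℂ) * qq I ^ (n + 1)‖) :=
      (summable_nat_add_iff 1).2 hs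
    have h2 := h1.mul_left (‖qq I‖⁻¹)
    refine h2.congr fun n => ?_
    rw [norm_mul, norm_pow, pow_succ]
    field_simp
  refine ⟨∑' n, ‖(c (n + 1) : ℂ)‖ * ‖qq I‖ ^ n, fun z hz => ?_⟩
  have hle : ‖qq z‖ ≤ ‖qq I‖ := by
    rw [B8a_norm_qq, B8a_norm_qq]
    apply Real.exp_le_exp.2
    have := Real.pi_pos
    simp only [Complex.I_im]
    nlinarith
  have hz' : HasSum (fun n => (c n : ℂ) * qq z ^ n) (f z) := h z (by linarith)
  have h1 : HasSum (fun n => (c (n + 1) : ℂ) * qq z ^ (n + 1)) (f z - c 0) := by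
    have := (hasSum_nat_add_iff' (f := fun n => (c n : ℂ) * qq z ^ n) 1).2 hz'
    simpa using this
  rw [← h1.tsum_eq]
  refine tsum_of_norm_bounded (hs1.hasSum.mul_right ‖qq z‖) fun n => ?_
  rw [norm_mul, norm_pow, pow_succ, ← mul_assoc]
  apply mul_le_mul_of_nonneg_right _ (norm_nonneg _)
  apply mul_le_mul_of_nonneg_left _ (norm_nonneg _)
  exact pow_le_pow_left₀ (norm_nonneg _) hle n

theorem B8a_tendsto {c : ℕ → ℤ} {f : ℂ → ℂ} (h : QExp c f) {u : ℝ → ℂ}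
    (hu : Tendsto (fun y => (u y).im) atTop atTop) :
    Tendsto (fun y => f (u y)) atTop (𝓝 (c 0 : ℂ)) := by
  obtain ⟨K, hK⟩ := B8a_bound h
  rw [tendsto_iff_norm_sub_tendsto_zero]
  have h1 : Tendsto (fun y => K * ‖qq (u y)‖) atTop (𝓝 0) := by
    have h2 : Tendsto (fun y => ‖qq (u y)‖) atTop (𝓝 0) := by
      have h3 : (fun y => ‖qq (u y)‖) = fun y => Real.exp (-(2 * Real.pi * (u y).im)) := by
        funext y
        exact B8a_norm_qq _
      rw [h3]
      have h4 : Tendsto (fun y => 2 * Real.pi * (u y).im) atTop atTop :=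
        hu.const_mul_atTop (by positivity)
      exact Real.tendsto_exp_atBot.comp (tendsto_neg_atTop_atBot.comp h4)
    simpa using h2.const_mul K
  refine squeeze_zero' (Eventually.of_forall fun _ => norm_nonneg _) ?_ h1
  filter_upwards [hu.eventually_ge_atTop 1] with y hy
  exact hK _ hy

theorem B8a_rt_sq (d : ℕ) : rt d * rt d = -(d : ℂ) := by
  unfold rt
  have h1 : (Real.sqrt d : ℂ) * (Real.sqrt d : ℂ) = (d : ℂ) := by
    rw [← Complex.ofReal_mul, Real.mul_self_sqrt (Nat.cast_nonneg d)]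
    simp
  calc (Real.sqrt d : ℂ) * I * ((Real.sqrt d : ℂ) * I)
      = ((Real.sqrt d : ℂ) * (Real.sqrt d : ℂ)) * (I * I) := by ring
    _ = -(d : ℂ) := by rw [h1, Complex.I_mul_I]; ring

theorem B8a_rt_im (d : ℕ) (hd : 0 < d) : 0 < (rt d).im := by
  unfold rt
  simp only [Complex.mul_im, Complex.ofReal_re, Complex.I_im, Complex.ofReal_im, Complex.I_re,
    mul_one, mul_zero, add_zero]
  exact Real.sqrt_pos.2 (by exact_mod_cast hd)

/-- B8a. With `τ = √(-d)` and `M = (0 -d; 1 0)`, `Mτ = τ`: `FM 1 d M τ = -d³ e6(τ)`; it is `Gr 1 τ ρ` for some `ρ ∈ TT d`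
(`exists_rep`, `FM_left`, `FM_mat`). -/
theorem e6_mem (d : ℕ) (hd : 0 < d) : ∃ ρ ∈ TT d, Gr 1 (rt d) ρ = -(d : ℂ) ^ 3 * e6 (rt d) := by
  have him := B8a_rt_im d hd
  have hne : rt d ≠ 0 := by
    intro h0
    rw [h0] at him
    simp at him
  have hsq := B8a_rt_sq d
  have hM : (!![0, -(d : ℤ); 1, 0] : Matrix (Fin 2) (Fin 2) ℤ).det = (d : ℤ) := by
    rw [Matrix.det_fin_two]
    simp
  obtain ⟨γ, hγ, ρ, hρ, hMγ⟩ := exists_rep d hd _ hM
  refine ⟨ρ, hρ, ?_⟩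
  rw [← FM_mat 1 d hd ρ hρ (rt d) him, ← FM_left 1 d hd γ (mat ρ) hγ (det_mat d ρ hρ) (rt d) him,
    ← hMγ]
  have h1 : (-(d : ℂ)) / rt d = rt d := by
    rw [div_eq_iff hne, hsq]
  have h2 : (d : ℂ) / rt d = - rt d := by
    rw [div_eq_iff hne]
    linear_combination hsq
  have h3 : FM 1 d !![0, -(d : ℤ); 1, 0] (rt d) =
      ((d : ℂ) / rt d) ^ 6 * e6 ((-(d : ℂ)) / rt d) := by
    unfold FM
    simp
  rw [h3, h1, h2]
  have h4 : (-rt d) ^ 6 = (rt d * rt d) ^ 3 := by ring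
  rw [h4, hsq]
  ring

/-- B8b. The isobaric relation. PROOF. `Ξ` from `prod_isobaric` (`F ρ = Gr 1 · ρ`, `P = -d³ X₁`, `w = 6`): `Π_ρ (-d³ e6 z - Gr 1 z ρ) = Ξ(vals z)`;
it vanishes at `√(-d)` and tends to `Π_ρ (-d³ - a⁶) ≠ 0` as `z = iy → i∞`. -/
theorem cm_relation (d : ℕ) (hd : 0 < d) : ∃ (W : ℕ) (Ξ : MvPolynomial (Fin 3) ℚ),
    MvPolynomial.IsWeightedHomogeneous wts Ξ W ∧ MvPolynomial.aeval (vals (rt d)) Ξ = 0 ∧
      ∃ z : ℂ, 0 < z.im ∧ MvPolynomial.aeval (vals z) Ξ ≠ 0 := by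
  have him := B8a_rt_im d hd
  have hP : MvPolynomial.IsWeightedHomogeneous wts
      (MvPolynomial.C (-(d : ℚ) ^ 3) * MvPolynomial.X 1 : MvPolynomial (Fin 3) ℚ) 6 := by
    have h1 := (MvPolynomial.isWeightedHomogeneous_C (R := ℚ) wts (-(d : ℚ) ^ 3)).mul
      (MvPolynomial.isWeightedHomogeneous_X ℚ wts 1)
    simpa [wts] using h1
  have hPv : ∀ z, MvPolynomial.aeval (vals z)
      (MvPolynomial.C (-(d : ℚ) ^ 3) * MvPolynomial.X 1 : MvPolynomial (Fin 3) ℚ) =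
        -(d : ℂ) ^ 3 * e6 z := by
    intro z
    simp [vals]
  obtain ⟨Ξ, hΞ, hΞv⟩ := prod_isobaric (TT d) 6 (fun ρ z => Gr 1 z ρ) (by
    intro m _
    obtain ⟨Θ, hΘ, hΘv⟩ := theta 1 d m hd
    exact ⟨Θ, hΘ, hΘv⟩) _ hP
  refine ⟨6 * (TT d).card, Ξ, hΞ, ?_, ?_⟩
  · rw [← hΞv _ him]
    obtain ⟨ρ, hρ, hρv⟩ := e6_mem d hd
    apply Finset.prod_eq_zero hρ
    rw [hPv, hρv, sub_self]
  · obtain ⟨c, hc, hc0⟩ := e6_q
    have hlim : Tendsto (fun y : ℝ => ∏ ρ ∈ TT d, (MvPolynomial.aeval (vals (I * y))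
        (MvPolynomial.C (-(d : ℚ) ^ 3) * MvPolynomial.X 1 : MvPolynomial (Fin 3) ℚ) -
          Gr 1 (I * y) ρ)) atTop
        (𝓝 (∏ ρ ∈ TT d, (-(d : ℂ) ^ 3 * 1 - (ρ.1.1 : ℂ) ^ 6 * 1))) := by
      apply tendsto_finsetProd
      intro ρ hρ
      have hρ' := Finset.mem_sigma.1 hρ
      have hprod : ρ.1.1 * ρ.1.2 = d := (Nat.mem_divisorsAntidiagonal.1 hρ'.1).1
      have ha : 0 < ρ.1.1 := by
        rcases Nat.eq_zero_or_pos ρ.1.1 with h0 | h0
        · rw [h0, zero_mul] at hprod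
          omega
        · exact h0
      have hδ : 0 < ρ.1.2 := by
        rcases Nat.eq_zero_or_pos ρ.1.2 with h0 | h0
        · rw [h0, mul_zero] at hprod
          omega
        · exact h0
      have t1 : Tendsto (fun y : ℝ => e6 (I * y)) atTop (𝓝 (1 : ℂ)) := by
        have := B8a_tendsto hc (u := fun y : ℝ => I * y) (by
          have h6 : (fun y : ℝ => (I * (y : ℂ)).im) = fun y : ℝ => y := by
            funext y
            simp
          rw [h6]
          exact tendsto_id)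
        rw [hc0] at this
        simpa using this
      have t2 : Tendsto (fun y : ℝ => e6 (((ρ.1.1 : ℂ) * (I * y) + (ρ.2 : ℂ)) / (ρ.1.2 : ℂ)))
          atTop (𝓝 (1 : ℂ)) := by
        have hu : Tendsto (fun y : ℝ => (((ρ.1.1 : ℂ) * (I * y) + (ρ.2 : ℂ)) / (ρ.1.2 : ℂ)).im)
            atTop atTop := by
          have h5 : (fun y : ℝ => (((ρ.1.1 : ℂ) * (I * y) + (ρ.2 : ℂ)) / (ρ.1.2 : ℂ)).im) =
              fun y : ℝ => ((ρ.1.1 : ℝ) / (ρ.1.2 : ℝ)) * y := by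
            funext y
            rw [Complex.div_natCast_im]
            simp [Complex.mul_im]
            ring
          rw [h5]
          exact tendsto_id.const_mul_atTop (by positivity)
        have := B8a_tendsto hc hu
        rw [hc0] at this
        simpa using this
      refine Tendsto.sub ?_ ?_
      · have := t1.const_mul (-(d : ℂ) ^ 3)
        refine this.congr fun y => ?_
        rw [hPv]
      · have := t2.const_mul ((ρ.1.1 : ℂ) ^ 6)
        refine this.congr fun y => ?_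
        unfold Gr GG
        simp
    have hne : (∏ ρ ∈ TT d, (-(d : ℂ) ^ 3 * 1 - (ρ.1.1 : ℂ) ^ 6 * 1)) ≠ 0 := by
      rw [Finset.prod_ne_zero_iff]
      intro ρ _ h0
      have h1 : ((d ^ 3 + ρ.1.1 ^ 6 : ℕ) : ℂ) = 0 := by
        push_cast
        linear_combination -h0
      have h2 : d ^ 3 + ρ.1.1 ^ 6 = 0 := by exact_mod_cast h1
      have h3 : 0 < d ^ 3 := pow_pos hd 3
      omega
    have hev := (hlim.eventually_ne hne).and (eventually_gt_atTop (0 : ℝ))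
    obtain ⟨y, hy, hy0⟩ := hev.exists
    refine ⟨I * y, by simpa using hy0, ?_⟩
    rw [← hΞv (I * y) (by simpa using hy0)]
    exact hy

end Pool.Agent.MSD
end

end

section

/-! # B8c: CM points have algebraic invariants (MP_f58a57_nt) -/

open Complex ModularForm EisensteinSeries Filter
open UpperHalfPlane hiding I
open scoped Topology MatrixGroups

noncomputable section

namespace Pool.Agent.MSD

theorem B8_scale {W : ℕ} {Ξ : MvPolynomial (Fin 3) ℚ}
    (hΞ : MvPolynomial.IsWeightedHomogeneous wts Ξ W) (ω : ℂ) (x : Fin 3 → ℂ) :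
    MvPolynomial.aeval (fun i => ω ^ wts i * x i) Ξ = ω ^ W * MvPolynomial.aeval x Ξ := by
  rw [MvPolynomial.aeval_def, MvPolynomial.aeval_def, MvPolynomial.eval₂_eq', MvPolynomial.eval₂_eq',
    Finset.mul_sum]
  refine Finset.sum_congr rfl fun d hd => ?_
  have hw : Finsupp.weight wts d = W := hΞ (MvPolynomial.mem_support_iff.1 hd)
  have hw' : ∑ i, wts i * d i = W := by
    rw [← hw, Finsupp.weight_apply, Finsupp.sum_fintype _ _ (by simp)]
    refine Finset.sum_congr rfl fun i _ => ?_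
    rw [smul_eq_mul, mul_comm]
  have e : ∏ i, (ω ^ wts i * x i) ^ d i = ω ^ W * ∏ i, x i ^ d i := by
    rw [← hw', ← Finset.prod_pow_eq_pow_sum, ← Finset.prod_mul_distrib]
    refine Finset.prod_congr rfl fun i _ => ?_
    rw [mul_pow, ← pow_mul]
  rw [e]
  ring

theorem B8_vals (A B Ω : ℂ) (hΩ : Ω ^ 4 = A) (hΩ0 : Ω ≠ 0) :
    (fun i => Ω ^ wts i * (![1, B / Ω ^ 6, (1 / 1728) * (1 - (B / Ω ^ 6) ^ 2)] : Fin 3 → ℂ) i) =
      ![A, B, (A ^ 3 - B ^ 2) / 1728] := by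
  funext i
  fin_cases i
  · simp [wts, hΩ]
  · simp only [wts]
    simp
    field_simp
  · simp only [wts]
    simp
    rw [← hΩ]
    field_simp

theorem B8_multiple {z : ℂ} (h : IsAlgebraic ℚ z) : ∃ m : ℕ, 0 < m ∧ IsIntegral ℤ ((m : ℂ) * z) := by
  have h1 : IsAlgebraic ℤ z := (IsFractionRing.isAlgebraic_iff ℤ ℚ ℂ).2 h
  obtain ⟨y, hy, hi⟩ := h1.exists_integral_multiple
  refine ⟨y.natAbs, Int.natAbs_pos.2 hy, ?_⟩
  rw [zsmul_eq_mul] at hi
  rcases Int.natAbs_eq y with h2 | h2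
  · have e : ((y.natAbs : ℕ) : ℂ) = (y : ℂ) := by
      conv_rhs => rw [h2]
      simp
    rw [e]
    exact hi
  · have e : ((y.natAbs : ℕ) : ℂ) = -(y : ℂ) := by
      conv_rhs => rw [h2]
      simp
    rw [e, neg_mul]
    exact hi.neg

theorem B8_nat (m : ℕ) : IsIntegral ℤ (m : ℂ) := by
  have := (isIntegral_algebraMap (R := ℤ) (A := ℂ) (x := (m : ℤ)))
  simpa using this

theorem B8_final (τ Ω : ℂ) (hτ : 0 < τ.im) (hΩ : Ω ≠ 0) (hu : IsAlgebraic ℚ (e4 τ / Ω ^ 4))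
    (hv : IsAlgebraic ℚ (e6 τ / Ω ^ 6)) : ∃ Ω' : ℂ, CMBase τ Ω' := by
  have hd : IsAlgebraic ℚ (dl τ / Ω ^ 12) := by
    have e : dl τ / Ω ^ 12 = ((e4 τ / Ω ^ 4) ^ 3 - (e6 τ / Ω ^ 6) ^ 2) * (((1 / 1728 : ℚ) : ℂ)) := by
      rw [dl]
      push_cast
      field_simp
    rw [e]
    exact ((hu.pow 3).sub (hv.pow 2)).mul (isAlgebraic_algebraMap (1 / 1728 : ℚ))
  obtain ⟨m1, p1, i1⟩ := B8_multiple hu
  obtain ⟨m2, p2, i2⟩ := B8_multiple hv
  obtain ⟨m3, p3, i3⟩ := B8_multiple hd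
  have q1 : (m1 : ℂ) ≠ 0 := by exact_mod_cast p1.ne'
  have q2 : (m2 : ℂ) ≠ 0 := by exact_mod_cast p2.ne'
  have q3 : (m3 : ℂ) ≠ 0 := by exact_mod_cast p3.ne'
  refine ⟨Ω / ((m1 : ℂ) * m2 * m3), hτ, div_ne_zero hΩ (by positivity), ?_, ?_, ?_⟩
  · have e : e4 τ / (Ω / ((m1 : ℂ) * m2 * m3)) ^ 4 =
        ((m1 ^ 3 * m2 ^ 4 * m3 ^ 4 : ℕ) : ℂ) * ((m1 : ℂ) * (e4 τ / Ω ^ 4)) := by
      push_cast
      field_simp
    rw [e]
    exact (B8_nat _).mul i1
  · have e : e6 τ / (Ω / ((m1 : ℂ) * m2 * m3)) ^ 6 =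
        ((m1 ^ 6 * m2 ^ 5 * m3 ^ 6 : ℕ) : ℂ) * ((m2 : ℂ) * (e6 τ / Ω ^ 6)) := by
      push_cast
      field_simp
    rw [e]
    exact (B8_nat _).mul i2
  · have e : dl τ / (Ω / ((m1 : ℂ) * m2 * m3)) ^ 12 =
        ((m1 ^ 12 * m2 ^ 12 * m3 ^ 11 : ℕ) : ℂ) * ((m3 : ℂ) * (dl τ / Ω ^ 12)) := by
      push_cast
      field_simp
    rw [e]
    exact (B8_nat _).mul i3

theorem B8_rt_im (d : ℕ) (hd : 0 < d) : 0 < (rt d).im := by
  have : (rt d).im = Real.sqrt d := by simp [rt]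
  rw [this]
  exact Real.sqrt_pos.2 (by exact_mod_cast hd)

/-- B8c. PROOF. Let `τ = √(-d)`. If `e4 τ = 0`, choose `Ω⁶ = e6 τ ≠ 0`. Otherwise choose `Ω⁴ = e4 τ` and let `v = e6 τ/Ω⁶`; substituting
`dl = (e4³ - e6²)/1728` in `Ξ` and dividing by `Ω^W`, `Q(v) = 0` where `Q = Σ c_{a,b} V^b ∈ ℚ[V]` (monomials `X₄^a X₆^b`, `4a + 6b = W`, so
different monomials give different `b`); `Q ≠ 0` because `Ξ(vals z) ≠ 0` for some `z`. So `v` is algebraic. In both cases
`e4/Ω⁴, e6/Ω⁶, dl/Ω¹²` are algebraic; multiply them by powers of a positive integer `m` (replace `Ω` by `Ω/m`) to make them integral. -/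
theorem cm_base (d : ℕ) (hd : 0 < d) : ∃ Ω : ℂ, CMBase (rt d) Ω := by
  have hτ := B8_rt_im d hd
  set τ := rt d with hτd
  by_cases hA : e4 τ = 0
  · obtain ⟨Ω, hΩ⟩ := IsAlgClosed.exists_pow_nat_eq (e6 τ) (n := 6) (by norm_num)
    have hB : e6 τ ≠ 0 := by
      intro h
      have := dl_ne_zero τ hτ
      apply this
      rw [dl, hA, h]
      norm_num
    have hΩ0 : Ω ≠ 0 := by
      rintro rfl
      apply hB
      rw [← hΩ]
      norm_num
    refine B8_final τ Ω hτ hΩ0 ?_ ?_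
    · rw [hA, zero_div]
      exact isAlgebraic_zero
    · rw [← hΩ, div_self (pow_ne_zero _ hΩ0)]
      exact isAlgebraic_one
  · obtain ⟨Ω, hΩ⟩ := IsAlgClosed.exists_pow_nat_eq (e4 τ) (n := 4) (by norm_num)
    have hΩ0 : Ω ≠ 0 := by
      rintro rfl
      apply hA
      rw [← hΩ]
      norm_num
    obtain ⟨W, Ξ, hΞ, h0, z, hz, hne⟩ := cm_relation d hd
    let Q : Polynomial ℚ := MvPolynomial.aeval
      (![1, Polynomial.X, Polynomial.C (1 / 1728) * (1 - Polynomial.X ^ 2)] : Fin 3 → Polynomial ℚ) Ξ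
    have hQ : ∀ v : ℂ, Polynomial.aeval v Q =
        MvPolynomial.aeval (![1, v, (1 / 1728) * (1 - v ^ 2)] : Fin 3 → ℂ) Ξ := by
      intro v
      have := congrArg (fun g => g Ξ) (MvPolynomial.comp_aeval
        (![1, Polynomial.X, Polynomial.C (1 / 1728) * (1 - Polynomial.X ^ 2)] : Fin 3 → Polynomial ℚ)
        (Polynomial.aeval v : Polynomial ℚ →ₐ[ℚ] ℂ))
      simp only [AlgHom.comp_apply] at this
      rw [show Polynomial.aeval v Q = _ from this]
      congr 2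
      funext i
      fin_cases i <;> simp
    have key : ∀ A B ω : ℂ, ω ^ 4 = A → ω ≠ 0 →
        MvPolynomial.aeval (![A, B, (A ^ 3 - B ^ 2) / 1728] : Fin 3 → ℂ) Ξ =
          ω ^ W * Polynomial.aeval (B / ω ^ 6) Q := by
      intro A B ω h1 h2
      rw [hQ, ← B8_scale hΞ, B8_vals A B ω h1 h2]
    have hv0 : ∀ w : ℂ, vals w = ![e4 w, e6 w, (e4 w ^ 3 - e6 w ^ 2) / 1728] := fun w => rfl
    have hroot : Polynomial.aeval (e6 τ / Ω ^ 6) Q = 0 := by
      have h1 := key (e4 τ) (e6 τ) Ω hΩ hΩ0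
      rw [← hv0, h0] at h1
      exact (mul_eq_zero.1 h1.symm).resolve_left (pow_ne_zero _ hΩ0)
    have hQ0 : Q ≠ 0 := by
      intro hQz
      have hall : ∀ A B : ℂ, A ≠ 0 →
          MvPolynomial.aeval (![A, B, (A ^ 3 - B ^ 2) / 1728] : Fin 3 → ℂ) Ξ = 0 := by
        intro A B hA'
        obtain ⟨ω, hω⟩ := IsAlgClosed.exists_pow_nat_eq A (n := 4) (by norm_num)
        have hω0 : ω ≠ 0 := by
          rintro rfl
          apply hA'
          rw [← hω]
          norm_num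
        rw [key A B ω hω hω0, hQz]
        simp
      let R : Polynomial ℂ := MvPolynomial.aeval
        (![Polynomial.X, Polynomial.C (e6 z), Polynomial.C (1 / 1728) *
          (Polynomial.X ^ 3 - Polynomial.C (e6 z) ^ 2)] : Fin 3 → Polynomial ℂ) Ξ
      have hR : ∀ A : ℂ, Polynomial.eval A R =
          MvPolynomial.aeval (![A, e6 z, (A ^ 3 - e6 z ^ 2) / 1728] : Fin 3 → ℂ) Ξ := by
        intro A
        have := congrArg (fun g => g Ξ) (MvPolynomial.comp_aeval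
          (![Polynomial.X, Polynomial.C (e6 z), Polynomial.C (1 / 1728) *
          (Polynomial.X ^ 3 - Polynomial.C (e6 z) ^ 2)] : Fin 3 → Polynomial ℂ)
          ((Polynomial.aeval A : Polynomial ℂ →ₐ[ℂ] ℂ).restrictScalars ℚ))
        simp only [AlgHom.comp_apply] at this
        rw [show Polynomial.eval A R = _ from this]
        congr 2
        funext i
        fin_cases i
        · simp
        · simp
        · simp
          ring
      have hR0 : R = 0 := by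
        refine Polynomial.eq_zero_of_infinite_isRoot R (Set.Infinite.mono (s := ({0} : Set ℂ)ᶜ) ?_
          (Set.finite_singleton (0 : ℂ)).infinite_compl)
        intro A hA'
        change Polynomial.eval A R = 0
        rw [hR]
        exact hall A _ hA'
      apply hne
      rw [hv0, ← hR, hR0]
      simp
    refine B8_final τ Ω hτ hΩ0 ?_ ⟨Q, hQ0, hroot⟩
    rw [hΩ, div_self hA]
    exact isAlgebraic_one

end Pool.Agent.MSD
end

end
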