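import Mathlib

/-! # MP_f58a57_nt, all nonspecial points: A2_Num -/

/-! ### parameters -/

section

open Filter Topology

noncomputable section

namespace Pool.Agent.MSW

theorem e2_log (A : ℝ) (hA : 0 < A) : ∀ᶠ ℓ : ℕ in atTop, A * Real.log ((ℓ ^ 4 : ℕ) : ℝ) < (ℓ : ℝ) := by
  have h := Real.isLittleO_log_id_atTop
  have hc : (0 : ℝ) < 1 / (8 * A) := by positivity
  have h1 := (h.def hc)
  have h2 := tendsto_natCast_atTop_atTop (R := ℝ) |>.eventually h1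
  filter_upwards [h2, eventually_ge_atTop 1] with ℓ h3 h4
  have hl : (1 : ℝ) ≤ (ℓ : ℝ) := by exact_mod_cast h4
  have h5 : 0 ≤ Real.log (ℓ : ℝ) := Real.log_nonneg hl
  rw [Real.norm_of_nonneg h5, id, Real.norm_of_nonneg (by linarith)] at h3
  rw [Nat.cast_pow, Real.log_pow]
  push_cast
  have h6 : 4 * A * Real.log (ℓ : ℝ) ≤ 4 * A * (1 / (8 * A) * ℓ) :=
    mul_le_mul_of_nonneg_left h3 (by linarith)
  have h7 : 4 * A * (1 / (8 * A) * (ℓ : ℝ)) = ℓ / 2 := by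
    field_simp
    ring
  calc A * (4 * Real.log (ℓ : ℝ)) = 4 * A * Real.log (ℓ : ℝ) := by ring
    _ ≤ ℓ / 2 := h6.trans_eq h7
    _ < ℓ := by linarith

/-- the inequalities for real numbers -/
theorem e2_real (C Λ T g x : ℝ) (hC : 1 ≤ C) (hΛ : 1 ≤ Λ) (hx : 1 ≤ x) (hxT : x ≤ T) (hg : 1 ≤ g)
    (h : 8 * C ^ 3 * Λ ^ 3 * g < x) :
    ∃ R : ℝ, 1 ≤ R ∧ C * (T * g + Λ * T ^ 2 * g) ≤ x * R ^ 2 ∧
      C * R * (T * g + Λ * T ^ 2 * g) < T * T * (T * g) := by
  have hT : 1 ≤ T := hx.trans hxT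
  have hT0 : 0 < T := by linarith
  have hg0 : 0 < g := by linarith
  have hx0 : 0 < x := by linarith
  have hC0 : 0 < C := by linarith
  have hΛ0 : 0 < Λ := by linarith
  have hTT : T ≤ Λ * T ^ 2 := by
    calc T = 1 * (T * 1) := by ring
      _ ≤ Λ * (T * T) := mul_le_mul hΛ (mul_le_mul_of_nonneg_left hT hT0.le) (by linarith) hΛ0.le
      _ = Λ * T ^ 2 := by ring
  have hs : T * g + Λ * T ^ 2 * g ≤ 2 * Λ * T ^ 2 * g := by
    calc T * g + Λ * T ^ 2 * g ≤ Λ * T ^ 2 * g + Λ * T ^ 2 * g :=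
          add_le_add (mul_le_mul_of_nonneg_right hTT hg0.le) le_rfl
      _ = 2 * Λ * T ^ 2 * g := by ring
  obtain ⟨Q, hQ⟩ : ∃ Q : ℝ, Q = 2 * C * Λ * T ^ 2 * g / x := ⟨_, rfl⟩
  have hQ1 : 1 ≤ Q := by
    rw [hQ, le_div_iff₀ hx0]
    have h1 : T ≤ T ^ 2 := by
      calc T = T * 1 := by ring
        _ ≤ T * T := mul_le_mul_of_nonneg_left hT hT0.le
        _ = T ^ 2 := by ring
    have h2 : (1 : ℝ) ≤ 2 * C * Λ := by
      have : 1 ≤ C * Λ := one_le_mul_of_one_le_of_one_le hC hΛ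
      calc (1 : ℝ) ≤ 2 * (C * Λ) := by linarith
        _ = 2 * C * Λ := by ring
    have h3 : (1 : ℝ) * (T ^ 2 * 1) ≤ 2 * C * Λ * (T ^ 2 * g) :=
      mul_le_mul h2 (mul_le_mul_of_nonneg_left hg (by positivity)) (by positivity) (by positivity)
    calc 1 * x ≤ T := by linarith
      _ ≤ T ^ 2 := h1
      _ = 1 * (T ^ 2 * 1) := by ring
      _ ≤ 2 * C * Λ * (T ^ 2 * g) := h3
      _ = 2 * C * Λ * T ^ 2 * g := by ring
  have hQ0 : 0 ≤ Q := by linarith
  have hsq : Real.sqrt Q ^ 2 = Q := Real.sq_sqrt hQ0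
  have hR1 : 1 ≤ Real.sqrt Q := Real.one_le_sqrt.2 hQ1
  have hR0 : 0 ≤ Real.sqrt Q := by linarith
  refine ⟨Real.sqrt Q, hR1, ?_, ?_⟩
  · rw [hsq, hQ]
    have h1 : x * (2 * C * Λ * T ^ 2 * g / x) = C * (2 * Λ * T ^ 2 * g) := by
      field_simp
    rw [h1]
    exact mul_le_mul_of_nonneg_left hs hC0.le
  · have h1 : 2 * C * Λ * Real.sqrt Q < T := by
      refine lt_of_pow_lt_pow_left₀ 2 hT0.le ?_
      have h2 : (2 * C * Λ * Real.sqrt Q) ^ 2 = 8 * C ^ 3 * Λ ^ 3 * g * T ^ 2 / x := by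
        rw [mul_pow, hsq, hQ]
        field_simp
        ring
      rw [h2, div_lt_iff₀ hx0, mul_comm (T ^ 2) x]
      exact mul_lt_mul_of_pos_right h (by positivity)
    have h3 : C * Real.sqrt Q * (T * g + Λ * T ^ 2 * g) ≤ C * Real.sqrt Q * (2 * Λ * T ^ 2 * g) :=
      mul_le_mul_of_nonneg_left hs (by positivity)
    refine h3.trans_lt ?_
    have h4 : C * Real.sqrt Q * (2 * Λ * T ^ 2 * g) = (2 * C * Λ * Real.sqrt Q) * (T ^ 2 * g) := by ring
    have h5 : T * T * (T * g) = T * (T ^ 2 * g) := by ring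
    rw [h4, h5]
    exact mul_lt_mul_of_pos_right h1 (by positivity)

/-- E2. PROOF. `T = ℓ⁴`, `lg = log T = 4 log ℓ ≥ 1`, `g = Λ T² lg`, `T lg + g ≤ 2 Λ T² lg`. Let `R² = 2 C Λ T² lg/ℓ`, i.e. `R = √(2CΛ lg) ℓ^(7/2)`, `R ≥ 1`. Second inequality: `C R · 2Λ T² lg < ℓ⁴ T² lg` iff `2 C Λ R < ℓ⁴`, i.e. `4 C² Λ² · 2 C Λ lg ℓ⁷ < ℓ⁸`, i.e. `8 C³ Λ³ lg < ℓ`: true for large `ℓ`
(`log ℓ = o(ℓ)`, `Real.isLittleO_log_id_atTop`; see K/G3_Par `g3_log`). -/
theorem params (C Λ : ℝ) (hC : 1 ≤ C) (hΛ : 1 ≤ Λ) :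
    ∀ᶠ ℓ : ℕ in atTop, ∃ R : ℝ, 1 ≤ R ∧
      C * ((ℓ ^ 4 : ℕ) * Real.log (ℓ ^ 4 : ℕ) + Λ * (ℓ ^ 4 : ℕ) ^ 2 * Real.log (ℓ ^ 4 : ℕ)) ≤ ℓ * R ^ 2 ∧
      C * R * ((ℓ ^ 4 : ℕ) * Real.log (ℓ ^ 4 : ℕ) + Λ * (ℓ ^ 4 : ℕ) ^ 2 * Real.log (ℓ ^ 4 : ℕ)) <
        ((ℓ ^ 4 : ℕ) : ℝ) * (ℓ ^ 4 : ℕ) * ((ℓ ^ 4 : ℕ) * Real.log (ℓ ^ 4 : ℕ)) := by
  have hA : 0 < 8 * C ^ 3 * Λ ^ 3 := by positivity
  filter_upwards [e2_log (8 * C ^ 3 * Λ ^ 3) hA, eventually_ge_atTop 3] with ℓ h1 h2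
  have hl : (3 : ℝ) ≤ (ℓ : ℝ) := by exact_mod_cast h2
  have h3 : (ℓ : ℝ) ≤ ((ℓ ^ 4 : ℕ) : ℝ) := by
    have : ℓ ≤ ℓ ^ 4 := Nat.le_self_pow (by norm_num) ℓ
    exact_mod_cast this
  have h4 : 1 ≤ Real.log ((ℓ ^ 4 : ℕ) : ℝ) := by
    rw [Real.le_log_iff_exp_le (by linarith)]
    have := Real.exp_one_lt_d9
    linarith
  exact e2_real C Λ _ _ _ hC hΛ (by linarith) h3 h4 h1

end Pool.Agent.MSW

end
end

/-! ### sizes -/

section

noncomputable section

namespace Pool.Agent.MSW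

/-- F2a. the sizes. PROOF. `log T ≥ 1`, `L, E ≤ T`; `2L + 4E + 2T ≤ 8T`; `log ((7T · 8T)^T (44 T)^T) ≤ T (2 log T + log 56) + T (log T + log 44)`, `log ((T+1) T^T) ≤ ..`. -/
theorem f2_log (L E T : ℕ) (hT : 3 ≤ T) (hL : 1 ≤ L) (hE : 1 ≤ E) (hLT : L ≤ T) (hET : E ≤ T) :
    Real.log ((L : ℝ) ^ 2 * E * ((7 * T * (2 * L + 4 * E + 2 * T : ℝ)) ^ T * (16 * L + 28 * E : ℝ) ^ E) * ((T + 1) * (T : ℝ) ^ T)) ≤
      20 * (T * Real.log T) := by
  have hTr : (3 : ℝ) ≤ T := by exact_mod_cast hT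
  have hT0 : (0 : ℝ) < T := by linarith
  have hT1 : (1 : ℝ) ≤ T := by linarith
  have hLr : (1 : ℝ) ≤ L := by exact_mod_cast hL
  have hEr : (1 : ℝ) ≤ E := by exact_mod_cast hE
  have hLT' : (L : ℝ) ≤ T := by exact_mod_cast hLT
  have hET' : (E : ℝ) ≤ T := by exact_mod_cast hET
  have hL0 : (0 : ℝ) ≤ L := by linarith
  have hE0 : (0 : ℝ) ≤ E := by linarith
  have h81 : (81 : ℝ) ≤ (T : ℝ) ^ 4 := by
    have := pow_le_pow_left₀ (by norm_num : (0 : ℝ) ≤ 3) hTr 4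
    norm_num at this
    exact this
  have h1 : (L : ℝ) ^ 2 * E ≤ (T : ℝ) ^ 3 := by
    have e : (T : ℝ) ^ 3 = (T : ℝ) ^ 2 * T := by ring
    rw [e]
    exact mul_le_mul (pow_le_pow_left₀ hL0 hLT' 2) hET' hE0 (by positivity)
  have hsum : (2 * L + 4 * E + 2 * T : ℝ) ≤ 8 * T := by linarith
  have hsum0 : (0 : ℝ) ≤ 2 * L + 4 * E + 2 * T := by linarith
  have h2 : 7 * T * (2 * L + 4 * E + 2 * T : ℝ) ≤ (T : ℝ) ^ 6 := by
    calc 7 * T * (2 * L + 4 * E + 2 * T : ℝ) ≤ 7 * T * (8 * T) :=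
          mul_le_mul_of_nonneg_left hsum (by positivity)
      _ = 56 * (T : ℝ) ^ 2 := by ring
      _ ≤ (T : ℝ) ^ 4 * (T : ℝ) ^ 2 :=
          mul_le_mul_of_nonneg_right (by linarith) (by positivity)
      _ = (T : ℝ) ^ 6 := by ring
  have h3 : (16 * L + 28 * E : ℝ) ≤ (T : ℝ) ^ 5 := by
    calc (16 * L + 28 * E : ℝ) ≤ 44 * T := by linarith
      _ ≤ (T : ℝ) ^ 4 * T := mul_le_mul_of_nonneg_right (by linarith) hT0.le
      _ = (T : ℝ) ^ 5 := by ring
  have h3' : (16 * L + 28 * E : ℝ) ^ E ≤ ((T : ℝ) ^ 5) ^ T :=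
    (pow_le_pow_left₀ (by linarith) h3 E).trans
      (pow_le_pow_right₀ (one_le_pow₀ hT1) hET)
  have h2' : (7 * T * (2 * L + 4 * E + 2 * T : ℝ)) ^ T ≤ ((T : ℝ) ^ 6) ^ T :=
    pow_le_pow_left₀ (by positivity) h2 T
  have h4 : (T : ℝ) + 1 ≤ (T : ℝ) ^ 2 := by nlinarith
  have hE1 : (0 : ℝ) < 16 * L + 28 * E := by linarith
  have hS1 : (0 : ℝ) < 2 * L + 4 * E + 2 * T := by linarith
  have hpos : 0 < (L : ℝ) ^ 2 * E * ((7 * T * (2 * L + 4 * E + 2 * T : ℝ)) ^ T *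
      (16 * L + 28 * E : ℝ) ^ E) * ((T + 1) * (T : ℝ) ^ T) := by
    have a1 : (0 : ℝ) < L := by linarith
    have a2 : (0 : ℝ) < E := by linarith
    exact mul_pos (mul_pos (mul_pos (pow_pos a1 2) a2) (mul_pos (pow_pos (mul_pos (by linarith) hS1) T)
      (pow_pos hE1 E))) (mul_pos (by linarith) (pow_pos hT0 T))
  have hle : (L : ℝ) ^ 2 * E * ((7 * T * (2 * L + 4 * E + 2 * T : ℝ)) ^ T *
      (16 * L + 28 * E : ℝ) ^ E) * ((T + 1) * (T : ℝ) ^ T) ≤ (T : ℝ) ^ (20 * T) := by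
    calc (L : ℝ) ^ 2 * E * ((7 * T * (2 * L + 4 * E + 2 * T : ℝ)) ^ T *
          (16 * L + 28 * E : ℝ) ^ E) * ((T + 1) * (T : ℝ) ^ T)
        ≤ (T : ℝ) ^ 3 * (((T : ℝ) ^ 6) ^ T * ((T : ℝ) ^ 5) ^ T) * ((T : ℝ) ^ 2 * (T : ℝ) ^ T) :=
          mul_le_mul (mul_le_mul h1 (mul_le_mul h2' h3' (pow_nonneg hE1.le E) (by positivity))
            (mul_nonneg (pow_nonneg (mul_nonneg (by linarith) hsum0) T) (pow_nonneg hE1.le E))
            (by positivity)) (mul_le_mul_of_nonneg_right h4 (by positivity))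
            (mul_nonneg (by linarith) (by positivity)) (by positivity)
      _ = (T : ℝ) ^ (5 + 12 * T) := by
          rw [← pow_mul, ← pow_mul, ← pow_add, ← pow_add, ← pow_add, ← pow_add]
          congr 1
          ring
      _ ≤ (T : ℝ) ^ (20 * T) := pow_le_pow_right₀ hT1 (by omega)
  refine (Real.log_le_log hpos hle).trans ?_
  rw [Real.log_pow]
  push_cast
  linarith

theorem f2_logT (T : ℕ) (hT : 3 ≤ T) : 1 ≤ Real.log T := by
  rw [Real.le_log_iff_exp_le (by positivity)]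
  have h1 : Real.exp 1 < 2.7182818286 := Real.exp_one_lt_d9
  have h2 : (3 : ℝ) ≤ T := by exact_mod_cast hT
  linarith

/-- the final estimate -/
theorem f2_end (T lg Λ C g : ℝ) (hlg : 1 ≤ lg) (hT : 0 ≤ T) (hΛ : 1 ≤ Λ) (hCT : 2 * C ≤ T) (hg : g = Λ * T ^ 2 * lg) :
    -g + C * (T * lg) ≤ -(Λ / 2 * T ^ 2 * lg) := by
  rw [hg]
  have h1 : C * (T * lg) ≤ (T / 2) * (T * lg) := mul_le_mul_of_nonneg_right (by linarith) (by positivity)
  have h2 : (T / 2) * (T * lg) ≤ Λ * ((T / 2) * (T * lg)) := by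
    have : 0 ≤ (T / 2) * (T * lg) := by positivity
    nlinarith
  nlinarith

end Pool.Agent.MSW

end
end

/-! ### product over the signs -/

section

open MvPolynomial

noncomputable section

namespace Pool.Agent.MSW

/-- the sign change of the second set of variables -/
def sg2 (ε : Fin 2 → Bool) (y : Fin 2 → ℂ) : Fin 2 → ℂ := fun l => if ε l then y l else -y l

/-- the diagonal substitution -/
def va05_t (c : Fin 2 ⊕ Fin 2 → ℂ) : MvPolynomial (Fin 2 ⊕ Fin 2) ℂ →ₐ[ℂ] MvPolynomial (Fin 2 ⊕ Fin 2) ℂ :=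
  aeval fun s => C (c s) * X s

theorem va05_coeff (c : Fin 2 ⊕ Fin 2 → ℂ) (p : MvPolynomial (Fin 2 ⊕ Fin 2) ℂ)
    (m : Fin 2 ⊕ Fin 2 →₀ ℕ) : coeff m (va05_t c p) = (∏ s, c s ^ m s) * coeff m p := by
  induction p using MvPolynomial.induction_on' with
  | add p q hp hq => rw [map_add, coeff_add, coeff_add, hp, hq, mul_add]
  | monomial a b =>
    rw [va05_t, aeval_monomial, Finsupp.prod_fintype _ _ (fun i => pow_zero _)]
    simp only [mul_pow, Finset.prod_mul_distrib]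
    rw [algebraMap_eq]
    have h1 : (∏ x, (C (c x) : MvPolynomial (Fin 2 ⊕ Fin 2) ℂ) ^ a x) = C (∏ x, c x ^ a x) := by
      rw [map_prod]
      simp only [map_pow]
    have h2 : (∏ x, (X x : MvPolynomial (Fin 2 ⊕ Fin 2) ℂ) ^ a x) = monomial a 1 := by
      rw [monomial_eq, C_1, one_mul, Finsupp.prod_fintype _ _ (fun i => pow_zero _)]
    rw [h1, h2, coeff_C_mul, coeff_C_mul, coeff_monomial, coeff_monomial]
    by_cases h : a = m
    · subst h
      simp only [if_true]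
      ring
    · simp only [if_neg h, mul_zero]

theorem va05_deg (c : Fin 2 ⊕ Fin 2 → ℂ) (p : MvPolynomial (Fin 2 ⊕ Fin 2) ℂ) :
    (va05_t c p).totalDegree ≤ p.totalDegree := by
  refine totalDegree_le_of_support_subset fun m hm => ?_
  rw [mem_support_iff] at hm ⊢
  intro h
  apply hm
  rw [va05_coeff, h, mul_zero]

theorem va05_aeval (c : Fin 2 ⊕ Fin 2 → ℂ) (p : MvPolynomial (Fin 2 ⊕ Fin 2) ℂ)
    (v : Fin 2 ⊕ Fin 2 → ℂ) : aeval v (va05_t c p) = aeval (fun s => c s * v s) p := by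
  have h : (aeval v).comp (va05_t c) = aeval (fun s => c s * v s) := by
    refine MvPolynomial.algHom_ext fun s => ?_
    rw [AlgHom.comp_apply, va05_t, aeval_X, map_mul, aeval_C, aeval_X, aeval_X]
    rfl
  exact congrArg (fun f : MvPolynomial (Fin 2 ⊕ Fin 2) ℂ →ₐ[ℂ] ℂ => f p) h

theorem va05_comp (c d : Fin 2 ⊕ Fin 2 → ℂ) (p : MvPolynomial (Fin 2 ⊕ Fin 2) ℂ) :
    va05_t c (va05_t d p) = va05_t (fun s => c s * d s) p := by
  ext m
  rw [va05_coeff, va05_coeff, va05_coeff]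
  simp only [mul_pow, Finset.prod_mul_distrib]
  ring

/-- the signs -/
def va05_e (ε : Fin 2 → Bool) : Fin 2 ⊕ Fin 2 → ℂ := Sum.elim (fun _ => 1) fun l => if ε l then 1 else -1

/-- the sign change of one variable -/
def va05_f (l : Fin 2) : Fin 2 ⊕ Fin 2 → ℂ := fun s => if s = Sum.inr l then -1 else 1

theorem va05_fe (l : Fin 2) (ε : Fin 2 → Bool) :
    (fun s => va05_f l s * va05_e ε s) = va05_e (Function.update ε l (!ε l)) := by
  funext s
  rcases s with i | i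
  · simp [va05_f, va05_e]
  · by_cases h : i = l
    · subst h
      cases hε : ε i <;> simp [va05_f, va05_e, hε]
    · simp [va05_f, va05_e, h]

/-- the product over the signs -/
def va05_p (δ : MvPolynomial (Fin 2 ⊕ Fin 2) ℂ) : MvPolynomial (Fin 2 ⊕ Fin 2) ℂ :=
  ∏ ε : Fin 2 → Bool, va05_t (va05_e ε) δ

theorem va05_inv (δ : MvPolynomial (Fin 2 ⊕ Fin 2) ℂ) (l : Fin 2) :
    va05_t (va05_f l) (va05_p δ) = va05_p δ := by
  rw [va05_p, map_prod]
  simp only [va05_comp, va05_fe]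
  refine Finset.prod_bij (fun ε _ => Function.update ε l (!ε l)) (fun _ _ => Finset.mem_univ _)
    ?_ ?_ (fun _ _ => rfl)
  · intro a _ b _ h
    have h1 := congrArg (fun ε : Fin 2 → Bool => Function.update ε l (!ε l)) h
    simpa using h1
  · intro b _
    exact ⟨Function.update b l (!b l), Finset.mem_univ _, by simp⟩

theorem va05_even (δ : MvPolynomial (Fin 2 ⊕ Fin 2) ℂ) (l : Fin 2) (m : Fin 2 ⊕ Fin 2 →₀ ℕ)
    (hm : coeff m (va05_p δ) ≠ 0) : Even (m (Sum.inr l)) := by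
  by_contra hodd
  rw [Nat.not_even_iff_odd] at hodd
  apply hm
  have h1 := va05_coeff (va05_f l) (va05_p δ) m
  have h2 : ∏ s, va05_f l s ^ m s = -1 := by
    rw [Finset.prod_eq_single (Sum.inr l)]
    · rw [va05_f, if_pos rfl, hodd.neg_one_pow]
    · intro b _ hb
      rw [va05_f, if_neg hb, one_pow]
    · intro h
      exact absurd (Finset.mem_univ _) h
  rw [va05_inv, h2] at h1
  linear_combination (1 / 2) * h1

theorem va05_pdeg (δ : MvPolynomial (Fin 2 ⊕ Fin 2) ℂ) (n : ℕ) (hn : δ.totalDegree ≤ n) :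
    (va05_p δ).totalDegree ≤ 4 * n := by
  refine (totalDegree_finsetProd _ _).trans ((Finset.sum_le_sum fun ε _ =>
    (va05_deg (va05_e ε) δ).trans hn).trans ?_)
  rw [Finset.sum_const, Finset.card_univ, Fintype.card_fun, Fintype.card_bool, Fintype.card_fin,
    smul_eq_mul]
  norm_num

/-- the cubic -/
def va05_c (g G : ℂ) (l : Fin 2) : MvPolynomial (Fin 2) ℂ :=
  C 4 * X l ^ 3 - C (2 * g) * X l - C G

theorem va05_cdeg (g G : ℂ) (l : Fin 2) : (va05_c g G l).totalDegree ≤ 3 := by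
  rw [va05_c]
  refine (totalDegree_sub _ _).trans (max_le ((totalDegree_sub _ _).trans (max_le ?_ ?_)) ?_)
  · refine (totalDegree_mul _ _).trans ?_
    rw [totalDegree_C, totalDegree_X_pow]
  · refine (totalDegree_mul _ _).trans ?_
    rw [totalDegree_C, totalDegree_X]
    norm_num
  · rw [totalDegree_C]
    norm_num

/-- V4a. PROOF. Let `p = ∏ ε, δ(x, ε y)` (the polynomial obtained by `X (inr l) ↦ ± X (inr l)`), of total degree `≤ 4 n`. It is invariant under each `y_l ↦ -y_l`, so its coefficients at monomials with an odd exponent of some `y_l` vanish. `W = ∑_m coeff · x^(m_x) ∏ (4 x_l^3 - 2 g x_l - G)^(m_(y_l)/2)`;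
each term has total degree `≤ m_x + 3 (m_y/2) ≤ 6 n`. -/
theorem sign_norm (δ : MvPolynomial (Fin 2 ⊕ Fin 2) ℂ) (n : ℕ) (hn : δ.totalDegree ≤ n) (g G : ℂ) :
    ∃ W : MvPolynomial (Fin 2) ℂ, W.totalDegree ≤ 6 * n ∧ ∀ x y : Fin 2 → ℂ, (∀ l, y l ^ 2 = 4 * x l ^ 3 - 2 * g * x l - G) →
      aeval x W = ∏ ε : Fin 2 → Bool, aeval (Sum.elim x (sg2 ε y)) δ := by
  refine ⟨∑ m ∈ (va05_p δ).support, C (coeff m (va05_p δ)) *
    ((∏ l, X l ^ m (Sum.inl l)) * ∏ l, va05_c g G l ^ (m (Sum.inr l) / 2)), ?_, ?_⟩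
  · refine totalDegree_finsetSum_le fun m hm => ?_
    have h8 : (m.sum fun _ e => e) ≤ 4 * n := (le_totalDegree hm).trans (va05_pdeg δ n hn)
    rw [Finsupp.sum_fintype _ _ (fun _ => rfl), Fintype.sum_sum_type] at h8
    refine (totalDegree_mul _ _).trans ?_
    rw [totalDegree_C, zero_add]
    refine (totalDegree_mul _ _).trans ?_
    have h1 : (∏ l, (X l : MvPolynomial (Fin 2) ℂ) ^ m (Sum.inl l)).totalDegree ≤
        ∑ l, m (Sum.inl l) := by
      refine (totalDegree_finsetProd _ _).trans (Finset.sum_le_sum fun l _ => ?_)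
      rw [totalDegree_X_pow]
    have h2 : (∏ l, va05_c g G l ^ (m (Sum.inr l) / 2)).totalDegree ≤
        ∑ l, m (Sum.inr l) / 2 * 3 := by
      refine (totalDegree_finsetProd _ _).trans (Finset.sum_le_sum fun l _ => ?_)
      exact (totalDegree_pow _ _).trans (Nat.mul_le_mul_left _ (va05_cdeg g G l))
    have h3 : ∑ l, m (Sum.inr l) / 2 * 3 ≤ (∑ l, m (Sum.inr l)) / 2 * 3 := by
      rw [← Finset.sum_mul]
      refine Nat.mul_le_mul_right _ ?_
      rw [Fin.sum_univ_two, Fin.sum_univ_two]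
      omega
    omega
  · intro x y hxy
    have h1 : aeval (Sum.elim x y) (va05_p δ) =
        ∏ ε : Fin 2 → Bool, aeval (Sum.elim x (sg2 ε y)) δ := by
      rw [va05_p, map_prod]
      refine Finset.prod_congr rfl fun ε _ => ?_
      rw [va05_aeval]
      congr 2
      funext s
      rcases s with l | l
      · simp [va05_e]
      · by_cases h : ε l <;> simp [va05_e, sg2, h]
    rw [← h1, aeval_def (Sum.elim x y), eval₂_eq', map_sum]
    refine Finset.sum_congr rfl fun m hm => ?_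
    rw [map_mul, map_mul, aeval_C, map_prod, map_prod, Fintype.prod_sum_type]
    congr 2
    · refine Finset.prod_congr rfl fun l _ => ?_
      rw [map_pow, aeval_X]
      rfl
    · refine Finset.prod_congr rfl fun l _ => ?_
      have h2 : aeval x (va05_c g G l) = y l ^ 2 := by
        rw [hxy l, va05_c]
        simp only [map_sub, map_mul, map_pow, aeval_C, aeval_X]
        rfl
      have h3 := va05_even δ l m (mem_support_iff.1 hm)
      rw [map_pow, h2, ← pow_mul, Nat.mul_div_cancel' h3.two_dvd]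
      rfl

/-- V4b. PROOF. Otherwise `W` vanishes on `{X0, ..., X0+n}^3`, and all degrees `≤ n`: `MvPolynomial.eq_zero_of_eval_zero_at_prod_finset` (or Schwartz-Zippel). -/
theorem int_point (W : MvPolynomial (Fin 2) ℂ) (hW : W ≠ 0) (n : ℕ) (hn : W.totalDegree ≤ n) (X0 : ℕ) :
    ∃ x : Fin 2 → ℕ, (∀ l, X0 ≤ x l ∧ x l ≤ X0 + n) ∧ aeval (fun l => (x l : ℂ)) W ≠ 0 := by
  classical
  by_contra hc
  push Not at hc
  apply hW
  refine MvPolynomial.eq_zero_of_eval_zero_at_prod_finset W (fun _ => (Finset.Icc X0 (X0 + n)).image (fun k : ℕ => (k : ℂ))) ?_ ?_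
  · intro i
    rw [Finset.card_image_of_injective _ Nat.cast_injective, Nat.card_Icc]
    have := MvPolynomial.degreeOf_le_totalDegree W i
    omega
  · intro x hx
    have h1 : ∀ l, ∃ k : ℕ, k ∈ Finset.Icc X0 (X0 + n) ∧ (k : ℂ) = x l := by
      intro l
      simpa using hx l
    choose k hk using h1
    have e : x = fun l => (k l : ℂ) := funext fun l => (hk l).2.symm
    have h2 := hc k (fun l => by have := (hk l).1; rw [Finset.mem_Icc] at this; exact this)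
    rw [e, ← MvPolynomial.coe_aeval_eq_eval]
    exact h2

end Pool.Agent.MSW

end
end

/-! ### counting -/

section

namespace Pool.Agent.MSW

/-- Z8. Let `ν₀ ≤ ν` be the least `k` with `a k ≤ k`; `a` is nonincreasing on `[ν₀, ∞)`. For `k > ν₀` with `a k ≥ 1`: `a` drops at `k`, or `a' ≠ a` at `k` or `k - 1`. -/
theorem count (S J ν : ℕ) (a a' : ℕ → ℕ) (hν : S < (ν + 1) * (ν + 2) / 2) (h1 : ∀ k, a k ≤ k + 1) (h2 : ∀ k, a' k ≤ a k)
    (h3 : ∀ k, a k ≤ k → a (k + 1) ≤ a k) (h4 : ∀ K, ∑ k ∈ Finset.range K, a k ≤ S)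
    (h5 : ∀ K, ∑ k ∈ Finset.range K, a k ≤ ∑ k ∈ Finset.range K, a' k + J)
    (h6 : ∀ k, a (k + 1) = a k → a' k = a k → a' (k + 1) = a k → a k ≤ k → a k = 0) (k : ℕ) (hk : 2 * ν + 2 * J ≤ k) : a k = 0 := by
  -- an index with `a ν ≤ ν`
  obtain ⟨ν', hν', haν'⟩ : ∃ ν', ν' ≤ ν ∧ a ν' ≤ ν' := by
    by_contra hcon
    push Not at hcon
    have e1 : ∀ i ∈ Finset.range (ν + 1), a i = i + 1 := by
      intro i hi
      have h7 := hcon i (by have := Finset.mem_range.1 hi; omega)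
      have h8 := h1 i
      omega
    have e2 := h4 (ν + 1)
    rw [Finset.sum_congr rfl e1, Finset.sum_add_distrib, Finset.sum_range_id, Finset.sum_const,
      Finset.card_range, smul_eq_mul, mul_one] at e2
    have e3 : (ν + 1) * (ν + 2) = (ν + 1) * (ν + 1 - 1) + (ν + 1) * 2 := by
      rw [Nat.add_sub_cancel]
      ring
    rw [e3, Nat.add_mul_div_right _ _ (by norm_num)] at hν
    omega
  -- the differences
  have hd : ∀ K, ∑ i ∈ Finset.range K, (a i - a' i) ≤ J := by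
    intro K
    have e1 : ∑ i ∈ Finset.range K, (a i - a' i) + ∑ i ∈ Finset.range K, a' i =
        ∑ i ∈ Finset.range K, a i := by
      rw [← Finset.sum_add_distrib]
      exact Finset.sum_congr rfl fun i _ => Nat.sub_add_cancel (h2 i)
    have e2 := h5 K
    omega
  -- monotonicity
  have hm : ∀ j, a (ν' + j) ≤ ν' ∧ a (ν' + j) ≤ a ν' := by
    intro j
    induction j with
    | zero => exact ⟨haν', le_rfl⟩
    | succ j ih =>
      have e1 := h3 (ν' + j) (by omega)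
      have e2 : ν' + (j + 1) = ν' + j + 1 := by ring
      rw [e2]
      omega
  have key : ∀ j, a (ν' + j) ≠ 0 →
      j + a (ν' + j) ≤ a ν' + ∑ m ∈ Finset.range j, (a (ν' + m) - a' (ν' + m)) +
        ∑ m ∈ Finset.range j, (a (ν' + 1 + m) - a' (ν' + 1 + m)) := by
    intro j
    induction j with
    | zero => intro _; simp
    | succ j ih =>
      intro hj
      have e0 := hm j
      have e1 := h3 (ν' + j) (by omega)
      have e2 : ν' + (j + 1) = ν' + j + 1 := by ring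
      have e3 : ν' + 1 + j = ν' + j + 1 := by ring
      rw [e2] at hj
      have e4 : a (ν' + j) ≠ 0 := by omega
      have e5 := ih e4
      rw [e2, Finset.sum_range_succ, Finset.sum_range_succ, e3]
      have e6 : a (ν' + j + 1) + 1 ≤ a (ν' + j) + (a (ν' + j) - a' (ν' + j)) +
          (a (ν' + j + 1) - a' (ν' + j + 1)) := by
        by_contra hcon
        have f1 := h2 (ν' + j)
        have f2 := h2 (ν' + j + 1)
        have f3 : a (ν' + j + 1) = a (ν' + j) := by omega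
        have f4 : a' (ν' + j) = a (ν' + j) := by omega
        have f5 : a' (ν' + j + 1) = a (ν' + j) := by omega
        exact e4 (h6 (ν' + j) f3 f4 f5 (by omega))
      omega
  by_contra hne
  obtain ⟨j, rfl⟩ : ∃ j, k = ν' + j := ⟨k - ν', by omega⟩
  have e1 := key j hne
  have e2 : ∑ m ∈ Finset.range j, (a (ν' + m) - a' (ν' + m)) ≤ J := by
    have f1 := hd (ν' + j)
    rw [Finset.sum_range_add] at f1
    omega
  have e3 : ∑ m ∈ Finset.range j, (a (ν' + 1 + m) - a' (ν' + 1 + m)) ≤ J := by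
    have f1 := hd (ν' + 1 + j)
    rw [Finset.sum_range_add] at f1
    omega
  omega

end Pool.Agent.MSW

end
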