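import Mathlib
import Pool.Agent.Lib.MP_f58a57_nt.FK.K003
import Pool.Agent.Lib.MP_f58a57_nt.FK.K009
import Pool.Agent.Lib.MP_f58a57_nt.FK.K016
import Pool.Agent.Lib.MP_f58a57_nt.FK.K020

namespace Pool.Agent.MSD
end Pool.Agent.MSD
namespace Pool.Agent.MSK
end Pool.Agent.MSK
namespace Pool.Agent.MSP
end Pool.Agent.MSP

section

/-! # MP_f58a57_nt, all nonspecial points: A1_Defs -/

/-! ### MP_f58a57_nt, all nonspecial points: definitions

`z` is a point of the upper half plane, `E = ℂ/(ℤ + ℤz)`. The auxiliary functions live on `ℂ² = Lie(E × E)`; they are combinations of the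
functions `Rp ν`, sections of weight `2L`, of degree `< E` in one additive function `Q`, periodic under the lattice
`{(m₀ + n₀ z, n₀ + n₁ z)}` of rank three. -/

section

open Complex MvPolynomial

noncomputable section

namespace Pool.Agent.MSW

open MSD MSP

/-- a point `z` of the upper half plane, a square root `om` of `π` and two base points -/
structure Dw where
  z : ℂ
  im : 0 < z.im
  om : ℂ
  hom : om ^ 2 = Real.pi
  h : Fin 2 → ℂ
  hh : ∀ l, th z (h l) ≠ 0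

theorem Dw.ne (D : Dw) : D.om ≠ 0 := by
  intro h
  have := D.hom
  rw [h] at this
  have hp : (Real.pi : ℂ) ≠ 0 := by exact_mod_cast Real.pi_ne_zero
  apply hp
  rw [← this]
  norm_num

/-- `1/(2i)` -/
abbrev rh : ℂ := MSK.rh

/-- the coefficients `1, z` -/
def cz (z : ℂ) (l : Fin 2) : ℂ := if l = 0 then 1 else z

namespace Dw

/-- the Weierstrass function of the lattice `om (ℤ + ℤz)` at the point `om (h l + t)` -/
def X (D : Dw) (l : Fin 2) (t : ℂ) : ℂ := wp D.z (sE D.z) (D.h l + t) / D.om ^ 2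

/-- its derivative -/
def Y (D : Dw) (l : Fin 2) (t : ℂ) : ℂ := deriv (wp D.z (sE D.z)) (D.h l + t) / D.om ^ 3

/-- the logarithmic derivative of the theta function, normalised to vanish at `t = 0` -/
def ps (D : Dw) (l : Fin 2) (t : ℂ) : ℂ := ph D.z (D.h l + t) - ph D.z (D.h l)

/-- `g₂ / 2` -/
def g (D : Dw) : ℂ := 2 / 3 * Real.pi ^ 4 * e4 D.z / D.om ^ 4

/-- `g₃` -/
def g3 (D : Dw) : ℂ := 8 / 27 * Real.pi ^ 6 * e6 D.z / D.om ^ 6

/-- the constant `sE / π` -/
def k (D : Dw) : ℂ := sE D.z / D.om ^ 2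

/-- the constant in the additive function -/
def lam (D : Dw) : ℂ := rh / D.om * ∑ l, cz D.z l * ph D.z (D.h l)

/-- the constant of the heat type correction -/
def qq (D : Dw) : ℂ := rh ^ 2 * D.k * ∑ l, cz D.z l ^ 2

/-- the additive function, for independent `W` (linear part) and `t` -/
def Q (D : Dw) (W : ℂ) (t : Fin 2 → ℂ) : ℂ := W + rh / D.om * ∑ l, cz D.z l * D.ps l (t l)

end Dw

/-! ### The differential ring -/

/-- variables of the differential ring -/
inductive Vw : Type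
  | X (l : Fin 2) : Vw
  | Y (l : Fin 2) : Vw
  | Q : Vw
  | g : Vw
  | k : Vw
  | z : Vw
  | r : Vw
  deriving DecidableEq, Fintype

/-- `1, z` as polynomials -/
def cp (l : Fin 2) : MvPolynomial Vw ℤ := if l = 0 then 1 else MvPolynomial.X Vw.z

/-- the derivatives of the variables in the direction `a`, divided by `om` -/
def dv (a : Fin 2 → ℤ) : Vw → MvPolynomial Vw ℤ
  | .X l => MvPolynomial.C (a l) * MvPolynomial.X (Vw.Y l)
  | .Y l => MvPolynomial.C (a l) * (6 * MvPolynomial.X (Vw.X l) ^ 2 - MvPolynomial.X Vw.g)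
  | .Q => MvPolynomial.C (a 1) - MvPolynomial.X Vw.r * ∑ l, cp l * (MvPolynomial.C (a l) * (MvPolynomial.X (Vw.X l) + MvPolynomial.X Vw.k))
  | .g => 0
  | .k => 0
  | .z => 0
  | .r => 0

/-- the derivation in the direction `a` -/
def der (a : Fin 2 → ℤ) : Derivation ℤ (MvPolynomial Vw ℤ) (MvPolynomial Vw ℤ) := MvPolynomial.mkDerivation ℤ (dv a)

/-- the values of the derivation `dlt` at the variables -/
def dlv : Vw → MvPolynomial Vw ℤ
  | .X l => MvPolynomial.X Vw.r * cp l * MvPolynomial.X (Vw.Y l)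
  | .Y l => MvPolynomial.X Vw.r * cp l * (6 * MvPolynomial.X (Vw.X l) ^ 2 - MvPolynomial.X Vw.g)
  | .Q => -(MvPolynomial.X Vw.r ^ 2 * ∑ l, cp l ^ 2 * MvPolynomial.X (Vw.X l))
  | .g => 0
  | .k => 0
  | .z => 0
  | .r => 0

/-- the derivation in the direction `(1, z)` -/
def dlt : Derivation ℤ (MvPolynomial Vw ℤ) (MvPolynomial Vw ℤ) := MvPolynomial.mkDerivation ℤ dlv

/-- the covariant derivative on sections of weight `M` -/
def nab (M : ℕ) (R : MvPolynomial Vw ℤ) : MvPolynomial Vw ℤ := dlt R + (M : MvPolynomial Vw ℤ) * (MvPolynomial.X Vw.Q * R)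

/-- index set of the functions -/
abbrev Iw (L E : ℕ) : Type := (Fin 2 → Fin L) × Fin E

/-- the functions, as polynomials in the variables of the differential ring -/
def Rp {L E : ℕ} (ν : Iw L E) : MvPolynomial Vw ℤ := (nab (2 * L))^[ν.2.val] (∏ l, MvPolynomial.X (Vw.X l) ^ (ν.1 l).val)

/-! ### The analytic side -/

/-- the values of the variables for independent `W` (linear part of the additive function) and `t` -/
def evW (D : Dw) (W : ℂ) (t : Fin 2 → ℂ) : Vw → ℂ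
  | .X l => D.X l (t l)
  | .Y l => D.Y l (t l)
  | .Q => D.Q W t
  | .g => D.g
  | .k => D.k
  | .z => D.z
  | .r => rh

/-- the values of the variables at the base point -/
def vals (D : Dw) : Vw → ℂ
  | .X l => D.X l 0
  | .Y l => D.Y l 0
  | .Q => 0
  | .g => D.g
  | .k => D.k
  | .z => D.z
  | .r => rh

/-- the auxiliary function -/
def FR (D : Dw) {L E : ℕ} (c : Iw L E → ℂ) (t : Fin 2 → ℂ) : ℂ :=
  ∑ ν, c ν * MvPolynomial.aeval (evW D (D.om * t 1) t) (Rp ν)

/-- the value at `u` of `q(∂₀, ∂₁)` applied to the function `f₀(u₀) f₁(u₁)` -/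
def TF (f : Fin 2 → ℂ → ℂ) (u : Fin 2 → ℂ) (q : MvPolynomial (Fin 2) ℂ) : ℂ :=
  ∑ m ∈ q.support, q.coeff m * ∏ l, iteratedDeriv (m l) (f l) (u l)

/-- the section `(th² wp / om²)^a th^(M - 2a)` of weight `M` -/
def fa (z om : ℂ) (M a : ℕ) (t : ℂ) : ℂ := (N2 z (sE z) t / om ^ 2) ^ a * N0 z t ^ (M - 2 * a)

/-- the linear polynomial `M (W - lam) + (rh/om) ∑ c_l X_l` -/
def lin (D : Dw) (M : ℕ) (W : ℂ) : MvPolynomial (Fin 2) ℂ :=
  MvPolynomial.C (M * (W - D.lam)) + MvPolynomial.C (rh / D.om) * ∑ l, MvPolynomial.C (cz D.z l) * MvPolynomial.X l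

/-- the polynomials `B_0 = 1`, `B_{k+1} = X B_k + c B_k'` -/
def Bp (c : ℂ) : ℕ → Polynomial ℂ
  | 0 => 1
  | k + 1 => Polynomial.X * Bp c k + Polynomial.C c * Polynomial.derivative (Bp c k)

/-- the function `Rp ν` times `(th th)^(2L)`, in the independent variables `W`, `t` -/
def Gn (D : Dw) {L E : ℕ} (ν : Iw L E) (W : ℂ) (t : Fin 2 → ℂ) : ℂ :=
  TF (fun l => fa D.z D.om (2 * L) (ν.1 l).val) (fun l => D.h l + t l)
    (Polynomial.aeval (lin D (2 * L) W) (Bp ((2 * L : ℕ) * D.qq) ν.2.val))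

/-- the entire function `FR * (th th)^(2L)` -/
def GR (D : Dw) {L E : ℕ} (c : Iw L E → ℂ) (t : Fin 2 → ℂ) : ℂ := ∑ ν, c ν * Gn D ν (D.om * t 1) t

/-- the entire function in absolute coordinates -/
def GA (D : Dw) {L E : ℕ} (c : Iw L E → ℂ) (u : Fin 2 → ℂ) : ℂ := GR D c (fun l => u l - D.h l)

/-! ### Geometry of the lattice -/

/-- the points `(n₀ + n₁ z, n₁ + n₂ z)` -/
def gam (z : ℂ) (n : Fin 3 → ℝ) : Fin 2 → ℂ := ![n 0 + n 1 * z, n 1 + n 2 * z]

/-- the real coordinates `u_l = a_l + b_l z` -/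
def cb (z : ℂ) (u : Fin 2 → ℂ) (l : Fin 2) : ℝ := (u l).im / z.im

def ca (z : ℂ) (u : Fin 2 → ℂ) (l : Fin 2) : ℝ := (u l).re - cb z u l * z.re

/-- the real coordinate transversal to the real span of the lattice -/
def yy (z : ℂ) (u : Fin 2 → ℂ) : ℝ := ca z u 1 - cb z u 0

/-- the quadratic form `π (∑ (Im u_l)² / Im z + y²)` -/
def Qf (z : ℂ) (u : Fin 2 → ℂ) : ℝ := Real.pi * (∑ l, (u l).im ^ 2 / z.im + yy z u ^ 2)

/-- the normalised absolute value of `G` -/
def Nn (z : ℂ) (M : ℕ) (G : (Fin 2 → ℂ) → ℂ) (u : Fin 2 → ℂ) : ℝ := ‖G u‖ * Real.exp (-(M * Qf z u))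

end Pool.Agent.MSW

end
end

/-! ### the kernel of the sections -/

section

open Complex MvPolynomial

noncomputable section

namespace Pool.Agent.MSW

open MSD MSP

/-- the direction `(rh/om) (1, z)` -/
def Zv (z om : ℂ) : Fin 2 → ℂ := fun l => rh / om * cz z l

/-- the bilinear form -/
def eK (om : ℂ) (M : ℕ) : Fin 2 → ℂ := ![0, M * om]

/-- linear forms -/
def lf (v : Fin 2 → ℂ) : MvPolynomial (Fin 2) ℂ := ∑ l, C (v l) * X l

/-- the index set of the translations: pairs of integer vectors `(m, n)`, the translation by `m + n z` -/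
abbrev Lz : Type := (Fin 2 → ℤ) × (Fin 2 → ℤ)

/-- the translation vector -/
def wz (z : ℂ) (w : Lz) : Fin 2 → ℂ := fun l => (w.1 l : ℂ) + w.2 l * z

/-- the quasi period -/
def qz (M : ℕ) (w : Lz) (l : Fin 2) : ℂ := -(2 * Real.pi * I * M * w.2 l)

end Pool.Agent.MSW

end
end

/-! ### the lattice and the quadratic form -/

section

open Complex Filter Topology

noncomputable section

namespace Pool.Agent.MSW

open MSD MSP

/-- C2a. the coordinates are real linear; PROOF. definitions. -/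
theorem cb_add (z : ℂ) (u v : Fin 2 → ℂ) (l : Fin 2) : cb z (u + v) l = cb z u l + cb z v l := by
  simp only [cb, Pi.add_apply, Complex.add_im]
  ring

theorem ca_add (z : ℂ) (u v : Fin 2 → ℂ) (l : Fin 2) : ca z (u + v) l = ca z u l + ca z v l := by
  simp only [ca, cb_add, Pi.add_apply, Complex.add_re]
  ring

theorem yy_add (z : ℂ) (u v : Fin 2 → ℂ) : yy z (u + v) = yy z u + yy z v := by
  simp only [yy, ca_add, cb_add]
  ring

theorem c2_gam_zero (z : ℂ) (n : Fin 3 → ℝ) : gam z n 0 = n 0 + n 1 * z := rfl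

theorem c2_gam_one (z : ℂ) (n : Fin 3 → ℝ) : gam z n 1 = n 1 + n 2 * z := rfl

/-- C2b. -/
theorem cb_gam (z : ℂ) (hz : 0 < z.im) (n : Fin 3 → ℝ) : cb z (gam z n) 0 = n 1 ∧ cb z (gam z n) 1 = n 2 := by
  have hz' : z.im ≠ 0 := hz.ne'
  constructor
  · simp only [cb, c2_gam_zero]
    simp [Complex.add_im, Complex.mul_im, hz']
  · simp only [cb, c2_gam_one]
    simp [Complex.add_im, Complex.mul_im, hz']

theorem ca_gam (z : ℂ) (hz : 0 < z.im) (n : Fin 3 → ℝ) : ca z (gam z n) 0 = n 0 ∧ ca z (gam z n) 1 = n 1 := by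
  obtain ⟨h0, h1⟩ := cb_gam z hz n
  constructor
  · simp only [ca, h0, c2_gam_zero]
    simp [Complex.add_re, Complex.mul_re]
  · simp only [ca, h1, c2_gam_one]
    simp [Complex.add_re, Complex.mul_re]

theorem yy_gam (z : ℂ) (hz : 0 < z.im) (n : Fin 3 → ℝ) : yy z (gam z n) = 0 := by
  simp only [yy, (ca_gam z hz n).2, (cb_gam z hz n).1, sub_self]

/-- C2c. `u_l = a_l + b_l z`. -/
theorem coord (z : ℂ) (hz : 0 < z.im) (u : Fin 2 → ℂ) (l : Fin 2) : u l = ca z u l + cb z u l * z := by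
  have hz' : z.im ≠ 0 := hz.ne'
  apply Complex.ext
  · simp [ca, Complex.add_re, Complex.mul_re]
  · simp only [ca, cb, Complex.add_im, Complex.mul_im, Complex.ofReal_im, Complex.ofReal_re]
    field_simp
    ring

/-- C2d. reduction modulo the lattice. PROOF. `n_0 = ⌊a_0⌋`, `n_1 = ⌊b_0⌋`, `n_2 = ⌊b_1⌋`. -/
theorem reduce (z : ℂ) (hz : 0 < z.im) (u : Fin 2 → ℂ) : ∃ n : Fin 3 → ℤ, ∃ v : Fin 2 → ℂ, u = v + gam z (fun i => (n i : ℝ)) ∧
    (0 ≤ ca z v 0 ∧ ca z v 0 ≤ 1) ∧ (0 ≤ cb z v 0 ∧ cb z v 0 ≤ 1) ∧ (0 ≤ cb z v 1 ∧ cb z v 1 ≤ 1) ∧ yy z v = yy z u := by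
  let n : Fin 3 → ℤ := ![⌊ca z u 0⌋, ⌊cb z u 0⌋, ⌊cb z u 1⌋]
  let v : Fin 2 → ℂ := u - gam z (fun i => (n i : ℝ))
  have huv : u = v + gam z (fun i => (n i : ℝ)) := by
    simp only [v, sub_add_cancel]
  have e0 : ca z u 0 = ca z v 0 + (⌊ca z u 0⌋ : ℝ) := by
    conv_lhs => rw [huv]
    rw [ca_add, (ca_gam z hz _).1]
    rfl
  have e1 : cb z u 0 = cb z v 0 + (⌊cb z u 0⌋ : ℝ) := by
    conv_lhs => rw [huv]
    rw [cb_add, (cb_gam z hz _).1]
    rfl
  have e2 : cb z u 1 = cb z v 1 + (⌊cb z u 1⌋ : ℝ) := by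
    conv_lhs => rw [huv]
    rw [cb_add, (cb_gam z hz _).2]
    rfl
  have ey : yy z u = yy z v := by
    conv_lhs => rw [huv]
    rw [yy_add, yy_gam z hz, add_zero]
  refine ⟨n, v, huv, ⟨?_, ?_⟩, ⟨?_, ?_⟩, ⟨?_, ?_⟩, ey.symm⟩
  · linarith [Int.floor_le (ca z u 0)]
  · linarith [Int.lt_floor_add_one (ca z u 0)]
  · linarith [Int.floor_le (cb z u 0)]
  · linarith [Int.lt_floor_add_one (cb z u 0)]
  · linarith [Int.floor_le (cb z u 1)]
  · linarith [Int.lt_floor_add_one (cb z u 1)]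

/-- C2f. the covering. PROOF. `S` = all the points `v(a_0, b_0, b_1, y) = (a_0 + b_0 z, (y + b_0) + b_1 z)` with `a_0 = b_0 = b_1 = 0` and `y` an integer, `|y| ≤ R + 1`: `card ≤ 2R + 3 ≤ 5R`. Given `u` with `|yy u| ≤ R` take `n` from `reduce` and `y = ⌊yy u⌋`; the difference has all four coordinates in `[0, 1]`. -/
theorem cover (z : ℂ) (hz : 0 < z.im) : ∃ C : ℝ, 1 ≤ C ∧ ∀ R : ℝ, 1 ≤ R → ∃ S : Finset (Fin 2 → ℂ),
    (S.card : ℝ) ≤ C * R ∧ ∀ u : Fin 2 → ℂ, |yy z u| ≤ R → ∃ n : Fin 3 → ℤ, ∃ s ∈ S, ∀ j, ‖u j - gam z (fun i => (n i : ℝ)) j - s j‖ ≤ C := by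
  refine ⟨5 + ‖z‖, by linarith [norm_nonneg z], fun R hR => ?_⟩
  classical
  refine ⟨(Finset.Icc ⌊-R⌋ ⌊R⌋).image (fun y : ℤ => (![0, (y : ℂ)] : Fin 2 → ℂ)), ?_, ?_⟩
  · have h1 : (((Finset.Icc ⌊-R⌋ ⌊R⌋).image (fun y : ℤ => (![0, (y : ℂ)] : Fin 2 → ℂ))).card : ℝ) ≤ ((Finset.Icc ⌊-R⌋ ⌊R⌋).card : ℝ) := by
      exact_mod_cast Finset.card_image_le
    have h2 : ((Finset.Icc ⌊-R⌋ ⌊R⌋).card : ℝ) ≤ 5 * R := by
      rw [Int.card_Icc]
      have h3 : (0 : ℤ) ≤ ⌊R⌋ + 1 - ⌊-R⌋ := by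
        have : ⌊-R⌋ ≤ ⌊R⌋ := Int.floor_le_floor (by linarith)
        omega
      have h4 : (((⌊R⌋ + 1 - ⌊-R⌋).toNat : ℕ) : ℝ) = (⌊R⌋ : ℝ) + 1 - (⌊-R⌋ : ℝ) := by
        have : (((⌊R⌋ + 1 - ⌊-R⌋).toNat : ℕ) : ℤ) = ⌊R⌋ + 1 - ⌊-R⌋ := Int.toNat_of_nonneg h3
        exact_mod_cast this
      rw [h4]
      linarith [Int.floor_le R, Int.lt_floor_add_one (-R)]
    have h5 : 0 ≤ ‖z‖ * R := mul_nonneg (norm_nonneg z) (by linarith)
    linarith
  · intro u hu
    obtain ⟨n, v, huv, ⟨ha0, ha1⟩, ⟨hb0, hb1⟩, ⟨hc0, hc1⟩, hy⟩ := reduce z hz u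
    have hyu := abs_le.mp hu
    refine ⟨n, ![0, ((⌊yy z u⌋ : ℤ) : ℂ)], ?_, ?_⟩
    · rw [Finset.mem_image]
      refine ⟨⌊yy z u⌋, ?_, rfl⟩
      rw [Finset.mem_Icc]
      exact ⟨Int.floor_le_floor hyu.1, Int.floor_le_floor hyu.2⟩
    · have hv : ∀ j, u j - gam z (fun i => (n i : ℝ)) j = v j := by
        intro j
        have := congrFun huv j
        simp only [Pi.add_apply] at this
        rw [this]
        ring
      have hz0 := norm_nonneg z
      intro j
      rw [hv j]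
      fin_cases j
      · have e := coord z hz v 0
        simp only [Fin.zero_eta, Fin.isValue, Matrix.cons_val_zero, sub_zero]
        rw [e]
        have n1 : ‖((ca z v 0 : ℝ) : ℂ)‖ ≤ 1 := by
          rw [Complex.norm_real, Real.norm_eq_abs, abs_of_nonneg ha0]
          exact ha1
        have n2 : ‖((cb z v 0 : ℝ) : ℂ) * z‖ ≤ ‖z‖ := by
          rw [norm_mul, Complex.norm_real, Real.norm_eq_abs, abs_of_nonneg hb0]
          exact mul_le_of_le_one_left hz0 hb1
        calc ‖((ca z v 0 : ℝ) : ℂ) + ((cb z v 0 : ℝ) : ℂ) * z‖ ≤ ‖((ca z v 0 : ℝ) : ℂ)‖ + ‖((cb z v 0 : ℝ) : ℂ) * z‖ := norm_add_le _ _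
          _ ≤ 1 + ‖z‖ := add_le_add n1 n2
          _ ≤ 5 + ‖z‖ := by linarith
      · have e := coord z hz v 1
        simp only [Fin.mk_one, Fin.isValue, Matrix.cons_val_one]
        have hy' : ca z v 1 - cb z v 0 = yy z u := hy
        have f1 := Int.floor_le (yy z u)
        have f2 := Int.lt_floor_add_one (yy z u)
        have e' : v 1 - ((⌊yy z u⌋ : ℤ) : ℂ) = ((ca z v 1 - (⌊yy z u⌋ : ℝ) : ℝ) : ℂ) + ((cb z v 1 : ℝ) : ℂ) * z := by
          rw [e]
          push_cast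
          ring
        have e'' : ‖v 1 - ((⌊yy z u⌋ : ℤ) : ℂ)‖ ≤ 2 + ‖z‖ := by
          rw [e']
          have n1 : ‖((ca z v 1 - (⌊yy z u⌋ : ℝ) : ℝ) : ℂ)‖ ≤ 2 := by
            rw [Complex.norm_real, Real.norm_eq_abs, abs_le]
            constructor <;> linarith
          have n2 : ‖((cb z v 1 : ℝ) : ℂ) * z‖ ≤ ‖z‖ := by
            rw [norm_mul, Complex.norm_real, Real.norm_eq_abs, abs_of_nonneg hc0]
            exact mul_le_of_le_one_left hz0 hc1
          exact (norm_add_le _ _).trans (add_le_add n1 n2)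
        exact e''.trans (by linarith)

end Pool.Agent.MSW

end
end

/-! ### the quadratic form -/

section

open Complex Filter Topology

noncomputable section

namespace Pool.Agent.MSW

open MSD MSP

/-- the imaginary parts as linear maps -/
def c2c_im (l : Fin 2) : (Fin 2 → ℂ) →ₗ[ℝ] ℝ where
  toFun v := (v l).im
  map_add' v w := by rw [Pi.add_apply, Complex.add_im]
  map_smul' c v := by
    rw [Pi.smul_apply, Complex.real_smul, Complex.im_ofReal_mul, RingHom.id_apply, smul_eq_mul]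

/-- the transversal coordinate as a linear map -/
def c2c_yy (z : ℂ) : (Fin 2 → ℂ) →ₗ[ℝ] ℝ where
  toFun v := yy z v
  map_add' v w := yy_add z v w
  map_smul' c v := by
    simp only [yy, ca, cb, Pi.smul_apply, Complex.real_smul, Complex.im_ofReal_mul,
      Complex.re_ofReal_mul, RingHom.id_apply, smul_eq_mul]
    ring

/-- the linear functional `y ↦ 2 B(s, y)` -/
def c2c_B (z : ℂ) (s : Fin 2 → ℂ) : (Fin 2 → ℂ) →ₗ[ℝ] ℝ :=
  (2 * Real.pi) • (∑ l, ((s l).im / z.im) • c2c_im l + (yy z s) • c2c_yy z)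

theorem c2c_B_apply (z : ℂ) (s y : Fin 2 → ℂ) : c2c_B z s y =
    2 * Real.pi * (∑ l, (s l).im / z.im * (y l).im + yy z s * yy z y) := by
  unfold c2c_B
  rw [LinearMap.smul_apply, LinearMap.add_apply, LinearMap.sum_apply]
  rfl

/-- C2e. PROOF. `Qf` is a real quadratic form: `Qf (s + y) = Qf s + 2 B(s, y) + Qf y` with `B` real bilinear; the real linear functional `y ↦ 2 B(s, y)` is the real part of a complex linear functional (`Module.Dual.extendRCLike`, see `Qf_polar` in K/C2c_Qf). -/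
theorem Qf_polar (z : ℂ) (s : Fin 2 → ℂ) : ∃ ℓ : (Fin 2 → ℂ) →ₗ[ℂ] ℂ, ∀ y : Fin 2 → ℂ, Qf z (s + y) = Qf z s + (ℓ y).re + Qf z y := by
  refine ⟨Module.Dual.extendRCLike (𝕜 := ℂ) (c2c_B z s), fun y => ?_⟩
  have h1 : ((Module.Dual.extendRCLike (𝕜 := ℂ) (c2c_B z s)) y).re = c2c_B z s y :=
    Module.Dual.re_extendRCLike_apply (𝕜 := ℂ) (c2c_B z s) y
  rw [h1, c2c_B_apply]
  unfold Qf
  rw [yy_add]
  simp only [Fin.sum_univ_two, Pi.add_apply, Complex.add_im]
  ring

theorem Qf_nonneg (z : ℂ) (hz : 0 < z.im) (u : Fin 2 → ℂ) : 0 ≤ Qf z u := by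
  unfold Qf
  refine mul_nonneg Real.pi_pos.le (add_nonneg (Finset.sum_nonneg fun l _ => ?_) (sq_nonneg _))
  exact div_nonneg (sq_nonneg _) hz.le

theorem c2c_lin_bound (f : (Fin 2 → ℂ) →ₗ[ℝ] ℝ) : ∃ C : ℝ, 0 ≤ C ∧ ∀ v, f v ^ 2 ≤ C * ‖v‖ ^ 2 := by
  refine ⟨‖LinearMap.toContinuousLinearMap f‖ ^ 2, sq_nonneg _, fun v => ?_⟩
  have h1 := (LinearMap.toContinuousLinearMap f).le_opNorm v
  rw [LinearMap.coe_toContinuousLinearMap', Real.norm_eq_abs] at h1
  rw [← mul_pow, ← sq_abs]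
  exact pow_le_pow_left₀ (abs_nonneg _) h1 2

theorem Qf_le (z : ℂ) (hz : 0 < z.im) : ∃ C : ℝ, 1 ≤ C ∧ ∀ u : Fin 2 → ℂ, Qf z u ≤ C * ‖u‖ ^ 2 := by
  choose a ha0 ha using fun l => c2c_lin_bound (c2c_im l)
  obtain ⟨r, hr0, hr⟩ := c2c_lin_bound (c2c_yy z)
  have hS1 : 0 ≤ ∑ l, a l / z.im := Finset.sum_nonneg fun l _ => div_nonneg (ha0 l) hz.le
  have hpi := Real.pi_pos
  refine ⟨1 + Real.pi * (∑ l, a l / z.im + r), by nlinarith [mul_nonneg hpi.le (add_nonneg hS1 hr0)], fun v => ?_⟩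
  have h1 : ∑ l, (v l).im ^ 2 / z.im ≤ (∑ l, a l / z.im) * ‖v‖ ^ 2 := by
    rw [Finset.sum_mul]
    refine Finset.sum_le_sum fun l _ => ?_
    rw [div_mul_eq_mul_div]
    exact div_le_div_of_nonneg_right (ha l v) hz.le
  have h2 : yy z v ^ 2 ≤ r * ‖v‖ ^ 2 := hr v
  unfold Qf
  have h3 : 0 ≤ ‖v‖ ^ 2 := sq_nonneg _
  calc Real.pi * (∑ l, (v l).im ^ 2 / z.im + yy z v ^ 2)
      ≤ Real.pi * ((∑ l, a l / z.im) * ‖v‖ ^ 2 + r * ‖v‖ ^ 2) := by gcongr
    _ = Real.pi * (∑ l, a l / z.im + r) * ‖v‖ ^ 2 := by ring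
    _ ≤ (1 + Real.pi * (∑ l, a l / z.im + r)) * ‖v‖ ^ 2 := by nlinarith

end Pool.Agent.MSW

end
end

end

section

/-! # MP_f58a57_nt, all nonspecial points: B1_Line -/

/-! ### differential operators on products -/

section

open Complex Filter Topology

noncomputable section

namespace Pool.Agent.MSW

open MSD MSP

/-- B2a. (Compare R/B2_TH.) -/
theorem TF_eq (f : Fin 2 → ℂ → ℂ) (u : Fin 2 → ℂ) (q : MvPolynomial (Fin 2) ℂ) (s : Finset (Fin 2 →₀ ℕ)) (h : q.support ⊆ s) :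
    TF f u q = ∑ m ∈ s, q.coeff m * ∏ l, iteratedDeriv (m l) (f l) (u l) := by
  unfold TF
  refine Finset.sum_subset h fun m _ hm => ?_
  rw [MvPolynomial.notMem_support_iff.1 hm, zero_mul]

theorem TF_add (f : Fin 2 → ℂ → ℂ) (u : Fin 2 → ℂ) (p q : MvPolynomial (Fin 2) ℂ) : TF f u (p + q) = TF f u p + TF f u q := by
  classical
  rw [TF_eq f u (p + q) (p.support ∪ q.support) MvPolynomial.support_add, TF_eq f u p (p.support ∪ q.support) Finset.subset_union_left,
    TF_eq f u q (p.support ∪ q.support) Finset.subset_union_right, ← Finset.sum_add_distrib]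
  refine Finset.sum_congr rfl fun m _ => ?_
  rw [MvPolynomial.coeff_add]
  ring

theorem TF_zero (f : Fin 2 → ℂ → ℂ) (u : Fin 2 → ℂ) : TF f u 0 = 0 := by
  simp [TF]

theorem TF_C_mul (f : Fin 2 → ℂ → ℂ) (u : Fin 2 → ℂ) (a : ℂ) (p : MvPolynomial (Fin 2) ℂ) : TF f u (MvPolynomial.C a * p) = a * TF f u p := by
  have h : (MvPolynomial.C a * p).support ⊆ p.support := by
    intro m hm
    rw [MvPolynomial.mem_support_iff, MvPolynomial.coeff_C_mul] at hm
    exact MvPolynomial.mem_support_iff.2 (right_ne_zero_of_mul hm)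
  rw [TF_eq f u _ p.support h]
  unfold TF
  rw [Finset.mul_sum]
  refine Finset.sum_congr rfl fun m _ => ?_
  rw [MvPolynomial.coeff_C_mul]
  ring

theorem TF_neg (f : Fin 2 → ℂ → ℂ) (u : Fin 2 → ℂ) (p : MvPolynomial (Fin 2) ℂ) : TF f u (-p) = -TF f u p := by
  have h : -p = MvPolynomial.C (-1) * p := by
    rw [map_neg, map_one]
    ring
  rw [h, TF_C_mul]
  ring

theorem TF_sum {ι : Type} (f : Fin 2 → ℂ → ℂ) (u : Fin 2 → ℂ) (s : Finset ι) (p : ι → MvPolynomial (Fin 2) ℂ) :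
    TF f u (∑ i ∈ s, p i) = ∑ i ∈ s, TF f u (p i) := by
  classical
  induction s using Finset.induction_on with
  | empty => simp [TF_zero]
  | insert a s ha ih => rw [Finset.sum_insert ha, Finset.sum_insert ha, TF_add, ih]

theorem TF_monomial (f : Fin 2 → ℂ → ℂ) (u : Fin 2 → ℂ) (m : Fin 2 →₀ ℕ) (a : ℂ) :
    TF f u (MvPolynomial.monomial m a) = a * ∏ l, iteratedDeriv (m l) (f l) (u l) := by
  classical
  rw [TF_eq f u _ {m} MvPolynomial.support_monomial_subset, Finset.sum_singleton, MvPolynomial.coeff_monomial, if_pos rfl]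

theorem TF_one (f : Fin 2 → ℂ → ℂ) (u : Fin 2 → ℂ) : TF f u 1 = ∏ l, f l (u l) := by
  have h : (1 : MvPolynomial (Fin 2) ℂ) = MvPolynomial.monomial 0 1 := rfl
  rw [h, TF_monomial, one_mul]
  simp

theorem b2_iterf (f : ℂ → ℂ) (hf : Differentiable ℂ f) (m : ℕ) (x : ℂ) :
    HasDerivAt (iteratedDeriv m f) (iteratedDeriv (m + 1) f x) x := by
  have h1 : Differentiable ℂ (iteratedDeriv m f) := by
    have h2 : ContDiff ℂ (m + 1 : ℕ) f := hf.contDiff
    exact h2.differentiable_iteratedDeriv m (by exact_mod_cast Nat.lt_succ_self m)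
  rw [iteratedDeriv_succ]
  exact (h1 x).hasDerivAt

/-- B2b. PROOF. As `TH_line` in R/B2_TH. By linearity for `q = monomial m a`: the derivative of `∏_l f_l^(m_l)(u_l + s η_l)` is `∑_l η_l f_l^(m_l + 1)(..) ∏_{l' ≠ l} ..` (`HasDerivAt.finset_prod`; iterated derivatives of an entire function are entire and
the derivative of `iteratedDeriv k` is `iteratedDeriv (k+1)`), and `X l * monomial m a = monomial (m + single l 1) a`. -/
theorem TF_line (f : Fin 2 → ℂ → ℂ) (hf : ∀ l, Differentiable ℂ (f l)) (u η : Fin 2 → ℂ) (q : MvPolynomial (Fin 2) ℂ) (s₀ : ℂ) :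
    HasDerivAt (fun s : ℂ => TF f (fun l => u l + s * η l) q)
      (TF f (fun l => u l + s₀ * η l) ((∑ l, MvPolynomial.C (η l) * MvPolynomial.X l) * q)) s₀ := by
  classical
  induction q using MvPolynomial.induction_on' with
  | monomial m a =>
    have e1 : (fun s : ℂ => TF f (fun l => u l + s * η l) (MvPolynomial.monomial m a)) =
        fun s : ℂ => a * ∏ l, iteratedDeriv (m l) (f l) (u l + s * η l) := by
      funext s
      rw [TF_monomial]
    have e2 : TF f (fun l => u l + s₀ * η l) ((∑ l, MvPolynomial.C (η l) * MvPolynomial.X l) * MvPolynomial.monomial m a) =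
        a * ∑ l, (∏ l' ∈ Finset.univ.erase l, iteratedDeriv (m l') (f l') (u l' + s₀ * η l')) •
          (iteratedDeriv (m l + 1) (f l) (u l + s₀ * η l) * η l) := by
      rw [Finset.sum_mul, TF_sum, Finset.mul_sum]
      refine Finset.sum_congr rfl fun l _ => ?_
      have e3 : MvPolynomial.C (η l) * MvPolynomial.X l * MvPolynomial.monomial m a =
          MvPolynomial.C (η l) * MvPolynomial.monomial (Finsupp.single l 1 + m) a := by
        rw [mul_assoc]
        congr 1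
        rw [MvPolynomial.X, MvPolynomial.monomial_mul, one_mul]
      rw [e3, TF_C_mul, TF_monomial, ← Finset.mul_prod_erase Finset.univ _ (Finset.mem_univ l)]
      have e4 : ∏ l' ∈ Finset.univ.erase l, iteratedDeriv ((Finsupp.single l 1 + m : Fin 2 →₀ ℕ) l') (f l') (u l' + s₀ * η l') =
          ∏ l' ∈ Finset.univ.erase l, iteratedDeriv (m l') (f l') (u l' + s₀ * η l') := by
        refine Finset.prod_congr rfl fun l' hl' => ?_
        rw [Finsupp.add_apply, Finsupp.single_apply, if_neg (Finset.ne_of_mem_erase hl').symm, zero_add]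
      rw [e4, Finsupp.add_apply, Finsupp.single_apply, if_pos rfl, smul_eq_mul, add_comm 1 (m l)]
      ring
    rw [e1, e2]
    refine HasDerivAt.const_mul a ?_
    refine HasDerivAt.fun_finsetProd fun l _ => ?_
    have h1 : HasDerivAt (fun s : ℂ => u l + s * η l) (η l) s₀ := by
      simpa using ((hasDerivAt_id s₀).mul_const (η l)).const_add (u l)
    exact (b2_iterf (f l) (hf l) (m l) _).comp s₀ h1
  | add p q hp hq =>
    have e1 : (fun s : ℂ => TF f (fun l => u l + s * η l) (p + q)) =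
        fun s : ℂ => TF f (fun l => u l + s * η l) p + TF f (fun l => u l + s * η l) q := by
      funext s
      rw [TF_add]
    rw [e1, mul_add, TF_add]
    exact hp.add hq

/-- B2c. PROOF. `N2, N0` are polynomials in `th`, `deriv th`, `deriv (deriv th)` (`th_differentiable`, `Differentiable.deriv`). -/
theorem fa_diff (z om : ℂ) (hz : 0 < z.im) (M a : ℕ) : Differentiable ℂ (fa z om M a) := by
  unfold fa
  exact (((e1_N2_diff z (sE z) hz).div_const _).pow a).mul ((e1_N0_diff z hz).pow (M - 2 * a))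

end Pool.Agent.MSW

end
end

/-! ### the operator `B ↦ X B + M qq B'` as a derivative along a line -/

section

open Complex Filter Topology

noncomputable section

namespace Pool.Agent.MSW

open MSD MSP

/-- the linear form of the direction -/
def b3_N (D : Dw) : MvPolynomial (Fin 2) ℂ :=
  ∑ l, MvPolynomial.C (rh / D.om * cz D.z l) * MvPolynomial.X l

theorem b3_lin (D : Dw) (M : ℕ) (W : ℂ) :
    lin D M W = MvPolynomial.C (M * (W - D.lam)) + b3_N D := by
  unfold lin b3_N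
  rw [Finset.mul_sum]
  congr 1
  refine Finset.sum_congr rfl fun l _ => ?_
  rw [MvPolynomial.C_mul (a := rh / D.om) (a' := cz D.z l), mul_assoc]

/-- the property of the induction -/
def b3_prop (D : Dw) (M : ℕ) (f : Fin 2 → ℂ → ℂ) (W : ℂ) (u : Fin 2 → ℂ) (B : Polynomial ℂ) : Prop :=
  ∀ q₀ : MvPolynomial (Fin 2) ℂ, HasDerivAt (fun s : ℂ => TF f (fun l => u l + s * (rh / D.om * cz D.z l))
      (q₀ * Polynomial.aeval (lin D M (W + s * D.qq)) B))
    (TF f u (b3_N D * (q₀ * Polynomial.aeval (lin D M W) B)) +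
      TF f u (q₀ * Polynomial.aeval (lin D M W) (Polynomial.C ((M : ℂ) * D.qq) * Polynomial.derivative B))) 0

theorem b3_C (D : Dw) (M : ℕ) (f : Fin 2 → ℂ → ℂ) (hf : ∀ l, Differentiable ℂ (f l)) (W : ℂ) (u : Fin 2 → ℂ) (a : ℂ) :
    b3_prop D M f W u (Polynomial.C a) := by
  intro q₀
  have h1 := TF_line f hf u (fun l => rh / D.om * cz D.z l) (q₀ * Polynomial.aeval (lin D M W) (Polynomial.C a)) 0
  have e1 : ∀ s : ℂ, Polynomial.aeval (lin D M (W + s * D.qq)) (Polynomial.C a : Polynomial ℂ) =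
      Polynomial.aeval (lin D M W) (Polynomial.C a) := by
    intro s
    rw [Polynomial.aeval_C, Polynomial.aeval_C]
  have hu0 : (fun l => u l + (0 : ℂ) * (rh / D.om * cz D.z l)) = u := by
    funext l
    rw [zero_mul, add_zero]
  rw [Polynomial.derivative_C, mul_zero, map_zero, mul_zero, TF_zero, add_zero]
  simp only [e1]
  rw [hu0] at h1
  exact h1

theorem b3_add (D : Dw) (M : ℕ) (f : Fin 2 → ℂ → ℂ) (W : ℂ) (u : Fin 2 → ℂ) (p q : Polynomial ℂ)
    (hp : b3_prop D M f W u p) (hq : b3_prop D M f W u q) : b3_prop D M f W u (p + q) := by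
  intro q₀
  have h1 := (hp q₀).fun_add (hq q₀)
  have e1 : (fun s : ℂ => TF f (fun l => u l + s * (rh / D.om * cz D.z l))
      (q₀ * Polynomial.aeval (lin D M (W + s * D.qq)) (p + q))) =
      fun s : ℂ => TF f (fun l => u l + s * (rh / D.om * cz D.z l))
        (q₀ * Polynomial.aeval (lin D M (W + s * D.qq)) p) +
        TF f (fun l => u l + s * (rh / D.om * cz D.z l)) (q₀ * Polynomial.aeval (lin D M (W + s * D.qq)) q) := by
    funext s
    rw [map_add, mul_add, TF_add]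
  rw [e1, map_add, Polynomial.derivative_add, mul_add (Polynomial.C ((M : ℂ) * D.qq)), map_add, mul_add, mul_add, mul_add, TF_add, TF_add]
  have e3 : ∀ x y z w : ℂ, x + y + (z + w) = x + z + (y + w) := fun x y z w => by ring
  rw [e3]
  exact h1

theorem b3_X (D : Dw) (M : ℕ) (f : Fin 2 → ℂ → ℂ) (W : ℂ) (u : Fin 2 → ℂ) (p : Polynomial ℂ)
    (hp : b3_prop D M f W u p) : b3_prop D M f W u (p * Polynomial.X) := by
  intro q₀
  have hW0 : W + (0 : ℂ) * D.qq = W := by rw [zero_mul, add_zero]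
  have hu0 : (fun l => u l + (0 : ℂ) * (rh / D.om * cz D.z l)) = u := by
    funext l
    rw [zero_mul, add_zero]
  have h1 := hp q₀
  have h2 := hp (q₀ * b3_N D)
  have h3 : HasDerivAt (fun s : ℂ => (M : ℂ) * (W + s * D.qq - D.lam)) ((M : ℂ) * D.qq) 0 := by
    have := ((((hasDerivAt_id (0 : ℂ)).mul_const D.qq).const_add W).sub_const D.lam).const_mul (M : ℂ)
    simpa using this
  have h4 := (h3.fun_mul h1).fun_add h2
  have e1 : (fun s : ℂ => TF f (fun l => u l + s * (rh / D.om * cz D.z l))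
      (q₀ * Polynomial.aeval (lin D M (W + s * D.qq)) (p * Polynomial.X))) =
      fun s : ℂ => ((M : ℂ) * (W + s * D.qq - D.lam)) * TF f (fun l => u l + s * (rh / D.om * cz D.z l))
        (q₀ * Polynomial.aeval (lin D M (W + s * D.qq)) p) +
        TF f (fun l => u l + s * (rh / D.om * cz D.z l)) (q₀ * b3_N D * Polynomial.aeval (lin D M (W + s * D.qq)) p) := by
    funext s
    rw [map_mul, Polynomial.aeval_X]
    nth_rewrite 2 [b3_lin]
    rw [← TF_C_mul, ← TF_add]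
    congr 1
    ring
  have e2 : Polynomial.C ((M : ℂ) * D.qq) * Polynomial.derivative (p * Polynomial.X) =
      (Polynomial.C ((M : ℂ) * D.qq) * Polynomial.derivative p) * Polynomial.X + Polynomial.C ((M : ℂ) * D.qq) * p := by
    rw [Polynomial.derivative_mul, Polynomial.derivative_X]
    ring
  rw [e1]
  have e5 : TF f u (b3_N D * (q₀ * Polynomial.aeval (lin D M W) (p * Polynomial.X))) +
      TF f u (q₀ * Polynomial.aeval (lin D M W) (Polynomial.C ((M : ℂ) * D.qq) * Polynomial.derivative (p * Polynomial.X))) =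
      (M : ℂ) * D.qq * TF f (fun l => u l + (0 : ℂ) * (rh / D.om * cz D.z l))
          (q₀ * Polynomial.aeval (lin D M (W + (0 : ℂ) * D.qq)) p) +
        ((M : ℂ) * (W + 0 * D.qq - D.lam)) * (TF f u (b3_N D * (q₀ * Polynomial.aeval (lin D M W) p)) +
          TF f u (q₀ * Polynomial.aeval (lin D M W) (Polynomial.C ((M : ℂ) * D.qq) * Polynomial.derivative p))) +
        (TF f u (b3_N D * (q₀ * b3_N D * Polynomial.aeval (lin D M W) p)) +
          TF f u (q₀ * b3_N D * Polynomial.aeval (lin D M W) (Polynomial.C ((M : ℂ) * D.qq) * Polynomial.derivative p))) := by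
    rw [hW0, hu0, e2, mul_add, ← TF_C_mul, ← TF_C_mul, ← TF_C_mul, ← TF_add, ← TF_add, ← TF_add, ← TF_add, ← TF_add]
    congr 1
    rw [map_mul (Polynomial.aeval (lin D M W)) p, map_add (Polynomial.aeval (lin D M W)),
      map_mul (Polynomial.aeval (lin D M W)) (Polynomial.C ((M : ℂ) * D.qq) * Polynomial.derivative p),
      map_mul (Polynomial.aeval (lin D M W)) (Polynomial.C ((M : ℂ) * D.qq)) p, Polynomial.aeval_X, Polynomial.aeval_C]
    generalize Polynomial.aeval (lin D M W) p = A1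
    generalize Polynomial.aeval (lin D M W) (Polynomial.C ((M : ℂ) * D.qq) * Polynomial.derivative p) = A2
    rw [b3_lin]
    have e6 : (algebraMap ℂ (MvPolynomial (Fin 2) ℂ)) ((M : ℂ) * D.qq) = MvPolynomial.C ((M : ℂ) * D.qq) := rfl
    rw [e6]
    ring
  rw [e5]
  exact h4

theorem b3_gen (D : Dw) (M : ℕ) (f : Fin 2 → ℂ → ℂ) (hf : ∀ l, Differentiable ℂ (f l)) (W : ℂ) (u : Fin 2 → ℂ) (B : Polynomial ℂ) :
    b3_prop D M f W u B := by
  induction B using Polynomial.induction_on with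
  | C a => exact b3_C D M f hf W u a
  | add p q hp hq => exact b3_add D M f W u p q hp hq
  | monomial n a h =>
    have e : Polynomial.C a * (Polynomial.X : Polynomial ℂ) ^ (n + 1) = Polynomial.C a * Polynomial.X ^ n * Polynomial.X := by
      rw [pow_succ, mul_assoc]
    rw [e]
    exact b3_X D M f W u _ h

/-- B3. PROOF. Compare `th_line` in R/B3_THLine (complete proof there). Put `η_l = (rh/om) c_l`, `N = ∑ C(η_l) X_l`, so `lin D M (W + s qq) = C(M (W + s qq - lam)) + N` and the point is `u_l + s η_l`, `u = D.h + t`. More generally for every `q₀ : MvPolynomial (Fin 2) ℂ` the function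
`s ↦ TF f (u + s η) (q₀ * aeval (lin (W + s qq)) B)` has at `0` the derivative `TF f u (N * q₀ * aeval (lin W) B) + TF f u (q₀ * aeval (lin W) (C(M qq) * B'))`: induction on `B` (`Polynomial.induction_on`: constants: `TF_line`; sums; `B X`: `lin (W + s qq) = C(M(W + s qq - lam)) + N`,
product rule for the first summand with `TF_C_mul`, the induction hypothesis for `q₀ N` for the second one). Finally `N aeval B = (lin W - C(M (W - lam))) aeval B = aeval (lin W) (X B) - C(..) aeval B`. -/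
theorem th_line (D : Dw) (M : ℕ) (f : Fin 2 → ℂ → ℂ) (hf : ∀ l, Differentiable ℂ (f l)) (W : ℂ) (t : Fin 2 → ℂ) (B : Polynomial ℂ) :
    HasDerivAt (fun s : ℂ => TF f (fun l => D.h l + (t l + s / D.om * (rh * cz D.z l))) (Polynomial.aeval (lin D M (W + s * D.qq)) B))
      (TF f (fun l => D.h l + t l) (Polynomial.aeval (lin D M W) (Polynomial.X * B + Polynomial.C ((M : ℂ) * D.qq) * Polynomial.derivative B)) -
        M * (W - D.lam) * TF f (fun l => D.h l + t l) (Polynomial.aeval (lin D M W) B)) 0 := by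
  have h1 := b3_gen D M f hf W (fun l => D.h l + t l) B 1
  have e1 : (fun s : ℂ => TF f (fun l => D.h l + (t l + s / D.om * (rh * cz D.z l))) (Polynomial.aeval (lin D M (W + s * D.qq)) B)) =
      fun s : ℂ => TF f (fun l => D.h l + t l + s * (rh / D.om * cz D.z l))
        (1 * Polynomial.aeval (lin D M (W + s * D.qq)) B) := by
    funext s
    rw [one_mul]
    congr 1
    funext l
    ring
  have e2 : TF f (fun l => D.h l + t l) (Polynomial.aeval (lin D M W) (Polynomial.X * B + Polynomial.C ((M : ℂ) * D.qq) * Polynomial.derivative B)) -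
        M * (W - D.lam) * TF f (fun l => D.h l + t l) (Polynomial.aeval (lin D M W) B) =
      TF f (fun l => D.h l + t l) (b3_N D * (1 * Polynomial.aeval (lin D M W) B)) +
        TF f (fun l => D.h l + t l) (1 * Polynomial.aeval (lin D M W) (Polynomial.C ((M : ℂ) * D.qq) * Polynomial.derivative B)) := by
    rw [sub_eq_iff_eq_add, ← TF_C_mul, ← TF_add, ← TF_add]
    congr 1
    rw [map_add, map_mul (Polynomial.aeval (lin D M W)) Polynomial.X B, Polynomial.aeval_X]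
    generalize Polynomial.aeval (lin D M W) B = A1
    generalize Polynomial.aeval (lin D M W) (Polynomial.C ((M : ℂ) * D.qq) * Polynomial.derivative B) = A2
    rw [b3_lin]
    ring
  rw [e1, e2]
  exact h1

end Pool.Agent.MSW

end
end

/-! ### the auxiliary functions are entire -/

section

open Complex Filter Topology

noncomputable section

namespace Pool.Agent.MSW

open MSD MSP

theorem b6_prod {ι : Type} (s : Finset ι) (f : ι → (Fin 2 → ℂ) → ℂ) (h : ∀ i, Differentiable ℂ (f i)) :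
    Differentiable ℂ (fun v => ∏ i ∈ s, f i v) := by
  classical
  induction s using Finset.induction_on with
  | empty => simp only [Finset.prod_empty]; exact differentiable_const _
  | insert a s ha ih =>
    simp only [Finset.prod_insert ha]
    exact (h a).mul ih

theorem b6_fix (f : Fin 2 → ℂ → ℂ) (hf : ∀ l, Differentiable ℂ (f l)) (q : MvPolynomial (Fin 2) ℂ) :
    Differentiable ℂ (fun u : Fin 2 → ℂ => TF f u q) := by
  have h1 : ∀ (l : Fin 2) (m : ℕ), Differentiable ℂ (iteratedDeriv m (f l)) := fun l m x =>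
    (b2_iterf (f l) (hf l) m x).differentiableAt
  unfold TF
  refine Differentiable.fun_sum fun m _ => ?_
  refine Differentiable.const_mul ?_ _
  exact b6_prod Finset.univ (fun l (u : Fin 2 → ℂ) => iteratedDeriv (m l) (f l) (u l))
    fun l => (h1 l (m l)).comp (differentiable_apply l)

theorem b6_mul (f : Fin 2 → ℂ → ℂ) (hf : ∀ l, Differentiable ℂ (f l)) (a : (Fin 2 → ℂ) → ℂ) (ha : Differentiable ℂ a)
    (N : MvPolynomial (Fin 2) ℂ) (B : Polynomial ℂ) :
    ∀ q₀ : MvPolynomial (Fin 2) ℂ, Differentiable ℂ (fun u : Fin 2 → ℂ =>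
      TF f u (q₀ * Polynomial.aeval (MvPolynomial.C (a u) + N) B)) := by
  induction B using Polynomial.induction_on with
  | C b =>
    intro q₀
    simp only [Polynomial.aeval_C, MvPolynomial.algebraMap_eq]
    exact b6_fix f hf _
  | add p q hp hq =>
    intro q₀
    simp only [map_add, mul_add, TF_add]
    exact (hp q₀).add (hq q₀)
  | monomial n b hp =>
    intro q₀
    have h : ∀ u : Fin 2 → ℂ, TF f u (q₀ * Polynomial.aeval (MvPolynomial.C (a u) + N) (Polynomial.C b * Polynomial.X ^ (n + 1))) =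
        a u * TF f u (q₀ * Polynomial.aeval (MvPolynomial.C (a u) + N) (Polynomial.C b * Polynomial.X ^ n)) +
          TF f u ((q₀ * N) * Polynomial.aeval (MvPolynomial.C (a u) + N) (Polynomial.C b * Polynomial.X ^ n)) := by
      intro u
      rw [← TF_C_mul, ← TF_add]
      congr 1
      rw [pow_succ, ← mul_assoc, map_mul, Polynomial.aeval_X]
      ring
    simp only [h]
    exact (ha.mul (hp q₀)).add (hp (q₀ * N))

/-- B6a. PROOF. As `TH_diff` in R/B6_Diff: for every polynomial `q₀` the function `u ↦ TF f u (q₀ * aeval (C (a u) + N) B)` is entire. Induction on `B` (all `q₀`, `Polynomial.induction_on`): `B = C b`: a linear combination of products of functions `iteratedDeriv m (f l) (u l)`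
(entire); `B X`: `q₀ aeval(B X) = C(a u) (q₀ aeval B) + (q₀ N) aeval B` (`TF_C_mul`, `TF_add`). -/
theorem TF_diff (f : Fin 2 → ℂ → ℂ) (hf : ∀ l, Differentiable ℂ (f l)) (a : (Fin 2 → ℂ) → ℂ) (ha : Differentiable ℂ a)
    (N : MvPolynomial (Fin 2) ℂ) (B : Polynomial ℂ) :
    Differentiable ℂ (fun u : Fin 2 → ℂ => TF f u (Polynomial.aeval (MvPolynomial.C (a u) + N) B)) := by
  have h := b6_mul f hf a ha N B 1
  simpa only [one_mul] using h

/-- B6b. PROOF. `TF_diff` composed with `t ↦ h + t`, `fa_diff`. -/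
theorem GR_diff (D : Dw) {L E : ℕ} (c : Iw L E → ℂ) : Differentiable ℂ (GR D c) := by
  unfold GR
  refine Differentiable.fun_sum fun ν _ => ?_
  refine Differentiable.const_mul ?_ _
  have ha : Differentiable ℂ (fun u : Fin 2 → ℂ => ((2 * L : ℕ) : ℂ) * (D.om * (u 1 - D.h 1) - D.lam)) := by
    fun_prop
  have h1 := TF_diff (fun l => fa D.z D.om (2 * L) (ν.1 l).val) (fun l => fa_diff D.z D.om D.im _ _)
    (fun u : Fin 2 → ℂ => ((2 * L : ℕ) : ℂ) * (D.om * (u 1 - D.h 1) - D.lam)) ha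
    (MvPolynomial.C (rh / D.om) * ∑ l, MvPolynomial.C (cz D.z l) * MvPolynomial.X l) (Bp ((2 * L : ℕ) * D.qq) ν.2.val)
  have h2 : Differentiable ℂ (fun t : Fin 2 → ℂ => fun l => D.h l + t l) :=
    differentiable_pi.2 fun l => (differentiable_apply l).const_add _
  have h3 := h1.comp h2
  have he : (fun t : Fin 2 → ℂ => Gn D ν (D.om * t 1) t) =
      ((fun u : Fin 2 → ℂ => TF (fun l => fa D.z D.om (2 * L) (ν.1 l).val) u
        (Polynomial.aeval (MvPolynomial.C (((2 * L : ℕ) : ℂ) * (D.om * (u 1 - D.h 1) - D.lam)) +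
          MvPolynomial.C (rh / D.om) * ∑ l, MvPolynomial.C (cz D.z l) * MvPolynomial.X l)
            (Bp ((2 * L : ℕ) * D.qq) ν.2.val))) ∘ fun t l => D.h l + t l) := by
    funext t
    simp only [Function.comp_apply, Gn, lin, add_sub_cancel_left]
  rw [he]
  exact h3

theorem GA_diff (D : Dw) {L E : ℕ} (c : Iw L E → ℂ) : Differentiable ℂ (GA D c) := by
  have h2 : Differentiable ℂ (fun u : Fin 2 → ℂ => fun l => u l - D.h l) :=
    differentiable_pi.2 fun l => (differentiable_apply l).sub_const _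
  exact (GR_diff D c).comp h2

end Pool.Agent.MSW

end
end

/-! ### translations by lattice vectors -/

section

open Complex Filter Topology

noncomputable section

namespace Pool.Agent.MSW

open MSD MSP

/-- B8a. PROOF. `N0_shift`, `N2_shift`: `(au² N2/om²)^a (au N0)^(M - 2a) = au^M ..` as `2a + (M - 2a) = M`. -/
theorem fa_shift (z om : ℂ) (hz : 0 < z.im) (M a : ℕ) (h : 2 * a ≤ M) (m n : ℤ) (t : ℂ) :
    fa z om M a (t + (m + n * z)) = au z m n t ^ M * fa z om M a t := by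
  obtain ⟨k, rfl⟩ := Nat.exists_eq_add_of_le h
  have e : t + ((m : ℂ) + n * z) = t + m + n * z := by ring
  unfold fa
  rw [e, N0_shift z hz, N2_shift z _ hz, Nat.add_sub_cancel_left, mul_div_assoc, mul_pow, mul_pow, ← pow_mul, pow_add]
  ring

/-- the derivative of a power of the automorphy factor along a line -/
theorem b8_au (z : ℂ) (M : ℕ) (u η : Fin 2 → ℂ) (m n : Fin 2 → ℤ) :
    HasDerivAt (fun s : ℂ => (∏ l, au z (m l) (n l) (u l + s * η l)) ^ M)
      (-(∑ l, 2 * Real.pi * I * M * n l * η l) * (∏ l, au z (m l) (n l) (u l)) ^ M) 0 := by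
  have h1 : ∀ l : Fin 2, HasDerivAt (fun s : ℂ => au z (m l) (n l) (u l + s * η l))
      (-(2 * Real.pi * I * n l) * au z (m l) (n l) (u l) * η l) 0 := by
    intro l
    have h2 : HasDerivAt (fun s : ℂ => u l + s * η l) (η l) 0 := by
      have := ((hasDerivAt_id' (0 : ℂ)).mul_const (η l)).const_add (u l)
      simpa using this
    have h3 := T4_au_deriv z (m l) (n l) (u l + 0 * η l)
    have h4 := HasDerivAt.comp (0 : ℂ) h3 h2
    simpa [Function.comp_def] using h4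
  have h5 := HasDerivAt.fun_finsetProd (u := Finset.univ) (fun l _ => h1 l)
  have h6 : HasDerivAt (fun s : ℂ => ∏ l, au z (m l) (n l) (u l + s * η l))
      (-(∑ l, 2 * Real.pi * I * n l * η l) * ∏ l, au z (m l) (n l) (u l)) 0 := by
    refine h5.congr_deriv ?_
    rw [← Finset.sum_neg_distrib, Finset.sum_mul]
    refine Finset.sum_congr rfl fun l _ => ?_
    simp only [smul_eq_mul, zero_mul, add_zero]
    rw [← Finset.mul_prod_erase Finset.univ (fun l => au z (m l) (n l) (u l)) (Finset.mem_univ l)]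
    ring
  have h7 := h6.fun_pow M
  refine h7.congr_deriv ?_
  simp only [zero_mul, add_zero]
  have hsum : ∑ l, 2 * Real.pi * I * M * n l * η l = M * ∑ l, 2 * Real.pi * I * n l * η l := by
    rw [Finset.mul_sum]
    exact Finset.sum_congr rfl fun l _ => by ring
  rw [hsum]
  cases M with
  | zero => simp
  | succ M =>
    rw [Nat.add_sub_cancel, pow_succ]
    ring

/-- B8b. PROOF. As `TH_shift` in R/B8_Shift: induction on `q` (`MvPolynomial.induction_on`; the statement for all `u`): `q = C b`: `TF` is `b ∏ f_l(u_l)`. For `q X_l`: differentiate the identity for `q` in the direction `u_l` (`TF_line` with `η = single l 1`): `∂_l au^M = -2πi M n_l au^M` (`T4_au_deriv`). -/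
theorem TF_shift (z : ℂ) (hz : 0 < z.im) (M : ℕ) (f : Fin 2 → ℂ → ℂ) (hf : ∀ l, Differentiable ℂ (f l)) (m n : Fin 2 → ℤ)
    (hs : ∀ l t, f l (t + (m l + n l * z)) = au z (m l) (n l) t ^ M * f l t) (u : Fin 2 → ℂ) (q : MvPolynomial (Fin 2) ℂ) :
    TF f (fun l => u l + (m l + n l * z)) q = (∏ l, au z (m l) (n l) (u l)) ^ M *
      TF f u (MvPolynomial.aeval (fun l => MvPolynomial.X l - MvPolynomial.C (2 * Real.pi * I * M * n l)) q) := by
  induction q using MvPolynomial.induction_on generalizing u with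
  | C a =>
    have e1 : ∀ u' : Fin 2 → ℂ, TF f u' (MvPolynomial.C a) = a * ∏ l, f l (u' l) := by
      intro u'
      have := TF_C_mul f u' a 1
      rw [mul_one, TF_one] at this
      exact this
    rw [MvPolynomial.algHom_C, MvPolynomial.algebraMap_eq, e1, e1]
    have e2 : ∏ l, f l (u l + (m l + n l * z)) = (∏ l, au z (m l) (n l) (u l)) ^ M * ∏ l, f l (u l) := by
      rw [← Finset.prod_pow, ← Finset.prod_mul_distrib]
      exact Finset.prod_congr rfl fun l _ => hs l (u l)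
    rw [e2]
    ring
  | add p q hp hq =>
    rw [TF_add, hp, hq, map_add, TF_add]
    ring
  | mul_X p i hp =>
    set η : Fin 2 → ℂ := Pi.single i 1 with hη
    have hX : (∑ l, MvPolynomial.C (η l) * MvPolynomial.X l : MvPolynomial (Fin 2) ℂ) = MvPolynomial.X i := by
      rw [Finset.sum_eq_single i]
      · simp [hη]
      · intro l _ hl
        simp [hη, Pi.single_eq_of_ne hl]
      · intro h
        exact absurd (Finset.mem_univ i) h
    set F : MvPolynomial (Fin 2) ℂ →ₐ[ℂ] MvPolynomial (Fin 2) ℂ :=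
      MvPolynomial.aeval (fun l => MvPolynomial.X l - MvPolynomial.C (2 * Real.pi * I * M * n l)) with hF
    have hL := TF_line f hf (fun l => u l + (m l + n l * z)) η p 0
    rw [hX] at hL
    have hR := (b8_au z M u η m n).mul (TF_line f hf u η (F p) 0)
    rw [hX] at hR
    have hfun : (fun s : ℂ => TF f (fun l => u l + (m l + n l * z) + s * η l) p) =
        fun s : ℂ => (∏ l, au z (m l) (n l) (u l + s * η l)) ^ M * TF f (fun l => u l + s * η l) (F p) := by
      funext s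
      have h1 := hp (fun l => u l + s * η l)
      rw [← h1]
      congr 1
      funext l
      ring
    rw [hfun] at hL
    have hu := hL.unique hR
    simp only [zero_mul, add_zero] at hu
    have hsum : ∑ l, 2 * Real.pi * I * M * n l * η l = 2 * Real.pi * I * M * n i := by
      rw [Finset.sum_eq_single i]
      · simp [hη]
      · intro l _ hl
        simp [hη, Pi.single_eq_of_ne hl]
      · intro h
        exact absurd (Finset.mem_univ i) h
    rw [hsum] at hu
    have hFX : F (p * MvPolynomial.X i) = MvPolynomial.X i * F p - MvPolynomial.C (2 * Real.pi * I * M * n i) * F p := by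
      rw [map_mul, hF, MvPolynomial.aeval_X]
      ring
    have hsub : TF f u (MvPolynomial.X i * F p - MvPolynomial.C (2 * Real.pi * I * M * n i) * F p) =
        TF f u (MvPolynomial.X i * F p) - 2 * Real.pi * I * M * n i * TF f u (F p) := by
      have e3 : MvPolynomial.X i * F p - MvPolynomial.C (2 * Real.pi * I * M * n i) * F p =
          MvPolynomial.X i * F p + MvPolynomial.C (-(2 * Real.pi * I * M * n i)) * F p := by
        rw [MvPolynomial.C_neg]
        ring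
      rw [e3, TF_add, TF_C_mul]
      ring
    rw [hFX, hsub, mul_comm p]
    rw [hu]
    ring

end Pool.Agent.MSW

end
end

end

section

/-! # MP_f58a57_nt, all nonspecial points: C1_Small -/

/-! ### smallness on a finite set implies smallness everywhere -/

section

open Complex Filter Topology

noncomputable section

namespace Pool.Agent.MSW

open MSD MSP

theorem c3_Nn_nonneg (z : ℂ) (M : ℕ) (G : (Fin 2 → ℂ) → ℂ) (v : Fin 2 → ℂ) : 0 ≤ Nn z M G v := by
  unfold Nn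
  positivity

/-- one polydisc -/
theorem c3_one (z : ℂ) (hz : 0 < z.im) (M : ℕ) (C1 : ℝ) (s : Fin 2 → ℂ) (G : (Fin 2 → ℂ) → ℂ)
    (hG : Differentiable ℂ G) (N ε : ℝ) (hN0 : 0 ≤ N) (hε0 : 0 ≤ ε) (hN : ∀ v, Nn z M G v ≤ N) (K : ℕ) (hK : 1 ≤ K)
    (hε : ∀ i : Fin 2 → Fin K, Nn z M G (fun j => s j + C1 * (((i j).val : ℂ) / K)) ≤ ε) (R' C4 : ℝ) (hR' : 3 ≤ R')
    (hC4 : ∀ y : Fin 2 → ℂ, (∀ j, ‖y j‖ ≤ R') → Qf z (fun j => C1 * y j) ≤ C4) (u : Fin 2 → ℂ) (hu : ∀ j, ‖u j‖ ≤ 1) :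
    Nn z M G (fun j => s j + C1 * u j) ≤ 22 ^ (2 * K) * (ε * Real.exp (M * C4)) +
      (2 : ℕ) * 22 ^ (2 * K) * (4 / (R' - 1)) ^ K * (N * Real.exp (M * C4)) := by
  obtain ⟨ℓ, hℓ⟩ := Qf_polar z s
  have hgd : Differentiable ℂ (fun y : Fin 2 → ℂ => G (fun j => s j + C1 * y j) * cexp (-(M * ℓ (fun j => C1 * y j)))) := by
    have h1 : Differentiable ℂ (fun y : Fin 2 → ℂ => (fun j => s j + (C1 : ℂ) * y j)) := by
      rw [differentiable_pi]
      intro j
      fun_prop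
    have h2 : Differentiable ℂ (fun y : Fin 2 → ℂ => (fun j => (C1 : ℂ) * y j)) := by
      rw [differentiable_pi]
      intro j
      fun_prop
    have h3 : Differentiable ℂ (fun y : Fin 2 → ℂ => ℓ y) := (LinearMap.toContinuousLinearMap ℓ).differentiable
    exact (hG.comp h1).mul (((h3.comp h2).const_mul (M : ℂ)).neg.cexp)
  have hg : ∀ y : Fin 2 → ℂ, ‖G (fun j => s j + C1 * y j) * cexp (-(M * ℓ (fun j => C1 * y j)))‖ =
      Nn z M G (fun j => s j + C1 * y j) * Real.exp (M * Qf z s) * Real.exp (M * Qf z (fun j => C1 * y j)) := by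
    intro y
    have h1 := hℓ (fun j => C1 * y j)
    have h2 : s + (fun j => (C1 : ℂ) * y j) = fun j => s j + C1 * y j := rfl
    rw [h2] at h1
    unfold Nn
    rw [norm_mul, Complex.norm_exp, mul_assoc, mul_assoc, ← Real.exp_add, ← Real.exp_add]
    congr 2
    rw [h1]
    have h3 : (-((M : ℂ) * ℓ (fun j => C1 * y j))).re = -(M * (ℓ (fun j => C1 * y j)).re) := by
      rw [Complex.neg_re, ← Complex.ofReal_natCast, Complex.re_ofReal_mul]
    rw [h3]
    ring
  have hbd : ∀ (y : Fin 2 → ℂ) (T : ℝ), 0 ≤ T → (∀ j, ‖y j‖ ≤ R') → Nn z M G (fun j => s j + C1 * y j) ≤ T →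
      ‖G (fun j => s j + C1 * y j) * cexp (-(M * ℓ (fun j => C1 * y j)))‖ ≤ T * Real.exp (M * C4) * Real.exp (M * Qf z s) := by
    intro y T hT0 hy hT
    rw [hg y]
    have h1 : Real.exp (M * Qf z (fun j => C1 * y j)) ≤ Real.exp (M * C4) :=
      Real.exp_le_exp.mpr (mul_le_mul_of_nonneg_left (hC4 y hy) (Nat.cast_nonneg M))
    calc Nn z M G (fun j => s j + C1 * y j) * Real.exp (M * Qf z s) * Real.exp (M * Qf z (fun j => C1 * y j))
        ≤ T * Real.exp (M * Qf z s) * Real.exp (M * C4) := by gcongr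
      _ = _ := by ring
  have key := MSK.interp_multi K hK R' (N * Real.exp (M * C4) * Real.exp (M * Qf z s)) (ε * Real.exp (M * C4) * Real.exp (M * Qf z s)) hR'
    (fun y : Fin 2 → ℂ => G (fun j => s j + C1 * y j) * cexp (-(M * ℓ (fun j => C1 * y j)))) hgd
    (fun y hy => hbd y N hN0 hy (hN _))
    (fun i => hbd _ ε hε0 (fun j => by
      have hKp : (0 : ℝ) < K := by exact_mod_cast hK
      rw [norm_div, Complex.norm_natCast, Complex.norm_natCast]
      have : ((i j).val : ℝ) / K ≤ 1 := by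
        rw [div_le_one hKp]
        exact_mod_cast (i j).isLt.le
      linarith) (hε i)) u hu
  have h5 := hg u
  rw [h5] at key
  have h6 : 1 ≤ Real.exp (M * Qf z (fun j => C1 * u j)) := by
    exact Real.one_le_exp (mul_nonneg (Nat.cast_nonneg M) (Qf_nonneg z hz _))
  have h7 : 0 < Real.exp (M * Qf z s) := Real.exp_pos _
  have h8 : Nn z M G (fun j => s j + C1 * u j) * Real.exp (M * Qf z s) ≤
      Nn z M G (fun j => s j + C1 * u j) * Real.exp (M * Qf z s) * Real.exp (M * Qf z (fun j => C1 * u j)) :=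
    le_mul_of_one_le_right (mul_nonneg (c3_Nn_nonneg z M G _) h7.le) h6
  have h9 : Nn z M G (fun j => s j + C1 * u j) * Real.exp (M * Qf z s) ≤
      (22 ^ (2 * K) * (ε * Real.exp (M * C4)) +
      (2 : ℕ) * 22 ^ (2 * K) * (4 / (R' - 1)) ^ K * (N * Real.exp (M * C4))) * Real.exp (M * Qf z s) := by
    refine (h8.trans key).trans (le_of_eq ?_)
    ring
  exact le_of_mul_le_mul_right h9 h7

/-- C3. PROOF. Copy of `small_all` in K/C3_Small (complete proof there) with `d = 2`, `q = 1`, `P2 = yy²`, `C * R ^ (d-1) * M ^ d = C * R * M ^ 2`. -/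
theorem small_all (z : ℂ) (hz : 0 < z.im) : ∃ C : ℝ, 1 ≤ C ∧ ∀ (M : ℕ) (R : ℝ), 1 ≤ M → 1 ≤ R →
    ∃ Sp : Finset (Fin 2 → ℂ), (Sp.card : ℝ) ≤ C * R * M ^ 2 ∧ ∀ (G : (Fin 2 → ℂ) → ℂ) (B : ℝ), Differentiable ℂ G →
      (∀ (n : Fin 3 → ℤ) (u : Fin 2 → ℂ), Nn z M G (u + gam z (fun i => (n i : ℝ))) = Nn z M G u) →
      (∀ u, Nn z M G u ≤ B * Real.exp (-(M * yy z u ^ 2))) → ∀ ε : ℝ, 0 ≤ ε → (∀ p ∈ Sp, Nn z M G p ≤ ε) →
      ∀ u, Nn z M G u ≤ C ^ M * (ε + B * Real.exp (-(M * R ^ 2))) := by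
  classical
  obtain ⟨C1, hC1, hcov⟩ := cover z hz
  obtain ⟨Cq, hCq, hQ⟩ := Qf_le z hz
  obtain ⟨R', hR'⟩ : ∃ R' : ℝ, R' = 1 + 16 * 22 ^ 2 := ⟨_, rfl⟩
  have h22 : (1 : ℝ) ≤ 22 ^ 2 := one_le_pow₀ (by norm_num)
  have hR'3 : 3 ≤ R' := by rw [hR']; linarith
  obtain ⟨C4, hC4⟩ : ∃ C4 : ℝ, C4 = Cq * (C1 * R') ^ 2 := ⟨_, rfl⟩
  have hC40 : 0 ≤ C4 := by rw [hC4]; positivity
  obtain ⟨C3, hC3⟩ := pow_unbounded_of_one_lt (2 * (2 : ℝ) * Real.exp C4) (by norm_num : (1:ℝ) < 4)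
  have hexp4 : 1 ≤ Real.exp C4 := Real.one_le_exp hC40
  have hbig : (4 : ℝ) ≤ 2 * (2 : ℝ) * Real.exp C4 := by linarith
  have hC31 : 1 ≤ C3 := by
    by_contra h
    have h0 : C3 = 0 := by omega
    rw [h0, pow_zero] at hC3
    linarith
  have hC1p : 0 < C1 := by linarith
  obtain ⟨D1, hD1⟩ : ∃ D1 : ℝ, D1 = 22 ^ (2 * C3) * Real.exp C4 := ⟨_, rfl⟩
  have hD11 : 1 ≤ D1 := by
    rw [hD1]
    have h1 : (1 : ℝ) ≤ 22 ^ (2 * C3) := one_le_pow₀ (by norm_num)
    calc (1 : ℝ) = 1 * 1 := by norm_num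
      _ ≤ _ := by gcongr
  have hCC : 0 ≤ C1 * (C3 : ℝ) ^ 2 := by positivity
  refine ⟨C1 * (C3 : ℝ) ^ 2 + 2 * D1, by linarith, ?_⟩
  intro M R hM hR
  obtain ⟨S, hS, hScov⟩ := hcov R hR
  have hM1 : (1 : ℝ) ≤ M := by exact_mod_cast hM
  obtain ⟨K, hKdef⟩ : ∃ K : ℕ, K = C3 * M := ⟨_, rfl⟩
  have hK : 1 ≤ K := by
    rw [hKdef]
    exact Nat.mul_pos hC31 hM
  refine ⟨(S ×ˢ (Finset.univ : Finset (Fin 2 → Fin K))).image (fun x => fun j => x.1 j + C1 * (((x.2 j).val : ℂ) / K)), ?_, ?_⟩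
  · have h1 : ((((S ×ˢ (Finset.univ : Finset (Fin 2 → Fin K))).image
        (fun x => fun j => x.1 j + C1 * (((x.2 j).val : ℂ) / K))).card : ℕ) : ℝ) ≤ (S.card : ℝ) * (K : ℝ) ^ 2 := by
      have h2 := Finset.card_image_le (s := S ×ˢ (Finset.univ : Finset (Fin 2 → Fin K)))
        (f := fun x => fun j => x.1 j + C1 * (((x.2 j).val : ℂ) / K))
      rw [Finset.card_product, Finset.card_univ, Fintype.card_fun, Fintype.card_fin, Fintype.card_fin] at h2
      exact_mod_cast h2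
    refine h1.trans ?_
    have hRp : 0 ≤ R := by linarith
    calc (S.card : ℝ) * (K : ℝ) ^ 2 ≤ (C1 * R) * (K : ℝ) ^ 2 := by gcongr
      _ = C1 * (C3 : ℝ) ^ 2 * R * M ^ 2 := by
          rw [hKdef]
          push_cast
          ring
      _ ≤ _ := by
          gcongr
          linarith
  · intro G B hG hper hB ε hε hSp v
    have hB0 : 0 ≤ B := by
      have h1 := (c3_Nn_nonneg z M G 0).trans (hB 0)
      exact nonneg_of_mul_nonneg_left h1 (Real.exp_pos _)
    have hbdd : ∀ v, Nn z M G v ≤ B := by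
      intro v
      refine (hB v).trans ?_
      have h1 : Real.exp (-(M * yy z v ^ 2)) ≤ 1 := by
        rw [Real.exp_le_one_iff]
        have := mul_nonneg (Nat.cast_nonneg (α := ℝ) M) (sq_nonneg (yy z v))
        linarith
      exact mul_le_of_le_one_right hB0 h1
    obtain ⟨N, hNdef⟩ : ∃ N : ℝ, N = ⨆ v, Nn z M G v := ⟨_, rfl⟩
    have hbddA : BddAbove (Set.range fun v => Nn z M G v) := ⟨B, by rintro _ ⟨v, rfl⟩; exact hbdd v⟩
    have hNle : ∀ v, Nn z M G v ≤ N := fun v => by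
      rw [hNdef]
      exact le_ciSup hbddA v
    have hN0 : 0 ≤ N := (c3_Nn_nonneg z M G 0).trans (hNle 0)
    have hmain : ∀ v, Nn z M G v ≤ D1 ^ M * ε + N / 2 + B * Real.exp (-(M * R ^ 2)) := by
      intro v
      have hD1M : 0 ≤ D1 ^ M * ε := by positivity
      have hBe : 0 ≤ B * Real.exp (-(M * R ^ 2)) := by positivity
      rcases le_or_gt (yy z v ^ 2) (R ^ 2) with hv | hv
      · obtain ⟨n, s, hs, hn⟩ := hScov v (abs_le_of_sq_le_sq hv (by linarith))
        obtain ⟨u, hu⟩ : ∃ u : Fin 2 → ℂ, u = fun j => (v j - gam z (fun i => (n i : ℝ)) j - s j) / C1 := ⟨_, rfl⟩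
        have hu1 : ∀ j, ‖u j‖ ≤ 1 := by
          intro j
          rw [hu]
          simp only []
          rw [norm_div, Complex.norm_real, Real.norm_eq_abs, abs_of_pos hC1p, div_le_one hC1p]
          exact hn j
        have hC1c : (C1 : ℂ) ≠ 0 := by exact_mod_cast hC1p.ne'
        have hvs : (fun j => s j + C1 * u j) + gam z (fun i => (n i : ℝ)) = v := by
          funext j
          rw [Pi.add_apply, hu]
          simp only []
          rw [mul_div_cancel₀ _ hC1c]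
          ring
        have h1 : Nn z M G v = Nn z M G (fun j => s j + C1 * u j) := by
          rw [← hper n (fun j => s j + C1 * u j), hvs]
        rw [h1]
        have h2 := c3_one z hz M C1 s G hG N ε hN0 hε hNle K hK
          (fun i => hSp _ (Finset.mem_image.mpr ⟨(s, i), by simp [hs], rfl⟩)) R' C4 hR'3
          (fun y hy => by
            refine (hQ _).trans ?_
            rw [hC4]
            have h3 : ‖(fun j => (C1 : ℂ) * y j)‖ ≤ C1 * R' := by
              rw [pi_norm_le_iff_of_nonneg (by positivity)]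
              intro j
              rw [norm_mul, Complex.norm_real, Real.norm_eq_abs, abs_of_pos hC1p]
              exact mul_le_mul_of_nonneg_left (hy j) hC1p.le
            gcongr) u hu1
        have h3 : (22 : ℝ) ^ (2 * K) * (ε * Real.exp (M * C4)) = D1 ^ M * ε := by
          rw [hD1, hKdef, mul_pow, ← pow_mul, ← Real.exp_nat_mul]
          rw [show 2 * (C3 * M) = 2 * C3 * M by ring]
          ring
        have h4 : ((2 : ℕ) : ℝ) * 22 ^ (2 * K) * (4 / (R' - 1)) ^ K * (N * Real.exp (M * C4)) ≤ N / 2 := by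
          have e1 : (4 : ℝ) / (R' - 1) = 1 / (4 * 22 ^ 2) := by
            rw [hR']
            field_simp
            ring
          have e2 : (22 : ℝ) ^ (2 * K) * (4 / (R' - 1)) ^ K = 1 / 4 ^ K := by
            rw [e1, pow_mul, ← mul_pow]
            rw [show (22 : ℝ) ^ 2 * (1 / (4 * 22 ^ 2)) = 1 / 4 by norm_num]
            rw [one_div, inv_pow, one_div]
          have e3 : 2 * (2 : ℝ) * Real.exp (M * C4) ≤ 4 ^ K := by
            have a1 : (4 : ℝ) ^ K = (4 ^ C3) ^ M := by rw [hKdef, pow_mul]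
            rw [a1]
            calc 2 * (2 : ℝ) * Real.exp (M * C4) ≤ (2 * (2 : ℝ)) ^ M * Real.exp (M * C4) := by
                  gcongr
                  exact le_self_pow₀ (by norm_num) (by omega)
              _ = (2 * (2 : ℝ) * Real.exp C4) ^ M := by rw [Real.exp_nat_mul, ← mul_pow]
              _ ≤ _ := by
                  gcongr
          have h4K : (0 : ℝ) < 4 ^ K := by positivity
          calc ((2 : ℕ) : ℝ) * 22 ^ (2 * K) * (4 / (R' - 1)) ^ K * (N * Real.exp (M * C4))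
              = (2 * Real.exp (M * C4)) * N * (22 ^ (2 * K) * (4 / (R' - 1)) ^ K) := by
                rw [Nat.cast_ofNat]
                ring
            _ = (2 * Real.exp (M * C4)) * N * (1 / 4 ^ K) := by rw [e2]
            _ = (2 * (2 * Real.exp (M * C4)) / 4 ^ K) * (N / 2) := by ring
            _ ≤ 1 * (N / 2) := by
                gcongr
                rw [div_le_one h4K]
                linarith
            _ = N / 2 := one_mul _
        rw [h3] at h2
        linarith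
      · refine (hB v).trans ?_
        have h1 : B * Real.exp (-(M * yy z v ^ 2)) ≤ B * Real.exp (-(M * R ^ 2)) := by
          gcongr
        linarith
    have hN2 : N ≤ D1 ^ M * ε + N / 2 + B * Real.exp (-(M * R ^ 2)) := by
      rw [hNdef]
      refine ciSup_le fun v => ?_
      rw [← hNdef]
      exact hmain v
    have hBe : 0 ≤ B * Real.exp (-(M * R ^ 2)) := by positivity
    have hDM : (1 : ℝ) ≤ D1 ^ M := one_le_pow₀ hD11
    have h2M : 2 * D1 ^ M ≤ (C1 * (C3 : ℝ) ^ 2 + 2 * D1) ^ M := by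
      calc 2 * D1 ^ M ≤ 2 ^ M * D1 ^ M := by
            gcongr
            exact le_self_pow₀ (by norm_num) (by omega)
        _ = (2 * D1) ^ M := by rw [mul_pow]
        _ ≤ _ := by
            gcongr
            linarith
    calc Nn z M G v ≤ N := hNle v
      _ ≤ 2 * (D1 ^ M * ε + B * Real.exp (-(M * R ^ 2))) := by linarith
      _ ≤ 2 * D1 ^ M * (ε + B * Real.exp (-(M * R ^ 2))) := by nlinarith
      _ ≤ _ := by
          gcongr

end Pool.Agent.MSW

end
end

end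

section

/-! # MP_f58a57_nt, all nonspecial points: B3_Bound -/

/-! ### bounds for the values -/

section

open Complex Filter Topology

noncomputable section

namespace Pool.Agent.MSW

open MSD MSP

/-- B7a. PROOF. As `TH_bound` in R/B7_Bound: Cauchy's estimate (radius `1`): `‖iteratedDeriv k (f l) (u l)‖ ≤ k! A`. For `m ∈ q.support` `∑ m_l ≤ n`, so `∏ m_l! ≤ ∏ n^(m_l) = n^(∑ m_l)`. -/
theorem TF_bound (f : Fin 2 → ℂ → ℂ) (hf : ∀ l, Differentiable ℂ (f l)) (u : Fin 2 → ℂ) (q : MvPolynomial (Fin 2) ℂ) (n : ℕ) (hn : 1 ≤ n)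
    (hq : q.totalDegree ≤ n) (A : ℝ) (hA : 1 ≤ A) (h : ∀ l, ∀ v : ℂ, ‖v - u l‖ ≤ 1 → ‖f l v‖ ≤ A) : ‖TF f u q‖ ≤ A ^ 2 * MSR.nm n q := by
  have hcau : ∀ l : Fin 2, ∀ k : ℕ, ‖iteratedDeriv k (f l) (u l)‖ ≤ k.factorial * A := by
    intro l k
    have h1 := Complex.norm_iteratedDeriv_le_of_forall_mem_sphere_norm_le (c := u l) (R := 1)
      (C := A) (f := f l) k one_pos ((hf l).diffContOnCl)
      (fun z hz => h l z (by rw [mem_sphere_iff_norm] at hz; exact hz.le))
    simpa using h1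
  unfold TF MSR.nm
  rw [Finset.mul_sum]
  refine (norm_sum_le _ _).trans (Finset.sum_le_sum fun m hm => ?_)
  rw [norm_mul, norm_prod]
  have hsum : (m.sum fun _ e => e) = ∑ l, m l := Finsupp.sum_fintype _ _ (fun _ => rfl)
  have hdeg : ∑ l, m l ≤ n := by
    have h1 := MvPolynomial.le_totalDegree hm
    rw [hsum] at h1
    exact h1.trans hq
  have hprod : ∏ l, ‖iteratedDeriv (m l) (f l) (u l)‖ ≤ A ^ 2 * (n : ℝ) ^ (m.sum fun _ e => e) := by
    have h1 : ∏ l, ‖iteratedDeriv (m l) (f l) (u l)‖ ≤ ∏ l : Fin 2, (A * (n : ℝ) ^ (m l)) := by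
      apply Finset.prod_le_prod (fun _ _ => norm_nonneg _)
      intro l _
      refine (hcau l (m l)).trans ?_
      rw [mul_comm]
      apply mul_le_mul_of_nonneg_left _ (by linarith)
      have h2 : m l ≤ n := (Finset.single_le_sum (f := fun l => m l) (fun _ _ => Nat.zero_le _) (Finset.mem_univ l)).trans hdeg
      have h3 : (m l).factorial ≤ n ^ (m l) := (Nat.factorial_le_pow (m l)).trans (Nat.pow_le_pow_left h2 _)
      exact_mod_cast h3
    rw [Finset.prod_mul_distrib, Finset.prod_const, Finset.card_univ, Fintype.card_fin, Finset.prod_pow_eq_pow_sum] at h1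
    rw [hsum]
    exact h1
  calc ‖q.coeff m‖ * ∏ l, ‖iteratedDeriv (m l) (f l) (u l)‖
      ≤ ‖q.coeff m‖ * (A ^ 2 * (n : ℝ) ^ (m.sum fun _ e => e)) := mul_le_mul_of_nonneg_left hprod (norm_nonneg _)
    _ = A ^ 2 * (‖q.coeff m‖ * (n : ℝ) ^ (m.sum fun _ e => e)) := by ring

/-- B7b. PROOF. `growth z (sE z) hz`: `‖N0‖, ‖N2‖ ≤ exp(C(1 + (Im t)²))`; `‖om²‖ = π ≥ 1`; `a + (M - 2a) ≤ M`. -/
theorem fa_bound (z : ℂ) (hz : 0 < z.im) : ∃ C : ℝ, 1 ≤ C ∧ ∀ om : ℂ, om ^ 2 = Real.pi → ∀ (M a : ℕ) (t : ℂ), 2 * a ≤ M →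
    ‖fa z om M a t‖ ≤ Real.exp (C * M * (1 + t.im ^ 2)) := by
  obtain ⟨C, hC, hg⟩ := growth z (sE z) hz
  refine ⟨C + 1, by linarith, fun om hom M a t ha => ?_⟩
  obtain ⟨h0, -, h2⟩ := hg t
  have ht : 0 ≤ 1 + t.im ^ 2 := by positivity
  unfold fa
  rw [norm_mul, norm_pow, norm_pow, norm_div, hom, Complex.norm_real, Real.norm_of_nonneg Real.pi_pos.le]
  have h3 : ‖N2 z (sE z) t‖ / Real.pi ≤ Real.exp (C * (1 + t.im ^ 2)) := by
    rw [div_le_iff₀ Real.pi_pos]
    have h4 : (1 : ℝ) ≤ Real.pi := by linarith [Real.pi_gt_three]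
    nlinarith [Real.exp_pos (C * (1 + t.im ^ 2))]
  calc (‖N2 z (sE z) t‖ / Real.pi) ^ a * ‖N0 z t‖ ^ (M - 2 * a)
      ≤ Real.exp (C * (1 + t.im ^ 2)) ^ a * Real.exp (C * (1 + t.im ^ 2)) ^ (M - 2 * a) :=
        mul_le_mul (pow_le_pow_left₀ (div_nonneg (norm_nonneg _) Real.pi_pos.le) h3 _)
          (pow_le_pow_left₀ (norm_nonneg _) h0 _) (by positivity) (by positivity)
    _ = Real.exp (C * (1 + t.im ^ 2)) ^ (a + (M - 2 * a)) := by rw [pow_add]
    _ ≤ Real.exp (C * (1 + t.im ^ 2)) ^ M := by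
        refine pow_le_pow_right₀ ?_ (by omega)
        exact Real.one_le_exp (by positivity)
    _ = Real.exp (M * (C * (1 + t.im ^ 2))) := by rw [← Real.exp_nat_mul]
    _ ≤ Real.exp ((C + 1) * M * (1 + t.im ^ 2)) := by
        apply Real.exp_le_exp.mpr
        have h5 : (0 : ℝ) ≤ M * (1 + t.im ^ 2) := by positivity
        nlinarith

/-- B7c. PROOF. `nm_add, nm_mul, nm_C, nm_X`. -/
theorem lin_nm (D : Dw) (M : ℕ) (W : ℂ) (ρ : ℝ) (hρ : 0 ≤ ρ) :
    MSR.nm ρ (lin D M W) ≤ M * ‖W - D.lam‖ + ‖rh / D.om‖ * (1 + ‖D.z‖) * ρ := by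
  unfold lin
  refine (MSR.nm_add ρ hρ _ _).trans ?_
  refine add_le_add (le_of_eq ?_) ?_
  · rw [MSR.nm_C, norm_mul, Complex.norm_natCast]
  · refine (MSR.nm_mul ρ hρ _ _).trans ?_
    rw [MSR.nm_C, mul_assoc]
    refine mul_le_mul_of_nonneg_left ?_ (norm_nonneg _)
    refine (MSR.nm_sum ρ hρ _ _).trans ?_
    rw [Fin.sum_univ_two]
    have h1 : ∀ l : Fin 2, MSR.nm ρ (MvPolynomial.C (cz D.z l) * MvPolynomial.X l : MvPolynomial (Fin 2) ℂ) ≤ ‖cz D.z l‖ * ρ := by
      intro l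
      refine (MSR.nm_mul ρ hρ _ _).trans ?_
      rw [MSR.nm_C, MSR.nm_X]
    have h2 := h1 0
    have h3 := h1 1
    have h4 : cz D.z 0 = 1 := by simp [cz]
    have h5 : cz D.z 1 = D.z := by simp [cz]
    rw [h4, norm_one] at h2
    rw [h5] at h3
    rw [h4, h5]
    linarith

theorem lin_deg (D : Dw) (M : ℕ) (W : ℂ) : (lin D M W).totalDegree ≤ 1 := by
  unfold lin
  refine (MvPolynomial.totalDegree_add _ _).trans (max_le ?_ ?_)
  · rw [MvPolynomial.totalDegree_C]
    omega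
  · refine (MvPolynomial.totalDegree_mul _ _).trans ?_
    rw [MvPolynomial.totalDegree_C, zero_add]
    refine MvPolynomial.totalDegree_finsetSum_le fun l _ => ?_
    refine (MvPolynomial.totalDegree_mul _ _).trans ?_
    rw [MvPolynomial.totalDegree_C, zero_add, MvPolynomial.totalDegree_X]

end Pool.Agent.MSW

end
end

/-! ### the polynomials `Bp` -/

section

open Complex Filter Topology

noncomputable section

namespace Pool.Agent.MSW

open MSD MSP

/-- weighted length of a polynomial in one variable -/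
def nm1 (ρ : ℝ) (B : Polynomial ℂ) : ℝ := ∑ i ∈ B.support, ‖B.coeff i‖ * ρ ^ i

/-- B7d. PROOF. Induction: `X B_k` is monic of degree `k + 1` and `c B_k'` has smaller degree. -/
theorem Bp_monic (c : ℂ) (k : ℕ) : (Bp c k).Monic ∧ (Bp c k).natDegree = k := by
  induction k with
  | zero =>
    simp only [Bp]
    exact ⟨Polynomial.monic_one, Polynomial.natDegree_one⟩
  | succ k ih =>
    obtain ⟨h1, h2⟩ := ih
    have hX : (Polynomial.X * Bp c k).Monic := Polynomial.monic_X.mul h1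
    have hXd : (Polynomial.X * Bp c k).natDegree = k + 1 := by
      rw [Polynomial.natDegree_X_mul h1.ne_zero, h2]
    have hlt : (Polynomial.C c * Polynomial.derivative (Bp c k)).degree < (Polynomial.X * Bp c k).degree := by
      rw [Polynomial.degree_eq_natDegree hX.ne_zero, hXd]
      refine (Polynomial.degree_le_natDegree).trans_lt ?_
      have h3 : (Polynomial.C c * Polynomial.derivative (Bp c k)).natDegree ≤ k := by
        refine (Polynomial.natDegree_C_mul_le _ _).trans ?_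
        refine (Polynomial.natDegree_derivative_le _).trans ?_
        omega
      exact_mod_cast (Nat.lt_succ_of_le h3)
    simp only [Bp]
    refine ⟨hX.add_of_left hlt, ?_⟩
    rw [Polynomial.natDegree_add_eq_left_of_degree_lt hlt, hXd]

theorem b7_nm1_eq (ρ : ℝ) (B : Polynomial ℂ) (s : Finset ℕ) (h : B.support ⊆ s) :
    nm1 ρ B = ∑ i ∈ s, ‖B.coeff i‖ * ρ ^ i := by
  unfold nm1
  refine Finset.sum_subset h fun m _ hm => ?_
  rw [Polynomial.notMem_support_iff] at hm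
  rw [hm, norm_zero, zero_mul]

theorem b7_nm1_range (ρ : ℝ) (B : Polynomial ℂ) (n : ℕ) (h : B.natDegree ≤ n) :
    nm1 ρ B = ∑ i ∈ Finset.range (n + 1), ‖B.coeff i‖ * ρ ^ i := by
  refine b7_nm1_eq ρ B _ fun i hi => ?_
  rw [Finset.mem_range]
  exact Nat.lt_succ_of_le ((Polynomial.le_natDegree_of_mem_supp i hi).trans h)

theorem b7_nm1_nonneg (ρ : ℝ) (hρ : 0 ≤ ρ) (B : Polynomial ℂ) : 0 ≤ nm1 ρ B :=
  Finset.sum_nonneg fun _ _ => mul_nonneg (norm_nonneg _) (pow_nonneg hρ _)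

/-- B7e. PROOF. Sum over a larger set (`nm1_eq` as `nm_eq` in R/A5_Nm); `nm1 (X B) = ρ nm1 B`; `nm1 (C c * B') ≤ ‖c‖ (k/ρ) nm1 B ≤ ‖c‖ n nm1 B` for `natDegree B ≤ k ≤ n`. -/
theorem nm1_Bp (c : ℂ) (n k : ℕ) (hk : k ≤ n) (ρ : ℝ) (hρ : 1 ≤ ρ) : nm1 ρ (Bp c k) ≤ (ρ + ‖c‖ * n) ^ k := by
  have hρ0 : 0 ≤ ρ := by linarith
  induction k with
  | zero =>
    simp only [Bp, pow_zero]
    rw [b7_nm1_range ρ 1 0 (by simp)]
    simp
  | succ k ih =>
    have ih := ih (by omega)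
    obtain ⟨h1, h2⟩ := Bp_monic c k
    have h3 := (Bp_monic c (k + 1)).2
    rw [b7_nm1_range ρ _ (k + 1) h3.le]
    have hB := b7_nm1_range ρ (Bp c k) k h2.le
    have hstep : ∑ i ∈ Finset.range (k + 1 + 1), ‖(Bp c (k + 1)).coeff i‖ * ρ ^ i ≤
        ρ * nm1 ρ (Bp c k) + ‖c‖ * n * nm1 ρ (Bp c k) := by
      have hc : ∀ i, ‖(Bp c (k + 1)).coeff i‖ * ρ ^ i ≤ ‖(Polynomial.X * Bp c k).coeff i‖ * ρ ^ i +
          ‖c‖ * (‖(Bp c k).coeff (i + 1)‖ * (i + 1)) * ρ ^ i := by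
        intro i
        have e : (Bp c (k + 1)).coeff i = (Polynomial.X * Bp c k).coeff i + c * ((Bp c k).coeff (i + 1) * (i + 1)) := by
          simp only [Bp]
          rw [Polynomial.coeff_add, Polynomial.coeff_C_mul, Polynomial.coeff_derivative]
        rw [e, ← add_mul]
        refine mul_le_mul_of_nonneg_right ?_ (pow_nonneg hρ0 _)
        refine (norm_add_le _ _).trans (add_le_add le_rfl ?_)
        rw [norm_mul, norm_mul]
        have e2 : ‖((i : ℂ) + 1)‖ = (i : ℝ) + 1 := by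
          have : ((i : ℂ) + 1) = ((i + 1 : ℕ) : ℂ) := by push_cast; ring
          rw [this, Complex.norm_natCast]
          push_cast
          ring
        rw [e2]
      refine (Finset.sum_le_sum fun i _ => hc i).trans ?_
      rw [Finset.sum_add_distrib]
      refine add_le_add (le_of_eq ?_) ?_
      · rw [Finset.sum_range_succ', hB, Finset.mul_sum]
        rw [Polynomial.coeff_X_mul_zero, norm_zero, zero_mul, add_zero]
        refine Finset.sum_congr rfl fun i _ => ?_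
        rw [Polynomial.coeff_X_mul]
        ring
      · have e0 : ∀ i ∈ Finset.range (k + 1 + 1), ‖c‖ * (‖(Bp c k).coeff (i + 1)‖ * (i + 1)) * ρ ^ i ≤
            ‖c‖ * n * (‖(Bp c k).coeff (i + 1)‖ * ρ ^ (i + 1)) := by
          intro i hi
          by_cases hik : i + 1 ≤ k
          · have hin : ((i : ℝ) + 1) ≤ n := by
              have : i + 1 ≤ n := by omega
              exact_mod_cast this
            have hpow : ρ ^ i ≤ ρ ^ (i + 1) := pow_le_pow_right₀ hρ (by omega)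
            have h5 : ((i : ℝ) + 1) * ρ ^ i ≤ n * ρ ^ (i + 1) := mul_le_mul hin hpow (pow_nonneg hρ0 _) (by positivity)
            have h6 : 0 ≤ ‖c‖ * ‖(Bp c k).coeff (i + 1)‖ := by positivity
            calc ‖c‖ * (‖(Bp c k).coeff (i + 1)‖ * (i + 1)) * ρ ^ i = (‖c‖ * ‖(Bp c k).coeff (i + 1)‖) * (((i : ℝ) + 1) * ρ ^ i) := by ring
              _ ≤ (‖c‖ * ‖(Bp c k).coeff (i + 1)‖) * (n * ρ ^ (i + 1)) := mul_le_mul_of_nonneg_left h5 h6
              _ = _ := by ring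
          · have h7 : (Bp c k).coeff (i + 1) = 0 := Polynomial.coeff_eq_zero_of_natDegree_lt (by omega)
            rw [h7, norm_zero]
            simp
        refine (Finset.sum_le_sum e0).trans ?_
        rw [← Finset.mul_sum]
        refine mul_le_mul_of_nonneg_left ?_ (by positivity)
        have h8 := b7_nm1_range ρ (Bp c k) (k + 1 + 1) (by omega)
        rw [h8, Finset.sum_range_succ' _ (k + 1 + 1)]
        have h9 : 0 ≤ ‖(Bp c k).coeff 0‖ * ρ ^ 0 := by positivity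
        linarith
    refine hstep.trans ?_
    rw [← add_mul, pow_succ, mul_comm]
    exact mul_le_mul_of_nonneg_right ih (by positivity)

/-- B7f. PROOF. `aeval P B = ∑ C(b_i) P^i` (`Polynomial.aeval_eq_sum_range` or `Polynomial.sum`), `MSR.nm_sum`, `nm_mul`, `nm_C`, `MSR.a5_pow`. -/
theorem nm_aeval1 (ρ ρ' : ℝ) (hρ : 0 ≤ ρ) (P : MvPolynomial (Fin 2) ℂ) (h : MSR.nm ρ P ≤ ρ') (B : Polynomial ℂ) :
    MSR.nm ρ (Polynomial.aeval P B) ≤ nm1 ρ' B := by
  rw [Polynomial.aeval_def, Polynomial.eval₂_eq_sum, Polynomial.sum_def]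
  refine (MSR.nm_sum ρ hρ _ _).trans ?_
  unfold nm1
  refine Finset.sum_le_sum fun i _ => ?_
  refine (MSR.nm_mul ρ hρ _ _).trans ?_
  have e : MSR.nm ρ ((algebraMap ℂ (MvPolynomial (Fin 2) ℂ)) (B.coeff i)) = ‖B.coeff i‖ := MSR.nm_C ρ (B.coeff i)
  rw [e]
  exact mul_le_mul_of_nonneg_left (MSR.a5_pow ρ ρ' hρ P h i) (norm_nonneg _)

theorem deg_aeval1 (P : MvPolynomial (Fin 2) ℂ) (hP : P.totalDegree ≤ 1) (B : Polynomial ℂ) :
    (Polynomial.aeval P B).totalDegree ≤ B.natDegree := by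
  rw [Polynomial.aeval_def, Polynomial.eval₂_eq_sum, Polynomial.sum_def]
  refine MvPolynomial.totalDegree_finsetSum_le fun i hi => ?_
  refine (MvPolynomial.totalDegree_mul _ _).trans ?_
  have h1 : ((algebraMap ℂ (MvPolynomial (Fin 2) ℂ)) (B.coeff i)).totalDegree = 0 := MvPolynomial.totalDegree_C _
  rw [h1, zero_add]
  refine (MvPolynomial.totalDegree_pow _ _).trans ?_
  have h2 := Polynomial.le_natDegree_of_mem_supp i hi
  calc i * P.totalDegree ≤ i * 1 := Nat.mul_le_mul_left _ hP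
    _ ≤ B.natDegree := by omega

end Pool.Agent.MSW

end
end

/-! ### periodicity -/

section

open Complex Filter Topology

noncomputable section

namespace Pool.Agent.MSW

open MSD MSP

/-- B9a. PROOF. `lin D M W' = lin D M W + C (M om (N_0 + N_1 z))` if `W' = W + om (N_0 + N_1 z)`; substituting `X_l - 2πi M N_l` adds `-(rh/om) 2πi M (N_0 + z N_1) = -(π/om) M (..) = -M om (..)` (`2πi rh = π`, `om² = π`). -/
theorem lin_shift (D : Dw) (M : ℕ) (W : ℂ) (N : Fin 2 → ℤ) :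
    MvPolynomial.aeval (fun l => MvPolynomial.X l - MvPolynomial.C (2 * Real.pi * I * M * N l) : Fin 2 → MvPolynomial (Fin 2) ℂ)
      (lin D M (W + D.om * (N 0 + N 1 * D.z))) = lin D M W := by
  have hne := D.ne
  have hpi : (Real.pi : ℂ) / D.om = D.om := by
    rw [← D.hom]
    field_simp
  have e1 : rh / D.om * (2 * Real.pi * I) = D.om := by
    have : -I / 2 / D.om * (2 * (Real.pi : ℂ) * I) = -(I * I) * (Real.pi / D.om) := by
      field_simp
    show -I / 2 / D.om * (2 * (Real.pi : ℂ) * I) = D.om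
    rw [this, Complex.I_mul_I, hpi]
    ring
  have hsum : rh / D.om * ∑ l, cz D.z l * (2 * Real.pi * I * M * N l) = M * (D.om * (N 0 + N 1 * D.z)) := by
    rw [Fin.sum_univ_two]
    have c0 : cz D.z 0 = 1 := by simp [cz]
    have c1 : cz D.z 1 = D.z := by simp [cz]
    rw [c0, c1]
    have e2 : rh / D.om * (1 * (2 * Real.pi * I * M * N 0) + D.z * (2 * Real.pi * I * M * N 1)) =
        rh / D.om * (2 * Real.pi * I) * (M * (N 0 + N 1 * D.z)) := by ring
    rw [e2, e1]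
    ring
  unfold MSW.lin
  obtain ⟨K, hK⟩ : ∃ K : Fin 2 → ℂ, ∀ l, 2 * Real.pi * I * M * N l = K l := ⟨_, fun _ => rfl⟩
  simp only [hK] at hsum ⊢
  simp only [map_add, map_mul, map_sum, MvPolynomial.algHom_C, MvPolynomial.algebraMap_eq, MvPolynomial.aeval_X]
  have e3 : ∑ l, MvPolynomial.C (cz D.z l) * (MvPolynomial.X l - MvPolynomial.C (K l)) =
      (∑ l, MvPolynomial.C (cz D.z l) * MvPolynomial.X l : MvPolynomial (Fin 2) ℂ) -
      MvPolynomial.C (∑ l, cz D.z l * K l) := by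
    rw [map_sum, ← Finset.sum_sub_distrib]
    refine Finset.sum_congr rfl fun l _ => ?_
    rw [mul_sub, ← MvPolynomial.C_mul]
  rw [e3]
  obtain ⟨A, hA⟩ : ∃ A : ℂ, A = D.om * (N 0 + N 1 * D.z) := ⟨_, rfl⟩
  rw [← hA] at hsum
  have e4 : (MvPolynomial.C (M * (W + A - D.lam)) : MvPolynomial (Fin 2) ℂ) = MvPolynomial.C (M * (W - D.lam)) +
      MvPolynomial.C (rh / D.om) * MvPolynomial.C (∑ l, cz D.z l * K l) := by
    rw [← MvPolynomial.C_mul, ← MvPolynomial.C_add, hsum]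
    congr 1
    ring
  have e5 : (MvPolynomial.C (M : ℂ) * MvPolynomial.C (W + A - D.lam) : MvPolynomial (Fin 2) ℂ) = MvPolynomial.C (M : ℂ) * MvPolynomial.C (W - D.lam) +
      MvPolynomial.C (rh / D.om) * MvPolynomial.C (∑ l, cz D.z l * K l) := by
    rw [← MvPolynomial.C_mul, ← MvPolynomial.C_mul, ← e4]
  rw [← hA, e5]
  ring

/-- B9b. PROOF. Let `N = (n 1, n 2)`, `m = (n 0, n 1)`; `gam z n l = m l + N l z`. For every `ν`: `TF_shift` (`M = 2L`, `f l = fa`, `fa_shift`, `fa_diff`) at the point `u = h + t`, and `aeval (X - 2πiMN) (aeval (lin D M (om (t_1 + m_1 + N_1 z))) B) = aeval (lin D M (om t_1)) B` by `lin_shift` (`m 1 = n 1 = N 0`).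
So `GA D c (u + gam n) = (∏ l, au z (m l) (N l) (u l))^(2L) GA D c u`. Norm: `norm_au`: `‖au‖ = exp(π N² Im z + 2π N Im u_l)`, and `Qf (u + γ) = Qf u + π ∑ (2 N_l Im u_l + N_l² Im z)` (`Im (u_l + γ_l) = Im u_l + N_l Im z`, `yy_gam`, `yy_add`). -/
theorem Nn_shift (D : Dw) {L E : ℕ} (c : Iw L E → ℂ) (n : Fin 3 → ℤ) (u : Fin 2 → ℂ) :
    Nn D.z (2 * L) (GA D c) (u + gam D.z (fun i => (n i : ℝ))) = Nn D.z (2 * L) (GA D c) u := by
  have hz : 0 < D.z.im := D.im
  obtain ⟨N, hN⟩ : ∃ N : Fin 2 → ℤ, N = ![n 1, n 2] := ⟨_, rfl⟩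
  obtain ⟨m, hm⟩ : ∃ m : Fin 2 → ℤ, m = ![n 0, n 1] := ⟨_, rfl⟩
  have hm1 : m 1 = N 0 := by rw [hm, hN]; rfl
  obtain ⟨γ, hγ⟩ : ∃ γ : Fin 2 → ℂ, γ = gam D.z (fun i => (n i : ℝ)) := ⟨_, rfl⟩
  have hγl : ∀ l, γ l = m l + N l * D.z := by
    intro l
    rw [hγ, hm, hN]
    fin_cases l <;> simp [gam]
  have hyy : yy D.z (u + γ) = yy D.z u := by
    rw [yy_add, hγ, yy_gam D.z hz, add_zero]
  rw [← hγ]
  have harg : ∀ (v : Fin 2 → ℂ), (fun l => D.h l + (v l - D.h l)) = v := by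
    intro v
    funext l
    ring
  have hG : GA D c (u + γ) = (∏ l, au D.z (m l) (N l) (u l)) ^ (2 * L) * GA D c u := by
    unfold GA GR
    rw [Finset.mul_sum]
    refine Finset.sum_congr rfl fun ν _ => ?_
    have key : Gn D ν (D.om * ((u + γ) 1 - D.h 1)) (fun l => (u + γ) l - D.h l) =
        (∏ l, au D.z (m l) (N l) (u l)) ^ (2 * L) * Gn D ν (D.om * (u 1 - D.h 1)) (fun l => u l - D.h l) := by
      unfold Gn
      rw [harg, harg]
      have e1 : (u + γ) = fun l => u l + (m l + N l * D.z) := by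
        funext l
        rw [Pi.add_apply, hγl]
      have e2 : D.om * ((u + γ) 1 - D.h 1) = D.om * (u 1 - D.h 1) + D.om * (N 0 + N 1 * D.z) := by
        rw [Pi.add_apply, hγl, hm1]
        ring
      rw [e2, e1, TF_shift D.z hz (2 * L) _ (fun l => fa_diff D.z D.om hz (2 * L) _) m N
        (fun l t => fa_shift D.z D.om hz (2 * L) _ (by have := (ν.1 l).isLt; omega) (m l) (N l) t) u,
        ← Polynomial.aeval_algHom_apply, lin_shift]
    show c ν * Gn D ν (D.om * ((u + γ) 1 - D.h 1)) (fun l => (u + γ) l - D.h l) =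
      (∏ l, au D.z (m l) (N l) (u l)) ^ (2 * L) * (c ν * Gn D ν (D.om * (u 1 - D.h 1)) (fun l => u l - D.h l))
    rw [key]
    ring
  -- the exponents
  obtain ⟨S, hS⟩ : ∃ S : ℝ, S = ∑ l, (Real.pi * (N l : ℝ) ^ 2 * D.z.im + 2 * Real.pi * N l * (u l).im) := ⟨_, rfl⟩
  have hnorm : ‖(∏ l, au D.z (m l) (N l) (u l)) ^ (2 * L)‖ = Real.exp ((2 * L : ℕ) * S) := by
    rw [norm_pow, norm_prod, Real.exp_nat_mul, hS, Real.exp_sum]
    congr 1
    exact Finset.prod_congr rfl fun l _ => norm_au D.z (m l) (N l) (u l)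
  have hQ : Qf D.z (u + γ) = Qf D.z u + S := by
    unfold Qf
    rw [hyy]
    have h1 : ∑ l, ((u + γ) l).im ^ 2 / D.z.im = ∑ l, (u l).im ^ 2 / D.z.im +
        ∑ l, ((N l : ℝ) ^ 2 * D.z.im + 2 * N l * (u l).im) := by
      rw [← Finset.sum_add_distrib]
      refine Finset.sum_congr rfl fun l _ => ?_
      have h2 : ((u + γ) l).im = (u l).im + N l * D.z.im := by
        rw [Pi.add_apply, hγl l]
        simp [Complex.add_im, Complex.mul_im]
      rw [h2]
      field_simp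
      ring
    have h3 : S = Real.pi * ∑ l, ((N l : ℝ) ^ 2 * D.z.im + 2 * N l * (u l).im) := by
      rw [hS, Finset.mul_sum]
      refine Finset.sum_congr rfl fun l _ => ?_
      ring
    rw [h1, h3]
    ring
  unfold Nn
  rw [hG, norm_mul, hnorm, hQ]
  have e : ∀ A B C : ℝ, Real.exp ((2 * L : ℕ) * A) * C * Real.exp (-((2 * L : ℕ) * (B + A))) = C * Real.exp (-((2 * L : ℕ) * B)) := by
    intro A B C
    have : Real.exp (-((2 * L : ℕ) * B)) = Real.exp ((2 * L : ℕ) * A) * Real.exp (-((2 * L : ℕ) * (B + A))) := by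
      rw [← Real.exp_add]
      congr 1
      ring
    rw [this]
    ring
  exact e _ _ _

end Pool.Agent.MSW

end
end

/-! ### the size of the auxiliary functions -/

section

open Complex Filter Topology

noncomputable section

namespace Pool.Agent.MSW

open MSD MSP

/-- B10a. the numerical inequality. PROOF. `(a (1 + r) + b n)^n ≤ ((a + b) n)^n (1 + (1 + r)/n)^n ≤ ((a + b) n)^n e^(1 + r)`, and `1 + r - π M r² ≤ 2 - M r²` (`M ≥ 1`: `1 + r - (π - 1) M r² ≤ 1 + r - 2 r² ≤ 2`). -/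
theorem b10_num (a b r : ℝ) (ha : 0 ≤ a) (hb : 0 ≤ b) (hr : 0 ≤ r) (n M : ℕ) (hn : 1 ≤ n) (hM : 1 ≤ M) :
    (a * (1 + r) + b * n) ^ n * Real.exp (-(Real.pi * M * r ^ 2)) ≤ ((a + b) * n) ^ n * Real.exp 2 * Real.exp (-(M * r ^ 2)) := by
  have hn0 : (0 : ℝ) < n := by exact_mod_cast hn
  have hM1 : (1 : ℝ) ≤ M := by exact_mod_cast hM
  have hab : 0 ≤ (a + b) * n := mul_nonneg (add_nonneg ha hb) hn0.le
  have e1 : a * (1 + r) + b * n ≤ ((a + b) * n) * Real.exp ((1 + r) / n) := by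
    have h2 : (1 + r) / n + 1 ≤ Real.exp ((1 + r) / n) := Real.add_one_le_exp _
    have h4 : a * (1 + r) + b * n ≤ (a + b) * (1 + r) + (a + b) * n :=
      add_le_add (mul_le_mul_of_nonneg_right (le_add_of_nonneg_right hb) (by linarith))
        (mul_le_mul_of_nonneg_right (le_add_of_nonneg_left ha) hn0.le)
    have h5 : (a + b) * (1 + r) + (a + b) * n = ((a + b) * n) * ((1 + r) / n + 1) := by
      field_simp
    rw [h5] at h4
    exact h4.trans (mul_le_mul_of_nonneg_left h2 hab)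
  have e0 : 0 ≤ a * (1 + r) + b * n := add_nonneg (mul_nonneg ha (by linarith)) (mul_nonneg hb hn0.le)
  have e2 : (a * (1 + r) + b * n) ^ n ≤ ((a + b) * n) ^ n * Real.exp (1 + r) := by
    calc (a * (1 + r) + b * n) ^ n ≤ (((a + b) * n) * Real.exp ((1 + r) / n)) ^ n := pow_le_pow_left₀ e0 e1 n
      _ = ((a + b) * n) ^ n * Real.exp (1 + r) := by
        rw [mul_pow, ← Real.exp_nat_mul]
        congr 2
        field_simp
  have hCn : 0 ≤ ((a + b) * n) ^ n := pow_nonneg hab n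
  have e3 : Real.exp (1 + r) * Real.exp (-(Real.pi * M * r ^ 2)) ≤ Real.exp 2 * Real.exp (-(M * r ^ 2)) := by
    rw [← Real.exp_add, ← Real.exp_add]
    refine Real.exp_le_exp.mpr ?_
    have hpi : 3 < Real.pi := Real.pi_gt_three
    have h6 : r ^ 2 ≤ M * r ^ 2 := le_mul_of_one_le_left (sq_nonneg r) hM1
    have h5 : 3 * (M * r ^ 2) ≤ Real.pi * (M * r ^ 2) :=
      mul_le_mul_of_nonneg_right hpi.le ((sq_nonneg r).trans h6)
    have h7 : r ≤ 1 + 2 * r ^ 2 := by nlinarith [sq_nonneg (r - 1 / 4)]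
    have h8 : Real.pi * M * r ^ 2 = Real.pi * (M * r ^ 2) := by ring
    rw [h8]
    linarith
  calc (a * (1 + r) + b * n) ^ n * Real.exp (-(Real.pi * M * r ^ 2))
      ≤ (((a + b) * n) ^ n * Real.exp (1 + r)) * Real.exp (-(Real.pi * M * r ^ 2)) :=
        mul_le_mul_of_nonneg_right e2 (Real.exp_pos _).le
    _ = ((a + b) * n) ^ n * (Real.exp (1 + r) * Real.exp (-(Real.pi * M * r ^ 2))) := by ring
    _ ≤ ((a + b) * n) ^ n * (Real.exp 2 * Real.exp (-(M * r ^ 2))) :=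
        mul_le_mul_of_nonneg_left e3 hCn
    _ = _ := by ring

lemma b10_GA (D : Dw) {L E : ℕ} (ν : Iw L E) (u : Fin 2 → ℂ) :
    GA D (Pi.single ν 1) u = Gn D ν (D.om * (u 1 - D.h 1)) (fun l => u l - D.h l) := by
  unfold GA GR
  rw [Finset.sum_eq_single ν]
  · simp
  · intro b _ hb
    simp [hb]
  · intro h
    exact absurd (Finset.mem_univ _) h

/-- bounds for the coordinates in the reduced domain -/
lemma b10_coord (z : ℂ) (hz : 0 < z.im) (v : Fin 2 → ℂ)
    (h2 : 0 ≤ cb z v 0 ∧ cb z v 0 ≤ 1) (h3 : 0 ≤ cb z v 1 ∧ cb z v 1 ≤ 1) :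
    (∀ l, |(v l).im| ≤ z.im) ∧ ‖v 1‖ ≤ (1 + ‖z‖) * (1 + |yy z v|) := by
  constructor
  · intro l
    have h4 : (v l).im = cb z v l * z.im := by
      unfold cb
      field_simp
    have h5 : 0 ≤ cb z v l ∧ cb z v l ≤ 1 := by
      fin_cases l
      · exact h2
      · exact h3
    rw [h4, abs_of_nonneg (mul_nonneg h5.1 hz.le)]
    exact mul_le_of_le_one_left hz.le h5.2
  · have h4 := coord z hz v 1
    have h5 : ca z v 1 = yy z v + cb z v 0 := by
      unfold yy
      ring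
    have h6 : |ca z v 1| ≤ |yy z v| + 1 := by
      rw [h5]
      refine (abs_add_le _ _).trans ?_
      rw [abs_of_nonneg h2.1]
      linarith [h2.2]
    have h7 : ‖((ca z v 1 : ℝ) : ℂ)‖ = |ca z v 1| := by
      rw [Complex.norm_real, Real.norm_eq_abs]
    have h8 : ‖((cb z v 1 : ℝ) : ℂ) * z‖ ≤ ‖z‖ := by
      rw [norm_mul, Complex.norm_real, Real.norm_eq_abs, abs_of_nonneg h3.1]
      exact mul_le_of_le_one_left (norm_nonneg _) h3.2
    rw [h4]
    refine (norm_add_le _ _).trans ?_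
    rw [h7]
    have h9 : 0 ≤ ‖z‖ * |yy z v| := mul_nonneg (norm_nonneg _) (abs_nonneg _)
    nlinarith

lemma b10_om (D : Dw) : ‖D.om‖ ^ 2 = Real.pi := by
  rw [← norm_pow, D.hom, Complex.norm_real, Real.norm_eq_abs, abs_of_pos Real.pi_pos]

lemma b10_om1 (D : Dw) : 1 ≤ ‖D.om‖ ∧ ‖D.om‖ ≤ 2 := by
  have h := b10_om D
  have h1 := Real.pi_gt_three
  have h2 := Real.pi_le_four
  have h3 := norm_nonneg D.om
  constructor <;> nlinarith

lemma b10_qq (D : Dw) : ‖D.qq‖ ≤ ‖rh‖ ^ 2 * ‖sE D.z‖ * (1 + ‖D.z‖ ^ 2) := by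
  unfold Dw.qq Dw.k
  have h1 : ‖(∑ l, cz D.z l ^ 2 : ℂ)‖ ≤ 1 + ‖D.z‖ ^ 2 := by
    rw [Fin.sum_univ_two]
    refine (norm_add_le _ _).trans ?_
    simp [cz]
  have h2 : ‖sE D.z / D.om ^ 2‖ ≤ ‖sE D.z‖ := by
    rw [norm_div, norm_pow, b10_om]
    refine div_le_self (norm_nonneg _) ?_
    linarith [Real.pi_gt_three]
  rw [norm_mul, norm_mul, norm_pow]
  exact mul_le_mul (mul_le_mul_of_nonneg_left h2 (by positivity)) h1 (norm_nonneg _) (by positivity)

/-- the bound in the reduced domain -/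
lemma b10_red (z : ℂ) (hz : 0 < z.im) (H : ℝ) (D : Dw) (hDz : D.z = z) (hH : ∀ l, ‖D.h l‖ ≤ H)
    (Λ : ℝ) (hΛ : 1 ≤ Λ) (hlam : ‖D.lam‖ ≤ Λ) (G : ℝ) (hG : 1 ≤ G)
    (hgr : ∀ om : ℂ, om ^ 2 = Real.pi → ∀ (M a : ℕ) (t : ℂ), 2 * a ≤ M →
      ‖fa z om M a t‖ ≤ Real.exp (G * M * (1 + t.im ^ 2)))
    (L E : ℕ) (hL : 1 ≤ L) (hE : 1 ≤ E) (ν : Iw L E) (u : Fin 2 → ℂ)
    (h1 : 0 ≤ ca z u 0 ∧ ca z u 0 ≤ 1)
    (h2 : 0 ≤ cb z u 0 ∧ cb z u 0 ≤ 1) (h3 : 0 ≤ cb z u 1 ∧ cb z u 1 ≤ 1) :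
    ‖GA D (Pi.single ν 1) u‖ ≤ Real.exp (G * (2 * L : ℕ) * (1 + (z.im + 1) ^ 2)) ^ 2 *
      ((2 * (2 * (1 + ‖z‖ + H) + 1) * Λ * L) * (1 + |yy z u|) +
        ((‖rh‖ * (1 + ‖z‖) + 2 * (‖rh‖ ^ 2 * ‖sE z‖ * (1 + ‖z‖ ^ 2))) * L) * E) ^ E := by
  obtain ⟨him, hnu⟩ := b10_coord z hz u h2 h3
  obtain ⟨hom1, hom2⟩ := b10_om1 D
  have hr0 : 0 ≤ |yy z u| := abs_nonneg _
  have hLr : (1 : ℝ) ≤ L := by exact_mod_cast hL
  have hL0 : (0 : ℝ) ≤ L := by linarith
  have hE0 : (0 : ℝ) ≤ E := Nat.cast_nonneg _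
  have hH0 : 0 ≤ H := (norm_nonneg _).trans (hH 0)
  set A : ℝ := Real.exp (G * (2 * L : ℕ) * (1 + (z.im + 1) ^ 2)) with hA
  have hA1 : 1 ≤ A := Real.one_le_exp (by positivity)
  rw [b10_GA]
  unfold Gn
  set W : ℂ := D.om * (u 1 - D.h 1) with hW
  have hpt : (fun l => D.h l + (u l - D.h l)) = u := by
    funext l
    ring
  rw [hpt]
  set q := Polynomial.aeval (lin D (2 * L) W) (Bp ((2 * L : ℕ) * D.qq) ν.2.val) with hq
  have hν2 : ν.2.val ≤ E := ν.2.isLt.le
  have hdeg : q.totalDegree ≤ E := by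
    refine (deg_aeval1 _ (lin_deg D (2 * L) W) _).trans ?_
    rw [(Bp_monic _ _).2]
    exact hν2
  have hf : ∀ l, Differentiable ℂ ((fun l => fa D.z D.om (2 * L) (ν.1 l).val) l) := fun l =>
    fa_diff D.z D.om D.im (2 * L) (ν.1 l).val
  have hth : ∀ l, ∀ v : ℂ, ‖v - u l‖ ≤ 1 → ‖(fun l => fa D.z D.om (2 * L) (ν.1 l).val) l v‖ ≤ A := by
    intro l v hv
    have e1 : |(v - u l).im| ≤ 1 := (Complex.abs_im_le_norm _).trans hv
    rw [Complex.sub_im, abs_le] at e1
    have e2 := abs_le.1 (him l)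
    have e3 : |v.im| ≤ z.im + 1 := by
      rw [abs_le]
      constructor <;> linarith [e1.1, e1.2, e2.1, e2.2]
    have e4 : v.im ^ 2 ≤ (z.im + 1) ^ 2 := by
      rw [← sq_abs v.im]
      exact pow_le_pow_left₀ (abs_nonneg _) e3 2
    have e5 : 2 * (ν.1 l).val ≤ 2 * L := Nat.mul_le_mul_left 2 (ν.1 l).isLt.le
    have e6 := hgr D.om D.hom (2 * L) (ν.1 l).val v e5
    rw [hDz]
    refine e6.trans (Real.exp_le_exp.2 ?_)
    exact mul_le_mul_of_nonneg_left (by linarith) (mul_nonneg (by linarith) (Nat.cast_nonneg _))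
  refine (TF_bound _ hf u q E hE hdeg A hA1 hth).trans ?_
  refine mul_le_mul_of_nonneg_left ?_ (by positivity)
  have hWl : ‖W - D.lam‖ ≤ (2 * (1 + ‖z‖ + H) + 1) * Λ * (1 + |yy z u|) := by
    refine (norm_sub_le _ _).trans ?_
    have e1 : ‖W‖ ≤ 2 * ((1 + ‖z‖ + H) * (1 + |yy z u|)) := by
      rw [hW, norm_mul]
      refine mul_le_mul hom2 ?_ (norm_nonneg _) (by norm_num)
      refine (norm_sub_le _ _).trans ?_
      have e2 := hH 1
      have e3 : 0 ≤ H * |yy z u| := mul_nonneg hH0 hr0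
      nlinarith
    have e4 : 0 ≤ 2 * ((1 + ‖z‖ + H) * (1 + |yy z u|)) := by positivity
    have e5 : 2 * ((1 + ‖z‖ + H) * (1 + |yy z u|)) ≤ 2 * ((1 + ‖z‖ + H) * (1 + |yy z u|)) * Λ :=
      le_mul_of_one_le_right e4 hΛ
    have e6 : Λ ≤ Λ * (1 + |yy z u|) := le_mul_of_one_le_right (by linarith) (by linarith)
    calc ‖W‖ + ‖D.lam‖ ≤ 2 * ((1 + ‖z‖ + H) * (1 + |yy z u|)) * Λ + Λ * (1 + |yy z u|) :=
          add_le_add (e1.trans e5) (hlam.trans e6)
      _ = _ := by ring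
  have hc : ‖rh / D.om‖ ≤ ‖rh‖ := by
    rw [norm_div]
    exact div_le_self (norm_nonneg _) hom1
  set ρ : ℝ := (2 * (2 * (1 + ‖z‖ + H) + 1) * Λ * L) * (1 + |yy z u|) + (‖rh‖ * (1 + ‖z‖)) * E with hρ
  have hlin : MSR.nm (E : ℝ) (lin D (2 * L) W) ≤ ρ := by
    refine (lin_nm D (2 * L) W _ hE0).trans ?_
    rw [hρ]
    refine add_le_add ?_ ?_
    · have e1 := mul_le_mul_of_nonneg_left hWl (Nat.cast_nonneg (α := ℝ) (2 * L))
      refine e1.trans (le_of_eq ?_)
      push_cast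
      ring
    · rw [hDz]
      exact mul_le_mul_of_nonneg_right (mul_le_mul_of_nonneg_right hc (by positivity)) hE0
  have hρ1 : 1 ≤ ρ := by
    have e1 : 1 ≤ Λ * L := one_le_mul_of_one_le_of_one_le hΛ hLr
    have e2 : 1 ≤ (Λ * L) * (1 + |yy z u|) := one_le_mul_of_one_le_of_one_le e1 (by linarith)
    have e3 : 1 ≤ 2 * (2 * (1 + ‖z‖ + H) + 1) := by
      have := norm_nonneg z
      linarith
    have e4 : 1 ≤ 2 * (2 * (1 + ‖z‖ + H) + 1) * ((Λ * L) * (1 + |yy z u|)) :=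
      one_le_mul_of_one_le_of_one_le e3 e2
    have e5 : 0 ≤ (‖rh‖ * (1 + ‖z‖)) * E := by positivity
    have e6 : (2 * (2 * (1 + ‖z‖ + H) + 1) * Λ * L) * (1 + |yy z u|) =
      2 * (2 * (1 + ‖z‖ + H) + 1) * ((Λ * L) * (1 + |yy z u|)) := by ring
    rw [hρ, e6]
    linarith
  refine (nm_aeval1 (E : ℝ) ρ hE0 _ hlin _).trans ?_
  refine (nm1_Bp _ E ν.2.val hν2 ρ hρ1).trans ?_
  have hqq : ‖((2 * L : ℕ) : ℂ) * D.qq‖ ≤ 2 * (‖rh‖ ^ 2 * ‖sE z‖ * (1 + ‖z‖ ^ 2)) * L := by
    rw [norm_mul, Complex.norm_natCast]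
    have e1 := b10_qq D
    rw [hDz] at e1
    refine (mul_le_mul_of_nonneg_left e1 (Nat.cast_nonneg _)).trans (le_of_eq ?_)
    push_cast
    ring
  have hbase : ρ + ‖((2 * L : ℕ) : ℂ) * D.qq‖ * E ≤
      (2 * (2 * (1 + ‖z‖ + H) + 1) * Λ * L) * (1 + |yy z u|) +
        ((‖rh‖ * (1 + ‖z‖) + 2 * (‖rh‖ ^ 2 * ‖sE z‖ * (1 + ‖z‖ ^ 2))) * L) * E := by
    rw [hρ]
    have e1 := mul_le_mul_of_nonneg_right hqq hE0
    have e2 : (‖rh‖ * (1 + ‖z‖)) * E ≤ (‖rh‖ * (1 + ‖z‖)) * L * E :=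
      mul_le_mul_of_nonneg_right (le_mul_of_one_le_right (by positivity) hLr) hE0
    have e3 : ((‖rh‖ * (1 + ‖z‖) + 2 * (‖rh‖ ^ 2 * ‖sE z‖ * (1 + ‖z‖ ^ 2))) * L) * E =
      (‖rh‖ * (1 + ‖z‖)) * L * E + 2 * (‖rh‖ ^ 2 * ‖sE z‖ * (1 + ‖z‖ ^ 2)) * L * E := by ring
    rw [e3]
    linarith
  have hb0 : 1 ≤ ρ + ‖((2 * L : ℕ) : ℂ) * D.qq‖ * E := by
    have : 0 ≤ ‖((2 * L : ℕ) : ℂ) * D.qq‖ * E := mul_nonneg (norm_nonneg _) hE0
    linarith
  refine (pow_le_pow_left₀ (by linarith) hbase _).trans ?_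
  exact pow_le_pow_right₀ (hb0.trans hbase) hν2

/-- B10b. PROOF. Compare `NnR_bound` in R/B10_NnBound. `GA D (Pi.single ν 1) u = Gn D ν (om (u_1 - h_1)) (u - h)`, `h + (u - h) = u`. By `Nn_shift` and `reduce` we may assume that `a_0, b_0, b_1 ∈ [0, 1]` (`ca`, `cb`), `yy` unchanged; so `|Im u_l| ≤ Im z` and `‖u‖ ≤ (1 + ‖z‖)(2 + r)`, `r = |yy u|` (`u_1 = (yy + b_0) + b_1 z`).
`n = E`, `M = 2L`. `TF_bound` with `A = exp (C M (1 + (Im z + 1)²))` (`fa_bound`; `fa_diff`), `deg_aeval1`, `Bp_monic`, `nm_aeval1` with `ρ = n`, `ρ' = M ‖W - lam‖ + C n`, (`lin_nm`), `nm1_Bp` (`ρ' ≥ 1`, enlarge), `‖M qq‖ ≤ M ‖qq‖`, `qq = rh² (sE z/π) (1 + z²)`: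
`‖GA‖ ≤ A² (M ‖W - lam‖ + C n + M ‖qq‖ n + 1)^n`, `‖W - lam‖ ≤ √π ((1 + ‖z‖)(2 + r) + H) + Λ`, so it is `≤ A² (C L Λ (1 + r) + C L n)^n`. `Qf ≥ π yy²`. `b10_num` with `M = 2L`. -/
theorem Nn_bound (z : ℂ) (hz : 0 < z.im) (H : ℝ) : ∃ C : ℝ, 1 ≤ C ∧ ∀ D : Dw, D.z = z → (∀ l, ‖D.h l‖ ≤ H) → ∀ Λ : ℝ, 1 ≤ Λ → ‖D.lam‖ ≤ Λ →
    ∀ (L E : ℕ), 1 ≤ L → 1 ≤ E → ∀ (ν : Iw L E) (u : Fin 2 → ℂ),
      Nn z (2 * L) (GA D (Pi.single ν 1)) u ≤ (C * Λ * L * E) ^ E * C ^ L * Real.exp (-((2 * L : ℕ) * yy z u ^ 2)) := by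
  obtain ⟨G, hG, hgr⟩ := fa_bound z hz
  set C1 : ℝ := 2 * (2 * (1 + ‖z‖ + |H|) + 1) with hC1
  set C2 : ℝ := ‖rh‖ * (1 + ‖z‖) + 2 * (‖rh‖ ^ 2 * ‖sE z‖ * (1 + ‖z‖ ^ 2)) with hC2
  have hC10 : 1 ≤ C1 := by
    rw [hC1]
    have := norm_nonneg z
    have := abs_nonneg H
    linarith
  have hC20 : 0 ≤ C2 := by positivity
  set B : ℝ := Real.exp (4 * (G * (1 + (z.im + 1) ^ 2)) + 2) with hB
  have hB0 : 0 < B := Real.exp_pos _
  refine ⟨C1 + C2 + B, by linarith, ?_⟩
  intro D hDz hH Λ hΛ hlam L E hL hE ν u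
  have hLr : (1 : ℝ) ≤ L := by exact_mod_cast hL
  have hL0 : (0 : ℝ) ≤ L := by linarith
  have hE0 : (0 : ℝ) ≤ E := Nat.cast_nonneg _
  have hH' : H = |H| := (abs_of_nonneg ((norm_nonneg _).trans (hH 0))).symm
  obtain ⟨n, v, huv, h1, h2, h3, h4⟩ := reduce z hz u
  have hsh : Nn z (2 * L) (GA D (Pi.single ν 1)) u = Nn z (2 * L) (GA D (Pi.single ν 1)) v := by
    have := Nn_shift D (Pi.single ν 1) n v
    rw [hDz] at this
    rw [huv]
    exact this
  rw [hsh, ← h4]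
  set r : ℝ := |yy z v| with hr
  have hr0 : 0 ≤ r := abs_nonneg _
  have hr2 : yy z v ^ 2 = r ^ 2 := (sq_abs _).symm
  have hg := b10_red z hz H D hDz hH Λ hΛ hlam G hG hgr L E hL hE ν v h1 h2 h3
  rw [hH', ← hC1, ← hC2, ← hr] at hg
  have hQ : Real.pi * r ^ 2 ≤ Qf z v := by
    unfold Qf
    rw [hr2]
    have e1 : 0 ≤ ∑ l, (v l).im ^ 2 / z.im := Finset.sum_nonneg fun l _ => by positivity
    exact mul_le_mul_of_nonneg_left (by linarith) Real.pi_pos.le
  have hnum := b10_num (C1 * Λ * L) (C2 * L) r (by positivity) (by positivity) hr0 E (2 * L) hE (by omega)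
  set A : ℝ := Real.exp (G * (2 * L : ℕ) * (1 + (z.im + 1) ^ 2)) with hA
  have hAB : A ^ 2 * Real.exp 2 ≤ B ^ L := by
    rw [hA, hB, ← Real.exp_nat_mul, ← Real.exp_nat_mul, ← Real.exp_add]
    apply Real.exp_le_exp.2
    push_cast
    have e1 : (L : ℝ) * (4 * (G * (1 + (z.im + 1) ^ 2)) + 2) =
      2 * (G * (2 * L) * (1 + (z.im + 1) ^ 2)) + 2 * L := by ring
    rw [e1]
    linarith
  have hAB2 : A ^ 2 * Real.exp 2 ≤ (C1 + C2 + B) ^ L :=
    hAB.trans (pow_le_pow_left₀ hB0.le (by linarith) L)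
  have hbase : (C1 * Λ * L + C2 * L) * E ≤ (C1 + C2 + B) * Λ * L * E := by
    refine mul_le_mul_of_nonneg_right ?_ hE0
    have e1 : C2 * L ≤ C2 * Λ * L :=
      mul_le_mul_of_nonneg_right (le_mul_of_one_le_right hC20 hΛ) hL0
    have e2 : 0 ≤ B * Λ * L := by positivity
    have e3 : (C1 + C2 + B) * Λ * L = C1 * Λ * L + C2 * Λ * L + B * Λ * L := by ring
    rw [e3]
    linarith
  have hb0 : 0 ≤ (C1 * Λ * L + C2 * L) * E := by positivity
  have hexp : Real.exp (-((2 * L : ℕ) * Qf z v)) ≤ Real.exp (-(Real.pi * (2 * L : ℕ) * r ^ 2)) := by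
    apply Real.exp_le_exp.2
    have e1 := mul_le_mul_of_nonneg_left hQ (Nat.cast_nonneg (α := ℝ) (2 * L))
    have e2 : Real.pi * (2 * L : ℕ) * r ^ 2 = ((2 * L : ℕ) : ℝ) * (Real.pi * r ^ 2) := by ring
    rw [e2]
    exact neg_le_neg e1
  unfold Nn
  calc ‖GA D (Pi.single ν 1) v‖ * Real.exp (-((2 * L : ℕ) * Qf z v))
      ≤ (A ^ 2 * (C1 * Λ * L * (1 + r) + C2 * L * E) ^ E) * Real.exp (-(Real.pi * (2 * L : ℕ) * r ^ 2)) :=
        mul_le_mul hg hexp (Real.exp_pos _).le ((norm_nonneg _).trans hg)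
    _ = A ^ 2 * ((C1 * Λ * L * (1 + r) + C2 * L * E) ^ E * Real.exp (-(Real.pi * (2 * L : ℕ) * r ^ 2))) := by ring
    _ ≤ A ^ 2 * (((C1 * Λ * L + C2 * L) * E) ^ E * Real.exp 2 * Real.exp (-((2 * L : ℕ) * r ^ 2))) :=
        mul_le_mul_of_nonneg_left hnum (by positivity)
    _ = ((C1 * Λ * L + C2 * L) * E) ^ E * (A ^ 2 * Real.exp 2) * Real.exp (-((2 * L : ℕ) * r ^ 2)) := by ring
    _ ≤ ((C1 + C2 + B) * Λ * L * E) ^ E * (C1 + C2 + B) ^ L * Real.exp (-((2 * L : ℕ) * r ^ 2)) := by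
        refine mul_le_mul_of_nonneg_right ?_ (Real.exp_pos _).le
        exact mul_le_mul (pow_le_pow_left₀ hb0 hbase E) hAB2 (by positivity) (by positivity)
    _ = _ := by rw [hr2]

end Pool.Agent.MSW

end
end

end

section

/-! # MP_f58a57_nt, all nonspecial points: D2_Base -/

/-! ### base points with given values of the Weierstrass function -/

section

open Complex

noncomputable section

namespace Pool.Agent.MSW

open MSD MSP MSK

/-- F1a. PROOF. Suppose `wp - X` has no zero off the lattice. `wp = N2/N0²` (definition), so `f = N0²/(N2 - X N0²)` is entire: if `N0 t ≠ 0` then `N2 - X N0² = N0² (wp - X) ≠ 0`; if `N0 t = 0` then `N2 t ≠ 0` (`N2 = N1² - N0 N0'' - s N0²`, `N1 = (th)' ≠ 0` at the zeros of `th`: `deriv_th_zero_ne` and the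
functional equation; alternatively: `wp → ∞` at lattice points). `f = 1/(wp - X)` off the lattice is periodic (`t7_wp_add`), so bounded (fundamental parallelogram compact; continuity), so constant (Liouville, `Differentiable.apply_eq_apply_of_bounded`), `= f 0 = 0`. Contradiction.
Alternatively use Mathlib's results on `PeriodPair.weierstrassP` with `wp_eq`. -/
theorem wp_surj (τ : ℂ) (hτ : 0 < τ.im) (X : ℂ) : ∃ h : ℂ, th τ h ≠ 0 ∧ wp τ (sE τ) h = X := by
  by_contra hcon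
  push Not at hcon
  set s := sE τ with hs
  have hth : Differentiable ℂ (th τ) := th_differentiable τ hτ
  have han : ∀ t, AnalyticAt ℂ (th τ) t := fun t => hth.analyticAt t
  have h0 : Differentiable ℂ (N0 τ) := hth
  have h2 : Differentiable ℂ (N2 τ s) := by
    intro t
    have a1 : AnalyticAt ℂ (deriv (th τ)) t := (han t).deriv
    have a2 : AnalyticAt ℂ (deriv (deriv (th τ))) t := a1.deriv
    exact (((a1.pow 2).sub ((han t).mul a2)).sub (analyticAt_const.mul ((han t).pow 2))).differentiableAt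
  let D : ℂ → ℂ := fun t => N2 τ s t - X * N0 τ t ^ 2
  have hD : Differentiable ℂ D := h2.sub ((differentiable_const X).mul (h0.pow 2))
  have hDne : ∀ t, D t ≠ 0 := by
    intro t
    by_cases ht : th τ t = 0
    · obtain ⟨m, n, rfl⟩ := (th_eq_zero_iff τ hτ t).1 ht
      have e1 : N2 τ s (m + n * τ) = au τ m n 0 ^ 2 * N2 τ s 0 := by
        have := N2_shift τ s hτ m n 0
        rwa [zero_add] at this
      have e2 : N2 τ s 0 = deriv (th τ) 0 ^ 2 := by
        unfold N2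
        rw [t8c_zero τ hτ]
        ring
      have e3 : D (m + n * τ) = au τ m n 0 ^ 2 * deriv (th τ) 0 ^ 2 := by
        show N2 τ s (m + n * τ) - X * N0 τ (m + n * τ) ^ 2 = _
        have : N0 τ (m + n * τ) = 0 := ht
        rw [this, e1, e2]
        ring
      rw [e3]
      exact mul_ne_zero (pow_ne_zero 2 (au_ne τ m n 0)) (pow_ne_zero 2 (deriv_th_zero_ne τ hτ))
    · intro h
      apply hcon t ht
      have h3 : N2 τ s t = X * N0 τ t ^ 2 := sub_eq_zero.1 h
      have h4 : N0 τ t ≠ 0 := ht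
      unfold wp
      rw [h3]
      field_simp
  let f : ℂ → ℂ := fun t => N0 τ t ^ 2 / D t
  have hf : Differentiable ℂ f := (h0.pow 2).div hD hDne
  have hper : ∀ z w : ℂ, w ∈ (pp τ hτ).lattice → f (z + w) = f z := by
    intro z w hw
    obtain ⟨m, n, h⟩ := PeriodPair.mem_lattice.1 hw
    have hw' : z + w = z + m + n * τ := by
      rw [← h]
      simp only [MSP.pp]
      ring
    rw [hw']
    show N0 τ (z + m + n * τ) ^ 2 / (N2 τ s (z + m + n * τ) - X * N0 τ (z + m + n * τ) ^ 2) =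
      N0 τ z ^ 2 / (N2 τ s z - X * N0 τ z ^ 2)
    rw [N0_shift τ hτ, N2_shift τ s hτ]
    have hau := au_ne τ m n z
    have e : au τ m n z ^ 2 * N2 τ s z - X * (au τ m n z * N0 τ z) ^ 2 =
        au τ m n z ^ 2 * (N2 τ s z - X * N0 τ z ^ 2) := by ring
    rw [e, mul_pow]
    exact mul_div_mul_left _ _ (pow_ne_zero 2 hau)
  have hconst : ∀ t, f t = f 0 := fun t =>
    hf.apply_eq_apply_of_bounded (IsZLattice.isCompact_range_of_periodic (pp τ hτ).lattice _
      hf.continuous fun z w hw => hper z w hw).isBounded t 0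
  have hf0 : f 0 = 0 := by
    show N0 τ 0 ^ 2 / D 0 = 0
    have : N0 τ 0 = 0 := t8c_zero τ hτ
    rw [this]
    simp
  have h5 : th τ (1 / 2) ≠ 0 := by
    have := t3b_ne τ hτ 1 0 (Or.inl (by decide))
    simpa using this
  have h6 : f (1 / 2) = 0 := (hconst _).trans hf0
  have h7 : N0 τ (1 / 2) ^ 2 / D (1 / 2) = 0 := h6
  rcases div_eq_zero_iff.1 h7 with h8 | h8
  · exact h5 (pow_eq_zero_iff (two_ne_zero) |>.1 h8)
  · exact hDne _ h8

/-- F1b. PROOF. `h` from `wp_surj` for `X om²`; subtract a lattice vector `m + nτ` such that `h = a + bτ` with `0 ≤ a, b < 1` (`t7_wp_add`, `th_eq_zero_iff`), so `‖h‖ ≤ 1 + ‖τ‖`. By `wp_ode` divided by `om⁶` `(wp' h/om³)² = 4X³ - 2gX - g₃ = Y²`, so `wp' h/om³ = ± Y`; in the second case replace `h` by `-h`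
(`t3b_wp_neg`, so `deriv wp (-h) = -deriv wp h`; `th τ (-h) = -th τ h`). -/
theorem base_pt (τ om : ℂ) (hτ : 0 < τ.im) (hom : om ≠ 0) (X Y : ℂ)
    (h : Y ^ 2 = 4 * X ^ 3 - 2 * (2 / 3 * Real.pi ^ 4 * e4 τ / om ^ 4) * X - 8 / 27 * Real.pi ^ 6 * e6 τ / om ^ 6) :
    ∃ t : ℂ, ‖t‖ ≤ 1 + ‖τ‖ ∧ th τ t ≠ 0 ∧ wp τ (sE τ) t / om ^ 2 = X ∧ deriv (wp τ (sE τ)) t / om ^ 3 = Y := by
  obtain ⟨h₀, hh₀, hX₀⟩ := wp_surj τ hτ (X * om ^ 2)
  -- reduce to the fundamental parallelogram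
  obtain ⟨t, hle, ht0, htX⟩ : ∃ t : ℂ, ‖t‖ ≤ 1 + ‖τ‖ ∧ th τ t ≠ 0 ∧ wp τ (sE τ) t = X * om ^ 2 := by
    let b : ℝ := h₀.im / τ.im
    let a : ℝ := h₀.re - b * τ.re
    have hab : h₀ = (a : ℂ) + (b : ℂ) * τ := by
      apply Complex.ext
      · simp [a]
      · simp [b]
        field_simp
    refine ⟨((Int.fract a : ℝ) : ℂ) + ((Int.fract b : ℝ) : ℂ) * τ, ?_, ?_, ?_⟩
    · refine (norm_add_le _ _).trans ?_
      rw [norm_mul, Complex.norm_real, Complex.norm_real, Real.norm_eq_abs, Real.norm_eq_abs,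
        abs_of_nonneg (Int.fract_nonneg a), abs_of_nonneg (Int.fract_nonneg b)]
      have h1 := (Int.fract_lt_one a).le
      have h2 := (Int.fract_lt_one b).le
      have h3 := norm_nonneg τ
      nlinarith
    · have e : h₀ = (((Int.fract a : ℝ) : ℂ) + ((Int.fract b : ℝ) : ℂ) * τ) + (⌊a⌋ : ℤ) + (⌊b⌋ : ℤ) * τ := by
        rw [hab]
        have ha : (a : ℂ) = ((⌊a⌋ : ℤ) : ℂ) + ((Int.fract a : ℝ) : ℂ) := by
          exact_mod_cast congrArg (fun x : ℝ => (x : ℂ)) (Int.floor_add_fract a).symm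
        have hb : (b : ℂ) = ((⌊b⌋ : ℤ) : ℂ) + ((Int.fract b : ℝ) : ℂ) := by
          exact_mod_cast congrArg (fun x : ℝ => (x : ℂ)) (Int.floor_add_fract b).symm
        rw [ha, hb]
        ring
      intro h
      apply hh₀
      rw [e]
      have := N0_shift τ hτ ⌊a⌋ ⌊b⌋ (((Int.fract a : ℝ) : ℂ) + ((Int.fract b : ℝ) : ℂ) * τ)
      unfold N0 at this
      rw [this, h, mul_zero]
    · have e : h₀ = (((Int.fract a : ℝ) : ℂ) + ((Int.fract b : ℝ) : ℂ) * τ) + (⌊a⌋ : ℤ) + (⌊b⌋ : ℤ) * τ := by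
        rw [hab]
        have ha : (a : ℂ) = ((⌊a⌋ : ℤ) : ℂ) + ((Int.fract a : ℝ) : ℂ) := by
          exact_mod_cast congrArg (fun x : ℝ => (x : ℂ)) (Int.floor_add_fract a).symm
        have hb : (b : ℂ) = ((⌊b⌋ : ℤ) : ℂ) + ((Int.fract b : ℝ) : ℂ) := by
          exact_mod_cast congrArg (fun x : ℝ => (x : ℂ)) (Int.floor_add_fract b).symm
        rw [ha, hb]
        ring
      rw [← hX₀]
      conv_rhs => rw [e]
      exact (t7_wp_add τ hτ (sE τ) ⌊a⌋ ⌊b⌋ _).symm
  have hode := wp_ode τ hτ t ht0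
  have hsq : (deriv (wp τ (sE τ)) t / om ^ 3) ^ 2 = Y ^ 2 := by
    rw [h, div_pow, hode, htX]
    field_simp
    ring
  rcases sq_eq_sq_iff_eq_or_eq_neg.1 hsq with h1 | h1
  · exact ⟨t, hle, ht0, by rw [htX]; field_simp, h1⟩
  · refine ⟨-t, by rwa [norm_neg], ?_, ?_, ?_⟩
    · rw [th_neg]
      exact neg_ne_zero.2 ht0
    · rw [t3b_wp_neg, htX]
      field_simp
    · have e1 : deriv (wp τ (sE τ)) (-t) = -deriv (wp τ (sE τ)) t := by
        have e2 : (fun x => wp τ (sE τ) (-x)) = wp τ (sE τ) := funext fun x => t3b_wp_neg τ (sE τ) x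
        have e3 := deriv_comp_neg (wp τ (sE τ)) t
        rw [e2] at e3
        rw [e3, neg_neg]
      rw [e1, neg_div, h1, neg_neg]

/-- F1c. base points with integral values. -/
theorem exists_Dw (z om : ℂ) (hz : 0 < z.im) (hom : om ^ 2 = Real.pi) (x : Fin 2 → ℕ) :
    ∃ D : Dw, D.z = z ∧ D.om = om ∧ (∀ l, ‖D.h l‖ ≤ 1 + ‖z‖) ∧ ∀ l, D.X l 0 = x l := by
  have hne : om ≠ 0 := by
    intro h
    rw [h] at hom
    have hp : (Real.pi : ℂ) ≠ 0 := by exact_mod_cast Real.pi_ne_zero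
    apply hp
    rw [← hom]
    norm_num
  have key : ∀ l, ∃ t : ℂ, ‖t‖ ≤ 1 + ‖z‖ ∧ th z t ≠ 0 ∧ wp z (sE z) t / om ^ 2 = x l := by
    intro l
    obtain ⟨y, hy⟩ := IsAlgClosed.exists_pow_nat_eq
      (4 * (x l : ℂ) ^ 3 - 2 * (2 / 3 * Real.pi ^ 4 * e4 z / om ^ 4) * x l - 8 / 27 * Real.pi ^ 6 * e6 z / om ^ 6) (n := 2) (by norm_num)
    obtain ⟨t, h1, h2, h3, _⟩ := base_pt z om hz hne (x l) y hy
    exact ⟨t, h1, h2, h3⟩
  choose t h1 h2 h3 using key
  refine ⟨⟨z, hz, om, hom, t, h2⟩, rfl, rfl, h1, fun l => ?_⟩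
  show wp z (sE z) (t l + 0) / om ^ 2 = x l
  rw [add_zero]
  exact h3 l

end Pool.Agent.MSW

end
end

/-! ### degree and length of the functions and their derivatives -/

section

open Complex

noncomputable section

namespace Pool.Agent.MSW

open MSD MSP

open MSK (a2_B a2_mono a2_C a2_var a2_add a2_mul a2_neg' a2_sub a2_pow a2_sum a2_prod)

theorem a1w_cp (l : Fin 2) : a2_B 1 1 (cp l) := by
  unfold cp
  by_cases h : l = 0
  · rw [if_pos h, ← MvPolynomial.C_1]
    exact a2_mono (a2_C 1) (by omega) (by simp)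
  · rw [if_neg h]
    exact a2_var _

theorem a1w_dlv (v : Vw) : a2_B 5 7 (dlv v) := by
  have h0 : a2_B 5 7 (0 : MvPolynomial Vw ℤ) := by
    rw [← MvPolynomial.C_0]
    exact a2_mono (a2_C 0) (by omega) (by simp)
  cases v with
  | X l =>
    change a2_B _ _ (MvPolynomial.X Vw.r * cp l * MvPolynomial.X (Vw.Y l))
    exact a2_mono (a2_mul (a2_mul (a2_var _) (a1w_cp l)) (a2_var _)) (by omega) (by norm_num)
  | Y l =>
    change a2_B _ _ (MvPolynomial.X Vw.r * cp l * (6 * MvPolynomial.X (Vw.X l) ^ 2 - MvPolynomial.X Vw.g))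
    have h1 : a2_B 2 6 (6 * (MvPolynomial.X (Vw.X l) : MvPolynomial Vw ℤ) ^ 2) := by
      have h2 := a2_mul (a2_C (σ := Vw) 6) (a2_pow (a2_var (Vw.X l)) 2)
      rw [show (MvPolynomial.C (6 : ℤ) : MvPolynomial Vw ℤ) = 6 from map_ofNat _ 6] at h2
      exact a2_mono h2 (by omega) (by norm_num)
    exact a2_mono (a2_mul (a2_mul (a2_var _) (a1w_cp l)) (a2_sub h1 (a2_var Vw.g))) (by omega) (by norm_num)
  | Q =>
    change a2_B _ _ (-(MvPolynomial.X Vw.r ^ 2 * ∑ l, cp l ^ 2 * MvPolynomial.X (Vw.X l)))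
    have h1 : a2_B 3 (∑ _l : Fin 2, (1 : ℝ)) (∑ l, cp l ^ 2 * MvPolynomial.X (Vw.X l)) :=
      a2_sum _ _ _ _ fun l _ => a2_mono (a2_mul (a2_pow (a1w_cp l) 2) (a2_var _)) (by omega) (by norm_num)
    refine a2_mono (a2_neg' (a2_mul (a2_pow (a2_var Vw.r) 2) h1)) (by omega) ?_
    rw [Finset.sum_const, Finset.card_univ, Fintype.card_fin, nsmul_eq_mul]
    norm_num
  | g => exact h0
  | k => exact h0
  | z => exact h0
  | r => exact h0

theorem a1w_dlt (n : ℕ) (H : ℝ) (p : MvPolynomial Vw ℤ)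
    (h1 : p.totalDegree ≤ n) (h2 : mlen p ≤ H) : a2_B (n + 4) (7 * n * H) (dlt p) := by
  classical
  have key : ∀ m ∈ p.support, a2_B (n + 4) (|((p.coeff m : ℤ) : ℝ)| * (7 * n))
      (dlt (MvPolynomial.monomial m (p.coeff m))) := by
    intro m hm
    unfold dlt
    rw [MvPolynomial.mkDerivation_monomial, ← MvPolynomial.C_mul', Finsupp.sum]
    have hdeg : ∑ v ∈ m.support, m v ≤ n := (MvPolynomial.le_totalDegree hm).trans h1
    have hs : a2_B (n + 4) (∑ v ∈ m.support, (m v : ℝ) * 7)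
        (∑ v ∈ m.support, (MvPolynomial.monomial (m - Finsupp.single v 1) ((m v : ℕ) : ℤ)) • dlv v) := by
      refine a2_sum _ _ _ _ fun v hv => ?_
      rw [smul_eq_mul]
      have hv1 : 1 ≤ m v := Nat.one_le_iff_ne_zero.mpr (Finsupp.mem_support_iff.mp hv)
      have h3 : a2_B (n - 1) (m v : ℝ)
          (MvPolynomial.monomial (m - Finsupp.single v 1) ((m v : ℕ) : ℤ) : MvPolynomial Vw ℤ) := by
        refine ⟨(MvPolynomial.totalDegree_monomial_le _ _).trans ?_, ?_⟩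
        · have e1 : (m - Finsupp.single v 1).sum (fun _ => id) = ∑ w, (m - Finsupp.single v 1 : Vw →₀ ℕ) w :=
            Finsupp.sum_fintype _ _ (fun _ => rfl)
          have e2 : ∑ w ∈ m.support, m w = ∑ w, m w := Finsupp.sum_fintype m (fun _ e => e) (fun _ => rfl)
          rw [e2] at hdeg
          rw [e1]
          have e3 : ∑ w, (m - Finsupp.single v 1 : Vw →₀ ℕ) w + 1 ≤ ∑ w, m w := by
            rw [← Finset.add_sum_erase _ _ (Finset.mem_univ v), ← Finset.add_sum_erase _ (fun w => m w) (Finset.mem_univ v),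
              Finsupp.coe_tsub, Pi.sub_apply, Finsupp.single_eq_same]
            have e4 : ∑ w ∈ Finset.univ.erase v, (m - Finsupp.single v 1 : Vw →₀ ℕ) w ≤ ∑ w ∈ Finset.univ.erase v, m w := by
              refine Finset.sum_le_sum fun w _ => ?_
              rw [Finsupp.coe_tsub, Pi.sub_apply]
              exact Nat.sub_le _ _
            rw [Finsupp.coe_tsub] at e4
            omega
          omega
        · rw [mlen_monomial]
          push_cast
          rw [abs_of_nonneg (Nat.cast_nonneg _)]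
      have hn : 1 ≤ n := by
        refine hv1.trans (le_trans ?_ hdeg)
        exact Finset.single_le_sum (f := fun v => m v) (fun _ _ => Nat.zero_le _) hv
      exact a2_mono (a2_mul h3 (a1w_dlv v)) (by omega) le_rfl
    have h4 := a2_mul (a2_C (σ := Vw) (p.coeff m)) hs
    refine a2_mono h4 (by omega) ?_
    refine mul_le_mul_of_nonneg_left ?_ (abs_nonneg _)
    rw [← Finset.sum_mul, mul_comm]
    refine mul_le_mul_of_nonneg_left ?_ (by norm_num)
    exact_mod_cast hdeg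
  have hsum := a2_sum p.support _ _ _ key
  rw [← map_sum, ← p.as_sum] at hsum
  refine ⟨hsum.1, hsum.2.trans ?_⟩
  rw [← Finset.sum_mul]
  have h7 : ∑ m ∈ p.support, |((p.coeff m : ℤ) : ℝ)| ≤ H := h2
  have h8 : (0 : ℝ) ≤ 7 * n := mul_nonneg (by norm_num) (Nat.cast_nonneg _)
  calc _ ≤ H * (7 * n) := mul_le_mul_of_nonneg_right h7 h8
    _ = _ := by ring

/-- A1a. PROOF. Compare `nab_bd` in R/A1_NabBd and `der_bd` in K/A2_Bd (lemmas `a2_..` there). `dlv v` has degree `≤ 3, 4, 5` and length `≤ 1, 7, 2` for `v = X l, Y l, Q`, and is `0` for the other variables. `dlt R = ∑_m ∑_v c_m m_v X^(m - e_v) dlv v` over the monomials `m` of `R` and the variables `v`,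
`∑_v m_v ≤ n`: degree `≤ n + 4`, length `≤ 7 n H`. `M X_Q R` has degree `≤ n + 1`, length `≤ M H`. -/
theorem nab_bd (M n : ℕ) (H : ℝ) (R : MvPolynomial Vw ℤ) (h1 : R.totalDegree ≤ n) (h2 : mlen R ≤ H) :
    (nab M R).totalDegree ≤ n + 4 ∧ mlen (nab M R) ≤ (7 * n + M) * H := by
  have h3 : a2_B 0 (M : ℝ) ((M : ℕ) : MvPolynomial Vw ℤ) := by
    have h := a2_C (σ := Vw) ((M : ℕ) : ℤ)
    rw [map_natCast] at h
    exact a2_mono h le_rfl (by simp)
  have h4 := a2_add (a1w_dlt n H R h1 h2)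
    (a2_mul h3 (a2_mul (a2_var (Vw.Q)) (⟨h1, h2⟩ : a2_B n H R)))
  have h5 : a2_B (n + 4) ((7 * n + M) * H) (nab M R) :=
    a2_mono h4 (by omega) (le_of_eq (by ring))
  exact h5

/-- A1b. PROOF. Induction on `ν.2 < E`: start: `∏ X_l^(a_l)`: degree `≤ 2L`, length `1`; `nab_bd` with `M = 2L`, `n = 2L + 4i`: factor `7(2L + 4i) + 2L ≤ 16 L + 28 E`, and `16 L + 28 E ≥ 1` (`E ≥ 1`). -/
theorem Rp_bd {L E : ℕ} (ν : Iw L E) : (Rp ν).totalDegree ≤ 2 * L + 4 * E ∧ mlen (Rp ν) ≤ (16 * L + 28 * E : ℝ) ^ E := by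
  have hE : ν.2.val < E := ν.2.isLt
  have hE1 : (1 : ℝ) ≤ E := by exact_mod_cast (by omega : 1 ≤ E)
  have hL : (0 : ℝ) ≤ L := Nat.cast_nonneg _
  have hB1 : (1 : ℝ) ≤ 16 * L + 28 * E := by linarith
  have hB0 : (0 : ℝ) ≤ 16 * L + 28 * E := zero_le_one.trans hB1
  have hst : a2_B (2 * L) 1 (∏ l, (MvPolynomial.X (Vw.X l) : MvPolynomial Vw ℤ) ^ (ν.1 l).val) := by
    have h1 := a2_prod (Finset.univ : Finset (Fin 2))
      (fun l => (MvPolynomial.X (Vw.X l) : MvPolynomial Vw ℤ) ^ (ν.1 l).val) (fun _ => L) (fun l _ => by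
        refine a2_mono (a2_pow (a2_var (Vw.X l)) (ν.1 l).val) ?_ le_rfl
        have := (ν.1 l).isLt
        omega)
    refine a2_mono h1 ?_ le_rfl
    rw [Finset.sum_const, Finset.card_univ, Fintype.card_fin, smul_eq_mul]
  have main : ∀ k, k ≤ E → ((nab (2 * L))^[k] (∏ l, (MvPolynomial.X (Vw.X l) : MvPolynomial Vw ℤ) ^ (ν.1 l).val)).totalDegree ≤
        2 * L + 4 * k ∧
      mlen ((nab (2 * L))^[k] (∏ l, (MvPolynomial.X (Vw.X l) : MvPolynomial Vw ℤ) ^ (ν.1 l).val)) ≤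
        (16 * L + 28 * E : ℝ) ^ k := by
    intro k
    induction k with
    | zero =>
      intro _
      rw [Function.iterate_zero, id_eq, pow_zero]
      exact ⟨hst.1.trans (by omega), hst.2⟩
    | succ k ih =>
      intro hk'
      obtain ⟨h1, h2⟩ := ih (by omega)
      rw [Function.iterate_succ_apply']
      obtain ⟨h3, h4⟩ := nab_bd (2 * L) _ _ _ h1 h2
      refine ⟨h3.trans (by omega), h4.trans ?_⟩
      rw [pow_succ, mul_comm (_ ^ k)]
      refine mul_le_mul_of_nonneg_right ?_ (pow_nonneg hB0 _)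
      push_cast
      have h6 : (k : ℝ) ≤ E := by exact_mod_cast (by omega : k ≤ E)
      linarith
  obtain ⟨h1, h2⟩ := main ν.2.val hE.le
  refine ⟨?_, ?_⟩
  · unfold Rp
    exact h1.trans (by omega)
  · unfold Rp
    exact h2.trans (pow_le_pow_right₀ hB1 hE.le)

end Pool.Agent.MSW

end
end

/-! ### degree and length of the derivatives -/

section

open Complex

noncomputable section

namespace Pool.Agent.MSW

open MSD MSP MSK

theorem a1bw_cp (l : Fin 2) : a2_B 1 1 (cp l) := by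
  unfold cp
  by_cases h : l = 0
  · rw [if_pos h, ← MvPolynomial.C_1]
    exact a2_mono (a2_C 1) (by omega) (by simp)
  · rw [if_neg h]
    exact a2_var _

theorem a1bw_dv (a : Fin 2 → ℤ) (A : ℝ) (hA : 1 ≤ A) (ha : ∀ j, |(a j : ℝ)| ≤ A) (v : Vw) :
    a2_B 3 (7 * A) (dv a v) := by
  have hA0 : 0 ≤ A := zero_le_one.trans hA
  have h0 : a2_B 3 (7 * A) (0 : MvPolynomial Vw ℤ) := by
    rw [← MvPolynomial.C_0]
    refine a2_mono (a2_C 0) (by omega) ?_
    rw [Int.cast_zero, abs_zero]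
    exact mul_nonneg (by norm_num) hA0
  have hC : ∀ l, a2_B 0 A (MvPolynomial.C (a l) : MvPolynomial Vw ℤ) := fun l => a2_mono (a2_C (a l)) le_rfl (ha l)
  cases v with
  | X l =>
    change a2_B _ _ (MvPolynomial.C (a l) * MvPolynomial.X (Vw.Y l))
    exact a2_mono (a2_mul (hC l) (a2_var _)) (by omega) (by linarith only [hA0])
  | Y l =>
    change a2_B _ _ (MvPolynomial.C (a l) * (6 * MvPolynomial.X (Vw.X l) ^ 2 - MvPolynomial.X Vw.g))
    have h1 : a2_B 2 6 (6 * (MvPolynomial.X (Vw.X l) : MvPolynomial Vw ℤ) ^ 2) := by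
      have h2 := a2_mul (a2_C (σ := Vw) 6) (a2_pow (a2_var (Vw.X l)) 2)
      rw [show (MvPolynomial.C (6 : ℤ) : MvPolynomial Vw ℤ) = 6 from map_ofNat _ 6] at h2
      exact a2_mono h2 (by omega) (by norm_num)
    exact a2_mono (a2_mul (hC l) (a2_sub h1 (a2_var Vw.g))) (by omega) (by linarith only [hA0])
  | Q =>
    change a2_B _ _ (MvPolynomial.C (a 1) - MvPolynomial.X Vw.r *
      ∑ l, cp l * (MvPolynomial.C (a l) * (MvPolynomial.X (Vw.X l) + MvPolynomial.X Vw.k)))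
    have h1 : a2_B 2 (∑ _l : Fin 2, (2 * A))
        (∑ l, cp l * (MvPolynomial.C (a l) * (MvPolynomial.X (Vw.X l) + MvPolynomial.X Vw.k))) :=
      a2_sum _ _ _ _ fun l _ => a2_mono (a2_mul (a1bw_cp l) (a2_mul (hC l) (a2_add (a2_var _) (a2_var _))))
        (by omega) (by linarith only [hA0])
    refine a2_mono (a2_sub (hC 1) (a2_mul (a2_var Vw.r) h1)) (by omega) ?_
    rw [Finset.sum_const, Finset.card_univ, Fintype.card_fin, nsmul_eq_mul]
    push_cast
    linarith only [hA0]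
  | g => exact h0
  | k => exact h0
  | z => exact h0
  | r => exact h0

/-- degree and length of a derivation of a polynomial ring -/
theorem a1bw_gen {σ : Type} [Fintype σ] [DecidableEq σ] (f : σ → MvPolynomial σ ℤ) (e : ℕ) (c : ℝ) (hc : 0 ≤ c)
    (hf : ∀ v, a2_B (e + 1) c (f v)) (n : ℕ) (H : ℝ) (p : MvPolynomial σ ℤ)
    (h1 : p.totalDegree ≤ n) (h2 : mlen p ≤ H) : a2_B (n + e) (c * n * H) (MvPolynomial.mkDerivation ℤ f p) := by
  classical
  have key : ∀ m ∈ p.support, a2_B (n + e) (|((p.coeff m : ℤ) : ℝ)| * (c * n))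
      (MvPolynomial.mkDerivation ℤ f (MvPolynomial.monomial m (p.coeff m))) := by
    intro m hm
    rw [MvPolynomial.mkDerivation_monomial, ← MvPolynomial.C_mul', Finsupp.sum]
    have hdeg : ∑ v ∈ m.support, m v ≤ n := (MvPolynomial.le_totalDegree hm).trans h1
    have hs : a2_B (n + e) (∑ v ∈ m.support, (m v : ℝ) * c)
        (∑ v ∈ m.support, (MvPolynomial.monomial (m - Finsupp.single v 1) ((m v : ℕ) : ℤ)) • f v) := by
      refine a2_sum _ _ _ _ fun v hv => ?_
      rw [smul_eq_mul]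
      have hv1 : 1 ≤ m v := Nat.one_le_iff_ne_zero.mpr (Finsupp.mem_support_iff.mp hv)
      have h3 : a2_B (n - 1) (m v : ℝ)
          (MvPolynomial.monomial (m - Finsupp.single v 1) ((m v : ℕ) : ℤ) : MvPolynomial σ ℤ) := by
        refine ⟨(MvPolynomial.totalDegree_monomial_le _ _).trans ?_, ?_⟩
        · have e1 : (m - Finsupp.single v 1).sum (fun _ => id) = ∑ w, (m - Finsupp.single v 1 : σ →₀ ℕ) w :=
            Finsupp.sum_fintype _ _ (fun _ => rfl)
          have e2 : ∑ w ∈ m.support, m w = ∑ w, m w := Finsupp.sum_fintype m (fun _ e => e) (fun _ => rfl)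
          rw [e2] at hdeg
          rw [e1]
          have e3 : ∑ w, (m - Finsupp.single v 1 : σ →₀ ℕ) w + 1 ≤ ∑ w, m w := by
            rw [← Finset.add_sum_erase _ _ (Finset.mem_univ v), ← Finset.add_sum_erase _ (fun w => m w) (Finset.mem_univ v),
              Finsupp.coe_tsub, Pi.sub_apply, Finsupp.single_eq_same]
            have e4 : ∑ w ∈ Finset.univ.erase v, (m - Finsupp.single v 1 : σ →₀ ℕ) w ≤ ∑ w ∈ Finset.univ.erase v, m w := by
              refine Finset.sum_le_sum fun w _ => ?_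
              rw [Finsupp.coe_tsub, Pi.sub_apply]
              exact Nat.sub_le _ _
            rw [Finsupp.coe_tsub] at e4
            omega
          omega
        · rw [mlen_monomial]
          push_cast
          rw [abs_of_nonneg (Nat.cast_nonneg _)]
      have hn : 1 ≤ n := by
        refine hv1.trans (le_trans ?_ hdeg)
        exact Finset.single_le_sum (f := fun v => m v) (fun _ _ => Nat.zero_le _) hv
      exact a2_mono (a2_mul h3 (hf v)) (by omega) le_rfl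
    have h4 := a2_mul (a2_C (σ := σ) (p.coeff m)) hs
    refine a2_mono h4 (by omega) ?_
    refine mul_le_mul_of_nonneg_left ?_ (abs_nonneg _)
    rw [← Finset.sum_mul, mul_comm]
    refine mul_le_mul_of_nonneg_left ?_ hc
    exact_mod_cast hdeg
  have hsum := a2_sum p.support _ _ _ key
  rw [← map_sum, ← p.as_sum] at hsum
  refine ⟨hsum.1, hsum.2.trans ?_⟩
  rw [← Finset.sum_mul]
  have h7 : ∑ m ∈ p.support, |((p.coeff m : ℤ) : ℝ)| ≤ H := h2
  have h8 : (0 : ℝ) ≤ c * n := mul_nonneg hc (Nat.cast_nonneg _)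
  calc _ ≤ H * (c * n) := mul_le_mul_of_nonneg_right h7 h8
    _ = _ := by ring

/-- A1c. PROOF. Compare `der_bd` in K/A2_Bd. `dv a v` has degree `≤ 1, 2, 3` and length `≤ A, 7A, 5A` for `v = X l, Y l, Q`. -/
theorem der_bd (a : Fin 2 → ℤ) (A : ℝ) (hA : 1 ≤ A) (ha : ∀ j, |(a j : ℝ)| ≤ A) (n : ℕ) (H : ℝ) (p : MvPolynomial Vw ℤ)
    (h1 : p.totalDegree ≤ n) (h2 : mlen p ≤ H) :
    (der a p).totalDegree ≤ n + 2 ∧ mlen (der a p) ≤ 7 * A * n * H :=
  a1bw_gen (dv a) 2 (7 * A) (mul_nonneg (by norm_num) (zero_le_one.trans hA)) (a1bw_dv a A hA ha) n H p h1 h2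

/-- A1d. PROOF. Induction on `k ≤ T` (compare `der_iter_gen` in R/A3_DerIt): after `k` steps degree `≤ n₀ + 2k`, length `≤ ∏_{i<k} (7 A (n₀ + 2i)) H₀`, all the factors are `≤ F = 7 A (n₀ + 2T)` and `F ≥ 1`. -/
theorem der_iter (a : Fin 2 → ℤ) (A : ℝ) (hA : 1 ≤ A) (ha : ∀ j, |(a j : ℝ)| ≤ A) (p : MvPolynomial Vw ℤ) (n₀ : ℕ) (H₀ : ℝ)
    (h1 : p.totalDegree ≤ n₀) (h2 : mlen p ≤ H₀) (T k : ℕ) (hT : 1 ≤ T) (hk : k ≤ T) :
    ((der a)^[k] p).totalDegree ≤ n₀ + 2 * T ∧ mlen ((der a)^[k] p) ≤ (7 * A * (n₀ + 2 * T)) ^ T * H₀ := by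
  have hA0 : 0 ≤ A := zero_le_one.trans hA
  have hc : (0 : ℝ) ≤ 7 * A := mul_nonneg (by norm_num) hA0
  have hT' : (1 : ℝ) ≤ T := Nat.one_le_cast.2 hT
  have hL : (0 : ℝ) ≤ n₀ := Nat.cast_nonneg _
  have hH : 0 ≤ H₀ := (mlen_nonneg p).trans h2
  have hB1 : (1 : ℝ) ≤ 7 * A * (n₀ + 2 * T) :=
    one_le_mul_of_one_le_of_one_le (by linarith only [hA]) (by linarith only [hT', hL])
  have main : ∀ k, k ≤ T → ((der a)^[k] p).totalDegree ≤ n₀ + 2 * k ∧
      mlen ((der a)^[k] p) ≤ (7 * A * (n₀ + 2 * T)) ^ k * H₀ := by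
    intro k
    induction k with
    | zero =>
      intro _
      rw [Function.iterate_zero, id_eq, pow_zero, one_mul]
      exact ⟨h1.trans (by omega), h2⟩
    | succ k ih =>
      intro hk'
      obtain ⟨h1, h2⟩ := ih (by omega)
      rw [Function.iterate_succ_apply']
      obtain ⟨h3, h4⟩ := der_bd a A hA ha _ _ _ h1 h2
      refine ⟨h3.trans (by omega), h4.trans ?_⟩
      have h5 : 0 ≤ (7 * A * (n₀ + 2 * T)) ^ k * H₀ :=
        mul_nonneg (pow_nonneg (zero_le_one.trans hB1) _) hH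
      have e1 : (7 * A * (n₀ + 2 * T)) ^ (k + 1) * H₀
          = (7 * A * (n₀ + 2 * T)) * ((7 * A * (n₀ + 2 * T)) ^ k * H₀) := by ring
      rw [e1]
      refine mul_le_mul_of_nonneg_right ?_ h5
      refine mul_le_mul_of_nonneg_left ?_ hc
      push_cast
      have h6 : (k : ℝ) ≤ T := Nat.cast_le.2 (by omega : k ≤ T)
      linarith only [h6]
  obtain ⟨h3, h4⟩ := main k hk
  exact ⟨h3.trans (by omega), h4.trans (mul_le_mul_of_nonneg_right (pow_le_pow_right₀ hB1 hk) hH)⟩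

/-- A1e. PROOF. `Rp_bd` and `der_iter` with `A = T`. -/
theorem der_Rp_bd {L E T : ℕ} (hT : 1 ≤ T) (a : Fin 2 → ℕ) (ha : ∀ j, a j ≤ T) (k : ℕ) (hk : k ≤ T) (ν : Iw L E) :
    ((der (fun j => (a j : ℤ)))^[k] (Rp ν)).totalDegree ≤ 2 * L + 4 * E + 2 * T ∧
      mlen ((der (fun j => (a j : ℤ)))^[k] (Rp ν)) ≤ (7 * T * (2 * L + 4 * E + 2 * T : ℝ)) ^ T * (16 * L + 28 * E : ℝ) ^ E := by
  have h := der_iter (fun j => (a j : ℤ)) (T : ℝ) (Nat.one_le_cast.2 hT)
    (fun j => by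
      rw [Int.cast_natCast, abs_of_nonneg (Nat.cast_nonneg _)]
      exact Nat.cast_le.2 (ha j))
    (Rp ν) (2 * L + 4 * E) ((16 * L + 28 * E : ℝ) ^ E) (Rp_bd ν).1 (Rp_bd ν).2 T k hT hk
  push_cast at h
  exact h

end Pool.Agent.MSW

end
end

/-! ### the determinant as a polynomial in the values at the base points -/

section

open Complex MvPolynomial

noncomputable section

namespace Pool.Agent.MSW

open MSD MSP

/-- V5a. linear algebra. PROOF. The vectors `v_r ∈ ℂ^ι`, `r ∈ R`, have no common nonzero `c` with `∑ c_i v_r i = 0`, so they span `ℂ^ι`; choose `card ι` linearly independent ones. -/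
theorem rows_exist {ι R : Type} [Fintype ι] [DecidableEq ι] (S : Set R) (v : R → ι → ℂ) (h : ∀ c : ι → ℂ, c ≠ 0 → ∃ r ∈ S, ∑ i, c i * v r i ≠ 0) :
    ∃ f : ι → R, (∀ i, f i ∈ S) ∧ (Matrix.of fun i j => v (f i) j).det ≠ 0 := by
  have hspan : Submodule.span ℂ (v '' S) = ⊤ := by
    by_contra hne
    obtain ⟨f, hf, hf'⟩ := Submodule.exists_le_ker_of_lt_top _ (lt_top_iff_ne_top.2 hne)
    have hfv : ∀ w : ι → ℂ, f w = ∑ i, f (Pi.single i 1) * w i := by
      intro w
      conv_lhs => rw [← Finset.univ_sum_single w]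
      rw [map_sum]
      apply Finset.sum_congr rfl
      intro i _
      have h1 : (Pi.single i (w i) : ι → ℂ) = w i • Pi.single i 1 := by
        rw [← Pi.single_smul, smul_eq_mul, mul_one]
      rw [h1, map_smul, smul_eq_mul, mul_comm]
    have hc : (fun i => f (Pi.single i 1)) ≠ 0 := by
      intro h0
      apply hf
      apply LinearMap.ext
      intro w
      rw [hfv w]
      have h2 : ∀ i, f (Pi.single i 1) = 0 := fun i => congrFun h0 i
      simp [h2]
    obtain ⟨r, hr, hr'⟩ := h _ hc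
    apply hr'
    have h3 : v r ∈ LinearMap.ker f := hf' (Submodule.subset_span ⟨r, hr, rfl⟩)
    rw [LinearMap.mem_ker, hfv] at h3
    exact h3
  obtain ⟨b, hb, hbs, hbi⟩ := exists_linearIndependent ℂ (v '' S)
  rw [hspan] at hbs
  have hB : ⊤ ≤ Submodule.span ℂ (Set.range ((↑) : b → ι → ℂ)) := by
    rw [Subtype.range_coe, hbs]
  let B := Module.Basis.mk hbi hB
  let e : ι ≃ b := (Pi.basisFun ℂ ι).indexEquiv B
  have hf : ∀ i : ι, ∃ r ∈ S, v r = (e i : ι → ℂ) := by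
    intro i
    obtain ⟨r, hr, hr'⟩ := hb (e i).2
    exact ⟨r, hr, hr'⟩
  choose f hfS hfv using hf
  refine ⟨f, hfS, ?_⟩
  have h4 : LinearIndependent ℂ (fun i => (e i : ι → ℂ)) := hbi.comp e e.injective
  have h5 : LinearIndependent ℂ (Matrix.of fun i j => v (f i) j).row := by
    have h6 : (Matrix.of fun i j => v (f i) j).row = fun i => (e i : ι → ℂ) := by
      funext i
      exact hfv i
    rw [h6]
    exact h4
  have h7 := Matrix.linearIndependent_rows_iff_isUnit.1 h5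
  rw [Matrix.isUnit_iff_isUnit_det] at h7
  exact h7.ne_zero

/-- the matrix of the values -/
def Dm {L E : ℕ} (x : Vw → ℂ) (a : Iw L E → Fin 2 → ℕ) (k : Iw L E → ℕ) : Matrix (Iw L E) (Iw L E) ℂ :=
  Matrix.of fun i κ => aeval x ((der (fun j => (a i j : ℤ)))^[k i] (Rp κ))

/-- the determinant as a polynomial -/
def Dp {L E : ℕ} (a : Iw L E → Fin 2 → ℕ) (k : Iw L E → ℕ) : MvPolynomial Vw ℤ :=
  (Matrix.of fun i κ : Iw L E => (der (fun j => (a i j : ℤ)))^[k i] (Rp κ)).det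

/-- V5b. -/
theorem aeval_Dp {L E : ℕ} (a : Iw L E → Fin 2 → ℕ) (k : Iw L E → ℕ) (x : Vw → ℂ) : aeval x (Dp a k) = (Dm x a k).det := by
  rw [Dp, AlgHom.map_det]
  rfl

/-- V5c. -/
theorem Dp_deg {L E T : ℕ} (hT : 1 ≤ T) (a : Iw L E → Fin 2 → ℕ) (k : Iw L E → ℕ) (ha : ∀ i j, a i j ≤ T) (hk : ∀ i, k i ≤ T) :
    (Dp a k).totalDegree ≤ L ^ 2 * E * (2 * L + 4 * E + 2 * T) := by
  have hent : ∀ i κ : Iw L E, ((der (fun j => (a i j : ℤ)))^[k i] (Rp κ)).totalDegree ≤ 2 * L + 4 * E + 2 * T :=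
    fun i κ => (der_Rp_bd hT (a i) (ha i) (k i) (hk i) κ).1
  have hcard : Fintype.card (Iw L E) = L ^ 2 * E := by simp
  rw [Dp, Matrix.det_apply]
  apply totalDegree_finsetSum_le
  intro σ _
  have h1 : (∏ i : Iw L E, (Matrix.of fun i κ : Iw L E => (der (fun j => (a i j : ℤ)))^[k i]
      (Rp κ)) (σ i) i).totalDegree ≤ L ^ 2 * E * (2 * L + 4 * E + 2 * T) := by
    refine (totalDegree_finsetProd _ _).trans ?_
    refine (Finset.sum_le_sum fun i _ => hent (σ i) i).trans ?_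
    rw [Finset.sum_const, Finset.card_univ, hcard, smul_eq_mul]
  rcases Int.units_eq_one_or (Equiv.Perm.sign σ) with h2 | h2
  · rw [h2, one_smul]
    exact h1
  · rw [h2, Units.neg_smul, one_smul, totalDegree_neg]
    exact h1

/-- the values with given `x_l`, `y_l` -/
def vxy (z om : ℂ) (x y : Fin 2 → ℂ) : Vw → ℂ
  | .X l => x l
  | .Y l => y l
  | .Q => 0
  | .g => 2 / 3 * Real.pi ^ 4 * e4 z / om ^ 4
  | .k => sE z / om ^ 2
  | .z => z
  | .r => rh

theorem vals_eq (D : Dw) : vals D = vxy D.z D.om (fun l => D.X l 0) (fun l => D.Y l 0) := by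
  funext v
  cases v <;> rfl

/-- the substitution of the values of the other variables -/
def va08s (z om : ℂ) : Vw → MvPolynomial (Fin 2 ⊕ Fin 2) ℂ
  | .X l => X (Sum.inl l)
  | .Y l => X (Sum.inr l)
  | .Q => C 0
  | .g => C (2 / 3 * Real.pi ^ 4 * e4 z / om ^ 4)
  | .k => C (sE z / om ^ 2)
  | .z => C z
  | .r => C rh

/-- V5d. -/
theorem delta_exists (z om : ℂ) (Q : MvPolynomial Vw ℤ) (n : ℕ) (hn : Q.totalDegree ≤ n) :
    ∃ δ : MvPolynomial (Fin 2 ⊕ Fin 2) ℂ, δ.totalDegree ≤ n ∧ ∀ x y : Fin 2 → ℂ, aeval (Sum.elim x y) δ = aeval (vxy z om x y) Q := by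
  have hs : ∀ v, (va08s z om v).totalDegree ≤ 1 := by
    intro v
    cases v <;> simp [va08s]
  refine ⟨aeval (va08s z om) Q, le_trans ?_ hn, fun x y => ?_⟩
  · rw [aeval_def, eval₂_eq]
    refine (totalDegree_finsetSum _ _).trans (Finset.sup_le fun m hm => ?_)
    refine (totalDegree_mul _ _).trans ?_
    have h1 : ((algebraMap ℤ (MvPolynomial (Fin 2 ⊕ Fin 2) ℂ)) (coeff m Q)).totalDegree = 0 := by
      have h2 : (algebraMap ℤ (MvPolynomial (Fin 2 ⊕ Fin 2) ℂ)) (coeff m Q) = C ((coeff m Q : ℤ) : ℂ) := by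
        simp
      rw [h2]
      exact totalDegree_C _
    rw [h1, zero_add]
    refine (totalDegree_finsetProd _ _).trans ?_
    refine le_trans (Finset.sum_le_sum fun i _ => ?_) (le_totalDegree hm)
    calc (va08s z om i ^ m i).totalDegree ≤ m i * (va08s z om i).totalDegree := totalDegree_pow _ _
      _ ≤ m i * 1 := Nat.mul_le_mul_left _ (hs i)
      _ = m i := mul_one _
  · have hv : ∀ v, aeval (Sum.elim x y) (va08s z om v) = vxy z om x y v := by
      intro v
      cases v <;> simp [va08s, vxy]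
    have key : ∀ R : MvPolynomial Vw ℤ,
        aeval (Sum.elim x y) (aeval (va08s z om) R) = aeval (vxy z om x y) R := by
      intro R
      induction R using MvPolynomial.induction_on with
      | C a => simp
      | add p q hp hq => rw [map_add, map_add, map_add, hp, hq]
      | mul_X p i hp => rw [map_mul, map_mul, map_mul, aeval_X, aeval_X, hp, hv]
    exact key Q

/-- V5e. the equation of the curve -/
theorem v5_curve_eq (D : Dw) (l : Fin 2) :
    D.Y l 0 ^ 2 = 4 * D.X l 0 ^ 3 - 2 * (2 / 3 * Real.pi ^ 4 * e4 D.z / D.om ^ 4) * D.X l 0 - 8 / 27 * Real.pi ^ 6 * e6 D.z / D.om ^ 6 := by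
  have h1 := wp_ode D.z D.im (D.h l) (D.hh l)
  have h2 := D.ne
  unfold Dw.Y Dw.X
  rw [add_zero, div_pow, h1]
  field_simp
  ring

end Pool.Agent.MSW

end
end

/-! ### a base point where all sign changes are nonzero -/

section

open Complex MvPolynomial

noncomputable section

namespace Pool.Agent.MSW

open MSD MSP

/-- V6a. `D` with another base point -/
def rebase (D : Dw) (h : Fin 2 → ℂ) (hh : ∀ l, th D.z (h l) ≠ 0) : Dw := ⟨D.z, D.im, D.om, D.hom, h, hh⟩

theorem v6_N1_neg (τ t : ℂ) : deriv (th τ) (-t) = deriv (th τ) t := by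
  have h : (fun u : ℂ => th τ (-u)) = fun u => -th τ u := by
    funext u; exact th_neg τ u
  have h1 : deriv (fun u : ℂ => th τ (-u)) t = deriv (fun u => -th τ u) t := by rw [h]
  rw [deriv_comp_neg, deriv.fun_neg] at h1
  exact neg_injective h1

theorem v6_d2_neg (τ t : ℂ) : deriv (deriv (th τ)) (-t) = -deriv (deriv (th τ)) t := by
  have h : (fun u : ℂ => deriv (th τ) (-u)) = fun u => deriv (th τ) u := by
    funext u; exact v6_N1_neg τ u
  have h1 : deriv (fun u : ℂ => deriv (th τ) (-u)) t = deriv (fun u => deriv (th τ) u) t := by rw [h]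
  rw [deriv_comp_neg] at h1
  change -deriv (deriv (th τ)) (-t) = deriv (deriv (th τ)) t at h1
  rw [← h1, neg_neg]

theorem v6_wp_neg (τ s t : ℂ) : wp τ s (-t) = wp τ s t := by
  simp only [wp, N2, N0, v6_N1_neg, v6_d2_neg, th_neg]
  ring

/-- V6b. PROOF. `wp` is even (`th` is odd: `N2` is even, `N0^2` is even), its derivative is odd. -/
theorem wp_even (τ : ℂ) (hτ : 0 < τ.im) (t : ℂ) : wp τ (sE τ) (-t) = wp τ (sE τ) t ∧
    deriv (wp τ (sE τ)) (-t) = -deriv (wp τ (sE τ)) t := by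
  refine ⟨v6_wp_neg τ _ t, ?_⟩
  have h : (fun u : ℂ => wp τ (sE τ) (-u)) = fun u => wp τ (sE τ) u := by
    funext u; exact v6_wp_neg τ _ u
  have h1 : deriv (fun u : ℂ => wp τ (sE τ) (-u)) t = deriv (fun u => wp τ (sE τ) u) t := by rw [h]
  rw [deriv_comp_neg] at h1
  rw [← h1, neg_neg]

/-- finitely many analytic functions, none identically zero, on a preconnected set have a common point where they do not vanish -/
theorem v6_common {E : Type*} [NormedAddCommGroup E] [NormedSpace ℂ E] {ι : Type*} [DecidableEq ι] (U : Set E)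
    (hU : IsOpen U) (hP : IsPreconnected U) (f : ι → E → ℂ) (hf : ∀ i, AnalyticOnNhd ℂ (f i) U) (hne : U.Nonempty)
    (ha : ∀ i, ∃ a ∈ U, f i a ≠ 0) (s : Finset ι) : ∃ h ∈ U, ∀ i ∈ s, f i h ≠ 0 := by
  induction s using Finset.induction_on with
  | empty =>
    obtain ⟨a, haU⟩ := hne
    exact ⟨a, haU, by simp⟩
  | insert j s hj ih =>
    obtain ⟨a, haU, has⟩ := ih
    by_contra hcon
    push Not at hcon
    have hev : ∀ᶠ x in nhds a, ∀ i ∈ s, f i x ≠ 0 := by
      rw [Filter.eventually_all_finset]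
      intro i hi
      exact (hf i a haU).continuousAt.eventually_ne (has i hi)
    have hUa : ∀ᶠ x in nhds a, x ∈ U := hU.mem_nhds haU
    have hz : f j =ᶠ[nhds a] 0 := by
      filter_upwards [hev, hUa] with x hx hxU
      by_contra hne0
      obtain ⟨i, hi, hi0⟩ := hcon x hxU
      rcases Finset.mem_insert.1 hi with rfl | hi'
      · exact hne0 hi0
      · exact hx i hi' hi0
    have h0 := (hf j).eqOn_zero_of_preconnected_of_eventuallyEq_zero hP haU hz
    obtain ⟨b, hbU, hb⟩ := ha j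
    exact hb (h0 hbU)

/-- the values as functions of the base point, with signs -/
theorem v6_an (D : Dw) (Q : MvPolynomial Vw ℤ) (ε : Fin 2 → Bool) :
    AnalyticOnNhd ℂ (fun h : Fin 2 → ℂ => aeval (vxy D.z D.om (fun l => wp D.z (sE D.z) (h l) / D.om ^ 2)
      (sg2 ε (fun l => deriv (wp D.z (sE D.z)) (h l) / D.om ^ 3))) Q) {h | ∀ l, th D.z (h l) ≠ 0} := by
  intro h hh
  have hX : ∀ l, AnalyticAt ℂ (fun h : Fin 2 → ℂ => wp D.z (sE D.z) (h l) / D.om ^ 2) h := by
    intro l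
    have h1 : AnalyticAt ℂ (fun h : Fin 2 → ℂ => h l) h :=
      (ContinuousLinearMap.proj (R := ℂ) (φ := fun _ : Fin 2 => ℂ) l).analyticAt h
    have h2 : AnalyticAt ℂ (wp D.z (sE D.z)) (h l) := wp_analyticAt D.z _ D.im (h l) (hh l)
    have h3 : AnalyticAt ℂ (fun h : Fin 2 → ℂ => wp D.z (sE D.z) (h l)) h :=
      AnalyticAt.fun_comp (f := fun h : Fin 2 → ℂ => h l) (g := wp D.z (sE D.z)) h2 h1
    simpa only [div_eq_mul_inv] using h3.fun_mul (analyticAt_const (v := (D.om ^ 2)⁻¹))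
  have hY : ∀ l, AnalyticAt ℂ (fun h : Fin 2 → ℂ => deriv (wp D.z (sE D.z)) (h l) / D.om ^ 3) h := by
    intro l
    have h1 : AnalyticAt ℂ (fun h : Fin 2 → ℂ => h l) h :=
      (ContinuousLinearMap.proj (R := ℂ) (φ := fun _ : Fin 2 => ℂ) l).analyticAt h
    have h2 : AnalyticAt ℂ (deriv (wp D.z (sE D.z))) (h l) := (wp_analyticAt D.z _ D.im (h l) (hh l)).deriv
    have h3 : AnalyticAt ℂ (fun h : Fin 2 → ℂ => deriv (wp D.z (sE D.z)) (h l)) h :=
      AnalyticAt.fun_comp (f := fun h : Fin 2 → ℂ => h l) (g := deriv (wp D.z (sE D.z))) h2 h1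
    simpa only [div_eq_mul_inv] using h3.fun_mul (analyticAt_const (v := (D.om ^ 3)⁻¹))
  have hv : ∀ v : Vw, AnalyticAt ℂ (fun h : Fin 2 → ℂ => vxy D.z D.om (fun l => wp D.z (sE D.z) (h l) / D.om ^ 2)
      (sg2 ε (fun l => deriv (wp D.z (sE D.z)) (h l) / D.om ^ 3)) v) h := by
    intro v
    cases v with
    | X l => exact hX l
    | Y l =>
      by_cases hε : ε l = true
      · simpa only [vxy, sg2, hε, if_true] using hY l
      · have hε' : ε l = false := by simpa using hε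
        simpa only [vxy, sg2, hε', if_false, Bool.false_eq_true] using (hY l).fun_neg
    | Q => exact analyticAt_const
    | g => exact analyticAt_const
    | k => exact analyticAt_const
    | z => exact analyticAt_const
    | r => exact analyticAt_const
  induction Q using MvPolynomial.induction_on with
  | C a =>
    simp only [aeval_C]
    exact analyticAt_const
  | add p q hp hq =>
    simp only [map_add]
    exact hp.add hq
  | mul_X p v hp =>
    simp only [map_mul, aeval_X]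
    exact hp.mul (hv v)

/-- V6c. PROOF. `Ω = {h : ∀ l, th τ (h l) ≠ 0}` is open and connected (a product of the connected sets of `t8c_preconn`), symmetric under sign changes. `F(h) = aeval (vals P (rebase D h)) Q` is analytic on `Ω` (`wp_analyticAt`, its derivative), and `F(ε h)` is `aeval (vxy .. x (ε y))` by `wp_even`. `F` is not identically `0` on `Ω`,
so by the identity theorem none of the `8` functions `h ↦ F(ε h)` vanishes on a nonempty open subset of `Ω`; their zero sets are closed with empty interior in `Ω`, so there is `h ∈ Ω` where all are `≠ 0`. -/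
theorem all_signs (D : Dw) (Q : MvPolynomial Vw ℤ) (h0 : aeval (vals D) Q ≠ 0) :
    ∃ D' : Dw, D'.z = D.z ∧ D'.om = D.om ∧
      ∀ ε : Fin 2 → Bool, aeval (vxy D.z D.om (fun l => D'.X l 0) (sg2 ε (fun l => D'.Y l 0))) Q ≠ 0 := by
  have hset : {h : Fin 2 → ℂ | ∀ l, th D.z (h l) ≠ 0} = Set.pi Set.univ (fun _ : Fin 2 => {t : ℂ | th D.z t ≠ 0}) := by
    ext h
    simp [Set.mem_pi]
  have hU : IsOpen {h : Fin 2 → ℂ | ∀ l, th D.z (h l) ≠ 0} := by
    rw [hset]
    exact isOpen_set_pi Set.finite_univ fun _ _ => t8c_open D.z D.im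
  have hP : IsPreconnected {h : Fin 2 → ℂ | ∀ l, th D.z (h l) ≠ 0} := by
    rw [hset]
    exact isPreconnected_univ_pi fun _ => t8c_preconn D.z D.im
  obtain ⟨h, hh, hs⟩ := v6_common {h : Fin 2 → ℂ | ∀ l, th D.z (h l) ≠ 0} hU hP
    (fun (ε : Fin 2 → Bool) (h : Fin 2 → ℂ) => aeval (vxy D.z D.om (fun l => wp D.z (sE D.z) (h l) / D.om ^ 2)
      (sg2 ε (fun l => deriv (wp D.z (sE D.z)) (h l) / D.om ^ 3))) Q) (fun ε => v6_an D Q ε) ⟨D.h, D.hh⟩
    (by
      intro ε
      refine ⟨fun l => if ε l then D.h l else -D.h l, ?_, ?_⟩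
      · intro l
        by_cases hε : ε l = true
        · simpa only [hε, if_true] using D.hh l
        · have hε' : ε l = false := by simpa using hε
          simp only [hε', if_false, Bool.false_eq_true]
          rw [th_neg]
          exact neg_ne_zero.2 (D.hh l)
      · have hx : (fun l => wp D.z (sE D.z) ((fun l => if ε l then D.h l else -D.h l) l) / D.om ^ 2) = fun l => D.X l 0 := by
          funext l
          by_cases hε : ε l = true
          · simp only [hε, if_true, Dw.X, add_zero]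
          · have hε' : ε l = false := by simpa using hε
            simp only [hε', if_false, Bool.false_eq_true, Dw.X, add_zero, (wp_even D.z D.im (D.h l)).1]
        have hy : (sg2 ε (fun l => deriv (wp D.z (sE D.z)) ((fun l => if ε l then D.h l else -D.h l) l) / D.om ^ 3)) = fun l => D.Y l 0 := by
          funext l
          by_cases hε : ε l = true
          · simp only [sg2, hε, if_true, Dw.Y, add_zero]
          · have hε' : ε l = false := by simpa using hε
            simp only [sg2, hε', if_false, Bool.false_eq_true, Dw.Y, add_zero, (wp_even D.z D.im (D.h l)).2]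
            ring
        intro hcon
        apply h0
        rw [vals_eq]
        rw [hx, hy] at hcon
        exact hcon)
    Finset.univ
  refine ⟨rebase D h hh, rfl, rfl, ?_⟩
  intro ε
  have h1 := hs ε (Finset.mem_univ _)
  have hx : (fun l => (rebase D h hh).X l 0) = fun l => wp D.z (sE D.z) (h l) / D.om ^ 2 := by
    funext l
    simp only [Dw.X, rebase, add_zero]
  have hy : (fun l => (rebase D h hh).Y l 0) = fun l => deriv (wp D.z (sE D.z)) (h l) / D.om ^ 3 := by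
    funext l
    simp only [Dw.Y, rebase, add_zero]
  rw [hx, hy]
  exact h1

end Pool.Agent.MSW

end
end

end
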