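import Mathlib
import Pool.Agent.Lib.MP_f58a57_nt.FK.K001

namespace Pool.Agent.MSD
end Pool.Agent.MSD
namespace Pool.Agent.MSP
end Pool.Agent.MSP

section

/-! # K1: selection of an irreducible factor (MP_f58a57_nt, pairs; Gelfond's criterion) -/

open Complex Filter Topology Polynomial

noncomputable section

namespace Pool.Agent.MSP

/-- Mahler measure of an integer polynomial -/
def MM (p : Polynomial ℤ) : ℝ := (p.map (Int.castRingHom ℂ)).mahlerMeasure

/-- K1a. Mathlib `mahlerMeasure_mul`. -/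
theorem MM_mul (p q : Polynomial ℤ) : MM (p * q) = MM p * MM q := by
  unfold MM
  rw [Polynomial.map_mul, mahlerMeasure_mul]

/-- K1b. `M(p) ≥ |leading coefficient| ≥ 1` (Mathlib: `one_le_mahlerMeasure...`/`norm_leadingCoeff_le_mahlerMeasure` or via the product formula). -/
theorem one_le_MM (p : Polynomial ℤ) (hp : p ≠ 0) : 1 ≤ MM p :=
  one_le_mahlerMeasure_of_ne_zero hp

theorem k1_inj : Function.Injective (Int.castRingHom ℂ) := RingHom.injective_int _

/-- K1c. Mathlib `mahlerMeasure_le_sum_norm_coeff`. -/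
theorem MM_le_len (p : Polynomial ℤ) : MM p ≤ len p := by
  unfold MM len
  refine (mahlerMeasure_le_sum_norm_coeff _).trans (le_of_eq ?_)
  rw [Polynomial.sum_def, Polynomial.support_map_of_injective p k1_inj]
  refine Finset.sum_congr rfl fun i _ => ?_
  rw [Polynomial.coeff_map]
  simp

/-- K1d. Mathlib `norm_coeff_le_choose_mul_mahlerMeasure` and `∑ choose = 2^deg`. -/
theorem len_le_MM (p : Polynomial ℤ) : len p ≤ 2 ^ p.natDegree * MM p := by
  unfold MM len
  have h : ∀ i, |((p.coeff i : ℤ) : ℝ)| ≤ (p.natDegree.choose i : ℝ) * (p.map (Int.castRingHom ℂ)).mahlerMeasure := by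
    intro i
    have h1 := norm_coeff_le_choose_mul_mahlerMeasure i (p.map (Int.castRingHom ℂ))
    rw [Polynomial.coeff_map, Polynomial.natDegree_map_eq_of_injective k1_inj] at h1
    simpa using h1
  calc ∑ i ∈ p.support, |((p.coeff i : ℤ) : ℝ)|
      ≤ ∑ i ∈ Finset.range (p.natDegree + 1), |((p.coeff i : ℤ) : ℝ)| := by
        refine Finset.sum_le_sum_of_subset_of_nonneg ?_ (fun _ _ _ => abs_nonneg _)
        exact Polynomial.supp_subset_range_natDegree_succ
    _ ≤ ∑ i ∈ Finset.range (p.natDegree + 1),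
          (p.natDegree.choose i : ℝ) * (p.map (Int.castRingHom ℂ)).mahlerMeasure :=
        Finset.sum_le_sum fun i _ => h i
    _ = 2 ^ p.natDegree * (p.map (Int.castRingHom ℂ)).mahlerMeasure := by
        rw [← Finset.sum_mul]
        congr 1
        exact_mod_cast Nat.sum_range_choose p.natDegree

/-- the additive function of the proof of `exists_factor` -/
def k1a (ϑ : ℂ) (δ σ Λ : ℝ) (P : Polynomial ℤ) : ℝ :=
  Real.log ‖aeval ϑ P‖ + Λ / 2 * (P.natDegree * σ + Real.log (MM P) * δ)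

theorem k1a_mul (ϑ : ℂ) (δ σ Λ : ℝ) (P R : Polynomial ℤ) (hP : aeval ϑ P ≠ 0) (hR : aeval ϑ R ≠ 0) :
    k1a ϑ δ σ Λ (P * R) = k1a ϑ δ σ Λ P + k1a ϑ δ σ Λ R := by
  have hP0 : P ≠ 0 := by
    rintro rfl
    exact hP (map_zero _)
  have hR0 : R ≠ 0 := by
    rintro rfl
    exact hR (map_zero _)
  unfold k1a
  rw [map_mul, norm_mul, Real.log_mul (norm_ne_zero_iff.2 hP) (norm_ne_zero_iff.2 hR),
    Polynomial.natDegree_mul hP0 hR0, MM_mul, Real.log_mul]
  · push_cast
    ring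
  · have := one_le_MM P hP0
    linarith
  · have := one_le_MM R hR0
    linarith

theorem k1_MM_C (c : ℤ) : MM (C c) = |(c : ℝ)| := by
  unfold MM
  rw [Polynomial.map_C, mahlerMeasure_const]
  simp

theorem k1a_C (ϑ : ℂ) (δ σ Λ : ℝ) (c : ℤ) :
    k1a ϑ δ σ Λ (C c) = Real.log |(c : ℝ)| * (1 + Λ / 2 * δ) := by
  unfold k1a
  rw [k1_MM_C, natDegree_C, aeval_C]
  have : ‖(algebraMap ℤ ℂ) c‖ = |(c : ℝ)| := by simp
  rw [this]
  push_cast
  ring

theorem k1_unit (P : Polynomial ℤ) (h : IsUnit P) : ∃ c : ℤ, |c| = 1 ∧ P = C c := by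
  rw [Polynomial.isUnit_iff] at h
  obtain ⟨c, hc, rfl⟩ := h
  exact ⟨c, Int.isUnit_iff_abs_eq.1 hc, rfl⟩

/-- K1e. PROOF. For an irreducible `P` put `a(P) = log‖P(ϑ)‖ + (Λ/2)(deg P · σ + log M(P) · δ)`; extend `a` to all `P` with `P(ϑ) ≠ 0`: it is additive.
`a(Q) ≤ -Λδσ + (Λ/2)(δσ + σδ) = 0`. If all irreducible factors `P` of `Q` had `a(P) > 0`, then (induction over the factorization in the UFD `ℤ[X]`,
`UniqueFactorizationMonoid.induction_on_prime` or `WfDvdMonoid.induction_on_irreducible`; a unit is `±1` and has `a = 0`) `a(Q) ≥ 0` with equality only if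
`Q` is a unit; but for a unit `‖Q(ϑ)‖ = 1 > exp(-Λδσ)`. So some irreducible factor has `a(P) ≤ 0`. It is not constant: for a constant prime `p`,
`a = log|p| (1 + Λδ/2) > 0`. -/
theorem exists_factor (ϑ : ℂ) (Q : Polynomial ℤ) (hQ : aeval ϑ Q ≠ 0) (δ σ Λ : ℝ) (hδ0 : 0 < δ) (hσ0 : 0 < σ)
    (hΛ : 0 < Λ) (hδ : (Q.natDegree : ℝ) ≤ δ) (hσ : Real.log (MM Q) ≤ σ)
    (hs : ‖aeval ϑ Q‖ ≤ Real.exp (-(Λ * δ * σ))) :
    ∃ P : Polynomial ℤ, Irreducible P ∧ P ∣ Q ∧ 1 ≤ P.natDegree ∧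
      Real.log ‖aeval ϑ P‖ ≤ -(Λ / 2 * (P.natDegree * σ + Real.log (MM P) * δ)) := by
  by_contra hcon
  push Not at hcon
  have hQ0 : Q ≠ 0 := by
    rintro rfl
    exact hQ (map_zero _)
  have hne : ∀ D : Polynomial ℤ, D ∣ Q → aeval ϑ D ≠ 0 := by
    rintro D ⟨E, rfl⟩ h
    rw [map_mul, h, zero_mul] at hQ
    exact hQ rfl
  have hirr : ∀ P : Polynomial ℤ, Irreducible P → P ∣ Q → 0 < k1a ϑ δ σ Λ P := by
    intro P hP hPQ
    rcases Nat.eq_zero_or_pos P.natDegree with h | h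
    · obtain ⟨c, hc⟩ := Polynomial.natDegree_eq_zero.1 h
      rw [← hc, k1a_C]
      have hc0 : c ≠ 0 := by
        rintro rfl
        rw [map_zero] at hc
        exact hP.ne_zero hc.symm
      have hc1 : |c| ≠ 1 := by
        intro h1
        apply hP.not_isUnit
        rw [← hc, Polynomial.isUnit_C]
        exact Int.isUnit_iff_abs_eq.2 h1
      have hc2 : 2 ≤ |c| := by
        have := Int.one_le_abs hc0
        omega
      have hc3 : (2 : ℝ) ≤ |(c : ℝ)| := by
        rw [← Int.cast_abs]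
        exact_mod_cast hc2
      have h4 : 0 < Real.log |(c : ℝ)| := Real.log_pos (by linarith)
      positivity
    · have h1 := hcon P hP hPQ h
      unfold k1a
      linarith
  have hind : ∀ D : Polynomial ℤ, D ∣ Q → 0 ≤ k1a ϑ δ σ Λ D ∧ (IsUnit D ∨ 0 < k1a ϑ δ σ Λ D) := by
    intro D
    induction D using WfDvdMonoid.induction_on_irreducible with
    | zero =>
      intro h
      exact absurd (zero_dvd_iff.1 h) hQ0
    | unit u hu =>
      intro _
      refine ⟨?_, Or.inl hu⟩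
      obtain ⟨c, hc, rfl⟩ := k1_unit u hu
      rw [k1a_C]
      have : |(c : ℝ)| = 1 := by
        rw [← Int.cast_abs, hc]
        simp
      rw [this, Real.log_one, zero_mul]
    | mul b i hb hi ih =>
      intro h
      have hiQ : i ∣ Q := (Dvd.intro _ rfl).trans h
      have hbQ : b ∣ Q := (Dvd.intro_left _ rfl).trans h
      have h1 := k1a_mul ϑ δ σ Λ i b (hne i hiQ) (hne b hbQ)
      have h2 := hirr i hi hiQ
      have h3 := (ih hbQ).1
      constructor
      · linarith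
      · right
        linarith
  have hpos : 0 < Λ * δ * σ := by positivity
  have hlog : Real.log ‖aeval ϑ Q‖ ≤ -(Λ * δ * σ) := by
    rw [Real.log_le_iff_le_exp (norm_pos_iff.2 hQ)]
    exact hs
  rcases (hind Q dvd_rfl).2 with h | h
  · obtain ⟨c, hc, rfl⟩ := k1_unit Q h
    have h1 : ‖aeval ϑ (C c : Polynomial ℤ)‖ = 1 := by
      rw [aeval_C]
      have : ‖(algebraMap ℤ ℂ) c‖ = |(c : ℝ)| := by simp
      rw [this, ← Int.cast_abs, hc]
      simp
    rw [h1, Real.log_one] at hlog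
    linarith
  · unfold k1a at h
    have h1 : (Q.natDegree : ℝ) * σ ≤ δ * σ := mul_le_mul_of_nonneg_right hδ hσ0.le
    have h2 : Real.log (MM Q) * δ ≤ σ * δ := mul_le_mul_of_nonneg_right hσ hδ0.le
    have h3 : Λ / 2 * (Q.natDegree * σ + Real.log (MM Q) * δ) ≤ Λ / 2 * (δ * σ + σ * δ) :=
      mul_le_mul_of_nonneg_left (by linarith) (by linarith)
    have h4 : Λ / 2 * (δ * σ + σ * δ) = Λ * δ * σ := by ring
    linarith

end Pool.Agent.MSP
end

end

section

/-! # U/D8_Lip: values of integer polynomials at close points -/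

noncomputable section

namespace Pool.Agent.MSU

open MSP

theorem d8_norm_prod {σ : Type*} (x : σ → ℂ) (C : ℝ) (hx : ∀ v, ‖x v‖ ≤ C) (s : Multiset σ) :
    ‖(s.map x).prod‖ ≤ C ^ s.card := by
  induction s using Multiset.induction_on with
  | empty => simp
  | cons a s ih =>
    rw [Multiset.map_cons, Multiset.prod_cons, norm_mul, Multiset.card_cons, pow_succ, mul_comm]
    have hC : 0 ≤ C := (norm_nonneg _).trans (hx a)
    exact mul_le_mul ih (hx a) (norm_nonneg _) (pow_nonneg hC _)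

theorem d8_multiset {σ : Type*} (B δ : ℝ) (hB : 1 ≤ B) (hδ : 0 ≤ δ) (hδ1 : δ ≤ 1)
    (x y : σ → ℂ) (hx : ∀ v, ‖x v‖ ≤ B) (hy : ∀ v, ‖y v - x v‖ ≤ δ) (s : Multiset σ) :
    ‖(s.map y).prod - (s.map x).prod‖ ≤ s.card * (B + 1) ^ s.card * δ := by
  have hy' : ∀ v, ‖y v‖ ≤ B + 1 := fun v => by
    have : y v = (y v - x v) + x v := by ring
    rw [this]
    refine (norm_add_le _ _).trans ?_
    linarith [hx v, hy v]
  have hB1 : (1 : ℝ) ≤ B + 1 := by linarith
  induction s using Multiset.induction_on with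
  | empty => simp
  | cons a s ih =>
    simp only [Multiset.map_cons, Multiset.prod_cons, Multiset.card_cons]
    have e : y a * (s.map y).prod - x a * (s.map x).prod =
        (y a - x a) * (s.map y).prod + x a * ((s.map y).prod - (s.map x).prod) := by ring
    rw [e]
    have h1 : ‖(y a - x a) * (s.map y).prod‖ ≤ δ * (B + 1) ^ s.card := by
      rw [norm_mul]
      exact mul_le_mul (hy a) (d8_norm_prod y _ hy' s) (norm_nonneg _) hδ
    have h2 : ‖x a * ((s.map y).prod - (s.map x).prod)‖ ≤ (B + 1) * (s.card * (B + 1) ^ s.card * δ) := by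
      rw [norm_mul]
      exact mul_le_mul ((hx a).trans (by linarith)) ih (norm_nonneg _) (by linarith)
    have hp : (0 : ℝ) ≤ (B + 1) ^ s.card := by positivity
    have h3 : δ * (B + 1) ^ s.card ≤ (B + 1) * ((B + 1) ^ s.card * δ) := by
      have : 0 ≤ (B + 1) ^ s.card * δ := mul_nonneg hp hδ
      nlinarith
    calc _ ≤ _ := norm_add_le _ _
      _ ≤ δ * (B + 1) ^ s.card + (B + 1) * (s.card * (B + 1) ^ s.card * δ) := add_le_add h1 h2
      _ ≤ (B + 1) * ((B + 1) ^ s.card * δ) + (B + 1) * (s.card * (B + 1) ^ s.card * δ) := by linarith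
      _ = ((s.card + 1 : ℕ) : ℝ) * (B + 1) ^ (s.card + 1) * δ := by
        push_cast
        ring

theorem d8_prod_eq {σ : Type*} (x : σ → ℂ) (e : σ →₀ ℕ) :
    (e.toMultiset.map x).prod = ∏ v ∈ e.support, x v ^ e v := by
  classical
  rw [Finset.prod_multiset_map_count, Finsupp.toFinset_toMultiset]
  exact Finset.prod_congr rfl fun v _ => by rw [Finsupp.count_toMultiset]

/-- D8. PROOF. For a monomial with exponents `e`, `|e| ≤ m`: `|∏ y_v^(e_v) - ∏ x_v^(e_v)| ≤ m (B + 1)^m δ` (telescoping: change one factor at a time, all factors have norm `≤ B + 1`; e.g. write the difference with `Finset.prod` over a list of length `|e|`, or induction on the degree).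
Then sum over the support (`mlen`). -/
theorem aeval_lip {σ : Type*} (p : MvPolynomial σ ℤ) (m : ℕ) (hm : p.totalDegree ≤ m) (B δ : ℝ) (hB : 1 ≤ B) (hδ : 0 ≤ δ) (hδ1 : δ ≤ 1)
    (x y : σ → ℂ) (hx : ∀ v, ‖x v‖ ≤ B) (hy : ∀ v, ‖y v - x v‖ ≤ δ) :
    ‖MvPolynomial.aeval y p - MvPolynomial.aeval x p‖ ≤ mlen p * (m * (B + 1) ^ m * δ) := by
  rw [MvPolynomial.aeval_def, MvPolynomial.aeval_def, MvPolynomial.eval₂_eq, MvPolynomial.eval₂_eq,
    ← Finset.sum_sub_distrib]
  unfold mlen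
  rw [Finset.sum_mul]
  refine (norm_sum_le _ _).trans (Finset.sum_le_sum fun e he => ?_)
  rw [← mul_sub, norm_mul]
  have h1 : ‖(algebraMap ℤ ℂ) (p.coeff e)‖ = |((p.coeff e : ℤ) : ℝ)| := by
    simp only [algebraMap_int_eq, eq_intCast, Complex.norm_intCast]
  rw [h1]
  refine mul_le_mul_of_nonneg_left ?_ (abs_nonneg _)
  rw [← d8_prod_eq, ← d8_prod_eq]
  refine (d8_multiset B δ hB hδ hδ1 x y hx hy _).trans ?_
  have hc : e.toMultiset.card ≤ m := by
    rw [Finsupp.card_toMultiset]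
    exact (MvPolynomial.le_totalDegree he).trans hm
  have hc' : ((e.toMultiset.card : ℕ) : ℝ) ≤ m := by exact_mod_cast hc
  have hp : (B + 1) ^ e.toMultiset.card ≤ (B + 1) ^ m := pow_le_pow_right₀ (by linarith) hc
  refine mul_le_mul_of_nonneg_right ?_ hδ
  exact mul_le_mul hc' hp (by positivity) (by positivity)

end Pool.Agent.MSU
end

end

section

/-! # U/Z9b_Split: decomposition of the space of forms -/

open MvPolynomial

noncomputable section

namespace Pool.Agent.MSU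

variable {M : Type} [Field M] [Algebra ℂ M]

/-- dehomogenisation -/
def ZA10_f (K : Type) [Field K] : Po K →ₐ[K] Polynomial K := aeval ![1, Polynomial.X]

theorem ZA10_map (h : Po ℂ) :
    ZA10_f M (ofC h : Po M) = Polynomial.map (algebraMap ℂ M) (ZA10_f ℂ h) := by
  unfold ofC ZA10_f
  induction h using MvPolynomial.induction_on with
  | C a => simp
  | add p q hp hq => rw [map_add, map_add, map_add, Polynomial.map_add, hp, hq]
  | mul_X p i hp =>
    rw [map_mul, map_mul, map_mul, Polynomial.map_mul, hp, map_X, aeval_X, aeval_X]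
    fin_cases i
    · simp
    · simp

theorem ZA10_inj (K : Type) [Field K] (n : ℕ) (P : Po K) (hP : P ∈ Hs K n) (h : ZA10_f K P = 0) :
    P = 0 := by
  obtain ⟨f, hf⟩ := dehom_exists (M := K) n
  have h1 : f ⟨P, hP⟩ = 0 := by
    apply Subtype.ext
    rw [hf]
    exact h
  have h2 := f.map_eq_zero_iff.1 h1
  exact congrArg Subtype.val h2

theorem ZA10_deg (K : Type) [Field K] (n : ℕ) (P : Po K) (hP : P ∈ Hs K n) :
    (ZA10_f K P).degree < ((n + 1 : ℕ) : WithBot ℕ) := by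
  obtain ⟨f, hf⟩ := dehom_exists (M := K) n
  have h1 := (f ⟨P, hP⟩).2
  rw [Polynomial.mem_degreeLT, hf] at h1
  exact h1

theorem ZA10_surj (K : Type) [Field K] (n : ℕ) (Q : Polynomial K)
    (hQ : Q.degree < ((n + 1 : ℕ) : WithBot ℕ)) : ∃ P ∈ Hs K n, ZA10_f K P = Q := by
  obtain ⟨f, hf⟩ := dehom_exists (M := K) n
  refine ⟨(f.symm ⟨Q, Polynomial.mem_degreeLT.2 hQ⟩ : Hs K n), Subtype.mem _, ?_⟩
  have h1 := hf (f.symm ⟨Q, Polynomial.mem_degreeLT.2 hQ⟩)
  rw [LinearEquiv.apply_symm_apply] at h1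
  exact h1.symm

/-- division in one variable -/
theorem ZA10_one (K : Type) [Field K] (N' r' : ℕ) (H F : Polynomial K) (b : K)
    (hb : H.eval b ≠ 0) (hH : H.degree < ((r' + 1 + 1 : ℕ) : WithBot ℕ))
    (hF : F.degree < ((N' + r' + 1 + 1 : ℕ) : WithBot ℕ)) :
    ∃ G P : Polynomial K, G.degree < ((N' + 1 : ℕ) : WithBot ℕ) ∧
      P.degree < ((r' + 1 : ℕ) : WithBot ℕ) ∧
      F = H * G + (Polynomial.X - Polynomial.C b) ^ (N' + 1) * P := by
  have hcop : IsCoprime H ((Polynomial.X - Polynomial.C b) ^ (N' + 1)) := by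
    apply IsCoprime.pow_right
    refine ((Polynomial.irreducible_X_sub_C b).coprime_iff_not_dvd.2 ?_).symm
    rw [Polynomial.dvd_iff_isRoot]
    exact hb
  obtain ⟨u, v, huv⟩ := hcop
  have hmon : ((Polynomial.X - Polynomial.C b) ^ (N' + 1)).Monic :=
    (Polynomial.monic_X_sub_C b).pow _
  have hdeg : ((Polynomial.X - Polynomial.C b) ^ (N' + 1)).degree = ((N' + 1 : ℕ) : WithBot ℕ) := by
    rw [Polynomial.degree_pow, Polynomial.degree_X_sub_C]
    simp
  set T := (Polynomial.X - Polynomial.C b) ^ (N' + 1) with hT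
  set G := (F * u) %ₘ T with hG
  set P := F * v + H * ((F * u) /ₘ T) with hP
  have hGdeg : G.degree < ((N' + 1 : ℕ) : WithBot ℕ) := by
    rw [← hdeg]
    exact Polynomial.degree_modByMonic_lt _ hmon
  have hsum : F = H * G + T * P := by
    have h1 : (F * u) %ₘ T + T * ((F * u) /ₘ T) = F * u := Polynomial.modByMonic_add_div _ _
    have h2 : F = F * (u * H + v * T) := by rw [huv, mul_one]
    calc F = F * (u * H + v * T) := h2
      _ = H * (F * u) + T * (F * v) := by ring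
      _ = H * (G + T * ((F * u) /ₘ T)) + T * (F * v) := by rw [h1]
      _ = H * G + T * P := by rw [hP]; ring
  refine ⟨G, P, hGdeg, ?_, hsum⟩
  by_cases hP0 : P = 0
  · rw [hP0, Polynomial.degree_zero]
    exact WithBot.bot_lt_coe _
  have hTP : T * P = F - H * G := by rw [hsum]; ring
  have hTPdeg : (T * P).degree < ((N' + r' + 1 + 1 : ℕ) : WithBot ℕ) := by
    rw [hTP]
    refine lt_of_le_of_lt (Polynomial.degree_sub_le _ _) (max_lt hF ?_)
    by_cases hG0 : G = 0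
    · rw [hG0, mul_zero, Polynomial.degree_zero]
      exact WithBot.bot_lt_coe _
    have hH0 : H ≠ 0 := by
      intro h
      rw [h, Polynomial.eval_zero] at hb
      exact hb rfl
    rw [Polynomial.degree_mul, Polynomial.degree_eq_natDegree hH0,
      Polynomial.degree_eq_natDegree hG0]
    rw [Polynomial.degree_eq_natDegree hH0] at hH
    rw [Polynomial.degree_eq_natDegree hG0] at hGdeg
    have h1 : H.natDegree < r' + 1 + 1 := by exact_mod_cast hH
    have h2 : G.natDegree < N' + 1 := by exact_mod_cast hGdeg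
    have h3 : H.natDegree + G.natDegree < N' + r' + 1 + 1 := by omega
    exact_mod_cast h3
  rw [Polynomial.degree_mul, hdeg, Polynomial.degree_eq_natDegree hP0] at hTPdeg
  rw [Polynomial.degree_eq_natDegree hP0]
  have h4 : N' + 1 + P.natDegree < N' + r' + 1 + 1 := by exact_mod_cast hTPdeg
  have h5 : P.natDegree < r' + 1 := by omega
  exact_mod_cast h5

/-- Z9b. PROOF. Let `L = X 0 - b X 1` with `b ∈ ℂ` such that `h(b, 1) ≠ 0` if `h(X, 1)` is a nonzero polynomial in one variable (it is, as `h` is a nonzero form: `dehom_exists` with the variables exchanged) . So `L` does not divide `h`, even in `M[X_0, X_1]`: `h(b,1) ≠ 0` in `M`.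
(uniqueness) if `h g + L^N p = 0` with `p` a form of degree `r - 1` (or `p = 0`), `g` a form: `L^N ∣ h g`. `L` is prime and `L ∤ h`, so `L^N ∣ g`: `g = L^N g'`, `h g' = -p`, so `p = 0` by degrees (`deg (h g') ≥ r` if `g' ≠ 0`).
(existence) the map `Hs M (N-1) × Hs M (r-1) → Hs M (N+r-1)`, `(g, p) ↦ h g + L^N p` is injective (uniqueness, `h ≠ 0`), and the dimensions are `N + r = N + r`. Here `r = r' + 1`, `N = N' + 1`. -/
theorem split_forms (r' : ℕ) (h : Po ℂ) (h0 : h ≠ 0) (hh : h.IsHomogeneous (r' + 1)) : ∃ L : Po ℂ, L.IsHomogeneous 1 ∧ L ≠ 0 ∧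
    ∀ N' : ℕ, (∀ g ∈ Hs M N', ∀ p ∈ Hs M r', (ofC h : Po M) * g + ofC (L ^ (N' + 1)) * p = 0 → p = 0) ∧
      ∀ f ∈ Hs M (N' + r' + 1), ∃ g ∈ Hs M N', ∃ p ∈ Hs M r', f = (ofC h : Po M) * g + ofC (L ^ (N' + 1)) * p := by
  classical
  have hφ0 : ZA10_f ℂ h ≠ 0 := fun h1 => h0 (ZA10_inj ℂ (r' + 1) h hh h1)
  obtain ⟨b, hb⟩ : ∃ b : ℂ, (ZA10_f ℂ h).eval b ≠ 0 := by
    by_contra hcon
    push Not at hcon
    apply hφ0
    apply Polynomial.funext
    intro x
    rw [hcon x, Polynomial.eval_zero]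
  have hbM : (ZA10_f M (ofC h : Po M)).eval (algebraMap ℂ M b) ≠ 0 := by
    rw [ZA10_map, Polynomial.eval_map, Polynomial.eval₂_at_apply]
    intro h1
    exact hb ((map_eq_zero (algebraMap ℂ M)).1 h1)
  have hhM : (ofC h : Po M) ∈ Hs M (r' + 1) := by
    rw [mem_homogeneousSubmodule]
    exact hh.map _
  have hLh : (X 1 - C b * X 0 : Po ℂ).IsHomogeneous 1 := by
    have h1 : (X 1 : Po ℂ).IsHomogeneous 1 := isHomogeneous_X _ _
    have h2 : (C b * X 0 : Po ℂ).IsHomogeneous (0 + 1) :=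
      (isHomogeneous_C _ _).mul (isHomogeneous_X _ _)
    rw [zero_add] at h2
    exact h1.sub h2
  have hLφ : ZA10_f M (ofC (X 1 - C b * X 0) : Po M) =
      Polynomial.X - Polynomial.C (algebraMap ℂ M b) := by
    rw [ZA10_map]
    unfold ZA10_f
    simp
  refine ⟨X 1 - C b * X 0, hLh, ?_, ?_⟩
  · intro h1
    have h2 := congrArg (eval ![0, (1 : ℂ)]) h1
    simp at h2
  intro N'
  have hLN : ∀ p ∈ Hs M r', (ofC ((X 1 - C b * X 0) ^ (N' + 1)) : Po M) * p ∈
      Hs M (N' + r' + 1) := by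
    intro p hp
    rw [mem_homogeneousSubmodule] at hp ⊢
    have h1 : (ofC ((X 1 - C b * X 0) ^ (N' + 1)) : Po M).IsHomogeneous (1 * (N' + 1)) :=
      (hLh.pow (N' + 1)).map _
    have h2 := h1.mul hp
    have h3 : 1 * (N' + 1) + r' = N' + r' + 1 := by ring
    rw [h3] at h2
    exact h2
  have hhN : ∀ g ∈ Hs M N', (ofC h : Po M) * g ∈ Hs M (N' + r' + 1) := by
    intro g hg
    rw [mem_homogeneousSubmodule] at hg hhM ⊢
    have h2 := hhM.mul hg
    have h3 : r' + 1 + N' = N' + r' + 1 := by ring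
    rw [h3] at h2
    exact h2
  have hTφ : ZA10_f M (ofC ((X 1 - C b * X 0) ^ (N' + 1)) : Po M) =
      (Polynomial.X - Polynomial.C (algebraMap ℂ M b)) ^ (N' + 1) := by
    have h1 : (ofC ((X 1 - C b * X 0) ^ (N' + 1)) : Po M) =
        (ofC (X 1 - C b * X 0) : Po M) ^ (N' + 1) := by
      unfold ofC
      rw [map_pow]
    rw [h1, map_pow, hLφ]
  refine ⟨?_, ?_⟩
  · intro g hg p hp hgp
    have h1 := congrArg (ZA10_f M) hgp
    rw [map_add, map_mul, map_mul, hTφ, map_zero] at h1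
    have hdvd : (Polynomial.X - Polynomial.C (algebraMap ℂ M b)) ^ (N' + 1) ∣ ZA10_f M g := by
      have hcop : IsCoprime ((Polynomial.X - Polynomial.C (algebraMap ℂ M b)) ^ (N' + 1))
          (ZA10_f M (ofC h : Po M)) := by
        apply IsCoprime.pow_left
        refine (Polynomial.irreducible_X_sub_C _).coprime_iff_not_dvd.2 ?_
        rw [Polynomial.dvd_iff_isRoot]
        exact hbM
      apply hcop.dvd_of_dvd_mul_left
      refine ⟨-ZA10_f M p, ?_⟩
      linear_combination h1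
    have hg0 : ZA10_f M g = 0 := by
      by_contra hne
      have h2 := Polynomial.degree_le_of_dvd hdvd hne
      rw [Polynomial.degree_pow, Polynomial.degree_X_sub_C] at h2
      have h3 := ZA10_deg M N' g hg
      have h4 := lt_of_le_of_lt h2 h3
      simp at h4
    rw [hg0, mul_zero, zero_add] at h1
    have h5 : ZA10_f M p = 0 := by
      rcases mul_eq_zero.1 h1 with h6 | h6
      · exact absurd h6 (pow_ne_zero _ (Polynomial.X_sub_C_ne_zero _))
      · exact h6
    exact ZA10_inj M r' p hp h5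
  · intro f hf
    obtain ⟨G, P, hG, hP, hsum⟩ := ZA10_one M N' r' (ZA10_f M (ofC h : Po M)) (ZA10_f M f)
      (algebraMap ℂ M b) hbM (ZA10_deg M (r' + 1) _ hhM) (ZA10_deg M (N' + r' + 1) f hf)
    obtain ⟨g, hg, hgG⟩ := ZA10_surj M N' G hG
    obtain ⟨p, hp, hpP⟩ := ZA10_surj M r' P hP
    refine ⟨g, hg, p, hp, ?_⟩
    have h1 : f - ((ofC h : Po M) * g + ofC ((X 1 - C b * X 0) ^ (N' + 1)) * p) ∈
        Hs M (N' + r' + 1) :=
      Submodule.sub_mem _ hf (Submodule.add_mem _ (hhN g hg) (hLN p hp))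
    have h2 := ZA10_inj M (N' + r' + 1) _ h1 (by
      rw [map_sub, map_add, map_mul, map_mul, hTφ, hgG, hpP, ← hsum, sub_self])
    exact sub_eq_zero.1 h2

end Pool.Agent.MSU
end

end

section

/-! # K3: Gelfond's criterion (MP_f58a57_nt, pairs) -/

open Complex Filter Topology Polynomial

noncomputable section

namespace Pool.Agent.MSP

/-- length of an integer polynomial in terms of the Mahler measure -/
theorem k3_log_len (f : Polynomial ℤ) (hf : f ≠ 0) {m F : ℝ} (hm : m = (f.natDegree : ℝ))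
    (hF : F = Real.log (MM f)) : Real.log (len f) ≤ m + F := by
  have hM : 1 ≤ MM f := one_le_MM f hf
  have hlen : 0 < len f := lt_of_lt_of_le (by linarith) (MM_le_len f)
  have h1 := Real.log_le_log hlen (len_le_MM f)
  rw [Real.log_mul (by positivity) (by linarith), Real.log_pow, ← hm, ← hF] at h1
  have h2 : Real.log 2 ≤ 1 := by
    have := Real.log_le_sub_one_of_pos (by norm_num : (0 : ℝ) < 2)
    linarith
  have h3 : 0 ≤ m := by rw [hm]; positivity
  nlinarith

/-- degree, Mahler measure and value of a factor -/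
theorem k3_factor {P Q : Polynomial ℤ} (hQ : Q ≠ 0) (hPQ : P ∣ Q) :
    P.natDegree ≤ Q.natDegree ∧ Real.log (MM P) ≤ Real.log (MM Q) := by
  refine ⟨natDegree_le_of_dvd hPQ hQ, ?_⟩
  obtain ⟨R, rfl⟩ := hPQ
  have hP : P ≠ 0 := left_ne_zero_of_mul hQ
  have hR : R ≠ 0 := right_ne_zero_of_mul hQ
  have h1 := one_le_MM P hP
  have h2 := one_le_MM R hR
  rw [MM_mul]
  exact Real.log_le_log (by linarith) (by nlinarith)

/-- associated integer polynomials have the same absolute value at a point -/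
theorem k3_assoc {P Q : Polynomial ℤ} (h : Associated P Q) (ϑ : ℂ) :
    ‖aeval ϑ P‖ = ‖aeval ϑ Q‖ := by
  obtain ⟨u, hu⟩ := h
  obtain ⟨r, hr, hur⟩ := Polynomial.isUnit_iff.1 u.isUnit
  rw [← hu, map_mul, norm_mul, ← hur, aeval_C]
  rcases Int.isUnit_iff.1 hr with rfl | rfl <;> simp

/-- K3a. PROOF. Suppose `f, g` are not associated. Let `m = deg f`, `n = deg g` (`≤ δ`, `≤ δ'`), `c = max 1 ‖ϑ‖`. K2b and `len f ≤ 2^m M(f)` (K1d) give
`0 ≤ log(m+n) + (m+n) log c + n(m log 2 + log M(f)) + m(n log 2 + log M(g)) + max(log‖f(ϑ)‖, log‖g(ϑ)‖)`.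
If the maximum is `log‖f(ϑ)‖ ≤ -(Λ/2)(mσ + log M(f) δ)`: `n log M(f) ≤ aδ log M(f)`, `m log M(g) ≤ m aσ`, `2mn ≤ 2m aδ ≤ 2a mσ`,
`(m+n)(1 + log c) ≤ (1 + log c)(1 + a) mσ` (`m ≥ 1`, `n ≤ aδ ≤ aσ`). If it is `log‖g(ϑ)‖ ≤ -(Λ/2)(nσ' + log M(g) δ')`: `n log M(f) ≤ nσ ≤ nσ'`,
`m log M(g) ≤ δ' log M(g)`, `2mn ≤ 2nδ ≤ 2nσ'`, `(m+n)(1 + log c) ≤ 2(1 + log c) nσ'`. For `Λ = 20 a (1 + log c)` or so both are `< 0`.
(`log M ≥ 0` by K1b.) -/
theorem assoc_of_small (ϑ : ℂ) (a : ℝ) (ha : 1 ≤ a) : ∃ Λ₀ : ℝ, 0 < Λ₀ ∧ ∀ (Λ δ σ δ' σ' : ℝ) (f g : Polynomial ℤ), Λ₀ ≤ Λ →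
    Irreducible f → Irreducible g → 1 ≤ f.natDegree → 1 ≤ g.natDegree → (f.natDegree : ℝ) ≤ δ →
    (g.natDegree : ℝ) ≤ δ' → Real.log (MM f) ≤ σ → Real.log (MM g) ≤ σ' → δ ≤ δ' → δ' ≤ a * δ → σ ≤ σ' → σ' ≤ a * σ →
    δ ≤ σ → aeval ϑ f ≠ 0 → aeval ϑ g ≠ 0 →
    Real.log ‖aeval ϑ f‖ ≤ -(Λ / 2 * (f.natDegree * σ + Real.log (MM f) * δ)) →
    Real.log ‖aeval ϑ g‖ ≤ -(Λ / 2 * (g.natDegree * σ' + Real.log (MM g) * δ')) → Associated f g := by
  obtain ⟨C, hC⟩ : ∃ C : ℝ, C = Real.log (max 1 ‖ϑ‖) := ⟨_, rfl⟩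
  have hc1 : (1 : ℝ) ≤ max 1 ‖ϑ‖ := le_max_left _ _
  have hC0 : 0 ≤ C := by rw [hC]; exact Real.log_nonneg hc1
  refine ⟨2 * ((1 + C) * (1 + a) + 3 * a + 1), by positivity, ?_⟩
  intro Λ δ σ δ' σ' f g hΛ hf hg df dg hfδ hgδ hfσ hgσ hδδ hδa hσσ hσa hδσ hf0 hg0 hsf hsg
  by_contra hna
  have hres := res_bound f g hf hg hna df dg ϑ
  obtain ⟨m, hm⟩ : ∃ m : ℝ, m = (f.natDegree : ℝ) := ⟨_, rfl⟩
  obtain ⟨n, hn⟩ : ∃ n : ℝ, n = (g.natDegree : ℝ) := ⟨_, rfl⟩
  obtain ⟨F, hF⟩ : ∃ F : ℝ, F = Real.log (MM f) := ⟨_, rfl⟩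
  obtain ⟨G, hG⟩ : ∃ G : ℝ, G = Real.log (MM g) := ⟨_, rfl⟩
  have hMf : 1 ≤ MM f := one_le_MM f hf.ne_zero
  have hMg : 1 ≤ MM g := one_le_MM g hg.ne_zero
  have hF0 : 0 ≤ F := by rw [hF]; exact Real.log_nonneg hMf
  have hG0 : 0 ≤ G := by rw [hG]; exact Real.log_nonneg hMg
  have hm1 : 1 ≤ m := by rw [hm]; exact_mod_cast df
  have hn1 : 1 ≤ n := by rw [hn]; exact_mod_cast dg
  rw [← hm] at hfδ
  rw [← hn] at hgδ
  rw [← hF] at hfσ
  rw [← hG] at hgσ
  rw [← hm, ← hF] at hsf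
  rw [← hn, ← hG] at hsg
  have hlf : Real.log (len f) ≤ m + F := k3_log_len f hf.ne_zero hm hF
  have hlg : Real.log (len g) ≤ n + G := k3_log_len g hg.ne_zero hn hG
  have hlen1 : 0 < len f := lt_of_lt_of_le (by linarith) (MM_le_len f)
  have hlen2 : 0 < len g := lt_of_lt_of_le (by linarith) (MM_le_len g)
  have hnf : 0 < ‖aeval ϑ f‖ := norm_pos_iff.2 hf0
  have hng : 0 < ‖aeval ϑ g‖ := norm_pos_iff.2 hg0
  have hmax : 0 < max ‖aeval ϑ f‖ ‖aeval ϑ g‖ := lt_max_of_lt_left hnf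
  have hmn : 0 < (f.natDegree : ℝ) + g.natDegree := by rw [← hm, ← hn]; linarith
  have hlog := Real.log_nonneg hres
  rw [Real.log_mul (by positivity) hmax.ne', Real.log_mul (by positivity) (by positivity),
    Real.log_mul hmn.ne' (by positivity), Real.log_mul (by positivity) (by positivity),
    Real.log_pow, Real.log_pow, Real.log_pow, ← hC] at hlog
  push_cast at hlog
  rw [← hm, ← hn] at hlog
  have hl1 : Real.log (m + n) ≤ m + n := by
    have := Real.log_le_sub_one_of_pos (by linarith : 0 < m + n)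
    linarith
  have h1 : n * Real.log (len f) ≤ n * (m + F) := mul_le_mul_of_nonneg_left hlf (by linarith)
  have h2 : m * Real.log (len g) ≤ m * (n + G) := mul_le_mul_of_nonneg_left hlg (by linarith)
  have hσ1 : 1 ≤ σ := by linarith
  have hσ'1 : 1 ≤ σ' := by linarith
  have hδ1 : 1 ≤ δ := by linarith
  have hΛ2 : (1 + C) * (1 + a) + 3 * a + 1 ≤ Λ / 2 := by linarith
  have hmσ : 1 ≤ m * σ := one_le_mul_of_one_le_of_one_le hm1 hσ1
  have hnσ : 1 ≤ n * σ' := one_le_mul_of_one_le_of_one_le hn1 hσ'1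
  rcases le_total ‖aeval ϑ g‖ ‖aeval ϑ f‖ with hle | hle
  · rw [max_eq_left hle] at hlog
    -- `log ‖f ϑ‖` is the maximum
    have e1 : n * F ≤ a * (F * δ) := by
      have h3 : n ≤ a * δ := hgδ.trans hδa
      have h4 := mul_le_mul_of_nonneg_right h3 hF0
      linarith
    have e2 : m * G ≤ a * (m * σ) := by
      have h3 : G ≤ a * σ := hgσ.trans hσa
      have h4 := mul_le_mul_of_nonneg_left h3 (by linarith : 0 ≤ m)
      linarith
    have e3 : n * m ≤ a * (m * σ) := by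
      have h3 : n ≤ a * δ := hgδ.trans hδa
      have h4 : a * δ ≤ a * σ := mul_le_mul_of_nonneg_left hδσ (by linarith)
      have h5 := mul_le_mul_of_nonneg_right (h3.trans h4) (by linarith : 0 ≤ m)
      linarith
    have e4 : m + n ≤ (1 + a) * (m * σ) := by
      have h3 : n ≤ a * δ := hgδ.trans hδa
      have h4 : a * δ ≤ a * σ := mul_le_mul_of_nonneg_left hδσ (by linarith)
      have h5 : a * σ ≤ a * (m * σ) :=
        mul_le_mul_of_nonneg_left (le_mul_of_one_le_left (by linarith) hm1) (by linarith)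
      have h6 : m ≤ m * σ := le_mul_of_one_le_right (by linarith) hσ1
      linarith
    have e5 : (m + n) * (1 + C) ≤ (1 + C) * (1 + a) * (m * σ) := by
      have := mul_le_mul_of_nonneg_left e4 (by linarith : 0 ≤ 1 + C)
      linarith
    have e6 : ((1 + C) * (1 + a) + 3 * a + 1) * (m * σ + F * δ) ≤ Λ / 2 * (m * σ + F * δ) :=
      mul_le_mul_of_nonneg_right hΛ2 (by positivity)
    have e7 : 0 ≤ ((1 + C) * (1 + a) + 2 * a + 1) * (F * δ) := by positivity
    linarith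
  · rw [max_eq_right hle] at hlog
    have e0 : m ≤ σ' := by linarith
    have e1 : n * F ≤ n * σ' := mul_le_mul_of_nonneg_left (by linarith) (by linarith)
    have e2 : m * G ≤ G * δ' := by
      have h3 := mul_le_mul_of_nonneg_right (by linarith : m ≤ δ') hG0
      linarith
    have e3 : n * m ≤ n * σ' := mul_le_mul_of_nonneg_left e0 (by linarith)
    have e4 : m + n ≤ 2 * (n * σ') := by
      have h5 : σ' ≤ n * σ' := le_mul_of_one_le_left (by linarith) hn1
      have h6 : n ≤ n * σ' := le_mul_of_one_le_right (by linarith) hσ'1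
      linarith
    have e5 : (m + n) * (1 + C) ≤ 2 * (1 + C) * (n * σ') := by
      have := mul_le_mul_of_nonneg_left e4 (by linarith : 0 ≤ 1 + C)
      linarith
    have hδ'0 : 0 ≤ δ' := by linarith
    have e6 : ((1 + C) * (1 + a) + 3 * a + 1) * (n * σ' + G * δ') ≤ Λ / 2 * (n * σ' + G * δ') :=
      mul_le_mul_of_nonneg_right hΛ2 (by positivity)
    have e7 : (2 * (1 + C) + 4) * (n * σ' + G * δ') ≤
        ((1 + C) * (1 + a) + 3 * a + 1) * (n * σ' + G * δ') := by
      refine mul_le_mul_of_nonneg_right ?_ (by positivity)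
      have h3 := mul_le_mul_of_nonneg_left (by linarith : 2 ≤ 1 + a) (by linarith : 0 ≤ 1 + C)
      linarith
    have e8 : 0 ≤ (2 * (1 + C) + 3) * (G * δ') := by positivity
    linarith

/-- K3b. Gelfond's criterion. PROOF. `Λ = Λ₀` of K3a. For large `n` choose by K1e (`log M(Q) ≤ log len Q ≤ σ_n`, K1c) an irreducible factor `P_n` of the
polynomial `Q_n`; its degree and `log M` are at most those of `Q_n` (`MM_mul`, `one_le_MM`), `P_n(ϑ) ≠ 0`. By K3a `P_n` and `P_{n+1}` are associated,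
so all `P_n` are associated to one `P`; then `log‖P(ϑ)‖ ≤ -(Λ/2) σ_n → -∞`, a contradiction as `P(ϑ) ≠ 0` is fixed (`deg P ≥ 1`, associated polynomials
differ by a sign). -/
theorem gelfond (ϑ : ℂ) (a : ℝ) (ha : 1 ≤ a) : ∃ Λ : ℝ, 0 < Λ ∧ ∀ δ σ : ℕ → ℝ,
    (∀ᶠ n in atTop, 1 ≤ δ n ∧ δ n ≤ σ n ∧ δ n ≤ δ (n + 1) ∧ δ (n + 1) ≤ a * δ n ∧ σ n ≤ σ (n + 1) ∧
      σ (n + 1) ≤ a * σ n) → Tendsto σ atTop atTop →
    (∀ᶠ n in atTop, ∃ Q : Polynomial ℤ, (Q.natDegree : ℝ) ≤ δ n ∧ Real.log (len Q) ≤ σ n ∧ aeval ϑ Q ≠ 0 ∧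
      ‖aeval ϑ Q‖ ≤ Real.exp (-(Λ * δ n * σ n))) → False := by
  obtain ⟨Λ, hΛ0, hΛ⟩ := assoc_of_small ϑ a ha
  refine ⟨Λ, hΛ0, ?_⟩
  intro δ σ hev htend hQ
  obtain ⟨N, hN⟩ := eventually_atTop.1 (hev.and hQ)
  -- the irreducible factors
  have hP : ∀ k : ℕ, ∃ P : Polynomial ℤ, Irreducible P ∧ 1 ≤ P.natDegree ∧
      (P.natDegree : ℝ) ≤ δ (N + k) ∧ Real.log (MM P) ≤ σ (N + k) ∧ aeval ϑ P ≠ 0 ∧
      Real.log ‖aeval ϑ P‖ ≤
        -(Λ / 2 * (P.natDegree * σ (N + k) + Real.log (MM P) * δ (N + k))) := by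
    intro k
    obtain ⟨⟨h1, h2, -⟩, Q, q1, q2, q3, q4⟩ := hN (N + k) (by omega)
    have hQ0 : Q ≠ 0 := by
      rintro rfl
      exact q3 (map_zero _)
    have hMQ : Real.log (MM Q) ≤ σ (N + k) := by
      refine (Real.log_le_log ?_ (MM_le_len Q)).trans q2
      exact lt_of_lt_of_le zero_lt_one (one_le_MM Q hQ0)
    obtain ⟨P, p1, p2, p3, p4⟩ := exists_factor ϑ Q q3 (δ (N + k)) (σ (N + k)) Λ (by linarith)
      (by linarith) hΛ0 q1 hMQ q4
    obtain ⟨f1, f2⟩ := k3_factor hQ0 p2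
    refine ⟨P, p1, p3, ?_, f2.trans hMQ, ?_, p4⟩
    · exact le_trans (by exact_mod_cast f1) q1
    · intro h0
      obtain ⟨R, rfl⟩ := p2
      exact q3 (by rw [map_mul, h0, zero_mul])
  choose P p1 p2 p3 p4 p5 p6 using hP
  have hass : ∀ k, Associated (P k) (P (k + 1)) := by
    intro k
    obtain ⟨⟨h1, h2, h3, h4, h5, h6⟩, -⟩ := hN (N + k) (by omega)
    exact hΛ Λ (δ (N + k)) (σ (N + k)) (δ (N + (k + 1))) (σ (N + (k + 1))) (P k) (P (k + 1)) le_rfl
      (p1 k) (p1 (k + 1)) (p2 k) (p2 (k + 1)) (p3 k) (p3 (k + 1)) (p4 k) (p4 (k + 1)) h3 h4 h5 h6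
      h2 (p5 k) (p5 (k + 1)) (p6 k) (p6 (k + 1))
  have hass0 : ∀ k, Associated (P 0) (P k) := by
    intro k
    induction k with
    | zero => exact Associated.refl _
    | succ k ih => exact ih.trans (hass k)
  -- the contradiction
  have hlt : ∀ k, Λ / 2 * σ (N + k) ≤ -Real.log ‖aeval ϑ (P 0)‖ := by
    intro k
    obtain ⟨⟨h1, h2, -⟩, -⟩ := hN (N + k) (by omega)
    have h3 := p6 k
    rw [← k3_assoc (hass0 k) ϑ] at h3
    have h4 : (1 : ℝ) ≤ (P k).natDegree := by exact_mod_cast p2 k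
    have h5 : 0 ≤ Real.log (MM (P k)) := Real.log_nonneg (one_le_MM _ (p1 k).ne_zero)
    have h6 : σ (N + k) ≤ (P k).natDegree * σ (N + k) + Real.log (MM (P k)) * δ (N + k) := by
      have : 0 ≤ Real.log (MM (P k)) * δ (N + k) := mul_nonneg h5 (by linarith)
      nlinarith
    have h7 : Λ / 2 * σ (N + k) ≤
        Λ / 2 * ((P k).natDegree * σ (N + k) + Real.log (MM (P k)) * δ (N + k)) :=
      mul_le_mul_of_nonneg_left h6 (by linarith)
    linarith
  have ht : Tendsto (fun k => Λ / 2 * σ (N + k)) atTop atTop := by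
    refine Tendsto.const_mul_atTop (by linarith) ?_
    have h8 : Tendsto (fun k : ℕ => N + k) atTop atTop :=
      tendsto_atTop_mono (fun k => Nat.le_add_left k N) tendsto_id
    exact htend.comp h8
  obtain ⟨k, hk⟩ := (ht.eventually (eventually_gt_atTop (-Real.log ‖aeval ϑ (P 0)‖))).exists
  exact absurd (hlt k) (not_le.2 hk)

end Pool.Agent.MSP
end

end

section

/-! # K/G1_Pig: the pigeonhole principle for complex linear forms -/

open Complex

noncomputable section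

namespace Pool.Agent.MSK

open MSD MSP

variable {d : ℕ}

/-- G1. PROOF. Let `Y = card ι · α · B`. The vectors `x ∈ {0..B}^ι` have `A x` with real and imaginary parts in `[-Y, Y]`. Cut `[-Y, Y]` into at most `2Y/(ε/2) + 1 ≤ 4Y/ε + 1` cells of length `ε/2`. If
`(4Y/ε + 2)^(2 card κ) < (B+1)^(card ι)` two different vectors have all the real and imaginary parts of `A x` in the same cells; their difference `x` has `|x i| ≤ B` and `‖(Ax)_k‖ ≤ ε/2 + ε/2`. -/
theorem pigeon {ι κ : Type} [Fintype ι] [Fintype κ] [Nonempty ι] (A : κ → ι → ℂ) (α ε : ℝ) (B : ℕ) (hα : 0 ≤ α) (hε : 0 < ε)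
    (hA : ∀ k i, ‖A k i‖ ≤ α)
    (h : (4 * (Fintype.card ι * α * B) / ε + 2) ^ (2 * Fintype.card κ) < ((B : ℝ) + 1) ^ (Fintype.card ι)) :
    ∃ x : ι → ℤ, x ≠ 0 ∧ (∀ i, |x i| ≤ B) ∧ ∀ k, ‖∑ i, A k i * x i‖ ≤ ε := by
  classical
  set Y : ℝ := Fintype.card ι * α * B with hY
  have hY0 : 0 ≤ Y := by positivity
  set a : ℤ := ⌊-(2 * Y / ε)⌋ with ha
  set b : ℤ := ⌊2 * Y / ε⌋ with hb
  have hc : ((Finset.Icc a b).card : ℝ) ≤ 4 * Y / ε + 2 := by
    have h1 : a ≤ b := Int.floor_le_floor (by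
      have : 0 ≤ 2 * Y / ε := by positivity
      linarith)
    rw [Int.card_Icc]
    have h2 : ((b + 1 - a).toNat : ℤ) = b + 1 - a := Int.toNat_of_nonneg (by omega)
    have h3 : (((b + 1 - a).toNat : ℤ) : ℝ) = ((b + 1 - a : ℤ) : ℝ) := by rw [h2]
    rw [Int.cast_natCast] at h3
    rw [h3]
    push_cast
    have h4 : (b : ℝ) ≤ 2 * Y / ε := Int.floor_le _
    have h5 : -(2 * Y / ε) < a + 1 := Int.lt_floor_add_one _
    have h6 : 4 * Y / ε = 2 * Y / ε + 2 * Y / ε := by ring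
    rw [h6]
    linarith
  let S : Finset (ι → ℤ) := Fintype.piFinset fun _ => Finset.Icc 0 (B : ℤ)
  let T : Finset (κ → ℤ × ℤ) := Fintype.piFinset fun _ => Finset.Icc a b ×ˢ Finset.Icc a b
  let f : (ι → ℤ) → κ → ℤ × ℤ := fun x k =>
    (⌊(∑ i, A k i * x i).re / (ε / 2)⌋, ⌊(∑ i, A k i * x i).im / (ε / 2)⌋)
  have hST : T.card < S.card := by
    have hS : (S.card : ℝ) = ((B : ℝ) + 1) ^ Fintype.card ι := by
      simp only [S, Fintype.card_piFinset, Int.card_Icc, Finset.prod_const, Finset.card_univ]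
      push_cast
      congr 1
      have : ((B : ℤ) + 1 - 0).toNat = B + 1 := by omega
      rw [this]
      push_cast
      ring
    have hT : (T.card : ℝ) = (((Finset.Icc a b).card : ℝ)) ^ (2 * Fintype.card κ) := by
      simp only [T, Fintype.card_piFinset, Finset.card_product, Finset.prod_const, Finset.card_univ]
      push_cast
      rw [pow_mul, sq]
    have : (T.card : ℝ) < S.card := by
      rw [hS, hT]
      refine lt_of_le_of_lt ?_ h
      gcongr
    exact_mod_cast this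
  have hbd : ∀ x ∈ S, ∀ k, ‖∑ i, A k i * x i‖ ≤ Y := by
    intro x hx k
    simp only [S, Fintype.mem_piFinset, Finset.mem_Icc] at hx
    calc ‖∑ i, A k i * x i‖ ≤ ∑ i, ‖A k i * x i‖ := norm_sum_le _ _
      _ ≤ ∑ _i : ι, α * B := by
          refine Finset.sum_le_sum fun i _ => ?_
          rw [norm_mul]
          refine mul_le_mul (hA k i) ?_ (norm_nonneg _) hα
          rw [Complex.norm_intCast]
          have h1 := (hx i).1
          have h2 := (hx i).2
          rw [abs_of_nonneg (by exact_mod_cast h1)]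
          exact_mod_cast h2
      _ = Y := by rw [Finset.sum_const, Finset.card_univ, nsmul_eq_mul, hY]; ring
  have hcell : ∀ u : ℝ, |u| ≤ Y → ⌊u / (ε / 2)⌋ ∈ Finset.Icc a b := by
    intro u hu
    rw [abs_le] at hu
    rw [Finset.mem_Icc]
    have h1 : u / (ε / 2) = 2 * u / ε := by field_simp
    constructor
    · refine Int.floor_le_floor ?_
      rw [h1, ← neg_div]
      refine div_le_div_of_nonneg_right ?_ hε.le
      linarith [hu.1]
    · refine Int.floor_le_floor ?_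
      rw [h1]
      refine div_le_div_of_nonneg_right ?_ hε.le
      linarith [hu.2]
  have hmap : ∀ x ∈ S, f x ∈ T := by
    intro x hx
    simp only [T, Fintype.mem_piFinset, Finset.mem_product]
    intro k
    exact ⟨hcell _ ((abs_re_le_norm _).trans (hbd x hx k)), hcell _ ((abs_im_le_norm _).trans (hbd x hx k))⟩
  obtain ⟨x, hx, y, hy, hxy, hf⟩ := Finset.exists_ne_map_eq_of_card_lt_of_maps_to hST hmap
  refine ⟨x - y, sub_ne_zero.2 hxy, fun i => ?_, fun k => ?_⟩
  · simp only [S, Fintype.mem_piFinset, Finset.mem_Icc] at hx hy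
    have h1 := hx i
    have h2 := hy i
    rw [Pi.sub_apply, abs_le]
    constructor <;> linarith [h1.1, h1.2, h2.1, h2.2]
  · have hk := congrFun hf k
    simp only [f, Prod.mk.injEq] at hk
    have key : ∀ u v : ℝ, ⌊u / (ε / 2)⌋ = ⌊v / (ε / 2)⌋ → |u - v| ≤ ε / 2 := by
      intro u v huv
      have h1 := Int.abs_sub_lt_one_of_floor_eq_floor huv
      rw [← sub_div, abs_div, abs_of_pos (by positivity : (0:ℝ) < ε / 2), div_lt_one (by positivity)] at h1
      exact h1.le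
    have e1 : ∑ i, A k i * ((x - y) i : ℤ) = ∑ i, A k i * x i - ∑ i, A k i * y i := by
      rw [← Finset.sum_sub_distrib]
      refine Finset.sum_congr rfl fun i _ => ?_
      rw [Pi.sub_apply]
      push_cast
      ring
    rw [e1]
    refine (Complex.norm_le_abs_re_add_abs_im _).trans ?_
    rw [Complex.sub_re, Complex.sub_im]
    have h1 := key _ _ hk.1
    have h2 := key _ _ hk.2
    linarith

end Pool.Agent.MSK
end

end
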