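import Mathlib

/-! # MP_f58a57_nt, all nonspecial points: E1_Rig -/

/-! ### the ring of entire functions of two variables and its field of fractions -/

section

open Complex Filter Topology

noncomputable section

namespace Pool.Agent.MSW

/-- the entire functions on `ℂ^2` -/
def AnS : Subalgebra ℂ ((Fin 2 → ℂ) → ℂ) where
  carrier := {f | AnalyticOnNhd ℂ f Set.univ}
  mul_mem' := fun {a b} ha hb => (show AnalyticOnNhd ℂ (fun t => a t * b t) Set.univ from fun t ht => (ha t ht).mul (hb t ht))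
  add_mem' := fun {a b} ha hb => (show AnalyticOnNhd ℂ (fun t => a t + b t) Set.univ from fun t ht => (ha t ht).add (hb t ht))
  algebraMap_mem' := fun c => (show AnalyticOnNhd ℂ (fun _ => c) Set.univ from fun _ _ => analyticAt_const)

/-- the ring of entire functions on `ℂ^2` -/
abbrev E2 : Type := ↥AnS

theorem E2.an (f : E2) : AnalyticOnNhd ℂ (f : (Fin 2 → ℂ) → ℂ) Set.univ := f.2

theorem YA01_eq_zero (f : E2) (t : Fin 2 → ℂ)
    (h : ∀ᶠ u in 𝓝 t, (f : (Fin 2 → ℂ) → ℂ) u = 0) : f = 0 := by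
  have h5 : (f : (Fin 2 → ℂ) → ℂ) = fun _ => (0 : ℂ) :=
    AnalyticOnNhd.eq_of_eventuallyEq f.2 (fun _ _ => analyticAt_const) h
  exact Subtype.ext h5

/-- Y0a. PROOF. Identity theorem on the connected space `Fin 2 → ℂ`: if `f g = 0` and `f ≠ 0`, then `f ≠ 0` on a nonempty open set (continuity), so `g = 0` there, so `g = 0` everywhere (`AnalyticOnNhd.eq_of_eventuallyEq`).
(`E2` is nontrivial: constants.) -/
instance : IsDomain E2 := by
  have hnt : Nontrivial E2 := by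
    refine ⟨⟨0, 1, fun h => ?_⟩⟩
    have h1 := congrArg (fun f : E2 => (f : (Fin 2 → ℂ) → ℂ) 0) h
    exact zero_ne_one h1
  have hnz : NoZeroDivisors E2 := by
    refine ⟨fun {a b} hab => ?_⟩
    by_contra hcon
    rw [not_or] at hcon
    obtain ⟨ha, hb⟩ := hcon
    have ha' : ∃ t, (a : (Fin 2 → ℂ) → ℂ) t ≠ 0 := by
      by_contra h1
      push Not at h1
      exact ha (Subtype.ext (funext h1))
    obtain ⟨t, ht⟩ := ha'
    apply hb
    apply YA01_eq_zero b t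
    filter_upwards [(a.2 t (Set.mem_univ t)).continuousAt.eventually_ne ht] with u hu
    have h3 := congrArg (fun f : E2 => (f : (Fin 2 → ℂ) → ℂ) u) hab
    have h4 : (a : (Fin 2 → ℂ) → ℂ) u * (b : (Fin 2 → ℂ) → ℂ) u = 0 := h3
    exact (mul_eq_zero.mp h4).resolve_left hu
  exact NoZeroDivisors.to_isDomain E2

/-- Y0b. the zero set of a nonzero entire function has empty interior. PROOF. Identity theorem. -/
theorem E2.dense_ne (f : E2) (h : f ≠ 0) : Dense {t : Fin 2 → ℂ | (f : (Fin 2 → ℂ) → ℂ) t ≠ 0} := by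
  intro t
  rw [mem_closure_iff_frequently]
  by_contra hcon
  rw [Filter.not_frequently] at hcon
  apply h
  apply YA01_eq_zero f t
  filter_upwards [hcon] with u hu
  by_contra h3
  exact hu h3

theorem YA01_cont (f : E2) : Continuous (f : (Fin 2 → ℂ) → ℂ) :=
  continuous_iff_continuousAt.mpr (fun t => (f.2 t (Set.mem_univ t)).continuousAt)

theorem E2.open_ne (f : E2) : IsOpen {t : Fin 2 → ℂ | (f : (Fin 2 → ℂ) → ℂ) t ≠ 0} :=
  isOpen_ne_fun (YA01_cont f) continuous_const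

/-- Y0c. PROOF. Baire: a countable intersection of dense open sets is dense (`dense_iInter_of_isOpen`). -/
theorem E2.exists_ne (f : ℕ → E2) (h : ∀ n, f n ≠ 0) : Dense {t : Fin 2 → ℂ | ∀ n, (f n : (Fin 2 → ℂ) → ℂ) t ≠ 0} := by
  have h1 := dense_iInter_of_isOpen (fun n => E2.open_ne (f n)) (fun n => E2.dense_ne (f n) (h n))
  have h2 : {t : Fin 2 → ℂ | ∀ n, (f n : (Fin 2 → ℂ) → ℂ) t ≠ 0} =
      ⋂ n, {t : Fin 2 → ℂ | (f n : (Fin 2 → ℂ) → ℂ) t ≠ 0} := by
    ext t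
    simp only [Set.mem_ofPred_eq, Set.mem_iInter]
  rw [h2]
  exact h1

theorem YA01_diff (f : E2) (t : Fin 2 → ℂ) : DifferentiableAt ℂ (f : (Fin 2 → ℂ) → ℂ) t :=
  (f.2 t (Set.mem_univ t)).differentiableAt

/-- the derivative in the direction `v` -/
def dE (v : Fin 2 → ℂ) : Derivation ℂ E2 E2 where
  toFun f := ⟨fun t => fderiv ℂ (f : (Fin 2 → ℂ) → ℂ) t v, by
    have h1 : AnalyticOnNhd ℂ (fderiv ℂ (f : (Fin 2 → ℂ) → ℂ)) Set.univ := f.2.fderiv
    have h2 := (ContinuousLinearMap.apply ℂ ℂ v).comp_analyticOnNhd h1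
    exact h2⟩
  map_add' := by
    intro f g
    apply Subtype.ext
    funext t
    show fderiv ℂ (fun t => (f : (Fin 2 → ℂ) → ℂ) t + (g : (Fin 2 → ℂ) → ℂ) t) t v =
      fderiv ℂ (f : (Fin 2 → ℂ) → ℂ) t v + fderiv ℂ (g : (Fin 2 → ℂ) → ℂ) t v
    rw [fderiv_fun_add (YA01_diff f t) (YA01_diff g t)]
    rfl
  map_smul' := by
    intro c f
    apply Subtype.ext
    funext t
    show fderiv ℂ (fun t => c * (f : (Fin 2 → ℂ) → ℂ) t) t v =
      c * fderiv ℂ (f : (Fin 2 → ℂ) → ℂ) t v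
    rw [fderiv_const_mul (YA01_diff f t) c]
    rfl
  map_one_eq_zero' := by
    apply Subtype.ext
    funext t
    show fderiv ℂ (fun _ : Fin 2 → ℂ => (1 : ℂ)) t v = 0
    rw [fderiv_const_apply]
    rfl
  leibniz' := by
    intro f g
    apply Subtype.ext
    funext t
    show fderiv ℂ (fun t => (f : (Fin 2 → ℂ) → ℂ) t * (g : (Fin 2 → ℂ) → ℂ) t) t v =
      (f : (Fin 2 → ℂ) → ℂ) t * fderiv ℂ (g : (Fin 2 → ℂ) → ℂ) t v +
        (g : (Fin 2 → ℂ) → ℂ) t * fderiv ℂ (f : (Fin 2 → ℂ) → ℂ) t v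
    rw [fderiv_fun_mul (YA01_diff f t) (YA01_diff g t)]
    rfl

theorem dE_apply (v : Fin 2 → ℂ) (f : E2) (t : Fin 2 → ℂ) : (dE v f : (Fin 2 → ℂ) → ℂ) t = fderiv ℂ (f : (Fin 2 → ℂ) → ℂ) t v := rfl

/-- Y0d. -/
theorem dE_add (v w : Fin 2 → ℂ) (f : E2) : dE (v + w) f = dE v f + dE w f := by
  apply Subtype.ext
  funext t
  show fderiv ℂ (f : (Fin 2 → ℂ) → ℂ) t (v + w) =
    fderiv ℂ (f : (Fin 2 → ℂ) → ℂ) t v + fderiv ℂ (f : (Fin 2 → ℂ) → ℂ) t w
  rw [map_add]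

theorem dE_smul (a : ℂ) (v : Fin 2 → ℂ) (f : E2) : dE (a • v) f = a • dE v f := by
  apply Subtype.ext
  funext t
  show fderiv ℂ (f : (Fin 2 → ℂ) → ℂ) t (a • v) = a * fderiv ℂ (f : (Fin 2 → ℂ) → ℂ) t v
  rw [map_smul, smul_eq_mul]

theorem YA01_snd (v w : Fin 2 → ℂ) (f : E2) (t : Fin 2 → ℂ) :
    (dE v (dE w f) : (Fin 2 → ℂ) → ℂ) t =
      fderiv ℂ (fderiv ℂ (f : (Fin 2 → ℂ) → ℂ)) t v w := by
  have h1 : AnalyticOnNhd ℂ (fderiv ℂ (f : (Fin 2 → ℂ) → ℂ)) Set.univ := f.2.fderiv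
  have h2 : DifferentiableAt ℂ (fderiv ℂ (f : (Fin 2 → ℂ) → ℂ)) t :=
    (h1 t (Set.mem_univ t)).differentiableAt
  show fderiv ℂ (fun t => fderiv ℂ (f : (Fin 2 → ℂ) → ℂ) t w) t v = _
  have h3 : HasFDerivAt (fun t => fderiv ℂ (f : (Fin 2 → ℂ) → ℂ) t w)
      ((ContinuousLinearMap.apply ℂ ℂ w).comp
        (fderiv ℂ (fderiv ℂ (f : (Fin 2 → ℂ) → ℂ)) t)) t :=
    (ContinuousLinearMap.apply ℂ ℂ w).hasFDerivAt.comp t h2.hasFDerivAt
  rw [h3.fderiv]
  rfl

/-- Y0e. PROOF. Symmetry of the second derivative (`ContDiffAt.isSymmSndFDerivAt` or `second_derivative_symmetric`; an analytic function is smooth). -/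
theorem dE_comm (v w : Fin 2 → ℂ) (f : E2) : dE v (dE w f) = dE w (dE v f) := by
  apply Subtype.ext
  funext t
  rw [YA01_snd, YA01_snd]
  have h1 : ContDiffAt ℂ ⊤ (f : (Fin 2 → ℂ) → ℂ) t := (f.2 t (Set.mem_univ t)).contDiffAt
  exact (h1.isSymmSndFDerivAt le_top).eq v w

/-- Y0f. along a line. -/
theorem dE_line (v : Fin 2 → ℂ) (f : E2) (t : Fin 2 → ℂ) (y : ℂ) :
    HasDerivAt (fun y : ℂ => (f : (Fin 2 → ℂ) → ℂ) (t + y • v)) ((dE v f : (Fin 2 → ℂ) → ℂ) (t + y • v)) y := by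
  have h1 : HasDerivAt (fun y : ℂ => t + y • v) v y := by
    have h2 := ((hasDerivAt_id y).smul_const v).const_add t
    rwa [one_smul] at h2
  exact (YA01_diff f (t + y • v)).hasFDerivAt.comp_hasDerivAt y h1

theorem YA01_shift (w : Fin 2 → ℂ) (f : E2) :
    AnalyticOnNhd ℂ (fun t => (f : (Fin 2 → ℂ) → ℂ) (t + w)) Set.univ := by
  intro t _
  have h1 : AnalyticAt ℂ (fun t : Fin 2 → ℂ => t + w) t := analyticAt_id.add analyticAt_const
  exact AnalyticAt.comp (g := (f : (Fin 2 → ℂ) → ℂ)) (f := fun t : Fin 2 → ℂ => t + w) (x := t)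
    (f.2 (t + w) (Set.mem_univ _)) h1

/-- the translation `f ↦ f(· + w)` -/
def trE (w : Fin 2 → ℂ) : E2 ≃ₐ[ℂ] E2 where
  toFun f := ⟨fun t => (f : (Fin 2 → ℂ) → ℂ) (t + w), by
    exact YA01_shift w f⟩
  invFun f := ⟨fun t => (f : (Fin 2 → ℂ) → ℂ) (t - w), by
    have := YA01_shift (-w) f
    simp only [← sub_eq_add_neg] at this
    exact this⟩
  left_inv := by
    intro f
    apply Subtype.ext
    funext t
    show (f : (Fin 2 → ℂ) → ℂ) (t - w + w) = _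
    rw [sub_add_cancel]
  right_inv := by
    intro f
    apply Subtype.ext
    funext t
    show (f : (Fin 2 → ℂ) → ℂ) (t + w - w) = _
    rw [add_sub_cancel_right]
  map_mul' := by
    intro f g
    rfl
  map_add' := by
    intro f g
    rfl
  commutes' := by
    intro c
    rfl

theorem trE_apply (w : Fin 2 → ℂ) (f : E2) (t : Fin 2 → ℂ) : (trE w f : (Fin 2 → ℂ) → ℂ) t = (f : (Fin 2 → ℂ) → ℂ) (t + w) := rfl

/-- the coordinate functions -/
def co (l : Fin 2) : E2 := ⟨fun t => t l, by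
  intro t _
  exact (ContinuousLinearMap.proj (R := ℂ) (φ := fun _ : Fin 2 => ℂ) l).analyticAt t⟩

theorem co_apply (l : Fin 2) (t : Fin 2 → ℂ) : (co l : (Fin 2 → ℂ) → ℂ) t = t l := rfl

theorem dE_co (v : Fin 2 → ℂ) (l : Fin 2) : dE v (co l) = algebraMap ℂ E2 (v l) := by
  apply Subtype.ext
  funext t
  show fderiv ℂ (fun t : Fin 2 → ℂ => t l) t v = v l
  have h1 : HasFDerivAt (fun t : Fin 2 → ℂ => t l)
      (ContinuousLinearMap.proj (R := ℂ) (φ := fun _ : Fin 2 => ℂ) l) t :=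
    (ContinuousLinearMap.proj (R := ℂ) (φ := fun _ : Fin 2 => ℂ) l).hasFDerivAt
  rw [h1.fderiv]
  rfl

end Pool.Agent.MSW

end
end

/-! ### the field of fractions -/

section

open Complex Filter Topology

noncomputable section

namespace Pool.Agent.MSW

/-- Y1a. PROOF. `δ'(a/s) = (δ a s - a δ s)/s^2`. Well defined, additive, `ℂ`-linear, Leibniz. (If Mathlib has a lift of derivations to localisations use it.) For example: the ring homomorphism `A → FractionRing A [ε]` (`TrivSqZeroExt` or `DualNumber`), `a ↦ a + δ(a) ε`, sends nonzero elements to units, so it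
extends to `FractionRing A` (`IsLocalization.lift`); the second component is the derivation. -/
theorem der_lift (A : Type) [CommRing A] [IsDomain A] [Algebra ℂ A] (δ : Derivation ℂ A A) :
    ∃ δ' : Derivation ℂ (FractionRing A) (FractionRing A), ∀ a : A, δ' (algebraMap A (FractionRing A) a) = algebraMap A (FractionRing A) (δ a) := by
  have hfe : Algebra.FormallyEtale A (FractionRing A) :=
    Algebra.FormallyEtale.of_isLocalization (Rₘ := FractionRing A) (nonZeroDivisors A)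
  let δ₁ : Derivation ℂ A (FractionRing A) := (Algebra.linearMap A (FractionRing A)).compDer δ
  let l : Ω[A⁄ℂ] →ₗ[A] FractionRing A := δ₁.liftKaehlerDifferential
  let L : TensorProduct A (FractionRing A) (Ω[A⁄ℂ]) →ₗ[FractionRing A] FractionRing A := l.liftBaseChange (FractionRing A)
  let L2 : Ω[(FractionRing A)⁄ℂ] →ₗ[FractionRing A] FractionRing A :=
    L ∘ₗ (KaehlerDifferential.tensorKaehlerEquivOfFormallyEtale ℂ A (FractionRing A)).symm.toLinearMap
  refine ⟨L2.compDer (KaehlerDifferential.D ℂ (FractionRing A)), fun a => ?_⟩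
  have h1 : (L2.compDer (KaehlerDifferential.D ℂ (FractionRing A))) (algebraMap A (FractionRing A) a)
      = L ((KaehlerDifferential.tensorKaehlerEquivOfFormallyEtale ℂ A (FractionRing A)).symm
          (KaehlerDifferential.D ℂ (FractionRing A) (algebraMap A (FractionRing A) a))) := rfl
  rw [h1, KaehlerDifferential.tensorKaehlerEquivOfFormallyEtale_symm_D_algebraMap]
  have h2 : L ((1 : FractionRing A) ⊗ₜ[A] (KaehlerDifferential.D ℂ A a)) = (1 : FractionRing A) • l (KaehlerDifferential.D ℂ A a) :=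
    LinearMap.liftBaseChange_tmul (FractionRing A) l (1 : FractionRing A) (KaehlerDifferential.D ℂ A a)
  rw [h2, one_smul]
  exact Derivation.liftKaehlerDifferential_comp_D δ₁ a

/-- the field of fractions of the ring of entire functions -/
abbrev M2 : Type := FractionRing E2

/-- an entire function as an element of the field of fractions -/
def em (f : E2) : M2 := algebraMap E2 M2 f

/-- the derivative in the direction `v` -/
def dM (v : Fin 2 → ℂ) : Derivation ℂ M2 M2 := Classical.choose (der_lift E2 (dE v))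

theorem dM_em (v : Fin 2 → ℂ) (f : E2) : dM v (em f) = em (dE v f) := Classical.choose_spec (der_lift E2 (dE v)) f

/-- the translation by `w` -/
def trM (w : Fin 2 → ℂ) : M2 →+* M2 := (IsFractionRing.ringEquivOfRingEquiv (trE w).toRingEquiv : M2 ≃+* M2).toRingHom

/-- Y1b. -/
theorem trM_em (w : Fin 2 → ℂ) (f : E2) : trM w (em f) = em (trE w f) := by
  exact IsFractionRing.ringEquivOfRingEquiv_algebraMap (trE w).toRingEquiv f

theorem trM_surj (w : Fin 2 → ℂ) : Function.Surjective (trM w) := by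
  exact (IsFractionRing.ringEquivOfRingEquiv (trE w).toRingEquiv : M2 ≃+* M2).surjective

theorem em_C (a : ℂ) : em (algebraMap ℂ E2 a) = algebraMap ℂ M2 a := by
  exact (IsScalarTower.algebraMap_apply ℂ E2 M2 a).symm

theorem trM_C (w : Fin 2 → ℂ) (a : ℂ) : trM w (algebraMap ℂ M2 a) = algebraMap ℂ M2 a := by
  rw [← em_C, trM_em, AlgEquiv.commutes]

theorem em_inj (f g : E2) (h : em f = em g) : f = g := by
  exact IsFractionRing.injective E2 M2 h

theorem em_ne (f : E2) (h : f ≠ 0) : em f ≠ 0 := by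
  intro h0
  apply h
  apply em_inj
  rw [h0]
  exact (map_zero (algebraMap E2 M2)).symm

/-- Y1c. -/
theorem exists_frac (f : M2) : ∃ g h : E2, h ≠ 0 ∧ f = em g / em h := by
  obtain ⟨g, h, hh, hf⟩ := IsFractionRing.div_surjective (A := E2) f
  exact ⟨g, h, nonZeroDivisors.ne_zero hh, hf.symm⟩

theorem ya03_em_mul (f g : E2) : em (f * g) = em f * em g := map_mul _ _ _

theorem ya03_em_add (f g : E2) : em (f + g) = em f + em g := map_add _ _ _

theorem ya03_em_sub (f g : E2) : em (f - g) = em f - em g := map_sub _ _ _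

theorem ya03_em_smul (a : ℂ) (f : E2) : em (a • f) = a • em f := by
  rw [Algebra.smul_def, Algebra.smul_def, ya03_em_mul, em_C]

/-- a derivation which vanishes on the entire functions vanishes -/
theorem ya03_der_zero (D : Derivation ℂ M2 M2) (h0 : ∀ g : E2, D (em g) = 0) (f : M2) :
    D f = 0 := by
  obtain ⟨g, h, hh, hf⟩ := exists_frac f
  have he := em_ne h hh
  have h1 : f * em h = em g := by
    rw [hf]
    exact div_mul_cancel₀ _ he
  have h2 := congrArg D h1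
  rw [Derivation.leibniz, h0, h0, smul_zero, zero_add, smul_eq_mul] at h2
  exact (mul_eq_zero.1 h2).resolve_left he

/-- Y1d. PROOF. `f em h = em g`; apply `dM v`: `dM v f em h + f em (dE v h) = em (dE v g)`; multiply by `em h`. -/
theorem dM_frac (v : Fin 2 → ℂ) (f : M2) (g h : E2) (hh : h ≠ 0) (hf : f = em g / em h) :
    dM v f = em (dE v g * h - g * dE v h) / em (h * h) := by
  have he := em_ne h hh
  have h1 : f * em h = em g := by
    rw [hf]
    exact div_mul_cancel₀ _ he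
  have h2 := congrArg (dM v) h1
  rw [Derivation.leibniz, dM_em, dM_em, smul_eq_mul, smul_eq_mul] at h2
  rw [ya03_em_sub, ya03_em_mul, ya03_em_mul, ya03_em_mul, eq_div_iff (mul_ne_zero he he), ← h1]
  linear_combination (em h) * h2

/-- Y1e. PROOF. On `em` by `dE_add` etc., in general `dM_frac`. -/
theorem dM_add (v w : Fin 2 → ℂ) (f : M2) : dM (v + w) f = dM v f + dM w f := by
  have h := ya03_der_zero (dM (v + w) - (dM v + dM w)) (fun g => by
    rw [Derivation.sub_apply, Derivation.add_apply, dM_em, dM_em, dM_em, dE_add, ya03_em_add,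
      sub_self]) f
  rw [Derivation.sub_apply, Derivation.add_apply] at h
  exact sub_eq_zero.1 h

theorem dM_smul (a : ℂ) (v : Fin 2 → ℂ) (f : M2) : dM (a • v) f = a • dM v f := by
  have h := ya03_der_zero (dM (a • v) - a • dM v) (fun g => by
    rw [Derivation.sub_apply, Derivation.smul_apply, dM_em, dM_em, dE_smul, ya03_em_smul,
      sub_self]) f
  rw [Derivation.sub_apply, Derivation.smul_apply] at h
  exact sub_eq_zero.1 h

/-- Y1f. PROOF. The commutator of two derivations is a derivation, it vanishes on `em` (`dE_comm`), so on fractions. -/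
theorem dM_comm (v w : Fin 2 → ℂ) (f : M2) : dM v (dM w f) = dM w (dM v f) := by
  have h := ya03_der_zero ⁅dM v, dM w⁆ (fun g => by
    rw [Derivation.commutator_apply, dM_em, dM_em, dM_em, dM_em, dE_comm, sub_self]) f
  rw [Derivation.commutator_apply] at h
  exact sub_eq_zero.1 h

/-- Y1g. PROOF. `dM_frac` and `em_inj`. -/
theorem dM_const (v : Fin 2 → ℂ) (κ : ℂ) (f : M2) (g h : E2) (hh : h ≠ 0) (hf : f = em g / em h) (hd : dM v f = algebraMap ℂ M2 κ) :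
    dE v g * h - g * dE v h = κ • (h * h) := by
  have he := em_ne (h * h) (mul_ne_zero hh hh)
  rw [dM_frac v f g h hh hf, div_eq_iff he, ← em_C, ← ya03_em_mul] at hd
  rw [Algebra.smul_def]
  exact em_inj _ _ hd

/-- Y1h. PROOF. `trM_em`, clear denominators, `em_inj`, evaluate. -/
theorem trM_const (w : Fin 2 → ℂ) (ν : ℂ) (f : M2) (g h : E2) (hh : h ≠ 0) (hf : f = em g / em h) (ht : trM w f = f + algebraMap ℂ M2 ν)
    (t : Fin 2 → ℂ) : (g : (Fin 2 → ℂ) → ℂ) (t + w) * (h : (Fin 2 → ℂ) → ℂ) t =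
      ((g : (Fin 2 → ℂ) → ℂ) t + ν * (h : (Fin 2 → ℂ) → ℂ) t) * (h : (Fin 2 → ℂ) → ℂ) (t + w) := by
  have he := em_ne h hh
  have h1 : f * em h = em g := by
    rw [hf]
    exact div_mul_cancel₀ _ he
  have h2 := congrArg (trM w) h1
  rw [map_mul, trM_em, trM_em, ht, ← em_C] at h2
  have h3 : em (trE w g * h) = em ((g + algebraMap ℂ E2 ν * h) * trE w h) := by
    rw [ya03_em_mul, ya03_em_mul, ya03_em_add, ya03_em_mul, ← h2, ← h1]
    ring
  have h4 := em_inj _ _ h3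
  have h5 := congrFun (congrArg (fun x : E2 => (x : (Fin 2 → ℂ) → ℂ)) h4) t
  exact h5

end Pool.Agent.MSW

end
end

/-! ### functions with constant derivatives -/

section

open Complex Filter Topology

noncomputable section

namespace Pool.Agent.MSW

theorem YA04_one (G H G' H' : ℂ → ℂ) (hG : ∀ z, HasDerivAt G (G' z) z) (hH : ∀ z, HasDerivAt H (H' z) z)
    (κ : ℂ) (hW : ∀ z, G' z * H z - G z * H' z = κ * (H z * H z)) {G0 H0 : ℂ} (h0 : H 0 ≠ 0)
    (eG : G 0 = G0) (eH : H 0 = H0) (y : ℂ) :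
    G y * H0 - G0 * H y = κ * y * H0 * H y := by
  subst eG
  subst eH
  have hGd : Differentiable ℂ G := fun z => (hG z).differentiableAt
  have hHd : Differentiable ℂ H := fun z => (hH z).differentiableAt
  -- the quotient is affine near zero
  have hne : ∀ᶠ z in 𝓝 (0 : ℂ), H z ≠ 0 := hHd.continuous.continuousAt.eventually_ne h0
  obtain ⟨ε, hε, hball⟩ := Metric.eventually_nhds_iff_ball.1 hne
  have hF : ∀ z ∈ Metric.ball (0 : ℂ) ε, HasDerivWithinAt (fun z => G z / H z - κ * z) 0 (Metric.ball (0 : ℂ) ε) z := by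
    intro z hz
    have hz0 := hball z hz
    have h1 := ((hG z).div (hH z) hz0).sub ((hasDerivAt_id z).const_mul κ)
    have h2 : (G' z * H z - G z * H' z) / H z ^ 2 - κ * 1 = 0 := by
      rw [hW z]
      field_simp
      ring
    rw [h2] at h1
    exact h1.hasDerivWithinAt
  have hconst : ∀ z ∈ Metric.ball (0 : ℂ) ε, G z / H z - κ * z = G 0 / H 0 := by
    intro z hz
    have hd : DifferentiableOn ℂ (fun z => G z / H z - κ * z) (Metric.ball (0 : ℂ) ε) :=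
      fun w hw => (hF w hw).differentiableWithinAt
    have hf : ∀ w ∈ Metric.ball (0 : ℂ) ε, fderivWithin ℂ (fun z => G z / H z - κ * z) (Metric.ball (0 : ℂ) ε) w = 0 := by
      intro w hw
      have h3 := (hF w hw).hasFDerivWithinAt
      have h4 := h3.fderivWithin (Metric.isOpen_ball.uniqueDiffWithinAt hw)
      rw [h4]
      ext
      simp
    have h5 := (convex_ball (0 : ℂ) ε).is_const_of_fderivWithin_eq_zero hd hf hz (Metric.mem_ball_self hε)
    simpa using h5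
  have hE : AnalyticOnNhd ℂ (fun y => G y * H 0 - G 0 * H y - κ * y * H 0 * H y) Set.univ := by
    have hd : Differentiable ℂ (fun y => G y * H 0 - G 0 * H y - κ * y * H 0 * H y) := by
      fun_prop
    exact fun z _ => (hd.analyticAt z)
  have hev : (fun y => G y * H 0 - G 0 * H y - κ * y * H 0 * H y) =ᶠ[𝓝 (0 : ℂ)] 0 := by
    filter_upwards [Metric.ball_mem_nhds (0 : ℂ) hε] with z hz
    have h6 := hconst z hz
    have h7 := hball z hz
    have h8 : G z / H z = G 0 / H 0 + κ * z := by linear_combination h6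
    rw [div_eq_iff h7] at h8
    rw [h8]
    simp only [Pi.zero_apply]
    field_simp
    ring
  have h9 := hE.eqOn_zero_of_preconnected_of_eventuallyEq_zero isPreconnected_univ (Set.mem_univ (0 : ℂ)) hev
  have h10 := h9 (Set.mem_univ y)
  simp only [Pi.zero_apply] at h10
  linear_combination h10

/-- Y2a. PROOF. `G(y) = g(t + y v)`, `H(y) = h(t + y v)` are entire functions of `y` with `G' H - G H' = κ H^2` (`dE_line`). Near `y = 0` `H ≠ 0` and `G/H - κ y` has derivative `0`, so it is constant on a small ball: `E(y) = H(0) G(y) - G(0) H(y) - κ y H(0) H(y)` vanishes near `0`, so everywhere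
(identity theorem). -/
theorem line_const (g h : E2) (v : Fin 2 → ℂ) (κ : ℂ) (hq : dE v g * h - g * dE v h = κ • (h * h)) (t : Fin 2 → ℂ)
    (ht : (h : (Fin 2 → ℂ) → ℂ) t ≠ 0) (y : ℂ) :
    (g : (Fin 2 → ℂ) → ℂ) (t + y • v) * (h : (Fin 2 → ℂ) → ℂ) t - (g : (Fin 2 → ℂ) → ℂ) t * (h : (Fin 2 → ℂ) → ℂ) (t + y • v) =
      κ * y * (h : (Fin 2 → ℂ) → ℂ) t * (h : (Fin 2 → ℂ) → ℂ) (t + y • v) := by
  have hG : ∀ z : ℂ, HasDerivAt (fun y : ℂ => (g : (Fin 2 → ℂ) → ℂ) (t + y • v))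
      ((dE v g : (Fin 2 → ℂ) → ℂ) (t + z • v)) z := fun z => dE_line v g t z
  have hH : ∀ z : ℂ, HasDerivAt (fun y : ℂ => (h : (Fin 2 → ℂ) → ℂ) (t + y • v))
      ((dE v h : (Fin 2 → ℂ) → ℂ) (t + z • v)) z := fun z => dE_line v h t z
  have hW : ∀ z : ℂ, (dE v g : (Fin 2 → ℂ) → ℂ) (t + z • v) * (h : (Fin 2 → ℂ) → ℂ) (t + z • v) -
      (g : (Fin 2 → ℂ) → ℂ) (t + z • v) * (dE v h : (Fin 2 → ℂ) → ℂ) (t + z • v) =
      κ * ((h : (Fin 2 → ℂ) → ℂ) (t + z • v) * (h : (Fin 2 → ℂ) → ℂ) (t + z • v)) := by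
    intro z
    have := congrArg (fun F : E2 => (F : (Fin 2 → ℂ) → ℂ) (t + z • v)) hq
    exact this
  exact YA04_one (fun y => (g : (Fin 2 → ℂ) → ℂ) (t + y • v)) (fun y => (h : (Fin 2 → ℂ) → ℂ) (t + y • v))
    _ _ hG hH κ hW (by simpa using ht) (by simp) (by simp) y

/-- Y2b. PROOF. `exists_frac`, `dM_const` (κ = 0), `line_const` at a point `t` with `h t ≠ 0`, `y = 1`, all `v`: `g = (g t / h t) h`. -/
theorem const_of_dM (f : M2) (h : ∀ v : Fin 2 → ℂ, dM v f = 0) : ∃ a : ℂ, f = algebraMap ℂ M2 a := by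
  obtain ⟨g, k, hk, hf⟩ := exists_frac f
  obtain ⟨t, ht⟩ := (E2.dense_ne k hk).nonempty
  have ht' : (k : (Fin 2 → ℂ) → ℂ) t ≠ 0 := ht
  have hline : ∀ s : Fin 2 → ℂ, (g : (Fin 2 → ℂ) → ℂ) s * (k : (Fin 2 → ℂ) → ℂ) t =
      (g : (Fin 2 → ℂ) → ℂ) t * (k : (Fin 2 → ℂ) → ℂ) s := by
    intro s
    have h1 := dM_const (s - t) 0 f g k hk hf (by rw [h, map_zero])
    have h2 := line_const g k (s - t) 0 h1 t ht' 1
    rw [one_smul, add_sub_cancel] at h2
    linear_combination h2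
  refine ⟨(g : (Fin 2 → ℂ) → ℂ) t / (k : (Fin 2 → ℂ) → ℂ) t, ?_⟩
  have hg : g = algebraMap ℂ E2 ((g : (Fin 2 → ℂ) → ℂ) t / (k : (Fin 2 → ℂ) → ℂ) t) * k := by
    apply Subtype.ext
    funext s
    have h3 := hline s
    change (g : (Fin 2 → ℂ) → ℂ) s =
      ((g : (Fin 2 → ℂ) → ℂ) t / (k : (Fin 2 → ℂ) → ℂ) t) * (k : (Fin 2 → ℂ) → ℂ) s
    rw [div_mul_eq_mul_div, eq_div_iff ht', h3]
  have hek : em k ≠ 0 := em_ne k hk
  rw [hf, div_eq_iff hek, ← em_C]
  conv_lhs => rw [hg]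
  unfold em
  rw [map_mul]

/-- Y2c. one variable. PROOF. `W = (G' H - G H')/H^2` is analytic near `y0`. For `x` as in the hypothesis, small, with `H(y0 + x) ≠ 0`: near `y0` `G(y+x)/H(y+x) = G(y)/H(y) + ν`, so the derivatives agree: `W(y0 + x) = W(y0)`. So `W = W(y0) =: κ` at points `≠ y0` accumulating at `y0`, so near `y0`
(`AnalyticAt.frequently_eq_iff_eventually_eq`), and `G' H - G H' - κ H^2` vanishes near `y0`, so everywhere. -/
theorem one_var_periods (G H : ℂ → ℂ) (hG : Differentiable ℂ G) (hH : Differentiable ℂ H) (y0 : ℂ) (h0 : H y0 ≠ 0)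
    (hx : ∀ ε : ℝ, 0 < ε → ∃ x : ℂ, x ≠ 0 ∧ ‖x‖ < ε ∧ ∃ ν : ℂ, ∀ y, G (y + x) * H y - G y * H (y + x) = ν * H y * H (y + x)) :
    ∃ κ : ℂ, ∀ y, deriv G y * H y - G y * deriv H y = κ * H y ^ 2 := by
  set κ : ℂ := (deriv G y0 * H y0 - G y0 * deriv H y0) / H y0 ^ 2 with hκ
  have hκ' : κ * H y0 ^ 2 = deriv G y0 * H y0 - G y0 * deriv H y0 := by
    rw [hκ]
    field_simp
  have key : ∀ x ν : ℂ, (∀ y, G (y + x) * H y - G y * H (y + x) = ν * H y * H (y + x)) →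
      deriv G (y0 + x) * H (y0 + x) - G (y0 + x) * deriv H (y0 + x) = κ * H (y0 + x) ^ 2 := by
    intro x ν h
    have dG := (hG y0).hasDerivAt
    have dH := (hH y0).hasDerivAt
    have dGx := (hG (y0 + x)).hasDerivAt.comp_add_const y0 x
    have dHx := (hH (y0 + x)).hasDerivAt.comp_add_const y0 x
    have d1 := ((dGx.mul dH).sub (dG.mul dHx)).sub ((dH.const_mul ν).mul dHx)
    have d2 : HasDerivAt (fun _ : ℂ => (0 : ℂ)) 0 y0 := hasDerivAt_const _ _
    have e1 := d1.unique (d2.congr_of_eventuallyEq (Filter.Eventually.of_forall fun y => by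
      have := h y
      simp only [Pi.sub_apply, Pi.mul_apply]
      linear_combination this))
    have e2 := h y0
    have e3 : (deriv G (y0 + x) * H (y0 + x) - G (y0 + x) * deriv H (y0 + x)) * H y0 ^ 2 =
        (deriv G y0 * H y0 - G y0 * deriv H y0) * H (y0 + x) ^ 2 := by
      linear_combination (H y0 * H (y0 + x)) * e1 -
        (deriv H y0 * H (y0 + x) + H y0 * deriv H (y0 + x)) * e2
    rw [← hκ'] at e3
    have h2 : H y0 ^ 2 ≠ 0 := pow_ne_zero _ h0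
    apply mul_right_cancel₀ h2
    rw [e3]
    ring
  refine ⟨κ, ?_⟩
  have hGa : ∀ z, AnalyticAt ℂ G z := fun z => hG.analyticAt z
  have hHa : ∀ z, AnalyticAt ℂ H z := fun z => hH.analyticAt z
  have hEa : AnalyticOnNhd ℂ (fun y => deriv G y * H y - G y * deriv H y) Set.univ := fun z _ =>
    ((hGa z).deriv.mul (hHa z)).sub ((hGa z).mul (hHa z).deriv)
  have hKa : AnalyticOnNhd ℂ (fun y => κ * H y ^ 2) Set.univ := fun z _ =>
    analyticAt_const.mul ((hHa z).pow 2)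
  have hfreq : ∃ᶠ y in 𝓝[≠] y0, deriv G y * H y - G y * deriv H y = κ * H y ^ 2 := by
    rw [Filter.frequently_iff]
    intro U hU
    obtain ⟨ε, hε, hU'⟩ := Metric.mem_nhdsWithin_iff.1 hU
    obtain ⟨x, hx0, hxε, ν, hν⟩ := hx ε hε
    refine ⟨y0 + x, hU' ⟨?_, ?_⟩, key x ν hν⟩
    · rw [Metric.mem_ball, dist_eq_norm, add_sub_cancel_left]
      exact hxε
    · simpa using hx0
  have := hEa.eq_of_frequently_eq hKa hfreq
  intro y
  exact congrFun this y

/-- Y2d. PROOF. Pigeonhole: the `(N+1)^3` points `∑ ρ_l n_l`, `0 ≤ n_l ≤ N`, lie in a square of side `≤ C N` in `ℂ`; divide it into `N^2` squares of side `≤ C` ... with `N^2 · K^2 < (N+1)^3` squares of side `C N/(N K)`, `K` fixed large, `N > K^2`: two different `n` in the same square, their difference `n ≠ 0` has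
`‖∑ ρ_l n_l‖ ≤ 2 C/K`. It is `≠ 0` by `hρ`. -/
theorem small_comb (ρ : Fin 3 → ℂ) (hρ : ∀ n : Fin 3 → ℤ, ∑ l, ρ l * (n l : ℂ) = 0 → n = 0) (ε : ℝ) (hε : 0 < ε) :
    ∃ n : Fin 3 → ℤ, ∑ l, ρ l * (n l : ℂ) ≠ 0 ∧ ‖∑ l, ρ l * (n l : ℂ)‖ < ε := by
  classical
  have hδ : (0 : ℝ) < ε / 2 := by positivity
  obtain ⟨K, hK⟩ := exists_nat_ge ((∑ l, ‖ρ l‖) / (ε / 2))
  have hK' : (∑ l, ‖ρ l‖) ≤ K * (ε / 2) := by rwa [div_le_iff₀ hδ] at hK
  obtain ⟨N, hN⟩ : ∃ N : ℕ, N = (2 * K + 1) ^ 2 := ⟨_, rfl⟩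
  let z : (Fin 3 → Fin (N + 1)) → ℂ := fun x => ∑ l, ρ l * ((x l : ℕ) : ℂ)
  have hz : ∀ x, ‖z x‖ ≤ K * N * (ε / 2) := by
    intro x
    calc ‖z x‖ ≤ ∑ l, ‖ρ l * ((x l : ℕ) : ℂ)‖ := norm_sum_le _ _
      _ ≤ ∑ l, ‖ρ l‖ * N := by
          refine Finset.sum_le_sum fun l _ => ?_
          rw [norm_mul, Complex.norm_natCast]
          have h1 : ((x l : ℕ) : ℝ) ≤ N := by exact_mod_cast Nat.lt_succ_iff.mp (x l).2
          exact mul_le_mul_of_nonneg_left h1 (norm_nonneg _)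
      _ = (∑ l, ‖ρ l‖) * N := by rw [Finset.sum_mul]
      _ ≤ (K * (ε / 2)) * N := mul_le_mul_of_nonneg_right hK' (Nat.cast_nonneg _)
      _ = K * N * (ε / 2) := by ring
  let f : (Fin 3 → Fin (N + 1)) → ℤ × ℤ := fun x => (⌊(z x).re / (ε / 2)⌋, ⌊(z x).im / (ε / 2)⌋)
  have hfl : ∀ a : ℝ, |a| ≤ K * N * (ε / 2) → ⌊a / (ε / 2)⌋ ∈ Finset.Icc (-((K * N : ℕ) : ℤ)) ((K * N : ℕ) : ℤ) := by
    intro a ha
    have h1 : |a / (ε / 2)| ≤ K * N := by
      rw [abs_div, abs_of_pos hδ, div_le_iff₀ hδ]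
      exact ha
    rw [abs_le] at h1
    rw [Finset.mem_Icc]
    refine ⟨Int.le_floor.mpr ?_, ?_⟩
    · push_cast
      exact h1.1
    · have h2 : (⌊a / (ε / 2)⌋ : ℝ) ≤ ((K * N : ℕ) : ℤ) := (Int.floor_le _).trans (by push_cast; exact h1.2)
      exact_mod_cast h2
  have hcard : (Finset.Icc (-((K * N : ℕ) : ℤ)) ((K * N : ℕ) : ℤ) ×ˢ Finset.Icc (-((K * N : ℕ) : ℤ)) ((K * N : ℕ) : ℤ)).card
      < (Finset.univ : Finset (Fin 3 → Fin (N + 1))).card := by
    rw [Finset.card_product, Int.card_Icc, Finset.card_univ, Fintype.card_fun, Fintype.card_fin, Fintype.card_fin]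
    have h1 : (((K * N : ℕ) : ℤ) + 1 - -((K * N : ℕ) : ℤ)).toNat = 2 * (K * N) + 1 := by omega
    rw [h1]
    have hN1 : 1 ≤ N := by
      rw [hN]
      exact Nat.one_le_pow _ _ (by omega)
    have h2 : 2 * (K * N) + 1 ≤ (2 * K + 1) * N := by nlinarith
    calc (2 * (K * N) + 1) * (2 * (K * N) + 1) ≤ ((2 * K + 1) * N) * ((2 * K + 1) * N) := Nat.mul_le_mul h2 h2
      _ = (2 * K + 1) ^ 2 * N ^ 2 := by ring
      _ = N ^ 3 := by rw [← hN]; ring
      _ < (N + 1) ^ 3 := Nat.pow_lt_pow_left (Nat.lt_succ_self N) (by norm_num)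
  obtain ⟨x, -, y, -, hxy, hf⟩ := Finset.exists_ne_map_eq_of_card_lt_of_maps_to (f := f) hcard
    (fun x _ => Finset.mem_coe.mpr (Finset.mem_product.mpr
      ⟨hfl _ ((Complex.abs_re_le_norm _).trans (hz x)), hfl _ ((Complex.abs_im_le_norm _).trans (hz x))⟩))
  have hf1 : ⌊(z x).re / (ε / 2)⌋ = ⌊(z y).re / (ε / 2)⌋ := congrArg Prod.fst hf
  have hf2 : ⌊(z x).im / (ε / 2)⌋ = ⌊(z y).im / (ε / 2)⌋ := congrArg Prod.snd hf
  have hd : ∀ a b : ℝ, ⌊a / (ε / 2)⌋ = ⌊b / (ε / 2)⌋ → |a - b| < ε / 2 := by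
    intro a b hab
    have h1 := Int.abs_sub_lt_one_of_floor_eq_floor hab
    rw [← sub_div, abs_div, abs_of_pos hδ, div_lt_one hδ] at h1
    exact h1
  refine ⟨fun l => ((x l : ℕ) : ℤ) - ((y l : ℕ) : ℤ), ?_, ?_⟩
  · intro h0
    have h1 := hρ _ h0
    apply hxy
    funext l
    have h2 := congrFun h1 l
    simp only [Pi.zero_apply] at h2
    apply Fin.ext
    omega
  · have h1 : ∑ l, ρ l * ((((x l : ℕ) : ℤ) - ((y l : ℕ) : ℤ) : ℤ) : ℂ) = z x - z y := by
      show _ = (∑ l, ρ l * ((x l : ℕ) : ℂ)) - ∑ l, ρ l * ((y l : ℕ) : ℂ)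
      rw [← Finset.sum_sub_distrib]
      refine Finset.sum_congr rfl fun l _ => ?_
      push_cast
      ring
    rw [h1]
    calc ‖z x - z y‖ ≤ |(z x - z y).re| + |(z x - z y).im| := Complex.norm_le_abs_re_add_abs_im _
      _ < ε / 2 + ε / 2 := by
          rw [Complex.sub_re, Complex.sub_im]
          exact add_lt_add (hd _ _ hf1) (hd _ _ hf2)
      _ = ε := by ring

end Pool.Agent.MSW

end
end

/-! ### rigidity -/

section

open Complex Filter Topology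

noncomputable section

namespace Pool.Agent.MSW

/-- Y3a. a linear function of the coordinates -/
def lE (a : Fin 2 → ℂ) : E2 := ∑ l, a l • co l

theorem dE_lE (v a : Fin 2 → ℂ) : dE v (lE a) = algebraMap ℂ E2 (∑ l, a l * v l) := by
  rw [lE, map_sum, map_sum]
  refine Finset.sum_congr rfl fun l _ => ?_
  rw [Derivation.map_smul, dE_co, map_mul, Algebra.smul_def]

theorem trE_lE (w a : Fin 2 → ℂ) : trE w (lE a) = lE a + algebraMap ℂ E2 (∑ l, a l * w l) := by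
  rw [lE, map_sum, map_sum, ← Finset.sum_add_distrib]
  refine Finset.sum_congr rfl fun l _ => ?_
  have hco : trE w (co l) = co l + algebraMap ℂ E2 (w l) := by
    apply Subtype.ext
    funext t
    rfl
  rw [map_smul, hco, smul_add, map_mul, Algebra.smul_def (a l) (algebraMap ℂ E2 (w l))]

/-- Y3b. a function with constant derivatives is affine -/
theorem affine (f : M2) (a : Fin 2 → ℂ) (h : ∀ v : Fin 2 → ℂ, dM v f = algebraMap ℂ M2 (∑ l, a l * v l)) :
    ∃ b : ℂ, f = em (lE a) + algebraMap ℂ M2 b ∧ ∀ w : Fin 2 → ℂ, trM w f = f + algebraMap ℂ M2 (∑ l, a l * w l) := by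
  obtain ⟨b, hb⟩ := const_of_dM (f - em (lE a)) (fun v => by
    rw [map_sub, dM_em, dE_lE, em_C, h, sub_self])
  have hf : f = em (lE a) + algebraMap ℂ M2 b := by
    rw [← hb]
    ring
  refine ⟨b, hf, fun w => ?_⟩
  have hem : ∀ x y : E2, em (x + y) = em x + em y := fun x y => map_add (algebraMap E2 M2) x y
  rw [hf, map_add, trM_em, trM_C, trE_lE, hem, em_C]
  ring

/-- Y3c. RIGIDITY (D). -/
theorem rigD (τ : ℂ) (η : Fin 2 → ℂ) (hη : η 0 ≠ 0) (f : M2) (κ : Fin 2 → ℂ) (c : ℂ)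
    (h1 : ∀ i, dM (Pi.single i 1) f = algebraMap ℂ M2 (κ i))
    (h2 : ∀ m n : Fin 2 → ℤ, trM (fun l => (m l : ℂ) + n l * τ) f = f + algebraMap ℂ M2 (c * ∑ l, η l * (n l : ℂ))) :
    c = 0 ∧ ∃ a : ℂ, f = algebraMap ℂ M2 a := by
  have hlin : ∀ v : Fin 2 → ℂ, dM v f = algebraMap ℂ M2 (∑ l, κ l * v l) := by
    intro v
    have hv : v = v 0 • (Pi.single 0 1 : Fin 2 → ℂ) + v 1 • (Pi.single 1 1 : Fin 2 → ℂ) := by
      funext i
      fin_cases i <;> simp
    rw [hv, dM_add, dM_smul, dM_smul, h1, h1, ← hv, Fin.sum_univ_two]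
    simp only [Algebra.smul_def, map_add, map_mul]
    ring
  obtain ⟨b, hf, htr⟩ := affine f κ hlin
  have hmain : ∀ m n : Fin 2 → ℤ, ∑ l, κ l * ((m l : ℂ) + n l * τ) = c * ∑ l, η l * (n l : ℂ) := by
    intro m n
    have h3 := h2 m n
    rw [htr] at h3
    exact (algebraMap ℂ M2).injective (add_left_cancel h3)
  have hκ : ∀ l, κ l = 0 := by
    intro l
    have h3 := hmain (Pi.single l 1) 0
    rw [Finset.sum_eq_single l] at h3
    · simpa using h3
    · intro i _ hi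
      simp [hi]
    · intro h
      exact absurd (Finset.mem_univ l) h
  refine ⟨?_, b, ?_⟩
  · have h3 := hmain 0 (Pi.single 0 1)
    rw [Finset.sum_eq_zero (fun i _ => by rw [hκ, zero_mul]), Fin.sum_univ_two] at h3
    simp only [Pi.single_eq_same, Int.cast_one, mul_one, ne_eq, one_ne_zero, not_false_eq_true, Pi.single_eq_of_ne, Int.cast_zero, mul_zero,
      add_zero] at h3
    exact (mul_eq_zero.1 h3.symm).resolve_right hη
  · have h4 : lE κ = 0 := by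
      unfold lE
      exact Finset.sum_eq_zero fun l _ => by rw [hκ, zero_smul]
    have he0 : em 0 = 0 := map_zero (algebraMap E2 M2)
    rw [hf, h4, he0, zero_add]

/-- Y3d. Lines in the direction `ε = Pi.single 0 1`. As `line_kappa` in U/Y3_Rig: `x = (z n_0 - ..)`. -/
theorem line_kappa (g h : E2) (A ρ : Fin 2 → ℂ) (κ : ℂ) (hq : dE A g * h - g * dE A h = κ • (h * h))
    (hρA : ∑ l, ρ l * A l = 0) (hA1 : A 1 ≠ 0) (h0 : ρ 0 ≠ 0) (I : Type) (w : I → Fin 2 → ℂ) (ν : I → ℂ)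
    (hsmall : ∀ ε : ℝ, 0 < ε → ∃ i, ∑ l, ρ l * w i l ≠ 0 ∧ ‖∑ l, ρ l * w i l‖ < ε)
    (htr : ∀ i (s : Fin 2 → ℂ), (g : (Fin 2 → ℂ) → ℂ) (s + w i) * (h : (Fin 2 → ℂ) → ℂ) s =
      ((g : (Fin 2 → ℂ) → ℂ) s + ν i * (h : (Fin 2 → ℂ) → ℂ) s) * (h : (Fin 2 → ℂ) → ℂ) (s + w i))
    (t : Fin 2 → ℂ) (ht0 : (h : (Fin 2 → ℂ) → ℂ) t ≠ 0) (ht1 : ∀ i, (h : (Fin 2 → ℂ) → ℂ) (t + w i) ≠ 0)
    (ht2 : ∀ i, (h : (Fin 2 → ℂ) → ℂ) (t + ((∑ l, ρ l * w i l) / ρ 0) • (Pi.single 0 1 : Fin 2 → ℂ)) ≠ 0) :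
    ∃ κ' : ℂ, ∀ y : ℂ, (dE (Pi.single 0 1) g * h - g * dE (Pi.single 0 1) h : E2).1 (t + y • (Pi.single 0 1 : Fin 2 → ℂ)) =
      κ' * (h : (Fin 2 → ℂ) → ℂ) (t + y • (Pi.single 0 1 : Fin 2 → ℂ)) ^ 2 := by
  set ε : Fin 2 → ℂ := Pi.single 0 1 with hε
  have hdG : ∀ y, HasDerivAt (fun y : ℂ => (g : (Fin 2 → ℂ) → ℂ) (t + y • ε)) ((dE ε g : (Fin 2 → ℂ) → ℂ) (t + y • ε)) y :=
    fun y => dE_line ε g t y
  have hdH : ∀ y, HasDerivAt (fun y : ℂ => (h : (Fin 2 → ℂ) → ℂ) (t + y • ε)) ((dE ε h : (Fin 2 → ℂ) → ℂ) (t + y • ε)) y :=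
    fun y => dE_line ε h t y
  have hG : Differentiable ℂ (fun y : ℂ => (g : (Fin 2 → ℂ) → ℂ) (t + y • ε)) := fun y => (hdG y).differentiableAt
  have hH : Differentiable ℂ (fun y : ℂ => (h : (Fin 2 → ℂ) → ℂ) (t + y • ε)) := fun y => (hdH y).differentiableAt
  have hcont : Continuous (h : (Fin 2 → ℂ) → ℂ) := by
    rw [← continuousOn_univ]
    exact (E2.an h).continuousOn
  have hρ1 : ρ 1 * A 1 = -(ρ 0 * A 0) := by
    rw [Fin.sum_univ_two] at hρA
    linear_combination hρA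
  have key : ∀ i : I, ∃ ν' : ℂ, ∀ y : ℂ,
      (g : (Fin 2 → ℂ) → ℂ) (t + (y + (∑ l, ρ l * w i l) / ρ 0) • ε) * (h : (Fin 2 → ℂ) → ℂ) (t + y • ε) -
        (g : (Fin 2 → ℂ) → ℂ) (t + y • ε) * (h : (Fin 2 → ℂ) → ℂ) (t + (y + (∑ l, ρ l * w i l) / ρ 0) • ε) =
      ν' * (h : (Fin 2 → ℂ) → ℂ) (t + y • ε) * (h : (Fin 2 → ℂ) → ℂ) (t + (y + (∑ l, ρ l * w i l) / ρ 0) • ε) := by
    intro i
    set x : ℂ := (∑ l, ρ l * w i l) / ρ 0 with hx
    set α : ℂ := w i 1 / A 1 with hα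
    have hn : w i = x • ε + α • A := by
      funext l
      fin_cases l
      · show w i 0 = x * ε 0 + α * A 0
        rw [hε, hx, hα, Fin.sum_univ_two]
        simp only [Pi.single_eq_same, mul_one]
        field_simp
        linear_combination (-(w i 1)) * hρ1
      · show w i 1 = x * ε 1 + α * A 1
        rw [hε, hα]
        simp only [ne_eq, one_ne_zero, not_false_eq_true, Pi.single_eq_of_ne, mul_zero, zero_add]
        field_simp
    set v : Fin 2 → ℂ := α • A with hv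
    set κv : ℂ := α * κ with hκv
    have hcomb : dE v g * h - g * dE v h = κv • (h * h) := by
      rw [hv, hκv, dE_smul, dE_smul, mul_smul, ← hq, smul_mul_assoc, mul_smul_comm, ← smul_sub]
    refine ⟨ν i - κv, ?_⟩
    have hloc : ∀ y : ℂ, (h : (Fin 2 → ℂ) → ℂ) (t + y • ε + w i) ≠ 0 → (h : (Fin 2 → ℂ) → ℂ) (t + y • ε + x • ε) ≠ 0 →
        (g : (Fin 2 → ℂ) → ℂ) (t + (y + x) • ε) * (h : (Fin 2 → ℂ) → ℂ) (t + y • ε) -
          (g : (Fin 2 → ℂ) → ℂ) (t + y • ε) * (h : (Fin 2 → ℂ) → ℂ) (t + (y + x) • ε) -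
        (ν i - κv) * (h : (Fin 2 → ℂ) → ℂ) (t + y • ε) * (h : (Fin 2 → ℂ) → ℂ) (t + (y + x) • ε) = 0 := by
      intro y hy1 hy2
      have h1 := htr i (t + y • ε)
      have h2 := line_const g h v κv hcomb (t + y • ε + x • ε) hy2 1
      have h3 : t + y • ε + x • ε + (1 : ℂ) • v = t + y • ε + w i := by
        rw [one_smul, hn]
        abel
      rw [h3] at h2
      have h4 : t + (y + x) • ε = t + y • ε + x • ε := by
        rw [add_smul]
        abel
      rw [h4]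
      refine (mul_eq_zero.mp ?_).resolve_left hy1
      linear_combination (-(h : (Fin 2 → ℂ) → ℂ) (t + y • ε)) * h2 + ((h : (Fin 2 → ℂ) → ℂ) (t + y • ε + x • ε)) * h1
    have hD : Differentiable ℂ (fun y : ℂ => (g : (Fin 2 → ℂ) → ℂ) (t + (y + x) • ε) * (h : (Fin 2 → ℂ) → ℂ) (t + y • ε) -
          (g : (Fin 2 → ℂ) → ℂ) (t + y • ε) * (h : (Fin 2 → ℂ) → ℂ) (t + (y + x) • ε) -
        (ν i - κv) * (h : (Fin 2 → ℂ) → ℂ) (t + y • ε) * (h : (Fin 2 → ℂ) → ℂ) (t + (y + x) • ε)) := by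
      have hGx : Differentiable ℂ (fun y : ℂ => (g : (Fin 2 → ℂ) → ℂ) (t + (y + x) • ε)) :=
        hG.comp (differentiable_id.add_const x)
      have hHx : Differentiable ℂ (fun y : ℂ => (h : (Fin 2 → ℂ) → ℂ) (t + (y + x) • ε)) :=
        hH.comp (differentiable_id.add_const x)
      exact ((hGx.mul hH).sub (hG.mul hHx)).sub (((hH.const_mul (ν i - κv))).mul hHx)
    have hev : ∀ᶠ y in 𝓝 (0 : ℂ), (g : (Fin 2 → ℂ) → ℂ) (t + (y + x) • ε) * (h : (Fin 2 → ℂ) → ℂ) (t + y • ε) -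
          (g : (Fin 2 → ℂ) → ℂ) (t + y • ε) * (h : (Fin 2 → ℂ) → ℂ) (t + (y + x) • ε) -
        (ν i - κv) * (h : (Fin 2 → ℂ) → ℂ) (t + y • ε) * (h : (Fin 2 → ℂ) → ℂ) (t + (y + x) • ε) = 0 := by
      have c1 : Continuous (fun y : ℂ => (h : (Fin 2 → ℂ) → ℂ) (t + y • ε + w i)) :=
        hcont.comp (by fun_prop)
      have c2 : Continuous (fun y : ℂ => (h : (Fin 2 → ℂ) → ℂ) (t + y • ε + x • ε)) :=
        hcont.comp (by fun_prop)
      have e1 : ∀ᶠ y in 𝓝 (0 : ℂ), (h : (Fin 2 → ℂ) → ℂ) (t + y • ε + w i) ≠ 0 := by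
        refine c1.continuousAt.eventually_ne ?_
        rw [zero_smul, add_zero]
        exact ht1 i
      have e2 : ∀ᶠ y in 𝓝 (0 : ℂ), (h : (Fin 2 → ℂ) → ℂ) (t + y • ε + x • ε) ≠ 0 := by
        refine c2.continuousAt.eventually_ne ?_
        rw [zero_smul, add_zero]
        exact ht2 i
      filter_upwards [e1, e2] with y hy1 hy2
      exact hloc y hy1 hy2
    have hzero := (hD.differentiableOn.analyticOnNhd isOpen_univ).eqOn_zero_of_preconnected_of_eventuallyEq_zero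
      isPreconnected_univ (Set.mem_univ (0 : ℂ)) hev
    intro y
    have h5 := hzero (Set.mem_univ y)
    simp only [Pi.zero_apply] at h5
    linear_combination h5
  obtain ⟨κ', hκ'⟩ := one_var_periods _ _ hG hH 0 (by rw [zero_smul, add_zero]; exact ht0) (by
    intro e he
    obtain ⟨i, hn1, hn2⟩ := hsmall (e * ‖ρ 0‖) (mul_pos he (norm_pos_iff.mpr h0))
    obtain ⟨ν', hν⟩ := key i
    refine ⟨(∑ l, ρ l * w i l) / ρ 0, div_ne_zero hn1 h0, ?_, ν', hν⟩
    rw [norm_div, div_lt_iff₀ (norm_pos_iff.mpr h0)]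
    exact hn2)
  refine ⟨κ', fun y => ?_⟩
  have h6 := hκ' y
  rw [(hdG y).deriv, (hdH y).deriv] at h6
  exact h6

theorem YA08_zero (F : E2) (h : Dense {t : Fin 2 → ℂ | (F : (Fin 2 → ℂ) → ℂ) t = 0}) : F = 0 := by
  have hc : Continuous (F : (Fin 2 → ℂ) → ℂ) := by
    rw [← continuousOn_univ]
    exact F.an.continuousOn
  have h1 : IsClosed {t : Fin 2 → ℂ | (F : (Fin 2 → ℂ) → ℂ) t = 0} := isClosed_singleton.preimage hc
  have h2 := h.closure_eq
  rw [h1.closure_eq] at h2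
  apply Subtype.ext
  funext t
  have h3 : t ∈ {t : Fin 2 → ℂ | (F : (Fin 2 → ℂ) → ℂ) t = 0} := by rw [h2]; exact Set.mem_univ t
  exact h3

theorem YA08_dense (ρ : Fin 2 → ℂ) (I : Type) [Countable I] (i0 : I) (w : I → Fin 2 → ℂ) (hw0 : w i0 = 0) (h : E2) (hh : h ≠ 0) :
    Dense {t : Fin 2 → ℂ | (h : (Fin 2 → ℂ) → ℂ) t ≠ 0 ∧ (∀ i, (h : (Fin 2 → ℂ) → ℂ) (t + w i) ≠ 0) ∧
      (∀ i, (h : (Fin 2 → ℂ) → ℂ) (t + ((∑ l, ρ l * w i l) / ρ 0) • (Pi.single 0 1 : Fin 2 → ℂ)) ≠ 0)} := by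
  have : Nonempty (I ⊕ I) := ⟨Sum.inl i0⟩
  obtain ⟨e, he⟩ := exists_surjective_nat (I ⊕ I)
  let w' : I ⊕ I → (Fin 2 → ℂ) := fun s =>
    match s with
    | Sum.inl i => w i
    | Sum.inr i => ((∑ l, ρ l * w i l) / ρ 0) • (Pi.single 0 1 : Fin 2 → ℂ)
  have hne : ∀ k : ℕ, trE (w' (e k)) h ≠ 0 := by
    intro k h0
    apply hh
    apply (trE (w' (e k))).injective
    rw [h0, map_zero]
  apply (E2.exists_ne (fun k => trE (w' (e k)) h) hne).mono
  intro t ht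
  have h1 : ∀ i, (h : (Fin 2 → ℂ) → ℂ) (t + w i) ≠ 0 := by
    intro i
    obtain ⟨k, hk⟩ := he (Sum.inl i)
    have h2 := ht k
    rw [trE_apply, hk] at h2
    exact h2
  refine ⟨?_, h1, ?_⟩
  · have h2 := h1 i0
    rwa [hw0, add_zero] at h2
  · intro i
    obtain ⟨k, hk⟩ := he (Sum.inr i)
    have h2 := ht k
    rw [trE_apply, hk] at h2
    exact h2

theorem YA08_pt (v : Fin 2 → ℂ) (G h : E2) (t : Fin 2 → ℂ) (κ' : ℂ)
    (hk : ∀ y : ℂ, G.1 (t + y • v) = κ' * (h : (Fin 2 → ℂ) → ℂ) (t + y • v) ^ 2) :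
    ((dE v G * (h * h) - G * dE v (h * h) : E2) : (Fin 2 → ℂ) → ℂ) t = 0 := by
  have h1 := dE_line v G t 0
  have h2 := dE_line v (h * h) t 0
  have h3 : (fun y : ℂ => (G : (Fin 2 → ℂ) → ℂ) (t + y • v)) =
      fun y : ℂ => κ' * ((h * h : E2) : (Fin 2 → ℂ) → ℂ) (t + y • v) := by
    funext y
    rw [hk y]
    show κ' * (h : (Fin 2 → ℂ) → ℂ) (t + y • v) ^ 2 =
      κ' * ((h : (Fin 2 → ℂ) → ℂ) (t + y • v) * (h : (Fin 2 → ℂ) → ℂ) (t + y • v))
    ring
  rw [h3] at h1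
  have h4 := h1.unique (h2.const_mul κ')
  have h5 := hk 0
  rw [zero_smul, add_zero] at h4 h5
  show (dE v G : (Fin 2 → ℂ) → ℂ) t * ((h : (Fin 2 → ℂ) → ℂ) t * (h : (Fin 2 → ℂ) → ℂ) t) -
      (G : (Fin 2 → ℂ) → ℂ) t * (dE v (h * h) : (Fin 2 → ℂ) → ℂ) t = 0
  have h6 : (G : (Fin 2 → ℂ) → ℂ) t = κ' * (h : (Fin 2 → ℂ) → ℂ) t ^ 2 := h5
  rw [h4, h6]
  ring

/-- Y3e. the second derivative in the direction `Pi.single 0 1` vanishes -/
theorem second_zero (A ρ : Fin 2 → ℂ) (κ : ℂ) (hρA : ∑ l, ρ l * A l = 0) (hA1 : A 1 ≠ 0) (h0 : ρ 0 ≠ 0)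
    (I : Type) [Countable I] (i0 : I) (w : I → Fin 2 → ℂ) (hw0 : w i0 = 0) (ν : I → ℂ)
    (hsmall : ∀ ε : ℝ, 0 < ε → ∃ i, ∑ l, ρ l * w i l ≠ 0 ∧ ‖∑ l, ρ l * w i l‖ < ε) (f : M2)
    (h1 : dM A f = algebraMap ℂ M2 κ) (h2 : ∀ i, trM (w i) f = f + algebraMap ℂ M2 (ν i)) :
    dM (Pi.single 0 1) (dM (Pi.single 0 1) f) = 0 := by
  obtain ⟨g, h, hh, hf⟩ := exists_frac f
  have hq : dE A g * h - g * dE A h = κ • (h * h) := dM_const A κ f g h hh hf h1
  have hhh : h * h ≠ 0 := mul_ne_zero hh hh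
  have hd1 := dM_frac (Pi.single 0 1) f g h hh hf
  have hd2 := dM_frac (Pi.single 0 1) (dM (Pi.single 0 1) f)
    (dE (Pi.single 0 1) g * h - g * dE (Pi.single 0 1) h) (h * h) hhh hd1
  rw [hd2]
  have hF : dE (Pi.single 0 1) (dE (Pi.single 0 1) g * h - g * dE (Pi.single 0 1) h) * (h * h) -
      (dE (Pi.single 0 1) g * h - g * dE (Pi.single 0 1) h) * dE (Pi.single 0 1) (h * h) = 0 := by
    apply YA08_zero
    apply (YA08_dense ρ I i0 w hw0 h hh).mono
    intro t ht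
    obtain ⟨ht0, ht1, ht2⟩ := ht
    obtain ⟨κ', hk⟩ := line_kappa g h A ρ κ hq hρA hA1 h0 I w ν hsmall
      (fun i s => trM_const (w i) (ν i) f g h hh hf (h2 i) s) t ht0 ht1 ht2
    exact YA08_pt (Pi.single 0 1) _ h t κ' hk
  rw [hF]
  unfold em
  rw [map_zero, zero_div]

/-- Y3f. RIGIDITY (Z). -/
theorem rigZ (z : ℂ) (hz0 : z ≠ 0) (hns : ∀ n : Fin 3 → ℤ, ∑ l, (![z ^ 2, z, -1] : Fin 3 → ℂ) l * (n l : ℂ) = 0 → n = 0)
    (ζ : ℂ) (hζ : ζ ≠ 0) (f : M2) (κ : ℂ) (C : Fin 2 → ℂ)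
    (h1 : dM (fun l => ζ * (![1, z] : Fin 2 → ℂ) l) f = algebraMap ℂ M2 κ)
    (h2 : ∀ m n : Fin 2 → ℤ, trM (fun l => (m l : ℂ) + n l * z) f = f + algebraMap ℂ M2 (∑ l, C l * (n l : ℂ))) :
    C = 0 ∧ ∃ a : ℂ, f = algebraMap ℂ M2 a := by
  set A : Fin 2 → ℂ := fun l => ζ * (![1, z] : Fin 2 → ℂ) l with hA
  set ρ : Fin 2 → ℂ := ![z, -1] with hρ
  have hA0 : A 0 = ζ := by simp [hA]
  have hA1' : A 1 = ζ * z := by simp [hA]
  have hA1 : A 1 ≠ 0 := by rw [hA1']; exact mul_ne_zero hζ hz0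
  have hρ0 : ρ 0 = z := by simp [hρ]
  have hρ1 : ρ 1 = -1 := by simp [hρ]
  have hρA : ∑ l, ρ l * A l = 0 := by
    rw [Fin.sum_univ_two, hA0, hA1', hρ0, hρ1]
    ring
  -- the translations
  let w : (Fin 3 → ℤ) → Fin 2 → ℂ := fun n l => ((![n 1, n 2] : Fin 2 → ℤ) l : ℂ) + (![n 0, 0] : Fin 2 → ℤ) l * z
  have hw : ∀ n : Fin 3 → ℤ, ∑ l, ρ l * w n l = ∑ l, (![z ^ 2, z, -1] : Fin 3 → ℂ) l * (n l : ℂ) := by
    intro n
    rw [Fin.sum_univ_two, Fin.sum_univ_three, hρ0, hρ1]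
    simp [w]
    ring
  have hw0 : w 0 = 0 := by
    funext l
    fin_cases l <;> simp [w]
  have hu0 := second_zero A ρ κ hρA hA1 (by rw [hρ0]; exact hz0) (Fin 3 → ℤ) 0 w hw0
    (fun n => ∑ l, C l * ((![n 0, 0] : Fin 2 → ℤ) l : ℂ)) (fun ε hε => by
      obtain ⟨n, hn1, hn2⟩ := small_comb _ hns ε hε
      exact ⟨n, by rw [hw]; exact hn1, by rw [hw]; exact hn2⟩) f h1 (fun n => h2 _ _)
  have huA : dM A (dM (Pi.single 0 1) f) = 0 := by
    rw [dM_comm, h1, Derivation.map_algebraMap]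
  have hspan : ∀ v : Fin 2 → ℂ, v = (v 0 - v 1 / A 1 * A 0) • (Pi.single 0 1 : Fin 2 → ℂ) + (v 1 / A 1) • A := by
    intro v
    funext l
    fin_cases l
    · simp
    · simp [hA1]
  obtain ⟨a, ha⟩ := const_of_dM (dM (Pi.single 0 1) f) (fun v => by
    rw [hspan v, dM_add, dM_smul, dM_smul, hu0, huA, smul_zero, smul_zero, add_zero])
  have hval : ∀ v : Fin 2 → ℂ, ∃ c : ℂ, dM v f = algebraMap ℂ M2 c := by
    intro v
    refine ⟨(v 0 - v 1 / A 1 * A 0) * a + v 1 / A 1 * κ, ?_⟩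
    conv_lhs => rw [hspan v]
    rw [dM_add, dM_smul, dM_smul, ha, h1]
    simp only [Algebra.smul_def, map_add, map_mul]
  choose a' ha' using fun l : Fin 2 => hval (Pi.single l 1)
  have hlin : ∀ v : Fin 2 → ℂ, dM v f = algebraMap ℂ M2 (∑ l, a' l * v l) := by
    intro v
    have hv : v = v 0 • (Pi.single 0 1 : Fin 2 → ℂ) + v 1 • (Pi.single 1 1 : Fin 2 → ℂ) := by
      funext i
      fin_cases i <;> simp
    rw [hv, dM_add, dM_smul, dM_smul, ha', ha', ← hv, Fin.sum_univ_two]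
    simp only [Algebra.smul_def, map_add, map_mul]
    ring
  obtain ⟨b, hf, htr⟩ := affine f a' hlin
  have hmain : ∀ m n : Fin 2 → ℤ, ∑ l, a' l * ((m l : ℂ) + n l * z) = ∑ l, C l * (n l : ℂ) := by
    intro m n
    have h3 := h2 m n
    rw [htr] at h3
    exact (algebraMap ℂ M2).injective (add_left_cancel h3)
  have ha0 : ∀ l, a' l = 0 := by
    intro l
    have h3 := hmain (Pi.single l 1) 0
    rw [Finset.sum_eq_single l, Finset.sum_eq_zero] at h3
    · simpa using h3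
    · intro i _
      simp
    · intro i _ hi
      simp [hi]
    · intro h
      exact absurd (Finset.mem_univ l) h
  have hC : ∀ l, C l = 0 := by
    intro l
    have h3 := hmain 0 (Pi.single l 1)
    rw [Finset.sum_eq_zero (fun i _ => by rw [ha0, zero_mul]), Finset.sum_eq_single l] at h3
    · simpa using h3.symm
    · intro i _ hi
      simp [hi]
    · intro h
      exact absurd (Finset.mem_univ l) h
  refine ⟨funext hC, b, ?_⟩
  have h4 : lE a' = 0 := by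
    unfold lE
    exact Finset.sum_eq_zero fun l _ => by rw [ha0, zero_smul]
  have he0 : em 0 = 0 := map_zero (algebraMap E2 M2)
  rw [hf, h4, he0, zero_add]

end Pool.Agent.MSW

end
end
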