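import Mathlib
import Pool.Agent.Lib.MP_f58a57_nt.FK.K005
import Pool.Agent.Lib.MP_f58a57_nt.FK.K008
import Pool.Agent.Lib.MP_f58a57_nt.FK.K017
import Pool.Agent.Lib.MP_f58a57_nt.FK.K019
import Pool.Agent.Lib.MP_f58a57_nt.FK.K023

namespace Pool.Agent.MSD
end Pool.Agent.MSD
namespace Pool.Agent.MSP
end Pool.Agent.MSP

section

/-! # X: extrapolation from a real base point (MP_f58a57_nt, algebraic `j`) -/

open Complex Filter Topology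

noncomputable section

namespace Pool.Agent.MSN

open MSP

/-- X1a. PROOF. `g = gm GG m` is entire (V3a), `1`-periodic (G1d), `‖g t‖ ≤ B exp(C₁ L (1 + t.im²))` (G3b) and has a zero of order
`≥ 2S - m ≥ S` at the base point (V3d). `schwarz` with `q = 1`, `R = S/(C₁ L) ≥ 1`: for `|t.im| ≤ 1`
`‖g t‖ ≤ B exp(C₁ L (1 + R²) - (2R - π) S) = B exp(C₁ L + π S - S²/(C₁ L))`, and `C₁ L + π S ≤ S²/(2 C₁ L)` if `S ≥ C L` with `C` large. -/
theorem gm_small2 (c₁ c₂ : Cv) (x₀ : ℝ) : ∃ C : ℝ, 1 ≤ C ∧ ∀ (P : Pr), P.Good → ∀ (B : ℝ)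
    (coef : ℕ × ℕ × ℕ × ℕ × ℕ → ℂ), (∀ ν ∈ P.box, ‖coef ν‖ ≤ B) → ∀ S : ℕ, C * P.L ≤ S →
    (∀ r s, r + s < 2 * S → dd r s (GG c₁ c₂ P coef) x₀ x₀ = 0) → ∀ m < S, ∀ t : ℂ, |t.im| ≤ 1 →
    ‖gm (GG c₁ c₂ P coef) m t‖ ≤ B * Real.exp (-((S : ℝ) ^ 2 / (C * P.L))) := by
  obtain ⟨C₁, hC₁, hb⟩ := gm_bound c₁ c₂
  refine ⟨16 * C₁, by linarith, ?_⟩
  intro P hP B coef hcoef S hS hvan m hm t ht
  have hL0 : (0 : ℝ) < P.L := by
    have := hP.hL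
    exact_mod_cast this
  have hC₁0 : 0 < C₁ := by linarith
  have hCL : 0 < C₁ * P.L := by positivity
  have hB0 : 0 ≤ B := by
    have h1 := hb P hP B coef hcoef m 0
    have h2 : 0 ≤ B * Real.exp (C₁ * P.L * (1 + (0 : ℂ).im ^ 2)) := (norm_nonneg _).trans h1
    exact nonneg_of_mul_nonneg_left h2 (Real.exp_pos _)
  have hAn : ∀ t w, An2 (GG c₁ c₂ P coef) t w := fun t w => GG_an2 c₁ c₂ P coef t w
  set R : ℝ := S / (C₁ * P.L) with hRdef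
  have hRm : R * (C₁ * P.L) = S := by
    rw [hRdef]; field_simp
  have hR16 : 16 ≤ R := by
    rw [hRdef, le_div_iff₀ hCL]
    linarith
  have key := schwarz 1 S (fun _ => x₀) (fun i j hij => absurd (Subsingleton.elim i j) hij)
    (gm (GG c₁ c₂ P coef) m) (gm_differentiable hAn m)
    (fun t => gm_period c₁ c₂ P coef m t)
    (by
      intro j
      have h1 := order_gm hAn (x₀ : ℂ) (2 * S) (fun r s hrs => hvan r s hrs) m
      refine le_trans ?_ h1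
      have : S ≤ 2 * S - m := by omega
      exact_mod_cast this)
    R (B * Real.exp (C₁ * P.L * (1 + R ^ 2))) (by linarith)
    (by
      intro t' ht'
      refine (hb P hP B coef hcoef m t').trans ?_
      have h1 : t'.im ^ 2 = R ^ 2 := by rw [← ht', sq_abs]
      rw [h1])
    t (ht.trans (by linarith))
  refine key.trans ?_
  rw [mul_assoc, ← Real.exp_add]
  refine mul_le_mul_of_nonneg_left (Real.exp_le_exp.mpr ?_) hB0
  have hpi : Real.pi ≤ 4 := Real.pi_le_four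
  have hpi0 : 0 < Real.pi := Real.pi_pos
  have h1 : Real.pi * |t.im| ≤ 4 := by
    calc Real.pi * |t.im| ≤ 4 * 1 := by gcongr
      _ = 4 := by ring
  have hS2 : (S : ℝ) ^ 2 / (16 * C₁ * P.L) = R * S / 16 := by
    rw [← hRm]; field_simp
  rw [hS2]
  have h2 : (2 * R - 4) * S ≤ (2 * R - Real.pi * |t.im|) * S :=
    mul_le_mul_of_nonneg_right (by linarith) (Nat.cast_nonneg _)
  have h3 : C₁ * P.L * (1 + R ^ 2) = C₁ * P.L + R * S := by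
    rw [← hRm]; ring
  have h4 : 16 * S ≤ R * S := mul_le_mul_of_nonneg_right hR16 (Nat.cast_nonneg _)
  have h5 : C₁ * P.L ≤ S / 16 := by linarith
  rw [h3]
  simp only [Nat.cast_one, one_mul]
  have hS0 : (0 : ℝ) ≤ S := Nat.cast_nonneg _
  nlinarith [h2, h4, h5]

/-- X1b. PROOF. V3c (`dd_eq_sum`) with `dd 0 m G t t = m! gm G m t` (V3 `gm_eq`); Cauchy's inequality on the unit circle around the real point
`x` for the `l`-th derivative of `t ↦ m! gm G m t`: `≤ l! m! B exp(-S²/(CL))`, `l + m = r + s`, `l! m! ≤ (r+s)!`, `∑ choose = 2^r`. -/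
theorem extra2 (c₁ c₂ : Cv) (x₀ : ℝ) : ∃ C : ℝ, 1 ≤ C ∧ ∀ (P : Pr), P.Good → ∀ (B : ℝ)
    (coef : ℕ × ℕ × ℕ × ℕ × ℕ → ℂ), (∀ ν ∈ P.box, ‖coef ν‖ ≤ B) → ∀ S : ℕ, C * P.L ≤ S →
    (∀ r s, r + s < 2 * S → dd r s (GG c₁ c₂ P coef) x₀ x₀ = 0) → ∀ r s, r + s < S → ∀ x : ℝ,
    ‖dd r s (GG c₁ c₂ P coef) x x‖ ≤ B * (2 ^ r * ((r + s).factorial : ℝ)) * Real.exp (-((S : ℝ) ^ 2 / (C * P.L))) := by
  obtain ⟨C, hC, hsm⟩ := gm_small2 c₁ c₂ x₀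
  refine ⟨C, hC, ?_⟩
  intro P hP B coef hcoef S hS hvan r s hrs x
  have hAn : ∀ t w, An2 (GG c₁ c₂ P coef) t w := fun t w => GG_an2 c₁ c₂ P coef t w
  have hsm' := hsm P hP B coef hcoef S hS hvan
  set E : ℝ := B * Real.exp (-((S : ℝ) ^ 2 / (C * P.L))) with hE
  have hE0 : 0 ≤ E := (norm_nonneg _).trans (hsm' 0 (by omega) 0 (by simp))
  set G := GG c₁ c₂ P coef with hG
  have hdd : ∀ m : ℕ, (fun t' : ℂ => dd 0 m G t' t') = fun t' => (m.factorial : ℂ) * gm G m t' := by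
    intro m
    funext t'
    rw [gm_eq, mul_div_cancel₀]
    exact_mod_cast Nat.factorial_ne_zero m
  rw [dd_eq_sum hAn r s (x : ℂ)]
  have hterm : ∀ l ∈ Finset.range (r + 1), ‖((r.choose l : ℕ) : ℂ) * (-1) ^ (r - l) *
      iteratedDeriv l (fun t' => dd 0 (s + r - l) G t' t') (x : ℂ)‖ ≤ (r.choose l : ℝ) * (((r + s).factorial : ℝ) * E) := by
    intro l hl
    have hl' : l ≤ r := by
      have := Finset.mem_range.mp hl
      omega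
    rw [norm_mul, norm_mul, norm_pow, norm_neg, norm_one, one_pow, mul_one, Complex.norm_natCast]
    refine mul_le_mul_of_nonneg_left ?_ (Nat.cast_nonneg _)
    rw [hdd]
    have hdiff : Differentiable ℂ (fun t' : ℂ => ((s + r - l).factorial : ℂ) * gm G (s + r - l) t') :=
      (gm_differentiable hAn _).const_mul _
    have hcau := Complex.norm_iteratedDeriv_le_of_forall_mem_sphere_norm_le (c := (x : ℂ)) (R := 1)
      (C := ((s + r - l).factorial : ℝ) * E) (f := fun t' : ℂ => ((s + r - l).factorial : ℂ) * gm G (s + r - l) t') l one_pos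
      hdiff.diffContOnCl
      (by
        intro z hz
        rw [norm_mul, Complex.norm_natCast]
        refine mul_le_mul_of_nonneg_left ?_ (Nat.cast_nonneg _)
        apply hsm' _ (by omega)
        have h1 : |(z - x).im| ≤ ‖z - x‖ := Complex.abs_im_le_norm _
        have h2 : ‖z - x‖ = 1 := by simpa [dist_eq_norm] using hz
        have h3 : (z - x).im = z.im := by simp
        rw [h3, h2] at h1
        exact h1)
    refine hcau.trans ?_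
    rw [one_pow, div_one, ← mul_assoc]
    refine mul_le_mul_of_nonneg_right ?_ hE0
    have h1 : l.factorial * (s + r - l).factorial ∣ (l + (s + r - l)).factorial :=
      Nat.factorial_mul_factorial_dvd_factorial_add _ _
    have h2 : l + (s + r - l) = r + s := by omega
    rw [h2] at h1
    exact_mod_cast Nat.le_of_dvd (Nat.factorial_pos _) h1
  refine (norm_sum_le _ _).trans ((Finset.sum_le_sum hterm).trans ?_)
  rw [← Finset.sum_mul]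
  have hsum : ∑ l ∈ Finset.range (r + 1), (r.choose l : ℝ) = 2 ^ r := by
    exact_mod_cast Nat.sum_range_choose r
  rw [hsum, hE]
  apply le_of_eq
  ring

end Pool.Agent.MSN
end

end

section

/-! # F2c: the contradiction (MP_f58a57_nt, pairs) -/

open Complex Filter Topology IntermediateField Polynomial

noncomputable section

namespace Pool.Agent.MSP

/-- the points -/
def f2c_pt (k j : ℕ) : ℝ := ((j : ℝ) + 1) / 2 ^ k

theorem f2c_pt_coe (k j : ℕ) : ((f2c_pt k j : ℝ) : ℂ) = (((j : ℤ) + 1 : ℤ) : ℂ) / 2 ^ k := by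
  unfold f2c_pt
  push_cast
  rfl

theorem f2c_pt_int {k j : ℕ} (hj : j + 1 < 2 ^ k) (m : ℤ) : f2c_pt k j ≠ m := by
  unfold f2c_pt
  intro h
  have h2 : (0 : ℝ) < 2 ^ k := by positivity
  rw [div_eq_iff h2.ne'] at h
  have h3 : ((j : ℤ) + 1) = m * 2 ^ k := by exact_mod_cast h
  have hj' : (j : ℤ) + 1 < 2 ^ k := by exact_mod_cast hj
  have hj0 : (0 : ℤ) < (j : ℤ) + 1 := by positivity
  have hp : (0 : ℤ) < 2 ^ k := pow_pos two_pos k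
  rcases le_or_gt m 0 with hm | hm
  · have h4 := mul_nonpos_of_nonpos_of_nonneg hm hp.le
    rw [← h3] at h4
    exact absurd h4 (not_le.2 hj0)
  · have h4 := le_mul_of_one_le_left hp.le (Int.add_one_le_iff.2 hm)
    rw [← h3] at h4
    exact absurd h4 (not_le.2 hj')

theorem f2c_pt_diff {k i j : ℕ} (hi : i + 1 < 2 ^ k) (hj : j + 1 < 2 ^ k) (hij : i ≠ j) (m : ℤ) :
    f2c_pt k i - f2c_pt k j ≠ m := by
  unfold f2c_pt
  intro h
  have h2 : (0 : ℝ) < 2 ^ k := by positivity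
  rw [← sub_div, div_eq_iff h2.ne'] at h
  have h3 : ((i : ℤ) + 1 - ((j : ℤ) + 1)) = m * 2 ^ k := by exact_mod_cast h
  have hi' : (i : ℤ) + 1 < 2 ^ k := by exact_mod_cast hi
  have hj' : (j : ℤ) + 1 < 2 ^ k := by exact_mod_cast hj
  have hi0 : (0 : ℤ) ≤ (i : ℤ) := Int.natCast_nonneg i
  have hj0 : (0 : ℤ) ≤ (j : ℤ) := Int.natCast_nonneg j
  have hp : (0 : ℤ) < 2 ^ k := pow_pos two_pos k
  rcases lt_trichotomy m 0 with hm | hm | hm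
  · have h4 : m * 2 ^ k ≤ (-1) * 2 ^ k := mul_le_mul_of_nonneg_right (by omega) hp.le
    rw [← h3] at h4
    linarith
  · rw [hm, zero_mul] at h3
    apply hij
    have : (i : ℤ) = j := by linarith
    exact_mod_cast this
  · have h4 : 1 * 2 ^ k ≤ m * 2 ^ k := mul_le_mul_of_nonneg_right (by omega) hp.le
    rw [← h3] at h4
    linarith

theorem f2c_not_dvd {k j : ℕ} (hj : j + 1 < 2 ^ k) : ¬ ((2 : ℤ) ^ k ∣ ((j : ℤ) + 1)) := by
  intro h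
  have h1 := Int.le_of_dvd (by positivity) h
  have hj' : (j : ℤ) + 1 < 2 ^ k := by exact_mod_cast hj
  linarith

/-- the first nonvanishing derivative -/
theorem f2c_find {f : ℕ → ℕ → ℂ} {S r s : ℕ} (hrs : r + s < S) (h : f r s ≠ 0) :
    ∃ r' s', r' + s' < S ∧ f r' s' ≠ 0 ∧ ∀ i i', i + i' < r' + s' → f i i' = 0 := by
  classical
  have hex : ∃ k, ∃ i i', i + i' = k ∧ f i i' ≠ 0 := ⟨r + s, r, s, rfl, h⟩
  obtain ⟨i, i', hk, hne⟩ := Nat.find_spec hex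
  have hle : Nat.find hex ≤ r + s := Nat.find_min' hex ⟨r, s, rfl, h⟩
  refine ⟨i, i', by omega, hne, fun a b hab => ?_⟩
  by_contra hne'
  exact Nat.find_min hex (by omega : a + b < Nat.find hex) ⟨a, b, rfl, hne'⟩

theorem f2c_fact {r s T : ℕ} (h : r + s ≤ T) (hT : 1 ≤ T) :
    Real.log (2 ^ r * ((r + s).factorial : ℝ)) ≤ T * (1 + Real.log T) := by
  have hT' : (1 : ℝ) ≤ T := by exact_mod_cast hT
  have h1 : (2 : ℝ) ^ r ≤ 2 ^ T := pow_le_pow_right₀ one_le_two (by omega)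
  have h2 : ((r + s).factorial : ℝ) ≤ (T : ℝ) ^ T := by
    have h3 : (r + s).factorial ≤ T.factorial := Nat.factorial_le h
    have h4 : T.factorial ≤ T ^ T := Nat.factorial_le_pow T
    exact_mod_cast h3.trans h4
  have hf : (0 : ℝ) < ((r + s).factorial : ℝ) := by exact_mod_cast Nat.factorial_pos _
  have h5 : Real.log (2 ^ r * ((r + s).factorial : ℝ)) ≤ Real.log (2 ^ T * (T : ℝ) ^ T) := by
    apply Real.log_le_log (by positivity)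
    gcongr
  have e1 : Real.log (2 ^ T * (T : ℝ) ^ T) = T * Real.log 2 + T * Real.log T := by
    rw [Real.log_mul (by positivity) (by positivity), Real.log_pow, Real.log_pow]
  rw [e1] at h5
  have h6 : Real.log 2 ≤ 1 := by
    have := Real.log_two_lt_d9
    linarith
  have h7 : (T : ℝ) * Real.log 2 ≤ T * 1 := mul_le_mul_of_nonneg_left h6 (Nat.cast_nonneg T)
  rw [mul_add]
  linarith

/-- from the entire function to the auxiliary function -/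
theorem f2c_log_FF (c₁ c₂ : Cv) {P : Pr} {coef : ℕ × ℕ × ℕ × ℕ × ℕ → ℂ} {x : ℝ}
    (hx : ∀ m : ℤ, x ≠ m) {B E : ℝ} {r s : ℕ} (hB : 0 < B)
    (hne : dd r s (GG c₁ c₂ P coef) x x ≠ 0)
    (hmin : ∀ i i', i + i' < r + s → dd i i' (GG c₁ c₂ P coef) x x = 0)
    (hb : ‖dd r s (GG c₁ c₂ P coef) x x‖ ≤ B * (2 ^ r * ((r + s).factorial : ℝ)) * Real.exp (-E))
    {T : ℕ} (hT : r + s ≤ T) (hT1 : 1 ≤ T) :
    dd r s (FF c₁ c₂ P coef) x x ≠ 0 ∧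
    Real.log ‖dd r s (FF c₁ c₂ P coef) x x‖ ≤ Real.log B + T * (1 + Real.log T) - E +
      P.M * |Real.log ‖N0 c₁.τ x * N0 c₂.τ x‖| := by
  have h1 : N0 c₁.τ x ≠ 0 := th_real_ne c₁.τ c₁.im x hx
  have h2 : N0 c₂.τ x ≠ 0 := th_real_ne c₂.τ c₂.im x hx
  have h3 := GG_lead c₁ c₂ P coef x x h1 h2 (r + s) hmin r s rfl
  have h12 : N0 c₁.τ x * N0 c₂.τ x ≠ 0 := mul_ne_zero h1 h2
  have hF : dd r s (FF c₁ c₂ P coef) x x ≠ 0 := by
    intro h0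
    rw [h0, mul_zero] at h3
    exact hne h3
  refine ⟨hF, ?_⟩
  have hf : (0 : ℝ) < ((r + s).factorial : ℝ) := by exact_mod_cast Nat.factorial_pos _
  have h4 : Real.log ‖dd r s (GG c₁ c₂ P coef) x x‖ =
      P.M * Real.log ‖N0 c₁.τ x * N0 c₂.τ x‖ + Real.log ‖dd r s (FF c₁ c₂ P coef) x x‖ := by
    rw [h3, norm_mul, norm_pow, Real.log_mul (pow_ne_zero _ (norm_ne_zero_iff.2 h12))
      (norm_ne_zero_iff.2 hF), Real.log_pow]
  have h5 : Real.log ‖dd r s (GG c₁ c₂ P coef) x x‖ ≤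
      Real.log B + Real.log (2 ^ r * ((r + s).factorial : ℝ)) - E := by
    have h6 := Real.log_le_log (norm_pos_iff.2 hne) hb
    rw [Real.log_mul (by positivity) (Real.exp_pos _).ne', Real.log_mul hB.ne' (by positivity),
      Real.log_exp] at h6
    linarith
  have h7 := f2c_fact hT hT1
  have h8 : -((P.M : ℝ) * Real.log ‖N0 c₁.τ x * N0 c₂.τ x‖) ≤
      P.M * |Real.log ‖N0 c₁.τ x * N0 c₂.τ x‖| := by
    rw [← mul_neg]
    exact mul_le_mul_of_nonneg_left (neg_le_abs _) (Nat.cast_nonneg _)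
  linarith

/-- the size of `T (1 + log T)` -/
theorem f2c_W {n : ℕ} (hn : 1 ≤ n) :
    ((4 * n ^ 6 * 2 ^ n : ℕ) : ℝ) * (1 + Real.log ((4 * n ^ 6 * 2 ^ n : ℕ) : ℝ)) ≤ 40 * n ^ 7 * 2 ^ n := by
  have hn' : (1 : ℝ) ≤ n := by exact_mod_cast hn
  have hn0 : (0 : ℝ) < n := by linarith
  have e : ((4 * n ^ 6 * 2 ^ n : ℕ) : ℝ) = 4 * (n : ℝ) ^ 6 * 2 ^ n := by push_cast; ring
  rw [e]
  have h1 : Real.log (4 * (n : ℝ) ^ 6 * 2 ^ n) = 2 * Real.log 2 + 6 * Real.log n + n * Real.log 2 := by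
    rw [Real.log_mul (by positivity) (by positivity), Real.log_mul (by norm_num) (by positivity),
      Real.log_pow, Real.log_pow, show (4 : ℝ) = 2 ^ 2 by norm_num, Real.log_pow]
    push_cast
    ring
  have h2 : Real.log n ≤ n - 1 := Real.log_le_sub_one_of_pos hn0
  have h3 : Real.log 2 ≤ 0.7 := by
    have := Real.log_two_lt_d9
    linarith
  have h30 : 0 < Real.log 2 := Real.log_pos one_lt_two
  have h4 : 1 + Real.log (4 * (n : ℝ) ^ 6 * 2 ^ n) ≤ 10 * n := by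
    rw [h1]
    have h5 : (n : ℝ) * Real.log 2 ≤ n * 0.7 := mul_le_mul_of_nonneg_left h3 hn0.le
    linarith
  calc 4 * (n : ℝ) ^ 6 * 2 ^ n * (1 + Real.log (4 * (n : ℝ) ^ 6 * 2 ^ n))
      ≤ 4 * (n : ℝ) ^ 6 * 2 ^ n * (10 * n) := by gcongr
    _ = 40 * (n : ℝ) ^ 7 * 2 ^ n := by ring

private lemma f2c_a1 {x L : ℝ} (hx : 1 ≤ x) (hL : 0 ≤ L) : L ≤ 4 * x ^ 6 * L := by
  have h1 : (1 : ℝ) ≤ x ^ 6 := one_le_pow₀ hx
  exact le_mul_of_one_le_left hL (by linarith)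

private lemma f2c_a2 {CS c κ₁ κ₂ L x d : ℝ} (hCS : 0 ≤ CS) (hL : 0 ≤ L) (hx : 0 ≤ x) (hκ : c * (κ₂ * κ₁ ^ 2) = 16 * CS)
    (hd : c * (κ₂ * κ₁ ^ 2) * x ^ 12 ≤ d) : CS * (4 * x ^ 6 * L) ^ 2 ≤ (L + 1) ^ 2 * d := by
  have h1 : 16 * CS * x ^ 12 ≤ d := by rw [← hκ]; exact hd
  have h2 : L ^ 2 ≤ (L + 1) ^ 2 := pow_le_pow_left₀ hL (by linarith) 2
  have h3 : 0 ≤ 16 * CS * x ^ 12 := mul_nonneg (mul_nonneg (by norm_num) hCS) (pow_nonneg hx 12)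
  calc CS * (4 * x ^ 6 * L) ^ 2 = L ^ 2 * (16 * CS * x ^ 12) := by ring
    _ ≤ (L + 1) ^ 2 * d := mul_le_mul h2 h1 h3 (sq_nonneg _)

private lemma f2c_a3 {κ x : ℝ} (hκ : 0 < κ) (hx : 1 ≤ x) (h : 1 / κ ≤ x) : 1 ≤ κ * x ^ 3 := by
  have h2 : x ≤ x ^ 3 := le_self_pow₀ hx (by norm_num)
  have h3 := h.trans h2
  rw [div_le_iff₀ hκ] at h3
  rw [mul_comm]
  exact h3

private lemma f2c_a4 {κ₁ κ₂ x : ℝ} (hκ : 0 < κ₂) (hx : 1 ≤ x) (h : κ₁ / κ₂ ≤ x) : κ₁ * x ^ 3 ≤ κ₂ * x ^ 6 := by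
  have h2 : x ≤ x ^ 3 := le_self_pow₀ hx (by norm_num)
  have h3 := h.trans h2
  rw [div_le_iff₀ hκ] at h3
  have h4 : (0 : ℝ) ≤ x ^ 3 := pow_nonneg (zero_le_one.trans hx) 3
  calc κ₁ * x ^ 3 ≤ (x ^ 3 * κ₂) * x ^ 3 := mul_le_mul_of_nonneg_right h3 h4
    _ = κ₂ * x ^ 6 := by ring

private lemma f2c_a5 {C x L : ℝ} (hC : 1 ≤ C) (hx : 0 ≤ x) (hL : 0 ≤ L) : C * L * (1 / C * x ^ 3) ^ 2 ≤ x ^ 6 * L := by
  have hC0 : C ≠ 0 := by linarith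
  have h1 : 1 / C ≤ 1 := by
    rw [div_le_one (by linarith)]
    exact hC
  have e : C * L * (1 / C * x ^ 3) ^ 2 = 1 / C * (x ^ 6 * L) := by
    field_simp
  rw [e]
  exact mul_le_of_le_one_left (mul_nonneg (pow_nonneg hx 6) hL) h1

private lemma f2c_a6 {C κ q x L : ℝ} (h : C * κ ≤ q) (hx : 0 ≤ x) (hL : 0 ≤ L) :
    C * (κ * x ^ 6) * L ≤ q * (x ^ 6 * L) := by
  calc C * (κ * x ^ 6) * L = (C * κ) * (x ^ 6 * L) := by ring
    _ ≤ q * (x ^ 6 * L) := mul_le_mul_of_nonneg_right h (mul_nonneg (pow_nonneg hx 6) hL)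

private lemma f2c_a7 {C x L : ℝ} (h : C ≤ x) (hx : 1 ≤ x) (hL : 0 ≤ L) : C * L ≤ 2 * (x ^ 6 * L) := by
  have h2 : x ≤ x ^ 6 := le_self_pow₀ hx (by norm_num)
  rw [← mul_assoc]
  exact mul_le_mul_of_nonneg_right (by linarith) hL

private lemma f2c_a8 {C x L : ℝ} (hC : C ≠ 0) (hL : L ≠ 0) :
    (2 * (x ^ 6 * L)) ^ 2 / (C * L) = 4 * (1 / C * x ^ 12 * L) := by
  rw [div_eq_iff (mul_ne_zero hC hL)]
  have e : 4 * (1 / C * x ^ 12 * L) * (C * L) = 4 * x ^ 12 * L ^ 2 * (1 / C * C) := by ring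
  rw [e, one_div_mul_cancel hC]
  ring

private lemma f2c_b1 {d C N δ l CS η x : ℝ} (h : d ≤ C * (δ + l)) (hC : C ≤ N) (hN : 0 ≤ N) (hCS : 0 ≤ CS) (hδ0 : 0 ≤ δ)
    (hl0 : 0 ≤ l) (hδ : δ ≤ CS * l) (hl : l ≤ η * x ^ 5) : d ≤ 80 * N * (CS + 1) * η * x ^ 5 := by
  have h1 : C * (δ + l) ≤ N * (CS * l + l) := mul_le_mul hC (by linarith) (by linarith) hN
  have h2 : N * (CS + 1) * l ≤ N * (CS + 1) * (η * x ^ 5) :=
    mul_le_mul_of_nonneg_left hl (mul_nonneg hN (by linarith))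
  have h3 : 0 ≤ N * (CS + 1) * (η * x ^ 5) := mul_nonneg (mul_nonneg hN (by linarith)) (hl0.trans hl)
  have e1 : N * (CS * l + l) = N * (CS + 1) * l := by ring
  have e2 : 80 * N * (CS + 1) * η * x ^ 5 = 80 * (N * (CS + 1) * (η * x ^ 5)) := by ring
  rw [e2]
  rw [e1] at h1
  linarith

private lemma f2c_b2 {d C N CS W x L : ℝ} (h : d ≤ C * (CS * W + W)) (hC : C ≤ N) (hN : 0 ≤ N) (hCS : 0 ≤ CS)
    (hW0 : 0 ≤ W) (hW : W ≤ 40 * x ^ 7 * L) : d ≤ 80 * N * (CS + 1) * x ^ 7 * L := by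
  have h0 : 0 ≤ CS * W + W := add_nonneg (mul_nonneg hCS hW0) hW0
  have h1 : C * (CS * W + W) ≤ N * (CS * W + W) := mul_le_mul_of_nonneg_right hC h0
  have h2 : N * (CS + 1) * W ≤ N * (CS + 1) * (40 * x ^ 7 * L) :=
    mul_le_mul_of_nonneg_left hW (mul_nonneg hN (by linarith))
  have h3 : 0 ≤ N * (CS + 1) * (40 * x ^ 7 * L) := mul_nonneg (mul_nonneg hN (by linarith)) (hW0.trans hW)
  have e1 : N * (CS * W + W) = N * (CS + 1) * W := by ring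
  have e2 : 80 * N * (CS + 1) * x ^ 7 * L = 2 * (N * (CS + 1) * (40 * x ^ 7 * L)) := by ring
  rw [e2]
  rw [e1] at h1
  linarith

private lemma f2c_b3 {K W X x L : ℝ} (hK : 0 ≤ K) (hX : 0 < X) (hx : 1 ≤ x) (hL : 0 ≤ L) (hW : W ≤ 40 * x ^ 7 * L)
    (h : 40 * K * X ≤ x) : K * W ≤ 3 * (1 / X * x ^ 12 * L) := by
  have h5 : x ≤ x ^ 5 := le_self_pow₀ hx (by norm_num)
  have h7 : 40 * K ≤ 1 / X * x ^ 5 := by
    rw [one_div, inv_mul_eq_div, le_div_iff₀ hX]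
    exact h.trans h5
  have hx0 : 0 ≤ x := zero_le_one.trans hx
  have h8 : 0 ≤ x ^ 7 * L := mul_nonneg (pow_nonneg hx0 7) hL
  have h9 : 0 ≤ 1 / X * x ^ 12 * L := mul_nonneg (mul_nonneg (one_div_pos.2 hX).le (pow_nonneg hx0 12)) hL
  calc K * W ≤ K * (40 * x ^ 7 * L) := mul_le_mul_of_nonneg_left hW hK
    _ = (40 * K) * (x ^ 7 * L) := by ring
    _ ≤ (1 / X * x ^ 5) * (x ^ 7 * L) := mul_le_mul_of_nonneg_right h7 h8
    _ = 1 / X * x ^ 12 * L := by ring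
    _ ≤ 3 * (1 / X * x ^ 12 * L) := by linarith

/-- the final estimate -/
private lemma f2c_b4 {K CS Cb U N W δ L CN M u F V lB E : ℝ} (hK : K = CS + Cb * (CS + 1) + 1 + 3 * U + N * (2 * CS + 1))
    (hCb : 0 ≤ Cb) (hW0 : 0 ≤ W) (hδ : δ ≤ CS * W) (hδ0 : 0 ≤ δ) (hCS : 0 ≤ CS) (hL : L ≤ W) (hM0 : 0 ≤ M) (hM : M ≤ 3 * W)
    (hu : u ≤ U) (hu0 : 0 ≤ u) (hCN : CN ≤ N) (hN : 0 ≤ N) (hlB : lB = CS * W + Cb * (δ + L))
    (hF : F ≤ lB + W - 4 * E + M * u) (hV : V ≤ F + CN * (CS * W + δ + W)) (hKW : K * W ≤ 3 * E) : V ≤ -E := by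
  have h1 : M * u ≤ 3 * W * U := mul_le_mul hM hu hu0 (by linarith)
  have h2 : CN * (CS * W + δ + W) ≤ N * (CS * W + CS * W + W) :=
    mul_le_mul hCN (by linarith) (by linarith [mul_nonneg hCS hW0]) hN
  have h3 : Cb * (δ + L) ≤ Cb * (CS * W + W) := mul_le_mul_of_nonneg_left (by linarith) hCb
  have e1 : K * W = CS * W + Cb * (CS * W + W) + W + 3 * W * U + N * (CS * W + CS * W + W) := by
    rw [hK]
    ring
  rw [e1] at hKW
  linarith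

/-- the constant of the norm steps -/
private lemma f2c_c1 (q : ℕ) (CN : Fin q → ℝ) (h : ∀ j, 1 ≤ CN j) : ∃ N : ℝ, 1 ≤ N ∧ ∀ j, CN j ≤ N := by
  have h0 : ∀ j, 0 ≤ CN j := fun j => zero_le_one.trans (h j)
  refine ⟨1 + ∑ j, CN j, ?_, fun j => ?_⟩
  · have : 0 ≤ ∑ j, CN j := Finset.sum_nonneg fun j _ => h0 j
    linarith
  · have := Finset.single_le_sum (fun i _ => h0 i) (Finset.mem_univ j)
    linarith

private lemma f2c_c2 (q : ℕ) (u : Fin q → ℝ) (h : ∀ j, 0 ≤ u j) : ∃ U : ℝ, 0 ≤ U ∧ ∀ j, u j ≤ U :=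
  ⟨∑ j, u j, Finset.sum_nonneg fun j _ => h j, fun j => Finset.single_le_sum (fun i _ => h i) (Finset.mem_univ j)⟩

private lemma f2c_c3 {a : ℝ} : ∃ k : ℕ, a ≤ ((2 ^ k - 1 : ℕ) : ℝ) := by
  obtain ⟨k, hk⟩ := pow_unbounded_of_one_lt (a + 1) (one_lt_two (α := ℝ))
  refine ⟨k, ?_⟩
  rw [Nat.cast_sub Nat.one_le_two_pow]
  push_cast
  linarith

private lemma f2c_c4 {k : ℕ} (j : Fin (2 ^ k - 1)) : (j : ℕ) + 1 < 2 ^ k := by
  have := j.2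
  omega

private lemma f2c_c5 {n : ℕ} {a b c d : ℝ} (ha : 0 ≤ a) (hb : 0 < b) (hc : 0 < c) (hd : 1 ≤ d)
    (h : ⌈a + b + c + d + 1⌉₊ ≤ n) : a ≤ n ∧ b ≤ n ∧ c ≤ n ∧ d ≤ n ∧ (1 : ℝ) ≤ n := by
  have h1 : a + b + c + d + 1 ≤ n := (Nat.le_ceil _).trans (by exact_mod_cast h)
  refine ⟨?_, ?_, ?_, ?_, ?_⟩ <;> linarith

/-- F2c. One step: for large `n` there is a polynomial `Q` with small value at `ϑ`. PROOF. Constants in this order: `C_Z` (`zero_est`), `C_X` (`extra`), `C_S` (`siegel_step`),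
`c` (`params`); `κ₁ = 1/C_Z`, `κ₂ = 16 C_S/(c κ₁²)`; `k` with `q = 2^k - 1 ≥ C_Z κ₂`, `q ≥ 1`; points `pts j = (j+1)/2^k`, `j < q`; `C_N` = maximum of
the constants of `norm_step` at the `q` points; `c_N > 0` minimum of `‖N0 τ₁ (pts j) N0 τ₂ (pts j)‖` and `1` (`th_real_ne`). None of these depends on `η`. Put
`D = 80 C_N (C_S + 1)`; this is the constant in the statement. Now let `η > 0` be given, `n` large, `P` from `params` (with `C = C_Z`), `L = 2^n`,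
`S' = n⁶ L`, `S = 2 S'`, `T = 2 S = 4n⁶L`. `siegel_step` applies: `C_S T² = 16 C_S n¹² L² ≤ (L+1)² c κ₂ κ₁² n¹²`. Let `p` be the polynomials,
`coef = cf ... p`, `δ = ⌊C_S l⌋₊`, `H' = exp(C_S T (1 + log T))`, `B = H' exp(C (δ + L))` (`cf_bound`). By `cf_ne` and `zero_est` (`X = κ₂n⁶`, `R₀ = κ₁n³`:
`C_Z L R₀² ≤ S'`, `C_Z X L ≤ q S'`) some `dd r s GG (pts j) (pts j) ≠ 0` with `r + s < S`; take `r + s` minimal for this `j` (`Nat.find`). `GG_lead`: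
`dd r s GG = (N0 N0)^M dd r s FF`, so `dd r s FF ≠ 0` and by `extra` (`C_X L ≤ S`)
`log‖dd r s FF‖ ≤ log B + M log(1/c_N) + log(2^r (r+s)!) - S²/(C_X L)`, `S²/(C_X L) = 4n¹²2ⁿ/C_X`, and all the other terms are `O(n⁷ 2ⁿ)` (`1 + log T ≤ 10 n`).
`norm_step` gives `Q` with `deg Q ≤ C_N (δ + l) ≤ C_N (C_S + 1) η n⁵ ≤ D η n⁵`, `log len Q ≤ C_N (C_S + 1) T (1 + log T) ≤ C_N (C_S + 1) 40 n⁷ 2ⁿ ≤ D n⁷ 2ⁿ`,
`log‖Q(ϑ)‖ ≤ -4n¹²2ⁿ/C_X + O(n⁷2ⁿ) ≤ -n¹²2ⁿ/C_X`. -/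
theorem step (c₁ c₂ : Cv) (Ω₁ Ω₂ ϑ : ℂ) (h : Hyp c₁ c₂ Ω₁ Ω₂ ϑ) (hirr : Irrational (c₁.τ.im / c₂.τ.im))
    (hsq : ∃ r : ℚ, (c₁.τ.im / c₂.τ.im) ^ 2 = r) : ∃ D c : ℝ, 1 ≤ D ∧ 0 < c ∧ ∀ η : ℝ, 0 < η → ∃ n₀ : ℕ, ∀ n : ℕ, n₀ ≤ n →
      ∃ Q : Polynomial ℤ, aeval ϑ Q ≠ 0 ∧ (Q.natDegree : ℝ) ≤ D * η * n ^ 5 ∧ Real.log (len Q) ≤ D * n ^ 7 * 2 ^ n ∧
        ‖aeval ϑ Q‖ ≤ Real.exp (-(c * n ^ 12 * 2 ^ n)) := by
  obtain ⟨CZ, hCZ, hzero⟩ := zero_est c₁ c₂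
  obtain ⟨CX, hCX, hextra⟩ := extra c₁ c₂
  obtain ⟨CS, hCS, hsieg⟩ := siegel_step c₁ c₂ Ω₁ Ω₂ ϑ h
  obtain ⟨c, hc, hparams⟩ := params c₁.τ c₂.τ c₁.im c₂.im hirr hsq
  obtain ⟨Cb, hCb, hcfb⟩ := cf_bound Ω₁ Ω₂ ϑ h.h₁.ne h.h₂.ne
  have hCZ0 : 0 < CZ := one_pos.trans_le hCZ
  have hCX0 : 0 < CX := one_pos.trans_le hCX
  have hCS0 : 0 < CS := one_pos.trans_le hCS
  have hCb0 : 0 ≤ Cb := zero_le_one.trans hCb
  obtain ⟨κ₁, hκ₁⟩ : ∃ κ₁ : ℝ, κ₁ = 1 / CZ := ⟨_, rfl⟩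
  have hκ₁0 : 0 < κ₁ := by rw [hκ₁]; exact one_div_pos.2 hCZ0
  have hcκ : 0 < c * κ₁ ^ 2 := mul_pos hc (pow_pos hκ₁0 2)
  obtain ⟨κ₂, hκ₂⟩ : ∃ κ₂ : ℝ, κ₂ = 16 * CS / (c * κ₁ ^ 2) := ⟨_, rfl⟩
  have hκ₂0 : 0 < κ₂ := by rw [hκ₂]; exact div_pos (mul_pos (by norm_num) hCS0) hcκ
  have hκ₂' : c * (κ₂ * κ₁ ^ 2) = 16 * CS := by
    rw [mul_left_comm, hκ₂]
    exact div_mul_cancel₀ _ hcκ.ne'
  obtain ⟨k, hqr⟩ := f2c_c3 (a := CZ * κ₂)
  choose CN hCN1 hCN using fun j : Fin (2 ^ k - 1) => norm_step c₁ c₂ Ω₁ Ω₂ ϑ h k ((j : ℤ) + 1) (f2c_not_dvd (f2c_c4 j))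
  obtain ⟨N, hN1, hNj⟩ := f2c_c1 _ CN hCN1
  have hN0 : 0 ≤ N := zero_le_one.trans hN1
  obtain ⟨U, hU0, hUj⟩ := f2c_c2 (2 ^ k - 1)
    (fun j : Fin (2 ^ k - 1) => |Real.log ‖N0 c₁.τ (f2c_pt k j) * N0 c₂.τ (f2c_pt k j)‖|) (fun j => abs_nonneg _)
  obtain ⟨K, hK⟩ : ∃ K : ℝ, K = CS + Cb * (CS + 1) + 1 + 3 * U + N * (2 * CS + 1) := ⟨_, rfl⟩
  have hK0 : 0 ≤ K := by
    rw [hK]
    have h1 : 0 ≤ Cb * (CS + 1) := mul_nonneg hCb0 (by linarith)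
    have h2 : 0 ≤ N * (2 * CS + 1) := mul_nonneg hN0 (by linarith)
    linarith
  refine ⟨80 * N * (CS + 1), 1 / CX, ?_, one_div_pos.2 hCX0, ?_⟩
  · clear hzero hextra hsieg hparams hcfb hCN hUj
    have h1 : 1 * 1 ≤ N * (CS + 1) := mul_le_mul hN1 (by linarith) zero_le_one hN0
    rw [mul_assoc]
    linarith
  intro η hη
  obtain ⟨n₁, hn₁⟩ := hparams κ₁ κ₂ η CZ hκ₁0 hκ₂0 hη hCZ
  refine ⟨max n₁ ⌈40 * K * CX + 1 / κ₁ + κ₁ / κ₂ + CX + 1⌉₊, fun n hn => ?_⟩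
  obtain ⟨hna, hnb, hnc, hnd, hn1'⟩ := f2c_c5 (n := n) (mul_nonneg (mul_nonneg (by norm_num) hK0) hCX0.le)
    (one_div_pos.2 hκ₁0) (div_pos hκ₁0 hκ₂0) hCX ((le_max_right _ _).trans hn)
  have hn1 : 1 ≤ n := by exact_mod_cast hn1'
  have hnn0 : (0 : ℝ) ≤ n := Nat.cast_nonneg n
  obtain ⟨P, hP, hPL, hPl, hPd, hPA, h₀, m₀, hnodes⟩ := hn₁ n ((le_max_left _ _).trans hn)
  clear hparams hn₁ hn
  have hLr : ((P.L : ℕ) : ℝ) = 2 ^ n := by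
    rw [hPL]
    push_cast
    rfl
  have hLpos : (0 : ℝ) < 2 ^ n := pow_pos two_pos n
  have hlL : (P.l : ℝ) ≤ 2 ^ n := by
    rw [← hLr]
    exact Nat.cast_le.2 hP.hl
  -- the orders
  obtain ⟨S', hS'⟩ : ∃ S' : ℕ, S' = n ^ 6 * 2 ^ n := ⟨_, rfl⟩
  obtain ⟨T, hT⟩ : ∃ T : ℕ, T = 4 * n ^ 6 * 2 ^ n := ⟨_, rfl⟩
  have hTS : T = 2 * (2 * S') := by
    rw [hT, hS']
    ring
  have hS'r : (S' : ℝ) = n ^ 6 * 2 ^ n := by
    rw [hS']
    push_cast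
    rfl
  have hTr : (T : ℝ) = 4 * n ^ 6 * 2 ^ n := by
    rw [hT]
    push_cast
    rfl
  have hTL : (2 : ℝ) ^ n ≤ T := by
    rw [hTr]
    exact f2c_a1 hn1' hLpos.le
  have hLT : P.L ≤ T := by
    have : ((P.L : ℕ) : ℝ) ≤ T := by rw [hLr]; exact hTL
    exact_mod_cast this
  have hT1r : (1 : ℝ) ≤ T := (one_le_pow₀ one_le_two).trans hTL
  have hT1 : 1 ≤ T := by exact_mod_cast hT1r
  obtain ⟨W, hW⟩ : ∃ W : ℝ, W = T * (1 + Real.log T) := ⟨_, rfl⟩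
  have hlogT : 0 ≤ Real.log T := Real.log_nonneg hT1r
  have hTW : (T : ℝ) ≤ W := by
    rw [hW]
    exact le_mul_of_one_le_right (Nat.cast_nonneg T) (le_add_of_nonneg_right hlogT)
  have hW40 : W ≤ 40 * n ^ 7 * 2 ^ n := by
    rw [hW, hT]
    exact f2c_W hn1
  have hW0 : 0 ≤ W := (Nat.cast_nonneg T).trans hTW
  -- Siegel
  obtain ⟨p, hp0, hpdeg, hplen, hpvan⟩ := hsieg P hP T hLT (by
    rw [hTr, hLr]
    exact f2c_a2 hCS0.le hLpos.le hnn0 hκ₂' hPd)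
  clear hsieg
  obtain ⟨δ, hδ⟩ : ∃ δ : ℕ, δ = ⌊CS * P.l⌋₊ := ⟨_, rfl⟩
  have hCSl : 0 ≤ CS * P.l := mul_nonneg hCS0.le (Nat.cast_nonneg _)
  have hδr : (δ : ℝ) ≤ CS * P.l := by
    rw [hδ]
    exact Nat.floor_le hCSl
  have hpdeg' : ∀ ν, (p ν).natDegree ≤ δ := fun ν => by
    rw [hδ]
    exact Nat.le_floor (hpdeg ν)
  rw [mul_assoc, ← hW] at hplen
  have hH'1 : 1 ≤ Real.exp (CS * W) := Real.one_le_exp (mul_nonneg hCS0.le hW0)
  obtain ⟨B, hB⟩ : ∃ B : ℝ, B = Real.exp (CS * W) * Real.exp (Cb * (δ + P.L)) := ⟨_, rfl⟩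
  have hB0 : 0 < B := by
    rw [hB]
    exact mul_pos (Real.exp_pos _) (Real.exp_pos _)
  have hlogB : Real.log B = CS * W + Cb * (δ + P.L) := by
    rw [hB, ← Real.exp_add, Real.log_exp]
  have hcoefB : ∀ ν ∈ P.box, ‖cf ϑ Ω₁ Ω₂ P p ν‖ ≤ B := by
    rw [hB]
    exact hcfb P hP δ (Real.exp (CS * W)) p hpdeg' hplen
  clear hcfb
  -- the zero estimate
  have hnotvan : ¬ Van c₁ c₂ P (cf ϑ Ω₁ Ω₂ P p) (fun j : Fin (2 ^ k - 1) => f2c_pt k j) (2 * S') := by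
    intro hvan
    obtain ⟨ν, hν, hνne⟩ := cf_ne Ω₁ Ω₂ ϑ h.h₁.ne h.h₂.ne h.tr P p hp0
    refine hνne (hzero P hP (cf ϑ Ω₁ Ω₂ P p) (2 ^ k - 1) S' (fun j : Fin (2 ^ k - 1) => f2c_pt k j) ?_ hvan
      (κ₂ * n ^ 6) (κ₁ * n ^ 3) ?_ ?_ ?_ ?_ ?_ h₀ m₀ hnodes ν hν)
    · intro i j hij m
      exact f2c_pt_diff (f2c_c4 i) (f2c_c4 j) (fun h0 => hij (Fin.ext h0)) m
    · exact f2c_a3 hκ₁0 hn1' hnb
    · exact f2c_a4 hκ₂0 hn1' hnc
    · rw [hLr, hS'r, hκ₁]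
      exact f2c_a5 hCZ hnn0 hLpos.le
    · rw [hLr, hS'r]
      exact f2c_a6 hqr hnn0 hLpos.le
    · rw [hS'r]
      exact hPA
  clear hzero
  unfold Van at hnotvan
  push Not at hnotvan
  obtain ⟨j, r₀, s₀, hrs₀, hne₀⟩ := hnotvan
  obtain ⟨r, s, hrs, hne, hmin⟩ := f2c_find
    (f := fun r s => dd r s (GG c₁ c₂ P (cf ϑ Ω₁ Ω₂ P p)) (f2c_pt k j) (f2c_pt k j)) hrs₀ hne₀
  have hS2 : ((2 * S' : ℕ) : ℝ) = 2 * (n ^ 6 * 2 ^ n) := by
    rw [← hS'r]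
    push_cast
    rfl
  have hext := hextra P hP B (cf ϑ Ω₁ Ω₂ P p) hcoefB (2 * S') (by
    rw [hLr, hS2]
    exact f2c_a7 hnd hn1' hLpos.le) (by
    rw [← hTS]
    exact hpvan) r s hrs (f2c_pt k j)
  rw [hS2, hLr, f2c_a8 hCX0.ne' hLpos.ne'] at hext
  have hrsT : r + s ≤ T := by omega
  obtain ⟨hFne, hFlog⟩ := f2c_log_FF c₁ c₂ (f2c_pt_int (f2c_c4 j)) hB0 hne hmin hext (T := T) hrsT hT1
  rw [← hW] at hFlog
  rw [f2c_pt_coe] at hFne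
  obtain ⟨Q, hQ0, hQdeg, hQlen, hQval⟩ := hCN j P hP T δ (Real.exp (CS * W)) p hLT hH'1 hpdeg' hplen r s hrsT hFne
  rw [Real.log_exp, ← hW] at hQlen hQval
  rw [← f2c_pt_coe] at hQval
  refine ⟨Q, hQ0, f2c_b1 hQdeg (hNj j) hN0 hCS0.le (Nat.cast_nonneg _) (Nat.cast_nonneg _) hδr hPl,
    f2c_b2 hQlen (hNj j) hN0 hCS0.le hW0 hW40, ?_⟩
  rw [← Real.log_le_iff_le_exp (norm_pos_iff.2 hQ0)]
  have hLW : (P.L : ℝ) ≤ W := by
    rw [hLr]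
    exact hTL.trans hTW
  have hMW : (P.M : ℝ) ≤ 3 * W := by
    have h1 : P.M ≤ 3 * P.L := by
      have := hP.hl
      unfold Pr.M
      omega
    have h2 : (P.M : ℝ) ≤ 3 * P.L := by exact_mod_cast h1
    exact h2.trans (mul_le_mul_of_nonneg_left hLW (by norm_num))
  exact f2c_b4 hK hCb0 hW0 (hδr.trans (mul_le_mul_of_nonneg_left (hlL.trans (hTL.trans hTW)) hCS0.le))
    (Nat.cast_nonneg _) hCS0.le hLW (Nat.cast_nonneg _) hMW (hUj j) (abs_nonneg _) (hNj j) hN0 hlogB hFlog hQval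
    (f2c_b3 hK0 hCX0 hn1' hLpos.le hW40 hna)

/-- F2d. PROOF. `gelfond` with `a = 256`: `Λ`. `D, c` from `step`; `η = c/(Λ D²)`, `δ_n = D η n⁵`, `σ_n = D n⁷ 2ⁿ`: `Λ δ_n σ_n = c n¹² 2ⁿ`. For large `n`: `δ_n ≥ 1`,
`δ_n ≤ σ_n`, monotone, `(n+1)⁵ ≤ 32 n⁵`, `(n+1)⁷ 2^(n+1) ≤ 256 n⁷ 2ⁿ` (`n ≥ 1`). -/
theorem core (c₁ c₂ : Cv) (Ω₁ Ω₂ ϑ : ℂ) (h : Hyp c₁ c₂ Ω₁ Ω₂ ϑ) (hirr : Irrational (c₁.τ.im / c₂.τ.im))
    (hsq : ∃ r : ℚ, (c₁.τ.im / c₂.τ.im) ^ 2 = r) : False := by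
  obtain ⟨D, c, hD, hc, hstep⟩ := step c₁ c₂ Ω₁ Ω₂ ϑ h hirr hsq
  obtain ⟨Λ, hΛ, hgel⟩ := gelfond ϑ 256 (by norm_num)
  have hD0 : 0 < D := by linarith
  set η : ℝ := c / (Λ * D ^ 2) with hη
  have hη0 : 0 < η := by positivity
  obtain ⟨n₀, hn₀⟩ := hstep η hη0
  have hσ : Tendsto (fun n : ℕ => D * (n : ℝ) ^ 7 * 2 ^ n) atTop atTop := by
    refine tendsto_atTop_mono' _ ?_ (tendsto_natCast_atTop_atTop (R := ℝ))
    filter_upwards [eventually_ge_atTop 1] with n hn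
    have hn1 : (1 : ℝ) ≤ n := by exact_mod_cast hn
    have h1 : (n : ℝ) ≤ (n : ℝ) ^ 7 := le_self_pow₀ hn1 (by norm_num)
    have h2 : (1 : ℝ) ≤ 2 ^ n := one_le_pow₀ one_le_two
    have h3 : (1 : ℝ) * n ≤ D * (n : ℝ) ^ 7 := by gcongr
    have h4 : (0 : ℝ) ≤ D * (n : ℝ) ^ 7 := by positivity
    nlinarith
  refine hgel (fun n => D * η * (n : ℝ) ^ 5) (fun n => D * (n : ℝ) ^ 7 * 2 ^ n) ?_ hσ ?_
  · filter_upwards [eventually_ge_atTop (⌈1 / (D * η) + η⌉₊ + 1)] with n hn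
    have hn1 : 1 ≤ n := by omega
    have hn1' : (1 : ℝ) ≤ n := by exact_mod_cast hn1
    have hn2 : 1 / (D * η) + η ≤ n := by
      have h1 := Nat.le_ceil (1 / (D * η) + η)
      have h2 : ((⌈1 / (D * η) + η⌉₊ + 1 : ℕ) : ℝ) ≤ n := by exact_mod_cast hn
      push_cast at h2
      linarith
    have hDη : 0 < D * η := by positivity
    have hi : 0 < 1 / (D * η) := by positivity
    have h5 : (n : ℝ) ≤ (n : ℝ) ^ 5 := le_self_pow₀ hn1' (by norm_num)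
    have h2n : (1 : ℝ) ≤ 2 ^ n := one_le_pow₀ one_le_two
    have hsucc : ((n + 1 : ℕ) : ℝ) ≤ 2 * n := by
      push_cast
      linarith
    have hle : (n : ℝ) ≤ ((n + 1 : ℕ) : ℝ) := by
      push_cast
      linarith
    refine ⟨?_, ?_, ?_, ?_, ?_, ?_⟩
    · have h6 : 1 / (D * η) ≤ (n : ℝ) ^ 5 := by linarith
      rw [div_le_iff₀ hDη] at h6
      linarith
    · have h6 : η ≤ (n : ℝ) ^ 2 * 2 ^ n := by
        have h7 : (n : ℝ) ≤ (n : ℝ) ^ 2 := le_self_pow₀ hn1' (by norm_num)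
        have h8 : (n : ℝ) ^ 2 * 1 ≤ (n : ℝ) ^ 2 * 2 ^ n := by gcongr
        linarith
      calc D * η * (n : ℝ) ^ 5 ≤ D * ((n : ℝ) ^ 2 * 2 ^ n) * (n : ℝ) ^ 5 := by gcongr
        _ = D * (n : ℝ) ^ 7 * 2 ^ n := by ring
    · gcongr
    · calc D * η * ((n + 1 : ℕ) : ℝ) ^ 5 ≤ D * η * (2 * n) ^ 5 := by gcongr
        _ = 32 * (D * η * (n : ℝ) ^ 5) := by ring
        _ ≤ 256 * (D * η * (n : ℝ) ^ 5) := by
          have : 0 ≤ D * η * (n : ℝ) ^ 5 := by positivity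
          linarith
    · have h6 : (2 : ℝ) ^ n ≤ 2 ^ (n + 1) := pow_le_pow_right₀ one_le_two (Nat.le_succ n)
      have h7 : (n : ℝ) ^ 7 ≤ ((n + 1 : ℕ) : ℝ) ^ 7 := by gcongr
      calc D * (n : ℝ) ^ 7 * 2 ^ n ≤ D * ((n + 1 : ℕ) : ℝ) ^ 7 * 2 ^ n := by gcongr
        _ ≤ D * ((n + 1 : ℕ) : ℝ) ^ 7 * 2 ^ (n + 1) := by gcongr
    · calc D * ((n + 1 : ℕ) : ℝ) ^ 7 * 2 ^ (n + 1) ≤ D * (2 * n) ^ 7 * 2 ^ (n + 1) := by gcongr
        _ = 256 * (D * (n : ℝ) ^ 7 * 2 ^ n) := by ring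
  · filter_upwards [eventually_ge_atTop n₀] with n hn
    obtain ⟨Q, h1, h2, h3, h4⟩ := hn₀ n hn
    refine ⟨Q, h2, h3, h1, h4.trans (le_of_eq ?_)⟩
    congr 2
    rw [hη]
    field_simp

end Pool.Agent.MSP
end

end

section

/-! # The contradiction (MP_f58a57_nt, algebraic `j`) -/

open Complex Filter Topology IntermediateField Polynomial

noncomputable section

namespace Pool.Agent.MSN

open MSP

/-- the conclusion of the Siegel step -/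
def SiegelStep (c₁ c₂ : Cv) (Ω₁ Ω₂ ϑ : ℂ) : Prop :=
  ∃ C : ℝ, 1 ≤ C ∧ ∀ (P : Pr), P.Good → ∀ T : ℕ, P.L ≤ T →
    C * (T : ℝ) ^ 2 ≤ ((P.L : ℝ) + 1) ^ 2 * (((P.d₁ : ℝ) + 1) * (P.d₂ + 1) * (P.d₃ + 1)) →
    ∃ p : P.box → Polynomial ℤ, p ≠ 0 ∧ (∀ ν, ((p ν).natDegree : ℝ) ≤ C * P.l) ∧
      (∀ ν, len (p ν) ≤ Real.exp (C * T * (1 + Real.log (P.l + 1)))) ∧
      ∀ r s, r + s < T → dd r s (GG c₁ c₂ P (cf ϑ Ω₁ Ω₂ P p)) (1 / 4) (1 / 4) = 0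

/-- the conclusion of the norm step -/
def NormStep (c₁ c₂ : Cv) (Ω₁ Ω₂ ϑ : ℂ) (k : ℕ) (a : ℤ) : Prop :=
  ∃ C : ℝ, 1 ≤ C ∧ ∀ (P : Pr), P.Good → ∀ (T δ : ℕ) (H' : ℝ) (p : P.box → Polynomial ℤ), P.L ≤ T → 1 ≤ H' →
    (∀ ν, (p ν).natDegree ≤ δ) → (∀ ν, len (p ν) ≤ H') → ∀ r s, r + s ≤ T →
    (∀ i j, i + j < r + s → dd i j (FF c₁ c₂ P (cf ϑ Ω₁ Ω₂ P p)) ((a : ℂ) / 2 ^ k) ((a : ℂ) / 2 ^ k) = 0) →
    dd r s (FF c₁ c₂ P (cf ϑ Ω₁ Ω₂ P p)) ((a : ℂ) / 2 ^ k) ((a : ℂ) / 2 ^ k) ≠ 0 →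
    ∃ Q : Polynomial ℤ, aeval ϑ Q ≠ 0 ∧ (Q.natDegree : ℝ) ≤ C * (δ + P.l) ∧
      Real.log (len Q) ≤ C * (Real.log H' + T * (1 + Real.log (P.l + 1))) ∧
      Real.log ‖aeval ϑ Q‖ ≤ Real.log ‖dd r s (FF c₁ c₂ P (cf ϑ Ω₁ Ω₂ P p)) ((a : ℂ) / 2 ^ k) ((a : ℂ) / 2 ^ k)‖ -
        Real.log ((r + s).factorial : ℝ) + C * (Real.log H' + δ + T * (1 + Real.log (P.l + 1)))

private lemma one_le_four_mul {R : ℝ} (hR : 1 ≤ R) : 1 ≤ 4 * R := by linarith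

private lemma core_sq {L : ℝ} (hL : 0 ≤ L) : L * L ≤ (L + 1) ^ 2 := by
  have h : (L + 1) ^ 2 = L * L + (2 * L + 1) := by ring
  rw [h]
  linarith

private lemma core_two_mul {C R L : ℝ} (h1 : C ≤ R) (hR : 0 ≤ R) (hL : 0 ≤ L) : C * L ≤ 2 * (R * L) := by
  have h2 : C * L ≤ R * L := mul_le_mul_of_nonneg_right h1 hL
  have h3 : 0 ≤ R * L := mul_nonneg hR hL
  linarith

/-- the points -/
def npt (k j : ℕ) : ℝ := (2 * (j : ℝ) + 1) / 2 ^ (k + 1)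

theorem npt_coe (k j : ℕ) : ((npt k j : ℝ) : ℂ) = ((2 * (j : ℤ) + 1 : ℤ) : ℂ) / 2 ^ (k + 1) := by
  unfold npt
  push_cast
  rfl

theorem npt_int (k j : ℕ) (m : ℤ) : npt k j ≠ m := by
  unfold npt
  intro h
  have h2 : (0 : ℝ) < 2 ^ (k + 1) := by positivity
  rw [div_eq_iff h2.ne'] at h
  have h3 : (2 * (j : ℤ) + 1) = m * 2 ^ (k + 1) := by exact_mod_cast h
  rw [pow_succ] at h3
  have h4 : (2 * (j : ℤ) + 1) = 2 * (m * 2 ^ k) := by rw [h3]; ring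
  omega

theorem npt_diff {k i j : ℕ} (hi : i < 2 ^ k) (hj : j < 2 ^ k) (hij : i ≠ j) (m : ℤ) :
    npt k i - npt k j ≠ m := by
  unfold npt
  intro h
  have h2 : (0 : ℝ) < 2 ^ (k + 1) := by positivity
  rw [← sub_div, div_eq_iff h2.ne'] at h
  have h3 : ((2 * (i : ℤ) + 1) - (2 * (j : ℤ) + 1)) = m * 2 ^ (k + 1) := by exact_mod_cast h
  rw [pow_succ] at h3
  have h4 : (i : ℤ) - j = m * 2 ^ k := by linarith
  have hi' : (i : ℤ) < 2 ^ k := by exact_mod_cast hi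
  have hj' : (j : ℤ) < 2 ^ k := by exact_mod_cast hj
  have hi0 : (0 : ℤ) ≤ (i : ℤ) := by positivity
  have hj0 : (0 : ℤ) ≤ (j : ℤ) := by positivity
  have hp : (0 : ℤ) < 2 ^ k := by positivity
  rcases lt_trichotomy m 0 with hm | hm | hm
  · nlinarith
  · rw [hm, zero_mul] at h4
    apply hij
    have : (i : ℤ) = j := by linarith
    exact_mod_cast this
  · nlinarith

theorem npt_not_dvd {k : ℕ} (hk : 1 ≤ k) (j : ℕ) : ¬ ((2 : ℤ) ^ (k + 1) ∣ 2 * (2 * (j : ℤ) + 1)) := by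
  intro h
  obtain ⟨m, hm⟩ := h
  obtain ⟨k', rfl⟩ : ∃ k', k = k' + 1 := ⟨k - 1, by omega⟩
  have h4 : 2 * (j : ℤ) + 1 = 2 * (2 ^ k' * m) := by
    have : (2 : ℤ) ^ (k' + 1 + 1) * m = 2 * (2 * (2 ^ k' * m)) := by ring
    rw [this] at hm
    linarith
  omega

/-- from the entire function to the auxiliary function -/
theorem n_log_FF (c₁ c₂ : Cv) {P : Pr} {coef : ℕ × ℕ × ℕ × ℕ × ℕ → ℂ} {x : ℝ}
    (hx : ∀ m : ℤ, x ≠ m) {B E : ℝ} {r s : ℕ} (hB : 0 < B)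
    (hne : dd r s (GG c₁ c₂ P coef) x x ≠ 0)
    (hmin : ∀ i i', i + i' < r + s → dd i i' (GG c₁ c₂ P coef) x x = 0)
    (hb : ‖dd r s (GG c₁ c₂ P coef) x x‖ ≤ B * (2 ^ r * ((r + s).factorial : ℝ)) * Real.exp (-E))
    {T : ℕ} (hT : r + s ≤ T) :
    (∀ i i', i + i' < r + s → dd i i' (FF c₁ c₂ P coef) x x = 0) ∧
    dd r s (FF c₁ c₂ P coef) x x ≠ 0 ∧
    Real.log ‖dd r s (FF c₁ c₂ P coef) x x‖ ≤ Real.log B + T + Real.log ((r + s).factorial : ℝ) - E +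
      P.M * |Real.log ‖N0 c₁.τ x * N0 c₂.τ x‖| := by
  have h1 : N0 c₁.τ x ≠ 0 := th_real_ne c₁.τ c₁.im x hx
  have h2 : N0 c₂.τ x ≠ 0 := th_real_ne c₂.τ c₂.im x hx
  have h3 := GG_lead c₁ c₂ P coef x x h1 h2 (r + s) hmin r s rfl
  have h12 : N0 c₁.τ x * N0 c₂.τ x ≠ 0 := mul_ne_zero h1 h2
  have hF : dd r s (FF c₁ c₂ P coef) x x ≠ 0 := by
    intro h0
    rw [h0, mul_zero] at h3
    exact hne h3
  refine ⟨?_, hF, ?_⟩
  · -- induction on the order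
    have key : ∀ k ≤ r + s, ∀ i i', i + i' < k → dd i i' (FF c₁ c₂ P coef) x x = 0 := by
      intro k
      induction k with
      | zero => intro _ i i' h; omega
      | succ k ih =>
        intro hk i i' hii
        rcases Nat.lt_succ_iff_lt_or_eq.1 hii with hlt | heq
        · exact ih (by omega) i i' hlt
        · have h4 := GG_lead c₁ c₂ P coef x x h1 h2 k (fun a b hab => hmin a b (by omega)) i i' heq
          rw [hmin i i' (by omega)] at h4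
          exact (mul_eq_zero.1 h4.symm).resolve_left (pow_ne_zero _ h12)
    exact key (r + s) le_rfl
  have hf : (0 : ℝ) < ((r + s).factorial : ℝ) := by exact_mod_cast Nat.factorial_pos _
  have h4 : Real.log ‖dd r s (GG c₁ c₂ P coef) x x‖ =
      P.M * Real.log ‖N0 c₁.τ x * N0 c₂.τ x‖ + Real.log ‖dd r s (FF c₁ c₂ P coef) x x‖ := by
    rw [h3, norm_mul, norm_pow, Real.log_mul (pow_ne_zero _ (norm_ne_zero_iff.2 h12))
      (norm_ne_zero_iff.2 hF), Real.log_pow]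
  have h5 : Real.log ‖dd r s (GG c₁ c₂ P coef) x x‖ ≤
      Real.log B + (r * Real.log 2 + Real.log ((r + s).factorial : ℝ)) - E := by
    have h6 := Real.log_le_log (norm_pos_iff.2 hne) hb
    rw [Real.log_mul (by positivity) (Real.exp_pos _).ne', Real.log_mul hB.ne' (by positivity),
      Real.log_mul (by positivity) hf.ne', Real.log_pow, Real.log_exp] at h6
    linarith
  have h7 : (r : ℝ) * Real.log 2 ≤ T := by
    have h8 : (r : ℝ) ≤ T := by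
      have : r ≤ T := by omega
      exact_mod_cast this
    have h9 := Real.log_two_lt_d9
    have h10 : 0 < Real.log 2 := Real.log_pos one_lt_two
    have h11 : (0 : ℝ) ≤ r := Nat.cast_nonneg _
    nlinarith
  have h8 : -((P.M : ℝ) * Real.log ‖N0 c₁.τ x * N0 c₂.τ x‖) ≤
      P.M * |Real.log ‖N0 c₁.τ x * N0 c₂.τ x‖| := by
    rw [← mul_neg]
    exact mul_le_mul_of_nonneg_left (neg_le_abs _) (Nat.cast_nonneg _)
  linarith

set_option maxHeartbeats 4000000 in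
/-- polynomials with bounded degree and small value -/
theorem step2 (c₁ c₂ : Cv) (Ω₁ Ω₂ ϑ : ℂ) (hΩ₁ : Ω₁ ≠ 0) (hΩ₂ : Ω₂ ≠ 0) (htr : Transcendental ℚ ϑ)
    (hirr : Irrational (c₁.τ.im / c₂.τ.im)) (hsieg : SiegelStep c₁ c₂ Ω₁ Ω₂ ϑ)
    (hnorm : ∀ (k : ℕ) (a : ℤ), ¬ ((2 : ℤ) ^ k ∣ 2 * a) → NormStep c₁ c₂ Ω₁ Ω₂ ϑ k a) (Λ : ℝ) (hΛ : 0 < Λ) :
    ∃ δ₀ σ₁ : ℝ, 1 ≤ δ₀ ∧ 0 < σ₁ ∧ ∀ᶠ L : ℕ in atTop, ∃ Q : Polynomial ℤ, (Q.natDegree : ℝ) ≤ δ₀ ∧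
      Real.log (len Q) ≤ σ₁ * L ∧ aeval ϑ Q ≠ 0 ∧ ‖aeval ϑ Q‖ ≤ Real.exp (-(Λ * δ₀ * (σ₁ * L))) := by
  obtain ⟨CZ, hCZ, hzero⟩ := zero_est c₁ c₂
  obtain ⟨CX, hCX, hextra⟩ := extra2 c₁ c₂ (1 / 4)
  obtain ⟨CS, hCS, hsieg⟩ := hsieg
  obtain ⟨c, hc, hparams⟩ := params2 c₁.τ c₂.τ c₂.im hirr
  obtain ⟨Cb, hCb, hcfb⟩ := cf_bound Ω₁ Ω₂ ϑ hΩ₁ hΩ₂
  set κ₁ : ℝ := 1 / CZ with hκ₁
  have hκ₁0 : 0 < κ₁ := one_div_pos.2 (zero_lt_one.trans_le hCZ)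
  clear_value κ₁
  set κ₂ : ℝ := 16 * CS / (c * κ₁ ^ 2) with hκ₂
  have hκ₂0 : 0 < κ₂ := div_pos (mul_pos (by norm_num) (zero_lt_one.trans_le hCS)) (mul_pos hc (pow_pos hκ₁0 2))
  clear_value κ₂
  have hκ₂' : c * (κ₂ * κ₁ ^ 2) = 16 * CS := by
    rw [hκ₂]
    field_simp
  obtain ⟨k, hk1, hk⟩ : ∃ k : ℕ, 1 ≤ k ∧ CZ * κ₂ ≤ 2 ^ k := by
    obtain ⟨k, hk⟩ := pow_unbounded_of_one_lt (CZ * κ₂) (one_lt_two (α := ℝ))
    refine ⟨k + 1, by omega, hk.le.trans ?_⟩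
    exact pow_le_pow_right₀ one_le_two (by omega)
  set q : ℕ := 2 ^ k with hq
  have hqr : CZ * κ₂ ≤ (q : ℝ) := by
    rw [hq]
    push_cast
    exact hk
  choose CN hCN1 hCN using fun j : Fin q => hnorm (k + 1) (2 * (j : ℤ) + 1) (npt_not_dvd hk1 j)
  set N : ℝ := 1 + ∑ j, CN j with hN
  have hCN0 : ∀ j, 0 ≤ CN j := fun j => zero_le_one.trans (hCN1 j)
  have hN1 : 1 ≤ N := by
    have : 0 ≤ ∑ j, CN j := Finset.sum_nonneg fun j _ => hCN0 j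
    linarith
  have hNj : ∀ j, CN j ≤ N := fun j => by
    have := Finset.single_le_sum (fun i _ => hCN0 i) (Finset.mem_univ j)
    linarith
  set u : Fin q → ℝ := fun j => |Real.log ‖N0 c₁.τ (npt k j) * N0 c₂.τ (npt k j)‖| with hu
  set U : ℝ := ∑ j, u j with hU
  have hu0 : ∀ j, 0 ≤ u j := fun j => abs_nonneg _
  have hU0 : 0 ≤ U := Finset.sum_nonneg fun j _ => hu0 j
  have hUj : ∀ j, u j ≤ U := fun j => Finset.single_le_sum (fun i _ => hu0 i) (Finset.mem_univ j)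
  clear_value U N
  set K : ℝ := CS + Cb * (CS + 1) + 1 + 3 * U + N * (2 * CS + 1) with hK
  have hNN : 0 ≤ N := zero_le_one.trans hN1
  have hK0 : 0 ≤ K := by positivity
  clear_value K
  set M : ℝ := K + Λ * (N * (CS + 1)) ^ 2 with hM
  have hCX0 : 0 < CX := by linarith
  have hM0 : 0 < M := by
    have : 0 < Λ * (N * (CS + 1)) ^ 2 := by positivity
    exact add_pos_of_nonneg_of_pos hK0 this
  clear_value M
  set η : ℝ := 1 / (4 * CX * M) with hη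
  have hη0 : 0 < η := one_div_pos.2 (mul_pos (mul_pos (by norm_num) hCX0) hM0)
  clear_value η
  obtain ⟨R, l₀, hKR, hR1, hlη, hev⟩ := hparams κ₁ κ₂ η CZ ((1 / κ₁) ^ 2 + (κ₁ / κ₂) ^ 2 + CX) hκ₁0 hκ₂0 hη0 hCZ
  have hR1r : (1 : ℝ) ≤ R := by exact_mod_cast hR1
  have hR0 : (0 : ℝ) < R := by linarith
  have hl00 : (0 : ℝ) ≤ l₀ := Nat.cast_nonneg _
  set w : ℝ := 1 + Real.log ((l₀ : ℝ) + 1) with hw
  have hw1 : 1 ≤ w := by
    have : 0 ≤ Real.log ((l₀ : ℝ) + 1) := Real.log_nonneg (by linarith)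
    linarith
  clear_value w
  have hwη : w ≤ η * R := by
    refine le_trans ?_ hlη
    have : 0 ≤ l₀ * w := by positivity
    linarith
  set δ₀ : ℝ := N * (CS + 1) * (l₀ + 1) with hδ₀
  set σ₁ : ℝ := N * (CS + 1) * (4 * R * w) with hσ₁
  have hNC : 1 ≤ N * (CS + 1) := one_le_mul_of_one_le_of_one_le hN1 (le_add_of_nonneg_left (zero_le_one.trans hCS))
  have hδ₀1 : 1 ≤ δ₀ := by
    rw [hδ₀]
    exact one_le_mul_of_one_le_of_one_le hNC (le_add_of_nonneg_left hl00)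
  have hσ₁0 : 0 < σ₁ := by
    rw [hσ₁]
    have : 0 < N * (CS + 1) := by linarith
    positivity
  clear_value δ₀ σ₁
  refine ⟨δ₀, σ₁, hδ₀1, hσ₁0, ?_⟩
  filter_upwards [hev] with L hL
  obtain ⟨P, hP, hPL, hPl, hPd, hPA, h₀, m₀, hnodes⟩ := hL
  have hL1 : 1 ≤ L := by rw [← hPL]; exact hP.hL
  have hL1r : (1 : ℝ) ≤ L := by exact_mod_cast hL1
  have hLr : ((P.L : ℕ) : ℝ) = L := by rw [hPL]
  have hlr : ((P.l : ℕ) : ℝ) = l₀ := by rw [hPl]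
  have hlL : (l₀ : ℝ) ≤ L := by
    rw [← hLr, ← hlr]
    exact_mod_cast hP.hl
  -- the orders
  set S' : ℕ := R * L with hS'
  set T : ℕ := 4 * R * L with hT
  have hTS : T = 2 * (2 * S') := by
    rw [hT, hS']
    ring
  clear_value S' T
  have hS'r : (S' : ℝ) = R * L := by
    rw [hS']
    push_cast
    ring
  have hTr : (T : ℝ) = 4 * R * L := by
    rw [hT]
    push_cast
    ring
  have hTL : (L : ℝ) ≤ T := by
    rw [hTr]
    exact le_mul_of_one_le_left (zero_le_one.trans hL1r) (one_le_four_mul hR1r)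
  have hLT : P.L ≤ T := by
    rw [hPL]
    exact_mod_cast hTL
  have hT1r : (1 : ℝ) ≤ T := hL1r.trans hTL
  set W : ℝ := T * w with hW
  clear_value W
  have hTW : (T : ℝ) ≤ W := by
    rw [hW]
    exact le_mul_of_one_le_right (zero_le_one.trans hT1r) hw1
  have hW0 : 0 ≤ W := by linarith
  have hLW : (L : ℝ) ≤ W := hTL.trans hTW
  -- Siegel
  obtain ⟨p, hp0, hpdeg, hplen, hpvan⟩ := hsieg P hP T hLT (by
    rw [hTr, hLr]
    have h1 : (L : ℝ) * L ≤ (L + 1) ^ 2 := core_sq (zero_le_one.trans hL1r)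
    calc CS * (4 * (R : ℝ) * L) ^ 2 = (L * L) * (16 * CS * R ^ 2) := by ring
      _ ≤ ((L : ℝ) + 1) ^ 2 * (16 * CS * R ^ 2) := by gcongr
      _ = ((L : ℝ) + 1) ^ 2 * (c * (κ₂ * κ₁ ^ 2) * R ^ 2) := by rw [hκ₂']
      _ ≤ ((L : ℝ) + 1) ^ 2 * (((P.d₁ : ℝ) + 1) * (P.d₂ + 1) * (P.d₃ + 1)) := by gcongr)
  set coef := cf ϑ Ω₁ Ω₂ P p with hcoef
  set δ : ℕ := ⌊CS * P.l⌋₊ with hδ
  have hCSl : 0 ≤ CS * P.l := by positivity
  have hδr : (δ : ℝ) ≤ CS * l₀ := by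
    rw [← hlr]
    exact Nat.floor_le hCSl
  have hpdeg' : ∀ ν, (p ν).natDegree ≤ δ := fun ν => Nat.le_floor (hpdeg ν)
  clear_value δ
  set H' : ℝ := Real.exp (CS * T * (1 + Real.log (P.l + 1))) with hH'
  have hH'e : CS * T * (1 + Real.log ((P.l : ℝ) + 1)) = CS * W := by
    rw [hW, hw, hlr]
    ring
  have hH'1 : 1 ≤ H' := by
    rw [hH', hH'e]
    exact Real.one_le_exp (by positivity)
  have hlogH' : Real.log H' = CS * W := by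
    rw [hH', Real.log_exp, hH'e]
  clear_value H'
  set B : ℝ := H' * Real.exp (Cb * (δ + P.L)) with hB
  have hB0 : 0 < B := by positivity
  have hlogB : Real.log B = CS * W + Cb * (δ + L) := by
    rw [hB, Real.log_mul (by positivity) (Real.exp_pos _).ne', hlogH', Real.log_exp, hLr]
  have hcoefB : ∀ ν ∈ P.box, ‖coef ν‖ ≤ B := hcfb P hP δ H' p hpdeg' hplen
  clear_value B
  -- the zero estimate
  have hnotvan : ¬ Van c₁ c₂ P coef (fun j : Fin q => npt k j) (2 * S') := by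
    intro hvan
    obtain ⟨ν, hν, hνne⟩ := cf_ne Ω₁ Ω₂ ϑ hΩ₁ hΩ₂ htr P p hp0
    have hsq := Real.sq_sqrt hR0.le
    have hk1' : (1 / κ₁) ^ 2 ≤ R := by
      have : 0 ≤ (κ₁ / κ₂) ^ 2 := by positivity
      linarith
    have hk2' : (κ₁ / κ₂) ^ 2 ≤ R := by
      have : 0 ≤ (1 / κ₁) ^ 2 := by positivity
      linarith
    refine hνne (hzero P hP coef q S' (fun j : Fin q => npt k j) ?_ hvan (κ₂ * R) (κ₁ * Real.sqrt R)
      ?_ ?_ ?_ ?_ ?_ h₀ m₀ hnodes ν hν)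
    · intro i j hij m
      exact npt_diff i.2 j.2 (fun h0 => hij (Fin.ext h0)) m
    · have h1 : 1 / κ₁ ≤ Real.sqrt R := Real.le_sqrt_of_sq_le hk1'
      rw [div_le_iff₀ hκ₁0] at h1
      linarith
    · have h1 : κ₁ / κ₂ ≤ Real.sqrt R := Real.le_sqrt_of_sq_le hk2'
      rw [div_le_iff₀ hκ₂0] at h1
      have h3 : 0 ≤ Real.sqrt R := Real.sqrt_nonneg _
      calc κ₁ * Real.sqrt R ≤ (Real.sqrt R * κ₂) * Real.sqrt R := by gcongr
        _ = κ₂ * (Real.sqrt R) ^ 2 := by ring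
        _ = κ₂ * R := by rw [hsq]
    · rw [hLr, hS'r]
      have h1 : CZ * κ₁ ^ 2 ≤ 1 := by
        rw [hκ₁]
        have : CZ * (1 / CZ) ^ 2 = 1 / CZ := by field_simp
        rw [this, div_le_one (by linarith)]
        exact hCZ
      calc CZ * (L : ℝ) * (κ₁ * Real.sqrt R) ^ 2 = (CZ * κ₁ ^ 2) * (L * (Real.sqrt R) ^ 2) := by ring
        _ = (CZ * κ₁ ^ 2) * (L * R) := by rw [hsq]
        _ ≤ 1 * (L * R) := by gcongr
        _ = R * L := by ring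
    · rw [hLr, hS'r]
      calc CZ * (κ₂ * (R : ℝ)) * L = (CZ * κ₂) * (R * L) := by ring
        _ ≤ q * (R * L) := by gcongr
    · rw [hS'r]
      exact hPA
  unfold Van at hnotvan
  push Not at hnotvan
  obtain ⟨j, r₀, s₀, hrs₀, hne₀⟩ := hnotvan
  obtain ⟨r, s, hrs, hne, hmin⟩ := f2c_find
    (f := fun r s => dd r s (GG c₁ c₂ P coef) (npt k j) (npt k j)) hrs₀ hne₀
  have hS2 : ((2 * S' : ℕ) : ℝ) = 2 * (R * L) := by
    push_cast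
    rw [hS'r]
  have hext := hextra P hP B coef hcoefB (2 * S') (by
    rw [hLr, hS2]
    have h1 : CX ≤ R := by
      have h2 : 0 ≤ (1 / κ₁) ^ 2 := by positivity
      have h3 : 0 ≤ (κ₁ / κ₂) ^ 2 := by positivity
      linarith
    exact core_two_mul h1 hR0.le (zero_le_one.trans hL1r)) (by
    rw [← hTS]
    intro r s hrs
    have := hpvan r s hrs
    simpa using this) r s hrs (npt k j)
  have hE : ((2 * S' : ℕ) : ℝ) ^ 2 / (CX * P.L) = 4 * (1 / CX * R ^ 2 * L) := by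
    rw [hS2, hLr]
    field_simp
    ring
  rw [hE] at hext
  obtain ⟨hFmin, hFne, hFlog⟩ := n_log_FF c₁ c₂ (npt_int k j) hB0 hne hmin hext (T := T) (by omega)
  rw [npt_coe] at hFne hFlog
  obtain ⟨Q, hQ0, hQdeg, hQlen, hQval⟩ := hCN j P hP T δ H' p hLT hH'1 hpdeg' hplen r s (by omega)
    (fun i i' hii => by
      have := hFmin i i' hii
      rwa [npt_coe] at this) hFne
  have hWe : T * (1 + Real.log ((P.l : ℝ) + 1)) = W := by rw [hW, hw, hlr]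
  rw [hWe] at hQlen hQval
  have hkey : η * R ^ 2 * (4 * CX * M) = R ^ 2 := by
    rw [hη]
    field_simp
  refine ⟨Q, ?_, ?_, hQ0, ?_⟩
  · calc (Q.natDegree : ℝ) ≤ CN j * (δ + P.l) := hQdeg
      _ ≤ N * (CS * l₀ + l₀) := by
        have := hNj j
        rw [hlr]
        gcongr
      _ = N * (CS + 1) * l₀ := by ring
      _ ≤ δ₀ := by
        rw [hδ₀]
        have : l₀ ≤ (l₀ : ℝ) + 1 := by linarith
        gcongr
  · rw [hlogH'] at hQlen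
    calc Real.log (len Q) ≤ CN j * (CS * W + W) := hQlen
      _ ≤ N * (CS * W + W) := by
        have := hNj j
        gcongr
      _ = σ₁ * L := by
        rw [hσ₁, hW, hTr]
        ring
  · have hQn : 0 < ‖aeval ϑ Q‖ := norm_pos_iff.2 hQ0
    rw [← Real.log_le_iff_le_exp hQn]
    rw [hlogH'] at hQval
    have hδW : (δ : ℝ) ≤ CS * W := by
      calc (δ : ℝ) ≤ CS * l₀ := hδr
        _ ≤ CS * L := by gcongr
        _ ≤ CS * W := by gcongr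
    have hMW : (P.M : ℝ) ≤ 3 * W := by
      have h1 : P.M ≤ 3 * P.L := by
        have := hP.hl
        unfold Pr.M
        omega
      have h2 : (P.M : ℝ) ≤ 3 * P.L := by exact_mod_cast h1
      linarith
    have hMU : (P.M : ℝ) * u j ≤ 3 * W * U := by
      have := hUj j
      have := hu0 j
      gcongr
    have hval2 : CN j * (CS * W + δ + W) ≤ N * (CS * W + CS * W + W) := by
      have := hNj j
      gcongr
    have hCbW : Cb * (δ + L) ≤ Cb * (CS * W + W) := by gcongr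
    rw [hlogB] at hFlog
    have htot : Real.log ‖aeval ϑ Q‖ ≤ K * W - 4 * (1 / CX * R ^ 2 * L) := by
      have e1 : K * W = CS * W + Cb * (CS * W + W) + W + 3 * W * U + N * (CS * W + CS * W + W) := by
        rw [hK]
        ring
      have h9 := hFlog
      rw [← npt_coe] at h9 hQval
      have h10 : (P.M : ℝ) * |Real.log ‖N0 c₁.τ (npt k j) * N0 c₂.τ (npt k j)‖| = P.M * u j := rfl
      rw [h10] at h9
      rw [e1]
      linarith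
    have hWη : W ≤ 4 * η * R ^ 2 * L := by
      calc W = 4 * R * L * w := by rw [hW, hTr]
        _ ≤ 4 * R * L * (η * R) := by gcongr
        _ = 4 * η * R ^ 2 * L := by ring
    have hδσ : δ₀ * (σ₁ * L) ≤ (N * (CS + 1)) ^ 2 * (4 * η * R ^ 2 * L) := by
      calc δ₀ * (σ₁ * L) = (N * (CS + 1)) ^ 2 * (4 * R * L) * ((l₀ + 1) * w) := by
            rw [hδ₀, hσ₁]
            ring
        _ ≤ (N * (CS + 1)) ^ 2 * (4 * R * L) * (η * R) := by gcongr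
        _ = (N * (CS + 1)) ^ 2 * (4 * η * R ^ 2 * L) := by ring
    have hfin : K * W + Λ * (δ₀ * (σ₁ * L)) ≤ 1 / CX * R ^ 2 * L := by
      calc K * W + Λ * (δ₀ * (σ₁ * L)) ≤ K * (4 * η * R ^ 2 * L) + Λ * ((N * (CS + 1)) ^ 2 * (4 * η * R ^ 2 * L)) := by
            gcongr
        _ = (η * R ^ 2 * (4 * CX * M)) * (1 / CX) * L := by
            rw [hM]
            field_simp
        _ = 1 / CX * R ^ 2 * L := by rw [hkey]; ring
    have hpos : 0 ≤ 1 / CX * R ^ 2 * L := by positivity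
    calc Real.log ‖aeval ϑ Q‖ ≤ K * W - 4 * (1 / CX * R ^ 2 * L) := htot
      _ ≤ -(Λ * (δ₀ * (σ₁ * L))) := by linarith
      _ = -(Λ * δ₀ * (σ₁ * L)) := by ring

/-- the contradiction -/
theorem core2 (c₁ c₂ : Cv) (Ω₁ Ω₂ ϑ : ℂ) (hΩ₁ : Ω₁ ≠ 0) (hΩ₂ : Ω₂ ≠ 0) (htr : Transcendental ℚ ϑ)
    (hirr : Irrational (c₁.τ.im / c₂.τ.im)) (hsieg : SiegelStep c₁ c₂ Ω₁ Ω₂ ϑ)
    (hnorm : ∀ (k : ℕ) (a : ℤ), ¬ ((2 : ℤ) ^ k ∣ 2 * a) → NormStep c₁ c₂ Ω₁ Ω₂ ϑ k a) : False := by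
  obtain ⟨Λ, hΛ, hgel⟩ := gelfond ϑ 2 (by norm_num)
  obtain ⟨δ₀, σ₁, hδ, hσ, hev⟩ := step2 c₁ c₂ Ω₁ Ω₂ ϑ hΩ₁ hΩ₂ htr hirr hsieg hnorm Λ hΛ
  refine hgel (fun _ => δ₀) (fun n => σ₁ * n) ?_ ?_ hev
  · have h1 : ∀ᶠ n : ℕ in atTop, 1 + δ₀ / σ₁ ≤ (n : ℝ) := tendsto_natCast_atTop_atTop.eventually_ge_atTop _
    filter_upwards [h1] with n hn
    have hn1 : (1 : ℝ) ≤ n := by
      have : 0 ≤ δ₀ / σ₁ := by positivity
      linarith
    refine ⟨hδ, ?_, le_rfl, by linarith, ?_, ?_⟩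
    · have h2 : δ₀ / σ₁ ≤ n := by linarith
      rw [div_le_iff₀ hσ] at h2
      linarith
    · push_cast
      nlinarith
    · push_cast
      nlinarith
  · exact Tendsto.const_mul_atTop hσ tendsto_natCast_atTop_atTop

end Pool.Agent.MSN
end

end

section

/-! # F4: the theorem (MP_f58a57_nt, pairs) -/

open Complex Filter Topology IntermediateField

noncomputable section

namespace Pool.Agent.MSP

/-- F4. The derivatives of `j` at two inequivalent special points are algebraically independent. -/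
theorem pairs (z₁ z₂ : ℂ) (h1 : 0 < z₁.im) (h2 : 0 < z₂.im) (s1 : MSD.IsSpecial z₁) (s2 : MSD.IsSpecial z₂)
    (hne : ¬ MSD.GEquiv z₁ z₂) (j1 : deriv MSD.jj z₁ ≠ 0) (j2 : deriv MSD.jj z₂ ≠ 0) :
    AlgebraicIndependent ℚ ![deriv MSD.jj z₁, deriv MSD.jj z₂] := by
  by_contra hdep
  obtain ⟨ϑ, htr, ha, hb⟩ := exists_theta _ _ hdep
  obtain ⟨d₁, hd₁, hK₁⟩ := special_KK z₁ h1 s1
  obtain ⟨d₂, hd₂, hK₂⟩ := special_KK z₂ h2 s2
  obtain ⟨Ω₁, hΩ₁⟩ := MSD.cm_base d₁ hd₁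
  obtain ⟨Ω₂, hΩ₂⟩ := MSD.cm_base d₂ hd₂
  have H1 := cmd_of_KK d₁ hd₁ Ω₁ hΩ₁ z₁ h1 hK₁
  have H2 := cmd_of_KK d₂ hd₂ Ω₂ hΩ₂ z₂ h2 hK₂
  obtain ⟨hirr, hsq⟩ := irr_ratio z₁ z₂ h1 h2 d₁ d₂ hd₁ hd₂ hK₁ hK₂ hne
  obtain ⟨α₁, hα₁, e₁⟩ := theta_eq z₁ Ω₁ H1 j1
  obtain ⟨α₂, hα₂, e₂⟩ := theta_eq z₂ Ω₂ H2 j2
  refine core ⟨z₁, sE z₁, h1⟩ ⟨z₂, sE z₂, h2⟩ Ω₁ Ω₂ ϑ ⟨rfl, rfl, H1, H2, htr, ?_, ?_⟩ hirr hsq
  · rw [e₁]
    exact (hα₁.tower_top _).mul ha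
  · rw [e₂]
    exact (hα₂.tower_top _).mul hb

/-- F4b. the transcendence degree. -/
theorem trdeg_ge {n : ℕ} (z : Fin n → ℂ) (hz : ∀ i, 0 < (z i).im) (hs : ∀ i, MSD.IsSpecial (z i))
    (hind : ∀ i j, i ≠ j → ¬ MSD.GEquiv (z i) (z j)) (hj : ∀ i, deriv MSD.jj (z i) ≠ 0) (hn : 2 ≤ n) :
    (2 : Cardinal) ≤ Algebra.trdeg ℚ (IntermediateField.adjoin ℚ
      (⋃ i, {z i, MSD.jj (z i), deriv MSD.jj (z i), deriv (deriv MSD.jj) (z i)} : Set ℂ)) := by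
  have h01 : (⟨0, by omega⟩ : Fin n) ≠ ⟨1, by omega⟩ := by simp
  have key := pairs (z ⟨0, by omega⟩) (z ⟨1, by omega⟩) (hz _) (hz _) (hs _) (hs _) (hind _ _ h01) (hj _) (hj _)
  have mem : ∀ i, deriv MSD.jj (z i) ∈ IntermediateField.adjoin ℚ
      (⋃ i, {z i, MSD.jj (z i), deriv MSD.jj (z i), deriv (deriv MSD.jj) (z i)} : Set ℂ) := fun i =>
    IntermediateField.subset_adjoin _ _ (Set.mem_iUnion.mpr ⟨i, by simp⟩)
  have hx : AlgebraicIndependent ℚ (fun i : Fin 2 => (⟨deriv MSD.jj (z ⟨i, by omega⟩), mem _⟩ : IntermediateField.adjoin ℚ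
      (⋃ i, {z i, MSD.jj (z i), deriv MSD.jj (z i), deriv (deriv MSD.jj) (z i)} : Set ℂ))) := by
    apply AlgebraicIndependent.of_comp (IntermediateField.val _)
    have e : (fun i : Fin 2 => deriv MSD.jj (z ⟨i, by omega⟩)) =
        ![deriv MSD.jj (z ⟨0, by omega⟩), deriv MSD.jj (z ⟨1, by omega⟩)] := by
      funext i
      fin_cases i <;> rfl
    change AlgebraicIndependent ℚ (fun i : Fin 2 => deriv MSD.jj (z ⟨i, by omega⟩))
    rw [e]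
    exact key
  have h2 := hx.cardinalMk_le_trdeg
  simpa using h2

end Pool.Agent.MSP
end

end

section

/-! # The theorem, given the two arithmetic steps (MP_f58a57_nt, algebraic `j`) -/

open Complex Filter Topology IntermediateField

noncomputable section

namespace Pool.Agent.MSN

open MSD

/-- the two arithmetic steps -/
def Steps : Prop :=
  ∀ (c₁ c₂ : MSP.Cv) (Ω₁ Ω₂ ϑ : ℂ), Hyp2 c₁ c₂ Ω₁ Ω₂ ϑ →
    SiegelStep c₁ c₂ Ω₁ Ω₂ ϑ ∧ ∀ (k : ℕ) (a : ℤ), ¬ ((2 : ℤ) ^ k ∣ 2 * a) → NormStep c₁ c₂ Ω₁ Ω₂ ϑ k a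

/-- no two curves with algebraic invariants have all their data algebraic over `ℚ(ϑ)`, unless they are isogenous with CM -/
theorem main_DD (hS : Steps) {τ₁ τ₂ Ω₁ Ω₂ ϑ : ℂ} (h₁ : DD τ₁ Ω₁ ϑ) (h₂ : DD τ₂ Ω₂ ϑ) (tr : Transcendental ℚ ϑ)
    (hn : ¬ (IsSpecial τ₁ ∧ IsSpecial τ₂ ∧ GEquiv τ₁ τ₂)) : False := by
  obtain ⟨a, b, c, d, a', b', c', d', hd, hd', hirr⟩ := exists_irr τ₁ τ₂ h₁.im h₂.im hn
  have H₁ := h₁.sl2 hd
  have H₂ := h₂.sl2 hd'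
  have hyp : Hyp2 ⟨_, MSP.sE _, H₁.im⟩ ⟨_, MSP.sE _, H₂.im⟩ _ _ ϑ := ⟨rfl, rfl, H₁, H₂, tr⟩
  obtain ⟨hs, hnm⟩ := hS _ _ _ _ _ hyp
  exact core2 _ _ _ _ ϑ H₁.ne H₂.ne tr hirr hs hnm

/-- a set of numbers that generates a field of transcendence degree at most one -/
theorem exists_theta_set (S : Set ℂ) (h : ¬ (2 : Cardinal) ≤ Algebra.trdeg ℚ (adjoin ℚ S)) :
    ∃ ϑ : ℂ, Transcendental ℚ ϑ ∧ ∀ s ∈ S, IsAlgebraic ℚ⟮ϑ⟯ s := by
  by_cases hex : ∃ s ∈ S, Transcendental ℚ s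
  · obtain ⟨s, hs, hst⟩ := hex
    refine ⟨s, hst, fun t ht => ?_⟩
    by_contra hcon
    apply h
    have key := MSP.f3_indep s t hst hcon
    have ms : s ∈ adjoin ℚ S := subset_adjoin _ _ hs
    have mt : t ∈ adjoin ℚ S := subset_adjoin _ _ ht
    have hx : AlgebraicIndependent ℚ ![(⟨s, ms⟩ : adjoin ℚ S), ⟨t, mt⟩] := by
      apply AlgebraicIndependent.of_comp (IntermediateField.val _)
      have e : ((IntermediateField.val (adjoin ℚ S)) ∘ ![(⟨s, ms⟩ : adjoin ℚ S), ⟨t, mt⟩]) = ![s, t] := by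
        funext i
        fin_cases i <;> rfl
      rw [e]
      exact key
    have h2 := hx.cardinalMk_le_trdeg
    simpa using h2
  · push Not at hex
    obtain ⟨ϑ, hϑ, -, -⟩ := MSP.exists_theta 0 0 (by
      intro hi
      have := hi.ne_zero 0
      simp at this)
    refine ⟨ϑ, hϑ, fun s hs => ?_⟩
    have := hex s hs
    unfold Transcendental at this
    rw [not_not] at this
    exact this.tower_top _

/-- one nonspecial point with algebraic `j` -/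
theorem trdeg_nonspecial (hS : Steps) (z : ℂ) (hz : 0 < z.im) (hns : ¬ IsSpecial z) (hj : deriv jj z ≠ 0)
    (h0 : IsAlgebraic ℚ (jj z)) (S : Set ℂ) (m0 : z ∈ S) (m1 : deriv jj z ∈ S) (m2 : deriv (deriv jj) z ∈ S) :
    (2 : Cardinal) ≤ Algebra.trdeg ℚ (adjoin ℚ S) := by
  by_contra hcon
  obtain ⟨ϑ, tr, hal⟩ := exists_theta_set S hcon
  obtain ⟨Ω, hD⟩ := exists_DD z ϑ hz hj h0 (hal _ m0) (hal _ m1) (hal _ m2)
  exact main_DD hS hD hD tr (fun h => hns h.1)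

theorem isAlg_ofReal (x : ℝ) (z : ℂ) (hz : z.im = x) (h : IsAlgebraic ℚ z) : IsAlgebraic ℚ (x : ℂ) := by
  have hc : IsAlgebraic ℚ ((starRingEnd ℂ) z) := by
    have := h.algHom (Complex.conjAe.toAlgHom.restrictScalars ℚ)
    simpa using this
  have hI : IsAlgebraic ℚ I := by
    refine ⟨Polynomial.X ^ 2 + 1, ?_, by simp⟩
    intro h
    have h2 := congrArg (Polynomial.eval 0) h
    simp at h2
  have h2a : IsAlgebraic ℚ (2 : ℂ) := by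
    have := isAlgebraic_algebraMap (R := ℚ) (A := ℂ) 2
    simpa using this
  have e : (x : ℂ) = (z - (starRingEnd ℂ) z) * (2 * I)⁻¹ := by
    rw [← hz, Complex.sub_conj]
    have := I_ne_zero
    push_cast
    field_simp
  rw [e]
  exact (h.sub hc).mul (h2a.mul hI).inv

/-- the data of a special point -/
theorem DD_special (z Ω ϑ : ℂ) (h : MSP.CMD z Ω) (hϑ : IsAlgebraic ℚ⟮ϑ⟯ (Real.pi * Ω ^ 2 : ℂ)) : DD z Ω ϑ := by
  refine ⟨h.im, h.ne, h.a4, h.a6, h.alg.tower_top _, ?_, hϑ⟩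
  have hpi : (Real.pi : ℂ) ≠ 0 := by exact_mod_cast Real.pi_ne_zero
  have hy : (z.im : ℂ) ≠ 0 := by exact_mod_cast h.im.ne'
  have hΩ := h.ne
  have e : e2 z / Ω ^ 2 = e2s z / Ω ^ 2 + ((3 : ℤ) : ℂ) / ((z.im : ℂ) * (Real.pi * Ω ^ 2)) := by
    unfold e2s
    push_cast
    field_simp
    ring
  rw [e]
  exact (h.a2.tower_top _).add (gm_alg _ (gm_algZ _ _) (((isAlg_ofReal _ z rfl h.alg).tower_top _).mul hϑ))

/-- `z` is not equivalent to both `√-1` and `√-2` -/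
theorem exists_other (z : ℂ) (hz : 0 < z.im) (hs : IsSpecial z) : ∃ d : ℕ, 0 < d ∧ ¬ GEquiv z (rt d) := by
  by_contra hcon
  push Not at hcon
  obtain ⟨d, hd, hK⟩ := MSP.special_KK z hz hs
  have hKK : ∀ w : ℂ, GEquiv z w → w ∈ KK d := by
    rintro w ⟨a, b, c, e, hne, hne', rfl⟩
    obtain ⟨u, v, rfl⟩ := hK
    have hsq := g3e_rt_sq d
    have hd' : (0 : ℚ) < d := by exact_mod_cast hd
    set N : ℚ := (c * u + e) ^ 2 + d * (c * v) ^ 2 with hN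
    have hNC : (c * (u + v * rt d) + e : ℂ) * (c * (u - v * rt d) + e) = N := by
      rw [hN]
      push_cast
      linear_combination (-(c : ℂ) ^ 2 * v ^ 2) * hsq
    have hN0 : (N : ℂ) ≠ 0 := by
      rw [← hNC]
      refine mul_ne_zero hne' ?_
      intro h0
      have h1 : (c * (u + v * rt d) + e : ℂ) = 2 * (c * u + e) := by linear_combination -h0
      have h2 : (N : ℂ) = 0 := by rw [← hNC, h0, mul_zero]
      have h3 : N = 0 := by exact_mod_cast h2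
      have h4 : c * u + e = 0 := by
        rw [hN] at h3
        nlinarith [sq_nonneg (c * u + e), mul_nonneg hd'.le (sq_nonneg (c * v))]
      apply hne'
      rw [h1]
      have h5 : ((c * u + e : ℚ) : ℂ) = 0 := by rw [h4]; simp
      push_cast at h5
      rw [h5, mul_zero]
    refine ⟨((a * u + b) * (c * u + e) + d * (a * v * (c * v))) / N, (a * v * (c * u + e) - (a * u + b) * (c * v)) / N, ?_⟩
    push_cast
    rw [div_eq_iff hne']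
    field_simp
    rw [← hNC]
    linear_combination (-(a * v * c * v * (c * (u + v * rt d) + e) : ℂ)) * hsq
  obtain ⟨u1, v1, e1⟩ := hKK _ (hcon 1 one_pos)
  obtain ⟨u2, v2, e2⟩ := hKK _ (hcon 2 two_pos)
  have him : ∀ k : ℕ, (rt k).im = Real.sqrt k := fun k => by simp [rt]
  have i1 : Real.sqrt ((1 : ℕ) : ℝ) = v1 * Real.sqrt d := by rw [← him, e1, g3e_im]
  have i2 : Real.sqrt ((2 : ℕ) : ℝ) = v2 * Real.sqrt d := by rw [← him, e2, g3e_im]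
  rw [Nat.cast_one, Real.sqrt_one] at i1
  have hv1 : (v1 : ℝ) ≠ 0 := by
    intro h0
    rw [h0, zero_mul] at i1
    exact one_ne_zero i1
  apply irrational_sqrt_two
  refine ⟨v2 / v1, ?_⟩
  push_cast at i2 ⊢
  rw [i2, div_eq_iff hv1, mul_assoc, mul_comm (Real.sqrt d), ← i1, mul_one]

/-- one special point -/
theorem trdeg_special (hS : Steps) (z : ℂ) (hz : 0 < z.im) (hs : IsSpecial z) (hj : deriv jj z ≠ 0) (S : Set ℂ)
    (m1 : deriv jj z ∈ S) : (1 : Cardinal) ≤ Algebra.trdeg ℚ (adjoin ℚ S) := by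
  by_contra hcon
  have h0 : Algebra.trdeg ℚ (adjoin ℚ S) = 0 := by
    by_contra h
    exact hcon (Cardinal.one_le_iff_ne_zero.2 h)
  have h1 : Algebra.IsAlgebraic ℚ (adjoin ℚ S) := trdeg_eq_zero_iff.1 h0
  have ha : IsAlgebraic ℚ (deriv jj z) := by
    have := h1.isAlgebraic ⟨_, subset_adjoin ℚ S m1⟩
    exact (isAlgebraic_algebraMap_iff (A := ℂ) (algebraMap (adjoin ℚ S) ℂ).injective).2 this
  obtain ⟨d, hd, hK⟩ := MSP.special_KK z hz hs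
  obtain ⟨Ω, hΩ⟩ := cm_base d hd
  have H := MSP.cmd_of_KK d hd Ω hΩ z hz hK
  obtain ⟨α, hα, e⟩ := MSP.theta_eq z Ω H hj
  obtain ⟨d', hd', hne⟩ := exists_other z hz hs
  obtain ⟨Ω', hΩ'⟩ := cm_base d' hd'
  have him' : 0 < (rt d').im := by
    have : (rt d').im = Real.sqrt d' := by simp [rt]
    rw [this]
    exact Real.sqrt_pos.2 (by exact_mod_cast hd')
  have H' := MSP.cmd_of_KK d' hd' Ω' hΩ' (rt d') him' ⟨0, 1, by simp⟩
  obtain ⟨ϑ, tr, t1, t2⟩ : ∃ ϑ : ℂ, Transcendental ℚ ϑ ∧ IsAlgebraic ℚ⟮ϑ⟯ (Real.pi * Ω ^ 2 : ℂ) ∧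
      IsAlgebraic ℚ⟮ϑ⟯ (Real.pi * Ω' ^ 2 : ℂ) := by
    apply MSP.exists_theta
    intro hi
    have := hi.transcendental 0
    apply this
    change IsAlgebraic ℚ (Real.pi * Ω ^ 2 : ℂ)
    rw [e]
    exact hα.mul ha
  exact main_DD hS (DD_special z Ω ϑ H t1) (DD_special _ Ω' ϑ H' t2) tr (fun h => hne h.2.2)

/-- the theorem: the inequality with the right side replaced by `min 2 (3a + b)` -/
theorem trdeg_min (hS : Steps) {n : ℕ} (z : Fin n → ℂ) (hz : ∀ i, 0 < (z i).im)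
    (hind : ∀ i k, i ≠ k → ¬ GEquiv (z i) (z k)) (hj : ∀ i, deriv jj (z i) ≠ 0) :
    ((min 2 (3 * Nat.card {i // ¬ IsSpecial (z i) ∧ IsAlgebraic ℚ (jj (z i))} + Nat.card {i // IsSpecial (z i)}) : ℕ) :
      Cardinal) ≤ Algebra.trdeg ℚ (adjoin ℚ
        (⋃ i, {z i, jj (z i), deriv jj (z i), deriv (deriv jj) (z i)} : Set ℂ)) := by
  set S : Set ℂ := (⋃ i, {z i, jj (z i), deriv jj (z i), deriv (deriv jj) (z i)} : Set ℂ) with hSdef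
  have m0 : ∀ i, z i ∈ S := fun i => Set.mem_iUnion.mpr ⟨i, by simp⟩
  have m1 : ∀ i, deriv jj (z i) ∈ S := fun i => Set.mem_iUnion.mpr ⟨i, by simp⟩
  have m2 : ∀ i, deriv (deriv jj) (z i) ∈ S := fun i => Set.mem_iUnion.mpr ⟨i, by simp⟩
  by_cases ha : ∃ i, ¬ IsSpecial (z i) ∧ IsAlgebraic ℚ (jj (z i))
  · obtain ⟨i, h1, h2⟩ := ha
    have h := trdeg_nonspecial hS (z i) (hz i) h1 (hj i) h2 S (m0 i) (m1 i) (m2 i)
    refine le_trans ?_ h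
    have : min 2 (3 * Nat.card {i // ¬ IsSpecial (z i) ∧ IsAlgebraic ℚ (jj (z i))} + Nat.card {i // IsSpecial (z i)}) ≤ 2 :=
      min_le_left _ _
    exact_mod_cast this
  · have h0 : Nat.card {i // ¬ IsSpecial (z i) ∧ IsAlgebraic ℚ (jj (z i))} = 0 := by
      have : IsEmpty {i // ¬ IsSpecial (z i) ∧ IsAlgebraic ℚ (jj (z i))} := ⟨fun i => ha ⟨i.1, i.2⟩⟩
      simp
    rw [h0, mul_zero, zero_add]
    rcases Nat.lt_or_ge (Nat.card {i // IsSpecial (z i)}) 2 with hb | hb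
    · rcases Nat.eq_zero_or_pos (Nat.card {i // IsSpecial (z i)}) with hb0 | hb0
      · rw [hb0]
        simp
      · have hb1 : Nat.card {i // IsSpecial (z i)} = 1 := by omega
        rw [hb1]
        obtain ⟨⟨i, hi⟩⟩ := (Nat.card_pos_iff.1 hb0).1
        have := trdeg_special hS (z i) (hz i) hi (hj i) S (m1 i)
        simpa using this
    · have hfin : Finite {i // IsSpecial (z i)} := inferInstance
      have hnt : Nontrivial {i // IsSpecial (z i)} := Finite.one_lt_card_iff_nontrivial.1 (by omega)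
      obtain ⟨⟨i, hi⟩, ⟨k, hk⟩, hik⟩ := hnt.exists_pair_ne
      have hik' : i ≠ k := fun h => hik (Subtype.ext h)
      have h : (2 : Cardinal) ≤ Algebra.trdeg ℚ (adjoin ℚ S) := by
        by_contra hcon
        obtain ⟨ϑ, tr, hal⟩ := exists_theta_set S hcon
        have dd : ∀ i, IsSpecial (z i) → ∃ Ω, DD (z i) Ω ϑ := by
          intro i hi
          obtain ⟨d, hd, hK⟩ := MSP.special_KK (z i) (hz i) hi
          obtain ⟨Ω, hΩ⟩ := cm_base d hd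
          have H := MSP.cmd_of_KK d hd Ω hΩ (z i) (hz i) hK
          obtain ⟨α, hα, e⟩ := MSP.theta_eq (z i) Ω H (hj i)
          refine ⟨Ω, DD_special (z i) Ω ϑ H ?_⟩
          rw [e]
          exact (hα.tower_top _).mul (hal _ (m1 i))
        obtain ⟨Ω₁, D₁⟩ := dd i hi
        obtain ⟨Ω₂, D₂⟩ := dd k hk
        exact main_DD hS D₁ D₂ tr (fun h => hind i k hik' h.2.2)
      refine le_trans ?_ h
      have : min 2 (Nat.card {i // IsSpecial (z i)}) ≤ 2 := min_le_left _ _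
      exact_mod_cast this

end Pool.Agent.MSN
end

end
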