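import Mathlib
import Pool.Agent.Lib.MP_f58a57_nt.FK.K018
import Pool.Agent.Lib.MP_f58a57_nt.FK.K024
import Pool.Agent.Lib.MP_f58a57_nt.FK.K027
import Pool.Agent.Lib.MP_f58a57_nt.FK.K028

namespace Pool.Agent.MSD
end Pool.Agent.MSD
namespace Pool.Agent.MSP
end Pool.Agent.MSP

section

/-! # The theorem (MP_f58a57_nt, algebraic `j`) -/

open Complex Filter Topology IntermediateField Polynomial

noncomputable section

namespace Pool.Agent.MSN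

open MSP

theorem Hyp2.toHypN {c₁ c₂ : Cv} {Ω₁ Ω₂ ϑ : ℂ} (h : Hyp2 c₁ c₂ Ω₁ Ω₂ ϑ) : HypN c₁ c₂ Ω₁ Ω₂ ϑ :=
  ⟨h.s₁, h.s₂, h.h₁.ne, h.h₂.ne, h.h₁.a4, h.h₁.a6, h.h₂.a4, h.h₂.a6, h.tr, h.h₁.aτ, h.h₂.aτ, h.h₁.aΩ, h.h₂.aΩ,
    h.h₁.a2, h.h₂.a2⟩

theorem log_fact_le (r s : ℕ) :
    Real.log ((r + s).factorial : ℝ) ≤ Real.log ((r.factorial : ℝ) * s.factorial) + (r + s : ℕ) := by
  have h1 : ((r + s).factorial : ℝ) ≤ 2 ^ (r + s) * ((r.factorial : ℝ) * s.factorial) := by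
    have h2 := Nat.add_choose_mul_factorial_mul_factorial r s
    have h3 : (r + s).choose s ≤ 2 ^ (r + s) := Nat.choose_le_two_pow _ _
    have h4 : (r + s).factorial ≤ 2 ^ (r + s) * (r.factorial * s.factorial) := by
      rw [← h2, mul_assoc]
      exact Nat.mul_le_mul_right _ h3
    exact_mod_cast h4
  have hp : (0 : ℝ) < (r.factorial : ℝ) * s.factorial := by
    have := Nat.factorial_pos r
    have := Nat.factorial_pos s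
    positivity
  have hp2 : (0 : ℝ) < ((r + s).factorial : ℝ) := by exact_mod_cast Nat.factorial_pos _
  have h5 := Real.log_le_log hp2 h1
  rw [Real.log_mul (by positivity) hp.ne', Real.log_pow] at h5
  have h6 : ((r + s : ℕ) : ℝ) * Real.log 2 ≤ ((r + s : ℕ) : ℝ) := by
    have h9 := Real.log_two_lt_d9
    have h11 : (0 : ℝ) ≤ ((r + s : ℕ) : ℝ) := Nat.cast_nonneg _
    nlinarith
  linarith

theorem steps : Steps := by
  intro c₁ c₂ Ω₁ Ω₂ ϑ h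
  have hN := h.toHypN
  refine ⟨siegel_stepN c₁ c₂ Ω₁ Ω₂ ϑ hN, fun k a ha => ?_⟩
  obtain ⟨C, hC, H⟩ := norm_stepN c₁ c₂ Ω₁ Ω₂ ϑ hN k a ha
  refine ⟨C + 1, by linarith, ?_⟩
  intro P hP T δ H' p hLT hH' hδ hlen r s hrs hmin hne
  obtain ⟨Q, h1, h2, h3, h4⟩ := H P hP T δ H' p hLT hH' hδ hlen r s hrs hmin hne
  have hl : (0 : ℝ) ≤ P.l := Nat.cast_nonneg _
  have hδ0 : (0 : ℝ) ≤ δ := Nat.cast_nonneg _
  have hT0 : (0 : ℝ) ≤ T := Nat.cast_nonneg _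
  have hlogl : 0 ≤ Real.log (P.l + 1) := Real.log_nonneg (by linarith)
  have hlogH : 0 ≤ Real.log H' := Real.log_nonneg hH'
  have hTl : 0 ≤ (T : ℝ) * (1 + Real.log (P.l + 1)) := by positivity
  refine ⟨Q, h1, ?_, ?_, ?_⟩
  · linarith
  · linarith
  · have hp : (0 : ℝ) < (r.factorial : ℝ) * s.factorial := by
      have := Nat.factorial_pos r
      have := Nat.factorial_pos s
      positivity
    have e1 : Real.log ‖dd r s (FF c₁ c₂ P (cf ϑ Ω₁ Ω₂ P p)) ((a : ℂ) / 2 ^ k) ((a : ℂ) / 2 ^ k) /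
        (r.factorial * s.factorial : ℂ)‖ =
        Real.log ‖dd r s (FF c₁ c₂ P (cf ϑ Ω₁ Ω₂ P p)) ((a : ℂ) / 2 ^ k) ((a : ℂ) / 2 ^ k)‖ -
          Real.log ((r.factorial : ℝ) * s.factorial) := by
      rw [norm_div, Real.log_div (norm_ne_zero_iff.2 hne)]
      · simp
      · simp [Nat.factorial_ne_zero]
    rw [e1] at h4
    have h5 := log_fact_le r s
    have h6 : ((r + s : ℕ) : ℝ) ≤ T := by exact_mod_cast hrs
    have h7 : (T : ℝ) ≤ T * (1 + Real.log (P.l + 1)) := by nlinarith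
    linarith

theorem main {n : ℕ} (z : Fin n → ℂ) (hz : ∀ i, 0 < (z i).im)
    (hind : ∀ i k, i ≠ k → ¬ MSD.GEquiv (z i) (z k)) (hj : ∀ i, deriv MSD.jj (z i) ≠ 0) :
    ((min 2 (3 * Nat.card {i // ¬ MSD.IsSpecial (z i) ∧ IsAlgebraic ℚ (MSD.jj (z i))} +
      Nat.card {i // MSD.IsSpecial (z i)}) : ℕ) : Cardinal) ≤ Algebra.trdeg ℚ (adjoin ℚ
        (⋃ i, {z i, MSD.jj (z i), deriv MSD.jj (z i), deriv (deriv MSD.jj) (z i)} : Set ℂ)) :=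
  trdeg_min steps z hz hind hj

end Pool.Agent.MSN
end

end

section

/-! # MP_f58a57_nt, all nonspecial points: G1_Main -/

/-! ### small values of polynomials -/

section

open Complex Filter Topology IntermediateField

noncomputable section

namespace Pool.Agent.MSW

open MSD MSP

theorem f2_pow (ℓ C : ℕ) (hC : C ≤ ℓ) (hℓ : 3 ≤ ℓ) : 0 + C * ℓ ^ 10 ≤ (ℓ ^ 4) ^ 3 := by
  calc 0 + C * ℓ ^ 10 = C * ℓ ^ 10 := by omega
    _ ≤ ℓ * ℓ ^ 10 := Nat.mul_le_mul_right _ hC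
    _ = ℓ ^ 11 := by ring
    _ ≤ ℓ ^ 12 := Nat.pow_le_pow_right (by omega) (by norm_num)
    _ = (ℓ ^ 4) ^ 3 := by ring

theorem f2_card (L E : ℕ) : (Fintype.card (Iw L E) : ℝ) = (L : ℝ) ^ 2 * E := by
  have h : Fintype.card (Iw L E) = L ^ 2 * E := by
    show Fintype.card ((Fin 2 → Fin L) × Fin E) = _
    simp
  rw [h]
  push_cast
  ring

theorem f2_one (L E T : ℕ) (hT : 1 ≤ T) (hL : 1 ≤ L) (hE : 1 ≤ E) :
    (1 : ℝ) ≤ (7 * T * (2 * L + 4 * E + 2 * T : ℝ)) ^ T * (16 * L + 28 * E : ℝ) ^ E := by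
  have hT1 : (1 : ℝ) ≤ T := by exact_mod_cast hT
  have hL1 : (1 : ℝ) ≤ L := by exact_mod_cast hL
  have hE1 : (1 : ℝ) ≤ E := by exact_mod_cast hE
  have h1 : (1 : ℝ) ≤ 7 * T * (2 * L + 4 * E + 2 * T : ℝ) := by nlinarith
  have h2 : (1 : ℝ) ≤ 16 * L + 28 * E := by linarith
  exact one_le_mul_of_one_le_of_one_le (one_le_pow₀ h1) (one_le_pow₀ h2)

theorem f2_wp (D : Dw) (x : Fin 2 → ℕ) (hx : ∀ i, D.X i 0 = x i) (l : Fin 2) (T : ℕ) (hT : 4 ≤ T) (hxT : x l ≤ T ^ 3) :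
    ‖wp D.z (sE D.z) (D.h l)‖ ≤ (T : ℝ) ^ 4 := by
  have h1 : wp D.z (sE D.z) (D.h l) = D.om ^ 2 * x l := by
    have h := hx l
    unfold Dw.X at h
    rw [add_zero] at h
    rw [← h, mul_div_cancel₀ _ (pow_ne_zero 2 D.ne)]
  rw [h1, D.hom, norm_mul, Complex.norm_real, Real.norm_of_nonneg Real.pi_pos.le, Complex.norm_natCast]
  have h2 : (x l : ℝ) ≤ (T : ℝ) ^ 3 := by exact_mod_cast hxT
  have h3 : Real.pi ≤ T := by
    have h4 : (4 : ℝ) ≤ T := by exact_mod_cast hT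
    linarith [Real.pi_le_four]
  calc Real.pi * (x l : ℝ) ≤ T * (T : ℝ) ^ 3 := mul_le_mul h3 h2 (Nat.cast_nonneg _) (Nat.cast_nonneg _)
    _ = (T : ℝ) ^ 4 := by ring

theorem f2_ne (θ : ℂ) (htr : Transcendental ℚ θ) (p : Polynomial ℤ) (hp : p ≠ 0) : Polynomial.aeval θ p ≠ 0 := by
  intro h
  have h1 : Transcendental ℤ θ := fun h2 => htr (h2.extendScalars Int.cast_injective)
  exact h1 ⟨p, hp, h⟩

theorem f2_ineq (T ℓ c lg g : ℝ) (hT : 1 ≤ T) (hℓ : ℓ ≤ T) (hc : 0 ≤ c) (hlg : 1 ≤ lg) :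
    (T + 4 * ℓ) * (c + 4 * lg + 2 * lg) + ℓ * c + -g ≤ (6 * c + 30) * (T * lg) - g := by
  have h1 : (T + 4 * ℓ) * (c + 4 * lg + 2 * lg) ≤ (5 * T) * (c + 6 * lg) := by
    calc (T + 4 * ℓ) * (c + 4 * lg + 2 * lg) = (T + 4 * ℓ) * (c + 6 * lg) := by ring
      _ ≤ (5 * T) * (c + 6 * lg) := mul_le_mul_of_nonneg_right (by linarith) (by linarith)
  have h2 : ℓ * c ≤ T * c := mul_le_mul_of_nonneg_right hℓ hc
  have h3 : T * c ≤ T * c * lg := le_mul_of_one_le_right (by positivity) hlg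
  nlinarith

/-- F2b. PROOF. Compare `stepR` in R/C5_Step (complete proof there). `om = √π`, `H = 1 + ‖z‖`, `T = ℓ⁴`, `L = ℓ`, `E = ℓ⁴`, `g = Λ T² log T`. `ℓ0, C` from `zprimeW`; for `ℓ ≥ ℓ0, C, ..`: `x` with `x_i ≤ C ℓ^10 ≤ ℓ^12 = T³` (`X0 = 0`), `D` from `exists_Dw`: `‖h_l‖ ≤ H`, `wp (h_l) = π x_l`, `‖wp (h_l)‖ ≤ T⁴ =: B'` ,
`‖lam‖ ≤ C T⁴ ≤ T⁵` (`lam_le`), so `c₀ = 5` in `aux_exists`; `R` from `params` (with `C` the constant of `aux_exists`); `p ≠ 0`, so `c ν = aeval θ (p ν)` is not `0` (`θ` transcendental); `a, k` from `zprimeW`; `S = ∑ c ν aeval (vals D) (der^[k] (Rp ν)) ≠ 0`. `small_der` with `B'`: `‖S‖ ≤ (C T⁶)^(T+4ℓ) C^ℓ e^{-g}`.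
`norm_w` with `B = T³`, `ι = Iw ℓ (ℓ⁴)` (card `ℓ² ℓ⁴`), `l = 2L + 4E + 2T`, `δ = T`, `H = (7T(2L+4E+2T))^T (16L+28E)^E` (`der_Rp_bd`), `H' = (T+1) T^T`, `f2_log`: `Q` of degree `≤ C₂ T`, `log len Q ≤ C₂ T log T`, `log ‖Q(θ)‖ ≤ log ‖S‖ + C T log T ≤ -g + C' T log T ≤ -(Λ/2) T² log T` for `ℓ` large
(`f2_end`). `C₂` does not depend on `Λ`. -/
theorem step (z : ℂ) (hz : 0 < z.im) (hns : ¬ IsSpecial z) (θ : ℂ) (htr : Transcendental ℚ θ)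
    (hal : ∀ D : Dw, D.z = z → ∀ v, IsAlgebraic ℚ⟮θ⟯ (vn θ D v)) : ∃ C₂ : ℝ, 1 ≤ C₂ ∧ ∀ Λ : ℝ, 1 ≤ Λ → ∀ᶠ ℓ : ℕ in atTop,
      ∃ Q : Polynomial ℤ, Polynomial.aeval θ Q ≠ 0 ∧ (Q.natDegree : ℝ) ≤ C₂ * (ℓ ^ 4 : ℕ) ∧
        Real.log (len Q) ≤ C₂ * (ℓ ^ 4 : ℕ) * Real.log (ℓ ^ 4 : ℕ) ∧
        ‖Polynomial.aeval θ Q‖ ≤ Real.exp (-(Λ / 2 * (ℓ ^ 4 : ℕ) ^ 2 * Real.log (ℓ ^ 4 : ℕ))) := by
  obtain ⟨om, hom⟩ := IsAlgClosed.exists_pow_nat_eq (Real.pi : ℂ) (n := 2) (by norm_num)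
  obtain ⟨ℓ0, Cz, hzero⟩ := zprimeW z om hz hns hom
  obtain ⟨Cl, hCl, hlam⟩ := lam_le z hz (1 + ‖z‖)
  obtain ⟨Ca, hCa, haux⟩ := aux_exists z hz (1 + ‖z‖) θ 5
  obtain ⟨Cd, hCd, hder⟩ := small_der z hz (1 + ‖z‖)
  obtain ⟨Cn, hCn, hnorm⟩ := norm_w z hz θ htr hal
  have hCdlog : 0 ≤ Real.log Cd := Real.log_nonneg hCd
  refine ⟨50 * Cn, by linarith, fun Λ hΛ => ?_⟩
  filter_upwards [params Ca Λ hCa hΛ,
    eventually_ge_atTop (max (max 3 (max ℓ0 Cz)) (max ⌈Cl⌉₊ ⌈2 * (50 * Cn + (6 * Real.log Cd + 30))⌉₊))] with ℓ hpar hℓ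
  obtain ⟨R, hR1, h1, h2⟩ := hpar
  have hℓ3 : 3 ≤ ℓ := (le_max_left _ _).trans ((le_max_left _ _).trans hℓ)
  have hℓ0 : ℓ0 ≤ ℓ := (le_max_left _ _).trans ((le_max_right _ _).trans ((le_max_left _ _).trans hℓ))
  have hℓz : Cz ≤ ℓ := (le_max_right _ _).trans ((le_max_right _ _).trans ((le_max_left _ _).trans hℓ))
  have hℓl : Cl ≤ ℓ := (Nat.le_ceil _).trans (by exact_mod_cast (le_max_left _ _).trans ((le_max_right _ _).trans hℓ))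
  have hℓC : 2 * (50 * Cn + (6 * Real.log Cd + 30)) ≤ ℓ :=
    (Nat.le_ceil _).trans (by exact_mod_cast (le_max_right _ _).trans ((le_max_right _ _).trans hℓ))
  have hℓ1 : 1 ≤ ℓ := by omega
  have hℓT' : ℓ ≤ ℓ ^ 4 := by
    calc ℓ = ℓ ^ 1 := (pow_one _).symm
      _ ≤ ℓ ^ 4 := Nat.pow_le_pow_right hℓ1 (by norm_num)
  have hT4' : 4 ≤ ℓ ^ 4 := by
    calc 4 ≤ 3 ^ 4 := by norm_num
      _ ≤ ℓ ^ 4 := Nat.pow_le_pow_left hℓ3 4
  obtain ⟨x, hx, hS'⟩ := hzero ℓ hℓ0 0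
  obtain ⟨D, hDz, hDom, hDh, hDX⟩ := exists_Dw z om hz hom x
  have hS'' := hS' D hDz hDom hDX
  have hxT' : ∀ i, x i ≤ (ℓ ^ 4) ^ 3 := fun i => (hx i).2.trans (f2_pow ℓ Cz hℓz hℓ3)
  clear hS' hx
  revert h1 h2 hℓT' hT4' hS'' hxT'
  generalize ℓ ^ 4 = T
  intro h1 h2 hℓT hT4 hS hxT
  have hT3 : 3 ≤ T := by omega
  have hT1 : 1 ≤ T := by omega
  have hT1' : (1 : ℝ) ≤ T := by exact_mod_cast hT1
  have hℓT' : (ℓ : ℝ) ≤ T := by exact_mod_cast hℓT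
  have hlg := f2_logT T hT3
  have hg : 0 ≤ Λ * (T : ℝ) ^ 2 * Real.log T := by positivity
  have hB1 : (1 : ℝ) ≤ (T : ℝ) ^ 4 := one_le_pow₀ hT1'
  have hwp : ∀ l, ‖wp z (sE z) (D.h l)‖ ≤ (T : ℝ) ^ 4 := by
    intro l
    have h3 := f2_wp D x hDX l T hT4 (hxT l)
    rwa [hDz] at h3
  have hlamT : ‖D.lam‖ ≤ (T : ℝ) ^ 5 := by
    refine (hlam D hDz hDh _ hB1 hwp).trans ?_
    calc Cl * (T : ℝ) ^ 4 ≤ T * (T : ℝ) ^ 4 := mul_le_mul_of_nonneg_right (hℓl.trans hℓT') (by positivity)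
      _ = (T : ℝ) ^ 5 := by ring
  obtain ⟨p, hp0, hpd, hpc, hsm⟩ := haux D hDz hDh ℓ T T R (Λ * (T : ℝ) ^ 2 * Real.log T) hℓ1 hT1 hℓT le_rfl hT3 hR1 hg hlamT h1 h2
  have hc0 : (fun ν => Polynomial.aeval θ (p ν)) ≠ 0 := by
    intro h3
    apply hp0
    funext ν
    by_contra h4
    refine f2_ne θ htr (p ν) h4 ?_
    exact congrFun h3 ν
  obtain ⟨a, k, ha, hk, hSne⟩ := hS _ hc0
  have hSle := hder D hDz hDh _ hB1 hwp ℓ T (fun ν => Polynomial.aeval θ (p ν)) _ hℓ1 (Real.exp_pos _).le hsm T hT1 a ha k hk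
  have hSpos : 0 < ‖∑ ν, Polynomial.aeval θ (p ν) * MvPolynomial.aeval (vals D) ((der (fun j => (a j : ℤ)))^[k] (Rp ν))‖ :=
    norm_pos_iff.2 hSne
  have hSlog : Real.log ‖∑ ν, Polynomial.aeval θ (p ν) * MvPolynomial.aeval (vals D) ((der (fun j => (a j : ℤ)))^[k] (Rp ν))‖ ≤
      (6 * Real.log Cd + 30) * (T * Real.log T) - Λ * (T : ℝ) ^ 2 * Real.log T := by
    refine (Real.log_le_log hSpos hSle).trans ?_
    have hCd0 : 0 < Cd := by linarith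
    have hT0 : (0 : ℝ) < T := by linarith
    rw [Real.log_mul (by positivity) (by positivity), Real.log_mul (by positivity) (by positivity), Real.log_exp,
      Real.log_pow, Real.log_pow, Real.log_mul (by positivity) (by positivity), Real.log_mul (by positivity) (by positivity),
      Real.log_pow, Real.log_pow]
    push_cast
    exact f2_ineq T ℓ (Real.log Cd) (Real.log T) _ hT1' hℓT' hCdlog hlg
  obtain ⟨Q, hQ0, hQd, hQl, hQn⟩ := hnorm D hDz x hDX ((T : ℝ) ^ 3) (by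
      have h3 : (2 : ℝ) ≤ T := by exact_mod_cast (by omega : 2 ≤ T)
      have h4 : (1 : ℝ) ≤ (T : ℝ) ^ 2 := one_le_pow₀ hT1'
      calc (2 : ℝ) ≤ T * 1 := by linarith
        _ ≤ T * (T : ℝ) ^ 2 := mul_le_mul_of_nonneg_left h4 (by linarith)
        _ = (T : ℝ) ^ 3 := by ring)
    (fun i => by exact_mod_cast hxT i) (Iw ℓ T) (2 * ℓ + 4 * T + 2 * T) T
    ((7 * T * (2 * ℓ + 4 * T + 2 * T : ℝ)) ^ T * (16 * ℓ + 28 * T : ℝ) ^ T) ((T + 1) * (T : ℝ) ^ T) p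
    (fun ν => (der (fun j => (a j : ℤ)))^[k] (Rp ν)) (f2_one ℓ T T hT1 hℓ1 hT1)
    (by
      have h3 : (1 : ℝ) ≤ (T : ℝ) ^ T := one_le_pow₀ hT1'
      exact one_le_mul_of_one_le_of_one_le (by linarith) h3)
    (fun ν => der_Rp_bd hT1 a ha k hk ν)
    hpd
    (fun ν => by
      have h3 := len_le_of_coeff (p ν) ((T : ℝ) ^ T) (fun i => hpc ν i)
      refine h3.trans (mul_le_mul_of_nonneg_right ?_ (by positivity))
      have : ((p ν).natDegree : ℝ) ≤ T := by exact_mod_cast hpd ν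
      linarith)
    hSne
  rw [f2_card] at hQl hQn
  have hlog := f2_log ℓ T T hT3 hℓ1 hT1 hℓT le_rfl
  have hsum : Real.log ((ℓ : ℝ) ^ 2 * T * ((7 * T * (2 * ℓ + 4 * T + 2 * T : ℝ)) ^ T * (16 * ℓ + 28 * T : ℝ) ^ T) * ((T + 1) * (T : ℝ) ^ T)) +
      (((2 * ℓ + 4 * T + 2 * T : ℕ) : ℝ) + T + 1) * Real.log ((T : ℝ) ^ 3) ≤ 50 * (T * Real.log T) := by
    rw [Real.log_pow]
    push_cast
    have h3 : (2 * (ℓ : ℝ) + 4 * T + 2 * T + T + 1) * (3 * Real.log T) ≤ (10 * T) * (3 * Real.log T) :=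
      mul_le_mul_of_nonneg_right (by linarith) (by linarith)
    linarith
  have hCn0 : (0 : ℝ) ≤ Cn := by linarith
  refine ⟨Q, hQ0, ?_, ?_, ?_⟩
  · refine hQd.trans ?_
    have h3 : (((2 * ℓ + 4 * T + 2 * T : ℕ) : ℝ) + T + 1) ≤ 50 * T := by
      push_cast
      linarith
    calc Cn * (((2 * ℓ + 4 * T + 2 * T : ℕ) : ℝ) + T + 1) ≤ Cn * (50 * T) := mul_le_mul_of_nonneg_left h3 hCn0
      _ = 50 * Cn * T := by ring
  · refine hQl.trans ?_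
    calc _ ≤ Cn * (50 * (T * Real.log T)) := mul_le_mul_of_nonneg_left hsum hCn0
      _ = 50 * Cn * T * Real.log T := by ring
  · rw [← Real.log_le_iff_le_exp (norm_pos_iff.2 hQ0)]
    refine hQn.trans ?_
    have h5 := mul_le_mul_of_nonneg_left hsum hCn0
    have h6 := f2_end T (Real.log T) Λ (50 * Cn + (6 * Real.log Cd + 30)) _ hlg (by positivity) hΛ
      (hℓC.trans hℓT') rfl
    refine le_trans ?_ h6
    calc _ ≤ ((6 * Real.log Cd + 30) * (T * Real.log T) - Λ * (T : ℝ) ^ 2 * Real.log T) + Cn * (50 * (T * Real.log T)) :=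
          add_le_add hSlog h5
      _ = _ := by ring

end Pool.Agent.MSW

end
end

/-! ### Gelfond's criterion -/

section

open Complex Filter Topology IntermediateField

noncomputable section

namespace Pool.Agent.MSW

open MSD MSP

theorem f3_g5 (m C₁ n : ℕ) (hm : 1 ≤ m) (hC : 1 ≤ C₁) (hn : 3 ≤ n) :
    (3 : ℝ) ≤ ((C₁ * n ^ m : ℕ) : ℝ) ∧ (n : ℝ) ≤ ((C₁ * n ^ m : ℕ) : ℝ) ∧ 1 ≤ Real.log ((C₁ * n ^ m : ℕ) : ℝ) ∧
    ((C₁ * n ^ m : ℕ) : ℝ) ≤ ((C₁ * (n + 1) ^ m : ℕ) : ℝ) ∧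
    ((C₁ * (n + 1) ^ m : ℕ) : ℝ) ≤ 2 ^ m * ((C₁ * n ^ m : ℕ) : ℝ) ∧
    Real.log ((C₁ * (n + 1) ^ m : ℕ) : ℝ) ≤ 2 * Real.log ((C₁ * n ^ m : ℕ) : ℝ) := by
  have h1 : n ≤ n ^ m := Nat.le_self_pow (by omega) n
  have h2 : n ^ m ≤ C₁ * n ^ m := Nat.le_mul_of_pos_left _ (by omega)
  have hT3 : (3 : ℝ) ≤ ((C₁ * n ^ m : ℕ) : ℝ) := by
    exact_mod_cast le_trans hn (le_trans h1 h2)
  have hTn : (n : ℝ) ≤ ((C₁ * n ^ m : ℕ) : ℝ) := by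
    exact_mod_cast le_trans h1 h2
  have hlog : 1 ≤ Real.log ((C₁ * n ^ m : ℕ) : ℝ) := by
    rw [Real.le_log_iff_exp_le (by linarith)]
    have := Real.exp_one_lt_d9
    linarith
  have hmono : ((C₁ * n ^ m : ℕ) : ℝ) ≤ ((C₁ * (n + 1) ^ m : ℕ) : ℝ) := by
    exact_mod_cast Nat.mul_le_mul_left _ (Nat.pow_le_pow_left (by omega) m)
  have hup : ((C₁ * (n + 1) ^ m : ℕ) : ℝ) ≤ 2 ^ m * ((C₁ * n ^ m : ℕ) : ℝ) := by
    have h3 : (n + 1) ^ m ≤ (2 * n) ^ m := Nat.pow_le_pow_left (by omega) m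
    have h4 : C₁ * (n + 1) ^ m ≤ 2 ^ m * (C₁ * n ^ m) := by
      calc C₁ * (n + 1) ^ m ≤ C₁ * (2 * n) ^ m := Nat.mul_le_mul_left _ h3
        _ = 2 ^ m * (C₁ * n ^ m) := by rw [mul_pow]; ring
    exact_mod_cast h4
  refine ⟨hT3, hTn, hlog, hmono, hup, ?_⟩
  have hTpos : (0 : ℝ) < ((C₁ * n ^ m : ℕ) : ℝ) := by linarith
  have hT'pos : (0 : ℝ) < ((C₁ * (n + 1) ^ m : ℕ) : ℝ) := by linarith
  have h5 : Real.log ((C₁ * (n + 1) ^ m : ℕ) : ℝ) ≤ Real.log (2 ^ m * ((C₁ * n ^ m : ℕ) : ℝ)) :=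
    Real.log_le_log hT'pos hup
  rw [Real.log_mul (by positivity) (by positivity)] at h5
  have h6 : Real.log ((2 : ℝ) ^ m) ≤ Real.log ((C₁ * n ^ m : ℕ) : ℝ) := by
    refine Real.log_le_log (by positivity) ?_
    have h7 : 2 ^ m ≤ C₁ * n ^ m := le_trans (Nat.pow_le_pow_left (by omega) m) h2
    exact_mod_cast h7
  linarith

theorem f3_growth (n : ℕ) (hn : 3 ≤ n) :
    (3 : ℝ) ≤ ((n ^ 4 : ℕ) : ℝ) ∧ (n : ℝ) ≤ ((n ^ 4 : ℕ) : ℝ) ∧ 1 ≤ Real.log ((n ^ 4 : ℕ) : ℝ) ∧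
      ((n ^ 4 : ℕ) : ℝ) ≤ (((n + 1) ^ 4 : ℕ) : ℝ) ∧
      (((n + 1) ^ 4 : ℕ) : ℝ) ≤ 2 ^ 4 * ((n ^ 4 : ℕ) : ℝ) ∧
      Real.log (((n + 1) ^ 4 : ℕ) : ℝ) ≤ 2 * Real.log ((n ^ 4 : ℕ) : ℝ) := by
  have h := f3_g5 4 1 n (by norm_num) le_rfl hn
  simpa only [one_mul] using h

/-- F3. PROOF. The proof of `coreR` in R/C6_Core with `step` for `stepR`, `θ` for `jj P.z`, `C₁ = 1` and the exponent `4` (`T = ℓ⁴`; `MSK.g5_growth` holds for every exponent). -/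
theorem core (z : ℂ) (hz : 0 < z.im) (hns : ¬ IsSpecial z) (θ : ℂ) (htr : Transcendental ℚ θ)
    (hal : ∀ D : Dw, D.z = z → ∀ v, IsAlgebraic ℚ⟮θ⟯ (vn θ D v)) : False := by
  obtain ⟨C₂, hC₂, hstep⟩ := step z hz hns θ htr hal
  have ha : (1 : ℝ) ≤ 2 ^ 5 := one_le_pow₀ (by norm_num)
  obtain ⟨Λ, hΛ, hgel⟩ := gelfond θ (2 ^ 5) ha
  set T : ℕ → ℝ := fun n => ((n ^ 4 : ℕ) : ℝ) with hT
  have hgr : ∀ n : ℕ, 3 ≤ n → (3 : ℝ) ≤ T n ∧ (n : ℝ) ≤ T n ∧ 1 ≤ Real.log (T n) ∧ T n ≤ T (n + 1) ∧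
      T (n + 1) ≤ 2 ^ 4 * T n ∧ Real.log (T (n + 1)) ≤ 2 * Real.log (T n) := fun n hn => f3_growth n hn
  refine hgel (fun n => C₂ * T n) (fun n => C₂ * T n * Real.log (T n)) ?_ ?_ ?_
  · filter_upwards [eventually_ge_atTop 3] with n hn
    obtain ⟨h1, h2, h3, h4, h5, h6⟩ := hgr n hn
    obtain ⟨g1, g2, g3, -, -, -⟩ := hgr (n + 1) (by omega)
    have hCT : 1 ≤ C₂ * T n := by nlinarith
    have hCT0 : 0 ≤ C₂ * T n := by linarith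
    have hmon : C₂ * T n ≤ C₂ * T (n + 1) := mul_le_mul_of_nonneg_left h4 (by linarith)
    have hup : C₂ * T (n + 1) ≤ 2 ^ 4 * (C₂ * T n) := by
      calc C₂ * T (n + 1) ≤ C₂ * (2 ^ 4 * T n) := mul_le_mul_of_nonneg_left h5 (by linarith)
        _ = 2 ^ 4 * (C₂ * T n) := by ring
    have hlogm : Real.log (T n) ≤ Real.log (T (n + 1)) := Real.log_le_log (by linarith) h4
    refine ⟨hCT, ?_, hmon, ?_, ?_, ?_⟩
    · show C₂ * T n ≤ C₂ * T n * Real.log (T n)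
      exact le_mul_of_one_le_right hCT0 h3
    · refine hup.trans ?_
      refine mul_le_mul_of_nonneg_right ?_ hCT0
      exact pow_le_pow_right₀ (by norm_num) (by omega)
    · exact mul_le_mul hmon hlogm (by linarith) (by linarith)
    · calc C₂ * T (n + 1) * Real.log (T (n + 1))
          ≤ (2 ^ 4 * (C₂ * T n)) * (2 * Real.log (T n)) :=
            mul_le_mul hup h6 (by linarith) (by positivity)
        _ = 2 ^ 5 * (C₂ * T n * Real.log (T n)) := by ring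
  · refine tendsto_atTop_mono' atTop ?_ tendsto_natCast_atTop_atTop
    filter_upwards [eventually_ge_atTop 3] with n hn
    obtain ⟨h1, h2, h3, -, -, -⟩ := hgr n hn
    have hCT : T n ≤ C₂ * T n := le_mul_of_one_le_left (by linarith) hC₂
    have hCT2 : C₂ * T n ≤ C₂ * T n * Real.log (T n) := le_mul_of_one_le_right (by linarith) h3
    linarith
  · have hΛ' : 1 ≤ 2 * Λ * C₂ ^ 2 + 1 := by
      have : 0 ≤ 2 * Λ * C₂ ^ 2 := by positivity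
      linarith
    filter_upwards [hstep _ hΛ', eventually_ge_atTop 3] with n ⟨Q, q1, q2, q3, q4⟩ hn
    obtain ⟨h1, h2, h3, -, -, -⟩ := hgr n hn
    refine ⟨Q, q2, q3, q1, q4.trans ?_⟩
    refine Real.exp_le_exp.2 ?_
    show -((2 * Λ * C₂ ^ 2 + 1) / 2 * (T n) ^ 2 * Real.log (T n)) ≤ -(Λ * (C₂ * T n) * (C₂ * T n * Real.log (T n)))
    have hpos : 0 ≤ (T n) ^ 2 * Real.log (T n) := mul_nonneg (sq_nonneg _) (by linarith)
    nlinarith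

end Pool.Agent.MSW

end
end

/-! ### the theorem -/

section

open Complex Filter Topology IntermediateField

noncomputable section

namespace Pool.Agent.MSW

open MSD MSP

/-- F5a. PROOF. As `main_point` in K/G7_Main. Suppose not. `MSN.exists_theta_set` (N/Final) gives `ϑ` transcendental with all the elements of `S` algebraic over `ℚ(ϑ)`; `vn_alg`, `core`. -/
theorem nonspecial_two (z : ℂ) (hz : 0 < z.im) (hns : ¬ IsSpecial z) (hj : deriv jj z ≠ 0) (S : Set ℂ)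
    (m : z ∈ S) (m0 : jj z ∈ S) (m1 : deriv jj z ∈ S) (m2 : deriv (deriv jj) z ∈ S) :
    (2 : Cardinal) ≤ Algebra.trdeg ℚ (adjoin ℚ S) := by
  by_contra hcon
  obtain ⟨θ, htr, hal⟩ := MSN.exists_theta_set S hcon
  exact core z hz hns θ htr (vn_alg z hz hj θ (hal _ m) (hal _ m0) (hal _ m1) (hal _ m2))

/-- F5b. all tuples. PROOF. If some `z i` is not special: `nonspecial_two`. Otherwise `MSN.main` (the first cardinal there is `0`). -/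
theorem all_tuples {n : ℕ} (z : Fin n → ℂ) (hz : ∀ i, 0 < (z i).im)
    (hind : ∀ i k, i ≠ k → ¬ GEquiv (z i) (z k)) (hj : ∀ i, deriv jj (z i) ≠ 0) :
    ((min 2 (3 * Nat.card {i // ¬ IsSpecial (z i)} + Nat.card {i // IsSpecial (z i)}) : ℕ) : Cardinal) ≤
      Algebra.trdeg ℚ (adjoin ℚ (⋃ i, {z i, jj (z i), deriv jj (z i), deriv (deriv jj) (z i)} : Set ℂ)) := by
  by_cases h : ∃ i, ¬ IsSpecial (z i)
  · obtain ⟨i, hi⟩ := h
    have h2 := nonspecial_two (z i) (hz i) hi (hj i) (⋃ i, {z i, jj (z i), deriv jj (z i), deriv (deriv jj) (z i)} : Set ℂ)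
      (Set.mem_iUnion.2 ⟨i, Or.inl rfl⟩) (Set.mem_iUnion.2 ⟨i, Or.inr (Or.inl rfl)⟩)
      (Set.mem_iUnion.2 ⟨i, Or.inr (Or.inr (Or.inl rfl))⟩) (Set.mem_iUnion.2 ⟨i, Or.inr (Or.inr (Or.inr rfl))⟩)
    refine le_trans ?_ h2
    have h3 : min 2 (3 * Nat.card {i // ¬ IsSpecial (z i)} + Nat.card {i // IsSpecial (z i)}) ≤ 2 := min_le_left _ _
    exact_mod_cast h3
  · push Not at h
    refine le_trans ?_ (MSN.main z hz hind hj)
    have e1 : Nat.card {i // ¬ IsSpecial (z i)} = 0 := by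
      have : IsEmpty {i // ¬ IsSpecial (z i)} := ⟨fun x => x.2 (h x.1)⟩
      exact Nat.card_of_isEmpty
    rw [e1]
    exact_mod_cast min_le_min_left 2 (by omega)

end Pool.Agent.MSW

end
end

end
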