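import Mathlib
import Pool.Agent.Lib.MP_f58a57_nt.FK.K009
import Pool.Agent.Lib.MP_f58a57_nt.FK.K023
import Pool.Agent.Lib.MP_f58a57_nt.FK.K030

namespace Pool.Agent.MSD
end Pool.Agent.MSD
namespace Pool.Agent.MSK
end Pool.Agent.MSK
namespace Pool.Agent.MSP
end Pool.Agent.MSP
namespace Pool.Agent.MSR
end Pool.Agent.MSR

section

/-! # R/A4_Bp: the leading term of `Bp` -/

open Complex Filter Topology IntermediateField

noncomputable section

namespace Pool.Agent.MSR

open MSD MSP MSK

variable {d : ℕ}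

lemma a4_pderiv_deg (i : Fin d) (B : MvPolynomial (Fin d) ℂ) : (MvPolynomial.pderiv i B).totalDegree ≤ B.totalDegree := by
  classical
  have h1 : MvPolynomial.pderiv i B = ∑ m ∈ B.support, MvPolynomial.pderiv i (MvPolynomial.monomial m (B.coeff m)) := by
    conv_lhs => rw [B.as_sum]
    rw [map_sum]
  rw [h1]
  refine MvPolynomial.totalDegree_finsetSum_le fun m hm => ?_
  rw [MvPolynomial.pderiv_monomial]
  refine (MvPolynomial.totalDegree_monomial_le _ _).trans ?_
  refine le_trans ?_ (MvPolynomial.le_totalDegree hm)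
  have h2 : m - Finsupp.single i 1 ≤ m := tsub_le_self
  have h3 : ((m - Finsupp.single i 1).sum fun _ => id) = (m - Finsupp.single i 1).degree := by
    rw [Finsupp.degree_eq_sum, Finsupp.sum_fintype]
    · rfl
    · intro _
      rfl
  have h4 : (m.sum fun _ e => e) = m.degree := by
    rw [Finsupp.degree_eq_sum, Finsupp.sum_fintype]
    intro _
    rfl
  rw [h3, h4, Finsupp.degree_eq_sum, Finsupp.degree_eq_sum]
  exact Finset.sum_le_sum fun j _ => h2 j

/-- the relation carried through the recursion -/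
def A4Rel (e : Fin d →₀ ℕ) (B : MvPolynomial (Fin d) ℂ) : Prop :=
  ∃ L : MvPolynomial (Fin d) ℂ, B = MvPolynomial.monomial e 1 + L ∧ (L = 0 ∨ L.totalDegree < ∑ j, e j)

lemma a4_step (q : Fin d → Fin d → ℂ) (j : Fin d) (e : Fin d →₀ ℕ) (B : MvPolynomial (Fin d) ℂ) (h : A4Rel e B) :
    A4Rel (Finsupp.single j 1 + e) (bb q j B) := by
  obtain ⟨L, hB, hL⟩ := h
  have hBdeg : B.totalDegree ≤ ∑ j, e j := by
    rw [hB]
    refine (MvPolynomial.totalDegree_add _ _).trans (max_le ?_ ?_)
    · rw [MvPolynomial.totalDegree_monomial _ one_ne_zero, Finsupp.sum_fintype]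
      intro _
      rfl
    · rcases hL with hL | hL
      · rw [hL]
        simp
      · exact hL.le
  refine ⟨MvPolynomial.X j * L + ∑ i, MvPolynomial.C (q i j) * MvPolynomial.pderiv i B, ?_, Or.inr ?_⟩
  · have h1 : (MvPolynomial.monomial (Finsupp.single j 1 + e) (1 : ℂ)) = MvPolynomial.X j * MvPolynomial.monomial e 1 := by
      rw [MvPolynomial.X, MvPolynomial.monomial_mul, one_mul]
    rw [h1]
    unfold bb
    nth_rewrite 1 [hB]
    ring
  · have h2 : ∑ k, (Finsupp.single j 1 + e : Fin d →₀ ℕ) k = (∑ k, e k) + 1 := by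
      simp only [Finsupp.coe_add, Pi.add_apply, Finset.sum_add_distrib]
      rw [add_comm]
      congr 1
      rw [Finset.sum_eq_single j]
      · simp
      · intro b _ hb
        exact Finsupp.single_eq_of_ne hb
      · intro h
        exact absurd (Finset.mem_univ _) h
    rw [h2, Nat.lt_succ_iff]
    refine (MvPolynomial.totalDegree_add _ _).trans (max_le ?_ ?_)
    · rcases hL with hL | hL
      · rw [hL, mul_zero]
        simp
      · refine (MvPolynomial.totalDegree_mul _ _).trans ?_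
        rw [MvPolynomial.totalDegree_X]
        omega
    · refine MvPolynomial.totalDegree_finsetSum_le fun i _ => ?_
      refine (MvPolynomial.totalDegree_mul _ _).trans ?_
      rw [MvPolynomial.totalDegree_C, zero_add]
      exact (a4_pderiv_deg i B).trans hBdeg

lemma a4_iter (q : Fin d → Fin d → ℂ) (j : Fin d) (k : ℕ) (e : Fin d →₀ ℕ) (B : MvPolynomial (Fin d) ℂ) (h : A4Rel e B) :
    A4Rel (Finsupp.single j k + e) ((bb q j)^[k] B) := by
  induction k with
  | zero => simpa using h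
  | succ k ih =>
    rw [Function.iterate_succ_apply']
    have h1 := a4_step q j _ _ ih
    rw [← add_assoc, ← Finsupp.single_add, add_comm 1 k] at h1
    exact h1

lemma a4_list (q : Fin d → Fin d → ℂ) (κ : Fin d → ℕ) (l : List (Fin d)) :
    A4Rel ((l.map fun j => Finsupp.single j (κ j)).sum) (l.foldr (fun j B => (bb q j)^[κ j] B) 1) := by
  induction l with
  | nil =>
    refine ⟨0, ?_, Or.inl rfl⟩
    simp
  | cons j l ih =>
    simp only [List.map_cons, List.sum_cons, List.foldr_cons]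
    exact a4_iter q j (κ j) _ _ ih

lemma a4_sum (κ : Fin d → ℕ) : (((List.finRange d).map fun j => Finsupp.single j (κ j)).sum : Fin d →₀ ℕ) =
    Finsupp.equivFunOnFinite.symm κ := by
  have h1 : (((List.finRange d).map fun j => Finsupp.single j (κ j)).sum : Fin d →₀ ℕ) = ∑ j, Finsupp.single j (κ j) := by
    rw [← List.ofFn_eq_map, List.sum_ofFn]
  rw [h1]
  ext i
  rw [Finsupp.finsetSum_apply, Finset.sum_eq_single i]
  · simp
  · intro b _ hb
    exact Finsupp.single_eq_of_ne hb.symm
  · intro h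
    exact absurd (Finset.mem_univ _) h

/-- A4a. PROOF. Induction over the `foldr` (as for `Rp_ind`): the relation for a list `L` of indices is `B = monomial (∑_{j ∈ L} κ_j e_j) 1 + R`, `R = 0 ∨ R.totalDegree < n`, `n = ∑_{j ∈ L} κ_j`. One step:
`X j * monomial e 1 = monomial (e + single j 1) 1`, `X j * R` is `0` or of degree `< n + 1`, and `pderiv i B` has degree `≤ n - 1 < n + 1` (or is `0`): `B.totalDegree ≤ n`. -/
theorem Bp_top (q : Fin d → Fin d → ℂ) (κ : Fin d → ℕ) : ∃ L : MvPolynomial (Fin d) ℂ,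
    Bp q κ = MvPolynomial.monomial (Finsupp.equivFunOnFinite.symm κ) 1 + L ∧ (L = 0 ∨ L.totalDegree < ∑ j, κ j) := by
  have h := a4_list q κ (List.finRange d)
  rw [a4_sum] at h
  exact h

theorem Bp_deg (q : Fin d → Fin d → ℂ) (κ : Fin d → ℕ) : (Bp q κ).totalDegree ≤ ∑ j, κ j := by
  obtain ⟨L, hB, hL⟩ := Bp_top q κ
  rw [hB]
  refine (MvPolynomial.totalDegree_add _ _).trans (max_le ?_ ?_)
  · rw [MvPolynomial.totalDegree_monomial _ one_ne_zero, Finsupp.sum_fintype]
    · rfl
    · intro _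
      rfl
  · rcases hL with hL | hL
    · rw [hL]
      simp
    · exact hL.le

/-- A4b. PROOF. `∑ κ_j ≤ d E`. -/
theorem Cs_deg (P : Par d) (D : Dt d) {E : ℕ} (c : Ir d E → ℂ) : (Cs P D c).totalDegree ≤ d * E := by
  unfold Cs
  refine MvPolynomial.totalDegree_finsetSum_le fun κ _ => ?_
  refine (MvPolynomial.totalDegree_mul _ _).trans ?_
  rw [MvPolynomial.totalDegree_C, zero_add]
  refine (Bp_deg _ _).trans ?_
  calc ∑ j, (κ j).val ≤ ∑ _j : Fin d, E := Finset.sum_le_sum fun j _ => (κ j).isLt.le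
    _ = d * E := by simp

/-- A4c. PROOF. Choose `κ₀` with `c κ₀ ≠ 0` and `∑ κ₀_j` maximal. By `Bp_top` the coefficient of `Bp κ` at `κ₀` is `1` for `κ = κ₀` and `0` for the other `κ` with `∑ κ_j ≤ ∑ κ₀_j`
(`MvPolynomial.coeff_eq_zero_of_totalDegree_lt`), so the coefficient of `Cs` at `κ₀` is `c κ₀`. -/
theorem Cs_ne (P : Par d) (D : Dt d) {E : ℕ} (c : Ir d E → ℂ) (hc : c ≠ 0) : Cs P D c ≠ 0 := by
  classical
  obtain ⟨κ₁, hκ₁⟩ := Function.ne_iff.mp hc
  obtain ⟨κ₀, hκ₀, hmax⟩ := Finset.exists_max_image (Finset.univ.filter fun κ : Ir d E => c κ ≠ 0) (fun κ => ∑ j, (κ j).val)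
    ⟨κ₁, by simpa using hκ₁⟩
  have hc0 : c κ₀ ≠ 0 := by simpa using hκ₀
  intro h0
  have h1 : (Cs P D c).coeff (Finsupp.equivFunOnFinite.symm fun j => (κ₀ j).val) = c κ₀ := by
    unfold Cs
    rw [MvPolynomial.coeff_sum, Finset.sum_eq_single κ₀]
    · rw [MvPolynomial.coeff_C_mul]
      obtain ⟨L, hB, hL⟩ := Bp_top (qq P D) (fun j => (κ₀ j).val)
      rw [hB, MvPolynomial.coeff_add, MvPolynomial.coeff_monomial, if_pos rfl]
      have h2 : L.coeff (Finsupp.equivFunOnFinite.symm fun j => (κ₀ j).val) = 0 := by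
        rcases hL with hL | hL
        · rw [hL]
          simp
        · refine MvPolynomial.coeff_eq_zero_of_totalDegree_lt (hL.trans_le (le_of_eq ?_))
          symm
          refine Finset.sum_subset (Finset.subset_univ _) fun j _ hj => ?_
          simpa using hj
      rw [h2, add_zero, mul_one]
    · intro κ _ hκ
      rw [MvPolynomial.coeff_C_mul]
      by_cases hcκ : c κ = 0
      · rw [hcκ, zero_mul]
      · have h3 : ∑ j, (κ j).val ≤ ∑ j, (κ₀ j).val := hmax κ (by simpa using hcκ)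
        obtain ⟨L, hB, hL⟩ := Bp_top (qq P D) (fun j => (κ j).val)
        rw [hB, MvPolynomial.coeff_add, MvPolynomial.coeff_monomial, if_neg]
        · have h2 : L.coeff (Finsupp.equivFunOnFinite.symm fun j => (κ₀ j).val) = 0 := by
            rcases hL with hL | hL
            · rw [hL]
              simp
            · refine MvPolynomial.coeff_eq_zero_of_totalDegree_lt ((hL.trans_le h3).trans_le (le_of_eq ?_))
              symm
              refine Finset.sum_subset (Finset.subset_univ _) fun j _ hj => ?_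
              simpa using hj
          rw [h2, add_zero, mul_zero]
        · intro h4
          apply hκ
          have h5 := Finsupp.equivFunOnFinite.symm.injective h4
          funext j
          exact Fin.ext (congrFun h5 j)
    · intro h
      exact absurd (Finset.mem_univ _) h
  rw [h0, MvPolynomial.coeff_zero] at h1
  exact hc0 h1.symm

end Pool.Agent.MSR
end

end

section

/-! # R/B2_TH: the functional `TH` -/

open Complex Filter Topology IntermediateField

noncomputable section

namespace Pool.Agent.MSR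

open MSD MSP MSK

variable {d : ℕ}

theorem b2_TH (D : Dt d) (t : Fin (d + 1) → ℂ) (q : MvPolynomial (Fin (d + 1)) ℂ) (s : Finset (Fin (d + 1) →₀ ℕ)) (h : q.support ⊆ s) :
    TH D t q = ∑ m ∈ s, q.coeff m * ∏ l, iteratedDeriv (m l) (th D.τ) (D.h l + t l) := by
  unfold TH
  refine Finset.sum_subset h fun m _ hm => ?_
  rw [MvPolynomial.notMem_support_iff.1 hm, zero_mul]

theorem TH_add (D : Dt d) (t : Fin (d + 1) → ℂ) (p q : MvPolynomial (Fin (d + 1)) ℂ) : TH D t (p + q) = TH D t p + TH D t q := by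
  classical
  rw [b2_TH D t (p + q) (p.support ∪ q.support) MvPolynomial.support_add, b2_TH D t p (p.support ∪ q.support) Finset.subset_union_left,
    b2_TH D t q (p.support ∪ q.support) Finset.subset_union_right, ← Finset.sum_add_distrib]
  refine Finset.sum_congr rfl fun m _ => ?_
  rw [MvPolynomial.coeff_add, add_mul]

theorem TH_sum {ι : Type} (D : Dt d) (t : Fin (d + 1) → ℂ) (s : Finset ι) (p : ι → MvPolynomial (Fin (d + 1)) ℂ) :
    TH D t (∑ i ∈ s, p i) = ∑ i ∈ s, TH D t (p i) := by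
  classical
  induction s using Finset.induction_on with
  | empty =>
    rw [Finset.sum_empty, Finset.sum_empty]
    unfold TH
    rw [MvPolynomial.support_zero, Finset.sum_empty]
  | insert i s hi ih => rw [Finset.sum_insert hi, Finset.sum_insert hi, TH_add, ih]

theorem TH_C_mul (D : Dt d) (t : Fin (d + 1) → ℂ) (a : ℂ) (p : MvPolynomial (Fin (d + 1)) ℂ) :
    TH D t (MvPolynomial.C a * p) = a * TH D t p := by
  have h : (MvPolynomial.C a * p).support ⊆ p.support := by
    intro m hm
    rw [MvPolynomial.mem_support_iff, MvPolynomial.coeff_C_mul] at hm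
    exact MvPolynomial.mem_support_iff.2 (right_ne_zero_of_mul hm)
  rw [b2_TH D t _ _ h, TH, Finset.mul_sum]
  refine Finset.sum_congr rfl fun m _ => ?_
  rw [MvPolynomial.coeff_C_mul, mul_assoc]

theorem TH_monomial (D : Dt d) (t : Fin (d + 1) → ℂ) (m : Fin (d + 1) →₀ ℕ) (a : ℂ) :
    TH D t (MvPolynomial.monomial m a) = a * ∏ l, iteratedDeriv (m l) (th D.τ) (D.h l + t l) := by
  classical
  rw [b2_TH D t _ {m} MvPolynomial.support_monomial_subset, Finset.sum_singleton, MvPolynomial.coeff_monomial, if_pos rfl]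

theorem TH_one (D : Dt d) (t : Fin (d + 1) → ℂ) : TH D t 1 = pp D t := by
  have h : (1 : MvPolynomial (Fin (d + 1)) ℂ) = MvPolynomial.monomial 0 1 := rfl
  rw [h, TH_monomial, one_mul]
  unfold MSK.pp N0
  refine Finset.prod_congr rfl fun l _ => ?_
  rw [Finsupp.zero_apply, iteratedDeriv_zero]

theorem b2_iter (τ : ℂ) (hτ : 0 < τ.im) (k : ℕ) (u : ℂ) : HasDerivAt (iteratedDeriv k (th τ)) (iteratedDeriv (k + 1) (th τ) u) u := by
  have h1 : ContDiff ℂ ((k + 1 : ℕ) : WithTop ℕ∞) (th τ) := (th_differentiable τ hτ).contDiff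
  have h2 : Differentiable ℂ (iteratedDeriv k (th τ)) :=
    h1.differentiable_iteratedDeriv k (by exact_mod_cast Nat.lt_succ_self k)
  rw [iteratedDeriv_succ]
  exact (h2 u).hasDerivAt

/-- B2. PROOF. By linearity for `q = monomial m a`: the derivative of `∏_l th^(m_l)(h_l + t_l + s η_l)` is `∑_l η_l th^(m_l + 1)(..) ∏_{l' ≠ l} ..` (`HasDerivAt.finset_prod`; `iteratedDeriv k (th τ)` is entire and its derivative is
`iteratedDeriv (k+1) (th τ)`, `iteratedDeriv_succ`, `th_differentiable`), and `X l * monomial m a = monomial (m + single l 1) a`. -/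
theorem TH_line (D : Dt d) (t η : Fin (d + 1) → ℂ) (q : MvPolynomial (Fin (d + 1)) ℂ) (s₀ : ℂ) :
    HasDerivAt (fun s : ℂ => TH D (fun l => t l + s * η l) q)
      (TH D (fun l => t l + s₀ * η l) ((∑ l, MvPolynomial.C (η l) * MvPolynomial.X l) * q)) s₀ := by
  classical
  induction q using MvPolynomial.induction_on' with
  | monomial m a =>
    have e1 : (fun s : ℂ => TH D (fun l => t l + s * η l) (MvPolynomial.monomial m a)) =
        fun s : ℂ => a * ∏ l, iteratedDeriv (m l) (th D.τ) (D.h l + (t l + s * η l)) := by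
      funext s
      rw [TH_monomial]
    have e2 : TH D (fun l => t l + s₀ * η l) ((∑ l, MvPolynomial.C (η l) * MvPolynomial.X l) * MvPolynomial.monomial m a) =
        a * ∑ l, (∏ l' ∈ Finset.univ.erase l, iteratedDeriv (m l') (th D.τ) (D.h l' + (t l' + s₀ * η l'))) •
          (iteratedDeriv (m l + 1) (th D.τ) (D.h l + (t l + s₀ * η l)) * η l) := by
      rw [Finset.sum_mul, TH_sum, Finset.mul_sum]
      refine Finset.sum_congr rfl fun l _ => ?_
      have e3 : MvPolynomial.C (η l) * MvPolynomial.X l * MvPolynomial.monomial m a =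
          MvPolynomial.C (η l) * MvPolynomial.monomial (Finsupp.single l 1 + m) a := by
        rw [mul_assoc]
        congr 1
        rw [MvPolynomial.X, MvPolynomial.monomial_mul, one_mul]
      rw [e3, TH_C_mul, TH_monomial, ← Finset.mul_prod_erase Finset.univ _ (Finset.mem_univ l)]
      have e4 : ∏ l' ∈ Finset.univ.erase l, iteratedDeriv ((Finsupp.single l 1 + m : Fin (d + 1) →₀ ℕ) l') (th D.τ) (D.h l' + (t l' + s₀ * η l')) =
          ∏ l' ∈ Finset.univ.erase l, iteratedDeriv (m l') (th D.τ) (D.h l' + (t l' + s₀ * η l')) := by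
        refine Finset.prod_congr rfl fun l' hl' => ?_
        rw [Finsupp.add_apply, Finsupp.single_apply, if_neg (Finset.ne_of_mem_erase hl').symm, zero_add]
      rw [e4, Finsupp.add_apply, Finsupp.single_apply, if_pos rfl, smul_eq_mul, add_comm 1 (m l)]
      ring
    rw [e1, e2]
    refine HasDerivAt.const_mul a ?_
    refine HasDerivAt.fun_finsetProd fun l _ => ?_
    have h1 : HasDerivAt (fun s : ℂ => D.h l + (t l + s * η l)) (η l) s₀ := by
      simpa using (((hasDerivAt_id s₀).mul_const (η l)).const_add (t l)).const_add (D.h l)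
    exact (b2_iter D.τ D.im (m l) _).comp s₀ h1
  | add p q hp hq =>
    have e1 : (fun s : ℂ => TH D (fun l => t l + s * η l) (p + q)) =
        fun s : ℂ => TH D (fun l => t l + s * η l) p + TH D (fun l => t l + s * η l) q := by
      funext s
      rw [TH_add]
    rw [e1, mul_add, TH_add]
    exact hp.add hq

end Pool.Agent.MSR
end

end

section

/-!
# MP_f58a57_nt, cubic points: the interpolation determinant at a general base point, definitions
-/

open Complex

noncomputable section

namespace Pool.Agent.MSU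

open MSD MSP MSK MSR

variable {d : ℕ}

/-- `D` is the curve with period ratio `z`, scaled by a square root of `π`, with the base points `tt z p + real` -/
structure IsO (P : Par d) (D : Dt d) (p : Fin d → ℂ) : Prop where
  τ : D.τ = P.z
  om : D.om ^ 2 = Real.pi
  kap : D.kap = sE P.z / Real.pi
  h : ∀ l, ∃ r : ℝ, D.h l = tt P.z p l + r

/-- the entire function in absolute coordinates -/
def GP (P : Par d) (D : Dt d) (p : Fin d → ℂ) {E : ℕ} (c : Ir d E → ℂ) (v : Fin d → ℂ) : ℂ := GR P D c (fun j => v j - p j)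

end Pool.Agent.MSU
end

end

section

/-!
# MP_f58a57_nt, cubic points: approximation by algebraic points and Liouville's inequality, definitions
-/

open Complex

noncomputable section

namespace Pool.Agent.MSL

open MSD MSP MSK MSR

/-! ### Integer polynomials in two variables -/

/-- integer polynomials in two variables `X` (inner variable) and `Y` (outer variable) -/
abbrev BP : Type := Polynomial (Polynomial ℤ)

/-- the polynomial in `Y` obtained by putting `X = x` -/
def sp (x : ℂ) (p : BP) : Polynomial ℂ := p.map (Polynomial.aeval x : Polynomial ℤ →ₐ[ℤ] ℂ).toRingHom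

/-- the value at `X = x`, `Y = y` -/
def ev2 (p : BP) (x y : ℂ) : ℂ := (sp x p).eval y

/-- the length -/
def len2 (p : BP) : ℝ := ∑ j ∈ p.support, len (p.coeff j)

/-- the degree in `X` -/
def dX (p : BP) : ℕ := p.support.sup fun j => (p.coeff j).natDegree

/-- the substitution `X ↦ X - u Y` -/
def phu (u : ℤ) : BP →+* BP :=
  Polynomial.eval₂RingHom (Polynomial.aeval (Polynomial.C Polynomial.X - Polynomial.C (Polynomial.C u) * Polynomial.X : BP) :
    Polynomial ℤ →ₐ[ℤ] BP).toRingHom Polynomial.X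

/-- the length of a complex polynomial -/
def lenC (p : Polynomial ℂ) : ℝ := ∑ j ∈ p.support, ‖p.coeff j‖

/-! ### Heights -/

/-- an irreducible integer polynomial of positive degree with the root `α` (if `α` is algebraic) -/
def mz (α : ℂ) : Polynomial ℤ :=
  open Classical in if h : ∃ f : Polynomial ℤ, Irreducible f ∧ 1 ≤ f.natDegree ∧ Polynomial.aeval α f = 0 then h.choose else Polynomial.X

/-- the logarithmic height of an algebraic number -/
def hgt (α : ℂ) : ℝ := Real.log (MM (mz α)) / (mz α).natDegree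

/-- `log⁺ (1/r)` -/
def lp (r : ℝ) : ℝ := max 0 (-Real.log r)

/-! ### The result of the elimination -/

/-- a common zero `(x, y)` of two integer polynomials which is extremely close to `θ` relative to its height -/
def Appr (θ : Fin 2 → ℂ) (l : ℕ) (K : ℝ) : Prop :=
  ∃ (P Q : BP) (u v : ℕ) (x y : ℂ), u ≠ v ∧ u ≤ l ^ 28 ∧ v ≤ l ^ 28 ∧ ev2 P x y = 0 ∧ ev2 Q x y = 0 ∧
    (∀ x' y' : ℂ, ev2 P x' y' = 0 → ev2 Q x' y' = 0 → IsAlgebraic ℚ x' ∧ IsAlgebraic ℚ y' ∧
      ‖x' - θ 0‖ ≤ l ^ 28 * ‖x' + u * y' - (θ 0 + u * θ 1)‖ ∧ ‖y' - θ 1‖ ≤ l ^ 28 * ‖x' + u * y' - (θ 0 + u * θ 1)‖) ∧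
    ((mz (x + u * y)).natDegree + Real.log (MM (mz (x + u * y))) ≤ l ^ 11) ∧
    ‖Polynomial.aeval (θ 0 + u * θ 1) (mz (x + u * y))‖ ≤
      Real.exp (-(K * l ^ 4 * Real.log l * ((mz (x + u * y)).natDegree + Real.log (MM (mz (x + u * y)))))) ∧
    hgt (x + v * y) ≤ hgt (x + u * y)

/-! ### Algebraic points over `θ` -/

/-- polynomials in one variable whose coefficients are integer polynomials in two variables -/
abbrev FP : Type := Polynomial (MvPolynomial (Fin 2) ℤ)

/-- specialisation of the coefficients -/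
def spv {R : Type} [CommRing R] (x : Fin 2 → R) (F : FP) : Polynomial R :=
  F.map (MvPolynomial.aeval x : MvPolynomial (Fin 2) ℤ →ₐ[ℤ] R).toRingHom

/-- the parameters `g, k, g₃` of a curve -/
def par3 (τ om kap : ℂ) : Fin 3 → ℂ :=
  ![2 / 3 * Real.pi ^ 4 * e4 τ / om ^ 4, kap, 8 / 27 * Real.pi ^ 6 * e6 τ / om ^ 6]

/-- the value group of the valuations -/
abbrev VG : Type := WithZero (Multiplicative ℤ)

/-- a point of a number field `L` over the point `x`: the parameters `w = (g, k, g₃)`, conjugates `z, r` of the constants, integers `X l` and square roots `Y l` -/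
structure LP (P : Par 2) (L : IntermediateField ℚ ℂ) where
  x : Fin 2 → L
  w : Fin 3 → L
  z : L
  r : L
  X : Fin 3 → ℕ
  Y : Fin 3 → L
  hY : ∀ l, Y l ^ 2 = 4 * (X l : L) ^ 3 - 2 * w 0 * X l - w 2

/-- the vector of the values -/
def LP.v {P : Par 2} {L : IntermediateField ℚ ℂ} (p : LP P L) : Vr 2 → L
  | .X l => (p.X l : L)
  | .Y l => p.Y l
  | .Q _ => 0
  | .b l => (P.b l : L)
  | .g => p.w 0
  | .k => p.w 1
  | .z => p.z
  | .r => p.r

/-- the matrix of the derivatives over an arbitrary ring -/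
def DL {R : Type} [CommRing R] {E : ℕ} (x : Vr 2 → R) (a : Ir 2 E → Fin 2 → ℕ) (k : Ir 2 E → ℕ) : Matrix (Ir 2 E) (Ir 2 E) R :=
  Matrix.of fun i κ => MvPolynomial.aeval x ((der (fun j => (a i j : ℤ)))^[k i] (Rp (fun j => (κ j).val)))

/-! ### The two inputs -/

/-- the interpolation determinant is small (helper10, file U/D9_Main) -/
def DetSmall (P : Par 2) : Prop :=
  ∀ H : ℝ, ∃ C : ℕ, 1 ≤ C ∧ ∀ D : Dt 2, D.τ = P.z → D.om ^ 2 = Real.pi → D.kap = sE P.z / Real.pi → (∀ l, ‖D.h l‖ ≤ H) →
    ∀ B : ℝ, 2 ≤ B → (∀ v, ‖vals P D v‖ ≤ B) → ∀ E T : ℕ, 1 ≤ E → E ≤ T → ∀ (x : Vr 2 → ℂ) (δ : ℝ), 0 ≤ δ → δ ≤ 1 → (∀ v, ‖x v - vals P D v‖ ≤ δ) →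
      ∀ (a : Ir 2 E → Fin 2 → ℕ) (k : Ir 2 E → ℕ), (∀ i j, a i j ≤ T) → (∀ i, k i ≤ T) →
        ‖(DL x a k).det‖ ≤ (B * T) ^ (C * T * E ^ 2) * ∏ m ∈ Finset.range (E ^ 2), (Real.exp (-((m : ℝ) ^ 2 / C)) + δ)

/-- the zero estimate (helper44) -/
def ZeroEst (P : Par 2) : Prop :=
  ∃ C : ℕ, ∀ τ om kap : ℂ, 0 < τ.im → om ≠ 0 → ∀ X₀ E : ℕ, 1 ≤ E → ∃ x : Fin 3 → ℕ, (∀ l, X₀ ≤ x l ∧ x l ≤ X₀ + C * E ^ 3) ∧
    ∀ D : Dt 2, D.τ = τ → D.om = om → D.kap = kap → (∀ l, D.X l 0 = x l) → ∀ c : Ir 2 E → ℂ, c ≠ 0 →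
      ∃ (a : Fin 2 → ℕ) (k : ℕ), (∀ j, a j ≤ 8 * E) ∧ k ≤ 8 * E ∧
        ∑ κ, c κ * MvPolynomial.aeval (vals P D) ((der (fun j => (a j : ℤ)))^[k] (Rp (fun j => (κ j).val))) ≠ 0

end Pool.Agent.MSL
end

end

section

/-! # R/B8_Shift: quasi periodicity of `TH` -/

open Complex Filter Topology IntermediateField

noncomputable section

namespace Pool.Agent.MSR

open MSD MSP MSK

variable {d : ℕ}

/-- the derivative of the automorphy factor along a line -/
theorem b8_au (D : Dt d) (t η : Fin (d + 1) → ℂ) (m n : Fin (d + 1) → ℤ) :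
    HasDerivAt (fun s : ℂ => ∏ l, au D.τ (m l) (n l) (D.h l + (t l + s * η l)))
      (-(∑ l, 2 * Real.pi * I * n l * η l) * ∏ l, au D.τ (m l) (n l) (D.h l + t l)) 0 := by
  have h1 : ∀ l : Fin (d + 1), HasDerivAt (fun s : ℂ => au D.τ (m l) (n l) (D.h l + (t l + s * η l)))
      (-(2 * Real.pi * I * n l) * au D.τ (m l) (n l) (D.h l + t l) * η l) 0 := by
    intro l
    have h2 : HasDerivAt (fun s : ℂ => D.h l + (t l + s * η l)) (η l) 0 := by
      have := (((hasDerivAt_id' (0 : ℂ)).mul_const (η l)).const_add (t l)).const_add (D.h l)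
      simpa using this
    have h3 := T4_au_deriv D.τ (m l) (n l) (D.h l + (t l + 0 * η l))
    have h4 := HasDerivAt.comp (0 : ℂ) h3 h2
    simpa [Function.comp_def] using h4
  have h5 := HasDerivAt.fun_finsetProd (u := Finset.univ) (fun l _ => h1 l)
  refine h5.congr_deriv ?_
  rw [← Finset.sum_neg_distrib, Finset.sum_mul]
  refine Finset.sum_congr rfl fun l _ => ?_
  simp only [smul_eq_mul, zero_mul, add_zero]
  rw [← Finset.mul_prod_erase Finset.univ (fun l => au D.τ (m l) (n l) (D.h l + t l)) (Finset.mem_univ l)]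
  ring

/-- B8. PROOF. Let `λ_l = m_l + n_l τ`, `α(t) = ∏_l au τ (m_l) (n_l) (h_l + t_l)`. Induction on `q` (`MvPolynomial.induction_on`; the statement for all `t`): `q = C a`: `TH` is `a ∏ th(h_l + t_l)` and `N0_shift`. For `q X_l`: differentiate the identity for `q` in the
direction `t_l` (`TH_line` with `η = single l 1`): left side `TH (t+λ) (X_l q)`; right side: `∂_l α = -2πi n_l α` (`au` is `cexp(.. - 2πi n t)`) so it is `α (TH t (X_l q^) - 2πi n_l TH t q^)`, `q^ = aeval (X - 2πi n) q`, which is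
`α TH t (aeval (X - 2πi n) (q X_l))`. -/
theorem TH_shift (D : Dt d) (t : Fin (d + 1) → ℂ) (m n : Fin (d + 1) → ℤ) (q : MvPolynomial (Fin (d + 1)) ℂ) :
    TH D (fun l => t l + (m l + n l * D.τ)) q = (∏ l, au D.τ (m l) (n l) (D.h l + t l)) *
      TH D t (MvPolynomial.aeval (fun l => MvPolynomial.X l - MvPolynomial.C (2 * Real.pi * I * n l)) q) := by
  induction q using MvPolynomial.induction_on generalizing t with
  | C a =>
    have e1 : ∀ t' : Fin (d + 1) → ℂ, TH D t' (MvPolynomial.C a) = a * MSK.pp D t' := by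
      intro t'
      have := TH_C_mul D t' a 1
      rw [mul_one, TH_one] at this
      exact this
    rw [MvPolynomial.algHom_C, MvPolynomial.algebraMap_eq, e1, e1]
    unfold MSK.pp
    have e2 : ∏ l, N0 D.τ (D.h l + (t l + (m l + n l * D.τ))) =
        (∏ l, au D.τ (m l) (n l) (D.h l + t l)) * ∏ l, N0 D.τ (D.h l + t l) := by
      rw [← Finset.prod_mul_distrib]
      refine Finset.prod_congr rfl fun l _ => ?_
      rw [← N0_shift D.τ D.im (m l) (n l) (D.h l + t l)]
      congr 1
      ring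
    rw [e2]
    ring
  | add p q hp hq =>
    rw [TH_add, hp, hq, map_add, TH_add]
    ring
  | mul_X p i hp =>
    set η : Fin (d + 1) → ℂ := Pi.single i 1 with hη
    have hs : (∑ l, MvPolynomial.C (η l) * MvPolynomial.X l : MvPolynomial (Fin (d + 1)) ℂ) = MvPolynomial.X i := by
      rw [Finset.sum_eq_single i]
      · simp [hη]
      · intro l _ hl
        simp [hη, Pi.single_eq_of_ne hl]
      · intro h
        exact absurd (Finset.mem_univ i) h
    set F : MvPolynomial (Fin (d + 1)) ℂ →ₐ[ℂ] MvPolynomial (Fin (d + 1)) ℂ :=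
      MvPolynomial.aeval (fun l => MvPolynomial.X l - MvPolynomial.C (2 * Real.pi * I * n l)) with hF
    -- left side
    have hL := TH_line D (fun l => t l + (m l + n l * D.τ)) η p 0
    rw [hs] at hL
    have hR := (b8_au D t η m n).mul (TH_line D t η (F p) 0)
    rw [hs] at hR
    have hfun : (fun s : ℂ => TH D (fun l => t l + (m l + n l * D.τ) + s * η l) p) =
        fun s : ℂ => (∏ l, au D.τ (m l) (n l) (D.h l + (t l + s * η l))) * TH D (fun l => t l + s * η l) (F p) := by
      funext s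
      have h1 := hp (fun l => t l + s * η l)
      rw [← h1]
      congr 1
      funext l
      ring
    rw [hfun] at hL
    have hu := hL.unique hR
    simp only [zero_mul, add_zero] at hu
    have hsum : ∑ l, 2 * Real.pi * I * n l * η l = 2 * Real.pi * I * n i := by
      rw [Finset.sum_eq_single i]
      · simp [hη]
      · intro l _ hl
        simp [hη, Pi.single_eq_of_ne hl]
      · intro h
        exact absurd (Finset.mem_univ i) h
    rw [hsum] at hu
    have hFX : F (p * MvPolynomial.X i) = MvPolynomial.X i * F p - MvPolynomial.C (2 * Real.pi * I * n i) * F p := by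
      rw [map_mul, hF, MvPolynomial.aeval_X]
      ring
    have hsub : TH D t (MvPolynomial.X i * F p - MvPolynomial.C (2 * Real.pi * I * n i) * F p) =
        TH D t (MvPolynomial.X i * F p) - 2 * Real.pi * I * n i * TH D t (F p) := by
      have e3 : MvPolynomial.X i * F p - MvPolynomial.C (2 * Real.pi * I * n i) * F p =
          MvPolynomial.X i * F p + MvPolynomial.C (-(2 * Real.pi * I * n i)) * F p := by
        rw [MvPolynomial.C_neg]
        ring
      rw [e3, TH_add, TH_C_mul]
      ring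
    rw [hFX, hsub, mul_comm p]
    rw [hu]
    ring

end Pool.Agent.MSR
end

end

section

/-! # L/A6_Res: resultants -/

open Polynomial

noncomputable section

namespace Pool.Agent.MSL

open MSD MSP

/-- A6a. PROOF. `P` is irreducible of positive degree, so primitive, and irreducible over the field of fractions `K` of `ℤ[X]` (`Polynomial.IsPrimitive.irreducible_iff_irreducible_map_fraction_map`, compare `k2_res_ne_zero` in P/K2_Res), it does not divide `Q` over `K`
(`IsPrimitive.dvd_of_fraction_map_dvd_fraction_map` needs `Q` primitive: write `Q = content · primPart`), so it is coprime to `Q` over `K`. `resultant P Q P.natDegree Q.natDegree ≠ 0` (`resultant_eq_zero_iff`, `resultant_map_map`), and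
`resultant P Q P.natDegree n = ± leadingCoeff^(n - natDegree Q) * ..` (`resultant_add_right_deg`). -/
theorem res_ne (P Q : BP) (hP : Irreducible P) (hd : 1 ≤ P.natDegree) (hQ : Q ≠ 0) (h : ¬ P ∣ Q) (n : ℕ) (hn : Q.natDegree ≤ n) :
    resultant P Q P.natDegree n ≠ 0 := by
  classical
  let _ : NormalizedGCDMonoid (Polynomial ℤ) := Classical.choice inferInstance
  intro h0
  have pP : P.IsPrimitive := hP.isPrimitive (by omega)
  have hinj : Function.Injective (algebraMap (Polynomial ℤ) (FractionRing (Polynomial ℤ))) := IsFractionRing.injective _ _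
  have hP' : Irreducible (P.map (algebraMap (Polynomial ℤ) (FractionRing (Polynomial ℤ)))) :=
    (Polynomial.IsPrimitive.irreducible_iff_irreducible_map_fraction_map pP).1 hP
  have hcop : IsCoprime (P.map (algebraMap (Polynomial ℤ) (FractionRing (Polynomial ℤ))))
      (Q.map (algebraMap (Polynomial ℤ) (FractionRing (Polynomial ℤ)))) := by
    rw [hP'.coprime_iff_not_dvd]
    intro hdv
    exact h (pP.dvd_of_fraction_map_dvd_fraction_map hdv)
  have hr := Polynomial.resultant_ne_zero _ _ hcop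
  rw [Polynomial.natDegree_map_eq_of_injective hinj, Polynomial.natDegree_map_eq_of_injective hinj,
    Polynomial.resultant_map_map] at hr
  have hr1 : resultant P Q P.natDegree Q.natDegree ≠ 0 := by
    intro h1
    exact hr (by rw [h1, map_zero])
  obtain ⟨k, rfl⟩ := Nat.exists_eq_add_of_le hn
  rw [Polynomial.resultant_add_right_deg _ _ _ _ _ (le_refl _), Polynomial.coeff_natDegree] at h0
  rcases mul_eq_zero.1 h0 with h1 | h1
  · exact pow_ne_zero k (Polynomial.leadingCoeff_ne_zero.2 hP.ne_zero) h1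
  · exact hr1 h1

/-- A6b. PROOF. `aeval x (resultant P Q m n) = resultant (sp x P) (sp x Q) m n` (`resultant_map_map`). -/
theorem res_sp (P Q : BP) (m n : ℕ) (x : ℂ) : aeval x (resultant P Q m n) = resultant (sp x P) (sp x Q) m n := by
  unfold sp
  rw [Polynomial.resultant_map_map]
  rfl

theorem a6_lead (P : BP) (a : ℤ) (ha : a ≠ 0) (hl : P.leadingCoeff = C a) (x : ℂ) :
    (sp x P).natDegree = P.natDegree ∧ (sp x P).leadingCoeff = (a : ℂ) := by
  have h1 : ((Polynomial.aeval x : Polynomial ℤ →ₐ[ℤ] ℂ).toRingHom) P.leadingCoeff = (a : ℂ) := by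
    rw [hl]
    show Polynomial.aeval x (C a) = (a : ℂ)
    rw [Polynomial.aeval_C]
    simp
  have h2 : ((Polynomial.aeval x : Polynomial ℤ →ₐ[ℤ] ℂ).toRingHom) P.leadingCoeff ≠ 0 := by
    rw [h1]
    exact_mod_cast ha
  refine ⟨Polynomial.natDegree_map_of_leadingCoeff_ne_zero _ h2, ?_⟩
  unfold sp
  rw [Polynomial.leadingCoeff_map_of_leadingCoeff_ne_zero _ h2, h1]

theorem a6_prod (P Q : BP) (a : ℤ) (ha : a ≠ 0) (hl : P.leadingCoeff = C a) (n : ℕ) (hn : Q.natDegree ≤ n) (x : ℂ) :
    aeval x (resultant P Q P.natDegree n) = (a : ℂ) ^ n * ((sp x P).roots.map (sp x Q).eval).prod := by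
  obtain ⟨h1, h2⟩ := a6_lead P a ha hl x
  rw [res_sp, ← h1, ← h2]
  exact Polynomial.resultant_eq_prod_eval (sp x P) (sp x Q) n (le_trans Polynomial.natDegree_map_le hn)
    (IsAlgClosed.splits _)

/-- A6c. PROOF. `sp x P` has the same degree and the leading coefficient `a ≠ 0`; it splits over `ℂ`: `resultant_eq_prod_eval` gives `a^n ∏ (sp x Q).eval b = 0` over the roots `b` of `sp x P`. -/
theorem res_root (P Q : BP) (a : ℤ) (ha : a ≠ 0) (hl : P.leadingCoeff = C a) (n : ℕ) (hn : Q.natDegree ≤ n) (x : ℂ)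
    (h : aeval x (resultant P Q P.natDegree n) = 0) : ∃ y : ℂ, ev2 P x y = 0 ∧ ev2 Q x y = 0 := by
  rw [a6_prod P Q a ha hl n hn x] at h
  have ha' : (a : ℂ) ^ n ≠ 0 := pow_ne_zero _ (by exact_mod_cast ha)
  rcases mul_eq_zero.1 h with h1 | h1
  · exact absurd h1 ha'
  · rw [Multiset.prod_eq_zero_iff, Multiset.mem_map] at h1
    obtain ⟨y, hy, hy0⟩ := h1
    exact ⟨y, (Polynomial.mem_roots'.1 hy).2, hy0⟩

/-- A6d. PROOF. If both vanish at `y` then `y` is a root of `sp x P`; the same formula. (Here the degree of `sp x P` is exactly `P.natDegree`.) -/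
theorem root_res (P Q : BP) (a : ℤ) (ha : a ≠ 0) (hl : P.leadingCoeff = C a) (n : ℕ) (hn : Q.natDegree ≤ n) (x y : ℂ)
    (h1 : ev2 P x y = 0) (h2 : ev2 Q x y = 0) : aeval x (resultant P Q P.natDegree n) = 0 := by
  rw [a6_prod P Q a ha hl n hn x]
  have hne : sp x P ≠ 0 := by
    intro h0
    have h3 := (a6_lead P a ha hl x).2
    rw [h0, Polynomial.leadingCoeff_zero] at h3
    exact ha (by exact_mod_cast h3.symm)
  have hy : y ∈ (sp x P).roots := Polynomial.mem_roots'.2 ⟨hne, h1⟩
  have h4 : ((sp x P).roots.map (sp x Q).eval).prod = 0 := by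
    rw [Multiset.prod_eq_zero_iff, Multiset.mem_map]
    exact ⟨y, hy, h2⟩
  rw [h4, mul_zero]

end Pool.Agent.MSL
end

end

section

/-!
# MP_f58a57_nt, cubic points: lifted points, definitions

The five parameters are `(g, k, g₃, z, r)`.
-/

open Complex

noncomputable section

namespace Pool.Agent.MSL

open MSD MSP MSK MSR

/-- the five values `(g, k, g₃, z, r)` of a curve with period ratio `τ`, scaling `om` -/
def par5 (z τ om kap : ℂ) : Fin 5 → ℂ :=
  ![2 / 3 * Real.pi ^ 4 * e4 τ / om ^ 4, kap, 8 / 27 * Real.pi ^ 6 * e6 τ / om ^ 6, z, rh]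

/-- a point of a field `L`: `x`, the five parameters `w`, integers `X l` and square roots `Y l` -/
structure LQ (L : Type) [Field L] where
  x : Fin 2 → L
  w : Fin 5 → L
  X : Fin 3 → ℕ
  Y : Fin 3 → L
  hY : ∀ l, Y l ^ 2 = 4 * (X l : L) ^ 3 - 2 * w 0 * X l - w 2

/-- the vector of the values -/
def LQ.v {L : Type} [Field L] [CharZero L] (P : Par 2) (p : LQ L) : Vr 2 → L
  | .X l => (p.X l : L)
  | .Y l => p.Y l
  | .Q _ => 0
  | .b l => ((P.b l : ℚ) : L)
  | .g => p.w 0
  | .k => p.w 1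
  | .z => p.w 3
  | .r => p.w 4

/-- the polynomials `F i` have the simple roots `ω i` over `θ`; the last two have constant roots -/
structure FD (θ : Fin 2 → ℂ) (ω : Fin 5 → ℂ) (F : Fin 5 → FP) : Prop where
  lc : ∀ i, MvPolynomial.aeval θ (F i).leadingCoeff ≠ 0
  root : ∀ i, (spv θ (F i)).eval (ω i) = 0
  simple : ∀ i, (Polynomial.derivative (spv θ (F i))).eval (ω i) ≠ 0
  cz : ∀ x : Fin 2 → ℂ, (spv x (F 3)).eval (ω 3) = 0
  cr : ∀ x : Fin 2 → ℂ, (spv x (F 4)).eval (ω 4) = 0

/-- the common denominator: `q` times the product of the leading coefficients -/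
def Den {L : Type} [Field L] (F : Fin 5 → FP) (q : ℕ) (x : Fin 2 → L) : L :=
  (q : L) * ∏ i, MvPolynomial.aeval x (F i).leadingCoeff

end Pool.Agent.MSL
end

end

section

/-! # L/A1c_Swap: exchanging the variables; values at algebraically independent numbers -/

open Polynomial

noncomputable section

namespace Pool.Agent.MSL

open MSD MSP

theorem a1c_coeff (p : BP) (i j : ℕ) :
    ((Polynomial.Bivariate.swap p : BP).coeff i).coeff j = (p.coeff j).coeff i := by
  induction p using Polynomial.induction_on' with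
  | add p q hp hq => rw [map_add, coeff_add, coeff_add, hp, hq, coeff_add, coeff_add]
  | monomial n f =>
    induction f using Polynomial.induction_on' with
    | add f g hf hg =>
      rw [map_add (monomial n), map_add, coeff_add, coeff_add, hf, hg, coeff_add, coeff_add]
    | monomial m r =>
      rw [Polynomial.Bivariate.swap_monomial_monomial]
      by_cases h1 : m = i
      · by_cases h2 : n = j
        · simp [coeff_monomial, h1, h2]
        · simp [coeff_monomial, h1, h2]
      · by_cases h2 : n = j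
        · simp [coeff_monomial, h1, h2]
        · simp [coeff_monomial, h1, h2]

theorem a1c_natDegree_le (p : BP) (N : ℕ) :
    p.natDegree ≤ N ↔ ∀ i j, N < i → (p.coeff i).coeff j = 0 := by
  rw [natDegree_le_iff_coeff_eq_zero]
  constructor
  · intro h i j hi
    rw [h i hi, coeff_zero]
  · intro h i hi
    ext j
    rw [h i j hi, coeff_zero]

theorem a1c_dX_le (p : BP) (N : ℕ) :
    dX p ≤ N ↔ ∀ i j, N < i → (p.coeff j).coeff i = 0 := by
  rw [dX, Finset.sup_le_iff]
  constructor
  · intro h i j hi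
    by_cases hj : j ∈ p.support
    · exact (natDegree_le_iff_coeff_eq_zero.1 (h j hj)) i hi
    · rw [notMem_support_iff.1 hj, coeff_zero]
  · intro h j _
    rw [natDegree_le_iff_coeff_eq_zero]
    exact fun i hi => h i j hi

theorem a1c_len2 (p : BP) (A B : ℕ) (hA : p.natDegree < A) (hB : dX p < B) :
    len2 p = ∑ j ∈ Finset.range A, ∑ i ∈ Finset.range B, |(((p.coeff j).coeff i : ℤ) : ℝ)| := by
  have h1 : len2 p = ∑ j ∈ Finset.range A, len (p.coeff j) := by
    rw [len2]
    refine Finset.sum_subset (fun j hj => ?_) (fun j _ hj => ?_)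
    · rw [Finset.mem_range]
      exact (le_natDegree_of_mem_supp j hj).trans_lt hA
    · rw [notMem_support_iff.1 hj, len_zero]
  rw [h1]
  refine Finset.sum_congr rfl (fun j _ => ?_)
  refine a1_len_eq _ _ (fun i hi => ?_)
  rw [Finset.mem_range]
  by_contra h2
  exact (mem_support_iff.1 hi) ((a1c_dX_le p (dX p)).1 le_rfl i j (by omega))

/-- evaluation as a ring homomorphism -/
def a1c_ev (x y : ℂ) : BP →+* ℂ :=
  (evalRingHom y).comp (mapRingHom (aeval x : Polynomial ℤ →ₐ[ℤ] ℂ).toRingHom)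

theorem a1c_ev_eq (p : BP) (x y : ℂ) : ev2 p x y = a1c_ev x y p := rfl

theorem a1c_ev_C (x y : ℂ) (f : Polynomial ℤ) : a1c_ev x y (C f) = aeval x f := by
  simp [a1c_ev]

theorem a1c_ev_X (x y : ℂ) : a1c_ev x y X = y := by
  simp [a1c_ev]

theorem a1c_ext (f g : BP →+* ℂ) (h1 : f (C X) = g (C X)) (h2 : f X = g X) : f = g := by
  refine Polynomial.ringHom_ext' ?_ h2
  refine Polynomial.ringHom_ext' (Subsingleton.elim _ _) ?_
  exact h1

/-- A1l. PROOF. `q = Polynomial.Bivariate.swap p`, a ring isomorphism of `ℤ[X][Y]`: `(q.coeff i).coeff j = (p.coeff j).coeff i` (`swap_monomial_monomial`, linearity), so `dX q = natDegree p`, `natDegree q = dX p` (`p ≠ 0`), `len2 q = len2 p` (the sum of the absolute values of all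
coefficients), `ev2 q x y = ev2 p y x` (ring homomorphisms, `Polynomial.ringHom_ext`, or `aevalAeval_swap`). -/
theorem exists_swap (p : BP) (hp : p ≠ 0) : ∃ q : BP, (Irreducible p → Irreducible q) ∧ q ≠ 0 ∧ dX q = p.natDegree ∧ q.natDegree = dX p ∧
    len2 q = len2 p ∧ ∀ x y : ℂ, ev2 q x y = ev2 p y x := by
  have hd1 : dX (Polynomial.Bivariate.swap p : BP) = p.natDegree := by
    refine eq_of_forall_ge_iff (fun N => ?_)
    rw [a1c_dX_le, a1c_natDegree_le]
    constructor
    · intro h i j hi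
      rw [← a1c_coeff]
      exact h i j hi
    · intro h i j hi
      rw [a1c_coeff]
      exact h i j hi
  have hd2 : (Polynomial.Bivariate.swap p : BP).natDegree = dX p := by
    refine eq_of_forall_ge_iff (fun N => ?_)
    rw [a1c_dX_le, a1c_natDegree_le]
    constructor
    · intro h i j hi
      rw [← a1c_coeff]
      exact h i j hi
    · intro h i j hi
      rw [a1c_coeff]
      exact h i j hi
  refine ⟨Polynomial.Bivariate.swap p, fun h => ?_, ?_, hd1, hd2, ?_, fun x y => ?_⟩
  · exact (MulEquiv.irreducible_iff (Polynomial.Bivariate.swap (R := ℤ))).2 h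
  · exact (EmbeddingLike.map_ne_zero_iff (f := Polynomial.Bivariate.swap (R := ℤ))).2 hp
  · rw [a1c_len2 _ (dX p + 1) (p.natDegree + 1) (by omega) (by omega),
      a1c_len2 p (p.natDegree + 1) (dX p + 1) (by omega) (by omega), Finset.sum_comm]
    refine Finset.sum_congr rfl (fun j _ => Finset.sum_congr rfl (fun i _ => ?_))
    rw [a1c_coeff]
  · have h1 : (a1c_ev x y).comp (Polynomial.Bivariate.swap (R := ℤ) : BP →+* BP) =
        a1c_ev y x := by
      refine a1c_ext _ _ ?_ ?_
      · rw [RingHom.comp_apply]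
        have e1 : (Polynomial.Bivariate.swap (R := ℤ) : BP →+* BP) (C X) = X :=
          Polynomial.Bivariate.swap_X
        rw [e1, a1c_ev_X, a1c_ev_C, aeval_X]
      · rw [RingHom.comp_apply]
        have e1 : (Polynomial.Bivariate.swap (R := ℤ) : BP →+* BP) X = C X :=
          Polynomial.Bivariate.swap_Y
        rw [e1, a1c_ev_X, a1c_ev_C, aeval_X]
    rw [a1c_ev_eq, a1c_ev_eq, ← h1]
    rfl

/-- A1m. PROOF. `ev2 · (θ 0) (θ 1)` is `MvPolynomial.aeval θ` after the isomorphism `ℤ[X][Y] ≃ MvPolynomial (Fin 2) ℤ` (`Polynomial.Bivariate.equivMvPolynomial`), and `MvPolynomial.map (Int.castRingHom ℚ)` is injective. -/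
theorem ev2_ne (θ : Fin 2 → ℂ) (hθ : AlgebraicIndependent ℚ θ) (p : BP) (hp : p ≠ 0) : ev2 p (θ 0) (θ 1) ≠ 0 := by
  have hθ' : AlgebraicIndependent ℤ θ := hθ.restrictScalars (algebraMap ℤ ℚ).injective_int
  intro h
  have h1 : a1c_ev (θ 0) (θ 1) = ((MvPolynomial.aeval θ : MvPolynomial (Fin 2) ℤ →ₐ[ℤ] ℂ) :
      MvPolynomial (Fin 2) ℤ →+* ℂ).comp (Polynomial.Bivariate.equivMvPolynomial ℤ :
        BP →+* MvPolynomial (Fin 2) ℤ) := by
    refine a1c_ext _ _ ?_ ?_
    · rw [RingHom.comp_apply]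
      have e1 : (Polynomial.Bivariate.equivMvPolynomial ℤ : BP →+* MvPolynomial (Fin 2) ℤ) (C X) =
          MvPolynomial.X 0 := Polynomial.Bivariate.equivMvPolynomial_C_X
      rw [e1, a1c_ev_C, aeval_X]
      simp
    · rw [RingHom.comp_apply]
      have e1 : (Polynomial.Bivariate.equivMvPolynomial ℤ : BP →+* MvPolynomial (Fin 2) ℤ) X =
          MvPolynomial.X 1 := Polynomial.Bivariate.equivMvPolynomial_X
      rw [e1, a1c_ev_X]
      simp
  rw [a1c_ev_eq, h1, RingHom.comp_apply] at h
  have h2 := hθ'.eq_zero_of_aeval_eq_zero _ h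
  exact hp ((EmbeddingLike.map_eq_zero_iff (f := Polynomial.Bivariate.equivMvPolynomial ℤ)).1 h2)

/-- A1n. PROOF. If `R(θ 0 + u θ 1) = 0` then `p = R.eval₂ (C ∘ C) (C X + C (C u) * X)`, i.e. `R(X + uY)`, vanishes at `θ`; it is nonzero (put `Y = 0`). Or: `θ 0 + u θ 1` is transcendental because `θ 0` would be algebraic over `ℚ(θ 1)` otherwise. -/
theorem lin_ne (θ : Fin 2 → ℂ) (hθ : AlgebraicIndependent ℚ θ) (u : ℕ) (R : Polynomial ℤ) (hR : R ≠ 0) : aeval (θ 0 + u * θ 1) R ≠ 0 := by
  have hev : ∀ x y : ℂ, ev2 (aeval (C X + C (C (u : ℤ)) * X : BP) R) x y =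
      aeval (x + u * y) R := by
    intro x y
    rw [a1c_ev_eq, aeval_def, hom_eval₂, aeval_def]
    have e1 : (a1c_ev x y).comp (algebraMap ℤ BP) = algebraMap ℤ ℂ := Subsingleton.elim _ _
    have e2 : a1c_ev x y (C X + C (C (u : ℤ)) * X) = x + u * y := by
      rw [map_add, map_mul, a1c_ev_C, a1c_ev_C, a1c_ev_X, aeval_X, aeval_C]
      simp
    rw [e1, e2]
  have hne : (aeval (C X + C (C (u : ℤ)) * X : BP) R) ≠ 0 := by
    intro h
    apply hR
    have h1 : R.map (algebraMap ℤ ℂ) = 0 := by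
      refine Polynomial.funext (fun x => ?_)
      have h2 := hev x 0
      rw [h, a1c_ev_eq, map_zero, mul_zero, add_zero] at h2
      rw [eval_map_algebraMap, ← h2, eval_zero]
    exact (Polynomial.map_eq_zero_iff (algebraMap ℤ ℂ).injective_int).1 h1
  rw [← hev]
  exact ev2_ne θ hθ _ hne

end Pool.Agent.MSL
end

end

section

/-! # L/A6b_ResBd: bounds for resultants -/

open Polynomial

noncomputable section

namespace Pool.Agent.MSL

open MSD MSP

theorem a6b_len_eq (p : Polynomial ℂ) (n : ℕ) (hp : p.natDegree ≤ n) :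
    ∑ t ∈ Finset.range (n + 1), ‖p.coeff t‖ = lenC p := by
  unfold lenC
  symm
  refine Finset.sum_subset (fun i hi => ?_) fun i _ hi => ?_
  · rw [Finset.mem_range]
    have := Polynomial.le_natDegree_of_mem_supp i hi
    omega
  · rw [Polynomial.notMem_support_iff.1 hi]
    simp

theorem a6b_lenC_nonneg (p : Polynomial ℂ) : 0 ≤ lenC p :=
  Finset.sum_nonneg fun _ _ => norm_nonneg _

/-- the `ℓ¹` norms of the rows of the transposed Sylvester matrix -/
def a6b_r (f g : Polynomial ℂ) (m n : ℕ) : Fin (m + n) → ℝ :=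
  fun i => Fin.addCases (fun _ => lenC g) (fun _ => lenC f) i

theorem a6b_row (f g : Polynomial ℂ) (m n : ℕ) (hf : f.natDegree ≤ m) (hg : g.natDegree ≤ n)
    (i : Fin (m + n)) : ∑ j, ‖((sylvester f g m n).transpose) i j‖ = a6b_r f g m n i := by
  refine Fin.addCases (fun i => ?_) (fun i => ?_) i
  · simp only [a6b_r, Fin.addCases_left]
    rw [← a6b_len_eq g n hg, ← k2_sum (m + n) i n (by have := i.2; omega)
      (fun t => ‖g.coeff t‖)]
    refine Finset.sum_congr rfl fun j _ => ?_
    simp only [Matrix.transpose_apply, sylvester, Matrix.of_apply, Fin.addCases_left]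
    split_ifs <;> simp
  · simp only [a6b_r, Fin.addCases_right]
    rw [← a6b_len_eq f m hf, ← k2_sum (m + n) i m (by have := i.2; omega)
      (fun t => ‖f.coeff t‖)]
    refine Finset.sum_congr rfl fun j _ => ?_
    simp only [Matrix.transpose_apply, sylvester, Matrix.of_apply, Fin.addCases_right]
    split_ifs <;> simp

/-- A6e. PROOF. `resultant = det (sylvester f g m n)`; the column `j` of the Sylvester matrix contains the coefficients of `f` (`n` columns) or of `g` (`m` columns), shifted; so the `ℓ¹` norm of a column is `≤ lenC f` or `≤ lenC g`, and `norm_det_le` (P/K2_Res) for the transposed matrix. See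
the proof of `res_bound` in P/K2_Res, where the same is done for integer polynomials (`k2_sum`). -/
theorem resC_le (f g : Polynomial ℂ) (m n : ℕ) (hf : f.natDegree ≤ m) (hg : g.natDegree ≤ n) :
    ‖resultant f g m n‖ ≤ lenC f ^ n * lenC g ^ m := by
  have h0 : resultant f g m n = ((sylvester f g m n).transpose).det := by
    rw [Matrix.det_transpose]
    rfl
  rw [h0]
  refine (norm_det_le _).trans (le_of_eq ?_)
  rw [Finset.prod_congr rfl fun i _ => a6b_row f g m n hf hg i, Fin.prod_univ_add]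
  simp only [a6b_r, Fin.addCases_left, Fin.addCases_right, Finset.prod_const, Finset.card_univ,
    Fintype.card_fin]
  ring

/-- A6f. PROOF. As in the proof of `res_bound` (P/K2_Res): `S` the transposed Sylvester matrix, `v = (y^k)_k`, `S v` has the entries `y^i f(y)` (`i < n`) and `y^j g(y)` (`j < m`), `det S = det S · v_0 = ∑_j adj(S)_0j (S v)_j`, and `|adj(S)_0j|` is at most the product of the `ℓ¹` norms of the
other rows, `≤ (max 1 (lenC f))^n (max 1 (lenC g))^m`. -/
theorem resC_small (f g : Polynomial ℂ) (m n : ℕ) (hf : f.natDegree ≤ m) (hg : g.natDegree ≤ n) (hmn : 1 ≤ m + n) (y : ℂ) :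
    ‖resultant f g m n‖ ≤ ((m : ℝ) + n) * (max 1 ‖y‖) ^ (m + n) * (max 1 (lenC f) ^ n * max 1 (lenC g) ^ m) *
      max ‖f.eval y‖ ‖g.eval y‖ := by
  classical
  set A : Matrix (Fin (m + n)) (Fin (m + n)) ℂ := (sylvester f g m n).transpose with hA
  have hAdet : resultant f g m n = A.det := by
    rw [hA, Matrix.det_transpose]
    rfl
  let r : Fin (m + n) → ℝ := fun i => Fin.addCases (fun _ => max 1 (lenC g)) (fun _ => max 1 (lenC f)) i
  have hr1 : ∀ i, 1 ≤ r i := by
    intro i
    refine Fin.addCases (fun i => ?_) (fun i => ?_) i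
    · simp only [r, Fin.addCases_left]; exact le_max_left _ _
    · simp only [r, Fin.addCases_right]; exact le_max_left _ _
  have hrow : ∀ i, ∑ j, ‖A i j‖ ≤ r i := by
    intro i
    rw [hA, a6b_row f g m n hf hg i]
    refine Fin.addCases (fun i => ?_) (fun i => ?_) i
    · simp only [r, a6b_r, Fin.addCases_left]; exact le_max_right _ _
    · simp only [r, a6b_r, Fin.addCases_right]; exact le_max_right _ _
  have hprod : ∏ i, r i = max 1 (lenC g) ^ m * max 1 (lenC f) ^ n := by
    rw [Fin.prod_univ_add]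
    simp only [r, Fin.addCases_left, Fin.addCases_right, Finset.prod_const, Finset.card_univ,
      Fintype.card_fin]
  let v : Fin (m + n) → ℂ := fun i => y ^ (i : ℕ)
  set Θ : ℝ := max 1 ‖y‖ with hΘ
  have hΘ1 : 1 ≤ Θ := le_max_left _ _
  have hpow : ∀ i : ℕ, i ≤ m + n → ‖y‖ ^ i ≤ Θ ^ (m + n) := by
    intro i hi
    calc ‖y‖ ^ i ≤ Θ ^ i := pow_le_pow_left₀ (norm_nonneg _) (le_max_right _ _) _
      _ ≤ Θ ^ (m + n) := pow_le_pow_right₀ hΘ1 hi
  have hev : ∀ (q : Polynomial ℂ) (d j : ℕ), q.natDegree ≤ d →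
      ∑ t ∈ Finset.range (d + 1), q.coeff t * y ^ (t + j) = y ^ j * q.eval y := by
    intro q d j hd
    rw [Polynomial.eval_eq_sum_range' (Nat.lt_succ_of_le hd), Finset.mul_sum]
    refine Finset.sum_congr rfl fun t _ => ?_
    ring
  have hAv : ∀ i, ‖(A.mulVec v) i‖ ≤ Θ ^ (m + n) * max ‖f.eval y‖ ‖g.eval y‖ := by
    intro i
    refine Fin.addCases (fun i => ?_) (fun i => ?_) i
    · have h1 : (A.mulVec v) (Fin.castAdd n i) = y ^ (i : ℕ) * g.eval y := by
        rw [← hev g n i hg, ← k2_sum (m + n) i n (by have := i.2; omega)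
          (fun t => g.coeff t * y ^ (t + (i : ℕ)))]
        simp only [Matrix.mulVec, dotProduct]
        refine Finset.sum_congr rfl fun j _ => ?_
        simp only [hA, Matrix.transpose_apply,
          sylvester, Matrix.of_apply, Fin.addCases_left, v]
        split_ifs with hij
        · rw [Set.mem_Icc] at hij
          rw [Nat.sub_add_cancel hij.1]
        · simp
      rw [h1, norm_mul, norm_pow]
      exact mul_le_mul (hpow _ (by have := i.2; omega)) (le_max_right _ _) (norm_nonneg _)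
        (by positivity)
    · have h1 : (A.mulVec v) (Fin.natAdd m i) = y ^ (i : ℕ) * f.eval y := by
        rw [← hev f m i hf, ← k2_sum (m + n) i m (by have := i.2; omega)
          (fun t => f.coeff t * y ^ (t + (i : ℕ)))]
        simp only [Matrix.mulVec, dotProduct]
        refine Finset.sum_congr rfl fun j _ => ?_
        simp only [hA, Matrix.transpose_apply,
          sylvester, Matrix.of_apply, Fin.addCases_right, v]
        split_ifs with hij
        · rw [Set.mem_Icc] at hij
          rw [Nat.sub_add_cancel hij.1]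
        · simp
      rw [h1, norm_mul, norm_pow]
      exact mul_le_mul (hpow _ (by have := i.2; omega)) (le_max_left _ _) (norm_nonneg _)
        (by positivity)
  let z : Fin (m + n) := ⟨0, hmn⟩
  have hadj : ∀ j, ‖A.adjugate z j‖ ≤ max 1 (lenC f) ^ n * max 1 (lenC g) ^ m := by
    intro j
    rw [Matrix.adjugate_apply]
    refine (norm_det_le _).trans ?_
    calc ∏ i, ∑ c, ‖(A.updateRow j (Pi.single z 1)) i c‖ ≤ ∏ i, r i := by
          refine Finset.prod_le_prod (fun i _ => Finset.sum_nonneg fun c _ => norm_nonneg _)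
            fun i _ => ?_
          by_cases hij : i = j
          · subst hij
            rw [Matrix.updateRow_self]
            refine le_trans (le_of_eq ?_) (hr1 i)
            rw [Finset.sum_eq_single z]
            · simp
            · intro c _ hc
              rw [Pi.single_eq_of_ne hc, norm_zero]
            · intro h; exact absurd (Finset.mem_univ _) h
          · rw [Matrix.updateRow_ne hij]
            exact hrow i
      _ = max 1 (lenC f) ^ n * max 1 (lenC g) ^ m := by rw [hprod, mul_comm]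
  have hfinal : A.det = ∑ j, A.adjugate z j * (A.mulVec v) j := by
    have h1 : A.adjugate.mulVec (A.mulVec v) = A.det • v := by
      rw [Matrix.mulVec_mulVec, Matrix.adjugate_mul, Matrix.smul_mulVec, Matrix.one_mulVec]
    have h2 := congrFun h1 z
    simp only [Pi.smul_apply, smul_eq_mul, v, z, pow_zero, mul_one] at h2
    rw [← h2]
    rfl
  rw [hAdet]
  calc ‖A.det‖ = ‖∑ j, A.adjugate z j * (A.mulVec v) j‖ := by rw [← hfinal]
    _ ≤ ∑ j, ‖A.adjugate z j * (A.mulVec v) j‖ := norm_sum_le _ _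
    _ ≤ ∑ _j : Fin (m + n), (max 1 (lenC f) ^ n * max 1 (lenC g) ^ m) *
        (Θ ^ (m + n) * max ‖f.eval y‖ ‖g.eval y‖) := by
      refine Finset.sum_le_sum fun j _ => ?_
      rw [norm_mul]
      exact mul_le_mul (hadj j) (hAv j) (norm_nonneg _) (by positivity)
    _ = ((m : ℝ) + n) * Θ ^ (m + n) * (max 1 (lenC f) ^ n * max 1 (lenC g) ^ m) *
        max ‖f.eval y‖ ‖g.eval y‖ := by
      rw [Finset.sum_const, Finset.card_univ, Fintype.card_fin, nsmul_eq_mul]
      push_cast
      ring

end Pool.Agent.MSL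
end

end

section

/-! # L/S2_Eq: the equations of the parameters -/

open Polynomial IntermediateField

noncomputable section

namespace Pool.Agent.MSL

open MSD MSP

theorem s2_min {A : Type} [CommRing A] [IsDomain A] [CharZero A] (φ : A →+* ℂ) (hφ : Function.Injective φ) (ω : ℂ)
    (h : ∃ p : A[X], p ≠ 0 ∧ (p.map φ).eval ω = 0) :
    ∃ F : A[X], φ F.leadingCoeff ≠ 0 ∧ (F.map φ).eval ω = 0 ∧ (derivative (F.map φ)).eval ω ≠ 0 := by
  obtain ⟨F, ⟨hF0, hFω⟩, hmin⟩ := WellFounded.has_min (measure (Polynomial.natDegree : A[X] → ℕ)).wf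
    {p : A[X] | p ≠ 0 ∧ (p.map φ).eval ω = 0} h
  have hlc : φ F.leadingCoeff ≠ 0 := by
    intro h0
    apply hF0
    rw [← Polynomial.leadingCoeff_eq_zero]
    apply hφ
    rw [h0, map_zero]
  refine ⟨F, hlc, hFω, ?_⟩
  intro hd
  have hdeg : F.natDegree ≠ 0 := by
    intro h0
    obtain ⟨c, hc⟩ := Polynomial.natDegree_eq_zero.1 h0
    rw [← hc, Polynomial.map_C, Polynomial.eval_C] at hFω
    rw [← hc, Polynomial.leadingCoeff_C] at hlc
    exact hlc hFω
  have hd0 : derivative F ≠ 0 := by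
    intro h0
    exact hdeg (Polynomial.derivative_eq_zero.1 h0)
  have hdω : ((derivative F).map φ).eval ω = 0 := by
    rw [← Polynomial.derivative_map]
    exact hd
  exact hmin (derivative F) ⟨hd0, hdω⟩ (Polynomial.natDegree_derivative_lt hdeg)

theorem s2_inj (θ : Fin 2 → ℂ) (hθ : AlgebraicIndependent ℚ θ) :
    Function.Injective (MvPolynomial.aeval θ : MvPolynomial (Fin 2) ℤ →ₐ[ℤ] ℂ) :=
  (hθ.restrictScalars (R := ℤ) (RingHom.injective_int (algebraMap ℤ ℚ)) : AlgebraicIndependent ℤ θ)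

theorem s2_alg (θ : Fin 2 → ℂ) (hθ : AlgebraicIndependent ℚ θ) (ω : ℂ) (hω : IsAlgebraic (adjoin ℚ (Set.range θ)) ω) :
    ∃ p : FP, p ≠ 0 ∧ (p.map (MvPolynomial.aeval θ : MvPolynomial (Fin 2) ℤ →ₐ[ℤ] ℂ).toRingHom).eval ω = 0 := by
  let φ : MvPolynomial (Fin 2) ℤ →+* ℂ := (MvPolynomial.aeval θ : MvPolynomial (Fin 2) ℤ →ₐ[ℤ] ℂ).toRingHom
  have hmem : ∀ j, θ j ∈ adjoin ℚ (Set.range θ) := fun j => IntermediateField.subset_adjoin ℚ _ ⟨j, rfl⟩
  let ψ : MvPolynomial (Fin 2) ℤ →+* adjoin ℚ (Set.range θ) :=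
    (MvPolynomial.aeval (fun j => (⟨θ j, hmem j⟩ : adjoin ℚ (Set.range θ))) :
      MvPolynomial (Fin 2) ℤ →ₐ[ℤ] adjoin ℚ (Set.range θ)).toRingHom
  let _ : Algebra (MvPolynomial (Fin 2) ℤ) ℂ := φ.toAlgebra
  let _ : Algebra (MvPolynomial (Fin 2) ℤ) (adjoin ℚ (Set.range θ)) := ψ.toAlgebra
  have hφψ : ∀ r, φ r = algebraMap (adjoin ℚ (Set.range θ)) ℂ (ψ r) := by
    intro r
    have h1 : (MvPolynomial.aeval θ : MvPolynomial (Fin 2) ℤ →ₐ[ℤ] ℂ) =
        ((IntermediateField.val (adjoin ℚ (Set.range θ))).restrictScalars ℤ).comp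
          (MvPolynomial.aeval (fun j => (⟨θ j, hmem j⟩ : adjoin ℚ (Set.range θ)))) := by
      apply MvPolynomial.algHom_ext
      intro i
      rw [MvPolynomial.aeval_X, AlgHom.comp_apply, MvPolynomial.aeval_X]
      rfl
    exact congrArg (fun f : MvPolynomial (Fin 2) ℤ →ₐ[ℤ] ℂ => f r) h1
  have : IsScalarTower (MvPolynomial (Fin 2) ℤ) (adjoin ℚ (Set.range θ)) ℂ :=
    IsScalarTower.of_algebraMap_eq hφψ
  have hinj : Function.Injective (algebraMap (MvPolynomial (Fin 2) ℤ) ℂ) := s2_inj θ hθ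
  have : FaithfulSMul (MvPolynomial (Fin 2) ℤ) ℂ := (faithfulSMul_iff_algebraMap_injective _ _).2 hinj
  have hall : ∀ x ∈ adjoin ℚ (Set.range θ), IsAlgebraic (MvPolynomial (Fin 2) ℤ) x := by
    intro x hx
    induction hx using IntermediateField.adjoin_induction with
    | mem x hx =>
      obtain ⟨j, rfl⟩ := hx
      have h1 : θ j = algebraMap (MvPolynomial (Fin 2) ℤ) ℂ (MvPolynomial.X j) :=
        (MvPolynomial.aeval_X θ j).symm
      rw [h1]
      exact isAlgebraic_algebraMap _
    | algebraMap q =>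
      have h1 : (algebraMap ℚ ℂ) q = algebraMap (MvPolynomial (Fin 2) ℤ) ℂ (MvPolynomial.C q.num) *
          (algebraMap (MvPolynomial (Fin 2) ℤ) ℂ (MvPolynomial.C (q.den : ℤ)))⁻¹ := by
        have h2 : ∀ z : ℤ, algebraMap (MvPolynomial (Fin 2) ℤ) ℂ (MvPolynomial.C z) = (z : ℂ) := by
          intro z
          have h3 : (MvPolynomial.aeval θ : MvPolynomial (Fin 2) ℤ →ₐ[ℤ] ℂ) (MvPolynomial.C z) = algebraMap ℤ ℂ z :=
            MvPolynomial.aeval_C θ z
          exact h3
        rw [h2, h2, ← div_eq_mul_inv]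
        have h4 : (algebraMap ℚ ℂ) q = (q : ℂ) := rfl
        rw [h4, Rat.cast_def]
        norm_cast
      rw [h1]
      exact (isAlgebraic_algebraMap _).mul (isAlgebraic_algebraMap _).inv
    | add x y _ _ hx hy => exact hx.add hy
    | inv x _ hx => exact hx.inv
    | mul x y _ _ hx hy => exact hx.mul hy
  have : Algebra.IsAlgebraic (MvPolynomial (Fin 2) ℤ) (adjoin ℚ (Set.range θ)) := by
    constructor
    intro x
    have h1 := hall (x : ℂ) x.2
    exact (isAlgebraic_algebraMap_iff (algebraMap (adjoin ℚ (Set.range θ)) ℂ).injective).1 h1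
  have hω' : IsAlgebraic (MvPolynomial (Fin 2) ℤ) ω := hω.restrictScalars _
  obtain ⟨p, hp0, hp⟩ := hω'
  refine ⟨p, hp0, ?_⟩
  rw [Polynomial.aeval_def, Polynomial.eval₂_eq_eval_map] at hp
  exact hp

/-- S2a. PROOF. `ω` is algebraic over `ℚ(θ 0, θ 1)`, the fraction field of `ℤ[θ 0, θ 1] ≅ MvPolynomial (Fin 2) ℤ` (injective by algebraic independence; `MvPolynomial.map (Int.castRingHom ℚ)` injective): clear denominators to get `F : FP` with `spv θ F ≠ 0`, `(spv θ F).eval ω = 0`; choose such an `F`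
of minimal `natDegree` (`Nat.find`). `aeval θ F.leadingCoeff ≠ 0` because `F ≠ 0` and `θ` is algebraically independent. The derivative `F' = derivative F` satisfies `spv θ F' = derivative (spv θ F)`, it is `≠ 0` (`natDegree F ≥ 1` as a nonzero constant has no root; characteristic `0`) and has smaller
degree, so it does not vanish at `ω`. -/
theorem exists_eq (θ : Fin 2 → ℂ) (hθ : AlgebraicIndependent ℚ θ) (ω : ℂ) (hω : IsAlgebraic (adjoin ℚ (Set.range θ)) ω) :
    ∃ F : FP, MvPolynomial.aeval θ F.leadingCoeff ≠ 0 ∧ (spv θ F).eval ω = 0 ∧ (derivative (spv θ F)).eval ω ≠ 0 :=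
  s2_min (MvPolynomial.aeval θ : MvPolynomial (Fin 2) ℤ →ₐ[ℤ] ℂ).toRingHom (s2_inj θ hθ) ω (s2_alg θ hθ ω hω)

/-- S2b. PROOF. A nonzero integer polynomial `f` of minimal degree with root `ω`; `F = f.map C` (`spv x F = f.map (Int.castRingHom ℂ)` for all `x`). -/
theorem exists_eq_const (ω : ℂ) (hω : IsAlgebraic ℚ ω) :
    ∃ F : FP, (∀ x : Fin 2 → ℂ, MvPolynomial.aeval x F.leadingCoeff ≠ 0 ∧ (spv x F).eval ω = 0 ∧ (derivative (spv x F)).eval ω ≠ 0) := by
  have h1 : IsAlgebraic ℤ ω := (IsFractionRing.isAlgebraic_iff ℤ ℚ ℂ).2 hω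
  obtain ⟨p, hp0, hp⟩ := h1
  rw [Polynomial.aeval_def, Polynomial.eval₂_eq_eval_map] at hp
  obtain ⟨f, hf1, hf2, hf3⟩ := s2_min (algebraMap ℤ ℂ) (RingHom.injective_int (algebraMap ℤ ℂ)) ω ⟨p, hp0, hp⟩
  refine ⟨f.map MvPolynomial.C, ?_⟩
  intro x
  have h2 : spv x (f.map (MvPolynomial.C : ℤ →+* MvPolynomial (Fin 2) ℤ)) = f.map (algebraMap ℤ ℂ) := by
    unfold spv
    rw [Polynomial.map_map]
    congr 1
    exact RingHom.ext_int _ _
  rw [h2]
  refine ⟨?_, hf2, hf3⟩
  rw [Polynomial.leadingCoeff_map_of_injective (MvPolynomial.C_injective (Fin 2) ℤ), MvPolynomial.aeval_C]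
  exact hf1

/-- S2c. PROOF. S2a for `i = 0, 1, 2`, S2b for `i = 3, 4`. -/
theorem exists_FD (θ : Fin 2 → ℂ) (hθ : AlgebraicIndependent ℚ θ) (ω : Fin 5 → ℂ) (h0 : ∀ i : Fin 5, i.val < 3 → IsAlgebraic (adjoin ℚ (Set.range θ)) (ω i))
    (h1 : ∀ i : Fin 5, 3 ≤ i.val → IsAlgebraic ℚ (ω i)) : ∃ F : Fin 5 → FP, FD θ ω F := by
  have h2 : ∀ i : Fin 5, ∃ F : FP, MvPolynomial.aeval θ F.leadingCoeff ≠ 0 ∧ (spv θ F).eval (ω i) = 0 ∧
      (derivative (spv θ F)).eval (ω i) ≠ 0 ∧ (3 ≤ i.val → ∀ x : Fin 2 → ℂ, (spv x F).eval (ω i) = 0) := by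
    intro i
    by_cases hi : i.val < 3
    · obtain ⟨F, hF1, hF2, hF3⟩ := exists_eq θ hθ (ω i) (h0 i hi)
      exact ⟨F, hF1, hF2, hF3, fun h => absurd hi (by omega)⟩
    · obtain ⟨F, hF⟩ := exists_eq_const (ω i) (h1 i (by omega))
      exact ⟨F, (hF θ).1, (hF θ).2.1, (hF θ).2.2, fun _ x => (hF x).2.1⟩
  choose F hF1 hF2 hF3 hF4 using h2
  exact ⟨F, ⟨hF1, hF2, hF3, hF4 3 (by decide), hF4 4 (by decide)⟩⟩

end Pool.Agent.MSL
end

end

section

/-!
# U/X0_Defs: the kernel of the theta functions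

`P : Par 2`, `D : Dt 2`. The functions `GR P D c` are `TH D (tt v) (q (W(v) + lam + Z(T)))`, where `W(v)_j = ∑_i v_i e_ij`,
`Z(T)_j = ∑_l Zv_j,l T_l`.
-/

open Complex MvPolynomial

noncomputable section

namespace Pool.Agent.MSU

open MSD MSP MSK MSR

/-- the basis vectors of `V` -/
def Dv (P : Par 2) (i : Fin 2) : Fin 3 → ℂ := tt P.z (Pi.single i 1)

/-- the vectors `Z_j` -/
def Zv (P : Par 2) (D : Dt 2) (j : Fin 2) : Fin 3 → ℂ := fun l => -(1 / D.om * rhv P l j)

/-- the bilinear form `e` -/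
def eK (P : Par 2) (D : Dt 2) (i j : Fin 2) : ℂ := WV P D (Pi.single i 1) j

/-- linear forms -/
def lf (v : Fin 3 → ℂ) : MvPolynomial (Fin 3) ℂ := ∑ l, C (v l) * X l

/-- normals of the planes -/
def rD (P : Par 2) : Fin 3 → ℂ := ![1, P.z, P.z ^ 2]

def rZ (P : Par 2) : Fin 3 → ℂ := ![P.z ^ 2 - P.b 2 * P.z - P.b 1, P.z - P.b 2, 1]

/-- the index set of the translations: pairs of integer vectors `(m, n)`, the translation by `m + n τ` -/
abbrev Lz : Type := (Fin 3 → ℤ) × (Fin 3 → ℤ)

/-- the translation vector -/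
def wz (τ : ℂ) (w : Lz) : Fin 3 → ℂ := fun l => (w.1 l : ℂ) + w.2 l * τ

/-- the quasi period -/
def hz (w : Lz) (l : Fin 3) : ℂ := -(2 * Real.pi * I * w.2 l)

end Pool.Agent.MSU
end

end

section

/-! # L/A2_Lead: the leading coefficient after a generic linear substitution -/

open Polynomial

noncomputable section

namespace Pool.Agent.MSL

open MSD MSP

/-- the linear form -/
def a2_W (u : ℤ) : BP := C X - C (C u) * X

theorem a2_W_natDegree (u : ℤ) : (a2_W u).natDegree ≤ 1 := by
  rw [a2_W]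
  refine (natDegree_sub_le _ _).trans (max_le ?_ ?_)
  · rw [natDegree_C]
    exact Nat.zero_le 1
  · exact (natDegree_C_mul_le _ _).trans natDegree_X_le

theorem a2_W_coeff (u : ℤ) : (a2_W u).coeff 1 = C (-u) := by
  rw [a2_W, coeff_sub, coeff_C_mul_X, coeff_C_of_ne_zero one_ne_zero, if_pos rfl, zero_sub, map_neg]

theorem a2_W_pow_natDegree (u : ℤ) (i : ℕ) : ((a2_W u) ^ i).natDegree ≤ i := by
  refine (natDegree_pow_le_of_le i (a2_W_natDegree u)).trans ?_
  rw [mul_one]

theorem a2_W_pow_coeff (u : ℤ) (i : ℕ) : ((a2_W u) ^ i).coeff i = C ((-u) ^ i) := by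
  have h := coeff_pow_of_natDegree_le (m := i) (a2_W_natDegree u)
  rw [mul_one, a2_W_coeff] at h
  rw [h, map_pow]

theorem a2_aeval (u : ℤ) (f : Polynomial ℤ) (N : ℕ) (hN : f.natDegree ≤ N) :
    (aeval (a2_W u) f).coeff N = C (f.coeff N * (-u) ^ N) := by
  rw [aeval_eq_sum_range' (Nat.lt_succ_of_le hN), finsetSum_coeff,
    Finset.sum_eq_single_of_mem N (Finset.self_mem_range_succ N)]
  · rw [coeff_smul, a2_W_pow_coeff, zsmul_eq_mul, map_mul, eq_intCast C (f.coeff N)]
  · intro i hi hiN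
    rw [Finset.mem_range] at hi
    rw [coeff_smul, coeff_eq_zero_of_natDegree_lt ((a2_W_pow_natDegree u i).trans_lt (by omega)),
      smul_zero]

theorem a2_phu_coeff (u : ℤ) (P : BP) (N : ℕ) :
    (phu u P).coeff N = ∑ j ∈ Finset.range (P.natDegree + 1),
      if j ≤ N then (aeval (a2_W u) (P.coeff j)).coeff (N - j) else 0 := by
  rw [phu, coe_eval₂RingHom, eval₂_eq_sum_range, finsetSum_coeff]
  refine Finset.sum_congr rfl (fun j _ => ?_)
  rw [coeff_mul_X_pow']
  rfl

/-- A2. PROOF. Let `D` be the total degree of `P = ∑ p_ij X^i Y^j`, i.e. the maximum of `i + j` over `p_ij ≠ 0`. `phu u P = ∑ p_ij (X - uY)^i Y^j`; the term `(i, j)` has degree `≤ i + j` in `Y` and the coefficient of `Y^(i+j)` is the constant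
`p_ij (-u)^i`. So `phu u P` has degree `≤ D` in `Y` and `coeff D = C (t(u))`, `t(u) = ∑_(i + j = D) p_ij (-u)^i`, a nonzero polynomial in `u` of degree `≤ D`: at most `D` natural numbers `u` are roots (`Polynomial.card_roots'`). -/
theorem lead_phu (P : BP) (hP : P ≠ 0) : ∃ D : ℕ, P.natDegree ≤ D ∧ D ≤ dX P + P.natDegree ∧ ∃ B : Finset ℕ, B.card ≤ D ∧
    ∀ u : ℕ, u ∉ B → (phu u P).natDegree = D ∧ ∃ a : ℤ, a ≠ 0 ∧ (phu u P).leadingCoeff = C a := by
  classical
  obtain ⟨D, hD⟩ : ∃ D, D = P.support.sup (fun j => (P.coeff j).natDegree + j) := ⟨_, rfl⟩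
  have hle : ∀ j, P.coeff j ≠ 0 → (P.coeff j).natDegree + j ≤ D := by
    intro j hj
    rw [hD]
    exact Finset.le_sup (f := fun j => (P.coeff j).natDegree + j) (mem_support_iff.2 hj)
  obtain ⟨j0, hj0, hj0D⟩ : ∃ j0 ∈ P.support, D = (P.coeff j0).natDegree + j0 := by
    have hne : P.support.Nonempty := support_nonempty.2 hP
    obtain ⟨j0, h1, h2⟩ := Finset.exists_mem_eq_sup P.support hne
      (fun j => (P.coeff j).natDegree + j)
    exact ⟨j0, h1, hD.trans h2⟩
  have hnD : P.natDegree ≤ D := by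
    have h1 := hle P.natDegree (by
      rw [coeff_natDegree]
      exact leadingCoeff_ne_zero.2 hP)
    omega
  have hDd : D ≤ dX P + P.natDegree := by
    have h1 : (P.coeff j0).natDegree ≤ dX P := by
      rw [dX]
      exact Finset.le_sup (f := fun j => (P.coeff j).natDegree) hj0
    have h2 := le_natDegree_of_mem_supp j0 hj0
    omega
  have hj0' : P.coeff j0 ≠ 0 := mem_support_iff.1 hj0
  obtain ⟨s, hs⟩ : ∃ s : Polynomial ℤ, s = ∑ j ∈ Finset.range (P.natDegree + 1),
      monomial (D - j) ((P.coeff j).coeff (D - j)) := ⟨_, rfl⟩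
  have hs0 : s ≠ 0 := by
    intro h0
    have h1 : s.coeff (D - j0) = (P.coeff j0).leadingCoeff := by
      have h2 := le_natDegree_of_mem_supp j0 hj0
      rw [hs, finsetSum_coeff, Finset.sum_eq_single_of_mem j0
        (Finset.mem_range.2 (by omega))]
      · rw [coeff_monomial_same, leadingCoeff]
        congr 1
        omega
      · intro j hj hne
        rw [Finset.mem_range] at hj
        rw [coeff_monomial, if_neg (by omega)]
    rw [h0, coeff_zero] at h1
    exact hj0' (leadingCoeff_eq_zero.1 h1.symm)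
  have hsD : s.natDegree ≤ D := by
    rw [hs]
    refine natDegree_sum_le_of_forall_le _ _ (fun j _ => ?_)
    exact (natDegree_monomial_le _).trans (Nat.sub_le D j)
  refine ⟨D, hnD, hDd, s.roots.toFinset.image Int.natAbs, ?_, fun u hu => ?_⟩
  · exact Finset.card_image_le.trans ((Multiset.toFinset_card_le _).trans
      ((card_roots' s).trans hsD))
  · have hroot : s.eval (-(u : ℤ)) ≠ 0 := by
      intro h1
      apply hu
      rw [Finset.mem_image]
      refine ⟨-(u : ℤ), ?_, ?_⟩
      · rw [Multiset.mem_toFinset, mem_roots hs0]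
        exact h1
      · rw [Int.natAbs_neg, Int.natAbs_natCast]
    have hc : (phu u P).coeff D = C (s.eval (-(u : ℤ))) := by
      rw [a2_phu_coeff, hs, eval_finsetSum, map_sum]
      refine Finset.sum_congr rfl (fun j hj => ?_)
      rw [Finset.mem_range] at hj
      rw [if_pos (by omega), eval_monomial]
      by_cases hj1 : P.coeff j = 0
      · rw [hj1]
        simp
      · have h2 := hle j hj1
        exact a2_aeval u (P.coeff j) (D - j) (by omega)
    have hnat : (phu u P).natDegree ≤ D := by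
      rw [natDegree_le_iff_coeff_eq_zero]
      intro N hN
      rw [a2_phu_coeff]
      refine Finset.sum_eq_zero (fun j _ => ?_)
      by_cases hjN : j ≤ N
      · rw [if_pos hjN]
        by_cases hj1 : P.coeff j = 0
        · rw [hj1]
          simp
        · have h2 := hle j hj1
          rw [a2_aeval u (P.coeff j) (N - j) (by omega),
            coeff_eq_zero_of_natDegree_lt (by omega), zero_mul, map_zero]
      · rw [if_neg hjN]
    have hcne : (phu u P).coeff D ≠ 0 := by
      rw [hc]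
      exact C_ne_zero.2 hroot
    have hnd : (phu u P).natDegree = D := le_antisymm hnat (le_natDegree_of_ne_zero hcne)
    refine ⟨hnd, s.eval (-(u : ℤ)), hroot, ?_⟩
    rw [leadingCoeff, hnd, hc]

end Pool.Agent.MSL
end

end

section

/-! # U/X2_TE: derivatives of the product of theta functions as entire functions -/

open Complex MvPolynomial

noncomputable section

namespace Pool.Agent.MSU

open MSD MSP MSK MSR

theorem xa03_iter (τ : ℂ) (hτ : 0 < τ.im) (k : ℕ) (u : ℂ) : AnalyticAt ℂ (iteratedDeriv k (th τ)) u := by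
  have h1 : ContDiff ℂ ((k + 1 : ℕ) : WithTop ℕ∞) (th τ) := (th_differentiable τ hτ).contDiff
  have h2 : Differentiable ℂ (iteratedDeriv k (th τ)) :=
    h1.differentiable_iteratedDeriv k (by exact_mod_cast Nat.lt_succ_self k)
  exact h2.analyticAt u

theorem xa03_au_an (τ : ℂ) (m n : ℤ) (u : ℂ) : AnalyticAt ℂ (fun t => au τ m n t) u := by
  have h : Differentiable ℂ (fun t => au τ m n t) := by
    unfold au
    fun_prop
  exact h.analyticAt u

theorem xa03_au_ne (τ : ℂ) (m n : ℤ) (t : ℂ) : au τ m n t ≠ 0 := by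
  unfold au
  exact mul_ne_zero (zpow_ne_zero _ (by norm_num)) (Complex.exp_ne_zero _)

theorem xa03_co (l : Fin 3) (t : Fin 3 → ℂ) : AnalyticAt ℂ (fun t : Fin 3 → ℂ => t l) t :=
  (ContinuousLinearMap.proj (R := ℂ) (φ := fun _ : Fin 3 => ℂ) l).analyticAt t

/-- X2a. PROOF. A finite sum of products of one variable functions `iteratedDeriv m (th τ)` (entire: `th_differentiable`, `Differentiable.analyticAt`, iterated derivatives of entire functions) composed with coordinates. -/
theorem te_an (D : Dt 2) (q : MvPolynomial (Fin 3) ℂ) :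
    AnalyticOnNhd ℂ (fun t : Fin 3 → ℂ => TH D (fun l => t l - D.h l) q) Set.univ := by
  intro t _
  unfold TH
  refine Finset.analyticAt_fun_sum _ fun m _ => ?_
  refine AnalyticAt.mul analyticAt_const ?_
  refine Finset.analyticAt_fun_prod _ fun l _ => ?_
  refine AnalyticAt.fun_comp (xa03_iter D.τ D.im (m l) _) ?_
  exact analyticAt_const.add ((xa03_co l t).sub analyticAt_const)

/-- the function `q(∂) Θ`, in absolute coordinates -/
def TE (D : Dt 2) : MvPolynomial (Fin 3) ℂ →ₗ[ℂ] E3 where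
  toFun q := ⟨fun t => TH D (fun l => t l - D.h l) q, te_an D q⟩
  map_add' p q := by
    apply Subtype.ext
    funext t
    exact TH_add D _ p q
  map_smul' a q := by
    apply Subtype.ext
    funext t
    have := TH_C_mul D (fun l => t l - D.h l) a q
    rw [← MvPolynomial.smul_eq_C_mul] at this
    exact this

theorem TE_apply (D : Dt 2) (q : MvPolynomial (Fin 3) ℂ) (t : Fin 3 → ℂ) :
    (TE D q : (Fin 3 → ℂ) → ℂ) t = TH D (fun l => t l - D.h l) q := rfl

/-- X2b. PROOF. `HasFDerivAt` along the line (`dE_line` at `y = 0` and uniqueness of derivatives) with `TH_line`. -/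
theorem TE_D (D : Dt 2) (v : Fin 3 → ℂ) (q : MvPolynomial (Fin 3) ℂ) : dE v (TE D q) = TE D (lf v * q) := by
  apply Subtype.ext
  funext t
  have h1 := dE_line v (TE D q) t 0
  have h2 := TH_line D (fun l => t l - D.h l) v q 0
  have e1 : (fun y : ℂ => (TE D q : (Fin 3 → ℂ) → ℂ) (t + y • v)) =
      fun s : ℂ => TH D (fun l => t l - D.h l + s * v l) q := by
    funext y
    rw [TE_apply]
    congr 1
    funext l
    simp only [Pi.add_apply, Pi.smul_apply, smul_eq_mul]
    ring
  rw [e1] at h1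
  have h3 := h1.unique h2
  have e2 : t + (0 : ℂ) • v = t := by simp
  rw [e2] at h3
  refine h3.trans ?_
  rw [TE_apply]
  congr 1
  funext l
  ring

/-- X2c. PROOF. `au` is an exponential of an affine function (and a sign), never `0`. -/
theorem aut_exists (D : Dt 2) (w : Lz) : ∃ f : E3, f ≠ 0 ∧ ∀ t, (f : (Fin 3 → ℂ) → ℂ) t = ∏ l, au D.τ (w.1 l) (w.2 l) (t l) := by
  refine ⟨⟨fun t => ∏ l, au D.τ (w.1 l) (w.2 l) (t l), ?_⟩, ?_, fun t => rfl⟩
  · intro t _
    refine Finset.analyticAt_fun_prod _ fun l _ => ?_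
    exact AnalyticAt.fun_comp (xa03_au_an D.τ (w.1 l) (w.2 l) _) (xa03_co l t)
  · intro h
    have h1 := congrArg (fun f : E3 => (f : (Fin 3 → ℂ) → ℂ) 0) h
    have h2 : (∏ l : Fin 3, au D.τ (w.1 l) (w.2 l) ((0 : Fin 3 → ℂ) l)) = 0 := h1
    exact (Finset.prod_ne_zero_iff.2 fun l _ => xa03_au_ne _ _ _ _) h2

/-- X2d. PROOF. `TH_shift` (with `t - D.h`). -/
theorem TE_tr (D : Dt 2) (w : Lz) (q : MvPolynomial (Fin 3) ℂ) (f : E3) (hf : ∀ t, (f : (Fin 3 → ℂ) → ℂ) t = ∏ l, au D.τ (w.1 l) (w.2 l) (t l)) :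
    trE (wz D.τ w) (TE D q) = f * TE D (aeval (fun l => (X l : MvPolynomial (Fin 3) ℂ) + C (hz w l)) q) := by
  apply Subtype.ext
  funext t
  have h1 := TH_shift D (fun l => t l - D.h l) w.1 w.2 q
  have e1 : (trE (wz D.τ w) (TE D q) : (Fin 3 → ℂ) → ℂ) t =
      TH D (fun l => t l - D.h l + (w.1 l + w.2 l * D.τ)) q := by
    rw [trE_apply, TE_apply]
    congr 1
    funext l
    simp only [Pi.add_apply, wz]
    ring
  have e2 : (f * TE D (aeval (fun l => (X l : MvPolynomial (Fin 3) ℂ) + C (hz w l)) q) : E3).1 t =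
      (f : (Fin 3 → ℂ) → ℂ) t * TH D (fun l => t l - D.h l) (aeval (fun l => (X l : MvPolynomial (Fin 3) ℂ) + C (hz w l)) q) := rfl
  have e3 : (fun l => (X l : MvPolynomial (Fin 3) ℂ) + C (hz w l)) =
      fun l => X l - C (2 * Real.pi * I * w.2 l) := by
    funext l
    rw [hz, C_neg, sub_eq_add_neg]
  have e4 : (∏ l, au D.τ (w.1 l) (w.2 l) (D.h l + (t l - D.h l))) = ∏ l, au D.τ (w.1 l) (w.2 l) (t l) := by
    refine Finset.prod_congr rfl fun l _ => ?_
    rw [add_sub_cancel]
  refine e1.trans (h1.trans ?_)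
  refine Eq.trans ?_ e2.symm
  rw [hf t, e3, e4]

/-- X2e. PROOF. The value at `D.h` is `∏ th (h l) ≠ 0` (`TH_one`, `D.hh`). -/
theorem TE_one_ne (D : Dt 2) : TE D 1 ≠ 0 := by
  intro h
  have h1 := congrArg (fun f : E3 => (f : (Fin 3 → ℂ) → ℂ) D.h) h
  have h2 : TH D (fun l => D.h l - D.h l) 1 = 0 := h1
  rw [TH_one] at h2
  unfold MSK.pp at h2
  refine (Finset.prod_ne_zero_iff.2 fun l _ => ?_) h2
  show N0 D.τ (D.h l + (D.h l - D.h l)) ≠ 0
  rw [sub_self, add_zero]
  exact D.hh l

/-- X2f. the function does not depend on the base point. -/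
theorem TE_indep (D D' : Dt 2) (h : D.τ = D'.τ) : TE D = TE D' := by
  apply LinearMap.ext
  intro q
  apply Subtype.ext
  funext t
  show TH D (fun l => t l - D.h l) q = TH D' (fun l => t l - D'.h l) q
  unfold TH
  rw [h]
  simp only [add_sub_cancel]

end Pool.Agent.MSU
end

end

section

/-! # R/B9_NnShift: invariance under the lattice -/

open Complex Filter Topology IntermediateField

noncomputable section

namespace Pool.Agent.MSR

open MSD MSP MSK

variable {d : ℕ}

theorem b9_WV (P : Par d) (D : Dt d) (hs : D.s = 0) (w : Fin d → ℂ) (j : Fin d) : WV P D w j = D.om * w j := by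
  unfold WV As
  rw [hs, zero_mul, add_zero]
  simp only [tt, Fin.cons_succ]

theorem b9_rhv (P : Par d) (N : Fin (d + 1) → ℂ) (j : Fin d) :
    ∑ l, rhv P l j * N l = rh * (N j.castSucc + P.b j.succ * N (Fin.last d) - P.z * N j.succ) := by
  have e : ∀ l, rhv P l j * N l = rh * ((if l = j.castSucc then N l else 0) + (if l = Fin.last d then P.b j.succ * N l else 0)
      - (if l = j.succ then P.z * N l else 0)) := by
    intro l
    unfold rhv
    split_ifs <;> ring
  rw [Finset.sum_congr rfl fun l _ => e l, ← Finset.mul_sum, Finset.sum_sub_distrib, Finset.sum_add_distrib]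
  simp

/-- the shift of the linear polynomials -/
theorem b9_lin (P : Par d) (D : Dt d) (hom : D.om ^ 2 = Real.pi) (W W' : Fin d → ℂ) (N : Fin (d + 1) → ℤ) (j : Fin d)
    (hW : W' j = W j + D.om * (-(N j.castSucc + P.b j.succ * N (Fin.last d)) + N j.succ * P.z)) :
    MvPolynomial.aeval (fun l => MvPolynomial.X l - MvPolynomial.C (2 * Real.pi * I * N l) : Fin (d + 1) → MvPolynomial (Fin (d + 1)) ℂ)
      (lin P D W' j) = lin P D W j := by
  have hne := D.ne
  have hpi : (Real.pi : ℂ) / D.om = D.om := by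
    rw [← hom]
    field_simp
  have hI : (I : ℂ) * I = -1 := Complex.I_mul_I
  have e1 : rh / D.om * (2 * Real.pi * I) = D.om := by
    unfold rh
    have : -I / 2 / D.om * (2 * (Real.pi : ℂ) * I) = -(I * I) * (Real.pi / D.om) := by
      field_simp
    rw [this, hI, hpi]
    ring
  have hsum : 1 / D.om * ∑ l, rhv P l j * (2 * Real.pi * I * N l) =
      D.om * (N j.castSucc + P.b j.succ * N (Fin.last d) - P.z * N j.succ) := by
    rw [b9_rhv P (fun l => 2 * Real.pi * I * N l) j]
    have e2 : 1 / D.om * (rh * (2 * Real.pi * I * N j.castSucc + P.b j.succ * (2 * Real.pi * I * N (Fin.last d)) -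
        P.z * (2 * Real.pi * I * N j.succ))) = rh / D.om * (2 * Real.pi * I) *
        (N j.castSucc + P.b j.succ * N (Fin.last d) - P.z * N j.succ) := by
      ring
    rw [e2, e1]
  unfold MSR.lin
  obtain ⟨K, hK⟩ : ∃ K : Fin (d + 1) → ℂ, ∀ l, 2 * Real.pi * I * N l = K l := ⟨_, fun _ => rfl⟩
  simp only [hK] at hsum ⊢
  simp only [map_sub, map_mul, map_sum, MvPolynomial.algHom_C, MvPolynomial.algebraMap_eq, MvPolynomial.aeval_X]
  have e3 : ∑ l, MvPolynomial.C (rhv P l j) * (MvPolynomial.X l - MvPolynomial.C (K l)) =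
      (∑ l, MvPolynomial.C (rhv P l j) * MvPolynomial.X l : MvPolynomial (Fin (d + 1)) ℂ) -
      MvPolynomial.C (∑ l, rhv P l j * K l) := by
    rw [map_sum, ← Finset.sum_sub_distrib]
    refine Finset.sum_congr rfl fun l _ => ?_
    rw [mul_sub, ← MvPolynomial.C_mul]
  rw [e3]
  have e4 : (MvPolynomial.C (W' j + lam P D j) : MvPolynomial (Fin (d + 1)) ℂ) = MvPolynomial.C (W j + lam P D j) -
      MvPolynomial.C (1 / D.om) * MvPolynomial.C (∑ l, rhv P l j * K l) := by
    rw [← MvPolynomial.C_mul, ← MvPolynomial.C_sub, hsum, hW]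
    congr 1
    ring
  rw [e4]
  ring

/-- B9. PROOF. As `Nn_shift` in K/C4_Shift (same notation there). `D.τ = z`, `D.s = 0` (`kap = sE/om²`), so `WV P D v j = om v_j` (`As P 0 v j = tt v j.succ = v_j`), `om² = π`. Let `N_l = q n_l ∈ ℤ`, `m_l = mm P.b N l ∈ ℤ` (`hq`), `γ = gam P N`,
`tt z (v + γ) l = tt z v l + m_l + N_l z` (`tt_gam`). By `TH_shift`: `GA (v + γ) = α TH t (aeval (X - 2πi N) (aeval (lin (W + om γ)) B))`, `t = tt z (v - p0)`, and `aeval (X - 2πi N) (lin (W + om γ) j) = lin W j` because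
`om γ_j + (2πi/om) ∑_l rhv_lj N_l = om (m_j + N_j z) + (π/om)(N_{j-1} + b_j N_d - z N_j) = 0` (`2πi rh = π`, `π/om = om`, `m_j = -N_{j-1} - b_j N_d`; indices `j.castSucc, Fin.last d, j.succ`). So `GA(v + γ) = α GA(v)`,
`α = ∏ au z m_l N_l (tt z v l)` (`hP_add`, `D.h = hP z`) and `‖α‖ = exp(Qf(v+γ) - Qf(v))` as in C4c (`norm_au`, `ro_add, ro_gam`). -/
theorem NnR_shift (P : Par d) (hd : 2 ≤ d) (D : Dt d) (hD : IsOrig P D) (q : ℕ) (hq : ∀ l, ∃ m : ℤ, (q : ℚ) * P.b l = m) {E : ℕ} (c : Ir d E → ℂ)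
    (n : Fin (d + 1) → ℤ) (v : Fin d → ℂ) :
    Nn P 1 (GA P D c) (v + gam P (fun l => (q : ℝ) * n l)) = Nn P 1 (GA P D c) v := by
  choose β hβ using hq
  have hβR : ∀ l, (P.b l : ℝ) * q = β l := by
    intro l
    have h := congrArg (fun x : ℚ => (x : ℝ)) (hβ l)
    push_cast at h
    linarith
  -- the integer vectors
  obtain ⟨N, hN⟩ : ∃ N : Fin (d + 1) → ℤ, N = fun l => (q : ℤ) * n l := ⟨_, rfl⟩
  obtain ⟨m, hm⟩ : ∃ m : Fin (d + 1) → ℤ, ∀ l, mm P.b (fun l => (q : ℝ) * n l) l = (m l : ℝ) := by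
    refine ⟨Fin.cons (-β 0 * n (Fin.last d)) (fun j => -(q * n j.castSucc) - β j.succ * n (Fin.last d)), fun l => ?_⟩
    refine Fin.cases ?_ (fun j => ?_) l
    · simp only [mm, Fin.cons_zero]
      push_cast
      rw [← hβR 0]
      ring
    · simp only [mm, Fin.cons_succ]
      push_cast
      rw [← hβR j.succ]
      ring
  obtain ⟨g, hg⟩ : ∃ g : Fin d → ℂ, g = gam P (fun l => (q : ℝ) * n l) := ⟨_, rfl⟩
  have htg : ∀ l, tt P.z g l = m l + N l * P.z := by
    intro l
    rw [hg, tt_gam, hm l, hN]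
    push_cast
    ring
  rw [← hg]
  obtain ⟨t, ht⟩ : ∃ t : Fin (d + 1) → ℂ, t = tt P.z v := ⟨_, rfl⟩
  have ht' : ∀ l, tt P.z (v + g) l = t l + m l + N l * P.z := by
    intro l
    rw [c4_tt_add, htg, ht]
    ring
  have hz : 0 < P.z.im := P.im
  have hd1 : 1 ≤ d := by omega
  have harg : ∀ (u : Fin d → ℂ) (l : Fin (d + 1)), D.h l + tt P.z (fun j => u j - p0 P.z j) l = tt P.z u l := by
    intro u l
    rw [hD.h]
    exact hP_add P.z hd1 u l
  have hs : D.s = 0 := by
    unfold Dt.s
    rw [hD.kap, hD.om, hD.τ, sub_self, mul_zero]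
  have hw : ∀ j : Fin d, (v + g) j - p0 P.z j = (v j - p0 P.z j) +
      (-(N j.castSucc + P.b j.succ * N (Fin.last d)) + N j.succ * P.z) := by
    intro j
    have h1 : g j = m j.succ + N j.succ * P.z := by
      have h2 := htg j.succ
      simp only [tt, Fin.cons_succ] at h2
      exact h2
    have h3 : ((m j.succ : ℤ) : ℂ) = -(N j.castSucc + P.b j.succ * N (Fin.last d)) := by
      have h4 := hm j.succ
      simp only [mm, Fin.cons_succ] at h4
      have h5 := congrArg (fun x : ℝ => (x : ℂ)) h4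
      push_cast at h5
      rw [← h5, hN]
      push_cast
      ring
    simp only [Pi.add_apply]
    rw [h1, h3]
    ring
  have hG : GA P D c (v + g) = (∏ l, au P.z (m l) (N l) (t l)) * GA P D c v := by
    unfold GA GR
    have h1 : tt P.z (fun j => (v + g) j - p0 P.z j) =
        fun l => tt P.z (fun j => v j - p0 P.z j) l + (m l + N l * D.τ) := by
      funext l
      rw [hD.τ]
      have e1 := harg (v + g) l
      have e2 := harg v l
      have e3 := ht' l
      rw [ht] at e3
      linear_combination e1 - e2 + e3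
    rw [h1, TH_shift]
    have h2 : ∏ l, au D.τ (m l) (N l) (D.h l + tt P.z (fun j => v j - p0 P.z j) l) = ∏ l, au P.z (m l) (N l) (t l) := by
      refine Finset.prod_congr rfl fun l _ => ?_
      rw [harg, hD.τ, ← ht]
    rw [h2]
    congr 2
    have h3 : ∀ B : MvPolynomial (Fin d) ℂ, MvPolynomial.aeval (fun l => MvPolynomial.X l - MvPolynomial.C (2 * Real.pi * I * N l) :
        Fin (d + 1) → MvPolynomial (Fin (d + 1)) ℂ) (MvPolynomial.aeval (MSR.lin P D (WV P D fun j => (v + g) j - p0 P.z j)) B) =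
        MvPolynomial.aeval (MSR.lin P D (WV P D fun j => v j - p0 P.z j)) B := by
      intro B
      rw [MvPolynomial.comp_aeval_apply]
      congr 2
      funext j
      refine b9_lin P D hD.om _ _ N j ?_
      rw [b9_WV P D hs, b9_WV P D hs, hw j]
      ring
    exact h3 _
  -- the exponents
  have hnorm : ‖∏ l, au P.z (m l) (N l) (t l)‖ = Real.exp (∑ l, (Real.pi * (N l : ℝ) ^ 2 * P.z.im + 2 * Real.pi * N l * (t l).im)) := by
    rw [norm_prod, Real.exp_sum]
    exact Finset.prod_congr rfl fun l _ => norm_au P.z (m l) (N l) (t l)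
  have hP2 : P2 P (v + g) = P2 P v := by
    unfold P2
    refine Finset.sum_congr rfl fun l _ => ?_
    rw [ro_add, hg, ro_gam, add_zero]
  have hQ : Qf P (v + g) = Qf P v + ∑ l, (Real.pi * (N l : ℝ) ^ 2 * P.z.im + 2 * Real.pi * N l * (t l).im) := by
    unfold Qf
    rw [hP2]
    have h1 : ∑ l, (tt P.z (v + g) l).im ^ 2 / P.z.im = ∑ l, (tt P.z v l).im ^ 2 / P.z.im +
        ∑ l, ((N l : ℝ) ^ 2 * P.z.im + 2 * N l * (t l).im) := by
      rw [← Finset.sum_add_distrib]
      refine Finset.sum_congr rfl fun l _ => ?_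
      have h2 : (tt P.z (v + g) l).im = (t l).im + N l * P.z.im := by
        rw [ht' l]
        simp [Complex.add_im, Complex.mul_im]
      rw [h2, ← ht]
      field_simp
      ring
    rw [h1]
    have h3 : ∑ l, (Real.pi * (N l : ℝ) ^ 2 * P.z.im + 2 * Real.pi * N l * (t l).im) =
        Real.pi * ∑ l, ((N l : ℝ) ^ 2 * P.z.im + 2 * N l * (t l).im) := by
      rw [Finset.mul_sum]
      refine Finset.sum_congr rfl fun l _ => ?_
      ring
    rw [h3]
    ring
  unfold Nn
  rw [hG, norm_mul, hnorm, hQ]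
  have e : ∀ A B C : ℝ, Real.exp A * C * Real.exp (-((1 : ℕ) * (B + A))) = C * Real.exp (-((1 : ℕ) * B)) := by
    intro A B C
    have : Real.exp (-((1 : ℕ) * B)) = Real.exp A * Real.exp (-((1 : ℕ) * (B + A))) := by
      rw [← Real.exp_add]
      congr 1
      push_cast
      ring
    rw [this]
    ring
  exact e _ _ _

end Pool.Agent.MSR
end

end

section

/-! # U/D2_Shift: the absolute value of the function is invariant under the lattice -/

open Complex

noncomputable section

namespace Pool.Agent.MSU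

open MSD MSP MSK MSR

variable {d : ℕ}

/-- D2. PROOF. Copy the proof of `NnR_shift` in R/B9_NnShift with `p` instead of `p0 P.z` and `GP P D p` instead of `GA P D`. Only changes: `harg : D.h l + tt P.z (fun j => u j - p j) l = tt P.z u l + r l` with real `r l` (from `hD.h`; `tt` is additive, `c4_tt_add`), so
the product of the factors is `∏ l, au P.z (m l) (N l) (t l + r l)` and its norm is still `exp (∑ (π N² Im z + 2 π N (t l).im))` because `norm_au` only contains the imaginary part. (`b9_WV`, `b9_lin`, `TH_shift` are used as they are.) -/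
theorem NnU_shift (P : Par d) (hd : 2 ≤ d) (D : Dt d) (p : Fin d → ℂ) (hD : IsO P D p) (q : ℕ) (hq : ∀ l, ∃ m : ℤ, (q : ℚ) * P.b l = m) {E : ℕ}
    (c : Ir d E → ℂ) (n : Fin (d + 1) → ℤ) (v : Fin d → ℂ) :
    Nn P 1 (GP P D p c) (v + gam P (fun l => (q : ℝ) * n l)) = Nn P 1 (GP P D p c) v := by
  choose β hβ using hq
  have hβR : ∀ l, (P.b l : ℝ) * q = β l := by
    intro l
    have h := congrArg (fun x : ℚ => (x : ℝ)) (hβ l)
    push_cast at h
    linarith
  -- the integer vectors
  obtain ⟨N, hN⟩ : ∃ N : Fin (d + 1) → ℤ, N = fun l => (q : ℤ) * n l := ⟨_, rfl⟩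
  obtain ⟨m, hm⟩ : ∃ m : Fin (d + 1) → ℤ, ∀ l, mm P.b (fun l => (q : ℝ) * n l) l = (m l : ℝ) := by
    refine ⟨Fin.cons (-β 0 * n (Fin.last d)) (fun j => -(q * n j.castSucc) - β j.succ * n (Fin.last d)), fun l => ?_⟩
    refine Fin.cases ?_ (fun j => ?_) l
    · simp only [mm, Fin.cons_zero]
      push_cast
      rw [← hβR 0]
      ring
    · simp only [mm, Fin.cons_succ]
      push_cast
      rw [← hβR j.succ]
      ring
  obtain ⟨g, hg⟩ : ∃ g : Fin d → ℂ, g = gam P (fun l => (q : ℝ) * n l) := ⟨_, rfl⟩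
  have htg : ∀ l, tt P.z g l = m l + N l * P.z := by
    intro l
    rw [hg, tt_gam, hm l, hN]
    push_cast
    ring
  rw [← hg]
  obtain ⟨t, ht⟩ : ∃ t : Fin (d + 1) → ℂ, t = tt P.z v := ⟨_, rfl⟩
  have ht' : ∀ l, tt P.z (v + g) l = t l + m l + N l * P.z := by
    intro l
    rw [c4_tt_add, htg, ht]
    ring
  have hz : 0 < P.z.im := P.im
  have hd1 : 1 ≤ d := by omega
  choose r hr using hD.h
  have harg : ∀ (u : Fin d → ℂ) (l : Fin (d + 1)), D.h l + tt P.z (fun j => u j - p j) l = tt P.z u l + r l := by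
    intro u l
    have h1 : tt P.z u l = tt P.z (fun j => u j - p j) l + tt P.z p l := by
      rw [← c4_tt_add]
      congr 1
      funext j
      simp
    rw [hr, h1]
    ring
  have hs : D.s = 0 := by
    unfold Dt.s
    rw [hD.kap, hD.om, hD.τ, sub_self, mul_zero]
  have hw : ∀ j : Fin d, (v + g) j - p j = (v j - p j) +
      (-(N j.castSucc + P.b j.succ * N (Fin.last d)) + N j.succ * P.z) := by
    intro j
    have h1 : g j = m j.succ + N j.succ * P.z := by
      have h2 := htg j.succ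
      simp only [tt, Fin.cons_succ] at h2
      exact h2
    have h3 : ((m j.succ : ℤ) : ℂ) = -(N j.castSucc + P.b j.succ * N (Fin.last d)) := by
      have h4 := hm j.succ
      simp only [mm, Fin.cons_succ] at h4
      have h5 := congrArg (fun x : ℝ => (x : ℂ)) h4
      push_cast at h5
      rw [← h5, hN]
      push_cast
      ring
    simp only [Pi.add_apply]
    rw [h1, h3]
    ring
  have hG : GP P D p c (v + g) = (∏ l, au P.z (m l) (N l) (t l + r l)) * GP P D p c v := by
    unfold GP GR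
    have h1 : tt P.z (fun j => (v + g) j - p j) =
        fun l => tt P.z (fun j => v j - p j) l + (m l + N l * D.τ) := by
      funext l
      rw [hD.τ]
      have e1 := harg (v + g) l
      have e2 := harg v l
      have e3 := ht' l
      rw [ht] at e3
      linear_combination e1 - e2 + e3
    rw [h1, TH_shift]
    have h2 : ∏ l, au D.τ (m l) (N l) (D.h l + tt P.z (fun j => v j - p j) l) = ∏ l, au P.z (m l) (N l) (t l + r l) := by
      refine Finset.prod_congr rfl fun l _ => ?_
      rw [harg, hD.τ, ← ht]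
    rw [h2]
    congr 2
    have h3 : ∀ B : MvPolynomial (Fin d) ℂ, MvPolynomial.aeval (fun l => MvPolynomial.X l - MvPolynomial.C (2 * Real.pi * I * N l) :
        Fin (d + 1) → MvPolynomial (Fin (d + 1)) ℂ) (MvPolynomial.aeval (MSR.lin P D (WV P D fun j => (v + g) j - p j)) B) =
        MvPolynomial.aeval (MSR.lin P D (WV P D fun j => v j - p j)) B := by
      intro B
      rw [MvPolynomial.comp_aeval_apply]
      congr 2
      funext j
      refine b9_lin P D hD.om _ _ N j ?_
      rw [b9_WV P D hs, b9_WV P D hs, hw j]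
      ring
    exact h3 _
  -- the exponents
  have hnorm : ‖∏ l, au P.z (m l) (N l) (t l + r l)‖ = Real.exp (∑ l, (Real.pi * (N l : ℝ) ^ 2 * P.z.im + 2 * Real.pi * N l * (t l).im)) := by
    rw [norm_prod, Real.exp_sum]
    refine Finset.prod_congr rfl fun l _ => ?_
    have h1 := norm_au P.z (m l) (N l) (t l + r l)
    rw [Complex.add_im, Complex.ofReal_im, add_zero] at h1
    exact h1
  have hP2 : P2 P (v + g) = P2 P v := by
    unfold P2
    refine Finset.sum_congr rfl fun l _ => ?_
    rw [ro_add, hg, ro_gam, add_zero]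
  have hQ : Qf P (v + g) = Qf P v + ∑ l, (Real.pi * (N l : ℝ) ^ 2 * P.z.im + 2 * Real.pi * N l * (t l).im) := by
    unfold Qf
    rw [hP2]
    have h1 : ∑ l, (tt P.z (v + g) l).im ^ 2 / P.z.im = ∑ l, (tt P.z v l).im ^ 2 / P.z.im +
        ∑ l, ((N l : ℝ) ^ 2 * P.z.im + 2 * N l * (t l).im) := by
      rw [← Finset.sum_add_distrib]
      refine Finset.sum_congr rfl fun l _ => ?_
      have h2 : (tt P.z (v + g) l).im = (t l).im + N l * P.z.im := by
        rw [ht' l]
        simp [Complex.add_im, Complex.mul_im]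
      rw [h2, ← ht]
      field_simp
      ring
    rw [h1]
    have h3 : ∑ l, (Real.pi * (N l : ℝ) ^ 2 * P.z.im + 2 * Real.pi * N l * (t l).im) =
        Real.pi * ∑ l, ((N l : ℝ) ^ 2 * P.z.im + 2 * N l * (t l).im) := by
      rw [Finset.mul_sum]
      refine Finset.sum_congr rfl fun l _ => ?_
      ring
    rw [h3]
    ring
  unfold Nn
  rw [hG, norm_mul, hnorm, hQ]
  have e : ∀ A B C : ℝ, Real.exp A * C * Real.exp (-((1 : ℕ) * (B + A))) = C * Real.exp (-((1 : ℕ) * B)) := by
    intro A B C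
    have : Real.exp (-((1 : ℕ) * B)) = Real.exp A * Real.exp (-((1 : ℕ) * (B + A))) := by
      rw [← Real.exp_add]
      congr 1
      push_cast
      ring
    rw [this]
    ring
  exact e _ _ _

end Pool.Agent.MSU
end

end
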