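import Mathlib
import Pool.Agent.Lib.MP_f58a57_nt.FK.K031

namespace Pool.Agent.MSD
end Pool.Agent.MSD
namespace Pool.Agent.MSK
end Pool.Agent.MSK
namespace Pool.Agent.MSP
end Pool.Agent.MSP
namespace Pool.Agent.MSR
end Pool.Agent.MSR

section

/-! # L/A1b_Len: degrees and lengths -/

open Polynomial

noncomputable section

namespace Pool.Agent.MSL

open MSD MSP

/-- A1f. the degree in `X` bounds the degrees of the coefficients -/
theorem natDegree_coeff_le (p : BP) (j : ℕ) : (p.coeff j).natDegree ≤ dX p := by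
  by_cases hj : j ∈ p.support
  · exact Finset.le_sup (f := fun j => (p.coeff j).natDegree) hj
  · rw [Polynomial.notMem_support_iff.1 hj, natDegree_zero]
    exact Nat.zero_le _

theorem a1b_dX_le (p : BP) (a : ℕ) (h : ∀ j, (p.coeff j).natDegree ≤ a) : dX p ≤ a :=
  Finset.sup_le fun j _ => h j

theorem a1b_swap (p : BP) (i j : ℕ) : ((Polynomial.Bivariate.swap p).coeff i).coeff j = (p.coeff j).coeff i := by
  induction p using Polynomial.induction_on' with
  | add p q hp hq =>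
    rw [map_add, coeff_add, coeff_add, coeff_add, coeff_add, hp, hq]
  | monomial n f =>
    induction f using Polynomial.induction_on' with
    | add f g hf hg =>
      rw [map_add, map_add, coeff_add, coeff_add, coeff_add, coeff_add, hf, hg]
    | monomial m a =>
      rw [Polynomial.Bivariate.swap_monomial_monomial]
      simp only [coeff_monomial]
      by_cases h1 : m = i <;> by_cases h2 : n = j <;> simp [h1, h2, coeff_monomial]

theorem a1b_dX_eq (p : BP) : dX p = (Polynomial.Bivariate.swap p).natDegree := by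
  refine le_antisymm ?_ ?_
  · refine a1b_dX_le p _ fun j => ?_
    rw [natDegree_le_iff_coeff_eq_zero]
    intro i hi
    rw [← a1b_swap, coeff_eq_zero_of_natDegree_lt hi, coeff_zero]
  · rw [natDegree_le_iff_coeff_eq_zero]
    intro i hi
    ext j
    rw [a1b_swap, coeff_zero]
    exact coeff_eq_zero_of_natDegree_lt (lt_of_le_of_lt (natDegree_coeff_le p j) hi)

/-- A1g. PROOF. `dX p` is the degree of `Polynomial.Bivariate.swap p` (compare coefficients, or show it by `le_antisymm`), which is a ring isomorphism, and `natDegree_mul` in the domain `ℤ[X][Y]`. Any other proof: leading forms in `X`. -/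
theorem dX_mul (p q : BP) (hp : p ≠ 0) (hq : q ≠ 0) : dX (p * q) = dX p + dX q := by
  have h : ∀ r : BP, r ≠ 0 → Polynomial.Bivariate.swap r ≠ 0 := fun r hr h0 =>
    hr ((map_eq_zero_iff _ (Polynomial.Bivariate.swap (R := ℤ)).injective).1 h0)
  rw [a1b_dX_eq, a1b_dX_eq, a1b_dX_eq, map_mul, natDegree_mul (h p hp) (h q hq)]

theorem a1b_len2_eq (p : BP) (s : Finset ℕ) (h : p.support ⊆ s) : len2 p = ∑ j ∈ s, len (p.coeff j) := by
  unfold len2
  refine Finset.sum_subset h fun i _ hi => ?_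
  rw [Polynomial.notMem_support_iff.1 hi, len_zero]

theorem len2_nonneg (p : BP) : 0 ≤ len2 p :=
  Finset.sum_nonneg fun _ _ => len_nonneg _

theorem len_coeff_le_len2 (p : BP) (j : ℕ) : len (p.coeff j) ≤ len2 p := by
  by_cases hj : j ∈ p.support
  · exact Finset.single_le_sum (f := fun j => len (p.coeff j)) (fun _ _ => len_nonneg _) hj
  · rw [Polynomial.notMem_support_iff.1 hj, len_zero]
    exact len2_nonneg p

/-- A1h. PROOF. `one_le_len` for one nonzero coefficient. -/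
theorem one_le_len2 (p : BP) (hp : p ≠ 0) : 1 ≤ len2 p := by
  refine le_trans ?_ (len_coeff_le_len2 p p.natDegree)
  refine one_le_len _ ?_
  rw [Polynomial.coeff_natDegree]
  exact Polynomial.leadingCoeff_ne_zero.2 hp

/-- A1i. PROOF. `len2 p` is a sum over at most `natDegree p + 1` indices. -/
theorem len2_le (p : BP) (n : ℕ) (hn : p.natDegree < n) (B : ℝ) (h : ∀ j, len (p.coeff j) ≤ B) : len2 p ≤ n * B := by
  rw [a1b_len2_eq p (Finset.range n) (supp_subset_range hn)]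
  refine (Finset.sum_le_card_nsmul _ _ B fun i _ => h i).trans ?_
  rw [Finset.card_range, nsmul_eq_mul]

theorem len2_add (p q : BP) : len2 (p + q) ≤ len2 p + len2 q := by
  rw [a1b_len2_eq (p + q) (p.support ∪ q.support) Polynomial.support_add,
    a1b_len2_eq p (p.support ∪ q.support) Finset.subset_union_left,
    a1b_len2_eq q (p.support ∪ q.support) Finset.subset_union_right, ← Finset.sum_add_distrib]
  refine Finset.sum_le_sum fun i _ => ?_
  rw [Polynomial.coeff_add]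
  exact len_add _ _

theorem a1b_len2_zero : len2 0 = 0 := by
  simp [len2]

theorem a1b_len2_sum {ι : Type*} (s : Finset ι) (p : ι → BP) : len2 (∑ i ∈ s, p i) ≤ ∑ i ∈ s, len2 (p i) := by
  classical
  induction s using Finset.induction_on with
  | empty => simp [a1b_len2_zero]
  | insert a s ha ih =>
    rw [Finset.sum_insert ha, Finset.sum_insert ha]
    exact (len2_add _ _).trans (by linarith)

theorem a1b_len2_monomial (n : ℕ) (a : Polynomial ℤ) : len2 (Polynomial.monomial n a) = len a := by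
  rw [a1b_len2_eq _ {n} (Polynomial.support_monomial_subset n a), Finset.sum_singleton, Polynomial.coeff_monomial_same]

theorem a1b_len2_C (a : Polynomial ℤ) : len2 (Polynomial.C a) = len a := by
  rw [← Polynomial.monomial_zero_left, a1b_len2_monomial]

theorem len2_mul (p q : BP) : len2 (p * q) ≤ len2 p * len2 q := by
  rw [Polynomial.mul_eq_sum_sum]
  refine (a1b_len2_sum _ _).trans ?_
  have h : len2 p * len2 q = ∑ i ∈ p.support, len (p.coeff i) * len2 q := by
    rw [← Finset.sum_mul]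
    rfl
  rw [h]
  refine Finset.sum_le_sum fun i _ => ?_
  rw [Polynomial.sum]
  refine (a1b_len2_sum _ _).trans ?_
  have h2 : len (p.coeff i) * len2 q = ∑ j ∈ q.support, len (p.coeff i) * len (q.coeff j) := by
    rw [← Finset.mul_sum]
    rfl
  rw [h2]
  refine Finset.sum_le_sum fun j _ => ?_
  rw [a1b_len2_monomial]
  exact len_mul _ _

theorem sp_natDegree (p : BP) (x : ℂ) : (sp x p).natDegree ≤ p.natDegree :=
  natDegree_map_le

/-- A1j. PROOF. `(sp x p).coeff j = aeval x (p.coeff j)`, `norm_aeval_le`, `natDegree_coeff_le`. -/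
theorem lenC_sp (p : BP) (x : ℂ) : lenC (sp x p) ≤ len2 p * (max 1 ‖x‖) ^ dX p := by
  have hs : (sp x p).support ⊆ p.support := by
    intro j hj
    rw [mem_support_iff] at hj ⊢
    intro h0
    apply hj
    unfold sp
    rw [coeff_map, h0, map_zero]
  unfold lenC
  refine (Finset.sum_le_sum_of_subset_of_nonneg hs fun _ _ _ => norm_nonneg _).trans ?_
  unfold len2
  rw [Finset.sum_mul]
  refine Finset.sum_le_sum fun j _ => ?_
  have h1 : (sp x p).coeff j = aeval x (p.coeff j) := by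
    unfold sp
    rw [coeff_map]
    rfl
  rw [h1]
  refine (norm_aeval_le x (p.coeff j)).trans ?_
  refine mul_le_mul_of_nonneg_left ?_ (len_nonneg _)
  exact pow_le_pow_right₀ (le_max_left _ _) (natDegree_coeff_le p j)

theorem a1b_dX_mul_le (p q : BP) : dX (p * q) ≤ dX p + dX q := by
  by_cases hp : p = 0
  · subst hp
    rw [zero_mul]
    exact le_add_right le_rfl
  by_cases hq : q = 0
  · subst hq
    rw [mul_zero]
    exact le_add_left le_rfl
  exact (dX_mul p q hp hq).le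

theorem a1b_dX_add (p q : BP) (a : ℕ) (hp : dX p ≤ a) (hq : dX q ≤ a) : dX (p + q) ≤ a := by
  refine a1b_dX_le _ _ fun j => ?_
  rw [coeff_add]
  exact (natDegree_add_le _ _).trans (max_le ((natDegree_coeff_le p j).trans hp) ((natDegree_coeff_le q j).trans hq))

theorem a1b_dX_zero : dX 0 = 0 := by
  simp [dX]

theorem a1b_dX_sum {ι : Type*} (s : Finset ι) (p : ι → BP) (a : ℕ) (h : ∀ i ∈ s, dX (p i) ≤ a) :
    dX (∑ i ∈ s, p i) ≤ a := by
  classical
  induction s using Finset.induction_on with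
  | empty =>
    rw [Finset.sum_empty, a1b_dX_zero]
    exact Nat.zero_le _
  | insert b s hb ih =>
    rw [Finset.sum_insert hb]
    exact a1b_dX_add _ _ _ (h b (Finset.mem_insert_self b s)) (ih fun i hi => h i (Finset.mem_insert_of_mem hi))

theorem a1b_dX_C (a : Polynomial ℤ) : dX (C a) = a.natDegree := by
  refine le_antisymm (a1b_dX_le _ _ fun j => ?_) ?_
  · rw [coeff_C]
    split_ifs with h
    · exact le_rfl
    · rw [natDegree_zero]
      exact Nat.zero_le _
  · have := natDegree_coeff_le (C a) 0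
    rwa [coeff_C_zero] at this

theorem a1b_dX_Xpow (j : ℕ) : dX ((X : BP) ^ j) = 0 := by
  refine Nat.le_zero.1 (a1b_dX_le _ _ fun k => ?_)
  rw [coeff_X_pow]
  split_ifs
  · rw [natDegree_one]
  · rw [natDegree_zero]

theorem a1b_len2_Xpow (j : ℕ) : len2 ((X : BP) ^ j) = 1 := by
  rw [← monomial_one_right_eq_X_pow, a1b_len2_monomial, ← C_1, len_C]
  simp

/-- the linear form -/
theorem a1b_lin (u : ℤ) : dX (C X - C (C u) * X : BP) ≤ 1 ∧ (C X - C (C u) * X : BP).natDegree ≤ 1 ∧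
    len2 (C X - C (C u) * X : BP) ≤ 1 + |(u : ℝ)| := by
  have h1 : (C X - C (C u) * X : BP) = C X + C (C (-u)) * X ^ 1 := by
    rw [pow_one, C_neg, C_neg]
    ring
  refine ⟨?_, ?_, ?_⟩
  · rw [h1]
    refine a1b_dX_add _ _ _ ?_ ?_
    · rw [a1b_dX_C, natDegree_X]
    · refine (a1b_dX_mul_le _ _).trans ?_
      rw [a1b_dX_C, natDegree_C, a1b_dX_Xpow]
      exact Nat.zero_le _
  · rw [h1]
    refine (natDegree_add_le _ _).trans (max_le ?_ ?_)
    · rw [natDegree_C]
      exact Nat.zero_le _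
    · refine natDegree_mul_le.trans ?_
      rw [natDegree_C, natDegree_X_pow]
  · rw [h1]
    refine (len2_add _ _).trans (add_le_add ?_ ?_)
    · rw [a1b_len2_C, ← pow_one (X : Polynomial ℤ), ← monomial_one_right_eq_X_pow, a1_len_monomial]
      simp
    · refine (len2_mul _ _).trans ?_
      rw [a1b_len2_C, len_C, a1b_len2_Xpow]
      push_cast
      rw [abs_neg, mul_one]

theorem a1b_pow (q : BP) (b : ℝ) (h1 : dX q ≤ 1) (h2 : q.natDegree ≤ 1) (h3 : len2 q ≤ b) (i : ℕ) :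
    dX (q ^ i) ≤ i ∧ (q ^ i).natDegree ≤ i ∧ len2 (q ^ i) ≤ b ^ i := by
  induction i with
  | zero =>
    refine ⟨?_, ?_, ?_⟩
    · rw [pow_zero, ← pow_zero (X : BP), a1b_dX_Xpow]
    · rw [pow_zero, natDegree_one]
    · rw [pow_zero, pow_zero, ← pow_zero (X : BP), a1b_len2_Xpow]
  | succ i ih =>
    obtain ⟨a1, a2, a3⟩ := ih
    refine ⟨?_, ?_, ?_⟩
    · rw [pow_succ]
      exact (a1b_dX_mul_le _ _).trans (by omega)
    · rw [pow_succ]
      exact natDegree_mul_le.trans (by omega)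
    · rw [pow_succ, pow_succ]
      refine (len2_mul _ _).trans ?_
      exact mul_le_mul a3 h3 (len2_nonneg _) ((len2_nonneg _).trans a3)

/-- A1k. PROOF. `phu u p = ∑_j ∑_i p_ij (X - uY)^i Y^j`; `(X - uY)^i` has degree `≤ i` in `X` and in `Y` and `len2 ≤ (1 + |u|)^i` (`len2_mul`, induction); `len2_add`, `len2_mul`. -/
theorem phu_bd (u : ℤ) (p : BP) : dX (phu u p) ≤ dX p ∧ (phu u p).natDegree ≤ dX p + p.natDegree ∧
    len2 (phu u p) ≤ len2 p * (1 + |(u : ℝ)|) ^ dX p := by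
  set q : BP := C X - C (C u) * X with hq
  obtain ⟨l1, l2, l3⟩ := a1b_lin u
  rw [← hq] at l1 l2 l3
  have hexp : phu u p = ∑ j ∈ p.support, ∑ i ∈ (p.coeff j).support,
      C (C ((p.coeff j).coeff i)) * q ^ i * X ^ j := by
    unfold phu
    rw [coe_eval₂RingHom, eval₂_eq_sum, Polynomial.sum]
    refine Finset.sum_congr rfl fun j _ => ?_
    rw [← Finset.sum_mul]
    congr 1
    rw [AlgHom.toRingHom_eq_coe, RingHom.coe_coe, aeval_def, eval₂_eq_sum, Polynomial.sum]
    refine Finset.sum_congr rfl fun i _ => ?_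
    congr 1
  have hterm : ∀ j ∈ p.support, ∀ i ∈ (p.coeff j).support,
      dX (C (C ((p.coeff j).coeff i)) * q ^ i * X ^ j) ≤ dX p ∧
      (C (C ((p.coeff j).coeff i)) * q ^ i * X ^ j).natDegree ≤ dX p + p.natDegree ∧
      len2 (C (C ((p.coeff j).coeff i)) * q ^ i * X ^ j) ≤
        |(((p.coeff j).coeff i : ℤ) : ℝ)| * (1 + |(u : ℝ)|) ^ dX p := by
    intro j hj i hi
    obtain ⟨b1, b2, b3⟩ := a1b_pow q _ l1 l2 l3 i
    have hi2 : i ≤ dX p := (le_natDegree_of_mem_supp i hi).trans (natDegree_coeff_le p j)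
    have hj2 : j ≤ p.natDegree := le_natDegree_of_mem_supp j hj
    refine ⟨?_, ?_, ?_⟩
    · refine (a1b_dX_mul_le _ _).trans ?_
      rw [a1b_dX_Xpow, add_zero]
      refine (a1b_dX_mul_le _ _).trans ?_
      rw [a1b_dX_C, natDegree_C, zero_add]
      exact b1.trans hi2
    · refine natDegree_mul_le.trans ?_
      rw [natDegree_X_pow]
      refine add_le_add ?_ hj2
      refine natDegree_mul_le.trans ?_
      rw [natDegree_C, zero_add]
      exact b2.trans hi2
    · refine (len2_mul _ _).trans ?_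
      rw [a1b_len2_Xpow, mul_one]
      refine (len2_mul _ _).trans ?_
      rw [a1b_len2_C, len_C]
      refine mul_le_mul_of_nonneg_left (b3.trans ?_) (abs_nonneg _)
      exact pow_le_pow_right₀ (by linarith [abs_nonneg (u : ℝ)]) hi2
  rw [hexp]
  refine ⟨?_, ?_, ?_⟩
  · exact a1b_dX_sum _ _ _ fun j hj => a1b_dX_sum _ _ _ fun i hi => (hterm j hj i hi).1
  · exact natDegree_sum_le_of_forall_le _ _ fun j hj => natDegree_sum_le_of_forall_le _ _ fun i hi => (hterm j hj i hi).2.1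
  · refine (a1b_len2_sum _ _).trans ?_
    unfold len2
    rw [Finset.sum_mul]
    refine Finset.sum_le_sum fun j hj => ?_
    refine (a1b_len2_sum _ _).trans ?_
    unfold len
    rw [Finset.sum_mul]
    exact Finset.sum_le_sum fun i hi => (hterm j hj i hi).2.2

end Pool.Agent.MSL
end

end

section

/-! # L/M2_Rows: rows with a nonzero determinant; two combinatorial lemmas -/

open Filter

noncomputable section

namespace Pool.Agent.MSL

open MSD MSP MSK MSR

/-- M2a. PROOF. The rows `R i` (`i : ι`) span the dual space: otherwise a nonzero `c` is orthogonal to the span. So a subfamily indexed by `κ` is a basis (`exists_linearIndependent`, cardinality `= card κ`), and the determinant of a basis is nonzero (`Matrix.linearIndependent_rows_iff_isUnit`). -/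
theorem exists_rows {ι κ K : Type} [Field K] [Fintype κ] [DecidableEq κ] (R : ι → κ → K) (h : ∀ c : κ → K, c ≠ 0 → ∃ i, ∑ j, R i j * c j ≠ 0) :
    ∃ ρ : κ → ι, (Matrix.of fun i j => R (ρ i) j).det ≠ 0 := by
  have hspan : Submodule.span K (Set.range R) = ⊤ := by
    by_contra hne
    obtain ⟨f, hf0, hf⟩ := Submodule.exists_le_ker_of_lt_top _ (lt_top_iff_ne_top.2 hne)
    have hval : ∀ v : κ → K, f v = ∑ j, v j * f (Pi.single j 1) := by
      intro v
      conv_lhs => rw [pi_eq_sum_univ' v]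
      rw [map_sum]
      refine Finset.sum_congr rfl fun j _ => ?_
      rw [map_smul, smul_eq_mul]
    have hc : (fun j => f (Pi.single j 1)) ≠ 0 := by
      intro h0
      apply hf0
      ext v
      have := congrFun h0 v
      simpa using this
    obtain ⟨i, hi⟩ := h _ hc
    apply hi
    have h1 : f (R i) = 0 := hf (Submodule.subset_span ⟨i, rfl⟩)
    rw [← hval]
    exact h1
  obtain ⟨b, hb, hbs, hbi⟩ := exists_linearIndependent K (Set.range R)
  rw [hspan] at hbs
  let B : Module.Basis b K (κ → K) := Module.Basis.mk hbi (by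
    rw [Subtype.range_coe_subtype]
    change ⊤ ≤ Submodule.span K b
    rw [hbs])
  have e : κ ≃ b := (Pi.basisFun K κ).indexEquiv B
  have hch : ∀ j, ∃ i, R i = (e j : κ → K) := fun j => hb (e j).2
  choose ρ hρ using hch
  refine ⟨ρ, ?_⟩
  have hli : LinearIndependent K (Matrix.of fun i j => R (ρ i) j).row := by
    have h1 : (Matrix.of fun i j => R (ρ i) j).row = (fun x : b => (x : κ → K)) ∘ e := by
      funext i
      change R (ρ i) = _
      rw [hρ]
      rfl
    rw [h1]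
    exact hbi.comp _ e.injective
  have h2 := Matrix.linearIndependent_rows_iff_isUnit.1 hli
  exact ((Matrix.isUnit_iff_isUnit_det _).1 h2).ne_zero

/-- M2b. PROOF. `exists_rows` for `ι = {(a, k) : a j ≤ 8E, k ≤ 8E}`. -/
theorem rows_of (E : ℕ) (x : Vr 2 → ℂ) (h : ∀ c : Ir 2 E → ℂ, c ≠ 0 → ∃ (a : Fin 2 → ℕ) (k : ℕ), (∀ j, a j ≤ 8 * E) ∧ k ≤ 8 * E ∧
    ∑ κ, c κ * MvPolynomial.aeval x ((der (fun j => (a j : ℤ)))^[k] (Rp (fun j => (κ j).val))) ≠ 0) :
    ∃ (a : Ir 2 E → Fin 2 → ℕ) (k : Ir 2 E → ℕ), (∀ i j, a i j ≤ 8 * E) ∧ (∀ i, k i ≤ 8 * E) ∧ (DL x a k).det ≠ 0 := by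
  obtain ⟨ρ, hρ⟩ := exists_rows (ι := {q : (Fin 2 → ℕ) × ℕ // (∀ j, q.1 j ≤ 8 * E) ∧ q.2 ≤ 8 * E})
    (fun i (κ : Ir 2 E) => MvPolynomial.aeval x ((der (fun j => (i.1.1 j : ℤ)))^[i.1.2] (Rp (fun j => (κ j).val)))) (by
      intro c hc
      obtain ⟨a, k, ha, hk, hne⟩ := h c hc
      refine ⟨⟨(a, k), ha, hk⟩, ?_⟩
      intro h0
      apply hne
      rw [← h0]
      refine Finset.sum_congr rfl fun κ _ => ?_
      rw [mul_comm])
  exact ⟨fun i => (ρ i).1.1, fun i => (ρ i).1.2, fun i j => (ρ i).2.1 j, fun i => (ρ i).2.2, hρ⟩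

/-- M2c. PROOF. `∑_(i ∈ s) μ i = ∑_(y ∈ s.image f) ∑_(i ∈ s, f i = y) μ i` (`Finset.sum_fiberwise_of_maps_to`) is at most `card (s.image f) ≤ card t` times the largest inner sum (`Finset.exists_max_image` over the nonempty image). -/
theorem pig_sum {ι κ : Type} [DecidableEq κ] (s : Finset ι) (t : Finset κ) (f : ι → κ) (hf : ∀ i ∈ s, f i ∈ t) (μ : ι → ℝ) (hμ : ∀ i ∈ s, 0 ≤ μ i)
    (hs : s.Nonempty) : ∃ y ∈ t, (∃ i ∈ s, f i = y) ∧ ∑ i ∈ s, μ i ≤ t.card * ∑ i ∈ s.filter (fun i => f i = y), μ i := by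
  obtain ⟨y, hy, hmax⟩ := Finset.exists_max_image (s.image f) (fun y => ∑ i ∈ s.filter (fun i => f i = y), μ i) (hs.image f)
  obtain ⟨i, hi, hiy⟩ := Finset.mem_image.1 hy
  have hsub : s.image f ⊆ t := by
    intro z hz
    obtain ⟨j, hj, rfl⟩ := Finset.mem_image.1 hz
    exact hf j hj
  refine ⟨y, hsub hy, ⟨i, hi, hiy⟩, ?_⟩
  have h0 : 0 ≤ ∑ i ∈ s.filter (fun i => f i = y), μ i :=
    Finset.sum_nonneg fun j hj => hμ j (Finset.mem_filter.1 hj).1
  calc ∑ i ∈ s, μ i = ∑ z ∈ s.image f, ∑ i ∈ s.filter (fun i => f i = z), μ i :=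
        (Finset.sum_fiberwise_of_maps_to (fun j hj => Finset.mem_image_of_mem f hj) μ).symm
    _ ≤ ∑ _z ∈ s.image f, ∑ i ∈ s.filter (fun i => f i = y), μ i :=
        Finset.sum_le_sum fun z hz => hmax z hz
    _ = (s.image f).card * ∑ i ∈ s.filter (fun i => f i = y), μ i := by
        rw [Finset.sum_const, nsmul_eq_mul]
    _ ≤ t.card * ∑ i ∈ s.filter (fun i => f i = y), μ i :=
        mul_le_mul_of_nonneg_right (by exact_mod_cast Finset.card_le_card hsub) h0

end Pool.Agent.MSL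
end

end

section

/-! # L/A1_Basic: integer polynomials in two variables -/

open Polynomial

noncomputable section

namespace Pool.Agent.MSL

open MSD MSP

/-- A1a. PROOF. `sp x` is `Polynomial.map` of a ring homomorphism, so multiplicative and additive; `ev2` likewise. -/
theorem ev2_mul (p q : BP) (x y : ℂ) : ev2 (p * q) x y = ev2 p x y * ev2 q x y := by
  rw [ev2, ev2, ev2, sp, sp, sp, Polynomial.map_mul, Polynomial.eval_mul]

theorem ev2_one (x y : ℂ) : ev2 1 x y = 1 := by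
  rw [ev2, sp, Polynomial.map_one, Polynomial.eval_one]

theorem ev2_neg (p : BP) (x y : ℂ) : ev2 (-p) x y = -ev2 p x y := by
  rw [ev2, ev2, sp, sp, Polynomial.map_neg, Polynomial.eval_neg]

theorem sp_mul (x : ℂ) (p q : BP) : sp x (p * q) = sp x p * sp x q := by
  rw [sp, sp, sp, Polynomial.map_mul]

/-- A1b. PROOF. `Polynomial.eval_eq_sum_range` or `Polynomial.eval_map`, `Polynomial.eval₂_eq_sum`. -/
theorem ev2_sum (p : BP) (x y : ℂ) (n : ℕ) (hn : p.natDegree < n) :
    ev2 p x y = ∑ j ∈ Finset.range n, aeval x (p.coeff j) * y ^ j := by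
  have h1 : (sp x p).natDegree < n := lt_of_le_of_lt Polynomial.natDegree_map_le hn
  rw [ev2, Polynomial.eval_eq_sum_range' h1]
  apply Finset.sum_congr rfl
  intro j _
  rw [sp, Polynomial.coeff_map]
  rfl

/-- the value as a ring homomorphism -/
def a1_ev (x y : ℂ) : BP →+* ℂ :=
  (Polynomial.evalRingHom y).comp
    (Polynomial.mapRingHom (Polynomial.aeval x : Polynomial ℤ →ₐ[ℤ] ℂ).toRingHom)

theorem a1_ev_eq (p : BP) (x y : ℂ) : a1_ev x y p = ev2 p x y := rfl

theorem a1_ev_CX (x y : ℂ) : a1_ev x y (C X) = x := by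
  rw [a1_ev_eq, ev2, sp, Polynomial.map_C, Polynomial.eval_C]
  exact Polynomial.aeval_X x

theorem a1_ev_X (x y : ℂ) : a1_ev x y X = y := by
  rw [a1_ev_eq, ev2, sp, Polynomial.map_X, Polynomial.eval_X]

theorem a1_phu_X (u : ℤ) : phu u X = X := by
  rw [phu]
  exact Polynomial.eval₂_X _ _

theorem a1_phu_CX (u : ℤ) : phu u (C X) = C X - C (C u) * X := by
  rw [phu]
  refine (Polynomial.eval₂_C _ _).trans ?_
  exact Polynomial.aeval_X _

theorem a1_ext {R : Type} [CommRing R] (f g : BP →+* R) (h1 : f (C X) = g (C X))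
    (h2 : f X = g X) (p : BP) : f p = g p := by
  have h : f = g := by
    apply Polynomial.ringHom_ext' _ h2
    apply Polynomial.ringHom_ext' (RingHom.ext_int _ _)
    exact h1
  rw [h]

theorem a1_CC (u : ℤ) : (C (C u) : BP) = (u : BP) := by
  rw [← Polynomial.C_eq_intCast, ← Polynomial.C_eq_intCast]
  simp

/-- A1c. PROOF. Both sides are ring homomorphisms `BP → ℂ` in `p` (`ev2 · x y` is `Polynomial.eval₂RingHom`); compare them on `C (C a)`, `C X`, `X` (`Polynomial.ringHom_ext`). -/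
theorem ev2_phu (u : ℤ) (p : BP) (x y : ℂ) : ev2 (phu u p) x y = ev2 p (x - u * y) y := by
  have h := a1_ext ((a1_ev x y).comp (phu u)) (a1_ev (x - u * y) y) ?_ ?_ p
  · exact h
  · rw [RingHom.comp_apply, a1_phu_CX, a1_CC, map_sub, map_mul, a1_ev_CX, a1_ev_X, a1_ev_CX,
      map_intCast]
  · rw [RingHom.comp_apply, a1_phu_X, a1_ev_X, a1_ev_X]

/-- A1d. PROOF. `phu u` composed with `phu (-u)` is the identity (`Polynomial.ringHom_ext`), so `phu u` is bijective. -/
theorem phu_inv (u : ℤ) (p : BP) : phu (-u) (phu u p) = p := by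
  have h := a1_ext ((phu (-u)).comp (phu u)) (RingHom.id BP) ?_ ?_ p
  · exact h
  · rw [RingHom.comp_apply, a1_phu_CX, a1_CC, map_sub, map_mul, a1_phu_CX, a1_phu_X, map_intCast,
      a1_CC, RingHom.id_apply]
    push_cast
    ring
  · rw [RingHom.comp_apply, a1_phu_X, a1_phu_X, RingHom.id_apply]

theorem a1_phu_inv' (u : ℤ) (p : BP) : phu u (phu (-u) p) = p := by
  have h := phu_inv (-u) p
  rwa [neg_neg] at h

/-- the substitution as a ring automorphism -/
def a1_equiv (u : ℤ) : BP ≃+* BP :=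
  RingEquiv.ofRingHom (phu u) (phu (-u)) (RingHom.ext (a1_phu_inv' u)) (RingHom.ext (phu_inv u))

theorem a1_equiv_apply (u : ℤ) (p : BP) : a1_equiv u p = phu u p := rfl

/-- A1e. PROOF. `phu u` is a ring automorphism by A1d (build a `RingEquiv`, `MulEquiv.irreducible_iff`, `map_dvd_iff`). -/
theorem phu_irred (u : ℤ) (p : BP) (hp : Irreducible p) : Irreducible (phu u p) := by
  rw [← a1_equiv_apply]
  exact (MulEquiv.irreducible_iff (a1_equiv u)).2 hp

theorem phu_dvd (u : ℤ) (p q : BP) : phu u p ∣ phu u q ↔ p ∣ q := by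
  rw [← a1_equiv_apply, ← a1_equiv_apply]
  exact map_dvd_iff (a1_equiv u)

theorem phu_ne (u : ℤ) (p : BP) (hp : p ≠ 0) : phu u p ≠ 0 := by
  intro h
  apply hp
  have h1 := phu_inv u p
  rw [h, map_zero] at h1
  exact h1.symm

end Pool.Agent.MSL
end

end

section

/-! # L/A3_Gelf: Gelfond's inequality for the length of a product in two variables -/

open Polynomial

noncomputable section

namespace Pool.Agent.MSL

open MSD MSP

theorem a3g_le_one (p : Polynomial ℂ) (h : ∀ ζ : ℂ, ‖ζ‖ = 1 → ‖p.eval ζ‖ ≤ 1) : p.mahlerMeasure ≤ 1 := by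
  by_cases hp : p = 0
  · subst hp
    rw [mahlerMeasure_zero]
    exact zero_le_one
  have h1 : p.logMahlerMeasure ≤ 0 := by
    rw [logMahlerMeasure_def]
    refine Real.circleAverage_mono_on_of_le_circle ?_ ?_
    · exact (analyticOnNhd_id.aeval_polynomial p).meromorphicOn.circleIntegrable_log_norm
    · intro x hx
      refine Real.log_nonpos (norm_nonneg _) (h x ?_)
      simpa using hx
  unfold mahlerMeasure
  rw [if_pos hp]
  calc Real.exp p.logMahlerMeasure ≤ Real.exp 0 := Real.exp_le_exp.2 h1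
    _ = 1 := Real.exp_zero

/-- A3a. PROOF. `log M(p)` is the circle average of `log ‖p‖` (`Polynomial.logMahlerMeasure`, `Real.circleAverage`), so `‖p ζ‖ ≥ M(p)` for some `ζ` on the circle (otherwise `log ‖p‖ < log M(p)` everywhere and, `‖p‖` being continuous on a compact set, `‖p‖ ≤ m < M(p)`;
apply a monotonicity lemma of circle averages, or `Polynomial.mahlerMeasure` bounds for the average of a function bounded by the constant `log m`; if `m = 0` then `p` vanishes on the circle, so `p = 0`). -/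
theorem exists_circle (p : Polynomial ℂ) (hp : p ≠ 0) : ∃ ζ : ℂ, ‖ζ‖ = 1 ∧ p.mahlerMeasure ≤ ‖p.eval ζ‖ := by
  obtain ⟨ζ, hζ, hmax⟩ := (isCompact_sphere (0 : ℂ) 1).exists_isMaxOn
    ⟨1, by simp⟩ (f := fun z => ‖p.eval z‖) (p.continuous.norm.continuousOn)
  have hζ1 : ‖ζ‖ = 1 := by simpa using hζ
  have hmax' : ∀ z : ℂ, ‖z‖ = 1 → ‖p.eval z‖ ≤ ‖p.eval ζ‖ := fun z hz => hmax (by simpa using hz)
  refine ⟨ζ, hζ1, ?_⟩
  have hpos : 0 < ‖p.eval ζ‖ := by
    by_contra hneg
    have h0 : ∀ z : ℂ, ‖z‖ = 1 → p.eval z = 0 := by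
      intro z hz
      have := hmax' z hz
      have h2 : ‖p.eval z‖ ≤ 0 := this.trans (not_lt.1 hneg)
      exact norm_le_zero_iff.1 h2
    have hinf : (Metric.sphere (0 : ℂ) 1).Infinite := by
      have hc : IsPreconnected (Metric.sphere (0 : ℂ) 1) := by
        refine isPreconnected_sphere ?_ 0 1
        rw [Complex.rank_real_complex]
        norm_num
      refine hc.infinite_of_nontrivial ⟨1, by simp, -1, by simp, ?_⟩
      norm_num
    apply hp
    refine Polynomial.eq_zero_of_infinite_isRoot p (hinf.mono ?_)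
    intro z hz
    exact h0 z (by simpa using hz)
  set m : ℝ := ‖p.eval ζ‖ with hm
  have hm0 : (m : ℂ) ≠ 0 := by exact_mod_cast hpos.ne'
  have h1 : (C ((m : ℂ)⁻¹) * p).mahlerMeasure ≤ 1 := by
    refine a3g_le_one _ fun z hz => ?_
    rw [eval_mul, eval_C, norm_mul, norm_inv, Complex.norm_real, Real.norm_of_nonneg hpos.le]
    rw [inv_mul_le_iff₀ hpos, mul_one]
    exact hmax' z hz
  rw [mahlerMeasure_mul, mahlerMeasure_const, norm_inv, Complex.norm_real, Real.norm_of_nonneg hpos.le,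
    inv_mul_le_iff₀ hpos, mul_one] at h1
  exact h1

/-- A3b. PROOF. Mathlib `norm_coeff_le_choose_mul_mahlerMeasure`. -/
theorem coeff_le_M (p : Polynomial ℂ) (n : ℕ) (hn : p.natDegree ≤ n) (j : ℕ) : ‖p.coeff j‖ ≤ 2 ^ n * p.mahlerMeasure := by
  refine (norm_coeff_le_choose_mul_mahlerMeasure j p).trans ?_
  refine mul_le_mul_of_nonneg_right ?_ (mahlerMeasure_nonneg p)
  have h1 : p.natDegree.choose j ≤ 2 ^ p.natDegree := Nat.choose_le_two_pow _ _
  have h2 : 2 ^ p.natDegree ≤ 2 ^ n := Nat.pow_le_pow_right (by norm_num) hn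
  exact_mod_cast h1.trans h2

theorem a3g_k (p : BP) (hp : p ≠ 0) : ∃ k : ℕ, p.coeff k ≠ 0 ∧ len2 p ≤ 2 ^ p.natDegree * len (p.coeff k) := by
  obtain ⟨k, hk, hmax⟩ := Finset.exists_max_image p.support (fun j => len (p.coeff j)) (by
    rw [Polynomial.support_nonempty]
    exact hp)
  refine ⟨k, mem_support_iff.1 hk, ?_⟩
  have h1 : len2 p ≤ ((p.natDegree + 1 : ℕ) : ℝ) * len (p.coeff k) := by
    refine len2_le p _ (Nat.lt_succ_self _) _ fun j => ?_
    by_cases hj : j ∈ p.support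
    · exact hmax j hj
    · rw [Polynomial.notMem_support_iff.1 hj, len_zero]
      exact len_nonneg _
  refine h1.trans (mul_le_mul_of_nonneg_right ?_ (len_nonneg _))
  have h2 : p.natDegree + 1 ≤ 2 ^ p.natDegree := Nat.lt_two_pow_self
  exact_mod_cast h2

theorem a3g_step1 (k : BP → ℕ) (hk : ∀ p : BP, p ≠ 0 → p.coeff (k p) ≠ 0 ∧ len2 p ≤ 2 ^ p.natDegree * len (p.coeff (k p)))
    (s : Multiset BP) (h : ∀ p ∈ s, p ≠ 0) :
    (s.map fun p => p.coeff (k p)).prod ≠ 0 ∧
    (s.map len2).prod ≤ 2 ^ (s.map fun p => dX p + p.natDegree).sum * MM (s.map fun p => p.coeff (k p)).prod := by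
  induction s using Multiset.induction_on with
  | empty =>
    refine ⟨by simp, ?_⟩
    simp only [Multiset.map_zero, Multiset.prod_zero, Multiset.sum_zero, pow_zero, one_mul]
    exact one_le_MM 1 one_ne_zero
  | cons p s ih =>
    obtain ⟨i1, i2⟩ := ih fun q hq => h q (Multiset.mem_cons_of_mem hq)
    obtain ⟨k1, k2⟩ := hk p (h p (Multiset.mem_cons_self p s))
    simp only [Multiset.map_cons, Multiset.prod_cons, Multiset.sum_cons]
    refine ⟨mul_ne_zero k1 i1, ?_⟩
    rw [MM_mul]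
    have h3 : len2 p ≤ 2 ^ (dX p + p.natDegree) * MM (p.coeff (k p)) := by
      refine k2.trans ?_
      rw [pow_add, mul_comm ((2 : ℝ) ^ dX p), mul_assoc]
      refine mul_le_mul_of_nonneg_left ((len_le_MM _).trans ?_) (by positivity)
      refine mul_le_mul_of_nonneg_right ?_ (mahlerMeasure_nonneg _)
      exact pow_le_pow_right₀ one_le_two (natDegree_coeff_le p (k p))
    calc len2 p * (s.map len2).prod
        ≤ (2 ^ (dX p + p.natDegree) * MM (p.coeff (k p))) *
          (2 ^ (s.map fun p => dX p + p.natDegree).sum * MM (s.map fun p => p.coeff (k p)).prod) := by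
          refine mul_le_mul h3 i2 ?_ ((len2_nonneg p).trans h3)
          refine Multiset.prod_nonneg fun x hx => ?_
          obtain ⟨q, -, rfl⟩ := Multiset.mem_map.1 hx
          exact len2_nonneg q
      _ = _ := by
          rw [pow_add _ (dX p + p.natDegree)]
          ring

theorem a3g_step2 (k : BP → ℕ) (ζ : ℂ) (s : Multiset BP) :
    ‖aeval ζ (s.map fun p => p.coeff (k p)).prod‖ ≤ 2 ^ (s.map fun p => p.natDegree).sum * (sp ζ s.prod).mahlerMeasure := by
  induction s using Multiset.induction_on with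
  | empty =>
    simp only [Multiset.map_zero, Multiset.prod_zero, Multiset.sum_zero, pow_zero, one_mul, map_one, norm_one]
    have : sp ζ 1 = 1 := by
      unfold sp
      rw [Polynomial.map_one]
    rw [this, mahlerMeasure_one]
  | cons p s ih =>
    simp only [Multiset.map_cons, Multiset.prod_cons, Multiset.sum_cons]
    rw [map_mul, norm_mul, sp_mul, mahlerMeasure_mul]
    have h1 : ‖aeval ζ (p.coeff (k p))‖ ≤ 2 ^ p.natDegree * (sp ζ p).mahlerMeasure := by
      have h2 : aeval ζ (p.coeff (k p)) = (sp ζ p).coeff (k p) := by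
        unfold sp
        rw [coeff_map]
        rfl
      rw [h2]
      exact coeff_le_M _ _ (sp_natDegree p ζ) _
    calc ‖aeval ζ (p.coeff (k p))‖ * ‖aeval ζ (s.map fun p => p.coeff (k p)).prod‖
        ≤ (2 ^ p.natDegree * (sp ζ p).mahlerMeasure) *
          (2 ^ (s.map fun p => p.natDegree).sum * (sp ζ s.prod).mahlerMeasure) :=
          mul_le_mul h1 ih (norm_nonneg _) ((norm_nonneg _).trans h1)
      _ = _ := by
          rw [pow_add]
          ring

/-- A3c. PROOF. For every `p` in `s` choose `k = k(p)` such that `len (p.coeff k)` is maximal, so `len2 p ≤ (natDegree p + 1) len (p.coeff k) ≤ 2^(natDegree p) len (p.coeff k)`. The product `π` of the polynomials `p.coeff k` (in `ℤ[X]`) satisfies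
`M(π) = ∏ M(p.coeff k) ≥ ∏ 2^(-dX p) len (p.coeff k)` (`MM_mul`, `len_le_MM`, `MM 1 = 1`). `exists_circle` gives `ζ`, `‖ζ‖ = 1`, `∏ ‖(p.coeff k)(ζ)‖ ≥ M(π)`. Now `(p.coeff k)(ζ)` is a coefficient of `sp ζ p`, so `‖(p.coeff k)(ζ)‖ ≤ 2^(natDegree p) M(sp ζ p)`
(A3b, `sp_natDegree`), and `∏ M(sp ζ p) = M(sp ζ (∏ p)) ≤ lenC (sp ζ (∏ p)) ≤ len2 (∏ p)` (`mahlerMeasure_mul`, `mahlerMeasure_le_sum_norm_coeff`, `lenC_sp`). Altogether `∏ len2 p ≤ ∏ 2^(2 natDegree p + dX p) · len2 (∏ p)`. -/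
theorem gelfond2 (s : Multiset BP) (h : ∀ p ∈ s, p ≠ 0) :
    (s.map len2).prod ≤ 4 ^ (s.map fun p => dX p + p.natDegree).sum * len2 s.prod := by
  classical
  have hk0 : ∀ p : BP, ∃ k : ℕ, p ≠ 0 → p.coeff k ≠ 0 ∧ len2 p ≤ 2 ^ p.natDegree * len (p.coeff k) := by
    intro p
    by_cases hp : p = 0
    · exact ⟨0, fun h0 => absurd hp h0⟩
    · obtain ⟨k, hk⟩ := a3g_k p hp
      exact ⟨k, fun _ => hk⟩
  choose k hk using hk0
  obtain ⟨hne, h1⟩ := a3g_step1 k hk s h
  set π : Polynomial ℤ := (s.map fun p => p.coeff (k p)).prod with hπ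
  have hne2 : π.map (Int.castRingHom ℂ) ≠ 0 := by
    rw [Ne, Polynomial.map_eq_zero_iff k1_inj]
    exact hne
  obtain ⟨ζ, hζ, hM⟩ := exists_circle _ hne2
  have hev : (π.map (Int.castRingHom ℂ)).eval ζ = aeval ζ π := by
    rw [eval_map, aeval_def]
    rfl
  rw [hev] at hM
  have h2 := a3g_step2 k ζ s
  rw [← hπ] at h2
  have h3 : (sp ζ s.prod).mahlerMeasure ≤ len2 s.prod := by
    refine (mahlerMeasure_le_sum_norm_coeff _).trans ?_
    refine le_trans (le_of_eq rfl) ((lenC_sp s.prod ζ).trans ?_)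
    rw [hζ, max_self, one_pow, mul_one]
  set N : ℕ := (s.map fun p => dX p + p.natDegree).sum with hN
  have hsum : (s.map fun p => p.natDegree).sum ≤ N := by
    rw [hN]
    exact Multiset.sum_map_le_sum_map _ _ fun p _ => Nat.le_add_left _ _
  have hl := len2_nonneg s.prod
  calc (s.map len2).prod ≤ 2 ^ N * MM π := h1
    _ ≤ 2 ^ N * ‖aeval ζ π‖ := mul_le_mul_of_nonneg_left hM (by positivity)
    _ ≤ 2 ^ N * (2 ^ (s.map fun p => p.natDegree).sum * (sp ζ s.prod).mahlerMeasure) :=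
        mul_le_mul_of_nonneg_left h2 (by positivity)
    _ ≤ 2 ^ N * (2 ^ N * len2 s.prod) := by
        refine mul_le_mul_of_nonneg_left ?_ (by positivity)
        refine mul_le_mul ?_ h3 (mahlerMeasure_nonneg _) (by positivity)
        exact pow_le_pow_right₀ one_le_two hsum
    _ = 4 ^ N * len2 s.prod := by
        rw [← mul_assoc, ← mul_pow]
        norm_num

end Pool.Agent.MSL
end

end

section

/-! # L/A7_ResInt: degree and Mahler measure of the resultant -/

open Polynomial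

noncomputable section

namespace Pool.Agent.MSL

open MSD MSP

theorem a7_lenC_nonneg (f : Polynomial ℂ) : 0 ≤ lenC f :=
  Finset.sum_nonneg fun _ _ => norm_nonneg _

theorem a7_max_le (P : BP) (hP : P ≠ 0) (x : ℂ) :
    max 1 (lenC (sp x P)) ≤ len2 P * (max 1 ‖x‖) ^ dX P := by
  have h1 : 1 ≤ (max 1 ‖x‖) ^ dX P := one_le_pow₀ (le_max_left _ _)
  have h2 := one_le_len2 P hP
  refine max_le ?_ (lenC_sp P x)
  calc (1 : ℝ) = 1 * 1 := (mul_one 1).symm
    _ ≤ len2 P * (max 1 ‖x‖) ^ dX P := mul_le_mul h2 h1 zero_le_one (by linarith)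

/-- A7a. PROOF. `natDegree` of the determinant of the Sylvester matrix: `n` columns with entries of degree `≤ dX P`, `m` columns with entries of degree `≤ dX Q` (Leibniz formula, `Polynomial.natDegree_sum_le_of_forall_le`, `natDegree_prod_le`; every permutation uses each column once).
Any weaker bound of the shape `n dX P + m dX Q` times a constant `≤ 2` is NOT enough for the statement, but the statement is exactly the Leibniz bound. -/
theorem res_natDegree (P Q : BP) (m n : ℕ) : (resultant P Q m n).natDegree ≤ n * dX P + m * dX Q := by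
  classical
  unfold resultant
  rw [Matrix.det_apply']
  let d : Fin (m + n) → ℕ := fun i => Fin.addCases (fun _ => dX Q) (fun _ => dX P) i
  have hent : ∀ i j, ((sylvester P Q m n) i j).natDegree ≤ d j := by
    intro i j
    refine Fin.addCases (fun j => ?_) (fun j => ?_) j
    · simp only [d, Fin.addCases_left, sylvester, Matrix.of_apply]
      split_ifs
      · exact natDegree_coeff_le Q _
      · simp
    · simp only [d, Fin.addCases_right, sylvester, Matrix.of_apply]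
      split_ifs
      · exact natDegree_coeff_le P _
      · simp
  have hsum : ∑ i, d i = n * dX P + m * dX Q := by
    rw [Fin.sum_univ_add]
    simp only [d, Fin.addCases_left, Fin.addCases_right, Finset.sum_const, Finset.card_univ,
      Fintype.card_fin, smul_eq_mul]
    ring
  rw [← hsum]
  apply Polynomial.natDegree_sum_le_of_forall_le
  intro σ _
  refine (Polynomial.natDegree_mul_le).trans ?_
  rw [Polynomial.natDegree_intCast, zero_add]
  refine (Polynomial.natDegree_prod_le _ _).trans ?_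
  exact Finset.sum_le_sum fun i _ => hent (σ i) i

/-- A7b. PROOF. `MM R ≤ ‖R(ζ)‖` for some `‖ζ‖ = 1` (`exists_circle` for the complex polynomial) and `R(ζ) = resultant (sp ζ P) (sp ζ Q)` (`res_sp`), so by `resC_le` and `lenC_sp` `MM R ≤ len2 P ^ n * len2 Q ^ m`. -/
theorem res_MM (P Q : BP) (m n : ℕ) (hm : P.natDegree ≤ m) (hn : Q.natDegree ≤ n) (h : resultant P Q m n ≠ 0) :
    MM (resultant P Q m n) ≤ len2 P ^ n * len2 Q ^ m := by
  have hinj : Function.Injective (Int.castRingHom ℂ) := Int.cast_injective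
  have h0 : (resultant P Q m n).map (Int.castRingHom ℂ) ≠ 0 := by
    rw [Ne, Polynomial.map_eq_zero_iff hinj]
    exact h
  obtain ⟨ζ, hζ, hle⟩ := exists_circle _ h0
  have he : ((resultant P Q m n).map (Int.castRingHom ℂ)).eval ζ =
      aeval ζ (resultant P Q m n) := by
    rw [Polynomial.eval_map, Polynomial.aeval_def]
    rfl
  unfold MM
  refine hle.trans ?_
  rw [he, res_sp]
  refine (resC_le _ _ m n ((sp_natDegree P ζ).trans hm) ((sp_natDegree Q ζ).trans hn)).trans ?_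
  have h1 : lenC (sp ζ P) ≤ len2 P := by
    have := lenC_sp P ζ
    rwa [hζ, max_self, one_pow, mul_one] at this
  have h2 : lenC (sp ζ Q) ≤ len2 Q := by
    have := lenC_sp Q ζ
    rwa [hζ, max_self, one_pow, mul_one] at this
  exact mul_le_mul (pow_le_pow_left₀ (a7_lenC_nonneg _) h1 n)
    (pow_le_pow_left₀ (a7_lenC_nonneg _) h2 m) (pow_nonneg (a7_lenC_nonneg _) m)
    (pow_nonneg (len2_nonneg P) n)

/-- A7c. PROOF. `res_sp`, `resC_small`, `lenC_sp`. -/
theorem res_small (P Q : BP) (m n : ℕ) (hm : P.natDegree ≤ m) (hn : Q.natDegree ≤ n) (hmn : 1 ≤ m + n) (hP : P ≠ 0) (hQ : Q ≠ 0) (x y : ℂ) :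
    ‖aeval x (resultant P Q m n)‖ ≤ ((m : ℝ) + n) * (max 1 ‖y‖) ^ (m + n) *
      ((len2 P * (max 1 ‖x‖) ^ dX P) ^ n * (len2 Q * (max 1 ‖x‖) ^ dX Q) ^ m) * max ‖ev2 P x y‖ ‖ev2 Q x y‖ := by
  rw [res_sp]
  refine (resC_small _ _ m n ((sp_natDegree P x).trans hm) ((sp_natDegree Q x).trans hn) hmn y).trans
    ?_
  have hP1 := a7_max_le P hP x
  have hQ1 := a7_max_le Q hQ x
  have h01 : (0 : ℝ) ≤ max 1 (lenC (sp x P)) := zero_le_one.trans (le_max_left _ _)
  have h02 : (0 : ℝ) ≤ max 1 (lenC (sp x Q)) := zero_le_one.trans (le_max_left _ _)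
  have h03 : (0 : ℝ) ≤ len2 P * (max 1 ‖x‖) ^ dX P := h01.trans hP1
  have h1 := mul_le_mul (pow_le_pow_left₀ h01 hP1 n) (pow_le_pow_left₀ h02 hQ1 m)
    (pow_nonneg h02 m) (pow_nonneg h03 n)
  have h4 : (0 : ℝ) ≤ ((m : ℝ) + n) * (max 1 ‖y‖) ^ (m + n) := by positivity
  have h5 : (0 : ℝ) ≤ max ‖ev2 P x y‖ ‖ev2 Q x y‖ := (norm_nonneg _).trans (le_max_left _ _)
  exact mul_le_mul_of_nonneg_right (mul_le_mul_of_nonneg_left h1 h4) h5

end Pool.Agent.MSL
end

end

section

/-! # L/A8_Zeros: the common zeros of two coprime polynomials -/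

open Polynomial

noncomputable section

namespace Pool.Agent.MSL

open MSD MSP

/-- the factors of the bounds are at least one -/
private theorem a8_one_le (Q : BP) (hQ : Q ≠ 0) (u : ℕ) : 1 ≤ len2 Q * (1 + (u : ℝ)) ^ dX Q := by
  have h1 : (1 : ℝ) ≤ 1 + u := by
    have : (0 : ℝ) ≤ u := Nat.cast_nonneg u
    linarith
  exact one_le_mul_of_one_le_of_one_le (one_le_len2 Q hQ) (one_le_pow₀ h1)

/-- the length of the substituted polynomial -/
private theorem a8_len (Q : BP) (u : ℕ) : len2 (phu u Q) ≤ len2 Q * (1 + (u : ℝ)) ^ dX Q := by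
  have h := (phu_bd (u : ℤ) Q).2.2
  have h2 : |(((u : ℤ) : ℝ))| = (u : ℝ) := by
    rw [Int.cast_natCast]
    exact abs_of_nonneg (Nat.cast_nonneg u)
  rwa [h2] at h

/-- the length with a power of `max 1 ‖x‖` -/
private theorem a8_lenx (Q : BP) (u : ℕ) (t : ℝ) (ht : 1 ≤ t) :
    len2 (phu u Q) * t ^ dX (phu u Q) ≤ len2 Q * (1 + (u : ℝ)) ^ dX Q * t ^ dX Q := by
  refine mul_le_mul (a8_len Q u) (pow_le_pow_right₀ ht (phu_bd (u : ℤ) Q).1) (by positivity) ?_
  exact (len2_nonneg _).trans (a8_len Q u)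

/-- A8a. The resultant after the substitution `X ↦ X - u Y`. PROOF. `lead_phu b` gives `D` and `B`. For `u ∉ B` put `R = resultant (phu u b) (phu u Q) D n`, `n = dX Q + Q.natDegree`. `R ≠ 0`: `res_ne` for `phu u b`, `phu u Q` (`phu_irred`, `phu_dvd`, `phu_ne`, `D ≥ natDegree b ≥ 1`).
(1) `R(x + u y) = 0` for common zeros `(x, y)`: `root_res`, `ev2_phu`. (2) Every root is of this form: `res_root`, `ev2_phu` (`x = α - u y`). (3)-(5): `res_natDegree`, `res_MM`, `res_small` with `phu_bd` (`D ≤ dX b + natDegree b`); the value `x₀ + u y₀`. -/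
theorem res_u (b Q : BP) (hb : Irreducible b) (hd : 1 ≤ b.natDegree) (hQ : Q ≠ 0) (h : ¬ b ∣ Q) :
    ∃ B : Finset ℕ, B.card ≤ dX b + b.natDegree ∧ ∀ u : ℕ, u ∉ B → ∃ R : Polynomial ℤ, R ≠ 0 ∧
      (∀ x y : ℂ, ev2 b x y = 0 → ev2 Q x y = 0 → aeval (x + u * y) R = 0) ∧
      (∀ α : ℂ, aeval α R = 0 → ∃ x y : ℂ, ev2 b x y = 0 ∧ ev2 Q x y = 0 ∧ x + u * y = α) ∧
      (R.natDegree ≤ 2 * (dX b + b.natDegree) * (dX Q + Q.natDegree)) ∧
      (MM R ≤ (len2 b * (1 + u) ^ dX b) ^ (dX Q + Q.natDegree) * (len2 Q * (1 + u) ^ dX Q) ^ (dX b + b.natDegree)) ∧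
      ∀ x₀ y₀ : ℂ, ‖aeval (x₀ + u * y₀) R‖ ≤ ((dX b + b.natDegree : ℕ) + (dX Q + Q.natDegree : ℕ) : ℝ) *
        (max 1 ‖y₀‖) ^ ((dX b + b.natDegree) + (dX Q + Q.natDegree)) *
        ((len2 b * (1 + u) ^ dX b * (max 1 ‖x₀ + u * y₀‖) ^ dX b) ^ (dX Q + Q.natDegree) *
          (len2 Q * (1 + u) ^ dX Q * (max 1 ‖x₀ + u * y₀‖) ^ dX Q) ^ (dX b + b.natDegree)) * max ‖ev2 b x₀ y₀‖ ‖ev2 Q x₀ y₀‖ := by
  obtain ⟨D, hD1, hD2, B, hB, hlead⟩ := lead_phu b hb.ne_zero
  refine ⟨B, hB.trans hD2, fun u hu => ?_⟩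
  obtain ⟨hnat, a, ha, hl⟩ := hlead u hu
  have hb0 : b ≠ 0 := hb.ne_zero
  have hn : (phu u Q).natDegree ≤ dX Q + Q.natDegree := (phu_bd (u : ℤ) Q).2.1
  have hcast : (((u : ℤ) : ℂ)) = (u : ℂ) := Int.cast_natCast u
  have hev : ∀ (p : BP) (x y : ℂ), ev2 (phu u p) (x + u * y) y = ev2 p x y := by
    intro p x y
    rw [ev2_phu, hcast, add_sub_cancel_right]
  have hR0 : resultant (phu u b) (phu u Q) D (dX Q + Q.natDegree) ≠ 0 := by
    have h1 := res_ne (phu u b) (phu u Q) (phu_irred u b hb) (by rw [hnat]; omega)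
      (phu_ne u Q hQ) (fun h2 => h ((phu_dvd u b Q).1 h2)) (dX Q + Q.natDegree) hn
    rwa [hnat] at h1
  refine ⟨resultant (phu u b) (phu u Q) D (dX Q + Q.natDegree), hR0, ?_, ?_, ?_, ?_, ?_⟩
  · intro x y h1 h2
    have h3 := root_res (phu u b) (phu u Q) a ha hl (dX Q + Q.natDegree) hn (x + u * y) y
      (by rw [hev]; exact h1) (by rw [hev]; exact h2)
    rwa [hnat] at h3
  · intro α hα
    have h1 : aeval α (resultant (phu u b) (phu u Q) (phu u b).natDegree
        (dX Q + Q.natDegree)) = 0 := by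
      rw [hnat]
      exact hα
    obtain ⟨y, h2, h3⟩ := res_root (phu u b) (phu u Q) a ha hl (dX Q + Q.natDegree) hn α h1
    rw [ev2_phu, hcast] at h2 h3
    exact ⟨α - u * y, y, h2, h3, sub_add_cancel _ _⟩
  · refine (res_natDegree _ _ _ _).trans ?_
    have h1 : dX (phu u b) ≤ dX b + b.natDegree := (phu_bd (u : ℤ) b).1.trans (Nat.le_add_right _ _)
    have h2 : dX (phu u Q) ≤ dX Q + Q.natDegree := (phu_bd (u : ℤ) Q).1.trans (Nat.le_add_right _ _)
    calc (dX Q + Q.natDegree) * dX (phu u b) + D * dX (phu u Q)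
        ≤ (dX Q + Q.natDegree) * (dX b + b.natDegree) +
          (dX b + b.natDegree) * (dX Q + Q.natDegree) :=
          Nat.add_le_add (Nat.mul_le_mul_left _ h1) (Nat.mul_le_mul hD2 h2)
      _ = 2 * (dX b + b.natDegree) * (dX Q + Q.natDegree) := by ring
  · refine (res_MM _ _ _ _ hnat.le hn hR0).trans ?_
    have h1 : len2 (phu u b) ^ (dX Q + Q.natDegree) ≤
        (len2 b * (1 + (u : ℝ)) ^ dX b) ^ (dX Q + Q.natDegree) :=
      pow_le_pow_left₀ (len2_nonneg _) (a8_len b u) _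
    have h2 : len2 (phu u Q) ^ D ≤ (len2 Q * (1 + (u : ℝ)) ^ dX Q) ^ (dX b + b.natDegree) :=
      (pow_le_pow_left₀ (len2_nonneg _) (a8_len Q u) _).trans
        (pow_le_pow_right₀ (a8_one_le Q hQ u) hD2)
    exact mul_le_mul h1 h2 (pow_nonneg (len2_nonneg _) _)
      (pow_nonneg (zero_le_one.trans (a8_one_le b hb0 u)) _)
  · intro x₀ y₀
    have h1 := res_small (phu u b) (phu u Q) D (dX Q + Q.natDegree) hnat.le hn (by omega)
      (phu_ne u b hb0) (phu_ne u Q hQ) (x₀ + u * y₀) y₀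
    rw [hev, hev] at h1
    refine h1.trans ?_
    have ht : (1 : ℝ) ≤ max 1 ‖x₀ + u * y₀‖ := le_max_left _ _
    have hs : (1 : ℝ) ≤ max 1 ‖y₀‖ := le_max_left _ _
    have e1 : (D : ℝ) + ((dX Q + Q.natDegree : ℕ) : ℝ) ≤
        ((dX b + b.natDegree : ℕ) : ℝ) + ((dX Q + Q.natDegree : ℕ) : ℝ) := by
      have : (D : ℝ) ≤ ((dX b + b.natDegree : ℕ) : ℝ) := by exact_mod_cast hD2
      linarith
    have e2 : (max 1 ‖y₀‖) ^ (D + (dX Q + Q.natDegree)) ≤
        (max 1 ‖y₀‖) ^ ((dX b + b.natDegree) + (dX Q + Q.natDegree)) :=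
      pow_le_pow_right₀ hs (by omega)
    have e3 : (len2 (phu u b) * (max 1 ‖x₀ + u * y₀‖) ^ dX (phu u b)) ^ (dX Q + Q.natDegree) ≤
        (len2 b * (1 + (u : ℝ)) ^ dX b * (max 1 ‖x₀ + u * y₀‖) ^ dX b) ^ (dX Q + Q.natDegree) :=
      pow_le_pow_left₀ (mul_nonneg (len2_nonneg _) (by positivity)) (a8_lenx b u _ ht) _
    have e4 : (len2 (phu u Q) * (max 1 ‖x₀ + u * y₀‖) ^ dX (phu u Q)) ^ D ≤
        (len2 Q * (1 + (u : ℝ)) ^ dX Q * (max 1 ‖x₀ + u * y₀‖) ^ dX Q) ^ (dX b + b.natDegree) := by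
      refine (pow_le_pow_left₀ (mul_nonneg (len2_nonneg _) (by positivity)) (a8_lenx Q u _ ht)
        _).trans (pow_le_pow_right₀ ?_ hD2)
      exact one_le_mul_of_one_le_of_one_le (a8_one_le Q hQ u) (one_le_pow₀ ht)
    have n3 : 0 ≤ (len2 (phu u b) * (max 1 ‖x₀ + u * y₀‖) ^ dX (phu u b)) ^
        (dX Q + Q.natDegree) := pow_nonneg (mul_nonneg (len2_nonneg _) (by positivity)) _
    have n4 : 0 ≤ (len2 (phu u Q) * (max 1 ‖x₀ + u * y₀‖) ^ dX (phu u Q)) ^ D :=
      pow_nonneg (mul_nonneg (len2_nonneg _) (by positivity)) _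
    refine mul_le_mul_of_nonneg_right ?_ (le_max_of_le_left (norm_nonneg _))
    refine mul_le_mul ?_ (mul_le_mul e3 e4 n4 (n3.trans e3)) (mul_nonneg n3 n4) (by positivity)
    exact mul_le_mul e1 e2 (by positivity) (by positivity)

end Pool.Agent.MSL
end

end

section

/-! # L/A8b_Fin: the common zeros are algebraic and their number is bounded -/

open Polynomial

noncomputable section

namespace Pool.Agent.MSL

open MSD MSP

/-- algebraicity of a root -/
theorem a8_alg (R : Polynomial ℤ) (hR : R ≠ 0) (α : ℂ) (h : aeval α R = 0) : IsAlgebraic ℚ α := by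
  refine ⟨R.map (Int.castRingHom ℚ), ?_, ?_⟩
  · rw [Ne, Polynomial.map_eq_zero_iff (Int.castRingHom ℚ).injective_int]
    exact hR
  · rw [← h, ← algebraMap_int_eq, aeval_map_algebraMap]

/-- the roots -/
theorem a8_roots (R : Polynomial ℤ) (hR : R ≠ 0) : ∃ S : Finset ℂ, S.card ≤ R.natDegree ∧
    ∀ α : ℂ, aeval α R = 0 → α ∈ S := by
  classical
  have h0 : R.map (algebraMap ℤ ℂ) ≠ 0 := by
    rw [Ne, Polynomial.map_eq_zero_iff (RingHom.injective_int _)]
    exact hR
  refine ⟨(R.map (algebraMap ℤ ℂ)).roots.toFinset, ?_, ?_⟩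
  · refine (Multiset.toFinset_card_le _).trans ((card_roots' _).trans ?_)
    exact natDegree_map_le
  · intro α hα
    rw [Multiset.mem_toFinset, mem_roots h0, IsRoot.def, eval_map_algebraMap]
    exact hα

/-- two different slopes determine the point -/
theorem a8_two (u v : ℕ) (huv : u ≠ v) (x y x' y' : ℂ) (h1 : x + u * y = x' + u * y')
    (h2 : x + v * y = x' + v * y') : x = x' ∧ y = y' := by
  have h3 : ((u : ℂ) - v) * (y - y') = 0 := by linear_combination h1 - h2
  have h4 : (u : ℂ) - v ≠ 0 := by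
    rw [sub_ne_zero]
    exact_mod_cast huv
  have h5 : y = y' := by
    rcases mul_eq_zero.1 h3 with h | h
    · exact absurd h h4
    · exact sub_eq_zero.1 h
  subst h5
  exact ⟨by linear_combination h1, rfl⟩

/-- A8b. PROOF. `res_u`. For `u ∉ B` the numbers `x + u y` of the common zeros are roots of a nonzero polynomial of degree `≤ Δ = 2 (dX b + natDegree b) (dX Q + natDegree Q)`. Two different `u, u' ∉ B` show that `x` and `y` are algebraic, and that the set of common zeros is finite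
(injective map `(x, y) ↦ (x + u y, x + u' y)` into a finite set). If it is finite, choose `u ∉ B` such that `(x, y) ↦ x + u y` is injective on it (finitely many bad `u`): at most `Δ` elements. -/
theorem zeros_fin (b Q : BP) (hb : Irreducible b) (hd : 1 ≤ b.natDegree) (hQ : Q ≠ 0) (h : ¬ b ∣ Q) :
    ∃ Z : Finset (ℂ × ℂ), (∀ ξ : ℂ × ℂ, ξ ∈ Z ↔ ev2 b ξ.1 ξ.2 = 0 ∧ ev2 Q ξ.1 ξ.2 = 0) ∧ Z.card ≤ 2 * (dX b + b.natDegree) * (dX Q + Q.natDegree) ∧
      ∀ ξ ∈ Z, IsAlgebraic ℚ ξ.1 ∧ IsAlgebraic ℚ ξ.2 := by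
  classical
  obtain ⟨B, -, hB⟩ := res_u b Q hb hd hQ h
  obtain ⟨u, hu⟩ := Infinite.exists_notMem_finset B
  obtain ⟨v, hv⟩ := Infinite.exists_notMem_finset (insert u B)
  rw [Finset.mem_insert, not_or] at hv
  have huv : u ≠ v := fun h => hv.1 h.symm
  obtain ⟨R, hR0, hR, -⟩ := hB u hu
  obtain ⟨R', hR0', hR', -⟩ := hB v hv.2
  obtain ⟨S, -, hS⟩ := a8_roots R hR0
  obtain ⟨S', -, hS'⟩ := a8_roots R' hR0'
  have hfin : {ξ : ℂ × ℂ | ev2 b ξ.1 ξ.2 = 0 ∧ ev2 Q ξ.1 ξ.2 = 0}.Finite := by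
    refine Set.Finite.of_injOn (f := fun ξ : ℂ × ℂ => (ξ.1 + u * ξ.2, ξ.1 + v * ξ.2))
      (t := ((S ×ˢ S' : Finset (ℂ × ℂ)) : Set (ℂ × ℂ))) ?_ ?_ (Finset.finite_toSet _)
    · rintro ⟨x, y⟩ ⟨h1, h2⟩
      rw [Finset.mem_coe, Finset.mem_product]
      exact ⟨hS _ (hR x y h1 h2), hS' _ (hR' x y h1 h2)⟩
    · rintro ⟨x, y⟩ - ⟨x', y'⟩ - h3
      simp only [Prod.mk.injEq] at h3 ⊢
      exact a8_two u v huv x y x' y' h3.1 h3.2
  have hmem : ∀ ξ : ℂ × ℂ, ξ ∈ hfin.toFinset ↔ ev2 b ξ.1 ξ.2 = 0 ∧ ev2 Q ξ.1 ξ.2 = 0 := by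
    intro ξ
    rw [Set.Finite.mem_toFinset]
    rfl
  refine ⟨hfin.toFinset, hmem, ?_, ?_⟩
  · let bad : Finset ℕ := (hfin.toFinset ×ˢ hfin.toFinset).image
      (fun p : (ℂ × ℂ) × (ℂ × ℂ) =>
        Classical.epsilon (fun w : ℕ => p.1.1 + (w : ℂ) * p.1.2 = p.2.1 + (w : ℂ) * p.2.2))
    obtain ⟨w, hw⟩ := Infinite.exists_notMem_finset (B ∪ bad)
    rw [Finset.mem_union, not_or] at hw
    obtain ⟨T, hT0, hT, -, hTd, -⟩ := hB w hw.1
    obtain ⟨U, hU1, hU⟩ := a8_roots T hT0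
    refine le_trans (Finset.card_le_card_of_injOn (fun ξ : ℂ × ℂ => ξ.1 + w * ξ.2) ?_ ?_)
      (hU1.trans hTd)
    · intro ξ hξ
      rw [Finset.mem_coe, hmem] at hξ
      exact hU _ (hT _ _ hξ.1 hξ.2)
    · intro ξ hξ ξ' hξ' h3
      by_contra hne
      have h3' : ξ.1 + w * ξ.2 = ξ'.1 + w * ξ'.2 := h3
      have h4 : ξ.1 + (Classical.epsilon fun w : ℕ => ξ.1 + (w : ℂ) * ξ.2 = ξ'.1 + (w : ℂ) * ξ'.2 : ℕ) * ξ.2 =
          ξ'.1 + (Classical.epsilon fun w : ℕ => ξ.1 + (w : ℂ) * ξ.2 = ξ'.1 + (w : ℂ) * ξ'.2 : ℕ) * ξ'.2 :=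
        Classical.epsilon_spec (p := fun w : ℕ => ξ.1 + w * ξ.2 = ξ'.1 + w * ξ'.2) ⟨w, h3'⟩
      have h5 : (Classical.epsilon fun w : ℕ => ξ.1 + (w : ℂ) * ξ.2 = ξ'.1 + (w : ℂ) * ξ'.2) ∈ bad :=
        Finset.mem_image.2 ⟨(ξ, ξ'), Finset.mem_product.2 ⟨hξ, hξ'⟩, rfl⟩
      have h6 : w ≠ (Classical.epsilon fun w : ℕ => ξ.1 + (w : ℂ) * ξ.2 = ξ'.1 + (w : ℂ) * ξ'.2) := by
        intro h7
        rw [← h7] at h5
        exact hw.2 h5
      obtain ⟨h8, h9⟩ := a8_two _ _ h6 ξ.1 ξ.2 ξ'.1 ξ'.2 h3' h4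
      exact hne (Prod.ext h8 h9)
  · intro ξ hξ
    rw [hmem] at hξ
    have h1 : IsAlgebraic ℚ (ξ.1 + u * ξ.2) := a8_alg R hR0 _ (hR _ _ hξ.1 hξ.2)
    have h2 : IsAlgebraic ℚ (ξ.1 + v * ξ.2) := a8_alg R' hR0' _ (hR' _ _ hξ.1 hξ.2)
    have h4 : (u : ℂ) - v ≠ 0 := by
      rw [sub_ne_zero]
      exact_mod_cast huv
    have hy : IsAlgebraic ℚ ξ.2 := by
      have h5 : ξ.2 = ((ξ.1 + u * ξ.2) - (ξ.1 + v * ξ.2)) * ((u : ℂ) - v)⁻¹ := by
        field_simp
        ring
      rw [h5]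
      exact (h1.sub h2).mul ((isAlgebraic_natCast u).sub (isAlgebraic_natCast v)).inv
    refine ⟨?_, hy⟩
    have h6 : ξ.1 = (ξ.1 + u * ξ.2) - u * ξ.2 := by ring
    rw [h6]
    exact h1.sub ((isAlgebraic_natCast u).mul hy)

end Pool.Agent.MSL
end

end
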