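import Mathlib
import Pool.Agent.Lib.MP_f58a57_nt.FK.K031

namespace Pool.Agent.MSD
end Pool.Agent.MSD
namespace Pool.Agent.MSP
end Pool.Agent.MSP

section

/-! # L/L1_Gauss: Gauss' lemma for a valuation -/

open Polynomial

noncomputable section

namespace Pool.Agent.MSL

/-- L1a. The maximum of the coefficients of `(X - r) p` is `max 1 |r|` times the maximum of the coefficients of `p`. PROOF (`p ≠ 0`). Let `m = max v(p_i) > 0`. If `v r ≤ 1` take the largest `k` with `v (p_k) = m`; the coefficient of `X^(k+1)` in `(X - r) p` is `p_k - r p_(k+1)` and `v (r p_(k+1)) < m`, so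
its value is `m = max 1 (v r) m`. If `v r > 1` take the smallest `k` with `v (p_k) = m`; the coefficient of `X^k` is `p_(k-1) - r p_k`, `v p_(k-1) < m < v (r p_k)` so its value is `v r m`. (`Valuation.map_sub_eq_of_lt_left` or similar.) -/
theorem gauss_step {K : Type*} [Field K] {Γ : Type*} [LinearOrderedCommGroupWithZero Γ] (v : Valuation K Γ) (p : Polynomial K) (m : Γ)
    (hm : ∀ i, v (p.coeff i) ≤ m) (k : ℕ) (hk : v (p.coeff k) = m) (r : K) : ∃ j, v (((X - C r) * p).coeff j) = max 1 (v r) * m ∧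
      ∀ i, v (((X - C r) * p).coeff i) ≤ max 1 (v r) * m := by
  classical
  have hM1 : m ≤ max 1 (v r) * m := by
    calc m = 1 * m := (one_mul m).symm
      _ ≤ max 1 (v r) * m := mul_le_mul_left (le_max_left _ _) m
  have hM2 : v r * m ≤ max 1 (v r) * m := mul_le_mul_left (le_max_right _ _) m
  have hr : ∀ i, v (r * p.coeff i) ≤ v r * m := by
    intro i
    rw [map_mul]
    exact mul_le_mul_right (hm i) (v r)
  have hc0 : ((X - C r) * p).coeff 0 = -(r * p.coeff 0) := by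
    rw [sub_mul, coeff_sub, coeff_X_mul_zero, coeff_C_mul, zero_sub]
  have hcs : ∀ i, ((X - C r) * p).coeff (i + 1) = p.coeff i - r * p.coeff (i + 1) := by
    intro i
    rw [sub_mul, coeff_sub, coeff_X_mul, coeff_C_mul]
  have hall : ∀ i, v (((X - C r) * p).coeff i) ≤ max 1 (v r) * m := by
    intro i
    cases i with
    | zero =>
      rw [hc0, Valuation.map_neg]
      exact (hr 0).trans hM2
    | succ i =>
      rw [hcs]
      refine (Valuation.map_sub v _ _).trans (max_le ?_ ?_)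
      · exact (hm i).trans hM1
      · exact (hr (i + 1)).trans hM2
  suffices hex0 : ∃ j, v (((X - C r) * p).coeff j) = max 1 (v r) * m by
    obtain ⟨j, hj⟩ := hex0
    exact ⟨j, hj, hall⟩
  rcases eq_or_ne m 0 with hm0 | hm0
  · refine ⟨0, ?_⟩
    have h1 := hall 0
    rw [hm0, mul_zero] at h1 ⊢
    exact le_antisymm h1 zero_le
  have hmpos : 0 < m := zero_lt_iff.mpr hm0
  rcases le_or_gt (v r) 1 with hr1 | hr1
  · -- the largest index
    rw [max_eq_left hr1, one_mul]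
    have hne : (p.support.filter (fun i => v (p.coeff i) = m)).Nonempty := by
      refine ⟨k, ?_⟩
      rw [Finset.mem_filter, mem_support_iff]
      refine ⟨fun h0 => ?_, hk⟩
      rw [h0, map_zero] at hk
      exact hm0 hk.symm
    set k0 := (p.support.filter (fun i => v (p.coeff i) = m)).max' hne with hk0
    have hk0m := Finset.max'_mem _ hne
    rw [← hk0, Finset.mem_filter] at hk0m
    have hlt : v (p.coeff (k0 + 1)) < m := by
      refine lt_of_le_of_ne (hm _) (fun heq => ?_)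
      have h2 : k0 + 1 ∈ p.support.filter (fun i => v (p.coeff i) = m) := by
        rw [Finset.mem_filter, mem_support_iff]
        refine ⟨fun h0 => ?_, heq⟩
        rw [h0, map_zero] at heq
        exact hm0 heq.symm
      have h3 := Finset.le_max' _ _ h2
      rw [← hk0] at h3
      omega
    refine ⟨k0 + 1, ?_⟩
    rw [hcs]
    have h4 : v (r * p.coeff (k0 + 1)) < v (p.coeff k0) := by
      rw [hk0m.2, map_mul]
      calc v r * v (p.coeff (k0 + 1)) ≤ 1 * v (p.coeff (k0 + 1)) := mul_le_mul_left hr1 _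
        _ = v (p.coeff (k0 + 1)) := one_mul _
        _ < m := hlt
    rw [Valuation.map_sub_eq_of_lt_left v h4, hk0m.2]
  · -- the smallest index
    rw [max_eq_right hr1.le]
    have hex : ∃ i, v (p.coeff i) = m := ⟨k, hk⟩
    have hs := Nat.find_spec hex
    refine ⟨Nat.find hex, ?_⟩
    rcases Nat.eq_zero_or_pos (Nat.find hex) with h0 | h0
    · rw [h0] at hs ⊢
      rw [hc0, Valuation.map_neg, map_mul, hs]
    · obtain ⟨i, hi⟩ : ∃ i, Nat.find hex = i + 1 := ⟨Nat.find hex - 1, by omega⟩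
      rw [hi] at hs ⊢
      have hlt : v (p.coeff i) < m := by
        refine lt_of_le_of_ne (hm _) (fun heq => ?_)
        have := Nat.find_min' hex heq
        omega
      have hvr : v (r * p.coeff (i + 1)) = v r * m := by rw [map_mul, hs]
      have h4 : v (p.coeff i) < v (r * p.coeff (i + 1)) := by
        rw [hvr]
        calc v (p.coeff i) < m := hlt
          _ = 1 * m := (one_mul m).symm
          _ ≤ v r * m := mul_le_mul_left hr1.le m
      rw [hcs, Valuation.map_sub_eq_of_lt_right v h4, hvr]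

/-- L1b. PROOF. Induction over the finite set: `C a * ∏ (X - C r)` has the maximal coefficient value `v a * ∏ max 1 (v r)` (L1a; `p = 0` if `a = 0`, trivial). -/
theorem gauss_val {K : Type*} [Field K] {Γ : Type*} [LinearOrderedCommGroupWithZero Γ] (v : Valuation K Γ) (a : K) (R : Finset K)
    (h : ∀ i, v ((C a * ∏ r ∈ R, (X - C r)).coeff i) ≤ 1) : v a * ∏ r ∈ R, max 1 (v r) ≤ 1 := by
  classical
  have key : ∀ R : Finset K, (∃ k, v ((C a * ∏ r ∈ R, (X - C r)).coeff k) =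
      v a * ∏ r ∈ R, max 1 (v r)) ∧
      ∀ i, v ((C a * ∏ r ∈ R, (X - C r)).coeff i) ≤ v a * ∏ r ∈ R, max 1 (v r) := by
    intro R
    induction R using Finset.induction_on with
    | empty =>
      rw [Finset.prod_empty, Finset.prod_empty, mul_one, mul_one]
      refine ⟨⟨0, by rw [coeff_C_zero]⟩, fun i => ?_⟩
      rw [coeff_C]
      split_ifs
      · exact le_rfl
      · rw [map_zero]
        exact zero_le
    | insert r R hr ih =>
      obtain ⟨⟨k, hk⟩, hall⟩ := ih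
      have h1 := gauss_step v (C a * ∏ r ∈ R, (X - C r)) (v a * ∏ r ∈ R, max 1 (v r)) hall k hk r
      have e1 : C a * ∏ r ∈ insert r R, (X - C r) = (X - C r) * (C a * ∏ r ∈ R, (X - C r)) := by
        rw [Finset.prod_insert hr]
        ring
      have e2 : v a * ∏ r ∈ insert r R, max 1 (v r) =
          max 1 (v r) * (v a * ∏ r ∈ R, max 1 (v r)) := by
        rw [Finset.prod_insert hr, mul_left_comm]
      rw [e1, e2]
      obtain ⟨j, hj, hj2⟩ := h1
      exact ⟨⟨j, hj⟩, hj2⟩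
  obtain ⟨⟨k, hk⟩, -⟩ := key R
  rw [← hk]
  exact h k

end Pool.Agent.MSL
end

end

section

/-! # L/A9_Sel: selection of the projection -/

open Polynomial

noncomputable section

namespace Pool.Agent.MSL

open MSD MSP

lemma a9_bad (a b : ℂ) (N u u' : ℕ) (hN : 1 ≤ N) (hu : u ≤ N) (huu : u ≠ u')
    (h : (2 * (N : ℝ) + 1) * ‖a + u * b‖ < max ‖a‖ ‖b‖) (h' : (2 * (N : ℝ) + 1) * ‖a + u' * b‖ < max ‖a‖ ‖b‖) : False := by
  set m : ℝ := max ‖a‖ ‖b‖ with hm
  have hN1 : (1 : ℝ) ≤ N := by exact_mod_cast hN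
  have h1 : ‖b‖ ≤ ‖a + u * b‖ + ‖a + u' * b‖ := by
    have h2 : ((u : ℂ) - u') * b = (a + u * b) - (a + u' * b) := by ring
    have h3 : (1 : ℝ) ≤ ‖(u : ℂ) - u'‖ := by
      have h4 : ((u : ℂ) - u') = (((u : ℤ) - (u' : ℤ) : ℤ) : ℂ) := by push_cast; ring
      rw [h4, Complex.norm_intCast]
      have h5 : ((u : ℤ) - (u' : ℤ)) ≠ 0 := by omega
      have h6 := Int.one_le_abs h5
      exact_mod_cast h6
    calc ‖b‖ ≤ ‖(u : ℂ) - u'‖ * ‖b‖ := le_mul_of_one_le_left (norm_nonneg _) h3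
      _ = ‖((u : ℂ) - u') * b‖ := (norm_mul _ _).symm
      _ ≤ _ := by rw [h2]; exact norm_sub_le _ _
  have h2 : ‖a‖ ≤ ‖a + u * b‖ + N * ‖b‖ := by
    have h3 : a = (a + u * b) - u * b := by ring
    calc ‖a‖ = ‖(a + u * b) - u * b‖ := by rw [← h3]
      _ ≤ ‖a + u * b‖ + ‖(u : ℂ) * b‖ := norm_sub_le _ _
      _ ≤ ‖a + u * b‖ + N * ‖b‖ := by
        rw [norm_mul, Complex.norm_natCast]
        have : (u : ℝ) ≤ N := by exact_mod_cast hu
        have := mul_le_mul_of_nonneg_right this (norm_nonneg b)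
        linarith
  have hb : (2 * (N : ℝ) + 1) * ‖b‖ < 2 * m := by nlinarith
  have hbm : ‖b‖ < m := by nlinarith [norm_nonneg b]
  have ham : ‖a‖ < m := by nlinarith [norm_nonneg b, norm_nonneg a]
  have : m < m := by
    conv_lhs => rw [hm]
    exact max_lt ham hbm
  exact lt_irrefl _ this

/-- A9. PROOF. Let `U` be the set of `u ≤ N`, `u ∉ B`; it has at least `N + 1 - card B > 2 card Z + 1` elements. (1) For `ξ ∈ Z` at most one `u ∈ U` is bad, i.e. `max ‖v₁‖ ‖v₂‖ > (2N + 1) ‖v₁ + u v₂‖` for `v = ξ - θ`: if `u ≠ u'` are bad, `m = max ‖v₁‖ ‖v₂‖ > 0`, then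
`‖v₂‖ ≤ ‖(u - u') v₂‖ < 2m/(2N+1) ≤ m`, `‖v₁‖ < m/(2N+1) + N · 2m/(2N+1) = m`: contradiction. (2) For `ξ ∈ Z` let `u_ξ ∈ U` minimise `hgt (ξ.1 + u ξ.2)` over `U` (`Finset.exists_min_image`). Choose `u ∈ U` which is not bad for any `ξ` and different from all `u_ξ`; `v = u_ξ`. -/
theorem sel (Z : Finset (ℂ × ℂ)) (θ₀ θ₁ : ℂ) (N : ℕ) (B : Finset ℕ) (h : B.card + 2 * Z.card + 2 ≤ N) :
    ∃ u : ℕ, u ≤ N ∧ u ∉ B ∧ (∀ ξ ∈ Z, ‖ξ.1 - θ₀‖ ≤ (2 * N + 1) * ‖ξ.1 + u * ξ.2 - (θ₀ + u * θ₁)‖ ∧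
      ‖ξ.2 - θ₁‖ ≤ (2 * N + 1) * ‖ξ.1 + u * ξ.2 - (θ₀ + u * θ₁)‖) ∧
      ∀ ξ ∈ Z, ∃ v : ℕ, v ≤ N ∧ v ∉ B ∧ v ≠ u ∧ hgt (ξ.1 + v * ξ.2) ≤ hgt (ξ.1 + u * ξ.2) := by
  classical
  set U : Finset ℕ := Finset.range (N + 1) \ B with hU
  have hUcard : N + 1 - B.card ≤ U.card := by
    have h1 := Finset.le_card_sdiff B (Finset.range (N + 1))
    rw [Finset.card_range] at h1
    exact h1
  have hUmem : ∀ u ∈ U, u ≤ N ∧ u ∉ B := by
    intro u hu
    rw [hU, Finset.mem_sdiff, Finset.mem_range] at hu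
    exact ⟨by omega, hu.2⟩
  have hUne : U.Nonempty := by
    rw [← Finset.card_pos]
    omega
  have hmin : ∀ ξ : ℂ × ℂ, ∃ v ∈ U, ∀ u ∈ U, hgt (ξ.1 + v * ξ.2) ≤ hgt (ξ.1 + u * ξ.2) := fun ξ =>
    Finset.exists_min_image U (fun u => hgt (ξ.1 + u * ξ.2)) hUne
  choose vm hvm1 hvm2 using hmin
  set bad : ℂ × ℂ → Finset ℕ := fun ξ => U.filter fun u =>
    ¬ (‖ξ.1 - θ₀‖ ≤ (2 * N + 1) * ‖ξ.1 + u * ξ.2 - (θ₀ + u * θ₁)‖ ∧
      ‖ξ.2 - θ₁‖ ≤ (2 * N + 1) * ‖ξ.1 + u * ξ.2 - (θ₀ + u * θ₁)‖) with hbad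
  have hbad1 : ∀ ξ u, u ∈ bad ξ → (2 * (N : ℝ) + 1) * ‖(ξ.1 - θ₀) + u * (ξ.2 - θ₁)‖ < max ‖ξ.1 - θ₀‖ ‖ξ.2 - θ₁‖ := by
    intro ξ u hu
    have h1 := (Finset.mem_filter.mp hu).2
    have h2 : (ξ.1 - θ₀) + u * (ξ.2 - θ₁) = ξ.1 + u * ξ.2 - (θ₀ + u * θ₁) := by ring
    rw [h2]
    rw [not_and_or, not_le, not_le] at h1
    rcases h1 with h1 | h1
    · exact lt_max_of_lt_left h1
    · exact lt_max_of_lt_right h1
  have hbadcard : ∀ ξ, (bad ξ).card ≤ 1 := by
    intro ξ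
    rw [Finset.card_le_one]
    intro u hu u' hu'
    by_contra hne
    exact a9_bad (ξ.1 - θ₀) (ξ.2 - θ₁) N u u' (by omega) (hUmem u (Finset.mem_filter.mp hu).1).1 hne
      (hbad1 ξ u hu) (hbad1 ξ u' hu')
  have hcard : (Z.biUnion bad ∪ Z.image vm).card < U.card := by
    have h1 : (Z.biUnion bad).card ≤ Z.card := by
      refine Finset.card_biUnion_le.trans ?_
      calc ∑ ξ ∈ Z, (bad ξ).card ≤ ∑ _ξ ∈ Z, 1 := Finset.sum_le_sum fun ξ _ => hbadcard ξ
        _ = Z.card := by simp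
    have h2 : (Z.image vm).card ≤ Z.card := Finset.card_image_le
    have h3 := Finset.card_union_le (Z.biUnion bad) (Z.image vm)
    omega
  obtain ⟨u, huU, hu⟩ := Finset.exists_mem_notMem_of_card_lt_card hcard
  rw [Finset.mem_union, not_or, Finset.mem_biUnion, Finset.mem_image] at hu
  refine ⟨u, (hUmem u huU).1, (hUmem u huU).2, ?_, ?_⟩
  · intro ξ hξ
    by_contra hcon
    exact hu.1 ⟨ξ, hξ, Finset.mem_filter.mpr ⟨huU, hcon⟩⟩
  · intro ξ hξ
    exact ⟨vm ξ, (hUmem _ (hvm1 ξ)).1, (hUmem _ (hvm1 ξ)).2, fun he => hu.2 ⟨ξ, hξ, he⟩, hvm2 ξ u huU⟩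

/-- A9b. PROOF. By definition of `mz`: an algebraic number is a root of a nonzero polynomial over `ℤ` (`IsAlgebraic` over `ℤ` and `ℚ` is the same: `IsFractionRing.isAlgebraic_iff`), so of one of its irreducible factors (`UniqueFactorizationMonoid`/`WfDvdMonoid.exists_factors`), which is not constant. -/
theorem mz_spec (α : ℂ) (hα : IsAlgebraic ℚ α) : Irreducible (mz α) ∧ 1 ≤ (mz α).natDegree ∧ aeval α (mz α) = 0 := by
  have hex : ∃ f : Polynomial ℤ, Irreducible f ∧ 1 ≤ f.natDegree ∧ Polynomial.aeval α f = 0 := by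
    obtain ⟨p, hp, hpα⟩ := (IsFractionRing.isAlgebraic_iff ℤ ℚ ℂ).mpr hα
    obtain ⟨F, hF, hass⟩ := WfDvdMonoid.exists_factors p hp
    have h1 : aeval α F.prod = 0 := by
      obtain ⟨c, hc⟩ := hass.symm
      rw [← hc, map_mul, hpα, zero_mul]
    rw [map_multiset_prod, Multiset.prod_eq_zero_iff, Multiset.mem_map] at h1
    obtain ⟨f, hf, hfα⟩ := h1
    refine ⟨f, hF f hf, ?_, hfα⟩
    by_contra hdeg
    have h2 : f = C (f.coeff 0) := eq_C_of_natDegree_eq_zero (by omega)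
    rw [h2, aeval_C] at hfα
    have h3 : f.coeff 0 = 0 := by
      have : ((f.coeff 0 : ℤ) : ℂ) = 0 := by simpa using hfα
      exact_mod_cast this
    rw [h3, C_0] at h2
    exact (hF f hf).ne_zero h2
  unfold mz
  rw [dif_pos hex]
  exact hex.choose_spec

/-- A9c. PROOF. Both are irreducible over `ℚ` (Gauss: `IsPrimitive.Int.irreducible_iff_irreducible_map_cast`) with a common root, so associated over `ℚ`; both primitive, so associated over `ℤ` (`IsPrimitive.Int.dvd_iff_map_cast_dvd_map_cast`). Units of `ℤ[X]` are `± 1`: same degree, same `MM`,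
same absolute values. (If `f` is given, `α` is algebraic, `mz_spec`.) -/
theorem mz_assoc (α : ℂ) (f : Polynomial ℤ) (hf : Irreducible f) (hd : 1 ≤ f.natDegree) (h : aeval α f = 0) :
    f.natDegree = (mz α).natDegree ∧ MM f = MM (mz α) ∧ ∀ y : ℂ, ‖aeval y f‖ = ‖aeval y (mz α)‖ := by
  have hαZ : IsAlgebraic ℤ α := ⟨f, hf.ne_zero, h⟩
  have hα : IsAlgebraic ℚ α := (IsFractionRing.isAlgebraic_iff ℤ ℚ ℂ).mp hαZ
  obtain ⟨hg, hgd, hgα⟩ := mz_spec α hα
  set g : Polynomial ℤ := mz α with hgdef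
  have hfp : f.IsPrimitive := hf.isPrimitive (by omega)
  have hgp : g.IsPrimitive := hg.isPrimitive (by omega)
  have hfQ := (IsPrimitive.Int.irreducible_iff_irreducible_map_cast hfp).mp hf
  have hα' : IsIntegral ℚ α := hα.isIntegral
  have hmap : ∀ p : Polynomial ℤ, aeval α (p.map (Int.castRingHom ℚ)) = aeval α p := by
    intro p
    exact aeval_map_algebraMap ℚ α p
  have h1 : minpoly ℚ α ∣ f.map (Int.castRingHom ℚ) := minpoly.dvd ℚ α (by rw [hmap]; exact h)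
  have h2 : minpoly ℚ α ∣ g.map (Int.castRingHom ℚ) := minpoly.dvd ℚ α (by rw [hmap]; exact hgα)
  have h3 : f.map (Int.castRingHom ℚ) ∣ g.map (Int.castRingHom ℚ) :=
    ((minpoly.irreducible hα').dvd_symm hfQ h1).trans h2
  have h4 : f ∣ g := (IsPrimitive.Int.dvd_iff_map_cast_dvd_map_cast f g hfp).mpr h3
  obtain ⟨c, hc⟩ := hf.associated_of_dvd hg h4
  obtain ⟨r, hr, hrc⟩ := Polynomial.isUnit_iff.mp c.isUnit
  have hg' : g = f * C r := by rw [← hc, ← hrc]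
  rcases Int.isUnit_iff.mp hr with h5 | h5
  · rw [hg', h5]
    simp
  · have h6 : g = -f := by
      rw [hg', h5]
      simp
    rw [h6]
    refine ⟨(natDegree_neg f).symm, ?_, fun y => ?_⟩
    · unfold MM
      rw [Polynomial.map_neg]
      have h7 : -(f.map (Int.castRingHom ℂ)) = C (-1) * f.map (Int.castRingHom ℂ) := by simp
      rw [h7, mahlerMeasure_mul, mahlerMeasure_const]
      simp
    · rw [map_neg, norm_neg]

end Pool.Agent.MSL
end

end

section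

/-! # L/L2_Gal: finite Galois extensions of `ℚ` in `ℂ` -/

open Polynomial

noncomputable section

namespace Pool.Agent.MSL

open MSD MSP

/-- L2a. PROOF. `ℚ(S)` (`IntermediateField.adjoin ℚ S`) is finite over `ℚ` (`IntermediateField.finiteDimensional_adjoin`, integral elements); take its normal closure in `ℂ` (`normalClosure ℚ (adjoin ℚ S) ℂ`, finite dimensional and normal as `ℂ` is algebraically closed; separable since the
characteristic is `0`; transport to an intermediate field of `ℂ/ℚ` by `restrictScalars`, if necessary), or `adjoin ℚ` of the root set in `ℂ` of the product of the minimal polynomials (`IntermediateField.isSplittingField_iff`, `IsGalois.of_separable_splitting_field`). -/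
theorem exists_L (S : Finset ℂ) (hS : ∀ x ∈ S, IsAlgebraic ℚ x) :
    ∃ L : IntermediateField ℚ ℂ, FiniteDimensional ℚ L ∧ IsGalois ℚ L ∧ ∀ x ∈ S, x ∈ L := by
  classical
  obtain ⟨p, hp⟩ : ∃ p : Polynomial ℚ, p = ∏ x ∈ S, minpoly ℚ x := ⟨_, rfl⟩
  have hp0 : p ≠ 0 := by
    rw [hp]
    exact Finset.prod_ne_zero_iff.2 fun x hx => minpoly.ne_zero (hS x hx).isIntegral
  have hsp : (p.map (algebraMap ℚ ℂ)).Splits := IsAlgClosed.splits _
  have hI : p.IsSplittingField ℚ (IntermediateField.adjoin ℚ (p.rootSet ℂ)) :=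
    IntermediateField.adjoin_rootSet_isSplittingField hsp
  refine ⟨IntermediateField.adjoin ℚ (p.rootSet ℂ), ?_, ?_, ?_⟩
  · exact Polynomial.IsSplittingField.finiteDimensional _ p
  · have h1 : FiniteDimensional ℚ (IntermediateField.adjoin ℚ (p.rootSet ℂ)) :=
      Polynomial.IsSplittingField.finiteDimensional _ p
    have h2 : Normal ℚ (IntermediateField.adjoin ℚ (p.rootSet ℂ)) := Normal.of_isSplittingField p
    exact { }
  · intro x hx
    refine IntermediateField.subset_adjoin _ _ ?_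
    rw [Polynomial.mem_rootSet]
    refine ⟨hp0, ?_⟩
    rw [hp, map_prod]
    exact Finset.prod_eq_zero hx (minpoly.aeval ℚ x)

variable (L : IntermediateField ℚ ℂ) [FiniteDimensional ℚ L] [IsGalois ℚ L]

/-- L2b. PROOF. `f = mz α` (`mz_spec`; every element of `L` is algebraic) is irreducible over `ℚ` with the root `α ∈ L`, `L` is normal: `f` splits over `L` with different roots (separable): `R` = set of the roots in `L`, `card R = natDegree f`. `G` acts transitively on `R`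
(`minpoly`, `IsGalois`/`Normal`: `exists_algHom_of_root..`, `IsConjRoot`, e.g. `isConjRoot_iff_exists_algEquiv`), so all fibres of `g ↦ g α` have the same number `s` of elements (translation by a group element), `card G = s card R`, and `∏ g, F (g α) = ∏ r ∈ R, F r ^ s` (`Finset.prod_fiberwise..`,
`Finset.prod_comp`). -/
theorem prod_gal (α : L) : ∃ (R : Finset L) (s : ℕ), 1 ≤ s ∧ R.card = (mz (α : ℂ)).natDegree ∧ s * R.card = Fintype.card (L ≃ₐ[ℚ] L) ∧
    (mz (α : ℂ)).map (algebraMap ℤ L) = C ((mz (α : ℂ)).leadingCoeff : L) * ∏ r ∈ R, (X - C r) ∧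
    (∀ g : L ≃ₐ[ℚ] L, g α ∈ R) ∧
    ∀ (M : Type) [CommMonoid M] (F : L → M), ∏ g : L ≃ₐ[ℚ] L, F (g α) = (∏ r ∈ R, F r) ^ s := by
  classical
  have hαi : IsIntegral ℚ α := IsIntegral.of_finite ℚ α
  have hαa : IsAlgebraic ℚ (α : ℂ) := by
    have : IsAlgebraic ℚ α := hαi.isAlgebraic
    exact this.algebraMap
  obtain ⟨hirr, hdeg, hroot⟩ := mz_spec (α : ℂ) hαa
  have hprim : (mz (α : ℂ)).IsPrimitive := hirr.isPrimitive (by omega)
  have hirrQ : Irreducible ((mz (α : ℂ)).map (algebraMap ℤ ℚ)) :=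
    (IsPrimitive.Int.irreducible_iff_irreducible_map_cast hprim).1 hirr
  have hrootQ : aeval α ((mz (α : ℂ)).map (algebraMap ℤ ℚ)) = 0 := by
    have h1 : (algebraMap L ℂ) (aeval α ((mz (α : ℂ)).map (algebraMap ℤ ℚ))) = 0 := by
      rw [Polynomial.aeval_map_algebraMap, ← Polynomial.aeval_algebraMap_apply]
      exact hroot
    exact (map_eq_zero (algebraMap L ℂ)).1 h1
  have hmin : (mz (α : ℂ)).map (algebraMap ℤ ℚ) =
      minpoly ℚ α * C ((mz (α : ℂ)).map (algebraMap ℤ ℚ)).leadingCoeff := by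
    have h1 := minpoly.eq_of_irreducible hirrQ hrootQ
    have h0 : ((mz (α : ℂ)).map (algebraMap ℤ ℚ)).leadingCoeff ≠ 0 :=
      leadingCoeff_ne_zero.2 hirrQ.ne_zero
    rw [← h1, mul_assoc, ← C_mul, inv_mul_cancel₀ h0, C_1, mul_one]
  have hlc : ((mz (α : ℂ)).map (algebraMap ℤ ℚ)).leadingCoeff = algebraMap ℤ ℚ (mz (α : ℂ)).leadingCoeff :=
    leadingCoeff_map_of_injective (RingHom.injective_int (algebraMap ℤ ℚ)) _
  have hnd : (minpoly ℚ α).natDegree = (mz (α : ℂ)).natDegree := by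
    have h1 : ((mz (α : ℂ)).map (algebraMap ℤ ℚ)).natDegree = (mz (α : ℂ)).natDegree :=
      natDegree_map_eq_of_injective (RingHom.injective_int (algebraMap ℤ ℚ)) _
    rw [← h1]
    conv_rhs => rw [hmin]
    rw [natDegree_mul_C]
    exact leadingCoeff_ne_zero.2 hirrQ.ne_zero
  have hsplit : ((minpoly ℚ α).map (algebraMap ℚ L)).Splits := IsGalois.splits ℚ α
  have hsep : (minpoly ℚ α).Separable := IsGalois.separable ℚ α
  have hnodup : ((minpoly ℚ α).map (algebraMap ℚ L)).roots.Nodup :=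
    nodup_roots (hsep.map)
  have hmon : ((minpoly ℚ α).map (algebraMap ℚ L)).Monic := (minpoly.monic hαi).map _
  have hprod : (minpoly ℚ α).map (algebraMap ℚ L) =
      ∏ r ∈ ((minpoly ℚ α).map (algebraMap ℚ L)).roots.toFinset, (X - C r) := by
    conv_lhs => rw [hsplit.eq_prod_roots_of_monic hmon]
    rw [Finset.prod_multiset_map_count]
    refine Finset.prod_congr rfl fun r hr => ?_
    rw [Multiset.count_eq_one_of_mem hnodup (Multiset.mem_toFinset.1 hr), pow_one]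
  have hmem : ∀ r : L, r ∈ ((minpoly ℚ α).map (algebraMap ℚ L)).roots.toFinset ↔ ∃ g : L ≃ₐ[ℚ] L, g α = r := by
    intro r
    rw [Multiset.mem_toFinset, mem_roots hmon.ne_zero, IsRoot.def, eval_map_algebraMap]
    have h1 : (∃ g : L ≃ₐ[ℚ] L, g α = r) ↔ IsConjRoot ℚ r α :=
      isConjRoot_iff_exists_algEquiv.symm
    rw [h1]
    constructor
    · intro h
      have h2 : minpoly ℚ α = minpoly ℚ r := minpoly.eq_of_irreducible_of_monic (minpoly.irreducible hαi) h (minpoly.monic hαi)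
      exact h2.symm
    · intro h
      have h2 : minpoly ℚ r = minpoly ℚ α := h
      rw [← h2]
      exact minpoly.aeval ℚ r
  have himg : (Finset.univ : Finset (L ≃ₐ[ℚ] L)).image (fun g => g α) =
      ((minpoly ℚ α).map (algebraMap ℚ L)).roots.toFinset := by
    ext r
    rw [hmem r, Finset.mem_image]
    simp
  have hfib : ∀ r ∈ ((minpoly ℚ α).map (algebraMap ℚ L)).roots.toFinset,
      (Finset.univ.filter fun g : L ≃ₐ[ℚ] L => g α = r).card = (Finset.univ.filter fun g : L ≃ₐ[ℚ] L => g α = α).card := by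
    intro r hr
    obtain ⟨h, hh⟩ := (hmem r).1 hr
    symm
    refine Finset.card_bij (fun g _ => h * g) ?_ ?_ ?_
    · intro g hg
      rw [Finset.mem_filter] at hg ⊢
      refine ⟨Finset.mem_univ _, ?_⟩
      rw [AlgEquiv.mul_apply, hg.2, hh]
    · intro g _ g' _ hgg
      exact mul_left_cancel hgg
    · intro g hg
      rw [Finset.mem_filter] at hg
      refine ⟨h⁻¹ * g, ?_, by group⟩
      rw [Finset.mem_filter]
      refine ⟨Finset.mem_univ _, ?_⟩
      rw [AlgEquiv.mul_apply, hg.2, ← hh]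
      exact AlgEquiv.symm_apply_apply h α
  have hpc : ∀ (M : Type) [CommMonoid M] (F : L → M), ∏ g : L ≃ₐ[ℚ] L, F (g α) =
      (∏ r ∈ ((minpoly ℚ α).map (algebraMap ℚ L)).roots.toFinset, F r) ^
        (Finset.univ.filter fun g : L ≃ₐ[ℚ] L => g α = α).card := by
    intro M _ F
    rw [Finset.prod_comp F (fun g : L ≃ₐ[ℚ] L => g α), himg, ← Finset.prod_pow]
    exact Finset.prod_congr rfl fun r hr => by rw [hfib r hr]
  refine ⟨((minpoly ℚ α).map (algebraMap ℚ L)).roots.toFinset,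
    (Finset.univ.filter fun g : L ≃ₐ[ℚ] L => g α = α).card, ?_, ?_, ?_, ?_, ?_, hpc⟩
  · exact Finset.card_pos.2 ⟨1, by simp⟩
  · rw [Multiset.toFinset_card_of_nodup hnodup, ← hsplit.natDegree_eq_card_roots, natDegree_map, hnd]
  · have h1 := Finset.card_eq_sum_card_image (fun g : L ≃ₐ[ℚ] L => g α) Finset.univ
    rw [himg] at h1
    rw [← Finset.card_univ, h1, Finset.sum_congr rfl hfib, Finset.sum_const, smul_eq_mul, mul_comm]
  · rw [← hprod]
    have h1 : (mz (α : ℂ)).map (algebraMap ℤ L) = ((mz (α : ℂ)).map (algebraMap ℤ ℚ)).map (algebraMap ℚ L) := by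
      rw [Polynomial.map_map]
      congr 1
    rw [h1, hmin, Polynomial.map_mul, Polynomial.map_C, mul_comm, hlc]
    congr 2
  · intro g
    exact (hmem _).2 ⟨g, rfl⟩

/-- L2c. PROOF. `x` is in the fixed field, so `x = algebraMap ℚ L y` (`IsGalois.mem_bot_iff_fixed`). For every height one prime of `𝓞 L` the valuation of `x` is `≤ 1` (its valuation `HeightOneSpectrum.valuation L` has values in `WithZero (Multiplicative ℤ)`), so `x ∈ 𝓞 L`
(`IsDedekindDomain.HeightOneSpectrum.mem_integers_of_valuation_le_one`; instance `NumberField L` from `CharZero` and `FiniteDimensional`), so `y` is integral over `ℤ`, so an integer (`IsIntegrallyClosed` of `ℤ`, `IsInteger`). -/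
theorem gal_int (x : L) (hx : ∀ g : L ≃ₐ[ℚ] L, g x = x) (hv : ∀ v : Valuation L VG, v x ≤ 1) : ∃ m : ℤ, x = m := by
  have hN : NumberField L := { }
  have hbot : x ∈ (⊥ : IntermediateField ℚ L) := (IsGalois.mem_bot_iff_fixed x).2 hx
  obtain ⟨y, hy⟩ := IntermediateField.mem_bot.1 hbot
  have hint : x ∈ (algebraMap (NumberField.RingOfIntegers L) L).range :=
    IsDedekindDomain.HeightOneSpectrum.mem_integers_of_valuation_le_one L x fun v => hv (v.valuation L)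
  obtain ⟨z, hz⟩ := hint
  have hxi : IsIntegral ℤ x := by
    rw [← hz]
    exact z.2
  have hyi : IsIntegral ℤ y := by
    rw [← hy] at hxi
    exact (isIntegral_algebraMap_iff (algebraMap ℚ L).injective).1 hxi
  obtain ⟨m, hm⟩ := IsIntegrallyClosed.isIntegral_iff.1 hyi
  refine ⟨m, ?_⟩
  rw [← hy, ← hm]
  simp

end Pool.Agent.MSL
end

end

section

/-! # L/L5_Arch: absolute values of polynomial values, roots and determinants -/

open Polynomial

noncomputable section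

namespace Pool.Agent.MSL

open MSD MSP

/-- L5a. PROOF. As `val_mv`: every monomial times `A^m` is at most `|coeff| c^m`. -/
theorem arch_mv {σ : Type*} (p : MvPolynomial σ ℤ) (m : ℕ) (hm : p.totalDegree ≤ m) (x : σ → ℂ) (A c : ℝ) (hA0 : 0 ≤ A)
    (hA : A ≤ c) (hx : ∀ i, A * ‖x i‖ ≤ c) : A ^ m * ‖MvPolynomial.aeval x p‖ ≤ mlen p * c ^ m := by
  have hc0 : 0 ≤ c := hA0.trans hA
  rw [MvPolynomial.aeval_def, MvPolynomial.eval₂_eq]
  unfold mlen
  rw [Finset.sum_mul]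
  refine (mul_le_mul_of_nonneg_left (norm_sum_le _ _) (pow_nonneg hA0 m)).trans ?_
  rw [Finset.mul_sum]
  refine Finset.sum_le_sum fun d hd => ?_
  have hdm : ∑ i ∈ d.support, d i ≤ m := by
    refine le_trans ?_ hm
    exact MvPolynomial.le_totalDegree hd
  have h1 : ‖(algebraMap ℤ ℂ) (p.coeff d)‖ = |((p.coeff d : ℤ) : ℝ)| := by
    simp
  rw [norm_mul, h1, norm_prod]
  have h2 : A ^ m * ∏ i ∈ d.support, ‖x i ^ d i‖ ≤ c ^ m := by
    have h3 : A ^ m = A ^ (m - ∑ i ∈ d.support, d i) * ∏ i ∈ d.support, A ^ d i := by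
      rw [Finset.prod_pow_eq_pow_sum, ← pow_add, Nat.sub_add_cancel hdm]
    have h4 : c ^ m = c ^ (m - ∑ i ∈ d.support, d i) * ∏ i ∈ d.support, c ^ d i := by
      rw [Finset.prod_pow_eq_pow_sum, ← pow_add, Nat.sub_add_cancel hdm]
    rw [h3, h4, mul_assoc, ← Finset.prod_mul_distrib]
    refine mul_le_mul (pow_le_pow_left₀ hA0 hA _) ?_ (Finset.prod_nonneg fun i _ => by positivity) (by positivity)
    refine Finset.prod_le_prod (fun i _ => by positivity) fun i _ => ?_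
    rw [norm_pow, ← mul_pow]
    exact pow_le_pow_left₀ (by positivity) (hx i) _
  calc A ^ m * (|((p.coeff d : ℤ) : ℝ)| * ∏ i ∈ d.support, ‖x i ^ d i‖)
      = |((p.coeff d : ℤ) : ℝ)| * (A ^ m * ∏ i ∈ d.support, ‖x i ^ d i‖) := by ring
    _ ≤ |((p.coeff d : ℤ) : ℝ)| * c ^ m := mul_le_mul_of_nonneg_left h2 (abs_nonneg _)

/-- the sum of the lengths of the coefficients -/
def lenF (F : FP) : ℝ := ∑ k ∈ F.support, mlen (F.coeff k)

/-- L5b. PROOF. As `val_root`: `‖F_k‖ ≤ mlen (F.coeff k) c^δ` (`arch_mv` with `A = 1`). If `‖lam‖ ≤ 1`: `‖a lam‖ ≤ ‖a‖`. Otherwise `‖a‖ ‖lam‖^n ≤ ∑_(k<n) ‖F_k‖ ‖lam‖^(n-1)`. -/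
theorem arch_root (F : FP) (δ : ℕ) (hδ : ∀ k, (F.coeff k).totalDegree ≤ δ) (x : Fin 2 → ℂ) (c : ℝ) (hc : 1 ≤ c)
    (hx : ∀ i, ‖x i‖ ≤ c) (lam : ℂ) (h : (spv x F).eval lam = 0) :
    ‖MvPolynomial.aeval x F.leadingCoeff‖ ≤ lenF F * c ^ δ ∧ ‖MvPolynomial.aeval x F.leadingCoeff‖ * ‖lam‖ ≤ lenF F * c ^ δ := by
  have hk : ∀ k, ‖MvPolynomial.aeval x (F.coeff k)‖ ≤ mlen (F.coeff k) * c ^ δ := by
    intro k
    have := arch_mv (F.coeff k) δ (hδ k) x 1 c zero_le_one hc (fun i => by rw [one_mul]; exact hx i)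
    rwa [one_pow, one_mul] at this
  have hc0 : (0 : ℝ) ≤ c ^ δ := by positivity
  have hsub : ∀ s : Finset ℕ, ∑ k ∈ s, ‖MvPolynomial.aeval x (F.coeff k)‖ ≤ lenF F * c ^ δ := by
    intro s
    have e1 : ∑ k ∈ s, ‖MvPolynomial.aeval x (F.coeff k)‖ =
        ∑ k ∈ s ∩ F.support, ‖MvPolynomial.aeval x (F.coeff k)‖ := by
      symm
      refine Finset.sum_subset Finset.inter_subset_left fun k hk1 hk2 => ?_
      have : k ∉ F.support := fun h3 => hk2 (Finset.mem_inter.2 ⟨hk1, h3⟩)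
      rw [Polynomial.notMem_support_iff.1 this, map_zero, norm_zero]
    rw [e1]
    unfold lenF
    rw [Finset.sum_mul]
    refine (Finset.sum_le_sum fun k _ => hk k).trans ?_
    refine Finset.sum_le_sum_of_subset_of_nonneg Finset.inter_subset_right fun k _ _ => ?_
    exact mul_nonneg (mlen_nonneg _) hc0
  have ha : ‖MvPolynomial.aeval x F.leadingCoeff‖ ≤ lenF F * c ^ δ := by
    have := hsub {F.natDegree}
    rwa [Finset.sum_singleton] at this
  refine ⟨ha, ?_⟩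
  rcases le_or_gt ‖lam‖ 1 with h1 | h1
  · exact (mul_le_of_le_one_right (norm_nonneg _) h1).trans ha
  · have hev : (spv x F).eval lam = ∑ k ∈ Finset.range (F.natDegree + 1), MvPolynomial.aeval x (F.coeff k) * lam ^ k := by
      unfold spv
      rw [Polynomial.eval_map, Polynomial.eval₂_eq_sum_range]
      rfl
    rw [hev, Finset.sum_range_succ] at h
    rcases Nat.eq_zero_or_pos F.natDegree with h0 | h0
    · rw [h0] at h
      simp only [Finset.range_zero, Finset.sum_empty, pow_zero, mul_one, zero_add] at h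
      have : MvPolynomial.aeval x F.leadingCoeff = 0 := by
        rw [Polynomial.leadingCoeff, h0, h]
      rw [this, norm_zero, zero_mul]
      exact le_trans (norm_nonneg _) ha
    · have hl0 : (0 : ℝ) < ‖lam‖ := by linarith
      have h2 : MvPolynomial.aeval x F.leadingCoeff * lam ^ F.natDegree =
          - ∑ k ∈ Finset.range F.natDegree, MvPolynomial.aeval x (F.coeff k) * lam ^ k :=
        eq_neg_of_add_eq_zero_right h
      have h3 : ‖MvPolynomial.aeval x F.leadingCoeff‖ * ‖lam‖ ^ F.natDegree ≤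
          (lenF F * c ^ δ) * ‖lam‖ ^ (F.natDegree - 1) := by
        rw [← norm_pow, ← norm_mul, h2, norm_neg]
        refine (norm_sum_le _ _).trans ?_
        refine le_trans ?_ (mul_le_mul_of_nonneg_right (hsub (Finset.range F.natDegree)) (by positivity))
        rw [Finset.sum_mul]
        refine Finset.sum_le_sum fun k hk1 => ?_
        rw [norm_mul, norm_pow]
        refine mul_le_mul_of_nonneg_left ?_ (norm_nonneg _)
        exact pow_le_pow_right₀ h1.le (by have := Finset.mem_range.1 hk1; omega)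
      have h4 : ‖lam‖ ^ F.natDegree = ‖lam‖ * ‖lam‖ ^ (F.natDegree - 1) := by
        rw [← pow_succ', Nat.sub_add_cancel h0]
      rw [h4, ← mul_assoc] at h3
      exact le_of_mul_le_mul_right h3 (by positivity)

/-- L5c. PROOF. Leibniz formula; `(card ι)! ≤ (card ι)^(card ι)`. -/
theorem arch_det {ι : Type} [Fintype ι] [DecidableEq ι] (M : Matrix ι ι ℂ) (B : ℝ) (h : ∀ i j, ‖M i j‖ ≤ B) :
    ‖M.det‖ ≤ (Fintype.card ι : ℝ) ^ Fintype.card ι * B ^ Fintype.card ι := by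
  have h1 := Matrix.det_le (A := M) (abv := NormedField.toAbsoluteValue ℂ) (x := B) (fun i j => h i j)
  have h2 : ‖M.det‖ ≤ (Fintype.card ι).factorial • B ^ Fintype.card ι := h1
  rw [nsmul_eq_mul] at h2
  refine h2.trans ?_
  have hB : 0 ≤ B ^ Fintype.card ι := by
    rcases isEmpty_or_nonempty ι with h3 | ⟨⟨i⟩⟩
    · rw [Fintype.card_eq_zero, pow_zero]; exact zero_le_one
    · exact pow_nonneg ((norm_nonneg _).trans (h i i)) _
  refine mul_le_mul_of_nonneg_right ?_ hB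
  exact_mod_cast Nat.factorial_le_pow _

/-- L5d. PROOF. `α - β = (u - w) x₁`, `|u - w| ≥ 1`: `‖x₁‖ ≤ ‖α‖ + ‖β‖ ≤ 2 C`, `‖x₀‖ ≤ ‖α‖ + u ‖x₁‖ ≤ (1 + 2u) C`, `C = max 1 ‖α‖ * max 1 ‖β‖`. -/
theorem arch_proj (x : Fin 2 → ℂ) (u w : ℕ) (h : u ≠ w) (i : Fin 2) :
    ‖x i‖ ≤ (2 * u + 2) * (max 1 ‖x 0 + u * x 1‖ * max 1 ‖x 0 + w * x 1‖) := by
  set C : ℝ := max 1 ‖x 0 + u * x 1‖ * max 1 ‖x 0 + w * x 1‖ with hC
  have a1 : (1 : ℝ) ≤ max 1 ‖x 0 + u * x 1‖ := le_max_left _ _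
  have a2 : (1 : ℝ) ≤ max 1 ‖x 0 + w * x 1‖ := le_max_left _ _
  have hC1 : 1 ≤ C := by rw [hC]; nlinarith
  have h1 : ‖x 0 + u * x 1‖ ≤ C := by
    rw [hC]
    refine (le_max_right 1 _).trans ?_
    exact le_mul_of_one_le_right (by linarith) a2
  have h2 : ‖x 0 + w * x 1‖ ≤ C := by
    rw [hC]
    refine (le_max_right 1 _).trans ?_
    exact le_mul_of_one_le_left (by linarith) a1
  have h3 : ‖x 1‖ ≤ 2 * C := by
    have e1 : (((u : ℤ) - (w : ℤ) : ℤ) : ℂ) * x 1 = (x 0 + u * x 1) - (x 0 + w * x 1) := by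
      push_cast; ring
    have e2 : (1 : ℝ) ≤ ‖(((u : ℤ) - (w : ℤ) : ℤ) : ℂ)‖ := by
      rw [Complex.norm_intCast]
      have : 1 ≤ |(u : ℤ) - (w : ℤ)| := Int.one_le_abs (by omega)
      exact_mod_cast this
    calc ‖x 1‖ ≤ ‖(((u : ℤ) - (w : ℤ) : ℤ) : ℂ)‖ * ‖x 1‖ := le_mul_of_one_le_left (norm_nonneg _) e2
      _ = ‖(x 0 + u * x 1) - (x 0 + w * x 1)‖ := by rw [← norm_mul, e1]
      _ ≤ ‖x 0 + u * x 1‖ + ‖x 0 + w * x 1‖ := norm_sub_le _ _
      _ ≤ 2 * C := by linarith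
  have hu0 : (0 : ℝ) ≤ u := Nat.cast_nonneg u
  fin_cases i
  · show ‖x 0‖ ≤ _
    have e3 : x 0 = (x 0 + u * x 1) - u * x 1 := by ring
    calc ‖x 0‖ = ‖(x 0 + u * x 1) - u * x 1‖ := by rw [← e3]
      _ ≤ ‖x 0 + u * x 1‖ + ‖(u : ℂ) * x 1‖ := norm_sub_le _ _
      _ ≤ C + u * (2 * C) := by
          rw [norm_mul, Complex.norm_natCast]
          exact add_le_add h1 (mul_le_mul_of_nonneg_left h3 hu0)
      _ ≤ (2 * u + 2) * C := by nlinarith
  · show ‖x 1‖ ≤ _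
    refine h3.trans ?_
    exact mul_le_mul_of_nonneg_right (by linarith) (by linarith)

end Pool.Agent.MSL
end

end

section

/-! # L/L3_Liou: Liouville's inequality -/

open Polynomial

noncomputable section

namespace Pool.Agent.MSL

open MSD MSP

variable (L : IntermediateField ℚ ℂ) [FiniteDimensional ℚ L] [IsGalois ℚ L]

/-- L3a. PROOF. `v 1 = 1`, `v (a + b) ≤ max`, induction on natural numbers, `v (-a) = v a`. -/
theorem val_int (v : Valuation L VG) (n : ℤ) : v (n : L) ≤ 1 := by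
  have hnat : ∀ m : ℕ, v (m : L) ≤ 1 := by
    intro m
    induction m with
    | zero => rw [Nat.cast_zero, map_zero]; exact zero_le_one
    | succ m ih =>
      rw [Nat.cast_succ]
      refine (v.map_add _ _).trans (max_le ih ?_)
      rw [map_one]
  obtain ⟨m, rfl | rfl⟩ := n.eq_nat_or_neg
  · rw [Int.cast_natCast]; exact hnat m
  · rw [Int.cast_neg, Valuation.map_neg, Int.cast_natCast]; exact hnat m

theorem l3_MM (α : L) (R : Finset L)
    (h : (mz (α : ℂ)).map (algebraMap ℤ L) = C ((mz (α : ℂ)).leadingCoeff : L) * ∏ r ∈ R, (X - C r)) :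
    MM (mz (α : ℂ)) = |((mz (α : ℂ)).leadingCoeff : ℝ)| * ∏ r ∈ R, max 1 ‖(r : ℂ)‖ := by
  have h1 : (mz (α : ℂ)).map (Int.castRingHom ℂ) =
      C ((mz (α : ℂ)).leadingCoeff : ℂ) * ∏ r ∈ R, (X - C (r : ℂ)) := by
    have e1 : (mz (α : ℂ)).map (Int.castRingHom ℂ) = ((mz (α : ℂ)).map (algebraMap ℤ L)).map (algebraMap L ℂ) := by
      rw [Polynomial.map_map]
      congr 1
    rw [e1, h, Polynomial.map_mul, Polynomial.map_C, Polynomial.map_prod, map_intCast]
    congr 1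
    refine Finset.prod_congr rfl fun r _ => ?_
    rw [Polynomial.map_sub, Polynomial.map_X, Polynomial.map_C]
    rfl
  unfold MM
  rw [h1, Polynomial.mahlerMeasure_mul, Polynomial.mahlerMeasure_const, Complex.norm_intCast]
  congr 1
  clear h h1
  classical
  induction R using Finset.induction_on with
  | empty => simp
  | insert a s ha ih =>
    rw [Finset.prod_insert ha, Finset.prod_insert ha, Polynomial.mahlerMeasure_mul, ih, Polynomial.mahlerMeasure_X_sub_C]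

theorem l3_alg (α : L) : IsAlgebraic ℚ (α : ℂ) := by
  have h1 : IsAlgebraic ℚ α := Algebra.IsAlgebraic.isAlgebraic α
  exact h1.algebraMap

theorem l3_lc (α : L) : (mz (α : ℂ)).leadingCoeff ≠ 0 := by
  have := (mz_spec (α : ℂ) (l3_alg L α)).1.ne_zero
  exact Polynomial.leadingCoeff_ne_zero.2 this

theorem l3_eq (α : L) (R : Finset L) (s : ℕ) (hR : R.card = (mz (α : ℂ)).natDegree)
    (hs : s * R.card = Fintype.card (L ≃ₐ[ℚ] L))
    (h : (mz (α : ℂ)).map (algebraMap ℤ L) = C ((mz (α : ℂ)).leadingCoeff : L) * ∏ r ∈ R, (X - C r))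
    (hF : ∀ (M : Type) [CommMonoid M] (F : L → M), ∏ g : L ≃ₐ[ℚ] L, F (g α) = (∏ r ∈ R, F r) ^ s) :
    ∑ g : L ≃ₐ[ℚ] L, Real.log (max 1 ‖((g α : L) : ℂ)‖) + s * Real.log |((mz (α : ℂ)).leadingCoeff : ℝ)| =
      Fintype.card (L ≃ₐ[ℚ] L) * hgt (α : ℂ) := by
  have hpos : ∀ r : L, (0 : ℝ) < max 1 ‖(r : ℂ)‖ := fun r => lt_of_lt_of_le one_pos (le_max_left _ _)
  have hlc : (0 : ℝ) < |((mz (α : ℂ)).leadingCoeff : ℝ)| := by
    have := l3_lc L α
    positivity
  have h1 : ∑ g : L ≃ₐ[ℚ] L, Real.log (max 1 ‖((g α : L) : ℂ)‖) =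
      s * Real.log (∏ r ∈ R, max 1 ‖(r : ℂ)‖) := by
    rw [← Real.log_prod (fun g _ => (hpos _).ne'), ← Real.log_pow]
    congr 1
    exact hF ℝ (fun r : L => max 1 ‖(r : ℂ)‖)
  have h2 : Real.log (MM (mz (α : ℂ))) = Real.log |((mz (α : ℂ)).leadingCoeff : ℝ)| +
      Real.log (∏ r ∈ R, max 1 ‖(r : ℂ)‖) := by
    rw [l3_MM L α R h, Real.log_mul hlc.ne' (Finset.prod_pos fun r _ => hpos r).ne']
  have h3 : ((mz (α : ℂ)).natDegree : ℝ) ≠ 0 := by
    have := (mz_spec (α : ℂ) (l3_alg L α)).2.1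
    positivity
  have h4 : (Fintype.card (L ≃ₐ[ℚ] L) : ℝ) = s * (mz (α : ℂ)).natDegree := by
    rw [← hs, hR]; push_cast; ring
  unfold hgt
  rw [h1, h4, h2]
  field_simp
  ring

/-- L3b. PROOF. `prod_gal` for `α` and `F x = max 1 ‖x‖` (into `ℝ`): `∏_g max 1 ‖g α‖ = (∏_R max 1 ‖r‖)^s`, and `MM (mz α) = |lc| ∏_R max 1 ‖r‖ ≥ ∏_R max 1 ‖r‖` (`mahlerMeasure_eq_leadingCoeff_mul_prod_roots`; the complex roots of `mz α` are the images of `R`). So
`∑_g log max 1 ‖g α‖ ≤ s log MM = card G · hgt α` (`s natDegree = card G`). -/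
theorem sum_log_max (α : L) : ∑ g : L ≃ₐ[ℚ] L, Real.log (max 1 ‖((g α : L) : ℂ)‖) ≤ Fintype.card (L ≃ₐ[ℚ] L) * hgt (α : ℂ) := by
  obtain ⟨R, s, _, hR, hsR, hm, _, hF⟩ := prod_gal L α
  rw [← l3_eq L α R s hR hsR hm hF]
  have h1 : 0 ≤ Real.log |((mz (α : ℂ)).leadingCoeff : ℝ)| := by
    refine Real.log_nonneg ?_
    have : 1 ≤ |(mz (α : ℂ)).leadingCoeff| := Int.one_le_abs (l3_lc L α)
    exact_mod_cast this
  have : 0 ≤ (s : ℝ) * Real.log |((mz (α : ℂ)).leadingCoeff : ℝ)| := by positivity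
  linarith

theorem l3_val (v : Valuation L VG) (α : L) (R : Finset L) (s : ℕ)
    (h : (mz (α : ℂ)).map (algebraMap ℤ L) = C ((mz (α : ℂ)).leadingCoeff : L) * ∏ r ∈ R, (X - C r))
    (hF : ∀ (M : Type) [CommMonoid M] (F : L → M), ∏ g : L ≃ₐ[ℚ] L, F (g α) = (∏ r ∈ R, F r) ^ s) :
    v ((mz (α : ℂ)).leadingCoeff : L) ^ s * ∏ g : L ≃ₐ[ℚ] L, max 1 (v (g α)) ≤ 1 := by
  have h1 : ∏ g : L ≃ₐ[ℚ] L, max 1 (v (g α)) = (∏ r ∈ R, max 1 (v r)) ^ s :=
    hF VG (fun r : L => max 1 (v r))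
  rw [h1, ← mul_pow]
  refine pow_le_one' ?_ s
  refine gauss_val v _ R fun i => ?_
  rw [← h, Polynomial.coeff_map]
  have : algebraMap ℤ L ((mz (α : ℂ)).coeff i) = (((mz (α : ℂ)).coeff i : ℤ) : L) := by simp
  rw [this]
  exact val_int L v _

/-- L3c. PROOF. `f₀ = mz α`, `f₁ = mz β` with leading coefficients `a₀, a₁`, `R₀, s₀`, `R₁, s₁` from `prod_gal`, `G = card`. `x = (q^D)^G (a₀^s₀ a₁^s₁)^D ∏_g g γ ∈ L` is fixed by the Galois group. For a valuation `v` and an automorphism `g` the hypothesis for the valuation `v ∘ g` (`Valuation.comap`)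
says `v (q^D g γ) ≤ (max 1 (v (g α)) max 1 (v (g β)))^D`; so `v x ≤ (v a₀^s₀ ∏_g max 1 (v (g α)))^D (..)^D ≤ 1` as `∏_g max 1 (v (g α)) = (∏_(R₀) max 1 (v r))^s₀` (`prod_gal`, `M = VG`) and `v a₀ ∏_(R₀) max 1 (v r) ≤ 1` (`gauss_val`, the coefficients are integers: `val_int`). By `gal_int` `x` is an integer,
not `0`, so `0 ≤ log ‖x‖ = ∑_g log ‖g γ‖ + D (G log |q| + s₀ log |a₀| + s₁ log |a₁|)`. For `g ∉ N`: `log ‖g γ‖ ≤ log H + D (log max 1 ‖g α‖ + log max 1 ‖g β‖)` (`g γ ≠ 0`). Sum; the bound is increased if we sum over all `g`; `∑_g log max 1 ‖g α‖ + s₀ log |a₀| = s₀ log MM f₀ = G hgt α`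
(as in L3b: equality `MM f₀ = |a₀| ∏_(R₀) max 1 ‖r‖`). -/
theorem liou (α β γ : L) (q : ℤ) (hq : q ≠ 0) (D : ℕ) (H : ℝ) (hH : 1 ≤ H) (hγ : γ ≠ 0)
    (hv : ∀ v : Valuation L VG, v ((q : L) ^ D * γ) ≤ (max 1 (v α) * max 1 (v β)) ^ D)
    (ha : ∀ g : L ≃ₐ[ℚ] L, ‖((g γ : L) : ℂ)‖ ≤ H * (max 1 ‖((g α : L) : ℂ)‖ * max 1 ‖((g β : L) : ℂ)‖) ^ D) (N : Finset (L ≃ₐ[ℚ] L)) :
    -((Fintype.card (L ≃ₐ[ℚ] L) : ℝ) * (Real.log H + D * (Real.log |(q : ℝ)| + hgt (α : ℂ) + hgt (β : ℂ)))) ≤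
      ∑ g ∈ N, Real.log ‖((g γ : L) : ℂ)‖ := by
  classical
  obtain ⟨R₀, s₀, _, hR0, hsR0, hm0, _, hF0⟩ := prod_gal L α
  obtain ⟨R₁, s₁, _, hR1, hsR1, hm1, _, hF1⟩ := prod_gal L β
  set a₀ : ℤ := (mz (α : ℂ)).leadingCoeff with ha0
  set a₁ : ℤ := (mz (β : ℂ)).leadingCoeff with ha1
  have ha0n : a₀ ≠ 0 := l3_lc L α
  have ha1n : a₁ ≠ 0 := l3_lc L β
  set G : ℕ := Fintype.card (L ≃ₐ[ℚ] L) with hG
  set x : L := ((q : L) ^ D) ^ G * ((a₀ : L) ^ s₀ * (a₁ : L) ^ s₁) ^ D * ∏ g : L ≃ₐ[ℚ] L, g γ with hx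
  have hqL : (q : L) ≠ 0 := Int.cast_ne_zero.2 hq
  have hγg : ∀ g : L ≃ₐ[ℚ] L, g γ ≠ 0 := fun g => by simpa using hγ
  have hfix : ∀ g : L ≃ₐ[ℚ] L, g x = x := by
    intro g
    rw [hx, map_mul, map_mul, map_pow, map_pow, map_pow, map_mul, map_pow, map_pow, map_intCast, map_intCast, map_intCast,
      map_prod]
    congr 1
    exact Fintype.prod_equiv (Equiv.mulLeft g) _ _ fun k => rfl
  have hval : ∀ v : Valuation L VG, v x ≤ 1 := by
    intro v
    have h1 : ∀ g : L ≃ₐ[ℚ] L, v ((q : L) ^ D * g γ) ≤ (max 1 (v (g α)) * max 1 (v (g β))) ^ D := by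
      intro g
      have := hv (v.comap (g : L →+* L))
      simpa only [Valuation.comap_apply, map_mul, map_pow, RingHom.coe_coe, map_intCast] using this
    have h2 : ∏ g : L ≃ₐ[ℚ] L, v ((q : L) ^ D * g γ) ≤
        ((∏ g : L ≃ₐ[ℚ] L, max 1 (v (g α))) * (∏ g : L ≃ₐ[ℚ] L, max 1 (v (g β)))) ^ D := by
      refine (Finset.prod_le_prod' fun g _ => h1 g).trans ?_
      rw [Finset.prod_pow, Finset.prod_mul_distrib]
    have h3 : v x = (v (a₀ : L) ^ s₀ * v (a₁ : L) ^ s₁) ^ D * ∏ g : L ≃ₐ[ℚ] L, v ((q : L) ^ D * g γ) := by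
      rw [hx]
      simp only [map_mul, map_pow, map_prod]
      rw [Finset.prod_mul_distrib, Finset.prod_const, Finset.card_univ, ← hG, mul_assoc, mul_left_comm]
    rw [h3]
    have h4 := l3_val L v α R₀ s₀ hm0 hF0
    have h5 := l3_val L v β R₁ s₁ hm1 hF1
    calc (v (a₀ : L) ^ s₀ * v (a₁ : L) ^ s₁) ^ D * ∏ g : L ≃ₐ[ℚ] L, v ((q : L) ^ D * g γ)
        ≤ (v (a₀ : L) ^ s₀ * v (a₁ : L) ^ s₁) ^ D *
          ((∏ g : L ≃ₐ[ℚ] L, max 1 (v (g α))) * (∏ g : L ≃ₐ[ℚ] L, max 1 (v (g β)))) ^ D :=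
          mul_le_mul_right h2 _
      _ = ((v (a₀ : L) ^ s₀ * ∏ g : L ≃ₐ[ℚ] L, max 1 (v (g α))) *
          (v (a₁ : L) ^ s₁ * ∏ g : L ≃ₐ[ℚ] L, max 1 (v (g β)))) ^ D := by
          rw [← mul_pow]
          congr 1
          exact mul_mul_mul_comm _ _ _ _
      _ ≤ 1 := pow_le_one' (mul_le_one' h4 h5) D
  obtain ⟨m, hm⟩ := gal_int L x hfix hval
  have hx0 : x ≠ 0 := by
    rw [hx]
    have e1 : (a₀ : L) ≠ 0 := Int.cast_ne_zero.2 ha0n
    have e2 : (a₁ : L) ≠ 0 := Int.cast_ne_zero.2 ha1n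
    have e3 : ∏ g : L ≃ₐ[ℚ] L, g γ ≠ 0 := Finset.prod_ne_zero_iff.2 fun g _ => hγg g
    exact mul_ne_zero (mul_ne_zero (pow_ne_zero _ (pow_ne_zero _ hqL))
      (pow_ne_zero _ (mul_ne_zero (pow_ne_zero _ e1) (pow_ne_zero _ e2)))) e3
  have hm0' : m ≠ 0 := by
    rintro rfl
    exact hx0 (by rw [hm, Int.cast_zero])
  have hpos : ∀ r : L, (0 : ℝ) < max 1 ‖(r : ℂ)‖ := fun r => lt_of_lt_of_le one_pos (le_max_left _ _)
  have hlog : 0 ≤ Real.log ‖(x : ℂ)‖ := by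
    refine Real.log_nonneg ?_
    have e1 : (x : ℂ) = (m : ℂ) := by rw [hm]; simp
    rw [e1, Complex.norm_intCast]
    have : 1 ≤ |m| := Int.one_le_abs hm0'
    exact_mod_cast this
  have hsplit : Real.log ‖(x : ℂ)‖ = ∑ g : L ≃ₐ[ℚ] L, Real.log ‖((g γ : L) : ℂ)‖ +
      D * (G * Real.log |(q : ℝ)| + s₀ * Real.log |(a₀ : ℝ)| + s₁ * Real.log |(a₁ : ℝ)|) := by
    have e1 : ‖(x : ℂ)‖ = (|(q : ℝ)| ^ D) ^ G * (|(a₀ : ℝ)| ^ s₀ * |(a₁ : ℝ)| ^ s₁) ^ D *
        ∏ g : L ≃ₐ[ℚ] L, ‖((g γ : L) : ℂ)‖ := by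
      have e2 : (x : ℂ) = ((q : ℂ) ^ D) ^ G * ((a₀ : ℂ) ^ s₀ * (a₁ : ℂ) ^ s₁) ^ D *
          ∏ g : L ≃ₐ[ℚ] L, ((g γ : L) : ℂ) := by
        rw [hx]
        push_cast
        rfl
      rw [e2]
      simp only [norm_mul, norm_pow, Complex.norm_intCast, norm_prod]
    have p1 : (0 : ℝ) < |(q : ℝ)| := abs_pos.2 (Int.cast_ne_zero.2 hq)
    have p2 : (0 : ℝ) < |(a₀ : ℝ)| := abs_pos.2 (Int.cast_ne_zero.2 ha0n)
    have p3 : (0 : ℝ) < |(a₁ : ℝ)| := abs_pos.2 (Int.cast_ne_zero.2 ha1n)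
    have p4 : ∀ g : L ≃ₐ[ℚ] L, ‖((g γ : L) : ℂ)‖ ≠ 0 := by
      intro g
      rw [norm_ne_zero_iff]
      intro h
      exact hγg g (Subtype.ext h)
    rw [e1, Real.log_mul (by positivity) (Finset.prod_ne_zero_iff.2 fun g _ => p4 g), Real.log_mul (by positivity) (by positivity),
      Real.log_pow, Real.log_pow, Real.log_pow, Real.log_mul (by positivity) (by positivity), Real.log_pow, Real.log_pow,
      Real.log_prod (fun g _ => p4 g)]
    ring
  have hup : ∀ g : L ≃ₐ[ℚ] L, Real.log ‖((g γ : L) : ℂ)‖ ≤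
      Real.log H + D * (Real.log (max 1 ‖((g α : L) : ℂ)‖) + Real.log (max 1 ‖((g β : L) : ℂ)‖)) := by
    intro g
    have p4 : 0 < ‖((g γ : L) : ℂ)‖ := by
      rw [norm_pos_iff]
      intro h
      exact hγg g (Subtype.ext h)
    have p5 : (0 : ℝ) < H := by linarith
    refine (Real.log_le_log p4 (ha g)).trans (le_of_eq ?_)
    have p6 := hpos (g α)
    have p7 := hpos (g β)
    rw [Real.log_mul p5.ne' (pow_pos (mul_pos p6 p7) D).ne', Real.log_pow, Real.log_mul p6.ne' p7.ne']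
  have hup0 : ∀ g : L ≃ₐ[ℚ] L, 0 ≤
      Real.log H + D * (Real.log (max 1 ‖((g α : L) : ℂ)‖) + Real.log (max 1 ‖((g β : L) : ℂ)‖)) := by
    intro g
    have e1 := Real.log_nonneg hH
    have e2 : 0 ≤ Real.log (max 1 ‖((g α : L) : ℂ)‖) := Real.log_nonneg (le_max_left _ _)
    have e3 : 0 ≤ Real.log (max 1 ‖((g β : L) : ℂ)‖) := Real.log_nonneg (le_max_left _ _)
    positivity
  have hcompl : ∑ g ∈ Nᶜ, Real.log ‖((g γ : L) : ℂ)‖ ≤
      ∑ g : L ≃ₐ[ℚ] L, (Real.log H + D * (Real.log (max 1 ‖((g α : L) : ℂ)‖) + Real.log (max 1 ‖((g β : L) : ℂ)‖))) :=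
    (Finset.sum_le_sum fun g _ => hup g).trans
      (Finset.sum_le_sum_of_subset_of_nonneg (Finset.subset_univ _) fun g _ _ => hup0 g)
  have hsum := Finset.sum_add_sum_compl N (fun g => Real.log ‖((g γ : L) : ℂ)‖)
  have hα := l3_eq L α R₀ s₀ hR0 hsR0 hm0 hF0
  have hβ := l3_eq L β R₁ s₁ hR1 hsR1 hm1 hF1
  rw [← ha0, ← hG] at hα
  rw [← ha1, ← hG] at hβ
  have htot : ∑ g : L ≃ₐ[ℚ] L, (Real.log H + D * (Real.log (max 1 ‖((g α : L) : ℂ)‖) + Real.log (max 1 ‖((g β : L) : ℂ)‖))) =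
      G * Real.log H + D * (∑ g : L ≃ₐ[ℚ] L, Real.log (max 1 ‖((g α : L) : ℂ)‖) +
        ∑ g : L ≃ₐ[ℚ] L, Real.log (max 1 ‖((g β : L) : ℂ)‖)) := by
    rw [Finset.sum_add_distrib, Finset.sum_const, Finset.card_univ, ← hG, nsmul_eq_mul, ← Finset.mul_sum, Finset.sum_add_distrib]
  rw [htot] at hcompl
  have hD : (D : ℝ) * (G * hgt (α : ℂ)) = D * (∑ g : L ≃ₐ[ℚ] L, Real.log (max 1 ‖((g α : L) : ℂ)‖) + s₀ * Real.log |(a₀ : ℝ)|) := by
    rw [hα]
  have hD' : (D : ℝ) * (G * hgt (β : ℂ)) = D * (∑ g : L ≃ₐ[ℚ] L, Real.log (max 1 ‖((g β : L) : ℂ)‖) + s₁ * Real.log |(a₁ : ℝ)|) := by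
    rw [hβ]
  nlinarith [hlog, hsplit, hcompl, hsum, hD, hD']

end Pool.Agent.MSL
end

end
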