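import Mathlib
import Pool.Agent.Lib.MP_f58a57_nt.FK.K032
import Pool.Agent.Lib.MP_f58a57_nt.FK.K033

namespace Pool.Agent.MSD
end Pool.Agent.MSD
namespace Pool.Agent.MSK
end Pool.Agent.MSK
namespace Pool.Agent.MSP
end Pool.Agent.MSP

section

/-! # L/A4_Factor: an irreducible factor with a small value -/

open Polynomial

noncomputable section

namespace Pool.Agent.MSL

open MSD MSP

theorem a4_len2_neg (p : BP) : len2 (-p) = len2 p := by
  unfold len2
  rw [support_neg]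
  apply Finset.sum_congr rfl
  intro j _
  rw [coeff_neg, len_neg]

theorem a4_dX_neg (p : BP) : dX (-p) = dX p := by
  unfold dX
  rw [support_neg]
  apply Finset.sup_congr rfl
  intro j _
  rw [coeff_neg, natDegree_neg]

theorem a4_unit (u : BP) (hu : IsUnit u) : u = 1 ∨ u = -1 := by
  rw [Polynomial.isUnit_iff] at hu
  obtain ⟨r, hr, rfl⟩ := hu
  rw [Polynomial.isUnit_iff] at hr
  obtain ⟨m, hm, rfl⟩ := hr
  rcases Int.isUnit_iff.1 hm with rfl | rfl
  · left; simp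
  · right; simp

theorem a4_const (b : BP) (h : dX b + b.natDegree = 0) : ∃ m : ℤ, b = C (C m) := by
  have h1 : b.natDegree = 0 := by omega
  have h2 : dX b = 0 := by omega
  have h3 := natDegree_coeff_le b 0
  rw [h2] at h3
  refine ⟨(b.coeff 0).coeff 0, ?_⟩
  rw [← eq_C_of_natDegree_le_zero h3]
  exact eq_C_of_natDegree_eq_zero h1

theorem a4_ev2_const (m : ℤ) (x y : ℂ) : ev2 (C (C m)) x y = m := by
  unfold ev2 sp
  rw [Polynomial.map_C, eval_C]
  simp

theorem a4_prod (f : Multiset BP) (h : ∀ b ∈ f, b ≠ 0) (x y : ℂ) : f.prod ≠ 0 ∧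
    (f.map fun b => dX b + b.natDegree).sum = dX f.prod + f.prod.natDegree ∧
    (f.map fun b => ‖ev2 b x y‖).prod = ‖ev2 f.prod x y‖ ∧
    Real.log (f.map len2).prod = (f.map fun b => Real.log (len2 b)).sum ∧ 0 < (f.map len2).prod := by
  induction f using Multiset.induction_on with
  | empty =>
    refine ⟨?_, ?_, ?_, ?_, ?_⟩
    · simp
    · simp only [Multiset.map_zero, Multiset.sum_zero, Multiset.prod_zero, natDegree_one, add_zero]
      have : dX (1 : BP) = 0 := by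
        have h1 := dX_mul 1 1 one_ne_zero one_ne_zero
        rw [mul_one] at h1
        omega
      rw [this]
    · simp only [Multiset.map_zero, Multiset.prod_zero]
      rw [ev2_one, norm_one]
    · simp
    · simp
  | cons a s ih =>
    obtain ⟨i1, i2, i3, i4, i5⟩ := ih (fun b hb => h b (Multiset.mem_cons_of_mem hb))
    have ha := h a (Multiset.mem_cons_self a s)
    have hl : 0 < len2 a := lt_of_lt_of_le one_pos (one_le_len2 a ha)
    refine ⟨?_, ?_, ?_, ?_, ?_⟩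
    · rw [Multiset.prod_cons]; exact mul_ne_zero ha i1
    · rw [Multiset.map_cons, Multiset.sum_cons, i2, Multiset.prod_cons, dX_mul a _ ha i1,
        natDegree_mul ha i1]
      omega
    · rw [Multiset.map_cons, Multiset.prod_cons, i3, Multiset.prod_cons, ev2_mul, norm_mul]
    · rw [Multiset.map_cons, Multiset.prod_cons, Real.log_mul (ne_of_gt hl) (ne_of_gt i5), i4,
        Multiset.map_cons, Multiset.sum_cons]
    · rw [Multiset.map_cons, Multiset.prod_cons]; exact mul_pos hl i5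

theorem a4_exp (f : Multiset BP) (g v : BP → ℝ) (h : ∀ b ∈ f, Real.exp (-(g b)) ≤ v b) :
    Real.exp (-(f.map g).sum) ≤ (f.map v).prod := by
  induction f using Multiset.induction_on with
  | empty => simp
  | cons a s ih =>
    rw [Multiset.map_cons, Multiset.map_cons, Multiset.sum_cons, Multiset.prod_cons, neg_add,
      Real.exp_add]
    exact mul_le_mul (h a (Multiset.mem_cons_self a s))
      (ih (fun b hb => h b (Multiset.mem_cons_of_mem hb))) (Real.exp_nonneg _)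
      (le_trans (Real.exp_nonneg _) (h a (Multiset.mem_cons_self a s)))

theorem a4_sum (f : Multiset BP) (c : ℝ) : (f.map fun b => c * (((dX b + b.natDegree : ℕ) : ℝ)
    + Real.log (len2 b))).sum = c * ((((f.map fun b => dX b + b.natDegree).sum : ℕ) : ℝ)
    + (f.map fun b => Real.log (len2 b)).sum) := by
  induction f using Multiset.induction_on with
  | empty => simp
  | cons a s ih =>
    simp only [Multiset.map_cons, Multiset.sum_cons]
    rw [ih]
    push_cast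
    ring

/-- A4. PROOF. `WfDvdMonoid.exists_factors`: a multiset `f` of irreducible elements whose product is associated to `P`; a unit of `ℤ[X][Y]` is `± 1` (`Polynomial.isUnit_iff`), so `P = ± f.prod`, same value up to sign, same length, same degrees. With `s(b) = dX b + natDegree b + log (len2 b) ≥ 0`:
`∑_(b ∈ f) s(b) ≤ S + (S log 4 + S) ≤ 4 S` (`dX_mul`, `natDegree_mul`: induction over the multiset; `gelfond2`). If all `b ∈ f` had `‖ev2 b θ‖ > exp(-(κ/(5S)) s(b))` then `exp(-κ) ≥ ‖ev2 P θ‖ ≥ exp(-(κ/(5S)) 4S)`, a contradiction as `κ > 0` (also if `f` is empty).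
So there is `b ∈ f` with `‖ev2 b θ‖ ≤ exp(-(κ/(5S)) s(b))`. It is not constant: if `dX b = natDegree b = 0` then `b = C (C m)` with `|m| ≥ 2` (not a unit), `‖ev2 b θ‖ = |m| > 1` but the right hand side is `≤ 1`. -/
theorem exists_factor2 (P : BP) (x y : ℂ) (S κ : ℝ) (hS : 0 < S) (hκ : 0 < κ) (hP : ev2 P x y ≠ 0) (hd : ((dX P + P.natDegree : ℕ) : ℝ) ≤ S)
    (hl : Real.log (len2 P) ≤ S) (hs : ‖ev2 P x y‖ ≤ Real.exp (-κ)) :
    ∃ b : BP, Irreducible b ∧ b ∣ P ∧ 1 ≤ dX b + b.natDegree ∧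
      ‖ev2 b x y‖ ≤ Real.exp (-(κ / (5 * S) * (((dX b + b.natDegree : ℕ) : ℝ) + Real.log (len2 b)))) := by
  have hP0 : P ≠ 0 := by
    rintro rfl
    apply hP
    unfold ev2 sp
    simp
  obtain ⟨f, hf, u, hu⟩ := WfDvdMonoid.exists_factors P hP0
  have hfn : ∀ b ∈ f, b ≠ 0 := fun b hb => (hf b hb).ne_zero
  obtain ⟨q1, q2, q3, q4, q5⟩ := a4_prod f hfn x y
  have hgel := gelfond2 f hfn
  have key : dX f.prod = dX P ∧ f.prod.natDegree = P.natDegree ∧ len2 f.prod = len2 P ∧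
      ‖ev2 f.prod x y‖ = ‖ev2 P x y‖ := by
    rcases a4_unit (u : BP) u.isUnit with h1 | h1
    · rw [h1, mul_one] at hu
      rw [hu]
      exact ⟨rfl, rfl, rfl, rfl⟩
    · have hu2 : P = -f.prod := by
        rw [← hu, h1]; ring
      rw [hu2, a4_dX_neg, natDegree_neg, a4_len2_neg, ev2_neg, norm_neg]
      exact ⟨rfl, rfl, rfl, rfl⟩
  obtain ⟨k1, k2, k3, k4⟩ := key
  rw [q2, k1, k2, k3] at hgel
  have hlP : 0 < len2 P := lt_of_lt_of_le one_pos (one_le_len2 P hP0)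
  have hlog : (f.map fun b => Real.log (len2 b)).sum ≤
      ((dX P + P.natDegree : ℕ) : ℝ) * Real.log 4 + Real.log (len2 P) := by
    rw [← q4]
    calc Real.log (f.map len2).prod ≤ Real.log (4 ^ (dX P + P.natDegree) * len2 P) :=
          Real.log_le_log q5 hgel
      _ = ((dX P + P.natDegree : ℕ) : ℝ) * Real.log 4 + Real.log (len2 P) := by
          rw [Real.log_mul (by positivity) (ne_of_gt hlP), Real.log_pow]
  have hlog4 : Real.log 4 ≤ 2 := by
    have h1 : Real.log 4 = 2 * Real.log 2 := by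
      rw [show (4 : ℝ) = 2 ^ 2 by norm_num, Real.log_pow]; norm_num
    have h2 := Real.log_two_lt_d9
    linarith
  have hlog40 : 0 ≤ Real.log 4 := Real.log_nonneg (by norm_num)
  have hcon : ∃ b ∈ f, ‖ev2 b x y‖ ≤
      Real.exp (-(κ / (5 * S) * (((dX b + b.natDegree : ℕ) : ℝ) + Real.log (len2 b)))) := by
    by_contra hc
    push Not at hc
    have h1 := a4_exp f (fun b => κ / (5 * S) * (((dX b + b.natDegree : ℕ) : ℝ)
      + Real.log (len2 b))) (fun b => ‖ev2 b x y‖) (fun b hb => (hc b hb).le)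
    rw [a4_sum, q3, k4, q2, k1, k2] at h1
    have h2 := le_trans h1 hs
    rw [Real.exp_le_exp, neg_le_neg_iff] at h2
    have hd0 : (0 : ℝ) ≤ ((dX P + P.natDegree : ℕ) : ℝ) := Nat.cast_nonneg _
    have h3 : ((dX P + P.natDegree : ℕ) : ℝ) + (f.map fun b => Real.log (len2 b)).sum
        ≤ 4 * S := by
      have h4 : ((dX P + P.natDegree : ℕ) : ℝ) * Real.log 4 ≤ S * 2 :=
        mul_le_mul hd hlog4 hlog40 hS.le
      linarith
    have h5 : κ / (5 * S) * (((dX P + P.natDegree : ℕ) : ℝ) +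
        (f.map fun b => Real.log (len2 b)).sum) ≤ κ / (5 * S) * (4 * S) :=
      mul_le_mul_of_nonneg_left h3 (by positivity)
    have h6 : κ / (5 * S) * (4 * S) = 4 / 5 * κ := by
      field_simp
    linarith
  obtain ⟨b, hb, hbs⟩ := hcon
  have hbi := hf b hb
  refine ⟨b, hbi, ?_, ?_, hbs⟩
  · have h1 : b ∣ f.prod := Multiset.dvd_prod hb
    exact h1.trans ⟨u, hu.symm⟩
  · by_contra hc
    have h0 : dX b + b.natDegree = 0 := by omega
    obtain ⟨m, rfl⟩ := a4_const b h0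
    rw [a4_ev2_const] at hbs
    have hm0 : m ≠ 0 := by
      rintro rfl
      exact hbi.ne_zero (by simp)
    have hm1 : ¬ IsUnit m := by
      intro hu1
      apply hbi.not_isUnit
      exact (hu1.map C).map C
    have hm2 : 2 ≤ |m| := by
      rcases Int.lt_or_gt_of_ne hm0 with h | h
      · rw [abs_of_neg h]
        by_contra h2
        exact hm1 (Int.isUnit_iff.2 (Or.inr (by omega)))
      · rw [abs_of_pos h]
        by_contra h2
        exact hm1 (Int.isUnit_iff.2 (Or.inl (by omega)))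
    have h1 : (2 : ℝ) ≤ ‖(m : ℂ)‖ := by
      rw [Complex.norm_intCast]
      exact_mod_cast hm2
    have h2 : Real.exp (-(κ / (5 * S) * (((dX (C (C m) : BP) + (C (C m) : BP).natDegree : ℕ) : ℝ)
        + Real.log (len2 (C (C m)))))) ≤ 1 := by
      rw [Real.exp_le_one_iff, neg_nonpos]
      apply mul_nonneg (by positivity)
      apply add_nonneg (Nat.cast_nonneg _)
      exact Real.log_nonneg (one_le_len2 _ hbi.ne_zero)
    linarith

/-- A4b. PROOF. `P = b q` with `q ≠ 0`: `dX b ≤ dX P`, `natDegree b ≤ natDegree P`, and `len2 b ≤ len2 b len2 q ≤ 4^(dX P + natDegree P) len2 P` (`gelfond2` for `{b, q}`). -/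
theorem factor_bd (P b : BP) (hP : P ≠ 0) (hb : b ∣ P) : dX b ≤ dX P ∧ b.natDegree ≤ P.natDegree ∧
    len2 b ≤ 4 ^ (dX P + P.natDegree) * len2 P := by
  obtain ⟨q, rfl⟩ := hb
  have hb0 : b ≠ 0 := left_ne_zero_of_mul hP
  have hq0 : q ≠ 0 := right_ne_zero_of_mul hP
  refine ⟨?_, ?_, ?_⟩
  · rw [dX_mul b q hb0 hq0]; omega
  · rw [natDegree_mul hb0 hq0]; omega
  · have h := gelfond2 {b, q} (by
      intro p hp
      simp only [Multiset.insert_eq_cons, Multiset.mem_cons, Multiset.mem_singleton] at hp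
      rcases hp with rfl | rfl
      · exact hb0
      · exact hq0)
    simp only [Multiset.insert_eq_cons, Multiset.map_cons, Multiset.map_singleton,
      Multiset.prod_cons, Multiset.prod_singleton, Multiset.sum_cons,
      Multiset.sum_singleton] at h
    have e : dX b + b.natDegree + (dX q + q.natDegree) = dX (b * q) + (b * q).natDegree := by
      rw [dX_mul b q hb0 hq0, natDegree_mul hb0 hq0]; omega
    rw [e] at h
    refine le_trans ?_ h
    have h1 := one_le_len2 q hq0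
    have h2 := len2_nonneg b
    nlinarith

end Pool.Agent.MSL
end

end

section

/-! # L/A5_Pig: integer polynomials with a small value -/

open Polynomial

noncomputable section

namespace Pool.Agent.MSL

open MSD MSP MSK

/-- the polynomial with the coefficients `c i j`, `i < m`, `j < n` -/
def a5_P (m n : ℕ) (c : ℕ → ℕ → ℤ) : BP :=
  ∑ j ∈ Finset.range n, Polynomial.monomial j (∑ i ∈ Finset.range m, Polynomial.monomial i (c i j))

theorem a5_coeff (m n : ℕ) (c : ℕ → ℕ → ℤ) (j : ℕ) :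
    (a5_P m n c).coeff j = if j < n then ∑ i ∈ Finset.range m, Polynomial.monomial i (c i j) else 0 := by
  unfold a5_P
  rw [Polynomial.finsetSum_coeff]
  simp only [Polynomial.coeff_monomial]
  rw [Finset.sum_ite_eq']
  simp only [Finset.mem_range]

theorem a5_coeff2 (m n : ℕ) (c : ℕ → ℕ → ℤ) (i j : ℕ) :
    ((a5_P m n c).coeff j).coeff i = if i < m ∧ j < n then c i j else 0 := by
  rw [a5_coeff]
  by_cases hj : j < n
  · rw [if_pos hj, Polynomial.finsetSum_coeff]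
    simp only [Polynomial.coeff_monomial]
    rw [Finset.sum_ite_eq']
    simp only [Finset.mem_range, hj, and_true]
  · rw [if_neg hj, if_neg (fun h => hj h.2), Polynomial.coeff_zero]

theorem a5_natDegree (m n : ℕ) (c : ℕ → ℕ → ℤ) (h0 : a5_P m n c ≠ 0) :
    (a5_P m n c).natDegree < n := by
  by_contra hcon
  push Not at hcon
  have h1 : (a5_P m n c).coeff (a5_P m n c).natDegree = 0 := by
    rw [a5_coeff, if_neg (by omega)]
  rw [Polynomial.coeff_natDegree] at h1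
  exact h0 (Polynomial.leadingCoeff_eq_zero.1 h1)

theorem a5_natDegree2 (m n : ℕ) (hm : 1 ≤ m) (c : ℕ → ℕ → ℤ) (j : ℕ) :
    ((a5_P m n c).coeff j).natDegree < m := by
  by_contra hcon
  push Not at hcon
  have h1 : ((a5_P m n c).coeff j).coeff ((a5_P m n c).coeff j).natDegree = 0 := by
    rw [a5_coeff2, if_neg (fun h => by omega)]
  rw [Polynomial.coeff_natDegree] at h1
  have h2 := Polynomial.leadingCoeff_eq_zero.1 h1
  rw [h2, Polynomial.natDegree_zero] at hcon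
  omega

theorem a5_len (m n : ℕ) (c : ℕ → ℕ → ℤ) (B : ℝ) (hB : 0 ≤ B) (hc : ∀ i j, |((c i j : ℤ) : ℝ)| ≤ B) (j : ℕ) :
    len ((a5_P m n c).coeff j) ≤ m * B := by
  rw [a5_coeff]
  split_ifs with hj
  · refine (len_sum _ _).trans ?_
    calc ∑ i ∈ Finset.range m, len (Polynomial.monomial i (c i j))
        ≤ ∑ _i ∈ Finset.range m, B := Finset.sum_le_sum fun i _ => by
          rw [a1_len_monomial]; exact hc i j
      _ = m * B := by rw [Finset.sum_const, Finset.card_range, nsmul_eq_mul]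
  · rw [len_zero]
    positivity

theorem a5_ev2 (m n : ℕ) (c : ℕ → ℕ → ℤ) (x y : ℂ) (h0 : a5_P m n c ≠ 0) :
    ev2 (a5_P m n c) x y = ∑ j ∈ Finset.range n, ∑ i ∈ Finset.range m, x ^ i * y ^ j * (c i j : ℂ) := by
  rw [ev2_sum _ x y n (a5_natDegree m n c h0)]
  refine Finset.sum_congr rfl fun j hj => ?_
  rw [a5_coeff, if_pos (Finset.mem_range.1 hj), map_sum, Finset.sum_mul]
  refine Finset.sum_congr rfl fun i _ => ?_
  rw [Polynomial.aeval_monomial]
  simp only [eq_intCast, algebraMap_int_eq]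
  ring

theorem a5_num (M : ℝ) (hM : 1 ≤ M) : ∃ C : ℝ, 1 ≤ C ∧ ∀ (m n h : ℕ) (κ : ℝ), 1 ≤ m → 1 ≤ n → 0 ≤ κ →
    C * (κ + m + n + h + 1) ≤ (m : ℝ) * n * h →
    (4 * (((m * n : ℕ) : ℝ) * M ^ (m + n) * ((2 ^ h : ℕ) : ℝ)) / Real.exp (-κ) + 2) ^ 2 <
      (((2 ^ h : ℕ) : ℝ) + 1) ^ (m * n) := by
  have hl2 : 0 < Real.log 2 := Real.log_pos (by norm_num)
  have hM0 : 0 < M := by linarith
  have hlM : 0 ≤ Real.log M := Real.log_nonneg hM
  refine ⟨2 * (2 + Real.log M) / Real.log 2 + 1, by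
    have : 0 ≤ 2 * (2 + Real.log M) / Real.log 2 := by positivity
    linarith, ?_⟩
  intro m n h κ hm hn hκ hC
  have hm1 : (1 : ℝ) ≤ m := by exact_mod_cast hm
  have hn1 : (1 : ℝ) ≤ n := by exact_mod_cast hn
  have hh0 : (0 : ℝ) ≤ h := Nat.cast_nonneg h
  -- the upper bound
  have e1 : 4 * (((m * n : ℕ) : ℝ) * M ^ (m + n) * ((2 ^ h : ℕ) : ℝ)) / Real.exp (-κ) + 2 ≤
      6 * (m * n * M ^ (m + n) * 2 ^ h * Real.exp κ) := by
    have h1 : 4 * (((m * n : ℕ) : ℝ) * M ^ (m + n) * ((2 ^ h : ℕ) : ℝ)) / Real.exp (-κ) =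
        4 * (m * n * M ^ (m + n) * 2 ^ h * Real.exp κ) := by
      rw [Real.exp_neg, div_inv_eq_mul]
      push_cast
      ring
    rw [h1]
    have h2 : (1 : ℝ) ≤ m * n * M ^ (m + n) * 2 ^ h * Real.exp κ := by
      have a1 : (1 : ℝ) ≤ M ^ (m + n) := one_le_pow₀ hM
      have a2 : (1 : ℝ) ≤ 2 ^ h := one_le_pow₀ (by norm_num)
      have a3 : 1 ≤ Real.exp κ := Real.one_le_exp hκ
      have b1 : (1 : ℝ) ≤ m * n := by nlinarith
      have b2 : (1 : ℝ) ≤ m * n * M ^ (m + n) := one_le_mul_of_one_le_of_one_le b1 a1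
      have b3 : (1 : ℝ) ≤ m * n * M ^ (m + n) * 2 ^ h := one_le_mul_of_one_le_of_one_le b2 a2
      exact one_le_mul_of_one_le_of_one_le b3 a3
    linarith
  have e2 : 6 * (m * n * M ^ (m + n) * 2 ^ h * Real.exp κ) ≤
      Real.exp (2 + m + n + (m + n) * Real.log M + h + κ) := by
    have h6 : (6 : ℝ) ≤ Real.exp 2 := by
      have h1 := Real.exp_one_gt_d9
      have h2 : Real.exp 2 = Real.exp 1 * Real.exp 1 := by rw [← Real.exp_add]; norm_num
      rw [h2]
      nlinarith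
    have hme : (m : ℝ) ≤ Real.exp m := by
      have := Real.add_one_le_exp (m : ℝ)
      linarith
    have hne : (n : ℝ) ≤ Real.exp n := by
      have := Real.add_one_le_exp (n : ℝ)
      linarith
    have hMe : M ^ (m + n) = Real.exp ((m + n) * Real.log M) := by
      rw [← Real.rpow_natCast, Real.rpow_def_of_pos hM0]
      push_cast
      ring_nf
    have h2e : (2 : ℝ) ^ h ≤ Real.exp h := by
      have h1 : Real.exp (h : ℝ) = Real.exp 1 ^ h := by
        rw [← Real.exp_nat_mul]; ring_nf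
      rw [h1]
      refine pow_le_pow_left₀ (by norm_num) ?_ h
      have := Real.add_one_le_exp (1 : ℝ)
      linarith
    have e : Real.exp (2 + m + n + (m + n) * Real.log M + h + κ) =
        Real.exp 2 * (Real.exp m * Real.exp n * Real.exp ((m + n) * Real.log M) * Real.exp h * Real.exp κ) := by
      simp only [Real.exp_add]
      ring
    rw [e, ← hMe]
    have hMp : 0 ≤ M ^ (m + n) := by positivity
    gcongr
  -- the exponents
  have e3 : 2 * (2 + m + n + (m + n) * Real.log M + h + κ) ≤ (m * n * h : ℝ) * Real.log 2 := by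
    have h1 := mul_le_mul_of_nonneg_right hC hl2.le
    refine le_trans ?_ h1
    have h2 : (2 * (2 + Real.log M) / Real.log 2 + 1) * (κ + m + n + h + 1) * Real.log 2 =
        (2 * (2 + Real.log M) + Real.log 2) * (κ + m + n + h + 1) := by
      field_simp
    rw [h2]
    nlinarith [mul_nonneg hlM hκ, mul_nonneg hlM hh0, mul_nonneg hl2.le hκ, mul_nonneg hl2.le hh0,
      mul_pos hl2 (by linarith : (0 : ℝ) < m), mul_pos hl2 (by linarith : (0 : ℝ) < n)]
  have e4 : (2 : ℝ) ^ (h * (m * n)) = Real.exp ((m * n * h : ℝ) * Real.log 2) := by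
    rw [← Real.rpow_natCast, Real.rpow_def_of_pos (by norm_num)]
    push_cast
    ring_nf
  have e5 : (2 : ℝ) ^ (h * (m * n)) < (((2 ^ h : ℕ) : ℝ) + 1) ^ (m * n) := by
    rw [pow_mul]
    refine pow_lt_pow_left₀ ?_ (by positivity) (Nat.mul_pos hm hn).ne'
    push_cast
    linarith
  have e0 : 0 ≤ 4 * (((m * n : ℕ) : ℝ) * M ^ (m + n) * ((2 ^ h : ℕ) : ℝ)) / Real.exp (-κ) + 2 := by
    positivity
  calc (4 * (((m * n : ℕ) : ℝ) * M ^ (m + n) * ((2 ^ h : ℕ) : ℝ)) / Real.exp (-κ) + 2) ^ 2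
      ≤ (Real.exp (2 + m + n + (m + n) * Real.log M + h + κ)) ^ 2 :=
        pow_le_pow_left₀ e0 (e1.trans e2) 2
    _ = Real.exp (2 * (2 + m + n + (m + n) * Real.log M + h + κ)) := by
        rw [← Real.exp_nat_mul]
        norm_num
    _ ≤ Real.exp ((m * n * h : ℝ) * Real.log 2) := Real.exp_le_exp.2 e3
    _ = (2 : ℝ) ^ (h * (m * n)) := e4.symm
    _ < _ := e5

/-- A5. PROOF. `pigeon` with `ι = Fin m × Fin n`, `κ = Unit`, `A (i, j) = x^i y^j`, `α = M^(m+n)`, `M = max 1 (max ‖x‖ ‖y‖)`, `B = 2^h`, `ε = exp (-κ)`: `4 m n α B / ε + 2 ≤ 6 m n M^(m+n) 2^h e^κ ≤ exp (2 + m + n + (m+n) log M + h + κ)`, so the square is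
`< exp (C log 2 (κ + m + n + h + 1)) ≤ 2^(h m n) ≤ (B+1)^(m n)` if `C log 2 > 2 (2 + log M)`. `P = ∑ x_ij X^i Y^j` (`∑_j C (∑_i C x_ij X^i) Y^j`). -/
theorem pig2 (x y : ℂ) : ∃ C : ℝ, 1 ≤ C ∧ ∀ (m n h : ℕ) (κ : ℝ), 1 ≤ m → 1 ≤ n → 0 ≤ κ → C * (κ + m + n + h + 1) ≤ (m : ℝ) * n * h →
    ∃ P : BP, P ≠ 0 ∧ P.natDegree < n ∧ dX P < m ∧ len2 P ≤ m * n * 2 ^ h ∧ ‖ev2 P x y‖ ≤ Real.exp (-κ) := by
  classical
  set M : ℝ := max 1 (max ‖x‖ ‖y‖) with hM
  have hM1 : 1 ≤ M := le_max_left _ _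
  have hMx : ‖x‖ ≤ M := (le_max_left _ _).trans (le_max_right _ _)
  have hMy : ‖y‖ ≤ M := (le_max_right _ _).trans (le_max_right _ _)
  obtain ⟨C, hC1, hC⟩ := a5_num M hM1
  refine ⟨C, hC1, fun m n h κ hm hn hκ hk => ?_⟩
  have hnum := hC m n h κ hm hn hκ hk
  haveI : Nonempty (Fin m × Fin n) := ⟨(⟨0, hm⟩, ⟨0, hn⟩)⟩
  have hcard : Fintype.card (Fin m × Fin n) = m * n := by simp
  obtain ⟨z, hz0, hzB, hz⟩ := pigeon (κ := Unit)
    (fun _ (p : Fin m × Fin n) => x ^ (p.1 : ℕ) * y ^ (p.2 : ℕ)) (M ^ (m + n)) (Real.exp (-κ)) (2 ^ h)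
    (by positivity) (Real.exp_pos _)
    (fun _ p => by
      rw [norm_mul, norm_pow, norm_pow, pow_add]
      have h1 : ‖x‖ ^ (p.1 : ℕ) ≤ M ^ m :=
        (pow_le_pow_left₀ (norm_nonneg _) hMx _).trans (pow_le_pow_right₀ hM1 p.1.2.le)
      have h2 : ‖y‖ ^ (p.2 : ℕ) ≤ M ^ n :=
        (pow_le_pow_left₀ (norm_nonneg _) hMy _).trans (pow_le_pow_right₀ hM1 p.2.2.le)
      exact mul_le_mul h1 h2 (by positivity) (by positivity))
    (by
      rw [hcard]
      simpa using hnum)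
  set c : ℕ → ℕ → ℤ := fun i j => if h : i < m ∧ j < n then z (⟨i, h.1⟩, ⟨j, h.2⟩) else 0 with hc
  have hcz : ∀ (i : Fin m) (j : Fin n), c i j = z (i, j) := by
    intro i j
    simp only [hc]
    rw [dif_pos ⟨i.2, j.2⟩]
  have hP0 : a5_P m n c ≠ 0 := by
    intro h0
    apply hz0
    funext p
    obtain ⟨i, j⟩ := p
    have h1 := a5_coeff2 m n c i j
    rw [h0, Polynomial.coeff_zero, Polynomial.coeff_zero, if_pos ⟨i.2, j.2⟩, hcz] at h1
    exact h1.symm
  have hcB : ∀ i j, |((c i j : ℤ) : ℝ)| ≤ 2 ^ h := by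
    intro i j
    simp only [hc]
    split_ifs with hij
    · have h1 := hzB (⟨i, hij.1⟩, ⟨j, hij.2⟩)
      exact_mod_cast h1
    · simp
  refine ⟨a5_P m n c, hP0, a5_natDegree m n c hP0, ?_, ?_, ?_⟩
  · unfold dX
    rw [Finset.sup_lt_iff (show (⊥ : ℕ) < m from hm)]
    intro j _
    exact a5_natDegree2 m n hm c j
  · refine (len2_le _ n (a5_natDegree m n c hP0) (m * 2 ^ h) (a5_len m n c _ (by positivity) hcB)).trans ?_
    rw [← mul_assoc, mul_comm (n : ℝ)]
  · rw [a5_ev2 m n c x y hP0]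
    have h1 := hz ()
    have h2 : ∑ j ∈ Finset.range n, ∑ i ∈ Finset.range m, x ^ i * y ^ j * (c i j : ℂ) =
        ∑ p : Fin m × Fin n, x ^ (p.1 : ℕ) * y ^ (p.2 : ℕ) * (z p : ℂ) := by
      rw [Fintype.sum_prod_type_right, Finset.sum_range]
      refine Finset.sum_congr rfl fun j _ => ?_
      rw [Finset.sum_range]
      refine Finset.sum_congr rfl fun i _ => ?_
      rw [hcz]
    rw [h2]
    exact h1

end Pool.Agent.MSL
end

end

section

/-! # L/A10_Curve: the first polynomial -/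

open Polynomial Filter

noncomputable section

namespace Pool.Agent.MSL

open MSD MSP

/-- the size of an integer polynomial in two variables -/
def sz (b : BP) : ℝ := ((dX b + b.natDegree : ℕ) : ℝ) + Real.log (len2 b)

lemma a10_log_le (T : ℕ) (hT : 1 ≤ T) : 2 * Real.log T ≤ T := by
  have hT0 : (0 : ℝ) < T := by exact_mod_cast hT
  have h1 := Real.log_le_sub_one_of_pos (show (0 : ℝ) < T / 2 by positivity)
  rw [Real.log_div hT0.ne' (by norm_num)] at h1
  have h2 := Real.log_two_lt_d9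
  linarith

lemma a10_len_pos (p : BP) (hp : p ≠ 0) : 0 < len2 p := lt_of_lt_of_le one_pos (one_le_len2 p hp)

lemma a10_sz_ge (b : BP) (hb : b ≠ 0) : (b.natDegree : ℝ) ≤ sz b := by
  unfold sz
  have h1 : 0 ≤ Real.log (len2 b) := Real.log_nonneg (one_le_len2 b hb)
  have h2 : (b.natDegree : ℝ) ≤ ((dX b + b.natDegree : ℕ) : ℝ) := by
    exact_mod_cast Nat.le_add_left _ _
  linarith

/-- A10. PROOF. `pig2` with `m = n = h = T`, `κ = T³/(2 C₀)` (`C₀ (κ + 3T + 1) ≤ T³` for large `T`): `P` of degrees `< T`, `len2 P ≤ T² 2^T`, so `dX P + natDegree P ≤ 2T`, `log len2 P ≤ 2T` for large `T`. `ev2 P θ ≠ 0` (`ev2_ne`). `exists_factor2` with `S = 2T`: `‖ev2 b θ‖ ≤ exp (-(κ/(10 T)) sz b)`,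
`κ/(10T) = T²/(20 C₀)`. `factor_bd`: `sz b ≤ 2T + 2T log 4 + 2T ≤ 7T`. -/
theorem curve (θ : Fin 2 → ℂ) (hθ : AlgebraicIndependent ℚ θ) : ∃ c : ℝ, 0 < c ∧ c ≤ 1 ∧ ∀ᶠ T : ℕ in atTop, ∃ b : BP, Irreducible b ∧
    1 ≤ dX b + b.natDegree ∧ sz b ≤ 7 * T ∧ ‖ev2 b (θ 0) (θ 1)‖ ≤ Real.exp (-(c * T ^ 2 * sz b)) := by
  obtain ⟨C₀, hC1, hpig⟩ := pig2 (θ 0) (θ 1)
  have hC0 : 0 < C₀ := lt_of_lt_of_le one_pos hC1
  refine ⟨1 / (20 * C₀), by positivity, ?_, ?_⟩
  · rw [div_le_one (by positivity)]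
    linarith
  · have hev : ∀ᶠ T : ℕ in atTop, 8 * C₀ ≤ (T : ℝ) :=
      tendsto_natCast_atTop_atTop.eventually_ge_atTop _
    filter_upwards [hev] with T hT
    have hT8 : (8 : ℝ) ≤ T := by linarith
    have hT1 : 1 ≤ T := by
      have : (1 : ℝ) ≤ T := by linarith
      exact_mod_cast this
    have hT0 : (0 : ℝ) < T := by linarith
    have hcond : C₀ * ((T : ℝ) ^ 3 / (2 * C₀) + T + T + T + 1) ≤ (T : ℝ) * T * T := by
      have e1 : C₀ * ((T : ℝ) ^ 3 / (2 * C₀) + T + T + T + 1) = (T : ℝ) ^ 3 / 2 + C₀ * (3 * T + 1) := by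
        field_simp
        ring
      rw [e1]
      have e2 : C₀ * (3 * T + 1) ≤ (T : ℝ) / 8 * (4 * T) := by
        have h3 : C₀ ≤ (T : ℝ) / 8 := by linarith
        have h4 : (3 * T + 1 : ℝ) ≤ 4 * T := by linarith
        exact mul_le_mul h3 h4 (by positivity) (by positivity)
      have e3 : (T : ℝ) / 8 * (4 * T) ≤ (T : ℝ) ^ 3 / 2 := by
        have : (T : ℝ) ^ 2 ≤ (T : ℝ) ^ 3 := by
          have h5 : (1 : ℝ) ≤ T := by linarith
          nlinarith [sq_nonneg (T : ℝ)]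
        nlinarith
      nlinarith
    obtain ⟨P, hP0, hPn, hPd, hPl, hPv⟩ := hpig T T T ((T : ℝ) ^ 3 / (2 * C₀)) hT1 hT1 (by positivity) hcond
    have hne := ev2_ne θ hθ P hP0
    have hlP : Real.log (len2 P) ≤ 2 * T := by
      have h1 : Real.log (len2 P) ≤ Real.log ((T : ℝ) * T * 2 ^ T) :=
        Real.log_le_log (a10_len_pos P hP0) hPl
      have h2 : Real.log ((T : ℝ) * T * 2 ^ T) = 2 * Real.log T + T * Real.log 2 := by
        rw [Real.log_mul (by positivity) (by positivity), Real.log_mul hT0.ne' hT0.ne',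
          Real.log_pow]
        ring
      have h3 := a10_log_le T hT1
      have h4 := Real.log_two_lt_d9
      have h5 : (T : ℝ) * Real.log 2 ≤ T * 1 := mul_le_mul_of_nonneg_left (by linarith) hT0.le
      linarith
    have hdP : ((dX P + P.natDegree : ℕ) : ℝ) ≤ 2 * T := by
      have : dX P + P.natDegree ≤ 2 * T := by omega
      exact_mod_cast this
    obtain ⟨b, hbi, hbP, hbd, hbv⟩ := exists_factor2 P (θ 0) (θ 1) (2 * T) ((T : ℝ) ^ 3 / (2 * C₀))
      (by positivity) (by positivity) hne hdP hlP hPv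
    obtain ⟨hf1, hf2, hf3⟩ := factor_bd P b hP0 hbP
    refine ⟨b, hbi, hbd, ?_, ?_⟩
    · have h1 : Real.log (len2 b) ≤ Real.log (4 ^ (dX P + P.natDegree) * len2 P) :=
        Real.log_le_log (a10_len_pos b hbi.ne_zero) hf3
      have h2 : Real.log ((4 : ℝ) ^ (dX P + P.natDegree) * len2 P) =
          ((dX P + P.natDegree : ℕ) : ℝ) * Real.log 4 + Real.log (len2 P) := by
        rw [Real.log_mul (by positivity) (a10_len_pos P hP0).ne', Real.log_pow]
      have h3 : Real.log 4 = 2 * Real.log 2 := by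
        rw [show (4 : ℝ) = 2 ^ 2 by norm_num, Real.log_pow]
        norm_num
      have h4 := Real.log_two_lt_d9
      have h4' : 0 < Real.log 2 := Real.log_pos (by norm_num)
      have h5 : ((dX P + P.natDegree : ℕ) : ℝ) * Real.log 4 ≤ 2 * T * Real.log 4 :=
        mul_le_mul_of_nonneg_right hdP (by linarith)
      have h6 : ((dX b + b.natDegree : ℕ) : ℝ) ≤ 2 * T := by
        have : dX b + b.natDegree ≤ 2 * T := by omega
        exact_mod_cast this
      have h7 : 2 * (T : ℝ) * Real.log 4 ≤ 2 * T * 1.4 := by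
        apply mul_le_mul_of_nonneg_left _ (by positivity)
        rw [h3]
        linarith
      unfold sz
      linarith
    · refine hbv.trans (le_of_eq ?_)
      unfold sz
      congr 2
      have : (T : ℝ) ^ 3 / (2 * C₀) / (5 * (2 * T)) = 1 / (20 * C₀) * T ^ 2 := by
        field_simp
        ring
      rw [this]

/-- A10b. PROOF. `n = natDegree b ≥ 1`, `t = sz b`, `n ≤ t ≤ 7T` (`log (len2 b) ≥ 0`). `pig2` (constant `C₀`) with `m = T`, `n`, `h = ⌈2 C₀ c T t/n⌉₊ + 1`, `κ = c T² t`: `T n h ≥ 2 C₀ c T² t`, and `h ≤ 2 C₀ c T t/n + 2 ≤ (2 C₀ + 2) T t`, so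
`C₀ (κ + T + n + h + 1) ≤ C₀ c T² t + C₀ (2 C₀ + 6) T t ≤ 2 C₀ c T² t` for `T ≥ (2 C₀ + 6)/c`. `n log len2 Q ≤ n (2 log (7 T) + log T + h log 2) ≤ C T t log T`. `b` does not divide `Q` as `natDegree Q < natDegree b`. -/
theorem second (θ : Fin 2 → ℂ) (c : ℝ) (hc : 0 < c) (hc1 : c ≤ 1) : ∃ C : ℝ, 1 ≤ C ∧ ∀ᶠ T : ℕ in atTop, ∀ b : BP, b ≠ 0 → 1 ≤ b.natDegree → sz b ≤ 7 * T →
    ∃ Q : BP, Q ≠ 0 ∧ ¬ b ∣ Q ∧ Q.natDegree < b.natDegree ∧ dX Q < T ∧ b.natDegree * Real.log (len2 Q) ≤ C * T * sz b * Real.log T ∧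
      ‖ev2 Q (θ 0) (θ 1)‖ ≤ Real.exp (-(c * T ^ 2 * sz b)) := by
  obtain ⟨C₀, hC1, hpig⟩ := pig2 (θ 0) (θ 1)
  have hC0 : 0 < C₀ := lt_of_lt_of_le one_pos hC1
  refine ⟨2 * C₀ + 6, by linarith, ?_⟩
  have hev : ∀ᶠ T : ℕ in atTop, (2 * C₀ + 5) / c ≤ (T : ℝ) :=
    tendsto_natCast_atTop_atTop.eventually_ge_atTop _
  filter_upwards [hev] with T hT
  intro b hb hbn hbs
  have hcT : 2 * C₀ + 5 ≤ c * T := by
    rw [div_le_iff₀ hc] at hT
    linarith
  have hT7 : (7 : ℝ) ≤ T := by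
    have hTn : (0 : ℝ) ≤ T := Nat.cast_nonneg T
    have : c * T ≤ 1 * T := mul_le_mul_of_nonneg_right hc1 hTn
    linarith
  have hT0 : (0 : ℝ) < T := by linarith
  have hT1 : 1 ≤ T := by
    have : (1 : ℝ) ≤ T := by linarith
    exact_mod_cast this
  have hn1 : (1 : ℝ) ≤ b.natDegree := by exact_mod_cast hbn
  have hn0 : (0 : ℝ) < b.natDegree := by linarith
  have hnt := a10_sz_ge b hb
  set t := sz b with ht
  set n := b.natDegree with hn
  have ht1 : 1 ≤ t := by linarith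
  have ht0 : 0 < t := by linarith
  set h := ⌈2 * C₀ * c * T * t / n⌉₊ + 1 with hh
  have hq0 : 0 ≤ 2 * C₀ * c * T * t / n := by positivity
  have hle1 : 2 * C₀ * c * T * t / n + 1 ≤ (h : ℝ) := by
    rw [hh]
    push_cast
    have := Nat.le_ceil (2 * C₀ * c * T * t / n)
    linarith
  have hle2 : (h : ℝ) ≤ 2 * C₀ * c * T * t / n + 2 := by
    rw [hh]
    push_cast
    have := (Nat.ceil_lt_add_one hq0).le
    linarith
  have hnh1 : 2 * C₀ * c * T * t + n ≤ n * h := by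
    have := mul_le_mul_of_nonneg_left hle1 hn0.le
    have e : (n : ℝ) * (2 * C₀ * c * T * t / n + 1) = 2 * C₀ * c * T * t + n := by
      field_simp
    linarith
  have hnh2 : (n : ℝ) * h ≤ 2 * C₀ * c * T * t + 2 * n := by
    have := mul_le_mul_of_nonneg_left hle2 hn0.le
    have e : (n : ℝ) * (2 * C₀ * c * T * t / n + 2) = 2 * C₀ * c * T * t + 2 * n := by
      field_simp
    linarith
  have hTt : 1 ≤ (T : ℝ) * t := by nlinarith
  have hTt0 : 0 < (T : ℝ) * t := by positivity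
  have hcTt : 2 * C₀ * c * T * t ≤ 2 * C₀ * (T * t) := by
    have : 2 * C₀ * c * T * t = c * (2 * C₀ * (T * t)) := by ring
    rw [this]
    have h0 : 0 ≤ 2 * C₀ * ((T : ℝ) * t) := by positivity
    nlinarith
  have hh3 : (h : ℝ) ≤ 2 * C₀ * (T * t) + 2 := by
    have h1 : 2 * C₀ * c * T * t / n ≤ 2 * C₀ * c * T * t :=
      div_le_self (by positivity) hn1
    linarith
  have hcond : C₀ * (c * T ^ 2 * t + T + n + h + 1) ≤ (T : ℝ) * n * h := by
    have h1 : (T : ℝ) * n * h ≥ T * (2 * C₀ * c * T * t + n) := by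
      have := mul_le_mul_of_nonneg_left hnh1 hT0.le
      linarith
    have h2 : (T : ℝ) + n + h + 1 ≤ (2 * C₀ + 5) * (T * t) := by
      have h3 : (T : ℝ) ≤ T * t := by nlinarith
      have h4 : (n : ℝ) ≤ T * t := by nlinarith
      nlinarith
    have h5 : (2 * C₀ + 5) * ((T : ℝ) * t) ≤ c * T * (T * t) :=
      mul_le_mul_of_nonneg_right hcT hTt0.le
    have h6 : C₀ * (c * T ^ 2 * t + T + n + h + 1) ≤ C₀ * (c * T ^ 2 * t + c * T * (T * t)) := by
      apply mul_le_mul_of_nonneg_left _ hC0.le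
      linarith
    have h7 : C₀ * (c * T ^ 2 * t + c * T * (T * t)) = T * (2 * C₀ * c * T * t) := by ring
    have h8 : 0 ≤ (T : ℝ) * n := by positivity
    nlinarith
  obtain ⟨Q, hQ0, hQn, hQd, hQl, hQv⟩ := hpig T n h (c * T ^ 2 * t) hT1 hbn (by positivity) hcond
  refine ⟨Q, hQ0, ?_, hQn, hQd, ?_, hQv⟩
  · exact Polynomial.not_dvd_of_natDegree_lt hQ0 hQn
  · have h1 : Real.log (len2 Q) ≤ Real.log ((T : ℝ) * n * 2 ^ h) :=
      Real.log_le_log (a10_len_pos Q hQ0) hQl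
    have h2 : Real.log ((T : ℝ) * n * 2 ^ h) = Real.log T + Real.log n + h * Real.log 2 := by
      rw [Real.log_mul (by positivity) (by positivity), Real.log_mul hT0.ne' hn0.ne',
        Real.log_pow]
    have hlT : 1 ≤ Real.log T := by
      rw [Real.le_log_iff_exp_le hT0]
      have := Real.exp_one_lt_d9
      linarith
    have hl7 : Real.log 7 ≤ 2 := by
      rw [Real.log_le_iff_le_exp (by norm_num)]
      have h3 : (2.7 : ℝ) ≤ Real.exp 1 := by
        have := Real.exp_one_gt_d9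
        linarith
      have h4 : Real.exp 2 = Real.exp 1 * Real.exp 1 := by
        rw [← Real.exp_add]
        norm_num
      rw [h4]
      nlinarith
    have hln : Real.log n ≤ Real.log 7 + Real.log T := by
      rw [← Real.log_mul (by norm_num) hT0.ne']
      exact Real.log_le_log hn0 (by linarith)
    have hln0 : 0 ≤ Real.log (n : ℝ) := Real.log_nonneg hn1
    have h4 := Real.log_two_lt_d9
    have h4' : 0 < Real.log 2 := Real.log_pos (by norm_num)
    have h5 : (n : ℝ) * Real.log (len2 Q) ≤ n * (Real.log T + Real.log n + h * Real.log 2) :=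
      mul_le_mul_of_nonneg_left (by linarith) hn0.le
    have hTT : (n : ℝ) ≤ T * t := by nlinarith
    have h6 : (n : ℝ) * Real.log T ≤ T * t * Real.log T :=
      mul_le_mul_of_nonneg_right hTT (by linarith)
    have h7 : (n : ℝ) * Real.log n ≤ T * t * (3 * Real.log T) := by
      apply mul_le_mul hTT _ hln0 hTt0.le
      linarith
    have h8 : (n : ℝ) * (h * Real.log 2) ≤ (2 * C₀ + 2) * (T * t) * Real.log T := by
      have h9 : (n : ℝ) * h ≤ (2 * C₀ + 2) * (T * t) := by linarith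
      have h10 : (n : ℝ) * (h * Real.log 2) ≤ n * h * 1 := by
        rw [← mul_assoc]
        apply mul_le_mul_of_nonneg_left (by linarith) (by positivity)
      have h11 : 0 ≤ (2 * C₀ + 2) * ((T : ℝ) * t) := by positivity
      nlinarith
    calc (n : ℝ) * Real.log (len2 Q) ≤ n * (Real.log T + Real.log n + h * Real.log 2) := h5
      _ = n * Real.log T + n * Real.log n + n * (h * Real.log 2) := by ring
      _ ≤ T * t * Real.log T + T * t * (3 * Real.log T) + (2 * C₀ + 2) * (T * t) * Real.log T := by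
          linarith
      _ = (2 * C₀ + 6) * T * t * Real.log T := by ring

end Pool.Agent.MSL
end

end

section

/-! # L/A11_Bounds: the sizes of the resultant -/

open Polynomial Filter

noncomputable section

namespace Pool.Agent.MSL

open MSD MSP

theorem a11_pow (x y : ℝ) (n : ℕ) (hx : 0 ≤ x) (h : x ≤ Real.exp y) : x ^ n ≤ Real.exp (n * y) := by
  rw [Real.exp_nat_mul]
  exact pow_le_pow_left₀ hx h n

/-- A11. PROOF. Let `t = sz b`, `n₂ = natDegree b`, `d₁ = dX b ≤ n₂ ≤ t ≤ 7T`, `Q` with `natDegree Q < n₂ ≤ 7T`, `dX Q < T`, so `dX Q + natDegree Q ≤ 8T`, `dX b + natDegree b ≤ 2 n₂ ≤ 2t`. Degree: `2 · 2t · 8T ≤ 32 T t`. `log MM R ≤ 8T (log len2 b + d₁ log (1+u)) + 2 n₂ (log len2 Q + T log (1+u))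
≤ 8T t (1 + log (1 + T^5)) + 2 C T t log T + 2 t T log (1 + T^5) ≤ C' T t log T` (`log (1 + T^5) ≤ 6 log T`, `log T ≥ 1` for `T ≥ 3`). Value: `log ((2t + 8T)) + (2t + 8T) log max 1 ‖θ 1‖ + (the same as before with log (1+u) + log max 1 ‖θ 0 + u θ 1‖ ≤ C log T instead of log (1+u)) + log (max ..)`,
all `≤ C T t log T` (`t ≥ 1`). -/
theorem R_bounds (θ : Fin 2 → ℂ) (C : ℝ) (hC : 1 ≤ C) : ∃ C' : ℝ, 1 ≤ C' ∧ ∀ T : ℕ, 3 ≤ T → ∀ (b Q : BP) (u : ℕ) (κ : ℝ) (R : Polynomial ℤ), b ≠ 0 → Q ≠ 0 → R ≠ 0 →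
    1 ≤ b.natDegree → dX b ≤ b.natDegree → sz b ≤ 7 * T → Q.natDegree < b.natDegree → dX Q < T → b.natDegree * Real.log (len2 Q) ≤ C * T * sz b * Real.log T →
    u ≤ T ^ 5 → ‖ev2 b (θ 0) (θ 1)‖ ≤ Real.exp (-κ) → ‖ev2 Q (θ 0) (θ 1)‖ ≤ Real.exp (-κ) →
    (R.natDegree ≤ 2 * (dX b + b.natDegree) * (dX Q + Q.natDegree)) →
    (MM R ≤ (len2 b * (1 + u) ^ dX b) ^ (dX Q + Q.natDegree) * (len2 Q * (1 + u) ^ dX Q) ^ (dX b + b.natDegree)) →
    (‖aeval (θ 0 + u * θ 1) R‖ ≤ ((dX b + b.natDegree : ℕ) + (dX Q + Q.natDegree : ℕ) : ℝ) *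
        (max 1 ‖θ 1‖) ^ ((dX b + b.natDegree) + (dX Q + Q.natDegree)) *
        ((len2 b * (1 + u) ^ dX b * (max 1 ‖θ 0 + u * θ 1‖) ^ dX b) ^ (dX Q + Q.natDegree) *
          (len2 Q * (1 + u) ^ dX Q * (max 1 ‖θ 0 + u * θ 1‖) ^ dX Q) ^ (dX b + b.natDegree)) * max ‖ev2 b (θ 0) (θ 1)‖ ‖ev2 Q (θ 0) (θ 1)‖) →
    (R.natDegree : ℝ) ≤ C' * T * sz b * Real.log T ∧ Real.log (MM R) ≤ C' * T * sz b * Real.log T ∧
      ‖aeval (θ 0 + u * θ 1) R‖ ≤ Real.exp (C' * T * sz b * Real.log T - κ) := by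
  set L1 : ℝ := Real.log (max 1 ‖θ 1‖) with hL1
  set L2 : ℝ := Real.log (1 + ‖θ 0‖ + ‖θ 1‖) with hL2
  have hL1n : 0 ≤ L1 := Real.log_nonneg (le_max_left _ _)
  have hL2n : 0 ≤ L2 := Real.log_nonneg (by linarith [norm_nonneg (θ 0), norm_nonneg (θ 1)])
  refine ⟨200 + 2 * C + 9 * L1 + 9 * L2, by linarith, ?_⟩
  intro T hT b Q u κ R hb hQ hR hn hdX hsz hQn hQX hlQ hu hvb hvQ hdeg hMM hval
  set t : ℝ := sz b with ht
  set lb : ℝ := Real.log (len2 b) with hlb
  set lQ : ℝ := Real.log (len2 Q) with hlQd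
  set L : ℝ := Real.log (T : ℝ) with hL
  have hTR : (3 : ℝ) ≤ T := by exact_mod_cast hT
  have hT0 : (0 : ℝ) < T := by linarith
  have hL1' : 1 ≤ L := by
    rw [hL, Real.le_log_iff_exp_le hT0]
    have := Real.exp_one_lt_d9
    linarith
  have hlb0 : 0 ≤ lb := Real.log_nonneg (one_le_len2 b hb)
  have hlQ0 : 0 ≤ lQ := Real.log_nonneg (one_le_len2 Q hQ)
  have hlbpos : 0 < len2 b := lt_of_lt_of_le zero_lt_one (one_le_len2 b hb)
  have hlQpos : 0 < len2 Q := lt_of_lt_of_le zero_lt_one (one_le_len2 Q hQ)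
  set N2 : ℝ := (b.natDegree : ℝ) with hN2
  set DX : ℝ := (dX b : ℝ) with hDX
  set QN : ℝ := (Q.natDegree : ℝ) with hQNd
  set QX : ℝ := (dX Q : ℝ) with hQXd
  have tdef : t = DX + N2 + lb := by
    rw [ht, sz]
    push_cast
    rfl
  have hN21 : 1 ≤ N2 := by
    rw [hN2]
    exact_mod_cast hn
  have hDX0 : 0 ≤ DX := Nat.cast_nonneg _
  have hDXN : DX ≤ N2 := by
    rw [hDX, hN2]
    exact_mod_cast hdX
  have hQN0 : 0 ≤ QN := Nat.cast_nonneg _
  have hQX0 : 0 ≤ QX := Nat.cast_nonneg _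
  have hQNN : QN ≤ N2 := by
    rw [hQNd, hN2]
    exact_mod_cast hQn.le
  have hQXT : QX ≤ T := by
    rw [hQXd]
    exact_mod_cast hQX.le
  have ht1 : 1 ≤ t := by linarith
  have hq8 : QX + QN ≤ 8 * T := by linarith
  have hq0 : 0 ≤ QX + QN := by linarith
  have hp0 : 0 ≤ DX + N2 := by linarith
  have hpt : DX + N2 ≤ t := by linarith
  have hDXt : DX ≤ t := by linarith
  have hlbt : lb ≤ t := by linarith
  have hTt0 : 0 ≤ (T : ℝ) * t := by positivity
  have hTtL : (T : ℝ) * t ≤ T * t * L := by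
    have := mul_le_mul_of_nonneg_left hL1' hTt0
    linarith
  have hTT : (T : ℝ) ≤ T * t := by
    have := mul_le_mul_of_nonneg_left ht1 hT0.le
    linarith
  have htT : t ≤ T * t := by
    have := mul_le_mul_of_nonneg_right (show (1 : ℝ) ≤ T by linarith) (show (0 : ℝ) ≤ t by linarith)
    linarith
  -- (1 + u) ≤ exp (6 L)
  have hw : (1 + (u : ℝ)) ≤ Real.exp (6 * L) := by
    have e6 : Real.exp (6 * L) = (T : ℝ) ^ 6 := by
      have : (6 : ℝ) * L = ((6 : ℕ) : ℝ) * L := by norm_num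
      rw [this, Real.exp_nat_mul, hL, Real.exp_log hT0]
    rw [e6]
    have huR : (u : ℝ) ≤ (T : ℝ) ^ 5 := by exact_mod_cast hu
    have h5 : (1 : ℝ) ≤ (T : ℝ) ^ 5 := one_le_pow₀ (by linarith)
    have h6 : (T : ℝ) ^ 6 = T ^ 5 * T := by ring
    rw [h6]
    have h7 := mul_le_mul_of_nonneg_left hTR (show (0 : ℝ) ≤ (T : ℝ) ^ 5 by linarith)
    linarith
  have hu0 : (0 : ℝ) ≤ u := Nat.cast_nonneg u
  have hM : max 1 ‖θ 0 + u * θ 1‖ ≤ Real.exp (L2 + 6 * L) := by
    have h1 : max 1 ‖θ 0 + u * θ 1‖ ≤ (1 + ‖θ 0‖ + ‖θ 1‖) * (1 + u) := by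
      have h2 : ‖θ 0 + u * θ 1‖ ≤ ‖θ 0‖ + u * ‖θ 1‖ := by
        refine (norm_add_le _ _).trans ?_
        rw [norm_mul, Complex.norm_natCast]
      have h3 := norm_nonneg (θ 0)
      have h4 := norm_nonneg (θ 1)
      apply max_le
      · have h5 := mul_nonneg h3 hu0
        have h6 := mul_nonneg h4 hu0
        linarith
      · have h5 := mul_nonneg h3 hu0
        have h6 := mul_nonneg h4 hu0
        linarith
    refine h1.trans ?_
    rw [Real.exp_add, hL2, Real.exp_log (by linarith [norm_nonneg (θ 0), norm_nonneg (θ 1)])]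
    exact mul_le_mul_of_nonneg_left hw (by linarith [norm_nonneg (θ 0), norm_nonneg (θ 1)])
  have hM0 : (0 : ℝ) ≤ max 1 ‖θ 0 + u * θ 1‖ := le_trans zero_le_one (le_max_left _ _)
  have hlbe : len2 b = Real.exp lb := (Real.exp_log hlbpos).symm
  have hlQe : len2 Q = Real.exp lQ := (Real.exp_log hlQpos).symm
  -- elementary products
  have k1 : (QX + QN) * lb ≤ 8 * T * t := mul_le_mul hq8 hlbt hlb0 (by positivity)
  have k2 : (QX + QN) * DX ≤ 8 * T * t := mul_le_mul hq8 hDXt hDX0 (by positivity)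
  have k3 : (DX + N2) * lQ ≤ 2 * (C * T * t * L) := by
    calc (DX + N2) * lQ ≤ (2 * N2) * lQ := mul_le_mul_of_nonneg_right (by linarith) hlQ0
      _ = 2 * (N2 * lQ) := by ring
      _ ≤ 2 * (C * T * t * L) := mul_le_mul_of_nonneg_left hlQ (by norm_num)
  have k4 : (DX + N2) * QX ≤ T * t := by
    calc (DX + N2) * QX ≤ t * T := mul_le_mul hpt hQXT hQX0 (by linarith)
      _ = T * t := by ring
  have k5 : (DX + N2) * (QX + QN) ≤ 8 * T * t := by
    calc (DX + N2) * (QX + QN) ≤ t * (8 * T) := mul_le_mul hpt hq8 hq0 (by linarith)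
      _ = 8 * T * t := by ring
  have k6 : (DX + N2) + (QX + QN) ≤ 9 * T * t := by linarith
  have hTtLn : 0 ≤ (T : ℝ) * t * L := by linarith
  have hB1 : 0 ≤ L1 * ((T : ℝ) * t * L) := mul_nonneg hL1n hTtLn
  have hB2 : 0 ≤ L2 * ((T : ℝ) * t * L) := mul_nonneg hL2n hTtLn
  have hBC : 0 ≤ C * ((T : ℝ) * t * L) := mul_nonneg (by linarith) hTtLn
  have k2L : (QX + QN) * DX * L ≤ 8 * T * t * L := mul_le_mul_of_nonneg_right k2 (by linarith)
  have k4L : (DX + N2) * QX * L ≤ T * t * L := mul_le_mul_of_nonneg_right k4 (by linarith)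
  refine ⟨?_, ?_, ?_⟩
  · have hd : (R.natDegree : ℝ) ≤ 2 * (DX + N2) * (QX + QN) := by
      have := hdeg
      have h2 : (R.natDegree : ℝ) ≤ ((2 * (dX b + b.natDegree) * (dX Q + Q.natDegree) : ℕ) : ℝ) := by
        exact_mod_cast this
      refine h2.trans (le_of_eq ?_)
      push_cast
      rfl
    linarith
  · have hMR : 0 < MM R := lt_of_lt_of_le zero_lt_one (one_le_MM R hR)
    rw [Real.log_le_iff_le_exp hMR]
    refine hMM.trans ?_
    have b1 : (len2 b * (1 + u) ^ dX b) ^ (dX Q + Q.natDegree) ≤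
        Real.exp (((dX Q + Q.natDegree : ℕ) : ℝ) * (lb + DX * (6 * L))) := by
      apply a11_pow _ _ _ (by positivity)
      rw [hlbe, Real.exp_add]
      exact mul_le_mul_of_nonneg_left (a11_pow _ _ _ (by positivity) hw) (Real.exp_nonneg _)
    have b2 : (len2 Q * (1 + u) ^ dX Q) ^ (dX b + b.natDegree) ≤
        Real.exp (((dX b + b.natDegree : ℕ) : ℝ) * (lQ + QX * (6 * L))) := by
      apply a11_pow _ _ _ (by positivity)
      rw [hlQe, Real.exp_add]
      exact mul_le_mul_of_nonneg_left (a11_pow _ _ _ (by positivity) hw) (Real.exp_nonneg _)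
    refine (mul_le_mul b1 b2 (by positivity) (Real.exp_nonneg _)).trans ?_
    rw [← Real.exp_add]
    apply Real.exp_le_exp.mpr
    have c1 : ((dX Q + Q.natDegree : ℕ) : ℝ) = QX + QN := by push_cast; rfl
    have c2 : ((dX b + b.natDegree : ℕ) : ℝ) = DX + N2 := by push_cast; rfl
    rw [c1, c2]
    linarith
  · refine hval.trans ?_
    have c1 : ((dX Q + Q.natDegree : ℕ) : ℝ) = QX + QN := by push_cast; rfl
    have c2 : ((dX b + b.natDegree : ℕ) : ℝ) = DX + N2 := by push_cast; rfl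
    have a1 : ((dX b + b.natDegree : ℕ) + (dX Q + Q.natDegree : ℕ) : ℝ) ≤ Real.exp (9 * T * t) := by
      rw [c1, c2]
      refine le_trans ?_ (Real.exp_le_exp.mpr k6)
      have := Real.add_one_le_exp ((DX + N2) + (QX + QN))
      linarith
    have a2 : (max 1 ‖θ 1‖) ^ ((dX b + b.natDegree) + (dX Q + Q.natDegree)) ≤
        Real.exp (9 * T * t * L1) := by
      have h1 : max 1 ‖θ 1‖ ≤ Real.exp L1 := by
        rw [hL1, Real.exp_log (lt_of_lt_of_le zero_lt_one (le_max_left _ _))]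
      refine (a11_pow _ _ _ (le_trans zero_le_one (le_max_left _ _)) h1).trans ?_
      apply Real.exp_le_exp.mpr
      refine mul_le_mul_of_nonneg_right ?_ hL1n
      rw [Nat.cast_add, c1, c2]
      exact k6
    have b1 : (len2 b * (1 + u) ^ dX b * (max 1 ‖θ 0 + u * θ 1‖) ^ dX b) ^ (dX Q + Q.natDegree) ≤
        Real.exp (((dX Q + Q.natDegree : ℕ) : ℝ) * (lb + DX * (6 * L) + DX * (L2 + 6 * L))) := by
      apply a11_pow _ _ _ (by positivity)
      rw [hlbe, Real.exp_add, Real.exp_add]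
      exact mul_le_mul (mul_le_mul_of_nonneg_left (a11_pow _ _ _ (by positivity) hw)
        (Real.exp_nonneg _)) (a11_pow _ _ _ hM0 hM) (by positivity) (by positivity)
    have b2 : (len2 Q * (1 + u) ^ dX Q * (max 1 ‖θ 0 + u * θ 1‖) ^ dX Q) ^ (dX b + b.natDegree) ≤
        Real.exp (((dX b + b.natDegree : ℕ) : ℝ) * (lQ + QX * (6 * L) + QX * (L2 + 6 * L))) := by
      apply a11_pow _ _ _ (by positivity)
      rw [hlQe, Real.exp_add, Real.exp_add]
      exact mul_le_mul (mul_le_mul_of_nonneg_left (a11_pow _ _ _ (by positivity) hw)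
        (Real.exp_nonneg _)) (a11_pow _ _ _ hM0 hM) (by positivity) (by positivity)
    have a3 : max ‖ev2 b (θ 0) (θ 1)‖ ‖ev2 Q (θ 0) (θ 1)‖ ≤ Real.exp (-κ) := max_le hvb hvQ
    have hall := mul_le_mul (mul_le_mul (mul_le_mul a1 a2 (by positivity) (Real.exp_nonneg _))
      (mul_le_mul b1 b2 (by positivity) (Real.exp_nonneg _)) (by positivity) (by positivity)) a3
      (le_max_of_le_left (norm_nonneg _)) (by positivity)
    refine hall.trans ?_
    rw [← Real.exp_add, ← Real.exp_add, ← Real.exp_add, ← Real.exp_add]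
    apply Real.exp_le_exp.mpr
    rw [c1, c2]
    have m1 : (QX + QN) * DX * L2 ≤ 8 * T * t * L2 := mul_le_mul_of_nonneg_right k2 hL2n
    have m2 : (DX + N2) * QX * L2 ≤ T * t * L2 := mul_le_mul_of_nonneg_right k4 hL2n
    have m3 : (T : ℝ) * t * L2 ≤ T * t * L * L2 := mul_le_mul_of_nonneg_right hTtL hL2n
    have m4 : (T : ℝ) * t * L1 ≤ T * t * L * L1 := mul_le_mul_of_nonneg_right hTtL hL1n
    linarith

end Pool.Agent.MSL
end

end

section

/-! # L/A12_Main: an algebraic point which is extremely close to `θ` -/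

open Polynomial Filter

noncomputable section

namespace Pool.Agent.MSL

open MSD MSP

theorem a12_asym (A : ℝ) : ∀ᶠ l : ℕ in atTop, A * Real.log l ^ 2 ≤ l ∧ 1 ≤ Real.log l ∧ 10 ≤ l := by
  have h1 : ∀ᶠ x : ℝ in atTop, ‖Real.log x ^ 2‖ ≤ (1 / (|A| + 1)) * ‖id x‖ :=
    (Real.isLittleO_pow_log_id_atTop (n := 2)).def (by positivity)
  have h2 : ∀ᶠ x : ℝ in atTop, 1 ≤ Real.log x := Real.tendsto_log_atTop.eventually_ge_atTop 1
  filter_upwards [tendsto_natCast_atTop_atTop.eventually h1, tendsto_natCast_atTop_atTop.eventually h2,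
    eventually_ge_atTop 10] with l e1 e2 e3
  refine ⟨?_, e2, e3⟩
  rw [Real.norm_of_nonneg (by positivity), id, Real.norm_of_nonneg (Nat.cast_nonneg l), one_div,
    inv_mul_eq_div, le_div_iff₀ (by positivity)] at e1
  have h3 : A * Real.log l ^ 2 ≤ (|A| + 1) * Real.log l ^ 2 :=
    mul_le_mul_of_nonneg_right (by linarith [le_abs_self A]) (by positivity)
  linarith

/-- the arithmetic of the parameters -/
theorem a12_arith (c C' K l Lg t : ℝ) (hc : 0 < c) (hC' : 1 ≤ C') (hl : 10 ≤ l) (hLg : 1 ≤ Lg)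
    (ht : 1 ≤ t) (htT : t ≤ 7 * l ^ 5) (h1 : 20 * C' * (|K| + 1) * Lg ^ 2 ≤ c * l) (h2 : 70 * C' * Lg ≤ l) :
    0 < C' * l ^ 5 * t * (5 * Lg) ∧
    C' * l ^ 5 * t * (5 * Lg) - c * (l ^ 5) ^ 2 * t ≤ -(c * (l ^ 5) ^ 2 * t / 2) ∧
    K * l ^ 4 * Lg ≤ (c * (l ^ 5) ^ 2 * t) / (2 * (C' * l ^ 5 * t * (5 * Lg)) ^ 2) / 2 * (C' * l ^ 5 * t * (5 * Lg)) ∧
    2 * (C' * l ^ 5 * t * (5 * Lg)) ≤ l ^ 11 := by
  have hl0 : 0 < l := by linarith
  have hLg0 : 0 < Lg := by linarith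
  have hC0 : 0 < C' := by linarith
  have ht0 : 0 < t := by linarith
  have hl5 : 0 < l ^ 5 := by positivity
  have hK : 0 ≤ |K| := abs_nonneg K
  have hLL : Lg ≤ Lg ^ 2 := by nlinarith
  have h3 : 20 * C' * Lg ≤ c * l := by
    have a1 : 20 * C' * Lg ≤ 20 * C' * Lg ^ 2 := mul_le_mul_of_nonneg_left hLL (by positivity)
    have a2 : 20 * C' * Lg ^ 2 ≤ 20 * C' * (|K| + 1) * Lg ^ 2 := by
      have : 0 ≤ 20 * C' * |K| * Lg ^ 2 := by positivity
      nlinarith
    linarith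
  have h4 : c * l ≤ c * l ^ 5 := by
    refine mul_le_mul_of_nonneg_left ?_ hc.le
    calc l = l ^ 1 := (pow_one l).symm
      _ ≤ l ^ 5 := pow_le_pow_right₀ (by linarith) (by norm_num)
  have hS : 0 < C' * l ^ 5 * t * (5 * Lg) := by positivity
  refine ⟨hS, ?_, ?_, ?_⟩
  · have hCL : 0 < C' * Lg := by positivity
    have a3 : 10 * C' * Lg * (l ^ 5 * t) ≤ c * l ^ 5 * (l ^ 5 * t) :=
      mul_le_mul_of_nonneg_right (by linarith) (by positivity)
    nlinarith
  · have e : (c * (l ^ 5) ^ 2 * t) / (2 * (C' * l ^ 5 * t * (5 * Lg)) ^ 2) / 2 * (C' * l ^ 5 * t * (5 * Lg)) =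
        c * l ^ 5 / (20 * C' * Lg) := by
      field_simp
      ring
    rw [e, le_div_iff₀ (by positivity)]
    have a4 : K * l ^ 4 * Lg * (20 * C' * Lg) = (20 * C' * K * Lg ^ 2) * l ^ 4 := by ring
    have a5 : c * l ^ 5 = (c * l) * l ^ 4 := by ring
    rw [a4, a5]
    refine mul_le_mul_of_nonneg_right (le_trans ?_ h1) (by positivity)
    refine mul_le_mul_of_nonneg_right ?_ (by positivity)
    exact mul_le_mul_of_nonneg_left (by linarith [le_abs_self K]) (by positivity)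
  · calc 2 * (C' * l ^ 5 * t * (5 * Lg)) = 10 * C' * Lg * l ^ 5 * t := by ring
      _ ≤ 10 * C' * Lg * l ^ 5 * (7 * l ^ 5) := mul_le_mul_of_nonneg_left htT (by positivity)
      _ = (70 * C' * Lg) * l ^ 10 := by ring
      _ ≤ l * l ^ 10 := mul_le_mul_of_nonneg_right h2 (by positivity)
      _ = l ^ 11 := by ring

/-- A12a. One variable of the curve dominates. PROOF. With `T = l^5`, `b` as given, `Q` from `second`, `Z` from `zeros_fin` (`card Z ≤ 2 · 14T · 8T ≤ 300 T²`), `B` from `res_u` (`card B ≤ 14 T`), `N = T^5 ≥ card B + 2 card Z + 2`: `sel` gives `u ≤ N`. `R` from `res_u`,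
`R(θ 0 + u θ 1) ≠ 0` (`lin_ne`), `R_bounds` with `κ = c T² t`, `t = sz b ≥ 1`: degree and `log MM` at most `S = C' T t log T`, `‖R(..)‖ ≤ exp (S - κ) ≤ exp (-κ/2)`. `exists_factor` (P/K1_Factor) with `δ = σ = S`, `Λ = κ/(2S²)` (`exp (-(Λ δ σ)) = exp (-κ/2)`): irreducible `f` of positive
degree with `log ‖f(..)‖ ≤ -(κ/(4S)) (natDegree f + log MM f)`, `κ/(4S) = c T/(4 C' log T) ≥ K l^4 log l` for large `l`; `natDegree f ≤ natDegree R ≤ S`, `MM f ≤ MM R` (`k3_factor` in P/K3_Gelfond), so `natDegree f + log MM f ≤ 2S ≤ 14 C' T² log T ≤ l^11`. A root `α` of `f` (`ℂ` is algebraically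
closed) is a root of `R`, so `α = x + u y` for a common zero; `f` and `mz α` have the same degree, `MM` and absolute values (`mz_assoc`). `v` from `sel`. `2N + 1 ≤ l^28`, `N ≤ l^28`. -/
theorem appr_of (θ : Fin 2 → ℂ) (hθ : AlgebraicIndependent ℚ θ) (c : ℝ) (hc : 0 < c) (hc1 : c ≤ 1) (K : ℝ) : ∀ᶠ l : ℕ in atTop, ∀ b : BP, Irreducible b →
    1 ≤ b.natDegree → dX b ≤ b.natDegree → sz b ≤ 7 * (l ^ 5 : ℕ) → ‖ev2 b (θ 0) (θ 1)‖ ≤ Real.exp (-(c * (l ^ 5 : ℕ) ^ 2 * sz b)) → Appr θ l K := by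
  obtain ⟨C, hC, hsec⟩ := second θ c hc hc1
  obtain ⟨C', hC', hRb⟩ := R_bounds θ C hC
  have hsec5 := (tendsto_pow_atTop (by norm_num : (5 : ℕ) ≠ 0) : Tendsto (fun l : ℕ => l ^ 5) atTop atTop).eventually hsec
  filter_upwards [hsec5, a12_asym (20 * C' * (|K| + 1) / c), a12_asym (70 * C')] with l hs2 ⟨q1, q2, q3⟩ ⟨q4, _, _⟩
  intro b hb hd hdX hsz hsm
  have hb0 : b ≠ 0 := hb.ne_zero
  have hlR : (10 : ℝ) ≤ l := by exact_mod_cast q3
  have hC0 : 0 < C' := by linarith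
  have r1 : 20 * C' * (|K| + 1) * Real.log l ^ 2 ≤ c * l := by
    rw [div_mul_eq_mul_div, div_le_iff₀ hc] at q1
    linarith
  have r2 : 70 * C' * Real.log l ≤ l := by
    refine le_trans ?_ q4
    refine mul_le_mul_of_nonneg_left ?_ (by positivity)
    nlinarith
  have hcast : (((l ^ 5 : ℕ)) : ℝ) = (l : ℝ) ^ 5 := by push_cast; ring
  have hlen : 0 ≤ Real.log (len2 b) := Real.log_nonneg (one_le_len2 b hb0)
  have ht : 1 ≤ sz b := by
    unfold sz
    have : (1 : ℝ) ≤ ((dX b + b.natDegree : ℕ) : ℝ) := by exact_mod_cast le_trans hd (Nat.le_add_left _ _)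
    linarith
  have htT : sz b ≤ 7 * (l : ℝ) ^ 5 := by rw [← hcast]; exact hsz
  have hdeg7 : dX b + b.natDegree ≤ 7 * l ^ 5 := by
    have h1 : ((dX b + b.natDegree : ℕ) : ℝ) ≤ 7 * ((l ^ 5 : ℕ) : ℝ) := by
      have := hsz
      unfold sz at this
      linarith
    exact_mod_cast h1
  obtain ⟨S0, S1, S2, S3⟩ := a12_arith c C' K l (Real.log l) (sz b) hc hC' hlR q2 ht htT r1 r2
  obtain ⟨Q, hQ0, hbQ, hQd, hQX, hQl, hQs⟩ := hs2 b hb0 hd hsz
  obtain ⟨Z, hZ, hZc, hZa⟩ := zeros_fin b Q hb hd hQ0 hbQ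
  obtain ⟨B, hBc, hBR⟩ := res_u b Q hb hd hQ0 hbQ
  have hl10 : 10 ≤ l := q3
  have hT10 : 100000 ≤ l ^ 5 := by
    calc 100000 = 10 ^ 5 := by norm_num
      _ ≤ l ^ 5 := Nat.pow_le_pow_left hl10 5
  have hQdeg : dX Q + Q.natDegree ≤ 8 * l ^ 5 := by omega
  have hcard : B.card + 2 * Z.card + 2 ≤ (l ^ 5) ^ 5 := by
    generalize l ^ 5 = T at *
    have h1 : Z.card ≤ 2 * (7 * T) * (8 * T) :=
      hZc.trans (Nat.mul_le_mul (Nat.mul_le_mul_left 2 hdeg7) hQdeg)
    have h2 : B.card ≤ 7 * T := hBc.trans hdeg7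
    have h3 : 1000 * T ^ 2 ≤ T ^ 5 := by
      calc 1000 * T ^ 2 ≤ T ^ 3 * T ^ 2 := by
            refine Nat.mul_le_mul_right _ ?_
            calc 1000 ≤ T := by omega
              _ = T ^ 1 := (pow_one T).symm
              _ ≤ T ^ 3 := Nat.pow_le_pow_right (by omega) (by norm_num)
        _ = T ^ 5 := by ring
    nlinarith
  obtain ⟨u, huN, huB, hu1, hu2⟩ := sel Z (θ 0) (θ 1) ((l ^ 5) ^ 5) B hcard
  obtain ⟨R, hR0, hRz, hRr, hRd, hRM, hRv⟩ := hBR u huB
  have hlogT : Real.log (((l ^ 5 : ℕ)) : ℝ) = 5 * Real.log l := by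
    rw [hcast, Real.log_pow]; norm_num
  obtain ⟨w1, w2, w3⟩ := hRb (l ^ 5) (by omega) b Q u (c * ((l ^ 5 : ℕ) : ℝ) ^ 2 * sz b) R hb0 hQ0 hR0 hd hdX hsz hQd hQX
    hQl huN hsm hQs hRd hRM (hRv (θ 0) (θ 1))
  rw [hlogT, hcast] at w1 w2 w3
  have hne := lin_ne θ hθ u R hR0
  set S : ℝ := C' * (l : ℝ) ^ 5 * sz b * (5 * Real.log l) with hSdef
  have hkap : 0 < c * ((l : ℝ) ^ 5) ^ 2 * sz b := by positivity
  obtain ⟨f, hf, hfR, hf1, hfl⟩ := exists_factor (θ 0 + u * θ 1) R hne S S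
    ((c * ((l : ℝ) ^ 5) ^ 2 * sz b) / (2 * S ^ 2)) S0 S0 (by positivity) w1 w2 (by
      refine w3.trans (Real.exp_le_exp.2 (S1.trans (le_of_eq ?_)))
      have : S ≠ 0 := S0.ne'
      field_simp)
  obtain ⟨g1, g2⟩ := k3_factor hR0 hfR
  have hf0 : f ≠ 0 := hf.ne_zero
  have hMf : 0 ≤ Real.log (MM f) := Real.log_nonneg (one_le_MM f hf0)
  obtain ⟨α, hα⟩ : ∃ α : ℂ, aeval α f = 0 := by
    refine IsAlgClosed.exists_aeval_eq_zero_of_injective ℂ ?_ f ?_
    · exact (algebraMap ℤ ℂ).injective_int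
    · intro h0
      have := natDegree_eq_zero_iff_degree_le_zero.2 h0.le
      omega
  obtain ⟨m1, m2, m3⟩ := mz_assoc α f hf hf1 hα
  have hαR : aeval α R = 0 := by
    obtain ⟨k, rfl⟩ := hfR
    rw [map_mul, hα, zero_mul]
  obtain ⟨x, y, hx, hy, hxy⟩ := hRr α hαR
  have hmem : ((x, y) : ℂ × ℂ) ∈ Z := (hZ (x, y)).2 ⟨hx, hy⟩
  obtain ⟨v, hvN, -, hvu, hvh⟩ := hu2 (x, y) hmem
  have hpow : (l ^ 5) ^ 5 ≤ l ^ 28 := by
    rw [← pow_mul]
    exact Nat.pow_le_pow_right (by omega) (by norm_num)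
  have hN28 : (2 * (((l ^ 5) ^ 5 : ℕ) : ℝ) + 1) ≤ (l : ℝ) ^ 28 := by
    have h1 : 2 * (l ^ 5) ^ 5 + 1 ≤ l ^ 28 := by
      have e : l ^ 28 = (l ^ 5) ^ 5 * l ^ 3 := by ring
      have h2 : 0 < (l ^ 5) ^ 5 := by positivity
      have h3 : 3 ≤ l ^ 3 := by
        calc 3 ≤ l := by omega
          _ = l ^ 1 := (pow_one l).symm
          _ ≤ l ^ 3 := Nat.pow_le_pow_right (by omega) (by norm_num)
      rw [e]
      nlinarith
    exact_mod_cast h1
  refine ⟨b, Q, u, v, x, y, fun h => hvu h.symm, huN.trans hpow, hvN.trans hpow, hx, hy, ?_, ?_, ?_, hvh⟩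
  · intro x' y' hx' hy'
    have hmem' : ((x', y') : ℂ × ℂ) ∈ Z := (hZ (x', y')).2 ⟨hx', hy'⟩
    refine ⟨(hZa _ hmem').1, (hZa _ hmem').2, ?_, ?_⟩
    · exact (hu1 _ hmem').1.trans (mul_le_mul_of_nonneg_right hN28 (norm_nonneg _))
    · exact (hu1 _ hmem').2.trans (mul_le_mul_of_nonneg_right hN28 (norm_nonneg _))
  · rw [hxy, ← m1, ← m2]
    have g1' : (f.natDegree : ℝ) ≤ R.natDegree := by exact_mod_cast g1
    linarith
  · rw [hxy, ← m1, ← m2, ← m3]
    have hfne := lin_ne θ hθ u f hf0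
    rw [← Real.exp_log (norm_pos_iff.2 hfne)]
    refine Real.exp_le_exp.2 (hfl.trans (neg_le_neg ?_))
    have hX : 0 ≤ (f.natDegree : ℝ) + Real.log (MM f) := by positivity
    calc K * (l : ℝ) ^ 4 * Real.log l * ((f.natDegree : ℝ) + Real.log (MM f))
        ≤ ((c * ((l : ℝ) ^ 5) ^ 2 * sz b) / (2 * S ^ 2) / 2 * S) * ((f.natDegree : ℝ) + Real.log (MM f)) :=
          mul_le_mul_of_nonneg_right S2 hX
      _ = (c * ((l : ℝ) ^ 5) ^ 2 * sz b) / (2 * S ^ 2) / 2 * (f.natDegree * S + Real.log (MM f) * S) := by ring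

/-- A12b. PROOF. `curve` with `T = l^5` (`tendsto_pow_atTop`), then `appr_of` for `θ` if `dX b ≤ natDegree b`, otherwise `exists_swap` and `appr_of` for `![θ 1, θ 0]` (algebraically independent: `AlgebraicIndependent.comp` with the injective map that swaps the indices). -/
theorem appr_main (θ : Fin 2 → ℂ) (hθ : AlgebraicIndependent ℚ θ) (K : ℝ) : ∀ᶠ l : ℕ in atTop, Appr θ l K ∨ Appr ![θ 1, θ 0] l K := by
  have hθ' : AlgebraicIndependent ℚ ![θ 1, θ 0] := by
    have h1 := hθ.comp (Equiv.swap (0 : Fin 2) 1) (Equiv.injective _)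
    have e : θ ∘ (Equiv.swap (0 : Fin 2) 1) = ![θ 1, θ 0] := by
      funext i
      fin_cases i <;> simp
    rwa [e] at h1
  obtain ⟨c, hc, hc1, hcur⟩ := curve θ hθ
  have hcur5 := (tendsto_pow_atTop (by norm_num : (5 : ℕ) ≠ 0) : Tendsto (fun l : ℕ => l ^ 5) atTop atTop).eventually hcur
  filter_upwards [hcur5, appr_of θ hθ c hc hc1 K, appr_of ![θ 1, θ 0] hθ' c hc hc1 K] with l ⟨b, hb, hb1, hbs, hbv⟩ k1 k2
  rcases le_or_gt (dX b) b.natDegree with hle | hlt
  · exact Or.inl (k1 b hb (by omega) hle hbs hbv)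
  · obtain ⟨q, hq1, hq0, hqX, hqY, hql, hqe⟩ := exists_swap b hb.ne_zero
    have hsz : sz q = sz b := by
      unfold sz
      rw [hqX, hqY, hql, add_comm b.natDegree]
    refine Or.inr (k2 q (hq1 hb) (by omega) (by omega) (by rw [hsz]; exact hbs) ?_)
    rw [hqe, hsz]
    exact hbv

end Pool.Agent.MSL
end

end
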