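import Mathlib
import Pool.Agent.Lib.MP_f58a57_nt.FK.K031

namespace Pool.Agent.MSD
end Pool.Agent.MSD
namespace Pool.Agent.MSK
end Pool.Agent.MSK
namespace Pool.Agent.MSP
end Pool.Agent.MSP
namespace Pool.Agent.MSR
end Pool.Agent.MSR

section

/-! # K/G6b_Orig: the original curve -/

open Complex Filter Topology IntermediateField

noncomputable section

namespace Pool.Agent.MSK

open MSD MSP

variable {d : ℕ}

/-- a point with half integral `z` coordinate is not in the lattice -/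
theorem g6b_half (z : ℂ) (hz : 0 < z.im) (t : ℂ) (ht : t.im = -(z.im / 2)) : th z t ≠ 0 := by
  intro h0
  obtain ⟨m, n, h⟩ := (th_eq_zero_iff z hz t).1 h0
  have h1 : t.im = n * z.im := by
    rw [h]
    simp
  rw [ht] at h1
  have h2 : (n : ℝ) = -(1 / 2) := by
    have : (n + 1 / 2 : ℝ) * z.im = 0 := by linarith
    rcases mul_eq_zero.1 this with h | h
    · linarith
    · exact absurd h hz.ne'
  have h3 : (2 * n : ℤ) = -1 := by
    have : (2 * n : ℝ) = -1 := by linarith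
    exact_mod_cast this
  omega

theorem g6b_half2 (z : ℂ) (hz : 0 < z.im) : th z (1 / 2) ≠ 0 := by
  intro h0
  obtain ⟨m, n, h⟩ := (th_eq_zero_iff z hz _).1 h0
  have h1 : (0 : ℝ) = n * z.im := by
    have := congrArg Complex.im h
    simpa using this
  have h2 : (n : ℝ) = 0 := by
    rcases mul_eq_zero.1 h1.symm with h | h
    · exact h
    · exact absurd h hz.ne'
  have h3 : (2 * m : ℤ) = 1 := by
    have hn : (n : ℂ) = 0 := by exact_mod_cast h2
    rw [hn, zero_mul, add_zero] at h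
    have : (2 * m : ℂ) = 1 := by rw [← h]; norm_num
    exact_mod_cast this
  omega

/-- G6b. PROOF. `om = √π`, `kap = sE z/π`, `h = hP z`; `hP z l` is not in the lattice `ℤ + ℤz` (`th_eq_zero_iff`; `z.im > 0`). -/
theorem exists_orig (P : Par d) (hd : 1 ≤ d) : ∃ D : Dt d, IsOrig P D := by
  have hpi : (0 : ℝ) < Real.pi := Real.pi_pos
  have him : 0 < P.z.im := P.im
  have hne : ((Real.sqrt Real.pi : ℝ) : ℂ) ≠ 0 := by
    have := (Real.sqrt_pos.2 hpi).ne'
    exact_mod_cast this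
  refine ⟨⟨P.z, him, ((Real.sqrt Real.pi : ℝ) : ℂ), hne, sE P.z / Real.pi, hP P.z, ?_⟩, rfl, ?_, rfl, rfl⟩
  · intro l
    unfold hP
    split_ifs with h1 h2
    · refine g6b_half P.z him _ ?_
      simp only [neg_div, Complex.neg_im]
      congr 1
      have : P.z / 2 = P.z * ((1 / 2 : ℝ) : ℂ) := by push_cast; ring
      rw [this, Complex.im_mul_ofReal]
      ring
    · exact g6b_half2 P.z him
    · refine g6b_half P.z him _ ?_
      have : (1 - P.z) / 2 = (1 - P.z) * ((1 / 2 : ℝ) : ℂ) := by push_cast; ring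
      rw [this, Complex.im_mul_ofReal]
      simp only [Complex.sub_im, Complex.one_im]
      ring
  · change ((Real.sqrt Real.pi : ℝ) : ℂ) ^ 2 = (Real.pi : ℂ)
    have := Real.sq_sqrt hpi.le
    exact_mod_cast this

end Pool.Agent.MSK
end

end

section

/-! # L/M1_Upper: the upper bound for the determinants near the original curve -/

open Filter

noncomputable section

namespace Pool.Agent.MSL

open MSD MSP MSK MSR

theorem m1_prod (E M : ℕ) (hE : 2 ≤ E) (C₀ : ℕ) (hC₀ : 1 ≤ C₀) (μ : ℝ) (h0 : 0 ≤ μ) (h4 : μ ≤ (E : ℝ) ^ 4)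
    (hδ : (E : ℝ) ^ M * Real.exp (-μ) ≤ 1) :
    ∏ m ∈ Finset.range (E ^ 2), (Real.exp (-((m : ℝ) ^ 2 / C₀)) + (E : ℝ) ^ M * Real.exp (-μ)) ≤
      (2 * (E : ℝ) ^ M) ^ (E ^ 2) * Real.exp (-(μ / (4 * C₀))) ^ (E ^ 2 - (E ^ 2 + 1) / 2) := by
  have hEr : (2 : ℝ) ≤ E := by exact_mod_cast hE
  have hC : (1 : ℝ) ≤ C₀ := by exact_mod_cast hC₀
  have hEM : (1 : ℝ) ≤ (E : ℝ) ^ M := one_le_pow₀ (by linarith)
  set c : ℝ := Real.exp (-(μ / (4 * C₀))) with hc
  set n : ℕ := E ^ 2 with hn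
  have hk : (n + 1) / 2 ≤ n := by
    have : 4 ≤ n := by rw [hn]; nlinarith
    omega
  have hf0 : ∀ m : ℕ, 0 ≤ Real.exp (-((m : ℝ) ^ 2 / C₀)) + (E : ℝ) ^ M * Real.exp (-μ) := fun m => by positivity
  have hA : ∀ m : ℕ, Real.exp (-((m : ℝ) ^ 2 / C₀)) + (E : ℝ) ^ M * Real.exp (-μ) ≤ 2 * (E : ℝ) ^ M := by
    intro m
    have h1 : Real.exp (-((m : ℝ) ^ 2 / C₀)) ≤ 1 := by
      rw [Real.exp_le_one_iff]
      have : 0 ≤ (m : ℝ) ^ 2 / C₀ := by positivity
      linarith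
    linarith
  have hB : ∀ m : ℕ, n ≤ 2 * m → Real.exp (-((m : ℝ) ^ 2 / C₀)) + (E : ℝ) ^ M * Real.exp (-μ) ≤ 2 * (E : ℝ) ^ M * c := by
    intro m hm
    have hm' : (E : ℝ) ^ 2 ≤ 2 * m := by
      have : ((E ^ 2 : ℕ) : ℝ) ≤ ((2 * m : ℕ) : ℝ) := by exact_mod_cast hm
      push_cast at this
      exact this
    have hm2 : (E : ℝ) ^ 4 ≤ 4 * (m : ℝ) ^ 2 := by
      have h5 : 0 ≤ (E : ℝ) ^ 2 := by positivity
      nlinarith
    have h1 : Real.exp (-((m : ℝ) ^ 2 / C₀)) ≤ c := by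
      rw [hc]
      refine Real.exp_le_exp.2 ?_
      have : μ / (4 * C₀) ≤ (m : ℝ) ^ 2 / C₀ := by
        rw [div_le_div_iff₀ (by positivity) (by positivity)]
        nlinarith
      linarith
    have h2 : Real.exp (-μ) ≤ c := by
      rw [hc]
      refine Real.exp_le_exp.2 ?_
      have : μ / (4 * C₀) ≤ μ := div_le_self h0 (by linarith)
      linarith
    have hc0 : 0 ≤ c := Real.exp_nonneg _
    calc Real.exp (-((m : ℝ) ^ 2 / C₀)) + (E : ℝ) ^ M * Real.exp (-μ) ≤ c + (E : ℝ) ^ M * c :=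
          add_le_add h1 (mul_le_mul_of_nonneg_left h2 (by positivity))
      _ ≤ (E : ℝ) ^ M * c + (E : ℝ) ^ M * c := by nlinarith
      _ = _ := by ring
  rw [← Finset.prod_range_mul_prod_Ico _ hk]
  have h1 : ∏ m ∈ Finset.range ((n + 1) / 2), (Real.exp (-((m : ℝ) ^ 2 / C₀)) + (E : ℝ) ^ M * Real.exp (-μ)) ≤
      (2 * (E : ℝ) ^ M) ^ ((n + 1) / 2) := by
    refine (Finset.prod_le_prod (fun m _ => hf0 m) fun m _ => hA m).trans ?_
    rw [Finset.prod_const, Finset.card_range]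
  have h2 : ∏ m ∈ Finset.Ico ((n + 1) / 2) n, (Real.exp (-((m : ℝ) ^ 2 / C₀)) + (E : ℝ) ^ M * Real.exp (-μ)) ≤
      (2 * (E : ℝ) ^ M * c) ^ (n - (n + 1) / 2) := by
    refine (Finset.prod_le_prod (fun m _ => hf0 m) fun m hm => hB m ?_).trans ?_
    · have := (Finset.mem_Ico.1 hm).1
      omega
    rw [Finset.prod_const, Nat.card_Ico]
  calc _ ≤ (2 * (E : ℝ) ^ M) ^ ((n + 1) / 2) * (2 * (E : ℝ) ^ M * c) ^ (n - (n + 1) / 2) :=
        mul_le_mul h1 h2 (Finset.prod_nonneg fun m _ => hf0 m) (by positivity)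
    _ = _ := by
      rw [mul_pow (2 * (E : ℝ) ^ M) c, ← mul_assoc, ← pow_add, Nat.add_sub_cancel' hk]

/-- M1. PROOF. `DetSmall` with `T = 8E`, `B = E^M` (`≥ 2`), `δ = E^M exp (-μ)`. `C₀` its constant. For `m ≥ E²/2` (at least `E²/2` indices in `range (E²)`): `exp (-(m²/C₀)) ≤ exp (-(E⁴/(4C₀))) ≤ exp (-(μ/(4C₀)))` (`μ ≤ E⁴`) and `δ ≤ E^M exp (-(μ/(4C₀)))`, so the factor is `≤ 2 E^M exp (-(μ/(4C₀)))`; the other
factors are `≤ 2 ≤ 2 E^M`. Product `≤ (2E^M)^(E²) exp (-(μ E²/(8C₀)))`. `(B T)^(C₀ T E²) = (8 E^(M+1))^(8 C₀ E³) ≤ exp (C E³ log E)` as `log (8 E^(M+1)) ≤ (M + 4) log E` for `E ≥ 2`. -/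
theorem upper (P : Par 2) (hD : DetSmall P) (H : ℝ) (M : ℕ) (hM : 1 ≤ M) : ∃ C : ℝ, 1 ≤ C ∧ ∀ E : ℕ, 2 ≤ E → ∀ D : Dt 2, D.τ = P.z → D.om ^ 2 = Real.pi →
    D.kap = sE P.z / Real.pi → (∀ l, ‖D.h l‖ ≤ H) → (∀ v, ‖vals P D v‖ ≤ E ^ M) → ∀ (x : Vr 2 → ℂ) (μ : ℝ), 0 ≤ μ → μ ≤ E ^ 4 →
      (E : ℝ) ^ M * Real.exp (-μ) ≤ 1 → (∀ v, ‖x v - vals P D v‖ ≤ (E : ℝ) ^ M * Real.exp (-μ)) →
        ∀ (a : Ir 2 E → Fin 2 → ℕ) (k : Ir 2 E → ℕ), (∀ i j, a i j ≤ 8 * E) → (∀ i, k i ≤ 8 * E) →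
          ‖(DL x a k).det‖ ≤ Real.exp (C * E ^ 3 * Real.log E - μ * E ^ 2 / C) := by
  obtain ⟨C₀, hC₀, hdet⟩ := hD H
  have hC : (1 : ℝ) ≤ C₀ := by exact_mod_cast hC₀
  refine ⟨8 * C₀ * (M + 4) + (M + 1) + 16 * C₀, by nlinarith [(Nat.cast_nonneg M : (0:ℝ) ≤ M)], ?_⟩
  intro E hE D hτ hom hkap hh hvals x μ h0 h4 hδ hx a k ha hk
  have hEr : (2 : ℝ) ≤ E := by exact_mod_cast hE
  have hL : 0 < Real.log E := Real.log_pos (by linarith)
  have hl2 : Real.log 2 ≤ Real.log E := Real.log_le_log (by norm_num) hEr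
  have hB : (2 : ℝ) ≤ (E : ℝ) ^ M := by
    calc (2 : ℝ) ≤ (E : ℝ) ^ 1 := by rw [pow_one]; exact hEr
      _ ≤ (E : ℝ) ^ M := pow_le_pow_right₀ (by linarith) hM
  have h1 := hdet D hτ hom hkap hh ((E : ℝ) ^ M) hB hvals E (8 * E) (by omega) (by omega) x
    ((E : ℝ) ^ M * Real.exp (-μ)) (by positivity) hδ hx a k ha hk
  refine h1.trans ?_
  have h2 := m1_prod E M hE C₀ hC₀ μ h0 h4 hδ
  have e1 : (E : ℝ) = Real.exp (Real.log E) := (Real.exp_log (by linarith)).symm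
  have h3 : (E : ℝ) ^ M * ((8 * E : ℕ) : ℝ) ≤ Real.exp ((M + 4) * Real.log E) := by
    have h8 : (8 : ℝ) ≤ (E : ℝ) ^ 3 := by
      calc (8 : ℝ) = 2 ^ 3 := by norm_num
        _ ≤ (E : ℝ) ^ 3 := pow_le_pow_left₀ (by norm_num) hEr 3
    have e2 : Real.exp ((M + 4) * Real.log E) = (E : ℝ) ^ (M + 4) := by
      rw [← Real.exp_log (show (0 : ℝ) < (E : ℝ) ^ (M + 4) by positivity), Real.log_pow]
      push_cast
      rfl
    rw [e2]
    push_cast
    calc (E : ℝ) ^ M * (8 * E) ≤ (E : ℝ) ^ M * ((E : ℝ) ^ 3 * E) := by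
          refine mul_le_mul_of_nonneg_left ?_ (by positivity)
          exact mul_le_mul_of_nonneg_right h8 (by positivity)
      _ = (E : ℝ) ^ (M + 4) := by ring
  have h5 : 2 * (E : ℝ) ^ M ≤ Real.exp ((M + 1) * Real.log E) := by
    have e2 : Real.exp ((M + 1) * Real.log E) = (E : ℝ) ^ (M + 1) := by
      rw [← Real.exp_log (show (0 : ℝ) < (E : ℝ) ^ (M + 1) by positivity), Real.log_pow]
      push_cast
      rfl
    rw [e2, pow_succ, mul_comm]
    exact mul_le_mul_of_nonneg_left hEr (by positivity)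
  have h6 : ((E : ℝ) ^ M * ((8 * E : ℕ) : ℝ)) ^ (C₀ * (8 * E) * E ^ 2) ≤
      Real.exp (8 * C₀ * (M + 4) * E ^ 3 * Real.log E) := by
    refine (pow_le_pow_left₀ (by positivity) h3 _).trans (le_of_eq ?_)
    rw [← Real.exp_nat_mul]
    push_cast
    congr 1
    ring
  have h7 : (2 * (E : ℝ) ^ M) ^ (E ^ 2) ≤ Real.exp ((M + 1) * E ^ 3 * Real.log E) := by
    refine (pow_le_pow_left₀ (by positivity) h5 _).trans ?_
    rw [← Real.exp_nat_mul]
    refine Real.exp_le_exp.2 ?_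
    push_cast
    have : (E : ℝ) ^ 2 ≤ (E : ℝ) ^ 3 := pow_le_pow_right₀ (by linarith) (by norm_num)
    have h9 : 0 ≤ ((M : ℝ) + 1) * Real.log E := by positivity
    nlinarith
  have h8 : Real.exp (-(μ / (4 * C₀))) ^ (E ^ 2 - (E ^ 2 + 1) / 2) ≤ Real.exp (-(μ * E ^ 2 / (16 * C₀))) := by
    rw [← Real.exp_nat_mul]
    refine Real.exp_le_exp.2 ?_
    have h9 : (E : ℝ) ^ 2 / 4 ≤ ((E ^ 2 - (E ^ 2 + 1) / 2 : ℕ) : ℝ) := by
      have h10 : E ^ 2 ≤ 4 * (E ^ 2 - (E ^ 2 + 1) / 2) := by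
        have : 4 ≤ E ^ 2 := by nlinarith
        omega
      have h11 : ((E ^ 2 : ℕ) : ℝ) ≤ ((4 * (E ^ 2 - (E ^ 2 + 1) / 2) : ℕ) : ℝ) := by exact_mod_cast h10
      rw [Nat.cast_mul] at h11
      push_cast at h11 ⊢
      linarith
    have h12 : 0 ≤ μ / (4 * C₀) := by positivity
    have h13 : μ * E ^ 2 / (16 * C₀) = (E : ℝ) ^ 2 / 4 * (μ / (4 * C₀)) := by
      field_simp
      ring
    rw [h13]
    nlinarith
  have hK : 0 ≤ μ * (E : ℝ) ^ 2 := by positivity
  calc _ ≤ Real.exp (8 * C₀ * (M + 4) * E ^ 3 * Real.log E) * (Real.exp ((M + 1) * E ^ 3 * Real.log E) *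
        Real.exp (-(μ * E ^ 2 / (16 * C₀)))) := by
        refine mul_le_mul h6 (h2.trans (mul_le_mul h7 h8 (by positivity) (by positivity))) ?_ (by positivity)
        exact Finset.prod_nonneg fun m _ => by positivity
    _ = Real.exp ((8 * C₀ * (M + 4) + (M + 1)) * E ^ 3 * Real.log E - μ * E ^ 2 / (16 * C₀)) := by
        rw [← Real.exp_add, ← Real.exp_add]
        congr 1
        ring
    _ ≤ _ := by
        refine Real.exp_le_exp.2 ?_
        have h9 : μ * (E : ℝ) ^ 2 / (8 * C₀ * (M + 4) + (M + 1) + 16 * C₀) ≤ μ * (E : ℝ) ^ 2 / (16 * C₀) := by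
          refine div_le_div_of_nonneg_left hK (by positivity) ?_
          have : (0 : ℝ) ≤ 8 * C₀ * (M + 4) + (M + 1) := by positivity
          linarith
        have h10 : 0 ≤ 16 * (C₀ : ℝ) * E ^ 3 * Real.log E := by positivity
        nlinarith

end Pool.Agent.MSL
end

end

section

/-! # U/X4_Geo: the two planes -/

open Complex MvPolynomial

noncomputable section

namespace Pool.Agent.MSU

open MSD MSP MSK MSR

/-- X4a. PROOF. `Dv P 0 = (-z, 1, 0)`, `Dv P 1 = (-z^2, 0, 1)` (`tt`, `Fin.cons`, `Pi.single`). -/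
theorem Dv_zero (P : Par 2) : Dv P 0 = ![-P.z, 1, 0] := by
  funext l
  fin_cases l
  · simp [Dv, tt, Pi.single_apply]
  · show (Pi.single 0 1 : Fin 2 → ℂ) 0 = 1
    simp
  · show (Pi.single 0 1 : Fin 2 → ℂ) 1 = 0
    simp

theorem Dv_one (P : Par 2) : Dv P 1 = ![-P.z ^ 2, 0, 1] := by
  funext l
  fin_cases l
  · simp [Dv, tt, Pi.single_apply]
  · show (Pi.single 1 1 : Fin 2 → ℂ) 0 = 0
    simp
  · show (Pi.single 1 1 : Fin 2 → ℂ) 1 = 1
    simp

/-- X4b. PROOF. `rhv`, `rh = -I/2`. -/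
theorem Zv_zero (P : Par 2) (D : Dt 2) : Zv P D 0 = fun l => -(rh / D.om) * (![1, -P.z, (P.b 1 : ℂ)] : Fin 3 → ℂ) l := by
  funext l
  fin_cases l <;> simp [Zv, rhv, Fin.last, Fin.ext_iff] <;> ring

theorem Zv_one (P : Par 2) (D : Dt 2) : Zv P D 1 = fun l => -(rh / D.om) * (![0, 1, (P.b 2 : ℂ) - P.z] : Fin 3 → ℂ) l := by
  funext l
  fin_cases l <;> simp [Zv, rhv, Fin.last, Fin.ext_iff] <;> ring

/-- X4c. -/
theorem rD_Dv (P : Par 2) (i : Fin 2) : ∑ l, rD P l * Dv P i l = 0 := by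
  fin_cases i
  · show ∑ l, rD P l * Dv P 0 l = 0
    rw [Dv_zero]
    simp [rD, Fin.sum_univ_three]
  · show ∑ l, rD P l * Dv P 1 l = 0
    rw [Dv_one]
    simp [rD, Fin.sum_univ_three]

theorem rZ_Zv (P : Par 2) (D : Dt 2) (j : Fin 2) : ∑ l, rZ P l * Zv P D j l = 0 := by
  fin_cases j
  · show ∑ l, rZ P l * Zv P D 0 l = 0
    rw [Zv_zero]
    simp only [rZ, Fin.sum_univ_three, Matrix.cons_val_zero, Matrix.cons_val_one, Matrix.cons_val]
    ring
  · show ∑ l, rZ P l * Zv P D 1 l = 0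
    rw [Zv_one]
    simp only [rZ, Fin.sum_univ_three, Matrix.cons_val_zero, Matrix.cons_val_one, Matrix.cons_val]
    ring

/-- X4d. -/
theorem Dv_li (P : Par 2) : LinearIndependent ℂ (Dv P) := by
  rw [Fintype.linearIndependent_iff]
  intro g hg
  rw [Fin.sum_univ_two, Dv_zero, Dv_one] at hg
  have h1 := congrFun hg 1
  have h2 := congrFun hg 2
  simp at h1 h2
  intro i
  fin_cases i
  · exact h1
  · exact h2

theorem Zv_li (P : Par 2) (D : Dt 2) : LinearIndependent ℂ (Zv P D) := by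
  have hr : rh / D.om ≠ 0 := by
    refine div_ne_zero ?_ D.ne
    rw [rh]
    exact div_ne_zero (neg_ne_zero.2 I_ne_zero) two_ne_zero
  rw [Fintype.linearIndependent_iff]
  intro g hg
  rw [Fin.sum_univ_two, Zv_zero, Zv_one] at hg
  have h0 := congrFun hg 0
  have h1 := congrFun hg 1
  simp only [Pi.add_apply, Pi.smul_apply, smul_eq_mul, Matrix.cons_val_zero, Matrix.cons_val_one,
    Pi.zero_apply] at h0 h1
  have e0 : g 0 = 0 := by
    have h2 : g 0 * (rh / D.om) = 0 := by linear_combination -h0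
    exact (mul_eq_zero.1 h2).resolve_right hr
  have e1 : g 1 = 0 := by
    rw [e0] at h1
    have h2 : g 1 * (rh / D.om) = 0 := by linear_combination -h1
    exact (mul_eq_zero.1 h2).resolve_right hr
  intro i
  fin_cases i
  · exact e0
  · exact e1

/-- X4e. PROOF. `P.li`: `1, z, z^2` are linearly independent over `ℚ`. -/
theorem rD_int (P : Par 2) (n : Fin 3 → ℤ) (h : ∑ l, rD P l * (n l : ℂ) = 0) : n = 0 := by
  have h1 := P.li (fun l => (n l : ℚ)) (by
    rw [Fin.sum_univ_three] at h ⊢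
    simp only [rD, Matrix.cons_val_zero, Matrix.cons_val_one, Matrix.cons_val] at h
    simp only [Par.z] at h
    push_cast
    simp only [Fin.val_zero, Fin.val_one, Fin.val_two, pow_zero, pow_one]
    linear_combination h)
  funext l
  have h2 := congrFun h1 l
  simp only [Pi.zero_apply] at h2
  exact_mod_cast h2

theorem rZ_int (P : Par 2) (n : Fin 3 → ℤ) (h : ∑ l, rZ P l * (n l : ℂ) = 0) : n = 0 := by
  have h1 := P.li ![(n 2 : ℚ) - P.b 1 * n 0 - P.b 2 * n 1, (n 1 : ℚ) - P.b 2 * n 0, (n 0 : ℚ)] (by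
    rw [Fin.sum_univ_three] at h ⊢
    simp only [rZ, Matrix.cons_val_zero, Matrix.cons_val_one, Matrix.cons_val] at h ⊢
    simp only [Par.z] at h
    push_cast
    simp only [Fin.val_zero, Fin.val_one, Fin.val_two, pow_zero, pow_one]
    linear_combination h)
  have e2 := congrFun h1 2
  have e1 := congrFun h1 1
  have e0 := congrFun h1 0
  simp only [Matrix.cons_val_zero, Matrix.cons_val_one, Matrix.cons_val, Pi.zero_apply] at e0 e1 e2
  have n0 : n 0 = 0 := by exact_mod_cast e2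
  have n1 : n 1 = 0 := by
    rw [n0, Int.cast_zero, mul_zero, sub_zero] at e1
    exact_mod_cast e1
  have n2 : n 2 = 0 := by
    rw [n0, n1, Int.cast_zero, mul_zero, mul_zero, sub_zero, sub_zero] at e0
    exact_mod_cast e0
  funext l
  fin_cases l
  · exact n0
  · exact n1
  · exact n2

end Pool.Agent.MSU
end

end

section

/-! # L/S4_Base: base points with given values of the Weierstrass function -/

open Complex

noncomputable section

namespace Pool.Agent.MSL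

open MSD MSP MSK

/-- S4a. PROOF. Suppose `wp - X` has no zero off the lattice. `wp = N2/N0²` (definition), so `f = N0²/(N2 - X N0²)` is entire: if `N0 t ≠ 0` then `N2 - X N0² = N0² (wp - X) ≠ 0`; if `N0 t = 0` then `N2 t ≠ 0` (`N2 = N1² - N0 N0'' - s N0²`, `N1 = (th)' ≠ 0` at the zeros of `th`: `deriv_th_zero_ne` and the
functional equation; alternatively: `wp → ∞` at lattice points). `f = 1/(wp - X)` off the lattice is periodic (`t7_wp_add`), so bounded (fundamental parallelogram compact; continuity), so constant (Liouville, `Differentiable.apply_eq_apply_of_bounded`), `= f 0 = 0`. Contradiction.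
Alternatively use Mathlib's results on `PeriodPair.weierstrassP` with `wp_eq`. -/
theorem wp_surj (τ : ℂ) (hτ : 0 < τ.im) (X : ℂ) : ∃ h : ℂ, th τ h ≠ 0 ∧ wp τ (sE τ) h = X := by
  by_contra hcon
  push Not at hcon
  set s := sE τ with hs
  have hth : Differentiable ℂ (th τ) := th_differentiable τ hτ
  have han : ∀ t, AnalyticAt ℂ (th τ) t := fun t => hth.analyticAt t
  have h0 : Differentiable ℂ (N0 τ) := hth
  have h2 : Differentiable ℂ (N2 τ s) := by
    intro t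
    have a1 : AnalyticAt ℂ (deriv (th τ)) t := (han t).deriv
    have a2 : AnalyticAt ℂ (deriv (deriv (th τ))) t := a1.deriv
    exact (((a1.pow 2).sub ((han t).mul a2)).sub (analyticAt_const.mul ((han t).pow 2))).differentiableAt
  let D : ℂ → ℂ := fun t => N2 τ s t - X * N0 τ t ^ 2
  have hD : Differentiable ℂ D := h2.sub ((differentiable_const X).mul (h0.pow 2))
  have hDne : ∀ t, D t ≠ 0 := by
    intro t
    by_cases ht : th τ t = 0
    · obtain ⟨m, n, rfl⟩ := (th_eq_zero_iff τ hτ t).1 ht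
      have e1 : N2 τ s (m + n * τ) = au τ m n 0 ^ 2 * N2 τ s 0 := by
        have := N2_shift τ s hτ m n 0
        rwa [zero_add] at this
      have e2 : N2 τ s 0 = deriv (th τ) 0 ^ 2 := by
        unfold N2
        rw [t8c_zero τ hτ]
        ring
      have e3 : D (m + n * τ) = au τ m n 0 ^ 2 * deriv (th τ) 0 ^ 2 := by
        show N2 τ s (m + n * τ) - X * N0 τ (m + n * τ) ^ 2 = _
        have : N0 τ (m + n * τ) = 0 := ht
        rw [this, e1, e2]
        ring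
      rw [e3]
      exact mul_ne_zero (pow_ne_zero 2 (au_ne τ m n 0)) (pow_ne_zero 2 (deriv_th_zero_ne τ hτ))
    · intro h
      apply hcon t ht
      have h3 : N2 τ s t = X * N0 τ t ^ 2 := sub_eq_zero.1 h
      have h4 : N0 τ t ≠ 0 := ht
      unfold wp
      rw [h3]
      field_simp
  let f : ℂ → ℂ := fun t => N0 τ t ^ 2 / D t
  have hf : Differentiable ℂ f := (h0.pow 2).div hD hDne
  have hper : ∀ z w : ℂ, w ∈ (pp τ hτ).lattice → f (z + w) = f z := by
    intro z w hw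
    obtain ⟨m, n, h⟩ := PeriodPair.mem_lattice.1 hw
    have hw' : z + w = z + m + n * τ := by
      rw [← h]
      simp only [MSP.pp]
      ring
    rw [hw']
    show N0 τ (z + m + n * τ) ^ 2 / (N2 τ s (z + m + n * τ) - X * N0 τ (z + m + n * τ) ^ 2) =
      N0 τ z ^ 2 / (N2 τ s z - X * N0 τ z ^ 2)
    rw [N0_shift τ hτ, N2_shift τ s hτ]
    have hau := au_ne τ m n z
    have e : au τ m n z ^ 2 * N2 τ s z - X * (au τ m n z * N0 τ z) ^ 2 =
        au τ m n z ^ 2 * (N2 τ s z - X * N0 τ z ^ 2) := by ring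
    rw [e, mul_pow]
    exact mul_div_mul_left _ _ (pow_ne_zero 2 hau)
  have hconst : ∀ t, f t = f 0 := fun t =>
    hf.apply_eq_apply_of_bounded (IsZLattice.isCompact_range_of_periodic (pp τ hτ).lattice _
      hf.continuous fun z w hw => hper z w hw).isBounded t 0
  have hf0 : f 0 = 0 := by
    show N0 τ 0 ^ 2 / D 0 = 0
    have : N0 τ 0 = 0 := t8c_zero τ hτ
    rw [this]
    simp
  have h5 : th τ (1 / 2) ≠ 0 := by
    have := t3b_ne τ hτ 1 0 (Or.inl (by decide))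
    simpa using this
  have h6 : f (1 / 2) = 0 := (hconst _).trans hf0
  have h7 : N0 τ (1 / 2) ^ 2 / D (1 / 2) = 0 := h6
  rcases div_eq_zero_iff.1 h7 with h8 | h8
  · exact h5 (pow_eq_zero_iff (two_ne_zero) |>.1 h8)
  · exact hDne _ h8

/-- S4b. PROOF. `h` from `wp_surj` for `X om²`; subtract a lattice vector `m + nτ` such that `h = a + bτ` with `0 ≤ a, b < 1` (`t7_wp_add`, `th_eq_zero_iff`), so `‖h‖ ≤ 1 + ‖τ‖`. By `wp_ode` divided by `om⁶` `(wp' h/om³)² = 4X³ - 2gX - g₃ = Y²`, so `wp' h/om³ = ± Y`; in the second case replace `h` by `-h`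
(`t3b_wp_neg`, so `deriv wp (-h) = -deriv wp h`; `th τ (-h) = -th τ h`). -/
theorem base_pt (τ om : ℂ) (hτ : 0 < τ.im) (hom : om ≠ 0) (X Y : ℂ)
    (h : Y ^ 2 = 4 * X ^ 3 - 2 * (2 / 3 * Real.pi ^ 4 * e4 τ / om ^ 4) * X - 8 / 27 * Real.pi ^ 6 * e6 τ / om ^ 6) :
    ∃ t : ℂ, ‖t‖ ≤ 1 + ‖τ‖ ∧ th τ t ≠ 0 ∧ wp τ (sE τ) t / om ^ 2 = X ∧ deriv (wp τ (sE τ)) t / om ^ 3 = Y := by
  obtain ⟨h₀, hh₀, hX₀⟩ := wp_surj τ hτ (X * om ^ 2)
  -- reduce to the fundamental parallelogram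
  obtain ⟨t, hle, ht0, htX⟩ : ∃ t : ℂ, ‖t‖ ≤ 1 + ‖τ‖ ∧ th τ t ≠ 0 ∧ wp τ (sE τ) t = X * om ^ 2 := by
    let b : ℝ := h₀.im / τ.im
    let a : ℝ := h₀.re - b * τ.re
    have hab : h₀ = (a : ℂ) + (b : ℂ) * τ := by
      apply Complex.ext
      · simp [a]
      · simp [b]
        field_simp
    refine ⟨((Int.fract a : ℝ) : ℂ) + ((Int.fract b : ℝ) : ℂ) * τ, ?_, ?_, ?_⟩
    · refine (norm_add_le _ _).trans ?_
      rw [norm_mul, Complex.norm_real, Complex.norm_real, Real.norm_eq_abs, Real.norm_eq_abs,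
        abs_of_nonneg (Int.fract_nonneg a), abs_of_nonneg (Int.fract_nonneg b)]
      have h1 := (Int.fract_lt_one a).le
      have h2 := (Int.fract_lt_one b).le
      have h3 := norm_nonneg τ
      nlinarith
    · have e : h₀ = (((Int.fract a : ℝ) : ℂ) + ((Int.fract b : ℝ) : ℂ) * τ) + (⌊a⌋ : ℤ) + (⌊b⌋ : ℤ) * τ := by
        rw [hab]
        have ha : (a : ℂ) = ((⌊a⌋ : ℤ) : ℂ) + ((Int.fract a : ℝ) : ℂ) := by
          exact_mod_cast congrArg (fun x : ℝ => (x : ℂ)) (Int.floor_add_fract a).symm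
        have hb : (b : ℂ) = ((⌊b⌋ : ℤ) : ℂ) + ((Int.fract b : ℝ) : ℂ) := by
          exact_mod_cast congrArg (fun x : ℝ => (x : ℂ)) (Int.floor_add_fract b).symm
        rw [ha, hb]
        ring
      intro h
      apply hh₀
      rw [e]
      have := N0_shift τ hτ ⌊a⌋ ⌊b⌋ (((Int.fract a : ℝ) : ℂ) + ((Int.fract b : ℝ) : ℂ) * τ)
      unfold N0 at this
      rw [this, h, mul_zero]
    · have e : h₀ = (((Int.fract a : ℝ) : ℂ) + ((Int.fract b : ℝ) : ℂ) * τ) + (⌊a⌋ : ℤ) + (⌊b⌋ : ℤ) * τ := by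
        rw [hab]
        have ha : (a : ℂ) = ((⌊a⌋ : ℤ) : ℂ) + ((Int.fract a : ℝ) : ℂ) := by
          exact_mod_cast congrArg (fun x : ℝ => (x : ℂ)) (Int.floor_add_fract a).symm
        have hb : (b : ℂ) = ((⌊b⌋ : ℤ) : ℂ) + ((Int.fract b : ℝ) : ℂ) := by
          exact_mod_cast congrArg (fun x : ℝ => (x : ℂ)) (Int.floor_add_fract b).symm
        rw [ha, hb]
        ring
      rw [← hX₀]
      conv_rhs => rw [e]
      exact (t7_wp_add τ hτ (sE τ) ⌊a⌋ ⌊b⌋ _).symm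
  have hode := wp_ode τ hτ t ht0
  have hsq : (deriv (wp τ (sE τ)) t / om ^ 3) ^ 2 = Y ^ 2 := by
    rw [h, div_pow, hode, htX]
    field_simp
    ring
  rcases sq_eq_sq_iff_eq_or_eq_neg.1 hsq with h1 | h1
  · exact ⟨t, hle, ht0, by rw [htX]; field_simp, h1⟩
  · refine ⟨-t, by rwa [norm_neg], ?_, ?_, ?_⟩
    · rw [th_neg]
      exact neg_ne_zero.2 ht0
    · rw [t3b_wp_neg, htX]
      field_simp
    · have e1 : deriv (wp τ (sE τ)) (-t) = -deriv (wp τ (sE τ)) t := by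
        have e2 : (fun x => wp τ (sE τ) (-x)) = wp τ (sE τ) := funext fun x => t3b_wp_neg τ (sE τ) x
        have e3 := deriv_comp_neg (wp τ (sE τ)) t
        rw [e2] at e3
        rw [e3, neg_neg]
      rw [e1, neg_div, h1, neg_neg]

/-- S4c. PROOF. `base_pt` for every `l`; the structure `Dt`; `D.X l 0 = wp (h l + 0)/om²`. -/
theorem exists_Dt (P : Par 2) (τ om kap : ℂ) (hτ : 0 < τ.im) (hom : om ≠ 0) (X Y : Fin 3 → ℂ)
    (h : ∀ l, Y l ^ 2 = 4 * X l ^ 3 - 2 * (2 / 3 * Real.pi ^ 4 * e4 τ / om ^ 4) * X l - 8 / 27 * Real.pi ^ 6 * e6 τ / om ^ 6) :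
    ∃ D : Dt 2, D.τ = τ ∧ D.om = om ∧ D.kap = kap ∧ (∀ l, ‖D.h l‖ ≤ 1 + ‖τ‖) ∧ (∀ l, D.X l 0 = X l) ∧ (∀ l, D.Y l 0 = Y l) := by
  choose t h1 h2 h3 h4 using fun l => base_pt τ om hτ hom (X l) (Y l) (h l)
  refine ⟨⟨τ, hτ, om, hom, kap, t, h2⟩, rfl, rfl, rfl, h1, fun l => ?_, fun l => ?_⟩
  · show wp τ (sE τ) (t l + 0) / om ^ 2 = X l
    rw [add_zero]
    exact h3 l
  · show deriv (wp τ (sE τ)) (t l + 0) / om ^ 3 = Y l
    rw [add_zero]
    exact h4 l

/-- S4d. PROOF. `exists_Dt` for `X l = p.X l`, `Y l = p.Y l` (`p.hY`); compare the values case by case (`par5`, `vals`, `LQ.v`; `rh`). -/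
theorem exists_Dt_pt (P : Par 2) (τ om kap : ℂ) (hτ : 0 < τ.im) (hom : om ≠ 0) (p : LQ ℂ) (hw : p.w = par5 P.z τ om kap) :
    ∃ D : Dt 2, D.τ = τ ∧ D.om = om ∧ D.kap = kap ∧ (∀ l, ‖D.h l‖ ≤ 1 + ‖τ‖) ∧ (∀ l, D.X l 0 = p.X l) ∧ vals P D = p.v P := by
  have w0 : p.w 0 = 2 / 3 * Real.pi ^ 4 * e4 τ / om ^ 4 := by rw [hw]; rfl
  have w1 : p.w 1 = kap := by rw [hw]; rfl
  have w2 : p.w 2 = 8 / 27 * Real.pi ^ 6 * e6 τ / om ^ 6 := by rw [hw]; rfl
  have w3 : p.w 3 = P.z := by rw [hw]; rfl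
  have w4 : p.w 4 = rh := by rw [hw]; rfl
  obtain ⟨D, e1, e2, e3, e4, e5, e6⟩ := exists_Dt P τ om kap hτ hom (fun l => (p.X l : ℂ)) p.Y (fun l => by
    rw [← w0, ← w2]
    exact p.hY l)
  refine ⟨D, e1, e2, e3, e4, e5, ?_⟩
  funext v
  cases v with
  | X l => exact e5 l
  | Y l => exact e6 l
  | Q j => rfl
  | b l => simp [MSK.vals, LQ.v]
  | g =>
    show 2 / 3 * Real.pi ^ 4 * MSD.e4 D.τ / D.om ^ 4 = p.w 0
    rw [e1, e2, w0]
  | k =>
    show D.kap = p.w 1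
    rw [e3, w1]
  | z =>
    show P.z = p.w 3
    rw [w3]
  | r =>
    show rh = p.w 4
    rw [w4]

end Pool.Agent.MSL
end

end

section

/-! # R/B1_Psi: the covariant derivative as a derivative along a line -/

open Complex Filter Topology IntermediateField

noncomputable section

namespace Pool.Agent.MSR

open MSD MSP MSK

variable {d : ℕ}

theorem b1_shift (a r om : ℂ) : HasDerivAt (fun s : ℂ => a - s / om * r) (-(r / om)) 0 := by
  have h := (((hasDerivAt_id (0 : ℂ)).div_const om).mul_const r).const_sub a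
  have e : -(1 / om * r) = -(r / om) := by ring
  rw [e] at h
  exact h

theorem b1_add_shift (h a r om : ℂ) : HasDerivAt (fun s : ℂ => h + (a - s / om * r)) (-(r / om)) 0 :=
  (b1_shift a r om).const_add h

theorem b1_at (h a r om : ℂ) : h + (a - 0 / om * r) = h + a := by
  rw [zero_div, zero_mul, sub_zero]

theorem b1_X (D : Dt d) (l : Fin (d + 1)) (a r : ℂ) (h : th D.τ (D.h l + a) ≠ 0) :
    HasDerivAt (fun s : ℂ => D.X l (a - s / D.om * r)) (-(r * D.Y l a)) 0 := by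
  have h0 := D.ne
  have h1 := b1_add_shift (D.h l) a r D.om
  have h2 := (wp_analyticAt D.τ (sE D.τ) D.im _ h).differentiableAt.hasDerivAt
  rw [← b1_at (D.h l) a r D.om] at h2
  have h3 := (h2.comp (0 : ℂ) h1).div_const (D.om ^ 2)
  have e : -(r * D.Y l a) = deriv (wp D.τ (sE D.τ)) (D.h l + (a - 0 / D.om * r)) * (-(r / D.om)) / D.om ^ 2 := by
    rw [b1_at]
    unfold Dt.Y
    field_simp
  rw [e]
  exact h3

theorem b1_Y (D : Dt d) (l : Fin (d + 1)) (a r : ℂ) (h : th D.τ (D.h l + a) ≠ 0) :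
    HasDerivAt (fun s : ℂ => D.Y l (a - s / D.om * r))
      (-(r * (6 * D.X l a ^ 2 - 2 / 3 * Real.pi ^ 4 * e4 D.τ / D.om ^ 4))) 0 := by
  have h0 := D.ne
  have h1 := b1_add_shift (D.h l) a r D.om
  have h2 := wp_ode2 D.τ D.im _ h
  have h2' : HasDerivAt (deriv (wp D.τ (sE D.τ)))
      (6 * wp D.τ (sE D.τ) (D.h l + a) ^ 2 - 2 / 3 * Real.pi ^ 4 * MSD.e4 D.τ) (D.h l + (a - 0 / D.om * r)) := by
    rw [b1_at]
    exact h2
  have h3 := (h2'.comp (0 : ℂ) h1).div_const (D.om ^ 3)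
  have e : -(r * (6 * D.X l a ^ 2 - 2 / 3 * Real.pi ^ 4 * e4 D.τ / D.om ^ 4)) =
      (6 * wp D.τ (sE D.τ) (D.h l + a) ^ 2 - 2 / 3 * Real.pi ^ 4 * MSD.e4 D.τ) * (-(r / D.om)) / D.om ^ 3 := by
    unfold Dt.X
    field_simp
  rw [e]
  exact h3

theorem b1_ps (D : Dt d) (l : Fin (d + 1)) (a r : ℂ) (h : th D.τ (D.h l + a) ≠ 0) :
    HasDerivAt (fun s : ℂ => D.ps l (a - s / D.om * r)) ((D.om ^ 2 * D.X l a + sE D.τ) * (r / D.om)) 0 := by
  have h0 := D.ne
  have h1 := b1_add_shift (D.h l) a r D.om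
  have h2 := hasDerivAt_ph D.τ (sE D.τ) D.im _ h
  have h2' : HasDerivAt (ph D.τ) (-(wp D.τ (sE D.τ) (D.h l + a) + sE D.τ)) (D.h l + (a - 0 / D.om * r)) := by
    rw [b1_at]
    exact h2
  have h3 := (h2'.comp (0 : ℂ) h1).sub_const (ph D.τ (D.h l))
  have e1 : D.om ^ 2 * D.X l a = wp D.τ (sE D.τ) (D.h l + a) := by
    unfold Dt.X
    field_simp
  have e : (D.om ^ 2 * D.X l a + sE D.τ) * (r / D.om) =
      -(wp D.τ (sE D.τ) (D.h l + a) + sE D.τ) * (-(r / D.om)) := by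
    rw [e1]
    ring
  rw [e]
  exact h3

theorem b1_pp (D : Dt d) (r t : Fin (d + 1) → ℂ) (h : ∀ l, th D.τ (D.h l + t l) ≠ 0) :
    HasDerivAt (fun s : ℂ => pp D (fun l => t l - s / D.om * r l))
      (-(1 / D.om * ∑ l, r l * ph D.τ (D.h l + t l)) * pp D t) 0 := by
  have h1 : ∀ l, HasDerivAt (fun s : ℂ => N0 D.τ (D.h l + (t l - s / D.om * r l)))
      (-(r l / D.om * N1 D.τ (D.h l + t l))) 0 := by
    intro l
    have h2 := b1_add_shift (D.h l) (t l) (r l) D.om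
    have h3 : HasDerivAt (th D.τ) (deriv (th D.τ) (D.h l + t l)) (D.h l + (t l - 0 / D.om * r l)) := by
      rw [b1_at]
      exact (th_differentiable D.τ D.im _).hasDerivAt
    have h4 := h3.comp (0 : ℂ) h2
    have e : -(r l / D.om * N1 D.τ (D.h l + t l)) = deriv (th D.τ) (D.h l + t l) * (-(r l / D.om)) := by
      unfold N1
      ring
    rw [e]
    exact h4
  have h2 := HasDerivAt.fun_finsetProd (u := Finset.univ) (fun l _ => h1 l)
  have e : -(1 / D.om * ∑ l, r l * ph D.τ (D.h l + t l)) * pp D t =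
      ∑ l, (∏ m ∈ Finset.univ.erase l, N0 D.τ (D.h m + (t m - 0 / D.om * r m))) •
        (-(r l / D.om * N1 D.τ (D.h l + t l))) := by
    rw [Finset.mul_sum, ← Finset.sum_neg_distrib, Finset.sum_mul]
    refine Finset.sum_congr rfl fun l _ => ?_
    have h3 : pp D t = N0 D.τ (D.h l + t l) * ∏ m ∈ Finset.univ.erase l, N0 D.τ (D.h m + t m) := by
      unfold MSK.pp
      rw [Finset.mul_prod_erase _ (fun m => N0 D.τ (D.h m + t m)) (Finset.mem_univ l)]
    have h4 : ∏ m ∈ Finset.univ.erase l, N0 D.τ (D.h m + (t m - 0 / D.om * r m)) =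
        ∏ m ∈ Finset.univ.erase l, N0 D.τ (D.h m + t m) :=
      Finset.prod_congr rfl fun m _ => by rw [b1_at]
    have h5 : ph D.τ (D.h l + t l) * N0 D.τ (D.h l + t l) = N1 D.τ (D.h l + t l) := by
      unfold ph
      exact div_mul_cancel₀ _ (h l)
    rw [h3, h4, smul_eq_mul, ← h5]
    ring
  rw [e]
  exact h2

theorem b1_rhp (P : Par d) (D : Dt d) (W : Fin d → ℂ) (t : Fin (d + 1) → ℂ) (l : Fin (d + 1)) (j : Fin d) :
    MvPolynomial.aeval (evW P D W t) (rhp l j) = rhv P l j := by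
  unfold rhp rhv
  rw [map_mul, map_sub, map_add, MvPolynomial.aeval_X]
  have e1 : MvPolynomial.aeval (evW P D W t) (if l = j.castSucc then 1 else 0 : MvPolynomial (Vr d) ℤ) =
      if l = j.castSucc then 1 else 0 := by
    split_ifs
    · exact map_one _
    · exact map_zero _
  have e2 : MvPolynomial.aeval (evW P D W t)
      (if l = Fin.last d then MvPolynomial.X (Vr.b j.succ) else 0 : MvPolynomial (Vr d) ℤ) =
      if l = Fin.last d then (P.b j.succ : ℂ) else 0 := by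
    split_ifs
    · exact MvPolynomial.aeval_X _ _
    · exact map_zero _
  have e3 : MvPolynomial.aeval (evW P D W t) (if l = j.succ then MvPolynomial.X Vr.z else 0 : MvPolynomial (Vr d) ℤ) =
      if l = j.succ then P.z else 0 := by
    split_ifs
    · exact MvPolynomial.aeval_X _ _
    · exact map_zero _
  rw [e1, e2, e3]
  rfl

/-- the derivative of the values of the polynomials along the line -/
theorem b1_ev (P : Par d) (D : Dt d) (j : Fin d) (W : Fin d → ℂ) (t : Fin (d + 1) → ℂ)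
    (h : ∀ l, th D.τ (D.h l + t l) ≠ 0) (R : MvPolynomial (Vr d) ℤ) :
    HasDerivAt (fun s : ℂ => MvPolynomial.aeval (evW P D (fun i => W i + s * qq P D i j)
      (fun l => t l - s / D.om * rhv P l j)) R) (MvPolynomial.aeval (evW P D W t) (dlt j R)) 0 := by
  have h0 := D.ne
  have e0 : evW P D (fun i => W i + 0 * qq P D i j) (fun l => t l - 0 / D.om * rhv P l j) = evW P D W t := by
    congr 1
    · funext i
      rw [zero_mul, add_zero]
    · funext l
      rw [zero_div, zero_mul, sub_zero]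
  have key := a1_main (fun s : ℂ => evW P D (fun i => W i + s * qq P D i j) (fun l => t l - s / D.om * rhv P l j))
    (dlv j) 1 0 (fun v => ?_) R
  · rw [e0, one_mul] at key
    exact key
  · rw [e0, one_mul]
    cases v with
    | X l =>
      have e : MvPolynomial.aeval (evW P D W t) (dlv j (Vr.X l)) = -(rhv P l j * D.Y l (t l)) := by
        simp only [dlv, map_neg, map_mul, b1_rhp, MvPolynomial.aeval_X]
        rfl
      rw [e]
      exact b1_X D l (t l) (rhv P l j) (h l)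
    | Y l =>
      have e : MvPolynomial.aeval (evW P D W t) (dlv j (Vr.Y l)) =
          -(rhv P l j * (6 * D.X l (t l) ^ 2 - 2 / 3 * Real.pi ^ 4 * e4 D.τ / D.om ^ 4)) := by
        simp only [dlv, map_neg, map_mul, map_sub, map_pow, b1_rhp, MvPolynomial.aeval_X, map_ofNat]
        rfl
      rw [e]
      exact b1_Y D l (t l) (rhv P l j) (h l)
    | Q i =>
      have e : MvPolynomial.aeval (evW P D W t) (dlv j (Vr.Q i)) =
          -∑ l, rhv P l i * rhv P l j * D.X l (t l) := by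
        simp only [dlv, map_neg, map_sum, map_mul, b1_rhp, MvPolynomial.aeval_X]
        rfl
      rw [e]
      have h1 : HasDerivAt (fun s : ℂ => W i + s * qq P D i j) (qq P D i j) 0 := by
        simpa using ((hasDerivAt_id (0 : ℂ)).mul_const (qq P D i j)).const_add (W i)
      have h2 : HasDerivAt (fun s : ℂ => ∑ l, rhv P l i * D.ps l (t l - s / D.om * rhv P l j))
          (∑ l, rhv P l i * ((D.om ^ 2 * D.X l (t l) + sE D.τ) * (rhv P l j / D.om))) 0 :=
        HasDerivAt.fun_sum fun l _ => (b1_ps D l (t l) (rhv P l j) (h l)).const_mul (rhv P l i)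
      have h3 := h1.fun_sub (h2.const_mul (1 / D.om))
      have e2 : -∑ l, rhv P l i * rhv P l j * D.X l (t l) = qq P D i j -
          1 / D.om * ∑ l, rhv P l i * ((D.om ^ 2 * D.X l (t l) + sE D.τ) * (rhv P l j / D.om)) := by
        unfold qq
        rw [Finset.mul_sum, Finset.mul_sum, ← Finset.sum_sub_distrib, ← Finset.sum_neg_distrib]
        refine Finset.sum_congr rfl fun l _ => ?_
        field_simp
        ring
      rw [e2]
      exact h3
    | b l =>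
      simp only [dlv, map_zero]
      exact hasDerivAt_const _ _
    | g =>
      simp only [dlv, map_zero]
      exact hasDerivAt_const _ _
    | k =>
      simp only [dlv, map_zero]
      exact hasDerivAt_const _ _
    | z =>
      simp only [dlv, map_zero]
      exact hasDerivAt_const _ _
    | r =>
      simp only [dlv, map_zero]
      exact hasDerivAt_const _ _

/-- B1. The covariant derivative as a derivative along a line. -/
theorem psi_line (P : Par d) (D : Dt d) (j : Fin d) (W : Fin d → ℂ) (t : Fin (d + 1) → ℂ) (h : ∀ l, th D.τ (D.h l + t l) ≠ 0)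
    (R : MvPolynomial (Vr d) ℤ) :
    HasDerivAt (fun s : ℂ => MvPolynomial.aeval (evW P D (fun i => W i + s * qq P D i j) (fun l => t l - s / D.om * rhv P l j)) R *
        pp D (fun l => t l - s / D.om * rhv P l j))
      (MvPolynomial.aeval (evW P D W t) (nab j R) * pp D t - (W j + lam P D j) * (MvPolynomial.aeval (evW P D W t) R * pp D t)) 0 := by
  have h1 := b1_ev P D j W t h R
  have h2 := b1_pp D (fun l => rhv P l j) t h
  have h3 := h1.fun_mul h2
  have e0 : evW P D (fun i => W i + 0 * qq P D i j) (fun l => t l - 0 / D.om * rhv P l j) = evW P D W t := by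
    congr 1
    · funext i
      rw [zero_mul, add_zero]
    · funext l
      rw [zero_div, zero_mul, sub_zero]
  have e1 : (fun l => t l - 0 / D.om * rhv P l j) = t := by
    funext l
    rw [zero_div, zero_mul, sub_zero]
  rw [e0, e1] at h3
  have e2 : MvPolynomial.aeval (evW P D W t) (nab j R) = MvPolynomial.aeval (evW P D W t) (dlt j R) +
      (W j - 1 / D.om * ∑ l, rhv P l j * ph D.τ (D.h l + t l) + lam P D j) * MvPolynomial.aeval (evW P D W t) R := by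
    unfold nab
    rw [map_add, map_mul, MvPolynomial.aeval_X]
    congr 2
    change W j - 1 / D.om * ∑ l, rhv P l j * D.ps l (t l) = _
    unfold lam Dt.ps
    simp only [mul_sub, Finset.sum_sub_distrib]
    ring
  rw [e2]
  have e3 : (MvPolynomial.aeval (evW P D W t) (dlt j R) +
      (W j - 1 / D.om * ∑ l, rhv P l j * ph D.τ (D.h l + t l) + lam P D j) * MvPolynomial.aeval (evW P D W t) R) * pp D t -
      (W j + lam P D j) * (MvPolynomial.aeval (evW P D W t) R * pp D t) =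
      MvPolynomial.aeval (evW P D W t) (dlt j R) * pp D t +
      MvPolynomial.aeval (evW P D W t) R * (-(1 / D.om * ∑ l, rhv P l j * ph D.τ (D.h l + t l)) * pp D t) := by
    ring
  rw [e3]
  exact h3

end Pool.Agent.MSR
end

end

section

/-! # L/M6_Up: the upper bound at the conjugates near the original curve -/

open Filter

noncomputable section

namespace Pool.Agent.MSL

open MSD MSP MSK MSR

theorem m6_ev (M : ℕ) (hM : 10 ≤ M) (c : ℝ) : ∀ᶠ E : ℕ in atTop, c ≤ (E : ℝ) ^ M := by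
  have h : Tendsto (fun E : ℕ => (E : ℝ) ^ M) atTop atTop :=
    (tendsto_pow_atTop (by omega)).comp tendsto_natCast_atTop_atTop
  exact h.eventually_ge_atTop c

/-- M6. The upper bound in terms of the point. PROOF. `p₀ : LQ ℂ` with `p₀.w = par5 P.z P.z om kap`; `exists_Dt_pt` with `τ = P.z` gives `D` with base points of norm `≤ H = 1 + ‖P.z‖` and `vals P D = p₀.v P`. `upper` with this `H` and `M`. The values `p₀.v P s` are bounded by `E^M` for large `E`: `X l ≤ E⁴`, `‖Y l‖ ≤ 3 E⁸`, the others are constants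
(`M ≥ 10`). The point `p'` has the same `X`; `‖p'.v P s - p₀.v P s‖ ≤ E^M exp (-μ)` by hypothesis for `Y` and `w`, and `= 0` for `X, Q, b`. -/
theorem upper_pt (P : Par 2) (hD : DetSmall P) (om kap : ℂ) (hom : om ^ 2 = Real.pi) (hkap : kap = sE P.z / Real.pi) (M : ℕ) (hM : 10 ≤ M) :
    ∃ C : ℝ, 1 ≤ C ∧ ∀ᶠ E : ℕ in atTop, ∀ p₀ p' : LQ ℂ, p₀.w = par5 P.z P.z om kap → p'.X = p₀.X → (∀ l, p₀.X l ≤ E ^ 4) → (∀ l, ‖p₀.Y l‖ ≤ 3 * (p₀.X l : ℝ) ^ 2) →
      ∀ μ : ℝ, 0 ≤ μ → μ ≤ E ^ 4 → (E : ℝ) ^ M * Real.exp (-μ) ≤ 1 → (∀ i, ‖p'.w i - p₀.w i‖ ≤ (E : ℝ) ^ M * Real.exp (-μ)) →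
        (∀ l, ‖p'.Y l - p₀.Y l‖ ≤ (E : ℝ) ^ M * Real.exp (-μ)) →
        ∀ (a : Ir 2 E → Fin 2 → ℕ) (k : Ir 2 E → ℕ), (∀ i j, a i j ≤ 8 * E) → (∀ i, k i ≤ 8 * E) →
          ‖(DL (p'.v P) a k).det‖ ≤ Real.exp (C * E ^ 3 * Real.log E - μ * E ^ 2 / C) := by
  obtain ⟨C, hC1, hup⟩ := upper P hD (1 + ‖P.z‖) M (by omega)
  refine ⟨C, hC1, ?_⟩
  have hom0 : om ≠ 0 := by
    intro h0
    rw [h0] at hom
    have hpi : (Real.pi : ℂ) ≠ 0 := by exact_mod_cast Real.pi_ne_zero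
    apply hpi
    rw [← hom]
    ring
  have hb : ∀ᶠ E : ℕ in atTop, ∀ l : Fin 3, ‖(((P.b l : ℚ)) : ℂ)‖ ≤ (E : ℝ) ^ M := by
    rw [eventually_all]
    intro l
    exact m6_ev M hM _
  have hw : ∀ᶠ E : ℕ in atTop, ∀ i : Fin 5, ‖par5 P.z P.z om kap i‖ ≤ (E : ℝ) ^ M := by
    rw [eventually_all]
    intro l
    exact m6_ev M hM _
  filter_upwards [eventually_ge_atTop 3, hb, hw] with E hE3 hbE hwE
  intro p₀ p' hp₀ hpX hX hY μ hμ0 hμE hμ1 hwi hYi a k ha hk
  have hEr : (3 : ℝ) ≤ (E : ℝ) := by exact_mod_cast hE3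
  have hE1 : (1 : ℝ) ≤ (E : ℝ) := by linarith
  have hd0 : 0 ≤ (E : ℝ) ^ M * Real.exp (-μ) := by positivity
  obtain ⟨D, hDτ, hDom, hDkap, hDh, hDX, hDv⟩ := exists_Dt_pt P P.z om kap P.im hom0 p₀ hp₀
  have hXr : ∀ l, (p₀.X l : ℝ) ≤ (E : ℝ) ^ 4 := fun l => by exact_mod_cast hX l
  refine hup E (by omega) D hDτ (by rw [hDom, hom]) (by rw [hDkap, hkap]) hDh ?_ (p'.v P) μ hμ0 hμE hμ1 ?_ a k ha hk
  · intro s
    rw [hDv]
    cases s with
    | X l =>
      show ‖((p₀.X l : ℕ) : ℂ)‖ ≤ _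
      rw [Complex.norm_natCast]
      exact (hXr l).trans (pow_le_pow_right₀ hE1 (by omega))
    | Y l =>
      show ‖p₀.Y l‖ ≤ _
      have h1 := hY l
      have h2 : (p₀.X l : ℝ) ^ 2 ≤ ((E : ℝ) ^ 4) ^ 2 := pow_le_pow_left₀ (by positivity) (hXr l) 2
      have h3 : (E : ℝ) ^ 10 ≤ (E : ℝ) ^ M := pow_le_pow_right₀ hE1 hM
      have h4 : 3 * (E : ℝ) ^ 8 ≤ (E : ℝ) ^ 10 := by
        have : (E : ℝ) ^ 10 = (E : ℝ) ^ 2 * (E : ℝ) ^ 8 := by ring
        rw [this]
        have h5 : (3 : ℝ) ≤ (E : ℝ) ^ 2 := by nlinarith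
        exact mul_le_mul_of_nonneg_right h5 (by positivity)
      calc ‖p₀.Y l‖ ≤ 3 * (p₀.X l : ℝ) ^ 2 := h1
        _ ≤ 3 * ((E : ℝ) ^ 4) ^ 2 := by linarith
        _ = 3 * (E : ℝ) ^ 8 := by ring
        _ ≤ (E : ℝ) ^ M := h4.trans h3
    | Q j =>
      show ‖(0 : ℂ)‖ ≤ _
      rw [norm_zero]
      positivity
    | b l => exact hbE l
    | g =>
      show ‖p₀.w 0‖ ≤ _
      rw [hp₀]
      exact hwE 0
    | k =>
      show ‖p₀.w 1‖ ≤ _
      rw [hp₀]
      exact hwE 1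
    | z =>
      show ‖p₀.w 3‖ ≤ _
      rw [hp₀]
      exact hwE 3
    | r =>
      show ‖p₀.w 4‖ ≤ _
      rw [hp₀]
      exact hwE 4
  · intro s
    rw [hDv]
    cases s with
    | X l =>
      show ‖((p'.X l : ℕ) : ℂ) - ((p₀.X l : ℕ) : ℂ)‖ ≤ _
      rw [hpX, sub_self, norm_zero]
      exact hd0
    | Y l => exact hYi l
    | Q j =>
      show ‖(0 : ℂ) - 0‖ ≤ _
      rw [sub_self, norm_zero]
      exact hd0
    | b l =>
      show ‖(((P.b l : ℚ)) : ℂ) - (((P.b l : ℚ)) : ℂ)‖ ≤ _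
      rw [sub_self, norm_zero]
      exact hd0
    | g => exact hwi 0
    | k => exact hwi 1
    | z => exact hwi 3
    | r => exact hwi 4

end Pool.Agent.MSL
end

end
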