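import Mathlib
import Pool.Agent.Lib.MP_f58a57_nt.FK.K001
import Pool.Agent.Lib.MP_f58a57_nt.FK.K030

section

/-! # U/Y3_Rig: rigidity -/

open Complex Filter Topology

noncomputable section

namespace Pool.Agent.MSU

lemma y3_ker (A : Fin 2 → Fin 3 → ℂ) (ρ : Fin 3 → ℂ) (hρA : ∀ j, ∑ l, ρ l * A j l = 0) (hA : LinearIndependent ℂ A) (l0 : Fin 3) (h0 : ρ l0 ≠ 0)
    (w : Fin 3 → ℂ) (hw : ∑ l, ρ l * w l = 0) : ∃ α β : ℂ, w = α • A 0 + β • A 1 := by
  let φ : (Fin 3 → ℂ) →ₗ[ℂ] ℂ := ∑ l, ρ l • LinearMap.proj (R := ℂ) (φ := fun _ : Fin 3 => ℂ) l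
  have hφ : ∀ v, φ v = ∑ l, ρ l * v l := by
    intro v
    simp [φ]
  have hsurj : Function.Surjective φ := by
    intro c
    refine ⟨(c / ρ l0) • (Pi.single l0 1 : Fin 3 → ℂ), ?_⟩
    rw [hφ, Finset.sum_eq_single l0]
    · simp only [Pi.smul_apply, Pi.single_eq_same, smul_eq_mul, mul_one]
      field_simp
    · intro l _ hl
      simp [hl]
    · intro hl
      exact absurd (Finset.mem_univ _) hl
  have hfr : Module.finrank ℂ (LinearMap.ker φ) = 2 := by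
    have h1 := φ.finrank_range_add_finrank_ker
    rw [LinearMap.range_eq_top.mpr hsurj, finrank_top, Module.finrank_self, Module.finrank_fin_fun] at h1
    omega
  let A' : Fin 2 → LinearMap.ker φ := fun j => ⟨A j, by rw [LinearMap.mem_ker, hφ]; exact hρA j⟩
  have hA' : LinearIndependent ℂ A' := by
    have h1 : LinearIndependent ℂ ((LinearMap.ker φ).subtype ∘ A') := hA
    exact LinearIndependent.of_comp _ h1
  have hspan := hA'.span_eq_top_of_card_eq_finrank' (by rw [hfr]; simp)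
  have hw' : (⟨w, by rw [LinearMap.mem_ker, hφ]; exact hw⟩ : LinearMap.ker φ) ∈ Submodule.span ℂ (Set.range A') := by
    rw [hspan]
    trivial
  obtain ⟨c, hc⟩ := (Submodule.mem_span_range_iff_exists_fun ℂ).mp hw'
  refine ⟨c 0, c 1, ?_⟩
  rw [Fin.sum_univ_two] at hc
  have h2 := congrArg Subtype.val hc
  exact h2.symm

/-- Y3a. PROOF. The orthogonal complement of `ρ ≠ 0` (`ρ l0 ≠ 0`) has dimension `2` and contains the independent vectors `A 0, A 1`; `n - x ε`, `x = ∑ ρ n / ρ l0`, `ε = Pi.single l0 1`, is orthogonal to `ρ`. -/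
theorem span_A (A : Fin 2 → Fin 3 → ℂ) (ρ : Fin 3 → ℂ) (hρA : ∀ j, ∑ l, ρ l * A j l = 0) (hA : LinearIndependent ℂ A) (l0 : Fin 3) (h0 : ρ l0 ≠ 0)
    (n : Fin 3 → ℂ) : ∃ α β : ℂ, n = ((∑ l, ρ l * n l) / ρ l0) • (Pi.single l0 1 : Fin 3 → ℂ) + (α • A 0 + β • A 1) := by
  have h1 : ∑ l, ρ l * (n - ((∑ l, ρ l * n l) / ρ l0) • (Pi.single l0 1 : Fin 3 → ℂ)) l = 0 := by
    have h2 : ∀ l, ρ l * (n - ((∑ l, ρ l * n l) / ρ l0) • (Pi.single l0 1 : Fin 3 → ℂ)) l =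
        ρ l * n l - ρ l * (((∑ l, ρ l * n l) / ρ l0) * (Pi.single l0 1 : Fin 3 → ℂ) l) := by
      intro l
      rw [Pi.sub_apply, Pi.smul_apply, smul_eq_mul, mul_sub]
    rw [Finset.sum_congr rfl fun l _ => h2 l, Finset.sum_sub_distrib]
    have h3 : ∑ l, ρ l * (((∑ l, ρ l * n l) / ρ l0) * (Pi.single l0 1 : Fin 3 → ℂ) l) = ∑ l, ρ l * n l := by
      rw [Finset.sum_eq_single l0]
      · rw [Pi.single_eq_same]
        field_simp
      · intro l _ hl
        simp [hl]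
      · intro hl
        exact absurd (Finset.mem_univ _) hl
    rw [h3, sub_self]
  obtain ⟨α, β, hαβ⟩ := y3_ker A ρ hρA hA l0 h0 _ h1
  exact ⟨α, β, by rw [← hαβ]; abel⟩

/-- Y3b. PROOF. `dE` is additive in `v`. -/
theorem dE_comb (g h : E3) (A : Fin 2 → Fin 3 → ℂ) (κ : Fin 2 → ℂ) (hq : ∀ j, dE (A j) g * h - g * dE (A j) h = κ j • (h * h)) (α β : ℂ) :
    dE (α • A 0 + β • A 1) g * h - g * dE (α • A 0 + β • A 1) h = (α * κ 0 + β * κ 1) • (h * h) := by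
  have h0 := hq 0
  have h1 := hq 1
  rw [dE_add, dE_add, dE_smul, dE_smul, dE_smul, dE_smul]
  simp only [Algebra.smul_def, map_add, map_mul] at h0 h1 ⊢
  linear_combination (algebraMap ℂ E3 α) * h0 + (algebraMap ℂ E3 β) * h1

/-- Y3c. PROOF. Let `n` be an integer vector, `x = ∑ ρ_l n_l / ρ l0`, `n = x ε + v` (`span_A`), `κ_v` from `dE_comb`. By hypothesis `h(t + n) ≠ 0`, `h(t + x ε) ≠ 0`, `h(t) ≠ 0`. For `y` near `0` the same holds for `s = t + y ε`: (1) `g(s + n) h(s) = g(s) h(s + n)` (translation with `ν = 0`);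
(2) `line_const` at the point `s + x ε`, direction `v`, `y = 1`: `g(s + n) h(s + xε) - g(s + xε) h(s + n) = κ_v h(s + xε) h(s + n)`. So `g(s)/h(s) = g(s + xε)/h(s + xε) + κ_v`, i.e. the identity of `hx` in `one_var_periods` with `ν = -κ_v`, `G(y) = g(t + yε)`, `H(y) = h(t + yε)`, for `y` near `0`, so for all `y`
(identity theorem). Small `x`: `small_comb` for `ε |ρ l0|`. -/
theorem line_kappa (g h : E3) (A : Fin 2 → Fin 3 → ℂ) (κ : Fin 2 → ℂ) (hq : ∀ j, dE (A j) g * h - g * dE (A j) h = κ j • (h * h))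
    (ρ : Fin 3 → ℂ) (hρA : ∀ j, ∑ l, ρ l * A j l = 0) (hA : LinearIndependent ℂ A) (l0 : Fin 3) (h0 : ρ l0 ≠ 0)
    (hρ : ∀ n : Fin 3 → ℤ, ∑ l, ρ l * (n l : ℂ) = 0 → n = 0)
    (htr : ∀ (n : Fin 3 → ℤ) (s : Fin 3 → ℂ), (g : (Fin 3 → ℂ) → ℂ) (s + fun l => (n l : ℂ)) * (h : (Fin 3 → ℂ) → ℂ) s =
      (g : (Fin 3 → ℂ) → ℂ) s * (h : (Fin 3 → ℂ) → ℂ) (s + fun l => (n l : ℂ)))
    (t : Fin 3 → ℂ) (ht0 : (h : (Fin 3 → ℂ) → ℂ) t ≠ 0) (ht1 : ∀ n : Fin 3 → ℤ, (h : (Fin 3 → ℂ) → ℂ) (t + fun l => (n l : ℂ)) ≠ 0)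
    (ht2 : ∀ n : Fin 3 → ℤ, (h : (Fin 3 → ℂ) → ℂ) (t + ((∑ l, ρ l * (n l : ℂ)) / ρ l0) • (Pi.single l0 1 : Fin 3 → ℂ)) ≠ 0) :
    ∃ κ' : ℂ, ∀ y : ℂ, (dE (Pi.single l0 1) g * h - g * dE (Pi.single l0 1) h : E3).1 (t + y • (Pi.single l0 1 : Fin 3 → ℂ)) =
      κ' * (h : (Fin 3 → ℂ) → ℂ) (t + y • (Pi.single l0 1 : Fin 3 → ℂ)) ^ 2 := by
  set ε : Fin 3 → ℂ := Pi.single l0 1 with hε
  have hdG : ∀ y, HasDerivAt (fun y : ℂ => (g : (Fin 3 → ℂ) → ℂ) (t + y • ε)) ((dE ε g : (Fin 3 → ℂ) → ℂ) (t + y • ε)) y :=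
    fun y => dE_line ε g t y
  have hdH : ∀ y, HasDerivAt (fun y : ℂ => (h : (Fin 3 → ℂ) → ℂ) (t + y • ε)) ((dE ε h : (Fin 3 → ℂ) → ℂ) (t + y • ε)) y :=
    fun y => dE_line ε h t y
  have hG : Differentiable ℂ (fun y : ℂ => (g : (Fin 3 → ℂ) → ℂ) (t + y • ε)) := fun y => (hdG y).differentiableAt
  have hH : Differentiable ℂ (fun y : ℂ => (h : (Fin 3 → ℂ) → ℂ) (t + y • ε)) := fun y => (hdH y).differentiableAt
  have hcont : Continuous (h : (Fin 3 → ℂ) → ℂ) := by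
    rw [← continuousOn_univ]
    exact (E3.an h).continuousOn
  have key : ∀ n : Fin 3 → ℤ, ∃ ν : ℂ, ∀ y : ℂ,
      (g : (Fin 3 → ℂ) → ℂ) (t + (y + (∑ l, ρ l * (n l : ℂ)) / ρ l0) • ε) * (h : (Fin 3 → ℂ) → ℂ) (t + y • ε) -
        (g : (Fin 3 → ℂ) → ℂ) (t + y • ε) * (h : (Fin 3 → ℂ) → ℂ) (t + (y + (∑ l, ρ l * (n l : ℂ)) / ρ l0) • ε) =
      ν * (h : (Fin 3 → ℂ) → ℂ) (t + y • ε) * (h : (Fin 3 → ℂ) → ℂ) (t + (y + (∑ l, ρ l * (n l : ℂ)) / ρ l0) • ε) := by
    intro n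
    obtain ⟨α, β, hn⟩ := span_A A ρ hρA hA l0 h0 (fun l => (n l : ℂ))
    set x : ℂ := (∑ l, ρ l * (n l : ℂ)) / ρ l0 with hx
    set v : Fin 3 → ℂ := α • A 0 + β • A 1 with hv
    set κv : ℂ := α * κ 0 + β * κ 1 with hκv
    have hcomb := dE_comb g h A κ hq α β
    rw [← hv, ← hκv] at hcomb
    refine ⟨-κv, ?_⟩
    have hloc : ∀ y : ℂ, (h : (Fin 3 → ℂ) → ℂ) (t + y • ε + fun l => (n l : ℂ)) ≠ 0 → (h : (Fin 3 → ℂ) → ℂ) (t + y • ε + x • ε) ≠ 0 →
        (g : (Fin 3 → ℂ) → ℂ) (t + (y + x) • ε) * (h : (Fin 3 → ℂ) → ℂ) (t + y • ε) -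
          (g : (Fin 3 → ℂ) → ℂ) (t + y • ε) * (h : (Fin 3 → ℂ) → ℂ) (t + (y + x) • ε) +
        κv * (h : (Fin 3 → ℂ) → ℂ) (t + y • ε) * (h : (Fin 3 → ℂ) → ℂ) (t + (y + x) • ε) = 0 := by
      intro y hy1 hy2
      have h1 := htr n (t + y • ε)
      have h2 := line_const g h v κv hcomb (t + y • ε + x • ε) hy2 1
      have h3 : t + y • ε + x • ε + (1 : ℂ) • v = t + y • ε + fun l => (n l : ℂ) := by
        rw [one_smul, hn]
        abel
      rw [h3] at h2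
      have h4 : t + (y + x) • ε = t + y • ε + x • ε := by
        rw [add_smul]
        abel
      rw [h4]
      refine (mul_eq_zero.mp ?_).resolve_left hy1
      linear_combination (-(h : (Fin 3 → ℂ) → ℂ) (t + y • ε)) * h2 + ((h : (Fin 3 → ℂ) → ℂ) (t + y • ε + x • ε)) * h1
    have hD : Differentiable ℂ (fun y : ℂ => (g : (Fin 3 → ℂ) → ℂ) (t + (y + x) • ε) * (h : (Fin 3 → ℂ) → ℂ) (t + y • ε) -
          (g : (Fin 3 → ℂ) → ℂ) (t + y • ε) * (h : (Fin 3 → ℂ) → ℂ) (t + (y + x) • ε) +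
        κv * (h : (Fin 3 → ℂ) → ℂ) (t + y • ε) * (h : (Fin 3 → ℂ) → ℂ) (t + (y + x) • ε)) := by
      have hGx : Differentiable ℂ (fun y : ℂ => (g : (Fin 3 → ℂ) → ℂ) (t + (y + x) • ε)) :=
        hG.comp (differentiable_id.add_const x)
      have hHx : Differentiable ℂ (fun y : ℂ => (h : (Fin 3 → ℂ) → ℂ) (t + (y + x) • ε)) :=
        hH.comp (differentiable_id.add_const x)
      exact ((hGx.mul hH).sub (hG.mul hHx)).add (((hH.const_mul κv)).mul hHx)
    have hev : ∀ᶠ y in 𝓝 (0 : ℂ), (g : (Fin 3 → ℂ) → ℂ) (t + (y + x) • ε) * (h : (Fin 3 → ℂ) → ℂ) (t + y • ε) -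
          (g : (Fin 3 → ℂ) → ℂ) (t + y • ε) * (h : (Fin 3 → ℂ) → ℂ) (t + (y + x) • ε) +
        κv * (h : (Fin 3 → ℂ) → ℂ) (t + y • ε) * (h : (Fin 3 → ℂ) → ℂ) (t + (y + x) • ε) = 0 := by
      have c1 : Continuous (fun y : ℂ => (h : (Fin 3 → ℂ) → ℂ) (t + y • ε + fun l => (n l : ℂ))) :=
        hcont.comp (by fun_prop)
      have c2 : Continuous (fun y : ℂ => (h : (Fin 3 → ℂ) → ℂ) (t + y • ε + x • ε)) :=
        hcont.comp (by fun_prop)
      have e1 : ∀ᶠ y in 𝓝 (0 : ℂ), (h : (Fin 3 → ℂ) → ℂ) (t + y • ε + fun l => (n l : ℂ)) ≠ 0 := by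
        refine c1.continuousAt.eventually_ne ?_
        rw [zero_smul, add_zero]
        exact ht1 n
      have e2 : ∀ᶠ y in 𝓝 (0 : ℂ), (h : (Fin 3 → ℂ) → ℂ) (t + y • ε + x • ε) ≠ 0 := by
        refine c2.continuousAt.eventually_ne ?_
        rw [zero_smul, add_zero]
        exact ht2 n
      filter_upwards [e1, e2] with y hy1 hy2
      exact hloc y hy1 hy2
    have hzero := (hD.differentiableOn.analyticOnNhd isOpen_univ).eqOn_zero_of_preconnected_of_eventuallyEq_zero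
      isPreconnected_univ (Set.mem_univ (0 : ℂ)) hev
    intro y
    have h5 := hzero (Set.mem_univ y)
    simp only [Pi.zero_apply] at h5
    linear_combination h5
  obtain ⟨κ', hκ'⟩ := one_var_periods _ _ hG hH 0 (by rw [zero_smul, add_zero]; exact ht0) (by
    intro e he
    obtain ⟨n, hn1, hn2⟩ := small_comb ρ hρ (e * ‖ρ l0‖) (mul_pos he (norm_pos_iff.mpr h0))
    obtain ⟨ν, hν⟩ := key n
    refine ⟨(∑ l, ρ l * (n l : ℂ)) / ρ l0, div_ne_zero hn1 h0, ?_, ν, hν⟩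
    rw [norm_div, div_lt_iff₀ (norm_pos_iff.mpr h0)]
    exact hn2)
  refine ⟨κ', fun y => ?_⟩
  have h6 := hκ' y
  rw [(hdG y).deriv, (hdH y).deriv] at h6
  exact h6

theorem YA08_zero (F : E3) (h : Dense {t : Fin 3 → ℂ | (F : (Fin 3 → ℂ) → ℂ) t = 0}) : F = 0 := by
  have hc : Continuous (F : (Fin 3 → ℂ) → ℂ) := by
    rw [← continuousOn_univ]
    exact F.an.continuousOn
  have h1 : IsClosed {t : Fin 3 → ℂ | (F : (Fin 3 → ℂ) → ℂ) t = 0} := isClosed_singleton.preimage hc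
  have h2 := h.closure_eq
  rw [h1.closure_eq] at h2
  apply Subtype.ext
  funext t
  have h3 : t ∈ {t : Fin 3 → ℂ | (F : (Fin 3 → ℂ) → ℂ) t = 0} := by rw [h2]; exact Set.mem_univ t
  exact h3

theorem YA08_dense (ρ : Fin 3 → ℂ) (l0 : Fin 3) (h : E3) (hh : h ≠ 0) :
    Dense {t : Fin 3 → ℂ | (h : (Fin 3 → ℂ) → ℂ) t ≠ 0 ∧
      (∀ n : Fin 3 → ℤ, (h : (Fin 3 → ℂ) → ℂ) (t + fun l => (n l : ℂ)) ≠ 0) ∧
      (∀ n : Fin 3 → ℤ, (h : (Fin 3 → ℂ) → ℂ) (t + ((∑ l, ρ l * (n l : ℂ)) / ρ l0) • (Pi.single l0 1 : Fin 3 → ℂ)) ≠ 0)} := by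
  obtain ⟨e, he⟩ := exists_surjective_nat ((Fin 3 → ℤ) ⊕ (Fin 3 → ℤ))
  let w : (Fin 3 → ℤ) ⊕ (Fin 3 → ℤ) → (Fin 3 → ℂ) := fun s =>
    match s with
    | Sum.inl n => fun l => (n l : ℂ)
    | Sum.inr n => ((∑ l, ρ l * (n l : ℂ)) / ρ l0) • (Pi.single l0 1 : Fin 3 → ℂ)
  have hne : ∀ k : ℕ, trE (w (e k)) h ≠ 0 := by
    intro k h0
    apply hh
    apply (trE (w (e k))).injective
    rw [h0, map_zero]
  apply (E3.exists_ne (fun k => trE (w (e k)) h) hne).mono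
  intro t ht
  have h1 : ∀ n : Fin 3 → ℤ, (h : (Fin 3 → ℂ) → ℂ) (t + fun l => (n l : ℂ)) ≠ 0 := by
    intro n
    obtain ⟨k, hk⟩ := he (Sum.inl n)
    have h2 := ht k
    rw [trE_apply, hk] at h2
    exact h2
  refine ⟨?_, h1, ?_⟩
  · have h2 := h1 0
    have h3 : (t + fun l : Fin 3 => (((0 : Fin 3 → ℤ) l : ℤ) : ℂ)) = t := by
      funext l
      simp
    rw [h3] at h2
    exact h2
  · intro n
    obtain ⟨k, hk⟩ := he (Sum.inr n)
    have h2 := ht k
    rw [trE_apply, hk] at h2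
    exact h2

theorem YA08_pt (v : Fin 3 → ℂ) (G h : E3) (t : Fin 3 → ℂ) (κ' : ℂ)
    (hk : ∀ y : ℂ, G.1 (t + y • v) = κ' * (h : (Fin 3 → ℂ) → ℂ) (t + y • v) ^ 2) :
    ((dE v G * (h * h) - G * dE v (h * h) : E3) : (Fin 3 → ℂ) → ℂ) t = 0 := by
  have h1 := dE_line v G t 0
  have h2 := dE_line v (h * h) t 0
  have h3 : (fun y : ℂ => (G : (Fin 3 → ℂ) → ℂ) (t + y • v)) =
      fun y : ℂ => κ' * ((h * h : E3) : (Fin 3 → ℂ) → ℂ) (t + y • v) := by
    funext y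
    rw [hk y]
    show κ' * (h : (Fin 3 → ℂ) → ℂ) (t + y • v) ^ 2 =
      κ' * ((h : (Fin 3 → ℂ) → ℂ) (t + y • v) * (h : (Fin 3 → ℂ) → ℂ) (t + y • v))
    ring
  rw [h3] at h1
  have h4 := h1.unique (h2.const_mul κ')
  have h5 := hk 0
  rw [zero_smul, add_zero] at h4 h5
  show (dE v G : (Fin 3 → ℂ) → ℂ) t * ((h : (Fin 3 → ℂ) → ℂ) t * (h : (Fin 3 → ℂ) → ℂ) t) -
      (G : (Fin 3 → ℂ) → ℂ) t * (dE v (h * h) : (Fin 3 → ℂ) → ℂ) t = 0
  have h6 : (G : (Fin 3 → ℂ) → ℂ) t = κ' * (h : (Fin 3 → ℂ) → ℂ) t ^ 2 := h5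
  rw [h4, h6]
  ring

/-- Y3d. PROOF. `u = dM ε f = em g2 / em h2`, `g2 = dE ε g * h - g * dE ε h`, `h2 = h * h` (`dM_frac`). `dM ε u = em (dE ε g2 * h2 - g2 * dE ε h2) / ..`; the entire function `dE ε g2 * h2 - g2 * dE ε h2` vanishes at all `t` as in `line_kappa` (there `g2 = κ' h2` along the line), a dense set
(`E3.exists_ne` for the countable family of translates of `h`), so it is `0` (continuity). -/
theorem second_zero (A : Fin 2 → Fin 3 → ℂ) (κ : Fin 2 → ℂ) (ρ : Fin 3 → ℂ) (hρA : ∀ j, ∑ l, ρ l * A j l = 0) (hA : LinearIndependent ℂ A)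
    (l0 : Fin 3) (h0 : ρ l0 ≠ 0) (hρ : ∀ n : Fin 3 → ℤ, ∑ l, ρ l * (n l : ℂ) = 0 → n = 0) (f : M3)
    (h1 : ∀ j, dM (A j) f = algebraMap ℂ M3 (κ j)) (h2 : ∀ n : Fin 3 → ℤ, trM (fun l => (n l : ℂ)) f = f) :
    dM (Pi.single l0 1) (dM (Pi.single l0 1) f) = 0 := by
  obtain ⟨g, h, hh, hf⟩ := exists_frac f
  have hq : ∀ j, dE (A j) g * h - g * dE (A j) h = κ j • (h * h) := fun j =>
    dM_const (A j) (κ j) f g h hh hf (h1 j)
  have htr : ∀ (n : Fin 3 → ℤ) (s : Fin 3 → ℂ), (g : (Fin 3 → ℂ) → ℂ) (s + fun l => (n l : ℂ)) * (h : (Fin 3 → ℂ) → ℂ) s =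
      (g : (Fin 3 → ℂ) → ℂ) s * (h : (Fin 3 → ℂ) → ℂ) (s + fun l => (n l : ℂ)) := by
    intro n s
    have h3 : trM (fun l => (n l : ℂ)) f = f + algebraMap ℂ M3 0 := by rw [h2 n, map_zero, add_zero]
    have h4 := trM_const (fun l => (n l : ℂ)) 0 f g h hh hf h3 s
    rw [h4]; ring
  have hhh : h * h ≠ 0 := mul_ne_zero hh hh
  have hd1 := dM_frac (Pi.single l0 1) f g h hh hf
  have hd2 := dM_frac (Pi.single l0 1) (dM (Pi.single l0 1) f)
    (dE (Pi.single l0 1) g * h - g * dE (Pi.single l0 1) h) (h * h) hhh hd1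
  rw [hd2]
  have hF : dE (Pi.single l0 1) (dE (Pi.single l0 1) g * h - g * dE (Pi.single l0 1) h) * (h * h) -
      (dE (Pi.single l0 1) g * h - g * dE (Pi.single l0 1) h) * dE (Pi.single l0 1) (h * h) = 0 := by
    apply YA08_zero
    apply (YA08_dense ρ l0 h hh).mono
    intro t ht
    obtain ⟨ht0, ht1, ht2⟩ := ht
    obtain ⟨κ', hk⟩ := line_kappa g h A κ hq ρ hρA hA l0 h0 hρ htr t ht0 ht1 ht2
    exact YA08_pt (Pi.single l0 1) _ h t κ' hk
  rw [hF]
  unfold em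
  rw [map_zero, zero_div]

/-- Y3e. RIGIDITY. PROOF. `ρ l0 ≠ 0` for some `l0` (`hρ` with `n = Pi.single 0 1`). `u = dM ε f`, `ε = Pi.single l0 1`: `dM ε u = 0` (`second_zero`, `h2` with the second vector `0`), `dM (A j) u = dM ε (κ j) = 0` (`dM_comm`). Every vector is a combination of `ε, A 0, A 1` (`span_A`), so `dM v u = 0` for all `v`, `u = a` constant (`const_of_dM`).
So there is `a' : Fin 3 → ℂ` with `dM v f = ∑ l, a' l * v l` for all `v` (linear in `v`: `a' l = dM (single l) f` is a complex number). `f - ∑ a' l em (co l)` has all derivatives `0`: `f = em (∑ a' l co l) + b`. `trM w f - f = ∑ a' l w l` (`em_inj`). With `w = m + n τ`: `∑ a' l (m l + n l τ) = ∑ C l n l` for all integer `m, n`: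
`n = 0`: `a' = 0`; then `C = 0`. -/
theorem rigidity (A : Fin 2 → Fin 3 → ℂ) (ρ : Fin 3 → ℂ) (hρA : ∀ j, ∑ l, ρ l * A j l = 0) (hA : LinearIndependent ℂ A)
    (hρ : ∀ n : Fin 3 → ℤ, ∑ l, ρ l * (n l : ℂ) = 0 → n = 0) (τ : ℂ) (f : M3) (κ : Fin 2 → ℂ) (C : Fin 3 → ℂ)
    (h1 : ∀ j, dM (A j) f = algebraMap ℂ M3 (κ j))
    (h2 : ∀ m n : Fin 3 → ℤ, trM (fun l => (m l : ℂ) + n l * τ) f = f + algebraMap ℂ M3 (∑ l, C l * (n l : ℂ))) :
    C = 0 ∧ ∃ a : ℂ, f = algebraMap ℂ M3 a := by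
  have h0 : ρ 0 ≠ 0 := by
    intro h0
    have h3 := hρ (Pi.single 0 1) (by rw [Fin.sum_univ_three]; simp [h0])
    have h4 := congrFun h3 0
    simp at h4
  have hper : ∀ n : Fin 3 → ℤ, trM (fun l => (n l : ℂ)) f = f := by
    intro n
    have h3 := h2 n 0
    simpa using h3
  have hu0 := second_zero A κ ρ hρA hA 0 h0 hρ f h1 hper
  have huA : ∀ j, dM (A j) (dM (Pi.single 0 1) f) = 0 := by
    intro j
    rw [dM_comm, h1, Derivation.map_algebraMap]
  obtain ⟨a, ha⟩ := const_of_dM (dM (Pi.single 0 1) f) (fun v => by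
    obtain ⟨α, β, hv⟩ := span_A A ρ hρA hA 0 h0 v
    rw [hv, dM_add, dM_add, dM_smul, dM_smul, dM_smul, hu0, huA, huA, smul_zero, smul_zero,
      smul_zero, add_zero, add_zero])
  have hval : ∀ v : Fin 3 → ℂ, ∃ c : ℂ, dM v f = algebraMap ℂ M3 c := by
    intro v
    obtain ⟨α, β, hv⟩ := span_A A ρ hρA hA 0 h0 v
    refine ⟨(∑ l, ρ l * v l) / ρ 0 * a + (α * κ 0 + β * κ 1), ?_⟩
    rw [hv, dM_add, dM_add, dM_smul, dM_smul, dM_smul, ha, h1, h1, ← hv]
    simp only [Algebra.smul_def, map_add, map_mul]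
  choose a' ha' using fun l : Fin 3 => hval (Pi.single l 1)
  have hlin : ∀ v : Fin 3 → ℂ, dM v f = algebraMap ℂ M3 (∑ l, a' l * v l) := by
    intro v
    have hv : v = v 0 • (Pi.single 0 1 : Fin 3 → ℂ) + (v 1 • (Pi.single 1 1 : Fin 3 → ℂ) +
        v 2 • (Pi.single 2 1 : Fin 3 → ℂ)) := by
      funext i
      fin_cases i <;> simp
    rw [hv, dM_add, dM_add, dM_smul, dM_smul, dM_smul, ha', ha', ha', ← hv, Fin.sum_univ_three]
    simp only [Algebra.smul_def, map_add, map_mul]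
    ring
  set L : E3 := ∑ l, a' l • co l with hL
  have hdL : ∀ v : Fin 3 → ℂ, dE v L = algebraMap ℂ E3 (∑ l, a' l * v l) := by
    intro v
    rw [hL, map_sum, map_sum]
    refine Finset.sum_congr rfl fun l _ => ?_
    rw [Derivation.map_smul, dE_co, map_mul, Algebra.smul_def]
  have htL : ∀ w : Fin 3 → ℂ, trE w L = L + algebraMap ℂ E3 (∑ l, a' l * w l) := by
    intro w
    rw [hL, map_sum, map_sum, ← Finset.sum_add_distrib]
    refine Finset.sum_congr rfl fun l _ => ?_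
    have hco : trE w (co l) = co l + algebraMap ℂ E3 (w l) := by
      apply Subtype.ext
      funext t
      rfl
    rw [map_smul, hco, smul_add, map_mul, Algebra.smul_def (a' l) (algebraMap ℂ E3 (w l))]
  obtain ⟨b, hb⟩ := const_of_dM (f - em L) (fun v => by
    rw [map_sub, dM_em, hdL, em_C, hlin, sub_self])
  have hf : f = em L + algebraMap ℂ M3 b := by
    rw [← hb]
    ring
  have hem : ∀ x y : E3, em (x + y) = em x + em y := fun x y => map_add (algebraMap E3 M3) x y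
  have htr : ∀ w : Fin 3 → ℂ, trM w f = f + algebraMap ℂ M3 (∑ l, a' l * w l) := by
    intro w
    rw [hf, map_add, trM_em, trM_C, htL, hem, em_C]
    ring
  have hmain : ∀ m n : Fin 3 → ℤ, ∑ l, a' l * ((m l : ℂ) + n l * τ) = ∑ l, C l * (n l : ℂ) := by
    intro m n
    have h3 := h2 m n
    rw [htr] at h3
    exact (algebraMap ℂ M3).injective (add_left_cancel h3)
  have ha0 : ∀ l, a' l = 0 := by
    intro l
    have h3 := hmain (Pi.single l 1) 0
    rw [Finset.sum_eq_single l, Finset.sum_eq_zero] at h3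
    · simpa using h3
    · intro i _
      simp
    · intro i _ hi
      simp [hi]
    · intro h
      exact absurd (Finset.mem_univ l) h
  have hC : ∀ l, C l = 0 := by
    intro l
    have h3 := hmain 0 (Pi.single l 1)
    rw [Finset.sum_eq_zero (fun i _ => by rw [ha0, zero_mul]), Finset.sum_eq_single l] at h3
    · simpa using h3.symm
    · intro i _ hi
      simp [hi]
    · intro h
      exact absurd (Finset.mem_univ l) h
  refine ⟨funext hC, b, ?_⟩
  have hL0 : L = 0 := by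
    rw [hL]
    exact Finset.sum_eq_zero fun l _ => by rw [ha0, zero_smul]
  rw [hf, hL0]
  have he0 : em 0 = 0 := map_zero (algebraMap E3 M3)
  rw [he0, zero_add]

end Pool.Agent.MSU
end

end

section

/-! # U/Z3_Step1: the form `B` has no right kernel -/

open MvPolynomial

noncomputable section

namespace Pool.Agent.MSU

variable {M : Type} [Field M] [Algebra ℂ M] {Λ : Type}

/-- Z3a. PROOF. `K.hD` with `B P q = 0`, `B (..) q = 0`. -/
theorem ker_D (K : Ker M Λ) (q : Po M) (h : ∀ P, K.B P q = 0) (i : Fin 2) (P : Po M) :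
    K.B P (cD (K.D i) q - ∑ j, cst (K.e i j) * pderiv j q) = 0 := by
  have h1 := K.hD i P q
  rw [h P, h, map_zero, zero_add] at h1
  exact h1.symm

/-- Z3b. PROOF. Given `P`, put `P' = sh (-lam w) P` and choose `P''` with `map (T w) P'' = P'` (`map_surjective`, `K.Tsurj`). `K.hT w P'' q`: `0 = c_w B P (sh (chi w) (map (T w) q))` (`sh_sh_neg`), `c_w ≠ 0`. -/
theorem ker_T (K : Ker M Λ) (q : Po M) (h : ∀ P, K.B P q = 0) (w : Λ) (P : Po M) :
    K.B P (sh (K.chi w) (map (K.T w) q)) = 0 := by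
  obtain ⟨P', hP'⟩ := map_surjective (K.T w) (K.Tsurj w) (sh (-K.lam w) P)
  have h1 := K.hT w P' q
  rw [h P', map_zero, hP', sh_sh_neg] at h1
  exact (mul_eq_zero.1 h1.symm).resolve_left (K.c0 w)

theorem ZA03_map_totalDegree (T : M →+* M) (P : Po M) :
    (map T P).totalDegree ≤ P.totalDegree :=
  Finset.sup_mono (support_map_subset T P)

theorem ZA03_pderiv_totalDegree (i : Fin 2) (P : Po M) (b : ℕ) (h : P.totalDegree ≤ b) :
    (pderiv i P).totalDegree ≤ b :=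
  totalDegree_pderiv_lt b i P (h.trans (Nat.le_succ b))

theorem ZA03_hc_succ (P : Po M) (b : ℕ) (h : P.totalDegree ≤ b) :
    homogeneousComponent (b + 1) P = 0 :=
  homogeneousComponent_eq_zero _ _ (Nat.lt_succ_of_le h)

theorem ZA03_hc_sum (n : ℕ) (i : Fin 2 → ℂ) (P : Po M) :
    homogeneousComponent n (∑ j, cst (i j) * pderiv j P) =
      ∑ j, cst (i j) * pderiv j (homogeneousComponent (n + 1) P) := by
  rw [map_sum]
  refine Finset.sum_congr rfl (fun j _ => ?_)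
  rw [hc_cst_mul, hc_pderiv]

theorem ZA03_sum_totalDegree (i : Fin 2 → ℂ) (P : Po M) (b : ℕ) (h : P.totalDegree ≤ b) :
    (∑ j, cst (i j) * pderiv j P).totalDegree ≤ b := by
  refine totalDegree_finsetSum_le (fun j _ => ?_)
  refine (totalDegree_mul _ _).trans ?_
  rw [cst, totalDegree_C, zero_add]
  exact ZA03_pderiv_totalDegree j P b h

/-- the leading form is not zero -/
theorem ZA03_lead (q : Po M) (hq : q ≠ 0) : homogeneousComponent q.totalDegree q ≠ 0 := by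
  intro h
  rcases Nat.eq_zero_or_eq_succ_pred q.totalDegree with h0 | h0
  · rw [h0, homogeneousComponent_zero] at h
    exact hq ((eq_C_of_totalDegree_zero q h0.le).trans h)
  · rw [h0] at h
    have h1 := totalDegree_lt_of_hc (q.totalDegree.pred) q h0.le h
    omega

/-- part (ii)-(vi) of the proof: a normalised minimal element of the kernel gives a
contradiction -/
theorem ZA03_core (K : Ker M Λ) (q : Po M) (hq : q ≠ 0) (h : ∀ P, K.B P q = 0)
    (hD0 : ∀ i, cD (K.D i) q = ∑ j, cst (K.e i j) * pderiv j q)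
    (hT0 : ∀ w, sh (K.chi w) (map (K.T w) q) = q) : False := by
  obtain ⟨b, hb⟩ : ∃ b, q.totalDegree = b := ⟨_, rfl⟩
  have hq0 : homogeneousComponent b q ≠ 0 := hb ▸ ZA03_lead q hq
  have hbs : homogeneousComponent (b + 1) q = 0 := ZA03_hc_succ q b hb.le
  have hDq : ∀ i, cD (K.D i) (homogeneousComponent b q) = 0 := by
    intro i
    rw [← cD_hc, hD0, ZA03_hc_sum, hbs]
    simp
  have hmT : ∀ w, homogeneousComponent b (sh (K.chi w) (map (K.T w) q)) =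
      map (K.T w) (homogeneousComponent b q) := by
    intro w
    have h1 := (hc_sh (K.chi w) b (map (K.T w) q)
      ((ZA03_map_totalDegree _ _).trans (hb.le.trans (Nat.le_succ b)))).2
    rw [h1, hc_map, hc_map, hbs]
    simp
  have hTq : ∀ w, map (K.T w) (homogeneousComponent b q) = homogeneousComponent b q := by
    intro w
    rw [← hmT w, hT0 w]
  have hco : ∀ m, ∃ a : ℂ, (homogeneousComponent b q).coeff m = algebraMap ℂ M a := by
    intro m
    refine (K.rigD _ 0 0 (fun i => ?_) (fun w => ?_)).2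
    · rw [← coeff_cD, hDq i]
      simp
    · rw [← coeff_map, hTq w]
      simp
  choose a ha using hco
  obtain ⟨g, hg⟩ : ∃ g : Po ℂ, ofC g = homogeneousComponent b q := by
    refine ⟨∑ m ∈ (homogeneousComponent b q).support, monomial m (a m), ?_⟩
    rw [ofC, map_sum]
    conv_rhs => rw [← support_sum_monomial_coeff (homogeneousComponent b q)]
    refine Finset.sum_congr rfl (fun m _ => ?_)
    rw [map_monomial, ha m]
  rcases Nat.eq_zero_or_eq_succ_pred b with h0 | h0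
  · have h1 := eq_C_of_totalDegree_zero q (hb.trans h0).le
    have h2 := h 1
    rw [h1, ← mul_one (C (coeff 0 q)), ← smul_eq_C_mul, map_smul, smul_eq_mul] at h2
    rcases mul_eq_zero.1 h2 with h3 | h3
    · rw [h3, map_zero] at h1
      exact hq h1
    · exact K.B1 h3
  · obtain ⟨n, rfl⟩ : ∃ n, b = n + 1 := ⟨b.pred, h0⟩
    have hpd : ∀ j m, coeff m (pderiv j g) = 0 := by
      intro j m
      have h1 := (K.rigD ((homogeneousComponent n q).coeff m)
        (fun i => ∑ j, K.e i j * coeff m (pderiv j g))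
        (fun j => -coeff m (pderiv j g)) (fun i => ?_) (fun w => ?_)).1
      · have h2 := congrFun h1 j
        simpa using h2
      · rw [← coeff_cD, ← cD_hc, hD0, ZA03_hc_sum, ← hg, coeff_sum, map_sum]
        refine Finset.sum_congr rfl (fun j _ => ?_)
        rw [cst, coeff_C_mul, ofC, pderiv_map, coeff_map, map_mul]
      · have h2 := (hc_sh (K.chi w) n (map (K.T w) q) ((ZA03_map_totalDegree _ _).trans hb.le)).2
        rw [hT0 w, hc_map, hc_map, hTq w, ← hg] at h2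
        have h3 := congrArg (coeff m) h2
        rw [coeff_add, coeff_map, coeff_sum] at h3
        have h4 : ∀ j : Fin 2, coeff m (cst (K.chi w j) * pderiv j (ofC g : Po M)) =
            algebraMap ℂ M (K.chi w j * coeff m (pderiv j g)) := by
          intro j
          rw [cst, coeff_C_mul, ofC, pderiv_map, coeff_map, map_mul]
        simp only [h4] at h3
        rw [← map_sum] at h3
        rw [eq_comm, ← eq_sub_iff_add_eq] at h3
        rw [h3, sub_eq_add_neg, ← map_neg, ← Finset.sum_neg_distrib]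
        congr 2
        refine Finset.sum_congr rfl (fun j _ => ?_)
        ring
    have hpd' : ∀ j, pderiv j (homogeneousComponent (n + 1) q) = 0 := by
      intro j
      rw [← hg, ofC, pderiv_map]
      have h1 : pderiv j g = 0 := by
        ext m
        rw [hpd j m, coeff_zero]
      rw [h1, map_zero]
    have hE := (homogeneousComponent_isHomogeneous (n + 1) q).sum_X_mul_pderiv
    have hz : (n + 1) • homogeneousComponent (n + 1) q = 0 := by
      rw [← hE]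
      refine Finset.sum_eq_zero (fun j _ => ?_)
      rw [hpd' j, mul_zero]
    apply hq0
    have : CharZero M := charZero_of_injective_algebraMap (algebraMap ℂ M).injective
    ext m
    have h1 := congrArg (coeff m) hz
    rw [coeff_smul, coeff_zero, nsmul_eq_mul] at h1
    rcases mul_eq_zero.1 h1 with h2 | h2
    · exact absurd (Nat.cast_eq_zero.1 h2) (Nat.succ_ne_zero n)
    · rw [h2, coeff_zero]

/-- Z3c. PROOF. Let `Q = {q : ∀ P, B P q = 0}` (a submodule). Suppose `Q` has a nonzero element. Let `b0` be the minimal degree of the nonzero elements of `Q`, and among the nonzero `q ∈ Q` of degree `b0` take one whose leading form `q0 = homogeneousComponent b0 q`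
has the minimal number of monomials (`support.card`); multiply by a constant so that one coefficient of `q0` is `1`.
(i) If `q' ∈ Q` has degree `≤ b0` and `homogeneousComponent b0 q'` has support strictly contained in that of `q0` then `q' = 0`: the leading form vanishes by minimality of the support (if it is not `0` then `q'` has degree `b0` and a smaller support) so (`b0 = 0`: `q'` is constant `= 0`)
the degree of `q'` is `< b0` and `q' = 0` by minimality of `b0`.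
(ii) Apply (i) to `q' = cD (D i) q - ∑ j, cst (e i j) * pderiv j q` (`ker_D`): its component of degree `b0` is `cD (D i) q0` (`cD_hc`, `pderiv` lowers the degree), its support is contained in that of `q0` and misses the monomial with coefficient `1` (`δ 1 = 0`). So `q' = 0`.
(iii) Apply (i) to `q' = sh (chi w) (map (T w) q) - q` (`ker_T`): component `map (T w) q0 - q0` (`hc_sh`, `hc_map`). So `q' = 0`.
(iv) So all coefficients `f` of `q0` satisfy `D i f = 0`, `T w f = f`, so by `rigD` with `κ = 0, c = 0` they are complex numbers: `q0 = ofC g`.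
(v) If `b0 = 0` then `q = C f`, `f ≠ 0`, and `B 1 q = f B 1 1 ≠ 0`: contradiction with `q ∈ Q`.
(vi) `b0 = n + 1`: let `q1 = homogeneousComponent n q`. (ii) in degree `n`: `cD (D i) q1 = ∑ j, cst (e i j) * pderiv j q0` (`hc_pderiv`); (iii) in degree `n` (`hc_sh`): `map (T w) q1 + ∑ j, cst (chi w j) * pderiv j (map (T w) q0) = q1` and `map (T w) q0 = q0`.
Let `m` be a monomial, `f = q1.coeff m`, `c j` = minus the coefficient of `m` in `pderiv j g`: `D i f` is a complex number, `T w f = f + ∑ c j chi w j`. By `rigD`: `c = 0`. So `pderiv j g = 0` for both `j` and `g` homogeneous of degree `n + 1 ≥ 1`: `g = 0` (Euler: `∑ X j * pderiv j g = (n+1) g`,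
`IsHomogeneous.sum_X_mul_pderiv` or coefficientwise). Contradiction with `q0 ≠ 0`. -/
theorem step1 (K : Ker M Λ) (q : Po M) (h : ∀ P, K.B P q = 0) : q = 0 := by
  classical
  by_contra hne
  -- minimal degree
  have hex : ∃ b, ∃ q : Po M, q ≠ 0 ∧ (∀ P, K.B P q = 0) ∧ q.totalDegree = b :=
    ⟨_, q, hne, h, rfl⟩
  obtain ⟨b, hb, hmin⟩ : ∃ b, (∃ q : Po M, q ≠ 0 ∧ (∀ P, K.B P q = 0) ∧ q.totalDegree = b) ∧
      ∀ q' : Po M, (∀ P, K.B P q' = 0) → q'.totalDegree < b → q' = 0 := by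
    refine ⟨Nat.find hex, Nat.find_spec hex, fun q' h1 h2 => ?_⟩
    by_contra h3
    exact Nat.find_min hex h2 ⟨q', h3, h1, rfl⟩
  have hex2 : ∃ c, ∃ q : Po M, (q ≠ 0 ∧ (∀ P, K.B P q = 0) ∧ q.totalDegree = b) ∧
      (homogeneousComponent b q).support.card = c := by
    obtain ⟨q, hq⟩ := hb
    exact ⟨_, q, hq, rfl⟩
  obtain ⟨q1, ⟨hq1, hK1, hd1⟩, hm1⟩ : ∃ q : Po M, (q ≠ 0 ∧ (∀ P, K.B P q = 0) ∧
      q.totalDegree = b) ∧ ∀ q' : Po M, q' ≠ 0 → (∀ P, K.B P q' = 0) → q'.totalDegree = b →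
        (homogeneousComponent b q).support.card ≤ (homogeneousComponent b q').support.card := by
    obtain ⟨q, hq, hc⟩ := Nat.find_spec hex2
    refine ⟨q, hq, fun q' h1 h2 h3 => ?_⟩
    rw [hc]
    exact Nat.find_min' hex2 ⟨q', ⟨h1, h2, h3⟩, rfl⟩
  -- normalise
  have hl1 : homogeneousComponent b q1 ≠ 0 := hd1 ▸ ZA03_lead q1 hq1
  obtain ⟨m0, hm0⟩ := ne_zero_iff.1 hl1
  have ha : ((homogeneousComponent b q1).coeff m0)⁻¹ ≠ 0 := inv_ne_zero hm0
  obtain ⟨q2, hq2, hK2, hd2, hs2, hc2⟩ : ∃ q2 : Po M, q2 ≠ 0 ∧ (∀ P, K.B P q2 = 0) ∧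
      q2.totalDegree ≤ b ∧ (homogeneousComponent b q2).support =
        (homogeneousComponent b q1).support ∧ (homogeneousComponent b q2).coeff m0 = 1 := by
    refine ⟨((homogeneousComponent b q1).coeff m0)⁻¹ • q1, smul_ne_zero ha hq1, fun P => ?_,
      (totalDegree_smul_le _ _).trans hd1.le, ?_, ?_⟩
    · rw [map_smul, hK1 P, smul_zero]
    · rw [map_smul, support_smul_eq ha]
    · rw [map_smul, coeff_smul, smul_eq_mul, inv_mul_cancel₀ hm0]
  have key : ∀ q' : Po M, (∀ P, K.B P q' = 0) → q'.totalDegree ≤ b →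
      (∀ m, (homogeneousComponent b q2).coeff m = 0 → (homogeneousComponent b q').coeff m = 0) →
      (homogeneousComponent b q').coeff m0 = 0 → q' = 0 := by
    intro q' h1 h2 h3 h4
    by_contra h5
    have h6 : q'.totalDegree = b := by
      by_contra h7
      exact h5 (hmin q' h1 (lt_of_le_of_ne h2 h7))
    have h8 := hm1 q' h5 h1 h6
    rw [← hs2] at h8
    refine absurd h8 (not_le.2 (Finset.card_lt_card ?_))
    rw [Finset.ssubset_iff_of_subset]
    · refine ⟨m0, ?_, ?_⟩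
      · rw [mem_support_iff, hc2]
        exact one_ne_zero
      · rw [notMem_support_iff]
        exact h4
    · intro m hm
      rw [mem_support_iff] at hm ⊢
      exact fun h9 => hm (h3 m h9)
  have hbs : homogeneousComponent (b + 1) q2 = 0 := ZA03_hc_succ q2 b hd2
  refine ZA03_core K q2 hq2 hK2 (fun i => ?_) (fun w => ?_)
  · rw [← sub_eq_zero]
    have e1 : homogeneousComponent b (cD (K.D i) q2 - ∑ j, cst (K.e i j) * pderiv j q2) =
        cD (K.D i) (homogeneousComponent b q2) := by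
      rw [map_sub, cD_hc, ZA03_hc_sum, hbs]
      simp
    refine key _ (fun P => ker_D K q2 hK2 i P) ?_ ?_ ?_
    · exact (totalDegree_sub _ _).trans (max_le ((cD_totalDegree _ _).trans hd2)
        (ZA03_sum_totalDegree _ _ b hd2))
    · intro m hm
      rw [e1, coeff_cD, hm, map_zero]
    · rw [e1, coeff_cD, hc2]
      exact (K.D i).map_one_eq_zero
  · rw [← sub_eq_zero]
    have e1 : homogeneousComponent b (sh (K.chi w) (map (K.T w) q2) - q2) =
        map (K.T w) (homogeneousComponent b q2) - homogeneousComponent b q2 := by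
      have h1 := (hc_sh (K.chi w) b (map (K.T w) q2)
        ((ZA03_map_totalDegree _ _).trans (hd2.trans (Nat.le_succ b)))).2
      rw [map_sub, h1, hc_map, hc_map, hbs]
      simp
    refine key _ (fun P => ?_) ?_ ?_ ?_
    · rw [map_sub, ker_T K q2 hK2 w P, hK2 P, sub_zero]
    · exact (totalDegree_sub _ _).trans (max_le ((sh_totalDegree _ _).trans
        ((ZA03_map_totalDegree _ _).trans hd2)) hd2)
    · intro m hm
      rw [e1, coeff_sub, coeff_map, hm, map_zero, sub_zero]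
    · rw [e1, coeff_sub, coeff_map, hc2, map_one, sub_self]

end Pool.Agent.MSU
end

end

section

/-! # L/S5_Root: the square roots `Y` -/

open Complex

noncomputable section

namespace Pool.Agent.MSL

/-- S5a. PROOF. `‖Y‖² ≥ 4X³ - 2‖g‖X - ‖k‖ ≥ 1` and `≤ 4X³ + 2‖g‖X + ‖k‖ ≤ 9 X⁴` for `X ≥ X₀ ≥ 1 + ‖g‖ + ‖k‖`. -/
theorem Y_size (g k : ℂ) : ∃ X₀ : ℕ, 1 ≤ X₀ ∧ ∀ (X : ℕ) (Y : ℂ), X₀ ≤ X → Y ^ 2 = 4 * (X : ℂ) ^ 3 - 2 * g * X - k → 1 ≤ ‖Y‖ ∧ ‖Y‖ ≤ 3 * X ^ 2 := by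
  refine ⟨⌈1 + ‖g‖ + ‖k‖⌉₊ + 1, by omega, ?_⟩
  intro X Y hX hY
  have h1 : 1 + ‖g‖ + ‖k‖ ≤ (X : ℝ) := by
    have h2 := Nat.le_ceil (1 + ‖g‖ + ‖k‖)
    have h3 : ((⌈1 + ‖g‖ + ‖k‖⌉₊ + 1 : ℕ) : ℝ) ≤ (X : ℝ) := by exact_mod_cast hX
    push_cast at h3
    linarith
  have hg0 := norm_nonneg g
  have hk0 := norm_nonneg k
  have hX1 : (1 : ℝ) ≤ X := by linarith
  have hX0 : (0 : ℝ) ≤ X := by linarith
  have e4 : ‖(4 * (X : ℂ) ^ 3)‖ = 4 * (X : ℝ) ^ 3 := by
    rw [norm_mul, norm_pow, Complex.norm_natCast]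
    norm_num
  have e2 : ‖(2 * g * X + k)‖ ≤ 2 * ‖g‖ * X + ‖k‖ := by
    refine (norm_add_le _ _).trans ?_
    rw [norm_mul, norm_mul, Complex.norm_natCast]
    norm_num
  have hn : ‖Y‖ ^ 2 = ‖4 * (X : ℂ) ^ 3 - (2 * g * X + k)‖ := by
    rw [← norm_pow, hY]
    congr 1
    ring
  have hlow : 4 * (X : ℝ) ^ 3 - (2 * ‖g‖ * X + ‖k‖) ≤ ‖Y‖ ^ 2 := by
    rw [hn]
    have := norm_sub_norm_le (4 * (X : ℂ) ^ 3) (2 * g * X + k)
    rw [e4] at this
    linarith
  have hup : ‖Y‖ ^ 2 ≤ 4 * (X : ℝ) ^ 3 + (2 * ‖g‖ * X + ‖k‖) := by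
    rw [hn]
    have := norm_sub_le (4 * (X : ℂ) ^ 3) (2 * g * X + k)
    rw [e4] at this
    linarith
  have hgX : ‖g‖ * X ≤ (X - 1 - ‖k‖) * X := mul_le_mul_of_nonneg_right (by linarith) hX0
  have hkX : 0 ≤ ‖k‖ * X := by positivity
  have hkX1 : ‖k‖ ≤ ‖k‖ * X := by nlinarith
  have hX2 : (X : ℝ) ≤ (X : ℝ) ^ 2 := by nlinarith
  have hX3 : (X : ℝ) ^ 2 ≤ (X : ℝ) ^ 3 := by nlinarith [sq_nonneg (X : ℝ)]
  have hX4 : (X : ℝ) ^ 3 ≤ (X : ℝ) ^ 4 := by
    have : 0 ≤ (X : ℝ) ^ 3 := by positivity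
    nlinarith
  have hY0 := norm_nonneg Y
  constructor
  · have h5 : 1 ≤ ‖Y‖ ^ 2 := by nlinarith
    nlinarith
  · have h5 : ‖Y‖ ^ 2 ≤ (3 * (X : ℝ) ^ 2) ^ 2 := by nlinarith
    exact le_of_sq_le_sq h5 (by positivity)

/-- S5b. PROOF. `‖Y' - Y‖ ‖Y' + Y‖ = ‖Y'² - Y²‖ = ‖2 (g' - g) X + (k' - k)‖ ≤ 3 X ε`, and `max ‖Y' - Y‖ ‖Y' + Y‖ ≥ ‖Y‖ ≥ 1`. -/
theorem Y_lip (g k g' k' Y Y' : ℂ) (X : ℕ) (ε : ℝ) (hX : 1 ≤ X) (h : Y ^ 2 = 4 * (X : ℂ) ^ 3 - 2 * g * X - k)
    (h' : Y' ^ 2 = 4 * (X : ℂ) ^ 3 - 2 * g' * X - k') (hg : ‖g' - g‖ ≤ ε) (hk : ‖k' - k‖ ≤ ε) (hY : 1 ≤ ‖Y‖) :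
    ‖Y' - Y‖ ≤ 3 * X * ε ∨ ‖Y' + Y‖ ≤ 3 * X * ε := by
  have hX1 : (1 : ℝ) ≤ X := by exact_mod_cast hX
  have hε : 0 ≤ ε := (norm_nonneg _).trans hg
  have e1 : (Y' - Y) * (Y' + Y) = -(2 * (g' - g) * X + (k' - k)) := by
    linear_combination h' - h
  have e2 : ‖Y' - Y‖ * ‖Y' + Y‖ ≤ 3 * X * ε := by
    rw [← norm_mul, e1, norm_neg]
    refine (norm_add_le _ _).trans ?_
    rw [norm_mul, norm_mul, Complex.norm_natCast]
    have h2 : ‖(2 : ℂ)‖ = 2 := by norm_num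
    rw [h2]
    have h3 : ‖g' - g‖ * X ≤ ε * X := mul_le_mul_of_nonneg_right hg (by linarith)
    have h4 : ε ≤ ε * X := by nlinarith
    linarith
  have e3 : 2 * ‖Y‖ ≤ ‖Y' - Y‖ + ‖Y' + Y‖ := by
    have h5 : (2 : ℂ) * Y = (Y' + Y) - (Y' - Y) := by ring
    have h6 : ‖(2 : ℂ) * Y‖ = 2 * ‖Y‖ := by
      rw [norm_mul]
      norm_num
    rw [← h6, h5]
    have := norm_sub_le (Y' + Y) (Y' - Y)
    linarith
  rcases le_total ‖Y' - Y‖ ‖Y' + Y‖ with hc | hc
  · left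
    have h7 : 1 ≤ ‖Y' + Y‖ := by linarith
    have h8 := norm_nonneg (Y' - Y)
    nlinarith
  · right
    have h7 : 1 ≤ ‖Y' - Y‖ := by linarith
    have h8 := norm_nonneg (Y' + Y)
    nlinarith

end Pool.Agent.MSL
end

end
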