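import Mathlib
import Pool.Agent.Lib.MP_f58a57_nt.FK.K016
import Pool.Agent.Lib.MP_f58a57_nt.FK.K032
import Pool.Agent.Lib.MP_f58a57_nt.FK.K033
import Pool.Agent.Lib.MP_f58a57_nt.FK.K035
import Pool.Agent.Lib.MP_f58a57_nt.FK.K036

namespace Pool.Agent.MSD
end Pool.Agent.MSD
namespace Pool.Agent.MSK
end Pool.Agent.MSK
namespace Pool.Agent.MSP
end Pool.Agent.MSP
namespace Pool.Agent.MSR
end Pool.Agent.MSR

section

/-! # R/A3_DerIt: iterated derivatives -/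

open Complex Filter Topology IntermediateField

noncomputable section

namespace Pool.Agent.MSR

open MSD MSP MSK

variable {d : ℕ}

/-- A3. PROOF. Induction on `k ≤ T` with `der_bd` (K/A2_Bd), as `der_iter_Mon` there: after `k` steps the degree is `≤ n₀ + (d+3) k` and the length `≤ ∏_{i<k} (8 (d+1) A (n₀ + (d+3) i)) H₀`; all the factors are
`≤ F = 8 (d+1) A (n₀ + (d+3) T)` and `F ≥ 1`, so `F^k ≤ F^T`. -/
theorem der_iter_gen (a : Fin d → ℤ) (A : ℝ) (hA : 1 ≤ A) (ha : ∀ j, |(a j : ℝ)| ≤ A) (p : MvPolynomial (Vr d) ℤ) (n₀ : ℕ) (H₀ : ℝ)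
    (h1 : p.totalDegree ≤ n₀) (h2 : mlen p ≤ H₀) (T k : ℕ) (hT : 1 ≤ T) (hk : k ≤ T) :
    ((der a)^[k] p).totalDegree ≤ n₀ + (d + 3) * T ∧
      mlen ((der a)^[k] p) ≤ (8 * (d + 1) * A * (n₀ + (d + 3) * T)) ^ T * H₀ := by
  have hA0 : 0 ≤ A := zero_le_one.trans hA
  have hc : (0 : ℝ) ≤ 8 * (d + 1) * A := by positivity
  have hT' : (1 : ℝ) ≤ T := by exact_mod_cast hT
  have hd : (0 : ℝ) ≤ d := Nat.cast_nonneg _
  have hL : (0 : ℝ) ≤ n₀ := Nat.cast_nonneg _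
  have hH : 0 ≤ H₀ := (mlen_nonneg p).trans h2
  have hB1 : (1 : ℝ) ≤ 8 * (d + 1) * A * (n₀ + (d + 3) * T) := by
    have h1 : (1 : ℝ) ≤ 8 * (d + 1) * A := by nlinarith [mul_nonneg hd hA0]
    have h2 : (1 : ℝ) ≤ n₀ + (d + 3) * T := by nlinarith
    exact one_le_mul_of_one_le_of_one_le h1 h2
  have main : ∀ k, k ≤ T → ((der a)^[k] p).totalDegree ≤ n₀ + (d + 3) * k ∧
      mlen ((der a)^[k] p) ≤ (8 * (d + 1) * A * (n₀ + (d + 3) * T)) ^ k * H₀ := by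
    intro k
    induction k with
    | zero =>
      intro _
      rw [Function.iterate_zero, id_eq, pow_zero, one_mul]
      exact ⟨h1.trans (by omega), h2⟩
    | succ k ih =>
      intro hk'
      obtain ⟨h1, h2⟩ := ih (by omega)
      rw [Function.iterate_succ_apply']
      obtain ⟨h3, h4⟩ := der_bd a A hA ha _ _ _ h1 h2
      refine ⟨h3.trans (by rw [Nat.mul_succ]; omega), h4.trans ?_⟩
      rw [pow_succ]
      have h5 : 0 ≤ (8 * (d + 1) * A * (n₀ + (d + 3) * T)) ^ k * H₀ :=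
        mul_nonneg (pow_nonneg (zero_le_one.trans hB1) _) hH
      have e1 : (8 * (d + 1) * A * (n₀ + (d + 3) * T)) ^ k * (8 * (d + 1) * A * (n₀ + (d + 3) * T)) * H₀
          = (8 * (d + 1) * A * (n₀ + (d + 3) * T)) * ((8 * (d + 1) * A * (n₀ + (d + 3) * T)) ^ k * H₀) := by ring
      rw [e1]
      refine mul_le_mul_of_nonneg_right ?_ h5
      refine mul_le_mul_of_nonneg_left ?_ hc
      push_cast
      have h6 : (k : ℝ) ≤ T := by exact_mod_cast (by omega : k ≤ T)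
      nlinarith
  obtain ⟨h3, h4⟩ := main k hk
  refine ⟨h3.trans ?_, h4.trans (mul_le_mul_of_nonneg_right (pow_le_pow_right₀ hB1 hk) hH)⟩
  have := Nat.mul_le_mul_left (d + 3) hk
  omega

end Pool.Agent.MSR
end

end

section

/-!
# MP_f58a57_nt, cubic points: the field which contains all the lifts
-/

open Complex

noncomputable section

namespace Pool.Agent.MSL

open MSD MSP MSK MSR

/-- the field `L` contains all the roots over the conjugates of `x`, and the square roots `Y` -/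
structure Big (L : IntermediateField ℚ ℂ) (F : Fin 5 → FP) (x : Fin 2 → L) (X₁ : ℕ) : Prop where
  root : ∀ (g : L ≃ₐ[ℚ] L) (i : Fin 5) (lam : ℂ), (spv (fun j => ((g (x j) : L) : ℂ)) (F i)).eval lam = 0 → lam ∈ L
  sq : ∀ w₀ w₂ : L, (spv x (F 0)).eval w₀ = 0 → (spv x (F 2)).eval w₂ = 0 → ∀ X ≤ X₁, ∃ Y : L, Y ^ 2 = 4 * (X : L) ^ 3 - 2 * w₀ * X - w₂

/-- the conclusion of `near_lift` -/
def NearL (θ : Fin 2 → ℂ) (ω : Fin 5 → ℂ) (F : Fin 5 → FP) (r₀ C : ℝ) : Prop :=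
  ∀ x : Fin 2 → ℂ, ‖x - θ‖ ≤ r₀ → (∀ i, MvPolynomial.aeval x (F i).leadingCoeff ≠ 0) ∧
    ∃ ω' : Fin 5 → ℂ, (∀ i, (spv x (F i)).eval (ω' i) = 0) ∧ (∀ i, ‖ω' i - ω i‖ ≤ C * ‖x - θ‖) ∧ ω' 3 = ω 3 ∧ ω' 4 = ω 4

/-- the conjugate point -/
def cj {L : IntermediateField ℚ ℂ} (g : L ≃ₐ[ℚ] L) (x : Fin 2 → L) (j : Fin 2) : ℂ := ((g (x j) : L) : ℂ)

end Pool.Agent.MSL
end

end

section

/-! # U/C5a_Rp: the size of the derivatives of the polynomials `Rp` (copied from R/C5_Step) -/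

open Complex

noncomputable section

namespace Pool.Agent.MSU

open MSD MSP MSK MSR

variable {d : ℕ}

theorem d0_nn (T E d : ℕ) (hT : 1 ≤ T) : (1 : ℝ) ≤ (8 * (d + 1) * T * ((4 * (d * E) : ℕ) + (d + 3) * T)) ^ T *
    (88 * (d + 1) * ((d * E : ℕ) + 1)) ^ (d * E) := by
  have hT1 : (1 : ℝ) ≤ T := by exact_mod_cast hT
  have hd0 : (0 : ℝ) ≤ d := Nat.cast_nonneg d
  have hE0 : (0 : ℝ) ≤ ((4 * (d * E) : ℕ) : ℝ) := Nat.cast_nonneg _
  have hE0' : (0 : ℝ) ≤ ((d * E : ℕ) : ℝ) := Nat.cast_nonneg _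
  have h1 : (1 : ℝ) ≤ 8 * (d + 1) * T := by nlinarith
  have h2 : (1 : ℝ) ≤ (4 * (d * E) : ℕ) + (d + 3) * T := by nlinarith
  have h3 : (1 : ℝ) ≤ (8 * (d + 1) * T * ((4 * (d * E) : ℕ) + (d + 3) * T)) ^ T := by
    apply one_le_pow₀
    nlinarith
  have h4 : (1 : ℝ) ≤ (88 * (d + 1) * ((d * E : ℕ) + 1)) ^ (d * E) := by
    apply one_le_pow₀
    nlinarith
  nlinarith

theorem d0_Rp (d T E : ℕ) (hT : 1 ≤ T) (hE : 1 ≤ E) (a : Fin d → ℕ) (ha : ∀ j, a j ≤ T) (k : ℕ) (hk : k ≤ T) (κ : Ir d E) :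
    ((der (fun j => (a j : ℤ)))^[k] (Rp (fun j => (κ j).val))).totalDegree ≤ 4 * (d * E) + (d + 3) * T ∧
      mlen ((der (fun j => (a j : ℤ)))^[k] (Rp (fun j => (κ j).val))) ≤
        (8 * (d + 1) * T * ((4 * (d * E) : ℕ) + (d + 3) * T)) ^ T * (88 * (d + 1) * ((d * E : ℕ) + 1)) ^ (d * E) := by
  have hs : ∑ j, (κ j).val ≤ d * E := by
    calc ∑ j, (κ j).val ≤ ∑ _j : Fin d, E := Finset.sum_le_sum fun j _ => (κ j).isLt.le
      _ = d * E := by simp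
  obtain ⟨h1, h2⟩ := Rp_bd (fun j => (κ j).val)
  have hd0 : (0 : ℝ) ≤ d := Nat.cast_nonneg d
  have h3 : mlen (Rp (fun j => (κ j).val)) ≤ (88 * ((d : ℝ) + 1) * ((d * E : ℕ) + 1)) ^ (d * E) := by
    refine h2.trans ?_
    have hs' : ((∑ j, (κ j).val : ℕ) : ℝ) ≤ ((d * E : ℕ) : ℝ) := by exact_mod_cast hs
    have hs0 : (0 : ℝ) ≤ ((∑ j, (κ j).val : ℕ) : ℝ) := Nat.cast_nonneg _
    have h4 : (88 * ((d : ℝ) + 1) * (((∑ j, (κ j).val : ℕ) : ℝ) + 1)) ≤ (88 * ((d : ℝ) + 1) * ((d * E : ℕ) + 1)) :=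
      mul_le_mul_of_nonneg_left (by linarith) (by positivity)
    have h5 : 1 ≤ (88 * ((d : ℝ) + 1) * ((d * E : ℕ) + 1)) := by
      have : (0 : ℝ) ≤ ((d * E : ℕ) : ℝ) := Nat.cast_nonneg _
      nlinarith
    exact (pow_le_pow_left₀ (by positivity) h4 _).trans (pow_le_pow_right₀ h5 hs)
  exact der_iter_gen (fun j => (a j : ℤ)) (T : ℝ) (by exact_mod_cast hT) (fun j => by
    rw [Int.cast_natCast, abs_of_nonneg (Nat.cast_nonneg _)]
    exact_mod_cast ha j) (Rp (fun j => (κ j).val)) (4 * (d * E)) _ (h1.trans (by omega)) h3 T k hT hk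

end Pool.Agent.MSU
end

end

section

/-! # L/L4_Val: valuations of polynomial values, roots and determinants -/

open Polynomial

noncomputable section

namespace Pool.Agent.MSL

open MSD MSP

variable (L : IntermediateField ℚ ℂ) [FiniteDimensional ℚ L] [IsGalois ℚ L]

/-- L4a. PROOF. Every monomial `a ∏ x_i^(e_i)`, `|e| = d ≤ m`, times `A^m` is `a A^(m-d) ∏ (A x_i)^(e_i)`, of value `≤ c^(m-d) c^d` (`val_int`); `Valuation.map_sum_le`. -/
theorem val_mv {σ : Type*} (v : Valuation L VG) (p : MvPolynomial σ ℤ) (m : ℕ) (hm : p.totalDegree ≤ m) (x : σ → L) (A : L) (c : VG)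
    (hA : v A ≤ c) (hx : ∀ i, v (A * x i) ≤ c) : v (A ^ m * MvPolynomial.aeval x p) ≤ c ^ m := by
  rw [MvPolynomial.aeval_def, MvPolynomial.eval₂_eq, Finset.mul_sum]
  apply Valuation.map_sum_le
  intro d hd
  have hdm : ∑ i ∈ d.support, d i ≤ m := le_trans (MvPolynomial.le_totalDegree hd) hm
  have e1 : A ^ m * ((algebraMap ℤ L) (MvPolynomial.coeff d p) * ∏ i ∈ d.support, x i ^ d i) =
      ((MvPolynomial.coeff d p : ℤ) : L) * (A ^ (m - ∑ i ∈ d.support, d i) * ∏ i ∈ d.support, (A * x i) ^ d i) := by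
    have e2 : ∏ i ∈ d.support, (A * x i) ^ d i = A ^ (∑ i ∈ d.support, d i) * ∏ i ∈ d.support, x i ^ d i := by
      rw [← Finset.prod_pow_eq_pow_sum, ← Finset.prod_mul_distrib]
      exact Finset.prod_congr rfl fun i _ => mul_pow _ _ _
    have e3 : A ^ m = A ^ (m - ∑ i ∈ d.support, d i) * A ^ (∑ i ∈ d.support, d i) := by
      rw [← pow_add, Nat.sub_add_cancel hdm]
    rw [e2, e3]
    simp only [eq_intCast]
    ring
  rw [e1, map_mul, map_mul, map_pow, map_prod]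
  have h1 := val_int L v (MvPolynomial.coeff d p)
  have h2 : (v A) ^ (m - ∑ i ∈ d.support, d i) ≤ c ^ (m - ∑ i ∈ d.support, d i) := pow_le_pow_left' hA _
  have h3 : ∏ i ∈ d.support, v ((A * x i) ^ d i) ≤ c ^ (∑ i ∈ d.support, d i) := by
    rw [← Finset.prod_pow_eq_pow_sum]
    apply Finset.prod_le_prod'
    intro i _
    rw [map_pow]
    exact pow_le_pow_left' (hx i) _
  calc v ((MvPolynomial.coeff d p : ℤ) : L) * ((v A) ^ (m - ∑ i ∈ d.support, d i) * ∏ i ∈ d.support, v ((A * x i) ^ d i))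
      ≤ 1 * (c ^ (m - ∑ i ∈ d.support, d i) * c ^ (∑ i ∈ d.support, d i)) := mul_le_mul' h1 (mul_le_mul' h2 h3)
    _ = c ^ m := by rw [one_mul, ← pow_add, Nat.sub_add_cancel hdm]

/-- L4b. PROOF. Let `a = aeval x F.leadingCoeff`, `n = natDegree F`, `F_k = aeval x (F.coeff k)`, all of value `≤ c^δ` (`val_mv` with `A = 1`, `1 ≤ c`, `c^(totalDegree) ≤ c^δ`). If `v lam ≤ 1`: `v (a lam) ≤ v a ≤ c^δ`. If `v lam > 1` (so `n ≥ 1` or `a = 0`): `a lam^n = -∑_(k<n) F_k lam^k`,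
so `v a (v lam)^n ≤ c^δ (v lam)^(n-1)`, divide by `(v lam)^(n-1) ≠ 0`. -/
theorem val_root (v : Valuation L VG) (F : FP) (δ : ℕ) (hδ : ∀ k, (F.coeff k).totalDegree ≤ δ) (x : Fin 2 → L) (c : VG) (hc : 1 ≤ c)
    (hx : ∀ i, v (x i) ≤ c) (lam : L) (h : (spv x F).eval lam = 0) :
    v (MvPolynomial.aeval x F.leadingCoeff) ≤ c ^ δ ∧ v (MvPolynomial.aeval x F.leadingCoeff * lam) ≤ c ^ δ := by
  have hk : ∀ k, v (MvPolynomial.aeval x (F.coeff k)) ≤ c ^ δ := by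
    intro k
    have h1 := val_mv L v (F.coeff k) δ (hδ k) x 1 c (by rw [map_one]; exact hc) (fun i => by rw [one_mul]; exact hx i)
    rwa [one_pow, one_mul] at h1
  refine ⟨hk _, ?_⟩
  have hev : ∑ k ∈ Finset.range (F.natDegree + 1), MvPolynomial.aeval x (F.coeff k) * lam ^ k = 0 := by
    rw [spv, Polynomial.eval_map, Polynomial.eval₂_eq_sum_range] at h
    exact h
  rw [Finset.sum_range_succ] at hev
  rcases le_or_gt (v lam) 1 with hl | hl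
  · rw [map_mul]
    calc v (MvPolynomial.aeval x F.leadingCoeff) * v lam ≤ c ^ δ * 1 := mul_le_mul' (hk _) hl
      _ = c ^ δ := mul_one _
  · rcases Nat.eq_zero_or_pos F.natDegree with h0 | h0
    · rw [h0] at hev
      rw [Polynomial.leadingCoeff, h0]
      simp only [Finset.range_zero, Finset.sum_empty, pow_zero, mul_one, zero_add] at hev
      rw [hev, zero_mul, map_zero]
      exact zero_le
    · obtain ⟨n, hn⟩ : ∃ n, F.natDegree = n + 1 := ⟨F.natDegree - 1, by omega⟩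
      have e1 : MvPolynomial.aeval x F.leadingCoeff * lam * lam ^ n =
          -∑ k ∈ Finset.range (n + 1), MvPolynomial.aeval x (F.coeff k) * lam ^ k := by
        rw [hn] at hev
        rw [Polynomial.leadingCoeff, hn, mul_assoc, ← pow_succ']
        exact eq_neg_of_add_eq_zero_right hev
      have e2 : v (MvPolynomial.aeval x F.leadingCoeff * lam) * (v lam) ^ n ≤ c ^ δ * (v lam) ^ n := by
        rw [← map_pow, ← map_mul, e1, Valuation.map_neg]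
        apply Valuation.map_sum_le
        intro k hkr
        rw [map_mul, map_pow, map_pow]
        have : k ≤ n := by
          have := Finset.mem_range.1 hkr
          omega
        exact mul_le_mul' (hk k) (pow_le_pow_right' hl.le this)
      have hpos : 0 < (v lam) ^ n := pow_pos (lt_trans zero_lt_one hl) n
      exact le_of_mul_le_mul_right e2 hpos

/-- L4c. PROOF. Leibniz formula (`Matrix.det_apply`), `Valuation.map_sum_le`; `A^card * ∏ M = ∏ (A * M)`, signs have value `1`. -/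
theorem val_det {ι : Type} [Fintype ι] [DecidableEq ι] (v : Valuation L VG) (M : Matrix ι ι L) (A : L) (c : VG) (h : ∀ i j, v (A * M i j) ≤ c) :
    v (A ^ Fintype.card ι * M.det) ≤ c ^ Fintype.card ι := by
  rw [Matrix.det_apply', Finset.mul_sum]
  apply Valuation.map_sum_le
  intro σ _
  have e1 : A ^ Fintype.card ι * (((Equiv.Perm.sign σ : ℤ) : L) * ∏ i, M (σ i) i) =
      ((Equiv.Perm.sign σ : ℤ) : L) * ∏ i, (A * M (σ i) i) := by
    rw [Finset.prod_mul_distrib, Finset.prod_const, Finset.card_univ]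
    ring
  rw [e1, map_mul, map_prod]
  calc v ((Equiv.Perm.sign σ : ℤ) : L) * ∏ i, v (A * M (σ i) i) ≤ 1 * ∏ _i : ι, c :=
        mul_le_mul' (val_int L v _) (Finset.prod_le_prod' fun i _ => h _ _)
    _ = c ^ Fintype.card ι := by rw [one_mul, Finset.prod_const, Finset.card_univ]

/-- L4d. PROOF. With `α = x₀ + u x₁`, `β = x₀ + w x₁`, `q = u - w`: `q x₁ = α - β`, `q x₀ = u β - w α`, so `v (q x_i) ≤ max (v α) (v β) ≤ max 1 (v α) * max 1 (v β) = C`, `v q ≤ 1 ≤ C`. Let `c = max 1 (max (v x₀) (v x₁))`: `v q * c ≤ C`. So `v (q^D γ) ≤ (v q)^D c^D ≤ C^D`. -/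
theorem val_proj (x : Fin 2 → L) (u w : ℕ) (D : ℕ) (γ : L)
    (h : ∀ (v : Valuation L VG) (c : VG), 1 ≤ c → (∀ i, v (x i) ≤ c) → v γ ≤ c ^ D) (v : Valuation L VG) :
    v ((((u : ℤ) - w : ℤ) : L) ^ D * γ) ≤ (max 1 (v (x 0 + u * x 1)) * max 1 (v (x 0 + w * x 1))) ^ D := by
  set α : L := x 0 + u * x 1 with hα
  set β : L := x 0 + w * x 1 with hβ
  set q : L := (((u : ℤ) - w : ℤ) : L) with hq
  have hq' : q = (u : L) - w := by rw [hq]; push_cast; ring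
  have hvq : v q ≤ 1 := val_int L v _
  have hvu : v (u : L) ≤ 1 := by
    have := val_int L v (u : ℤ)
    simpa using this
  have hvw : v (w : L) ≤ 1 := by
    have := val_int L v (w : ℤ)
    simpa using this
  have hC1 : (1 : VG) ≤ max 1 (v α) * max 1 (v β) := by
    calc (1 : VG) = 1 * 1 := (one_mul _).symm
      _ ≤ max 1 (v α) * max 1 (v β) := mul_le_mul' (le_max_left _ _) (le_max_left _ _)
  have hCα : v α ≤ max 1 (v α) * max 1 (v β) := by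
    calc v α = v α * 1 := (mul_one _).symm
      _ ≤ max 1 (v α) * max 1 (v β) := mul_le_mul' (le_max_right _ _) (le_max_left _ _)
  have hCβ : v β ≤ max 1 (v α) * max 1 (v β) := by
    calc v β = 1 * v β := (one_mul _).symm
      _ ≤ max 1 (v α) * max 1 (v β) := mul_le_mul' (le_max_left _ _) (le_max_right _ _)
  have h1 : v q * v (x 1) ≤ max 1 (v α) * max 1 (v β) := by
    rw [← map_mul]
    have : q * x 1 = α - β := by rw [hq', hα, hβ]; ring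
    rw [this]
    exact le_trans (Valuation.map_sub v α β) (max_le hCα hCβ)
  have h0 : v q * v (x 0) ≤ max 1 (v α) * max 1 (v β) := by
    rw [← map_mul]
    have : q * x 0 = u * β - w * α := by rw [hq', hα, hβ]; ring
    rw [this]
    refine le_trans (Valuation.map_sub v _ _) (max_le ?_ ?_)
    · rw [map_mul]
      calc v (u : L) * v β ≤ 1 * (max 1 (v α) * max 1 (v β)) := mul_le_mul' hvu hCβ
        _ = _ := one_mul _
    · rw [map_mul]
      calc v (w : L) * v α ≤ 1 * (max 1 (v α) * max 1 (v β)) := mul_le_mul' hvw hCα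
        _ = _ := one_mul _
  set c : VG := max 1 (max (v (x 0)) (v (x 1))) with hc
  have hγ : v γ ≤ c ^ D := by
    apply h v c (le_max_left _ _)
    intro i
    fin_cases i
    · exact le_trans (le_max_left _ _) (le_max_right _ _)
    · exact le_trans (le_max_right _ _) (le_max_right _ _)
  have hqc : v q * c ≤ max 1 (v α) * max 1 (v β) := by
    rw [hc]
    rcases le_total (max (v (x 0)) (v (x 1))) 1 with h2 | h2
    · rw [max_eq_left h2, mul_one]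
      exact le_trans hvq hC1
    · rw [max_eq_right h2]
      rcases le_total (v (x 0)) (v (x 1)) with h3 | h3
      · rw [max_eq_right h3]; exact h1
      · rw [max_eq_left h3]; exact h0
  rw [map_mul, map_pow]
  calc (v q) ^ D * v γ ≤ (v q) ^ D * c ^ D := mul_le_mul' le_rfl hγ
    _ = (v q * c) ^ D := (mul_pow _ _ _).symm
    _ ≤ _ := pow_le_pow_left' hqc D

end Pool.Agent.MSL
end

end

section

/-! # L/L6_Point: sizes of the values at a lifted point -/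

open Polynomial

noncomputable section

namespace Pool.Agent.MSL

open MSD MSP MSK MSR

/-- a common bound for the total degrees of the coefficients -/
theorem l6_exists_deg (F : Fin 5 → FP) : ∃ δ : ℕ, 1 ≤ δ ∧ ∀ i k, ((F i).coeff k).totalDegree ≤ δ := by
  classical
  have h1 : ∀ i, ∃ δ : ℕ, ∀ k, ((F i).coeff k).totalDegree ≤ δ := by
    intro i
    refine ⟨(F i).support.sup fun k => ((F i).coeff k).totalDegree, fun k => ?_⟩
    by_cases hk : k ∈ (F i).support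
    · exact Finset.le_sup (f := fun k => ((F i).coeff k).totalDegree) hk
    · rw [Polynomial.notMem_support_iff] at hk
      rw [hk, MvPolynomial.totalDegree_zero]
      exact Nat.zero_le _
  choose δ hδ using h1
  refine ⟨1 + ∑ i, δ i, by omega, fun i k => (hδ i k).trans ?_⟩
  have h2 : δ i ≤ ∑ i, δ i := Finset.single_le_sum (fun _ _ => Nat.zero_le _) (Finset.mem_univ i)
  omega

theorem l6_fin5 {β : Type*} [CommMonoid β] (f : Fin 5 → β) (i : Fin 5) : ∏ j, f j = (∏ j ∈ Finset.univ.erase i, f j) * f i := by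
  rw [Finset.prod_erase_mul _ _ (Finset.mem_univ i)]

theorem l6_sq_le {x c : VG} (h : x ^ 2 ≤ c ^ 2) : x ≤ c :=
  le_of_not_gt fun h1 => absurd h (not_le_of_gt (pow_lt_pow_left₀ h1 zero_le (by norm_num)))

/-- L6a. PROOF. Let `δ i` bound the total degrees of the coefficients of `F i`, `δ = 2 ∑ δ i + 1`-ish (any bound works). `A = q ∏ a_i`, `v a_i ≤ c^(δ i)` (`val_root`), `v q ≤ 1`. For `w i`: `A w i = q (∏_(j ≠ i) a_j) (a_i w i)`. For the integers `X l` and `Q`: clear. For `b l`: `q b_l` is an integer.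
`Y`: `(A Y)² = 4 A² X³ - 2 A (A w 0) X - A (A w 2)` has value `≤ c^(2δ')` where `v A, v (A w i) ≤ c^δ'`, so `v (A Y) ≤ c^δ'` (`pow_le_pow_left_iff`/`lt_of_pow_lt_pow_left` in the linearly ordered group with zero). -/
theorem pt_val (P : Par 2) (F : Fin 5 → FP) (q : ℕ) (hq : ∀ l, ∃ m : ℤ, (q : ℚ) * P.b l = m) : ∃ δ : ℕ, 1 ≤ δ ∧
    ∀ (L : IntermediateField ℚ ℂ) [FiniteDimensional ℚ L] [IsGalois ℚ L] (p : LQ L), (∀ i, (spv p.x (F i)).eval (p.w i) = 0) →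
      ∀ (v : Valuation L VG) (c : VG), 1 ≤ c → (∀ i, v (p.x i) ≤ c) →
        v (Den F q p.x) ≤ c ^ δ ∧ ∀ s : Vr 2, v (Den F q p.x * p.v P s) ≤ c ^ δ := by
  classical
  obtain ⟨d, hd1, hd⟩ := l6_exists_deg F
  refine ⟨d * 5, by omega, ?_⟩
  intro L _ _ p hp v c hc hx
  have hr : ∀ i, v (MvPolynomial.aeval p.x (F i).leadingCoeff) ≤ c ^ d ∧
      v (MvPolynomial.aeval p.x (F i).leadingCoeff * p.w i) ≤ c ^ d :=
    fun i => val_root L v (F i) d (hd i) p.x c hc hx (p.w i) (hp i)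
  have hn : ∀ n : ℕ, v (n : L) ≤ 1 := by
    intro n
    have h1 := val_int L v (n : ℤ)
    rwa [Int.cast_natCast] at h1
  have hprod : ∀ s : Finset (Fin 5), ∏ j ∈ s, v (MvPolynomial.aeval p.x (F j).leadingCoeff) ≤ (c ^ d) ^ s.card := by
    intro s
    refine (Finset.prod_le_prod' (fun j _ => (hr j).1)).trans ?_
    rw [Finset.prod_const]
  have hA : v (Den F q p.x) ≤ c ^ (d * 5) := by
    rw [Den, map_mul, map_prod]
    calc v (q : L) * ∏ j, v (MvPolynomial.aeval p.x (F j).leadingCoeff) ≤ 1 * (c ^ d) ^ (Finset.univ : Finset (Fin 5)).card :=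
          mul_le_mul' (hn q) (hprod _)
      _ = c ^ (d * 5) := by rw [one_mul, Finset.card_univ, Fintype.card_fin, pow_mul]
  have hW : ∀ i, v (Den F q p.x * p.w i) ≤ c ^ (d * 5) := by
    intro i
    have h1 : Den F q p.x * p.w i = (q : L) * (∏ j ∈ Finset.univ.erase i, MvPolynomial.aeval p.x (F j).leadingCoeff) *
        (MvPolynomial.aeval p.x (F i).leadingCoeff * p.w i) := by
      rw [Den, l6_fin5 _ i]
      ring
    rw [h1, map_mul, map_mul, map_prod]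
    calc v (q : L) * (∏ j ∈ Finset.univ.erase i, v (MvPolynomial.aeval p.x (F j).leadingCoeff)) *
          v (MvPolynomial.aeval p.x (F i).leadingCoeff * p.w i)
        ≤ 1 * (c ^ d) ^ (Finset.univ.erase i).card * c ^ d :=
          mul_le_mul' (mul_le_mul' (hn q) (hprod _)) (hr i).2
      _ = c ^ (d * 5) := by
          rw [one_mul, Finset.card_erase_of_mem (Finset.mem_univ i), Finset.card_univ, Fintype.card_fin, pow_mul,
            ← pow_succ]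
  refine ⟨hA, fun s => ?_⟩
  have hone : ∀ x : L, v x ≤ 1 → v (Den F q p.x * x) ≤ c ^ (d * 5) := by
    intro x hx1
    rw [map_mul]
    calc v (Den F q p.x) * v x ≤ c ^ (d * 5) * 1 := mul_le_mul' hA hx1
      _ = c ^ (d * 5) := mul_one _
  cases s with
  | X l => exact hone _ (hn _)
  | Y l =>
    apply l6_sq_le
    rw [← map_pow]
    have h1 : (Den F q p.x * p.v P (Vr.Y l)) ^ 2 =
        ((4 * p.X l ^ 3 : ℕ) : L) * (Den F q p.x * Den F q p.x) - ((2 * p.X l : ℕ) : L) * (Den F q p.x * (Den F q p.x * p.w 0)) -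
          Den F q p.x * (Den F q p.x * p.w 2) := by
      show (Den F q p.x * p.Y l) ^ 2 = _
      rw [mul_pow, p.hY l]
      push_cast
      ring
    have hAA : ∀ y, v y ≤ c ^ (d * 5) → v (Den F q p.x * y) ≤ (c ^ (d * 5)) ^ 2 := by
      intro y hy
      rw [map_mul, sq]
      exact mul_le_mul' hA hy
    have hNN : ∀ (n : ℕ) (y : L), v y ≤ (c ^ (d * 5)) ^ 2 → v ((n : L) * y) ≤ (c ^ (d * 5)) ^ 2 := by
      intro n y hy
      rw [map_mul]
      calc v (n : L) * v y ≤ 1 * (c ^ (d * 5)) ^ 2 := mul_le_mul' (hn n) hy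
        _ = _ := one_mul _
    rw [h1]
    refine (v.map_sub _ _).trans (max_le ((v.map_sub _ _).trans (max_le ?_ ?_)) ?_)
    · exact hNN _ _ (hAA _ hA)
    · exact hNN _ _ (hAA _ (hW 0))
    · exact hAA _ (hW 2)
  | Q j =>
    show v (Den F q p.x * 0) ≤ _
    rw [mul_zero, map_zero]
    exact zero_le
  | b l =>
    obtain ⟨m, hm⟩ := hq l
    have h1 : Den F q p.x * ((P.b l : ℚ) : L) = (m : L) * ∏ i, MvPolynomial.aeval p.x (F i).leadingCoeff := by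
      have h2 : (q : L) * ((P.b l : ℚ) : L) = (m : L) := by
        have h3 := congrArg (fun t : ℚ => (t : L)) hm
        push_cast at h3
        exact h3
      rw [Den, ← h2]
      ring
    show v (Den F q p.x * ((P.b l : ℚ) : L)) ≤ _
    rw [h1, map_mul, map_prod]
    calc v (m : L) * ∏ j, v (MvPolynomial.aeval p.x (F j).leadingCoeff) ≤ 1 * (c ^ d) ^ (Finset.univ : Finset (Fin 5)).card :=
          mul_le_mul' (val_int L v m) (hprod _)
      _ = c ^ (d * 5) := by rw [one_mul, Finset.card_univ, Fintype.card_fin, pow_mul]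
  | g => exact hW 0
  | k => exact hW 1
  | z => exact hW 3
  | r => exact hW 4

/-- L6b. PROOF. The same for absolute values: `‖A‖ ≤ q ∏ lenF (F i) c^(δ i)` etc. (replace `lenF` by `max 1 (lenF ..)`). `‖A Y‖² ≤ 4 ‖A‖² B³ + 2 ‖A‖ ‖A w 0‖ B + ‖A‖ ‖A w 2‖ ≤ 7 K'² B³ c^(2δ)`, so `‖A Y‖ ≤ 3 K' B² c^δ`. -/
theorem pt_arch (P : Par 2) (F : Fin 5 → FP) (q : ℕ) : ∃ (δ : ℕ) (K : ℝ), 1 ≤ δ ∧ 1 ≤ K ∧
    ∀ p : LQ ℂ, (∀ i, (spv p.x (F i)).eval (p.w i) = 0) → ∀ B c : ℝ, 1 ≤ B → (∀ l, (p.X l : ℝ) ≤ B) → 1 ≤ c → (∀ i, ‖p.x i‖ ≤ c) →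
      ‖Den F q p.x‖ ≤ K * B ^ 2 * c ^ δ ∧ ∀ s : Vr 2, ‖Den F q p.x‖ * ‖p.v P s‖ ≤ K * B ^ 2 * c ^ δ := by
  classical
  obtain ⟨d, hd1, hd⟩ := l6_exists_deg F
  obtain ⟨M, hM1, hM⟩ : ∃ M : ℝ, 1 ≤ M ∧ ∀ i, lenF (F i) ≤ M := by
    have h0 : ∀ i, 0 ≤ lenF (F i) := fun i => Finset.sum_nonneg fun k _ => Finset.sum_nonneg fun m _ => abs_nonneg _
    refine ⟨1 + ∑ i, lenF (F i), ?_, fun i => ?_⟩
    · have := Finset.sum_nonneg fun i (_ : i ∈ (Finset.univ : Finset (Fin 5))) => h0 i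
      linarith
    · have := Finset.single_le_sum (fun i _ => h0 i) (Finset.mem_univ i)
      linarith
  have hM0 : 0 ≤ M := by linarith
  obtain ⟨K', hK'⟩ : ∃ K' : ℝ, K' = (q + 1) * M ^ 5 := ⟨_, rfl⟩
  have hK'1 : 1 ≤ K' := by
    rw [hK']
    have h1 : (1 : ℝ) ≤ q + 1 := by
      have := Nat.cast_nonneg (α := ℝ) q
      linarith
    calc (1 : ℝ) = 1 * 1 := by ring
      _ ≤ (q + 1) * M ^ 5 := mul_le_mul h1 (one_le_pow₀ hM1) (by norm_num) (by linarith)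
  obtain ⟨S, hS⟩ : ∃ S : ℝ, S = ∑ l, ‖((P.b l : ℚ) : ℂ)‖ := ⟨_, rfl⟩
  have hS0 : 0 ≤ S := by
    rw [hS]
    exact Finset.sum_nonneg fun _ _ => norm_nonneg _
  have hSl : ∀ l, ‖((P.b l : ℚ) : ℂ)‖ ≤ S := by
    intro l
    rw [hS]
    exact Finset.single_le_sum (f := fun l => ‖((P.b l : ℚ) : ℂ)‖) (fun _ _ => norm_nonneg _) (Finset.mem_univ l)
  refine ⟨d * 5, K' * (3 + S), by omega, by nlinarith, ?_⟩
  intro p hp B c hB hX hc hx
  have hc0 : 0 ≤ c := by linarith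
  have hcd : 1 ≤ c ^ d := one_le_pow₀ hc
  have hr : ∀ i, ‖MvPolynomial.aeval p.x (F i).leadingCoeff‖ ≤ M * c ^ d ∧
      ‖MvPolynomial.aeval p.x (F i).leadingCoeff‖ * ‖p.w i‖ ≤ M * c ^ d := by
    intro i
    have h1 := arch_root (F i) d (hd i) p.x c hc hx (p.w i) (hp i)
    have h2 : lenF (F i) * c ^ d ≤ M * c ^ d := mul_le_mul_of_nonneg_right (hM i) (by positivity)
    exact ⟨h1.1.trans h2, h1.2.trans h2⟩
  have hprod : ∀ s : Finset (Fin 5), ∏ j ∈ s, ‖MvPolynomial.aeval p.x (F j).leadingCoeff‖ ≤ (M * c ^ d) ^ s.card := by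
    intro s
    refine (Finset.prod_le_prod (fun j _ => norm_nonneg _) (fun j _ => (hr j).1)).trans ?_
    rw [Finset.prod_const]
  have hqq : ‖(q : ℂ)‖ ≤ q + 1 := by
    rw [Complex.norm_natCast]
    linarith
  have hq0 : (0 : ℝ) ≤ q + 1 := by positivity
  have hA : ‖Den F q p.x‖ ≤ K' * c ^ (d * 5) := by
    rw [Den, norm_mul, norm_prod]
    calc ‖(q : ℂ)‖ * ∏ j, ‖MvPolynomial.aeval p.x (F j).leadingCoeff‖ ≤ (q + 1) * (M * c ^ d) ^ (Finset.univ : Finset (Fin 5)).card :=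
          mul_le_mul hqq (hprod _) (Finset.prod_nonneg fun _ _ => norm_nonneg _) hq0
      _ = K' * c ^ (d * 5) := by rw [Finset.card_univ, Fintype.card_fin, hK', pow_mul]; ring
  have hW : ∀ i, ‖Den F q p.x‖ * ‖p.w i‖ ≤ K' * c ^ (d * 5) := by
    intro i
    have h1 : ‖Den F q p.x‖ * ‖p.w i‖ = ‖(q : ℂ)‖ * (∏ j ∈ Finset.univ.erase i, ‖MvPolynomial.aeval p.x (F j).leadingCoeff‖) *
        (‖MvPolynomial.aeval p.x (F i).leadingCoeff‖ * ‖p.w i‖) := by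
      rw [Den, norm_mul, norm_prod, l6_fin5 _ i]
      ring
    rw [h1]
    calc ‖(q : ℂ)‖ * (∏ j ∈ Finset.univ.erase i, ‖MvPolynomial.aeval p.x (F j).leadingCoeff‖) *
          (‖MvPolynomial.aeval p.x (F i).leadingCoeff‖ * ‖p.w i‖)
        ≤ (q + 1) * (M * c ^ d) ^ (Finset.univ.erase i).card * (M * c ^ d) :=
          mul_le_mul (mul_le_mul hqq (hprod _) (Finset.prod_nonneg fun _ _ => norm_nonneg _) hq0) (hr i).2
            (mul_nonneg (norm_nonneg _) (norm_nonneg _)) (by positivity)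
      _ = K' * c ^ (d * 5) := by
          rw [Finset.card_erase_of_mem (Finset.mem_univ i), Finset.card_univ, Fintype.card_fin, hK', pow_mul]
          ring
  obtain ⟨R, hR⟩ : ∃ R : ℝ, R = K' * c ^ (d * 5) := ⟨_, rfl⟩
  rw [← hR] at hA hW
  have hR0 : 0 ≤ R := by
    rw [hR]
    positivity
  have hB2 : 1 ≤ B ^ 2 := one_le_pow₀ hB
  have hB0 : 0 ≤ B := by linarith
  have hgoal : K' * (3 + S) * B ^ 2 * c ^ (d * 5) = (3 + S) * B ^ 2 * R := by
    rw [hR]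
    ring
  rw [hgoal]
  have h3S : 3 ≤ 3 + S := by linarith
  have hbig : ∀ t : ℝ, t ≤ 3 * B ^ 2 * R → t ≤ (3 + S) * B ^ 2 * R := by
    intro t ht
    have h1 : 0 ≤ B ^ 2 * R := by positivity
    nlinarith
  have hR3 : R ≤ 3 * B ^ 2 * R := by nlinarith
  refine ⟨hbig _ (hA.trans hR3), fun s => ?_⟩
  cases s with
  | X l =>
    apply hbig
    show ‖Den F q p.x‖ * ‖((p.X l : ℕ) : ℂ)‖ ≤ _
    rw [Complex.norm_natCast]
    have h1 : ‖Den F q p.x‖ * (p.X l : ℝ) ≤ R * B := mul_le_mul hA (hX l) (Nat.cast_nonneg _) hR0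
    have h2 : R * B ≤ 3 * B ^ 2 * R := by nlinarith [mul_nonneg hR0 hB0, mul_nonneg (mul_nonneg hR0 hB0) hB0]
    exact h1.trans h2
  | Y l =>
    apply hbig
    show ‖Den F q p.x‖ * ‖p.Y l‖ ≤ _
    have hx0 : (0 : ℝ) ≤ (p.X l : ℝ) := Nat.cast_nonneg _
    have h1 : (‖Den F q p.x‖ * ‖p.Y l‖) ^ 2 ≤ 4 * (‖Den F q p.x‖ * ‖Den F q p.x‖) * (p.X l : ℝ) ^ 3 +
        2 * (‖Den F q p.x‖ * (‖Den F q p.x‖ * ‖p.w 0‖)) * (p.X l : ℝ) + ‖Den F q p.x‖ * (‖Den F q p.x‖ * ‖p.w 2‖) := by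
      rw [mul_pow, ← norm_pow (p.Y l), p.hY l]
      have h2 : ‖(4 : ℂ) * ((p.X l : ℕ) : ℂ) ^ 3 - 2 * p.w 0 * ((p.X l : ℕ) : ℂ) - p.w 2‖ ≤
          4 * (p.X l : ℝ) ^ 3 + 2 * ‖p.w 0‖ * (p.X l : ℝ) + ‖p.w 2‖ := by
        refine (norm_sub_le _ _).trans (add_le_add ((norm_sub_le _ _).trans (add_le_add ?_ ?_)) le_rfl)
        · rw [norm_mul, norm_pow, Complex.norm_natCast]
          norm_num
        · rw [norm_mul, norm_mul, Complex.norm_natCast]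
          norm_num
      calc ‖Den F q p.x‖ ^ 2 * ‖(4 : ℂ) * ((p.X l : ℕ) : ℂ) ^ 3 - 2 * p.w 0 * ((p.X l : ℕ) : ℂ) - p.w 2‖
          ≤ ‖Den F q p.x‖ ^ 2 * (4 * (p.X l : ℝ) ^ 3 + 2 * ‖p.w 0‖ * (p.X l : ℝ) + ‖p.w 2‖) :=
            mul_le_mul_of_nonneg_left h2 (by positivity)
        _ = _ := by ring
    have h3 : ∀ y : ℝ, 0 ≤ y → y ≤ R → ‖Den F q p.x‖ * y ≤ R ^ 2 := by
      intro y hy0 hy
      rw [sq]
      exact mul_le_mul hA hy hy0 hR0
    have h4 := h3 _ (norm_nonneg (Den F q p.x)) hA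
    have h5 := h3 _ (mul_nonneg (norm_nonneg (Den F q p.x)) (norm_nonneg (p.w 0))) (hW 0)
    have h6 := h3 _ (mul_nonneg (norm_nonneg (Den F q p.x)) (norm_nonneg (p.w 2))) (hW 2)
    have hX3 : (p.X l : ℝ) ^ 3 ≤ B ^ 4 :=
      (pow_le_pow_left₀ hx0 (hX l) 3).trans (pow_le_pow_right₀ hB (by norm_num))
    have hX1 : (p.X l : ℝ) ≤ B ^ 4 := (hX l).trans (by
      calc B = B ^ 1 := (pow_one B).symm
        _ ≤ B ^ 4 := pow_le_pow_right₀ hB (by norm_num))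
    have hB4 : 1 ≤ B ^ 4 := one_le_pow₀ hB
    have hR2 : 0 ≤ R ^ 2 := by positivity
    have e1 : 4 * (‖Den F q p.x‖ * ‖Den F q p.x‖) * (p.X l : ℝ) ^ 3 ≤ 4 * R ^ 2 * B ^ 4 :=
      mul_le_mul (by linarith) hX3 (by positivity) (by positivity)
    have e2 : 2 * (‖Den F q p.x‖ * (‖Den F q p.x‖ * ‖p.w 0‖)) * (p.X l : ℝ) ≤ 2 * R ^ 2 * B ^ 4 :=
      mul_le_mul (by linarith) hX1 hx0 (by positivity)
    have e3 : ‖Den F q p.x‖ * (‖Den F q p.x‖ * ‖p.w 2‖) ≤ R ^ 2 * B ^ 4 := by nlinarith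
    have h7 : (‖Den F q p.x‖ * ‖p.Y l‖) ^ 2 ≤ (3 * B ^ 2 * R) ^ 2 := by
      have e4 : (3 * B ^ 2 * R) ^ 2 = 9 * (R ^ 2 * B ^ 4) := by ring
      rw [e4]
      have e5 : 0 ≤ R ^ 2 * B ^ 4 := by positivity
      linarith
    exact le_of_sq_le_sq h7 (by positivity)
  | Q j =>
    show ‖Den F q p.x‖ * ‖(0 : ℂ)‖ ≤ _
    rw [norm_zero, mul_zero]
    positivity
  | b l =>
    show ‖Den F q p.x‖ * ‖((P.b l : ℚ) : ℂ)‖ ≤ _
    calc ‖Den F q p.x‖ * ‖((P.b l : ℚ) : ℂ)‖ ≤ R * S := mul_le_mul hA (hSl l) (norm_nonneg _) hR0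
      _ ≤ (3 + S) * B ^ 2 * R := by
          have h1 : 0 ≤ R * S := by positivity
          have h2 : 0 ≤ R * B ^ 2 := by positivity
          nlinarith
  | g => exact hbig _ ((hW 0).trans hR3)
  | k => exact hbig _ ((hW 1).trans hR3)
  | z => exact hbig _ ((hW 3).trans hR3)
  | r => exact hbig _ ((hW 4).trans hR3)

/-- the image of a point under a ring homomorphism -/
def LQ.map {L K : Type} [Field L] [Field K] (f : L →+* K) (p : LQ L) : LQ K where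
  x := fun i => f (p.x i)
  w := fun i => f (p.w i)
  X := p.X
  Y := fun l => f (p.Y l)
  hY := fun l => by
    rw [← map_pow, p.hY l]
    simp only [map_sub, map_mul, map_pow, map_ofNat, map_natCast]

/-- L6c. PROOF. Cases; `map_ratCast`. -/
theorem map_v (P : Par 2) {L K : Type} [Field L] [Field K] [CharZero L] [CharZero K] (f : L →+* K) (p : LQ L) (s : Vr 2) : (p.map f).v P s = f (p.v P s) := by
  cases s with
  | X l => exact (map_natCast f _).symm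
  | Y l => rfl
  | Q j => exact (map_zero f).symm
  | b l => exact (map_ratCast f _).symm
  | g => rfl
  | k => rfl
  | z => rfl
  | r => rfl

theorem l6_aeval_map {σ R S : Type*} [CommRing R] [CommRing S] (f : R →+* S) (x : σ → R) (p : MvPolynomial σ ℤ) :
    MvPolynomial.aeval (fun i => f (x i)) p = f (MvPolynomial.aeval x p) := by
  have h1 : (MvPolynomial.aeval (fun i => f (x i)) : MvPolynomial σ ℤ →ₐ[ℤ] S) = (f.toIntAlgHom).comp (MvPolynomial.aeval x) := by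
    apply MvPolynomial.algHom_ext
    intro i
    simp
  rw [h1]
  rfl

/-- L6d. PROOF. `spv (f ∘ x) F = (spv x F).map f`. -/
theorem spv_map {R S : Type} [CommRing R] [CommRing S] (f : R →+* S) (x : Fin 2 → R) (F : FP) : spv (fun i => f (x i)) F = (spv x F).map f := by
  unfold spv
  rw [Polynomial.map_map]
  congr 1
  ext p
  · simp
  · simp

theorem Den_map {L K : Type} [Field L] [Field K] (f : L →+* K) (F : Fin 5 → FP) (q : ℕ) (x : Fin 2 → L) : Den F q (fun i => f (x i)) = f (Den F q x) := by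
  rw [Den, Den, map_mul, map_natCast, map_prod]
  congr 1
  exact Finset.prod_congr rfl fun i _ => l6_aeval_map f x _

/-- L6e. PROOF. `RingHom.map_det`, `MvPolynomial.map_aeval` for a ring homomorphism (`ℤ`-algebra homomorphism). -/
theorem DL_map {R S : Type} [CommRing R] [CommRing S] (f : R →+* S) {E : ℕ} (x : Vr 2 → R) (a : Ir 2 E → Fin 2 → ℕ) (k : Ir 2 E → ℕ) :
    (DL (fun s => f (x s)) a k).det = f (DL x a k).det := by
  rw [RingHom.map_det]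
  congr 1
  ext i κ
  exact l6_aeval_map f x _

end Pool.Agent.MSL
end

end

section

/-! # L/M3_Big: existence of the field `L` -/

open Polynomial

noncomputable section

namespace Pool.Agent.MSL

open MSD MSP

theorem m3_trans {F E : Type*} [Field F] [Field E] [Algebra F E] (lam : E) (h1 : IsAlgebraic (algebraicClosure F E) lam) :
    IsAlgebraic F lam :=
  h1.restrictScalars F

theorem m3_alg_root (x : Fin 2 → ℂ) (hx : ∀ j, IsAlgebraic ℚ (x j)) (F : FP) (hF : spv x F ≠ 0) (lam : ℂ)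
    (h : (spv x F).eval lam = 0) : IsAlgebraic ℚ lam := by
  let x' : Fin 2 → algebraicClosure ℚ ℂ := fun j => ⟨x j, mem_algebraicClosure_iff.2 (hx j)⟩
  have e : spv x F = (spv x' F).map (algebraMap (algebraicClosure ℚ ℂ) ℂ) :=
    spv_map (algebraMap (algebraicClosure ℚ ℂ) ℂ) x' F
  have h1 : IsAlgebraic (algebraicClosure ℚ ℂ) lam := by
    refine ⟨spv x' F, ?_, ?_⟩
    · intro h0
      rw [h0, Polynomial.map_zero] at e
      exact hF e
    · rw [Polynomial.aeval_def, Polynomial.eval₂_eq_eval_map, ← e]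
      exact h
  exact m3_trans lam h1

theorem m3_ne (x : Fin 2 → ℂ) (F : FP) (hlc : MvPolynomial.aeval x F.leadingCoeff ≠ 0) : spv x F ≠ 0 := by
  intro h
  have h1 := congrArg (fun p => p.coeff F.natDegree) h
  simp only [Polynomial.coeff_zero] at h1
  unfold spv at h1
  rw [Polynomial.coeff_map] at h1
  exact hlc h1

/-- M3a. PROOF. Let `V` be the finite set of the `x' : Fin 2 → ℂ` with `mz (x j)` vanishing at `x' j` for both `j` and `aeval x' (F i).leadingCoeff ≠ 0` for all `i` (`Fintype.piFinset` of the root sets, filtered). For `x' ∈ V` the polynomials `spv x' (F i)` are nonzero with algebraic coefficients: finitely many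
roots, all algebraic (a root of a nonzero polynomial over the algebraic closure of `ℚ` in `ℂ` is algebraic; `IsAlgebraic.trans`-like, `algebraicClosure ℚ ℂ`). `S` = `{x 0, x 1}`, all these roots, and for all `x' ∈ V`, all roots `w₀, w₂` of `spv x' (F 0)`, `spv x' (F 2)` and all `X ≤ X₁` a square root of
`4X³ - 2w₀X - w₂` (algebraic). `exists_L S` gives `L`. For `g` the conjugate `g x` belongs to `V` (`g` fixes the integers: `mz (x j)` vanishes at `g (x j)`, and `aeval (g x) lc = g (aeval x lc) ≠ 0`, compare `spv_map`). The square root lies in `L`, and it satisfies the equation in `L` (coercion is injective). -/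
theorem exists_big (F : Fin 5 → FP) (x : Fin 2 → ℂ) (hx : ∀ j, IsAlgebraic ℚ (x j)) (hlc : ∀ i, MvPolynomial.aeval x (F i).leadingCoeff ≠ 0) (X₁ : ℕ) :
    ∃ L : IntermediateField ℚ ℂ, FiniteDimensional ℚ L ∧ IsGalois ℚ L ∧ ∃ x' : Fin 2 → L, (∀ j, (x' j : ℂ) = x j) ∧ Big L F x' X₁ := by
  classical
  have hsq : ∀ c : ℂ, ∃ y : ℂ, y ^ 2 = c := fun c => IsAlgClosed.exists_pow_nat_eq c (n := 2) (by norm_num)
  choose rt hrt using hsq
  have hne : ∀ i, spv x (F i) ≠ 0 := fun i => m3_ne x (F i) (hlc i)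
  set V : Finset (Fin 2 → ℂ) := Fintype.piFinset (fun j => ((minpoly ℚ (x j)).map (algebraMap ℚ ℂ)).roots.toFinset) with hV
  set S₁ : Finset ℂ := V.biUnion fun y => Finset.univ.biUnion fun i : Fin 5 => (spv y (F i)).roots.toFinset with hS₁
  set S₂ : Finset ℂ := (((spv x (F 0)).roots.toFinset ×ˢ (spv x (F 2)).roots.toFinset) ×ˢ Finset.range (X₁ + 1)).image
    (fun t : (ℂ × ℂ) × ℕ => rt (4 * (t.2 : ℂ) ^ 3 - 2 * t.1.1 * t.2 - t.1.2)) with hS₂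
  have hminp : ∀ j, (minpoly ℚ (x j)).map (algebraMap ℚ ℂ) ≠ 0 := by
    intro j
    exact (Polynomial.map_ne_zero_iff (algebraMap ℚ ℂ).injective).2 (minpoly.ne_zero (hx j).isIntegral)
  have hValg : ∀ y ∈ V, ∀ j, IsAlgebraic ℚ (y j) := by
    intro y hy j
    have h1 := Fintype.mem_piFinset.1 hy j
    rw [Multiset.mem_toFinset, Polynomial.mem_roots (hminp j), Polynomial.IsRoot.def, Polynomial.eval_map] at h1
    exact ⟨minpoly ℚ (x j), minpoly.ne_zero (hx j).isIntegral, h1⟩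
  obtain ⟨L, hfin, hgal, hL⟩ := exists_L (Finset.univ.image x ∪ S₁ ∪ S₂) (by
    intro s hs
    rcases Finset.mem_union.1 hs with hs | hs
    · rcases Finset.mem_union.1 hs with hs | hs
      · obtain ⟨j, _, rfl⟩ := Finset.mem_image.1 hs
        exact hx j
      · obtain ⟨y, hy, hs⟩ := Finset.mem_biUnion.1 hs
        obtain ⟨i, _, hs⟩ := Finset.mem_biUnion.1 hs
        rw [Multiset.mem_toFinset] at hs
        exact m3_alg_root y (hValg y hy) (F i) (Polynomial.ne_zero_of_mem_roots hs) s (Polynomial.isRoot_of_mem_roots hs)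
    · obtain ⟨t, ht, rfl⟩ := Finset.mem_image.1 hs
      have ht1 := (Finset.mem_product.1 (Finset.mem_product.1 ht).1).1
      have ht2 := (Finset.mem_product.1 (Finset.mem_product.1 ht).1).2
      rw [Multiset.mem_toFinset] at ht1 ht2
      have a1 : t.1.1 ∈ algebraicClosure ℚ ℂ := mem_algebraicClosure_iff.2
        (m3_alg_root x hx (F 0) (hne 0) _ (Polynomial.isRoot_of_mem_roots ht1))
      have a2 : t.1.2 ∈ algebraicClosure ℚ ℂ := mem_algebraicClosure_iff.2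
        (m3_alg_root x hx (F 2) (hne 2) _ (Polynomial.isRoot_of_mem_roots ht2))
      refine IsAlgebraic.of_pow (n := 2) (by norm_num) ?_
      rw [hrt]
      exact mem_algebraicClosure_iff.1 (sub_mem (sub_mem (mul_mem (ofNat_mem _ 4) (pow_mem (natCast_mem _ t.2) 3))
        (mul_mem (mul_mem (ofNat_mem _ 2) a1) (natCast_mem _ t.2))) a2))
  have hxL : ∀ j, x j ∈ L := fun j => hL _ (Finset.mem_union_left _ (Finset.mem_union_left _
    (Finset.mem_image_of_mem x (Finset.mem_univ j))))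
  refine ⟨L, hfin, hgal, fun j => ⟨x j, hxL j⟩, fun j => rfl, ?_, ?_⟩
  · intro g i lam h
    set φ : L →ₐ[ℚ] ℂ := L.val.comp (g : L →ₐ[ℚ] L) with hφ
    set x' : Fin 2 → L := fun j => ⟨x j, hxL j⟩ with hx'
    have e1 : spv (fun j => ((g (x' j) : L) : ℂ)) (F i) = (spv x' (F i)).map (φ : L →+* ℂ) :=
      spv_map (φ : L →+* ℂ) x' (F i)
    have e2 : spv x (F i) = (spv x' (F i)).map (L.val : L →+* ℂ) :=
      spv_map (L.val : L →+* ℂ) x' (F i)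
    have n1 : spv x' (F i) ≠ 0 := by
      intro h0
      rw [h0, Polynomial.map_zero] at e2
      exact hne i e2
    have n2 : spv (fun j => ((g (x' j) : L) : ℂ)) (F i) ≠ 0 := by
      rw [e1]
      exact (Polynomial.map_ne_zero_iff (φ : L →+* ℂ).injective).2 n1
    have hmem : (fun j => ((g (x' j) : L) : ℂ)) ∈ V := by
      rw [hV, Fintype.mem_piFinset]
      intro j
      rw [Multiset.mem_toFinset, Polynomial.mem_roots (hminp j), Polynomial.IsRoot.def, Polynomial.eval_map,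
        ← Polynomial.aeval_def]
      have h3 : Polynomial.aeval (φ (x' j)) (minpoly ℚ (x j)) = φ (Polynomial.aeval (x' j) (minpoly ℚ (x j))) :=
        Polynomial.aeval_algHom_apply φ (x' j) _
      have h4 : Polynomial.aeval (x' j) (minpoly ℚ (x j)) = 0 := by
        have h5 : Polynomial.aeval (L.val (x' j)) (minpoly ℚ (x j)) = L.val (Polynomial.aeval (x' j) (minpoly ℚ (x j))) :=
          Polynomial.aeval_algHom_apply L.val (x' j) _
        have h6 : Polynomial.aeval (L.val (x' j)) (minpoly ℚ (x j)) = 0 := minpoly.aeval ℚ (x j)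
        rw [h6] at h5
        exact (map_eq_zero L.val).1 h5.symm
      rw [h4, map_zero] at h3
      exact h3
    refine hL lam (Finset.mem_union_left _ (Finset.mem_union_right _ ?_))
    rw [hS₁, Finset.mem_biUnion]
    refine ⟨_, hmem, Finset.mem_biUnion.2 ⟨i, Finset.mem_univ i, ?_⟩⟩
    rw [Multiset.mem_toFinset, Polynomial.mem_roots n2]
    exact h
  · intro w₀ w₂ h₀ h₂ X hX
    set x' : Fin 2 → L := fun j => ⟨x j, hxL j⟩ with hx'
    have key : ∀ (i : Fin 5) (w : L), (spv x' (F i)).eval w = 0 → (w : ℂ) ∈ (spv x (F i)).roots.toFinset := by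
      intro i w hw
      have e2 : spv x (F i) = (spv x' (F i)).map (L.val : L →+* ℂ) :=
        spv_map (L.val : L →+* ℂ) x' (F i)
      rw [Multiset.mem_toFinset, Polynomial.mem_roots (hne i), Polynomial.IsRoot.def, e2]
      have : ((spv x' (F i)).map (L.val : L →+* ℂ)).eval ((L.val : L →+* ℂ) w) = (L.val : L →+* ℂ) ((spv x' (F i)).eval w) :=
        Polynomial.eval_map_apply _ _
      rw [hw, map_zero] at this
      exact this
    have hmem : rt (4 * (X : ℂ) ^ 3 - 2 * (w₀ : ℂ) * X - (w₂ : ℂ)) ∈ L := by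
      refine hL _ (Finset.mem_union_right _ ?_)
      rw [hS₂, Finset.mem_image]
      refine ⟨(((w₀ : ℂ), (w₂ : ℂ)), X), ?_, rfl⟩
      rw [Finset.mem_product, Finset.mem_product]
      exact ⟨⟨key 0 w₀ h₀, key 2 w₂ h₂⟩, Finset.mem_range.2 (by omega)⟩
    refine ⟨⟨_, hmem⟩, ?_⟩
    apply Subtype.ext
    push_cast
    exact hrt _

end Pool.Agent.MSL
end

end

section

/-! # L/M4_Lift: pigeonhole over the lifts -/

open Polynomial

noncomputable section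

namespace Pool.Agent.MSL

open MSD MSP

theorem m4_aeval {R S : Type} [CommRing R] [CommRing S] (f : R →+* S) (x : Fin 2 → R) (p : MvPolynomial (Fin 2) ℤ) :
    MvPolynomial.aeval (fun i => f (x i)) p = f (MvPolynomial.aeval x p) := by
  have h := MvPolynomial.comp_aeval_apply (φ := f.toIntAlgHom) (f := x) (R := ℤ) p
  exact h.symm

variable (L : IntermediateField ℚ ℂ) [FiniteDimensional ℚ L] [IsGalois ℚ L]

/-- the embedding -/
def m4_sig (g : L ≃ₐ[ℚ] L) : L →+* ℂ := (algebraMap L ℂ).comp (g : L →+* L)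

theorem m4_sig_apply (g : L ≃ₐ[ℚ] L) (y : L) : m4_sig L g y = ((g y : L) : ℂ) := rfl

theorem m4_sig_inj (g : L ≃ₐ[ℚ] L) : Function.Injective (m4_sig L g) := (m4_sig L g).injective

/-- M4a. PROOF. For `g ∈ N` `NearL` at `x = cj g x` gives `ω'`; `ω' i ∈ L` (`Big.root`), `w(g) i = g⁻¹ (ω' i) ∈ L` is a root of `spv x (F i)` (`spv_map` for `g` and the embedding). The leading coefficients do not vanish at `cj g x`, so not at `x`; so `spv x (F i) ≠ 0` has at most `natDegree (F i)` roots and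
`w(g)` lies in the finite set `∏_i (roots of spv x (F i))` (`Fintype.piFinset`) of cardinality `≤ ∏ natDegree (F i) ≤ ∏ (natDegree (F i) + 1)`. `pig_sum` with `f g = w(g)`; `N' = {g ∈ N | w(g) = w}`. -/
theorem lift_sum (θ : Fin 2 → ℂ) (ω : Fin 5 → ℂ) (F : Fin 5 → FP) (r₀ C : ℝ) (hn : NearL θ ω F r₀ C) (x : Fin 2 → L) (X₁ : ℕ) (hB : Big L F x X₁)
    (N : Finset (L ≃ₐ[ℚ] L)) (hN : ∀ g ∈ N, ‖cj g x - θ‖ ≤ r₀) (hne : N.Nonempty) (μ : (L ≃ₐ[ℚ] L) → ℝ) (hμ : ∀ g ∈ N, 0 ≤ μ g) :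
    (∀ i, MvPolynomial.aeval x (F i).leadingCoeff ≠ 0) ∧ ∃ (w : Fin 5 → L) (N' : Finset (L ≃ₐ[ℚ] L)), N' ⊆ N ∧ N'.Nonempty ∧
      (∀ i, (spv x (F i)).eval (w i) = 0) ∧
      (∀ g ∈ N', (∀ i, ‖((g (w i) : L) : ℂ) - ω i‖ ≤ C * ‖cj g x - θ‖) ∧ ((g (w 3) : L) : ℂ) = ω 3 ∧ ((g (w 4) : L) : ℂ) = ω 4) ∧
      ∑ g ∈ N, μ g ≤ (∏ i, ((F i).natDegree + 1 : ℝ)) * ∑ g ∈ N', μ g := by
  classical
  have hcj : ∀ g : L ≃ₐ[ℚ] L, cj g x = fun j => m4_sig L g (x j) := fun g => rfl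
  have hlc : ∀ i, MvPolynomial.aeval x (F i).leadingCoeff ≠ 0 := by
    obtain ⟨g, hg⟩ := hne
    intro i h0
    have h1 := (hn (cj g x) (hN g hg)).1 i
    apply h1
    rw [hcj, m4_aeval, h0, map_zero]
  refine ⟨hlc, ?_⟩
  have key : ∀ g : L ≃ₐ[ℚ] L, g ∈ N → ∃ w : Fin 5 → L, (∀ i, (spv x (F i)).eval (w i) = 0) ∧
      (∀ i, ‖((g (w i) : L) : ℂ) - ω i‖ ≤ C * ‖cj g x - θ‖) ∧ ((g (w 3) : L) : ℂ) = ω 3 ∧ ((g (w 4) : L) : ℂ) = ω 4 := by
    intro g hg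
    obtain ⟨ω', hr, hd, h3, h4⟩ := (hn (cj g x) (hN g hg)).2
    have hmem : ∀ i, ω' i ∈ L := fun i => hB.root g i (ω' i) (hr i)
    have hgw : ∀ i, ((g (g.symm ⟨ω' i, hmem i⟩) : L) : ℂ) = ω' i := by
      intro i
      rw [AlgEquiv.apply_symm_apply]
    refine ⟨fun i => g.symm ⟨ω' i, hmem i⟩, ?_, ?_, ?_, ?_⟩
    · intro i
      apply m4_sig_inj L g
      rw [map_zero]
      have h1 : (m4_sig L g) ((spv x (F i)).eval (g.symm ⟨ω' i, hmem i⟩)) =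
          ((spv x (F i)).map (m4_sig L g)).eval ((m4_sig L g) (g.symm ⟨ω' i, hmem i⟩)) := by
        rw [Polynomial.eval_map, Polynomial.eval₂_at_apply]
      rw [h1, ← spv_map, m4_sig_apply, hgw i]
      have h2 := hr i
      rw [hcj] at h2
      exact h2
    · intro i
      show ‖((g (g.symm ⟨ω' i, hmem i⟩) : L) : ℂ) - ω i‖ ≤ _
      rw [hgw i]
      exact hd i
    · show ((g (g.symm ⟨ω' 3, hmem 3⟩) : L) : ℂ) = ω 3
      rw [hgw 3, h3]
    · show ((g (g.symm ⟨ω' 4, hmem 4⟩) : L) : ℂ) = ω 4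
      rw [hgw 4, h4]
  choose! f hf using key
  have hne0 : ∀ i, spv x (F i) ≠ 0 := by
    intro i h0
    apply hlc i
    have h1 : (spv x (F i)).coeff (F i).natDegree = MvPolynomial.aeval x (F i).leadingCoeff := by
      simp only [spv, Polynomial.coeff_map, Polynomial.leadingCoeff]
      rfl
    rw [← h1, h0, Polynomial.coeff_zero]
  obtain ⟨w, hwt, ⟨g₀, hg₀, hg₀w⟩, hsum⟩ := pig_sum N (Fintype.piFinset fun i => (spv x (F i)).roots.toFinset) f (by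
    intro g hg
    rw [Fintype.mem_piFinset]
    intro i
    rw [Multiset.mem_toFinset, Polynomial.mem_roots (hne0 i)]
    exact (hf g hg).1 i) μ hμ hne
  refine ⟨w, N.filter (fun g => f g = w), Finset.filter_subset _ _, ⟨g₀, Finset.mem_filter.mpr ⟨hg₀, hg₀w⟩⟩, ?_, ?_, ?_⟩
  · rw [← hg₀w]
    exact (hf g₀ hg₀).1
  · intro g hg
    rw [Finset.mem_filter] at hg
    rw [← hg.2]
    exact (hf g hg.1).2
  · refine hsum.trans ?_
    apply mul_le_mul_of_nonneg_right _ (Finset.sum_nonneg fun g hg => hμ g (Finset.mem_filter.mp hg).1)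
    rw [Fintype.card_piFinset, Nat.cast_prod]
    apply Finset.prod_le_prod
    · intro i _
      positivity
    · intro i _
      have h1 : (spv x (F i)).roots.toFinset.card ≤ (F i).natDegree := by
        refine (Multiset.toFinset_card_le _).trans ((Polynomial.card_roots' _).trans ?_)
        exact Polynomial.natDegree_map_le
      have h2 : (((spv x (F i)).roots.toFinset.card : ℕ) : ℝ) ≤ ((F i).natDegree : ℝ) := by exact_mod_cast h1
      linarith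

/-- M4b. PROOF. For `g ∈ N` and `l` choose a sign `s_g l` by `Y_lip` (for `g (Y l)` and `Y₀ l`, `ε = ε_g`); `pig_sum` over the 8 sign vectors `Fin 3 → Bool`. -/
theorem sign_sum (p : LQ L) (ω : Fin 5 → ℂ) (Y₀ : Fin 3 → ℂ) (hY₀ : ∀ l, Y₀ l ^ 2 = 4 * (p.X l : ℂ) ^ 3 - 2 * ω 0 * p.X l - ω 2)
    (hX : ∀ l, 1 ≤ p.X l) (hY1 : ∀ l, 1 ≤ ‖Y₀ l‖) (N : Finset (L ≃ₐ[ℚ] L)) (hne : N.Nonempty) (ε : (L ≃ₐ[ℚ] L) → ℝ)
    (h : ∀ g ∈ N, ‖((g (p.w 0) : L) : ℂ) - ω 0‖ ≤ ε g ∧ ‖((g (p.w 2) : L) : ℂ) - ω 2‖ ≤ ε g) (μ : (L ≃ₐ[ℚ] L) → ℝ) (hμ : ∀ g ∈ N, 0 ≤ μ g) :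
    ∃ (Y₁ : Fin 3 → ℂ) (N' : Finset (L ≃ₐ[ℚ] L)), N' ⊆ N ∧ N'.Nonempty ∧ (∀ l, Y₁ l = Y₀ l ∨ Y₁ l = -Y₀ l) ∧
      (∀ g ∈ N', ∀ l, ‖((g (p.Y l) : L) : ℂ) - Y₁ l‖ ≤ 3 * p.X l * ε g) ∧ ∑ g ∈ N, μ g ≤ 8 * ∑ g ∈ N', μ g := by
  classical
  have hsq : ∀ (g : L ≃ₐ[ℚ] L) (l : Fin 3), ((g (p.Y l) : L) : ℂ) ^ 2 = 4 * (p.X l : ℂ) ^ 3 - 2 * ((g (p.w 0) : L) : ℂ) * p.X l - ((g (p.w 2) : L) : ℂ) := by
    intro g l
    have h1 := congrArg (m4_sig L g) (p.hY l)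
    simp only [map_sub, map_mul, map_pow, map_ofNat, map_natCast] at h1
    exact h1
  have key : ∀ g : L ≃ₐ[ℚ] L, g ∈ N → ∃ s : Fin 3 → Bool, ∀ l, ‖((g (p.Y l) : L) : ℂ) - (if s l = true then Y₀ l else -Y₀ l)‖ ≤ 3 * p.X l * ε g := by
    intro g hg
    have h1 : ∀ l, ∃ b : Bool, ‖((g (p.Y l) : L) : ℂ) - (if b = true then Y₀ l else -Y₀ l)‖ ≤ 3 * p.X l * ε g := by
      intro l
      rcases Y_lip (ω 0) (ω 2) ((g (p.w 0) : L) : ℂ) ((g (p.w 2) : L) : ℂ) (Y₀ l) ((g (p.Y l) : L) : ℂ) (p.X l) (ε g) (hX l) (hY₀ l) (hsq g l)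
        (h g hg).1 (h g hg).2 (hY1 l) with h2 | h2
      · exact ⟨true, by simpa using h2⟩
      · exact ⟨false, by simpa using h2⟩
    choose s hs using h1
    exact ⟨s, hs⟩
  choose! f hf using key
  obtain ⟨s, _, ⟨g₀, hg₀, hg₀s⟩, hsum⟩ := pig_sum N (Finset.univ : Finset (Fin 3 → Bool)) f (fun g _ => Finset.mem_univ _) μ hμ hne
  refine ⟨fun l => if s l = true then Y₀ l else -Y₀ l, N.filter (fun g => f g = s), Finset.filter_subset _ _,
    ⟨g₀, Finset.mem_filter.mpr ⟨hg₀, hg₀s⟩⟩, ?_, ?_, ?_⟩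
  · intro l
    by_cases hs : s l = true
    · left; simp [hs]
    · right; simp [hs]
  · intro g hg l
    rw [Finset.mem_filter] at hg
    rw [← hg.2]
    exact hf g hg.1 l
  · have hc : ((Finset.univ : Finset (Fin 3 → Bool)).card : ℝ) = 8 := by
      rw [Finset.card_univ, Fintype.card_fun, Fintype.card_bool, Fintype.card_fin]
      norm_num
    rw [hc] at hsum
    exact hsum

end Pool.Agent.MSL
end

end

section

/-! # L/L7_Lower: lower bound for the determinants -/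

open Polynomial

noncomputable section

namespace Pool.Agent.MSL

open MSD MSP MSK MSR

/-- the bound for the lengths of the polynomials -/
def l7H (E : ℕ) : ℝ :=
  (8 * (((2 : ℕ) : ℝ) + 1) * ((8 * E : ℕ) : ℝ) * (((4 * (2 * E) : ℕ) : ℝ) + (((2 : ℕ) : ℝ) + 3) * ((8 * E : ℕ) : ℝ))) ^ (8 * E) *
    (88 * (((2 : ℕ) : ℝ) + 1) * (((2 * E : ℕ) : ℝ) + 1)) ^ (2 * E)

theorem l7_poly (E : ℕ) (hE : 1 ≤ E) (a : Fin 2 → ℕ) (ha : ∀ j, a j ≤ 8 * E) (k : ℕ) (hk : k ≤ 8 * E) (κ : Ir 2 E) :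
    ((der (fun j => (a j : ℤ)))^[k] (Rp (fun j => (κ j).val))).totalDegree ≤ 48 * E ∧
      mlen ((der (fun j => (a j : ℤ)))^[k] (Rp (fun j => (κ j).val))) ≤ l7H E := by
  obtain ⟨h1, h2⟩ := MSU.d0_Rp 2 (8 * E) E (by omega) hE a ha k hk κ
  exact ⟨h1.trans (by omega), h2⟩

theorem l7_H_one (E : ℕ) (hE : 1 ≤ E) : 1 ≤ l7H E := MSU.d0_nn (8 * E) E 2 (by omega)

theorem l7_H_log (E : ℕ) (hE : 2 ≤ E) : Real.log (l7H E) ≤ 200 * (E * Real.log E) := by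
  have hER : (2 : ℝ) ≤ E := by exact_mod_cast hE
  have hE0 : (0 : ℝ) < E := by linarith
  have hlog2 : Real.log 2 ≤ Real.log E := Real.log_le_log (by norm_num) hER
  have hl0 : 0 < Real.log E := lt_of_lt_of_le (Real.log_pos (by norm_num)) hlog2
  have e : l7H E = (9216 * (E : ℝ) ^ 2) ^ (8 * E) * (264 * (2 * (E : ℝ) + 1)) ^ (2 * E) := by
    unfold l7H
    push_cast
    congr 1 <;> congr 1 <;> ring
  rw [e, Real.log_mul (by positivity) (by positivity), Real.log_pow, Real.log_pow]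
  have h1 : Real.log (9216 * (E : ℝ) ^ 2) ≤ 16 * Real.log E := by
    rw [Real.log_mul (by norm_num) (by positivity), Real.log_pow]
    have : Real.log 9216 ≤ 14 * Real.log 2 := by
      rw [← Real.log_rpow (by norm_num)]
      exact Real.log_le_log (by norm_num) (by norm_num)
    push_cast
    linarith
  have h2 : Real.log (264 * (2 * (E : ℝ) + 1)) ≤ 11 * Real.log E := by
    have h3 : 264 * (2 * (E : ℝ) + 1) ≤ 1024 * E := by linarith
    refine (Real.log_le_log (by positivity) h3).trans ?_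
    rw [Real.log_mul (by norm_num) (by positivity)]
    have : Real.log 1024 ≤ 10 * Real.log 2 := by
      rw [← Real.log_rpow (by norm_num)]
      exact Real.log_le_log (by norm_num) (by norm_num)
    linarith
  push_cast
  have h4 : 8 * (E : ℝ) * Real.log (9216 * (E : ℝ) ^ 2) ≤ 8 * E * (16 * Real.log E) :=
    mul_le_mul_of_nonneg_left h1 (by positivity)
  have h5 : 2 * (E : ℝ) * Real.log (264 * (2 * (E : ℝ) + 1)) ≤ 2 * E * (11 * Real.log E) :=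
    mul_le_mul_of_nonneg_left h2 (by positivity)
  have h6 : 0 ≤ (E : ℝ) * Real.log E := by positivity
  linarith

theorem l7_card (E : ℕ) : Fintype.card (Ir 2 E) = E ^ 2 := by
  simp [Ir]

theorem l7_mz_ne (α : ℂ) : mz α ≠ 0 := by
  unfold mz
  split_ifs with h
  · exact h.choose_spec.1.ne_zero
  · exact X_ne_zero

theorem l7_hgt (α : ℂ) : 0 ≤ hgt α :=
  div_nonneg (Real.log_nonneg (one_le_MM _ (l7_mz_ne α))) (Nat.cast_nonneg _)

theorem l7_val (P : Par 2) (F : Fin 5 → FP) (q : ℕ) (δ₁ δ : ℕ) (hδ : δ₁ ≤ δ) (L : IntermediateField ℚ ℂ) [FiniteDimensional ℚ L]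
    [IsGalois ℚ L] (p : LQ L)
    (hpt : ∀ (v : Valuation L VG) (c : VG), 1 ≤ c → (∀ i, v (p.x i) ≤ c) →
        v (Den F q p.x) ≤ c ^ δ₁ ∧ ∀ s : Vr 2, v (Den F q p.x * p.v P s) ≤ c ^ δ₁)
    (E : ℕ) (hE : 1 ≤ E) (a : Ir 2 E → Fin 2 → ℕ) (k : Ir 2 E → ℕ) (ha : ∀ i j, a i j ≤ 8 * E) (hk : ∀ i, k i ≤ 8 * E)
    (v : Valuation L VG) (c : VG) (hc : 1 ≤ c) (hx : ∀ i, v (p.x i) ≤ c) :
    v (Den F q p.x ^ (48 * E * E ^ 2) * (DL (p.v P) a k).det) ≤ c ^ (δ * (48 * E * E ^ 2)) := by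
  obtain ⟨h1, h2⟩ := hpt v c hc hx
  have hcc : c ^ δ₁ ≤ c ^ δ := pow_le_pow_right₀ hc hδ
  have h3 : ∀ i j, v (Den F q p.x ^ (48 * E) * (DL (p.v P) a k) i j) ≤ (c ^ δ) ^ (48 * E) := by
    intro i j
    exact val_mv L v _ (48 * E) (l7_poly E hE (a i) (ha i) (k i) (hk i) j).1 (p.v P) (Den F q p.x) (c ^ δ)
      (h1.trans hcc) fun s => (h2 s).trans hcc
  have h4 := val_det L v (DL (p.v P) a k) (Den F q p.x ^ (48 * E)) ((c ^ δ) ^ (48 * E)) h3
  rw [l7_card, ← pow_mul, ← pow_mul, ← pow_mul] at h4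
  exact h4

theorem l7_arch (P : Par 2) (F : Fin 5 → FP) (q : ℕ) (δ : ℕ) (K : ℝ) (hK : 1 ≤ K) (p : LQ ℂ) (B c : ℝ) (hB : 1 ≤ B) (hc : 1 ≤ c)
    (hpt : ‖Den F q p.x‖ ≤ K * B ^ 2 * c ^ δ ∧ ∀ s : Vr 2, ‖Den F q p.x‖ * ‖p.v P s‖ ≤ K * B ^ 2 * c ^ δ)
    (E : ℕ) (hE : 1 ≤ E) (a : Ir 2 E → Fin 2 → ℕ) (k : Ir 2 E → ℕ) (ha : ∀ i j, a i j ≤ 8 * E) (hk : ∀ i, k i ≤ 8 * E) :
    ‖Den F q p.x ^ (48 * E * E ^ 2) * (DL (p.v P) a k).det‖ ≤
      ((E : ℝ) ^ 2) ^ (E ^ 2) * (l7H E * (K * B ^ 2 * c ^ δ) ^ (48 * E)) ^ (E ^ 2) := by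
  obtain ⟨h1, h2⟩ := hpt
  have hpos : 0 ≤ K * B ^ 2 * c ^ δ := by positivity
  have h3 : ∀ i j, ‖(Den F q p.x ^ (48 * E) • DL (p.v P) a k) i j‖ ≤ l7H E * (K * B ^ 2 * c ^ δ) ^ (48 * E) := by
    intro i j
    rw [Matrix.smul_apply, smul_eq_mul, norm_mul, norm_pow]
    obtain ⟨q1, q2⟩ := l7_poly E hE (a i) (ha i) (k i) (hk i) j
    refine (arch_mv _ (48 * E) q1 (p.v P) ‖Den F q p.x‖ (K * B ^ 2 * c ^ δ) (norm_nonneg _) h1 h2).trans ?_
    exact mul_le_mul_of_nonneg_right q2 (by positivity)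
  have h4 := arch_det (Den F q p.x ^ (48 * E) • DL (p.v P) a k) _ h3
  rw [Matrix.det_smul, l7_card, ← pow_mul] at h4
  push_cast at h4
  exact h4

/-- the image of the point under an embedding -/
def l7f (L : IntermediateField ℚ ℂ) (g : L ≃ₐ[ℚ] L) : L →+* ℂ := (algebraMap L ℂ).comp (g : L →+* L)

theorem l7f_apply (L : IntermediateField ℚ ℂ) (g : L ≃ₐ[ℚ] L) (x : L) : l7f L g x = ((g x : L) : ℂ) := rfl

/-- the constant -/
theorem l7_fin (E M δ₁ δ₂ : ℕ) (hE : 2 ≤ E) (K lq h : ℝ) (hK : 1 ≤ K) (u : ℕ) (hu : u ≤ E ^ M) (hlq : lq ≤ M * Real.log E) (hh : 0 ≤ h) :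
    Real.log (((E : ℝ) ^ 2) ^ (E ^ 2) * (l7H E * (K * ((E : ℝ) ^ M) ^ 2 * (2 * (u : ℝ) + 2) ^ δ₂) ^ (48 * E)) ^ (E ^ 2)) +
      ((max δ₁ δ₂ * (48 * E * E ^ 2) : ℕ) : ℝ) * (lq + h) +
      ((48 * E * E ^ 2 : ℕ) : ℝ) * (Real.log (K * ((E : ℝ) ^ M) ^ 2 * (2 * (u : ℝ) + 2) ^ δ₂) + δ₂ * h) ≤
    (202 + 96 * (2 * Real.log K + 2 * M + δ₂ * (M + 2)) + 48 * (max δ₁ δ₂ : ℕ) * M + 96 * ((max δ₁ δ₂ : ℕ) + δ₂)) * E ^ 3 * Real.log E *
      (1 + h) := by
  have hER : (2 : ℝ) ≤ E := by exact_mod_cast hE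
  have hE0 : (0 : ℝ) < E := by linarith
  have hlog2 : Real.log 2 ≤ Real.log E := Real.log_le_log (by norm_num) hER
  have hl2 : (1 : ℝ) / 2 < Real.log 2 := by
    have := Real.log_two_gt_d9
    linarith
  have hl0 : 0 < Real.log E := by linarith
  have hl1 : 1 ≤ 2 * Real.log E := by linarith
  have hlK : 0 ≤ Real.log K := Real.log_nonneg hK
  have hH1 : 1 ≤ l7H E := l7_H_one E (by omega)
  have hH := l7_H_log E hE
  have hu0 : (0 : ℝ) ≤ u := Nat.cast_nonneg u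
  have huE : (u : ℝ) ≤ (E : ℝ) ^ M := by exact_mod_cast hu
  have hEM : 1 ≤ (E : ℝ) ^ M := one_le_pow₀ (by linarith)
  have hlu : Real.log (2 * (u : ℝ) + 2) ≤ (M + 2) * Real.log E := by
    have h1 : 2 * (u : ℝ) + 2 ≤ 2 ^ 2 * (E : ℝ) ^ M := by linarith
    refine (Real.log_le_log (by positivity) h1).trans ?_
    rw [Real.log_mul (by norm_num) (by positivity), Real.log_pow, Real.log_pow]
    push_cast
    linarith
  have hK0 : 0 < K := by linarith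
  obtain ⟨a0, ha0⟩ : ∃ a0, a0 = Real.log (K * ((E : ℝ) ^ M) ^ 2 * (2 * (u : ℝ) + 2) ^ δ₂) := ⟨_, rfl⟩
  have hab : a0 ≤ (2 * Real.log K + 2 * M + δ₂ * (M + 2)) * Real.log E := by
    rw [ha0, Real.log_mul (by positivity) (by positivity), Real.log_mul (by positivity) (by positivity), Real.log_pow,
      Real.log_pow, Real.log_pow]
    push_cast
    have h2 : (δ₂ : ℝ) * Real.log (2 * (u : ℝ) + 2) ≤ δ₂ * ((M + 2) * Real.log E) :=
      mul_le_mul_of_nonneg_left hlu (Nat.cast_nonneg _)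
    have h3 : Real.log K ≤ Real.log K * (2 * Real.log E) := le_mul_of_one_le_right hlK hl1
    nlinarith
  have hpos : 0 < K * ((E : ℝ) ^ M) ^ 2 * (2 * (u : ℝ) + 2) ^ δ₂ := by positivity
  have hH0 : 0 < l7H E := by linarith
  rw [Real.log_mul (by positivity) (by positivity), Real.log_pow, Real.log_pow, Real.log_pow,
    Real.log_mul hH0.ne' (by positivity), Real.log_pow, ← ha0]
  push_cast
  obtain ⟨δ, hδ⟩ : ∃ δ : ℝ, δ = max (δ₁ : ℝ) δ₂ := ⟨_, rfl⟩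
  have hδ0 : 0 ≤ δ := by rw [hδ]; exact le_max_of_le_left (Nat.cast_nonneg _)
  rw [← hδ]
  obtain ⟨lg, hlg⟩ : ∃ lg, lg = Real.log E := ⟨_, rfl⟩
  rw [← hlg] at hab hlq hl1 hl0 hH ⊢
  obtain ⟨R, hR⟩ : ∃ R, R = 2 * Real.log K + 2 * (M : ℝ) + δ₂ * (M + 2) := ⟨_, rfl⟩
  rw [← hR] at hab ⊢
  have hR0 : 0 ≤ R := by rw [hR]; positivity
  have hM0 : (0 : ℝ) ≤ M := Nat.cast_nonneg M
  have hd2 : (0 : ℝ) ≤ δ₂ := Nat.cast_nonneg δ₂
  have hE3 : 0 < (E : ℝ) ^ 3 := by positivity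
  have t1 : (E : ℝ) ^ 2 * (2 * lg) ≤ 2 * ((E : ℝ) ^ 3 * lg) := by
    have : (E : ℝ) ^ 2 ≤ (E : ℝ) ^ 3 := pow_le_pow_right₀ (by linarith) (by norm_num)
    nlinarith
  have t2 : (E : ℝ) ^ 2 * Real.log (l7H E) ≤ 200 * ((E : ℝ) ^ 3 * lg) := by
    calc (E : ℝ) ^ 2 * Real.log (l7H E) ≤ (E : ℝ) ^ 2 * (200 * (E * lg)) := mul_le_mul_of_nonneg_left hH (by positivity)
      _ = 200 * ((E : ℝ) ^ 3 * lg) := by ring
  have t3 : 48 * (E : ℝ) ^ 3 * a0 ≤ 48 * R * ((E : ℝ) ^ 3 * lg) := by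
    calc 48 * (E : ℝ) ^ 3 * a0 ≤ 48 * (E : ℝ) ^ 3 * (R * lg) := mul_le_mul_of_nonneg_left hab (by positivity)
      _ = 48 * R * ((E : ℝ) ^ 3 * lg) := by ring
  have t4 : 48 * δ * (E : ℝ) ^ 3 * lq ≤ 48 * δ * M * ((E : ℝ) ^ 3 * lg) := by
    calc 48 * δ * (E : ℝ) ^ 3 * lq ≤ 48 * δ * (E : ℝ) ^ 3 * (M * lg) := mul_le_mul_of_nonneg_left hlq (by positivity)
      _ = 48 * δ * M * ((E : ℝ) ^ 3 * lg) := by ring
  have t5 : 48 * (δ + δ₂) * (E : ℝ) ^ 3 * h ≤ 96 * (δ + δ₂) * ((E : ℝ) ^ 3 * lg) * h := by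
    have : 48 * (δ + δ₂) * (E : ℝ) ^ 3 * h ≤ 48 * (δ + δ₂) * (E : ℝ) ^ 3 * h * (2 * lg) :=
      le_mul_of_one_le_right (by positivity) hl1
    calc 48 * (δ + δ₂) * (E : ℝ) ^ 3 * h ≤ 48 * (δ + δ₂) * (E : ℝ) ^ 3 * h * (2 * lg) := this
      _ = 96 * (δ + δ₂) * ((E : ℝ) ^ 3 * lg) * h := by ring
  have t6 : 0 ≤ (202 + 96 * R + 48 * δ * M) * ((E : ℝ) ^ 3 * lg) * h := by positivity
  have t7 : 0 ≤ 96 * (δ + δ₂) * ((E : ℝ) ^ 3 * lg) := by positivity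
  have lhs : (E : ℝ) ^ 2 * (2 * lg) + (E : ℝ) ^ 2 * (Real.log (l7H E) + 48 * E * a0) + δ * (48 * E * (E : ℝ) ^ 2) * (lq + h) +
      48 * E * (E : ℝ) ^ 2 * (a0 + δ₂ * h) = (E : ℝ) ^ 2 * (2 * lg) + (E : ℝ) ^ 2 * Real.log (l7H E) + 2 * (48 * (E : ℝ) ^ 3 * a0) +
      48 * δ * (E : ℝ) ^ 3 * lq + 48 * (δ + δ₂) * (E : ℝ) ^ 3 * h := by ring
  rw [lhs]
  have rhs : (202 + 96 * R + 48 * δ * M + 96 * (δ + δ₂)) * (E : ℝ) ^ 3 * lg * (1 + h) =
      2 * ((E : ℝ) ^ 3 * lg) + 200 * ((E : ℝ) ^ 3 * lg) + 2 * (48 * R * ((E : ℝ) ^ 3 * lg)) + 48 * δ * M * ((E : ℝ) ^ 3 * lg) +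
      96 * (δ + δ₂) * ((E : ℝ) ^ 3 * lg) * h + (202 + 96 * R + 48 * δ * M) * ((E : ℝ) ^ 3 * lg) * h +
      96 * (δ + δ₂) * ((E : ℝ) ^ 3 * lg) := by ring
  rw [rhs]
  linarith

/-- L7. PROOF. `T = 8E`, `m₀ = 8E + 5T = 48 E` (`c5_Rp` with `d = 2`: degrees `≤ m₀`, lengths `≤ (C E)^(C E)`), `A = Den F q p.x ≠ 0`, `γ = A^(m₀ E²) det`, `D = δ m₀ E²` with `δ` the maximum of the two constants of `pt_val`, `pt_arch`. `γ ≠ 0`.
Valuations: for `c ≥ 1` with `v (x i) ≤ c`: `v A ≤ c^δ`, `v (A s) ≤ c^δ` for all values `s`, so `v (A^m₀ entry) ≤ c^(δ m₀)` (`val_mv`), `v γ ≤ c^D` (`val_det`, `card (Ir 2 E) = E²`); `val_proj`.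
Absolute values: for `g`: the point `p.map (embedding ∘ g)` (`map_v`, `spv_map`, `Den_map`, `DL_map`), `c = (2u + 2) C`, `C = max 1 ‖g α‖ max 1 ‖g β‖` (`arch_proj`), `B = E^M`: `‖g (A^m₀ entry)‖ ≤ (C₁E)^(C₁E) (K B² c^δ)^m₀`, `‖g γ‖ ≤ (E²)^(E²) (..)^(E²) = H C^D`, `log H ≤ C₂ E³ log E` (`u ≤ E^M`, `2 ≤ E`).
`liou` with `q = u - w`, `|q| ≤ E^M`: `∑_N log ‖g γ‖ ≥ - card G (C₂ E³ log E + δ 48 E³ (M log E + hgt α + hgt β))`. And `log ‖g γ‖ = 48 E³ log ‖g A‖ + log ‖g det‖`, `log ‖g A‖ ≤ log (K B² (2u+2)^δ) + δ (log max 1 ‖g α‖ + log max 1 ‖g β‖)`, so by `sum_log_max` (terms are `≥ 0`, sum over all of `G`)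
`∑_N log ‖g A‖ ≤ card G (C₃ log E + δ (hgt α + hgt β))`. (`hgt ≥ 0` as `MM ≥ 1`.) -/
theorem lower (P : Par 2) (F : Fin 5 → FP) (q : ℕ) (hq0 : 1 ≤ q) (hq : ∀ l, ∃ m : ℤ, (q : ℚ) * P.b l = m) (M : ℕ) : ∃ C : ℝ, 1 ≤ C ∧
    ∀ (L : IntermediateField ℚ ℂ) [FiniteDimensional ℚ L] [IsGalois ℚ L] (p : LQ L), (∀ i, (spv p.x (F i)).eval (p.w i) = 0) →
      (∀ i, MvPolynomial.aeval p.x (F i).leadingCoeff ≠ 0) → ∀ E : ℕ, 2 ≤ E → (∀ l, p.X l ≤ E ^ M) → ∀ u w : ℕ, u ≠ w → u ≤ E ^ M → w ≤ E ^ M →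
      ∀ (a : Ir 2 E → Fin 2 → ℕ) (k : Ir 2 E → ℕ), (∀ i j, a i j ≤ 8 * E) → (∀ i, k i ≤ 8 * E) → (DL (p.v P) a k).det ≠ 0 →
      ∀ N : Finset (L ≃ₐ[ℚ] L),
        -((Fintype.card (L ≃ₐ[ℚ] L) : ℝ) * (C * E ^ 3 * Real.log E * (1 + hgt ((p.x 0 + u * p.x 1 : L) : ℂ) + hgt ((p.x 0 + w * p.x 1 : L) : ℂ)))) ≤
          ∑ g ∈ N, Real.log ‖((g (DL (p.v P) a k).det : L) : ℂ)‖ := by
  obtain ⟨δ₁, hδ₁, hval⟩ := pt_val P F q hq
  obtain ⟨δ₂, K, hδ₂, hK, harch⟩ := pt_arch P F q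
  have hlK : 0 ≤ Real.log K := Real.log_nonneg hK
  refine ⟨202 + 96 * (2 * Real.log K + 2 * M + δ₂ * (M + 2)) + 48 * (max δ₁ δ₂ : ℕ) * M + 96 * ((max δ₁ δ₂ : ℕ) + δ₂), ?_, ?_⟩
  · have : 0 ≤ 96 * (2 * Real.log K + 2 * M + δ₂ * ((M : ℝ) + 2)) + 48 * ((max δ₁ δ₂ : ℕ) : ℝ) * M + 96 * (((max δ₁ δ₂ : ℕ) : ℝ) + δ₂) := by
      positivity
    linarith
  intro L _ _ p hroot hlead E hE hX u w huw hu hw a k ha hk hdet N
  have hE1 : 1 ≤ E := by omega
  have hE0 : (0 : ℝ) < E := by exact_mod_cast hE1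
  have hER : (2 : ℝ) ≤ E := by exact_mod_cast hE
  -- the denominator
  have hA : Den F q p.x ≠ 0 := by
    unfold Den
    refine mul_ne_zero (by exact_mod_cast (by omega : q ≠ 0)) ?_
    exact Finset.prod_ne_zero_iff.2 fun i _ => hlead i
  have hγ : Den F q p.x ^ (48 * E * E ^ 2) * (DL (p.v P) a k).det ≠ 0 := mul_ne_zero (pow_ne_zero _ hA) hdet
  have hEM : 1 ≤ (E : ℝ) ^ M := one_le_pow₀ (by linarith)
  -- the archimedean data of an embedding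
  have key : ∀ g : L ≃ₐ[ℚ] L,
      ‖((g (Den F q p.x) : L) : ℂ)‖ ≤ K * ((E : ℝ) ^ M) ^ 2 * (2 * (u : ℝ) + 2) ^ δ₂ *
        (max 1 ‖((g (p.x 0 + u * p.x 1) : L) : ℂ)‖ * max 1 ‖((g (p.x 0 + w * p.x 1) : L) : ℂ)‖) ^ δ₂ ∧
      ‖((g (Den F q p.x ^ (48 * E * E ^ 2) * (DL (p.v P) a k).det) : L) : ℂ)‖ ≤
        (((E : ℝ) ^ 2) ^ (E ^ 2) * (l7H E * (K * ((E : ℝ) ^ M) ^ 2 * (2 * (u : ℝ) + 2) ^ δ₂) ^ (48 * E)) ^ (E ^ 2)) *
          (max 1 ‖((g (p.x 0 + u * p.x 1) : L) : ℂ)‖ * max 1 ‖((g (p.x 0 + w * p.x 1) : L) : ℂ)‖) ^ (δ₂ * (48 * E * E ^ 2)) := by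
    intro g
    have ex : ∀ n : ℕ, ((g (p.x 0 + n * p.x 1) : L) : ℂ) = (p.map (l7f L g)).x 0 + n * (p.map (l7f L g)).x 1 := by
      intro n
      rw [← l7f_apply L g, map_add, map_mul, map_natCast]
      rfl
    rw [ex u, ex w]
    have hr' : ∀ i, (spv (p.map (l7f L g)).x (F i)).eval ((p.map (l7f L g)).w i) = 0 := by
      intro i
      have e1 : spv (p.map (l7f L g)).x (F i) = (spv p.x (F i)).map (l7f L g) := spv_map (l7f L g) p.x (F i)
      have e2 : (p.map (l7f L g)).w i = l7f L g (p.w i) := rfl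
      rw [e1, e2, Polynomial.eval_map, Polynomial.eval₂_at_apply, hroot i, map_zero]
    set Cg := max 1 ‖(p.map (l7f L g)).x 0 + u * (p.map (l7f L g)).x 1‖ * max 1 ‖(p.map (l7f L g)).x 0 + w * (p.map (l7f L g)).x 1‖ with hCg
    have hCg1 : 1 ≤ Cg := one_le_mul_of_one_le_of_one_le (le_max_left _ _) (le_max_left _ _)
    have hc1 : 1 ≤ (2 * (u : ℝ) + 2) * Cg := one_le_mul_of_one_le_of_one_le (by linarith [(Nat.cast_nonneg u : (0 : ℝ) ≤ u)]) hCg1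
    have hpt := harch (p.map (l7f L g)) hr' ((E : ℝ) ^ M) ((2 * (u : ℝ) + 2) * Cg) hEM (fun l => by
      have := hX l
      exact_mod_cast this) hc1 (fun i => arch_proj _ u w huw i)
    have eD : Den F q (p.map (l7f L g)).x = l7f L g (Den F q p.x) := Den_map (l7f L g) F q p.x
    have eDL : (DL ((p.map (l7f L g)).v P) a k).det = l7f L g (DL (p.v P) a k).det := by
      rw [← DL_map]
      congr 2
      funext s
      exact map_v P (l7f L g) p s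
    refine ⟨?_, ?_⟩
    · rw [← l7f_apply L g, ← eD]
      refine hpt.1.trans (le_of_eq ?_)
      rw [mul_pow]
      ring
    · have h5 := l7_arch P F q δ₂ K hK (p.map (l7f L g)) ((E : ℝ) ^ M) ((2 * (u : ℝ) + 2) * Cg) hEM hc1 hpt E hE1 a k ha hk
      rw [eD, eDL, ← map_pow, ← map_mul, l7f_apply] at h5
      refine h5.trans (le_of_eq ?_)
      rw [mul_pow (2 * (u : ℝ) + 2) Cg δ₂, ← mul_assoc (K * ((E : ℝ) ^ M) ^ 2), mul_pow (K * ((E : ℝ) ^ M) ^ 2 * (2 * (u : ℝ) + 2) ^ δ₂),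
        ← mul_assoc (l7H E), mul_pow (l7H E * (K * ((E : ℝ) ^ M) ^ 2 * (2 * (u : ℝ) + 2) ^ δ₂) ^ (48 * E)), ← pow_mul Cg, ← pow_mul Cg]
      ring
  have hpos0 : 0 < K * ((E : ℝ) ^ M) ^ 2 * (2 * (u : ℝ) + 2) ^ δ₂ := by positivity
  have hone : 1 ≤ K * ((E : ℝ) ^ M) ^ 2 * (2 * (u : ℝ) + 2) ^ δ₂ := by
    refine one_le_mul_of_one_le_of_one_le (one_le_mul_of_one_le_of_one_le hK (one_le_pow₀ hEM)) (one_le_pow₀ ?_)
    linarith [(Nat.cast_nonneg u : (0 : ℝ) ≤ u)]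
  have hH1 := l7_H_one E hE1
  have hHone : 1 ≤ ((E : ℝ) ^ 2) ^ (E ^ 2) * (l7H E * (K * ((E : ℝ) ^ M) ^ 2 * (2 * (u : ℝ) + 2) ^ δ₂) ^ (48 * E)) ^ (E ^ 2) := by
    refine one_le_mul_of_one_le_of_one_le (one_le_pow₀ (one_le_pow₀ (by linarith))) (one_le_pow₀ ?_)
    exact one_le_mul_of_one_le_of_one_le hH1 (one_le_pow₀ hone)
  -- Liouville
  have hqq : ((u : ℤ) - w) ≠ 0 := by
    intro h0
    exact huw (by omega)
  have hl := liou L (p.x 0 + u * p.x 1) (p.x 0 + w * p.x 1) (Den F q p.x ^ (48 * E * E ^ 2) * (DL (p.v P) a k).det) ((u : ℤ) - w) hqq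
    (max δ₁ δ₂ * (48 * E * E ^ 2)) _ hHone hγ
    (fun v => val_proj L p.x u w (max δ₁ δ₂ * (48 * E * E ^ 2)) _
      (fun v c hc hx => l7_val P F q δ₁ (max δ₁ δ₂) (le_max_left _ _) L p (hval L p hroot) E hE1 a k ha hk v c hc hx) v)
    (fun g => (key g).2.trans (by
      refine mul_le_mul_of_nonneg_left ?_ (by linarith)
      refine pow_le_pow_right₀ (one_le_mul_of_one_le_of_one_le (le_max_left _ _) (le_max_left _ _)) ?_
      exact Nat.mul_le_mul_right _ (le_max_right _ _))) N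
  -- the logarithms of the denominator
  have hsplit : ∀ g : L ≃ₐ[ℚ] L, Real.log ‖((g (Den F q p.x ^ (48 * E * E ^ 2) * (DL (p.v P) a k).det) : L) : ℂ)‖ =
      ((48 * E * E ^ 2 : ℕ) : ℝ) * Real.log ‖((g (Den F q p.x) : L) : ℂ)‖ + Real.log ‖((g (DL (p.v P) a k).det : L) : ℂ)‖ := by
    intro g
    have n1 : ((g (Den F q p.x) : L) : ℂ) ≠ 0 := by
      intro h0
      apply hA
      have : g (Den F q p.x) = 0 := Subtype.ext h0
      exact (map_eq_zero_iff g g.injective).1 this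
    have n2 : ((g (DL (p.v P) a k).det : L) : ℂ) ≠ 0 := by
      intro h0
      apply hdet
      have : g (DL (p.v P) a k).det = 0 := Subtype.ext h0
      exact (map_eq_zero_iff g g.injective).1 this
    rw [map_mul, map_pow, MulMemClass.coe_mul, SubmonoidClass.coe_pow, norm_mul, norm_pow,
      Real.log_mul (pow_ne_zero _ (norm_ne_zero_iff.2 n1)) (norm_ne_zero_iff.2 n2), Real.log_pow]
  have hlogA : ∀ g : L ≃ₐ[ℚ] L, Real.log ‖((g (Den F q p.x) : L) : ℂ)‖ ≤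
      Real.log (K * ((E : ℝ) ^ M) ^ 2 * (2 * (u : ℝ) + 2) ^ δ₂) + δ₂ * (Real.log (max 1 ‖((g (p.x 0 + u * p.x 1) : L) : ℂ)‖) +
        Real.log (max 1 ‖((g (p.x 0 + w * p.x 1) : L) : ℂ)‖)) := by
    intro g
    have n1 : 0 < ‖((g (Den F q p.x) : L) : ℂ)‖ := by
      rw [norm_pos_iff]
      intro h0
      apply hA
      have : g (Den F q p.x) = 0 := Subtype.ext h0
      exact (map_eq_zero_iff g g.injective).1 this
    have m1 : 0 < max 1 ‖((g (p.x 0 + u * p.x 1) : L) : ℂ)‖ := lt_of_lt_of_le one_pos (le_max_left _ _)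
    have m2 : 0 < max 1 ‖((g (p.x 0 + w * p.x 1) : L) : ℂ)‖ := lt_of_lt_of_le one_pos (le_max_left _ _)
    refine (Real.log_le_log n1 (key g).1).trans (le_of_eq ?_)
    rw [Real.log_mul hpos0.ne' (by positivity), Real.log_pow, Real.log_mul m1.ne' m2.ne']
  have hsumA : ∑ g ∈ N, Real.log ‖((g (Den F q p.x) : L) : ℂ)‖ ≤ (Fintype.card (L ≃ₐ[ℚ] L) : ℝ) *
      (Real.log (K * ((E : ℝ) ^ M) ^ 2 * (2 * (u : ℝ) + 2) ^ δ₂) + δ₂ * (hgt ((p.x 0 + u * p.x 1 : L) : ℂ) +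
        hgt ((p.x 0 + w * p.x 1 : L) : ℂ))) := by
    have hnn : ∀ g : L ≃ₐ[ℚ] L, 0 ≤ Real.log (K * ((E : ℝ) ^ M) ^ 2 * (2 * (u : ℝ) + 2) ^ δ₂) +
        δ₂ * (Real.log (max 1 ‖((g (p.x 0 + u * p.x 1) : L) : ℂ)‖) + Real.log (max 1 ‖((g (p.x 0 + w * p.x 1) : L) : ℂ)‖)) := by
      intro g
      have a1 := Real.log_nonneg hone
      have a2 := Real.log_nonneg (le_max_left 1 ‖((g (p.x 0 + u * p.x 1) : L) : ℂ)‖)
      have a3 := Real.log_nonneg (le_max_left 1 ‖((g (p.x 0 + w * p.x 1) : L) : ℂ)‖)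
      positivity
    refine (Finset.sum_le_sum fun g _ => hlogA g).trans ?_
    refine (Finset.sum_le_sum_of_subset_of_nonneg (Finset.subset_univ N) fun g _ _ => hnn g).trans ?_
    rw [Finset.sum_add_distrib, Finset.sum_const, ← Finset.mul_sum, Finset.sum_add_distrib, Finset.card_univ, nsmul_eq_mul]
    have s1 := sum_log_max L (p.x 0 + u * p.x 1)
    have s2 := sum_log_max L (p.x 0 + w * p.x 1)
    have hd : (0 : ℝ) ≤ δ₂ := Nat.cast_nonneg _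
    nlinarith [mul_le_mul_of_nonneg_left (add_le_add s1 s2) hd]
  rw [Finset.sum_congr rfl fun g _ => hsplit g, Finset.sum_add_distrib, ← Finset.mul_sum] at hl
  have hh1 := l7_hgt ((p.x 0 + u * p.x 1 : L) : ℂ)
  have hh2 := l7_hgt ((p.x 0 + w * p.x 1 : L) : ℂ)
  have hlq : Real.log |(((u : ℤ) - w : ℤ) : ℝ)| ≤ M * Real.log E := by
    rw [← Real.log_pow]
    refine Real.log_le_log ?_ ?_
    · rw [abs_pos]
      exact_mod_cast hqq
    · have : |((u : ℤ) - w)| ≤ ((E ^ M : ℕ) : ℤ) := by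
        rw [abs_le]
        constructor <;> omega
      have h7 : ((|((u : ℤ) - w)| : ℤ) : ℝ) ≤ (((E ^ M : ℕ) : ℤ) : ℝ) := by exact_mod_cast this
      rw [Int.cast_abs] at h7
      refine h7.trans (le_of_eq ?_)
      push_cast
      rfl
  have hfin := l7_fin E M δ₁ δ₂ hE K (Real.log |(((u : ℤ) - w : ℤ) : ℝ)|) (hgt ((p.x 0 + u * p.x 1 : L) : ℂ) + hgt ((p.x 0 + w * p.x 1 : L) : ℂ)) hK u hu hlq
    (by linarith)
  have hG : (0 : ℝ) ≤ (Fintype.card (L ≃ₐ[ℚ] L) : ℝ) := Nat.cast_nonneg _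
  have hm := mul_le_mul_of_nonneg_left hfin hG
  have hmA := mul_le_mul_of_nonneg_left hsumA (Nat.cast_nonneg (48 * E * E ^ 2) : (0 : ℝ) ≤ ((48 * E * E ^ 2 : ℕ) : ℝ))
  generalize (∑ g ∈ N, Real.log ‖((g (DL (p.v P) a k).det : L) : ℂ)‖) = S1 at *
  generalize (∑ g ∈ N, Real.log ‖((g (Den F q p.x) : L) : ℂ)‖) = S2 at *
  generalize hgt ((p.x 0 + u * p.x 1 : L) : ℂ) = g1 at *
  generalize hgt ((p.x 0 + w * p.x 1 : L) : ℂ) = g2 at *
  generalize (Fintype.card (L ≃ₐ[ℚ] L) : ℝ) = G at *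
  nlinarith [hm, hmA, hl]

end Pool.Agent.MSL
end

end

section

/-! # L/M5_Exists: rows with a nonzero determinant -/

open Polynomial

noncomputable section

namespace Pool.Agent.MSL

open MSD MSP MSK MSR

variable (L : IntermediateField ℚ ℂ) [FiniteDimensional ℚ L] [IsGalois ℚ L]

/-- M5a. PROOF. `ZeroEst` for `τ, om, kap = g₀ (w 1)`, `X₀`, `E` gives `X`; `X l ≤ X₀ + C E³ ≤ X₁`; `Big.sq` gives `Y l`; `p = ⟨x, w, X, Y, _⟩`. Let `p' = p.map (embedding ∘ g₀)` (`LQ.map` for the ring homomorphism `L → ℂ`, `x ↦ g₀ x`). Its `w` is `par5 P.z τ om kap` (hypotheses; `Fin 5` cases). `exists_Dt_pt` gives `D` with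
`vals P D = p'.v P`, `D.X l 0 = X l`. So `rows_of` (with the zero estimate for `D`) gives `a, k` with `(DL (p'.v P) a k).det ≠ 0`; this is the image of `(DL (p.v P) a k).det` (`map_v`, `DL_map`), so the latter is `≠ 0`. -/
theorem exists_pt (P : Par 2) (C X₀ X₁ E : ℕ) (hE : 1 ≤ E)
    (hZ : ∀ τ om kap : ℂ, 0 < τ.im → om ≠ 0 → ∀ X₀ E : ℕ, 1 ≤ E → ∃ x : Fin 3 → ℕ, (∀ l, X₀ ≤ x l ∧ x l ≤ X₀ + C * E ^ 3) ∧
      ∀ D : Dt 2, D.τ = τ → D.om = om → D.kap = kap → (∀ l, D.X l 0 = x l) → ∀ c : Ir 2 E → ℂ, c ≠ 0 →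
        ∃ (a : Fin 2 → ℕ) (k : ℕ), (∀ j, a j ≤ 8 * E) ∧ k ≤ 8 * E ∧
          ∑ κ, c κ * MvPolynomial.aeval (vals P D) ((der (fun j => (a j : ℤ)))^[k] (Rp (fun j => (κ j).val))) ≠ 0)
    (hX : X₀ + C * E ^ 3 ≤ X₁) (F : Fin 5 → FP) (x : Fin 2 → L) (hB : Big L F x X₁) (w : Fin 5 → L) (hw : ∀ i, (spv x (F i)).eval (w i) = 0)
    (g₀ : L ≃ₐ[ℚ] L) (τ om : ℂ) (hτ : 0 < τ.im) (hom : om ≠ 0) (h0 : 2 / 3 * Real.pi ^ 4 * e4 τ / om ^ 4 = ((g₀ (w 0) : L) : ℂ))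
    (h2 : 8 / 27 * Real.pi ^ 6 * e6 τ / om ^ 6 = ((g₀ (w 2) : L) : ℂ)) (h3 : ((g₀ (w 3) : L) : ℂ) = P.z) (h4 : ((g₀ (w 4) : L) : ℂ) = rh) :
    ∃ p : LQ L, p.x = x ∧ p.w = w ∧ (∀ l, X₀ ≤ p.X l ∧ p.X l ≤ X₁) ∧ ∃ (a : Ir 2 E → Fin 2 → ℕ) (k : Ir 2 E → ℕ), (∀ i j, a i j ≤ 8 * E) ∧ (∀ i, k i ≤ 8 * E) ∧
      (DL (p.v P) a k).det ≠ 0 := by
  obtain ⟨X, hX1, hX2⟩ := hZ τ om ((g₀ (w 1) : L) : ℂ) hτ hom X₀ E hE
  have hsq : ∀ l, ∃ Y : L, Y ^ 2 = 4 * (X l : L) ^ 3 - 2 * w 0 * X l - w 2 := fun l =>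
    hB.sq (w 0) (w 2) (hw 0) (hw 2) (X l) ((hX1 l).2.trans hX)
  choose Y hY using hsq
  let p : LQ L := ⟨x, w, X, Y, hY⟩
  let f : L →+* ℂ := (algebraMap L ℂ).comp (g₀ : L →+* L)
  have hf : ∀ y : L, f y = ((g₀ y : L) : ℂ) := fun y => rfl
  have hw' : (p.map f).w = par5 P.z τ om ((g₀ (w 1) : L) : ℂ) := by
    funext i
    have e : (p.map f).w i = ((g₀ (w i) : L) : ℂ) := rfl
    rw [e]
    fin_cases i
    · exact h0.symm
    · rfl
    · exact h2.symm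
    · exact h3
    · exact h4
  obtain ⟨D, hD1, hD2, hD3, -, hD5, hD6⟩ :=
    exists_Dt_pt P τ om ((g₀ (w 1) : L) : ℂ) hτ hom (p.map f) hw'
  have hrow : ∀ c : Ir 2 E → ℂ, c ≠ 0 → ∃ (a : Fin 2 → ℕ) (k : ℕ), (∀ j, a j ≤ 8 * E) ∧ k ≤ 8 * E ∧
      ∑ κ, c κ * MvPolynomial.aeval ((p.map f).v P)
        ((der (fun j => (a j : ℤ)))^[k] (Rp (fun j => (κ j).val))) ≠ 0 := by
    intro c hc
    have h := hX2 D hD1 hD2 hD3 hD5 c hc
    rwa [hD6] at h
  obtain ⟨a, k, ha, hk, hdet⟩ := rows_of E ((p.map f).v P) hrow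
  refine ⟨p, rfl, rfl, fun l => ⟨(hX1 l).1, (hX1 l).2.trans hX⟩, a, k, ha, hk, fun h => hdet ?_⟩
  have hv : (p.map f).v P = fun s => f (p.v P s) := funext fun s => map_v P f p s
  rw [hv, DL_map, h, map_zero]

end Pool.Agent.MSL
end

end
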