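import Mathlib
import Pool.Agent.Lib.MP_f58a57_nt.FK.K007
import Pool.Agent.Lib.MP_f58a57_nt.FK.K037

namespace Pool.Agent.MSD
end Pool.Agent.MSD
namespace Pool.Agent.MSK
end Pool.Agent.MSK
namespace Pool.Agent.MSP
end Pool.Agent.MSP
namespace Pool.Agent.MSR
end Pool.Agent.MSR

section

/-! # L/S1_Near: roots near a simple root -/

open Polynomial

noncomputable section

namespace Pool.Agent.MSL

open MSD MSP

/-- S1a. PROOF. If `p(ω) = 0` take `ω`. Otherwise `p'(ω)/p(ω) = ∑_r 1/(ω - r)` over the roots `r` (with multiplicity, `n = natDegree p` of them, `n ≥ 1` as `p' ≠ 0`); if all `‖ω - r‖ > n ‖p(ω)‖/‖p'(ω)‖` then `‖p'/p‖ < n · ‖p'‖/(n ‖p‖)`, a contradiction.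
(Mathlib: `Polynomial.eval_derivative_div_eval_of_ne_zero_of_splits` or the derivative of a product over the roots.) -/
theorem root_near (p : Polynomial ℂ) (ω : ℂ) (h : (derivative p).eval ω ≠ 0) :
    ∃ r : ℂ, p.eval r = 0 ∧ ‖ω - r‖ ≤ p.natDegree * (‖p.eval ω‖ / ‖(derivative p).eval ω‖) := by
  by_cases h0 : p.eval ω = 0
  · exact ⟨ω, h0, by rw [sub_self, norm_zero]; positivity⟩
  have hp : p ≠ 0 := by
    rintro rfl
    exact h0 eval_zero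
  have hsp : p.Splits := IsAlgClosed.splits p
  have hcard : p.roots.card = p.natDegree := hsp.natDegree_eq_card_roots.symm
  have hdeg : p.natDegree ≠ 0 := by
    intro hd
    rw [eq_C_of_natDegree_eq_zero hd, derivative_C, eval_zero] at h
    exact h rfl
  have hne : p.roots.toFinset.Nonempty := by
    rw [Multiset.toFinset_nonempty]
    intro hr
    rw [hr, Multiset.card_zero] at hcard
    exact hdeg hcard.symm
  obtain ⟨r, hr, hmin⟩ := Finset.exists_min_image p.roots.toFinset (fun r => ‖ω - r‖) hne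
  have hr0 : p.eval r = 0 := by
    rw [Multiset.mem_toFinset, mem_roots hp] at hr
    exact hr
  refine ⟨r, hr0, ?_⟩
  have hωr : 0 < ‖ω - r‖ := by
    rw [norm_pos_iff, sub_ne_zero]
    rintro rfl
    exact h0 hr0
  have key := hsp.eval_derivative_div_eval_of_ne_zero h0
  have h1 : ‖(derivative p).eval ω / p.eval ω‖ ≤ p.natDegree * (1 / ‖ω - r‖) := by
    rw [key]
    refine (norm_multiset_sum_le _).trans ?_
    rw [Multiset.map_map, ← hcard]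
    have h2 := Multiset.sum_le_card_nsmul (p.roots.map (norm ∘ fun z => 1 / (ω - z))) (1 / ‖ω - r‖) (by
      intro y hy
      rw [Multiset.mem_map] at hy
      obtain ⟨z, hz, rfl⟩ := hy
      have h3 := hmin z (Multiset.mem_toFinset.2 hz)
      simp only [Function.comp]
      rw [norm_div, norm_one]
      exact one_div_le_one_div_of_le hωr h3)
    rw [Multiset.card_map, nsmul_eq_mul] at h2
    exact h2
  rw [norm_div] at h1
  have hp0 : 0 < ‖p.eval ω‖ := norm_pos_iff.2 h0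
  have hd0 : 0 < ‖(derivative p).eval ω‖ := norm_pos_iff.2 h
  rw [div_le_iff₀ hp0] at h1
  rw [mul_div_assoc', le_div_iff₀ hd0]
  have h4 : ‖(derivative p).eval ω‖ * ‖ω - r‖ ≤ (p.natDegree * (1 / ‖ω - r‖) * ‖p.eval ω‖) * ‖ω - r‖ :=
    mul_le_mul_of_nonneg_right h1 hωr.le
  have h5 : (p.natDegree * (1 / ‖ω - r‖) * ‖p.eval ω‖) * ‖ω - r‖ = p.natDegree * ‖p.eval ω‖ := by
    field_simp
  rw [h5] at h4
  linarith

/-- the values `x ↦ (spv x F)(ω)` are polynomial functions -/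
theorem S1_poly (F : FP) (ω : ℂ) : ∃ G : MvPolynomial (Fin 2) ℂ, ∀ x : Fin 2 → ℂ,
    (spv x F).eval ω = MvPolynomial.eval x G := by
  refine ⟨F.eval₂ (MvPolynomial.map (Int.castRingHom ℂ)) (MvPolynomial.C ω), fun x => ?_⟩
  rw [hom_eval₂, MvPolynomial.eval_C]
  unfold spv
  rw [eval_map]
  congr 1
  refine RingHom.ext fun q => ?_
  simp only [RingHom.comp_apply, MvPolynomial.eval_map]
  rfl

theorem S1_coef (q : MvPolynomial (Fin 2) ℤ) (x : Fin 2 → ℂ) :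
    MvPolynomial.aeval x q = MvPolynomial.eval x (MvPolynomial.map (Int.castRingHom ℂ) q) := by
  rw [MvPolynomial.eval_map]
  rfl

/-- S1b. PROOF. `x ↦ (spv x F).eval ω` and `x ↦ (derivative (spv x F)).eval ω` are polynomial functions of `x` (finite sums of `aeval x (F.coeff k) * ω^k`), so continuous, and the first one is Lipschitz near `θ` (it is `C^1`, `ContDiffAt.exists_lipschitzOnWith`, or `AnalyticAt`). So
`‖(spv x F).eval ω‖ ≤ K ‖x - θ‖` and `‖derivative‖ ≥ m/2` for `‖x - θ‖ ≤ r₀`; `root_near` with `natDegree (spv x F) ≤ natDegree F`. -/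
theorem near_root (F : FP) (θ : Fin 2 → ℂ) (ω : ℂ) (h0 : (spv θ F).eval ω = 0) (h1 : (derivative (spv θ F)).eval ω ≠ 0) :
    ∃ r₀ C : ℝ, 0 < r₀ ∧ 1 ≤ C ∧ ∀ x : Fin 2 → ℂ, ‖x - θ‖ ≤ r₀ → ∃ ω' : ℂ, (spv x F).eval ω' = 0 ∧ ‖ω' - ω‖ ≤ C * ‖x - θ‖ := by
  obtain ⟨G, hG⟩ := S1_poly F ω
  obtain ⟨H, hH⟩ := S1_poly (derivative F) ω
  have hder : ∀ x : Fin 2 → ℂ, (derivative (spv x F)).eval ω = MvPolynomial.eval x H := by
    intro x
    rw [← hH x]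
    unfold spv
    rw [derivative_map]
  have hcd : ContDiffAt ℂ 1 (fun x : Fin 2 → ℂ => MvPolynomial.eval x G) θ :=
    ((AnalyticOnNhd.eval_mvPolynomial (𝕜 := ℂ) G) θ (Set.mem_univ θ)).contDiffAt
  obtain ⟨K, t, ht, hK⟩ := hcd.exists_lipschitzOnWith
  have hHc : Continuous fun x : Fin 2 → ℂ => MvPolynomial.eval x H := MvPolynomial.continuous_eval H
  set m : ℝ := ‖MvPolynomial.eval θ H‖ with hm
  have hm0 : 0 < m := by
    rw [hm, norm_pos_iff, ← hder θ]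
    exact h1
  have hev : ∀ᶠ x in nhds θ, m / 2 < ‖MvPolynomial.eval x H‖ :=
    (hHc.norm.tendsto θ).eventually (lt_mem_nhds (by rw [← hm]; linarith))
  obtain ⟨ε, hε, hball⟩ := Metric.eventually_nhds_iff_ball.1 (hev.and ht)
  refine ⟨ε / 2, max 1 (F.natDegree * (K * (2 / m))), by positivity, le_max_left _ _, fun x hx => ?_⟩
  have hxb : x ∈ Metric.ball θ ε := by
    rw [Metric.mem_ball, dist_eq_norm]
    linarith
  obtain ⟨hx1, hx2⟩ := hball x hxb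
  have hθt : θ ∈ t := mem_of_mem_nhds ht
  have hd0 : (derivative (spv x F)).eval ω ≠ 0 := by
    rw [hder x, ← norm_pos_iff]
    linarith
  obtain ⟨r, hr, hle⟩ := root_near (spv x F) ω hd0
  refine ⟨r, hr, ?_⟩
  have hg : ‖(spv x F).eval ω‖ ≤ K * ‖x - θ‖ := by
    have h3 := hK.dist_le_mul x hx2 θ hθt
    rw [← hG x, ← hG θ, h0, dist_zero_right, dist_eq_norm] at h3
    exact h3
  have hnd : (spv x F).natDegree ≤ F.natDegree := natDegree_map_le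
  have hq : ‖(spv x F).eval ω‖ / ‖(derivative (spv x F)).eval ω‖ ≤ K * ‖x - θ‖ * (2 / m) := by
    rw [hder x, div_le_iff₀ (by linarith)]
    have h4 : K * ‖x - θ‖ = K * ‖x - θ‖ * (2 / m) * (m / 2) := by
      field_simp
    calc ‖(spv x F).eval ω‖ ≤ K * ‖x - θ‖ := hg
      _ = K * ‖x - θ‖ * (2 / m) * (m / 2) := h4
      _ ≤ K * ‖x - θ‖ * (2 / m) * ‖MvPolynomial.eval x H‖ :=
        mul_le_mul_of_nonneg_left hx1.le (by positivity)
  rw [norm_sub_rev]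
  calc ‖ω - r‖ ≤ (spv x F).natDegree * (‖(spv x F).eval ω‖ / ‖(derivative (spv x F)).eval ω‖) := hle
    _ ≤ F.natDegree * (K * ‖x - θ‖ * (2 / m)) := by
      refine mul_le_mul (by exact_mod_cast hnd) hq (by positivity) (by positivity)
    _ = (F.natDegree * (K * (2 / m))) * ‖x - θ‖ := by ring
    _ ≤ max 1 (F.natDegree * (K * (2 / m))) * ‖x - θ‖ :=
      mul_le_mul_of_nonneg_right (le_max_right _ _) (norm_nonneg _)

/-- S1c. PROOF. `near_root` for `i = 0, 1, 2`; for `i = 3, 4` take `ω' i = ω i` (`cz`, `cr`). The leading coefficients are continuous in `x`. -/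
theorem near_lift (θ : Fin 2 → ℂ) (ω : Fin 5 → ℂ) (F : Fin 5 → FP) (h : FD θ ω F) : ∃ r₀ C : ℝ, 0 < r₀ ∧ 1 ≤ C ∧
    ∀ x : Fin 2 → ℂ, ‖x - θ‖ ≤ r₀ → (∀ i, MvPolynomial.aeval x (F i).leadingCoeff ≠ 0) ∧
      ∃ ω' : Fin 5 → ℂ, (∀ i, (spv x (F i)).eval (ω' i) = 0) ∧ (∀ i, ‖ω' i - ω i‖ ≤ C * ‖x - θ‖) ∧ ω' 3 = ω 3 ∧ ω' 4 = ω 4 := by
  have hone : ∀ i : Fin 5, ∃ r C : ℝ, 0 < r ∧ 1 ≤ C ∧ ∀ x : Fin 2 → ℂ, ‖x - θ‖ ≤ r →
      ∃ w : ℂ, (spv x (F i)).eval w = 0 ∧ ‖w - ω i‖ ≤ C * ‖x - θ‖ ∧ (i = 3 ∨ i = 4 → w = ω i) := by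
    intro i
    by_cases h3 : i = 3
    · subst h3
      exact ⟨1, 1, one_pos, le_rfl, fun x _ => ⟨ω 3, h.cz x, by
        rw [sub_self, norm_zero]; positivity, fun _ => rfl⟩⟩
    by_cases h4 : i = 4
    · subst h4
      exact ⟨1, 1, one_pos, le_rfl, fun x _ => ⟨ω 4, h.cr x, by
        rw [sub_self, norm_zero]; positivity, fun _ => rfl⟩⟩
    obtain ⟨r, C, hr, hC, hx⟩ := near_root (F i) θ (ω i) (h.root i) (h.simple i)
    refine ⟨r, C, hr, hC, fun x hxr => ?_⟩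
    obtain ⟨w, hw1, hw2⟩ := hx x hxr
    exact ⟨w, hw1, hw2, fun h5 => absurd h5 (by tauto)⟩
  choose r C hr hC hx using hone
  have hlc : ∀ᶠ x in nhds θ, ∀ i, MvPolynomial.aeval x (F i).leadingCoeff ≠ 0 := by
    rw [Filter.eventually_all]
    intro i
    have hc : Continuous fun x : Fin 2 → ℂ => MvPolynomial.aeval x (F i).leadingCoeff := by
      simp only [S1_coef]
      exact MvPolynomial.continuous_eval _
    exact hc.continuousAt.eventually_ne (h.lc i)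
  have hrr : ∀ᶠ x in nhds θ, ∀ i, ‖x - θ‖ ≤ r i := by
    rw [Filter.eventually_all]
    intro i
    filter_upwards [Metric.ball_mem_nhds θ (hr i)] with x hxi
    rw [Metric.mem_ball, dist_eq_norm] at hxi
    exact hxi.le
  obtain ⟨ε, hε, hball⟩ := Metric.eventually_nhds_iff_ball.1 (hlc.and hrr)
  have hCi : ∀ i, C i ≤ ∑ j, C j := fun i =>
    Finset.single_le_sum (f := C) (fun j _ => zero_le_one.trans (hC j)) (Finset.mem_univ i)
  refine ⟨ε / 2, ∑ j, C j, by positivity, (hC 0).trans (hCi 0), fun x hxε => ?_⟩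
  have hxb : x ∈ Metric.ball θ ε := by
    rw [Metric.mem_ball, dist_eq_norm]
    linarith
  obtain ⟨hx1, hx2⟩ := hball x hxb
  refine ⟨hx1, ?_⟩
  have hw : ∀ i, ∃ w : ℂ, (spv x (F i)).eval w = 0 ∧ ‖w - ω i‖ ≤ C i * ‖x - θ‖ ∧
      (i = 3 ∨ i = 4 → w = ω i) := fun i => hx i x (hx2 i)
  choose w hw1 hw2 hw3 using hw
  refine ⟨w, hw1, fun i => (hw2 i).trans ?_, hw3 3 (Or.inl rfl), hw3 4 (Or.inr rfl)⟩
  exact mul_le_mul_of_nonneg_right (hCi i) (norm_nonneg _)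

end Pool.Agent.MSL
end

end

section

/-! # L/S3_Curve: curves with given parameters near the original one -/

open Complex

noncomputable section

namespace Pool.Agent.MSL

open MSD MSP MSK

/-- algebra: from the relation to the scaling -/
theorem s3_scale (A B a b : ℂ) (hA : A ≠ 0) (hB : B ≠ 0) (ha : a ≠ 0) (hb : b ≠ 0)
    (h : B ^ 2 * a ^ 3 = A ^ 3 * b ^ 2) : ∃ om' : ℂ, om' ≠ 0 ∧ A / om' ^ 4 = a ∧ B / om' ^ 6 = b := by
  obtain ⟨s, hs⟩ := IsAlgClosed.exists_pow_nat_eq ((B / b) / (A / a)) (n := 2) (by norm_num)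
  have hρ : (B / b) / (A / a) ≠ 0 := div_ne_zero (div_ne_zero hB hb) (div_ne_zero hA ha)
  have hs0 : s ≠ 0 := by
    rintro rfl
    exact hρ (by rw [← hs]; ring)
  have h2 : s ^ 4 = A / a := by
    have : s ^ 4 = (s ^ 2) ^ 2 := by ring
    rw [this, hs]
    field_simp
    linear_combination h
  have h3 : s ^ 6 = B / b := by
    have : s ^ 6 = s ^ 2 * s ^ 4 := by ring
    rw [this, hs, h2]
    field_simp
  refine ⟨s, hs0, ?_, ?_⟩
  · rw [h2]; field_simp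
  · rw [h3]; field_simp

/-- the function `J` of the parameters -/
def s3J (p : ℂ × ℂ) : ℂ := 1728 * p.1 ^ 3 / (p.1 ^ 3 - 27 / 8 * p.2 ^ 2)

theorem s3_map (z : ℂ) (hz : 0 < z.im) (hj : deriv jj z ≠ 0) :
    Filter.map jj (nhds z) = nhds (jj z) := by
  have hd : DifferentiableOn ℂ jj {w : ℂ | 0 < w.im} := fun w hw =>
    (deriv_jj w hw).differentiableAt.differentiableWithinAt
  have hs : {w : ℂ | 0 < w.im} ∈ nhds z := (isOpen_lt continuous_const continuous_im).mem_nhds hz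
  have han : AnalyticAt ℂ jj z := hd.analyticAt hs
  exact han.hasStrictDerivAt.map_nhds_eq hj

/-- S3. PROOF. `e4 z, e6 z, dl z ≠ 0` (`G2_ne`), `jj = e4³/dl`, `dl = (e4³ - e6²)/1728` (definition). Let `a = w 0`, `b = w 2` near `a₀ = (2/3) π⁴ e4 z/om⁴ ≠ 0`, `b₀ = (8/27) π⁶ e6 z/om⁶ ≠ 0`. Put `u = a³/(2/3)³`, `v = b²/(8/27)²`; `u₀ = π¹² e4³/om¹²`, `v₀ = π¹² e6²/om¹²`; `u₀ ≠ v₀` as `dl z ≠ 0`.
The value `J = 1728 u/(u - v)` tends to `jj z` for `w → w₀`. As `jj` is analytic at `z` with `jj' z ≠ 0` (`deriv_jj`), it is open at `z` (`HasStrictDerivAt.map_nhds_eq` or `AnalyticAt.eventually_constant_or_nhds_le_map_nhds`): for `w` near `w₀` there is `τ` near `z` (so `Im τ > 0`, `e4 τ, e6 τ, dl τ ≠ 0`) with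
`jj τ = J`, i.e. `e4(τ)³/(e4(τ)³ - e6(τ)²) = u/(u - v)`, so `e4(τ)³ v = e6(τ)² u`. Let `ρ = ((8/27) π⁶ e6 τ/b)/((2/3) π⁴ e4 τ/a) ≠ 0`, `om' ` a square root of `ρ`. Then `om'⁴ = ρ² = (2/3) π⁴ e4 τ/a` by the relation, and `om'⁶ = ρ³ = (8/27) π⁶ e6 τ/b`. -/
theorem curves_near (z om : ℂ) (hz : 0 < z.im) (hom : om ≠ 0) (hj : deriv jj z ≠ 0) : ∃ r₀ : ℝ, 0 < r₀ ∧ ∀ a b : ℂ,
    ‖a - 2 / 3 * Real.pi ^ 4 * e4 z / om ^ 4‖ ≤ r₀ → ‖b - 8 / 27 * Real.pi ^ 6 * e6 z / om ^ 6‖ ≤ r₀ →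
      ∃ τ om' : ℂ, 0 < τ.im ∧ om' ≠ 0 ∧ 2 / 3 * Real.pi ^ 4 * e4 τ / om' ^ 4 = a ∧ 8 / 27 * Real.pi ^ 6 * e6 τ / om' ^ 6 = b := by
  obtain ⟨h4, h6, hd⟩ := G2_ne z hz hj
  have hpi : (Real.pi : ℂ) ≠ 0 := by exact_mod_cast Real.pi_ne_zero
  set a₀ : ℂ := 2 / 3 * Real.pi ^ 4 * e4 z / om ^ 4 with ha₀
  set b₀ : ℂ := 8 / 27 * Real.pi ^ 6 * e6 z / om ^ 6 with hb₀
  have ha0 : a₀ ≠ 0 := by
    rw [ha₀]
    exact div_ne_zero (mul_ne_zero (mul_ne_zero (by norm_num) (pow_ne_zero 4 hpi)) h4) (pow_ne_zero 4 hom)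
  have hb0 : b₀ ≠ 0 := by
    rw [hb₀]
    exact div_ne_zero (mul_ne_zero (mul_ne_zero (by norm_num) (pow_ne_zero 6 hpi)) h6) (pow_ne_zero 6 hom)
  have hden : a₀ ^ 3 - 27 / 8 * b₀ ^ 2 = 8 / 27 * Real.pi ^ 12 / om ^ 12 * (1728 * dl z) := by
    rw [ha₀, hb₀]
    unfold dl
    field_simp
    ring
  have hden0 : a₀ ^ 3 - 27 / 8 * b₀ ^ 2 ≠ 0 := by
    rw [hden]
    exact mul_ne_zero (div_ne_zero (mul_ne_zero (by norm_num) (pow_ne_zero 12 hpi)) (pow_ne_zero 12 hom))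
      (mul_ne_zero (by norm_num) hd)
  have hJ0 : s3J (a₀, b₀) = jj z := by
    unfold s3J
    rw [div_eq_iff hden0]
    show 1728 * a₀ ^ 3 = jj z * (a₀ ^ 3 - 27 / 8 * b₀ ^ 2)
    rw [hden]
    unfold jj
    rw [ha₀]
    field_simp
    ring
  -- the open set
  set U : Set ℂ := {τ | 0 < τ.im ∧ e4 τ ≠ 0 ∧ e6 τ ≠ 0 ∧ dl τ ≠ 0} with hU
  have c4 : ContinuousAt e4 z := (deriv_e4 z hz).continuousAt
  have c6 : ContinuousAt e6 z := (deriv_e6 z hz).continuousAt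
  have cd : ContinuousAt dl z := (deriv_dl z hz).continuousAt
  have hUz : U ∈ nhds z := by
    have e1 : ∀ᶠ τ in nhds z, 0 < τ.im :=
      (isOpen_lt continuous_const continuous_im).mem_nhds hz
    filter_upwards [e1, c4.eventually_ne h4, c6.eventually_ne h6, cd.eventually_ne hd] with τ t1 t2 t3 t4
    exact ⟨t1, t2, t3, t4⟩
  have hJU : jj '' U ∈ nhds (jj z) := by
    rw [← s3_map z hz hj]
    exact Filter.image_mem_map hUz
  have cJ : ContinuousAt s3J (a₀, b₀) := by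
    unfold s3J
    apply ContinuousAt.div
    · fun_prop
    · fun_prop
    · exact hden0
  have hS : ∀ᶠ p : ℂ × ℂ in nhds (a₀, b₀), p.1 ≠ 0 ∧ p.2 ≠ 0 ∧ p.1 ^ 3 - 27 / 8 * p.2 ^ 2 ≠ 0 ∧ s3J p ∈ jj '' U := by
    have e1 : ∀ᶠ p : ℂ × ℂ in nhds (a₀, b₀), p.1 ≠ 0 :=
      (continuous_fst.continuousAt (x := (a₀, b₀))).eventually_ne ha0
    have e2 : ∀ᶠ p : ℂ × ℂ in nhds (a₀, b₀), p.2 ≠ 0 :=
      (continuous_snd.continuousAt (x := (a₀, b₀))).eventually_ne hb0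
    have c3 : ContinuousAt (fun p : ℂ × ℂ => p.1 ^ 3 - 27 / 8 * p.2 ^ 2) (a₀, b₀) := by fun_prop
    have e3 : ∀ᶠ p : ℂ × ℂ in nhds (a₀, b₀), p.1 ^ 3 - 27 / 8 * p.2 ^ 2 ≠ 0 := c3.eventually_ne hden0
    have e4' : ∀ᶠ p : ℂ × ℂ in nhds (a₀, b₀), s3J p ∈ jj '' U := cJ (by rw [hJ0]; exact hJU)
    filter_upwards [e1, e2, e3, e4'] with p t1 t2 t3 t4
    exact ⟨t1, t2, t3, t4⟩
  obtain ⟨r, hr, hball⟩ := Metric.eventually_nhds_iff.1 hS
  refine ⟨r / 2, by positivity, fun a b ha hb => ?_⟩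
  have hab : dist ((a, b) : ℂ × ℂ) (a₀, b₀) < r := by
    rw [Prod.dist_eq, max_lt_iff]
    constructor
    · show dist a a₀ < r
      rw [dist_eq_norm]
      linarith
    · show dist b b₀ < r
      rw [dist_eq_norm]
      linarith
  obtain ⟨q1, q2, q3, τ, ⟨t1, t2, t3, t4⟩, hτ⟩ := hball hab
  simp only at q1 q2 q3
  have hrel : e4 τ ^ 3 * (27 / 8 * b ^ 2) = a ^ 3 * e6 τ ^ 2 := by
    unfold s3J at hτ
    simp only at hτ
    rw [jj, div_eq_div_iff t4 q3] at hτ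
    unfold dl at hτ
    linear_combination -hτ
  have hA : (2 / 3 * Real.pi ^ 4 * e4 τ : ℂ) ≠ 0 :=
    mul_ne_zero (mul_ne_zero (by norm_num) (pow_ne_zero 4 hpi)) t2
  have hB : (8 / 27 * Real.pi ^ 6 * e6 τ : ℂ) ≠ 0 :=
    mul_ne_zero (mul_ne_zero (by norm_num) (pow_ne_zero 6 hpi)) t3
  obtain ⟨s, hs0, hs1, hs2⟩ := s3_scale _ _ a b hA hB q1 q2 (by
    linear_combination (-(64 / 729 : ℂ) * (Real.pi : ℂ) ^ 12) * hrel)
  exact ⟨τ, s, t1, hs0, hs1, hs2⟩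

end Pool.Agent.MSL
end

end

section

/-! # L/M7_Core: the inequality for the conjugates of an algebraic point -/

open Filter

noncomputable section

namespace Pool.Agent.MSL

open MSD MSP MSK MSR

theorem m7_hgt_nonneg (α : ℂ) : 0 ≤ hgt α := by
  have hne : mz α ≠ 0 := by
    unfold mz
    split_ifs with h
    · exact h.choose_spec.1.ne_zero
    · exact Polynomial.X_ne_zero
  unfold hgt
  exact div_nonneg (Real.log_nonneg (one_le_MM _ hne)) (Nat.cast_nonneg _)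

theorem m7_den (P : Par 2) : ∃ q : ℕ, 1 ≤ q ∧ ∀ l, ∃ m : ℤ, (q : ℚ) * P.b l = m := by
  refine ⟨∏ l, (P.b l).den, Nat.one_le_iff_ne_zero.2 (Finset.prod_ne_zero_iff.2 fun l _ => (P.b l).den_nz), fun l => ?_⟩
  refine ⟨(∏ j ∈ Finset.univ.erase l, ((P.b j).den : ℤ)) * (P.b l).num, ?_⟩
  rw [← Finset.mul_prod_erase Finset.univ _ (Finset.mem_univ l)]
  push_cast
  have h := Rat.mul_den_eq_num (P.b l)
  calc ((P.b l).den : ℚ) * (∏ x ∈ Finset.univ.erase l, ((P.b x).den : ℚ)) * P.b l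
      = (∏ x ∈ Finset.univ.erase l, ((P.b x).den : ℚ)) * (P.b l * ((P.b l).den : ℚ)) := by ring
    _ = _ := by rw [h]

/-- the numerical conditions on `E` -/
theorem m7_event (X₀ C_Z : ℕ) (C₁ r₁ r₂ : ℝ) (hr1 : 0 < r₁) (hr2 : 0 < r₂) (hC1 : 1 ≤ C₁) : ∀ᶠ E : ℕ in atTop,
    2 ≤ E ∧ X₀ + C_Z * E ^ 3 ≤ E ^ 4 ∧ 3 * C₁ ≤ E ∧ (1 : ℝ) / E ≤ r₁ ∧ C₁ * (1 / E) ≤ r₂ := by
  have h1 : ∀ᶠ E : ℕ in atTop, 2 ≤ E := eventually_ge_atTop 2
  have h2 : ∀ᶠ E : ℕ in atTop, X₀ + C_Z ≤ E := eventually_ge_atTop _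
  have h3 : ∀ᶠ E : ℕ in atTop, 3 * C₁ ≤ (E : ℝ) := tendsto_natCast_atTop_atTop.eventually_ge_atTop _
  have h4 : ∀ᶠ E : ℕ in atTop, 1 / r₁ ≤ (E : ℝ) := tendsto_natCast_atTop_atTop.eventually_ge_atTop _
  have h5 : ∀ᶠ E : ℕ in atTop, C₁ / r₂ ≤ (E : ℝ) := tendsto_natCast_atTop_atTop.eventually_ge_atTop _
  filter_upwards [h1, h2, h3, h4, h5] with E e1 e2 e3 e4 e5
  have hE : (0 : ℝ) < E := by
    have : 0 < E := by omega
    exact_mod_cast this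
  refine ⟨e1, ?_, e3, ?_, ?_⟩
  · have h6 : 1 ≤ E ^ 3 := Nat.one_le_pow _ _ (by omega)
    calc X₀ + C_Z * E ^ 3 ≤ X₀ * E ^ 3 + C_Z * E ^ 3 := by
          have := Nat.mul_le_mul_left X₀ h6
          omega
      _ = (X₀ + C_Z) * E ^ 3 := by ring
      _ ≤ E * E ^ 3 := Nat.mul_le_mul_right _ e2
      _ = E ^ 4 := by ring
  · rw [div_le_iff₀ hE]
    rw [div_le_iff₀ hr1] at e4
    linarith
  · rw [mul_one_div, div_le_iff₀ hE]
    rw [div_le_iff₀ hr2] at e5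
    linarith

/-- the last step: arithmetic -/
theorem m7_arith (n k : ℝ) (E : ℕ) (hE : 2 ≤ E) (Cu Cl H S : ℝ) (hCu : 1 ≤ Cu) (hCl : 1 ≤ Cl) (hH : 0 ≤ H) (hk : k ≤ n) (hk0 : 0 ≤ k)
    (h : -(n * (Cl * (E : ℝ) ^ 3 * Real.log E * (1 + H))) ≤ k * (Cu * (E : ℝ) ^ 3 * Real.log E) - S * (E : ℝ) ^ 2 / Cu) :
    S ≤ Cu * (Cu + Cl) * n * E * Real.log E * (1 + H) := by
  have hE0 : (0 : ℝ) < E := by
    have : 0 < E := by omega
    exact_mod_cast this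
  have hlog : 0 ≤ Real.log (E : ℝ) := Real.log_natCast_nonneg E
  have h1 : S * (E : ℝ) ^ 2 / Cu ≤ (Cu + Cl) * n * (E : ℝ) ^ 3 * Real.log E * (1 + H) := by
    have h2 : k * (Cu * (E : ℝ) ^ 3 * Real.log E) ≤ n * (Cu * (E : ℝ) ^ 3 * Real.log E) :=
      mul_le_mul_of_nonneg_right hk (by positivity)
    have h3 : n * (Cu * (E : ℝ) ^ 3 * Real.log E) ≤ n * (Cu * (E : ℝ) ^ 3 * Real.log E) * (1 + H) := by
      have : 0 ≤ n * (Cu * (E : ℝ) ^ 3 * Real.log E) := by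
        have : 0 ≤ n := hk0.trans hk
        positivity
      nlinarith
    have h4 : (Cu + Cl) * n * (E : ℝ) ^ 3 * Real.log E * (1 + H) =
        n * (Cu * (E : ℝ) ^ 3 * Real.log E) * (1 + H) + n * (Cl * (E : ℝ) ^ 3 * Real.log E * (1 + H)) := by ring
    rw [h4]
    linarith
  have hCu0 : 0 < Cu := by linarith
  rw [div_le_iff₀ hCu0] at h1
  have h5 : S * (E : ℝ) ^ 2 ≤ (Cu * (Cu + Cl) * n * E * Real.log E * (1 + H)) * (E : ℝ) ^ 2 := by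
    refine h1.trans (le_of_eq ?_)
    ring
  exact le_of_mul_le_mul_right h5 (by positivity)

/-- M7a. The part for the near conjugates. PROOF. Constants: `r₁, C₁` from `near_lift`; `r₂` from `curves_near` for `z = P.z`, `om`; `X₀` from `Y_size (ω 0) (ω 2)`; `C_Z` from `hZ`; `M = M₀ + 12`; `C_u` from `upper_pt`, `C_l` from `lower` (with this `M`; `q` a common denominator of the `P.b l`). `E` large: `X₀ + C_Z E³ ≤ E⁴`, `3 C₁ ≤ E`,
`E^(M₀) E^(-M) ≤ min r₁ (r₂/C₁)`. For `g ∈ N`: `‖cj g x - θ‖ ≤ E^(M₀) exp (-μ g) =: η g ≤ E^(M₀ - M) ≤ r₁` as `μ g ≥ M log E`. `lift_sum` gives `w`, `N'`. Take `g₀ ∈ N'`: `‖g₀ (w 0) - ω 0‖ ≤ C₁ η ≤ r₂` and the same for `w 2`: `curves_near` gives `τ', om'`. `exists_pt` with `X₁ = E⁴` gives `p` (`p.x = x`, `p.w = w`) and rows `a, k` with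
`(DL (p.v P) a k).det ≠ 0`. Let `Y₀ l` be a square root of `4X³ - 2 ω 0 X - ω 2` (`Complex` : `IsSquare`/`cpow`), `1 ≤ ‖Y₀ l‖ ≤ 3X²` (`Y_size`). `sign_sum` with `ε g = C₁ η g` gives `Y₁, N''`. `p₀ = ⟨θ, ω, p.X, Y₁, _⟩`, and for `g ∈ N''` `p' = p.map (embedding ∘ g)`: `‖p'.w i - ω i‖ ≤ C₁ η g ≤ E^M exp (-μ g)`,
`‖p'.Y l - Y₁ l‖ ≤ 3 E⁴ C₁ η g ≤ E^M exp (-μ g)`. `upper_pt`: `‖g det‖ ≤ exp (C_u E³ log E - μ g E²/C_u)` (`map_v`, `DL_map`), so `log ‖g det‖ ≤ ..` (`det ≠ 0`). `lower` with `N''`: `-card G C_l E³ log E (1 + ..) ≤ ∑_(N'') (C_u E³ log E - μ g E²/C_u)`, so `∑_(N'') μ g ≤ C_u (C_u + C_l) card G E log E (1 + ..)`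
(`card N'' ≤ card G`, `hgt ≥ 0`). Multiply by `8 ∏ (natDegree (F i) + 1)`. -/
theorem core_near (P : Par 2) (hD : DetSmall P) (hZ : ZeroEst P) (hj : deriv jj P.z ≠ 0) (om kap : ℂ) (hom : om ^ 2 = Real.pi) (hkap : kap = sE P.z / Real.pi)
    (θ : Fin 2 → ℂ) (F : Fin 5 → FP) (hF : FD θ (par5 P.z P.z om kap) F) (M₀ : ℕ) : ∃ (C : ℝ) (M : ℕ), 1 ≤ C ∧ 1 ≤ M ∧ ∀ᶠ E : ℕ in atTop,
      ∀ (L : IntermediateField ℚ ℂ) [FiniteDimensional ℚ L] [IsGalois ℚ L] (x : Fin 2 → L), Big L F x (E ^ 4) → ∀ u v : ℕ, u ≠ v → u ≤ E ^ M₀ → v ≤ E ^ M₀ →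
        ∀ (N : Finset (L ≃ₐ[ℚ] L)) (μ : (L ≃ₐ[ℚ] L) → ℝ), (∀ g ∈ N, M * Real.log E ≤ μ g ∧ μ g ≤ E ^ 4 ∧ ‖cj g x - θ‖ ≤ E ^ M₀ * Real.exp (-μ g)) →
          ∑ g ∈ N, μ g ≤ C * Fintype.card (L ≃ₐ[ℚ] L) * E * Real.log E *
            (1 + hgt ((x 0 + u * x 1 : L) : ℂ) + hgt ((x 0 + v * x 1 : L) : ℂ)) := by
  classical
  have hom0 : om ≠ 0 := by
    intro h
    rw [h] at hom
    have : (Real.pi : ℂ) = 0 := by rw [← hom]; ring
    exact Real.pi_ne_zero (by exact_mod_cast this)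
  obtain ⟨ω, hω⟩ : ∃ ω, ω = par5 P.z P.z om kap := ⟨_, rfl⟩
  have hω0 : ω 0 = 2 / 3 * Real.pi ^ 4 * e4 P.z / om ^ 4 := by rw [hω]; rfl
  have hω2 : ω 2 = 8 / 27 * Real.pi ^ 6 * e6 P.z / om ^ 6 := by rw [hω]; rfl
  have hω3 : ω 3 = P.z := by rw [hω]; rfl
  have hω4 : ω 4 = rh := by rw [hω]; rfl
  rw [← hω] at hF
  obtain ⟨r₁, C₁, hr1, hC1, hn⟩ := near_lift θ ω F hF
  obtain ⟨r₂, hr2, hcn⟩ := curves_near P.z om P.im hom0 hj
  obtain ⟨X₀, hX0, hYs⟩ := Y_size (ω 0) (ω 2)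
  obtain ⟨C_Z, hZs⟩ := hZ
  obtain ⟨M, hM⟩ : ∃ M, M = M₀ + 12 := ⟨_, rfl⟩
  obtain ⟨Cu, hCu, hup⟩ := upper_pt P hD om kap hom hkap M (by omega)
  obtain ⟨q, hq0, hq⟩ := m7_den P
  obtain ⟨Cl, hCl, hlo⟩ := lower P F q hq0 hq M
  have hPi : (1 : ℝ) ≤ ∏ i, ((F i).natDegree + 1 : ℝ) := by
    have h0 : ∀ i ∈ (Finset.univ : Finset (Fin 5)), (1 : ℝ) ≤ ((F i).natDegree + 1 : ℝ) := fun i _ => by
      have : (0 : ℝ) ≤ (F i).natDegree := Nat.cast_nonneg _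
      linarith
    calc (1 : ℝ) = ∏ _i : Fin 5, (1 : ℝ) := by simp
      _ ≤ _ := Finset.prod_le_prod (fun _ _ => zero_le_one) h0
  obtain ⟨Pi, hPid⟩ : ∃ Pi : ℝ, Pi = ∏ i, ((F i).natDegree + 1 : ℝ) := ⟨_, rfl⟩
  rw [← hPid] at hPi
  refine ⟨Pi * 8 * (Cu * (Cu + Cl)), M, ?_, by omega, ?_⟩
  · have h1 : (1 : ℝ) ≤ Cu * (Cu + Cl) := by nlinarith
    nlinarith
  filter_upwards [hup, m7_event X₀ C_Z C₁ r₁ r₂ hr1 hr2 hC1] with E hupE hev
  obtain ⟨hE2, hEX, hE3, hEr1, hEr2⟩ := hev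
  intro L _ _ x hB u v huv hu hv N μ hN
  have hE0 : (0 : ℝ) < E := by
    have : 0 < E := by omega
    exact_mod_cast this
  have hE1 : (1 : ℝ) ≤ E := by
    have : 1 ≤ E := by omega
    exact_mod_cast this
  have hlog : 0 ≤ Real.log (E : ℝ) := Real.log_natCast_nonneg E
  have hH1 := m7_hgt_nonneg ((x 0 + u * x 1 : L) : ℂ)
  have hH2 := m7_hgt_nonneg ((x 0 + v * x 1 : L) : ℂ)
  obtain ⟨H, hH⟩ : ∃ H : ℝ, H = hgt ((x 0 + u * x 1 : L) : ℂ) + hgt ((x 0 + v * x 1 : L) : ℂ) := ⟨_, rfl⟩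
  have hH0 : 0 ≤ H := by rw [hH]; linarith
  have hHr : 1 + hgt ((x 0 + u * x 1 : L) : ℂ) + hgt ((x 0 + v * x 1 : L) : ℂ) = 1 + H := by rw [hH]; ring
  rw [hHr]
  obtain ⟨n, hncard⟩ : ∃ n : ℕ, n = Fintype.card (L ≃ₐ[ℚ] L) := ⟨_, rfl⟩
  rw [← hncard]
  by_cases hne : N.Nonempty
  swap
  · rw [Finset.not_nonempty_iff_eq_empty] at hne
    rw [hne, Finset.sum_empty]
    have : 0 ≤ Pi * 8 * (Cu * (Cu + Cl)) := by
      have h1 : (0 : ℝ) ≤ Cu * (Cu + Cl) := by nlinarith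
      nlinarith
    positivity
  have hμ0 : ∀ g ∈ N, 0 ≤ μ g := fun g hg => le_trans (by positivity) (hN g hg).1
  have hEM : ∀ g ∈ N, (E : ℝ) ^ M * Real.exp (-μ g) ≤ 1 := by
    intro g hg
    have h1 := (hN g hg).1
    have h2 : (E : ℝ) ^ M = Real.exp (M * Real.log E) := by
      rw [mul_comm, Real.exp_mul, Real.exp_log hE0, Real.rpow_natCast]
    rw [h2, ← Real.exp_add]
    exact Real.exp_le_one_iff.2 (by linarith)
  have hMs : (E : ℝ) ^ M = (E : ℝ) ^ M₀ * (E : ℝ) ^ 12 := by rw [hM, pow_add]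
  -- the size of eta
  have hE12 : ∀ k : ℕ, k ≤ 12 → (E : ℝ) ^ k ≤ (E : ℝ) ^ 12 := fun k hk => pow_le_pow_right₀ hE1 hk
  have heta : ∀ g ∈ N, (E : ℝ) ^ M₀ * Real.exp (-μ g) ≤ 1 / E := by
    intro g hg
    rw [le_div_iff₀ hE0]
    have h1 := hEM g hg
    rw [hMs] at h1
    have h2 : (E : ℝ) ^ M₀ * Real.exp (-μ g) * E ≤ (E : ℝ) ^ M₀ * Real.exp (-μ g) * (E : ℝ) ^ 12 := by
      apply mul_le_mul_of_nonneg_left _ (by positivity)
      have := hE12 1 (by norm_num)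
      rwa [pow_one] at this
    refine h2.trans (le_trans (le_of_eq ?_) h1)
    ring
  have hnear : ∀ g ∈ N, ‖cj g x - θ‖ ≤ r₁ := fun g hg => ((hN g hg).2.2.trans (heta g hg)).trans hEr1
  obtain ⟨hlc, w, N', hN'N, hN'ne, hw, hwn, hs1⟩ := lift_sum L θ ω F r₁ C₁ hn x (E ^ 4) hB N hnear hne μ hμ0
  obtain ⟨g₀, hg₀⟩ := hN'ne
  have hC10 : 0 ≤ C₁ := by linarith
  have hdist : ∀ g ∈ N', ∀ i, ‖((g (w i) : L) : ℂ) - ω i‖ ≤ C₁ * ((E : ℝ) ^ M₀ * Real.exp (-μ g)) := by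
    intro g hg i
    exact ((hwn g hg).1 i).trans (mul_le_mul_of_nonneg_left (hN g (hN'N hg)).2.2 hC10)
  have hdist2 : ∀ i, ‖((g₀ (w i) : L) : ℂ) - ω i‖ ≤ r₂ := fun i =>
    ((hdist g₀ hg₀ i).trans (mul_le_mul_of_nonneg_left (heta g₀ (hN'N hg₀)) hC10)).trans hEr2
  obtain ⟨τ', om', hτ', hom', h0', h2'⟩ := hcn ((g₀ (w 0) : L) : ℂ) ((g₀ (w 2) : L) : ℂ)
    (by rw [← hω0]; exact hdist2 0) (by rw [← hω2]; exact hdist2 2)
  obtain ⟨p, hpx, hpw, hpX, a, k, ha, hk, hdet⟩ := exists_pt L P C_Z X₀ (E ^ 4) E (by omega) hZs hEX F x hB w hw g₀ τ' om' hτ' hom' h0' h2'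
    (by rw [(hwn g₀ hg₀).2.1, hω3]) (by rw [(hwn g₀ hg₀).2.2, hω4])
  have hsq : ∀ l, ∃ y : ℂ, y ^ 2 = 4 * (p.X l : ℂ) ^ 3 - 2 * ω 0 * p.X l - ω 2 := fun l =>
    IsAlgClosed.exists_pow_nat_eq _ (by norm_num)
  choose Y₀ hY₀ using hsq
  have hYb : ∀ l, 1 ≤ ‖Y₀ l‖ ∧ ‖Y₀ l‖ ≤ 3 * (p.X l : ℝ) ^ 2 := fun l => hYs (p.X l) (Y₀ l) (hpX l).1 (hY₀ l)
  obtain ⟨Y₁, N'', hN''N', hN''ne, hY1, hYn, hs2⟩ := sign_sum L p ω Y₀ hY₀ (fun l => hX0.trans (hpX l).1) (fun l => (hYb l).1) N' ⟨g₀, hg₀⟩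
    (fun g => C₁ * ((E : ℝ) ^ M₀ * Real.exp (-μ g))) (fun g hg => by rw [hpw]; exact ⟨hdist g hg 0, hdist g hg 2⟩) μ
    (fun g hg => hμ0 g (hN'N hg))
  have hY1s : ∀ l, Y₁ l ^ 2 = 4 * (p.X l : ℂ) ^ 3 - 2 * ω 0 * p.X l - ω 2 := by
    intro l
    rcases hY1 l with h | h
    · rw [h]; exact hY₀ l
    · rw [h, neg_sq]; exact hY₀ l
  have hY1n : ∀ l, ‖Y₁ l‖ ≤ 3 * (p.X l : ℝ) ^ 2 := by
    intro l
    rcases hY1 l with h | h
    · rw [h]; exact (hYb l).2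
    · rw [h, norm_neg]; exact (hYb l).2
  -- the upper bound
  have hupper : ∀ g ∈ N'', Real.log ‖((g (DL (p.v P) a k).det : L) : ℂ)‖ ≤ Cu * (E : ℝ) ^ 3 * Real.log E - μ g * (E : ℝ) ^ 2 / Cu := by
    intro g hg
    have hg' := hN''N' hg
    have hgN := hN'N hg'
    obtain ⟨f, hf⟩ : ∃ f : L →+* ℂ, ∀ y : L, f y = ((g y : L) : ℂ) := ⟨(algebraMap L ℂ).comp (g : L →+* L), fun y => rfl⟩
    have hsmall : C₁ * ((E : ℝ) ^ M₀ * Real.exp (-μ g)) ≤ (E : ℝ) ^ M * Real.exp (-μ g) := by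
      rw [hMs]
      have h1 : C₁ ≤ (E : ℝ) ^ 12 := by
        have := hE12 1 (by norm_num)
        rw [pow_one] at this
        linarith
      calc C₁ * ((E : ℝ) ^ M₀ * Real.exp (-μ g)) ≤ (E : ℝ) ^ 12 * ((E : ℝ) ^ M₀ * Real.exp (-μ g)) :=
            mul_le_mul_of_nonneg_right h1 (by positivity)
        _ = _ := by ring
    have hb := hupE ⟨θ, ω, p.X, Y₁, hY1s⟩ (p.map f) hω rfl (fun l => (hpX l).2) hY1n (μ g) (hμ0 g hgN) (hN g hgN).2.1 (hEM g hgN)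
      (fun i => by
        have h1 : (p.map f).w i = ((g (w i) : L) : ℂ) := by
          rw [← hpw, ← hf]
          rfl
        rw [h1]
        exact (hdist g hg' i).trans hsmall)
      (fun l => by
        have h1 : (p.map f).Y l = ((g (p.Y l) : L) : ℂ) := by
          rw [← hf]
          rfl
        rw [h1]
        refine (hYn g hg l).trans ?_
        have h2 : (p.X l : ℝ) ≤ (E : ℝ) ^ 4 := by exact_mod_cast (hpX l).2
        rw [hMs]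
        have h3 : 3 * (p.X l : ℝ) * C₁ ≤ (E : ℝ) ^ 12 := by
          have h4 : 3 * (p.X l : ℝ) * C₁ ≤ (E : ℝ) ^ 4 * E := by
            have h5 : 3 * (p.X l : ℝ) * C₁ = (p.X l : ℝ) * (3 * C₁) := by ring
            rw [h5]
            exact mul_le_mul h2 hE3 (by positivity) (by positivity)
          have h6 : (E : ℝ) ^ 4 * E = (E : ℝ) ^ 5 := by ring
          rw [h6] at h4
          exact h4.trans (hE12 5 (by norm_num))
        calc 3 * (p.X l : ℝ) * (C₁ * ((E : ℝ) ^ M₀ * Real.exp (-μ g))) = (3 * (p.X l : ℝ) * C₁) * ((E : ℝ) ^ M₀ * Real.exp (-μ g)) := by ring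
          _ ≤ (E : ℝ) ^ 12 * ((E : ℝ) ^ M₀ * Real.exp (-μ g)) := mul_le_mul_of_nonneg_right h3 (by positivity)
          _ = _ := by ring)
      a k ha hk
    have hv : (p.map f).v P = fun s => f (p.v P s) := funext fun s => map_v P f p s
    rw [hv, DL_map, hf] at hb
    have hpos : 0 < ‖((g (DL (p.v P) a k).det : L) : ℂ)‖ := by
      rw [norm_pos_iff]
      intro h
      apply hdet
      have h1 : (g (DL (p.v P) a k).det : L) = 0 := by exact_mod_cast h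
      exact (map_eq_zero_iff g g.injective).1 h1
    have hl := Real.log_le_log hpos hb
    rwa [Real.log_exp] at hl
  have hXM : ∀ l, p.X l ≤ E ^ M := fun l => (hpX l).2.trans (Nat.pow_le_pow_right (by omega) (by omega))
  have hM0M : E ^ M₀ ≤ E ^ M := Nat.pow_le_pow_right (by omega) (by omega)
  have hlower := hlo L p (by rw [hpx, hpw]; exact hw) (by rw [hpx]; exact hlc) E hE2 hXM u v huv (hu.trans hM0M) (hv.trans hM0M) a k ha hk hdet N''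
  rw [hpx, hHr, ← hncard] at hlower
  have hsum : ∑ g ∈ N'', Real.log ‖((g (DL (p.v P) a k).det : L) : ℂ)‖ ≤
      (N''.card : ℝ) * (Cu * (E : ℝ) ^ 3 * Real.log E) - (∑ g ∈ N'', μ g) * (E : ℝ) ^ 2 / Cu := by
    refine (Finset.sum_le_sum hupper).trans (le_of_eq ?_)
    rw [Finset.sum_sub_distrib, Finset.sum_const, nsmul_eq_mul, Finset.sum_mul, Finset.sum_div]
  have hcard : (N''.card : ℝ) ≤ n := by
    rw [hncard]
    exact_mod_cast Finset.card_le_univ N''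
  have hfin := m7_arith n N''.card E hE2 Cu Cl H (∑ g ∈ N'', μ g) hCu hCl hH0 hcard (Nat.cast_nonneg _) (hlower.trans hsum)
  have hPi0 : 0 ≤ Pi := by linarith
  rw [← hPid] at hs1
  calc ∑ g ∈ N, μ g ≤ Pi * ∑ g ∈ N', μ g := hs1
    _ ≤ Pi * (8 * ∑ g ∈ N'', μ g) := mul_le_mul_of_nonneg_left hs2 hPi0
    _ ≤ Pi * (8 * (Cu * (Cu + Cl) * n * E * Real.log E * (1 + H))) :=
        mul_le_mul_of_nonneg_left (mul_le_mul_of_nonneg_left hfin (by norm_num)) hPi0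
    _ = _ := by ring

/-- M7b. PROOF. `C, M` from `core_near`, `μ g = min (E⁴) (lp ‖g α - y‖)` where `α = x 0 + u x 1`, `y = θ 0 + u θ 1`. `N = {g : M log E ≤ μ g}`. For `g ∉ N` the term is `≤ M log E`, together `≤ card G M log E ≤ card G M E log E (1 + ..)` (`hgt ≥ 0`). For `g ∈ N`: `μ g > 0`, so `lp r = - log r ≥ μ g` for `r = ‖g α - y‖ > 0`,
`r ≤ exp (-μ g)`, and `‖cj g x - θ‖ ≤ E^M₀ r` (sup norm on `Fin 2 → ℂ`). -/
theorem core_ineq (P : Par 2) (hD : DetSmall P) (hZ : ZeroEst P) (hj : deriv jj P.z ≠ 0) (om kap : ℂ) (hom : om ^ 2 = Real.pi) (hkap : kap = sE P.z / Real.pi)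
    (θ : Fin 2 → ℂ) (F : Fin 5 → FP) (hF : FD θ (par5 P.z P.z om kap) F) (M₀ : ℕ) : ∃ C : ℝ, 1 ≤ C ∧ ∀ᶠ E : ℕ in atTop,
      ∀ (L : IntermediateField ℚ ℂ) [FiniteDimensional ℚ L] [IsGalois ℚ L] (x : Fin 2 → L), Big L F x (E ^ 4) → ∀ u v : ℕ, u ≠ v → u ≤ E ^ M₀ → v ≤ E ^ M₀ →
        (∀ (g : L ≃ₐ[ℚ] L) (j : Fin 2), ‖cj g x j - θ j‖ ≤ E ^ M₀ * ‖((g (x 0 + u * x 1) : L) : ℂ) - (θ 0 + u * θ 1)‖) →
          ∑ g : L ≃ₐ[ℚ] L, min ((E : ℝ) ^ 4) (lp ‖((g (x 0 + u * x 1) : L) : ℂ) - (θ 0 + u * θ 1)‖) ≤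
            C * Fintype.card (L ≃ₐ[ℚ] L) * E * Real.log E * (1 + hgt ((x 0 + u * x 1 : L) : ℂ) + hgt ((x 0 + v * x 1 : L) : ℂ)) := by
  classical
  obtain ⟨C, M, hC, hM, hc⟩ := core_near P hD hZ hj om kap hom hkap θ F hF M₀
  refine ⟨C + M, by have : (0 : ℝ) ≤ M := Nat.cast_nonneg M; linarith, ?_⟩
  filter_upwards [hc, eventually_ge_atTop 2] with E hcE hE2
  intro L _ _ x hB u v huv hu hv hx
  have hE0 : (0 : ℝ) < E := by
    have : 0 < E := by omega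
    exact_mod_cast this
  have hE1 : (1 : ℝ) ≤ E := by
    have : 1 ≤ E := by omega
    exact_mod_cast this
  have hlog : 0 < Real.log (E : ℝ) := Real.log_pos (by exact_mod_cast (by omega : 1 < E))
  have hM1 : (1 : ℝ) ≤ M := by exact_mod_cast hM
  obtain ⟨μ, hμ⟩ : ∃ μ : (L ≃ₐ[ℚ] L) → ℝ, ∀ g, μ g = min ((E : ℝ) ^ 4) (lp ‖((g (x 0 + u * x 1) : L) : ℂ) - (θ 0 + u * θ 1)‖) :=
    ⟨_, fun _ => rfl⟩
  have hconv : ∑ g : L ≃ₐ[ℚ] L, min ((E : ℝ) ^ 4) (lp ‖((g (x 0 + u * x 1) : L) : ℂ) - (θ 0 + u * θ 1)‖) = ∑ g : L ≃ₐ[ℚ] L, μ g :=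
    Finset.sum_congr rfl fun g _ => (hμ g).symm
  rw [hconv]
  have hH1 := m7_hgt_nonneg ((x 0 + u * x 1 : L) : ℂ)
  have hH2 := m7_hgt_nonneg ((x 0 + v * x 1 : L) : ℂ)
  obtain ⟨N, hNd⟩ : ∃ N : Finset (L ≃ₐ[ℚ] L), N = Finset.univ.filter fun g => M * Real.log E ≤ μ g := ⟨_, rfl⟩
  have hNs : ∀ g ∈ N, M * Real.log E ≤ μ g ∧ μ g ≤ E ^ 4 ∧ ‖cj g x - θ‖ ≤ E ^ M₀ * Real.exp (-μ g) := by
    intro g hg
    rw [hNd, Finset.mem_filter] at hg
    refine ⟨hg.2, by rw [hμ]; exact min_le_left _ _, ?_⟩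
    have hpos : 0 < μ g := lt_of_lt_of_le (by positivity) hg.2
    have h1 : μ g ≤ lp ‖((g (x 0 + u * x 1) : L) : ℂ) - (θ 0 + u * θ 1)‖ := by rw [hμ]; exact min_le_right _ _
    obtain ⟨r, hr⟩ : ∃ r, r = ‖((g (x 0 + u * x 1) : L) : ℂ) - (θ 0 + u * θ 1)‖ := ⟨_, rfl⟩
    have hr0 : 0 ≤ r := by rw [hr]; exact norm_nonneg _
    have hxg := hx g
    rw [← hr] at h1 hxg
    have h2 : μ g ≤ -Real.log r := by
      unfold lp at h1
      rcases le_max_iff.1 h1 with h | h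
      · linarith
      · exact h
    have hrpos : 0 < r := by
      rcases hr0.lt_or_eq with h | h
      · exact h
      · exfalso
        rw [← h, Real.log_zero] at h2
        linarith
    have h3 : r ≤ Real.exp (-μ g) := by
      rw [← Real.exp_log hrpos]
      exact Real.exp_le_exp.2 (by linarith)
    rw [pi_norm_le_iff_of_nonneg (by positivity)]
    intro j
    rw [Pi.sub_apply]
    exact (hxg j).trans (mul_le_mul_of_nonneg_left h3 (by positivity))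
  have h1 := hcE L x hB u v huv hu hv N μ hNs
  have h2 : ∑ g ∈ Finset.univ.filter (fun g => ¬ M * Real.log E ≤ μ g), μ g ≤
      (Fintype.card (L ≃ₐ[ℚ] L) : ℝ) * (M * Real.log E) := by
    refine (Finset.sum_le_card_nsmul _ _ (M * Real.log E) fun g hg => ?_).trans ?_
    · rw [Finset.mem_filter] at hg
      exact (not_le.1 hg.2).le
    · rw [nsmul_eq_mul]
      apply mul_le_mul_of_nonneg_right _ (by positivity)
      exact_mod_cast Finset.card_le_univ _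
  rw [← Finset.sum_filter_add_sum_filter_not Finset.univ (fun g => M * Real.log E ≤ μ g), ← hNd]
  have h3 : (Fintype.card (L ≃ₐ[ℚ] L) : ℝ) * (M * Real.log E) ≤
      M * Fintype.card (L ≃ₐ[ℚ] L) * E * Real.log E * (1 + hgt ((x 0 + u * x 1 : L) : ℂ) + hgt ((x 0 + v * x 1 : L) : ℂ)) := by
    have h4 : (1 : ℝ) ≤ E * (1 + hgt ((x 0 + u * x 1 : L) : ℂ) + hgt ((x 0 + v * x 1 : L) : ℂ)) := by nlinarith
    have h5 : (0 : ℝ) ≤ (Fintype.card (L ≃ₐ[ℚ] L) : ℝ) * (M * Real.log E) := by positivity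
    calc (Fintype.card (L ≃ₐ[ℚ] L) : ℝ) * (M * Real.log E) ≤
        (Fintype.card (L ≃ₐ[ℚ] L) : ℝ) * (M * Real.log E) * (E * (1 + hgt ((x 0 + u * x 1 : L) : ℂ) + hgt ((x 0 + v * x 1 : L) : ℂ))) :=
          le_mul_of_one_le_right h5 h4
      _ = _ := by ring
  calc _ ≤ _ := add_le_add h1 (h2.trans h3)
    _ = _ := by ring

end Pool.Agent.MSL
end

end

section

/-! # L/M8_Contra: no algebraic point is extremely close -/

open Filter Polynomial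

noncomputable section

namespace Pool.Agent.MSL

open MSD MSP MSK MSR

theorem m8_sum (L : IntermediateField ℚ ℂ) [FiniteDimensional ℚ L] [IsGalois ℚ L] (α : L) (y : ℂ) (hy : aeval y (mz (α : ℂ)) ≠ 0) :
    ∃ (R : Finset L) (s : ℕ), 1 ≤ s ∧ R.card = (mz (α : ℂ)).natDegree ∧ s * R.card = Fintype.card (L ≃ₐ[ℚ] L) ∧
      (-Real.log ‖aeval y (mz (α : ℂ))‖ ≤ ∑ r ∈ R, lp ‖(r : ℂ) - y‖) ∧
      (∀ φ : L → ℝ, ∑ g : L ≃ₐ[ℚ] L, φ (g α) = s * ∑ r ∈ R, φ r) ∧ (∀ r ∈ R, ∃ g : L ≃ₐ[ℚ] L, g α = r) := by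
  classical
  obtain ⟨R, s, hs, hR, hsR, hfac, hmem, hprod⟩ := prod_gal L α
  refine ⟨R, s, hs, hR, hsR, ?_, ?_, ?_⟩
  · have h1 : (mz (α : ℂ)).map (algebraMap ℤ ℂ) = C ((mz (α : ℂ)).leadingCoeff : ℂ) * ∏ r ∈ R, (X - C (r : ℂ)) := by
      have := congrArg (Polynomial.map (algebraMap L ℂ)) hfac
      rw [Polynomial.map_map] at this
      rw [show (algebraMap ℤ ℂ) = (algebraMap L ℂ).comp (algebraMap ℤ L) from Subsingleton.elim _ _, this]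
      simp only [Polynomial.map_mul, Polynomial.map_C, Polynomial.map_prod, Polynomial.map_sub, Polynomial.map_X, map_intCast, Polynomial.map_intCast]
      rfl
    have h2 : aeval y (mz (α : ℂ)) = ((mz (α : ℂ)).leadingCoeff : ℂ) * ∏ r ∈ R, (y - (r : ℂ)) := by
      rw [← Polynomial.eval_map_algebraMap, h1]
      simp [Polynomial.eval_prod]
    rw [h2] at hy ⊢
    have hlc : ((mz (α : ℂ)).leadingCoeff : ℂ) ≠ 0 := left_ne_zero_of_mul hy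
    have hpr : ∏ r ∈ R, (y - (r : ℂ)) ≠ 0 := right_ne_zero_of_mul hy
    have hlc1 : (1 : ℝ) ≤ ‖((mz (α : ℂ)).leadingCoeff : ℂ)‖ := by
      have h3 : (mz (α : ℂ)).leadingCoeff ≠ 0 := by
        intro h
        apply hlc
        rw [h]
        simp
      rw [Complex.norm_intCast]
      exact_mod_cast Int.one_le_abs h3
    rw [norm_mul, norm_prod, Real.log_mul (by positivity) (by rw [← norm_prod]; exact norm_ne_zero_iff.mpr hpr),
      Real.log_prod (fun r hr => norm_ne_zero_iff.mpr (Finset.prod_ne_zero_iff.mp hpr r hr))]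
    have h4 : ∑ r ∈ R, (-Real.log ‖y - (r : ℂ)‖) ≤ ∑ r ∈ R, lp ‖(r : ℂ) - y‖ := by
      refine Finset.sum_le_sum fun r _ => ?_
      rw [norm_sub_rev]
      exact le_max_right _ _
    rw [Finset.sum_neg_distrib] at h4
    have h5 := Real.log_nonneg hlc1
    linarith
  · intro φ
    have h := hprod (Multiplicative ℝ) (fun x => Multiplicative.ofAdd (φ x))
    have h' := congrArg Multiplicative.toAdd h
    rw [toAdd_prod, toAdd_pow, toAdd_prod] at h'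
    simpa using h'
  · intro r hr
    by_contra hcon
    push Not at hcon
    have h := hprod ℕ (fun t => if t = r then 0 else 1)
    rw [Finset.prod_eq_one (fun g _ => by rw [if_neg (hcon g)]), Finset.prod_eq_zero hr (by simp), zero_pow (by omega)] at h
    exact one_ne_zero h

/-- M8a. PROOF. `prod_gal` for `α` gives `R`, `s`, `s card R = card G`, `card R = n = natDegree (mz α)`. With `M = Multiplicative ℝ`: `∑_g φ (g α) = s ∑_(r ∈ R) φ r`, `φ r = min B (lp ‖r - y‖) ≥ 0`. If some `r ∈ R` has `lp ‖r - y‖ ≥ B` then `n ∑_g ≥ n s B = card G B`. Otherwise `φ r = lp ‖r - y‖`, and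
`‖aeval y (mz α)‖ = |lc| ∏_(r ∈ R) ‖y - r‖` (map the factorization of `prod_gal` to `ℂ`), `|lc| ≥ 1`: `-log ‖aeval y (mz α)‖ ≤ ∑_R (-log ‖r - y‖) ≤ ∑_R lp ‖r - y‖`, so `n ∑_g = n s ∑_R ≥ card G (-log ‖..‖)`. -/
theorem conj_sum (L : IntermediateField ℚ ℂ) [FiniteDimensional ℚ L] [IsGalois ℚ L] (α : L) (y : ℂ) (hy : aeval y (mz (α : ℂ)) ≠ 0) (B : ℝ) (hB : 0 ≤ B) :
    (Fintype.card (L ≃ₐ[ℚ] L) : ℝ) * (-Real.log ‖aeval y (mz (α : ℂ))‖) ≤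
        (mz (α : ℂ)).natDegree * ∑ g : L ≃ₐ[ℚ] L, min B (lp ‖((g α : L) : ℂ) - y‖) ∨
      (Fintype.card (L ≃ₐ[ℚ] L) : ℝ) * B ≤ (mz (α : ℂ)).natDegree * ∑ g : L ≃ₐ[ℚ] L, min B (lp ‖((g α : L) : ℂ) - y‖) := by
  obtain ⟨R, s, hs, hR, hsR, hlog, hsum, -⟩ := m8_sum L α y hy
  have hlp : ∀ t : ℝ, 0 ≤ lp t := fun t => le_max_left _ _
  have key : ((mz (α : ℂ)).natDegree : ℝ) * ∑ g : L ≃ₐ[ℚ] L, min B (lp ‖((g α : L) : ℂ) - y‖) =
      (Fintype.card (L ≃ₐ[ℚ] L) : ℝ) * ∑ r ∈ R, min B (lp ‖(r : ℂ) - y‖) := by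
    rw [hsum (fun r => min B (lp ‖(r : ℂ) - y‖)), ← hsR, hR]
    push_cast
    ring
  rw [key]
  by_cases h : ∃ r ∈ R, B ≤ lp ‖(r : ℂ) - y‖
  · right
    obtain ⟨r, hr, hB'⟩ := h
    refine mul_le_mul_of_nonneg_left ?_ (Nat.cast_nonneg _)
    have h1 : min B (lp ‖(r : ℂ) - y‖) = B := min_eq_left hB'
    calc B = min B (lp ‖(r : ℂ) - y‖) := h1.symm
      _ ≤ _ := Finset.single_le_sum (f := fun r : L => min B (lp ‖(r : ℂ) - y‖)) (fun i _ => le_min hB (hlp _)) hr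
  · left
    push Not at h
    refine mul_le_mul_of_nonneg_left ?_ (Nat.cast_nonneg _)
    refine hlog.trans (le_of_eq (Finset.sum_congr rfl fun r hr => ?_))
    rw [min_eq_right (h r hr).le]

theorem m8_ev2 (L : IntermediateField ℚ ℂ) (P : BP) (f : L →+* ℂ) (x y : L) :
    ev2 P (f x) (f y) = f ((P.map (Polynomial.aeval x : Polynomial ℤ →ₐ[ℤ] L).toRingHom).eval y) := by
  unfold ev2 sp
  rw [← Polynomial.eval_map_apply, Polynomial.map_map]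
  congr 2
  refine Polynomial.ringHom_ext (fun a => ?_) ?_
  · simp
  · simp

theorem m8_conj (L : IntermediateField ℚ ℂ) (P : BP) (g : L ≃ₐ[ℚ] L) (x y : L) (h : ev2 P (x : ℂ) (y : ℂ) = 0) :
    ev2 P ((g x : L) : ℂ) ((g y : L) : ℂ) = 0 := by
  have h1 := m8_ev2 L P (algebraMap L ℂ) x y
  have h2 := m8_ev2 L P ((algebraMap L ℂ).comp (g : L →+* L)) x y
  have h3 : (P.map (Polynomial.aeval x : Polynomial ℤ →ₐ[ℤ] L).toRingHom).eval y = 0 := by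
    apply (algebraMap L ℂ).injective
    rw [← h1, map_zero]
    exact h
  rw [h3, map_zero] at h2
  exact h2

theorem m8_aeval (L : IntermediateField ℚ ℂ) (p : MvPolynomial (Fin 2) ℤ) (g : L ≃ₐ[ℚ] L) (x : Fin 2 → L)
    (h : MvPolynomial.aeval (fun j => ((g (x j) : L) : ℂ)) p ≠ 0) : MvPolynomial.aeval (fun j => ((x j : L) : ℂ)) p ≠ 0 := by
  have h1 : MvPolynomial.aeval (fun j => ((g (x j) : L) : ℂ)) p = algebraMap L ℂ (g (MvPolynomial.aeval x p)) := by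
    have : (algebraMap L ℂ) (g (MvPolynomial.aeval x p)) = ((algebraMap L ℂ).comp (g : L →+* L)) (MvPolynomial.aeval x p) := rfl
    rw [this, MvPolynomial.map_aeval, MvPolynomial.aeval_def, MvPolynomial.coe_eval₂Hom]
    congr 1
    exact Subsingleton.elim _ _
  have h2 : MvPolynomial.aeval (fun j => ((x j : L) : ℂ)) p = algebraMap L ℂ (MvPolynomial.aeval x p) := by
    rw [MvPolynomial.map_aeval, MvPolynomial.aeval_def, MvPolynomial.coe_eval₂Hom]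
    congr 1
  rw [h1] at h
  rw [h2]
  intro h0
  apply h
  have h3 : MvPolynomial.aeval x p = 0 := (algebraMap L ℂ).injective (by rw [h0, map_zero])
  rw [h3, map_zero, map_zero]

/-- M8b. The leading coefficients do not vanish. PROOF. `L` from `exists_L {x, y}`, `α = x + u y` in `L`, `y₀ = θ 0 + u θ 1`, `κ = K l⁴ log l`, `n = natDegree (mz α) ≥ 1`. `aeval y₀ (mz α) ≠ 0` (`lin_ne`). `prod_gal` gives `R`, `card R = n`, and as in M8a `κ n ≤ -log ‖aeval y₀ (mz α)‖ ≤ ∑_(r ∈ R) lp ‖r - y₀‖`,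
so some `r ∈ R` has `lp ‖r - y₀‖ ≥ κ > 0`, and `r = g α` for some `g` (otherwise the product formula of `prod_gal` with `F t = if t = r then 0 else 1` (in `ℕ`) gives `1 = 0`), so `‖g α - y₀‖ ≤ exp (-κ)`.
The pair `(g x, g y)` is a common zero of `P, Q` (integer coefficients), so `‖g x - θ 0‖, ‖g y - θ 1‖ ≤ l^28 exp (-κ) ≤ r₀` for large `l` (`κ ≥ 100 log l`), and `NearL` shows that the leading coefficients do not vanish at `(g x, g y)`, so not at `(x, y)` (`aeval (g x, g y) p = g (aeval (x, y) p)`). -/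
theorem lc_ne (θ : Fin 2 → ℂ) (hθ : AlgebraicIndependent ℚ θ) (ω : Fin 5 → ℂ) (F : Fin 5 → FP) (r₀ C : ℝ) (hr : 0 < r₀) (hn : NearL θ ω F r₀ C) (K : ℝ) (hK : 1 ≤ K) :
    ∀ᶠ l : ℕ in atTop, ∀ (P Q : BP) (u : ℕ) (x y : ℂ), ev2 P x y = 0 → ev2 Q x y = 0 →
    (∀ x' y' : ℂ, ev2 P x' y' = 0 → ev2 Q x' y' = 0 → IsAlgebraic ℚ x' ∧ IsAlgebraic ℚ y' ∧
      ‖x' - θ 0‖ ≤ l ^ 28 * ‖x' + u * y' - (θ 0 + u * θ 1)‖ ∧ ‖y' - θ 1‖ ≤ l ^ 28 * ‖x' + u * y' - (θ 0 + u * θ 1)‖) →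
    ‖Polynomial.aeval (θ 0 + u * θ 1) (mz (x + u * y))‖ ≤
      Real.exp (-(K * l ^ 4 * Real.log l * ((mz (x + u * y)).natDegree + Real.log (MM (mz (x + u * y)))))) →
    ∀ i, MvPolynomial.aeval ![x, y] (F i).leadingCoeff ≠ 0 := by
  filter_upwards [eventually_ge_atTop 3, eventually_ge_atTop ⌈1 / r₀⌉₊] with l hl3 hlr
  intro P Q u x y hP hQ hcz hval
  have hl3' : (3 : ℝ) ≤ l := by exact_mod_cast hl3
  have hl0 : (0 : ℝ) < l := by linarith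
  have hlog : 0 < Real.log l := Real.log_pos (by linarith)
  obtain ⟨hx, hy, -, -⟩ := hcz x y hP hQ
  classical
  obtain ⟨L, hfd, hgal, hL⟩ := exists_L {x, y} (by
    intro t ht
    rcases Finset.mem_insert.mp ht with rfl | h
    · exact hx
    · rw [Finset.mem_singleton.mp h]; exact hy)
  obtain ⟨x', rfl⟩ : ∃ x' : L, (x' : ℂ) = x := ⟨⟨x, hL x (by simp)⟩, rfl⟩
  obtain ⟨y', rfl⟩ : ∃ y' : L, (y' : ℂ) = y := ⟨⟨y, hL y (by simp)⟩, rfl⟩
  have hα : (((x' + u * y' : L)) : ℂ) = (x' : ℂ) + u * (y' : ℂ) := by push_cast; ring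
  rw [← hα] at hval
  have halg : IsAlgebraic ℚ (((x' + u * y' : L)) : ℂ) := by
    have := IsAlgebraic.of_finite ℚ (x' + u * y' : L)
    exact (isAlgebraic_algebraMap_iff (algebraMap L ℂ).injective).mpr this
  obtain ⟨hirr, hdeg, -⟩ := mz_spec _ halg
  have hne : aeval (θ 0 + u * θ 1) (mz (((x' + u * y' : L)) : ℂ)) ≠ 0 := lin_ne θ hθ u _ hirr.ne_zero
  obtain ⟨R, s, hs, hR, hsR, hlg, -, hgr⟩ := m8_sum L (x' + u * y') (θ 0 + u * θ 1) hne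
  set n : ℕ := (mz (((x' + u * y' : L)) : ℂ)).natDegree with hn_def
  set κ : ℝ := K * l ^ 4 * Real.log l with hκ_def
  have hκ0 : 0 < κ := by positivity
  have hMM : 0 ≤ Real.log (MM (mz (((x' + u * y' : L)) : ℂ))) := Real.log_nonneg (one_le_MM _ hirr.ne_zero)
  have h1 : κ * n ≤ ∑ r ∈ R, lp ‖(r : ℂ) - (θ 0 + u * θ 1)‖ := by
    refine le_trans ?_ hlg
    have h2 := Real.log_le_log (norm_pos_iff.mpr hne) hval
    rw [Real.log_exp] at h2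
    have h3 : 0 ≤ κ * Real.log (MM (mz (((x' + u * y' : L)) : ℂ))) := by positivity
    linarith [mul_add κ (n : ℝ) (Real.log (MM (mz (((x' + u * y' : L)) : ℂ))))]
  obtain ⟨r, hrR, hr1⟩ : ∃ r ∈ R, κ ≤ lp ‖(r : ℂ) - (θ 0 + u * θ 1)‖ := by
    by_contra hcon
    push Not at hcon
    have hRne : R.Nonempty := by
      rw [← Finset.card_pos, hR]
      omega
    have h2 := Finset.sum_lt_sum_of_nonempty hRne hcon
    rw [Finset.sum_const, nsmul_eq_mul, hR] at h2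
    linarith [mul_comm κ (n : ℝ)]
  obtain ⟨g, hg⟩ := hgr r hrR
  have hr2 : ‖(r : ℂ) - (θ 0 + u * θ 1)‖ ≤ Real.exp (-κ) := by
    rcases (norm_nonneg ((r : ℂ) - (θ 0 + u * θ 1))).eq_or_lt with h | h
    · rw [← h]; positivity
    · rw [← Real.log_le_iff_le_exp h]
      unfold lp at hr1
      rcases le_max_iff.mp hr1 with h5 | h5
      · linarith
      · linarith
  have hsmall : (l : ℝ) ^ 28 * Real.exp (-κ) ≤ r₀ := by
    have h81 : (29 : ℝ) ≤ l ^ 4 := by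
      calc (29 : ℝ) ≤ 3 ^ 4 := by norm_num
        _ ≤ l ^ 4 := by gcongr
    have h2 : 29 * Real.log l ≤ κ := by
      rw [hκ_def]
      have : (29 : ℝ) ≤ K * l ^ 4 := by nlinarith
      exact mul_le_mul_of_nonneg_right this hlog.le
    have h3 : Real.exp (-κ) ≤ ((l : ℝ) ^ 29)⁻¹ := by
      rw [← Real.exp_log (show (0 : ℝ) < ((l : ℝ) ^ 29)⁻¹ by positivity), Real.log_inv, Real.log_pow]
      apply Real.exp_le_exp.mpr
      push_cast
      linarith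
    have h4 : 1 / r₀ ≤ l := (Nat.le_ceil _).trans (by exact_mod_cast hlr)
    calc (l : ℝ) ^ 28 * Real.exp (-κ) ≤ (l : ℝ) ^ 28 * ((l : ℝ) ^ 29)⁻¹ := by gcongr
      _ = 1 / (l : ℝ) := by field_simp
      _ ≤ r₀ := by
        rw [div_le_iff₀ hl0]
        rw [div_le_iff₀ hr] at h4
        linarith
  have hcg := hcz ((g x' : L) : ℂ) ((g y' : L) : ℂ) (m8_conj L P g x' y' hP) (m8_conj L Q g x' y' hQ)
  have hgα : ((g x' : L) : ℂ) + u * ((g y' : L) : ℂ) = (r : ℂ) := by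
    rw [← hg]
    simp
  rw [hgα] at hcg
  obtain ⟨-, -, hc0, hc1⟩ := hcg
  have hbound : (l : ℝ) ^ 28 * ‖(r : ℂ) - (θ 0 + u * θ 1)‖ ≤ r₀ :=
    (mul_le_mul_of_nonneg_left hr2 (by positivity)).trans hsmall
  have hnear := hn (fun j => ((g (![x', y'] j) : L) : ℂ)) (by
    rw [pi_norm_le_iff_of_nonneg hr.le]
    intro j
    fin_cases j
    · exact hc0.trans hbound
    · exact hc1.trans hbound)
  intro i
  have h6 := m8_aeval L (F i).leadingCoeff g ![x', y'] (hnear.1 i)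
  have h7 : (fun j => ((![x', y'] j : L) : ℂ)) = ![(x' : ℂ), (y' : ℂ)] := by
    funext j
    fin_cases j <;> rfl
  rw [h7] at h6
  exact h6

/-- M8c. PROOF. `E = l⁴` (`l → ∞`), `M₀ = 7`, `C` from `core_ineq`, `K = 8 C + 1`. Given the data of `Appr`, `lc_ne` (`near_lift` gives `r₀`, `C₁`) and `exists_big` with `X₁ = E⁴` give `L` and `x' : Fin 2 → L`. The hypothesis of `core_ineq` holds: `(g x, g y)` is a common zero of `P, Q`. With `t = n + log MM (mz α)`, `n = natDegree`, `hgt β ≤ hgt α`: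
`n (1 + hgt α + hgt β) ≤ 2 t`. `conj_sum` with `B = E⁴`: (i) `K l⁴ log l t ≤ -log ‖..‖ ≤ 2 C E log E t = 8 C l⁴ log l t`, a contradiction as `t > 0`, `log l > 0`. (ii) `E⁴ ≤ 2 C E log E t ≤ 8 C l⁴ log l l¹¹`, i.e. `l ≤ 8 C log l`: false for large `l`. -/
theorem not_appr (P : Par 2) (hD : DetSmall P) (hZ : ZeroEst P) (hj : deriv jj P.z ≠ 0) (om kap : ℂ) (hom : om ^ 2 = Real.pi) (hkap : kap = sE P.z / Real.pi)
    (θ : Fin 2 → ℂ) (hθ : AlgebraicIndependent ℚ θ) (F : Fin 5 → FP) (hF : FD θ (par5 P.z P.z om kap) F) :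
    ∃ K : ℝ, 1 ≤ K ∧ ∀ᶠ l : ℕ in atTop, ¬ Appr θ l K := by
  obtain ⟨C, hC1, hcore⟩ := core_ineq P hD hZ hj om kap hom hkap θ F hF 7
  obtain ⟨r₀, C₁, hr₀, -, hnear⟩ := near_lift θ _ F hF
  refine ⟨8 * C + 1, by linarith, ?_⟩
  have hcore' : ∀ᶠ l : ℕ in atTop, ∀ (L : IntermediateField ℚ ℂ) [FiniteDimensional ℚ L] [IsGalois ℚ L] (x : Fin 2 → L), Big L F x ((l ^ 4) ^ 4) → ∀ u v : ℕ, u ≠ v → u ≤ (l ^ 4) ^ 7 → v ≤ (l ^ 4) ^ 7 →
        (∀ (g : L ≃ₐ[ℚ] L) (j : Fin 2), ‖cj g x j - θ j‖ ≤ ((l ^ 4 : ℕ) : ℝ) ^ 7 * ‖((g (x 0 + u * x 1) : L) : ℂ) - (θ 0 + u * θ 1)‖) →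
          ∑ g : L ≃ₐ[ℚ] L, min (((l ^ 4 : ℕ) : ℝ) ^ 4) (lp ‖((g (x 0 + u * x 1) : L) : ℂ) - (θ 0 + u * θ 1)‖) ≤
            C * Fintype.card (L ≃ₐ[ℚ] L) * ((l ^ 4 : ℕ) : ℝ) * Real.log ((l ^ 4 : ℕ) : ℝ) * (1 + hgt ((x 0 + u * x 1 : L) : ℂ) + hgt ((x 0 + v * x 1 : L) : ℂ)) :=
    (tendsto_pow_atTop (α := ℕ) (n := 4) (by norm_num)).eventually hcore
  have hbig : ∀ᶠ l : ℕ in atTop, 8 * C * Real.log l < l := by
    have h1 : Tendsto (fun l : ℕ => Real.log (l : ℝ) / (l : ℝ)) atTop (nhds 0) := by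
      have h2 := (Real.isLittleO_log_id_atTop).tendsto_div_nhds_zero
      exact h2.comp tendsto_natCast_atTop_atTop
    have h3 : ∀ᶠ l : ℕ in atTop, Real.log (l : ℝ) / (l : ℝ) < 1 / (8 * C) := h1.eventually_lt_const (by positivity)
    filter_upwards [h3, eventually_gt_atTop 0] with l hl hl0
    have hl0' : (0 : ℝ) < l := by exact_mod_cast hl0
    rw [div_lt_div_iff₀ hl0' (by positivity)] at hl
    linarith
  filter_upwards [hcore', hbig, lc_ne θ hθ _ F r₀ C₁ hr₀ hnear (8 * C + 1) (by linarith), eventually_ge_atTop 3] with l hco hbg hlc hl3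
  rintro ⟨P', Q, u, v, x, y, huv, hu, hv, hP, hQ, hcz, ht, hval, hh⟩
  have hlc' := hlc P' Q u x y hP hQ hcz hval
  obtain ⟨hx, hy, -, -⟩ := hcz x y hP hQ
  obtain ⟨L, hfd, hgal, x', hx', hBig⟩ := exists_big F ![x, y] (by
    intro j
    fin_cases j
    · exact hx
    · exact hy) hlc' ((l ^ 4) ^ 4)
  have hx0 : ((x' 0 : L) : ℂ) = x := hx' 0
  have hx1 : ((x' 1 : L) : ℂ) = y := hx' 1
  subst hx0 hx1
  have hα : ∀ w : ℕ, (((x' 0 + w * x' 1 : L)) : ℂ) = (x' 0 : ℂ) + w * (x' 1 : ℂ) := by intro w; push_cast; ring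
  have hl3' : (3 : ℝ) ≤ l := by exact_mod_cast hl3
  have hl0 : (0 : ℝ) < l := by linarith
  have hlog : 0 < Real.log l := Real.log_pos (by linarith)
  have hgc : ∀ (g : L ≃ₐ[ℚ] L) (w : ℕ), ((g (x' 0 + w * x' 1) : L) : ℂ) = ((g (x' 0) : L) : ℂ) + w * ((g (x' 1) : L) : ℂ) := by
    intro g w
    simp
  have hc := hco L x' hBig u v huv (by rw [← pow_mul]; exact hu) (by rw [← pow_mul]; exact hv) (by
    intro g j
    have h1 := hcz ((g (x' 0) : L) : ℂ) ((g (x' 1) : L) : ℂ) (m8_conj L P' g _ _ hP) (m8_conj L Q g _ _ hQ)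
    rw [hgc g u]
    push_cast
    rw [← pow_mul]
    unfold cj
    fin_cases j
    · exact h1.2.2.1
    · exact h1.2.2.2)
  rw [← hα u] at ht hval hh
  rw [← hα v] at hh
  have halg : IsAlgebraic ℚ (((x' 0 + u * x' 1 : L)) : ℂ) := by
    have := IsAlgebraic.of_finite ℚ (x' 0 + u * x' 1 : L)
    exact (isAlgebraic_algebraMap_iff (algebraMap L ℂ).injective).mpr this
  obtain ⟨hirr, hdeg, -⟩ := mz_spec _ halg
  have hne : aeval (θ 0 + u * θ 1) (mz (((x' 0 + u * x' 1 : L)) : ℂ)) ≠ 0 := lin_ne θ hθ u _ hirr.ne_zero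
  have hcs := conj_sum L (x' 0 + u * x' 1) (θ 0 + u * θ 1) hne (((l ^ 4 : ℕ) : ℝ) ^ 4) (by positivity)
  set m := mz (((x' 0 + u * x' 1 : L)) : ℂ) with hm_def
  have hMM : 0 ≤ Real.log (MM m) := Real.log_nonneg (one_le_MM _ hirr.ne_zero)
  have hdeg' : (1 : ℝ) ≤ m.natDegree := by exact_mod_cast hdeg
  set t : ℝ := m.natDegree + Real.log (MM m) with ht_def
  have ht0 : 0 < t := by linarith
  have hG0 : (0 : ℝ) < Fintype.card (L ≃ₐ[ℚ] L) := by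
    have : 0 < Fintype.card (L ≃ₐ[ℚ] L) := Fintype.card_pos
    exact_mod_cast this
  set S : ℝ := ∑ g : L ≃ₐ[ℚ] L, min (((l ^ 4 : ℕ) : ℝ) ^ 4) (lp ‖((g (x' 0 + u * x' 1) : L) : ℂ) - (θ 0 + u * θ 1)‖) with hS_def
  have hh2 : m.natDegree * (1 + hgt ((x' 0 + u * x' 1 : L) : ℂ) + hgt ((x' 0 + v * x' 1 : L) : ℂ)) ≤ 2 * t := by
    have h1 : (m.natDegree : ℝ) * hgt ((x' 0 + u * x' 1 : L) : ℂ) = Real.log (MM m) := by
      unfold hgt
      rw [← hm_def]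
      field_simp
    have h2 : (m.natDegree : ℝ) * hgt ((x' 0 + v * x' 1 : L) : ℂ) ≤ m.natDegree * hgt ((x' 0 + u * x' 1 : L) : ℂ) :=
      mul_le_mul_of_nonneg_left hh (by positivity)
    rw [h1] at h2
    rw [ht_def]
    linarith [mul_add (m.natDegree : ℝ) (1 + hgt ((x' 0 + u * x' 1 : L) : ℂ)) (hgt ((x' 0 + v * x' 1 : L) : ℂ)),
      mul_add (m.natDegree : ℝ) 1 (hgt ((x' 0 + u * x' 1 : L) : ℂ))]
  have hS : (m.natDegree : ℝ) * S ≤ Fintype.card (L ≃ₐ[ℚ] L) * (8 * C * l ^ 4 * Real.log l * t) := by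
    have hlogE : Real.log ((l ^ 4 : ℕ) : ℝ) = 4 * Real.log l := by
      push_cast
      rw [Real.log_pow]
      push_cast
      ring
    rw [hlogE] at hc
    push_cast at hc
    have hnn : 0 ≤ C * Fintype.card (L ≃ₐ[ℚ] L) * (l : ℝ) ^ 4 * (4 * Real.log l) := by positivity
    calc (m.natDegree : ℝ) * S ≤ m.natDegree * (C * Fintype.card (L ≃ₐ[ℚ] L) * (l : ℝ) ^ 4 * (4 * Real.log l) *
          (1 + hgt ((x' 0 + u * x' 1 : L) : ℂ) + hgt ((x' 0 + v * x' 1 : L) : ℂ))) := by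
          refine mul_le_mul_of_nonneg_left ?_ (by positivity)
          push_cast
          exact hc
      _ = C * Fintype.card (L ≃ₐ[ℚ] L) * (l : ℝ) ^ 4 * (4 * Real.log l) *
          (m.natDegree * (1 + hgt ((x' 0 + u * x' 1 : L) : ℂ) + hgt ((x' 0 + v * x' 1 : L) : ℂ))) := by ring
      _ ≤ C * Fintype.card (L ≃ₐ[ℚ] L) * (l : ℝ) ^ 4 * (4 * Real.log l) * (2 * t) := mul_le_mul_of_nonneg_left hh2 hnn
      _ = _ := by ring
  rcases hcs with h | h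
  · have h1 := le_of_mul_le_mul_left (h.trans hS) hG0
    have h2 := Real.log_le_log (norm_pos_iff.mpr hne) hval
    rw [Real.log_exp] at h2
    have h3 : 0 < l ^ 4 * Real.log l * t := by positivity
    nlinarith
  · have h1 := le_of_mul_le_mul_left (h.trans hS) hG0
    have h2 : 8 * C * l ^ 4 * Real.log l * t ≤ 8 * C * l ^ 4 * Real.log l * l ^ 11 :=
      mul_le_mul_of_nonneg_left ht (by positivity)
    have h3 : (8 * C * Real.log l) * l ^ 15 < l * l ^ 15 := mul_lt_mul_of_pos_right hbg (by positivity)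
    push_cast at h1
    have h4 : (l : ℝ) * l ^ 15 = (l ^ 4) ^ 4 := by ring
    have h5 : 8 * C * (l : ℝ) ^ 4 * Real.log l * l ^ 11 = (8 * C * Real.log l) * l ^ 15 := by ring
    linarith

end Pool.Agent.MSL
end

end
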