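import Mathlib
import Pool.Agent.Lib.MP_f58a57_nt.FK.K003
import Pool.Agent.Lib.MP_f58a57_nt.FK.K009

namespace Pool.Agent.MSD
end Pool.Agent.MSD
namespace Pool.Agent.MSP
end Pool.Agent.MSP

section

/-! # U/Z6_Rel: the relations between the jets -/

open MvPolynomial

noncomputable section

namespace Pool.Agent.MSU

variable {M : Type} [Field M] [Algebra ℂ M] {Λ : Type}

theorem mem_Rn (K : Ker M Λ) (n : ℕ) (P : Po M) : P ∈ Rn K n ↔ ∀ q : Po M, q.totalDegree < n → K.B P q = 0 := Iff.rfl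

/-- Z6a. -/
theorem Rn_anti (K : Ker M Λ) (n : ℕ) : Rn K (n + 1) ≤ Rn K n := by
  intro P hP q hq
  exact hP q (Nat.lt_succ_of_lt hq)

private theorem ZA06_cst_mul (a : ℂ) (P : Po M) (n : ℕ) (h : P.totalDegree ≤ n) :
    (cst a * P : Po M).totalDegree ≤ n := by
  refine (totalDegree_mul _ _).trans ?_
  rw [cst, totalDegree_C, zero_add]
  exact h

private theorem ZA06_pd (i : Fin 2) (P : Po M) : (pderiv i P).totalDegree ≤ P.totalDegree :=
  totalDegree_pderiv_lt P.totalDegree i P (Nat.le_succ _)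

/-- Z6b. PROOF. `K.hD i P q` for `deg q < n`: `B P q = 0`, the second argument in the last term has degree `< n` (`cD_totalDegree`, `pderiv`). -/
theorem Rn_D (K : Ker M Λ) (n : ℕ) (P : Po M) (h : P ∈ Rn K n) (i : Fin 2) : cD (K.D i) P + X i * P ∈ Rn K n := by
  intro q hq
  have h1 := K.hD i P q
  have h2 : K.B P q = 0 := h q hq
  have h3 : K.B P (cD (K.D i) q - ∑ j, cst (K.e i j) * pderiv j q) = 0 := by
    refine h _ (lt_of_le_of_lt ?_ hq)
    refine (totalDegree_sub _ _).trans (max_le (cD_totalDegree _ _) ?_)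
    refine totalDegree_finsetSum_le fun j _ => ?_
    exact ZA06_cst_mul _ _ _ (ZA06_pd j q)
  rw [h2, h3, map_zero, add_zero] at h1
  exact h1.symm

/-- Z6c. PROOF. `K.hZ j P q` for `deg q < n`: `cD (Z j) q + X j * q` has degree `< n + 1`. -/
theorem Rn_Z (K : Ker M Λ) (n : ℕ) (P : Po M) (h : P ∈ Rn K (n + 1)) (j : Fin 2) :
    cD (K.Z j) P - ∑ i, cst (K.e i j) * pderiv i P ∈ Rn K n := by
  intro q hq
  have h1 := K.hZ j P q
  have h2 : K.B P q = 0 := h q (Nat.lt_succ_of_lt hq)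
  have h3 : K.B P (cD (K.Z j) q + X j * q) = 0 := by
    refine h _ (Nat.lt_succ_of_le ?_)
    refine (totalDegree_add _ _).trans (max_le ((cD_totalDegree _ _).trans hq.le) ?_)
    refine (totalDegree_mul _ _).trans ?_
    rw [totalDegree_X]
    omega
  rw [h2, h3, map_zero, add_zero] at h1
  exact h1.symm

/-- Z6d. PROOF. Given `q'` of degree `< n`, let `q` be such that `map (T w) q = sh (-chi w) q'` and the support of `q` is contained in that of `sh (-chi w) q'` (choose preimages of the coefficients, `K.Tsurj`; `0` for `0`), so `deg q < n` (`sh_totalDegree`).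
`K.hT w P q`: `0 = c_w B (sh (lam w) (map (T w) P)) q'`. -/
theorem Rn_T (K : Ker M Λ) (n : ℕ) (P : Po M) (h : P ∈ Rn K n) (w : Λ) : sh (K.lam w) (map (K.T w) P) ∈ Rn K n := by
  intro q' hq'
  obtain ⟨q, hq⟩ := map_surjective (σ := Fin 2) (K.T w) (K.Tsurj w) (sh (-K.chi w) q')
  have hdeg : q.totalDegree < n := by
    have h1 : (map (K.T w) q).totalDegree = q.totalDegree := by
      unfold totalDegree
      rw [support_map_of_injective q (K.T w).injective]
    rw [← h1, hq]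
    exact lt_of_le_of_lt (sh_totalDegree _ _) hq'
  have h2 := K.hT w P q
  rw [h q hdeg, map_zero, hq, sh_sh_neg] at h2
  exact (mul_eq_zero.1 h2.symm).resolve_left (K.c0 w)

/-- Z6e. -/
theorem mem_J (K : Ker M Λ) (n k : ℕ) (p : Po M) : p ∈ J K n k ↔ ∃ P ∈ Rn K n, P.totalDegree ≤ k ∧ homogeneousComponent k P = p := by
  rw [J, Submodule.mem_map]
  constructor
  · rintro ⟨P, hP, hp⟩
    rw [Submodule.mem_inf, mem_restrictTotalDegree] at hP
    exact ⟨P, hP.1, hP.2, hp⟩
  · rintro ⟨P, hP, hd, hp⟩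
    refine ⟨P, ?_, hp⟩
    rw [Submodule.mem_inf, mem_restrictTotalDegree]
    exact ⟨hP, hd⟩

/-- Z6f. -/
theorem J_le (K : Ker M Λ) (n k : ℕ) : J K n k ≤ Hs M k := by
  intro p hp
  obtain ⟨P, -, -, rfl⟩ := (mem_J K n k p).1 hp
  exact homogeneousComponent_mem k P

theorem J_anti (K : Ker M Λ) (n k : ℕ) : J K (n + 1) k ≤ J K n k := by
  intro p hp
  obtain ⟨P, hP, hd, h⟩ := (mem_J K (n + 1) k p).1 hp
  exact (mem_J K n k p).2 ⟨P, Rn_anti K n hP, hd, h⟩

/-- Z6g. PROOF. `Rn_D`: the component of degree `k + 1` of `cD (D i) P + X i * P` is `X i * homogeneousComponent k P` (`hc_X_mul`, `cD_totalDegree`). -/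
theorem J_X (K : Ker M Λ) (n k : ℕ) (p : Po M) (h : p ∈ J K n k) (i : Fin 2) : X i * p ∈ J K n (k + 1) := by
  obtain ⟨P, hP, hd, h⟩ := (mem_J K n k p).1 h
  refine (mem_J K n (k + 1) _).2 ⟨cD (K.D i) P + X i * P, Rn_D K n P hP i, ?_, ?_⟩
  · refine (totalDegree_add _ _).trans (max_le ((cD_totalDegree _ _).trans (by omega)) ?_)
    refine (totalDegree_mul _ _).trans ?_
    rw [totalDegree_X]
    omega
  · have h0 : homogeneousComponent (k + 1) (cD (K.D i) P) = 0 :=
      homogeneousComponent_eq_zero _ _ (lt_of_le_of_lt (cD_totalDegree _ _) (by omega))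
    rw [map_add, h0, zero_add, hc_X_mul, h]

/-- Z6h. PROOF. `Submodule.finrank_mono` in the finite dimensional space `Hs M k`, `finrank_Hs`. -/
theorem J_finrank_le (K : Ker M Λ) (n k : ℕ) : Module.finrank M (J K n k) ≤ k + 1 := by
  rw [← finrank_Hs (M := M) k]
  exact Submodule.finrank_mono (J_le K n k)

theorem aa_add (K : Ker M Λ) (n k : ℕ) : aa K n k + Module.finrank M (J K n k) = k + 1 := by
  have h := J_finrank_le K n k
  unfold aa
  omega

private theorem ZA06_fin (K : Ker M Λ) (n k : ℕ) : FiniteDimensional M (J K n k) :=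
  Submodule.finiteDimensional_of_le (J_le K n k)

theorem aa_anti (K : Ker M Λ) (n k : ℕ) : aa K n k ≤ aa K (n + 1) k := by
  have h1 := aa_add K n k
  have h2 := aa_add K (n + 1) k
  have hf := ZA06_fin K n k
  have h3 : Module.finrank M (J K (n + 1) k) ≤ Module.finrank M (J K n k) :=
    Submodule.finrank_mono (J_anti K n k)
  omega

/-- Z6i. PROOF. `two_var_lt` and `J_X`: if `aa K n k ≤ k` then `finrank (J K n k) ≥ 1`. -/
theorem aa_step (K : Ker M Λ) (n k : ℕ) (h : aa K n k ≤ k) : aa K n (k + 1) ≤ aa K n k := by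
  have h1 := aa_add K n k
  have h2 := aa_add K n (k + 1)
  have h3 := two_var_lt k (J K n k) (J K n (k + 1)) (J_le K n k) (J_le K n (k + 1))
    (fun P hP i => J_X K n k P hP i) (by omega)
  omega

/-- Z6j. PROOF. `aa = 0` means `J K n k = Hs M k` (dimensions). -/
theorem J_eq_of_aa (K : Ker M Λ) (n k : ℕ) (h : aa K n k = 0) : J K n k = Hs M k := by
  have h1 := aa_add K n k
  refine Submodule.eq_of_le_of_finrank_eq (J_le K n k) ?_
  rw [finrank_Hs]
  omega

/-- Z6k. PROOF. Induction on the degree `k` of `P`: if `k < k0` the hypothesis; if `k ≥ k0` then the leading form of `P` is in `Hs M k = J K n k` so there is `P' ∈ Rn K n` of degree `≤ k` with the same component of degree `k`, `B P q = B (P - P') q`, and `P - P'` has degree `< k`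
(`totalDegree_lt_of_hc`; for `k = 0` it is `0`). -/
theorem all_of_low (K : Ker M Λ) (n k0 : ℕ) (h : ∀ k, k0 ≤ k → aa K n k = 0) (q : Po M) (hq : q.totalDegree < n)
    (h0 : ∀ P : Po M, P.totalDegree < k0 → K.B P q = 0) (P : Po M) : K.B P q = 0 := by
  have key : ∀ N : ℕ, ∀ P : Po M, P.totalDegree < N → K.B P q = 0 := by
    intro N
    induction N with
    | zero => intro P hP; exact absurd hP (Nat.not_lt_zero _)
    | succ N ih =>
      intro P hP
      by_cases hN : N < k0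
      · exact h0 P (lt_of_lt_of_le hP hN)
      · have hmem : homogeneousComponent N P ∈ J K n N := by
          rw [J_eq_of_aa K n N (h N (not_lt.1 hN))]
          exact homogeneousComponent_mem N P
        obtain ⟨P', hP', hd', hc'⟩ := (mem_J K n N _).1 hmem
        have h1 : K.B P' q = 0 := hP' q hq
        have h2 : (P - P').totalDegree ≤ N :=
          (totalDegree_sub _ _).trans (max_le (Nat.lt_succ_iff.1 hP) hd')
        have h3 : homogeneousComponent N (P - P') = 0 := by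
          rw [map_sub, hc', sub_self]
        have h4 : K.B (P - P') q = 0 := by
          rcases N with _ | N
          · have h5 := eq_C_of_totalDegree_zero (P - P') h2
            rw [homogeneousComponent_zero] at h3
            rw [h5, h3, map_zero, LinearMap.zero_apply]
          · exact ih _ (Nat.lt_succ_of_le (totalDegree_lt_of_hc N (P - P') h2 h3))
        rw [map_sub, LinearMap.sub_apply, h1, sub_zero] at h4
        exact h4
  exact key _ P (Nat.lt_succ_self _)

end Pool.Agent.MSU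
end

end

section

/-! # U/Z7_Rank: sums of the Hilbert function -/

open MvPolynomial

noncomputable section

namespace Pool.Agent.MSU

variable {M : Type} [Field M] [Algebra ℂ M] {Λ : Type}

/-- the polynomials of degree `< n` -/
def Lt (M : Type) [Field M] (n : ℕ) : Submodule M (Po M) := match n with
  | 0 => ⊥
  | n + 1 => restrictTotalDegree (Fin 2) M n

/-- Z7a. PROOF. `restrictTotalDegree`; for `n = 0`: `0` is the only element of `⊥`; state: -/
theorem mem_Lt (n : ℕ) (P : Po M) : P ∈ Lt M n ↔ P = 0 ∨ P.totalDegree < n := by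
  cases n with
  | zero =>
    show P ∈ (⊥ : Submodule M (Po M)) ↔ _
    simp
  | succ n =>
    show P ∈ restrictTotalDegree (Fin 2) M n ↔ _
    rw [mem_restrictTotalDegree]
    constructor
    · intro h
      exact Or.inr (Nat.lt_succ_of_le h)
    · rintro (rfl | h)
      · simp
      · exact Nat.lt_succ_iff.1 h

private theorem ZA07_rank {V W : Type} [AddCommGroup V] [Module M V] [AddCommGroup W] [Module M W]
    (g : V →ₗ[M] W) (S : Submodule M V) [FiniteDimensional M S] :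
    Module.finrank M (S.map g) + Module.finrank M (S ⊓ LinearMap.ker g : Submodule M V) =
      Module.finrank M S := by
  have h1 := LinearMap.finrank_range_add_finrank_ker (g ∘ₗ S.subtype)
  have h2 : LinearMap.range (g ∘ₗ S.subtype) = S.map g := by
    rw [LinearMap.range_comp, Submodule.range_subtype]
  have h3 : LinearMap.ker (g ∘ₗ S.subtype) = (LinearMap.ker g).comap S.subtype :=
    LinearMap.ker_comp _ _
  have h4 : Module.finrank M ((LinearMap.ker g).comap S.subtype) =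
      Module.finrank M (S ⊓ LinearMap.ker g : Submodule M V) := by
    have h5 : ((LinearMap.ker g).comap S.subtype).map S.subtype = S ⊓ LinearMap.ker g :=
      Submodule.map_comap_subtype _ _
    rw [← h5]
    exact (LinearEquiv.finrank_eq
      (Submodule.equivMapOfInjective S.subtype S.subtype_injective _))
  rw [h2, h3, h4] at h1
  exact h1

private theorem ZA07_dual {V : Type} [AddCommGroup V] [Module M V] (B : V →ₗ[M] V →ₗ[M] M)
    (S U T : Submodule M V) [FiniteDimensional M S] [FiniteDimensional M U]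
    (h : ∀ P ∈ S, (∀ q ∈ U, B P q = 0) → P ∈ T) :
    Module.finrank M S ≤ Module.finrank M (S ⊓ T : Submodule M V) + Module.finrank M U := by
  let g : V →ₗ[M] (U →ₗ[M] M) := (LinearMap.lcomp M M U.subtype) ∘ₗ B
  have hg : ∀ P (q : U), g P q = B P q := fun P q => rfl
  have h1 := ZA07_rank g S
  have h2 : Module.finrank M (S.map g) ≤ Module.finrank M U := by
    have h3 : Module.finrank M (U →ₗ[M] M) = Module.finrank M U := Subspace.dual_finrank_eq
    rw [← h3]
    exact Submodule.finrank_le _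
  have h4 : S ⊓ LinearMap.ker g ≤ S ⊓ T := by
    rintro P ⟨hP, hk⟩
    refine ⟨hP, h P hP fun q hq => ?_⟩
    have h5 : g P = 0 := hk
    have h6 := hg P ⟨q, hq⟩
    rw [h5] at h6
    exact h6.symm
  have : FiniteDimensional M (S ⊓ T : Submodule M V) :=
    Submodule.finiteDimensional_of_le (inf_le_left : S ⊓ T ≤ S)
  have h7 := Submodule.finrank_mono h4
  omega

private theorem ZA07_fin (n : ℕ) : FiniteDimensional M (Lt M n) := by
  have h : Lt M n ≤ (Finset.range n).sup (fun i => Hs M i) := by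
    intro P hP
    rw [mem_Lt] at hP
    rcases hP with rfl | hP
    · exact Submodule.zero_mem _
    · rw [← sum_homogeneousComponent P]
      refine Submodule.sum_mem _ fun i hi => ?_
      have hi' : i ∈ Finset.range n := by
        rw [Finset.mem_range] at hi ⊢
        omega
      exact (Finset.le_sup (f := fun i => Hs M i) hi') (homogeneousComponent_isHomogeneous i P)
  have : FiniteDimensional M ((Finset.range n).sup (fun i => Hs M i) : Submodule M (Po M)) :=
    Submodule.finiteDimensional_finset_sup _ _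
  exact Submodule.finiteDimensional_of_le h

instance (n : ℕ) : FiniteDimensional M (Lt M n) := ZA07_fin n

private theorem ZA07_mono (n : ℕ) : Lt M n ≤ Lt M (n + 1) := by
  intro P hP
  rw [mem_Lt] at hP ⊢
  rcases hP with h | h
  · exact Or.inl h
  · exact Or.inr (Nat.lt_succ_of_lt h)

private theorem ZA07_Hs (i n : ℕ) (h : i < n) : Hs M i ≤ Lt M n := by
  intro P hP
  rw [mem_Lt]
  exact Or.inr (lt_of_le_of_lt (IsHomogeneous.totalDegree_le hP) h)

private theorem ZA07_ker (k : ℕ) (P : Po M) (hP : P ∈ Lt M (k + 1)) :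
    homogeneousComponent k P = 0 ↔ P ∈ Lt M k := by
  have h : P.totalDegree ≤ k := (mem_restrictTotalDegree _ _ _).1 hP
  constructor
  · intro h0
    rw [← sum_homogeneousComponent P]
    refine Submodule.sum_mem _ fun i hi => ?_
    rw [Finset.mem_range] at hi
    rcases Nat.lt_or_ge i k with hik | hik
    · exact ZA07_Hs i k hik (homogeneousComponent_isHomogeneous i P)
    · have : i = k := by omega
      rw [this, h0]
      exact Submodule.zero_mem _
  · intro h0
    rw [mem_Lt] at h0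
    rcases h0 with rfl | h0
    · exact map_zero _
    · exact homogeneousComponent_eq_zero k P h0

private theorem ZA07_split (S : Submodule M (Po M)) (k : ℕ) (hS : S ≤ Lt M (k + 1)) :
    Module.finrank M (S.map (homogeneousComponent k)) +
      Module.finrank M (Lt M k ⊓ S : Submodule M (Po M)) = Module.finrank M S := by
  have : FiniteDimensional M S := Submodule.finiteDimensional_of_le hS
  have h1 := ZA07_rank (homogeneousComponent (R := M) k) S
  have h2 : S ⊓ LinearMap.ker (homogeneousComponent (R := M) k) = Lt M k ⊓ S := by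
    ext P
    constructor
    · rintro ⟨h3, h4⟩
      exact ⟨(ZA07_ker k P (hS h3)).1 h4, h3⟩
    · rintro ⟨h3, h4⟩
      exact ⟨h4, (ZA07_ker k P (hS h4)).2 h3⟩
  rw [h2] at h1
  exact h1

private theorem ZA07_succ (k : ℕ) :
    Module.finrank M (Lt M (k + 1)) = Module.finrank M (Lt M k) + (k + 1) := by
  have h1 := ZA07_split (Lt M (k + 1)) k le_rfl
  have h2 : (Lt M (k + 1)).map (homogeneousComponent k) = Hs M k := by
    apply le_antisymm
    · rintro _ ⟨P, _, rfl⟩
      exact homogeneousComponent_isHomogeneous k P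
    · intro P hP
      exact ⟨P, ZA07_Hs k (k + 1) (Nat.lt_succ_self k) hP, by
        rw [homogeneousComponent_of_mem hP, if_pos rfl]⟩
  have h3 : Lt M k ⊓ Lt M (k + 1) = Lt M k := inf_eq_left.2 (ZA07_mono k)
  rw [h2, h3, finrank_Hs] at h1
  omega

/-- Z7b. PROOF. Induction: `Lt (n+1)` is the direct sum of `Lt n` and `Hs M n`, `finrank_Hs`. -/
theorem finrank_Lt (n : ℕ) : Module.finrank M (Lt M n) = n * (n + 1) / 2 := by
  induction n with
  | zero =>
    show Module.finrank M (⊥ : Submodule M (Po M)) = _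
    simp
  | succ n ih =>
    rw [ZA07_succ, ih]
    have h : (n + 1) * (n + 1 + 1) = n * (n + 1) + 2 * (n + 1) := by ring
    rw [h, Nat.add_mul_div_left _ _ (by norm_num)]

/-- Z7c. PROOF. Induction on `k`: the map `homogeneousComponent k` from `Lt (k+1) ⊓ Rn` onto `J K n k` has kernel `Lt k ⊓ Rn` (`Submodule.finrank_map_add_finrank_ker` or rank-nullity), so `finrank (Lt (k+1) ⊓ Rn) = finrank (Lt k ⊓ Rn) + finrank (J K n k)`;
`finrank (Lt (k+1)) = finrank (Lt k) + (k + 1)`; subtract. -/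
theorem sum_aa (K : Ker M Λ) (n k : ℕ) :
    ∑ j ∈ Finset.range k, aa K n j + Module.finrank M (Lt M k ⊓ Rn K n : Submodule M (Po M)) = Module.finrank M (Lt M k) := by
  induction k with
  | zero =>
    have h : (Lt M 0 ⊓ Rn K n : Submodule M (Po M)) = Lt M 0 := by
      show (⊥ ⊓ Rn K n : Submodule M (Po M)) = ⊥
      simp
    rw [h]
    simp
  | succ k ih =>
    have h1 := ZA07_split (Lt M (k + 1) ⊓ Rn K n) k inf_le_left
    have h2 : (Lt M (k + 1) ⊓ Rn K n).map (homogeneousComponent k) = J K n k := by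
      rw [inf_comm]
      rfl
    have h3 : Lt M k ⊓ (Lt M (k + 1) ⊓ Rn K n) = Lt M k ⊓ Rn K n := by
      rw [← inf_assoc, inf_eq_left.2 (ZA07_mono k)]
    rw [h2, h3] at h1
    have h4 := aa_add K n k
    have h5 := ZA07_succ (M := M) k
    rw [Finset.sum_range_succ, ← h1, h5, ← ih]
    have h6 : aa K n k + Module.finrank M (J K n k) = k + 1 := h4
    rw [← h6]
    ring

/-- Z7d. PROOF. The linear map `Lt k → Dual (Lt n)`, `P ↦ (q ↦ B P q)` has kernel `Lt k ⊓ Rn K n` (as a subspace of `Lt k`; `deg q < n` or `q = 0`), and the dimension of its range is `≤ dim Lt n`. Rank-nullity and `sum_aa`. -/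
theorem sum_aa_le (K : Ker M Λ) (n k : ℕ) : ∑ j ∈ Finset.range k, aa K n j ≤ n * (n + 1) / 2 := by
  have h1 := sum_aa K n k
  have h2 := ZA07_dual K.B (Lt M k) (Lt M n) (Rn K n) fun P _ h => by
    intro q hq
    exact h q ((mem_Lt n q).2 (Or.inr hq))
  rw [finrank_Lt n] at h2
  omega

/-- Z7e. PROOF. By `sum_aa` the claim is `finrank (Lt k ⊓ Rn n) ≤ finrank (Lt k ⊓ Rn (n+1)) + (n+1)`. The linear map `Lt k ⊓ Rn n → Dual (Hs M n)`, `P ↦ (q ↦ B P q)` has kernel `Lt k ⊓ Rn (n+1)` (every `q` of degree `< n + 1` is `q' + q''`, `deg q' < n` (or `q' = 0`), `q''` a form of degree `n`),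
its range has dimension `≤ n + 1`. -/
theorem sum_aa_succ (K : Ker M Λ) (n k : ℕ) :
    ∑ j ∈ Finset.range k, aa K (n + 1) j ≤ ∑ j ∈ Finset.range k, aa K n j + (n + 1) := by
  have h1 := sum_aa K n k
  have h2 := sum_aa K (n + 1) k
  have hfin : FiniteDimensional M (Lt M k ⊓ Rn K n : Submodule M (Po M)) :=
    Submodule.finiteDimensional_of_le inf_le_left
  have h3 := ZA07_dual K.B (Lt M k ⊓ Rn K n) (Hs M n) (Rn K (n + 1)) fun P hP h => by
    intro q hq
    rw [← sum_homogeneousComponent q, map_sum]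
    refine Finset.sum_eq_zero fun i hi => ?_
    rw [Finset.mem_range] at hi
    rcases Nat.lt_or_ge i n with hin | hin
    · exact hP.2 _ (lt_of_le_of_lt
        (IsHomogeneous.totalDegree_le (homogeneousComponent_isHomogeneous i q)) hin)
    · have : i = n := by omega
      rw [this]
      exact h _ (homogeneousComponent_isHomogeneous n q)
  have h4 : (Lt M k ⊓ Rn K n) ⊓ Rn K (n + 1) = Lt M k ⊓ Rn K (n + 1) := by
    rw [inf_assoc, inf_eq_right.2 (Rn_anti K n)]
  rw [h4, finrank_Hs] at h3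
  omega

end Pool.Agent.MSU
end

end

section

/-! # K/C4b_Bound: the original curve: growth -/

open Complex

noncomputable section

namespace Pool.Agent.MSK

open MSD MSP

variable {d : ℕ}

lemma c4b_P2_nonneg (P : Par d) (v : Fin d → ℂ) : 0 ≤ P2 P v := by
  unfold P2
  refine Finset.sum_nonneg fun l _ => ?_
  split_ifs
  · positivity
  · exact le_rfl

lemma c4b_Gab (P : Par d) (D : Dt d) {L : ℕ} (ν : Ix d L) (v : Fin d → ℂ) :
    Gab P D (Pi.single ν 1) v = gmon P D ν (fun j => v j - p0 P.z j) (tt P.z (fun j => v j - p0 P.z j)) := by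
  unfold Gab
  rw [Finset.sum_eq_single ν]
  · simp
  · intro b _ hb
    simp [hb]
  · intro h
    exact absurd (Finset.mem_univ _) h

lemma c4b_den (P : Par d) : ∃ q : ℕ, 0 < q ∧ ∀ l, ∃ m : ℤ, (q : ℚ) * P.b l = m := by
  refine ⟨∏ l, (P.b l).den, Finset.prod_pos fun l _ => (P.b l).den_pos, fun l => ?_⟩
  obtain ⟨k, hk⟩ : (P.b l).den ∣ ∏ l, (P.b l).den := Finset.dvd_prod_of_mem _ (Finset.mem_univ l)
  refine ⟨k * (P.b l).num, ?_⟩
  rw [hk]
  push_cast
  have h1 : ((P.b l).den : ℚ) * P.b l = (P.b l).num := Rat.den_mul_eq_num (P.b l)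
  calc ((P.b l).den : ℚ) * k * P.b l = k * (((P.b l).den : ℚ) * P.b l) := by ring
    _ = _ := by rw [h1]

/-- reduction to a bounded domain of the coordinates `nn` -/
lemma c4b_red (P : Par d) (hd : 2 ≤ d) (D : Dt d) (hD : IsOrig P D) (q : ℕ) (hq0 : 0 < q)
    (hq : ∀ l, ∃ m : ℤ, (q : ℚ) * P.b l = m) {L : ℕ} (c : Ix d L → ℂ) (v : Fin d → ℂ) :
    ∃ v' : Fin d → ℂ, (∀ l, 0 ≤ nn P v' l ∧ nn P v' l ≤ q) ∧ P2 P v' = P2 P v ∧
      Nn P ((d + 2) * L) (Gab P D c) v' = Nn P ((d + 2) * L) (Gab P D c) v := by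
  set n : Fin (d + 1) → ℤ := fun l => -⌊nn P v l / q⌋ with hn
  refine ⟨v + gam P (fun l => (q : ℝ) * n l), ?_, ?_, Nn_shift P hd D hD q hq c n v⟩
  · intro l
    have hq' : (0 : ℝ) < q := by exact_mod_cast hq0
    have h1 : nn P (v + gam P (fun l => (q : ℝ) * n l)) l = nn P v l + q * n l := by
      rw [nn_add, nn_gam]
      rfl
    have h2 : (⌊nn P v l / q⌋ : ℝ) ≤ nn P v l / q := Int.floor_le _
    have h3 : nn P v l / q < ⌊nn P v l / q⌋ + 1 := Int.lt_floor_add_one _
    have h4 : (n l : ℝ) = -(⌊nn P v l / q⌋ : ℝ) := by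
      rw [hn]
      push_cast
      ring
    rw [h1, h4]
    rw [le_div_iff₀ hq'] at h2
    rw [div_lt_iff₀ hq'] at h3
    constructor <;> nlinarith
  · unfold P2
    rw [ro_add, ro_gam, add_zero]

lemma c4b_s (P : Par d) (D : Dt d) (hD : IsOrig P D) : D.s = 0 := by
  unfold Dt.s
  rw [hD.kap, hD.τ, hD.om]
  simp

lemma c4b_mm (P : Par d) (q : ℕ) : ∃ C : ℝ, 1 ≤ C ∧ ∀ n : Fin (d + 1) → ℝ, (∀ l, 0 ≤ n l ∧ n l ≤ q) → ∀ l, |mm P.b n l| ≤ C := by
  refine ⟨1 + q + q * ∑ l, |(P.b l : ℝ)|, ?_, ?_⟩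
  · have : 0 ≤ ∑ l, |(P.b l : ℝ)| := Finset.sum_nonneg fun l _ => abs_nonneg _
    have hq : (0 : ℝ) ≤ q := Nat.cast_nonneg _
    have := mul_nonneg hq this
    linarith
  · intro n hn l
    have hq : (0 : ℝ) ≤ q := Nat.cast_nonneg _
    have hb : ∀ l, |(P.b l : ℝ)| ≤ ∑ l, |(P.b l : ℝ)| := fun l =>
      Finset.single_le_sum (f := fun l => |(P.b l : ℝ)|) (fun i _ => abs_nonneg _) (Finset.mem_univ l)
    have ha : ∀ l, |n l| ≤ q := fun l => by
      rw [abs_of_nonneg (hn l).1]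
      exact (hn l).2
    have hab : ∀ l m, |(P.b l : ℝ) * n m| ≤ q * ∑ l, |(P.b l : ℝ)| := fun l m => by
      rw [abs_mul, mul_comm]
      exact mul_le_mul (ha m) (hb l) (abs_nonneg _) hq
    refine Fin.cases ?_ (fun j => ?_) l
    · have h1 : mm P.b n 0 = -((P.b 0 : ℝ) * n (Fin.last d)) := by
        simp [mm]
      rw [h1, abs_neg]
      have := hab 0 (Fin.last d)
      linarith
    · have h1 : mm P.b n j.succ = -n j.castSucc - (P.b j.succ : ℝ) * n (Fin.last d) := by
        simp [mm]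
      rw [h1]
      have h2 := hab j.succ (Fin.last d)
      have h3 := ha j.castSucc
      have h4 : |-n j.castSucc - (P.b j.succ : ℝ) * n (Fin.last d)| ≤ |n j.castSucc| + |(P.b j.succ : ℝ) * n (Fin.last d)| := by
        have := abs_sub (-n j.castSucc) ((P.b j.succ : ℝ) * n (Fin.last d))
        rwa [abs_neg] at this
      linarith

/-- bound of the coordinates in the reduced domain -/
lemma c4b_tt (P : Par d) (hd : 2 ≤ d) (q : ℕ) : ∃ C : ℝ, 1 ≤ C ∧ ∀ v : Fin d → ℂ, (∀ l, 0 ≤ nn P v l ∧ nn P v l ≤ q) →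
    ∀ l, ‖tt P.z v l‖ ≤ C * (1 + Real.sqrt (P2 P v)) := by
  obtain ⟨C1, hC1, h1⟩ := c4b_mm P q
  obtain ⟨C2, hC2, h2⟩ := ro_bound P hd
  refine ⟨C1 + q * ‖P.z‖ + C2, ?_, ?_⟩
  · have : 0 ≤ (q : ℝ) * ‖P.z‖ := by positivity
    linarith
  · intro v hv l
    have hs : 0 ≤ Real.sqrt (P2 P v) := Real.sqrt_nonneg _
    rw [decomp P v l, tt_gam]
    have ha := h1 (nn P v) hv l
    have hb := h2 v l
    have hc : ‖(nn P v l : ℂ) * P.z‖ ≤ q * ‖P.z‖ := by
      rw [norm_mul, Complex.norm_real, Real.norm_eq_abs, abs_of_nonneg (hv l).1]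
      exact mul_le_mul_of_nonneg_right (hv l).2 (norm_nonneg _)
    have hd' : ‖((mm P.b (nn P v) l : ℝ) : ℂ)‖ ≤ C1 := by
      rw [Complex.norm_real, Real.norm_eq_abs]
      exact ha
    have he : ‖((ro P v l : ℝ) : ℂ)‖ ≤ C2 * Real.sqrt (P2 P v) := by
      rw [Complex.norm_real, Real.norm_eq_abs]
      exact hb
    have h3 : ‖((mm P.b (nn P v) l : ℝ) : ℂ) + (nn P v l : ℂ) * P.z + (ro P v l : ℂ)‖ ≤ C1 + q * ‖P.z‖ + C2 * Real.sqrt (P2 P v) :=
      (norm_add_le _ _).trans (add_le_add ((norm_add_le _ _).trans (add_le_add hd' hc)) he)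
    refine h3.trans ?_
    have h4 : 0 ≤ (q : ℝ) * ‖P.z‖ := by positivity
    have h5 : (C1 + q * ‖P.z‖ + C2) * (1 + Real.sqrt (P2 P v)) =
        (C1 + q * ‖P.z‖) * (1 + Real.sqrt (P2 P v)) + C2 * (1 + Real.sqrt (P2 P v)) := add_mul _ _ _
    rw [h5]
    exact add_le_add (le_mul_of_one_le_right (add_nonneg (zero_le_one.trans hC1) h4) (le_add_of_nonneg_right hs))
      (mul_le_mul_of_nonneg_left (le_add_of_nonneg_left zero_le_one) (zero_le_one.trans hC2))

/-- the bounds of the factors of `gmon` -/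
lemma c4b_fac (P : Par d) (hd : 2 ≤ d) (D : Dt d) (hD : IsOrig P D) (q : ℕ) : ∃ C : ℝ, 1 ≤ C ∧ ∀ v : Fin d → ℂ,
    (∀ l, 0 ≤ nn P v l ∧ nn P v l ≤ q) →
    (∀ l, ‖N2 D.τ (sE D.τ) (D.h l + tt P.z (fun j => v j - p0 P.z j) l) / D.om ^ 2‖ ≤ C) ∧
    (∀ l, ‖N0 D.τ (D.h l + tt P.z (fun j => v j - p0 P.z j) l) ^ 2‖ ≤ C) ∧
    ‖pp D (tt P.z (fun j => v j - p0 P.z j))‖ ≤ C ∧
    ∀ j, ‖Zn P D (fun j => v j - p0 P.z j) (tt P.z (fun j => v j - p0 P.z j)) j‖ ≤ C * (1 + Real.sqrt (P2 P v)) := by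
  obtain ⟨G, hG, hgr⟩ := growth D.τ (sE D.τ) D.im
  obtain ⟨T, hT, htt⟩ := c4b_tt P hd q
  set B : ℝ := Real.exp (G * (1 + (q * P.z.im) ^ 2)) with hB
  have hB1 : 1 ≤ B := Real.one_le_exp (by positivity)
  set E : ℝ := (B + (∑ l, ‖ph D.τ (D.h l)‖) * B) * B ^ d with hE
  have hE0 : 0 ≤ E := by positivity
  set S : ℝ := ∑ l, ‖(P.b l : ℂ)‖ with hS
  have hS0 : 0 ≤ S := by positivity
  set p : ℝ := ∑ j : Fin d, ‖p0 P.z j‖ with hp
  have hp0 : 0 ≤ p := by positivity
  set Z : ℝ := ‖D.om‖ * (T + p) * B ^ (d + 1) + ‖rh / D.om‖ * (E + S * E + ‖P.z‖ * E) with hZ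
  have hZ0 : 0 ≤ Z := by positivity
  have hom : 0 < ‖D.om ^ 2‖ := norm_pos_iff.mpr (pow_ne_zero 2 D.ne)
  refine ⟨1 + B / ‖D.om ^ 2‖ + B ^ 2 + B ^ (d + 1) + Z, ?_, ?_⟩
  · have h1 : 0 ≤ B / ‖D.om ^ 2‖ := by positivity
    have h2 : 0 ≤ B ^ 2 := by positivity
    have h3 : 0 ≤ B ^ (d + 1) := by positivity
    linarith
  intro v hv
  have hz : D.τ = P.z := hD.τ
  have him : 0 < P.z.im := by
    rw [← hz]
    exact D.im
  have hpt : ∀ l, D.h l + tt P.z (fun j => v j - p0 P.z j) l = tt P.z v l := by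
    intro l
    rw [hD.h]
    exact hP_add P.z (by omega) v l
  have hI : ∀ l, G * (1 + (tt P.z v l).im ^ 2) ≤ G * (1 + (q * P.z.im) ^ 2) := by
    intro l
    have h1 : (tt P.z v l).im = nn P v l * P.z.im := by
      unfold nn
      field_simp
    have h2 : (tt P.z v l).im ^ 2 ≤ (q * P.z.im) ^ 2 := by
      rw [h1]
      have h3 := (hv l).1
      have h4 := (hv l).2
      exact pow_le_pow_left₀ (by positivity) (mul_le_mul_of_nonneg_right h4 him.le) 2
    exact mul_le_mul_of_nonneg_left (by linarith) hG.le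
  have hN0 : ∀ l, ‖N0 D.τ (D.h l + tt P.z (fun j => v j - p0 P.z j) l)‖ ≤ B := fun l => by
    rw [hpt]
    exact (hgr _).1.trans (Real.exp_le_exp.mpr (hI l))
  have hN1 : ∀ l, ‖N1 D.τ (D.h l + tt P.z (fun j => v j - p0 P.z j) l)‖ ≤ B := fun l => by
    rw [hpt]
    exact (hgr _).2.1.trans (Real.exp_le_exp.mpr (hI l))
  have hN2 : ∀ l, ‖N2 D.τ (sE D.τ) (D.h l + tt P.z (fun j => v j - p0 P.z j) l)‖ ≤ B := fun l => by
    rw [hpt]
    exact (hgr _).2.2.trans (Real.exp_le_exp.mpr (hI l))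
  have hpp : ‖pp D (tt P.z (fun j => v j - p0 P.z j))‖ ≤ B ^ (d + 1) := by
    unfold pp
    rw [norm_prod]
    calc ∏ l, ‖N0 D.τ (D.h l + tt P.z (fun j => v j - p0 P.z j) l)‖ ≤ ∏ _l : Fin (d + 1), B :=
          Finset.prod_le_prod (fun _ _ => norm_nonneg _) fun l _ => hN0 l
      _ = B ^ (d + 1) := by simp
  have hEn : ∀ l, ‖En D (tt P.z (fun j => v j - p0 P.z j)) l‖ ≤ E := by
    intro l
    unfold En
    rw [norm_mul, norm_prod, hE]
    have h1 : ∏ m ∈ Finset.univ.erase l, ‖N0 D.τ (D.h m + tt P.z (fun j => v j - p0 P.z j) m)‖ ≤ B ^ d := by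
      calc ∏ m ∈ Finset.univ.erase l, ‖N0 D.τ (D.h m + tt P.z (fun j => v j - p0 P.z j) m)‖
          ≤ ∏ _m ∈ Finset.univ.erase l, B := Finset.prod_le_prod (fun _ _ => norm_nonneg _) fun m _ => hN0 m
        _ = B ^ d := by simp
    have h2 : ‖ph D.τ (D.h l)‖ ≤ ∑ l, ‖ph D.τ (D.h l)‖ :=
      Finset.single_le_sum (f := fun l => ‖ph D.τ (D.h l)‖) (fun i _ => norm_nonneg _) (Finset.mem_univ l)
    have h3 : ‖N1 D.τ (D.h l + tt P.z (fun j => v j - p0 P.z j) l) - ph D.τ (D.h l) * N0 D.τ (D.h l + tt P.z (fun j => v j - p0 P.z j) l)‖ ≤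
        B + (∑ l, ‖ph D.τ (D.h l)‖) * B := by
      refine (norm_sub_le _ _).trans (add_le_add (hN1 l) ?_)
      rw [norm_mul]
      exact mul_le_mul h2 (hN0 l) (norm_nonneg _) (Finset.sum_nonneg fun _ _ => norm_nonneg _)
    exact mul_le_mul h3 h1 (Finset.prod_nonneg fun _ _ => norm_nonneg _) (by positivity)
  have e1 : 0 ≤ B / ‖D.om ^ 2‖ := by positivity
  have e2 : 0 ≤ B ^ 2 := by positivity
  have e3 : 0 ≤ B ^ (d + 1) := by positivity
  refine ⟨?_, ?_, ?_, ?_⟩
  · intro l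
    rw [norm_div]
    have := div_le_div_of_nonneg_right (hN2 l) hom.le
    linarith
  · intro l
    rw [norm_pow]
    have := pow_le_pow_left₀ (norm_nonneg _) (hN0 l) 2
    linarith
  · linarith
  · intro j
    have hs : 0 ≤ Real.sqrt (P2 P v) := Real.sqrt_nonneg _
    have hbj : ‖(P.b j.succ : ℂ)‖ ≤ S :=
      Finset.single_le_sum (f := fun l => ‖(P.b l : ℂ)‖) (fun i _ => norm_nonneg _) (Finset.mem_univ _)
    have hpj : ‖p0 P.z j‖ ≤ p :=
      Finset.single_le_sum (f := fun l => ‖p0 P.z l‖) (fun i _ => norm_nonneg _) (Finset.mem_univ _)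
    have hvj : ‖v j‖ ≤ T * (1 + Real.sqrt (P2 P v)) := by
      have := htt v hv j.succ
      have h1 : tt P.z v j.succ = v j := by simp [tt]
      rwa [h1] at this
    have hAs : As P D.s (fun j => v j - p0 P.z j) j = v j - p0 P.z j := by
      unfold As
      rw [c4b_s P D hD]
      simp [tt]
    have hA : ‖As P D.s (fun j => v j - p0 P.z j) j‖ ≤ (T + p) * (1 + Real.sqrt (P2 P v)) := by
      rw [hAs]
      refine (norm_sub_le _ _).trans ((add_le_add hvj hpj).trans ?_)
      rw [add_mul]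
      exact add_le_add le_rfl (le_mul_of_one_le_right hp0 (le_add_of_nonneg_right hs))
    unfold Zn
    have h1 : ‖D.om * As P D.s (fun j => v j - p0 P.z j) j * pp D (tt P.z (fun j => v j - p0 P.z j))‖ ≤
        ‖D.om‖ * (T + p) * B ^ (d + 1) * (1 + Real.sqrt (P2 P v)) := by
      rw [norm_mul, norm_mul]
      calc ‖D.om‖ * ‖As P D.s (fun j => v j - p0 P.z j) j‖ * ‖pp D (tt P.z (fun j => v j - p0 P.z j))‖
          ≤ ‖D.om‖ * ((T + p) * (1 + Real.sqrt (P2 P v))) * B ^ (d + 1) := by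
            refine mul_le_mul (mul_le_mul_of_nonneg_left hA (norm_nonneg _)) hpp (norm_nonneg _) ?_
            have : 0 ≤ T + p := by linarith
            positivity
        _ = _ := by ring
    have h2 : ‖rh / D.om * (En D (tt P.z (fun j => v j - p0 P.z j)) j.castSucc + P.b j.succ * En D (tt P.z (fun j => v j - p0 P.z j)) (Fin.last d)
        - P.z * En D (tt P.z (fun j => v j - p0 P.z j)) j.succ)‖ ≤ ‖rh / D.om‖ * (E + S * E + ‖P.z‖ * E) := by
      rw [norm_mul]
      refine mul_le_mul_of_nonneg_left ?_ (norm_nonneg _)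
      refine (norm_sub_le _ _).trans (add_le_add ((norm_add_le _ _).trans (add_le_add (hEn _) ?_)) ?_)
      · rw [norm_mul]
        exact mul_le_mul hbj (hEn _) (norm_nonneg _) hS0
      · rw [norm_mul]
        exact mul_le_mul_of_nonneg_left (hEn _) (norm_nonneg _)
    have h3 : 0 ≤ ‖rh / D.om‖ * (E + S * E + ‖P.z‖ * E) := by positivity
    refine (norm_sub_le _ _).trans ((add_le_add h1 h2).trans ?_)
    have h4 : Z * (1 + Real.sqrt (P2 P v)) = ‖D.om‖ * (T + p) * B ^ (d + 1) * (1 + Real.sqrt (P2 P v)) +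
        ‖rh / D.om‖ * (E + S * E + ‖P.z‖ * E) * (1 + Real.sqrt (P2 P v)) := by
      rw [hZ]
      ring
    have h6 : 0 ≤ (1 + B / ‖D.om ^ 2‖ + B ^ 2 + B ^ (d + 1)) * (1 + Real.sqrt (P2 P v)) := by
      refine mul_nonneg ?_ ?_ <;> linarith
    have h7 : ‖D.om‖ * (T + p) * B ^ (d + 1) * (1 + Real.sqrt (P2 P v)) + ‖rh / D.om‖ * (E + S * E + ‖P.z‖ * E) ≤
        Z * (1 + Real.sqrt (P2 P v)) := by
      rw [h4]
      exact add_le_add le_rfl (le_mul_of_one_le_right h3 (le_add_of_nonneg_right hs))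
    rw [add_mul]
    exact h7.trans (le_add_of_nonneg_left h6)

/-- C4d. PROOF. By C4c (with the `q` of the common denominator) we may assume `0 ≤ nn v l ≤ q`, so `|Im tt_l v| ≤ q Im z`, and `‖v‖ ≤ C (1 + ρ)`, `ρ = √(P2 v)` (`decomp`, `ro_bound`). By `growth` (P/T5) `‖N0‖, ‖N1‖, ‖N2‖ ≤ C` at `tt_l v`, so
`‖gmon ν‖ ≤ C^L (1 + ‖v‖)^(dL) ≤ C^L (1+ρ)^(dL)`, and `Nn ≤ C^L (1+ρ)^(dL) e^{-π(d+2)Lρ²} ≤ C^L e^{-(d+2)Lρ²}` since `log(1+ρ) ≤ ρ ≤ 1 + ρ²`, `(π - 1)(d+2) ≥ d`. -/
theorem Nn_bound (P : Par d) (hd : 2 ≤ d) (D : Dt d) (hD : IsOrig P D) : ∃ C : ℝ, 1 ≤ C ∧ ∀ (L : ℕ), 1 ≤ L → ∀ (ν : Ix d L) (v : Fin d → ℂ),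
    Nn P ((d + 2) * L) (Gab P D (Pi.single ν 1)) v ≤ C ^ L * Real.exp (-(((d + 2) * L : ℕ) * P2 P v)) := by
  obtain ⟨q, hq0, hq⟩ := c4b_den P
  obtain ⟨A, hA, hfac⟩ := c4b_fac P hd D hD q
  refine ⟨A ^ (2 * d + 1) * Real.exp d, ?_, ?_⟩
  · have h1 : 1 ≤ A ^ (2 * d + 1) := one_le_pow₀ hA
    have h2 : 1 ≤ Real.exp (d : ℝ) := Real.one_le_exp (Nat.cast_nonneg _)
    exact one_le_mul_of_one_le_of_one_le h1 h2
  intro L hL ν v
  obtain ⟨v', hv', hP2, hNn⟩ := c4b_red P hd D hD q hq0 hq (Pi.single ν 1) v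
  rw [← hNn, ← hP2]
  obtain ⟨f2, f0, fp, fZ⟩ := hfac v' hv'
  set r : ℝ := Real.sqrt (P2 P v') with hr
  have hr0 : 0 ≤ r := Real.sqrt_nonneg _
  have hr2 : r ^ 2 = P2 P v' := Real.sq_sqrt (c4b_P2_nonneg P v')
  have hA0 : 0 ≤ A := zero_le_one.trans hA
  have hAr : A ≤ A * (1 + r) := le_mul_of_one_le_right hA0 (le_add_of_nonneg_right hr0)
  have g : ‖gmon P D ν (fun j => v' j - p0 P.z j) (tt P.z (fun j => v' j - p0 P.z j))‖ ≤ A ^ (L * (d + 1)) * (A * (1 + r)) ^ (L * d) := by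
    unfold gmon
    rw [norm_mul, norm_prod, norm_prod]
    have h1 : ∏ l, ‖(N2 D.τ (sE D.τ) (D.h l + tt P.z (fun j => v' j - p0 P.z j) l) / D.om ^ 2) ^ (ν.1 l).val *
        N0 D.τ (D.h l + tt P.z (fun j => v' j - p0 P.z j) l) ^ (2 * (L - (ν.1 l).val))‖ ≤ A ^ (L * (d + 1)) := by
      calc _ ≤ ∏ _l : Fin (d + 1), A ^ L := by
            refine Finset.prod_le_prod (fun _ _ => norm_nonneg _) fun l _ => ?_
            rw [norm_mul, norm_pow, pow_mul, norm_pow]
            calc _ ≤ A ^ (ν.1 l).val * A ^ (L - (ν.1 l).val) :=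
                  mul_le_mul (pow_le_pow_left₀ (norm_nonneg _) (f2 l) _) (pow_le_pow_left₀ (norm_nonneg _) (f0 l) _)
                    (by positivity) (by positivity)
              _ = A ^ L := by
                rw [← pow_add]
                congr 1
                have := (ν.1 l).isLt
                omega
        _ = A ^ (L * (d + 1)) := by
            rw [Finset.prod_const, Finset.card_univ, Fintype.card_fin, ← pow_mul]
    have h2 : ∏ j, ‖Zn P D (fun j => v' j - p0 P.z j) (tt P.z (fun j => v' j - p0 P.z j)) j ^ (ν.2 j).val *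
        pp D (tt P.z (fun j => v' j - p0 P.z j)) ^ (L - (ν.2 j).val)‖ ≤ (A * (1 + r)) ^ (L * d) := by
      calc _ ≤ ∏ _j : Fin d, (A * (1 + r)) ^ L := by
            refine Finset.prod_le_prod (fun _ _ => norm_nonneg _) fun j _ => ?_
            rw [norm_mul, norm_pow, norm_pow]
            calc _ ≤ (A * (1 + r)) ^ (ν.2 j).val * (A * (1 + r)) ^ (L - (ν.2 j).val) := by
                  refine mul_le_mul (pow_le_pow_left₀ (norm_nonneg _) (fZ j) _)
                    (pow_le_pow_left₀ (norm_nonneg _) (fp.trans hAr) _) (by positivity) (by positivity)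
              _ = (A * (1 + r)) ^ L := by
                rw [← pow_add]
                congr 1
                have := (ν.2 j).isLt
                omega
        _ = (A * (1 + r)) ^ (L * d) := by
            rw [Finset.prod_const, Finset.card_univ, Fintype.card_fin, ← pow_mul]
    exact mul_le_mul h1 h2 (Finset.prod_nonneg fun _ _ => norm_nonneg _) (by positivity)
  have hQ : Real.pi * r ^ 2 ≤ Qf P v' := by
    unfold Qf
    rw [hr2]
    have h1 : 0 ≤ ∑ l, (tt P.z v' l).im ^ 2 / P.z.im := by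
      refine Finset.sum_nonneg fun l _ => ?_
      have := P.im
      have h2 : 0 < P.z.im := this
      positivity
    exact mul_le_mul_of_nonneg_left (le_add_of_nonneg_left h1) Real.pi_pos.le
  have hexp : (1 + r) ^ (L * d) ≤ Real.exp ((L * d : ℕ) * (1 + r ^ 2)) := by
    have h1 : 1 + r ≤ Real.exp (1 + r ^ 2) := by
      have h2 : r + 1 ≤ Real.exp r := Real.add_one_le_exp r
      have h3 : Real.exp r ≤ Real.exp (1 + r ^ 2) := Real.exp_le_exp.mpr (by nlinarith [sq_nonneg (r - 1)])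
      linarith
    calc (1 + r) ^ (L * d) ≤ (Real.exp (1 + r ^ 2)) ^ (L * d) := pow_le_pow_left₀ (by linarith) h1 _
      _ = _ := by rw [← Real.exp_nat_mul]
  unfold Nn
  rw [c4b_Gab, ← hr2]
  calc ‖gmon P D ν (fun j => v' j - p0 P.z j) (tt P.z (fun j => v' j - p0 P.z j))‖ * Real.exp (-(((d + 2) * L : ℕ) * Qf P v'))
      ≤ (A ^ (L * (d + 1)) * (A * (1 + r)) ^ (L * d)) * Real.exp (-(((d + 2) * L : ℕ) * (Real.pi * r ^ 2))) := by
        refine mul_le_mul g (Real.exp_le_exp.mpr ?_) (Real.exp_pos _).le (by positivity)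
        have : (0 : ℝ) ≤ ((d + 2) * L : ℕ) := Nat.cast_nonneg _
        exact neg_le_neg (mul_le_mul_of_nonneg_left hQ this)
    _ = A ^ (L * (d + 1)) * A ^ (L * d) * ((1 + r) ^ (L * d) * Real.exp (-(((d + 2) * L : ℕ) * (Real.pi * r ^ 2)))) := by
        rw [mul_pow]
        ring
    _ ≤ A ^ (L * (d + 1)) * A ^ (L * d) * (Real.exp ((L * d : ℕ) * (1 + r ^ 2)) * Real.exp (-(((d + 2) * L : ℕ) * (Real.pi * r ^ 2)))) := by
        refine mul_le_mul_of_nonneg_left (mul_le_mul_of_nonneg_right hexp (Real.exp_pos _).le) (by positivity)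
    _ ≤ A ^ (L * (d + 1)) * A ^ (L * d) * (Real.exp ((L * d : ℕ)) * Real.exp (-(((d + 2) * L : ℕ) * r ^ 2))) := by
        refine mul_le_mul_of_nonneg_left ?_ (by positivity)
        rw [← Real.exp_add, ← Real.exp_add]
        refine Real.exp_le_exp.mpr ?_
        push_cast
        have hpi : 3 < Real.pi := Real.pi_gt_three
        have hL0 : (0 : ℝ) ≤ L := Nat.cast_nonneg _
        have hd0 : (0 : ℝ) ≤ d := Nat.cast_nonneg _
        have h1 : 0 ≤ ((d : ℝ) + 2) * L * r ^ 2 := by positivity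
        have h2 : 3 * (((d : ℝ) + 2) * L * r ^ 2) ≤ Real.pi * (((d : ℝ) + 2) * L * r ^ 2) :=
          mul_le_mul_of_nonneg_right hpi.le h1
        have h3 : 0 ≤ (L : ℝ) * r ^ 2 := by positivity
        linarith [h1, h2, h3]
    _ = (A ^ (2 * d + 1) * Real.exp d) ^ L * Real.exp (-(((d + 2) * L : ℕ) * r ^ 2)) := by
        have h1 : A ^ (L * (d + 1)) * A ^ (L * d) = (A ^ (2 * d + 1)) ^ L := by
          rw [← pow_add, ← pow_mul]
          congr 1
          ring
        have h2 : Real.exp ((L * d : ℕ)) = Real.exp d ^ L := by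
          rw [← Real.exp_nat_mul]
          push_cast
          rfl
        rw [h1, h2, mul_pow]
        ring

end Pool.Agent.MSK
end

end
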