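import Mathlib
import Pool.Agent.Lib.MP_f58a57_nt.FK.K016
import Pool.Agent.Lib.MP_f58a57_nt.FK.K031
import Pool.Agent.Lib.MP_f58a57_nt.FK.K040

namespace Pool.Agent.MSD
end Pool.Agent.MSD
namespace Pool.Agent.MSK
end Pool.Agent.MSK
namespace Pool.Agent.MSP
end Pool.Agent.MSP

section

/-! # R/B7_Bound: a bound for `TH` -/

open Complex Filter Topology IntermediateField

noncomputable section

namespace Pool.Agent.MSR

open MSD MSP MSK

variable {d : ℕ}

/-- B7a. PROOF. Cauchy's estimate (`Complex.norm_iteratedDeriv_le_of_forall_mem_sphere_norm_le`, radius `1`): `‖iteratedDeriv k (th τ) (h_l + t_l)‖ ≤ k! A`. For `m ∈ q.support` `∑ m_l ≤ n`, so `∏ m_l! ≤ ∏ n^(m_l) = n^(∑ m_l)`. -/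
theorem TH_bound (D : Dt d) (t : Fin (d + 1) → ℂ) (q : MvPolynomial (Fin (d + 1)) ℂ) (n : ℕ) (hn : 1 ≤ n) (hq : q.totalDegree ≤ n) (A : ℝ) (hA : 1 ≤ A)
    (h : ∀ l, ∀ u : ℂ, ‖u - (D.h l + t l)‖ ≤ 1 → ‖th D.τ u‖ ≤ A) : ‖TH D t q‖ ≤ A ^ (d + 1) * nm n q := by
  have hcau : ∀ l : Fin (d + 1), ∀ k : ℕ, ‖iteratedDeriv k (th D.τ) (D.h l + t l)‖ ≤ k.factorial * A := by
    intro l k
    have h1 := Complex.norm_iteratedDeriv_le_of_forall_mem_sphere_norm_le (c := D.h l + t l) (R := 1)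
      (C := A) (f := th D.τ) k one_pos ((th_differentiable D.τ D.im).diffContOnCl)
      (fun z hz => h l z (by rw [mem_sphere_iff_norm] at hz; exact hz.le))
    simpa using h1
  unfold TH nm
  rw [Finset.mul_sum]
  refine (norm_sum_le _ _).trans (Finset.sum_le_sum fun m hm => ?_)
  rw [norm_mul, norm_prod]
  have hdeg : ∑ l, m l ≤ n := by
    have h1 := MvPolynomial.le_totalDegree hm
    have h2 : (m.sum fun _ e => e) = ∑ l, m l := Finsupp.sum_fintype _ _ (fun _ => rfl)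
    rw [h2] at h1
    exact h1.trans hq
  have hsum : (m.sum fun _ e => e) = ∑ l, m l := Finsupp.sum_fintype _ _ (fun _ => rfl)
  have hprod : ∏ l, ‖iteratedDeriv (m l) (th D.τ) (D.h l + t l)‖ ≤ A ^ (d + 1) * (n : ℝ) ^ (m.sum fun _ e => e) := by
    have h1 : ∏ l, ‖iteratedDeriv (m l) (th D.τ) (D.h l + t l)‖ ≤ ∏ l : Fin (d + 1), (A * (n : ℝ) ^ (m l)) := by
      apply Finset.prod_le_prod (fun _ _ => norm_nonneg _)
      intro l _
      refine (hcau l (m l)).trans ?_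
      rw [mul_comm]
      apply mul_le_mul_of_nonneg_left _ (by linarith)
      have h2 : m l ≤ n := (Finset.single_le_sum (f := fun l => m l) (fun _ _ => Nat.zero_le _) (Finset.mem_univ l)).trans hdeg
      have h3 : (m l).factorial ≤ n ^ (m l) := (Nat.factorial_le_pow (m l)).trans (Nat.pow_le_pow_left h2 _)
      exact_mod_cast h3
    rw [Finset.prod_mul_distrib, Finset.prod_const, Finset.card_univ, Fintype.card_fin, Finset.prod_pow_eq_pow_sum] at h1
    rw [hsum]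
    exact h1
  calc ‖q.coeff m‖ * ∏ l, ‖iteratedDeriv (m l) (th D.τ) (D.h l + t l)‖
      ≤ ‖q.coeff m‖ * (A ^ (d + 1) * (n : ℝ) ^ (m.sum fun _ e => e)) := mul_le_mul_of_nonneg_left hprod (norm_nonneg _)
    _ = A ^ (d + 1) * (‖q.coeff m‖ * (n : ℝ) ^ (m.sum fun _ e => e)) := by ring

private theorem b7_nm_neg {σ : Type} (ρ : ℝ) (B : MvPolynomial σ ℂ) : nm ρ (-B) = nm ρ B := by
  unfold nm
  rw [MvPolynomial.support_neg]
  refine Finset.sum_congr rfl fun m _ => ?_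
  rw [MvPolynomial.coeff_neg, norm_neg]

/-- B7b. PROOF. `nm_add, nm_mul, nm_C, nm_X`. -/
theorem lin_nm (P : Par d) (D : Dt d) (W : Fin d → ℂ) (j : Fin d) (ρ : ℝ) (hρ : 0 ≤ ρ) :
    nm ρ (lin P D W j) ≤ ‖W j + lam P D j‖ + ρ * (1 / ‖D.om‖ * ∑ l, ‖rhv P l j‖) := by
  unfold lin
  rw [sub_eq_add_neg]
  refine (nm_add ρ hρ _ _).trans ?_
  rw [nm_C, b7_nm_neg]
  have h1 : nm ρ (∑ l, MvPolynomial.C (rhv P l j) * MvPolynomial.X l : MvPolynomial (Fin (d + 1)) ℂ) ≤ ∑ l, ‖rhv P l j‖ * ρ := by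
    refine (nm_sum ρ hρ _ _).trans (Finset.sum_le_sum fun l _ => ?_)
    refine (nm_mul ρ hρ _ _).trans ?_
    rw [nm_C, nm_X]
  have h2 : nm ρ (MvPolynomial.C (1 / D.om) * ∑ l, MvPolynomial.C (rhv P l j) * MvPolynomial.X l : MvPolynomial (Fin (d + 1)) ℂ) ≤
      ρ * (1 / ‖D.om‖ * ∑ l, ‖rhv P l j‖) := by
    refine (nm_mul ρ hρ _ _).trans ?_
    rw [nm_C, norm_div, norm_one]
    refine (mul_le_mul_of_nonneg_left h1 (by positivity)).trans (le_of_eq ?_)
    rw [← Finset.sum_mul]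
    ring
  linarith

/-- B7c. the total degree does not increase -/
theorem lin_deg (P : Par d) (D : Dt d) (W : Fin d → ℂ) (B : MvPolynomial (Fin d) ℂ) :
    (MvPolynomial.aeval (lin P D W) B).totalDegree ≤ B.totalDegree := by
  have hlin : ∀ j, (lin P D W j).totalDegree ≤ 1 := by
    intro j
    unfold lin
    refine (MvPolynomial.totalDegree_sub _ _).trans (max_le ?_ ?_)
    · rw [MvPolynomial.totalDegree_C]; omega
    · refine (MvPolynomial.totalDegree_mul _ _).trans ?_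
      rw [MvPolynomial.totalDegree_C, zero_add]
      refine MvPolynomial.totalDegree_finsetSum_le fun l _ => ?_
      refine (MvPolynomial.totalDegree_mul _ _).trans ?_
      rw [MvPolynomial.totalDegree_C, zero_add, MvPolynomial.totalDegree_X]
  rw [MvPolynomial.aeval_def, MvPolynomial.eval₂_eq]
  refine MvPolynomial.totalDegree_finsetSum_le fun m hm => ?_
  refine (MvPolynomial.totalDegree_mul _ _).trans ?_
  have h1 : (algebraMap ℂ (MvPolynomial (Fin (d + 1)) ℂ) (MvPolynomial.coeff m B)).totalDegree = 0 :=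
    MvPolynomial.totalDegree_C _
  rw [h1, zero_add]
  refine (MvPolynomial.totalDegree_finsetProd _ _).trans ?_
  refine le_trans (Finset.sum_le_sum fun j _ => ?_) (MvPolynomial.le_totalDegree hm)
  refine (MvPolynomial.totalDegree_pow _ _).trans ?_
  calc m j * (lin P D W j).totalDegree ≤ m j * 1 := Nat.mul_le_mul_left _ (hlin j)
    _ = m j := mul_one _

end Pool.Agent.MSR
end

end

section

/-! # K/A1b_Iter: iterated derivatives of the auxiliary function -/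

open Complex MvPolynomial

noncomputable section

namespace Pool.Agent.MSK

open MSD MSP

variable {d : ℕ}

/-- the monomials along the line are values of polynomials -/
theorem a1b_mon (P : Par d) (D : Dt d) {L : ℕ} (a : Fin d → ℤ) (ν : Ix d L) (ζ : ℂ) :
    mon P D ν (fun j => ζ * a j) (tt P.z (fun j => ζ * a j)) = MvPolynomial.aeval (ev P D a ζ) (Mon ν) := by
  have ht : tt P.z (fun j => ζ * (a j : ℂ)) = fun l => ζ * tt P.z (fun i => (a i : ℂ)) l := by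
    funext l
    exact tt_smul P.z ζ (fun j => (a j : ℂ)) l
  unfold mon Mon
  rw [ht]
  simp only [map_mul, map_prod, map_pow, MvPolynomial.aeval_X, ev]

/-- the auxiliary function along the line -/
theorem a1b_FF (P : Par d) (D : Dt d) {L : ℕ} (c : Ix d L → ℂ) (a : Fin d → ℤ) (ζ : ℂ) :
    FF P D c (fun j => ζ * a j) = ∑ ν, c ν * MvPolynomial.aeval (ev P D a ζ) (Mon ν) := by
  unfold FF Fh
  refine Finset.sum_congr rfl (fun ν _ => ?_)
  rw [a1b_mon]

/-- the theta functions do not vanish near the base point -/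
theorem a1b_near (P : Par d) (D : Dt d) (a : Fin d → ℤ) :
    ∀ᶠ ζ : ℂ in nhds 0, ∀ l, th D.τ (D.h l + ζ * tt P.z (fun j => (a j : ℂ)) l) ≠ 0 := by
  rw [Filter.eventually_all]
  intro l
  have hc : Continuous (fun ζ : ℂ => th D.τ (D.h l + ζ * tt P.z (fun j => (a j : ℂ)) l)) :=
    (th_differentiable D.τ D.im).continuous.comp (by fun_prop)
  have h0 : (fun ζ : ℂ => th D.τ (D.h l + ζ * tt P.z (fun j => (a j : ℂ)) l)) 0 ≠ 0 := by
    simpa using D.hh l
  exact hc.continuousAt.eventually_ne h0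

/-- the derivative of the linear combinations -/
theorem a1b_deriv (P : Par d) (D : Dt d) {L : ℕ} (c : Ix d L → ℂ) (a : Fin d → ℤ) (ζ : ℂ)
    (h : ∀ l, th D.τ (D.h l + ζ * tt P.z (fun j => (a j : ℂ)) l) ≠ 0) (p : Ix d L → MvPolynomial (Vr d) ℤ) :
    HasDerivAt (fun ζ' => ∑ ν, c ν * MvPolynomial.aeval (ev P D a ζ') (p ν))
      (D.om * ∑ ν, c ν * MvPolynomial.aeval (ev P D a ζ) (der a (p ν))) ζ := by
  have h1 : HasDerivAt (fun ζ' => ∑ ν, c ν * MvPolynomial.aeval (ev P D a ζ') (p ν))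
      (∑ ν, c ν * (D.om * MvPolynomial.aeval (ev P D a ζ) (der a (p ν)))) ζ :=
    HasDerivAt.fun_sum (fun ν _ => (hasDerivAt_ev P D a ζ h (p ν)).const_mul (c ν))
  convert h1 using 1
  rw [Finset.mul_sum]
  refine Finset.sum_congr rfl (fun ν _ => ?_)
  ring

/-- the iterated derivative near the base point -/
theorem a1b_iter (P : Par d) (D : Dt d) {L : ℕ} (c : Ix d L → ℂ) (a : Fin d → ℤ) (k : ℕ) :
    iteratedDeriv k (fun ζ : ℂ => FF P D c (fun j => ζ * a j)) =ᶠ[nhds 0]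
      fun ζ => D.om ^ k * ∑ ν, c ν * MvPolynomial.aeval (ev P D a ζ) ((der a)^[k] (Mon ν)) := by
  induction k with
  | zero =>
    refine Filter.Eventually.of_forall (fun ζ => ?_)
    simp only [iteratedDeriv_zero, pow_zero, one_mul, Function.iterate_zero, id]
    exact a1b_FF P D c a ζ
  | succ k ih =>
    rw [iteratedDeriv_succ]
    refine ih.deriv.trans ?_
    filter_upwards [a1b_near P D a] with ζ hζ
    have h1 := (a1b_deriv P D c a ζ hζ (fun ν => (der a)^[k] (Mon ν))).const_mul (D.om ^ k)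
    rw [h1.deriv]
    simp only [Function.iterate_succ_apply']
    ring

/-- A1b. PROOF. `FF` along the line is `∑ c ν * aeval (ev ζ) (Mon ν)`; the condition of A1a holds for `ζ` near `0` (continuity, `D.hh`), so by induction on `k`
the `k`-th derivative is `om^k ∑ c ν aeval (ev ζ) (der^[k] (Mon ν))` near `0`; at `0` use `ev_zero`. -/
theorem iteratedDeriv_FF (P : Par d) (D : Dt d) {L : ℕ} (c : Ix d L → ℂ) (a : Fin d → ℤ) (k : ℕ) :
    iteratedDeriv k (fun ζ : ℂ => FF P D c (fun j => ζ * a j)) 0 =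
      D.om ^ k * ∑ ν, c ν * MvPolynomial.aeval (vals P D) ((der a)^[k] (Mon ν)) := by
  have h := (a1b_iter P D c a k).self_of_nhds
  rw [h]
  show D.om ^ k * ∑ ν, c ν * MvPolynomial.aeval (ev P D a 0) ((der a)^[k] (Mon ν)) = _
  rw [ev_zero]

/-- `FF` along a line is analytic at `0` -/
theorem FF_line_analytic (P : Par d) (D : Dt d) {L : ℕ} (c : Ix d L → ℂ) (a : Fin d → ℤ) :
    AnalyticAt ℂ (fun ζ : ℂ => FF P D c (fun j => ζ * a j)) 0 := by
  rw [Complex.analyticAt_iff_eventually_differentiableAt]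
  filter_upwards [a1b_near P D a] with ζ hζ
  have h1 := (a1b_deriv P D c a ζ hζ (fun ν => Mon ν)).differentiableAt
  refine h1.congr_of_eventuallyEq (Filter.Eventually.of_forall (fun ζ' => ?_))
  exact a1b_FF P D c a ζ'

end Pool.Agent.MSK
end

end

section

/-! # R/B10_NnBound: the size of the functions -/

open Complex Filter Topology IntermediateField

noncomputable section

namespace Pool.Agent.MSR

open MSD MSP MSK

variable {d : ℕ}

lemma b10_Cs (P : Par d) (D : Dt d) {E : ℕ} (κ : Ir d E) :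
    Cs P D (Pi.single κ 1) = Bp (qq P D) (fun j => (κ j).val) := by
  unfold Cs
  rw [Finset.sum_eq_single κ]
  · simp
  · intro b _ hb
    simp [hb]
  · intro h
    exact absurd (Finset.mem_univ _) h

/-- reduction to a bounded domain of the coordinates `nn` -/
lemma b10_red (P : Par d) (hd : 2 ≤ d) (D : Dt d) (hD : IsOrig P D) (q : ℕ) (hq0 : 0 < q)
    (hq : ∀ l, ∃ m : ℤ, (q : ℚ) * P.b l = m) {E : ℕ} (c : Ir d E → ℂ) (v : Fin d → ℂ) :
    ∃ v' : Fin d → ℂ, (∀ l, 0 ≤ nn P v' l ∧ nn P v' l ≤ q) ∧ P2 P v' = P2 P v ∧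
      Nn P 1 (GA P D c) v' = Nn P 1 (GA P D c) v := by
  set n : Fin (d + 1) → ℤ := fun l => -⌊nn P v l / q⌋ with hn
  refine ⟨v + gam P (fun l => (q : ℝ) * n l), ?_, ?_, NnR_shift P hd D hD q hq c n v⟩
  · intro l
    have hq' : (0 : ℝ) < q := by exact_mod_cast hq0
    have h1 : nn P (v + gam P (fun l => (q : ℝ) * n l)) l = nn P v l + q * n l := by
      rw [nn_add, nn_gam]
      rfl
    have h2 : (⌊nn P v l / q⌋ : ℝ) ≤ nn P v l / q := Int.floor_le _
    have h3 : nn P v l / q < ⌊nn P v l / q⌋ + 1 := Int.lt_floor_add_one _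
    have h4 : (n l : ℝ) = -(⌊nn P v l / q⌋ : ℝ) := by
      rw [hn]
      push_cast
      ring
    rw [h1, h4]
    rw [le_div_iff₀ hq'] at h2
    rw [div_lt_iff₀ hq'] at h3
    constructor
    · linarith [mul_comm (⌊nn P v l / q⌋ : ℝ) (q : ℝ)]
    · linarith [add_mul (⌊nn P v l / q⌋ : ℝ) 1 (q : ℝ), mul_comm (⌊nn P v l / q⌋ : ℝ) (q : ℝ)]
  · unfold P2
    rw [ro_add, ro_gam, add_zero]

/-- the numerical inequality -/
lemma b10_num (A C1 C3 C4 r : ℝ) (hA : 1 ≤ A) (h1 : 0 ≤ C1) (h3 : 0 ≤ C3) (h14 : C1 ≤ C4) (h34 : C3 ≤ C4) (hr : 0 ≤ r) (d n : ℕ) (hn : 1 ≤ n) :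
    A ^ (d + 1) * (C1 * (1 + r) + C3 * n) ^ n * Real.exp (-(Real.pi * r ^ 2)) ≤ (C4 * n) ^ n * (A ^ (d + 1) * Real.exp 2) * Real.exp (-r ^ 2) := by
  have hn0 : (0 : ℝ) < n := by exact_mod_cast hn
  have e1 : C1 * (1 + r) + C3 * n ≤ (C4 * n) * Real.exp ((1 + r) / n) := by
    have h2 : (1 + r) / n + 1 ≤ Real.exp ((1 + r) / n) := Real.add_one_le_exp _
    have h4 : C1 * (1 + r) + C3 * n ≤ C4 * (1 + r) + C4 * n :=
      add_le_add (mul_le_mul_of_nonneg_right h14 (by linarith)) (mul_le_mul_of_nonneg_right h34 hn0.le)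
    have h5 : C4 * (1 + r) + C4 * n = (C4 * n) * ((1 + r) / n + 1) := by
      field_simp
    rw [h5] at h4
    exact h4.trans (mul_le_mul_of_nonneg_left h2 (mul_nonneg (h1.trans h14) hn0.le))
  have e0 : 0 ≤ C1 * (1 + r) + C3 * n := add_nonneg (mul_nonneg h1 (by linarith)) (mul_nonneg h3 hn0.le)
  have e2 : (C1 * (1 + r) + C3 * n) ^ n ≤ (C4 * n) ^ n * Real.exp (1 + r) := by
    calc (C1 * (1 + r) + C3 * n) ^ n ≤ ((C4 * n) * Real.exp ((1 + r) / n)) ^ n := pow_le_pow_left₀ e0 e1 n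
      _ = (C4 * n) ^ n * Real.exp (1 + r) := by
        rw [mul_pow, ← Real.exp_nat_mul]
        congr 2
        field_simp
  have hA0 : 0 ≤ A ^ (d + 1) := pow_nonneg (zero_le_one.trans hA) _
  have hC4 : 0 ≤ C4 := h1.trans h14
  have hCn : 0 ≤ (C4 * n) ^ n := pow_nonneg (mul_nonneg hC4 hn0.le) n
  have e3 : Real.exp (1 + r) * Real.exp (-(Real.pi * r ^ 2)) ≤ Real.exp 2 * Real.exp (-r ^ 2) := by
    rw [← Real.exp_add, ← Real.exp_add]
    refine Real.exp_le_exp.mpr ?_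
    have hpi : 3 < Real.pi := Real.pi_gt_three
    have h5 : 3 * r ^ 2 ≤ Real.pi * r ^ 2 := mul_le_mul_of_nonneg_right hpi.le (sq_nonneg r)
    have h6 : 0 ≤ (r - 1 / 4) ^ 2 := sq_nonneg _
    have h7 : (r - 1 / 4) ^ 2 = r ^ 2 - r / 2 + 1 / 16 := by ring
    linarith
  calc A ^ (d + 1) * (C1 * (1 + r) + C3 * n) ^ n * Real.exp (-(Real.pi * r ^ 2))
      ≤ A ^ (d + 1) * ((C4 * n) ^ n * Real.exp (1 + r)) * Real.exp (-(Real.pi * r ^ 2)) :=
        mul_le_mul_of_nonneg_right (mul_le_mul_of_nonneg_left e2 hA0) (Real.exp_pos _).le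
    _ = A ^ (d + 1) * (C4 * n) ^ n * (Real.exp (1 + r) * Real.exp (-(Real.pi * r ^ 2))) := by ring
    _ ≤ A ^ (d + 1) * (C4 * n) ^ n * (Real.exp 2 * Real.exp (-r ^ 2)) :=
        mul_le_mul_of_nonneg_left e3 (mul_nonneg hA0 hCn)
    _ = _ := by ring

/-- B10. PROOF. `Cs P D (single κ 1) = Bp qq κ`. As in K/C4b_Bound: by `NnR_shift` we may assume `0 ≤ nn v l ≤ q` (`q` a common denominator), so `|Im tt_l v| ≤ q Im z` and `‖v‖ ≤ C(1 + ρ)`, `ρ = √(P2 v)`. In absolute coordinates `h_l + tt(v - p0)_l = tt v l`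
(`hP_add`), so with `n = d E` `TH_bound` (`A` a constant, by `growth`), `nm_aeval`, `lin_nm`, `nm_Bp` (`∑ κ_j ≤ n`, `a` a bound for `qq`) give
`‖GA v‖ ≤ A^(d+1) (C₁(1 + ρ) + C₂ n)^n ≤ A^(d+1) (C₃ n)^n (1 + (1+ρ)/n)^n ≤ A^(d+1) (C₃ n)^n e^(1+ρ)` with `C₃ = max(C₁, C₂, 1)·2` or so. As `Qf v ≥ π ρ²` and `1 + ρ - πρ² ≤ 2 - ρ²` we get the claim. (`d E ≤ ..`: enlarge `C`.) -/
theorem NnR_bound (P : Par d) (hd : 2 ≤ d) (D : Dt d) (hD : IsOrig P D) : ∃ C : ℝ, 1 ≤ C ∧ ∀ (E : ℕ), 1 ≤ E → ∀ (κ : Ir d E) (v : Fin d → ℂ),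
    Nn P 1 (GA P D (Pi.single κ 1)) v ≤ (C * E) ^ (d * E) * C * Real.exp (-(((1 : ℕ) : ℝ) * P2 P v)) := by
  obtain ⟨q, hq0, hq⟩ := c4b_den P
  obtain ⟨G, hG, hgr⟩ := growth D.τ (sE D.τ) D.im
  obtain ⟨T, hT, htt⟩ := c4b_tt P hd q
  have him : 0 < P.z.im := P.im
  set A : ℝ := Real.exp (G * (1 + (q * P.z.im + 1) ^ 2)) with hAdef
  have hA1 : 1 ≤ A := Real.one_le_exp (mul_nonneg hG.le (add_nonneg zero_le_one (sq_nonneg _)))
  set p : ℝ := ∑ j : Fin d, ‖p0 P.z j‖ with hp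
  have hp0 : 0 ≤ p := Finset.sum_nonneg fun _ _ => norm_nonneg _
  set Λ : ℝ := ∑ j : Fin d, ‖lam P D j‖ with hΛ
  have hΛ0 : 0 ≤ Λ := Finset.sum_nonneg fun _ _ => norm_nonneg _
  set R : ℝ := ∑ j : Fin d, (1 / ‖D.om‖ * ∑ l, ‖rhv P l j‖) with hR
  have hR0 : 0 ≤ R := Finset.sum_nonneg fun _ _ =>
    mul_nonneg (one_div_nonneg.mpr (norm_nonneg _)) (Finset.sum_nonneg fun _ _ => norm_nonneg _)
  set a : ℝ := ∑ i, ∑ j, ‖qq P D i j‖ with ha
  have ha0 : 0 ≤ a := Finset.sum_nonneg fun _ _ => Finset.sum_nonneg fun _ _ => norm_nonneg _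
  have haq : ∀ i j, ‖qq P D i j‖ ≤ a := fun i j =>
    (Finset.single_le_sum (f := fun j => ‖qq P D i j‖) (fun _ _ => norm_nonneg _) (Finset.mem_univ j)).trans
      (Finset.single_le_sum (f := fun i => ∑ j, ‖qq P D i j‖) (fun _ _ => Finset.sum_nonneg fun _ _ => norm_nonneg _) (Finset.mem_univ i))
  set C1 : ℝ := 1 + ‖D.om‖ * (T + p) + Λ with hC1
  have hT0 : 0 ≤ T := zero_le_one.trans hT
  have hTp : 0 ≤ ‖D.om‖ * (T + p) := mul_nonneg (norm_nonneg _) (add_nonneg hT0 hp0)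
  have hC10 : 1 ≤ C1 := by rw [hC1]; linarith
  set C3 : ℝ := R + d * a with hC3
  have hC30 : 0 ≤ C3 := add_nonneg hR0 (mul_nonneg (Nat.cast_nonneg _) ha0)
  set C4 : ℝ := C1 + C3 with hC4
  have hC41 : 1 ≤ C4 := by rw [hC4]; linarith
  have hd1 : (1 : ℝ) ≤ d := by exact_mod_cast (by omega : 1 ≤ d)
  set C : ℝ := C4 * d + A ^ (d + 1) * Real.exp 2 with hC
  have hA0 : 0 ≤ A ^ (d + 1) := pow_nonneg (zero_le_one.trans hA1) _
  have hAe : 0 ≤ A ^ (d + 1) * Real.exp 2 := mul_nonneg hA0 (Real.exp_pos _).le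
  have hC4d : 1 ≤ C4 * d := one_le_mul_of_one_le_of_one_le hC41 hd1
  refine ⟨C, by rw [hC]; linarith, ?_⟩
  intro E hE κ v
  obtain ⟨v', hv', hP2, hNn⟩ := b10_red P hd D hD q hq0 hq (Pi.single κ 1) v
  rw [← hNn, ← hP2]
  set r : ℝ := Real.sqrt (P2 P v') with hr
  have hr0 : 0 ≤ r := Real.sqrt_nonneg _
  have hr2 : r ^ 2 = P2 P v' := Real.sq_sqrt (c4b_P2_nonneg P v')
  have hn1 : 1 ≤ d * E := Nat.one_le_iff_ne_zero.mpr (Nat.mul_ne_zero (by omega) (by omega))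
  have hn0 : (0 : ℝ) ≤ ((d * E : ℕ) : ℝ) := Nat.cast_nonneg _
  have hpt : ∀ l, D.h l + tt P.z (fun j => v' j - p0 P.z j) l = tt P.z v' l := by
    intro l
    rw [hD.h]
    exact hP_add P.z (by omega) v' l
  have hth : ∀ l, ∀ u : ℂ, ‖u - (D.h l + tt P.z (fun j => v' j - p0 P.z j) l)‖ ≤ 1 → ‖th D.τ u‖ ≤ A := by
    intro l u hu
    rw [hpt] at hu
    have h1 : |(u - tt P.z v' l).im| ≤ 1 := (Complex.abs_im_le_norm _).trans hu
    have h2 : (tt P.z v' l).im = nn P v' l * P.z.im := by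
      unfold nn
      field_simp
    have h3 := (hv' l).1
    have h4 := (hv' l).2
    have h5 : 0 ≤ (tt P.z v' l).im := by rw [h2]; exact mul_nonneg h3 him.le
    have h6 : (tt P.z v' l).im ≤ q * P.z.im := by
      rw [h2]
      exact mul_le_mul_of_nonneg_right h4 him.le
    rw [Complex.sub_im, abs_le] at h1
    have h7 : |u.im| ≤ q * P.z.im + 1 := by
      rw [abs_le]
      constructor
      · have : 0 ≤ (q : ℝ) * P.z.im := mul_nonneg (Nat.cast_nonneg _) him.le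
        linarith [h1.1]
      · linarith [h1.2]
    have h8 : u.im ^ 2 ≤ (q * P.z.im + 1) ^ 2 := by
      rw [← sq_abs u.im]
      exact pow_le_pow_left₀ (abs_nonneg _) h7 2
    exact (hgr u).1.trans (Real.exp_le_exp.mpr (mul_le_mul_of_nonneg_left (by linarith) hG.le))
  have hvj : ∀ j, ‖v' j‖ ≤ T * (1 + r) := by
    intro j
    have := htt v' hv' j.succ
    have h1 : tt P.z v' j.succ = v' j := by simp [tt]
    rwa [h1] at this
  have hWV : ∀ j, ‖WV P D (fun j => v' j - p0 P.z j) j + lam P D j‖ ≤ C1 * (1 + r) := by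
    intro j
    have hAs : As P D.s (fun j => v' j - p0 P.z j) j = v' j - p0 P.z j := by
      unfold As
      rw [c4b_s P D hD]
      simp [tt]
    have hpj : ‖p0 P.z j‖ ≤ p :=
      Finset.single_le_sum (f := fun l => ‖p0 P.z l‖) (fun i _ => norm_nonneg _) (Finset.mem_univ _)
    have hlj : ‖lam P D j‖ ≤ Λ :=
      Finset.single_le_sum (f := fun l => ‖lam P D l‖) (fun i _ => norm_nonneg _) (Finset.mem_univ _)
    have h1 : ‖v' j - p0 P.z j‖ ≤ (T + p) * (1 + r) := by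
      refine (norm_sub_le _ _).trans ?_
      rw [add_mul]
      have hpr : p ≤ p * (1 + r) := le_mul_of_one_le_right hp0 (by linarith)
      linarith [hvj j]
    unfold WV
    rw [hAs]
    refine (norm_add_le _ _).trans ?_
    rw [norm_mul]
    have h2 : ‖D.om‖ * ‖v' j - p0 P.z j‖ ≤ ‖D.om‖ * ((T + p) * (1 + r)) := mul_le_mul_of_nonneg_left h1 (norm_nonneg _)
    have h3 : C1 * (1 + r) = (1 + r) + ‖D.om‖ * ((T + p) * (1 + r)) + Λ * (1 + r) := by
      rw [hC1]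
      ring
    have h4 : Λ ≤ Λ * (1 + r) := le_mul_of_one_le_right hΛ0 (by linarith)
    linarith
  have hlin : ∀ j, nm ((d * E : ℕ) : ℝ) (lin P D (WV P D (fun j => v' j - p0 P.z j)) j) ≤ C1 * (1 + r) + R * ((d * E : ℕ) : ℝ) := by
    intro j
    refine (lin_nm P D _ j _ hn0).trans (add_le_add (hWV j) ?_)
    rw [mul_comm]
    refine mul_le_mul_of_nonneg_right ?_ hn0
    exact Finset.single_le_sum (f := fun j => 1 / ‖D.om‖ * ∑ l, ‖rhv P l j‖)
      (fun i _ => mul_nonneg (one_div_nonneg.mpr (norm_nonneg _)) (Finset.sum_nonneg fun _ _ => norm_nonneg _)) (Finset.mem_univ j)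
  have hsum : ∑ j, (κ j).val ≤ d * E := by
    calc ∑ j, (κ j).val ≤ ∑ _j : Fin d, E := Finset.sum_le_sum fun j _ => (κ j).isLt.le
      _ = d * E := by simp
  have hρ1 : 1 ≤ C1 * (1 + r) + R * ((d * E : ℕ) : ℝ) := by
    have h1 : 0 ≤ R * ((d * E : ℕ) : ℝ) := mul_nonneg hR0 hn0
    have h2 : 1 ≤ C1 * (1 + r) := one_le_mul_of_one_le_of_one_le hC10 (by linarith)
    linarith
  have hg : ‖GA P D (Pi.single κ 1) v'‖ ≤ A ^ (d + 1) * (C1 * (1 + r) + C3 * ((d * E : ℕ) : ℝ)) ^ (d * E) := by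
    unfold GA GR
    have hdeg : (MvPolynomial.aeval (lin P D (WV P D (fun j => v' j - p0 P.z j))) (Cs P D (Pi.single κ 1))).totalDegree ≤ d * E :=
      (lin_deg P D _ _).trans (Cs_deg P D _)
    refine (TH_bound D _ _ (d * E) hn1 hdeg A hA1 hth).trans ?_
    refine mul_le_mul_of_nonneg_left ?_ hA0
    refine (nm_aeval _ _ hn0 _ hlin _).trans ?_
    rw [b10_Cs]
    refine (nm_Bp (qq P D) a ha0 haq _ (d * E) hsum _ hρ1).trans (le_of_eq ?_)
    rw [hC3]
    congr 1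
    ring
  have hQ : Real.pi * r ^ 2 ≤ Qf P v' := by
    unfold Qf
    rw [hr2]
    have h1 : 0 ≤ ∑ l, (tt P.z v' l).im ^ 2 / P.z.im := by
      refine Finset.sum_nonneg fun l _ => div_nonneg (sq_nonneg _) him.le
    linarith [mul_nonneg Real.pi_pos.le h1, mul_add Real.pi (P2 P v') (∑ l, (tt P.z v' l).im ^ 2 / P.z.im)]
  have hnum := b10_num A C1 C3 C4 r hA1 (zero_le_one.trans hC10) hC30 (by rw [hC4]; linarith) (by rw [hC4]; linarith) hr0 d (d * E) hn1
  unfold Nn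
  have hfin : (C4 * ((d * E : ℕ) : ℝ)) ^ (d * E) * (A ^ (d + 1) * Real.exp 2) ≤ (C * E) ^ (d * E) * C := by
    have hE0 : (0 : ℝ) ≤ E := Nat.cast_nonneg _
    refine mul_le_mul (pow_le_pow_left₀ (mul_nonneg (zero_le_one.trans hC41) hn0) ?_ _) ?_ hAe ?_
    · rw [hC]
      rw [Nat.cast_mul, ← mul_assoc, add_mul (C4 * (d : ℝ)) (A ^ (d + 1) * Real.exp 2) (E : ℝ)]
      exact le_add_of_nonneg_right (mul_nonneg hAe hE0)
    · rw [hC]
      linarith
    · have : 0 ≤ C := by rw [hC]; linarith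
      exact pow_nonneg (mul_nonneg this hE0) _
  calc ‖GA P D (Pi.single κ 1) v'‖ * Real.exp (-(((1 : ℕ) : ℝ) * Qf P v'))
      ≤ (A ^ (d + 1) * (C1 * (1 + r) + C3 * ((d * E : ℕ) : ℝ)) ^ (d * E)) * Real.exp (-(Real.pi * r ^ 2)) := by
        refine mul_le_mul hg (Real.exp_le_exp.mpr ?_) (Real.exp_pos _).le ((norm_nonneg _).trans hg)
        push_cast
        linarith
    _ ≤ (C4 * ((d * E : ℕ) : ℝ)) ^ (d * E) * (A ^ (d + 1) * Real.exp 2) * Real.exp (-r ^ 2) := hnum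
    _ ≤ ((C * E) ^ (d * E) * C) * Real.exp (-r ^ 2) := mul_le_mul_of_nonneg_right hfin (Real.exp_pos _).le
    _ = (C * E) ^ (d * E) * C * Real.exp (-(((1 : ℕ) : ℝ) * P2 P v')) := by
        rw [hr2]
        push_cast
        rw [one_mul]

end Pool.Agent.MSR
end

end
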