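import Mathlib
import Pool.Agent.Lib.MP_f58a57_nt.FK.K035
import Pool.Agent.Lib.MP_f58a57_nt.FK.K041

namespace Pool.Agent.MSD
end Pool.Agent.MSD
namespace Pool.Agent.MSK
end Pool.Agent.MSK
namespace Pool.Agent.MSP
end Pool.Agent.MSP
namespace Pool.Agent.MSR
end Pool.Agent.MSR

section

/-! # U/Z9a_Const: the symbol has constant coefficients -/

open MvPolynomial

noncomputable section

namespace Pool.Agent.MSU

variable {M : Type} [Field M] [Algebra ℂ M] {Λ : Type}

private theorem ZA09_ofC_mem (N : ℕ) (g : Po ℂ) (hg : g.IsHomogeneous N) : (ofC g : Po M) ∈ Hs M N :=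
  IsHomogeneous.map hg _

/-- proportionality of forms -/
private theorem ZA09_prop (r N : ℕ) (Q H : Po M) (hQ : Q.IsHomogeneous r) (hH : H.IsHomogeneous r)
    (hH0 : H ≠ 0) (h : ∀ i : Fin 2, ∃ g : Po M, Q * (X i : Po M) ^ N = H * g) :
    ∃ c : M, Q = H * C c := by
  obtain ⟨g0, hg0⟩ := h 0
  obtain ⟨g1, hg1⟩ := h 1
  have hX0 : (X 0 : Po M) ≠ 0 := X_ne_zero 0
  have e1 : H * (g0 * (X 1) ^ N) = H * (g1 * (X 0) ^ N) := by
    rw [← mul_assoc, ← mul_assoc, ← hg0, ← hg1]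
    ring
  have e2 : g0 * (X 1 : Po M) ^ N = g1 * (X 0) ^ N := mul_left_cancel₀ hH0 e1
  have hp : Prime (X 0 : Po M) := X_prime
  have hnd : ¬ (X 0 : Po M) ∣ (X 1) ^ N := by
    intro hd
    have hd1 := hp.dvd_of_dvd_pow hd
    rw [X_dvd_X] at hd1
    exact absurd hd1 (by decide)
  have hdvd : (X 0 : Po M) ^ N ∣ g0 := by
    have h1 : (X 0 : Po M) ^ N ∣ (X 1) ^ N * g0 := by
      rw [mul_comm, e2]
      exact Dvd.intro_left _ rfl
    exact hp.pow_dvd_of_dvd_mul_left N hnd h1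
  obtain ⟨s, hs⟩ := hdvd
  have e3 : Q = H * s := by
    have h1 : Q * (X 0 : Po M) ^ N = (H * s) * (X 0) ^ N := by
      rw [hg0, hs]
      ring
    exact mul_right_cancel₀ (pow_ne_zero N hX0) h1
  by_cases hs0 : s = 0
  · exact ⟨0, by rw [e3, hs0, C_0]⟩
  · have hQ0 : Q ≠ 0 := by
      rw [e3]
      exact mul_ne_zero hH0 hs0
    have h1 := hQ.totalDegree hQ0
    have h2 := hH.totalDegree hH0
    rw [e3, totalDegree_mul_of_isDomain hH0 hs0, h2] at h1
    have h3 : s.totalDegree = 0 := by omega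
    rw [totalDegree_eq_zero_iff_eq_C] at h3
    exact ⟨_, by rw [e3]; exact congrArg _ h3⟩

/-- a polynomial with complex coefficients -/
private theorem ZA09_lift (H : Po M) (h : ∀ s, ∃ a : ℂ, H.coeff s = algebraMap ℂ M a) :
    ∃ g : Po ℂ, ofC g = H := by
  choose a ha using h
  refine ⟨∑ s ∈ H.support, monomial s (a s), ?_⟩
  ext s
  unfold ofC
  rw [coeff_map, coeff_sum]
  simp only [coeff_monomial, Finset.sum_ite_eq']
  split_ifs with hs
  · exact (ha s).symm
  · rw [map_zero]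
    exact (notMem_support_iff.1 hs).symm

/-- Z9a. PROOF. `two_var` for `A = J K (n+1) m`, `B = J K (n+1) (m+1)` (`J_le`, `J_X`) gives `r + a = m` and `h1` with `A = h1 Hs a`, `B = h1 Hs (a+1)`; divide by a nonzero coefficient of `h1` (at the monomial `m0`), so `h1.coeff m0 = 1`.
(i) `cD (Z j) h1 = 0`: let `g = (X i)^(a+1)`, `i = 0, 1`. `h1 g ∈ B` is the component of degree `m + 1` of some `P ∈ Rn K (n+1)`, `deg P ≤ m + 1`. By `Rn_Z`, `P' = cD (Z j) P - ∑ ... ∈ Rn K n`, `deg P' ≤ m + 1`, its component of degree `m + 1` is `cD (Z j) (h1 g) = cD (Z j) h1 * g`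
(`cD_hc`, `cD_mul_ofC`). So it is in `J K n (m+1) = B`: `cD (Z j) h1 * (X i)^(a+1) = h1 * g_i`, `g_i` a form of degree `a + 1`, for `i = 0, 1`. So `g_0 (X 1)^(a+1) = g_1 (X 0)^(a+1)`, and as `X 0, X 1` are coprime, `(X 0)^(a+1) ∣ g_0`, `g_0 = c (X 0)^(a+1)` (degrees), `cD (Z j) h1 = c h1`, `c ∈ M`;
the coefficient at `m0`: `c = Z j 1 = 0`.
(ii) `map (T w) h1 = h1`: same with `Rn_T` (in `Rn K (n+1)`): component of degree `m + 1` of `sh (lam w) (map (T w) P)` is `map (T w) (h1 g) = map (T w) h1 * g` (`hc_sh`, `hc_map`), it is in `B`: `map (T w) h1 = c h1`, and the coefficient at `m0` gives `c = 1`.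
(iii) Each coefficient `f` of `h1` has `Z j f = 0`, `T w f = f`: by `rigZ` (`κ = 0`, `c = 0`) it is a complex number. -/
theorem symbol (K : Ker M Λ) (n m a : ℕ) (h1 : J K (n + 1) m = J K n m) (h2 : J K (n + 1) (m + 1) = J K n (m + 1))
    (ha : Module.finrank M (J K (n + 1) m) = a + 1) (hb : Module.finrank M (J K (n + 1) (m + 1)) = a + 2) :
    ∃ r : ℕ, r + a = m ∧ ∃ h : Po ℂ, h ≠ 0 ∧ h.IsHomogeneous r ∧ (∀ P, P ∈ J K (n + 1) m ↔ ∃ g ∈ Hs M a, P = ofC h * g) ∧
      (∀ P, P ∈ J K (n + 1) (m + 1) ↔ ∃ g ∈ Hs M (a + 1), P = ofC h * g) := by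
  obtain ⟨r, hr, h0, h00, h0r, hA0, hB0⟩ := two_var m (J K (n + 1) m) (J K (n + 1) (m + 1))
    (J_le K (n + 1) m) (J_le K (n + 1) (m + 1)) (fun P hP i => J_X K (n + 1) m P hP i) a ha hb
  obtain ⟨m0, hm0⟩ : ∃ s, h0.coeff s ≠ 0 := ne_zero_iff.1 h00
  set u : M := h0.coeff m0 with hu
  -- the normalised form
  set H : Po M := C u⁻¹ * h0 with hH
  have hHm0 : H.coeff m0 = 1 := by
    rw [hH, coeff_C_mul, ← hu, inv_mul_cancel₀ hm0]
  have hH0 : H ≠ 0 := by
    intro h
    rw [h, coeff_zero] at hHm0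
    exact zero_ne_one hHm0
  have hHr : H.IsHomogeneous r := by
    have := (isHomogeneous_C (Fin 2) (u⁻¹ : M)).mul h0r
    rwa [zero_add] at this
  have hh0 : h0 = C u * H := by
    rw [hH, ← mul_assoc, ← C_mul, mul_inv_cancel₀ hm0, C_1, one_mul]
  have hscale : ∀ (N : ℕ) (P : Po M), (∃ g ∈ Hs M N, P = h0 * g) ↔ ∃ g ∈ Hs M N, P = H * g := by
    intro N P
    constructor
    · rintro ⟨g, hg, rfl⟩
      refine ⟨C u * g, ?_, by rw [hh0]; ring⟩
      have := (isHomogeneous_C (Fin 2) (u : M)).mul hg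
      rwa [zero_add] at this
    · rintro ⟨g, hg, rfl⟩
      refine ⟨C u⁻¹ * g, ?_, by rw [hH]; ring⟩
      have := (isHomogeneous_C (Fin 2) (u⁻¹ : M)).mul hg
      rwa [zero_add] at this
  have hA : ∀ P, P ∈ J K (n + 1) m ↔ ∃ g ∈ Hs M a, P = H * g := fun P => (hA0 P).trans (hscale a P)
  have hB : ∀ P, P ∈ J K (n + 1) (m + 1) ↔ ∃ g ∈ Hs M (a + 1), P = H * g :=
    fun P => (hB0 P).trans (hscale (a + 1) P)
  -- the complex forms `g = X i ^ (a + 1)`
  have hgi : ∀ i : Fin 2, (ofC ((X i : Po ℂ) ^ (a + 1)) : Po M) = (X i) ^ (a + 1) := by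
    intro i
    unfold ofC
    rw [map_pow, map_X]
  have hgh : ∀ i : Fin 2, ((X i : Po ℂ) ^ (a + 1)).IsHomogeneous (a + 1) := by
    intro i
    have := (isHomogeneous_X ℂ i).pow (a + 1)
    rwa [one_mul] at this
  have hP : ∀ i : Fin 2, ∃ P ∈ Rn K (n + 1), P.totalDegree ≤ m + 1 ∧
      homogeneousComponent (m + 1) P = H * ofC ((X i : Po ℂ) ^ (a + 1)) := by
    intro i
    exact (mem_J K (n + 1) (m + 1) _).1 ((hB _).2 ⟨_, ZA09_ofC_mem _ _ (hgh i), rfl⟩)
  -- (i)
  have hZ : ∀ j : Fin 2, cD (K.Z j) H = 0 := by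
    intro j
    obtain ⟨c, hc⟩ := ZA09_prop r (a + 1) (cD (K.Z j) H) H (cD_homog _ _ _ hHr) hHr hH0 (by
      intro i
      obtain ⟨P, hP1, hP2, hP3⟩ := hP i
      have hP' := Rn_Z K n P hP1 j
      have hdeg : ∀ i' : Fin 2, (cst (K.e i' j) * pderiv i' P : Po M).totalDegree ≤ m := by
        intro i'
        refine (totalDegree_mul _ _).trans ?_
        have h3 : (cst (K.e i' j) : Po M).totalDegree = 0 := totalDegree_C _
        have h4 := totalDegree_pderiv_lt m i' P hP2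
        omega
      have hdsum : (∑ i', cst (K.e i' j) * pderiv i' P : Po M).totalDegree ≤ m :=
        totalDegree_finsetSum_le fun i' _ => hdeg i'
      have hmem : cD (K.Z j) H * (X i) ^ (a + 1) ∈ J K n (m + 1) := by
        refine (mem_J K n (m + 1) _).2 ⟨_, hP', ?_, ?_⟩
        · refine (totalDegree_sub _ _).trans (max_le ((cD_totalDegree _ _).trans hP2) ?_)
          omega
        · rw [map_sub, cD_hc, hP3, cD_mul_ofC, hgi, homogeneousComponent_eq_zero (m + 1) _ (by omega), sub_zero]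
      rw [← h2] at hmem
      obtain ⟨g, -, hg⟩ := (hB _).1 hmem
      exact ⟨g, hg⟩)
    have h3 : (cD (K.Z j) H).coeff m0 = (H * C c).coeff m0 := by rw [hc]
    rw [coeff_cD, hHm0, mul_comm, coeff_C_mul, hHm0, mul_one, Derivation.map_one_eq_zero] at h3
    rw [hc, ← h3, C_0, mul_zero]
  -- (ii)
  have hT : ∀ w : Λ, map (K.T w) H = H := by
    intro w
    obtain ⟨c, hc⟩ := ZA09_prop r (a + 1) (map (K.T w) H) H (hHr.map _) hHr hH0 (by
      intro i
      obtain ⟨P, hP1, hP2, hP3⟩ := hP i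
      have hP' := Rn_T K (n + 1) P hP1 w
      have hd : (map (K.T w) P).totalDegree ≤ m + 1 :=
        (Finset.sup_mono (support_map_subset _ _)).trans hP2
      have hmem : map (K.T w) H * (X i) ^ (a + 1) ∈ J K (n + 1) (m + 1) := by
        refine (mem_J K (n + 1) (m + 1) _).2 ⟨_, hP', (sh_totalDegree _ _).trans hd, ?_⟩
        rw [(hc_sh _ m _ hd).1, hc_map, hP3, map_mul, map_ofC _ (K.TC w), hgi]
      obtain ⟨g, -, hg⟩ := (hB _).1 hmem
      exact ⟨g, hg⟩)
    have h3 : (map (K.T w) H).coeff m0 = (H * C c).coeff m0 := by rw [hc]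
    rw [coeff_map, hHm0, mul_comm, coeff_C_mul, hHm0, mul_one, map_one] at h3
    rw [hc, ← h3, C_1, mul_one]
  -- (iii)
  obtain ⟨h, hh⟩ := ZA09_lift H (by
    intro s
    refine (K.rigZ (H.coeff s) 0 0 (fun i => ?_) (fun w => ?_)).2
    · rw [← coeff_cD, hZ i, coeff_zero, Pi.zero_apply, map_zero]
    · have h3 : (map (K.T w) H).coeff s = H.coeff s := by rw [hT w]
      rw [coeff_map] at h3
      rw [h3]
      simp)
  have hinj : Function.Injective (algebraMap ℂ M) := (algebraMap ℂ M).injective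
  refine ⟨r, hr, h, ?_, ?_, fun P => ?_, fun P => ?_⟩
  · rintro rfl
    apply hH0
    rw [← hh]
    unfold ofC
    rw [map_zero]
  · intro s hs
    apply hHr
    rw [← hh]
    unfold ofC
    rw [coeff_map]
    intro h3
    exact hs (hinj (by rw [h3, map_zero]))
  · rw [hh]
    exact hA P
  · rw [hh]
    exact hB P

end Pool.Agent.MSU
end

end

section

/-! # U/Z9c_NoBlock: there is no block of constant Hilbert function -/

open MvPolynomial

noncomputable section

namespace Pool.Agent.MSU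

variable {M : Type} [Field M] [Algebra ℂ M] {Λ : Type}

theorem ZA11_ofC_mul (g g' : Po ℂ) : (ofC (g * g') : Po M) = ofC g * ofC g' := by
  simp [ofC]

theorem ZA11_ofC_homog (n : ℕ) (g : Po ℂ) (hg : g.IsHomogeneous n) : (ofC g : Po M).IsHomogeneous n := by
  unfold ofC
  exact hg.map _

theorem ZA11_pderiv_ofC (i : Fin 2) (g : Po ℂ) : pderiv i (ofC g : Po M) = ofC (pderiv i g) := by
  unfold ofC
  exact pderiv_map

/-- Z9c1. -/
theorem pi_exists (K : Ker M Λ) (n m a r' : ℕ) (hm : r' + 1 + a = m) (h L : Po ℂ) (hh : h.IsHomogeneous (r' + 1)) (hL : L.IsHomogeneous 1)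
    (hs : ∀ f ∈ Hs M (a + r' + 1), ∃ g ∈ Hs M a, ∃ p ∈ Hs M r', f = (ofC h : Po M) * g + ofC (L ^ (a + 1)) * p)
    (h1 : ∀ P, P ∈ J K (n + 1) m ↔ ∃ g ∈ Hs M a, P = ofC h * g)
    (h2 : ∀ P, P ∈ J K (n + 1) (m + 1) ↔ ∃ g ∈ Hs M (a + 1), P = ofC h * g) :
    ∃ P ∈ Rn K (n + 1), ∃ p ∈ Hs M r', P.totalDegree ≤ m + 1 ∧ homogeneousComponent (m + 1) P = ofC (h * L ^ (a + 1)) ∧
      homogeneousComponent m P = ofC (L ^ (a + 1)) * p := by
  classical
  have hLp : (L ^ (a + 1)).IsHomogeneous (a + 1) := by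
    have := hL.pow (a + 1)
    simpa using this
  have hmem : (ofC (h * L ^ (a + 1)) : Po M) ∈ J K (n + 1) (m + 1) := by
    rw [h2]
    refine ⟨ofC (L ^ (a + 1)), ?_, ZA11_ofC_mul _ _⟩
    rw [mem_homogeneousSubmodule]
    exact ZA11_ofC_homog _ _ hLp
  obtain ⟨P0, hP0, hd0, hc0⟩ := (mem_J K (n + 1) (m + 1) _).1 hmem
  obtain ⟨g, hg, p, hp, hf⟩ := hs (homogeneousComponent m P0) (by
    rw [mem_homogeneousSubmodule]
    have := homogeneousComponent_isHomogeneous m P0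
    have e : a + r' + 1 = m := by omega
    rw [e]
    exact this)
  have hm1 : (ofC h : Po M) * g ∈ J K (n + 1) m := (h1 _).2 ⟨g, hg, rfl⟩
  obtain ⟨P1, hP1, hd1, hc1⟩ := (mem_J K (n + 1) m _).1 hm1
  refine ⟨P0 - P1, Submodule.sub_mem _ hP0 hP1, p, hp, ?_, ?_, ?_⟩
  · exact (totalDegree_sub P0 P1).trans (max_le hd0 (by omega))
  · rw [map_sub, hc0, homogeneousComponent_eq_zero _ _ (by omega), sub_zero]
  · rw [map_sub, hf, hc1]
    ring

/-- Z9c2. -/
theorem pi_Z (K : Ker M Λ) (n m a r' : ℕ) (hm : r' + 1 + a = m) (h L : Po ℂ) (hh : h.IsHomogeneous (r' + 1)) (hL : L.IsHomogeneous 1)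
    (hu : ∀ g ∈ Hs M a, ∀ p ∈ Hs M r', (ofC h : Po M) * g + ofC (L ^ (a + 1)) * p = 0 → p = 0)
    (hJ : J K (n + 1) m = J K n m) (h1 : ∀ P, P ∈ J K (n + 1) m ↔ ∃ g ∈ Hs M a, P = ofC h * g)
    (P : Po M) (hP : P ∈ Rn K (n + 1)) (p : Po M) (hp : p ∈ Hs M r') (hd : P.totalDegree ≤ m + 1)
    (hc1 : homogeneousComponent (m + 1) P = ofC (h * L ^ (a + 1))) (hc0 : homogeneousComponent m P = ofC (L ^ (a + 1)) * p) (j : Fin 2) :
    cD (K.Z j) p = ∑ i, cst (K.e i j) * ofC (pderiv i h) := by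
  classical
  have hR := Rn_Z K n P hP j
  have hLa : (L ^ a).IsHomogeneous a := by
    have := hL.pow a
    simpa using this
  have hcst : ∀ (c : ℂ) (Q : Po M) (N : ℕ), Q.IsHomogeneous N → (cst c * Q : Po M).IsHomogeneous N := by
    intro c Q N hQ
    have h0 : (cst c : Po M).IsHomogeneous 0 := by
      unfold cst
      exact isHomogeneous_C _ _
    have := h0.mul hQ
    simpa using this
  -- degrees
  have hsum_le : ∀ (N : ℕ) (f : Fin 2 → Po M), (∀ i, (f i).totalDegree ≤ N) → (∑ i, f i).totalDegree ≤ N := by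
    intro N f hf
    rw [Fin.sum_univ_two]
    exact (totalDegree_add _ _).trans (max_le (hf 0) (hf 1))
  have hcstdeg : ∀ (c : ℂ) (Q : Po M) (N : ℕ), Q.totalDegree ≤ N → (cst c * Q : Po M).totalDegree ≤ N := by
    intro c Q N hQ
    refine (totalDegree_mul _ _).trans ?_
    have h0 : (cst c : Po M).totalDegree = 0 := by
      unfold cst
      exact totalDegree_C _
    omega
  have hdP' : (cD (K.Z j) P - ∑ i, cst (K.e i j) * pderiv i P).totalDegree ≤ m + 1 := by
    refine (totalDegree_sub _ _).trans (max_le ((cD_totalDegree _ _).trans hd) ?_)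
    refine hsum_le _ _ (fun i => hcstdeg _ _ _ ?_)
    exact (totalDegree_pderiv_lt m i P hd).trans (by omega)
  have hz : homogeneousComponent (m + 1 + 1) P = 0 := homogeneousComponent_eq_zero _ _ (by omega)
  have hcomp1 : homogeneousComponent (m + 1) (cD (K.Z j) P - ∑ i, cst (K.e i j) * pderiv i P) = 0 := by
    rw [map_sub, map_sum, cD_hc, hc1, cD_ofC, zero_sub, neg_eq_zero]
    refine Finset.sum_eq_zero (fun i _ => ?_)
    rw [hc_cst_mul, hc_pderiv, hz, map_zero, mul_zero]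
  have hdm := totalDegree_lt_of_hc m _ hdP' hcomp1
  have hcomp0 : homogeneousComponent m (cD (K.Z j) P - ∑ i, cst (K.e i j) * pderiv i P) =
      ofC (L ^ (a + 1)) * cD (K.Z j) p - ∑ i, cst (K.e i j) * (ofC (pderiv i h) * ofC (L ^ (a + 1)) +
        ofC h * (((a + 1 : ℕ) : Po M) * (ofC (L ^ a) * ofC (pderiv i L)))) := by
    rw [map_sub, map_sum, cD_hc, hc0, mul_comm (ofC (L ^ (a + 1))) p, cD_mul_ofC, mul_comm (cD (K.Z j) p)]
    congr 1
    refine Finset.sum_congr rfl (fun i _ => ?_)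
    rw [hc_cst_mul, hc_pderiv, hc1, ZA11_pderiv_ofC]
    congr 1
    rw [pderiv_mul, pderiv_pow]
    simp only [ofC, map_add, map_mul, map_pow, map_natCast, Nat.add_sub_cancel]
    ring
  have hJm : homogeneousComponent m (cD (K.Z j) P - ∑ i, cst (K.e i j) * pderiv i P) ∈ J K (n + 1) m := by
    rw [hJ, mem_J]
    exact ⟨_, hR, hdm, rfl⟩
  obtain ⟨g, hg, hgE⟩ := (h1 _).1 hJm
  rw [hcomp0] at hgE
  have hpdL : ∀ i, (pderiv i L).IsHomogeneous 0 := by
    intro i
    have := hL.pderiv (i := i)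
    simpa using this
  have hpdh : ∀ i, (pderiv i h).IsHomogeneous r' := by
    intro i
    have := hh.pderiv (i := i)
    simpa using this
  have hq : cD (K.Z j) p - ∑ i, cst (K.e i j) * ofC (pderiv i h) = 0 := by
    refine hu (-(g + ∑ i, cst (K.e i j) * (((a + 1 : ℕ) : Po M) * (ofC (L ^ a) * ofC (pderiv i L))))) ?_ _ ?_ ?_
    · refine Submodule.neg_mem _ (Submodule.add_mem _ hg (Submodule.sum_mem _ (fun i _ => ?_)))
      rw [mem_homogeneousSubmodule]
      refine hcst _ _ _ ?_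
      have e1 := (ZA11_ofC_homog (M := M) _ _ hLa).mul (ZA11_ofC_homog (M := M) _ _ (hpdL i))
      have e2 : (((a + 1 : ℕ) : Po M)).IsHomogeneous 0 := by
        have : (((a + 1 : ℕ) : Po M)) = C ((a + 1 : ℕ) : M) := by simp
        rw [this]
        exact isHomogeneous_C _ _
      have := e2.mul e1
      simpa using this
    · refine Submodule.sub_mem _ ?_ (Submodule.sum_mem _ (fun i _ => ?_))
      · rw [mem_homogeneousSubmodule]
        exact cD_homog _ _ _ ((mem_homogeneousSubmodule _ _).1 hp)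
      · rw [mem_homogeneousSubmodule]
        exact hcst _ _ _ (ZA11_ofC_homog _ _ (hpdh i))
    · rw [Fin.sum_univ_two] at hgE ⊢
      rw [Fin.sum_univ_two]
      linear_combination hgE
  exact sub_eq_zero.1 hq

theorem z12_pd (r : ℕ) (h : Po ℂ) (hh : h.IsHomogeneous (r + 1)) (i : Fin 2) : (pderiv i h).IsHomogeneous r := by
  have h1 := hh.pderiv (i := i)
  rwa [Nat.add_sub_cancel] at h1

theorem z12_ofC (r : ℕ) (h : Po ℂ) (hh : h.IsHomogeneous r) : (ofC h : Po M) ∈ Hs M r := by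
  rw [mem_homogeneousSubmodule]
  exact hh.map _

theorem z12_cst (r : ℕ) (b : ℂ) (f : Po M) (hf : f ∈ Hs M r) : cst b * f ∈ Hs M r := by
  rw [mem_homogeneousSubmodule] at hf ⊢
  exact hf.C_mul _

theorem z12_pd_ofC (i : Fin 2) (h : Po ℂ) : pderiv i (ofC h : Po M) = ofC (pderiv i h) := by
  unfold ofC
  rw [pderiv_map]

theorem z12_ofC_mul (f g : Po ℂ) : (ofC (f * g) : Po M) = ofC f * ofC g := map_mul _ _ _

theorem z12_ofC_add (f g : Po ℂ) : (ofC (f + g) : Po M) = ofC f + ofC g := map_add _ _ _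

/-- the derivative of the leading form -/
theorem z12_lead (a : ℕ) (h L : Po ℂ) (i : Fin 2) :
    pderiv i (ofC (h * L ^ (a + 1)) : Po M) =
      ofC (L ^ (a + 1)) * ofC (pderiv i h) + ofC h * ofC (((a + 1 : ℕ) : Po ℂ) * L ^ a * pderiv i L) := by
  rw [z12_pd_ofC, pderiv_mul, pderiv_pow, z12_ofC_add, z12_ofC_mul, z12_ofC_mul, Nat.add_sub_cancel,
    mul_comm (ofC (pderiv i h)) _]

theorem z12_Ld (a : ℕ) (L : Po ℂ) (hL : L.IsHomogeneous 1) (i : Fin 2) :
    (ofC (((a + 1 : ℕ) : Po ℂ) * L ^ a * pderiv i L) : Po M) ∈ Hs M a := by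
  refine z12_ofC a _ ?_
  have h1 : (L ^ a).IsHomogeneous (1 * a) := hL.pow a
  have h2 : (pderiv i L).IsHomogeneous 0 := z12_pd 0 L hL i
  have h3 : (C ((a + 1 : ℕ) : ℂ) * (L ^ a * pderiv i L) : Po ℂ).IsHomogeneous (1 * a + 0) := (h1.mul h2).C_mul _
  have e : (((a + 1 : ℕ) : Po ℂ) * L ^ a * pderiv i L) = C ((a + 1 : ℕ) : ℂ) * (L ^ a * pderiv i L) := by
    rw [map_natCast, mul_assoc]
  rw [e]
  rwa [one_mul, add_zero] at h3

/-- Z9c3. PROOF. `Rn_T`: `P' = sh (lam w) (map (T w) P) ∈ Rn K (n+1)`, and `P' - P ∈ Rn K (n+1)`. By `hc_sh`, `hc_map`, `map_ofC`: the component of degree `m + 1` of `P'` is that of `P`, so `deg (P' - P) ≤ m`, its component of degree `m` is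
`ofC (L^(a+1)) * (map (T w) p - p) + ∑ i, cst (lam w i) * pderiv i (ofC (h L^(a+1)))`, in `J K (n+1) m`. As in Z9c2. -/
theorem pi_T (K : Ker M Λ) (n m a r' : ℕ) (hm : r' + 1 + a = m) (h L : Po ℂ) (hh : h.IsHomogeneous (r' + 1)) (hL : L.IsHomogeneous 1)
    (hu : ∀ g ∈ Hs M a, ∀ p ∈ Hs M r', (ofC h : Po M) * g + ofC (L ^ (a + 1)) * p = 0 → p = 0)
    (h1 : ∀ P, P ∈ J K (n + 1) m ↔ ∃ g ∈ Hs M a, P = ofC h * g)
    (P : Po M) (hP : P ∈ Rn K (n + 1)) (p : Po M) (hp : p ∈ Hs M r') (hd : P.totalDegree ≤ m + 1)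
    (hc1 : homogeneousComponent (m + 1) P = ofC (h * L ^ (a + 1))) (hc0 : homogeneousComponent m P = ofC (L ^ (a + 1)) * p) (w : Λ) :
    map (K.T w) p = p - ∑ i, cst (K.lam w i) * ofC (pderiv i h) := by
  have hTP : (map (K.T w) P).totalDegree ≤ m + 1 := by
    refine le_trans ?_ hd
    refine Finset.sup_mono ?_
    exact support_map_subset _ _
  obtain ⟨e1, e0⟩ := hc_sh (K.lam w) m (map (K.T w) P) hTP
  rw [hc_map, hc1, map_ofC _ (K.TC w)] at e1
  rw [hc_map, hc_map, hc1, hc0, map_ofC _ (K.TC w), map_mul, map_ofC _ (K.TC w)] at e0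
  have hdS : (sh (K.lam w) (map (K.T w) P)).totalDegree ≤ m + 1 := (sh_totalDegree _ _).trans hTP
  have hR : sh (K.lam w) (map (K.T w) P) - P ∈ Rn K (n + 1) := Submodule.sub_mem _ (Rn_T K (n + 1) P hP w) hP
  have hdR : (sh (K.lam w) (map (K.T w) P) - P).totalDegree ≤ m := by
    refine totalDegree_lt_of_hc m _ ?_ ?_
    · exact (totalDegree_sub _ _).trans (max_le hdS hd)
    · rw [map_sub, e1, hc1, sub_self]
  have hJ : homogeneousComponent m (sh (K.lam w) (map (K.T w) P) - P) ∈ J K (n + 1) m :=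
    (mem_J K (n + 1) m _).2 ⟨_, hR, hdR, rfl⟩
  obtain ⟨g, hg, eg⟩ := (h1 _).1 hJ
  rw [map_sub, e0, hc0] at eg
  have es : ∑ i, cst (K.lam w i) * pderiv i (ofC (h * L ^ (a + 1)) : Po M) =
      ofC (L ^ (a + 1)) * (∑ i, cst (K.lam w i) * ofC (pderiv i h)) +
        ofC h * (∑ i, cst (K.lam w i) * ofC (((a + 1 : ℕ) : Po ℂ) * L ^ a * pderiv i L)) := by
    rw [Finset.mul_sum, Finset.mul_sum, ← Finset.sum_add_distrib]
    refine Finset.sum_congr rfl fun i _ => ?_
    rw [z12_lead]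
    ring
  rw [es] at eg
  have hg' : ((∑ i, cst (K.lam w i) * ofC (((a + 1 : ℕ) : Po ℂ) * L ^ a * pderiv i L)) - g : Po M) ∈ Hs M a := by
    refine Submodule.sub_mem _ (Submodule.sum_mem _ fun i _ => ?_) hg
    exact z12_cst a _ _ (z12_Ld a L hL i)
  have hmp : (map (K.T w) p) ∈ Hs M r' := by
    rw [mem_homogeneousSubmodule] at hp ⊢
    exact hp.map _
  have hp' : (map (K.T w) p - p + ∑ i, cst (K.lam w i) * ofC (pderiv i h) : Po M) ∈ Hs M r' := by
    refine Submodule.add_mem _ (Submodule.sub_mem _ hmp hp) (Submodule.sum_mem _ fun i _ => ?_)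
    exact z12_cst r' _ _ (z12_ofC r' _ (z12_pd r' h hh i))
  have key := hu _ hg' _ hp' (by linear_combination eg)
  linear_combination key

theorem z12_pd_zero (r : ℕ) (h : Po ℂ) (hh : h.IsHomogeneous (r + 1)) (hz : ∀ i, pderiv i h = 0) : h = 0 := by
  have h1 := hh.sum_X_mul_pderiv
  rw [Finset.sum_eq_zero fun i _ => by rw [hz i, mul_zero]] at h1
  have h2 : ((r + 1 : ℕ) : ℂ) • h = 0 := by
    rw [Nat.cast_smul_eq_nsmul, ← h1]
  rcases smul_eq_zero.1 h2 with h3 | h3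
  · exact absurd h3 (by exact_mod_cast Nat.succ_ne_zero r)
  · exact h3

theorem z12_coeff (b : ℂ) (g : Po ℂ) (m1 : Fin 2 →₀ ℕ) :
    (cst b * ofC g : Po M).coeff m1 = algebraMap ℂ M (b * g.coeff m1) := by
  unfold cst ofC
  rw [coeff_C_mul, coeff_map, map_mul]

/-- Z9c4. PROOF. By contradiction and `symbol`: `a0 = finrank (J K (n+1) m) = a + 1 ≥ 1` as `aa K (n+1) m ≤ m`, and `finrank (J K (n+1) (m+1)) = m + 2 - aa = a + 2`. `r = aa K (n+1) m`; if `r = r' + 1`: `split_forms`, `pi_exists`, `pi_Z`, `pi_T`. For a monomial `m1` let `f = p.coeff m1` and `c i = -(pderiv i h).coeff m1`: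
`Z j f` and `T w f - f = ∑ c i lam w i` as in `rigZ`, so `c = 0`: `pderiv i h = 0` for `i = 0, 1`, and `h` is a form of degree `r' + 1 ≥ 1`: `h = 0` (Euler), contradiction. (`aa_add`; `J K n m` has the same dimension as `J K (n+1) m` and is larger, so they are equal: `Submodule.eq_of_le_of_finrank_eq`, `J_anti`.) -/
theorem no_block (K : Ker M Λ) (n m : ℕ) (h0 : aa K (n + 1) (m + 1) = aa K (n + 1) m) (h1 : aa K n m = aa K (n + 1) m)
    (h2 : aa K n (m + 1) = aa K (n + 1) m) (h3 : aa K (n + 1) m ≤ m) : aa K (n + 1) m = 0 := by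
  obtain ⟨a, ha⟩ := Nat.exists_eq_add_of_le h3
  have d0 := aa_add K (n + 1) m
  have d1 := aa_add K (n + 1) (m + 1)
  have d2 := aa_add K n m
  have d3 := aa_add K n (m + 1)
  have f0 : Module.finrank M (J K (n + 1) m) = a + 1 := by omega
  have f1 : Module.finrank M (J K (n + 1) (m + 1)) = a + 2 := by omega
  have hfin : ∀ n' k, FiniteDimensional M (J K n' k) := fun n' k =>
    Submodule.finiteDimensional_of_le (J_le K n' k)
  have e0 : J K (n + 1) m = J K n m := by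
    have := hfin n m
    exact Submodule.eq_of_le_of_finrank_eq (J_anti K n m) (by omega)
  have e1 : J K (n + 1) (m + 1) = J K n (m + 1) := by
    have := hfin n (m + 1)
    exact Submodule.eq_of_le_of_finrank_eq (J_anti K n (m + 1)) (by omega)
  obtain ⟨r, hr, h, hne, hh, k1, k2⟩ := symbol K n m a e0 e1 f0 f1
  have hra : aa K (n + 1) m = r := by omega
  rw [hra]
  rcases r with _ | r'
  · rfl
  exfalso
  obtain ⟨L, hL, -, hN⟩ := split_forms (M := M) r' h hne hh
  obtain ⟨hu, hs⟩ := hN a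
  obtain ⟨P, hP, p, hp, hd, c1, c0⟩ := pi_exists K n m a r' hr h L hh hL hs k1 k2
  have hZ := pi_Z K n m a r' hr h L hh hL hu e0 k1 P hP p hp hd c1 c0
  have hT := pi_T K n m a r' hr h L hh hL hu k1 P hP p hp hd c1 c0
  apply hne
  refine z12_pd_zero r' h hh fun i => ?_
  ext m1
  rw [coeff_zero]
  have hrig := K.rigZ (p.coeff m1) (fun j => ∑ i, K.e i j * (pderiv i h).coeff m1)
    (fun i => -(pderiv i h).coeff m1) ?_ ?_
  · have := congrFun hrig.1 i
    simpa using this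
  · intro j
    rw [← coeff_cD, hZ j, coeff_sum, map_sum]
    exact Finset.sum_congr rfl fun i _ => z12_coeff _ _ _
  · intro w
    rw [← coeff_map, hT w, coeff_sub, coeff_sum, map_sum, sub_eq_add_neg, ← Finset.sum_neg_distrib]
    congr 1
    refine Finset.sum_congr rfl fun i _ => ?_
    rw [z12_coeff, ← map_neg]
    congr 1
    ring

end Pool.Agent.MSU
end

end

section

/-! # K/A4_Gmon: the entire version of the monomials -/

open Complex

noncomputable section

namespace Pool.Agent.MSK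

open MSD MSP

variable {d : ℕ}

theorem a4_ps (D : Dt d) (t : Fin (d + 1) → ℂ) (h : pp D t ≠ 0) (l : Fin (d + 1)) :
    D.ps l (t l) * pp D t = En D t l := by
  have h0 : N0 D.τ (D.h l + t l) ≠ 0 := (Finset.prod_ne_zero_iff.mp h) l (Finset.mem_univ l)
  unfold pp En
  rw [← Finset.mul_prod_erase Finset.univ (fun m => N0 D.τ (D.h m + t m)) (Finset.mem_univ l), ← mul_assoc]
  congr 1
  unfold Dt.ps
  rw [show ph D.τ (D.h l + t l) = N1 D.τ (D.h l + t l) / N0 D.τ (D.h l + t l) from rfl]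
  field_simp

theorem a4_Xi (P : Par d) (D : Dt d) (w : Fin d → ℂ) (t : Fin (d + 1) → ℂ) (h : pp D t ≠ 0) (j : Fin d) :
    Xi P D w t j * pp D t = Zn P D w t j := by
  unfold Xi Zn
  rw [← a4_ps D t h j.castSucc, ← a4_ps D t h (Fin.last d), ← a4_ps D t h j.succ]
  ring

/-- A4a. PROOF. `X l = N2/(N0² om²)`, `ps l = (N1 - ph(h) N0)/N0`, so `En l = ps l · pp`, `Zn j = Xi j · pp`; count the exponents of `N0 (h_l + t_l)`: `2 a + 2 (L - a) = 2L` from the first product and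
`L` from each of the `d` factors `Zn^i pp^(L-i)`. -/
theorem gmon_eq (P : Par d) (D : Dt d) {L : ℕ} (ν : Ix d L) (w : Fin d → ℂ) (t : Fin (d + 1) → ℂ) (h : pp D t ≠ 0) :
    mon P D ν w t * pp D t ^ ((d + 2) * L) = gmon P D ν w t := by
  have e1 : pp D t ^ ((d + 2) * L) = (∏ l, N0 D.τ (D.h l + t l) ^ (2 * L)) * ∏ _j : Fin d, pp D t ^ L := by
    rw [Finset.prod_const, Finset.card_univ, Fintype.card_fin, Finset.prod_pow, ← pow_mul]
    rw [show (∏ l, N0 D.τ (D.h l + t l)) = pp D t from rfl, ← pow_add]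
    congr 1
    ring
  unfold mon gmon
  rw [e1, mul_mul_mul_comm, ← Finset.prod_mul_distrib, ← Finset.prod_mul_distrib]
  congr 1
  · refine Finset.prod_congr rfl (fun l _ => ?_)
    have h0 : N0 D.τ (D.h l + t l) ≠ 0 := (Finset.prod_ne_zero_iff.mp h) l (Finset.mem_univ l)
    have ha : (ν.1 l).val ≤ L := (ν.1 l).isLt.le
    have hp : N0 D.τ (D.h l + t l) ^ (2 * L) = (N0 D.τ (D.h l + t l) ^ 2) ^ (ν.1 l).val *
        N0 D.τ (D.h l + t l) ^ (2 * (L - (ν.1 l).val)) := by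
      rw [← pow_mul, ← pow_add]
      congr 1
      omega
    rw [hp, ← mul_assoc, ← mul_pow]
    congr 2
    unfold Dt.X
    rw [show wp D.τ (sE D.τ) (D.h l + t l) = N2 D.τ (sE D.τ) (D.h l + t l) / N0 D.τ (D.h l + t l) ^ 2 from rfl]
    field_simp
  · refine Finset.prod_congr rfl (fun j _ => ?_)
    have hi : (ν.2 j).val ≤ L := (ν.2 j).isLt.le
    have hp : pp D t ^ L = pp D t ^ (ν.2 j).val * pp D t ^ (L - (ν.2 j).val) := by
      rw [← pow_add]
      congr 1
      omega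
    rw [hp, ← mul_assoc, ← mul_pow, a4_Xi P D w t h j]

theorem a4_prod {ι : Type*} [DecidableEq ι] (S : Finset ι) (f : ι → (Fin d → ℂ) → ℂ) (h : ∀ i ∈ S, Differentiable ℂ (f i)) :
    Differentiable ℂ (fun v : Fin d → ℂ => ∏ i ∈ S, f i v) := by
  induction S using Finset.induction_on with
  | empty => simp
  | insert a S ha ih =>
    simp only [Finset.prod_insert ha]
    exact (h a (Finset.mem_insert_self a S)).mul (ih (fun i hi => h i (Finset.mem_insert_of_mem hi)))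

theorem a4_tt (z : ℂ) (l : Fin (d + 1)) : Differentiable ℂ (fun v : Fin d → ℂ => tt z v l) := by
  refine Fin.cases ?_ (fun j => ?_) l
  · simp only [tt, Fin.cons_zero]
    fun_prop
  · simp only [tt, Fin.cons_succ]
    fun_prop

theorem a4_pp (P : Par d) (D : Dt d) : Differentiable ℂ (fun v : Fin d → ℂ => pp D (tt P.z v)) := by
  unfold pp
  refine a4_prod _ _ (fun l _ => ?_)
  exact (e1_N0_diff D.τ D.im).comp ((a4_tt P.z l).const_add (D.h l))

theorem a4_En (P : Par d) (D : Dt d) (l : Fin (d + 1)) :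
    Differentiable ℂ (fun v : Fin d → ℂ => En D (tt P.z v) l) := by
  unfold En
  have h1 : Differentiable ℂ (fun v : Fin d → ℂ => N1 D.τ (D.h l + tt P.z v l)) :=
    (e1_N1_diff D.τ D.im).comp ((a4_tt P.z l).const_add (D.h l))
  have h0 : ∀ m : Fin (d + 1), Differentiable ℂ (fun v : Fin d → ℂ => N0 D.τ (D.h m + tt P.z v m)) :=
    fun m => (e1_N0_diff D.τ D.im).comp ((a4_tt P.z m).const_add (D.h m))
  refine (h1.sub ((h0 l).const_mul _)).mul ?_
  exact a4_prod _ _ (fun m _ => h0 m)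

theorem a4_Zn (P : Par d) (D : Dt d) (j : Fin d) :
    Differentiable ℂ (fun v : Fin d → ℂ => Zn P D v (tt P.z v) j) := by
  unfold Zn As
  have hA : Differentiable ℂ (fun v : Fin d → ℂ => tt P.z v j.succ + D.s * (tt P.z v j.castSucc +
      P.b j.succ * tt P.z v (Fin.last d) - P.z * tt P.z v j.succ)) := by
    have h1 := a4_tt (d := d) P.z j.succ
    have h2 := a4_tt (d := d) P.z j.castSucc
    have h3 := a4_tt (d := d) P.z (Fin.last d)
    exact h1.add (((h2.add (h3.const_mul _)).sub (h1.const_mul _)).const_mul _)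
  refine ((hA.const_mul _).mul (a4_pp P D)).sub (Differentiable.const_mul ?_ _)
  exact ((a4_En P D _).add ((a4_En P D _).const_mul _)).sub ((a4_En P D _).const_mul _)

/-- A4b. the entire function on `V` -/
theorem gmon_differentiable (P : Par d) (D : Dt d) {L : ℕ} (ν : Ix d L) :
    Differentiable ℂ (fun v : Fin d → ℂ => gmon P D ν v (tt P.z v)) := by
  unfold gmon
  refine Differentiable.mul ?_ ?_
  · refine a4_prod _ _ (fun l _ => ?_)
    have h2 : Differentiable ℂ (fun v : Fin d → ℂ => N2 D.τ (sE D.τ) (D.h l + tt P.z v l)) :=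
      (e1_N2_diff D.τ (sE D.τ) D.im).comp ((a4_tt P.z l).const_add (D.h l))
    have h0 : Differentiable ℂ (fun v : Fin d → ℂ => N0 D.τ (D.h l + tt P.z v l)) :=
      (e1_N0_diff D.τ D.im).comp ((a4_tt P.z l).const_add (D.h l))
    have h2' : Differentiable ℂ (fun v : Fin d → ℂ => N2 D.τ (sE D.τ) (D.h l + tt P.z v l) / D.om ^ 2) := by
      simp only [div_eq_mul_inv]
      exact h2.mul_const _
    exact (h2'.pow _).mul (h0.pow _)
  · refine a4_prod _ _ (fun j _ => ?_)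
    exact ((a4_Zn P D j).pow _).mul ((a4_pp P D).pow _)

theorem pp_differentiable (P : Par d) (D : Dt d) : Differentiable ℂ (fun v : Fin d → ℂ => pp D (tt P.z v)) := by
  exact a4_pp P D

theorem pp_zero_ne (D : Dt d) : pp D 0 ≠ 0 := by
  unfold pp
  refine Finset.prod_ne_zero_iff.mpr (fun l _ => ?_)
  simpa [N0] using D.hh l

end Pool.Agent.MSK
end

end

section

/-! # R/B3_THLine: the operators `bb` as derivatives along a line -/

open Complex Filter Topology IntermediateField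

noncomputable section

namespace Pool.Agent.MSR

open MSD MSP MSK

variable {d : ℕ}

/-- the linear form of the direction -/
def b3_N (P : Par d) (D : Dt d) (j : Fin d) : MvPolynomial (Fin (d + 1)) ℂ :=
  ∑ l, MvPolynomial.C (-(1 / D.om * rhv P l j)) * MvPolynomial.X l

theorem b3_lin (P : Par d) (D : Dt d) (W : Fin d → ℂ) (j : Fin d) :
    lin P D W j = MvPolynomial.C (W j + lam P D j) + b3_N P D j := by
  unfold lin b3_N
  rw [sub_eq_add_neg, Finset.mul_sum, ← Finset.sum_neg_distrib]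
  congr 1
  refine Finset.sum_congr rfl fun l _ => ?_
  rw [map_neg, map_mul]
  ring

theorem b3_TH_neg (D : Dt d) (t : Fin (d + 1) → ℂ) (p : MvPolynomial (Fin (d + 1)) ℂ) : TH D t (-p) = -TH D t p := by
  have h : -p = MvPolynomial.C (-1) * p := by
    rw [map_neg, MvPolynomial.C_1, neg_one_mul]
  rw [h, TH_C_mul, neg_one_mul]

theorem b3_gen (P : Par d) (D : Dt d) (j : Fin d) (W : Fin d → ℂ) (t : Fin (d + 1) → ℂ) (B : MvPolynomial (Fin d) ℂ) :
    ∀ q₀ : MvPolynomial (Fin (d + 1)) ℂ, HasDerivAt (fun s : ℂ => TH D (fun l => t l + s * -(1 / D.om * rhv P l j))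
        (q₀ * MvPolynomial.aeval (lin P D (fun i => W i + s * qq P D i j)) B))
      (TH D t (b3_N P D j * (q₀ * MvPolynomial.aeval (lin P D W) B)) +
        TH D t (q₀ * MvPolynomial.aeval (lin P D W) (∑ i, MvPolynomial.C (qq P D i j) * MvPolynomial.pderiv i B))) 0 := by
  classical
  have hW0 : (fun i => W i + (0 : ℂ) * qq P D i j) = W := by
    funext i
    rw [zero_mul, add_zero]
  have ht0 : (fun l => t l + (0 : ℂ) * -(1 / D.om * rhv P l j)) = t := by
    funext l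
    rw [zero_mul, add_zero]
  induction B using MvPolynomial.induction_on with
  | C a =>
    intro q₀
    have h1 := TH_line D t (fun l => -(1 / D.om * rhv P l j)) (q₀ * MvPolynomial.aeval (lin P D W) (MvPolynomial.C a)) 0
    have e1 : ∀ s : ℂ, MvPolynomial.aeval (lin P D (fun i => W i + s * qq P D i j)) (MvPolynomial.C a : MvPolynomial (Fin d) ℂ) =
        MvPolynomial.aeval (lin P D W) (MvPolynomial.C a) := by
      intro s
      rw [MvPolynomial.aeval_C, MvPolynomial.aeval_C]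
    have e2 : (∑ i, MvPolynomial.C (qq P D i j) * MvPolynomial.pderiv i (MvPolynomial.C a : MvPolynomial (Fin d) ℂ)) = 0 := by
      refine Finset.sum_eq_zero fun i _ => ?_
      rw [MvPolynomial.pderiv_C, mul_zero]
    have e3 : TH D t (0 : MvPolynomial (Fin (d + 1)) ℂ) = 0 := by
      unfold TH
      rw [MvPolynomial.support_zero, Finset.sum_empty]
    rw [e2, map_zero, mul_zero, e3, add_zero]
    simp only [e1]
    rw [ht0] at h1
    exact h1
  | add p q hp hq =>
    intro q₀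
    have h1 := (hp q₀).fun_add (hq q₀)
    have e1 : (fun s : ℂ => TH D (fun l => t l + s * -(1 / D.om * rhv P l j))
        (q₀ * MvPolynomial.aeval (lin P D (fun i => W i + s * qq P D i j)) (p + q))) =
        fun s : ℂ => TH D (fun l => t l + s * -(1 / D.om * rhv P l j))
          (q₀ * MvPolynomial.aeval (lin P D (fun i => W i + s * qq P D i j)) p) +
          TH D (fun l => t l + s * -(1 / D.om * rhv P l j)) (q₀ * MvPolynomial.aeval (lin P D (fun i => W i + s * qq P D i j)) q) := by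
      funext s
      rw [map_add, mul_add, TH_add]
    have e2 : (∑ i, MvPolynomial.C (qq P D i j) * MvPolynomial.pderiv i (p + q)) =
        (∑ i, MvPolynomial.C (qq P D i j) * MvPolynomial.pderiv i p) + ∑ i, MvPolynomial.C (qq P D i j) * MvPolynomial.pderiv i q := by
      rw [← Finset.sum_add_distrib]
      refine Finset.sum_congr rfl fun i _ => ?_
      rw [map_add, mul_add]
    rw [e1, e2, map_add, map_add, mul_add, mul_add, mul_add, TH_add, TH_add]
    have e3 : ∀ x y z w : ℂ, x + y + (z + w) = x + z + (y + w) := fun x y z w => by ring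
    rw [e3]
    exact h1
  | mul_X p i hp =>
    intro q₀
    have h1 := hp q₀
    have h2 := hp (q₀ * b3_N P D i)
    have h3 : HasDerivAt (fun s : ℂ => W i + s * qq P D i j + lam P D i) (qq P D i j) 0 := by
      simpa using (((hasDerivAt_id (0 : ℂ)).mul_const (qq P D i j)).const_add (W i)).add_const (lam P D i)
    have h4 := (h3.fun_mul h1).fun_add h2
    have e1 : (fun s : ℂ => TH D (fun l => t l + s * -(1 / D.om * rhv P l j))
        (q₀ * MvPolynomial.aeval (lin P D (fun i => W i + s * qq P D i j)) (p * MvPolynomial.X i))) =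
        fun s : ℂ => (W i + s * qq P D i j + lam P D i) * TH D (fun l => t l + s * -(1 / D.om * rhv P l j))
          (q₀ * MvPolynomial.aeval (lin P D (fun i => W i + s * qq P D i j)) p) +
          TH D (fun l => t l + s * -(1 / D.om * rhv P l j)) (q₀ * b3_N P D i * MvPolynomial.aeval (lin P D (fun i => W i + s * qq P D i j)) p) := by
      funext s
      rw [map_mul, MvPolynomial.aeval_X, b3_lin, ← TH_C_mul, ← TH_add]
      congr 1
      ring
    have e2 : (∑ k, MvPolynomial.C (qq P D k j) * MvPolynomial.pderiv k (p * MvPolynomial.X i)) =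
        (∑ k, MvPolynomial.C (qq P D k j) * MvPolynomial.pderiv k p) * MvPolynomial.X i + MvPolynomial.C (qq P D i j) * p := by
      rw [Finset.sum_mul]
      have e3 : ∀ k : Fin d, MvPolynomial.C (qq P D k j) * MvPolynomial.pderiv k (p * MvPolynomial.X i) =
          MvPolynomial.C (qq P D k j) * MvPolynomial.pderiv k p * MvPolynomial.X i +
            if k = i then MvPolynomial.C (qq P D k j) * p else 0 := by
        intro k
        rw [Derivation.leibniz, smul_eq_mul, smul_eq_mul, MvPolynomial.pderiv_X]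
        by_cases hk : k = i
        · rw [if_pos hk, hk, Pi.single_eq_same]
          ring
        · rw [if_neg hk, Pi.single_eq_of_ne (Ne.symm hk)]
          ring
      rw [Finset.sum_congr rfl fun k _ => e3 k, Finset.sum_add_distrib, Finset.sum_ite_eq' Finset.univ i, if_pos (Finset.mem_univ i)]
    rw [e1]
    have e5 : TH D t (b3_N P D j * (q₀ * MvPolynomial.aeval (lin P D W) (p * MvPolynomial.X i))) +
        TH D t (q₀ * MvPolynomial.aeval (lin P D W) (∑ k, MvPolynomial.C (qq P D k j) * MvPolynomial.pderiv k (p * MvPolynomial.X i))) =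
        qq P D i j * TH D (fun l => t l + (0 : ℂ) * -(1 / D.om * rhv P l j))
            (q₀ * MvPolynomial.aeval (lin P D (fun i => W i + (0 : ℂ) * qq P D i j)) p) +
          (W i + 0 * qq P D i j + lam P D i) * (TH D t (b3_N P D j * (q₀ * MvPolynomial.aeval (lin P D W) p)) +
            TH D t (q₀ * MvPolynomial.aeval (lin P D W) (∑ i, MvPolynomial.C (qq P D i j) * MvPolynomial.pderiv i p))) +
          (TH D t (b3_N P D j * (q₀ * b3_N P D i * MvPolynomial.aeval (lin P D W) p)) +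
            TH D t (q₀ * b3_N P D i * MvPolynomial.aeval (lin P D W) (∑ i, MvPolynomial.C (qq P D i j) * MvPolynomial.pderiv i p))) := by
      rw [hW0, ht0, e2, zero_mul, add_zero, mul_add, ← TH_C_mul, ← TH_C_mul, ← TH_C_mul, ← TH_add, ← TH_add, ← TH_add, ← TH_add, ← TH_add]
      congr 1
      rw [map_mul, map_add, map_mul, map_mul, MvPolynomial.aeval_X, MvPolynomial.aeval_C, b3_lin]
      have e6 : (algebraMap ℂ (MvPolynomial (Fin (d + 1)) ℂ)) (qq P D i j) = MvPolynomial.C (qq P D i j) := rfl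
      rw [e6]
      ring
    rw [e5]
    exact h4

/-- B3. PROOF. Put `T(s)_l = t_l - (s/om) rhv_lj`, `W(s)_i = W_i + s q_ij`, `η_l = -(1/om) rhv P l j`, `N = ∑ C(η_l) X_l`. More generally for every polynomial `q₀` the function `s ↦ TH (T s) (q₀ * aeval (lin (W s)) B)` has at `0` the derivative
`TH t (N q₀ aeval (lin W) B) + TH t (q₀ aeval (lin W) (∑_i C(q_ij) pderiv i B))`. Induction on `B` (`MvPolynomial.induction_on`): for `B = C a` it is `TH_line`; sums are clear; for `B X_i`: `lin (W s) i = C(W_i + lam_i + s q_ij) + M_i`, `M_i` independent of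
`s`, so `q₀ aeval(B X_i) = C(W_i + lam_i + s q_ij) (q₀ aeval B) + (q₀ M_i) aeval B`: use the product rule for the first term (`TH_C_mul`), the induction hypothesis for `q₀ M_i` for the second, and `pderiv (B X_i)` by the Leibniz rule.
With `q₀ = 1`: `bb q j B = X j * B + ∑ C(q_ij) pderiv i B`, and `aeval (lin W) (X j * B) = (C(W_j + lam_j) + N) aeval B` because `lin W j = C(W_j + lam_j) + N`. -/
theorem th_line (P : Par d) (D : Dt d) (j : Fin d) (W : Fin d → ℂ) (t : Fin (d + 1) → ℂ) (B : MvPolynomial (Fin d) ℂ) :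
    HasDerivAt (fun s : ℂ => TH D (fun l => t l - s / D.om * rhv P l j)
        (MvPolynomial.aeval (lin P D (fun i => W i + s * qq P D i j)) B))
      (TH D t (MvPolynomial.aeval (lin P D W) (bb (qq P D) j B)) -
        (W j + lam P D j) * TH D t (MvPolynomial.aeval (lin P D W) B)) 0 := by
  have h1 := b3_gen P D j W t B 1
  have e1 : (fun s : ℂ => TH D (fun l => t l - s / D.om * rhv P l j)
        (MvPolynomial.aeval (lin P D (fun i => W i + s * qq P D i j)) B)) =
      fun s : ℂ => TH D (fun l => t l + s * -(1 / D.om * rhv P l j))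
        (1 * MvPolynomial.aeval (lin P D (fun i => W i + s * qq P D i j)) B) := by
    funext s
    rw [one_mul]
    congr 1
    funext l
    ring
  have e2 : TH D t (MvPolynomial.aeval (lin P D W) (bb (qq P D) j B)) - (W j + lam P D j) * TH D t (MvPolynomial.aeval (lin P D W) B) =
      TH D t (b3_N P D j * (1 * MvPolynomial.aeval (lin P D W) B)) +
        TH D t (1 * MvPolynomial.aeval (lin P D W) (∑ i, MvPolynomial.C (qq P D i j) * MvPolynomial.pderiv i B)) := by
    rw [sub_eq_iff_eq_add, ← TH_C_mul, ← TH_add, ← TH_add]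
    congr 1
    unfold bb
    rw [map_add, map_mul, MvPolynomial.aeval_X, b3_lin]
    ring
  rw [e1, e2]
  exact h1

end Pool.Agent.MSR
end

end

section

/-! # R/B6_Diff: the functions are entire -/

open Complex Filter Topology IntermediateField

noncomputable section

namespace Pool.Agent.MSR

open MSD MSP MSK

variable {d : ℕ}

/-- the coordinates of `tt z v` are differentiable in `v` -/
theorem b6_tt (z : ℂ) (l : Fin (d + 1)) : Differentiable ℂ (fun v : Fin d → ℂ => tt z v l) := by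
  refine Fin.cases ?_ (fun j => ?_) l
  · simp only [tt, Fin.cons_zero]
    fun_prop
  · simp only [tt, Fin.cons_succ]
    fun_prop

theorem b6_prod {ι : Type} (s : Finset ι) (f : ι → (Fin d → ℂ) → ℂ) (h : ∀ i, Differentiable ℂ (f i)) :
    Differentiable ℂ (fun v => ∏ i ∈ s, f i v) := by
  classical
  induction s using Finset.induction_on with
  | empty => simp only [Finset.prod_empty]; exact differentiable_const _
  | insert a s ha ih =>
    simp only [Finset.prod_insert ha]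
    exact (h a).mul ih

theorem b6_fix (z : ℂ) (D : Dt d) (q : MvPolynomial (Fin (d + 1)) ℂ) :
    Differentiable ℂ (fun v : Fin d → ℂ => TH D (tt z v) q) := by
  have h0 : ContDiff ℂ ⊤ (th D.τ) := (th_differentiable D.τ D.im).contDiff
  have h1 : ∀ m : ℕ, Differentiable ℂ (iteratedDeriv m (th D.τ)) := fun m =>
    h0.differentiable_iteratedDeriv m (by exact_mod_cast WithTop.coe_lt_top _)
  unfold TH
  refine Differentiable.fun_sum fun m _ => ?_
  refine Differentiable.const_mul ?_ _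
  exact b6_prod Finset.univ (fun l (v : Fin d → ℂ) => iteratedDeriv (m l) (th D.τ) (D.h l + tt z v l))
    fun l => (h1 (m l)).comp ((differentiable_const _).add (b6_tt z l))

theorem b6_mul (z : ℂ) (D : Dt d) (a : Fin d → (Fin d → ℂ) → ℂ) (ha : ∀ k, Differentiable ℂ (a k))
    (M : Fin d → MvPolynomial (Fin (d + 1)) ℂ) (B : MvPolynomial (Fin d) ℂ) :
    ∀ q₀ : MvPolynomial (Fin (d + 1)) ℂ, Differentiable ℂ (fun v : Fin d → ℂ =>
      TH D (tt z v) (q₀ * MvPolynomial.aeval (fun k => MvPolynomial.C (a k v) + M k) B)) := by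
  induction B using MvPolynomial.induction_on with
  | C b =>
    intro q₀
    simp only [MvPolynomial.aeval_C, MvPolynomial.algebraMap_eq]
    exact b6_fix z D _
  | add p q hp hq =>
    intro q₀
    simp only [map_add, mul_add, TH_add]
    exact (hp q₀).add (hq q₀)
  | mul_X p k hp =>
    intro q₀
    have h : ∀ v : Fin d → ℂ, TH D (tt z v) (q₀ * MvPolynomial.aeval (fun k => MvPolynomial.C (a k v) + M k) (p * MvPolynomial.X k)) =
        a k v * TH D (tt z v) (q₀ * MvPolynomial.aeval (fun k => MvPolynomial.C (a k v) + M k) p) +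
          TH D (tt z v) ((q₀ * M k) * MvPolynomial.aeval (fun k => MvPolynomial.C (a k v) + M k) p) := by
      intro v
      rw [← TH_C_mul, ← TH_add]
      congr 1
      rw [map_mul, MvPolynomial.aeval_X]
      ring
    simp only [h]
    exact ((ha k).mul (hp q₀)).add (hp (q₀ * M k))

/-- B6a. PROOF. For every polynomial `q₀` the function `v ↦ TH (tt v) (q₀ * aeval (fun k => C (a k v) + M k) B)` is entire. Induction on `B` (all `q₀`): for `B = C b` it is a linear combination of products of functions `iteratedDeriv m (th τ) (h_l + tt z v l)`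
(entire, `tt` is linear); for `B X_k`: `q₀ aeval(B X_k) = C(a k v) (q₀ aeval B) + (q₀ M_k) aeval B` (`TH_C_mul`, `TH_add`). -/
theorem TH_diff (z : ℂ) (D : Dt d) (a : Fin d → (Fin d → ℂ) → ℂ) (ha : ∀ k, Differentiable ℂ (a k)) (M : Fin d → MvPolynomial (Fin (d + 1)) ℂ)
    (B : MvPolynomial (Fin d) ℂ) :
    Differentiable ℂ (fun v : Fin d → ℂ => TH D (tt z v) (MvPolynomial.aeval (fun k => MvPolynomial.C (a k v) + M k) B)) := by
  have h := b6_mul z D a ha M B 1
  simpa only [one_mul] using h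

theorem b6_lin (P : Par d) (D : Dt d) (W : Fin d → ℂ) : lin P D W = fun k => MvPolynomial.C (W k + lam P D k) +
    -(MvPolynomial.C (1 / D.om) * ∑ l, MvPolynomial.C (rhv P l k) * MvPolynomial.X l) := by
  funext k
  unfold lin
  rw [sub_eq_add_neg]

theorem b6_lin' (P : Par d) (r s w : Fin d → ℂ) : lin' P r s w = fun k => MvPolynomial.C (r k * w k) +
    -(MvPolynomial.C (1 / s k) * ∑ j : Fin (d + 1), MvPolynomial.C (P.rt k.succ ^ j.val) * MvPolynomial.X j) := by
  funext k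
  unfold lin'
  rw [sub_eq_add_neg]

/-- B6b. PROOF. B6a: `WV P D v j` is an affine (linear) function of `v`. -/
theorem GR_diff (P : Par d) (D : Dt d) {E : ℕ} (c : Ir d E → ℂ) : Differentiable ℂ (GR P D c) := by
  have ha : ∀ k : Fin d, Differentiable ℂ (fun v : Fin d → ℂ => WV P D v k + lam P D k) := by
    intro k
    refine Differentiable.add ?_ (differentiable_const _)
    unfold WV As
    have h1 := b6_tt P.z k.succ
    have h2 := b6_tt P.z k.castSucc
    have h3 := b6_tt P.z (Fin.last d)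
    refine Differentiable.const_mul ?_ _
    exact h1.add (((h2.add (h3.const_mul _)).sub (h1.const_mul _)).const_mul _)
  have h := TH_diff P.z D (fun k v => WV P D v k + lam P D k) ha
    (fun k => -(MvPolynomial.C (1 / D.om) * ∑ l, MvPolynomial.C (rhv P l k) * MvPolynomial.X l)) (Cs P D c)
  have he : (GR P D c) = (fun v : Fin d → ℂ => TH D (tt P.z v) (MvPolynomial.aeval (fun k => MvPolynomial.C (WV P D v k + lam P D k) +
      -(MvPolynomial.C (1 / D.om) * ∑ l, MvPolynomial.C (rhv P l k) * MvPolynomial.X l)) (Cs P D c))) := by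
    funext v
    unfold GR
    rw [b6_lin]
  rw [he]
  exact h

/-- B6c. -/
theorem lin'_diff (P : Par d) (D : Dt d) (r s : Fin d → ℂ) (B : MvPolynomial (Fin d) ℂ) :
    Differentiable ℂ (fun v : Fin d → ℂ => TH D (tt P.z v) (MvPolynomial.aeval (lin' P r s (eg P (tt P.z v))) B)) := by
  have ha : ∀ k : Fin d, Differentiable ℂ (fun v : Fin d → ℂ => r k * eg P (tt P.z v) k) := by
    intro k
    refine Differentiable.const_mul ?_ _
    unfold eg
    refine Differentiable.fun_sum fun j _ => ?_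
    exact (b6_tt P.z j).const_mul _
  have h := TH_diff P.z D (fun k v => r k * eg P (tt P.z v) k) ha
    (fun k => -(MvPolynomial.C (1 / s k) * ∑ j : Fin (d + 1), MvPolynomial.C (P.rt k.succ ^ j.val) * MvPolynomial.X j)) B
  have he : (fun v : Fin d → ℂ => TH D (tt P.z v) (MvPolynomial.aeval (lin' P r s (eg P (tt P.z v))) B)) =
      (fun v : Fin d → ℂ => TH D (tt P.z v) (MvPolynomial.aeval (fun k => MvPolynomial.C (r k * eg P (tt P.z v) k) +
      -(MvPolynomial.C (1 / s k) * ∑ j : Fin (d + 1), MvPolynomial.C (P.rt k.succ ^ j.val) * MvPolynomial.X j)) B)) := by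
    funext v
    rw [b6_lin']
  rw [he]
  exact h

end Pool.Agent.MSR
end

end

section

/-! # U/D4_Theta: lower bounds for the theta function at points where the Weierstrass function is not too large -/

open Complex

noncomputable section

namespace Pool.Agent.MSU

open MSD MSP MSK MSR

theorem d4_pos (τ : ℂ) (hτ : 0 < τ.im) (s h : ℂ) : 0 < max ‖N0 τ h‖ ‖N2 τ s h‖ := by
  by_cases h0 : N0 τ h = 0
  · refine lt_max_of_lt_right (norm_pos_iff.2 ?_)
    obtain ⟨m, n, hmn⟩ := (th_eq_zero_iff τ hτ h).1 h0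
    have h1 : N1 τ h ≠ 0 := by
      have e : h = 0 + m + n * τ := by rw [hmn, zero_add]
      rw [e, N1_shift τ hτ]
      have h2 : N0 τ 0 = 0 := by
        unfold N0 th
        simp
      rw [h2, mul_zero, sub_zero]
      exact mul_ne_zero (au_ne τ m n 0) (deriv_th_zero_ne τ hτ)
    have h3 : N2 τ s h = N1 τ h ^ 2 := by
      have h4 : th τ h = 0 := h0
      unfold N2 N1
      rw [h4]
      ring
    rw [h3]
    exact pow_ne_zero 2 h1
  · exact lt_max_of_lt_left (norm_pos_iff.2 h0)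

/-- D4. PROOF. `N0 = th`, `N1 = deriv th`, `N2 = N1² - N0 N0'' - s N0²` are continuous (t5_cont0, t5_cont1, t5_cont2), `ph = N1/N0`, `wp = N2/N0²`. `N0` and `N2` have no common zero: the zeros of `th` are the lattice points (`th_eq_zero_iff`) and are simple
(`deriv_th_zero_ne` and the functional equations `th_add_one`, `t3_shift`/`th_add_tau`, or K/P lemmas on `au`: `th (t + m + nτ) = au .. * th t`), so `N2 = (deriv th)² ≠ 0` there. Compactness of the ball `‖h‖ ≤ H`: `max ‖N0‖ ‖N2‖ ≥ c` with `0 < c ≤ 1`. If `‖wp‖ ≤ B`, `B ≥ 1`: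
either `‖N0‖ ≥ c ≥ c/B` or `‖N0‖² = ‖N2‖/‖wp‖ ≥ c/B` (if `wp = 0` then `N2 = 0`, so the first case), and then `‖N0‖ ≥ min 1 (c/B)`-ish: `‖N0‖ ≥ ‖N0‖²` if `‖N0‖ ≤ 1`. So `‖N0‖ ≥ c/B` always. `‖ph‖ ≤ sup ‖N1‖ * B / c`. -/
theorem base_bounds (τ : ℂ) (hτ : 0 < τ.im) (H : ℝ) : ∃ C : ℝ, 1 ≤ C ∧ ∀ h : ℂ, ‖h‖ ≤ H → th τ h ≠ 0 → ∀ B : ℝ, 1 ≤ B → ‖wp τ (sE τ) h‖ ≤ B →
    1 / (C * B) ≤ ‖th τ h‖ ∧ ‖ph τ h‖ ≤ C * B := by
  have hK : IsCompact (Metric.closedBall (0 : ℂ) H) := isCompact_closedBall 0 H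
  have hc : Continuous fun h : ℂ => (max ‖N0 τ h‖ ‖N2 τ (sE τ) h‖)⁻¹ :=
    ((t5_cont0 τ hτ).norm.max (t5_cont2 τ (sE τ) hτ).norm).inv₀
      fun h => (d4_pos τ hτ (sE τ) h).ne'
  obtain ⟨D1, hD1⟩ := hK.exists_bound_of_continuousOn hc.continuousOn
  obtain ⟨D2, hD2⟩ := hK.exists_bound_of_continuousOn (t5_cont1 τ hτ).continuousOn
  have hD : 1 ≤ max 1 D1 := le_max_left _ _
  have hE : 1 ≤ max 1 D2 := le_max_left _ _
  have hD0 : 0 < max 1 D1 := lt_of_lt_of_le one_pos hD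
  have hE0 : 0 < max 1 D2 := lt_of_lt_of_le one_pos hE
  refine ⟨max 1 D1 * max 1 D2, one_le_mul_of_one_le_of_one_le hD hE, ?_⟩
  intro h hh h0 B hB hwp
  have hB0 : 0 < B := lt_of_lt_of_le one_pos hB
  have hmem : h ∈ Metric.closedBall (0 : ℂ) H := by
    rw [mem_closedBall_zero_iff]; exact hh
  have hN0 : 0 < ‖N0 τ h‖ := norm_pos_iff.2 h0
  have hmax : 1 / max 1 D1 ≤ max ‖N0 τ h‖ ‖N2 τ (sE τ) h‖ := by
    have h1 := hD1 h hmem
    rw [Real.norm_of_nonneg (inv_nonneg.2 (d4_pos τ hτ (sE τ) h).le)] at h1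
    have h2 : (max ‖N0 τ h‖ ‖N2 τ (sE τ) h‖)⁻¹ ≤ max 1 D1 := h1.trans (le_max_right _ _)
    rw [one_div]
    exact inv_le_of_inv_le₀ (d4_pos τ hτ (sE τ) h) h2
  have hN2 : ‖N2 τ (sE τ) h‖ ≤ B * ‖N0 τ h‖ ^ 2 := by
    have h1 : N2 τ (sE τ) h = wp τ (sE τ) h * N0 τ h ^ 2 := by
      unfold wp
      rw [div_mul_cancel₀ _ (pow_ne_zero 2 (norm_pos_iff.1 hN0))]
    rw [h1, norm_mul, norm_pow]
    exact mul_le_mul_of_nonneg_right hwp (by positivity)
  have hlow : 1 / (max 1 D1 * B) ≤ ‖N0 τ h‖ := by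
    rcases le_total ‖N2 τ (sE τ) h‖ ‖N0 τ h‖ with hle | hle
    · rw [max_eq_left hle] at hmax
      refine le_trans ?_ hmax
      exact one_div_le_one_div_of_le hD0 (le_mul_of_one_le_right hD0.le hB)
    · rw [max_eq_right hle] at hmax
      have h3 : 1 / (max 1 D1 * B) ≤ ‖N0 τ h‖ ^ 2 := by
        rw [← div_div, div_le_iff₀ hB0, mul_comm]
        exact hmax.trans hN2
      rcases le_total 1 ‖N0 τ h‖ with h4 | h4
      · refine le_trans ?_ h4
        rw [div_le_one (mul_pos hD0 hB0)]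
        exact one_le_mul_of_one_le_of_one_le hD hB
      · refine h3.trans ?_
        nlinarith
  refine ⟨?_, ?_⟩
  · refine le_trans ?_ hlow
    refine one_div_le_one_div_of_le (mul_pos hD0 hB0) ?_
    have : max 1 D1 * B ≤ max 1 D1 * B * max 1 D2 :=
      le_mul_of_one_le_right (mul_pos hD0 hB0).le hE
    calc max 1 D1 * B ≤ max 1 D1 * B * max 1 D2 := this
      _ = max 1 D1 * max 1 D2 * B := by ring
  · unfold ph
    rw [norm_div, div_le_iff₀ hN0]
    have h1 : ‖N1 τ h‖ ≤ max 1 D2 := (hD2 h hmem).trans (le_max_right _ _)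
    have h2 : 1 ≤ max 1 D1 * B * ‖N0 τ h‖ := by
      rw [div_le_iff₀ (mul_pos hD0 hB0)] at hlow
      linarith
    calc ‖N1 τ h‖ ≤ max 1 D2 := h1
      _ ≤ max 1 D2 * (max 1 D1 * B * ‖N0 τ h‖) := le_mul_of_one_le_right hE0.le h2
      _ = max 1 D1 * max 1 D2 * B * ‖N0 τ h‖ := by ring

end Pool.Agent.MSU
end

end

section

/-! # U/D4b_Low: the product of the theta functions is not small near the base point -/

open Complex

noncomputable section

namespace Pool.Agent.MSU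

open MSD MSP MSK MSR

variable {d : ℕ}

theorem d4b_tt_le (z : ℂ) (v : Fin d → ℂ) (l : Fin (d + 1)) :
    ‖tt z v l‖ ≤ (1 + ∑ j : Fin d, ‖z‖ ^ (j.val + 1)) * ‖v‖ := by
  have hs : 0 ≤ ∑ j : Fin d, ‖z‖ ^ (j.val + 1) := Finset.sum_nonneg fun j _ => by positivity
  have hv : 0 ≤ ‖v‖ := norm_nonneg _
  refine Fin.cases ?_ (fun j => ?_) l
  · simp only [tt, Fin.cons_zero, norm_neg]
    calc ‖∑ j : Fin d, z ^ (j.val + 1) * v j‖ ≤ ∑ j : Fin d, ‖z ^ (j.val + 1) * v j‖ := norm_sum_le _ _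
      _ ≤ ∑ j : Fin d, ‖z‖ ^ (j.val + 1) * ‖v‖ := by
          refine Finset.sum_le_sum fun j _ => ?_
          rw [norm_mul, norm_pow]
          exact mul_le_mul_of_nonneg_left (norm_le_pi_norm v j) (by positivity)
      _ = (∑ j : Fin d, ‖z‖ ^ (j.val + 1)) * ‖v‖ := by rw [Finset.sum_mul]
      _ ≤ (1 + ∑ j : Fin d, ‖z‖ ^ (j.val + 1)) * ‖v‖ := by nlinarith
  · simp only [tt, Fin.cons_succ]
    have := norm_le_pi_norm v j
    nlinarith

theorem d4b_lip (τ : ℂ) (hτ : 0 < τ.im) (R : ℝ) : ∃ L : ℝ, 0 ≤ L ∧ ∀ x y : ℂ, ‖x‖ ≤ R → ‖y‖ ≤ R →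
    ‖th τ y - th τ x‖ ≤ L * ‖y - x‖ := by
  have hd : Differentiable ℂ (th τ) := th_differentiable τ hτ
  have hc : Continuous (deriv (th τ)) := (hd.contDiff (n := 1)).continuous_deriv (by norm_num)
  obtain ⟨L, hL⟩ := (isCompact_closedBall (0 : ℂ) R).exists_bound_of_continuousOn hc.continuousOn
  refine ⟨max L 0, le_max_right _ _, fun x y hx hy => ?_⟩
  refine Convex.norm_image_sub_le_of_norm_deriv_le (s := Metric.closedBall (0 : ℂ) R)
    (fun w _ => hd w) (fun w hw => (hL w hw).trans (le_max_left _ _)) (convex_closedBall _ _) ?_ ?_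
  · simpa using hx
  · simpa using hy

/-- D4b. PROOF. `pp D (tt P.z v) = ∏ l, N0 P.z (D.h l + tt P.z v l)`. By `base_bounds` `‖th P.z (D.h l)‖ ≥ 1/(C₀ B)`. `th P.z` is differentiable, so Lipschitz with a constant `L` on the ball of radius `|H| + 1` (compactness of the derivative, `Convex.norm_image_sub_le_of_norm_deriv_le`),
and `‖tt P.z v l‖ ≤ K ‖v‖` (`K = 1 + ∑ ‖z‖^(j+1)`). If `‖v‖ ≤ 1/(C B)` with `C ≥ 2 C₀ L K` and `C ≥ K`, then `‖th (h_l + t_l)‖ ≥ 1/(2 C₀ B)`. -/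
theorem pp_low (P : Par d) (H : ℝ) : ∃ C : ℝ, 1 ≤ C ∧ ∀ D : Dt d, D.τ = P.z → (∀ l, ‖D.h l‖ ≤ H) → ∀ B : ℝ, 1 ≤ B →
    (∀ l, ‖wp P.z (sE P.z) (D.h l)‖ ≤ B) → ∀ v : Fin d → ℂ, ‖v‖ ≤ 1 / (C * B) → (1 / (C * B)) ^ (d + 1) ≤ ‖pp D (tt P.z v)‖ := by
  have him : 0 < P.z.im := P.im
  obtain ⟨C₀, hC₀, hb⟩ := base_bounds P.z him H
  obtain ⟨L, hL0, hL⟩ := d4b_lip P.z him (|H| + 1)
  set K : ℝ := 1 + ∑ j : Fin d, ‖P.z‖ ^ (j.val + 1) with hK
  have hK1 : 1 ≤ K := by
    have : 0 ≤ ∑ j : Fin d, ‖P.z‖ ^ (j.val + 1) := Finset.sum_nonneg fun j _ => by positivity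
    rw [hK]; linarith
  have hCpos : 0 < C₀ := by linarith
  have hKpos : 0 < K := by linarith
  have hLpos : 0 < L + 1 := by linarith
  have hC1 : 1 ≤ 2 * C₀ * (L + 1) * K := by
    have h1 : 1 ≤ C₀ * (L + 1) := by nlinarith
    have h2 : 1 ≤ C₀ * (L + 1) * K := by nlinarith
    nlinarith
  refine ⟨2 * C₀ * (L + 1) * K, hC1, ?_⟩
  intro D hτ hH B hB hw v hv
  have hBpos : 0 < B := by linarith
  have hkey : ∀ l, 1 / (2 * C₀ * (L + 1) * K * B) ≤ ‖N0 D.τ (D.h l + tt P.z v l)‖ := by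
    intro l
    have hne : th P.z (D.h l) ≠ 0 := by
      have := D.hh l
      rwa [hτ] at this
    obtain ⟨hlow, -⟩ := hb (D.h l) (hH l) hne B hB (hw l)
    have ht : ‖tt P.z v l‖ ≤ 1 / (2 * C₀ * (L + 1) * B) := by
      refine (d4b_tt_le P.z v l).trans ?_
      calc K * ‖v‖ ≤ K * (1 / (2 * C₀ * (L + 1) * K * B)) := mul_le_mul_of_nonneg_left hv hKpos.le
        _ = 1 / (2 * C₀ * (L + 1) * B) := by field_simp
    have h2 : 1 ≤ 2 * C₀ * (L + 1) * B := by
      have h1 : 1 ≤ C₀ * (L + 1) := by nlinarith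
      have h2 : 1 ≤ C₀ * (L + 1) * B := by nlinarith
      nlinarith
    have ht1 : ‖tt P.z v l‖ ≤ 1 := ht.trans (by rw [div_le_one (by positivity)]; exact h2)
    have hx : ‖D.h l‖ ≤ |H| + 1 := (hH l).trans (by linarith [le_abs_self H])
    have hy : ‖D.h l + tt P.z v l‖ ≤ |H| + 1 :=
      (norm_add_le _ _).trans (add_le_add ((hH l).trans (le_abs_self H)) ht1)
    have h3 := hL _ _ hx hy
    rw [add_sub_cancel_left] at h3
    have h4 : L * ‖tt P.z v l‖ ≤ 1 / (2 * (C₀ * B)) := by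
      calc L * ‖tt P.z v l‖ ≤ L * (1 / (2 * C₀ * (L + 1) * B)) := mul_le_mul_of_nonneg_left ht hL0
        _ = (L / (L + 1)) * (1 / (2 * (C₀ * B))) := by field_simp
        _ ≤ 1 * (1 / (2 * (C₀ * B))) := by
            refine mul_le_mul_of_nonneg_right ?_ (by positivity)
            rw [div_le_one hLpos]; linarith
        _ = 1 / (2 * (C₀ * B)) := one_mul _
    have h5 : ‖th P.z (D.h l)‖ ≤ ‖th P.z (D.h l + tt P.z v l)‖ + 1 / (2 * (C₀ * B)) := by
      have : th P.z (D.h l) = th P.z (D.h l + tt P.z v l) - (th P.z (D.h l + tt P.z v l) - th P.z (D.h l)) := by ring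
      calc ‖th P.z (D.h l)‖ = ‖th P.z (D.h l + tt P.z v l) - (th P.z (D.h l + tt P.z v l) - th P.z (D.h l))‖ := by rw [← this]
        _ ≤ _ := (norm_sub_le _ _).trans (by linarith)
    have h6 : 1 / (C₀ * B) = 1 / (2 * (C₀ * B)) + 1 / (2 * (C₀ * B)) := by field_simp; norm_num
    have h7 : 1 / (2 * C₀ * (L + 1) * K * B) ≤ 1 / (2 * (C₀ * B)) := by
      apply one_div_le_one_div_of_le (by positivity)
      have : 1 ≤ (L + 1) * K := by nlinarith
      nlinarith [mul_pos hCpos hBpos]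
    have h8 : N0 D.τ (D.h l + tt P.z v l) = th P.z (D.h l + tt P.z v l) := by rw [hτ]; rfl
    rw [h8]
    linarith
  unfold MSK.pp
  rw [norm_prod]
  have hcard : (1 / (2 * C₀ * (L + 1) * K * B)) ^ (d + 1) = ∏ _l : Fin (d + 1), (1 / (2 * C₀ * (L + 1) * K * B)) := by
    simp
  rw [hcard]
  exact Finset.prod_le_prod (fun l _ => by positivity) (fun l _ => hkey l)

/-- D4b. PROOF. `lam P D j = 1 / D.om * ∑ l, rhv P l j * ph D.τ (D.h l)`, `‖D.om‖ ^ 2 = π ≥ 1`, `‖ph‖ ≤ C₀ B` by `base_bounds`. -/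
theorem lam_le (P : Par d) (H : ℝ) : ∃ C : ℝ, 1 ≤ C ∧ ∀ D : Dt d, D.τ = P.z → D.om ^ 2 = Real.pi → (∀ l, ‖D.h l‖ ≤ H) → ∀ B : ℝ, 1 ≤ B →
    (∀ l, ‖wp P.z (sE P.z) (D.h l)‖ ≤ B) → ∀ j, ‖lam P D j‖ ≤ C * B := by
  have him : 0 < P.z.im := P.im
  obtain ⟨C₀, hC₀, hb⟩ := base_bounds P.z him H
  have hCpos : 0 < C₀ := by linarith
  set S : ℝ := ∑ j : Fin d, ∑ l : Fin (d + 1), ‖rhv P l j‖ with hS
  have hS0 : 0 ≤ S := Finset.sum_nonneg fun j _ => Finset.sum_nonneg fun l _ => norm_nonneg _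
  refine ⟨1 + S * C₀, by nlinarith, ?_⟩
  intro D hτ hom hH B hB hw j
  have hBpos : 0 < B := by linarith
  have hph : ∀ l, ‖ph D.τ (D.h l)‖ ≤ C₀ * B := by
    intro l
    have hne : th P.z (D.h l) ≠ 0 := by
      have := D.hh l
      rwa [hτ] at this
    rw [hτ]
    exact (hb (D.h l) (hH l) hne B hB (hw l)).2
  have hom1 : 1 ≤ ‖D.om‖ := by
    have h1 : ‖D.om‖ ^ 2 = Real.pi := by
      rw [← norm_pow, hom, Complex.norm_real, Real.norm_of_nonneg Real.pi_pos.le]
    have h2 : (1 : ℝ) ≤ ‖D.om‖ ^ 2 := by rw [h1]; linarith [Real.pi_gt_three]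
    by_contra h
    push Not at h
    have := norm_nonneg D.om
    nlinarith
  unfold lam
  rw [norm_mul, norm_div, norm_one]
  have h1 : 1 / ‖D.om‖ ≤ 1 := by rw [div_le_one (by linarith)]; exact hom1
  have h2 : ‖∑ l, rhv P l j * ph D.τ (D.h l)‖ ≤ S * (C₀ * B) := by
    calc ‖∑ l, rhv P l j * ph D.τ (D.h l)‖ ≤ ∑ l, ‖rhv P l j * ph D.τ (D.h l)‖ := norm_sum_le _ _
      _ ≤ ∑ l, ‖rhv P l j‖ * (C₀ * B) := by
          refine Finset.sum_le_sum fun l _ => ?_
          rw [norm_mul]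
          exact mul_le_mul_of_nonneg_left (hph l) (norm_nonneg _)
      _ = (∑ l, ‖rhv P l j‖) * (C₀ * B) := by rw [Finset.sum_mul]
      _ ≤ S * (C₀ * B) := by
          refine mul_le_mul_of_nonneg_right ?_ (by positivity)
          exact Finset.single_le_sum (f := fun j => ∑ l : Fin (d + 1), ‖rhv P l j‖)
            (fun j _ => Finset.sum_nonneg fun l _ => norm_nonneg _) (Finset.mem_univ j)
  calc 1 / ‖D.om‖ * ‖∑ l, rhv P l j * ph D.τ (D.h l)‖ ≤ 1 * (S * (C₀ * B)) :=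
        mul_le_mul h1 h2 (norm_nonneg _) zero_le_one
    _ ≤ (1 + S * C₀) * B := by nlinarith

end Pool.Agent.MSU
end

end

section

/-! # K/C2b_Cover: the covering -/

open Complex

noncomputable section

namespace Pool.Agent.MSK

open MSD MSP

variable {d : ℕ}

/-- the cell of a point -/
def c2b_key (P : Par d) (q : ℕ) (v : Fin d → ℂ) : (Fin (d + 1) → ℤ) × (Fin (d + 1) → ℤ) :=
  (fun l => ⌊nn P v l⌋ % (q : ℤ), fun l => if 2 ≤ l.val then ⌊ro P v l⌋ else 0)

theorem c2b_prod (e a : ℕ) : ∏ l : Fin (e + 2), (if 2 ≤ l.val then a else 1) = a ^ e := by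
  rw [Fin.prod_univ_succ, Fin.prod_univ_succ]
  simp

/-- the set of the cells -/
def c2b_keys (d q N : ℕ) : Finset ((Fin (d + 1) → ℤ) × (Fin (d + 1) → ℤ)) :=
  (Fintype.piFinset fun _ => Finset.Ico (0 : ℤ) q) ×ˢ
    Fintype.piFinset fun l : Fin (d + 1) => if 2 ≤ l.val then Finset.Icc (-(N : ℤ)) N else {0}

theorem c2b_keys_card (e q N : ℕ) : (c2b_keys (e + 1) q N).card = q ^ (e + 2) * (2 * N + 1) ^ e := by
  rw [c2b_keys, Finset.card_product, Fintype.card_piFinset, Fintype.card_piFinset]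
  congr 1
  · simp
  · rw [← c2b_prod e (2 * N + 1)]
    refine Finset.prod_congr rfl fun l _ => ?_
    split_ifs
    · rw [Int.card_Icc]
      omega
    · simp

/-- two points of the same cell -/
theorem c2b_near (P : Par d) (q : ℕ) (hq : 1 ≤ q) {C : ℝ} (hC : ∀ v : Fin d → ℂ, ∀ l, |ro P v l| ≤ C * Real.sqrt (P2 P v)) (hC1 : 1 ≤ C)
    (v w : Fin d → ℂ) (h : c2b_key P q v = c2b_key P q w) : ∃ n : Fin (d + 1) → ℤ,
      ∀ j, ‖v j - gam P (fun l => (q : ℝ) * n l) j - w j‖ ≤ (1 + ∑ l, |(P.b l : ℝ)| + ‖P.z‖) + C * Real.sqrt (d + 1) := by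
  have hk := congrArg Prod.fst h
  have hr := congrArg Prod.snd h
  have hq0 : (q : ℤ) ≠ 0 := by positivity
  have hn : ∀ l, ∃ n : ℤ, ⌊nn P v l⌋ - ⌊nn P w l⌋ = q * n := by
    intro l
    have h1 : ⌊nn P v l⌋ % (q : ℤ) = ⌊nn P w l⌋ % (q : ℤ) := congrFun hk l
    exact Int.ModEq.dvd (show ⌊nn P w l⌋ ≡ ⌊nn P v l⌋ [ZMOD q] from h1.symm)
  choose n hn using hn
  refine ⟨n, ?_⟩
  set g : Fin d → ℂ := gam P (fun l => (q : ℝ) * n l) with hg
  set u : Fin d → ℂ := fun j => v j - g j - w j with hu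
  have huv : v = u + (g + w) := by
    funext j
    simp only [hu, Pi.add_apply]
    ring
  have hnn : ∀ l, |nn P u l| ≤ 1 := by
    intro l
    have h1 : nn P v l = nn P u l + ((q : ℝ) * n l + nn P w l) := by
      conv_lhs => rw [huv]
      rw [nn_add, nn_add, hg, nn_gam]
      rfl
    have h2 : (⌊nn P v l⌋ : ℝ) - ⌊nn P w l⌋ = q * n l := by exact_mod_cast hn l
    have h3 := Int.floor_le (nn P v l)
    have h4 := Int.lt_floor_add_one (nn P v l)
    have h5 := Int.floor_le (nn P w l)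
    have h6 := Int.lt_floor_add_one (nn P w l)
    rw [abs_le]
    constructor <;> linarith
  have hro : ∀ l : Fin (d + 1), 2 ≤ l.val → |ro P u l| ≤ 1 := by
    intro l hl
    have h1 : ro P v l = ro P u l + (0 + ro P w l) := by
      conv_lhs => rw [huv]
      rw [ro_add, ro_add, hg, ro_gam]
      rfl
    have h2 : ⌊ro P v l⌋ = ⌊ro P w l⌋ := by
      have := congrFun hr l
      simpa [c2b_key, hl] using this
    have h3 := Int.floor_le (ro P v l)
    have h4 := Int.lt_floor_add_one (ro P v l)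
    have h5 := Int.floor_le (ro P w l)
    have h6 := Int.lt_floor_add_one (ro P w l)
    have h7 : (⌊ro P v l⌋ : ℝ) = ⌊ro P w l⌋ := by exact_mod_cast h2
    rw [abs_le]
    constructor <;> linarith
  have hP2 : P2 P u ≤ d + 1 := by
    have h1 : P2 P u ≤ ∑ _l : Fin (d + 1), (1 : ℝ) := by
      refine Finset.sum_le_sum fun l _ => ?_
      split_ifs with hl
      · have := hro l hl
        rw [abs_le] at this
        nlinarith [this.1, this.2]
      · exact zero_le_one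
    simpa using h1
  intro j
  have hdec := decomp P u j.succ
  rw [tt_gam] at hdec
  have huj : tt P.z u j.succ = v j - g j - w j := rfl
  rw [huj] at hdec
  rw [hdec]
  refine (norm_add_le _ _).trans (add_le_add ?_ ?_)
  · refine (norm_add_le _ _).trans (add_le_add ?_ ?_)
    · rw [Complex.norm_real, Real.norm_eq_abs]
      have h1 : mm P.b (nn P u) j.succ = -nn P u j.castSucc - (P.b j.succ : ℝ) * nn P u (Fin.last d) := rfl
      rw [h1]
      refine (abs_sub _ _).trans (add_le_add ?_ ?_)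
      · rw [abs_neg]
        exact hnn _
      · rw [abs_mul]
        calc |(P.b j.succ : ℝ)| * |nn P u (Fin.last d)| ≤ |(P.b j.succ : ℝ)| * 1 :=
              mul_le_mul_of_nonneg_left (hnn _) (abs_nonneg _)
          _ = |(P.b j.succ : ℝ)| := mul_one _
          _ ≤ ∑ l, |(P.b l : ℝ)| := Finset.single_le_sum (f := fun l => |(P.b l : ℝ)|) (fun l _ => abs_nonneg _) (Finset.mem_univ _)
    · rw [norm_mul, Complex.norm_real, Real.norm_eq_abs]
      calc |nn P u j.succ| * ‖P.z‖ ≤ 1 * ‖P.z‖ := mul_le_mul_of_nonneg_right (hnn _) (norm_nonneg _)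
        _ = ‖P.z‖ := one_mul _
  · rw [Complex.norm_real, Real.norm_eq_abs]
    refine (hC u _).trans (mul_le_mul_of_nonneg_left (Real.sqrt_le_sqrt hP2) (by linarith))

/-- C2d. the covering. PROOF. The real linear map `Ψ : ℝ^(d+1) × ℝ^(d-1) → ℂ^d`, `(n, ρ) ↦ gam n + (ρ_{j+1})_j`, where `ρ = (ρ_0, ρ_1, ρ_2, ..., ρ_d)` is the real vector with the given `ρ_l`, `l ≥ 2`, and
`ρ_0 + z ρ_1 = -∑_{l≥2} z^l ρ_l`, satisfies `Ψ(nn v, (ro v l)_{l≥2}) = v` (C2c). Let `S` be the set of all `Ψ(k, r)` with `k ∈ {0..q-1}^(d+1)`, `r ∈ ℤ^(d-1)`, `|r_l| ≤ R + 1`: `card ≤ q^(d+1) (2R+3)^(d-1) ≤ C R^(d-1)`. Given `v` with `P2 v ≤ R²` write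
`nn v l = q n_l + k_l + f_l`, `0 ≤ f_l < 1`, `ro v l = r_l + g_l`, `0 ≤ g_l < 1` (`l ≥ 2`): `v = gam(q n) + Ψ(k, r) + Ψ(f, g)` and `‖Ψ(f,g)‖ ≤ C`. -/
theorem cover (P : Par d) (hd : 2 ≤ d) (q : ℕ) (hq : 1 ≤ q) : ∃ C : ℝ, 1 ≤ C ∧ ∀ R : ℝ, 1 ≤ R → ∃ S : Finset (Fin d → ℂ),
    (S.card : ℝ) ≤ C * R ^ (d - 1) ∧ ∀ v : Fin d → ℂ, P2 P v ≤ R ^ 2 → ∃ n : Fin (d + 1) → ℤ, ∃ s ∈ S,
      ∀ j, ‖v j - gam P (fun l => (q : ℝ) * n l) j - s j‖ ≤ C := by
  classical
  obtain ⟨e, rfl⟩ : ∃ e, d = e + 1 := ⟨d - 1, by omega⟩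
  obtain ⟨C₀, hC₀, hC⟩ := ro_bound P hd
  set A : ℝ := (1 + ∑ l, |(P.b l : ℝ)| + ‖P.z‖) + C₀ * Real.sqrt ((e + 1 : ℕ) + 1) with hA
  have hA1 : 1 ≤ A := by
    have h1 : 0 ≤ ∑ l, |(P.b l : ℝ)| := Finset.sum_nonneg fun l _ => abs_nonneg _
    have h2 : 0 ≤ ‖P.z‖ := norm_nonneg _
    have h3 : 0 ≤ C₀ * Real.sqrt ((e + 1 : ℕ) + 1) := mul_nonneg (by linarith) (Real.sqrt_nonneg _)
    linarith
  refine ⟨A + (q : ℝ) ^ (e + 2) * 7 ^ e, ?_, ?_⟩
  · have : (0 : ℝ) ≤ (q : ℝ) ^ (e + 2) * 7 ^ e := by positivity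
    linarith
  intro R hR
  let N : ℕ := ⌈R⌉₊ + 1
  let rep : (Fin (e + 1 + 1) → ℤ) × (Fin (e + 1 + 1) → ℤ) → (Fin (e + 1) → ℂ) := fun κ =>
    if h : ∃ v, P2 P v ≤ R ^ 2 ∧ c2b_key P q v = κ then Classical.choose h else 0
  refine ⟨(c2b_keys (e + 1) q N).image rep, ?_, ?_⟩
  · have h1 : (((c2b_keys (e + 1) q N).image rep).card : ℝ) ≤ (q : ℝ) ^ (e + 2) * (2 * N + 1) ^ e := by
      have h2 := Finset.card_image_le (s := c2b_keys (e + 1) q N) (f := rep)
      rw [c2b_keys_card] at h2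
      exact_mod_cast h2
    have hN : (N : ℝ) ≤ R + 2 := by
      have := Nat.ceil_lt_add_one (by linarith : 0 ≤ R)
      simp only [N]
      push_cast
      linarith
    have h3 : (2 * (N : ℝ) + 1) ^ e ≤ (7 * R) ^ e := pow_le_pow_left₀ (by positivity) (by linarith) _
    rw [Nat.add_sub_cancel]
    calc _ ≤ (q : ℝ) ^ (e + 2) * (2 * N + 1) ^ e := h1
      _ ≤ (q : ℝ) ^ (e + 2) * (7 * R) ^ e := mul_le_mul_of_nonneg_left h3 (by positivity)
      _ = (0 + (q : ℝ) ^ (e + 2) * 7 ^ e) * R ^ e := by rw [mul_pow]; ring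
      _ ≤ (A + (q : ℝ) ^ (e + 2) * 7 ^ e) * R ^ e :=
          mul_le_mul_of_nonneg_right (by linarith) (by positivity)
  · intro v hv
    have hex : ∃ v', P2 P v' ≤ R ^ 2 ∧ c2b_key P q v' = c2b_key P q v := ⟨v, hv, rfl⟩
    have hrep : rep (c2b_key P q v) = Classical.choose hex := dif_pos hex
    have hkey : c2b_key P q v = c2b_key P q (rep (c2b_key P q v)) := by
      rw [hrep]
      exact (Classical.choose_spec hex).2.symm
    obtain ⟨n, hn⟩ := c2b_near P q hq hC hC₀ v _ hkey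
    refine ⟨n, rep (c2b_key P q v), Finset.mem_image_of_mem _ ?_, fun j => ?_⟩
    · rw [c2b_keys, Finset.mem_product, Fintype.mem_piFinset, Fintype.mem_piFinset]
      constructor
      · intro l
        have hq0 : (0 : ℤ) < q := by exact_mod_cast hq
        rw [Finset.mem_Ico]
        exact ⟨Int.emod_nonneg _ hq0.ne', Int.emod_lt_of_pos _ hq0⟩
      · intro l
        by_cases hl : 2 ≤ l.val
        · rw [if_pos hl]
          have h1 : (c2b_key P q v).2 l = ⌊ro P v l⌋ := if_pos hl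
          rw [h1, Finset.mem_Icc]
          have h2 : ro P v l ^ 2 ≤ R ^ 2 := by
            refine le_trans ?_ hv
            have h3 : (if 2 ≤ l.val then ro P v l ^ 2 else 0) ≤ P2 P v :=
              Finset.single_le_sum (f := fun l : Fin (e + 1 + 1) => if 2 ≤ l.val then ro P v l ^ 2 else 0)
                (fun l _ => by split_ifs <;> positivity) (Finset.mem_univ l)
            rwa [if_pos hl] at h3
          have h4 := abs_le.1 (abs_le_of_sq_le_sq h2 (by linarith))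
          have h5 : R ≤ ⌈R⌉₊ := Nat.le_ceil R
          have h6 := Int.floor_le (ro P v l)
          have h7 := Int.lt_floor_add_one (ro P v l)
          constructor
          · have h8 : -((N : ℤ) : ℝ) ≤ (⌊ro P v l⌋ : ℝ) := by
              simp only [N]
              push_cast
              linarith [h4.1]
            exact_mod_cast h8
          · have h8 : (⌊ro P v l⌋ : ℝ) ≤ ((N : ℤ) : ℝ) := by
              simp only [N]
              push_cast
              linarith [h4.2]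
            exact_mod_cast h8
        · rw [if_neg hl, Finset.mem_singleton]
          exact if_neg hl
    · refine (hn j).trans ?_
      have : (0 : ℝ) ≤ (q : ℝ) ^ (e + 2) * 7 ^ e := by positivity
      rw [← hA]
      linarith

end Pool.Agent.MSK
end

end

section

/-! # K/C2c_Qf: the quadratic form -/

open Complex

noncomputable section

namespace Pool.Agent.MSK

open MSD MSP

variable {d : ℕ}

theorem c2c_tt_add (z : ℂ) (v w : Fin d → ℂ) (l : Fin (d + 1)) : tt z (v + w) l = tt z v l + tt z w l := by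
  refine Fin.cases ?_ (fun j => ?_) l
  · simp only [tt, Fin.cons_zero, Pi.add_apply, mul_add, Finset.sum_add_distrib, neg_add]
  · simp only [tt, Fin.cons_succ, Pi.add_apply]

theorem c2c_tt_smul (z : ℂ) (c : ℝ) (v : Fin d → ℂ) (l : Fin (d + 1)) : tt z (c • v) l = c * tt z v l := by
  refine Fin.cases ?_ (fun j => ?_) l
  · simp only [tt, Fin.cons_zero, Pi.smul_apply, Complex.real_smul]
    rw [mul_neg, Finset.mul_sum]
    congr 1
    refine Finset.sum_congr rfl fun j _ => ?_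
    ring
  · simp only [tt, Fin.cons_succ, Pi.smul_apply, Complex.real_smul]

theorem c2c_mm_smul (b : Fin (d + 1) → ℚ) (c : ℝ) (n : Fin (d + 1) → ℝ) (l : Fin (d + 1)) :
    mm b (fun i => c * n i) l = c * mm b n l := by
  refine Fin.cases ?_ (fun j => ?_) l
  · simp only [mm, Fin.cons_zero]
    ring
  · simp only [mm, Fin.cons_succ]
    ring

/-- the imaginary parts as linear maps -/
def c2c_im (P : Par d) (l : Fin (d + 1)) : (Fin d → ℂ) →ₗ[ℝ] ℝ where
  toFun v := (tt P.z v l).im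
  map_add' v w := by rw [c2c_tt_add, Complex.add_im]
  map_smul' c v := by rw [c2c_tt_smul, Complex.im_ofReal_mul, RingHom.id_apply, smul_eq_mul]

theorem c2c_nn_smul (P : Par d) (c : ℝ) (v : Fin d → ℂ) : nn P (c • v) = fun i => c * nn P v i := by
  funext i
  unfold nn
  rw [c2c_tt_smul, Complex.im_ofReal_mul]
  ring

/-- the transversal coordinates as linear maps -/
def c2c_ro (P : Par d) (l : Fin (d + 1)) : (Fin d → ℂ) →ₗ[ℝ] ℝ where
  toFun v := ro P v l
  map_add' v w := by rw [ro_add, Pi.add_apply]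
  map_smul' c v := by
    rw [RingHom.id_apply, smul_eq_mul]
    unfold ro
    rw [c2c_nn_smul, c2c_tt_smul, c2c_mm_smul, Complex.re_ofReal_mul]
    ring

/-- the linear functional `y ↦ 2 B(s, y)` -/
def c2c_B (P : Par d) (s : Fin d → ℂ) : (Fin d → ℂ) →ₗ[ℝ] ℝ :=
  (2 * Real.pi) • (∑ l, ((tt P.z s l).im / P.z.im) • c2c_im P l +
    ∑ l : Fin (d + 1), (if 2 ≤ l.val then ro P s l else 0) • c2c_ro P l)

theorem c2c_B_apply (P : Par d) (s y : Fin d → ℂ) : c2c_B P s y =
    2 * Real.pi * (∑ l, (tt P.z s l).im / P.z.im * (tt P.z y l).im +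
      ∑ l : Fin (d + 1), (if 2 ≤ l.val then ro P s l else 0) * ro P y l) := by
  unfold c2c_B
  rw [LinearMap.smul_apply, LinearMap.add_apply, LinearMap.sum_apply, LinearMap.sum_apply]
  rfl

/-- C2e. PROOF. `Qf` is a real quadratic form: `Qf (s + y) = Qf s + 2 B(s, y) + Qf y` with `B` real bilinear; the real linear functional `y ↦ 2 B(s, y)` is the real part of the complex linear functional `y ↦ 2 B(s, y) - i 2 B(s, iy)`. -/
theorem Qf_polar (P : Par d) (s : Fin d → ℂ) : ∃ ℓ : (Fin d → ℂ) →ₗ[ℂ] ℂ, ∀ y : Fin d → ℂ, Qf P (s + y) = Qf P s + (ℓ y).re + Qf P y := by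
  refine ⟨Module.Dual.extendRCLike (𝕜 := ℂ) (c2c_B P s), fun y => ?_⟩
  have h1 : ((Module.Dual.extendRCLike (𝕜 := ℂ) (c2c_B P s)) y).re = c2c_B P s y :=
    Module.Dual.re_extendRCLike_apply (𝕜 := ℂ) (c2c_B P s) y
  rw [h1, c2c_B_apply]
  have h2 : ∑ l, (tt P.z (s + y) l).im ^ 2 / P.z.im = ∑ l, (tt P.z s l).im ^ 2 / P.z.im +
      2 * ∑ l, (tt P.z s l).im / P.z.im * (tt P.z y l).im + ∑ l, (tt P.z y l).im ^ 2 / P.z.im := by
    rw [Finset.mul_sum, ← Finset.sum_add_distrib, ← Finset.sum_add_distrib]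
    refine Finset.sum_congr rfl fun l _ => ?_
    rw [c2c_tt_add, Complex.add_im]
    ring
  have h3 : P2 P (s + y) = P2 P s + 2 * ∑ l : Fin (d + 1), (if 2 ≤ l.val then ro P s l else 0) * ro P y l + P2 P y := by
    unfold P2
    rw [Finset.mul_sum, ← Finset.sum_add_distrib, ← Finset.sum_add_distrib]
    refine Finset.sum_congr rfl fun l _ => ?_
    rw [ro_add, Pi.add_apply]
    split_ifs
    · ring
    · ring
  unfold Qf
  rw [h2, h3]
  ring

theorem c2c_P2_nonneg (P : Par d) (v : Fin d → ℂ) : 0 ≤ P2 P v := by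
  unfold P2
  refine Finset.sum_nonneg fun l _ => ?_
  split_ifs
  · positivity
  · exact le_rfl

theorem Qf_nonneg (P : Par d) (v : Fin d → ℂ) : 0 ≤ Qf P v := by
  unfold Qf
  refine mul_nonneg Real.pi_pos.le (add_nonneg (Finset.sum_nonneg fun l _ => ?_) (c2c_P2_nonneg P v))
  exact div_nonneg (sq_nonneg _) P.im.le

theorem c2c_lin_bound (f : (Fin d → ℂ) →ₗ[ℝ] ℝ) : ∃ C : ℝ, 0 ≤ C ∧ ∀ v, f v ^ 2 ≤ C * ‖v‖ ^ 2 := by
  refine ⟨‖LinearMap.toContinuousLinearMap f‖ ^ 2, sq_nonneg _, fun v => ?_⟩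
  have h1 := (LinearMap.toContinuousLinearMap f).le_opNorm v
  rw [LinearMap.coe_toContinuousLinearMap', Real.norm_eq_abs] at h1
  rw [← mul_pow, ← sq_abs]
  exact pow_le_pow_left₀ (abs_nonneg _) h1 2

theorem Qf_le (P : Par d) : ∃ C : ℝ, 1 ≤ C ∧ ∀ v : Fin d → ℂ, Qf P v ≤ C * ‖v‖ ^ 2 := by
  choose a ha0 ha using fun l => c2c_lin_bound (c2c_im P l)
  choose r hr0 hr using fun l => c2c_lin_bound (c2c_ro P l)
  have hz := P.im
  have hzi : 0 < P.z.im := hz
  have hS1 : 0 ≤ ∑ l, a l / P.z.im := Finset.sum_nonneg fun l _ => div_nonneg (ha0 l) hzi.le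
  have hS2 : 0 ≤ ∑ l, r l := Finset.sum_nonneg fun l _ => hr0 l
  have hpi := Real.pi_pos
  refine ⟨1 + Real.pi * (∑ l, a l / P.z.im + ∑ l, r l), by nlinarith [mul_nonneg hpi.le (add_nonneg hS1 hS2)], fun v => ?_⟩
  have h1 : ∑ l, (tt P.z v l).im ^ 2 / P.z.im ≤ (∑ l, a l / P.z.im) * ‖v‖ ^ 2 := by
    rw [Finset.sum_mul]
    refine Finset.sum_le_sum fun l _ => ?_
    rw [div_mul_eq_mul_div]
    exact div_le_div_of_nonneg_right (ha l v) hzi.le
  have h2 : P2 P v ≤ (∑ l, r l) * ‖v‖ ^ 2 := by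
    unfold P2
    rw [Finset.sum_mul]
    refine Finset.sum_le_sum fun l _ => ?_
    split_ifs
    · exact hr l v
    · exact mul_nonneg (hr0 l) (sq_nonneg _)
  unfold Qf
  have h3 : 0 ≤ ‖v‖ ^ 2 := sq_nonneg _
  calc Real.pi * (∑ l, (tt P.z v l).im ^ 2 / P.z.im + P2 P v)
      ≤ Real.pi * ((∑ l, a l / P.z.im) * ‖v‖ ^ 2 + (∑ l, r l) * ‖v‖ ^ 2) := by gcongr
    _ = Real.pi * (∑ l, a l / P.z.im + ∑ l, r l) * ‖v‖ ^ 2 := by ring
    _ ≤ (1 + Real.pi * (∑ l, a l / P.z.im + ∑ l, r l)) * ‖v‖ ^ 2 := by nlinarith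

end Pool.Agent.MSK
end

end

section

/-! # R/C1_Iter: derivatives of the auxiliary function at the base point -/

open Complex Filter Topology IntermediateField

noncomputable section

namespace Pool.Agent.MSR

open MSD MSP MSK

variable {d : ℕ}

/-- C1a. PROOF. As `iteratedDeriv_FF` in K/A1b_Iter: `hasDerivAt_ev` (K/A1_Deriv) holds for `ζ` near `0` (`D.hh`, continuity), so by induction on `k` the `k`-th derivative of `ζ ↦ aeval (ev ζ) p` is `om^k aeval (ev ζ) (der^[k] p)` for `ζ` near `0`; at `0` use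
`ev_zero`. -/
theorem iter_gen (P : Par d) (D : Dt d) (a : Fin d → ℤ) (p : MvPolynomial (Vr d) ℤ) (k : ℕ) :
    iteratedDeriv k (fun ζ : ℂ => MvPolynomial.aeval (ev P D a ζ) p) 0 = D.om ^ k * MvPolynomial.aeval (vals P D) ((der a)^[k] p) ∧
      AnalyticAt ℂ (fun ζ : ℂ => MvPolynomial.aeval (ev P D a ζ) p) 0 := by
  have hnear := a1b_near P D a
  have hiter : ∀ k : ℕ, iteratedDeriv k (fun ζ : ℂ => MvPolynomial.aeval (ev P D a ζ) p) =ᶠ[nhds 0]
      fun ζ => D.om ^ k * MvPolynomial.aeval (ev P D a ζ) ((der a)^[k] p) := by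
    intro k
    induction k with
    | zero =>
      refine Filter.Eventually.of_forall (fun ζ => ?_)
      simp only [iteratedDeriv_zero, pow_zero, one_mul, Function.iterate_zero, id]
    | succ k ih =>
      rw [iteratedDeriv_succ]
      refine ih.deriv.trans ?_
      filter_upwards [hnear] with ζ hζ
      have h1 := (hasDerivAt_ev P D a ζ hζ ((der a)^[k] p)).const_mul (D.om ^ k)
      rw [h1.deriv]
      simp only [Function.iterate_succ_apply']
      ring
  constructor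
  · have h := (hiter k).self_of_nhds
    rw [h]
    show D.om ^ k * MvPolynomial.aeval (ev P D a 0) ((der a)^[k] p) = _
    rw [ev_zero]
  · rw [Complex.analyticAt_iff_eventually_differentiableAt]
    filter_upwards [hnear] with ζ hζ
    exact (hasDerivAt_ev P D a ζ hζ p).differentiableAt

/-- C1b. PROOF. The only difference is the variable `Q j`: `Xi` is `om As_j - (rh/om)(ps_{j.castSucc} + b_{j.succ} ps_last - z ps_{j.succ})` and `rhv P l j = rh ([l = j.castSucc] + b_{j.succ} [l = last] - z [l = j.succ])`. (`tt_smul`.) -/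
theorem evW_ev (P : Par d) (D : Dt d) (a : Fin d → ℤ) (ζ : ℂ) :
    evW P D (WV P D (fun j => ζ * (a j : ℂ))) (tt P.z (fun j => ζ * (a j : ℂ))) = ev P D a ζ := by
  have ht : tt P.z (fun j => ζ * (a j : ℂ)) = fun l => ζ * tt P.z (fun i => (a i : ℂ)) l := by
    funext l
    exact tt_smul P.z ζ (fun j => (a j : ℂ)) l
  funext x
  cases x with
  | X l => simp only [evW, MSK.ev, ht]
  | Y l => simp only [evW, MSK.ev, ht]
  | Q j =>
    simp only [evW, MSK.ev, ht, WV, Xi]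
    have h1 : ∀ f : Fin (d + 1) → ℂ, ∑ l, rhv P l j * f l =
        rh * (f j.castSucc + P.b j.succ * f (Fin.last d) - P.z * f j.succ) := by
      intro f
      have h2 : ∀ l, rhv P l j * f l = rh * ((if l = j.castSucc then f l else 0) +
          P.b j.succ * (if l = Fin.last d then f l else 0) - P.z * (if l = j.succ then f l else 0)) := by
        intro l
        unfold rhv
        split_ifs <;> ring
      rw [Finset.sum_congr rfl fun l _ => h2 l, ← Finset.mul_sum, Finset.sum_sub_distrib, Finset.sum_add_distrib,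
        ← Finset.mul_sum, ← Finset.mul_sum]
      simp only [Finset.sum_ite_eq', Finset.mem_univ, if_true]
    rw [h1 (fun l => D.ps l (ζ * tt P.z (fun i => (a i : ℂ)) l))]
    ring
  | b l => rfl
  | g => rfl
  | k => rfl
  | z => rfl
  | r => rfl

/-- C1c. PROOF. C1a, C1b and linearity. -/
theorem iteratedDeriv_FR (P : Par d) (D : Dt d) {E : ℕ} (c : Ir d E → ℂ) (a : Fin d → ℤ) (k : ℕ) :
    iteratedDeriv k (fun ζ : ℂ => FR P D c (fun j => ζ * a j)) 0 =
      D.om ^ k * ∑ κ, c κ * MvPolynomial.aeval (vals P D) ((der a)^[k] (Rp (fun j => (κ j).val))) := by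
  have h1 : (fun ζ : ℂ => FR P D c (fun j => ζ * a j)) =
      fun ζ : ℂ => ∑ κ, c κ * MvPolynomial.aeval (ev P D a ζ) (Rp (fun j => (κ j).val)) := by
    funext ζ
    simp only [FR, evW_ev]
  have hs : ∀ κ ∈ (Finset.univ : Finset (Ir d E)), ContDiffAt ℂ (k : ℕ∞)
      (fun ζ : ℂ => c κ * MvPolynomial.aeval (ev P D a ζ) (Rp (fun j => (κ j).val))) 0 := fun κ _ =>
    (analyticAt_const.mul (iter_gen P D a _ k).2).contDiffAt
  rw [h1, iteratedDeriv_fun_sum hs, Finset.mul_sum]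
  refine Finset.sum_congr rfl fun κ _ => ?_
  rw [iteratedDeriv_const_mul_field, (iter_gen P D a _ k).1]
  ring

theorem FR_line_analytic (P : Par d) (D : Dt d) {E : ℕ} (c : Ir d E → ℂ) (a : Fin d → ℤ) :
    AnalyticAt ℂ (fun ζ : ℂ => FR P D c (fun j => ζ * a j)) 0 := by
  have h1 : (fun ζ : ℂ => FR P D c (fun j => ζ * a j)) =
      fun ζ : ℂ => ∑ κ, c κ * MvPolynomial.aeval (ev P D a ζ) (Rp (fun j => (κ j).val)) := by
    funext ζ
    simp only [FR, evW_ev]
  rw [h1]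
  exact Finset.analyticAt_fun_sum _ fun κ _ => analyticAt_const.mul (iter_gen P D a _ 0).2

end Pool.Agent.MSR
end

end

section

/-! # K/C3_Small: a quasi-periodic entire function which is small at the points of a finite set is small everywhere -/

open Complex

noncomputable section

namespace Pool.Agent.MSK

open MSD MSP

variable {d : ℕ}

theorem c3_P2_nonneg (P : Par d) (v : Fin d → ℂ) : 0 ≤ P2 P v := by
  unfold P2
  refine Finset.sum_nonneg fun l _ => ?_
  split_ifs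
  · positivity
  · exact le_rfl

theorem c3_Nn_nonneg (P : Par d) (M : ℕ) (G : (Fin d → ℂ) → ℂ) (v : Fin d → ℂ) : 0 ≤ Nn P M G v := by
  unfold Nn
  positivity

/-- one polydisc -/
theorem c3_one (P : Par d) (M : ℕ) (C1 : ℝ) (s : Fin d → ℂ) (G : (Fin d → ℂ) → ℂ)
    (hG : Differentiable ℂ G) (N ε : ℝ) (hN0 : 0 ≤ N) (hε0 : 0 ≤ ε) (hN : ∀ v, Nn P M G v ≤ N) (K : ℕ) (hK : 1 ≤ K)
    (hε : ∀ i : Fin d → Fin K, Nn P M G (fun j => s j + C1 * (((i j).val : ℂ) / K)) ≤ ε) (R' C4 : ℝ) (hR' : 3 ≤ R')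
    (hC4 : ∀ y : Fin d → ℂ, (∀ j, ‖y j‖ ≤ R') → Qf P (fun j => C1 * y j) ≤ C4) (u : Fin d → ℂ) (hu : ∀ j, ‖u j‖ ≤ 1) :
    Nn P M G (fun j => s j + C1 * u j) ≤ 22 ^ (d * K) * (ε * Real.exp (M * C4)) +
      d * 22 ^ (d * K) * (4 / (R' - 1)) ^ K * (N * Real.exp (M * C4)) := by
  obtain ⟨ℓ, hℓ⟩ := Qf_polar P s
  have hgd : Differentiable ℂ (fun y : Fin d → ℂ => G (fun j => s j + C1 * y j) * cexp (-(M * ℓ (fun j => C1 * y j)))) := by
    have h1 : Differentiable ℂ (fun y : Fin d → ℂ => (fun j => s j + (C1 : ℂ) * y j)) := by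
      rw [differentiable_pi]
      intro j
      fun_prop
    have h2 : Differentiable ℂ (fun y : Fin d → ℂ => (fun j => (C1 : ℂ) * y j)) := by
      rw [differentiable_pi]
      intro j
      fun_prop
    have h3 : Differentiable ℂ (fun y : Fin d → ℂ => ℓ y) := (LinearMap.toContinuousLinearMap ℓ).differentiable
    exact (hG.comp h1).mul (((h3.comp h2).const_mul (M : ℂ)).neg.cexp)
  have hg : ∀ y : Fin d → ℂ, ‖G (fun j => s j + C1 * y j) * cexp (-(M * ℓ (fun j => C1 * y j)))‖ =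
      Nn P M G (fun j => s j + C1 * y j) * Real.exp (M * Qf P s) * Real.exp (M * Qf P (fun j => C1 * y j)) := by
    intro y
    have h1 := hℓ (fun j => C1 * y j)
    have h2 : s + (fun j => (C1 : ℂ) * y j) = fun j => s j + C1 * y j := rfl
    rw [h2] at h1
    unfold Nn
    rw [norm_mul, Complex.norm_exp, mul_assoc, mul_assoc, ← Real.exp_add, ← Real.exp_add]
    congr 2
    rw [h1]
    have h3 : (-((M : ℂ) * ℓ (fun j => C1 * y j))).re = -(M * (ℓ (fun j => C1 * y j)).re) := by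
      rw [Complex.neg_re, ← Complex.ofReal_natCast, Complex.re_ofReal_mul]
    rw [h3]
    ring
  have hbd : ∀ (y : Fin d → ℂ) (T : ℝ), 0 ≤ T → (∀ j, ‖y j‖ ≤ R') → Nn P M G (fun j => s j + C1 * y j) ≤ T →
      ‖G (fun j => s j + C1 * y j) * cexp (-(M * ℓ (fun j => C1 * y j)))‖ ≤ T * Real.exp (M * C4) * Real.exp (M * Qf P s) := by
    intro y T hT0 hy hT
    rw [hg y]
    have h1 : Real.exp (M * Qf P (fun j => C1 * y j)) ≤ Real.exp (M * C4) :=
      Real.exp_le_exp.mpr (mul_le_mul_of_nonneg_left (hC4 y hy) (Nat.cast_nonneg M))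
    calc Nn P M G (fun j => s j + C1 * y j) * Real.exp (M * Qf P s) * Real.exp (M * Qf P (fun j => C1 * y j))
        ≤ T * Real.exp (M * Qf P s) * Real.exp (M * C4) := by gcongr
      _ = _ := by ring
  have key := interp_multi K hK R' (N * Real.exp (M * C4) * Real.exp (M * Qf P s)) (ε * Real.exp (M * C4) * Real.exp (M * Qf P s)) hR'
    (fun y : Fin d → ℂ => G (fun j => s j + C1 * y j) * cexp (-(M * ℓ (fun j => C1 * y j)))) hgd
    (fun y hy => hbd y N hN0 hy (hN _))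
    (fun i => hbd _ ε hε0 (fun j => by
      have hKp : (0 : ℝ) < K := by exact_mod_cast hK
      rw [norm_div, Complex.norm_natCast, Complex.norm_natCast]
      have : ((i j).val : ℝ) / K ≤ 1 := by
        rw [div_le_one hKp]
        exact_mod_cast (i j).isLt.le
      linarith) (hε i)) u hu
  have h5 := hg u
  rw [h5] at key
  have h6 : 1 ≤ Real.exp (M * Qf P (fun j => C1 * u j)) := by
    exact Real.one_le_exp (mul_nonneg (Nat.cast_nonneg M) (Qf_nonneg P _))
  have h7 : 0 < Real.exp (M * Qf P s) := Real.exp_pos _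
  have h8 : Nn P M G (fun j => s j + C1 * u j) * Real.exp (M * Qf P s) ≤
      Nn P M G (fun j => s j + C1 * u j) * Real.exp (M * Qf P s) * Real.exp (M * Qf P (fun j => C1 * u j)) :=
    le_mul_of_one_le_right (mul_nonneg (c3_Nn_nonneg P M G _) h7.le) h6
  have h9 : Nn P M G (fun j => s j + C1 * u j) * Real.exp (M * Qf P s) ≤
      (22 ^ (d * K) * (ε * Real.exp (M * C4)) +
      d * 22 ^ (d * K) * (4 / (R' - 1)) ^ K * (N * Real.exp (M * C4))) * Real.exp (M * Qf P s) := by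
    refine (h8.trans key).trans (le_of_eq ?_)
    ring
  exact le_of_mul_le_mul_right h9 h7

/-- C3. PROOF. `C₁` from `cover`. Let `K = C₃ M` (`C₃` large), `Sp = {s + C₁ (i_j/K)_j : s ∈ S, i ∈ {0..K-1}^d}`, `card ≤ C R^(d-1) M^d`. Let `N* = sup Nn(v)` (finite, `≤ B`). For any `v`: if `P2 v > R²` then `Nn v ≤ B e^{-MR²}`. Otherwise
take `n, s` from `cover` and `u = (v - gam(qn) - s)/C₁`, `‖u_j‖ ≤ 1`, `Nn v = Nn (s + C₁ u)`. Let `g(u) = G(s + C₁u) exp(-M ℓ_s(C₁u))`, `ℓ_s` from `Qf_polar`: `‖g(u)‖ = Nn(s + C₁u) exp(M Qf s + M Qf(C₁u))`. With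
`R' = 1 + 16·22^d` (a constant): on `‖u_j‖ ≤ R'`: `‖g‖ ≤ N* e^{M Qf s} e^{M C₄}`; at the nodes `‖g‖ ≤ ε e^{M Qf s + M C₄}`. By `interp_multi`
`Nn v ≤ ‖g(u)‖ e^{-M Qf s} ≤ 22^(dK) ε e^{MC₄} + d 22^(dK) (4/(R'-1))^K N* e^{MC₄}` and `22^d · 4/(R'-1) ≤ 1/4`, so the last term is `≤ d 4^{-K} e^{MC₄} N* ≤ N*/2` for `K = C₃M`, `C₃` large. So
`N* ≤ C^M ε + N*/2 + B e^{-MR²}`. -/
theorem small_all (P : Par d) (hd : 2 ≤ d) (q : ℕ) (hq : 1 ≤ q) : ∃ C : ℝ, 1 ≤ C ∧ ∀ (M : ℕ) (R : ℝ), 1 ≤ M → 1 ≤ R →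
    ∃ Sp : Finset (Fin d → ℂ), (Sp.card : ℝ) ≤ C * R ^ (d - 1) * M ^ d ∧ ∀ (G : (Fin d → ℂ) → ℂ) (B : ℝ), Differentiable ℂ G →
      (∀ (n : Fin (d + 1) → ℤ) (v : Fin d → ℂ), Nn P M G (v + gam P (fun l => (q : ℝ) * n l)) = Nn P M G v) →
      (∀ v, Nn P M G v ≤ B * Real.exp (-(M * P2 P v))) → ∀ ε : ℝ, 0 ≤ ε → (∀ p ∈ Sp, Nn P M G p ≤ ε) →
      ∀ v, Nn P M G v ≤ C ^ M * (ε + B * Real.exp (-(M * R ^ 2))) := by
  classical
  obtain ⟨C1, hC1, hcov⟩ := cover P hd q hq
  obtain ⟨Cq, hCq, hQ⟩ := Qf_le P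
  obtain ⟨R', hR'⟩ : ∃ R' : ℝ, R' = 1 + 16 * 22 ^ d := ⟨_, rfl⟩
  have h22 : (1 : ℝ) ≤ 22 ^ d := one_le_pow₀ (by norm_num)
  have hR'3 : 3 ≤ R' := by rw [hR']; linarith
  obtain ⟨C4, hC4⟩ : ∃ C4 : ℝ, C4 = Cq * (C1 * R') ^ 2 := ⟨_, rfl⟩
  have hC40 : 0 ≤ C4 := by rw [hC4]; positivity
  obtain ⟨C3, hC3⟩ := pow_unbounded_of_one_lt (2 * (d : ℝ) * Real.exp C4) (by norm_num : (1:ℝ) < 4)
  have hd2 : (2 : ℝ) ≤ d := by exact_mod_cast hd
  have hexp4 : 1 ≤ Real.exp C4 := Real.one_le_exp hC40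
  have hbig : (4 : ℝ) ≤ 2 * (d : ℝ) * Real.exp C4 := by nlinarith
  have hC31 : 1 ≤ C3 := by
    by_contra h
    have h0 : C3 = 0 := by omega
    rw [h0, pow_zero] at hC3
    linarith
  have hC1p : 0 < C1 := by linarith
  obtain ⟨D1, hD1⟩ : ∃ D1 : ℝ, D1 = 22 ^ (d * C3) * Real.exp C4 := ⟨_, rfl⟩
  have hD11 : 1 ≤ D1 := by
    rw [hD1]
    have h1 : (1 : ℝ) ≤ 22 ^ (d * C3) := one_le_pow₀ (by norm_num)
    calc (1 : ℝ) = 1 * 1 := by norm_num
      _ ≤ _ := by gcongr
  have hCC : 0 ≤ C1 * (C3 : ℝ) ^ d := by positivity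
  refine ⟨C1 * (C3 : ℝ) ^ d + 2 * D1, by linarith, ?_⟩
  intro M R hM hR
  obtain ⟨S, hS, hScov⟩ := hcov R hR
  have hM1 : (1 : ℝ) ≤ M := by exact_mod_cast hM
  obtain ⟨K, hKdef⟩ : ∃ K : ℕ, K = C3 * M := ⟨_, rfl⟩
  have hK : 1 ≤ K := by
    rw [hKdef]
    exact Nat.mul_pos hC31 hM
  refine ⟨(S ×ˢ (Finset.univ : Finset (Fin d → Fin K))).image (fun x => fun j => x.1 j + C1 * (((x.2 j).val : ℂ) / K)), ?_, ?_⟩
  · have h1 : ((((S ×ˢ (Finset.univ : Finset (Fin d → Fin K))).image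
        (fun x => fun j => x.1 j + C1 * (((x.2 j).val : ℂ) / K))).card : ℕ) : ℝ) ≤ (S.card : ℝ) * (K : ℝ) ^ d := by
      have h2 := Finset.card_image_le (s := S ×ˢ (Finset.univ : Finset (Fin d → Fin K)))
        (f := fun x => fun j => x.1 j + C1 * (((x.2 j).val : ℂ) / K))
      rw [Finset.card_product, Finset.card_univ, Fintype.card_fun, Fintype.card_fin, Fintype.card_fin] at h2
      exact_mod_cast h2
    refine h1.trans ?_
    have hRp : 0 ≤ R ^ (d - 1) := by positivity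
    calc (S.card : ℝ) * (K : ℝ) ^ d ≤ (C1 * R ^ (d - 1)) * (K : ℝ) ^ d := by gcongr
      _ = C1 * (C3 : ℝ) ^ d * R ^ (d - 1) * M ^ d := by
          rw [hKdef]
          push_cast
          ring
      _ ≤ _ := by
          gcongr
          linarith
  · intro G B hG hper hB ε hε hSp v
    have hB0 : 0 ≤ B := by
      have h1 := (c3_Nn_nonneg P M G 0).trans (hB 0)
      exact nonneg_of_mul_nonneg_left h1 (Real.exp_pos _)
    have hbdd : ∀ v, Nn P M G v ≤ B := by
      intro v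
      refine (hB v).trans ?_
      have h1 : Real.exp (-(M * P2 P v)) ≤ 1 := by
        rw [Real.exp_le_one_iff]
        have := mul_nonneg (Nat.cast_nonneg (α := ℝ) M) (c3_P2_nonneg P v)
        linarith
      exact mul_le_of_le_one_right hB0 h1
    obtain ⟨N, hNdef⟩ : ∃ N : ℝ, N = ⨆ v, Nn P M G v := ⟨_, rfl⟩
    have hbddA : BddAbove (Set.range fun v => Nn P M G v) := ⟨B, by rintro _ ⟨v, rfl⟩; exact hbdd v⟩
    have hNle : ∀ v, Nn P M G v ≤ N := fun v => by
      rw [hNdef]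
      exact le_ciSup hbddA v
    have hN0 : 0 ≤ N := (c3_Nn_nonneg P M G 0).trans (hNle 0)
    have hmain : ∀ v, Nn P M G v ≤ D1 ^ M * ε + N / 2 + B * Real.exp (-(M * R ^ 2)) := by
      intro v
      have hD1M : 0 ≤ D1 ^ M * ε := by positivity
      have hBe : 0 ≤ B * Real.exp (-(M * R ^ 2)) := by positivity
      rcases le_or_gt (P2 P v) (R ^ 2) with hv | hv
      · obtain ⟨n, s, hs, hn⟩ := hScov v hv
        obtain ⟨u, hu⟩ : ∃ u : Fin d → ℂ, u = fun j => (v j - gam P (fun l => (q : ℝ) * n l) j - s j) / C1 := ⟨_, rfl⟩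
        have hu1 : ∀ j, ‖u j‖ ≤ 1 := by
          intro j
          rw [hu]
          simp only []
          rw [norm_div, Complex.norm_real, Real.norm_eq_abs, abs_of_pos hC1p, div_le_one hC1p]
          exact hn j
        have hC1c : (C1 : ℂ) ≠ 0 := by exact_mod_cast hC1p.ne'
        have hvs : (fun j => s j + C1 * u j) + gam P (fun l => (q : ℝ) * n l) = v := by
          funext j
          rw [Pi.add_apply, hu]
          simp only []
          rw [mul_div_cancel₀ _ hC1c]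
          ring
        have h1 : Nn P M G v = Nn P M G (fun j => s j + C1 * u j) := by
          rw [← hper n (fun j => s j + C1 * u j), hvs]
        rw [h1]
        have h2 := c3_one P M C1 s G hG N ε hN0 hε hNle K hK
          (fun i => hSp _ (Finset.mem_image.mpr ⟨(s, i), by simp [hs], rfl⟩)) R' C4 hR'3
          (fun y hy => by
            refine (hQ _).trans ?_
            rw [hC4]
            have h3 : ‖(fun j => (C1 : ℂ) * y j)‖ ≤ C1 * R' := by
              rw [pi_norm_le_iff_of_nonneg (by positivity)]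
              intro j
              rw [norm_mul, Complex.norm_real, Real.norm_eq_abs, abs_of_pos hC1p]
              exact mul_le_mul_of_nonneg_left (hy j) hC1p.le
            gcongr) u hu1
        have h3 : (22 : ℝ) ^ (d * K) * (ε * Real.exp (M * C4)) = D1 ^ M * ε := by
          rw [hD1, hKdef, mul_pow, ← pow_mul, ← Real.exp_nat_mul]
          rw [show d * (C3 * M) = d * C3 * M by ring]
          ring
        have h4 : (d : ℝ) * 22 ^ (d * K) * (4 / (R' - 1)) ^ K * (N * Real.exp (M * C4)) ≤ N / 2 := by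
          have e1 : (4 : ℝ) / (R' - 1) = 1 / (4 * 22 ^ d) := by
            rw [hR']
            field_simp
            ring
          have e2 : (22 : ℝ) ^ (d * K) * (4 / (R' - 1)) ^ K = 1 / 4 ^ K := by
            rw [e1, pow_mul, ← mul_pow]
            rw [show (22 : ℝ) ^ d * (1 / (4 * 22 ^ d)) = 1 / 4 by field_simp]
            rw [one_div, inv_pow, one_div]
          have e3 : 2 * (d : ℝ) * Real.exp (M * C4) ≤ 4 ^ K := by
            have a1 : (4 : ℝ) ^ K = (4 ^ C3) ^ M := by rw [hKdef, pow_mul]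
            rw [a1]
            calc 2 * (d : ℝ) * Real.exp (M * C4) ≤ (2 * (d : ℝ)) ^ M * Real.exp (M * C4) := by
                  gcongr
                  exact le_self_pow₀ (by linarith) (by omega)
              _ = (2 * (d : ℝ) * Real.exp C4) ^ M := by rw [Real.exp_nat_mul, ← mul_pow]
              _ ≤ _ := by
                  gcongr
          have h4K : (0 : ℝ) < 4 ^ K := by positivity
          calc (d : ℝ) * 22 ^ (d * K) * (4 / (R' - 1)) ^ K * (N * Real.exp (M * C4))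
              = (d * Real.exp (M * C4)) * N * (22 ^ (d * K) * (4 / (R' - 1)) ^ K) := by ring
            _ = (d * Real.exp (M * C4)) * N * (1 / 4 ^ K) := by rw [e2]
            _ = (2 * (d * Real.exp (M * C4)) / 4 ^ K) * (N / 2) := by ring
            _ ≤ 1 * (N / 2) := by
                gcongr
                rw [div_le_one h4K]
                linarith
            _ = N / 2 := one_mul _
        rw [h3] at h2
        linarith
      · refine (hB v).trans ?_
        have h1 : B * Real.exp (-(M * P2 P v)) ≤ B * Real.exp (-(M * R ^ 2)) := by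
          gcongr
        linarith
    have hN2 : N ≤ D1 ^ M * ε + N / 2 + B * Real.exp (-(M * R ^ 2)) := by
      rw [hNdef]
      refine ciSup_le fun v => ?_
      rw [← hNdef]
      exact hmain v
    have hBe : 0 ≤ B * Real.exp (-(M * R ^ 2)) := by positivity
    have hDM : (1 : ℝ) ≤ D1 ^ M := one_le_pow₀ hD11
    have h2M : 2 * D1 ^ M ≤ (C1 * (C3 : ℝ) ^ d + 2 * D1) ^ M := by
      calc 2 * D1 ^ M ≤ 2 ^ M * D1 ^ M := by
            gcongr
            exact le_self_pow₀ (by norm_num) (by omega)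
        _ = (2 * D1) ^ M := by rw [mul_pow]
        _ ≤ _ := by
            gcongr
            linarith
    calc Nn P M G v ≤ N := hNle v
      _ ≤ 2 * (D1 ^ M * ε + B * Real.exp (-(M * R ^ 2))) := by linarith
      _ ≤ 2 * D1 ^ M * (ε + B * Real.exp (-(M * R ^ 2))) := by nlinarith
      _ ≤ _ := by
          gcongr

end Pool.Agent.MSK
end

end

section

/-! # R/B4_Rep: representation of the functions by derivatives of theta functions -/

open Complex Filter Topology IntermediateField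

noncomputable section

namespace Pool.Agent.MSR

open MSD MSP MSK

variable {d : ℕ}

/-- one step of the induction -/
theorem b4_step (P : Par d) (D : Dt d) (j : Fin d) (R : MvPolynomial (Vr d) ℤ) (B : MvPolynomial (Fin d) ℂ)
    (hR : ∀ (W : Fin d → ℂ) (t : Fin (d + 1) → ℂ), (∀ l, th D.τ (D.h l + t l) ≠ 0) →
      MvPolynomial.aeval (evW P D W t) R * pp D t = TH D t (MvPolynomial.aeval (lin P D W) B))
    (W : Fin d → ℂ) (t : Fin (d + 1) → ℂ) (h : ∀ l, th D.τ (D.h l + t l) ≠ 0) :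
    MvPolynomial.aeval (evW P D W t) (nab j R) * pp D t =
      TH D t (MvPolynomial.aeval (lin P D W) (bb (qq P D) j B)) := by
  have h1 := psi_line P D j W t h R
  have h2 := th_line P D j W t B
  have hev : ∀ᶠ s : ℂ in 𝓝 0, ∀ l, th D.τ (D.h l + (t l - s / D.om * rhv P l j)) ≠ 0 := by
    rw [eventually_all]
    intro l
    have hc : Continuous (fun s : ℂ => th D.τ (D.h l + (t l - s / D.om * rhv P l j))) :=
      (th_differentiable D.τ D.im).continuous.comp (by fun_prop)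
    refine hc.continuousAt.eventually_ne ?_
    rw [zero_div, zero_mul, sub_zero]
    exact h l
  have h3 : (fun s : ℂ => MvPolynomial.aeval (evW P D (fun i => W i + s * qq P D i j)
        (fun l => t l - s / D.om * rhv P l j)) R * pp D (fun l => t l - s / D.om * rhv P l j)) =ᶠ[𝓝 0]
      (fun s : ℂ => TH D (fun l => t l - s / D.om * rhv P l j)
        (MvPolynomial.aeval (lin P D (fun i => W i + s * qq P D i j)) B)) := by
    filter_upwards [hev] with s hs
    exact hR _ _ hs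
  have h4 := h1.unique (h2.congr_of_eventuallyEq h3)
  rw [hR W t h] at h4
  exact sub_left_injective h4

/-- B4. PROOF. `Rp_ind` with `Rel R B _ := ∀ W t, (∀ l, th(h_l + t_l) ≠ 0) → aeval (evW W t) R * pp t = TH t (aeval (lin W) B)`. `Rel 1 1`: `TH_one`. Step: the two functions of `s` in `psi_line` (for `R`) and `th_line` (for `B`) agree for `s`
near `0` (the condition `th ≠ 0` is open, `th_differentiable`), so their derivatives at `0` agree (`HasDerivAt.unique` and `HasDerivAt.congr_of_eventuallyEq`), and the terms `(W_j + lam_j) ..` agree by the hypothesis at `s = 0`. -/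
theorem rep (P : Par d) (D : Dt d) (κ : Fin d → ℕ) (W : Fin d → ℂ) (t : Fin (d + 1) → ℂ) (h : ∀ l, th D.τ (D.h l + t l) ≠ 0) :
    MvPolynomial.aeval (evW P D W t) (Rp κ) * pp D t = TH D t (MvPolynomial.aeval (lin P D W) (Bp (qq P D) κ)) := by
  refine Rp_ind (qq P D) (fun R B _ => ∀ (W : Fin d → ℂ) (t : Fin (d + 1) → ℂ), (∀ l, th D.τ (D.h l + t l) ≠ 0) →
      MvPolynomial.aeval (evW P D W t) R * pp D t = TH D t (MvPolynomial.aeval (lin P D W) B)) ?_ ?_ κ W t h
  · intro W t _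
    rw [map_one, map_one, one_mul, TH_one]
  · intro j R B n hR W t h
    exact b4_step P D j R B hR W t h

end Pool.Agent.MSR
end

end

section

/-! # K/G2_Aux: the auxiliary function -/

open Complex

noncomputable section

namespace Pool.Agent.MSK

open MSD MSP

variable {d : ℕ}

/-- a common denominator of the coefficients -/
theorem g2_den (P : Par d) : ∃ q : ℕ, 1 ≤ q ∧ ∀ l, ∃ m : ℤ, (q : ℚ) * P.b l = m := by
  refine ⟨∏ l, (P.b l).den, Finset.one_le_prod' fun l _ => (P.b l).den_pos, fun l => ?_⟩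
  obtain ⟨k, hk⟩ := Finset.dvd_prod_of_mem (fun l => (P.b l).den) (Finset.mem_univ l)
  refine ⟨(k : ℤ) * (P.b l).num, ?_⟩
  rw [hk]
  push_cast
  have h := Rat.den_mul_eq_num (P.b l)
  rw [mul_comm ((P.b l).den : ℚ), mul_assoc, h]

theorem g2_P2 (P : Par d) (v : Fin d → ℂ) : 0 ≤ P2 P v := by
  unfold P2
  refine Finset.sum_nonneg fun l _ => ?_
  split_ifs
  · exact sq_nonneg _
  · exact le_rfl

theorem g2_single (P : Par d) (D : Dt d) {L : ℕ} (ν : Ix d L) (v : Fin d → ℂ) :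
    Gab P D (Pi.single ν 1) v = gmon P D ν (fun j => v j - p0 P.z j) (tt P.z (fun j => v j - p0 P.z j)) := by
  unfold Gab
  rw [Finset.sum_eq_single ν]
  · rw [Pi.single_eq_same, one_mul]
  · intro μ _ hμ
    rw [Pi.single_eq_of_ne hμ, zero_mul]
  · intro h
    exact absurd (Finset.mem_univ ν) h

theorem g2_Gab (P : Par d) (D : Dt d) {L : ℕ} (c : Ix d L → ℂ) (v : Fin d → ℂ) :
    Gab P D c v = ∑ ν, c ν * Gab P D (Pi.single ν 1) v := by
  conv_lhs => unfold Gab
  exact Finset.sum_congr rfl fun ν _ => by rw [g2_single]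

theorem g2_diff (P : Par d) (D : Dt d) {L : ℕ} (c : Ix d L → ℂ) : Differentiable ℂ (Gab P D c) := by
  unfold Gab
  have h0 : Differentiable ℂ (fun v : Fin d → ℂ => fun j => v j - p0 P.z j) := by
    rw [differentiable_pi]
    intro j
    exact (differentiable_apply j).sub_const _
  refine Differentiable.fun_sum fun ν _ => ?_
  exact ((gmon_differentiable P D ν).comp h0).const_mul (c ν)

/-- the polynomials -/
def g2p {L T : ℕ} (x : Ix d L × Fin T → ℤ) (ν : Ix d L) : Polynomial ℤ :=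
  ∑ i : Fin T, Polynomial.C (x (ν, i)) * Polynomial.X ^ i.val

theorem g2p_coeff {L T : ℕ} (x : Ix d L × Fin T → ℤ) (ν : Ix d L) (j : ℕ) :
    (g2p x ν).coeff j = if h : j < T then x (ν, ⟨j, h⟩) else 0 := by
  unfold g2p
  rw [Polynomial.finsetSum_coeff]
  simp_rw [Polynomial.coeff_C_mul_X_pow]
  split_ifs with h
  · rw [Finset.sum_eq_single ⟨j, h⟩]
    · simp
    · intro i _ hi
      rw [if_neg]
      intro hj
      exact hi (Fin.ext hj.symm)
    · intro h'
      exact absurd (Finset.mem_univ _) h'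
  · refine Finset.sum_eq_zero fun i _ => ?_
    rw [if_neg]
    intro hj
    exact h (hj ▸ i.isLt)

theorem g2p_deg {L T : ℕ} (x : Ix d L × Fin T → ℤ) (ν : Ix d L) : (g2p x ν).natDegree ≤ T := by
  rw [Polynomial.natDegree_le_iff_coeff_eq_zero]
  intro j hj
  rw [g2p_coeff, dif_neg (not_lt.2 hj.le)]

theorem g2p_aeval {L T : ℕ} (x : Ix d L × Fin T → ℤ) (ν : Ix d L) (θ : ℂ) :
    Polynomial.aeval θ (g2p x ν) = ∑ i : Fin T, (x (ν, i) : ℂ) * θ ^ i.val := by
  unfold g2p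
  rw [map_sum]
  refine Finset.sum_congr rfl fun i _ => ?_
  rw [map_mul, map_pow, Polynomial.aeval_X, Polynomial.aeval_C]
  simp

theorem g2_card (L T : ℕ) : (Fintype.card (Ix d L × Fin T) : ℝ) = (L : ℝ) ^ (2 * d + 1) * T := by
  rw [Fintype.card_prod, Fintype.card_prod, Fintype.card_fin, Fintype.card_fun, Fintype.card_fun, Fintype.card_fin,
    Fintype.card_fin, Fintype.card_fin]
  push_cast
  ring

/-- the inequalities between the parameters -/
theorem g2_num (d L T : ℕ) (a n s b R g C : ℝ) (c : ℕ) (hL : 1 ≤ L) (hT : 1 ≤ T) (ha : 0 ≤ a) (hn : 0 ≤ n) (hs : 0 ≤ s)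
    (hb : 0 < b) (hR : 1 ≤ R) (hg : 0 ≤ g)
    (hC : C = 2 * Real.exp s * ((d : ℝ) + 2) ^ d + (2 * d + 9 + a + n + (d + 2) * s))
    (hc : (c : ℝ) ≤ Real.exp s * R ^ (d - 1) * (((d + 2) * L : ℕ) : ℝ) ^ d)
    (h1 : C * (L + T) + C * b + C * g ≤ L * R ^ 2)
    (h2 : C * R ^ (d - 1) * L ^ d * (C * (L + T) + b + g) < L ^ (2 * d + 1) * T * b) :
    let Λ : ℝ := ((d + 2) * s + 1) * (L + T)
    let N : ℝ := (L : ℝ) ^ (2 * d + 1) * T
    let α : ℝ := Real.exp (T * a + L * n)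
    (4 * (N * α * Real.exp b) / Real.exp (-g - Λ) + 2) ^ (2 * c) < Real.exp (b * N) ∧
      Real.exp (s * ((d + 2) * L : ℕ)) * (Real.exp (-g - Λ) + (N * α * Real.exp b) * Real.exp (-(((d + 2) * L : ℕ) * R ^ 2)))
        ≤ Real.exp (-g) := by
  intro Λ N α
  have hL1 : (1 : ℝ) ≤ L := by exact_mod_cast hL
  have hT1 : (1 : ℝ) ≤ T := by exact_mod_cast hT
  have hd0 : (0 : ℝ) ≤ d := Nat.cast_nonneg d
  have hs1 : (1 : ℝ) ≤ Real.exp s := Real.one_le_exp hs
  have hC2 : 2 * (d : ℝ) + 9 + a + n + (d + 2) * s ≤ C := by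
    rw [hC]
    have : 0 ≤ 2 * Real.exp s * ((d : ℝ) + 2) ^ d := by positivity
    linarith
  have hC1 : 2 * Real.exp s * ((d : ℝ) + 2) ^ d ≤ C := by
    rw [hC]
    have : 0 ≤ 2 * (d : ℝ) + 9 + a + n + (d + 2) * s := by positivity
    linarith
  have hCp : 1 ≤ C := by
    refine le_trans ?_ hC2
    have : 0 ≤ (d + 2) * s := by positivity
    linarith
  -- the bound of the number of unknowns
  have hN : N ≤ Real.exp ((2 * d + 1) * L + T) := by
    have hL' : (L : ℝ) ≤ Real.exp L := by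
      have := Real.add_one_le_exp (L : ℝ)
      linarith
    have hT' : (T : ℝ) ≤ Real.exp T := by
      have := Real.add_one_le_exp (T : ℝ)
      linarith
    have h3 : (L : ℝ) ^ (2 * d + 1) ≤ Real.exp ((2 * d + 1) * L) := by
      have h4 : Real.exp ((2 * d + 1) * L) = Real.exp L ^ (2 * d + 1) := by
        rw [← Real.exp_nat_mul]
        congr 1
        push_cast
        ring
      rw [h4]
      exact pow_le_pow_left₀ (by positivity) hL' _
    rw [Real.exp_add]
    exact mul_le_mul h3 hT' (by positivity) (Real.exp_pos _).le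
  have hNα : N * α * Real.exp b ≤ Real.exp ((2 * d + 1) * L + T + (T * a + L * n) + b) := by
    rw [Real.exp_add, Real.exp_add]
    exact mul_le_mul_of_nonneg_right (mul_le_mul_of_nonneg_right hN (Real.exp_pos _).le) (Real.exp_pos _).le
  have hN0 : 0 ≤ N := by positivity
  constructor
  · -- the pigeonhole inequality
    set E : ℝ := C * (L + T) + b + g with hE
    have h3 : 4 * (N * α * Real.exp b) / Real.exp (-g - Λ) + 2 ≤ Real.exp E := by
      have h4 : N * α * Real.exp b / Real.exp (-g - Λ) ≤ Real.exp ((2 * d + 1) * L + T + (T * a + L * n) + b + (g + Λ)) := by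
        rw [div_le_iff₀ (Real.exp_pos _), ← Real.exp_add]
        refine hNα.trans (Real.exp_le_exp.2 (le_of_eq ?_))
        ring
      set W : ℝ := (2 * d + 1) * L + T + (T * a + L * n) + b + (g + Λ) with hW
      have hΛ0 : 0 ≤ Λ := by positivity
      have hW0 : 0 ≤ W := by positivity
      have hW1 : 1 ≤ Real.exp W := Real.one_le_exp hW0
      have h6 : (6 : ℝ) ≤ Real.exp 6 := by
        have := Real.add_one_le_exp (6 : ℝ)
        linarith
      have h5 : 4 * (N * α * Real.exp b) / Real.exp (-g - Λ) + 2 ≤ Real.exp 6 * Real.exp W := by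
        have : 4 * (N * α * Real.exp b) / Real.exp (-g - Λ) = 4 * (N * α * Real.exp b / Real.exp (-g - Λ)) := by ring
        rw [this]
        refine le_trans (b := 6 * Real.exp W) ?_ (mul_le_mul_of_nonneg_right h6 (Real.exp_pos _).le)
        linarith only [h4, hW1]
      refine h5.trans ?_
      rw [← Real.exp_add]
      apply Real.exp_le_exp.2
      have h7 : (2 * d + 9 + a + n + (d + 2) * s) * (L + T) ≤ C * (L + T) :=
        mul_le_mul_of_nonneg_right hC2 (by positivity)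
      have h8 : 0 ≤ a * L := by positivity
      have h9 : 0 ≤ n * T := by positivity
      have h10 : 0 ≤ (d : ℝ) * T := by positivity
      rw [hE, hW]
      simp only [Λ]
      linarith only [h7, h8, h9, h10, hL1, hT1]
    have h30 : 0 ≤ 4 * (N * α * Real.exp b) / Real.exp (-g - Λ) + 2 := by positivity
    have h4 : (4 * (N * α * Real.exp b) / Real.exp (-g - Λ) + 2) ^ (2 * c) ≤ Real.exp (2 * c * E) := by
      refine (pow_le_pow_left₀ h30 h3 _).trans (le_of_eq ?_)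
      rw [← Real.exp_nat_mul]
      push_cast
      ring_nf
    refine h4.trans_lt (Real.exp_lt_exp.2 ?_)
    have hE0 : 0 ≤ E := by positivity
    have hR0 : 0 ≤ R ^ (d - 1) := by positivity
    have h5 : 2 * (c : ℝ) ≤ C * R ^ (d - 1) * L ^ d := by
      have h6 : (((d + 2) * L : ℕ) : ℝ) ^ d = ((d : ℝ) + 2) ^ d * L ^ d := by
        push_cast
        rw [mul_pow]
      rw [h6] at hc
      calc 2 * (c : ℝ) ≤ 2 * (Real.exp s * R ^ (d - 1) * (((d : ℝ) + 2) ^ d * L ^ d)) := by linarith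
        _ = (2 * Real.exp s * ((d : ℝ) + 2) ^ d) * (R ^ (d - 1) * L ^ d) := by ring
        _ ≤ C * (R ^ (d - 1) * L ^ d) := mul_le_mul_of_nonneg_right hC1 (by positivity)
        _ = C * R ^ (d - 1) * L ^ d := by ring
    calc 2 * (c : ℝ) * E ≤ C * R ^ (d - 1) * L ^ d * E := mul_le_mul_of_nonneg_right h5 hE0
      _ < L ^ (2 * d + 1) * T * b := h2
      _ = b * N := by simp only [N]; ring
  · have h2e : 2 * Real.exp (-g - 1) ≤ Real.exp (-g) := by
      have h3 : Real.exp (-g) = Real.exp 1 * Real.exp (-g - 1) := by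
        rw [← Real.exp_add]
        congr 1
        ring
      have h4 := Real.add_one_le_exp (1 : ℝ)
      rw [h3]
      exact mul_le_mul_of_nonneg_right (by linarith) (Real.exp_pos _).le
    have hM : (((d + 2) * L : ℕ) : ℝ) = (d + 2) * L := by push_cast; ring
    have h3 : Real.exp (s * ((d + 2) * L : ℕ)) * Real.exp (-g - Λ) ≤ Real.exp (-g - 1) := by
      rw [← Real.exp_add]
      apply Real.exp_le_exp.2
      rw [hM]
      simp only [Λ]
      have : 0 ≤ (d + 2) * s * T := by positivity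
      linarith only [this, hL1, hT1]
    have h4 : Real.exp (s * ((d + 2) * L : ℕ)) * ((N * α * Real.exp b) * Real.exp (-(((d + 2) * L : ℕ) * R ^ 2))) ≤
        Real.exp (-g - 1) := by
      calc Real.exp (s * ((d + 2) * L : ℕ)) * ((N * α * Real.exp b) * Real.exp (-(((d + 2) * L : ℕ) * R ^ 2)))
          ≤ Real.exp (s * ((d + 2) * L : ℕ)) * (Real.exp ((2 * d + 1) * L + T + (T * a + L * n) + b) *
            Real.exp (-(((d + 2) * L : ℕ) * R ^ 2))) :=
            mul_le_mul_of_nonneg_left (mul_le_mul_of_nonneg_right hNα (Real.exp_pos _).le) (Real.exp_pos _).le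
        _ ≤ Real.exp (-g - 1) := by
            rw [← Real.exp_add, ← Real.exp_add]
            apply Real.exp_le_exp.2
            rw [hM]
            have h5 : (2 * d + 9 + a + n + (d + 2) * s) * (L + T) ≤ C * (L + T) :=
              mul_le_mul_of_nonneg_right hC2 (by positivity)
            have h6 : b ≤ C * b := le_mul_of_one_le_left hb.le hCp
            have h7 : g ≤ C * g := le_mul_of_one_le_left hg hCp
            have h8 : (L : ℝ) * R ^ 2 ≤ (d + 2) * L * R ^ 2 := by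
              have h81 : 0 ≤ (L : ℝ) * R ^ 2 := by positivity
              have h82 := mul_nonneg hd0 h81
              linarith only [h81, h82]
            have h9 : 0 ≤ a * L := by positivity
            have h10 : 0 ≤ n * T := by positivity
            have h11 : 0 ≤ (d : ℝ) * T := by positivity
            have h12 : 0 ≤ (d + 2) * s * T := by positivity
            linarith only [h1, h5, h6, h7, h8, h9, h10, h11, h12, hL1, hT1]
    calc Real.exp (s * ((d + 2) * L : ℕ)) * (Real.exp (-g - Λ) + (N * α * Real.exp b) * Real.exp (-(((d + 2) * L : ℕ) * R ^ 2)))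
        = Real.exp (s * ((d + 2) * L : ℕ)) * Real.exp (-g - Λ) +
          Real.exp (s * ((d + 2) * L : ℕ)) * ((N * α * Real.exp b) * Real.exp (-(((d + 2) * L : ℕ) * R ^ 2))) := by ring
      _ ≤ 2 * Real.exp (-g - 1) := by linarith
      _ ≤ Real.exp (-g) := h2e

theorem g2_coef {L T : ℕ} (x : Ix d L × Fin T → ℤ) (θ : ℂ) (B : ℕ) (hx : ∀ i, |x i| ≤ B) (ν : Ix d L) :
    ‖(Polynomial.aeval θ (g2p x ν) : ℂ)‖ ≤ T * B * (max 1 ‖θ‖) ^ T := by
  rw [g2p_aeval]
  refine (norm_sum_le _ _).trans ?_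
  have h : ∀ i ∈ (Finset.univ : Finset (Fin T)), ‖(x (ν, i) : ℂ) * θ ^ i.val‖ ≤ B * (max 1 ‖θ‖) ^ T := by
    intro i _
    rw [norm_mul, norm_pow]
    have h1 : ‖(x (ν, i) : ℂ)‖ ≤ B := by
      rw [Complex.norm_intCast]
      exact_mod_cast hx (ν, i)
    have h2 : ‖θ‖ ^ i.val ≤ (max 1 ‖θ‖) ^ T :=
      (pow_le_pow_left₀ (norm_nonneg _) (le_max_right _ _) _).trans
        (pow_le_pow_right₀ (le_max_left _ _) i.isLt.le)
    exact mul_le_mul h1 h2 (by positivity) (by positivity)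
  refine (Finset.sum_le_sum h).trans (le_of_eq ?_)
  rw [Finset.sum_const, Finset.card_univ, Fintype.card_fin, nsmul_eq_mul]
  ring

/-- G2. PROOF. `q ≥ 1` with `q b_l ∈ ℤ`, `M = (d+2)L`, `Sp` from `small_all` for `M` and `R`, `card Sp ≤ C' R^(d-1) L^d`. Unknowns `x_{ν,i}`, `ν ∈ Ix d L`, `i < T`, `p ν = ∑_i x_{ν,i} X^i`; forms: for `v ∈ Sp`
`exp(-M Qf v) Gab(c)(v) = ∑ x_{ν,i} θ^i exp(-M Qf v) Gab(single ν 1)(v)` with coefficients `≤ α = max(1,‖θ‖)^T C^L` (`Nn_bound`). `ε = e^{-g - Λ}` with `Λ = C''(L+T) + log B`, `pigeon`: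
`4 (L^(2d+1) T α B)/ε + 2 ≤ e^{3(Λ+g)}`, and `(B+1)^(L^(2d+1) T) ≥ e^{L^(2d+1) T log B}`, so hypothesis `h2` with a large `C` suffices. So all `Nn ≤ ε` on `Sp`; by `Nn_bound` `Nn ≤ B₁ e^{-M P2}` everywhere, `B₁ = L^(2d+1) T α B`
(triangle inequality), `Gab` is entire, periodic by `Nn_shift`, so by `small_all`: `Nn ≤ C'^M (e^{-g-Λ} + B₁ e^{-MR²}) ≤ e^{-g}` by `h1` (`M R² ≥ L R²·...`; enlarge `C`). -/
theorem aux_exists (P : Par d) (hd : 2 ≤ d) (D : Dt d) (hD : IsOrig P D) (θ : ℂ) (htr : Transcendental ℚ θ) : ∃ C : ℝ, 1 ≤ C ∧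
    ∀ (L T B : ℕ) (R g : ℝ), 1 ≤ L → 1 ≤ T → 2 ≤ B → 1 ≤ R → 0 ≤ g →
      (h1 : C * (L + T) + C * Real.log B + C * g ≤ L * R ^ 2) →
      (h2 : C * R ^ (d - 1) * L ^ d * (C * (L + T) + Real.log B + g) < L ^ (2 * d + 1) * T * Real.log B) →
      ∃ p : Ix d L → Polynomial ℤ, p ≠ 0 ∧ (∀ ν, (p ν).natDegree ≤ T) ∧ (∀ ν i, |((p ν).coeff i : ℝ)| ≤ B) ∧
        ∀ v, Nn P ((d + 2) * L) (Gab P D (fun ν => Polynomial.aeval θ (p ν))) v ≤ Real.exp (-g) := by
  obtain ⟨q, hq, hqb⟩ := g2_den P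
  obtain ⟨Cs, hCs, hsmall⟩ := small_all P hd q hq
  obtain ⟨Cn, hCn, hbd⟩ := Nn_bound P hd D hD
  obtain ⟨a, ha, hA'⟩ : ∃ a : ℝ, 0 ≤ a ∧ Real.exp a = max 1 ‖θ‖ :=
    ⟨Real.log (max 1 ‖θ‖), Real.log_nonneg (le_max_left _ _), Real.exp_log (lt_of_lt_of_le one_pos (le_max_left _ _))⟩
  obtain ⟨n, hn, hCn'⟩ : ∃ n : ℝ, 0 ≤ n ∧ Real.exp n = Cn :=
    ⟨Real.log Cn, Real.log_nonneg hCn, Real.exp_log (lt_of_lt_of_le one_pos hCn)⟩
  obtain ⟨s, hs, hCs'⟩ : ∃ s : ℝ, 0 ≤ s ∧ Real.exp s = Cs :=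
    ⟨Real.log Cs, Real.log_nonneg hCs, Real.exp_log (lt_of_lt_of_le one_pos hCs)⟩
  refine ⟨2 * Real.exp s * ((d : ℝ) + 2) ^ d + (2 * d + 9 + a + n + (d + 2) * s), ?_, ?_⟩
  · have h1 : 0 ≤ 2 * Real.exp s * ((d : ℝ) + 2) ^ d := by positivity
    have h2 : 0 ≤ ((d : ℝ) + 2) * s := by positivity
    have h3 : (0 : ℝ) ≤ d := Nat.cast_nonneg d
    linarith
  intro L T B R g hL hT hB hR hg h1 h2
  have hB1 : (1 : ℝ) < B := by exact_mod_cast hB
  obtain ⟨b, hbl, hb, hB'⟩ : ∃ b : ℝ, Real.log B = b ∧ 0 < b ∧ Real.exp b = B :=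
    ⟨Real.log B, rfl, Real.log_pos hB1, Real.exp_log (by linarith)⟩
  rw [hbl] at h1 h2
  have hM1 : 1 ≤ (d + 2) * L := Nat.one_le_iff_ne_zero.2 (Nat.mul_ne_zero (by omega) (by omega))
  obtain ⟨Sp, hSp, hsm⟩ := hsmall ((d + 2) * L) R hM1 hR
  obtain ⟨n1, n2⟩ := g2_num d L T a n s b R g _ Sp.card hL hT ha hn hs hb hR hg rfl (by rw [hCs']; exact hSp) h1 h2
  set Λ : ℝ := ((d + 2) * s + 1) * (L + T) with hΛ
  set α : ℝ := Real.exp (T * a + L * n) with hα
  have hα' : (max 1 ‖θ‖) ^ T * Cn ^ L = α := by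
    rw [← hA', ← hCn', ← Real.exp_nat_mul, ← Real.exp_nat_mul, ← Real.exp_add]
  have hne : Nonempty (Ix d L × Fin T) := by
    have h3 : Nonempty (Fin L) := ⟨⟨0, hL⟩⟩
    have h4 : Nonempty (Fin T) := ⟨⟨0, hT⟩⟩
    infer_instance
  obtain ⟨x, hx0, hxB, hxε⟩ := pigeon (κ := Sp) (ι := Ix d L × Fin T)
    (fun v i => θ ^ i.2.val * (Gab P D (Pi.single i.1 1) v * (Real.exp (-(((d + 2) * L : ℕ) * Qf P v)) : ℝ)))
    α (Real.exp (-g - Λ)) B (Real.exp_pos _).le (Real.exp_pos _) (by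
      intro k i
      rw [norm_mul, norm_pow, norm_mul, Complex.norm_real, Real.norm_of_nonneg (Real.exp_pos _).le, ← hα']
      have h3 : ‖θ‖ ^ i.2.val ≤ (max 1 ‖θ‖) ^ T :=
        (pow_le_pow_left₀ (norm_nonneg _) (le_max_right _ _) _).trans
          (pow_le_pow_right₀ (le_max_left _ _) i.2.isLt.le)
      have h4 := hbd L hL i.1 (k : Fin d → ℂ)
      have h5 : Cn ^ L * Real.exp (-(((d + 2) * L : ℕ) * P2 P (k : Fin d → ℂ))) ≤ Cn ^ L := by
        refine mul_le_of_le_one_right (by positivity) (Real.exp_le_one_iff.2 ?_)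
        have := g2_P2 P (k : Fin d → ℂ)
        rw [neg_nonpos]
        positivity
      exact mul_le_mul h3 (h4.trans h5) (by positivity) (by positivity))
    (by
      rw [Fintype.card_coe]
      refine (lt_of_eq_of_lt ?_ n1).trans_le ?_
      · rw [g2_card, hB']
      · have h3 : Real.exp (b * ((L : ℝ) ^ (2 * d + 1) * T)) = (B : ℝ) ^ Fintype.card (Ix d L × Fin T) := by
          rw [← hB', ← Real.exp_nat_mul, g2_card]
          congr 1
          ring
        rw [h3]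
        exact pow_le_pow_left₀ (by linarith) (by linarith) _)
  refine ⟨g2p x, ?_, g2p_deg x, ?_, ?_⟩
  · intro h0
    apply hx0
    funext i
    have h3 := congrArg (fun f => Polynomial.coeff (f i.1) i.2.val) h0
    simp only [g2p_coeff, Pi.zero_apply, Polynomial.coeff_zero, i.2.isLt, dif_pos] at h3
    exact h3
  · intro ν j
    rw [g2p_coeff]
    split_ifs with h3
    · exact_mod_cast hxB (ν, ⟨j, h3⟩)
    · rw [Int.cast_zero, abs_zero]
      exact Nat.cast_nonneg B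
  intro v
  have hmain := hsm (Gab P D (fun ν => (Polynomial.aeval θ (g2p x ν) : ℂ))) ((L : ℝ) ^ (2 * d + 1) * T * α * B)
    (g2_diff P D _) (fun m u => Nn_shift P hd D hD q hqb _ m u) ?_ (Real.exp (-g - Λ)) (Real.exp_pos _).le ?_ v
  · refine hmain.trans ?_
    have h3 : Cs ^ ((d + 2) * L) = Real.exp (s * ((d + 2) * L : ℕ)) := by
      rw [← hCs', ← Real.exp_nat_mul, mul_comm]
    rw [h3, ← hB']
    exact n2
  · -- the growth
    intro u
    have h3 : ‖Gab P D (fun ν => (Polynomial.aeval θ (g2p x ν) : ℂ)) u‖ ≤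
        ∑ ν : Ix d L, (T * B * (max 1 ‖θ‖) ^ T) * ‖Gab P D (Pi.single ν 1) u‖ := by
      rw [g2_Gab]
      refine (norm_sum_le _ _).trans (Finset.sum_le_sum fun ν _ => ?_)
      rw [norm_mul]
      exact mul_le_mul_of_nonneg_right (g2_coef x θ B hxB ν) (norm_nonneg _)
    have h4 : Nn P ((d + 2) * L) (Gab P D (fun ν => (Polynomial.aeval θ (g2p x ν) : ℂ))) u ≤
        ∑ ν : Ix d L, (T * B * (max 1 ‖θ‖) ^ T) * Nn P ((d + 2) * L) (Gab P D (Pi.single ν 1)) u := by
      unfold Nn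
      refine (mul_le_mul_of_nonneg_right h3 (Real.exp_pos _).le).trans (le_of_eq ?_)
      rw [Finset.sum_mul]
      exact Finset.sum_congr rfl fun ν _ => by ring
    have h5 : ∑ ν : Ix d L, (T * B * (max 1 ‖θ‖) ^ T) * Nn P ((d + 2) * L) (Gab P D (Pi.single ν 1)) u ≤
        ∑ _ν : Ix d L, (T * B * (max 1 ‖θ‖) ^ T) * (Cn ^ L * Real.exp (-(((d + 2) * L : ℕ) * P2 P u))) :=
      Finset.sum_le_sum fun ν _ => mul_le_mul_of_nonneg_left (hbd L hL ν u) (by positivity)
    refine (h4.trans h5).trans (le_of_eq ?_)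
    have h6 : (Fintype.card (Ix d L) : ℝ) = (L : ℝ) ^ (2 * d + 1) := by
      rw [Fintype.card_prod, Fintype.card_fun, Fintype.card_fun, Fintype.card_fin, Fintype.card_fin, Fintype.card_fin]
      push_cast
      ring
    rw [Finset.sum_const, Finset.card_univ, nsmul_eq_mul, h6, ← hα']
    ring
  · -- the points
    intro u hu
    have h3 := hxε ⟨u, hu⟩
    refine le_trans (le_of_eq ?_) h3
    unfold Nn
    have h4 : ‖Gab P D (fun ν => (Polynomial.aeval θ (g2p x ν) : ℂ)) u‖ * Real.exp (-(((d + 2) * L : ℕ) * Qf P u)) =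
        ‖Gab P D (fun ν => (Polynomial.aeval θ (g2p x ν) : ℂ)) u * (Real.exp (-(((d + 2) * L : ℕ) * Qf P u)) : ℝ)‖ := by
      rw [norm_mul, Complex.norm_real, Real.norm_of_nonneg (Real.exp_pos _).le]
    rw [h4, g2_Gab, Finset.sum_mul]
    congr 1
    refine Eq.trans ?_ (Fintype.sum_prod_type (α₁ := Ix d L) (α₂ := Fin T) _).symm
    refine Finset.sum_congr rfl fun ν _ => ?_
    rw [g2p_aeval, Finset.sum_mul, Finset.sum_mul]
    refine Finset.sum_congr rfl fun i _ => ?_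
    ring

end Pool.Agent.MSK
end

end

section

/-! # R/B5_FG: `FR * pp = GR` -/

open Complex Filter Topology IntermediateField

noncomputable section

namespace Pool.Agent.MSR

open MSD MSP MSK

variable {d : ℕ}

theorem b5_vanish (f h : ℂ → ℂ) (hf : AnalyticAt ℂ f 0) (hh : AnalyticAt ℂ h 0) (T : ℕ)
    (h0 : ∀ k < T, iteratedDeriv k f 0 = 0) : ∀ k < T, iteratedDeriv k (fun ζ => f ζ * h ζ) 0 = 0 := by
  have h1 : (T : ℕ∞) ≤ analyticOrderAt f 0 := (natCast_le_analyticOrderAt_iff_iteratedDeriv_eq_zero hf).mpr h0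
  have h2 : (T : ℕ∞) ≤ analyticOrderAt (fun ζ => f ζ * h ζ) 0 := by
    have e : analyticOrderAt (f * h) 0 = analyticOrderAt f 0 + analyticOrderAt h 0 := analyticOrderAt_mul hf hh
    change (T : ℕ∞) ≤ analyticOrderAt (f * h) 0
    rw [e]
    exact h1.trans le_self_add
  exact (natCast_le_analyticOrderAt_iff_iteratedDeriv_eq_zero (hf.fun_mul hh)).mp h2

theorem b5_line_diff (a : Fin d → ℕ) : Differentiable ℂ (fun ζ : ℂ => (fun j : Fin d => ζ * (a j : ℂ))) := by
  rw [differentiable_pi]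
  intro j
  fun_prop

/-- B5a. PROOF. `rep` for every `κ` and linearity (`TH_sum`, `TH_C_mul`). `pp ≠ 0` means that all factors `N0 = th` are `≠ 0`. -/
theorem FR_GR (P : Par d) (D : Dt d) {E : ℕ} (c : Ir d E → ℂ) (v : Fin d → ℂ) (h : pp D (tt P.z v) ≠ 0) :
    FR P D c v * pp D (tt P.z v) = GR P D c v := by
  have h0 : ∀ l, th D.τ (D.h l + tt P.z v l) ≠ 0 := fun l =>
    (Finset.prod_ne_zero_iff.mp h) l (Finset.mem_univ l)
  unfold FR GR Cs
  rw [Finset.sum_mul, map_sum, TH_sum]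
  refine Finset.sum_congr rfl (fun κ _ => ?_)
  rw [map_mul, MvPolynomial.aeval_C, MvPolynomial.algebraMap_eq, TH_C_mul, mul_assoc,
    rep P D (fun j => (κ j).val) (WV P D v) (tt P.z v) h0]

/-- B5b. PROOF. Along the line, near `ζ = 0`, `GR = FR · pp` (`FR_GR`, `pp_zero_ne`, continuity) with `FR` analytic at `0` (`FR_line_analytic`) and `pp` analytic (`pp_differentiable`). As all the derivatives of `FR` of order `< T` vanish at `0` the same holds
for the product (Leibniz formula `iteratedDeriv_mul`, or orders of vanishing). -/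
theorem GR_vanish (P : Par d) (D : Dt d) {E : ℕ} (c : Ir d E → ℂ) (a : Fin d → ℕ) (T : ℕ)
    (h : ∀ k < T, iteratedDeriv k (fun ζ : ℂ => FR P D c (fun j => ζ * a j)) 0 = 0) :
    ∀ k < T, iteratedDeriv k (fun ζ : ℂ => GR P D c (fun j => ζ * a j)) 0 = 0 := by
  have hpd : Differentiable ℂ (fun ζ : ℂ => pp D (tt P.z (fun j => ζ * (a j : ℂ)))) :=
    (pp_differentiable P D).comp (b5_line_diff a)
  have hfa : AnalyticAt ℂ (fun ζ : ℂ => FR P D c (fun j => ζ * (a j : ℂ))) 0 := by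
    have := FR_line_analytic P D c (fun j => (a j : ℤ))
    simpa only [Int.cast_natCast] using this
  have hv := b5_vanish _ _ hfa (hpd.analyticAt 0) T h
  have htt : tt P.z (fun j => (0 : ℂ) * (a j : ℂ)) = 0 := by
    funext l
    refine Fin.cases ?_ (fun j => ?_) l
    · simp [tt]
    · simp [tt]
  have hne : ∀ᶠ ζ in 𝓝 (0 : ℂ), pp D (tt P.z (fun j => ζ * (a j : ℂ))) ≠ 0 := by
    have hc := hpd.continuous.continuousAt (x := (0 : ℂ))
    refine hc.eventually_ne ?_
    show pp D (tt P.z (fun j => (0 : ℂ) * (a j : ℂ))) ≠ 0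
    rw [htt]
    exact pp_zero_ne D
  have heq : (fun ζ : ℂ => GR P D c (fun j => ζ * (a j : ℂ))) =ᶠ[𝓝 0]
      (fun ζ : ℂ => FR P D c (fun j => ζ * (a j : ℂ)) * pp D (tt P.z (fun j => ζ * (a j : ℂ)))) := by
    filter_upwards [hne] with ζ hζ
    exact (FR_GR P D c _ hζ).symm
  intro k hk
  rw [heq.iteratedDeriv_eq k]
  exact hv k hk

end Pool.Agent.MSR
end

end

section

/-! # U/D5_Deriv: small derivatives at the base point -/

open Complex

noncomputable section

namespace Pool.Agent.MSU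

open MSD MSP MSK MSR

variable {d : ℕ}

theorem d5_FR (P : Par d) (D : Dt d) (p : Fin d → ℂ) {E : ℕ} (c : Ir d E → ℂ) (v : Fin d → ℂ) (h : pp D (tt P.z v) ≠ 0) :
    FR P D c v = GP P D p c (fun j => p j + v j) / pp D (tt P.z v) := by
  rw [eq_div_iff h, FR_GR P D c v h]
  unfold GP
  congr 1
  funext j
  ring

theorem d5_om (P : Par d) (D : Dt d) (p : Fin d → ℂ) (hD : IsO P D p) : 1 ≤ ‖D.om‖ := by
  have h3 : ‖D.om‖ ^ 2 = Real.pi := by
    rw [← norm_pow, hD.om, Complex.norm_real, Real.norm_of_nonneg Real.pi_pos.le]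
  have h4 : 1 ≤ ‖D.om‖ ^ 2 := by
    rw [h3]
    linarith [Real.pi_gt_three]
  by_contra h5
  push Not at h5
  have h6 := norm_nonneg D.om
  nlinarith

/-- D5. PROOF. Copy of `small_derivR` (R/C2_SmallDer) with `pp_low` instead of `c4c_low`. `FR P D c v = GP P D p c (p + v) / pp D (tt P.z v)` (`FR_GR`). For `‖v‖ ≤ r₀ = 1/(C₀ B)`: `‖pp‖ ≥ (1/(C₀B))^(d+1)`, `‖GP (p + v)‖ ≤ η exp (Qf (p + v)) ≤ η exp (C₁ (H+1)²)` (`Qf_le P`).
Cauchy on `‖ζ‖ = r₀/T`: `‖iteratedDeriv k (ζ ↦ FR (ζ a)) 0‖ ≤ k! (T/r₀)^k η (C₀B)^(d+1) e^(..)`. By `iteratedDeriv_FR` this is `‖D.om‖^k ‖∑ ..‖` and `‖D.om‖ ≥ 1` (`‖D.om‖² = π`). `k! ≤ T^T`, `(T · T C₀ B)^T`. -/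
theorem small_der_U (P : Par d) (hd : 2 ≤ d) (H : ℝ) : ∃ C : ℝ, 1 ≤ C ∧ ∀ (D : Dt d) (p : Fin d → ℂ), IsO P D p → ‖p‖ ≤ H → (∀ l, ‖D.h l‖ ≤ H) →
    ∀ B : ℝ, 1 ≤ B → (∀ l, ‖wp P.z (sE P.z) (D.h l)‖ ≤ B) → ∀ (E : ℕ) (c : Ir d E → ℂ) (η : ℝ), 0 ≤ η → (∀ v, Nn P 1 (GP P D p c) v ≤ η) →
      ∀ T : ℕ, 1 ≤ T → ∀ a : Fin d → ℕ, (∀ j, a j ≤ T) → ∀ k ≤ T,
        ‖∑ κ, c κ * MvPolynomial.aeval (vals P D) ((der (fun j => (a j : ℤ)))^[k] (Rp (fun j => (κ j).val)))‖ ≤
          (C * B * T ^ 2) ^ T * (C * B) ^ (d + 1) * η := by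
  obtain ⟨C₀, hC0, hlow⟩ := pp_low P H
  obtain ⟨C₁, hC1, hQ⟩ := Qf_le P
  set Q₀ : ℝ := C₁ * (|H| + 1) ^ 2 with hQ0
  have hQ0' : 0 ≤ Q₀ := by positivity
  have hexp1 : (1 : ℝ) ≤ Real.exp Q₀ := Real.one_le_exp hQ0'
  have hC0' : 0 < C₀ := by linarith
  refine ⟨C₀ * Real.exp Q₀, by nlinarith, ?_⟩
  intro D p hD hp hh B hB hwp E c η hη hN T hT a ha k hk
  set C : ℝ := C₀ * Real.exp Q₀ with hC
  have hC0C : C₀ ≤ C := by
    rw [hC]
    exact le_mul_of_one_le_right hC0'.le hexp1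
  have hTpos : (0 : ℝ) < T := by exact_mod_cast hT
  have hT1 : (1 : ℝ) ≤ T := by exact_mod_cast hT
  have hB0 : (0 : ℝ) < B := by linarith
  have hCB1 : 1 ≤ C₀ * B := by nlinarith
  have hCB0 : 0 < C₀ * B := by linarith
  set r₀ : ℝ := 1 / (C₀ * B) with hr0
  have hr0p : 0 < r₀ := by positivity
  have hr1 : r₀ ≤ 1 := by
    rw [hr0, div_le_one hCB0]
    exact hCB1
  have hlow' := hlow D hD.τ hh B hB hwp
  have hc0 : 0 < (1 / (C₀ * B)) ^ (d + 1) := by positivity
  set M : ℝ := Real.exp Q₀ * (C₀ * B) ^ (d + 1) with hM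
  have hM0 : 0 ≤ M := by positivity
  -- the bound on the ball
  have hball : ∀ v : Fin d → ℂ, ‖v‖ ≤ r₀ → ‖FR P D c v‖ ≤ M * η := by
    intro v hv
    have hl := hlow' v hv
    have hne : pp D (tt P.z v) ≠ 0 := norm_pos_iff.1 (hc0.trans_le hl)
    rw [d5_FR P D p c v hne, norm_div]
    have h1 := hN (fun j => p j + v j)
    unfold Nn at h1
    rw [Real.exp_neg, ← div_eq_mul_inv, div_le_iff₀ (Real.exp_pos _)] at h1
    have h2 : Qf P (fun j => p j + v j) ≤ Q₀ := by
      refine (hQ _).trans ?_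
      rw [hQ0]
      have h3 : ‖(fun j => p j + v j)‖ ≤ |H| + 1 := by
        have h4 : (fun j => p j + v j) = p + v := rfl
        rw [h4]
        have h5 := le_abs_self H
        exact (norm_add_le _ _).trans (by linarith)
      have h5 : ‖(fun j => p j + v j)‖ ^ 2 ≤ (|H| + 1) ^ 2 :=
        pow_le_pow_left₀ (norm_nonneg _) h3 2
      exact mul_le_mul_of_nonneg_left h5 (by linarith)
    have h6 : Real.exp ((1 : ℕ) * Qf P (fun j => p j + v j)) ≤ Real.exp Q₀ := by
      refine Real.exp_le_exp.2 ?_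
      push_cast
      linarith
    have h8 : ‖GP P D p c (fun j => p j + v j)‖ ≤ η * Real.exp Q₀ :=
      h1.trans (mul_le_mul_of_nonneg_left h6 hη)
    calc ‖GP P D p c (fun j => p j + v j)‖ / ‖pp D (tt P.z v)‖
        ≤ (η * Real.exp Q₀) / (1 / (C₀ * B)) ^ (d + 1) := div_le_div₀ (by positivity) h8 hc0 hl
      _ = M * η := by
          rw [hM, one_div, inv_pow, div_inv_eq_mul]
          ring
  -- Cauchy
  set f : ℂ → ℂ := fun ζ : ℂ => FR P D c (fun j => ζ * a j) with hf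
  set R : ℝ := r₀ / T with hR
  have hRpos : 0 < R := by positivity
  have hin : ∀ ζ : ℂ, ‖ζ‖ ≤ R → ‖(fun j => ζ * a j : Fin d → ℂ)‖ ≤ r₀ := by
    intro ζ hζ
    rw [pi_norm_le_iff_of_nonneg hr0p.le]
    intro j
    rw [norm_mul, Complex.norm_natCast]
    have h1 : (a j : ℝ) ≤ T := by exact_mod_cast ha j
    calc ‖ζ‖ * (a j : ℝ) ≤ R * T := mul_le_mul hζ h1 (Nat.cast_nonneg _) hRpos.le
      _ = r₀ := by rw [hR]; field_simp
  have hline : Differentiable ℂ (fun ζ : ℂ => (fun j => ζ * a j : Fin d → ℂ)) := by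
    rw [differentiable_pi]
    intro j
    fun_prop
  have hdiff : DifferentiableOn ℂ f (Metric.closedBall 0 R) := by
    have h1 : DifferentiableOn ℂ (fun ζ : ℂ => GR P D c (fun j => ζ * a j : Fin d → ℂ) /
        pp D (tt P.z (fun j => ζ * a j))) (Metric.closedBall 0 R) := by
      refine DifferentiableOn.fun_div ?_ ?_ ?_
      · exact ((GR_diff P D c).comp hline).differentiableOn
      · exact ((pp_differentiable P D).comp hline).differentiableOn
      · intro ζ hζ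
        have hζ' : ‖ζ‖ ≤ R := by simpa using hζ
        exact norm_pos_iff.1 (hc0.trans_le (hlow' _ (hin ζ hζ')))
    refine h1.congr fun ζ hζ => ?_
    have hζ' : ‖ζ‖ ≤ R := by simpa using hζ
    have hne := norm_pos_iff.1 (hc0.trans_le (hlow' _ (hin ζ hζ')))
    exact (eq_div_iff hne).2 (FR_GR P D c _ hne)
  have hcl : DiffContOnCl ℂ f (Metric.ball 0 R) :=
    (hdiff.mono Metric.closure_ball_subset_closedBall).diffContOnCl
  have hcauchy := Complex.norm_iteratedDeriv_le_of_forall_mem_sphere_norm_le k hRpos hcl (C := M * η) (by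
    intro ζ hζ
    have hζ' : ‖ζ‖ ≤ R := by
      have : ‖ζ‖ = R := by simpa using hζ
      exact this.le
    exact hball _ (hin ζ hζ'))
  have h4 := iteratedDeriv_FR P D c (fun j => (a j : ℤ)) k
  simp only [Int.cast_natCast] at h4
  rw [hf, h4, norm_mul, norm_pow] at hcauchy
  have hom := d5_om P D p hD
  refine (le_mul_of_one_le_left (norm_nonneg _) (one_le_pow₀ hom)).trans (hcauchy.trans ?_)
  have hCr : C₀ * B ≤ C * B := mul_le_mul_of_nonneg_right hC0C hB0.le
  have hC1' : 1 ≤ C * B := hCB1.trans hCr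
  have e1 : (k.factorial : ℝ) ≤ (T : ℝ) ^ k := by
    have h1 : k.factorial ≤ k ^ k := Nat.factorial_le_pow k
    have h2 : k ^ k ≤ T ^ k := Nat.pow_le_pow_left hk k
    exact_mod_cast h1.trans h2
  have hbase : 1 ≤ C * B * (T : ℝ) ^ 2 := one_le_mul_of_one_le_of_one_le hC1' (one_le_pow₀ hT1)
  have e2 : (k.factorial : ℝ) / R ^ k ≤ (C * B * T ^ 2) ^ T := by
    have h1 : (k.factorial : ℝ) / R ^ k = k.factorial * (T * (C₀ * B)) ^ k := by
      have h2 : (T : ℝ) * (C₀ * B) = R⁻¹ := by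
        rw [hR, hr0, inv_div, one_div, div_inv_eq_mul]
      rw [h2, inv_pow, div_eq_mul_inv]
    rw [h1]
    have h2 : (T * (C₀ * B)) ^ k ≤ ((T : ℝ) * (C * B)) ^ k :=
      pow_le_pow_left₀ (by positivity) (mul_le_mul_of_nonneg_left hCr hTpos.le) k
    calc (k.factorial : ℝ) * (T * (C₀ * B)) ^ k ≤ (T : ℝ) ^ k * ((T : ℝ) * (C * B)) ^ k :=
          mul_le_mul e1 h2 (by positivity) (by positivity)
      _ = (C * B * T ^ 2) ^ k := by rw [← mul_pow]; ring
      _ ≤ (C * B * T ^ 2) ^ T := pow_le_pow_right₀ hbase hk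
  have e3 : M ≤ (C * B) ^ (d + 1) := by
    rw [hM]
    have h1 : (C * B) ^ (d + 1) = Real.exp Q₀ ^ (d + 1) * (C₀ * B) ^ (d + 1) := by
      rw [hC, ← mul_pow]
      ring
    rw [h1]
    refine mul_le_mul_of_nonneg_right ?_ (by positivity)
    exact le_self_pow₀ hexp1 (Nat.succ_ne_zero d)
  calc (k.factorial : ℝ) * (M * η) / R ^ k = ((k.factorial : ℝ) / R ^ k) * (M * η) := by ring
    _ ≤ (C * B * T ^ 2) ^ T * ((C * B) ^ (d + 1) * η) :=
      mul_le_mul e2 (mul_le_mul_of_nonneg_right e3 hη) (by positivity) (by positivity)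
    _ = (C * B * T ^ 2) ^ T * (C * B) ^ (d + 1) * η := by ring

end Pool.Agent.MSU
end

end

section

/-! # R/C3_Aux: the auxiliary function -/

open Complex Filter Topology IntermediateField

noncomputable section

namespace Pool.Agent.MSR

open MSD MSP MSK

variable {d : ℕ}

theorem c3_Cs (P : Par d) (D : Dt d) {E : ℕ} (c : Ir d E → ℂ) :
    Cs P D c = ∑ κ, MvPolynomial.C (c κ) * Cs P D (Pi.single κ 1) := by
  conv_lhs => unfold Cs
  refine Finset.sum_congr rfl fun κ _ => ?_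
  congr 1
  unfold Cs
  rw [Finset.sum_eq_single κ]
  · rw [Pi.single_eq_same, MvPolynomial.C_1, one_mul]
  · intro μ _ hμ
    rw [Pi.single_eq_of_ne hμ, MvPolynomial.C_0, zero_mul]
  · intro h
    exact absurd (Finset.mem_univ κ) h

theorem c3_GA (P : Par d) (D : Dt d) {E : ℕ} (c : Ir d E → ℂ) (v : Fin d → ℂ) :
    GA P D c v = ∑ κ, c κ * GA P D (Pi.single κ 1) v := by
  unfold GA GR
  rw [c3_Cs, map_sum, TH_sum]
  refine Finset.sum_congr rfl fun κ _ => ?_
  rw [map_mul, MvPolynomial.aeval_C, MvPolynomial.algebraMap_eq, TH_C_mul]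

theorem c3_diff (P : Par d) (D : Dt d) {E : ℕ} (c : Ir d E → ℂ) : Differentiable ℂ (GA P D c) := by
  unfold GA
  have h0 : Differentiable ℂ (fun v : Fin d → ℂ => fun j => v j - p0 P.z j) := by
    rw [differentiable_pi]
    intro j
    exact (differentiable_apply j).sub_const _
  exact (GR_diff P D c).comp h0

/-- the polynomials -/
def c3p {E T : ℕ} (x : Ir d E × Fin T → ℤ) (κ : Ir d E) : Polynomial ℤ :=
  ∑ i : Fin T, Polynomial.C (x (κ, i)) * Polynomial.X ^ i.val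

theorem c3p_coeff {E T : ℕ} (x : Ir d E × Fin T → ℤ) (κ : Ir d E) (j : ℕ) :
    (c3p x κ).coeff j = if h : j < T then x (κ, ⟨j, h⟩) else 0 := by
  unfold c3p
  rw [Polynomial.finsetSum_coeff]
  simp_rw [Polynomial.coeff_C_mul_X_pow]
  split_ifs with h
  · rw [Finset.sum_eq_single ⟨j, h⟩]
    · simp
    · intro i _ hi
      rw [if_neg]
      intro hj
      exact hi (Fin.ext hj.symm)
    · intro h'
      exact absurd (Finset.mem_univ _) h'
  · refine Finset.sum_eq_zero fun i _ => ?_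
    rw [if_neg]
    intro hj
    exact h (hj ▸ i.isLt)

theorem c3p_deg {E T : ℕ} (x : Ir d E × Fin T → ℤ) (κ : Ir d E) : (c3p x κ).natDegree ≤ T := by
  rw [Polynomial.natDegree_le_iff_coeff_eq_zero]
  intro j hj
  rw [c3p_coeff, dif_neg (not_lt.2 hj.le)]

theorem c3p_aeval {E T : ℕ} (x : Ir d E × Fin T → ℤ) (κ : Ir d E) (θ : ℂ) :
    Polynomial.aeval θ (c3p x κ) = ∑ i : Fin T, (x (κ, i) : ℂ) * θ ^ i.val := by
  unfold c3p
  rw [map_sum]
  refine Finset.sum_congr rfl fun i _ => ?_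
  rw [map_mul, map_pow, Polynomial.aeval_X, Polynomial.aeval_C]
  simp

theorem c3_card (E T : ℕ) : (Fintype.card (Ir d E × Fin T) : ℝ) = (E : ℝ) ^ d * T := by
  rw [Fintype.card_prod, Fintype.card_fin, Fintype.card_fun, Fintype.card_fin, Fintype.card_fin]
  push_cast
  ring

theorem c3_coef {E T : ℕ} (x : Ir d E × Fin T → ℤ) (θ : ℂ) (B : ℕ) (hx : ∀ i, |x i| ≤ B) (κ : Ir d E) :
    ‖(Polynomial.aeval θ (c3p x κ) : ℂ)‖ ≤ T * B * (max 1 ‖θ‖) ^ T := by
  rw [c3p_aeval]
  refine (norm_sum_le _ _).trans ?_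
  have h : ∀ i ∈ (Finset.univ : Finset (Fin T)), ‖(x (κ, i) : ℂ) * θ ^ i.val‖ ≤ B * (max 1 ‖θ‖) ^ T := by
    intro i _
    rw [norm_mul, norm_pow]
    have h1 : ‖(x (κ, i) : ℂ)‖ ≤ B := by
      rw [Complex.norm_intCast]
      exact_mod_cast hx (κ, i)
    have h2 : ‖θ‖ ^ i.val ≤ (max 1 ‖θ‖) ^ T :=
      (pow_le_pow_left₀ (norm_nonneg _) (le_max_right _ _) _).trans
        (pow_le_pow_right₀ (le_max_left _ _) i.isLt.le)
    exact mul_le_mul h1 h2 (by positivity) (by positivity)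
  refine (Finset.sum_le_sum h).trans (le_of_eq ?_)
  rw [Finset.sum_const, Finset.card_univ, Fintype.card_fin, nsmul_eq_mul]
  ring

/-- the inequalities between the parameters -/
theorem c3_num (d E T : ℕ) (a n s b R g C α : ℝ) (c : ℕ) (hE : 1 ≤ E) (hET : E ≤ T) (ha : 0 ≤ a) (hn : 0 ≤ n)
    (hs : 0 ≤ s) (hb : b = T * Real.log T) (hlog : 1 ≤ Real.log T) (hR : 1 ≤ R) (hg : 0 ≤ g)
    (hC : C = 2 * Real.exp s * (2 * d + 10 + a + (d + 1) * n + s))
    (hα : α = Real.exp (T * a) * ((Real.exp n * E) ^ (d * E) * Real.exp n))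
    (hc : (c : ℝ) ≤ Real.exp s * R ^ (d - 1))
    (h1 : C * (b + g) ≤ R ^ 2)
    (h2 : C * R ^ (d - 1) * (b + g) < (E : ℝ) ^ d * T * b) :
    (4 * (((E : ℝ) ^ d * T) * α * Real.exp b) / Real.exp (-g - (s + 1)) + 2) ^ (2 * c) <
        Real.exp (b * ((E : ℝ) ^ d * T)) ∧
      Real.exp s * (Real.exp (-g - (s + 1)) + (((E : ℝ) ^ d * T) * α * Real.exp b) * Real.exp (-R ^ 2))
        ≤ Real.exp (-g) := by
  have hE1 : (1 : ℝ) ≤ E := by exact_mod_cast hE
  have hET' : (E : ℝ) ≤ T := by exact_mod_cast hET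
  have hT1 : (1 : ℝ) ≤ T := hE1.trans hET'
  have hd0 : (0 : ℝ) ≤ d := Nat.cast_nonneg d
  have hs1 : (1 : ℝ) ≤ Real.exp s := Real.one_le_exp hs
  have hT0 : (0 : ℝ) ≤ T := by linarith
  have hTb : (T : ℝ) ≤ b := by rw [hb]; exact le_mul_of_one_le_right hT0 hlog
  have hb1 : 1 ≤ b := hT1.trans hTb
  have hdn0 : 0 ≤ ((d : ℝ) + 1) * n := mul_nonneg (by linarith) hn
  obtain ⟨K, hK⟩ : ∃ K : ℝ, K = 2 * d + 10 + a + (d + 1) * n + s := ⟨_, rfl⟩
  have hK10 : 10 ≤ K := by
    rw [hK]; linarith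
  rw [← hK] at hC
  have hCK : K ≤ C := by
    rw [hC]
    exact le_mul_of_one_le_left (by linarith) (by linarith)
  obtain ⟨W, hW⟩ : ∃ W : ℝ, W = (2 * d + 2 + a + (d + 1) * n) * b := ⟨_, rfl⟩
  have hW0 : 0 ≤ W := by
    rw [hW]
    exact mul_nonneg (by linarith) (by linarith)
  have hKW : K * (b + g) = W + 8 * b + s * b + K * g := by
    rw [hW, hK]; ring
  have hsb : s ≤ s * b := le_mul_of_one_le_right hs hb1
  have hgK : g ≤ K * g := le_mul_of_one_le_left hg (by linarith)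
  -- the size of the number of unknowns
  have hTe : Real.exp (Real.log T) = T := Real.exp_log (by linarith)
  have hlogb : Real.log T ≤ b := by rw [hb]; exact le_mul_of_one_le_left (by linarith) hT1
  have hN : (E : ℝ) ^ d * T ≤ Real.exp ((d + 1) * b) := by
    have h3 : (E : ℝ) ^ d * T ≤ (T : ℝ) ^ (d + 1) := by
      rw [pow_succ]
      exact mul_le_mul_of_nonneg_right (pow_le_pow_left₀ (by linarith) hET' _) (by linarith)
    refine h3.trans ?_
    have h4 : (T : ℝ) ^ (d + 1) = Real.exp ((d + 1) * Real.log T) := by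
      have h5 : ((d : ℝ) + 1) * Real.log T = ((d + 1 : ℕ) : ℝ) * Real.log T := by push_cast; ring
      rw [h5, Real.exp_nat_mul, hTe]
    rw [h4]
    exact Real.exp_le_exp.2 (mul_le_mul_of_nonneg_left hlogb (by positivity))
  have hαle : α ≤ Real.exp ((a + d * n + d + n) * b) := by
    rw [hα]
    have h3 : Real.exp n * E ≤ Real.exp (n + Real.log T) := by
      rw [Real.exp_add, hTe]
      exact mul_le_mul_of_nonneg_left hET' (Real.exp_pos _).le
    have h4 : (Real.exp n * (E : ℝ)) ^ (d * E) ≤ Real.exp ((d * E : ℕ) * (n + Real.log T)) := by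
      rw [Real.exp_nat_mul]
      exact pow_le_pow_left₀ (by positivity) h3 _
    have h5 : Real.exp (T * a) * ((Real.exp n * (E : ℝ)) ^ (d * E) * Real.exp n) ≤
        Real.exp (T * a) * (Real.exp ((d * E : ℕ) * (n + Real.log T)) * Real.exp n) :=
      mul_le_mul_of_nonneg_left (mul_le_mul_of_nonneg_right h4 (Real.exp_pos _).le) (Real.exp_pos _).le
    refine h5.trans ?_
    rw [← Real.exp_add, ← Real.exp_add]
    apply Real.exp_le_exp.2
    push_cast
    have h6 : (d : ℝ) * E * n ≤ d * n * b := by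
      have h7 : (E : ℝ) ≤ b := hET'.trans hTb
      have h8 : (0 : ℝ) ≤ d * n := mul_nonneg hd0 hn
      calc (d : ℝ) * E * n = d * n * E := by ring
        _ ≤ d * n * b := mul_le_mul_of_nonneg_left h7 h8
    have h9 : (d : ℝ) * E * Real.log T ≤ d * b := by
      have h10 : (E : ℝ) * Real.log T ≤ b := by
        rw [hb]; exact mul_le_mul_of_nonneg_right hET' (by linarith)
      rw [mul_assoc]
      exact mul_le_mul_of_nonneg_left h10 hd0
    have h11 : (T : ℝ) * a ≤ a * b := by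
      rw [mul_comm]; exact mul_le_mul_of_nonneg_left hTb ha
    have h12 : n ≤ n * b := le_mul_of_one_le_right hn hb1
    calc (T : ℝ) * a + ((d : ℝ) * E * (n + Real.log T) + n)
        = T * a + (d * E * n + (d * E * Real.log T + n)) := by ring
      _ ≤ a * b + (d * n * b + (d * b + n * b)) := by linarith
      _ = (a + d * n + d + n) * b := by ring
  have hNα : ((E : ℝ) ^ d * T) * α * Real.exp b ≤ Real.exp W := by
    have h3 : ((E : ℝ) ^ d * T) * α ≤ Real.exp ((d + 1) * b) * Real.exp ((a + d * n + d + n) * b) :=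
      mul_le_mul hN hαle (by rw [hα]; positivity) (Real.exp_pos _).le
    refine (mul_le_mul_of_nonneg_right h3 (Real.exp_pos _).le).trans (le_of_eq ?_)
    rw [← Real.exp_add, ← Real.exp_add, hW]
    congr 1
    ring
  have hα0 : 0 ≤ α := by rw [hα]; positivity
  have hNα0 : 0 ≤ ((E : ℝ) ^ d * T) * α * Real.exp b := by positivity
  constructor
  · -- the pigeonhole inequality
    have h3 : 4 * (((E : ℝ) ^ d * T) * α * Real.exp b) / Real.exp (-g - (s + 1)) + 2 ≤ Real.exp (K * (b + g)) := by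
      have h4 : ((E : ℝ) ^ d * T) * α * Real.exp b / Real.exp (-g - (s + 1)) ≤ Real.exp (W + (g + (s + 1))) := by
        rw [div_le_iff₀ (Real.exp_pos _), ← Real.exp_add]
        refine hNα.trans (Real.exp_le_exp.2 (le_of_eq ?_))
        ring
      have hV0 : 0 ≤ W + (g + (s + 1)) := by positivity
      have hV1 : 1 ≤ Real.exp (W + (g + (s + 1))) := Real.one_le_exp hV0
      have h6 : (6 : ℝ) ≤ Real.exp 6 := by
        have := Real.add_one_le_exp (6 : ℝ)
        linarith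
      have h5 : 4 * (((E : ℝ) ^ d * T) * α * Real.exp b) / Real.exp (-g - (s + 1)) + 2 ≤
          Real.exp 6 * Real.exp (W + (g + (s + 1))) := by
        rw [mul_div_assoc]
        refine le_trans ?_ (mul_le_mul_of_nonneg_right h6 (by linarith))
        linarith
      refine h5.trans ?_
      rw [← Real.exp_add]
      apply Real.exp_le_exp.2
      rw [hKW]
      linarith
    have h30 : 0 ≤ 4 * (((E : ℝ) ^ d * T) * α * Real.exp b) / Real.exp (-g - (s + 1)) + 2 := by positivity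
    have h4 : (4 * (((E : ℝ) ^ d * T) * α * Real.exp b) / Real.exp (-g - (s + 1)) + 2) ^ (2 * c) ≤
        Real.exp (2 * c * (K * (b + g))) := by
      refine (pow_le_pow_left₀ h30 h3 _).trans (le_of_eq ?_)
      rw [← Real.exp_nat_mul]
      push_cast
      ring_nf
    refine h4.trans_lt (Real.exp_lt_exp.2 ?_)
    have hbg : 0 ≤ K * (b + g) := by positivity
    calc 2 * (c : ℝ) * (K * (b + g)) ≤ 2 * (Real.exp s * R ^ (d - 1)) * (K * (b + g)) :=
          mul_le_mul_of_nonneg_right (by linarith) hbg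
      _ = C * R ^ (d - 1) * (b + g) := by rw [hC]; ring
      _ < (E : ℝ) ^ d * T * b := h2
      _ = b * ((E : ℝ) ^ d * T) := by ring
  · have h2e : 2 * Real.exp (-g - 1) ≤ Real.exp (-g) := by
      have h3 : Real.exp (-g) = Real.exp 1 * Real.exp (-g - 1) := by
        rw [← Real.exp_add]
        congr 1
        ring
      have h4 := Real.add_one_le_exp (1 : ℝ)
      rw [h3]
      exact mul_le_mul_of_nonneg_right (by linarith) (Real.exp_pos _).le
    have h3 : Real.exp s * Real.exp (-g - (s + 1)) = Real.exp (-g - 1) := by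
      rw [← Real.exp_add]
      congr 1
      ring
    have h4 : Real.exp s * ((((E : ℝ) ^ d * T) * α * Real.exp b) * Real.exp (-R ^ 2)) ≤ Real.exp (-g - 1) := by
      calc Real.exp s * ((((E : ℝ) ^ d * T) * α * Real.exp b) * Real.exp (-R ^ 2))
          ≤ Real.exp s * (Real.exp W * Real.exp (-R ^ 2)) :=
            mul_le_mul_of_nonneg_left (mul_le_mul_of_nonneg_right hNα (Real.exp_pos _).le) (Real.exp_pos _).le
        _ ≤ Real.exp (-g - 1) := by
            rw [← Real.exp_add, ← Real.exp_add]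
            apply Real.exp_le_exp.2
            have h5 : K * (b + g) ≤ R ^ 2 := by
              refine le_trans ?_ h1
              exact mul_le_mul_of_nonneg_right hCK (by linarith)
            rw [hKW] at h5
            linarith
    calc Real.exp s * (Real.exp (-g - (s + 1)) + (((E : ℝ) ^ d * T) * α * Real.exp b) * Real.exp (-R ^ 2))
        = Real.exp s * Real.exp (-g - (s + 1)) +
          Real.exp s * ((((E : ℝ) ^ d * T) * α * Real.exp b) * Real.exp (-R ^ 2)) := by ring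
      _ ≤ 2 * Real.exp (-g - 1) := by rw [h3]; linarith
      _ ≤ Real.exp (-g) := h2e

/-- C3. PROOF. Compare `aux_exists` in K/G2_Aux. `q ≥ 1` with `q b_l ∈ ℤ`, `Sp` from `small_all P hd q hq` for `M = 1` and `R`, `card Sp ≤ C' R^(d-1)`. Unknowns `x_{κ,i}`, `κ ∈ Ir d E`, `i < T`, `p κ = ∑_i x_{κ,i} X^i`, `B = T^T`; forms: for `v ∈ Sp`
`exp(-Qf v) GA(c)(v) = ∑ x_{κ,i} θ^i exp(-Qf v) GA(single κ 1)(v)` with coefficients `≤ α = max(1,‖θ‖)^T (C E)^(dE) C ≤ exp(C'' T log T)` (`NnR_bound`, `E ≤ T`, `T ≥ 3` so `log T ≥ 1`; `GA` is linear in `c`: `TH_sum`, `TH_C_mul`).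
`ε = e^{-g - Λ}` with `Λ = C'''` a constant such that `C^1 e^{-Λ} ≤ 1/2`. `pigeon`: `4 (E^d T α B)/ε + 2 ≤ exp(C (T log T + g))` and `(B+1)^(E^d T) ≥ exp(E^d T · T log T)`, so hypothesis `h2` with a large `C` suffices. So all `Nn ≤ ε` on `Sp`; by `NnR_bound`
`Nn ≤ B₁ e^{-P2}` everywhere, `B₁ = E^d T α B`; `GA` is entire (`GR_diff`), periodic by `NnR_shift`, so by `small_all`: `Nn ≤ C'(e^{-g-Λ} + B₁ e^{-R²}) ≤ e^{-g}` by `h1`. `p ≠ 0` since `x ≠ 0`. -/
theorem aux_existsR (P : Par d) (hd : 2 ≤ d) (D : Dt d) (hD : IsOrig P D) (θ : ℂ) : ∃ C : ℝ, 1 ≤ C ∧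
    ∀ (E T : ℕ) (R g : ℝ), 1 ≤ E → E ≤ T → 3 ≤ T → 1 ≤ R → 0 ≤ g →
      (h1 : C * (T * Real.log T + g) ≤ R ^ 2) →
      (h2 : C * R ^ (d - 1) * (T * Real.log T + g) < (E : ℝ) ^ d * T * (T * Real.log T)) →
      ∃ p : Ir d E → Polynomial ℤ, p ≠ 0 ∧ (∀ κ, (p κ).natDegree ≤ T) ∧ (∀ κ i, |((p κ).coeff i : ℝ)| ≤ (T : ℝ) ^ T) ∧
        ∀ v, Nn P 1 (GA P D (fun κ => Polynomial.aeval θ (p κ))) v ≤ Real.exp (-g) := by
  obtain ⟨q, hq, hqb⟩ := g2_den P
  obtain ⟨Cs', hCs, hsmall⟩ := small_all P hd q hq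
  obtain ⟨Cn, hCn, hbd⟩ := NnR_bound P hd D hD
  obtain ⟨a, ha, hA'⟩ : ∃ a : ℝ, 0 ≤ a ∧ Real.exp a = max 1 ‖θ‖ :=
    ⟨Real.log (max 1 ‖θ‖), Real.log_nonneg (le_max_left _ _), Real.exp_log (lt_of_lt_of_le one_pos (le_max_left _ _))⟩
  obtain ⟨n, hn, hCn'⟩ : ∃ n : ℝ, 0 ≤ n ∧ Real.exp n = Cn :=
    ⟨Real.log Cn, Real.log_nonneg hCn, Real.exp_log (lt_of_lt_of_le one_pos hCn)⟩
  obtain ⟨s, hs, hCs'⟩ : ∃ s : ℝ, 0 ≤ s ∧ Real.exp s = Cs' :=
    ⟨Real.log Cs', Real.log_nonneg hCs, Real.exp_log (lt_of_lt_of_le one_pos hCs)⟩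
  refine ⟨2 * Real.exp s * (2 * d + 10 + a + (d + 1) * n + s), ?_, ?_⟩
  · have h1 : 0 ≤ ((d : ℝ) + 1) * n := by positivity
    have h2 : 1 ≤ Real.exp s := Real.one_le_exp hs
    have h3 : (0 : ℝ) ≤ d := Nat.cast_nonneg d
    have h4 : 1 ≤ 2 * (d : ℝ) + 10 + a + (d + 1) * n + s := by linarith
    exact one_le_mul_of_one_le_of_one_le (by linarith) h4
  intro E T R g hE hET hT hR hg h1 h2
  have hT3 : (3 : ℝ) ≤ T := by exact_mod_cast hT
  have hlog : 1 ≤ Real.log T := by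
    rw [Real.le_log_iff_exp_le (by linarith)]
    have := Real.exp_one_lt_d9
    linarith
  obtain ⟨b, hb⟩ : ∃ b : ℝ, b = T * Real.log T := ⟨_, rfl⟩
  rw [← hb] at h1 h2
  have hb0 : 0 ≤ b := by rw [hb]; exact mul_nonneg (by linarith) (by linarith)
  have hB' : Real.exp b = (T : ℝ) ^ T := by
    rw [hb, Real.exp_nat_mul, Real.exp_log (by linarith)]
  obtain ⟨Sp, hSp, hsm⟩ := hsmall 1 R le_rfl hR
  set α : ℝ := (max 1 ‖θ‖) ^ T * ((Cn * E) ^ (d * E) * Cn) with hα
  have hα' : α = Real.exp (T * a) * ((Real.exp n * E) ^ (d * E) * Real.exp n) := by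
    rw [hα, Real.exp_nat_mul, hA', hCn']
  have hα0 : 0 ≤ α := by rw [hα']; positivity
  obtain ⟨n1, n2⟩ := c3_num d E T a n s b R g _ α Sp.card hE hET ha hn hs hb hlog hR hg rfl hα'
    (by rw [hCs']; simpa using hSp) h1 h2
  have hne : Nonempty (Ir d E × Fin T) := by
    have h3 : Nonempty (Fin E) := ⟨⟨0, hE⟩⟩
    have h4 : Nonempty (Fin T) := ⟨⟨0, by omega⟩⟩
    infer_instance
  have hBc : (((T ^ T : ℕ)) : ℝ) = (T : ℝ) ^ T := by push_cast; ring
  obtain ⟨x, hx0, hxB, hxε⟩ := pigeon (κ := Sp) (ι := Ir d E × Fin T)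
    (fun v i => θ ^ i.2.val * (GA P D (Pi.single i.1 1) v * (Real.exp (-(((1 : ℕ) : ℝ) * Qf P v)) : ℝ)))
    α (Real.exp (-g - (s + 1))) (T ^ T) hα0 (Real.exp_pos _) (by
      intro k i
      rw [norm_mul, norm_pow, norm_mul, Complex.norm_real, Real.norm_of_nonneg (Real.exp_pos _).le, hα]
      have h3 : ‖θ‖ ^ i.2.val ≤ (max 1 ‖θ‖) ^ T :=
        (pow_le_pow_left₀ (norm_nonneg _) (le_max_right _ _) _).trans
          (pow_le_pow_right₀ (le_max_left _ _) i.2.isLt.le)
      have h4 := hbd E hE i.1 (k : Fin d → ℂ)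
      have h5 : (Cn * E) ^ (d * E) * Cn * Real.exp (-(((1 : ℕ) : ℝ) * P2 P (k : Fin d → ℂ))) ≤ (Cn * E) ^ (d * E) * Cn := by
        refine mul_le_of_le_one_right (by positivity) (Real.exp_le_one_iff.2 ?_)
        have := g2_P2 P (k : Fin d → ℂ)
        rw [neg_nonpos]
        positivity
      exact mul_le_mul h3 (h4.trans h5) (by positivity) (by positivity))
    (by
      rw [Fintype.card_coe]
      refine (lt_of_eq_of_lt ?_ n1).trans_le ?_
      · rw [c3_card, hB', hBc]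
      · have h3 : Real.exp (b * ((E : ℝ) ^ d * T)) = ((T ^ T : ℕ) : ℝ) ^ Fintype.card (Ir d E × Fin T) := by
          rw [hBc, ← hB', ← Real.exp_nat_mul, c3_card]
          congr 1
          ring
        rw [h3]
        exact pow_le_pow_left₀ (by positivity) (by linarith) _)
  have hxB' : ∀ i, |x i| ≤ ((T ^ T : ℕ) : ℤ) := hxB
  refine ⟨c3p x, ?_, c3p_deg x, ?_, ?_⟩
  · intro h0
    apply hx0
    funext i
    have h3 := congrArg (fun f => Polynomial.coeff (f i.1) i.2.val) h0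
    simp only [c3p_coeff, Pi.zero_apply, Polynomial.coeff_zero, i.2.isLt, dif_pos] at h3
    exact h3
  · intro κ j
    rw [c3p_coeff]
    split_ifs with h3
    · rw [← hBc]
      exact_mod_cast hxB (κ, ⟨j, h3⟩)
    · rw [Int.cast_zero, abs_zero]
      positivity
  intro v
  have hmain := hsm (GA P D (fun κ => (Polynomial.aeval θ (c3p x κ) : ℂ))) ((E : ℝ) ^ d * T * α * Real.exp b)
    (c3_diff P D _) (fun m u => NnR_shift P hd D hD q hqb _ m u) ?_ (Real.exp (-g - (s + 1))) (Real.exp_pos _).le ?_ v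
  · refine hmain.trans ?_
    rw [← hCs', pow_one]
    refine le_trans (le_of_eq ?_) n2
    push_cast
    rw [one_mul]
  · -- the growth
    intro u
    have h3 : ‖GA P D (fun κ => (Polynomial.aeval θ (c3p x κ) : ℂ)) u‖ ≤
        ∑ κ : Ir d E, (T * Real.exp b * (max 1 ‖θ‖) ^ T) * ‖GA P D (Pi.single κ 1) u‖ := by
      rw [c3_GA]
      refine (norm_sum_le _ _).trans (Finset.sum_le_sum fun κ _ => ?_)
      rw [norm_mul]
      refine mul_le_mul_of_nonneg_right ?_ (norm_nonneg _)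
      have h5 := c3_coef x θ (T ^ T) hxB' κ
      rw [hBc, ← hB'] at h5
      exact h5
    have h4 : Nn P 1 (GA P D (fun κ => (Polynomial.aeval θ (c3p x κ) : ℂ))) u ≤
        ∑ κ : Ir d E, (T * Real.exp b * (max 1 ‖θ‖) ^ T) * Nn P 1 (GA P D (Pi.single κ 1)) u := by
      unfold Nn
      refine (mul_le_mul_of_nonneg_right h3 (Real.exp_pos _).le).trans (le_of_eq ?_)
      rw [Finset.sum_mul]
      exact Finset.sum_congr rfl fun κ _ => by ring
    have h5 : ∑ κ : Ir d E, (T * Real.exp b * (max 1 ‖θ‖) ^ T) * Nn P 1 (GA P D (Pi.single κ 1)) u ≤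
        ∑ _κ : Ir d E, (T * Real.exp b * (max 1 ‖θ‖) ^ T) *
          ((Cn * E) ^ (d * E) * Cn * Real.exp (-(((1 : ℕ) : ℝ) * P2 P u))) :=
      Finset.sum_le_sum fun κ _ => mul_le_mul_of_nonneg_left (hbd E hE κ u) (by positivity)
    refine (h4.trans h5).trans (le_of_eq ?_)
    have h6 : (Fintype.card (Ir d E) : ℝ) = (E : ℝ) ^ d := by
      rw [Fintype.card_fun, Fintype.card_fin, Fintype.card_fin]
      push_cast
      ring
    rw [Finset.sum_const, Finset.card_univ, nsmul_eq_mul, h6, hα]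
    ring
  · -- the points
    intro u hu
    have h3 := hxε ⟨u, hu⟩
    refine le_trans (le_of_eq ?_) h3
    unfold Nn
    have h4 : ‖GA P D (fun κ => (Polynomial.aeval θ (c3p x κ) : ℂ)) u‖ * Real.exp (-(((1 : ℕ) : ℝ) * Qf P u)) =
        ‖GA P D (fun κ => (Polynomial.aeval θ (c3p x κ) : ℂ)) u * (Real.exp (-(((1 : ℕ) : ℝ) * Qf P u)) : ℝ)‖ := by
      rw [norm_mul, Complex.norm_real, Real.norm_of_nonneg (Real.exp_pos _).le]
    rw [h4, c3_GA, Finset.sum_mul]
    congr 1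
    refine Eq.trans ?_ (Fintype.sum_prod_type (α₁ := Ir d E) (α₂ := Fin T) _).symm
    refine Finset.sum_congr rfl fun κ _ => ?_
    rw [c3p_aeval, Finset.sum_mul, Finset.sum_mul]
    refine Finset.sum_congr rfl fun i _ => ?_
    ring

end Pool.Agent.MSR
end

end
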