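import Mathlib
import Pool.Agent.Lib.MP_f58a57_nt.FK.K036
import Pool.Agent.Lib.MP_f58a57_nt.FK.K042

namespace Pool.Agent.MSD
end Pool.Agent.MSD
namespace Pool.Agent.MSK
end Pool.Agent.MSK
namespace Pool.Agent.MSP
end Pool.Agent.MSP
namespace Pool.Agent.MSR
end Pool.Agent.MSR

section

/-! # U/Z8_Count: counting -/

namespace Pool.Agent.MSU

/-- Z8. PROOF. Let `ν` be the least `k` with `a k ≤ k` (it exists, and `ν ≤ n`: otherwise `a k = k + 1` for all `k ≤ n`, so `∑_{k ≤ n} a k = (n+1)(n+2)/2 > n(n+1)/2`, `h4`). `a` is nonincreasing on `[ν, ∞)` (`h3`: if `a k ≤ k` then `a (k+1) ≤ a k ≤ k ≤ k + 1`), `a ν ≤ ν ≤ n`.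
Let `K ≥ 4n + 1` and suppose `a K ≥ 1`. For `k ∈ [ν+1, K]`: the number of `k` with `a k < a (k-1)` is `≤ a ν - a K ≤ n - 1` (telescoping); the number of `k` with `a' k ≠ a k` is `≤ n` by `h5`, `h2` (`∑ (a k - a' k) ≤ n`), and the same for `k - 1`.
So at most `3n - 1 < K - ν` of the `K - ν` numbers are bad; for a good `k`: `h6` gives `a k = 0` (`a (k-1) ≤ k - 1` since `k - 1 ≥ ν`), but `a k ≥ a K ≥ 1`. -/
theorem count (n : ℕ) (a a' : ℕ → ℕ) (h1 : ∀ k, a k ≤ k + 1) (h2 : ∀ k, a' k ≤ a k) (h3 : ∀ k, a k ≤ k → a (k + 1) ≤ a k)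
    (h4 : ∀ K, ∑ k ∈ Finset.range K, a k ≤ n * (n + 1) / 2)
    (h5 : ∀ K, ∑ k ∈ Finset.range K, a k ≤ ∑ k ∈ Finset.range K, a' k + n)
    (h6 : ∀ k, a (k + 1) = a k → a' k = a k → a' (k + 1) = a k → a k ≤ k → a k = 0) (k : ℕ) (hk : 4 * n + 1 ≤ k) : a k = 0 := by
  -- an index with `a ν ≤ ν`
  obtain ⟨ν, hν, haν⟩ : ∃ ν, ν ≤ n ∧ a ν ≤ ν := by
    by_contra hcon
    push Not at hcon
    have e1 : ∀ i ∈ Finset.range (n + 1), a i = i + 1 := by
      intro i hi
      have h7 := hcon i (by have := Finset.mem_range.1 hi; omega)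
      have h8 := h1 i
      omega
    have e2 := h4 (n + 1)
    rw [Finset.sum_congr rfl e1, Finset.sum_add_distrib, Finset.sum_range_id, Finset.sum_const,
      Finset.card_range, smul_eq_mul, mul_one] at e2
    have e3 : (n + 1) * (n + 1 - 1) = n * (n + 1) := by
      rw [Nat.add_sub_cancel]
      ring
    rw [e3] at e2
    omega
  -- the differences
  have hd : ∀ K, ∑ i ∈ Finset.range K, (a i - a' i) ≤ n := by
    intro K
    have e1 : ∑ i ∈ Finset.range K, (a i - a' i) + ∑ i ∈ Finset.range K, a' i =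
        ∑ i ∈ Finset.range K, a i := by
      rw [← Finset.sum_add_distrib]
      exact Finset.sum_congr rfl fun i _ => Nat.sub_add_cancel (h2 i)
    have e2 := h5 K
    omega
  -- monotonicity
  have hm : ∀ j, a (ν + j) ≤ ν ∧ a (ν + j) ≤ a ν := by
    intro j
    induction j with
    | zero => exact ⟨haν, le_rfl⟩
    | succ j ih =>
      have e1 := h3 (ν + j) (by omega)
      have e2 : ν + (j + 1) = ν + j + 1 := by ring
      rw [e2]
      omega
  have key : ∀ j, a (ν + j) ≠ 0 →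
      j + a (ν + j) ≤ a ν + ∑ m ∈ Finset.range j, (a (ν + m) - a' (ν + m)) +
        ∑ m ∈ Finset.range j, (a (ν + 1 + m) - a' (ν + 1 + m)) := by
    intro j
    induction j with
    | zero => intro _; simp
    | succ j ih =>
      intro hj
      have e0 := hm j
      have e1 := h3 (ν + j) (by omega)
      have e2 : ν + (j + 1) = ν + j + 1 := by ring
      have e3 : ν + 1 + j = ν + j + 1 := by ring
      rw [e2] at hj
      have e4 : a (ν + j) ≠ 0 := by omega
      have e5 := ih e4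
      rw [e2, Finset.sum_range_succ, Finset.sum_range_succ, e3]
      have e6 : a (ν + j + 1) + 1 ≤ a (ν + j) + (a (ν + j) - a' (ν + j)) +
          (a (ν + j + 1) - a' (ν + j + 1)) := by
        by_contra hcon
        have f1 := h2 (ν + j)
        have f2 := h2 (ν + j + 1)
        have f3 : a (ν + j + 1) = a (ν + j) := by omega
        have f4 : a' (ν + j) = a (ν + j) := by omega
        have f5 : a' (ν + j + 1) = a (ν + j) := by omega
        exact e4 (h6 (ν + j) f3 f4 f5 (by omega))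
      omega
  by_contra hne
  obtain ⟨j, rfl⟩ : ∃ j, k = ν + j := ⟨k - ν, by omega⟩
  have e1 := key j hne
  have e2 : ∑ m ∈ Finset.range j, (a (ν + m) - a' (ν + m)) ≤ n := by
    have f1 := hd (ν + j)
    rw [Finset.sum_range_add] at f1
    omega
  have e3 : ∑ m ∈ Finset.range j, (a (ν + 1 + m) - a' (ν + 1 + m)) ≤ n := by
    have f1 := hd (ν + 1 + j)
    rw [Finset.sum_range_add] at f1
    omega
  omega

end Pool.Agent.MSU

end

section

/-! # U/X3_Ext: extension of scalars of a bilinear form -/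

open MvPolynomial

noncomputable section

namespace Pool.Agent.MSU

variable {M : Type} [Field M] [Algebra ℂ M]

/-- X3a. PROOF. `B P q = ∑ over monomials P_α q_β b(X^α, X^β)` (e.g. `basisMonomials.constr` twice, or `Finsupp.lsum`). -/
theorem ext_exists (b : Po ℂ →ₗ[ℂ] Po ℂ →ₗ[ℂ] M) : ∃ B : Po M →ₗ[M] Po M →ₗ[M] M, ∀ p q : Po ℂ, B (ofC p) (ofC q) = b p q := by
  let bs := basisMonomials (Fin 2) M
  let B : Po M →ₗ[M] Po M →ₗ[M] M :=
    bs.constr M fun α => bs.constr M fun β => b (monomial α 1) (monomial β 1)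
  have hbs : ∀ α, bs α = monomial α (1 : M) := fun α => by
    simp [bs]
  have hB : ∀ α β, B (monomial α 1) (monomial β 1) = b (monomial α 1) (monomial β 1) := by
    intro α β
    rw [← hbs α, ← hbs β]
    simp only [B]
    rw [Module.Basis.constr_basis, Module.Basis.constr_basis]
  have hm : ∀ (α : Fin 2 →₀ ℕ) (a : ℂ), (ofC (monomial α a) : Po M) =
      algebraMap ℂ M a • monomial α (1 : M) := by
    intro α a
    unfold ofC
    rw [map_monomial, smul_monomial, smul_eq_mul, mul_one]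
  have hm' : ∀ (α : Fin 2 →₀ ℕ) (a : ℂ), (monomial α a : Po ℂ) = a • monomial α (1 : ℂ) := by
    intro α a
    rw [smul_monomial, smul_eq_mul, mul_one]
  refine ⟨B, fun p q => ?_⟩
  induction p using MvPolynomial.induction_on' with
  | monomial α a =>
    induction q using MvPolynomial.induction_on' with
    | monomial β c =>
      rw [hm, hm, hm' α a, hm' β c]
      simp only [map_smul, LinearMap.smul_apply, hB]
      simp only [Algebra.smul_def]
      rfl
    | add q q' h h' =>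
      have e : (ofC (q + q') : Po M) = ofC q + ofC q' := map_add _ _ _
      rw [e, map_add, map_add, h, h']
  | add p p' h h' =>
    have e : (ofC (p + p') : Po M) = ofC p + ofC p' := map_add _ _ _
    rw [e, map_add, map_add, LinearMap.add_apply, LinearMap.add_apply, h, h']

/-- X3b. two additive expressions agree if they agree on `C a * ofC p`. PROOF. `P = ∑ C (coeff) * ofC (monomial m 1)`. -/
theorem add_ext {N : Type} [AddCommGroup N] (F G : Po M → N) (hF : ∀ P Q, F (P + Q) = F P + F Q) (hG : ∀ P Q, G (P + Q) = G P + G Q)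
    (h : ∀ (a : M) (p : Po ℂ), F (C a * ofC p) = G (C a * ofC p)) (P : Po M) : F P = G P := by
  induction P using MvPolynomial.induction_on' with
  | monomial α a =>
    have e : (monomial α a : Po M) = C a * ofC (monomial α (1 : ℂ)) := by
      unfold ofC
      rw [map_monomial, map_one, C_mul_monomial, mul_one]
    rw [e]
    exact h _ _
  | add P Q h1 h2 => rw [hF, hG, h1, h2]

private theorem XA04_cD_C (δ : Derivation ℂ M M) (a : M) (p : Po ℂ) :
    cD δ (C a * ofC p) = C (δ a) * ofC p := by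
  rw [cD_mul_ofC]
  congr 1
  ext m
  rw [coeff_cD, coeff_C, coeff_C]
  split_ifs
  · rfl
  · exact map_zero _

private theorem XA04_X (a : M) (p : Po ℂ) (i : Fin 2) :
    (X i : Po M) * (C a * ofC p) = C a * ofC (X i * p) := by
  unfold ofC
  rw [map_mul, map_X]
  ring

private theorem XA04_pd (a : M) (p : Po ℂ) (e : ℂ) (i : Fin 2) :
    (cst e : Po M) * pderiv i (C a * ofC p) = C (algebraMap ℂ M e * a) * ofC (pderiv i p) := by
  unfold ofC cst
  rw [pderiv_C_mul, ← pderiv_map, C_mul]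
  ring

private theorem XA04_pds (a : M) (p : Po ℂ) (e : Fin 2 → ℂ) :
    ∑ i, (cst (e i) : Po M) * pderiv i (C a * ofC p) =
      ∑ i, C (algebraMap ℂ M (e i) * a) * ofC (pderiv i p) :=
  Finset.sum_congr rfl fun i _ => XA04_pd a p (e i) i

private theorem XA04_B (B : Po M →ₗ[M] Po M →ₗ[M] M) (b : Po ℂ →ₗ[ℂ] Po ℂ →ₗ[ℂ] M)
    (hB : ∀ p q : Po ℂ, B (ofC p) (ofC q) = b p q) (a c : M) (p q : Po ℂ) :
    B (C a * ofC p) (C c * ofC q) = a * c * b p q := by
  rw [← smul_eq_C_mul, ← smul_eq_C_mul, map_smul, map_smul, LinearMap.smul_apply, hB]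
  simp only [smul_eq_mul]
  ring

/-- X3c. PROOF. Both sides are additive in `P` and in `q`: by `add_ext` twice we may take `P = C a * ofC p`, `q = C c * ofC r`; `cD δ (C a * ofC p) = C (δ a) * ofC p` (`cD_mul_ofC`), `B (C a * ..) = a B ..`, `δ (a c b(p,r)) = δ a c b + a δ c b + a c δ b`. -/
theorem ext_D (B : Po M →ₗ[M] Po M →ₗ[M] M) (b : Po ℂ →ₗ[ℂ] Po ℂ →ₗ[ℂ] M) (hB : ∀ p q : Po ℂ, B (ofC p) (ofC q) = b p q)
    (δ : Derivation ℂ M M) (i : Fin 2) (e : Fin 2 → ℂ)
    (h : ∀ p q : Po ℂ, δ (b p q) = b (X i * p) q - ∑ j, algebraMap ℂ M (e j) * b p (pderiv j q)) (P q : Po M) :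
    δ (B P q) = B (cD δ P + X i * P) q + B P (cD δ q - ∑ j, cst (e j) * pderiv j q) := by
  refine add_ext (fun P => δ (B P q))
    (fun P => B (cD δ P + X i * P) q + B P (cD δ q - ∑ j, cst (e j) * pderiv j q)) ?_ ?_ ?_ P
  · intro P Q
    simp only [map_add, LinearMap.add_apply]
  · intro P Q
    simp only [cD_add, mul_add, map_add, LinearMap.add_apply]
    abel
  intro a p
  refine add_ext (fun q => δ (B (C a * ofC p) q))
    (fun q => B (cD δ (C a * ofC p) + X i * (C a * ofC p)) q +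
      B (C a * ofC p) (cD δ q - ∑ j, cst (e j) * pderiv j q)) ?_ ?_ ?_ q
  · intro P Q
    simp only [map_add]
  · intro P Q
    simp only [cD_add, map_add, mul_add, Finset.sum_add_distrib, map_sub]
    abel
  intro c r
  show δ (B (C a * ofC p) (C c * ofC r)) = B (cD δ (C a * ofC p) + X i * (C a * ofC p)) (C c * ofC r) +
      B (C a * ofC p) (cD δ (C c * ofC r) - ∑ j, cst (e j) * pderiv j (C c * ofC r))
  rw [XA04_pds, XA04_X, XA04_cD_C, XA04_cD_C, map_add, LinearMap.add_apply, map_sub, map_sum]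
  simp only [XA04_B B b hB]
  rw [Derivation.leibniz, Derivation.leibniz, h]
  simp only [smul_eq_mul]
  rw [mul_sub, Finset.mul_sum]
  have e1 : ∑ j, a * c * (algebraMap ℂ M (e j) * b p (pderiv j r)) =
      ∑ j, a * (algebraMap ℂ M (e j) * c) * b p (pderiv j r) :=
    Finset.sum_congr rfl fun j _ => by ring
  rw [e1]
  ring

/-- X3d. PROOF. As X3c. -/
theorem ext_Z (B : Po M →ₗ[M] Po M →ₗ[M] M) (b : Po ℂ →ₗ[ℂ] Po ℂ →ₗ[ℂ] M) (hB : ∀ p q : Po ℂ, B (ofC p) (ofC q) = b p q)
    (δ : Derivation ℂ M M) (j : Fin 2) (e : Fin 2 → ℂ)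
    (h : ∀ p q : Po ℂ, δ (b p q) = b p (X j * q) - ∑ i, algebraMap ℂ M (e i) * b (pderiv i p) q) (P q : Po M) :
    δ (B P q) = B (cD δ P - ∑ i, cst (e i) * pderiv i P) q + B P (cD δ q + X j * q) := by
  refine add_ext (fun P => δ (B P q))
    (fun P => B (cD δ P - ∑ i, cst (e i) * pderiv i P) q + B P (cD δ q + X j * q)) ?_ ?_ ?_ P
  · intro P Q
    simp only [map_add, LinearMap.add_apply]
  · intro P Q
    simp only [cD_add, mul_add, map_add, LinearMap.add_apply, Finset.sum_add_distrib, map_sub,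
      LinearMap.sub_apply]
    abel
  intro a p
  refine add_ext (fun q => δ (B (C a * ofC p) q))
    (fun q => B (cD δ (C a * ofC p) - ∑ i, cst (e i) * pderiv i (C a * ofC p)) q +
      B (C a * ofC p) (cD δ q + X j * q)) ?_ ?_ ?_ q
  · intro P Q
    simp only [map_add]
  · intro P Q
    simp only [cD_add, map_add, mul_add]
    abel
  intro c r
  show δ (B (C a * ofC p) (C c * ofC r)) =
    B (cD δ (C a * ofC p) - ∑ i, cst (e i) * pderiv i (C a * ofC p)) (C c * ofC r) +
      B (C a * ofC p) (cD δ (C c * ofC r) + X j * (C c * ofC r))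
  rw [XA04_pds, XA04_X, XA04_cD_C, XA04_cD_C, map_add, map_sub, map_sum, LinearMap.sub_apply,
    LinearMap.sum_apply]
  simp only [XA04_B B b hB]
  rw [Derivation.leibniz, Derivation.leibniz, h]
  simp only [smul_eq_mul]
  rw [mul_sub, Finset.mul_sum]
  have e1 : ∑ i, a * c * (algebraMap ℂ M (e i) * b (pderiv i p) r) =
      ∑ i, algebraMap ℂ M (e i) * a * c * b (pderiv i p) r :=
    Finset.sum_congr rfl fun j _ => by ring
  rw [e1]
  ring

private theorem XA04_sh (v : Fin 2 → ℂ) (a : M) (p : Po ℂ) :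
    sh v (C a * ofC p) = C a * ofC (sh v p) := by
  have h1 : sh v (C a : Po M) = C a := by
    unfold sh
    rw [aeval_C]
    rfl
  have h2 : sh v (ofC p : Po M) = ofC (sh v p) := by
    induction p using MvPolynomial.induction_on with
    | C a =>
      unfold sh ofC
      rw [map_C, aeval_C, aeval_C, algebraMap_eq, algebraMap_eq, map_C]
    | add p q hp hq =>
      have e1 : (ofC (p + q) : Po M) = ofC p + ofC q := map_add _ _ _
      have e2 : (ofC (sh v p + sh v q) : Po M) = ofC (sh v p) + ofC (sh v q) := map_add _ _ _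
      rw [e1, sh_add, sh_add, e2, hp, hq]
    | mul_X p i hp =>
      have e1 : (ofC (p * X i) : Po M) = ofC p * X i := by
        unfold ofC
        rw [map_mul, map_X]
      have e2 : sh v (X i : Po M) = X i + cst (v i) := by
        unfold sh
        rw [aeval_X]
      have e3 : sh v (X i : Po ℂ) = X i + cst (v i) := by
        unfold sh
        rw [aeval_X]
      have e4 : (ofC (sh v p * (X i + cst (v i))) : Po M) = ofC (sh v p) * (X i + cst (v i)) := by
        unfold ofC cst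
        rw [map_mul, map_add, map_X, map_C]
        rfl
      rw [e1, sh_mul, sh_mul, e2, e3, e4, hp]
  rw [sh_mul, h1, h2]

/-- X3e. PROOF. As X3c; `map T (C a * ofC p) = C (T a) * ofC p` (`map_ofC`), `sh v (C a * ofC p) = C a * ofC (sh v p)`. -/
theorem ext_T (B : Po M →ₗ[M] Po M →ₗ[M] M) (b : Po ℂ →ₗ[ℂ] Po ℂ →ₗ[ℂ] M) (hB : ∀ p q : Po ℂ, B (ofC p) (ofC q) = b p q)
    (T : M →+* M) (hT : ∀ a : ℂ, T (algebraMap ℂ M a) = algebraMap ℂ M a) (c : M) (lam chi : Fin 2 → ℂ)
    (h : ∀ p q : Po ℂ, T (b p q) = c * b (sh lam p) (sh chi q)) (P q : Po M) :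
    T (B P q) = c * B (sh lam (map T P)) (sh chi (map T q)) := by
  have hm : ∀ (a : M) (p : Po ℂ), map T (C a * ofC p) = C (T a) * ofC p := by
    intro a p
    rw [map_mul, map_C, map_ofC T hT]
  refine add_ext (fun P => T (B P q))
    (fun P => c * B (sh lam (map T P)) (sh chi (map T q))) ?_ ?_ ?_ P
  · intro P Q
    simp only [map_add, LinearMap.add_apply]
  · intro P Q
    simp only [map_add, sh_add, LinearMap.add_apply, mul_add]
  intro a p
  refine add_ext (fun q => T (B (C a * ofC p) q))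
    (fun q => c * B (sh lam (map T (C a * ofC p))) (sh chi (map T q))) ?_ ?_ ?_ q
  · intro P Q
    simp only [map_add]
  · intro P Q
    simp only [map_add, sh_add, mul_add]
  intro d r
  show T (B (C a * ofC p) (C d * ofC r)) = c * B (sh lam (map T (C a * ofC p))) (sh chi (map T (C d * ofC r)))
  rw [hm, hm, XA04_sh, XA04_sh, XA04_B B b hB, XA04_B B b hB, map_mul, map_mul, h]
  ring

end Pool.Agent.MSU
end

end

section

/-! # U/Z10_ThmZ: the abstract zero estimate -/

open MvPolynomial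

noncomputable section

namespace Pool.Agent.MSU

variable {M : Type} [Field M] [Algebra ℂ M] {Λ : Type}

/-- Z10. PROOF. `count` with `n = b + 1`, `a = aa K (b+1)`, `a' = aa K b` (`aa_add`, `aa_anti`, `aa_step`, `sum_aa_le`, `sum_aa_succ`, `no_block`): `aa K (b+1) k = 0` for `k ≥ 4b + 5`. `all_of_low` and `step1`. -/
theorem thmZ (K : Ker M Λ) (b : ℕ) (q : Po M) (hq : q.totalDegree ≤ b) (h : ∀ P : Po M, P.totalDegree ≤ 4 * b + 4 → K.B P q = 0) : q = 0 := by
  have ha : ∀ k, 4 * b + 5 ≤ k → aa K (b + 1) k = 0 := by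
    intro k hk
    refine count (b + 1) (aa K (b + 1)) (aa K b) (fun k => by have := aa_add K (b + 1) k; omega) (aa_anti K b) (aa_step K (b + 1))
      (sum_aa_le K (b + 1)) (fun K' => sum_aa_succ K b K') (fun k h1 h2 h3 h4 => no_block K b k h1 h2 h3 h4) k (by omega)
  exact step1 K q (all_of_low K (b + 1) (4 * b + 5) ha q (by omega) (fun P hP => h P (by omega)))

end Pool.Agent.MSU
end

end

section

/-! # U/X1_Phi: the algebraic part of the kernel -/

open Complex MvPolynomial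

noncomputable section

namespace Pool.Agent.MSU

open MSD MSP MSK MSR

/-- the operators on the linear maps -/
def xa01_T (dv : Fin 2 → MvPolynomial (Fin 3) ℂ) (e : Fin 2 → Fin 2 → ℂ) (i : Fin 2) :
    (Po ℂ →ₗ[ℂ] MvPolynomial (Fin 3) ℂ) →ₗ[ℂ] (Po ℂ →ₗ[ℂ] MvPolynomial (Fin 3) ℂ) where
  toFun f := (LinearMap.mulLeft ℂ (dv i)) ∘ₗ f + ∑ j, (e i j) • (f ∘ₗ (pderiv j : Derivation ℂ (Po ℂ) (Po ℂ)).toLinearMap)
  map_add' f g := by
    refine LinearMap.ext fun q => ?_
    simp only [LinearMap.add_apply, LinearMap.comp_apply, LinearMap.sum_apply, LinearMap.smul_apply,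
      LinearMap.mulLeft_apply, mul_add, smul_add, Finset.sum_add_distrib]
    abel
  map_smul' c f := by
    refine LinearMap.ext fun q => ?_
    simp only [LinearMap.add_apply, LinearMap.comp_apply, LinearMap.sum_apply, LinearMap.smul_apply,
      LinearMap.mulLeft_apply, smul_add, Finset.smul_sum, RingHom.id_apply, mul_smul_comm]
    congr 1
    apply Finset.sum_congr rfl
    intro j _
    rw [smul_comm]

theorem xa01_T_apply (dv : Fin 2 → MvPolynomial (Fin 3) ℂ) (e : Fin 2 → Fin 2 → ℂ) (i : Fin 2)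
    (f : Po ℂ →ₗ[ℂ] MvPolynomial (Fin 3) ℂ) (q : Po ℂ) :
    xa01_T dv e i f q = dv i * f q + ∑ j, (e i j) • f (pderiv j q) := by
  simp only [xa01_T, LinearMap.coe_mk, AddHom.coe_mk, LinearMap.add_apply, LinearMap.comp_apply,
    LinearMap.sum_apply, LinearMap.smul_apply, LinearMap.mulLeft_apply]
  rfl

theorem xa01_pd (i j : Fin 2) (q : Po ℂ) : pderiv i (pderiv j q) = pderiv j (pderiv i q) := by
  have h : ⁅(pderiv i : Derivation ℂ (Po ℂ) (Po ℂ)), (pderiv j : Derivation ℂ (Po ℂ) (Po ℂ))⁆ = 0 := by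
    apply MvPolynomial.derivation_ext
    intro k
    rw [Derivation.commutator_apply, pderiv_X, pderiv_X, Derivation.zero_apply]
    by_cases hi : i = k <;> by_cases hj : j = k <;> simp [Pi.single_apply, hi, hj]
  have h2 := Derivation.congr_fun h q
  rw [Derivation.commutator_apply, Derivation.zero_apply] at h2
  exact sub_eq_zero.1 h2

theorem xa01_comm (dv : Fin 2 → MvPolynomial (Fin 3) ℂ) (e : Fin 2 → Fin 2 → ℂ) :
    Commute (xa01_T dv e 0 : Module.End ℂ (Po ℂ →ₗ[ℂ] MvPolynomial (Fin 3) ℂ)) (xa01_T dv e 1) := by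
  show xa01_T dv e 0 * xa01_T dv e 1 = xa01_T dv e 1 * xa01_T dv e 0
  refine LinearMap.ext fun f => LinearMap.ext fun q => ?_
  rw [Module.End.mul_apply, Module.End.mul_apply]
  simp only [xa01_T_apply, Fin.sum_univ_two]
  rw [xa01_pd 0 1 q]
  simp only [smul_eq_C_mul, mul_add]
  ring

/-- the bilinear map -/
def xa01_Phi (dv zv : Fin 2 → MvPolynomial (Fin 3) ℂ) (e : Fin 2 → Fin 2 → ℂ) :
    Po ℂ →ₗ[ℂ] Po ℂ →ₗ[ℂ] MvPolynomial (Fin 3) ℂ :=
  (basisMonomials (Fin 2) ℂ).constr ℂ fun α =>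
    ((xa01_T dv e 0 : Module.End ℂ (Po ℂ →ₗ[ℂ] MvPolynomial (Fin 3) ℂ)) ^ (α 0) * (xa01_T dv e 1) ^ (α 1))
      (aeval zv : Po ℂ →ₐ[ℂ] MvPolynomial (Fin 3) ℂ).toLinearMap

theorem xa01_Phi_X (dv zv : Fin 2 → MvPolynomial (Fin 3) ℂ) (e : Fin 2 → Fin 2 → ℂ) (i : Fin 2) (P : Po ℂ) :
    xa01_Phi dv zv e (X i * P) = xa01_T dv e i (xa01_Phi dv zv e P) := by
  have h : (xa01_Phi dv zv e) ∘ₗ (LinearMap.mulLeft ℂ (X i)) = (xa01_T dv e i) ∘ₗ (xa01_Phi dv zv e) := by
    apply (basisMonomials (Fin 2) ℂ).ext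
    intro α
    rw [LinearMap.comp_apply, LinearMap.comp_apply, LinearMap.mulLeft_apply]
    have h1 : (X i : Po ℂ) * basisMonomials (Fin 2) ℂ α = basisMonomials (Fin 2) ℂ (Finsupp.single i 1 + α) := by
      rw [coe_basisMonomials]
      simp only [X, monomial_mul, one_mul]
    rw [h1, xa01_Phi, Module.Basis.constr_basis, Module.Basis.constr_basis, ← Module.End.mul_apply]
    congr 1
    fin_cases i
    · simp [pow_add, mul_assoc]
    · have hc := xa01_comm dv e
      have hc2 := (hc.pow_left (α 0)).eq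
      simp only [Fin.mk_one, Finsupp.coe_add, Pi.add_apply, Finsupp.single_eq_same, pow_add, pow_one]
      rw [Finsupp.single_eq_of_ne (by decide), pow_zero, one_mul, ← mul_assoc, hc2, mul_assoc]
  exact LinearMap.congr_fun h P

/-- X1a. PROOF. Let `S = MvPolynomial (Fin 2) (MvPolynomial (Fin 3) ℂ)` and `op i : S → S`, `op i q = C (dv i) * q + ∑ j, C (C (e i j)) * pderiv j q`; these are linear over `MvPolynomial (Fin 3) ℂ` and commute (`pderiv` commute). For a monomial `X^α` put `Φ(X^α, q) = aeval zv` (i.e. `s_j ↦ zv j`, coefficients to themselves: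
`MvPolynomial.aeval (R := MvPolynomial (Fin 3) ℂ) zv` or `eval zv`) of `(op 0)^[α 0] ((op 1)^[α 1] (map C q))`, and extend linearly in `P` (`basisMonomials.constr` or `Finsupp.lsum`). The second property: on monomials, `op i` moved inside (commutation), and `op i (map C q) = C (dv i) * map C q + ∑ C (C e) * map C (pderiv j q)`,
linearity over `MvPolynomial (Fin 3) ℂ`. In general by linearity in `P`. -/
theorem phi_exists (dv zv : Fin 2 → MvPolynomial (Fin 3) ℂ) (e : Fin 2 → Fin 2 → ℂ) :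
    ∃ Φ : Po ℂ →ₗ[ℂ] Po ℂ →ₗ[ℂ] MvPolynomial (Fin 3) ℂ, (∀ q, Φ 1 q = aeval zv q) ∧
      ∀ i P q, Φ (X i * P) q = dv i * Φ P q + ∑ j, C (e i j) * Φ P (pderiv j q) := by
  have hone : ∀ q, xa01_Phi dv zv e 1 q = aeval zv q := by
    intro q
    have h1 : (1 : Po ℂ) = basisMonomials (Fin 2) ℂ 0 := by
      rw [coe_basisMonomials]
      rfl
    rw [h1, xa01_Phi, Module.Basis.constr_basis]
    simp
  refine ⟨xa01_Phi dv zv e, hone, fun i P q => ?_⟩
  have h := xa01_Phi_X dv zv e i P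
  rw [h, xa01_T_apply]
  congr 1
  apply Finset.sum_congr rfl
  intro j _
  rw [smul_eq_C_mul]

/-- the polynomials `Φ(P, q)` -/
def Phi (P : Par 2) (D : Dt 2) : Po ℂ →ₗ[ℂ] Po ℂ →ₗ[ℂ] MvPolynomial (Fin 3) ℂ :=
  Classical.choose (phi_exists (fun i => lf (Dv P i)) (fun j => lf (Zv P D j)) (eK P D))

theorem Phi_one (P : Par 2) (D : Dt 2) (q : Po ℂ) : Phi P D 1 q = aeval (fun j => lf (Zv P D j)) q :=
  (Classical.choose_spec (phi_exists (fun i => lf (Dv P i)) (fun j => lf (Zv P D j)) (eK P D))).1 q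

theorem Phi_X (P : Par 2) (D : Dt 2) (i : Fin 2) (p q : Po ℂ) :
    Phi P D (X i * p) q = lf (Dv P i) * Phi P D p q + ∑ j, C (eK P D i j) * Phi P D p (pderiv j q) :=
  (Classical.choose_spec (phi_exists (fun i => lf (Dv P i)) (fun j => lf (Zv P D j)) (eK P D))).2 i p q

theorem XA02_C (P : Par 2) (D : Dt 2) (a : ℂ) (q : Po ℂ) :
    Phi P D (C a) q = C a * aeval (fun j => lf (Zv P D j)) q := by
  have h1 : (C a : Po ℂ) = a • (1 : Po ℂ) := by rw [smul_eq_C_mul, mul_one]
  rw [h1, map_smul, LinearMap.smul_apply, Phi_one, smul_eq_C_mul]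

theorem XA02_Csmul (P : Par 2) (D : Dt 2) (a : ℂ) (p q : Po ℂ) :
    Phi P D (C a * p) q = C a * Phi P D p q := by
  rw [← smul_eq_C_mul, map_smul, LinearMap.smul_apply, smul_eq_C_mul]

theorem XA02_pX (l j : Fin 2) (q : Po ℂ) :
    pderiv l (X j * q) = (if l = j then q else 0) + X j * pderiv l q := by
  rw [Derivation.leibniz, pderiv_X, smul_eq_mul, smul_eq_mul, add_comm]
  congr 1
  by_cases h : l = j
  · subst h
    simp
  · rw [if_neg h, Pi.single_apply, if_neg (Ne.symm h), mul_zero]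

/-- X1b. -/
theorem Phi_Xs (P : Par 2) (D : Dt 2) (j : Fin 2) (p q : Po ℂ) :
    Phi P D p (X j * q) = lf (Zv P D j) * Phi P D p q + ∑ i, C (eK P D i j) * Phi P D (pderiv i p) q := by
  induction p using MvPolynomial.induction_on generalizing q with
  | C a =>
    rw [XA02_C, XA02_C, map_mul, aeval_X]
    simp only [pderiv_C, map_zero, LinearMap.zero_apply, mul_zero, Finset.sum_const_zero, add_zero]
    ring
  | add p1 p2 h1 h2 =>
    simp only [map_add, LinearMap.add_apply]
    rw [h1, h2]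
    simp only [mul_add, Finset.sum_add_distrib]
    ring
  | mul_X p k ih =>
    rw [mul_comm p (X k)]
    have hL : Phi P D (X k * p) (X j * q) =
        lf (Dv P k) * (lf (Zv P D j) * Phi P D p q + ∑ i, C (eK P D i j) * Phi P D (pderiv i p) q) +
        (C (eK P D k j) * Phi P D p q + ∑ l, C (eK P D k l) *
          (lf (Zv P D j) * Phi P D p (pderiv l q) +
            ∑ i, C (eK P D i j) * Phi P D (pderiv i p) (pderiv l q))) := by
      rw [Phi_X, ih q]
      congr 1
      have h3 : ∀ l : Fin 2, C (eK P D k l) * Phi P D p (pderiv l (X j * q)) =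
          (if l = j then C (eK P D k l) * Phi P D p q else 0) + C (eK P D k l) *
          (lf (Zv P D j) * Phi P D p (pderiv l q) +
            ∑ i, C (eK P D i j) * Phi P D (pderiv i p) (pderiv l q)) := by
        intro l
        rw [XA02_pX, map_add, ih (pderiv l q), mul_add]
        congr 1
        by_cases h : l = j
        · rw [if_pos h, if_pos h]
        · rw [if_neg h, if_neg h, map_zero, mul_zero]
      rw [Finset.sum_congr rfl fun l _ => h3 l, Finset.sum_add_distrib, Finset.sum_ite_eq' Finset.univ j,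
        if_pos (Finset.mem_univ j)]
    have hR : ∀ i : Fin 2, C (eK P D i j) * Phi P D (pderiv i (X k * p)) q =
        (if i = k then C (eK P D i j) * Phi P D p q else 0) + C (eK P D i j) *
          (lf (Dv P k) * Phi P D (pderiv i p) q + ∑ l, C (eK P D k l) * Phi P D (pderiv i p) (pderiv l q)) := by
      intro i
      rw [XA02_pX, map_add, LinearMap.add_apply, Phi_X, mul_add]
      congr 1
      by_cases h : i = k
      · rw [if_pos h, if_pos h]
      · rw [if_neg h, if_neg h, map_zero, LinearMap.zero_apply, mul_zero]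
    rw [hL, Phi_X, Finset.sum_congr rfl fun i _ => hR i, Finset.sum_add_distrib, Finset.sum_ite_eq' Finset.univ k,
        if_pos (Finset.mem_univ k)]
    simp only [Fin.sum_univ_two]
    ring

theorem XA02_pderiv_sh (j : Fin 2) (v : Fin 2 → ℂ) (q : Po ℂ) :
    pderiv j (sh v q) = sh v (pderiv j q) := by
  induction q using MvPolynomial.induction_on with
  | C a =>
    rw [pderiv_C]
    unfold sh
    rw [map_zero, aeval_C]
    exact pderiv_C
  | add p1 p2 h1 h2 =>
    unfold sh at *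
    rw [map_add, map_add, map_add, h1, h2, map_add]
  | mul_X p k ih =>
    unfold sh at *
    rw [map_mul, Derivation.leibniz, Derivation.leibniz, aeval_X, map_add, map_add, ih, pderiv_X]
    simp only [smul_eq_mul, map_mul, aeval_X]
    have h1 : pderiv j (cst (v k) : Po ℂ) = 0 := pderiv_C
    rw [h1, add_zero]
    congr 2
    by_cases h : k = j
    · subst h
      simp
    · rw [Pi.single_apply, if_neg h, map_zero]

theorem XA02_lf (η v : Fin 3 → ℂ) :
    aeval (fun l => (X l : MvPolynomial (Fin 3) ℂ) + C (η l)) (lf v) = lf v + C (∑ l, v l * η l) := by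
  unfold lf
  rw [map_sum, map_sum, ← Finset.sum_add_distrib]
  apply Finset.sum_congr rfl
  intro l _
  rw [map_mul, aeval_X, aeval_C, C_mul, mul_add]
  rfl

/-- X1c. -/
theorem Phi_shift (P : Par 2) (D : Dt 2) (η : Fin 3 → ℂ) (p q : Po ℂ) :
    aeval (fun l => (X l : MvPolynomial (Fin 3) ℂ) + C (η l)) (Phi P D p q) =
      Phi P D (sh (fun i => ∑ l, Dv P i l * η l) p) (sh (fun j => ∑ l, Zv P D j l * η l) q) := by
  induction p using MvPolynomial.induction_on generalizing q with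
  | C a =>
    have h1 : sh (fun i => ∑ l, Dv P i l * η l) (C a : Po ℂ) = C a := by
      unfold sh
      rw [aeval_C]
      rfl
    rw [h1, XA02_C, XA02_C, map_mul, aeval_C]
    have h2 : (algebraMap ℂ (MvPolynomial (Fin 3) ℂ)) a = C a := rfl
    rw [h2]
    congr 1
    have h3 : (aeval (fun l => (X l : MvPolynomial (Fin 3) ℂ) + C (η l))).comp
        (aeval (fun j => lf (Zv P D j)) : Po ℂ →ₐ[ℂ] MvPolynomial (Fin 3) ℂ) =
        (aeval (fun j => lf (Zv P D j)) : Po ℂ →ₐ[ℂ] MvPolynomial (Fin 3) ℂ).comp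
          (aeval (fun i => (X i : Po ℂ) + cst (∑ l, Zv P D i l * η l))) := by
      apply MvPolynomial.algHom_ext
      intro i
      rw [AlgHom.comp_apply, AlgHom.comp_apply, aeval_X, aeval_X, XA02_lf, map_add, aeval_X]
      congr 1
      unfold cst
      rw [aeval_C]
      rfl
    have h4 := congrArg (fun f : Po ℂ →ₐ[ℂ] MvPolynomial (Fin 3) ℂ => f q) h3
    exact h4
  | add p1 p2 h1 h2 =>
    have h3 : sh (fun i => ∑ l, Dv P i l * η l) (p1 + p2) =
      sh (fun i => ∑ l, Dv P i l * η l) p1 + sh (fun i => ∑ l, Dv P i l * η l) p2 := map_add _ _ _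
    rw [h3, map_add, map_add, LinearMap.add_apply, LinearMap.add_apply, map_add, h1, h2]
  | mul_X p k ih =>
    rw [mul_comm p (X k)]
    have h3 : sh (fun i => ∑ l, Dv P i l * η l) (X k * p) =
      X k * sh (fun i => ∑ l, Dv P i l * η l) p +
        C (∑ l, Dv P k l * η l) * sh (fun i => ∑ l, Dv P i l * η l) p := by
      unfold sh
      rw [map_mul, aeval_X, add_mul]
      rfl
    rw [h3, Phi_X, map_add, map_add, LinearMap.add_apply, Phi_X, XA02_Csmul, map_mul, XA02_lf, ih q]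
    have h4 : ∀ j : Fin 2, aeval (fun l => (X l : MvPolynomial (Fin 3) ℂ) + C (η l))
        (C (eK P D k j) * Phi P D p (pderiv j q)) =
        C (eK P D k j) * Phi P D (sh (fun i => ∑ l, Dv P i l * η l) p)
          (pderiv j (sh (fun j => ∑ l, Zv P D j l * η l) q)) := by
      intro j
      rw [map_mul, aeval_C, ih (pderiv j q), XA02_pderiv_sh]
      rfl
    have h5 : aeval (fun l => (X l : MvPolynomial (Fin 3) ℂ) + C (η l))
        (∑ j, C (eK P D k j) * Phi P D p (pderiv j q)) =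
        ∑ j, C (eK P D k j) * Phi P D (sh (fun i => ∑ l, Dv P i l * η l) p)
          (pderiv j (sh (fun j => ∑ l, Zv P D j l * η l) q)) := by
      rw [map_sum]
      exact Finset.sum_congr rfl fun j _ => h4 j
    rw [h5]
    ring

end Pool.Agent.MSU
end

end

section

/-! # U/X5_Ker: the kernel of the theta functions is a kernel -/

open Complex MvPolynomial

noncomputable section

namespace Pool.Agent.MSU

open MSD MSP MSK MSR

theorem XA06_em_smul (a : ℂ) (f : E3) : em (a • f) = a • em f := by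
  rw [Algebra.smul_def, Algebra.smul_def, ← em_C, em, em, em, map_mul]

theorem XA06_em_add (f g : E3) : em (f + g) = em f + em g := by
  rw [em, em, em, map_add]

theorem XA06_em_mul (f g : E3) : em (f * g) = em f * em g := by
  rw [em, em, em, map_mul]

theorem XA06_TE_C (D : Dt 2) (a : ℂ) (q : MvPolynomial (Fin 3) ℂ) : TE D (C a * q) = a • TE D q := by
  rw [← MvPolynomial.smul_eq_C_mul, map_smul]

/-- the bilinear form over `ℂ` -/
def bK (P : Par 2) (D : Dt 2) : Po ℂ →ₗ[ℂ] Po ℂ →ₗ[ℂ] M3 :=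
  LinearMap.mk₂ ℂ (fun p q => em (TE D (Phi P D p q)))
    (by
      intro m₁ m₂ n
      rw [map_add, LinearMap.add_apply, map_add, XA06_em_add])
    (by
      intro c m n
      rw [map_smul, LinearMap.smul_apply, map_smul, XA06_em_smul])
    (by
      intro m n₁ n₂
      rw [map_add, map_add, XA06_em_add])
    (by
      intro c m n
      rw [map_smul, map_smul, XA06_em_smul])

theorem bK_apply (P : Par 2) (D : Dt 2) (p q : Po ℂ) : bK P D p q = em (TE D (Phi P D p q)) := rfl

/-- X5a. PROOF. `dM_em`, `TE_D`, `Phi_X`. -/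
theorem bK_D (P : Par 2) (D : Dt 2) (i : Fin 2) (p q : Po ℂ) :
    dM (Dv P i) (bK P D p q) = bK P D (X i * p) q - ∑ j, algebraMap ℂ M3 (eK P D i j) * bK P D p (pderiv j q) := by
  simp only [bK_apply]
  rw [dM_em, TE_D, Phi_X, map_add, map_sum, XA06_em_add]
  rw [eq_sub_iff_add_eq]
  congr 1
  rw [em, map_sum]
  apply Finset.sum_congr rfl
  intro j _
  rw [XA06_TE_C, ← Algebra.smul_def, ← XA06_em_smul]
  rfl

/-- X5b. PROOF. `dM_em`, `TE_D`, `Phi_Xs`. -/
theorem bK_Z (P : Par 2) (D : Dt 2) (j : Fin 2) (p q : Po ℂ) :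
    dM (Zv P D j) (bK P D p q) = bK P D p (X j * q) - ∑ i, algebraMap ℂ M3 (eK P D i j) * bK P D (pderiv i p) q := by
  simp only [bK_apply]
  rw [dM_em, TE_D, Phi_Xs, map_add, map_sum, XA06_em_add]
  rw [eq_sub_iff_add_eq]
  congr 1
  rw [em, map_sum]
  apply Finset.sum_congr rfl
  intro i _
  rw [XA06_TE_C, ← Algebra.smul_def, ← XA06_em_smul]
  rfl

/-- X5c. PROOF. `trM_em`, `TE_tr`, `Phi_shift`. -/
theorem bK_T (P : Par 2) (D : Dt 2) (w : Lz) : ∃ c : M3, c ≠ 0 ∧ ∀ p q : Po ℂ, trM (wz D.τ w) (bK P D p q) =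
    c * bK P D (sh (fun i => ∑ l, Dv P i l * hz w l) p) (sh (fun j => ∑ l, Zv P D j l * hz w l) q) := by
  obtain ⟨f, hf0, hf⟩ := aut_exists D w
  refine ⟨em f, em_ne f hf0, fun p q => ?_⟩
  simp only [bK_apply]
  rw [trM_em, TE_tr D w _ f hf, Phi_shift, XA06_em_mul]

/-- XA07 helper: the two rigidity statements at once -/
theorem XA07_rig (A Bv : Fin 2 → Fin 3 → ℂ) (ρ : Fin 3 → ℂ) (hρA : ∀ j, ∑ l, ρ l * A j l = 0) (hA : LinearIndependent ℂ A)
    (hρ : ∀ n : Fin 3 → ℤ, ∑ l, ρ l * (n l : ℂ) = 0 → n = 0) (hB : LinearIndependent ℂ Bv) (τ : ℂ) (f : M3) (κ c : Fin 2 → ℂ)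
    (h1 : ∀ i, dM (A i) f = algebraMap ℂ M3 (κ i))
    (h2 : ∀ w : Lz, trM (wz τ w) f = f + algebraMap ℂ M3 (∑ j, c j * ∑ l, Bv j l * hz w l)) :
    c = 0 ∧ ∃ a : ℂ, f = algebraMap ℂ M3 a := by
  have key := rigidity A ρ hρA hA hρ τ f κ (fun l => (∑ j, c j * Bv j l) * (-(2 * Real.pi * I))) h1 (by
    intro m n
    have h := h2 (m, n)
    have e1 : wz τ ((m, n) : Lz) = fun l => (m l : ℂ) + n l * τ := rfl
    rw [e1] at h
    rw [h]
    congr 2
    simp only [hz, Fin.sum_univ_two, Fin.sum_univ_three]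
    ring)
  obtain ⟨hC, ha⟩ := key
  refine ⟨?_, ha⟩
  have hpi : (-(2 * Real.pi * I) : ℂ) ≠ 0 := by
    rw [neg_ne_zero]
    exact mul_ne_zero (mul_ne_zero two_ne_zero (by exact_mod_cast Real.pi_ne_zero)) I_ne_zero
  have hs : ∑ j, c j • Bv j = 0 := by
    funext l
    have h := congrFun hC l
    simp only [Pi.zero_apply] at h
    rcases mul_eq_zero.mp h with h' | h'
    · rw [Finset.sum_apply]
      simp only [Pi.smul_apply, smul_eq_mul, Pi.zero_apply]
      exact h'
    · exact absurd h' hpi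
  have hz0 := Fintype.linearIndependent_iff.mp hB c hs
  funext j
  exact hz0 j

/-- X5d. PROOF. `rigidity` for `A = Dv P`, `ρ = rD P`, `C l = ∑ j, c j * Zv P D j l * (-2πi)`; `C = 0` and `Zv_li` give `c = 0`. -/
theorem bK_rigD (P : Par 2) (D : Dt 2) (f : M3) (κ c : Fin 2 → ℂ) (h1 : ∀ i, dM (Dv P i) f = algebraMap ℂ M3 (κ i))
    (h2 : ∀ w : Lz, trM (wz D.τ w) f = f + algebraMap ℂ M3 (∑ j, c j * ∑ l, Zv P D j l * hz w l)) : c = 0 ∧ ∃ a : ℂ, f = algebraMap ℂ M3 a :=
  XA07_rig (Dv P) (Zv P D) (rD P) (rD_Dv P) (Dv_li P) (rD_int P) (Zv_li P D) D.τ f κ c h1 h2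

/-- X5e. -/
theorem bK_rigZ (P : Par 2) (D : Dt 2) (f : M3) (κ c : Fin 2 → ℂ) (h1 : ∀ j, dM (Zv P D j) f = algebraMap ℂ M3 (κ j))
    (h2 : ∀ w : Lz, trM (wz D.τ w) f = f + algebraMap ℂ M3 (∑ i, c i * ∑ l, Dv P i l * hz w l)) : c = 0 ∧ ∃ a : ℂ, f = algebraMap ℂ M3 a :=
  XA07_rig (Zv P D) (Dv P) (rZ P) (rZ_Zv P D) (Zv_li P D) (rZ_int P) (Dv_li P) D.τ f κ c h1 h2

/-- X5f. PROOF. Assemble: `B` from `ext_exists (bK P D)`, `hD, hZ, hT` from `ext_D, ext_Z, ext_T`, `B 1 1 = em (TE D 1) ≠ 0` (`Phi_one`, `TE_one_ne`, `em_ne`). -/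
theorem ker_exists (P : Par 2) (D : Dt 2) : ∃ K : Ker M3 Lz, ∀ p q : Po ℂ, K.B (ofC p) (ofC q) = em (TE D (Phi P D p q)) := by
  obtain ⟨B, hB⟩ := ext_exists (bK P D)
  choose cc hc0 hcT using bK_T P D
  have hB1 : B 1 1 ≠ 0 := by
    have h1 : (1 : Po M3) = ofC (1 : Po ℂ) := by
      unfold ofC
      rw [map_one]
    rw [h1, hB, bK_apply, Phi_one, map_one]
    exact em_ne _ (TE_one_ne D)
  exact ⟨{ D := fun i => dM (Dv P i)
           Z := fun j => dM (Zv P D j)
           T := fun w => trM (wz D.τ w)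
           Tsurj := fun w => trM_surj _
           TC := fun w a => trM_C _ a
           e := eK P D
           lam := fun w i => ∑ l, Dv P i l * hz w l
           chi := fun w j => ∑ l, Zv P D j l * hz w l
           c := cc
           c0 := hc0
           B := B
           B1 := hB1
           hD := fun i p q => ext_D B (bK P D) hB (dM (Dv P i)) i (fun j => eK P D i j) (fun p q => bK_D P D i p q) p q
           hZ := fun j p q => ext_Z B (bK P D) hB (dM (Zv P D j)) j (fun i => eK P D i j) (fun p q => bK_Z P D j p q) p q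
           hT := fun w p q => ext_T B (bK P D) hB (trM (wz D.τ w)) (trM_C _) (cc w) _ _ (hcT w) p q
           rigD := fun f κ c h1 h2 => bK_rigD P D f κ c h1 h2
           rigZ := fun f κ c h1 h2 => bK_rigZ P D f κ c h1 h2 }, fun p q => (hB p q).trans (bK_apply P D p q)⟩

end Pool.Agent.MSU
end

end

section

/-! # U/V1_Link: the derivatives of the functions `GR` and the kernel -/

open Complex MvPolynomial

noncomputable section

namespace Pool.Agent.MSU

open MSD MSP MSK MSR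

/-- the polynomial `q` attached to the auxiliary function with coefficients `c` -/
def qc (P : Par 2) (D : Dt 2) {E : ℕ} (c : Ir 2 E → ℂ) : Po ℂ := sh (lam P D) (Cs P D c)

/-- V1a. PROOF. `Cs_ne` and `sh` is injective (`aeval` with the inverse shift; `sh_neg_sh`-like argument: `MvPolynomial.algHom_ext`). -/
theorem qc_ne (P : Par 2) (D : Dt 2) {E : ℕ} (c : Ir 2 E → ℂ) (hc : c ≠ 0) : qc P D c ≠ 0 := by
  intro h
  apply Cs_ne P D c hc
  have h1 := sh_neg_sh (lam P D) (Cs P D c)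
  unfold qc at h
  rw [h] at h1
  rw [← h1]
  unfold sh
  exact map_zero _

/-- V1b. PROOF. `Bp_deg`, `∑ j, κ j ≤ 2 (E - 1)`; a shift does not increase the degree. -/
theorem qc_deg (P : Par 2) (D : Dt 2) {E : ℕ} (c : Ir 2 E → ℂ) : (qc P D c).totalDegree ≤ 2 * (E - 1) := by
  unfold qc
  refine (sh_totalDegree _ _).trans ?_
  unfold Cs
  refine (totalDegree_finsetSum _ _).trans (Finset.sup_le fun κ _ => ?_)
  refine (totalDegree_mul _ _).trans ?_
  rw [totalDegree_C, zero_add]
  refine (Bp_deg _ _).trans ?_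
  rw [Fin.sum_univ_two]
  have h0 := (κ 0).isLt
  have h1 := (κ 1).isLt
  omega

theorem va01_tt (z : ℂ) (a : Fin 2 → ℂ) (l : Fin 3) :
    tt z a l = a 0 * tt z (Pi.single 0 1) l + a 1 * tt z (Pi.single 1 1) l := by
  have h : a = fun j => (fun j => a 0 * (Pi.single (M := fun _ => ℂ) 0 1 : Fin 2 → ℂ) j) j +
      (fun j => a 1 * (Pi.single (M := fun _ => ℂ) 1 1 : Fin 2 → ℂ) j) j := by
    funext j
    fin_cases j <;> simp
  conv_lhs => rw [h]
  rw [tt_add, tt_smul, tt_smul]

theorem va01_WV (P : Par 2) (D : Dt 2) (a : Fin 2 → ℂ) (j : Fin 2) :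
    WV P D a j = a 0 * eK P D 0 j + a 1 * eK P D 1 j := by
  unfold eK WV As
  rw [va01_tt P.z a j.succ, va01_tt P.z a j.castSucc, va01_tt P.z a (Fin.last 2)]
  ring

/-- V1c. PROOF. `Phi_X`, linearity: `Phi ((∑ a_i X_i) * p) q = lf A * Phi p q + ∑_j w_j Phi p (pderiv j q)`, `A = ∑ a_i Dv i = tt z a` and `w_j = ∑ a_i e_ij = WV a j` (linearity of `tt`, `WV`). -/
theorem Phi_lin (P : Par 2) (D : Dt 2) (a : Fin 2 → ℂ) (p q : Po ℂ) :
    Phi P D ((∑ i, C (a i) * X i) * p) q = lf (tt P.z a) * Phi P D p q + ∑ j, C (WV P D a j) * Phi P D p (pderiv j q) := by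
  have h1 : (∑ i : Fin 2, C (a i) * X i) * p = (a 0) • (X 0 * p) + (a 1) • (X 1 * p : Po ℂ) := by
    rw [Fin.sum_univ_two, MvPolynomial.smul_eq_C_mul, MvPolynomial.smul_eq_C_mul]
    ring
  rw [h1, map_add, LinearMap.add_apply, map_smul, map_smul, LinearMap.smul_apply, LinearMap.smul_apply, Phi_X, Phi_X]
  have h2 : lf (tt P.z a) = C (a 0) * lf (Dv P 0) + C (a 1) * lf (Dv P 1) := by
    unfold lf Dv
    rw [Finset.mul_sum, Finset.mul_sum, ← Finset.sum_add_distrib]
    refine Finset.sum_congr rfl fun l _ => ?_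
    rw [va01_tt, map_add, map_mul, map_mul]
    ring
  have h3 : ∀ j, (C (WV P D a j) : MvPolynomial (Fin 3) ℂ) = C (a 0) * C (eK P D 0 j) + C (a 1) * C (eK P D 1 j) := by
    intro j
    rw [va01_WV, map_add, map_mul, map_mul]
  rw [h2]
  simp only [h3, Fin.sum_univ_two, MvPolynomial.smul_eq_C_mul]
  ring

/-- the function of `link_deriv` -/
def v1_F (P : Par 2) (D : Dt 2) (a : Fin 2 → ℂ) (p0 : MvPolynomial (Fin 3) ℂ) (q : Po ℂ) (ζ : ℂ) : ℂ :=
  TH D (fun l => ζ * tt P.z a l) (p0 * aeval (fun j => C (ζ * WV P D a j) + lf (Zv P D j)) q)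

theorem v1_zero (P : Par 2) (D : Dt 2) (a : Fin 2 → ℂ) (p0 : MvPolynomial (Fin 3) ℂ) (ζ : ℂ) : v1_F P D a p0 0 ζ = 0 := by
  unfold v1_F TH
  rw [map_zero, mul_zero, support_zero, Finset.sum_empty]

theorem v1_add (P : Par 2) (D : Dt 2) (a : Fin 2 → ℂ) (p0 : MvPolynomial (Fin 3) ℂ) (p q : Po ℂ) (ζ : ℂ) :
    v1_F P D a p0 (p + q) ζ = v1_F P D a p0 p ζ + v1_F P D a p0 q ζ := by
  unfold v1_F
  rw [map_add, mul_add, TH_add]

theorem v1_mul (P : Par 2) (D : Dt 2) (a : Fin 2 → ℂ) (p0 : MvPolynomial (Fin 3) ℂ) (p : Po ℂ) (i : Fin 2) (ζ : ℂ) :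
    v1_F P D a p0 (p * X i) ζ = ζ * WV P D a i * v1_F P D a p0 p ζ + v1_F P D a (p0 * lf (Zv P D i)) p ζ := by
  unfold v1_F
  rw [map_mul, aeval_X, ← TH_C_mul, ← TH_add]
  have e : p0 * (aeval (fun j => C (ζ * WV P D a j) + lf (Zv P D j)) p * (C (ζ * WV P D a i) + lf (Zv P D i))) =
      C (ζ * WV P D a i) * (p0 * aeval (fun j => C (ζ * WV P D a j) + lf (Zv P D j)) p) +
        p0 * lf (Zv P D i) * aeval (fun j => C (ζ * WV P D a j) + lf (Zv P D j)) p := by
    ring
  rw [e]

theorem v1_ite (P : Par 2) (D : Dt 2) (a : Fin 2 → ℂ) (p0 : MvPolynomial (Fin 3) ℂ) (p : Po ℂ) (i j : Fin 2) (ζ : ℂ) :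
    v1_F P D a p0 (if j = i then p else 0) ζ = if j = i then v1_F P D a p0 p ζ else 0 := by
  by_cases hk : j = i
  · rw [if_pos hk, if_pos hk]
  · rw [if_neg hk, if_neg hk, v1_zero]

theorem v1_pd (P : Par 2) (D : Dt 2) (a : Fin 2 → ℂ) (p0 : MvPolynomial (Fin 3) ℂ) (p : Po ℂ) (i j : Fin 2) (ζ : ℂ) :
    v1_F P D a p0 (pderiv j (p * X i)) ζ =
        (ζ * WV P D a i * v1_F P D a p0 (pderiv j p) ζ + v1_F P D a (p0 * lf (Zv P D i)) (pderiv j p) ζ) +
          if j = i then v1_F P D a p0 p ζ else 0 := by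
  have e3 : pderiv j (p * X i) = pderiv j p * X i + if j = i then p else 0 := by
    rw [Derivation.leibniz, smul_eq_mul, smul_eq_mul, pderiv_X]
    by_cases hk : j = i
    · rw [if_pos hk, hk, Pi.single_eq_same]
      ring
    · rw [if_neg hk, Pi.single_eq_of_ne (Ne.symm hk)]
      ring
  rw [e3, v1_add, v1_mul, v1_ite]

theorem v1_sum (P : Par 2) (D : Dt 2) (a : Fin 2 → ℂ) (p0 : MvPolynomial (Fin 3) ℂ) (p : Po ℂ) (i : Fin 2) (ζ : ℂ) :
    ∑ j, WV P D a j * v1_F P D a p0 (pderiv j (p * X i)) ζ =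
        ζ * WV P D a i * (∑ j, WV P D a j * v1_F P D a p0 (pderiv j p) ζ) +
          (∑ j, WV P D a j * v1_F P D a (p0 * lf (Zv P D i)) (pderiv j p) ζ) + WV P D a i * v1_F P D a p0 p ζ := by
  have e7 : ∀ j, WV P D a j * v1_F P D a p0 (pderiv j (p * X i)) ζ =
      ζ * WV P D a i * (WV P D a j * v1_F P D a p0 (pderiv j p) ζ) +
        WV P D a j * v1_F P D a (p0 * lf (Zv P D i)) (pderiv j p) ζ + if j = i then WV P D a j * v1_F P D a p0 p ζ else 0 := by
    intro j
    rw [v1_pd]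
    by_cases hk : j = i
    · rw [if_pos hk, if_pos hk]
      ring
    · rw [if_neg hk, if_neg hk]
      ring
  rw [Finset.sum_congr rfl fun j _ => e7 j, Finset.sum_add_distrib, Finset.sum_add_distrib,
    Finset.sum_ite_eq' Finset.univ i, if_pos (Finset.mem_univ i), Finset.mul_sum]

theorem v1_gen (P : Par 2) (D : Dt 2) (a : Fin 2 → ℂ) (q : Po ℂ) (ζ : ℂ) : ∀ p0 : MvPolynomial (Fin 3) ℂ,
    HasDerivAt (v1_F P D a p0 q) (v1_F P D a (lf (tt P.z a) * p0) q ζ + ∑ j, WV P D a j * v1_F P D a p0 (pderiv j q) ζ) ζ := by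
  classical
  induction q using MvPolynomial.induction_on with
  | C c =>
    intro p0
    have h1 := TH_line D (fun _ => 0) (tt P.z a) (p0 * C c) ζ
    have e0 : ∀ s : ℂ, (fun l => (fun _ => (0 : ℂ)) l + s * tt P.z a l) = fun l => s * tt P.z a l := by
      intro s
      funext l
      exact zero_add _
    simp only [e0] at h1
    have e1 : ∀ p : MvPolynomial (Fin 3) ℂ, v1_F P D a p (C c) = fun s : ℂ => TH D (fun l => s * tt P.z a l) (p * C c) := by
      intro p
      funext s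
      unfold v1_F
      rw [aeval_C]
      rfl
    have e2 : ∑ j, WV P D a j * v1_F P D a p0 (pderiv j (C c)) ζ = 0 := by
      refine Finset.sum_eq_zero fun j _ => ?_
      unfold v1_F
      rw [pderiv_C, map_zero, mul_zero]
      unfold TH
      rw [support_zero, Finset.sum_empty, mul_zero]
    rw [e2, add_zero, e1, e1]
    have e3 : lf (tt P.z a) * p0 * C c = (∑ l, C (tt P.z a l) * X l) * (p0 * C c) := by
      unfold lf
      rw [mul_assoc]
    simp only [e3]
    exact h1
  | add p q hp hq =>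
    intro p0
    have h1 := (hp p0).fun_add (hq p0)
    have e1 : ∀ p', v1_F P D a p' (p + q) = fun t => v1_F P D a p' p t + v1_F P D a p' q t := by
      intro p'
      funext t
      exact v1_add P D a p' p q t
    have e2 : ∑ j, WV P D a j * v1_F P D a p0 (pderiv j (p + q)) ζ =
        (∑ j, WV P D a j * v1_F P D a p0 (pderiv j p) ζ) + ∑ j, WV P D a j * v1_F P D a p0 (pderiv j q) ζ := by
      rw [← Finset.sum_add_distrib]
      refine Finset.sum_congr rfl fun j _ => ?_
      rw [map_add, v1_add, mul_add]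
    rw [e2, e1, e1]
    have e3 : ∀ x y z w : ℂ, x + y + (z + w) = x + z + (y + w) := fun x y z w => by ring
    rw [e3]
    exact h1
  | mul_X p i hp =>
    intro p0
    have e1 : v1_F P D a p0 (p * X i) = fun t => t * WV P D a i * v1_F P D a p0 p t + v1_F P D a (p0 * lf (Zv P D i)) p t := by
      funext t
      exact v1_mul P D a p0 p i t
    have h3 : HasDerivAt (fun t : ℂ => t * WV P D a i) (WV P D a i) ζ := by
      have h := (hasDerivAt_id ζ).mul_const (WV P D a i)
      rw [one_mul] at h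
      exact h
    have h4 := (h3.fun_mul (hp p0)).fun_add (hp (p0 * lf (Zv P D i)))
    rw [v1_sum, v1_mul, e1, mul_assoc (lf (tt P.z a)) p0]
    refine h4.congr_deriv ?_
    ring

theorem v1_diff (P : Par 2) (D : Dt 2) (a : Fin 2 → ℂ) (p0 : MvPolynomial (Fin 3) ℂ) (q : Po ℂ) : Differentiable ℂ (v1_F P D a p0 q) :=
  fun ζ => (v1_gen P D a q ζ p0).differentiableAt

theorem v1_iter (P : Par 2) (D : Dt 2) (a : Fin 2 → ℂ) (k : ℕ) : ∀ (p0 : MvPolynomial (Fin 3) ℂ) (q : Po ℂ),
    iteratedDeriv k (v1_F P D a p0 q) 0 = TH D (fun _ => 0) (p0 * Phi P D ((∑ i, C (a i) * X i) ^ k) q) := by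
  induction k with
  | zero =>
    intro p0 q
    rw [iteratedDeriv_zero, pow_zero, Phi_one]
    unfold v1_F
    have e1 : (fun l => (0 : ℂ) * tt P.z a l) = fun _ => 0 := by
      funext l
      exact zero_mul _
    have e2 : (fun j => C (0 * WV P D a j) + lf (Zv P D j)) = fun j => lf (Zv P D j) := by
      funext j
      rw [zero_mul, C_0, zero_add]
    rw [e1, e2]
  | succ k ih =>
    intro p0 q
    have e1 : deriv (v1_F P D a p0 q) =
        v1_F P D a (lf (tt P.z a) * p0) q + ∑ j, (fun t => WV P D a j * v1_F P D a p0 (pderiv j q) t) := by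
      funext ζ
      rw [(v1_gen P D a q ζ p0).deriv, Pi.add_apply, Finset.sum_apply]
    have hc : ∀ (p : MvPolynomial (Fin 3) ℂ) (r : Po ℂ), ContDiff ℂ k (v1_F P D a p r) := fun p r => (v1_diff P D a p r).contDiff
    have hc2 : ∀ j, ContDiff ℂ k (fun t => WV P D a j * v1_F P D a p0 (pderiv j q) t) := fun j => contDiff_const.mul (hc _ _)
    have hs : ∀ f g : ℂ → ℂ, ContDiff ℂ k f → ContDiff ℂ k g → iteratedDeriv k (f + g) 0 = iteratedDeriv k f 0 + iteratedDeriv k g 0 :=
      fun f g hf hg => iteratedDeriv_add hf.contDiffAt hg.contDiffAt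
    have hm : ∀ j, iteratedDeriv k (fun t => WV P D a j * v1_F P D a p0 (pderiv j q) t) 0 =
        TH D (fun _ => 0) (C (WV P D a j) * (p0 * Phi P D ((∑ i, C (a i) * X i) ^ k) (pderiv j q))) := by
      intro j
      rw [TH_C_mul, ← ih]
      exact iteratedDeriv_const_mul _ (hc _ _).contDiffAt
    have hadd : ContDiff ℂ k ((fun t => WV P D a 0 * v1_F P D a p0 (pderiv 0 q) t) + fun t => WV P D a 1 * v1_F P D a p0 (pderiv 1 q) t) :=
      (hc2 0).add (hc2 1)
    rw [iteratedDeriv_succ', e1, Fin.sum_univ_two, hs _ _ (hc _ _) hadd, hs _ _ (hc2 0) (hc2 1), hm, hm, ih, ← TH_add, ← TH_add, pow_succ',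
      Phi_lin, Fin.sum_univ_two]
    have e2 : ∀ A B E F G H : MvPolynomial (Fin 3) ℂ, A * p0 * B + (E * (p0 * F) + G * (p0 * H)) = p0 * (A * B + (E * F + G * H)) := by
      intro A B E F G H
      ring
    rw [e2]
    simp only [Fin.sum_univ_two]

theorem v1_tt (z ζ : ℂ) (v : Fin 2 → ℂ) (l : Fin 3) : tt z (fun j => ζ * v j) l = ζ * tt z v l := by
  unfold tt
  refine Fin.cases ?_ (fun j => ?_) l
  · rw [Fin.cons_zero, Fin.cons_zero, mul_neg, Finset.mul_sum]
    congr 1
    exact Finset.sum_congr rfl fun j _ => by ring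
  · rw [Fin.cons_succ, Fin.cons_succ]

theorem v1_lin (P : Par 2) (D : Dt 2) (W : Fin 2 → ℂ) (j : Fin 2) : MSR.lin P D W j = C (W j + lam P D j) + lf (Zv P D j) := by
  unfold MSR.lin lf Zv
  rw [sub_eq_add_neg, Finset.mul_sum, ← Finset.sum_neg_distrib]
  congr 1
  refine Finset.sum_congr rfl fun l _ => ?_
  rw [map_neg, map_mul]
  ring

/-- V1d. PROOF. `q(s) ↦ TH D (ζ A) (p0 * q(ζ w + Z(T)))`; derivative in `ζ`: `TH_line` for the argument of `TH` (it gives the factor `lf A`), and the chain rule for the coefficients `ζ w_j` (linearity of `TH`, e.g. by induction on `q`). -/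
theorem link_deriv (P : Par 2) (D : Dt 2) (a : Fin 2 → ℂ) (p0 : MvPolynomial (Fin 3) ℂ) (q : Po ℂ) (ζ : ℂ) :
    HasDerivAt (fun ζ : ℂ => TH D (fun l => ζ * tt P.z a l) (p0 * aeval (fun j => C (ζ * WV P D a j) + lf (Zv P D j)) q))
      (TH D (fun l => ζ * tt P.z a l) (lf (tt P.z a) * p0 * aeval (fun j => C (ζ * WV P D a j) + lf (Zv P D j)) q) +
        ∑ j, WV P D a j * TH D (fun l => ζ * tt P.z a l) (p0 * aeval (fun j => C (ζ * WV P D a j) + lf (Zv P D j)) (pderiv j q))) ζ := v1_gen P D a q ζ p0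

/-- V1e. PROOF. Induction on `k`, for all `p0, q`, from `link_deriv`, `Phi_lin`, `Phi_one`. -/
theorem link_iter (P : Par 2) (D : Dt 2) (a : Fin 2 → ℂ) (k : ℕ) (p0 : MvPolynomial (Fin 3) ℂ) (q : Po ℂ) :
    iteratedDeriv k (fun ζ : ℂ => TH D (fun l => ζ * tt P.z a l) (p0 * aeval (fun j => C (ζ * WV P D a j) + lf (Zv P D j)) q)) 0 =
      TH D (fun _ => 0) (p0 * Phi P D ((∑ i, C (a i) * X i) ^ k) q) := v1_iter P D a k p0 q

/-- V1f. PROOF. `GR P D c (ζ a) = TH D (ζ tt a) (aeval (lin P D (ζ WV a)) (Cs c))` (`tt`, `WV` are linear), `lin_j = C (ζ w_j + lam_j) + lf (Zv j)` and `aeval (.. + lam_j) (Cs c) = aeval (..) (qc c)`; `link_iter` with `p0 = 1`. -/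
theorem link (P : Par 2) (D : Dt 2) {E : ℕ} (c : Ir 2 E → ℂ) (a : Fin 2 → ℂ) (k : ℕ) :
    iteratedDeriv k (fun ζ : ℂ => GR P D c (fun j => ζ * a j)) 0 =
      TH D (fun _ => 0) (Phi P D ((∑ i, C (a i) * X i) ^ k) (qc P D c)) := by
  have h := link_iter P D a k 1 (qc P D c)
  rw [one_mul] at h
  rw [← h]
  congr 1
  funext ζ
  unfold GR
  have e1 : tt P.z (fun j => ζ * a j) = fun l => ζ * tt P.z a l := by
    funext l
    exact v1_tt _ _ _ _
  have e2 : ∀ j, WV P D (fun j => ζ * a j) j = ζ * WV P D a j := by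
    intro j
    unfold WV As
    rw [v1_tt, v1_tt, v1_tt]
    ring
  rw [e1, one_mul]
  congr 1
  have e3 : ∀ p : Po ℂ, aeval (MSR.lin P D (WV P D fun j => ζ * a j)) p =
      aeval (fun j => C (ζ * WV P D a j) + lf (Zv P D j)) (sh (lam P D) p) := by
    intro p
    have e4 : (aeval (MSR.lin P D (WV P D fun j => ζ * a j)) : Po ℂ →ₐ[ℂ] MvPolynomial (Fin 3) ℂ) =
        (aeval (fun j => C (ζ * WV P D a j) + lf (Zv P D j))).comp (aeval fun j => X j + C (lam P D j)) := by
      refine algHom_ext fun j => ?_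
      rw [AlgHom.comp_apply, aeval_X, aeval_X, map_add, aeval_X, aeval_C, v1_lin, e2]
      change _ = _ + C (lam P D j)
      rw [C_add]
      ring
    rw [e4]
    rfl
  exact e3 _

end Pool.Agent.MSU
end

end

section

/-! # U/X6_Point: the zero estimate at generic points -/

open Complex MvPolynomial

noncomputable section

namespace Pool.Agent.MSU

open MSD MSP MSK MSR

theorem xa08_rows {K : Type} [Field K] {ι ι' : Type} [Fintype ι] [DecidableEq ι] (A : ι' → ι → K)
    (h : ∀ c : ι → K, (∀ a, ∑ i, c i * A a i = 0) → c = 0) :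
    ∃ r : ι → ι', (Matrix.of fun i j => A (r i) j).det ≠ 0 := by
  classical
  have hspan : Submodule.span K (Set.range A) = ⊤ := by
    by_contra hne
    obtain ⟨f, hf0, hf⟩ := Submodule.exists_le_ker_of_lt_top _ (lt_top_iff_ne_top.2 hne)
    apply hf0
    have hc : (fun i => f (Pi.single i 1)) = 0 := by
      apply h
      intro a
      have h1 : f (A a) = 0 := hf (Submodule.subset_span ⟨a, rfl⟩)
      rw [← h1]
      conv_rhs => rw [show A a = ∑ i, A a i • (Pi.single i (1 : K) : ι → K) from by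
        funext j
        simp [Finset.sum_apply, Pi.single_apply]]
      rw [map_sum]
      refine Finset.sum_congr rfl fun i _ => ?_
      rw [map_smul, smul_eq_mul, mul_comm]
    refine LinearMap.pi_ext' fun i => LinearMap.ext_ring ?_
    exact congrFun hc i
  obtain ⟨κ, a, -, hs, hl⟩ := exists_linearIndependent' K A
  rw [hspan] at hs
  have b : Module.Basis κ K (ι → K) := Module.Basis.mk hl (by rw [hs])
  have e : ι ≃ κ := (Pi.basisFun K ι).indexEquiv b
  refine ⟨fun i => a (e i), ?_⟩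
  have h2 : LinearIndependent K (Matrix.of fun i j => A (a (e i)) j).row :=
    hl.comp e e.injective
  rw [Matrix.linearIndependent_rows_iff_isUnit, Matrix.isUnit_iff_isUnit_det] at h2
  exact h2.ne_zero

/-- evaluation at a point -/
def xa08_ev (t : Fin 3 → ℂ) : E3 →+* ℂ := (Pi.evalRingHom (fun _ : Fin 3 → ℂ => ℂ) t).comp
  (AnS.val : E3 →ₐ[ℂ] ((Fin 3 → ℂ) → ℂ)).toRingHom

/-- X6a. pure linear algebra. PROOF. The columns of the matrix are linearly independent over the field of fractions, so some square minor of size `card ι` is `≠ 0`; take `W` = this minor (an element of `E3`). At `t` with `W t ≠ 0` the minor of the evaluated matrix is `≠ 0` (evaluation at `t` is a ring homomorphism `E3 → ℂ`),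
so its columns are linearly independent. (Mathlib: `Matrix.rank`, `exists_submatrix...`; or: choose a subset `s` of the rows such that the restricted rows form a basis of the row space: `exists_linearIndependent` for the row vectors, which span `ι → M3`.) -/
theorem minor_exists {ι ι' : Type} [Fintype ι] [DecidableEq ι] [Fintype ι'] (m : ι' → ι → E3)
    (h : ∀ c : ι → M3, (∀ a, ∑ i, c i * em (m a i) = 0) → c = 0) :
    ∃ W : E3, W ≠ 0 ∧ ∀ t, (W : (Fin 3 → ℂ) → ℂ) t ≠ 0 → ∀ c : ι → ℂ, (∀ a, ∑ i, c i * (m a i : (Fin 3 → ℂ) → ℂ) t = 0) → c = 0 := by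
  obtain ⟨r, hr⟩ := xa08_rows (K := M3) (fun a i => em (m a i)) h
  refine ⟨(Matrix.of fun i j => m (r i) j).det, ?_, ?_⟩
  · intro h0
    apply hr
    have h1 : (Matrix.of fun i j => em (m (r i) j)) =
        (algebraMap E3 M3).mapMatrix (Matrix.of fun i j => m (r i) j) := by
      ext i j
      rfl
    rw [h1, ← RingHom.map_det, h0, map_zero]
  · intro t ht c hc
    have h2 : (xa08_ev t).mapMatrix (Matrix.of fun i j => m (r i) j) =
        Matrix.of fun i j => (m (r i) j : (Fin 3 → ℂ) → ℂ) t := by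
      ext i j
      rfl
    have h3 : (Matrix.of fun i j => (m (r i) j : (Fin 3 → ℂ) → ℂ) t).det ≠ 0 := by
      rw [← h2, ← RingHom.map_det]
      exact ht
    refine Matrix.eq_zero_of_mulVec_eq_zero h3 ?_
    funext i
    rw [Matrix.mulVec, dotProduct, Pi.zero_apply, ← hc (r i)]
    refine Finset.sum_congr rfl fun j _ => ?_
    rw [Matrix.of_apply, mul_comm]

/-- X6b. PROOF. `ι` = exponents `β` with `|β| ≤ b`, `ι'` = exponents `α` with `|α| ≤ 4b + 4` (finite types, e.g. subtypes of `Fin 2 →₀ ℕ` or pairs in `Fin _ × Fin _`), `m α β = TE D (Phi P D X^α X^β)`. `ker_exists` and `thmZ`: if `∑ c_β em (m α β) = 0` for all `|α| ≤ 4b + 4` then `q = ∑ c_β X^β ∈ Po M3` has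
`K.B (X^α) q = 0`, so `K.B P q = 0` for all `P` of degree `≤ 4b + 4`, `q = 0`. `minor_exists`. -/
theorem point (P : Par 2) (D : Dt 2) (b : ℕ) : ∃ W : E3, W ≠ 0 ∧ ∀ t, (W : (Fin 3 → ℂ) → ℂ) t ≠ 0 → ∀ q : Po ℂ, q.totalDegree ≤ b → q ≠ 0 →
    ∃ p : Po ℂ, p.totalDegree ≤ 4 * b + 4 ∧ (TE D (Phi P D p q) : (Fin 3 → ℂ) → ℂ) t ≠ 0 := by
  classical
  obtain ⟨K, hK⟩ := ker_exists P D
  have hfin : ∀ n : ℕ, Finite {β : Fin 2 →₀ ℕ // β.degree ≤ n} := fun n =>
    Set.finite_coe_iff.2 (Finsupp.finite_of_degree_le n)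
  have := Fintype.ofFinite {β : Fin 2 →₀ ℕ // β.degree ≤ b}
  have := Fintype.ofFinite {β : Fin 2 →₀ ℕ // β.degree ≤ 4 * b + 4}
  let m : {β : Fin 2 →₀ ℕ // β.degree ≤ 4 * b + 4} → {β : Fin 2 →₀ ℕ // β.degree ≤ b} → E3 :=
    fun α β => TE D (Phi P D (monomial α.1 1) (monomial β.1 1))
  have hm : ∀ α β, K.B (monomial α.1 1) (monomial β.1 1) = em (m α β) := by
    intro α β
    have h1 := hK (monomial α.1 1) (monomial β.1 1)
    rwa [ofC, ofC, map_monomial, map_monomial, map_one] at h1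
  -- expansions
  have hexp : ∀ (R : Type) [Field R] (n : ℕ) [Fintype {β : Fin 2 →₀ ℕ // β.degree ≤ n}] (q : Po R),
      q.totalDegree ≤ n → q = ∑ β : {β : Fin 2 →₀ ℕ // β.degree ≤ n}, q.coeff β.1 • monomial β.1 (1 : R) := by
    intro R _ n _ q hq
    ext s
    rw [coeff_sum]
    simp only [coeff_smul, coeff_monomial, smul_eq_mul]
    by_cases hs : s.degree ≤ n
    · rw [Finset.sum_eq_single ⟨s, hs⟩]
      · simp
      · intro β _ hβ
        rw [if_neg, mul_zero]
        intro h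
        exact hβ (Subtype.ext h)
      · intro h
        exact absurd (Finset.mem_univ _) h
    · rw [Finset.sum_eq_zero]
      · by_contra h
        have h2 := le_totalDegree (mem_support_iff.2 h)
        have h3 : s.degree ≤ q.totalDegree := h2
        omega
      · intro β _
        rw [if_neg, mul_zero]
        intro h
        exact hs (h ▸ β.2)
  have hdeg : ∀ (R : Type) [Field R] (n : ℕ) [Fintype {β : Fin 2 →₀ ℕ // β.degree ≤ n}]
      (c : {β : Fin 2 →₀ ℕ // β.degree ≤ n} → R),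
      (∑ β, c β • monomial β.1 (1 : R) : Po R).totalDegree ≤ n := by
    intro R _ n _ c
    refine totalDegree_finsetSum_le fun β _ => (totalDegree_smul_le _ _).trans ?_
    exact (totalDegree_monomial_le _ _).trans β.2
  have hcoeff : ∀ (R : Type) [Field R] (n : ℕ) [Fintype {β : Fin 2 →₀ ℕ // β.degree ≤ n}]
      (c : {β : Fin 2 →₀ ℕ // β.degree ≤ n} → R) (i : {β : Fin 2 →₀ ℕ // β.degree ≤ n}),
      (∑ β, c β • monomial β.1 (1 : R) : Po R).coeff i.1 = c i := by
    intro R _ n _ c i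
    rw [coeff_sum, Finset.sum_eq_single i]
    · simp
    · intro β _ hβ
      rw [coeff_smul, coeff_monomial, if_neg, smul_zero]
      intro h
      exact hβ (Subtype.ext h)
    · intro h
      exact absurd (Finset.mem_univ _) h
  obtain ⟨W, hW, hW2⟩ := minor_exists m (by
    intro c hc
    have hq : (∑ β, c β • monomial β.1 (1 : M3) : Po M3) = 0 := by
      refine thmZ K b _ (hdeg M3 b c) fun Q hQ => ?_
      have e1 : K.B Q = ∑ α : {β : Fin 2 →₀ ℕ // β.degree ≤ 4 * b + 4}, Q.coeff α.1 • K.B (monomial α.1 1) := by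
        conv_lhs => rw [hexp M3 (4 * b + 4) Q hQ]
        rw [map_sum K.B]
        exact Finset.sum_congr rfl fun α _ => map_smul K.B _ _
      rw [e1, LinearMap.sum_apply]
      refine Finset.sum_eq_zero fun α _ => ?_
      rw [LinearMap.smul_apply, map_sum]
      have h1 : ∑ β, K.B (monomial α.1 1) (c β • monomial β.1 (1 : M3)) = 0 := by
        rw [← hc α]
        refine Finset.sum_congr rfl fun β _ => ?_
        rw [map_smul, hm, smul_eq_mul]
      rw [h1, smul_zero]
    funext i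
    have h2 := hcoeff M3 b c i
    rw [hq, coeff_zero] at h2
    exact h2.symm)
  refine ⟨W, hW, fun t ht q hqd hq0 => ?_⟩
  by_contra hcon
  push Not at hcon
  refine hq0 ?_
  have hc0 : (fun β : {β : Fin 2 →₀ ℕ // β.degree ≤ b} => q.coeff β.1) = 0 := by
    refine hW2 t ht _ fun α => ?_
    have h1 := hcon (monomial α.1 1) ((totalDegree_monomial_le _ _).trans α.2)
    have h2 : TE D (Phi P D (monomial α.1 1) q) = ∑ β : {β : Fin 2 →₀ ℕ // β.degree ≤ b}, q.coeff β.1 • m α β := by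
      apply em_inj
      rw [← hK]
      have h3 : ofC q = ∑ β : {β : Fin 2 →₀ ℕ // β.degree ≤ b}, algebraMap ℂ M3 (q.coeff β.1) • monomial β.1 (1 : M3) := by
        conv_lhs => rw [hexp ℂ b q hqd]
        rw [ofC, map_sum]
        refine Finset.sum_congr rfl fun β _ => ?_
        rw [smul_eq_C_mul, smul_eq_C_mul, map_mul, map_C, map_monomial, map_one]
      rw [h3, map_sum]
      have h4 : em (∑ β : {β : Fin 2 →₀ ℕ // β.degree ≤ b}, q.coeff β.1 • m α β) =
          ∑ β : {β : Fin 2 →₀ ℕ // β.degree ≤ b}, em (q.coeff β.1 • m α β) := map_sum (algebraMap E3 M3) _ _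
      rw [h4]
      refine Finset.sum_congr rfl fun β _ => ?_
      have h5 : ofC (monomial α.1 (1 : ℂ)) = monomial α.1 (1 : M3) := by
        rw [ofC, map_monomial, map_one]
      rw [map_smul, h5, hm, smul_eq_mul, Algebra.smul_def, ← em_C]
      exact (map_mul (algebraMap E3 M3) _ _).symm
    rw [h2] at h1
    rw [← h1]
    have h6 : ∀ (s : Finset {β : Fin 2 →₀ ℕ // β.degree ≤ b}) (f : {β : Fin 2 →₀ ℕ // β.degree ≤ b} → E3),
        ((∑ β ∈ s, f β : E3) : (Fin 3 → ℂ) → ℂ) t = ∑ β ∈ s, (f β : (Fin 3 → ℂ) → ℂ) t := by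
      intro s f
      induction s using Finset.induction_on with
      | empty => rfl
      | insert a s ha ih =>
        rw [Finset.sum_insert ha, Finset.sum_insert ha, ← ih]
        rfl
    rw [h6]
    rfl
  rw [hexp ℂ b q hqd]
  refine Finset.sum_eq_zero fun β _ => ?_
  have h7 := congrFun hc0 β
  rw [show q.coeff β.1 = 0 from h7, zero_smul]

end Pool.Agent.MSU
end

end
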