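import Mathlib

section

/-! # U/D7_Det: a determinant estimate from subspaces on which the rows are small -/

noncomputable section

namespace Pool.Agent.MSU

/-- Insertion of a zero coordinate as a linear map. -/
def d7_ins {n : ℕ} (j : Fin (n + 1)) : (Fin n → ℂ) →ₗ[ℂ] (Fin (n + 1) → ℂ) where
  toFun c := fun κ => (Fin.insertNth (α := fun _ => ℂ) j (0 : ℂ) c) κ
  map_add' a b := by
    funext κ
    refine Fin.succAboveCases j ?_ (fun i => ?_) κ
    · simp
    · simp
  map_smul' r a := by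
    funext κ
    refine Fin.succAboveCases j ?_ (fun i => ?_) κ
    · simp
    · simp

theorem d7_ins_same {n : ℕ} (j : Fin (n + 1)) (c : Fin n → ℂ) : d7_ins j c j = 0 := by
  simp [d7_ins]

theorem d7_ins_succ {n : ℕ} (j : Fin (n + 1)) (c : Fin n → ℂ) (i : Fin n) :
    d7_ins j c (j.succAbove i) = c i := by
  simp [d7_ins]

theorem d7_ins_inj {n : ℕ} (j : Fin (n + 1)) : Function.Injective (d7_ins j) := by
  intro a b hab
  funext i
  rw [← d7_ins_succ j a i, ← d7_ins_succ j b i, hab]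

theorem d7_finrank {n : ℕ} (j : Fin (n + 1)) (U : Submodule ℂ (Fin (n + 1) → ℂ)) :
    Module.finrank ℂ U ≤ Module.finrank ℂ (U.comap (d7_ins j)) + 1 := by
  have h1 := (Submodule.equivMapOfInjective (d7_ins j) (d7_ins_inj j) (U.comap (d7_ins j))).finrank_eq
  rw [Submodule.map_comap_eq] at h1
  have h2 := Submodule.finrank_sup_add_finrank_inf_eq (LinearMap.range (d7_ins j)) U
  have h3 := LinearMap.finrank_range_of_inj (d7_ins_inj j)
  have h4 := Submodule.finrank_le (LinearMap.range (d7_ins j) ⊔ U)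
  rw [Module.finrank_fin_fun] at h3 h4
  omega

/-- D7. PROOF. Induction on `n`. `n = 0`: `det = 1`. Step `n + 1`: the subspace `U` for `k = n` has dimension `≥ 1`; take `c ∈ U`, `c ≠ 0`, divide by the coordinate of maximal norm: `c j₀ = 1`, `‖c κ‖ ≤ 1`. `Matrix.det_updateCol_sum`: the matrix `A'` with column `j₀` replaced by `i ↦ ∑ κ, A i κ * c κ`
has the determinant `c j₀ * det A = det A`. Expand along the column `j₀` (`Matrix.det_succ_column`): `‖det A‖ ≤ ∑ i, ε n * ‖det (A.submatrix i.succAbove j₀.succAbove)‖`. The minors satisfy the hypothesis for `n` and the same `ε`: for `k < n` take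
`U' = {c' : Fin n → ℂ | insert 0 at j₀ is in U_k}` (comap of `U_k` under the linear map `Fin.insertNth j₀ 0` resp. `LinearMap`); it is isomorphic to `U_k ∩ {c : c j₀ = 0}`, of dimension `≥ (n + 1 - k) - 1`. So each minor is `≤ n! ∏_(k < n) ε k`. -/
theorem det_flag (n : ℕ) (A : Matrix (Fin n) (Fin n) ℂ) (ε : ℕ → ℝ) (hε : ∀ k < n, 0 ≤ ε k)
    (h : ∀ k < n, ∃ U : Submodule ℂ (Fin n → ℂ), n ≤ Module.finrank ℂ U + k ∧ ∀ c ∈ U, (∀ κ, ‖c κ‖ ≤ 1) → ∀ i, ‖∑ κ, A i κ * c κ‖ ≤ ε k) :
    ‖A.det‖ ≤ n.factorial * ∏ k ∈ Finset.range n, ε k := by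
  induction n with
  | zero => simp
  | succ n ih =>
    obtain ⟨U, hU1, hU2⟩ := h n (Nat.lt_succ_self n)
    have hpos : 0 < Module.finrank ℂ U := by omega
    have hne : U ≠ ⊥ := by
      rintro rfl
      simp at hpos
    obtain ⟨c, hcU, hc0⟩ := Submodule.exists_mem_ne_zero_of_ne_bot hne
    obtain ⟨j, hj⟩ := Finite.exists_max fun κ => ‖c κ‖
    have hcj : c j ≠ 0 := by
      intro h0
      apply hc0
      funext κ
      have := hj κ
      rw [h0, norm_zero] at this
      exact norm_le_zero_iff.1 this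
    set b : Fin (n + 1) → ℂ := (c j)⁻¹ • c with hb
    have hbU : b ∈ U := U.smul_mem _ hcU
    have hbj : b j = 1 := by
      rw [hb, Pi.smul_apply, smul_eq_mul, inv_mul_cancel₀ hcj]
    have hb1 : ∀ κ, ‖b κ‖ ≤ 1 := by
      intro κ
      rw [hb, Pi.smul_apply, smul_eq_mul, norm_mul, norm_inv, inv_mul_eq_div]
      exact div_le_one_of_le₀ (hj κ) (norm_nonneg _)
    have hdet : A.det = (A.updateCol j (fun k => ∑ i, b i • A k i)).det := by
      rw [Matrix.det_updateCol_sum, hbj, one_smul]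
    have hminor : ∀ i : Fin (n + 1), ‖(A.submatrix i.succAbove j.succAbove).det‖ ≤
        n.factorial * ∏ k ∈ Finset.range n, ε k := by
      intro i
      refine ih _ (fun k hk => hε k (by omega)) fun k hk => ?_
      obtain ⟨U', hU'1, hU'2⟩ := h k (by omega)
      refine ⟨U'.comap (d7_ins j), ?_, fun c' hc' hc'1 i' => ?_⟩
      · have := d7_finrank j U'
        omega
      · have h1 := hU'2 (d7_ins j c') hc' (fun κ => ?_) (i.succAbove i')
        · rw [Fin.sum_univ_succAbove _ j, d7_ins_same, mul_zero, zero_add] at h1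
          simp only [d7_ins_succ] at h1
          exact h1
        · refine Fin.succAboveCases j ?_ (fun i => ?_) κ
          · rw [d7_ins_same, norm_zero]
            exact zero_le_one
          · rw [d7_ins_succ]
            exact hc'1 i
    have hεn : 0 ≤ ε n := hε n (Nat.lt_succ_self n)
    rw [hdet, Matrix.det_succ_column _ j]
    have hterm : ∀ i : Fin (n + 1), ‖(-1 : ℂ) ^ ((i : ℕ) + (j : ℕ)) *
        (A.updateCol j (fun k => ∑ i, b i • A k i)) i j *
        ((A.updateCol j (fun k => ∑ i, b i • A k i)).submatrix i.succAbove j.succAbove).det‖ ≤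
        ε n * (n.factorial * ∏ k ∈ Finset.range n, ε k) := by
      intro i
      rw [norm_mul, norm_mul, norm_pow, norm_neg, norm_one, one_pow, one_mul,
        Matrix.submatrix_updateCol_succAbove, Matrix.updateCol_self]
      refine mul_le_mul ?_ (hminor i) (norm_nonneg _) hεn
      have h1 := hU2 b hbU hb1 i
      have h2 : ∑ κ, A i κ * b κ = ∑ κ, b κ • A i κ :=
        Finset.sum_congr rfl fun κ _ => by rw [smul_eq_mul, mul_comm]
      rwa [h2] at h1
    refine (norm_sum_le _ _).trans ((Finset.sum_le_sum fun i _ => hterm i).trans ?_)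
    rw [Finset.sum_const, Finset.card_univ, Fintype.card_fin, nsmul_eq_mul, Finset.prod_range_succ,
      Nat.factorial_succ]
    push_cast
    exact le_of_eq (by ring)

/-- D7. PROOF. Reindex `det_flag` by an equivalence `ι ≃ Fin n` (`Matrix.det_reindex_self` / `Matrix.det_submatrix_equiv_self`, `Submodule.comap/map` along `LinearEquiv.funCongrLeft`). -/
theorem det_flag' {ι : Type} [Fintype ι] [DecidableEq ι] (n : ℕ) (hn : Fintype.card ι = n) (A : Matrix ι ι ℂ) (ε : ℕ → ℝ) (hε : ∀ k < n, 0 ≤ ε k)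
    (h : ∀ k < n, ∃ U : Submodule ℂ (ι → ℂ), n ≤ Module.finrank ℂ U + k ∧ ∀ c ∈ U, (∀ κ, ‖c κ‖ ≤ 1) → ∀ i, ‖∑ κ, A i κ * c κ‖ ≤ ε k) :
    ‖A.det‖ ≤ n.factorial * ∏ k ∈ Finset.range n, ε k := by
  obtain e : ι ≃ Fin n := Fintype.equivFinOfCardEq hn
  rw [← Matrix.det_submatrix_equiv_self e.symm A]
  refine det_flag n _ ε hε fun k hk => ?_
  obtain ⟨U, hU1, hU2⟩ := h k hk
  refine ⟨U.map (LinearEquiv.funCongrLeft ℂ ℂ e.symm).toLinearMap, ?_, ?_⟩
  · rw [LinearEquiv.finrank_map_eq]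
    exact hU1
  · rintro c ⟨u, hu, rfl⟩ hc i
    have h1 : ∀ κ, ‖u κ‖ ≤ 1 := by
      intro κ
      have := hc (e κ)
      simpa [LinearEquiv.funCongrLeft_apply, LinearMap.funLeft_apply] using this
    have h2 := hU2 u hu h1 (e.symm i)
    rw [← Equiv.sum_comp e.symm] at h2
    exact h2

end Pool.Agent.MSU
end

end

section

/-! # U/V4_Sign: product over the signs -/

open MvPolynomial

noncomputable section

namespace Pool.Agent.MSU

/-- the sign change of the second set of variables -/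
def sg3 (ε : Fin 3 → Bool) (y : Fin 3 → ℂ) : Fin 3 → ℂ := fun l => if ε l then y l else -y l

/-- the diagonal substitution -/
def va05_t (c : Fin 3 ⊕ Fin 3 → ℂ) : MvPolynomial (Fin 3 ⊕ Fin 3) ℂ →ₐ[ℂ] MvPolynomial (Fin 3 ⊕ Fin 3) ℂ :=
  aeval fun s => C (c s) * X s

theorem va05_coeff (c : Fin 3 ⊕ Fin 3 → ℂ) (p : MvPolynomial (Fin 3 ⊕ Fin 3) ℂ)
    (m : Fin 3 ⊕ Fin 3 →₀ ℕ) : coeff m (va05_t c p) = (∏ s, c s ^ m s) * coeff m p := by
  induction p using MvPolynomial.induction_on' with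
  | add p q hp hq => rw [map_add, coeff_add, coeff_add, hp, hq, mul_add]
  | monomial a b =>
    rw [va05_t, aeval_monomial, Finsupp.prod_fintype _ _ (fun i => pow_zero _)]
    simp only [mul_pow, Finset.prod_mul_distrib]
    rw [algebraMap_eq]
    have h1 : (∏ x, (C (c x) : MvPolynomial (Fin 3 ⊕ Fin 3) ℂ) ^ a x) = C (∏ x, c x ^ a x) := by
      rw [map_prod]
      simp only [map_pow]
    have h2 : (∏ x, (X x : MvPolynomial (Fin 3 ⊕ Fin 3) ℂ) ^ a x) = monomial a 1 := by
      rw [monomial_eq, C_1, one_mul, Finsupp.prod_fintype _ _ (fun i => pow_zero _)]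
    rw [h1, h2, coeff_C_mul, coeff_C_mul, coeff_monomial, coeff_monomial]
    by_cases h : a = m
    · subst h
      simp only [if_true]
      ring
    · simp only [if_neg h, mul_zero]

theorem va05_deg (c : Fin 3 ⊕ Fin 3 → ℂ) (p : MvPolynomial (Fin 3 ⊕ Fin 3) ℂ) :
    (va05_t c p).totalDegree ≤ p.totalDegree := by
  refine totalDegree_le_of_support_subset fun m hm => ?_
  rw [mem_support_iff] at hm ⊢
  intro h
  apply hm
  rw [va05_coeff, h, mul_zero]

theorem va05_aeval (c : Fin 3 ⊕ Fin 3 → ℂ) (p : MvPolynomial (Fin 3 ⊕ Fin 3) ℂ)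
    (v : Fin 3 ⊕ Fin 3 → ℂ) : aeval v (va05_t c p) = aeval (fun s => c s * v s) p := by
  have h : (aeval v).comp (va05_t c) = aeval (fun s => c s * v s) := by
    refine MvPolynomial.algHom_ext fun s => ?_
    rw [AlgHom.comp_apply, va05_t, aeval_X, map_mul, aeval_C, aeval_X, aeval_X]
    rfl
  exact congrArg (fun f : MvPolynomial (Fin 3 ⊕ Fin 3) ℂ →ₐ[ℂ] ℂ => f p) h

theorem va05_comp (c d : Fin 3 ⊕ Fin 3 → ℂ) (p : MvPolynomial (Fin 3 ⊕ Fin 3) ℂ) :
    va05_t c (va05_t d p) = va05_t (fun s => c s * d s) p := by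
  ext m
  rw [va05_coeff, va05_coeff, va05_coeff]
  simp only [mul_pow, Finset.prod_mul_distrib]
  ring

/-- the signs -/
def va05_e (ε : Fin 3 → Bool) : Fin 3 ⊕ Fin 3 → ℂ := Sum.elim (fun _ => 1) fun l => if ε l then 1 else -1

/-- the sign change of one variable -/
def va05_f (l : Fin 3) : Fin 3 ⊕ Fin 3 → ℂ := fun s => if s = Sum.inr l then -1 else 1

theorem va05_fe (l : Fin 3) (ε : Fin 3 → Bool) :
    (fun s => va05_f l s * va05_e ε s) = va05_e (Function.update ε l (!ε l)) := by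
  funext s
  rcases s with i | i
  · simp [va05_f, va05_e]
  · by_cases h : i = l
    · subst h
      cases hε : ε i <;> simp [va05_f, va05_e, hε]
    · simp [va05_f, va05_e, h]

/-- the product over the signs -/
def va05_p (δ : MvPolynomial (Fin 3 ⊕ Fin 3) ℂ) : MvPolynomial (Fin 3 ⊕ Fin 3) ℂ :=
  ∏ ε : Fin 3 → Bool, va05_t (va05_e ε) δ

theorem va05_inv (δ : MvPolynomial (Fin 3 ⊕ Fin 3) ℂ) (l : Fin 3) :
    va05_t (va05_f l) (va05_p δ) = va05_p δ := by
  rw [va05_p, map_prod]
  simp only [va05_comp, va05_fe]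
  refine Finset.prod_bij (fun ε _ => Function.update ε l (!ε l)) (fun _ _ => Finset.mem_univ _)
    ?_ ?_ (fun _ _ => rfl)
  · intro a _ b _ h
    have h1 := congrArg (fun ε : Fin 3 → Bool => Function.update ε l (!ε l)) h
    simpa using h1
  · intro b _
    exact ⟨Function.update b l (!b l), Finset.mem_univ _, by simp⟩

theorem va05_even (δ : MvPolynomial (Fin 3 ⊕ Fin 3) ℂ) (l : Fin 3) (m : Fin 3 ⊕ Fin 3 →₀ ℕ)
    (hm : coeff m (va05_p δ) ≠ 0) : Even (m (Sum.inr l)) := by
  by_contra hodd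
  rw [Nat.not_even_iff_odd] at hodd
  apply hm
  have h1 := va05_coeff (va05_f l) (va05_p δ) m
  have h2 : ∏ s, va05_f l s ^ m s = -1 := by
    rw [Finset.prod_eq_single (Sum.inr l)]
    · rw [va05_f, if_pos rfl, hodd.neg_one_pow]
    · intro b _ hb
      rw [va05_f, if_neg hb, one_pow]
    · intro h
      exact absurd (Finset.mem_univ _) h
  rw [va05_inv, h2] at h1
  linear_combination (1 / 2) * h1

theorem va05_pdeg (δ : MvPolynomial (Fin 3 ⊕ Fin 3) ℂ) (n : ℕ) (hn : δ.totalDegree ≤ n) :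
    (va05_p δ).totalDegree ≤ 8 * n := by
  refine (totalDegree_finsetProd _ _).trans ((Finset.sum_le_sum fun ε _ =>
    (va05_deg (va05_e ε) δ).trans hn).trans ?_)
  rw [Finset.sum_const, Finset.card_univ, Fintype.card_fun, Fintype.card_bool, Fintype.card_fin,
    smul_eq_mul]
  norm_num

/-- the cubic -/
def va05_c (g G : ℂ) (l : Fin 3) : MvPolynomial (Fin 3) ℂ :=
  C 4 * X l ^ 3 - C (2 * g) * X l - C G

theorem va05_cdeg (g G : ℂ) (l : Fin 3) : (va05_c g G l).totalDegree ≤ 3 := by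
  rw [va05_c]
  refine (totalDegree_sub _ _).trans (max_le ((totalDegree_sub _ _).trans (max_le ?_ ?_)) ?_)
  · refine (totalDegree_mul _ _).trans ?_
    rw [totalDegree_C, totalDegree_X_pow]
  · refine (totalDegree_mul _ _).trans ?_
    rw [totalDegree_C, totalDegree_X]
    norm_num
  · rw [totalDegree_C]
    norm_num

/-- V4a. PROOF. Let `p = ∏ ε, δ(x, ε y)` (the polynomial obtained by `X (inr l) ↦ ± X (inr l)`), of total degree `≤ 8 n`. It is invariant under each `y_l ↦ -y_l`, so its coefficients at monomials with an odd exponent of some `y_l` vanish. `W = ∑_m coeff · x^(m_x) ∏ (4 x_l^3 - 2 g x_l - G)^(m_(y_l)/2)`;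
each term has total degree `≤ m_x + 3 (m_y/2) ≤ 12 n`. -/
theorem sign_norm (δ : MvPolynomial (Fin 3 ⊕ Fin 3) ℂ) (n : ℕ) (hn : δ.totalDegree ≤ n) (g G : ℂ) :
    ∃ W : MvPolynomial (Fin 3) ℂ, W.totalDegree ≤ 12 * n ∧ ∀ x y : Fin 3 → ℂ, (∀ l, y l ^ 2 = 4 * x l ^ 3 - 2 * g * x l - G) →
      aeval x W = ∏ ε : Fin 3 → Bool, aeval (Sum.elim x (sg3 ε y)) δ := by
  refine ⟨∑ m ∈ (va05_p δ).support, C (coeff m (va05_p δ)) *
    ((∏ l, X l ^ m (Sum.inl l)) * ∏ l, va05_c g G l ^ (m (Sum.inr l) / 2)), ?_, ?_⟩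
  · refine totalDegree_finsetSum_le fun m hm => ?_
    have h8 : (m.sum fun _ e => e) ≤ 8 * n := (le_totalDegree hm).trans (va05_pdeg δ n hn)
    rw [Finsupp.sum_fintype _ _ (fun _ => rfl), Fintype.sum_sum_type] at h8
    refine (totalDegree_mul _ _).trans ?_
    rw [totalDegree_C, zero_add]
    refine (totalDegree_mul _ _).trans ?_
    have h1 : (∏ l, (X l : MvPolynomial (Fin 3) ℂ) ^ m (Sum.inl l)).totalDegree ≤
        ∑ l, m (Sum.inl l) := by
      refine (totalDegree_finsetProd _ _).trans (Finset.sum_le_sum fun l _ => ?_)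
      rw [totalDegree_X_pow]
    have h2 : (∏ l, va05_c g G l ^ (m (Sum.inr l) / 2)).totalDegree ≤
        ∑ l, m (Sum.inr l) / 2 * 3 := by
      refine (totalDegree_finsetProd _ _).trans (Finset.sum_le_sum fun l _ => ?_)
      exact (totalDegree_pow _ _).trans (Nat.mul_le_mul_left _ (va05_cdeg g G l))
    have h3 : ∑ l, m (Sum.inr l) / 2 * 3 ≤ (∑ l, m (Sum.inr l)) / 2 * 3 := by
      rw [← Finset.sum_mul]
      refine Nat.mul_le_mul_right _ ?_
      rw [Fin.sum_univ_three, Fin.sum_univ_three]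
      omega
    omega
  · intro x y hxy
    have h1 : aeval (Sum.elim x y) (va05_p δ) =
        ∏ ε : Fin 3 → Bool, aeval (Sum.elim x (sg3 ε y)) δ := by
      rw [va05_p, map_prod]
      refine Finset.prod_congr rfl fun ε _ => ?_
      rw [va05_aeval]
      congr 2
      funext s
      rcases s with l | l
      · simp [va05_e]
      · by_cases h : ε l <;> simp [va05_e, sg3, h]
    rw [← h1, aeval_def (Sum.elim x y), eval₂_eq', map_sum]
    refine Finset.sum_congr rfl fun m hm => ?_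
    rw [map_mul, map_mul, aeval_C, map_prod, map_prod, Fintype.prod_sum_type]
    congr 2
    · refine Finset.prod_congr rfl fun l _ => ?_
      rw [map_pow, aeval_X]
      rfl
    · refine Finset.prod_congr rfl fun l _ => ?_
      have h2 : aeval x (va05_c g G l) = y l ^ 2 := by
        rw [hxy l, va05_c]
        simp only [map_sub, map_mul, map_pow, aeval_C, aeval_X]
        rfl
      have h3 := va05_even δ l m (mem_support_iff.1 hm)
      rw [map_pow, h2, ← pow_mul, Nat.mul_div_cancel' h3.two_dvd]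
      rfl

/-- V4b. PROOF. Otherwise `W` vanishes on `{X0, ..., X0+n}^3`, and all degrees `≤ n`: `MvPolynomial.eq_zero_of_eval_zero_at_prod_finset` (or Schwartz-Zippel). -/
theorem int_point (W : MvPolynomial (Fin 3) ℂ) (hW : W ≠ 0) (n : ℕ) (hn : W.totalDegree ≤ n) (X0 : ℕ) :
    ∃ x : Fin 3 → ℕ, (∀ l, X0 ≤ x l ∧ x l ≤ X0 + n) ∧ aeval (fun l => (x l : ℂ)) W ≠ 0 := by
  classical
  by_contra hc
  push Not at hc
  apply hW
  refine MvPolynomial.eq_zero_of_eval_zero_at_prod_finset W (fun _ => (Finset.Icc X0 (X0 + n)).image (fun k : ℕ => (k : ℂ))) ?_ ?_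
  · intro i
    rw [Finset.card_image_of_injective _ Nat.cast_injective, Nat.card_Icc]
    have := MvPolynomial.degreeOf_le_totalDegree W i
    omega
  · intro x hx
    have h1 : ∀ l, ∃ k : ℕ, k ∈ Finset.Icc X0 (X0 + n) ∧ (k : ℂ) = x l := by
      intro l
      simpa using hx l
    choose k hk using h1
    have e : x = fun l => (k l : ℂ) := funext fun l => (hk l).2.symm
    have h2 := hc k (fun l => by have := (hk l).1; rw [Finset.mem_Icc] at this; exact this)
    rw [e, ← MvPolynomial.coe_aeval_eq_eval]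
    exact h2

end Pool.Agent.MSU
end

end
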