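import Mathlib
import Pool.Agent.Lib.MP_f58a57_nt.FK.K041

namespace Pool.Agent.MSD
end Pool.Agent.MSD
namespace Pool.Agent.MSK
end Pool.Agent.MSK
namespace Pool.Agent.MSP
end Pool.Agent.MSP
namespace Pool.Agent.MSR
end Pool.Agent.MSR

/-! # U/D3_Bound: the size of the functions, uniformly in the base point -/

open Complex

noncomputable section

namespace Pool.Agent.MSU

open MSD MSP MSK MSR

variable {d : ℕ}

/-- reduction to a bounded domain of the coordinates `nn` -/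
lemma d3_red (P : Par d) (hd : 2 ≤ d) (D : Dt d) (p : Fin d → ℂ) (hD : IsO P D p) (q : ℕ) (hq0 : 0 < q)
    (hq : ∀ l, ∃ m : ℤ, (q : ℚ) * P.b l = m) {E : ℕ} (c : Ir d E → ℂ) (v : Fin d → ℂ) :
    ∃ v' : Fin d → ℂ, (∀ l, 0 ≤ nn P v' l ∧ nn P v' l ≤ q) ∧ P2 P v' = P2 P v ∧
      Nn P 1 (GP P D p c) v' = Nn P 1 (GP P D p c) v := by
  set n : Fin (d + 1) → ℤ := fun l => -⌊nn P v l / q⌋ with hn
  refine ⟨v + gam P (fun l => (q : ℝ) * n l), ?_, ?_, NnU_shift P hd D p hD q hq c n v⟩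
  · intro l
    have hq' : (0 : ℝ) < q := by exact_mod_cast hq0
    have h1 : nn P (v + gam P (fun l => (q : ℝ) * n l)) l = nn P v l + q * n l := by
      rw [nn_add, nn_gam]
      rfl
    have h2 : (⌊nn P v l / q⌋ : ℝ) ≤ nn P v l / q := Int.floor_le _
    have h3 : nn P v l / q < ⌊nn P v l / q⌋ + 1 := Int.lt_floor_add_one _
    have h4 : (n l : ℝ) = -(⌊nn P v l / q⌋ : ℝ) := by
      rw [hn]
      push_cast
      ring
    rw [h1, h4]
    rw [le_div_iff₀ hq'] at h2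
    rw [div_lt_iff₀ hq'] at h3
    constructor <;> nlinarith
  · unfold P2
    rw [ro_add, ro_gam, add_zero]

lemma d3_om (P : Par d) (D : Dt d) (p : Fin d → ℂ) (hD : IsO P D p) : ‖D.om‖ = Real.sqrt Real.pi := by
  have h1 : ‖D.om‖ ^ 2 = Real.pi := by
    rw [← norm_pow, hD.om, Complex.norm_real, Real.norm_eq_abs, abs_of_pos Real.pi_pos]
  rw [← h1, Real.sqrt_sq (norm_nonneg _)]

lemma d3_s (P : Par d) (D : Dt d) (p : Fin d → ℂ) (hD : IsO P D p) : D.s = 0 := by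
  unfold Dt.s
  rw [hD.kap, hD.τ, hD.om]
  simp

/-- D3. PROOF. Copy of `NnR_bound` (R/B10_NnBound); now the constant may only depend on `P, H` and the size `Λ` of the constants `lam P D j` is explicit. As there: by `NnU_shift` (b10_red with `GP`) we may assume `0 ≤ nn v l ≤ q`; `TH_bound` with
`A = exp (G (1 + (q Im z + 1)²))`, `G` from `growth P.z (sE P.z) P.im` (the real vector `r` does not change imaginary parts); `‖WV P D (v - p) j + lam P D j‖ ≤ ‖D.om‖ (T(1+r) + H) + Λ ≤ C₁ Λ (1 + r)` (`D.s = 0`, `‖D.om‖ ^ 2 = π`), `nm_Bp`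
with `a ≥ ‖qq P D i j‖`, `qq P D i j = sE P.z / π * ∑ l, rhv P l i * rhv P l j` depends only on `P`. Then `b10_num` with `C1 Λ`, `C3` (also `≤ C3 Λ`), `C4 = (C1 + C3) Λ`: `(C4 n)^n`, `n = d E`. -/
theorem NnU_bound (P : Par d) (hd : 2 ≤ d) (H : ℝ) : ∃ C : ℝ, 1 ≤ C ∧ ∀ (D : Dt d) (p : Fin d → ℂ), IsO P D p → ‖p‖ ≤ H →
    ∀ Λ : ℝ, 1 ≤ Λ → (∀ j, ‖lam P D j‖ ≤ Λ) → ∀ E : ℕ, 1 ≤ E → ∀ (κ : Ir d E) (v : Fin d → ℂ),
      Nn P 1 (GP P D p (Pi.single κ 1)) v ≤ (C * Λ * E) ^ (d * E) * C * Real.exp (-(((1 : ℕ) : ℝ) * P2 P v)) := by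
  obtain ⟨q, hq0, hq⟩ := c4b_den P
  obtain ⟨G, hG, hgr⟩ := growth P.z (sE P.z) P.im
  obtain ⟨T, hT, htt⟩ := c4b_tt P hd q
  have him : 0 < P.z.im := P.im
  set A : ℝ := Real.exp (G * (1 + (q * P.z.im + 1) ^ 2)) with hAdef
  have hA1 : 1 ≤ A := Real.one_le_exp (by positivity)
  set p' : ℝ := max H 0 with hp
  have hp0 : 0 ≤ p' := le_max_right _ _
  set ω : ℝ := Real.sqrt Real.pi with hω
  have hω0 : 0 < ω := Real.sqrt_pos.mpr Real.pi_pos
  set R : ℝ := ∑ j : Fin d, (1 / ω * ∑ l, ‖rhv P l j‖) with hR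
  have hR0 : 0 ≤ R := by positivity
  set a : ℝ := ∑ i : Fin d, ∑ j : Fin d, ‖sE P.z / Real.pi * ∑ l, rhv P l i * rhv P l j‖ with ha
  have ha0 : 0 ≤ a := by positivity
  set c1 : ℝ := 2 + ω * (T + p') with hc1
  have hT0 : 0 ≤ T := zero_le_one.trans hT
  have hTp : 0 ≤ ω * (T + p') := mul_nonneg hω0.le (add_nonneg hT0 hp0)
  have hc10 : 2 ≤ c1 := by rw [hc1]; linarith
  set C3 : ℝ := R + d * a with hC3
  have hC30 : 0 ≤ C3 := by positivity
  set c4 : ℝ := c1 + C3 with hc4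
  have hc41 : 1 ≤ c4 := by rw [hc4]; linarith
  have hd1 : (1 : ℝ) ≤ d := by exact_mod_cast (by omega : 1 ≤ d)
  set C : ℝ := c4 * d + A ^ (d + 1) * Real.exp 2 with hC
  have hAe : 0 ≤ A ^ (d + 1) * Real.exp 2 := by positivity
  have hC4d : 1 ≤ c4 * d := by nlinarith
  refine ⟨C, by rw [hC]; linarith, ?_⟩
  intro D p hD hpH Λ hΛ1 hΛ E hE κ v
  have hτ : D.τ = P.z := hD.τ
  have hom : ‖D.om‖ = ω := d3_om P D p hD
  have hΛ0 : 0 ≤ Λ := zero_le_one.trans hΛ1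
  have haq : ∀ i j, ‖qq P D i j‖ ≤ a := by
    intro i j
    have h1 : qq P D i j = sE P.z / Real.pi * ∑ l, rhv P l i * rhv P l j := by
      unfold MSR.qq
      rw [hτ, hD.om]
    rw [h1]
    exact (Finset.single_le_sum (f := fun j => ‖sE P.z / Real.pi * ∑ l, rhv P l i * rhv P l j‖)
        (fun _ _ => norm_nonneg _) (Finset.mem_univ j)).trans
      (Finset.single_le_sum (f := fun i => ∑ j : Fin d, ‖sE P.z / Real.pi * ∑ l, rhv P l i * rhv P l j‖)
        (fun _ _ => Finset.sum_nonneg fun _ _ => norm_nonneg _) (Finset.mem_univ i))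
  set C1 : ℝ := c1 * Λ with hC1
  have hC10 : 0 ≤ C1 := mul_nonneg (by linarith) hΛ0
  have hC11 : 1 ≤ C1 := by nlinarith
  set C4 : ℝ := c4 * Λ with hC4
  have hC40 : 0 ≤ C4 := mul_nonneg (by linarith) hΛ0
  have h14 : C1 ≤ C4 := by
    rw [hC1, hC4, hc4]
    nlinarith
  have h34 : C3 ≤ C4 := by
    rw [hC4, hc4]
    nlinarith
  obtain ⟨v', hv', hP2, hNn⟩ := d3_red P hd D p hD q hq0 hq (Pi.single κ 1) v
  rw [← hNn, ← hP2]
  set r : ℝ := Real.sqrt (P2 P v') with hr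
  have hr0 : 0 ≤ r := Real.sqrt_nonneg _
  have hr2 : r ^ 2 = P2 P v' := Real.sq_sqrt (c4b_P2_nonneg P v')
  have hn1 : 1 ≤ d * E := Nat.one_le_iff_ne_zero.mpr (Nat.mul_ne_zero (by omega) (by omega))
  have hn0 : (0 : ℝ) ≤ ((d * E : ℕ) : ℝ) := Nat.cast_nonneg _
  have hpt : ∀ l, (D.h l + tt P.z (fun j => v' j - p j) l).im = (tt P.z v' l).im := by
    intro l
    obtain ⟨s, hs⟩ := hD.h l
    have h1 : tt P.z p l + tt P.z (fun j => v' j - p j) l = tt P.z v' l := by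
      refine Fin.cases ?_ (fun j => ?_) l
      · simp only [tt, Fin.cons_zero]
        rw [← neg_add, ← Finset.sum_add_distrib]
        congr 1
        refine Finset.sum_congr rfl fun j _ => ?_
        ring
      · simp [tt]
    rw [hs]
    have h2 : tt P.z p l + (s : ℂ) + tt P.z (fun j => v' j - p j) l = tt P.z v' l + s := by
      rw [← h1]
      ring
    rw [h2]
    simp
  have hth : ∀ l, ∀ u : ℂ, ‖u - (D.h l + tt P.z (fun j => v' j - p j) l)‖ ≤ 1 → ‖th D.τ u‖ ≤ A := by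
    intro l u hu
    have h1 : |(u - (D.h l + tt P.z (fun j => v' j - p j) l)).im| ≤ 1 := (Complex.abs_im_le_norm _).trans hu
    have h2 : (tt P.z v' l).im = nn P v' l * P.z.im := by
      unfold nn
      field_simp
    have h3 := (hv' l).1
    have h4 := (hv' l).2
    have h5 : 0 ≤ (tt P.z v' l).im := by rw [h2]; positivity
    have h6 : (tt P.z v' l).im ≤ q * P.z.im := by
      rw [h2]
      exact mul_le_mul_of_nonneg_right h4 him.le
    rw [Complex.sub_im, hpt, abs_le] at h1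
    have h7 : |u.im| ≤ q * P.z.im + 1 := by
      rw [abs_le]
      constructor
      · have : 0 ≤ (q : ℝ) * P.z.im := by positivity
        linarith [h1.1]
      · linarith [h1.2]
    have h8 : u.im ^ 2 ≤ (q * P.z.im + 1) ^ 2 := by
      rw [← sq_abs u.im]
      exact pow_le_pow_left₀ (abs_nonneg _) h7 2
    rw [hτ]
    exact (hgr u).1.trans (Real.exp_le_exp.mpr (mul_le_mul_of_nonneg_left (by linarith) hG.le))
  have hvj : ∀ j, ‖v' j‖ ≤ T * (1 + r) := by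
    intro j
    have := htt v' hv' j.succ
    have h1 : tt P.z v' j.succ = v' j := by simp [tt]
    rwa [h1] at this
  have hWV : ∀ j, ‖WV P D (fun j => v' j - p j) j + lam P D j‖ ≤ C1 * (1 + r) := by
    intro j
    have hAs : As P D.s (fun j => v' j - p j) j = v' j - p j := by
      unfold As
      rw [d3_s P D p hD]
      simp [tt]
    have hpj : ‖p j‖ ≤ p' := ((norm_le_pi_norm p j).trans hpH).trans (le_max_left _ _)
    have h1 : ‖v' j - p j‖ ≤ (T + p') * (1 + r) := by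
      refine (norm_sub_le _ _).trans ?_
      nlinarith [mul_nonneg hp0 hr0, hvj j]
    unfold WV
    rw [hAs]
    refine (norm_add_le _ _).trans ?_
    rw [norm_mul, hom]
    have h2 : ω * ‖v' j - p j‖ ≤ ω * ((T + p') * (1 + r)) := mul_le_mul_of_nonneg_left h1 hω0.le
    have h3 : C1 * (1 + r) = 2 * Λ * (1 + r) + Λ * (ω * ((T + p') * (1 + r))) := by
      rw [hC1, hc1]
      ring
    have h4 : Λ ≤ 2 * Λ * (1 + r) := by nlinarith [mul_nonneg hΛ0 hr0]
    have h5 : 0 ≤ ω * ((T + p') * (1 + r)) := by positivity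
    have h6 : ω * ((T + p') * (1 + r)) ≤ Λ * (ω * ((T + p') * (1 + r))) := by nlinarith
    linarith [hΛ j]
  have hlin : ∀ j, nm ((d * E : ℕ) : ℝ) (lin P D (WV P D (fun j => v' j - p j)) j) ≤ C1 * (1 + r) + R * ((d * E : ℕ) : ℝ) := by
    intro j
    refine (lin_nm P D _ j _ hn0).trans (add_le_add (hWV j) ?_)
    rw [mul_comm, hom]
    refine mul_le_mul_of_nonneg_right ?_ hn0
    exact Finset.single_le_sum (f := fun j => 1 / ω * ∑ l, ‖rhv P l j‖)
      (fun i _ => mul_nonneg (by positivity) (Finset.sum_nonneg fun _ _ => norm_nonneg _)) (Finset.mem_univ j)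
  have hsum : ∑ j, (κ j).val ≤ d * E := by
    calc ∑ j, (κ j).val ≤ ∑ _j : Fin d, E := Finset.sum_le_sum fun j _ => (κ j).isLt.le
      _ = d * E := by simp
  have hρ1 : 1 ≤ C1 * (1 + r) + R * ((d * E : ℕ) : ℝ) := by
    have h1 : 0 ≤ R * ((d * E : ℕ) : ℝ) := mul_nonneg hR0 hn0
    nlinarith
  have hg : ‖GP P D p (Pi.single κ 1) v'‖ ≤ A ^ (d + 1) * (C1 * (1 + r) + C3 * ((d * E : ℕ) : ℝ)) ^ (d * E) := by
    unfold GP GR
    have hdeg : (MvPolynomial.aeval (lin P D (WV P D (fun j => v' j - p j))) (Cs P D (Pi.single κ 1))).totalDegree ≤ d * E :=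
      (lin_deg P D _ _).trans (Cs_deg P D _)
    refine (TH_bound D _ _ (d * E) hn1 hdeg A hA1 hth).trans ?_
    refine mul_le_mul_of_nonneg_left ?_ (by positivity)
    refine (nm_aeval _ _ hn0 _ hlin _).trans ?_
    rw [b10_Cs]
    refine (nm_Bp (qq P D) a ha0 haq _ (d * E) hsum _ hρ1).trans (le_of_eq ?_)
    rw [hC3]
    congr 1
    ring
  have hQ : Real.pi * r ^ 2 ≤ Qf P v' := by
    unfold Qf
    rw [hr2]
    have h1 : 0 ≤ ∑ l, (tt P.z v' l).im ^ 2 / P.z.im := by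
      refine Finset.sum_nonneg fun l _ => ?_
      positivity
    nlinarith [Real.pi_pos, mul_nonneg Real.pi_pos.le h1]
  have hnum := b10_num A C1 C3 C4 r hA1 hC10 hC30 h14 h34 hr0 d (d * E) hn1
  unfold Nn
  have hfin : (C4 * ((d * E : ℕ) : ℝ)) ^ (d * E) * (A ^ (d + 1) * Real.exp 2) ≤ (C * Λ * E) ^ (d * E) * C := by
    have hE0 : (0 : ℝ) ≤ E := Nat.cast_nonneg _
    have hΛE : 0 ≤ Λ * (E : ℝ) := mul_nonneg hΛ0 hE0
    refine mul_le_mul (pow_le_pow_left₀ (mul_nonneg hC40 hn0) ?_ _) ?_ hAe ?_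
    · rw [hC, hC4]
      push_cast
      nlinarith [mul_nonneg hAe hΛE]
    · rw [hC]
      linarith
    · have : 0 ≤ C := by rw [hC]; linarith
      positivity
  calc ‖GP P D p (Pi.single κ 1) v'‖ * Real.exp (-(((1 : ℕ) : ℝ) * Qf P v'))
      ≤ (A ^ (d + 1) * (C1 * (1 + r) + C3 * ((d * E : ℕ) : ℝ)) ^ (d * E)) * Real.exp (-(Real.pi * r ^ 2)) := by
        refine mul_le_mul hg (Real.exp_le_exp.mpr ?_) (Real.exp_pos _).le ((norm_nonneg _).trans hg)
        push_cast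
        linarith
    _ ≤ (C4 * ((d * E : ℕ) : ℝ)) ^ (d * E) * (A ^ (d + 1) * Real.exp 2) * Real.exp (-r ^ 2) := hnum
    _ ≤ ((C * Λ * E) ^ (d * E) * C) * Real.exp (-r ^ 2) := mul_le_mul_of_nonneg_right hfin (Real.exp_pos _).le
    _ = (C * Λ * E) ^ (d * E) * C * Real.exp (-(((1 : ℕ) : ℝ) * P2 P v')) := by
        rw [hr2]
        push_cast
        rw [one_mul]

end Pool.Agent.MSU
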