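import Mathlib
import Pool.Agent.Lib.MP_f58a57_nt.FK.K008
import Pool.Agent.Lib.MP_f58a57_nt.FK.K037
import Pool.Agent.Lib.MP_f58a57_nt.FK.K042
import Pool.Agent.Lib.MP_f58a57_nt.FK.K044
import Pool.Agent.Lib.MP_f58a57_nt.FK.K045

namespace Pool.Agent.MSD
end Pool.Agent.MSD
namespace Pool.Agent.MSK
end Pool.Agent.MSK
namespace Pool.Agent.MSP
end Pool.Agent.MSP
namespace Pool.Agent.MSR
end Pool.Agent.MSR

section

/-! # U/D6_Flag: subspaces of small codimension on which the functions are small -/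

open Complex

noncomputable section

namespace Pool.Agent.MSU

open MSD MSP MSK MSR

variable {d : ℕ}

theorem d6_GP (P : Par d) (D : Dt d) (p : Fin d → ℂ) {E : ℕ} (c : Ir d E → ℂ) (v : Fin d → ℂ) :
    GP P D p c v = ∑ κ, c κ * GP P D p (Pi.single κ 1) v := by
  unfold GP GR
  rw [c3_Cs, map_sum, TH_sum]
  refine Finset.sum_congr rfl fun κ _ => ?_
  rw [map_mul, MvPolynomial.aeval_C, MvPolynomial.algebraMap_eq, TH_C_mul]

theorem d6_diff (P : Par d) (D : Dt d) (p : Fin d → ℂ) {E : ℕ} (c : Ir d E → ℂ) :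
    Differentiable ℂ (GP P D p c) := by
  unfold GP
  have h0 : Differentiable ℂ (fun v : Fin d → ℂ => fun j => v j - p j) := by
    rw [differentiable_pi]
    intro j
    exact (differentiable_apply j).sub_const _
  exact (GR_diff P D c).comp h0

/-- the values at the points of a finite set -/
def d6_phi (P : Par d) (D : Dt d) (p : Fin d → ℂ) (E : ℕ) (S : Finset (Fin d → ℂ)) :
    (Ir d E → ℂ) →ₗ[ℂ] (S → ℂ) where
  toFun c x := ∑ κ, c κ * GP P D p (Pi.single κ 1) (x : Fin d → ℂ)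
  map_add' a b := by
    funext x
    simp only [Pi.add_apply]
    rw [← Finset.sum_add_distrib]
    exact Finset.sum_congr rfl fun κ _ => by ring
  map_smul' a b := by
    funext x
    simp only [Pi.smul_apply, smul_eq_mul, RingHom.id_apply]
    rw [Finset.mul_sum]
    exact Finset.sum_congr rfl fun κ _ => by ring

theorem d6_card (E : ℕ) : Module.finrank ℂ (Ir d E → ℂ) = E ^ d := by
  rw [Module.finrank_pi, Fintype.card_fun, Fintype.card_fin, Fintype.card_fin]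

theorem d6_ker (P : Par d) (D : Dt d) (p : Fin d → ℂ) (E : ℕ) (S : Finset (Fin d → ℂ)) :
    E ^ d ≤ Module.finrank ℂ (LinearMap.ker (d6_phi P D p E S)) + S.card := by
  have h1 := LinearMap.finrank_range_add_finrank_ker (d6_phi P D p E S)
  rw [d6_card] at h1
  have h2 : Module.finrank ℂ (LinearMap.range (d6_phi P D p E S)) ≤ S.card := by
    refine (Submodule.finrank_le _).trans (le_of_eq ?_)
    rw [Module.finrank_pi, Fintype.card_coe]
  omega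

theorem d6_Nn (P : Par d) (D : Dt d) (p : Fin d → ℂ) {E : ℕ} (c : Ir d E → ℂ)
    (hc : ∀ κ, ‖c κ‖ ≤ 1) (v : Fin d → ℂ) (A : ℝ)
    (hA : ∀ κ : Ir d E, Nn P 1 (GP P D p (Pi.single κ 1)) v ≤ A) :
    Nn P 1 (GP P D p c) v ≤ (E : ℝ) ^ d * A := by
  have h3 : ‖GP P D p c v‖ ≤ ∑ κ : Ir d E, ‖GP P D p (Pi.single κ 1) v‖ := by
    rw [d6_GP]
    refine (norm_sum_le _ _).trans (Finset.sum_le_sum fun κ _ => ?_)
    rw [norm_mul]
    exact mul_le_of_le_one_left (norm_nonneg _) (hc κ)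
  have h4 : Nn P 1 (GP P D p c) v ≤ ∑ κ : Ir d E, Nn P 1 (GP P D p (Pi.single κ 1)) v := by
    unfold Nn
    refine (mul_le_mul_of_nonneg_right h3 (Real.exp_pos _).le).trans (le_of_eq ?_)
    rw [Finset.sum_mul]
  refine (h4.trans (Finset.sum_le_sum fun κ _ => hA κ)).trans (le_of_eq ?_)
  have h6 : (Fintype.card (Ir d E) : ℝ) = (E : ℝ) ^ d := by
    rw [Fintype.card_fun, Fintype.card_fin, Fintype.card_fin]
    push_cast
    ring
  rw [Finset.sum_const, Finset.card_univ, nsmul_eq_mul, h6]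

/-- D6. PROOF. `G = GP P D p c = ∑ κ, c κ * GP P D p (single κ 1)` (as `c3_GA` in R/C3_Aux), differentiable (as `c3_diff`), `Nn P 1 G v ≤ ∑ κ, ‖c κ‖ Nn (single κ) ≤ E² (C₁ Λ E)^(2E) C₁ exp (-P2 P v)` for `‖c κ‖ ≤ 1` (`NnU_bound`, number of `κ` is `E²`). Let `C₂` be the constant of
`small_all P hd q hq` (`q` from `g2_den P` or `c4b_den P`). If `k < C₂` take `U = ⊤`: `exp (-P2) ≤ 1` and `exp (-k²/C) ≥ exp (-C₂²/C) ≥ e⁻¹` if `C ≥ C₂²`; the factor `e` goes into `C`. If `k ≥ C₂` take `M = 1`, `R = k / C₂ ≥ 1`: `Sp` has at most `C₂ R = k` points. `U` = kernel of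
`c ↦ (GP P D p c x)_(x ∈ Sp)` (linear): `E² = finrank ≤ finrank U + card Sp ≤ finrank U + k`. For `c ∈ U` `small_all` with `ε = 0`: `Nn P 1 G v ≤ C₂ B exp (-R²)`, `R² = k²/C₂²`. (`hd : 2 ≤ 2`.) -/
theorem flag (P : Par 2) (H : ℝ) : ∃ C : ℝ, 1 ≤ C ∧ ∀ (D : Dt 2) (p : Fin 2 → ℂ), IsO P D p → ‖p‖ ≤ H →
    ∀ Λ : ℝ, 1 ≤ Λ → (∀ j, ‖lam P D j‖ ≤ Λ) → ∀ E : ℕ, 1 ≤ E → ∀ k : ℕ, ∃ U : Submodule ℂ (Ir 2 E → ℂ),
      E ^ 2 ≤ Module.finrank ℂ U + k ∧ ∀ c ∈ U, (∀ κ, ‖c κ‖ ≤ 1) → ∀ v,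
        Nn P 1 (GP P D p c) v ≤ (C * Λ * E) ^ (2 * E) * C * E ^ 2 * Real.exp (-((k : ℝ) ^ 2 / C)) := by
  obtain ⟨q, hq, hqb⟩ := g2_den P
  obtain ⟨C1, hC1, hbd⟩ := NnU_bound P le_rfl H
  obtain ⟨C2, hC2, hsmall⟩ := small_all P le_rfl q hq
  have hC10 : 0 < C1 := by linarith
  have hC20 : 0 < C2 := by linarith
  have hC22 : 1 ≤ C2 ^ 2 := one_le_pow₀ hC2
  have hCC : 1 ≤ C1 * C2 ^ 2 := one_le_mul_of_one_le_of_one_le hC1 hC22
  obtain ⟨C, hC⟩ : ∃ C : ℝ, C = 3 * (C1 * C2 ^ 2) := ⟨_, rfl⟩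
  have hC0 : 1 ≤ C := by rw [hC]; linarith
  have hCpos : 0 < C := by linarith
  have hCa : C2 ^ 2 ≤ C := by
    have : C2 ^ 2 ≤ C1 * C2 ^ 2 := le_mul_of_one_le_left (by positivity) hC1
    rw [hC]
    nlinarith
  have hCb : 3 * C1 ≤ C := by
    have : C1 ≤ C1 * C2 ^ 2 := le_mul_of_one_le_right (by positivity) hC22
    rw [hC]
    linarith
  have hCc : C2 * C1 ≤ C := by
    have h1 : C2 ≤ C2 ^ 2 := by nlinarith
    have h2 : C1 * C2 ≤ C1 * C2 ^ 2 := mul_le_mul_of_nonneg_left h1 hC10.le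
    rw [hC]
    nlinarith
  refine ⟨C, hC0, ?_⟩
  intro D p hD hp Λ hΛ hlam E hE k
  have hE1 : (1 : ℝ) ≤ E := by exact_mod_cast hE
  have hb := hbd D p hD hp Λ hΛ hlam E hE
  obtain ⟨W, hW⟩ : ∃ W : ℝ, W = (C1 * Λ * E) ^ (2 * E) := ⟨_, rfl⟩
  obtain ⟨W', hW'⟩ : ∃ W' : ℝ, W' = (C * Λ * E) ^ (2 * E) := ⟨_, rfl⟩
  have hW0 : 0 ≤ W := by rw [hW]; positivity
  have hWW : W ≤ W' := by
    rw [hW, hW']
    refine pow_le_pow_left₀ (by positivity) ?_ _
    have : C1 ≤ C := by linarith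
    gcongr
  have hgen : ∀ c : Ir 2 E → ℂ, (∀ κ, ‖c κ‖ ≤ 1) → ∀ v, Nn P 1 (GP P D p c) v ≤
      ((E : ℝ) ^ 2 * (W * C1)) * Real.exp (-(((1 : ℕ) : ℝ) * P2 P v)) := by
    intro c hc v
    refine (d6_Nn P D p c hc v _ fun κ => hb κ v).trans (le_of_eq ?_)
    rw [hW]
    ring
  rw [← hW']
  rcases lt_or_ge (k : ℝ) C2 with hk | hk
  · refine ⟨⊤, ?_, ?_⟩
    · rw [finrank_top, d6_card]
      exact Nat.le_add_right _ _
    · intro c _ hc v
      have h1 := hgen c hc v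
      have h2 : Real.exp (-(((1 : ℕ) : ℝ) * P2 P v)) ≤ 1 := by
        refine Real.exp_le_one_iff.2 ?_
        have := g2_P2 P v
        rw [neg_nonpos]
        positivity
      have h3 : (E : ℝ) ^ 2 * (W * C1) * Real.exp (-(((1 : ℕ) : ℝ) * P2 P v)) ≤
          (E : ℝ) ^ 2 * (W * C1) := mul_le_of_le_one_right (by positivity) h2
      have h4 : (k : ℝ) ^ 2 / C ≤ 1 := by
        rw [div_le_one hCpos]
        have h5 : (k : ℝ) ^ 2 ≤ C2 ^ 2 := pow_le_pow_left₀ (Nat.cast_nonneg _) hk.le 2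
        exact h5.trans hCa
      have h5 : Real.exp (-1) ≤ Real.exp (-((k : ℝ) ^ 2 / C)) := Real.exp_le_exp.2 (by linarith)
      have h6 : 1 / 3 ≤ Real.exp (-1) := by
        rw [Real.exp_neg, one_div]
        refine inv_anti₀ (Real.exp_pos 1) ?_
        have := Real.exp_one_lt_d9
        linarith
      have h7 : C1 ≤ C * Real.exp (-((k : ℝ) ^ 2 / C)) := by
        have : C * (1 / 3) ≤ C * Real.exp (-((k : ℝ) ^ 2 / C)) :=
          mul_le_mul_of_nonneg_left (h6.trans h5) hCpos.le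
        linarith
      calc Nn P 1 (GP P D p c) v ≤ (E : ℝ) ^ 2 * (W * C1) := h1.trans h3
        _ ≤ (E : ℝ) ^ 2 * (W' * (C * Real.exp (-((k : ℝ) ^ 2 / C)))) := by
            refine mul_le_mul_of_nonneg_left ?_ (by positivity)
            exact mul_le_mul hWW h7 hC10.le (hW0.trans hWW)
        _ = W' * C * E ^ 2 * Real.exp (-((k : ℝ) ^ 2 / C)) := by ring
  · have hR : 1 ≤ (k : ℝ) / C2 := by
      rw [le_div_iff₀ hC20, one_mul]
      exact hk
    obtain ⟨Sp, hSp, hsm⟩ := hsmall 1 ((k : ℝ) / C2) le_rfl hR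
    have hcard : Sp.card ≤ k := by
      have h1 : (Sp.card : ℝ) ≤ k := by
        refine hSp.trans (le_of_eq ?_)
        simp only [Nat.cast_one, one_pow, mul_one, show 2 - 1 = 1 from rfl, pow_one]
        field_simp
      exact_mod_cast h1
    refine ⟨LinearMap.ker (d6_phi P D p E Sp), ?_, ?_⟩
    · have h1 := d6_ker P D p E Sp
      omega
    · intro c hcU hc v
      have h1 := hsm (GP P D p c) ((E : ℝ) ^ 2 * (W * C1)) (d6_diff P D p c)
        (fun m u => NnU_shift P le_rfl D p hD q hqb c m u) (hgen c hc) 0 le_rfl ?_ v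
      · rw [pow_one, zero_add] at h1
        have h2 : ((1 : ℕ) : ℝ) * ((k : ℝ) / C2) ^ 2 = (k : ℝ) ^ 2 / C2 ^ 2 := by
          rw [Nat.cast_one, one_mul, div_pow]
        rw [h2] at h1
        have h3 : Real.exp (-((k : ℝ) ^ 2 / C2 ^ 2)) ≤ Real.exp (-((k : ℝ) ^ 2 / C)) := by
          apply Real.exp_le_exp.2
          rw [neg_le_neg_iff]
          exact div_le_div_of_nonneg_left (by positivity) (by positivity) hCa
        calc Nn P 1 (GP P D p c) v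
            ≤ C2 * ((E : ℝ) ^ 2 * (W * C1) * Real.exp (-((k : ℝ) ^ 2 / C2 ^ 2))) := h1
          _ = (E : ℝ) ^ 2 * (W * (C2 * C1)) * Real.exp (-((k : ℝ) ^ 2 / C2 ^ 2)) := by ring
          _ ≤ (E : ℝ) ^ 2 * (W' * C) * Real.exp (-((k : ℝ) ^ 2 / C)) := by
              refine mul_le_mul ?_ h3 (Real.exp_pos _).le ?_
              · refine mul_le_mul_of_nonneg_left ?_ (by positivity)
                exact mul_le_mul hWW hCc (by positivity) (hW0.trans hWW)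
              · have : 0 ≤ W' := hW0.trans hWW
                positivity
          _ = W' * C * E ^ 2 * Real.exp (-((k : ℝ) ^ 2 / C)) := by ring
      · intro x hx
        have h2 : d6_phi P D p E Sp c = 0 := LinearMap.mem_ker.1 hcU
        have h3 := congrFun h2 ⟨x, hx⟩
        have h4 : GP P D p c x = 0 := by
          rw [d6_GP]
          exact h3
        unfold Nn
        rw [h4, norm_zero, zero_mul]

end Pool.Agent.MSU
end

end

section

/-! # U/D9_Main: the interpolation determinant is small -/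

open Complex

noncomputable section

namespace Pool.Agent.MSU

open MSD MSP MSK MSR

theorem d9_pow (x : ℝ) (hx : 2 ≤ x) (n : ℕ) (c : ℝ) (hc : c ≤ 2 ^ n) : c ≤ x ^ n :=
  hc.trans (pow_le_pow_left₀ (by norm_num) hx n)

/-- the numerical inequality for the two constants -/
theorem d9_num (B : ℝ) (hB : 2 ≤ B) (E T : ℕ) (hE : 1 ≤ E) (hT : E ≤ T) (Cd Cf Cl : ℝ) (n : ℕ) (hd0 : 0 ≤ Cd) (hf0 : 0 ≤ Cf) (hl0 : 0 ≤ Cl)
    (hd : Cd ≤ 2 ^ n) (hf : Cf ≤ 2 ^ n) (hl : Cl ≤ 2 ^ n) :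
    (E : ℝ) ^ 2 * ((Cd * (4 * B) * T ^ 2) ^ T * (Cd * (4 * B)) ^ (2 + 1) * ((Cf * (Cl * (4 * B)) * E) ^ (2 * E) * Cf * E ^ 2) +
      E ^ 2 * (((8 * ((2 : ℕ) + 1) * T * ((4 * (2 * E) : ℕ) + ((2 : ℕ) + 3) * T)) ^ T * (88 * ((2 : ℕ) + 1) * ((2 * E : ℕ) + 1)) ^ (2 * E)) *
        ((4 * (2 * E) + (2 + 3) * T : ℕ) * (B + 1) ^ (4 * (2 * E) + (2 + 3) * T)))) ≤ (B * T) ^ ((9 * n + 120) * T) := by
  have hE1 : (1 : ℝ) ≤ E := by exact_mod_cast hE
  have hTE : (E : ℝ) ≤ T := by exact_mod_cast hT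
  have hT1 : (1 : ℝ) ≤ T := hE1.trans hTE
  have hT1' : 1 ≤ T := hE.trans hT
  obtain ⟨x, hx⟩ : ∃ x : ℝ, x = B * T := ⟨_, rfl⟩
  have hx2 : 2 ≤ x := by rw [hx]; nlinarith
  have hx1 : 1 ≤ x := by linarith
  have hBx : B ≤ x := by rw [hx]; nlinarith
  have hTx : (T : ℝ) ≤ x := by rw [hx]; nlinarith
  have hEx : (E : ℝ) ≤ x := hTE.trans hTx
  have hB0 : 0 ≤ B := by linarith
  have hx0 : 0 ≤ x := by linarith
  have hdx := d9_pow x hx2 n Cd hd
  have hfx := d9_pow x hx2 n Cf hf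
  have hlx := d9_pow x hx2 n Cl hl
  have h4x : (4 : ℝ) ≤ x ^ 2 := by nlinarith
  have hxn : ∀ m : ℕ, 0 ≤ x ^ m := fun m => pow_nonneg hx0 m
  have h1 : Cd * (4 * B) ≤ x ^ (n + 3) := by
    calc Cd * (4 * B) ≤ x ^ n * (x ^ 2 * x) := by gcongr
      _ = x ^ (n + 3) := by ring
  have e1 : (Cd * (4 * B) * (T : ℝ) ^ 2) ^ T ≤ x ^ ((n + 5) * T) := by
    calc (Cd * (4 * B) * (T : ℝ) ^ 2) ^ T ≤ (x ^ (n + 3) * x ^ 2) ^ T := by gcongr
      _ = x ^ ((n + 5) * T) := by rw [← pow_add, ← pow_mul]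
  have e2 : (Cd * (4 * B)) ^ (2 + 1) ≤ x ^ ((n + 3) * 3) := by
    calc (Cd * (4 * B)) ^ (2 + 1) ≤ (x ^ (n + 3)) ^ 3 := by gcongr
      _ = _ := by rw [← pow_mul]
  have e3 : (Cf * (Cl * (4 * B)) * E) ^ (2 * E) ≤ x ^ ((2 * n + 4) * (2 * T)) := by
    calc (Cf * (Cl * (4 * B)) * E) ^ (2 * E) ≤ (x ^ n * (x ^ n * (x ^ 2 * x)) * x) ^ (2 * E) := by gcongr
      _ = (x ^ (2 * n + 4)) ^ (2 * E) := by ring
      _ = x ^ ((2 * n + 4) * (2 * E)) := by rw [← pow_mul]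
      _ ≤ x ^ ((2 * n + 4) * (2 * T)) := pow_le_pow_right₀ hx1 (by gcongr)
  have e4 : (8 * ((2 : ℕ) + 1) * (T : ℝ) * ((4 * (2 * E) : ℕ) + ((2 : ℕ) + 3) * T)) ^ T ≤ x ^ (11 * T) := by
    have h5 : (8 * ((2 : ℕ) + 1) * (T : ℝ) * ((4 * (2 * E) : ℕ) + ((2 : ℕ) + 3) * T)) ≤ x ^ 11 := by
      push_cast
      have h6 : 8 * (2 + 1) * (T : ℝ) * (4 * (2 * E) + (2 + 3) * T) ≤ 512 * x ^ 2 := by nlinarith
      have h7 : (512 : ℝ) ≤ x ^ 9 := by
        calc (512 : ℝ) = 2 ^ 9 := by norm_num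
          _ ≤ x ^ 9 := pow_le_pow_left₀ (by norm_num) hx2 9
      calc 8 * (2 + 1) * (T : ℝ) * (4 * (2 * E) + (2 + 3) * T) ≤ 512 * x ^ 2 := h6
        _ ≤ x ^ 9 * x ^ 2 := by gcongr
        _ = x ^ 11 := by ring
    calc _ ≤ (x ^ 11) ^ T := pow_le_pow_left₀ (by positivity) h5 T
      _ = _ := by rw [← pow_mul]
  have e5 : (88 * ((2 : ℕ) + 1) * ((2 * E : ℕ) + 1) : ℝ) ^ (2 * E) ≤ x ^ (11 * (2 * T)) := by
    have h5 : (88 * ((2 : ℕ) + 1) * ((2 * E : ℕ) + 1) : ℝ) ≤ x ^ 11 := by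
      push_cast
      have h7 : (1024 : ℝ) ≤ x ^ 10 := by
        calc (1024 : ℝ) = 2 ^ 10 := by norm_num
          _ ≤ x ^ 10 := pow_le_pow_left₀ (by norm_num) hx2 10
      calc (88 : ℝ) * (2 + 1) * (2 * E + 1) ≤ 1024 * x := by nlinarith
        _ ≤ x ^ 10 * x := by gcongr
        _ = x ^ 11 := by ring
    calc _ ≤ (x ^ 11) ^ (2 * E) := pow_le_pow_left₀ (by positivity) h5 _
      _ = x ^ (11 * (2 * E)) := by rw [← pow_mul]
      _ ≤ _ := pow_le_pow_right₀ hx1 (by gcongr)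
  have e6 : ((4 * (2 * E) + (2 + 3) * T : ℕ) : ℝ) ≤ x ^ 5 := by
    push_cast
    have h7 : (16 : ℝ) ≤ x ^ 4 := by
      calc (16 : ℝ) = 2 ^ 4 := by norm_num
        _ ≤ x ^ 4 := pow_le_pow_left₀ (by norm_num) hx2 4
    have h8 : x ^ 5 = x ^ 4 * x := by ring
    have h9 : 16 * x ≤ x ^ 4 * x := by gcongr
    rw [h8]
    linarith
  have e7 : (B + 1) ^ (4 * (2 * E) + (2 + 3) * T) ≤ x ^ (26 * T) := by
    have h5 : B + 1 ≤ x ^ 2 := by nlinarith
    calc (B + 1) ^ (4 * (2 * E) + (2 + 3) * T) ≤ (x ^ 2) ^ (4 * (2 * E) + (2 + 3) * T) := by gcongr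
      _ = x ^ (2 * (4 * (2 * E) + (2 + 3) * T)) := by rw [← pow_mul]
      _ ≤ x ^ (26 * T) := pow_le_pow_right₀ hx1 (by omega)
  have hE2 : (E : ℝ) ^ 2 ≤ x ^ 2 := by gcongr
  have k1 : (Cd * (4 * B) * (T : ℝ) ^ 2) ^ T * (Cd * (4 * B)) ^ (2 + 1) * ((Cf * (Cl * (4 * B)) * E) ^ (2 * E) * Cf * E ^ 2) ≤
      x ^ ((n + 5) * T) * x ^ ((n + 3) * 3) * (x ^ ((2 * n + 4) * (2 * T)) * x ^ n * x ^ 2) := by
    gcongr
  have k2 : (E : ℝ) ^ 2 * (((8 * ((2 : ℕ) + 1) * (T : ℝ) * ((4 * (2 * E) : ℕ) + ((2 : ℕ) + 3) * T)) ^ T * (88 * ((2 : ℕ) + 1) * ((2 * E : ℕ) + 1)) ^ (2 * E)) *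
        ((4 * (2 * E) + (2 + 3) * T : ℕ) * (B + 1) ^ (4 * (2 * E) + (2 + 3) * T))) ≤ x ^ 2 * ((x ^ (11 * T) * x ^ (11 * (2 * T))) * (x ^ 5 * x ^ (26 * T))) := by
    gcongr
  have m1 : x ^ ((n + 5) * T) * x ^ ((n + 3) * 3) * (x ^ ((2 * n + 4) * (2 * T)) * x ^ n * x ^ 2) ≤ x ^ ((9 * n + 100) * T) := by
    rw [← pow_add, ← pow_add, ← pow_add, ← pow_add]
    refine pow_le_pow_right₀ hx1 ?_
    have q0 : n ≤ n * T := Nat.le_mul_of_pos_right n (by omega)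
    have q1 : (n + 5) * T + (n + 3) * 3 + ((2 * n + 4) * (2 * T) + n + 2) = 5 * (n * T) + 13 * T + 4 * n + 11 := by ring
    have q2 : (9 * n + 100) * T = 9 * (n * T) + 100 * T := by ring
    rw [q1, q2]
    omega
  have m2 : x ^ 2 * ((x ^ (11 * T) * x ^ (11 * (2 * T))) * (x ^ 5 * x ^ (26 * T))) ≤ x ^ ((9 * n + 100) * T) := by
    rw [← pow_add, ← pow_add, ← pow_add, ← pow_add]
    refine pow_le_pow_right₀ hx1 ?_
    have q2 : (9 * n + 100) * T = 9 * (n * T) + 100 * T := by ring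
    rw [q2]
    omega
  rw [← hx]
  calc _ ≤ x ^ 2 * (x ^ ((9 * n + 100) * T) + x ^ ((9 * n + 100) * T)) := by
        refine mul_le_mul hE2 (add_le_add (k1.trans m1) (k2.trans m2)) (by positivity) (by positivity)
    _ ≤ x ^ 2 * (x * x ^ ((9 * n + 100) * T)) := by
        have := hxn ((9 * n + 100) * T)
        nlinarith [hxn 2, mul_nonneg (hxn 2) this]
    _ = x ^ (3 + (9 * n + 100) * T) := by ring
    _ ≤ x ^ ((9 * n + 120) * T) := pow_le_pow_right₀ hx1 (by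
        have q2 : (9 * n + 120) * T = (9 * n + 100) * T + 20 * T := by ring
        rw [q2]
        omega)

/-- the matrix of the derivatives of the functions `Rp κ` at the point with the values `x` -/
def Dm {E : ℕ} (x : Vr 2 → ℂ) (a : Ir 2 E → Fin 2 → ℕ) (k : Ir 2 E → ℕ) : Matrix (Ir 2 E) (Ir 2 E) ℂ :=
  Matrix.of fun i κ => MvPolynomial.aeval x ((der (fun j => (a i j : ℤ)))^[k i] (Rp (fun j => (κ j).val)))

/-- D9. PROOF. `exists_p`, `lam_le`, `flag` (`Λ = C B`), `small_der_U` (`η` = bound of `flag`), `aeval_lip` with `c5_Rp` (degree `≤ 8E + 5T`, length), `det_flag'` with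
`ε k = (B T)^(C' T) (exp (-(k²/C')) + δ)` (`card (Ir 2 E) = E²`, the Lipschitz error is summed over `E² ≤ T²` columns), `(E²)! ≤ (E²)^(E²) ≤ T^(2E²)`. -/
theorem det_small (P : Par 2) (H : ℝ) : ∃ C : ℕ, 1 ≤ C ∧ ∀ D : Dt 2, D.τ = P.z → D.om ^ 2 = Real.pi → D.kap = sE P.z / Real.pi → (∀ l, ‖D.h l‖ ≤ H) →
    ∀ B : ℝ, 2 ≤ B → (∀ v, ‖vals P D v‖ ≤ B) → ∀ E T : ℕ, 1 ≤ E → E ≤ T → ∀ (x : Vr 2 → ℂ) (δ : ℝ), 0 ≤ δ → δ ≤ 1 → (∀ v, ‖x v - vals P D v‖ ≤ δ) →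
      ∀ (a : Ir 2 E → Fin 2 → ℕ) (k : Ir 2 E → ℕ), (∀ i j, a i j ≤ T) → (∀ i, k i ≤ T) →
        ‖(Dm x a k).det‖ ≤ (B * T) ^ (C * T * E ^ 2) * ∏ m ∈ Finset.range (E ^ 2), (Real.exp (-((m : ℝ) ^ 2 / C)) + δ) := by
  obtain ⟨C0, hC0, hp⟩ := exists_p P (by norm_num : 1 ≤ 2)
  obtain ⟨H', hH'⟩ : ∃ H' : ℝ, H' = C0 * max H 1 := ⟨_, rfl⟩
  have hHH : H ≤ H' := by
    rw [hH']
    have h1 : H ≤ max H 1 := le_max_left _ _
    have h2 : (1 : ℝ) ≤ max H 1 := le_max_right _ _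
    nlinarith
  obtain ⟨Cl, hCl, hlam⟩ := lam_le P H'
  obtain ⟨Cf, hCf, hflag⟩ := flag P H'
  obtain ⟨Cd, hCd, hder⟩ := small_der_U P le_rfl H'
  obtain ⟨n, hn⟩ : ∃ n : ℕ, Cd + Cf + Cl ≤ 2 ^ n := by
    obtain ⟨n, hn⟩ := pow_unbounded_of_one_lt (Cd + Cf + Cl) (by norm_num : (1 : ℝ) < 2)
    exact ⟨n, hn.le⟩
  obtain ⟨m0, hm0⟩ := exists_nat_ge Cf
  refine ⟨max (9 * n + 120) m0, le_max_of_le_left (by omega), ?_⟩
  intro D hτ hom hkap hh B hB hv E T hE hT x δ hδ hδ1 hx a k ha hk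
  obtain ⟨p, hpr, hpn⟩ := hp D.h (max H 1) (fun l => (hh l).trans (le_max_left _ _))
  rw [← hH'] at hpn
  have hIs : IsO P D p := ⟨hτ, hom, hkap, hpr⟩
  have hh' : ∀ l, ‖D.h l‖ ≤ H' := fun l => (hh l).trans hHH
  have hom' : ‖D.om‖ ^ 2 = Real.pi := by
    rw [← norm_pow, hom, Complex.norm_real, Real.norm_of_nonneg Real.pi_pos.le]
  have hT1' : 1 ≤ T := hE.trans hT
  have hwp : ∀ l, ‖wp P.z (sE P.z) (D.h l)‖ ≤ 4 * B := by
    intro l
    have h1 := hv (Vr.X l)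
    have h2 : vals P D (Vr.X l) = wp P.z (sE P.z) (D.h l) / D.om ^ 2 := by
      simp only [MSK.vals, Dt.X, add_zero, hτ]
    rw [h2, norm_div, norm_pow, hom', div_le_iff₀ Real.pi_pos] at h1
    have h3 : Real.pi ≤ 4 := Real.pi_le_four
    nlinarith
  have hB4 : (1 : ℝ) ≤ 4 * B := by linarith
  have hΛ := hlam D hτ hom hh' (4 * B) hB4 hwp
  have hΛ1 : 1 ≤ Cl * (4 * B) := by nlinarith
  have hd0 : 0 ≤ Cd := by linarith
  have hf0 : 0 ≤ Cf := by linarith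
  have hl0 : 0 ≤ Cl := by linarith
  obtain ⟨K1, hK1⟩ : ∃ K1 : ℝ, K1 = (Cd * (4 * B) * T ^ 2) ^ T * (Cd * (4 * B)) ^ (2 + 1) * ((Cf * (Cl * (4 * B)) * E) ^ (2 * E) * Cf * E ^ 2) := ⟨_, rfl⟩
  obtain ⟨K2, hK2⟩ : ∃ K2 : ℝ, K2 = E ^ 2 * (((8 * ((2 : ℕ) + 1) * T * ((4 * (2 * E) : ℕ) + ((2 : ℕ) + 3) * T)) ^ T * (88 * ((2 : ℕ) + 1) * ((2 * E : ℕ) + 1)) ^ (2 * E)) *
        ((4 * (2 * E) + (2 + 3) * T : ℕ) * (B + 1) ^ (4 * (2 * E) + (2 + 3) * T))) := ⟨_, rfl⟩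
  have hnum : (E : ℝ) ^ 2 * (K1 + K2) ≤ (B * T) ^ ((9 * n + 120) * T) := by
    rw [hK1, hK2]
    exact d9_num B hB E T hE hT Cd Cf Cl n hd0 hf0 hl0 (by linarith) (by linarith) (by linarith)
  have hB0 : 0 ≤ B := by linarith
  have hK10 : 0 ≤ K1 := by rw [hK1]; positivity
  have hK20 : 0 ≤ K2 := by rw [hK2]; positivity
  have hcard : Fintype.card (Ir 2 E) = E ^ 2 := by simp [Ir]
  have hε0 : ∀ m : ℕ, 0 ≤ (K1 + K2) * (Real.exp (-((m : ℝ) ^ 2 / Cf)) + δ) := fun m =>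
    mul_nonneg (add_nonneg hK10 hK20) (add_nonneg (Real.exp_pos _).le hδ)
  have hdet := det_flag' (E ^ 2) hcard (Dm x a k) (fun m => (K1 + K2) * (Real.exp (-((m : ℝ) ^ 2 / Cf)) + δ)) (fun m _ => hε0 m) (by
    intro m _
    obtain ⟨U, hU1, hU2⟩ := hflag D p hIs hpn (Cl * (4 * B)) hΛ1 hΛ E hE m
    refine ⟨U, hU1, fun c hc hc1 i => ?_⟩
    have h1 := hder D p hIs hpn hh' (4 * B) hB4 hwp E c ((Cf * (Cl * (4 * B)) * E) ^ (2 * E) * Cf * E ^ 2 * Real.exp (-((m : ℝ) ^ 2 / Cf)))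
      (by positivity) (hU2 c hc hc1) T hT1' (a i) (ha i) (k i) (hk i)
    have h2 : ∀ κ : Ir 2 E, ‖MvPolynomial.aeval x ((der (fun j => (a i j : ℤ)))^[k i] (Rp (fun j => (κ j).val))) -
        MvPolynomial.aeval (vals P D) ((der (fun j => (a i j : ℤ)))^[k i] (Rp (fun j => (κ j).val)))‖ ≤
        ((8 * ((2 : ℕ) + 1) * T * ((4 * (2 * E) : ℕ) + ((2 : ℕ) + 3) * T)) ^ T * (88 * ((2 : ℕ) + 1) * ((2 * E : ℕ) + 1)) ^ (2 * E)) *
        ((4 * (2 * E) + (2 + 3) * T : ℕ) * (B + 1) ^ (4 * (2 * E) + (2 + 3) * T)) * δ := by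
      intro κ
      obtain ⟨g1, g2⟩ := d0_Rp 2 T E hT1' hE (a i) (ha i) (k i) (hk i) κ
      have g3 := aeval_lip _ (4 * (2 * E) + (2 + 3) * T) g1 B δ (by linarith) hδ hδ1 (vals P D) x hv hx
      refine g3.trans ?_
      rw [← mul_assoc]
      exact mul_le_mul_of_nonneg_right (mul_le_mul_of_nonneg_right g2 (by positivity)) hδ
    have h3 : ∑ κ, Dm x a k i κ * c κ = ∑ κ, c κ * MvPolynomial.aeval (vals P D) ((der (fun j => (a i j : ℤ)))^[k i] (Rp (fun j => (κ j).val))) +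
        ∑ κ, c κ * (MvPolynomial.aeval x ((der (fun j => (a i j : ℤ)))^[k i] (Rp (fun j => (κ j).val))) -
          MvPolynomial.aeval (vals P D) ((der (fun j => (a i j : ℤ)))^[k i] (Rp (fun j => (κ j).val)))) := by
      rw [← Finset.sum_add_distrib]
      refine Finset.sum_congr rfl fun κ _ => ?_
      simp only [Dm, Matrix.of_apply]
      ring
    rw [h3]
    refine (norm_add_le _ _).trans ?_
    have h4 : ‖∑ κ, c κ * (MvPolynomial.aeval x ((der (fun j => (a i j : ℤ)))^[k i] (Rp (fun j => (κ j).val))) -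
          MvPolynomial.aeval (vals P D) ((der (fun j => (a i j : ℤ)))^[k i] (Rp (fun j => (κ j).val))))‖ ≤ K2 * δ := by
      refine (norm_sum_le _ _).trans ?_
      have h5 : ∀ κ ∈ (Finset.univ : Finset (Ir 2 E)), ‖c κ * (MvPolynomial.aeval x ((der (fun j => (a i j : ℤ)))^[k i] (Rp (fun j => (κ j).val))) -
          MvPolynomial.aeval (vals P D) ((der (fun j => (a i j : ℤ)))^[k i] (Rp (fun j => (κ j).val))))‖ ≤
          ((8 * ((2 : ℕ) + 1) * T * ((4 * (2 * E) : ℕ) + ((2 : ℕ) + 3) * T)) ^ T * (88 * ((2 : ℕ) + 1) * ((2 * E : ℕ) + 1)) ^ (2 * E)) *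
          ((4 * (2 * E) + (2 + 3) * T : ℕ) * (B + 1) ^ (4 * (2 * E) + (2 + 3) * T)) * δ := by
        intro κ _
        rw [norm_mul]
        calc _ ≤ 1 * _ := mul_le_mul (hc1 κ) (h2 κ) (norm_nonneg _) zero_le_one
          _ = _ := one_mul _
      refine (Finset.sum_le_sum h5).trans (le_of_eq ?_)
      rw [Finset.sum_const, Finset.card_univ, hcard, nsmul_eq_mul, hK2]
      push_cast
      ring
    have h6 : ‖∑ κ, c κ * MvPolynomial.aeval (vals P D) ((der (fun j => (a i j : ℤ)))^[k i] (Rp (fun j => (κ j).val)))‖ ≤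
        K1 * Real.exp (-((m : ℝ) ^ 2 / Cf)) := by
      refine h1.trans (le_of_eq ?_)
      rw [hK1]
      ring
    have h7 : 0 ≤ Real.exp (-((m : ℝ) ^ 2 / Cf)) := (Real.exp_pos _).le
    nlinarith [mul_nonneg hK10 hδ, mul_nonneg hK20 h7])
  refine hdet.trans ?_
  rw [Finset.prod_mul_distrib, Finset.prod_const, Finset.card_range, ← mul_assoc]
  have hBT : 1 ≤ B * T := by
    have : (1 : ℝ) ≤ T := by exact_mod_cast hT1'
    nlinarith
  refine mul_le_mul ?_ ?_ (Finset.prod_nonneg fun m _ => add_nonneg (Real.exp_pos _).le hδ) (by positivity)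
  · have h1 : ((E ^ 2).factorial : ℝ) ≤ ((E : ℝ) ^ 2) ^ (E ^ 2) := by
      have := Nat.factorial_le_pow (E ^ 2)
      exact_mod_cast this
    calc ((E ^ 2).factorial : ℝ) * (K1 + K2) ^ (E ^ 2) ≤ ((E : ℝ) ^ 2) ^ (E ^ 2) * (K1 + K2) ^ (E ^ 2) :=
          mul_le_mul_of_nonneg_right h1 (pow_nonneg (add_nonneg hK10 hK20) _)
      _ = ((E : ℝ) ^ 2 * (K1 + K2)) ^ (E ^ 2) := by rw [mul_pow]
      _ ≤ ((B * T) ^ ((9 * n + 120) * T)) ^ (E ^ 2) := pow_le_pow_left₀ (mul_nonneg (by positivity) (add_nonneg hK10 hK20)) hnum _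
      _ = (B * T) ^ ((9 * n + 120) * T * E ^ 2) := by rw [← pow_mul]
      _ ≤ (B * T) ^ (max (9 * n + 120) m0 * T * E ^ 2) := by
        refine pow_le_pow_right₀ hBT ?_
        gcongr
        exact le_max_left _ _
  · refine Finset.prod_le_prod (fun m _ => add_nonneg (Real.exp_pos _).le hδ) fun m _ => ?_
    have h1 : Cf ≤ ((max (9 * n + 120) m0 : ℕ) : ℝ) := hm0.trans (by exact_mod_cast le_max_right _ _)
    have h2 : (m : ℝ) ^ 2 / ((max (9 * n + 120) m0 : ℕ) : ℝ) ≤ (m : ℝ) ^ 2 / Cf :=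
      div_le_div_of_nonneg_left (by positivity) (by linarith) h1
    have h3 : Real.exp (-((m : ℝ) ^ 2 / Cf)) ≤ Real.exp (-((m : ℝ) ^ 2 / ((max (9 * n + 120) m0 : ℕ) : ℝ))) :=
      Real.exp_le_exp.mpr (by linarith)
    linarith

end Pool.Agent.MSU
end

end

section

/-! # U/V5_Rows: the determinant as a polynomial in the values at the base points -/

open Complex MvPolynomial

noncomputable section

namespace Pool.Agent.MSU

open MSD MSP MSK MSR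

/-- V5a. linear algebra. PROOF. The vectors `v_r ∈ ℂ^ι`, `r ∈ R`, have no common nonzero `c` with `∑ c_i v_r i = 0`, so they span `ℂ^ι`; choose `card ι` linearly independent ones. -/
theorem rows_exist {ι R : Type} [Fintype ι] [DecidableEq ι] (S : Set R) (v : R → ι → ℂ) (h : ∀ c : ι → ℂ, c ≠ 0 → ∃ r ∈ S, ∑ i, c i * v r i ≠ 0) :
    ∃ f : ι → R, (∀ i, f i ∈ S) ∧ (Matrix.of fun i j => v (f i) j).det ≠ 0 := by
  have hspan : Submodule.span ℂ (v '' S) = ⊤ := by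
    by_contra hne
    obtain ⟨f, hf, hf'⟩ := Submodule.exists_le_ker_of_lt_top _ (lt_top_iff_ne_top.2 hne)
    have hfv : ∀ w : ι → ℂ, f w = ∑ i, f (Pi.single i 1) * w i := by
      intro w
      conv_lhs => rw [← Finset.univ_sum_single w]
      rw [map_sum]
      apply Finset.sum_congr rfl
      intro i _
      have h1 : (Pi.single i (w i) : ι → ℂ) = w i • Pi.single i 1 := by
        rw [← Pi.single_smul, smul_eq_mul, mul_one]
      rw [h1, map_smul, smul_eq_mul, mul_comm]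
    have hc : (fun i => f (Pi.single i 1)) ≠ 0 := by
      intro h0
      apply hf
      apply LinearMap.ext
      intro w
      rw [hfv w]
      have h2 : ∀ i, f (Pi.single i 1) = 0 := fun i => congrFun h0 i
      simp [h2]
    obtain ⟨r, hr, hr'⟩ := h _ hc
    apply hr'
    have h3 : v r ∈ LinearMap.ker f := hf' (Submodule.subset_span ⟨r, hr, rfl⟩)
    rw [LinearMap.mem_ker, hfv] at h3
    exact h3
  obtain ⟨b, hb, hbs, hbi⟩ := exists_linearIndependent ℂ (v '' S)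
  rw [hspan] at hbs
  have hB : ⊤ ≤ Submodule.span ℂ (Set.range ((↑) : b → ι → ℂ)) := by
    rw [Subtype.range_coe, hbs]
  let B := Module.Basis.mk hbi hB
  let e : ι ≃ b := (Pi.basisFun ℂ ι).indexEquiv B
  have hf : ∀ i : ι, ∃ r ∈ S, v r = (e i : ι → ℂ) := by
    intro i
    obtain ⟨r, hr, hr'⟩ := hb (e i).2
    exact ⟨r, hr, hr'⟩
  choose f hfS hfv using hf
  refine ⟨f, hfS, ?_⟩
  have h4 : LinearIndependent ℂ (fun i => (e i : ι → ℂ)) := hbi.comp e e.injective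
  have h5 : LinearIndependent ℂ (Matrix.of fun i j => v (f i) j).row := by
    have h6 : (Matrix.of fun i j => v (f i) j).row = fun i => (e i : ι → ℂ) := by
      funext i
      exact hfv i
    rw [h6]
    exact h4
  have h7 := Matrix.linearIndependent_rows_iff_isUnit.1 h5
  rw [Matrix.isUnit_iff_isUnit_det] at h7
  exact h7.ne_zero

/-- the determinant as a polynomial -/
def Dp {E : ℕ} (a : Ir 2 E → Fin 2 → ℕ) (k : Ir 2 E → ℕ) : MvPolynomial (Vr 2) ℤ :=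
  (Matrix.of fun i κ : Ir 2 E => (der (fun j => (a i j : ℤ)))^[k i] (Rp (fun j => (κ j).val))).det

/-- V5b. PROOF. `aeval` is a ring homomorphism: `RingHom.map_det`. -/
theorem aeval_Dp {E : ℕ} (a : Ir 2 E → Fin 2 → ℕ) (k : Ir 2 E → ℕ) (x : Vr 2 → ℂ) : aeval x (Dp a k) = (Dm x a k).det := by
  rw [Dp, AlgHom.map_det]
  rfl

/-- V5c. PROOF. `c5_Rp` (`d = 2`, `T = 8E`): every entry has total degree `≤ 8E + 40E = 48E`; the determinant is a sum of products of `E^2` entries. -/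
theorem Dp_deg {E : ℕ} (hE : 1 ≤ E) (a : Ir 2 E → Fin 2 → ℕ) (k : Ir 2 E → ℕ) (ha : ∀ i j, a i j ≤ 8 * E) (hk : ∀ i, k i ≤ 8 * E) :
    (Dp a k).totalDegree ≤ 48 * E ^ 3 := by
  have hent : ∀ i κ : Ir 2 E, ((der (fun j => (a i j : ℤ)))^[k i] (Rp (fun j => (κ j).val))).totalDegree ≤ 48 * E := by
    intro i κ
    have h := (d0_Rp 2 (8 * E) E (by omega) hE (a i) (ha i) (k i) (hk i) κ).1
    omega
  have hcard : Fintype.card (Ir 2 E) = E ^ 2 := by simp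
  rw [Dp, Matrix.det_apply]
  apply totalDegree_finsetSum_le
  intro σ _
  have h1 : (∏ i : Ir 2 E, (Matrix.of fun i κ : Ir 2 E => (der (fun j => (a i j : ℤ)))^[k i]
      (Rp (fun j => (κ j).val))) (σ i) i).totalDegree ≤ 48 * E ^ 3 := by
    refine (totalDegree_finsetProd _ _).trans ?_
    refine (Finset.sum_le_sum fun i _ => hent (σ i) i).trans ?_
    rw [Finset.sum_const, Finset.card_univ, hcard, smul_eq_mul]
    apply le_of_eq
    ring
  rcases Int.units_eq_one_or (Equiv.Perm.sign σ) with h2 | h2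
  · rw [h2, one_smul]
    exact h1
  · rw [h2, Units.neg_smul, one_smul, totalDegree_neg]
    exact h1

/-- the values with given `x_l`, `y_l` -/
def vxy (P : Par 2) (τ om kap : ℂ) (x y : Fin 3 → ℂ) : Vr 2 → ℂ
  | .X l => x l
  | .Y l => y l
  | .Q _ => 0
  | .b l => P.b l
  | .g => 2 / 3 * Real.pi ^ 4 * e4 τ / om ^ 4
  | .k => kap
  | .z => P.z
  | .r => rh

theorem vals_eq (P : Par 2) (D : Dt 2) : MSK.vals P D = vxy P D.τ D.om D.kap (fun l => D.X l 0) (fun l => D.Y l 0) := by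
  funext v
  cases v <;> rfl

/-- the substitution of the values of the other variables -/
def va08s (P : Par 2) (τ om kap : ℂ) : Vr 2 → MvPolynomial (Fin 3 ⊕ Fin 3) ℂ
  | .X l => X (Sum.inl l)
  | .Y l => X (Sum.inr l)
  | .Q _ => C 0
  | .b l => C (P.b l : ℂ)
  | .g => C (2 / 3 * Real.pi ^ 4 * e4 τ / om ^ 4)
  | .k => C kap
  | .z => C P.z
  | .r => C rh

/-- V5d. PROOF. `δ = aeval (X l ↦ X (inl l), Y l ↦ X (inr l), the other variables ↦ C (value)) (Dp)`; the total degree does not increase. -/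
theorem delta_exists (P : Par 2) (τ om kap : ℂ) (Q : MvPolynomial (Vr 2) ℤ) (n : ℕ) (hn : Q.totalDegree ≤ n) :
    ∃ δ : MvPolynomial (Fin 3 ⊕ Fin 3) ℂ, δ.totalDegree ≤ n ∧ ∀ x y : Fin 3 → ℂ, aeval (Sum.elim x y) δ = aeval (vxy P τ om kap x y) Q := by
  have hs : ∀ v, (va08s P τ om kap v).totalDegree ≤ 1 := by
    intro v
    cases v <;> simp [va08s]
  refine ⟨aeval (va08s P τ om kap) Q, le_trans ?_ hn, fun x y => ?_⟩
  · rw [aeval_def, eval₂_eq]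
    refine (totalDegree_finsetSum _ _).trans (Finset.sup_le fun m hm => ?_)
    refine (totalDegree_mul _ _).trans ?_
    have h1 : ((algebraMap ℤ (MvPolynomial (Fin 3 ⊕ Fin 3) ℂ)) (coeff m Q)).totalDegree = 0 := by
      have h2 : (algebraMap ℤ (MvPolynomial (Fin 3 ⊕ Fin 3) ℂ)) (coeff m Q) = C ((coeff m Q : ℤ) : ℂ) := by
        simp
      rw [h2]
      exact totalDegree_C _
    rw [h1, zero_add]
    refine (totalDegree_finsetProd _ _).trans ?_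
    refine le_trans (Finset.sum_le_sum fun i _ => ?_) (le_totalDegree hm)
    calc (va08s P τ om kap i ^ m i).totalDegree ≤ m i * (va08s P τ om kap i).totalDegree := totalDegree_pow _ _
      _ ≤ m i * 1 := Nat.mul_le_mul_left _ (hs i)
      _ = m i := mul_one _
  · have hv : ∀ v, aeval (Sum.elim x y) (va08s P τ om kap v) = vxy P τ om kap x y v := by
      intro v
      cases v <;> simp [va08s, vxy]
    have key : ∀ R : MvPolynomial (Vr 2) ℤ,
        aeval (Sum.elim x y) (aeval (va08s P τ om kap) R) = aeval (vxy P τ om kap x y) R := by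
      intro R
      induction R using MvPolynomial.induction_on with
      | C a => simp
      | add p q hp hq => rw [map_add, map_add, map_add, hp, hq]
      | mul_X p i hp => rw [map_mul, map_mul, map_mul, aeval_X, aeval_X, hp, hv]
    exact key Q

/-- V5e. the equation of the curve. PROOF. `wp_ode` divided by `om^6`. -/
theorem curve_eq (D : Dt 2) (l : Fin 3) :
    D.Y l 0 ^ 2 = 4 * D.X l 0 ^ 3 - 2 * (2 / 3 * Real.pi ^ 4 * e4 D.τ / D.om ^ 4) * D.X l 0 - 8 / 27 * Real.pi ^ 6 * e6 D.τ / D.om ^ 6 := by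
  have h1 := wp_ode D.τ D.im (D.h l) (D.hh l)
  have h2 := D.ne
  unfold Dt.Y Dt.X
  rw [add_zero, div_pow, h1]
  field_simp
  ring

end Pool.Agent.MSU
end

end
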