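import Mathlib
import Pool.Agent.Lib.MP_f58a57_nt.FK.K039
import Pool.Agent.Lib.MP_f58a57_nt.FK.K043
import Pool.Agent.Lib.MP_f58a57_nt.FK.K046

namespace Pool.Agent.MSD
end Pool.Agent.MSD
namespace Pool.Agent.MSK
end Pool.Agent.MSK
namespace Pool.Agent.MSP
end Pool.Agent.MSP
namespace Pool.Agent.MSR
end Pool.Agent.MSR

section

/-! # U/V3_Inj: the zero estimate for the functions `FR` at generic base points -/

open Complex MvPolynomial

noncomputable section

namespace Pool.Agent.MSU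

open MSD MSP MSK MSR

theorem va04_choose (dv : Fin 2 → MvPolynomial (Fin 3) ℂ) {zv zv' : Fin 2 → MvPolynomial (Fin 3) ℂ} {e e' : Fin 2 → Fin 2 → ℂ}
    (hz : zv = zv') (he : e = e') : Classical.choose (phi_exists dv zv e) = Classical.choose (phi_exists dv zv' e') := by
  subst hz
  subst he
  rfl

/-- V3a. PROOF. `WV`, `rhv`, `lin` depend on `D` only through `om` and `s`, and `s` only through `τ, om, kap`. -/
theorem Phi_indep (P : Par 2) (D D' : Dt 2) (h1 : D.τ = D'.τ) (h2 : D.om = D'.om) (h3 : D.kap = D'.kap) : Phi P D = Phi P D' := by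
  have hs : D.s = D'.s := by
    unfold Dt.s
    rw [h1, h2, h3]
  have hZ : Zv P D = Zv P D' := by
    funext j l
    unfold Zv
    rw [h2]
  have he : eK P D = eK P D' := by
    funext i j
    unfold eK WV
    rw [h2, hs]
  have hz : (fun j => lf (Zv P D j)) = fun j => lf (Zv P D' j) := by
    funext j
    exact congrArg lf (congrFun hZ j)
  exact va04_choose _ hz he

/-- V3b. PROOF. `W` from `point P D (2 (E-1))`. Let `D'` have base point `t = D'.h`, `W t ≠ 0`, `c ≠ 0`, and suppose that all the sums vanish for `a j ≤ 8E`, `k ≤ 8E`. Then the derivatives of order `≤ 8E` of `FR P D' c` along `a` vanish (`iteratedDeriv_FR`), so those of `GR` (`GR_vanish` with `T = 8E + 1`); by `link`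
`TH D' 0 (Phi ((a.X)^k) q) = 0`, `q = qc P D' c`. `pow_span` (`K = 8E - 4 ≥ 1`, `max 1 K ≤ 8E`) for the linear functional `p ↦ TH D' 0 (Phi p q)` (`TH_add`, `TH_C_mul`): it vanishes for `deg p ≤ 8E - 4 = 4 * (2(E-1)) + 4`. But `TH D' 0 r = (TE D' r) (D'.h) = (TE D r) t` (`TE_apply`, `TE_indep`), `Phi_indep`, `qc_ne`, `qc_deg`:
contradiction with `point`. -/
theorem inj_generic (P : Par 2) (D : Dt 2) (E : ℕ) (hE : 1 ≤ E) : ∃ W : E3, W ≠ 0 ∧ ∀ D' : Dt 2, D'.τ = D.τ → D'.om = D.om → D'.kap = D.kap →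
    (W : (Fin 3 → ℂ) → ℂ) D'.h ≠ 0 → ∀ c : Ir 2 E → ℂ, c ≠ 0 → ∃ (a : Fin 2 → ℕ) (k : ℕ), (∀ j, a j ≤ 8 * E) ∧ k ≤ 8 * E ∧
      ∑ κ, c κ * aeval (MSK.vals P D') ((der (fun j => (a j : ℤ)))^[k] (Rp (fun j => (κ j).val))) ≠ 0 := by
  obtain ⟨W, hW0, hW⟩ := point P D (2 * (E - 1))
  refine ⟨W, hW0, ?_⟩
  intro D' h1 h2 h3 hWt c hc
  by_contra hcon
  push Not at hcon
  have hF : ∀ a : Fin 2 → ℕ, (∀ j, a j ≤ 8 * E) → ∀ k < 8 * E + 1,
      iteratedDeriv k (fun ζ : ℂ => FR P D' c (fun j => ζ * a j)) 0 = 0 := by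
    intro a ha k hk
    have e1 := iteratedDeriv_FR P D' c (fun j => (a j : ℤ)) k
    rw [hcon a k ha (by omega), mul_zero] at e1
    simpa only [Int.cast_natCast] using e1
  have hL : ∀ a : Fin 2 → ℕ, (∀ j, a j ≤ 8 * E) → ∀ k < 8 * E + 1,
      TH D' (fun _ => 0) (Phi P D' ((∑ i, C (a i : ℂ) * X i) ^ k) (qc P D' c)) = 0 := by
    intro a ha k hk
    rw [← link P D' c (fun i => (a i : ℂ)) k]
    exact GR_vanish P D' c a (8 * E + 1) (hF a ha) k hk
  let L : MvPolynomial (Fin 2) ℂ →ₗ[ℂ] ℂ :=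
    { toFun := fun p => ((TE D' (Phi P D' p (qc P D' c)) : E3) : (Fin 3 → ℂ) → ℂ) D'.h
      map_add' := fun p p' => by
        rw [map_add, LinearMap.add_apply, map_add]
        rfl
      map_smul' := fun r p => by
        rw [map_smul, LinearMap.smul_apply, map_smul]
        rfl }
  have hLa : ∀ p, L p = TH D' (fun _ => 0) (Phi P D' p (qc P D' c)) := by
    intro p
    show ((TE D' (Phi P D' p (qc P D' c)) : E3) : (Fin 3 → ℂ) → ℂ) D'.h = _
    rw [TE_apply]
    simp only [sub_self]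
  have hspan := pow_span (8 * E - 4) L (fun k hk a ha => by
    rw [hLa]
    refine hL a (fun j => (ha j).trans ?_) k (by omega)
    rw [max_le_iff]
    omega)
  obtain ⟨p, hp, hne⟩ := hW D'.h hWt (qc P D' c) (qc_deg P D' c) (qc_ne P D' c hc)
  apply hne
  have e2 := hspan p (by omega)
  rw [TE_indep D D' h1.symm, Phi_indep P D D' h1.symm h2.symm h3.symm]
  exact e2

end Pool.Agent.MSU
end

end

section

/-! # U/V6_Dense: a base point where all sign changes are nonzero -/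

open Complex MvPolynomial

noncomputable section

namespace Pool.Agent.MSU

open MSD MSP MSK MSR

/-- V6a. `D` with another base point -/
def rebase (D : Dt 2) (h : Fin 3 → ℂ) (hh : ∀ l, th D.τ (h l) ≠ 0) : Dt 2 := ⟨D.τ, D.im, D.om, D.ne, D.kap, h, hh⟩

theorem v6_N1_neg (τ t : ℂ) : deriv (th τ) (-t) = deriv (th τ) t := by
  have h : (fun u : ℂ => th τ (-u)) = fun u => -th τ u := by
    funext u; exact th_neg τ u
  have h1 : deriv (fun u : ℂ => th τ (-u)) t = deriv (fun u => -th τ u) t := by rw [h]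
  rw [deriv_comp_neg, deriv.fun_neg] at h1
  exact neg_injective h1

theorem v6_d2_neg (τ t : ℂ) : deriv (deriv (th τ)) (-t) = -deriv (deriv (th τ)) t := by
  have h : (fun u : ℂ => deriv (th τ) (-u)) = fun u => deriv (th τ) u := by
    funext u; exact v6_N1_neg τ u
  have h1 : deriv (fun u : ℂ => deriv (th τ) (-u)) t = deriv (fun u => deriv (th τ) u) t := by rw [h]
  rw [deriv_comp_neg] at h1
  change -deriv (deriv (th τ)) (-t) = deriv (deriv (th τ)) t at h1
  rw [← h1, neg_neg]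

theorem v6_wp_neg (τ s t : ℂ) : wp τ s (-t) = wp τ s t := by
  simp only [wp, N2, N0, v6_N1_neg, v6_d2_neg, th_neg]
  ring

/-- V6b. PROOF. `wp` is even (`th` is odd: `N2` is even, `N0^2` is even), its derivative is odd. -/
theorem wp_even (τ : ℂ) (hτ : 0 < τ.im) (t : ℂ) : wp τ (sE τ) (-t) = wp τ (sE τ) t ∧
    deriv (wp τ (sE τ)) (-t) = -deriv (wp τ (sE τ)) t := by
  refine ⟨v6_wp_neg τ _ t, ?_⟩
  have h : (fun u : ℂ => wp τ (sE τ) (-u)) = fun u => wp τ (sE τ) u := by
    funext u; exact v6_wp_neg τ _ u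
  have h1 : deriv (fun u : ℂ => wp τ (sE τ) (-u)) t = deriv (fun u => wp τ (sE τ) u) t := by rw [h]
  rw [deriv_comp_neg] at h1
  rw [← h1, neg_neg]

/-- finitely many analytic functions, none identically zero, on a preconnected set have a common point where they do not vanish -/
theorem v6_common {E : Type*} [NormedAddCommGroup E] [NormedSpace ℂ E] {ι : Type*} [DecidableEq ι] (U : Set E)
    (hU : IsOpen U) (hP : IsPreconnected U) (f : ι → E → ℂ) (hf : ∀ i, AnalyticOnNhd ℂ (f i) U) (hne : U.Nonempty)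
    (ha : ∀ i, ∃ a ∈ U, f i a ≠ 0) (s : Finset ι) : ∃ h ∈ U, ∀ i ∈ s, f i h ≠ 0 := by
  induction s using Finset.induction_on with
  | empty =>
    obtain ⟨a, haU⟩ := hne
    exact ⟨a, haU, by simp⟩
  | insert j s hj ih =>
    obtain ⟨a, haU, has⟩ := ih
    by_contra hcon
    push Not at hcon
    have hev : ∀ᶠ x in nhds a, ∀ i ∈ s, f i x ≠ 0 := by
      rw [Filter.eventually_all_finset]
      intro i hi
      exact (hf i a haU).continuousAt.eventually_ne (has i hi)
    have hUa : ∀ᶠ x in nhds a, x ∈ U := hU.mem_nhds haU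
    have hz : f j =ᶠ[nhds a] 0 := by
      filter_upwards [hev, hUa] with x hx hxU
      by_contra hne0
      obtain ⟨i, hi, hi0⟩ := hcon x hxU
      rcases Finset.mem_insert.1 hi with rfl | hi'
      · exact hne0 hi0
      · exact hx i hi' hi0
    have h0 := (hf j).eqOn_zero_of_preconnected_of_eventuallyEq_zero hP haU hz
    obtain ⟨b, hbU, hb⟩ := ha j
    exact hb (h0 hbU)

/-- the values as functions of the base point, with signs -/
theorem v6_an (P : Par 2) (D : Dt 2) (Q : MvPolynomial (Vr 2) ℤ) (ε : Fin 3 → Bool) :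
    AnalyticOnNhd ℂ (fun h : Fin 3 → ℂ => aeval (vxy P D.τ D.om D.kap (fun l => wp D.τ (sE D.τ) (h l) / D.om ^ 2)
      (sg3 ε (fun l => deriv (wp D.τ (sE D.τ)) (h l) / D.om ^ 3))) Q) {h | ∀ l, th D.τ (h l) ≠ 0} := by
  intro h hh
  have hX : ∀ l, AnalyticAt ℂ (fun h : Fin 3 → ℂ => wp D.τ (sE D.τ) (h l) / D.om ^ 2) h := by
    intro l
    have h1 : AnalyticAt ℂ (fun h : Fin 3 → ℂ => h l) h :=
      (ContinuousLinearMap.proj (R := ℂ) (φ := fun _ : Fin 3 => ℂ) l).analyticAt h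
    have h2 : AnalyticAt ℂ (wp D.τ (sE D.τ)) (h l) := wp_analyticAt D.τ _ D.im (h l) (hh l)
    have h3 : AnalyticAt ℂ (fun h : Fin 3 → ℂ => wp D.τ (sE D.τ) (h l)) h :=
      AnalyticAt.fun_comp (f := fun h : Fin 3 → ℂ => h l) (g := wp D.τ (sE D.τ)) h2 h1
    simpa only [div_eq_mul_inv] using h3.fun_mul (analyticAt_const (v := (D.om ^ 2)⁻¹))
  have hY : ∀ l, AnalyticAt ℂ (fun h : Fin 3 → ℂ => deriv (wp D.τ (sE D.τ)) (h l) / D.om ^ 3) h := by
    intro l
    have h1 : AnalyticAt ℂ (fun h : Fin 3 → ℂ => h l) h :=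
      (ContinuousLinearMap.proj (R := ℂ) (φ := fun _ : Fin 3 => ℂ) l).analyticAt h
    have h2 : AnalyticAt ℂ (deriv (wp D.τ (sE D.τ))) (h l) := (wp_analyticAt D.τ _ D.im (h l) (hh l)).deriv
    have h3 : AnalyticAt ℂ (fun h : Fin 3 → ℂ => deriv (wp D.τ (sE D.τ)) (h l)) h :=
      AnalyticAt.fun_comp (f := fun h : Fin 3 → ℂ => h l) (g := deriv (wp D.τ (sE D.τ))) h2 h1
    simpa only [div_eq_mul_inv] using h3.fun_mul (analyticAt_const (v := (D.om ^ 3)⁻¹))
  have hv : ∀ v : Vr 2, AnalyticAt ℂ (fun h : Fin 3 → ℂ => vxy P D.τ D.om D.kap (fun l => wp D.τ (sE D.τ) (h l) / D.om ^ 2)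
      (sg3 ε (fun l => deriv (wp D.τ (sE D.τ)) (h l) / D.om ^ 3)) v) h := by
    intro v
    cases v with
    | X l => exact hX l
    | Y l =>
      by_cases hε : ε l = true
      · simpa only [vxy, sg3, hε, if_true] using hY l
      · have hε' : ε l = false := by simpa using hε
        simpa only [vxy, sg3, hε', if_false, Bool.false_eq_true] using (hY l).fun_neg
    | Q _ => exact analyticAt_const
    | b l => exact analyticAt_const
    | g => exact analyticAt_const
    | k => exact analyticAt_const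
    | z => exact analyticAt_const
    | r => exact analyticAt_const
  induction Q using MvPolynomial.induction_on with
  | C a =>
    simp only [aeval_C]
    exact analyticAt_const
  | add p q hp hq =>
    simp only [map_add]
    exact hp.add hq
  | mul_X p v hp =>
    simp only [map_mul, aeval_X]
    exact hp.mul (hv v)

/-- V6c. PROOF. `Ω = {h : ∀ l, th τ (h l) ≠ 0}` is open and connected (a product of the connected sets of `t8c_preconn`), symmetric under sign changes. `F(h) = aeval (vals P (rebase D h)) Q` is analytic on `Ω` (`wp_analyticAt`, its derivative), and `F(ε h)` is `aeval (vxy .. x (ε y))` by `wp_even`. `F` is not identically `0` on `Ω`,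
so by the identity theorem none of the `8` functions `h ↦ F(ε h)` vanishes on a nonempty open subset of `Ω`; their zero sets are closed with empty interior in `Ω`, so there is `h ∈ Ω` where all are `≠ 0`. -/
theorem all_signs (P : Par 2) (D : Dt 2) (Q : MvPolynomial (Vr 2) ℤ) (h0 : aeval (MSK.vals P D) Q ≠ 0) :
    ∃ D' : Dt 2, D'.τ = D.τ ∧ D'.om = D.om ∧ D'.kap = D.kap ∧
      ∀ ε : Fin 3 → Bool, aeval (vxy P D.τ D.om D.kap (fun l => D'.X l 0) (sg3 ε (fun l => D'.Y l 0))) Q ≠ 0 := by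
  have hset : {h : Fin 3 → ℂ | ∀ l, th D.τ (h l) ≠ 0} = Set.pi Set.univ (fun _ : Fin 3 => {t : ℂ | th D.τ t ≠ 0}) := by
    ext h
    simp [Set.mem_pi]
  have hU : IsOpen {h : Fin 3 → ℂ | ∀ l, th D.τ (h l) ≠ 0} := by
    rw [hset]
    exact isOpen_set_pi Set.finite_univ fun _ _ => t8c_open D.τ D.im
  have hP : IsPreconnected {h : Fin 3 → ℂ | ∀ l, th D.τ (h l) ≠ 0} := by
    rw [hset]
    exact isPreconnected_univ_pi fun _ => t8c_preconn D.τ D.im
  obtain ⟨h, hh, hs⟩ := v6_common {h : Fin 3 → ℂ | ∀ l, th D.τ (h l) ≠ 0} hU hP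
    (fun (ε : Fin 3 → Bool) (h : Fin 3 → ℂ) => aeval (vxy P D.τ D.om D.kap (fun l => wp D.τ (sE D.τ) (h l) / D.om ^ 2)
      (sg3 ε (fun l => deriv (wp D.τ (sE D.τ)) (h l) / D.om ^ 3))) Q) (fun ε => v6_an P D Q ε) ⟨D.h, D.hh⟩
    (by
      intro ε
      refine ⟨fun l => if ε l then D.h l else -D.h l, ?_, ?_⟩
      · intro l
        by_cases hε : ε l = true
        · simpa only [hε, if_true] using D.hh l
        · have hε' : ε l = false := by simpa using hε
          simp only [hε', if_false, Bool.false_eq_true]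
          rw [th_neg]
          exact neg_ne_zero.2 (D.hh l)
      · have hx : (fun l => wp D.τ (sE D.τ) ((fun l => if ε l then D.h l else -D.h l) l) / D.om ^ 2) = fun l => D.X l 0 := by
          funext l
          by_cases hε : ε l = true
          · simp only [hε, if_true, Dt.X, add_zero]
          · have hε' : ε l = false := by simpa using hε
            simp only [hε', if_false, Bool.false_eq_true, Dt.X, add_zero, (wp_even D.τ D.im (D.h l)).1]
        have hy : (sg3 ε (fun l => deriv (wp D.τ (sE D.τ)) ((fun l => if ε l then D.h l else -D.h l) l) / D.om ^ 3)) = fun l => D.Y l 0 := by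
          funext l
          by_cases hε : ε l = true
          · simp only [sg3, hε, if_true, Dt.Y, add_zero]
          · have hε' : ε l = false := by simpa using hε
            simp only [sg3, hε', if_false, Bool.false_eq_true, Dt.Y, add_zero, (wp_even D.τ D.im (D.h l)).2]
            ring
        intro hcon
        apply h0
        rw [vals_eq]
        rw [hx, hy] at hcon
        exact hcon)
    Finset.univ
  refine ⟨rebase D h hh, rfl, rfl, rfl, ?_⟩
  intro ε
  have h1 := hs ε (Finset.mem_univ _)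
  have hx : (fun l => (rebase D h hh).X l 0) = fun l => wp D.τ (sE D.τ) (h l) / D.om ^ 2 := by
    funext l
    simp only [Dt.X, rebase, add_zero]
  have hy : (fun l => (rebase D h hh).Y l 0) = fun l => deriv (wp D.τ (sE D.τ)) (h l) / D.om ^ 3 := by
    funext l
    simp only [Dt.Y, rebase, add_zero]
  rw [hx, hy]
  exact h1

end Pool.Agent.MSU
end

end

section

/-! # U/V7_Final: the zero estimate -/

open Complex MvPolynomial

noncomputable section

namespace Pool.Agent.MSU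

open MSD MSP MSK MSR

/-- V7a. a generic base point with the rows. PROOF. `D0 : Dt 2` with the given `τ, om, kap` and any base point; `inj_generic`; `W ≠ 0` and `∏ th (t l) ≠ 0` as an entire function: a point `t` where both are `≠ 0` (`E3.dense_ne` and open, or a product in the domain `E3`; `TE D0 1`). `D = rebase D0 t`; `rows_exist` for `R = (Fin 2 → ℕ) × ℕ`,
`S = {(a, k) : a j ≤ 8E, k ≤ 8E}`. -/
theorem generic_rows (P : Par 2) (τ om kap : ℂ) (hτ : 0 < τ.im) (hom : om ≠ 0) (E : ℕ) (hE : 1 ≤ E) : ∃ D : Dt 2, D.τ = τ ∧ D.om = om ∧ D.kap = kap ∧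
    ∃ (a : Ir 2 E → Fin 2 → ℕ) (k : Ir 2 E → ℕ), (∀ i j, a i j ≤ 8 * E) ∧ (∀ i, k i ≤ 8 * E) ∧ (Dm (MSK.vals P D) a k).det ≠ 0 := by
  have h12 : th τ (1 / 2) ≠ 0 := by
    have h1 := th_real_ne τ hτ (1 / 2) (fun m hm => by
      have h2 : (1 : ℝ) = ((2 * m : ℤ) : ℝ) := by
        push_cast
        linarith
      have h3 : (1 : ℤ) = 2 * m := by exact_mod_cast h2
      omega)
    have h4 : (((1 / 2 : ℝ)) : ℂ) = 1 / 2 := by norm_num
    rwa [h4] at h1
  let D0 : Dt 2 := ⟨τ, hτ, om, hom, kap, fun _ => 1 / 2, fun _ => h12⟩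
  obtain ⟨W, hW, hin⟩ := inj_generic P D0 E hE
  have hWT : W * TE D0 1 ≠ 0 := mul_ne_zero hW (TE_one_ne D0)
  obtain ⟨t, ht⟩ := (E3.dense_ne (W * TE D0 1) hWT).nonempty
  have ht' : (W : (Fin 3 → ℂ) → ℂ) t * (TE D0 1 : (Fin 3 → ℂ) → ℂ) t ≠ 0 := ht
  have htW := left_ne_zero_of_mul ht'
  have htT := right_ne_zero_of_mul ht'
  have hth : ∀ l, th D0.τ (t l) ≠ 0 := by
    intro l hl
    apply htT
    rw [TE_apply, TH_one]
    unfold MSK.pp
    refine Finset.prod_eq_zero (Finset.mem_univ l) ?_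
    rw [add_sub_cancel]
    exact hl
  have hr := rows_exist (ι := Ir 2 E) (R := (Fin 2 → ℕ) × ℕ) {r | (∀ j, r.1 j ≤ 8 * E) ∧ r.2 ≤ 8 * E}
    (fun r κ => aeval (MSK.vals P (rebase D0 t hth)) ((der (fun j => (r.1 j : ℤ)))^[r.2] (Rp (fun j => (κ j).val))))
    (fun c hc => by
      obtain ⟨a, k, h1, h2, h3⟩ := hin (rebase D0 t hth) rfl rfl rfl htW c hc
      exact ⟨(a, k), ⟨h1, h2⟩, h3⟩)
  obtain ⟨f, hf, hdet⟩ := hr
  exact ⟨rebase D0 t hth, rfl, rfl, rfl, fun i => (f i).1, fun i => (f i).2, fun i j => (hf i).1 j, fun i => (hf i).2, hdet⟩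

/-- V7b. ZERO ESTIMATE. PROOF. `C = 576`. `generic_rows`, `Q = Dp a k`; `all_signs`; `delta_exists`, `sign_norm` with `n = 48 E^3`, `g, G` as in `curve_eq`: `W` with `aeval x W = ∏ ε, aeval (vxy .. x (ε y)) Q` on the curve, so `W ≠ 0` (value at `D'`). `int_point` (`12 · 48 E^3 = 576 E^3`). For `D` with `D.X l 0 = x l`:
`curve_eq`, so `∏ ε .. ≠ 0`, in particular the factor `ε = true`: `(Dm (vals P D) a k).det ≠ 0` (`aeval_Dp`, `vals_eq`), so `Dm *ᵥ c ≠ 0` for `c ≠ 0` (`Matrix.eq_zero_of_mulVec_eq_zero`): some row is `≠ 0`. -/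
theorem zprime (P : Par 2) : ∃ C : ℕ, ∀ (τ om kap : ℂ), 0 < τ.im → om ≠ 0 → ∀ (X0 E : ℕ), 1 ≤ E →
    ∃ x : Fin 3 → ℕ, (∀ l, X0 ≤ x l ∧ x l ≤ X0 + C * E ^ 3) ∧ ∀ D : Dt 2, D.τ = τ → D.om = om → D.kap = kap → (∀ l, D.X l 0 = x l) →
      ∀ c : Ir 2 E → ℂ, c ≠ 0 → ∃ (a : Fin 2 → ℕ) (k : ℕ), (∀ j, a j ≤ 8 * E) ∧ k ≤ 8 * E ∧
        ∑ κ, c κ * aeval (MSK.vals P D) ((der (fun j => (a j : ℤ)))^[k] (Rp (fun j => (κ j).val))) ≠ 0 := by
  refine ⟨576, ?_⟩
  intro τ om kap hτ hom X0 E hE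
  obtain ⟨D, rfl, rfl, rfl, a, k, ha, hk, hdet⟩ := generic_rows P τ om kap hτ hom E hE
  rw [← aeval_Dp] at hdet
  obtain ⟨D', e1, e2, e3, hs⟩ := all_signs P D (Dp a k) hdet
  obtain ⟨δ, hδ, hδe⟩ := delta_exists P D.τ D.om D.kap (Dp a k) (48 * E ^ 3) (Dp_deg hE a k ha hk)
  obtain ⟨W, hWd, hWe⟩ := sign_norm δ (48 * E ^ 3) hδ (2 / 3 * Real.pi ^ 4 * e4 D.τ / D.om ^ 4)
    (8 / 27 * Real.pi ^ 6 * e6 D.τ / D.om ^ 6)
  have hW : W ≠ 0 := by
    intro h0
    have h1 := hWe (fun l => D'.X l 0) (fun l => D'.Y l 0) (fun l => by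
      have h2 := curve_eq D' l
      rw [e1, e2] at h2
      exact h2)
    rw [h0, map_zero] at h1
    refine Finset.prod_ne_zero_iff.2 (fun ε _ => ?_) h1.symm
    rw [hδe]
    exact hs ε
  obtain ⟨x, hx, hxW⟩ := int_point W hW (12 * (48 * E ^ 3)) hWd X0
  refine ⟨x, fun l => ⟨(hx l).1, (hx l).2.trans (by ring_nf; exact le_refl _)⟩, ?_⟩
  intro D'' f1 f2 f3 f4 c hc
  have h1 := hWe (fun l => (x l : ℂ)) (fun l => D''.Y l 0) (fun l => by
      have h2 := curve_eq D'' l
      rw [f1, f2, f4] at h2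
      exact h2)
  rw [h1] at hxW
  have h3 := Finset.prod_ne_zero_iff.1 hxW (fun _ => true) (Finset.mem_univ _)
  have h4 : sg3 (fun _ => true) (fun l => D''.Y l 0) = fun l => D''.Y l 0 := by
    funext l
    simp only [sg3, if_true]
  rw [h4, hδe] at h3
  have h5 : vxy P D.τ D.om D.kap (fun l => (x l : ℂ)) (fun l => D''.Y l 0) = MSK.vals P D'' := by
    rw [vals_eq, f1, f2, f3]
    congr 1
    funext l
    exact (f4 l).symm
  rw [h5, aeval_Dp] at h3
  have h6 : (Dm (MSK.vals P D'') a k).mulVec c ≠ 0 := fun h7 => hc (Matrix.eq_zero_of_mulVec_eq_zero h3 h7)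
  obtain ⟨i, hi⟩ := Function.ne_iff.1 h6
  refine ⟨a i, k i, ha i, hk i, ?_⟩
  intro h8
  apply hi
  rw [Pi.zero_apply, Matrix.mulVec, dotProduct, ← h8]
  refine Finset.sum_congr rfl fun κ _ => ?_
  rw [mul_comm]
  rfl

end Pool.Agent.MSU
end

end

section

/-!
# MP_f58a57_nt, cubic points: the theorem
-/

open Complex

noncomputable section

namespace Pool.Agent.MSL

open MSD MSP MSK MSR

theorem detSmall (P : Par 2) : DetSmall P := fun H => MSU.det_small P H

theorem zeroEst (P : Par 2) : ZeroEst P := MSU.zprime P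

/-- `j(z), j'(z), j''(z)` are algebraically independent for cubic `z` -/
theorem cubic_points (z : ℂ) (hz : 0 < z.im) (hj : deriv jj z ≠ 0) (hd : (minpoly ℚ z).natDegree = 3) :
    AlgebraicIndependent ℚ ![jj z, deriv jj z, deriv (deriv jj) z] :=
  cubic_indep detSmall zeroEst z hz hj hd

theorem cubic_trdeg (z : ℂ) (hz : 0 < z.im) (hj : deriv jj z ≠ 0) (hd : (minpoly ℚ z).natDegree = 3) (S : Set ℂ)
    (m0 : jj z ∈ S) (m1 : deriv jj z ∈ S) (m2 : deriv (deriv jj) z ∈ S) :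
    (3 : Cardinal) ≤ Algebra.trdeg ℚ (IntermediateField.adjoin ℚ S) := by
  have key := cubic_points z hz hj hd
  have s0 : jj z ∈ IntermediateField.adjoin ℚ S := IntermediateField.subset_adjoin _ _ m0
  have s1 : deriv jj z ∈ IntermediateField.adjoin ℚ S := IntermediateField.subset_adjoin _ _ m1
  have s2 : deriv (deriv jj) z ∈ IntermediateField.adjoin ℚ S := IntermediateField.subset_adjoin _ _ m2
  have hx : AlgebraicIndependent ℚ ![(⟨jj z, s0⟩ : IntermediateField.adjoin ℚ S), ⟨deriv jj z, s1⟩, ⟨deriv (deriv jj) z, s2⟩] := by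
    apply AlgebraicIndependent.of_comp (IntermediateField.val _)
    have e : ((IntermediateField.val (IntermediateField.adjoin ℚ S)) ∘
        ![(⟨jj z, s0⟩ : IntermediateField.adjoin ℚ S), ⟨deriv jj z, s1⟩, ⟨deriv (deriv jj) z, s2⟩]) =
        ![jj z, deriv jj z, deriv (deriv jj) z] := by
      funext i
      fin_cases i <;> rfl
    rw [e]
    exact key
  have h2 := hx.cardinalMk_le_trdeg
  simpa using h2

end Pool.Agent.MSL
end

end
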