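import Mathlib
import Pool.Agent.Lib.MP_f58a57_nt.Defs

section

/-! # H00: definitions for the second version (fields of rational functions) (MP_f58a57_nt) -/

open Complex ModularForm EisensteinSeries Filter
open UpperHalfPlane hiding I
open scoped Topology MatrixGroups Polynomial

noncomputable section

namespace Pool.Agent.MSD

/-- the field `ℚ(√(-d))` as a subfield of `ℂ` -/
def KF (d : ℕ) : IntermediateField ℚ ℂ := IntermediateField.adjoin ℚ {rt d}

/-- value of a rational function over `ℚ(√(-d))` at a complex number (junk value `0` at the poles) -/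
def evr {d : ℕ} (R : RatFunc (KF d)) (x : ℂ) : ℂ := R.eval (algebraMap (KF d) ℂ) x

/-- value of the denominator of a rational function over `ℚ(√(-d))` -/
def dn {d : ℕ} (R : RatFunc (KF d)) (x : ℂ) : ℂ := R.denom.eval₂ (algebraMap (KF d) ℂ) x

/-- `R' = (a R + b)/(c R + e)` with rational `a b c e`, `a e - b c ≠ 0` -/
def GRel {d : ℕ} (R R' : RatFunc (KF d)) : Prop :=
  ∃ a b c e : ℚ, a * e - b * c ≠ 0 ∧
    R' * (RatFunc.C (c : KF d) * R + RatFunc.C (e : KF d)) = RatFunc.C (a : KF d) * R + RatFunc.C (b : KF d)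

/-- Value of a polynomial `P` whose coefficients are functions of `x`: the coefficients are evaluated at `x`, the variables at `y`. -/
def pev {σ : Type} (P : MvPolynomial σ (ℂ → ℂ)) (x : ℂ) (y : σ → ℂ) : ℂ :=
  MvPolynomial.eval y (MvPolynomial.map (Pi.evalRingHom (fun _ : ℂ => ℂ) x) P)

/-- the point with the multiplicative coordinate `V = (v - ρ)/(v - ρ')` -/
def hv (ρ ρ' : ℝ) (V : ℂ) : ℂ := (ρ - ρ' * V) / (1 - V)

/-- the factor `a = ((1 - δ V)/(1 - V))²` -/
def ha (V δ : ℂ) : ℂ := ((1 - δ * V) / (1 - V)) ^ 2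

/-- the quasi-modular term -/
def hb (ρ ρ' : ℝ) (V δ : ℂ) : ℂ := -6 * I / Real.pi * (1 - δ) * (1 - δ * V) / ((ρ - ρ') * (1 - V))

/-- The values of `e2, e4, e6` at the point with coordinate `δ V`, expressed through the values at the point with coordinate `V`
(valid for `δ = μ⁻²`, `μ` the eigenvalue of an automorph of `ρ, ρ'`). -/
def hE (ρ ρ' : ℝ) (κ : Fin 3) (V δ : ℂ) : ℂ :=
  ![δ⁻¹ * (ha V δ * e2 (hv ρ ρ' V) + hb ρ ρ' V δ), δ⁻¹ ^ 2 * ha V δ ^ 2 * e4 (hv ρ ρ' V),
    δ⁻¹ ^ 3 * ha V δ ^ 3 * e6 (hv ρ ρ' V)] κ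

/-- `x` is a limit of the arc: property `near x, (f y).im = 0 → (g y).im = 0` -/
def SameArc (f g : ℂ → ℂ) (x : ℂ) : Prop := ∀ᶠ y in 𝓝 x, (f y).im = 0 → (g y).im = 0

/-- the functions for several variables in blocks: the coordinates `x l` and `e2, e4, e6` at `U(x)/V(x)` -/
def famM {s r : ℕ} (d : Fin r → ℕ) {ι : Fin r → Type} (U V : ∀ b, ι b → MvPolynomial (Fin s) (KF (d b)))
    (x : Fin s → ℂ) : Fin s ⊕ (Σ b, ι b × Fin 3) → ℂ
  | Sum.inl l => x l
  | Sum.inr p => EE p.2.2 (MvPolynomial.aeval x (U p.1 p.2.1) / MvPolynomial.aeval x (V p.1 p.2.1))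

end Pool.Agent.MSD
end

end

section

/-! # H24: for a generic phase the arcs are different (MP_f58a57_nt) -/

open Complex ModularForm EisensteinSeries Filter
open UpperHalfPlane hiding I
open scoped Topology MatrixGroups Polynomial

noncomputable section

namespace Pool.Agent.MSD

/-- H24a. `exp(i)` has no real powers. (`sin k ≠ 0` for `k ≥ 1` because `π` is irrational.) -/
theorem phase_pow (k : ℕ) (hk : 1 ≤ k) : (Complex.exp I ^ k).im ≠ 0 := by
  rw [← Complex.exp_nat_mul]
  have h1 : ((k : ℂ) * I) = ((k : ℝ) : ℂ) * I := by push_cast; ring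
  rw [h1, Complex.exp_ofReal_mul_I_im]
  intro h0
  rw [Real.sin_eq_zero_iff] at h0
  obtain ⟨n, hn⟩ := h0
  have hn0 : (n : ℝ) ≠ 0 := by
    intro h
    rw [h, zero_mul] at hn
    have : (k : ℝ) ≠ 0 := by positivity
    exact this hn.symm
  have hpi : Real.pi = (((k : ℚ) / (n : ℚ) : ℚ) : ℝ) := by
    push_cast
    field_simp
    linarith
  exact irrational_pi ⟨_, hpi.symm⟩

/-- the derivative of a function real on the reals is real on the reals -/
theorem h24_deriv_real (F : ℂ → ℂ) (s : ℝ) (hF : AnalyticOnNhd ℂ F (Metric.ball 0 s))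
    (hre : ∀ u : ℝ, |u| < s → (F u).im = 0) : ∀ u : ℝ, |u| < s → (deriv F u).im = 0 := by
  intro u hu
  have hmem : (u : ℂ) ∈ Metric.ball (0 : ℂ) s := by simpa [Complex.norm_real] using hu
  have h1 : HasDerivAt F (deriv F u) (u : ℂ) := (hF _ hmem).differentiableAt.hasDerivAt
  have h2 : HasDerivAt (fun x : ℝ => F x) (deriv F u) u := h1.comp_ofReal
  have h3 : HasDerivAt (fun x : ℝ => (F x).im) (deriv F u).im u :=
    (Complex.imCLM.hasFDerivAt.comp_hasDerivAt u h2)
  have h4 : (fun x : ℝ => (F x).im) =ᶠ[𝓝 u] fun _ => 0 := by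
    have : ∀ᶠ x : ℝ in 𝓝 u, |x| < s := (continuous_abs.continuousAt.eventually (gt_mem_nhds hu))
    filter_upwards [this] with x hx using hre x hx
  have h5 : HasDerivAt (fun x : ℝ => (F x).im) 0 u := (hasDerivAt_const u (0 : ℝ)).congr_of_eventuallyEq h4
  exact h3.unique h5

/-- reflection: a function which is real on a piece of the real line is symmetric -/
theorem h24_refl (F : ℂ → ℂ) (s : ℝ) (hF : AnalyticOnNhd ℂ F (Metric.ball 0 s)) (q : ℝ) (hq : |q| < s)
    (h : ∀ᶠ u : ℝ in 𝓝 q, (F u).im = 0) : ∀ u : ℝ, |u| < s → (F u).im = 0 := by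
  set G : ℂ → ℂ := (starRingEnd ℂ) ∘ F ∘ (starRingEnd ℂ) with hG
  have hball : ∀ z : ℂ, z ∈ Metric.ball (0 : ℂ) s ↔ (starRingEnd ℂ) z ∈ Metric.ball (0 : ℂ) s := by
    intro z; simp
  have hGa : AnalyticOnNhd ℂ G (Metric.ball 0 s) := by
    apply DifferentiableOn.analyticOnNhd _ Metric.isOpen_ball
    intro z hz
    apply DifferentiableAt.differentiableWithinAt
    rw [hG, differentiableAt_conj_conj_iff]
    exact (hF _ ((hball z).1 hz)).differentiableAt
  have hmem : (q : ℂ) ∈ Metric.ball (0 : ℂ) s := by simpa [Complex.norm_real] using hq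
  have hfreq : ∃ᶠ z in 𝓝[≠] (q : ℂ), F z = G z := by
    have h1 : Tendsto (fun x : ℝ => (x : ℂ)) (𝓝[≠] q) (𝓝[≠] (q : ℂ)) := by
      apply tendsto_nhdsWithin_of_tendsto_nhds_of_eventually_within
      · exact (Complex.continuous_ofReal.tendsto q).mono_left nhdsWithin_le_nhds
      · filter_upwards [self_mem_nhdsWithin] with x hx
        simpa using hx
    have h2 : ∀ᶠ x : ℝ in 𝓝[≠] q, F x = G x := by
      filter_upwards [nhdsWithin_le_nhds h] with x hx
      simp only [hG, Function.comp_apply, Complex.conj_ofReal]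
      exact (Complex.conj_eq_iff_im.2 hx).symm
    exact h1.frequently h2.frequently
  have heq := hF.eqOn_of_preconnected_of_frequently_eq hGa (convex_ball 0 s).isPreconnected hmem hfreq
  intro u hu
  have hum : (u : ℂ) ∈ Metric.ball (0 : ℂ) s := by simpa [Complex.norm_real] using hu
  have h3 := heq hum
  simp only [hG, Function.comp_apply, Complex.conj_ofReal] at h3
  exact Complex.conj_eq_iff_im.1 h3.symm

/-- functions with only a linear Taylor coefficient -/
theorem h24_linear (F : ℂ → ℂ) (s : ℝ) (hF : AnalyticOnNhd ℂ F (Metric.ball 0 s)) (h0 : F 0 = 0)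
    (h : ∀ k, iteratedDeriv (k + 2) F 0 = 0) : ∀ z ∈ Metric.ball (0 : ℂ) s, F z = deriv F 0 * z := by
  intro z hz
  have h1 := Complex.hasSum_taylorSeries_on_ball (f := F) hF.differentiableOn hz
  have h2 : HasSum (fun n : ℕ ↦ ((n.factorial : ℕ) : ℂ)⁻¹ • (z - 0) ^ n • iteratedDeriv n F 0)
      (((Nat.factorial 1 : ℕ) : ℂ)⁻¹ • (z - 0) ^ 1 • iteratedDeriv 1 F 0) := by
    apply hasSum_single 1
    intro n hn
    rcases n with _ | _ | n
    · simp [h0]
    · exact absurd rfl hn
    · simp [h n]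
  have h3 := h1.unique h2
  rw [h3]
  simp [iteratedDeriv_one]
  ring

/-- H24b. PROOF. `f_i(W) = W Ψ_i(W)` is injective near `0` with an analytic inverse `Θ_i` (real on reals); let `Φ = f_j ∘ Θ_i`, analytic near `0`, real on reals, `Φ(0) = 0`: real Taylor coefficients `φ_k`. Choose `r₃` small. Let
`δ = t exp(i)`, `V` as in the statement, `q = V Ψ_i(δV)` (real), so `f_i(δV) = δ q`. For real `q'` near `q` the point `V' = Θ_i(δ q')/δ` is near `V`, `V' Ψ_i(δV') = q'` is real, so by hypothesis `V' Ψ_j(δV') = Φ(δ q')/δ`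
is real: `Φ(δ q')/δ = conj(...) = Φ(δ̄ q')/δ̄` for real `q'` near `q`; both sides are analytic in `q'` on a disc around `0` containing `q`, so they agree there: `φ_k δ^(k-1) = φ_k δ̄^(k-1)` for all `k`, and `φ_k = 0` for
`k ≥ 2` by H24a. So `Φ(W) = φ₁ W` near `0`, i.e. `f_j = φ₁ f_i` near `0`. -/
theorem hyp_distinct (r : ℝ) (hr : 0 < r) (Ψ Ψ' : ℂ → ℂ) (hΨ : AnalyticOnNhd ℂ Ψ (Metric.ball 0 r)) (hΨ' : AnalyticOnNhd ℂ Ψ' (Metric.ball 0 r))
    (hre : ∀ u : ℝ, |u| < r → (Ψ u).im = 0) (hre' : ∀ u : ℝ, |u| < r → (Ψ' u).im = 0) (h0 : Ψ 0 ≠ 0) (h0' : Ψ' 0 ≠ 0) :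
    ∃ r₃ > 0, ∀ t : ℝ, 0 < t → ∀ V : ℂ, t * ‖V‖ < r₃ → (V * Ψ (t * Complex.exp I * V)).im = 0 →
      SameArc (fun V => V * Ψ (t * Complex.exp I * V)) (fun V => V * Ψ' (t * Complex.exp I * V)) V →
      ∃ κ : ℂ, ∀ᶠ W in 𝓝 (0 : ℂ), W * Ψ' W = κ * (W * Ψ W) := by
  classical
  set f : ℂ → ℂ := fun W => W * Ψ W with hf
  set g : ℂ → ℂ := fun W => W * Ψ' W with hg
  have h0mem : (0 : ℂ) ∈ Metric.ball (0 : ℂ) r := Metric.mem_ball_self hr
  have hfa : AnalyticOnNhd ℂ f (Metric.ball 0 r) := analyticOnNhd_id.mul hΨ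
  have hga : AnalyticOnNhd ℂ g (Metric.ball 0 r) := analyticOnNhd_id.mul hΨ'
  have hf0 : f 0 = 0 := by simp [hf]
  have hg0 : g 0 = 0 := by simp [hg]
  have hfd : deriv f 0 ≠ 0 := by
    have h1 : HasDerivAt f (1 * Ψ 0 + 0 * deriv Ψ 0) 0 :=
      (hasDerivAt_id (0 : ℂ)).mul (hΨ 0 h0mem).differentiableAt.hasDerivAt
    rw [h1.deriv]
    simpa using h0
  have hfre : ∀ u : ℝ, |u| < r → (f u).im = 0 := by
    intro u hu
    simp [hf, hre u hu]
  have hgre : ∀ u : ℝ, |u| < r → (g u).im = 0 := by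
    intro u hu
    simp [hg, hre' u hu]
  -- the local inverse
  have hfa0 : AnalyticAt ℂ f 0 := hfa 0 h0mem
  set Θ : ℂ → ℂ := hfa0.hasStrictDerivAt.localInverse _ _ _ hfd with hΘ
  have hΘa : AnalyticAt ℂ Θ 0 := by
    have := hfa0.analyticAt_localInverse hfd
    rwa [hf0] at this
  have hΘl : ∀ᶠ x in 𝓝 (0 : ℂ), Θ (f x) = x := HasStrictDerivAt.eventually_left_inverse ..
  have hΘr : ∀ᶠ x in 𝓝 (0 : ℂ), f (Θ x) = x := by
    have : ∀ᶠ x in 𝓝 (f 0), f (Θ x) = x := HasStrictDerivAt.eventually_right_inverse ..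
    rwa [hf0] at this
  have hΘ0 : Θ 0 = 0 := by
    have := hΘl.self_of_nhds
    rwa [hf0] at this
  -- small radii
  obtain ⟨r₁, hr₁, hr₁l⟩ : ∃ r₁ > 0, ∀ x ∈ Metric.ball (0 : ℂ) r₁, Θ (f x) = x ∧ x ∈ Metric.ball (0 : ℂ) r := by
    have h1 := hΘl.and (Metric.ball_mem_nhds (0 : ℂ) hr)
    rw [Metric.eventually_nhds_iff_ball] at h1
    exact h1
  obtain ⟨ρ, hρ, hρr⟩ : ∃ ρ > 0, ∀ x ∈ Metric.ball (0 : ℂ) ρ,
      f (Θ x) = x ∧ AnalyticAt ℂ Θ x ∧ Θ x ∈ Metric.ball (0 : ℂ) (min r r₁) := by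
    have h1 : ∀ᶠ x in 𝓝 (0 : ℂ), Θ x ∈ Metric.ball (0 : ℂ) (min r r₁) := by
      apply hΘa.continuousAt.eventually_mem
      rw [hΘ0]
      exact Metric.ball_mem_nhds _ (lt_min hr hr₁)
    have h2 := hΘr.and (hΘa.eventually_analyticAt.and h1)
    rw [Metric.eventually_nhds_iff_ball] at h2
    exact h2
  -- the conjugated function
  set Φ : ℂ → ℂ := fun x => g (Θ x) with hΦ
  have hΦa : AnalyticOnNhd ℂ Φ (Metric.ball 0 ρ) := by
    intro x hx
    obtain ⟨-, h2, h3⟩ := hρr x hx
    have h4 : AnalyticAt ℂ g (Θ x) := hga _ (Metric.ball_subset_ball (min_le_left _ _) h3)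
    exact h4.comp h2
  have hΦ0 : Φ 0 = 0 := by simp only [hΦ, hΘ0, hg0]
  -- real on reals
  have hfsym : ∀ z ∈ Metric.ball (0 : ℂ) r, f ((starRingEnd ℂ) z) = (starRingEnd ℂ) (f z) := by
    intro z hz
    set G : ℂ → ℂ := (starRingEnd ℂ) ∘ f ∘ (starRingEnd ℂ) with hG
    have hball : ∀ z : ℂ, z ∈ Metric.ball (0 : ℂ) r ↔ (starRingEnd ℂ) z ∈ Metric.ball (0 : ℂ) r := by
      intro z; simp
    have hGa : AnalyticOnNhd ℂ G (Metric.ball 0 r) := by
      apply DifferentiableOn.analyticOnNhd _ Metric.isOpen_ball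
      intro z hz
      apply DifferentiableAt.differentiableWithinAt
      rw [hG, differentiableAt_conj_conj_iff]
      exact (hfa _ ((hball z).1 hz)).differentiableAt
    have hfreq : ∃ᶠ z in 𝓝[≠] (0 : ℂ), f z = G z := by
      have h1 : Tendsto (fun x : ℝ => (x : ℂ)) (𝓝[≠] 0) (𝓝[≠] (0 : ℂ)) := by
        apply tendsto_nhdsWithin_of_tendsto_nhds_of_eventually_within
        · have := (Complex.continuous_ofReal.tendsto 0)
          rw [Complex.ofReal_zero] at this
          exact this.mono_left nhdsWithin_le_nhds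
        · filter_upwards [self_mem_nhdsWithin] with x hx
          simpa using hx
      have h2 : ∀ᶠ x : ℝ in 𝓝[≠] 0, f x = G x := by
        have h3 : ∀ᶠ x : ℝ in 𝓝 (0 : ℝ), |x| < r := by
          have : |(0 : ℝ)| < r := by simpa using hr
          exact (continuous_abs.continuousAt.eventually (gt_mem_nhds this))
        filter_upwards [nhdsWithin_le_nhds h3] with x hx
        simp only [hG, Function.comp_apply, Complex.conj_ofReal]
        exact (Complex.conj_eq_iff_im.2 (hfre x hx)).symm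
      exact h1.frequently h2.frequently
    have heq := hfa.eqOn_of_preconnected_of_frequently_eq hGa (convex_ball 0 r).isPreconnected h0mem hfreq
    have h3 := heq ((hball z).1 hz)
    simp only [hG, Function.comp_apply, Complex.conj_conj] at h3
    exact h3
  have hΦre : ∀ u : ℝ, |u| < ρ → (Φ u).im = 0 := by
    intro u hu
    have hum : (u : ℂ) ∈ Metric.ball (0 : ℂ) ρ := by simpa [Complex.norm_real] using hu
    obtain ⟨h1, -, h3⟩ := hρr u hum
    have h3r : Θ u ∈ Metric.ball (0 : ℂ) r := Metric.ball_subset_ball (min_le_left _ _) h3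
    have h3r₁ : Θ u ∈ Metric.ball (0 : ℂ) r₁ := Metric.ball_subset_ball (min_le_right _ _) h3
    have h4 : f ((starRingEnd ℂ) (Θ u)) = u := by
      rw [hfsym _ h3r, h1, Complex.conj_ofReal]
    have h5 : (starRingEnd ℂ) (Θ u) ∈ Metric.ball (0 : ℂ) r₁ := by simpa using h3r₁
    have h6 : (starRingEnd ℂ) (Θ u) = Θ u := by
      have := (hr₁l _ h5).1
      rw [h4] at this
      exact this.symm
    obtain ⟨v, hv⟩ := Complex.conj_eq_iff_real.1 h6
    have h7 : |v| < r := by
      rw [hv] at h3r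
      simpa [Complex.norm_real] using h3r
    simp only [hΦ, hv]
    exact hgre v h7
  -- the radius
  obtain ⟨r₃, hr₃, hr₃f⟩ : ∃ r₃ > 0, ∀ x ∈ Metric.ball (0 : ℂ) r₃, f x ∈ Metric.ball (0 : ℂ) ρ ∧ x ∈ Metric.ball (0 : ℂ) r₁ := by
    have h1 : ∀ᶠ x in 𝓝 (0 : ℂ), f x ∈ Metric.ball (0 : ℂ) ρ := by
      apply hfa0.continuousAt.eventually_mem
      rw [hf0]
      exact Metric.ball_mem_nhds _ hρ
    have h2 := h1.and (Metric.ball_mem_nhds (0 : ℂ) hr₁)
    rw [Metric.eventually_nhds_iff_ball] at h2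
    exact h2
  refine ⟨r₃, hr₃, ?_⟩
  intro t ht V hV him harc
  set δ : ℂ := t * Complex.exp I with hδ
  have hδ0 : δ ≠ 0 := mul_ne_zero (by exact_mod_cast ht.ne') (Complex.exp_ne_zero _)
  have hδn : ‖δ‖ = t := by
    rw [hδ, norm_mul]
    have : ‖Complex.exp I‖ = 1 := by
      have := Complex.norm_exp_ofReal_mul_I 1
      simpa using this
    rw [this, Complex.norm_real, Real.norm_of_nonneg ht.le, mul_one]
  have hδV : δ * V ∈ Metric.ball (0 : ℂ) r₃ := by
    rw [mem_ball_zero_iff, norm_mul, hδn]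
    exact hV
  obtain ⟨hfρ, hVr₁⟩ := hr₃f _ hδV
  obtain ⟨q, hq⟩ : ∃ q : ℝ, V * Ψ (δ * V) = q := ⟨(V * Ψ (δ * V)).re, by
    apply Complex.ext
    · simp
    · simpa using him⟩
  have hfq : f (δ * V) = δ * q := by
    simp only [hf]
    rw [← hq]; ring
  have hΘq : Θ (δ * q) = δ * V := by
    rw [← hfq]; exact (hr₁l _ hVr₁).1
  have hq1 : δ * (q : ℂ) ∈ Metric.ball (0 : ℂ) ρ := by rw [← hfq]; exact hfρ
  have hqρ : |q| < ρ / t := by
    rw [mem_ball_zero_iff, norm_mul, hδn, Complex.norm_real, Real.norm_eq_abs] at hq1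
    rw [lt_div_iff₀ ht]; linarith
  -- the function real on the reals
  set G : ℂ → ℂ := fun z => Φ (δ * z) / δ with hG
  have hscale : ∀ z ∈ Metric.ball (0 : ℂ) (ρ / t), δ * z ∈ Metric.ball (0 : ℂ) ρ := by
    intro z hz
    rw [mem_ball_zero_iff] at hz ⊢
    rw [norm_mul, hδn]
    rw [lt_div_iff₀ ht] at hz
    linarith
  have hlin : ∀ F : ℂ → ℂ, AnalyticOnNhd ℂ F (Metric.ball 0 ρ) →
      AnalyticOnNhd ℂ (fun z => F (δ * z)) (Metric.ball 0 (ρ / t)) := by
    intro F hF z hz
    have h1 : AnalyticAt ℂ F (δ * z) := hF _ (hscale z hz)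
    exact h1.comp (f := fun z => δ * z) (analyticAt_const.mul analyticAt_id)
  have hGa : AnalyticOnNhd ℂ G (Metric.ball 0 (ρ / t)) := by
    intro z hz
    exact (hlin Φ hΦa z hz).div analyticAt_const hδ0
  have hGq : ∀ᶠ u : ℝ in 𝓝 q, (G u).im = 0 := by
    -- the points of the arc
    have hcont : ContinuousAt (fun u : ℝ => Θ (δ * u) / δ) q := by
      have h1 : ContinuousAt Θ (δ * (q : ℂ)) := (hρr _ hq1).2.1.continuousAt
      have h2 : ContinuousAt (fun u : ℝ => δ * (u : ℂ)) q := by fun_prop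
      have h3 : ContinuousAt (fun u : ℝ => Θ (δ * (u : ℂ))) q := ContinuousAt.comp (f := fun u : ℝ => δ * (u : ℂ)) h1 h2
      exact h3.div_const δ
    have hV' : Θ (δ * (q : ℂ)) / δ = V := by rw [hΘq]; field_simp
    have harc' := hcont.tendsto
    rw [hV'] at harc'
    have h4 := harc'.eventually harc
    have h5 : ∀ᶠ u : ℝ in 𝓝 q, |u| < ρ / t := (continuous_abs.continuousAt.eventually (gt_mem_nhds hqρ))
    filter_upwards [h4, h5] with u hu1 hu2
    have hum : δ * (u : ℂ) ∈ Metric.ball (0 : ℂ) ρ := by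
      apply hscale
      simpa [Complex.norm_real] using hu2
    obtain ⟨h6, -, -⟩ := hρr _ hum
    have h7 : δ * (Θ (δ * (u : ℂ)) / δ) = Θ (δ * (u : ℂ)) := by field_simp
    have h8 : Θ (δ * (u : ℂ)) / δ * Ψ (δ * (Θ (δ * (u : ℂ)) / δ)) = u := by
      rw [h7]
      simp only [hf] at h6
      field_simp
      exact h6
    have h9 := hu1 (by rw [h8]; exact Complex.ofReal_im u)
    rw [h7] at h9
    have h10 : G u = Θ (δ * (u : ℂ)) / δ * Ψ' (Θ (δ * (u : ℂ))) := by
      simp only [hG, hΦ, hg]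
      ring
    rw [h10]; exact h9
  have hGre := h24_refl G (ρ / t) hGa q hqρ hGq
  -- derivatives
  have hρt : 0 < ρ / t := div_pos hρ ht
  have hΦk : ∀ k, AnalyticOnNhd ℂ (iteratedDeriv k Φ) (Metric.ball 0 ρ) ∧
      ∀ u : ℝ, |u| < ρ → (iteratedDeriv k Φ u).im = 0 := by
    intro k
    induction k with
    | zero => simpa using ⟨hΦa, hΦre⟩
    | succ k ih =>
      rw [iteratedDeriv_succ]
      exact ⟨ih.1.deriv, h24_deriv_real _ _ ih.1 ih.2⟩
  have hGk : ∀ k, ∀ u : ℝ, |u| < ρ / t → (δ ^ k * iteratedDeriv (k + 1) Φ (δ * u)).im = 0 := by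
    intro k
    induction k with
    | zero =>
      intro u hu
      have h1 := h24_deriv_real G (ρ / t) hGa hGre u hu
      have hum : (u : ℂ) ∈ Metric.ball (0 : ℂ) (ρ / t) := by simpa [Complex.norm_real] using hu
      have h2 : HasDerivAt G (deriv Φ (δ * u) * δ / δ) (u : ℂ) := by
        have h3 : HasDerivAt Φ (deriv Φ (δ * u)) (δ * (u : ℂ)) := (hΦa _ (hscale _ hum)).differentiableAt.hasDerivAt
        have h4 : HasDerivAt (fun z : ℂ => δ * z) δ (u : ℂ) := by
          simpa using (hasDerivAt_id (u : ℂ)).const_mul δ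
        exact (HasDerivAt.comp (u : ℂ) h3 h4).div_const δ
      rw [h2.deriv] at h1
      rw [zero_add, iteratedDeriv_one, pow_zero, one_mul]
      have h5 : deriv Φ (δ * u) * δ / δ = deriv Φ (δ * u) := by field_simp
      rwa [h5] at h1
    | succ k ih =>
      intro u hu
      have hA : AnalyticOnNhd ℂ (fun z => δ ^ k * iteratedDeriv (k + 1) Φ (δ * z)) (Metric.ball 0 (ρ / t)) := by
        intro z hz
        exact analyticAt_const.mul (hlin _ (hΦk (k + 1)).1 z hz)
      have h1 := h24_deriv_real _ (ρ / t) hA ih u hu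
      have hum : (u : ℂ) ∈ Metric.ball (0 : ℂ) (ρ / t) := by simpa [Complex.norm_real] using hu
      have h2 : HasDerivAt (fun z => δ ^ k * iteratedDeriv (k + 1) Φ (δ * z))
          (δ ^ k * (iteratedDeriv (k + 1 + 1) Φ (δ * u) * δ)) (u : ℂ) := by
        have h3 : HasDerivAt (iteratedDeriv (k + 1) Φ) (iteratedDeriv (k + 1 + 1) Φ (δ * u)) (δ * (u : ℂ)) := by
          rw [iteratedDeriv_succ (n := k + 1)]
          exact ((hΦk (k + 1)).1 _ (hscale _ hum)).differentiableAt.hasDerivAt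
        have h4 : HasDerivAt (fun z : ℂ => δ * z) δ (u : ℂ) := by
          simpa using (hasDerivAt_id (u : ℂ)).const_mul δ
        exact (HasDerivAt.comp (u : ℂ) h3 h4).const_mul (δ ^ k)
      rw [h2.deriv] at h1
      have h5 : δ ^ (k + 1) * iteratedDeriv (k + 1 + 1) Φ (δ * u) =
          δ ^ k * (iteratedDeriv (k + 1 + 1) Φ (δ * u) * δ) := by ring
      rw [h5]; exact h1
  have hzero : ∀ k, iteratedDeriv (k + 2) Φ 0 = 0 := by
    intro k
    have h1 := hGk (k + 1) 0 (by simpa using hρt)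
    have h2 := (hΦk (k + 2)).2 0 (by simpa using hρ)
    rw [Complex.ofReal_zero, mul_zero] at h1
    rw [Complex.ofReal_zero] at h2
    have h3 : iteratedDeriv (k + 1 + 1) Φ 0 = ((iteratedDeriv (k + 2) Φ 0).re : ℂ) := by
      apply Complex.ext
      · simp
      · simpa using h2
    rw [h3, hδ, mul_pow] at h1
    have h4 : (((t : ℂ) ^ (k + 1) * Complex.exp I ^ (k + 1) * ((iteratedDeriv (k + 2) Φ 0).re : ℂ))).im =
        t ^ (k + 1) * (iteratedDeriv (k + 2) Φ 0).re * (Complex.exp I ^ (k + 1)).im := by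
      have : ((t : ℂ) ^ (k + 1) * Complex.exp I ^ (k + 1) * ((iteratedDeriv (k + 2) Φ 0).re : ℂ)) =
          ((t ^ (k + 1) * (iteratedDeriv (k + 2) Φ 0).re : ℝ) : ℂ) * Complex.exp I ^ (k + 1) := by
        push_cast; ring
      rw [this, Complex.re_ofReal_mul |> fun _ => Complex.im_ofReal_mul _ _]
    rw [h4] at h1
    have h5 := phase_pow (k + 1) (by omega)
    have h6 : (iteratedDeriv (k + 2) Φ 0).re = 0 := by
      have ht1 : t ^ (k + 1) ≠ 0 := (pow_pos ht _).ne'
      rcases mul_eq_zero.1 h1 with h | h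
      · rcases mul_eq_zero.1 h with h | h
        · exact absurd h ht1
        · exact h
      · exact absurd h h5
    apply Complex.ext
    · simpa using h6
    · simpa using h2
  have hfin := h24_linear Φ ρ hΦa hΦ0 hzero
  refine ⟨deriv Φ 0, ?_⟩
  filter_upwards [Metric.ball_mem_nhds (0 : ℂ) hr₃] with W hW
  obtain ⟨h1, h2⟩ := hr₃f W hW
  have h3 := hfin _ h1
  simp only [hΦ] at h3
  rw [(hr₁l W h2).1] at h3
  exact h3

end Pool.Agent.MSD
end

end

section

/-! # H30: arcs (MP_f58a57_nt) -/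

open Complex ModularForm EisensteinSeries Filter
open UpperHalfPlane hiding I
open scoped Topology MatrixGroups Polynomial

noncomputable section

namespace Pool.Agent.MSD

/-- the local analytic inverse -/
theorem h30_inv {f : ℂ → ℂ} {x : ℂ} (hf : AnalyticAt ℂ f x) (hf' : deriv f x ≠ 0) :
    ∃ ψ : ℂ → ℂ, AnalyticAt ℂ ψ (f x) ∧ ψ (f x) = x ∧ (∀ᶠ y in 𝓝 x, ψ (f y) = y) ∧
      (∀ᶠ w in 𝓝 (f x), f (ψ w) = w) ∧ HasStrictDerivAt ψ (deriv f x)⁻¹ (f x) := by
  have hL := hf.hasStrictDerivAt.eventually_left_inverse hf'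
  exact ⟨_, hf.analyticAt_localInverse hf', hL.self_of_nhds, hL,
    hf.hasStrictDerivAt.eventually_right_inverse hf', hf.hasStrictDerivAt.to_localInverse hf'⟩

/-- the conjugate function -/
def h30_star (φ : ℂ → ℂ) (w : ℂ) : ℂ := (starRingEnd ℂ) (φ ((starRingEnd ℂ) w))

theorem h30_star_analytic {φ : ℂ → ℂ} {a : ℂ} (hφ : AnalyticAt ℂ φ a) (ha : a.im = 0) :
    AnalyticAt ℂ (h30_star φ) a := by
  have hca : (starRingEnd ℂ) a = a := Complex.conj_eq_iff_im.2 ha
  rw [Complex.analyticAt_iff_eventually_differentiableAt] at hφ ⊢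
  have hc : Tendsto (fun w : ℂ => (starRingEnd ℂ) w) (𝓝 a) (𝓝 a) := by
    have h := Complex.continuous_conj.tendsto a
    rwa [hca] at h
  filter_upwards [hc.eventually hφ] with w hw
  have h := hw.conj_conj
  rw [Complex.conj_conj] at h
  exact h

theorem h30_real {φ : ℂ → ℂ} {w : ℂ} (hw : w.im = 0) :
    φ w - h30_star φ w = 2 * ((φ w).im : ℂ) * I := by
  unfold h30_star
  rw [Complex.conj_eq_iff_im.2 hw]
  apply Complex.ext
  · simp
  · simp
    ring

theorem h30_sub_eq_zero {φ : ℂ → ℂ} {w : ℂ} (hw : w.im = 0) :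
    φ w - h30_star φ w = 0 ↔ (φ w).im = 0 := by
  rw [h30_real hw]
  constructor
  · intro h
    have h1 : (((φ w).im : ℝ) : ℂ) = 0 := by
      rcases mul_eq_zero.1 h with h2 | h2
      · rcases mul_eq_zero.1 h2 with h3 | h3
        · norm_num at h3
        · exact h3
      · exact absurd h2 Complex.I_ne_zero
    exact_mod_cast h1
  · intro h
    rw [h]
    simp

/-- H30a. Dichotomy. PROOF. `f` is a local homeomorphism at `x` with analytic inverse `f⁻¹`; `φ = g ∘ f⁻¹` is analytic at the real point `f x`. `φ - φ*`, `φ*(w) = conj (φ (conj w))`, is analytic and at real `w` equals `2i Im φ(w)`. Either it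
vanishes near `f x` (first alternative) or it has no zeros near `f x` except possibly `f x` itself (second). -/
theorem arc_dichotomy (f g : ℂ → ℂ) (x : ℂ) (hf : AnalyticAt ℂ f x) (hg : AnalyticAt ℂ g x) (hf' : deriv f x ≠ 0) (hfx : (f x).im = 0) :
    SameArc f g x ∨ ∀ᶠ y in 𝓝[≠] x, ¬ ((f y).im = 0 ∧ (g y).im = 0) := by
  obtain ⟨ψ, hψ, hψx, hL, hR, -⟩ := h30_inv hf hf'
  have hgψ : AnalyticAt ℂ g (ψ (f x)) := by rw [hψx]; exact hg
  have hφ : AnalyticAt ℂ (g ∘ ψ) (f x) := hgψ.comp hψ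
  have hD : AnalyticAt ℂ (fun w => (g ∘ ψ) w - h30_star (g ∘ ψ) w) (f x) :=
    hφ.sub (h30_star_analytic hφ hfx)
  have hcont : Tendsto f (𝓝 x) (𝓝 (f x)) := hf.continuousAt
  rcases hD.eventually_eq_zero_or_eventually_ne_zero with h | h
  · left
    unfold SameArc
    filter_upwards [hcont.eventually h, hL] with y hy hy1 hy2
    have h3 := (h30_sub_eq_zero hy2).1 hy
    have h4 : (g ∘ ψ) (f y) = g y := by
      show g (ψ (f y)) = g y
      rw [hy1]
    rwa [h4] at h3
  · right
    have hpunc : Tendsto f (𝓝[≠] x) (𝓝[≠] (f x)) := by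
      rw [tendsto_nhdsWithin_iff]
      refine ⟨hcont.mono_left nhdsWithin_le_nhds, ?_⟩
      have h1 : ∀ᶠ y in 𝓝[≠] x, ψ (f y) = y := hL.filter_mono nhdsWithin_le_nhds
      filter_upwards [h1, self_mem_nhdsWithin] with y hy1 hy2 hy3
      apply hy2
      have hy4 : f y = f x := hy3
      rw [hy4, hψx] at hy1
      exact hy1.symm
    have h1 : ∀ᶠ y in 𝓝[≠] x, ψ (f y) = y := hL.filter_mono nhdsWithin_le_nhds
    filter_upwards [hpunc.eventually h, h1] with y hy hy1 hy2
    apply hy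
    have h4 : (g ∘ ψ) (f y) = g y := by
      show g (ψ (f y)) = g y
      rw [hy1]
    rw [h30_sub_eq_zero hy2.1, h4]
    exact hy2.2

/-- H30b. If two functions have the same arc and are positive at common points near `x`, their positive sides coincide. PROOF. `φ = g ∘ f⁻¹` as above is real on reals, `φ' ≠ 0` real at `f x`; `φ' > 0` because otherwise `Im φ(w) < 0` for `Im w > 0`, `w` near
`f x`. Then `Im φ(w) > 0` for `Im w > 0`, `w` near `f x`. -/
theorem side_of_freq (f g : ℂ → ℂ) (x : ℂ) (hf : AnalyticAt ℂ f x) (hg : AnalyticAt ℂ g x) (hf' : deriv f x ≠ 0) (hg' : deriv g x ≠ 0)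
    (hfx : (f x).im = 0) (hgx : (g x).im = 0) (harc : SameArc f g x) (hfreq : ∃ᶠ y in 𝓝 x, 0 < (f y).im ∧ 0 < (g y).im) :
    ∀ᶠ y in 𝓝 x, 0 < (f y).im → 0 < (g y).im := by
  obtain ⟨ψ, hψ, hψx, hL, hR, hψd⟩ := h30_inv hf hf'
  have hgψ : AnalyticAt ℂ g (ψ (f x)) := by rw [hψx]; exact hg
  have hφ : AnalyticAt ℂ (g ∘ ψ) (f x) := hgψ.comp hψ
  set φ := g ∘ ψ with hφdef
  set a := f x with hadef
  have hcont : Tendsto f (𝓝 x) (𝓝 a) := hf.continuousAt
  have hψcont : Tendsto ψ (𝓝 a) (𝓝 x) := by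
    have h := hψ.continuousAt.tendsto
    rwa [hψx] at h
  -- `φ` is real at real points near `a`
  have hreal : ∀ᶠ w in 𝓝 a, w.im = 0 → (φ w).im = 0 := by
    filter_upwards [hψcont.eventually harc, hR] with w hw1 hw2 hw3
    exact hw1 (by rw [hw2]; exact hw3)
  have hD : AnalyticAt ℂ (fun w => φ w - h30_star φ w) a := hφ.sub (h30_star_analytic hφ hfx)
  have hDz : ∀ᶠ w in 𝓝 a, φ w - h30_star φ w = 0 := by
    rcases hD.eventually_eq_zero_or_eventually_ne_zero with h | h
    · exact h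
    · exfalso
      have h1 : Tendsto (fun t : ℝ => a + (t : ℂ)) (𝓝[≠] (0 : ℝ)) (𝓝[≠] a) := by
        rw [tendsto_nhdsWithin_iff]
        constructor
        · have h2 : Tendsto (fun t : ℝ => a + (t : ℂ)) (𝓝 (0 : ℝ)) (𝓝 (a + ((0 : ℝ) : ℂ))) :=
            (continuous_const.add Complex.continuous_ofReal).tendsto 0
          rw [Complex.ofReal_zero, add_zero] at h2
          exact h2.mono_left nhdsWithin_le_nhds
        · filter_upwards [self_mem_nhdsWithin] with t ht ht1
          apply ht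
          have ht2 : a + (t : ℂ) = a := ht1
          have ht3 : (t : ℂ) = 0 := by
            rw [add_eq_left] at ht2
            exact ht2
          exact_mod_cast ht3
      have h2 : ∀ᶠ w in 𝓝[≠] a, w.im = 0 → (φ w).im = 0 := hreal.filter_mono nhdsWithin_le_nhds
      obtain ⟨t, ht1, ht2⟩ := ((h1.eventually h).and (h1.eventually h2)).exists
      have h3 : (a + (t : ℂ)).im = 0 := by
        rw [Complex.add_im, Complex.ofReal_im, add_zero]
        exact hfx
      exact ht1 ((h30_sub_eq_zero h3).2 (ht2 h3))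
  -- the derivative of `φ` at `a`
  set c := deriv g x * (deriv f x)⁻¹ with hc
  have hc0 : c ≠ 0 := mul_ne_zero hg' (inv_ne_zero hf')
  have hφd : HasStrictDerivAt φ c a := by
    have hgs : HasStrictDerivAt g (deriv g x) (ψ a) := by
      rw [hψx]
      exact hg.hasStrictDerivAt
    exact hgs.comp a hψd
  have hca : (starRingEnd ℂ) a = a := Complex.conj_eq_iff_im.2 hfx
  have hcreal : c.im = 0 := by
    have h1 : HasDerivAt (h30_star φ) ((starRingEnd ℂ) c) a := by
      have h2 := hφd.hasDerivAt.conj_conj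
      rw [hca] at h2
      exact h2
    have h2 : φ =ᶠ[𝓝 a] h30_star φ := by
      filter_upwards [hDz] with w hw
      exact sub_eq_zero.1 hw
    have h3 : HasDerivAt φ ((starRingEnd ℂ) c) a := h1.congr_of_eventuallyEq h2
    have h4 := h3.unique hφd.hasDerivAt
    exact Complex.conj_eq_iff_im.1 h4
  have hcr : c = ((c.re : ℝ) : ℂ) := by
    apply Complex.ext
    · simp
    · simpa using hcreal
  have hcre : c.re ≠ 0 := by
    intro h
    apply hc0
    rw [hcr, h]
    simp
  -- the quantitative estimate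
  have hkey : ∀ᶠ w in 𝓝 a, |(φ w).im - c.re * w.im| ≤ |c.re| / 2 * |w.im| := by
    have h1 := hφd.isLittleO
    have h2 := h1.def (c := |c.re| / 2) (by positivity)
    have h3 : Tendsto (fun w : ℂ => (w, ((w.re : ℝ) : ℂ))) (𝓝 a) (𝓝 (a, a)) := by
      have h4 : Tendsto (fun w : ℂ => ((w.re : ℝ) : ℂ)) (𝓝 a) (𝓝 a) := by
        have h5 : Tendsto (fun w : ℂ => ((w.re : ℝ) : ℂ)) (𝓝 a) (𝓝 ((a.re : ℝ) : ℂ)) :=
          (Complex.continuous_ofReal.comp Complex.continuous_re).tendsto a
        have h6 : ((a.re : ℝ) : ℂ) = a := by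
          apply Complex.ext
          · simp
          · simpa using hfx.symm
        rwa [h6] at h5
      exact tendsto_id.prodMk_nhds h4
    have h4 : Tendsto (fun w : ℂ => ((w.re : ℝ) : ℂ)) (𝓝 a) (𝓝 a) := by
      have h5 := (continuous_snd.tendsto (a, a)).comp h3
      exact h5
    filter_upwards [h3.eventually h2, h4.eventually hreal] with w hw hw2
    have hu : (φ ((w.re : ℝ) : ℂ)).im = 0 := hw2 (Complex.ofReal_im _)
    have hwu : w - ((w.re : ℝ) : ℂ) = (w.im : ℂ) * I := by
      apply Complex.ext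
      · simp
      · simp
    have hw' : ‖φ w - φ ((w.re : ℝ) : ℂ) - (w - ((w.re : ℝ) : ℂ)) • c‖ ≤
        |c.re| / 2 * ‖w - ((w.re : ℝ) : ℂ)‖ := by
      simpa using hw
    rw [hwu] at hw'
    have hn : ‖(w.im : ℂ) * I‖ = |w.im| := by
      rw [norm_mul, Complex.norm_I, mul_one, Complex.norm_real, Real.norm_eq_abs]
    rw [hn] at hw'
    have him : (φ w - φ ((w.re : ℝ) : ℂ) - ((w.im : ℂ) * I) • c).im = (φ w).im - c.re * w.im := by
      rw [Complex.sub_im, Complex.sub_im, hu, smul_eq_mul, hcr]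
      simp
      ring
    rw [← him]
    exact (Complex.abs_im_le_norm _).trans hw'
  have hpos : 0 < c.re := by
    by_contra hneg
    have hneg' : c.re < 0 := lt_of_le_of_ne (not_lt.1 hneg) hcre
    have h1 : ∀ᶠ y in 𝓝 x, 0 < (f y).im → (g y).im ≤ 0 := by
      filter_upwards [hcont.eventually hkey, hL] with y hy1 hy2 hy3
      have h4 : φ (f y) = g y := by
        show g (ψ (f y)) = g y
        rw [hy2]
      rw [h4, abs_of_pos hy3, abs_of_neg hneg'] at hy1
      have h5 := (abs_le.1 hy1).2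
      have h6 : c.re * (f y).im < 0 := mul_neg_of_neg_of_pos hneg' hy3
      nlinarith
    obtain ⟨y, hy1, hy2⟩ := (hfreq.and_eventually h1).exists
    exact absurd hy1.2 (not_lt.2 (hy2 hy1.1))
  filter_upwards [hcont.eventually hkey, hL] with y hy1 hy2 hy3
  have h4 : φ (f y) = g y := by
    show g (ψ (f y)) = g y
    rw [hy2]
  rw [h4, abs_of_pos hy3, abs_of_pos hpos] at hy1
  have h5 := (abs_le.1 hy1).1
  have h6 : 0 < c.re * (f y).im := mul_pos hpos hy3
  nlinarith

/-- H30c. A set all of whose points are isolated is countable. -/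
theorem countable_of_isolated (T : Set ℂ) (h : ∀ x ∈ T, ∀ᶠ y in 𝓝[≠] x, y ∉ T) : T.Countable := by
  have h1 : DiscreteTopology T := by
    rw [discreteTopology_subtype_iff]
    intro x hx
    rw [← disjoint_iff, Filter.disjoint_principal_right]
    exact h x hx
  have h2 : Countable T := TopologicalSpace.separableSpace_iff_countable.1 inferInstance
  exact Set.countable_coe_iff.1 h2

/-- H30d. Nearby points of the arc with rational value: if `M x₁` is real and `deriv M x₁ ≠ 0` there are points `y` near `x₁` with `M y` rational. -/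
theorem rational_near (M : ℂ → ℂ) (x₁ : ℂ) (hM : AnalyticAt ℂ M x₁) (hM' : deriv M x₁ ≠ 0) (h0 : (M x₁).im = 0) (U : Set ℂ) (hU : U ∈ 𝓝 x₁) :
    ∃ y ∈ U, ∃ q : ℚ, M y = (q : ℂ) := by
  have h1 : M '' U ∈ 𝓝 (M x₁) := by
    have h2 := hM.hasStrictDerivAt.map_nhds_eq hM'
    rw [← h2]
    exact Filter.image_mem_map hU
  have h2 : ((((M x₁).re : ℝ)) : ℂ) = M x₁ := by
    apply Complex.ext
    · simp
    · simpa using h0.symm
  have h3 : Tendsto (fun t : ℝ => (t : ℂ)) (𝓝 (M x₁).re) (𝓝 (M x₁)) := by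
    have h4 := Complex.continuous_ofReal.tendsto (M x₁).re
    rwa [h2] at h4
  have h5 : {t : ℝ | (t : ℂ) ∈ M '' U} ∈ 𝓝 (M x₁).re := h3 h1
  obtain ⟨q, hq⟩ := Rat.denseRange_cast.exists_mem_open isOpen_interior
    ⟨(M x₁).re, mem_interior_iff_mem_nhds.2 h5⟩
  obtain ⟨y, hyU, hy⟩ := interior_subset hq
  exact ⟨y, hyU, q, by rw [hy]; push_cast; rfl⟩

end Pool.Agent.MSD
end

end

section

/-! # H36: evaluating a part of the variables (MP_f58a57_nt) -/

open Complex ModularForm EisensteinSeries Filter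
open UpperHalfPlane hiding I
open scoped Topology MatrixGroups Polynomial

noncomputable section

namespace Pool.Agent.MSD

theorem h36_monomial {R S₁ S₂ : Type} [CommRing R] (u : S₁ ⊕ S₂ →₀ ℕ) (r : R) :
    MvPolynomial.sumAlgEquiv R S₁ S₂ (MvPolynomial.monomial u r) =
      MvPolynomial.monomial (Finsupp.sumFinsuppAddEquivProdFinsupp u).1
        (MvPolynomial.monomial (Finsupp.sumFinsuppAddEquivProdFinsupp u).2 r) := by
  unfold MvPolynomial.sumAlgEquiv
  rw [AlgEquiv.trans_apply]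
  have h1 : (AddMonoidAlgebra.domCongr R R Finsupp.sumFinsuppAddEquivProdFinsupp)
      (MvPolynomial.monomial u r) =
    AddMonoidAlgebra.single (Finsupp.sumFinsuppAddEquivProdFinsupp u) r := by
    simp [MvPolynomial.monomial]
  rw [h1]
  exact AddMonoidAlgebra.curryAlgEquiv_single _ _ _

theorem h36_coeff {R S₁ S₂ : Type} [CommRing R] (Q : MvPolynomial (S₁ ⊕ S₂) R) (m : S₁ →₀ ℕ)
    (n : S₂ →₀ ℕ) : ((MvPolynomial.sumAlgEquiv R S₁ S₂ Q).coeff m).coeff n =
      Q.coeff (Finsupp.sumFinsuppAddEquivProdFinsupp.symm (m, n)) := by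
  classical
  induction Q using MvPolynomial.induction_on' with
  | monomial u r =>
    rw [h36_monomial, MvPolynomial.coeff_monomial, MvPolynomial.coeff_monomial]
    by_cases h : u = Finsupp.sumFinsuppAddEquivProdFinsupp.symm (m, n)
    · have h2 : Finsupp.sumFinsuppAddEquivProdFinsupp u = (m, n) := by rw [h]; simp
      rw [if_pos h, h2]; simp
    · rw [if_neg h]
      have h2 : Finsupp.sumFinsuppAddEquivProdFinsupp u ≠ (m, n) := by
        intro h3; apply h; rw [← h3]; simp
      by_cases h3 : (Finsupp.sumFinsuppAddEquivProdFinsupp u).1 = m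
      · rw [if_pos h3, MvPolynomial.coeff_monomial, if_neg]
        intro h4
        exact h2 (Prod.ext h3 h4)
      · rw [if_neg h3]; simp
  | add p q hp hq =>
    rw [map_add, MvPolynomial.coeff_add, MvPolynomial.coeff_add, MvPolynomial.coeff_add, hp, hq]

theorem h36_eval {σ : Type} (y : σ → ℂ → ℂ) (a : MvPolynomial σ (ℂ → ℂ)) (x : ℂ) :
    (MvPolynomial.eval y a) x = pev a x (fun q => y q x) := by
  have h1 : (Pi.evalRingHom (fun _ : ℂ => ℂ) x).comp (MvPolynomial.eval y) =
      (MvPolynomial.eval (fun q => y q x)).comp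
        (MvPolynomial.map (Pi.evalRingHom (fun _ : ℂ => ℂ) x)) := by
    apply MvPolynomial.ringHom_ext
    · intro r; simp
    · intro i; simp
  exact congrArg (fun g : MvPolynomial σ (ℂ → ℂ) →+* ℂ => g a) h1

/-- H36. Splitting the variables. Let `p` be a predicate on the index set. There is a polynomial `P₁` in the variables with `p` whose coefficients are the functions obtained by inserting the functions `y` in the variables without `p`;
the coefficient of `m` is `x ↦ pev (P₂ m) x (y x)`, and if all coefficients of all `P₂ m` vanish near a point, so do those of `P`. PROOF. `P₂ m` collects the monomials of `P` whose restriction to `{p}` is `m`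
(`MvPolynomial.sumAlgEquiv` after the equivalence `ι × Fin 3 ≃ ({p} × Fin 3) ⊕ ({¬p} × Fin 3)`, or directly by `Finsupp.subtypeDomain`). -/
theorem split_poly {ι : Type} [Finite ι] (p : ι → Prop) (P : MvPolynomial (ι × Fin 3) (ℂ → ℂ)) (y : {i // ¬ p i} × Fin 3 → ℂ → ℂ) :
    ∃ (P₁ : MvPolynomial ({i // p i} × Fin 3) (ℂ → ℂ)) (P₂ : ({i // p i} × Fin 3 →₀ ℕ) → MvPolynomial ({i // ¬ p i} × Fin 3) (ℂ → ℂ)),
      (∀ m x, P₁.coeff m x = pev (P₂ m) x (fun q => y q x)) ∧
      (∀ (Y : ι × Fin 3 → ℂ) (x : ℂ), (∀ q : {i // ¬ p i} × Fin 3, Y (q.1.1, q.2) = y q x) →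
        pev P₁ x (fun q => Y (q.1.1, q.2)) = pev P x Y) ∧
      (∀ m n, ∃ k, (P₂ m).coeff n = P.coeff k) ∧ (∀ k, ∃ m n, P.coeff k = (P₂ m).coeff n) := by
  classical
  set e : ι × Fin 3 ≃ ({i // p i} × Fin 3) ⊕ ({i // ¬ p i} × Fin 3) :=
    (Equiv.prodCongr (Equiv.sumCompl p).symm (Equiv.refl (Fin 3))).trans
      (Equiv.sumProdDistrib _ _ _) with he
  have he1 : ∀ (i : ι) (κ : Fin 3) (hi : p i), e (i, κ) = Sum.inl (⟨i, hi⟩, κ) := by
    intro i κ hi
    simp [he, Equiv.sumCompl_symm_apply_of_pos hi]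
  have he2 : ∀ (i : ι) (κ : Fin 3) (hi : ¬ p i), e (i, κ) = Sum.inr (⟨i, hi⟩, κ) := by
    intro i κ hi
    simp [he, Equiv.sumCompl_symm_apply_of_neg hi]
  set Q := MvPolynomial.sumAlgEquiv (ℂ → ℂ) ({i // p i} × Fin 3) ({i // ¬ p i} × Fin 3)
    (MvPolynomial.rename e P) with hQ
  refine ⟨MvPolynomial.map (MvPolynomial.eval y) Q, fun m => Q.coeff m, ?_, ?_, ?_, ?_⟩
  · intro m x
    rw [MvPolynomial.coeff_map, h36_eval]
  · intro Y x hY
    have h1 : (MvPolynomial.eval (fun q : {i // p i} × Fin 3 => Y (q.1.1, q.2))).comp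
        ((MvPolynomial.map (Pi.evalRingHom (fun _ : ℂ => ℂ) x)).comp
          ((MvPolynomial.map (MvPolynomial.eval y)).comp
            (((MvPolynomial.sumAlgEquiv (ℂ → ℂ) ({i // p i} × Fin 3) ({i // ¬ p i} × Fin 3) :
              MvPolynomial (({i // p i} × Fin 3) ⊕ ({i // ¬ p i} × Fin 3)) (ℂ → ℂ) →+*
                MvPolynomial ({i // p i} × Fin 3) (MvPolynomial ({i // ¬ p i} × Fin 3) (ℂ → ℂ)))).comp
              (MvPolynomial.rename e : MvPolynomial (ι × Fin 3) (ℂ → ℂ) →ₐ[ℂ → ℂ] _).toRingHom))) =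
        (MvPolynomial.eval Y).comp (MvPolynomial.map (Pi.evalRingHom (fun _ : ℂ => ℂ) x)) := by
      apply MvPolynomial.ringHom_ext
      · intro r
        simp
      · rintro ⟨i, κ⟩
        by_cases hi : p i
        · simp [he1 i κ hi]
        · have h2 := hY (⟨i, hi⟩, κ)
          simp only at h2
          simp [he2 i κ hi, h2]
    exact congrArg (fun g : MvPolynomial (ι × Fin 3) (ℂ → ℂ) →+* ℂ => g P) h1
  · intro m n
    set d := Finsupp.sumFinsuppAddEquivProdFinsupp.symm (m, n) with hd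
    refine ⟨d.mapDomain e.symm, ?_⟩
    rw [hQ, h36_coeff, ← hd, ← MvPolynomial.coeff_rename_mapDomain e e.injective P,
      ← Finsupp.mapDomain_comp]
    congr 1
    have : (e ∘ e.symm : _ → _) = id := by ext1 z; simp
    rw [this, Finsupp.mapDomain_id]
  · intro k
    refine ⟨(Finsupp.sumFinsuppAddEquivProdFinsupp (k.mapDomain e)).1,
      (Finsupp.sumFinsuppAddEquivProdFinsupp (k.mapDomain e)).2, ?_⟩
    rw [hQ, h36_coeff, Prod.mk.eta, AddEquiv.symm_apply_apply,
      MvPolynomial.coeff_rename_mapDomain e e.injective]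

/-- H36b. Analyticity of the evaluation. -/
theorem pev_analytic {σ : Type} (P : MvPolynomial σ (ℂ → ℂ)) (y : σ → ℂ → ℂ) (x : ℂ) (hP : ∀ m, AnalyticAt ℂ (P.coeff m) x)
    (hy : ∀ i, AnalyticAt ℂ (y i) x) : AnalyticAt ℂ (fun x => pev P x (fun i => y i x)) x := by
  have h1 : (fun x => pev P x (fun i => y i x)) =
      fun x => ∑ m ∈ P.support, P.coeff m x * ∏ i ∈ m.support, y i x ^ m i := by
    funext x
    unfold pev
    rw [MvPolynomial.eval_map, MvPolynomial.eval₂_eq]
    rfl
  rw [h1]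
  apply Finset.analyticAt_fun_sum
  intro m _
  apply (hP m).fun_mul
  apply Finset.analyticAt_fun_prod
  intro i _
  exact (hy i).fun_pow _

end Pool.Agent.MSD
end

end

section

/-! # H38a: affine substitutions (MP_f58a57_nt) -/

open Complex ModularForm EisensteinSeries Filter
open UpperHalfPlane hiding I
open scoped Topology MatrixGroups Polynomial

noncomputable section

namespace Pool.Agent.MSD

/-- the subring of the polynomials whose coefficients are analytic at `x` -/
def h38a_ring (σ : Type) (x : ℂ) : Subring (MvPolynomial σ (ℂ → ℂ)) where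
  carrier := {q | ∀ m, AnalyticAt ℂ (q.coeff m) x}
  zero_mem' := fun m => by
    rw [MvPolynomial.coeff_zero]
    exact analyticAt_const
  one_mem' := fun m => by
    classical
    rw [MvPolynomial.coeff_one]
    split_ifs
    · exact analyticAt_const
    · exact analyticAt_const
  add_mem' := fun {p q} hp hq m => by
    rw [MvPolynomial.coeff_add]
    exact (hp m).add (hq m)
  neg_mem' := fun {p} hp m => by
    rw [MvPolynomial.coeff_neg]
    exact (hp m).neg
  mul_mem' := fun {p q} hp hq m => by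
    classical
    rw [MvPolynomial.coeff_mul]
    exact Finset.sum_induction _ (fun f : ℂ → ℂ => AnalyticAt ℂ f x) (fun _ _ ha hb => ha.add hb)
      analyticAt_const (fun i _ => (hp _).mul (hq _))

theorem h38a_C {σ : Type} {x : ℂ} {a : ℂ → ℂ} (ha : AnalyticAt ℂ a x) :
    (MvPolynomial.C a : MvPolynomial σ (ℂ → ℂ)) ∈ h38a_ring σ x := by
  classical
  intro m
  rw [MvPolynomial.coeff_C]
  split_ifs
  · exact ha
  · exact analyticAt_const

theorem h38a_X {σ : Type} {x : ℂ} (i : σ) :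
    (MvPolynomial.X i : MvPolynomial σ (ℂ → ℂ)) ∈ h38a_ring σ x := by
  classical
  intro m
  rw [MvPolynomial.coeff_X']
  split_ifs
  · exact analyticAt_const
  · exact analyticAt_const

/-- H38a. Invertible affine substitutions: if `Q` arises from `P` by `Y_ν ↦ A_ν Y_ν + B_ν` with functions `A_ν, B_ν` of `x`, and at the point `x` all `A_ν ≠ 0`, then: all coefficients of `Q` vanish at `x` only if all coefficients of `P` vanish at `x`. -/
theorem affine_sub {σ : Type} [Finite σ] (P : MvPolynomial σ (ℂ → ℂ)) (A B : σ → ℂ → ℂ) :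
    ∃ Q : MvPolynomial σ (ℂ → ℂ), (∀ x y, pev Q x y = pev P x (fun ν => A ν x * y ν + B ν x)) ∧
      (∀ x, (∀ ν, A ν x ≠ 0) → (∀ m, Q.coeff m x = 0) → ∀ m, P.coeff m x = 0) ∧
      (∀ x, (∀ m, AnalyticAt ℂ (P.coeff m) x) → (∀ ν, AnalyticAt ℂ (A ν) x) → (∀ ν, AnalyticAt ℂ (B ν) x) → ∀ m, AnalyticAt ℂ (Q.coeff m) x) := by
  classical
  let f : σ → MvPolynomial σ (ℂ → ℂ) := fun ν =>
    MvPolynomial.C (A ν) * MvPolynomial.X ν + MvPolynomial.C (B ν)
  refine ⟨MvPolynomial.bind₁ f P, ?_, ?_, ?_⟩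
  · intro x y
    have h : ((MvPolynomial.eval y).comp (MvPolynomial.map (Pi.evalRingHom (fun _ : ℂ => ℂ) x))).comp
        (MvPolynomial.bind₁ f).toRingHom =
        (MvPolynomial.eval (fun ν => A ν x * y ν + B ν x)).comp
          (MvPolynomial.map (Pi.evalRingHom (fun _ : ℂ => ℂ) x)) := by
      apply MvPolynomial.ringHom_ext
      · intro a
        simp
      · intro i
        simp [f]
    exact RingHom.congr_fun h P
  · intro x hA hQ m
    let g : σ → MvPolynomial σ ℂ := fun ν =>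
      MvPolynomial.C (A ν x) * MvPolynomial.X ν + MvPolynomial.C (B ν x)
    let g' : σ → MvPolynomial σ ℂ := fun ν =>
      MvPolynomial.C (A ν x)⁻¹ * (MvPolynomial.X ν - MvPolynomial.C (B ν x))
    have h1 : MvPolynomial.map (Pi.evalRingHom (fun _ : ℂ => ℂ) x) (MvPolynomial.bind₁ f P) = 0 := by
      ext m
      rw [MvPolynomial.coeff_map, MvPolynomial.coeff_zero]
      exact hQ m
    have h2 : (MvPolynomial.bind₁ g') ((MvPolynomial.bind₁ g)
        (MvPolynomial.map (Pi.evalRingHom (fun _ : ℂ => ℂ) x) P)) =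
        MvPolynomial.map (Pi.evalRingHom (fun _ : ℂ => ℂ) x) P := by
      have h : ((MvPolynomial.bind₁ g').comp (MvPolynomial.bind₁ g)) =
          AlgHom.id ℂ (MvPolynomial σ ℂ) := by
        apply MvPolynomial.algHom_ext
        intro i
        simp only [AlgHom.comp_apply, MvPolynomial.bind₁_X_right, g, map_add, map_mul,
          MvPolynomial.bind₁_C_right, g', AlgHom.id_apply]
        rw [← mul_assoc, ← MvPolynomial.C_mul, mul_inv_cancel₀ (hA i), MvPolynomial.C_1, one_mul]
        ring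
      exact AlgHom.congr_fun h _
    have h3 : MvPolynomial.map (Pi.evalRingHom (fun _ : ℂ => ℂ) x) (MvPolynomial.bind₁ f P) =
        (MvPolynomial.bind₁ g) (MvPolynomial.map (Pi.evalRingHom (fun _ : ℂ => ℂ) x) P) := by
      rw [MvPolynomial.map_bind₁]
      congr 2
      funext ν
      simp [f, g]
    rw [← h3, h1, map_zero] at h2
    have h4 := congrArg (MvPolynomial.coeff m) h2.symm
    rw [MvPolynomial.coeff_map, MvPolynomial.coeff_zero] at h4
    exact h4
  · intro x hP hA hB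
    have h1 : MvPolynomial.bind₁ f P ∈ h38a_ring σ x := by
      have e : MvPolynomial.bind₁ f P = ∑ d ∈ P.support, MvPolynomial.C (P.coeff d) *
          ∏ i ∈ d.support, f i ^ d i := by
        rw [MvPolynomial.bind₁, MvPolynomial.aeval_def, MvPolynomial.eval₂_eq]
        rfl
      rw [e]
      refine Subring.sum_mem _ (fun d _ => Subring.mul_mem _ (h38a_C (hP d)) ?_)
      refine Subring.prod_mem _ (fun i _ => Subring.pow_mem _ ?_ _)
      exact Subring.add_mem _ (Subring.mul_mem _ (h38a_C (hA i)) (h38a_X i)) (h38a_C (hB i))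
    exact h1

end Pool.Agent.MSD
end

end

section

/-! # H03: a point with negative imaginary part (MP_f58a57_nt) -/

open Complex ModularForm EisensteinSeries Filter
open UpperHalfPlane hiding I
open scoped Topology MatrixGroups Polynomial

noncomputable section

namespace Pool.Agent.MSD

/-- H03. A nonconstant rational function takes values with negative imaginary part off any finite set. PROOF. Let `R = u/v` (`u, v` coprime). For
all complex `w` except at most one, the polynomial `u - w v` is nonconstant and has a complex root `y`; `v y ≠ 0` (otherwise `u y = 0` too,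
impossible for coprime `u, v`), so `R y = w`. Different `w` give different `y`; among infinitely many `w` with `w.im < 0` one has `y ∉ F`. -/
theorem evr_neg {d : ℕ} (R : RatFunc (KF d)) (hR : ¬ ∃ c, R = RatFunc.C c) (F : Set ℂ) (hF : F.Finite) :
    ∃ y : ℂ, y ∉ F ∧ dn R y ≠ 0 ∧ (evr R y).im < 0 := by
  set φ : KF d →+* ℂ := algebraMap (KF d) ℂ with hφ
  have hφi : Function.Injective φ := φ.injective
  set u : Polynomial ℂ := R.num.map φ with hu
  set v : Polynomial ℂ := R.denom.map φ with hv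
  have hdn : ∀ y, dn R y = v.eval y := fun y => (Polynomial.eval_map φ y).symm
  have hev : ∀ y, evr R y = u.eval y / v.eval y := by
    intro y
    rw [hu, hv, Polynomial.eval_map, Polynomial.eval_map]
    rfl
  -- the bad set
  set Bad : Set ℂ := {w | (u - Polynomial.C w * v).natDegree = 0} with hBad
  have hsub : Bad.Subsingleton := by
    intro w hw w' hw'
    by_contra hne
    obtain ⟨c, hc⟩ := Polynomial.natDegree_eq_zero.1 hw
    obtain ⟨c', hc'⟩ := Polynomial.natDegree_eq_zero.1 hw'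
    have hne' : w' - w ≠ 0 := sub_ne_zero.2 (Ne.symm hne)
    have e1 : Polynomial.C (w' - w) * v = Polynomial.C (c - c') := by
      rw [Polynomial.C_sub, Polynomial.C_sub, hc, hc']
      ring
    have e2 : v = Polynomial.C ((c - c') / (w' - w)) := by
      have : Polynomial.C (w' - w)⁻¹ * (Polynomial.C (w' - w) * v) = Polynomial.C (w' - w)⁻¹ * Polynomial.C (c - c') := by
        rw [e1]
      rw [← mul_assoc, ← Polynomial.C_mul, ← Polynomial.C_mul, inv_mul_cancel₀ hne', Polynomial.C_1, one_mul] at this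
      rw [this, div_eq_inv_mul]
    have hvd : v.natDegree = 0 := by rw [e2]; exact Polynomial.natDegree_C _
    have hud : u.natDegree = 0 := by
      have : u = Polynomial.C (c + w * ((c - c') / (w' - w))) := by
        rw [Polynomial.C_add, Polynomial.C_mul, ← e2, hc]
        ring
      rw [this]; exact Polynomial.natDegree_C _
    rw [hv, Polynomial.natDegree_map_eq_of_injective hφi] at hvd
    rw [hu, Polynomial.natDegree_map_eq_of_injective hφi] at hud
    have hden : R.denom = 1 := Polynomial.eq_one_of_monic_natDegree_zero (RatFunc.monic_denom R) hvd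
    obtain ⟨a, ha⟩ := Polynomial.natDegree_eq_zero.1 hud
    apply hR
    refine ⟨a, ?_⟩
    rw [← RatFunc.num_div_denom R, hden, map_one, div_one, ← ha]
    exact RatFunc.algebraMap_C a
  have hinf : (Set.range fun n : ℕ => -((n : ℂ) + 1) * I).Infinite := by
    apply Set.infinite_range_of_injective
    intro m n hmn
    have h1 := congrArg Complex.im hmn
    simp at h1
    exact_mod_cast h1
  have hfin : ((evr R '' F) ∪ Bad).Finite := (hF.image _).union hsub.finite
  obtain ⟨w, hw, hw'⟩ := (hinf.sdiff hfin).nonempty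
  rw [Set.mem_union, not_or] at hw'
  obtain ⟨hw1, hw2⟩ := hw'
  have hwim : w.im < 0 := by
    obtain ⟨n, rfl⟩ := hw
    have e : (-((n : ℂ) + 1) * I).im = -((n : ℝ) + 1) := by simp
    rw [e]
    have : (0 : ℝ) ≤ n := Nat.cast_nonneg n
    linarith
  have hdeg : (u - Polynomial.C w * v).degree ≠ 0 := by
    intro h
    exact hw2 (Polynomial.natDegree_eq_of_degree_eq_some h)
  obtain ⟨y, hy⟩ := IsAlgClosed.exists_root _ hdeg
  have hy' : u.eval y = w * v.eval y := by
    have : (u - Polynomial.C w * v).eval y = 0 := hy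
    rw [Polynomial.eval_sub, Polynomial.eval_mul, Polynomial.eval_C] at this
    exact sub_eq_zero.1 this
  have hvy : v.eval y ≠ 0 := by
    intro h0
    rw [h0, mul_zero] at hy'
    have hcop : IsCoprime u v := (RatFunc.isCoprime_num_denom R).map (Polynomial.mapRingHom φ)
    obtain ⟨a, b, hab⟩ := hcop
    have := congrArg (Polynomial.eval y) hab
    rw [Polynomial.eval_add, Polynomial.eval_mul, Polynomial.eval_mul, hy', h0, mul_zero, mul_zero, add_zero,
      Polynomial.eval_one] at this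
    exact zero_ne_one this
  have hval : evr R y = w := by
    rw [hev, hy']
    field_simp
  refine ⟨y, ?_, ?_, ?_⟩
  · intro hyF
    exact hw1 ⟨y, hyF, hval⟩
  · rw [hdn]; exact hvy
  · rw [hval]; exact hwim

end Pool.Agent.MSD
end

end
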