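import Mathlib
import Pool.Agent.Lib.MP_f58a57_nt.FK.K012
import Pool.Agent.Lib.MP_f58a57_nt.FK.K014
import Pool.Agent.Lib.MP_f58a57_nt.FK.K048

section

/-! # H01: the field KF d (MP_f58a57_nt) -/

open Complex ModularForm EisensteinSeries Filter
open UpperHalfPlane hiding I
open scoped Topology MatrixGroups Polynomial

noncomputable section

namespace Pool.Agent.MSD

theorem h01_sq (d : ℕ) : rt d * rt d = -(d : ℂ) := by
  have h1 : ((Real.sqrt d : ℝ) : ℂ) * ((Real.sqrt d : ℝ) : ℂ) = (d : ℂ) := by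
    rw [← Complex.ofReal_mul, Real.mul_self_sqrt (Nat.cast_nonneg d), Complex.ofReal_natCast]
  unfold rt
  linear_combination (Complex.I * Complex.I) * h1 + (d : ℂ) * Complex.I_mul_I

theorem h01_re (d : ℕ) : (rt d).re = 0 := by
  unfold rt
  simp

theorem h01_im (d : ℕ) : (rt d).im = Real.sqrt d := by
  unfold rt
  simp

/-- `KK d` as an intermediate field -/
def h01F (d : ℕ) : IntermediateField ℚ ℂ where
  carrier := KK d
  mul_mem' := by
    rintro a b ⟨u, v, rfl⟩ ⟨u', v', rfl⟩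
    refine ⟨u * u' - v * v' * d, u * v' + u' * v, ?_⟩
    push_cast
    linear_combination ((v : ℂ) * v') * h01_sq d
  add_mem' := by
    rintro a b ⟨u, v, rfl⟩ ⟨u', v', rfl⟩
    refine ⟨u + u', v + v', ?_⟩
    push_cast
    ring
  algebraMap_mem' := by
    intro r
    refine ⟨r, 0, ?_⟩
    simp
  inv_mem' := by
    rintro a ⟨u, v, rfl⟩
    by_cases h : (u : ℂ) + v * rt d = 0
    · rw [h, inv_zero]
      exact ⟨0, 0, by simp⟩
    · have hN : (u ^ 2 + v ^ 2 * d : ℚ) ≠ 0 := by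
        intro h0
        have h1 : u = 0 := by
          by_contra hu
          have : 0 < u ^ 2 := by positivity
          have : 0 ≤ v ^ 2 * (d : ℚ) := by positivity
          linarith
        subst h1
        have h2 : v ^ 2 * (d : ℚ) = 0 := by linarith
        rcases mul_eq_zero.1 h2 with h3 | h3
        · have h4 : v = 0 := by simpa using h3
          subst h4
          exact h (by simp)
        · have h4 : d = 0 := by exact_mod_cast h3
          subst h4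
          exact h (by simp [rt])
      have hN' : ((u : ℂ) ^ 2 + v ^ 2 * d) ≠ 0 := by exact_mod_cast hN
      refine ⟨u / (u ^ 2 + v ^ 2 * d), -v / (u ^ 2 + v ^ 2 * d), ?_⟩
      push_cast
      rw [← one_div, div_eq_iff h]
      field_simp
      linear_combination ((v : ℂ) ^ 2) * h01_sq d

/-- H01a. Elements of `KF d` are `u + v √(-d)`. (`KK d` is a subfield: closed under `+, *`, inverses; it contains `rt d`; see `G3_Orbit`.) -/
theorem mem_KF (d : ℕ) (x : ℂ) : x ∈ KF d ↔ x ∈ KK d := by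
  constructor
  · intro h
    have h1 : KF d ≤ h01F d := by
      unfold KF
      rw [IntermediateField.adjoin_le_iff]
      intro y hy
      rw [Set.mem_singleton_iff] at hy
      subst hy
      exact ⟨0, 1, by simp⟩
    exact h1 h
  · rintro ⟨u, v, rfl⟩
    have h1 : rt d ∈ KF d := IntermediateField.mem_adjoin_simple_self ℚ (rt d)
    have h2 : ∀ q : ℚ, (q : ℂ) ∈ KF d := fun q => by
      exact (KF d).algebraMap_mem q
    exact (KF d).add_mem (h2 u) ((KF d).mul_mem (h2 v) h1)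

theorem rt_mem_KF (d : ℕ) : rt d ∈ KF d := IntermediateField.mem_adjoin_simple_self ℚ (rt d)

/-- H01b. `KF d` is stable under complex conjugation. -/
theorem conj_mem_KF (d : ℕ) (x : ℂ) (hx : x ∈ KF d) : (starRingEnd ℂ) x ∈ KF d := by
  rw [mem_KF] at hx ⊢
  exact KK_conj_g3 d x hx

/-- complex conjugation on `KF d` -/
def conjK (d : ℕ) : KF d →+* KF d :=
  ((starRingEnd ℂ).comp (algebraMap (KF d) ℂ)).codRestrict (KF d) (fun x => conj_mem_KF d _ x.2)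

theorem conjK_coe (d : ℕ) (x : KF d) : ((conjK d x : KF d) : ℂ) = (starRingEnd ℂ) (x : ℂ) := rfl

/-- H01c. Real elements of `KF d` are rational (`d > 0`). -/
theorem KF_real (d : ℕ) (hd : 0 < d) (x : ℂ) (hx : x ∈ KF d) (him : x.im = 0) : ∃ q : ℚ, x = (q : ℂ) := by
  rw [mem_KF] at hx
  obtain ⟨u, v, rfl⟩ := hx
  have h1 : ((u : ℂ) + v * rt d).im = v * Real.sqrt d := by
    rw [Complex.add_im, Complex.mul_im, h01_im, h01_re]
    simp
  rw [h1] at him
  have h2 : 0 < Real.sqrt d := Real.sqrt_pos.2 (by exact_mod_cast hd)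
  have h3 : (v : ℝ) = 0 := (mul_eq_zero.1 him).resolve_right h2.ne'
  have h4 : v = 0 := by exact_mod_cast h3
  subst h4
  exact ⟨u, by simp⟩

/-- H01d. `KF d` is dense in `ℂ` (`d > 0`). -/
theorem KF_dense (d : ℕ) (hd : 0 < d) (z : ℂ) (ε : ℝ) (hε : 0 < ε) : ∃ x ∈ KF d, ‖x - z‖ < ε := by
  have h2 : 0 < Real.sqrt d := Real.sqrt_pos.2 (by exact_mod_cast hd)
  obtain ⟨u, hu1, hu2⟩ := exists_rat_btwn (show z.re < z.re + ε / 2 by linarith)
  obtain ⟨v, hv1, hv2⟩ := exists_rat_btwn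
    (show z.im / Real.sqrt d < z.im / Real.sqrt d + ε / 2 / Real.sqrt d by
      have : 0 < ε / 2 / Real.sqrt d := by positivity
      linarith)
  refine ⟨(u : ℂ) + v * rt d, (mem_KF d _).2 ⟨u, v, rfl⟩, ?_⟩
  rw [div_lt_iff₀ h2] at hv1
  rw [← add_div, lt_div_iff₀ h2] at hv2
  have e1 : ((u : ℂ) + v * rt d - z).re = u - z.re := by
    rw [Complex.sub_re, Complex.add_re, Complex.mul_re, h01_im, h01_re]
    simp
  have e2 : ((u : ℂ) + v * rt d - z).im = v * Real.sqrt d - z.im := by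
    rw [Complex.sub_im, Complex.add_im, Complex.mul_im, h01_im, h01_re]
    simp
  refine (Complex.norm_le_abs_re_add_abs_im _).trans_lt ?_
  rw [e1, e2, abs_of_pos (by linarith), abs_of_pos (by linarith)]
  linarith

/-- H01e. Algebraicity. -/
theorem KF_algebraic (d : ℕ) (x : ℂ) (hx : x ∈ KF d) : IsAlgebraic ℚ x := by
  rw [mem_KF] at hx
  exact KK_algebraic d x hx

end Pool.Agent.MSD
end

end

section

/-! # H13: circle or line (MP_f58a57_nt) -/

open Complex ModularForm EisensteinSeries Filter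
open UpperHalfPlane hiding I
open scoped Topology MatrixGroups Polynomial

noncomputable section

namespace Pool.Agent.MSD

theorem h13_quad_finite {A B C : ℂ} (hA : A ≠ 0) : {s : ℂ | A * s ^ 2 + B * s + C = 0}.Finite := by
  set p : ℂ[X] := Polynomial.C A * Polynomial.X ^ 2 + Polynomial.C B * Polynomial.X + Polynomial.C C with hp
  have hcoef : p.coeff 2 = A := by
    rw [hp]
    simp
  have hp0 : p ≠ 0 := by
    intro h
    rw [h] at hcoef
    simp at hcoef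
    exact hA hcoef.symm
  refine (Polynomial.finite_setOfPred_isRoot hp0).subset ?_
  intro s hs
  have hs' : A * s ^ 2 + B * s + C = 0 := hs
  change p.IsRoot s
  rw [Polynomial.IsRoot.def, hp]
  simp only [Polynomial.eval_add, Polynomial.eval_mul, Polynomial.eval_C, Polynomial.eval_pow,
    Polynomial.eval_X]
  exact hs'

theorem h13_circle {d : ℕ} (hd : 0 < d) (a b e : ℂ) (ha : a ∈ KF d) (hb : b ∈ KF d)
    (T : Set ℂ) (hinf : T.Infinite) (h : ∀ s ∈ T, (starRingEnd ℂ) s * (s + e) = a * s + b) :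
    ∃ sc ∈ KF d, ∃ ρ : ℚ, 0 < ρ ∧ ∀ s ∈ T, ‖s - sc‖ ^ 2 = ρ := by
  have hconj : ∀ s ∈ T, s * ((starRingEnd ℂ) s + (starRingEnd ℂ) e) =
      (starRingEnd ℂ) a * (starRingEnd ℂ) s + (starRingEnd ℂ) b := by
    intro s hs
    have := congrArg (starRingEnd ℂ) (h s hs)
    simpa only [map_mul, map_add, Complex.conj_conj] using this
  have hsub : ∀ s ∈ T, (e + (starRingEnd ℂ) a) * (starRingEnd ℂ) s =
      ((starRingEnd ℂ) e + a) * s + (b - (starRingEnd ℂ) b) := by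
    intro s hs
    linear_combination h s hs - hconj s hs
  have hη : e + (starRingEnd ℂ) a = 0 := by
    by_contra hne
    have hη' : (starRingEnd ℂ) e + a ≠ 0 := by
      intro h0
      apply hne
      have := congrArg (starRingEnd ℂ) h0
      simpa only [map_add, Complex.conj_conj, map_zero] using this
    apply hinf
    refine (h13_quad_finite (A := (starRingEnd ℂ) e + a)
      (B := (b - (starRingEnd ℂ) b) + e * ((starRingEnd ℂ) e + a) - (e + (starRingEnd ℂ) a) * a)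
      (C := e * (b - (starRingEnd ℂ) b) - (e + (starRingEnd ℂ) a) * b) hη').subset ?_
    intro s hs
    change _ = _
    linear_combination (e + (starRingEnd ℂ) a) * h s hs - (s + e) * hsub s hs
  obtain ⟨s0, hs0⟩ := hinf.nonempty
  have hη' : (starRingEnd ℂ) e + a = 0 := by
    have := congrArg (starRingEnd ℂ) hη
    simpa only [map_add, Complex.conj_conj, map_zero] using this
  have hbr : b - (starRingEnd ℂ) b = 0 := by
    have := hsub s0 hs0
    rw [hη, hη'] at this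
    linear_combination -this
  have hbim : b.im = 0 := by
    have := congrArg Complex.im hbr
    simp at this
    linarith
  have hρK : b + a * (starRingEnd ℂ) a ∈ KF d :=
    add_mem hb (mul_mem ha (conj_mem_KF d a ha))
  have hρim : (b + a * (starRingEnd ℂ) a).im = 0 := by
    rw [Complex.mul_conj, Complex.add_im, Complex.ofReal_im, hbim, add_zero]
  obtain ⟨q, hq⟩ := KF_real d hd _ hρK hρim
  have hnorm : ∀ s ∈ T, ‖s - (starRingEnd ℂ) a‖ ^ 2 = (q : ℝ) := by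
    intro s hs
    have h1 : (s - (starRingEnd ℂ) a) * (starRingEnd ℂ) (s - (starRingEnd ℂ) a) = (q : ℂ) := by
      rw [← hq, map_sub, Complex.conj_conj]
      have he : e = -(starRingEnd ℂ) a := by linear_combination hη
      have h2 := h s hs
      rw [he] at h2
      linear_combination h2
    rw [Complex.mul_conj, Complex.normSq_eq_norm_sq] at h1
    exact_mod_cast h1
  refine ⟨(starRingEnd ℂ) a, conj_mem_KF d a ha, q, ?_, hnorm⟩
  obtain ⟨s1, hs1, hne⟩ : ∃ s ∈ T, s ≠ (starRingEnd ℂ) a := by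
    by_contra hcon
    push Not at hcon
    apply hinf
    exact (Set.finite_singleton ((starRingEnd ℂ) a)).subset (fun s hs => hcon s hs)
  have h3 : 0 < ‖s1 - (starRingEnd ℂ) a‖ ^ 2 := by
    have : 0 < ‖s1 - (starRingEnd ℂ) a‖ := norm_pos_iff.mpr (sub_ne_zero.mpr hne)
    positivity
  rw [hnorm s1 hs1] at h3
  exact_mod_cast h3

theorem h13_line {d : ℕ} (hd : 0 < d) (a b e : ℂ) (ha : a ∈ KF d) (hb : b ∈ KF d) (he : e ∈ KF d)
    (he0 : e ≠ 0) (T : Set ℂ) (hinf : T.Infinite) (h : ∀ s ∈ T, (starRingEnd ℂ) s * e = a * s + b) :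
    ∃ sc ∈ KF d, ∃ τ ∈ KF d, τ ≠ 0 ∧ ∀ s ∈ T, ∃ r : ℝ, s = sc + r * τ := by
  have ha0 : a ≠ 0 := by
    intro ha0
    apply hinf
    refine (Set.finite_singleton ((starRingEnd ℂ) (b / e))).subset ?_
    intro s hs
    have h1 := h s hs
    rw [ha0, zero_mul, zero_add] at h1
    have h2 : (starRingEnd ℂ) s = b / e := by
      rw [eq_div_iff he0]
      exact h1
    have h3 := congrArg (starRingEnd ℂ) h2
    rw [Complex.conj_conj] at h3
    exact h3
  have hac : (starRingEnd ℂ) a ≠ 0 := by simpa using ha0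
  obtain ⟨s1, hs1, s2, hs2, hne⟩ := hinf.nontrivial
  have hd1 : (starRingEnd ℂ) (s1 - s2) * e = a * (s1 - s2) := by
    rw [map_sub]
    linear_combination h s1 hs1 - h s2 hs2
  have hnorm : ‖e‖ = ‖a‖ := by
    have h1 := congrArg norm hd1
    rw [norm_mul, norm_mul, Complex.norm_conj] at h1
    have h2 : ‖s1 - s2‖ ≠ 0 := norm_ne_zero_iff.mpr (sub_ne_zero.mpr hne)
    have h3 : ‖s1 - s2‖ * ‖e‖ = ‖s1 - s2‖ * ‖a‖ := by linarith
    exact mul_left_cancel₀ h2 h3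
  have hee : e * (starRingEnd ℂ) e = a * (starRingEnd ℂ) a := by
    rw [Complex.mul_conj, Complex.mul_conj, Complex.normSq_eq_norm_sq, Complex.normSq_eq_norm_sq, hnorm]
  have hconj1 : (starRingEnd ℂ) e * s1 = (starRingEnd ℂ) a * (starRingEnd ℂ) s1 + (starRingEnd ℂ) b := by
    have := congrArg (starRingEnd ℂ) (h s1 hs1)
    rw [map_mul, map_add, map_mul, Complex.conj_conj] at this
    linear_combination this
  have hrel : a * (starRingEnd ℂ) b + (starRingEnd ℂ) e * b = 0 := by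
    linear_combination (-(starRingEnd ℂ) e) * h s1 hs1 - a * hconj1 + (starRingEnd ℂ) s1 * hee
  have hrel' : (starRingEnd ℂ) a * b + e * (starRingEnd ℂ) b = 0 := by
    have := congrArg (starRingEnd ℂ) hrel
    simp only [map_add, map_mul, Complex.conj_conj, map_zero] at this
    exact this
  set sc : ℂ := -b / (2 * a) with hsc
  have hscK : sc ∈ KF d := div_mem (neg_mem hb) (mul_mem (by exact_mod_cast (KF d).algebraMap_mem 2) ha)
  have hsce : (starRingEnd ℂ) sc * e = a * sc + b := by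
    rw [hsc, map_div₀, map_neg, map_mul]
    have h2 : (starRingEnd ℂ) (2 : ℂ) = 2 := Complex.conj_ofNat 2
    rw [h2]
    field_simp
    linear_combination -hrel'
  have hτ : ∃ τ ∈ KF d, τ ≠ 0 ∧ (starRingEnd ℂ) τ * e = a * τ := by
    have hgen : ∀ w : ℂ, w ∈ KF d → (w + e / a * (starRingEnd ℂ) w) ∈ KF d ∧
        (starRingEnd ℂ) (w + e / a * (starRingEnd ℂ) w) * e = a * (w + e / a * (starRingEnd ℂ) w) := by
      intro w hw
      refine ⟨add_mem hw (mul_mem (div_mem he ha) (conj_mem_KF d w hw)), ?_⟩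
      rw [map_add, map_mul, map_div₀, Complex.conj_conj]
      field_simp
      linear_combination w * hee
    by_cases h1 : (1 : ℂ) + e / a = 0
    · have hea : e / a = -1 := by linear_combination h1
      obtain ⟨g1, g2⟩ := hgen (rt d) (rt_mem_KF d)
      refine ⟨_, g1, ?_, g2⟩
      rw [hea]
      have hrt : (starRingEnd ℂ) (rt d) = -rt d := by
        unfold rt
        rw [map_mul, Complex.conj_ofReal, Complex.conj_I]
        ring
      rw [hrt]
      have hrt0 : rt d ≠ 0 := by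
        unfold rt
        apply mul_ne_zero _ Complex.I_ne_zero
        have : (0 : ℝ) < Real.sqrt d := Real.sqrt_pos.mpr (by exact_mod_cast hd)
        exact_mod_cast this.ne'
      intro h0
      apply hrt0
      linear_combination (1 / 2 : ℂ) * h0
    · obtain ⟨g1, g2⟩ := hgen 1 (one_mem _)
      refine ⟨_, g1, ?_, g2⟩
      rw [map_one, mul_one]
      exact h1
  obtain ⟨τ, hτK, hτ0, hτe⟩ := hτ
  refine ⟨sc, hscK, τ, hτK, hτ0, ?_⟩
  intro s hs
  have hdiff : (starRingEnd ℂ) (s - sc) * e = a * (s - sc) := by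
    rw [map_sub]
    linear_combination h s hs - hsce
  have hτc : (starRingEnd ℂ) τ ≠ 0 := by simpa using hτ0
  have hreal : (starRingEnd ℂ) ((s - sc) / τ) = (s - sc) / τ := by
    rw [map_div₀, div_eq_div_iff hτc hτ0]
    apply mul_right_cancel₀ (mul_ne_zero ha0 he0)
    linear_combination (a * τ) * hdiff - (a * (s - sc)) * hτe
  obtain ⟨r, hr⟩ := Complex.conj_eq_iff_real.mp hreal
  refine ⟨r, ?_⟩
  rw [← hr]
  field_simp
  ring

/-- H13. PROOF. Case `c ≠ 0`: divide by `c`, so `s s̄ + e s̄ - a s - b = 0` on `T`. Subtract the conjugate equation: `η s̄ - η̄ s - (b - b̄) = 0`, `η = e + ā`. If `η ≠ 0`, insert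
`s̄ = (η̄ s + b - b̄)/η` in the first equation: a quadratic equation for `s` with leading coefficient `η̄/η ≠ 0`, so `T` has at most two elements. Hence `η = 0`,
`b` real, `|s - ā|² = b + |a|² =: ρ`, a real element of `KF d`, so rational; `ρ > 0` because `T` has more than one element.
Case `c = 0`: `e s̄ - a s = b` on `T`; `e, a ≠ 0` (otherwise `s` is constant on `T`). Take two points of `T`: with the difference `τ₀`, `e τ̄₀ = a τ₀`, so `|a| = |e|` and every `s ∈ T` has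
`e conj(s - s₁) = a (s - s₁)`; also `ē s - ā s̄ = b̄`, multiply: `ē e s̄ - ē a s = ē b`, `a ē s - a ā s̄ = a b̄`, add: `(|e|² - |a|²) s̄ = 0 = ē b + a b̄`. Then `s_c = -b/(2a)` satisfies
`e s̄_c - a s_c = -e b̄/(2 ā) + b/2 = b` (because `e b̄/ā = -b`: from `ē b = - a b̄`, conjugated `e b̄ = - ā b`). Direction: `τ = w + (e/a) w̄` with `w = 1` or `w = √(-d)`, not both zero; `e τ̄ = a τ`
(use `e ē = a ā`). For `s ∈ T`, `(s - s_c)/τ` is real: `e conj(s - s_c) = a (s - s_c)` and `e τ̄ = a τ` give that the quotient equals its conjugate. -/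
theorem circle_or_line {d : ℕ} (hd : 0 < d) (a b c e : ℂ) (ha : a ∈ KF d) (hb : b ∈ KF d) (hc : c ∈ KF d) (he : e ∈ KF d)
    (T : Set ℂ) (hinf : T.Infinite) (h : ∀ s ∈ T, c * s + e ≠ 0 ∧ (starRingEnd ℂ) s * (c * s + e) = a * s + b) :
    (∃ sc ∈ KF d, ∃ ρ : ℚ, 0 < ρ ∧ ∀ s ∈ T, ‖s - sc‖ ^ 2 = ρ) ∨
      ∃ sc ∈ KF d, ∃ τ ∈ KF d, τ ≠ 0 ∧ ∀ s ∈ T, ∃ r : ℝ, s = sc + r * τ := by
  by_cases hc0 : c = 0
  · right
    obtain ⟨s0, hs0⟩ := hinf.nonempty
    have he0 : e ≠ 0 := by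
      have := (h s0 hs0).1
      rw [hc0, zero_mul, zero_add] at this
      exact this
    apply h13_line hd a b e ha hb he he0 T hinf
    intro s hs
    have := (h s hs).2
    rw [hc0, zero_mul, zero_add] at this
    exact this
  · left
    apply h13_circle hd (a / c) (b / c) (e / c) (div_mem ha hc) (div_mem hb hc) T hinf
    intro s hs
    have := (h s hs).2
    field_simp
    linear_combination this

end Pool.Agent.MSD
end

end

section

/-! # H14: quadratic points on circles and lines (MP_f58a57_nt) -/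

open Complex ModularForm EisensteinSeries Filter
open UpperHalfPlane hiding I
open scoped Topology MatrixGroups Polynomial

noncomputable section

namespace Pool.Agent.MSD

theorem h14_rat {d : ℕ} (q : ℚ) : (q : ℂ) ∈ KF d := (KF d).algebraMap_mem q

theorem h14_nat {d : ℕ} (q : ℕ) : (q : ℂ) ∈ KF d := by
  have := h14_rat (d := d) (q : ℚ)
  rwa [Rat.cast_natCast] at this

/-- every unit complex number is `w / conj w`, continuously -/
theorem h14_unit (e : ℂ) (he : ‖e‖ = 1) (ε : ℝ) (hε : 0 < ε) :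
    ∃ w : ℂ, ∃ t0 > 0, ∀ x : ℂ, ‖x - w‖ < t0 → x ≠ 0 ∧ ‖x / (starRingEnd ℂ) x - e‖ < ε := by
  obtain ⟨w, hw⟩ := IsAlgClosed.exists_pow_nat_eq e (show 0 < 2 by norm_num)
  have hw1 : ‖w‖ = 1 := by
    have h1 : ‖w‖ ^ 2 = 1 := by rw [← norm_pow, hw, he]
    have h2 := norm_nonneg w
    nlinarith
  have hw0 : w ≠ 0 := by
    intro h
    rw [h, norm_zero] at hw1
    norm_num at hw1
  have hcw : (starRingEnd ℂ) w ≠ 0 := (map_ne_zero _).2 hw0
  have hval : w / (starRingEnd ℂ) w = e := by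
    rw [div_eq_iff hcw, ← hw, sq, mul_assoc, Complex.mul_conj, Complex.normSq_eq_norm_sq, hw1]
    simp
  have hcont : ContinuousAt (fun x : ℂ => x / (starRingEnd ℂ) x) w :=
    continuousAt_id.div Complex.continuous_conj.continuousAt hcw
  have h1 : ∀ᶠ x in 𝓝 w, x ≠ 0 := isOpen_ne.mem_nhds hw0
  have h2 : ∀ᶠ x in 𝓝 w, ‖x / (starRingEnd ℂ) x - e‖ < ε := by
    have h3 := hcont.eventually (Metric.ball_mem_nhds _ hε)
    filter_upwards [h3] with x hx
    have h4 : x / (starRingEnd ℂ) x ∈ Metric.ball (w / (starRingEnd ℂ) w) ε := hx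
    rw [Metric.mem_ball, dist_eq_norm, hval] at h4
    exact h4
  obtain ⟨t0, ht0, h⟩ := Metric.eventually_nhds_iff.1 (h1.and h2)
  refine ⟨w, t0, ht0, fun x hx => ?_⟩
  exact h (by rwa [dist_eq_norm])

/-- the points over `K(√D)` on the unit circle -/
theorem h14_key {d : ℕ} (hd : 0 < d) (D : ℕ) (hD : 0 < D) (e e' : ℂ) (he : ‖e‖ = 1)
    (he' : ‖e'‖ = 1) (ε : ℝ) (hε : 0 < ε) :
    ∃ A ∈ KF d, ∃ B ∈ KF d, ‖A + B * Real.sqrt D‖ = 1 ∧ ‖A + B * Real.sqrt D - e‖ < ε ∧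
      ‖A - B * Real.sqrt D - e'‖ < ε := by
  obtain ⟨w, t0, ht0, hw⟩ := h14_unit e he ε hε
  obtain ⟨w', t1, ht1, hw'⟩ := h14_unit e' he' ε hε
  set r : ℝ := Real.sqrt D with hr
  have hr0 : 0 < r := Real.sqrt_pos.2 (by exact_mod_cast hD)
  have hrr : r * r = D := Real.mul_self_sqrt (Nat.cast_nonneg D)
  have hrc : (r : ℂ) ≠ 0 := by exact_mod_cast hr0.ne'
  have hrrc : (r : ℂ) * r = D := by exact_mod_cast hrr
  set ζ : ℝ := min t0 t1 with hζ
  have hζ0 : 0 < ζ := lt_min ht0 ht1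
  obtain ⟨a, ha, hae⟩ := KF_dense d hd ((w + w') / 2) (ζ / 2) (by linarith)
  obtain ⟨b, hb, hbe⟩ := KF_dense d hd ((w - w') / (2 * r)) (ζ / (2 * r)) (by positivity)
  have hbr : ‖b * r - (w - w') / 2‖ < ζ / 2 := by
    have e1 : b * r - (w - w') / 2 = (b - (w - w') / (2 * r)) * r := by
      field_simp
    rw [e1, norm_mul, Complex.norm_real, Real.norm_eq_abs, abs_of_pos hr0]
    calc ‖b - (w - w') / (2 * r)‖ * r < ζ / (2 * r) * r := mul_lt_mul_of_pos_right hbe hr0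
      _ = ζ / 2 := by field_simp
  have h1 : ‖(a + b * r) - w‖ < ζ := by
    have e1 : (a + b * r) - w = (a - (w + w') / 2) + (b * r - (w - w') / 2) := by ring
    rw [e1]
    exact (norm_add_le _ _).trans_lt (by linarith)
  have h2 : ‖(a - b * r) - w'‖ < ζ := by
    have e1 : (a - b * r) - w' = (a - (w + w') / 2) - (b * r - (w - w') / 2) := by ring
    rw [e1]
    exact (norm_sub_le _ _).trans_lt (by linarith)
  obtain ⟨hx0, hx⟩ := hw (a + b * r) (h1.trans_le (min_le_left _ _))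
  obtain ⟨hy0, hy⟩ := hw' (a - b * r) (h2.trans_le (min_le_right _ _))
  have hca : (starRingEnd ℂ) a ∈ KF d := conj_mem_KF d a ha
  have hcb : (starRingEnd ℂ) b ∈ KF d := conj_mem_KF d b hb
  set a' := (starRingEnd ℂ) a with ha'
  set b' := (starRingEnd ℂ) b with hb'
  have hcx : (starRingEnd ℂ) (a + b * r) = a' + b' * r := by
    rw [map_add, map_mul, Complex.conj_ofReal]
  have hcy : (starRingEnd ℂ) (a - b * r) = a' - b' * r := by
    rw [map_sub, map_mul, Complex.conj_ofReal]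
  have hcx0 : a' + b' * r ≠ 0 := by
    rw [← hcx]
    exact (map_ne_zero _).2 hx0
  have hcy0 : a' - b' * r ≠ 0 := by
    rw [← hcy]
    exact (map_ne_zero _).2 hy0
  set N : ℂ := a' * a' - b' * b' * D with hN
  have hNe : N = (a' + b' * r) * (a' - b' * r) := by
    rw [hN, ← hrrc]
    ring
  have hN0 : N ≠ 0 := by
    rw [hNe]
    exact mul_ne_zero hcx0 hcy0
  have hNm : N ∈ KF d := sub_mem (mul_mem hca hca) (mul_mem (mul_mem hcb hcb) (h14_nat D))
  have q1 : (a * a' - b * b' * D) / N + (b * a' - a * b') / N * r =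
      (a + b * r) / (starRingEnd ℂ) (a + b * r) := by
    rw [hcx, div_mul_eq_mul_div, ← add_div, div_eq_div_iff hN0 hcx0, hNe, ← hrrc]
    ring
  have q2 : (a * a' - b * b' * D) / N - (b * a' - a * b') / N * r =
      (a - b * r) / (starRingEnd ℂ) (a - b * r) := by
    rw [hcy, div_mul_eq_mul_div, ← sub_div, div_eq_div_iff hN0 hcy0, hNe, ← hrrc]
    ring
  refine ⟨(a * a' - b * b' * D) / N, div_mem (sub_mem (mul_mem ha hca)
    (mul_mem (mul_mem hb hcb) (h14_nat D))) hNm, (b * a' - a * b') / N,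
    div_mem (sub_mem (mul_mem hb hca) (mul_mem ha hcb)) hNm, ?_, ?_, ?_⟩
  · rw [q1, norm_div, RCLike.norm_conj, div_self (norm_ne_zero_iff.2 hx0)]
  · rw [q1]
    exact hx
  · rw [q2]
    exact hy

/-- H14a. Points over `K(√D)` on a circle with centre in `K` and rational squared radius. PROOF. Write `ρ = P/Q` and let `D = P Q` if this is not a square, and `D = 2` otherwise; so
`√ρ = v₀ √D` or `√ρ = v₀` with rational `v₀`. For `ω = α₁ + β₁ √D` (`α₁, β₁ ∈ K`), `ω' = α₁ - β₁ √D`: the point `s = sc + √ρ ω/ω̄` lies on the circle, it is of the form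
`α + β √D` (`1/ω̄ = ω̄'/(ω̄ ω̄')` with `ω ω' ∈ K`), and `α - β √D = sc ± √ρ ω'/ω̄'` with the sign `-` if `√ρ = v₀ √D`. The pairs `(ω, ω')` are dense in
`ℂ²` (choose `α₁, β₁` near `(ω + ω')/2`, `(ω - ω')/(2√D)`, `KF_dense`), and every point of the unit circle is `ω/ω̄` with `|ω| = 1`. So `s` and `α - β √D` can be made
close to `s₁` and `s₁'`. -/
theorem circle_pts {d : ℕ} (hd : 0 < d) (sc : ℂ) (hsc : sc ∈ KF d) (ρ : ℚ) (hρ : 0 < ρ) (s₁ s₁' : ℂ) (h₁ : ‖s₁ - sc‖ ^ 2 = ρ)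
    (h₁' : ‖s₁' - sc‖ ^ 2 = ρ) (ε : ℝ) (hε : 0 < ε) :
    ∃ D : ℕ, ¬ IsSquare D ∧ ∃ α ∈ KF d, ∃ β ∈ KF d, ‖α + β * Real.sqrt D - sc‖ ^ 2 = ρ ∧ ‖α + β * Real.sqrt D - s₁‖ < ε ∧
      ‖α - β * Real.sqrt D - s₁'‖ < ε := by
  set n : ℕ := ρ.num.toNat * ρ.den with hn
  have hnum : 0 < ρ.num := Rat.num_pos.2 hρ
  have hden : (0 : ℝ) < ρ.den := by exact_mod_cast ρ.den_pos
  have hn0 : 0 < n := Nat.mul_pos (by omega) ρ.den_pos
  have hρn : (ρ : ℝ) = n / (ρ.den : ℝ) ^ 2 := by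
    have h1 : (ρ : ℝ) = (ρ.num : ℝ) / (ρ.den : ℝ) := by exact_mod_cast (Rat.num_div_den ρ).symm
    have h2 : ((ρ.num.toNat : ℕ) : ℝ) = (ρ.num : ℝ) := by
      have : ((ρ.num.toNat : ℤ)) = ρ.num := Int.toNat_of_nonneg hnum.le
      exact_mod_cast this
    rw [hn, h1]
    push_cast
    rw [h2]
    field_simp
  have hρ0 : (0 : ℝ) < ρ := by exact_mod_cast hρ
  set R : ℝ := Real.sqrt ρ with hR
  have hR0 : 0 < R := Real.sqrt_pos.2 hρ0
  have hRR : R ^ 2 = ρ := Real.sq_sqrt hρ0.le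
  have hRc : (R : ℂ) ≠ 0 := by exact_mod_cast hR0.ne'
  have hnorm : ∀ s : ℂ, ‖s - sc‖ ^ 2 = ρ → ‖(s - sc) / R‖ = 1 := by
    intro s hs
    rw [norm_div, Complex.norm_real, Real.norm_eq_abs, abs_of_pos hR0, div_eq_one_iff_eq hR0.ne']
    rw [← hRR] at hs
    exact (sq_eq_sq₀ (norm_nonneg _) hR0.le).1 hs
  have hεR : 0 < ε / R := by positivity
  by_cases hsq : IsSquare n
  · obtain ⟨k, hk⟩ := hsq
    have hRk : R = (((k : ℚ) / ρ.den : ℚ) : ℝ) := by
      push_cast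
      rw [hR, hρn, hk]
      push_cast
      rw [show ((k : ℝ) * k) / (ρ.den : ℝ) ^ 2 = ((k : ℝ) / ρ.den) ^ 2 by ring]
      exact Real.sqrt_sq (by positivity)
    have hRkc : (R : ℂ) ∈ KF d := by
      rw [hRk]
      exact_mod_cast h14_rat (d := d) ((k : ℚ) / ρ.den)
    obtain ⟨A, hA, B, hB, hAB, hAB1, hAB2⟩ := h14_key hd 2 (by norm_num) _ _ (hnorm s₁ h₁)
      (hnorm s₁' h₁') (ε / R) hεR
    refine ⟨2, ?_, sc + R * A, add_mem hsc (mul_mem hRkc hA), R * B, mul_mem hRkc hB, ?_, ?_, ?_⟩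
    · intro h
      obtain ⟨m, hm⟩ := h
      have h3 : m < 2 := by nlinarith
      interval_cases m <;> omega
    · have e1 : sc + R * A + R * B * Real.sqrt (2 : ℕ) - sc = R * (A + B * Real.sqrt (2 : ℕ)) := by
        ring
      rw [e1, norm_mul, hAB, mul_one, Complex.norm_real, Real.norm_eq_abs, sq_abs, hRR]
    · have e1 : sc + R * A + R * B * Real.sqrt (2 : ℕ) - s₁ =
          R * (A + B * Real.sqrt (2 : ℕ) - (s₁ - sc) / R) := by
        field_simp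
        ring
      rw [e1, norm_mul, Complex.norm_real, Real.norm_eq_abs, abs_of_pos hR0]
      calc R * _ < R * (ε / R) := mul_lt_mul_of_pos_left hAB1 hR0
        _ = ε := by field_simp
    · have e1 : sc + R * A - R * B * Real.sqrt (2 : ℕ) - s₁' =
          R * (A - B * Real.sqrt (2 : ℕ) - (s₁' - sc) / R) := by
        field_simp
        ring
      rw [e1, norm_mul, Complex.norm_real, Real.norm_eq_abs, abs_of_pos hR0]
      calc R * _ < R * (ε / R) := mul_lt_mul_of_pos_left hAB2 hR0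
        _ = ε := by field_simp
  · -- `√ρ = v₀ √n`
    set r : ℝ := Real.sqrt n with hr
    have hr0 : 0 < r := Real.sqrt_pos.2 (by exact_mod_cast hn0)
    have hrr : r * r = n := Real.mul_self_sqrt (Nat.cast_nonneg n)
    have hrrc : (r : ℂ) * r = n := by exact_mod_cast hrr
    have hRv : R = r / ρ.den := by
      rw [hR, hρn, Real.sqrt_div (Nat.cast_nonneg n), Real.sqrt_sq hden.le]
    set v : ℂ := ((1 / ρ.den : ℚ) : ℂ) with hv
    have hvm : v ∈ KF d := h14_rat _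
    have hRvc : (R : ℂ) = v * r := by
      rw [hRv, hv]
      push_cast
      ring
    obtain ⟨A, hA, B, hB, hAB, hAB1, hAB2⟩ := h14_key hd n hn0 ((s₁ - sc) / R)
      (-((s₁' - sc) / R)) (hnorm s₁ h₁) (by rw [norm_neg]; exact hnorm s₁' h₁') (ε / R) hεR
    refine ⟨n, hsq, sc + v * n * B, add_mem hsc (mul_mem (mul_mem hvm (h14_nat n)) hB), v * A,
      mul_mem hvm hA, ?_, ?_, ?_⟩
    · have e1 : sc + v * n * B + v * A * r - sc = R * (A + B * r) := by
        rw [hRvc, ← hrrc]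
        ring
      rw [e1, norm_mul, hAB, mul_one, Complex.norm_real, Real.norm_eq_abs, sq_abs, hRR]
    · have e1 : sc + v * n * B + v * A * r - s₁ = R * (A + B * r - (s₁ - sc) / R) := by
        have e2 : (R : ℂ) * (A + B * r - (s₁ - sc) / R) = R * (A + B * r) - (s₁ - sc) := by
          field_simp
        rw [e2, hRvc, ← hrrc]
        ring
      rw [e1, norm_mul, Complex.norm_real, Real.norm_eq_abs, abs_of_pos hR0]
      calc R * _ < R * (ε / R) := mul_lt_mul_of_pos_left hAB1 hR0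
        _ = ε := by field_simp
    · have e1 : sc + v * n * B - v * A * r - s₁' = -(R * (A - B * r - -((s₁' - sc) / R))) := by
        have e2 : (R : ℂ) * (A - B * r - -((s₁' - sc) / R)) = R * (A - B * r) + (s₁' - sc) := by
          field_simp
          ring
        rw [e2, hRvc, ← hrrc]
        ring
      rw [e1, norm_neg, norm_mul, Complex.norm_real, Real.norm_eq_abs, abs_of_pos hR0]
      calc R * _ < R * (ε / R) := mul_lt_mul_of_pos_left hAB2 hR0
        _ = ε := by field_simp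

/-- H14b. The same on a line. (`D = 2`, `r = u + v √2` with rational `u, v`, `r` near `r₁`, `u - v √2` near `r₁'`.) -/
theorem line_pts {d : ℕ} (hd : 0 < d) (sc τ : ℂ) (hsc : sc ∈ KF d) (hτ : τ ∈ KF d) (r₁ r₁' : ℝ) (ε : ℝ) (hε : 0 < ε) :
    ∃ D : ℕ, ¬ IsSquare D ∧ ∃ α ∈ KF d, ∃ β ∈ KF d, ∃ r : ℝ, |r - r₁| < ε ∧ α + β * Real.sqrt D = sc + r * τ ∧
      ‖α - β * Real.sqrt D - (sc + r₁' * τ)‖ < ε := by
  set q : ℝ := Real.sqrt ((2 : ℕ) : ℝ) with hq
  have hq0 : 0 < q := Real.sqrt_pos.2 (by norm_num)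
  set ζ : ℝ := ε / (‖τ‖ + 1) with hζ
  have hζ0 : 0 < ζ := by positivity
  have hζε : ζ ≤ ε := by
    rw [hζ, div_le_iff₀ (by positivity)]
    nlinarith [norm_nonneg τ]
  obtain ⟨u, hu1, hu2⟩ := exists_rat_btwn (show (r₁ + r₁') / 2 < (r₁ + r₁') / 2 + ζ / 2 by linarith)
  obtain ⟨v, hv1, hv2⟩ := exists_rat_btwn (show (r₁ - r₁') / (2 * q) <
    (r₁ - r₁') / (2 * q) + ζ / (2 * q) by
      have : 0 < ζ / (2 * q) := by positivity
      linarith)
  have hv1' : (r₁ - r₁') / 2 < v * q := by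
    have := mul_lt_mul_of_pos_right hv1 hq0
    have e1 : (r₁ - r₁') / (2 * q) * q = (r₁ - r₁') / 2 := by field_simp
    rwa [e1] at this
  have hv2' : v * q < (r₁ - r₁') / 2 + ζ / 2 := by
    have := mul_lt_mul_of_pos_right hv2 hq0
    have e1 : ((r₁ - r₁') / (2 * q) + ζ / (2 * q)) * q = (r₁ - r₁') / 2 + ζ / 2 := by field_simp
    rwa [e1] at this
  refine ⟨2, ?_, sc + u * τ, add_mem hsc (mul_mem (h14_rat u) hτ), v * τ,
    mul_mem (h14_rat v) hτ, u + v * q, ?_, ?_, ?_⟩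
  · intro h
    obtain ⟨m, hm⟩ := h
    have h3 : m < 2 := by nlinarith
    interval_cases m <;> omega
  · rw [abs_lt]
    constructor <;> linarith
  · rw [← hq, Complex.ofReal_add, Complex.ofReal_mul, Complex.ofReal_ratCast,
      Complex.ofReal_ratCast]
    ring
  · rw [← hq]
    have e1 : sc + (u : ℂ) * τ - v * τ * q - (sc + r₁' * τ) = (((u : ℝ) - v * q - r₁' : ℝ) : ℂ) * τ := by
      rw [Complex.ofReal_sub, Complex.ofReal_sub, Complex.ofReal_mul, Complex.ofReal_ratCast,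
        Complex.ofReal_ratCast]
      ring
    rw [e1, norm_mul, Complex.norm_real, Real.norm_eq_abs]
    have h4 : |(u : ℝ) - v * q - r₁'| < ζ := by
      rw [abs_lt]
      constructor <;> linarith
    calc |(u : ℝ) - v * q - r₁'| * ‖τ‖ ≤ |(u : ℝ) - v * q - r₁'| * (‖τ‖ + 1) :=
          mul_le_mul_of_nonneg_left (by linarith) (abs_nonneg _)
      _ < ζ * (‖τ‖ + 1) := mul_lt_mul_of_pos_right h4 (by positivity)
      _ = ε := by
          rw [hζ]
          field_simp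

end Pool.Agent.MSD
end

end

section

/-! # M10: coordinates of CM values (MP_f58a57_nt) -/

open Complex ModularForm EisensteinSeries Filter
open UpperHalfPlane hiding I
open scoped Topology MatrixGroups Polynomial

noncomputable section

namespace Pool.Agent.MSD

/-- the scaled coordinates -/
theorem m10_core (d : ℕ) (hd : 0 < d) (n1 n2 m1 m2 : ℤ) (P Q Z : ℂ) (hZ : Z ≠ 0) (hP : Z * P = n1 + n2 * rt d)
    (hQ : Z * Q = m1 + m2 * rt d) (him : 0 < (P / Q).im) :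
    0 < n2 * m1 - n1 * m2 ∧ 0 < m1 ^ 2 + d * m2 ^ 2 ∧
      P / Q = ((n2 * m1 - n1 * m2 : ℤ) * rt d + (n1 * m1 + d * (n2 * m2) : ℤ)) / (m1 ^ 2 + d * m2 ^ 2 : ℤ) := by
  obtain ⟨q, hq⟩ : ∃ q : ℤ, q = n2 * m1 - n1 * m2 := ⟨_, rfl⟩
  obtain ⟨p, hp⟩ : ∃ p : ℤ, p = n1 * m1 + d * (n2 * m2) := ⟨_, rfl⟩
  obtain ⟨r, hr⟩ : ∃ r : ℤ, r = m1 ^ 2 + d * m2 ^ 2 := ⟨_, rfl⟩
  rw [← hq, ← hp, ← hr]
  have hprod : ((n1 : ℂ) + n2 * rt d) * (starRingEnd ℂ) ((m1 : ℂ) + m2 * rt d) = (q : ℂ) * rt d + p := by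
    rw [map_add, map_mul, C3a_conj_rt, map_intCast, map_intCast, hq, hp]
    push_cast
    linear_combination (-(n2 : ℂ) * m2) * C3a_rt_sq d
  have hprod2 : ((m1 : ℂ) + m2 * rt d) * (starRingEnd ℂ) ((m1 : ℂ) + m2 * rt d) = (r : ℂ) := by
    rw [map_add, map_mul, C3a_conj_rt, map_intCast, map_intCast, hr]
    push_cast
    linear_combination (-(m2 : ℂ) * m2) * C3a_rt_sq d
  have hQ0 : Q ≠ 0 := by
    intro h0
    rw [h0, div_zero, Complex.zero_im] at him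
    exact lt_irrefl _ him
  have hmne : ((m1 : ℂ) + m2 * rt d) ≠ 0 := by
    rw [← hQ]
    exact mul_ne_zero hZ hQ0
  have hcm : (starRingEnd ℂ) ((m1 : ℂ) + m2 * rt d) ≠ 0 := (map_ne_zero _).2 hmne
  have hrne : (r : ℂ) ≠ 0 := by
    rw [← hprod2]
    exact mul_ne_zero hmne hcm
  have hrne' : r ≠ 0 := by exact_mod_cast hrne
  have hr0 : 0 ≤ r := by rw [hr]; positivity
  have hrpos : 0 < r := lt_of_le_of_ne hr0 (Ne.symm hrne')
  have hval : P / Q = ((q : ℂ) * rt d + p) / r := by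
    rw [← mul_div_mul_left P Q hZ, hP, hQ, ← hprod, ← hprod2, mul_div_mul_right _ _ hcm]
  have hsd : (0 : ℝ) < Real.sqrt d := Real.sqrt_pos.2 (by exact_mod_cast hd)
  refine ⟨?_, hrpos, hval⟩
  have h4 : (((q : ℂ) * rt d + p) / r).im = (q : ℝ) * Real.sqrt d / r := by
    have h5 : ((q : ℂ) * rt d + p) / r = (((1 / (r : ℝ) : ℝ)) : ℂ) * ((q : ℂ) * rt d + p) := by
      push_cast
      field_simp
    have h6 : ((q : ℂ) * rt d + p).im = (q : ℝ) * Real.sqrt d := by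
      have h5 : (((q : ℂ)) * rt d + p).im = ((((q : ℝ) : ℂ)) * rt d).im + (((p : ℝ) : ℂ)).im := by
        rw [← Complex.add_im]
        push_cast
        rfl
      rw [h5, Complex.im_ofReal_mul, Complex.ofReal_im, C3a_rt_im, add_zero]
    rw [h5, Complex.im_ofReal_mul, h6]
    ring
  rw [hval, h4] at him
  have hr' : (0 : ℝ) < (r : ℝ) := by exact_mod_cast hrpos
  have h7 : 0 < (q : ℝ) * Real.sqrt d := by
    by_contra hc
    exact absurd him (not_lt.2 (div_nonpos_of_nonpos_of_nonneg (not_lt.1 hc) hr'.le))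
  have h8 : (0 : ℝ) < (q : ℝ) := (mul_pos_iff_of_pos_right hsd).1 h7
  exact_mod_cast h8

/-- product of the denominators -/
def m10_B {s : ℕ} (x : Fin s → ℚ) : ℕ := ∏ l, (x l).den

theorem m10_B_pos {s : ℕ} (x : Fin s → ℚ) : 0 < m10_B x := Finset.prod_pos fun l _ => (x l).den_pos

theorem m10_B_le {s : ℕ} (x : Fin s → ℚ) : m10_B x ≤ Bd x ^ s := by
  unfold m10_B Bd
  calc ∏ l, (x l).den ≤ ∏ _l : Fin s, (2 + ∑ l, (x l).den) := by
        refine Finset.prod_le_prod' fun l _ => ?_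
        have := Finset.single_le_sum (f := fun l => (x l).den) (fun l _ => Nat.zero_le _) (Finset.mem_univ l)
        exact this.trans (by omega)
    _ = (2 + ∑ l, (x l).den) ^ s := by
        rw [Finset.prod_const, Finset.card_univ, Fintype.card_fin]

/-- coordinates of the values of a polynomial -/
theorem m10_poly {s : ℕ} (d : ℕ) (R' : ℕ) (P : MvPolynomial (Fin s) (KF d)) :
    ∃ M D K : ℕ, 0 < M ∧ ∀ x : Fin s → ℚ, (∀ l, |(x l : ℝ)| ≤ R') → ∃ n1 n2 : ℤ,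
      ((M : ℂ) * (m10_B x : ℂ) ^ D) * MvPolynomial.aeval (fun l => ((x l : ℚ) : ℂ)) P = n1 + n2 * rt d ∧
      |n1| ≤ (K : ℤ) * (m10_B x : ℤ) ^ D ∧ |n2| ≤ (K : ℤ) * (m10_B x : ℤ) ^ D := by
  induction P using MvPolynomial.induction_on with
  | C c =>
    obtain ⟨u, v, huv⟩ := (mem_KF d (c : ℂ)).1 c.2
    obtain ⟨k1, hk1⟩ := C3a_mul_int u (u.den * v.den) (dvd_mul_right _ _)
    obtain ⟨k2, hk2⟩ := C3a_mul_int v (u.den * v.den) (dvd_mul_left _ _)
    refine ⟨u.den * v.den, 0, k1.natAbs + k2.natAbs, Nat.mul_pos u.den_pos v.den_pos, fun x _ => ⟨k1, k2, ?_, ?_, ?_⟩⟩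
    · rw [MvPolynomial.aeval_C, pow_zero, mul_one]
      have h1 : (algebraMap (KF d) ℂ) c = (c : ℂ) := rfl
      rw [h1, huv]
      linear_combination hk1 + (rt d) * hk2
    · rw [pow_zero, mul_one]
      push_cast
      have := abs_nonneg k2
      linarith
    · rw [pow_zero, mul_one]
      push_cast
      have := abs_nonneg k1
      linarith
  | add p q hp hq =>
    obtain ⟨M1, D1, K1, hM1, h1⟩ := hp
    obtain ⟨M2, D2, K2, hM2, h2⟩ := hq
    refine ⟨M1 * M2, D1 + D2, M2 * K1 + M1 * K2, Nat.mul_pos hM1 hM2, fun x hx => ?_⟩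
    obtain ⟨a1, a2, ha, ha1, ha2⟩ := h1 x hx
    obtain ⟨b1, b2, hb, hb1, hb2⟩ := h2 x hx
    have hB : (0 : ℤ) < (m10_B x : ℤ) := by exact_mod_cast m10_B_pos x
    obtain ⟨B, hBe⟩ : ∃ B : ℤ, B = (m10_B x : ℤ) := ⟨_, rfl⟩
    have hBc : (m10_B x : ℂ) = (B : ℂ) := by rw [hBe]; push_cast; rfl
    rw [← hBe] at hB ha1 ha2 hb1 hb2 ⊢
    rw [hBc] at ha hb ⊢
    have hbound : ∀ a b : ℤ, |a| ≤ (K1 : ℤ) * B ^ D1 → |b| ≤ (K2 : ℤ) * B ^ D2 →
        |(M2 : ℤ) * B ^ D2 * a + (M1 : ℤ) * B ^ D1 * b| ≤ ((M2 * K1 + M1 * K2 : ℕ) : ℤ) * B ^ (D1 + D2) := by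
      intro a b h3 h4
      have e1 : 0 ≤ (M2 : ℤ) * B ^ D2 := by positivity
      have e2 : 0 ≤ (M1 : ℤ) * B ^ D1 := by positivity
      calc |(M2 : ℤ) * B ^ D2 * a + (M1 : ℤ) * B ^ D1 * b|
          ≤ |(M2 : ℤ) * B ^ D2 * a| + |(M1 : ℤ) * B ^ D1 * b| := abs_add_le _ _
        _ = (M2 : ℤ) * B ^ D2 * |a| + (M1 : ℤ) * B ^ D1 * |b| := by
            rw [abs_mul ((M2 : ℤ) * B ^ D2) a, abs_mul ((M1 : ℤ) * B ^ D1) b, abs_of_nonneg e1, abs_of_nonneg e2]
        _ ≤ (M2 : ℤ) * B ^ D2 * ((K1 : ℤ) * B ^ D1) + (M1 : ℤ) * B ^ D1 * ((K2 : ℤ) * B ^ D2) := by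
            gcongr
        _ = ((M2 * K1 + M1 * K2 : ℕ) : ℤ) * B ^ (D1 + D2) := by
            push_cast; ring
    refine ⟨(M2 : ℤ) * B ^ D2 * a1 + (M1 : ℤ) * B ^ D1 * b1, (M2 : ℤ) * B ^ D2 * a2 + (M1 : ℤ) * B ^ D1 * b2, ?_,
      hbound _ _ ha1 hb1, hbound _ _ ha2 hb2⟩
    rw [map_add]
    push_cast
    linear_combination ((M2 : ℂ) * (B : ℂ) ^ D2) * ha + ((M1 : ℂ) * (B : ℂ) ^ D1) * hb
  | mul_X p l hp =>
    obtain ⟨M, D, K, hM, h1⟩ := hp
    refine ⟨M, D + 1, K * R', hM, fun x hx => ?_⟩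
    obtain ⟨a1, a2, ha, ha1, ha2⟩ := h1 x hx
    have hB : (0 : ℤ) < (m10_B x : ℤ) := by exact_mod_cast m10_B_pos x
    obtain ⟨k, hk⟩ := C3a_mul_int (x l) (m10_B x) (Finset.dvd_prod_of_mem (fun i => (x i).den) (Finset.mem_univ l))
    have hkb : |k| ≤ (R' : ℤ) * (m10_B x : ℤ) := by
      have h2 : (m10_B x : ℝ) * (x l : ℝ) = (k : ℝ) := by exact_mod_cast hk
      have h3 : |(k : ℝ)| ≤ (R' : ℝ) * (m10_B x : ℝ) := by
        rw [← h2, abs_mul, abs_of_nonneg (Nat.cast_nonneg _), mul_comm]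
        exact mul_le_mul_of_nonneg_right (hx l) (Nat.cast_nonneg _)
      exact_mod_cast h3
    obtain ⟨B, hBe⟩ : ∃ B : ℤ, B = (m10_B x : ℤ) := ⟨_, rfl⟩
    have hBc : (m10_B x : ℂ) = (B : ℂ) := by rw [hBe]; push_cast; rfl
    rw [← hBe] at hB ha1 ha2 hkb ⊢
    rw [hBc] at ha hk ⊢
    have hbound : ∀ a : ℤ, |a| ≤ (K : ℤ) * B ^ D → |a * k| ≤ ((K * R' : ℕ) : ℤ) * B ^ (D + 1) := by
      intro a h3
      rw [abs_mul]
      calc |a| * |k| ≤ ((K : ℤ) * B ^ D) * ((R' : ℤ) * B) := mul_le_mul h3 hkb (abs_nonneg _) (by positivity)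
        _ = ((K * R' : ℕ) : ℤ) * B ^ (D + 1) := by push_cast; ring
    refine ⟨a1 * k, a2 * k, ?_, hbound _ ha1, hbound _ ha2⟩
    rw [map_mul, MvPolynomial.aeval_X]
    push_cast
    linear_combination ((k : ℂ)) * ha + ((M : ℂ) * (B : ℂ) ^ D *
      MvPolynomial.aeval (fun l => ((x l : ℚ) : ℂ)) p) * hk

/-- M10. The version of `cm_coords` (`C3a_Coords.lean`) for rational functions. PROOF. Let `M > 0` be an integer with `M u ∈ ℤ + ℤ√(-d)` for all coefficients `u` of `U, V` (`C3a_common`, `mem_KF`), `D` larger than all exponents. For `x_l = a_l/b_l`, `Π = M Π_l b_l^D`: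
`Π U(x) = n₁ + n₂ √(-d)`, `Π V(x) = m₁ + m₂ √(-d)` with integers of absolute value `≤ K B^K` (`|a_l| ≤ R b_l`, `b_l ≤ B = Bd x`, `K` depends on `U, V, R, s`). Then `U(x)/V(x) = (p + q √(-d))/r`, `r = m₁² + d m₂² > 0` (`V(x) ≠ 0` because the imaginary part is positive),
`q = n₂ m₁ - n₁ m₂ > 0`, `p = n₁ m₁ + d n₂ m₂`, and `q r ≤ B^C` (`B ≥ 2`). -/
theorem cm_coordsM {s : ℕ} (d : ℕ) (hd : 0 < d) (U V : MvPolynomial (Fin s) (KF d)) (R : ℝ) :
    ∃ C : ℕ, ∀ x : Fin s → ℚ, (∀ l, |(x l : ℝ)| ≤ R) →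
      0 < (MvPolynomial.aeval (fun l => ((x l : ℚ) : ℂ)) U / MvPolynomial.aeval (fun l => ((x l : ℚ) : ℂ)) V : ℂ).im →
      ∃ (q r : ℕ) (p : ℤ), 0 < q ∧ 0 < r ∧ q * r ≤ Bd x ^ C ∧
        MvPolynomial.aeval (fun l => ((x l : ℚ) : ℂ)) U / MvPolynomial.aeval (fun l => ((x l : ℚ) : ℂ)) V = (q * rt d + p) / r := by
  obtain ⟨R', hR'⟩ := exists_nat_ge R
  obtain ⟨M1, D1, K1, hM1, h1⟩ := m10_poly d R' U
  obtain ⟨M2, D2, K2, hM2, h2⟩ := m10_poly d R' V
  obtain ⟨K, hK⟩ : ∃ K : ℕ, K = M2 * K1 + M1 * K2 := ⟨_, rfl⟩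
  obtain ⟨C0, hC0⟩ : ∃ C0 : ℕ, C0 = 2 * (1 + d) * K ^ 4 := ⟨_, rfl⟩
  refine ⟨C0 + s * (4 * (D1 + D2)), fun x hx him => ?_⟩
  have hx' : ∀ l, |(x l : ℝ)| ≤ R' := fun l => (hx l).trans hR'
  obtain ⟨a1, a2, ha, ha1, ha2⟩ := h1 x hx'
  obtain ⟨b1, b2, hb, hb1, hb2⟩ := h2 x hx'
  have hB : (0 : ℤ) < (m10_B x : ℤ) := by exact_mod_cast m10_B_pos x
  have hBle := m10_B_le x
  obtain ⟨B, hBe⟩ : ∃ B : ℤ, B = (m10_B x : ℤ) := ⟨_, rfl⟩
  have hBc : (m10_B x : ℂ) = (B : ℂ) := by rw [hBe]; push_cast; rfl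
  rw [← hBe] at hB ha1 ha2 hb1 hb2
  rw [hBc] at ha hb
  obtain ⟨t, ht⟩ : ∃ t : ℤ, t = B ^ (D1 + D2) := ⟨_, rfl⟩
  have htpos : 0 < t := by rw [ht]; positivity
  have hbU : ∀ a : ℤ, |a| ≤ (K1 : ℤ) * B ^ D1 → |(M2 : ℤ) * B ^ D2 * a| ≤ (K : ℤ) * t := by
    intro a h3
    have e1 : 0 ≤ (M2 : ℤ) * B ^ D2 := by positivity
    rw [abs_mul, abs_of_nonneg e1]
    calc (M2 : ℤ) * B ^ D2 * |a| ≤ (M2 : ℤ) * B ^ D2 * ((K1 : ℤ) * B ^ D1) := by gcongr
      _ = ((M2 * K1 : ℕ) : ℤ) * t := by rw [ht]; push_cast; ring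
      _ ≤ (K : ℤ) * t := by
        rw [hK]
        have : ((M2 * K1 : ℕ) : ℤ) ≤ ((M2 * K1 + M1 * K2 : ℕ) : ℤ) := by exact_mod_cast Nat.le_add_right _ _
        gcongr
  have hbV : ∀ a : ℤ, |a| ≤ (K2 : ℤ) * B ^ D2 → |(M1 : ℤ) * B ^ D1 * a| ≤ (K : ℤ) * t := by
    intro a h3
    have e1 : 0 ≤ (M1 : ℤ) * B ^ D1 := by positivity
    rw [abs_mul, abs_of_nonneg e1]
    calc (M1 : ℤ) * B ^ D1 * |a| ≤ (M1 : ℤ) * B ^ D1 * ((K2 : ℤ) * B ^ D2) := by gcongr
      _ = ((M1 * K2 : ℕ) : ℤ) * t := by rw [ht]; push_cast; ring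
      _ ≤ (K : ℤ) * t := by
        rw [hK]
        have : ((M1 * K2 : ℕ) : ℤ) ≤ ((M2 * K1 + M1 * K2 : ℕ) : ℤ) := by exact_mod_cast Nat.le_add_left _ _
        gcongr
  have hBne : (B : ℂ) ≠ 0 := by exact_mod_cast hB.ne'
  have hM1c : (M1 : ℂ) ≠ 0 := by exact_mod_cast hM1.ne'
  have hM2c : (M2 : ℂ) ≠ 0 := by exact_mod_cast hM2.ne'
  have hZ : (M1 : ℂ) * M2 * (B : ℂ) ^ (D1 + D2) ≠ 0 := mul_ne_zero (mul_ne_zero hM1c hM2c) (pow_ne_zero _ hBne)
  have hP : ((M1 : ℂ) * M2 * (B : ℂ) ^ (D1 + D2)) * MvPolynomial.aeval (fun l => ((x l : ℚ) : ℂ)) U =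
      (((M2 : ℤ) * B ^ D2 * a1 : ℤ) : ℂ) + (((M2 : ℤ) * B ^ D2 * a2 : ℤ) : ℂ) * rt d := by
    push_cast
    linear_combination ((M2 : ℂ) * (B : ℂ) ^ D2) * ha
  have hQ : ((M1 : ℂ) * M2 * (B : ℂ) ^ (D1 + D2)) * MvPolynomial.aeval (fun l => ((x l : ℚ) : ℂ)) V =
      (((M1 : ℤ) * B ^ D1 * b1 : ℤ) : ℂ) + (((M1 : ℤ) * B ^ D1 * b2 : ℤ) : ℂ) * rt d := by
    push_cast
    linear_combination ((M1 : ℂ) * (B : ℂ) ^ D1) * hb
  obtain ⟨hq, hr, hval⟩ := m10_core d hd _ _ _ _ _ _ _ hZ hP hQ him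
  have hqr := C3a_qr_bound (d := d) (K := (K : ℤ)) (t := t) (Int.natCast_nonneg K) htpos (hbU a1 ha1) (hbU a2 ha2)
    (hbV b1 hb1) (hbV b2 hb2)
  obtain ⟨n1, hn1⟩ : ∃ n1 : ℤ, n1 = (M2 : ℤ) * B ^ D2 * a1 := ⟨_, rfl⟩
  obtain ⟨n2, hn2⟩ : ∃ n2 : ℤ, n2 = (M2 : ℤ) * B ^ D2 * a2 := ⟨_, rfl⟩
  obtain ⟨m1, hm1⟩ : ∃ m1 : ℤ, m1 = (M1 : ℤ) * B ^ D1 * b1 := ⟨_, rfl⟩
  obtain ⟨m2, hm2⟩ : ∃ m2 : ℤ, m2 = (M1 : ℤ) * B ^ D1 * b2 := ⟨_, rfl⟩
  rw [← hn1, ← hn2, ← hm1, ← hm2] at hq hval hqr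
  rw [← hm1, ← hm2] at hr
  refine ⟨(n2 * m1 - n1 * m2).toNat, (m1 ^ 2 + d * m2 ^ 2).toNat, n1 * m1 + d * (n2 * m2), by omega, by omega, ?_, ?_⟩
  · have h5 : (((n2 * m1 - n1 * m2).toNat * (m1 ^ 2 + d * m2 ^ 2).toNat : ℕ) : ℤ) ≤ ((C0 * (m10_B x) ^ (4 * (D1 + D2)) : ℕ) : ℤ) := by
      push_cast
      rw [Int.toNat_of_nonneg hq.le, Int.toNat_of_nonneg hr.le]
      refine hqr.trans (le_of_eq ?_)
      rw [hC0, ht, ← hBe]
      push_cast
      ring
    have h6 : (n2 * m1 - n1 * m2).toNat * (m1 ^ 2 + d * m2 ^ 2).toNat ≤ C0 * (m10_B x) ^ (4 * (D1 + D2)) := by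
      exact_mod_cast h5
    have h7 : 2 ≤ Bd x := by unfold Bd; omega
    have h8 : C0 ≤ Bd x ^ C0 := (Nat.lt_two_pow_self).le.trans (Nat.pow_le_pow_left h7 C0)
    calc _ ≤ C0 * (m10_B x) ^ (4 * (D1 + D2)) := h6
      _ ≤ Bd x ^ C0 * (Bd x ^ s) ^ (4 * (D1 + D2)) := Nat.mul_le_mul h8 (Nat.pow_le_pow_left hBle _)
      _ = Bd x ^ (C0 + s * (4 * (D1 + D2))) := by rw [← pow_mul, ← pow_add]
  · have hq' : (((n2 * m1 - n1 * m2).toNat : ℕ) : ℂ) = ((n2 * m1 - n1 * m2 : ℤ) : ℂ) := by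
      have : (((n2 * m1 - n1 * m2).toNat : ℕ) : ℤ) = n2 * m1 - n1 * m2 := Int.toNat_of_nonneg hq.le
      exact_mod_cast congrArg (fun z : ℤ => (z : ℂ)) this
    have hr' : (((m1 ^ 2 + d * m2 ^ 2).toNat : ℕ) : ℂ) = ((m1 ^ 2 + d * m2 ^ 2 : ℤ) : ℂ) := by
      have : (((m1 ^ 2 + d * m2 ^ 2).toNat : ℕ) : ℤ) = m1 ^ 2 + d * m2 ^ 2 := Int.toNat_of_nonneg hr.le
      exact_mod_cast congrArg (fun z : ℤ => (z : ℂ)) this
    rw [hq', hr']
    exact hval

end Pool.Agent.MSD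
end

end
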