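import Mathlib
import Pool.Agent.Lib.MP_f58a57_nt.FK.K048

section

/-! # H22: local coordinates at the common fixed point (MP_f58a57_nt) -/

open Complex ModularForm EisensteinSeries Filter
open UpperHalfPlane hiding I
open scoped Topology MatrixGroups Polynomial

noncomputable section

namespace Pool.Agent.MSD

/-- local inverse of an analytic function -/
lemma h22_inv {F : ℂ → ℂ} {x₁ : ℂ} (hF : AnalyticAt ℂ F x₁) (h0 : F x₁ = 0) (hd : deriv F x₁ ≠ 0) :
    ∃ ξ : ℂ → ℂ, AnalyticAt ℂ ξ 0 ∧ ξ 0 = x₁ ∧ deriv ξ 0 ≠ 0 ∧ (∀ᶠ W in 𝓝 (0 : ℂ), F (ξ W) = W) ∧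
      ∀ᶠ x in 𝓝 x₁, ξ (F x) = x := by
  refine ⟨hF.hasStrictDerivAt.localInverse _ _ _ hd, ?_, ?_, ?_, ?_, ?_⟩
  · have := hF.analyticAt_localInverse hd
    rwa [h0] at this
  · have : hF.hasStrictDerivAt.localInverse _ _ _ hd (F x₁) = x₁ :=
      HasStrictFDerivAt.localInverse_apply_image ..
    rwa [h0] at this
  · have h2 := (HasStrictDerivAt.to_localInverse hF.hasStrictDerivAt hd).hasDerivAt
    rw [h0] at h2
    rw [h2.deriv]
    exact inv_ne_zero hd
  · have := HasStrictDerivAt.eventually_right_inverse (hf := hF.hasStrictDerivAt) (hf' := hd)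
    rwa [h0] at this
  · exact HasStrictDerivAt.eventually_left_inverse (hf := hF.hasStrictDerivAt) (hf' := hd)

lemma h22_im (ε ρ ρ' : ℝ) {v : ℂ} (hv : v ≠ ρ') :
    ((ε : ℂ) * ((v - ρ) / (v - ρ'))).im = ε * (ρ - ρ') * v.im / Complex.normSq (v - ρ') := by
  have h1 : v - (ρ' : ℂ) ≠ 0 := sub_ne_zero.2 hv
  have h2 : Complex.normSq (v - ρ') ≠ 0 := by
    rwa [Ne, Complex.normSq_eq_zero]
  rw [Complex.im_ofReal_mul, Complex.div_im]
  simp only [Complex.sub_re, Complex.sub_im, Complex.ofReal_re, Complex.ofReal_im, sub_zero]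
  field_simp
  ring

/-- `dslope` of an analytic function -/
lemma h22_dslope {f : ℂ → ℂ} (hf : AnalyticAt ℂ f 0) : AnalyticAt ℂ (dslope f 0) 0 := by
  obtain ⟨p, hp⟩ := hf
  exact hp.has_fpower_series_dslope_fslope.analyticAt

/-- H22. PROOF. Let `ε i` be the sign of `ρ i - ρ' i` and `W_i(x) = ε i (R i x - ρ i)/(R i x - ρ' i)`, analytic near `x₁`, `W_i(x₁) = 0`, `deriv W_i x₁ ≠ 0`. Fix `i₀`; let `ξ` be the local inverse of
`W_{i₀}` (inverse function theorem; analytic, on a small disc `|W| < r`). For real `v` near `ρ i` the coordinate is real and conversely; `Im W_i > 0` iff `Im R i > 0` (`hv_im`-type formula: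
`Im ((v - ρ)/(v - ρ')) = (ρ - ρ') Im v/|v - ρ'|²`). `f_i(W) = W_i(ξ W)` is analytic with a simple zero at `0`: `f_i(W) = W Ψ_i(W)`, `Ψ_i` analytic and nonvanishing (shrink `r`) (`dslope`). By `harc` `f_i` is real on reals,
so `Ψ_i` is real on reals (at `0` by continuity); `Ψ_i(0) > 0` because by `hside` `Im f_i(W) > 0` for `Im W > 0` (`W = i y`, `y → 0`: `Re Ψ_i(i y) > 0`). -/
theorem hyp_coords {S : Type} [Finite S] [Nonempty S] (R : S → ℂ → ℂ) (x₁ : ℂ) (hR : ∀ i, AnalyticAt ℂ (R i) x₁)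
    (hder : ∀ i, deriv (R i) x₁ ≠ 0) (ρ ρ' : S → ℝ) (hne : ∀ i, ρ i ≠ ρ' i) (hval : ∀ i, R i x₁ = ρ i)
    (harc : ∀ i j, SameArc (R i) (R j) x₁) (hside : ∀ i j, ∀ᶠ x in 𝓝 x₁, 0 < (R i x).im → 0 < (R j x).im) :
    ∃ (r : ℝ) (ξ : ℂ → ℂ) (Ψ : S → ℂ → ℂ) (ε : S → ℝ), 0 < r ∧ (∀ i, (ε i = 1 ∨ ε i = -1) ∧ 0 < ε i * (ρ i - ρ' i)) ∧
      AnalyticOnNhd ℂ ξ (Metric.ball 0 r) ∧ ξ 0 = x₁ ∧ (∀ᶠ x in 𝓝 x₁, ∃ W ∈ Metric.ball (0 : ℂ) r, ξ W = x) ∧
      (∀ U ∈ 𝓝 (0 : ℂ), ∀ᶠ x in 𝓝 x₁, ∃ W ∈ U, ξ W = x) ∧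
      (∀ i, AnalyticOnNhd ℂ (Ψ i) (Metric.ball 0 r)) ∧ (∀ i, ∀ W ∈ Metric.ball (0 : ℂ) r, Ψ i W ≠ 0) ∧
      (∀ i, ∀ u : ℝ, |u| < r → (Ψ i u).im = 0) ∧ (∀ i, 0 < (Ψ i 0).re) ∧
      (∀ i, ∀ W ∈ Metric.ball (0 : ℂ) r, R i (ξ W) ≠ ρ' i ∧ (R i (ξ W) - ρ i) / (R i (ξ W) - ρ' i) = ε i * W * Ψ i W) ∧
      (∀ i, ∀ W ∈ Metric.ball (0 : ℂ) r, 0 < W.im → 0 < (R i (ξ W)).im) := by
  classical
  obtain ⟨i₀⟩ := ‹Nonempty S›
  -- signs
  set ε : S → ℝ := fun i => if 0 < ρ i - ρ' i then 1 else -1 with hε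
  have hε1 : ∀ i, ε i = 1 ∨ ε i = -1 := by
    intro i
    simp only [hε]
    split_ifs <;> simp
  have hε2 : ∀ i, 0 < ε i * (ρ i - ρ' i) := by
    intro i
    simp only [hε]
    split_ifs with h
    · simpa using h
    · have : ρ i - ρ' i ≠ 0 := sub_ne_zero.2 (hne i)
      have h2 : ρ i - ρ' i < 0 := lt_of_le_of_ne (not_lt.1 h) this
      linarith
  have hε0 : ∀ i, (ε i : ℂ) ≠ 0 := by
    intro i
    rcases hε1 i with h | h <;> simp [h]
  have hεsq : ∀ i, (ε i : ℂ) * ε i = 1 := by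
    intro i
    rcases hε1 i with h | h <;> simp [h]
  -- the coordinate functions
  set F : S → ℂ → ℂ := fun i x => (ε i : ℂ) * ((R i x - ρ i) / (R i x - ρ' i)) with hF
  have hden : ∀ i, R i x₁ - ρ' i ≠ 0 := by
    intro i
    rw [hval i, sub_ne_zero]
    exact_mod_cast hne i
  have hFa : ∀ i, AnalyticAt ℂ (F i) x₁ := by
    intro i
    exact analyticAt_const.mul (((hR i).sub analyticAt_const).div ((hR i).sub analyticAt_const)
      (hden i))
  have hF0 : ∀ i, F i x₁ = 0 := by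
    intro i
    simp [hF, hval i]
  have hFd : ∀ i, HasDerivAt (F i) ((ε i : ℂ) * (deriv (R i) x₁ / (ρ i - ρ' i))) x₁ := by
    intro i
    have h1 := (hR i).differentiableAt.hasDerivAt
    have h2 := ((h1.sub_const (ρ i : ℂ)).div (h1.sub_const (ρ' i : ℂ)) (hden i)).const_mul (ε i : ℂ)
    refine HasDerivAt.congr_deriv h2 ?_
    rw [hval i]
    have h3 : (ρ i : ℂ) - ρ' i ≠ 0 := by
      rw [sub_ne_zero]
      exact_mod_cast hne i
    field_simp
    ring
  have hFd0 : ∀ i, (ε i : ℂ) * (deriv (R i) x₁ / (ρ i - ρ' i)) ≠ 0 := by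
    intro i
    have h3 : (ρ i : ℂ) - ρ' i ≠ 0 := by
      rw [sub_ne_zero]
      exact_mod_cast hne i
    exact mul_ne_zero (hε0 i) (div_ne_zero (hder i) h3)
  obtain ⟨ξ, hξa, hξ0, hξd, hξr, hξl⟩ := h22_inv (hFa i₀) (hF0 i₀)
    (by rw [(hFd i₀).deriv]; exact hFd0 i₀)
  have hξc : Tendsto ξ (𝓝 0) (𝓝 x₁) := by
    have := hξa.continuousAt.tendsto
    rwa [hξ0] at this
  have hFc : Tendsto (F i₀) (𝓝 x₁) (𝓝 0) := by
    have := (hFa i₀).continuousAt.tendsto
    rwa [hF0] at this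
  -- the functions `f i`
  set f : S → ℂ → ℂ := fun i W => F i (ξ W) with hf
  have hfa : ∀ i, AnalyticAt ℂ (f i) 0 := by
    intro i
    have h1 := hFa i
    rw [← hξ0] at h1
    exact h1.comp hξa
  have hf0 : ∀ i, f i 0 = 0 := by
    intro i
    simp only [hf]
    rw [hξ0, hF0]
  have hfd : ∀ i, deriv (f i) 0 ≠ 0 := by
    intro i
    have h1 := hFd i
    rw [← hξ0] at h1
    have h2 := h1.comp (0 : ℂ) hξa.differentiableAt.hasDerivAt
    have h3 : deriv (f i) 0 = _ := h2.deriv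
    rw [h3]
    refine mul_ne_zero ?_ hξd
    rw [hξ0]
    exact hFd0 i
  set Ψ : S → ℂ → ℂ := fun i => dslope (f i) 0 with hΨ
  have hΨa : ∀ i, AnalyticAt ℂ (Ψ i) 0 := fun i => h22_dslope (hfa i)
  have hΨ0 : ∀ i, Ψ i 0 ≠ 0 := by
    intro i
    simp only [hΨ, dslope_same]
    exact hfd i
  have hfΨ : ∀ i W, f i W = W * Ψ i W := by
    intro i W
    have := sub_smul_dslope (f i) 0 W
    rw [hf0, sub_zero, sub_zero, smul_eq_mul] at this
    exact this.symm
  -- eventual facts
  have e1 : ∀ᶠ W in 𝓝 (0 : ℂ), AnalyticAt ℂ ξ W := hξa.eventually_analyticAt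
  have e2' : ∀ᶠ W in 𝓝 (0 : ℂ), ∀ i, AnalyticAt ℂ (Ψ i) W :=
    eventually_all.2 fun i => (hΨa i).eventually_analyticAt
  have e3 : ∀ᶠ W in 𝓝 (0 : ℂ), ∀ i, Ψ i W ≠ 0 :=
    eventually_all.2 fun i => (hΨa i).continuousAt.eventually_ne (hΨ0 i)
  have e4' : ∀ᶠ W in 𝓝 (0 : ℂ), ∀ i, R i (ξ W) ≠ ρ' i := by
    refine eventually_all.2 fun i => ?_
    have h1 : Tendsto (fun W => R i (ξ W)) (𝓝 0) (𝓝 (R i x₁)) :=
      (hR i).continuousAt.tendsto.comp hξc
    refine h1.eventually_ne ?_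
    exact sub_ne_zero.1 (hden i)
  have e5 : ∀ᶠ W in 𝓝 (0 : ℂ), ∀ i, (R i₀ (ξ W)).im = 0 → (R i (ξ W)).im = 0 :=
    eventually_all.2 fun i => hξc.eventually (harc i₀ i)
  have e6' : ∀ᶠ W in 𝓝 (0 : ℂ), ∀ i, 0 < (R i₀ (ξ W)).im → 0 < (R i (ξ W)).im :=
    eventually_all.2 fun i => hξc.eventually (hside i₀ i)
  obtain ⟨r, hr, hball⟩ := Metric.eventually_nhds_iff_ball.1
    ((((((e1.and e2').and e3).and e4').and e5).and e6').and hξr)
  have himF : ∀ i, ∀ W ∈ Metric.ball (0 : ℂ) r, (f i W).im =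
      ε i * (ρ i - ρ' i) * (R i (ξ W)).im / Complex.normSq (R i (ξ W) - ρ' i) := by
    intro i W hW
    exact h22_im _ _ _ ((hball W hW).1.1.1.2 i)
  have hns : ∀ i, ∀ W ∈ Metric.ball (0 : ℂ) r, 0 < Complex.normSq (R i (ξ W) - ρ' i) := by
    intro i W hW
    rw [Complex.normSq_pos, sub_ne_zero]
    exact (hball W hW).1.1.1.2 i
  have hR0im : ∀ W ∈ Metric.ball (0 : ℂ) r, W.im = 0 → (R i₀ (ξ W)).im = 0 := by
    intro W hW h
    have h1 := himF i₀ W hW
    have h2 : f i₀ W = W := (hball W hW).2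
    rw [h2, h] at h1
    have h3 := hns i₀ W hW
    have h4 := hε2 i₀
    rcases (div_eq_zero_iff.1 h1.symm) with h5 | h5
    · rcases mul_eq_zero.1 h5 with h6 | h6
      · exact absurd h6 h4.ne'
      · exact h6
    · exact absurd h5 h3.ne'
  have hR0pos : ∀ W ∈ Metric.ball (0 : ℂ) r, 0 < W.im → 0 < (R i₀ (ξ W)).im := by
    intro W hW h
    have h1 := himF i₀ W hW
    have h2 : f i₀ W = W := (hball W hW).2
    rw [h2] at h1
    rw [h1] at h
    have h3 := hns i₀ W hW
    have h4 := hε2 i₀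
    have h5 := (div_pos_iff_of_pos_right h3).1 h
    exact (mul_pos_iff_of_pos_left h4).1 h5
  have hRpos : ∀ i, ∀ W ∈ Metric.ball (0 : ℂ) r, 0 < W.im → 0 < (R i (ξ W)).im :=
    fun i W hW h => (hball W hW).1.2 i (hR0pos W hW h)
  have hfpos : ∀ i, ∀ W ∈ Metric.ball (0 : ℂ) r, 0 < W.im → 0 < (f i W).im := by
    intro i W hW h
    rw [himF i W hW]
    exact div_pos (mul_pos (hε2 i) (hRpos i W hW h)) (hns i W hW)
  have hfreal : ∀ i, ∀ W ∈ Metric.ball (0 : ℂ) r, W.im = 0 → (f i W).im = 0 := by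
    intro i W hW h
    rw [himF i W hW, (hball W hW).1.1.2 i (hR0im W hW h), mul_zero, zero_div]
  -- `Ψ` is real on the reals, off zero
  have hΨreal' : ∀ i, ∀ u : ℝ, |u| < r → u ≠ 0 → (Ψ i u).im = 0 := by
    intro i u hu hu0
    have hmem : (u : ℂ) ∈ Metric.ball (0 : ℂ) r := by
      simpa using hu
    have h1 := hfreal i u hmem (Complex.ofReal_im u)
    rw [hfΨ, Complex.im_ofReal_mul] at h1
    exact (mul_eq_zero.1 h1).resolve_left hu0
  have hlim : ∀ i, Tendsto (fun u : ℝ => (Ψ i u).im) (𝓝[≠] 0) (𝓝 (Ψ i 0).im) := by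
    intro i
    have h1 : Tendsto (fun u : ℝ => Ψ i (u : ℂ)) (𝓝 0) (𝓝 (Ψ i 0)) := by
      have h2 : Tendsto (fun u : ℝ => (u : ℂ)) (𝓝 0) (𝓝 0) := by
        have := Complex.continuous_ofReal.tendsto (0 : ℝ)
        simpa using this
      exact (hΨa i).continuousAt.tendsto.comp h2
    exact (Complex.continuous_im.tendsto _).comp (h1.mono_left nhdsWithin_le_nhds)
  have hΨ0im : ∀ i, (Ψ i 0).im = 0 := by
    intro i
    refine tendsto_nhds_unique (hlim i) (tendsto_const_nhds.congr' ?_)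
    have h1 : ∀ᶠ u : ℝ in 𝓝[≠] 0, |u| < r := by
      refine nhdsWithin_le_nhds ?_
      have := Metric.ball_mem_nhds (0 : ℝ) hr
      filter_upwards [this] with u hu
      simpa using hu
    filter_upwards [h1, self_mem_nhdsWithin] with u hu hu0
    exact (hΨreal' i u hu hu0).symm
  have hΨ0re : ∀ i, 0 < (Ψ i 0).re := by
    intro i
    have h1 : 0 ≤ (Ψ i 0).re := by
      have h2 : Tendsto (fun y : ℝ => (Ψ i ((y : ℂ) * I)).re) (𝓝[>] 0) (𝓝 (Ψ i 0).re) := by
        have h3 : Tendsto (fun y : ℝ => (y : ℂ) * I) (𝓝[>] 0) (𝓝 0) := by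
          have h4 : Continuous (fun y : ℝ => (y : ℂ) * I) := by fun_prop
          have := h4.tendsto (0 : ℝ)
          simp only [Complex.ofReal_zero, zero_mul] at this
          exact this.mono_left nhdsWithin_le_nhds
        exact (Complex.continuous_re.tendsto _).comp ((hΨa i).continuousAt.tendsto.comp h3)
      refine ge_of_tendsto h2 ?_
      have h5 : ∀ᶠ y : ℝ in 𝓝[>] 0, y < r := by
        refine nhdsWithin_le_nhds ?_
        exact eventually_lt_nhds hr
      filter_upwards [h5, self_mem_nhdsWithin] with y hy hy0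
      have hy0' : 0 < y := hy0
      have hmem : (y : ℂ) * I ∈ Metric.ball (0 : ℂ) r := by
        simp [abs_of_pos hy0', hy]
      have h6 := hfpos i _ hmem (by simpa using hy0')
      rw [hfΨ, mul_assoc, Complex.im_ofReal_mul] at h6
      have h7 : 0 < (I * Ψ i ((y : ℂ) * I)).im := (mul_pos_iff_of_pos_left hy0').1 h6
      rw [Complex.I_mul_im] at h7
      exact h7.le
    refine lt_of_le_of_ne h1 fun h => hΨ0 i ?_
    exact Complex.ext h.symm (hΨ0im i)
  have hnear : ∀ U ∈ 𝓝 (0 : ℂ), ∀ᶠ x in 𝓝 x₁, ∃ W ∈ U, ξ W = x := by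
    intro U hU
    filter_upwards [hξl, hFc.eventually hU] with x h1 h2
    exact ⟨F i₀ x, h2, h1⟩
  refine ⟨r, ξ, Ψ, ε, hr, fun i => ⟨hε1 i, hε2 i⟩, fun W hW => (hball W hW).1.1.1.1.1.1, hξ0,
    hnear _ (Metric.ball_mem_nhds _ hr), hnear, fun i W hW => (hball W hW).1.1.1.1.1.2 i,
    fun i W hW => (hball W hW).1.1.1.1.2 i, ?_, hΨ0re, ?_, hRpos⟩
  · intro i u hu
    by_cases hu0 : u = 0
    · rw [hu0, Complex.ofReal_zero]
      exact hΨ0im i
    · exact hΨreal' i u hu hu0
  · intro i W hW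
    refine ⟨(hball W hW).1.1.1.2 i, ?_⟩
    have h1 := hfΨ i W
    have h2 : f i W = (ε i : ℂ) * ((R i (ξ W) - ρ i) / (R i (ξ W) - ρ' i)) := rfl
    rw [mul_assoc, ← h1, h2, ← mul_assoc, hεsq, one_mul]

end Pool.Agent.MSD
end

end

section

/-! # H02: evaluation of rational functions (MP_f58a57_nt) -/

open Complex ModularForm EisensteinSeries Filter
open UpperHalfPlane hiding I
open scoped Topology MatrixGroups Polynomial

noncomputable section

namespace Pool.Agent.MSD

theorem h02_inj (d : ℕ) : Function.Injective (algebraMap (KF d) ℂ) := (algebraMap (KF d) ℂ).injective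

theorem h02_poly_finite {d : ℕ} (P : Polynomial (KF d)) (hP : P ≠ 0) :
    {x : ℂ | P.eval₂ (algebraMap (KF d) ℂ) x = 0}.Finite := by
  have h : (P.map (algebraMap (KF d) ℂ)) ≠ 0 := by
    rwa [Ne, Polynomial.map_eq_zero]
  refine (Polynomial.finite_setOfPred_isRoot h).subset ?_
  intro x hx
  simp only [Set.mem_ofPred_eq] at hx ⊢
  rw [Polynomial.IsRoot.def, Polynomial.eval_map]
  exact hx

theorem h02_poly_diff {d : ℕ} (P : Polynomial (KF d)) :
    Differentiable ℂ (fun x : ℂ => P.eval₂ (algebraMap (KF d) ℂ) x) := by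
  have h : (fun x : ℂ => P.eval₂ (algebraMap (KF d) ℂ) x)
      = fun x : ℂ => (P.map (algebraMap (KF d) ℂ)).eval x := by
    funext x
    rw [Polynomial.eval_map]
  rw [h]
  exact Polynomial.differentiable _

theorem h02_evr_def {d : ℕ} (R : RatFunc (KF d)) (x : ℂ) :
    evr R x = R.num.eval₂ (algebraMap (KF d) ℂ) x / dn R x := rfl

theorem h02_dn_def {d : ℕ} (R : RatFunc (KF d)) (x : ℂ) :
    dn R x = R.denom.eval₂ (algebraMap (KF d) ℂ) x := rfl

/-- H02a. finitely many poles -/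
theorem dn_finite {d : ℕ} (R : RatFunc (KF d)) : {x : ℂ | dn R x = 0}.Finite :=
  h02_poly_finite R.denom R.denom_ne_zero

/-- H02b. `evr R` is analytic off the poles, and the set of non-poles is open (as the complement of a finite set). -/
theorem evr_analytic {d : ℕ} (R : RatFunc (KF d)) (x : ℂ) (hx : dn R x ≠ 0) : AnalyticAt ℂ (evr R) x := by
  have h : evr R = fun x : ℂ => R.num.eval₂ (algebraMap (KF d) ℂ) x /
      R.denom.eval₂ (algebraMap (KF d) ℂ) x := rfl
  rw [h]
  exact ((h02_poly_diff R.num).analyticAt x).div ((h02_poly_diff R.denom).analyticAt x) hx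

theorem dn_eventually {d : ℕ} (R : RatFunc (KF d)) (x : ℂ) (hx : dn R x ≠ 0) : ∀ᶠ y in 𝓝 x, dn R y ≠ 0 :=
  (h02_poly_diff R.denom).continuous.continuousAt.eventually_ne hx

/-- H02c. Two rational functions with equal values at infinitely many points are equal. (`evr R x = num/denom`; cross-multiply off the poles.) -/
theorem evr_inj {d : ℕ} (R R' : RatFunc (KF d)) (h : {x : ℂ | evr R x = evr R' x}.Infinite) : R = R' := by
  by_contra hne
  have hP : R.num * R'.denom - R'.num * R.denom ≠ 0 := by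
    intro h0
    apply hne
    rw [← RatFunc.num_div_denom R, ← RatFunc.num_div_denom R']
    have h1 : algebraMap (Polynomial (KF d)) (RatFunc (KF d)) R.denom ≠ 0 :=
      RatFunc.algebraMap_ne_zero R.denom_ne_zero
    have h2 : algebraMap (Polynomial (KF d)) (RatFunc (KF d)) R'.denom ≠ 0 :=
      RatFunc.algebraMap_ne_zero R'.denom_ne_zero
    rw [div_eq_div_iff h1 h2, ← map_mul, ← map_mul]
    congr 1
    linear_combination h0
  refine h (((h02_poly_finite _ hP).union ((dn_finite R).union (dn_finite R'))).subset ?_)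
  intro x hx
  by_cases h1 : dn R x = 0
  · exact Or.inr (Or.inl h1)
  by_cases h2 : dn R' x = 0
  · exact Or.inr (Or.inr h2)
  left
  simp only [Set.mem_ofPred_eq] at hx ⊢
  rw [h02_evr_def, h02_evr_def, div_eq_div_iff h1 h2] at hx
  rw [Polynomial.eval₂_sub, Polynomial.eval₂_mul, Polynomial.eval₂_mul, ← h02_dn_def,
    ← h02_dn_def, hx, sub_self]

/-- H02d. A nonconstant rational function takes every complex value finitely often. (For `w ∉ KF d` use the polynomial `num - w denom` over `ℂ`,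
which is nonzero because `num`, `denom` are not proportional.) Also: `R` is constant if `evr R` is constant on an infinite set. -/
theorem evr_fiber_finite {d : ℕ} (R : RatFunc (KF d)) (hR : ¬ ∃ c, R = RatFunc.C c) (w : ℂ) : {x : ℂ | dn R x ≠ 0 ∧ evr R x = w}.Finite := by
  set φ := algebraMap (KF d) ℂ with hφ
  have hQ : R.num.map φ - Polynomial.C w * R.denom.map φ ≠ 0 := by
    intro h0
    apply hR
    have h1 : R.num.map φ = Polynomial.C w * R.denom.map φ := sub_eq_zero.mp h0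
    have hw : w = φ (R.num.coeff R.denom.natDegree) := by
      have h2 := congrArg (fun P : Polynomial ℂ => P.coeff R.denom.natDegree) h1
      simp only [Polynomial.coeff_map, Polynomial.coeff_C_mul] at h2
      have h3 : R.denom.coeff R.denom.natDegree = 1 := (RatFunc.monic_denom R).coeff_natDegree
      rw [h3, map_one, mul_one] at h2
      exact h2.symm
    refine ⟨R.num.coeff R.denom.natDegree, ?_⟩
    have h4 : R.num = Polynomial.C (R.num.coeff R.denom.natDegree) * R.denom := by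
      apply Polynomial.map_injective φ (h02_inj d)
      rw [Polynomial.map_mul, Polynomial.map_C, ← hw]
      exact h1
    have hd : algebraMap (Polynomial (KF d)) (RatFunc (KF d)) R.denom ≠ 0 :=
      RatFunc.algebraMap_ne_zero R.denom_ne_zero
    have h5 : R = algebraMap (Polynomial (KF d)) (RatFunc (KF d)) R.num /
        algebraMap (Polynomial (KF d)) (RatFunc (KF d)) R.denom := (RatFunc.num_div_denom R).symm
    have h6 : algebraMap (Polynomial (KF d)) (RatFunc (KF d)) R.num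
        = RatFunc.C (R.num.coeff R.denom.natDegree) *
          algebraMap (Polynomial (KF d)) (RatFunc (KF d)) R.denom := by
      conv_lhs => rw [h4]
      rw [map_mul, RatFunc.algebraMap_C]
    rw [eq_div_iff hd] at h5
    rw [← h5] at h6
    exact mul_right_cancel₀ hd h6
  refine (Polynomial.finite_setOfPred_isRoot hQ).subset ?_
  rintro x ⟨hx, hxw⟩
  simp only [Set.mem_ofPred_eq]
  rw [h02_evr_def, div_eq_iff hx] at hxw
  rw [Polynomial.IsRoot.def, Polynomial.eval_sub, Polynomial.eval_mul, Polynomial.eval_C,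
    Polynomial.eval_map, Polynomial.eval_map, hφ, hxw, ← h02_dn_def, sub_self]

theorem h02_dn_of_dvd {d : ℕ} {P Q : Polynomial (KF d)} {x : ℂ} (h : P ∣ Q)
    (hQ : Q.eval₂ (algebraMap (KF d) ℂ) x ≠ 0) : P.eval₂ (algebraMap (KF d) ℂ) x ≠ 0 := by
  intro h0
  exact hQ (Polynomial.eval₂_eq_zero_of_dvd_of_eval₂_eq_zero _ _ h h0)

/-- H02h. Sums and products. -/
theorem evr_add {d : ℕ} (R R' : RatFunc (KF d)) (x : ℂ) (hx : dn R x ≠ 0) (hx' : dn R' x ≠ 0) :
    dn (R + R') x ≠ 0 ∧ evr (R + R') x = evr R x + evr R' x := by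
  refine ⟨h02_dn_of_dvd (RatFunc.denom_add_dvd R R') ?_, RatFunc.eval_add _ _ hx hx'⟩
  rw [Polynomial.eval₂_mul]
  exact mul_ne_zero hx hx'

theorem evr_mul {d : ℕ} (R R' : RatFunc (KF d)) (x : ℂ) (hx : dn R x ≠ 0) (hx' : dn R' x ≠ 0) :
    dn (R * R') x ≠ 0 ∧ evr (R * R') x = evr R x * evr R' x := by
  refine ⟨h02_dn_of_dvd (RatFunc.denom_mul_dvd R R') ?_, RatFunc.eval_mul _ _ hx hx'⟩
  rw [Polynomial.eval₂_mul]
  exact mul_ne_zero hx hx'

theorem h02_C {d : ℕ} (a : KF d) (x : ℂ) :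
    dn (RatFunc.C a) x ≠ 0 ∧ evr (RatFunc.C a) x = algebraMap (KF d) ℂ a := by
  refine ⟨?_, RatFunc.eval_C _ _⟩
  unfold dn
  rw [RatFunc.denom_C, Polynomial.eval₂_one]
  exact one_ne_zero

/-- H02e. Evaluation of `aeval g p`, one variable. (Induction on `p`, `RatFunc.eval_add`, `RatFunc.eval_mul`, `RatFunc.denom_add_dvd`,
`RatFunc.denom_mul_dvd` for the denominators.) -/
theorem evr_aeval {d : ℕ} (g : RatFunc (KF d)) (p : Polynomial (KF d)) (x : ℂ) (hx : dn g x ≠ 0) :
    dn (Polynomial.aeval g p) x ≠ 0 ∧ evr (Polynomial.aeval g p) x = Polynomial.aeval (evr g x) p := by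
  induction p using Polynomial.induction_on with
  | C a =>
    rw [Polynomial.aeval_C, Polynomial.aeval_C, RatFunc.algebraMap_eq_C]
    exact h02_C a x
  | add p q hp hq =>
    rw [map_add, map_add]
    obtain ⟨h1, h2⟩ := evr_add _ _ x hp.1 hq.1
    exact ⟨h1, by rw [h2, hp.2, hq.2]⟩
  | monomial n a ih =>
    have h : (Polynomial.C a * Polynomial.X ^ (n + 1) : Polynomial (KF d))
        = Polynomial.C a * Polynomial.X ^ n * Polynomial.X := by rw [pow_succ, mul_assoc]
    have e1 : Polynomial.aeval g (Polynomial.C a * Polynomial.X ^ n * Polynomial.X)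
        = Polynomial.aeval g (Polynomial.C a * Polynomial.X ^ n) * g := by
      rw [map_mul (Polynomial.aeval g) (Polynomial.C a * Polynomial.X ^ n), Polynomial.aeval_X]
    have e2 : Polynomial.aeval (evr g x) (Polynomial.C a * Polynomial.X ^ n * Polynomial.X)
        = Polynomial.aeval (evr g x) (Polynomial.C a * Polynomial.X ^ n) * evr g x := by
      rw [map_mul (Polynomial.aeval (evr g x)) (Polynomial.C a * Polynomial.X ^ n),
        Polynomial.aeval_X]
    rw [h, e1, e2]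
    obtain ⟨h1, h2⟩ := evr_mul _ _ x ih.1 hx
    exact ⟨h1, by rw [h2, ih.2]⟩

/-- H02f. Evaluation of `aeval R p`, several variables. -/
theorem evr_mvaeval {d : ℕ} {S : Type} (R : S → RatFunc (KF d)) (p : MvPolynomial S (KF d)) (x : ℂ) (hx : ∀ i, dn (R i) x ≠ 0) :
    dn (MvPolynomial.aeval R p) x ≠ 0 ∧ evr (MvPolynomial.aeval R p) x = MvPolynomial.aeval (fun i => evr (R i) x) p := by
  induction p using MvPolynomial.induction_on with
  | C a =>
    rw [MvPolynomial.aeval_C, MvPolynomial.aeval_C, RatFunc.algebraMap_eq_C]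
    exact h02_C a x
  | add p q hp hq =>
    rw [map_add, map_add]
    obtain ⟨h1, h2⟩ := evr_add _ _ x hp.1 hq.1
    exact ⟨h1, by rw [h2, hp.2, hq.2]⟩
  | mul_X p i ih =>
    rw [map_mul, map_mul, MvPolynomial.aeval_X, MvPolynomial.aeval_X]
    obtain ⟨h1, h2⟩ := evr_mul _ _ x ih.1 (hx i)
    exact ⟨h1, by rw [h2, ih.2]⟩

/-- H02g. Quotients. -/
theorem evr_div {d : ℕ} (R R' : RatFunc (KF d)) (x : ℂ) (hx : dn R x ≠ 0) (hx' : dn R' x ≠ 0) (h0 : evr R' x ≠ 0) :
    dn (R / R') x ≠ 0 ∧ evr (R / R') x = evr R x / evr R' x := by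
  have hne : R' ≠ 0 := by
    rintro rfl
    apply h0
    exact RatFunc.eval_zero _ _
  have hnum : R'.num.eval₂ (algebraMap (KF d) ℂ) x ≠ 0 := by
    intro h
    apply h0
    rw [h02_evr_def, h, zero_div]
  have hinv : dn R'⁻¹ x ≠ 0 := h02_dn_of_dvd (RatFunc.denom_inv_dvd hne) hnum
  have hinv2 : evr R'⁻¹ x = (evr R' x)⁻¹ := by
    have h1 := (evr_mul R' R'⁻¹ x hx' hinv).2
    rw [mul_inv_cancel₀ hne] at h1
    have h2 : evr (1 : RatFunc (KF d)) x = 1 := RatFunc.eval_one _ _
    rw [h2] at h1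
    exact eq_inv_of_mul_eq_one_right h1.symm
  have h := evr_mul R R'⁻¹ x hx hinv
  rw [div_eq_mul_inv, div_eq_mul_inv, ← hinv2]
  exact h

end Pool.Agent.MSD
end

end

section

/-! # H12: the conjugation relation has degree one (MP_f58a57_nt) -/

open Complex ModularForm EisensteinSeries Filter
open UpperHalfPlane hiding I
open scoped Topology MatrixGroups Polynomial

noncomputable section

namespace Pool.Agent.MSD

/-- the Wronskian of two coprime polynomials, not both constant, is not zero -/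
theorem h12_wronskian (n m : Polynomial ℂ) (hcop : IsCoprime n m) (h2 : 2 ≤ max n.natDegree m.natDegree) :
    n.derivative * m - n * m.derivative ≠ 0 := by
  intro h0
  have h1 : n.derivative * m = n * m.derivative := sub_eq_zero.1 h0
  have key : ∀ f : Polynomial ℂ, f ∣ f.derivative → f.natDegree = 0 := by
    intro f hf
    by_contra hd
    have h3 : f.derivative ≠ 0 := fun h => hd (Polynomial.derivative_eq_zero.1 h)
    have h4 := Polynomial.natDegree_le_of_dvd hf h3
    have h5 := Polynomial.natDegree_derivative_lt hd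
    omega
  have hn : n.natDegree = 0 := by
    refine key n (hcop.dvd_of_dvd_mul_right ?_)
    exact ⟨m.derivative, h1⟩
  have hm : m.natDegree = 0 := by
    refine key m (hcop.symm.dvd_of_dvd_mul_left ?_)
    exact ⟨n.derivative, by rw [← h1, mul_comm]⟩
  rw [hn, hm] at h2
  simp at h2

/-- homogenised composition -/
def h12_hom (k : ℕ) (P A B : Polynomial ℂ) : Polynomial ℂ :=
  ∑ i ∈ Finset.range (k + 1), Polynomial.C (P.coeff i) * A ^ i * B ^ (k - i)

theorem h12_hom_eval (k : ℕ) (P A B : Polynomial ℂ) (hP : P.natDegree ≤ k) (s : ℂ)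
    (hs : B.eval s ≠ 0) :
    (h12_hom k P A B).eval s = B.eval s ^ k * P.eval (A.eval s / B.eval s) := by
  rw [h12_hom, Polynomial.eval_finsetSum, Polynomial.eval_eq_sum_range' (Nat.lt_succ_of_le hP),
    Finset.mul_sum]
  refine Finset.sum_congr rfl fun i hi => ?_
  have hik : i ≤ k := Nat.lt_succ_iff.1 (Finset.mem_range.1 hi)
  rw [Polynomial.eval_mul, Polynomial.eval_mul, Polynomial.eval_pow, Polynomial.eval_pow,
    Polynomial.eval_C, div_pow]
  have h1 : B.eval s ^ k = B.eval s ^ (k - i) * B.eval s ^ i := by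
    rw [← pow_add, Nat.sub_add_cancel hik]
  rw [h1]
  field_simp

/-- H12a. A rational function `μ = n/m` of degree `≥ 2` is not injective off a finite set: for all but finitely many `y` the equation `n - y m = 0` has two different
roots. PROOF. `W = n' m - n m'` is not the zero polynomial (otherwise `n/m` is constant, impossible for coprime `n, m` unless both are constants). A double root `s` of
`n - y m` has `W(s) = 0`, so `y` is one of finitely many values `n(s)/m(s)`; and `deg (n - y m) = max (deg n, deg m) ≥ 2` except for one `y`.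
Work over `ℂ` (map the polynomials), roots of a separable polynomial of degree `≥ 2` over `ℂ`. -/
theorem not_injective (n m : Polynomial ℂ) (hcop : IsCoprime n m) (h2 : 2 ≤ max n.natDegree m.natDegree) (F : Set ℂ) (hF : F.Finite) :
    ∃ y ∉ F, ∃ s s' : ℂ, s ≠ s' ∧ m.eval s ≠ 0 ∧ m.eval s' ≠ 0 ∧ n.eval s = y * m.eval s ∧ n.eval s' = y * m.eval s' := by
  obtain ⟨k, hk⟩ : ∃ k, k = max n.natDegree m.natDegree := ⟨_, rfl⟩
  rw [← hk] at h2
  have hW := h12_wronskian n m hcop (by rw [← hk]; exact h2)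
  -- the bad values
  have hfin1 : ((fun s => n.eval s / m.eval s) '' {s | (n.derivative * m - n * m.derivative).IsRoot s}).Finite :=
    Set.Finite.image _ ((Polynomial.finite_setOfPred_isRoot hW))
  have hfin2 : {y : ℂ | n.coeff k = y * m.coeff k}.Finite := by
    by_cases h0 : m.coeff k = 0
    · have h1 : n.coeff k ≠ 0 := by
        rcases max_choice n.natDegree m.natDegree with h | h
        · rw [hk, h]
          refine Polynomial.leadingCoeff_ne_zero.2 ?_
          rintro rfl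
          rw [hk, h] at h2
          simp at h2
        · exfalso
          rw [hk, h] at h0
          have : m = 0 := Polynomial.leadingCoeff_eq_zero.1 h0
          rw [hk, h, this] at h2
          simp at h2
      refine Set.Finite.subset Set.finite_empty fun y hy => ?_
      rw [Set.mem_ofPred_eq, h0, mul_zero] at hy
      exact h1 hy
    · refine Set.Finite.subset (Set.finite_singleton (n.coeff k / m.coeff k)) fun y hy => ?_
      rw [Set.mem_singleton_iff, eq_div_iff h0]
      exact hy.symm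
  obtain ⟨y, hy⟩ := ((hF.union (hfin1.union hfin2)).infinite_compl).nonempty
  rw [Set.mem_compl_iff, Set.mem_union, Set.mem_union, not_or, not_or] at hy
  obtain ⟨hy1, hy2, hy3⟩ := hy
  obtain ⟨P, hP⟩ : ∃ P, P = n - Polynomial.C y * m := ⟨_, rfl⟩
  have hPk : P.coeff k ≠ 0 := by
    rw [hP, Polynomial.coeff_sub, Polynomial.coeff_C_mul]
    exact sub_ne_zero.2 hy3
  have hP0 : P ≠ 0 := by
    rintro rfl
    exact hPk (Polynomial.coeff_zero k)
  have hPd : 2 ≤ P.natDegree := h2.trans (Polynomial.le_natDegree_of_ne_zero hPk)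
  have hroot : ∀ s, P.IsRoot s → n.eval s = y * m.eval s := by
    intro s hs
    rw [hP, Polynomial.IsRoot.def, Polynomial.eval_sub, Polynomial.eval_mul, Polynomial.eval_C] at hs
    exact sub_eq_zero.1 hs
  have hms : ∀ s, P.IsRoot s → m.eval s ≠ 0 := by
    intro s hs hm0
    have hn0 : n.eval s = 0 := by rw [hroot s hs, hm0, mul_zero]
    obtain ⟨a, b, hab⟩ := hcop
    have := congrArg (Polynomial.eval s) hab
    rw [Polynomial.eval_add, Polynomial.eval_mul, Polynomial.eval_mul, hm0, hn0, mul_zero, mul_zero,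
      add_zero, Polynomial.eval_one] at this
    exact zero_ne_one this
  have hnodup : P.roots.Nodup := by
    rw [Multiset.nodup_iff_count_le_one]
    intro s
    rw [Polynomial.count_roots]
    by_contra hcon
    have h3 := (Polynomial.one_lt_rootMultiplicity_iff_isRoot hP0).1 (not_le.1 hcon)
    obtain ⟨h4, h5⟩ := h3
    rw [hP, Polynomial.IsRoot.def, Polynomial.derivative_sub, Polynomial.derivative_C_mul,
      Polynomial.eval_sub, Polynomial.eval_mul, Polynomial.eval_C] at h5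
    refine hy2 ⟨s, ?_, ?_⟩
    · rw [Set.mem_ofPred_eq, Polynomial.IsRoot.def, Polynomial.eval_sub, Polynomial.eval_mul,
        Polynomial.eval_mul, hroot s h4]
      have h6 : n.derivative.eval s = y * m.derivative.eval s := sub_eq_zero.1 h5
      rw [h6]
      ring
    · show n.eval s / m.eval s = y
      rw [hroot s h4, mul_div_assoc, div_self (hms s h4), mul_one]
  have hcard : Multiset.card P.roots = P.natDegree :=
    Polynomial.splits_iff_card_roots.1 (IsAlgClosed.splits P)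
  have hcard2 : 1 < P.roots.toFinset.card := by
    rw [Multiset.toFinset_card_of_nodup hnodup, hcard]
    omega
  obtain ⟨s, hs, s', hs', hne⟩ := Finset.one_lt_card.1 hcard2
  rw [Multiset.mem_toFinset, Polynomial.mem_roots hP0] at hs hs'
  exact ⟨y, hy1, s, s', hne, hms s hs, hms s' hs', hroot s hs, hroot s' hs'⟩

/-- H12b. PROOF. For `s ∈ T`: `conj s = μ(s)`, `μ = n/m`; conjugating, `s = μ̄(conj s) = μ̄(μ(s))`, `μ̄ = n̄/m̄` (conjugated coefficients). With the homogenisations of `n̄, m̄`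
of degree `k = max (deg n, deg m)` this is the polynomial identity `s · m̄ʰ(n(s), m(s)) = n̄ʰ(n(s), m(s))` on the infinite set `T`, hence
identically. If `k ≥ 2` take `y`, `s ≠ s'` from H12a with `m̄(y) ≠ 0`: then `s = n̄(y)/m̄(y) = s'`, contradiction. -/
theorem conj_degree {d : ℕ} (n m : Polynomial (KF d)) (hcop : IsCoprime n m) (T : Set ℂ) (hinf : T.Infinite)
    (h : ∀ s ∈ T, Polynomial.aeval s m ≠ 0 ∧ (starRingEnd ℂ) s = Polynomial.aeval s n / Polynomial.aeval s m) :
    n.natDegree ≤ 1 ∧ m.natDegree ≤ 1 := by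
  obtain ⟨N, hN⟩ : ∃ N, N = n.map (algebraMap (KF d) ℂ) := ⟨_, rfl⟩
  obtain ⟨M, hM⟩ : ∃ M, M = m.map (algebraMap (KF d) ℂ) := ⟨_, rfl⟩
  have hNd : N.natDegree = n.natDegree := by rw [hN, Polynomial.natDegree_map]
  have hMd : M.natDegree = m.natDegree := by rw [hM, Polynomial.natDegree_map]
  have hcop' : IsCoprime N M := by
    rw [hN, hM]
    exact hcop.map (Polynomial.mapRingHom (algebraMap (KF d) ℂ))
  have hNe : ∀ s, Polynomial.aeval s n = N.eval s := by
    intro s
    rw [hN, Polynomial.eval_map, Polynomial.aeval_def]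
  have hMe : ∀ s, Polynomial.aeval s m = M.eval s := by
    intro s
    rw [hM, Polynomial.eval_map, Polynomial.aeval_def]
  by_contra hcon
  have h2 : 2 ≤ max N.natDegree M.natDegree := by
    rw [hNd, hMd]
    rcases not_and_or.1 hcon with h3 | h3
    · exact le_max_of_le_left (by omega)
    · exact le_max_of_le_right (by omega)
  obtain ⟨k, hk⟩ : ∃ k, k = max N.natDegree M.natDegree := ⟨_, rfl⟩
  obtain ⟨N', hN'⟩ : ∃ N', N' = N.map (starRingEnd ℂ) := ⟨_, rfl⟩
  obtain ⟨M', hM'⟩ : ∃ M', M' = M.map (starRingEnd ℂ) := ⟨_, rfl⟩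
  have hN'd : N'.natDegree ≤ k := by
    rw [hN', Polynomial.natDegree_map, hk]
    exact le_max_left _ _
  have hM'd : M'.natDegree ≤ k := by
    rw [hM', Polynomial.natDegree_map, hk]
    exact le_max_right _ _
  have hN'e : ∀ s, N'.eval ((starRingEnd ℂ) s) = (starRingEnd ℂ) (N.eval s) := by
    intro s
    rw [hN', Polynomial.eval_map, Polynomial.eval₂_at_apply]
  have hM'e : ∀ s, M'.eval ((starRingEnd ℂ) s) = (starRingEnd ℂ) (M.eval s) := by
    intro s
    rw [hM', Polynomial.eval_map, Polynomial.eval₂_at_apply]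
  have hM0 : M ≠ 0 := by
    rintro rfl
    obtain ⟨s, hs⟩ := hinf.nonempty
    obtain ⟨h3, -⟩ := h s hs
    rw [hMe, Polynomial.eval_zero] at h3
    exact h3 rfl
  have hM'0 : M' ≠ 0 := by
    rw [hM']
    exact (Polynomial.map_ne_zero_iff (starRingEnd ℂ).injective).2 hM0
  -- the identity
  have hid : Polynomial.X * h12_hom k M' N M = h12_hom k N' N M := by
    refine Polynomial.eq_of_infinite_eval_eq _ _ (hinf.mono fun s hs => ?_)
    obtain ⟨h3, h4⟩ := h s hs
    rw [hMe] at h3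
    rw [hNe, hMe] at h4
    rw [Set.mem_ofPred_eq, Polynomial.eval_mul, Polynomial.eval_X, h12_hom_eval k M' N M hM'd s h3,
      h12_hom_eval k N' N M hN'd s h3, ← h4, hM'e, hN'e]
    have h5 : s * (starRingEnd ℂ) (M.eval s) = (starRingEnd ℂ) (N.eval s) := by
      have h6 : (starRingEnd ℂ) s * M.eval s = N.eval s := by
        rw [h4, div_mul_cancel₀ _ h3]
      rw [← h6, map_mul, Complex.conj_conj]
    rw [← h5]
    ring
  have hid' : ∀ s, M.eval s ≠ 0 → s * M'.eval (N.eval s / M.eval s) = N'.eval (N.eval s / M.eval s) := by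
    intro s hs
    have h3 := congrArg (Polynomial.eval s) hid
    rw [Polynomial.eval_mul, Polynomial.eval_X, h12_hom_eval k M' N M hM'd s hs,
      h12_hom_eval k N' N M hN'd s hs] at h3
    have h4 : M.eval s ^ k ≠ 0 := pow_ne_zero _ hs
    refine mul_left_cancel₀ h4 ?_
    rw [← h3]
    ring
  obtain ⟨y, hy, s, s', hne, hs, hs', e1, e2⟩ := not_injective N M hcop' h2 {z | M'.IsRoot z}
    (Polynomial.finite_setOfPred_isRoot hM'0)
  have hy' : M'.eval y ≠ 0 := hy
  have i1 := hid' s hs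
  have i2 := hid' s' hs'
  rw [e1, mul_div_assoc, div_self hs, mul_one] at i1
  rw [e2, mul_div_assoc, div_self hs', mul_one] at i2
  exact hne (mul_right_cancel₀ hy' (i1.trans i2.symm))

end Pool.Agent.MSD
end

end
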