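import Mathlib
import Pool.Agent.Lib.MP_f58a57_nt.FK.K050
import Pool.Agent.Lib.MP_f58a57_nt.M00_Defs

section

/-! # H17: real values on an analytic curve (MP_f58a57_nt) -/

open Complex ModularForm EisensteinSeries Filter
open UpperHalfPlane hiding I
open scoped Topology MatrixGroups Polynomial

noncomputable section

namespace Pool.Agent.MSD

/-- H17. PROOF. `F(z) = f(Γ z)` is analytic at `r₁`, and so is `F*(z) = conj (F (conj z))`. `F - F*` vanishes at the real points `r` near `r₁` with `f(Γ r)` real, which accumulate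
at `r₁`; so it vanishes near `r₁` (identity theorem), in particular `F(r)` is real for all real `r` near `r₁`. -/
theorem real_on_curve (f Γ : ℂ → ℂ) (r₁ : ℝ) (hΓ : AnalyticAt ℂ Γ r₁) (hf : AnalyticAt ℂ f (Γ r₁))
    (h : ∃ᶠ r : ℝ in 𝓝[≠] r₁, (f (Γ r)).im = 0) : ∀ᶠ r : ℝ in 𝓝 r₁, (f (Γ r)).im = 0 := by
  set F : ℂ → ℂ := fun z => f (Γ z) with hFdef
  have hF : AnalyticAt ℂ F r₁ := hf.comp hΓ
  have hF' : AnalyticAt ℂ (fun z => (starRingEnd ℂ) (F ((starRingEnd ℂ) z))) (r₁ : ℂ) := by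
    rw [Complex.analyticAt_iff_eventually_differentiableAt] at hF ⊢
    have h1 : Tendsto (fun z : ℂ => (starRingEnd ℂ) z) (𝓝 (r₁ : ℂ)) (𝓝 (r₁ : ℂ)) := by
      have h2 : Continuous (fun z : ℂ => (starRingEnd ℂ) z) := Complex.continuous_conj
      have h3 := h2.tendsto (r₁ : ℂ)
      simpa using h3
    filter_upwards [h1.eventually hF] with z hz
    have h4 := hz.conj_conj
    rw [Complex.conj_conj] at h4
    exact h4
  have hreal : ∀ r : ℝ, F r = (starRingEnd ℂ) (F ((starRingEnd ℂ) (r : ℂ))) ↔ (F r).im = 0 := by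
    intro r
    rw [Complex.conj_ofReal, eq_comm, Complex.conj_eq_iff_im]
  have hcast : Tendsto (fun r : ℝ => (r : ℂ)) (𝓝[≠] r₁) (𝓝[≠] (r₁ : ℂ)) := by
    apply tendsto_nhdsWithin_of_tendsto_nhds_of_eventually_within
    · exact (Complex.continuous_ofReal.tendsto r₁).mono_left nhdsWithin_le_nhds
    · filter_upwards [self_mem_nhdsWithin] with r hr
      intro h
      exact hr (by simpa using h)
  have hfreq : ∃ᶠ z in 𝓝[≠] (r₁ : ℂ), F z = (starRingEnd ℂ) (F ((starRingEnd ℂ) z)) := by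
    apply hcast.frequently
    exact h.mono (fun r hr => (hreal r).mpr hr)
  have hev := (hF.frequently_eq_iff_eventually_eq hF').mp hfreq
  have h5 : Tendsto (fun r : ℝ => (r : ℂ)) (𝓝 r₁) (𝓝 (r₁ : ℂ)) := Complex.continuous_ofReal.tendsto r₁
  filter_upwards [h5.eventually hev] with r hr
  exact (hreal r).mp hr

end Pool.Agent.MSD
end

end

section

/-! # H10: Lueroth for the field generated by finitely many functions (MP_f58a57_nt) -/

open Complex ModularForm EisensteinSeries Filter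
open UpperHalfPlane hiding I
open scoped Topology MatrixGroups Polynomial

noncomputable section

namespace Pool.Agent.MSD

/-- H10. PROOF. Let `M = IntermediateField.adjoin (KF d) (Set.range R)` in `RatFunc (KF d)`; `M ≠ ⊥` since `R i` is not a constant. By
`RatFunc.Luroth.eq_adjoin_generator`, `M = K⟮g⟯`; use `IntermediateField.mem_adjoin_simple_iff` for `R i ∈ K⟮g⟯` and
`IntermediateField.mem_adjoin_range_iff` for `g ∈ M` (if the denominator vanishes the element is `0 = 0/1`; replace it). -/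
theorem luroth_gen {d : ℕ} {S : Type} [Finite S] [Nonempty S] (R : S → RatFunc (KF d)) (hR : ∀ i, ¬ ∃ c, R i = RatFunc.C c) :
    ∃ g : RatFunc (KF d), (¬ ∃ c, g = RatFunc.C c) ∧
      (∀ i, ∃ p q : Polynomial (KF d), Polynomial.aeval g q ≠ 0 ∧ R i = Polynomial.aeval g p / Polynomial.aeval g q) ∧
      ∃ p q : MvPolynomial S (KF d), MvPolynomial.aeval R q ≠ 0 ∧ g = MvPolynomial.aeval R p / MvPolynomial.aeval R q := by
  set M : IntermediateField (KF d) (RatFunc (KF d)) :=
    IntermediateField.adjoin (KF d) (Set.range R) with hM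
  have hRM : ∀ i, R i ∈ M := fun i => IntermediateField.subset_adjoin _ _ (Set.mem_range_self i)
  have hbot : M ≠ ⊥ := by
    intro h
    obtain ⟨i⟩ := (inferInstance : Nonempty S)
    have h1 := hRM i
    rw [h, IntermediateField.mem_bot] at h1
    obtain ⟨c, hc⟩ := h1
    refine hR i ⟨c, ?_⟩
    rw [← hc, RatFunc.algebraMap_eq_C]
  refine ⟨RatFunc.Luroth.generator M, RatFunc.Luroth.generator_ne_C hbot, ?_, ?_⟩
  · intro i
    have h1 := hRM i
    rw [RatFunc.Luroth.eq_adjoin_generator (E := M)] at h1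
    obtain ⟨p, q, hpq⟩ := (IntermediateField.mem_adjoin_simple_iff _ _).1 h1
    by_cases hq : Polynomial.aeval (RatFunc.Luroth.generator M) q = 0
    · refine ⟨0, 1, by simp, ?_⟩
      rw [hpq, hq, div_zero]
      simp
    · exact ⟨p, q, hq, hpq⟩
  · have h1 : RatFunc.Luroth.generator M ∈ M := RatFunc.Luroth.generator_mem
    obtain ⟨p, q, hpq⟩ := (IntermediateField.mem_adjoin_range_iff _ _ _).1 h1
    by_cases hq : MvPolynomial.aeval R q = 0
    · refine ⟨0, 1, by simp, ?_⟩
      rw [hpq, hq, div_zero]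
      simp
    · exact ⟨p, q, hq, hpq⟩

end Pool.Agent.MSD
end

end

section

/-! # H11: the conjugate of the generator on a real arc (MP_f58a57_nt) -/

open Complex ModularForm EisensteinSeries Filter
open UpperHalfPlane hiding I
open scoped Topology MatrixGroups Polynomial

noncomputable section

namespace Pool.Agent.MSD

theorem h11_zero {d : ℕ} (R : RatFunc (KF d)) (hR : R ≠ 0) : {x : ℂ | evr R x = 0}.Finite := by
  by_contra h
  apply hR
  apply evr_inj
  refine Set.Infinite.mono ?_ h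
  intro x hx
  have h0 : evr (0 : RatFunc (KF d)) x = 0 := RatFunc.eval_zero _ _
  show evr R x = evr 0 x
  rw [h0]
  exact hx

theorem h11_conj {d : ℕ} {S : Type} (p : MvPolynomial S (KF d)) (y : S → ℂ)
    (hy : ∀ i, (starRingEnd ℂ) (y i) = y i) :
    (starRingEnd ℂ) (MvPolynomial.aeval y p) = MvPolynomial.aeval y (MvPolynomial.map (conjK d) p) := by
  rw [MvPolynomial.aeval_def, MvPolynomial.aeval_def, MvPolynomial.eval₂_map,
    MvPolynomial.eval₂_comp_left]
  congr 1
  funext i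
  exact hy i

theorem h11_coprime {d : ℕ} (g G : RatFunc (KF d))
    (hG : G ∈ IntermediateField.adjoin (KF d) ({g} : Set (RatFunc (KF d)))) :
    ∃ n m : Polynomial (KF d), IsCoprime n m ∧ Polynomial.aeval g m ≠ 0 ∧
      G * Polynomial.aeval g m = Polynomial.aeval g n := by
  obtain ⟨n0, m0, hm0, hG0⟩ : ∃ n0 m0 : Polynomial (KF d), Polynomial.aeval g m0 ≠ 0 ∧
      G = Polynomial.aeval g n0 / Polynomial.aeval g m0 := by
    obtain ⟨r, s, hrs⟩ := (IntermediateField.mem_adjoin_simple_iff (KF d) G).1 hG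
    by_cases hs : Polynomial.aeval g s = 0
    · refine ⟨0, 1, by simp, ?_⟩
      rw [hrs, hs, div_zero]
      simp
    · exact ⟨r, s, hs, hrs⟩
  have hm00 : m0 ≠ 0 := by
    rintro rfl
    exact hm0 (map_zero _)
  set t : RatFunc (KF d) := algebraMap _ (RatFunc (KF d)) n0 / algebraMap _ (RatFunc (KF d)) m0 with ht
  have hrel : t.num * m0 = n0 * t.denom := by
    rw [RatFunc.num_mul_eq_mul_denom_iff hm00]
  have hcop := RatFunc.isCoprime_num_denom t
  have hrel' : Polynomial.aeval g t.num * Polynomial.aeval g m0 =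
      Polynomial.aeval g n0 * Polynomial.aeval g t.denom := by
    rw [← map_mul, ← map_mul, hrel]
  have hden : Polynomial.aeval g t.denom ≠ 0 := by
    intro h
    rw [h, mul_zero] at hrel'
    have h2 : Polynomial.aeval g t.num = 0 := (mul_eq_zero.1 hrel').resolve_right hm0
    obtain ⟨u, v, huv⟩ := hcop
    have h3 := congrArg (Polynomial.aeval g) huv
    rw [map_add, map_mul, map_mul, h, h2, mul_zero, mul_zero, add_zero, map_one] at h3
    exact zero_ne_one h3
  refine ⟨t.num, t.denom, hcop, hden, ?_⟩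
  rw [hG0, div_mul_eq_mul_div, div_eq_iff hm0]
  exact hrel'.symm

/-- H11. PROOF. Write `g = p(R)/q(R)` (`p, q ∈ K[X_S]`), `R i = a_i(g)/b_i(g)`. Let `p̄, q̄` be the polynomials with conjugated coefficients
(`MvPolynomial.map (conjK d)`). For `x ∈ A` outside the finite set of poles of the `R i`, of `g` and of the zeros of `q(R)`: all `R i (x)` are real, so
`q̄(R(x)) = conj (q(R(x))) ≠ 0` (hence `q̄(R) ≠ 0` in `RatFunc`) and `conj (g x) = p̄(R(x))/q̄(R(x))`. The rational function `g* = p̄(R)/q̄(R)` lies in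
`K(g)` because the `R i` do; write `g* = n(g)/m(g)` with coprime `n, m` (divide by the gcd). Off a finite set `conj (g x) = g* x = n(g x)/m(g x)`. -/
theorem conj_rel {d : ℕ} {S : Type} [Finite S] (R : S → RatFunc (KF d)) (g : RatFunc (KF d)) (hg : ¬ ∃ c, g = RatFunc.C c)
    (hRg : ∀ i, ∃ p q : Polynomial (KF d), Polynomial.aeval g q ≠ 0 ∧ R i = Polynomial.aeval g p / Polynomial.aeval g q)
    (hgR : ∃ p q : MvPolynomial S (KF d), MvPolynomial.aeval R q ≠ 0 ∧ g = MvPolynomial.aeval R p / MvPolynomial.aeval R q)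
    (A : Set ℂ) (hA : A.Infinite) (hreal : ∀ x ∈ A, ∀ i, (evr (R i) x).im = 0) :
    ∃ n m : Polynomial (KF d), IsCoprime n m ∧ {x ∈ A | ¬ (Polynomial.aeval (evr g x) m ≠ 0 ∧
      (starRingEnd ℂ) (evr g x) = Polynomial.aeval (evr g x) n / Polynomial.aeval (evr g x) m)}.Finite := by
  obtain ⟨p, q, hq0, hgpq⟩ := hgR
  -- bad points
  have hB1 : {x : ℂ | ∃ i, dn (R i) x = 0}.Finite := by
    have h : {x : ℂ | ∃ i, dn (R i) x = 0} = ⋃ i, {x : ℂ | dn (R i) x = 0} := by
      ext x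
      simp
    rw [h]
    exact Set.finite_iUnion fun i => dn_finite (R i)
  have hB2 : {x : ℂ | dn g x = 0}.Finite := dn_finite g
  have hB3 := h11_zero _ hq0
  have hval : ∀ (u : MvPolynomial S (KF d)) (x : ℂ), (¬ ∃ i, dn (R i) x = 0) →
      dn (MvPolynomial.aeval R u) x ≠ 0 ∧
        evr (MvPolynomial.aeval R u) x = MvPolynomial.aeval (fun i => evr (R i) x) u := by
    intro u x hx
    push Not at hx
    exact evr_mvaeval R u x hx
  have hreal' : ∀ x ∈ A, ∀ i, (starRingEnd ℂ) (evr (R i) x) = evr (R i) x := fun x hx i =>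
    Complex.conj_eq_iff_im.2 (hreal x hx i)
  -- the conjugated denominator is not zero
  have hqbar : MvPolynomial.aeval R (MvPolynomial.map (conjK d) q) ≠ 0 := by
    intro h0
    have hinf : (A \ ({x : ℂ | ∃ i, dn (R i) x = 0} ∪ {x | evr (MvPolynomial.aeval R q) x = 0})).Infinite :=
      hA.sdiff (hB1.union hB3)
    obtain ⟨x, hxA, hx⟩ := hinf.nonempty
    rw [Set.mem_union, not_or] at hx
    have h1 := (hval q x hx.1).2
    have h2 := (hval (MvPolynomial.map (conjK d) q) x hx.1).2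
    rw [← h11_conj q _ (hreal' x hxA), ← h1, h0] at h2
    have h3 : evr (0 : RatFunc (KF d)) x = 0 := RatFunc.eval_zero _ _
    rw [h3] at h2
    exact hx.2 ((map_eq_zero (starRingEnd ℂ)).1 h2.symm)
  -- the function g*
  have hRmem : ∀ i, R i ∈ IntermediateField.adjoin (KF d) ({g} : Set (RatFunc (KF d))) := by
    intro i
    obtain ⟨a, b, _, hab⟩ := hRg i
    exact (IntermediateField.mem_adjoin_simple_iff (KF d) (R i)).2 ⟨a, b, hab⟩
  have hmem : ∀ u : MvPolynomial S (KF d),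
      MvPolynomial.aeval R u ∈ IntermediateField.adjoin (KF d) ({g} : Set (RatFunc (KF d))) := by
    intro u
    induction u using MvPolynomial.induction_on with
    | C a =>
      rw [MvPolynomial.aeval_C]
      exact IntermediateField.algebraMap_mem _ a
    | add p q hp hq =>
      rw [map_add]
      exact add_mem hp hq
    | mul_X p i hp =>
      rw [map_mul, MvPolynomial.aeval_X]
      exact mul_mem hp (hRmem i)
  obtain ⟨n, m, hnm, hm0, hrel⟩ := h11_coprime g
    (MvPolynomial.aeval R (MvPolynomial.map (conjK d) p) / MvPolynomial.aeval R (MvPolynomial.map (conjK d) q))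
    (div_mem (hmem _) (hmem _))
  rw [div_mul_eq_mul_div, div_eq_iff hqbar] at hrel
  refine ⟨n, m, hnm, ?_⟩
  refine (((hB1.union hB2).union hB3).union (h11_zero _ hm0)).subset ?_
  rintro x ⟨hxA, hx⟩
  by_contra hcon
  simp only [Set.mem_union, not_or] at hcon
  obtain ⟨⟨⟨hx1, hx2⟩, hx3⟩, hx4⟩ := hcon
  apply hx
  have hn' := evr_aeval g n x hx2
  have hm' := evr_aeval g m x hx2
  have hmx : Polynomial.aeval (evr g x) m ≠ 0 := by
    rw [← hm'.2]
    exact hx4
  refine ⟨hmx, ?_⟩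
  have hp' := hval (MvPolynomial.map (conjK d) p) x hx1
  have hq' := hval (MvPolynomial.map (conjK d) q) x hx1
  have hpx := hval p x hx1
  have hqx := hval q x hx1
  have hqx0 : MvPolynomial.aeval (fun i => evr (R i) x) q ≠ 0 := by
    rw [← hqx.2]
    exact hx3
  have hev := congrArg (fun G => evr G x) hrel
  beta_reduce at hev
  rw [(evr_mul _ _ x hp'.1 hm'.1).2, (evr_mul _ _ x hn'.1 hq'.1).2, hp'.2, hq'.2, hn'.2, hm'.2] at hev
  have hg1 : evr g x = MvPolynomial.aeval (fun i => evr (R i) x) p / MvPolynomial.aeval (fun i => evr (R i) x) q := by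
    have h1 : g * MvPolynomial.aeval R q = MvPolynomial.aeval R p := by
      rw [hgpq, div_mul_cancel₀ _ hq0]
    have h2 := congrArg (fun G => evr G x) h1
    beta_reduce at h2
    rw [(evr_mul _ _ x hx2 hqx.1).2, hqx.2, hpx.2] at h2
    rw [eq_div_iff hqx0]
    exact h2
  have hconj : (starRingEnd ℂ) (evr g x) =
      MvPolynomial.aeval (fun i => evr (R i) x) (MvPolynomial.map (conjK d) p) /
        MvPolynomial.aeval (fun i => evr (R i) x) (MvPolynomial.map (conjK d) q) := by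
    rw [hg1, map_div₀, h11_conj p _ (hreal' x hxA), h11_conj q _ (hreal' x hxA)]
  have hqb0 : MvPolynomial.aeval (fun i => evr (R i) x) (MvPolynomial.map (conjK d) q) ≠ 0 := by
    rw [← h11_conj q _ (hreal' x hxA)]
    exact (map_ne_zero (starRingEnd ℂ)).2 hqx0
  rw [hconj, div_eq_div_iff hqb0 hmx]
  exact hev

end Pool.Agent.MSD
end

end

section

/-! # M01: Kronecker substitution (MP_f58a57_nt) -/

open Complex ModularForm EisensteinSeries Filter
open UpperHalfPlane hiding I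
open scoped Topology MatrixGroups Polynomial

noncomputable section

namespace Pool.Agent.MSD

/-- M01a. Digits in base `N`. (Induction on `s`, `Fin.sum_univ_succ`, remainder mod `N` after division by `N`; or `Nat.ofDigits_inj_of_len_eq`.) -/
theorem digits_inj {s : ℕ} (N : ℕ) (m m' : Fin s → ℕ) (hm : ∀ l, m l < N) (hm' : ∀ l, m' l < N)
    (h : ∑ l, m l * N ^ (l.val + 1) = ∑ l, m' l * N ^ (l.val + 1)) : m = m' := by
  induction s with
  | zero => exact Subsingleton.elim _ _
  | succ s ih =>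
    have hN : 0 < N := lt_of_le_of_lt (Nat.zero_le _) (hm 0)
    have key : ∀ f : Fin (s + 1) → ℕ, ∑ l, f l * N ^ (l.val + 1) =
        N * (f 0 + N * ∑ l : Fin s, f l.succ * N ^ l.val) := by
      intro f
      rw [Fin.sum_univ_succ, mul_add, Finset.mul_sum, Finset.mul_sum]
      congr 1
      · simp [mul_comm]
      · refine Finset.sum_congr rfl fun l _ => ?_
        rw [Fin.val_succ]
        ring
    rw [key m, key m'] at h
    have h1 := Nat.eq_of_mul_eq_mul_left hN h
    have h0 : m 0 = m' 0 := by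
      have h2 := congrArg (fun x => x % N) h1
      simp only [Nat.add_mul_mod_self_left] at h2
      rwa [Nat.mod_eq_of_lt (hm 0), Nat.mod_eq_of_lt (hm' 0)] at h2
    rw [h0] at h1
    have h3 := Nat.add_left_cancel h1
    have h4 : (fun l : Fin s => m l.succ) = fun l : Fin s => m' l.succ := by
      refine ih _ _ (fun l => hm l.succ) (fun l => hm' l.succ) ?_
      have e : ∀ f : Fin (s + 1) → ℕ, ∑ l : Fin s, f l.succ * N ^ (l.val + 1) =
          N * ∑ l : Fin s, f l.succ * N ^ l.val := by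
        intro f
        rw [Finset.mul_sum]
        refine Finset.sum_congr rfl fun l _ => ?_
        ring
      rw [e m, e m', h3]
    funext l
    refine Fin.cases h0 (fun j => ?_) l
    exact congrFun h4 j

/-- M01b. PROOF. The translate `P̃ = P(X_l + p_l)` has exponents `< N` too (`degreeOf`), `P = P̃(X_l - p_l)`, and `kr p N P = Σ_m coeff_m X^(Σ m_l N^(l+1))`
with different exponents for different `m` by `digits_inj`; so all coefficients of `P̃` vanish. -/
theorem kron_inj {s d : ℕ} (p : Fin s → ℚ) (N : ℕ) (P : MvPolynomial (Fin s) (KF d)) (hN : ∀ m ∈ P.support, ∀ l, m l < N)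
    (h : kr p N P = 0) : P = 0 := by
  classical
  by_cases hP : P = 0
  · exact hP
  obtain ⟨m₀, hm₀⟩ : P.support.Nonempty := by
    rw [Finset.nonempty_iff_ne_empty]
    intro h0
    exact hP (MvPolynomial.support_eq_empty.1 h0)
  set q : Fin s → KF d := fun l => algebraMap ℚ (KF d) (p l) with hq
  -- the translate
  set Q : MvPolynomial (Fin s) (KF d) :=
    MvPolynomial.aeval (fun l => MvPolynomial.X l + MvPolynomial.C (q l)) P with hQ
  have hback : MvPolynomial.aeval (fun l => MvPolynomial.X l - MvPolynomial.C (q l)) Q = P := by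
    have h1 : ((MvPolynomial.aeval (fun l => MvPolynomial.X l - MvPolynomial.C (q l))).comp
        (MvPolynomial.aeval (fun l => MvPolynomial.X l + MvPolynomial.C (q l))) :
        MvPolynomial (Fin s) (KF d) →ₐ[KF d] MvPolynomial (Fin s) (KF d)) = AlgHom.id _ _ := by
      apply MvPolynomial.algHom_ext
      intro l
      rw [AlgHom.comp_apply, MvPolynomial.aeval_X, map_add, MvPolynomial.aeval_X,
        MvPolynomial.aeval_C, MvPolynomial.algebraMap_eq, sub_add_cancel]
      rfl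
    have h2 := congrArg (fun φ => φ P) h1
    exact h2
  have hkr : kr p N P = MvPolynomial.aeval
      (fun l : Fin s => (Polynomial.X : Polynomial (KF d)) ^ (N ^ (l.val + 1))) Q := by
    have h1 : kr p N = ((MvPolynomial.aeval
        (fun l : Fin s => (Polynomial.X : Polynomial (KF d)) ^ (N ^ (l.val + 1)))).comp
        (MvPolynomial.aeval (fun l => MvPolynomial.X l + MvPolynomial.C (q l)))) := by
      apply MvPolynomial.algHom_ext
      intro l
      unfold kr
      rw [AlgHom.comp_apply, MvPolynomial.aeval_X, MvPolynomial.aeval_X, map_add,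
        MvPolynomial.aeval_X, MvPolynomial.aeval_C, add_comm]
      rfl
    rw [h1]
    rfl
  have hdeg : ∀ l, Q.degreeOf l ≤ P.degreeOf l := by
    intro l
    rw [hQ, MvPolynomial.aeval_def, MvPolynomial.eval₂_eq']
    refine (MvPolynomial.degreeOf_sum_le _ _ _).trans ?_
    refine Finset.sup_le fun m hm => ?_
    refine (MvPolynomial.degreeOf_mul_le _ _ _).trans ?_
    rw [MvPolynomial.algebraMap_eq, MvPolynomial.degreeOf_C, zero_add]
    refine (MvPolynomial.degreeOf_prod_le _ _ _).trans ?_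
    refine le_trans (b := ∑ j : Fin s, if j = l then m l else 0) ?_ ?_
    · refine Finset.sum_le_sum fun j _ => ?_
      refine (MvPolynomial.degreeOf_pow_le _ _ _).trans ?_
      have h1 : (MvPolynomial.X j + MvPolynomial.C (q j) : MvPolynomial (Fin s) (KF d)).degreeOf l ≤
          if j = l then 1 else 0 := by
        refine (MvPolynomial.degreeOf_add_le _ _ _).trans ?_
        rw [MvPolynomial.degreeOf_C, MvPolynomial.degreeOf_X]
        by_cases hjl : j = l
        · simp [hjl]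
        · simp [hjl, Ne.symm hjl]
      by_cases hjl : j = l
      · subst hjl
        rw [if_pos rfl] at h1 ⊢
        exact (Nat.mul_le_mul_left _ h1).trans (by simp)
      · rw [if_neg hjl] at h1 ⊢
        rw [Nat.le_zero.1 h1, mul_zero]
    · rw [Finset.sum_ite_eq' Finset.univ l (fun _ => m l), if_pos (Finset.mem_univ l)]
      exact MvPolynomial.monomial_le_degreeOf l hm
  have hQN : ∀ m ∈ Q.support, ∀ l, m l < N := by
    intro m hm l
    have hN0 : 0 < N := lt_of_le_of_lt (Nat.zero_le _) (hN m₀ hm₀ l)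
    have h1 : P.degreeOf l < N := (MvPolynomial.degreeOf_lt_iff hN0).2 fun m hm => hN m hm l
    exact lt_of_le_of_lt ((MvPolynomial.monomial_le_degreeOf l hm).trans (hdeg l)) h1
  rw [hkr, MvPolynomial.aeval_def, MvPolynomial.eval₂_eq'] at h
  have hcoef : ∀ m ∈ Q.support, Q.coeff m = 0 := by
    intro m hm
    have h1 := congrArg (fun f => Polynomial.coeff f (∑ l, m l * N ^ (l.val + 1))) h
    simp only [Polynomial.finsetSum_coeff, Polynomial.coeff_zero] at h1
    rw [Finset.sum_eq_single m] at h1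
    · rw [Polynomial.algebraMap_eq, Polynomial.coeff_C_mul] at h1
      have h2 : (∏ i, ((Polynomial.X : Polynomial (KF d)) ^ (N ^ (i.val + 1))) ^ m i) =
          Polynomial.X ^ (∑ l, m l * N ^ (l.val + 1)) := by
        rw [← Finset.prod_pow_eq_pow_sum]
        refine Finset.prod_congr rfl fun i _ => ?_
        rw [← pow_mul, mul_comm]
      rw [h2, Polynomial.coeff_X_pow_self, mul_one] at h1
      exact h1
    · intro m' hm' hne
      have h2 : (∏ i, ((Polynomial.X : Polynomial (KF d)) ^ (N ^ (i.val + 1))) ^ m' i) =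
          Polynomial.X ^ (∑ l, m' l * N ^ (l.val + 1)) := by
        rw [← Finset.prod_pow_eq_pow_sum]
        refine Finset.prod_congr rfl fun i _ => ?_
        rw [← pow_mul, mul_comm]
      rw [h2, Polynomial.algebraMap_eq, Polynomial.coeff_C_mul, Polynomial.coeff_X_pow, if_neg, mul_zero]
      intro he
      apply hne
      have := digits_inj N (fun l => m l) (fun l => m' l) (hQN m hm) (hQN m' hm') he
      ext l
      exact (congrFun this l).symm
    · intro hnot
      exact absurd hm hnot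
  have hQ0 : Q = 0 := by
    rw [← MvPolynomial.support_eq_empty, Finset.eq_empty_iff_forall_notMem]
    intro m hm
    exact MvPolynomial.mem_support_iff.1 hm (hcoef m hm)
  rw [← hback, hQ0, map_zero]

end Pool.Agent.MSD
end

end

section

/-! # M01c: Kronecker substitution in blocks (MP_f58a57_nt) -/

open Complex ModularForm EisensteinSeries Filter
open UpperHalfPlane hiding I
open scoped Topology MatrixGroups Polynomial

noncomputable section

namespace Pool.Agent.MSD

/-- a translation does not raise the partial degrees -/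
theorem m01c_transl {σ : Type} (pp : σ → ℂ) (i : σ) (N : ℕ) (P : MvPolynomial σ ℂ)
    (hN : ∀ m ∈ P.support, m i < N) :
    ∀ m ∈ (MvPolynomial.aeval (fun j => (MvPolynomial.X j + MvPolynomial.C (pp j) :
      MvPolynomial σ ℂ)) P).support, m i < N := by
  classical
  rcases Nat.eq_zero_or_pos N with rfl | hpos
  · have hP : P = 0 := by
      rw [← MvPolynomial.support_eq_empty]
      apply Finset.eq_empty_of_forall_notMem
      intro m hm
      exact absurd (hN m hm) (Nat.not_lt_zero _)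
    intro m hm
    rw [hP, map_zero] at hm
    simp at hm
  · rw [← MvPolynomial.degreeOf_lt_iff hpos]
    have h1 : MvPolynomial.aeval (fun j => (MvPolynomial.X j + MvPolynomial.C (pp j) :
        MvPolynomial σ ℂ)) P = ∑ m ∈ P.support, MvPolynomial.C (P.coeff m) *
          ∏ j ∈ m.support, (MvPolynomial.X j + MvPolynomial.C (pp j)) ^ m j := by
      rw [MvPolynomial.aeval_def, MvPolynomial.eval₂_eq]
      rfl
    rw [h1]
    refine lt_of_le_of_lt (MvPolynomial.degreeOf_sum_le _ _ _) ?_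
    rw [Finset.sup_lt_iff hpos]
    intro m hm
    refine lt_of_le_of_lt ?_ (hN m hm)
    refine (MvPolynomial.degreeOf_C_mul_le _ _ _).trans ?_
    refine (MvPolynomial.degreeOf_prod_le _ _ _).trans ?_
    have h2 : ∀ j ∈ m.support, MvPolynomial.degreeOf i ((MvPolynomial.X j +
        MvPolynomial.C (pp j) : MvPolynomial σ ℂ) ^ m j) ≤ if i = j then m i else 0 := by
      intro j _
      refine (MvPolynomial.degreeOf_pow_le _ _ _).trans ?_
      have h3 := MvPolynomial.degreeOf_add_le i (MvPolynomial.X j : MvPolynomial σ ℂ)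
        (MvPolynomial.C (pp j))
      rw [MvPolynomial.degreeOf_C, MvPolynomial.degreeOf_X] at h3
      by_cases hij : i = j
      · subst hij
        simp only [if_true] at h3 ⊢
        calc m i * _ ≤ m i * 1 := Nat.mul_le_mul le_rfl (by simpa using h3)
          _ = m i := mul_one _
      · simp only [hij, if_false] at h3 ⊢
        have : MvPolynomial.degreeOf i (MvPolynomial.X j + MvPolynomial.C (pp j) :
          MvPolynomial σ ℂ) = 0 := by simpa using h3
        rw [this, mul_zero]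
    refine (Finset.sum_le_sum h2).trans ?_
    rw [Finset.sum_ite_eq]
    split_ifs
    · exact le_rfl
    · exact Nat.zero_le _

/-- a monomial substitution is injective on polynomials whose exponents are separated -/
theorem m01c_mono {σ τ : Type} (ε : σ → τ →₀ ℕ) (P : MvPolynomial σ ℂ)
    (hinj : ∀ m ∈ P.support, ∀ m' ∈ P.support,
      (m.sum fun i k => k • ε i) = (m'.sum fun i k => k • ε i) → m = m')
    (h : MvPolynomial.aeval (fun i => (MvPolynomial.monomial (ε i) 1 : MvPolynomial τ ℂ)) P = 0) :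
    P = 0 := by
  classical
  by_contra hP
  obtain ⟨m0, hm0⟩ : P.support.Nonempty := by
    rw [Finset.nonempty_iff_ne_empty, Ne, MvPolynomial.support_eq_empty]
    exact hP
  have h1 : MvPolynomial.aeval (fun i => (MvPolynomial.monomial (ε i) 1 : MvPolynomial τ ℂ)) P =
      ∑ m ∈ P.support, MvPolynomial.monomial (m.sum fun i k => k • ε i) (P.coeff m) := by
    conv_lhs => rw [P.as_sum]
    rw [map_sum]
    apply Finset.sum_congr rfl
    intro m _
    rw [MvPolynomial.aeval_monomial]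
    simp only [MvPolynomial.monomial_pow, one_pow]
    rw [Finsupp.prod, Finsupp.sum]
    rw [← MvPolynomial.monomial_sum_one, MvPolynomial.algebraMap_eq, MvPolynomial.C_mul_monomial,
      mul_one]
  rw [h1] at h
  have h2 := congrArg (MvPolynomial.coeff (m0.sum fun i k => k • ε i)) h
  rw [MvPolynomial.coeff_sum, Finset.sum_eq_single m0, MvPolynomial.coeff_monomial, if_pos rfl,
    MvPolynomial.coeff_zero] at h2
  · exact (MvPolynomial.mem_support_iff.mp hm0) h2
  · intro m hm hne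
    rw [MvPolynomial.coeff_monomial, if_neg]
    intro h3
    exact hne (hinj m hm m0 hm0 h3)
  · intro h3
    exact absurd hm0 h3

/-- M01c. The version in blocks, with additional variables. PROOF. The same: after the translation `X_l ↦ X_l + p_l` the monomial `Π_l x_l^(m_l) · Y^n` goes to
`Π_b X_b^(Σ_{bl l = b} m_l N^(l+1)) · Y^n`, and different `(m, n)` with `m_l < N` have different images (`digits_inj` for `m` restricted to the block `b`). -/
theorem kron_block {s r : ℕ} (bl : Fin s → Fin r) (ι : Fin r → Type) [∀ b, Finite (ι b)] (p : Fin s → ℚ) (N : ℕ)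
    (P : MvPolynomial (Fin s ⊕ (Σ b, ι b × Fin 3)) ℂ) (hN : ∀ m ∈ P.support, ∀ l, m (Sum.inl l) < N)
    (h : MvPolynomial.aeval (Sum.elim
        (fun l => (MvPolynomial.C (p l : ℂ) + MvPolynomial.X ⟨bl l, none⟩ ^ (N ^ (l.val + 1)) :
          MvPolynomial (Σ b, Option (ι b × Fin 3)) ℂ))
        (fun q => MvPolynomial.X ⟨q.1, some q.2⟩)) P = 0) : P = 0 := by
  classical
  let pp : Fin s ⊕ (Σ b, ι b × Fin 3) → ℂ := Sum.elim (fun l => (p l : ℂ)) (fun _ => 0)
  let ε : Fin s ⊕ (Σ b, ι b × Fin 3) → (Σ b, Option (ι b × Fin 3)) →₀ ℕ :=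
    Sum.elim (fun l => Finsupp.single ⟨bl l, none⟩ (N ^ (l.val + 1)))
      (fun q => Finsupp.single ⟨q.1, some q.2⟩ 1)
  let τP : MvPolynomial (Fin s ⊕ (Σ b, ι b × Fin 3)) ℂ :=
    MvPolynomial.aeval (fun j => (MvPolynomial.X j + MvPolynomial.C (pp j) :
      MvPolynomial (Fin s ⊕ (Σ b, ι b × Fin 3)) ℂ)) P
  have hτ : ∀ m ∈ τP.support, ∀ l, m (Sum.inl l) < N := fun m hm l =>
    m01c_transl pp (Sum.inl l) N P (fun m hm => hN m hm l) m hm
  have h0 : MvPolynomial.aeval (fun i => (MvPolynomial.monomial (ε i) 1 :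
      MvPolynomial (Σ b, Option (ι b × Fin 3)) ℂ)) τP = 0 := by
    rw [← h]
    change MvPolynomial.aeval _ (MvPolynomial.aeval _ P) = _
    rw [← AlgHom.comp_apply, MvPolynomial.comp_aeval]
    congr 2
    funext i
    rcases i with l | q
    · simp only [Sum.elim_inl, map_add, MvPolynomial.aeval_X, MvPolynomial.algHom_C, pp, ε]
      rw [MvPolynomial.algebraMap_eq, add_comm, MvPolynomial.X_pow_eq_monomial]
    · simp only [Sum.elim_inr, MvPolynomial.aeval_X, map_zero, add_zero, pp, ε]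
      rfl
  -- coordinates
  have hcoord : ∀ (m : Fin s ⊕ (Σ b, ι b × Fin 3) →₀ ℕ) (x : Σ b, Option (ι b × Fin 3)),
      (m.sum fun i k => k • ε i) x = m.sum fun i k => k * ε i x := by
    intro m x
    rw [Finsupp.sum, Finsupp.finsetSum_apply]
    rfl
  have hq : ∀ (m : Fin s ⊕ (Σ b, ι b × Fin 3) →₀ ℕ) (q : Σ b, ι b × Fin 3),
      (m.sum fun i k => k • ε i) ⟨q.1, some q.2⟩ = m (Sum.inr q) := by
    intro m q
    rw [hcoord, Finsupp.sum, Finset.sum_eq_single (Sum.inr q)]
    · simp [ε]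
    · rintro (l | q') _ hne
      · have hne' : (⟨bl l, none⟩ : Σ b, Option (ι b × Fin 3)) ≠ ⟨q.1, some q.2⟩ := by
          intro h3
          rcases q with ⟨b, x⟩
          simp only [Sigma.mk.injEq] at h3
          obtain ⟨h4, h5⟩ := h3
          subst h4
          simp at h5
        simp only [ε, Sum.elim_inl]
        rw [Finsupp.single_eq_of_ne' hne', mul_zero]
      · have hne' : (⟨q'.1, some q'.2⟩ : Σ b, Option (ι b × Fin 3)) ≠ ⟨q.1, some q.2⟩ := by
          intro h3
          apply hne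
          rcases q with ⟨b, x⟩
          rcases q' with ⟨b', x'⟩
          simp only [Sigma.mk.injEq] at h3
          obtain ⟨h4, h5⟩ := h3
          subst h4
          simp only [heq_eq_eq, Option.some.injEq] at h5
          rw [h5]
        simp only [ε, Sum.elim_inr]
        rw [Finsupp.single_eq_of_ne' hne', mul_zero]
    · intro h3
      rw [Finsupp.notMem_support_iff.mp h3, zero_mul]
  have hl : ∀ (m : Fin s ⊕ (Σ b, ι b × Fin 3) →₀ ℕ) (b : Fin r),
      (m.sum fun i k => k • ε i) ⟨b, none⟩ =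
        ∑ l, (if bl l = b then m (Sum.inl l) else 0) * N ^ (l.val + 1) := by
    intro m b
    have : Fintype (Σ b, ι b × Fin 3) := Fintype.ofFinite _
    rw [hcoord, Finsupp.sum_fintype _ _ (fun i => zero_mul _), Fintype.sum_sum_type]
    have h5 : ∑ q : Σ b, ι b × Fin 3, m (Sum.inr q) * ε (Sum.inr q) ⟨b, none⟩ = 0 := by
      apply Finset.sum_eq_zero
      intro q _
      simp only [ε, Sum.elim_inr]
      rw [Finsupp.single_eq_of_ne', mul_zero]
      intro h6
      rcases q with ⟨b', x'⟩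
      simp only [Sigma.mk.injEq] at h6
      obtain ⟨h7, h8⟩ := h6
      subst h7
      simp at h8
    rw [h5, add_zero]
    apply Finset.sum_congr rfl
    intro l _
    simp only [ε, Sum.elim_inl]
    by_cases hb : bl l = b
    · subst hb
      rw [if_pos rfl, Finsupp.single_eq_same]
    · rw [if_neg hb, Finsupp.single_eq_of_ne', mul_zero, zero_mul]
      intro h6
      apply hb
      simp only [Sigma.mk.injEq] at h6
      exact h6.1
  have hτ0 : τP = 0 := by
    apply m01c_mono ε τP _ h0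
    intro m hm m' hm' heq
    ext i
    rcases i with l | q
    · have h1 := hl m (bl l)
      rw [heq, hl m' (bl l)] at h1
      have hpos : 0 < N := lt_of_le_of_lt (Nat.zero_le _) (hτ m hm l)
      have h2 := digits_inj N (fun l' => if bl l' = bl l then m' (Sum.inl l') else 0)
        (fun l' => if bl l' = bl l then m (Sum.inl l') else 0) (fun l' => by
          split_ifs
          · exact hτ m' hm' l'
          · exact hpos) (fun l' => by
          split_ifs
          · exact hτ m hm l'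
          · exact hpos) h1
      have h3 := congrFun h2 l
      simp only [if_true] at h3
      exact h3.symm
    · rw [← hq m q, heq, hq m' q]
  have hinv : MvPolynomial.aeval (fun j => (MvPolynomial.X j - MvPolynomial.C (pp j) :
      MvPolynomial (Fin s ⊕ (Σ b, ι b × Fin 3)) ℂ)) τP = P := by
    change MvPolynomial.aeval _ (MvPolynomial.aeval _ P) = _
    rw [← AlgHom.comp_apply, MvPolynomial.comp_aeval]
    have : (fun i => MvPolynomial.aeval (fun j => (MvPolynomial.X j - MvPolynomial.C (pp j) :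
        MvPolynomial (Fin s ⊕ (Σ b, ι b × Fin 3)) ℂ))
        (MvPolynomial.X i + MvPolynomial.C (pp i))) = MvPolynomial.X := by
      funext i
      rw [map_add, MvPolynomial.aeval_X, MvPolynomial.algHom_C, MvPolynomial.algebraMap_eq]
      ring
    rw [this, MvPolynomial.aeval_X_left_apply]
  rw [← hinv, hτ0, map_zero]

end Pool.Agent.MSD
end

end

section

/-! # H16: the real analytic curve (MP_f58a57_nt) -/

open Complex ModularForm EisensteinSeries Filter
open UpperHalfPlane hiding I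
open scoped Topology MatrixGroups Polynomial

noncomputable section

namespace Pool.Agent.MSD

/-- the local structure of a circle -/
theorem h16_loc {ρ : ℝ} (hρ : 0 < ρ) (sc : ℂ) (r₁ : ℝ) (ε : ℝ) (hε : 0 < ε) :
    ∃ δ > 0, ∀ r : ℝ, ‖(sc + ρ * Complex.exp (r * I)) - (sc + ρ * Complex.exp (r₁ * I))‖ < δ →
      ∃ r' : ℝ, |r' - r₁| < ε ∧ sc + ρ * Complex.exp (r' * I) = sc + ρ * Complex.exp (r * I) := by
  have hcont : ContinuousAt Complex.arg 1 := Complex.continuousAt_arg (by simp)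
  rw [Metric.continuousAt_iff] at hcont
  obtain ⟨δ', hδ', h⟩ := hcont ε hε
  refine ⟨ρ * δ', by positivity, fun r hr => ?_⟩
  set w : ℂ := Complex.exp (((r - r₁ : ℝ) : ℂ) * I) with hw
  have hw1 : ‖w‖ = 1 := Complex.norm_exp_ofReal_mul_I _
  have hew : Complex.exp ((w.arg : ℝ) * I) = w := by
    have := Complex.norm_mul_exp_arg_mul_I w
    rw [hw1] at this
    simpa using this
  have hmul : Complex.exp (r * I) = Complex.exp (r₁ * I) * w := by
    rw [hw, ← Complex.exp_add]
    congr 1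
    push_cast
    ring
  have hnorm : ‖(sc + ρ * Complex.exp (r * I)) - (sc + ρ * Complex.exp (r₁ * I))‖ = ρ * ‖w - 1‖ := by
    have e : (sc + ρ * Complex.exp (r * I)) - (sc + ρ * Complex.exp (r₁ * I)) =
        (ρ : ℂ) * (Complex.exp (r₁ * I) * (w - 1)) := by
      rw [hmul]
      ring
    rw [e, norm_mul, norm_mul, Complex.norm_exp_ofReal_mul_I, one_mul, Complex.norm_real,
      Real.norm_eq_abs, abs_of_pos hρ]
  rw [hnorm] at hr
  have h2 : ‖w - 1‖ < δ' := lt_of_mul_lt_mul_left hr hρ.le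
  have h3 := h (x := w) (by rw [dist_eq_norm]; exact h2)
  rw [Complex.arg_one, Real.dist_eq, sub_zero] at h3
  refine ⟨r₁ + w.arg, by simpa using h3, ?_⟩
  rw [hmul]
  have e2 : Complex.exp (((r₁ + w.arg : ℝ) : ℂ) * I) = Complex.exp (r₁ * I) * w := by
    push_cast
    rw [add_mul, Complex.exp_add, hew]
  rw [e2]

/-- every point of the circle is a value -/
theorem h16_surj {ρ : ℝ} (hρ : 0 < ρ) (sc s : ℂ) (h : ‖s - sc‖ ^ 2 = ρ ^ 2) :
    ∃ r : ℝ, sc + ρ * Complex.exp (r * I) = s := by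
  have h1 : ‖s - sc‖ = ρ := by
    have := (pow_left_inj₀ (norm_nonneg (s - sc)) hρ.le two_ne_zero).1 h
    exact this
  refine ⟨(s - sc).arg, ?_⟩
  have := Complex.norm_mul_exp_arg_mul_I (s - sc)
  rw [h1] at this
  rw [this]
  ring

/-- H16. From the conjugation relation on an infinite set `T` we get an analytic curve `Γ : ℝ → ℂ` (a circle or a line, `Γ` entire) with: all points of `T` are on it; it is regular;
`Γ` is locally a homeomorphism onto its image with the metric of the image (`loc`); and quadratic points over `K` on the curve can be prescribed together with their conjugates (`pts`).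
PROOF. By H12 `n = a X + b`, `m = c X + e`; H13 gives a circle `Γ(r) = sc + √ρ exp(i r)` or a line `Γ(r) = sc + r τ`; `pts` is H14; for the circle, `r ↦ √ρ e^{ir}` is a covering:
if `Γ r` is near `Γ r₁` then `Γ r = Γ r'` with `r'` near `r₁` (use `Complex.arg` of `(Γ r - sc)/(Γ r₁ - sc)`). -/
theorem curve_of_conj {d : ℕ} (hd : 0 < d) (n m : Polynomial (KF d)) (hcop : IsCoprime n m) (T : Set ℂ) (hinf : T.Infinite)
    (h : ∀ s ∈ T, Polynomial.aeval s m ≠ 0 ∧ (starRingEnd ℂ) s = Polynomial.aeval s n / Polynomial.aeval s m) :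
    ∃ Γ : ℂ → ℂ, Differentiable ℂ Γ ∧ (∀ r : ℝ, deriv Γ r ≠ 0) ∧ (∀ s ∈ T, ∃ r : ℝ, Γ r = s) ∧
      (∀ r₁ : ℝ, ∀ ε > 0, ∃ δ > 0, ∀ r : ℝ, ‖Γ r - Γ r₁‖ < δ → ∃ r' : ℝ, |r' - r₁| < ε ∧ Γ r' = Γ r) ∧
      (∀ r₁ r₁' : ℝ, ∀ ε > 0, ∃ D : ℕ, ¬ IsSquare D ∧ ∃ α ∈ KF d, ∃ β ∈ KF d, ∃ r : ℝ, |r - r₁| < ε ∧
        α + β * Real.sqrt D = Γ r ∧ ‖α - β * Real.sqrt D - Γ r₁'‖ < ε) := by
  obtain ⟨hn, hm⟩ := conj_degree n m hcop T hinf h
  have hev : ∀ (p : Polynomial (KF d)) (s : ℂ), p.natDegree ≤ 1 →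
      Polynomial.aeval s p = (p.coeff 1 : ℂ) * s + (p.coeff 0 : ℂ) := by
    intro p s hp
    conv_lhs => rw [Polynomial.eq_X_add_C_of_natDegree_le_one hp]
    rw [map_add, map_mul, Polynomial.aeval_C, Polynomial.aeval_X, Polynomial.aeval_C]
    rfl
  have hT : ∀ s ∈ T, (m.coeff 1 : ℂ) * s + (m.coeff 0 : ℂ) ≠ 0 ∧
      (starRingEnd ℂ) s * ((m.coeff 1 : ℂ) * s + (m.coeff 0 : ℂ)) =
        (n.coeff 1 : ℂ) * s + (n.coeff 0 : ℂ) := by
    intro s hs
    obtain ⟨h1, h2⟩ := h s hs
    rw [hev m s hm] at h1 h2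
    rw [hev n s hn] at h2
    refine ⟨h1, ?_⟩
    rw [h2, div_mul_cancel₀ _ h1]
  rcases circle_or_line hd _ _ _ _ (n.coeff 1).2 (n.coeff 0).2 (m.coeff 1).2 (m.coeff 0).2 T hinf hT with
    ⟨sc, hsc, ρ, hρ, hon⟩ | ⟨sc, hsc, τ, hτ, hτ0, hon⟩
  · have hρ' : (0 : ℝ) < ρ := by exact_mod_cast hρ
    set R : ℝ := Real.sqrt ρ with hR
    have hR0 : 0 < R := Real.sqrt_pos.2 hρ'
    have hR2 : R ^ 2 = (ρ : ℝ) := Real.sq_sqrt hρ'.le
    have hcirc : ∀ r : ℝ, ‖(sc + R * Complex.exp (r * I)) - sc‖ ^ 2 = (ρ : ℝ) := by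
      intro r
      rw [add_sub_cancel_left, norm_mul, Complex.norm_exp_ofReal_mul_I, mul_one, Complex.norm_real,
        Real.norm_eq_abs, abs_of_pos hR0, hR2]
    refine ⟨fun z => sc + R * Complex.exp (z * I), ?_, ?_, ?_, ?_, ?_⟩
    · exact (differentiable_const _).add
        ((differentiable_const _).mul ((differentiable_id.mul_const I).cexp))
    · intro r
      have hder : HasDerivAt (fun z : ℂ => sc + R * Complex.exp (z * I))
          (R * (Complex.exp (r * I) * (1 * I))) (r : ℂ) := by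
        exact (((hasDerivAt_id (r : ℂ)).mul_const I).cexp.const_mul (R : ℂ)).const_add sc
      rw [hder.deriv]
      refine mul_ne_zero ?_ (mul_ne_zero (Complex.exp_ne_zero _) (by simp))
      exact_mod_cast hR0.ne'
    · intro s hs
      exact h16_surj hR0 sc s (by rw [hon s hs, hR2])
    · intro r₁ ε hε
      exact h16_loc hR0 sc r₁ ε hε
    · intro r₁ r₁' ε hε
      obtain ⟨δ, hδ, hloc⟩ := h16_loc hR0 sc r₁ ε hε
      obtain ⟨D, hD, α, hα, β, hβ, h1, h2, h3⟩ := circle_pts hd sc hsc ρ hρ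
        (sc + R * Complex.exp (r₁ * I)) (sc + R * Complex.exp (r₁' * I)) (hcirc r₁) (hcirc r₁')
        (min ε δ) (lt_min hε hδ)
      obtain ⟨r, hr⟩ := h16_surj hR0 sc (α + β * Real.sqrt D) (by rw [h1, hR2])
      obtain ⟨r', hr', hr'2⟩ := hloc r (by rw [hr]; exact h2.trans_le (min_le_right _ _))
      exact ⟨D, hD, α, hα, β, hβ, r', hr', hr.symm.trans hr'2.symm, h3.trans_le (min_le_left _ _)⟩
  · refine ⟨fun z => sc + z * τ, ?_, ?_, ?_, ?_, ?_⟩
    · exact (differentiable_const _).add (differentiable_id.mul_const τ)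
    · intro r
      have hder : HasDerivAt (fun z : ℂ => sc + z * τ) (1 * τ) (r : ℂ) :=
        ((hasDerivAt_id (r : ℂ)).mul_const τ).const_add sc
      rw [hder.deriv, one_mul]
      exact hτ0
    · intro s hs
      obtain ⟨r, hr⟩ := hon s hs
      exact ⟨r, hr.symm⟩
    · intro r₁ ε hε
      have hτn : 0 < ‖τ‖ := norm_pos_iff.2 hτ0
      refine ⟨ε * ‖τ‖, by positivity, fun r hr => ⟨r, ?_, rfl⟩⟩
      have e : (sc + (r : ℂ) * τ) - (sc + (r₁ : ℂ) * τ) = ((r - r₁ : ℝ) : ℂ) * τ := by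
        push_cast
        ring
      simp only [e] at hr
      rw [norm_mul, Complex.norm_real, Real.norm_eq_abs] at hr
      exact lt_of_mul_lt_mul_right hr hτn.le
    · intro r₁ r₁' ε hε
      obtain ⟨D, hD, α, hα, β, hβ, r, h1, h2, h3⟩ := line_pts hd sc τ hsc hτ r₁ r₁' ε hε
      exact ⟨D, hD, α, hα, β, hβ, r, h1, h2, h3⟩

end Pool.Agent.MSD
end

end

section

/-! # M02: the restricted functions (MP_f58a57_nt) -/

open Complex ModularForm EisensteinSeries Filter
open UpperHalfPlane hiding I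
open scoped Topology MatrixGroups Polynomial

noncomputable section

namespace Pool.Agent.MSD

theorem m02_kr_eval {s d : ℕ} (U : MvPolynomial (Fin s) (KF d)) (p : Fin s → ℚ) (N : ℕ) (x : ℂ) :
    (kr p N U).eval₂ (algebraMap (KF d) ℂ) x =
      MvPolynomial.aeval (fun l : Fin s => ((p l : ℂ) + x ^ (N ^ (l.val + 1)))) U := by
  have h : (Polynomial.aeval x : Polynomial (KF d) →ₐ[KF d] ℂ).comp (kr p N) =
      MvPolynomial.aeval (fun l : Fin s => ((p l : ℂ) + x ^ (N ^ (l.val + 1)))) := by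
    refine MvPolynomial.algHom_ext fun l => ?_
    simp [kr]
  have h2 := DFunLike.congr_fun h U
  simpa [Polynomial.aeval_def] using h2

theorem m02_dn {d : ℕ} (q : Polynomial (KF d)) (x : ℂ) :
    dn (algebraMap (Polynomial (KF d)) (RatFunc (KF d)) q) x = 1 := by
  unfold dn
  rw [RatFunc.denom_algebraMap]
  simp

theorem m02_evr {d : ℕ} (q : Polynomial (KF d)) (x : ℂ) :
    evr (algebraMap (Polynomial (KF d)) (RatFunc (KF d)) q) x = q.eval₂ (algebraMap (KF d) ℂ) x := by
  unfold evr RatFunc.eval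
  rw [RatFunc.denom_algebraMap, RatFunc.num_algebraMap]
  simp

theorem m02_kr_ne {s d : ℕ} (V : MvPolynomial (Fin s) (KF d)) (p : Fin s → ℚ) (N : ℕ)
    (hV : ∀ m ∈ V.support, ∀ l, m l < N) (hV0 : V ≠ 0) :
    algebraMap (Polynomial (KF d)) (RatFunc (KF d)) (kr p N V) ≠ 0 := by
  intro h
  rw [map_eq_zero_iff _ (IsFractionRing.injective (Polynomial (KF d)) (RatFunc (KF d)))] at h
  exact hV0 (kron_inj p N V hV h)

theorem m02_sub {s d : ℕ} (P Q : MvPolynomial (Fin s) (KF d)) (M : ℕ)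
    (hP : ∀ m ∈ P.support, ∀ l, m l < M) (hQ : ∀ m ∈ Q.support, ∀ l, m l < M) :
    ∀ m ∈ (P - Q).support, ∀ l, m l < M := by
  intro m hm l
  have h := MvPolynomial.support_sub _ P Q hm
  rcases Finset.mem_union.mp h with h | h
  · exact hP m h l
  · exact hQ m h l

theorem m02_add {s d : ℕ} (P Q : MvPolynomial (Fin s) (KF d)) (M : ℕ)
    (hP : ∀ m ∈ P.support, ∀ l, m l < M) (hQ : ∀ m ∈ Q.support, ∀ l, m l < M) :
    ∀ m ∈ (P + Q).support, ∀ l, m l < M := by
  intro m hm l
  have h := MvPolynomial.support_add hm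
  rcases Finset.mem_union.mp h with h | h
  · exact hP m h l
  · exact hQ m h l

theorem m02_C_mul {s d : ℕ} (c : KF d) (P : MvPolynomial (Fin s) (KF d)) (M : ℕ)
    (hP : ∀ m ∈ P.support, ∀ l, m l < M) :
    ∀ m ∈ (MvPolynomial.C c * P).support, ∀ l, m l < M := by
  intro m hm l
  refine hP m ?_ l
  rw [MvPolynomial.mem_support_iff, MvPolynomial.coeff_C_mul] at hm
  rw [MvPolynomial.mem_support_iff]
  exact right_ne_zero_of_mul hm

theorem m02_mul {s d : ℕ} (P Q : MvPolynomial (Fin s) (KF d)) (M : ℕ)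
    (hP : ∀ m ∈ P.support, ∀ l, m l < M) (hQ : ∀ m ∈ Q.support, ∀ l, m l < M) :
    ∀ m ∈ (P * Q).support, ∀ l, m l < 2 * M := by
  intro m hm l
  have h := MvPolynomial.support_mul P Q hm
  obtain ⟨m1, h1, m2, h2, rfl⟩ := Finset.mem_add.mp h
  have := hP m1 h1 l
  have := hQ m2 h2 l
  simp only [Finsupp.add_apply]
  omega

/-- M02a. PROOF. `aeval x (kr p N U) = aeval (p_l + x^(N^(l+1))) U` (`MvPolynomial.aeval`/`Polynomial.aeval` composition); so `kr p N V ≠ 0` and its value at `x` is not `0`; use `evr_div`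
(the functions `algebraMap q` have denominator `1`). -/
theorem rho_eval {s d : ℕ} (U V : MvPolynomial (Fin s) (KF d)) (p : Fin s → ℚ) (N : ℕ) (x : ℂ)
    (hx : MvPolynomial.aeval (fun l : Fin s => ((p l : ℂ) + x ^ (N ^ (l.val + 1)))) V ≠ 0) :
    dn (rho U V p N) x ≠ 0 ∧ evr (rho U V p N) x = MvPolynomial.aeval (fun l : Fin s => ((p l : ℂ) + x ^ (N ^ (l.val + 1)))) U /
      MvPolynomial.aeval (fun l : Fin s => ((p l : ℂ) + x ^ (N ^ (l.val + 1)))) V := by
  have h := evr_div (algebraMap (Polynomial (KF d)) (RatFunc (KF d)) (kr p N U))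
    (algebraMap (Polynomial (KF d)) (RatFunc (KF d)) (kr p N V)) x (by rw [m02_dn]; exact one_ne_zero)
    (by rw [m02_dn]; exact one_ne_zero) (by rw [m02_evr, m02_kr_eval]; exact hx)
  rw [m02_evr, m02_evr, m02_kr_eval, m02_kr_eval] at h
  exact h

/-- M02b. PROOF. If `rho = c` then `kr (U - c V) = 0`, so `U = c V` by `kron_inj`. -/
theorem rho_nonconst {s d : ℕ} (U V : MvPolynomial (Fin s) (KF d)) (p : Fin s → ℚ) (N : ℕ) (hU : ∀ m ∈ U.support, ∀ l, m l < N)
    (hV : ∀ m ∈ V.support, ∀ l, m l < N) (hV0 : V ≠ 0) (h : ¬ ∃ c, U = MvPolynomial.C c * V) :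
    ¬ ∃ c, rho U V p N = RatFunc.C c := by
  rintro ⟨c, hc⟩
  apply h
  refine ⟨c, ?_⟩
  have hVn := m02_kr_ne V p N hV hV0
  have hinj := IsFractionRing.injective (Polynomial (KF d)) (RatFunc (KF d))
  unfold rho at hc
  rw [div_eq_iff hVn, ← RatFunc.algebraMap_C, ← map_mul] at hc
  have h1 := hinj hc
  have h2 : kr p N (U - MvPolynomial.C c * V) = 0 := by
    rw [map_sub, map_mul, h1]
    simp [kr]
  have h3 := kron_inj p N _ (m02_sub U _ N hU (m02_C_mul c V N hV)) h2
  exact sub_eq_zero.mp h3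

/-- M02c. PROOF. A relation `GRel` gives, multiplied by the denominators, `kr (U' (c U + e V) - V' (a U + b V)) = 0`; the exponents of this polynomial are `< 2 M ≤ N`; `kron_inj`. -/
theorem rho_rel {s d : ℕ} (U V U' V' : MvPolynomial (Fin s) (KF d)) (p : Fin s → ℚ) (M N : ℕ) (hMN : 2 * M ≤ N)
    (hU : ∀ m ∈ U.support, ∀ l, m l < M) (hV : ∀ m ∈ V.support, ∀ l, m l < M) (hU' : ∀ m ∈ U'.support, ∀ l, m l < M)
    (hV' : ∀ m ∈ V'.support, ∀ l, m l < M) (hV0 : V ≠ 0) (hV0' : V' ≠ 0) (h : ¬ PRel U V U' V') :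
    ¬ GRel (rho U V p N) (rho U' V' p N) := by
  rintro ⟨a, b, c, e, hdet, hrel⟩
  apply h
  refine ⟨a, b, c, e, hdet, ?_⟩
  have hVn := m02_kr_ne V p N (fun m hm l => by have := hV m hm l; omega) hV0
  have hVn' := m02_kr_ne V' p N (fun m hm l => by have := hV' m hm l; omega) hV0'
  have hinj := IsFractionRing.injective (Polynomial (KF d)) (RatFunc (KF d))
  unfold rho at hrel
  have hr2 : algebraMap (Polynomial (KF d)) (RatFunc (KF d)) (kr p N U') *
      (RatFunc.C (c : KF d) * algebraMap (Polynomial (KF d)) (RatFunc (KF d)) (kr p N U) +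
        RatFunc.C (e : KF d) * algebraMap (Polynomial (KF d)) (RatFunc (KF d)) (kr p N V)) =
      algebraMap (Polynomial (KF d)) (RatFunc (KF d)) (kr p N V') *
      (RatFunc.C (a : KF d) * algebraMap (Polynomial (KF d)) (RatFunc (KF d)) (kr p N U) +
        RatFunc.C (b : KF d) * algebraMap (Polynomial (KF d)) (RatFunc (KF d)) (kr p N V)) := by
    field_simp at hrel
    linear_combination hrel
  rw [← RatFunc.algebraMap_C, ← RatFunc.algebraMap_C, ← RatFunc.algebraMap_C, ← RatFunc.algebraMap_C,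
    ← map_mul, ← map_mul, ← map_mul, ← map_mul, ← map_add, ← map_add, ← map_mul, ← map_mul] at hr2
  have h1 := hinj hr2
  have hk : ∀ q : KF d, kr p N (MvPolynomial.C q) = Polynomial.C q := by
    intro q
    simp [kr]
  have h2 : kr p N (U' * (MvPolynomial.C (c : KF d) * U + MvPolynomial.C (e : KF d) * V) -
      V' * (MvPolynomial.C (a : KF d) * U + MvPolynomial.C (b : KF d) * V)) = 0 := by
    rw [map_sub, map_mul, map_mul, map_add, map_add, map_mul, map_mul, map_mul, map_mul, hk, hk, hk,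
      hk, h1, sub_self]
  have h3 := kron_inj p N _ (fun m hm l => by
    have := m02_sub _ _ (2 * M)
      (m02_mul U' _ M hU' (m02_add _ _ M (m02_C_mul (c : KF d) U M hU) (m02_C_mul (e : KF d) V M hV)))
      (m02_mul V' _ M hV' (m02_add _ _ M (m02_C_mul (a : KF d) U M hU) (m02_C_mul (b : KF d) V M hV)))
      m hm l
    omega) h2
  exact sub_eq_zero.mp h3

end Pool.Agent.MSD
end

end

section

/-! # H18: common quadratic points on an arc (MP_f58a57_nt) -/

open Complex ModularForm EisensteinSeries Filter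
open UpperHalfPlane hiding I
open scoped Topology MatrixGroups Polynomial

noncomputable section

namespace Pool.Agent.MSD

/-- `s = X + Y √D`, `s' = X - Y √D` with `X, Y ∈ KF d` -/
def h18_QP (d D : ℕ) (s s' : ℂ) : Prop :=
  ∃ X ∈ KF d, ∃ Y ∈ KF d, s = X + Y * Real.sqrt D ∧ s' = X - Y * Real.sqrt D

theorem h18_sq (D : ℕ) : ((Real.sqrt D : ℝ) : ℂ) * ((Real.sqrt D : ℝ) : ℂ) = (D : ℂ) := by
  rw [← Complex.ofReal_mul, Real.mul_self_sqrt (by positivity)]
  simp

theorem h18_QP_add {d D : ℕ} {s s' t t' : ℂ} (h : h18_QP d D s s') (h' : h18_QP d D t t') :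
    h18_QP d D (s + t) (s' + t') := by
  obtain ⟨X, hX, Y, hY, h1, h2⟩ := h
  obtain ⟨Z, hZ, W, hW, h3, h4⟩ := h'
  refine ⟨X + Z, add_mem hX hZ, Y + W, add_mem hY hW, ?_, ?_⟩
  · rw [h1, h3]; ring
  · rw [h2, h4]; ring

theorem h18_QP_mul {d D : ℕ} {s s' t t' : ℂ} (h : h18_QP d D s s') (h' : h18_QP d D t t') :
    h18_QP d D (s * t) (s' * t') := by
  obtain ⟨X, hX, Y, hY, h1, h2⟩ := h
  obtain ⟨Z, hZ, W, hW, h3, h4⟩ := h'
  have hD : ((D : ℕ) : ℂ) ∈ KF d := natCast_mem _ D
  refine ⟨X * Z + Y * W * D, add_mem (mul_mem hX hZ) (mul_mem (mul_mem hY hW) hD),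
    X * W + Y * Z, add_mem (mul_mem hX hW) (mul_mem hY hZ), ?_, ?_⟩
  · rw [h1, h3]; linear_combination (Y * W) * h18_sq D
  · rw [h2, h4]; linear_combination (Y * W) * h18_sq D

theorem h18_QP_const {d D : ℕ} (c : KF d) : h18_QP d D (c : ℂ) (c : ℂ) :=
  ⟨c, c.2, 0, zero_mem _, by simp, by simp⟩

theorem h18_QP_inv {d D : ℕ} {s s' : ℂ} (h : h18_QP d D s s') (hs : s ≠ 0) (hs' : s' ≠ 0) :
    h18_QP d D s⁻¹ s'⁻¹ := by
  obtain ⟨X, hX, Y, hY, h1, h2⟩ := h
  have hD : ((D : ℕ) : ℂ) ∈ KF d := natCast_mem _ D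
  have h3 : s * s' = X * X - Y * Y * D := by
    rw [h1, h2]; linear_combination (-Y * Y) * h18_sq D
  have h4 : s * s' ≠ 0 := mul_ne_zero hs hs'
  have hN : (s * s') ∈ KF d := by
    rw [h3]
    exact sub_mem (mul_mem hX hX) (mul_mem (mul_mem hY hY) hD)
  refine ⟨X * (s * s')⁻¹, mul_mem hX (inv_mem hN), -Y * (s * s')⁻¹,
    mul_mem (neg_mem hY) (inv_mem hN), ?_, ?_⟩
  · have h5 : s⁻¹ = s' * (s * s')⁻¹ := by field_simp
    calc s⁻¹ = s' * (s * s')⁻¹ := h5
      _ = (X - Y * Real.sqrt D) * (s * s')⁻¹ := by rw [← h2]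
      _ = _ := by ring
  · have h5 : s'⁻¹ = s * (s * s')⁻¹ := by field_simp
    calc s'⁻¹ = s * (s * s')⁻¹ := h5
      _ = (X + Y * Real.sqrt D) * (s * s')⁻¹ := by rw [← h1]
      _ = _ := by ring

theorem h18_QP_aeval {d D : ℕ} {s s' : ℂ} (h : h18_QP d D s s') (p : Polynomial (KF d)) :
    h18_QP d D (Polynomial.aeval s p) (Polynomial.aeval s' p) := by
  induction p using Polynomial.induction_on' with
  | add p q hp hq => rw [map_add, map_add]; exact h18_QP_add hp hq
  | monomial n a =>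
    rw [Polynomial.aeval_monomial, Polynomial.aeval_monomial]
    refine h18_QP_mul (h18_QP_const a) ?_
    induction n with
    | zero =>
      rw [pow_zero, pow_zero]
      exact ⟨1, one_mem _, 0, zero_mem _, by simp, by simp⟩
    | succ n ih => rw [pow_succ, pow_succ]; exact h18_QP_mul ih h

/-- real elements `X + Y √D`, `X, Y ∈ KF d` -/
theorem h18_QP_real {d D : ℕ} (hd : 0 < d) (hD : ¬ IsSquare D) {s s' : ℂ} (h : h18_QP d D s s')
    (hs : s.im = 0) (hne : s ≠ s') :
    ∃ a b : ℚ, b ≠ 0 ∧ s = ((a + b * Real.sqrt D : ℝ) : ℂ) := by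
  obtain ⟨X, hX, Y, hY, h1, h2⟩ := h
  obtain ⟨u, v, hX'⟩ := (mem_KF d X).mp hX
  obtain ⟨u', v', hY'⟩ := (mem_KF d Y).mp hY
  have hirr : Irrational (Real.sqrt D) := by
    rw [irrational_sqrt_natCast_iff]
    exact hD
  have h3 : s.im = (v + v' * Real.sqrt D) * Real.sqrt d := by
    rw [h1, hX', hY']
    simp [rt]
    ring
  have hd' : Real.sqrt d ≠ 0 := by
    have : (0 : ℝ) < d := by exact_mod_cast hd
    positivity
  have h4 : (v : ℝ) + v' * Real.sqrt D = 0 := by
    rw [h3] at hs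
    rcases mul_eq_zero.mp hs with h | h
    · exact h
    · exact absurd h hd'
  have hv' : v' = 0 := by
    by_contra hne'
    apply hirr
    refine ⟨-v / v', ?_⟩
    have : (v' : ℝ) ≠ 0 := by exact_mod_cast hne'
    push_cast
    field_simp
    linarith
  have hv : v = 0 := by
    rw [hv'] at h4
    simpa using h4
  rw [hv] at hX'
  rw [hv'] at hY'
  refine ⟨u, u', ?_, ?_⟩
  · intro h5
    apply hne
    rw [h1, h2, hY', h5]
    simp
  · rw [h1, hX', hY']
    push_cast
    ring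

/-- perfectness of the arc -/
theorem h18_perfect (f : ℂ → ℂ) (x : ℂ) (hf : AnalyticAt ℂ f x) (hd : deriv f x ≠ 0) (hx : (f x).im = 0)
    (W : Set ℂ) (hW : W ∈ 𝓝 x) : ∃ y ∈ W, y ≠ x ∧ (f y).im = 0 := by
  have h1 : map f (𝓝 x) = 𝓝 (f x) := hf.hasStrictDerivAt.map_nhds_eq hd
  have h2 : f '' W ∈ 𝓝 (f x) := by
    rw [← h1]
    exact image_mem_map hW
  obtain ⟨ε, hε, hb⟩ := Metric.mem_nhds_iff.mp h2
  have h3 : f x + ((ε / 2 : ℝ) : ℂ) ∈ Metric.ball (f x) ε := by
    rw [Metric.mem_ball, dist_eq_norm, add_sub_cancel_left, Complex.norm_real, Real.norm_eq_abs,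
      abs_of_pos (by positivity)]
    linarith
  obtain ⟨y, hy, hy'⟩ := hb h3
  refine ⟨y, hy, ?_, ?_⟩
  · rintro rfl
    have : ((ε / 2 : ℝ) : ℂ) = 0 := by
      have h4 := hy'
      nth_rewrite 1 [← add_zero (f y)] at h4
      exact (add_left_cancel h4).symm
    have h5 : ε / 2 = 0 := by exact_mod_cast this
    linarith
  · rw [hy', Complex.add_im, hx, Complex.ofReal_im, add_zero]

theorem h18_infinite (A : Set ℂ) (x : ℂ) (h : ∀ W ∈ 𝓝 x, ∃ y ∈ W, y ≠ x ∧ y ∈ A) : A.Infinite := by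
  intro hA
  have h1 : (A \ {x})ᶜ ∈ 𝓝 x := by
    refine (hA.subset Set.sdiff_subset).isClosed.isOpen_compl.mem_nhds ?_
    simp
  obtain ⟨y, hy, hne, hyA⟩ := h _ h1
  exact hy ⟨hyA, hne⟩

/-- values of `R = p(g)/q(g)` -/
theorem h18_val {d : ℕ} (R g : RatFunc (KF d)) (p q : Polynomial (KF d))
    (h : R = Polynomial.aeval g p / Polynomial.aeval g q) (x : ℂ) (hx : dn g x ≠ 0)
    (hq : Polynomial.aeval (evr g x) q ≠ 0) :
    evr R x = Polynomial.aeval (evr g x) p / Polynomial.aeval (evr g x) q := by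
  have h1 := evr_aeval g p x hx
  have h2 := evr_aeval g q x hx
  rw [h, (evr_div _ _ x h1.1 h2.1 (by rw [h2.2]; exact hq)).2, h1.2, h2.2]

theorem h18_zero_finite {d : ℕ} (g : RatFunc (KF d)) (q : Polynomial (KF d))
    (hq : Polynomial.aeval g q ≠ 0) :
    {x : ℂ | dn g x ≠ 0 ∧ Polynomial.aeval (evr g x) q = 0}.Finite := by
  by_contra hinf
  apply hq
  refine evr_inj _ _ (Set.Infinite.mono ?_ hinf)
  intro x hx
  have h1 := evr_aeval g q x hx.1
  show evr (Polynomial.aeval g q) x = evr 0 x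
  rw [h1.2, hx.2]
  simp [evr]

theorem h18_analytic {d : ℕ} (p : Polynomial (KF d)) (s : ℂ) :
    AnalyticAt ℂ (fun s : ℂ => Polynomial.aeval s p) s := by
  have h1 : (fun s : ℂ => Polynomial.aeval s p) = fun s : ℂ => (p.map (algebraMap (KF d) ℂ)).eval s := by
    funext s
    rw [Polynomial.eval_map, Polynomial.aeval_def]
  rw [h1]
  exact (Polynomial.differentiable _).analyticAt s

theorem h18_const {d : ℕ} (R : RatFunc (KF d)) (x : ℂ) (h : deriv (evr R) x ≠ 0) :
    ¬ ∃ c, R = RatFunc.C c := by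
  rintro ⟨c, rfl⟩
  apply h
  have h1 : evr (RatFunc.C c : RatFunc (KF d)) = fun _ => algebraMap (KF d) ℂ c := by
    funext y
    simp [evr]
  rw [h1]
  simp

/-- H18. The rational functions `R i` over `K = ℚ(√(-d))` are real on a common arc through `x₁`. Near `x₁` there is a point `y` of the arc where all `R i (y)` are irrational elements of one
real quadratic field. PROOF. Let `A` be the set of points `x` near `x₁` (in a small disc where all `evr (R i)` are analytic and the arcs coincide) with `R i (x)` real; `A` is infinite and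
has no isolated points (`evr (R i₀)` is a local homeomorphism at `x₁`, `deriv ≠ 0`). Take `g, p_i, q_i` from H10, `n, m` from H11. Let `Σ = g(A ∖ finite)`, infinite by `evr_fiber_finite`; H16 gives
`Γ`. Choose `x₁' ∈ A ∩ U` off the finite set where `g` has a pole or `deriv (evr g) = 0` or `q_i(g(x)) = 0` or the relation fails. `s₁ = g(x₁') = Γ(r₁)`. `β_i(s) = p_i(s)/q_i(s)` is analytic near
`s₁` and `R i (x) = β_i(g x)` near `x₁'`. The points `g(x)`, `x ∈ A` near `x₁'`, are `Γ(r)` with `r` near `r₁` (`loc`), different from `s₁`; there `β_i` is real; by H17 `β_i(Γ r)` is real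
for all real `r` near `r₁`. Choose `r₁'` with `q_i(Γ r₁') ≠ 0` and `β_i(Γ r₁') ≠ β_i(s₁)` for all `i` (finitely many exceptions for `Γ r₁'`: `β_i` is not constant because `R i` is not; and `Γ` takes infinitely
many values). `pts` gives `D, α, β` with `α + β√D = Γ r` near `s₁` and `α - β√D` near `Γ r₁'`; by continuity `q_i ≠ 0` at both points and `β_i(α + β√D) ≠ β_i(α - β√D)`. Now
`β_i(α + β√D) = x + y√D`, `β_i(α - β√D) = x - y√D` with `x, y ∈ K` (arithmetic in `K(√D)`, rational functions with coefficients in `K`); the first is real, so `x, y` are rational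
(`Im x + √D Im y = 0` with `Im x, Im y ∈ ℚ √d`, and `√D` is irrational, so both vanish, `KF_real`), and `y ≠ 0`. Finally `Γ r` is near `s₁`, so `Γ r = g(y₀)` with `y₀` near `x₁'`
(`g` is a local homeomorphism at `x₁'`), and `R i (y₀) = β_i(Γ r)`. -/
theorem quad_points {d : ℕ} (hd : 0 < d) {S : Type} [Finite S] [Nonempty S] (R : S → RatFunc (KF d)) (x₁ : ℂ)
    (hdn : ∀ i, dn (R i) x₁ ≠ 0) (hreal : ∀ i, (evr (R i) x₁).im = 0) (hder : ∀ i, deriv (evr (R i)) x₁ ≠ 0)
    (harc : ∀ i j, SameArc (evr (R i)) (evr (R j)) x₁) (U : Set ℂ) (hU : U ∈ 𝓝 x₁) :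
    ∃ y ∈ U, ∃ D : ℕ, ¬ IsSquare D ∧ ∀ i, ∃ a b : ℚ, b ≠ 0 ∧ evr (R i) y = ((a + b * Real.sqrt D : ℝ) : ℂ) := by
  classical
  obtain ⟨i₀⟩ := ‹Nonempty S›
  have : Nonempty S := ⟨i₀⟩
  have hcon : ∀ i, ¬ ∃ c, R i = RatFunc.C c := fun i => h18_const (R i) x₁ (hder i)
  -- the neighbourhood
  have hev : ∀ᶠ y in 𝓝 x₁, y ∈ U ∧ (∀ i, dn (R i) y ≠ 0) ∧
      (∀ i, (evr (R i₀) y).im = 0 → (evr (R i) y).im = 0) ∧ deriv (evr (R i₀)) y ≠ 0 := by
    refine (show ∀ᶠ y in 𝓝 x₁, y ∈ U from hU).and ((eventually_all.mpr fun i => dn_eventually (R i) x₁ (hdn i)).and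
      ((eventually_all.mpr fun i => harc i₀ i).and ?_))
    exact (evr_analytic (R i₀) x₁ (hdn i₀)).deriv.continuousAt.eventually_ne (hder i₀)
  obtain ⟨V, hV, hVo, hxV⟩ := eventually_nhds_iff.mp hev
  set A : Set ℂ := {x | x ∈ V ∧ (evr (R i₀) x).im = 0} with hA
  have hAreal : ∀ x ∈ A, ∀ i, (evr (R i) x).im = 0 := fun x hx i => (hV x hx.1).2.2.1 i hx.2
  have hperf : ∀ x ∈ A, ∀ W ∈ 𝓝 x, ∃ y ∈ W, y ≠ x ∧ y ∈ A := by
    intro x hx W hW
    obtain ⟨y, hy, hne, him⟩ := h18_perfect (evr (R i₀)) x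
      (evr_analytic (R i₀) x ((hV x hx.1).2.1 i₀)) (hV x hx.1).2.2.2 hx.2 (W ∩ V)
      (inter_mem hW (hVo.mem_nhds hx.1))
    exact ⟨y, hy.1, hne, hy.2, him⟩
  have hAinf : A.Infinite := h18_infinite A x₁ (hperf x₁ ⟨hxV, hreal i₀⟩)
  obtain ⟨g, hg, hRg, hgR⟩ := luroth_gen R hcon
  obtain ⟨n, m, hcop, hbad⟩ := conj_rel R g hg hRg hgR A hAinf hAreal
  choose p q hq0 hpq using hRg
  -- the exceptional set
  set E : Set ℂ := {x ∈ A | ¬ (Polynomial.aeval (evr g x) m ≠ 0 ∧
      (starRingEnd ℂ) (evr g x) = Polynomial.aeval (evr g x) n / Polynomial.aeval (evr g x) m)} ∪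
      ({x | dn g x = 0} ∪ ⋃ i, {x : ℂ | dn g x ≠ 0 ∧ Polynomial.aeval (evr g x) (q i) = 0}) with hE
  have hEfin : E.Finite := by
    refine hbad.union ((dn_finite g).union ?_)
    exact Set.finite_iUnion fun i => h18_zero_finite g (q i) (hq0 i)
  have hE1 : ∀ x ∈ A, x ∉ E → Polynomial.aeval (evr g x) m ≠ 0 ∧
      (starRingEnd ℂ) (evr g x) = Polynomial.aeval (evr g x) n / Polynomial.aeval (evr g x) m := by
    intro x hx hxE
    by_contra hcon'
    exact hxE (Or.inl ⟨hx, hcon'⟩)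
  have hE2 : ∀ x, x ∉ E → dn g x ≠ 0 := fun x hxE h => hxE (Or.inr (Or.inl h))
  have hE3 : ∀ x, x ∉ E → ∀ i, Polynomial.aeval (evr g x) (q i) ≠ 0 := by
    intro x hxE i h
    exact hxE (Or.inr (Or.inr (Set.mem_iUnion.mpr ⟨i, hE2 x hxE, h⟩)))
  have hval : ∀ x, x ∉ E → ∀ i, evr (R i) x =
      Polynomial.aeval (evr g x) (p i) / Polynomial.aeval (evr g x) (q i) :=
    fun x hxE i => h18_val (R i) g (p i) (q i) (hpq i) x (hE2 x hxE) (hE3 x hxE i)
  have hAE : (A \ E).Infinite := hAinf.sdiff hEfin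
  -- the set T
  set T : Set ℂ := evr g '' (A \ E) with hT
  have hTinf : T.Infinite := by
    intro hTf
    apply hAE
    have h1 : A \ E ⊆ ⋃ w ∈ T, {x : ℂ | dn g x ≠ 0 ∧ evr g x = w} := by
      intro x hx
      rw [Set.mem_iUnion₂]
      exact ⟨evr g x, ⟨x, hx, rfl⟩, hE2 x hx.2, rfl⟩
    exact (Set.Finite.biUnion hTf fun w _ => evr_fiber_finite g hg w).subset h1
  have hTrel : ∀ s ∈ T, Polynomial.aeval s m ≠ 0 ∧
      (starRingEnd ℂ) s = Polynomial.aeval s n / Polynomial.aeval s m := by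
    rintro s ⟨x, hx, rfl⟩
    exact hE1 x hx.1 hx.2
  obtain ⟨Γ, hΓd, hΓ', hΓT, hloc, hpts⟩ := curve_of_conj hd n m hcop T hTinf hTrel
  -- the points x₁' and x₂
  obtain ⟨x', hx'⟩ := hAE.nonempty
  obtain ⟨x₂, hx₂, hx₂ne⟩ : ∃ x₂ ∈ A \ E, ∀ i, evr (R i) x₂ ≠ evr (R i) x' := by
    have h1 : (⋃ i, {x : ℂ | dn (R i) x ≠ 0 ∧ evr (R i) x = evr (R i) x'}).Finite :=
      Set.finite_iUnion fun i => evr_fiber_finite (R i) (hcon i) _
    obtain ⟨x₂, h2, h3⟩ := (hAE.sdiff h1).nonempty
    refine ⟨x₂, h2, fun i h4 => h3 ?_⟩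
    exact Set.mem_iUnion.mpr ⟨i, (hV x₂ h2.1.1).2.1 i, h4⟩
  obtain ⟨r₁, hr₁⟩ := hΓT (evr g x') ⟨x', hx', rfl⟩
  obtain ⟨r₂, hr₂⟩ := hΓT (evr g x₂) ⟨x₂, hx₂, rfl⟩
  -- the functions β
  set β : S → ℂ → ℂ := fun i s => Polynomial.aeval s (p i) / Polynomial.aeval s (q i) with hβ
  have hβan : ∀ i s, Polynomial.aeval s (q i) ≠ 0 → AnalyticAt ℂ (β i) s := fun i s hs =>
    (h18_analytic (p i) s).div (h18_analytic (q i) s) hs
  have hq1 : ∀ i, Polynomial.aeval (evr g x') (q i) ≠ 0 := hE3 x' hx'.2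
  have hq2 : ∀ i, Polynomial.aeval (evr g x₂) (q i) ≠ 0 := hE3 x₂ hx₂.2
  have hgan : AnalyticAt ℂ (evr g) x' := evr_analytic g x' (hE2 x' hx'.2)
  -- near x' we are off E
  have hEnear : ∀ᶠ x in 𝓝 x', x ∉ E := hEfin.isClosed.isOpen_compl.mem_nhds hx'.2
  -- g has nonzero derivative at x'
  have hgder : deriv (evr g) x' ≠ 0 := by
    intro h0
    have h1 : evr (R i₀) =ᶠ[𝓝 x'] fun x => β i₀ (evr g x) := by
      filter_upwards [hEnear] with x hx
      exact hval x hx i₀
    have h2 : HasDerivAt (fun x => β i₀ (evr g x)) (deriv (β i₀) (evr g x') * deriv (evr g) x') x' :=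
      (hβan i₀ _ (hq1 i₀)).differentiableAt.hasDerivAt.comp x' hgan.differentiableAt.hasDerivAt
    have h3 := h1.deriv_eq
    rw [h2.deriv, h0, mul_zero] at h3
    exact (hV x' hx'.1.1).2.2.2 h3
  have hgmap : map (evr g) (𝓝 x') = 𝓝 (evr g x') := hgan.hasStrictDerivAt.map_nhds_eq hgder
  -- reality of β i (Γ r) near r₁
  have hfreq : ∀ i, ∀ᶠ r : ℝ in 𝓝 r₁, (β i (Γ r)).im = 0 := by
    intro i
    refine real_on_curve (β i) Γ r₁ (hΓd.analyticAt _) ?_ ?_
    · rw [hr₁]; exact hβan i _ (hq1 i)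
    · rw [Filter.frequently_iff]
      intro W hW
      obtain ⟨ε, hε, hball⟩ := Metric.mem_nhdsWithin_iff.mp hW
      obtain ⟨δ, hδ, hδ'⟩ := hloc r₁ ε hε
      have h1 : ∀ᶠ x in 𝓝 x', ‖evr g x - evr g x'‖ < δ := by
        have h2 : ∀ᶠ w in 𝓝 (evr g x'), ‖w - evr g x'‖ < δ := by
          have := Metric.ball_mem_nhds (evr g x') hδ
          filter_upwards [this] with w hw
          rwa [Metric.mem_ball, dist_eq_norm] at hw
        exact hgan.continuousAt.eventually h2
      have h3 : ∀ᶠ x in 𝓝 x', x ∉ ({x : ℂ | dn g x ≠ 0 ∧ evr g x = evr g x'} \ {x'}) := by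
        refine ((evr_fiber_finite g hg (evr g x')).subset Set.sdiff_subset).isClosed.isOpen_compl.mem_nhds ?_
        simp
      obtain ⟨y, hy, hyne, hyA⟩ := hperf x' hx'.1 _ ((hEnear.and (h1.and h3)))
      obtain ⟨hyE, hyd, hyf⟩ := hy
      have hgne : evr g y ≠ evr g x' := fun h4 => hyf ⟨⟨hE2 y hyE, h4⟩, hyne⟩
      obtain ⟨r, hr⟩ := hΓT (evr g y) ⟨y, ⟨hyA, hyE⟩, rfl⟩
      obtain ⟨r', hr', hr''⟩ := hδ' r (by rw [hr, hr₁]; exact hyd)
      refine ⟨r', hball ⟨?_, ?_⟩, ?_⟩
      · rw [Metric.mem_ball, Real.dist_eq]; exact hr'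
      · intro h5
        rw [Set.mem_singleton_iff] at h5
        apply hgne
        rw [← hr, ← hr'', h5, hr₁]
      · rw [hr'', hr]
        have := hval y hyE i
        rw [hβ]
        beta_reduce
        rw [← this]
        exact hAreal y hyA i
  -- separation
  have hβne : ∀ i, β i (evr g x') ≠ β i (evr g x₂) := by
    intro i h
    apply hx₂ne i
    rw [hval x₂ hx₂.2 i, hval x' hx'.2 i]
    exact h.symm
  have hsep : ∀ᶠ w : ℂ × ℂ in 𝓝 (evr g x', evr g x₂), ∀ i, Polynomial.aeval w.1 (q i) ≠ 0 ∧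
      Polynomial.aeval w.2 (q i) ≠ 0 ∧ β i w.1 ≠ β i w.2 := by
    refine eventually_all.mpr fun i => ?_
    have c1 : ContinuousAt (fun w : ℂ × ℂ => Polynomial.aeval w.1 (q i)) (evr g x', evr g x₂) :=
      ContinuousAt.comp (f := Prod.fst) (g := fun s : ℂ => Polynomial.aeval s (q i))
        (h18_analytic (q i) _).continuousAt continuousAt_fst
    have c2 : ContinuousAt (fun w : ℂ × ℂ => Polynomial.aeval w.2 (q i)) (evr g x', evr g x₂) :=
      ContinuousAt.comp (f := Prod.snd) (g := fun s : ℂ => Polynomial.aeval s (q i))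
        (h18_analytic (q i) _).continuousAt continuousAt_snd
    have c3 : ContinuousAt (fun w : ℂ × ℂ => β i w.1) (evr g x', evr g x₂) :=
      ContinuousAt.comp (f := Prod.fst) (g := β i)
        (hβan i _ (hq1 i)).continuousAt continuousAt_fst
    have c4 : ContinuousAt (fun w : ℂ × ℂ => β i w.2) (evr g x', evr g x₂) :=
      ContinuousAt.comp (f := Prod.snd) (g := β i)
        (hβan i _ (hq2 i)).continuousAt continuousAt_snd
    refine (c1.eventually_ne (hq1 i)).and ((c2.eventually_ne (hq2 i)).and ?_)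
    have c5 : ContinuousAt (fun w : ℂ × ℂ => β i w.1 - β i w.2) (evr g x', evr g x₂) := c3.sub c4
    filter_upwards [c5.eventually_ne (sub_ne_zero.mpr (hβne i))] with w hw h
    exact hw (sub_eq_zero.mpr h)
  obtain ⟨ε₁, hε₁, hball₁⟩ := Metric.eventually_nhds_iff_ball.mp hsep
  -- surjectivity of g near x'
  have hsurj : ∀ᶠ w in 𝓝 (evr g x'), ∃ y, y ∈ V ∧ y ∉ E ∧ evr g y = w := by
    have h1 : evr g '' {y | y ∈ V ∧ y ∉ E} ∈ 𝓝 (evr g x') := by
      rw [← hgmap]
      exact image_mem_map ((show ∀ᶠ y in 𝓝 x', y ∈ V from hVo.mem_nhds hx'.1.1).and hEnear)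
    filter_upwards [h1] with w hw
    obtain ⟨y, hy, hy'⟩ := hw
    exact ⟨y, hy.1, hy.2, hy'⟩
  have hΓc : ContinuousAt (fun r : ℝ => Γ r) r₁ :=
    (hΓd.continuous.comp Complex.continuous_ofReal).continuousAt
  have hclose : ∀ᶠ r : ℝ in 𝓝 r₁, (∀ i, (β i (Γ r)).im = 0) ∧
      (∃ y, y ∈ V ∧ y ∉ E ∧ evr g y = Γ r) ∧ dist (Γ r) (evr g x') < ε₁ := by
    refine (eventually_all.mpr hfreq).and (Filter.Eventually.and ?_ ?_)
    · have : ∀ᶠ w in 𝓝 (Γ r₁), ∃ y, y ∈ V ∧ y ∉ E ∧ evr g y = w := by rw [hr₁]; exact hsurj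
      exact hΓc.eventually this
    · have : ∀ᶠ w in 𝓝 (Γ r₁), dist w (evr g x') < ε₁ := by
        rw [hr₁]; exact Metric.ball_mem_nhds _ hε₁
      exact hΓc.eventually this
  obtain ⟨ε₂, hε₂, hball₂⟩ := Metric.eventually_nhds_iff_ball.mp hclose
  obtain ⟨D, hD, α, hα, b, hb, r, hr, hΓr, hnear⟩ := hpts r₁ r₂ (min ε₁ ε₂) (lt_min hε₁ hε₂)
  obtain ⟨hre, ⟨y, hyV, hyE, hgy⟩, hdist⟩ := hball₂ r (by
    rw [Metric.mem_ball, Real.dist_eq]; exact lt_of_lt_of_le hr (min_le_right _ _))
  have hQP : h18_QP d D (Γ r) (α - b * Real.sqrt D) := ⟨α, hα, b, hb, hΓr.symm, rfl⟩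
  have hpair := hball₁ (Γ r, α - b * Real.sqrt D) (by
    rw [Metric.mem_ball, Prod.dist_eq, max_lt_iff]
    refine ⟨hdist, ?_⟩
    show dist (α - b * Real.sqrt D) (evr g x₂) < ε₁
    rw [dist_eq_norm, ← hr₂]
    exact lt_of_lt_of_le hnear (min_le_left _ _))
  refine ⟨y, (hV y hyV).1, D, hD, fun i => ?_⟩
  obtain ⟨hqa, hqb, hne⟩ := hpair i
  have hQ : h18_QP d D (β i (Γ r)) (β i (α - b * Real.sqrt D)) := by
    rw [hβ]
    beta_reduce
    rw [div_eq_mul_inv, div_eq_mul_inv]
    exact h18_QP_mul (h18_QP_aeval hQP (p i)) (h18_QP_inv (h18_QP_aeval hQP (q i)) hqa hqb)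
  obtain ⟨u, v, hv, huv⟩ := h18_QP_real hd hD hQ (hre i) hne
  refine ⟨u, v, hv, ?_⟩
  rw [← huv, hval y hyE i, hgy]

end Pool.Agent.MSD
end

end
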