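import Mathlib

/-! # H23a: choice of the domains (MP_f58a57_nt) -/

open Complex ModularForm EisensteinSeries Filter
open UpperHalfPlane hiding I
open scoped Topology MatrixGroups Polynomial

noncomputable section

namespace Pool.Agent.MSD

/-- one function: for `‖W‖ < s` the value is near the positive number `c` and the derivative is bounded -/
theorem h23a_one (r : ℝ) (hr : 0 < r) (Ψ : ℂ → ℂ) (hΨ : AnalyticOnNhd ℂ Ψ (Metric.ball 0 r))
    (hre : (Ψ 0).im = 0) (hpos : 0 < (Ψ 0).re) :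
    ∃ s K : ℝ, 0 < s ∧ s ≤ r ∧ 0 < K ∧ ∀ W : ℂ, ‖W‖ < s →
      ‖Ψ W - ((Ψ 0).re : ℂ)‖ < (Ψ 0).re / 8 ∧ ‖deriv Ψ W‖ < K := by
  have h0 : (0 : ℂ) ∈ Metric.ball (0 : ℂ) r := by simpa using hr
  have hc : (Ψ 0) = ((Ψ 0).re : ℂ) := by
    apply Complex.ext
    · simp
    · simp [hre]
  have h1 : ContinuousAt (fun W => ‖Ψ W - ((Ψ 0).re : ℂ)‖) 0 :=
    ((hΨ 0 h0).continuousAt.sub continuousAt_const).norm
  have h2 : ContinuousAt (fun W => ‖deriv Ψ W‖) 0 := (hΨ 0 h0).deriv.continuousAt.norm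
  have h3 : ∀ᶠ W in 𝓝 (0 : ℂ), ‖Ψ W - ((Ψ 0).re : ℂ)‖ < (Ψ 0).re / 8 := by
    apply h1.eventually_lt continuousAt_const
    rw [← hc, sub_self, norm_zero]
    positivity
  have h4 : ∀ᶠ W in 𝓝 (0 : ℂ), ‖deriv Ψ W‖ < ‖deriv Ψ 0‖ + 1 := by
    apply h2.eventually_lt continuousAt_const
    linarith
  obtain ⟨s, hs, hs'⟩ := Metric.eventually_nhds_iff.mp (h3.and h4)
  refine ⟨min s r, ‖deriv Ψ 0‖ + 1, lt_min hs hr, min_le_right _ _, by positivity, fun W hW => ?_⟩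
  have := hs' (y := W) (by rw [dist_zero_right]; exact lt_of_lt_of_le hW (min_le_left _ _))
  exact this

/-- H23a. Choice of the domains. PROOF. `Ψ_i` is continuous at `0` with `Ψ_i(0) = c_i > 0`: for `|W| < r₁` (`r₁ ≤ r`) `|Ψ_i(W) - c_i| < c_i/8` and `|Ψ_i'(W)| ≤ K`. Choose `et` with `2 et (c_i + c_i/8) < 1/2` for all `i`,
then `r₀ < 1` with `2 et r₀ < r₁` and `2 et r₀ K < c_i/8`. `deriv (V ↦ V Ψ(δV)) = Ψ(δV) + V δ Ψ'(δV) ≠ 0`. For `|V - iet| < et/2`: `Im (V Ψ) ≥ c_i et/2 - (3et/2) c_i/8 > 0`; for `V = - iet`: `< 0`. -/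
theorem hyp_geom {S : Type} [Finite S] (r : ℝ) (hr : 0 < r) (Ψ : S → ℂ → ℂ) (hΨ : ∀ i, AnalyticOnNhd ℂ (Ψ i) (Metric.ball 0 r))
    (hre : ∀ i, ∀ u : ℝ, |u| < r → (Ψ i u).im = 0) (hpos : ∀ i, 0 < (Ψ i 0).re) (r₃ : ℝ) (hr₃ : 0 < r₃) :
    ∃ et r₀ : ℝ, 0 < et ∧ 0 < r₀ ∧ r₀ < 1 ∧ 2 * et * r₀ < r ∧ 2 * et * r₀ < r₃ ∧
      (∀ δ : ℂ, ‖δ‖ < r₀ → ∀ V : ℂ, ‖V‖ < 2 * et → ∀ i, ‖V * Ψ i (δ * V)‖ < 1 / 2 ∧ deriv (fun V => V * Ψ i (δ * V)) V ≠ 0) ∧
      (∀ δ : ℂ, ‖δ‖ < r₀ → ∀ V ∈ Metric.ball (I * et) (et / 2), ∀ i, 0 < (V * Ψ i (δ * V)).im) ∧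
      (∀ δ : ℂ, ‖δ‖ < r₀ → ∀ i, (-(I * et) * Ψ i (δ * -(I * et))).im < 0) := by
  have hre0 : ∀ i, (Ψ i 0).im = 0 := fun i => by
    have := hre i 0 (by simpa using hr)
    simpa using this
  choose s K hs0 hsr hK0 hsK using fun i => h23a_one r hr (Ψ i) (hΨ i) (hre0 i) (hpos i)
  set c : S → ℝ := fun i => (Ψ i 0).re with hc
  -- uniform constants
  obtain ⟨s₀, hs₀, hs₀r, hs₀i⟩ : ∃ s₀ : ℝ, 0 < s₀ ∧ s₀ ≤ r ∧ ∀ i, s₀ ≤ s i := by
    rcases isEmpty_or_nonempty S with h | h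
    · exact ⟨r, hr, le_rfl, fun i => h.elim i⟩
    · obtain ⟨i, hi⟩ := Finite.exists_min s
      exact ⟨s i, hs0 i, hsr i, hi⟩
  obtain ⟨c₁, hc₁, hc₁i⟩ : ∃ c₁ : ℝ, 0 < c₁ ∧ ∀ i, c i ≤ c₁ := by
    rcases isEmpty_or_nonempty S with h | h
    · exact ⟨1, one_pos, fun i => h.elim i⟩
    · obtain ⟨i, hi⟩ := Finite.exists_max c
      exact ⟨c i, hpos i, hi⟩
  obtain ⟨c₀, hc₀, hc₀i⟩ : ∃ c₀ : ℝ, 0 < c₀ ∧ ∀ i, c₀ ≤ c i := by
    rcases isEmpty_or_nonempty S with h | h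
    · exact ⟨1, one_pos, fun i => h.elim i⟩
    · obtain ⟨i, hi⟩ := Finite.exists_min c
      exact ⟨c i, hpos i, hi⟩
  obtain ⟨K₀, hK₀, hK₀i⟩ : ∃ K₀ : ℝ, 0 < K₀ ∧ ∀ i, K i ≤ K₀ := by
    rcases isEmpty_or_nonempty S with h | h
    · exact ⟨1, one_pos, fun i => h.elim i⟩
    · obtain ⟨i, hi⟩ := Finite.exists_max K
      exact ⟨K i, hK0 i, hi⟩
  set et : ℝ := 1 / (8 * c₁) with het
  have het0 : 0 < et := by positivity
  have hetc : et * c₁ = 1 / 8 := by rw [het]; field_simp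
  set m : ℝ := min (min 1 (s₀ / et)) (min (r₃ / et) (c₀ / (et * K₀))) with hm
  have hm0 : 0 < m := by positivity
  have hm1 : m ≤ 1 := (min_le_left _ _).trans (min_le_left _ _)
  have hm2 : m ≤ s₀ / et := (min_le_left _ _).trans (min_le_right _ _)
  have hm3 : m ≤ r₃ / et := (min_le_right _ _).trans (min_le_left _ _)
  have hm4 : m ≤ c₀ / (et * K₀) := (min_le_right _ _).trans (min_le_right _ _)
  set r₀ : ℝ := m / 16 with hr₀
  have hr₀0 : 0 < r₀ := by positivity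
  have e2 : et * m ≤ s₀ := by
    rw [le_div_iff₀ het0] at hm2; linarith
  have e3 : et * m ≤ r₃ := by
    rw [le_div_iff₀ het0] at hm3; linarith
  have e4 : et * K₀ * m ≤ c₀ := by
    rw [le_div_iff₀ (by positivity)] at hm4; linarith
  have hW : ∀ δ : ℂ, ‖δ‖ < r₀ → ∀ V : ℂ, ‖V‖ < 2 * et → ‖δ * V‖ < 2 * et * r₀ := by
    intro δ hδ V hV
    rw [norm_mul]
    have h1 : ‖δ‖ * ‖V‖ < r₀ * (2 * et) := mul_lt_mul'' hδ hV (norm_nonneg _) (norm_nonneg _)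
    linarith
  have e5 : 2 * et * r₀ < s₀ := by
    have : 2 * et * r₀ = et * m / 8 := by rw [hr₀]; ring
    rw [this]; linarith
  have hval : ∀ δ : ℂ, ‖δ‖ < r₀ → ∀ V : ℂ, ‖V‖ < 2 * et → ∀ i,
      ‖Ψ i (δ * V) - (c i : ℂ)‖ < c i / 8 ∧ ‖deriv (Ψ i) (δ * V)‖ < K i := by
    intro δ hδ V hV i
    exact hsK i _ ((hW δ hδ V hV).trans (e5.trans_le (hs₀i i)))
  have hnorm : ∀ δ : ℂ, ‖δ‖ < r₀ → ∀ V : ℂ, ‖V‖ < 2 * et → ∀ i, ‖Ψ i (δ * V)‖ < 9 / 8 * c i := by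
    intro δ hδ V hV i
    have h1 := (hval δ hδ V hV i).1
    have h2 : ‖Ψ i (δ * V)‖ ≤ ‖Ψ i (δ * V) - (c i : ℂ)‖ + ‖(c i : ℂ)‖ := by
      have := norm_add_le (Ψ i (δ * V) - (c i : ℂ)) (c i : ℂ)
      simpa using this
    have h3 : ‖(c i : ℂ)‖ = c i := by
      rw [Complex.norm_real, Real.norm_of_nonneg (hpos i).le]
    linarith
  have hIet : ‖(I * et : ℂ)‖ = et := by
    rw [norm_mul, Complex.norm_I, one_mul, Complex.norm_real, Real.norm_of_nonneg het0.le]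
  refine ⟨et, r₀, het0, hr₀0, ?_, by linarith, ?_, ?_, ?_, ?_⟩
  · rw [hr₀]; linarith
  · have : 2 * et * r₀ = et * m / 8 := by rw [hr₀]; ring
    rw [this]
    have : 0 < et * m := by positivity
    linarith
  · intro δ hδ V hV i
    constructor
    · rw [norm_mul]
      have h1 := hnorm δ hδ V hV i
      have h2 : ‖V‖ * ‖Ψ i (δ * V)‖ ≤ 2 * et * (9 / 8 * c₁) := by
        apply mul_le_mul hV.le _ (norm_nonneg _) (by positivity)
        have := hc₁i i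
        linarith
      have h3 : 2 * et * (9 / 8 * c₁) = 9 / 32 := by
        calc 2 * et * (9 / 8 * c₁) = (et * c₁) * (9 / 4) := by ring
          _ = 9 / 32 := by rw [hetc]; norm_num
      linarith
    · have hmem : δ * V ∈ Metric.ball (0 : ℂ) r := by
        rw [mem_ball_zero_iff]
        exact (hW δ hδ V hV).trans (e5.trans_le hs₀r)
      have hd1 : HasDerivAt (fun V : ℂ => δ * V) δ V := by
        simpa using (hasDerivAt_id V).const_mul δ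
      have hd2 : HasDerivAt (fun V : ℂ => Ψ i (δ * V)) (deriv (Ψ i) (δ * V) * δ) V :=
        ((hΨ i _ hmem).differentiableAt.hasDerivAt).comp V hd1
      have hd3 : HasDerivAt (fun V : ℂ => V * Ψ i (δ * V))
          (1 * Ψ i (δ * V) + V * (deriv (Ψ i) (δ * V) * δ)) V := (hasDerivAt_id V).mul hd2
      rw [hd3.deriv]
      intro h0
      have h1 : (c i : ℂ) = -(Ψ i (δ * V) - c i) - V * (deriv (Ψ i) (δ * V) * δ) := by
        linear_combination h0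
      have h2 : ‖(c i : ℂ)‖ ≤ ‖Ψ i (δ * V) - c i‖ + ‖V * (deriv (Ψ i) (δ * V) * δ)‖ := by
        calc ‖(c i : ℂ)‖ = ‖-(Ψ i (δ * V) - c i) - V * (deriv (Ψ i) (δ * V) * δ)‖ := by rw [← h1]
          _ ≤ ‖-(Ψ i (δ * V) - c i)‖ + ‖V * (deriv (Ψ i) (δ * V) * δ)‖ := norm_sub_le _ _
          _ = _ := by rw [norm_neg]
      have h3 : ‖(c i : ℂ)‖ = c i := by
        rw [Complex.norm_real, Real.norm_of_nonneg (hpos i).le]
      have h4 := hval δ hδ V hV i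
      have h5 : ‖V * (deriv (Ψ i) (δ * V) * δ)‖ ≤ K₀ * (2 * et * r₀) := by
        calc ‖V * (deriv (Ψ i) (δ * V) * δ)‖ = ‖deriv (Ψ i) (δ * V)‖ * ‖δ * V‖ := by
              rw [norm_mul, norm_mul, norm_mul]; ring
          _ ≤ K₀ * (2 * et * r₀) := by
              apply mul_le_mul (h4.2.le.trans (hK₀i i)) (hW δ hδ V hV).le (norm_nonneg _) hK₀.le
      have h6 : K₀ * (2 * et * r₀) = et * K₀ * m / 8 := by rw [hr₀]; ring
      have h7 : c₀ ≤ c i := hc₀i i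
      have h8 : 0 < c i := hpos i
      rw [h3] at h2
      rw [h6] at h5
      linarith [h4.1]
  · intro δ hδ V hV i
    have h1 : ‖V - I * et‖ < et / 2 := by rwa [← dist_eq_norm]
    have h3 : ‖V‖ ≤ ‖V - I * et‖ + ‖(I * et : ℂ)‖ := by
      have := norm_add_le (V - I * et) (I * et)
      simpa using this
    rw [hIet] at h3
    have hVn : ‖V‖ < 2 * et := by linarith
    have h4 := (hval δ hδ V hVn i).1
    have hVim : et / 2 < V.im := by
      have h2 : |(V - I * et).im| ≤ ‖V - I * et‖ := Complex.abs_im_le_norm _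
      have h5 : (V - I * et).im = V.im - et := by simp
      rw [h5] at h2
      have := (abs_lt.mp (lt_of_le_of_lt h2 h1)).1
      linarith
    have h6 : V * Ψ i (δ * V) = (c i : ℂ) * V + V * (Ψ i (δ * V) - c i) := by ring
    have h7 : |(V * (Ψ i (δ * V) - c i)).im| ≤ (3 / 2 * et) * (c i / 8) := by
      refine (Complex.abs_im_le_norm _).trans ?_
      rw [norm_mul]
      exact mul_le_mul (by linarith) h4.le (norm_nonneg _) (by positivity)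
    rw [h6, Complex.add_im, Complex.im_ofReal_mul]
    have h8 : 0 < c i := hpos i
    have h9 : c i * (et / 2) < c i * V.im := mul_lt_mul_of_pos_left hVim h8
    have h10 := (abs_le.mp h7).1
    nlinarith [mul_pos h8 het0]
  · intro δ hδ i
    have hVn : ‖-(I * et : ℂ)‖ < 2 * et := by rw [norm_neg, hIet]; linarith
    have h4 := (hval δ hδ _ hVn i).1
    have h6 : -(I * et) * Ψ i (δ * -(I * et)) =
        ((c i : ℝ) : ℂ) * (-(I * et)) + -(I * et) * (Ψ i (δ * -(I * et)) - c i) := by ring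
    have h7 : |(-(I * et) * (Ψ i (δ * -(I * et)) - c i)).im| ≤ et * (c i / 8) := by
      refine (Complex.abs_im_le_norm _).trans ?_
      rw [norm_mul, norm_neg, hIet]
      exact mul_le_mul_of_nonneg_left h4.le het0.le
    rw [h6, Complex.add_im, Complex.im_ofReal_mul]
    have h8 : 0 < c i := hpos i
    have h9 : (-(I * et : ℂ)).im = -et := by simp
    rw [h9]
    have h10 := (abs_le.mp h7).2
    nlinarith [mul_pos h8 het0]

end Pool.Agent.MSD
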