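import Mathlib
import Pool.Agent.Lib.MP_f58a57_nt.FK.K006
import Pool.Agent.Lib.MP_f58a57_nt.FK.K048

section

/-! # F2: leaving the intersection of finitely many discs (MP_f58a57_nt) -/

open Complex ModularForm EisensteinSeries Filter
open UpperHalfPlane hiding I
open scoped Topology MatrixGroups

noncomputable section

namespace Pool.Agent.MSD

/-- F2a. Elementary facts: `N` is a real quadratic `A|x|² + Im(β x) + D`; `Im h(x) = N x/|cx+e|²` if `cx + e ≠ 0`; `N` is continuous and takes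
both signs. -/
theorem Mob.im_app (h : Mob) (x : ℂ) (hx : h.c * x + h.e ≠ 0) : (h.app x).im = h.N x / ‖h.c * x + h.e‖ ^ 2 := by
  have h1 : h.app x = ((h.a * x + h.b) * (starRingEnd ℂ) (h.c * x + h.e)) * (((Complex.normSq (h.c * x + h.e))⁻¹ : ℝ) : ℂ) := by
    rw [Mob.app, div_eq_mul_inv, Complex.inv_def]
    ring
  rw [h1, Complex.im_mul_ofReal, Mob.N, Complex.normSq_eq_norm_sq, div_eq_mul_inv]

theorem Mob.den_ne (h : Mob) (x : ℂ) (hx : h.N x ≠ 0) : h.c * x + h.e ≠ 0 := by
  intro h0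
  apply hx
  simp [Mob.N, h0]

theorem Mob.continuous_N (h : Mob) : Continuous h.N := by
  unfold Mob.N
  apply Complex.continuous_im.comp
  apply Continuous.mul (by fun_prop)
  exact Complex.continuous_conj.comp (by fun_prop)

theorem f2_exists (h : Mob) (w : ℂ) (hw : h.a - w * h.c ≠ 0) : ∃ (x : ℂ) (r : ℝ), 0 < r ∧ h.N x = w.im * r := by
  refine ⟨(w * h.e - h.b) / (h.a - w * h.c), ‖h.c * ((w * h.e - h.b) / (h.a - w * h.c)) + h.e‖ ^ 2, ?_, ?_⟩
  · have : h.c * ((w * h.e - h.b) / (h.a - w * h.c)) + h.e ≠ 0 := by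
      have e1 : h.c * ((w * h.e - h.b) / (h.a - w * h.c)) + h.e = (h.a * h.e - h.b * h.c) / (h.a - w * h.c) := by
        rw [eq_div_iff hw, add_mul, mul_assoc, div_mul_cancel₀ _ hw]
        ring
      rw [e1]
      exact div_ne_zero h.det hw
    positivity
  · have e2 : h.a * ((w * h.e - h.b) / (h.a - w * h.c)) + h.b =
        w * (h.c * ((w * h.e - h.b) / (h.a - w * h.c)) + h.e) := by
      field_simp
      ring
    rw [Mob.N, e2, mul_assoc, Complex.mul_conj, Complex.im_mul_ofReal, Complex.normSq_eq_norm_sq]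

theorem f2_sign (h : Mob) (w w' : ℂ) (hww : w ≠ w') (s : ℝ) (hs : 0 < w.im * s) (hs' : 0 < w'.im * s) :
    ∃ x : ℂ, 0 < h.N x * s := by
  by_cases h1 : h.a - w * h.c = 0
  · have h2 : h.a - w' * h.c ≠ 0 := by
      intro h2
      have h3 : (w' - w) * h.c = 0 := by linear_combination h1 - h2
      have h4 : h.c = 0 := by
        rcases mul_eq_zero.mp h3 with h5 | h5
        · exact absurd (sub_eq_zero.mp h5).symm hww
        · exact h5
      apply h.det
      rw [h4] at h1
      have h6 : h.a = 0 := by simpa using h1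
      rw [h4, h6]
      ring
    obtain ⟨x, r, hr, hx⟩ := f2_exists h w' h2
    refine ⟨x, ?_⟩
    rw [hx]
    have : w'.im * r * s = (w'.im * s) * r := by ring
    rw [this]
    positivity
  · obtain ⟨x, r, hr, hx⟩ := f2_exists h w h1
    refine ⟨x, ?_⟩
    rw [hx]
    have : w.im * r * s = (w.im * s) * r := by ring
    rw [this]
    positivity

theorem Mob.exists_neg (h : Mob) : ∃ x : ℂ, h.N x < 0 := by
  obtain ⟨x, hx⟩ := f2_sign h (-I) (1 - I) (by
    intro h0
    have := congrArg Complex.re h0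
    simp at this) (-1) (by simp) (by simp)
  exact ⟨x, by linarith⟩

theorem f2_exists_pos (h : Mob) : ∃ x : ℂ, 0 < h.N x := by
  obtain ⟨x, hx⟩ := f2_sign h I (1 + I) (by
    intro h0
    have := congrArg Complex.re h0
    simp at this) 1 (by simp) (by simp)
  exact ⟨x, by linarith⟩

theorem f2_quad (a b c : ℝ) (ha : a ≠ 0) : {τ : ℝ | a * τ ^ 2 + b * τ + c = 0}.Finite := by
  have hP : (Polynomial.C a * Polynomial.X ^ 2 + Polynomial.C b * Polynomial.X + Polynomial.C c : Polynomial ℝ) ≠ 0 := by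
    intro h0
    have := congrArg (fun P => Polynomial.coeff P 2) h0
    simp [Polynomial.coeff_X, Polynomial.coeff_C] at this
    exact ha this
  refine ((Polynomial.C a * Polynomial.X ^ 2 + Polynomial.C b * Polynomial.X + Polynomial.C c :
    Polynomial ℝ).roots.toFinset.finite_toSet).subset ?_
  intro τ hτ
  have hτ' : a * τ ^ 2 + b * τ + c = 0 := hτ
  simp only [Finset.mem_coe, Multiset.mem_toFinset, Polynomial.mem_roots hP, Polynomial.IsRoot.def]
  simpa using hτ'

theorem f2_caseA (A p q D P Q E : ℝ) (hA : A ≠ 0) (hPQ : P ≠ 0 ∨ Q ≠ 0) :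
    {x : ℂ | A * (x.re ^ 2 + x.im ^ 2) + p * x.re + q * x.im + D = 0 ∧ P * x.re + Q * x.im + E = 0}.Finite := by
  have hn : 0 < P ^ 2 + Q ^ 2 := by
    rcases hPQ with h | h
    · positivity
    · positivity
  have hn' : P ^ 2 + Q ^ 2 ≠ 0 := hn.ne'
  have hfin := f2_quad (A / (P ^ 2 + Q ^ 2)) ((p * Q - q * P) / (P ^ 2 + Q ^ 2))
    (A * E ^ 2 / (P ^ 2 + Q ^ 2) - (p * P + q * Q) * E / (P ^ 2 + Q ^ 2) + D) (div_ne_zero hA hn')
  refine (hfin.image (fun τ : ℝ => (⟨(Q * τ - P * E) / (P ^ 2 + Q ^ 2), (-P * τ - Q * E) / (P ^ 2 + Q ^ 2)⟩ : ℂ))).subset ?_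
  rintro ⟨u, v⟩ ⟨h1, h2⟩
  simp only at h1 h2
  have hE : E = -(P * u + Q * v) := by linarith
  have hD : D = -(A * (u ^ 2 + v ^ 2) + p * u + q * v) := by linarith
  refine ⟨Q * u - P * v, ?_, ?_⟩
  · show A / (P ^ 2 + Q ^ 2) * (Q * u - P * v) ^ 2 + (p * Q - q * P) / (P ^ 2 + Q ^ 2) * (Q * u - P * v) +
      (A * E ^ 2 / (P ^ 2 + Q ^ 2) - (p * P + q * Q) * E / (P ^ 2 + Q ^ 2) + D) = 0
    rw [hE, hD]
    field_simp
    ring
  · simp only [Complex.mk.injEq]
    rw [hE]
    constructor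
    · field_simp
      ring
    · field_simp
      ring

theorem f2_fin (A p q D A' p' q' D' : ℝ) (hns : ¬ ∃ r : ℝ, A = r * A' ∧ p = r * p' ∧ q = r * q' ∧ D = r * D')
    (h1 : A ≠ 0 ∨ p ≠ 0 ∨ q ≠ 0) (h2 : A' ≠ 0 ∨ p' ≠ 0 ∨ q' ≠ 0) :
    {x : ℂ | A * (x.re ^ 2 + x.im ^ 2) + p * x.re + q * x.im + D = 0 ∧
      A' * (x.re ^ 2 + x.im ^ 2) + p' * x.re + q' * x.im + D' = 0}.Finite := by
  by_cases hPQ : A' * p - A * p' ≠ 0 ∨ A' * q - A * q' ≠ 0
  · -- case (a)
    by_cases hA : A = 0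
    · have hA' : A' ≠ 0 := by
        intro hA'
        rw [hA, hA'] at hPQ
        simp at hPQ
      refine (f2_caseA A' p' q' D' _ _ (A' * D - A * D') hA' hPQ).subset ?_
      rintro x ⟨hx1, hx2⟩
      exact ⟨hx2, by linear_combination A' * hx1 - A * hx2⟩
    · refine (f2_caseA A p q D _ _ (A' * D - A * D') hA hPQ).subset ?_
      rintro x ⟨hx1, hx2⟩
      exact ⟨hx1, by linear_combination A' * hx1 - A * hx2⟩
  · push Not at hPQ
    obtain ⟨hP, hQ⟩ := hPQ
    by_cases hA' : A' = 0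
    · by_cases hA : A = 0
      · -- two lines
        subst hA hA'
        simp only [ne_eq, not_true_eq_false, false_or] at h1 h2
        by_cases hdet : p * q' - p' * q = 0
        · -- parallel: empty
          have hempty : {x : ℂ | 0 * (x.re ^ 2 + x.im ^ 2) + p * x.re + q * x.im + D = 0 ∧
              0 * (x.re ^ 2 + x.im ^ 2) + p' * x.re + q' * x.im + D' = 0} = ∅ := by
            rw [Set.eq_empty_iff_forall_notMem]
            rintro x ⟨hx1, hx2⟩
            apply hns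
            rcases h2 with h2 | h2
            · refine ⟨p / p', by simp, by field_simp, ?_, ?_⟩
              · field_simp
                linarith
              · have hq : q = p / p' * q' := by
                  field_simp
                  linarith
                have hp : p = p / p' * p' := by field_simp
                linear_combination hx1 - p / p' * hx2 - x.re * hp - x.im * hq
            · refine ⟨q / q', by simp, ?_, by field_simp, ?_⟩
              · field_simp
                linarith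
              · have hp : p = q / q' * p' := by
                  field_simp
                  linarith
                have hq : q = q / q' * q' := by field_simp
                linear_combination hx1 - q / q' * hx2 - x.re * hp - x.im * hq
          rw [hempty]
          exact Set.finite_empty
        · refine (Set.finite_singleton (⟨(q * D' - q' * D) / (p * q' - p' * q), (p' * D - p * D') / (p * q' - p' * q)⟩ : ℂ)).subset ?_
          rintro ⟨u, v⟩ ⟨hx1, hx2⟩
          simp only at hx1 hx2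
          have hDD : D = -(p * u + q * v) := by linarith
          have hDD' : D' = -(p' * u + q' * v) := by linarith
          simp only [Set.mem_singleton_iff, Complex.mk.injEq]
          rw [hDD, hDD']
          constructor
          · rw [eq_div_iff hdet]
            ring
          · rw [eq_div_iff hdet]
            ring
      · -- A ≠ 0, A' = 0: then p' = q' = 0
        exfalso
        subst hA'
        have hp' : p' = 0 := by
          have : A * p' = 0 := by linarith
          rcases mul_eq_zero.mp this with h | h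
          · exact absurd h hA
          · exact h
        have hq' : q' = 0 := by
          have : A * q' = 0 := by linarith
          rcases mul_eq_zero.mp this with h | h
          · exact absurd h hA
          · exact h
        rcases h2 with h | h | h
        · exact h rfl
        · exact h hp'
        · exact h hq'
    · -- A' ≠ 0
      have hempty : {x : ℂ | A * (x.re ^ 2 + x.im ^ 2) + p * x.re + q * x.im + D = 0 ∧
          A' * (x.re ^ 2 + x.im ^ 2) + p' * x.re + q' * x.im + D' = 0} = ∅ := by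
        rw [Set.eq_empty_iff_forall_notMem]
        rintro x ⟨hx1, hx2⟩
        apply hns
        have hp : p = A / A' * p' := by
          field_simp
          linarith
        have hq : q = A / A' * q' := by
          field_simp
          linarith
        have hA1 : A = A / A' * A' := by field_simp
        refine ⟨A / A', hA1, hp, hq, ?_⟩
        linear_combination hx1 - A / A' * hx2 - x.re * hp - x.im * hq - (x.re ^ 2 + x.im ^ 2) * hA1
      rw [hempty]
      exact Set.finite_empty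

theorem f2_N_eq (h : Mob) (x : ℂ) : h.N x = (h.a * (starRingEnd ℂ) h.c).im * (x.re ^ 2 + x.im ^ 2) +
    (h.a * (starRingEnd ℂ) h.e + h.b * (starRingEnd ℂ) h.c).im * x.re +
    (h.a * (starRingEnd ℂ) h.e - h.b * (starRingEnd ℂ) h.c).re * x.im + (h.b * (starRingEnd ℂ) h.e).im := by
  simp only [Mob.N, map_add, map_mul, Complex.add_im, Complex.add_re, Complex.sub_re, Complex.mul_im, Complex.mul_re,
    Complex.conj_re, Complex.conj_im]
  ring

theorem f2_nonconst (h : Mob) : (h.a * (starRingEnd ℂ) h.c).im ≠ 0 ∨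
    (h.a * (starRingEnd ℂ) h.e + h.b * (starRingEnd ℂ) h.c).im ≠ 0 ∨
    (h.a * (starRingEnd ℂ) h.e - h.b * (starRingEnd ℂ) h.c).re ≠ 0 := by
  by_contra hcon
  push Not at hcon
  obtain ⟨h1, h2, h3⟩ := hcon
  obtain ⟨x, hx⟩ := h.exists_neg
  obtain ⟨y, hy⟩ := f2_exists_pos h
  rw [f2_N_eq, h1, h2, h3] at hx hy
  linarith

/-- F2b. Different circles meet in finitely many points (at most 2). -/
theorem Mob.finite_inter (h h' : Mob) (hne : h.Ne h') : {x : ℂ | h.N x = 0 ∧ h'.N x = 0}.Finite := by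
  have := f2_fin (h.a * (starRingEnd ℂ) h.c).im
    (h.a * (starRingEnd ℂ) h.e + h.b * (starRingEnd ℂ) h.c).im
    (h.a * (starRingEnd ℂ) h.e - h.b * (starRingEnd ℂ) h.c).re (h.b * (starRingEnd ℂ) h.e).im
    (h'.a * (starRingEnd ℂ) h'.c).im
    (h'.a * (starRingEnd ℂ) h'.e + h'.b * (starRingEnd ℂ) h'.c).im
    (h'.a * (starRingEnd ℂ) h'.e - h'.b * (starRingEnd ℂ) h'.c).re (h'.b * (starRingEnd ℂ) h'.e).im ?_
    (f2_nonconst h) (f2_nonconst h')
  · refine this.subset ?_
    rintro x ⟨hx1, hx2⟩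
    rw [f2_N_eq] at hx1 hx2
    exact ⟨hx1, hx2⟩
  · rintro ⟨r, hA, hp, hq, hD⟩
    apply hne
    refine ⟨r, fun x => ?_⟩
    rw [f2_N_eq, f2_N_eq]
    linear_combination (x.re ^ 2 + x.im ^ 2) * hA + x.re * hp + x.im * hq + hD

end Pool.Agent.MSD
end

end

section

/-! # F2c: the exit point (MP_f58a57_nt) -/

open Complex ModularForm EisensteinSeries Filter
open UpperHalfPlane hiding I
open scoped Topology MatrixGroups

noncomputable section

namespace Pool.Agent.MSD

theorem f2c_avoid (t : ℂ) (F : Finset ℂ) (hF : ∀ w ∈ F, w ≠ 0) (U : Set ℂ) (hU : IsOpen U) (hne : U.Nonempty) :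
    ∃ y ∈ U, ∀ w ∈ F, ((starRingEnd ℂ) w * (y - t)).im ≠ 0 := by
  classical
  induction F using Finset.induction_on with
  | empty =>
    obtain ⟨y, hy⟩ := hne
    exact ⟨y, hy, by simp⟩
  | insert w F hw ih =>
    obtain ⟨y, hy, hyF⟩ := ih (fun w' hw' => hF w' (Finset.mem_insert_of_mem hw'))
    have hw0 : w ≠ 0 := hF w (Finset.mem_insert_self _ _)
    by_cases h0 : ((starRingEnd ℂ) w * (y - t)).im = 0
    · -- perturb
      have hcont : Continuous (fun ε : ℝ => y + ε * (I * w)) := by fun_prop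
      have hev1 : ∀ᶠ ε : ℝ in 𝓝 0, y + ε * (I * w) ∈ U := by
        apply hcont.continuousAt.eventually_mem
        apply hU.mem_nhds
        simpa using hy
      have hev2 : ∀ᶠ ε : ℝ in 𝓝 0, ∀ w' ∈ F, ((starRingEnd ℂ) w' * (y + ε * (I * w) - t)).im ≠ 0 := by
        rw [Filter.eventually_all_finset]
        intro w' hw'
        have hc : Continuous (fun ε : ℝ => ((starRingEnd ℂ) w' * (y + ε * (I * w) - t)).im) := by fun_prop
        apply hc.continuousAt.eventually_ne
        simpa using hyF w' hw'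
      have hev : ∀ᶠ ε : ℝ in 𝓝[>] 0, y + ε * (I * w) ∈ U ∧
          ∀ w' ∈ F, ((starRingEnd ℂ) w' * (y + ε * (I * w) - t)).im ≠ 0 :=
        (hev1.and hev2).filter_mono nhdsWithin_le_nhds
      obtain ⟨ε, ⟨h1, h2⟩, hε⟩ := (hev.and self_mem_nhdsWithin).exists
      have hε' : (0 : ℝ) < ε := hε
      refine ⟨y + ε * (I * w), h1, ?_⟩
      intro w' hw'
      rcases Finset.mem_insert.mp hw' with rfl | hw'
      · have e1 : (starRingEnd ℂ) w' * (y + ε * (I * w') - t) =
            (starRingEnd ℂ) w' * (y - t) + ε * ((Complex.normSq w' : ℝ) : ℂ) * I := by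
          rw [Complex.normSq_eq_conj_mul_self]
          ring
        rw [e1, Complex.add_im, h0, zero_add]
        have : ((ε : ℂ) * ((Complex.normSq w' : ℝ) : ℂ) * I).im = ε * Complex.normSq w' := by
          simp
        rw [this]
        exact mul_ne_zero hε'.ne' (by simpa [Complex.normSq_eq_zero] using hw0)
      · exact h2 w' hw'
    · refine ⟨y, hy, ?_⟩
      intro w' hw'
      rcases Finset.mem_insert.mp hw' with rfl | hw'
      · exact h0
      · exact hyF w' hw'

theorem f2c_pole (h : Mob) : {x : ℂ | h.c * x + h.e = 0}.Finite := by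
  by_cases hc : h.c = 0
  · have he : h.e ≠ 0 := by
      intro he
      apply h.det
      simp [hc, he]
    have : {x : ℂ | h.c * x + h.e = 0} = ∅ := by
      ext x
      simp [hc, he]
    rw [this]
    exact Set.finite_empty
  · apply Set.Finite.subset (Set.finite_singleton (-h.e / h.c))
    intro x hx
    have hx' : h.c * x + h.e = 0 := hx
    have : x = -h.e / h.c := by
      field_simp
      linear_combination hx'
    exact this

/-- F2c. Exit point. PROOF. Let `Bad` be the finite set of pairwise intersection points of the circles and of the poles `-e/c`. The set of `y` with `N_{i₁}(y) < 0`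
(some fixed `i₁`) is open and nonempty; choose such a `y` not on one of the finitely many lines through `t` and a point of `Bad`. Put
`x(s) = t + s (y - t)` and let `s₀` be the first `s ∈ [0,1]` with `min_i N_i(x(s)) ≤ 0`. -/
theorem exit_point {ι : Type*} [Fintype ι] [Nonempty ι] (h : ι → Mob) (t : ℂ) (hpos : ∀ i, 0 < (h i).N t)
    (hne : ∀ i j, i ≠ j → (h i).Ne (h j)) :
    ∃ (y : ℂ) (s₀ : ℝ) (i₀ : ι), 0 < s₀ ∧ (∀ s : ℝ, 0 ≤ s → s < s₀ → ∀ i, 0 < (h i).N (t + s * (y - t))) ∧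
      (h i₀).N (t + s₀ * (y - t)) = 0 ∧ (∀ i, i ≠ i₀ → 0 < (h i).N (t + s₀ * (y - t))) ∧
      (h i₀).c * (t + s₀ * (y - t)) + (h i₀).e ≠ 0 := by
  classical
  obtain ⟨i₁⟩ := (inferInstance : Nonempty ι)
  -- the bad set
  have hBfin : ({x : ℂ | ∃ i j, i ≠ j ∧ (h i).N x = 0 ∧ (h j).N x = 0} ∪
      {x : ℂ | ∃ i, (h i).c * x + (h i).e = 0}).Finite := by
    apply Set.Finite.union
    · have : {x : ℂ | ∃ i j, i ≠ j ∧ (h i).N x = 0 ∧ (h j).N x = 0} ⊆
          ⋃ i, ⋃ j, {x : ℂ | i ≠ j ∧ (h i).N x = 0 ∧ (h j).N x = 0} := by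
        rintro x ⟨i, j, hx⟩
        exact Set.mem_iUnion.mpr ⟨i, Set.mem_iUnion.mpr ⟨j, hx⟩⟩
      refine Set.Finite.subset ?_ this
      apply Set.finite_iUnion
      intro i
      apply Set.finite_iUnion
      intro j
      by_cases hij : i = j
      · convert Set.finite_empty
        ext x
        simp [hij]
      · exact ((h i).finite_inter (h j) (hne i j hij)).subset (fun x hx => hx.2)
    · have : {x : ℂ | ∃ i, (h i).c * x + (h i).e = 0} ⊆ ⋃ i, {x : ℂ | (h i).c * x + (h i).e = 0} := by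
        rintro x ⟨i, hx⟩
        exact Set.mem_iUnion.mpr ⟨i, hx⟩
      exact (Set.finite_iUnion (fun i => f2c_pole (h i))).subset this
  set Bad : Set ℂ := {x : ℂ | ∃ i j, i ≠ j ∧ (h i).N x = 0 ∧ (h j).N x = 0} ∪
      {x : ℂ | ∃ i, (h i).c * x + (h i).e = 0} with hBad
  have hBt : ∀ b ∈ Bad, b ≠ t := by
    rintro b (⟨i, j, _, hb, _⟩ | ⟨i, hb⟩) rfl
    · exact (hpos i).ne' hb
    · have : (h i).N b = 0 := by
        simp [Mob.N, hb]
      exact (hpos i).ne' this
  obtain ⟨y, hyU, hy⟩ := f2c_avoid t (hBfin.toFinset.image (fun b => b - t)) (by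
    intro w hw
    rw [Finset.mem_image] at hw
    obtain ⟨b, hb, rfl⟩ := hw
    exact sub_ne_zero.mpr (hBt b (hBfin.mem_toFinset.mp hb))) {y | (h i₁).N y < 0}
    (isOpen_lt (h i₁).continuous_N continuous_const) (h i₁).exists_neg
  have hyU' : (h i₁).N y < 0 := hyU
  have hnot : ∀ s : ℝ, t + s * (y - t) ∉ Bad := by
    intro s hs
    have h1 := hy (t + s * (y - t) - t) (Finset.mem_image.mpr ⟨_, hBfin.mem_toFinset.mpr hs, rfl⟩)
    apply h1
    have : (starRingEnd ℂ) (t + s * (y - t) - t) * (y - t) = ((s * Complex.normSq (y - t) : ℝ) : ℂ) := by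
      push_cast
      rw [Complex.normSq_eq_conj_mul_self]
      simp only [add_sub_cancel_left, map_mul, Complex.conj_ofReal]
      ring
    rw [this]
    exact Complex.ofReal_im _
  -- first exit
  have hgc : ∀ i, Continuous (fun s : ℝ => (h i).N (t + s * (y - t))) := fun i =>
    (h i).continuous_N.comp (by fun_prop)
  have hScl : IsClosed {s : ℝ | ∃ i, (h i).N (t + s * (y - t)) ≤ 0} := by
    have : {s : ℝ | ∃ i, (h i).N (t + s * (y - t)) ≤ 0} = ⋃ i, {s : ℝ | (h i).N (t + s * (y - t)) ≤ 0} := by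
      ext s
      simp
    rw [this]
    exact isClosed_iUnion_of_finite (fun i => isClosed_le (hgc i) continuous_const)
  have hScomp : IsCompact (Set.Icc (0 : ℝ) 1 ∩ {s : ℝ | ∃ i, (h i).N (t + s * (y - t)) ≤ 0}) :=
    isCompact_Icc.inter_right hScl
  have hSne : (Set.Icc (0 : ℝ) 1 ∩ {s : ℝ | ∃ i, (h i).N (t + s * (y - t)) ≤ 0}).Nonempty := by
    refine ⟨1, ⟨by norm_num, le_refl _⟩, i₁, ?_⟩
    simpa using hyU'.le
  obtain ⟨s₀, ⟨⟨hs0, hs1⟩, i₀, hi₀⟩, hleast⟩ := hScomp.exists_isLeast hSne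
  have hs0' : 0 < s₀ := by
    rcases hs0.lt_or_eq with h1 | h1
    · exact h1
    · exfalso
      rw [← h1] at hi₀
      have := hpos i₀
      simp at hi₀
      linarith
  have hbefore : ∀ s : ℝ, 0 ≤ s → s < s₀ → ∀ i, 0 < (h i).N (t + s * (y - t)) := by
    intro s hs hss i
    by_contra hcon
    have := hleast ⟨⟨hs, by linarith⟩, i, not_lt.mp hcon⟩
    linarith
  have hge : ∀ i, 0 ≤ (h i).N (t + s₀ * (y - t)) := by
    intro i
    have hcl : s₀ ∈ closure (Set.Ico (0 : ℝ) s₀) := by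
      rw [closure_Ico hs0'.ne]
      exact ⟨hs0, le_refl _⟩
    have hsub : Set.Ico (0 : ℝ) s₀ ⊆ {s : ℝ | 0 ≤ (h i).N (t + s * (y - t))} := by
      rintro s ⟨h1, h2⟩
      exact (hbefore s h1 h2 i).le
    exact closure_minimal hsub (isClosed_le continuous_const (hgc i)) hcl
  have hz : (h i₀).N (t + s₀ * (y - t)) = 0 := le_antisymm hi₀ (hge i₀)
  refine ⟨y, s₀, i₀, hs0', hbefore, hz, ?_, ?_⟩
  · intro i hi
    rcases (hge i).lt_or_eq with h1 | h1
    · exact h1
    · exfalso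
      exact hnot s₀ (Or.inl ⟨i, i₀, hi, h1.symm, hz⟩)
  · intro hcon
    exact hnot s₀ (Or.inr ⟨i₀, hcon⟩)

end Pool.Agent.MSD
end

end

section

/-! # F1: e2, e4, e6 are algebraically independent over ℂ (MP_f58a57_nt) -/

open Complex ModularForm EisensteinSeries Filter
open UpperHalfPlane hiding I
open scoped Topology MatrixGroups

noncomputable section

namespace Pool.Agent.MSD

/-- homogeneity: from the transformation law. -/
theorem F1_homog (P : MvPolynomial (Fin 2) ℂ)
    (h : ∀ z : ℂ, 0 < z.im → MvPolynomial.eval ![e4 z, e6 z] P = 0) (z : ℂ) (hz : 0 < z.im) (t : ℂ) :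
    MvPolynomial.eval ![t ^ 4 * e4 z, t ^ 6 * e6 z] P = 0 := by
  set Q : Polynomial ℂ := MvPolynomial.aeval
    ![Polynomial.X ^ 4 * Polynomial.C (e4 z), Polynomial.X ^ 6 * Polynomial.C (e6 z)] P with hQdef
  have hQ : ∀ t : ℂ, Q.eval t = MvPolynomial.eval ![t ^ 4 * e4 z, t ^ 6 * e6 z] P := by
    intro t
    rw [hQdef, ← Polynomial.coe_evalRingHom, MvPolynomial.aeval_def, MvPolynomial.hom_eval₂]
    have h1 : (Polynomial.evalRingHom t).comp (algebraMap ℂ (Polynomial ℂ)) = RingHom.id ℂ := by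
      ext x
      simp
    rw [h1]
    have h2 : (fun i => Polynomial.evalRingHom t ((![Polynomial.X ^ 4 * Polynomial.C (e4 z),
        Polynomial.X ^ 6 * Polynomial.C (e6 z)] : Fin 2 → Polynomial ℂ) i)) =
        ![t ^ 4 * e4 z, t ^ 6 * e6 z] := by
      funext i
      fin_cases i
      · simp only [Fin.zero_eta, Matrix.cons_val_zero, Polynomial.coe_evalRingHom,
          Polynomial.eval_mul, Polynomial.eval_pow, Polynomial.eval_X, Polynomial.eval_C]
      · show Polynomial.eval t (Polynomial.X ^ 6 * Polynomial.C (e6 z)) = t ^ 6 * e6 z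
        simp only [Polynomial.eval_mul, Polynomial.eval_pow, Polynomial.eval_X, Polynomial.eval_C]
    rw [h2]
    rfl
  have hroot : ∀ d : ℤ, Q.eval (z + d) = 0 := by
    intro d
    rw [hQ]
    have hne : z + d ≠ 0 := by
      intro h0
      have := congrArg Complex.im h0
      simp at this
      rw [this] at hz
      exact lt_irrefl _ hz
    have him : 0 < ((-1 : ℂ) / (z + d)).im := by
      rw [Complex.div_im]
      have : 0 < Complex.normSq (z + d) := Complex.normSq_pos.2 hne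
      simp only [Complex.neg_im, Complex.one_im, Complex.neg_re, Complex.one_re, Complex.add_im,
        Complex.intCast_im, add_zero]
      have h3 : -0 * (z + (d : ℂ)).re / Complex.normSq (z + d) - -1 * z.im / Complex.normSq (z + d)
        = z.im / Complex.normSq (z + d) := by ring
      rw [h3]
      positivity
    have h4 := e4_transform 0 (-1) 1 d (by ring) z hz
    have h6 := e6_transform 0 (-1) 1 d (by ring) z hz
    have hw : ((0 : ℤ) : ℂ) * z + ((-1 : ℤ) : ℂ) = -1 := by push_cast; ring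
    have hw' : ((1 : ℤ) : ℂ) * z + (d : ℂ) = z + d := by push_cast; ring
    rw [hw, hw'] at h4 h6
    rw [← h4, ← h6]
    exact h _ him
  have hQ0 : Q = 0 := by
    refine Polynomial.eq_zero_of_infinite_isRoot Q ?_
    refine Set.Infinite.mono (s := Set.range (fun d : ℤ => z + (d : ℂ))) ?_ ?_
    · rintro _ ⟨d, rfl⟩
      exact hroot d
    · refine Set.infinite_range_of_injective ?_
      intro a b hab
      have : (a : ℂ) = b := by simpa using hab
      exact_mod_cast this
  rw [← hQ, hQ0]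
  simp

/-- F1a. `e4³/e6²` is not constant: e.g. `e6(i) = 0`, `e4(i) ≠ 0`, `e4(ρ) = 0`, `e6(ρ) ≠ 0`. Consequently a polynomial
vanishing at all `(m⁴ e4 z, m⁶ e6 z)` is zero. (For a polynomial `P(X,Y)`, split in weighted homogeneous parts: each part vanishes on
`(e4 z, e6 z)`; a part `c X^a Y^b Π (X³ - λ_i Y²)` vanishes identically only if it is zero, since `e4³/e6²` takes infinitely many values.) -/
theorem indep_e4_e6 (P : MvPolynomial (Fin 2) ℂ) (h : ∀ z : ℂ, 0 < z.im → MvPolynomial.eval ![e4 z, e6 z] P = 0) : P = 0 := by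
  obtain ⟨c4, hc4, hc40⟩ := e4_q
  obtain ⟨c6, hc6, hc60⟩ := e6_q
  have t4 : Tendsto (fun y : ℝ => e4 (I * y)) atTop (𝓝 1) := by
    have := hc4.tendsto
    rwa [hc40, Int.cast_one] at this
  have t6 : Tendsto (fun y : ℝ => e6 (I * y)) atTop (𝓝 1) := by
    have := hc6.tendsto
    rwa [hc60, Int.cast_one] at this
  have key : ∀ X0 : ℂ, X0 ≠ 0 → ∀ Y : ℂ, MvPolynomial.eval ![X0, Y] P = 0 := by
    intro X0 hX0
    set R : Polynomial ℂ := MvPolynomial.aeval ![Polynomial.C X0, Polynomial.X] P with hRdef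
    have hR : ∀ Y : ℂ, R.eval Y = MvPolynomial.eval ![X0, Y] P := by
      intro t
      rw [hRdef, ← Polynomial.coe_evalRingHom, MvPolynomial.aeval_def, MvPolynomial.hom_eval₂]
      have h1 : (Polynomial.evalRingHom t).comp (algebraMap ℂ (Polynomial ℂ)) = RingHom.id ℂ := by
        ext x
        simp
      rw [h1]
      have h2 : (fun i => Polynomial.evalRingHom t ((![Polynomial.C X0, Polynomial.X] :
          Fin 2 → Polynomial ℂ) i)) = ![X0, t] := by
        funext i
        fin_cases i <;> simp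
      rw [h2]
      rfl
    have hR0 : R = 0 := by
      by_contra hne
      set S : Finset ℂ := R.roots.toFinset.image (fun x => x ^ 2) with hS
      have hmem : ∀ y : ℝ, 0 < y → e4 (I * y) ≠ 0 →
          X0 ^ 3 * (e6 (I * y) ^ 2 / e4 (I * y) ^ 3) ∈ S := by
        intro y hy h4
        have hz : 0 < (I * (y : ℂ)).im := by simpa using hy
        obtain ⟨t, ht⟩ := IsAlgClosed.exists_pow_nat_eq (X0 / e4 (I * y)) (n := 4) (by norm_num)
        have h5 := F1_homog P h (I * y) hz t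
        have h6 : t ^ 4 * e4 (I * y) = X0 := by
          rw [ht]; field_simp
        rw [h6, ← hR] at h5
        rw [hS, Finset.mem_image]
        refine ⟨t ^ 6 * e6 (I * y), ?_, ?_⟩
        · rw [Multiset.mem_toFinset, Polynomial.mem_roots hne]
          exact h5
        · have h7 : (t ^ 6 * e6 (I * y)) ^ 2 = (t ^ 4) ^ 3 * e6 (I * y) ^ 2 := by ring
          rw [h7, ht]
          field_simp
      have hlim : Tendsto (fun y : ℝ => X0 ^ 3 * (e6 (I * y) ^ 2 / e4 (I * y) ^ 3)) atTop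
          (𝓝 (X0 ^ 3)) := by
        have : Tendsto (fun y : ℝ => X0 ^ 3 * (e6 (I * y) ^ 2 / e4 (I * y) ^ 3)) atTop
            (𝓝 (X0 ^ 3 * (1 ^ 2 / 1 ^ 3))) :=
          ((t6.pow 2).div (t4.pow 3) (by norm_num)).const_mul _
        simpa using this
      have hev : ∀ᶠ y : ℝ in atTop, X0 ^ 3 * (e6 (I * y) ^ 2 / e4 (I * y) ^ 3) ∉ S.erase (X0 ^ 3) := by
        have hcl : IsClosed ((S.erase (X0 ^ 3) : Finset ℂ) : Set ℂ) := Finset.isClosed _
        have := hlim.eventually (hcl.isOpen_compl.mem_nhds (by simp))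
        filter_upwards [this] with y hy
        exact hy
      have h4ne : ∀ᶠ y : ℝ in atTop, e4 (I * y) ≠ 0 := t4.eventually_ne one_ne_zero
      obtain ⟨y, hy1, hy2, hy3⟩ := (hev.and (h4ne.and (eventually_gt_atTop 0))).exists
      have h8 := hmem y hy3 hy2
      have h9 : X0 ^ 3 * (e6 (I * y) ^ 2 / e4 (I * y) ^ 3) = X0 ^ 3 := by
        by_contra hcon
        exact hy1 (Finset.mem_erase.2 ⟨hcon, h8⟩)
      have hz : 0 < (I * (y : ℂ)).im := by simpa using hy3
      refine dl_ne_zero (I * y) hz ?_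
      have h10 : e6 (I * y) ^ 2 / e4 (I * y) ^ 3 = 1 := by
        have hX : X0 ^ 3 ≠ 0 := pow_ne_zero _ hX0
        exact mul_left_cancel₀ hX (by rw [h9, mul_one])
      rw [div_eq_one_iff_eq (pow_ne_zero _ hy2)] at h10
      rw [dl, h10, sub_self, zero_div]
    intro Y
    rw [← hR, hR0]
    simp
  have hXP : MvPolynomial.X 0 * P = 0 := by
    apply MvPolynomial.funext
    intro x
    rw [map_mul, MvPolynomial.eval_X, map_zero]
    by_cases hx : x 0 = 0
    · rw [hx, zero_mul]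
    · have : x = ![x 0, x 1] := by
        funext i
        fin_cases i <;> rfl
      rw [mul_eq_zero]
      right
      rw [this]
      exact key _ hx _
  rcases mul_eq_zero.1 hXP with h1 | h1
  · exact absurd h1 (MvPolynomial.X_ne_zero 0)
  · exact h1

end Pool.Agent.MSD
end

end

section

/-! # F1b: e2, e4, e6 are algebraically independent (MP_f58a57_nt) -/

open Complex ModularForm EisensteinSeries Filter
open UpperHalfPlane hiding I
open scoped Topology MatrixGroups

noncomputable section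

namespace Pool.Agent.MSD

lemma F1b_im (z : ℂ) (hz : 0 < z.im) (c k : ℕ) :
    c * z + (1 + k * c) ≠ (0 : ℂ) ∧ 0 < ((1 * z + k) / (c * z + (1 + k * c))).im := by
  have hne : c * z + (1 + k * c) ≠ (0 : ℂ) := by
    intro h
    have h1 := congrArg Complex.im h
    have h2 := congrArg Complex.re h
    simp only [add_im, mul_im, natCast_re, natCast_im, zero_mul, one_im, add_zero, zero_im,
      mul_zero, add_re, mul_re, one_re, sub_zero, zero_re] at h1 h2
    rcases mul_eq_zero.1 h1 with h3 | h3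
    · rw [h3] at h2
      simp at h2
    · exact hz.ne' h3
  refine ⟨hne, ?_⟩
  have h0 : 0 < normSq (c * z + (1 + k * c)) := normSq_pos.2 hne
  have h1 : ((1 * z + k) / (c * z + (1 + k * c))).im = z.im / normSq (c * z + (1 + k * c)) := by
    rw [Complex.div_im]
    simp only [one_mul, add_im, mul_im, natCast_re, natCast_im, zero_mul, one_im, add_zero,
      mul_zero, add_re, mul_re, one_re, sub_zero]
    rw [← sub_div]
    congr 1
    ring
  rw [h1]
  positivity

/-- F1b. PROOF. Fix `z`. For coprime `(c, d)`, `c ≥ 1`: `P(m² e2 z + κ c m, m⁴ e4 z, m⁶ e6 z) = 0` with `m = cz + d`, `κ = -6i/π`; for fixed `c` this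
holds for infinitely many `m`, so for all `m ∈ ℂ`; now for fixed `m` it is a polynomial in `c` with infinitely many zeros, so
`P(m² e2 z + u, m⁴ e4 z, m⁶ e6 z) = 0` for all `u ∈ ℂ` and `m ≠ 0`. With `m = 1`: `P(Y, e4 z, e6 z) = 0` for all `Y`: every coefficient (in `Y`) vanishes by F1a. -/
theorem indep_E (P : MvPolynomial (Fin 3) ℂ) (h : ∀ z : ℂ, 0 < z.im → MvPolynomial.eval (fun κ => EE κ z) P = 0) : P = 0 := by
  have hEE : ∀ z : ℂ, (fun κ => EE κ z) = ![e2 z, e4 z, e6 z] := fun z => rfl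
  have hpi : (Real.pi : ℂ) ≠ 0 := by exact_mod_cast Real.pi_ne_zero
  have key : ∀ z : ℂ, 0 < z.im → ∀ Y : ℂ, MvPolynomial.eval ![Y, e4 z, e6 z] P = 0 := by
    intro z hz
    -- the relation for all integers `c ≥ 1` and `m` of the form `cz + d`
    have step1 : ∀ c k : ℕ, MvPolynomial.eval ![(c * z + (1 + k * c)) ^ 2 * e2 z
        + (-6 * I / Real.pi * c) * (c * z + (1 + k * c)),
        (c * z + (1 + k * c)) ^ 4 * e4 z, (c * z + (1 + k * c)) ^ 6 * e6 z] P = 0 := by
      intro c k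
      obtain ⟨hne, him⟩ := F1b_im z hz c k
      have hdet : (1 : ℤ) * (1 + k * c) - k * c = 1 := by ring
      have t2 := e2_transform 1 k c (1 + k * c) hdet z hz
      have t4 := e4_transform 1 k c (1 + k * c) hdet z hz
      have t6 := e6_transform 1 k c (1 + k * c) hdet z hz
      push_cast at t2 t4 t6
      have h1 := h _ him
      rw [hEE, t2, t4, t6] at h1
      rw [← h1]
      congr 2
      rw [sub_eq_add_neg]
      congr 1
      ring
    -- for all `m`
    have step2 : ∀ c : ℕ, 1 ≤ c → ∀ m : ℂ, MvPolynomial.eval ![m ^ 2 * e2 z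
        + (-6 * I / Real.pi * c) * m, m ^ 4 * e4 z, m ^ 6 * e6 z] P = 0 := by
      intro c hc m
      let F : Polynomial ℂ := MvPolynomial.aeval
        ![Polynomial.X ^ 2 * Polynomial.C (e2 z) + Polynomial.C (-6 * I / Real.pi * c) * Polynomial.X,
          Polynomial.X ^ 4 * Polynomial.C (e4 z), Polynomial.X ^ 6 * Polynomial.C (e6 z)] P
      have hF : ∀ m : ℂ, F.eval m = MvPolynomial.eval ![m ^ 2 * e2 z
          + (-6 * I / Real.pi * c) * m, m ^ 4 * e4 z, m ^ 6 * e6 z] P := by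
        intro m
        have h1 : F.eval m = (Polynomial.aeval m) F := (Polynomial.coe_aeval_eq_eval m ▸ rfl)
        rw [h1]
        show (Polynomial.aeval m) ((MvPolynomial.aeval _) P) = _
        rw [MvPolynomial.comp_aeval_apply, ← MvPolynomial.coe_aeval_eq_eval]
        show MvPolynomial.aeval _ P = MvPolynomial.aeval _ P
        congr 2
        funext i
        fin_cases i <;> simp <;> ring
      have hz0 : F = 0 := by
        refine Polynomial.eq_zero_of_infinite_isRoot F ?_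
        refine Set.Infinite.mono (s := Set.range fun k : ℕ => (c * z + (1 + k * c) : ℂ)) ?_ ?_
        · rintro _ ⟨k, rfl⟩
          show F.eval _ = 0
          rw [hF]
          exact step1 c k
        · refine Set.infinite_range_of_injective ?_
          intro k k' hkk
          have h2 : (k : ℂ) * c = k' * c := by
            have : (c * z + (1 + k * c) : ℂ) = c * z + (1 + k' * c) := hkk
            linear_combination this
          have h3 : (c : ℂ) ≠ 0 := by
            have : c ≠ 0 := by omega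
            exact_mod_cast this
          exact_mod_cast mul_right_cancel₀ h3 h2
      rw [← hF, hz0, Polynomial.eval_zero]
    intro Y
    let G : Polynomial ℂ := MvPolynomial.aeval
      ![Polynomial.C (e2 z) + Polynomial.C (-6 * I / Real.pi) * Polynomial.X,
        Polynomial.C (e4 z), Polynomial.C (e6 z)] P
    have hG : ∀ u : ℂ, G.eval u = MvPolynomial.eval ![e2 z + (-6 * I / Real.pi) * u, e4 z, e6 z] P := by
      intro m
      have h1 : G.eval m = (Polynomial.aeval m) G := (Polynomial.coe_aeval_eq_eval m ▸ rfl)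
      rw [h1]
      show (Polynomial.aeval m) ((MvPolynomial.aeval _) P) = _
      rw [MvPolynomial.comp_aeval_apply, ← MvPolynomial.coe_aeval_eq_eval]
      show MvPolynomial.aeval _ P = MvPolynomial.aeval _ P
      congr 2
      funext i
      fin_cases i <;> simp
    have hG0 : G = 0 := by
      refine Polynomial.eq_zero_of_infinite_isRoot G ?_
      refine Set.Infinite.mono (s := Set.range fun k : ℕ => ((k + 1 : ℕ) : ℂ)) ?_ ?_
      · rintro _ ⟨k, rfl⟩
        show G.eval _ = 0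
        rw [hG]
        have := step2 (k + 1) (by omega) 1
        simpa using this
      · refine Set.infinite_range_of_injective ?_
        intro k k' hkk
        have : ((k + 1 : ℕ) : ℂ) = ((k' + 1 : ℕ) : ℂ) := hkk
        have := Nat.cast_injective this
        omega
    have h2 := hG ((Y - e2 z) / (-6 * I / Real.pi))
    rw [hG0, Polynomial.eval_zero] at h2
    have h3 : (-6 * I / Real.pi : ℂ) ≠ 0 := by
      refine div_ne_zero (mul_ne_zero (by norm_num) I_ne_zero) hpi
    rw [h2]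
    congr 2
    rw [mul_div_cancel₀ _ h3, add_sub_cancel]
  refine MvPolynomial.funext fun x => ?_
  rw [map_zero]
  let Q : MvPolynomial (Fin 2) ℂ :=
    MvPolynomial.aeval ![MvPolynomial.C (x 0), MvPolynomial.X 0, MvPolynomial.X 1] P
  have hQ : ∀ a b : ℂ, MvPolynomial.eval ![a, b] Q = MvPolynomial.eval ![x 0, a, b] P := by
    intro a b
    have h1 : MvPolynomial.eval ![a, b] Q = (MvPolynomial.aeval ![a, b]) Q := by
      rw [← MvPolynomial.coe_aeval_eq_eval]; rfl
    rw [h1]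
    show (MvPolynomial.aeval ![a, b]) ((MvPolynomial.aeval _) P) = _
    rw [MvPolynomial.comp_aeval_apply, ← MvPolynomial.coe_aeval_eq_eval]
    show MvPolynomial.aeval _ P = MvPolynomial.aeval _ P
    congr 2
    funext i
    fin_cases i <;> simp
  have hQ0 : Q = 0 := indep_e4_e6 Q fun z hz => by rw [hQ]; exact key z hz _
  have h4 := hQ (x 1) (x 2)
  rw [hQ0, map_zero] at h4
  rw [h4]
  congr 2
  funext i
  fin_cases i <;> rfl

end Pool.Agent.MSD
end

end

section

/-! # F3: elimination at a cusp (MP_f58a57_nt) -/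

open Complex ModularForm EisensteinSeries Filter
open UpperHalfPlane hiding I
open scoped Topology MatrixGroups

noncomputable section

namespace Pool.Agent.MSD

theorem F3_tendsto (α : ℂ) (c : ℕ) (hc : 0 < c) :
    Tendsto (fun k : ℕ => (α + c * k)⁻¹) atTop (𝓝 0) := by
  have h1 : Tendsto (fun k : ℕ => ‖α + c * (k : ℂ)‖) atTop atTop := by
    refine tendsto_atTop_mono (f := fun k : ℕ => (k : ℝ) + -‖α‖) ?_
      (tendsto_atTop_add_const_right _ _ tendsto_natCast_atTop_atTop)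
    intro k
    have h2 : ‖(c * (k : ℂ))‖ ≤ ‖α + c * (k : ℂ)‖ + ‖α‖ := by
      calc ‖(c * (k : ℂ))‖ = ‖(α + c * (k : ℂ)) - α‖ := by rw [add_sub_cancel_left]
        _ ≤ _ := norm_sub_le _ _
    have h3 : ‖(c * (k : ℂ))‖ = (c : ℝ) * k := by
      rw [norm_mul, Complex.norm_natCast, Complex.norm_natCast]
    have h4 : (k : ℝ) ≤ c * k := by
      have : (1 : ℝ) ≤ c := by exact_mod_cast hc
      nlinarith [Nat.cast_nonneg (α := ℝ) k]
    show (k : ℝ) + -‖α‖ ≤ ‖α + c * (k : ℂ)‖
    linarith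
  rw [tendsto_zero_iff_norm_tendsto_zero]
  simp_rw [norm_inv]
  exact tendsto_inv_atTop_zero.comp h1

/-- values of the three Eisenstein series at `γ w`, with `ε = 1/(c w + d)` -/
theorem F3_EE (a b c d : ℤ) (hdet : a * d - b * c = 1) (w : ℂ) (hw : 0 < w.im) (κ : Fin 3) :
    EE κ ((a * w + b) / (c * w + d)) =
      ![(e2 w - 6 * I * c / Real.pi * (c * w + d : ℂ)⁻¹) / ((c * w + d : ℂ)⁻¹) ^ 2,
        e4 w / ((c * w + d : ℂ)⁻¹) ^ 4, e6 w / ((c * w + d : ℂ)⁻¹) ^ 6] κ := by
  have hm : (c * w + d : ℂ) ≠ 0 := by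
    intro h0
    have h1 := congrArg Complex.im h0
    simp only [Complex.add_im, Complex.mul_im, Complex.intCast_im, Complex.intCast_re,
      Complex.zero_im, zero_mul, add_zero, mul_eq_zero, Int.cast_eq_zero] at h1
    rcases h1 with h1 | h1
    · rw [h1] at h0 hdet
      have h2 : (d : ℂ) = 0 := by simpa using h0
      have h3 : d = 0 := by exact_mod_cast h2
      rw [h3] at hdet
      simp at hdet
    · exact hw.ne' h1
  fin_cases κ
  · show e2 _ = _ / _
    rw [e2_transform a b c d hdet w hw]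
    field_simp
  · show e4 _ = _ / _
    rw [e4_transform a b c d hdet w hw]
    field_simp
  · show e6 _ = _ / _
    rw [e6_transform a b c d hdet w hw]
    field_simp

/-- F3. The elimination step. `g : ℂ → (J → ℂ)` are the remaining functions, analytic near the boundary point `x₁`, `P` a polynomial in them and in three more
variables. If `P(g x; e2, e4, e6 (h x)) = 0` for all `x` near `x₁` with `Im h(x) > 0`, and `h(x₁) = p/q` is rational, then all the
coefficients vanish near `x₁`: `P(g x; Y) = 0` as a polynomial in `Y` for `x` near `x₁`, `x ≠ x₁`.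

PROOF. Let `γ = (a b; c d) ∈ SL₂(ℤ)` with `a/c = p/q`, `c ≠ 0`. For fixed `w` in the upper half plane put `m = c(w + k) + d`, `ε = 1/m` (`k ∈ ℕ` large): then
`γ(w+k) = a/c - ε/c`, and `e4(γ(w+k)) = ε⁻⁴ e4 w`, `e6 = ε⁻⁶ e6 w`, `e2 = ε⁻² e2 w + κ c ε⁻¹`, `κ = -6i/π`. Let `X(ε) = h⁻¹(a/c - ε/c)` (analytic near 0, `X 0 = x₁`).
`Θ(ε) = P(g (X ε); ε⁻² e2 w + κ c ε⁻¹, ε⁻⁴ e4 w, ε⁻⁶ e6 w)` is analytic for `0 < |ε| < ρ`, meromorphic at 0 (multiply by a power of `ε`), and vanishes for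
`ε = 1/(c(w+k)+d) → 0`, so it vanishes identically for `0 < |ε| < ρ` (`ρ` does not depend on `w`). For fixed `ε` this is a polynomial identity in
`(e2 w, e4 w, e6 w)` for all `w`, hence `P(g (X ε); Y) = 0` as a polynomial by `indep_E` (the substitution is invertible). -/
theorem cusp_elim {J : Type*} [Finite J] (h : Mob) (x₁ : ℂ) (hx₁ : h.c * x₁ + h.e ≠ 0) (r : ℚ) (hr : h.app x₁ = (r : ℂ))
    (g : ℂ → J → ℂ) (hg : ∀ j, AnalyticAt ℂ (fun x => g x j) x₁) (P : MvPolynomial (Fin 3) (MvPolynomial J ℂ))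
    (hP : ∀ᶠ x in 𝓝 x₁, 0 < h.N x →
      MvPolynomial.eval (fun κ => EE κ (h.app x)) (MvPolynomial.map (MvPolynomial.eval (g x)) P) = 0) :
    ∀ᶠ x in 𝓝[≠] x₁, MvPolynomial.map (MvPolynomial.eval (g x)) P = 0 := by
  classical
  -- the matrix
  obtain ⟨u, v, huv⟩ : IsCoprime r.num (r.den : ℤ) :=
    Int.isCoprime_iff_gcd_eq_one.2 (by
      rw [Int.gcd, Int.natAbs_natCast]
      exact r.reduced)
  obtain ⟨c, hcd⟩ : ∃ c : ℕ, c = r.den := ⟨_, rfl⟩
  obtain ⟨a, had⟩ : ∃ a : ℤ, a = r.num := ⟨_, rfl⟩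
  have hc : 0 < c := hcd ▸ r.den_pos
  have hcC : (c : ℂ) ≠ 0 := by exact_mod_cast hc.ne'
  rw [← hcd, ← had] at huv
  have hrac : (r : ℂ) = a / c := by
    rw [Rat.cast_def, had, hcd]
  -- the curve
  obtain ⟨uu, huu⟩ : ∃ uu : ℂ → ℂ, ∀ ε, uu ε = (r : ℂ) - ε / c := ⟨_, fun _ => rfl⟩
  obtain ⟨Dn, hDn⟩ : ∃ Dn : ℂ → ℂ, ∀ ε, Dn ε = h.a - h.c * uu ε := ⟨_, fun _ => rfl⟩
  obtain ⟨X, hX⟩ : ∃ X : ℂ → ℂ, ∀ ε, X ε = (h.e * uu ε - h.b) / Dn ε := ⟨_, fun _ => rfl⟩
  have huuA : ∀ ε, AnalyticAt ℂ uu ε := by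
    intro ε
    have : uu = fun ε => (r : ℂ) - ε / c := funext huu
    rw [this]
    exact analyticAt_const.sub (analyticAt_id.div analyticAt_const hcC)
  have hDnA : ∀ ε, AnalyticAt ℂ Dn ε := by
    intro ε
    have : Dn = fun ε => h.a - h.c * uu ε := funext hDn
    rw [this]
    exact analyticAt_const.sub (analyticAt_const.mul (huuA ε))
  have hXA : ∀ ε, Dn ε ≠ 0 → AnalyticAt ℂ X ε := by
    intro ε hε
    have : X = fun ε => (h.e * uu ε - h.b) / Dn ε := funext hX
    rw [this]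
    exact ((analyticAt_const.mul (huuA ε)).sub analyticAt_const).div (hDnA ε) hε
  have huu0 : uu 0 = r := by rw [huu, zero_div, sub_zero]
  have hr' : h.a * x₁ + h.b = r * (h.c * x₁ + h.e) := by
    rw [← hr, Mob.app, div_mul_cancel₀ _ hx₁]
  have hD0 : Dn 0 ≠ 0 := by
    rw [hDn, huu0]
    intro h0
    apply h.det
    linear_combination (h.c * x₁ + h.e) * h0 - h.c * hr'
  have hX0 : X 0 = x₁ := by
    rw [hX, div_eq_iff hD0, hDn, huu0]
    linear_combination -hr'
  have happ : ∀ ε, Dn ε ≠ 0 → h.app (X ε) = uu ε ∧ h.c * X ε + h.e ≠ 0 := by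
    intro ε hε
    have e1 : h.c * X ε + h.e = (h.a * h.e - h.b * h.c) / Dn ε := by
      rw [hX, eq_div_iff hε, add_mul, mul_assoc, div_mul_cancel₀ _ hε, hDn]
      ring
    have e2 : h.a * X ε + h.b = (h.a * h.e - h.b * h.c) * uu ε / Dn ε := by
      rw [hX, eq_div_iff hε, add_mul, mul_assoc, div_mul_cancel₀ _ hε, hDn]
      ring
    have e3 : h.c * X ε + h.e ≠ 0 := by
      rw [e1]
      exact div_ne_zero h.det hε
    refine ⟨?_, e3⟩
    rw [Mob.app, div_eq_iff e3, e1, e2]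
    ring
  -- a good ball
  have hgX : ∀ᶠ ε in 𝓝 (0 : ℂ), Dn ε ≠ 0 ∧ ∀ j, AnalyticAt ℂ (fun ε => g (X ε) j) ε := by
    have h1 : ∀ᶠ ε in 𝓝 (0 : ℂ), Dn ε ≠ 0 := (hDnA 0).continuousAt.eventually_ne hD0
    have h2 : ∀ j, ∀ᶠ ε in 𝓝 (0 : ℂ), AnalyticAt ℂ (fun ε => g (X ε) j) ε := by
      intro j
      have h3 : AnalyticAt ℂ (fun x => g x j) (X 0) := by
        rw [hX0]
        exact hg j
      exact (h3.comp (hXA 0 hD0)).eventually_analyticAt
    exact h1.and (eventually_all.2 h2)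
  obtain ⟨ρ, hρ, hball⟩ := Metric.eventually_nhds_iff_ball.1 hgX
  -- the functions
  obtain ⟨K, hK⟩ : ∃ K : ℂ, K = 6 * I * c / Real.pi := ⟨_, rfl⟩
  obtain ⟨wt, hwt⟩ : ∃ wt : (Fin 3 →₀ ℕ) → ℕ, ∀ s, wt s = 2 * s 0 + 4 * s 1 + 6 * s 2 :=
    ⟨_, fun _ => rfl⟩
  obtain ⟨M, hM⟩ : ∃ M : ℕ, M = P.support.sup wt := ⟨_, rfl⟩
  have hsum : ∀ (φ : MvPolynomial J ℂ →+* ℂ) (Y : Fin 3 → ℂ),
      MvPolynomial.eval Y (MvPolynomial.map φ P) =
        ∑ s ∈ P.support, φ (P.coeff s) * (Y 0 ^ s 0 * Y 1 ^ s 1 * Y 2 ^ s 2) := by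
    intro φ Y
    rw [MvPolynomial.eval_map, MvPolynomial.eval₂_eq']
    refine Finset.sum_congr rfl fun s _ => ?_
    rw [Fin.prod_univ_three]
  obtain ⟨f, hf⟩ : ∃ f : ℂ → ℂ → ℂ, ∀ w ε, f w ε = ∑ s ∈ P.support,
      MvPolynomial.eval (g (X ε)) (P.coeff s) *
        ((e2 w - K * ε) ^ s 0 * e4 w ^ s 1 * e6 w ^ s 2) * ε ^ (M - wt s) := ⟨_, fun _ _ => rfl⟩
  have hf2 : ∀ w ε, ε ≠ 0 → f w ε = ε ^ M * MvPolynomial.eval
      ![(e2 w - K * ε) / ε ^ 2, e4 w / ε ^ 4, e6 w / ε ^ 6]
      (MvPolynomial.map (MvPolynomial.eval (g (X ε))) P) := by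
    intro w ε hε
    rw [hf, hsum, Finset.mul_sum]
    refine Finset.sum_congr rfl fun s hs => ?_
    have h1 : wt s ≤ M := hM ▸ Finset.le_sup hs
    have h2 : ε ^ M = ε ^ (M - wt s) * ((ε ^ 2) ^ s 0 * (ε ^ 4) ^ s 1 * (ε ^ 6) ^ s 2) := by
      rw [← pow_mul, ← pow_mul, ← pow_mul, ← pow_add, ← pow_add, ← pow_add]
      congr 1
      rw [hwt] at h1 ⊢
      omega
    show _ = ε ^ M * (_ * (((e2 w - K * ε) / ε ^ 2) ^ s 0 * (e4 w / ε ^ 4) ^ s 1 *
      (e6 w / ε ^ 6) ^ s 2))
    rw [h2, div_pow, div_pow, div_pow]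
    have n1 : (ε ^ 2) ^ s 0 ≠ 0 := pow_ne_zero _ (pow_ne_zero _ hε)
    have n2 : (ε ^ 4) ^ s 1 ≠ 0 := pow_ne_zero _ (pow_ne_zero _ hε)
    have n3 : (ε ^ 6) ^ s 2 ≠ 0 := pow_ne_zero _ (pow_ne_zero _ hε)
    generalize (ε ^ 2) ^ s 0 = A1 at *
    generalize (ε ^ 4) ^ s 1 = A2 at *
    generalize (ε ^ 6) ^ s 2 = A3 at *
    field_simp
  have hfA : ∀ w, ∀ ε ∈ Metric.ball (0 : ℂ) ρ, AnalyticAt ℂ (f w) ε := by
    intro w ε hε
    have : f w = fun ε => ∑ s ∈ P.support, MvPolynomial.eval (g (X ε)) (P.coeff s) *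
        ((e2 w - K * ε) ^ s 0 * e4 w ^ s 1 * e6 w ^ s 2) * ε ^ (M - wt s) := funext (hf w)
    rw [this]
    refine Finset.analyticAt_fun_sum _ fun s _ => ?_
    have a1 : AnalyticAt ℂ (fun ε => MvPolynomial.eval (g (X ε)) (P.coeff s)) ε := by
      have := AnalyticAt.aeval_mvPolynomial (𝕜 := ℂ) (f := fun ε => g (X ε)) (z := ε)
        (hball ε hε).2 (P.coeff s)
      simpa [MvPolynomial.aeval_eq_eval] using this
    have a2 : AnalyticAt ℂ (fun ε : ℂ => (e2 w - K * ε) ^ s 0 * e4 w ^ s 1 * e6 w ^ s 2) ε :=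
      (((analyticAt_const.sub (analyticAt_const.mul analyticAt_id)).pow _).mul
        analyticAt_const).mul analyticAt_const
    exact (a1.mul a2).mul (analyticAt_id.pow _)
  -- the functions vanish
  have hzero : ∀ w : ℂ, 0 < w.im → ∀ ε ∈ Metric.ball (0 : ℂ) ρ, f w ε = 0 := by
    intro w hw
    have hlim := F3_tendsto (c * w + u) c hc
    have hmne : ∀ k : ℕ, (c * w + u + c * k : ℂ) ≠ 0 := by
      intro k h0
      have h1 := congrArg Complex.im h0
      simp only [Complex.add_im, Complex.mul_im, Complex.natCast_im, Complex.natCast_re,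
        Complex.intCast_im, Complex.zero_im, zero_mul, mul_zero, add_zero] at h1
      have h2 : (0 : ℝ) < c := by exact_mod_cast hc
      have : 0 < (c : ℝ) * w.im := mul_pos h2 hw
      linarith
    have hlim' : Tendsto (fun k : ℕ => (c * w + u + c * k : ℂ)⁻¹) atTop (𝓝[≠] 0) := by
      rw [tendsto_nhdsWithin_iff]
      exact ⟨hlim, Eventually.of_forall fun k => inv_ne_zero (hmne k)⟩
    have hXc : Tendsto X (𝓝 0) (𝓝 x₁) := by
      have := (hXA 0 hD0).continuousAt.tendsto
      rwa [hX0] at this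
    have hev : ∀ᶠ k : ℕ in atTop, f w (c * w + u + c * k : ℂ)⁻¹ = 0 := by
      have h1 := hlim.eventually (hXc.eventually hP)
      have h2 := hlim.eventually hgX
      filter_upwards [h1, h2] with k hk1 hk2
      have hne := inv_ne_zero (hmne k)
      rw [hf2 w _ hne]
      obtain ⟨e1, e2'⟩ := happ _ hk2.1
      have hval : uu (c * w + u + c * k : ℂ)⁻¹ =
          (((a : ℤ) : ℂ) * w + ((a * k - v : ℤ) : ℂ)) /
            (((c : ℤ) : ℂ) * w + ((c * k + u : ℤ) : ℂ)) := by
        have hm' : (((c : ℤ) : ℂ) * w + ((c * k + u : ℤ) : ℂ)) = c * w + u + c * k := by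
          push_cast; ring
        rw [hm', huu, hrac, eq_div_iff (hmne k), sub_mul, div_mul_eq_mul_div,
          div_mul_eq_mul_div, inv_mul_cancel₀ (hmne k)]
        have huvC : (u : ℂ) * a + v * c = 1 := by exact_mod_cast huv
        field_simp
        push_cast
        linear_combination huvC
      have hdet : a * (c * k + u : ℤ) - (a * k - v : ℤ) * (c : ℤ) = 1 := by
        linear_combination huv
      have him : 0 < (uu (c * w + u + c * k : ℂ)⁻¹).im := by
        rw [huu]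
        have e3 : ((c * w + u + c * k : ℂ)⁻¹ / c) = ((c * w + u + c * k) * c : ℂ)⁻¹ := by
          rw [mul_inv, div_eq_mul_inv]
        rw [e3, Complex.sub_im, Complex.ratCast_im, Complex.inv_im, zero_sub, neg_div, neg_neg]
        have h2 : (0 : ℝ) < c := by exact_mod_cast hc
        refine div_pos ?_ (Complex.normSq_pos.2 (mul_ne_zero (hmne k) hcC))
        have e4' : ((c * w + u + c * k) * c : ℂ).im = c * w.im * c := by
          simp
        rw [e4']
        positivity
      have hN : 0 < h.N (X (c * w + u + c * k : ℂ)⁻¹) := by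
        have h3 := Mob.im_app h _ e2'
        rw [e1] at h3
        have h4 : 0 < ‖h.c * X (c * w + u + c * k : ℂ)⁻¹ + h.e‖ ^ 2 := by positivity
        rw [h3] at him
        by_contra hcon
        have := div_nonpos_of_nonpos_of_nonneg (not_lt.1 hcon) h4.le
        linarith
      have h5 := hk1 hN
      rw [e1] at h5
      have h6 : (fun κ => EE κ (uu (c * w + u + c * k : ℂ)⁻¹)) =
          ![(e2 w - K * (c * w + u + c * k : ℂ)⁻¹) / ((c * w + u + c * k : ℂ)⁻¹) ^ 2,
            e4 w / ((c * w + u + c * k : ℂ)⁻¹) ^ 4, e6 w / ((c * w + u + c * k : ℂ)⁻¹) ^ 6] := by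
        funext κ
        rw [hval, F3_EE a (a * k - v) c (c * k + u) hdet w hw κ]
        have hm' : (((c : ℤ) : ℂ) * w + ((c * k + u : ℤ) : ℂ)) = c * w + u + c * k := by
          push_cast; ring
        rw [hm', hK, Int.cast_natCast]
      rw [h6] at h5
      rw [h5, mul_zero]
    have hfreq : ∃ᶠ z in 𝓝[≠] (0 : ℂ), f w z = 0 := hlim'.frequently hev.frequently
    have hon : AnalyticOnNhd ℂ (f w) (Metric.ball (0 : ℂ) ρ) := fun ε hε => hfA w ε hε
    have := hon.eqOn_zero_of_preconnected_of_frequently_eq_zero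
      (convex_ball (0 : ℂ) ρ).isPreconnected (Metric.mem_ball_self hρ) hfreq
    exact fun ε hε => this hε
  -- the polynomial vanishes
  have hQ : ∀ ε ∈ Metric.ball (0 : ℂ) ρ, ε ≠ 0 →
      MvPolynomial.map (MvPolynomial.eval (g (X ε))) P = 0 := by
    intro ε hε hε0
    obtain ⟨Q, hQd⟩ : ∃ Q, Q = MvPolynomial.map (MvPolynomial.eval (g (X ε))) P := ⟨_, rfl⟩
    rw [← hQd]
    have h1 : ∀ w : ℂ, 0 < w.im → MvPolynomial.eval
        ![(e2 w - K * ε) / ε ^ 2, e4 w / ε ^ 4, e6 w / ε ^ 6] Q = 0 := by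
      intro w hw
      have h2 := hzero w hw ε hε
      rw [hf2 w ε hε0, ← hQd] at h2
      exact (mul_eq_zero.1 h2).resolve_left (pow_ne_zero _ hε0)
    have hb : ∀ (e : Fin 3 → ℂ) (L : Fin 3 → MvPolynomial (Fin 3) ℂ) (Q : MvPolynomial (Fin 3) ℂ),
        MvPolynomial.eval e (MvPolynomial.bind₁ L Q) =
          MvPolynomial.eval (fun i => MvPolynomial.eval e (L i)) Q :=
      fun e L Q => MvPolynomial.eval₂Hom_bind₁ _ _ _ _
    obtain ⟨L, hL⟩ : ∃ L : Fin 3 → MvPolynomial (Fin 3) ℂ,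
        L = ![MvPolynomial.C (ε ^ 2)⁻¹ * (MvPolynomial.X 0 - MvPolynomial.C (K * ε)),
          MvPolynomial.C (ε ^ 4)⁻¹ * MvPolynomial.X 1,
          MvPolynomial.C (ε ^ 6)⁻¹ * MvPolynomial.X 2] := ⟨_, rfl⟩
    have hLe : ∀ e : Fin 3 → ℂ, (fun i => MvPolynomial.eval e (L i)) =
        ![(e 0 - K * ε) / ε ^ 2, e 1 / ε ^ 4, e 2 / ε ^ 6] := by
      intro e
      funext i
      rw [hL]
      fin_cases i
      · show MvPolynomial.eval e (MvPolynomial.C (ε ^ 2)⁻¹ * (MvPolynomial.X 0 -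
          MvPolynomial.C (K * ε))) = (e 0 - K * ε) / ε ^ 2
        rw [map_mul, map_sub, MvPolynomial.eval_C, MvPolynomial.eval_X, MvPolynomial.eval_C,
          div_eq_inv_mul]
      · show MvPolynomial.eval e (MvPolynomial.C (ε ^ 4)⁻¹ * MvPolynomial.X 1) = e 1 / ε ^ 4
        rw [map_mul, MvPolynomial.eval_C, MvPolynomial.eval_X, div_eq_inv_mul]
      · show MvPolynomial.eval e (MvPolynomial.C (ε ^ 6)⁻¹ * MvPolynomial.X 2) = e 2 / ε ^ 6
        rw [map_mul, MvPolynomial.eval_C, MvPolynomial.eval_X, div_eq_inv_mul]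
    have h2 : MvPolynomial.bind₁ L Q = 0 := by
      refine indep_E _ fun w hw => ?_
      rw [hb, hLe]
      exact h1 w hw
    refine MvPolynomial.funext fun y => ?_
    rw [map_zero]
    have h3 := hb ![ε ^ 2 * y 0 + K * ε, ε ^ 4 * y 1, ε ^ 6 * y 2] L Q
    rw [h2, map_zero, hLe] at h3
    rw [h3]
    congr 2
    funext i
    fin_cases i
    · show y 0 = (ε ^ 2 * y 0 + K * ε - K * ε) / ε ^ 2
      rw [add_sub_cancel_right, mul_div_cancel_left₀ _ (pow_ne_zero _ hε0)]
    · show y 1 = ε ^ 4 * y 1 / ε ^ 4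
      rw [mul_div_cancel_left₀ _ (pow_ne_zero _ hε0)]
    · show y 2 = ε ^ 6 * y 2 / ε ^ 6
      rw [mul_div_cancel_left₀ _ (pow_ne_zero _ hε0)]
  -- back to `x`
  have happA : ContinuousAt (fun x => (c : ℂ) * (r - h.app x)) x₁ := by
    have : h.app = fun x => (h.a * x + h.b) / (h.c * x + h.e) := rfl
    rw [this]
    refine ContinuousAt.mul continuousAt_const (ContinuousAt.sub continuousAt_const ?_)
    exact ContinuousAt.div (by fun_prop) (by fun_prop) hx₁
  have hcx : ∀ᶠ x in 𝓝 x₁, h.c * x + h.e ≠ 0 :=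
    (show ContinuousAt (fun x => h.c * x + h.e) x₁ by fun_prop).eventually_ne hx₁
  have hsm : ∀ᶠ x in 𝓝 x₁, (c : ℂ) * (r - h.app x) ∈ Metric.ball (0 : ℂ) ρ := by
    have h1 : (c : ℂ) * (r - h.app x₁) = 0 := by rw [hr, sub_self, mul_zero]
    have h2 := happA.tendsto
    rw [h1] at h2
    exact h2 (Metric.ball_mem_nhds 0 hρ)
  rw [eventually_nhdsWithin_iff]
  filter_upwards [hcx, hsm] with x hx1 hx2 hx3
  have hu : h.app x * (h.c * x + h.e) = h.a * x + h.b := div_mul_cancel₀ _ hx1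
  have huu1 : uu ((c : ℂ) * (r - h.app x)) = h.app x := by
    rw [huu, mul_div_cancel_left₀ _ hcC, sub_sub_cancel]
  have hXx : X ((c : ℂ) * (r - h.app x)) = x := by
    have hD : Dn ((c : ℂ) * (r - h.app x)) ≠ 0 := by
      rw [hDn, huu1]
      intro h0
      apply h.det
      linear_combination (h.c * x + h.e) * h0 + h.c * hu
    rw [hX, div_eq_iff hD, hDn, huu1]
    linear_combination hu
  have h4 := hQ _ hx2 (by
    intro h0
    rw [h0, hX0] at hXx
    exact hx3 hXx.symm)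
  rwa [hXx] at h4

end Pool.Agent.MSD
end

end

section

/-! # H34: elimination at a cusp, general form (MP_f58a57_nt) -/

open Complex ModularForm EisensteinSeries Filter
open UpperHalfPlane hiding I
open scoped Topology MatrixGroups Polynomial

noncomputable section

namespace Pool.Agent.MSD

theorem h34_tendsto (α : ℂ) (c : ℕ) (hc : 0 < c) :
    Tendsto (fun k : ℕ => (α + c * k)⁻¹) atTop (𝓝 0) := by
  have h1 : Tendsto (fun k : ℕ => ‖α + c * (k : ℂ)‖) atTop atTop := by
    refine tendsto_atTop_mono (f := fun k : ℕ => (k : ℝ) + -‖α‖) ?_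
      (tendsto_atTop_add_const_right _ _ tendsto_natCast_atTop_atTop)
    intro k
    have h2 : ‖(c * (k : ℂ))‖ ≤ ‖α + c * (k : ℂ)‖ + ‖α‖ := by
      calc ‖(c * (k : ℂ))‖ = ‖(α + c * (k : ℂ)) - α‖ := by rw [add_sub_cancel_left]
        _ ≤ _ := norm_sub_le _ _
    have h3 : ‖(c * (k : ℂ))‖ = (c : ℝ) * k := by
      rw [norm_mul, Complex.norm_natCast, Complex.norm_natCast]
    have h4 : (k : ℝ) ≤ c * k := by
      have : (1 : ℝ) ≤ c := by exact_mod_cast hc
      nlinarith [Nat.cast_nonneg (α := ℝ) k]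
    show (k : ℝ) + -‖α‖ ≤ ‖α + c * (k : ℂ)‖
    linarith
  rw [tendsto_zero_iff_norm_tendsto_zero]
  simp_rw [norm_inv]
  exact tendsto_inv_atTop_zero.comp h1

/-- values of the three Eisenstein series at `γ w`, with `ε = 1/(c w + d)` -/
theorem h34_EE (a b c d : ℤ) (hdet : a * d - b * c = 1) (w : ℂ) (hw : 0 < w.im) (κ : Fin 3) :
    EE κ ((a * w + b) / (c * w + d)) =
      ![(e2 w - 6 * I * c / Real.pi * (c * w + d : ℂ)⁻¹) / ((c * w + d : ℂ)⁻¹) ^ 2,
        e4 w / ((c * w + d : ℂ)⁻¹) ^ 4, e6 w / ((c * w + d : ℂ)⁻¹) ^ 6] κ := by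
  have hm : (c * w + d : ℂ) ≠ 0 := by
    intro h0
    have h1 := congrArg Complex.im h0
    simp only [Complex.add_im, Complex.mul_im, Complex.intCast_im, Complex.intCast_re,
      Complex.zero_im, zero_mul, add_zero, mul_eq_zero, Int.cast_eq_zero] at h1
    rcases h1 with h1 | h1
    · rw [h1] at h0 hdet
      have h2 : (d : ℂ) = 0 := by simpa using h0
      have h3 : d = 0 := by exact_mod_cast h2
      rw [h3] at hdet
      simp at hdet
    · exact hw.ne' h1
  fin_cases κ
  · show e2 _ = _ / _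
    rw [e2_transform a b c d hdet w hw]
    field_simp
  · show e4 _ = _ / _
    rw [e4_transform a b c d hdet w hw]
    field_simp
  · show e6 _ = _ / _
    rw [e6_transform a b c d hdet w hw]
    field_simp

/-- H34. General version of `cusp_elim` (`F3_Cusp.lean`: copy its proof; the Möbius transformation is replaced by an analytic function with a local inverse).
PROOF. Let `γ = (a b; c d) ∈ SL₂(ℤ)` with `a/c = q`, `c ≠ 0`. For fixed `w` in the upper half plane put `m = c(w + k) + d`, `ε = 1/m` (`k ∈ ℕ` large): then `γ(w+k) = a/c - ε/c`, and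
`e4(γ(w+k)) = ε⁻⁴ e4 w`, `e6 = ε⁻⁶ e6 w`, `e2 = ε⁻² e2 w + κ c ε⁻¹`, `κ = -6i/π`. Let `X(ε) = M⁻¹(a/c - ε/c)` (analytic near 0, `X 0 = x₁`). `Θ(ε) = pev P (X ε) (ε⁻² e2 w + κ c ε⁻¹, ε⁻⁴ e4 w, ε⁻⁶ e6 w)` is analytic for
`0 < |ε| < ρ`, meromorphic at 0, and vanishes for `ε = 1/(c(w+k)+d) → 0`, so it vanishes identically for `0 < |ε| < ρ` (`ρ` does not depend on `w`). For fixed `ε` this is a polynomial identity in
`(e2 w, e4 w, e6 w)` for all `w`, hence the polynomial with coefficients evaluated at `X ε` is zero by `indep_E` (the substitution is invertible). So all coefficients vanish at all `x ≠ x₁` near `x₁`, and at `x₁` by continuity. -/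
theorem cusp_gen (M : ℂ → ℂ) (x₁ : ℂ) (hM : AnalyticAt ℂ M x₁) (hM' : deriv M x₁ ≠ 0) (q : ℚ) (hq : M x₁ = (q : ℂ))
    (P : MvPolynomial (Fin 3) (ℂ → ℂ)) (hPan : ∀ m, AnalyticAt ℂ (P.coeff m) x₁)
    (hP : ∀ᶠ x in 𝓝 x₁, 0 < (M x).im → pev P x (fun κ => EE κ (M x)) = 0) (m : Fin 3 →₀ ℕ) : ∀ᶠ x in 𝓝 x₁, P.coeff m x = 0 := by
  classical
  -- the matrix
  obtain ⟨u, v, huv⟩ : IsCoprime q.num (q.den : ℤ) :=
    Int.isCoprime_iff_gcd_eq_one.2 (by
      rw [Int.gcd, Int.natAbs_natCast]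
      exact q.reduced)
  obtain ⟨c, hcd⟩ : ∃ c : ℕ, c = q.den := ⟨_, rfl⟩
  obtain ⟨a, had⟩ : ∃ a : ℤ, a = q.num := ⟨_, rfl⟩
  have hc : 0 < c := hcd ▸ q.den_pos
  have hcC : (c : ℂ) ≠ 0 := by exact_mod_cast hc.ne'
  rw [← hcd, ← had] at huv
  have hrac : (q : ℂ) = a / c := by
    rw [Rat.cast_def, had, hcd]
  -- the local inverse
  obtain ⟨G, hG1, hG2, hG3, hG4⟩ : ∃ G : ℂ → ℂ, AnalyticAt ℂ G (q : ℂ) ∧
      (∀ᶠ y in 𝓝 (q : ℂ), M (G y) = y) ∧ (∀ᶠ x in 𝓝 x₁, G (M x) = x) ∧ G (q : ℂ) = x₁ := by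
    refine ⟨hM.hasStrictDerivAt.localInverse _ _ _ hM', ?_, ?_, ?_, ?_⟩
    · rw [← hq]; exact hM.analyticAt_localInverse hM'
    · rw [← hq]; exact HasStrictDerivAt.eventually_right_inverse ..
    · exact HasStrictDerivAt.eventually_left_inverse ..
    · rw [← hq]; exact HasStrictFDerivAt.localInverse_apply_image ..
  -- the curve
  obtain ⟨uu, huu⟩ : ∃ uu : ℂ → ℂ, ∀ ε, uu ε = (q : ℂ) - ε / c := ⟨_, fun _ => rfl⟩
  have huuA : ∀ ε, AnalyticAt ℂ uu ε := by
    intro ε
    have : uu = fun ε => (q : ℂ) - ε / c := funext huu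
    rw [this]
    exact analyticAt_const.sub (analyticAt_id.div analyticAt_const hcC)
  have huu0 : uu 0 = q := by rw [huu, zero_div, sub_zero]
  have huuT : Tendsto uu (𝓝 0) (𝓝 (q : ℂ)) := by
    have := (huuA 0).continuousAt.tendsto
    rwa [huu0] at this
  obtain ⟨X, hX⟩ : ∃ X : ℂ → ℂ, ∀ ε, X ε = G (uu ε) := ⟨_, fun _ => rfl⟩
  have hXA : AnalyticAt ℂ X 0 := by
    have : X = fun ε => G (uu ε) := funext hX
    rw [this]
    have h1 : AnalyticAt ℂ G (uu 0) := by rw [huu0]; exact hG1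
    exact h1.comp (huuA 0)
  have hX0 : X 0 = x₁ := by rw [hX, huu0, hG4]
  have hXc : Tendsto X (𝓝 0) (𝓝 x₁) := by
    have := hXA.continuousAt.tendsto
    rwa [hX0] at this
  -- a good ball
  have hgX : ∀ᶠ ε in 𝓝 (0 : ℂ), M (X ε) = uu ε ∧
      ∀ s ∈ P.support, AnalyticAt ℂ (fun ε => P.coeff s (X ε)) ε := by
    have h1 : ∀ᶠ ε in 𝓝 (0 : ℂ), M (X ε) = uu ε := by
      filter_upwards [huuT.eventually hG2] with ε hε
      rw [hX]; exact hε
    have h2 : ∀ s, ∀ᶠ ε in 𝓝 (0 : ℂ), AnalyticAt ℂ (fun ε => P.coeff s (X ε)) ε := by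
      intro s
      have h3 : AnalyticAt ℂ (P.coeff s) (X 0) := by
        rw [hX0]
        exact hPan s
      exact (h3.comp hXA).eventually_analyticAt
    exact h1.and ((Finset.eventually_all _).2 fun s _ => h2 s)
  obtain ⟨ρ, hρ, hball⟩ := Metric.eventually_nhds_iff_ball.1 hgX
  -- the functions
  obtain ⟨K, hK⟩ : ∃ K : ℂ, K = 6 * I * c / Real.pi := ⟨_, rfl⟩
  obtain ⟨wt, hwt⟩ : ∃ wt : (Fin 3 →₀ ℕ) → ℕ, ∀ s, wt s = 2 * s 0 + 4 * s 1 + 6 * s 2 :=
    ⟨_, fun _ => rfl⟩
  obtain ⟨N, hN⟩ : ∃ N : ℕ, N = P.support.sup wt := ⟨_, rfl⟩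
  have hsum : ∀ (x : ℂ) (Y : Fin 3 → ℂ),
      pev P x Y = ∑ s ∈ P.support, P.coeff s x * (Y 0 ^ s 0 * Y 1 ^ s 1 * Y 2 ^ s 2) := by
    intro x Y
    rw [pev, MvPolynomial.eval_map, MvPolynomial.eval₂_eq']
    refine Finset.sum_congr rfl fun s _ => ?_
    rw [Fin.prod_univ_three]
    rfl
  obtain ⟨f, hf⟩ : ∃ f : ℂ → ℂ → ℂ, ∀ w ε, f w ε = ∑ s ∈ P.support,
      P.coeff s (X ε) *
        ((e2 w - K * ε) ^ s 0 * e4 w ^ s 1 * e6 w ^ s 2) * ε ^ (N - wt s) := ⟨_, fun _ _ => rfl⟩
  have hf2 : ∀ w ε, ε ≠ 0 → f w ε = ε ^ N * pev P (X ε)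
      ![(e2 w - K * ε) / ε ^ 2, e4 w / ε ^ 4, e6 w / ε ^ 6] := by
    intro w ε hε
    rw [hf, hsum, Finset.mul_sum]
    refine Finset.sum_congr rfl fun s hs => ?_
    have h1 : wt s ≤ N := hN ▸ Finset.le_sup hs
    have h2 : ε ^ N = ε ^ (N - wt s) * ((ε ^ 2) ^ s 0 * (ε ^ 4) ^ s 1 * (ε ^ 6) ^ s 2) := by
      rw [← pow_mul, ← pow_mul, ← pow_mul, ← pow_add, ← pow_add, ← pow_add]
      congr 1
      rw [hwt] at h1 ⊢
      omega
    show _ = ε ^ N * (_ * (((e2 w - K * ε) / ε ^ 2) ^ s 0 * (e4 w / ε ^ 4) ^ s 1 *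
      (e6 w / ε ^ 6) ^ s 2))
    rw [h2, div_pow, div_pow, div_pow]
    have n1 : (ε ^ 2) ^ s 0 ≠ 0 := pow_ne_zero _ (pow_ne_zero _ hε)
    have n2 : (ε ^ 4) ^ s 1 ≠ 0 := pow_ne_zero _ (pow_ne_zero _ hε)
    have n3 : (ε ^ 6) ^ s 2 ≠ 0 := pow_ne_zero _ (pow_ne_zero _ hε)
    generalize (ε ^ 2) ^ s 0 = A1 at *
    generalize (ε ^ 4) ^ s 1 = A2 at *
    generalize (ε ^ 6) ^ s 2 = A3 at *
    field_simp
  have hfA : ∀ w, ∀ ε ∈ Metric.ball (0 : ℂ) ρ, AnalyticAt ℂ (f w) ε := by
    intro w ε hε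
    have : f w = fun ε => ∑ s ∈ P.support, P.coeff s (X ε) *
        ((e2 w - K * ε) ^ s 0 * e4 w ^ s 1 * e6 w ^ s 2) * ε ^ (N - wt s) := funext (hf w)
    rw [this]
    refine Finset.analyticAt_fun_sum _ fun s hs => ?_
    have a1 : AnalyticAt ℂ (fun ε => P.coeff s (X ε)) ε := (hball ε hε).2 s hs
    have a2 : AnalyticAt ℂ (fun ε : ℂ => (e2 w - K * ε) ^ s 0 * e4 w ^ s 1 * e6 w ^ s 2) ε :=
      (((analyticAt_const.sub (analyticAt_const.mul analyticAt_id)).pow _).mul
        analyticAt_const).mul analyticAt_const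
    exact (a1.mul a2).mul (analyticAt_id.pow _)
  -- the functions vanish
  have hzero : ∀ w : ℂ, 0 < w.im → ∀ ε ∈ Metric.ball (0 : ℂ) ρ, f w ε = 0 := by
    intro w hw
    have hlim := h34_tendsto (c * w + u) c hc
    have hmne : ∀ k : ℕ, (c * w + u + c * k : ℂ) ≠ 0 := by
      intro k h0
      have h1 := congrArg Complex.im h0
      simp only [Complex.add_im, Complex.mul_im, Complex.natCast_im, Complex.natCast_re,
        Complex.intCast_im, Complex.zero_im, zero_mul, mul_zero, add_zero] at h1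
      have h2 : (0 : ℝ) < c := by exact_mod_cast hc
      have : 0 < (c : ℝ) * w.im := mul_pos h2 hw
      linarith
    have hlim' : Tendsto (fun k : ℕ => (c * w + u + c * k : ℂ)⁻¹) atTop (𝓝[≠] 0) := by
      rw [tendsto_nhdsWithin_iff]
      exact ⟨hlim, Eventually.of_forall fun k => inv_ne_zero (hmne k)⟩
    have hev : ∀ᶠ k : ℕ in atTop, f w (c * w + u + c * k : ℂ)⁻¹ = 0 := by
      have h1 := hlim.eventually (hXc.eventually hP)
      have h2 := hlim.eventually hgX
      filter_upwards [h1, h2] with k hk1 hk2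
      have hne := inv_ne_zero (hmne k)
      rw [hf2 w _ hne]
      have e1 := hk2.1
      have hval : uu (c * w + u + c * k : ℂ)⁻¹ =
          (((a : ℤ) : ℂ) * w + ((a * k - v : ℤ) : ℂ)) /
            (((c : ℤ) : ℂ) * w + ((c * k + u : ℤ) : ℂ)) := by
        have hm' : (((c : ℤ) : ℂ) * w + ((c * k + u : ℤ) : ℂ)) = c * w + u + c * k := by
          push_cast; ring
        rw [hm', huu, hrac, eq_div_iff (hmne k), sub_mul, div_mul_eq_mul_div,
          div_mul_eq_mul_div, inv_mul_cancel₀ (hmne k)]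
        have huvC : (u : ℂ) * a + v * c = 1 := by exact_mod_cast huv
        field_simp
        push_cast
        linear_combination huvC
      have hdet : a * (c * k + u : ℤ) - (a * k - v : ℤ) * (c : ℤ) = 1 := by
        linear_combination huv
      have him : 0 < (uu (c * w + u + c * k : ℂ)⁻¹).im := by
        rw [huu]
        have e3 : ((c * w + u + c * k : ℂ)⁻¹ / c) = ((c * w + u + c * k) * c : ℂ)⁻¹ := by
          rw [mul_inv, div_eq_mul_inv]
        rw [e3, Complex.sub_im, Complex.ratCast_im, Complex.inv_im, zero_sub, neg_div, neg_neg]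
        have h2 : (0 : ℝ) < c := by exact_mod_cast hc
        refine div_pos ?_ (Complex.normSq_pos.2 (mul_ne_zero (hmne k) hcC))
        have e4' : ((c * w + u + c * k) * c : ℂ).im = c * w.im * c := by
          simp
        rw [e4']
        positivity
      have h5 := hk1 (by rw [e1]; exact him)
      rw [e1] at h5
      have h6 : (fun κ => EE κ (uu (c * w + u + c * k : ℂ)⁻¹)) =
          ![(e2 w - K * (c * w + u + c * k : ℂ)⁻¹) / ((c * w + u + c * k : ℂ)⁻¹) ^ 2,
            e4 w / ((c * w + u + c * k : ℂ)⁻¹) ^ 4, e6 w / ((c * w + u + c * k : ℂ)⁻¹) ^ 6] := by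
        funext κ
        rw [hval, h34_EE a (a * k - v) c (c * k + u) hdet w hw κ]
        have hm' : (((c : ℤ) : ℂ) * w + ((c * k + u : ℤ) : ℂ)) = c * w + u + c * k := by
          push_cast; ring
        rw [hm', hK, Int.cast_natCast]
      rw [h6] at h5
      rw [h5, mul_zero]
    have hfreq : ∃ᶠ z in 𝓝[≠] (0 : ℂ), f w z = 0 := hlim'.frequently hev.frequently
    have hon : AnalyticOnNhd ℂ (f w) (Metric.ball (0 : ℂ) ρ) := fun ε hε => hfA w ε hε
    have := hon.eqOn_zero_of_preconnected_of_frequently_eq_zero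
      (convex_ball (0 : ℂ) ρ).isPreconnected (Metric.mem_ball_self hρ) hfreq
    exact fun ε hε => this hε
  -- the polynomial vanishes
  have hQ : ∀ ε ∈ Metric.ball (0 : ℂ) ρ, ε ≠ 0 →
      MvPolynomial.map (Pi.evalRingHom (fun _ : ℂ => ℂ) (X ε)) P = 0 := by
    intro ε hε hε0
    obtain ⟨Q, hQd⟩ : ∃ Q, Q = MvPolynomial.map (Pi.evalRingHom (fun _ : ℂ => ℂ) (X ε)) P :=
      ⟨_, rfl⟩
    rw [← hQd]
    have h1 : ∀ w : ℂ, 0 < w.im → MvPolynomial.eval
        ![(e2 w - K * ε) / ε ^ 2, e4 w / ε ^ 4, e6 w / ε ^ 6] Q = 0 := by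
      intro w hw
      have h2 := hzero w hw ε hε
      rw [hf2 w ε hε0, pev, ← hQd] at h2
      exact (mul_eq_zero.1 h2).resolve_left (pow_ne_zero _ hε0)
    have hb : ∀ (e : Fin 3 → ℂ) (L : Fin 3 → MvPolynomial (Fin 3) ℂ) (Q : MvPolynomial (Fin 3) ℂ),
        MvPolynomial.eval e (MvPolynomial.bind₁ L Q) =
          MvPolynomial.eval (fun i => MvPolynomial.eval e (L i)) Q :=
      fun e L Q => MvPolynomial.eval₂Hom_bind₁ _ _ _ _
    obtain ⟨L, hL⟩ : ∃ L : Fin 3 → MvPolynomial (Fin 3) ℂ,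
        L = ![MvPolynomial.C (ε ^ 2)⁻¹ * (MvPolynomial.X 0 - MvPolynomial.C (K * ε)),
          MvPolynomial.C (ε ^ 4)⁻¹ * MvPolynomial.X 1,
          MvPolynomial.C (ε ^ 6)⁻¹ * MvPolynomial.X 2] := ⟨_, rfl⟩
    have hLe : ∀ e : Fin 3 → ℂ, (fun i => MvPolynomial.eval e (L i)) =
        ![(e 0 - K * ε) / ε ^ 2, e 1 / ε ^ 4, e 2 / ε ^ 6] := by
      intro e
      funext i
      rw [hL]
      fin_cases i
      · show MvPolynomial.eval e (MvPolynomial.C (ε ^ 2)⁻¹ * (MvPolynomial.X 0 -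
          MvPolynomial.C (K * ε))) = (e 0 - K * ε) / ε ^ 2
        rw [map_mul, map_sub, MvPolynomial.eval_C, MvPolynomial.eval_X, MvPolynomial.eval_C,
          div_eq_inv_mul]
      · show MvPolynomial.eval e (MvPolynomial.C (ε ^ 4)⁻¹ * MvPolynomial.X 1) = e 1 / ε ^ 4
        rw [map_mul, MvPolynomial.eval_C, MvPolynomial.eval_X, div_eq_inv_mul]
      · show MvPolynomial.eval e (MvPolynomial.C (ε ^ 6)⁻¹ * MvPolynomial.X 2) = e 2 / ε ^ 6
        rw [map_mul, MvPolynomial.eval_C, MvPolynomial.eval_X, div_eq_inv_mul]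
    have h2 : MvPolynomial.bind₁ L Q = 0 := by
      refine indep_E _ fun w hw => ?_
      rw [hb, hLe]
      exact h1 w hw
    refine MvPolynomial.funext fun y => ?_
    rw [map_zero]
    have h3 := hb ![ε ^ 2 * y 0 + K * ε, ε ^ 4 * y 1, ε ^ 6 * y 2] L Q
    rw [h2, map_zero, hLe] at h3
    rw [h3]
    congr 2
    funext i
    fin_cases i
    · show y 0 = (ε ^ 2 * y 0 + K * ε - K * ε) / ε ^ 2
      rw [add_sub_cancel_right, mul_div_cancel_left₀ _ (pow_ne_zero _ hε0)]
    · show y 1 = ε ^ 4 * y 1 / ε ^ 4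
      rw [mul_div_cancel_left₀ _ (pow_ne_zero _ hε0)]
    · show y 2 = ε ^ 6 * y 2 / ε ^ 6
      rw [mul_div_cancel_left₀ _ (pow_ne_zero _ hε0)]
  -- back to `x`
  have hsm : ∀ᶠ x in 𝓝 x₁, (c : ℂ) * (q - M x) ∈ Metric.ball (0 : ℂ) ρ := by
    have h1 : (c : ℂ) * (q - M x₁) = 0 := by rw [hq, sub_self, mul_zero]
    have h2 : ContinuousAt (fun x => (c : ℂ) * (q - M x)) x₁ :=
      continuousAt_const.mul (continuousAt_const.sub hM.continuousAt)
    have h3 := h2.tendsto
    rw [h1] at h3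
    exact h3 (Metric.ball_mem_nhds 0 hρ)
  have hev : ∀ᶠ x in 𝓝[≠] x₁, P.coeff m x = 0 := by
    rw [eventually_nhdsWithin_iff]
    filter_upwards [hG3, hsm] with x hx1 hx2 hx3
    have huu1 : uu ((c : ℂ) * (q - M x)) = M x := by
      rw [huu, mul_div_cancel_left₀ _ hcC, sub_sub_cancel]
    have hXx : X ((c : ℂ) * (q - M x)) = x := by
      rw [hX, huu1, hx1]
    have h4 := hQ _ hx2 (by
      intro h0
      rw [h0, hX0] at hXx
      exact hx3 hXx.symm)
    rw [hXx] at h4
    have h5 := congrArg (MvPolynomial.coeff m) h4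
    rw [MvPolynomial.coeff_map, MvPolynomial.coeff_zero] at h5
    exact h5
  exact (hPan m).frequently_zero_iff_eventually_zero.1 hev.frequently

end Pool.Agent.MSD
end

end

section

/-! # H35: elimination on an arc of one function (MP_f58a57_nt) -/

open Complex ModularForm EisensteinSeries Filter
open UpperHalfPlane hiding I
open scoped Topology MatrixGroups Polynomial

noncomputable section

namespace Pool.Agent.MSD

/-- H35. PROOF. Take a disc `N` around `x₁` where everything is analytic, `deriv M ≠ 0` and the relation holds on `{Im M > 0}`; `rational_near` gives `y ∈ N` with `M y` rational; `cusp_gen` at `y`; the coefficients are analytic on the disc `N` and vanish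
near `y`, so they vanish on `N`. -/
theorem arc_one (M : ℂ → ℂ) (x₁ : ℂ) (hM : AnalyticAt ℂ M x₁) (hM' : deriv M x₁ ≠ 0) (h0 : (M x₁).im = 0)
    (P : MvPolynomial (Fin 3) (ℂ → ℂ)) (hPan : ∀ m, AnalyticAt ℂ (P.coeff m) x₁)
    (hP : ∀ᶠ x in 𝓝 x₁, 0 < (M x).im → pev P x (fun κ => EE κ (M x)) = 0) (m : Fin 3 →₀ ℕ) : ∀ᶠ x in 𝓝 x₁, P.coeff m x = 0 := by
  have e1 : ∀ᶠ x in 𝓝 x₁, AnalyticAt ℂ M x := hM.eventually_analyticAt
  have e2' : ∀ᶠ x in 𝓝 x₁, deriv M x ≠ 0 := hM.deriv.continuousAt.eventually_ne hM'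
  have e3 : ∀ᶠ x in 𝓝 x₁, ∀ n ∈ P.support, AnalyticAt ℂ (P.coeff n) x := by
    rw [Filter.eventually_all_finset]
    exact fun n _ => (hPan n).eventually_analyticAt
  have e4' : ∀ᶠ x in 𝓝 x₁, ∀ᶠ y in 𝓝 x, 0 < (M y).im → pev P y (fun κ => EE κ (M y)) = 0 :=
    eventually_eventually_nhds.mpr hP
  obtain ⟨ε, hε, hball⟩ := Metric.eventually_nhds_iff_ball.mp (e1.and (e2'.and (e3.and e4')))
  have hcoef : ∀ y ∈ Metric.ball x₁ ε, ∀ n, AnalyticAt ℂ (P.coeff n) y := by
    intro y hy n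
    by_cases hn : n ∈ P.support
    · exact (hball y hy).2.2.1 n hn
    · have : P.coeff n = fun _ => (0 : ℂ) := by
        rw [MvPolynomial.notMem_support_iff] at hn
        rw [hn]; rfl
      rw [this]
      exact analyticAt_const
  obtain ⟨y, hy, q, hq⟩ := rational_near M x₁ hM hM' h0 (Metric.ball x₁ ε) (Metric.ball_mem_nhds _ hε)
  have hby := hball y hy
  have hz := cusp_gen M y hby.1 hby.2.1 q hq P (hcoef y hy) hby.2.2.2 m
  have hon : AnalyticOnNhd ℂ (P.coeff m) (Metric.ball x₁ ε) := fun z hz => hcoef z hz m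
  have hzero := hon.eqOn_zero_of_preconnected_of_eventuallyEq_zero
    (convex_ball x₁ ε).isPreconnected hy hz
  filter_upwards [Metric.ball_mem_nhds x₁ hε] with z hz
  exact hzero hz

end Pool.Agent.MSD
end

end
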