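import Mathlib
import Pool.Agent.Lib.MP_f58a57_nt.FK.K050
import Pool.Agent.Lib.MP_f58a57_nt.FK.K053
import Pool.Agent.Lib.MP_f58a57_nt.M00_Defs

section

/-! # H39: complex relations of real rational functions (MP_f58a57_nt) -/

open Complex ModularForm EisensteinSeries Filter
open UpperHalfPlane hiding I
open scoped Topology MatrixGroups Polynomial

noncomputable section

namespace Pool.Agent.MSD

theorem h39_poly {d : ℕ} (P : Polynomial (KF d))
    (h : {x : ℂ | P.eval₂ (algebraMap (KF d) ℂ) x = 0}.Infinite) : P = 0 := by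
  have h1 : P.map (algebraMap (KF d) ℂ) = 0 := by
    apply Polynomial.eq_zero_of_infinite_isRoot
    refine h.mono fun x hx => ?_
    simp only [Set.mem_ofPred_eq, Polynomial.IsRoot, Polynomial.eval_map] at hx ⊢
    exact hx
  exact (Polynomial.map_eq_zero _).1 h1

theorem h39_evr {d : ℕ} (R : RatFunc (KF d)) (x : ℂ) (hx : dn R x ≠ 0) :
    evr R x * dn R x = R.num.eval₂ (algebraMap (KF d) ℂ) x := by
  unfold evr RatFunc.eval
  exact div_mul_cancel₀ _ hx

/-- the cleared combination -/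
def h39_W {d : ℕ} (R R' : RatFunc (KF d)) (k₀ k₁ k₂ k₃ : KF d) : Polynomial (KF d) :=
  Polynomial.C k₀ * (R.denom * R'.denom) + Polynomial.C k₁ * (R.num * R'.denom) +
    Polynomial.C k₂ * (R.denom * R'.num) + Polynomial.C k₃ * (R.num * R'.num)

theorem h39_eval {d : ℕ} (R R' : RatFunc (KF d)) (k₀ k₁ k₂ k₃ : KF d) (x : ℂ) (hx : dn R x ≠ 0)
    (hx' : dn R' x ≠ 0) :
    (h39_W R R' k₀ k₁ k₂ k₃).eval₂ (algebraMap (KF d) ℂ) x = dn R x * dn R' x *
      ((k₀ : ℂ) + k₁ * evr R x + k₂ * evr R' x + k₃ * (evr R x * evr R' x)) := by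
  have e1 := h39_evr R x hx
  have e2 := h39_evr R' x hx'
  have e3 : R.denom.eval₂ (algebraMap (KF d) ℂ) x = dn R x := rfl
  have e4 : R'.denom.eval₂ (algebraMap (KF d) ℂ) x = dn R' x := rfl
  have ek : ∀ k : KF d, (algebraMap (KF d) ℂ) k = (k : ℂ) := fun k => rfl
  unfold h39_W
  simp only [Polynomial.eval₂_add, Polynomial.eval₂_mul, Polynomial.eval₂_C, ← e1, ← e2, e3, e4, ek]
  ring

theorem h39_inf {d : ℕ} (R R' : RatFunc (KF d)) {S : Set ℂ} (hS : S.Infinite) :
    (S ∩ {x | dn R x ≠ 0 ∧ dn R' x ≠ 0}).Infinite := by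
  have h1 : (S \ ({x | dn R x = 0} ∪ {x | dn R' x = 0})).Infinite :=
    hS.sdiff ((dn_finite R).union (dn_finite R'))
  refine h1.mono fun x hx => ?_
  simp only [Set.mem_sdiff, Set.mem_union, Set.mem_ofPred_eq, not_or] at hx
  exact ⟨hx.1, hx.2⟩

theorem h39_ratfunc {d : ℕ} (R R' : RatFunc (KF d)) (k₀ k₁ k₂ k₃ : KF d)
    (h : h39_W R R' k₀ k₁ k₂ k₃ = 0) :
    RatFunc.C k₀ + RatFunc.C k₁ * R + RatFunc.C k₂ * R' + RatFunc.C k₃ * (R * R') = 0 := by
  have hD : algebraMap (Polynomial (KF d)) (RatFunc (KF d)) R.denom ≠ 0 := by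
    simpa using R.denom_ne_zero
  have hD' : algebraMap (Polynomial (KF d)) (RatFunc (KF d)) R'.denom ≠ 0 := by
    simpa using R'.denom_ne_zero
  have hR : R * algebraMap (Polynomial (KF d)) (RatFunc (KF d)) R.denom =
      algebraMap (Polynomial (KF d)) (RatFunc (KF d)) R.num := by
    nth_rewrite 1 [← RatFunc.num_div_denom R]
    exact div_mul_cancel₀ _ hD
  have hR' : R' * algebraMap (Polynomial (KF d)) (RatFunc (KF d)) R'.denom =
      algebraMap (Polynomial (KF d)) (RatFunc (KF d)) R'.num := by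
    nth_rewrite 1 [← RatFunc.num_div_denom R']
    exact div_mul_cancel₀ _ hD'
  have h1 := congrArg (algebraMap (Polynomial (KF d)) (RatFunc (KF d))) h
  unfold h39_W at h1
  simp only [map_add, map_mul, map_zero, RatFunc.algebraMap_C, ← hR, ← hR'] at h1
  have h2 : (RatFunc.C k₀ + RatFunc.C k₁ * R + RatFunc.C k₂ * R' + RatFunc.C k₃ * (R * R')) *
      (algebraMap (Polynomial (KF d)) (RatFunc (KF d)) R.denom *
        algebraMap (Polynomial (KF d)) (RatFunc (KF d)) R'.denom) = 0 := by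
    rw [← h1]; ring
  exact (mul_eq_zero.1 h2).resolve_right (mul_ne_zero hD hD')

/-- complex relation => relation over `KF d` -/
theorem h39_toK {d : ℕ} (R R' : RatFunc (KF d)) (c₀ c₁ c₂ c₃ : ℂ)
    (hc : ¬ (c₀ = 0 ∧ c₁ = 0 ∧ c₂ = 0 ∧ c₃ = 0))
    (h : {x : ℂ | c₀ + c₁ * evr R x + c₂ * evr R' x + c₃ * (evr R x * evr R' x) = 0}.Infinite) :
    ∃ k₀ k₁ k₂ k₃ : KF d, ¬ (k₀ = 0 ∧ k₁ = 0 ∧ k₂ = 0 ∧ k₃ = 0) ∧ h39_W R R' k₀ k₁ k₂ k₃ = 0 := by
  set φ := algebraMap (KF d) ℂ with hφ
  have hF : Polynomial.C c₀ * (R.denom * R'.denom).map φ + Polynomial.C c₁ * (R.num * R'.denom).map φ +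
      Polynomial.C c₂ * (R.denom * R'.num).map φ + Polynomial.C c₃ * (R.num * R'.num).map φ = 0 := by
    apply Polynomial.eq_zero_of_infinite_isRoot
    refine (h39_inf R R' h).mono fun x hx => ?_
    obtain ⟨hx0, hx1, hx2⟩ := hx
    simp only [Set.mem_ofPred_eq] at hx0
    have e1 := h39_evr R x hx1
    have e2 := h39_evr R' x hx2
    have e3 : R.denom.eval₂ (algebraMap (KF d) ℂ) x = dn R x := rfl
    have e4 : R'.denom.eval₂ (algebraMap (KF d) ℂ) x = dn R' x := rfl
    simp only [Set.mem_ofPred_eq, Polynomial.IsRoot, Polynomial.eval_add, Polynomial.eval_mul,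
      Polynomial.eval_C, Polynomial.eval_map, Polynomial.eval₂_mul, hφ, ← e1, ← e2, e3, e4]
    linear_combination (dn R x * dn R' x) * hx0
  have key : ∀ ψ : Module.Dual (KF d) ℂ, h39_W R R' (ψ c₀) (ψ c₁) (ψ c₂) (ψ c₃) = 0 := by
    intro ψ
    ext m
    have hm := congrArg (fun P : Polynomial ℂ => ψ (P.coeff m)) hF
    have e : ∀ (c : ℂ) (k : KF d), ψ (c * φ k) = ψ c * k := by
      intro c k
      have : c * φ k = k • c := by rw [Algebra.smul_def, mul_comm]
      rw [this, map_smul, smul_eq_mul, mul_comm]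
    simp only [Polynomial.coeff_add, Polynomial.coeff_C_mul, Polynomial.coeff_map, map_add, e,
      Polynomial.coeff_zero, map_zero] at hm
    simp only [h39_W, Polynomial.coeff_add, Polynomial.coeff_C_mul, Polynomial.coeff_zero]
    exact congrArg Subtype.val hm
  by_contra hcon
  have hall : ∀ ψ : Module.Dual (KF d) ℂ, ψ c₀ = 0 ∧ ψ c₁ = 0 ∧ ψ c₂ = 0 ∧ ψ c₃ = 0 := by
    intro ψ
    by_contra hn
    exact hcon ⟨_, _, _, _, hn, key ψ⟩
  apply hc
  refine ⟨?_, ?_, ?_, ?_⟩
  · exact (Module.forall_dual_apply_eq_zero_iff (KF d) c₀).1 fun ψ => (hall ψ).1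
  · exact (Module.forall_dual_apply_eq_zero_iff (KF d) c₁).1 fun ψ => (hall ψ).2.1
  · exact (Module.forall_dual_apply_eq_zero_iff (KF d) c₂).1 fun ψ => (hall ψ).2.2.1
  · exact (Module.forall_dual_apply_eq_zero_iff (KF d) c₃).1 fun ψ => (hall ψ).2.2.2

/-- relation over `KF d` => rational relation -/
theorem h39_toQ {d : ℕ} (hd : 0 < d) (R R' : RatFunc (KF d)) (k₀ k₁ k₂ k₃ : KF d)
    (hk : ¬ (k₀ = 0 ∧ k₁ = 0 ∧ k₂ = 0 ∧ k₃ = 0)) (hW : h39_W R R' k₀ k₁ k₂ k₃ = 0)
    (hA : {x : ℂ | (evr R x).im = 0 ∧ (evr R' x).im = 0}.Infinite) :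
    ∃ q₀ q₁ q₂ q₃ : ℚ, ¬ (q₀ = 0 ∧ q₁ = 0 ∧ q₂ = 0 ∧ q₃ = 0) ∧
      h39_W R R' (q₀ : KF d) (q₁ : KF d) (q₂ : KF d) (q₃ : KF d) = 0 := by
  have hk' : ∀ k : KF d, ∃ u v : ℚ, (k : ℂ) = u + v * rt d := fun k => (mem_KF d _).1 k.2
  obtain ⟨u₀, v₀, e₀⟩ := hk' k₀
  obtain ⟨u₁, v₁, e₁⟩ := hk' k₁
  obtain ⟨u₂, v₂, e₂⟩ := hk' k₂
  obtain ⟨u₃, v₃, e₃⟩ := hk' k₃
  have hsd : Real.sqrt d ≠ 0 := (Real.sqrt_pos.2 (by exact_mod_cast hd)).ne'
  have hrel : ∀ x ∈ {x : ℂ | (evr R x).im = 0 ∧ (evr R' x).im = 0} ∩ {x | dn R x ≠ 0 ∧ dn R' x ≠ 0},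
      (((u₀ : ℂ) + u₁ * evr R x + u₂ * evr R' x + u₃ * (evr R x * evr R' x)) = 0) ∧
      (((v₀ : ℂ) + v₁ * evr R x + v₂ * evr R' x + v₃ * (evr R x * evr R' x)) = 0) := by
    rintro x ⟨⟨hx1, hx2⟩, hx3, hx4⟩
    have h1 := h39_eval R R' k₀ k₁ k₂ k₃ x hx3 hx4
    rw [hW, Polynomial.eval₂_zero] at h1
    have h2 := (mul_eq_zero.1 h1.symm).resolve_left (mul_ne_zero hx3 hx4)
    obtain ⟨a, ha⟩ : ∃ a : ℝ, evr R x = a := ⟨(evr R x).re, Complex.ext (by simp) (by simp [hx1])⟩
    obtain ⟨b, hb⟩ : ∃ b : ℝ, evr R' x = b := ⟨(evr R' x).re, Complex.ext (by simp) (by simp [hx2])⟩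
    rw [ha, hb, e₀, e₁, e₂, e₃] at h2
    have h3 : (((u₀ + u₁ * a + u₂ * b + u₃ * (a * b) : ℝ) : ℂ)) +
        (((v₀ + v₁ * a + v₂ * b + v₃ * (a * b)) * Real.sqrt d : ℝ) : ℂ) * I = 0 := by
      rw [← h2]; unfold rt; push_cast; ring
    have h4 := congrArg Complex.re h3
    have h5 := congrArg Complex.im h3
    simp only [Complex.add_re, Complex.add_im, Complex.ofReal_re, Complex.ofReal_im,
      Complex.re_ofReal_mul, Complex.im_ofReal_mul, Complex.I_re, Complex.I_im, mul_zero, mul_one,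
      add_zero, zero_add, Complex.zero_re, Complex.zero_im] at h4 h5
    have h6 := (mul_eq_zero.1 h5).resolve_right hsd
    rw [ha, hb]
    constructor
    · have := congrArg (fun t : ℝ => (t : ℂ)) h4
      push_cast at this
      exact this
    · have := congrArg (fun t : ℝ => (t : ℂ)) h6
      push_cast at this
      exact this
  have fin : ∀ q₀ q₁ q₂ q₃ : ℚ,
      (∀ x ∈ {x : ℂ | (evr R x).im = 0 ∧ (evr R' x).im = 0} ∩ {x | dn R x ≠ 0 ∧ dn R' x ≠ 0},
        (((q₀ : ℂ) + q₁ * evr R x + q₂ * evr R' x + q₃ * (evr R x * evr R' x)) = 0)) →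
      h39_W R R' (q₀ : KF d) (q₁ : KF d) (q₂ : KF d) (q₃ : KF d) = 0 := by
    intro q₀ q₁ q₂ q₃ hq
    apply h39_poly
    refine (h39_inf R R' hA).mono fun x hx => ?_
    have h1 := h39_eval R R' (q₀ : KF d) (q₁ : KF d) (q₂ : KF d) (q₃ : KF d) x hx.2.1 hx.2.2
    have h2 := hq x hx
    simp only [Set.mem_ofPred_eq]
    rw [h1]
    push_cast
    rw [h2, mul_zero]
  by_cases hu : u₀ = 0 ∧ u₁ = 0 ∧ u₂ = 0 ∧ u₃ = 0
  · refine ⟨v₀, v₁, v₂, v₃, ?_, fin _ _ _ _ fun x hx => (hrel x hx).2⟩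
    rintro ⟨w₀, w₁, w₂, w₃⟩
    obtain ⟨z₀, z₁, z₂, z₃⟩ := hu
    apply hk
    refine ⟨?_, ?_, ?_, ?_⟩
    · apply Subtype.ext; rw [e₀, z₀, w₀]; simp
    · apply Subtype.ext; rw [e₁, z₁, w₁]; simp
    · apply Subtype.ext; rw [e₂, z₂, w₂]; simp
    · apply Subtype.ext; rw [e₃, z₃, w₃]; simp
  · exact ⟨u₀, u₁, u₂, u₃, hu, fin _ _ _ _ fun x hx => (hrel x hx).1⟩

/-- H39. PROOF. Let `f = (1, R, R', R R')`. The vectors `(f_k(x))_k`, `x ∈ KF d` not a pole, span a subspace `W` of `(KF d)^4`; vectors linearly independent over `KF d` are linearly independent over `ℂ` (nonzero minors), and `W` lies in the kernel of the nonzero complex linear form given by the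
relation (the relation holds on an infinite set, so identically: multiply by the denominators), so `W ≠ (KF d)^4` and there is a nonzero `c ∈ (KF d)^4` with `Σ c_k f_k(x) = 0` for all these `x`, hence `Σ c_k f_k = 0` (`evr_inj`). Write `c_k = u_k + v_k √(-d)`, `u, v` rational. On the infinite set `A` the
`f_k` are real, so `Σ u_k f_k = 0 = Σ v_k f_k` on `A`, hence identically; one of `u, v` is nonzero: rational `α + β R + γ R' + ε R R' = 0`. This is `R' (ε R + γ) = - β R - α`; the determinant `-βγ + αε` is nonzero: if `αε = βγ` and `ε ≠ 0` then `(ε R' + β)(ε R + γ) = 0`; if `ε = 0` then `β = 0` or `γ = 0`, and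
`R'` or `R` is constant or `α = ... = 0`; contradiction. -/
theorem rat_rel {d : ℕ} (hd : 0 < d) (R R' : RatFunc (KF d)) (hR : ¬ ∃ c, R = RatFunc.C c) (hR' : ¬ ∃ c, R' = RatFunc.C c)
    (c₀ c₁ c₂ c₃ : ℂ) (hc : ¬ (c₀ = 0 ∧ c₁ = 0 ∧ c₂ = 0 ∧ c₃ = 0))
    (h : {x : ℂ | c₀ + c₁ * evr R x + c₂ * evr R' x + c₃ * (evr R x * evr R' x) = 0}.Infinite)
    (hA : {x : ℂ | (evr R x).im = 0 ∧ (evr R' x).im = 0}.Infinite) : GRel R R' := by
  obtain ⟨k₀, k₁, k₂, k₃, hk, hW⟩ := h39_toK R R' c₀ c₁ c₂ c₃ hc h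
  obtain ⟨α, β, γ, ε, hq, hW'⟩ := h39_toQ hd R R' k₀ k₁ k₂ k₃ hk hW hA
  have hrel := h39_ratfunc R R' _ _ _ _ hW'
  have hC : ∀ q : ℚ, (RatFunc.C (q : KF d) : RatFunc (KF d)) = 0 → q = 0 := by
    intro q hq0
    have h1 : (q : KF d) = 0 := RatFunc.C_injective (by rw [hq0, map_zero])
    exact_mod_cast h1
  refine ⟨-β, -α, ε, γ, ?_, ?_⟩
  · intro hdet
    have hdet' : α * ε = β * γ := by linear_combination hdet
    by_cases hε : ε = 0
    · subst hε
      have hbg : β * γ = 0 := by rw [← hdet', mul_zero]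
      rw [Rat.cast_zero, map_zero, zero_mul, add_zero] at hrel
      by_cases hβ : β = 0
      · subst hβ
        rw [Rat.cast_zero, map_zero, zero_mul, add_zero] at hrel
        by_cases hγ : γ = 0
        · subst hγ
          rw [Rat.cast_zero, map_zero, zero_mul, add_zero] at hrel
          exact hq ⟨hC _ hrel, rfl, rfl, rfl⟩
        · apply hR'
          refine ⟨-(α : KF d) / (γ : KF d), ?_⟩
          have hγ' : (RatFunc.C (γ : KF d) : RatFunc (KF d)) ≠ 0 := fun h0 => hγ (hC _ h0)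
          rw [map_div₀, map_neg]
          field_simp
          linear_combination hrel
      · have hγ : γ = 0 := (mul_eq_zero.1 hbg).resolve_left hβ
        subst hγ
        rw [Rat.cast_zero, map_zero, zero_mul, add_zero] at hrel
        apply hR
        refine ⟨-(α : KF d) / (β : KF d), ?_⟩
        have hβ' : (RatFunc.C (β : KF d) : RatFunc (KF d)) ≠ 0 := fun h0 => hβ (hC _ h0)
        rw [map_div₀, map_neg]
        field_simp
        linear_combination hrel
    · have hε' : (RatFunc.C (ε : KF d) : RatFunc (KF d)) ≠ 0 := fun h0 => hε (hC _ h0)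
      have hdC : (RatFunc.C (α : KF d) : RatFunc (KF d)) * RatFunc.C (ε : KF d) =
          RatFunc.C (β : KF d) * RatFunc.C (γ : KF d) := by
        rw [← map_mul, ← map_mul, ← Rat.cast_mul, ← Rat.cast_mul, hdet']
      have hprod : (RatFunc.C (ε : KF d) * R' + RatFunc.C (β : KF d)) *
          (RatFunc.C (ε : KF d) * R + RatFunc.C (γ : KF d)) = 0 := by
        linear_combination (RatFunc.C (ε : KF d)) * hrel - hdC
      rcases mul_eq_zero.1 hprod with h0 | h0
      · apply hR'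
        refine ⟨-(β : KF d) / (ε : KF d), ?_⟩
        rw [map_div₀, map_neg]
        field_simp
        linear_combination h0
      · apply hR
        refine ⟨-(γ : KF d) / (ε : KF d), ?_⟩
        rw [map_div₀, map_neg]
        field_simp
        linear_combination h0
  · rw [Rat.cast_neg, Rat.cast_neg, map_neg, map_neg]
    linear_combination hrel

end Pool.Agent.MSD
end

end

section

/-! # M13: representation of the elements of the field (MP_f58a57_nt) -/

open Complex ModularForm EisensteinSeries Filter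
open UpperHalfPlane hiding I
open scoped Topology MatrixGroups Polynomial

noncomputable section

namespace Pool.Agent.MSD

/-- M13. PROOF. The set of the values `U(t)/V(t)` is closed under addition, multiplication, inverses and contains `ℚ`, `rt (d b)` (`rt_mem_KF`) and `t l`, `bl l = b`: `IntermediateField.adjoin_induction`. -/
theorem mem_rep {s r : ℕ} (bl : Fin s → Fin r) (d : Fin r → ℕ) (t : Fin s → ℝ) (b : Fin r) (z : ℂ) (hz : z ∈ FB bl d t b) :
    ∃ U V : MvPolynomial (Fin s) (KF (d b)), (∀ l ∈ U.vars, bl l = b) ∧ (∀ l ∈ V.vars, bl l = b) ∧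
      MvPolynomial.aeval (fun l => (t l : ℂ)) V ≠ 0 ∧
      z = MvPolynomial.aeval (fun l => (t l : ℂ)) U / MvPolynomial.aeval (fun l => (t l : ℂ)) V := by
  classical
  have hmulv : ∀ P Q : MvPolynomial (Fin s) (KF (d b)), (∀ l ∈ P.vars, bl l = b) → (∀ l ∈ Q.vars, bl l = b) →
      ∀ l ∈ (P * Q).vars, bl l = b := by
    intro P Q hP hQ l hl
    rcases Finset.mem_union.1 (MvPolynomial.vars_mul P Q hl) with h | h
    · exact hP l h
    · exact hQ l h
  have haddv : ∀ P Q : MvPolynomial (Fin s) (KF (d b)), (∀ l ∈ P.vars, bl l = b) → (∀ l ∈ Q.vars, bl l = b) →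
      ∀ l ∈ (P + Q).vars, bl l = b := by
    intro P Q hP hQ l hl
    rcases Finset.mem_union.1 (MvPolynomial.vars_add_subset P Q hl) with h | h
    · exact hP l h
    · exact hQ l h
  have hCv : ∀ c : KF (d b), ∀ l ∈ (MvPolynomial.C c : MvPolynomial (Fin s) (KF (d b))).vars, bl l = b := by
    intro c l hl
    simp [MvPolynomial.vars_C] at hl
  have h1v : ∀ l ∈ (1 : MvPolynomial (Fin s) (KF (d b))).vars, bl l = b := by
    intro l hl
    have := hCv 1 l
    rw [MvPolynomial.C_1] at this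
    exact this hl
  unfold FB at hz
  induction hz using IntermediateField.adjoin_induction with
  | mem x hx =>
    rcases hx with hx | ⟨l, hl, hx⟩
    · refine ⟨MvPolynomial.C ⟨rt (d b), rt_mem_KF (d b)⟩, 1, hCv _, h1v, ?_, ?_⟩
      · simp
      · rw [Set.mem_singleton_iff] at hx
        rw [hx, MvPolynomial.aeval_C, map_one, div_one]
        rfl
    · refine ⟨MvPolynomial.X l, 1, ?_, h1v, ?_, ?_⟩
      · intro l' hl'
        rw [MvPolynomial.vars_X, Finset.mem_singleton] at hl'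
        rw [hl']; exact hl
      · simp
      · simp [hx]
  | algebraMap x =>
    refine ⟨MvPolynomial.C (algebraMap ℚ (KF (d b)) x), 1, hCv _, h1v, ?_, ?_⟩
    · simp
    · rw [MvPolynomial.aeval_C, map_one, div_one]
      rw [← IsScalarTower.algebraMap_apply ℚ (KF (d b)) ℂ]
  | add x y _ _ hx hy =>
    obtain ⟨U, V, hU, hV, h0, h1⟩ := hx
    obtain ⟨U', V', hU', hV', h0', h1'⟩ := hy
    refine ⟨U * V' + V * U', V * V', haddv _ _ (hmulv _ _ hU hV') (hmulv _ _ hV hU'), hmulv _ _ hV hV', ?_, ?_⟩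
    · rw [map_mul]; exact mul_ne_zero h0 h0'
    · rw [map_mul, map_add, map_mul, map_mul, h1, h1', div_add_div _ _ h0 h0']
  | inv x _ hx =>
    obtain ⟨U, V, hU, hV, h0, h1⟩ := hx
    by_cases hU0 : MvPolynomial.aeval (fun l => (t l : ℂ)) U = 0
    · refine ⟨0, 1, ?_, h1v, ?_, ?_⟩
      · intro l hl
        simp at hl
      · simp
      · rw [h1, hU0]; simp
    · refine ⟨V, U, hV, hU, hU0, ?_⟩
      rw [h1, inv_div]
  | mul x y _ _ hx hy =>
    obtain ⟨U, V, hU, hV, h0, h1⟩ := hx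
    obtain ⟨U', V', hU', hV', h0', h1'⟩ := hy
    refine ⟨U * U', V * V', hmulv _ _ hU hU', hmulv _ _ hV hV', ?_, ?_⟩
    · rw [map_mul]; exact mul_ne_zero h0 h0'
    · rw [map_mul, map_mul, h1, h1', div_mul_div_comm]

end Pool.Agent.MSD
end

end

section

/-! # F4: functional independence (MP_f58a57_nt) -/

open Complex ModularForm EisensteinSeries Filter
open UpperHalfPlane hiding I
open scoped Topology MatrixGroups

noncomputable section

namespace Pool.Agent.MSD

theorem F4_EE_analytic (κ : Fin 3) (z : ℂ) (hz : 0 < z.im) : AnalyticAt ℂ (EE κ) z := by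
  have hs : {z : ℂ | 0 < z.im} ∈ 𝓝 z :=
    (isOpen_lt continuous_const Complex.continuous_im).mem_nhds hz
  fin_cases κ
  · exact e2_diff.analyticAt hs
  · exact e4_diff.analyticAt hs
  · exact e6_diff.analyticAt hs

theorem F4_app_analytic (H : Mob) (x : ℂ) (hx : H.c * x + H.e ≠ 0) : AnalyticAt ℂ H.app x := by
  have h1 : AnalyticAt ℂ (fun x : ℂ => H.a * x + H.b) x :=
    (analyticAt_const.mul analyticAt_id).add analyticAt_const
  have h2 : AnalyticAt ℂ (fun x : ℂ => H.c * x + H.e) x :=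
    (analyticAt_const.mul analyticAt_id).add analyticAt_const
  exact h1.div h2 hx

theorem F4_im_pos (H : Mob) (x : ℂ) (hx : 0 < H.N x) : 0 < (H.app x).im := by
  have hd := H.den_ne x hx.ne'
  rw [H.im_app x hd]
  exact div_pos hx (by positivity)

theorem F4_N_pos (H : Mob) (x : ℂ) (hd : H.c * x + H.e ≠ 0) (hx : 0 < (H.app x).im) :
    0 < H.N x := by
  rw [H.im_app x hd] at hx
  by_contra hc
  have : H.N x / ‖H.c * x + H.e‖ ^ 2 ≤ 0 := div_nonpos_of_nonpos_of_nonneg (not_lt.1 hc) (by positivity)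
  linarith

/-- the functions are analytic -/
theorem fam_analytic {ι : Type} (h : ι → Mob) (t : ℂ) (hpos : ∀ i, 0 < (h i).N t) (ν : Option (ι × Fin 3)) :
    AnalyticAt ℂ (fun x => fam h x ν) t := by
  rcases ν with _ | ⟨i, κ⟩
  · exact analyticAt_id
  · have h1 := F4_app_analytic (h i) t ((h i).den_ne t (hpos i).ne')
    have h2 := F4_EE_analytic κ ((h i).app t) (F4_im_pos (h i) t (hpos i))
    exact h2.comp h1

theorem F4_eval_analytic {J : Type} (F : ℂ → J → ℂ) (x : ℂ) (hF : ∀ j, AnalyticAt ℂ (fun x => F x j) x)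
    (P : MvPolynomial J ℂ) : AnalyticAt ℂ (fun x => MvPolynomial.eval (F x) P) x := by
  have h1 := AnalyticAt.aeval_mvPolynomial (𝕜 := ℂ) (A := ℂ) (f := F) (z := x) hF P
  refine h1.congr (Eventually.of_forall fun y => ?_)
  simp only [MvPolynomial.aeval_eq_eval]

/-- the inverse of a Möbius transformation -/
def F4_inv (H : Mob) (z : ℂ) : ℂ := (H.e * z - H.b) / (H.a - H.c * z)

theorem F4_inv1 (H : Mob) (x : ℂ) (hx : H.c * x + H.e ≠ 0) :
    H.a - H.c * H.app x ≠ 0 ∧ F4_inv H (H.app x) = x := by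
  have h0 : H.app x * (H.c * x + H.e) = H.a * x + H.b := by
    unfold Mob.app
    exact div_mul_cancel₀ _ hx
  have h1 : (H.a - H.c * H.app x) * (H.c * x + H.e) = H.a * H.e - H.b * H.c := by
    linear_combination -H.c * h0
  have h2 : H.a - H.c * H.app x ≠ 0 := by
    intro hc
    rw [hc, zero_mul] at h1
    exact H.det h1.symm
  refine ⟨h2, ?_⟩
  unfold F4_inv
  rw [div_eq_iff h2]
  linear_combination h0

theorem F4_inv2 (H : Mob) (z : ℂ) (hz : H.a - H.c * z ≠ 0) :
    H.c * F4_inv H z + H.e ≠ 0 ∧ H.app (F4_inv H z) = z := by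
  have h0 : F4_inv H z * (H.a - H.c * z) = H.e * z - H.b := by
    unfold F4_inv
    exact div_mul_cancel₀ _ hz
  have h1 : (H.c * F4_inv H z + H.e) * (H.a - H.c * z) = H.a * H.e - H.b * H.c := by
    linear_combination H.c * h0
  have h2 : H.c * F4_inv H z + H.e ≠ 0 := by
    intro hc
    rw [hc, zero_mul] at h1
    exact H.det h1.symm
  refine ⟨h2, ?_⟩
  unfold Mob.app
  rw [div_eq_iff h2]
  linear_combination h0

theorem F4_inv_continuousAt (H : Mob) (z : ℂ) (hz : H.a - H.c * z ≠ 0) :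
    ContinuousAt (F4_inv H) z := by
  unfold F4_inv
  exact ContinuousAt.div (by fun_prop) (by fun_prop) hz

/-- the splitting of the variables -/
theorem F4_eval_sum {S₁ S₂ : Type} (a : S₁ → ℂ) (b : S₂ → ℂ) (Q : MvPolynomial (S₁ ⊕ S₂) ℂ) :
    MvPolynomial.eval a (MvPolynomial.map (MvPolynomial.eval b) (MvPolynomial.sumAlgEquiv ℂ S₁ S₂ Q)) =
      MvPolynomial.eval (Sum.elim a b) Q := by
  induction Q using MvPolynomial.induction_on with
  | C r =>
    rw [MvPolynomial.sumAlgEquiv_C_inl, MvPolynomial.map_C, MvPolynomial.eval_C,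
      MvPolynomial.eval_C, MvPolynomial.eval_C]
  | add p q hp hq => rw [map_add, map_add, map_add, map_add, hp, hq]
  | mul_X p s hp =>
    rw [map_mul, map_mul, map_mul, map_mul, hp, MvPolynomial.eval_X]
    congr 1
    rcases s with s | s
    · rw [MvPolynomial.sumAlgEquiv_X_inl, MvPolynomial.map_X, MvPolynomial.eval_X]
      rfl
    · rw [MvPolynomial.sumAlgEquiv_X_inr, MvPolynomial.map_C, MvPolynomial.eval_C,
        MvPolynomial.eval_X]
      rfl

open Classical in
/-- the variables of `i₀` and the others -/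
def F4_split {ι : Type} (i₀ : ι) (ν : Option (ι × Fin 3)) :
    Fin 3 ⊕ Option ({i : ι // i ≠ i₀} × Fin 3) :=
  match ν with
  | none => Sum.inr none
  | some (i, κ) => if hi : i = i₀ then Sum.inl κ else Sum.inr (some (⟨i, hi⟩, κ))

theorem F4_split_inj {ι : Type} (i₀ : ι) : Function.Injective (F4_split i₀) := by
  classical
  rintro (_ | ⟨i, κ⟩) (_ | ⟨i', κ'⟩) hh
  · rfl
  · exfalso
    unfold F4_split at hh
    by_cases hi : i' = i₀
    · simp [hi] at hh
    · simp [hi] at hh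
  · exfalso
    unfold F4_split at hh
    by_cases hi : i = i₀
    · simp [hi] at hh
    · simp [hi] at hh
  · unfold F4_split at hh
    by_cases hi : i = i₀
    · by_cases hi' : i' = i₀
      · simp only [dif_pos hi, dif_pos hi', Sum.inl.injEq] at hh
        rw [hi, hi', hh]
      · simp [hi, hi'] at hh
    · by_cases hi' : i' = i₀
      · simp [hi, hi'] at hh
      · simp only [dif_neg hi, dif_neg hi', Sum.inr.injEq, Option.some.injEq, Prod.mk.injEq,
          Subtype.mk.injEq] at hh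
        rw [hh.1, hh.2]

theorem F4_split_fam {ι : Type} (h : ι → Mob) (i₀ : ι) (x : ℂ) (ν : Option (ι × Fin 3)) :
    Sum.elim (fun κ => EE κ ((h i₀).app x)) (fam (fun i : {i : ι // i ≠ i₀} => h i.1) x)
      (F4_split i₀ ν) = fam h x ν := by
  classical
  rcases ν with _ | ⟨i, κ⟩
  · rfl
  · unfold F4_split
    by_cases hi : i = i₀
    · simp only [dif_pos hi, Sum.elim_inl]
      rw [hi]
      rfl
    · simp only [dif_neg hi, Sum.elim_inr]
      rfl

/-- the segment -/
def F4_seg (t y : ℂ) (s : ℝ) : ℂ := t + s * (y - t)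

theorem F4_seg_cont (t y : ℂ) : Continuous (F4_seg t y) := by
  unfold F4_seg
  fun_prop

theorem F4_aux (n : ℕ) : ∀ {ι : Type} [Finite ι] (_ : Nat.card ι = n) (h : ι → Mob) (t : ℂ)
    (_ : ∀ i, 0 < (h i).N t) (_ : ∀ i j, i ≠ j → (h i).Ne (h j))
    (P : MvPolynomial (Option (ι × Fin 3)) ℂ)
    (_ : ∀ᶠ x in 𝓝 t, MvPolynomial.eval (fam h x) P = 0), P = 0 := by
  induction n with
  | zero =>
    intro ι _ hn h t _ _ P hP
    have hι : IsEmpty ι := by
      rcases Nat.card_eq_zero.1 hn with h1 | h1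
      · exact h1
      · exact absurd h1 (not_infinite_iff_finite.2 inferInstance)
    have h1 : ∀ ν : Option (ι × Fin 3), ν = none := by
      rintro (_ | ⟨i, _⟩)
      · rfl
      · exact (hι.false i).elim
    have h2 : ({x : ℂ | MvPolynomial.eval (fam h x) P = 0}).Infinite :=
      infinite_of_mem_nhds t hP
    refine MvPolynomial.funext_set
      (fun _ : Option (ι × Fin 3) => {x : ℂ | MvPolynomial.eval (fam h x) P = 0})
      (fun _ => h2) ?_
    intro x hx
    have h3 : x = fam h (x none) := by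
      funext ν
      rw [h1 ν]
      rfl
    have h4 : MvPolynomial.eval (fam h (x none)) P = 0 := hx none (Set.mem_univ _)
    rw [map_zero, h3]
    exact h4
  | succ n ih =>
    intro ι _ hn h t hpos hne P hP
    have := Fintype.ofFinite ι
    have hne' : Nonempty ι := (Nat.card_pos_iff.1 (by omega)).1
    obtain ⟨y, s₀, i₀, hs₀, hseg, hN0, hNi, hden⟩ := exit_point h t hpos hne
    -- the other transformations
    have hcard : Nat.card {i : ι // i ≠ i₀} = n := by
      classical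
      have h1 : Nat.card ι = Nat.card {i : ι // i = i₀} + Nat.card {i : ι // ¬ i = i₀} := by
        rw [← Nat.card_sum]
        exact Nat.card_congr (Equiv.sumCompl (fun i => i = i₀)).symm
      have h2 : Nat.card {i : ι // i = i₀} = 1 := by
        rw [Nat.card_eq_fintype_card]
        exact Fintype.card_subtype_eq i₀
      have h3 : Nat.card {i : ι // i ≠ i₀} = Nat.card {i : ι // ¬ i = i₀} := rfl
      omega
    set h' : {i : ι // i ≠ i₀} → Mob := fun i => h i.1 with hh'
    set H := h i₀ with hH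
    let P' : MvPolynomial (Fin 3) (MvPolynomial (Option ({i : ι // i ≠ i₀} × Fin 3)) ℂ) :=
      MvPolynomial.sumAlgEquiv ℂ _ _ (MvPolynomial.rename (F4_split i₀) P)
    have hP' : ∀ x, MvPolynomial.eval (fun κ => EE κ (H.app x))
        (MvPolynomial.map (MvPolynomial.eval (fam h' x)) P') = MvPolynomial.eval (fam h x) P := by
      intro x
      rw [F4_eval_sum, MvPolynomial.eval_rename]
      congr 2
      funext ν
      exact F4_split_fam h i₀ x ν
    -- it suffices that `P' = 0`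
    suffices hmain : P' = 0 by
      have h1 : MvPolynomial.rename (F4_split i₀) P = 0 := by
        apply (MvPolynomial.sumAlgEquiv ℂ (Fin 3) (Option ({i : ι // i ≠ i₀} × Fin 3))).injective
        rw [map_zero]
        exact hmain
      exact MvPolynomial.rename_injective _ (F4_split_inj i₀) (by rw [h1, map_zero])
    -- the disc `V`
    set xs : ℂ := F4_seg t y s₀ with hxs
    have hden' : H.c * xs + H.e ≠ 0 := hden
    have hN0' : H.N xs = 0 := hN0
    have hNi' : ∀ i, i ≠ i₀ → 0 < (h i).N xs := hNi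
    obtain ⟨hz1, hz2⟩ := F4_inv1 H xs hden'
    have him : (H.app xs).im = 0 := by
      rw [H.im_app xs hden', hN0', zero_div]
    have hev : ∀ᶠ z in 𝓝 (H.app xs), H.a - H.c * z ≠ 0 ∧
        ∀ i : {i : ι // i ≠ i₀}, 0 < (h' i).N (F4_inv H z) := by
      refine Filter.Eventually.and ?_ (Filter.eventually_all.2 fun i => ?_)
      · have hc : ContinuousAt (fun z => H.a - H.c * z) (H.app xs) := by fun_prop
        exact hc.eventually_ne hz1
      · have hN : Continuous (h' i).N := (h' i).continuous_N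
        have hc : ContinuousAt ((h' i).N ∘ F4_inv H) (H.app xs) :=
          (hN.continuousAt).comp (F4_inv_continuousAt H _ hz1)
        have h5 : 0 < ((h' i).N ∘ F4_inv H) (H.app xs) := by
          show 0 < (h' i).N (F4_inv H (H.app xs))
          rw [hz2]
          exact hNi' i.1 i.2
        exact hc.eventually (lt_mem_nhds h5)
    obtain ⟨ρ, hρ, hV⟩ := Metric.eventually_nhds_iff_ball.1 hev
    set V : Set ℂ := Metric.ball (H.app xs) ρ with hVdef
    have hψc : ContinuousOn (F4_inv H) V := fun z hz =>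
      (F4_inv_continuousAt H z (hV z hz).1).continuousWithinAt
    -- a rational point in `V`
    obtain ⟨r, hr⟩ : ∃ r : ℚ, (r : ℂ) ∈ V := by
      obtain ⟨r, hr1, hr2⟩ := exists_rat_btwn (show (H.app xs).re - ρ < (H.app xs).re by linarith)
      refine ⟨r, ?_⟩
      rw [hVdef, Metric.mem_ball, dist_eq_norm]
      have h1 : ((r : ℂ) - H.app xs) = (((r : ℝ) - (H.app xs).re : ℝ) : ℂ) := by
        apply Complex.ext
        · simp
        · simp [him]
      rw [h1, Complex.norm_real, Real.norm_eq_abs, abs_lt]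
      constructor <;> linarith
    set x₁ : ℂ := F4_inv H (r : ℂ) with hx₁
    obtain ⟨hx1, hx2⟩ := F4_inv2 H (r : ℂ) (hV _ hr).1
    -- the function vanishes on the first region
    have hzero : ∀ x ∈ F4_seg t y '' Set.Ico 0 s₀ ∪ F4_inv H '' (V ∩ {z : ℂ | 0 < z.im}),
        MvPolynomial.eval (fam h x) P = 0 := by
      have hsub : ∀ x ∈ F4_seg t y '' Set.Ico 0 s₀ ∪ F4_inv H '' (V ∩ {z : ℂ | 0 < z.im}),
          ∀ i, 0 < (h i).N x := by
        rintro x (⟨s, hs, rfl⟩ | ⟨z, hz, rfl⟩) i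
        · exact hseg s hs.1 hs.2 i
        · by_cases hi : i = i₀
          · rw [hi]
            obtain ⟨h1, h2⟩ := F4_inv2 H z (hV z hz.1).1
            exact F4_N_pos H _ h1 (by rw [h2]; exact hz.2)
          · exact (hV z hz.1).2 ⟨i, hi⟩
      have hpre : IsPreconnected
          (F4_seg t y '' Set.Ico 0 s₀ ∪ F4_inv H '' (V ∩ {z : ℂ | 0 < z.im})) := by
        -- a common point
        have h1 : ContinuousAt (fun s : ℝ => H.app (F4_seg t y s)) s₀ :=
          ContinuousAt.comp (f := F4_seg t y) (g := H.app)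
            (F4_app_analytic H xs hden').continuousAt (F4_seg_cont t y).continuousAt
        have h2 : ∀ᶠ s in 𝓝[<] s₀, H.app (F4_seg t y s) ∈ V :=
          (h1.eventually (Metric.ball_mem_nhds _ hρ)).filter_mono nhdsWithin_le_nhds
        obtain ⟨s, hs1, hs2⟩ := (h2.and (Ico_mem_nhdsLT hs₀)).exists
        have h3 : 0 < H.N (F4_seg t y s) := hseg s hs2.1 hs2.2 i₀
        have h4 := F4_inv1 H _ (H.den_ne _ h3.ne')
        refine IsPreconnected.union (F4_seg t y s) ⟨s, hs2, rfl⟩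
          ⟨H.app (F4_seg t y s), ⟨hs1, F4_im_pos H _ h3⟩, h4.2⟩
          (isPreconnected_Ico.image _ (F4_seg_cont t y).continuousOn)
          (((convex_ball _ _).inter (convex_halfSpace_im_gt 0)).isPreconnected.image _
            (hψc.mono Set.inter_subset_left))
      have han : AnalyticOnNhd ℂ (fun x => MvPolynomial.eval (fam h x) P)
          (F4_seg t y '' Set.Ico 0 s₀ ∪ F4_inv H '' (V ∩ {z : ℂ | 0 < z.im})) := fun x hx =>
        F4_eval_analytic _ x (fun ν => fam_analytic h x (hsub x hx) ν) P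
      have ht : t ∈ F4_seg t y '' Set.Ico 0 s₀ ∪ F4_inv H '' (V ∩ {z : ℂ | 0 < z.im}) := by
        left
        refine ⟨0, ⟨le_rfl, hs₀⟩, ?_⟩
        unfold F4_seg
        simp
      exact fun x hx => han.eqOn_zero_of_preconnected_of_eventuallyEq_zero hpre ht hP hx
    -- elimination at the cusp
    have hcusp : ∀ᶠ x in 𝓝[≠] x₁, MvPolynomial.map (MvPolynomial.eval (fam h' x)) P' = 0 := by
      refine cusp_elim H x₁ hx1 r hx2 (fun x => fam h' x) ?_ P' ?_
      · exact fun ν => fam_analytic h' x₁ (fun i => (hV _ hr).2 i) ν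
      · have h1 : ContinuousAt H.app x₁ := (F4_app_analytic H x₁ hx1).continuousAt
        have h2 : ∀ᶠ x in 𝓝 x₁, H.app x ∈ V := by
          apply h1.eventually
          rw [hx2]
          exact Metric.isOpen_ball.mem_nhds hr
        filter_upwards [h2] with x hx hNx
        rw [hP']
        apply hzero
        right
        exact ⟨H.app x, ⟨hx, F4_im_pos H x hNx⟩, (F4_inv1 H x (H.den_ne x hNx.ne')).2⟩
    -- the coefficients vanish near `t`
    apply MvPolynomial.ext
    intro m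
    rw [MvPolynomial.coeff_zero]
    apply ih hcard h' t (fun i => hpos i.1)
      (fun i j hij => hne i.1 j.1 fun hc => hij (Subtype.ext hc))
    -- a ball around `t`
    have hevt : ∀ᶠ x in 𝓝 t, ∀ i : {i : ι // i ≠ i₀}, 0 < (h' i).N x :=
      Filter.eventually_all.2 fun i =>
        (h' i).continuous_N.continuousAt.eventually (lt_mem_nhds (hpos i.1))
    obtain ⟨δ, hδ, hB⟩ := Metric.eventually_nhds_iff_ball.1 hevt
    set U : Set ℂ := Metric.ball t δ ∪ (F4_seg t y '' Set.Icc 0 s₀ ∪ F4_inv H '' V) with hU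
    have hsub : ∀ x ∈ U, ∀ i : {i : ι // i ≠ i₀}, 0 < (h' i).N x := by
      rintro x (hx | ⟨s, hs, rfl⟩ | ⟨z, hz, rfl⟩) i
      · exact hB x hx i
      · rcases hs.2.lt_or_eq with h1 | h1
        · exact hseg s hs.1 h1 i.1
        · rw [h1]
          exact hNi' i.1 i.2
      · exact (hV z hz).2 i
    have hpre : IsPreconnected U := by
      refine IsPreconnected.union t (Metric.mem_ball_self hδ) (Or.inl ⟨0, ⟨le_rfl, hs₀.le⟩, ?_⟩)
        (convex_ball _ _).isPreconnected ?_
      · unfold F4_seg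
        simp
      · refine IsPreconnected.union xs ⟨s₀, ⟨hs₀.le, le_rfl⟩, rfl⟩
          ⟨H.app xs, Metric.mem_ball_self hρ, hz2⟩
          (isPreconnected_Icc.image _ (F4_seg_cont t y).continuousOn)
          ((convex_ball _ _).isPreconnected.image _ hψc)
    have han : AnalyticOnNhd ℂ (fun x => MvPolynomial.eval (fam h' x) (MvPolynomial.coeff m P')) U :=
      fun x hx => F4_eval_analytic _ x (fun ν => fam_analytic h' x (hsub x hx) ν) _
    have hfr : ∃ᶠ x in 𝓝[≠] x₁,
        MvPolynomial.eval (fam h' x) (MvPolynomial.coeff m P') = 0 := by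
      apply Filter.Eventually.frequently
      filter_upwards [hcusp] with x hx
      rw [← MvPolynomial.coeff_map, hx, MvPolynomial.coeff_zero]
    have hmem : x₁ ∈ U := Or.inr (Or.inr ⟨(r : ℂ), hr, rfl⟩)
    have hfin := han.eqOn_zero_of_preconnected_of_frequently_eq_zero hpre hmem hfr
    filter_upwards [Metric.ball_mem_nhds t hδ] with x hx
    exact hfin (Or.inl hx)

/-- F4. Induction on the number of Möbius transformations. -/
theorem func_indep {ι : Type} [Finite ι] (h : ι → Mob) (t : ℂ) (hpos : ∀ i, 0 < (h i).N t)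
    (hne : ∀ i j, i ≠ j → (h i).Ne (h j)) (P : MvPolynomial (Option (ι × Fin 3)) ℂ)
    (hP : ∀ᶠ x in 𝓝 t, MvPolynomial.eval (fam h x) P = 0) : P = 0 :=
  F4_aux _ rfl h t hpos hne P hP

end Pool.Agent.MSD
end

end

section

/-! # M04a: analyticity of the family (MP_f58a57_nt) -/

open Complex ModularForm EisensteinSeries Filter
open UpperHalfPlane hiding I
open scoped Topology MatrixGroups Polynomial

noncomputable section

namespace Pool.Agent.MSD

/-- M04a. Analyticity (`AnalyticAt.aeval_mvPolynomial`, `F4_EE_analytic`). -/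
theorem famM_analytic {s r : ℕ} (d : Fin r → ℕ) {ι : Fin r → Type} (U V : ∀ b, ι b → MvPolynomial (Fin s) (KF (d b)))
    (x₀ : Fin s → ℂ) (hV : ∀ b i, MvPolynomial.aeval x₀ (V b i) ≠ 0)
    (hpos : ∀ b i, 0 < (MvPolynomial.aeval x₀ (U b i) / MvPolynomial.aeval x₀ (V b i) : ℂ).im) (ν : Fin s ⊕ (Σ b, ι b × Fin 3)) :
    AnalyticAt ℂ (fun x => famM d U V x ν) x₀ := by
  have hproj : ∀ l : Fin s, AnalyticAt ℂ (fun x : Fin s → ℂ => x l) x₀ := fun l =>
    (ContinuousLinearMap.proj (R := ℂ) (φ := fun _ : Fin s => ℂ) l).analyticAt x₀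
  rcases ν with l | ⟨b, i, κ⟩
  · exact hproj l
  · have hU : AnalyticAt ℂ (fun x : Fin s → ℂ => (MvPolynomial.aeval x (U b i) : ℂ)) x₀ :=
      AnalyticAt.aeval_mvPolynomial (f := fun x : Fin s → ℂ => x) hproj (U b i)
    have hV' : AnalyticAt ℂ (fun x : Fin s → ℂ => (MvPolynomial.aeval x (V b i) : ℂ)) x₀ :=
      AnalyticAt.aeval_mvPolynomial (f := fun x : Fin s → ℂ => x) hproj (V b i)
    have hdiv : AnalyticAt ℂ (fun x : Fin s → ℂ =>
        (MvPolynomial.aeval x (U b i) / MvPolynomial.aeval x (V b i) : ℂ)) x₀ := hU.fun_div hV' (hV b i)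
    have hE := F4_EE_analytic κ _ (hpos b i)
    exact AnalyticAt.fun_comp (g := EE κ)
      (f := fun x : Fin s → ℂ => (MvPolynomial.aeval x (U b i) / MvPolynomial.aeval x (V b i) : ℂ)) hE hdiv

end Pool.Agent.MSD
end

end

section

/-! # M06: the normalised functions (MP_f58a57_nt) -/

open Complex ModularForm EisensteinSeries Filter
open UpperHalfPlane hiding I
open scoped Topology MatrixGroups Polynomial

noncomputable section

namespace Pool.Agent.MSD

/-- M06a. Values of the conjugated polynomial at real points. -/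
theorem cjP_real {s d : ℕ} (U : MvPolynomial (Fin s) (KF d)) (x : Fin s → ℝ) :
    MvPolynomial.aeval (fun l => (x l : ℂ)) (cjP U) = (starRingEnd ℂ) (MvPolynomial.aeval (fun l => (x l : ℂ)) U) := by
  have h1 : (algebraMap (KF d) ℂ).comp (conjK d) = (starRingEnd ℂ).comp (algebraMap (KF d) ℂ) := by
    ext y
    exact conjK_coe d y
  have h2 : (fun l => (x l : ℂ)) = (starRingEnd ℂ) ∘ (fun l => (x l : ℂ)) := by
    funext l
    exact (Complex.conj_ofReal (x l)).symm
  rw [MvPolynomial.aeval_def, MvPolynomial.aeval_def, MvPolynomial.eval₂_comp_left, ← h2]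
  unfold cjP
  rw [MvPolynomial.eval₂_map, h1]

/-- M06b. At real points. (As `famS_real` in `F5b_FamS.lean`.) -/
theorem famMS_real {s r : ℕ} (d : Fin r → ℕ) {ι : Fin r → Type} (Ω : Fin r → ℂ) (U V : ∀ b, ι b → MvPolynomial (Fin s) (KF (d b)))
    (x : Fin s → ℝ) (b : Fin r) (i : ι b) (κ : Fin 3) (z : ℂ) (hz : z = MvPolynomial.aeval (fun l => (x l : ℂ)) (U b i) / MvPolynomial.aeval (fun l => (x l : ℂ)) (V b i)) :
    famMS d Ω U V (fun l => (x l : ℂ)) (Sum.inr ⟨b, (i, κ)⟩) = ![e2s z / Ω b ^ 2, e4 z / Ω b ^ 4, e6 z / Ω b ^ 6] κ := by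
  have hb : MvPolynomial.aeval (fun l => (x l : ℂ)) (cjP (U b i)) / MvPolynomial.aeval (fun l => (x l : ℂ)) (cjP (V b i)) =
      (starRingEnd ℂ) z := by
    rw [cjP_real, cjP_real, hz, map_div₀]
  have h0 : famMS d Ω U V (fun l => (x l : ℂ)) (Sum.inr ⟨b, (i, κ)⟩) =
      ![(e2 z - 6 * I / (Real.pi * (z - (starRingEnd ℂ) z))) / Ω b ^ 2, e4 z / Ω b ^ 4, e6 z / Ω b ^ 6] κ := by
    rw [← hb, hz]
    rfl
  rw [h0]
  fin_cases κ
  · show (e2 z - 6 * I / (Real.pi * (z - (starRingEnd ℂ) z))) / Ω b ^ 2 = e2s z / Ω b ^ 2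
    rw [Complex.sub_conj]
    unfold e2s
    congr 1
    congr 1
    set y := z.im with hy
    by_cases hy0 : y = 0
    · simp [hy0]
    · have hpi : (Real.pi : ℂ) ≠ 0 := by exact_mod_cast Real.pi_ne_zero
      have hyc : (y : ℂ) ≠ 0 := by exact_mod_cast hy0
      push_cast
      field_simp
      ring
  · rfl
  · rfl

/-- M06c. Analyticity at `t`. (`z - z̄ = 2 i Im z ≠ 0` at `t`.) -/
theorem famMS_analytic {s r : ℕ} (bl : Fin s → Fin r) (d : Fin r → ℕ) (t : Fin s → ℝ) (Ω : Fin r → ℂ) (ι : Fin r → Type)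
    (U V : ∀ b, ι b → MvPolynomial (Fin s) (KF (d b))) (h : Sys bl d t ι U V) (ν : Fin s ⊕ (Σ b, ι b × Fin 3)) :
    AnalyticAt ℂ (fun x => famMS d Ω U V x ν) (fun l => (t l : ℂ)) := by
  have hf := fun ν => famM_analytic d U V (fun l => (t l : ℂ)) h.ne h.pos ν
  match ν with
  | Sum.inl l => exact hf (Sum.inl l)
  | Sum.inr ⟨b, (i, κ)⟩ =>
    have hg := hf (Sum.inr ⟨b, (i, κ)⟩)
    have hdiv : ∀ (n : ℕ) (f : (Fin s → ℂ) → ℂ), AnalyticAt ℂ f (fun l => (t l : ℂ)) →
        AnalyticAt ℂ (fun x => f x / Ω b ^ n) (fun l => (t l : ℂ)) := by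
      intro n f hf
      simp only [div_eq_mul_inv]
      exact hf.mul analyticAt_const
    have hpoly : ∀ Q : MvPolynomial (Fin s) (KF (d b)),
        AnalyticAt ℂ (fun x : Fin s → ℂ => MvPolynomial.aeval x Q) (fun l => (t l : ℂ)) := by
      intro Q
      exact AnalyticAt.aeval_mvPolynomial (𝕜 := ℂ)
        (fun j => (ContinuousLinearMap.proj (R := ℂ) (φ := fun _ : Fin s => ℂ) j).analyticAt _) Q
    fin_cases κ
    · have hV := h.ne b i
      have hVc : MvPolynomial.aeval (fun l => (t l : ℂ)) (cjP (V b i)) ≠ 0 := by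
        rw [cjP_real]
        exact (map_ne_zero _).2 hV
      have ha : AnalyticAt ℂ (fun x : Fin s → ℂ =>
          MvPolynomial.aeval x (U b i) / MvPolynomial.aeval x (V b i) -
            MvPolynomial.aeval x (cjP (U b i)) / MvPolynomial.aeval x (cjP (V b i))) (fun l => (t l : ℂ)) :=
        ((hpoly _).div (hpoly _) hV).sub ((hpoly _).div (hpoly _) hVc)
      have hne : (MvPolynomial.aeval (fun l => (t l : ℂ)) (U b i) / MvPolynomial.aeval (fun l => (t l : ℂ)) (V b i) -
            MvPolynomial.aeval (fun l => (t l : ℂ)) (cjP (U b i)) /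
              MvPolynomial.aeval (fun l => (t l : ℂ)) (cjP (V b i)) : ℂ) ≠ 0 := by
        rw [cjP_real, cjP_real, ← map_div₀ (starRingEnd ℂ), Complex.sub_conj]
        have h1 := (h.pos b i).ne'
        have h2 : ((MvPolynomial.aeval (fun l => (t l : ℂ)) (U b i) /
            MvPolynomial.aeval (fun l => (t l : ℂ)) (V b i) : ℂ).im : ℂ) ≠ 0 := by exact_mod_cast h1
        push_cast
        exact mul_ne_zero (mul_ne_zero two_ne_zero h2) I_ne_zero
      have hpi : (Real.pi : ℂ) ≠ 0 := by exact_mod_cast Real.pi_ne_zero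
      exact hdiv 2 _ (AnalyticAt.sub hg (AnalyticAt.div analyticAt_const (analyticAt_const.mul ha)
        (mul_ne_zero hpi hne)))
    · exact hdiv 4 _ hg
    · exact hdiv 6 _ hg

end Pool.Agent.MSD
end

end

section

/-! # M14: values at the point t (MP_f58a57_nt) -/

open Complex ModularForm EisensteinSeries Filter
open UpperHalfPlane hiding I
open scoped Topology MatrixGroups Polynomial

noncomputable section

namespace Pool.Agent.MSD

/-- M14a. PROOF. `t` is algebraically independent over the algebraic closure of `ℚ` in `ℂ` (e.g. `AlgebraicIndependent.extendScalars` or `algebraicIndependent_iff` over `algebraicClosure ℚ ℂ`). With `z = U(t)/V(t)` algebraic, the polynomial `U - z V` with coefficients in this field vanishes at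
`t`, so it is `0`; some coefficient `v_m` of `V` is not `0`, so `z = u_m/v_m ∈ KF d` and `U = C z * V`. -/
theorem const_of_algebraic {s d : ℕ} (t : Fin s → ℂ) (ht : AlgebraicIndependent ℚ t) (U V : MvPolynomial (Fin s) (KF d))
    (hV : MvPolynomial.aeval t V ≠ 0) (h : IsAlgebraic ℚ (MvPolynomial.aeval t U / MvPolynomial.aeval t V : ℂ)) :
    ∃ c : KF d, U = MvPolynomial.C c * V := by
  have hL : AlgebraicIndependent (algebraicClosure ℚ ℂ) t := ht.algebraicClosure
  have hle : KF d ≤ algebraicClosure ℚ ℂ := fun x hx => mem_algebraicClosure_iff.2 (KF_algebraic d x hx)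
  set φ : KF d →+* algebraicClosure ℚ ℂ := (IntermediateField.inclusion hle).toRingHom with hφ
  have hφc : ∀ x : KF d, ((φ x : algebraicClosure ℚ ℂ) : ℂ) = (x : ℂ) := fun x => rfl
  have hcomp : (algebraMap (algebraicClosure ℚ ℂ) ℂ).comp φ = algebraMap (KF d) ℂ := by
    ext x; exact hφc x
  have hmap : ∀ P : MvPolynomial (Fin s) (KF d), MvPolynomial.aeval t (MvPolynomial.map φ P) = MvPolynomial.aeval t P := by
    intro P
    rw [MvPolynomial.aeval_def, MvPolynomial.aeval_def, MvPolynomial.eval₂_map, hcomp]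
  set z : ℂ := MvPolynomial.aeval t U / MvPolynomial.aeval t V with hz
  set zL : algebraicClosure ℚ ℂ := ⟨z, mem_algebraicClosure_iff.2 h⟩ with hzL
  have hP : MvPolynomial.map φ U - MvPolynomial.C zL * MvPolynomial.map φ V = 0 := by
    apply (algebraicIndependent_iff.1 hL)
    rw [map_sub, map_mul, hmap, hmap, MvPolynomial.aeval_C]
    have : (algebraMap (algebraicClosure ℚ ℂ) ℂ zL) = z := rfl
    rw [this, hz]
    field_simp
    ring
  have hcoef : ∀ m, ((U.coeff m : KF d) : ℂ) = z * ((V.coeff m : KF d) : ℂ) := by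
    intro m
    have h1 := congrArg (fun Q => MvPolynomial.coeff m Q) hP
    simp only [MvPolynomial.coeff_sub, MvPolynomial.coeff_map, MvPolynomial.coeff_C_mul, MvPolynomial.coeff_zero] at h1
    have h2 := congrArg (fun x : algebraicClosure ℚ ℂ => (x : ℂ)) (sub_eq_zero.1 h1)
    exact h2
  have hV0 : V ≠ 0 := by
    rintro rfl
    simp at hV
  obtain ⟨m, hm⟩ := MvPolynomial.ne_zero_iff.1 hV0
  refine ⟨U.coeff m / V.coeff m, ?_⟩
  have hzc : z = ((U.coeff m / V.coeff m : KF d) : ℂ) := by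
    have hm' : ((V.coeff m : KF d) : ℂ) ≠ 0 := by
      intro h0
      apply hm
      exact_mod_cast h0
    push_cast
    rw [hcoef m]
    field_simp
  ext n
  rw [MvPolynomial.coeff_C_mul]
  have h3 := hcoef n
  rw [hzc] at h3
  push_cast at h3 ⊢
  exact_mod_cast h3

/-- M14b. Special points are algebraic. -/
theorem special_algebraic (z : ℂ) (h : IsSpecial z) : IsAlgebraic ℚ z := by
  obtain ⟨a, b, c, hne, hz⟩ := h
  refine ⟨Polynomial.C (a : ℚ) * Polynomial.X ^ 2 + Polynomial.C (b : ℚ) * Polynomial.X + Polynomial.C (c : ℚ), ?_, ?_⟩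
  · intro h0
    apply hne
    have h1 := congrArg (fun P : ℚ[X] => P.coeff 2) h0
    have h2 := congrArg (fun P : ℚ[X] => P.coeff 1) h0
    have h3 := congrArg (fun P : ℚ[X] => P.coeff 0) h0
    simp only [Polynomial.coeff_add, Polynomial.coeff_C_mul, Polynomial.coeff_X_pow, Polynomial.coeff_X, Polynomial.coeff_C,
      Polynomial.coeff_zero] at h1 h2 h3
    norm_num at h1 h2 h3
    exact ⟨h1, h2, h3⟩
  · simp only [map_add, map_mul, map_pow, Polynomial.aeval_C, Polynomial.aeval_X]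
    simpa using hz

/-- M14c. -/
theorem gequiv_of_prel {s d : ℕ} (t : Fin s → ℂ) (U V U' V' : MvPolynomial (Fin s) (KF d)) (hV : MvPolynomial.aeval t V ≠ 0)
    (hV' : MvPolynomial.aeval t V' ≠ 0) (him : 0 < (MvPolynomial.aeval t U / MvPolynomial.aeval t V : ℂ).im) (h : PRel U V U' V') :
    GEquiv (MvPolynomial.aeval t U / MvPolynomial.aeval t V) (MvPolynomial.aeval t U' / MvPolynomial.aeval t V') := by
  obtain ⟨a, b, c, e, hdet, hrel⟩ := h
  have h1 := congrArg (fun Q => (MvPolynomial.aeval t Q : ℂ)) hrel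
  simp only [map_mul, map_add, MvPolynomial.aeval_C] at h1
  have hq : ∀ q : ℚ, algebraMap (KF d) ℂ (q : KF d) = (q : ℂ) := fun q => map_ratCast _ q
  rw [hq, hq, hq, hq] at h1
  set u := (MvPolynomial.aeval t U : ℂ)
  set v := (MvPolynomial.aeval t V : ℂ)
  set u' := (MvPolynomial.aeval t U' : ℂ)
  set v' := (MvPolynomial.aeval t V' : ℂ)
  have hce : (c : ℂ) * (u / v) + e ≠ 0 := by
    intro h0
    have h2 := congrArg Complex.im h0
    have h3 : ((c : ℂ) * (u / v) + e).im = c * (u / v).im := by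
      have hc : ((c : ℂ)) = ((c : ℝ) : ℂ) := by push_cast; rfl
      have he : ((e : ℂ)) = ((e : ℝ) : ℂ) := by push_cast; rfl
      rw [hc, he, Complex.add_im, Complex.im_ofReal_mul, Complex.ofReal_im, add_zero]
    rw [h3, Complex.zero_im] at h2
    have hc0 : (c : ℝ) = 0 := by
      rcases mul_eq_zero.1 h2 with h | h
      · exact h
      · exact absurd h him.ne'
    have hc0' : c = 0 := by exact_mod_cast hc0
    rw [hc0'] at h0
    simp at h0
    have he0 : e = 0 := by exact_mod_cast h0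
    apply hdet
    rw [hc0', he0]; ring
  refine ⟨a, b, c, e, ?_, hce, ?_⟩
  · intro h0
    apply hdet
    exact_mod_cast h0
  · rw [eq_div_iff hce]
    field_simp
    linear_combination h1

theorem m14_aeval_mem {s d : ℕ} (t : Fin s → ℂ) (F : Subfield ℂ) (hQ : ∀ x : ℂ, IsAlgebraic ℚ x → x ∈ F) (ht : ∀ l, t l ∈ F)
    (P : MvPolynomial (Fin s) (KF d)) : (MvPolynomial.aeval t P : ℂ) ∈ F := by
  induction P using MvPolynomial.induction_on with
  | C c =>
    rw [MvPolynomial.aeval_C]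
    exact hQ _ (KF_algebraic d _ c.2)
  | add p q hp hq =>
    rw [map_add]
    exact F.add_mem hp hq
  | mul_X p i hp =>
    rw [map_mul, MvPolynomial.aeval_X]
    exact F.mul_mem hp (ht i)

/-- M14d. Algebraic elements of `FB`. -/
theorem mem_KK_of_algebraic {s r : ℕ} (bl : Fin s → Fin r) (d : Fin r → ℕ) (t : Fin s → ℝ) (ht : AlgebraicIndependent ℚ (fun l => (t l : ℂ)))
    (b : Fin r) (z : ℂ) (hz : z ∈ FB bl d t b) (h : IsAlgebraic ℚ z) : z ∈ KK (d b) := by
  obtain ⟨U, V, -, -, hV, hzUV⟩ := mem_rep bl d t b z hz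
  rw [hzUV] at h
  obtain ⟨c, hc⟩ := const_of_algebraic _ ht U V hV h
  rw [← mem_KF, hzUV, hc, map_mul, MvPolynomial.aeval_C, mul_div_cancel_right₀ _ hV]
  exact c.2

/-- M14e. The imaginary part. (`z̄ = Ū(t)/V̄(t)`, `mem_rep`, `cjP_real`.) -/
theorem im_mem {s r : ℕ} (bl : Fin s → Fin r) (d : Fin r → ℕ) (t : Fin s → ℝ) (b : Fin r) (z : ℂ) (hz : z ∈ FB bl d t b)
    (F : Subfield ℂ) (hI : I ∈ F) (hQ : ∀ x : ℂ, IsAlgebraic ℚ x → x ∈ F) (ht : ∀ l, (t l : ℂ) ∈ F) : (z.im : ℂ) ∈ F := by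
  obtain ⟨U, V, -, -, -, hzUV⟩ := mem_rep bl d t b z hz
  have hzF : z ∈ F := by
    rw [hzUV]
    exact F.div_mem (m14_aeval_mem _ F hQ ht U) (m14_aeval_mem _ F hQ ht V)
  have hcF : (starRingEnd ℂ) z ∈ F := by
    rw [hzUV, map_div₀, ← cjP_real, ← cjP_real]
    exact F.div_mem (m14_aeval_mem _ F hQ ht _) (m14_aeval_mem _ F hQ ht _)
  have h1 : (z.im : ℂ) = (z - (starRingEnd ℂ) z) / (2 * I) := by
    rw [Complex.sub_conj]
    have : (2 * I : ℂ) ≠ 0 := mul_ne_zero two_ne_zero Complex.I_ne_zero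
    field_simp
    push_cast
    ring
  rw [h1]
  exact F.div_mem (F.sub_mem hzF hcF) (F.mul_mem (by simpa using natCast_mem F 2) hI)

end Pool.Agent.MSD
end

end
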