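import Mathlib
import Pool.Agent.Lib.MP_f58a57_nt.FK.K051
import Pool.Agent.Lib.MP_f58a57_nt.FK.K052
import Pool.Agent.Lib.MP_f58a57_nt.FK.K054
import Pool.Agent.Lib.MP_f58a57_nt.FK.K055
import Pool.Agent.Lib.MP_f58a57_nt.FK.K056

section

/-! # H20: automorphs of real quadratic irrationals (MP_f58a57_nt) -/

open Complex ModularForm EisensteinSeries Filter
open UpperHalfPlane hiding I
open scoped Topology MatrixGroups Polynomial

noncomputable section

namespace Pool.Agent.MSD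

/-- powers of a solution of Pell's equation -/
theorem h20_pow {D : ℕ} {u w : ℤ} {N : ℤ} (h : u ^ 2 - D * w ^ 2 = 1) (hN : N ∣ w) (k : ℕ) :
    ∃ uk wk : ℤ, ((u : ℝ) + w * Real.sqrt D) ^ k = uk + wk * Real.sqrt D ∧
      uk ^ 2 - D * wk ^ 2 = 1 ∧ N ∣ wk := by
  have hs : Real.sqrt D ^ 2 = (D : ℝ) := Real.sq_sqrt (Nat.cast_nonneg _)
  induction k with
  | zero => exact ⟨1, 0, by simp, by simp, dvd_zero _⟩
  | succ k ih =>
    obtain ⟨uk, wk, h1, h2, h3⟩ := ih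
    refine ⟨u * uk + D * w * wk, u * wk + w * uk, ?_, ?_, ?_⟩
    · rw [pow_succ, h1]
      push_cast
      linear_combination ((wk : ℝ) * w) * hs
    · linear_combination (uk ^ 2 - D * wk ^ 2) * h + h2
    · exact dvd_add (h3.mul_left _) (hN.mul_right _)

/-- a solution of Pell's equation with `w` divisible by `N` -/
theorem h20_pell (D : ℕ) (hD : ¬ IsSquare D) {N : ℤ} (hN : N ≠ 0) :
    ∃ u w : ℤ, u ^ 2 - D * w ^ 2 = 1 ∧ N ∣ w ∧ 1 ≤ u ∧ 0 < w := by
  have hD0 : 0 < D := by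
    rcases Nat.eq_zero_or_pos D with h | h
    · exact absurd (h ▸ IsSquare.zero) hD
    · exact h
  have hd : 0 < (D : ℤ) * N ^ 2 := by positivity
  have hsq : ¬ IsSquare ((D : ℤ) * N ^ 2) := by
    rintro ⟨z, hz⟩
    have h1 : N ^ 2 ∣ z ^ 2 := ⟨D, by rw [pow_two z, ← hz]; ring⟩
    rw [Int.pow_dvd_pow_iff two_ne_zero] at h1
    obtain ⟨c, rfl⟩ := h1
    have h2 : (D : ℤ) = c * c := by
      have h3 : N ^ 2 * (D : ℤ) = N ^ 2 * (c * c) := by linarith
      exact mul_left_cancel₀ (pow_ne_zero 2 hN) h3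
    apply hD
    refine ⟨c.natAbs, ?_⟩
    have h4 : ((c.natAbs * c.natAbs : ℕ) : ℤ) = c * c := by
      rw [Int.natAbs_mul_self]
    exact_mod_cast h2.trans h4.symm
  obtain ⟨x, y, hxy, hy⟩ := Pell.exists_of_not_isSquare hd hsq
  refine ⟨|x|, |N * y|, ?_, ?_, ?_, ?_⟩
  · rw [sq_abs, sq_abs, ← hxy]
    ring
  · rw [dvd_abs]
    exact dvd_mul_right _ _
  · have : x ≠ 0 := by
      rintro rfl
      have h1 : 0 ≤ (D : ℤ) * N ^ 2 * y ^ 2 := by positivity
      linarith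
    exact Int.one_le_abs this
  · exact abs_pos.2 (mul_ne_zero hN hy)

/-- H20. Common unit for finitely many elements of `ℚ(√D)`. PROOF. Write `a i = p/q`, `b i = r/q` with integers `q, r ≠ 0` (`q, r, p` depend on `i`), `N = Π_i (q_i r_i)`. Pell's equation
`x² - (D N²) y² = 1` has a solution with `x > 1`, `y > 0` (`Pell.exists_of_not_isSquare` or `Pell.IsFundamental`; `D N²` is not a square, `N ≠ 0`). Put `u = x`, `w = N y`, `Λ = u + w √D > 1`. `Λ^k = u_k + w_k √D`, `N ∣ w_k`,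
`u_k² - D w_k² = 1`, `(Λ^k)⁻¹ = u_k - w_k √D`. Take `C = w_k q/r`, `E = u_k - w_k p/r`, `A = u_k + w_k p/r`, `B = - w_k (p² - r² D)/(q r)`: integers, `A E - B C = 1`, and
`C ρ + E = Λ^k`, `A ρ + B = Λ^k ρ` for `ρ = (p + r√D)/q`, and the conjugate relations. -/
theorem automorph {S : Type} [Finite S] (D : ℕ) (hD : ¬ IsSquare D) (a b : S → ℚ) (hb : ∀ i, b i ≠ 0) :
    ∃ Λ : ℝ, 1 < Λ ∧ ∀ (k : ℕ) (i : S), ∃ A B C E : ℤ, A * E - B * C = 1 ∧
      (C : ℝ) * (a i + b i * Real.sqrt D) + E = Λ ^ k ∧ (C : ℝ) * (a i - b i * Real.sqrt D) + E = (Λ ^ k)⁻¹ ∧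
      (A : ℝ) * (a i + b i * Real.sqrt D) + B = Λ ^ k * (a i + b i * Real.sqrt D) ∧
      (A : ℝ) * (a i - b i * Real.sqrt D) + B = (Λ ^ k)⁻¹ * (a i - b i * Real.sqrt D) := by
  classical
  have := Fintype.ofFinite S
  have hs : Real.sqrt D ^ 2 = (D : ℝ) := Real.sq_sqrt (Nat.cast_nonneg _)
  let q : S → ℤ := fun i => (a i).den * (b i).den
  let p : S → ℤ := fun i => (a i).num * (b i).den
  let r : S → ℤ := fun i => (b i).num * (a i).den
  have hq0 : ∀ i, q i ≠ 0 := fun i => by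
    have h1 := (a i).den_ne_zero
    have h2 := (b i).den_ne_zero
    exact mul_ne_zero (by exact_mod_cast h1) (by exact_mod_cast h2)
  have hr0 : ∀ i, r i ≠ 0 := fun i =>
    mul_ne_zero (Rat.num_ne_zero.2 (hb i)) (by exact_mod_cast (a i).den_ne_zero)
  have hqa : ∀ i, (q i : ℝ) * (a i : ℝ) = p i := by
    intro i
    have h1 : ((a i).den : ℚ) * a i = (a i).num := by
      rw [mul_comm]
      exact Rat.mul_den_eq_num _
    have h2 : (((a i).den : ℚ) : ℝ) * (a i : ℝ) = (((a i).num : ℚ) : ℝ) := by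
      rw [← Rat.cast_mul, h1]
    simp only [q, p]
    push_cast at h2 ⊢
    linear_combination ((b i).den : ℝ) * h2
  have hqb : ∀ i, (q i : ℝ) * (b i : ℝ) = r i := by
    intro i
    have h1 : ((b i).den : ℚ) * b i = (b i).num := by
      rw [mul_comm]
      exact Rat.mul_den_eq_num _
    have h2 : (((b i).den : ℚ) : ℝ) * (b i : ℝ) = (((b i).num : ℚ) : ℝ) := by
      rw [← Rat.cast_mul, h1]
    simp only [q, r]
    push_cast at h2 ⊢
    linear_combination ((a i).den : ℝ) * h2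
  obtain ⟨u, w, huw, hNw, hu, hw⟩ := h20_pell D hD (N := ∏ i, (q i * r i))
    (Finset.prod_ne_zero_iff.2 fun i _ => mul_ne_zero (hq0 i) (hr0 i))
  have hD0 : 0 < D := by
    rcases Nat.eq_zero_or_pos D with h | h
    · exact absurd (h ▸ IsSquare.zero) hD
    · exact h
  have hsp : 0 < Real.sqrt D := Real.sqrt_pos.2 (by exact_mod_cast hD0)
  refine ⟨(u : ℝ) + w * Real.sqrt D, ?_, ?_⟩
  · have h1 : (1 : ℝ) ≤ u := by exact_mod_cast hu
    have h2 : (0 : ℝ) < w := by exact_mod_cast hw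
    have h3 : 0 < (w : ℝ) * Real.sqrt D := mul_pos h2 hsp
    linarith
  · intro k i
    obtain ⟨uk, wk, h1, h2, h3⟩ := h20_pow huw hNw k
    have h4 : q i * r i ∣ wk :=
      (Finset.dvd_prod_of_mem (fun i => q i * r i) (Finset.mem_univ i)).trans h3
    obtain ⟨t, ht⟩ := h4
    have hinv : (((u : ℝ) + w * Real.sqrt D) ^ k)⁻¹ = uk - wk * Real.sqrt D := by
      rw [h1]
      refine inv_eq_of_mul_eq_one_right ?_
      have h5 : (uk : ℝ) ^ 2 - D * (wk : ℝ) ^ 2 = 1 := by exact_mod_cast h2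
      linear_combination h5 - (wk : ℝ) ^ 2 * hs
    have hwk : (wk : ℝ) = q i * r i * t := by
      rw [ht]
      push_cast
      ring
    have ha := hqa i
    have hb' := hqb i
    refine ⟨uk + q i * p i * t, -t * ((p i) ^ 2 - (r i) ^ 2 * D), (q i) ^ 2 * t,
      uk - q i * p i * t, ?_, ?_, ?_, ?_, ?_⟩
    · have h5 : uk ^ 2 - D * wk ^ 2 = 1 := h2
      rw [ht] at h5
      linear_combination h5
    · rw [h1, hwk]
      push_cast
      linear_combination ((q i : ℝ) * t) * ha + ((q i : ℝ) * t * Real.sqrt D) * hb'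
    · rw [hinv, hwk]
      push_cast
      linear_combination ((q i : ℝ) * t) * ha - ((q i : ℝ) * t * Real.sqrt D) * hb'
    · rw [h1, hwk]
      push_cast
      linear_combination ((p i : ℝ) * t - r i * t * Real.sqrt D) * ha +
        ((p i : ℝ) * t * Real.sqrt D - r i * t * D) * hb' - ((r i : ℝ) * t * q i * b i) * hs
    · rw [hinv, hwk]
      push_cast
      linear_combination ((p i : ℝ) * t + r i * t * Real.sqrt D) * ha +
        (-(p i : ℝ) * t * Real.sqrt D - r i * t * D) * hb' - ((r i : ℝ) * t * q i * b i) * hs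

end Pool.Agent.MSD
end

end

section

/-! # H31: generic segments (MP_f58a57_nt) -/

open Complex ModularForm EisensteinSeries Filter
open UpperHalfPlane hiding I
open scoped Topology MatrixGroups Polynomial

noncomputable section

namespace Pool.Agent.MSD

/-- H31. Segments avoiding a countable set. PROOF. Choose two real-linearly independent directions; the points `y_s = y₀ + s v`, `s ∈ (0, ε)`, `v` not real proportional to `y₀ - x₀` (or any `v ≠ 0` if `y₀ = x₀`... assume `y₀ ≠ x₀`) give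
segments `[x₀, y_s]` that pairwise meet only in `x₀`. Each point of the countable set `B`, different from `x₀`, is on at most one of them. -/
theorem generic_segment (x₀ y₀ : ℂ) (hne : y₀ ≠ x₀) (B : Set ℂ) (hB : B.Countable) (ε : ℝ) (hε : 0 < ε) :
    ∃ y : ℂ, ‖y - y₀‖ < ε ∧ y ≠ x₀ ∧ ∀ x ∈ segment ℝ x₀ y, x ≠ x₀ → x ∉ B := by
  set w : ℂ := y₀ - x₀ with hw
  have hw0 : w ≠ 0 := sub_ne_zero.mpr hne
  have hwn : 0 < ‖w‖ := norm_pos_iff.mpr hw0
  set g : ℂ → ℝ := fun x => ((x - x₀) / w).im / ((x - x₀) / w).re with hg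
  have hd : Dense (g '' B)ᶜ := (hB.image g).dense_compl ℝ
  have hδ : (0 : ℝ) < ε / ‖w‖ := by positivity
  obtain ⟨s, hs, hs0, hs1⟩ := hd.exists_between hδ
  have hone : (1 + (s : ℂ) * Complex.I) ≠ 0 := by
    intro h
    have := congrArg Complex.re h
    simp at this
  refine ⟨x₀ + w * (1 + (s : ℂ) * Complex.I), ?_, ?_, ?_⟩
  · have : x₀ + w * (1 + (s : ℂ) * Complex.I) - y₀ = w * ((s : ℂ) * Complex.I) := by
      rw [hw]; ring
    rw [this, norm_mul, norm_mul, Complex.norm_I, mul_one, Complex.norm_real, Real.norm_eq_abs,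
      abs_of_pos hs0]
    have := (lt_div_iff₀ hwn).mp hs1
    linarith [mul_comm s ‖w‖]
  · intro h
    have : w * (1 + (s : ℂ) * Complex.I) = 0 := by linear_combination h
    exact mul_ne_zero hw0 hone this
  · intro x hx hxne hxB
    rw [segment_eq_image'] at hx
    obtain ⟨t, _, rfl⟩ := hx
    apply hs
    refine ⟨_, hxB, ?_⟩
    have ht : t ≠ 0 := by
      rintro rfl
      apply hxne
      simp
    have hval : (x₀ + t • (x₀ + w * (1 + (s : ℂ) * Complex.I) - x₀) - x₀) / w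
        = (t : ℂ) * (1 + (s : ℂ) * Complex.I) := by
      rw [Complex.real_smul]
      field_simp
      ring
    simp only [hg]
    rw [hval]
    have h1 : ((t : ℂ) * (1 + (s : ℂ) * Complex.I)).im = t * s := by simp
    have h2 : ((t : ℂ) * (1 + (s : ℂ) * Complex.I)).re = t := by simp
    rw [h1, h2]
    field_simp

end Pool.Agent.MSD
end

end

section

/-! # H33: propagation along the segment (MP_f58a57_nt) -/

open Complex ModularForm EisensteinSeries Filter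
open UpperHalfPlane hiding I
open scoped Topology MatrixGroups Polynomial

noncomputable section

namespace Pool.Agent.MSD

/-- H33a. Forward. PROOF. Near `x₁`, `M` is a homeomorphism onto a disc `V` around the real number `M x₁`; `N = M⁻¹(V ∩ ℍ)` is connected, contained in `G` (small `V`), and meets the segment. `f` is analytic on the open set `G ⊇ (segment ∖ {x₁}) ∪ N`; this union is
connected (the half-open segment is connected and meets `N`, because the points of the segment near `x₁` have `Im M > 0`), so `f = 0` on it (`AnalyticOnNhd.eqOn_zero_of_preconnected_of_eventuallyEq_zero`). -/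
theorem propagate (f M : ℂ → ℂ) (x₀ x₁ : ℂ) (hne : x₀ ≠ x₁) (G : Set ℂ) (hG : IsOpen G) (hf : AnalyticOnNhd ℂ f G)
    (hseg : ∀ x ∈ segment ℝ x₀ x₁, x ≠ x₁ → x ∈ G ∧ 0 < (M x).im) (hM : AnalyticAt ℂ M x₁) (hM' : deriv M x₁ ≠ 0) (h1 : (M x₁).im = 0)
    (hGM : ∀ᶠ x in 𝓝 x₁, 0 < (M x).im → x ∈ G) (h0 : ∀ᶠ x in 𝓝 x₀, f x = 0) : ∀ᶠ x in 𝓝 x₁, 0 < (M x).im → f x = 0 := by
  classical
  set Θ : ℂ → ℂ := hM.hasStrictDerivAt.localInverse _ _ _ hM' with hΘ
  have hΘa : AnalyticAt ℂ Θ (M x₁) := hM.analyticAt_localInverse hM'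
  have hΘl : ∀ᶠ x in 𝓝 x₁, Θ (M x) = x := HasStrictDerivAt.eventually_left_inverse ..
  have hΘr : ∀ᶠ w in 𝓝 (M x₁), M (Θ w) = w := HasStrictDerivAt.eventually_right_inverse ..
  have hΘ0 : Θ (M x₁) = x₁ := hΘl.self_of_nhds
  have hΘG : ∀ᶠ w in 𝓝 (M x₁), 0 < (M (Θ w)).im → Θ w ∈ G := by
    have := hΘa.continuousAt.tendsto
    rw [hΘ0] at this
    exact this.eventually hGM
  obtain ⟨ρ, hρ, hρr⟩ : ∃ ρ > 0, ∀ w ∈ Metric.ball (M x₁) ρ, M (Θ w) = w ∧ AnalyticAt ℂ Θ w ∧ (0 < (M (Θ w)).im → Θ w ∈ G) := by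
    have h2 := hΘr.and (hΘa.eventually_analyticAt.and hΘG)
    rw [Metric.eventually_nhds_iff_ball] at h2
    exact h2
  set V : Set ℂ := Metric.ball (M x₁) ρ ∩ {w : ℂ | 0 < w.im} with hV
  have hVc : Convex ℝ V := (convex_ball _ _).inter (convex_halfSpace_im_gt 0)
  have hN : IsPreconnected (Θ '' V) := by
    apply hVc.isPreconnected.image
    intro w hw
    exact (hρr w hw.1).2.1.continuousAt.continuousWithinAt
  have hNG : Θ '' V ⊆ G := by
    rintro _ ⟨w, hw, rfl⟩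
    obtain ⟨h2, -, h3⟩ := hρr w hw.1
    apply h3
    rw [h2]; exact hw.2
  set c : ℝ → ℂ := fun t => AffineMap.lineMap x₀ x₁ t with hc
  have hcc : Continuous c := AffineMap.lineMap_continuous
  have hcS : ∀ t ∈ Set.Ico (0 : ℝ) 1, c t ∈ segment ℝ x₀ x₁ ∧ c t ≠ x₁ := by
    intro t ht
    refine ⟨?_, ?_⟩
    · rw [segment_eq_image_lineMap]
      exact ⟨t, ⟨ht.1, ht.2.le⟩, rfl⟩
    · intro h
      have h2 : c t = c 1 := by rw [h]; simp [hc]
      have h3 := AffineMap.lineMap_injective ℝ hne h2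
      exact absurd h3 ht.2.ne
  have hS : IsPreconnected (c '' Set.Ico 0 1) := isPreconnected_Ico.image _ hcc.continuousOn
  have hSG : c '' Set.Ico 0 1 ⊆ G := by
    rintro _ ⟨t, ht, rfl⟩
    exact (hseg _ (hcS t ht).1 (hcS t ht).2).1
  have hnear : ∀ᶠ x in 𝓝 x₁, 0 < (M x).im → x ∈ Θ '' V := by
    have h2 : ∀ᶠ x in 𝓝 x₁, M x ∈ Metric.ball (M x₁) ρ := hM.continuousAt.eventually_mem (Metric.ball_mem_nhds _ hρ)
    filter_upwards [hΘl, h2] with x hx1 hx2 hx3
    exact ⟨M x, ⟨hx2, hx3⟩, hx1⟩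
  obtain ⟨t, ht, htN⟩ : ∃ t ∈ Set.Ico (0 : ℝ) 1, c t ∈ Θ '' V := by
    have h2 : Tendsto c (𝓝[<] 1) (𝓝 x₁) := by
      have h3 := hcc.tendsto 1
      have h4 : c 1 = x₁ := by simp [hc]
      rw [h4] at h3
      exact h3.mono_left nhdsWithin_le_nhds
    have h3 := h2.eventually hnear
    have h4 : ∀ᶠ t in 𝓝[<] (1 : ℝ), t ∈ Set.Ioo (0 : ℝ) 1 := Ioo_mem_nhdsLT one_pos
    obtain ⟨t, ht1, ht2⟩ := (h3.and h4).exists
    have ht : t ∈ Set.Ico (0 : ℝ) 1 := ⟨ht2.1.le, ht2.2⟩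
    exact ⟨t, ht, ht1 (hseg _ (hcS t ht).1 (hcS t ht).2).2⟩
  have hU : IsPreconnected (c '' Set.Ico 0 1 ∪ Θ '' V) := hS.union (c t) ⟨t, ht, rfl⟩ htN hN
  have hx₀ : x₀ ∈ c '' Set.Ico 0 1 ∪ Θ '' V := Or.inl ⟨0, ⟨le_rfl, one_pos⟩, by simp [hc]⟩
  have hfU : AnalyticOnNhd ℂ f (c '' Set.Ico 0 1 ∪ Θ '' V) := hf.mono (Set.union_subset hSG hNG)
  have hz := hfU.eqOn_zero_of_preconnected_of_eventuallyEq_zero hU hx₀ h0
  filter_upwards [hnear] with x hx1 hx2
  exact hz (Or.inr (hx1 hx2))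

/-- H33b. Backward. (An open neighbourhood of the segment: a thickening, which is convex.) -/
theorem propagate_back (f : ℂ → ℂ) (x₀ x₁ : ℂ) (hf : ∀ x ∈ segment ℝ x₀ x₁, AnalyticAt ℂ f x) (h1 : ∀ᶠ x in 𝓝 x₁, f x = 0) :
    ∀ᶠ x in 𝓝 x₀, f x = 0 := by
  rcases eq_or_ne x₀ x₁ with rfl | hne
  · exact h1
  have hz := AnalyticOnNhd.eqOn_zero_of_preconnected_of_eventuallyEq_zero (f := f) (U := segment ℝ x₀ x₁) hf
    (convex_segment x₀ x₁).isPreconnected (right_mem_segment ℝ x₀ x₁) h1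
  have hfx : AnalyticAt ℂ f x₀ := hf x₀ (left_mem_segment ℝ x₀ x₁)
  rw [← hfx.frequently_zero_iff_eventually_zero]
  set c : ℝ → ℂ := fun t => AffineMap.lineMap x₀ x₁ t with hc
  have hcc : Continuous c := AffineMap.lineMap_continuous
  have h2 : Tendsto c (𝓝[>] 0) (𝓝[≠] x₀) := by
    apply tendsto_nhdsWithin_of_tendsto_nhds_of_eventually_within
    · have h3 := hcc.tendsto 0
      have h4 : c 0 = x₀ := by simp [hc]
      rw [h4] at h3
      exact h3.mono_left nhdsWithin_le_nhds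
    · filter_upwards [self_mem_nhdsWithin] with t ht
      intro h
      have h4 : c 0 = x₀ := by simp [hc]
      have h5 : c t = c 0 := by rw [h4]; exact h
      exact absurd (AffineMap.lineMap_injective ℝ hne h5) (ne_of_gt ht)
  have h3 : ∀ᶠ t in 𝓝[>] (0 : ℝ), f (c t) = 0 := by
    have h4 : ∀ᶠ t in 𝓝[>] (0 : ℝ), t ∈ Set.Ioo (0 : ℝ) 1 := Ioo_mem_nhdsGT one_pos
    filter_upwards [h4] with t ht
    apply hz
    rw [segment_eq_image_lineMap]
    exact ⟨t, ⟨ht.1.le, ht.2.le⟩, rfl⟩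
  exact h2.frequently h3.frequently

end Pool.Agent.MSD
end

end

section

/-! # H21: the transformation near a hyperbolic fixed point (MP_f58a57_nt) -/

open Complex ModularForm EisensteinSeries Filter
open UpperHalfPlane hiding I
open scoped Topology MatrixGroups Polynomial

noncomputable section

namespace Pool.Agent.MSD

/-- H21a. The point with coordinate `V`. `Im (hv ρ ρ' V) = (ρ - ρ') Im V / |1 - V|²`; the coordinate of `hv ρ ρ' V` is `V`. -/
theorem hv_im (ρ ρ' : ℝ) (V : ℂ) (hV : V ≠ 1) : (hv ρ ρ' V).im = (ρ - ρ') * V.im / ‖1 - V‖ ^ 2 := by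
  have h1 : (1 : ℂ) - V ≠ 0 := sub_ne_zero.mpr (Ne.symm hV)
  have h2 : Complex.normSq (1 - V) ≠ 0 := by
    rw [Ne, Complex.normSq_eq_zero]; exact h1
  have h3 : ‖1 - V‖ ^ 2 = Complex.normSq (1 - V) := (Complex.normSq_eq_norm_sq _).symm
  rw [h3, hv, Complex.div_im]
  simp only [Complex.sub_im, Complex.sub_re, Complex.mul_im, Complex.mul_re, Complex.ofReal_re, Complex.ofReal_im,
    Complex.one_re, Complex.one_im]
  field_simp
  ring

theorem hv_coord (ρ ρ' : ℝ) (hne : ρ ≠ ρ') (V : ℂ) (hV : V ≠ 1) : hv ρ ρ' V ≠ ρ' ∧ (hv ρ ρ' V - ρ) / (hv ρ ρ' V - ρ') = V := by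
  have h1 : (1 : ℂ) - V ≠ 0 := sub_ne_zero.mpr (Ne.symm hV)
  have h2 : (ρ : ℂ) - ρ' ≠ 0 := by
    rw [sub_ne_zero]; exact_mod_cast hne
  have h3 : hv ρ ρ' V - ρ' = (ρ - ρ') / (1 - V) := by
    rw [hv]; field_simp; ring
  have h4 : hv ρ ρ' V - ρ = (ρ - ρ') / (1 - V) * V := by
    rw [hv]; field_simp; ring
  have h5 : ((ρ : ℂ) - ρ') / (1 - V) ≠ 0 := div_ne_zero h2 h1
  refine ⟨?_, ?_⟩
  · rw [← sub_ne_zero, h3]; exact h5
  · rw [h3, h4]; field_simp

/-- H21b. PROOF. Put `v = hv ρ ρ' V`, `γ = (A B; C E)`. By the relations `γ v` has the coordinate `((Λρ)-...)`: precisely `A v + B - ρ (C v + E) = μ⁻¹ (v - ρ)` and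
`A v + B - ρ' (C v + E) = μ (v - ρ')` (both sides are affine in `v`; compare at `v = ρ, ρ'`), so the coordinate of `γ v` is `μ⁻² V = δ V`; hence `γ v = w`.
`C v + E = μ (1 - δ V)/(1 - V)` (affine in `v`, values `μ, μ⁻¹` at `ρ, ρ'`) and `C = (μ - μ⁻¹)/(ρ - ρ') = μ (1 - δ)/(ρ - ρ')`. Insert in `e2_transform, e4_transform, e6_transform`. -/
theorem hyp_transform (ρ ρ' μ : ℝ) (hne : ρ ≠ ρ') (hμ : μ ≠ 0) (A B C E : ℤ) (hdet : A * E - B * C = 1)
    (h1 : (C : ℝ) * ρ + E = μ) (h2 : (C : ℝ) * ρ' + E = μ⁻¹) (h3 : (A : ℝ) * ρ + B = μ * ρ) (h4 : (A : ℝ) * ρ' + B = μ⁻¹ * ρ')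
    (V w : ℂ) (hV : V ≠ 1) (hv0 : 0 < (hv ρ ρ' V).im) (hw : 0 < w.im) (hc : (w - ρ) / (w - ρ') = ((μ ^ 2)⁻¹ : ℝ) * V) (κ : Fin 3) :
    EE κ w = hE ρ ρ' κ V ((μ ^ 2)⁻¹ : ℝ) := by
  have h1V : (1 : ℂ) - V ≠ 0 := sub_ne_zero.mpr (Ne.symm hV)
  have hρ : (ρ : ℂ) - ρ' ≠ 0 := by
    rw [sub_ne_zero]; exact_mod_cast hne
  have hμ' : (μ : ℂ) ≠ 0 := by exact_mod_cast hμ
  have hpi : (Real.pi : ℂ) ≠ 0 := by exact_mod_cast Real.pi_ne_zero
  have g1 : (C : ℂ) * ρ + E = μ := by exact_mod_cast congrArg (fun t : ℝ => (t : ℂ)) h1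
  have g2 : (C : ℂ) * ρ' + E = (μ : ℂ)⁻¹ := by
    have := congrArg (fun t : ℝ => (t : ℂ)) h2
    push_cast at this
    exact this
  have g3 : (A : ℂ) * ρ + B = μ * ρ := by exact_mod_cast congrArg (fun t : ℝ => (t : ℂ)) h3
  have g4 : (A : ℂ) * ρ' + B = (μ : ℂ)⁻¹ * ρ' := by
    have := congrArg (fun t : ℝ => (t : ℂ)) h4
    push_cast at this
    exact this
  have hδ : (((μ ^ 2)⁻¹ : ℝ) : ℂ) = ((μ : ℂ) ^ 2)⁻¹ := by push_cast; ring
  rw [hδ] at hc ⊢
  set v : ℂ := hv ρ ρ' V with hv_def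
  have hv1 : v * (1 - V) = ρ - ρ' * V := by
    rw [hv_def, hv]; field_simp
  have k1 : ((C : ℂ) * v + E) * (1 - V) = μ - (μ : ℂ)⁻¹ * V := by
    linear_combination (C : ℂ) * hv1 + g1 - V * g2
  have k2 : ((A : ℂ) * v + B) * (1 - V) = μ * ρ - (μ : ℂ)⁻¹ * ρ' * V := by
    linear_combination (A : ℂ) * hv1 + g3 - V * g4
  have k1' : (C : ℂ) * v + E = μ * ((1 - ((μ : ℂ) ^ 2)⁻¹ * V) / (1 - V)) := by
    rw [eq_div_iff_mul_eq h1V |>.mpr k1]; field_simp
  have k2' : (A : ℂ) * v + B = μ * ((ρ - ((μ : ℂ) ^ 2)⁻¹ * V * ρ') / (1 - V)) := by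
    rw [eq_div_iff_mul_eq h1V |>.mpr k2]; field_simp
  have hwρ' : w - ρ' ≠ 0 := by
    intro h
    have := congrArg Complex.im h
    simp at this
    rw [this] at hw
    exact lt_irrefl _ hw
  have hc' : w - ρ = ((μ : ℂ) ^ 2)⁻¹ * V * (w - ρ') := by
    rw [← hc]; field_simp
  have hw1 : w * (1 - ((μ : ℂ) ^ 2)⁻¹ * V) = ρ - ((μ : ℂ) ^ 2)⁻¹ * V * ρ' := by
    linear_combination hc'
  have hne1 : 1 - ((μ : ℂ) ^ 2)⁻¹ * V ≠ 0 := by
    intro h
    rw [h, mul_zero] at hw1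
    have h5 : ((μ : ℂ) ^ 2)⁻¹ * V = 1 := by linear_combination -h
    rw [h5, one_mul] at hw1
    exact hρ hw1.symm
  have hγ : ((A : ℂ) * v + B) / (C * v + E) = w := by
    rw [k1', k2', mul_div_mul_left _ _ hμ', div_div_div_cancel_right₀ h1V, div_eq_iff hne1, hw1]
  have hC : (C : ℂ) = μ * (1 - ((μ : ℂ) ^ 2)⁻¹) / (ρ - ρ') := by
    rw [eq_div_iff hρ]
    have : (C : ℂ) * (ρ - ρ') = μ - (μ : ℂ)⁻¹ := by linear_combination g1 - g2
    rw [this]; field_simp
  have e2' := e2_transform A B C E hdet v hv0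
  have e4' := e4_transform A B C E hdet v hv0
  have e6' := e6_transform A B C E hdet v hv0
  rw [hγ, k1'] at e2' e4' e6'
  fin_cases κ
  · show e2 w = _
    rw [e2', hC]
    simp only [hE, ha, hb, Matrix.cons_val_zero, Fin.zero_eta, Fin.isValue, ← hv_def, inv_inv]
    field_simp
    ring
  · show e4 w = _
    rw [e4']
    simp only [hE, ha, Matrix.cons_val_one, Matrix.cons_val_zero, Fin.mk_one, Fin.isValue, ← hv_def, inv_inv]
    ring
  · show e6 w = _
    rw [e6']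
    simp only [hE, ha, ← hv_def, inv_inv]
    show _ = ((μ : ℂ) ^ 2) ^ 3 * _ * e6 v
    ring

end Pool.Agent.MSD
end

end

section

/-! # H32: the exit point (MP_f58a57_nt) -/

open Complex ModularForm EisensteinSeries Filter
open UpperHalfPlane hiding I
open scoped Topology MatrixGroups Polynomial

noncomputable section

namespace Pool.Agent.MSD

/-- a function whose derivative vanishes near a point is constant near the point -/
theorem h32_const (f : ℂ → ℂ) (x : ℂ) (hf : AnalyticAt ℂ f x) (h : ∀ᶠ y in 𝓝 x, deriv f y = 0) :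
    ∀ᶠ y in 𝓝 x, f y = f x := by
  obtain ⟨r, hr, hball⟩ := Metric.eventually_nhds_iff_ball.1 (h.and hf.eventually_analyticAt)
  filter_upwards [Metric.ball_mem_nhds x hr] with y hy
  refine Metric.isOpen_ball.is_const_of_deriv_eq_zero (convex_ball x r).isPreconnected
    (fun z hz => (hball z hz).2.differentiableAt.differentiableWithinAt)
    (fun z hz => (hball z hz).1) hy (Metric.mem_ball_self hr)

/-- the first bad set: isolated critical points -/
theorem h32_crit (G : Set ℂ) (f : ℂ → ℂ) :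
    {x | x ∈ G ∧ deriv f x = 0 ∧ ∀ᶠ y in 𝓝[≠] x, deriv f y ≠ 0}.Countable := by
  refine countable_of_isolated _ fun x hx => ?_
  filter_upwards [hx.2.2] with y hy h
  exact hy h.2.1

/-- the second bad set: isolated common real points -/
theorem h32_real (G : Set ℂ) (f g : ℂ → ℂ) (hf : AnalyticOnNhd ℂ f G) (hg : AnalyticOnNhd ℂ g G) :
    {x | x ∈ G ∧ (f x).im = 0 ∧ (g x).im = 0 ∧ deriv f x ≠ 0 ∧ ¬ SameArc f g x}.Countable := by
  refine countable_of_isolated _ fun x hx => ?_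
  obtain ⟨h1, h2, h3, h4, h5⟩ := hx
  rcases arc_dichotomy f g x (hf x h1) (hg x h1) h4 h2 with h | h
  · exact absurd h h5
  · filter_upwards [h] with y hy h6
    exact hy ⟨h6.2.1, h6.2.2.1⟩

/-- the first exit of a segment -/
theorem h32_first {ι : Type} [Finite ι] (G : Set ℂ) (M : ι → ℂ → ℂ)
    (hM : ∀ i, AnalyticOnNhd ℂ (M i) G) (x₀ y : ℂ) (hseg : segment ℝ x₀ y ⊆ G)
    (hpos : ∀ i, 0 < (M i x₀).im) (i₀ : ι) (hneg : (M i₀ y).im < 0) :
    ∃ s₁ : ℝ, 0 < s₁ ∧ s₁ ≤ 1 ∧ (∀ s, 0 ≤ s → s < s₁ → ∀ i, 0 < (M i (AffineMap.lineMap x₀ y s)).im) ∧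
      (∀ i, 0 ≤ (M i (AffineMap.lineMap x₀ y s₁)).im) ∧
      ∃ i, (M i (AffineMap.lineMap x₀ y s₁)).im = 0 := by
  have hmem : ∀ s ∈ Set.Icc (0 : ℝ) 1, (AffineMap.lineMap x₀ y s : ℂ) ∈ G := fun s hs =>
    hseg (by rw [segment_eq_image_lineMap]; exact ⟨s, hs, rfl⟩)
  have hγ : Continuous fun s : ℝ => (AffineMap.lineMap x₀ y s : ℂ) := AffineMap.lineMap_continuous
  have hcont : ∀ i, ContinuousOn (fun s : ℝ => (M i (AffineMap.lineMap x₀ y s)).im)
      (Set.Icc 0 1) := by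
    intro i
    refine Complex.continuous_im.comp_continuousOn ?_
    exact (hM i).continuousOn.comp hγ.continuousOn fun s hs => hmem s hs
  set S : Set ℝ := ⋃ i, (Set.Icc (0 : ℝ) 1 ∩
    (fun s : ℝ => (M i (AffineMap.lineMap x₀ y s)).im) ⁻¹' Set.Iic 0) with hS
  have hSc : IsCompact S := by
    refine isCompact_iUnion fun i => ?_
    exact isCompact_Icc.of_isClosed_subset
      ((hcont i).preimage_isClosed_of_isClosed isClosed_Icc isClosed_Iic) Set.inter_subset_left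
  have h1 : (1 : ℝ) ∈ S := by
    rw [hS, Set.mem_iUnion]
    refine ⟨i₀, ⟨zero_le_one, le_refl _⟩, ?_⟩
    simp only [Set.mem_preimage, AffineMap.lineMap_apply_one, Set.mem_Iic]
    exact hneg.le
  obtain ⟨s₁, hs₁, hleast⟩ := hSc.exists_isLeast ⟨1, h1⟩
  rw [hS, Set.mem_iUnion] at hs₁
  obtain ⟨i₁, ⟨h2, h3⟩, h4⟩ := hs₁
  simp only [Set.mem_preimage, Set.mem_Iic] at h4
  have hlt : ∀ s, 0 ≤ s → s < s₁ → ∀ i, 0 < (M i (AffineMap.lineMap x₀ y s)).im := by
    intro s hs0 hs i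
    by_contra hcon
    have : s ∈ S := by
      rw [hS, Set.mem_iUnion]
      exact ⟨i, ⟨hs0, hs.le.trans h3⟩, not_lt.1 hcon⟩
    exact absurd (hleast this) (not_le.2 hs)
  have hs₁0 : 0 < s₁ := by
    rcases h2.lt_or_eq with h | h
    · exact h
    · exfalso
      rw [← h, AffineMap.lineMap_apply_zero] at h4
      exact absurd (hpos i₁) (not_lt.2 h4)
  have hge : ∀ i, 0 ≤ (M i (AffineMap.lineMap x₀ y s₁)).im := by
    intro i
    have hc := (hcont i) s₁ ⟨h2, h3⟩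
    have hc' : Tendsto (fun s : ℝ => (M i (AffineMap.lineMap x₀ y s)).im) (𝓝[Set.Ico 0 s₁] s₁)
        (𝓝 (M i (AffineMap.lineMap x₀ y s₁)).im) :=
      hc.mono_left (nhdsWithin_mono _ fun s hs => ⟨hs.1, hs.2.le.trans h3⟩)
    have hne : (𝓝[Set.Ico 0 s₁] s₁).NeBot := by
      rw [← mem_closure_iff_nhdsWithin_neBot, closure_Ico hs₁0.ne]
      exact ⟨h2, le_refl _⟩
    refine ge_of_tendsto hc' ?_
    filter_upwards [self_mem_nhdsWithin] with s hs
    exact (hlt s hs.1 hs.2 i).le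
  exact ⟨s₁, hs₁0, h3, hlt, hge, i₁, le_antisymm h4 (hge i₁)⟩

/-- H32. PROOF. Let `G = Q ∖ F`, `G` is open, connected. Bad set `B`: `F`, the critical points of the nonconstant `M i` (isolated), and for all `i, j` the points `x ∈ G` with `(M i x).im = (M j x).im = 0`, `deriv (M i) x ≠ 0`, not
`SameArc (M i) (M j) x` (isolated by `arc_dichotomy`; use `countable_of_isolated`). `B` is countable. (Connectedness of `G` is not needed: points near which `deriv (M i)` vanishes identically are not put into `B`; such a point is not `x₁` because `Im M i > 0` at the points of the segment near `x₁`.) Choose by H31 `y` near `y₀` (in `Q`, `(M i₀ y).im < 0`) such that `(x₀, y]` avoids `B`. The segment is in `Q` (convex), so in `G`. Let `x₁ = x₀ + s₁ (y - x₀)`, `s₁` the infimum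
of the `s ∈ [0,1]` with `min_i Im M i ≤ 0`. Constant `M i` have positive imaginary part everywhere. -/
theorem exit_gen {ι : Type} [Finite ι] (Q : Set ℂ) (hQ : IsOpen Q) (hQc : Convex ℝ Q) (F : Set ℂ) (hF : F.Finite)
    (M : ι → ℂ → ℂ) (hM : ∀ i, AnalyticOnNhd ℂ (M i) (Q \ F)) (x₀ : ℂ) (hx₀ : x₀ ∈ Q \ F) (hpos : ∀ i, 0 < (M i x₀).im)
    (y₀ : ℂ) (hy₀ : y₀ ∈ Q \ F) (i₀ : ι) (hneg : (M i₀ y₀).im < 0) :
    ∃ x₁ ∈ Q \ F, x₁ ≠ x₀ ∧ segment ℝ x₀ x₁ ⊆ Q \ F ∧ (∀ x ∈ segment ℝ x₀ x₁, x ≠ x₁ → ∀ i, 0 < (M i x).im) ∧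
      (∀ i, 0 ≤ (M i x₁).im) ∧ (∃ i, (M i x₁).im = 0) ∧ (∀ i, (M i x₁).im = 0 → deriv (M i) x₁ ≠ 0) ∧
      ∀ i j, (M i x₁).im = 0 → (M j x₁).im = 0 → SameArc (M i) (M j) x₁ := by
  have hG : IsOpen (Q \ F) := hQ.sdiff hF.isClosed
  have hne : y₀ ≠ x₀ := by
    rintro rfl
    exact absurd (hpos i₀) (not_lt.2 hneg.le)
  set B : Set ℂ := F ∪ ((⋃ i, {x | x ∈ Q \ F ∧ deriv (M i) x = 0 ∧ ∀ᶠ y in 𝓝[≠] x, deriv (M i) y ≠ 0}) ∪
    ⋃ i, ⋃ j, {x | x ∈ Q \ F ∧ (M i x).im = 0 ∧ (M j x).im = 0 ∧ deriv (M i) x ≠ 0 ∧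
      ¬ SameArc (M i) (M j) x}) with hB
  have hBc : B.Countable := by
    refine hF.countable.union (Set.Countable.union ?_ ?_)
    · exact Set.countable_iUnion fun i => h32_crit _ _
    · exact Set.countable_iUnion fun i => Set.countable_iUnion fun j => h32_real _ _ _ (hM i) (hM j)
  have hev : ∀ᶠ y in 𝓝 y₀, y ∈ Q \ F ∧ (M i₀ y).im < 0 := by
    refine (hG.eventually_mem hy₀).and ?_
    have hc : ContinuousAt (fun y => (M i₀ y).im) y₀ :=
      Complex.continuous_im.continuousAt.comp (hM i₀ y₀ hy₀).continuousAt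
    exact hc.eventually (gt_mem_nhds hneg)
  obtain ⟨ε, hε, hball⟩ := Metric.eventually_nhds_iff.1 hev
  obtain ⟨y, hy1, hy2, hy3⟩ := generic_segment x₀ y₀ hne B hBc ε hε
  obtain ⟨hyQ, hyneg⟩ := hball (by rw [dist_eq_norm]; exact hy1)
  have hseg : segment ℝ x₀ y ⊆ Q \ F := by
    intro x hx
    refine ⟨hQc.segment_subset hx₀.1 hyQ.1 hx, ?_⟩
    by_cases hxx : x = x₀
    · rw [hxx]; exact hx₀.2
    · exact fun hF' => hy3 x hx hxx (by rw [hB]; exact Or.inl hF')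
  obtain ⟨s₁, h0, h1, hlt, hge, i₁, hi₁⟩ := h32_first (Q \ F) M hM x₀ y hseg hpos i₀ hyneg
  set x₁ : ℂ := AffineMap.lineMap x₀ y s₁ with hx₁
  have hx₁s : x₁ ∈ segment ℝ x₀ y := by
    rw [segment_eq_image_lineMap]
    exact ⟨s₁, ⟨h0.le, h1⟩, rfl⟩
  have hx₁G : x₁ ∈ Q \ F := hseg hx₁s
  have hx₁0 : x₁ ≠ x₀ := by
    intro h
    rw [h] at hi₁
    exact absurd (hpos i₁) (by rw [hi₁]; exact lt_irrefl _)
  have hsub : segment ℝ x₀ x₁ ⊆ segment ℝ x₀ y :=
    (convex_segment x₀ y).segment_subset (left_mem_segment ℝ x₀ y) hx₁s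
  have hx₁B : x₁ ∉ B := hy3 x₁ hx₁s hx₁0
  rw [hB] at hx₁B
  simp only [Set.mem_union, Set.mem_iUnion, not_or, not_exists] at hx₁B
  obtain ⟨-, hb1, hb2⟩ := hx₁B
  have hder : ∀ i, (M i x₁).im = 0 → deriv (M i) x₁ ≠ 0 := by
    intro i hi hd
    have hfreq : ¬ ∀ᶠ y in 𝓝[≠] x₁, deriv (M i) y ≠ 0 := fun h => hb1 i ⟨hx₁G, hd, h⟩
    have hz : ∀ᶠ y in 𝓝 x₁, deriv (M i) y = 0 :=
      ((hM i x₁ hx₁G).deriv.eventually_eq_zero_or_eventually_ne_zero).resolve_right hfreq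
    have hc := h32_const (M i) x₁ (hM i x₁ hx₁G) hz
    have hγ : Tendsto (fun s : ℝ => (AffineMap.lineMap x₀ y s : ℂ)) (𝓝[<] s₁) (𝓝 x₁) :=
      (AffineMap.lineMap_continuous.tendsto s₁).mono_left nhdsWithin_le_nhds
    have h5 := hγ.eventually hc
    have h6 : ∀ᶠ s in 𝓝[<] s₁, 0 < s := (eventually_gt_nhds h0).filter_mono nhdsWithin_le_nhds
    obtain ⟨s, ⟨h7, h8⟩, h9⟩ := ((h5.and h6).and self_mem_nhdsWithin).exists
    have h10 := hlt s h8.le h9 i
    rw [h7, hi] at h10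
    exact lt_irrefl _ h10
  refine ⟨x₁, hx₁G, hx₁0, hsub.trans hseg, ?_, hge, ⟨i₁, hi₁⟩, hder, ?_⟩
  · intro x hx hxx i
    rw [segment_eq_image_lineMap] at hx
    obtain ⟨r, ⟨hr0, hr1⟩, rfl⟩ := hx
    have hr : r < 1 := by
      rcases hr1.lt_or_eq with h | h
      · exact h
      · exfalso
        rw [h, AffineMap.lineMap_apply_one] at hxx
        exact hxx rfl
    have he : (AffineMap.lineMap x₀ x₁ r : ℂ) = AffineMap.lineMap x₀ y (r * s₁) := by
      rw [hx₁]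
      simp only [AffineMap.lineMap_apply, vsub_eq_sub, vadd_eq_add, add_sub_cancel_right, mul_smul]
    rw [he]
    exact hlt _ (mul_nonneg hr0 h0.le) (by nlinarith) i
  · intro i j hi hj
    by_contra hcon
    exact hb2 i j ⟨hx₁G, hi, hj, hder i hi, hcon⟩

end Pool.Agent.MSD
end

end

section

/-! # M03: a flagged sequence (MP_f58a57_nt) -/

open Complex ModularForm EisensteinSeries Filter
open UpperHalfPlane hiding I
open scoped Topology MatrixGroups Polynomial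

noncomputable section

namespace Pool.Agent.MSD

/-- M03. PROOF. `x k l = (1/2)^((k+1)^(r-l))`: for `l < l'` and `k + 1 ≥ C`, `(k+1)^(r-l) ≥ (k+1) (k+1)^(r-l') ≥ C (k+1)^(r-l')`. -/
theorem exists_flag (r : ℕ) : ∃ x : ℕ → Fin r → ℂ, (∀ l, Tendsto (fun k => x k l) atTop (𝓝 0)) ∧ (∀ k l, x k l ≠ 0) ∧
    ∀ C : ℕ, ∀ᶠ k in atTop, ∀ l l', l < l' → ‖x k l‖ ≤ ‖x k l'‖ ^ C := by
  refine ⟨fun k l => ((1 : ℂ) / 2) ^ ((k + 1) ^ (r - l.val)), fun l => ?_, fun k l => ?_, fun C => ?_⟩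
  · have h1 : Tendsto (fun n : ℕ => ((1 : ℂ) / 2) ^ n) atTop (𝓝 0) := by
      apply tendsto_pow_atTop_nhds_zero_of_norm_lt_one
      rw [norm_div, norm_one, Complex.norm_ofNat]
      norm_num
    have h2 : Tendsto (fun k : ℕ => (k + 1) ^ (r - l.val)) atTop atTop := by
      have h3 : r - l.val ≠ 0 := by omega
      exact (tendsto_pow_atTop h3).comp (tendsto_add_atTop_nat 1)
    exact h1.comp h2
  · exact pow_ne_zero _ (by norm_num)
  · filter_upwards [eventually_ge_atTop C] with k hk l l' hl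
    simp only [norm_pow, norm_div, norm_one, Complex.norm_ofNat]
    rw [← pow_mul]
    apply pow_le_pow_of_le_one (by norm_num) (by norm_num)
    have h1 : l.val < l'.val := hl
    have h2 : r - l'.val + 1 ≤ r - l.val := by omega
    calc (k + 1) ^ (r - l'.val) * C ≤ (k + 1) ^ (r - l'.val) * (k + 1) := Nat.mul_le_mul_left _ (by omega)
      _ = (k + 1) ^ (r - l'.val + 1) := by rw [pow_succ]
      _ ≤ (k + 1) ^ (r - l.val) := Nat.pow_le_pow_right (by omega) h2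

end Pool.Agent.MSD
end

end

section

/-! # H23: the two-variable identity (MP_f58a57_nt) -/

open Complex ModularForm EisensteinSeries Filter
open UpperHalfPlane hiding I
open scoped Topology MatrixGroups Polynomial

noncomputable section

namespace Pool.Agent.MSD

/-- the value of `hE` without the powers of `δ⁻¹` -/
def h23_g (ρ ρ' : ℝ) (κ : Fin 3) (V δ : ℂ) : ℂ :=
  ![ha V δ * e2 (hv ρ ρ' V) + hb ρ ρ' V δ, ha V δ ^ 2 * e4 (hv ρ ρ' V),
    ha V δ ^ 3 * e6 (hv ρ ρ' V)] κ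

theorem h23_hE (ρ ρ' : ℝ) (κ : Fin 3) (V δ : ℂ) :
    hE ρ ρ' κ V δ = δ⁻¹ ^ ((κ : ℕ) + 1) * h23_g ρ ρ' κ V δ := by
  unfold hE h23_g
  fin_cases κ
  · simp
  · simp [mul_assoc]
  · simp [mul_assoc]

theorem h23_analytic_upper {f : ℂ → ℂ} (hf : DifferentiableOn ℂ f {z | 0 < z.im}) {z : ℂ}
    (hz : 0 < z.im) : AnalyticAt ℂ f z :=
  hf.analyticAt ((isOpen_lt continuous_const Complex.continuous_im).mem_nhds hz)

theorem h23_comp {g f : ℂ → ℂ} {x y : ℂ} (hg : AnalyticAt ℂ g y) (hf : AnalyticAt ℂ f x)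
    (hy : f x = y) : AnalyticAt ℂ (fun z => g (f z)) x := by
  subst hy
  exact hg.comp hf

/-- `h23_g` is analytic along an analytic function `U` -/
theorem h23_g_analytic (ρ ρ' : ℝ) (hne : ρ ≠ ρ') (κ : Fin 3) (U : ℂ → ℂ) (δ : ℂ)
    (hU : AnalyticAt ℂ U δ) (hU1 : U δ ≠ 1) (him : 0 < (hv ρ ρ' (U δ)).im) :
    AnalyticAt ℂ (fun δ => h23_g ρ ρ' κ (U δ) δ) δ := by
  have h1 : (1 : ℂ) - U δ ≠ 0 := sub_ne_zero.mpr (Ne.symm hU1)
  have hden : AnalyticAt ℂ (fun δ => 1 - U δ) δ := analyticAt_const.sub hU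
  have hid : AnalyticAt ℂ (fun δ : ℂ => δ) δ := analyticAt_id
  have hnum : AnalyticAt ℂ (fun δ => 1 - δ * U δ) δ := analyticAt_const.sub (hid.mul hU)
  have hha : AnalyticAt ℂ (fun δ => ha (U δ) δ) δ := (hnum.div hden h1).pow 2
  have hhv : AnalyticAt ℂ (fun δ => hv ρ ρ' (U δ)) δ :=
    (analyticAt_const.sub (analyticAt_const.mul hU)).div hden h1
  have hne' : (ρ : ℂ) - ρ' ≠ 0 := by
    intro h
    apply hne
    have : (ρ : ℂ) = ρ' := sub_eq_zero.mp h
    exact_mod_cast this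
  have hhb : AnalyticAt ℂ (fun δ => hb ρ ρ' (U δ) δ) δ := by
    unfold hb
    refine AnalyticAt.div ?_ (analyticAt_const.mul hden) (mul_ne_zero hne' h1)
    exact (analyticAt_const.mul (analyticAt_const.sub hid)).mul hnum
  have he2 : AnalyticAt ℂ (fun δ => e2 (hv ρ ρ' (U δ))) δ :=
    h23_comp (h23_analytic_upper e2_diff him) hhv rfl
  have he4 : AnalyticAt ℂ (fun δ => e4 (hv ρ ρ' (U δ))) δ :=
    h23_comp (h23_analytic_upper e4_diff him) hhv rfl
  have he6 : AnalyticAt ℂ (fun δ => e6 (hv ρ ρ' (U δ))) δ :=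
    h23_comp (h23_analytic_upper e6_diff him) hhv rfl
  unfold h23_g
  fin_cases κ
  · exact (hha.mul he2).add hhb
  · exact (hha.pow 2).mul he4
  · exact (hha.pow 3).mul he6

theorem h23_pev {σ : Type} (P : MvPolynomial σ (ℂ → ℂ)) (x : ℂ) (y : σ → ℂ) :
    pev P x y = ∑ m ∈ P.support, (P.coeff m) x * ∏ i ∈ m.support, y i ^ m i := by
  unfold pev
  rw [MvPolynomial.eval_map, MvPolynomial.eval₂_eq]
  rfl

/-- clearing the powers of `δ⁻¹` -/
theorem h23_clear {S : Type} (P : MvPolynomial (S × Fin 3) (ℂ → ℂ)) : ∃ N : ℕ,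
    ∀ (δ : ℂ), δ ≠ 0 → ∀ (x : ℂ) (y : S × Fin 3 → ℂ),
      δ ^ N * pev P x (fun p => δ⁻¹ ^ ((p.2 : ℕ) + 1) * y p) =
        ∑ m ∈ P.support, (P.coeff m) x *
          (δ ^ (N - ∑ i ∈ m.support, ((i.2 : ℕ) + 1) * m i) * ∏ i ∈ m.support, y i ^ m i) := by
  refine ⟨P.support.sup fun m => ∑ i ∈ m.support, ((i.2 : ℕ) + 1) * m i, fun δ hδ x y => ?_⟩
  rw [h23_pev, Finset.mul_sum]
  refine Finset.sum_congr rfl fun m hm => ?_
  have hle : (∑ i ∈ m.support, ((i.2 : ℕ) + 1) * m i) ≤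
      P.support.sup fun m => ∑ i ∈ m.support, ((i.2 : ℕ) + 1) * m i :=
    Finset.le_sup (f := fun m : (S × Fin 3) →₀ ℕ => ∑ i ∈ m.support, ((i.2 : ℕ) + 1) * m i) hm
  set D := ∑ i ∈ m.support, ((i.2 : ℕ) + 1) * m i with hD
  set N := P.support.sup fun m => ∑ i ∈ m.support, ((i.2 : ℕ) + 1) * m i with hN
  have h1 : ∏ i ∈ m.support, (δ⁻¹ ^ ((i.2 : ℕ) + 1) * y i) ^ m i =
      δ⁻¹ ^ D * ∏ i ∈ m.support, y i ^ m i := by
    rw [hD, ← Finset.prod_pow_eq_pow_sum, ← Finset.prod_mul_distrib]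
    refine Finset.prod_congr rfl fun i _ => ?_
    rw [mul_pow, ← pow_mul]
  rw [h1]
  have h2 : δ ^ N * δ⁻¹ ^ D = δ ^ (N - D) := by
    rw [inv_pow, ← div_eq_mul_inv, pow_sub₀ δ hδ hle, div_eq_mul_inv]
  calc δ ^ N * (P.coeff m x * (δ⁻¹ ^ D * ∏ i ∈ m.support, y i ^ m i))
      = P.coeff m x * ((δ ^ N * δ⁻¹ ^ D) * ∏ i ∈ m.support, y i ^ m i) := by ring
    _ = _ := by rw [h2]

/-- H23b. The identity. PROOF. Fix `V` in the disc `|V - iet| < et/2`. For `δ = δ_k = (Λ^k)⁻²`, `k` large, `W = δ V` has `Im W > 0` and is small, so the relation `hP` holds at `x = ξ(δ V)`; the coordinate of `R i x` is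
`δ · (ε i V Ψ_i(δ V))`, so `EE κ (R i x) = hE (ρ i) (ρ' i) κ (ε i V Ψ_i(δV)) δ` by `hyp_transform` (`hv` of the coordinate is in the upper half plane by `hv_im` and `ε i (ρ i - ρ' i) > 0`, and `|V Ψ| < 1/2` gives `≠ 1`).
So the function `F_V(δ) = pev P (ξ (δ V)) (hE ... )` vanishes at `δ_k → 0`. `F_V` is analytic on the punctured disc `0 < |δ| < r₀` (there `hv` stays in the upper half plane) and meromorphic at `0` (`P` has finitely many monomials,
the coefficients are analytic at `x₁`; `δ⁻¹` to a bounded power). Hence it vanishes near `0` (`MeromorphicAt.eventually_eq_zero_or_eventually_ne_zero`) and on the connected punctured disc. The coefficients must be analytic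
at all points `ξ(W)`, `|W| < 2 et r₀`: this is the hypothesis `hPan`. -/
theorem two_var {S : Type} [Finite S] (R : S → ℂ → ℂ) (x₁ : ℂ) (ρ ρ' : S → ℝ) (hne : ∀ i, ρ i ≠ ρ' i) (Λ : ℝ) (hΛ : 1 < Λ)
    (haut : ∀ (k : ℕ) (i : S), ∃ A B C E : ℤ, A * E - B * C = 1 ∧ (C : ℝ) * ρ i + E = Λ ^ k ∧ (C : ℝ) * ρ' i + E = (Λ ^ k)⁻¹ ∧
      (A : ℝ) * ρ i + B = Λ ^ k * ρ i ∧ (A : ℝ) * ρ' i + B = (Λ ^ k)⁻¹ * ρ' i)
    (r : ℝ) (hr : 0 < r) (ξ : ℂ → ℂ) (Ψ : S → ℂ → ℂ) (ε : S → ℝ) (hε : ∀ i, (ε i = 1 ∨ ε i = -1) ∧ 0 < ε i * (ρ i - ρ' i))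
    (hξ : AnalyticOnNhd ℂ ξ (Metric.ball 0 r)) (hξ0 : ξ 0 = x₁) (hΨ : ∀ i, AnalyticOnNhd ℂ (Ψ i) (Metric.ball 0 r))
    (hcoord : ∀ i, ∀ W ∈ Metric.ball (0 : ℂ) r, R i (ξ W) ≠ ρ' i ∧ (R i (ξ W) - ρ i) / (R i (ξ W) - ρ' i) = ε i * W * Ψ i W)
    (hside : ∀ i, ∀ W ∈ Metric.ball (0 : ℂ) r, 0 < W.im → 0 < (R i (ξ W)).im)
    (et r₀ : ℝ) (het : 0 < et) (hr₀ : 0 < r₀) (hr₀1 : r₀ < 1) (hetr : 2 * et * r₀ < r)
    (hgeom : ∀ δ : ℂ, ‖δ‖ < r₀ → ∀ V : ℂ, ‖V‖ < 2 * et → ∀ i, ‖V * Ψ i (δ * V)‖ < 1 / 2)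
    (hup : ∀ δ : ℂ, ‖δ‖ < r₀ → ∀ V ∈ Metric.ball (I * et) (et / 2), ∀ i, 0 < (V * Ψ i (δ * V)).im)
    (P : MvPolynomial (S × Fin 3) (ℂ → ℂ)) (hPan : ∀ m, ∀ W ∈ Metric.ball (0 : ℂ) (2 * et * r₀), AnalyticAt ℂ (P.coeff m) (ξ W))
    (hP : ∀ᶠ x in 𝓝 x₁, (∀ i, 0 < (R i x).im) → pev P x (fun p => EE p.2 (R p.1 x)) = 0) :
    ∀ δ : ℂ, δ ≠ 0 → ‖δ‖ < r₀ → ∀ V ∈ Metric.ball (I * et) (et / 2),
      pev P (ξ (δ * V)) (fun p => hE (ρ p.1) (ρ' p.1) p.2 (ε p.1 * V * Ψ p.1 (δ * V)) δ) = 0 := by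
  intro δ₀ hδ₀ hδ₀r V hV
  -- size of `V`
  have hVn : ‖V‖ < 2 * et := by
    have h1 : ‖V - I * et‖ < et / 2 := by rwa [← dist_eq_norm]
    have h2 : ‖(I * et : ℂ)‖ = et := by
      rw [norm_mul, Complex.norm_I, one_mul, Complex.norm_real, Real.norm_of_nonneg het.le]
    have h3 : ‖V‖ ≤ ‖V - I * et‖ + ‖(I * et : ℂ)‖ := by
      have := norm_add_le (V - I * et) (I * et)
      simpa using this
    linarith
  have hVim : 0 < V.im := by
    have h1 : ‖V - I * et‖ < et / 2 := by rwa [← dist_eq_norm]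
    have h2 : |(V - I * et).im| ≤ ‖V - I * et‖ := Complex.abs_im_le_norm _
    have h3 : (V - I * et).im = V.im - et := by simp
    rw [h3] at h2
    have := (abs_lt.mp (lt_of_le_of_lt h2 h1)).1
    linarith
  have hV0 : V ≠ 0 := by
    rintro rfl
    simp at hVim
  -- `δ V` is in the balls
  have hball : ∀ δ : ℂ, ‖δ‖ < r₀ → δ * V ∈ Metric.ball (0 : ℂ) (2 * et * r₀) := by
    intro δ hδ
    rw [mem_ball_zero_iff, norm_mul]
    have h1 : ‖δ‖ * ‖V‖ < r₀ * (2 * et) :=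
      mul_lt_mul'' hδ hVn (norm_nonneg _) (norm_nonneg _)
    linarith
  have hball' : ∀ δ : ℂ, ‖δ‖ < r₀ → δ * V ∈ Metric.ball (0 : ℂ) r := fun δ hδ =>
    Metric.ball_subset_ball hetr.le (hball δ hδ)
  -- the functions
  set U : S → ℂ → ℂ := fun i δ => ε i * V * Ψ i (δ * V) with hU
  have hlin : ∀ δ : ℂ, AnalyticAt ℂ (fun δ : ℂ => δ * V) δ := fun δ => analyticAt_id.mul analyticAt_const
  have hUan : ∀ i, ∀ δ : ℂ, ‖δ‖ < r₀ → AnalyticAt ℂ (U i) δ := by
    intro i δ hδ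
    exact analyticAt_const.mul (h23_comp (hΨ i _ (hball' δ hδ)) (hlin δ) rfl)
  have hεn : ∀ i, ‖(ε i : ℂ)‖ = 1 := by
    intro i
    rcases (hε i).1 with h | h <;> rw [h] <;> simp
  have hUn : ∀ i, ∀ δ : ℂ, ‖δ‖ < r₀ → ‖U i δ‖ < 1 / 2 := by
    intro i δ hδ
    have h1 := hgeom δ hδ V hVn i
    simp only [hU]
    rw [mul_assoc, norm_mul, hεn, one_mul]
    exact h1
  have hU1 : ∀ i, ∀ δ : ℂ, ‖δ‖ < r₀ → U i δ ≠ 1 := by
    intro i δ hδ h
    have := hUn i δ hδ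
    rw [h, norm_one] at this
    norm_num at this
  have hUim : ∀ i, ∀ δ : ℂ, ‖δ‖ < r₀ → 0 < (hv (ρ i) (ρ' i) (U i δ)).im := by
    intro i δ hδ
    rw [hv_im _ _ _ (hU1 i δ hδ)]
    have h1 := hup δ hδ V hV i
    have h2 : (U i δ).im = ε i * (V * Ψ i (δ * V)).im := by
      simp only [hU]
      rw [mul_assoc, Complex.im_ofReal_mul]
    have h3 : 0 < ‖1 - U i δ‖ ^ 2 := by
      have : (1 : ℂ) - U i δ ≠ 0 := sub_ne_zero.mpr (Ne.symm (hU1 i δ hδ))
      positivity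
    rw [h2]
    apply div_pos _ h3
    have h4 := mul_pos (hε i).2 h1
    nlinarith
  -- the cleared function
  obtain ⟨N, hN⟩ := h23_clear P
  set F : ℂ → ℂ := fun δ => ∑ m ∈ P.support, (P.coeff m) (ξ (δ * V)) *
          (δ ^ (N - ∑ i ∈ m.support, ((i.2 : ℕ) + 1) * m i) *
            ∏ i ∈ m.support, h23_g (ρ i.1) (ρ' i.1) i.2 (U i.1 δ) δ ^ m i) with hF
  have hFeq : ∀ δ : ℂ, δ ≠ 0 → F δ = δ ^ N *
      pev P (ξ (δ * V)) (fun p => hE (ρ p.1) (ρ' p.1) p.2 (U p.1 δ) δ) := by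
    intro δ hδ
    have h1 := hN δ hδ (ξ (δ * V)) (fun p => h23_g (ρ p.1) (ρ' p.1) p.2 (U p.1 δ) δ)
    simp only [hF]
    rw [← h1]
    congr 2
    funext p
    rw [h23_hE]
  have hFan : AnalyticOnNhd ℂ F (Metric.ball 0 r₀) := by
    intro δ hδ
    rw [mem_ball_zero_iff] at hδ
    simp only [hF]
    refine Finset.analyticAt_fun_sum _ fun m _ => ?_
    refine AnalyticAt.mul ?_ (AnalyticAt.mul ?_ ?_)
    · exact h23_comp (hPan m _ (hball δ hδ)) (h23_comp (hξ _ (hball' δ hδ)) (hlin δ) rfl) rfl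
    · exact analyticAt_id.pow _
    · refine Finset.analyticAt_fun_prod _ fun i _ => ?_
      exact (h23_g_analytic _ _ (hne i.1) _ (U i.1) δ (hUan i.1 δ hδ) (hU1 i.1 δ hδ)
        (hUim i.1 δ hδ)).pow _
  -- the sequence `δ_k`
  set dk : ℕ → ℂ := fun k => (((((Λ ^ k) ^ 2)⁻¹ : ℝ)) : ℂ) with hdk
  have hΛ0 : 0 < Λ := by linarith
  have hdk0 : Tendsto dk atTop (𝓝 0) := by
    have h1 : Tendsto (fun k : ℕ => (((Λ ^ k) ^ 2)⁻¹ : ℝ)) atTop (𝓝 0) := by
      have h2 : Tendsto (fun k : ℕ => ((Λ⁻¹ ^ 2) ^ k : ℝ)) atTop (𝓝 0) := by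
        apply tendsto_pow_atTop_nhds_zero_of_lt_one (by positivity)
        have : Λ⁻¹ < 1 := inv_lt_one_of_one_lt₀ hΛ
        have h3 : 0 < Λ⁻¹ := by positivity
        nlinarith
      refine h2.congr fun k => ?_
      rw [← pow_mul, ← pow_mul, inv_pow, mul_comm]
    have h3 : Tendsto (fun x : ℝ => (x : ℂ)) (𝓝 0) (𝓝 ((0 : ℝ) : ℂ)) :=
      Complex.continuous_ofReal.tendsto 0
    rw [Complex.ofReal_zero] at h3
    exact h3.comp h1
  have hdkne : ∀ k, dk k ≠ 0 := by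
    intro k
    simp only [hdk]
    have : (((Λ ^ k) ^ 2)⁻¹ : ℝ) ≠ 0 := by positivity
    exact_mod_cast this
  have hsmall : ∀ᶠ k in atTop, ‖dk k‖ < r₀ := by
    have := hdk0.norm
    rw [norm_zero] at this
    exact this.eventually (gt_mem_nhds hr₀)
  have hx₁ : Tendsto (fun k => ξ (dk k * V)) atTop (𝓝 x₁) := by
    have h1 : Tendsto (fun k => dk k * V) atTop (𝓝 0) := by
      have := hdk0.mul_const V
      rwa [zero_mul] at this
    have h2 : ContinuousAt ξ 0 := (hξ 0 (by simpa using hr)).continuousAt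
    rw [← hξ0]
    exact h2.tendsto.comp h1
  have hzero : ∀ᶠ k in atTop, F (dk k) = 0 := by
    filter_upwards [hsmall, hx₁.eventually hP] with k hk hPk
    rw [hFeq _ (hdkne k)]
    have hWim : 0 < (dk k * V).im := by
      simp only [hdk]
      rw [Complex.im_ofReal_mul]
      have : (0 : ℝ) < ((Λ ^ k) ^ 2)⁻¹ := by positivity
      positivity
    have hpos : ∀ i, 0 < (R i (ξ (dk k * V))).im := fun i =>
      hside i _ (hball' _ hk) hWim
    have h1 := hPk hpos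
    have h2 : (fun p : S × Fin 3 => hE (ρ p.1) (ρ' p.1) p.2 (U p.1 (dk k)) (dk k)) =
        fun p => EE p.2 (R p.1 (ξ (dk k * V))) := by
      funext p
      obtain ⟨A, B, C, E, ha1, ha2, ha3, ha4, ha5⟩ := haut k p.1
      have h3 := hyp_transform (ρ p.1) (ρ' p.1) (Λ ^ k) (hne p.1) (by positivity) A B C E ha1 ha2 ha3
        ha4 ha5 (U p.1 (dk k)) (R p.1 (ξ (dk k * V))) (hU1 p.1 _ hk) (hUim p.1 _ hk) (hpos p.1) (by
          rw [(hcoord p.1 _ (hball' _ hk)).2]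
          simp only [hU, hdk]
          ring) p.2
      rw [h3]
    rw [h2, h1, mul_zero]
  have hfreq : ∃ᶠ z in 𝓝[≠] (0 : ℂ), F z = 0 := by
    have h1 : Tendsto dk atTop (𝓝[≠] (0 : ℂ)) := by
      rw [tendsto_nhdsWithin_iff]
      exact ⟨hdk0, Eventually.of_forall hdkne⟩
    exact h1.frequently hzero.frequently
  have hall := hFan.eqOn_zero_of_preconnected_of_frequently_eq_zero
    (convex_ball (0 : ℂ) r₀).isPreconnected (by simpa using hr₀) hfreq
  have h1 := hall (mem_ball_zero_iff.mpr hδ₀r)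
  rw [hFeq _ hδ₀, Pi.zero_apply] at h1
  exact (mul_eq_zero.mp h1).resolve_left (pow_ne_zero _ hδ₀)

end Pool.Agent.MSD
end

end

section

/-! # H37: independence when all arcs are different (MP_f58a57_nt) -/

open Complex ModularForm EisensteinSeries Filter
open UpperHalfPlane hiding I
open scoped Topology MatrixGroups Polynomial

noncomputable section

namespace Pool.Agent.MSD

lemma h37_EE_an (κ : Fin 3) {z : ℂ} (hz : 0 < z.im) : AnalyticAt ℂ (EE κ) z := by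
  have hopen : IsOpen {z : ℂ | 0 < z.im} := isOpen_lt continuous_const Complex.continuous_im
  have hn : {z : ℂ | 0 < z.im} ∈ 𝓝 z := hopen.mem_nhds hz
  have h2 := e2_diff.analyticAt hn
  have h4 := e4_diff.analyticAt hn
  have h6 := e6_diff.analyticAt hn
  fin_cases κ
  · exact h2
  · exact h4
  · exact h6

/-- renaming the variables by an equivalence -/
lemma h37_pev_rename {σ τ : Type} (e : σ ≃ τ) (P : MvPolynomial σ (ℂ → ℂ)) (x : ℂ) (y : τ → ℂ) :
    pev (MvPolynomial.rename e P) x y = pev P x (fun s => y (e s)) := by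
  unfold pev
  rw [MvPolynomial.map_rename, MvPolynomial.eval_rename]
  rfl

lemma h37_coeff_rename {σ τ : Type} (e : σ ≃ τ) (P : MvPolynomial σ (ℂ → ℂ)) (m : σ →₀ ℕ) :
    (MvPolynomial.rename e P).coeff (m.mapDomain e) = P.coeff m :=
  MvPolynomial.coeff_rename_mapDomain _ e.injective _ _

lemma h37_coeff_rename' {σ τ : Type} (e : σ ≃ τ) (P : MvPolynomial σ (ℂ → ℂ)) (m : τ →₀ ℕ) :
    (MvPolynomial.rename e P).coeff m = P.coeff (m.mapDomain e.symm) := by
  rw [← h37_coeff_rename e]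
  congr 1
  rw [← Finsupp.mapDomain_comp]
  simp

lemma h37_aux (Q : Set ℂ) (hQ : IsOpen Q) (hQc : Convex ℝ Q) (x₀ : ℂ) (hx₀ : x₀ ∈ Q)
    (y₀ : ℂ) (hy₀ : y₀ ∈ Q) (n : ℕ) : ∀ {ι : Type} [Finite ι] (_ : Nat.card ι = n) (M : ι → ℂ → ℂ)
    (_ : ∀ i, AnalyticOnNhd ℂ (M i) Q) (_ : ∀ i, 0 < (M i x₀).im) (_ : ∀ i, (M i y₀).im < 0)
    (_ : ∀ i j, i ≠ j → ∀ x ∈ Q, (M i x).im = 0 → (M j x).im = 0 → ¬ SameArc (M i) (M j) x)
    (P : MvPolynomial (ι × Fin 3) (ℂ → ℂ)) (_ : ∀ m, AnalyticOnNhd ℂ (P.coeff m) Q)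
    (_ : ∀ᶠ x in 𝓝 x₀, pev P x (fun p => EE p.2 (M p.1 x)) = 0) (m : ι × Fin 3 →₀ ℕ),
    ∀ᶠ x in 𝓝 x₀, P.coeff m x = 0 := by
  induction n using Nat.strong_induction_on with
  | _ n ih =>
    intro ι _ hcard M hM hpos hneg hdist P hPan hP m
    rcases isEmpty_or_nonempty ι with hemp | ⟨⟨j₀⟩⟩
    · -- no functions
      filter_upwards [hP] with x hx
      have h1 : P = MvPolynomial.C (P.coeff m) := by
        ext1 k
        have : k = m := Subsingleton.elim _ _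
        rw [this]
        have h0 : (0 : ι × Fin 3 →₀ ℕ) = m := Subsingleton.elim _ _
        rw [← h0]
        simp
      rw [h1] at hx
      simpa [pev] using hx
    · classical
      obtain ⟨x₁, hx₁, hne, hseg, hsegpos, hge, ⟨i₀, hi₀⟩, hder, hsame⟩ :=
        exit_gen Q hQ hQc ∅ Set.finite_empty M (by simpa using hM) x₀ (by simpa using hx₀) hpos y₀
          (by simpa using hy₀) j₀ (hneg j₀)
      rw [Set.sdiff_empty] at hx₁ hseg
      have hother : ∀ i, i ≠ i₀ → 0 < (M i x₁).im := by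
        intro i hi
        refine lt_of_le_of_ne (hge i) fun h => ?_
        exact hdist i i₀ hi x₁ hx₁ h.symm hi₀ (hsame i i₀ h.symm hi₀)
      have hsegpos' : ∀ x ∈ segment ℝ x₀ x₁, ∀ i, i ≠ i₀ → 0 < (M i x).im := by
        intro x hx i hi
        by_cases h : x = x₁
        · rw [h]; exact hother i hi
        · exact hsegpos x hx h i
      obtain ⟨P₁, P₂, hc, hsp, hex1, hex2⟩ := split_poly (fun i => i = i₀) P
        (fun (q : {i // ¬ i = i₀} × Fin 3) x => EE q.2 (M q.1 x))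
      -- analyticity of the coefficients of `P₁`
      have hP2an : ∀ m, ∀ k, AnalyticOnNhd ℂ ((P₂ m).coeff k) Q := by
        intro m k
        obtain ⟨k', hk'⟩ := hex1 m k
        rw [hk']
        exact hPan k'
      have hfan : ∀ m, ∀ x ∈ Q, (∀ i, i ≠ i₀ → 0 < (M i x).im) → AnalyticAt ℂ
          (fun x => pev (P₂ m) x (fun q : {i // ¬ i = i₀} × Fin 3 => EE q.2 (M q.1 x))) x := by
        intro m x hx hi
        refine pev_analytic (P₂ m) (fun q x => EE q.2 (M q.1 x)) x (fun k => hP2an m k x hx) ?_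
        intro q
        exact (h37_EE_an q.2 (hi q.1 q.1.2)).comp (hM q.1 x hx)
      -- the relation is propagated
      have hGopen : IsOpen (Q ∩ ⋂ i, {x | x ∈ Q → 0 < (M i x).im}) := by
        rw [isOpen_iff_mem_nhds]
        intro x hx
        have h1 : ∀ᶠ y in 𝓝 x, ∀ i, 0 < (M i y).im := by
          refine eventually_all.2 fun i => ?_
          have h2 : 0 < (M i x).im := Set.mem_iInter.1 hx.2 i hx.1
          have h3 := (Complex.continuous_im.continuousAt (x := M i x)).comp (hM i x hx.1).continuousAt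
          exact h3.eventually (lt_mem_nhds h2)
        filter_upwards [h1, hQ.mem_nhds hx.1] with y hy hyQ
        exact ⟨hyQ, Set.mem_iInter.2 fun i _ => hy i⟩
      set G : Set ℂ := Q ∩ ⋂ i, {x | x ∈ Q → 0 < (M i x).im} with hG
      have hGmem : ∀ x, x ∈ G ↔ x ∈ Q ∧ ∀ i, 0 < (M i x).im := by
        intro x
        constructor
        · intro hx
          exact ⟨hx.1, fun i => Set.mem_iInter.1 hx.2 i hx.1⟩
        · intro hx
          exact ⟨hx.1, Set.mem_iInter.2 fun i _ => hx.2 i⟩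
      have hprop : ∀ᶠ x in 𝓝 x₁, 0 < (M i₀ x).im → pev P x (fun p => EE p.2 (M p.1 x)) = 0 := by
        refine propagate (fun x => pev P x (fun p => EE p.2 (M p.1 x))) (M i₀) x₀ x₁ hne.symm G
          hGopen ?_ ?_ (hM i₀ x₁ hx₁) (hder i₀ hi₀) hi₀ ?_ hP
        · intro x hx
          rw [hGmem] at hx
          refine pev_analytic P (fun p x => EE p.2 (M p.1 x)) x (fun k => hPan k x hx.1) ?_
          intro q
          exact (h37_EE_an q.2 (hx.2 q.1)).comp (hM q.1 x hx.1)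
        · intro x hx hxne
          exact ⟨(hGmem x).2 ⟨hseg hx, hsegpos x hx hxne⟩, hsegpos x hx hxne i₀⟩
        · have h1 : ∀ᶠ y in 𝓝 x₁, ∀ i, i ≠ i₀ → 0 < (M i y).im := by
            refine eventually_all.2 fun i => ?_
            by_cases hi : i = i₀
            · exact Eventually.of_forall fun y h => absurd hi h
            · have h3 := (Complex.continuous_im.continuousAt (x := M i x₁)).comp
                (hM i x₁ hx₁).continuousAt
              filter_upwards [h3.eventually (lt_mem_nhds (hother i hi))] with y hy _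
              exact hy
          filter_upwards [h1, hQ.mem_nhds hx₁] with y hy hyQ hpos0
          rw [hGmem]
          refine ⟨hyQ, fun i => ?_⟩
          by_cases hi : i = i₀
          · rw [hi]; exact hpos0
          · exact hy i hi
      -- elimination of `M i₀`
      let e : {i // i = i₀} × Fin 3 ≃ Fin 3 := Equiv.uniqueProd (Fin 3) {i // i = i₀}
      have he : ∀ q : {i // i = i₀} × Fin 3, e q = q.2 := fun q => rfl
      have hP1 : ∀ k : Fin 3 →₀ ℕ, ∀ᶠ x in 𝓝 x₁, (MvPolynomial.rename e P₁).coeff k x = 0 := by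
        refine arc_one (M i₀) x₁ (hM i₀ x₁ hx₁) (hder i₀ hi₀) hi₀ _ ?_ ?_
        · intro k
          rw [h37_coeff_rename']
          have h1 := hfan (k.mapDomain e.symm) x₁ hx₁ hother
          refine h1.congr ?_
          exact Eventually.of_forall fun x => (hc _ x).symm
        · filter_upwards [hprop] with x hx hx0
          rw [h37_pev_rename]
          have h2 := hsp (fun p => EE p.2 (M p.1 x)) x (fun q => rfl)
          rw [← hx hx0, ← h2]
          congr 1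
          funext q
          rw [he, q.1.2]
      -- the coefficients of `P₁` vanish near `x₀`
      have hP2 : ∀ k, ∀ᶠ x in 𝓝 x₀,
          pev (P₂ k) x (fun q : {i // ¬ i = i₀} × Fin 3 => EE q.2 (M q.1 x)) = 0 := by
        intro k
        refine propagate_back _ x₀ x₁ (fun x hx => hfan k x (hseg hx) (hsegpos' x hx)) ?_
        have h1 := hP1 (k.mapDomain e)
        rw [h37_coeff_rename] at h1
        filter_upwards [h1] with x hx
        rw [← hc]
        exact hx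
      -- induction
      obtain ⟨m', n', hmn⟩ := hex2 m
      rw [hmn]
      have hlt : Nat.card {i // ¬ i = i₀} < n := by
        rw [← hcard]
        exact Finite.card_subtype_lt (p := fun i => ¬ i = i₀) (x := i₀) (by simp)
      exact ih _ hlt rfl (fun i : {i // ¬ i = i₀} => M i) (fun i => hM i) (fun i => hpos i)
        (fun i => hneg i) (fun i j hij x hx h1 h2 => hdist i j (fun h => hij (Subtype.ext h)) x hx h1 h2)
        (P₂ m') (fun k => hP2an m' k) (hP2 m') n'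

/-- H37. PROOF. Induction on the number of functions. No functions: `pev P x y = P.coeff 0 x`. Otherwise `exit_gen` on `Q` (`F = ∅`) from `x₀` towards `y₀` gives `x₁`; by `hdist` exactly one `i₀` has `(M i₀ x₁).im = 0`. Split `P` by `p i = (i = i₀)` (`split_poly`) with
`y = EE κ (M i ·)`, `i ≠ i₀`: the coefficients of `P₁` are analytic at all points of `Q` where `Im M i > 0`, `i ≠ i₀`. `propagate` (for `M = M i₀`, `G = {x ∈ Q | ∀ i, 0 < (M i x).im}`) gives the relation near `x₁` on the side `Im M i₀ > 0`; `arc_one` (after reindexing `{i // i = i₀} × Fin 3 ≃ Fin 3`)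
gives that the coefficients `pev (P₂ m) x (y x)` vanish near `x₁`, by `propagate_back` near `x₀`; apply the induction hypothesis to each `P₂ m` and the functions `i ≠ i₀`. -/
theorem indep_distinct {ι : Type} [Finite ι] (Q : Set ℂ) (hQ : IsOpen Q) (hQc : Convex ℝ Q) (M : ι → ℂ → ℂ) (hM : ∀ i, AnalyticOnNhd ℂ (M i) Q)
    (x₀ : ℂ) (hx₀ : x₀ ∈ Q) (hpos : ∀ i, 0 < (M i x₀).im) (y₀ : ℂ) (hy₀ : y₀ ∈ Q) (hneg : ∀ i, (M i y₀).im < 0)
    (hdist : ∀ i j, i ≠ j → ∀ x ∈ Q, (M i x).im = 0 → (M j x).im = 0 → ¬ SameArc (M i) (M j) x)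
    (P : MvPolynomial (ι × Fin 3) (ℂ → ℂ)) (hPan : ∀ m, AnalyticOnNhd ℂ (P.coeff m) Q)
    (hP : ∀ᶠ x in 𝓝 x₀, pev P x (fun p => EE p.2 (M p.1 x)) = 0) (m : ι × Fin 3 →₀ ℕ) : ∀ᶠ x in 𝓝 x₀, P.coeff m x = 0 := by
  exact h37_aux Q hQ hQc x₀ hx₀ y₀ hy₀ (Nat.card ι) rfl M hM hpos hneg hdist P hPan hP m

end Pool.Agent.MSD
end

end

section

/-! # H38: elimination at a common hyperbolic fixed point (MP_f58a57_nt) -/

open Complex ModularForm EisensteinSeries Filter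
open UpperHalfPlane hiding I
open scoped Topology MatrixGroups Polynomial

noncomputable section

namespace Pool.Agent.MSD

theorem h38_hE (ρ ρ' : ℝ) (κ : Fin 3) (V δ : ℂ) :
    hE ρ ρ' κ V δ = (δ⁻¹ * ha V δ) ^ (κ.val + 1) * EE κ (hv ρ ρ' V) +
      (if κ = 0 then δ⁻¹ * hb ρ ρ' V δ else 0) := by
  fin_cases κ
  · change δ⁻¹ * (ha V δ * e2 (hv ρ ρ' V) + hb ρ ρ' V δ) = (δ⁻¹ * ha V δ) ^ (0 + 1) * e2 (hv ρ ρ' V) +
      (if (0 : Fin 3) = 0 then δ⁻¹ * hb ρ ρ' V δ else 0)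
    rw [if_pos rfl]; ring
  · change δ⁻¹ ^ 2 * ha V δ ^ 2 * e4 (hv ρ ρ' V) = (δ⁻¹ * ha V δ) ^ (1 + 1) * e4 (hv ρ ρ' V) +
      (if (1 : Fin 3) = 0 then δ⁻¹ * hb ρ ρ' V δ else 0)
    rw [if_neg (by decide)]; ring
  · change δ⁻¹ ^ 3 * ha V δ ^ 3 * e6 (hv ρ ρ' V) = (δ⁻¹ * ha V δ) ^ (2 + 1) * e6 (hv ρ ρ' V) +
      (if (2 : Fin 3) = 0 then δ⁻¹ * hb ρ ρ' V δ else 0)
    rw [if_neg (by decide)]; ring

/-- precomposition as a ring homomorphism -/
def h38_pre (φ : ℂ → ℂ) : (ℂ → ℂ) →+* (ℂ → ℂ) :=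
  RingHom.pi (fun V => Pi.evalRingHom (fun _ : ℂ => ℂ) (φ V))

theorem h38_pre_apply (φ f : ℂ → ℂ) (V : ℂ) : h38_pre φ f V = f (φ V) := rfl

theorem h38_pev_map {σ : Type} (P : MvPolynomial σ (ℂ → ℂ)) (φ : ℂ → ℂ) (V : ℂ) (y : σ → ℂ) :
    pev (MvPolynomial.map (h38_pre φ) P) V y = pev P (φ V) y := by
  unfold pev
  rw [MvPolynomial.map_map]
  rfl

theorem h38_coeff_map {σ : Type} (P : MvPolynomial σ (ℂ → ℂ)) (φ : ℂ → ℂ) (V : ℂ) (m : σ →₀ ℕ) :
    (MvPolynomial.map (h38_pre φ) P).coeff m V = P.coeff m (φ V) := by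
  rw [MvPolynomial.coeff_map]
  rfl

/-- all coefficients at once -/
theorem h38_all {σ : Type} (P : MvPolynomial σ (ℂ → ℂ)) (x : ℂ) (h : ∀ m, ∀ᶠ y in 𝓝 x, P.coeff m y = 0) :
    ∀ᶠ y in 𝓝 x, ∀ m, P.coeff m y = 0 := by
  have h1 : ∀ᶠ y in 𝓝 x, ∀ m ∈ P.support, P.coeff m y = 0 := by
    rw [Filter.eventually_all_finset]
    exact fun m _ => h m
  filter_upwards [h1] with y hy m
  by_cases hm : m ∈ P.support
  · exact hy m hm
  · rw [MvPolynomial.notMem_support_iff.1 hm]; rfl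

theorem h38_an {σ : Type} (P : MvPolynomial σ (ℂ → ℂ)) (x : ℂ) (h : ∀ m, AnalyticAt ℂ (P.coeff m) x) :
    ∀ᶠ y in 𝓝 x, ∀ m, AnalyticAt ℂ (P.coeff m) y := by
  have h1 : ∀ᶠ y in 𝓝 x, ∀ m ∈ P.support, AnalyticAt ℂ (P.coeff m) y := by
    rw [Filter.eventually_all_finset]
    exact fun m _ => (h m).eventually_analyticAt
  filter_upwards [h1] with y hy m
  by_cases hm : m ∈ P.support
  · exact hy m hm
  · rw [MvPolynomial.notMem_support_iff.1 hm]; exact analyticAt_const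

/-- no variables -/
theorem h38_empty {σ : Type} [IsEmpty σ] (P : MvPolynomial σ (ℂ → ℂ)) (x : ℂ) (y : σ → ℂ) (m : σ →₀ ℕ) :
    pev P x y = P.coeff m x := by
  have hm : m = 0 := Subsingleton.elim _ _
  subst hm
  unfold pev
  rw [MvPolynomial.eq_C_of_isEmpty P]
  simp only [MvPolynomial.map_C, MvPolynomial.eval_C, MvPolynomial.coeff_C, if_true]
  rfl

/-- sign of the imaginary part of the coordinate -/
theorem h38_im (ρ ρ' ε : ℝ) (V W : ℂ) (h : ‖V * W‖ < 1 / 2) (hε : ε = 1 ∨ ε = -1) :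
    (ε : ℂ) * V * W ≠ 1 ∧ ‖(ε : ℂ) * V * W‖ < 1 / 2 ∧
    (hv ρ ρ' ((ε : ℂ) * V * W)).im = (ε * (ρ - ρ')) * (V * W).im / ‖1 - (ε : ℂ) * V * W‖ ^ 2 ∧
    0 < ‖1 - (ε : ℂ) * V * W‖ ^ 2 := by
  have h1 : ‖(ε : ℂ) * V * W‖ < 1 / 2 := by
    rw [mul_assoc, norm_mul, Complex.norm_real]
    rcases hε with h' | h' <;> rw [h'] <;> simpa using h
  have h2 : (ε : ℂ) * V * W ≠ 1 := by
    intro hc
    rw [hc, norm_one] at h1
    norm_num at h1
  refine ⟨h2, h1, ?_, ?_⟩
  · rw [hv_im ρ ρ' _ h2, mul_assoc (ε : ℂ) V W, Complex.im_ofReal_mul]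
    ring
  · have : 1 - (ε : ℂ) * V * W ≠ 0 := sub_ne_zero.2 (Ne.symm h2)
    positivity

theorem h38_sign {c x n : ℝ} (hc : 0 < c) (hn : 0 < n) : (c * x / n = 0 ↔ x = 0) ∧ (0 < x → 0 < c * x / n) ∧
    (x < 0 → c * x / n < 0) := by
  refine ⟨?_, fun hx => by positivity, fun hx => ?_⟩
  · rw [div_eq_zero_iff, mul_eq_zero]
    constructor
    · rintro ((h | h) | h)
      · exact absurd h hc.ne'
      · exact h
      · exact absurd h hn.ne'
    · intro h; exact Or.inl (Or.inr h)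
  · exact div_neg_of_neg_of_pos (mul_neg_of_pos_of_neg hc hx) hn

/-- H38b. PROOF. If `S` is empty use `pev`: `P.coeff m` for `m = 0`. Let `ρ i = a i + b i √D`, `ρ' i = a i - b i √D`. Take `Λ` from `automorph`, `r, ξ, Ψ, ε` from `hyp_coords`, `r₃` (minimum over the pairs) from `hyp_distinct`, `et, r₀` from `hyp_geom` (with `r` shrunk so that the coefficients of `P` are
analytic on `ξ(ball 0 r)`). `two_var` with `δ = t exp(i)`, `t = r₀/2`: for `V` near `iet` the relation `pev P (ξ(δV)) (hE ...) = 0`. On `Q = ball 0 (2et)` put `M i V = hv (ρ i) (ρ' i) (ε i V Ψ_i(δV))`; `Im M i` has the sign of `Im (V Ψ_i(δV))` (`hv_im`, `ε i (ρ i - ρ' i) > 0`). `hE` is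
an affine function of `EE κ (M i V)` with factor `δ⁻¹ ha`, `δ⁻² ha²`, `δ⁻³ ha³ ≠ 0`, analytic on `Q`. The arcs are pairwise different: otherwise `hyp_distinct` gives `W Ψ_j = κ W Ψ_i` near `0`, which contradicts `hrel` (translate with `hcoord`). By `affine_sub` and `indep_distinct` (applied to the polynomial with coefficients
`V ↦ P.coeff m (ξ(δV))`) all coefficients `P.coeff m (ξ (δ V))` vanish for `V` near `iet`, so for all `V ∈ Q` (analytic on the disc), so `P.coeff m` vanishes near `x₁ = ξ 0` (`ξ` maps neighbourhoods of `0` onto neighbourhoods of `x₁`). -/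
theorem hyp_elim {S : Type} [Finite S] (D : ℕ) (hD : ¬ IsSquare D) (R : S → ℂ → ℂ) (x₁ : ℂ) (hR : ∀ i, AnalyticAt ℂ (R i) x₁)
    (hder : ∀ i, deriv (R i) x₁ ≠ 0) (a b : S → ℚ) (hb : ∀ i, b i ≠ 0) (hval : ∀ i, R i x₁ = ((a i + b i * Real.sqrt D : ℝ) : ℂ))
    (harc : ∀ i j, SameArc (R i) (R j) x₁) (hside : ∀ i j, ∀ᶠ x in 𝓝 x₁, 0 < (R i x).im → 0 < (R j x).im)
    (hrel : ∀ i j, i ≠ j → ¬ ∃ κ : ℂ, ∀ᶠ x in 𝓝 x₁,
      (R j x - ((a j + b j * Real.sqrt D : ℝ) : ℂ)) * (R i x - ((a i - b i * Real.sqrt D : ℝ) : ℂ)) =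
        κ * ((R i x - ((a i + b i * Real.sqrt D : ℝ) : ℂ)) * (R j x - ((a j - b j * Real.sqrt D : ℝ) : ℂ))))
    (P : MvPolynomial (S × Fin 3) (ℂ → ℂ)) (hPan : ∀ m, AnalyticAt ℂ (P.coeff m) x₁)
    (hP : ∀ᶠ x in 𝓝 x₁, (∀ i, 0 < (R i x).im) → pev P x (fun p => EE p.2 (R p.1 x)) = 0) (m : S × Fin 3 →₀ ℕ) :
    ∀ᶠ x in 𝓝 x₁, P.coeff m x = 0 := by
  rcases isEmpty_or_nonempty S with hS | hS
  · have hne : IsEmpty (S × Fin 3) := inferInstance
    filter_upwards [hP] with x hx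
    rw [← h38_empty P x (fun p => EE p.2 (R p.1 x)) m]
    exact hx (fun i => isEmptyElim i)
  -- the fixed points
  have hsD : Real.sqrt D ≠ 0 := by
    intro h0
    rw [Real.sqrt_eq_zero (Nat.cast_nonneg D)] at h0
    have : D = 0 := by exact_mod_cast h0
    exact hD ⟨0, by rw [this]⟩
  obtain ⟨ρ, hρ⟩ : ∃ ρ : S → ℝ, ρ = fun i => a i + b i * Real.sqrt D := ⟨_, rfl⟩
  obtain ⟨ρ', hρ'⟩ : ∃ ρ' : S → ℝ, ρ' = fun i => a i - b i * Real.sqrt D := ⟨_, rfl⟩
  have hρi : ∀ i, ρ i = a i + b i * Real.sqrt D := fun i => by rw [hρ]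
  have hρi' : ∀ i, ρ' i = a i - b i * Real.sqrt D := fun i => by rw [hρ']
  have hne : ∀ i, ρ i ≠ ρ' i := by
    intro i h
    rw [hρi, hρi'] at h
    have h2 : (b i : ℝ) * Real.sqrt D = 0 := by linarith
    rcases mul_eq_zero.1 h2 with h3 | h3
    · exact hb i (by exact_mod_cast h3)
    · exact hsD h3
  obtain ⟨Λ, hΛ, haut⟩ := automorph D hD a b hb
  have haut' : ∀ (k : ℕ) (i : S), ∃ A B C E : ℤ, A * E - B * C = 1 ∧ (C : ℝ) * ρ i + E = Λ ^ k ∧
      (C : ℝ) * ρ' i + E = (Λ ^ k)⁻¹ ∧ (A : ℝ) * ρ i + B = Λ ^ k * ρ i ∧ (A : ℝ) * ρ' i + B = (Λ ^ k)⁻¹ * ρ' i := by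
    intro k i
    rw [hρi, hρi']
    exact haut k i
  have hval' : ∀ i, R i x₁ = ρ i := fun i => by rw [hval, hρi]
  obtain ⟨r, ξ, Ψ, ε, hr, hε, hξ, hξ0, -, hnb, hΨ, hΨ0, hre, hpos, hcoord, hsd⟩ :=
    hyp_coords R x₁ hR hder ρ ρ' hne hval' harc hside
  -- shrink r
  have hξc : ContinuousAt ξ 0 := (hξ 0 (Metric.mem_ball_self hr)).continuousAt
  have hpa : ∀ᶠ W in 𝓝 (0 : ℂ), ∀ m, AnalyticAt ℂ (P.coeff m) (ξ W) := by
    have h1 := h38_an P x₁ hPan
    rw [← hξ0] at h1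
    exact hξc.eventually h1
  obtain ⟨r₁, hr₁, hr₁a⟩ := Metric.eventually_nhds_iff_ball.1 hpa
  obtain ⟨r', hr'⟩ : ∃ r', r' = min r r₁ := ⟨_, rfl⟩
  have hr'0 : 0 < r' := by rw [hr']; exact lt_min hr hr₁
  have hr'r : r' ≤ r := by rw [hr']; exact min_le_left _ _
  have hr'r₁ : r' ≤ r₁ := by rw [hr']; exact min_le_right _ _
  have hsub : Metric.ball (0 : ℂ) r' ⊆ Metric.ball 0 r := Metric.ball_subset_ball hr'r
  have hΨ00 : ∀ i, Ψ i 0 ≠ 0 := fun i => hΨ0 i 0 (Metric.mem_ball_self hr)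
  -- r₃
  obtain ⟨r₃, hr₃, hdis⟩ : ∃ r₃ > (0 : ℝ), ∀ i j : S, ∀ t : ℝ, 0 < t → ∀ V : ℂ, t * ‖V‖ < r₃ →
      (V * Ψ i (t * Complex.exp I * V)).im = 0 →
      SameArc (fun V => V * Ψ i (t * Complex.exp I * V)) (fun V => V * Ψ j (t * Complex.exp I * V)) V →
      ∃ κ : ℂ, ∀ᶠ W in 𝓝 (0 : ℂ), W * Ψ j W = κ * (W * Ψ i W) := by
    have h1 : ∀ i j : S, ∃ r₃ > (0 : ℝ), ∀ t : ℝ, 0 < t → ∀ V : ℂ, t * ‖V‖ < r₃ →
      (V * Ψ i (t * Complex.exp I * V)).im = 0 →
      SameArc (fun V => V * Ψ i (t * Complex.exp I * V)) (fun V => V * Ψ j (t * Complex.exp I * V)) V →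
      ∃ κ : ℂ, ∀ᶠ W in 𝓝 (0 : ℂ), W * Ψ j W = κ * (W * Ψ i W) := fun i j =>
      hyp_distinct r hr (Ψ i) (Ψ j) (hΨ i) (hΨ j) (hre i) (hre j) (hΨ00 i) (hΨ00 j)
    choose g hg hg2 using h1
    have h2 : ∀ᶠ x in 𝓝[>] (0 : ℝ), ∀ i j : S, x < g i j := by
      rw [Filter.eventually_all]
      intro i
      rw [Filter.eventually_all]
      intro j
      exact (gt_mem_nhds (hg i j)).filter_mono nhdsWithin_le_nhds
    obtain ⟨x, hx0, hx⟩ := (h2.and self_mem_nhdsWithin).exists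
    exact ⟨x, hx, fun i j t ht V hV => hg2 i j t ht V (hV.trans (hx0 i j))⟩
  -- the domains
  obtain ⟨et, r₀, het, hr₀, hr₀1, hetr, hetr₃, hg1, hg2, hg3⟩ :=
    hyp_geom r' hr'0 Ψ (fun i => (hΨ i).mono hsub) (fun i u hu => hre i u (hu.trans_le hr'r)) hpos r₃ hr₃
  have hPan' : ∀ m, ∀ W ∈ Metric.ball (0 : ℂ) (2 * et * r₀), AnalyticAt ℂ (P.coeff m) (ξ W) := by
    intro m W hW
    exact hr₁a W (Metric.ball_subset_ball (hetr.le.trans hr'r₁) hW) m
  have htwo := two_var R x₁ ρ ρ' hne Λ hΛ haut' r' hr'0 ξ Ψ ε hε (hξ.mono hsub) hξ0 (fun i => (hΨ i).mono hsub)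
    (fun i W hW => hcoord i W (hsub hW)) (fun i W hW => hsd i W (hsub hW)) et r₀ het hr₀ hr₀1 hetr
    (fun δ hδ V hV i => (hg1 δ hδ V hV i).1) hg2 P hPan' hP
  -- the parameter
  obtain ⟨t, ht⟩ : ∃ t : ℝ, t = r₀ / 2 := ⟨_, rfl⟩
  have ht0 : 0 < t := by rw [ht]; positivity
  have htr : t < r₀ := by rw [ht]; linarith
  obtain ⟨δ, hδ⟩ : ∃ δ : ℂ, δ = t * Complex.exp I := ⟨_, rfl⟩
  have hδn : ‖δ‖ = t := by
    have h1 : ‖Complex.exp I‖ = 1 := by simpa using Complex.norm_exp_ofReal_mul_I 1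
    rw [hδ, norm_mul, Complex.norm_real, h1, mul_one, Real.norm_eq_abs, abs_of_pos ht0]
  have hδr : ‖δ‖ < r₀ := by rw [hδn]; exact htr
  have hδ0 : δ ≠ 0 := by
    intro h0
    rw [h0, norm_zero] at hδn
    exact ht0.ne hδn
  have hδ1 : ‖δ‖ < 1 := hδr.trans hr₀1
  -- facts on the disc
  obtain ⟨Q, hQ⟩ : ∃ Q : Set ℂ, Q = Metric.ball 0 (2 * et) := ⟨_, rfl⟩
  have hQm : ∀ V ∈ Q, ‖V‖ < 2 * et := by
    intro V hV
    rw [hQ, Metric.mem_ball, dist_zero_right] at hV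
    exact hV
  have hδV : ∀ V ∈ Q, δ * V ∈ Metric.ball (0 : ℂ) (2 * et * r₀) := by
    intro V hV
    rw [Metric.mem_ball, dist_zero_right, norm_mul]
    have h1 := hQm V hV
    calc ‖δ‖ * ‖V‖ ≤ r₀ * ‖V‖ := by gcongr
      _ < r₀ * (2 * et) := by gcongr
      _ = 2 * et * r₀ := by ring
  have hδVr : ∀ V ∈ Q, δ * V ∈ Metric.ball (0 : ℂ) r := fun V hV =>
    Metric.ball_subset_ball (hetr.le.trans hr'r) (hδV V hV)
  have hlin : ∀ V : ℂ, AnalyticAt ℂ (fun V : ℂ => δ * V) V := fun V => analyticAt_const.mul analyticAt_id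
  have hψan : ∀ i, ∀ V ∈ Q, AnalyticAt ℂ (fun V => (ε i : ℂ) * V * Ψ i (δ * V)) V := by
    intro i V hV
    have h1 : AnalyticAt ℂ (fun V => Ψ i (δ * V)) V :=
      AnalyticAt.fun_comp (f := fun V : ℂ => δ * V) (hΨ i _ (hδVr V hV)) (hlin V)
    exact (analyticAt_const.mul analyticAt_id).mul h1
  have him : ∀ i, ∀ V ∈ Q, (ε i : ℂ) * V * Ψ i (δ * V) ≠ 1 ∧ ‖(ε i : ℂ) * V * Ψ i (δ * V)‖ < 1 / 2 ∧
      (hv (ρ i) (ρ' i) ((ε i : ℂ) * V * Ψ i (δ * V))).im = (ε i * (ρ i - ρ' i)) * (V * Ψ i (δ * V)).im /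
        ‖1 - (ε i : ℂ) * V * Ψ i (δ * V)‖ ^ 2 ∧ 0 < ‖1 - (ε i : ℂ) * V * Ψ i (δ * V)‖ ^ 2 := by
    intro i V hV
    exact h38_im (ρ i) (ρ' i) (ε i) V (Ψ i (δ * V)) (hg1 δ hδr V (hQm V hV) i).1 (hε i).1
  obtain ⟨M, hM⟩ : ∃ M : S → ℂ → ℂ, M = fun i V => hv (ρ i) (ρ' i) ((ε i : ℂ) * V * Ψ i (δ * V)) := ⟨_, rfl⟩
  have hMi : ∀ i V, M i V = hv (ρ i) (ρ' i) ((ε i : ℂ) * V * Ψ i (δ * V)) := fun i V => by rw [hM]
  have hMsign : ∀ i, ∀ V ∈ Q, ((M i V).im = 0 ↔ (V * Ψ i (δ * V)).im = 0) ∧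
      (0 < (V * Ψ i (δ * V)).im → 0 < (M i V).im) ∧ ((V * Ψ i (δ * V)).im < 0 → (M i V).im < 0) := by
    intro i V hV
    obtain ⟨-, -, h3, h4⟩ := him i V hV
    rw [hMi, h3]
    exact h38_sign (hε i).2 h4
  have hMan : ∀ i, AnalyticOnNhd ℂ (M i) Q := by
    intro i V hV
    have h1 := hψan i V hV
    have h2 : 1 - (ε i : ℂ) * V * Ψ i (δ * V) ≠ 0 := sub_ne_zero.2 (Ne.symm (him i V hV).1)
    rw [hM]
    unfold hv
    exact (analyticAt_const.sub (analyticAt_const.mul h1)).div (analyticAt_const.sub h1) h2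
  have hQo : IsOpen Q := by rw [hQ]; exact Metric.isOpen_ball
  have hQc : Convex ℝ Q := by rw [hQ]; exact convex_ball _ _
  have hnI : ‖I * (et : ℂ)‖ = et := by
    rw [norm_mul, Complex.norm_I, one_mul, Complex.norm_real, Real.norm_eq_abs, abs_of_pos het]
  have hx₀ : I * (et : ℂ) ∈ Q := by
    rw [hQ, Metric.mem_ball, dist_zero_right, hnI]
    linarith
  have hy₀ : -(I * (et : ℂ)) ∈ Q := by
    rw [hQ, Metric.mem_ball, dist_zero_right, norm_neg, hnI]
    linarith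
  have hx₀p : ∀ i, 0 < (M i (I * et)).im := fun i =>
    (hMsign i _ hx₀).2.1 (hg2 δ hδr _ (Metric.mem_ball_self (by positivity)) i)
  have hy₀n : ∀ i, (M i (-(I * et))).im < 0 := fun i => (hMsign i _ hy₀).2.2 (hg3 δ hδr i)
  -- different arcs
  have hdist : ∀ i j, i ≠ j → ∀ x ∈ Q, (M i x).im = 0 → (M j x).im = 0 → ¬ SameArc (M i) (M j) x := by
    intro i j hij x hx hix _ hsame
    have h1 : SameArc (fun V => V * Ψ i (t * Complex.exp I * V)) (fun V => V * Ψ j (t * Complex.exp I * V)) x := by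
      unfold SameArc at hsame ⊢
      filter_upwards [hsame, hQo.mem_nhds hx] with y hy hyQ hy0
      rw [← hδ] at hy0 ⊢
      exact (hMsign j y hyQ).1.1 (hy ((hMsign i y hyQ).1.2 hy0))
    have h2 : (x * Ψ i (t * Complex.exp I * x)).im = 0 := by
      rw [← hδ]
      exact (hMsign i x hx).1.1 hix
    have h3 : t * ‖x‖ < r₃ := by
      have h4 := hQm x hx
      calc t * ‖x‖ ≤ r₀ * ‖x‖ := by gcongr
        _ ≤ r₀ * (2 * et) := by gcongr
        _ = 2 * et * r₀ := by ring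
        _ < r₃ := hetr₃
    obtain ⟨κ, hκ⟩ := hdis i j t ht0 x h3 h2 h1
    apply hrel i j hij
    refine ⟨(ε i : ℂ) * ε j * κ, ?_⟩
    have hU : {W : ℂ | W * Ψ j W = κ * (W * Ψ i W)} ∩ Metric.ball 0 r ∈ 𝓝 (0 : ℂ) :=
      Filter.inter_mem hκ (Metric.ball_mem_nhds 0 hr)
    filter_upwards [hnb _ hU] with y hy
    obtain ⟨W, ⟨hW1, hW2⟩, rfl⟩ := hy
    obtain ⟨ei1, ei2⟩ := hcoord i W hW2
    obtain ⟨ej1, ej2⟩ := hcoord j W hW2
    rw [← hρi, ← hρi', ← hρi, ← hρi']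
    have ei3 := sub_ne_zero.2 ei1
    have ej3 := sub_ne_zero.2 ej1
    rw [div_eq_iff ei3] at ei2
    rw [div_eq_iff ej3] at ej2
    have hW1' : W * Ψ j W = κ * (W * Ψ i W) := hW1
    have hεε : (ε i : ℂ) * ε i = 1 := by
      rcases (hε i).1 with h | h <;> rw [h] <;> push_cast <;> ring
    rw [ei2, ej2]
    have e1 : (ε j : ℂ) * W * Ψ j W = ε j * κ * (W * Ψ i W) := by rw [mul_assoc, hW1']; ring
    rw [e1]
    linear_combination (-(ε j : ℂ) * κ * W * Ψ i W * (R j (ξ W) - ρ' j) * (R i (ξ W) - ρ' i)) * hεε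
  -- the substituted polynomial
  obtain ⟨φ, hφ⟩ : ∃ φ : ℂ → ℂ, φ = fun V => ξ (δ * V) := ⟨_, rfl⟩
  have hφi : ∀ V, φ V = ξ (δ * V) := fun V => by rw [hφ]
  have hcan : ∀ m, AnalyticOnNhd ℂ (fun V => P.coeff m (φ V)) Q := by
    intro m V hV
    have h1 : AnalyticAt ℂ (fun V => ξ (δ * V)) V :=
      AnalyticAt.fun_comp (f := fun V : ℂ => δ * V) (hξ _ (hδVr V hV)) (hlin V)
    rw [hφ]
    exact AnalyticAt.fun_comp (f := fun V : ℂ => ξ (δ * V)) (hPan' m _ (hδV V hV)) h1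
  obtain ⟨A, hA⟩ : ∃ A : S × Fin 3 → ℂ → ℂ, A = fun p V =>
      (δ⁻¹ * ha ((ε p.1 : ℂ) * V * Ψ p.1 (δ * V)) δ) ^ (p.2.val + 1) := ⟨_, rfl⟩
  obtain ⟨B, hB⟩ : ∃ B : S × Fin 3 → ℂ → ℂ, B = fun p V =>
      if p.2 = 0 then δ⁻¹ * MSD.hb (ρ p.1) (ρ' p.1) ((ε p.1 : ℂ) * V * Ψ p.1 (δ * V)) δ else 0 := ⟨_, rfl⟩
  have hAan : ∀ p, ∀ V ∈ Q, AnalyticAt ℂ (A p) V := by
    intro p V hV
    have h1 := hψan p.1 V hV
    have h2 : 1 - (ε p.1 : ℂ) * V * Ψ p.1 (δ * V) ≠ 0 := sub_ne_zero.2 (Ne.symm (him p.1 V hV).1)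
    rw [hA]
    unfold ha
    exact (analyticAt_const.mul (((analyticAt_const.sub (analyticAt_const.mul h1)).div
      (analyticAt_const.sub h1) h2).pow 2)).pow _
  have hBan : ∀ p, ∀ V ∈ Q, AnalyticAt ℂ (B p) V := by
    intro p V hV
    have h1 := hψan p.1 V hV
    have h2 : 1 - (ε p.1 : ℂ) * V * Ψ p.1 (δ * V) ≠ 0 := sub_ne_zero.2 (Ne.symm (him p.1 V hV).1)
    rw [hB]
    by_cases h0 : p.2 = 0
    · simp only [h0, if_true]
      unfold MSD.hb
      have h3 : ((ρ p.1 : ℂ) - ρ' p.1) ≠ 0 := by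
        rw [← Complex.ofReal_sub]
        exact_mod_cast sub_ne_zero.2 (hne p.1)
      exact analyticAt_const.mul ((analyticAt_const.mul (analyticAt_const.sub (analyticAt_const.mul h1))).div
        (analyticAt_const.mul (analyticAt_const.sub h1)) (mul_ne_zero h3 h2))
    · simp only [h0, if_false]
      exact analyticAt_const
  have hAne : ∀ V ∈ Q, ∀ p, A p V ≠ 0 := by
    intro V hV p
    obtain ⟨h1, h2, -, -⟩ := him p.1 V hV
    rw [hA]
    refine pow_ne_zero _ (mul_ne_zero (inv_ne_zero hδ0) ?_)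
    unfold ha
    refine pow_ne_zero _ (div_ne_zero ?_ (sub_ne_zero.2 (Ne.symm h1)))
    intro hc
    have h3 : δ * ((ε p.1 : ℂ) * V * Ψ p.1 (δ * V)) = 1 := by linear_combination -hc
    have h4 : ‖δ * ((ε p.1 : ℂ) * V * Ψ p.1 (δ * V))‖ = 1 := by rw [h3, norm_one]
    rw [norm_mul] at h4
    have h5 : ‖δ‖ * ‖(ε p.1 : ℂ) * V * Ψ p.1 (δ * V)‖ ≤ 1 * (1 / 2) :=
      mul_le_mul hδ1.le h2.le (norm_nonneg _) zero_le_one
    linarith
  obtain ⟨Qp, hQ1, hQ2, hQ3⟩ := affine_sub (MvPolynomial.map (h38_pre φ) P) A B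
  have hQpan : ∀ m, AnalyticOnNhd ℂ (Qp.coeff m) Q := by
    intro m V hV
    refine hQ3 V ?_ (fun p => hAan p V hV) (fun p => hBan p V hV) m
    intro m'
    have : (MvPolynomial.map (h38_pre φ) P).coeff m' = fun V => P.coeff m' (φ V) := by
      funext V'
      exact h38_coeff_map P φ V' m'
    rw [this]
    exact hcan m' V hV
  have hrelQ : ∀ᶠ V in 𝓝 (I * (et : ℂ)), pev Qp V (fun p => EE p.2 (M p.1 V)) = 0 := by
    filter_upwards [Metric.ball_mem_nhds (I * (et : ℂ)) (show 0 < et / 2 by positivity)] with V hV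
    rw [hQ1, h38_pev_map, hφi]
    have h1 := htwo δ hδ0 hδr V hV
    rw [← h1]
    congr 1
    funext p
    rw [h38_hE, hA, hB, hMi]
  have hcoef : ∀ m', ∀ᶠ V in 𝓝 (I * (et : ℂ)), Qp.coeff m' V = 0 := fun m' =>
    indep_distinct Q hQo hQc M hMan (I * et) hx₀ hx₀p (-(I * et)) hy₀ hy₀n hdist Qp hQpan hrelQ m'
  have hzero : ∀ᶠ V in 𝓝 (I * (et : ℂ)), P.coeff m (φ V) = 0 := by
    filter_upwards [h38_all Qp _ hcoef, hQo.mem_nhds hx₀] with V hV hVQ
    rw [← h38_coeff_map P φ V m]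
    exact hQ2 V (hAne V hVQ) hV m
  have hall : ∀ V ∈ Q, P.coeff m (φ V) = 0 := by
    have h1 := (hcan m).eqOn_zero_of_preconnected_of_eventuallyEq_zero hQc.isPreconnected hx₀ hzero
    intro V hV
    exact h1 hV
  filter_upwards [hnb _ (Metric.ball_mem_nhds (0 : ℂ) (show 0 < 2 * et * ‖δ‖ by rw [hδn]; positivity))] with x hx
  obtain ⟨W, hW, rfl⟩ := hx
  have hWV : W / δ ∈ Q := by
    rw [hQ, Metric.mem_ball, dist_zero_right, norm_div]
    rw [Metric.mem_ball, dist_zero_right] at hW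
    rw [div_lt_iff₀ (by rw [hδn]; exact ht0)]
    exact hW
  have h1 := hall _ hWV
  rw [hφi, mul_div_cancel₀ _ hδ0] at h1
  exact h1

end Pool.Agent.MSD
end

end

section

/-! # H40: elimination on a common arc of rational functions (MP_f58a57_nt) -/

open Complex ModularForm EisensteinSeries Filter
open UpperHalfPlane hiding I
open scoped Topology MatrixGroups Polynomial

noncomputable section

namespace Pool.Agent.MSD

/-- points of the arc near `y`: infinitely many -/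
theorem h40_infinite (f g : ℂ → ℂ) (y : ℂ) (hf : AnalyticAt ℂ f y) (hf' : deriv f y ≠ 0)
    (hfy : (f y).im = 0) (harc : SameArc f g y) :
    {x : ℂ | (f x).im = 0 ∧ (g x).im = 0}.Infinite := by
  unfold SameArc at harc
  set V : Set ℂ := {x : ℂ | (f x).im = 0 → (g x).im = 0} with hV
  have hV1 : V ∈ 𝓝 y := harc
  have h1 : f '' V ∈ 𝓝 (f y) := by
    have h2 := hf.hasStrictDerivAt.map_nhds_eq hf'
    rw [← h2]
    exact Filter.image_mem_map hV1
  have h2 : ((((f y).re : ℝ)) : ℂ) = f y := by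
    apply Complex.ext
    · simp
    · simpa using hfy.symm
  have h3 : Tendsto (fun t : ℝ => (t : ℂ)) (𝓝 (f y).re) (𝓝 (f y)) := by
    have h4 := Complex.continuous_ofReal.tendsto (f y).re
    rwa [h2] at h4
  have h5 : {t : ℝ | (t : ℂ) ∈ f '' V} ∈ 𝓝 (f y).re := h3 h1
  have h6 : {t : ℝ | (t : ℂ) ∈ f '' V}.Infinite := infinite_of_mem_nhds _ h5
  have h7 : ((fun t : ℝ => (t : ℂ)) '' {t : ℝ | (t : ℂ) ∈ f '' V}).Infinite :=
    h6.image (Complex.ofReal_injective.injOn)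
  refine Set.Infinite.of_image f (h7.mono ?_)
  rintro w ⟨t, ht, rfl⟩
  obtain ⟨x, hxV, hx⟩ := ht
  have hx0 : (f x).im = 0 := by
    rw [hx]
    exact Complex.ofReal_im t
  exact ⟨x, ⟨hx0, hxV hx0⟩, hx⟩

/-- H40. PROOF. If `S` is empty then `P` is a constant polynomial. Choose a disc `N` around `x₁` in which all `evr (R i)` are analytic with nonzero derivative, arcs and sides coincide (for all points of the disc, `harc, hside` hold at each point of the arc in the disc because they are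
eventual statements at `x₁`), the coefficients of `P` are analytic, and the relation holds on the common positive side. `quad_points` gives `y ∈ N`, `D`, `a, b`. Apply `hyp_elim` at `y`: the hypothesis `hrel` holds because otherwise there is a nontrivial complex relation
`(R j - ρ_j)(R i - ρ_i') = κ (R i - ρ_i)(R j - ρ_j')` near `y` between `1, R i, R j, R i R j` (nontrivial: the coefficient of `R i R j` is `1 - κ`, and if `κ = 1` the coefficients of `R j` is `ρ_i - ρ_i' ≠ 0`), and `rat_rel` contradicts `hrel`. Then the coefficients vanish near `y`, so on `N`. -/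
theorem arc_elim {d : ℕ} (hd : 0 < d) {S : Type} [Finite S] (R : S → RatFunc (KF d)) (x₁ : ℂ)
    (hR : ∀ i, ¬ ∃ c, R i = RatFunc.C c) (hdn : ∀ i, dn (R i) x₁ ≠ 0) (hreal : ∀ i, (evr (R i) x₁).im = 0)
    (hder : ∀ i, deriv (evr (R i)) x₁ ≠ 0) (harc : ∀ i j, SameArc (evr (R i)) (evr (R j)) x₁)
    (hside : ∀ i j, ∀ᶠ x in 𝓝 x₁, 0 < (evr (R i) x).im → 0 < (evr (R j) x).im) (hrel : ∀ i j, i ≠ j → ¬ GRel (R i) (R j))
    (P : MvPolynomial (S × Fin 3) (ℂ → ℂ)) (hPan : ∀ m, AnalyticAt ℂ (P.coeff m) x₁)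
    (hP : ∀ᶠ x in 𝓝 x₁, (∀ i, 0 < (evr (R i) x).im) → pev P x (fun p => EE p.2 (evr (R p.1) x)) = 0) (m : S × Fin 3 →₀ ℕ) :
    ∀ᶠ x in 𝓝 x₁, P.coeff m x = 0 := by
  classical
  have hRan : ∀ i, AnalyticAt ℂ (evr (R i)) x₁ := fun i => evr_analytic (R i) x₁ (hdn i)
  rcases isEmpty_or_nonempty S with hS | hS
  · haveI : IsEmpty (S × Fin 3) := ⟨fun p => hS.elim p.1⟩
    have hm : m = 0 := Finsupp.ext fun p => isEmptyElim p
    filter_upwards [hP] with x hx
    have h1 := hx (fun i => isEmptyElim i)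
    rw [hm]
    rw [MvPolynomial.eq_C_of_isEmpty P] at h1
    unfold pev at h1
    rw [MvPolynomial.map_C, MvPolynomial.eval_C] at h1
    exact h1
  · -- the good disc
    have e1 : ∀ᶠ x in 𝓝 x₁, ∀ i, AnalyticAt ℂ (evr (R i)) x :=
      Filter.eventually_all.2 fun i => (hRan i).eventually_analyticAt
    have e2 : ∀ᶠ x in 𝓝 x₁, ∀ i, deriv (evr (R i)) x ≠ 0 :=
      Filter.eventually_all.2 fun i => (hRan i).deriv.continuousAt.eventually_ne (hder i)
    have e3 : ∀ᶠ x in 𝓝 x₁, ∀ i j, ∀ᶠ y in 𝓝 x, (evr (R i) y).im = 0 → (evr (R j) y).im = 0 :=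
      Filter.eventually_all.2 fun i => Filter.eventually_all.2 fun j => (harc i j).eventually_nhds
    have e4 : ∀ᶠ x in 𝓝 x₁, ∀ i j, ∀ᶠ y in 𝓝 x, 0 < (evr (R i) y).im → 0 < (evr (R j) y).im :=
      Filter.eventually_all.2 fun i => Filter.eventually_all.2 fun j => (hside i j).eventually_nhds
    have e5 : ∀ᶠ x in 𝓝 x₁, ∀ m ∈ P.support, AnalyticAt ℂ (P.coeff m) x :=
      (Filter.eventually_all_finset P.support).2 fun m _ => (hPan m).eventually_analyticAt
    have e6 := hP.eventually_nhds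
    obtain ⟨ε, hε, hball⟩ := Metric.eventually_nhds_iff_ball.1
      (e1.and (e2.and (e3.and (e4.and (e5.and e6)))))
    have hcoef : ∀ m, AnalyticOnNhd ℂ (P.coeff m) (Metric.ball x₁ ε) := by
      intro m x hx
      by_cases hmem : m ∈ P.support
      · exact (hball x hx).2.2.2.2.1 m hmem
      · rw [MvPolynomial.notMem_support_iff.1 hmem]
        exact analyticAt_const
    obtain ⟨y, hyU, D, hD, hquad⟩ := quad_points hd R x₁ hdn hreal hder harc
      (Metric.ball x₁ ε) (Metric.ball_mem_nhds x₁ hε)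
    choose a b hb hval using hquad
    obtain ⟨g1, g2, g3, g4, g5, g6⟩ := hball y hyU
    have hD0 : (Real.sqrt D : ℝ) ≠ 0 := by
      intro h
      apply hD
      have h1 : (D : ℝ) = 0 := (Real.sqrt_eq_zero (Nat.cast_nonneg D)).1 h
      have h2 : D = 0 := by exact_mod_cast h1
      rw [h2]
      exact ⟨0, rfl⟩
    have hres := hyp_elim D hD (fun i => evr (R i)) y g1 g2 a b hb hval g3 g4 (by
      rintro i j hij ⟨κ, hκ⟩
      apply hrel i j hij
      set ρi : ℂ := ((a i + b i * Real.sqrt D : ℝ) : ℂ) with hρi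
      set ρi' : ℂ := ((a i - b i * Real.sqrt D : ℝ) : ℂ) with hρi'
      set ρj : ℂ := ((a j + b j * Real.sqrt D : ℝ) : ℂ) with hρj
      set ρj' : ℂ := ((a j - b j * Real.sqrt D : ℝ) : ℂ) with hρj'
      refine rat_rel hd (R i) (R j) (hR i) (hR j) (ρj * ρi' - κ * (ρi * ρj'))
        (-ρj + κ * ρj') (-ρi' + κ * ρi) (1 - κ) ?_ ?_ ?_
      · rintro ⟨-, -, h2, h3⟩
        have hκ1 : κ = 1 := by linear_combination -h3
        rw [hκ1, one_mul] at h2
        have h4 : ρi = ρi' := by linear_combination h2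
        have h5 : ((a i : ℝ) + b i * Real.sqrt D) = (a i : ℝ) - b i * Real.sqrt D :=
          Complex.ofReal_injective h4
        have h6 : (b i : ℝ) * Real.sqrt D = 0 := by linarith
        rcases mul_eq_zero.1 h6 with h7 | h7
        · exact hb i (by exact_mod_cast h7)
        · exact hD0 h7
      · have h1 : {x : ℂ | ρj * ρi' - κ * (ρi * ρj') + (-ρj + κ * ρj') * evr (R i) x
            + (-ρi' + κ * ρi) * evr (R j) x + (1 - κ) * (evr (R i) x * evr (R j) x) = 0} ∈ 𝓝 y := by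
          filter_upwards [hκ] with x hx
          show ρj * ρi' - κ * (ρi * ρj') + (-ρj + κ * ρj') * evr (R i) x
            + (-ρi' + κ * ρi) * evr (R j) x + (1 - κ) * (evr (R i) x * evr (R j) x) = 0
          linear_combination hx
        exact infinite_of_mem_nhds _ h1
      · refine h40_infinite (evr (R i)) (evr (R j)) y (g1 i) (g2 i) ?_ (g3 i j)
        rw [hval i]
        exact Complex.ofReal_im _) P (fun m => hcoef m y hyU) g6 m
    have hzero := (hcoef m).eqOn_zero_of_preconnected_of_eventuallyEq_zero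
      (convex_ball x₁ ε).isPreconnected hyU hres
    filter_upwards [Metric.ball_mem_nhds x₁ hε] with x hx
    exact hzero hx

end Pool.Agent.MSD
end

end

section

/-! # H41: functional independence for rational functions over K (MP_f58a57_nt) -/

open Complex ModularForm EisensteinSeries Filter
open UpperHalfPlane hiding I
open scoped Topology MatrixGroups Polynomial

noncomputable section

namespace Pool.Agent.MSD

theorem h41_isOpen_uhp : IsOpen {z : ℂ | 0 < z.im} := isOpen_lt continuous_const Complex.continuous_im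

theorem h41_EE_analytic (κ : Fin 3) (z : ℂ) (hz : 0 < z.im) : AnalyticAt ℂ (EE κ) z := by
  have hmem : {z : ℂ | 0 < z.im} ∈ 𝓝 z := h41_isOpen_uhp.mem_nhds hz
  fin_cases κ
  · exact e2_diff.analyticAt hmem
  · exact e4_diff.analyticAt hmem
  · exact e6_diff.analyticAt hmem

theorem h41_comp_analytic {d : ℕ} (κ : Fin 3) (R : RatFunc (KF d)) (x : ℂ) (hx : dn R x ≠ 0)
    (hpos : 0 < (evr R x).im) : AnalyticAt ℂ (fun x => EE κ (evr R x)) x :=
  (h41_EE_analytic κ (evr R x) hpos).comp (evr_analytic R x hx)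

theorem h41_pos_eventually {d : ℕ} (R : RatFunc (KF d)) (x : ℂ) (hx : dn R x ≠ 0)
    (hpos : 0 < (evr R x).im) : ∀ᶠ y in 𝓝 x, 0 < (evr R y).im := by
  have hc : ContinuousAt (fun y => (evr R y).im) x :=
    Complex.continuous_im.continuousAt.comp (evr_analytic R x hx).continuousAt
  exact hc.eventually (lt_mem_nhds hpos)

/-- Points of the segment near the end point. -/
theorem h41_segment_freq (x₀ x₁ : ℂ) (hne : x₁ ≠ x₀) (p : ℂ → Prop)
    (h : ∀ x ∈ segment ℝ x₀ x₁, x ≠ x₁ → p x) : ∃ᶠ x in 𝓝 x₁, p x := by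
  have ht : Tendsto (fun t : ℝ => x₁ + (t : ℂ) * (x₀ - x₁)) (𝓝[>] (0 : ℝ)) (𝓝 x₁) := by
    have hc : Continuous (fun t : ℝ => x₁ + (t : ℂ) * (x₀ - x₁)) := by fun_prop
    have h0 := hc.tendsto (0 : ℝ)
    simp only [Complex.ofReal_zero, zero_mul, add_zero] at h0
    exact h0.mono_left nhdsWithin_le_nhds
  refine ht.frequently (Eventually.frequently ?_)
  have h1 : ∀ᶠ t : ℝ in 𝓝[>] (0 : ℝ), 0 < t := self_mem_nhdsWithin
  have h2 : ∀ᶠ t : ℝ in 𝓝[>] (0 : ℝ), t < 1 := nhdsWithin_le_nhds (gt_mem_nhds one_pos)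
  filter_upwards [h1, h2] with t ht0 ht1
  apply h
  · refine ⟨t, 1 - t, ht0.le, by linarith, by ring, ?_⟩
    simp only [Complex.real_smul]
    push_cast
    ring
  · intro heq
    have h3 : (t : ℂ) * (x₀ - x₁) = 0 := by
      have := heq
      linear_combination this
    rcases mul_eq_zero.mp h3 with h4 | h4
    · exact ht0.ne' (by exact_mod_cast h4)
    · exact hne (sub_eq_zero.mp h4).symm

theorem h41_base {σ : Type} [IsEmpty σ] (P : MvPolynomial σ (ℂ → ℂ)) (x : ℂ) (y : σ → ℂ) :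
    pev P x y = P.coeff 0 x := by
  have hP : P = MvPolynomial.C (P.coeff 0) := by
    ext1 m
    have hm : m = 0 := Subsingleton.elim _ _
    subst hm
    simp
  unfold pev
  conv_lhs => rw [hP]
  simp

theorem h41_entire (g : ℂ → ℂ) (hg : Differentiable ℂ g) (x₀ : ℂ) (h : ∀ᶠ x in 𝓝 x₀, g x = 0) : g = 0 := by
  have h1 : AnalyticOnNhd ℂ g Set.univ := fun x _ => hg.analyticAt x
  have h2 : AnalyticOnNhd ℂ (0 : ℂ → ℂ) Set.univ := fun x _ => analyticAt_const
  exact h1.eq_of_eventuallyEq h2 h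

/-- H41. Ax-Lindemann with derivatives for rational functions over an imaginary quadratic field. PROOF. Induction on the number of functions. None: `pev P x y = P.coeff 0 x` is entire and vanishes near `x₀`, so it is `0`. Otherwise let `F` be the finite set of all poles,
`evr_neg` gives `y₀ ∉ F` with `(R i₀ y₀).im < 0`; `exit_gen` with `Q = univ` gives `x₁`. Let `p i = ((evr (R i) x₁).im = 0)`. Split `P` by `p` (`split_poly`, `y = EE κ (evr (R i) ·)`): the coefficients of `P₁` are analytic at `x₁` and on the segment. The sides at `x₁` coincide by `side_of_freq`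
(the points of the segment near `x₁`). `propagate` (with `M = evr (R i₁)`, `p i₁`, `G = {x ∉ F | all Im > 0}`) gives the relation near `x₁` on the positive side; `arc_elim` gives that the coefficients `pev (P₂ m) x (y x)` of `P₁` vanish near `x₁`, `propagate_back`: near `x₀`; apply the induction hypothesis to each `P₂ m`
and the functions with `¬ p i` (fewer functions since some `i` has `p i`). -/
theorem alw {d : ℕ} (hd : 0 < d) {ι : Type} [Finite ι] (R : ι → RatFunc (KF d)) (x₀ : ℂ) (hR : ∀ i, ¬ ∃ c, R i = RatFunc.C c)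
    (hdn : ∀ i, dn (R i) x₀ ≠ 0) (hpos : ∀ i, 0 < (evr (R i) x₀).im) (hrel : ∀ i j, i ≠ j → ¬ GRel (R i) (R j))
    (P : MvPolynomial (ι × Fin 3) (ℂ → ℂ)) (hPan : ∀ m, Differentiable ℂ (P.coeff m))
    (hP : ∀ᶠ x in 𝓝 x₀, pev P x (fun p => EE p.2 (evr (R p.1) x)) = 0) : P = 0 := by
  classical
  induction hn : Nat.card ι using Nat.strong_induction_on generalizing ι with
  | _ n ih =>
  rcases isEmpty_or_nonempty ι with hemp | ⟨⟨i₀⟩⟩
  · -- no functions
    have h0 : P.coeff 0 = 0 := by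
      apply h41_entire _ (hPan 0) x₀
      filter_upwards [hP] with x hx
      rw [h41_base] at hx
      exact hx
    ext1 m
    have hm : m = 0 := Subsingleton.elim _ _
    subst hm
    rw [h0]; rfl
  · -- the poles
    set F : Set ℂ := ⋃ i, {x : ℂ | dn (R i) x = 0} with hF
    have hFfin : F.Finite := Set.finite_iUnion (fun i => dn_finite (R i))
    have hnF : ∀ x : ℂ, x ∉ F ↔ ∀ i, dn (R i) x ≠ 0 := by
      intro x
      simp [hF]
    obtain ⟨y₀, hy₀F, _, hy₀neg⟩ := evr_neg (R i₀) (hR i₀) F hFfin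
    obtain ⟨x₁, hx₁, hx₁ne, hseg, hsegpos, hnonneg, ⟨i₁, hi₁⟩, hder, harc⟩ :=
      exit_gen (Set.univ) isOpen_univ convex_univ F hFfin (fun i => evr (R i))
        (fun i x hx => evr_analytic (R i) x ((hnF x).mp hx.2 i)) x₀ ⟨Set.mem_univ _, (hnF x₀).mpr hdn⟩
        hpos y₀ ⟨Set.mem_univ _, hy₀F⟩ i₀ hy₀neg
    have hdn₁ : ∀ i, dn (R i) x₁ ≠ 0 := (hnF x₁).mp hx₁.2
    -- the sides coincide
    have hside : ∀ i j, (evr (R i) x₁).im = 0 → (evr (R j) x₁).im = 0 →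
        ∀ᶠ x in 𝓝 x₁, 0 < (evr (R i) x).im → 0 < (evr (R j) x).im := by
      intro i j hi hj
      refine side_of_freq _ _ x₁ (evr_analytic _ _ (hdn₁ i)) (evr_analytic _ _ (hdn₁ j)) (hder i hi)
        (hder j hj) hi hj (harc i j hi hj) ?_
      refine h41_segment_freq x₀ x₁ hx₁ne _ (fun x hx hxne => ?_)
      exact ⟨hsegpos x hx hxne i, hsegpos x hx hxne j⟩
    -- the positive side
    set G : Set ℂ := {x | (∀ i, dn (R i) x ≠ 0) ∧ ∀ i, 0 < (evr (R i) x).im} with hG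
    have hGo : IsOpen G := by
      rw [isOpen_iff_mem_nhds]
      rintro x ⟨hx1, hx2⟩
      have h1 : ∀ᶠ y in 𝓝 x, ∀ i, dn (R i) y ≠ 0 :=
        Filter.eventually_all.mpr (fun i => dn_eventually (R i) x (hx1 i))
      have h2 : ∀ᶠ y in 𝓝 x, ∀ i, 0 < (evr (R i) y).im :=
        Filter.eventually_all.mpr (fun i => h41_pos_eventually (R i) x (hx1 i) (hx2 i))
      filter_upwards [h1, h2] with y hy1 hy2
      exact ⟨hy1, hy2⟩
    have hPan' : ∀ m x, AnalyticAt ℂ (P.coeff m) x := fun m x => (hPan m).analyticAt x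
    set f : ℂ → ℂ := fun x => pev P x (fun p => EE p.2 (evr (R p.1) x)) with hf
    have hfG : AnalyticOnNhd ℂ f G := by
      rintro x ⟨hx1, hx2⟩
      exact pev_analytic P (fun p x => EE p.2 (evr (R p.1) x)) x (fun m => hPan' m x)
        (fun p => h41_comp_analytic p.2 (R p.1) x (hx1 p.1) (hx2 p.1))
    have hsegG : ∀ x ∈ segment ℝ x₀ x₁, x ≠ x₁ → x ∈ G ∧ 0 < (evr (R i₁) x).im := by
      intro x hx hxne
      exact ⟨⟨(hnF x).mp (hseg hx).2, hsegpos x hx hxne⟩, hsegpos x hx hxne i₁⟩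
    have hGM : ∀ᶠ x in 𝓝 x₁, 0 < (evr (R i₁) x).im → x ∈ G := by
      have h1 : ∀ᶠ y in 𝓝 x₁, ∀ i, dn (R i) y ≠ 0 :=
        Filter.eventually_all.mpr (fun i => dn_eventually (R i) x₁ (hdn₁ i))
      have h2 : ∀ᶠ y in 𝓝 x₁, ∀ i, 0 < (evr (R i₁) y).im → 0 < (evr (R i) y).im := by
        refine Filter.eventually_all.mpr (fun i => ?_)
        by_cases hi : (evr (R i) x₁).im = 0
        · exact hside i₁ i hi₁ hi
        · have hpos' : 0 < (evr (R i) x₁).im := lt_of_le_of_ne (hnonneg i) (Ne.symm hi)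
          filter_upwards [h41_pos_eventually (R i) x₁ (hdn₁ i) hpos'] with y hy _ using hy
      filter_upwards [h1, h2] with y hy1 hy2 hy3
      exact ⟨hy1, fun i => hy2 i hy3⟩
    have hprop : ∀ᶠ x in 𝓝 x₁, 0 < (evr (R i₁) x).im → f x = 0 :=
      propagate f (evr (R i₁)) x₀ x₁ (Ne.symm hx₁ne) G hGo hfG hsegG (evr_analytic _ _ (hdn₁ i₁))
        (hder i₁ hi₁) hi₁ hGM hP
    -- splitting
    obtain ⟨P₁, P₂, h1, h2, h3, h4⟩ := split_poly (fun i => (evr (R i) x₁).im = 0) P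
      (fun q x => EE q.2 (evr (R q.1.1) x))
    have hcoef : ∀ m, P₁.coeff m = fun x => pev (P₂ m) x (fun q => EE q.2 (evr (R q.1.1) x)) :=
      fun m => funext (fun x => h1 m x)
    have hP₂an : ∀ m n, Differentiable ℂ ((P₂ m).coeff n) := by
      intro m n
      obtain ⟨k, hk⟩ := h3 m n
      rw [hk]
      exact hPan k
    have hP₁an : ∀ m, ∀ x, (∀ i, dn (R i) x ≠ 0) →
        (∀ i : {i // ¬ (evr (R i) x₁).im = 0}, 0 < (evr (R i.1) x).im) → AnalyticAt ℂ (P₁.coeff m) x := by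
      intro m x hx1 hx2
      rw [hcoef m]
      exact pev_analytic (P₂ m) (fun q x => EE q.2 (evr (R q.1.1) x)) x
        (fun n => (hP₂an m n).analyticAt x)
        (fun q => h41_comp_analytic q.2 (R q.1.1) x (hx1 q.1.1) (hx2 q.1))
    have hpos₁ : ∀ i : {i // ¬ (evr (R i) x₁).im = 0}, 0 < (evr (R i.1) x₁).im :=
      fun i => lt_of_le_of_ne (hnonneg i.1) (Ne.symm i.2)
    have hrel₁ : ∀ᶠ x in 𝓝 x₁, (∀ i : {i // (evr (R i) x₁).im = 0}, 0 < (evr (R i.1) x).im) →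
        pev P₁ x (fun q => EE q.2 (evr (R q.1.1) x)) = 0 := by
      filter_upwards [hprop] with x hx hall
      have h5 := h2 (fun p => EE p.2 (evr (R p.1) x)) x (fun q => rfl)
      have h6 := hx (hall ⟨i₁, hi₁⟩)
      rw [hf] at h6
      simp only at h5 h6
      rw [h5, h6]
    have helim : ∀ m, ∀ᶠ x in 𝓝 x₁, P₁.coeff m x = 0 := by
      intro m
      exact arc_elim hd (fun i : {i // (evr (R i) x₁).im = 0} => R i.1) x₁ (fun i => hR i.1)
        (fun i => hdn₁ i.1) (fun i => i.2) (fun i => hder i.1 i.2)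
        (fun i j => harc i.1 j.1 i.2 j.2) (fun i j => hside i.1 j.1 i.2 j.2)
        (fun i j hij => hrel i.1 j.1 (fun h => hij (Subtype.ext h))) P₁
        (fun m => hP₁an m x₁ hdn₁ hpos₁) hrel₁ m
    have hback : ∀ m, ∀ᶠ x in 𝓝 x₀, P₁.coeff m x = 0 := by
      intro m
      refine propagate_back _ x₀ x₁ (fun x hx => ?_) (helim m)
      refine hP₁an m x ((hnF x).mp (hseg hx).2) (fun i => ?_)
      by_cases hxe : x = x₁
      · rw [hxe]; exact hpos₁ i
      · exact hsegpos x hx hxe i.1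
    have hP₂ : ∀ m, P₂ m = 0 := by
      intro m
      have hcard : Nat.card {i // ¬ (evr (R i) x₁).im = 0} < n := by
        rw [← hn]
        exact Finite.card_subtype_lt (p := fun i => ¬ (evr (R i) x₁).im = 0) (x := i₁) (not_not.mpr hi₁)
      refine ih _ hcard (ι := {i // ¬ (evr (R i) x₁).im = 0}) (fun i => R i.1) (fun i => hR i.1)
        (fun i => hdn i.1) (fun i => hpos i.1)
        (fun i j hij => hrel i.1 j.1 (fun h => hij (Subtype.ext h))) (P₂ m) (hP₂an m) ?_ rfl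
      filter_upwards [hback m] with x hx
      rw [hcoef m] at hx
      exact hx
    ext1 k
    obtain ⟨m, n', hk⟩ := h4 k
    rw [hk, hP₂ m]
    simp

/-- H41b. The version with polynomial coefficients. -/
theorem alw_poly {d : ℕ} (hd : 0 < d) {ι : Type} [Finite ι] (R : ι → RatFunc (KF d)) (x₀ : ℂ) (hR : ∀ i, ¬ ∃ c, R i = RatFunc.C c)
    (hdn : ∀ i, dn (R i) x₀ ≠ 0) (hpos : ∀ i, 0 < (evr (R i) x₀).im) (hrel : ∀ i j, i ≠ j → ¬ GRel (R i) (R j))
    (P : MvPolynomial (Option (ι × Fin 3)) ℂ)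
    (hP : ∀ᶠ x in 𝓝 x₀, MvPolynomial.eval (fun o : Option (ι × Fin 3) => o.elim x (fun p => EE p.2 (evr (R p.1) x))) P = 0) : P = 0 := by
  classical
  obtain ⟨φ, hφ⟩ : ∃ φ : Polynomial ℂ →+* (ℂ → ℂ), ∀ p x, φ p x = Polynomial.eval x p :=
    ⟨RingHom.pi (fun x => Polynomial.evalRingHom x), fun _ _ => rfl⟩
  have hφi : Function.Injective φ := by
    intro p q h
    apply Polynomial.funext
    intro x
    rw [← hφ, ← hφ, h]
  set Q := MvPolynomial.optionEquivRight ℂ (ι × Fin 3) P with hQ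
  have key : ∀ (x : ℂ) (y : ι × Fin 3 → ℂ), pev (MvPolynomial.map φ Q) x y =
      MvPolynomial.eval (fun o : Option (ι × Fin 3) => o.elim x y) P := by
    intro x y
    have h1 : ((MvPolynomial.eval y).comp ((MvPolynomial.map (Pi.evalRingHom (fun _ : ℂ => ℂ) x)).comp
        ((MvPolynomial.map φ).comp
          (MvPolynomial.optionEquivRight ℂ (ι × Fin 3) : _ →+* MvPolynomial (ι × Fin 3) (Polynomial ℂ))))) =
        MvPolynomial.eval (fun o : Option (ι × Fin 3) => o.elim x y) := by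
      apply MvPolynomial.ringHom_ext
      · intro r
        simp [hφ]
      · intro o
        cases o with
        | none => simp [hφ]
        | some i => simp [hφ]
    exact congrArg (fun g : MvPolynomial (Option (ι × Fin 3)) ℂ →+* ℂ => g P) h1
  have h0 : MvPolynomial.map φ Q = 0 := by
    apply alw hd R x₀ hR hdn hpos hrel
    · intro m
      rw [MvPolynomial.coeff_map]
      have h5 : φ (Q.coeff m) = fun x => Polynomial.eval x (Q.coeff m) := funext (fun x => hφ _ x)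
      rw [h5]
      exact (Q.coeff m).differentiable
    · filter_upwards [hP] with x hx
      rw [key]
      exact hx
  have h1 : Q = 0 := by
    apply MvPolynomial.map_injective φ hφi
    rw [h0, map_zero]
  exact (map_eq_zero_iff _ (MvPolynomial.optionEquivRight ℂ (ι × Fin 3)).injective).mp h1

end Pool.Agent.MSD
end

end

section

/-! # M04: functional independence in several variables (MP_f58a57_nt) -/

open Complex ModularForm EisensteinSeries Filter
open UpperHalfPlane hiding I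
open scoped Topology MatrixGroups Polynomial

noncomputable section

namespace Pool.Agent.MSD

/-- the exponents are bounded by the total degree -/
theorem m04_exp {σ K : Type} [CommSemiring K] (P : MvPolynomial σ K) (m : σ →₀ ℕ) (hm : m ∈ P.support) (l : σ) :
    m l ≤ P.totalDegree := by
  classical
  refine le_trans ?_ (MvPolynomial.le_totalDegree hm)
  by_cases hl : l ∈ m.support
  · exact Finset.single_le_sum (f := fun i => m i) (fun i _ => Nat.zero_le _) hl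
  · rw [Finsupp.notMem_support_iff.mp hl]
    exact Nat.zero_le _

/-- a rational point near a real point -/
theorem m04_rat {s : ℕ} (t : Fin s → ℝ) (G : (Fin s → ℂ) → Prop) (h : ∀ᶠ x in 𝓝 (fun l => (t l : ℂ)), G x) :
    ∃ p : Fin s → ℚ, G (fun l => (p l : ℂ)) := by
  obtain ⟨ε, hε, hb⟩ := Metric.eventually_nhds_iff_ball.mp h
  have h1 : ∀ l, ∃ q : ℚ, t l < q ∧ (q : ℝ) < t l + ε := fun l => exists_rat_btwn (by linarith)
  choose p hp hp' using h1
  refine ⟨p, hb _ ?_⟩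
  rw [Metric.mem_ball, dist_pi_lt_iff hε]
  intro l
  have h2 : dist ((p l : ℚ) : ℂ) (t l : ℂ) = |((p l : ℚ) : ℝ) - t l| := by
    rw [dist_eq_norm, ← Real.norm_eq_abs, ← Complex.norm_real]
    push_cast
    rfl
  rw [h2, abs_lt]
  constructor
  · linarith [hp l]
  · linarith [hp' l]

/-- evaluation depends only on the variables that occur -/
theorem m04_congr {s d : ℕ} (U : MvPolynomial (Fin s) (KF d)) (x y : Fin s → ℂ) (h : ∀ l ∈ U.vars, x l = y l) :
    MvPolynomial.aeval x U = MvPolynomial.aeval y U := by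
  have := MvPolynomial.eval₂Hom_congr' (f₁ := algebraMap (KF d) ℂ) (f₂ := algebraMap (KF d) ℂ) (g₁ := x) (g₂ := y)
    (p₁ := U) (p₂ := U) rfl (fun i hi _ => h i hi) rfl
  simpa [MvPolynomial.aeval_def] using this

/-- M04b. PROOF. Choose rational `p` near `t` such that near `p` the relation holds, `V b i (p) ≠ 0` and `Im > 0`. Choose `M` larger than all exponents of all `U b i, V b i` and `N` larger than `2 M`, than
all exponents of `P` in the variables `inl l`, and `N ≥ 1`. Put `φ b x none = x`, `φ b x (some (i, κ)) = EE κ (evr (rho (U b i) (V b i) p N) x)`, `x₀ = 0`; `rho_eval` at `0` (`0 ^ (N^(l+1)) = 0`) gives the value `U(p)/V(p)`; `alw_poly` (with `rho_nonconst`, `rho_rel`) gives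
the independence of `φ b` near `0`, and it is analytic at `0`. Let `P'` be the polynomial in `kron_block`, `P' ≠ 0` if `P ≠ 0`. By `flag_nonvanish` for the sequence `λ_k` of `exists_flag`, `eval (φ(λ_k)) P' ≠ 0` for large `k`. But
`eval (φ(λ)) P' = eval (famM (p_l + λ_{bl l}^(N^(l+1)))) P` (`rho_eval`; `U b i`, `V b i` only contain variables with `bl l = b`, so the value at `(p_l + λ_{bl l}^(...))_l` equals the value at `(p_l + λ_b^(...))_l`), which is `0` for small `λ`. -/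
theorem famM_indep {s r : ℕ} (bl : Fin s → Fin r) (d : Fin r → ℕ) (t : Fin s → ℝ) (ι : Fin r → Type) [∀ b, Finite (ι b)]
    (U V : ∀ b, ι b → MvPolynomial (Fin s) (KF (d b))) (h : Sys bl d t ι U V) (P : MvPolynomial (Fin s ⊕ (Σ b, ι b × Fin 3)) ℂ)
    (hP : ∀ᶠ x in 𝓝 (fun l => (t l : ℂ)), MvPolynomial.eval (famM d U V x) P = 0) : P = 0 := by
  classical
  by_contra hP0
  -- the rational point
  have hcont : ∀ b (W : MvPolynomial (Fin s) (KF (d b))), Continuous fun x : Fin s → ℂ => MvPolynomial.aeval x W :=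
    fun b W => by
      have h1 : (fun x : Fin s → ℂ => MvPolynomial.aeval x W) =
          fun x => MvPolynomial.eval x (MvPolynomial.map (algebraMap (KF (d b)) ℂ) W) := by
        funext x
        rw [MvPolynomial.eval_map, MvPolynomial.aeval_def]
      rw [h1]
      exact MvPolynomial.continuous_eval _
  have hgood : ∀ᶠ x in 𝓝 (fun l => (t l : ℂ)), (∀ᶠ y in 𝓝 x, MvPolynomial.eval (famM d U V y) P = 0) ∧
      (∀ b i, MvPolynomial.aeval x (V b i) ≠ 0) ∧
      (∀ b i, 0 < (MvPolynomial.aeval x (U b i) / MvPolynomial.aeval x (V b i) : ℂ).im) := by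
    refine (eventually_eventually_nhds.mpr hP).and ((eventually_all.mpr fun b => eventually_all.mpr fun i => ?_).and
      (eventually_all.mpr fun b => eventually_all.mpr fun i => ?_))
    · exact (hcont b (V b i)).continuousAt.eventually_ne (h.ne b i)
    · have hc : ContinuousAt (fun x : Fin s → ℂ => (MvPolynomial.aeval x (U b i) / MvPolynomial.aeval x (V b i) : ℂ).im)
          (fun l => (t l : ℂ)) :=
        Complex.continuous_im.continuousAt.comp
          ((hcont b (U b i)).continuousAt.div (hcont b (V b i)).continuousAt (h.ne b i))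
      exact hc.eventually (lt_mem_nhds (h.pos b i))
  obtain ⟨p, hp1, hp2, hp3⟩ := m04_rat t _ hgood
  -- the exponents
  obtain ⟨M, hM⟩ : ∃ M : ℕ, ∀ b i, (U b i).totalDegree < M ∧ (V b i).totalDegree < M := by
    have h1 := (Set.finite_range (fun q : (Σ b, ι b) => (U q.1 q.2).totalDegree)).bddAbove
    have h2 := (Set.finite_range (fun q : (Σ b, ι b) => (V q.1 q.2).totalDegree)).bddAbove
    obtain ⟨M1, hM1⟩ := h1
    obtain ⟨M2, hM2⟩ := h2
    refine ⟨M1 + M2 + 1, fun b i => ⟨?_, ?_⟩⟩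
    · have : (U b i).totalDegree ≤ M1 := hM1 ⟨⟨b, i⟩, rfl⟩
      omega
    · have : (V b i).totalDegree ≤ M2 := hM2 ⟨⟨b, i⟩, rfl⟩
      omega
  set N : ℕ := 2 * M + P.totalDegree + 1 with hN
  have hN0 : N ≠ 0 := by omega
  have hMN : 2 * M ≤ N := by omega
  have hUM : ∀ b i, ∀ m ∈ (U b i).support, ∀ l, m l < M := fun b i m hm l =>
    lt_of_le_of_lt (m04_exp _ m hm l) (hM b i).1
  have hVM : ∀ b i, ∀ m ∈ (V b i).support, ∀ l, m l < M := fun b i m hm l =>
    lt_of_le_of_lt (m04_exp _ m hm l) (hM b i).2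
  have hV0 : ∀ b i, V b i ≠ 0 := by
    intro b i h0
    apply hp2 b i
    rw [h0, map_zero]
  -- the functions
  set φ : ∀ b, ℂ → Option (ι b × Fin 3) → ℂ := fun b x o =>
    o.elim x (fun q => EE q.2 (evr (rho (U b q.1) (V b q.1) p N) x)) with hφ
  have hzero : (fun l : Fin s => ((p l : ℂ) + (0 : ℂ) ^ (N ^ (l.val + 1)))) = fun l => (p l : ℂ) := by
    funext l
    rw [zero_pow (pow_ne_zero _ hN0), add_zero]
  have hrho0 : ∀ b i, dn (rho (U b i) (V b i) p N) 0 ≠ 0 ∧ evr (rho (U b i) (V b i) p N) 0 =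
      MvPolynomial.aeval (fun l => (p l : ℂ)) (U b i) / MvPolynomial.aeval (fun l => (p l : ℂ)) (V b i) := by
    intro b i
    have := rho_eval (U b i) (V b i) p N 0 (by rw [hzero]; exact hp2 b i)
    rwa [hzero] at this
  have hpos0 : ∀ b i, 0 < (evr (rho (U b i) (V b i) p N) 0).im := by
    intro b i
    rw [(hrho0 b i).2]
    exact hp3 b i
  have hφan : ∀ b ν, AnalyticAt ℂ (fun x => φ b x ν) 0 := by
    intro b ν
    rcases ν with _ | ⟨i, κ⟩
    · exact analyticAt_id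
    · have h1 := evr_analytic (rho (U b i) (V b i) p N) 0 (hrho0 b i).1
      have h2 := F4_EE_analytic κ (evr (rho (U b i) (V b i) p N) 0) (hpos0 b i)
      exact h2.comp h1
  have hind : ∀ b, ∀ Q : MvPolynomial (Option (ι b × Fin 3)) ℂ,
      (∀ᶠ x in 𝓝 (0 : ℂ), MvPolynomial.eval (φ b x) Q = 0) → Q = 0 := by
    intro b Q hQ
    refine alw_poly (h.hd b) (fun i => rho (U b i) (V b i) p N) 0 ?_ (fun i => (hrho0 b i).1) (hpos0 b) ?_ Q hQ
    · intro i
      exact rho_nonconst (U b i) (V b i) p N (fun m hm l => by have := hUM b i m hm l; omega)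
        (fun m hm l => by have := hVM b i m hm l; omega) (hV0 b i) (h.nc b i)
    · intro i j hij
      exact rho_rel (U b i) (V b i) (U b j) (V b j) p M N hMN (hUM b i) (hVM b i) (hUM b j) (hVM b j)
        (hV0 b i) (hV0 b j) (h.rel b i j hij)
  -- the substituted polynomial
  set P' : MvPolynomial (Σ b, Option (ι b × Fin 3)) ℂ := MvPolynomial.aeval (Sum.elim
        (fun l => (MvPolynomial.C (p l : ℂ) + MvPolynomial.X ⟨bl l, none⟩ ^ (N ^ (l.val + 1)) :
          MvPolynomial (Σ b, Option (ι b × Fin 3)) ℂ))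
        (fun q => MvPolynomial.X ⟨q.1, some q.2⟩)) P with hP'
  have hP'0 : P' ≠ 0 := by
    intro h0
    apply hP0
    refine kron_block bl ι p N P ?_ h0
    intro m hm l
    have := m04_exp P m hm (Sum.inl l)
    omega
  obtain ⟨x, hx0, hxne, hxflag⟩ := exists_flag r
  have hnv := flag_nonvanish r (fun b => Option (ι b × Fin 3)) φ (fun _ => 0) hφan hind x hx0
    (fun l k => hxne k l) (fun C => (hxflag C).mono fun k hk l l' hll => by
      rw [sub_zero, sub_zero]; exact hk l l' hll) P' hP'0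
  -- the points y
  have htend : ∀ l : Fin s, ∀ b : Fin r, Tendsto (fun k => (p l : ℂ) + x k b ^ (N ^ (l.val + 1))) atTop (𝓝 (p l : ℂ)) := by
    intro l b
    have h1 : Tendsto (fun k => (p l : ℂ) + x k b ^ (N ^ (l.val + 1))) atTop (𝓝 ((p l : ℂ) + 0 ^ (N ^ (l.val + 1)))) :=
      ((hx0 b).pow _).const_add _
    rwa [zero_pow (pow_ne_zero _ hN0), add_zero] at h1
  have hy : Tendsto (fun k => fun l => (p l : ℂ) + x k (bl l) ^ (N ^ (l.val + 1))) atTop (𝓝 (fun l => (p l : ℂ))) :=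
    tendsto_pi_nhds.mpr fun l => htend l (bl l)
  have hyb : ∀ b, Tendsto (fun k => fun l : Fin s => (p l : ℂ) + x k b ^ (N ^ (l.val + 1))) atTop (𝓝 (fun l => (p l : ℂ))) :=
    fun b => tendsto_pi_nhds.mpr fun l => htend l b
  have hVev : ∀ᶠ k in atTop, ∀ b i, MvPolynomial.aeval (fun l : Fin s => (p l : ℂ) + x k b ^ (N ^ (l.val + 1))) (V b i) ≠ 0 := by
    refine eventually_all.mpr fun b => eventually_all.mpr fun i => ?_
    have h1 : ∀ᶠ y in 𝓝 (fun l => (p l : ℂ)), MvPolynomial.aeval y (V b i) ≠ 0 :=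
      (hcont b (V b i)).continuousAt.eventually_ne (hp2 b i)
    exact (hyb b).eventually h1
  obtain ⟨k, hk1, hk2, hk3⟩ := (hnv.and (hVev.and (hy.eventually hp1))).exists
  apply hk1
  rw [← hk3, hP', MvPolynomial.map_aeval]
  change _ = MvPolynomial.eval₂Hom (RingHom.id ℂ) _ P
  refine MvPolynomial.eval₂Hom_congr ?_ ?_ rfl
  · ext c
    simp
  · funext ν
    rcases ν with l | ⟨b, i, κ⟩
    · simp [famM, hφ]
    · have h1 := (rho_eval (U b i) (V b i) p N (x k b) (hk2 b i)).2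
      have h2 : MvPolynomial.aeval (fun l : Fin s => (p l : ℂ) + x k b ^ (N ^ (l.val + 1))) (U b i) =
          MvPolynomial.aeval (fun l : Fin s => (p l : ℂ) + x k (bl l) ^ (N ^ (l.val + 1))) (U b i) :=
        m04_congr _ _ _ fun l hl => by rw [h.vU b i l hl]
      have h3 : MvPolynomial.aeval (fun l : Fin s => (p l : ℂ) + x k b ^ (N ^ (l.val + 1))) (V b i) =
          MvPolynomial.aeval (fun l : Fin s => (p l : ℂ) + x k (bl l) ^ (N ^ (l.val + 1))) (V b i) :=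
        m04_congr _ _ _ fun l hl => by rw [h.vV b i l hl]
      rw [h2, h3] at h1
      simp only [Sum.elim_inr, MvPolynomial.eval_X, famM, hφ, Option.elim, h1]

end Pool.Agent.MSD
end

end

section

/-! # M06d: independence of the normalised functions (MP_f58a57_nt) -/

open Complex ModularForm EisensteinSeries Filter
open UpperHalfPlane hiding I
open scoped Topology MatrixGroups Polynomial

noncomputable section

namespace Pool.Agent.MSD

/-- the polynomial over `ℂ` -/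
def m06d_pc {s d : ℕ} (P : MvPolynomial (Fin s) (KF d)) : MvPolynomial (Fin s) ℂ :=
  MvPolynomial.map (algebraMap (KF d) ℂ) P

theorem m06d_eval {s d : ℕ} (P : MvPolynomial (Fin s) (KF d)) (x : Fin s → ℂ) :
    MvPolynomial.eval x (m06d_pc P) = MvPolynomial.aeval x P := by
  rw [m06d_pc, MvPolynomial.eval_map, MvPolynomial.aeval_def]

/-- the denominator `U V̄ - Ū V` -/
def m06d_den {s d : ℕ} (U V : MvPolynomial (Fin s) (KF d)) : MvPolynomial (Fin s) ℂ :=
  m06d_pc U * m06d_pc (cjP V) - m06d_pc (cjP U) * m06d_pc V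

theorem m06d_den_eval {s d : ℕ} (U V : MvPolynomial (Fin s) (KF d)) (x : Fin s → ℂ) :
    MvPolynomial.eval x (m06d_den U V) =
      MvPolynomial.aeval x U * MvPolynomial.aeval x (cjP V) - MvPolynomial.aeval x (cjP U) * MvPolynomial.aeval x V := by
  rw [m06d_den, map_sub, map_mul, map_mul, m06d_eval, m06d_eval, m06d_eval, m06d_eval]

theorem m06d_ne {u v : ℂ} (hv : v ≠ 0) (hpos : 0 < (u / v).im) :
    u * (starRingEnd ℂ) v - (starRingEnd ℂ) u * v ≠ 0 := by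
  intro h
  have hv' : (starRingEnd ℂ) v ≠ 0 := (map_ne_zero _).mpr hv
  have h1 : (starRingEnd ℂ) (u / v) = u / v := by
    rw [map_div₀, div_eq_div_iff hv' hv]
    linear_combination -h
  have h2 := Complex.conj_eq_iff_im.mp h1
  linarith

/-- M06d. Independence: `famM_indep` and `indep_shiftM` with `a = Ω⁻², Ω⁻⁴, Ω⁻⁶`, numerators `-6i/(π Ω²) V V̄, 0, 0`, denominators `U V̄ - Ū V, 1, 1` (polynomials over `ℂ`, mapped by `algebraMap (KF d) ℂ`). (As `famS_indep`.) -/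
theorem famMS_indep {s r : ℕ} (bl : Fin s → Fin r) (d : Fin r → ℕ) (t : Fin s → ℝ) (Ω : Fin r → ℂ) (hΩ : ∀ b, Ω b ≠ 0)
    (ι : Fin r → Type) [∀ b, Finite (ι b)] (U V : ∀ b, ι b → MvPolynomial (Fin s) (KF (d b))) (h : Sys bl d t ι U V)
    (P : MvPolynomial (Fin s ⊕ (Σ b, ι b × Fin 3)) ℂ)
    (hP : ∀ᶠ x in 𝓝 (fun l => (t l : ℂ)), MvPolynomial.eval (famMS d Ω U V x) P = 0) : P = 0 := by
  have hVt : ∀ b i, MvPolynomial.aeval (fun l => (t l : ℂ)) (cjP (V b i)) ≠ 0 := by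
    intro b i
    rw [cjP_real]
    exact (map_ne_zero _).mpr (h.ne b i)
  have hDt : ∀ b i, MvPolynomial.eval (fun l => (t l : ℂ)) (m06d_den (U b i) (V b i)) ≠ 0 := by
    intro b i
    rw [m06d_den_eval, cjP_real, cjP_real]
    exact m06d_ne (h.ne b i) (h.pos b i)
  refine indep_shiftM (J := Σ b, ι b × Fin 3) (famM d U V) (famMS d Ω U V) (fun l => (t l : ℂ))
    (fun x l => rfl) (fun x l => rfl)
    (fun ν => ![1 / Ω ν.1 ^ 2, 1 / Ω ν.1 ^ 4, 1 / Ω ν.1 ^ 6] ν.2.2) ?_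
    (fun ν => ![MvPolynomial.C (-(6 * I / (Real.pi * Ω ν.1 ^ 2))) *
      (m06d_pc (V ν.1 ν.2.1) * m06d_pc (cjP (V ν.1 ν.2.1))), 0, 0] ν.2.2)
    (fun ν => ![m06d_den (U ν.1 ν.2.1) (V ν.1 ν.2.1), 1, 1] ν.2.2) ?_ ?_ ?_ P hP
  · rintro ⟨b, i, κ⟩
    have := hΩ b
    fin_cases κ <;> simp [this]
  · rintro ⟨b, i, κ⟩
    have := hDt b i
    fin_cases κ <;> simp [this]
  · have hev : ∀ {e : ℕ} (Q : MvPolynomial (Fin s) (KF e)), MvPolynomial.aeval (fun l => (t l : ℂ)) Q ≠ 0 →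
        ∀ᶠ x in 𝓝 (fun l => (t l : ℂ)), MvPolynomial.aeval x Q ≠ 0 := by
      intro e Q hQ
      have h1 : MvPolynomial.eval (fun l => (t l : ℂ)) (m06d_pc Q) ≠ 0 := by rwa [m06d_eval]
      filter_upwards [(MvPolynomial.continuous_eval (m06d_pc Q)).continuousAt.eventually_ne h1] with x hx
      rwa [m06d_eval] at hx
    have hev1 : ∀ᶠ x in 𝓝 (fun l => (t l : ℂ)), ∀ b, ∀ i, MvPolynomial.aeval x (V b i) ≠ 0 :=
      eventually_all.2 fun b => eventually_all.2 fun i => hev _ (h.ne b i)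
    have hev2 : ∀ᶠ x in 𝓝 (fun l => (t l : ℂ)), ∀ b, ∀ i, MvPolynomial.aeval x (cjP (V b i)) ≠ 0 :=
      eventually_all.2 fun b => eventually_all.2 fun i => hev _ (hVt b i)
    have hev3 : ∀ᶠ x in 𝓝 (fun l => (t l : ℂ)), ∀ b, ∀ i,
        MvPolynomial.eval x (m06d_den (U b i) (V b i)) ≠ 0 :=
      eventually_all.2 fun b => eventually_all.2 fun i =>
        (MvPolynomial.continuous_eval (m06d_den (U b i) (V b i))).continuousAt.eventually_ne (hDt b i)
    filter_upwards [hev1, hev2, hev3] with x h1 h2 h3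
    rintro ⟨b, i, κ⟩
    have hV := h1 b i
    have hV' := h2 b i
    have hD := h3 b i
    have hO := hΩ b
    rw [m06d_den_eval] at hD
    have hpi : (Real.pi : ℂ) ≠ 0 := by exact_mod_cast Real.pi_ne_zero
    fin_cases κ
    · have e1 : MvPolynomial.aeval x (U b i) / MvPolynomial.aeval x (V b i) -
          MvPolynomial.aeval x (cjP (U b i)) / MvPolynomial.aeval x (cjP (V b i)) =
          (MvPolynomial.aeval x (U b i) * MvPolynomial.aeval x (cjP (V b i)) -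
            MvPolynomial.aeval x (cjP (U b i)) * MvPolynomial.aeval x (V b i)) /
          (MvPolynomial.aeval x (V b i) * MvPolynomial.aeval x (cjP (V b i))) := by
        rw [div_sub_div _ _ hV hV']
        ring
      show (e2 (MvPolynomial.aeval x (U b i) / MvPolynomial.aeval x (V b i)) - 6 * I / (Real.pi *
          (MvPolynomial.aeval x (U b i) / MvPolynomial.aeval x (V b i) -
            MvPolynomial.aeval x (cjP (U b i)) / MvPolynomial.aeval x (cjP (V b i))))) / Ω b ^ 2 =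
        1 / Ω b ^ 2 * e2 (MvPolynomial.aeval x (U b i) / MvPolynomial.aeval x (V b i)) +
          MvPolynomial.eval x (MvPolynomial.C (-(6 * I / (Real.pi * Ω b ^ 2))) *
            (m06d_pc (V b i) * m06d_pc (cjP (V b i)))) / MvPolynomial.eval x (m06d_den (U b i) (V b i))
      rw [e1, m06d_den_eval, map_mul, map_mul, m06d_eval, m06d_eval, MvPolynomial.eval_C]
      generalize e2 (MvPolynomial.aeval x (U b i) / MvPolynomial.aeval x (V b i)) = E
      generalize MvPolynomial.aeval x (U b i) = u at *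
      generalize MvPolynomial.aeval x (V b i) = v at *
      generalize MvPolynomial.aeval x (cjP (U b i)) = u' at *
      generalize MvPolynomial.aeval x (cjP (V b i)) = v' at *
      field_simp
      ring
    · show e4 (MvPolynomial.aeval x (U b i) / MvPolynomial.aeval x (V b i)) / Ω b ^ 4 =
        1 / Ω b ^ 4 * e4 (MvPolynomial.aeval x (U b i) / MvPolynomial.aeval x (V b i)) +
          MvPolynomial.eval x (0 : MvPolynomial (Fin s) ℂ) / MvPolynomial.eval x (1 : MvPolynomial (Fin s) ℂ)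
      simp
      ring
    · show e6 (MvPolynomial.aeval x (U b i) / MvPolynomial.aeval x (V b i)) / Ω b ^ 6 =
        1 / Ω b ^ 6 * e6 (MvPolynomial.aeval x (U b i) / MvPolynomial.aeval x (V b i)) +
          MvPolynomial.eval x (0 : MvPolynomial (Fin s) ℂ) / MvPolynomial.eval x (1 : MvPolynomial (Fin s) ℂ)
      simp
      ring
  · intro Q hQ
    exact famM_indep bl d t ι U V h Q hQ

end Pool.Agent.MSD
end

end
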