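import Mathlib
import Pool.Agent.Lib.MP_f58a57_nt.FK.K013
import Pool.Agent.Lib.MP_f58a57_nt.FK.K054
import Pool.Agent.Lib.MP_f58a57_nt.FK.K055

namespace Pool.Agent.MSD.F5b
end Pool.Agent.MSD.F5b

section

/-! # F5: change of the generators (MP_f58a57_nt) -/

open Complex ModularForm EisensteinSeries Filter
open UpperHalfPlane hiding I
open scoped Topology MatrixGroups

noncomputable section

namespace Pool.Agent.MSD

/-- a polynomial in one variable as a polynomial in the variable `none` -/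
def f5s_io {J : Type} (p : Polynomial ℂ) : MvPolynomial (Option J) ℂ :=
  Polynomial.aeval (MvPolynomial.X none : MvPolynomial (Option J) ℂ) p

theorem f5s_io_map {J : Type} {B : Type*} [CommRing B] [Algebra ℂ B]
    (f : MvPolynomial (Option J) ℂ →ₐ[ℂ] B) (p : Polynomial ℂ) :
    f (f5s_io p) = Polynomial.aeval (f (MvPolynomial.X none)) p := by
  unfold f5s_io
  rw [← Polynomial.aeval_algHom_apply]

theorem f5s_eval {J : Type} (p : Polynomial ℂ) (y : Option J → ℂ) :
    MvPolynomial.eval y (f5s_io p) = p.eval (y none) := by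
  have h := f5s_io_map (J := J) (MvPolynomial.aeval y) p
  rw [MvPolynomial.aeval_X, Polynomial.coe_aeval_eq_eval] at h
  rw [← h, MvPolynomial.aeval_eq_eval]

theorem f5s_io_ne {J : Type} {p : Polynomial ℂ} {t : ℂ} (h : p.eval t ≠ 0) :
    (f5s_io p : MvPolynomial (Option J) ℂ) ≠ 0 := by
  intro h0
  apply h
  have := f5s_eval (J := J) p (fun _ => t)
  rw [h0, map_zero] at this
  exact this.symm

/-- the algebraic part: if `L` is a ring in which the `V_ν` are invertible, the substitution is injective -/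
theorem f5s_key {J : Type} (L : Type) [CommRing L] [Algebra ℂ L]
    [Algebra (MvPolynomial (Option J) ℂ) L] [IsScalarTower ℂ (MvPolynomial (Option J) ℂ) L]
    (W : MvPolynomial (Option J) ℂ) (hL : IsLocalization.Away W L) (hW : W ≠ 0)
    (w : Polynomial ℂ) (hw : W = f5s_io w)
    (a : J → ℂ) (ha : ∀ ν, a ν ≠ 0) (U V : J → Polynomial ℂ) (r : J → L)
    (hr : ∀ ν, r ν * algebraMap (MvPolynomial (Option J) ℂ) L (f5s_io (V ν)) =
      algebraMap (MvPolynomial (Option J) ℂ) L (f5s_io (U ν)))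
    (hu : ∀ ν, IsUnit (algebraMap (MvPolynomial (Option J) ℂ) L (f5s_io (V ν))))
    (θ : MvPolynomial (Option J) ℂ →ₐ[ℂ] L)
    (hθ0 : θ (MvPolynomial.X none) =
      algebraMap (MvPolynomial (Option J) ℂ) L (MvPolynomial.X none))
    (hθ : ∀ ν, θ (MvPolynomial.X (some ν)) =
      algebraMap ℂ L (a ν) * algebraMap (MvPolynomial (Option J) ℂ) L (MvPolynomial.X (some ν)) + r ν)
    (P : MvPolynomial (Option J) ℂ) (hP : θ P = 0) : P = 0 := by
  set i := algebraMap (MvPolynomial (Option J) ℂ) L with hi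
  let iA : MvPolynomial (Option J) ℂ →ₐ[ℂ] L := IsScalarTower.toAlgHom ℂ _ L
  have hiA : ∀ s, iA s = i s := fun s => rfl
  let θ' : MvPolynomial (Option J) ℂ →ₐ[ℂ] L := MvPolynomial.aeval (fun o : Option J =>
    o.elim (i (MvPolynomial.X none))
      (fun ν => algebraMap ℂ L (a ν)⁻¹ * (i (MvPolynomial.X (some ν)) - r ν)))
  have hθ'0 : θ' (MvPolynomial.X none) = i (MvPolynomial.X none) := by
    show MvPolynomial.aeval _ _ = _
    rw [MvPolynomial.aeval_X]
    rfl
  have hθ'1 : ∀ ν, θ' (MvPolynomial.X (some ν)) =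
      algebraMap ℂ L (a ν)⁻¹ * (i (MvPolynomial.X (some ν)) - r ν) := by
    intro ν
    show MvPolynomial.aeval _ _ = _
    rw [MvPolynomial.aeval_X]
    rfl
  have hio : ∀ p : Polynomial ℂ, θ' (f5s_io p) = i (f5s_io p) := by
    intro p
    rw [f5s_io_map, hθ'0, ← hiA, ← hiA, f5s_io_map]
  have hWu : IsUnit ((θ' : MvPolynomial (Option J) ℂ →+* L) W) := by
    show IsUnit (θ' W)
    rw [hw, hio, ← hw]
    exact IsLocalization.Away.algebraMap_isUnit W
  let Θ : L →+* L := IsLocalization.Away.lift W hWu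
  have hΘ : ∀ s, Θ (i s) = θ' s := fun s => IsLocalization.Away.lift_eq W hWu s
  have hr' : ∀ ν, Θ (r ν) = r ν := by
    intro ν
    have h1 := congrArg Θ (hr ν)
    rw [map_mul, hΘ, hΘ, hio, hio, ← hr ν] at h1
    exact (hu ν).mul_right_cancel h1
  have hC : ∀ c : ℂ, Θ (algebraMap ℂ L c) = algebraMap ℂ L c := by
    intro c
    rw [IsScalarTower.algebraMap_apply ℂ (MvPolynomial (Option J) ℂ) L, ← hi, hΘ]
    rw [AlgHom.commutes]
    rw [IsScalarTower.algebraMap_apply ℂ (MvPolynomial (Option J) ℂ) L]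
  have hcomp : Θ.comp (θ : MvPolynomial (Option J) ℂ →+* L) = i := by
    apply MvPolynomial.ringHom_ext
    · intro c
      show Θ (θ (MvPolynomial.C c)) = i (MvPolynomial.C c)
      rw [← MvPolynomial.algebraMap_eq, AlgHom.commutes, hC, hi,
        ← IsScalarTower.algebraMap_apply]
    · intro o
      cases o with
      | none =>
        show Θ (θ (MvPolynomial.X none)) = _
        rw [hθ0, hΘ, hθ'0]
      | some ν =>
        show Θ (θ (MvPolynomial.X (some ν))) = _
        rw [hθ ν, map_add, map_mul, hC, hΘ, hθ'1, hr', ← mul_assoc, ← map_mul,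
          mul_inv_cancel₀ (ha ν), map_one, one_mul, sub_add_cancel]
  have h1 : i P = 0 := by
    rw [← hcomp]
    show Θ (θ P) = 0
    rw [hP, map_zero]
  have hinj : Function.Injective i := by
    apply IsLocalization.injective (M := Submonoid.powers W) L
    exact powers_le_nonZeroDivisors_of_noZeroDivisors hW
  exact hinj (by rw [h1, map_zero])

/-- F5a. General change of variables. `φ_none x = x`; if the family `φ` is functionally independent near `t` and `ψ_none = φ_none`,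
`ψ_ν = a_ν φ_ν + R_ν` with constants `a_ν ≠ 0` and `R_ν = U_ν(x)/V_ν(x)`, `U_ν, V_ν` polynomials, `V_ν(t) ≠ 0`, then `ψ` is functionally independent.
PROOF. For `P ≠ 0` the polynomial `D(x) P(x; ψ)`, `D` = a high power of `Π V_ν`, is `Q(x; φ)` with a polynomial `Q`; `Q ≠ 0` because the substitution
`Y_ν ↦ a_ν Y_ν + U_ν/V_ν` is an automorphism of `ℂ(X)[Y]`. -/
theorem indep_shift {J : Type} [Finite J] (φ ψ : ℂ → Option J → ℂ) (t : ℂ) (hφ0 : ∀ x, φ x none = x) (hψ0 : ∀ x, ψ x none = x)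
    (a : J → ℂ) (ha : ∀ ν, a ν ≠ 0) (U V : J → Polynomial ℂ) (hV : ∀ ν, (V ν).eval t ≠ 0)
    (hψ : ∀ᶠ x in 𝓝 t, ∀ ν, ψ x (some ν) = a ν * φ x (some ν) + (U ν).eval x / (V ν).eval x)
    (hind : ∀ P : MvPolynomial (Option J) ℂ, (∀ᶠ x in 𝓝 t, MvPolynomial.eval (φ x) P = 0) → P = 0)
    (P : MvPolynomial (Option J) ℂ) (hP : ∀ᶠ x in 𝓝 t, MvPolynomial.eval (ψ x) P = 0) : P = 0 := by
  classical
  have := Fintype.ofFinite J
  set w : Polynomial ℂ := ∏ ν, V ν with hw
  set W : MvPolynomial (Option J) ℂ := f5s_io w with hW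
  have hwt : w.eval t ≠ 0 := by
    rw [hw, Polynomial.eval_prod]
    exact Finset.prod_ne_zero_iff.2 fun ν _ => hV ν
  have hW0 : W ≠ 0 := f5s_io_ne hwt
  set i := algebraMap (MvPolynomial (Option J) ℂ) (Localization.Away W) with hi
  have hWu : IsUnit (i W) := IsLocalization.Away.algebraMap_isUnit W
  have hu : ∀ ν, IsUnit (i (f5s_io (V ν))) := by
    intro ν
    have hdvd : (f5s_io (V ν) : MvPolynomial (Option J) ℂ) ∣ W := by
      rw [hW, hw]
      unfold f5s_io
      exact map_dvd _ (Finset.dvd_prod_of_mem V (Finset.mem_univ ν))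
    exact isUnit_of_dvd_unit (map_dvd i hdvd) hWu
  let r : J → Localization.Away W := fun ν => i (f5s_io (U ν)) * ↑(hu ν).unit⁻¹
  have hr : ∀ ν, r ν * i (f5s_io (V ν)) = i (f5s_io (U ν)) := by
    intro ν
    show i (f5s_io (U ν)) * ↑(hu ν).unit⁻¹ * i (f5s_io (V ν)) = _
    rw [mul_assoc, IsUnit.val_inv_mul, mul_one]
  let θ : MvPolynomial (Option J) ℂ →ₐ[ℂ] Localization.Away W :=
    MvPolynomial.aeval (fun o : Option J => o.elim (i (MvPolynomial.X none))
      (fun ν => algebraMap ℂ (Localization.Away W) (a ν) * i (MvPolynomial.X (some ν)) + r ν))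
  have hθ0 : θ (MvPolynomial.X none) = i (MvPolynomial.X none) := by
    show MvPolynomial.aeval _ _ = _
    rw [MvPolynomial.aeval_X]
    rfl
  have hθ : ∀ ν, θ (MvPolynomial.X (some ν)) =
      algebraMap ℂ (Localization.Away W) (a ν) * i (MvPolynomial.X (some ν)) + r ν := by
    intro ν
    show MvPolynomial.aeval _ _ = _
    rw [MvPolynomial.aeval_X]
    rfl
  refine f5s_key (Localization.Away W) W inferInstance hW0 w hW a ha U V r hr hu θ hθ0 hθ P ?_
  -- clear denominators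
  obtain ⟨⟨Q, s⟩, hQ⟩ := IsLocalization.surj (Submonoid.powers W) (θ P)
  have hsu : IsUnit (i s.1) := IsLocalization.map_units (Localization.Away W) s
  have hQ' : θ P * i s.1 = i Q := hQ
  have hQ0 : Q = 0 := by
    apply hind
    have hne : ∀ᶠ x in 𝓝 t, w.eval x ≠ 0 :=
      (Polynomial.continuous_aeval w).continuousAt.eventually_ne hwt
    filter_upwards [hP, hψ, hne] with x hx1 hx2 hx3
    have hWx : MvPolynomial.eval (φ x) W ≠ 0 := by
      rw [hW, f5s_eval, hφ0]
      exact hx3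
    have hWxu : IsUnit ((MvPolynomial.eval (φ x)) W) := hWx.isUnit
    let ev : Localization.Away W →+* ℂ := IsLocalization.Away.lift W hWxu
    have hev : ∀ p, ev (i p) = MvPolynomial.eval (φ x) p :=
      fun p => IsLocalization.Away.lift_eq W hWxu p
    have hVx : ∀ ν, (V ν).eval x ≠ 0 := by
      rw [hw, Polynomial.eval_prod] at hx3
      exact fun ν => (Finset.prod_ne_zero_iff.1 hx3) ν (Finset.mem_univ ν)
    have hevr : ∀ ν, ev (r ν) = (U ν).eval x / (V ν).eval x := by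
      intro ν
      have h1 := congrArg ev (hr ν)
      rw [map_mul, hev, hev, f5s_eval, f5s_eval, hφ0] at h1
      rw [eq_div_iff (hVx ν)]
      exact h1
    have hevC : ∀ c : ℂ, ev (algebraMap ℂ (Localization.Away W) c) = c := by
      intro c
      rw [IsScalarTower.algebraMap_apply ℂ (MvPolynomial (Option J) ℂ) (Localization.Away W),
        ← hi, hev, MvPolynomial.algebraMap_eq, MvPolynomial.eval_C]
    have hcomp : ev.comp (θ : MvPolynomial (Option J) ℂ →+* Localization.Away W) =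
        MvPolynomial.eval (ψ x) := by
      apply MvPolynomial.ringHom_ext
      · intro c
        show ev (θ (MvPolynomial.C c)) = _
        rw [← MvPolynomial.algebraMap_eq, AlgHom.commutes, hevC, MvPolynomial.algebraMap_eq,
          MvPolynomial.eval_C]
      · intro o
        cases o with
        | none =>
          show ev (θ (MvPolynomial.X none)) = _
          rw [hθ0, hev, MvPolynomial.eval_X, MvPolynomial.eval_X, hφ0, hψ0]
        | some ν =>
          show ev (θ (MvPolynomial.X (some ν))) = _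
          rw [hθ ν, map_add, map_mul, hevC, hev, hevr, MvPolynomial.eval_X, MvPolynomial.eval_X,
            hx2 ν]
    have h2 : ev (θ P) = 0 := by
      rw [← hx1, ← hcomp]
      rfl
    rw [← hev, ← hQ', map_mul, h2, zero_mul]
  rw [hQ0, map_zero] at hQ'
  exact (hsu.mul_left_eq_zero).1 hQ'

end Pool.Agent.MSD
end

end

section

/-! # F5b: the family famS (MP_f58a57_nt) -/

open Complex ModularForm EisensteinSeries Filter
open UpperHalfPlane hiding I
open scoped Topology MatrixGroups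

noncomputable section

namespace Pool.Agent.MSD

namespace F5b

theorem den_ne (h : Mob) (x : ℂ) (hN : 0 < h.N x) : h.c * x + h.e ≠ 0 := by
  intro h0
  unfold Mob.N at hN
  rw [h0] at hN
  simp at hN

theorem denbar_ne (h : Mob) (t : ℝ) (hN : 0 < h.N (t : ℂ)) :
    (starRingEnd ℂ) h.c * (t : ℂ) + (starRingEnd ℂ) h.e ≠ 0 := by
  intro h0
  apply den_ne h t hN
  have h1 : (starRingEnd ℂ) ((starRingEnd ℂ) h.c * (t : ℂ) + (starRingEnd ℂ) h.e) = 0 := by
    rw [h0, map_zero]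
  simpa [map_add, map_mul, Complex.conj_conj, Complex.conj_ofReal] using h1

/-- the polynomial `V` -/
def VV (h : Mob) : Polynomial ℂ :=
  (Polynomial.C h.a * Polynomial.X + Polynomial.C h.b) *
      (Polynomial.C ((starRingEnd ℂ) h.c) * Polynomial.X + Polynomial.C ((starRingEnd ℂ) h.e)) -
    (Polynomial.C ((starRingEnd ℂ) h.a) * Polynomial.X + Polynomial.C ((starRingEnd ℂ) h.b)) *
      (Polynomial.C h.c * Polynomial.X + Polynomial.C h.e)

/-- the polynomial `U` up to a constant -/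
def UU (h : Mob) : Polynomial ℂ :=
  (Polynomial.C h.c * Polynomial.X + Polynomial.C h.e) *
      (Polynomial.C ((starRingEnd ℂ) h.c) * Polynomial.X + Polynomial.C ((starRingEnd ℂ) h.e))

theorem VV_eval (h : Mob) (x : ℂ) : (VV h).eval x =
    (h.a * x + h.b) * ((starRingEnd ℂ) h.c * x + (starRingEnd ℂ) h.e) -
      ((starRingEnd ℂ) h.a * x + (starRingEnd ℂ) h.b) * (h.c * x + h.e) := by
  simp [VV]

theorem UU_eval (h : Mob) (x : ℂ) : (UU h).eval x =
    (h.c * x + h.e) * ((starRingEnd ℂ) h.c * x + (starRingEnd ℂ) h.e) := by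
  simp [UU]

theorem VV_real (h : Mob) (t : ℝ) : (VV h).eval (t : ℂ) = 2 * I * (h.N (t : ℂ) : ℂ) := by
  rw [VV_eval]
  unfold Mob.N
  have h1 : (starRingEnd ℂ) (h.c * (t : ℂ) + h.e) = (starRingEnd ℂ) h.c * (t : ℂ) + (starRingEnd ℂ) h.e := by
    simp [map_add, map_mul]
  have h2 : ((starRingEnd ℂ) h.a * (t : ℂ) + (starRingEnd ℂ) h.b) * (h.c * (t : ℂ) + h.e) =
      (starRingEnd ℂ) ((h.a * (t : ℂ) + h.b) * ((starRingEnd ℂ) (h.c * (t : ℂ) + h.e))) := by
    simp [map_add, map_mul]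
  rw [h2, ← h1, Complex.sub_conj]
  push_cast
  ring

theorem VV_ne (h : Mob) (t : ℝ) (hN : 0 < h.N (t : ℂ)) : (VV h).eval (t : ℂ) ≠ 0 := by
  rw [VV_real]
  have : (h.N (t : ℂ) : ℂ) ≠ 0 := by exact_mod_cast hN.ne'
  exact mul_ne_zero (mul_ne_zero two_ne_zero I_ne_zero) this

theorem diff_eq (h : Mob) (x : ℂ) (h1 : h.c * x + h.e ≠ 0)
    (h2 : (starRingEnd ℂ) h.c * x + (starRingEnd ℂ) h.e ≠ 0) :
    h.app x - h.bar x = (VV h).eval x / (UU h).eval x := by
  rw [VV_eval, UU_eval]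
  unfold Mob.app Mob.bar
  rw [div_sub_div _ _ h1 h2]
  congr 1
  ring

theorem ev_ne (h : Mob) (t : ℝ) (hN : 0 < h.N (t : ℂ)) :
    ∀ᶠ x in 𝓝 (t : ℂ), h.c * x + h.e ≠ 0 ∧ (starRingEnd ℂ) h.c * x + (starRingEnd ℂ) h.e ≠ 0 := by
  have c1 : Continuous fun x : ℂ => h.c * x + h.e := by fun_prop
  have c2 : Continuous fun x : ℂ => (starRingEnd ℂ) h.c * x + (starRingEnd ℂ) h.e := by fun_prop
  exact (c1.continuousAt.eventually_ne (den_ne h t hN)).and (c2.continuousAt.eventually_ne (denbar_ne h t hN))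

end F5b

open F5b in
/-- F5b. Independence and analyticity of `famS` at a real point. (`h(x) - h̄(x) = 2i Im h(t) ≠ 0` at `x = t` real.) -/
theorem famS_indep {ι : Type} [Finite ι] (h : ι → Mob) (Ω : ℂ) (hΩ : Ω ≠ 0) (t : ℝ) (hpos : ∀ i, 0 < (h i).N t)
    (hne : ∀ i j, i ≠ j → (h i).Ne (h j)) (P : MvPolynomial (Option (ι × Fin 3)) ℂ)
    (hP : ∀ᶠ x in 𝓝 (t : ℂ), MvPolynomial.eval (famS h Ω x) P = 0) : P = 0 := by
  refine indep_shift (J := ι × Fin 3) (fam h) (famS h Ω) (t : ℂ) (fun x => rfl) (fun x => rfl)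
    (fun ν => ![1 / Ω ^ 2, 1 / Ω ^ 4, 1 / Ω ^ 6] ν.2) ?_
    (fun ν => ![Polynomial.C (-(6 * I / (Real.pi * Ω ^ 2))) * UU (h ν.1), 0, 0] ν.2)
    (fun ν => ![VV (h ν.1), 1, 1] ν.2) ?_ ?_ ?_ P hP
  · rintro ⟨i, κ⟩
    fin_cases κ <;> simp [hΩ]
  · rintro ⟨i, κ⟩
    have := VV_ne (h i) t (hpos i)
    fin_cases κ <;> simp [this]
  · have hev : ∀ i, ∀ᶠ x in 𝓝 (t : ℂ), (h i).c * x + (h i).e ≠ 0 ∧
        (starRingEnd ℂ) (h i).c * x + (starRingEnd ℂ) (h i).e ≠ 0 := fun i => ev_ne (h i) t (hpos i)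
    have hev2 : ∀ i, ∀ᶠ x in 𝓝 (t : ℂ), (VV (h i)).eval x ≠ 0 := fun i =>
      ((VV (h i)).continuous.continuousAt.eventually_ne (VV_ne (h i) t (hpos i)))
    filter_upwards [eventually_all.2 hev, eventually_all.2 hev2] with x hx hx2
    rintro ⟨i, κ⟩
    fin_cases κ
    · have e1 := diff_eq (h i) x (hx i).1 (hx i).2
      have hU : (UU (h i)).eval x ≠ 0 := by
        rw [UU_eval]; exact mul_ne_zero (hx i).1 (hx i).2
      have hV := hx2 i
      have hpi : (Real.pi : ℂ) ≠ 0 := by exact_mod_cast Real.pi_ne_zero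
      show (e2 ((h i).app x) - 6 * I / (Real.pi * ((h i).app x - (h i).bar x))) / Ω ^ 2 =
        1 / Ω ^ 2 * e2 ((h i).app x) + (Polynomial.C (-(6 * I / (Real.pi * Ω ^ 2))) * UU (h i)).eval x /
          (VV (h i)).eval x
      rw [e1, Polynomial.eval_mul, Polynomial.eval_C]
      field_simp
      ring
    · show e4 ((h i).app x) / Ω ^ 4 = 1 / Ω ^ 4 * e4 ((h i).app x) + (0 : Polynomial ℂ).eval x /
          (1 : Polynomial ℂ).eval x
      simp
      ring
    · show e6 ((h i).app x) / Ω ^ 6 = 1 / Ω ^ 6 * e6 ((h i).app x) + (0 : Polynomial ℂ).eval x /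
          (1 : Polynomial ℂ).eval x
      simp
      ring
  · intro Q hQ
    exact func_indep h t hpos hne Q hQ

open F5b in
theorem famS_analytic {ι : Type} (h : ι → Mob) (Ω : ℂ) (t : ℝ) (hpos : ∀ i, 0 < (h i).N t)
    (ν : Option (ι × Fin 3)) : AnalyticAt ℂ (fun x => famS h Ω x ν) (t : ℂ) := by
  match ν with
  | none => exact analyticAt_id
  | some (i, κ) =>
    have hf := fam_analytic h (t : ℂ) hpos (some (i, κ))
    have hdiv : ∀ (n : ℕ) (f : ℂ → ℂ), AnalyticAt ℂ f (t : ℂ) → AnalyticAt ℂ (fun x => f x / Ω ^ n) (t : ℂ) := by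
      intro n f hf
      simp only [div_eq_mul_inv]
      exact hf.mul analyticAt_const
    fin_cases κ
    · have h1 := den_ne (h i) t (hpos i)
      have h2 := denbar_ne (h i) t (hpos i)
      have ha : AnalyticAt ℂ (fun x : ℂ => (h i).app x - (h i).bar x) (t : ℂ) := by
        unfold Mob.app Mob.bar
        refine AnalyticAt.sub (AnalyticAt.div ?_ ?_ h1) (AnalyticAt.div ?_ ?_ h2) <;> fun_prop
      have hne : (h i).app (t : ℂ) - (h i).bar (t : ℂ) ≠ 0 := by
        rw [diff_eq (h i) t h1 h2]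
        refine div_ne_zero (VV_ne (h i) t (hpos i)) ?_
        rw [UU_eval]
        exact mul_ne_zero h1 h2
      have hpi : (Real.pi : ℂ) ≠ 0 := by exact_mod_cast Real.pi_ne_zero
      have hg : AnalyticAt ℂ (fun x : ℂ => e2 ((h i).app x) - 6 * I / (Real.pi * ((h i).app x - (h i).bar x)))
          (t : ℂ) := by
        refine AnalyticAt.sub hf (AnalyticAt.div analyticAt_const (analyticAt_const.mul ha) (mul_ne_zero hpi hne))
      exact hdiv 2 _ hg
    · exact hdiv 4 _ hf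
    · exact hdiv 6 _ hf

/-- F5c. At real points `famS` has the values `e2s/Ω², e4/Ω⁴, e6/Ω⁶`. -/
theorem famS_real {ι : Type} (h : ι → Mob) (Ω : ℂ) (x : ℝ) (i : ι) (κ : Fin 3) (hpos : 0 < (h i).N (x : ℂ)) :
    famS h Ω (x : ℂ) (some (i, κ)) =
      ![e2s ((h i).app (x : ℂ)) / Ω ^ 2, e4 ((h i).app (x : ℂ)) / Ω ^ 4, e6 ((h i).app (x : ℂ)) / Ω ^ 6] κ := by
  fin_cases κ
  · show (e2 ((h i).app x) - 6 * I / (Real.pi * ((h i).app x - (h i).bar x))) / Ω ^ 2 =
      e2s ((h i).app (x : ℂ)) / Ω ^ 2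
    have hb : (h i).bar (x : ℂ) = (starRingEnd ℂ) ((h i).app (x : ℂ)) := by
      unfold Mob.bar Mob.app
      simp [map_div₀, map_add, map_mul]
    rw [hb, Complex.sub_conj]
    unfold e2s
    congr 1
    congr 1
    set y := ((h i).app (x : ℂ)).im with hy
    by_cases hy0 : y = 0
    · simp [hy0]
    · have hpi : (Real.pi : ℂ) ≠ 0 := by exact_mod_cast Real.pi_ne_zero
      have hyc : (y : ℂ) ≠ 0 := by exact_mod_cast hy0
      push_cast
      field_simp
      ring
  · rfl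
  · rfl

end Pool.Agent.MSD
end

end

section

/-! # G1: algebraic independence (MP_f58a57_nt) -/

open Complex ModularForm EisensteinSeries Filter
open UpperHalfPlane hiding I
open scoped Topology MatrixGroups

noncomputable section

namespace Pool.Agent.MSD

theorem g1_two_le_Bd {s : ℕ} (x : Fin s → ℚ) : 2 ≤ Bd x := by
  unfold Bd; omega

theorem g1_den_le_Bd {s : ℕ} (x : Fin s → ℚ) (l : Fin s) : 2 + (x l).den ≤ Bd x := by
  unfold Bd
  have : (x l).den ≤ ∑ l, (x l).den := Finset.single_le_sum (f := fun l => (x l).den) (fun _ _ => Nat.zero_le _) (Finset.mem_univ l)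
  omega

theorem g1_N_continuous (h : Mob) : Continuous h.N := by
  unfold Mob.N
  fun_prop

theorem g1_famS_none {ι : Type*} (h : ι → Mob) (Ω : ℂ) (x : ℂ) : famS h Ω x none = x := rfl

/-- differentiability of the evaluation -/
theorem g1_diff {s : ℕ} {N : Fin s → Type} (φ : ∀ l, ℂ → N l → ℂ) (t : Fin s → ℂ)
    (hφ : ∀ l ν, AnalyticAt ℂ (fun x => φ l x ν) (t l)) (P : MvPolynomial (Σ l, N l) ℚ) :
    DifferentiableAt ℂ (fun y : Fin s → ℂ => MvPolynomial.aeval (fun p : (Σ l, N l) => φ p.1 (y p.1) p.2) P) t := by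
  induction P using MvPolynomial.induction_on with
  | C a => simp
  | add p q hp hq =>
    simp only [map_add]
    exact hp.add hq
  | mul_X p n hp =>
    simp only [map_mul, MvPolynomial.aeval_X]
    refine hp.mul ?_
    have h1 : DifferentiableAt ℂ (fun x => φ n.1 x n.2) (t n.1) := (hφ n.1 n.2).differentiableAt
    have h2 : DifferentiableAt ℂ (fun y : Fin s → ℂ => y n.1) t := differentiableAt_apply n.1 t
    exact DifferentiableAt.comp (g := fun x => φ n.1 x n.2) t h1 h2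

/-- the real inequality -/
theorem g1_exp (C : ℕ) (K : ℝ) : ∀ᶠ k : ℕ in atTop, ∀ B : ℕ, 2 ≤ B →
    K * Real.exp (-(B : ℝ) ^ k) < Real.exp (-(B : ℝ) ^ C) := by
  have h1 : Tendsto (fun n : ℕ => (2 : ℝ) ^ n) atTop atTop := tendsto_pow_atTop_atTop_of_one_lt (by norm_num)
  have h2 : ∀ᶠ n : ℕ in atTop, Real.log (|K| + 1) < (2 : ℝ) ^ n := h1.eventually_gt_atTop _
  have h3 : ∀ᶠ k : ℕ in atTop, Real.log (|K| + 1) < (2 : ℝ) ^ (k - 1) :=
    (tendsto_sub_atTop_nat 1).eventually h2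
  filter_upwards [h3, eventually_ge_atTop (C + 1)] with k hk hkC B hB
  have hB' : (2 : ℝ) ≤ B := by exact_mod_cast hB
  have hB1 : (1 : ℝ) ≤ B := by linarith
  obtain ⟨m, rfl⟩ : ∃ m, k = m + 1 := ⟨k - 1, by omega⟩
  have hm : m + 1 - 1 = m := by omega
  rw [hm] at hk
  have h4 : (B : ℝ) ^ C ≤ (B : ℝ) ^ m := pow_le_pow_right₀ hB1 (by omega)
  have h5 : (2 : ℝ) ^ m ≤ (B : ℝ) ^ m := pow_le_pow_left₀ (by norm_num) hB' m
  have h6 : (B : ℝ) ^ (m + 1) ≥ (B : ℝ) ^ C + (2 : ℝ) ^ m := by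
    rw [pow_succ]
    nlinarith [pow_nonneg (by linarith : (0 : ℝ) ≤ B) m]
  have h7 : K < Real.exp ((2 : ℝ) ^ m) := by
    calc K ≤ |K| := le_abs_self K
      _ < |K| + 1 := by linarith
      _ = Real.exp (Real.log (|K| + 1)) := (Real.exp_log (by positivity)).symm
      _ < _ := Real.exp_lt_exp.mpr hk
  calc K * Real.exp (-(B : ℝ) ^ (m + 1)) < Real.exp ((2 : ℝ) ^ m) * Real.exp (-(B : ℝ) ^ (m + 1)) := by
        apply mul_lt_mul_of_pos_right h7 (Real.exp_pos _)
    _ = Real.exp ((2 : ℝ) ^ m + -(B : ℝ) ^ (m + 1)) := by rw [Real.exp_add]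
    _ ≤ _ := Real.exp_le_exp.mpr (by linarith)

/-- G1. PROOF. Let `P ∈ ℚ[...]`, `P(values at t) = 0`, `P ≠ 0`. Let `x k` be the approximations given by `HyperLiouville` for `C = k`; `x k → t`
(`Bd ≥ 2`). By `famS_analytic` (Lipschitz near `t`), `|P(values at x k)| ≤ K exp(-B^k)`. By `PC.aeval`, `pc_values`, `pc_rat`, `famS_real` the numbers
`P(values at x k)` form a PC family with `B = Bd (x k)`, so by `PC.lower` they are `0` or at least `exp(-B^C)`: they are `0` for large `k`; this contradicts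
`flag_nonvanish` (with `famS_indep`). -/
theorem alg_indep {s : ℕ} (D : Fin s → ℕ) (hD : ∀ l, 0 < D l) (t : Fin s → ℝ) (ht : HyperLiouville t) (Ω : Fin s → ℂ)
    (hΩ : ∀ l, CMBase (rt (D l)) (Ω l)) (ι : Fin s → Type) [∀ l, Finite (ι l)] (h : ∀ l, ι l → Mob)
    (hK : ∀ l i, (h l i).InK (D l)) (hpos : ∀ l i, 0 < (h l i).N (t l : ℂ))
    (hne : ∀ l i j, i ≠ j → (h l i).Ne (h l j)) :
    AlgebraicIndependent ℚ (fun p : (Σ l, Option (ι l × Fin 3)) => famS (h p.1) (Ω p.1) (t p.1 : ℂ) p.2) := by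
  rw [algebraicIndependent_iff]
  intro P hP
  by_contra hP0
  -- the approximations
  choose x hx0 hx1 hx2 using ht
  -- convergence
  have hBd : ∀ k, (2 : ℝ) ≤ Bd (x k) := fun k => by exact_mod_cast g1_two_le_Bd (x k)
  have hexp0 : Tendsto (fun k : ℕ => Real.exp (-(2 : ℝ) ^ k)) atTop (𝓝 0) := by
    apply Real.tendsto_exp_neg_atTop_nhds_zero.comp
    exact tendsto_pow_atTop_atTop_of_one_lt (by norm_num)
  have hx1' : ∀ k l, |t l - x k l| < Real.exp (-(2 : ℝ) ^ k) := by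
    intro k l
    refine lt_of_lt_of_le (hx1 k l) (Real.exp_le_exp.mpr ?_)
    have := pow_le_pow_left₀ (by norm_num : (0 : ℝ) ≤ 2) (hBd k) k
    linarith
  have hxt : ∀ l, Tendsto (fun k => ((x k l : ℚ) : ℝ)) atTop (𝓝 (t l)) := by
    intro l
    rw [tendsto_iff_dist_tendsto_zero]
    refine squeeze_zero (fun _ => dist_nonneg) (fun k => ?_) hexp0
    rw [dist_comm, Real.dist_eq]
    exact (hx1' k l).le
  have hxtC : ∀ l, Tendsto (fun k => ((x k l : ℚ) : ℂ)) atTop (𝓝 (t l : ℂ)) := by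
    intro l
    have := (Complex.continuous_ofReal.tendsto (t l)).comp (hxt l)
    refine this.congr (fun k => ?_)
    simp
  have hnorm : ∀ k l, ‖((x k l : ℚ) : ℂ) - (t l : ℂ)‖ = |t l - x k l| := by
    intro k l
    have h1 : ((x k l : ℚ) : ℂ) - (t l : ℂ) = ((((x k l : ℚ) : ℝ) - t l : ℝ) : ℂ) := by push_cast; rfl
    rw [h1, Complex.norm_real, Real.norm_eq_abs, abs_sub_comm]
  -- radius
  obtain ⟨R, hR⟩ : ∃ R : ℝ, ∀ l, |t l| + 1 ≤ R := by
    obtain ⟨R, hR⟩ := (Set.finite_range (fun l => |t l| + 1)).bddAbove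
    exact ⟨R, fun l => hR ⟨l, rfl⟩⟩
  have hgood1 : ∀ᶠ k in atTop, ∀ l, |((x k l : ℚ) : ℝ)| ≤ R := by
    rw [eventually_all]
    intro l
    have h1 : Tendsto (fun k => |((x k l : ℚ) : ℝ)|) atTop (𝓝 |t l|) := (hxt l).abs
    have h2 : |t l| < R := by linarith [hR l]
    filter_upwards [h1.eventually_lt_const h2] with k hk using hk.le
  have hgood2 : ∀ᶠ k in atTop, ∀ l, ∀ i, 0 < (h l i).N ((x k l : ℚ) : ℂ) := by
    rw [eventually_all]
    intro l
    rw [eventually_all]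
    intro i
    have h1 : Tendsto (fun k => (h l i).N ((x k l : ℚ) : ℂ)) atTop (𝓝 ((h l i).N (t l : ℂ))) :=
      ((g1_N_continuous (h l i)).tendsto _).comp (hxtC l)
    exact h1.eventually_const_lt (hpos l i)
  -- the values
  set F : (Fin s → ℂ) → ℂ := fun y =>
    MvPolynomial.aeval (fun p : (Σ l, Option (ι l × Fin 3)) => famS (h p.1) (Ω p.1) (y p.1) p.2) P with hF
  have hFt : F (fun l => (t l : ℂ)) = 0 := hP
  have hFd : DifferentiableAt ℂ F (fun l => (t l : ℂ)) :=
    g1_diff (fun l x ν => famS (h l) (Ω l) x ν) (fun l => (t l : ℂ))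
      (fun l ν => famS_analytic (h l) (Ω l) (t l) (hpos l) ν) P
  -- PC family
  let X := {y : Fin s → ℚ // ∀ l, |((y l : ℚ) : ℝ)| ≤ R ∧ ∀ i, 0 < (h l i).N ((y l : ℚ) : ℂ)}
  have hPC : PC (X := X) (fun y => Bd y.1) (fun y => F (fun l => ((y.1 l : ℚ) : ℂ))) := by
    refine PC.aeval (X := X) (B := fun y => Bd y.1) (fun y => g1_two_le_Bd y.1) P
      (fun (p : (Σ l, Option (ι l × Fin 3))) y => famS (h p.1) (Ω p.1) ((y.1 p.1 : ℚ) : ℂ) p.2) ?_
    rintro ⟨l, ν⟩
    rcases ν with _ | ⟨i, κ⟩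
    · refine PC.comp (X := {x : ℚ // |(x : ℝ)| ≤ R}) (B := fun x => 2 + x.1.den)
        (f := fun y : X => ⟨y.1 l, (y.2 l).1⟩) (fun y => g1_two_le_Bd y.1) (fun y => g1_den_le_Bd y.1 l) (pc_rat R)
    · have h1 := PC.comp (X := {x : ℚ // |(x : ℝ)| ≤ R ∧ 0 < (h l i).N (x : ℂ)}) (B := fun x => 2 + x.1.den)
        (B' := fun y : X => Bd y.1)
        (f := fun y : X => ⟨y.1 l, (y.2 l).1, (y.2 l).2 i⟩) (fun y => g1_two_le_Bd y.1) (fun y => g1_den_le_Bd y.1 l)
        (pc_values (D l) (hD l) (Ω l) (hΩ l) (h l i) (hK l i) R κ)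
      convert h1 using 1
      funext y
      have h2 := famS_real (h l) (Ω l) ((y.1 l : ℚ) : ℝ) i κ (by
        have := (y.2 l).2 i
        simpa using this)
      simpa using h2
  obtain ⟨C, hC⟩ := PC.lower (X := X) (B := fun y => Bd y.1) (fun y => g1_two_le_Bd y.1) hPC
  -- upper bound
  have hO := hFd.isBigO_sub
  obtain ⟨K, hKpos, hKb⟩ := hO.exists_pos
  have hxtv : Tendsto (fun k => (fun l => ((x k l : ℚ) : ℂ))) atTop (𝓝 (fun l => (t l : ℂ))) :=
    tendsto_pi_nhds.mpr hxtC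
  have hup := hxtv.eventually hKb.bound
  have hzero : ∀ᶠ k in atTop, F (fun l => ((x k l : ℚ) : ℂ)) = 0 := by
    filter_upwards [hup, hgood1, hgood2, g1_exp C K] with k hk hk1 hk2 hk3
    rw [hFt, sub_zero] at hk
    have h1 : ‖(fun l => ((x k l : ℚ) : ℂ)) - (fun l => (t l : ℂ))‖ ≤ Real.exp (-(Bd (x k) : ℝ) ^ k) := by
      rw [pi_norm_le_iff_of_nonneg (Real.exp_pos _).le]
      intro l
      rw [Pi.sub_apply, hnorm k l]
      exact (hx1 k l).le
    have h2 : ‖F (fun l => ((x k l : ℚ) : ℂ))‖ < Real.exp (-(Bd (x k) : ℝ) ^ C) :=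
      lt_of_le_of_lt (hk.trans (mul_le_mul_of_nonneg_left h1 hKpos.le)) (hk3 (Bd (x k)) (g1_two_le_Bd _))
    rcases hC ⟨x k, fun l => ⟨hk1 l, hk2 l⟩⟩ with h3 | h3
    · exact h3
    · exact absurd h2 (not_lt.mpr h3)
  -- nonvanishing
  have hPne : MvPolynomial.map (algebraMap ℚ ℂ) P ≠ 0 := by
    intro h0
    apply hP0
    exact MvPolynomial.map_injective _ (algebraMap ℚ ℂ).injective (by rw [h0, map_zero])
  have hnv := flag_nonvanish s (fun l => Option (ι l × Fin 3)) (fun l x ν => famS (h l) (Ω l) x ν) (fun l => (t l : ℂ))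
    (fun l ν => famS_analytic (h l) (Ω l) (t l) (hpos l) ν)
    (fun l Q hQ => famS_indep (h l) (Ω l) (hΩ l).ne (t l) (hpos l) (hne l) Q hQ)
    (fun k l => ((x k l : ℚ) : ℂ)) hxtC (by
      intro l k he
      have := hx0 k l
      rw [← hnorm k l, he, sub_self, norm_zero] at this
      exact lt_irrefl _ this) (by
      intro C'
      have hle : ∀ᶠ k in atTop, ∀ l, |t l - x k l| ≤ 1 := by
        refine Eventually.of_forall (fun k l => ?_)
        refine (hx1' k l).le.trans ?_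
        rw [Real.exp_le_one_iff]
        have : (0 : ℝ) < 2 ^ k := by positivity
        linarith
      filter_upwards [hle, eventually_ge_atTop C'] with k hk1 hk2 l l' hll
      simp only [hnorm]
      refine (hx2 k l l' hll).le.trans ?_
      exact pow_le_pow_of_le_one (abs_nonneg _) (hk1 l') hk2)
    (MvPolynomial.map (algebraMap ℚ ℂ) P) hPne
  obtain ⟨k, hk1, hk2⟩ := (hzero.and hnv).exists
  apply hk2
  rw [MvPolynomial.eval_map]
  exact hk1

end Pool.Agent.MSD
end

end
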