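import Mathlib
import Pool.Agent.Lib.MP_f58a57_nt.Defs

/-! # G3d: equal circles (MP_f58a57_nt) -/

open Complex ModularForm EisensteinSeries Filter
open UpperHalfPlane hiding I
open scoped Topology MatrixGroups

noncomputable section

namespace Pool.Agent.MSD

theorem g3d_rt_sq (d : ℕ) : rt d * rt d = -(d : ℂ) := by
  unfold rt
  have h : ((Real.sqrt d : ℝ) : ℂ) * ((Real.sqrt d : ℝ) : ℂ) = (d : ℂ) := by
    rw [← Complex.ofReal_mul, Real.mul_self_sqrt (Nat.cast_nonneg d)]
    simp
  calc ((Real.sqrt d : ℝ) : ℂ) * I * (((Real.sqrt d : ℝ) : ℂ) * I)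
      = ((Real.sqrt d : ℝ) : ℂ) * ((Real.sqrt d : ℝ) : ℂ) * (I * I) := by ring
    _ = -(d : ℂ) := by rw [h, Complex.I_mul_I]; ring

theorem g3d_mul (d : ℕ) {x y : ℂ} (hx : x ∈ KK d) (hy : y ∈ KK d) : x * y ∈ KK d := by
  obtain ⟨u, v, rfl⟩ := hx
  obtain ⟨u', v', rfl⟩ := hy
  refine ⟨u * u' - v * v' * d, u * v' + v * u', ?_⟩
  have h := g3d_rt_sq d
  push_cast
  linear_combination (v : ℂ) * v' * h

theorem g3d_sub (d : ℕ) {x y : ℂ} (hx : x ∈ KK d) (hy : y ∈ KK d) : x - y ∈ KK d := by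
  obtain ⟨u, v, rfl⟩ := hx
  obtain ⟨u', v', rfl⟩ := hy
  refine ⟨u - u', v - v', ?_⟩
  push_cast
  ring

theorem g3d_conj (d : ℕ) {x : ℂ} (hx : x ∈ KK d) : (starRingEnd ℂ) x ∈ KK d := by
  obtain ⟨u, v, rfl⟩ := hx
  refine ⟨u, -v, ?_⟩
  unfold rt
  simp only [map_add, map_mul, Complex.conj_I, Complex.conj_ofReal, map_ratCast]
  push_cast
  ring

/-- a quotient of elements of `K` which is real is rational -/
theorem g3d_real_div (d : ℕ) {x y : ℂ} (hx : x ∈ KK d) (hy : y ∈ KK d) (hy0 : y ≠ 0) (r : ℝ) (h : x / y = (r : ℂ)) :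
    ∃ q : ℚ, x / y = (q : ℂ) := by
  -- `x * conj y = r * |y|²`
  have h1 : x * (starRingEnd ℂ) y ∈ KK d := g3d_mul d hx (g3d_conj d hy)
  have h2 : y * (starRingEnd ℂ) y ∈ KK d := g3d_mul d hy (g3d_conj d hy)
  have real_rat : ∀ w : ℂ, w ∈ KK d → w.im = 0 → ∃ q : ℚ, w = (q : ℂ) := by
    rintro w ⟨u, v, rfl⟩ him
    unfold rt at him ⊢
    have : ((v : ℝ)) * Real.sqrt d = 0 := by
      have e : ((u : ℂ) + (v : ℂ) * (((Real.sqrt d : ℝ) : ℂ) * I)).im = (v : ℝ) * Real.sqrt d := by
        simp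
      rw [e] at him
      exact him
    refine ⟨u, ?_⟩
    have h3 : (v : ℂ) * ((Real.sqrt d : ℝ) : ℂ) = 0 := by exact_mod_cast this
    calc (u : ℂ) + (v : ℂ) * (((Real.sqrt d : ℝ) : ℂ) * I) = u + ((v : ℂ) * ((Real.sqrt d : ℝ) : ℂ)) * I := by ring
      _ = u := by rw [h3]; ring
  have hyy : y * (starRingEnd ℂ) y = ((Complex.normSq y : ℝ) : ℂ) := Complex.mul_conj y
  obtain ⟨q2, hq2⟩ := real_rat _ h2 (by rw [hyy]; simp)
  have hx' : x = r * y := by
    rw [← h]; field_simp
  have hxy : x * (starRingEnd ℂ) y = ((r * Complex.normSq y : ℝ) : ℂ) := by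
    rw [hx', mul_assoc, hyy]; push_cast; ring
  obtain ⟨q1, hq1⟩ := real_rat _ h1 (by rw [hxy]; simp)
  have hcy : (starRingEnd ℂ) y ≠ 0 := by simpa using hy0
  refine ⟨q1 / q2, ?_⟩
  have : x / y = (x * (starRingEnd ℂ) y) / (y * (starRingEnd ℂ) y) := by
    field_simp
  rw [this, hq1, hq2]
  push_cast
  rfl

/-- a fraction -/
theorem g3d_affdiv {x y X Y : ℂ} (hY : Y ≠ 0) : x * (X / Y) + y = (x * X + y * Y) / Y := by
  rw [eq_div_iff hY, add_mul, mul_assoc, div_mul_cancel₀ X hY]

/-- a complex number with vanishing imaginary part is real -/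
theorem g3d_re_of_im {w : ℂ} (h : w.im = 0) : w = (w.re : ℂ) := by
  apply Complex.ext <;> simp [h]

/-- G3d. If the circles of `m, m'` (entries in `K`, `N > 0` at `t`) coincide then `m(t)`, `m'(t)` are in one `GL₂(ℚ)`-orbit.
PROOF. `m' m⁻¹` maps the circle `ℝ ∪ ∞` to itself (`N' = r N` with `r > 0` means `Im(m'(x))` and `Im(m(x))` have the same zeros), so it is a complex multiple of a real matrix; dividing by a nonzero
entry, its entries are in `K ∩ ℝ = ℚ`. (Algebraically: writing `m' = g m` with `g` a matrix over `K`, `N'` corresponds to the hermitian form `g* J g` and `N` to `J`;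
proportionality `g* J g = r J` with `J` the standard form forces `g` real up to a scalar.) -/
theorem equiv_of_same_circle (d : ℕ) (t : ℝ) (m m' : Mob) (hm : m.InK d) (hm' : m'.InK d) (h0 : 0 < m.N (t : ℂ))
    (h0' : 0 < m'.N (t : ℂ)) (hne : ¬ m.Ne m') : GEquiv (m.app (t : ℂ)) (m'.app (t : ℂ)) := by
  unfold Mob.Ne at hne
  rw [not_not] at hne
  obtain ⟨ρ, hρ⟩ := hne
  -- notation
  obtain ⟨ha, hb, hc, he⟩ := hm
  obtain ⟨ha', hb', hc', he'⟩ := hm'
  set p : ℂ := m'.a * m.e - m'.b * m.c with hp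
  set q : ℂ := m'.b * m.a - m'.a * m.b with hq
  set r : ℂ := m'.c * m.e - m'.e * m.c with hr
  set s : ℂ := m'.e * m.a - m'.c * m.b with hs
  have hpK : p ∈ KK d := g3d_sub d (g3d_mul d ha' he) (g3d_mul d hb' hc)
  have hqK : q ∈ KK d := g3d_sub d (g3d_mul d hb' ha) (g3d_mul d ha' hb)
  have hrK : r ∈ KK d := g3d_sub d (g3d_mul d hc' he) (g3d_mul d he' hc)
  have hsK : s ∈ KK d := g3d_sub d (g3d_mul d he' ha) (g3d_mul d hc' hb)
  set D : ℂ := m.a * m.e - m.b * m.c with hD
  have hD0 : D ≠ 0 := m.det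
  have hdet : p * s - q * r ≠ 0 := by
    have : p * s - q * r = D * (m'.a * m'.e - m'.b * m'.c) := by
      rw [hp, hq, hr, hs, hD]; ring
    rw [this]
    exact mul_ne_zero hD0 m'.det
  -- the hermitian forms agree on all vectors
  let H : ℂ → ℂ → ℝ := fun v w => ((m.a * v + m.b * w) * (starRingEnd ℂ) (m.c * v + m.e * w)).im
  let H' : ℂ → ℂ → ℝ := fun v w => ((m'.a * v + m'.b * w) * (starRingEnd ℂ) (m'.c * v + m'.e * w)).im
  have hscale : ∀ v w : ℂ, w ≠ 0 → H v w = ρ * H' v w := by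
    intro v w hw
    have h1 : H v w = Complex.normSq w * m.N (v / w) := by
      have e1 : m.a * v + m.b * w = w * (m.a * (v / w) + m.b) := by field_simp
      have e2 : m.c * v + m.e * w = w * (m.c * (v / w) + m.e) := by field_simp
      show ((m.a * v + m.b * w) * (starRingEnd ℂ) (m.c * v + m.e * w)).im = _
      rw [e1, e2]
      unfold Mob.N
      have e3 : w * (m.a * (v / w) + m.b) * (starRingEnd ℂ) (w * (m.c * (v / w) + m.e))
          = ((Complex.normSq w : ℝ) : ℂ) * ((m.a * (v / w) + m.b) * (starRingEnd ℂ) (m.c * (v / w) + m.e)) := by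
        rw [map_mul, ← Complex.mul_conj]; ring
      rw [e3, Complex.im_ofReal_mul]
    have h2 : H' v w = Complex.normSq w * m'.N (v / w) := by
      have e1 : m'.a * v + m'.b * w = w * (m'.a * (v / w) + m'.b) := by field_simp
      have e2 : m'.c * v + m'.e * w = w * (m'.c * (v / w) + m'.e) := by field_simp
      show ((m'.a * v + m'.b * w) * (starRingEnd ℂ) (m'.c * v + m'.e * w)).im = _
      rw [e1, e2]
      unfold Mob.N
      have e3 : w * (m'.a * (v / w) + m'.b) * (starRingEnd ℂ) (w * (m'.c * (v / w) + m'.e))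
          = ((Complex.normSq w : ℝ) : ℂ) * ((m'.a * (v / w) + m'.b) * (starRingEnd ℂ) (m'.c * (v / w) + m'.e)) := by
        rw [map_mul, ← Complex.mul_conj]; ring
      rw [e3, Complex.im_ofReal_mul]
    rw [h1, h2, hρ]; ring
  have hall : ∀ v w : ℂ, H v w = ρ * H' v w := by
    intro v w
    have hc1 : Continuous (fun w => H v w) := by
      show Continuous (fun w => ((m.a * v + m.b * w) * (starRingEnd ℂ) (m.c * v + m.e * w)).im)
      fun_prop
    have hc2 : Continuous (fun w => ρ * H' v w) := by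
      show Continuous (fun w => ρ * ((m'.a * v + m'.b * w) * (starRingEnd ℂ) (m'.c * v + m'.e * w)).im)
      fun_prop
    have hd : Dense ({0}ᶜ : Set ℂ) := dense_compl_singleton 0
    exact congrFun (Continuous.ext_on hd hc1 hc2 (fun w hw => hscale v w hw)) w
  have hN0 : m.N (t : ℂ) = ρ * m'.N (t : ℂ) := hρ _
  have hρ0 : ρ ≠ 0 := by
    rintro rfl
    rw [zero_mul] at hN0
    exact absurd hN0 h0.ne'
  have key : ∀ X Y : ℂ, ((D * X) * (starRingEnd ℂ) (D * Y)).im
      = ρ * ((p * X + q * Y) * (starRingEnd ℂ) (r * X + s * Y)).im := by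
    intro X Y
    have h := hall (m.e * X - m.b * Y) (-m.c * X + m.a * Y)
    have e1 : m.a * (m.e * X - m.b * Y) + m.b * (-m.c * X + m.a * Y) = D * X := by rw [hD]; ring
    have e2 : m.c * (m.e * X - m.b * Y) + m.e * (-m.c * X + m.a * Y) = D * Y := by rw [hD]; ring
    have e3 : m'.a * (m.e * X - m.b * Y) + m'.b * (-m.c * X + m.a * Y) = p * X + q * Y := by rw [hp, hq]; ring
    have e4 : m'.c * (m.e * X - m.b * Y) + m'.e * (-m.c * X + m.a * Y) = r * X + s * Y := by rw [hr, hs]; ring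
    simp only [H, H'] at h
    rw [e1, e2, e3, e4] at h
    exact h
  have k1 : (p * (starRingEnd ℂ) r).im = 0 := by
    have := key 1 0
    simp only [mul_one, mul_zero, map_zero, add_zero, Complex.zero_im] at this
    exact (mul_eq_zero.1 this.symm).resolve_left hρ0
  have k2 : (q * (starRingEnd ℂ) s).im = 0 := by
    have := key 0 1
    simp only [mul_one, mul_zero, zero_mul, zero_add, Complex.zero_im] at this
    exact (mul_eq_zero.1 this.symm).resolve_left hρ0
  have k3 : (p * (starRingEnd ℂ) s).im + (q * (starRingEnd ℂ) r).im = 0 := by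
    have := key 1 1
    simp only [mul_one] at this
    have e1 : (D * (starRingEnd ℂ) D).im = 0 := by rw [Complex.mul_conj]; simp
    have e2 : ((p + q) * (starRingEnd ℂ) (r + s)).im = (p * (starRingEnd ℂ) r).im + (q * (starRingEnd ℂ) s).im
        + ((p * (starRingEnd ℂ) s).im + (q * (starRingEnd ℂ) r).im) := by
      rw [map_add]
      have : (p + q) * ((starRingEnd ℂ) r + (starRingEnd ℂ) s) = p * (starRingEnd ℂ) r + q * (starRingEnd ℂ) s
        + (p * (starRingEnd ℂ) s + q * (starRingEnd ℂ) r) := by ring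
      rw [this]; simp only [Complex.add_im]
    rw [e1, e2, k1, k2, zero_add, zero_add] at this
    exact (mul_eq_zero.1 this.symm).resolve_left hρ0
  have k4 : Complex.normSq D = ρ * ((p * (starRingEnd ℂ) s).re - (q * (starRingEnd ℂ) r).re) := by
    have := key I 1
    simp only [mul_one] at this
    have e1 : (D * I * (starRingEnd ℂ) D).im = Complex.normSq D := by
      have : D * I * (starRingEnd ℂ) D = ((Complex.normSq D : ℝ) : ℂ) * I := by
        rw [← Complex.mul_conj]; ring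
      rw [this, Complex.im_ofReal_mul, Complex.I_im, mul_one]
    have e2 : ((p * I + q) * (starRingEnd ℂ) (r * I + s)).im = (p * (starRingEnd ℂ) r).im + (q * (starRingEnd ℂ) s).im
        + ((p * (starRingEnd ℂ) s).re - (q * (starRingEnd ℂ) r).re) := by
      rw [map_add, map_mul, Complex.conj_I]
      have : (p * I + q) * ((starRingEnd ℂ) r * -I + (starRingEnd ℂ) s) = p * (starRingEnd ℂ) r + q * (starRingEnd ℂ) s
        + (p * (starRingEnd ℂ) s * I - q * (starRingEnd ℂ) r * I) := by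
        linear_combination (-(p * (starRingEnd ℂ) r)) * Complex.I_mul_I
      rw [this]; simp only [Complex.add_im, Complex.sub_im, Complex.mul_I_im]
    rw [e1, e2, k1, k2, zero_add, zero_add] at this
    exact this
  -- `κ = p * conj s - r * conj q` is real and nonzero
  obtain ⟨κ, hκ, hκ0⟩ : ∃ κ : ℝ, p * (starRingEnd ℂ) s - r * (starRingEnd ℂ) q = (κ : ℂ) ∧ κ ≠ 0 := by
    refine ⟨(p * (starRingEnd ℂ) s).re - (q * (starRingEnd ℂ) r).re, ?_, ?_⟩
    · have hqr : r * (starRingEnd ℂ) q = (starRingEnd ℂ) (q * (starRingEnd ℂ) r) := by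
        rw [map_mul, Complex.conj_conj]; ring
      rw [hqr]
      apply Complex.ext
      · simp only [Complex.sub_re, Complex.conj_re, Complex.ofReal_re]
      · simp only [Complex.sub_im, Complex.conj_im, Complex.ofReal_im]
        linarith
    · intro h
      rw [h, mul_zero] at k4
      exact hD0 (Complex.normSq_eq_zero.1 k4)
  have hκ' : (starRingEnd ℂ) p * s - (starRingEnd ℂ) r * q = (κ : ℂ) := by
    have := congrArg (starRingEnd ℂ) hκ
    simpa only [map_sub, map_mul, Complex.conj_conj, Complex.conj_ofReal] using this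
  have hκc : (κ : ℂ) ≠ 0 := by exact_mod_cast hκ0
  obtain ⟨A, hA⟩ : ∃ A : ℝ, p * (starRingEnd ℂ) r = (A : ℂ) := ⟨_, g3d_re_of_im k1⟩
  obtain ⟨B, hB⟩ : ∃ B : ℝ, q * (starRingEnd ℂ) s = (B : ℂ) := ⟨_, g3d_re_of_im k2⟩
  have hA' : (starRingEnd ℂ) p * r = (A : ℂ) := by
    have := congrArg (starRingEnd ℂ) hA
    simpa only [map_mul, Complex.conj_conj, Complex.conj_ofReal] using this
  have hB' : (starRingEnd ℂ) q * s = (B : ℂ) := by
    have := congrArg (starRingEnd ℂ) hB
    simpa only [map_mul, Complex.conj_conj, Complex.conj_ofReal] using this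
  -- a common real-izing factor
  obtain ⟨l, hlK, hl0, p0, q0, r0, s0, hp0, hq0, hr0, hs0⟩ : ∃ l : ℂ, l ∈ KK d ∧ l ≠ 0 ∧ ∃ p0 q0 r0 s0 : ℝ,
      p / l = p0 ∧ q / l = q0 ∧ r / l = r0 ∧ s / l = s0 := by
    by_cases hp00 : p = 0
    · have hq00 : q ≠ 0 := by
        intro h; apply hdet; rw [hp00, h]; ring
      have hr00 : r ≠ 0 := by
        intro h; apply hdet; rw [hp00, h]; ring
      have hcq : (starRingEnd ℂ) q ≠ 0 := by simpa using hq00
      have hcr : (starRingEnd ℂ) r ≠ 0 := by simpa using hr00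
      have hk : -(r * (starRingEnd ℂ) q) = (κ : ℂ) := by rw [← hκ, hp00]; ring
      refine ⟨r, hrK, hr00, 0, -Complex.normSq q / κ, 1, -B / κ, ?_, ?_, ?_, ?_⟩
      · rw [hp00]; simp
      · rw [div_eq_iff hr00]
        push_cast
        rw [← Complex.mul_conj, ← hk]
        field_simp
      · rw [div_self hr00]; simp
      · rw [div_eq_iff hr00]
        push_cast
        rw [← hB', ← hk]
        field_simp
    · have hcp : (starRingEnd ℂ) p ≠ 0 := by simpa using hp00
      have hn : ((Complex.normSq p : ℝ) : ℂ) = p * (starRingEnd ℂ) p := (Complex.mul_conj p).symm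
      have hn0 : Complex.normSq p ≠ 0 := by
        intro h; exact hp00 (Complex.normSq_eq_zero.1 h)
      set θ : ℂ := q / p with hθ
      have hqθ : q = θ * p := by rw [hθ]; field_simp
      have hrp : r = (A / Complex.normSq p : ℝ) * p := by
        push_cast
        rw [hn, ← hA']
        field_simp
      have hsp : s = ((κ + A * θ) / Complex.normSq p) * p := by
        rw [hn, ← hκ', ← hA, hqθ]
        field_simp
        ring
      have hθim : θ.im = 0 := by
        have h1 : q * (starRingEnd ℂ) s = κ * θ + A * (Complex.normSq θ : ℝ) := by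
          rw [hsp, hqθ]
          simp only [map_mul, map_div₀, map_add, Complex.conj_ofReal]
          rw [← Complex.mul_conj θ]
          have : ((Complex.normSq p : ℝ) : ℂ) ≠ 0 := by exact_mod_cast hn0
          rw [hn] at this ⊢
          field_simp
        rw [hB] at h1
        have h2 := congrArg Complex.im h1
        have h3 : κ * θ.im = 0 := by
          have e : ((κ : ℂ) * θ + (A : ℂ) * ((Complex.normSq θ : ℝ) : ℂ)).im = κ * θ.im := by
            rw [Complex.add_im, Complex.im_ofReal_mul, Complex.im_ofReal_mul, Complex.ofReal_im]; ring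
          rw [e, Complex.ofReal_im] at h2
          exact h2.symm
        exact (mul_eq_zero.1 h3).resolve_left hκ0
      have hθr := g3d_re_of_im hθim
      refine ⟨p, hpK, hp00, 1, θ.re, A / Complex.normSq p, (κ + A * θ.re) / Complex.normSq p, ?_, ?_, ?_, ?_⟩
      · rw [div_self hp00]; simp
      · rw [← hθr]
      · rw [div_eq_iff hp00]; exact hrp
      · rw [div_eq_iff hp00]
        push_cast
        rw [← hθr]; exact hsp
  obtain ⟨p1, hp1⟩ := g3d_real_div d hpK hlK hl0 _ hp0
  obtain ⟨q1, hq1⟩ := g3d_real_div d hqK hlK hl0 _ hq0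
  obtain ⟨r1, hr1⟩ := g3d_real_div d hrK hlK hl0 _ hr0
  obtain ⟨s1, hs1⟩ := g3d_real_div d hsK hlK hl0 _ hs0
  have hpl : p = p1 * l := by rw [← hp1]; field_simp
  have hql : q = q1 * l := by rw [← hq1]; field_simp
  have hrl : r = r1 * l := by rw [← hr1]; field_simp
  have hsl : s = s1 * l := by rw [← hs1]; field_simp
  -- denominators
  have hY : m.c * (t : ℂ) + m.e ≠ 0 := by
    intro h
    unfold Mob.N at h0
    rw [h] at h0; simp at h0
  have hY' : m'.c * (t : ℂ) + m'.e ≠ 0 := by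
    intro h
    unfold Mob.N at h0'
    rw [h] at h0'; simp at h0'
  have f1 : p * (m.a * (t : ℂ) + m.b) + q * (m.c * (t : ℂ) + m.e) = D * (m'.a * (t : ℂ) + m'.b) := by
    rw [hp, hq, hD]; ring
  have f2 : r * (m.a * (t : ℂ) + m.b) + s * (m.c * (t : ℂ) + m.e) = D * (m'.c * (t : ℂ) + m'.e) := by
    rw [hr, hs, hD]; ring
  rw [hpl, hql] at f1
  rw [hrl, hsl] at f2
  have hlD : l ≠ 0 := hl0
  have hden : (r1 : ℂ) * m.app (t : ℂ) + s1 ≠ 0 := by
    intro h
    unfold Mob.app at h
    rw [g3d_affdiv hY, div_eq_zero_iff] at h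
    have : (r1 : ℂ) * (m.a * (t : ℂ) + m.b) + s1 * (m.c * (t : ℂ) + m.e) = 0 :=
      h.resolve_right hY
    have h2 : D * (m'.c * (t : ℂ) + m'.e) = 0 := by
      rw [← f2]; linear_combination l * this
    exact (mul_ne_zero hD0 hY') h2
  refine ⟨p1, q1, r1, s1, ?_, hden, ?_⟩
  · intro h
    apply hdet
    rw [hpl, hql, hrl, hsl]
    linear_combination l ^ 2 * h
  · rw [eq_div_iff hden]
    unfold Mob.app
    rw [div_mul_eq_mul_div, div_eq_iff hY']
    have g1 : (p1 : ℂ) * (m.a * (t : ℂ) + m.b) + q1 * (m.c * (t : ℂ) + m.e) = D * (m'.a * (t : ℂ) + m'.b) / l := by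
      rw [eq_div_iff hl0]; linear_combination f1
    have g2 : (r1 : ℂ) * (m.a * (t : ℂ) + m.b) + s1 * (m.c * (t : ℂ) + m.e) = D * (m'.c * (t : ℂ) + m'.e) / l := by
      rw [eq_div_iff hl0]; linear_combination f2
    have g1' : (p1 : ℂ) * ((m.a * (t : ℂ) + m.b) / (m.c * (t : ℂ) + m.e)) + q1
        = D * (m'.a * (t : ℂ) + m'.b) / l / (m.c * (t : ℂ) + m.e) := by
      rw [← g1]; exact g3d_affdiv hY
    have g2' : (r1 : ℂ) * ((m.a * (t : ℂ) + m.b) / (m.c * (t : ℂ) + m.e)) + s1
        = D * (m'.c * (t : ℂ) + m'.e) / l / (m.c * (t : ℂ) + m.e) := by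
      rw [← g2]; exact g3d_affdiv hY
    rw [g1', g2']
    ring

end Pool.Agent.MSD
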