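import Mathlib
import Pool.Agent.Lib.MP_f58a57_nt.FK.K006
import Pool.Agent.Lib.MP_f58a57_nt.M00_Defs

section

/-! # M15: exchange (MP_f58a57_nt) -/

open Complex ModularForm EisensteinSeries Filter
open UpperHalfPlane hiding I
open scoped Topology MatrixGroups Polynomial

noncomputable section

namespace Pool.Agent.MSD

theorem m15_mem (S : Set ℂ) (x : ℂ) : IsAlgebraic (IntermediateField.adjoin ℚ S) x ↔
    x ∈ (AlgebraicIndependent.matroid ℚ ℂ).closure S := by
  rw [IntermediateField.isAlgebraic_adjoin_iff]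
  have h2 : (AlgebraicIndependent.matroid ℚ ℂ).closure S = Subalgebra.algebraicClosure (Algebra.adjoin ℚ S) ℂ :=
    AlgebraicIndependent.matroid_closure_eq
  rw [h2]
  exact Iff.rfl

/-- M15a. PROOF. Induction on the finite set `A`. `A = ∅`: `z` would be algebraic. `A = insert l A'`: if `z` is algebraic over `ℚ(t(A'))` use the induction hypothesis and monotonicity; otherwise, by the exchange property of algebraic dependence
(`AlgebraicIndependent.matroid ℚ ℂ`, `Matroid.closure_exchange`; see `G4_Trdeg.lean` for the use of the matroid) `t l` is algebraic over `ℚ(z, t(A'))`. -/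
theorem exchange {s : ℕ} (t : Fin s → ℂ) (z : ℂ) (hz : Transcendental ℚ z) (A : Finset (Fin s))
    (hza : IsAlgebraic (IntermediateField.adjoin ℚ (t '' (A : Set (Fin s)))) z) :
    ∃ l ∈ A, IsAlgebraic (IntermediateField.adjoin ℚ (insert z (t '' ((A : Set (Fin s)) \ {l})))) (t l) := by
  classical
  simp only [m15_mem] at hza ⊢
  induction A using Finset.induction_on with
  | empty =>
    exfalso
    apply hz
    rw [Finset.coe_empty, Set.image_empty, ← m15_mem, IntermediateField.adjoin_empty] at hza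
    exact hza.restrictScalars ℚ
  | insert a A' ha ih =>
    by_cases h : z ∈ (AlgebraicIndependent.matroid ℚ ℂ).closure (t '' (A' : Set (Fin s)))
    · obtain ⟨l, hl, h2⟩ := ih h
      refine ⟨l, Finset.mem_insert_of_mem hl, ?_⟩
      refine (AlgebraicIndependent.matroid ℚ ℂ).closure_subset_closure ?_ h2
      refine Set.insert_subset_insert (Set.image_mono ?_)
      rw [Finset.coe_insert]
      exact Set.sdiff_subset_sdiff_left (Set.subset_insert _ _)
    · refine ⟨a, Finset.mem_insert_self _ _, ?_⟩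
      rw [Finset.coe_insert, Set.image_insert_eq] at hza
      have h2 := ((AlgebraicIndependent.matroid ℚ ℂ).closure_exchange ⟨hza, h⟩).1
      have h3 : ((insert a A' : Finset (Fin s)) : Set (Fin s)) \ {a} = (A' : Set (Fin s)) := by
        rw [Finset.coe_insert]
        ext x
        simp only [Set.mem_sdiff, Set.mem_insert_iff, Set.mem_singleton_iff, Finset.mem_coe]
        constructor
        · rintro ⟨h4 | h4, h5⟩
          · exact absurd h4 h5
          · exact h4
        · intro h4
          exact ⟨Or.inr h4, fun h5 => ha (h5 ▸ h4)⟩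
      rw [h3]
      exact h2

/-- M15b. (`rt (d b)` is algebraic.) -/
theorem FB_algebraic {s r : ℕ} (bl : Fin s → Fin r) (d : Fin r → ℕ) (t : Fin s → ℝ) (b : Fin r) (z : ℂ) (hz : z ∈ FB bl d t b) :
    IsAlgebraic (IntermediateField.adjoin ℚ ((fun l => (t l : ℂ)) '' {l | bl l = b})) z := by
  set S : Set ℂ := (fun l => (t l : ℂ)) '' {l | bl l = b} with hS
  have h1 : IsAlgebraic (FB bl d t b) z := by
    have := isAlgebraic_algebraMap (R := FB bl d t b) (A := ℂ) ⟨z, hz⟩
    simpa using this
  unfold FB at h1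
  rw [m15_mem] at h1 ⊢
  rw [← (AlgebraicIndependent.matroid ℚ ℂ).closure_closure S]
  refine (AlgebraicIndependent.matroid ℚ ℂ).closure_subset_closure ?_ h1
  intro x hx
  rcases hx with hx | ⟨l, hl, rfl⟩
  · rw [Set.mem_singleton_iff] at hx
    rw [hx, ← m15_mem]
    exact (rt_algebraic_g3 (d b)).extendScalars (FaithfulSMul.algebraMap_injective ℚ _)
  · refine (AlgebraicIndependent.matroid ℚ ℂ).subset_closure S ?_ ?_
    · intro x _
      trivial
    · exact ⟨l, hl, rfl⟩

end Pool.Agent.MSD
end

end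

section

/-! # Q21: completing a tuple by some of the coordinates (MP_f58a57_nt) -/

open Complex ModularForm EisensteinSeries Filter
open UpperHalfPlane hiding I
open scoped Topology MatrixGroups Polynomial

noncomputable section

namespace Pool.Agent.MSD

/-- the transcendence degree of a generated field is at most the rank -/
theorem q21_trdeg_le (Z : Set ℂ) (q : ℕ) (h : (AlgebraicIndependent.matroid ℚ ℂ).eRk Z ≤ (q : ℕ∞)) :
    Algebra.trdeg ℚ (IntermediateField.adjoin ℚ Z) ≤ (q : Cardinal) := by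
  classical
  let M := AlgebraicIndependent.matroid ℚ ℂ
  obtain ⟨κ, y, hy⟩ := exists_isTranscendenceBasis' ℚ (IntermediateField.adjoin ℚ Z)
  rw [← hy.cardinalMk_eq_trdeg]
  have h1 : AlgebraicIndependent ℚ (fun i => ((y i : IntermediateField.adjoin ℚ Z) : ℂ)) :=
    hy.1.map' (f := (IntermediateField.adjoin ℚ Z).val) (IntermediateField.adjoin ℚ Z).val.injective
  have hind : M.Indep (Set.range (fun i => ((y i : IntermediateField.adjoin ℚ Z) : ℂ))) := h1.to_subtype_range
  have hsub : Set.range (fun i => ((y i : IntermediateField.adjoin ℚ Z) : ℂ)) ⊆ M.closure Z := by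
    rintro _ ⟨i, rfl⟩
    rw [← m15_mem]
    exact isAlgebraic_algebraMap (R := IntermediateField.adjoin ℚ Z) (A := ℂ) (y i)
  have hrk : (Set.range (fun i => ((y i : IntermediateField.adjoin ℚ Z) : ℂ))).encard ≤ (q : ℕ∞) := by
    calc _ = M.eRk (Set.range (fun i => ((y i : IntermediateField.adjoin ℚ Z) : ℂ))) := hind.eRk_eq_encard.symm
      _ ≤ M.eRk (M.closure Z) := M.eRk_mono hsub
      _ = M.eRk Z := M.eRk_closure_eq _
      _ ≤ q := h
  have hinj : Function.Injective (fun i => ((y i : IntermediateField.adjoin ℚ Z) : ℂ)) := h1.injective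
  have hfin : (Set.range (fun i => ((y i : IntermediateField.adjoin ℚ Z) : ℂ))).Finite :=
    Set.finite_of_encard_le_coe hrk
  have hκ : Finite κ := by
    have := hfin.to_subtype
    exact Finite.of_injective_finite_range hinj
  haveI := Fintype.ofFinite κ
  have h2 : (Set.range (fun i => ((y i : IntermediateField.adjoin ℚ Z) : ℂ))).encard = (Fintype.card κ : ℕ∞) := by
    rw [← Set.image_univ, hinj.encard_image, Set.encard_univ, ENat.card_eq_coe_fintype_card]
  rw [h2] at hrk
  have h3 : Fintype.card κ ≤ q := by exact_mod_cast hrk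
  rw [Cardinal.mk_fintype]
  exact_mod_cast h3

/-- A tuple of numbers algebraic over `ℚ(x)`, `x` algebraically independent, is completed by `m - trdeg ℚ(z)` numbers. -/
theorem exists_complement {m n : ℕ} (x : Fin m → ℂ) (hx : AlgebraicIndependent ℚ x) (z : Fin n → ℂ)
    (hz : ∀ i, IsAlgebraic (IntermediateField.adjoin ℚ (Set.range x)) (z i)) :
    ∃ (q : ℕ) (T : Finset ℂ), q + T.card = m ∧ Algebra.trdeg ℚ (IntermediateField.adjoin ℚ (Set.range z)) ≤ (q : Cardinal) ∧
      ∀ l, IsAlgebraic (IntermediateField.adjoin ℚ (Set.range z ∪ (T : Set ℂ))) (x l) := by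
  classical
  let M := AlgebraicIndependent.matroid ℚ ℂ
  have hX : M.Indep (Set.range x) := hx.to_subtype_range
  have hzX : Set.range z ⊆ M.closure (Set.range x) := by
    rintro _ ⟨i, rfl⟩
    rw [← m15_mem]
    exact hz i
  obtain ⟨Ib, hI⟩ := M.exists_isBasis (Set.range z)
  obtain ⟨J, hJ, hIJ⟩ := hI.indep.subset_isBasis_of_subset
    (hI.subset.trans (Set.subset_union_left (s := Set.range z) (t := Set.range x)))
  have hJrk : J.encard = (m : ℕ∞) := by
    rw [hJ.encard_eq_eRk]
    have h1 : M.eRk (Set.range z ∪ Set.range x) = M.eRk (Set.range x) := by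
      refine le_antisymm ?_ (M.eRk_mono Set.subset_union_right)
      calc M.eRk (Set.range z ∪ Set.range x) ≤ M.eRk (M.closure (Set.range x)) :=
            M.eRk_mono (Set.union_subset hzX (M.subset_closure _ (fun _ _ => trivial)))
        _ = M.eRk (Set.range x) := M.eRk_closure_eq _
    rw [h1, hX.eRk_eq_encard, ← Set.image_univ, hx.injective.encard_image, Set.encard_univ, ENat.card_eq_coe_fintype_card,
      Fintype.card_fin]
  have hJfin : J.Finite := Set.finite_of_encard_eq_coe hJrk
  have hIfin : Ib.Finite := hJfin.subset hIJ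
  have hTfin : (J \ Ib).Finite := hJfin.subset Set.diff_subset
  refine ⟨hIfin.toFinset.card, hTfin.toFinset, ?_, ?_, ?_⟩
  · have h1 : (J \ Ib).encard + Ib.encard = J.encard := Set.encard_diff_add_encard_of_subset hIJ
    rw [hJrk, hTfin.encard_eq_coe_toFinset_card, hIfin.encard_eq_coe_toFinset_card] at h1
    have h2 : hTfin.toFinset.card + hIfin.toFinset.card = m := by exact_mod_cast h1
    omega
  · apply q21_trdeg_le
    rw [← hI.encard_eq_eRk, hIfin.encard_eq_coe_toFinset_card]
  · intro l
    rw [m15_mem]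
    have h1 : (x l) ∈ M.closure J := by
      rw [hJ.closure_eq_closure]
      exact M.subset_closure _ (fun _ _ => trivial) (Or.inr ⟨l, rfl⟩)
    refine M.closure_subset_closure ?_ h1
    intro y hy
    by_cases hyI : y ∈ Ib
    · exact Or.inl (hI.subset hyI)
    · refine Or.inr ?_
      rw [Set.Finite.coe_toFinset]
      exact ⟨hy, hyI⟩

end Pool.Agent.MSD
end

end

section

/-! # Q01: isobaric polynomials of weight 12 n as polynomials in j (MP_f58a57_nt) -/

open Complex ModularForm EisensteinSeries Filter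
open UpperHalfPlane hiding I
open scoped Topology MatrixGroups Polynomial

noncomputable section

namespace Pool.Agent.MSD

theorem q01_weight (n : ℕ) (Ξ : MvPolynomial (Fin 3) ℤ) (h : MvPolynomial.IsWeightedHomogeneous wts Ξ (12 * n))
    (d : Fin 3 →₀ ℕ) (hd : d ∈ Ξ.support) : 4 * d 0 + 6 * d 1 + 12 * d 2 = 12 * n := by
  have h1 := h (MvPolynomial.mem_support_iff.mp hd)
  rw [Finsupp.weight_apply, Finsupp.sum_fintype _ _ (by intro i; simp), Fin.sum_univ_three] at h1
  simp [wts] at h1
  omega

/-- Q01. PROOF. `Ξ = Σ c_d X^d`, all monomials of `Ξ` have `4 d₀ + 6 d₁ + 12 d₂ = 12 n` (`h` applied to the support), so `3 ∣ d₀`, `2 ∣ d₁` (`omega`) and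
`d₀/3 + d₁/2 + d₂ = n`. Put `P = Σ_{d ∈ support} C (c_d) * X^(d₀/3) * (X - 1728)^(d₁/2)`. With `jj z = e4³/dl`, `jj z - 1728 = e6²/dl` (because `1728 dl = e4³ - e6²`;
`dl_ne_zero`): `e4^(d₀) e6^(d₁) dl^(d₂) = dl^n (jj z)^(d₀/3) (jj z - 1728)^(d₁/2)`. The degree of a summand is `d₀/3 + d₁/2 = n - d₂ ≤ n` and its coefficient
at `n` is `c_d` if `d₂ = 0` (monic factors) and `0` otherwise, as in `Ξ(1, 1, 0)`. (Write `aeval`/`eval` with `MvPolynomial.aeval_def`, `MvPolynomial.eval₂_eq'`, `Fin.prod_univ_three`.) -/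
theorem jpoly (n : ℕ) (Ξ : MvPolynomial (Fin 3) ℤ) (h : MvPolynomial.IsWeightedHomogeneous wts Ξ (12 * n)) :
    ∃ P : Polynomial ℤ, P.natDegree ≤ n ∧ P.coeff n = MvPolynomial.eval ![1, 1, 0] Ξ ∧
      ∀ z : ℂ, 0 < z.im → MvPolynomial.aeval (vals z) Ξ = dl z ^ n * Polynomial.aeval (jj z) P := by
  classical
  have hmon : ∀ a b : ℕ, (Polynomial.X ^ a * (Polynomial.X - Polynomial.C (1728 : ℤ)) ^ b).Monic := fun a b =>
    (Polynomial.monic_X_pow a).mul ((Polynomial.monic_X_sub_C _).pow b)
  have hdeg : ∀ a b : ℕ, (Polynomial.X ^ a * (Polynomial.X - Polynomial.C (1728 : ℤ)) ^ b).natDegree = a + b := by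
    intro a b
    rw [(Polynomial.monic_X_pow a).natDegree_mul ((Polynomial.monic_X_sub_C _).pow b),
      Polynomial.natDegree_X_pow, (Polynomial.monic_X_sub_C _).natDegree_pow, Polynomial.natDegree_X_sub_C, mul_one]
  refine ⟨∑ d ∈ Ξ.support, Polynomial.C (MvPolynomial.coeff d Ξ) *
    (Polynomial.X ^ (d 0 / 3) * (Polynomial.X - Polynomial.C (1728 : ℤ)) ^ (d 1 / 2)), ?_, ?_, ?_⟩
  · refine Polynomial.natDegree_sum_le_of_forall_le _ _ ?_
    intro d hd
    have hw := q01_weight n Ξ h d hd
    refine (Polynomial.natDegree_C_mul_le _ _).trans ?_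
    rw [hdeg]
    omega
  · rw [Polynomial.finsetSum_coeff, MvPolynomial.eval_eq']
    refine Finset.sum_congr rfl ?_
    intro d hd
    have hw := q01_weight n Ξ h d hd
    rw [Polynomial.coeff_C_mul, Fin.prod_univ_three]
    congr 1
    by_cases h2 : d 2 = 0
    · have hn : n = (Polynomial.X ^ (d 0 / 3) * (Polynomial.X - Polynomial.C (1728 : ℤ)) ^ (d 1 / 2)).natDegree := by
        rw [hdeg]
        omega
      rw [hn, Polynomial.coeff_natDegree, (hmon _ _).leadingCoeff]
      simp [h2]
    · rw [Polynomial.coeff_eq_zero_of_natDegree_lt]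
      · simp [h2]
      · rw [hdeg]
        omega
  · intro z hz
    have hdl := dl_ne_zero z hz
    have hj : jj z - 1728 = e6 z ^ 2 / dl z := by
      rw [jj, eq_div_iff hdl, sub_mul, div_mul_cancel₀ _ hdl]
      rw [dl]
      ring
    rw [MvPolynomial.aeval_def, MvPolynomial.eval₂_eq', map_sum, Finset.mul_sum]
    refine Finset.sum_congr rfl ?_
    intro d hd
    have hw := q01_weight n Ξ h d hd
    rw [Fin.prod_univ_three]
    simp only [map_mul, map_pow, map_sub, Polynomial.aeval_C, Polynomial.aeval_X, vals, Matrix.cons_val_zero,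
      Matrix.cons_val_one, Matrix.cons_val]
    have h0 : d 0 = 3 * (d 0 / 3) := by omega
    have h1 : d 1 = 2 * (d 1 / 2) := by omega
    have h3 : n = d 0 / 3 + d 1 / 2 + d 2 := by omega
    have e1 : (algebraMap ℤ ℂ) 1728 = 1728 := by norm_num
    rw [e1, hj, jj, div_pow, div_pow]
    generalize d 0 / 3 = a at *
    generalize d 1 / 2 = b at *
    rw [h0, h1, h3, pow_mul, pow_mul, pow_add, pow_add]
    field_simp
    try ring

end Pool.Agent.MSD
end

end
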