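import Mathlib
import Pool.Agent.Lib.MP_f58a57_nt.FK.K007
import Pool.Agent.Lib.MP_f58a57_nt.FK.K019
import Pool.Agent.Lib.MP_f58a57_nt.FK.K057
import Pool.Agent.Lib.MP_f58a57_nt.FK.K058
import Pool.Agent.Lib.MP_f58a57_nt.FK.K059
import Pool.Agent.Lib.MP_f58a57_nt.FK.K060

section

/-! # G4: a transcendence degree lemma (MP_f58a57_nt) -/

open Complex ModularForm EisensteinSeries Filter
open UpperHalfPlane hiding I
open scoped Topology MatrixGroups

noncomputable section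

namespace Pool.Agent.MSD

/-- G4. PROOF. Let `E = ℚ(S)`, `E' = ℚ(S ∪ T)`; all members of the algebraically independent family are algebraic over `E'`, so
`N ≤ trdeg E' ≤ trdeg E + card T`. -/
theorem trdeg_lower (J : Type) [Fintype J] (a : J → ℂ) (ha : AlgebraicIndependent ℚ a) (S : Set ℂ) (T : Finset ℂ)
    (h : ∀ j, IsAlgebraic (IntermediateField.adjoin ℚ (S ∪ (T : Set ℂ))) (a j)) :
    (Fintype.card J : Cardinal) ≤ Algebra.trdeg ℚ (IntermediateField.adjoin ℚ S) + T.card := by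
  classical
  let M := AlgebraicIndependent.matroid ℚ ℂ
  have hind : M.Indep (Set.range a) := ha.to_subtype_range
  have hsub : Set.range a ⊆ M.closure (S ∪ (T : Set ℂ)) := by
    rintro _ ⟨j, rfl⟩
    have h1 := IntermediateField.isAlgebraic_adjoin_iff.1 (h j)
    have h2 : M.closure (S ∪ (T : Set ℂ)) =
        Subalgebra.algebraicClosure (Algebra.adjoin ℚ (S ∪ (T : Set ℂ))) ℂ :=
      AlgebraicIndependent.matroid_closure_eq
    rw [h2]
    exact h1
  have hrk : (Set.range a).encard ≤ M.eRk S + (T.card : ℕ∞) := by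
    calc (Set.range a).encard = M.eRk (Set.range a) := hind.eRk_eq_encard.symm
      _ ≤ M.eRk (M.closure (S ∪ (T : Set ℂ))) := M.eRk_mono hsub
      _ = M.eRk (S ∪ (T : Set ℂ)) := M.eRk_closure_eq _
      _ ≤ M.eRk S + (T : Set ℂ).encard := M.eRk_union_le_eRk_add_encard _ _
      _ = M.eRk S + (T.card : ℕ∞) := by rw [Set.encard_coe_eq_coe_finsetCard]
  have hcard : (Set.range a).encard = (Fintype.card J : ℕ∞) := by
    rw [← Set.image_univ, ha.injective.encard_image, Set.encard_univ, ENat.card_eq_coe_fintype_card]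
  obtain ⟨B, hB⟩ := M.exists_isBasis S
  have hBind : AlgebraicIndependent ℚ ((↑) : B → ℂ) := hB.indep
  have hBS : B ⊆ S := hB.subset
  let E := IntermediateField.adjoin ℚ S
  let x : B → E := fun b => ⟨b, IntermediateField.subset_adjoin ℚ S (hBS b.2)⟩
  have hx : AlgebraicIndependent ℚ x := by
    apply AlgebraicIndependent.of_comp (E.val)
    exact hBind
  have hle : Cardinal.mk B ≤ Algebra.trdeg ℚ E := hx.cardinalMk_le_trdeg
  rw [hcard, ← hB.encard_eq_eRk] at hrk
  by_cases hfin : B.Finite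
  · have h1 : B.encard = (hfin.toFinset.card : ℕ∞) := hfin.encard_eq_coe_toFinset_card
    rw [h1] at hrk
    have h2 : Fintype.card J ≤ hfin.toFinset.card + T.card := by exact_mod_cast hrk
    have h3 : Cardinal.mk B = (hfin.toFinset.card : Cardinal) := by
      rw [← Cardinal.mk_coe_finset]
      exact (Cardinal.mk_congr (Equiv.setCongr hfin.coe_toFinset)).symm
    calc (Fintype.card J : Cardinal) ≤ ((hfin.toFinset.card + T.card : ℕ) : Cardinal) := by
          exact_mod_cast h2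
      _ = Cardinal.mk B + (T.card : Cardinal) := by rw [h3]; push_cast; rfl
      _ ≤ Algebra.trdeg ℚ E + (T.card : Cardinal) := by gcongr
  · have h1 : Cardinal.aleph0 ≤ Cardinal.mk B := by
      rw [← Cardinal.infinite_iff]
      exact (Set.infinite_coe_iff).2 hfin
    calc (Fintype.card J : Cardinal) ≤ Cardinal.aleph0 := Cardinal.natCast_lt_aleph0.le
      _ ≤ Algebra.trdeg ℚ E := h1.trans hle
      _ ≤ Algebra.trdeg ℚ E + (T.card : Cardinal) := le_self_add

end Pool.Agent.MSD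
end

end

section

/-! # M07a: uniform Taylor bound (MP_f58a57_nt) -/

open Complex ModularForm EisensteinSeries Filter
open UpperHalfPlane hiding I
open scoped Topology MatrixGroups Polynomial

noncomputable section

namespace Pool.Agent.MSD

theorem m07a_local (h : ℂ → ℂ) (t : ℂ) (n : ℕ) (hh : AnalyticAt ℂ h t)
    (h0 : ∀ j < n, iteratedDeriv j h t = 0) :
    ∃ G : ℂ → ℂ, AnalyticAt ℂ G t ∧ ∀ᶠ x in 𝓝 t,
      h x - iteratedDeriv n h t / (n.factorial : ℂ) * (x - t) ^ n = (x - t) ^ (n + 1) * G x := by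
  have hf : AnalyticAt ℂ (fun z => h (t + z)) 0 := by
    have h1 : AnalyticAt ℂ h ((fun z : ℂ => t + z) 0) := by simpa using hh
    have h2 : AnalyticAt ℂ (fun z : ℂ => t + z) 0 := by fun_prop
    exact AnalyticAt.comp h1 h2
  obtain ⟨F, hF, hFe⟩ := hf.exists_eventuallyEq_sum_add_pow_mul (n + 1)
  refine ⟨fun x => F (x - t), ?_, ?_⟩
  · have h1 : AnalyticAt ℂ F ((fun x : ℂ => x - t) t) := by simpa using hF
    have h2 : AnalyticAt ℂ (fun x : ℂ => x - t) t := by fun_prop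
    exact AnalyticAt.comp h1 h2
  · have ht : Tendsto (fun x : ℂ => x - t) (𝓝 t) (𝓝 0) := by
      have : Continuous (fun x : ℂ => x - t) := by fun_prop
      have h1 := this.tendsto t
      simpa using h1
    filter_upwards [ht.eventually hFe] with x hx
    have e1 : ∀ i, iteratedDeriv i (fun z => h (t + z)) 0 = iteratedDeriv i h t := by
      intro i
      have := iteratedDeriv_comp_const_add i h t
      rw [this]
      simp
    rw [Finset.sum_range_succ, Finset.sum_eq_zero] at hx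
    · rw [e1] at hx
      have e2 : t + (x - t) = x := by ring
      rw [e2, smul_eq_mul, smul_eq_mul] at hx
      rw [hx]
      ring
    · intro i hi
      rw [e1, h0 i (Finset.mem_range.mp hi), smul_zero]

/-- M07a. Uniform Taylor bound. PROOF. `h₁(x) = h x - (h^(n)(t)/n!) (x - t)^n` vanishes to order `≥ n+1` at `t`; `h₁/(x-t)^(n+1)` is analytic on the disc (`dslope`) and on `|x - t| = ρ` it is at most `2 M/ρ^(n+1)` (Cauchy's
estimate `‖h^(n)(t)‖ ≤ n! M/ρ^n`); maximum principle. -/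
theorem taylor_bound (h : ℂ → ℂ) (t : ℂ) (ρ : ℝ) (hρ : 0 < ρ) (M : ℝ) (n : ℕ) (hh : AnalyticOnNhd ℂ h (Metric.closedBall t ρ))
    (hM : ∀ x ∈ Metric.closedBall t ρ, ‖h x‖ ≤ M) (h0 : ∀ j < n, iteratedDeriv j h t = 0) (x : ℂ) (hx : x ∈ Metric.ball t ρ) :
    ‖h x - iteratedDeriv n h t / (n.factorial : ℂ) * (x - t) ^ n‖ ≤ 2 * M / ρ ^ (n + 1) * ‖x - t‖ ^ (n + 1) := by
  obtain ⟨G, hG, hGe⟩ := m07a_local h t n (hh t (Metric.mem_closedBall_self hρ.le)) h0
  set c : ℂ := iteratedDeriv n h t / (n.factorial : ℂ) with hc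
  set g : ℂ → ℂ := fun x => if x = t then G t else (h x - c * (x - t) ^ n) / (x - t) ^ (n + 1) with hg
  have hga : AnalyticOnNhd ℂ g (Metric.closedBall t ρ) := by
    intro z hz
    by_cases hzt : z = t
    · subst hzt
      refine hG.congr ?_
      filter_upwards [hGe] with w hw
      by_cases hwz : w = z
      · simp [hg, hwz]
      · have hwz' : (w - z) ^ (n + 1) ≠ 0 := pow_ne_zero _ (sub_ne_zero.mpr hwz)
        simp only [hg, hwz, if_false]
        rw [hw]
        field_simp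
    · have h1 : AnalyticAt ℂ (fun x => (h x - c * (x - t) ^ n) / (x - t) ^ (n + 1)) z := by
        have h2 := hh z hz
        refine AnalyticAt.div (by fun_prop) (by fun_prop) (pow_ne_zero _ (sub_ne_zero.mpr hzt))
      refine h1.congr ?_
      filter_upwards [isOpen_ne.mem_nhds hzt] with w hw
      have hw' : w ≠ t := hw
      simp [hg, hw']
  have hdiff : DiffContOnCl ℂ g (Metric.ball t ρ) := by
    refine DifferentiableOn.diffContOnCl ?_
    intro z hz
    rw [closure_ball t hρ.ne'] at hz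
    exact (hga z hz).differentiableAt.differentiableWithinAt
  have hdiffh : DiffContOnCl ℂ h (Metric.ball t ρ) := by
    refine DifferentiableOn.diffContOnCl ?_
    intro z hz
    rw [closure_ball t hρ.ne'] at hz
    exact (hh z hz).differentiableAt.differentiableWithinAt
  have hcb : ‖c‖ * ρ ^ n ≤ M := by
    have h1 := Complex.norm_iteratedDeriv_le_of_forall_mem_sphere_norm_le n hρ hdiffh
      (fun z hz => hM z (Metric.sphere_subset_closedBall hz))
    rw [hc, norm_div, Complex.norm_natCast]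
    have hf0 : (0 : ℝ) < (n.factorial : ℝ) := by exact_mod_cast n.factorial_pos
    rw [div_mul_eq_mul_div, div_le_iff₀ hf0]
    rw [le_div_iff₀ (by positivity)] at h1
    linarith
  have hsph : ∀ z ∈ frontier (Metric.ball t ρ), ‖g z‖ ≤ 2 * M / ρ ^ (n + 1) := by
    intro z hz
    rw [frontier_ball t hρ.ne'] at hz
    have hz1 : ‖z - t‖ = ρ := mem_sphere_iff_norm.mp hz
    have hzt : z ≠ t := by
      rintro rfl
      simp at hz1
      exact hρ.ne hz1
    simp only [hg, hzt, if_false]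
    rw [norm_div, norm_pow, hz1]
    refine div_le_div_of_nonneg_right ?_ (by positivity)
    refine (norm_sub_le _ _).trans ?_
    rw [norm_mul, norm_pow, hz1]
    have h1 := hM z (Metric.sphere_subset_closedBall hz)
    linarith
  have hmax := Complex.norm_le_of_forall_mem_frontier_norm_le Metric.isBounded_ball hdiff hsph
    (subset_closure hx)
  by_cases hxt : x = t
  · subst hxt
    have h2 := hGe.self_of_nhds
    rw [h2]
    simp
  · have e1 : h x - c * (x - t) ^ n = g x * (x - t) ^ (n + 1) := by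
      have : (x - t) ^ (n + 1) ≠ 0 := pow_ne_zero _ (sub_ne_zero.mpr hxt)
      simp only [hg, hxt, if_false]
      field_simp
    rw [e1, norm_mul, norm_pow]
    exact mul_le_mul_of_nonneg_right hmax (by positivity)

end Pool.Agent.MSD
end

end

section

/-! # M07: analytic functions at flagged sequences (MP_f58a57_nt) -/

open Complex ModularForm EisensteinSeries Filter
open UpperHalfPlane hiding I
open scoped Topology MatrixGroups Polynomial

noncomputable section

namespace Pool.Agent.MSD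

/-- iterated partial derivatives in the first coordinate -/
def fg_F {s : ℕ} (f : (Fin (s + 1) → ℂ) → ℂ) : ℕ → (Fin (s + 1) → ℂ) → ℂ
  | 0 => f
  | n + 1 => fun x => fderiv ℂ (fg_F f n) x (Pi.single 0 1)

theorem fg_F_an {s : ℕ} {f : (Fin (s + 1) → ℂ) → ℂ} {U : Set (Fin (s + 1) → ℂ)}
    (hf : AnalyticOnNhd ℂ f U) (n : ℕ) : AnalyticOnNhd ℂ (fg_F f n) U := by
  induction n with
  | zero => exact hf
  | succ n ih =>
    intro x hx
    have h1 : AnalyticAt ℂ (fderiv ℂ (fg_F f n)) x := (ih x hx).fderiv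
    exact ((ContinuousLinearMap.apply ℂ ℂ (Pi.single 0 1 : Fin (s + 1) → ℂ)).analyticAt _).comp h1

theorem fg_cons_mem {s : ℕ} {t : Fin (s + 1) → ℂ} {ε : ℝ} (hε : 0 < ε) {z : ℂ} {x' : Fin s → ℂ} :
    (Fin.cons z x' : Fin (s + 1) → ℂ) ∈ Metric.ball t ε ↔
      z ∈ Metric.ball (t 0) ε ∧ x' ∈ Metric.ball (Fin.tail t) ε := by
  rw [Metric.mem_ball, Metric.mem_ball, Metric.mem_ball, dist_pi_lt_iff hε, dist_pi_lt_iff hε,
    Fin.forall_fin_succ]
  rfl

theorem fg_slice_deriv {s : ℕ} (x' : Fin s → ℂ) (z : ℂ) :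
    HasDerivAt (fun z : ℂ => (Fin.cons z x' : Fin (s + 1) → ℂ)) (Pi.single 0 1) z := by
  rw [hasDerivAt_pi]
  intro i
  refine Fin.cases ?_ (fun j => ?_) i
  · simp only [Fin.cons_zero, Pi.single_eq_same]
    exact hasDerivAt_id z
  · simp only [Fin.cons_succ]
    rw [Pi.single_eq_of_ne (Fin.succ_ne_zero j)]
    exact hasDerivAt_const z (x' j)

theorem fg_slice_iter {s : ℕ} {f : (Fin (s + 1) → ℂ) → ℂ} {t : Fin (s + 1) → ℂ} {ε : ℝ}
    (hε : 0 < ε) (hf : AnalyticOnNhd ℂ f (Metric.ball t ε)) {x' : Fin s → ℂ}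
    (hx' : x' ∈ Metric.ball (Fin.tail t) ε) (n : ℕ) : ∀ z ∈ Metric.ball (t 0) ε,
      iteratedDeriv n (fun z : ℂ => f (Fin.cons z x' : Fin (s + 1) → ℂ)) z =
        fg_F f n (Fin.cons z x' : Fin (s + 1) → ℂ) := by
  induction n with
  | zero => intro z _; rw [iteratedDeriv_zero]; rfl
  | succ n ih =>
    intro z hz
    rw [iteratedDeriv_succ]
    have h1 : iteratedDeriv n (fun z : ℂ => f (Fin.cons z x' : Fin (s + 1) → ℂ)) =ᶠ[𝓝 z]
        fun z => fg_F f n (Fin.cons z x' : Fin (s + 1) → ℂ) := by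
      filter_upwards [Metric.isOpen_ball.mem_nhds hz] with w hw
      exact ih w hw
    rw [h1.deriv_eq]
    have h2 : AnalyticAt ℂ (fg_F f n) (Fin.cons z x' : Fin (s + 1) → ℂ) :=
      fg_F_an hf n _ ((fg_cons_mem hε).2 ⟨hz, hx'⟩)
    have h3 := h2.differentiableAt.hasFDerivAt.comp_hasDerivAt z (fg_slice_deriv x' z)
    exact h3.deriv

theorem fg_slice_an {s : ℕ} {f : (Fin (s + 1) → ℂ) → ℂ} {t : Fin (s + 1) → ℂ} {ε : ℝ}
    (hε : 0 < ε) (hf : AnalyticOnNhd ℂ f (Metric.ball t ε)) {x' : Fin s → ℂ}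
    (hx' : x' ∈ Metric.ball (Fin.tail t) ε) :
    AnalyticOnNhd ℂ (fun z : ℂ => f (Fin.cons z x' : Fin (s + 1) → ℂ)) (Metric.ball (t 0) ε) := by
  intro z hz
  have h2 : AnalyticAt ℂ f (Fin.cons z x' : Fin (s + 1) → ℂ) :=
    hf _ ((fg_cons_mem hε).2 ⟨hz, hx'⟩)
  have h3 : AnalyticAt ℂ (fun z : ℂ => (Fin.cons z x' : Fin (s + 1) → ℂ)) z := by
    rw [analyticAt_pi_iff]
    intro i
    refine Fin.cases ?_ (fun j => ?_) i
    · simp only [Fin.cons_zero]
      exact analyticAt_id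
    · simp only [Fin.cons_succ]
      exact analyticAt_const
  exact AnalyticAt.comp (f := fun z : ℂ => (Fin.cons z x' : Fin (s + 1) → ℂ)) h2 h3

theorem fg_G_an {s : ℕ} {f : (Fin (s + 1) → ℂ) → ℂ} {t : Fin (s + 1) → ℂ} {ε : ℝ}
    (hε : 0 < ε) (hf : AnalyticOnNhd ℂ f (Metric.ball t ε)) :
    AnalyticOnNhd ℂ (fun x' : Fin s → ℂ => f (Fin.cons (t 0) x' : Fin (s + 1) → ℂ))
      (Metric.ball (Fin.tail t) ε) := by
  intro x' hx'
  have h2 : AnalyticAt ℂ f (Fin.cons (t 0) x' : Fin (s + 1) → ℂ) :=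
    hf _ ((fg_cons_mem hε).2 ⟨Metric.mem_ball_self hε, hx'⟩)
  have h3 : AnalyticAt ℂ (fun x' : Fin s → ℂ => (Fin.cons (t 0) x' : Fin (s + 1) → ℂ)) x' := by
    rw [analyticAt_pi_iff]
    intro i
    refine Fin.cases ?_ (fun j => ?_) i
    · simp only [Fin.cons_zero]
      exact analyticAt_const
    · simp only [Fin.cons_succ]
      exact (ContinuousLinearMap.proj (R := ℂ) (φ := fun _ : Fin s => ℂ) j).analyticAt x'
  exact AnalyticAt.comp (f := fun x' : Fin s → ℂ => (Fin.cons (t 0) x' : Fin (s + 1) → ℂ)) h2 h3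

/-- the inductive statement -/
def fg_P (s : ℕ) : Prop := ∀ (f : (Fin s → ℂ) → ℂ) (t : Fin s → ℂ), AnalyticAt ℂ f t →
  (¬ ∀ᶠ x in 𝓝 t, f x = 0) → ∀ x : ℕ → Fin s → ℂ,
  (∀ l, Tendsto (fun k => x k l) atTop (𝓝 (t l))) → (∀ l k, x k l ≠ t l) →
  (∀ C : ℕ, ∀ᶠ k in atTop, ∀ l l', l < l' → ‖x k l - t l‖ ≤ ‖x k l' - t l'‖ ^ C) →
  ∀ δ : ℕ → ℝ, Tendsto δ atTop (𝓝 0) → (∀ k, 0 ≤ δ k) →
  (∀ C : ℕ, ∀ᶠ k in atTop, ∀ l, δ k ≤ ‖x k l - t l‖ ^ C) →
  ∀ A : ℝ, ∀ᶠ k in atTop, A * δ k ≤ ‖f (x k)‖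

theorem fg_step {s : ℕ} (IH : fg_P s) (f : (Fin (s + 1) → ℂ) → ℂ) (t : Fin (s + 1) → ℂ)
    (hf : AnalyticAt ℂ f t) (h0 : ¬ ∀ᶠ x in 𝓝 t, f x = 0)
    (x : ℕ → Fin (s + 1) → ℂ) (hx : ∀ l, Tendsto (fun k => x k l) atTop (𝓝 (t l)))
    (hne : ∀ l k, x k l ≠ t l)
    (hflag : ∀ C : ℕ, ∀ᶠ k in atTop, ∀ l l', l < l' → ‖x k l - t l‖ ≤ ‖x k l' - t l'‖ ^ C) :
    ∃ M : ℕ, ∀ᶠ k in atTop, ‖x k 0 - t 0‖ ^ M ≤ ‖f (x k)‖ := by
  classical
  obtain ⟨ε, hε, hball⟩ := Metric.eventually_nhds_iff_ball.1 hf.eventually_analyticAt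
  have hfa : AnalyticOnNhd ℂ f (Metric.ball t ε) := fun y hy => hball y hy
  obtain ⟨r, hr0, hrε⟩ : ∃ r : ℝ, 0 < r ∧ r < ε := ⟨ε / 2, by positivity, by linarith⟩
  have hsub : Metric.closedBall t r ⊆ Metric.ball t ε := Metric.closedBall_subset_ball hrε
  have hsub0 : Metric.closedBall (t 0) r ⊆ Metric.ball (t 0) ε := Metric.closedBall_subset_ball hrε
  -- a bound for `f`
  obtain ⟨B, hB⟩ : ∃ B : ℝ, ∀ y ∈ Metric.closedBall t r, ‖f y‖ ≤ B := by
    have hc : ContinuousOn f (Metric.closedBall t r) := fun y hy =>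
      (hfa y (hsub hy)).continuousAt.continuousWithinAt
    exact (isCompact_closedBall t r).exists_bound_of_continuousOn hc
  -- the Taylor estimate on slices
  have htaylor : ∀ (n : ℕ) (x' : Fin s → ℂ), x' ∈ Metric.ball (Fin.tail t) r →
      (∀ j < n, fg_F f j (Fin.cons (t 0) x' : Fin (s + 1) → ℂ) = 0) →
      ∀ z ∈ Metric.ball (t 0) r,
      ‖f (Fin.cons z x' : Fin (s + 1) → ℂ) -
        fg_F f n (Fin.cons (t 0) x' : Fin (s + 1) → ℂ) / (n.factorial : ℂ) * (z - t 0) ^ n‖ ≤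
        2 * B / r ^ (n + 1) * ‖z - t 0‖ ^ (n + 1) := by
    intro n x' hx' hj z hz
    have hx'' : x' ∈ Metric.ball (Fin.tail t) ε := Metric.ball_subset_ball hrε.le hx'
    have hself : t 0 ∈ Metric.ball (t 0) ε := Metric.mem_ball_self hε
    have h1 := taylor_bound (fun z : ℂ => f (Fin.cons z x' : Fin (s + 1) → ℂ)) (t 0) r hr0 B n
      ((fg_slice_an hε hfa hx'').mono hsub0) (by
        intro w hw
        refine hB _ ?_
        rw [Metric.mem_closedBall, dist_pi_le_iff hr0.le, Fin.forall_fin_succ]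
        refine ⟨by simpa using hw, fun i => ?_⟩
        have h2 := (dist_pi_lt_iff hr0).1 hx' i
        simpa [Fin.tail] using h2.le) (by
        intro j hjn
        rw [fg_slice_iter hε hfa hx'' j _ hself]
        exact hj j hjn) z hz
    rw [fg_slice_iter hε hfa hx'' n _ hself] at h1
    exact h1
  -- some derivative is not identically zero
  have hex : ∃ n, ¬ ∀ᶠ x' in 𝓝 (Fin.tail t), fg_F f n (Fin.cons (t 0) x' : Fin (s + 1) → ℂ) = 0 := by
    by_contra hcon
    push Not at hcon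
    apply h0
    have hz : ∀ n, ∀ x' ∈ Metric.ball (Fin.tail t) ε,
        fg_F f n (Fin.cons (t 0) x' : Fin (s + 1) → ℂ) = 0 := by
      intro n x' hx'
      have h1 := fg_G_an hε (fg_F_an hfa n)
      exact h1.eqOn_zero_of_preconnected_of_eventuallyEq_zero
        (convex_ball (Fin.tail t) ε).isPreconnected (Metric.mem_ball_self hε) (hcon n) hx'
    filter_upwards [Metric.ball_mem_nhds t hr0] with y hy
    have hy' : (Fin.cons (y 0) (Fin.tail y) : Fin (s + 1) → ℂ) = y := Fin.cons_self_tail y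
    rw [← hy'] at hy ⊢
    obtain ⟨hy0, hy1⟩ := (fg_cons_mem hr0).1 hy
    have h1 : ∀ n : ℕ, ‖f (Fin.cons (y 0) (Fin.tail y) : Fin (s + 1) → ℂ)‖ ≤
        2 * B * (‖y 0 - t 0‖ / r) ^ (n + 1) := by
      intro n
      have h2 := htaylor n _ hy1 (fun j _ => hz j _ (Metric.ball_subset_ball hrε.le hy1)) _ hy0
      rw [hz n _ (Metric.ball_subset_ball hrε.le hy1), zero_div, zero_mul, sub_zero] at h2
      refine h2.trans (le_of_eq ?_)
      rw [div_pow]
      ring
    have h3 : ‖y 0 - t 0‖ / r < 1 := by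
      rw [div_lt_one hr0, ← dist_eq_norm]
      exact hy0
    have h4 : Tendsto (fun n : ℕ => 2 * B * (‖y 0 - t 0‖ / r) ^ (n + 1)) atTop (𝓝 (2 * B * 0)) :=
      ((tendsto_add_atTop_iff_nat 1).2
        (tendsto_pow_atTop_nhds_zero_of_lt_one (by positivity) h3)).const_mul _
    rw [mul_zero] at h4
    exact norm_le_zero_iff.1 (ge_of_tendsto' h4 h1)
  set n := Nat.find hex with hn
  have hn1 := Nat.find_spec hex
  have hn2 : ∀ j < n, ∀ x' ∈ Metric.ball (Fin.tail t) ε,
      fg_F f j (Fin.cons (t 0) x' : Fin (s + 1) → ℂ) = 0 := by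
    intro j hj x' hx'
    have h1 := Nat.find_min hex hj
    rw [not_not] at h1
    exact (fg_G_an hε (fg_F_an hfa j)).eqOn_zero_of_preconnected_of_eventuallyEq_zero
        (convex_ball (Fin.tail t) ε).isPreconnected (Metric.mem_ball_self hε) h1 hx'
  set K : ℝ := 2 * B / r ^ (n + 1) with hK
  have hδ0 : Tendsto (fun k => ‖x k 0 - t 0‖) atTop (𝓝 0) := by
    have h1 := (hx 0).sub_const (t 0)
    rw [sub_self] at h1
    simpa using h1.norm
  have hIH := IH (fun x' => fg_F f n (Fin.cons (t 0) x' : Fin (s + 1) → ℂ)) (Fin.tail t)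
    (fg_G_an hε (fg_F_an hfa n) _ (Metric.mem_ball_self hε)) hn1 (fun k => Fin.tail (x k))
    (fun l => hx l.succ) (fun l k => hne l.succ k)
    (fun C => by
      filter_upwards [hflag C] with k hk l l' hll
      exact hk l.succ l'.succ (Fin.succ_lt_succ_iff.2 hll))
    (fun k => ‖x k 0 - t 0‖) hδ0 (fun k => norm_nonneg _)
    (fun C => by
      filter_upwards [hflag C] with k hk l
      exact hk 0 l.succ (Fin.succ_pos l))
    ((n.factorial : ℝ) * (K + 1))
  refine ⟨n + 1, ?_⟩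
  have hxt : Tendsto x atTop (𝓝 t) := tendsto_pi_nhds.2 hx
  filter_upwards [hIH, hxt.eventually (Metric.ball_mem_nhds t hr0)] with k hk hkb
  have hy' : (Fin.cons (x k 0) (Fin.tail (x k)) : Fin (s + 1) → ℂ) = x k := Fin.cons_self_tail (x k)
  rw [← hy'] at hkb
  obtain ⟨hk0, hk1⟩ := (fg_cons_mem hr0).1 hkb
  have h1 := htaylor n _ hk1 (fun j hj => hn2 j hj _ (Metric.ball_subset_ball hrε.le hk1)) _ hk0
  rw [hy', ← hK] at h1
  set g : ℂ := fg_F f n (Fin.cons (t 0) (Fin.tail (x k)) : Fin (s + 1) → ℂ) with hg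
  set d : ℝ := ‖x k 0 - t 0‖ with hd
  have hd0 : 0 ≤ d := norm_nonneg _
  have hfac : (0 : ℝ) < n.factorial := by exact_mod_cast n.factorial_pos
  have h2 : (K + 1) * d ≤ ‖g‖ / n.factorial := by
    rw [le_div_iff₀ hfac]
    calc (K + 1) * d * n.factorial = n.factorial * (K + 1) * d := by ring
      _ ≤ ‖g‖ := hk
  have h3 : ‖g / (n.factorial : ℂ) * (x k 0 - t 0) ^ n‖ = ‖g‖ / n.factorial * d ^ n := by
    rw [norm_mul, norm_div, norm_pow, Complex.norm_natCast]
  have h4 : ‖g / (n.factorial : ℂ) * (x k 0 - t 0) ^ n‖ ≤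
      ‖f (x k)‖ + K * d ^ (n + 1) := by
    have h5 := norm_sub_norm_le (g / (n.factorial : ℂ) * (x k 0 - t 0) ^ n) (f (x k))
    rw [norm_sub_rev] at h5
    linarith
  rw [h3] at h4
  have h5 : (K + 1) * d * d ^ n ≤ ‖g‖ / n.factorial * d ^ n :=
    mul_le_mul_of_nonneg_right h2 (pow_nonneg hd0 n)
  have h6 : (K + 1) * d * d ^ n = K * d ^ (n + 1) + d ^ (n + 1) := by ring
  linarith

theorem fg_all (s : ℕ) : fg_P s := by
  induction s with
  | zero =>
    intro f t hf h0 x hx hne hflag δ hδ hδ0 hδC A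
    have h1 : ∀ y : Fin 0 → ℂ, y = t := fun y => Subsingleton.elim _ _
    have h2 : f t ≠ 0 := by
      intro h
      apply h0
      exact Eventually.of_forall fun y => by rw [h1 y]; exact h
    have h3 : Tendsto (fun k => A * δ k) atTop (𝓝 0) := by
      have := hδ.const_mul A
      rwa [mul_zero] at this
    filter_upwards [h3.eventually (gt_mem_nhds (norm_pos_iff.2 h2))] with k hk
    rw [h1 (x k)]
    exact hk.le
  | succ s ih =>
    intro f t hf h0 x hx hne hflag δ hδ hδ0 hδC A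
    obtain ⟨M, hM⟩ := fg_step ih f t hf h0 x hx hne hflag
    have hd : Tendsto (fun k => ‖x k 0 - t 0‖) atTop (𝓝 0) := by
      have h1 := (hx 0).sub_const (t 0)
      rw [sub_self] at h1
      simpa using h1.norm
    have h3 : Tendsto (fun k => |A| * ‖x k 0 - t 0‖) atTop (𝓝 0) := by
      have := hd.const_mul |A|
      rwa [mul_zero] at this
    filter_upwards [hM, hδC (M + 1), h3.eventually (gt_mem_nhds one_pos)] with k h1 h2 h4
    have h5 : δ k ≤ ‖x k 0 - t 0‖ ^ (M + 1) := h2 0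
    calc A * δ k ≤ |A| * δ k := mul_le_mul_of_nonneg_right (le_abs_self A) (hδ0 k)
      _ ≤ |A| * ‖x k 0 - t 0‖ ^ (M + 1) := mul_le_mul_of_nonneg_left h5 (abs_nonneg A)
      _ = (|A| * ‖x k 0 - t 0‖) * ‖x k 0 - t 0‖ ^ M := by ring
      _ ≤ 1 * ‖x k 0 - t 0‖ ^ M := mul_le_mul_of_nonneg_right h4.le (by positivity)
      _ ≤ ‖f (x k)‖ := by rw [one_mul]; exact h1

/-- M07b. Lower bound. PROOF. Induction on `s`. Let `f` be analytic on a closed polydisc `D = closedBall t ρ` (sup norm), bounded by `M`. For `x'` in the polydisc of the last `s` (in the induction step `Fin (s+1)`) coordinates let `f_n(x') = iteratedDeriv n (fun x₀ => f (Fin.cons x₀ x')) t₀`;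
this is analytic in `x'` (`∂_0 f = fderiv ℂ f x e₀` is analytic, iterate, `AnalyticAt.fderiv`). If all `f_n` vanish near `t'` then they vanish on the polydisc (identity theorem), so `f = 0` near `t` (one-variable Taylor series), excluded. Let `n` be minimal with
`f_n` not `= 0` near `t'`. For `n' < n` `f_n' = 0` on the polydisc. By `taylor_bound`, `‖f(x_k) - f_n(x'_k)/n! (x_{k,0} - t_0)^n‖ ≤ K ‖x_{k,0} - t_0‖^(n+1)`. If `s = 0` (one variable): `f_n ≠ 0` is a constant. If `s ≥ 1`: by induction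
`‖f_n(x'_k)‖ ≥ ‖x_{k,1} - t_1‖^M'` for large `k`, and `K n! ‖x_{k,0} - t_0‖ ≤ (1/2) ‖x_{k,1} - t_1‖^M'` by the flag condition with `C = M' + 1`; so `‖f(x_k)‖ ≥ ‖x_{k,0} - t_0‖^(n+2)`, say. -/
theorem flag_gen_lower (s : ℕ) (f : (Fin (s + 1) → ℂ) → ℂ) (t : Fin (s + 1) → ℂ) (hf : AnalyticAt ℂ f t) (h0 : ¬ ∀ᶠ x in 𝓝 t, f x = 0)
    (x : ℕ → Fin (s + 1) → ℂ) (hx : ∀ l, Tendsto (fun k => x k l) atTop (𝓝 (t l))) (hne : ∀ l k, x k l ≠ t l)
    (hflag : ∀ C : ℕ, ∀ᶠ k in atTop, ∀ l l', l < l' → ‖x k l - t l‖ ≤ ‖x k l' - t l'‖ ^ C) :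
    ∃ M : ℕ, ∀ᶠ k in atTop, ‖x k 0 - t 0‖ ^ M ≤ ‖f (x k)‖ := by
  exact fg_step (fg_all s) f t hf h0 x hx hne hflag

theorem flag_gen (s : ℕ) (f : (Fin s → ℂ) → ℂ) (t : Fin s → ℂ) (hf : AnalyticAt ℂ f t) (h0 : ¬ ∀ᶠ x in 𝓝 t, f x = 0)
    (x : ℕ → Fin s → ℂ) (hx : ∀ l, Tendsto (fun k => x k l) atTop (𝓝 (t l))) (hne : ∀ l k, x k l ≠ t l)
    (hflag : ∀ C : ℕ, ∀ᶠ k in atTop, ∀ l l', l < l' → ‖x k l - t l‖ ≤ ‖x k l' - t l'‖ ^ C) :
    ∀ᶠ k in atTop, f (x k) ≠ 0 := by
  cases s with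
  | zero =>
    refine Eventually.of_forall fun k h => h0 (Eventually.of_forall fun y => ?_)
    rw [← h]
    congr 1
    exact Subsingleton.elim _ _
  | succ s =>
    obtain ⟨M, hM⟩ := flag_gen_lower s f t hf h0 x hx hne hflag
    filter_upwards [hM] with k hk h
    rw [h, norm_zero] at hk
    have h1 : 0 < ‖x k 0 - t 0‖ ^ M := pow_pos (norm_pos_iff.2 (sub_ne_zero.2 (hne 0 k))) M
    linarith

end Pool.Agent.MSD
end

end

section

/-! # M11: the values at rational points (MP_f58a57_nt) -/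

open Complex ModularForm EisensteinSeries Filter
open UpperHalfPlane hiding I
open scoped Topology MatrixGroups Polynomial

noncomputable section

namespace Pool.Agent.MSD

theorem m11_two_le {s : ℕ} (x : Fin s → ℚ) : 2 ≤ Bd x := Nat.le_add_right _ _

/-- M11a. (Copy `pc_values` in `C3_PcValues.lean`; `cm_coordsM` instead of `cm_coords`.) -/
theorem pc_valuesM {s : ℕ} (d : ℕ) (hd : 0 < d) (Ω : ℂ) (hΩ : CMBase (rt d) Ω) (U V : MvPolynomial (Fin s) (KF d)) (R : ℝ) (κ : Fin 3) :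
    PC (X := {x : Fin s → ℚ // (∀ l, |(x l : ℝ)| ≤ R) ∧
        0 < (MvPolynomial.aeval (fun l => ((x l : ℚ) : ℂ)) U / MvPolynomial.aeval (fun l => ((x l : ℚ) : ℂ)) V : ℂ).im})
      (fun x => Bd x.1)
      (fun x => ![e2s (MvPolynomial.aeval (fun l => ((x.1 l : ℚ) : ℂ)) U / MvPolynomial.aeval (fun l => ((x.1 l : ℚ) : ℂ)) V) / Ω ^ 2,
        e4 (MvPolynomial.aeval (fun l => ((x.1 l : ℚ) : ℂ)) U / MvPolynomial.aeval (fun l => ((x.1 l : ℚ) : ℂ)) V) / Ω ^ 4,
        e6 (MvPolynomial.aeval (fun l => ((x.1 l : ℚ) : ℂ)) U / MvPolynomial.aeval (fun l => ((x.1 l : ℚ) : ℂ)) V) / Ω ^ 6] κ) := by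
  obtain ⟨C, hC⟩ := cm_coordsM d hd U V R
  have hC' : ∀ x : {x : Fin s → ℚ // (∀ l, |(x l : ℝ)| ≤ R) ∧
      0 < (MvPolynomial.aeval (fun l => ((x l : ℚ) : ℂ)) U / MvPolynomial.aeval (fun l => ((x l : ℚ) : ℂ)) V : ℂ).im},
      ∃ (q r : ℕ) (p : ℤ), 0 < q ∧ 0 < r ∧ q * r ≤ Bd x.1 ^ C ∧
      MvPolynomial.aeval (fun l => ((x.1 l : ℚ) : ℂ)) U / MvPolynomial.aeval (fun l => ((x.1 l : ℚ) : ℂ)) V =
        (q * rt d + p) / r := fun x => hC x.1 x.2.1 x.2.2
  choose q r p hq hr hqr happ using hC'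
  have hV := fun x => values_Gr d hd (q x) (r x) (p x) (hq x) (hr x)
  choose ρ hρ h4 h6 h2 using hV
  have hB : ∀ x : {x : Fin s → ℚ // (∀ l, |(x l : ℝ)| ≤ R) ∧
      0 < (MvPolynomial.aeval (fun l => ((x l : ℚ) : ℂ)) U / MvPolynomial.aeval (fun l => ((x l : ℚ) : ℂ)) V : ℂ).im},
      2 ≤ Bd x.1 := fun x => m11_two_le x.1
  have hN : ∀ x, q x * r x ≤ Bd x.1 ^ C := fun x => hqr x
  have hq' : ∀ x, q x ≤ Bd x.1 ^ C := fun x =>
    (Nat.le_mul_of_pos_right (q x) (hr x)).trans (hN x)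
  have hG := fun κ' => pc_GrFam hB (rt d) Ω hΩ κ' (fun x => q x * r x)
    (fun x => Nat.mul_pos (hq x) (hr x)) C hN ρ hρ
  have hI := fun w => pc_invFam hB q hq C w hq'
  fin_cases κ
  · have hE : PC (fun x : {x : Fin s → ℚ // (∀ l, |(x l : ℝ)| ≤ R) ∧
        0 < (MvPolynomial.aeval (fun l => ((x l : ℚ) : ℂ)) U / MvPolynomial.aeval (fun l => ((x l : ℚ) : ℂ)) V : ℂ).im} => Bd x.1)
        (fun _ => e2s (rt d) / Ω ^ 2) := PC.const hB _ (cm_e2 d hd Ω hΩ)
    have hM : PC (fun x : {x : Fin s → ℚ // (∀ l, |(x l : ℝ)| ≤ R) ∧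
        0 < (MvPolynomial.aeval (fun l => ((x l : ℚ) : ℂ)) U / MvPolynomial.aeval (fun l => ((x l : ℚ) : ℂ)) V : ℂ).im} => Bd x.1)
        (fun x => (((q x * r x : ℕ) : ℚ) : ℂ)) := by
      refine pc_ratFam _ C (fun x => ?_) (fun x => ?_)
      · rw [Rat.den_natCast]
        exact Nat.one_le_pow _ _ (Nat.lt_of_lt_of_le Nat.zero_lt_two (hB x))
      · rw [Rat.cast_natCast, abs_of_nonneg (Nat.cast_nonneg _)]
        exact_mod_cast hN x
    have hT := PC.mul hB (PC.add hB (hG 2) (PC.mul hB hM hE)) (hI 2)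
    refine (congrArg (PC _) ?_).mp hT
    funext x
    show _ = e2s (MvPolynomial.aeval (fun l => ((x.1 l : ℚ) : ℂ)) U /
      MvPolynomial.aeval (fun l => ((x.1 l : ℚ) : ℂ)) V) / Ω ^ 2
    rw [happ x, h2 x]
    have hΩ0 := hΩ.ne
    have hq0 : (q x : ℂ) ≠ 0 := Nat.cast_ne_zero.2 (hq x).ne'
    show (Gr 2 (rt d) (ρ x) / Ω ^ 2 + ((q x * r x : ℕ) : ℚ) * (e2s (rt d) / Ω ^ 2)) * (1 / (q x : ℂ) ^ 2) = _
    push_cast
    field_simp
  · have hT := PC.mul hB (hG 0) (hI 4)
    refine (congrArg (PC _) ?_).mp hT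
    funext x
    show _ = e4 (MvPolynomial.aeval (fun l => ((x.1 l : ℚ) : ℂ)) U /
      MvPolynomial.aeval (fun l => ((x.1 l : ℚ) : ℂ)) V) / Ω ^ 4
    rw [happ x, h4 x]
    have hΩ0 := hΩ.ne
    have hq0 : (q x : ℂ) ≠ 0 := Nat.cast_ne_zero.2 (hq x).ne'
    show (Gr 0 (rt d) (ρ x) / Ω ^ 4) * (1 / (q x : ℂ) ^ 4) = _
    field_simp
  · have hT := PC.mul hB (hG 1) (hI 6)
    refine (congrArg (PC _) ?_).mp hT
    funext x
    show _ = e6 (MvPolynomial.aeval (fun l => ((x.1 l : ℚ) : ℂ)) U /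
      MvPolynomial.aeval (fun l => ((x.1 l : ℚ) : ℂ)) V) / Ω ^ 6
    rw [happ x, h6 x]
    have hΩ0 := hΩ.ne
    have hq0 : (q x : ℂ) ≠ 0 := Nat.cast_ne_zero.2 (hq x).ne'
    show (Gr 1 (rt d) (ρ x) / Ω ^ 6) * (1 / (q x : ℂ) ^ 6) = _
    field_simp

/-- M11b. The coordinates (`pc_rat`, `PC.comp`). -/
theorem pc_coordM {s : ℕ} (R : ℝ) (l : Fin s) : PC (X := {x : Fin s → ℚ // ∀ l, |(x l : ℝ)| ≤ R}) (fun x => Bd x.1)
    (fun x => ((x.1 l : ℚ) : ℂ)) := by
  have h := PC.comp (X := {x : ℚ // |(x : ℝ)| ≤ R}) (B := fun x => 2 + x.1.den)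
    (Y := {x : Fin s → ℚ // ∀ l, |(x l : ℝ)| ≤ R}) (B' := fun x => Bd x.1)
    (fun x => ⟨x.1 l, x.2 l⟩) (fun x => m11_two_le x.1) (fun x => by
      show 2 + (x.1 l).den ≤ 2 + ∑ l, (x.1 l).den
      have h1 : (x.1 l).den ≤ ∑ l, (x.1 l).den :=
        Finset.single_le_sum (f := fun l => (x.1 l).den) (fun _ _ => Nat.zero_le _)
          (Finset.mem_univ l)
      omega) (pc_rat R)
  exact h

end Pool.Agent.MSD
end

end

section

/-! # G5: the final theorem (MP_f58a57_nt) -/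

open Complex ModularForm EisensteinSeries Filter
open UpperHalfPlane hiding I
open scoped Topology MatrixGroups

noncomputable section

namespace Pool.Agent.MSD

/-- arithmetic of the transcendence degree bound -/
theorem card_arith (c : Cardinal) (u p q r : ℕ) (h : ((u + 3 * p : ℕ) : Cardinal) ≤ c + (r : Cardinal))
    (h2 : r + q ≤ u) : ((3 * p + q : ℕ) : Cardinal) ≤ c := by
  rcases lt_or_ge c Cardinal.aleph0 with hc | hc
  · obtain ⟨k, rfl⟩ := Cardinal.lt_aleph0.1 hc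
    have : u + 3 * p ≤ k + r := by exact_mod_cast h
    have : 3 * p + q ≤ k := by omega
    exact_mod_cast this
  · exact (Cardinal.natCast_lt_aleph0 (n := 3 * p + q)).le.trans hc

/-- G5. Modular Schanuel (with derivatives and special points) for hyper-Liouville orbits. -/
theorem main {s n : ℕ} (d : Fin s → ℕ) (hd : ∀ l, 0 < d l) (t : Fin s → ℝ) (ht : HyperLiouville t)
    (z : Fin n → ℂ) (hz : ∀ i, 0 < (z i).im) (hind : ∀ i j, i ≠ j → ¬ GEquiv (z i) (z j))
    (hj : ∀ i, deriv jj (z i) ≠ 0)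
    (hor : ∀ i, (∃ l, InOrbit (d l) (t l) (z i)) ∨ ∃ l, z i ∈ KK (d l) ∧ ∃ i', InOrbit (d l) (t l) (z i')) :
    ((3 * Nat.card {i // ¬ IsSpecial (z i)} + Nat.card {i // IsSpecial (z i)} : ℕ) : Cardinal) ≤
      Algebra.trdeg ℚ (IntermediateField.adjoin ℚ
        (⋃ i, {z i, jj (z i), deriv jj (z i), deriv (deriv jj) (z i)} : Set ℂ)) := by
  classical
  choose Ω hΩ using fun l => cm_base (d l) (hd l)
  -- the `t l` are transcendental
  have htr : ∀ l, Transcendental ℚ (t l : ℂ) := by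
    intro l
    have h := alg_indep d hd t ht Ω hΩ (fun _ => Empty) (fun _ e => e.elim)
      (fun _ e => e.elim) (fun _ e => e.elim) (fun _ e => e.elim)
    exact h.transcendental ⟨l, none⟩
  have hns : ∀ i, ¬ IsSpecial (z i) → ∃ l, InOrbit (d l) (t l) (z i) := by
    intro i hi
    rcases hor i with h | ⟨l, h, _⟩
    · exact h
    · exact absurd (special_of_KK _ _ h) hi
  have hsp : ∀ i, IsSpecial (z i) → ∃ l, z i ∈ KK (d l) ∧ ∃ i', InOrbit (d l) (t l) (z i') := by
    intro i hi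
    rcases hor i with ⟨l, h⟩ | h
    · exact absurd hi (not_special _ _ (htr l) _ (hz i) h)
    · exact h
  choose f hf using fun i : {i // ¬ IsSpecial (z i)} => hns i.1 i.2
  choose g hg hg' using fun i : {i // IsSpecial (z i)} => hsp i.1 i.2
  choose m hmK hmz hmN using fun i : {i // ¬ IsSpecial (z i)} => orbit_mob _ _ _ (hz i.1) (hf i)
  have hginj : Function.Injective g := by
    intro i j hij
    by_contra hne
    have hne' : i.1 ≠ j.1 := fun h => hne (Subtype.ext h)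
    have h1 := hg i
    rw [hij] at h1
    exact hind _ _ hne' (equiv_of_KK _ _ _ (hz i.1) (hz j.1) h1 (hg j))
  let ι : Fin s → Type := fun l => {i : {i // ¬ IsSpecial (z i)} // f i = l}
  let h : ∀ l, ι l → Mob := fun l i => m i.1
  have hAI := alg_indep d hd t ht Ω hΩ ι h
    (fun l i => by obtain ⟨i, rfl⟩ := i; exact hmK i)
    (fun l i => by obtain ⟨i, rfl⟩ := i; exact hmN i)
    (fun l i j hij => by
      obtain ⟨i, rfl⟩ := i
      obtain ⟨j, hjl⟩ := j
      by_contra hne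
      have hne' : i.1 ≠ j.1 := by
        intro he
        apply hij
        have : i = j := Subtype.ext he
        subst this
        rfl
      have h1 := equiv_of_same_circle (d (f i)) (t (f i)) (m i) (m j) (hmK i) (hjl ▸ hmK j)
        (hmN i) (hjl ▸ hmN j) hne
      rw [hmz i, ← hjl, hmz j] at h1
      exact hind _ _ hne' h1)
  set U : Finset (Fin s) := Finset.univ.filter (fun l => ∃ i, InOrbit (d l) (t l) (z i)) with hU
  -- the finite family
  let J : Type := {l // l ∈ U} ⊕ ({i // ¬ IsSpecial (z i)} × Fin 3)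
  let φ : J → (Σ l, Option (ι l × Fin 3)) :=
    Sum.elim (fun l => ⟨l.1, none⟩) (fun q => ⟨f q.1, some (⟨q.1, rfl⟩, q.2)⟩)
  have hφ : Function.Injective φ := by
    rintro (a | ⟨i, κ⟩) (b | ⟨j, κ'⟩) hab
    · have := congrArg Sigma.fst hab
      simp only [φ, Sum.elim_inl] at this
      exact congrArg Sum.inl (Subtype.ext this)
    · exfalso
      have := congrArg (fun p : (Σ l, Option (ι l × Fin 3)) =>
        p.2.map (fun q => ((q.1.1 : {i // ¬ IsSpecial (z i)}), q.2))) hab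
      simp [φ] at this
    · exfalso
      have := congrArg (fun p : (Σ l, Option (ι l × Fin 3)) =>
        p.2.map (fun q => ((q.1.1 : {i // ¬ IsSpecial (z i)}), q.2))) hab
      simp [φ] at this
    · have := congrArg (fun p : (Σ l, Option (ι l × Fin 3)) =>
        p.2.map (fun q => ((q.1.1 : {i // ¬ IsSpecial (z i)}), q.2))) hab
      simp only [φ, Sum.elim_inr, Option.map_some, Option.some.injEq] at this
      rw [this]
  have hAI' := hAI.comp φ hφ
  set S : Set ℂ := ⋃ i, {z i, jj (z i), deriv jj (z i), deriv (deriv jj) (z i)} with hS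
  set G : Finset (Fin s) := Finset.univ.image g with hG
  set T : Finset ℂ := (U \ G).image (fun l => (Real.pi : ℂ) * Ω l ^ 2) with hT
  set L := IntermediateField.adjoin ℚ (S ∪ (T : Set ℂ)) with hL
  have hSL : ∀ x ∈ S, x ∈ L := fun x hx => IntermediateField.subset_adjoin _ _ (Or.inl hx)
  have hTL : ∀ x ∈ T, x ∈ L := fun x hx => IntermediateField.subset_adjoin _ _ (Or.inr hx)
  have hzS : ∀ i, z i ∈ S := fun i => Set.mem_iUnion.2 ⟨i, by simp⟩
  have hjS : ∀ i, jj (z i) ∈ S := fun i => Set.mem_iUnion.2 ⟨i, by simp⟩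
  have hj1S : ∀ i, deriv jj (z i) ∈ S := fun i => Set.mem_iUnion.2 ⟨i, by simp⟩
  have hj2S : ∀ i, deriv (deriv jj) (z i) ∈ S := fun i => Set.mem_iUnion.2 ⟨i, by simp⟩
  -- the relative algebraic closure
  set F : Subfield ℂ := (algebraicClosure L ℂ).toSubfield with hF
  have hFmem : ∀ x : ℂ, x ∈ F ↔ IsAlgebraic L x := by
    intro x
    rw [hF]
    exact mem_algebraicClosure_iff
  have hLF : ∀ x ∈ L, x ∈ F := fun x hx => (hFmem x).2 (isAlgebraic_algebraMap (⟨x, hx⟩ : L))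
  have hQF : ∀ x : ℂ, IsAlgebraic ℚ x → x ∈ F := fun x hx => (hFmem x).2 (hx.tower_top L)
  have hIF : I ∈ F := hQF _ isIntegral_rat_I.isAlgebraic
  have htF : ∀ l ∈ U, (t l : ℂ) ∈ F := by
    intro l hl
    obtain ⟨i, hi⟩ := (Finset.mem_filter.1 hl).2
    exact (hFmem _).2 (t_algebraic (d l) (t l) (z i) (hz i) hi L (hSL _ (hzS i))).1
  have hθ : ∀ l ∈ U, (Real.pi : ℂ) * Ω l ^ 2 ∈ F := by
    intro l hl
    by_cases hlG : l ∈ G
    · obtain ⟨i, -, rfl⟩ := Finset.mem_image.1 hlG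
      have hA : e4 (z i) / Ω (g i) ^ 4 ∈ F :=
        hQF _ (algebraic_e4 (d (g i)) (hd _) (Ω (g i)) (hΩ _) (z i) (hz i) (hg i))
      obtain ⟨h1, h2, h3, h4⟩ := jj_ne (z i) (hz i) (hj i)
      have hlink := link4 (z i) (Ω (g i)) (hz i) (hΩ _).ne (hj i)
      have hΩ0 := (hΩ (g i)).ne
      have hpi : (Real.pi : ℂ) ≠ 0 := by exact_mod_cast Real.pi_ne_zero
      have hA0 : e4 (z i) / Ω (g i) ^ 4 ≠ 0 := div_ne_zero h3 (pow_ne_zero _ hΩ0)
      have h1728 : jj (z i) - 1728 ≠ 0 := sub_ne_zero.2 h2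
      have hsq : ((Real.pi : ℂ) * Ω (g i) ^ 2) ^ 2 =
          -(deriv jj (z i)) ^ 2 / (4 * (e4 (z i) / Ω (g i) ^ 4) * jj (z i) * (jj (z i) - 1728)) := by
        rw [hlink]
        have := hj i
        field_simp
      have hmem : ((Real.pi : ℂ) * Ω (g i) ^ 2) ^ 2 ∈ F := by
        rw [hsq]
        have hj0F := hLF _ (hSL _ (hjS i))
        have hj1F := hLF _ (hSL _ (hj1S i))
        have h1728F : (1728 : ℂ) ∈ F := by
          have := natCast_mem F 1728
          exact_mod_cast this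
        have h4F : (4 : ℂ) ∈ F := by
          have := natCast_mem F 4
          exact_mod_cast this
        exact F.div_mem (F.neg_mem (F.pow_mem hj1F 2))
          (F.mul_mem (F.mul_mem (F.mul_mem h4F hA) hj0F) (F.sub_mem hj0F h1728F))
      exact (hFmem _).2 (IsAlgebraic.of_pow two_pos ((hFmem _).1 hmem))
    · exact hLF _ (hTL _ (Finset.mem_image.2 ⟨l, Finset.mem_sdiff.2 ⟨hl, hlG⟩, rfl⟩))
  have hfU : ∀ i, f i ∈ U := fun i => Finset.mem_filter.2 ⟨Finset.mem_univ _, _, hf i⟩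
  have hgU : ∀ i, g i ∈ U := fun i => Finset.mem_filter.2 ⟨Finset.mem_univ _, hg' i⟩
  have halg : ∀ j : J, IsAlgebraic L (famS (h (φ j).1) (Ω (φ j).1) (t (φ j).1 : ℂ) (φ j).2) := by
    rintro (l | ⟨i, κ⟩)
    · exact (hFmem _).1 (htF l.1 l.2)
    · rw [← hFmem]
      have hreal := famS_real (h (f i)) (Ω (f i)) (t (f i)) (⟨i, rfl⟩ : ι (f i)) κ (hmN i)
      change famS (h (f i)) (Ω (f i)) (t (f i) : ℂ) (some ((⟨i, rfl⟩ : ι (f i)), κ)) ∈ F
      rw [hreal]
      have hap : (h (f i) (⟨i, rfl⟩ : ι (f i))).app (t (f i) : ℂ) = z i := hmz i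
      rw [hap]
      have hy : ((z i).im : ℂ) ∈ F :=
        (hFmem _).2 (t_algebraic (d (f i)) (t (f i)) (z i) (hz i) (hf i) L (hSL _ (hzS i))).2
      obtain ⟨ha, hb, hc⟩ := link_mem F (z i) (Ω (f i)) (hz i) (hΩ _).ne (hj i)
        (hLF _ (hSL _ (hjS i))) (hLF _ (hSL _ (hj1S i))) (hLF _ (hSL _ (hj2S i))) hIF hy
        (hθ _ (hfU i))
      fin_cases κ
      · exact hc
      · exact ha
      · exact hb
  have hmain := trdeg_lower J _ hAI' S T halg
  have hcardJ : Fintype.card J = U.card + 3 * Nat.card {i // ¬ IsSpecial (z i)} := by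
    simp only [J, Fintype.card_sum, Fintype.card_prod, Fintype.card_fin, Fintype.card_coe,
      Nat.card_eq_fintype_card]
    ring
  rw [hcardJ] at hmain
  refine card_arith _ U.card _ _ T.card hmain ?_
  have hGU : G ⊆ U := by
    intro l hl
    obtain ⟨i, -, rfl⟩ := Finset.mem_image.1 hl
    exact hgU i
  have hGcard : G.card = Nat.card {i // IsSpecial (z i)} := by
    rw [hG, Finset.card_image_of_injective _ hginj, Nat.card_eq_fintype_card]
    rfl
  have hTcard : T.card ≤ (U \ G).card := Finset.card_image_le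
  rw [Finset.card_sdiff_of_subset hGU] at hTcard
  have := Finset.card_le_card hGU
  omega

end Pool.Agent.MSD
end

end

section

/-! # M12: algebraic independence (MP_f58a57_nt) -/

open Complex ModularForm EisensteinSeries Filter
open UpperHalfPlane hiding I
open scoped Topology MatrixGroups Polynomial

noncomputable section

namespace Pool.Agent.MSD

theorem m12_coord_analytic {s : ℕ} (t : Fin s → ℂ) (l : Fin s) : AnalyticAt ℂ (fun x : Fin s → ℂ => x l) t :=
  (ContinuousLinearMap.proj (R := ℂ) (φ := fun _ : Fin s => ℂ) l).analyticAt t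

theorem m12_aeval_analytic {s d : ℕ} (U : MvPolynomial (Fin s) (KF d)) (t : Fin s → ℂ) :
    AnalyticAt ℂ (fun x : Fin s → ℂ => MvPolynomial.aeval x U) t :=
  AnalyticAt.aeval_mvPolynomial (f := fun x : Fin s → ℂ => x) (m12_coord_analytic t) U

/-- M12. PROOF. As `alg_indep` in `G1_AlgIndep.lean` (copy). Let `P ∈ ℚ[...]`, `P(values at t) = 0`, `P ≠ 0`. Let `x k` be the approximations given by `HyperLiouville` for `C = k`. `F(y) = aeval (famMS ... y) P` is analytic at `t` (`AnalyticAt.aeval_mvPolynomial`, `famMS_analytic`), not eventually `0` by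
`famMS_indep`. `|F(x k)| ≤ K exp(-B^k)`, and by `PC.aeval`, `pc_valuesM`, `pc_coordM`, `famMS_real` the numbers `F(x k)` form a PC family, so by `PC.lower` they are `0` for large `k`; this contradicts `flag_gen`. -/
theorem alg_indepM {s r : ℕ} (bl : Fin s → Fin r) (d : Fin r → ℕ) (t : Fin s → ℝ) (ht : HyperLiouville t) (Ω : Fin r → ℂ)
    (hΩ : ∀ b, CMBase (rt (d b)) (Ω b)) (ι : Fin r → Type) [∀ b, Finite (ι b)]
    (U V : ∀ b, ι b → MvPolynomial (Fin s) (KF (d b))) (h : Sys bl d t ι U V) :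
    AlgebraicIndependent ℚ (famMS d Ω U V (fun l => (t l : ℂ))) := by
  rw [algebraicIndependent_iff]
  intro P hP
  by_contra hP0
  -- the approximations
  choose x hx0 hx1 hx2 using ht
  -- convergence
  have hBd : ∀ k, (2 : ℝ) ≤ Bd (x k) := fun k => by exact_mod_cast g1_two_le_Bd (x k)
  have hexp0 : Tendsto (fun k : ℕ => Real.exp (-(2 : ℝ) ^ k)) atTop (𝓝 0) := by
    apply Real.tendsto_exp_neg_atTop_nhds_zero.comp
    exact tendsto_pow_atTop_atTop_of_one_lt (by norm_num)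
  have hx1' : ∀ k l, |t l - x k l| < Real.exp (-(2 : ℝ) ^ k) := by
    intro k l
    refine lt_of_lt_of_le (hx1 k l) (Real.exp_le_exp.mpr ?_)
    have := pow_le_pow_left₀ (by norm_num : (0 : ℝ) ≤ 2) (hBd k) k
    linarith
  have hxt : ∀ l, Tendsto (fun k => ((x k l : ℚ) : ℝ)) atTop (𝓝 (t l)) := by
    intro l
    rw [tendsto_iff_dist_tendsto_zero]
    refine squeeze_zero (fun _ => dist_nonneg) (fun k => ?_) hexp0
    rw [dist_comm, Real.dist_eq]
    exact (hx1' k l).le
  have hxtC : ∀ l, Tendsto (fun k => ((x k l : ℚ) : ℂ)) atTop (𝓝 (t l : ℂ)) := by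
    intro l
    have := (Complex.continuous_ofReal.tendsto (t l)).comp (hxt l)
    refine this.congr (fun k => ?_)
    simp
  have hnorm : ∀ k l, ‖((x k l : ℚ) : ℂ) - (t l : ℂ)‖ = |t l - x k l| := by
    intro k l
    have h1 : ((x k l : ℚ) : ℂ) - (t l : ℂ) = ((((x k l : ℚ) : ℝ) - t l : ℝ) : ℂ) := by push_cast; rfl
    rw [h1, Complex.norm_real, Real.norm_eq_abs, abs_sub_comm]
  have hxtv : Tendsto (fun k => (fun l => ((x k l : ℚ) : ℂ))) atTop (𝓝 (fun l => (t l : ℂ))) :=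
    tendsto_pi_nhds.mpr hxtC
  -- radius
  obtain ⟨R, hR⟩ : ∃ R : ℝ, ∀ l, |t l| + 1 ≤ R := by
    obtain ⟨R, hR⟩ := (Set.finite_range (fun l => |t l| + 1)).bddAbove
    exact ⟨R, fun l => hR ⟨l, rfl⟩⟩
  have hgood1 : ∀ᶠ k in atTop, ∀ l, |((x k l : ℚ) : ℝ)| ≤ R := by
    rw [eventually_all]
    intro l
    have h1 : Tendsto (fun k => |((x k l : ℚ) : ℝ)|) atTop (𝓝 |t l|) := (hxt l).abs
    have h2 : |t l| < R := by linarith [hR l]
    filter_upwards [h1.eventually_lt_const h2] with k hk using hk.le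
  have hgood2 : ∀ᶠ k in atTop, ∀ b, ∀ i, 0 < (MvPolynomial.aeval (fun l => ((x k l : ℚ) : ℂ)) (U b i) /
      MvPolynomial.aeval (fun l => ((x k l : ℚ) : ℂ)) (V b i) : ℂ).im := by
    rw [eventually_all]
    intro b
    rw [eventually_all]
    intro i
    have hc : ContinuousAt (fun y : Fin s → ℂ => (MvPolynomial.aeval y (U b i) / MvPolynomial.aeval y (V b i) : ℂ).im)
        (fun l => (t l : ℂ)) :=
      Complex.continuous_im.continuousAt.comp
        (((m12_aeval_analytic (U b i) _).continuousAt).div ((m12_aeval_analytic (V b i) _).continuousAt) (h.ne b i))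
    have h1 := hc.tendsto.comp hxtv
    exact h1.eventually_const_lt (h.pos b i)
  -- the values
  set F : (Fin s → ℂ) → ℂ := fun y => MvPolynomial.aeval (famMS d Ω U V y) P with hF
  have hFt : F (fun l => (t l : ℂ)) = 0 := hP
  have hFa : AnalyticAt ℂ F (fun l => (t l : ℂ)) :=
    AnalyticAt.aeval_mvPolynomial (f := fun y => famMS d Ω U V y) (fun ν => famMS_analytic bl d t Ω ι U V h ν) P
  have hFd : DifferentiableAt ℂ F (fun l => (t l : ℂ)) := hFa.differentiableAt
  -- PC family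
  let X := {y : Fin s → ℚ // (∀ l, |((y l : ℚ) : ℝ)| ≤ R) ∧ ∀ b, ∀ i,
    0 < (MvPolynomial.aeval (fun l => ((y l : ℚ) : ℂ)) (U b i) / MvPolynomial.aeval (fun l => ((y l : ℚ) : ℂ)) (V b i) : ℂ).im}
  have hPC : PC (X := X) (fun y => Bd y.1) (fun y => F (fun l => ((y.1 l : ℚ) : ℂ))) := by
    refine PC.aeval (X := X) (B := fun y => Bd y.1) (fun y => g1_two_le_Bd y.1) P
      (fun ν y => famMS d Ω U V (fun l => ((y.1 l : ℚ) : ℂ)) ν) ?_
    rintro (l | ⟨b, i, κ⟩)
    · exact PC.comp (X := {x : Fin s → ℚ // ∀ l, |(x l : ℝ)| ≤ R}) (B := fun x => Bd x.1)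
        (f := fun y : X => ⟨y.1, y.2.1⟩) (fun y => g1_two_le_Bd y.1) (fun y => le_refl _) (pc_coordM R l)
    · have h1 := PC.comp (X := {x : Fin s → ℚ // (∀ l, |(x l : ℝ)| ≤ R) ∧
          0 < (MvPolynomial.aeval (fun l => ((x l : ℚ) : ℂ)) (U b i) / MvPolynomial.aeval (fun l => ((x l : ℚ) : ℂ)) (V b i) : ℂ).im})
        (B := fun x => Bd x.1) (B' := fun y : X => Bd y.1)
        (f := fun y : X => ⟨y.1, y.2.1, y.2.2 b i⟩) (fun y => g1_two_le_Bd y.1) (fun y => le_refl _)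
        (pc_valuesM (d b) (h.hd b) (Ω b) (hΩ b) (U b i) (V b i) R κ)
      convert h1 using 1
      funext y
      have e : (fun l => ((y.1 l : ℚ) : ℂ)) = (fun l => (((y.1 l : ℚ) : ℝ) : ℂ)) := by
        funext l
        simp
      rw [e]
      exact famMS_real d Ω U V (fun l => ((y.1 l : ℚ) : ℝ)) b i κ _ rfl
  obtain ⟨C, hC⟩ := PC.lower (X := X) (B := fun y => Bd y.1) (fun y => g1_two_le_Bd y.1) hPC
  -- upper bound
  have hO := hFd.isBigO_sub
  obtain ⟨K, hKpos, hKb⟩ := hO.exists_pos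
  have hup := hxtv.eventually hKb.bound
  have hzero : ∀ᶠ k in atTop, F (fun l => ((x k l : ℚ) : ℂ)) = 0 := by
    filter_upwards [hup, hgood1, hgood2, g1_exp C K] with k hk hk1 hk2 hk3
    rw [hFt, sub_zero] at hk
    have h1 : ‖(fun l => ((x k l : ℚ) : ℂ)) - (fun l => (t l : ℂ))‖ ≤ Real.exp (-(Bd (x k) : ℝ) ^ k) := by
      rw [pi_norm_le_iff_of_nonneg (Real.exp_pos _).le]
      intro l
      rw [Pi.sub_apply, hnorm k l]
      exact (hx1 k l).le
    have h2 : ‖F (fun l => ((x k l : ℚ) : ℂ))‖ < Real.exp (-(Bd (x k) : ℝ) ^ C) :=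
      lt_of_le_of_lt (hk.trans (mul_le_mul_of_nonneg_left h1 hKpos.le)) (hk3 (Bd (x k)) (g1_two_le_Bd _))
    rcases hC ⟨x k, hk1, hk2⟩ with h3 | h3
    · exact h3
    · exact absurd h2 (not_lt.mpr h3)
  -- nonvanishing
  have hPne : MvPolynomial.map (algebraMap ℚ ℂ) P ≠ 0 := by
    intro h0
    apply hP0
    exact MvPolynomial.map_injective _ (algebraMap ℚ ℂ).injective (by rw [h0, map_zero])
  have hFne : ¬ ∀ᶠ y in 𝓝 (fun l => (t l : ℂ)), F y = 0 := by
    intro hev
    apply hPne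
    apply famMS_indep bl d t Ω (fun b => (hΩ b).ne) ι U V h
    filter_upwards [hev] with y hy
    rw [MvPolynomial.eval_map]
    exact hy
  have hnv := flag_gen s F (fun l => (t l : ℂ)) hFa hFne
    (fun k l => ((x k l : ℚ) : ℂ)) hxtC (by
      intro l k he
      have := hx0 k l
      rw [← hnorm k l, he, sub_self, norm_zero] at this
      exact lt_irrefl _ this) (by
      intro C'
      have hle : ∀ᶠ k in atTop, ∀ l, |t l - x k l| ≤ 1 := by
        refine Eventually.of_forall (fun k l => ?_)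
        refine (hx1' k l).le.trans ?_
        rw [Real.exp_le_one_iff]
        have : (0 : ℝ) < 2 ^ k := by positivity
        linarith
      filter_upwards [hle, eventually_ge_atTop C'] with k hk1 hk2 l l' hll
      simp only [hnorm]
      refine (hx2 k l l' hll).le.trans ?_
      exact pow_le_pow_of_le_one (abs_nonneg _) (hk1 l') hk2)
  obtain ⟨k, hk1, hk2⟩ := (hzero.and hnv).exists
  exact hk2 hk1

end Pool.Agent.MSD
end

end

section

/-! # M16: the theorem for the fields K(t) (MP_f58a57_nt) -/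

open Complex ModularForm EisensteinSeries Filter
open UpperHalfPlane hiding I
open scoped Topology MatrixGroups Polynomial

noncomputable section

namespace Pool.Agent.MSD

/-- algebraic over a smaller field -/
theorem m16_alg_mono {K₁ K₂ : IntermediateField ℚ ℂ} (h : K₁ ≤ K₂) {x : ℂ} (hx : IsAlgebraic K₁ x) :
    IsAlgebraic K₂ x := by
  let _ := (IntermediateField.inclusion h).toRingHom.toAlgebra
  have : IsScalarTower K₁ K₂ ℂ := IsScalarTower.of_algebraMap_eq fun _ => rfl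
  exact hx.tower_top K₂

/-- M16. PROOF (compare `main` in `G5_Final.lean`). Take `Ω b` from `cm_base`. The `t l` are algebraically independent: `alg_indepM` with `ι b = Empty`. For nonspecial `i` choose a block `f i` with `z i ∈ FB (f i)` and `U i, V i` from `mem_rep`; let `ι b = {i // nonspecial, f i = b}`. `Sys` holds: `nc` because `U = c V` gives `z i = c ∈ KF`,
special (`special_of_KK`, `mem_KF`); `rel` by `gequiv_of_prel`, `hind`. `alg_indepM`: the `s + 3 m₁` numbers `famMS ... t` are algebraically independent. For special `i` choose a block `g i` with `z i ∈ FB (g i)` and a nonspecial entry there; `z i ∈ KK (d (g i))` (`mem_KK_of_algebraic`, `special_algebraic`), so `g` is injective (`equiv_of_KK`).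
Let `Uu` be the finite set of blocks `b` that contain a nonspecial entry `k b` (`z (k b) ∈ FB b`), `G = image g ⊆ Uu`, `card G = m₂`. `z (k b)` is transcendental (otherwise in `KK`, special). By `FB_algebraic` and `exchange` there is `l_b` with `bl l_b = b` and `t l_b` algebraic over `ℚ(z (k b), t l : bl l = b, l ≠ l_b)`.
Let `S` be the set of all `z i, j, j', j''` and `T = {π Ω_b² : b ∈ Uu \ G} ∪ {t l : l ∉ {l_b : b ∈ Uu}}`, `card T ≤ card Uu - m₂ + s - card Uu` (`b ↦ l_b` is injective). Let `F` be the relative algebraic closure of `ℚ(S ∪ T)`: all `t l ∈ F` (if `l = l_b`: the other `t l'` with `bl l' = b` are in `T`), `π Ω_b² ∈ F` for `b ∈ Uu`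
(for `b ∈ G` from `link4` at the special entry, as in `main`), `(z i).im ∈ F` (`im_mem`), and `link_mem` gives all members of the family in `F` (`famMS_real`). `trdeg_lower` and `card_arith` (with `u = s`, `p = m₁`, `q = m₂`, `r = card T`, `r + q ≤ s`). -/
theorem main2 {s r n : ℕ} (bl : Fin s → Fin r) (d : Fin r → ℕ) (hd : ∀ b, 0 < d b) (t : Fin s → ℝ) (ht : HyperLiouville t)
    (z : Fin n → ℂ) (hz : ∀ i, 0 < (z i).im) (hind : ∀ i j, i ≠ j → ¬ GEquiv (z i) (z j))
    (hj : ∀ i, deriv jj (z i) ≠ 0)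
    (hor : ∀ i, ∃ b, z i ∈ FB bl d t b ∧ ∃ k, z k ∈ FB bl d t b ∧ ¬ IsSpecial (z k)) :
    ((3 * Nat.card {i // ¬ IsSpecial (z i)} + Nat.card {i // IsSpecial (z i)} : ℕ) : Cardinal) ≤
      Algebra.trdeg ℚ (IntermediateField.adjoin ℚ
        (⋃ i, {z i, jj (z i), deriv jj (z i), deriv (deriv jj) (z i)} : Set ℂ)) := by
  classical
  choose Ω hΩ using fun b => cm_base (d b) (hd b)
  -- the `t l` are algebraically independent
  have htA : AlgebraicIndependent ℚ (fun l => (t l : ℂ)) := by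
    have h0 := alg_indepM bl d t ht Ω hΩ (fun _ => Empty) (fun _ e => e.elim) (fun _ e => e.elim)
      ⟨hd, fun _ e => e.elim, fun _ e => e.elim, fun _ e => e.elim, fun _ e => e.elim,
        fun _ e => e.elim, fun _ e => e.elim⟩
    exact h0.comp Sum.inl Sum.inl_injective
  choose β hβz kk hkk hkn using hor
  have hKK : ∀ b k, z k ∈ FB bl d t b → IsAlgebraic ℚ (z k) → z k ∈ KK (d b) := fun b k h1 h2 =>
    mem_KK_of_algebraic bl d t htA b (z k) h1 h2
  choose U V hUv hVv hVne hrep using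
    fun i : {i // ¬ IsSpecial (z i)} => mem_rep bl d t (β i.1) (z i.1) (hβz i.1)
  let ι : Fin r → Type := fun b => {i : {i // ¬ IsSpecial (z i)} // β i.1 = b}
  let Uu : ∀ b, ι b → MvPolynomial (Fin s) (KF (d b)) := fun b i => i.2 ▸ U i.1
  let Vv : ∀ b, ι b → MvPolynomial (Fin s) (KF (d b)) := fun b i => i.2 ▸ V i.1
  have hV' : ∀ b (i : ι b), MvPolynomial.aeval (fun l => (t l : ℂ)) (Vv b i) ≠ 0 := by
    intro b i
    obtain ⟨i, rfl⟩ := i
    exact hVne i
  have hrep' : ∀ b (i : ι b), z i.1.1 = MvPolynomial.aeval (fun l => (t l : ℂ)) (Uu b i) /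
      MvPolynomial.aeval (fun l => (t l : ℂ)) (Vv b i) := by
    intro b i
    obtain ⟨i, rfl⟩ := i
    exact hrep i
  have hsys : Sys bl d t ι Uu Vv := by
    refine ⟨hd, ?_, ?_, ?_, ?_, hV', ?_⟩
    · intro b i
      obtain ⟨i, rfl⟩ := i
      exact hUv i
    · intro b i
      obtain ⟨i, rfl⟩ := i
      exact hVv i
    · rintro b i ⟨c, hc⟩
      apply i.1.2
      apply special_of_KK (d b)
      rw [← mem_KF, hrep' b i, hc, map_mul, MvPolynomial.aeval_C, mul_div_cancel_right₀ _ (hV' b i)]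
      exact c.2
    · intro b i j hij hrel
      have h1 := gequiv_of_prel (fun l => (t l : ℂ)) (Uu b i) (Vv b i) (Uu b j) (Vv b j) (hV' b i)
        (hV' b j) (by rw [← hrep' b i]; exact hz _) hrel
      rw [← hrep' b i, ← hrep' b j] at h1
      refine hind _ _ (fun h => hij ?_) h1
      exact Subtype.ext (Subtype.ext h)
    · intro b i
      rw [← hrep' b i]
      exact hz _
  have hAI := alg_indepM bl d t ht Ω hΩ ι Uu Vv hsys
  -- the finite family
  let J : Type := Fin s ⊕ ({i // ¬ IsSpecial (z i)} × Fin 3)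
  let φ : J → Fin s ⊕ (Σ b, ι b × Fin 3) :=
    Sum.map id (fun q => ⟨β q.1.1, (⟨q.1, rfl⟩, q.2)⟩)
  have hφ : Function.Injective φ := by
    refine Function.injective_id.sumMap ?_
    rintro ⟨i, κ⟩ ⟨j, κ'⟩ hab
    have := congrArg (fun p : (Σ b, ι b × Fin 3) =>
      ((p.2.1.1 : {i // ¬ IsSpecial (z i)}), p.2.2)) hab
    exact this
  have hAI' := hAI.comp φ hφ
  -- special points
  have hsp : ∀ i : {i // IsSpecial (z i)}, z i.1 ∈ KK (d (β i.1)) := fun i =>
    hKK _ _ (hβz i.1) (special_algebraic _ i.2)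
  let g : {i // IsSpecial (z i)} → Fin r := fun i => β i.1
  have hginj : Function.Injective g := by
    intro i j hij
    by_contra hne
    have hne' : i.1 ≠ j.1 := fun h => hne (Subtype.ext h)
    have h1 := hsp i
    have hij' : β i.1 = β j.1 := hij
    rw [hij'] at h1
    exact hind _ _ hne' (equiv_of_KK _ _ _ (hz i.1) (hz j.1) h1 (hsp j))
  -- blocks with a nonspecial entry
  set B : Finset (Fin r) := Finset.univ.filter (fun b => ∃ k, z k ∈ FB bl d t b ∧ ¬ IsSpecial (z k))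
    with hB
  have hex : ∀ b : {b // b ∈ B}, ∃ l, bl l = b.1 ∧ ∃ k, IsAlgebraic (IntermediateField.adjoin ℚ
      (insert (z k) ((fun l => (t l : ℂ)) '' ({l' | bl l' = b.1} \ {l})))) (t l : ℂ) := by
    rintro ⟨b, hb⟩
    obtain ⟨k, hk, hkn'⟩ := (Finset.mem_filter.1 hb).2
    have htr : Transcendental ℚ (z k) := fun h => hkn' (special_of_KK _ _ (hKK b k hk h))
    have hset : ((Finset.univ.filter (fun l => bl l = b) : Finset (Fin s)) : Set (Fin s)) =
        {l | bl l = b} := by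
      ext l
      simp
    obtain ⟨l, hl, hl2⟩ := exchange (fun l => (t l : ℂ)) (z k) htr
      (Finset.univ.filter (fun l => bl l = b)) (by rw [hset]; exact FB_algebraic bl d t b (z k) hk)
    rw [hset] at hl2
    exact ⟨l, (Finset.mem_filter.1 hl).2, k, hl2⟩
  choose lam hlam kb hkb using hex
  have hlaminj : Function.Injective lam := by
    intro b b' h
    apply Subtype.ext
    rw [← hlam b, ← hlam b', h]
  set E : Finset (Fin s) := Finset.univ.image lam with hE
  have hEcard : E.card = B.card := by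
    rw [hE, Finset.card_image_of_injective _ hlaminj, Finset.card_univ, Fintype.card_coe]
  set G : Finset (Fin r) := Finset.univ.image g with hG
  have hgB : ∀ i, g i ∈ B := fun i =>
    Finset.mem_filter.2 ⟨Finset.mem_univ _, kk i.1, hkk i.1, hkn i.1⟩
  have hfB : ∀ i : {i // ¬ IsSpecial (z i)}, β i.1 ∈ B := fun i =>
    Finset.mem_filter.2 ⟨Finset.mem_univ _, i.1, hβz i.1, i.2⟩
  have hGB : G ⊆ B := by
    intro l hl
    obtain ⟨i, -, rfl⟩ := Finset.mem_image.1 hl
    exact hgB i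
  set S : Set ℂ := ⋃ i, {z i, jj (z i), deriv jj (z i), deriv (deriv jj) (z i)} with hS
  set T : Finset ℂ := (B \ G).image (fun b => (Real.pi : ℂ) * Ω b ^ 2) ∪
    (Finset.univ \ E).image (fun l => (t l : ℂ)) with hT
  set L := IntermediateField.adjoin ℚ (S ∪ (T : Set ℂ)) with hL
  have hSL : ∀ x ∈ S, x ∈ L := fun x hx => IntermediateField.subset_adjoin _ _ (Or.inl hx)
  have hTL : ∀ x ∈ T, x ∈ L := fun x hx => IntermediateField.subset_adjoin _ _ (Or.inr hx)
  have hzS : ∀ i, z i ∈ S := fun i => Set.mem_iUnion.2 ⟨i, by simp⟩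
  have hjS : ∀ i, jj (z i) ∈ S := fun i => Set.mem_iUnion.2 ⟨i, by simp⟩
  have hj1S : ∀ i, deriv jj (z i) ∈ S := fun i => Set.mem_iUnion.2 ⟨i, by simp⟩
  have hj2S : ∀ i, deriv (deriv jj) (z i) ∈ S := fun i => Set.mem_iUnion.2 ⟨i, by simp⟩
  -- the relative algebraic closure
  set F : Subfield ℂ := (algebraicClosure L ℂ).toSubfield with hF
  have hFmem : ∀ x : ℂ, x ∈ F ↔ IsAlgebraic L x := by
    intro x
    rw [hF]
    exact mem_algebraicClosure_iff
  have hLF : ∀ x ∈ L, x ∈ F := fun x hx => (hFmem x).2 (isAlgebraic_algebraMap (⟨x, hx⟩ : L))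
  have hQF : ∀ x : ℂ, IsAlgebraic ℚ x → x ∈ F := fun x hx => (hFmem x).2 (hx.tower_top L)
  have hIF : I ∈ F := hQF _ isIntegral_rat_I.isAlgebraic
  have htE : ∀ l, l ∉ E → (t l : ℂ) ∈ L := by
    intro l hl
    refine hTL _ (Finset.mem_union_right _ (Finset.mem_image.2 ⟨l, ?_, rfl⟩))
    exact Finset.mem_sdiff.2 ⟨Finset.mem_univ _, hl⟩
  have htF : ∀ l, (t l : ℂ) ∈ F := by
    intro l
    by_cases hl : l ∈ E
    · obtain ⟨b, -, rfl⟩ := Finset.mem_image.1 hl
      refine (hFmem _).2 (m16_alg_mono ?_ (hkb b))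
      rw [IntermediateField.adjoin_le_iff]
      rintro x (rfl | ⟨l', ⟨hl1, hl2⟩, rfl⟩)
      · exact hSL _ (hzS _)
      · apply htE
        intro hmem
        obtain ⟨b', -, hb'⟩ := Finset.mem_image.1 hmem
        apply hl2
        have h1 : bl l' = b'.1 := by rw [← hb', hlam b']
        have h2 : b' = b := Subtype.ext (h1.symm.trans hl1)
        rw [Set.mem_singleton_iff, ← hb', h2]
    · exact hLF _ (htE l hl)
  have hθ : ∀ b ∈ B, (Real.pi : ℂ) * Ω b ^ 2 ∈ F := by
    intro l hl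
    by_cases hlG : l ∈ G
    · obtain ⟨i, -, rfl⟩ := Finset.mem_image.1 hlG
      have hA : e4 (z i) / Ω (g i) ^ 4 ∈ F :=
        hQF _ (algebraic_e4 (d (g i)) (hd _) (Ω (g i)) (hΩ _) (z i) (hz i) (hsp i))
      obtain ⟨h1, h2, h3, h4⟩ := jj_ne (z i) (hz i) (hj i)
      have hlink := link4 (z i) (Ω (g i)) (hz i) (hΩ _).ne (hj i)
      have hΩ0 := (hΩ (g i)).ne
      have hpi : (Real.pi : ℂ) ≠ 0 := by exact_mod_cast Real.pi_ne_zero
      have hA0 : e4 (z i) / Ω (g i) ^ 4 ≠ 0 := div_ne_zero h3 (pow_ne_zero _ hΩ0)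
      have h1728 : jj (z i) - 1728 ≠ 0 := sub_ne_zero.2 h2
      have hsq : ((Real.pi : ℂ) * Ω (g i) ^ 2) ^ 2 =
          -(deriv jj (z i)) ^ 2 / (4 * (e4 (z i) / Ω (g i) ^ 4) * jj (z i) * (jj (z i) - 1728)) := by
        rw [hlink]
        have := hj i
        field_simp
      have hmem : ((Real.pi : ℂ) * Ω (g i) ^ 2) ^ 2 ∈ F := by
        rw [hsq]
        have hj0F := hLF _ (hSL _ (hjS i))
        have hj1F := hLF _ (hSL _ (hj1S i))
        have h1728F : (1728 : ℂ) ∈ F := by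
          have := natCast_mem F 1728
          exact_mod_cast this
        have h4F : (4 : ℂ) ∈ F := by
          have := natCast_mem F 4
          exact_mod_cast this
        exact F.div_mem (F.neg_mem (F.pow_mem hj1F 2))
          (F.mul_mem (F.mul_mem (F.mul_mem h4F hA) hj0F) (F.sub_mem hj0F h1728F))
      exact (hFmem _).2 (IsAlgebraic.of_pow two_pos ((hFmem _).1 hmem))
    · exact hLF _ (hTL _ (Finset.mem_union_left _
        (Finset.mem_image.2 ⟨l, Finset.mem_sdiff.2 ⟨hl, hlG⟩, rfl⟩)))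
  have halg : ∀ j : J, IsAlgebraic L (famMS d Ω Uu Vv (fun l => (t l : ℂ)) (φ j)) := by
    rintro (l | ⟨i, κ⟩)
    · exact (hFmem _).1 (htF l)
    · rw [← hFmem]
      have hreal := famMS_real d Ω Uu Vv t (β i.1) (⟨i, rfl⟩ : ι (β i.1)) κ (z i.1)
        (hrep' (β i.1) (⟨i, rfl⟩ : ι (β i.1)))
      change famMS d Ω Uu Vv (fun l => (t l : ℂ))
        (Sum.inr ⟨β i.1, ((⟨i, rfl⟩ : ι (β i.1)), κ)⟩) ∈ F
      rw [hreal]
      have hy : ((z i).im : ℂ) ∈ F := im_mem bl d t (β i.1) (z i.1) (hβz i.1) F hIF hQF htF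
      obtain ⟨ha, hb, hc⟩ := link_mem F (z i) (Ω (β i.1)) (hz i) (hΩ _).ne (hj i)
        (hLF _ (hSL _ (hjS i))) (hLF _ (hSL _ (hj1S i))) (hLF _ (hSL _ (hj2S i))) hIF hy
        (hθ _ (hfB i))
      fin_cases κ
      · exact hc
      · exact ha
      · exact hb
  have hmain := trdeg_lower J _ hAI' S T halg
  have hcardJ : Fintype.card J = s + 3 * Nat.card {i // ¬ IsSpecial (z i)} := by
    simp only [J, Fintype.card_sum, Fintype.card_prod, Fintype.card_fin,
      Nat.card_eq_fintype_card]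
    ring
  rw [hcardJ] at hmain
  refine card_arith _ s _ _ T.card hmain ?_
  have hGcard : G.card = Nat.card {i // IsSpecial (z i)} := by
    rw [hG, Finset.card_image_of_injective _ hginj, Nat.card_eq_fintype_card]
    rfl
  have hTcard : T.card ≤ (B \ G).card + (Finset.univ \ E : Finset (Fin s)).card :=
    (Finset.card_union_le _ _).trans (add_le_add Finset.card_image_le Finset.card_image_le)
  rw [Finset.card_sdiff_of_subset hGB, Finset.card_sdiff_of_subset (Finset.subset_univ E),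
    Finset.card_univ, Fintype.card_fin, hEcard] at hTcard
  have h1 := Finset.card_le_card hGB
  have h2 : E.card ≤ s := by
    have := Finset.card_le_univ E
    rwa [Fintype.card_fin] at this
  omega

end Pool.Agent.MSD
end

end
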