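import Mathlib
import Pool.Agent.Lib.MP_f58a57_nt.FK.K011
import Pool.Agent.Lib.MP_f58a57_nt.Q00_Defs

section

/-! # G6: hyper-Liouville systems form a dense G-delta set (MP_f58a57_nt) -/

open Complex ModularForm EisensteinSeries Filter
open UpperHalfPlane hiding I
open scoped Topology MatrixGroups

noncomputable section

namespace Pool.Agent.MSD

/-- the open set for given `C` and `x` -/
def G6U {s : ℕ} (C : ℕ) (x : Fin s → ℚ) : Set (Fin s → ℝ) :=
  (⋂ l, {t | 0 < |t l - x l|}) ∩ ((⋂ l, {t | |t l - x l| < Real.exp (-(Bd x : ℝ) ^ C)}) ∩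
    ⋂ l, ⋂ l', ⋂ (_ : l < l'), {t | |t l - x l| < |t l' - x l'| ^ C})

theorem G6U_open {s : ℕ} (C : ℕ) (x : Fin s → ℚ) : IsOpen (G6U C x) := by
  unfold G6U
  refine IsOpen.inter ?_ (IsOpen.inter ?_ ?_)
  · refine isOpen_iInter_of_finite fun l => ?_
    exact isOpen_lt continuous_const (by fun_prop)
  · refine isOpen_iInter_of_finite fun l => ?_
    exact isOpen_lt (by fun_prop) continuous_const
  · refine isOpen_iInter_of_finite fun l => isOpen_iInter_of_finite fun l' =>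
      isOpen_iInter_of_finite fun _ => ?_
    exact isOpen_lt (by fun_prop) (by fun_prop)

theorem G6_eq (s : ℕ) : {t : Fin s → ℝ | HyperLiouville t} = ⋂ C : ℕ, ⋃ x : Fin s → ℚ, G6U C x := by
  ext t
  simp only [Set.mem_ofPred_eq, HyperLiouville, Set.mem_iInter, Set.mem_iUnion, G6U, Set.mem_inter_iff]

theorem G6_dense (s C : ℕ) : Dense (⋃ x : Fin s → ℚ, G6U C x) := by
  rw [Metric.dense_iff]
  intro t0 r hr
  have hex : ∀ l, ∃ q : ℚ, t0 l < q ∧ (q : ℝ) < t0 l + r / 2 := fun l =>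
    exists_rat_btwn (by linarith)
  choose x hx1 hx2 using hex
  set E : ℝ := Real.exp (-(Bd x : ℝ) ^ C) with hE
  have hEpos : 0 < E := Real.exp_pos _
  set ee : ℝ := min (r / 4) (min (1 / 2) (E / 2)) with hee
  have hee0 : 0 < ee := lt_min (by linarith) (lt_min (by norm_num) (by linarith))
  have hee1 : ee ≤ r / 4 := min_le_left _ _
  have hee2 : ee ≤ 1 / 2 := (min_le_right _ _).trans (min_le_left _ _)
  have hee3 : ee ≤ E / 2 := (min_le_right _ _).trans (min_le_right _ _)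
  set K : Fin s → ℕ := fun l => (C + 1) ^ (s - (l : ℕ)) with hK
  have hK1 : ∀ l, 1 ≤ K l := fun l => Nat.one_le_pow _ _ (Nat.succ_pos _)
  have hKee : ∀ l, ee ^ K l ≤ ee := by
    intro l
    calc ee ^ K l ≤ ee ^ 1 := pow_le_pow_of_le_one hee0.le (by linarith) (hK1 l)
      _ = ee := pow_one _
  have hKpos : ∀ l, 0 < ee ^ K l := fun l => pow_pos hee0 _
  refine ⟨fun l => x l + ee ^ K l, ?_, ?_⟩
  · rw [Metric.mem_ball, dist_pi_lt_iff hr]
    intro l
    rw [Real.dist_eq, abs_lt]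
    have h1 := hx1 l
    have h2 := hx2 l
    have h3 := hKee l
    have h4 := hKpos l
    constructor <;> linarith
  · rw [Set.mem_iUnion]
    refine ⟨x, ?_, ?_, ?_⟩
    · rw [Set.mem_iInter]
      intro l
      show 0 < |(x l : ℝ) + ee ^ K l - x l|
      rw [add_sub_cancel_left, abs_of_pos (hKpos l)]
      exact hKpos l
    · rw [Set.mem_iInter]
      intro l
      show |(x l : ℝ) + ee ^ K l - x l| < E
      rw [add_sub_cancel_left, abs_of_pos (hKpos l)]
      have := hKee l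
      linarith
    · simp only [Set.mem_iInter]
      intro l l' hl
      show |(x l : ℝ) + ee ^ K l - x l| < |(x l' : ℝ) + ee ^ K l' - x l'| ^ C
      rw [add_sub_cancel_left, add_sub_cancel_left, abs_of_pos (hKpos l), abs_of_pos (hKpos l'),
        ← pow_mul]
      refine pow_lt_pow_right_of_lt_one₀ hee0 (by linarith) ?_
      have h5 : (l : ℕ) < (l' : ℕ) := hl
      have h6 : s - (l' : ℕ) + 1 ≤ s - (l : ℕ) := by omega
      calc K l' * C < K l' * (C + 1) := Nat.mul_lt_mul_of_pos_left (Nat.lt_succ_self _) (hK1 l')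
        _ = (C + 1) ^ (s - (l' : ℕ) + 1) := by rw [pow_succ]
        _ ≤ (C + 1) ^ (s - (l : ℕ)) := Nat.pow_le_pow_right (Nat.succ_pos _) h6

/-- G6. PROOF. For fixed `C` the set of `t` for which some `x : Fin s → ℚ` satisfies the three (strict, open) conditions is open; it is dense: in every box choose rational
`x l`, and `t l = x l + u l` with `0 < u (s-1)` very small and `u l = u (l+1) ^ K` with `K` large... (for `l < l'`: `u l < u l' ^ C`). The intersection over `C` is a dense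
`G_δ` by Baire. -/
theorem dense_hyperLiouville (s : ℕ) : IsGδ {t : Fin s → ℝ | HyperLiouville t} ∧ Dense {t : Fin s → ℝ | HyperLiouville t} := by
  rw [G6_eq]
  have ho : ∀ C : ℕ, IsOpen (⋃ x : Fin s → ℚ, G6U C x) := fun C =>
    isOpen_iUnion fun x => G6U_open C x
  exact ⟨IsGδ.iInter_of_isOpen ho, dense_iInter_of_isOpen_nat ho (G6_dense s)⟩

end Pool.Agent.MSD
end

end

section

/-! # Q16: independence of the normalised family (MP_f58a57_nt) -/

open Complex ModularForm EisensteinSeries Filter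
open UpperHalfPlane hiding I
open scoped Topology MatrixGroups Polynomial

noncomputable section

namespace Pool.Agent.MSD

/-- the constructor of `JN` -/
def q16mk {A ι : Type} (k : ι → ι) (p : A ⊕ (ι × Fin 3))
    (h : ∀ i, p = Sum.inr (i, 2) → k i ≠ i) : JN (A := A) k := ⟨p, h⟩

theorem q16_clear {A ι : Type} [Fintype ι] [DecidableEq ι] (k : ι → ι)
    (Q : MvPolynomial (JN (A := A) k) ℂ) :
    ∃ (N : ℕ) (P : MvPolynomial (A ⊕ (ι × Fin 3)) ℂ), ∀ g : A ⊕ (ι × Fin 3) → ℂ,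
      (∀ i, g (Sum.inr (i, 1)) ≠ 0 ∧ g (Sum.inr (i, 2)) ≠ 0) →
      MvPolynomial.eval g P = (∏ i, g (Sum.inr (i, 2))) ^ N *
        MvPolynomial.eval (fun j : JN (A := A) k => nrm k g j.1) Q := by
  induction Q using MvPolynomial.induction_on with
  | C a => exact ⟨0, MvPolynomial.C a, fun g _ => by simp⟩
  | add p q hp hq =>
    obtain ⟨N₁, P₁, h₁⟩ := hp
    obtain ⟨N₂, P₂, h₂⟩ := hq
    refine ⟨N₁ + N₂, (∏ i, MvPolynomial.X (Sum.inr (i, 2))) ^ N₂ * P₁ +
      (∏ i, MvPolynomial.X (Sum.inr (i, 2))) ^ N₁ * P₂, fun g hg => ?_⟩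
    rw [map_add, map_mul, map_mul, map_pow, map_pow, map_prod, h₁ g hg, h₂ g hg, map_add]
    simp only [MvPolynomial.eval_X]
    ring
  | mul_X p j hp =>
    obtain ⟨N, P, h⟩ := hp
    have hX : ∀ g : A ⊕ (ι × Fin 3) → ℂ,
        MvPolynomial.eval (fun j : JN (A := A) k => nrm k g j.1) (p * MvPolynomial.X j) =
          MvPolynomial.eval (fun j : JN (A := A) k => nrm k g j.1) p * nrm k g j.1 := by
      intro g
      rw [map_mul, MvPolynomial.eval_X]
    generalize hj : j.1 = p' at hX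
    rcases p' with a | ⟨i, κ⟩
    · refine ⟨N, P * MvPolynomial.X (Sum.inl a), fun g hg => ?_⟩
      rw [hX, map_mul, h g hg, MvPolynomial.eval_X, mul_assoc]
      rfl
    · set w : ℕ := (![1, 2, 3] : Fin 3 → ℕ) κ with hw
      refine ⟨N + w, P * (MvPolynomial.X (Sum.inr (i, κ)) * MvPolynomial.X (Sum.inr (k i, 1)) ^ w *
        (∏ i' ∈ Finset.univ.erase (k i), MvPolynomial.X (Sum.inr (i', 2))) ^ w), fun g hg => ?_⟩
      have h1 := (hg (k i)).1
      have h2 := (hg (k i)).2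
      have h3 : ∏ i', g (Sum.inr (i', 2)) = g (Sum.inr (k i, 2)) *
          ∏ i' ∈ Finset.univ.erase (k i), g (Sum.inr (i', 2)) :=
        (Finset.mul_prod_erase Finset.univ (fun i' => g (Sum.inr (i', 2)))
          (Finset.mem_univ (k i))).symm
      have h4 : nrm k g (Sum.inr (i, κ)) = g (Sum.inr (i, κ)) /
          (g (Sum.inr (k i, 2)) / g (Sum.inr (k i, 1))) ^ w := rfl
      rw [hX, h4, map_mul, h g hg]
      generalize MvPolynomial.eval (fun j : JN (A := A) k => nrm k g j.1) p = v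
      simp only [map_mul, map_pow, map_prod, MvPolynomial.eval_X]
      rw [pow_add, h3]
      set E := ∏ i' ∈ Finset.univ.erase (k i), g (Sum.inr (i', 2))
      rw [div_pow, mul_pow]
      field_simp
      ring

/-- Q16. Abstract: independence of a family passes to the normalised family. -/
theorem nrm_indep {Y : Type} (F : Filter Y) {A ι : Type} [Finite ι] (k : ι → ι) (hk : ∀ i, k (k i) = k i)
    (G : Y → A ⊕ (ι × Fin 3) → ℂ)
    (hG : ∀ P : MvPolynomial (A ⊕ (ι × Fin 3)) ℂ, (∀ᶠ y in F, MvPolynomial.eval (G y) P = 0) → P = 0)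
    (h0 : ∀ᶠ y in F, ∀ i, G y (Sum.inr (i, 1)) ≠ 0 ∧ G y (Sum.inr (i, 2)) ≠ 0)
    (Q : MvPolynomial (JN (A := A) k) ℂ) (hQ : ∀ᶠ y in F, MvPolynomial.eval (fun j => nrm k (G y) j.1) Q = 0) : Q = 0 := by
  classical
  let _ : Fintype ι := Fintype.ofFinite ι
  obtain ⟨N, P, hP⟩ := q16_clear k Q
  have hP0 : P = 0 := by
    apply hG
    filter_upwards [h0, hQ] with y h1 h2
    rw [hP (G y) h1, h2, mul_zero]
  have m0 : ∀ a : A, ∀ i, (Sum.inl a : A ⊕ (ι × Fin 3)) = Sum.inr (i, 2) → k i ≠ i := by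
    intro a i h
    exact absurd h (by simp)
  have m1 : ∀ i : ι, ∀ i', (Sum.inr (i, 1) : A ⊕ (ι × Fin 3)) = Sum.inr (i', 2) → k i' ≠ i' := by
    intro i i' h
    exact absurd h (by simp)
  have m2 : ∀ i : ι, k i ≠ i →
      ∀ i', (Sum.inr (i, 2) : A ⊕ (ι × Fin 3)) = Sum.inr (i', 2) → k i' ≠ i' := by
    intro i hi i' h
    have h1 : i = i' := by simpa using h
    rw [← h1]
    exact hi
  set R : MvPolynomial (JN (A := A) k) ℂ := ∏ i, (MvPolynomial.X (q16mk k (Sum.inr (i, 1)) (m1 i)) *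
    (if h : k i ≠ i then MvPolynomial.X (q16mk k (Sum.inr (i, 2)) (m2 i h)) else 1)) with hR
  have hR0 : R ≠ 0 := by
    rw [hR, Finset.prod_ne_zero_iff]
    intro i _
    apply mul_ne_zero (MvPolynomial.X_ne_zero _)
    by_cases h : k i ≠ i
    · rw [dif_pos h]
      exact MvPolynomial.X_ne_zero _
    · rw [dif_neg h]
      exact one_ne_zero
  have hQR : Q * R = 0 := by
    apply MvPolynomial.funext
    intro c
    rw [map_mul, map_zero]
    by_cases hc : MvPolynomial.eval c R = 0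
    · rw [hc, mul_zero]
    have hc1 : ∀ i, c (q16mk k (Sum.inr (i, 1)) (m1 i)) ≠ 0 ∧ ∀ h : k i ≠ i, c (q16mk k (Sum.inr (i, 2)) (m2 i h)) ≠ 0 := by
      intro i
      rw [hR, map_prod] at hc
      have h1 := Finset.prod_ne_zero_iff.mp hc i (Finset.mem_univ i)
      rw [map_mul, MvPolynomial.eval_X] at h1
      refine ⟨left_ne_zero_of_mul h1, fun h => ?_⟩
      have h2 := right_ne_zero_of_mul h1
      rw [dif_pos h, MvPolynomial.eval_X] at h2
      exact h2
    -- the point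
    set g : A ⊕ (ι × Fin 3) → ℂ := fun p =>
      if h : ∀ i, p = Sum.inr (i, 2) → k i ≠ i then c (q16mk k p h) else
        (match p with
          | Sum.inl _ => 0
          | Sum.inr q => c (q16mk k (Sum.inr (q.1, 1)) (m1 q.1))) with hg
    have g1 : ∀ i, g (Sum.inr (i, 1)) = c (q16mk k (Sum.inr (i, 1)) (m1 i)) := by
      intro i
      rw [hg]
      simp only
      rw [dif_pos (m1 i)]
    have g2 : ∀ i, k i = i → g (Sum.inr (i, 2)) = c (q16mk k (Sum.inr (i, 1)) (m1 i)) := by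
      intro i hi
      rw [hg]
      simp only
      rw [dif_neg]
      intro h
      exact h i rfl hi
    have g3 : ∀ i, (h : k i ≠ i) → g (Sum.inr (i, 2)) = c (q16mk k (Sum.inr (i, 2)) (m2 i h)) := by
      intro i hi
      rw [hg]
      simp only
      rw [dif_pos (m2 i hi)]
    have hgne : ∀ i, g (Sum.inr (i, 1)) ≠ 0 ∧ g (Sum.inr (i, 2)) ≠ 0 := by
      intro i
      refine ⟨by rw [g1]; exact (hc1 i).1, ?_⟩
      by_cases h : k i = i
      · rw [g2 i h]; exact (hc1 i).1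
      · rw [g3 i h]; exact (hc1 i).2 h
    have hnrm : (fun j : JN (A := A) k => nrm k g j.1) = c := by
      funext j
      have hgp : g j.1 = c j := by
        rw [hg]
        simp only
        rw [dif_pos j.2]
        rfl
      rw [← hgp]
      generalize j.1 = p
      rcases p with a | ⟨i, κ⟩
      · rfl
      · have h4 : nrm k g (Sum.inr (i, κ)) = g (Sum.inr (i, κ)) /
            (g (Sum.inr (k i, 2)) / g (Sum.inr (k i, 1))) ^ ((![1, 2, 3] : Fin 3 → ℕ) κ) := rfl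
        rw [h4, g2 (k i) (hk i), g1 (k i), div_self (hc1 (k i)).1, one_pow, div_one]
    have h2 := hP g hgne
    rw [hP0, map_zero, hnrm] at h2
    have h3 : (∏ i, g (Sum.inr (i, 2))) ^ N ≠ 0 :=
      pow_ne_zero _ (Finset.prod_ne_zero_iff.mpr fun i _ => (hgne i).2)
    have h4 : MvPolynomial.eval c Q = 0 := by
      rcases mul_eq_zero.mp h2.symm with h5 | h5
      · exact absurd h5 h3
      · exact h5
    rw [h4, zero_mul]
  rcases mul_eq_zero.mp hQR with h | h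
  · exact h
  · exact absurd h hR0

end Pool.Agent.MSD
end

end

section

/-! # Q07: conjugates of the members, precise form (MP_f58a57_nt) -/

open Complex ModularForm EisensteinSeries Filter
open UpperHalfPlane hiding I
open scoped Topology MatrixGroups Polynomial

noncomputable section

namespace Pool.Agent.MSD

/-- Q07. PROOF. This is the proof of `Gr_conj` (`B7c_Conj.lean`), whose argument applies word for word: `σ` an embedding of the algebraic numbers with `σ(Gr κ τ ρ/Ω^w) = r`, `a = σ(e4/Ω⁴)`,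
`b = σ(e6/Ω⁶)`; `a` is a root of the minimal polynomial of `e4/Ω⁴`; `a³ - b² = σ(1728 dl/Ω^12) = 1728 c`; for all `τ', Ω'` with these values the families `σ(Gr κ τ ρ'/Ω^w)` and `Gr κ τ' ρ'/Ω'^w` have
the same power sums, so by `prod_eq_of_psum` `r` is a member of the second. -/
theorem conj_mem (τ Ω : ℂ) (h : CMBase τ Ω) (c : ℚ) (hc : dl τ / Ω ^ 12 = (c : ℂ)) (κ : Fin 3) (N : ℕ) (hN : 0 < N)
    (ρ : Σ _ : ℕ × ℕ, ℕ) (hρ : ρ ∈ TT N) (r : ℂ) (hr : r ∈ (minpoly ℚ (Gr κ τ ρ / Ω ^ kwt κ)).aroots ℂ) :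
    ∃ a ∈ (minpoly ℚ (e4 τ / Ω ^ 4)).aroots ℂ, ∃ b : ℂ, a ^ 3 - b ^ 2 = 1728 * (c : ℂ) ∧
      ∀ τ' Ω' : ℂ, 0 < τ'.im → Ω' ≠ 0 → e4 τ' / Ω' ^ 4 = a → e6 τ' / Ω' ^ 6 = b →
        ∃ ρ' ∈ TT N, r = Gr κ τ' ρ' / Ω' ^ kwt κ := by
  classical
  set u : ℂ := e4 τ / Ω ^ 4 with hu
  set v : ℂ := e6 τ / Ω ^ 6 with hv
  have hΩ := h.ne
  have huv : u ^ 3 - v ^ 2 = 1728 * (dl τ / Ω ^ 12) := by
    rw [hu, hv, dl]
    field_simp
  have hd0 : dl τ / Ω ^ 12 ≠ 0 := div_ne_zero (dl_ne_zero τ h.im) (pow_ne_zero _ hΩ)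
  have hualg : IsAlgebraic ℚ u := (h.i4.tower_top (A := ℚ)).isAlgebraic
  have hvalg : IsAlgebraic ℚ v := (h.i6.tower_top (A := ℚ)).isAlgebraic
  -- the algebraic closure
  let A : IntermediateField ℚ ℂ := algebraicClosure ℚ ℂ
  have hAmem : ∀ x : ℂ, x ∈ A ↔ IsAlgebraic ℚ x := fun x => by
    simp only [A]
    rw [mem_algebraicClosure_iff]
  have hspl : ∀ s : A, IsIntegral ℚ s ∧ ((minpoly ℚ s).map (algebraMap ℚ ℂ)).Splits := by
    intro s
    have : IsAlgebraic ℚ (s : ℂ) := (hAmem _).1 s.2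
    exact ⟨(isIntegral_algebraMap_iff (algebraMap A ℂ).injective).1 this.isIntegral,
      IsAlgClosed.splits _⟩
  have halg : ∀ ρ' ∈ TT N, Gr κ τ ρ' / Ω ^ kwt κ ∈ A := fun ρ' hρ' =>
    (hAmem _).2 (b7c_isAlg τ Ω h κ N hN ρ' hρ')
  let α : A := ⟨Gr κ τ ρ / Ω ^ kwt κ, halg ρ hρ⟩
  have hmin : minpoly ℚ α = minpoly ℚ (Gr κ τ ρ / Ω ^ kwt κ) := by
    have := minpoly.algebraMap_eq (A := ℚ) (B := A) (B' := ℂ) (algebraMap A ℂ).injective α
    exact this.symm
  have hr0 : Polynomial.aeval r (minpoly ℚ α) = 0 := by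
    rw [hmin]
    exact (Polynomial.mem_aroots.1 hr).2
  obtain ⟨σ, hσ⟩ := IntermediateField.exists_algHom_of_splits_of_aeval hspl hr0
  let uA : A := ⟨u, (hAmem _).2 hualg⟩
  let vA : A := ⟨v, (hAmem _).2 hvalg⟩
  have hdl : (dl τ / Ω ^ 12) = (u ^ 3 - v ^ 2) / 1728 := by
    rw [huv]; ring
  let dA : A := algebraMap ℚ A (1 / 1728) * (uA ^ 3 - vA ^ 2)
  have hdA : (algebraMap A ℂ dA) = dl τ / Ω ^ 12 := by
    rw [hdl]
    have e0 : algebraMap A ℂ (algebraMap ℚ A (1 / 1728)) = (1 / 1728 : ℂ) := by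
      rw [← IsScalarTower.algebraMap_apply ℚ A ℂ]
      norm_num
    have e1 : algebraMap A ℂ uA = u := rfl
    have e2 : algebraMap A ℂ vA = v := rfl
    simp only [dA]
    rw [map_mul, map_sub, map_pow, map_pow, e0, e1, e2]
    ring
  have hσd : (σ uA) ^ 3 - (σ vA) ^ 2 = 1728 * (c : ℂ) := by
    have h1 : dA = algebraMap ℚ A c := by
      apply (algebraMap A ℂ).injective
      rw [hdA, hc, ← IsScalarTower.algebraMap_apply ℚ A ℂ]
      rfl
    have h2 : σ dA = (c : ℂ) := by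
      rw [h1, AlgHom.commutes]
      rfl
    have e4 : σ (algebraMap ℚ A (1 / 1728)) = (1 / 1728 : ℂ) := by
      rw [AlgHom.commutes]
      norm_num
    simp only [dA] at h2
    rw [map_mul, map_sub, map_pow, map_pow, e4] at h2
    rw [← h2]
    ring
  have hmemu : (σ uA) ∈ (minpoly ℚ u).aroots ℂ := by
    rw [Polynomial.mem_aroots]
    refine ⟨minpoly.ne_zero hualg.isIntegral, ?_⟩
    have hm : minpoly ℚ uA = minpoly ℚ u :=
      (minpoly.algebraMap_eq (A := ℚ) (B := A) (B' := ℂ) (algebraMap A ℂ).injective uA).symm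
    rw [← hm, Polynomial.aeval_algHom_apply, minpoly.aeval, map_zero]
  refine ⟨σ uA, hmemu, σ vA, hσd, ?_⟩
  intro τ' Ω' him' hne' h4' h6'
  -- power sums
  have hps : ∀ k : ℕ, 0 < k →
      ∑ ρ' ∈ TT N, (if hm : ρ' ∈ TT N then σ ⟨Gr κ τ ρ' / Ω ^ kwt κ, halg ρ' hm⟩ else 0) ^ k =
        ∑ ρ' ∈ TT N, (Gr κ τ' ρ' / Ω' ^ kwt κ) ^ k := by
    intro k _
    obtain ⟨Θ, hΘ⟩ := theta_norm κ N k hN
    rw [hΘ τ' Ω' him' hne']
    have hA : (∑ ρ' ∈ TT N, (if hm : ρ' ∈ TT N then (⟨Gr κ τ ρ' / Ω ^ kwt κ, halg ρ' hm⟩ : A) else 0) ^ k) =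
        MvPolynomial.aeval (![uA, vA, dA] : Fin 3 → A) Θ := by
      apply (algebraMap A ℂ).injective
      have e1 : (algebraMap A ℂ) (∑ ρ' ∈ TT N,
          (if hm : ρ' ∈ TT N then (⟨Gr κ τ ρ' / Ω ^ kwt κ, halg ρ' hm⟩ : A) else 0) ^ k) =
          ∑ ρ' ∈ TT N, (Gr κ τ ρ' / Ω ^ kwt κ) ^ k := by
        rw [map_sum]
        refine Finset.sum_congr rfl fun ρ' hρ' => ?_
        rw [map_pow, dif_pos hρ']
        rfl
      rw [e1, hΘ τ Ω h.im h.ne]
      rw [MvPolynomial.aeval_def, MvPolynomial.eval₂_eq, MvPolynomial.aeval_def, MvPolynomial.eval₂_eq,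
        map_sum]
      refine Finset.sum_congr rfl fun d _ => ?_
      rw [map_mul, map_prod]
      congr 1
      refine Finset.prod_congr rfl fun i _ => ?_
      rw [map_pow]
      congr 1
      fin_cases i
      · rfl
      · rfl
      · exact hdA.symm
    have hσA := congrArg σ hA
    rw [map_sum] at hσA
    have e2 : ∑ ρ' ∈ TT N, (if hm : ρ' ∈ TT N then σ ⟨Gr κ τ ρ' / Ω ^ kwt κ, halg ρ' hm⟩ else 0) ^ k =
        ∑ ρ' ∈ TT N, σ ((if hm : ρ' ∈ TT N then (⟨Gr κ τ ρ' / Ω ^ kwt κ, halg ρ' hm⟩ : A) else 0) ^ k) := by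
      refine Finset.sum_congr rfl fun ρ' hρ' => ?_
      rw [map_pow, dif_pos hρ', dif_pos hρ']
    rw [e2, hσA]
    rw [MvPolynomial.aeval_def, MvPolynomial.eval₂_eq, MvPolynomial.aeval_def, MvPolynomial.eval₂_eq,
        map_sum]
    refine Finset.sum_congr rfl fun d _ => ?_
    rw [map_mul, map_prod]
    congr 1
    · simp
    · refine Finset.prod_congr rfl fun i _ => ?_
      rw [map_pow]
      congr 1
      fin_cases i
      · exact h4'.symm
      · exact h6'.symm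
      · change σ dA = dl τ' / Ω' ^ 12
        have e3 : dl τ' / Ω' ^ 12 = ((e4 τ' / Ω' ^ 4) ^ 3 - (e6 τ' / Ω' ^ 6) ^ 2) / 1728 := by
          rw [dl]
          field_simp
        have e4 : σ (algebraMap ℚ A (1 / 1728)) = (1 / 1728 : ℂ) := by
          rw [AlgHom.commutes]
          norm_num
        rw [e3, h4', h6']
        simp only [dA]
        rw [map_mul, map_sub, map_pow, map_pow, e4]
        ring
  have hprod := prod_eq_of_psum (TT N)
    (fun ρ' => if hm : ρ' ∈ TT N then σ ⟨Gr κ τ ρ' / Ω ^ kwt κ, halg ρ' hm⟩ else 0)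
    (fun ρ' => Gr κ τ' ρ' / Ω' ^ kwt κ) hps
  have hev := congrArg (Polynomial.eval r) hprod
  rw [Polynomial.eval_prod, Polynomial.eval_prod] at hev
  have hz : ∏ i ∈ TT N, Polynomial.eval r (Polynomial.X - Polynomial.C
      ((fun ρ' => if hm : ρ' ∈ TT N then σ ⟨Gr κ τ ρ' / Ω ^ kwt κ, halg ρ' hm⟩ else 0) i)) = 0 := by
    refine Finset.prod_eq_zero hρ ?_
    simp only [Polynomial.eval_sub, Polynomial.eval_X, Polynomial.eval_C]
    rw [dif_pos hρ]
    have : σ ⟨Gr κ τ ρ / Ω ^ kwt κ, halg ρ hρ⟩ = r := hσ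
    rw [this, sub_self]
  rw [hz] at hev
  obtain ⟨ρ', hρ', he⟩ := Finset.prod_eq_zero_iff.1 hev.symm
  have hrr : r = Gr κ τ' ρ' / Ω' ^ kwt κ := by
    simp only [Polynomial.eval_sub, Polynomial.eval_X, Polynomial.eval_C] at he
    exact sub_eq_zero.1 he
  exact ⟨ρ', hρ', hrr⟩

end Pool.Agent.MSD
end

end

section

/-! # Q08: degree of the members, precise form (MP_f58a57_nt) -/

open Complex ModularForm EisensteinSeries Filter
open UpperHalfPlane hiding I
open scoped Topology MatrixGroups Polynomial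

noncomputable section

namespace Pool.Agent.MSD

/-- Q08. PROOF. As `Gr_degree` (`B7b_Degree.lean`) with `k = ℚ(e4/Ω⁴, e6/Ω⁶)` (`dl/Ω^12 = c` is rational), whose degree over `ℚ` is at most the product of the two degrees
(tower `ℚ ⊆ ℚ(u) ⊆ ℚ(u)(v)`, `IntermediateField.adjoin.finrank`, `minpoly` over the bigger field divides; or `IntermediateField.finrank_sup_le`), and `card (TT N) ≤ N²`. -/
theorem degree_le (τ Ω : ℂ) (h : CMBase τ Ω) (c : ℚ) (hc : dl τ / Ω ^ 12 = (c : ℂ)) (κ : Fin 3) (N : ℕ) (hN : 0 < N)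
    (ρ : Σ _ : ℕ × ℕ, ℕ) (hρ : ρ ∈ TT N) : (minpoly ℚ (Gr κ τ ρ / Ω ^ kwt κ)).natDegree ≤
      (minpoly ℚ (e4 τ / Ω ^ 4)).natDegree * (minpoly ℚ (e6 τ / Ω ^ 6)).natDegree * N ^ 2 := by
  classical
  have i4 : IsIntegral ℚ (e4 τ / Ω ^ 4) := h.i4.tower_top
  have i6 : IsIntegral ℚ (e6 τ / Ω ^ 6) := h.i6.tower_top
  let k4 : IntermediateField ℚ ℂ := IntermediateField.adjoin ℚ {e4 τ / Ω ^ 4}
  let k6 : IntermediateField ℚ ℂ := IntermediateField.adjoin ℚ {e6 τ / Ω ^ 6}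
  have : FiniteDimensional ℚ k4 := IntermediateField.adjoin.finiteDimensional i4
  have : FiniteDimensional ℚ k6 := IntermediateField.adjoin.finiteDimensional i6
  let k : IntermediateField ℚ ℂ := k4 ⊔ k6
  have : FiniteDimensional ℚ k := IntermediateField.finiteDimensional_sup k4 k6
  have hk : Module.finrank ℚ k ≤
      (minpoly ℚ (e4 τ / Ω ^ 4)).natDegree * (minpoly ℚ (e6 τ / Ω ^ 6)).natDegree := by
    refine (IntermediateField.finrank_sup_le k4 k6).trans (le_of_eq ?_)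
    rw [IntermediateField.adjoin.finrank i4, IntermediateField.adjoin.finrank i6]
  have hmem : ∀ i : Fin 3, (![e4 τ / Ω ^ 4, e6 τ / Ω ^ 6, dl τ / Ω ^ 12] : Fin 3 → ℂ) i ∈ k := by
    have m4 : e4 τ / Ω ^ 4 ∈ k :=
      (le_sup_left : k4 ≤ k) (IntermediateField.mem_adjoin_simple_self ℚ _)
    have m6 : e6 τ / Ω ^ 6 ∈ k :=
      (le_sup_right : k6 ≤ k) (IntermediateField.mem_adjoin_simple_self ℚ _)
    have m12 : dl τ / Ω ^ 12 ∈ k := by
      rw [hc]
      exact k.algebraMap_mem c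
    intro i
    fin_cases i
    · exact m4
    · exact m6
    · exact m12
  have hps : ∀ m : ℕ, 0 < m → ∑ ρ ∈ TT N, (Gr κ τ ρ / Ω ^ kwt κ) ^ m ∈ k := by
    intro m _
    obtain ⟨Θ, hΘ⟩ := theta_norm κ N m hN
    rw [hΘ τ Ω h.im h.ne]
    let f : Fin 3 → k := fun i => ⟨_, hmem i⟩
    have e : (![e4 τ / Ω ^ 4, e6 τ / Ω ^ 6, dl τ / Ω ^ 12] : Fin 3 → ℂ) = algebraMap k ℂ ∘ f := by
      funext i
      rfl
    rw [e, MvPolynomial.aeval_algebraMap_apply]
    exact (MvPolynomial.aeval f Θ).2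
  have hcoef := coeff_mem_of_psum (TT N) (fun ρ => Gr κ τ ρ / Ω ^ kwt κ) k hps
  have hmon : (∏ ρ ∈ TT N, (Polynomial.X - Polynomial.C (Gr κ τ ρ / Ω ^ kwt κ))).Monic :=
    Polynomial.monic_prod_of_monic _ _ fun i _ => Polynomial.monic_X_sub_C _
  have hdeg : (∏ ρ ∈ TT N, (Polynomial.X - Polynomial.C (Gr κ τ ρ / Ω ^ kwt κ))).natDegree = (TT N).card := by
    rw [Polynomial.natDegree_prod_of_monic _ _ fun i _ => Polynomial.monic_X_sub_C _]
    simp
  have hev : (∏ ρ ∈ TT N, (Polynomial.X - Polynomial.C (Gr κ τ ρ / Ω ^ kwt κ))).eval (Gr κ τ ρ / Ω ^ kwt κ) = 0 := by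
    rw [Polynomial.eval_prod]
    refine Finset.prod_eq_zero hρ ?_
    simp
  have := B7b_degree k _ hmon hcoef _ hev
  rw [hdeg] at this
  exact this.trans (Nat.mul_le_mul hk (B7b_card N))

end Pool.Agent.MSD
end

end
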