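import Mathlib
import Pool.Agent.Lib.MP_f58a57_nt.FK.K013
import Pool.Agent.Lib.MP_f58a57_nt.FK.K019
import Pool.Agent.Lib.MP_f58a57_nt.FK.K060
import Pool.Agent.Lib.MP_f58a57_nt.FK.K062

section

/-! # Q02: isobaric products with integral coefficients (MP_f58a57_nt) -/

open Complex ModularForm EisensteinSeries Filter
open UpperHalfPlane hiding I
open scoped Topology MatrixGroups Polynomial

noncomputable section

namespace Pool.Agent.MSD

/-- Q02. Integral version of `prod_isobaric` (`B5_Field.lean`). PROOF. As there, but by strong induction one shows: for every `j` there is `Ξ_j : MvPolynomial (Fin 3) ℤ` isobaric of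
weight `w j` with `j! e_j(z) = Ξ_j(vals z)`, `e_j(z) = B5F_E s (fun i => F i z) j`: `Ξ_0 = 1` and by `B5F_newton`
`j! e_j = (j-1)! (j e_j) = (-1)^(j+1) Σ_{a+b=j, a<j} (-1)^a ((j-1)!/a!) (a! e_a) Θ_b` (`Nat.factorial_dvd_factorial`). Then with `M = s.card` and `B5F_prod` evaluated at `P(vals z)`:
`M! Π_i (P - F_i) = Σ_{j ≤ M} (-1)^j (M!/j!) Ξ_j P^(M-j)`, isobaric of weight `w M`. -/
theorem prod_isobaric_int {J : Type*} (s : Finset J) (w : ℕ) (F : J → ℂ → ℂ)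
    (h : ∀ m : ℕ, 0 < m → ∃ Θ : MvPolynomial (Fin 3) ℤ, MvPolynomial.IsWeightedHomogeneous wts Θ (w * m) ∧
      ∀ z : ℂ, 0 < z.im → ∑ i ∈ s, F i z ^ m = MvPolynomial.aeval (vals z) Θ)
    (P : MvPolynomial (Fin 3) ℤ) (hP : MvPolynomial.IsWeightedHomogeneous wts P w) :
    ∃ Ξ : MvPolynomial (Fin 3) ℤ, MvPolynomial.IsWeightedHomogeneous wts Ξ (w * s.card) ∧
      ∀ z : ℂ, 0 < z.im → (s.card.factorial : ℂ) * ∏ i ∈ s, (MvPolynomial.aeval (vals z) P - F i z) =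
        MvPolynomial.aeval (vals z) Ξ := by
  choose! Θ hΘ1 hΘ2 using h
  have hE : ∀ j, ∃ Ξ : MvPolynomial (Fin 3) ℤ, MvPolynomial.IsWeightedHomogeneous wts Ξ (w * j) ∧
      ∀ z : ℂ, 0 < z.im → (j.factorial : ℂ) * B5F_E s (fun i => F i z) j =
        MvPolynomial.aeval (vals z) Ξ := by
    intro j
    induction j using Nat.strong_induction_on with
    | _ j ih =>
      rcases Nat.eq_zero_or_pos j with rfl | hj
      · refine ⟨1, MvPolynomial.isWeightedHomogeneous_one ℤ wts, fun z _ => ?_⟩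
        rw [B5F_zero, map_one, Nat.factorial_zero, Nat.cast_one, mul_one]
      · choose! Ξ h1 h2 using ih
        obtain ⟨k, rfl⟩ : ∃ k, j = k + 1 := ⟨j - 1, by omega⟩
        refine ⟨MvPolynomial.C ((-1) ^ (k + 1 + 1)) *
          ∑ a ∈ (Finset.HasAntidiagonal.antidiagonal (k + 1)).filter (fun a => a.1 < k + 1),
            MvPolynomial.C ((-1) ^ a.1 * ((k.factorial / a.1.factorial : ℕ) : ℤ)) * Ξ a.1 * Θ a.2,
            ?_, ?_⟩
        · refine MvPolynomial.IsWeightedHomogeneous.C_mul ?_ _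
          refine MvPolynomial.IsWeightedHomogeneous.sum _ _ _ ?_
          rintro ⟨a, b⟩ hab
          rw [Finset.mem_filter, Finset.HasAntidiagonal.mem_antidiagonal] at hab
          obtain ⟨hab1, hab2⟩ := hab
          simp only at hab1 hab2 ⊢
          have h3 : w * (k + 1) = w * a + w * b := by rw [← hab1]; ring
          rw [h3]
          exact ((h1 a hab2).C_mul _).mul (hΘ1 b (by omega))
        · intro z hz
          have h1' : ((k + 1).factorial : ℂ) * B5F_E s (fun i => F i z) (k + 1) =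
              (k.factorial : ℂ) * (((k + 1 : ℕ) : ℂ) * B5F_E s (fun i => F i z) (k + 1)) := by
            rw [Nat.factorial_succ, Nat.cast_mul]
            ring
          rw [h1', B5F_newton, map_mul, MvPolynomial.aeval_C, map_pow, map_neg, map_one, map_sum,
            mul_left_comm, Finset.mul_sum]
          congr 1
          refine Finset.sum_congr rfl ?_
          rintro ⟨a, b⟩ hab
          rw [Finset.mem_filter, Finset.HasAntidiagonal.mem_antidiagonal] at hab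
          obtain ⟨hab1, hab2⟩ := hab
          simp only at hab1 hab2 ⊢
          have hfac : (k.factorial : ℂ) = ((k.factorial / a.factorial : ℕ) : ℂ) * (a.factorial : ℂ) := by
            rw [← Nat.cast_mul, Nat.div_mul_cancel (Nat.factorial_dvd_factorial (by omega))]
          rw [map_mul, map_mul, ← h2 a hab2 z hz, ← hΘ2 b (by omega) z hz, MvPolynomial.aeval_C, map_mul,
            map_pow, map_neg, map_one, hfac]
          simp only [eq_intCast, Int.cast_natCast]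
          ring
  choose Ξ hΞ1 hΞ2 using hE
  refine ⟨∑ j ∈ Finset.range (s.card + 1),
    MvPolynomial.C ((-1) ^ j * ((s.card.factorial / j.factorial : ℕ) : ℤ)) *
      (Ξ j * P ^ (s.card - j)), ?_, ?_⟩
  · refine MvPolynomial.IsWeightedHomogeneous.sum _ _ _ ?_
    intro j hj
    rw [Finset.mem_range] at hj
    refine MvPolynomial.IsWeightedHomogeneous.C_mul ?_ _
    have h3 : w * s.card = w * j + (s.card - j) • w := by
      rw [smul_eq_mul, mul_comm (s.card - j) w, ← mul_add]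
      congr 1
      omega
    rw [h3]
    exact (hΞ1 j).mul (hP.pow _)
  · intro z hz
    have h4 := congrArg (Polynomial.eval (MvPolynomial.aeval (vals z) P)) (B5F_prod s (fun i => F i z))
    rw [Polynomial.eval_prod, Polynomial.eval_finsetSum] at h4
    simp only [Polynomial.eval_sub, Polynomial.eval_X, Polynomial.eval_C, Polynomial.eval_mul,
      Polynomial.eval_pow, Polynomial.eval_neg, Polynomial.eval_one] at h4
    rw [h4, map_sum, Finset.mul_sum]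
    refine Finset.sum_congr rfl ?_
    intro j hj
    rw [Finset.mem_range] at hj
    have hfac : (s.card.factorial : ℂ) =
        ((s.card.factorial / j.factorial : ℕ) : ℂ) * (j.factorial : ℂ) := by
      rw [← Nat.cast_mul, Nat.div_mul_cancel (Nat.factorial_dvd_factorial (by omega))]
    rw [map_mul (MvPolynomial.aeval (vals z)) (MvPolynomial.C _),
      map_mul (MvPolynomial.aeval (vals z)) (Ξ j), ← hΞ2 j z hz, MvPolynomial.aeval_C, map_mul,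
      map_pow, map_pow, map_neg, map_one, hfac]
    simp only [eq_intCast, Int.cast_natCast]
    ring

end Pool.Agent.MSD
end

end

section

/-! # Q06: uniformisation by reduced points (MP_f58a57_nt) -/

open Complex ModularForm EisensteinSeries Filter
open UpperHalfPlane hiding I
open scoped Topology MatrixGroups Polynomial

noncomputable section

namespace Pool.Agent.MSD

/-- Q06. PROOF. `uniformization` gives `τ, Ω`. By Mathlib's `ModularGroup.exists_smul_mem_fd` some `γ ∈ SL(2, ℤ)` moves `⟨τ, _⟩ : ℍ` into the fundamental domain, where `3/4 ≤ (Im)²`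
(`ModularGroup.three_le_four_mul_im_sq_of_mem_fd`), so `Im ≥ 1/2`. With `γ = (a b; c d)`, `τ' = (a τ + b)/(c τ + d)` (coe of `γ • τ`, see `a2t_setup` in `A2_Transform.lean`), `Ω' = (c τ + d) Ω`:
`e4_transform`, `e6_transform`. -/
theorem uniformization_red (u v : ℂ) (h : u ^ 3 ≠ v ^ 2) :
    ∃ τ Ω : ℂ, 1 / 2 ≤ τ.im ∧ Ω ≠ 0 ∧ e4 τ / Ω ^ 4 = u ∧ e6 τ / Ω ^ 6 = v := by
  obtain ⟨τ, Ω, hτ, hΩ, h4, h6⟩ := uniformization u v h
  obtain ⟨γ, hγ⟩ := ModularGroup.exists_one_half_le_im_smul (⟨τ, hτ⟩ : ℍ)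
  have hdet : γ 0 0 * γ 1 1 - γ 0 1 * γ 1 0 = 1 := by
    have h1 := γ.det_coe
    rw [Matrix.det_fin_two] at h1
    exact h1
  have hcoe : ((γ • (⟨τ, hτ⟩ : ℍ) : ℍ) : ℂ) =
      ((γ 0 0 : ℤ) * τ + (γ 0 1 : ℤ)) / ((γ 1 0 : ℤ) * τ + (γ 1 1 : ℤ)) := by
    rw [coe_specialLinearGroup_apply]
    simp
  have hden : ((γ 1 0 : ℤ) : ℂ) * τ + ((γ 1 1 : ℤ) : ℂ) ≠ 0 := by
    intro h0
    have h1 : (γ • (⟨τ, hτ⟩ : ℍ)).im = 0 := by
      rw [← UpperHalfPlane.coe_im, hcoe, h0, div_zero, Complex.zero_im]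
    rw [h1] at hγ
    norm_num at hγ
  have k4 := e4_transform (γ 0 0) (γ 0 1) (γ 1 0) (γ 1 1) hdet τ hτ
  have k6 := e6_transform (γ 0 0) (γ 0 1) (γ 1 0) (γ 1 1) hdet τ hτ
  refine ⟨((γ 0 0 : ℤ) * τ + (γ 0 1 : ℤ)) / ((γ 1 0 : ℤ) * τ + (γ 1 1 : ℤ)),
    ((γ 1 0 : ℤ) * τ + (γ 1 1 : ℤ)) * Ω, ?_, mul_ne_zero hden hΩ, ?_, ?_⟩
  · rw [← hcoe]
    exact hγ
  · rw [k4, mul_pow, mul_div_mul_left _ _ (pow_ne_zero 4 hden)]
    exact h4
  · rw [k6, mul_pow, mul_div_mul_left _ _ (pow_ne_zero 6 hden)]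
    exact h6

end Pool.Agent.MSD
end

end

section

/-! # Q03: uniform growth (MP_f58a57_nt) -/

open Complex ModularForm EisensteinSeries Filter
open UpperHalfPlane hiding I
open scoped Topology MatrixGroups Polynomial

noncomputable section

namespace Pool.Agent.MSD

theorem q03_qexp {c : ℕ → ℤ} (hc : QExp c dl) (h0 : c 0 = 0) :
    QExp (fun n => c (n + 1)) (fun z => dl z / qq z) := by
  intro z hz
  have hq : qq z ≠ 0 := by rw [qq]; exact Complex.exp_ne_zero _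
  have h1 := (hasSum_nat_add_iff' 1).2 (hc z hz)
  simp only [Finset.range_one, Finset.sum_singleton, h0, Int.cast_zero, pow_zero, zero_mul, sub_zero] at h1
  have h2 := h1.div_const (qq z)
  have h3 : (fun n : ℕ => ((c (n + 1) : ℤ) : ℂ) * qq z ^ n) = fun n => (c (n + 1) : ℂ) * qq z ^ (n + 1) / qq z := by
    funext n
    rw [pow_succ]
    field_simp
  simp only [h3]
  exact h2

theorem q03_ne (z : ℂ) : qq z ≠ 0 := by rw [qq]; exact Complex.exp_ne_zero _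

theorem q03_lim : Tendsto (fun z => qq z / dl z) (comap Complex.im atTop) (𝓝 1) := by
  obtain ⟨c, hc, h0, h1⟩ := dl_q
  have h2 := a5_tendsto (q03_qexp hc h0)
  simp only [zero_add, h1, Int.cast_one] at h2
  have h3 := h2.inv₀ one_ne_zero
  rw [inv_one] at h3
  refine h3.congr fun z => ?_
  rw [inv_div]

theorem q03_diff : DifferentiableOn ℂ (fun z => qq z / dl z) {z | 0 < z.im} := by
  refine DifferentiableOn.div ?_ dl_diff fun z hz => dl_ne_zero z hz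
  unfold qq
  fun_prop

theorem q03_per : ∀ z : ℂ, 0 < z.im → (fun z => qq z / dl z) (z + 1) = (fun z => qq z / dl z) z := by
  intro z hz
  have h1 : qq (z + 1) = qq z := by
    rw [qq, qq, mul_add, mul_one, Complex.exp_add, Complex.exp_two_pi_mul_I, mul_one]
  simp only [isMF_dl.per z hz, h1]

theorem q03_bdd {g : ℂ → ℂ} (hd : DifferentiableOn ℂ g {z | 0 < z.im})
    (hper : ∀ z : ℂ, 0 < z.im → g (z + 1) = g z) {a : ℂ}
    (hlim : Tendsto g (comap Complex.im atTop) (𝓝 a)) :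
    ∃ C : ℝ, ∀ z : ℂ, 1 / 2 ≤ z.im → ‖g z‖ ≤ C := by
  have h1 : ∀ᶠ z in comap Complex.im atTop, ‖g z‖ ≤ ‖a‖ + 1 := by
    have := hlim.norm.eventually (eventually_le_nhds (show ‖a‖ < ‖a‖ + 1 by linarith))
    exact this
  rw [eventually_comap] at h1
  obtain ⟨Y, hY⟩ := eventually_atTop.1 h1
  have hK : IsCompact (Set.Icc (0 : ℝ) 1 ×ℂ Set.Icc (1 / 2 : ℝ) Y) := isCompact_Icc.reProdIm isCompact_Icc
  have hc : ContinuousOn g (Set.Icc (0 : ℝ) 1 ×ℂ Set.Icc (1 / 2 : ℝ) Y) := by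
    refine hd.continuousOn.mono fun z hz => ?_
    have := (Complex.mem_reProdIm.1 hz).2.1
    exact lt_of_lt_of_le (by norm_num) this
  obtain ⟨C, hC⟩ := hK.exists_bound_of_continuousOn hc
  refine ⟨max C (‖a‖ + 1), fun z hz => ?_⟩
  rcases le_total Y z.im with h | h
  · exact (hY z.im h z rfl).trans (le_max_right _ _)
  · have h2 := a5_per_int hper (-⌊z.re⌋) z (by linarith)
    rw [← h2]
    refine (hC _ ?_).trans (le_max_left _ _)
    rw [Complex.mem_reProdIm]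
    have h3 := Int.floor_le z.re
    have h4 := Int.lt_floor_add_one z.re
    refine ⟨⟨?_, ?_⟩, ?_, ?_⟩ <;> simp <;> linarith

/-- Q03a. PROOF. `dl_q` and `a5_bound`-type estimate: for `Im z ≥ 1`, `‖dl z - qq z‖ ≤ K ‖qq z‖²` (sum from `n = 2`; as in `a5_bound` in `A5_Uniform.lean`), so `‖dl z‖ ≥ ‖qq z‖/2` for
`Im z ≥ Y`, `‖qq z‖ = exp (-2π Im z)` (`a5_norm_qq`). On the compact set `0 ≤ Re z ≤ 1`, `1/2 ≤ Im z ≤ Y` the continuous function `‖dl z‖` has a positive minimum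
(`dl_ne_zero`, `dl_diff`); periodicity (`isMF_dl.per`, `a5_per_int`) as in `a5_bdd`. (Alternative: Mathlib's product formula for the discriminant.) -/
theorem dl_lower : ∃ c : ℝ, 0 < c ∧ ∀ z : ℂ, 1 / 2 ≤ z.im → c * Real.exp (-(2 * Real.pi * z.im)) ≤ ‖dl z‖ := by
  obtain ⟨C, hC⟩ := q03_bdd q03_diff q03_per q03_lim
  have hC0 : 0 ≤ C := (norm_nonneg _).trans (hC I (by simp; norm_num))
  refine ⟨1 / (C + 1), by positivity, fun z hz => ?_⟩
  have hz0 : 0 < z.im := by linarith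
  have h1 := hC z hz
  rw [norm_div] at h1
  have hd : 0 < ‖dl z‖ := norm_pos_iff.2 (dl_ne_zero z hz0)
  rw [div_le_iff₀ hd, a5_norm_qq] at h1
  rw [one_div, inv_mul_le_iff₀ (by positivity)]
  refine h1.trans ?_
  nlinarith

/-- Q03b. PROOF. `e6_q` and `a5_bound`. -/
theorem e6_cusp : ∃ Y : ℕ, 0 < Y ∧ ∀ z : ℂ, (Y : ℝ) ≤ z.im → ‖e6 z - 1‖ ≤ 1 / 4 := by
  obtain ⟨c, hc, h0⟩ := e6_q
  have h1 := a5_tendsto hc
  rw [h0, Int.cast_one, tendsto_iff_norm_sub_tendsto_zero] at h1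
  have h2 := h1.eventually (eventually_le_nhds (show (0 : ℝ) < 1 / 4 by norm_num))
  rw [eventually_comap] at h2
  obtain ⟨Y, hY⟩ := eventually_atTop.1 h2
  obtain ⟨A, hA⟩ := exists_nat_ge Y
  refine ⟨A + 1, by omega, fun z hz => ?_⟩
  refine hY z.im ?_ z rfl
  push_cast at hz
  linarith

/-- Q03c. PROOF. As `Gr_bound` in `B3_HeckeMF.lean` (`B3_size` with `y = 1/2`). -/
theorem Gr_bound_unif : ∃ C : ℕ, ∀ z : ℂ, 1 / 2 ≤ z.im → ∀ (κ : Fin 3) (N : ℕ), 0 < N → ∀ ρ ∈ TT N,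
    ‖Gr κ z ρ‖ ≤ (C : ℝ) * (N : ℝ) ^ C := by
  obtain ⟨C, hC⟩ := B3_size
  obtain ⟨A, hA⟩ := exists_nat_ge (2 * (C * (1 / (1 / 2 : ℝ)) ^ C))
  refine ⟨A + (6 + C), fun z hz κ N hN ρ hρ => ?_⟩
  have hN1 : (1 : ℝ) ≤ N := by exact_mod_cast hN
  have hN0 : (0 : ℝ) < N := by linarith
  refine (hC κ N z (1 / 2) hN (by norm_num) (by norm_num) hz ρ hρ).trans ?_
  calc 2 * (N : ℝ) ^ 6 * (C * (N / (1 / 2 : ℝ)) ^ C)
      = (2 * (C * (1 / (1 / 2 : ℝ)) ^ C)) * (N : ℝ) ^ (6 + C) := by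
        rw [pow_add, div_pow (N : ℝ), div_pow (1 : ℝ), one_pow]
        field_simp
    _ ≤ A * (N : ℝ) ^ (6 + C) := by gcongr
    _ ≤ ((A + (6 + C) : ℕ) : ℝ) * (N : ℝ) ^ (A + (6 + C)) := by
        refine mul_le_mul ?_ (pow_le_pow_right₀ hN1 (by omega)) (by positivity) (by positivity)
        push_cast
        linarith [(Nat.cast_nonneg C : (0 : ℝ) ≤ C)]

end Pool.Agent.MSD
end

end

section

/-! # Q04: the polynomial of j(√(-D)) (MP_f58a57_nt) -/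

open Complex ModularForm EisensteinSeries Filter
open UpperHalfPlane hiding I
open scoped Topology MatrixGroups Polynomial

noncomputable section

namespace Pool.Agent.MSD

/-- the polynomial `-D³ X₁` -/
def q04_P (D : ℕ) : MvPolynomial (Fin 3) ℤ := MvPolynomial.C (-(D : ℤ) ^ 3) * MvPolynomial.X 1

theorem q04_P_hom (D : ℕ) : MvPolynomial.IsWeightedHomogeneous wts (q04_P D) 6 := by
  have h1 := (MvPolynomial.isWeightedHomogeneous_C (R := ℤ) wts (-(D : ℤ) ^ 3)).mul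
    (MvPolynomial.isWeightedHomogeneous_X ℤ wts 1)
  simpa [wts, q04_P] using h1

theorem q04_P_val (D : ℕ) (z : ℂ) :
    MvPolynomial.aeval (vals z) (q04_P D) = -(D : ℂ) ^ 3 * e6 z := by
  simp [vals, q04_P]

/-- entries of the members of `TT D` -/
theorem q04_TT {D : ℕ} {ρ : Σ _ : ℕ × ℕ, ℕ} (hD : 0 < D) (hρ : ρ ∈ TT D) :
    0 < ρ.1.1 ∧ 0 < ρ.1.2 ∧ ρ.1.1 ≤ D ∧ ρ.1.2 ≤ D := by
  have hρ' := Finset.mem_sigma.1 hρ
  have hprod : ρ.1.1 * ρ.1.2 = D := (Nat.mem_divisorsAntidiagonal.1 hρ'.1).1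
  have ha : 0 < ρ.1.1 := by
    rcases Nat.eq_zero_or_pos ρ.1.1 with h0 | h0
    · rw [h0, zero_mul] at hprod
      omega
    · exact h0
  have hδ : 0 < ρ.1.2 := by
    rcases Nat.eq_zero_or_pos ρ.1.2 with h0 | h0
    · rw [h0, mul_zero] at hprod
      omega
    · exact h0
  exact ⟨ha, hδ, Nat.le_of_dvd hD (Dvd.intro _ hprod), Nat.le_of_dvd hD (Dvd.intro_left _ hprod)⟩

theorem q04_e4_lim : Tendsto (fun y : ℝ => e4 (I * y)) atTop (𝓝 (1 : ℂ)) := by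
  obtain ⟨c, hc, hc0⟩ := e4_q
  have := B8a_tendsto hc (u := fun y : ℝ => I * y) (by
    have h6 : (fun y : ℝ => (I * (y : ℂ)).im) = fun y : ℝ => y := by
      funext y
      simp
    rw [h6]
    exact tendsto_id)
  rw [hc0] at this
  simpa using this

theorem q04_e6_lim : Tendsto (fun y : ℝ => e6 (I * y)) atTop (𝓝 (1 : ℂ)) := by
  obtain ⟨c, hc, hc0⟩ := e6_q
  have := B8a_tendsto hc (u := fun y : ℝ => I * y) (by
    have h6 : (fun y : ℝ => (I * (y : ℂ)).im) = fun y : ℝ => y := by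
      funext y
      simp
    rw [h6]
    exact tendsto_id)
  rw [hc0] at this
  simpa using this

theorem q04_dl_lim : Tendsto (fun y : ℝ => dl (I * y)) atTop (𝓝 (0 : ℂ)) := by
  have h1 := ((q04_e4_lim.pow 3).sub (q04_e6_lim.pow 2)).div_const (1728 : ℂ)
  simpa [dl] using h1

theorem q04_vals_lim : Tendsto (fun y : ℝ => vals (I * y)) atTop (𝓝 (![1, 1, 0] : Fin 3 → ℂ)) := by
  rw [tendsto_pi_nhds]
  intro i
  fin_cases i
  · simpa [vals] using q04_e4_lim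
  · simpa [vals] using q04_e6_lim
  · simpa [vals] using q04_dl_lim

theorem q04_aeval_lim (Ξ : MvPolynomial (Fin 3) ℤ) :
    Tendsto (fun y : ℝ => MvPolynomial.aeval (vals (I * y)) Ξ) atTop
      (𝓝 ((MvPolynomial.eval ![1, 1, 0] Ξ : ℤ) : ℂ)) := by
  have h1 : ∀ v : Fin 3 → ℂ, MvPolynomial.aeval v Ξ =
      MvPolynomial.eval v (MvPolynomial.map (algebraMap ℤ ℂ) Ξ) := by
    intro v
    rw [MvPolynomial.eval_map, MvPolynomial.aeval_def]
  have h2 : ((MvPolynomial.eval ![1, 1, 0] Ξ : ℤ) : ℂ) =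
      MvPolynomial.aeval (![1, 1, 0] : Fin 3 → ℂ) Ξ := by
    have e : (![1, 1, 0] : Fin 3 → ℂ) = algebraMap ℤ ℂ ∘ (![1, 1, 0] : Fin 3 → ℤ) := by
      funext i
      fin_cases i <;> simp
    rw [e, MvPolynomial.aeval_algebraMap_apply]
    simp [MvPolynomial.aeval_eq_eval]
  rw [h2]
  simp_rw [h1]
  have h3 := (MvPolynomial.continuous_eval (MvPolynomial.map (algebraMap ℤ ℂ) Ξ)).tendsto
    (![1, 1, 0] : Fin 3 → ℂ)
  exact h3.comp q04_vals_lim

/-- the value at the cusp -/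
theorem q04_cusp (D : ℕ) (hD : 0 < D) (Ξ : MvPolynomial (Fin 3) ℤ)
    (h : ∀ z : ℂ, 0 < z.im → ((TT D).card.factorial : ℂ) *
      ∏ ρ ∈ TT D, (MvPolynomial.aeval (vals z) (q04_P D) - Gr 1 z ρ) = MvPolynomial.aeval (vals z) Ξ) :
    MvPolynomial.eval ![1, 1, 0] Ξ =
      ((TT D).card.factorial : ℤ) * ∏ ρ ∈ TT D, (-((D : ℤ) ^ 3 + (ρ.1.1 : ℤ) ^ 6)) := by
  have hlim : Tendsto (fun y : ℝ => ((TT D).card.factorial : ℂ) *
      ∏ ρ ∈ TT D, (MvPolynomial.aeval (vals (I * y)) (q04_P D) - Gr 1 (I * y) ρ)) atTop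
      (𝓝 (((TT D).card.factorial : ℂ) * ∏ ρ ∈ TT D, (-(D : ℂ) ^ 3 * 1 - (ρ.1.1 : ℂ) ^ 6 * 1))) := by
    apply Tendsto.const_mul
    apply tendsto_finsetProd
    intro ρ hρ
    obtain ⟨ha, hδ, -, -⟩ := q04_TT hD hρ
    have t2 : Tendsto (fun y : ℝ => e6 (((ρ.1.1 : ℂ) * (I * y) + (ρ.2 : ℂ)) / (ρ.1.2 : ℂ)))
        atTop (𝓝 (1 : ℂ)) := by
      obtain ⟨c, hc, hc0⟩ := e6_q
      have hu : Tendsto (fun y : ℝ => (((ρ.1.1 : ℂ) * (I * y) + (ρ.2 : ℂ)) / (ρ.1.2 : ℂ)).im)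
          atTop atTop := by
        have h5 : (fun y : ℝ => (((ρ.1.1 : ℂ) * (I * y) + (ρ.2 : ℂ)) / (ρ.1.2 : ℂ)).im) =
            fun y : ℝ => ((ρ.1.1 : ℝ) / (ρ.1.2 : ℝ)) * y := by
          funext y
          rw [Complex.div_natCast_im]
          simp [Complex.mul_im]
          ring
        rw [h5]
        exact tendsto_id.const_mul_atTop (by positivity)
      have := B8a_tendsto hc hu
      rw [hc0] at this
      simpa using this
    refine Tendsto.sub ?_ ?_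
    · have := q04_e6_lim.const_mul (-(D : ℂ) ^ 3)
      refine this.congr fun y => ?_
      rw [q04_P_val]
    · have := t2.const_mul ((ρ.1.1 : ℂ) ^ 6)
      refine this.congr fun y => ?_
      unfold Gr GG
      simp
  have h2 := q04_aeval_lim Ξ
  have h3 : Tendsto (fun y : ℝ => MvPolynomial.aeval (vals (I * y)) Ξ) atTop
      (𝓝 (((TT D).card.factorial : ℂ) * ∏ ρ ∈ TT D, (-(D : ℂ) ^ 3 * 1 - (ρ.1.1 : ℂ) ^ 6 * 1))) := by
    refine hlim.congr' ?_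
    filter_upwards [eventually_gt_atTop (0 : ℝ)] with y hy
    exact h (I * y) (by simpa using hy)
  have h4 := tendsto_nhds_unique h2 h3
  have h5 : ((MvPolynomial.eval ![1, 1, 0] Ξ : ℤ) : ℂ) =
      ((((TT D).card.factorial : ℤ) * ∏ ρ ∈ TT D, (-((D : ℤ) ^ 3 + (ρ.1.1 : ℤ) ^ 6)) : ℤ) : ℂ) := by
    rw [h4]
    push_cast
    congr 1
    refine Finset.prod_congr rfl fun ρ _ => ?_
    ring
  exact_mod_cast h5

/-- the leading coefficient -/
def q04_L (D : ℕ) : ℕ := ((TT D).card.factorial * ∏ ρ ∈ TT D, (D ^ 3 + ρ.1.1 ^ 6)) ^ 2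

theorem q04_L_pos (D : ℕ) (hD : 0 < D) : 0 < q04_L D := by
  unfold q04_L
  have h1 : 0 < ∏ ρ ∈ TT D, (D ^ 3 + ρ.1.1 ^ 6) :=
    Finset.prod_pos fun ρ _ => by positivity
  positivity

theorem q04_L_eq (D : ℕ) :
    (((TT D).card.factorial : ℤ) * ∏ ρ ∈ TT D, (-((D : ℤ) ^ 3 + (ρ.1.1 : ℤ) ^ 6))) ^ 2 = (q04_L D : ℤ) := by
  unfold q04_L
  rw [Finset.prod_neg]
  push_cast
  rw [mul_pow, mul_pow, mul_pow]
  have : ((-1 : ℤ) ^ (TT D).card) ^ 2 = 1 := by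
    rw [← pow_mul, mul_comm, pow_mul]
    simp
  rw [this, one_mul]

theorem q04_L_le (D : ℕ) (hD : 0 < D) : (q04_L D : ℝ) ≤ Real.exp (18 * (D : ℝ) ^ 4) := by
  have hcard := B7b_card D
  have hfac : (TT D).card.factorial ≤ (D ^ 2) ^ (D ^ 2) :=
    (Nat.factorial_le hcard).trans (Nat.factorial_le_pow _)
  have hprod : ∏ ρ ∈ TT D, (D ^ 3 + ρ.1.1 ^ 6) ≤ (2 * D ^ 6) ^ (D ^ 2) := by
    have h1 : ∏ ρ ∈ TT D, (D ^ 3 + ρ.1.1 ^ 6) ≤ (2 * D ^ 6) ^ (TT D).card := by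
      refine (Finset.prod_le_pow_card _ _ _ ?_)
      intro ρ hρ
      obtain ⟨-, -, h2, -⟩ := q04_TT hD hρ
      have h3 : ρ.1.1 ^ 6 ≤ D ^ 6 := Nat.pow_le_pow_left h2 6
      have h4 : D ^ 3 ≤ D ^ 6 := Nat.pow_le_pow_right hD (by norm_num)
      omega
    refine h1.trans (Nat.pow_le_pow_right ?_ hcard)
    positivity
  have h1 : q04_L D ≤ ((2 * D ^ 8) ^ (D ^ 2)) ^ 2 := by
    unfold q04_L
    refine Nat.pow_le_pow_left ?_ 2
    refine (Nat.mul_le_mul hfac hprod).trans ?_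
    rw [← mul_pow]
    refine Nat.pow_le_pow_left (le_of_eq ?_) _
    ring
  have h2 : (q04_L D : ℝ) ≤ ((2 * (D : ℝ) ^ 8) ^ (D ^ 2)) ^ 2 := by exact_mod_cast h1
  refine h2.trans ?_
  have hD1 : (1 : ℝ) ≤ D := by exact_mod_cast hD
  have h3 : 2 * (D : ℝ) ^ 8 ≤ Real.exp (9 * D) := by
    have e1 : (2 : ℝ) ≤ Real.exp 1 := by
      have := Real.add_one_le_exp (1 : ℝ)
      linarith
    have e2 : (D : ℝ) ≤ Real.exp D := by
      have := Real.add_one_le_exp (D : ℝ)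
      linarith
    have e3 : (D : ℝ) ^ 8 ≤ Real.exp (8 * D) := by
      have : Real.exp (8 * (D : ℝ)) = Real.exp D ^ 8 := by
        rw [← Real.exp_nat_mul]
        norm_num
      rw [this]
      exact pow_le_pow_left₀ (by positivity) e2 8
    have e4' : Real.exp 1 ≤ Real.exp D := Real.exp_le_exp.2 hD1
    calc 2 * (D : ℝ) ^ 8 ≤ Real.exp D * Real.exp (8 * D) := by
          apply mul_le_mul (e1.trans e4') e3 (by positivity) (Real.exp_pos _).le
      _ = Real.exp (9 * D) := by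
          rw [← Real.exp_add]
          congr 1
          ring
  have h4 : ((2 * (D : ℝ) ^ 8) ^ (D ^ 2)) ^ 2 ≤ ((Real.exp (9 * D)) ^ (D ^ 2)) ^ 2 := by
    gcongr
  refine h4.trans ?_
  rw [← Real.exp_nat_mul, ← Real.exp_nat_mul]
  apply Real.exp_le_exp.2
  push_cast
  have h5 : (D : ℝ) ^ 3 ≤ (D : ℝ) ^ 4 := pow_le_pow_right₀ hD1 (by norm_num)
  nlinarith [h5]

/-- the sign argument at the cusp -/
theorem q04_sign (D Y : ℕ) (hD : 0 < D) (hY : 0 < Y)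
    (h : ∀ z : ℂ, (Y : ℝ) ≤ z.im → ‖e6 z - 1‖ ≤ 1 / 4) (z : ℂ) (hz : (Y : ℝ) * D < z.im)
    (ρ : Σ _ : ℕ × ℕ, ℕ) (hρ : ρ ∈ TT D) : -(D : ℂ) ^ 3 * e6 z - Gr 1 z ρ ≠ 0 := by
  obtain ⟨ha, hδ, haD, hδD⟩ := q04_TT hD hρ
  have hD1 : (1 : ℝ) ≤ D := by exact_mod_cast hD
  have hY1 : (1 : ℝ) ≤ Y := by exact_mod_cast hY
  have hre : ∀ w : ℂ, (Y : ℝ) ≤ w.im → 0 < (e6 w).re := by
    intro w hw
    have h1 := h w hw
    have h2 := Complex.abs_re_le_norm (e6 w - 1)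
    have h3 := (abs_le.1 (h2.trans h1)).1
    simp only [Complex.sub_re, Complex.one_re] at h3
    linarith
  have hz1 : (Y : ℝ) ≤ z.im := by nlinarith
  have hz0 : 0 < z.im := by linarith
  set w : ℂ := ((ρ.1.1 : ℂ) * z + (ρ.2 : ℂ)) / (ρ.1.2 : ℂ) with hw
  have hwim : w.im = (ρ.1.1 : ℝ) * z.im / (ρ.1.2 : ℝ) := by
    rw [hw, Complex.div_natCast_im]
    simp [Complex.mul_im]
  have ha1 : (1 : ℝ) ≤ ρ.1.1 := by exact_mod_cast ha
  have hδ0 : (0 : ℝ) < ρ.1.2 := by exact_mod_cast hδ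
  have hδ1 : ((ρ.1.2 : ℕ) : ℝ) ≤ D := by exact_mod_cast hδD
  have hw1 : (Y : ℝ) ≤ w.im := by
    rw [hwim, le_div_iff₀ hδ0]
    have e1 : (Y : ℝ) * (ρ.1.2 : ℝ) ≤ Y * D := by
      apply mul_le_mul_of_nonneg_left hδ1 (by linarith)
    have e2 : z.im ≤ (ρ.1.1 : ℝ) * z.im := by nlinarith
    linarith
  have hGr : Gr 1 z ρ = (ρ.1.1 : ℂ) ^ 6 * e6 w := by
    unfold Gr GG
    simp [hw]
  rw [hGr]
  intro h0
  have h1 := congrArg Complex.re h0
  have e1 : ((-(D : ℂ) ^ 3) * e6 z).re = -((D : ℝ) ^ 3) * (e6 z).re := by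
    have : (-(D : ℂ) ^ 3) = ((-((D : ℝ) ^ 3) : ℝ) : ℂ) := by push_cast; ring
    rw [this, Complex.re_ofReal_mul]
  have e2 : ((ρ.1.1 : ℂ) ^ 6 * e6 w).re = (ρ.1.1 : ℝ) ^ 6 * (e6 w).re := by
    have : ((ρ.1.1 : ℂ) ^ 6) = (((ρ.1.1 : ℝ) ^ 6 : ℝ) : ℂ) := by push_cast; ring
    rw [this, Complex.re_ofReal_mul]
  rw [Complex.sub_re, e1, e2, Complex.zero_re] at h1
  have p1 : 0 < (D : ℝ) ^ 3 * (e6 z).re := mul_pos (by positivity) (hre z hz1)
  have p2 : 0 < (ρ.1.1 : ℝ) ^ 6 * (e6 w).re := mul_pos (by positivity) (hre w hw1)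
  linarith

/-- Q04. The polynomial relation for `j(√(-D))`, uniformly in `D`.

PROOF. `M = card (TT D) ≤ D²` (`B7b_card`). `prod_isobaric_int` with `s = TT D`, `w = 6`, `F ρ z = Gr 1 z ρ` (hypothesis: `theta 1 D m hD`), `P = -D³ X₁` gives `Ξ` of weight `6 M` with
`M! Π_ρ (-D³ e6 z - Gr 1 z ρ) = Ξ(vals z)`. `Ξ²` has weight `12 M`; `jpoly M (Ξ^2)` gives `P` with `P.natDegree ≤ M`, `P.coeff M = (Ξ(1,1,0))²`,
`Ξ(vals z)² = dl z ^ M P(jj z)`. The value at the cusp: `Ξ(1,1,0) = M! Π_ρ (-D³ - a_ρ⁶)` by letting `z = i y → i∞` (as in `cm_relation`, `B8a_Rel.lean`: `B8a_tendsto`; `vals (i y) → (1,1,0)`), so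
`L := (M! Π_ρ (D³ + a_ρ⁶))²` is a positive integer, `P.coeff M = L ≠ 0`, hence `natDegree P = M` and `P.leadingCoeff = L`. Size: `M! ≤ M^M ≤ (D²)^(D²)`, `a_ρ ≤ D`, so
`L ≤ (D^(2 D²) (2 D⁶)^(D²))² = (2 D⁸)^(2 D²) ≤ exp(2 D² (1 + 8 D)) ≤ exp(18 D⁴)` (`Real.add_one_le_exp`: `x ≤ exp x`).
`P(jj(√-D)) = 0`: `e6_mem` makes a factor of `Ξ(vals (rt D))` vanish, `dl ≠ 0`.
If `P(jj z) = 0` then `Ξ(vals z) = 0` so `-D³ e6 z = Gr 1 z ρ = a⁶ e6((a z + b)/δ)` for some `ρ = ⟨(a, δ), b⟩`, `a δ = D`. If `Im z > Y D` (`Y` from `e6_cusp`) then `Im z ≥ Y` and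
`Im((az+b)/δ) = a Im z/δ ≥ Im z/D ≥ Y`, so the real parts of `e6` at the two points are `≥ 3/4 > 0` and the real parts of the two sides have opposite signs: contradiction. -/
theorem modular_rel : ∃ C : ℕ, ∀ D : ℕ, 0 < D → ∃ (L : ℕ) (P : Polynomial ℤ), 0 < L ∧
    (L : ℝ) ≤ Real.exp ((C : ℝ) * (D : ℝ) ^ 4) ∧ P.natDegree ≤ D ^ 2 ∧ P.leadingCoeff = (L : ℤ) ∧
      Polynomial.aeval (jj (rt D)) P = 0 ∧
      ∀ z : ℂ, 0 < z.im → Polynomial.aeval (jj z) P = 0 → z.im ≤ (C : ℝ) * D := by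
  obtain ⟨Y, hY, hcusp⟩ := e6_cusp
  refine ⟨18 + Y, ?_⟩
  intro D hD
  have hcard := B7b_card D
  obtain ⟨Ξ, hΞ, hΞv⟩ := prod_isobaric_int (TT D) 6 (fun ρ z => Gr 1 z ρ) (by
    intro m _
    obtain ⟨Θ, hΘ, hΘv⟩ := theta 1 D m hD
    exact ⟨Θ, hΘ, hΘv⟩) (q04_P D) (q04_P_hom D)
  have hΞ2 : MvPolynomial.IsWeightedHomogeneous wts (Ξ ^ 2) (12 * (TT D).card) := by
    have h1 := hΞ.pow 2
    have h2 : 2 • (6 * (TT D).card) = 12 * (TT D).card := by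
      rw [smul_eq_mul]
      ring
    rwa [h2] at h1
  obtain ⟨P, hPdeg, hPco, hPv⟩ := jpoly (TT D).card (Ξ ^ 2) hΞ2
  have hcoL : P.coeff (TT D).card = (q04_L D : ℤ) := by
    rw [hPco, map_pow, q04_cusp D hD Ξ hΞv, q04_L_eq]
  have hLpos := q04_L_pos D hD
  have hne : P.coeff (TT D).card ≠ 0 := by
    rw [hcoL]
    exact_mod_cast hLpos.ne'
  have hdeg : P.natDegree = (TT D).card := le_antisymm hPdeg (Polynomial.le_natDegree_of_ne_zero hne)
  have hD1 : (1 : ℝ) ≤ D := by exact_mod_cast hD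
  have hY0 : (0 : ℝ) ≤ Y := Nat.cast_nonneg _
  refine ⟨q04_L D, P, hLpos, ?_, ?_, ?_, ?_, ?_⟩
  · refine (q04_L_le D hD).trans (Real.exp_le_exp.2 ?_)
    push_cast
    have : (0 : ℝ) ≤ (D : ℝ) ^ 4 := by positivity
    nlinarith
  · rw [hdeg]
    exact hcard
  · rw [Polynomial.leadingCoeff, hdeg, hcoL]
  · have him := B8a_rt_im D hD
    have h1 := hPv (rt D) him
    have h2 : MvPolynomial.aeval (vals (rt D)) Ξ = 0 := by
      rw [← hΞv _ him]
      obtain ⟨ρ, hρ, hρv⟩ := e6_mem D hD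
      have : ∏ ρ ∈ TT D, (MvPolynomial.aeval (vals (rt D)) (q04_P D) - Gr 1 (rt D) ρ) = 0 := by
        apply Finset.prod_eq_zero hρ
        rw [q04_P_val, hρv, sub_self]
      rw [this, mul_zero]
    rw [map_pow, h2] at h1
    have h3 : dl (rt D) ^ (TT D).card ≠ 0 := pow_ne_zero _ (dl_ne_zero _ him)
    have h4 : dl (rt D) ^ (TT D).card * Polynomial.aeval (jj (rt D)) P = 0 := by
      rw [← h1]
      simp
    exact (mul_eq_zero.1 h4).resolve_left h3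
  · intro z hz hz0
    by_contra hcon
    push Not at hcon
    have h1 := hPv z hz
    rw [hz0, mul_zero, map_pow] at h1
    have h2 : MvPolynomial.aeval (vals z) Ξ = 0 := by
      simpa using h1
    rw [← hΞv z hz] at h2
    have hfac : ((TT D).card.factorial : ℂ) ≠ 0 := by
      exact_mod_cast (Nat.factorial_pos _).ne'
    have h3 := (mul_eq_zero.1 h2).resolve_left hfac
    obtain ⟨ρ, hρ, h4⟩ := Finset.prod_eq_zero_iff.1 h3
    rw [q04_P_val] at h4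
    refine q04_sign D Y hD hY hcusp z ?_ ρ hρ h4
    refine lt_of_le_of_lt ?_ hcon
    push_cast
    nlinarith

end Pool.Agent.MSD
end

end

section

/-! # Q05: the normaliser at √(-D) (MP_f58a57_nt) -/

open Complex ModularForm EisensteinSeries Filter
open UpperHalfPlane hiding I
open scoped Topology MatrixGroups Polynomial

noncomputable section

namespace Pool.Agent.MSD

theorem q05_comp (P : Polynomial ℤ) (Q : Polynomial ℚ) (a : ℂ) :
    Polynomial.aeval a ((P.map (algebraMap ℤ ℚ)).comp Q) = Polynomial.aeval (Polynomial.aeval a Q) P := by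
  rw [Polynomial.aeval_comp, Polynomial.aeval_map_algebraMap]

theorem q05_min_le {a : ℂ} {R : Polynomial ℚ} (hR : R ≠ 0) (h : Polynomial.aeval a R = 0) {m : ℕ}
    (hm : R.natDegree ≤ m) : (minpoly ℚ a).natDegree ≤ m :=
  (Polynomial.natDegree_le_of_dvd (minpoly.dvd ℚ a h) hR).trans hm

theorem q05_comp_ne {P : Polynomial ℚ} (hP : P ≠ 0) {Q : Polynomial ℚ} (hQ : 0 < Q.natDegree) : P.comp Q ≠ 0 := by
  intro h
  rcases Polynomial.comp_eq_zero_iff.1 h with h | h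
  · exact hP h
  · rw [h.2] at hQ
    simp at hQ

/-- Q05. PROOF. `L, P` from `modular_rel`, `J = jj (rt D)`. Choose `Ω₀` with `Ω₀^12 = dl (rt D)` (`IsAlgClosed.exists_pow_nat_eq`), `Ω = Ω₀/L`. Let `u = e4/Ω₀⁴`, `v = e6/Ω₀⁶`: `u³ = J`,
`v² = J - 1728`. `L J` is integral over `ℤ` (`P(J) = 0`, `P.leadingCoeff = L`; Mathlib: `isIntegral_leadingCoeff_smul`), so `(L u)³ = L² (L J)` is integral and `L u` is integral
(`IsIntegral.of_pow`), `(L v)² = L (L J) - 1728 L²` and `L v` are integral. `e4/Ω⁴ = L⁴ u`, `e6/Ω⁶ = L⁶ v`, `dl/Ω^12 = L^12`: this gives `CMBase`.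
`e4/Ω⁴` is a root of `P(X³/L^12) ∈ ℚ[X]` (degree `3 natDegree P`), `e6/Ω⁶` is a root of `P(X²/L^12 + 1728)` (degree `2 natDegree P`): `minpoly.dvd`, `Polynomial.natDegree_le_of_dvd`, `natDegree_comp`.
Every root `a` of the minimal polynomial of `e4/Ω⁴` is a root of `P(X³/L^12)`; so if `a³ = L^12 jj z` then `P(jj z) = 0` and `Im z ≤ C D`. -/
theorem base_unif : ∃ C : ℕ, ∀ D : ℕ, 0 < D → ∃ (Ω : ℂ) (L : ℕ), CMBase (rt D) Ω ∧ 0 < L ∧
    (L : ℝ) ≤ Real.exp ((C : ℝ) * (D : ℝ) ^ 4) ∧ dl (rt D) / Ω ^ 12 = (L : ℂ) ^ 12 ∧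
      (minpoly ℚ (e4 (rt D) / Ω ^ 4)).natDegree ≤ 3 * D ^ 2 ∧ (minpoly ℚ (e6 (rt D) / Ω ^ 6)).natDegree ≤ 2 * D ^ 2 ∧
      ∀ a ∈ (minpoly ℚ (e4 (rt D) / Ω ^ 4)).aroots ℂ, ∀ z : ℂ, 0 < z.im → a ^ 3 = (L : ℂ) ^ 12 * jj z →
        z.im ≤ (C : ℝ) * D := by
  obtain ⟨C, hC⟩ := modular_rel
  refine ⟨C, fun D hD => ?_⟩
  obtain ⟨L, P, hL, hLs, hdeg, hlead, hroot, hzz⟩ := hC D hD
  have him := B8_rt_im D hD
  have hdl := dl_ne_zero (rt D) him
  obtain ⟨Ω₀, hΩ₀⟩ := IsAlgClosed.exists_pow_nat_eq (dl (rt D)) (n := 12) (by norm_num)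
  have hΩ00 : Ω₀ ≠ 0 := by
    rintro rfl
    apply hdl
    rw [← hΩ₀]
    norm_num
  have hL0 : (L : ℂ) ≠ 0 := by exact_mod_cast hL.ne'
  have hP0 : P ≠ 0 := by
    rintro rfl
    simp at hlead
    omega
  have hPQ0 : P.map (algebraMap ℤ ℚ) ≠ 0 := by
    rw [Ne, Polynomial.map_eq_zero_iff (algebraMap ℤ ℚ).injective_int]
    exact hP0
  have hPQd : (P.map (algebraMap ℤ ℚ)).natDegree = P.natDegree :=
    Polynomial.natDegree_map_eq_of_injective (algebraMap ℤ ℚ).injective_int P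
  -- the invariants
  have hJ : jj (rt D) = e4 (rt D) ^ 3 / Ω₀ ^ 12 := by rw [jj, hΩ₀]
  have hJ2 : jj (rt D) - 1728 = e6 (rt D) ^ 2 / Ω₀ ^ 12 := by
    have e : e6 (rt D) ^ 2 = e4 (rt D) ^ 3 - 1728 * Ω₀ ^ 12 := by
      rw [hΩ₀, dl]
      ring
    rw [hJ, e]
    field_simp
  have hu3 : (e4 (rt D) / (Ω₀ / L) ^ 4) ^ 3 = (L : ℂ) ^ 12 * jj (rt D) := by
    rw [hJ]
    field_simp
  have hv2 : (e6 (rt D) / (Ω₀ / L) ^ 6) ^ 2 = (L : ℂ) ^ 12 * (jj (rt D) - 1728) := by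
    rw [hJ2]
    field_simp
  have hd12 : dl (rt D) / (Ω₀ / L) ^ 12 = (L : ℂ) ^ 12 := by
    rw [← hΩ₀]
    field_simp
  have hLJ : IsIntegral ℤ ((L : ℂ) * jj (rt D)) := by
    have h := isIntegral_leadingCoeff_smul P (jj (rt D)) hroot
    rw [hlead, zsmul_eq_mul] at h
    simpa using h
  have hLi : IsIntegral ℤ (L : ℂ) := B8_nat L
  have i4 : IsIntegral ℤ (e4 (rt D) / (Ω₀ / L) ^ 4) := by
    refine IsIntegral.of_pow (n := 3) (by norm_num) ?_
    rw [hu3, show (L : ℂ) ^ 12 * jj (rt D) = (L : ℂ) ^ 11 * ((L : ℂ) * jj (rt D)) by ring]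
    exact (hLi.pow 11).mul hLJ
  have i6 : IsIntegral ℤ (e6 (rt D) / (Ω₀ / L) ^ 6) := by
    refine IsIntegral.of_pow (n := 2) (by norm_num) ?_
    rw [hv2, show (L : ℂ) ^ 12 * (jj (rt D) - 1728) =
      (L : ℂ) ^ 11 * ((L : ℂ) * jj (rt D)) - ((1728 : ℕ) : ℂ) * (L : ℂ) ^ 12 by push_cast; ring]
    exact ((hLi.pow 11).mul hLJ).sub ((B8_nat 1728).mul (hLi.pow 12))
  -- the polynomials
  have hX3 : (Polynomial.C (1 / (L : ℚ) ^ 12) * Polynomial.X ^ 3 : Polynomial ℚ).natDegree = 3 :=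
    Polynomial.natDegree_C_mul_X_pow 3 _ (by positivity)
  have hX2 : (Polynomial.C (1 / (L : ℚ) ^ 12) * Polynomial.X ^ 2 + Polynomial.C 1728 : Polynomial ℚ).natDegree = 2 := by
    rw [Polynomial.natDegree_add_C]
    exact Polynomial.natDegree_C_mul_X_pow 2 _ (by positivity)
  set R3 : Polynomial ℚ := (P.map (algebraMap ℤ ℚ)).comp (Polynomial.C (1 / (L : ℚ) ^ 12) * Polynomial.X ^ 3) with hR3
  set R2 : Polynomial ℚ := (P.map (algebraMap ℤ ℚ)).comp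
    (Polynomial.C (1 / (L : ℚ) ^ 12) * Polynomial.X ^ 2 + Polynomial.C 1728) with hR2
  have hR30 : R3 ≠ 0 := q05_comp_ne hPQ0 (by rw [hX3]; norm_num)
  have hR20 : R2 ≠ 0 := q05_comp_ne hPQ0 (by rw [hX2]; norm_num)
  have hR3d : R3.natDegree ≤ 3 * D ^ 2 := by
    rw [hR3, Polynomial.natDegree_comp, hX3, hPQd]
    nlinarith
  have hR2d : R2.natDegree ≤ 2 * D ^ 2 := by
    rw [hR2, Polynomial.natDegree_comp, hX2, hPQd]
    nlinarith
  have hev3 : ∀ a : ℂ, Polynomial.aeval a R3 = Polynomial.aeval (a ^ 3 / (L : ℂ) ^ 12) P := by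
    intro a
    have e : Polynomial.aeval a (Polynomial.C (1 / (L : ℚ) ^ 12) * Polynomial.X ^ 3 : Polynomial ℚ) = a ^ 3 / (L : ℂ) ^ 12 := by
      simp only [map_mul, Polynomial.aeval_C, map_pow, Polynomial.aeval_X, eq_ratCast]
      push_cast
      field_simp
    rw [hR3, q05_comp, e]
  have hev2 : ∀ a : ℂ, Polynomial.aeval a R2 = Polynomial.aeval (a ^ 2 / (L : ℂ) ^ 12 + 1728) P := by
    intro a
    have e : Polynomial.aeval a (Polynomial.C (1 / (L : ℚ) ^ 12) * Polynomial.X ^ 2 + Polynomial.C 1728 : Polynomial ℚ) =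
        a ^ 2 / (L : ℂ) ^ 12 + 1728 := by
      simp only [map_add, map_mul, Polynomial.aeval_C, map_pow, Polynomial.aeval_X, eq_ratCast]
      push_cast
      field_simp
    rw [hR2, q05_comp, e]
  have h3 : Polynomial.aeval (e4 (rt D) / (Ω₀ / L) ^ 4) R3 = 0 := by
    rw [hev3, hu3, mul_div_cancel_left₀ _ (pow_ne_zero _ hL0)]
    exact hroot
  have h2 : Polynomial.aeval (e6 (rt D) / (Ω₀ / L) ^ 6) R2 = 0 := by
    rw [hev2, hv2, mul_div_cancel_left₀ _ (pow_ne_zero _ hL0), sub_add_cancel]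
    exact hroot
  refine ⟨Ω₀ / L, L, ⟨him, div_ne_zero hΩ00 hL0, i4, i6, ?_⟩, hL, hLs, hd12, q05_min_le hR30 h3 hR3d,
    q05_min_le hR20 h2 hR2d, ?_⟩
  · rw [hd12]
    exact hLi.pow 12
  · intro a ha z hz haz
    have ha' : Polynomial.aeval a (minpoly ℚ (e4 (rt D) / (Ω₀ / L) ^ 4)) = 0 := by
      rw [Polynomial.mem_aroots] at ha
      exact ha.2
    obtain ⟨R, hR⟩ := minpoly.dvd ℚ _ h3
    have ha3 : Polynomial.aeval a R3 = 0 := by
      rw [hR, map_mul, ha', zero_mul]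
    rw [hev3, haz, mul_div_cancel_left₀ _ (pow_ne_zero _ hL0)] at ha3
    exact hzz z hz ha3

end Pool.Agent.MSD
end

end

section

/-! # Q09: uniform control (MP_f58a57_nt) -/

open Complex ModularForm EisensteinSeries Filter
open UpperHalfPlane hiding I
open scoped Topology MatrixGroups Polynomial

noncomputable section

namespace Pool.Agent.MSD

/-- Q09. PROOF. `Om D, L D` from `base_unif` (`Om 0 = 1`). Integrality: `Gr_integral`. Algebraicity: `ctrl_Gr` or `b7c_isAlg`. Degree: `degree_le` with `c = L^12`: at most `3 D² · 2 D² · N²`.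
Conjugates: `conj_mem` gives `a, b` with `a³ - b² = 1728 L^12 ≠ 0`; `uniformization_red a b` gives `τ', Ω'`, `Im τ' ≥ 1/2`, with these values; `dl τ'/Ω'^12 = (a³ - b²)/1728 = L^12`, so
`a³ = e4(τ')³/Ω'^12 = jj τ' · L^12` and `Im τ' ≤ C D` by the last clause of `base_unif`. `r = Gr κ τ' ρ'/Ω'^w`, `‖Gr κ τ' ρ'‖ ≤ C N^C` (`Gr_bound_unif`), `‖Ω'‖^(-12) = L^12/‖dl τ'‖ ≤ L^12 exp(2π C D)/c`
(`dl_lower`), and `y^w ≤ 1 + y^12` for `y ≥ 0`, `w ≤ 12`. All bounds are `≤ exp((D+N+1)^C')` for a suitable `C'`. -/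
theorem uctrl : ∃ (Om : ℕ → ℂ) (C : ℕ), UCtrl Om C := by
  classical
  obtain ⟨C₁, h₁⟩ := base_unif
  choose! Om L hbase hL0 hLe hdl hd4 hd6 him using h₁
  obtain ⟨c, hc0, hc⟩ := dl_lower
  obtain ⟨C₂, h₂⟩ := Gr_bound_unif
  obtain ⟨M, hM⟩ := exists_nat_ge (1 / c)
  refine ⟨Om, 2 * C₂ + 19 * C₁ + M + 8, fun D hD => hbase D hD, ?_⟩
  intro D hD κ N hN ρ hρ
  have hcq : dl (rt D) / Om D ^ 12 = ((((L D : ℕ) : ℚ) ^ 12 : ℚ) : ℂ) := by
    rw [hdl D hD]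
    push_cast
    rfl
  have hL1 : (0 : ℝ) < (L D : ℝ) := by exact_mod_cast hL0 D hD
  have hLne : ((L D : ℕ) : ℂ) ≠ 0 := by exact_mod_cast (hL0 D hD).ne'
  have hDr : (0 : ℝ) ≤ (D : ℝ) := Nat.cast_nonneg _
  have hC₁ : (0 : ℝ) ≤ (C₁ : ℝ) := Nat.cast_nonneg _
  have hC₂ : (0 : ℝ) ≤ (C₂ : ℝ) := Nat.cast_nonneg _
  set A : ℝ := 12 * (C₁ * (D : ℝ) ^ 4) + 7 * (C₁ * D) with hA
  have hA0 : 0 ≤ A := by positivity
  set S : ℝ := (C₂ : ℝ) * (N : ℝ) ^ C₂ * (1 + Real.exp A / c) with hS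
  have hx3 : (3 : ℝ) ≤ ((D + N + 1 : ℕ) : ℝ) := by
    have : 3 ≤ D + N + 1 := by omega
    exact_mod_cast this
  have hx1 : (1 : ℝ) ≤ ((D + N + 1 : ℕ) : ℝ) := by linarith
  have hDx : (D : ℝ) ≤ ((D + N + 1 : ℕ) : ℝ) := by
    have : D ≤ D + N + 1 := by omega
    exact_mod_cast this
  have hNx : (N : ℝ) ≤ ((D + N + 1 : ℕ) : ℝ) := by
    have : N ≤ D + N + 1 := by omega
    exact_mod_cast this
  refine ⟨(3 * D ^ 2) * (2 * D ^ 2) * N ^ 2, S, ⟨b7c_isAlg _ _ (hbase D hD) κ N hN ρ hρ,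
    Gr_integral _ _ (hbase D hD) κ N hN ρ hρ, ?_, ?_⟩, ?_, ?_⟩
  · -- degree
    refine (degree_le _ _ (hbase D hD) _ hcq κ N hN ρ hρ).trans ?_
    exact Nat.mul_le_mul_right _ (Nat.mul_le_mul (hd4 D hD) (hd6 D hD))
  · -- conjugates
    intro r hr
    obtain ⟨a, ha, b, hab, hfam⟩ := conj_mem _ _ (hbase D hD) _ hcq κ N hN ρ hρ r hr
    have hab0 : a ^ 3 ≠ b ^ 2 := by
      intro hcon
      rw [hcon, sub_self] at hab
      have h0 : (1728 : ℂ) * ((((L D : ℕ) : ℚ) ^ 12 : ℚ) : ℂ) ≠ 0 := by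
        refine mul_ne_zero (by norm_num) ?_
        push_cast
        exact pow_ne_zero _ hLne
      exact h0 hab.symm
    obtain ⟨τ', Ω', him', hne', h4', h6'⟩ := uniformization_red a b hab0
    have him0 : 0 < τ'.im := by linarith
    obtain ⟨ρ', hρ', hrr⟩ := hfam τ' Ω' him0 hne' h4' h6'
    have hdl' : dl τ' / Ω' ^ 12 = ((L D : ℕ) : ℂ) ^ 12 := by
      have e3 : dl τ' / Ω' ^ 12 = ((e4 τ' / Ω' ^ 4) ^ 3 - (e6 τ' / Ω' ^ 6) ^ 2) / 1728 := by
        rw [dl]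
        field_simp
      rw [e3, h4', h6', hab]
      push_cast
      ring
    have hdl0 : dl τ' ≠ 0 := dl_ne_zero τ' him0
    have ha3 : a ^ 3 = ((L D : ℕ) : ℂ) ^ 12 * jj τ' := by
      rw [← h4', ← hdl', jj]
      field_simp
    have himle : τ'.im ≤ (C₁ : ℝ) * D := him D hD a ha τ' him0 ha3
    have hdlow : c * Real.exp (-(7 * (C₁ * D))) ≤ ‖dl τ'‖ := by
      refine le_trans ?_ (hc τ' him')
      refine mul_le_mul_of_nonneg_left ?_ hc0.le
      rw [Real.exp_le_exp]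
      have hpi : 2 * Real.pi ≤ 7 := by linarith [Real.pi_lt_d2]
      have : 2 * Real.pi * τ'.im ≤ 7 * (C₁ * D) :=
        mul_le_mul hpi himle him0.le (by norm_num)
      linarith
    have hΩpos : 0 < ‖Ω'‖ := norm_pos_iff.2 hne'
    have hΩ12 : (‖Ω'‖⁻¹) ^ 12 = (L D : ℝ) ^ 12 / ‖dl τ'‖ := by
      have h1 : ‖dl τ'‖ / ‖Ω'‖ ^ 12 = (L D : ℝ) ^ 12 := by
        rw [← norm_pow, ← norm_div, hdl', norm_pow, Complex.norm_natCast]
      have h2 : ‖dl τ'‖ ≠ 0 := norm_ne_zero_iff.2 hdl0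
      rw [← h1]
      field_simp
    have hΩle : (‖Ω'‖⁻¹) ^ 12 ≤ Real.exp A / c := by
      rw [hΩ12]
      have h3 : (L D : ℝ) ^ 12 ≤ Real.exp (12 * (C₁ * (D : ℝ) ^ 4)) := by
        calc (L D : ℝ) ^ 12 ≤ (Real.exp (C₁ * (D : ℝ) ^ 4)) ^ 12 :=
              pow_le_pow_left₀ hL1.le (hLe D hD) _
          _ = Real.exp (12 * (C₁ * (D : ℝ) ^ 4)) := by
              rw [← Real.exp_nat_mul]
              norm_num
      calc (L D : ℝ) ^ 12 / ‖dl τ'‖
          ≤ Real.exp (12 * (C₁ * (D : ℝ) ^ 4)) / (c * Real.exp (-(7 * (C₁ * D)))) := by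
            refine div_le_div₀ (Real.exp_pos _).le h3 (by positivity) hdlow
        _ = Real.exp A / c := by
            rw [hA, Real.exp_add, Real.exp_neg]
            field_simp
    have hw : (‖Ω'‖⁻¹) ^ kwt κ ≤ 1 + Real.exp A / c := by
      have hy : 0 ≤ ‖Ω'‖⁻¹ := by positivity
      have hk : kwt κ ≤ 12 := by
        fin_cases κ <;> simp [kwt]
      rcases le_total (‖Ω'‖⁻¹) 1 with h5 | h5
      · have : (‖Ω'‖⁻¹) ^ kwt κ ≤ 1 := pow_le_one₀ hy h5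
        have h6 : 0 ≤ Real.exp A / c := by positivity
        linarith
      · have : (‖Ω'‖⁻¹) ^ kwt κ ≤ (‖Ω'‖⁻¹) ^ 12 := pow_le_pow_right₀ h5 hk
        linarith
    rw [hrr, norm_div, norm_pow, div_eq_mul_inv, ← inv_pow, hS]
    refine mul_le_mul (h₂ τ' him' κ N hN ρ' hρ') hw (by positivity) (by positivity)
  · -- size of the degree
    have h8 : (((3 * D ^ 2) * (2 * D ^ 2) * N ^ 2 : ℕ) : ℝ) ≤ ((D + N + 1 : ℕ) : ℝ) ^ 8 := by
      push_cast
      have hN0 : (0 : ℝ) ≤ (N : ℝ) := Nat.cast_nonneg _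
      have hx : (3 : ℝ) ≤ (D : ℝ) + N + 1 := by
        have := hx3
        push_cast at this
        exact this
      have hDx' : (D : ℝ) ≤ (D : ℝ) + N + 1 := by linarith
      have hNx' : (N : ℝ) ≤ (D : ℝ) + N + 1 := by linarith
      have h6 : (6 : ℝ) ≤ ((D : ℝ) + N + 1) ^ 2 := by nlinarith
      have hD4 : (D : ℝ) ^ 4 ≤ ((D : ℝ) + N + 1) ^ 4 := pow_le_pow_left₀ hDr hDx' 4
      have hN2 : (N : ℝ) ^ 2 ≤ ((D : ℝ) + N + 1) ^ 2 := pow_le_pow_left₀ hN0 hNx' 2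
      calc (3 * (D : ℝ) ^ 2) * (2 * (D : ℝ) ^ 2) * (N : ℝ) ^ 2 = 6 * (D : ℝ) ^ 4 * (N : ℝ) ^ 2 := by ring
        _ ≤ ((D : ℝ) + N + 1) ^ 2 * ((D : ℝ) + N + 1) ^ 4 * ((D : ℝ) + N + 1) ^ 2 := by
            refine mul_le_mul (mul_le_mul h6 hD4 (by positivity) (by positivity)) hN2 (by positivity) (by positivity)
        _ = ((D : ℝ) + N + 1) ^ 8 := by ring
    exact h8.trans (pow_le_pow_right₀ hx1 (by omega))
  · -- size of the conjugates
    have hN0 : (0 : ℝ) ≤ (N : ℝ) := Nat.cast_nonneg _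
    have e1 : (C₂ : ℝ) ≤ Real.exp C₂ := by linarith [Real.add_one_le_exp (C₂ : ℝ)]
    have e2 : (N : ℝ) ^ C₂ ≤ Real.exp (C₂ * N) := by
      rw [Real.exp_nat_mul]
      exact pow_le_pow_left₀ hN0 (by linarith [Real.add_one_le_exp (N : ℝ)]) _
    have e3 : 1 + Real.exp A / c ≤ Real.exp (A + 1 / c) := by
      rw [Real.exp_add A (1 / c)]
      have h5 : 1 ≤ Real.exp A := Real.one_le_exp hA0
      have h6 : 1 + 1 / c ≤ Real.exp (1 / c) := by linarith [Real.add_one_le_exp (1 / c)]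
      calc 1 + Real.exp A / c ≤ Real.exp A + Real.exp A / c := by linarith
        _ = Real.exp A * (1 + 1 / c) := by ring
        _ ≤ Real.exp A * Real.exp (1 / c) := mul_le_mul_of_nonneg_left h6 (Real.exp_pos _).le
    have e4' : S ≤ Real.exp (C₂ + C₂ * N + (A + 1 / c)) := by
      rw [Real.exp_add (C₂ + C₂ * N) (A + 1 / c), Real.exp_add (C₂ : ℝ) (C₂ * N), hS]
      refine mul_le_mul (mul_le_mul e1 e2 (by positivity) (Real.exp_pos _).le) e3 (by positivity) (by positivity)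
    refine e4'.trans ?_
    rw [Real.exp_le_exp]
    set x : ℝ := ((D + N + 1 : ℕ) : ℝ) with hx
    have hx4 : x ≤ x ^ 4 := by
      calc x = x ^ 1 := (pow_one x).symm
        _ ≤ x ^ 4 := pow_le_pow_right₀ hx1 (by norm_num)
    have h14 : (1 : ℝ) ≤ x ^ 4 := hx1.trans hx4
    have hx0 : 0 ≤ x := by linarith
    have b1 : (C₂ : ℝ) ≤ C₂ * x ^ 4 := by nlinarith
    have b2 : (C₂ : ℝ) * N ≤ C₂ * x ^ 4 := mul_le_mul_of_nonneg_left (hNx.trans hx4) hC₂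
    have b3 : 12 * ((C₁ : ℝ) * (D : ℝ) ^ 4) ≤ 12 * (C₁ * x ^ 4) := by
      have : (D : ℝ) ^ 4 ≤ x ^ 4 := pow_le_pow_left₀ hDr hDx 4
      have := mul_le_mul_of_nonneg_left this hC₁
      linarith
    have b4 : 7 * ((C₁ : ℝ) * (D : ℝ)) ≤ 7 * (C₁ * x ^ 4) := by
      have := mul_le_mul_of_nonneg_left (hDx.trans hx4) hC₁
      linarith
    have b5 : 1 / c ≤ (M : ℝ) * x ^ 4 := by
      have hM0 : (0 : ℝ) ≤ (M : ℝ) := Nat.cast_nonneg _
      nlinarith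
    set K : ℕ := 2 * C₂ + 19 * C₁ + M with hK
    have b6 : (C₂ : ℝ) + C₂ * N + (A + 1 / c) ≤ (K : ℝ) * x ^ 4 := by
      rw [hA, hK]
      push_cast
      linarith
    refine b6.trans ?_
    have b7 : (K : ℝ) ≤ x ^ K := by
      have : K < 2 ^ K := Nat.lt_two_pow_self
      have h2 : (K : ℝ) ≤ (2 : ℝ) ^ K := by exact_mod_cast this.le
      exact h2.trans (pow_le_pow_left₀ (by norm_num) (by linarith) _)
    calc (K : ℝ) * x ^ 4 ≤ x ^ K * x ^ 4 := mul_le_mul_of_nonneg_right b7 (by positivity)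
      _ = x ^ (K + 4) := (pow_add x K 4).symm
      _ ≤ x ^ (K + 8) := pow_le_pow_right₀ hx1 (by omega)

end Pool.Agent.MSD
end

end
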