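import Mathlib
import Pool.Agent.Lib.MP_f58a57_nt.FK.K057
import Pool.Agent.Lib.MP_f58a57_nt.FK.K060
import Pool.Agent.Lib.MP_f58a57_nt.Q00_Defs

section

/-! # Q14: the family: real points, analyticity (MP_f58a57_nt) -/

open Complex ModularForm EisensteinSeries Filter
open UpperHalfPlane hiding I
open scoped Topology MatrixGroups Polynomial

noncomputable section

namespace Pool.Agent.MSD

theorem q14_aeval_conj {m : ℕ} (U : MvPolynomial (Fin m) ℚ) (y : Fin m → ℂ) :
    MvPolynomial.aeval (fun l => (starRingEnd ℂ) (y l)) U = (starRingEnd ℂ) (MvPolynomial.aeval y U) := by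
  rw [MvPolynomial.aeval_def, MvPolynomial.aeval_def, MvPolynomial.eval₂_comp_left]
  have h1 : (starRingEnd ℂ).comp (algebraMap ℚ ℂ) = algebraMap ℚ ℂ := Subsingleton.elim _ _
  rw [h1]
  rfl

theorem q14_sqrt {r : ℝ} (hr : 0 < r) : (starRingEnd ℂ) ((r : ℂ) ^ (1 / 2 : ℂ)) = (r : ℂ) ^ (1 / 2 : ℂ) := by
  have h : ((r : ℂ) ^ (1 / 2 : ℂ)) = ((r ^ (1 / 2 : ℝ) : ℝ) : ℂ) := by
    rw [Complex.ofReal_cpow hr.le]
    norm_num
  rw [h, Complex.conj_ofReal]

theorem q14_tw_conj {m : ℕ} (b : Fin m) (x : Fin m → ℝ) (hx : 0 < x b) :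
    tw (-I) b (fun l => (x l : ℂ)) = fun l => (starRingEnd ℂ) (tw I b (fun l => (x l : ℂ)) l) := by
  funext l
  by_cases hl : l = b
  · subst hl
    simp only [tw, Function.update_self, map_mul, Complex.conj_I, q14_sqrt hx]
  · simp only [tw, Function.update_of_ne hl, Complex.conj_ofReal]

/-- Q14a. PROOF. For `x b > 0`, `(x b : ℂ)^(1/2) = √(x b)` is real, so `tw (-I) b x` is the complex conjugate of `tw I b x`, and the coefficients of `U, W` are rational. -/
theorem zq_conj {m : ℕ} (b : Fin m) (U W : MvPolynomial (Fin m) ℚ) (x : Fin m → ℝ) (hx : 0 < x b) :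
    zq (-I) b U W (fun l => (x l : ℂ)) = (starRingEnd ℂ) (zq I b U W (fun l => (x l : ℂ))) := by
  rw [zq, zq, q14_tw_conj b x hx, q14_aeval_conj, q14_aeval_conj, map_div₀]

/-- Q14b. PROOF. `zq_conj`; `z - z̄ = 2 i Im z`; as `famMS_real` (`M06_FamMS.lean`). -/
theorem famQ_real {m : ℕ} {ι : Type} (b : ι → Fin m) (U W : ι → MvPolynomial (Fin m) ℚ) (x : Fin m → ℝ) (i : ι) (hx : 0 < x (b i))
    (κ : Fin 3) (z : ℂ) (hz : z = zq I (b i) (U i) (W i) (fun l => (x l : ℂ))) :
    famQ b U W (fun l => (x l : ℂ)) (Sum.inr (i, κ)) = ![e2s z, e4 z, e6 z] κ := by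
  have hb := zq_conj (b i) (U i) (W i) x hx
  rw [← hz] at hb
  have h0 : famQ b U W (fun l => (x l : ℂ)) (Sum.inr (i, κ)) =
      ![(e2 z - 6 * I / (Real.pi * (z - (starRingEnd ℂ) z))), e4 z, e6 z] κ := by
    rw [← hb, hz]
    rfl
  rw [h0]
  fin_cases κ
  · show (e2 z - 6 * I / (Real.pi * (z - (starRingEnd ℂ) z))) = e2s z
    rw [Complex.sub_conj]
    unfold e2s
    congr 1
    set y := z.im with hy
    by_cases hy0 : y = 0
    · simp [hy0]
    · have hpi : (Real.pi : ℂ) ≠ 0 := by exact_mod_cast Real.pi_ne_zero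
      have hyc : (y : ℂ) ≠ 0 := by exact_mod_cast hy0
      push_cast
      field_simp
      ring
  · rfl
  · rfl

theorem q14_tw_analytic {m : ℕ} (c : ℂ) (b : Fin m) (x : Fin m → ℝ) (hx : 0 < x b) (l : Fin m) :
    AnalyticAt ℂ (fun y : Fin m → ℂ => tw c b y l) (fun l => (x l : ℂ)) := by
  have hproj : ∀ l : Fin m, AnalyticAt ℂ (fun y : Fin m → ℂ => y l) (fun l => (x l : ℂ)) := fun l =>
    (ContinuousLinearMap.proj (R := ℂ) (φ := fun _ : Fin m => ℂ) l).analyticAt _
  by_cases hl : l = b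
  · subst hl
    simp only [tw, Function.update_self]
    refine analyticAt_const.mul ((hproj l).cpow analyticAt_const ?_)
    exact Or.inl (by simpa using hx)
  · simp only [tw, Function.update_of_ne hl]
    exact hproj l

theorem q14_poly_analytic {m : ℕ} (c : ℂ) (b : Fin m) (x : Fin m → ℝ) (hx : 0 < x b) (Q : MvPolynomial (Fin m) ℚ) :
    AnalyticAt ℂ (fun y : Fin m → ℂ => MvPolynomial.aeval (tw c b y) Q) (fun l => (x l : ℂ)) :=
  AnalyticAt.aeval_mvPolynomial (𝕜 := ℂ) (f := fun y : Fin m → ℂ => tw c b y) (q14_tw_analytic c b x hx) Q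

theorem q14_zq_analytic {m : ℕ} (c : ℂ) (b : Fin m) (U W : MvPolynomial (Fin m) ℚ) (x : Fin m → ℝ) (hx : 0 < x b)
    (hW : MvPolynomial.aeval (tw c b (fun l => (x l : ℂ))) W ≠ 0) :
    AnalyticAt ℂ (fun y : Fin m → ℂ => zq c b U W y) (fun l => (x l : ℂ)) :=
  (q14_poly_analytic c b x hx U).div (q14_poly_analytic c b x hx W) hW

/-- Q14c. PROOF. The coordinates of `tw c b y` are analytic at `x` (`x b > 0` is in the slit plane: `AnalyticAt.cpow`), so `zq` is (denominators do not vanish: `SysQ.ne`, and its conjugate for `-I`), `z - z̄ ≠ 0` at `x`,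
`Im z > 0`; `e2, e4, e6` are holomorphic there (`famM_analytic`, `famMS_analytic` in `M04a_An.lean`, `M06_FamMS.lean` as models). -/
theorem famQ_analytic {m : ℕ} (V : Finset (Fin m)) (x : Fin m → ℝ) {ι : Type} (b : ι → Fin m) (U W : ι → MvPolynomial (Fin m) ℚ)
    (h : SysQ V x b U W) (p : Fin m ⊕ (ι × Fin 3)) : AnalyticAt ℂ (fun y => famQ b U W y p) (fun l => (x l : ℂ)) := by
  match p with
  | Sum.inl l => exact (ContinuousLinearMap.proj (R := ℂ) (φ := fun _ : Fin m => ℂ) l).analyticAt _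
  | Sum.inr (i, κ) =>
    have hx : 0 < x (b i) := h.pos _ (h.bV i)
    have hW := h.ne i
    have hW' : MvPolynomial.aeval (tw (-I) (b i) (fun l => (x l : ℂ))) (W i) ≠ 0 := by
      rw [q14_tw_conj (b i) x hx, q14_aeval_conj]
      exact (map_ne_zero _).2 hW
    have hz := q14_zq_analytic I (b i) (U i) (W i) x hx hW
    have hz' := q14_zq_analytic (-I) (b i) (U i) (W i) x hx hW'
    have hE : ∀ κ : Fin 3, AnalyticAt ℂ (fun y : Fin m → ℂ => EE κ (zq I (b i) (U i) (W i) y)) (fun l => (x l : ℂ)) := by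
      intro κ
      exact AnalyticAt.fun_comp (g := EE κ) (f := fun y : Fin m → ℂ => zq I (b i) (U i) (W i) y)
        (F4_EE_analytic κ _ (h.im i)) hz
    have hne : zq I (b i) (U i) (W i) (fun l => (x l : ℂ)) - zq (-I) (b i) (U i) (W i) (fun l => (x l : ℂ)) ≠ 0 := by
      rw [zq_conj (b i) (U i) (W i) x hx, Complex.sub_conj]
      have h1 := (h.im i).ne'
      have h2 : ((zq I (b i) (U i) (W i) (fun l => (x l : ℂ))).im : ℂ) ≠ 0 := by exact_mod_cast h1
      push_cast
      exact mul_ne_zero (mul_ne_zero two_ne_zero h2) I_ne_zero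
    have hpi : (Real.pi : ℂ) ≠ 0 := by exact_mod_cast Real.pi_ne_zero
    fin_cases κ
    · exact (hE 0).sub (AnalyticAt.div analyticAt_const (analyticAt_const.mul (hz.sub hz')) (mul_ne_zero hpi hne))
    · exact hE 1
    · exact hE 2

/-- Q14d. PROOF. Quotients of the functions of Q14c with nonvanishing denominators. -/
theorem famN_analytic {m : ℕ} (V : Finset (Fin m)) (x : Fin m → ℝ) {ι : Type} (b : ι → Fin m) (U W : ι → MvPolynomial (Fin m) ℚ)
    (h : SysQ V x b U W) (k : ι → ι) (h0 : ∀ i, e4 (zq I (b i) (U i) (W i) (fun l => (x l : ℂ))) ≠ 0 ∧ e6 (zq I (b i) (U i) (W i) (fun l => (x l : ℂ))) ≠ 0)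
    (p : Fin m ⊕ (ι × Fin 3)) : AnalyticAt ℂ (fun y => nrm k (famQ b U W y) p) (fun l => (x l : ℂ)) := by
  match p with
  | Sum.inl l => exact famQ_analytic V x b U W h (Sum.inl l)
  | Sum.inr (i, κ) =>
    have h4 := famQ_analytic V x b U W h (Sum.inr (k i, 1))
    have h6 := famQ_analytic V x b U W h (Sum.inr (k i, 2))
    have hq : AnalyticAt ℂ (fun y => famQ b U W y (Sum.inr (k i, 2)) / famQ b U W y (Sum.inr (k i, 1))) (fun l => (x l : ℂ)) :=
      h6.div h4 (h0 (k i)).1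
    exact (famQ_analytic V x b U W h (Sum.inr (i, κ))).div (hq.pow _)
      (pow_ne_zero _ (div_ne_zero (h0 (k i)).2 (h0 (k i)).1))

end Pool.Agent.MSD
end

end

section

/-! # Q18: the field ℚ(x_l, √(-x_b)) (MP_f58a57_nt) -/

open Complex ModularForm EisensteinSeries Filter
open UpperHalfPlane hiding I
open scoped Topology MatrixGroups Polynomial

noncomputable section

namespace Pool.Agent.MSD

theorem q18_cpow (x : ℝ) (hx : 0 < x) : ((x : ℂ) ^ (1 / 2 : ℂ)) = ((Real.sqrt x : ℝ) : ℂ) := by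
  rw [Real.sqrt_eq_rpow, Complex.ofReal_cpow hx.le]
  norm_num

theorem q18_tw_self {m : ℕ} (c : ℂ) (x : Fin m → ℝ) (b : Fin m) (hb : 0 < x b) :
    tw c b (fun l => (x l : ℂ)) b = c * ((Real.sqrt (x b) : ℝ) : ℂ) := by
  unfold tw
  rw [Function.update_self, q18_cpow _ hb]

theorem q18_tw_ne {m : ℕ} (c : ℂ) (x : Fin m → ℝ) (b l : Fin m) (h : l ≠ b) :
    tw c b (fun l => (x l : ℂ)) l = (x l : ℂ) := by
  unfold tw
  rw [Function.update_of_ne h]

theorem q18_sq (x : ℝ) (hx : 0 < x) : ((((Real.sqrt x : ℝ) : ℂ)) * I) ^ 2 = - (x : ℂ) := by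
  rw [mul_pow, I_sq, ← Complex.ofReal_pow, Real.sq_sqrt hx.le]
  ring

/-- Q18a. PROOF. As `mem_rep` (`M13_Rep.lean`), `IntermediateField.adjoin_induction`; the generator `√(x b) i` is `X b` at `tw I b x` (`isq`: `(x b : ℂ)^(1/2) = √(x b)`). -/
theorem memFV_rep {m : ℕ} (V : Finset (Fin m)) (x : Fin m → ℝ) (b : Fin m) (hb : 0 < x b) (z : ℂ) (hz : z ∈ FV V x b) :
    ∃ U W : MvPolynomial (Fin m) ℚ, (∀ l ∈ U.vars, l ∈ V → l = b) ∧ (∀ l ∈ W.vars, l ∈ V → l = b) ∧
      MvPolynomial.aeval (tw I b (fun l => (x l : ℂ))) W ≠ 0 ∧ z = zq I b U W (fun l => (x l : ℂ)) := by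
  classical
  have hmulv : ∀ P Q : MvPolynomial (Fin m) ℚ, (∀ l ∈ P.vars, l ∈ V → l = b) → (∀ l ∈ Q.vars, l ∈ V → l = b) →
      ∀ l ∈ (P * Q).vars, l ∈ V → l = b := by
    intro P Q hP hQ l hl
    rcases Finset.mem_union.1 (MvPolynomial.vars_mul P Q hl) with h | h
    · exact hP l h
    · exact hQ l h
  have haddv : ∀ P Q : MvPolynomial (Fin m) ℚ, (∀ l ∈ P.vars, l ∈ V → l = b) → (∀ l ∈ Q.vars, l ∈ V → l = b) →
      ∀ l ∈ (P + Q).vars, l ∈ V → l = b := by
    intro P Q hP hQ l hl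
    rcases Finset.mem_union.1 (MvPolynomial.vars_add_subset P Q hl) with h | h
    · exact hP l h
    · exact hQ l h
  have hCv : ∀ c : ℚ, ∀ l ∈ (MvPolynomial.C c : MvPolynomial (Fin m) ℚ).vars, l ∈ V → l = b := by
    intro c l hl
    simp [MvPolynomial.vars_C] at hl
  have h1v : ∀ l ∈ (1 : MvPolynomial (Fin m) ℚ).vars, l ∈ V → l = b := by
    intro l hl
    have := hCv 1 l
    rw [MvPolynomial.C_1] at this
    exact this hl
  have hXb : ∀ l ∈ (MvPolynomial.X b : MvPolynomial (Fin m) ℚ).vars, l ∈ V → l = b := by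
    intro l hl _
    rw [MvPolynomial.vars_X, Finset.mem_singleton] at hl
    exact hl
  unfold zq
  unfold FV at hz
  induction hz using IntermediateField.adjoin_induction with
  | mem y hy =>
    rcases hy with hy | ⟨l, hl, hy⟩
    · refine ⟨MvPolynomial.X b, 1, hXb, h1v, ?_, ?_⟩
      · simp
      · rw [Set.mem_singleton_iff] at hy
        rw [hy, MvPolynomial.aeval_X, map_one, div_one, q18_tw_self I x b hb, mul_comm]
    · by_cases hlb : l = b
      · subst hlb
        refine ⟨MvPolynomial.C (-1) * (MvPolynomial.X l * MvPolynomial.X l), 1, ?_, h1v, ?_, ?_⟩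
        · exact hmulv _ _ (hCv _) (hmulv _ _ hXb hXb)
        · simp
        · rw [hy, map_mul, map_mul, MvPolynomial.aeval_C, MvPolynomial.aeval_X, map_one, div_one,
            q18_tw_self I x l hb]
          have h2 := q18_sq (x l) hb
          have h3 : (algebraMap ℚ ℂ) (-1) = -1 := by simp
          rw [h3]
          linear_combination h2
      · refine ⟨MvPolynomial.X l, 1, ?_, h1v, ?_, ?_⟩
        · intro l' hl' hV
          rw [MvPolynomial.vars_X, Finset.mem_singleton] at hl'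
          rw [hl'] at hV
          exact absurd hV hl
        · simp
        · rw [MvPolynomial.aeval_X, q18_tw_ne I x b l hlb, map_one, div_one, hy]
  | algebraMap y =>
    refine ⟨MvPolynomial.C y, 1, hCv _, h1v, ?_, ?_⟩
    · simp
    · rw [MvPolynomial.aeval_C, map_one, div_one]
  | add y y' _ _ hx hy =>
    obtain ⟨U, W, hU, hW, h0, h1⟩ := hx
    obtain ⟨U', W', hU', hW', h0', h1'⟩ := hy
    refine ⟨U * W' + W * U', W * W', haddv _ _ (hmulv _ _ hU hW') (hmulv _ _ hW hU'), hmulv _ _ hW hW', ?_, ?_⟩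
    · rw [map_mul]; exact mul_ne_zero h0 h0'
    · rw [map_mul, map_add, map_mul, map_mul, h1, h1', div_add_div _ _ h0 h0']
  | inv y _ hx =>
    obtain ⟨U, W, hU, hW, h0, h1⟩ := hx
    by_cases hU0 : MvPolynomial.aeval (tw I b (fun l => (x l : ℂ))) U = 0
    · refine ⟨0, 1, ?_, h1v, ?_, ?_⟩
      · intro l hl
        simp at hl
      · simp
      · rw [h1, hU0]; simp
    · refine ⟨W, U, hW, hU, hU0, ?_⟩
      rw [h1, inv_div]
  | mul y y' _ _ hx hy =>
    obtain ⟨U, W, hU, hW, h0, h1⟩ := hx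
    obtain ⟨U', W', hU', hW', h0', h1'⟩ := hy
    refine ⟨U * U', W * W', hmulv _ _ hU hU', hmulv _ _ hW hW', ?_, ?_⟩
    · rw [map_mul]; exact mul_ne_zero h0 h0'
    · rw [map_mul, map_mul, h1, h1', div_mul_div_comm]

theorem q18_set {m : ℕ} (V : Finset (Fin m)) (x : Fin m → ℝ) :
    {y : ℂ | ∃ l, l ∉ V ∧ y = (x l : ℂ)} = (fun l => (x l : ℂ)) '' {l | l ∉ V} := by
  ext y
  constructor
  · rintro ⟨l, hl, rfl⟩
    exact ⟨l, hl, rfl⟩
  · rintro ⟨l, hl, rfl⟩
    exact ⟨l, hl, rfl⟩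

theorem q18_trans {m : ℕ} (V : Finset (Fin m)) (x : Fin m → ℝ) (hx : AlgebraicIndependent ℚ (fun l => (x l : ℂ))) (b : Fin m) (hbV : b ∈ V) :
    ¬ IsAlgebraic (IntermediateField.adjoin ℚ {y : ℂ | ∃ l, l ∉ V ∧ y = (x l : ℂ)}) (x b : ℂ) := by
  rw [IntermediateField.isAlgebraic_adjoin_iff, q18_set]
  have h := hx.transcendental_adjoin (s := {l | l ∉ V}) (i := b) (by simp [hbV])
  exact h

theorem q18_eval {m : ℕ} (V : Finset (Fin m)) (x : Fin m → ℝ) (b : Fin m) (K : IntermediateField ℚ ℂ) (hK : ∀ l, l ∉ V → (x l : ℂ) ∈ K)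
    (g : Fin m → Polynomial K) (hgb : g b = Polynomial.X) (hg : ∀ l (h : l ∉ V), l ≠ b → g l = Polynomial.C ⟨(x l : ℂ), hK l h⟩)
    (U : MvPolynomial (Fin m) ℚ) (hU : ∀ l ∈ U.vars, l ∈ V → l = b) (c : ℂ) :
    Polynomial.aeval (tw c b (fun l => (x l : ℂ)) b) (MvPolynomial.aeval g U) = MvPolynomial.aeval (tw c b (fun l => (x l : ℂ))) U := by
  set w : ℂ := tw c b (fun l => (x l : ℂ)) b with hw
  have h1 := MvPolynomial.comp_aeval_apply (f := g) ((Polynomial.aeval w : Polynomial K →ₐ[K] ℂ).restrictScalars ℚ) U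
  have h2 : ((Polynomial.aeval w : Polynomial K →ₐ[K] ℂ).restrictScalars ℚ) (MvPolynomial.aeval g U) = Polynomial.aeval w (MvPolynomial.aeval g U) := rfl
  rw [← h2, h1, MvPolynomial.aeval_def, MvPolynomial.aeval_def, ← MvPolynomial.coe_eval₂Hom, ← MvPolynomial.coe_eval₂Hom]
  refine MvPolynomial.eval₂Hom_congr' rfl ?_ rfl
  intro l hl _
  by_cases hlb : l = b
  · rw [hlb, hgb]
    show Polynomial.aeval w Polynomial.X = _
    rw [Polynomial.aeval_X]
  · have hlV : l ∉ V := fun h => hlb (hU l hl h)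
    rw [hg l hlV hlb, q18_tw_ne c x b l hlb]
    show Polynomial.aeval w (Polynomial.C _) = _
    rw [Polynomial.aeval_C]
    rfl

/-- Q18b. A nonreal element of the field is not algebraic over the subfield generated by the `x_l`, `l ∉ V`.

PROOF. Let `k₀ = ℚ(x_l : l ∉ V)`, `A` its algebraic closure in `ℂ`, and suppose `z ∈ A`. `ω = i√(x b)` is transcendental over `k₀` (`x b` is, by algebraic independence, and `x b = -ω²`), so over `A`. Let `Û, Ŵ ∈ A[X]` be `U, W` with `X_b ↦ X`, `X_l ↦ x_l` for `l ≠ b`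
(only `l ∉ V` occur: define them with value `0` for `l ∈ V`, `l ≠ b`). `(Û - z Ŵ)(ω) = 0`, so `Û = z Ŵ`; at `-ω`: `z̄ = Û(-ω)/Ŵ(-ω) = z` (`zq_conj`; `Ŵ(-ω)` is the conjugate of `Ŵ(ω) ≠ 0`). So `z` is real. -/
theorem zq_not_alg {m : ℕ} (V : Finset (Fin m)) (x : Fin m → ℝ) (hx : AlgebraicIndependent ℚ (fun l => (x l : ℂ))) (b : Fin m) (hbV : b ∈ V) (hb : 0 < x b)
    (U W : MvPolynomial (Fin m) ℚ) (hU : ∀ l ∈ U.vars, l ∈ V → l = b) (hW : ∀ l ∈ W.vars, l ∈ V → l = b)
    (hne : MvPolynomial.aeval (tw I b (fun l => (x l : ℂ))) W ≠ 0) (him : (zq I b U W (fun l => (x l : ℂ))).im ≠ 0) :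
    ¬ IsAlgebraic (IntermediateField.adjoin ℚ {y : ℂ | ∃ l, l ∉ V ∧ y = (x l : ℂ)}) (zq I b U W (fun l => (x l : ℂ))) := by
  classical
  intro hz
  have htr := q18_trans V x hx b hbV
  set S : Set ℂ := {y : ℂ | ∃ l, l ∉ V ∧ y = (x l : ℂ)} with hS
  set z : ℂ := zq I b U W (fun l => (x l : ℂ)) with hzdef
  rw [m15_mem] at hz
  set K : IntermediateField ℚ ℂ := IntermediateField.adjoin ℚ (insert z S) with hKdef
  have hcl : (AlgebraicIndependent.matroid ℚ ℂ).closure (insert z S) = (AlgebraicIndependent.matroid ℚ ℂ).closure S :=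
    Matroid.closure_insert_eq_of_mem_closure hz
  have htr2 : ¬ IsAlgebraic K (x b : ℂ) := by
    rw [hKdef, m15_mem, hcl, ← m15_mem]
    exact htr
  have hzK : z ∈ K := IntermediateField.subset_adjoin ℚ _ (Set.mem_insert _ _)
  have hxK : ∀ l, l ∉ V → (x l : ℂ) ∈ K := fun l hl =>
    IntermediateField.subset_adjoin ℚ _ (Set.mem_insert_of_mem _ ⟨l, hl, rfl⟩)
  set w : ℂ := tw I b (fun l => (x l : ℂ)) b with hw
  have hw2 : w ^ 2 = - (x b : ℂ) := by
    rw [hw, q18_tw_self I x b hb, mul_comm, q18_sq _ hb]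
  have htw : Transcendental K w := by
    intro h
    apply htr2
    have h2 : IsAlgebraic K (w ^ 2) := h.pow 2
    rw [hw2] at h2
    have h3 := h2.neg
    rwa [neg_neg] at h3
  set g : Fin m → Polynomial K := fun l => if l = b then Polynomial.X else if h : l ∉ V then Polynomial.C ⟨(x l : ℂ), hxK l h⟩ else 0 with hg
  have hgb : g b = Polynomial.X := by simp [hg]
  have hgl : ∀ l (h : l ∉ V), l ≠ b → g l = Polynomial.C ⟨(x l : ℂ), hxK l h⟩ := by
    intro l h h'
    simp only [hg]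
    rw [if_neg h', dif_pos h]
  have hev := q18_eval V x b K hxK g hgb hgl
  have hP : MvPolynomial.aeval g U - Polynomial.C (⟨z, hzK⟩ : K) * MvPolynomial.aeval g W = 0 := by
    by_contra hne0
    apply htw
    refine ⟨_, hne0, ?_⟩
    rw [map_sub, map_mul, hev U hU I, hev W hW I, Polynomial.aeval_C]
    have h4 : (algebraMap K ℂ) (⟨z, hzK⟩ : K) = z := rfl
    rw [h4, hzdef]
    unfold zq
    field_simp
    ring
  have h5 := congrArg (Polynomial.aeval (tw (-I) b (fun l => (x l : ℂ)) b)) hP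
  rw [map_sub, map_mul, hev U hU (-I), hev W hW (-I), Polynomial.aeval_C, map_zero] at h5
  have h4 : (algebraMap K ℂ) (⟨z, hzK⟩ : K) = z := rfl
  rw [h4] at h5
  have hconj := zq_conj b U W x hb
  rw [← hzdef] at hconj
  have h6 : (starRingEnd ℂ) z = z := by
    by_cases hd : MvPolynomial.aeval (tw (-I) b (fun l => (x l : ℂ))) W = 0
    · exfalso
      apply him
      have h7 : zq (-I) b U W (fun l => (x l : ℂ)) = 0 := by
        unfold zq
        rw [hd, div_zero]
      rw [h7] at hconj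
      have h8 : z = 0 := by
        have := congrArg (starRingEnd ℂ) hconj
        simpa using this.symm
      rw [h8]
      simp
    · rw [← hconj]
      unfold zq
      rw [div_eq_iff hd]
      linear_combination h5
  exact him (Complex.conj_eq_iff_im.1 h6)

/-- Q18c. PROOF. `z ∈ FV` is algebraic over `ℚ(x_l (l ∉ V), x_b)` (`√(-x_b)` is) and not over `ℚ(x_l : l ∉ V)` by Q18a, Q18b; exchange (`(AlgebraicIndependent.matroid ℚ ℂ).closure_exchange`, `m15_mem` in `M15_Exchange.lean`). -/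
theorem xb_algebraic {m : ℕ} (V : Finset (Fin m)) (x : Fin m → ℝ) (hx : AlgebraicIndependent ℚ (fun l => (x l : ℂ))) (b : Fin m) (hbV : b ∈ V) (hb : 0 < x b)
    (z : ℂ) (hz : z ∈ FV V x b) (him : z.im ≠ 0) :
    IsAlgebraic (IntermediateField.adjoin ℚ (insert z {y : ℂ | ∃ l, l ∉ V ∧ y = (x l : ℂ)})) (x b : ℂ) := by
  obtain ⟨U, W, hU, hW, hne, hzq⟩ := memFV_rep V x b hb z hz
  have him' := him
  rw [hzq] at him'
  have h1 := zq_not_alg V x hx b hbV hb U W hU hW hne him'
  rw [← hzq] at h1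
  have h2 : IsAlgebraic (FV V x b) z := by
    have := isAlgebraic_algebraMap (R := FV V x b) (A := ℂ) ⟨z, hz⟩
    simpa using this
  unfold FV at h2
  set S : Set ℂ := {y : ℂ | ∃ l, l ∉ V ∧ y = (x l : ℂ)} with hS
  rw [m15_mem] at h1 h2 ⊢
  have h3 : z ∈ (AlgebraicIndependent.matroid ℚ ℂ).closure (insert (x b : ℂ) S) := by
    rw [← (AlgebraicIndependent.matroid ℚ ℂ).closure_closure (insert (x b : ℂ) S)]
    refine (AlgebraicIndependent.matroid ℚ ℂ).closure_subset_closure ?_ h2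
    intro y hy
    rcases hy with hy | hy
    · rw [Set.mem_singleton_iff] at hy
      rw [hy, ← m15_mem]
      refine IsAlgebraic.of_pow (n := 2) (by norm_num) ?_
      rw [q18_sq _ hb]
      refine IsAlgebraic.neg ?_
      have hm : (x b : ℂ) ∈ IntermediateField.adjoin ℚ (insert (x b : ℂ) S) :=
        IntermediateField.subset_adjoin ℚ _ (Set.mem_insert _ _)
      have := isAlgebraic_algebraMap (R := IntermediateField.adjoin ℚ (insert (x b : ℂ) S)) (A := ℂ) ⟨(x b : ℂ), hm⟩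
      simpa using this
    · refine (AlgebraicIndependent.matroid ℚ ℂ).subset_closure _ ?_ ?_
      · intro x _
        trivial
      · exact Set.mem_insert_of_mem _ hy
  exact ((AlgebraicIndependent.matroid ℚ ℂ).closure_exchange ⟨h3, h1⟩).1

/-- Q18d. PROOF. Special points are algebraic over `ℚ` (`special_algebraic`, `M14_Values.lean`): Q18a, Q18b. -/
theorem FV_not_special {m : ℕ} (V : Finset (Fin m)) (x : Fin m → ℝ) (hx : AlgebraicIndependent ℚ (fun l => (x l : ℂ))) (b : Fin m) (hbV : b ∈ V) (hb : 0 < x b)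
    (z : ℂ) (hz : z ∈ FV V x b) (him : z.im ≠ 0) : ¬ IsSpecial z := by
  intro hsp
  obtain ⟨U, W, hU, hW, hne, hzq⟩ := memFV_rep V x b hb z hz
  have him' := him
  rw [hzq] at him'
  apply zq_not_alg V x hx b hbV hb U W hU hW hne him'
  rw [← hzq]
  exact (special_algebraic z hsp).extendScalars (FaithfulSMul.algebraMap_injective ℚ _)

theorem q18_mem {m : ℕ} (F : Subfield ℂ) (f : Fin m → ℂ) (hf : ∀ l, f l ∈ F) (P : MvPolynomial (Fin m) ℚ) : MvPolynomial.aeval f P ∈ F := by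
  induction P using MvPolynomial.induction_on with
  | C a =>
    rw [MvPolynomial.aeval_C]
    have : (algebraMap ℚ ℂ) a = (a : ℂ) := by simp
    rw [this]
    exact SubfieldClass.ratCast_mem F a
  | add p q hp hq =>
    rw [map_add]
    exact F.add_mem hp hq
  | mul_X p n hp =>
    rw [map_mul, MvPolynomial.aeval_X]
    exact F.mul_mem hp (hf n)

/-- Q18e. PROOF. `z ∈ F` and `z̄ ∈ F` by `memFV_rep`, `zq_conj`: `F` contains `√(x b)`, `i` and all `x l`; `Im z = (z - z̄)/(2i)`. -/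
theorem FV_im_mem {m : ℕ} (V : Finset (Fin m)) (x : Fin m → ℝ) (b : Fin m) (hb : 0 < x b) (z : ℂ) (hz : z ∈ FV V x b)
    (F : Subfield ℂ) (hI : I ∈ F) (hs : ((Real.sqrt (x b) : ℝ) : ℂ) ∈ F) (hx : ∀ l, (x l : ℂ) ∈ F) : (z.im : ℂ) ∈ F := by
  obtain ⟨U, W, hU, hW, hne, hzq⟩ := memFV_rep V x b hb z hz
  have htw : ∀ c ∈ F, ∀ l, tw c b (fun l => (x l : ℂ)) l ∈ F := by
    intro c hc l
    by_cases h : l = b
    · rw [h, q18_tw_self c x b hb]
      exact F.mul_mem hc hs
    · rw [q18_tw_ne c x b l h]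
      exact hx l
  have hq : ∀ c ∈ F, zq c b U W (fun l => (x l : ℂ)) ∈ F := by
    intro c hc
    unfold zq
    exact F.div_mem (q18_mem F _ (htw c hc) U) (q18_mem F _ (htw c hc) W)
  have h1 : z ∈ F := by
    rw [hzq]
    exact hq I hI
  have h2 : (starRingEnd ℂ) z ∈ F := by
    rw [hzq, ← zq_conj b U W x hb]
    exact hq (-I) (F.neg_mem hI)
  rw [Complex.im_eq_sub_conj]
  refine F.div_mem (F.sub_mem h1 h2) (F.mul_mem ?_ hI)
  have : (2 : ℂ) = 1 + 1 := by norm_num
  rw [this]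
  exact F.add_mem F.one_mem F.one_mem

end Pool.Agent.MSD
end

end

section

/-! # Q15: functional independence (MP_f58a57_nt) -/

open Complex ModularForm EisensteinSeries Filter
open UpperHalfPlane hiding I
open scoped Topology MatrixGroups Polynomial

noncomputable section

namespace Pool.Agent.MSD

theorem q15_map {m : ℕ} {B B' : Type*} [CommRing B] [Algebra ℚ B] [CommRing B'] [Algebra ℚ B'] (ψ : B →+* B')
    (f : Fin m → B) (U : MvPolynomial (Fin m) ℚ) :
    ψ (MvPolynomial.aeval f U) = MvPolynomial.aeval (fun l => ψ (f l)) U := by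
  induction U using MvPolynomial.induction_on with
  | C q => rw [MvPolynomial.aeval_C, MvPolynomial.aeval_C, RingHom.map_rat_algebraMap]
  | add p q hp hq => rw [map_add, map_add, map_add, hp, hq]
  | mul_X p i hp => rw [map_mul, map_mul, map_mul, hp, MvPolynomial.aeval_X, MvPolynomial.aeval_X]

theorem q15_rt : rt 1 = I := by
  unfold rt; simp

/-- the element `i` of `KF 1` -/
def q15_i : KF 1 := ⟨rt 1, rt_mem_KF 1⟩

/-- the polynomial with `X b` replaced by `i X b`, the other `X l`, `l ∈ V`, by their squares -/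
def q15_hat {m : ℕ} (V : Finset (Fin m)) (b : Fin m) (U : MvPolynomial (Fin m) ℚ) : MvPolynomial (Fin m) (KF 1) :=
  MvPolynomial.aeval (fun l => if l = b then MvPolynomial.C q15_i * MvPolynomial.X l else
    if l ∈ V then MvPolynomial.X l ^ 2 else MvPolynomial.X l) U

theorem q15_hat_eval {m : ℕ} (V : Finset (Fin m)) (b : Fin m) (U : MvPolynomial (Fin m) ℚ) (u : Fin m → ℂ) :
    MvPolynomial.aeval u (q15_hat V b U) =
      MvPolynomial.aeval (fun l => if l = b then I * u l else if l ∈ V then u l ^ 2 else u l) U := by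
  have h := q15_map (MvPolynomial.aeval u : MvPolynomial (Fin m) (KF 1) →ₐ[KF 1] ℂ).toRingHom
    (fun l => if l = b then MvPolynomial.C q15_i * MvPolynomial.X l else
      if l ∈ V then MvPolynomial.X l ^ 2 else MvPolynomial.X l) U
  refine Eq.trans h ?_
  congr 2
  funext l
  change (MvPolynomial.aeval u) (if l = b then MvPolynomial.C q15_i * MvPolynomial.X l else
    if l ∈ V then MvPolynomial.X l ^ 2 else MvPolynomial.X l) = _
  split_ifs
  · rw [map_mul, MvPolynomial.aeval_C, MvPolynomial.aeval_X]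
    congr 1
    exact q15_rt
  · rw [map_pow, MvPolynomial.aeval_X]
  · rw [MvPolynomial.aeval_X]

theorem q15_cj_eval {m : ℕ} (V : Finset (Fin m)) (b : Fin m) (U : MvPolynomial (Fin m) ℚ) (u : Fin m → ℂ) :
    MvPolynomial.aeval u (cjP (q15_hat V b U)) =
      MvPolynomial.aeval (fun l => if l = b then -I * u l else if l ∈ V then u l ^ 2 else u l) U := by
  have h := q15_map ((MvPolynomial.aeval u : MvPolynomial (Fin m) (KF 1) →ₐ[KF 1] ℂ).toRingHom.comp
    (MvPolynomial.map (conjK 1)))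
    (fun l => if l = b then MvPolynomial.C q15_i * MvPolynomial.X l else
      if l ∈ V then MvPolynomial.X l ^ 2 else MvPolynomial.X l) U
  refine Eq.trans h ?_
  congr 2
  funext l
  change (MvPolynomial.aeval u) (MvPolynomial.map (conjK 1)
    (if l = b then MvPolynomial.C q15_i * MvPolynomial.X l else
      if l ∈ V then MvPolynomial.X l ^ 2 else MvPolynomial.X l)) = _
  split_ifs
  · rw [map_mul, MvPolynomial.map_C, MvPolynomial.map_X, map_mul, MvPolynomial.aeval_C, MvPolynomial.aeval_X]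
    congr 1
    change ((conjK 1 q15_i : KF 1) : ℂ) = -I
    rw [conjK_coe]
    change (starRingEnd ℂ) (rt 1) = -I
    rw [q15_rt, Complex.conj_I]
  · rw [map_pow, map_pow, MvPolynomial.map_X, MvPolynomial.aeval_X]
  · rw [MvPolynomial.map_X, MvPolynomial.aeval_X]

/-- the squares of the coordinates in `V` -/
def q15_sq {m : ℕ} (V : Finset (Fin m)) (u : Fin m → ℂ) : Fin m → ℂ := fun l => if l ∈ V then u l ^ 2 else u l

theorem q15_tw {m : ℕ} (V : Finset (Fin m)) (b : Fin m) (hb : b ∈ V) (U : MvPolynomial (Fin m) ℚ)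
    (c : ℂ) (u : Fin m → ℂ) (hu : 0 < (u b).re) :
    MvPolynomial.aeval (tw c b (q15_sq V u)) U =
      MvPolynomial.aeval (fun l => if l = b then c * u l else if l ∈ V then u l ^ 2 else u l) U := by
  congr 2
  funext l
  unfold tw
  by_cases h : l = b
  · subst h
    rw [Function.update_self, if_pos rfl]
    congr 1
    simp only [q15_sq, if_pos hb]
    have := Complex.sq_cpow_two_inv hu
    rw [one_div]
    exact this
  · rw [Function.update_of_ne h, if_neg h]
    rfl

/-- Q15. Functional independence, from `famMS_indep` with one block `b : Fin 1`, `d = 1` (`KF 1 = ℚ(i)`), `Ω = 1`, by the substitution `y_l = w_l²` (`l ∈ V`), `y_l = w_l` (`l ∉ V`).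

PROOF. Let `w₀ l = √(x l)` for `l ∈ V`, `x l` otherwise (real), `sq u l = u l ^ 2` for `l ∈ V`, `u l` otherwise; `sq` is continuous and `sq w₀ = x`. Let `Û_i = aeval (fun l => if l = b i then C (i) * X l else if l ∈ V then X l ^ 2 else X l) (U i)` in `MvPolynomial (Fin m) (KF 1)`
(`i = rt 1 ∈ KF 1`), `Ŵ_i` similarly. For `u` near `w₀` (`Re (u l) > 0` for `l ∈ V`) `((u b)²)^(1/2) = u b` and `aeval (tw I (b i) (sq u)) (U i) = aeval u Û_i`,
`aeval (tw (-I) (b i) (sq u)) (U i) = aeval u (cjP Û_i)`. So `famQ b U W (sq u) (inr (i, κ)) = famMS (fun _ => 1) (fun _ => 1) Û Ŵ u (inr ⟨0, (i, κ)⟩)`.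
Let `P'` be `P` with `X (inl l)` replaced by `X (inl l) ^ 2` for `l ∈ V` and `X (inr (i, κ))` by `X (inr ⟨0, (i, κ)⟩)`. `eval (famMS .. u) P' = eval (famQ .. (sq u)) P = 0` for `u` near `w₀`, so `P' = 0` by `famMS_indep`; hence `eval g P = 0` for all
`g` (every complex number is a square; `IsSquare`, `IsAlgClosed.exists_pow_nat_eq`), `P = 0` (`MvPolynomial.funext`).
`Sys (fun _ => 0) (fun _ => 1) w₀ ..` : `vU`, `vV` trivial (`Fin 1`), `ne`, `pos` from `SysQ` (values at `w₀`), `rel`: `gequiv_of_prel` (`M14_Values.lean`) and `SysQ.ineq`. `nc`: if `Û = C c * Ŵ`, evaluate at the real point `w₀`: `z = c`; and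
`aeval w₀ (cjP Û) = c̄ aeval w₀ (cjP Ŵ)`. Apply the automorphism `X_b ↦ -X_b` to `Û = C c * Ŵ`: as `Û(X_b ↦ -X_b) = cjP Û` (rational coefficients of `U`), `cjP Û = C c * cjP Ŵ`, so `c = c̄` and `Im z = 0`, contradiction. -/
theorem famQ_indep {m : ℕ} (V : Finset (Fin m)) (x : Fin m → ℝ) {ι : Type} [Finite ι] (b : ι → Fin m) (U W : ι → MvPolynomial (Fin m) ℚ)
    (h : SysQ V x b U W) (P : MvPolynomial (Fin m ⊕ (ι × Fin 3)) ℂ)
    (hP : ∀ᶠ y in 𝓝 (fun l => (x l : ℂ)), MvPolynomial.eval (famQ b U W y) P = 0) : P = 0 := by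
  classical
  -- the base point
  set w₀ : Fin m → ℝ := fun l => if l ∈ V then Real.sqrt (x l) else x l with hw₀
  have hsq : q15_sq V (fun l => (w₀ l : ℂ)) = fun l => (x l : ℂ) := by
    funext l
    simp only [q15_sq, hw₀]
    by_cases hl : l ∈ V
    · rw [if_pos hl, if_pos hl, ← Complex.ofReal_pow, Real.sq_sqrt (h.pos l hl).le]
    · rw [if_neg hl, if_neg hl]
  have hw₀b : ∀ l ∈ V, 0 < ((w₀ l : ℂ)).re := by
    intro l hl
    rw [Complex.ofReal_re]
    simp only [hw₀, if_pos hl]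
    exact Real.sqrt_pos.2 (h.pos l hl)
  set Uh : ∀ _ : Fin 1, ι → MvPolynomial (Fin m) (KF 1) := fun _ i => q15_hat V (b i) (U i) with hUh
  set Wh : ∀ _ : Fin 1, ι → MvPolynomial (Fin m) (KF 1) := fun _ i => q15_hat V (b i) (W i) with hWh
  -- the values
  have hUt : ∀ (i : ι) (u : Fin m → ℂ), 0 < (u (b i)).re →
      MvPolynomial.aeval (tw I (b i) (q15_sq V u)) (U i) = MvPolynomial.aeval u (q15_hat V (b i) (U i)) ∧
      MvPolynomial.aeval (tw I (b i) (q15_sq V u)) (W i) = MvPolynomial.aeval u (q15_hat V (b i) (W i)) ∧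
      MvPolynomial.aeval (tw (-I) (b i) (q15_sq V u)) (U i) = MvPolynomial.aeval u (cjP (q15_hat V (b i) (U i))) ∧
      MvPolynomial.aeval (tw (-I) (b i) (q15_sq V u)) (W i) = MvPolynomial.aeval u (cjP (q15_hat V (b i) (W i))) := by
    intro i u hu
    rw [q15_hat_eval, q15_hat_eval, q15_cj_eval, q15_cj_eval]
    exact ⟨q15_tw V _ (h.bV i) _ _ _ hu, q15_tw V _ (h.bV i) _ _ _ hu,
      q15_tw V _ (h.bV i) _ _ _ hu, q15_tw V _ (h.bV i) _ _ _ hu⟩
  have hz : ∀ i, zq I (b i) (U i) (W i) (fun l => (x l : ℂ)) =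
      MvPolynomial.aeval (fun l => (w₀ l : ℂ)) (q15_hat V (b i) (U i)) /
        MvPolynomial.aeval (fun l => (w₀ l : ℂ)) (q15_hat V (b i) (W i)) := by
    intro i
    obtain ⟨h1, h2, -, -⟩ := hUt i (fun l => (w₀ l : ℂ)) (hw₀b _ (h.bV i))
    rw [hsq] at h1 h2
    rw [zq, h1, h2]
  have hne : ∀ i, MvPolynomial.aeval (fun l => (w₀ l : ℂ)) (q15_hat V (b i) (W i)) ≠ (0 : ℂ) := by
    intro i
    obtain ⟨-, h2, -, -⟩ := hUt i (fun l => (w₀ l : ℂ)) (hw₀b _ (h.bV i))
    rw [hsq] at h2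
    rw [← h2]
    exact h.ne i
  have hpos : ∀ i, 0 < (MvPolynomial.aeval (fun l => (w₀ l : ℂ)) (q15_hat V (b i) (U i)) /
      MvPolynomial.aeval (fun l => (w₀ l : ℂ)) (q15_hat V (b i) (W i)) : ℂ).im := by
    intro i
    rw [← hz i]
    exact h.im i
  have hSys : Sys (fun _ => (0 : Fin 1)) (fun _ : Fin 1 => 1) w₀ (fun _ => ι) Uh Wh := by
    refine ⟨fun _ => one_pos, fun b' i l _ => Subsingleton.elim _ _, fun b' i l _ => Subsingleton.elim _ _,
      ?_, ?_, fun b' i => hne i, fun b' i => hpos i⟩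
    · rintro b' i ⟨c, hc⟩
      have e1 : ∀ u : Fin m → ℂ, MvPolynomial.aeval u (q15_hat V (b i) (U i)) =
          ((c : KF 1) : ℂ) * MvPolynomial.aeval u (q15_hat V (b i) (W i)) := by
        intro u
        have := congrArg (fun Q => (MvPolynomial.aeval u Q : ℂ)) hc
        simp only [hUh, hWh, map_mul, MvPolynomial.aeval_C] at this
        exact this
      have e2 := e1 (fun l => (w₀ l : ℂ))
      have e3 := e1 (fun l => if l = b i then -(w₀ l : ℂ) else (w₀ l : ℂ))
      have e4 : ∀ Q : MvPolynomial (Fin m) ℚ,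
          MvPolynomial.aeval (fun l => if l = b i then -(w₀ l : ℂ) else (w₀ l : ℂ)) (q15_hat V (b i) Q) =
            (starRingEnd ℂ) (MvPolynomial.aeval (fun l => (w₀ l : ℂ)) (q15_hat V (b i) Q)) := by
        intro Q
        rw [← cjP_real, q15_cj_eval, q15_hat_eval]
        congr 2
        funext l
        by_cases hl : l = b i
        · simp [hl]
        · simp only [if_neg hl]
      rw [e4, e4] at e3
      have hW := hne i
      have hWc : (starRingEnd ℂ) (MvPolynomial.aeval (fun l => (w₀ l : ℂ)) (q15_hat V (b i) (W i))) ≠ 0 :=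
        (map_ne_zero _).2 hW
      have hc1 : (MvPolynomial.aeval (fun l => (w₀ l : ℂ)) (q15_hat V (b i) (U i)) /
          MvPolynomial.aeval (fun l => (w₀ l : ℂ)) (q15_hat V (b i) (W i)) : ℂ) = ((c : KF 1) : ℂ) := by
        rw [e2, mul_div_cancel_right₀ _ hW]
      have hc2 : (starRingEnd ℂ) (MvPolynomial.aeval (fun l => (w₀ l : ℂ)) (q15_hat V (b i) (U i)) /
          MvPolynomial.aeval (fun l => (w₀ l : ℂ)) (q15_hat V (b i) (W i)) : ℂ) = ((c : KF 1) : ℂ) := by
        rw [map_div₀, e3, mul_div_cancel_right₀ _ hWc]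
      have hp := hpos i
      rw [hc1] at hp hc2
      have := Complex.conj_eq_iff_im.1 hc2
      rw [this] at hp
      exact lt_irrefl _ hp
    · intro b' i j hij hrel
      refine h.ineq i j hij ?_
      rw [hz i, hz j]
      exact gequiv_of_prel _ _ _ _ _ (hne i) (hne j) (hpos i) hrel
  -- the family
  have hfam : ∀ᶠ u in 𝓝 (fun l => (w₀ l : ℂ)), ∀ i κ,
      famQ b U W (q15_sq V u) (Sum.inr (i, κ)) =
        famMS (fun _ : Fin 1 => 1) (fun _ : Fin 1 => (1 : ℂ)) Uh Wh u (Sum.inr ⟨0, (i, κ)⟩) := by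
    have hev : ∀ᶠ u in 𝓝 (fun l => (w₀ l : ℂ)), ∀ l ∈ V, 0 < (u l).re := by
      rw [eventually_all_finset]
      intro l hl
      have hcont : Continuous (fun u : Fin m → ℂ => (u l).re) :=
        Complex.continuous_re.comp (continuous_apply l)
      exact (hcont.tendsto _).eventually (lt_mem_nhds (hw₀b l hl))
    filter_upwards [hev] with u hu i κ
    obtain ⟨h1, h2, h3, h4⟩ := hUt i u (hu _ (h.bV i))
    simp only [famQ, famMS, zq, hUh, hWh]
    rw [h1, h2, h3, h4]
    fin_cases κ <;> simp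
  have hcontsq : Continuous (q15_sq V) := by
    refine continuous_pi fun l => ?_
    unfold q15_sq
    by_cases hl : l ∈ V
    · simp only [if_pos hl]
      exact (continuous_apply l).pow 2
    · simp only [if_neg hl]
      exact continuous_apply l
  have hP2 : ∀ᶠ u in 𝓝 (fun l => (w₀ l : ℂ)), MvPolynomial.eval (famQ b U W (q15_sq V u)) P = 0 := by
    have ht := hcontsq.tendsto (fun l => (w₀ l : ℂ))
    rw [hsq] at ht
    exact ht.eventually hP
  set sub : Fin m ⊕ (ι × Fin 3) → MvPolynomial (Fin m ⊕ (Σ _ : Fin 1, ι × Fin 3)) ℂ := fun ν =>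
    match ν with
    | Sum.inl l => if l ∈ V then MvPolynomial.X (Sum.inl l) ^ 2 else MvPolynomial.X (Sum.inl l)
    | Sum.inr p => MvPolynomial.X (Sum.inr ⟨0, p⟩) with hsub
  have hevalsub : ∀ g' : Fin m ⊕ (Σ _ : Fin 1, ι × Fin 3) → ℂ,
      MvPolynomial.eval g' (MvPolynomial.bind₁ sub P) =
        MvPolynomial.eval (fun ν => MvPolynomial.eval g' (sub ν)) P := by
    intro g'
    exact MvPolynomial.eval₂Hom_bind₁ (RingHom.id ℂ) g' sub P
  have hPz : MvPolynomial.bind₁ sub P = 0 := by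
    refine famMS_indep (fun _ => (0 : Fin 1)) (fun _ : Fin 1 => 1) w₀ (fun _ => 1) (fun _ => one_ne_zero)
      (fun _ => ι) Uh Wh hSys _ ?_
    filter_upwards [hfam, hP2] with u h1 h2
    rw [hevalsub]
    rw [← h2]
    congr 2
    funext ν
    match ν with
    | Sum.inl l =>
      simp only [hsub]
      by_cases hl : l ∈ V
      · rw [if_pos hl, map_pow, MvPolynomial.eval_X]
        simp only [famMS, famQ, q15_sq, if_pos hl]
      · rw [if_neg hl, MvPolynomial.eval_X]
        simp only [famMS, famQ, q15_sq, if_neg hl]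
    | Sum.inr (i, κ) =>
      simp only [hsub, MvPolynomial.eval_X]
      exact (h1 i κ).symm
  refine MvPolynomial.funext fun g => ?_
  rw [map_zero]
  have hroot : ∀ z : ℂ, ∃ w : ℂ, w ^ 2 = z := fun z => IsAlgClosed.exists_pow_nat_eq z two_pos
  choose rtf hrtf using hroot
  have hg := hevalsub (fun ν => match ν with
    | Sum.inl l => if l ∈ V then rtf (g (Sum.inl l)) else g (Sum.inl l)
    | Sum.inr p => g (Sum.inr p.2))
  rw [hPz, map_zero] at hg
  rw [hg]
  congr 2
  funext ν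
  match ν with
  | Sum.inl l =>
    simp only [hsub]
    by_cases hl : l ∈ V
    · rw [if_pos hl, map_pow, MvPolynomial.eval_X]
      simp only [if_pos hl]
      exact (hrtf _).symm
    · rw [if_neg hl, MvPolynomial.eval_X]
      simp only [if_neg hl]
  | Sum.inr p =>
    simp only [hsub, MvPolynomial.eval_X]

end Pool.Agent.MSD
end

end
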