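import Mathlib
import Pool.Agent.Lib.MP_f58a57_nt.FK.K061
import Pool.Agent.Lib.MP_f58a57_nt.FK.K063
import Pool.Agent.Lib.MP_f58a57_nt.FK.K064
import Pool.Agent.Lib.MP_f58a57_nt.FK.K065

section

/-! # Q11: the members of the families at √(-D) as PC families (MP_f58a57_nt) -/

open Complex ModularForm EisensteinSeries Filter
open UpperHalfPlane hiding I
open scoped Topology MatrixGroups Polynomial

noncomputable section

namespace Pool.Agent.MSD

/-- Q11a. PROOF. As `pc_GrFam` (`C3_PcValues.lean`), from `UCtrl.ctrl`: `D x + N x + 1 ≤ 3 (B x)^K ≤ (B x)^(K+2)`. -/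
theorem pc_GrU {X : Type*} {B : X → ℕ} (hB : ∀ x, 2 ≤ B x) {Om : ℕ → ℂ} {C : ℕ} (hO : UCtrl Om C) (κ : Fin 3)
    (D N : X → ℕ) (hD : ∀ x, 0 < D x) (hN : ∀ x, 0 < N x) (K : ℕ) (hDK : ∀ x, D x ≤ B x ^ K) (hNK : ∀ x, N x ≤ B x ^ K)
    (ρ : X → (Σ _ : ℕ × ℕ, ℕ)) (hρ : ∀ x, ρ x ∈ TT (N x)) :
    PC B (fun x => Gr κ (rt (D x)) (ρ x) / Om (D x) ^ kwt κ) := by
  have hch := fun x => hO.ctrl (D x) (hD x) κ (N x) (hN x) (ρ x) (hρ x)
  choose n S hc hn hS using hch
  have hsum : ∀ x, D x + N x + 1 ≤ B x ^ (K + 2) := by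
    intro x
    have h1 := hDK x
    have h2 := hNK x
    have h3 : 1 ≤ B x ^ K := Nat.one_le_pow _ _ (by have := hB x; omega)
    have h4 : 2 ^ 2 ≤ B x ^ 2 := Nat.pow_le_pow_left (hB x) 2
    calc D x + N x + 1 ≤ B x ^ K * 4 := by omega
      _ ≤ B x ^ K * B x ^ 2 := Nat.mul_le_mul_left _ (by omega)
      _ = B x ^ (K + 2) := by rw [← pow_add]
  have hpow : ∀ x, (D x + N x + 1) ^ C ≤ B x ^ ((K + 2) * C + 4 * K) := by
    intro x
    calc (D x + N x + 1) ^ C ≤ (B x ^ (K + 2)) ^ C := Nat.pow_le_pow_left (hsum x) C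
      _ = B x ^ ((K + 2) * C) := by rw [← pow_mul]
      _ ≤ B x ^ ((K + 2) * C + 4 * K) := Nat.pow_le_pow_right (by have := hB x; omega) (by omega)
  have hpowR : ∀ x, (((D x + N x + 1 : ℕ) : ℝ)) ^ C ≤ (B x : ℝ) ^ ((K + 2) * C + 4 * K) := by
    intro x
    exact_mod_cast hpow x
  refine ⟨(K + 2) * C + 4 * K, fun x => ⟨n x, (N x ^ 2).factorial, S x, hc x,
    Nat.factorial_pos _, ?_, ?_, ?_⟩⟩
  · exact_mod_cast (hn x).trans (hpowR x)
  · have h1 : ((N x ^ 2).factorial : ℝ) ≤ ((N x ^ 2 : ℕ) : ℝ) ^ (N x ^ 2) := by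
      exact_mod_cast Nat.factorial_le_pow (N x ^ 2)
    have h2 : (0 : ℝ) < ((N x ^ 2 : ℕ) : ℝ) := by
      have := hN x
      positivity
    have h3 : ((N x ^ 2 : ℕ) : ℝ) ^ (N x ^ 2) ≤ Real.exp (((N x ^ 4 : ℕ) : ℝ)) := by
      have h4 : ((N x ^ 2 : ℕ) : ℝ) ≤ Real.exp ((N x ^ 2 : ℕ) : ℝ) :=
        (le_add_of_nonneg_right zero_le_one).trans (Real.add_one_le_exp _)
      refine (pow_le_pow_left₀ h2.le h4 _).trans (le_of_eq ?_)
      rw [← Real.exp_nat_mul]
      congr 1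
      push_cast
      ring
    refine h1.trans (h3.trans (Real.exp_le_exp.2 ?_))
    have h5 : N x ^ 4 ≤ B x ^ ((K + 2) * C + 4 * K) := by
      calc N x ^ 4 ≤ (B x ^ K) ^ 4 := Nat.pow_le_pow_left (hNK x) 4
        _ = B x ^ (K * 4) := by rw [← pow_mul]
        _ ≤ B x ^ ((K + 2) * C + 4 * K) := by
            apply Nat.pow_le_pow_right (by have := hB x; omega)
            omega
    exact_mod_cast h5
  · exact (hS x).trans (Real.exp_le_exp.2 (hpowR x))

/-- Q11b. PROOF. `b8d_mem` (`B8d_E2.lean`): `-2 D e2s(√(-D)) = Gr 2 (√(-D)) ρ` with `ρ ∈ TT D`; Q11a with `N = D`, and the rational factor `-1/(2 D x)` (`pc_ratFam`). -/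
theorem pc_e2U {X : Type*} {B : X → ℕ} (hB : ∀ x, 2 ≤ B x) {Om : ℕ → ℂ} {C : ℕ} (hO : UCtrl Om C)
    (D : X → ℕ) (hD : ∀ x, 0 < D x) (K : ℕ) (hDK : ∀ x, D x ≤ B x ^ K) :
    PC B (fun x => e2s (rt (D x)) / Om (D x) ^ 2) := by
  have hch := fun x => b8d_mem (D x) (hD x)
  choose ρ hρ hG using hch
  have h1 := pc_GrU hB hO 2 D D hD hD K hDK hDK ρ hρ
  have h2 : PC B (fun x => (((-1 / (2 * (D x : ℚ)) : ℚ)) : ℂ)) := by
    refine pc_ratFam _ (K + 1) (fun x => ?_) (fun x => ?_)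
    · have e : (-1 / (2 * (D x : ℚ)) : ℚ) = -(((2 * D x : ℕ) : ℚ)⁻¹) := by
        push_cast
        rw [neg_div, one_div]
      rw [e, Rat.neg_den, Rat.inv_natCast_den_of_pos (by have := hD x; omega)]
      calc 2 * D x ≤ B x * B x ^ K := Nat.mul_le_mul (hB x) (hDK x)
        _ = B x ^ (K + 1) := by rw [pow_succ, mul_comm]
    · have h3 : (1 : ℝ) ≤ (D x : ℝ) := by exact_mod_cast hD x
      have h4 : (1 : ℝ) ≤ (B x : ℝ) ^ (K + 1) := one_le_pow₀ (by
        have := hB x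
        exact_mod_cast (by omega : 1 ≤ B x))
      push_cast
      rw [abs_div, abs_neg, abs_one, abs_of_nonneg (by positivity)]
      refine le_trans ?_ h4
      rw [div_le_one (by linarith)]
      linarith
  have h3 := PC.mul hB h1 h2
  refine (congrArg (PC _) ?_).mp h3
  funext x
  have hD0 : (D x : ℂ) ≠ 0 := Nat.cast_ne_zero.2 (hD x).ne'
  have hΩ0 := (hO.base (D x) (hD x)).ne
  show Gr 2 (rt (D x)) (ρ x) / Om (D x) ^ 2 * _ = _
  rw [hG x]
  push_cast
  field_simp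

end Pool.Agent.MSD
end

end

section

/-! # Q13: the values at rational points (MP_f58a57_nt) -/

open Complex ModularForm EisensteinSeries Filter
open UpperHalfPlane hiding I
open scoped Topology MatrixGroups Polynomial

noncomputable section

namespace Pool.Agent.MSD

/-- Q13. PROOF. As `pc_valuesM` (`M11_PcM.lean`): `coordsQ`, `values_Gr (Dn (x b))`, `pc_GrU` (`N = q r`), `pc_invFam`, `pc_e2U`, `Dn_le`, `Dn_pos`. -/
theorem pc_valuesQ {m : ℕ} {Om : ℕ → ℂ} {C : ℕ} (hO : UCtrl Om C) (b : Fin m) (U W : MvPolynomial (Fin m) ℚ) (R : ℝ) (κ : Fin 3) :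
    PC (X := {x : Fin m → ℚ // (∀ l, |(x l : ℝ)| ≤ R) ∧ 0 < x b ∧ 0 < (zq I b U W (fun l => ((x l : ℚ) : ℂ))).im})
      (fun x => Bd x.1)
      (fun x => ![e2s (zq I b U W (fun l => ((x.1 l : ℚ) : ℂ))) / Om (Dn (x.1 b)) ^ 2,
        e4 (zq I b U W (fun l => ((x.1 l : ℚ) : ℂ))) / Om (Dn (x.1 b)) ^ 4,
        e6 (zq I b U W (fun l => ((x.1 l : ℚ) : ℂ))) / Om (Dn (x.1 b)) ^ 6] κ) := by
  obtain ⟨C1, hC1⟩ := coordsQ b U W R
  obtain ⟨C2, hC2⟩ := Dn_le (m := m) R
  have hC' : ∀ x : {x : Fin m → ℚ // (∀ l, |(x l : ℝ)| ≤ R) ∧ 0 < x b ∧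
      0 < (zq I b U W (fun l => ((x l : ℚ) : ℂ))).im},
      ∃ (q r : ℕ) (p : ℤ), 0 < q ∧ 0 < r ∧ q * r ≤ Bd x.1 ^ C1 ∧
      zq I b U W (fun l => ((x.1 l : ℚ) : ℂ)) = (q * rt (Dn (x.1 b)) + p) / r :=
    fun x => hC1 x.1 x.2.1 x.2.2.1 x.2.2.2
  choose q r p hq hr hqr happ using hC'
  have hDpos : ∀ x : {x : Fin m → ℚ // (∀ l, |(x l : ℝ)| ≤ R) ∧ 0 < x b ∧
      0 < (zq I b U W (fun l => ((x l : ℚ) : ℂ))).im}, 0 < Dn (x.1 b) :=
    fun x => Dn_pos _ x.2.2.1
  have hV := fun x => values_Gr (Dn (x.1 b)) (hDpos x) (q x) (r x) (p x) (hq x) (hr x)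
  choose ρ hρ h4 h6 h2 using hV
  have hB : ∀ x : {x : Fin m → ℚ // (∀ l, |(x l : ℝ)| ≤ R) ∧ 0 < x b ∧
      0 < (zq I b U W (fun l => ((x l : ℚ) : ℂ))).im}, 2 ≤ Bd x.1 :=
    fun x => Nat.le_add_right _ _
  have hB1 : ∀ x : {x : Fin m → ℚ // (∀ l, |(x l : ℝ)| ≤ R) ∧ 0 < x b ∧
      0 < (zq I b U W (fun l => ((x l : ℚ) : ℂ))).im}, 0 < Bd x.1 :=
    fun x => Nat.lt_of_lt_of_le Nat.zero_lt_two (hB x)
  have hN : ∀ x, q x * r x ≤ Bd x.1 ^ (C1 + C2) := fun x =>
    (hqr x).trans (Nat.pow_le_pow_right (hB1 x) (Nat.le_add_right _ _))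
  have hD : ∀ x : {x : Fin m → ℚ // (∀ l, |(x l : ℝ)| ≤ R) ∧ 0 < x b ∧
      0 < (zq I b U W (fun l => ((x l : ℚ) : ℂ))).im}, Dn (x.1 b) ≤ Bd x.1 ^ (C1 + C2) := fun x =>
    (hC2 x.1 b (x.2.1 b) x.2.2.1).trans (Nat.pow_le_pow_right (hB1 x) (Nat.le_add_left _ _))
  have hq' : ∀ x, q x ≤ Bd x.1 ^ (C1 + C2) := fun x =>
    (Nat.le_mul_of_pos_right (q x) (hr x)).trans (hN x)
  have hG := fun κ' => pc_GrU hB hO κ' (fun x => Dn (x.1 b)) (fun x => q x * r x) hDpos
    (fun x => Nat.mul_pos (hq x) (hr x)) (C1 + C2) hD hN ρ hρ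
  have hI := fun w => pc_invFam hB q hq (C1 + C2) w hq'
  fin_cases κ
  · have hE := pc_e2U hB hO (fun x => Dn (x.1 b)) hDpos (C1 + C2) hD
    have hM : PC (fun x : {x : Fin m → ℚ // (∀ l, |(x l : ℝ)| ≤ R) ∧ 0 < x b ∧
        0 < (zq I b U W (fun l => ((x l : ℚ) : ℂ))).im} => Bd x.1)
        (fun x => (((q x * r x : ℕ) : ℚ) : ℂ)) := by
      refine pc_ratFam _ (C1 + C2) (fun x => ?_) (fun x => ?_)
      · rw [Rat.den_natCast]
        exact Nat.one_le_pow _ _ (hB1 x)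
      · rw [Rat.cast_natCast, abs_of_nonneg (Nat.cast_nonneg _)]
        exact_mod_cast hN x
    have hT := PC.mul hB (PC.add hB (hG 2) (PC.mul hB hM hE)) (hI 2)
    refine (congrArg (PC _) ?_).mp hT
    funext x
    show _ = e2s (zq I b U W (fun l => ((x.1 l : ℚ) : ℂ))) / Om (Dn (x.1 b)) ^ 2
    rw [happ x, h2 x]
    have hΩ0 := (hO.base _ (hDpos x)).ne
    have hq0 : (q x : ℂ) ≠ 0 := Nat.cast_ne_zero.2 (hq x).ne'
    show (Gr 2 (rt (Dn (x.1 b))) (ρ x) / Om (Dn (x.1 b)) ^ 2 + ((q x * r x : ℕ) : ℚ) *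
      (e2s (rt (Dn (x.1 b))) / Om (Dn (x.1 b)) ^ 2)) * (1 / (q x : ℂ) ^ 2) = _
    push_cast
    field_simp
  · have hT := PC.mul hB (hG 0) (hI 4)
    refine (congrArg (PC _) ?_).mp hT
    funext x
    show _ = e4 (zq I b U W (fun l => ((x.1 l : ℚ) : ℂ))) / Om (Dn (x.1 b)) ^ 4
    rw [happ x, h4 x]
    have hΩ0 := (hO.base _ (hDpos x)).ne
    have hq0 : (q x : ℂ) ≠ 0 := Nat.cast_ne_zero.2 (hq x).ne'
    show (Gr 0 (rt (Dn (x.1 b))) (ρ x) / Om (Dn (x.1 b)) ^ 4) * (1 / (q x : ℂ) ^ 4) = _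
    field_simp
  · have hT := PC.mul hB (hG 1) (hI 6)
    refine (congrArg (PC _) ?_).mp hT
    funext x
    show _ = e6 (zq I b U W (fun l => ((x.1 l : ℚ) : ℂ))) / Om (Dn (x.1 b)) ^ 6
    rw [happ x, h6 x]
    have hΩ0 := (hO.base _ (hDpos x)).ne
    have hq0 : (q x : ℂ) ≠ 0 := Nat.cast_ne_zero.2 (hq x).ne'
    show (Gr 1 (rt (Dn (x.1 b))) (ρ x) / Om (Dn (x.1 b)) ^ 6) * (1 / (q x : ℂ) ^ 6) = _
    field_simp

end Pool.Agent.MSD
end

end

section

/-! # Q17: algebraic independence (MP_f58a57_nt) -/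

open Complex ModularForm EisensteinSeries Filter
open UpperHalfPlane hiding I
open scoped Topology MatrixGroups Polynomial

noncomputable section

namespace Pool.Agent.MSD

theorem q17_zq_analytic {m : ℕ} (V : Finset (Fin m)) (x : Fin m → ℝ) {ι : Type} (b : ι → Fin m) (U W : ι → MvPolynomial (Fin m) ℚ)
    (h : SysQ V x b U W) (i : ι) : AnalyticAt ℂ (fun y => zq I (b i) (U i) (W i) y) (fun l => (x l : ℂ)) := by
  have hc : ∀ l, AnalyticAt ℂ (fun y : Fin m → ℂ => tw I (b i) y l) (fun l => (x l : ℂ)) := by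
    intro l
    by_cases hl : l = b i
    · subst hl
      have h1 : (fun y : Fin m → ℂ => tw I (b i) y (b i)) = fun y => I * y (b i) ^ (1 / 2 : ℂ) := by
        funext y
        simp [tw]
      rw [h1]
      refine analyticAt_const.mul (AnalyticAt.cpow (m12_coord_analytic _ _) analyticAt_const ?_)
      show ((x (b i) : ℂ)) ∈ Complex.slitPlane
      exact Complex.ofReal_mem_slitPlane.2 (h.pos _ (h.bV i))
    · have h1 : (fun y : Fin m → ℂ => tw I (b i) y l) = fun y => y l := by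
        funext y
        simp [tw, hl]
      rw [h1]
      exact m12_coord_analytic _ _
  exact (AnalyticAt.aeval_mvPolynomial (f := fun y : Fin m → ℂ => tw I (b i) y) hc (U i)).div
    (AnalyticAt.aeval_mvPolynomial (f := fun y : Fin m → ℂ => tw I (b i) y) hc (W i)) (h.ne i)

/-- Q17. PROOF. As `alg_indepM` (`M12_AlgIndep.lean`): `F(y) = aeval (fun j => nrm k (famQ b U W y) j.1) P` is analytic at `x` (`famN_analytic`), not eventually `0` (`nrm_indep`, `famQ_indep`). At rational points `y` near `x` (`|y l| ≤ R`, `0 < y l` for `l ∈ V`,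
`0 < Im z_i(y)`, `e4 z_i(y) ≠ 0`, `e6 z_i(y) ≠ 0`: all true near `x` by continuity) the values are PC families: by `famQ_real` the member `(i, κ)` is `(value/Om^w)/((e6 z_k/Om^6)/(e4 z_k/Om^4))^w'`, `Om = Om (Dn (y (b i)))`, `b (k i) = b i`
(`pc_valuesQ`, `PC.mul`, `PC.inv`, `PC.comp`). `PC.lower` and `flag_gen` as there. -/
theorem alg_indepQ {m : ℕ} {Om : ℕ → ℂ} {C : ℕ} (hO : UCtrl Om C) (V : Finset (Fin m)) (x : Fin m → ℝ) (hx : HyperLiouville x) {ι : Type} [Finite ι]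
    (b : ι → Fin m) (U W : ι → MvPolynomial (Fin m) ℚ) (h : SysQ V x b U W) (k : ι → ι) (hk : ∀ i, k (k i) = k i) (hkb : ∀ i, b (k i) = b i)
    (h0 : ∀ i, e4 (zq I (b i) (U i) (W i) (fun l => (x l : ℂ))) ≠ 0 ∧ e6 (zq I (b i) (U i) (W i) (fun l => (x l : ℂ))) ≠ 0) :
    AlgebraicIndependent ℚ (fun j : JN (A := Fin m) k => nrm k (famQ b U W (fun l => (x l : ℂ))) j.1) := by
  classical
  rw [algebraicIndependent_iff]
  intro P hP
  by_contra hP0
  haveI : Fintype ι := Fintype.ofFinite ι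
  -- the approximations
  choose q hq0 hq1 hq2 using hx
  have hBd : ∀ k, (2 : ℝ) ≤ Bd (q k) := fun k => by exact_mod_cast g1_two_le_Bd (q k)
  have hexp0 : Tendsto (fun k : ℕ => Real.exp (-(2 : ℝ) ^ k)) atTop (𝓝 0) := by
    apply Real.tendsto_exp_neg_atTop_nhds_zero.comp
    exact tendsto_pow_atTop_atTop_of_one_lt (by norm_num)
  have hq1' : ∀ k l, |x l - q k l| < Real.exp (-(2 : ℝ) ^ k) := by
    intro k l
    refine lt_of_lt_of_le (hq1 k l) (Real.exp_le_exp.mpr ?_)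
    have := pow_le_pow_left₀ (by norm_num : (0 : ℝ) ≤ 2) (hBd k) k
    linarith
  have hxt : ∀ l, Tendsto (fun k => ((q k l : ℚ) : ℝ)) atTop (𝓝 (x l)) := by
    intro l
    rw [tendsto_iff_dist_tendsto_zero]
    refine squeeze_zero (fun _ => dist_nonneg) (fun k => ?_) hexp0
    rw [dist_comm, Real.dist_eq]
    exact (hq1' k l).le
  have hxtC : ∀ l, Tendsto (fun k => ((q k l : ℚ) : ℂ)) atTop (𝓝 (x l : ℂ)) := by
    intro l
    have := (Complex.continuous_ofReal.tendsto (x l)).comp (hxt l)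
    refine this.congr (fun k => ?_)
    simp
  have hnorm : ∀ k l, ‖((q k l : ℚ) : ℂ) - (x l : ℂ)‖ = |x l - q k l| := by
    intro k l
    have h1 : ((q k l : ℚ) : ℂ) - (x l : ℂ) = ((((q k l : ℚ) : ℝ) - x l : ℝ) : ℂ) := by push_cast; rfl
    rw [h1, Complex.norm_real, Real.norm_eq_abs, abs_sub_comm]
  have hxtv : Tendsto (fun k => (fun l => ((q k l : ℚ) : ℂ))) atTop (𝓝 (fun l => (x l : ℂ))) :=
    tendsto_pi_nhds.mpr hxtC
  -- radius
  obtain ⟨R, hR⟩ : ∃ R : ℝ, ∀ l, |x l| + 1 ≤ R := by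
    obtain ⟨R, hR⟩ := (Set.finite_range (fun l => |x l| + 1)).bddAbove
    exact ⟨R, fun l => hR ⟨l, rfl⟩⟩
  have hgood1 : ∀ᶠ k in atTop, ∀ l, |((q k l : ℚ) : ℝ)| ≤ R := by
    rw [eventually_all]
    intro l
    have h1 : Tendsto (fun k => |((q k l : ℚ) : ℝ)|) atTop (𝓝 |x l|) := (hxt l).abs
    have h2 : |x l| < R := by linarith [hR l]
    filter_upwards [h1.eventually_lt_const h2] with k hk using hk.le
  have hgoodV : ∀ᶠ k in atTop, ∀ l ∈ V, 0 < q k l := by
    have h1 : ∀ᶠ k in atTop, ∀ l, l ∈ V → 0 < q k l := by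
      rw [eventually_all]
      intro l
      by_cases hl : l ∈ V
      · filter_upwards [(hxt l).eventually_const_lt (h.pos l hl)] with k hk _
        exact_mod_cast hk
      · exact Eventually.of_forall fun k hk => absurd hk hl
    exact h1
  have hcz : ∀ i, ContinuousAt (fun y : Fin m → ℂ => zq I (b i) (U i) (W i) y) (fun l => (x l : ℂ)) := fun i =>
    (q17_zq_analytic V x b U W h i).continuousAt
  have hgood2 : ∀ᶠ k in atTop, ∀ i, 0 < (zq I (b i) (U i) (W i) (fun l => ((q k l : ℚ) : ℂ))).im := by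
    rw [eventually_all]
    intro i
    have h1 := ((Complex.continuous_im.continuousAt (x := zq I (b i) (U i) (W i) (fun l => (x l : ℂ)))).comp (hcz i)).tendsto.comp hxtv
    exact h1.eventually_const_lt (h.im i)
  have hgood3 : ∀ᶠ k in atTop, ∀ i, e4 (zq I (b i) (U i) (W i) (fun l => ((q k l : ℚ) : ℂ))) ≠ 0 ∧
      e6 (zq I (b i) (U i) (W i) (fun l => ((q k l : ℚ) : ℂ))) ≠ 0 := by
    rw [eventually_all]
    intro i
    have h1 := (famQ_analytic V x b U W h (Sum.inr (i, 1))).continuousAt.tendsto.comp hxtv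
    have h2 := (famQ_analytic V x b U W h (Sum.inr (i, 2))).continuousAt.tendsto.comp hxtv
    exact (h1.eventually_ne (h0 i).1).and (h2.eventually_ne (h0 i).2)
  -- the values
  set F : (Fin m → ℂ) → ℂ := fun y => MvPolynomial.aeval (fun j : JN (A := Fin m) k => nrm k (famQ b U W y) j.1) P with hF
  have hFt : F (fun l => (x l : ℂ)) = 0 := hP
  have hFa : AnalyticAt ℂ F (fun l => (x l : ℂ)) :=
    AnalyticAt.aeval_mvPolynomial (f := fun y => fun j : JN (A := Fin m) k => nrm k (famQ b U W y) j.1)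
      (fun j => famN_analytic V x b U W h k h0 j.1) P
  have hFd : DifferentiableAt ℂ F (fun l => (x l : ℂ)) := hFa.differentiableAt
  -- PC family
  let X := {y : Fin m → ℚ // (∀ l, |((y l : ℚ) : ℝ)| ≤ R) ∧ (∀ l ∈ V, 0 < y l) ∧
    (∀ i, 0 < (zq I (b i) (U i) (W i) (fun l => ((y l : ℚ) : ℂ))).im) ∧
    ∀ i, e4 (zq I (b i) (U i) (W i) (fun l => ((y l : ℚ) : ℂ))) ≠ 0 ∧ e6 (zq I (b i) (U i) (W i) (fun l => ((y l : ℚ) : ℂ))) ≠ 0}
  have hB2 : ∀ y : X, 2 ≤ Bd y.1 := fun y => g1_two_le_Bd y.1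
  have hval : ∀ (i : ι) (κ : Fin 3), PC (X := X) (fun y => Bd y.1)
      (fun y => ![e2s (zq I (b i) (U i) (W i) (fun l => ((y.1 l : ℚ) : ℂ))) / Om (Dn (y.1 (b i))) ^ 2,
        e4 (zq I (b i) (U i) (W i) (fun l => ((y.1 l : ℚ) : ℂ))) / Om (Dn (y.1 (b i))) ^ 4,
        e6 (zq I (b i) (U i) (W i) (fun l => ((y.1 l : ℚ) : ℂ))) / Om (Dn (y.1 (b i))) ^ 6] κ) := by
    intro i κ
    exact PC.comp (X := {y : Fin m → ℚ // (∀ l, |(y l : ℝ)| ≤ R) ∧ 0 < y (b i) ∧
        0 < (zq I (b i) (U i) (W i) (fun l => ((y l : ℚ) : ℂ))).im}) (B := fun y => Bd y.1) (B' := fun y : X => Bd y.1)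
      (f := fun y : X => ⟨y.1, y.2.1, y.2.2.1 _ (h.bV i), y.2.2.2.1 i⟩) hB2 (fun y => le_refl _)
      (pc_valuesQ hO (b i) (U i) (W i) R κ)
  have hOm : ∀ (y : X) (i : ι), Om (Dn (y.1 (b i))) ≠ 0 := fun y i =>
    (hO.base _ (Dn_pos _ (y.2.2.1 _ (h.bV i)))).ne
  have hPC : PC (X := X) (fun y => Bd y.1) (fun y => F (fun l => ((y.1 l : ℚ) : ℂ))) := by
    refine PC.aeval (X := X) (B := fun y => Bd y.1) hB2 P
      (fun j y => nrm k (famQ b U W (fun l => ((y.1 l : ℚ) : ℂ))) j.1) ?_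
    rintro ⟨l | ⟨i, κ⟩, hj⟩
    · exact PC.comp (X := {x : Fin m → ℚ // ∀ l, |(x l : ℝ)| ≤ R}) (B := fun x => Bd x.1)
        (f := fun y : X => ⟨y.1, y.2.1⟩) hB2 (fun y => le_refl _) (pc_coordM R l)
    · -- the normaliser
      have e1 := hval (k i) 1
      have e2 := hval (k i) 2
      have hth : PC (X := X) (fun y => Bd y.1) (fun y =>
          (e6 (zq I (b (k i)) (U (k i)) (W (k i)) (fun l => ((y.1 l : ℚ) : ℂ))) /
            e4 (zq I (b (k i)) (U (k i)) (W (k i)) (fun l => ((y.1 l : ℚ) : ℂ)))) / Om (Dn (y.1 (b i))) ^ 2) := by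
        have e3 := PC.mul hB2 e2 (PC.inv hB2 e1 (fun y => div_ne_zero (y.2.2.2.2 (k i)).1 (pow_ne_zero _ (hOm y (k i)))))
        refine (congrArg (PC _) ?_).mp e3
        funext y
        have h4 := (y.2.2.2.2 (k i)).1
        have hOy := hOm y i
        show e6 (zq I (b (k i)) (U (k i)) (W (k i)) (fun l => ((y.1 l : ℚ) : ℂ))) / Om (Dn (y.1 (b (k i)))) ^ 6 *
          (e4 (zq I (b (k i)) (U (k i)) (W (k i)) (fun l => ((y.1 l : ℚ) : ℂ))) / Om (Dn (y.1 (b (k i)))) ^ 4)⁻¹ = _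
        rw [show Om (Dn (y.1 (b (k i)))) = Om (Dn (y.1 (b i))) by rw [hkb i]]
        field_simp
      have hthi := PC.inv hB2 hth (fun y => div_ne_zero (div_ne_zero (y.2.2.2.2 (k i)).2 (y.2.2.2.2 (k i)).1)
        (pow_ne_zero _ (hOm y i)))
      have hpow : ∀ n : ℕ, PC (X := X) (fun y => Bd y.1) (fun y =>
          ((e6 (zq I (b (k i)) (U (k i)) (W (k i)) (fun l => ((y.1 l : ℚ) : ℂ))) /
            e4 (zq I (b (k i)) (U (k i)) (W (k i)) (fun l => ((y.1 l : ℚ) : ℂ)))) / Om (Dn (y.1 (b i))) ^ 2)⁻¹ ^ n) := by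
        intro n
        induction n with
        | zero =>
          simp only [pow_zero]
          exact PC.const hB2 1 isAlgebraic_one
        | succ n ih =>
          simp only [pow_succ]
          exact PC.mul hB2 ih hthi
      have hT := PC.mul hB2 (hval i κ) (hpow ((![1, 2, 3] : Fin 3 → ℕ) κ))
      refine (congrArg (PC _) ?_).mp hT
      funext y
      have hreal : ∀ (i' : ι) (κ' : Fin 3), famQ b U W (fun l => ((y.1 l : ℚ) : ℂ)) (Sum.inr (i', κ')) =
          ![e2s (zq I (b i') (U i') (W i') (fun l => ((y.1 l : ℚ) : ℂ))), e4 (zq I (b i') (U i') (W i') (fun l => ((y.1 l : ℚ) : ℂ))),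
            e6 (zq I (b i') (U i') (W i') (fun l => ((y.1 l : ℚ) : ℂ)))] κ' := by
        intro i' κ'
        have e : (fun l => ((y.1 l : ℚ) : ℂ)) = (fun l => (((y.1 l : ℚ) : ℝ) : ℂ)) := by
          funext l
          simp
        rw [e]
        exact famQ_real b U W (fun l => ((y.1 l : ℚ) : ℝ)) i' (by exact_mod_cast y.2.2.1 _ (h.bV i')) κ' _ rfl
      show _ = famQ b U W (fun l => ((y.1 l : ℚ) : ℂ)) (Sum.inr (i, κ)) /
        (famQ b U W (fun l => ((y.1 l : ℚ) : ℂ)) (Sum.inr (k i, 2)) /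
          famQ b U W (fun l => ((y.1 l : ℚ) : ℂ)) (Sum.inr (k i, 1))) ^ ((![1, 2, 3] : Fin 3 → ℕ) κ)
      rw [hreal, hreal, hreal]
      have h4 := (y.2.2.2.2 (k i)).1
      have h6 := (y.2.2.2.2 (k i)).2
      have hOy := hOm y i
      generalize zq I (b (k i)) (U (k i)) (W (k i)) (fun l => ((y.1 l : ℚ) : ℂ)) = zk at h4 h6 ⊢
      generalize zq I (b i) (U i) (W i) (fun l => ((y.1 l : ℚ) : ℂ)) = zi
      generalize Om (Dn (y.1 (b i))) = O at hOy ⊢
      fin_cases κ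
      · show e2s zi / O ^ 2 * ((e6 zk / e4 zk) / O ^ 2)⁻¹ ^ 1 = e2s zi / (e6 zk / e4 zk) ^ 1
        field_simp
      · show e4 zi / O ^ 4 * ((e6 zk / e4 zk) / O ^ 2)⁻¹ ^ 2 = e4 zi / (e6 zk / e4 zk) ^ 2
        field_simp
      · show e6 zi / O ^ 6 * ((e6 zk / e4 zk) / O ^ 2)⁻¹ ^ 3 = e6 zi / (e6 zk / e4 zk) ^ 3
        field_simp
  obtain ⟨C', hC'⟩ := PC.lower (X := X) (B := fun y => Bd y.1) hB2 hPC
  -- upper bound
  have hO' := hFd.isBigO_sub
  obtain ⟨K, hKpos, hKb⟩ := hO'.exists_pos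
  have hup := hxtv.eventually hKb.bound
  have hzero : ∀ᶠ k in atTop, F (fun l => ((q k l : ℚ) : ℂ)) = 0 := by
    filter_upwards [hup, hgood1, hgoodV, hgood2, hgood3, g1_exp C' K] with k hk hk1 hkV hk2 hk3 hk4
    rw [hFt, sub_zero] at hk
    have h1 : ‖(fun l => ((q k l : ℚ) : ℂ)) - (fun l => (x l : ℂ))‖ ≤ Real.exp (-(Bd (q k) : ℝ) ^ k) := by
      rw [pi_norm_le_iff_of_nonneg (Real.exp_pos _).le]
      intro l
      rw [Pi.sub_apply, hnorm k l]
      exact (hq1 k l).le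
    have h2 : ‖F (fun l => ((q k l : ℚ) : ℂ))‖ < Real.exp (-(Bd (q k) : ℝ) ^ C') :=
      lt_of_le_of_lt (hk.trans (mul_le_mul_of_nonneg_left h1 hKpos.le)) (hk4 (Bd (q k)) (g1_two_le_Bd _))
    rcases hC' ⟨q k, hk1, hkV, hk2, hk3⟩ with h3 | h3
    · exact h3
    · exact absurd h2 (not_lt.mpr h3)
  -- nonvanishing
  have hPne : MvPolynomial.map (algebraMap ℚ ℂ) P ≠ 0 := by
    intro h0
    apply hP0
    exact MvPolynomial.map_injective _ (algebraMap ℚ ℂ).injective (by rw [h0, map_zero])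
  have hFne : ¬ ∀ᶠ y in 𝓝 (fun l => (x l : ℂ)), F y = 0 := by
    intro hev
    apply hPne
    refine nrm_indep (𝓝 (fun l => (x l : ℂ))) k hk (fun y => famQ b U W y) (famQ_indep V x b U W h) ?_ _ ?_
    · rw [eventually_all]
      intro i
      have h1 := (famQ_analytic V x b U W h (Sum.inr (i, 1))).continuousAt.tendsto
      have h2 := (famQ_analytic V x b U W h (Sum.inr (i, 2))).continuousAt.tendsto
      exact (h1.eventually_ne (h0 i).1).and (h2.eventually_ne (h0 i).2)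
    · filter_upwards [hev] with y hy
      rw [MvPolynomial.eval_map]
      exact hy
  have hnv := flag_gen m F (fun l => (x l : ℂ)) hFa hFne
    (fun k l => ((q k l : ℚ) : ℂ)) hxtC (by
      intro l k he
      have := hq0 k l
      rw [← hnorm k l, he, sub_self, norm_zero] at this
      exact lt_irrefl _ this) (by
      intro C'
      have hle : ∀ᶠ k in atTop, ∀ l, |x l - q k l| ≤ 1 := by
        refine Eventually.of_forall (fun k l => ?_)
        refine (hq1' k l).le.trans ?_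
        rw [Real.exp_le_one_iff]
        have : (0 : ℝ) < 2 ^ k := by positivity
        linarith
      filter_upwards [hle, eventually_ge_atTop C'] with k hk1 hk2 l l' hll
      simp only [hnorm]
      refine (hq2 k l l' hll).le.trans ?_
      exact pow_le_pow_of_le_one (abs_nonneg _) (hk1 l') hk2)
  obtain ⟨k, hk1, hk2⟩ := (hzero.and hnv).exists
  exact hk2 hk1

end Pool.Agent.MSD
end

end

section

/-! # Q19: the theorem for the fields ℚ(x_l, √(-x_b)) (MP_f58a57_nt) -/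

open Complex ModularForm EisensteinSeries Filter
open UpperHalfPlane hiding I
open scoped Topology MatrixGroups Polynomial

noncomputable section

namespace Pool.Agent.MSD

instance q19_fintype {A ι : Type} [Fintype A] [Fintype ι] (k : ι → ι) : Fintype (JN (A := A) k) := by
  classical
  unfold JN
  infer_instance

/-- the cardinality of the index set -/
theorem q19_card {m n : ℕ} (β : Fin n → Fin m) (k : Fin n → Fin n) (hk : ∀ i, β (k i) = β i)
    (hc : ∀ i j, β i = β j → k i = k j) :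
    Fintype.card (JN (A := Fin m) k) + (Finset.univ.image β).card = m + 3 * n := by
  classical
  have hkk : ∀ i, k (k i) = k i := fun i => hc _ _ (hk i)
  -- the bases
  have h0 : (Finset.univ.image β).card = (Finset.univ.filter (fun i => k i = i)).card := by
    have e : (Finset.univ.image β) = (Finset.univ.filter (fun i => k i = i)).image β := by
      ext c
      simp only [Finset.mem_image, Finset.mem_univ, true_and, Finset.mem_filter]
      constructor
      · rintro ⟨i, rfl⟩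
        exact ⟨k i, hkk i, hk i⟩
      · rintro ⟨i, -, rfl⟩
        exact ⟨i, rfl⟩
    rw [e, Finset.card_image_of_injOn]
    intro i hi j hj hij
    have hi' := (Finset.mem_filter.1 (Finset.mem_coe.1 hi)).2
    have hj' := (Finset.mem_filter.1 (Finset.mem_coe.1 hj)).2
    rw [← hi', ← hj']
    exact hc _ _ hij
  have h1 : (Finset.univ.filter (fun p : Fin m ⊕ (Fin n × Fin 3) => ¬ ∀ i, p = Sum.inr (i, 2) → k i ≠ i)).card =
      (Finset.univ.filter (fun i => k i = i)).card := by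
    have e : (Finset.univ.filter (fun p : Fin m ⊕ (Fin n × Fin 3) => ¬ ∀ i, p = Sum.inr (i, 2) → k i ≠ i)) =
        (Finset.univ.filter (fun i => k i = i)).image (fun i => Sum.inr (i, 2)) := by
      ext p
      simp only [Finset.mem_image, Finset.mem_univ, true_and, Finset.mem_filter]
      push Not
      constructor
      · rintro ⟨i, h, h'⟩
        exact ⟨i, h', h.symm⟩
      · rintro ⟨i, h, h'⟩
        exact ⟨i, h'.symm, h⟩
    rw [e, Finset.card_image_of_injective]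
    intro i j hij
    have := Sum.inr_injective hij
    exact (Prod.mk.inj this).1
  have h2 : Fintype.card (JN (A := Fin m) k) =
      (Finset.univ.filter (fun p : Fin m ⊕ (Fin n × Fin 3) => ∀ i, p = Sum.inr (i, 2) → k i ≠ i)).card := by
    rw [← Fintype.card_subtype (α := Fin m ⊕ (Fin n × Fin 3)) (fun p => ∀ i, p = Sum.inr (i, 2) → k i ≠ i)]
    exact Fintype.card_congr (Equiv.refl _)
  have h3 := Finset.card_filter_add_card_filter_not (s := (Finset.univ : Finset (Fin m ⊕ (Fin n × Fin 3))))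
    (fun p => ∀ i, p = Sum.inr (i, 2) → k i ≠ i)
  rw [Finset.card_univ, Fintype.card_sum, Fintype.card_prod, Fintype.card_fin, Fintype.card_fin, Fintype.card_fin] at h3
  rw [h2, h0, ← h1]
  omega

/-- Q19. PROOF (compare `main2` in `M16_Final.lean`). `uctrl` gives `Om, C`. The `x l` are algebraically independent (`alg_indepM` with `ι = Empty`). Choose `β i ∈ V` with `z i ∈ FV V x (β i)` and `U i, W i` from `memFV_rep`. For every block `c` in the image of `β` choose `rep c` with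
`β (rep c) = c`; `k i = rep (β i)`, so `k (k i) = k i`, `β (k i) = β i`. `SysQ` holds; `e4, e6 ≠ 0` by `jj_ne`. `alg_indepQ`: the family indexed by `JN k`, of cardinality `m + 3 n - u`, `u = card (image β)` (`{i | k i = i}` is in bijection with `image β`), is algebraically independent.
`S` = all `z i, j, j', j''`; `T = {x l : l ∉ image β}`, `card T ≤ m - u`; `F` = relative algebraic closure of `ℚ(S ∪ T)`. For `l = β i`: `x l ∈ F` by `xb_algebraic` (`l' ∉ V` implies `l' ∉ image β`). `√(x l) ∈ F`, `Im (z i) ∈ F` (`FV_im_mem`).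
`θ = e6 (z k)/e4 (z k)`: `π θ = -j'(z k)/(2 i j(z k)) ∈ F` (`link6` with `Ω = 1`). With `Ω² = θ`, `link_mem` gives `e4/θ², e6/θ³, e2s/θ ∈ F`, the members of the family (`famQ_real`). `trdeg_lower`: `m + 3 n - u ≤ trdeg + (m - u)`. -/
theorem main3 {m n : ℕ} (V : Finset (Fin m)) (x : Fin m → ℝ) (hx : HyperLiouville x) (hV : ∀ l ∈ V, 0 < x l)
    (z : Fin n → ℂ) (hz : ∀ i, 0 < (z i).im) (hind : ∀ i j, i ≠ j → ¬ GEquiv (z i) (z j)) (hj : ∀ i, deriv jj (z i) ≠ 0)
    (hor : ∀ i, ∃ b ∈ V, z i ∈ FV V x b) :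
    (∀ i, ¬ IsSpecial (z i)) ∧ ((3 * n : ℕ) : Cardinal) ≤ Algebra.trdeg ℚ (IntermediateField.adjoin ℚ
        (⋃ i, {z i, jj (z i), deriv jj (z i), deriv (deriv jj) (z i)} : Set ℂ)) := by
  classical
  obtain ⟨Om, C, hO⟩ := uctrl
  -- the `x l` are algebraically independent
  have hxA : AlgebraicIndependent ℚ (fun l => (x l : ℂ)) := by
    have h0 := alg_indepM (r := 1) (fun _ => 0) (fun _ => 1) x hx (fun _ => Om 1) (fun _ => hO.base 1 one_pos)
      (fun _ => Empty) (fun _ e => e.elim) (fun _ e => e.elim)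
      ⟨fun _ => one_pos, fun _ e => e.elim, fun _ e => e.elim, fun _ e => e.elim, fun _ e => e.elim,
        fun _ e => e.elim, fun _ e => e.elim⟩
    exact h0.comp Sum.inl Sum.inl_injective
  choose β hβV hβz using hor
  have him0 : ∀ i, (z i).im ≠ 0 := fun i => (hz i).ne'
  have hns : ∀ i, ¬ IsSpecial (z i) := fun i =>
    FV_not_special V x hxA (β i) (hβV i) (hV _ (hβV i)) (z i) (hβz i) (him0 i)
  refine ⟨hns, ?_⟩
  choose U W hUv hWv hWne hrep using fun i => memFV_rep V x (β i) (hV _ (hβV i)) (z i) (hβz i)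
  have hsys : SysQ V x β U W := by
    refine ⟨hV, hβV, hWne, fun i => ?_, fun i j hij => ?_⟩
    · rw [← hrep i]; exact hz i
    · rw [← hrep i, ← hrep j]; exact hind i j hij
  have hne46 : ∀ i, e4 (z i) ≠ 0 ∧ e6 (z i) ≠ 0 := fun i => by
    obtain ⟨-, -, h3, h4⟩ := jj_ne (z i) (hz i) (hj i)
    exact ⟨h3, h4⟩
  -- representatives of the blocks
  have hrepc : ∀ i, ∃ i', β i' = β i := fun i => ⟨i, rfl⟩
  let rp : Fin m → Option (Fin n) := fun c => if h : ∃ i, β i = c then some h.choose else none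
  let k : Fin n → Fin n := fun i => (⟨i, rfl⟩ : ∃ i', β i' = β i).choose
  have hkβ : ∀ i, β (k i) = β i := fun i => (⟨i, rfl⟩ : ∃ i', β i' = β i).choose_spec
  have hkcongr : ∀ i j, β i = β j → k i = k j := by
    intro i j hij
    have : (fun i' => β i' = β i) = (fun i' => β i' = β j) := by rw [hij]
    simp only [k]
    congr 1
  have hkk : ∀ i, k (k i) = k i := fun i => hkcongr _ _ (hkβ i)
  have hAI := alg_indepQ hO V x hx β U W hsys k hkk hkβ (fun i => by rw [← hrep i]; exact hne46 i)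
  -- the counting
  set Bs : Finset (Fin m) := Finset.univ.image β with hBs
  have hJcard : Fintype.card (JN (A := Fin m) k) + Bs.card = m + 3 * n := by
    exact q19_card β k hkβ hkcongr
  set S : Set ℂ := ⋃ i, {z i, jj (z i), deriv jj (z i), deriv (deriv jj) (z i)} with hS
  set T : Finset ℂ := (Finset.univ \ Bs).image (fun l => (x l : ℂ)) with hT
  set L := IntermediateField.adjoin ℚ (S ∪ (T : Set ℂ)) with hL
  have hSL : ∀ y ∈ S, y ∈ L := fun y hy => IntermediateField.subset_adjoin _ _ (Or.inl hy)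
  have hTL : ∀ y ∈ T, y ∈ L := fun y hy => IntermediateField.subset_adjoin _ _ (Or.inr hy)
  have hzS : ∀ i, z i ∈ S := fun i => Set.mem_iUnion.2 ⟨i, by simp⟩
  have hjS : ∀ i, jj (z i) ∈ S := fun i => Set.mem_iUnion.2 ⟨i, by simp⟩
  have hj1S : ∀ i, deriv jj (z i) ∈ S := fun i => Set.mem_iUnion.2 ⟨i, by simp⟩
  have hj2S : ∀ i, deriv (deriv jj) (z i) ∈ S := fun i => Set.mem_iUnion.2 ⟨i, by simp⟩
  set F : Subfield ℂ := (algebraicClosure L ℂ).toSubfield with hF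
  have hFmem : ∀ y : ℂ, y ∈ F ↔ IsAlgebraic L y := by
    intro y
    rw [hF]
    exact mem_algebraicClosure_iff
  have hLF : ∀ y ∈ L, y ∈ F := fun y hy => (hFmem y).2 (isAlgebraic_algebraMap (⟨y, hy⟩ : L))
  have hQF : ∀ y : ℂ, IsAlgebraic ℚ y → y ∈ F := fun y hy => (hFmem y).2 (hy.tower_top L)
  have hIF : I ∈ F := hQF _ isIntegral_rat_I.isAlgebraic
  have hsqF : ∀ y : ℂ, y ^ 2 ∈ F → y ∈ F := fun y hy =>
    (hFmem _).2 (IsAlgebraic.of_pow two_pos ((hFmem _).1 hy))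
  have hxB : ∀ l, l ∉ Bs → (x l : ℂ) ∈ L := by
    intro l hl
    refine hTL _ (Finset.mem_image.2 ⟨l, ?_, rfl⟩)
    exact Finset.mem_sdiff.2 ⟨Finset.mem_univ _, hl⟩
  have hBV : ∀ l ∈ Bs, l ∈ V := by
    intro l hl
    obtain ⟨i, -, rfl⟩ := Finset.mem_image.1 hl
    exact hβV i
  have hxF : ∀ l, (x l : ℂ) ∈ F := by
    intro l
    by_cases hl : l ∈ Bs
    · obtain ⟨i, -, rfl⟩ := Finset.mem_image.1 hl
      refine (hFmem _).2 (m16_alg_mono ?_ (xb_algebraic V x hxA (β i) (hβV i) (hV _ (hβV i)) (z i) (hβz i) (him0 i)))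
      rw [IntermediateField.adjoin_le_iff]
      rintro y (rfl | ⟨l', hl', rfl⟩)
      · exact hSL _ (hzS _)
      · exact hxB _ fun hmem => hl' (hBV _ hmem)
    · exact hLF _ (hxB l hl)
  have hrtF : ∀ i, ((Real.sqrt (x (β i)) : ℝ) : ℂ) ∈ F := by
    intro i
    apply hsqF
    rw [← ofReal_pow, Real.sq_sqrt (hV _ (hβV i)).le]
    exact hxF _
  have hyF : ∀ i, ((z i).im : ℂ) ∈ F := fun i =>
    FV_im_mem V x (β i) (hV _ (hβV i)) (z i) (hβz i) F hIF (hrtF i) hxF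
  have hθF : ∀ i, (Real.pi : ℂ) * (e6 (z i) / e4 (z i)) ∈ F := by
    intro i
    obtain ⟨h1, h2, h3, h4⟩ := jj_ne (z i) (hz i) (hj i)
    have hlink := link6 (z i) 1 (hz i) one_ne_zero (hj i)
    simp only [one_pow, div_one, mul_one] at hlink
    have hpi : (Real.pi : ℂ) ≠ 0 := by exact_mod_cast Real.pi_ne_zero
    have he : (Real.pi : ℂ) * (e6 (z i) / e4 (z i)) = -(deriv jj (z i)) / (2 * I * jj (z i)) := by
      rw [hlink]
      field_simp
    rw [he]
    have h2F : (2 : ℂ) ∈ F := by simp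
    exact F.div_mem (F.neg_mem (hLF _ (hSL _ (hj1S i)))) (F.mul_mem (F.mul_mem h2F hIF) (hLF _ (hSL _ (hjS i))))
  have halg : ∀ j : JN (A := Fin m) k, IsAlgebraic L (nrm k (famQ β U W (fun l => (x l : ℂ))) j.1) := by
    rintro ⟨l | ⟨i, κ⟩, hj'⟩
    · exact (hFmem _).1 (hxF l)
    · rw [← hFmem]
      have hreal : ∀ (i' : Fin n) (κ' : Fin 3), famQ β U W (fun l => (x l : ℂ)) (Sum.inr (i', κ')) =
          ![e2s (z i'), e4 (z i'), e6 (z i')] κ' := fun i' κ' =>
        famQ_real β U W x i' (hV _ (hβV i')) κ' (z i') (hrep i')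
      show famQ β U W (fun l => (x l : ℂ)) (Sum.inr (i, κ)) /
        (famQ β U W (fun l => (x l : ℂ)) (Sum.inr (k i, 2)) /
          famQ β U W (fun l => (x l : ℂ)) (Sum.inr (k i, 1))) ^ ((![1, 2, 3] : Fin 3 → ℕ) κ) ∈ F
      rw [hreal, hreal, hreal]
      obtain ⟨O, hOO⟩ := IsAlgClosed.exists_pow_nat_eq (e6 (z (k i)) / e4 (z (k i))) (n := 2) (by norm_num)
      have hO0 : O ≠ 0 := by
        rintro rfl
        rw [zero_pow (by norm_num)] at hOO
        exact div_ne_zero (hne46 (k i)).2 (hne46 (k i)).1 hOO.symm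
      obtain ⟨ha, hb, hc⟩ := link_mem F (z i) O (hz i) hO0 (hj i)
        (hLF _ (hSL _ (hjS i))) (hLF _ (hSL _ (hj1S i))) (hLF _ (hSL _ (hj2S i))) hIF (hyF i)
        (by rw [hOO]; exact hθF (k i))
      show ![e2s (z i), e4 (z i), e6 (z i)] κ / (e6 (z (k i)) / e4 (z (k i))) ^ ((![1, 2, 3] : Fin 3 → ℕ) κ) ∈ F
      rw [← hOO, ← pow_mul]
      fin_cases κ
      · exact hc
      · exact ha
      · exact hb
  have hmain := trdeg_lower (JN (A := Fin m) k) _ hAI S T halg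
  have hTcard : T.card ≤ m - Bs.card := by
    refine Finset.card_image_le.trans ?_
    rw [Finset.card_sdiff_of_subset (Finset.subset_univ _), Finset.card_univ, Fintype.card_fin]
  have hBm : Bs.card ≤ m := by
    have := Finset.card_le_univ Bs
    rwa [Fintype.card_fin] at this
  have h1 : ((m - Bs.card + 3 * n : ℕ) : Cardinal) ≤ Algebra.trdeg ℚ (IntermediateField.adjoin ℚ S) + (T.card : Cardinal) := by
    refine le_trans ?_ hmain
    have : m - Bs.card + 3 * n ≤ Fintype.card (JN (A := Fin m) k) := by omega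
    exact_mod_cast this
  have h2 := card_arith _ (m - Bs.card) n 0 T.card h1 (by omega)
  simpa using h2

end Pool.Agent.MSD
end

end
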